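import Pool.Agent.RCH.Points

/-!
# Products of integral subschemes are integral subschemes

Over an algebraically closed field, the sum of prime ideals in different sets of variables is prime.
-/

set_option autoImplicit false

open MvPolynomial

namespace Pool.Agent.RCH

section ext

variable {k : Type*} [Field k] {A : Type*} [CommRing A] [Algebra k A] {σ β : Type*}
  (e : Module.Basis β k A)

/-- a coordinate of the coefficients of a polynomial -/
noncomputable def crd (f : MvPolynomial σ A) (b : β) : MvPolynomial σ k :=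
  ∑ m ∈ f.support, monomial m (e.repr (coeff m f) b)

lemma coeff_crd (f : MvPolynomial σ A) (b : β) (m : σ →₀ ℕ) :
    coeff m (crd e f b) = e.repr (coeff m f) b := by
  classical
  unfold crd
  rw [coeff_sum]
  simp only [coeff_monomial]
  rw [Finset.sum_ite_eq']
  split_ifs with h
  · rfl
  · rw [notMem_support_iff.1 h]; simp

/-- evaluation at a point with coordinates in the field -/
noncomputable def evp (x : σ → k) : MvPolynomial σ A →+* A :=
  eval fun i => algebraMap k A (x i)

lemma repr_evp (f : MvPolynomial σ A) (x : σ → k) (b : β) :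
    e.repr (evp x f) b = eval x (crd e f b) := by
  unfold evp crd
  rw [eval_eq, map_sum, map_sum, Finsupp.finsetSum_apply]
  refine Finset.sum_congr rfl fun m _ => ?_
  rw [eval_monomial, Finsupp.prod]
  have h : coeff m f * ∏ i ∈ m.support, algebraMap k A (x i) ^ m i =
      (∏ i ∈ m.support, x i ^ m i) • coeff m f := by
    rw [Algebra.smul_def, map_prod, mul_comm]
    simp only [map_pow]
  rw [h, map_smul, Finsupp.smul_apply, smul_eq_mul, mul_comm]

lemma evp_map (f : MvPolynomial σ k) (x : σ → k) :
    evp (A := A) x (map (algebraMap k A) f) = algebraMap k A (eval x f) := by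
  unfold evp
  rw [eval_map]
  show _ = algebraMap k A (eval₂ (RingHom.id k) x f)
  rw [eval₂_comp_left]
  rfl

lemma mem_map_of_crd (f : MvPolynomial σ A) (I : Ideal (MvPolynomial σ k))
    (h : ∀ b, crd e f b ∈ I) : f ∈ I.map (map (algebraMap k A)) := by
  classical
  let S : Finset β := f.support.biUnion fun m => (e.repr (coeff m f)).support
  have hf : f = ∑ b ∈ S, C (e b) * map (algebraMap k A) (crd e f b) := by
    ext m
    rw [coeff_sum]
    simp only [coeff_C_mul, coeff_map, coeff_crd]
    by_cases hm : m ∈ f.support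
    · have hs : (e.repr (coeff m f)).support ⊆ S := by
        intro b hb
        exact Finset.mem_biUnion.2 ⟨m, hm, hb⟩
      conv_lhs => rw [← e.linearCombination_repr (coeff m f), Finsupp.linearCombination_apply,
        Finsupp.sum_of_support_subset _ hs _ (by simp)]
      refine Finset.sum_congr rfl fun b _ => ?_
      rw [Algebra.smul_def, mul_comm]
    · rw [notMem_support_iff.1 hm]
      simp
  rw [hf]
  refine Ideal.sum_mem _ fun b _ => Ideal.mul_mem_left _ _ (Ideal.mem_map_of_mem _ (h b))

lemma exists_zero_ne [IsAlgClosed k] [Finite σ] (I : Ideal (MvPolynomial σ k)) [I.IsPrime]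
    {f : MvPolynomial σ k} (hf : f ∉ I) :
    ∃ x : σ → k, (∀ p ∈ I, eval x p = 0) ∧ eval x f ≠ 0 := by
  by_contra! hne
  apply hf
  rw [← IsPrime.vanishingIdeal_zeroLocus (K := k) I, mem_vanishingIdeal_iff]
  intro x hx
  exact hne x hx

/-- the extension of a prime ideal to polynomials with coefficients in a domain is prime -/
theorem prime_ext [IsAlgClosed k] [Finite σ] [IsDomain A] (I : Ideal (MvPolynomial σ k))
    [hI : I.IsPrime] : (I.map (map (algebraMap k A))).IsPrime := by
  let e := Module.Basis.ofVectorSpace k A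
  have hker : ∀ x : σ → k, (∀ p ∈ I, eval x p = 0) →
      ∀ f ∈ I.map (map (algebraMap k A)), evp (A := A) x f = 0 := by
    intro x hx
    have h : I.map (map (algebraMap k A)) ≤ RingHom.ker (evp (A := A) x) := by
      rw [Ideal.map_le_iff_le_comap]
      intro p hp
      show evp (A := A) x (map (algebraMap k A) p) = 0
      rw [evp_map, hx p hp, map_zero]
    exact fun f hf => h hf
  constructor
  · intro htop
    obtain ⟨x, hx, -⟩ := exists_zero_ne I (f := 1) (fun h => hI.ne_top ((Ideal.eq_top_iff_one I).2 h))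
    have := hker x hx 1 (by rw [htop]; trivial)
    rw [map_one] at this
    exact one_ne_zero this
  · intro f g hfg
    by_contra! hne
    obtain ⟨hf, hg⟩ := hne
    have hf' : ∃ b, crd e f b ∉ I := by
      by_contra! h
      exact hf (mem_map_of_crd e f I h)
    have hg' : ∃ b, crd e g b ∉ I := by
      by_contra! h
      exact hg (mem_map_of_crd e g I h)
    obtain ⟨b, hb⟩ := hf'
    obtain ⟨c, hc⟩ := hg'
    obtain ⟨x, hx, hne⟩ := exists_zero_ne I (f := crd e f b * crd e g c)
      (fun h => (hI.mem_or_mem h).elim hb hc)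
    have h0 := hker x hx _ hfg
    rw [map_mul, mul_eq_zero] at h0
    rw [map_mul] at hne
    rcases h0 with h0 | h0
    · apply hne
      rw [← repr_evp e f x b, h0, map_zero, Finsupp.zero_apply, zero_mul]
    · apply hne
      rw [← repr_evp e g x c, h0, map_zero, Finsupp.zero_apply, mul_zero]

end ext

section sum

variable {k : Type*} [Field k] [IsAlgClosed k] {σ τ : Type*} [Finite σ]

/-- the sum of two prime ideals in different sets of variables is prime -/
theorem prime_sum (I : Ideal (MvPolynomial σ k)) [hI : I.IsPrime] (K : Ideal (MvPolynomial τ k))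
    [hK : K.IsPrime] :
    (I.map (rename (R := k) (Sum.inl : σ → σ ⊕ τ)).toRingHom ⊔
      K.map (rename (R := k) (Sum.inr : τ → σ ⊕ τ)).toRingHom).IsPrime := by
  let E := sumAlgEquiv k σ τ
  let pi : MvPolynomial σ (MvPolynomial τ k) →+* MvPolynomial σ (MvPolynomial τ k ⧸ K) :=
    map (Ideal.Quotient.mk K)
  have hpi : Function.Surjective pi := map_surjective _ Ideal.Quotient.mk_surjective
  have h1 : (I.map (map (algebraMap k (MvPolynomial τ k ⧸ K)))).IsPrime := prime_ext I
  have hker : RingHom.ker pi = K.map (C : MvPolynomial τ k →+* MvPolynomial σ (MvPolynomial τ k)) := by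
    have := MvPolynomial.ker_map (σ := σ) (Ideal.Quotient.mk K)
    rw [Ideal.mk_ker] at this
    exact this
  have h2 : I.map (map (algebraMap k (MvPolynomial τ k ⧸ K))) =
      (I.map (map (C : k →+* MvPolynomial τ k))).map pi := by
    rw [Ideal.map_map]
    congr 1
    refine RingHom.ext fun p => ?_
    show map (algebraMap k (MvPolynomial τ k ⧸ K)) p =
      map (Ideal.Quotient.mk K) (map (C : k →+* MvPolynomial τ k) p)
    rw [map_map]
    rfl
  have h3 : (I.map (map (C : k →+* MvPolynomial τ k)) ⊔
      K.map (C : MvPolynomial τ k →+* MvPolynomial σ (MvPolynomial τ k))).IsPrime := by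
    have h4 : I.map (map (C : k →+* MvPolynomial τ k)) ⊔
        K.map (C : MvPolynomial τ k →+* MvPolynomial σ (MvPolynomial τ k)) =
        (I.map (map (algebraMap k (MvPolynomial τ k ⧸ K)))).comap pi := by
      rw [h2, Ideal.comap_map_of_surjective _ hpi, ← hker]
      rfl
    rw [h4]
    exact Ideal.comap_isPrime pi _
  let F : MvPolynomial σ (MvPolynomial τ k) ≃+* MvPolynomial (σ ⊕ τ) k := E.symm.toRingEquiv
  have h5 : I.map (rename (R := k) (Sum.inl : σ → σ ⊕ τ)).toRingHom ⊔
      K.map (rename (R := k) (Sum.inr : τ → σ ⊕ τ)).toRingHom =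
      (I.map (map (C : k →+* MvPolynomial τ k)) ⊔
      K.map (C : MvPolynomial τ k →+* MvPolynomial σ (MvPolynomial τ k))).map F.toRingHom := by
    rw [Ideal.map_sup, Ideal.map_map, Ideal.map_map]
    congr 2
    · apply MvPolynomial.ringHom_ext
      · intro r
        simp [F, E]
      · intro i
        simp [F, E]
    · apply MvPolynomial.ringHom_ext
      · intro r
        simp [F, E]
      · intro i
        simp [F, E]
  rw [h5]
  exact Ideal.map_isPrime_of_equiv F

end sum

section box

variable {ι : Type}

/-- the coordinates of the first point and those of the others -/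
def splitFirst (N : ℕ) : (Fin 1 × ι) ⊕ (Fin N × ι) ≃ Fin (N + 1) × ι where
  toFun := Sum.elim (fun v => (0, v.2)) (fun v => (v.1.succ, v.2))
  invFun v := Fin.cases (motive := fun _ => (Fin 1 × ι) ⊕ (Fin N × ι)) (Sum.inl (0, v.2))
    (fun i => Sum.inr (i, v.2)) v.1
  left_inv := by
    rintro (⟨a, j⟩ | ⟨i, j⟩)
    · have : a = 0 := Subsingleton.elim _ _
      subst this
      rfl
    · rfl
  right_inv := by
    rintro ⟨i, j⟩
    refine Fin.cases ?_ (fun i => ?_) i
    · rfl
    · rfl

/-- the coordinate ring map of the `i`-th projection -/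
noncomputable abbrev prMap (ι : Type) (N : ℕ) (i : Fin N) : Coord ι 1 →ₐ[ℂ] Coord ι N :=
  rename (R := ℂ) (fun v : Fin 1 × ι => (i, v.2))

theorem prime_box [Finite ι] (N : ℕ) (J : Fin N → Ideal (Coord ι 1)) (hJ : ∀ i, (J i).IsPrime) :
    (⨆ i, (J i).map (prMap ι N i).toRingHom).IsPrime := by
  induction N with
  | zero =>
    have : (⨆ i, (J i).map (prMap ι 0 i).toRingHom) = ⊥ := by
      rw [iSup_of_empty]
    rw [this]
    exact Ideal.isPrime_bot
  | succ N ih =>
    have := hJ 0
    have := ih (fun i => J i.succ) (fun i => hJ i.succ)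
    have h := prime_sum (J 0) (⨆ i, (J (Fin.succ i)).map (prMap ι N i).toRingHom)
    let F : MvPolynomial ((Fin 1 × ι) ⊕ (Fin N × ι)) ℂ ≃+* Coord ι (N + 1) :=
      (renameEquiv ℂ (splitFirst N)).toRingEquiv
    have h2 : (⨆ i, (J i).map (prMap ι (N + 1) i).toRingHom) =
        ((J 0).map (rename (R := ℂ) (Sum.inl : (Fin 1 × ι) → (Fin 1 × ι) ⊕ (Fin N × ι))).toRingHom ⊔
        (⨆ i, (J (Fin.succ i)).map (prMap ι N i).toRingHom).map
          (rename (R := ℂ) (Sum.inr : (Fin N × ι) → (Fin 1 × ι) ⊕ (Fin N × ι))).toRingHom).map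
          F.toRingHom := by
      rw [Ideal.map_sup, Ideal.map_map, Ideal.map_map, Ideal.map_iSup]
      have e0 : (F.toRingHom.comp
          (rename (R := ℂ) (Sum.inl : (Fin 1 × ι) → (Fin 1 × ι) ⊕ (Fin N × ι))).toRingHom) =
          (prMap ι (N + 1) 0).toRingHom := by
        apply MvPolynomial.ringHom_ext
        · intro r
          simp [F]
        · intro i
          simp [F, splitFirst]
      have e1 : ∀ i : Fin N, ((F.toRingHom.comp
          (rename (R := ℂ) (Sum.inr : (Fin N × ι) → (Fin 1 × ι) ⊕ (Fin N × ι))).toRingHom).comp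
          (prMap ι N i).toRingHom) =
          (prMap ι (N + 1) i.succ).toRingHom := by
        intro i
        apply MvPolynomial.ringHom_ext
        · intro r
          simp [F]
        · intro i
          simp [F, splitFirst]
      rw [e0]
      apply le_antisymm
      · refine iSup_le fun i => ?_
        refine Fin.cases ?_ (fun i => ?_) i
        · exact le_sup_left
        · refine le_trans ?_ le_sup_right
          refine le_trans ?_ (le_iSup _ i)
          rw [Ideal.map_map, e1]
      · refine sup_le ?_ ?_
        · exact le_iSup (fun i => (J i).map (prMap ι (N + 1) i).toRingHom) 0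
        · refine iSup_le fun i => ?_
          rw [Ideal.map_map, e1]
          exact le_iSup (fun i => (J i).map (prMap ι (N + 1) i).toRingHom) i.succ
    rw [h2]
    exact Ideal.map_isPrime_of_equiv F

variable (X : WVar ι)

lemma prMap_homogeneous {N : ℕ} (i : Fin N) {f : Coord ι 1} {e : Fin 1 → ℕ}
    (hf : IsWeightedHomogeneous (X.mdeg 1) f e) :
    IsWeightedHomogeneous (X.mdeg N) (prMap ι N i f) (Pi.single i (e 0)) := by
  classical
  intro s hs
  have hinj : Function.Injective (fun v : Fin 1 × ι => ((i, v.2) : Fin N × ι)) := by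
    rintro ⟨a, j⟩ ⟨b, k⟩ h
    have h1 : j = k := (Prod.mk.inj h).2
    have h2 : a = b := Subsingleton.elim _ _
    rw [h1, h2]
  obtain ⟨u, hu, hs'⟩ := coeff_rename_ne_zero _ _ _ hs
  have h1 := hf hs'
  rw [← hu]
  rw [Finsupp.weight_apply, Finsupp.sum_mapDomain_index_inj hinj]
  rw [Finsupp.weight_apply] at h1
  rw [← h1]
  funext k
  rw [Finsupp.sum, Finset.sum_apply, Finsupp.sum, Finset.sum_apply]
  by_cases hk : k = i
  · subst hk
    rw [Pi.single_eq_same]
    refine Finset.sum_congr rfl fun j hj => ?_
    have : j.1 = 0 := Subsingleton.elim _ _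
    simp [WVar.mdeg, this]
  · rw [Pi.single_eq_of_ne hk]
    refine Finset.sum_eq_zero fun j hj => ?_
    simp [WVar.mdeg, Pi.single_eq_of_ne hk]

attribute [local instance] MvPolynomial.weightedGradedAlgebra

open Classical in
lemma isHomogeneous_box {N : ℕ} (Q : Fin N → Pt X 1) :
    (boxIdeal X Q).IsHomogeneous (weightedHomogeneousSubmodule ℂ (X.mdeg N)) := by
  refine Ideal.IsHomogeneous.iSup fun i => ?_
  have h1 : (Q i).I.IsHomogeneous (weightedHomogeneousSubmodule ℂ (X.mdeg 1)) := by
    intro e p hp
    have := (Q i).homog p hp e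
    rw [← weightedDecomposition.decompose'_apply] at this
    exact this
  obtain ⟨S, hS⟩ := (Ideal.IsHomogeneous.iff_exists _ _).1 h1
  rw [hS, Ideal.map_span]
  refine Ideal.homogeneous_span _ _ ?_
  rintro x ⟨y, ⟨z, hz, rfl⟩, rfl⟩
  obtain ⟨e, he⟩ := z.2
  refine ⟨Pi.single i (e 0), ?_⟩
  have := prMap_homogeneous X i ((mem_weightedHomogeneousSubmodule _ _ _ _).1 he)
  exact (mem_weightedHomogeneousSubmodule _ _ _ _).2 this

/-- The product of integral subschemes of `X` is an integral subscheme of `X^N`. -/
theorem exists_box [Finite ι] {N : ℕ} (Q : Fin N → Pt X 1) : ∃ P : Pt X N, P.I = boxIdeal X Q := by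
  classical
  have hp : (boxIdeal X Q).IsPrime := prime_box N (fun i => (Q i).I) (fun i => (Q i).prime)
  refine ⟨⟨boxIdeal X Q, hp, ?_, ?_, ?_⟩, rfl⟩
  · intro p hp e
    exact weightedHomogeneousComponent_mem_of_mem ℂ _ (isHomogeneous_box X Q) hp e
  · intro i
    have hx : ∀ k : Fin N, ∃ (j : ι) (x : Fin 1 × ι → ℂ), (∀ p ∈ (Q k).I, eval x p = 0) ∧
        x (0, j) ≠ 0 := by
      intro k
      obtain ⟨j, hj⟩ := (Q k).relevant 0
      have := (Q k).prime
      obtain ⟨x, hx, hne⟩ := exists_zero_ne (Q k).I hj
      rw [eval_X] at hne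
      exact ⟨j, x, hx, hne⟩
    choose j x hx hne using hx
    refine ⟨j i, fun hmem => ?_⟩
    let y : Fin N × ι → ℂ := fun v => x v.1 (0, v.2)
    have hle : boxIdeal X Q ≤ RingHom.ker (eval y) := by
      refine iSup_le fun k => ?_
      rw [Ideal.map_le_iff_le_comap]
      intro p hp
      show eval y (rename _ p) = 0
      rw [eval_rename]
      have : y ∘ (fun v : Fin 1 × ι => (k, v.2)) = x k := by
        funext v
        obtain ⟨a, l⟩ := v
        have : a = 0 := Subsingleton.elim _ _
        subst this
        rfl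
      rw [this]
      exact hx k p hp
    have h0 : eval y (MvPolynomial.X (i, j i)) = 0 := hle hmem
    rw [eval_X] at h0
    exact hne i h0
  · intro i f hf
    have h1 := (Q i).onX 0 f hf
    have h2 : inFactor N i f = prMap ι N i (inFactor 1 0 f) := by
      unfold inFactor prMap
      rw [rename_rename]
      rfl
    rw [h2]
    exact Ideal.mem_iSup_of_mem i (Ideal.mem_map_of_mem _ h1)

/-- The cycle of the product is the point of the product. -/
theorem box_eq [Finite ι] {N : ℕ} (Q : Fin N → Pt X 1) :
    ∃ P : Pt X N, P.I = boxIdeal X Q ∧ box X Q = Finsupp.single P 1 := by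
  have h := exists_box X Q
  refine ⟨h.choose, h.choose_spec, ?_⟩
  unfold box
  rw [dif_pos h]

theorem box_of_eq {N : ℕ} (Q : Fin N → Pt X 1) (P : Pt X N) (h : P.I = boxIdeal X Q) :
    box X Q = Finsupp.single P 1 := by
  have h' : ∃ P : Pt X N, P.I = boxIdeal X Q := ⟨P, h⟩
  unfold box
  rw [dif_pos h', Pt.ext' X (h'.choose_spec.trans h.symm)]

end box

end Pool.Agent.RCH
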