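import Pool.Agent.RCH.Ord2
import Pool.Agent.RCH.Box

/-!
# Symmetries of `X^N` act on cycles modulo rational equivalence

A monomial symmetry of `X` permutes the coordinates and multiplies them by nonzero constants. Such
symmetries, one for each factor, and the permutations of the factors, act on the points of `X^N`,
on cycles, and preserve rational equivalence and products of cycles.
-/

set_option autoImplicit false

open MvPolynomial

namespace Pool.Agent.RCH

variable {ι : Type}

/-- A monomial symmetry of `X`: the coordinate `j` is sent to `c j` times the coordinate `σ j`. -/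
structure MSym (X : WVar ι) where
  /-- the permutation of the coordinates -/
  σ : Equiv.Perm ι
  /-- the constants -/
  c : ι → ℂ
  hc : ∀ j, c j ≠ 0
  hwt : ∀ j, X.wt (σ j) = X.wt j
  heq : ∀ f : MvPolynomial ι ℂ,
    aeval (fun j => C (c j) * (MvPolynomial.X (σ j) : MvPolynomial ι ℂ)) f ∈ X.eqs ↔ f ∈ X.eqs

namespace MSym

variable {X : WVar ι}

/-- the action of a monomial symmetry on polynomials -/
noncomputable def act (g : MSym X) : MvPolynomial ι ℂ →ₐ[ℂ] MvPolynomial ι ℂ :=
  aeval (fun j => C (g.c j) * (MvPolynomial.X (g.σ j) : MvPolynomial ι ℂ))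

lemma act_X (g : MSym X) (j : ι) :
    g.act (MvPolynomial.X j) = C (g.c j) * MvPolynomial.X (g.σ j) := by
  rw [act, aeval_X]

/-- the inverse symmetry -/
noncomputable def symm (g : MSym X) : MSym X where
  σ := g.σ.symm
  c := fun j => (g.c (g.σ.symm j))⁻¹
  hc := fun j => inv_ne_zero (g.hc _)
  hwt := fun j => by
    have h := g.hwt (g.σ.symm j)
    rw [Equiv.apply_symm_apply] at h
    exact h.symm
  heq := fun f => by
    rw [← g.heq]
    have h : (aeval (fun j => C (g.c j) * (MvPolynomial.X (g.σ j) : MvPolynomial ι ℂ))).comp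
        (aeval (fun j => C ((g.c (g.σ.symm j))⁻¹) *
          (MvPolynomial.X (g.σ.symm j) : MvPolynomial ι ℂ))) = AlgHom.id ℂ _ := by
      apply MvPolynomial.algHom_ext
      intro j
      rw [AlgHom.comp_apply, aeval_X, map_mul, aeval_X, Equiv.apply_symm_apply, AlgHom.id_apply,
        ← MvPolynomial.algebraMap_eq, AlgHom.commutes, ← mul_assoc, ← map_mul,
        inv_mul_cancel₀ (g.hc _), map_one, one_mul]
    have h1 := congrArg (fun φ => φ f) h
    simp only [AlgHom.comp_apply, AlgHom.id_apply] at h1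
    rw [h1]

/-- the identity -/
noncomputable def one (X : WVar ι) : MSym X where
  σ := Equiv.refl ι
  c := fun _ => 1
  hc := fun _ => one_ne_zero
  hwt := fun _ => rfl
  heq := fun f => by
    have h : (aeval (fun j => C (1 : ℂ) * (MvPolynomial.X (Equiv.refl ι j) : MvPolynomial ι ℂ))) =
        AlgHom.id ℂ _ := by
      apply MvPolynomial.algHom_ext
      intro j
      rw [aeval_X, AlgHom.id_apply, map_one, one_mul]
      rfl
    rw [h, AlgHom.id_apply]

end MSym

section act

variable {X : WVar ι} {N : ℕ}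

/-- the action on the coordinate ring of `N` points of a permutation of the factors and a monomial
symmetry for each factor -/
noncomputable def actHom (τ : Equiv.Perm (Fin N)) (g : Fin N → MSym X) :
    Coord ι N →ₐ[ℂ] Coord ι N :=
  aeval (fun v => C ((g v.1).c v.2) * (MvPolynomial.X (τ v.1, (g v.1).σ v.2) : Coord ι N))

lemma actHom_X (τ : Equiv.Perm (Fin N)) (g : Fin N → MSym X) (v : Fin N × ι) :
    actHom τ g (MvPolynomial.X v) =
      C ((g v.1).c v.2) * MvPolynomial.X (τ v.1, (g v.1).σ v.2) := by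
  rw [actHom, aeval_X]

/-- the symmetries for the inverse -/
noncomputable def invFam (τ : Equiv.Perm (Fin N)) (g : Fin N → MSym X) : Fin N → MSym X :=
  fun i => (g (τ.symm i)).symm

lemma invFam_invFam (τ : Equiv.Perm (Fin N)) (g : Fin N → MSym X) (v : Fin N × ι) :
    actHom τ g (actHom τ.symm (invFam τ g) (MvPolynomial.X v)) = MvPolynomial.X v := by
  rw [actHom_X, map_mul, actHom_X, ← MvPolynomial.algebraMap_eq, AlgHom.commutes]
  simp only [invFam, MSym.symm]
  rw [Equiv.apply_symm_apply, Equiv.apply_symm_apply, MvPolynomial.algebraMap_eq, ← mul_assoc,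
    ← C_mul, inv_mul_cancel₀ ((g _).hc _), C_1, one_mul]

lemma invFam_invFam' (τ : Equiv.Perm (Fin N)) (g : Fin N → MSym X) (v : Fin N × ι) :
    actHom τ.symm (invFam τ g) (actHom τ g (MvPolynomial.X v)) = MvPolynomial.X v := by
  rw [actHom_X, map_mul, actHom_X, ← MvPolynomial.algebraMap_eq, AlgHom.commutes]
  simp only [invFam, MSym.symm]
  rw [Equiv.symm_apply_apply, Equiv.symm_apply_apply, MvPolynomial.algebraMap_eq, ← mul_assoc,
    ← C_mul, mul_inv_cancel₀ ((g _).hc _), C_1, one_mul]

/-- the action as an automorphism -/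
noncomputable def actN (τ : Equiv.Perm (Fin N)) (g : Fin N → MSym X) :
    Coord ι N ≃ₐ[ℂ] Coord ι N :=
  AlgEquiv.ofAlgHom (actHom τ g) (actHom τ.symm (invFam τ g))
    (by
      apply MvPolynomial.algHom_ext
      intro v
      rw [AlgHom.comp_apply, invFam_invFam, AlgHom.id_apply])
    (by
      apply MvPolynomial.algHom_ext
      intro v
      rw [AlgHom.comp_apply, invFam_invFam', AlgHom.id_apply])

lemma actN_apply (τ : Equiv.Perm (Fin N)) (g : Fin N → MSym X) (p : Coord ι N) :
    actN τ g p = actHom τ g p := rfl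

lemma actN_symm_apply (τ : Equiv.Perm (Fin N)) (g : Fin N → MSym X) (p : Coord ι N) :
    (actN τ g).symm p = actHom τ.symm (invFam τ g) p := rfl

lemma actN_X (τ : Equiv.Perm (Fin N)) (g : Fin N → MSym X) (v : Fin N × ι) :
    actN τ g (MvPolynomial.X v) =
      C ((g v.1).c v.2) * MvPolynomial.X (τ v.1, (g v.1).σ v.2) := actHom_X τ g v

lemma actHom_actHom (τ : Equiv.Perm (Fin N)) (g : Fin N → MSym X) (p : Coord ι N) :
    actHom τ g (actHom τ.symm (invFam τ g) p) = p := (actN τ g).apply_symm_apply p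

lemma actHom_actHom' (τ : Equiv.Perm (Fin N)) (g : Fin N → MSym X) (p : Coord ι N) :
    actHom τ.symm (invFam τ g) (actHom τ g p) = p := (actN τ g).symm_apply_apply p

/-- a monomial goes to a monomial, the multidegree is permuted -/
lemma actHom_homogeneous_monomial (τ : Equiv.Perm (Fin N)) (g : Fin N → MSym X)
    (s : Fin N × ι →₀ ℕ) (a : ℂ) :
    IsWeightedHomogeneous (X.mdeg N) (actHom τ g (monomial s a))
      (Finsupp.weight (X.mdeg N) s ∘ τ.symm) := by
  classical
  induction s using Finsupp.induction generalizing a with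
  | zero =>
    have h1 : (monomial (0 : Fin N × ι →₀ ℕ) a : Coord ι N) = C a := rfl
    rw [h1, ← MvPolynomial.algebraMap_eq, AlgHom.commutes, MvPolynomial.algebraMap_eq, map_zero]
    exact isWeightedHomogeneous_C _ a
  | single_add v k s hv hk ih =>
    have h1 : (monomial (Finsupp.single v k + s) a : Coord ι N) =
        MvPolynomial.X v ^ k * monomial s a := by
      rw [MvPolynomial.X_pow_eq_monomial, monomial_mul, one_mul]
    rw [h1, map_mul, map_pow, actHom_X, map_add]
    have h2 : IsWeightedHomogeneous (X.mdeg N)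
        (C ((g v.1).c v.2) * (MvPolynomial.X (τ v.1, (g v.1).σ v.2) : Coord ι N))
        (X.mdeg N v ∘ τ.symm) := by
      have h3 := (isWeightedHomogeneous_C (X.mdeg N) ((g v.1).c v.2)).mul
        (isWeightedHomogeneous_X ℂ (X.mdeg N) (τ v.1, (g v.1).σ v.2))
      rw [zero_add] at h3
      have h4 : X.mdeg N (τ v.1, (g v.1).σ v.2) = X.mdeg N v ∘ τ.symm := by
        funext i
        simp only [WVar.mdeg, Function.comp_apply, (g v.1).hwt]
        rw [Pi.single_apply, Pi.single_apply]
        by_cases hi : i = τ v.1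
        · rw [if_pos hi, if_pos (by rw [hi, Equiv.symm_apply_apply])]
        · rw [if_neg hi, if_neg (fun h => hi (by rw [← h, Equiv.apply_symm_apply]))]
      rwa [h4] at h3
    have h5 := (h2.pow k).mul (ih a)
    have h6 : k • (X.mdeg N v ∘ τ.symm) + Finsupp.weight (X.mdeg N) s ∘ τ.symm =
        (Finsupp.weight (X.mdeg N) (Finsupp.single v k) + Finsupp.weight (X.mdeg N) s) ∘ τ.symm := by
      rw [Finsupp.weight_single]
      rfl
    rwa [h6] at h5

lemma actHom_homogeneous (τ : Equiv.Perm (Fin N)) (g : Fin N → MSym X) {p : Coord ι N}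
    {e : Fin N → ℕ} (hp : IsWeightedHomogeneous (X.mdeg N) p e) :
    IsWeightedHomogeneous (X.mdeg N) (actHom τ g p) (e ∘ τ.symm) := by
  classical
  rw [MvPolynomial.as_sum p, map_sum]
  rw [← mem_weightedHomogeneousSubmodule]
  refine Submodule.sum_mem _ fun s hs => ?_
  rw [mem_weightedHomogeneousSubmodule]
  have h := actHom_homogeneous_monomial τ g s (coeff s p)
  have h1 : Finsupp.weight (X.mdeg N) s = e := hp (mem_support_iff.mp hs)
  rwa [h1] at h

lemma actHom_component (τ : Equiv.Perm (Fin N)) (g : Fin N → MSym X) (p : Coord ι N)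
    (e : Fin N → ℕ) :
    weightedHomogeneousComponent (X.mdeg N) (e ∘ τ.symm) (actHom τ g p) =
      actHom τ g (weightedHomogeneousComponent (X.mdeg N) e p) := by
  classical
  conv_lhs => rw [MvPolynomial.as_sum p]
  rw [weightedHomogeneousComponent_apply (w := X.mdeg N) (n := e) (φ := p), map_sum, map_sum,
    map_sum, Finset.sum_filter]
  refine Finset.sum_congr rfl fun s hs => ?_
  have h := actHom_homogeneous_monomial τ g s (coeff s p)
  split_ifs with h1
  · rw [h1] at h
    exact h.weightedHomogeneousComponent_same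
  · refine h.weightedHomogeneousComponent_ne _ ?_
    intro h2
    apply h1
    funext i
    have h3 := congrFun h2 (τ i)
    simpa using h3.symm

lemma actHom_inFactor (τ : Equiv.Perm (Fin N)) (g : Fin N → MSym X) (i : Fin N)
    (f : MvPolynomial ι ℂ) :
    actHom τ g (inFactor N i f) = inFactor N (τ i) ((g i).act f) := by
  have h : (actHom τ g).comp (inFactor N i) = (inFactor N (τ i)).comp (g i).act := by
    apply MvPolynomial.algHom_ext
    intro j
    rw [AlgHom.comp_apply, AlgHom.comp_apply, inFactor, rename_X, actHom_X, MSym.act_X, map_mul,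
      inFactor, rename_X, rename_C]
  exact congrArg (fun φ => φ f) h

/-- the transport of a point of `X^N` -/
noncomputable def trPt (τ : Equiv.Perm (Fin N)) (g : Fin N → MSym X) (Q : Pt X N) : Pt X N where
  I := Q.I.comap (actN τ g)
  prime := by
    have := Q.prime
    exact Ideal.comap_isPrime _ _
  homog := fun p hp e => by
    rw [Ideal.mem_comap] at hp ⊢
    show actHom τ g _ ∈ Q.I
    rw [← actHom_component]
    exact Q.homog _ hp _
  relevant := fun i => by
    obtain ⟨j, hj⟩ := Q.relevant (τ i)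
    refine ⟨(g i).σ.symm j, fun h => hj ?_⟩
    rw [Ideal.mem_comap] at h
    have h1 : actHom τ g (MvPolynomial.X (i, (g i).σ.symm j)) ∈ Q.I := h
    rw [actHom_X] at h1
    simp only [Equiv.apply_symm_apply] at h1
    have h2 := Q.I.mul_mem_left (C ((g i).c ((g i).σ.symm j))⁻¹) h1
    rwa [← mul_assoc, ← C_mul, inv_mul_cancel₀ ((g i).hc _), C_1, one_mul] at h2
  onX := fun i f hf => by
    rw [Ideal.mem_comap]
    show actHom τ g _ ∈ Q.I
    rw [actHom_inFactor]
    exact Q.onX _ _ (((g i).heq f).mpr hf)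

lemma mem_trPt (τ : Equiv.Perm (Fin N)) (g : Fin N → MSym X) (Q : Pt X N) (p : Coord ι N) :
    p ∈ (trPt τ g Q).I ↔ actN τ g p ∈ Q.I := Iff.rfl

/-- the transport of points as a bijection -/
noncomputable def trN (τ : Equiv.Perm (Fin N)) (g : Fin N → MSym X) : Pt X N ≃ Pt X N where
  toFun := trPt τ g
  invFun := trPt τ.symm (invFam τ g)
  left_inv := fun Q => by
    apply Pt.ext'
    ext p
    rw [mem_trPt, mem_trPt, actN_apply, actN_apply, actHom_actHom]
  right_inv := fun Q => by
    apply Pt.ext'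
    ext p
    rw [mem_trPt, mem_trPt, actN_apply, actN_apply, actHom_actHom']

lemma trN_I (τ : Equiv.Perm (Fin N)) (g : Fin N → MSym X) (Q : Pt X N) :
    (trN τ g Q).I = Q.I.comap (actN τ g) := rfl

lemma mem_trN (τ : Equiv.Perm (Fin N)) (g : Fin N → MSym X) (Q : Pt X N) (p : Coord ι N) :
    p ∈ (trN τ g Q).I ↔ actN τ g p ∈ Q.I := Iff.rfl

lemma mem_trN_symm (τ : Equiv.Perm (Fin N)) (g : Fin N → MSym X) (Q : Pt X N) (p : Coord ι N) :
    p ∈ ((trN τ g).symm Q).I ↔ (actN τ g).symm p ∈ Q.I := Iff.rfl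

/-- the transport of the point with given coordinates -/
lemma genIdeal_actN {D : Type} [CommRing D] [Algebra ℂ D] (τ : Equiv.Perm (Fin N))
    (g : Fin N → MSym X) (d : Fin N × ι → D) :
    (genIdeal X d).comap (actN τ g) =
      genIdeal X (fun v => algebraMap ℂ D ((g v.1).c v.2) * d (τ v.1, (g v.1).σ v.2)) := by
  ext p
  rw [Ideal.mem_comap]
  show actHom τ g p ∈ _ ↔ _
  rw [mem_genIdeal_iff, mem_genIdeal_iff]
  have h : (aeval d).comp (actHom τ g) =
      aeval (fun v => algebraMap ℂ D ((g v.1).c v.2) * d (τ v.1, (g v.1).σ v.2)) := by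
    apply MvPolynomial.algHom_ext
    intro v
    rw [AlgHom.comp_apply, actHom_X, map_mul, aeval_X, aeval_X, aeval_C]
  constructor
  · intro hp e
    rw [← h, AlgHom.comp_apply, ← actHom_component]
    exact hp _
  · intro hp e
    have h1 := hp (e ∘ τ)
    rw [← h, AlgHom.comp_apply, ← actHom_component] at h1
    have h2 : (e ∘ τ) ∘ τ.symm = e := by
      funext i
      simp
    rwa [h2] at h1

lemma isDivisor_trN (τ : Equiv.Perm (Fin N)) (g : Fin N → MSym X) {P : Pt X N}
    {a b : Coord ι N} {c : Cycles X N} (h : IsDivisor X P a b c) :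
    IsDivisor X (trN τ g P) ((actN τ g).symm a) ((actN τ g).symm b)
      (Finsupp.mapDomain (trN τ g) c) := by
  classical
  intro Q
  obtain ⟨Q, rfl⟩ := (trN τ g).surjective Q
  rw [Finsupp.mapDomain_apply (trN τ g).injective, h Q]
  have hP : ∀ x, (actN τ g).toRingEquiv x ∈ P.I ↔ x ∈ (trN τ g P).I := fun x => Iff.rfl
  have hQ : ∀ x, (actN τ g).toRingEquiv x ∈ Q.I ↔ x ∈ (trN τ g Q).I := fun x => Iff.rfl
  have hP' : ∀ x, (actN τ g).symm.toRingEquiv x ∈ (trN τ g P).I ↔ x ∈ P.I := fun x => by
    rw [mem_trN]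
    show actN τ g ((actN τ g).symm x) ∈ _ ↔ _
    rw [AlgEquiv.apply_symm_apply]
  have hQ' : ∀ x, (actN τ g).symm.toRingEquiv x ∈ (trN τ g Q).I ↔ x ∈ Q.I := fun x => by
    rw [mem_trN]
    show actN τ g ((actN τ g).symm x) ∈ _ ↔ _
    rw [AlgEquiv.apply_symm_apply]
  have hcod : CodimOne P.I Q.I ↔ CodimOne (trN τ g P).I (trN τ g Q).I :=
    ⟨fun hc => codimOne_equiv (actN τ g).symm.toRingEquiv hP' hQ' hc,
      fun hc => codimOne_equiv (actN τ g).toRingEquiv hP hQ hc⟩
  by_cases hc : CodimOne P.I Q.I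
  · rw [if_pos hc, if_pos (hcod.mp hc)]
    have := Q.prime
    have := (trN τ g Q).prime
    have h1 : ∀ x, ordAt P.I Q.I x = ordAt (trN τ g P).I (trN τ g Q).I ((actN τ g).symm x) :=
      fun x => ordAt_equiv (actN τ g).symm.toRingEquiv hP' hQ' x
    rw [h1 a, h1 b]
  · rw [if_neg hc, if_neg (fun h' => hc (hcod.mpr h'))]

lemma ratZero_trN_aux (τ : Equiv.Perm (Fin N)) (g : Fin N → MSym X) {z : Cycles X N}
    (hz : z ∈ RatZero X N) : Finsupp.mapDomain (trN τ g) z ∈ RatZero X N := by
  have h : RatZero X N ≤ (RatZero X N).comap (Finsupp.mapDomain.addMonoidHom (trN τ g)) := by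
    conv_lhs => rw [RatZero]
    rw [AddSubgroup.closure_le]
    rintro c ⟨P, a, b, e, ha, hb, haP, hbP, hc⟩
    rw [SetLike.mem_coe, AddSubgroup.mem_comap]
    refine AddSubgroup.subset_closure ⟨trN τ g P, (actN τ g).symm a, (actN τ g).symm b, e ∘ τ,
      ?_, ?_, ?_, ?_, isDivisor_trN τ g hc⟩
    · exact actHom_homogeneous τ.symm (invFam τ g) ha
    · exact actHom_homogeneous τ.symm (invFam τ g) hb
    · rw [mem_trN, AlgEquiv.apply_symm_apply]
      exact haP
    · rw [mem_trN, AlgEquiv.apply_symm_apply]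
      exact hbP
  exact h hz

/-- Rational equivalence is preserved by symmetries. -/
theorem ratZero_trN (τ : Equiv.Perm (Fin N)) (g : Fin N → MSym X) (z : Cycles X N) :
    Finsupp.mapDomain (trN τ g) z ∈ RatZero X N ↔ z ∈ RatZero X N := by
  refine ⟨fun h => ?_, ratZero_trN_aux τ g⟩
  have h1 := ratZero_trN_aux τ.symm (invFam τ g) h
  have h2 : (trN τ.symm (invFam τ g) : Pt X N → Pt X N) = (trN τ g).symm := rfl
  rw [h2, ← Finsupp.mapDomain_comp] at h1
  have h3 : ((trN τ g).symm : Pt X N → Pt X N) ∘ (trN τ g) = id := by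
    funext Q
    simp
  rwa [h3, Finsupp.mapDomain_id] at h1

end act

end Pool.Agent.RCH
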