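import Pool.Agent.RCH.Aut

/-!
# Products of cycles: multilinearity and symmetries
-/

set_option autoImplicit false

open MvPolynomial

namespace Pool.Agent.RCH

variable {ι : Type}

section tr1

variable {X : WVar ι} {N : ℕ}

/-- the transport of a point of `X` -/
noncomputable def tr1 (g : MSym X) : Pt X 1 ≃ Pt X 1 := trN (Equiv.refl _) (fun _ => g)

lemma mem_tr1 (g : MSym X) (Q : Pt X 1) (p : Coord ι 1) :
    p ∈ (tr1 g Q).I ↔ actN (Equiv.refl _) (fun _ => g) p ∈ Q.I := Iff.rfl

lemma tr1_I (g : MSym X) (Q : Pt X 1) :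
    (tr1 g Q).I = Q.I.comap (actN (Equiv.refl _) (fun _ => g)) := rfl

lemma actHom_one (p : Coord ι N) :
    actHom (Equiv.refl _) (fun _ => MSym.one X) p = p := by
  have h : actHom (Equiv.refl _) (fun _ => MSym.one X) = AlgHom.id ℂ (Coord ι N) := by
    apply MvPolynomial.algHom_ext
    intro v
    rw [actHom_X, AlgHom.id_apply]
    show C (1 : ℂ) * _ = _
    rw [C_1, one_mul]
    rfl
  rw [h, AlgHom.id_apply]

lemma trN_one (Q : Pt X N) : trN (Equiv.refl _) (fun _ => MSym.one X) Q = Q := by
  apply Pt.ext'
  ext p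
  rw [mem_trN, actN_apply, actHom_one]

@[simp] lemma tr1_one (Q : Pt X 1) : tr1 (MSym.one X) Q = Q := trN_one Q

/-- the transport of the point of `X` with given coordinates -/
lemma tr1_genIdeal {D : Type} [CommRing D] [Algebra ℂ D] (g : MSym X) (Q : Pt X 1)
    (d : Fin 1 × ι → D) (h : Q.I = genIdeal X d) :
    (tr1 g Q).I = genIdeal X (fun v => algebraMap ℂ D (g.c v.2) * d (v.1, g.σ v.2)) := by
  rw [tr1_I, h, genIdeal_actN]
  rfl

lemma symm_prMap (τ : Equiv.Perm (Fin N)) (g : Fin N → MSym X) (i : Fin N) (p : Coord ι 1) :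
    (actN τ g).symm (prMap ι N (τ i) p) =
      prMap ι N i ((actN (Equiv.refl _) (fun _ => g i)).symm p) := by
  rw [actN_symm_apply, actN_symm_apply]
  have h : (actHom τ.symm (invFam τ g)).comp (prMap ι N (τ i)) =
      (prMap ι N i).comp (actHom (Equiv.refl (Fin 1)).symm
        (invFam (Equiv.refl (Fin 1)) (fun _ => g i))) := by
    apply MvPolynomial.algHom_ext
    intro v
    rw [AlgHom.comp_apply, AlgHom.comp_apply, actHom_X, map_mul]
    unfold prMap
    rw [rename_X, rename_X, rename_C, actHom_X]
    simp only [invFam, Equiv.symm_apply_apply]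
  exact congrArg (fun φ => φ p) h

/-- symmetries and ideals of products -/
lemma boxIdeal_trN (τ : Equiv.Perm (Fin N)) (g : Fin N → MSym X) (Q : Fin N → Pt X 1) :
    boxIdeal X (fun i => tr1 (g i) (Q (τ i))) = (boxIdeal X Q).comap (actN τ g) := by
  have h1 : (boxIdeal X Q).comap (actN τ g) =
      (boxIdeal X Q).map (actN τ g).symm.toRingEquiv.toRingHom := by
    have h := Ideal.map_comap_of_equiv (I := boxIdeal X Q) (actN τ g).symm.toRingEquiv
    exact h.symm
  rw [h1, boxIdeal, boxIdeal, Ideal.map_iSup]
  rw [← Equiv.iSup_comp (g := fun i => Ideal.map (actN τ g).symm.toRingEquiv.toRingHom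
    ((Q i).I.map (rename (R := ℂ) (fun v : Fin 1 × ι => (i, v.2))).toRingHom)) τ]
  refine iSup_congr fun i => ?_
  have h2 : (tr1 (g i) (Q (τ i))).I = (Q (τ i)).I.map
      (actN (Equiv.refl _) (fun _ => g i)).symm.toRingEquiv.toRingHom := by
    rw [tr1_I]
    have h := Ideal.map_comap_of_equiv (I := (Q (τ i)).I)
      (actN (Equiv.refl _) (fun _ => g i)).symm.toRingEquiv
    exact h.symm
  rw [h2, Ideal.map_map, Ideal.map_map]
  have h3 : (rename (R := ℂ) (fun v : Fin 1 × ι => (i, v.2))).toRingHom.comp
      (actN (Equiv.refl _) (fun _ => g i)).symm.toRingEquiv.toRingHom =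
      (actN τ g).symm.toRingEquiv.toRingHom.comp
        (rename (R := ℂ) (fun v : Fin 1 × ι => (τ i, v.2))).toRingHom := by
    refine RingHom.ext fun p => ?_
    exact (symm_prMap τ g i p).symm
  rw [h3]

/-- symmetries and products of integral subschemes -/
theorem box_trN [Finite ι] (τ : Equiv.Perm (Fin N)) (g : Fin N → MSym X) (Q : Fin N → Pt X 1) :
    Finsupp.mapDomain (trN τ g) (box X Q) = box X (fun i => tr1 (g i) (Q (τ i))) := by
  obtain ⟨P, hP, hbox⟩ := box_eq X Q
  rw [hbox, Finsupp.mapDomain_single]
  refine (box_of_eq X _ (trN τ g P) ?_).symm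
  rw [boxIdeal_trN, trN_I, hP]

end tr1

section boxC

variable (X : WVar ι) {N : ℕ}

open Classical in
/-- The product of `N` cycles on `X`, a cycle on `X^N`. -/
noncomputable def boxC (a : Fin N → Cycles X 1) : Cycles X N :=
  ∑ Q ∈ Fintype.piFinset (fun i : Fin N => (a i).support), (∏ i, a i (Q i)) • box X Q

lemma extPow_eq_boxC (a : Cycles X 1) (N : ℕ) : extPow X a N = boxC X (fun _ : Fin N => a) := rfl

open Classical in
lemma boxC_eq_sum (a : Fin N → Cycles X 1) (s : Fin N → Finset (Pt X 1))
    (hs : ∀ i, (a i).support ⊆ s i) :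
    boxC X a = ∑ Q ∈ Fintype.piFinset s, (∏ i, a i (Q i)) • box X Q := by
  rw [boxC]
  refine Finset.sum_subset_zero_on_sdiff (Fintype.piFinset_subset _ _ hs) ?_ ?_
  · intro Q hQ
    rw [Finset.mem_sdiff, Fintype.mem_piFinset, Fintype.mem_piFinset, not_forall] at hQ
    obtain ⟨_, i, hi⟩ := hQ
    rw [Finsupp.notMem_support_iff] at hi
    rw [Finset.prod_eq_zero (Finset.mem_univ i) hi, zero_smul]
  · intro Q _
    rfl

lemma prod_update (a : Fin N → Cycles X 1) (i : Fin N) (x : Cycles X 1) (Q : Fin N → Pt X 1) :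
    ∏ k, (Function.update a i x k) (Q k) = x (Q i) * ∏ k ∈ Finset.univ.erase i, a k (Q k) := by
  rw [← Finset.mul_prod_erase Finset.univ _ (Finset.mem_univ i), Function.update_self]
  congr 1
  refine Finset.prod_congr rfl fun k hk => ?_
  rw [Function.update_of_ne (Finset.ne_of_mem_erase hk)]

/-- The product of cycles is multilinear. -/
noncomputable def boxM (N : ℕ) :
    MultilinearMap ℤ (fun _ : Fin N => Cycles X 1) (Cycles X N) where
  toFun := boxC X
  map_update_add' := by
    classical
    intro inst a i x y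
    have hinst : inst = instDecidableEqFin N := Subsingleton.elim _ _
    subst hinst
    set s : Fin N → Finset (Pt X 1) := fun k =>
      if k = i then x.support ∪ y.support else (a k).support with hs
    have h1 : ∀ z : Cycles X 1, z.support ⊆ x.support ∪ y.support →
        ∀ k, (Function.update a i z k).support ⊆ s k := by
      intro z hz k
      by_cases hk : k = i
      · subst hk
        rw [Function.update_self, hs]
        simpa using hz
      · rw [Function.update_of_ne hk, hs]
        simp [hk]
    rw [boxC_eq_sum X _ s (h1 (x + y) Finsupp.support_add),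
      boxC_eq_sum X _ s (h1 x Finset.subset_union_left),
      boxC_eq_sum X _ s (h1 y Finset.subset_union_right), ← Finset.sum_add_distrib]
    refine Finset.sum_congr rfl fun Q _ => ?_
    rw [prod_update, prod_update, prod_update, Finsupp.add_apply, add_mul, add_smul]
  map_update_smul' := by
    classical
    intro inst a i c x
    have hinst : inst = instDecidableEqFin N := Subsingleton.elim _ _
    subst hinst
    set s : Fin N → Finset (Pt X 1) := fun k =>
      if k = i then x.support else (a k).support with hs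
    have h1 : ∀ z : Cycles X 1, z.support ⊆ x.support →
        ∀ k, (Function.update a i z k).support ⊆ s k := by
      intro z hz k
      by_cases hk : k = i
      · subst hk
        rw [Function.update_self, hs]
        simpa using hz
      · rw [Function.update_of_ne hk, hs]
        simp [hk]
    rw [boxC_eq_sum X _ s (h1 (c • x) Finsupp.support_smul),
      boxC_eq_sum X _ s (h1 x (Finset.Subset.refl _)), Finset.smul_sum]
    refine Finset.sum_congr rfl fun Q _ => ?_
    rw [prod_update, prod_update, Finsupp.smul_apply, smul_smul, smul_eq_mul, mul_assoc]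

lemma boxM_apply (a : Fin N → Cycles X 1) : boxM X N a = boxC X a := rfl

lemma boxC_single (Q : Fin N → Pt X 1) (n : Fin N → ℤ) :
    boxC X (fun i => Finsupp.single (Q i) (n i)) = (∏ i, n i) • box X Q := by
  classical
  rw [boxC_eq_sum X _ (fun i => {Q i}) (fun i => Finsupp.support_single_subset),
    Fintype.piFinset_singleton, Finset.sum_singleton]
  simp only [Finsupp.single_eq_same]

/-- Products of sums. -/
lemma boxC_sum {κ : Type*} [Fintype κ] (a : Fin N → κ → Cycles X 1) :
    boxC X (fun i => ∑ k, a i k) = ∑ f : Fin N → κ, boxC X (fun i => a i (f i)) := by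
  classical
  have h := MultilinearMap.map_sum (boxM X N) (fun (i : Fin N) (k : κ) => a i k)
  exact h

/-- The exterior power of a combination of integral subschemes. -/
theorem extPow_sum_single {κ : Type*} [Fintype κ] (P : κ → Pt X 1) (n : κ → ℤ) (N : ℕ) :
    extPow X (∑ k, Finsupp.single (P k) (n k)) N =
      ∑ f : Fin N → κ, (∏ i, n (f i)) • box X (fun i => P (f i)) := by
  classical
  rw [extPow_eq_boxC, boxC_sum X (fun _ k => Finsupp.single (P k) (n k))]
  refine Finset.sum_congr rfl fun f _ => ?_
  rw [boxC_single]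

variable {X}

/-- symmetries and products of cycles -/
theorem boxC_trN [Finite ι] (τ : Equiv.Perm (Fin N)) (g : Fin N → MSym X)
    (a : Fin N → Cycles X 1) :
    Finsupp.mapDomain (trN τ g) (boxC X a) =
      boxC X (fun i => Finsupp.mapDomain (tr1 (g i)) (a (τ i))) := by
  classical
  have hs : ∀ i, (Finsupp.mapDomain (tr1 (g i)) (a (τ i))).support ⊆
      (a (τ i)).support.image (tr1 (g i)) := fun i => Finsupp.mapDomain_support
  rw [boxC_eq_sum X _ _ hs, boxC]
  rw [Finsupp.mapDomain_finsetSum]
  refine Finset.sum_bij (fun Q _ => fun i => tr1 (g i) (Q (τ i))) ?_ ?_ ?_ ?_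
  · intro Q hQ
    rw [Fintype.mem_piFinset] at hQ ⊢
    intro i
    exact Finset.mem_image_of_mem _ (hQ (τ i))
  · intro Q _ Q' _ h
    funext i
    have h1 := congrFun h (τ.symm i)
    simp only [Equiv.apply_symm_apply] at h1
    exact (tr1 _).injective h1
  · intro Q' hQ'
    rw [Fintype.mem_piFinset] at hQ'
    have h1 : ∀ i, ∃ q ∈ (a (τ i)).support, tr1 (g i) q = Q' i := fun i =>
      Finset.mem_image.mp (hQ' i)
    choose q hq hq' using h1
    refine ⟨fun i => q (τ.symm i), ?_, ?_⟩
    · rw [Fintype.mem_piFinset]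
      intro i
      have h2 := hq (τ.symm i)
      rwa [Equiv.apply_symm_apply] at h2
    · funext i
      beta_reduce
      rw [Equiv.symm_apply_apply]
      exact hq' i
  · intro Q _
    rw [Finsupp.mapDomain_smul, box_trN]
    congr 1
    rw [← Equiv.prod_comp τ]
    refine Finset.prod_congr rfl fun i _ => ?_
    rw [Finsupp.mapDomain_apply (tr1 (g i)).injective]

/-- permutations of the factors and products of cycles -/
theorem boxC_perm [Finite ι] (τ : Equiv.Perm (Fin N)) (a : Fin N → Cycles X 1) :
    Finsupp.mapDomain (trN τ (fun _ => MSym.one X)) (boxC X a) = boxC X (fun i => a (τ i)) := by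
  rw [boxC_trN]
  congr 1
  funext i
  have h : (tr1 (MSym.one X) : Pt X 1 → Pt X 1) = id := by
    funext Q
    exact tr1_one Q
  rw [h, Finsupp.mapDomain_id]

/-- the class of a product of cycles is changed by permutations of the factors compatibly with
rational equivalence -/
theorem boxC_perm_mem_iff [Finite ι] {κ : Type*} (t : Finset κ) (τ : Equiv.Perm (Fin N))
    (a : κ → Fin N → Cycles X 1) :
    ∑ k ∈ t, boxC X (fun i => a k (τ i)) ∈ RatZero X N ↔ ∑ k ∈ t, boxC X (a k) ∈ RatZero X N := by
  rw [← ratZero_trN τ (fun _ => MSym.one X) (∑ k ∈ t, boxC X (a k)),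
    Finsupp.mapDomain_finsetSum]
  simp only [boxC_perm]

end boxC

end Pool.Agent.RCH
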