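import Pool.Agent.RCH.Defs

/-!
# Double covers of projective space
-/

set_option autoImplicit false

namespace Pool.Agent.RCH

open MvPolynomial

/-- The double cover `y² = f(x_0, x_1, x_2, x_3)` of projective space, in the weighted projective
space with coordinates `x_0, x_1, x_2, x_3` of weight one and `y` of weight `m`. -/
noncomputable def doubleSolid (m : ℕ) (f : MvPolynomial (Fin 4) ℂ) : WVar (Fin 5) where
  wt := ![1, 1, 1, 1, m]
  eqs := Ideal.span {MvPolynomial.X 4 ^ 2 - rename Fin.castSucc f}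

/-- The polynomial `p(x_1, x_2) x_0 + s(x_1, x_2)`. -/
noncomputable def lin (p s : MvPolynomial (Fin 2) ℂ) : MvPolynomial (Fin 4) ℂ :=
  aeval ![MvPolynomial.X 1, MvPolynomial.X 2] p * MvPolynomial.X 0 +
    aeval ![MvPolynomial.X 1, MvPolynomial.X 2] s

/-- The branch polynomial `(p x_0 + s)(r x_0 + q) + x_3 P`. -/
noncomputable def branch (p s r q : MvPolynomial (Fin 2) ℂ) (P : MvPolynomial (Fin 4) ℂ) :
    MvPolynomial (Fin 4) ℂ :=
  lin p s * lin r q + MvPolynomial.X 3 * P

/-- The ideal, in the ring of the coordinates of one point, of the curve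
`b x_1 - a x_2 = x_3 = 0`, `y = c (p x_0 + s)`. -/
noncomputable def curveIdeal (p s : MvPolynomial (Fin 2) ℂ) (a b c : ℂ) :
    Ideal (Coord (Fin 5) 1) :=
  Ideal.span {inFactor 1 0 (C b * MvPolynomial.X 1 - C a * MvPolynomial.X 2),
    inFactor 1 0 (MvPolynomial.X 3),
    inFactor 1 0 (MvPolynomial.X 4 - C c * rename Fin.castSucc (lin p s))}

end Pool.Agent.RCH
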