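import Pool.Agent.RCH.Points

/-!
# Specialisation of points, and the local rings modulo an ideal
-/

set_option autoImplicit false

open MvPolynomial

namespace Pool.Agent.RCH

variable {ι : Type} (X : WVar ι) {N : ℕ}

/-- An element of the ideal of the point with coordinates `d` vanishes at every point whose
coordinates are, up to scaling, the images of `d`. -/
lemma genIdeal_lift {D L : Type} [CommRing D] [Algebra ℂ D] [CommRing L] (d : Fin N × ι → D)
    (can : Coord ι N →+* L) (g : D →+* L) (c : Fin N → L)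
    (hC : ∀ a : ℂ, can (C a) = g (algebraMap ℂ D a))
    (h : ∀ v : Fin N × ι, can (MvPolynomial.X v) = g (d v) * c v.1 ^ X.wt v.2)
    {z : Coord ι N} (hz : z ∈ genIdeal X d) : can z = 0 := by
  have h1 : can = (eval₂Hom g c).comp (genHom X d).toRingHom := by
    apply MvPolynomial.ringHom_ext
    · intro a
      have h2 : genHom X d (C a) = C (algebraMap ℂ D a) := (genHom X d).commutes a
      simp only [AlgHom.toRingHom_eq_coe, RingHom.coe_comp, RingHom.coe_coe, Function.comp_apply]
      rw [h2, hC]
      simp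
    · intro v
      simp only [AlgHom.toRingHom_eq_coe, RingHom.coe_comp, RingHom.coe_coe, Function.comp_apply]
      rw [h, genHom, aeval_X]
      simp
  have h0 : genHom X d z = 0 := hz
  rw [h1]
  simp only [AlgHom.toRingHom_eq_coe, RingHom.coe_comp, RingHom.coe_coe, Function.comp_apply]
  rw [h0, map_zero]

/-- Specialisation between points given by coordinates. -/
lemma genIdeal_le {D D' K : Type} [CommRing D] [Algebra ℂ D] [CommRing D'] [Algebra ℂ D']
    [CommRing K] [Algebra ℂ K] (d : Fin N × ι → D) (d' : Fin N × ι → D') (i : D' →ₐ[ℂ] K)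
    (hi : Function.Injective i) (g : D →ₐ[ℂ] K) (c : Fin N → K)
    (h : ∀ v : Fin N × ι, i (d' v) = g (d v) * c v.1 ^ X.wt v.2) :
    genIdeal X d ≤ genIdeal X d' := by
  intro z hz
  rw [mem_genIdeal_iff]
  intro e
  apply hi
  rw [map_zero]
  have h2 := genIdeal_lift X d ((i.comp (aeval d')).toRingHom) g.toRingHom c
    (fun a => by
      simp only [AlgHom.toRingHom_eq_coe, RingHom.coe_coe]
      rw [AlgHom.commutes, ← MvPolynomial.algebraMap_eq, AlgHom.commutes])
    (fun v => by simp [h]) (genIdeal_homog X d z hz e)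
  exact h2

/-- The local ring at `Q` modulo the ideal `J`. -/
abbrev LocMod {R : Type} [CommRing R] (J Q : Ideal R) [Q.IsPrime] : Type :=
  Localization.AtPrime Q ⧸ J.map (algebraMap R (Localization.AtPrime Q))

/-- The canonical homomorphism to the local ring at `Q` modulo `J`. -/
noncomputable def toLocMod {R : Type} [CommRing R] (J Q : Ideal R) [Q.IsPrime] : R →+* LocMod J Q :=
  (Ideal.Quotient.mk _).comp (algebraMap R (Localization.AtPrime Q))

lemma toLocMod_eq_zero_of_mem {R : Type} [CommRing R] {J Q : Ideal R} [Q.IsPrime] {z : R}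
    (hz : z ∈ J) : toLocMod J Q z = 0 := by
  rw [toLocMod, RingHom.comp_apply, Ideal.Quotient.eq_zero_iff_mem]
  exact Ideal.mem_map_of_mem _ hz

lemma isUnit_toLocMod {R : Type} [CommRing R] {J Q : Ideal R} [Q.IsPrime] {s : R} (hs : s ∉ Q) :
    IsUnit (toLocMod J Q s) := by
  rw [toLocMod, RingHom.comp_apply]
  exact (IsLocalization.map_units (Localization.AtPrime Q) (⟨s, hs⟩ : Q.primeCompl)).map _

lemma exists_of_toLocMod_eq_zero {R : Type} [CommRing R] {J Q : Ideal R} [Q.IsPrime] {z : R}
    (hz : toLocMod J Q z = 0) : ∃ s, s ∉ Q ∧ s * z ∈ J := by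
  rw [toLocMod, RingHom.comp_apply, Ideal.Quotient.eq_zero_iff_mem] at hz
  rw [IsLocalization.mem_map_algebraMap_iff Q.primeCompl] at hz
  obtain ⟨⟨⟨a, ha⟩, ⟨s, hs⟩⟩, h⟩ := hz
  simp only at h
  rw [← map_mul] at h
  obtain ⟨⟨t, ht⟩, h'⟩ := (IsLocalization.eq_iff_exists Q.primeCompl _).mp h
  refine ⟨t * s, fun hts => ?_, ?_⟩
  · rcases Ideal.IsPrime.mem_or_mem (I := Q) inferInstance hts with h1 | h1
    · exact ht h1
    · exact hs h1
  · have : t * s * z = t * a := by
      simp only at h'
      rw [← h']; ring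
    rw [this]
    exact J.mul_mem_left _ ha

/-- Membership in the prime `Q` is tested in the local ring modulo `Q`. -/
lemma toLocMod_self_eq_zero {R : Type} [CommRing R] {Q : Ideal R} [Q.IsPrime] {z : R} :
    toLocMod Q Q z = 0 ↔ z ∈ Q := by
  constructor
  · intro h
    obtain ⟨s, hs, h'⟩ := exists_of_toLocMod_eq_zero h
    exact (Ideal.IsPrime.mem_or_mem (I := Q) inferInstance h').resolve_left hs
  · exact toLocMod_eq_zero_of_mem

end Pool.Agent.RCH
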