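import Pool.Agent.RCH.QD
import Pool.Agent.RCH.Lift
import Pool.Agent.RCH.DSDefs

/-!
# Double covers of projective space and pairs of curves over lines
-/

set_option autoImplicit false

namespace Pool.Agent.RCH

open MvPolynomial

/-- The data: binary forms `p, r` of degree `m - 1` and `s, q` of degree `m`, a form `P` of degree
`2 m - 1`, the factorisation of `p q - s r` into powers of linear forms, pairwise not proportional,
and square roots `γ i` of the ratio of `(r, q)` to `(p, s)` at the roots. -/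
structure DSData where
  m : ℕ
  hm : 1 ≤ m
  p : MvPolynomial (Fin 2) ℂ
  s : MvPolynomial (Fin 2) ℂ
  r : MvPolynomial (Fin 2) ℂ
  q : MvPolynomial (Fin 2) ℂ
  P : MvPolynomial (Fin 4) ℂ
  hp : p.IsHomogeneous (m - 1)
  hs : s.IsHomogeneous m
  hr : r.IsHomogeneous (m - 1)
  hq : q.IsHomogeneous m
  hP : P.IsHomogeneous (2 * m - 1)
  t : ℕ
  al : Fin t → ℂ
  be : Fin t → ℂ
  n : Fin t → ℕ
  ka : ℂ
  hka : ka ≠ 0
  hW : p * q - s * r =
    C ka * ∏ i, (C (be i) * MvPolynomial.X 0 - C (al i) * MvPolynomial.X 1) ^ n i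
  hne : ∀ i, al i ≠ 0 ∨ be i ≠ 0
  hsep : ∀ i j, i ≠ j → be i * al j - al i * be j ≠ 0
  ga : Fin t → ℂ
  hga : ∀ i, ga i ≠ 0
  hrp : ∀ i, eval ![al i, be i] r = ga i ^ 2 * eval ![al i, be i] p
  hqs : ∀ i, eval ![al i, be i] q = ga i ^ 2 * eval ![al i, be i] s
  hps : ∀ i, eval ![al i, be i] p ≠ 0 ∨ eval ![al i, be i] s ≠ 0

namespace DSData

variable (S : DSData)

/-- the double cover -/
noncomputable def V : WVar (Fin 5) := doubleSolid S.m (branch S.p S.s S.r S.q S.P)

@[simp] lemma wt0 : S.V.wt 0 = 1 := rfl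
@[simp] lemma wt1 : S.V.wt 1 = 1 := rfl
@[simp] lemma wt2 : S.V.wt 2 = 1 := rfl
@[simp] lemma wt3 : S.V.wt 3 = 1 := rfl
@[simp] lemma wt4 : S.V.wt 4 = S.m := rfl

/-- values of a binary form at the `i`-th point, under a homomorphism -/
noncomputable def bv {N : ℕ} {L : Type} [CommRing L] (φ : Coord (Fin 5) N →+* L) (i : Fin N)
    (p : MvPolynomial (Fin 2) ℂ) : L :=
  eval₂Hom (φ.comp C) ![φ (MvPolynomial.X (i, 1)), φ (MvPolynomial.X (i, 2))] p

/-- the form `p x_0 + s` in the coordinates of the `i`-th point -/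
noncomputable def uu (N : ℕ) (i : Fin N) : Coord (Fin 5) N :=
  aeval ![MvPolynomial.X (i, 1), MvPolynomial.X (i, 2)] S.p * MvPolynomial.X (i, 0) +
    aeval ![MvPolynomial.X (i, 1), MvPolynomial.X (i, 2)] S.s

/-- the form `r x_0 + q` in the coordinates of the `i`-th point -/
noncomputable def vv (N : ℕ) (i : Fin N) : Coord (Fin 5) N :=
  aeval ![MvPolynomial.X (i, 1), MvPolynomial.X (i, 2)] S.r * MvPolynomial.X (i, 0) +
    aeval ![MvPolynomial.X (i, 1), MvPolynomial.X (i, 2)] S.q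

lemma map_aeval {N : ℕ} {L : Type} [CommRing L] (φ : Coord (Fin 5) N →+* L) (i : Fin N)
    (p : MvPolynomial (Fin 2) ℂ) :
    φ (aeval ![(MvPolynomial.X (i, 1) : Coord (Fin 5) N), MvPolynomial.X (i, 2)] p) =
      bv φ i p := by
  have h : φ.comp (aeval ![(MvPolynomial.X (i, 1) : Coord (Fin 5) N),
      MvPolynomial.X (i, 2)] : MvPolynomial (Fin 2) ℂ →ₐ[ℂ] _).toRingHom =
      eval₂Hom (φ.comp C) ![φ (MvPolynomial.X (i, 1)), φ (MvPolynomial.X (i, 2))] := by
    apply MvPolynomial.ringHom_ext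
    · intro a
      simp
    · intro j
      fin_cases j <;> simp
  exact congrArg (fun ψ => ψ p) h

lemma map_uu {N : ℕ} {L : Type} [CommRing L] (φ : Coord (Fin 5) N →+* L) (i : Fin N) :
    φ (S.uu N i) = bv φ i S.p * φ (MvPolynomial.X (i, 0)) + bv φ i S.s := by
  rw [uu, map_add, map_mul, map_aeval, map_aeval]

lemma map_vv {N : ℕ} {L : Type} [CommRing L] (φ : Coord (Fin 5) N →+* L) (i : Fin N) :
    φ (S.vv N i) = bv φ i S.r * φ (MvPolynomial.X (i, 0)) + bv φ i S.q := by
  rw [vv, map_add, map_mul, map_aeval, map_aeval]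

/-- the equation of the double cover in the coordinates of the `i`-th point -/
lemma inFactor_eq {N : ℕ} (i : Fin N) :
    inFactor N i (MvPolynomial.X 4 ^ 2 - rename Fin.castSucc (branch S.p S.s S.r S.q S.P)) =
      MvPolynomial.X (i, 4) ^ 2 - (S.uu N i * S.vv N i + MvPolynomial.X (i, 3) *
        inFactor N i (rename Fin.castSucc S.P)) := by
  have h : ∀ p : MvPolynomial (Fin 2) ℂ, inFactor N i (rename Fin.castSucc
      (aeval ![(MvPolynomial.X 1 : MvPolynomial (Fin 4) ℂ), MvPolynomial.X 2] p)) =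
      aeval ![MvPolynomial.X (i, 1), MvPolynomial.X (i, 2)] p := by
    intro p
    have h1 : ((inFactor N i).comp (rename Fin.castSucc)).comp
        (aeval ![(MvPolynomial.X 1 : MvPolynomial (Fin 4) ℂ), MvPolynomial.X 2]) =
        aeval ![(MvPolynomial.X (i, 1) : Coord (Fin 5) N), MvPolynomial.X (i, 2)] := by
      ext j
      fin_cases j <;> simp [inFactor]
    exact congrArg (fun ψ => ψ p) h1
  rw [branch, lin, lin, uu, vv]
  simp only [map_sub, map_add, map_mul, map_pow, rename_X, h]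
  have h4 : ∀ j : Fin 5, inFactor N i (MvPolynomial.X j) = MvPolynomial.X (i, j) := by
    intro j
    rw [inFactor, rename_X]
  rw [h4, h4, h4]
  rfl

/-- a prime containing the relation in each factor lies on the double cover -/
lemma onX_of {N : ℕ} (I : Ideal (Coord (Fin 5) N)) (i : Fin N)
    (h : MvPolynomial.X (i, 4) ^ 2 - (S.uu N i * S.vv N i + MvPolynomial.X (i, 3) *
        inFactor N i (rename Fin.castSucc S.P)) ∈ I) :
    ∀ f ∈ S.V.eqs, inFactor N i f ∈ I := by
  intro f hf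
  have hf' : f ∈ Ideal.span {MvPolynomial.X 4 ^ 2 -
      rename Fin.castSucc (branch S.p S.s S.r S.q S.P)} := hf
  obtain ⟨g, rfl⟩ := Ideal.mem_span_singleton'.mp hf'
  rw [map_mul, inFactor_eq]
  exact I.mul_mem_left _ h

lemma eq_of_onX {N : ℕ} (Q : Pt S.V N) (i : Fin N) :
    MvPolynomial.X (i, 4) ^ 2 - (S.uu N i * S.vv N i + MvPolynomial.X (i, 3) *
        inFactor N i (rename Fin.castSucc S.P)) ∈ Q.I := by
  rw [← inFactor_eq]
  exact Q.onX i _ (Ideal.subset_span rfl)

end DSData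

end Pool.Agent.RCH
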