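import Pool.Agent.RCH.DSPts

/-!
# Multihomogeneity of the forms used for double covers
-/

set_option autoImplicit false

namespace Pool.Agent.RCH

open MvPolynomial

namespace DSData

variable (S : DSData)

lemma inFactor_aeval_bin {N : ℕ} (i : Fin N) (p : MvPolynomial (Fin 2) ℂ) :
    inFactor N i (rename Fin.castSucc
      (aeval ![(MvPolynomial.X 1 : MvPolynomial (Fin 4) ℂ), MvPolynomial.X 2] p)) =
      aeval ![(MvPolynomial.X (i, 1) : Coord (Fin 5) N), MvPolynomial.X (i, 2)] p := by
  have h1 : ((inFactor N i).comp (rename Fin.castSucc)).comp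
      (aeval ![(MvPolynomial.X 1 : MvPolynomial (Fin 4) ℂ), MvPolynomial.X 2]) =
      aeval ![(MvPolynomial.X (i, 1) : Coord (Fin 5) N), MvPolynomial.X (i, 2)] := by
    ext j
    fin_cases j <;> simp [inFactor]
  exact congrArg (fun ψ => ψ p) h1

lemma uu_eq_inFactor {N : ℕ} (i : Fin N) :
    S.uu N i = inFactor N i (rename Fin.castSucc (lin S.p S.s)) := by
  rw [lin, map_add, map_mul, map_add, map_mul, inFactor_aeval_bin, inFactor_aeval_bin, uu,
    rename_X, inFactor, rename_X]
  rfl

lemma vv_eq_inFactor {N : ℕ} (i : Fin N) :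
    S.vv N i = inFactor N i (rename Fin.castSucc (lin S.r S.q)) := by
  rw [lin, map_add, map_mul, map_add, map_mul, inFactor_aeval_bin, inFactor_aeval_bin, vv,
    rename_X, inFactor, rename_X]
  rfl

lemma uu_homogeneous {N : ℕ} (i : Fin N) :
    IsWeightedHomogeneous (S.V.mdeg N) (S.uu N i) (Pi.single i S.m) := by
  rw [uu_eq_inFactor]
  exact inFactor_homogeneous S.V i (S.isWeighted_rename (isHomogeneous_lin S.hm S.hp S.hs))

lemma vv_homogeneous {N : ℕ} (i : Fin N) :
    IsWeightedHomogeneous (S.V.mdeg N) (S.vv N i) (Pi.single i S.m) := by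
  rw [vv_eq_inFactor]
  exact inFactor_homogeneous S.V i (S.isWeighted_rename (isHomogeneous_lin S.hm S.hr S.hq))

/-- a binary form of degree `n` in the coordinates `x_1, x_2` of the `i`-th point -/
lemma bin_homogeneous {N : ℕ} (i : Fin N) {n : ℕ} {p : MvPolynomial (Fin 2) ℂ}
    (hp : p.IsHomogeneous n) :
    IsWeightedHomogeneous (S.V.mdeg N)
      (aeval ![(MvPolynomial.X (i, 1) : Coord (Fin 5) N), MvPolynomial.X (i, 2)] p)
      (Pi.single i n) := by
  rw [← inFactor_aeval_bin]
  exact inFactor_homogeneous S.V i (S.isWeighted_rename (isHomogeneous_bin hp))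

lemma X4_homogeneous {N : ℕ} (i : Fin N) :
    IsWeightedHomogeneous (S.V.mdeg N) (MvPolynomial.X (i, 4) : Coord (Fin 5) N)
      (Pi.single i S.m) :=
  isWeightedHomogeneous_X ℂ _ (i, 4)

lemma X1_homogeneous {N : ℕ} (i : Fin N) (j : Fin 5) (hj : j ≠ 4) :
    IsWeightedHomogeneous (S.V.mdeg N) (MvPolynomial.X (i, j) : Coord (Fin 5) N)
      (Pi.single i 1) := by
  have h := isWeightedHomogeneous_X ℂ (S.V.mdeg N) (i, j)
  have h1 : S.V.wt j = 1 := by
    fin_cases j <;> first | rfl | exact absurd rfl hj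
  have h2 : S.V.mdeg N (i, j) = Pi.single i 1 := by
    unfold WVar.mdeg
    show (Pi.single i (S.V.wt j) : Fin N → ℕ) = _
    rw [h1]
  rwa [h2] at h

lemma X3_pow_homogeneous {N : ℕ} (i : Fin N) (n : ℕ) :
    IsWeightedHomogeneous (S.V.mdeg N) (MvPolynomial.X (i, 3) ^ n : Coord (Fin 5) N)
      (Pi.single i n) := by
  have h := (S.X1_homogeneous i 3 (by decide)).pow n
  have h2 : n • (Pi.single i 1 : Fin N → ℕ) = Pi.single i n := by
    rw [← Pi.single_smul]
    simp
  rwa [h2] at h

lemma single_add_single (m : ℕ) :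
    (Pi.single 0 m + Pi.single 1 m : Fin 2 → ℕ) = fun _ => m := by
  funext k
  fin_cases k <;> simp

lemma NN_homogeneous :
    IsWeightedHomogeneous (S.V.mdeg 2)
      (MvPolynomial.X (0, 4) * S.uu 2 1 - MvPolynomial.X (1, 4) * S.uu 2 0) (fun _ => S.m) := by
  have h1 := (S.X4_homogeneous (N := 2) 0).mul (S.uu_homogeneous (N := 2) 1)
  have h2 := (S.X4_homogeneous (N := 2) 1).mul (S.uu_homogeneous (N := 2) 0)
  rw [single_add_single] at h1
  rw [add_comm, single_add_single] at h2
  exact h1.sub h2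

lemma DD_homogeneous :
    IsWeightedHomogeneous (S.V.mdeg 2)
      (MvPolynomial.X (0, 4) * S.uu 2 1 + MvPolynomial.X (1, 4) * S.uu 2 0) (fun _ => S.m) := by
  have h1 := (S.X4_homogeneous (N := 2) 0).mul (S.uu_homogeneous (N := 2) 1)
  have h2 := (S.X4_homogeneous (N := 2) 1).mul (S.uu_homogeneous (N := 2) 0)
  rw [single_add_single] at h1
  rw [add_comm, single_add_single] at h2
  exact h1.add h2

end DSData

end Pool.Agent.RCH
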