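import Pool.Agent.RCH.DSPt
import Pool.Agent.RCH.DSHom
import Pool.Agent.RCH.Box

/-!
# The curves over the roots, their ideals and their products
-/

set_option autoImplicit false

namespace Pool.Agent.RCH

open MvPolynomial

namespace DSData

variable (S : DSData)

lemma aeval_bin {N : ℕ} {D : Type} [CommRing D] [Algebra ℂ D] (d : Fin N × Fin 5 → D) (i : Fin N)
    (p : MvPolynomial (Fin 2) ℂ) :
    aeval d (aeval ![(MvPolynomial.X (i, 1) : Coord (Fin 5) N), MvPolynomial.X (i, 2)] p) =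
      bval (d (i, 1)) (d (i, 2)) p := by
  have h1 : (aeval d).comp (aeval ![(MvPolynomial.X (i, 1) : Coord (Fin 5) N),
      MvPolynomial.X (i, 2)] : MvPolynomial (Fin 2) ℂ →ₐ[ℂ] _) = aeval ![d (i, 1), d (i, 2)] := by
    ext j
    fin_cases j <;> simp
  exact congrArg (fun ψ => ψ p) h1

lemma aeval_uu {N : ℕ} {D : Type} [CommRing D] [Algebra ℂ D] (d : Fin N × Fin 5 → D)
    (i : Fin N) : aeval d (S.uu N i) =
      bval (d (i, 1)) (d (i, 2)) S.p * d (i, 0) + bval (d (i, 1)) (d (i, 2)) S.s := by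
  rw [uu, map_add, map_mul, aeval_bin, aeval_bin, aeval_X]

lemma ptC0 {D : Type} [CommRing D] [Algebra ℂ D] (k : Fin S.t) (ε : ℂ) (a w : D) :
    S.ptC k ε a w 0 = a := rfl

lemma ptC1 {D : Type} [CommRing D] [Algebra ℂ D] (k : Fin S.t) (ε : ℂ) (a w : D) :
    S.ptC k ε a w 1 = algebraMap ℂ D (S.al k) * w := rfl

lemma ptC2 {D : Type} [CommRing D] [Algebra ℂ D] (k : Fin S.t) (ε : ℂ) (a w : D) :
    S.ptC k ε a w 2 = algebraMap ℂ D (S.be k) * w := rfl

lemma ptC3 {D : Type} [CommRing D] [Algebra ℂ D] (k : Fin S.t) (ε : ℂ) (a w : D) :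
    S.ptC k ε a w 3 = 0 := rfl

lemma ptC4 {D : Type} [CommRing D] [Algebra ℂ D] (k : Fin S.t) (ε : ℂ) (a w : D) :
    S.ptC k ε a w 4 = algebraMap ℂ D (ε * S.ga k) * S.uC k a w := rfl

/-- the linear form vanishing at the `k`-th root, in the coordinates of the `i`-th point -/
noncomputable def elli {N : ℕ} (i : Fin N) (k : Fin S.t) : Coord (Fin 5) N :=
  C (S.be k) * MvPolynomial.X (i, 1) - C (S.al k) * MvPolynomial.X (i, 2)

/-- the equation `y = ε γ (p x_0 + s)` of the curve over the `k`-th root -/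
noncomputable def crv {N : ℕ} (i : Fin N) (k : Fin S.t) (ε : ℂ) : Coord (Fin 5) N :=
  MvPolynomial.X (i, 4) - C (ε * S.ga k) * S.uu N i

lemma elli_homogeneous {N : ℕ} (i : Fin N) (k : Fin S.t) :
    IsWeightedHomogeneous (S.V.mdeg N) (S.elli i k) (Pi.single i 1) := by
  have h1 := (isWeightedHomogeneous_C (S.V.mdeg N) (S.be k)).mul
    (S.X1_homogeneous i 1 (by decide))
  have h2 := (isWeightedHomogeneous_C (S.V.mdeg N) (S.al k)).mul
    (S.X1_homogeneous i 2 (by decide))
  rw [zero_add] at h1 h2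
  exact h1.sub h2

lemma crv_homogeneous {N : ℕ} (i : Fin N) (k : Fin S.t) (ε : ℂ) :
    IsWeightedHomogeneous (S.V.mdeg N) (S.crv i k ε) (Pi.single i S.m) := by
  have h2 := (isWeightedHomogeneous_C (S.V.mdeg N) (ε * S.ga k)).mul
    (S.uu_homogeneous (N := N) i)
  rw [zero_add] at h2
  exact (S.X4_homogeneous i).sub h2

section mem

variable {N : ℕ} {D : Type} [CommRing D] [Algebra ℂ D] (d : Fin N × Fin 5 → D) (i : Fin N)
  (k : Fin S.t) (ε : ℂ) (a w : D) (hd : ∀ j, d (i, j) = S.ptC k ε a w j)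

include hd

lemma elli_mem : S.elli i k ∈ genIdeal S.V d := by
  rw [mem_genIdeal_of_homogeneous S.V d (S.elli_homogeneous i k), elli, map_sub, map_mul, map_mul,
    aeval_X, aeval_X, hd, hd, ptC1, ptC2, ← MvPolynomial.algebraMap_eq, AlgHom.commutes,
    AlgHom.commutes]
  ring

lemma X3_mem_of : (MvPolynomial.X (i, 3) : Coord (Fin 5) N) ∈ genIdeal S.V d := by
  rw [X_mem_genIdeal, hd, ptC3]

lemma crv_mem : S.crv i k ε ∈ genIdeal S.V d := by
  rw [mem_genIdeal_of_homogeneous S.V d (S.crv_homogeneous i k ε), crv, map_sub, map_mul,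
    aeval_X, aeval_uu, hd, hd, hd, hd, ptC0, ptC1, ptC2, ptC4, ← MvPolynomial.algebraMap_eq,
    AlgHom.commutes, uC]
  ring

end mem

/-- a linear form with value one at the `k`-th root, in the coordinates of the `i`-th point -/
lemma exists_section (k : Fin S.t) : ∃ a b : ℂ, a * S.al k + b * S.be k = 1 := by
  rcases S.hne k with h | h
  · exact ⟨(S.al k)⁻¹, 0, by rw [inv_mul_cancel₀ h]; ring⟩
  · exact ⟨0, (S.be k)⁻¹, by rw [inv_mul_cancel₀ h]; ring⟩

/-- modulo the three equations a coordinate is a polynomial in the two parameters -/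
lemma red {N : ℕ} (J : Ideal (Coord (Fin 5) N)) (i : Fin N) (k : Fin S.t) (ε : ℂ)
    (h1 : S.elli i k ∈ J) (h3 : (MvPolynomial.X (i, 3) : Coord (Fin 5) N) ∈ J)
    (h4 : S.crv i k ε ∈ J) {a b : ℂ} (hab : a * S.al k + b * S.be k = 1) (j : Fin 5) :
    MvPolynomial.X (i, j) - S.ptC k ε (MvPolynomial.X (i, 0) : Coord (Fin 5) N)
      (C a * MvPolynomial.X (i, 1) + C b * MvPolynomial.X (i, 2)) j ∈ J := by
  have hC : (C (a * S.al k + b * S.be k) : Coord (Fin 5) N) = 1 := by rw [hab, C_1]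
  have e1 : (MvPolynomial.X (i, 1) : Coord (Fin 5) N) - C (S.al k) *
      (C a * MvPolynomial.X (i, 1) + C b * MvPolynomial.X (i, 2)) = C b * S.elli i k := by
    rw [elli]
    rw [map_add, map_mul, map_mul] at hC
    linear_combination (-MvPolynomial.X (i, 1) : Coord (Fin 5) N) * hC
  have e2 : (MvPolynomial.X (i, 2) : Coord (Fin 5) N) - C (S.be k) *
      (C a * MvPolynomial.X (i, 1) + C b * MvPolynomial.X (i, 2)) = - C a * S.elli i k := by
    rw [elli]
    rw [map_add, map_mul, map_mul] at hC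
    linear_combination (-MvPolynomial.X (i, 2) : Coord (Fin 5) N) * hC
  have m1 : (MvPolynomial.X (i, 1) : Coord (Fin 5) N) - C (S.al k) *
      (C a * MvPolynomial.X (i, 1) + C b * MvPolynomial.X (i, 2)) ∈ J := by
    rw [e1]; exact J.mul_mem_left _ h1
  have m2 : (MvPolynomial.X (i, 2) : Coord (Fin 5) N) - C (S.be k) *
      (C a * MvPolynomial.X (i, 1) + C b * MvPolynomial.X (i, 2)) ∈ J := by
    rw [e2]; exact J.mul_mem_left _ h1
  have hbin : ∀ p : MvPolynomial (Fin 2) ℂ,
      aeval ![(MvPolynomial.X (i, 1) : Coord (Fin 5) N), MvPolynomial.X (i, 2)] p -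
      bval (algebraMap ℂ (Coord (Fin 5) N) (S.al k) *
          (C a * MvPolynomial.X (i, 1) + C b * MvPolynomial.X (i, 2)))
        (algebraMap ℂ (Coord (Fin 5) N) (S.be k) *
          (C a * MvPolynomial.X (i, 1) + C b * MvPolynomial.X (i, 2))) p ∈ J := by
    intro p
    rw [← Ideal.Quotient.eq]
    have h : (Ideal.Quotient.mkₐ ℂ J).comp (aeval ![(MvPolynomial.X (i, 1) : Coord (Fin 5) N),
        MvPolynomial.X (i, 2)] : MvPolynomial (Fin 2) ℂ →ₐ[ℂ] _) =
        (Ideal.Quotient.mkₐ ℂ J).comp (aeval ![algebraMap ℂ (Coord (Fin 5) N) (S.al k) *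
          (C a * MvPolynomial.X (i, 1) + C b * MvPolynomial.X (i, 2)),
          algebraMap ℂ (Coord (Fin 5) N) (S.be k) *
          (C a * MvPolynomial.X (i, 1) + C b * MvPolynomial.X (i, 2))] :
          MvPolynomial (Fin 2) ℂ →ₐ[ℂ] _) := by
      ext j
      fin_cases j
      · simp only [AlgHom.comp_apply, aeval_X]
        exact (Ideal.Quotient.eq).2 m1
      · simp only [AlgHom.comp_apply, aeval_X]
        exact (Ideal.Quotient.eq).2 m2
    exact congrArg (fun ψ => ψ p) h
  fin_cases j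
  · show MvPolynomial.X (i, 0) - MvPolynomial.X (i, 0) ∈ J
    rw [sub_self]; exact J.zero_mem
  · exact m1
  · exact m2
  · show MvPolynomial.X (i, 3) - 0 ∈ J
    rw [sub_zero]; exact h3
  · show MvPolynomial.X (i, 4) - algebraMap ℂ (Coord (Fin 5) N) (ε * S.ga k) *
      S.uC k (MvPolynomial.X (i, 0) : Coord (Fin 5) N)
        (C a * MvPolynomial.X (i, 1) + C b * MvPolynomial.X (i, 2)) ∈ J
    have e : MvPolynomial.X (i, 4) - algebraMap ℂ (Coord (Fin 5) N) (ε * S.ga k) *
      S.uC k (MvPolynomial.X (i, 0) : Coord (Fin 5) N)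
        (C a * MvPolynomial.X (i, 1) + C b * MvPolynomial.X (i, 2)) =
        S.crv i k ε + C (ε * S.ga k) * (S.uu N i - S.uC k (MvPolynomial.X (i, 0))
        (C a * MvPolynomial.X (i, 1) + C b * MvPolynomial.X (i, 2))) := by
      rw [crv, ← MvPolynomial.algebraMap_eq]
      ring
    rw [e]
    refine J.add_mem h4 (J.mul_mem_left _ ?_)
    rw [uu, uC]
    have e5 : ∀ P Q P' Q' x : Coord (Fin 5) N, (P * x + Q) - (P' * x + Q') =
        (P - P') * x + (Q - Q') := by intros; ring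
    rw [e5]
    exact J.add_mem (J.mul_mem_right _ (hbin _)) (hbin _)

lemma bval_map {D D' : Type} [CommRing D] [Algebra ℂ D] [CommRing D'] [Algebra ℂ D']
    (g : D →ₐ[ℂ] D') (a b : D) (p : MvPolynomial (Fin 2) ℂ) :
    g (bval a b p) = bval (g a) (g b) p := by
  have h : g.comp (aeval ![a, b] : MvPolynomial (Fin 2) ℂ →ₐ[ℂ] D) = aeval ![g a, g b] := by
    ext j
    fin_cases j <;> simp
  exact congrArg (fun ψ => ψ p) h

lemma uC_map {D D' : Type} [CommRing D] [Algebra ℂ D] [CommRing D'] [Algebra ℂ D']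
    (g : D →ₐ[ℂ] D') (k : Fin S.t) (a w : D) : g (S.uC k a w) = S.uC k (g a) (g w) := by
  rw [uC, uC, map_add, map_mul, bval_map, bval_map, map_mul, map_mul, AlgHom.commutes,
    AlgHom.commutes]

lemma ptC_map {D D' : Type} [CommRing D] [Algebra ℂ D] [CommRing D'] [Algebra ℂ D']
    (g : D →ₐ[ℂ] D') (k : Fin S.t) (ε : ℂ) (a w : D) (j : Fin 5) :
    g (S.ptC k ε a w j) = S.ptC k ε (g a) (g w) j := by
  fin_cases j
  · rfl
  · show g (algebraMap ℂ D (S.al k) * w) = algebraMap ℂ D' (S.al k) * g w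
    rw [map_mul, AlgHom.commutes]
  · show g (algebraMap ℂ D (S.be k) * w) = algebraMap ℂ D' (S.be k) * g w
    rw [map_mul, AlgHom.commutes]
  · exact map_zero g
  · show g (algebraMap ℂ D (ε * S.ga k) * S.uC k a w) =
      algebraMap ℂ D' (ε * S.ga k) * S.uC k (g a) (g w)
    rw [map_mul, AlgHom.commutes, uC_map]

/-- if the coordinates are, modulo `J`, the images of the values `d`, the ideal of the point is
contained in `J` -/
lemma genIdeal_le_of_section {ι : Type} (X : WVar ι) {N : ℕ} {D : Type} [CommRing D]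
    [Algebra ℂ D] (d : Fin N × ι → D) (J : Ideal (Coord ι N)) (σ : D →ₐ[ℂ] Coord ι N)
    (h : ∀ v, MvPolynomial.X v - σ (d v) ∈ J) : genIdeal X d ≤ J := by
  intro f hf
  have h0 : aeval d f = 0 := aeval_of_mem X d hf
  have h1 : (Ideal.Quotient.mkₐ ℂ J) = ((Ideal.Quotient.mkₐ ℂ J).comp σ).comp (aeval d) := by
    ext v
    simp only [AlgHom.comp_apply, aeval_X]
    exact (Ideal.Quotient.eq).2 (h v)
  have h2 : Ideal.Quotient.mkₐ ℂ J f = 0 := by
    rw [h1, AlgHom.comp_apply, h0, map_zero]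
  exact Ideal.Quotient.eq_zero_iff_mem.1 h2

/-- the ideal of the curve over the `k`-th root is generated by three equations -/
theorem pC_I (k : Fin S.t) (b : Bool) : (S.pC k b).I =
    Ideal.span {S.elli 0 k, MvPolynomial.X (0, 3), S.crv 0 k (sgn b)} := by
  apply le_antisymm
  · obtain ⟨x, y, hxy⟩ := S.exists_section k
    refine genIdeal_le_of_section S.V _ _ (aeval ![MvPolynomial.X (0, 0),
      C x * MvPolynomial.X (0, 1) + C y * MvPolynomial.X (0, 2)]) ?_
    rintro ⟨i, j⟩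
    have hi : i = 0 := Subsingleton.elim _ _
    subst hi
    rw [ptC_map, aeval_X, aeval_X]
    exact S.red _ 0 k (sgn b) (Ideal.subset_span (by simp)) (Ideal.subset_span (by simp))
      (Ideal.subset_span (by simp)) hxy j
  · rw [Ideal.span_le]
    rintro x (rfl | rfl | rfl)
    · exact S.elli_mem _ 0 k (sgn b) _ _ (fun j => rfl)
    · exact S.X3_mem_of _ 0 k (sgn b) _ _ (fun j => rfl)
    · exact S.crv_mem _ 0 k (sgn b) _ _ (fun j => rfl)

lemma prMap_uu {N : ℕ} (i : Fin N) : prMap (Fin 5) N i (S.uu 1 0) = S.uu N i := by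
  have h : ∀ p : MvPolynomial (Fin 2) ℂ, prMap (Fin 5) N i (aeval
      ![(MvPolynomial.X (0, 1) : Coord (Fin 5) 1), MvPolynomial.X (0, 2)] p) =
      aeval ![(MvPolynomial.X (i, 1) : Coord (Fin 5) N), MvPolynomial.X (i, 2)] p := by
    intro p
    have h1 : (prMap (Fin 5) N i).comp (aeval
      ![(MvPolynomial.X (0, 1) : Coord (Fin 5) 1), MvPolynomial.X (0, 2)]) =
      aeval ![(MvPolynomial.X (i, 1) : Coord (Fin 5) N), MvPolynomial.X (i, 2)] := by
      ext j
      fin_cases j <;> simp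
    exact congrArg (fun ψ => ψ p) h1
  rw [uu, uu, map_add, map_mul, h, h, rename_X]

lemma prMap_elli {N : ℕ} (i : Fin N) (k : Fin S.t) :
    prMap (Fin 5) N i (S.elli 0 k) = S.elli i k := by
  simp [elli]

lemma prMap_crv {N : ℕ} (i : Fin N) (k : Fin S.t) (ε : ℂ) :
    prMap (Fin 5) N i (S.crv 0 k ε) = S.crv i k ε := by
  rw [crv, crv, map_sub, map_mul, prMap_uu, rename_X, rename_C]

/-- the ideal of the product of two of the curves over a root -/
theorem box_pC (k : Fin S.t) (b b' : Bool) :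
    boxIdeal S.V ![S.pC k b, S.pC k b'] = (S.pCC k b b').I := by
  have hbox : ∀ i : Fin 2, ∀ z ∈ (![S.pC k b, S.pC k b'] i).I,
      prMap (Fin 5) 2 i z ∈ boxIdeal S.V ![S.pC k b, S.pC k b'] := by
    intro i z hz
    exact Ideal.mem_iSup_of_mem i (Ideal.mem_map_of_mem _ hz)
  apply le_antisymm
  · refine iSup_le fun i => ?_
    fin_cases i
    · show (S.pC k b).I.map (prMap (Fin 5) 2 0).toRingHom ≤ _
      rw [pC_I, Ideal.map_span, Ideal.span_le]
      rintro x ⟨y, (rfl | rfl | rfl), rfl⟩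
      · show prMap (Fin 5) 2 0 (S.elli 0 k) ∈ _
        rw [prMap_elli]
        exact S.elli_mem _ 0 k (sgn b) (MvPolynomial.X 0) (MvPolynomial.X 1) (fun j => rfl)
      · show prMap (Fin 5) 2 0 (MvPolynomial.X (0, 3)) ∈ _
        rw [rename_X]
        exact S.X3_mem_of _ 0 k (sgn b) (MvPolynomial.X 0) (MvPolynomial.X 1) (fun j => rfl)
      · show prMap (Fin 5) 2 0 (S.crv 0 k (sgn b)) ∈ _
        rw [prMap_crv]
        exact S.crv_mem _ 0 k (sgn b) (MvPolynomial.X 0) (MvPolynomial.X 1) (fun j => rfl)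
    · show (S.pC k b').I.map (prMap (Fin 5) 2 1).toRingHom ≤ _
      rw [pC_I, Ideal.map_span, Ideal.span_le]
      rintro x ⟨y, (rfl | rfl | rfl), rfl⟩
      · show prMap (Fin 5) 2 1 (S.elli 0 k) ∈ _
        rw [prMap_elli]
        exact S.elli_mem _ 1 k (sgn b') (MvPolynomial.X 2) (MvPolynomial.X 3) (fun j => rfl)
      · show prMap (Fin 5) 2 1 (MvPolynomial.X (0, 3)) ∈ _
        rw [rename_X]
        exact S.X3_mem_of _ 1 k (sgn b') (MvPolynomial.X 2) (MvPolynomial.X 3) (fun j => rfl)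
      · show prMap (Fin 5) 2 1 (S.crv 0 k (sgn b')) ∈ _
        rw [prMap_crv]
        exact S.crv_mem _ 1 k (sgn b') (MvPolynomial.X 2) (MvPolynomial.X 3) (fun j => rfl)
  · obtain ⟨x, y, hxy⟩ := S.exists_section k
    have hI : ∀ b : Bool, S.elli 0 k ∈ (S.pC k b).I ∧
        (MvPolynomial.X (0, 3) : Coord (Fin 5) 1) ∈ (S.pC k b).I ∧
        S.crv 0 k (sgn b) ∈ (S.pC k b).I := by
      intro b
      rw [pC_I]
      exact ⟨Ideal.subset_span (by simp), Ideal.subset_span (by simp),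
        Ideal.subset_span (by simp)⟩
    refine genIdeal_le_of_section S.V _ _ (aeval ![MvPolynomial.X (0, 0),
      C x * MvPolynomial.X (0, 1) + C y * MvPolynomial.X (0, 2), MvPolynomial.X (1, 0),
      C x * MvPolynomial.X (1, 1) + C y * MvPolynomial.X (1, 2)]) ?_
    rintro ⟨i, j⟩
    fin_cases i
    · show MvPolynomial.X (0, j) - aeval _ (S.ptC k (sgn b) (MvPolynomial.X 0)
        (MvPolynomial.X 1) j) ∈ _
      rw [ptC_map, aeval_X, aeval_X]
      refine S.red _ 0 k (sgn b) ?_ ?_ ?_ hxy j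
      · rw [← prMap_elli]
        exact hbox 0 _ (hI b).1
      · have := hbox 0 _ (hI b).2.1
        rwa [rename_X] at this
      · rw [← prMap_crv]
        exact hbox 0 _ (hI b).2.2
    · show MvPolynomial.X (1, j) - aeval _ (S.ptC k (sgn b') (MvPolynomial.X 2)
        (MvPolynomial.X 3) j) ∈ _
      rw [ptC_map, aeval_X, aeval_X]
      refine S.red _ 1 k (sgn b') ?_ ?_ ?_ hxy j
      · rw [← prMap_elli]
        exact hbox 1 _ (hI b').1
      · have := hbox 1 _ (hI b').2.1
        rwa [rename_X] at this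
      · rw [← prMap_crv]
        exact hbox 1 _ (hI b').2.2

/-- the cycle of the product of two of the curves over a root -/
theorem box_pC_eq (k : Fin S.t) (b b' : Bool) :
    box S.V ![S.pC k b, S.pC k b'] = Finsupp.single (S.pCC k b b') 1 :=
  box_of_eq S.V _ _ (S.box_pC k b b').symm

lemma uC_ne_zero (k : Fin S.t) :
    S.uC k (MvPolynomial.X 0 : MvPolynomial (Fin 2) ℂ) (MvPolynomial.X 1) ≠ 0 := by
  intro h
  have hval : ∀ x : ℂ, eval ![S.al k, S.be k] S.p * x + eval ![S.al k, S.be k] S.s = 0 := by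
    intro x
    have h1 := congrArg (aeval (R := ℂ) ![x, (1 : ℂ)]) h
    rw [uC_map, aeval_X, aeval_X, map_zero] at h1
    simp only [Matrix.cons_val_zero, Matrix.cons_val_one] at h1
    rw [uC] at h1
    have h2 : ∀ p : MvPolynomial (Fin 2) ℂ, bval (algebraMap ℂ ℂ (S.al k) * 1)
        (algebraMap ℂ ℂ (S.be k) * 1) p = eval ![S.al k, S.be k] p := by
      intro p
      rw [bval, mul_one, mul_one]
      rfl
    rw [h2, h2] at h1
    exact h1
  have h0 := hval 0
  have h1 := hval 1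
  rw [mul_zero, zero_add] at h0
  rw [h0, mul_one, add_zero] at h1
  rcases S.hps k with h' | h'
  · exact h' h1
  · exact h' h0

/-- the two curves over a root are different -/
theorem pC_ne (k : Fin S.t) : S.pC k true ≠ S.pC k false := by
  intro h
  have h1 : S.crv 0 k (sgn true) ∈ (S.pC k true).I := by
    rw [pC_I]; exact Ideal.subset_span (by simp)
  have h2 : S.crv 0 k (sgn false) ∈ (S.pC k true).I := by
    rw [h, pC_I]; exact Ideal.subset_span (by simp)
  have h3 : C (2 * S.ga k) * S.uu 1 0 ∈ (S.pC k true).I := by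
    have e : C (2 * S.ga k) * S.uu 1 0 = S.crv 0 k (sgn false) - S.crv 0 k (sgn true) := by
      rw [crv, crv]
      have : (C (2 * S.ga k) : Coord (Fin 5) 1) = C (sgn true * S.ga k) -
          C (sgn false * S.ga k) := by
        rw [← map_sub]
        congr 1
        simp [sgn]
        ring
      rw [this]
      ring
    rw [e]
    exact Ideal.sub_mem _ h2 h1
  have h4 := aeval_of_mem S.V _ h3
  rw [map_mul, aeval_uu] at h4
  rcases mul_eq_zero.1 h4 with h5 | h5
  · rw [← MvPolynomial.algebraMap_eq, AlgHom.commutes, MvPolynomial.algebraMap_eq, C_eq_zero] at h5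
    exact mul_ne_zero two_ne_zero (S.hga k) h5
  · exact S.uC_ne_zero k h5

end DSData

end Pool.Agent.RCH
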