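import Pool.Agent.RCH.Ord

/-!
# Orders of vanishing: additivity, finiteness, symmetries
-/

set_option autoImplicit false

namespace Pool.Agent.RCH

open Ideal IsLocalRing

section LocalLen

variable {L : Type*} [CommRing L]

lemma length_mul (p : Ideal L) [p.IsPrime] (g h : L) (hh : h ∉ p) :
    Module.length L (L ⧸ (p ⊔ span {g * h})) =
      Module.length L (L ⧸ (p ⊔ span {g})) + Module.length L (L ⧸ (p ⊔ span {h})) := by
  have hf : (p ⊔ span {g} : Ideal L) ≤
      Submodule.comap (LinearMap.mulLeft L h) (p ⊔ span {g * h} : Ideal L) := by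
    rw [sup_le_iff]
    refine ⟨fun x hx => ?_, ?_⟩
    · rw [Submodule.mem_comap, LinearMap.mulLeft_apply]
      exact Ideal.mem_sup_left (p.mul_mem_left _ hx)
    · rw [Ideal.span_le, Set.singleton_subset_iff, SetLike.mem_coe, Submodule.mem_comap,
        LinearMap.mulLeft_apply]
      apply Ideal.mem_sup_right
      rw [Ideal.mem_span_singleton, mul_comm]
  have hg : (p ⊔ span {g * h} : Ideal L) ≤
      Submodule.comap (LinearMap.id : L →ₗ[L] L) (p ⊔ span {h} : Ideal L) := by
    rw [sup_le_iff]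
    refine ⟨fun x hx => ?_, ?_⟩
    · rw [Submodule.mem_comap, LinearMap.id_apply]
      exact Ideal.mem_sup_left hx
    · rw [Ideal.span_le, Set.singleton_subset_iff, SetLike.mem_coe, Submodule.mem_comap,
        LinearMap.id_apply]
      apply Ideal.mem_sup_right
      rw [Ideal.mem_span_singleton]
      exact Dvd.intro_left _ rfl
  let f : (L ⧸ (p ⊔ span {g})) →ₗ[L] (L ⧸ (p ⊔ span {g * h})) :=
    Submodule.mapQ _ _ (LinearMap.mulLeft L h) hf
  let k : (L ⧸ (p ⊔ span {g * h})) →ₗ[L] (L ⧸ (p ⊔ span {h})) :=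
    Submodule.mapQ _ _ LinearMap.id hg
  refine Module.length_eq_add_of_exact f k ?_ ?_ ?_
  · rw [← LinearMap.ker_eq_bot, LinearMap.ker_eq_bot']
    intro x hx
    obtain ⟨x, rfl⟩ := Submodule.Quotient.mk_surjective _ x
    have hx' : h * x ∈ (p ⊔ span {g * h} : Ideal L) := by
      have := hx
      simp only [f, Submodule.mapQ_apply, LinearMap.mulLeft_apply] at this
      exact (Submodule.Quotient.mk_eq_zero _).1 this
    rw [Submodule.Quotient.mk_eq_zero]
    rw [Submodule.mem_sup] at hx' ⊢
    obtain ⟨a, ha, b, hb, hab⟩ := hx'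
    rw [Ideal.mem_span_singleton'] at hb
    obtain ⟨c, rfl⟩ := hb
    have h1 : h * (x - c * g) ∈ p := by
      have : h * (x - c * g) = a := by linear_combination -hab
      rw [this]; exact ha
    refine ⟨x - c * g, ((Ideal.IsPrime.mem_or_mem ‹p.IsPrime› h1).resolve_left hh), c * g,
      Ideal.mem_span_singleton'.2 ⟨c, rfl⟩, by ring⟩
  · intro y
    obtain ⟨y, rfl⟩ := Submodule.Quotient.mk_surjective _ y
    exact ⟨Submodule.Quotient.mk y, by simp [k]⟩
  · intro y
    obtain ⟨y, rfl⟩ := Submodule.Quotient.mk_surjective _ y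
    constructor
    · intro hy
      have hy' : y ∈ (p ⊔ span {h} : Ideal L) := by
        simp only [k, Submodule.mapQ_apply, LinearMap.id_apply] at hy
        exact (Submodule.Quotient.mk_eq_zero _).1 hy
      rw [Submodule.mem_sup] at hy'
      obtain ⟨a, ha, b, hb, hab⟩ := hy'
      rw [Ideal.mem_span_singleton'] at hb
      obtain ⟨c, rfl⟩ := hb
      refine ⟨Submodule.Quotient.mk c, ?_⟩
      simp only [f, Submodule.mapQ_apply, LinearMap.mulLeft_apply]
      rw [Submodule.Quotient.eq]
      apply Ideal.mem_sup_left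
      have : h * c - y = -a := by rw [← hab]; ring
      rw [this]
      exact p.neg_mem ha
    · rintro ⟨x, hx⟩
      obtain ⟨x, rfl⟩ := Submodule.Quotient.mk_surjective _ x
      rw [← hx]
      simp only [f, k, Submodule.mapQ_apply, LinearMap.mulLeft_apply, LinearMap.id_apply]
      rw [Submodule.Quotient.mk_eq_zero]
      apply Ideal.mem_sup_right
      exact Ideal.mem_span_singleton'.2 ⟨x, by ring⟩

end LocalLen

section ord

variable {S : Type} [CommRing S]

lemma map_sup_span (P Q : Ideal S) [Q.IsPrime] (g : S) :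
    (P ⊔ span {g}).map (algebraMap S (Localization.AtPrime Q)) =
      P.map (algebraMap S (Localization.AtPrime Q)) ⊔
        span {algebraMap S (Localization.AtPrime Q) g} := by
  rw [Ideal.map_sup, Ideal.map_span, Set.image_singleton]

/-- O1 -/
lemma ordAt_eq_zero {P Q : Ideal S} [Q.IsPrime] {g : S} (hg : g ∉ Q) : ordAt P Q g = 0 := by
  unfold ordAt
  have h1 : (P ⊔ span {g}).map (algebraMap S (Localization.AtPrime Q)) = ⊤ := by
    rw [map_sup_span, Ideal.span_singleton_eq_top.2 (isUnit_of_notMem hg), sup_top_eq]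
  rw [h1]
  have : Subsingleton (Localization.AtPrime Q ⧸ (⊤ : Ideal (Localization.AtPrime Q))) :=
    Ideal.Quotient.subsingleton_iff.2 rfl
  exact Module.length_eq_zero

/-- O2 -/
lemma ordAt_congr {P Q : Ideal S} [Q.IsPrime] {g g' : S} (h : g - g' ∈ P) :
    ordAt P Q g = ordAt P Q g' := by
  have h1 : P ⊔ span {g} = P ⊔ span {g'} := by
    apply le_antisymm
    · rw [sup_le_iff, Ideal.span_le, Set.singleton_subset_iff]
      refine ⟨le_sup_left, ?_⟩
      have : g = (g - g') + g' := by ring
      rw [SetLike.mem_coe, this]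
      exact add_mem (Ideal.mem_sup_left h) (Ideal.mem_sup_right (Ideal.mem_span_singleton_self _))
    · rw [sup_le_iff, Ideal.span_le, Set.singleton_subset_iff]
      refine ⟨le_sup_left, ?_⟩
      have : g' = -(g - g') + g := by ring
      rw [SetLike.mem_coe, this]
      exact add_mem (Ideal.mem_sup_left (P.neg_mem h))
        (Ideal.mem_sup_right (Ideal.mem_span_singleton_self _))
  unfold ordAt
  rw [h1]

/-- O3 -/
lemma ordAt_unit_mul {P Q : Ideal S} [Q.IsPrime] {s : S} (hs : s ∉ Q) (g : S) :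
    ordAt P Q (s * g) = ordAt P Q g := by
  unfold ordAt
  rw [map_sup_span, map_sup_span, map_mul, Ideal.span_singleton_mul_left_unit (isUnit_of_notMem hs)]

/-- O4 -/
lemma ordAt_mul {P Q : Ideal S} [P.IsPrime] [Q.IsPrime] (hPQ : P ≤ Q) (g : S) {h : S}
    (hh : h ∉ P) : ordAt P Q (g * h) = ordAt P Q g + ordAt P Q h := by
  have := isPrime_map (P := P) (Q := Q) hPQ
  unfold ordAt
  rw [map_sup_span, map_sup_span, map_sup_span, map_mul]
  exact length_mul _ _ _ (fun hc => hh ((mem_map_iff hPQ h).1 hc))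

/-- O5 -/
theorem ordAt_ne_top [IsNoetherianRing S] {P Q : Ideal S} [Q.IsPrime]
    (hc : CodimOne P Q) {g : S} (hg : g ∉ P) : ordAt P Q g ≠ ⊤ := by
  unfold ordAt
  set L := Localization.AtPrime Q
  set I := (P ⊔ span {g}).map (algebraMap S L) with hI
  have hN : IsNoetherianRing L := IsLocalization.isNoetherianRing Q.primeCompl L ‹_›
  have hdim : Ring.KrullDimLE 0 (L ⧸ I) := by
    rw [Ring.krullDimLE_zero_iff]
    intro q hq
    have hq1 : (q.comap (Ideal.Quotient.mk I)).IsPrime := Ideal.comap_isPrime _ _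
    have hq2 : ((q.comap (Ideal.Quotient.mk I)).comap (algebraMap S L)).IsPrime :=
      Ideal.comap_isPrime _ _
    have hIq : I ≤ q.comap (Ideal.Quotient.mk I) := by
      intro x hx
      rw [Ideal.mem_comap, Ideal.Quotient.eq_zero_iff_mem.2 hx]
      exact q.zero_mem
    have hle : P ⊔ span {g} ≤ (q.comap (Ideal.Quotient.mk I)).comap (algebraMap S L) := by
      rw [← Ideal.map_le_iff_le_comap]
      exact hIq
    have hleQ : (q.comap (Ideal.Quotient.mk I)).comap (algebraMap S L) ≤ Q := by
      intro x hx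
      by_contra hxQ
      have hu := isUnit_of_notMem (Q := Q) hxQ
      exact hq1.ne_top (Ideal.eq_top_of_isUnit_mem _ hx hu)
    have heq : (q.comap (Ideal.Quotient.mk I)).comap (algebraMap S L) = Q := by
      by_contra hne
      have := hc.2 _ hq2 (le_sup_left.trans hle) (lt_of_le_of_ne hleQ hne)
      apply hg
      rw [← this]
      exact hle (Ideal.mem_sup_right (Ideal.mem_span_singleton_self g))
    have hmax : (q.comap (Ideal.Quotient.mk I)) = IsLocalRing.maximalIdeal L := by
      apply le_antisymm (IsLocalRing.le_maximalIdeal hq1.ne_top)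
      rw [← Localization.AtPrime.map_eq_maximalIdeal, Ideal.map_le_iff_le_comap, heq]
    have : (q.comap (Ideal.Quotient.mk I)).IsMaximal := by
      rw [hmax]; exact IsLocalRing.maximalIdeal.isMaximal _
    have hmap : q = (q.comap (Ideal.Quotient.mk I)).map (Ideal.Quotient.mk I) :=
      (Ideal.map_comap_of_surjective _ Ideal.Quotient.mk_surjective q).symm
    rw [hmap]
    refine (Ideal.map_eq_top_or_isMaximal_of_surjective _ Ideal.Quotient.mk_surjective this).resolve_left ?_
    rw [← hmap]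
    exact hq.ne_top
  have hArt : IsArtinianRing (L ⧸ I) := by
    rw [isArtinianRing_iff_isNoetherianRing_krullDimLE_zero]
    exact ⟨inferInstance, hdim⟩
  have h1 : Module.length L (L ⧸ I) = Module.length (L ⧸ I) (L ⧸ I) :=
    Module.length_eq_of_surjective Ideal.Quotient.mk_surjective
  rw [h1]
  exact Module.length_ne_top

/-- O7 -/
theorem toNat_ordAt_mul [IsNoetherianRing S] {P Q : Ideal S} [P.IsPrime] [Q.IsPrime]
    (hc : CodimOne P Q) {g h : S} (hg : g ∉ P) (hh : h ∉ P) :
    (ordAt P Q (g * h)).toNat = (ordAt P Q g).toNat + (ordAt P Q h).toNat := by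
  rw [ordAt_mul hc.1.le g hh, ENat.toNat_add (ordAt_ne_top hc hg) (ordAt_ne_top hc hh)]

/-- O6 -/
theorem ordAt_symmetry (σ : S ≃+* S) {P Q : Ideal S} [Q.IsPrime]
    (hP : ∀ x, σ x ∈ P ↔ x ∈ P) (hQ : ∀ x, σ x ∈ Q ↔ x ∈ Q) {g g' s : S} (hs : s ∉ Q)
    (h : σ g - s * g' ∈ P) : ordAt P Q g = ordAt P Q g' := by
  rw [ordAt_equiv σ hP hQ g, ordAt_congr h, ordAt_unit_mul hs]

/-- transport of the relation `CodimOne` -/
theorem codimOne_equiv {S' : Type} [CommRing S'] (e : S ≃+* S') {P Q : Ideal S} {P' Q' : Ideal S'}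
    (hP : ∀ x, e x ∈ P' ↔ x ∈ P) (hQ : ∀ x, e x ∈ Q' ↔ x ∈ Q) (h : CodimOne P Q) :
    CodimOne P' Q' := by
  obtain ⟨h1, h2⟩ := h
  have hle : P' ≤ Q' := by
    intro x hx
    have h3 : e.symm x ∈ P := by rw [← hP]; simpa using hx
    have h4 := (hQ _).2 (h1.le h3)
    simpa using h4
  refine ⟨lt_of_le_of_ne hle ?_, ?_⟩
  · intro hPQ
    apply h1.ne
    ext x
    rw [← hP, ← hQ, hPQ]
  · intro L hL hPL hLQ
    have hLp : (L.comap (e : S →+* S')).IsPrime := Ideal.comap_isPrime _ _
    have h5 : P ≤ L.comap (e : S →+* S') := by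
      intro x hx
      exact hPL ((hP x).2 hx)
    have h6 : L.comap (e : S →+* S') < Q := by
      refine lt_of_le_of_ne ?_ ?_
      · intro x hx
        exact (hQ x).1 (hLQ.le hx)
      · intro hc
        apply hLQ.ne
        ext x
        have h7 : e.symm x ∈ L.comap (e : S →+* S') ↔ x ∈ L := by
          rw [Ideal.mem_comap]
          simp
        rw [← h7, hc, ← hQ]
        simp
    have h8 := h2 _ hLp h5 h6
    ext x
    have h7 : e.symm x ∈ L.comap (e : S →+* S') ↔ x ∈ L := by
      rw [Ideal.mem_comap]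
      simp
    rw [← h7, h8, ← hP]
    simp

end ord

end Pool.Agent.RCH
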