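import Pool.Agent.RCH.DSMain

/-!
# The relation on the diagonal of the double cover
-/

set_option autoImplicit false

namespace Pool.Agent.RCH

open MvPolynomial

section val

variable {R : Type} [CommRing R]

open Classical in
/-- the coefficient of the divisor of `g / h` on `P` at `Q` -/
noncomputable def dval (P Q : Ideal R) [Q.IsPrime] (g h : R) : ℤ :=
  if CodimOne P Q then ((ordAt P Q g).toNat : ℤ) - ((ordAt P Q h).toNat : ℤ) else 0

lemma isDivisor_apply {ι : Type} {X : WVar ι} {N : ℕ} {P : Pt X N} {g h : Coord ι N}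
    {c : Cycles X N} (hc : IsDivisor X P g h c) (Q : Pt X N) :
    c Q = (haveI := Q.prime; dval P.I Q.I g h) := by
  rw [hc Q]
  rfl

lemma dval_comap (e : R ≃+* R) (P Q P' Q' : Ideal R) [Q.IsPrime] [Q'.IsPrime]
    (hP : ∀ x, e x ∈ P ↔ x ∈ P') (hQ : ∀ x, e x ∈ Q ↔ x ∈ Q') (g h : R) :
    dval P' Q' g h = dval P Q (e g) (e h) := by
  unfold dval
  have h1 : CodimOne P' Q' ↔ CodimOne P Q := by
    constructor
    · exact codimOne_equiv e hP hQ
    · refine codimOne_equiv e.symm (fun x => ?_) (fun x => ?_)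
      · rw [← hP, e.apply_symm_apply]
      · rw [← hQ, e.apply_symm_apply]
  rw [ordAt_equiv e hP hQ g, ordAt_equiv e hP hQ h]
  by_cases hc : CodimOne P Q
  · rw [if_pos hc, if_pos (h1.mpr hc)]
  · rw [if_neg hc, if_neg (fun h' => hc (h1.mp h'))]

end val

namespace DSData

variable (S : DSData)

/-- the first function on the diagonal -/
noncomputable def G3 : Coord (Fin 5) 2 := X (0, 3) ^ S.m

/-- the second function on the diagonal -/
noncomputable def G4 : Coord (Fin 5) 2 := X (0, 4)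

lemma sg_G3 : sg 1 S.G3 = S.G3 := by
  rw [G3, map_pow, sg_X_of_ne 1 (v := (0, 3)) (by decide)]

lemma sg_G4 : sg 1 G4 = G4 := by
  rw [G4, sg_X_of_ne 1 (v := (0, 4)) (by decide)]

lemma codim_XY : CodimOne S.pXD.I S.pYD.I := by
  have := S.pXD.prime
  have := S.pYD.prime
  exact codimOne_of S.pXD_lt.le S.X3_pYD S.X3_pXD S.lg1

/-- the coefficient of the divisor on the diagonal, away from `y = 0` -/
lemma dval_XD (Q : Ideal (Coord (Fin 5) 2)) [Q.IsPrime]
    (h0 : ∃ j, (X (0, j) : Coord (Fin 5) 2) ∉ Q) (h1 : ∃ j, (X (1, j) : Coord (Fin 5) 2) ∉ Q)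
    (h4 : (X (0, 4) : Coord (Fin 5) 2) ∉ Q) [Decidable (Q = S.pYD.I)] :
    dval S.pXD.I Q S.G3 G4 = if Q = S.pYD.I then (S.m : ℤ) else 0 := by
  have hX := S.pXD.prime
  have hY := S.pYD.prime
  have h4' : ordAt S.pXD.I Q G4 = 0 := ordAt_eq_zero h4
  split_ifs with hQ
  · subst hQ
    have h3 : ordAt S.pXD.I S.pYD.I S.G3 = (S.m : ℕ) := by
      refine ordAt_eq S.pXD_lt.le S.X3_pYD S.X3_pXD S.lg1 (s := 1) (s' := 1) ?_ ?_ ?_
      · exact fun h => hY.ne_top ((Ideal.eq_top_iff_one _).mpr h)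
      · exact fun h => hY.ne_top ((Ideal.eq_top_iff_one _).mpr h)
      · rw [G3, sub_self]
        exact S.pXD.I.zero_mem
    rw [dval, if_pos S.codim_XY, h4', h3]
    simp
  · unfold dval
    by_cases hc : CodimOne S.pXD.I Q
    · rw [if_pos hc, h4']
      have h3 : (X (0, 3) : Coord (Fin 5) 2) ∉ Q := by
        intro h3
        have hle := S.cl1 Q hc.1.le h3 h0 h1
        exact S.pXD_lt.ne' (hc.2 S.pYD.I hY S.pXD_lt.le (lt_of_le_of_ne hle (fun h => hQ h.symm)))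
      have h3' : S.G3 ∉ Q := fun h => h3 (Ideal.IsPrime.mem_of_pow_mem (I := Q) inferInstance _ h)
      rw [ordAt_eq_zero h3']
      simp
    · rw [if_neg hc]

lemma sg_mem_pXG (x : Coord (Fin 5) 2) : sg 1 x ∈ S.pXG.I ↔ x ∈ S.pXD.I := by
  rw [pXG_eq, Ideal.mem_comap, sg_sg]

lemma sg_mem_pXD (x : Coord (Fin 5) 2) : sg 1 x ∈ S.pXD.I ↔ x ∈ S.pXG.I := by
  rw [pXG_eq, Ideal.mem_comap]

/-- on the diagonal, `y = 0` for the first point gives `y = 0` for the second -/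
lemma X14_mem {Q : Ideal (Coord (Fin 5) 2)} [hpr : Q.IsPrime] (h : S.pXD.I ≤ Q)
    (h0 : ∃ j, (X (0, j) : Coord (Fin 5) 2) ∉ Q) (h4 : (X (0, 4) : Coord (Fin 5) 2) ∈ Q) :
    (X (1, 4) : Coord (Fin 5) 2) ∈ Q := by
  obtain ⟨j, hj⟩ := h0
  have hj4 : j ≠ 4 := by
    rintro rfl
    exact hj h4
  have hj1 : S.V.wt j = 1 := by
    fin_cases j <;> first | rfl | exact absurd rfl hj4
  have h1 := h (S.pXD_y j hj1)
  have h2 : (X (0, j) ^ S.m * X (1, 4) : Coord (Fin 5) 2) ∈ Q := by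
    have h3 : (X (0, j) ^ S.m * X (1, 4) : Coord (Fin 5) 2) =
        (X (0, j) ^ S.m * X (1, 4) - X (1, j) ^ S.m * X (0, 4)) + X (1, j) ^ S.m * X (0, 4) := by
      ring
    rw [h3]
    exact Q.add_mem h1 (Q.mul_mem_left _ h4)
  rcases hpr.mem_or_mem h2 with h3 | h3
  · exact absurd (hpr.mem_of_pow_mem _ h3) hj
  · exact h3

lemma dval_X (Q : Pt S.V 2) [Decidable (Q = S.pYD)] [Decidable (Q = S.pYG)] :
    (haveI := Q.prime; dval S.pXD.I Q.I S.G3 G4) - (haveI := Q.prime; dval S.pXG.I Q.I S.G3 G4) =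
      (if Q = S.pYD then (S.m : ℤ) else 0) - (if Q = S.pYG then (S.m : ℤ) else 0) := by
  classical
  have hpr := Q.prime
  have hpr' : (Q.I.comap (sg 1)).IsPrime := Ideal.comap_isPrime _ _
  have hG : dval S.pXG.I Q.I S.G3 G4 = dval S.pXD.I (Q.I.comap (sg 1)) S.G3 G4 := by
    rw [dval_comap (sg 1) S.pXD.I (Q.I.comap (sg 1)) S.pXG.I Q.I S.sg_mem_pXD
      (fun x => by rw [Ideal.mem_comap, sg_sg]) S.G3 G4, sg_G3, sg_G4]
  show dval S.pXD.I Q.I S.G3 G4 - dval S.pXG.I Q.I S.G3 G4 = _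
  rw [hG]
  have hQ0 := Q.relevant 0
  have hQ1 := Q.relevant 1
  have hfix : ∀ v : Fin 2 × Fin 5, v ≠ (1, 4) →
      ((X v : Coord (Fin 5) 2) ∈ Q.I.comap (sg 1) ↔ (X v : Coord (Fin 5) 2) ∈ Q.I) := by
    intro v hv
    rw [Ideal.mem_comap, sg_X_of_ne 1 hv]
  have hfix' : (X (1, 4) : Coord (Fin 5) 2) ∈ Q.I.comap (sg 1) ↔
      (X (1, 4) : Coord (Fin 5) 2) ∈ Q.I := by
    rw [Ideal.mem_comap, sg_X_self, neg_mem_iff]
  have hmem : ∀ v : Fin 2 × Fin 5,
      ((X v : Coord (Fin 5) 2) ∈ Q.I.comap (sg 1) ↔ (X v : Coord (Fin 5) 2) ∈ Q.I) := by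
    intro v
    by_cases hv : v = (1, 4)
    · rw [hv]; exact hfix'
    · exact hfix v hv
  by_cases h4 : (X (0, 4) : Coord (Fin 5) 2) ∈ Q.I
  · have hD : Q ≠ S.pYD := by
      rintro rfl
      exact S.X4_pYD 0 h4
    have hG : Q ≠ S.pYG := by
      rintro rfl
      exact S.X4_pYG 0 h4
    rw [if_neg hD, if_neg hG]
    by_cases h5 : (X (1, 4) : Coord (Fin 5) 2) ∈ Q.I
    · have h6 : Q.I.comap (sg 1) = Q.I := by
        ext x
        rw [Ideal.mem_comap]
        exact sg_mem_iff 1 h5 x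
      have h7 : dval S.pXD.I (Q.I.comap (sg 1)) S.G3 G4 = dval S.pXD.I Q.I S.G3 G4 := by
        simp only [h6]
      rw [h7]
      ring
    · have h8 : ∀ (L : Ideal (Coord (Fin 5) 2)) [L.IsPrime],
          (∀ v : Fin 2 × Fin 5, ((X v : Coord (Fin 5) 2) ∈ L ↔
            (X v : Coord (Fin 5) 2) ∈ Q.I)) → dval S.pXD.I L S.G3 G4 = 0 := by
        intro L _ hL
        unfold dval
        rw [if_neg]
        intro hc
        refine h5 ((hL (1, 4)).mp (S.X14_mem hc.1.le ?_ ((hL (0, 4)).mpr h4)))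
        obtain ⟨j, hj⟩ := hQ0
        exact ⟨j, fun h => hj ((hL (0, j)).mp h)⟩
      rw [h8 Q.I (fun v => Iff.rfl), h8 _ hmem]
  · have h4' : (X (0, 4) : Coord (Fin 5) 2) ∉ Q.I.comap (sg 1) :=
      fun h => h4 ((hmem (0, 4)).mp h)
    have h0' : ∃ j, (X (0, j) : Coord (Fin 5) 2) ∉ Q.I.comap (sg 1) := by
      obtain ⟨j, hj⟩ := hQ0
      exact ⟨j, fun h => hj ((hmem (0, j)).mp h)⟩
    have h1' : ∃ j, (X (1, j) : Coord (Fin 5) 2) ∉ Q.I.comap (sg 1) := by
      obtain ⟨j, hj⟩ := hQ1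
      exact ⟨j, fun h => hj ((hmem (1, j)).mp h)⟩
    rw [S.dval_XD Q.I hQ0 hQ1 h4, S.dval_XD _ h0' h1' h4']
    have e1 : (Q.I = S.pYD.I) ↔ Q = S.pYD := ⟨fun h => Pt.ext' S.V h, fun h => by rw [h]⟩
    have e2 : (Q.I.comap (sg 1) = S.pYD.I) ↔ Q = S.pYG := by
      constructor
      · intro h
        apply Pt.ext'
        rw [pYG_eq, ← h]
        ext x
        rw [Ideal.mem_comap, Ideal.mem_comap, sg_sg]
      · rintro rfl
        rw [pYG_eq]
        ext x
        rw [Ideal.mem_comap, Ideal.mem_comap, sg_sg]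
    simp only [e1, e2]

lemma G3_pXD : S.G3 ∉ S.pXD.I :=
  fun h => S.X3_pXD (S.pXD.prime.mem_of_pow_mem _ h)

lemma G3_pXG : S.G3 ∉ S.pXG.I := by
  rw [← sg_mem_pXD, sg_G3]
  exact S.G3_pXD

lemma G4_pXG : G4 ∉ S.pXG.I := by
  rw [← sg_mem_pXD, sg_G4]
  exact S.X4_pXD

/-- `m` times the difference of the diagonal and the graph over `Y` is zero -/
theorem relX : (S.m : ℤ) • (Finsupp.single S.pYD 1 - Finsupp.single S.pYG 1 : Cycles S.V 2) ∈
    RatZero S.V 2 := by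
  classical
  obtain ⟨c, hc⟩ := exists_isDivisor S.V S.pXD (g := S.G3) (h := G4) S.G3_pXD S.X4_pXD
  obtain ⟨c', hc'⟩ := exists_isDivisor S.V S.pXG (g := S.G3) (h := G4) S.G3_pXG S.G4_pXG
  have h3 : IsWeightedHomogeneous (S.V.mdeg 2) S.G3 (Pi.single 0 S.m) :=
    S.X3_pow_homogeneous 0 S.m
  have h4 : IsWeightedHomogeneous (S.V.mdeg 2) (G4 : Coord (Fin 5) 2) (Pi.single 0 S.m) :=
    S.X4_homogeneous 0
  have m1 : c ∈ RatZero S.V 2 := AddSubgroup.subset_closure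
    ⟨S.pXD, S.G3, G4, _, h3, h4, S.G3_pXD, S.X4_pXD, hc⟩
  have m2 : c' ∈ RatZero S.V 2 := AddSubgroup.subset_closure
    ⟨S.pXG, S.G3, G4, _, h3, h4, S.G3_pXG, S.G4_pXG, hc'⟩
  have h5 : (S.m : ℤ) • (Finsupp.single S.pYD 1 - Finsupp.single S.pYG 1 : Cycles S.V 2) =
      c - c' := by
    ext Q
    rw [Finsupp.sub_apply, isDivisor_apply hc Q, isDivisor_apply hc' Q, S.dval_X Q,
      Finsupp.smul_apply, Finsupp.sub_apply, Finsupp.single_apply, Finsupp.single_apply]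
    have e1 : (S.pYD = Q) ↔ Q = S.pYD := eq_comm
    have e2 : (S.pYG = Q) ↔ Q = S.pYG := eq_comm
    simp only [e1, e2, smul_eq_mul, mul_sub, mul_ite, mul_one, mul_zero]
  rw [h5]
  exact sub_mem m1 m2

/-- the relation of the fibre product -/
theorem relV : S.cV ∈ RatZero S.V 2 :=
  AddSubgroup.subset_closure ⟨S.pV, S.NN, S.DD, _, S.NN_homogeneous, S.DD_homogeneous, S.NN_pV,
    S.DD_pV, S.isDivisor_V⟩

/-- the difference of the two curves over the `k`-th root -/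
noncomputable def zz (k : Fin S.t) : Cycles S.V 1 :=
  Finsupp.single (S.pC k true) 1 - Finsupp.single (S.pC k false) 1

lemma extPow_zz (k : Fin S.t) : extPow S.V (S.zz k) 2 =
    Finsupp.single (S.pCC k true true) 1 - Finsupp.single (S.pCC k true false) 1 -
      Finsupp.single (S.pCC k false true) 1 + Finsupp.single (S.pCC k false false) 1 := by
  rw [zz, extPow_two_single_sub_single S.V (S.pC_ne k), box_pC_eq, box_pC_eq, box_pC_eq, box_pC_eq]

lemma aux_group {G : Type} [AddCommGroup G] (a b c d : G) (n : ℕ) :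
    n • (a - b - c + d) = (n : ℤ) • (a + d - b - c) := by
  rw [natCast_zsmul]
  congr 1
  abel

lemma aux_group2 {G : Type} [AddCommGroup G] (a b : G) (m : ℕ) :
    m • (a - b) = m • a - (m : ℤ) • b := by
  rw [natCast_zsmul, smul_sub]

lemma sum_zz : ∑ k, S.n k • extPow S.V (S.zz k) 2 =
    S.cV - (Finsupp.single S.pYD 1 - Finsupp.single S.pYG 1) := by
  rw [cV, add_sub_cancel_left]
  refine Finset.sum_congr rfl fun k _ => ?_
  rw [extPow_zz]
  exact aux_group _ _ _ _ _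

/-- the main relation -/
theorem main_relation :
    S.m • ∑ k, S.n k • extPow S.V (S.zz k) 2 ∈ RatZero S.V 2 := by
  rw [sum_zz, aux_group2]
  exact sub_mem (nsmul_mem S.relV _) S.relX

end DSData

end Pool.Agent.RCH
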