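import Pool.Agent.RCH.Nil

/-!
# Products of cycles modulo torsion
-/

set_option autoImplicit false

open MvPolynomial

namespace Pool.Agent.RCH

namespace Kc

variable {ι : Type} [Finite ι] {X : WVar ι}

/-- a product with a torsion factor is torsion -/
lemma boxC_of_factor {N : ℕ} (x : Fin N → Cycles X 1) (i : Fin N) (h : x i ∈ torZero X 1) :
    boxC X x ∈ torZero X N := by
  refine boxC_count (n := 1) (x i) ?_ x {i} (by simp) ?_
  · rw [extPow_one]
    exact h
  · intro j hj
    rw [Finset.mem_singleton.1 hj]

/-- a product modulo torsion depends only on the factors modulo torsion -/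
lemma boxC_congr {N : ℕ} (x y : Fin N → Cycles X 1) (h : ∀ i, x i - y i ∈ torZero X 1)
    (hy : boxC X y ∈ torZero X N) : boxC X x ∈ torZero X N := by
  classical
  have h1 : x = y + (x - y) := by
    funext i
    simp
  rw [h1]
  have h2 := (boxM X N).map_add_univ y (x - y)
  rw [boxM_apply] at h2
  rw [h2]
  refine sum_mem fun s _ => ?_
  rw [boxM_apply]
  by_cases hs : s = Finset.univ
  · subst hs
    have h3 : Finset.univ.piecewise y (x - y) = y := Finset.piecewise_univ _ _
    rw [h3]
    exact hy
  · obtain ⟨i, hi⟩ : ∃ i, i ∉ s := by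
      by_contra hne
      push Not at hne
      exact hs (Finset.eq_univ_of_forall hne)
    refine boxC_of_factor _ i ?_
    rw [Finset.piecewise_eq_of_notMem _ _ _ hi]
    exact h i

end Kc

end Pool.Agent.RCH
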