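import Pool.Agent.RCH.DSLG2

/-!
# The primes on the fibre product containing the numerator
-/

set_option autoImplicit false

namespace Pool.Agent.RCH

open MvPolynomial

namespace DSData

variable (S : DSData)

lemma bv_smul' {L : Type} [CommRing L] (φ : Coord (Fin 5) 2 →+* L) (j : Fin 5)
    (hj : j = 1 ∨ j = 2) (h12 : φ (X (0, 1)) * φ (X (1, 2)) = φ (X (0, 2)) * φ (X (1, 1))) {n : ℕ}
    {p : MvPolynomial (Fin 2) ℂ} (hp : p.IsHomogeneous n) :
    φ (X (1, j)) ^ n * bv φ 0 p = φ (X (0, j)) ^ n * bv φ 1 p :=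
  (bv_smul φ j hj h12 hp).symm

/-- the main identity with the two points exchanged -/
theorem main_identity' {L : Type} [CommRing L] (φ : Coord (Fin 5) 2 →+* L) (j : Fin 5)
    (hj : j = 1 ∨ j = 2) (h12 : φ (X (0, 1)) * φ (X (1, 2)) = φ (X (0, 2)) * φ (X (1, 1)))
    (hy : ∀ i : Fin 2, φ (X (i, 4)) ^ 2 = φ (S.uu 2 i) * φ (S.vv 2 i)) :
    φ (X (1, j)) ^ S.m * φ S.NN * φ S.DD =
      -(φ (S.uu 2 0) * φ (S.uu 2 1) * φ (X (0, j)) ^ (S.m - 1) *
        bv φ 1 (S.p * S.q - S.s * S.r) * φ (dl j)) := by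
  have hW : bv φ 1 (S.p * S.q - S.s * S.r) = bv φ 1 S.p * bv φ 1 S.q - bv φ 1 S.s * bv φ 1 S.r := by
    unfold bv
    rw [map_sub, map_mul, map_mul]
  have hp := bv_smul' φ j hj h12 S.hp
  have hs := bv_smul' φ j hj h12 S.hs
  have hr := bv_smul' φ j hj h12 S.hr
  have hq := bv_smul' φ j hj h12 S.hq
  have h0 := hy 0
  have h1 := hy 1
  obtain ⟨m, hm⟩ : ∃ m, S.m = m + 1 := ⟨S.m - 1, by have := S.hm; omega⟩
  rw [hW]
  simp only [NN, DD, dl, map_sub, map_add, map_mul, map_uu, map_vv] at h0 h1 ⊢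
  rw [hm] at hp hs hr hq ⊢
  simp only [Nat.add_sub_cancel] at hp hs hr hq ⊢
  generalize bv φ 0 S.p = p at *
  generalize bv φ 0 S.q = q at *
  generalize bv φ 0 S.r = r at *
  generalize bv φ 0 S.s = s at *
  generalize bv φ 1 S.p = p' at *
  generalize bv φ 1 S.q = q' at *
  generalize bv φ 1 S.r = r' at *
  generalize bv φ 1 S.s = s' at *
  generalize φ (X (0, j)) = x at *
  generalize φ (X (1, j)) = x' at *
  generalize φ (X (0, 4)) = y at *
  generalize φ (X (1, 4)) = y' at *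
  generalize φ (X (0, 0)) = a at *
  generalize φ (X (1, 0)) = a' at *
  have hu : x' ^ (m + 1) * (p * a + s) = x ^ m * (x' * p' * a + x * s') := by
    linear_combination (x' * a) * hp + hs
  have hv : x' ^ (m + 1) * (r * a + q) = x ^ m * (x' * r' * a + x * q') := by
    linear_combination (x' * a) * hr + hq
  have hND : (y * (p' * a' + s') - y' * (p * a + s)) * (y * (p' * a' + s') + y' * (p * a + s)) =
      (p * a + s) * (p' * a' + s') * ((r * a + q) * (p' * a' + s') -
        (r' * a' + q') * (p * a + s)) := by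
    linear_combination (p' * a' + s') ^ 2 * h0 - (p * a + s) ^ 2 * h1
  linear_combination x' ^ (m + 1) * hND +
    ((p * a + s) * (p' * a' + s') * (p' * a' + s')) * hv -
    ((p * a + s) * (p' * a' + s') * (r' * a' + q')) * hu

/-- values of a binary form at zero -/
lemma bv_zero {L : Type} [CommRing L] (φ : Coord (Fin 5) 2 →+* L) (i : Fin 2)
    (h1 : φ (X (i, 1)) = 0) (h2 : φ (X (i, 2)) = 0) {n : ℕ} (hn : n ≠ 0)
    {p : MvPolynomial (Fin 2) ℂ} (hp : p.IsHomogeneous n) : bv φ i p = 0 := by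
  have h := eval₂Hom_smul_of_isHomogeneous (φ.comp C) hp 0
    ![φ (X (i, 1)), φ (X (i, 2))]
  rw [zero_pow hn, zero_mul] at h
  unfold bv
  rw [← h]
  congr 2
  funext j
  fin_cases j
  · simp [h1]
  · simp [h2]

/-- values of a binary form at a scaled point -/
lemma bv_scale {L : Type} [CommRing L] (φ : Coord (Fin 5) 2 →+* L) (c : L)
    (h1 : φ (X (1, 1)) = φ (X (0, 1)) * c) (h2 : φ (X (1, 2)) = φ (X (0, 2)) * c) {n : ℕ}
    {p : MvPolynomial (Fin 2) ℂ} (hp : p.IsHomogeneous n) : bv φ 1 p = c ^ n * bv φ 0 p := by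
  unfold bv
  rw [← eval₂Hom_smul_of_isHomogeneous _ hp]
  congr 2
  funext j
  fin_cases j
  · simpa [mul_comm] using h1
  · simpa [mul_comm] using h2

lemma sgn_injective : Function.Injective sgn := by
  intro a b h
  cases a <;> cases b <;> simp [sgn] at h ⊢ <;> norm_num at h

section Field

variable {K : Type} [Field K] (φ : Coord (Fin 5) 2 →+* K)

/-- a zero of a linear form -/
lemma exists_param (k : Fin S.t) (x₁ x₂ : K) (h : φ (C (S.be k)) * x₁ = φ (C (S.al k)) * x₂) :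
    ∃ w : K, x₁ = φ (C (S.al k)) * w ∧ x₂ = φ (C (S.be k)) * w := by
  by_cases ha : S.al k = 0
  · have hb : S.be k ≠ 0 := (S.hne k).resolve_left (fun h => h ha)
    have hb' : φ (C (S.be k)) ≠ 0 := by
      have : Function.Injective (φ.comp C) := (φ.comp C).injective
      intro h0
      exact hb (this (by simpa using h0))
    rw [ha, map_zero, map_zero, zero_mul] at h
    refine ⟨x₂ / φ (C (S.be k)), ?_, by field_simp⟩
    rw [ha, map_zero, map_zero, zero_mul]
    exact (mul_eq_zero.1 h).resolve_left hb'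
  · have ha' : φ (C (S.al k)) ≠ 0 := by
      have : Function.Injective (φ.comp C) := (φ.comp C).injective
      intro h0
      exact ha (this (by simpa using h0))
    refine ⟨x₁ / φ (C (S.al k)), by field_simp, ?_⟩
    rw [eq_comm, mul_div_assoc', div_eq_iff ha', h]
    ring

/-- the value of a binary form on the line over the `k`-th root -/
lemma bv_param (k : Fin S.t) (i : Fin 2) (w : K) (h1 : φ (X (i, 1)) = φ (C (S.al k)) * w)
    (h2 : φ (X (i, 2)) = φ (C (S.be k)) * w) {n : ℕ}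
    {p : MvPolynomial (Fin 2) ℂ} (hp : p.IsHomogeneous n) :
    bv φ i p = w ^ n * φ (C (eval ![S.al k, S.be k] p)) := by
  have h := eval₂Hom_smul_of_isHomogeneous (φ.comp C) hp w
    ![φ (C (S.al k)), φ (C (S.be k))]
  have h3 : eval₂Hom (φ.comp C) ![φ (C (S.al k)), φ (C (S.be k))] p =
      φ (C (eval ![S.al k, S.be k] p)) := by
    have h4 : eval₂Hom (φ.comp C) ![φ (C (S.al k)), φ (C (S.be k))] =
        ((φ.comp C : ℂ →+* K).comp (eval ![S.al k, S.be k])) := by
      apply MvPolynomial.ringHom_ext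
      · intro a
        simp
      · intro j
        fin_cases j <;> simp
    rw [h4]
    rfl
  rw [← h3, ← h]
  unfold bv
  congr 2
  funext j
  fin_cases j
  · simpa [mul_comm] using h1
  · simpa [mul_comm] using h2

/-- the conclusion when both points lie over the `k`-th root -/
lemma pCC_of_roots (k : Fin S.t) (h3 : ∀ i, φ (X (i, 3)) = 0)
    (hy : ∀ i : Fin 2, φ (X (i, 4)) ^ 2 = φ (S.uu 2 i) * φ (S.vv 2 i))
    (hu : ∀ i, φ (S.uu 2 i) ≠ 0) (hN : φ S.NN = 0)
    (hk : ∀ i : Fin 2, φ (C (S.be k)) * φ (X (i, 1)) = φ (C (S.al k)) * φ (X (i, 2))) :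
    ∃ b, ∀ z ∈ (S.pCC k b b).I, φ z = 0 := by
  have hw : ∀ i : Fin 2, ∃ w : K, φ (X (i, 1)) = φ (C (S.al k)) * w ∧
      φ (X (i, 2)) = φ (C (S.be k)) * w := fun i => S.exists_param φ k _ _ (hk i)
  choose w hw1 hw2 using hw
  have hga : φ (C (S.ga k)) ≠ 0 := by
    intro h0
    have h1 : Function.Injective (φ.comp C) := (φ.comp C).injective
    exact S.hga k (h1 (by simpa using h0))
  -- the value of `v`
  have hv : ∀ i, φ (S.vv 2 i) = φ (C (S.ga k)) ^ 2 * φ (S.uu 2 i) := by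
    intro i
    rw [map_uu, map_vv, S.bv_param φ k i (w i) (hw1 i) (hw2 i) S.hp,
      S.bv_param φ k i (w i) (hw1 i) (hw2 i) S.hs, S.bv_param φ k i (w i) (hw1 i) (hw2 i) S.hr,
      S.bv_param φ k i (w i) (hw1 i) (hw2 i) S.hq, S.hrp, S.hqs]
    simp only [map_mul, map_pow]
    ring
  -- the sign
  have hs : ∀ i, ∃ b, φ (X (i, 4)) = φ (C (sgn b * S.ga k)) * φ (S.uu 2 i) := by
    intro i
    have h1 : φ (X (i, 4)) ^ 2 = (φ (C (S.ga k)) * φ (S.uu 2 i)) ^ 2 := by
      rw [hy i, hv i]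
      ring
    rcases sq_eq_sq_iff_eq_or_eq_neg.1 h1 with h2 | h2
    · exact ⟨true, by rw [h2]; simp [sgn]⟩
    · exact ⟨false, by rw [h2]; simp [sgn]⟩
  choose b hb using hs
  have hbb : b 0 = b 1 := by
    rw [NN, map_sub, map_mul, map_mul, hb 0, hb 1] at hN
    have h1 : (φ (C (sgn (b 0) * S.ga k)) - φ (C (sgn (b 1) * S.ga k))) *
        (φ (S.uu 2 0) * φ (S.uu 2 1)) = 0 := by linear_combination hN
    have h2 := (mul_eq_zero.1 h1).resolve_right (mul_ne_zero (hu 0) (hu 1))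
    have h3 : Function.Injective (φ.comp C) := (φ.comp C).injective
    have h4 : sgn (b 0) * S.ga k = sgn (b 1) * S.ga k := h3 (sub_eq_zero.1 h2)
    exact sgn_injective (mul_right_cancel₀ (S.hga k) h4)
  refine ⟨b 0, fun z hz => ?_⟩
  let g : K4 →+* K := eval₂Hom (φ.comp C) ![φ (X (0, 0)), w 0, φ (X (1, 0)), w 1]
  have gC : ∀ a : ℂ, g (algebraMap ℂ K4 a) = φ (C a) := by
    intro a
    simp [g, MvPolynomial.algebraMap_eq]
  have gX0 : g (X 0) = φ (X (0, 0)) := by simp [g]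
  have gX1 : g (X 1) = w 0 := by simp [g]
  have gX2 : g (X 2) = φ (X (1, 0)) := by simp [g]
  have gX3 : g (X 3) = w 1 := by simp [g]
  have gb : ∀ (p : MvPolynomial (Fin 2) ℂ) (i : Fin 2) (W : K4), g W = w i →
      g (bval (algebraMap ℂ K4 (S.al k) * W) (algebraMap ℂ K4 (S.be k) * W) p) = bv φ i p := by
    intro p i W hW
    have h1 : g.comp (aeval ![algebraMap ℂ K4 (S.al k) * W, algebraMap ℂ K4 (S.be k) * W] :
        MvPolynomial (Fin 2) ℂ →ₐ[ℂ] K4).toRingHom =
        eval₂Hom (φ.comp C) ![φ (X (i, 1)), φ (X (i, 2))] := by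
      apply MvPolynomial.ringHom_ext
      · intro a
        simp only [AlgHom.toRingHom_eq_coe, RingHom.coe_comp, RingHom.coe_coe, Function.comp_apply]
        rw [← MvPolynomial.algebraMap_eq, AlgHom.commutes, gC]
        simp
      · have gC' : ∀ a : ℂ, g (C a) = φ (C a) := gC
        intro j
        fin_cases j
        · simp [gC', hW, hw1]
        · simp [gC', hW, hw2]
    exact congrArg (fun ψ => ψ p) h1
  have gu : ∀ (i : Fin 2) (A W : K4), g A = φ (X (i, 0)) → g W = w i →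
      g (S.uC k A W) = φ (S.uu 2 i) := by
    intro i A W hA hW
    rw [uC, map_add, map_mul, gb _ i W hW, gb _ i W hW, hA, map_uu]
  refine genIdeal_lift S.V (S.ptCC k (sgn (b 0)) (sgn (b 0))) φ g (fun _ => 1) ?_ ?_ hz
  · intro a
    rw [gC]
  · rintro ⟨i, j⟩
    rw [one_pow, mul_one]
    have key : ∀ (i : Fin 2) (A W : K4), g A = φ (X (i, 0)) → g W = w i → ∀ j : Fin 5,
        φ (X (i, j)) = g (S.ptC k (sgn (b i)) A W j) := by
      intro i A W hA hW j
      fin_cases j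
      · exact hA.symm
      · have : S.ptC k (sgn (b i)) A W 1 = algebraMap ℂ K4 (S.al k) * W := rfl
        change φ (X (i, 1)) = g (S.ptC k (sgn (b i)) A W 1)
        rw [this, map_mul, gC, hW, hw1]
      · have : S.ptC k (sgn (b i)) A W 2 = algebraMap ℂ K4 (S.be k) * W := rfl
        change φ (X (i, 2)) = g (S.ptC k (sgn (b i)) A W 2)
        rw [this, map_mul, gC, hW, hw2]
      · exact (h3 i).trans (map_zero g).symm
      · have : S.ptC k (sgn (b i)) A W 4 =
            algebraMap ℂ K4 (sgn (b i) * S.ga k) * S.uC k A W := rfl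
        change φ (X (i, 4)) = g (S.ptC k (sgn (b i)) A W 4)
        rw [this, map_mul, gC, gu i A W hA hW, hb i]
    fin_cases i
    · exact key 0 _ _ gX0 gX1 j
    · have := key 1 _ _ gX2 gX3 j
      rw [← hbb] at this
      exact this

lemma bv_W (i : Fin 2) (h : bv φ i (S.p * S.q - S.s * S.r) = 0) :
    ∃ k, φ (C (S.be k)) * φ (X (i, 1)) = φ (C (S.al k)) * φ (X (i, 2)) := by
  rw [S.hW] at h
  unfold bv at h
  rw [map_mul, map_prod] at h
  have hka : (eval₂Hom (φ.comp C) ![φ (X (i, 1)), φ (X (i, 2))]) (C S.ka) ≠ 0 := by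
    intro h0
    have h1 : Function.Injective (φ.comp C) := (φ.comp C).injective
    exact S.hka (h1 (by simpa using h0))
  have h2 := (mul_eq_zero.1 h).resolve_left hka
  rw [Finset.prod_eq_zero_iff] at h2
  obtain ⟨k, -, hk⟩ := h2
  rw [map_pow] at hk
  have h3 : (eval₂Hom (φ.comp C) ![φ (X (i, 1)), φ (X (i, 2))])
      (C (S.be k) * X 0 - C (S.al k) * X 1) = 0 := by
    by_contra hne
    exact (pow_ne_zero (S.n k) hne) hk
  refine ⟨k, ?_⟩
  rw [← sub_eq_zero]
  simpa using h3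

/-- the classification over a field -/
lemma cl2_field (h3 : ∀ i, φ (X (i, 3)) = 0)
    (h12 : φ (X (0, 1)) * φ (X (1, 2)) = φ (X (0, 2)) * φ (X (1, 1)))
    (hy : ∀ i : Fin 2, φ (X (i, 4)) ^ 2 = φ (S.uu 2 i) * φ (S.vv 2 i))
    (hy0 : ∀ i : Fin 2, φ (X (i, 4)) ≠ 0) (hN : φ S.NN = 0) :
    (∀ z ∈ S.pYD.I, φ z = 0) ∨ ∃ k b, ∀ z ∈ (S.pCC k b b).I, φ z = 0 := by
  have hm := S.hm
  have hu : ∀ i, φ (S.uu 2 i) ≠ 0 := by
    intro i h0
    have h1 := hy i
    rw [h0, zero_mul] at h1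
    exact hy0 i (pow_eq_zero_iff (two_ne_zero) |>.1 h1)
  have hu00 := hu 0
  have hu01 := hu 1
  rw [map_uu] at hu00 hu01
  have hid : ∀ j : Fin 5, (j = 1 ∨ j = 2) →
      φ (X (1, j)) ^ (S.m - 1) * φ S.WW * φ (dl j) = 0 := by
    intro j hj
    have h := S.main_identity φ j hj h12 hy
    rw [hN, mul_zero, zero_mul, eq_comm, neg_eq_zero] at h
    have h' : φ (S.uu 2 0) * φ (S.uu 2 1) *
        (φ (X (1, j)) ^ (S.m - 1) * φ S.WW * φ (dl j)) = 0 := by linear_combination h
    exact (mul_eq_zero.1 h').resolve_left (mul_ne_zero (hu 0) (hu 1))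
  have hid' : ∀ j : Fin 5, (j = 1 ∨ j = 2) →
      φ (X (0, j)) ^ (S.m - 1) * bv φ 1 (S.p * S.q - S.s * S.r) * φ (dl j) = 0 := by
    intro j hj
    have h := S.main_identity' φ j hj h12 hy
    rw [hN, mul_zero, zero_mul, eq_comm, neg_eq_zero] at h
    have h' : φ (S.uu 2 0) * φ (S.uu 2 1) *
        (φ (X (0, j)) ^ (S.m - 1) * bv φ 1 (S.p * S.q - S.s * S.r) * φ (dl j)) = 0 := by
      linear_combination h
    exact (mul_eq_zero.1 h').resolve_left (mul_ne_zero (hu 0) (hu 1))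
  have hWW : φ S.WW = bv φ 0 (S.p * S.q - S.s * S.r) := by
    rw [WW_eq_aeval, map_aeval]
  by_cases hd : φ (dl 1) = 0 ∧ φ (dl 2) = 0
  · left
    obtain ⟨hd1, hd2⟩ := hd
    rw [dl, map_sub, map_mul, map_mul, sub_eq_zero] at hd1 hd2
    have hex : ∃ c : K, φ (X (1, 0)) = φ (X (0, 0)) * c ∧ φ (X (1, 1)) = φ (X (0, 1)) * c ∧
        φ (X (1, 2)) = φ (X (0, 2)) * c := by
      by_cases h1 : φ (X (0, 1)) = 0
      · by_cases h2 : φ (X (0, 2)) = 0
        · have h0 : φ (X (0, 0)) ≠ 0 := by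
            intro h0
            apply hu00
            rw [h0, mul_zero, zero_add, bv_zero φ 0 h1 h2 (by omega) S.hs]
          refine ⟨φ (X (1, 0)) / φ (X (0, 0)), by field_simp, ?_, ?_⟩
          · rw [mul_div_assoc', eq_div_iff h0]
            linear_combination hd1
          · rw [mul_div_assoc', eq_div_iff h0]
            linear_combination hd2
        · refine ⟨φ (X (1, 2)) / φ (X (0, 2)), ?_, ?_, by field_simp⟩
          · rw [mul_div_assoc', eq_div_iff h2]
            linear_combination -hd2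
          · rw [mul_div_assoc', eq_div_iff h2]
            linear_combination -h12
      · refine ⟨φ (X (1, 1)) / φ (X (0, 1)), ?_, by field_simp, ?_⟩
        · rw [mul_div_assoc', eq_div_iff h1]
          linear_combination -hd1
        · rw [mul_div_assoc', eq_div_iff h1]
          linear_combination h12
    obtain ⟨c, hc0, hc1, hc2⟩ := hex
    have hup : φ (S.uu 2 1) = c ^ S.m * φ (S.uu 2 0) := by
      rw [map_uu, map_uu, bv_scale φ c hc1 hc2 S.hp, bv_scale φ c hc1 hc2 S.hs, hc0]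
      obtain ⟨m, hm'⟩ : ∃ m, S.m = m + 1 := ⟨S.m - 1, by omega⟩
      rw [hm', Nat.add_sub_cancel]
      ring
    have hc4 : φ (X (1, 4)) = φ (X (0, 4)) * c ^ S.m := by
      rw [NN, map_sub, map_mul, map_mul, hup] at hN
      apply mul_right_cancel₀ (hu 0)
      linear_combination -hN
    exact fun z hz => S.pYD_lift φ c h3 (hy 0) hc0 hc1 hc2 hc4 hz
  · right
    have hdj : ∃ j : Fin 5, (j = 1 ∨ j = 2) ∧ φ (dl j) ≠ 0 := by
      by_contra hc
      push Not at hc
      exact hd ⟨hc 1 (Or.inl rfl), hc 2 (Or.inr rfl)⟩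
    obtain ⟨j, hj, hdj⟩ := hdj
    suffices hk : ∃ k, ∀ i : Fin 2,
        φ (C (S.be k)) * φ (X (i, 1)) = φ (C (S.al k)) * φ (X (i, 2)) by
      obtain ⟨k, hk⟩ := hk
      obtain ⟨b, hb⟩ := S.pCC_of_roots φ k h3 hy hu hN hk
      exact ⟨k, b, hb⟩
    by_cases hx' : φ (X (1, 1)) = 0 ∧ φ (X (1, 2)) = 0
    · -- the second point has `x_1 = x_2 = 0`
      have hm1 : S.m - 1 = 0 := by
        by_contra hne
        apply hu01
        rw [bv_zero φ 1 hx'.1 hx'.2 hne S.hp, bv_zero φ 1 hx'.1 hx'.2 (by omega) S.hs]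
        ring
      have h := hid j hj
      rw [hm1, pow_zero, one_mul] at h
      have hW := (mul_eq_zero.1 h).resolve_right hdj
      rw [hWW] at hW
      obtain ⟨k, hk⟩ := S.bv_W φ 0 hW
      refine ⟨k, fun i => ?_⟩
      fin_cases i
      · exact hk
      · simp [hx'.1, hx'.2]
    by_cases hx : φ (X (0, 1)) = 0 ∧ φ (X (0, 2)) = 0
    · have hm1 : S.m - 1 = 0 := by
        by_contra hne
        apply hu00
        rw [bv_zero φ 0 hx.1 hx.2 hne S.hp, bv_zero φ 0 hx.1 hx.2 (by omega) S.hs]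
        ring
      have h := hid' j hj
      rw [hm1, pow_zero, one_mul] at h
      have hW := (mul_eq_zero.1 h).resolve_right hdj
      obtain ⟨k, hk⟩ := S.bv_W φ 1 hW
      refine ⟨k, fun i => ?_⟩
      fin_cases i
      · simp [hx.1, hx.2]
      · exact hk
    -- both points have a nonzero coordinate `x_1` or `x_2`
    have hW : φ S.WW = 0 := by
      by_contra hne
      apply hd
      have h1 := hid 1 (Or.inl rfl)
      have h2 := hid 2 (Or.inr rfl)
      have e1 : φ (dl 1) = φ (X (0, 0)) * φ (X (1, 1)) - φ (X (1, 0)) * φ (X (0, 1)) := by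
        rw [dl, map_sub, map_mul, map_mul]
      have e2 : φ (dl 2) = φ (X (0, 0)) * φ (X (1, 2)) - φ (X (1, 0)) * φ (X (0, 2)) := by
        rw [dl, map_sub, map_mul, map_mul]
      by_cases h11 : φ (X (1, 1)) = 0
      · have h12' : φ (X (1, 2)) ≠ 0 := fun h => hx' ⟨h11, h⟩
        have hd2 : φ (dl 2) = 0 :=
          (mul_eq_zero.1 h2).resolve_left (mul_ne_zero (pow_ne_zero _ h12') hne)
        refine ⟨?_, hd2⟩
        apply mul_right_cancel₀ h12'
        rw [zero_mul, e1]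
        rw [e2] at hd2
        linear_combination φ (X (1, 1)) * hd2 - φ (X (1, 0)) * h12
      · have hd1 : φ (dl 1) = 0 :=
          (mul_eq_zero.1 h1).resolve_left (mul_ne_zero (pow_ne_zero _ h11) hne)
        refine ⟨hd1, ?_⟩
        apply mul_right_cancel₀ h11
        rw [zero_mul, e2]
        rw [e1] at hd1
        linear_combination φ (X (1, 2)) * hd1 + φ (X (1, 0)) * h12
    rw [hWW] at hW
    obtain ⟨k, hk⟩ := S.bv_W φ 0 hW
    refine ⟨k, fun i => ?_⟩
    fin_cases i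
    · exact hk
    · change φ (C (S.be k)) * φ (X (1, 1)) = φ (C (S.al k)) * φ (X (1, 2))
      by_cases h01 : φ (X (0, 1)) = 0
      · have h02 : φ (X (0, 2)) ≠ 0 := fun h => hx ⟨h01, h⟩
        apply mul_right_cancel₀ h02
        linear_combination φ (X (1, 2)) * hk - φ (C (S.be k)) * h12
      · apply mul_right_cancel₀ h01
        linear_combination φ (X (1, 1)) * hk - φ (C (S.al k)) * h12

end Field

/-- **Row CL2** -/
lemma cl2 (Q : Ideal (Coord (Fin 5) 2)) [Q.IsPrime] (h : S.pV.I ≤ Q)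
    (h0 : (X (0,4) : Coord (Fin 5) 2) ∉ Q) (h1 : (X (1,4) : Coord (Fin 5) 2) ∉ Q)
    (hN : X (0, 4) * S.uu 2 1 - X (1, 4) * S.uu 2 0 ∈ Q) :
    S.pYD.I ≤ Q ∨ ∃ k b, (S.pCC k b b).I ≤ Q := by
  let K := FractionRing (Coord (Fin 5) 2 ⧸ Q)
  let φ : Coord (Fin 5) 2 →+* K := (algebraMap (Coord (Fin 5) 2 ⧸ Q) K).comp (Ideal.Quotient.mk Q)
  have hφ : ∀ z, φ z = 0 ↔ z ∈ Q := by
    intro z
    rw [RingHom.comp_apply, ← Ideal.Quotient.eq_zero_iff_mem]
    exact (map_eq_zero_iff _ (IsFractionRing.injective (Coord (Fin 5) 2 ⧸ Q) K))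
  have hV : ∀ w ∈ S.pV.I, φ w = 0 := fun w hw => (hφ w).2 (h hw)
  have key := S.cl2_field φ (fun i => hV _ (S.pV_X3 i))
    (by
      have := hV _ S.pV_minor
      rwa [map_sub, map_mul, map_mul, sub_eq_zero] at this)
    (fun i => by
      have := hV _ (S.pV_sq i)
      rwa [map_sub, map_mul, map_pow, sub_eq_zero] at this)
    (fun i => by
      fin_cases i
      · exact fun h => h0 ((hφ _).1 h)
      · exact fun h => h1 ((hφ _).1 h))
    ((hφ _).2 hN)
  rcases key with key | ⟨k, b, key⟩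
  · exact Or.inl fun z hz => (hφ z).1 (key z hz)
  · exact Or.inr ⟨k, b, fun z hz => (hφ z).1 (key z hz)⟩

end DSData

end Pool.Agent.RCH
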