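import Pool.Agent.RCH.Nil

/-!
# Relations between sums of products of two cycles, inside longer products
-/

set_option autoImplicit false

open MvPolynomial

namespace Pool.Agent.RCH

namespace Gd

section

variable {ι : Type} [Finite ι] {X : WVar ι} {κ : Type} [Fintype κ]

/-- the product of a torsion sum of products with any cycle is torsion -/
lemma sum_snoc_mem {N : ℕ} {A : κ → Fin N → Cycles X 1} (hA : ∑ u, boxC X (A u) ∈ torZero X N)
    (b : Cycles X 1) :
    ∑ u, boxC X (Fin.snoc (α := fun _ => Cycles X 1) (A u) b) ∈ torZero X (N + 1) := by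
  classical
  have hup : ∀ (u : κ) (x y : Cycles X 1), (Fin.snoc (α := fun _ => Cycles X 1) (A u) x) =
      Function.update (Fin.snoc (α := fun _ => Cycles X 1) (A u) y) (Fin.last N) x := by
    intro u x y
    funext i
    refine Fin.lastCases ?_ (fun i => ?_) i
    · rw [Fin.snoc_last, Function.update_self]
    · rw [Fin.snoc_castSucc, Function.update_of_ne (Fin.castSucc_lt_last i).ne,
        Fin.snoc_castSucc]
  induction b using Finsupp.induction_linear with
  | zero =>
    have h : ∀ u, boxC X (Fin.snoc (α := fun _ => Cycles X 1) (A u) 0) = 0 := fun u =>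
      (boxM X (N + 1)).map_coord_zero (m := Fin.snoc (α := fun _ => Cycles X 1) (A u) 0)
        (Fin.last N) (Fin.snoc_last _ _)
    rw [Finset.sum_eq_zero fun u _ => h u]
    exact zero_mem _
  | add x y hx hy =>
    have h : ∀ u, boxC X (Fin.snoc (α := fun _ => Cycles X 1) (A u) (x + y)) =
        boxC X (Fin.snoc (α := fun _ => Cycles X 1) (A u) x) +
        boxC X (Fin.snoc (α := fun _ => Cycles X 1) (A u) y) := by
      intro u
      have := (boxM X (N + 1)).map_update_add (Fin.snoc (α := fun _ => Cycles X 1) (A u) 0)
        (Fin.last N) x y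
      rw [← hup, ← hup, ← hup] at this
      exact this
    rw [Finset.sum_congr rfl fun u _ => h u, Finset.sum_add_distrib]
    exact add_mem hx hy
  | single Z n =>
    have h : ∑ u, boxC X (Fin.snoc (α := fun _ => Cycles X 1) (A u) (Finsupp.single Z n)) =
        n • Finsupp.mapDomain (fun P => prodPt X P Z) (∑ u, boxC X (A u)) := by
      rw [Finsupp.mapDomain_finsetSum, Finset.smul_sum]
      exact Finset.sum_congr rfl fun u _ => boxC_snoc_single (A u) Z n
    rw [h]
    exact AddSubgroup.zsmul_mem _ (prod_torZero Z hA) n

/-- the relation in the first two places -/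
lemma sum_prefix {a b : κ → Cycles X 1} (h : ∑ u, boxC X ![a u, b u] ∈ torZero X 2) :
    ∀ (k : ℕ) (x : κ → Fin (2 + k) → Cycles X 1),
      (∀ u (i : Fin 2), x u (Fin.castAdd k i) = (![a u, b u] : Fin 2 → Cycles X 1) i) →
      (∀ u v (i : Fin k), x u (Fin.natAdd 2 i) = x v (Fin.natAdd 2 i)) →
      ∑ u, boxC X (x u) ∈ torZero X (2 + k) := by
  intro k
  induction k with
  | zero =>
    intro x h0 _
    have e : ∀ u, x u = ![a u, b u] := fun u => funext fun i => h0 u i
    rw [Finset.sum_congr rfl fun u _ => by rw [e u]]
    exact h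
  | succ k ih =>
    intro x h0 h1
    rcases isEmpty_or_nonempty κ with hκ | ⟨⟨u₀⟩⟩
    · rw [Finset.univ_eq_empty, Finset.sum_empty]
      exact zero_mem _
    have e : ∀ u, x u = Fin.snoc (α := fun _ => Cycles X 1)
        (fun i : Fin (2 + k) => x u i.castSucc) (x u₀ (Fin.last (2 + k))) := by
      intro u
      have e1 : x u (Fin.last (2 + k)) = x u₀ (Fin.last (2 + k)) := h1 u u₀ (Fin.last k)
      rw [← e1]
      exact (Fin.snoc_init_self (n := 2 + k) (α := fun _ => Cycles X 1) (x u)).symm
    rw [Finset.sum_congr rfl fun u _ => by rw [e u]]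
    exact sum_snoc_mem (ih (fun u i => x u i.castSucc) (fun u i => h0 u i)
      (fun u v i => h1 u v i.castSucc)) _

end

/-- a relation between products of two cycles, put in two places of a product -/
theorem sum_boxC_pair {ι : Type} [Finite ι] {X : WVar ι} {κ : Type} [Fintype κ]
    (a b : κ → Cycles X 1) (h : ∑ u, boxC X ![a u, b u] ∈ torZero X 2) {N : ℕ} {i j : Fin N}
    (hij : i ≠ j) (w : Fin N → Cycles X 1) :
    ∑ u, boxC X (Function.update (Function.update w i (a u)) j (b u)) ∈ torZero X N := by
  classical
  have hN : 2 ≤ N := by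
    by_contra hlt
    apply hij
    apply Fin.ext
    have := i.2
    have := j.2
    omega
  obtain ⟨k, rfl⟩ := Nat.exists_eq_add_of_le hN
  set x : κ → Fin (2 + k) → Cycles X 1 :=
    fun u => Function.update (Function.update w i (a u)) j (b u) with hx
  set p0 : Fin (2 + k) := Fin.castAdd k 0 with hp0
  set p1 : Fin (2 + k) := Fin.castAdd k 1 with hp1
  have hp01 : p0 ≠ p1 := by
    intro h'
    have := congrArg Fin.val h'
    simp [hp0, hp1] at this
  obtain ⟨τ, h0, h1⟩ : ∃ τ : Equiv.Perm (Fin (2 + k)), τ p0 = i ∧ τ p1 = j := by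
    refine ⟨(Equiv.swap p0 i).trans (Equiv.swap ((Equiv.swap p0 i) p1) j), ?_, ?_⟩
    · rw [Equiv.trans_apply, Equiv.swap_apply_left, Equiv.swap_apply_of_ne_of_ne _ hij]
      intro h'
      have := (Equiv.swap p0 i).injective (a₁ := p0) (a₂ := p1)
        (by rw [Equiv.swap_apply_left]; exact h')
      exact hp01 this
    · rw [Equiv.trans_apply, Equiv.swap_apply_left]
  have hy : ∑ u, boxC X (fun m => x u (τ m)) ∈ torZero X (2 + k) := by
    refine sum_prefix h k _ ?_ ?_
    · intro u m
      fin_cases m
      · show x u (τ p0) = a u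
        rw [h0, hx]
        simp only
        rw [Function.update_of_ne hij, Function.update_self]
      · show x u (τ p1) = b u
        rw [h1, hx]
        simp only
        rw [Function.update_self]
    · intro u v m
      have hm : ∀ u, x u (τ (Fin.natAdd 2 m)) = w (τ (Fin.natAdd 2 m)) := by
        intro u
        have hj : τ (Fin.natAdd 2 m) ≠ j := by
          rw [← h1]
          intro h'
          have := congrArg Fin.val (τ.injective h')
          simp [hp1] at this
          omega
        have hi : τ (Fin.natAdd 2 m) ≠ i := by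
          rw [← h0]
          intro h'
          have := congrArg Fin.val (τ.injective h')
          simp [hp0] at this
        rw [hx]
        simp only
        rw [Function.update_of_ne hj, Function.update_of_ne hi]
      rw [hm u, hm v]
  have e : ∑ u, boxC X (fun m => x u (τ m)) =
      Finsupp.mapDomain (trN τ (fun _ => MSym.one X)) (∑ u, boxC X (x u)) := by
    rw [Finsupp.mapDomain_finsetSum]
    exact Finset.sum_congr rfl fun u _ => (boxC_perm τ (x u)).symm
  rw [e, trN_torZero] at hy
  exact hy

end Gd

end Pool.Agent.RCH
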