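import Pool.Agent.RCH.Nil

/-!
# The cycles modulo rational equivalence and torsion embed in a complex vector space
-/

set_option autoImplicit false

open TensorProduct

namespace Pool.Agent.RCH

namespace Gd

variable {ι : Type} (X : WVar ι) (N : ℕ)

lemma eq_zero_of_smul_quotient {n : ℤ} (hn : n ≠ 0) (y : Cycles X N ⧸ torZero X N)
    (h : n • y = 0) : y = 0 := by
  obtain ⟨x, rfl⟩ := QuotientAddGroup.mk_surjective y
  have h1 : ((n • x : Cycles X N) : Cycles X N ⧸ torZero X N) = 0 := h
  rw [QuotientAddGroup.eq_zero_iff] at h1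
  rw [QuotientAddGroup.eq_zero_iff]
  have hk : 1 ≤ n.natAbs := Nat.one_le_iff_ne_zero.2 (Int.natAbs_ne_zero.2 hn)
  refine torZero_of_smul hk ?_
  rcases Int.natAbs_eq n with h2 | h2
  · rw [h2, natCast_zsmul] at h1
    exact h1
  · rw [h2, neg_smul, natCast_zsmul] at h1
    exact neg_mem_iff.1 h1

instance isTorsionFree_quotient : Module.IsTorsionFree ℤ (Cycles X N ⧸ torZero X N) where
  isSMulRegular r hr := by
    intro x y hxy
    have h : r • (x - y) = 0 := by
      rw [zsmul_sub]
      exact sub_eq_zero.2 hxy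
    exact sub_eq_zero.1 (eq_zero_of_smul_quotient X N (IsRegular.ne_zero hr) _ h)

/-- the cycles modulo rational equivalence and torsion embed in a complex vector space -/
theorem exists_hom {ι : Type} (X : WVar ι) (N : ℕ) :
    ∃ (W : Type) (_ : AddCommGroup W) (_ : Module ℂ W) (ψ : Cycles X N →+ W),
      ∀ x, ψ x = 0 ↔ x ∈ torZero X N := by
  refine ⟨ℂ ⊗[ℤ] (Cycles X N ⧸ torZero X N), inferInstance, inferInstance,
    { toFun := fun x => (1 : ℂ) ⊗ₜ[ℤ] (x : Cycles X N ⧸ torZero X N)
      map_zero' := by rw [QuotientAddGroup.mk_zero, tmul_zero]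
      map_add' := fun x y => by rw [QuotientAddGroup.mk_add, tmul_add] }, fun x => ?_⟩
  have hinj : Function.Injective ((Algebra.linearMap ℤ ℂ).rTensor (Cycles X N ⧸ torZero X N)) :=
    Module.Flat.rTensor_preserves_injective_linearMap _ (by
      intro a b h
      exact Int.cast_injective (α := ℂ) (by simpa using h))
  constructor
  · intro h
    have h1 : (Algebra.linearMap ℤ ℂ).rTensor (Cycles X N ⧸ torZero X N)
        ((1 : ℤ) ⊗ₜ[ℤ] (x : Cycles X N ⧸ torZero X N)) = 0 := by
      rw [LinearMap.rTensor_tmul, Algebra.linearMap_apply, map_one]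
      exact h
    have h2 := hinj (h1.trans (map_zero _).symm)
    have h3 : (x : Cycles X N ⧸ torZero X N) = 0 := by
      have h4 := congrArg (TensorProduct.lid ℤ (Cycles X N ⧸ torZero X N)) h2
      rwa [TensorProduct.lid_tmul, one_smul, map_zero] at h4
    rwa [QuotientAddGroup.eq_zero_iff] at h3
  · intro h
    have h3 : (x : Cycles X N ⧸ torZero X N) = 0 := (QuotientAddGroup.eq_zero_iff x).2 h
    change (1 : ℂ) ⊗ₜ[ℤ] (x : Cycles X N ⧸ torZero X N) = 0
    rw [h3, tmul_zero]

end Gd

end Pool.Agent.RCH
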