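import Pool.Agent.RCH.GdAlg
import Pool.Agent.RCH.GdTor
import Pool.Agent.RCH.GdProd

/-!
# Nilpotence of cycles permuted by a dihedral group
-/

set_option autoImplicit false

open MvPolynomial

namespace Pool.Agent.RCH

namespace Gd

section shift

variable {ι : Type} [Finite ι] {X : WVar ι}

/-- a symmetry of the first factor -/
lemma sum_boxC_fst (g : MSym X) {κ : Type} [Fintype κ] {a b a' : κ → Cycles X 1}
    (ha : ∀ u, Finsupp.mapDomain (tr1 g) (a u) = a' u)
    (h : ∑ u, boxC X ![a u, b u] ∈ torZero X 2) : ∑ u, boxC X ![a' u, b u] ∈ torZero X 2 := by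
  have h1 := (trN_torZero (Equiv.refl (Fin 2)) ![g, MSym.one X] _).2 h
  rw [Finsupp.mapDomain_finsetSum] at h1
  refine (congrArg (· ∈ torZero X 2) (Finset.sum_congr rfl fun u _ => ?_)).mp h1
  rw [boxC_trN]
  congr 1
  funext i
  fin_cases i
  · exact ha u
  · have h2 : (tr1 (MSym.one X) : Pt X 1 → Pt X 1) = id := by
      funext Q
      exact tr1_one Q
    show Finsupp.mapDomain (tr1 (MSym.one X)) (b u) = b u
    rw [h2, Finsupp.mapDomain_id]

variable {t : ℕ} [NeZero t] {z : ZMod t → Cycles X 1} {g h : MSym X}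

/-- the relations for the rotations -/
lemma sum_rot (hg : ∀ k, Finsupp.mapDomain (tr1 g) (z k) = z (k + 1))
    (hq : ∑ k, boxC X ![z k, z k] ∈ torZero X 2) (s : ZMod t) :
    ∑ u, boxC X ![z (u + s), z u] ∈ torZero X 2 := by
  have key : ∀ m : ℕ, ∑ u, boxC X ![z (u + (m : ZMod t)), z u] ∈ torZero X 2 := by
    intro m
    induction m with
    | zero =>
      simp only [Nat.cast_zero, add_zero]
      exact hq
    | succ m ih =>
      refine sum_boxC_fst g (fun u => ?_) ih
      rw [hg, Nat.cast_succ, add_assoc]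
  have h1 := key s.val
  rwa [ZMod.natCast_zmod_val] at h1

/-- the relations for the reflections -/
lemma sum_refl (hg : ∀ k, Finsupp.mapDomain (tr1 g) (z k) = z (k + 1))
    (hh : ∀ k, Finsupp.mapDomain (tr1 h) (z k) = z (-k))
    (hq : ∑ k, boxC X ![z k, z k] ∈ torZero X 2) (s : ZMod t) :
    ∑ u, boxC X ![z (s - u), z u] ∈ torZero X 2 := by
  refine sum_boxC_fst h (fun u => ?_) (sum_rot hg hq (-s))
  rw [hh]
  congr 1
  ring

end shift

/-- Cycles `z_k`, `k` modulo the odd number `t`, of sum zero, permuted by two symmetries as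
`z_k ↦ z_(k+1)` and `z_k ↦ z_(-k)`, with `∑ z_k × z_k` torsion: all products of `N` of them are torsion
for `t < 2N`. -/
theorem nil_dihedral {ι : Type} [Finite ι] {X : WVar ι} {t : ℕ} [NeZero t] (ht : Odd t)
    (z : ZMod t → Cycles X 1) (g h : MSym X)
    (hg : ∀ k, Finsupp.mapDomain (tr1 g) (z k) = z (k + 1))
    (hh : ∀ k, Finsupp.mapDomain (tr1 h) (z k) = z (-k)) (hz : ∑ k, z k = 0)
    (hq : ∑ k, boxC X ![z k, z k] ∈ torZero X 2) {N : ℕ} (hN : t < 2 * N)
    (k : Fin N → ZMod t) : boxC X (fun i => z (k i)) ∈ torZero X N := by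
  classical
  obtain ⟨W, _, _, ψ, hψ⟩ := exists_hom X N
  have hup : ∀ (k : Fin N → ZMod t) (i : Fin N) (s : ZMod t),
      (fun l => z (Function.update k i s l)) = Function.update (fun l => z (k l)) i (z s) := by
    intro k i s
    funext l
    by_cases hl : l = i
    · subst hl
      rw [Function.update_self, Function.update_self]
    · rw [Function.update_of_ne hl, Function.update_of_ne hl]
  have hf : (fun k : Fin N → ZMod t => ψ (boxC X (fun i => z (k i)))) = 0 := by
    refine fourier_zero ht hN _ (fun i k => ?_) (fun i j hij k s => ?_) (fun i j hij k s => ?_)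
    · rw [← map_sum]
      have h1 : ∑ s, boxC X (fun l => z (Function.update k i s l)) = 0 := by
        have h2 : ∀ s, boxC X (fun l => z (Function.update k i s l)) =
            boxM X N (Function.update (fun l => z (k l)) i (z s)) := by
          intro s
          rw [hup]
          rfl
        rw [Finset.sum_congr rfl fun s _ => h2 s, ← MultilinearMap.map_update_sum, hz]
        exact (boxM X N).map_coord_zero i (Function.update_self _ _ _)
      rw [h1, map_zero]
    · rw [← map_sum, hψ]
      have h1 := sum_boxC_pair (fun u => z (u + s)) z (sum_rot hg hq s) hij (fun l => z (k l))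
      simp only [hup]
      exact h1
    · rw [← map_sum, hψ]
      have h1 := sum_boxC_pair (fun u => z (s - u)) z (sum_refl hg hh hq s) hij (fun l => z (k l))
      simp only [hup]
      exact h1
  exact (hψ _).1 (congrFun hf k)

end Gd

end Pool.Agent.RCH
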