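import Pool.Agent.RCH.QuadDomain

/-!
# Row SQ: adjoining a square root of a non-square
-/

set_option autoImplicit false

namespace Pool.Agent.RCH

open Polynomial

/-- over an integrally closed domain, `X ^ 2 - f` is prime if `f` is not a square -/
theorem prime_sq_sub_C {A : Type*} [CommRing A] [IsDomain A] [IsIntegrallyClosed A] {f : A}
    (hf : ¬ IsSquare f) : Prime (X ^ 2 - C f : A[X]) := by
  let K := FractionRing A
  refine prime_of_map_irreducible (algebraMap A K) (IsFractionRing.injective A K)
    (monic_X_pow_sub_C _ (by norm_num)) ?_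
  have hmap : (X ^ 2 - C f : A[X]).map (algebraMap A K) = X ^ 2 - C (algebraMap A K f) := by
    rw [Polynomial.map_sub, Polynomial.map_pow, map_X, map_C]
  rw [hmap]
  refine X_pow_sub_C_irreducible_of_prime Nat.prime_two fun r hr => hf ?_
  have hint : IsIntegral A (r ^ 2) := by
    rw [hr]
    exact isIntegral_algebraMap
  obtain ⟨q, rfl⟩ := IsIntegrallyClosed.exists_algebraMap_eq_of_isIntegral_pow
    (by norm_num : 0 < 2) hint
  rw [← map_pow] at hr
  exact ⟨q, by rw [← IsFractionRing.injective A K hr, pow_two]⟩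

/-- adjoining a square root of a non-square to an integrally closed domain (for example to a ring of
polynomials over a field) gives a domain -/
theorem isDomain_adjoinRoot_of_not_isSquare {A : Type*} [CommRing A] [IsDomain A]
    [IsIntegrallyClosed A] {f : A} (hf : ¬ IsSquare f) :
    IsDomain (AdjoinRoot (X ^ 2 - C f : A[X])) :=
  AdjoinRoot.isDomain_of_prime (prime_sq_sub_C hf)

/-- a product of two linear polynomials with non-zero resultant is not a square -/
theorem not_isSquare_mul_linear {A : Type*} [CommRing A] [IsDomain A] {p q r s : A}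
    (h : p * q - r * s ≠ 0) : ¬ IsSquare ((C p * X + C s) * (C r * X + C q) : A[X]) := by
  rintro ⟨g, hg⟩
  have hd : g.natDegree ≤ 1 := by
    by_contra hlt
    have h0 : g ≠ 0 := by
      rintro rfl
      simp at hlt
    have h1 : (g * g).natDegree = g.natDegree + g.natDegree := natDegree_mul h0 h0
    have h2 : ((C p * X + C s) * (C r * X + C q) : A[X]).natDegree ≤ 1 + 1 :=
      natDegree_mul_le_of_le natDegree_linear_le natDegree_linear_le
    rw [hg] at h2
    omega
  obtain ⟨u, v, rfl⟩ := exists_eq_X_add_C_of_natDegree_le_one hd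
  have hexp : (C u * X + C v) * (C u * X + C v)
      = C (u * u) * X ^ 2 + C (2 * u * v) * X + C (v * v) := by
    simp only [map_mul, map_ofNat]
    ring
  have hexp' : (C p * X + C s) * (C r * X + C q)
      = C (p * r) * X ^ 2 + C (p * q + r * s) * X + C (s * q) := by
    simp only [map_mul, map_add]
    ring
  rw [hexp, hexp'] at hg
  have key : ∀ a b c : A, (C a * X ^ 2 + C b * X + C c : A[X]).coeff 2 = a ∧
      (C a * X ^ 2 + C b * X + C c : A[X]).coeff 1 = b ∧
      (C a * X ^ 2 + C b * X + C c : A[X]).coeff 0 = c := by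
    intro a b c
    refine ⟨?_, ?_, ?_⟩
    · simp only [coeff_add, coeff_C_mul, coeff_X_pow, coeff_X, coeff_C]; norm_num
    · simp only [coeff_add, coeff_C_mul, coeff_X_pow, coeff_X, coeff_C]; norm_num
    · simp only [coeff_add, coeff_C_mul, coeff_X_pow, coeff_X, coeff_C]; norm_num
  have h1 := key (u * u) (2 * u * v) (v * v)
  have h2 := key (p * r) (p * q + r * s) (s * q)
  rw [← hg] at h1
  have ha := h2.1.symm.trans h1.1
  have hb := h2.2.1.symm.trans h1.2.1
  have hc := h2.2.2.symm.trans h1.2.2
  apply h
  have : (p * q - r * s) * (p * q - r * s) = 0 := by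
    linear_combination (p * q + r * s + 2 * u * v) * hb - 4 * s * q * ha - 4 * u * u * hc
  exact mul_self_eq_zero.mp this

/-- a polynomial which becomes a product of two linear polynomials with non-zero resultant under a
homomorphism is not a square -/
theorem not_isSquare_of_map {A B : Type*} [CommRing A] [IsDomain A] [CommRing B] (φ : B →+* A[X])
    {f : B} {p q r s : A} (hφ : φ f = (C p * X + C s) * (C r * X + C q))
    (h : p * q - r * s ≠ 0) : ¬ IsSquare f := by
  intro hf
  apply not_isSquare_mul_linear h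
  rw [← hφ]
  exact hf.map φ

/-- the form used for the double cover of the three-space: if `f (x₀, x₁, x₂, 0)` is
`(p x₀ + s) (r x₀ + q)` with `p, q, r, s` in `ℂ[x₁, x₂]` and `p q - r s ≠ 0`, then `f` is not a square -/
theorem not_isSquare_of_plane {f : MvPolynomial (Fin 4) ℂ} {p q r s : MvPolynomial (Fin 2) ℂ}
    (hf : MvPolynomial.aeval (R := ℂ)
      (![X, C (MvPolynomial.X 0), C (MvPolynomial.X 1), 0] : Fin 4 → (MvPolynomial (Fin 2) ℂ)[X]) f =
      (C p * X + C s) * (C r * X + C q))
    (h : p * q - r * s ≠ 0) : ¬ IsSquare f :=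
  not_isSquare_of_map (MvPolynomial.aeval (R := ℂ)
      (![X, C (MvPolynomial.X 0), C (MvPolynomial.X 1), 0] : Fin 4 → (MvPolynomial (Fin 2) ℂ)[X])).toRingHom
    hf h

theorem isDomain_adjoinRoot_of_plane {f : MvPolynomial (Fin 4) ℂ} {p q r s : MvPolynomial (Fin 2) ℂ}
    (hf : MvPolynomial.aeval (R := ℂ)
      (![X, C (MvPolynomial.X 0), C (MvPolynomial.X 1), 0] : Fin 4 → (MvPolynomial (Fin 2) ℂ)[X]) f =
      (C p * X + C s) * (C r * X + C q))
    (h : p * q - r * s ≠ 0) :
    IsDomain (AdjoinRoot (X ^ 2 - C f : (MvPolynomial (Fin 4) ℂ)[X])) :=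
  isDomain_adjoinRoot_of_not_isSquare (not_isSquare_of_plane hf h)

end Pool.Agent.RCH
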