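import Pool.Agent.RCH.DSPts
import Pool.Agent.RCH.Sq

/-!
# The coordinate rings are domains
-/

set_option autoImplicit false

namespace Pool.Agent.RCH

open MvPolynomial

namespace DSData

variable (S : DSData)

instance instDomB2 : IsDomain S.B2 := by
  refine isDomain_QD ?_
  have h : S.g2 S.p * S.g2 S.q - S.g2 S.s * S.g2 S.r = S.g2 (S.p * S.q - S.s * S.r) := by
    simp only [g2, bval_sub, bval_mul]
  rw [h]
  intro h0
  apply S.W_ne_zero
  have h1 : S.g2 (S.p * S.q - S.s * S.r) = S.c1 (aeval ![(X 2 * X 0 : A0), X 2 * X 1]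
      (S.p * S.q - S.s * S.r)) := bval_qC _ _ _ _ _ _ _
  rw [h1] at h0
  have h2 := S.c1_injective (h0.trans (map_zero _).symm)
  have h3 : (aeval ![(X 0 : MvPolynomial (Fin 2) ℂ), X 1, 1] : A0 →ₐ[ℂ] _).comp
      (aeval ![(X 2 * X 0 : A0), X 2 * X 1]) = AlgHom.id ℂ (MvPolynomial (Fin 2) ℂ) := by
    ext j
    fin_cases j <;> simp
  have h4 := congrArg (fun ψ => ψ (S.p * S.q - S.s * S.r)) h3
  simp only [AlgHom.comp_apply, AlgHom.id_apply] at h4
  rw [← h4, h2, map_zero]

instance instDomRX : IsDomain S.RX := by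
  refine isDomain_adjoinRoot_of_plane (p := S.p) (q := S.q) (r := S.r) (s := S.s) ?_
    (by
      have := S.W_ne_zero
      intro h
      apply this
      rw [← h]
      ring)
  rw [aeval_branch]
  have h1 : ∀ p : MvPolynomial (Fin 2) ℂ,
      bval (Polynomial.C (X 0) : Polynomial (MvPolynomial (Fin 2) ℂ)) (Polynomial.C (X 1)) p =
        Polynomial.C p := by
    intro p
    have h2 : (aeval ![(Polynomial.C (X 0) : Polynomial (MvPolynomial (Fin 2) ℂ)),
        Polynomial.C (X 1)] : MvPolynomial (Fin 2) ℂ →ₐ[ℂ] _).toRingHom = Polynomial.C := by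
      apply MvPolynomial.ringHom_ext
      · intro a
        simp
      · intro j
        fin_cases j <;> simp
    exact congrArg (fun ψ => ψ p) h2
  have e0 : (![Polynomial.X, Polynomial.C (X 0), Polynomial.C (X 1), 0] :
      Fin 4 → Polynomial (MvPolynomial (Fin 2) ℂ)) 0 = Polynomial.X := rfl
  have e1 : (![Polynomial.X, Polynomial.C (X 0), Polynomial.C (X 1), 0] :
      Fin 4 → Polynomial (MvPolynomial (Fin 2) ℂ)) 1 = Polynomial.C (X 0) := rfl
  have e2 : (![Polynomial.X, Polynomial.C (X 0), Polynomial.C (X 1), 0] :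
      Fin 4 → Polynomial (MvPolynomial (Fin 2) ℂ)) 2 = Polynomial.C (X 1) := rfl
  have e3 : (![Polynomial.X, Polynomial.C (X 0), Polynomial.C (X 1), 0] :
      Fin 4 → Polynomial (MvPolynomial (Fin 2) ℂ)) 3 = 0 := rfl
  rw [e0, e1, e2, e3, h1, h1, h1, h1, zero_mul, add_zero]

end DSData

end Pool.Agent.RCH
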