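import Mathlib

/-!
# Row HOMG: homogeneous polynomials and rescaled values
-/

set_option autoImplicit false

namespace Pool.Agent.RCH

open MvPolynomial

/-- the value of a weighted homogeneous polynomial at a rescaled point (ring hom form) -/
theorem eval₂_smul_of_isWeightedHomogeneous {σ R L : Type*} [CommSemiring R] [CommSemiring L]
    (φ : R →+* L) (w : σ → ℕ) {n : ℕ} {f : MvPolynomial σ R} (hf : f.IsWeightedHomogeneous w n)
    (c : L) (d : σ → L) :
    eval₂ φ (fun i => c ^ w i * d i) f = c ^ n * eval₂ φ d f := by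
  classical
  rw [eval₂_eq, eval₂_eq, Finset.mul_sum]
  refine Finset.sum_congr rfl fun m hm => ?_
  have hw : Finsupp.weight w m = n := hf (mem_support_iff.mp hm)
  have h1 : ∏ i ∈ m.support, (c ^ w i * d i) ^ m i = c ^ n * ∏ i ∈ m.support, d i ^ m i := by
    rw [Finset.prod_congr rfl (fun i _ => mul_pow (c ^ w i) (d i) (m i)), Finset.prod_mul_distrib]
    congr 1
    rw [Finset.prod_congr rfl (fun i _ => (pow_mul c (w i) (m i)).symm), Finset.prod_pow_eq_pow_sum,
      ← hw, Finsupp.weight_apply, Finsupp.sum]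
    congr 1
    exact Finset.sum_congr rfl fun i _ => by rw [smul_eq_mul, mul_comm]
  rw [h1]
  ring

theorem eval₂Hom_smul_of_isWeightedHomogeneous {σ R L : Type*} [CommSemiring R] [CommSemiring L]
    (φ : R →+* L) (w : σ → ℕ) {n : ℕ} {f : MvPolynomial σ R} (hf : f.IsWeightedHomogeneous w n)
    (c : L) (d : σ → L) :
    eval₂Hom φ (fun i => c ^ w i * d i) f = c ^ n * eval₂Hom φ d f :=
  eval₂_smul_of_isWeightedHomogeneous φ w hf c d

theorem aeval_smul_of_isWeightedHomogeneous {σ R D : Type*} [CommSemiring R] [CommSemiring D] [Algebra R D]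
    (w : σ → ℕ) {n : ℕ} {f : MvPolynomial σ R} (hf : f.IsWeightedHomogeneous w n)
    (c : D) (d : σ → D) :
    aeval (fun i => c ^ w i * d i) f = c ^ n * aeval d f :=
  eval₂_smul_of_isWeightedHomogeneous (algebraMap R D) w hf c d

theorem eval₂Hom_smul_of_isHomogeneous {σ R L : Type*} [CommSemiring R] [CommSemiring L]
    (φ : R →+* L) {n : ℕ} {f : MvPolynomial σ R} (hf : f.IsHomogeneous n)
    (c : L) (d : σ → L) :
    eval₂Hom φ (fun i => c * d i) f = c ^ n * eval₂Hom φ d f := by
  have := eval₂Hom_smul_of_isWeightedHomogeneous φ (1 : σ → ℕ) hf c d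
  simpa using this

theorem aeval_smul_of_isHomogeneous {σ R D : Type*} [CommSemiring R] [CommSemiring D] [Algebra R D]
    {n : ℕ} {f : MvPolynomial σ R} (hf : f.IsHomogeneous n) (c : D) (d : σ → D) :
    aeval (fun i => c * d i) f = c ^ n * aeval d f := by
  have := aeval_smul_of_isWeightedHomogeneous (1 : σ → ℕ) hf c d
  simpa using this

/-- weights in several directions at once: `c ^ e` is the product of the powers -/
theorem aeval_smul_of_isWeightedHomogeneous_pi {σ R D κ : Type*} [CommSemiring R] [CommSemiring D]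
    [Algebra R D] [Fintype κ] (w : σ → κ → ℕ) {e : κ → ℕ} {f : MvPolynomial σ R}
    (hf : f.IsWeightedHomogeneous w e) (c : κ → D) (d : σ → D) :
    aeval (fun i => (∏ k, c k ^ w i k) * d i) f = (∏ k, c k ^ e k) * aeval d f := by
  classical
  simp only [aeval_def, eval₂_eq]
  rw [Finset.mul_sum]
  refine Finset.sum_congr rfl fun m hm => ?_
  have hw : Finsupp.weight w m = e := hf (mem_support_iff.mp hm)
  have h1 : ∏ i ∈ m.support, ((∏ k, c k ^ w i k) * d i) ^ m i =
      (∏ k, c k ^ e k) * ∏ i ∈ m.support, d i ^ m i := by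
    rw [Finset.prod_congr rfl (fun i _ => mul_pow (∏ k, c k ^ w i k) (d i) (m i)), Finset.prod_mul_distrib]
    congr 1
    rw [Finset.prod_congr rfl (fun i _ => (Finset.prod_pow _ (m i) (fun k => c k ^ w i k)).symm), Finset.prod_comm]
    refine Finset.prod_congr rfl fun k _ => ?_
    rw [Finset.prod_congr rfl (fun i _ => (pow_mul (c k) (w i k) (m i)).symm), Finset.prod_pow_eq_pow_sum,
      ← hw, Finsupp.weight_apply, Finsupp.sum, Finset.sum_apply]
    congr 1
    exact Finset.sum_congr rfl fun i _ => by rw [Pi.smul_apply, smul_eq_mul, mul_comm]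
  rw [h1]
  ring

end Pool.Agent.RCH
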