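import Pool.Agent.RCH.KpSmooth

/-!
# The example: a smooth hypersurface with a dihedral group of symmetries
-/

set_option autoImplicit false

open MvPolynomial

namespace Pool.Agent.RCH

namespace Gd

/-- The polynomial of degree `2p + 1`
`∑_(i < r) (x_(2i) x_(2i+1) ^ (2p) + x_(2i+1) x_(2i+2) ^ (2p)) + x_(2r) x_(2r+1) ^ (2p) +
x_(2r+1) (x_(2r+2) x_(2r+3)) ^ p + x_(2r+3) ^ (2p+1) - x_(2r+2) ^ (2p+1) +
x_(2r+4) (x_0 ^ (2p) + x_(2r+4) ^ (2p))`, written as a member of the family. -/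
noncomputable def exPoly (r p : ℕ) (ζ : ℂ) : MvPolynomial (Fin (2 * r + 5)) ℂ :=
  Kp.planesPoly r (2 * p) (fun k : Fin (2 * p + 1) => ζ ^ (k : ℕ)) (fun _ => 1)
    (fun i => if i < r then MvPolynomial.X (Kp.cx r (2 * i + 2)) ^ (2 * p) else
      (MvPolynomial.X (Kp.cx r (2 * r + 2)) * MvPolynomial.X (Kp.cx r (2 * r + 3))) ^ p)
    (MvPolynomial.X (Kp.cx r 0) ^ (2 * p) + MvPolynomial.X (Kp.cx r (2 * r + 4)) ^ (2 * p))

/-- the product of the linear forms with the `n`-th roots of unity -/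
lemma prod_roots {R : Type} [CommRing R] [IsDomain R] {n : ℕ} (hn : 0 < n) {ζ : R}
    (hζ : IsPrimitiveRoot ζ n) (x y : R) : ∏ k : Fin n, (x - ζ ^ (k : ℕ) * y) = x ^ n - y ^ n := by
  classical
  rw [hζ.pow_sub_pow_eq_prod_sub_mul x y hn]
  have h : Polynomial.nthRootsFinset n (1 : R) =
      Finset.image (fun k : Fin n => ζ ^ (k : ℕ)) Finset.univ := by
    ext z
    rw [Polynomial.mem_nthRootsFinset hn, Finset.mem_image]
    have : NeZero n := ⟨hn.ne'⟩
    constructor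
    · intro hz
      obtain ⟨i, hi, rfl⟩ := hζ.eq_pow_of_pow_eq_one hz
      exact ⟨⟨i, hi⟩, Finset.mem_univ _, rfl⟩
    · rintro ⟨k, -, rfl⟩
      rw [← pow_mul, mul_comm, pow_mul, hζ.pow_eq_one, one_pow]
  rw [h, Finset.prod_image]
  intro i _ j _ hij
  exact Fin.ext (hζ.pow_inj i.2 j.2 hij)

/-- G-EX1: the product -/
lemma ex_prod (r p : ℕ) {ζ : ℂ} (hζ : IsPrimitiveRoot ζ (2 * p + 1)) :
    ∏ k : Fin (2 * p + 1), (MvPolynomial.X (Kp.cx r (2 * r + 3)) -
      C (ζ ^ (k : ℕ)) * MvPolynomial.X (Kp.cx r (2 * r + 2)) : MvPolynomial (Fin (2 * r + 5)) ℂ) ^ 1 =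
    MvPolynomial.X (Kp.cx r (2 * r + 3)) ^ (2 * p + 1) -
      MvPolynomial.X (Kp.cx r (2 * r + 2)) ^ (2 * p + 1) := by
  have h := prod_roots (n := 2 * p + 1) (by omega)
    (hζ.map_of_injective (C_injective (Fin (2 * r + 5)) ℂ))
    (MvPolynomial.X (Kp.cx r (2 * r + 3))) (MvPolynomial.X (Kp.cx r (2 * r + 2)))
  rw [← h]
  refine Finset.prod_congr rfl fun k _ => ?_
  rw [pow_one, map_pow]

/-- the example, written as a chain -/
lemma ex_form (r p : ℕ) {ζ : ℂ} (hζ : IsPrimitiveRoot ζ (2 * p + 1)) : exPoly r p ζ =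
    ∑ j ∈ Finset.range (2 * r + 1),
        MvPolynomial.X (Kp.cx r j) * MvPolynomial.X (Kp.cx r (j + 1)) ^ (2 * p) +
      MvPolynomial.X (Kp.cx r (2 * r + 1)) *
        (MvPolynomial.X (Kp.cx r (2 * r + 2)) * MvPolynomial.X (Kp.cx r (2 * r + 3))) ^ p +
      (MvPolynomial.X (Kp.cx r (2 * r + 3)) ^ (2 * p + 1) -
        MvPolynomial.X (Kp.cx r (2 * r + 2)) ^ (2 * p + 1)) +
      MvPolynomial.X (Kp.cx r (2 * r + 4)) *
        (MvPolynomial.X (Kp.cx r 0) ^ (2 * p) +
          MvPolynomial.X (Kp.cx r (2 * r + 4)) ^ (2 * p)) := by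
  rw [exPoly, Kp.planesPoly, ex_prod r p hζ, Finset.sum_range_succ, if_neg (lt_irrefl r),
    Finset.sum_range_succ, ← Kp.smooth_sum_pairs]
  congr 2
  rw [← add_assoc]
  congr 2
  refine Finset.sum_congr rfl fun i hi => ?_
  rw [if_pos (Finset.mem_range.1 hi)]

/-- the derivative of the example -/
lemma ex_pd (r q : ℕ) {ζ : ℂ} (hζ : IsPrimitiveRoot ζ (2 * (q + 1) + 1))
    (v : Fin (2 * r + 5) → ℂ) (l : Fin (2 * r + 5)) :
    eval v (pderiv l (exPoly r (q + 1) ζ)) =
    ∑ j ∈ Finset.range (2 * r + 1),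
        ((if Kp.cx r j = l then v (Kp.cx r (j + 1)) ^ (2 * (q + 1)) else 0) +
          (if Kp.cx r (j + 1) = l then
            (2 * (q + 1)) * v (Kp.cx r j) * v (Kp.cx r (j + 1)) ^ (2 * q + 1) else 0)) +
      ((if Kp.cx r (2 * r + 1) = l then
          (v (Kp.cx r (2 * r + 2)) * v (Kp.cx r (2 * r + 3))) ^ (q + 1) else 0) +
        (if Kp.cx r (2 * r + 2) = l then (q + 1) * v (Kp.cx r (2 * r + 1)) *
            (v (Kp.cx r (2 * r + 2)) * v (Kp.cx r (2 * r + 3))) ^ q * v (Kp.cx r (2 * r + 3)) -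
          (2 * (q + 1) + 1) * v (Kp.cx r (2 * r + 2)) ^ (2 * (q + 1)) else 0) +
        (if Kp.cx r (2 * r + 3) = l then (q + 1) * v (Kp.cx r (2 * r + 1)) *
            (v (Kp.cx r (2 * r + 2)) * v (Kp.cx r (2 * r + 3))) ^ q * v (Kp.cx r (2 * r + 2)) +
          (2 * (q + 1) + 1) * v (Kp.cx r (2 * r + 3)) ^ (2 * (q + 1)) else 0)) +
      ((if Kp.cx r (2 * r + 4) = l then v (Kp.cx r 0) ^ (2 * (q + 1)) +
          (2 * (q + 1) + 1) * v (Kp.cx r (2 * r + 4)) ^ (2 * (q + 1)) else 0) +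
        (if Kp.cx r 0 = l then
          (2 * (q + 1)) * v (Kp.cx r (2 * r + 4)) * v (Kp.cx r 0) ^ (2 * q + 1) else 0)) := by
  have hd : ∀ j : Fin (2 * r + 5), pderiv l (MvPolynomial.X j : MvPolynomial (Fin (2 * r + 5)) ℂ) =
      if j = l then 1 else 0 := by
    intro j
    rw [pderiv_X, Pi.single_apply]
  have e1 : 2 * (q + 1) - 1 = 2 * q + 1 := by omega
  rw [ex_form r (q + 1) hζ]
  simp only [map_add, map_sum, map_sub, Derivation.leibniz, Derivation.leibniz_pow, hd,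
    smul_eq_mul, map_mul, eval_X, map_pow, apply_ite (eval v), map_one, map_zero, nsmul_eq_mul,
    map_natCast, Nat.add_sub_cancel, e1]
  congr 1
  · rw [add_assoc]
    congr 1
    · refine Finset.sum_congr rfl fun j _ => ?_
      split_ifs <;> push_cast <;> ring
    · split_ifs <;> push_cast <;> ring
  · split_ifs <;> push_cast <;> ring

/-- the equations for the partial derivatives have only the trivial solution -/
lemma ex_core (M q : ℕ) (x : ℕ → ℂ) (u v w : ℂ)
    (hw : x 0 ^ (2 * (q + 1)) + (2 * (q + 1) + 1) * w ^ (2 * (q + 1)) = 0)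
    (h0 : x 1 ^ (2 * (q + 1)) + (2 * (q + 1)) * w * x 0 ^ (2 * q + 1) = 0)
    (hj : ∀ j, j < M → (2 * (q + 1)) * x j * x (j + 1) ^ (2 * q + 1) +
      x (j + 2) ^ (2 * (q + 1)) = 0)
    (hs : (2 * (q + 1)) * x M * x (M + 1) ^ (2 * q + 1) + (u * v) ^ (q + 1) = 0)
    (hu : (q + 1) * x (M + 1) * (u * v) ^ q * v - (2 * (q + 1) + 1) * u ^ (2 * (q + 1)) = 0)
    (hv : (q + 1) * x (M + 1) * (u * v) ^ q * u + (2 * (q + 1) + 1) * v ^ (2 * (q + 1)) = 0) :
    (∀ j, j ≤ M + 1 → x j = 0) ∧ u = 0 ∧ v = 0 ∧ w = 0 := by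
  have hc : (2 * ((q : ℂ) + 1) + 1) ≠ 0 := by
    have h : (2 * ((q : ℂ) + 1) + 1) = ((2 * (q + 1) + 1 : ℕ) : ℂ) := by push_cast; ring
    rw [h]
    exact Nat.cast_ne_zero.2 (by omega)
  by_cases hx : x 0 = 0
  · have hw0 : w = 0 := by
      rw [hx, zero_pow (by omega), zero_add] at hw
      exact pow_eq_zero_iff (by omega) |>.1 ((mul_eq_zero.1 hw).resolve_left hc)
    have hx1 : x 1 = 0 := by
      rw [hw0, mul_zero, zero_mul, add_zero] at h0
      exact pow_eq_zero_iff (by omega) |>.1 h0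
    have hall : ∀ j, j ≤ M → x j = 0 ∧ x (j + 1) = 0 := by
      intro j
      induction j with
      | zero => exact fun _ => ⟨hx, hx1⟩
      | succ j ih =>
        intro hjM
        have h1 := ih (by omega)
        refine ⟨h1.2, ?_⟩
        have h2 := hj j (by omega)
        rw [h1.1, mul_zero, zero_mul, zero_add] at h2
        exact pow_eq_zero_iff (by omega) |>.1 h2
    have hM := hall M le_rfl
    rw [hM.2, mul_zero, zero_mul, zero_mul, zero_sub, neg_eq_zero] at hu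
    rw [hM.2, mul_zero, zero_mul, zero_mul, zero_add] at hv
    refine ⟨fun j hjM => ?_, pow_eq_zero_iff (by omega) |>.1 ((mul_eq_zero.1 hu).resolve_left hc),
      pow_eq_zero_iff (by omega) |>.1 ((mul_eq_zero.1 hv).resolve_left hc), hw0⟩
    rcases Nat.lt_or_ge M j with h | h
    · rw [show j = M + 1 from by omega]
      exact hM.2
    · exact (hall j h).1
  · exfalso
    obtain ⟨s, hs2⟩ : ∃ s : ℂ, s ^ 2 = u * v := IsAlgClosed.exists_pow_nat_eq (u * v) two_pos
    have hsn : s ^ (2 * (q + 1)) = (u * v) ^ (q + 1) := by rw [pow_mul, hs2]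
    set y : ℕ → ℂ := fun j => if j ≤ M + 1 then x j else s with hy
    have hyj : ∀ j, j ≤ M + 1 → y j = x j := fun j hjM => if_pos hjM
    have hys : y (M + 2) = s := if_neg (by omega)
    have hcc : (((2 * q + 1 : ℕ) : ℂ) + 1) = 2 * (q + 1) := by push_cast; ring
    have hcc2 : (((2 * q + 1 : ℕ) : ℂ) + 2) = 2 * (q + 1) + 1 := by push_cast; ring
    have hN := Kp.smooth_norms (p := 2 * q + 1) (by omega) (M + 1) y w
      (by rw [hyj 0 (by omega), hcc2]; exact hw)
      (by rw [hyj 0 (by omega), hyj 1 (by omega), hcc]; exact h0)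
      (fun j hjM => by
        rw [hyj j (by omega), hyj (j + 1) (by omega), hcc]
        rcases Nat.lt_or_ge j M with h | h
        · rw [hyj (j + 2) (by omega)]
          exact hj j h
        · have hjM2 : j = M := by omega
          subst hjM2
          rw [hys]
          show 2 * ((q : ℂ) + 1) * x j * x (j + 1) ^ (2 * q + 1) + s ^ (2 * (q + 1)) = 0
          rw [hsn]
          exact hs)
      (by rw [hyj 0 (by omega)]; exact hx) (M + 1) le_rfl
    rw [hyj (M + 1) le_rfl, hys] at hN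
    obtain ⟨hN1, hN2, -⟩ := hN
    have hs0 : 0 < ‖s‖ := hN1.trans_le hN2
    have huv : ‖u‖ * ‖v‖ = ‖s‖ ^ 2 := by rw [← norm_mul, ← hs2, norm_pow]
    have hcq : ‖((q : ℂ) + 1)‖ = (q : ℝ) + 1 := by
      have h : ((q : ℂ) + 1) = ((q + 1 : ℕ) : ℂ) := by push_cast; ring
      rw [h, Complex.norm_natCast]
      push_cast
      ring
    have hcn : ‖(2 * ((q : ℂ) + 1) + 1)‖ = 2 * ((q : ℝ) + 1) + 1 := by
      have h : (2 * ((q : ℂ) + 1) + 1) = ((2 * (q + 1) + 1 : ℕ) : ℂ) := by push_cast; ring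
      rw [h, Complex.norm_natCast]
      push_cast
      ring
    have hu' := congrArg norm (sub_eq_zero.1 hu)
    have hv' := congrArg norm (eq_neg_of_add_eq_zero_left hv)
    rw [norm_neg] at hv'
    simp only [norm_mul, norm_pow, hcq, hcn] at hu' hv'
    have hu0 : 0 < ‖u‖ := by
      rcases (norm_nonneg u).eq_or_lt with h | h
      · rw [← h, zero_mul] at huv
        exact absurd huv.symm (pow_pos hs0 2).ne'
      · exact h
    have hv0 : 0 < ‖v‖ := by
      rcases (norm_nonneg v).eq_or_lt with h | h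
      · rw [← h, mul_zero] at huv
        exact absurd huv.symm (pow_pos hs0 2).ne'
      · exact h
    have huv1 : ‖u‖ ^ (2 * (q + 1) + 1) = ‖v‖ ^ (2 * (q + 1) + 1) := by
      have e1 : (2 * ((q : ℝ) + 1) + 1) * ‖u‖ ^ (2 * (q + 1) + 1) =
          (2 * ((q : ℝ) + 1) + 1) * ‖v‖ ^ (2 * (q + 1) + 1) := by
        rw [pow_succ, pow_succ]
        linear_combination (-‖u‖) * hu' + ‖v‖ * hv'
      have hpos : (0 : ℝ) < 2 * ((q : ℝ) + 1) + 1 := by positivity
      exact mul_left_cancel₀ hpos.ne' e1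
    have huv2 : ‖u‖ = ‖v‖ := (pow_left_inj₀ hu0.le hv0.le (by omega)).1 huv1
    have hus : ‖u‖ = ‖s‖ := by
      rw [← huv2, ← pow_two] at huv
      exact (pow_left_inj₀ hu0.le hs0.le (by omega)).1 huv
    rw [← huv2, hus] at hu'
    have h3 : ((q : ℝ) + 1) * ‖x (M + 1)‖ = (2 * ((q : ℝ) + 1) + 1) * ‖s‖ := by
      have e2 : (((q : ℝ) + 1) * ‖x (M + 1)‖) * ‖s‖ ^ (2 * q + 1) =
          ((2 * ((q : ℝ) + 1) + 1) * ‖s‖) * ‖s‖ ^ (2 * q + 1) := by
        have e3 : (‖s‖ * ‖s‖) ^ q * ‖s‖ = ‖s‖ ^ (2 * q + 1) := by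
          rw [← pow_two, ← pow_mul, pow_succ]
        have e4 : ‖s‖ ^ (2 * (q + 1)) = ‖s‖ * ‖s‖ ^ (2 * q + 1) := by
          rw [show 2 * (q + 1) = (2 * q + 1) + 1 from by ring, pow_succ]
          ring
        rw [e4] at hu'
        rw [← e3] at hu' ⊢
        linear_combination hu'
      exact mul_right_cancel₀ (pow_pos hs0 _).ne' e2
    have h4 : ((q : ℝ) + 1) * ‖x (M + 1)‖ ≤ ((q : ℝ) + 1) * ‖s‖ :=
      mul_le_mul_of_nonneg_left hN2 (by positivity)
    nlinarith [mul_pos (show (0 : ℝ) < (q : ℝ) + 1 by positivity) hs0]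

/-- G-EX2: the example is smooth -/
theorem ex_smooth (r : ℕ) {p : ℕ} (hp : 1 ≤ p) {ζ : ℂ} (hζ : IsPrimitiveRoot ζ (2 * p + 1))
    (v : Fin (2 * r + 5) → ℂ) (h : ∀ j, eval v (pderiv j (exPoly r p ζ)) = 0) : v = 0 := by
  obtain ⟨q, rfl⟩ : ∃ q, p = q + 1 := ⟨p - 1, by omega⟩
  have h2 := fun j => (ex_pd r q hζ v j).symm.trans (h j)
  have hne : ∀ {j l : ℕ}, j < 2 * r + 5 → l < 2 * r + 5 → (Kp.cx r j = Kp.cx r l ↔ j = l) := by
    intro j l hj hl
    rw [Kp.eq_cx r hl, Kp.cx_val r hj]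
  -- the two sums
  have hs1 : ∀ l, l < 2 * r + 5 → ∑ j ∈ Finset.range (2 * r + 1),
      (if Kp.cx r j = Kp.cx r l then v (Kp.cx r (j + 1)) ^ (2 * (q + 1)) else 0) =
      if l < 2 * r + 1 then v (Kp.cx r (l + 1)) ^ (2 * (q + 1)) else 0 := by
    intro l hl
    rw [Finset.sum_congr rfl (g := fun j => if l = j then v (Kp.cx r (j + 1)) ^ (2 * (q + 1))
      else 0)
      (fun j hj => by
        rw [Finset.mem_range] at hj
        exact if_congr ((hne (by omega) hl).trans eq_comm) rfl rfl), Finset.sum_ite_eq]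
    exact if_congr (by rw [Finset.mem_range]) rfl rfl
  have hs2 : ∀ l, l < 2 * r + 5 → ∑ j ∈ Finset.range (2 * r + 1),
      (if Kp.cx r (j + 1) = Kp.cx r l then
        (2 * (q + 1)) * v (Kp.cx r j) * v (Kp.cx r (j + 1)) ^ (2 * q + 1) else 0) =
      if 1 ≤ l ∧ l ≤ 2 * r + 1 then
        (2 * (q + 1)) * v (Kp.cx r (l - 1)) * v (Kp.cx r l) ^ (2 * q + 1) else 0 := by
    intro l hl
    by_cases h1 : 1 ≤ l
    · obtain ⟨l, rfl⟩ : ∃ k, l = k + 1 := ⟨l - 1, by omega⟩
      rw [Finset.sum_congr rfl (g := fun j => if l = j then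
        (2 * (q + 1)) * v (Kp.cx r j) * v (Kp.cx r (j + 1)) ^ (2 * q + 1) else 0)
        (fun j hj => by
          rw [Finset.mem_range] at hj
          exact if_congr ((hne (by omega) hl).trans (by omega)) rfl rfl), Finset.sum_ite_eq,
        Nat.add_sub_cancel]
      exact if_congr (by rw [Finset.mem_range]; omega) rfl rfl
    · rw [if_neg (by omega)]
      refine Finset.sum_eq_zero fun j hj => ?_
      rw [Finset.mem_range] at hj
      exact if_neg (by rw [hne (by omega) hl]; omega)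
  simp only [Finset.sum_add_distrib] at h2
  have h3 : ∀ l, l < 2 * r + 5 →
      ((if l < 2 * r + 1 then v (Kp.cx r (l + 1)) ^ (2 * (q + 1)) else 0) +
        (if 1 ≤ l ∧ l ≤ 2 * r + 1 then
          (2 * (q + 1)) * v (Kp.cx r (l - 1)) * v (Kp.cx r l) ^ (2 * q + 1) else 0)) +
      ((if 2 * r + 1 = l then
          (v (Kp.cx r (2 * r + 2)) * v (Kp.cx r (2 * r + 3))) ^ (q + 1) else 0) +
        (if 2 * r + 2 = l then (q + 1) * v (Kp.cx r (2 * r + 1)) *
            (v (Kp.cx r (2 * r + 2)) * v (Kp.cx r (2 * r + 3))) ^ q * v (Kp.cx r (2 * r + 3)) -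
          (2 * (q + 1) + 1) * v (Kp.cx r (2 * r + 2)) ^ (2 * (q + 1)) else 0) +
        (if 2 * r + 3 = l then (q + 1) * v (Kp.cx r (2 * r + 1)) *
            (v (Kp.cx r (2 * r + 2)) * v (Kp.cx r (2 * r + 3))) ^ q * v (Kp.cx r (2 * r + 2)) +
          (2 * (q + 1) + 1) * v (Kp.cx r (2 * r + 3)) ^ (2 * (q + 1)) else 0)) +
      ((if 2 * r + 4 = l then v (Kp.cx r 0) ^ (2 * (q + 1)) +
          (2 * (q + 1) + 1) * v (Kp.cx r (2 * r + 4)) ^ (2 * (q + 1)) else 0) +
        (if 0 = l then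
          (2 * (q + 1)) * v (Kp.cx r (2 * r + 4)) * v (Kp.cx r 0) ^ (2 * q + 1) else 0)) = 0 := by
    intro l hl
    have h4 := h2 (Kp.cx r l)
    rw [hs1 l hl, hs2 l hl] at h4
    simp only [hne (show 2 * r + 1 < 2 * r + 5 by omega) hl,
      hne (show 2 * r + 3 < 2 * r + 5 by omega) hl,
      hne (show 2 * r + 2 < 2 * r + 5 by omega) hl, hne (show 2 * r + 4 < 2 * r + 5 by omega) hl,
      hne (show 0 < 2 * r + 5 by omega) hl] at h4
    exact h4
  obtain ⟨hx, hu, hv, hw⟩ := ex_core (2 * r) q (fun j => v (Kp.cx r j))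
    (v (Kp.cx r (2 * r + 2))) (v (Kp.cx r (2 * r + 3))) (v (Kp.cx r (2 * r + 4)))
    (by
      have h4 := h3 (2 * r + 4) (by omega)
      rw [if_neg (by omega), if_neg (by omega), if_neg (by omega), if_neg (by omega),
        if_neg (by omega), if_pos rfl, if_neg (by omega)] at h4
      linear_combination h4)
    (by
      have h4 := h3 0 (by omega)
      rw [if_pos (by omega), if_neg (by omega), if_neg (by omega), if_neg (by omega),
        if_neg (by omega), if_neg (by omega), if_pos rfl] at h4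
      linear_combination h4)
    (fun j hj => by
      have h4 := h3 (j + 1) (by omega)
      rw [if_pos (by omega), if_pos (by omega), if_neg (by omega), if_neg (by omega),
        if_neg (by omega), if_neg (by omega), if_neg (by omega), Nat.add_sub_cancel] at h4
      linear_combination h4)
    (by
      have h4 := h3 (2 * r + 1) (by omega)
      rw [if_neg (by omega), if_pos (by omega), if_pos rfl, if_neg (by omega),
        if_neg (by omega), if_neg (by omega), if_neg (by omega), Nat.add_sub_cancel] at h4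
      linear_combination h4)
    (by
      have h4 := h3 (2 * r + 2) (by omega)
      rw [if_neg (by omega), if_neg (by omega), if_neg (by omega), if_pos rfl,
        if_neg (by omega), if_neg (by omega), if_neg (by omega)] at h4
      linear_combination h4)
    (by
      have h4 := h3 (2 * r + 3) (by omega)
      rw [if_neg (by omega), if_neg (by omega), if_neg (by omega), if_neg (by omega), if_pos rfl,
        if_neg (by omega), if_neg (by omega)] at h4
      linear_combination h4)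
  funext j
  rw [← Kp.cx_of r j, Pi.zero_apply]
  have hj := j.2
  by_cases h5 : (j : ℕ) ≤ 2 * r + 1
  · exact hx j (by omega)
  · rcases (show (j : ℕ) = 2 * r + 2 ∨ (j : ℕ) = 2 * r + 3 ∨ (j : ℕ) = 2 * r + 4 by omega) with
      h6 | h6 | h6 <;> rw [h6]
    · exact hu
    · exact hv
    · exact hw

end Gd

end Pool.Agent.RCH
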