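import Pool.Agent.RCH.WdDefs

/-!
# Quasi-smooth members of the families
-/

set_option autoImplicit false

open MvPolynomial

namespace Pool.Agent.RCH

namespace Wd

/-- the partial derivatives of `y² - f` vanish only at the origin if this holds for `f` -/
lemma quasiSmooth_of {f : MvPolynomial (Fin 4) ℂ}
    (hf : ∀ v : Fin 4 → ℂ, (∀ l, eval v (pderiv l f) = 0) → v = 0)
    (v : Fin 5 → ℂ)
    (hv : ∀ l, eval v (pderiv l (MvPolynomial.X 4 ^ 2 - rename Fin.castSucc f)) = 0) :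
    v = 0 := by
  have h4 : v 4 = 0 := by
    have h := hv 4
    have h1 : pderiv (4 : Fin 5) (rename Fin.castSucc f : MvPolynomial (Fin 5) ℂ) = 0 := by
      refine pderiv_eq_zero_of_notMem_vars ?_
      intro hmem
      have h2 := vars_rename (R := ℂ) Fin.castSucc f hmem
      rw [Finset.mem_image] at h2
      obtain ⟨i, -, hi⟩ := h2
      exact (Fin.castSucc_lt_last i).ne hi
    rw [map_sub, h1, sub_zero, pderiv_pow, pderiv_X_self] at h
    simpa using h
  have h0 : (fun i : Fin 4 => v i.castSucc) = 0 := by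
    apply hf
    intro l
    have h := hv l.castSucc
    have h1 : pderiv l.castSucc (MvPolynomial.X 4 ^ 2 : MvPolynomial (Fin 5) ℂ) = 0 := by
      rw [pderiv_pow, pderiv_X_of_ne, mul_zero]
      exact (Fin.castSucc_lt_last l).ne'
    rw [map_sub, h1, zero_sub, map_neg, neg_eq_zero,
      pderiv_rename (Fin.castSucc_injective 4), eval_rename] at h
    exact h
  funext i
  refine Fin.lastCases ?_ (fun j => ?_) i
  · exact h4
  · exact congrFun h0 j

lemma eq_zero_of_vec {v : Fin 4 → ℂ} (h0 : v 0 = 0) (h1 : v 1 = 0) (h2 : v 2 = 0)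
    (h3 : v 3 = 0) : v = 0 := by
  funext i
  fin_cases i
  · exact h0
  · exact h1
  · exact h2
  · exact h3

lemma pow_pred_eq_zero {d : ℕ} (hd : 2 ≤ d) {x : ℂ}
    (h : x ^ (d - 1) + x * (((d - 1 : ℕ) : ℂ) * x ^ (d - 1 - 1)) = 0) : x = 0 := by
  obtain ⟨c, rfl⟩ : ∃ c, d = c + 2 := ⟨d - 2, by omega⟩
  have h1 : c + 2 - 1 = c + 1 := rfl
  have h2 : c + 2 - 1 - 1 = c := rfl
  rw [h2, h1] at h
  have h3 : ((c : ℂ) + 2) * x ^ (c + 1) = 0 := by
    rw [← h]
    push_cast
    ring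
  rcases mul_eq_zero.mp h3 with h4 | h4
  · exfalso
    have h5 : ((c + 2 : ℕ) : ℂ) = 0 := by push_cast; exact h4
    rw [Nat.cast_eq_zero] at h5
    omega
  · exact pow_eq_zero_iff (by omega) |>.mp h4

/-- Quasi-smooth members `y² = x_1 x_0^e + x_1^a + x_2^(2n) + x_3^d`. -/
theorem quasiSmooth_one (e a n d : ℕ) (he : 1 ≤ e) (ha : 2 ≤ a) (hn : 1 ≤ n) (hd : 2 ≤ d)
    (v : Fin 5 → ℂ)
    (hv : ∀ l, eval v (pderiv l (MvPolynomial.X 4 ^ 2 - rename Fin.castSucc
      (weightedBranch 1 e (MvPolynomial.X 0 ^ a + MvPolynomial.X 1 ^ (2 * n))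
        (MvPolynomial.X 3 ^ (d - 1)) : MvPolynomial (Fin 4) ℂ) : MvPolynomial (Fin 5) ℂ)) = 0) :
    v = 0 := by
  refine quasiSmooth_of (fun v hv => ?_) v hv
  have h0 := hv 0
  have h1 := hv 1
  have h2 := hv 2
  have h3 := hv 3
  simp only [weightedBranch, map_add, map_pow, rename_X, pderiv_mul, pderiv_pow, pderiv_X,
    Matrix.cons_val_zero, Matrix.cons_val_one] at h0 h1 h2 h3
  simp at h0 h1 h2 h3
  have k3 : v 3 = 0 := pow_pred_eq_zero hd h3
  have k2 : v 2 = 0 := by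
    rcases h2 with h | h
    · omega
    · exact h.1
  have k01 : v 0 = 0 ∧ v 1 = 0 := by
    rcases h0 with h | h | h
    · rw [h, zero_pow (by omega), mul_zero, add_zero] at h1
      exact ⟨(pow_eq_zero_iff (by omega)).mp h1, h⟩
    · omega
    · rw [h.1, zero_pow (by omega), zero_add] at h1
      rcases mul_eq_zero.mp h1 with h4 | h4
      · rw [Nat.cast_eq_zero] at h4
        omega
      · exact ⟨h.1, (pow_eq_zero_iff (by omega)).mp h4⟩
  exact eq_zero_of_vec k01.1 k01.2 k2 k3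

/-- Quasi-smooth members `y² = x_1 x_0^e + x_1^a x_2 + x_2^(2n) + x_3^d`. -/
theorem quasiSmooth_two (e a n d : ℕ) (he : 1 ≤ e) (ha : 1 ≤ a) (hn : 1 ≤ n) (hd : 2 ≤ d)
    (v : Fin 5 → ℂ)
    (hv : ∀ l, eval v (pderiv l (MvPolynomial.X 4 ^ 2 - rename Fin.castSucc
      (weightedBranch 1 e (MvPolynomial.X 0 ^ a * MvPolynomial.X 1 + MvPolynomial.X 1 ^ (2 * n))
        (MvPolynomial.X 3 ^ (d - 1)) : MvPolynomial (Fin 4) ℂ) : MvPolynomial (Fin 5) ℂ)) = 0) :
    v = 0 := by
  refine quasiSmooth_of (fun v hv => ?_) v hv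
  have h0 := hv 0
  have h1 := hv 1
  have h2 := hv 2
  have h3 := hv 3
  simp only [weightedBranch, map_add, map_mul, map_pow, rename_X, pderiv_mul, pderiv_pow, pderiv_X,
    Matrix.cons_val_zero, Matrix.cons_val_one] at h0 h1 h2 h3
  simp at h0 h1 h2 h3
  have k3 : v 3 = 0 := pow_pred_eq_zero hd h3
  have hn2 : 2 * n - 1 ≠ 0 := by omega
  have hn3 : (2 : ℂ) * n ≠ 0 := by
    have : (n : ℂ) ≠ 0 := by
      rw [Ne, Nat.cast_eq_zero]
      omega
    exact mul_ne_zero two_ne_zero this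
  have k012 : v 0 = 0 ∧ v 1 = 0 ∧ v 2 = 0 := by
    rcases h0 with h | h | h
    · rw [h, zero_pow (by omega), zero_add] at h2
      have h4 : v 2 = 0 := (pow_eq_zero_iff hn2).mp ((mul_eq_zero.mp h2).resolve_left hn3)
      rw [h4, mul_zero, add_zero] at h1
      exact ⟨(pow_eq_zero_iff (by omega)).mp h1, h, h4⟩
    · omega
    · rw [h.1, zero_pow (by omega), zero_add] at h1
      have h5 : v 1 = 0 ∨ v 2 = 0 := by
        rcases mul_eq_zero.mp h1 with h4 | h4
        · rcases mul_eq_zero.mp h4 with h6 | h6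
          · rw [Nat.cast_eq_zero] at h6
            omega
          · exact Or.inl (eq_zero_of_pow_eq_zero h6)
        · exact Or.inr h4
      rcases h5 with h5 | h5
      · rw [h5, zero_pow (by omega), zero_add] at h2
        exact ⟨h.1, h5, (pow_eq_zero_iff hn2).mp ((mul_eq_zero.mp h2).resolve_left hn3)⟩
      · rw [h5, zero_pow hn2, mul_zero, add_zero] at h2
        exact ⟨h.1, (pow_eq_zero_iff (by omega)).mp h2, h5⟩
  exact eq_zero_of_vec k012.1 k012.2.1 k012.2.2 k3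

/-- Quasi-smooth members `y² = x_1 x_0^e + x_2^(2n) + x_3 (x_1^a + x_3^(d-1))`. -/
theorem quasiSmooth_three (e a n d : ℕ) (he : 1 ≤ e) (ha : 1 ≤ a) (hn : 1 ≤ n) (hd : 2 ≤ d)
    (v : Fin 5 → ℂ)
    (hv : ∀ l, eval v (pderiv l (MvPolynomial.X 4 ^ 2 - rename Fin.castSucc
      (weightedBranch 1 e (MvPolynomial.X 1 ^ (2 * n))
        (MvPolynomial.X 1 ^ a + MvPolynomial.X 3 ^ (d - 1)) : MvPolynomial (Fin 4) ℂ) :
          MvPolynomial (Fin 5) ℂ)) = 0) :
    v = 0 := by
  refine quasiSmooth_of (fun v hv => ?_) v hv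
  have h0 := hv 0
  have h1 := hv 1
  have h2 := hv 2
  have h3 := hv 3
  simp only [weightedBranch, map_add, map_mul, map_pow, rename_X, pderiv_mul, pderiv_pow, pderiv_X,
    Matrix.cons_val_zero, Matrix.cons_val_one] at h0 h1 h2 h3
  simp at h0 h1 h2 h3
  have k2 : v 2 = 0 := by
    rcases h2 with h | h
    · omega
    · exact h.1
  have k013 : v 0 = 0 ∧ v 1 = 0 ∧ v 3 = 0 := by
    rcases h0 with h | h | h
    · rw [h, zero_pow (by omega), zero_add] at h3
      have h4 : v 3 = 0 := pow_pred_eq_zero hd h3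
      rw [h4, zero_mul, add_zero] at h1
      exact ⟨(pow_eq_zero_iff (by omega)).mp h1, h, h4⟩
    · omega
    · rw [h.1, zero_pow (by omega), zero_add] at h1
      have h5 : v 3 = 0 ∨ v 1 = 0 := by
        rcases mul_eq_zero.mp h1 with h4 | h4
        · exact Or.inl h4
        · rcases mul_eq_zero.mp h4 with h6 | h6
          · rw [Nat.cast_eq_zero] at h6
            omega
          · exact Or.inr (eq_zero_of_pow_eq_zero h6)
      rcases h5 with h5 | h5
      · rw [h5, zero_pow (by omega), zero_mul, add_zero, add_zero] at h3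
        exact ⟨h.1, (pow_eq_zero_iff (by omega)).mp h3, h5⟩
      · rw [h5, zero_pow (by omega), zero_add] at h3
        exact ⟨h.1, h5, pow_pred_eq_zero hd h3⟩
  exact eq_zero_of_vec k013.1 k013.2.1 k2 k013.2.2

/-- Smooth double covers
`y² = x_1^(2m-1) x_0 + x_1^(2m) + x_2^(2m) + x_3 (x_0^(2m-1) + x_3^(2m-1))`. -/
theorem smooth_double (m : ℕ) (hm : 1 ≤ m) (v : Fin 5 → ℂ)
    (hv : ∀ l, eval v (pderiv l (MvPolynomial.X 4 ^ 2 - rename Fin.castSucc
      (weightedBranch (2 * m - 1) 1 (MvPolynomial.X 0 ^ (2 * m) + MvPolynomial.X 1 ^ (2 * m))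
        (MvPolynomial.X 0 ^ (2 * m - 1) + MvPolynomial.X 3 ^ (2 * m - 1)) :
          MvPolynomial (Fin 4) ℂ) : MvPolynomial (Fin 5) ℂ)) = 0) :
    v = 0 := by
  refine quasiSmooth_of (fun v hv => ?_) v hv
  have h0 := hv 0
  have h1 := hv 1
  have h2 := hv 2
  have h3 := hv 3
  simp only [weightedBranch, map_add, map_mul, map_pow, rename_X, pderiv_mul, pderiv_pow, pderiv_X,
    Matrix.cons_val_zero, Matrix.cons_val_one] at h0 h1 h2 h3
  simp at h0 h1 h2 h3
  have k2 : v 2 = 0 := by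
    rcases h2 with h | h
    · omega
    · exact h.1
  obtain ⟨c, rfl⟩ : ∃ c, m = c + 1 := ⟨m - 1, by omega⟩
  have e1 : 2 * (c + 1) - 1 = 2 * c + 1 := by omega
  have e2 : 2 * (c + 1) - 1 - 1 = 2 * c := by omega
  rw [e2, e1] at h0 h1 h3
  have h1' : v 1 ^ (2 * c) * ((2 * c + 1) * v 0 + (2 * c + 2) * v 1) = 0 := by
    rw [← h1]
    push_cast
    ring
  have h3' : v 0 ^ (2 * c + 1) + (2 * c + 2) * v 3 ^ (2 * c + 1) = 0 := by
    rw [← h3]
    push_cast
    ring
  have c2 : (2 * (c : ℂ) + 2) ≠ 0 := by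
    have h : ((2 * c + 2 : ℕ) : ℂ) ≠ 0 := by
      rw [Ne, Nat.cast_eq_zero]
      omega
    intro h'
    apply h
    push_cast
    exact h'
  have c1 : (2 * (c : ℂ) + 1) ≠ 0 := by
    have h : ((2 * c + 1 : ℕ) : ℂ) ≠ 0 := by
      rw [Ne, Nat.cast_eq_zero]
      omega
    intro h'
    apply h
    push_cast
    exact h'
  have a03 : v 0 = 0 → v 3 = 0 := by
    intro h
    rw [h, zero_pow (by omega), zero_add] at h3'
    exact (pow_eq_zero_iff (by omega)).mp ((mul_eq_zero.mp h3').resolve_left c2)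
  have a30 : v 3 = 0 → v 0 = 0 := by
    intro h
    rw [h, zero_pow (by omega), mul_zero, add_zero] at h3'
    exact (pow_eq_zero_iff (by omega)).mp h3'
  have a01 : v 0 = 0 → v 1 = 0 := by
    intro h
    rw [a03 h, zero_mul, add_zero] at h0
    exact (pow_eq_zero_iff (by omega)).mp h0
  have k0 : v 0 = 0 := by
    by_contra hne
    have h4 : (2 * (c : ℂ) + 1) * v 0 + (2 * c + 2) * v 1 = 0 := by
      rcases mul_eq_zero.mp h1' with h | h
      · have h5 : v 1 = 0 := eq_zero_of_pow_eq_zero h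
        rw [h5, zero_pow (by omega), zero_add] at h0
        exfalso
        rcases mul_eq_zero.mp h0 with h6 | h6
        · exact hne (a30 h6)
        · rcases mul_eq_zero.mp h6 with h7 | h7
          · apply c1
            rw [← h7]
            push_cast
            ring
          · exact hne (eq_zero_of_pow_eq_zero h7)
      · exact h
    have h5 : (2 * (c : ℂ) + 2) * v 1 = -((2 * c + 1) * v 0) := by linear_combination h4
    have h6 : ((2 * (c : ℂ) + 2) * v 1) ^ (2 * c + 1) = -((2 * c + 1) * v 0) ^ (2 * c + 1) := by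
      rw [h5, Odd.neg_pow ⟨c, rfl⟩]
    have h7 : v 1 ^ (2 * c + 1) = -((2 * c + 1) * (v 3 * v 0 ^ (2 * c))) := by
      have := h0
      push_cast at this
      linear_combination this
    rw [mul_pow, mul_pow, h7] at h6
    have h8 : (2 * (c : ℂ) + 1) * v 0 ^ (2 * c) *
        ((2 * c + 2) ^ (2 * c + 1) * v 3 - (2 * c + 1) ^ (2 * c) * v 0) = 0 := by
      linear_combination -h6
    have h9 : (2 * (c : ℂ) + 2) ^ (2 * c + 1) * v 3 = (2 * c + 1) ^ (2 * c) * v 0 := by
      rcases mul_eq_zero.mp h8 with h | h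
      · exfalso
        rcases mul_eq_zero.mp h with h' | h'
        · exact c1 h'
        · exact hne (eq_zero_of_pow_eq_zero h')
      · linear_combination h
    have h10 : ((2 * (c : ℂ) + 2) ^ (2 * c + 1)) ^ (2 * c + 1) * v 3 ^ (2 * c + 1) =
        ((2 * c + 1) ^ (2 * c)) ^ (2 * c + 1) * v 0 ^ (2 * c + 1) := by
      rw [← mul_pow, h9, mul_pow]
    have h11 : ((((2 * c + 2) ^ (2 * c + 1)) ^ (2 * c + 1) +
        ((2 * c + 1) ^ (2 * c)) ^ (2 * c + 1) * (2 * c + 2) : ℕ) : ℂ) * v 3 ^ (2 * c + 1) = 0 := by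
      push_cast
      linear_combination h10 + ((2 * (c : ℂ) + 1) ^ (2 * c)) ^ (2 * c + 1) * h3'
    rcases mul_eq_zero.mp h11 with h | h
    · rw [Nat.cast_eq_zero] at h
      have h12 : 0 < ((2 * c + 2) ^ (2 * c + 1)) ^ (2 * c + 1) := by positivity
      omega
    · exact hne (a30 (eq_zero_of_pow_eq_zero h))
  exact eq_zero_of_vec k0 (a01 k0) k2 (a03 k0)

/-- the equation `y² = s v ^ e + s ^ a + t ^ (2n) + ω ^ d` -/
theorem ex_smooth (e a n d : ℕ) (he : 1 ≤ e) (ha : 2 ≤ a) (hn : 1 ≤ n) (hd : 2 ≤ d)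
    (x : Fin 5 → ℂ) (hx : x ≠ 0) : ∃ i, eval x (pderiv i
      (X 4 ^ 2 - rename Fin.castSucc (weightedBranch 1 e (X 0 ^ a + X 1 ^ (2 * n))
        (X 3 ^ (d - 1))))) ≠ 0 := by
  by_contra h
  push Not at h
  exact hx (quasiSmooth_one e a n d he ha hn hd x h)

end Wd

end Pool.Agent.RCH
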