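import Pool.Agent.RCH.KpPlAsm

/-!
# The squares of the differences of the linear spaces, and smash-nilpotence
-/

set_option autoImplicit false

open MvPolynomial

namespace Pool.Agent.RCH

namespace Kp

namespace PlData

variable (S : PlData)

lemma lc_zero (k : Fin S.t) {v : Fin 1 × S.J} (h : v.2 ∈ S.Kf (S.r + 1)) : S.lc k v = 0 := if_pos h

lemma lin_homog (β : ℂ) : IsWeightedHomogeneous ((hyp S.F).mdeg 1)
    (MvPolynomial.X (0, S.x (2 * S.r + 3)) - C β * MvPolynomial.X (0, S.x (2 * S.r + 2)) :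
      Coord S.J 1) (Pi.single 0 1) := by
  have h := fun j : S.J => isWeightedHomogeneous_X ℂ ((hyp S.F).mdeg 1) ((0 : Fin 1), j)
  have h2 := (isWeightedHomogeneous_C ((hyp S.F).mdeg 1) β).mul (h (S.x (2 * S.r + 2)))
  rw [zero_add] at h2
  exact (h (S.x (2 * S.r + 3))).sub h2

lemma lin_mem_pl (k : Fin S.t) (β : ℂ) :
    (MvPolynomial.X (0, S.x (2 * S.r + 3)) - C β * MvPolynomial.X (0, S.x (2 * S.r + 2)) :
      Coord S.J 1) ∈ (S.pl k).I ↔ S.b k = β := by
  refine (mem_gen S.F (S.lc k) (S.lin_homog β)).trans ?_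
  rw [map_sub, map_mul, aeval_X, aeval_X, lc_3, lc_2]
  have hC : aeval (S.lc k) (C β : Coord S.J 1) = C β := by
    rw [aeval_C]
    rfl
  rw [hC, ← sub_mul, ← C_sub, mul_eq_zero]
  have hY : S.Y (2 * S.r + 2) ≠ 0 := MvPolynomial.X_ne_zero _
  constructor
  · rintro (h | h)
    · exact sub_eq_zero.1 ((C_injective S.J ℂ) (h.trans C_0.symm))
    · exact absurd h hY
  · intro h
    left
    rw [h, sub_self, C_0]

lemma pl_injective : Function.Injective S.pl := by
  intro j k h
  have h1 := (S.lin_mem_pl j (S.b j)).2 rfl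
  rw [h, lin_mem_pl] at h1
  exact (S.hb h1).symm

lemma mem_Kf_last {j : S.J} (hj : j ∈ S.Kf (S.r + 1)) :
    j = S.x (2 * S.r + 4) ∨ ∃ i ≤ S.r, j = S.x (2 * i + 1) := by
  rw [mem_Kf] at hj
  rcases hj with h | ⟨h1, h2⟩
  · exact Or.inl ((S.eq_x (by omega)).2 h)
  · refine Or.inr ⟨(j : ℕ) / 2, by omega, ?_⟩
    rw [S.eq_x (by omega)]
    omega

/-- the ideal of the `k`-th linear space -/
theorem pl_I_eq (k : Fin S.t) : (S.pl k).I = spaceIdeal S.r (S.b k) := by
  apply le_antisymm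
  · intro z hz
    rw [← Ideal.Quotient.eq_zero_iff_mem]
    set φ := Ideal.Quotient.mk (spaceIdeal S.r (S.b k)) with hφ
    have h0 : ∀ w ∈ ({z | ∃ i ≤ S.r, z = MvPolynomial.X (0, cx S.r (2 * i + 1))} ∪
        {MvPolynomial.X (0, cx S.r (2 * S.r + 4)), MvPolynomial.X (0, cx S.r (2 * S.r + 3)) -
          C (S.b k) * MvPolynomial.X (0, cx S.r (2 * S.r + 2))} : Set (Coord S.J 1)), φ w = 0 :=
      fun w hw => Ideal.Quotient.eq_zero_iff_mem.2 (Ideal.subset_span hw)
    refine kill_gen S.F (S.lc k) φ (eval₂Hom (cs φ) (xs φ 0)) (fun _ => 1) (fun a => ?_) ?_ hz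
    · rw [MvPolynomial.algebraMap_eq, eval₂Hom_C]
    · intro i j
      have hi : i = 0 := Subsingleton.elim _ _
      subst hi
      rw [mul_one]
      by_cases hjK : j ∈ S.Kf (S.r + 1)
      · rw [S.lc_zero k (v := (0, j)) hjK, map_zero]
        rcases S.mem_Kf_last hjK with rfl | ⟨l, hl, rfl⟩
        · exact h0 _ (Or.inr (Or.inl rfl))
        · exact h0 _ (Or.inl ⟨l, hl, rfl⟩)
      · by_cases h3 : j = S.x (2 * S.r + 3)
        · subst h3
          rw [lc_3, map_mul, eval₂Hom_C, Y, eval₂Hom_X']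
          have h4 := h0 _ (Or.inr (Or.inr rfl))
          rw [map_sub, map_mul] at h4
          exact sub_eq_zero.1 h4
        · rw [lc, if_neg hjK, if_neg h3, eval₂Hom_X']
  · refine Ideal.span_le.2 ?_
    rintro w (⟨i, hi, rfl⟩ | hw)
    · refine (X_mem_gen S.F (S.lc k) _).2 (S.lc_zero k ?_)
      exact (S.x_mem_Kf (by omega)).2 (by omega)
    · rw [Set.mem_insert_iff, Set.mem_singleton_iff] at hw
      rcases hw with rfl | rfl
      · refine (X_mem_gen S.F (S.lc k) _).2 (S.lc_zero k ?_)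
        exact (S.x_mem_Kf (by omega)).2 (by omega)
      · exact (S.lin_mem_pl k (S.b k)).2 rfl

lemma extPow_spaces {j k : Fin S.t} (h : j ≠ k) :
    extPow (hyp S.F) (Finsupp.single (S.pl j) 1 - Finsupp.single (S.pl k) 1) 2 =
      box (hyp S.F) ![S.pl j, S.pl j] - box (hyp S.F) ![S.pl j, S.pl k] -
        box (hyp S.F) ![S.pl k, S.pl j] + box (hyp S.F) ![S.pl k, S.pl k] :=
  extPow_two_single_sub_single (hyp S.F) (fun h' => h (S.pl_injective h'))

/-- the sum over pairs of the squares of the differences of two linear spaces -/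
theorem rel_squares : (S.m + 2) ^ (S.r + 1) •
    ∑ j, ∑ k ∈ Finset.univ.filter (fun k => j < k), (S.a j * S.a k) •
      extPow (hyp S.F) (Finsupp.single (S.pl j) 1 - Finsupp.single (S.pl k) 1) 2 ∈
      RatZero (hyp S.F) 2 := by
  have h := S.rel_spaces
  rw [sum_squares_aux S.a (S.m + 3) S.hsum (fun j k => box (hyp S.F) ![S.pl j, S.pl k])] at h
  have h3 : ∑ j, ∑ k ∈ Finset.univ.filter (fun k => j < k), (S.a j * S.a k) •
      extPow (hyp S.F) (Finsupp.single (S.pl j) 1 - Finsupp.single (S.pl k) 1) 2 =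
      ∑ j, ∑ k ∈ Finset.univ.filter (fun k => j < k), (S.a j * S.a k) •
        (box (hyp S.F) ![S.pl j, S.pl j] - box (hyp S.F) ![S.pl j, S.pl k] -
          box (hyp S.F) ![S.pl k, S.pl j] + box (hyp S.F) ![S.pl k, S.pl k]) := by
    refine Finset.sum_congr rfl fun j _ => Finset.sum_congr rfl fun k hk => ?_
    rw [S.extPow_spaces (Finset.mem_filter.1 hk).2.ne]
  rw [h3]
  exact h

theorem smash (h : S.t = 2) (j k : Fin S.t) :
    SmashNilpotent (hyp S.F) (Finsupp.single (S.pl j) 1 - Finsupp.single (S.pl k) 1) := by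
  classical
  by_cases hjk : j = k
  · subst hjk
    rw [sub_self]
    refine ⟨1, le_rfl, 1, le_rfl, ?_⟩
    rw [extPow_zero_cycle le_rfl, smul_zero]
    exact zero_mem _
  refine ⟨2, by norm_num, (S.m + 2) ^ (S.r + 1) * (S.a j * S.a k), ?_, ?_⟩
  · have h1 := S.ha j
    have h2 := S.ha k
    exact Nat.one_le_iff_ne_zero.2 (by positivity)
  · have huniv : (Finset.univ : Finset (Fin S.t)) = {j, k} := by
      symm
      apply Finset.eq_univ_of_card
      rw [Finset.card_pair hjk, Fintype.card_fin, h]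
    have hsum := S.hsum
    rw [huniv, Finset.sum_pair hjk] at hsum
    have hrel := S.rel_spaces
    rw [huniv] at hrel
    simp only [Finset.sum_pair hjk] at hrel
    rw [← hsum] at hrel
    rw [S.extPow_spaces hjk, mul_smul]
    rw [two_aux] at hrel
    exact hrel

end PlData

end Kp

end Pool.Agent.RCH
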