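import Pool.Agent.RCH.GdMsym
import Pool.Agent.RCH.KpFin

/-!
# The symmetries permute the linear spaces
-/

set_option autoImplicit false

open MvPolynomial

namespace Pool.Agent.RCH

namespace Gd

/-- the inverse image of an ideal with given generators -/
lemma comap_span {A : Type} [CommRing A] [Algebra ℂ A] (φ : A ≃ₐ[ℂ] A) (s t : Set A)
    (h1 : ∀ w ∈ s, φ w ∈ Ideal.span t) (h2 : ∀ w ∈ t, φ.symm w ∈ Ideal.span s) :
    (Ideal.span t).comap φ = Ideal.span s := by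
  apply le_antisymm
  · intro z hz
    rw [Ideal.mem_comap] at hz
    have h3 : Ideal.span t ≤ (Ideal.span s).comap (φ.symm : A ≃ₐ[ℂ] A) :=
      Ideal.span_le.2 fun w hw => h2 w hw
    have h4 := h3 hz
    rw [Ideal.mem_comap] at h4
    have h5 : φ.symm (φ z) = z := φ.symm_apply_apply z
    exact h5 ▸ h4
  · exact Ideal.span_le.2 fun w hw => h1 w hw

/-- the linear form of a linear space -/
noncomputable def lf (S : Kp.PlData) (β : ℂ) : Coord S.J 1 :=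
  MvPolynomial.X (0, Kp.cx S.r (2 * S.r + 3)) - C β * MvPolynomial.X (0, Kp.cx S.r (2 * S.r + 2))

/-- the generators of the ideal of a linear space -/
def gens (S : Kp.PlData) (β : ℂ) : Set (Coord S.J 1) :=
  {z | ∃ i ≤ S.r, z = MvPolynomial.X (0, Kp.cx S.r (2 * i + 1))} ∪
    {MvPolynomial.X (0, Kp.cx S.r (2 * S.r + 4)), lf S β}

lemma span_gens (S : Kp.PlData) (β : ℂ) : Kp.spaceIdeal S.r β = Ideal.span (gens S β) := rfl

/-- A symmetry which fixes the killed coordinates and permutes the linear forms of the linear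
spaces. -/
lemma tr_of (S : Kp.PlData) (g : MSym (Kp.hyp S.F)) {k k' : Fin S.t}
    (hσ : ∀ j : S.J, j ≠ S.x (2 * S.r + 2) → j ≠ S.x (2 * S.r + 3) → g.σ j = j) {u : ℂ}
    (hu : u ≠ 0)
    (h : actN (Equiv.refl (Fin 1)) (fun _ => g) (lf S (S.b k')) = C u * lf S (S.b k)) :
    tr1 g (S.pl k) = S.pl k' := by
  apply Pt.ext'
  rw [tr1_I, S.pl_I_eq, S.pl_I_eq, span_gens, span_gens]
  set φ := actN (Equiv.refl (Fin 1)) (fun _ => g) with hφ
  have hC : ∀ a : ℂ, φ (C a) = C a := fun a => φ.commutes a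
  have hX : ∀ j : S.J, j ≠ S.x (2 * S.r + 2) → j ≠ S.x (2 * S.r + 3) →
      φ (MvPolynomial.X ((0 : Fin 1), j)) = C (g.c j) * MvPolynomial.X ((0 : Fin 1), j) := by
    intro j h2 h3
    rw [hφ, actN_X]
    show C (g.c j) * MvPolynomial.X ((0 : Fin 1), g.σ j) = _
    rw [hσ j h2 h3]
  have hXs : ∀ j : S.J, j ≠ S.x (2 * S.r + 2) → j ≠ S.x (2 * S.r + 3) →
      φ.symm (MvPolynomial.X ((0 : Fin 1), j)) =
        C (g.c j)⁻¹ * MvPolynomial.X ((0 : Fin 1), j) := by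
    intro j h2 h3
    rw [AlgEquiv.symm_apply_eq, map_mul, hC, hX j h2 h3, ← mul_assoc, ← C_mul,
      inv_mul_cancel₀ (g.hc j), C_1, one_mul]
  have hs : φ.symm (lf S (S.b k)) = C u⁻¹ * lf S (S.b k') := by
    rw [AlgEquiv.symm_apply_eq, map_mul, hC, h, ← mul_assoc, ← C_mul, inv_mul_cancel₀ hu, C_1,
      one_mul]
  have h1 : ∀ i ≤ S.r, S.x (2 * i + 1) ≠ S.x (2 * S.r + 2) ∧
      S.x (2 * i + 1) ≠ S.x (2 * S.r + 3) := fun i hi =>
    ⟨S.x_ne (by omega) (by omega) (by omega), S.x_ne (by omega) (by omega) (by omega)⟩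
  have h4 : S.x (2 * S.r + 4) ≠ S.x (2 * S.r + 2) ∧ S.x (2 * S.r + 4) ≠ S.x (2 * S.r + 3) :=
    ⟨S.x_ne (by omega) (by omega) (by omega), S.x_ne (by omega) (by omega) (by omega)⟩
  refine comap_span φ _ _ ?_ ?_
  · rintro w (⟨i, hi, rfl⟩ | rfl | hw)
    · show φ (MvPolynomial.X ((0 : Fin 1), S.x (2 * i + 1))) ∈ _
      rw [hX _ (h1 i hi).1 (h1 i hi).2]
      exact Ideal.mul_mem_left _ _ (Ideal.subset_span (Or.inl ⟨i, hi, rfl⟩))
    · show φ (MvPolynomial.X ((0 : Fin 1), S.x (2 * S.r + 4))) ∈ _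
      rw [hX _ h4.1 h4.2]
      exact Ideal.mul_mem_left _ _ (Ideal.subset_span (Or.inr (Or.inl rfl)))
    · rw [Set.mem_singleton_iff.1 hw, h]
      exact Ideal.mul_mem_left _ _ (Ideal.subset_span (Or.inr (Or.inr rfl)))
  · rintro w (⟨i, hi, rfl⟩ | rfl | hw)
    · show φ.symm (MvPolynomial.X ((0 : Fin 1), S.x (2 * i + 1))) ∈ _
      rw [hXs _ (h1 i hi).1 (h1 i hi).2]
      exact Ideal.mul_mem_left _ _ (Ideal.subset_span (Or.inl ⟨i, hi, rfl⟩))
    · show φ.symm (MvPolynomial.X ((0 : Fin 1), S.x (2 * S.r + 4))) ∈ _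
      rw [hXs _ h4.1 h4.2]
      exact Ideal.mul_mem_left _ _ (Ideal.subset_span (Or.inr (Or.inl rfl)))
    · rw [Set.mem_singleton_iff.1 hw, hs]
      exact Ideal.mul_mem_left _ _ (Ideal.subset_span (Or.inr (Or.inr rfl)))

/-- the rotation permutes the linear spaces -/
theorem tr_rot (S : Kp.PlData) {α : S.J → ℂ} (h : IsSym S.F (Equiv.refl _) α) {ζ : ℂ}
    (h1 : α (S.x (2 * S.r + 3)) = ζ * α (S.x (2 * S.r + 2))) {k k' : Fin S.t}
    (hk : S.b k' = ζ * S.b k) : tr1 (msym (F_ne_zero S) h) (S.pl k) = S.pl k' := by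
  refine tr_of S _ (fun j _ _ => rfl) (h.1 (S.x (2 * S.r + 3))) ?_
  rw [lf, lf, map_sub, map_mul, actN_X, actN_X]
  have hC : ∀ a : ℂ, actN (Equiv.refl (Fin 1)) (fun _ => msym (F_ne_zero S) h) (C a) =
      (C a : Coord S.J 1) := fun a => AlgEquiv.commutes _ a
  rw [hC]
  show C (α (S.x (2 * S.r + 3))) * MvPolynomial.X ((0 : Fin 1), S.x (2 * S.r + 3)) -
    C (S.b k') * (C (α (S.x (2 * S.r + 2))) * MvPolynomial.X ((0 : Fin 1), S.x (2 * S.r + 2))) =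
    C (α (S.x (2 * S.r + 3))) * (MvPolynomial.X ((0 : Fin 1), S.x (2 * S.r + 3)) -
      C (S.b k) * MvPolynomial.X ((0 : Fin 1), S.x (2 * S.r + 2)))
  rw [h1, hk, C_mul, C_mul]
  ring

/-- the reflection permutes the linear spaces -/
theorem tr_swap (S : Kp.PlData) {β : S.J → ℂ}
    (h : IsSym S.F (Equiv.swap (S.x (2 * S.r + 2)) (S.x (2 * S.r + 3))) β)
    (h1 : β (S.x (2 * S.r + 3)) = β (S.x (2 * S.r + 2))) {k k' : Fin S.t}
    (hk : S.b k' * S.b k = 1) : tr1 (msym (F_ne_zero S) h) (S.pl k) = S.pl k' := by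
  have hb : S.b k' ≠ 0 := left_ne_zero_of_mul_eq_one hk
  refine tr_of S _ (fun j h2 h3 => Equiv.swap_apply_of_ne_of_ne h2 h3)
    (u := -(β (S.x (2 * S.r + 2)) * S.b k'))
    (neg_ne_zero.2 (mul_ne_zero (h.1 _) hb)) ?_
  rw [lf, lf, map_sub, map_mul, actN_X, actN_X]
  have hC : ∀ a : ℂ, actN (Equiv.refl (Fin 1)) (fun _ => msym (F_ne_zero S) h) (C a) =
      (C a : Coord S.J 1) := fun a => AlgEquiv.commutes _ a
  rw [hC]
  show C (β (S.x (2 * S.r + 3))) * MvPolynomial.X ((0 : Fin 1),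
      Equiv.swap (S.x (2 * S.r + 2)) (S.x (2 * S.r + 3)) (S.x (2 * S.r + 3))) -
    C (S.b k') * (C (β (S.x (2 * S.r + 2))) * MvPolynomial.X ((0 : Fin 1),
      Equiv.swap (S.x (2 * S.r + 2)) (S.x (2 * S.r + 3)) (S.x (2 * S.r + 2)))) =
    C (-(β (S.x (2 * S.r + 2)) * S.b k')) * (MvPolynomial.X ((0 : Fin 1), S.x (2 * S.r + 3)) -
      C (S.b k) * MvPolynomial.X ((0 : Fin 1), S.x (2 * S.r + 2)))
  rw [Equiv.swap_apply_left, Equiv.swap_apply_right, h1, C_neg, C_mul]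
  have h2 : (C (S.b k') * C (S.b k) : Coord S.J 1) = 1 := by rw [← C_mul, hk, C_1]
  linear_combination (-(C (β (S.x (2 * S.r + 2))) * MvPolynomial.X ((0 : Fin 1),
    S.x (2 * S.r + 2)))) * h2

end Gd

end Pool.Agent.RCH
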