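import Pool.Agent.RCH.DSRel
import Pool.Agent.RCH.Homg

/-!
# The main identity for double covers
-/

set_option autoImplicit false

namespace Pool.Agent.RCH

open MvPolynomial

namespace DSData

variable (S : DSData)

lemma WW_eq_aeval : S.WW =
    aeval ![(X (0, 1) : Coord (Fin 5) 2), X (0, 2)] (S.p * S.q - S.s * S.r) := by
  rw [WW, S.hW, map_mul, map_prod]
  congr 1
  · simp
  · refine Finset.prod_congr rfl fun k _ => ?_
    simp [ell]

lemma bv_smul {L : Type} [CommRing L] (φ : Coord (Fin 5) 2 →+* L) (j : Fin 5)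
    (hj : j = 1 ∨ j = 2) (h12 : φ (X (0, 1)) * φ (X (1, 2)) = φ (X (0, 2)) * φ (X (1, 1))) {n : ℕ}
    {p : MvPolynomial (Fin 2) ℂ} (hp : p.IsHomogeneous n) :
    φ (X (0, j)) ^ n * bv φ 1 p = φ (X (1, j)) ^ n * bv φ 0 p := by
  unfold bv
  rw [← eval₂Hom_smul_of_isHomogeneous _ hp, ← eval₂Hom_smul_of_isHomogeneous _ hp]
  congr 2
  funext i
  rcases hj with rfl | rfl <;> fin_cases i
  · simp [mul_comm]
  · simpa using h12.trans (mul_comm _ _)
  · simpa using h12.symm.trans (mul_comm _ _)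
  · simp [mul_comm]

/-- the main identity, under a homomorphism -/
theorem main_identity {L : Type} [CommRing L] (φ : Coord (Fin 5) 2 →+* L) (j : Fin 5)
    (hj : j = 1 ∨ j = 2) (h12 : φ (X (0, 1)) * φ (X (1, 2)) = φ (X (0, 2)) * φ (X (1, 1)))
    (hy : ∀ i : Fin 2, φ (X (i, 4)) ^ 2 = φ (S.uu 2 i) * φ (S.vv 2 i)) :
    φ (X (0, j)) ^ S.m * φ S.NN * φ S.DD =
      -(φ (S.uu 2 0) * φ (S.uu 2 1) * φ (X (1, j)) ^ (S.m - 1) * φ S.WW * φ (dl j)) := by
  have hW : φ S.WW = bv φ 0 S.p * bv φ 0 S.q - bv φ 0 S.s * bv φ 0 S.r := by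
    rw [WW_eq_aeval, map_aeval]
    unfold bv
    rw [map_sub, map_mul, map_mul]
  have hp := bv_smul φ j hj h12 S.hp
  have hs := bv_smul φ j hj h12 S.hs
  have hr := bv_smul φ j hj h12 S.hr
  have hq := bv_smul φ j hj h12 S.hq
  have h0 := hy 0
  have h1 := hy 1
  obtain ⟨m, hm⟩ : ∃ m, S.m = m + 1 := ⟨S.m - 1, by have := S.hm; omega⟩
  rw [hW]
  simp only [NN, DD, dl, map_sub, map_add, map_mul, map_uu, map_vv] at h0 h1 ⊢
  rw [hm] at hp hs hr hq ⊢
  simp only [Nat.add_sub_cancel] at hp hs hr hq ⊢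
  generalize bv φ 0 S.p = p at *
  generalize bv φ 0 S.q = q at *
  generalize bv φ 0 S.r = r at *
  generalize bv φ 0 S.s = s at *
  generalize bv φ 1 S.p = p' at *
  generalize bv φ 1 S.q = q' at *
  generalize bv φ 1 S.r = r' at *
  generalize bv φ 1 S.s = s' at *
  generalize φ (X (0, j)) = x at *
  generalize φ (X (1, j)) = x' at *
  generalize φ (X (0, 4)) = y at *
  generalize φ (X (1, 4)) = y' at *
  generalize φ (X (0, 0)) = a at *
  generalize φ (X (1, 0)) = a' at *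
  have hu : x ^ (m + 1) * (p' * a' + s') = x' ^ m * (x * p * a' + x' * s) := by
    linear_combination (x * a') * hp + hs
  have hv : x ^ (m + 1) * (r' * a' + q') = x' ^ m * (x * r * a' + x' * q) := by
    linear_combination (x * a') * hr + hq
  have hND : (y * (p' * a' + s') - y' * (p * a + s)) * (y * (p' * a' + s') + y' * (p * a + s)) =
      (p * a + s) * (p' * a' + s') * ((r * a + q) * (p' * a' + s') -
        (r' * a' + q') * (p * a + s)) := by
    linear_combination (p' * a' + s') ^ 2 * h0 - (p * a + s) ^ 2 * h1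
  linear_combination x ^ (m + 1) * hND +
    ((p * a + s) * (p' * a' + s') * (r * a + q)) * hu -
    ((p * a + s) * (p' * a' + s') * (p * a + s)) * hv

/-- **Row IDN** -/
lemma idn (j : Fin 5) (hj : j = 1 ∨ j = 2) : X (0,j) ^ S.m * (S.NN * S.DD) +
    S.uu 2 0 * S.uu 2 1 * X (1,j) ^ (S.m - 1) * (S.WW * dl j) ∈ S.pV.I := by
  rw [← Ideal.Quotient.eq_zero_iff_mem]
  have h := S.main_identity (Ideal.Quotient.mk S.pV.I) j hj
    (by
      rw [← sub_eq_zero, ← map_mul, ← map_mul, ← map_sub]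
      exact Ideal.Quotient.eq_zero_iff_mem.2 S.pV_minor)
    (fun i => by
      rw [← sub_eq_zero, ← map_mul, ← map_pow, ← map_sub]
      exact Ideal.Quotient.eq_zero_iff_mem.2 (S.pV_sq i))
  rw [map_add, map_mul, map_mul, map_mul, map_mul, map_mul, map_mul, map_pow, map_pow]
  linear_combination h

end DSData

end Pool.Agent.RCH
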