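import Pool.Agent.RCH.DSPts

/-!
# The equation holds at the points
-/

set_option autoImplicit false

namespace Pool.Agent.RCH

open MvPolynomial

namespace DSData

variable (S : DSData)

lemma inc_bval_c1 (x y : A0) (p : MvPolynomial (Fin 2) ℂ) :
    bval (S.c1 x) (S.c1 y) p = S.c1 (aeval ![x, y] p) := bval_qC _ _ _ _ _ _ _

lemma inc_bval_c2 (x y : S.B1) (p : MvPolynomial (Fin 2) ℂ) :
    bval (S.c2 x) (S.c2 y) p = S.c2 (bval x y p) := bval_qC _ _ _ _ _ _ _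

lemma eqn_ptV (i : Fin 2) : aeval (fun j => S.ptV (i, j)) S.eqn = 0 := by
  rw [aeval_eqn]
  fin_cases i
  · have h0 : S.ptV (0, 0) = S.c2 (qT _ _ _ _) := rfl
    have h1 : S.ptV (0, 1) = S.c2 (S.c1 (MvPolynomial.X 0)) := rfl
    have h2 : S.ptV (0, 2) = S.c2 (S.c1 (MvPolynomial.X 1)) := rfl
    have h3 : S.ptV (0, 3) = 0 := rfl
    have h4 : S.ptV (0, 4) = S.c2 (qY _ _ _ _) := rfl
    have hq : S.ptV (0, 4) ^ 2 = S.c2 ((S.c1 (f2 S.p) * qT _ _ _ _ + S.c1 (f2 S.s)) *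
        (S.c1 (f2 S.r) * qT _ _ _ _ + S.c1 (f2 S.q))) := by
      rw [h4, ← map_pow, qY_sq]
      rfl
    show S.ptV (0, 4) ^ 2 - ((bval (S.ptV (0, 1)) (S.ptV (0, 2)) S.p * S.ptV (0, 0) +
      bval (S.ptV (0, 1)) (S.ptV (0, 2)) S.s) * (bval (S.ptV (0, 1)) (S.ptV (0, 2)) S.r *
      S.ptV (0, 0) + bval (S.ptV (0, 1)) (S.ptV (0, 2)) S.q) + S.ptV (0, 3) * _) = 0
    rw [hq, h0, h1, h2, h3, inc_bval_c2, inc_bval_c2, inc_bval_c2, inc_bval_c2, inc_bval_c1, inc_bval_c1, inc_bval_c1,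
      inc_bval_c1, zero_mul, add_zero, sub_eq_zero]
    simp only [map_mul, map_add]
    rfl
  · have h0 : S.ptV (1, 0) = qT _ _ _ _ := rfl
    have h1 : S.ptV (1, 1) = S.c2 (S.c1 (MvPolynomial.X 2 * MvPolynomial.X 0)) := rfl
    have h2 : S.ptV (1, 2) = S.c2 (S.c1 (MvPolynomial.X 2 * MvPolynomial.X 1)) := rfl
    have h3 : S.ptV (1, 3) = 0 := rfl
    have hq : S.ptV (1, 4) ^ 2 = (S.c2 (S.g2 S.p) * qT _ _ _ _ + S.c2 (S.g2 S.s)) *
        (S.c2 (S.g2 S.r) * qT _ _ _ _ + S.c2 (S.g2 S.q)) := qY_sq _ _ _ _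
    show S.ptV (1, 4) ^ 2 - ((bval (S.ptV (1, 1)) (S.ptV (1, 2)) S.p * S.ptV (1, 0) +
      bval (S.ptV (1, 1)) (S.ptV (1, 2)) S.s) * (bval (S.ptV (1, 1)) (S.ptV (1, 2)) S.r *
      S.ptV (1, 0) + bval (S.ptV (1, 1)) (S.ptV (1, 2)) S.q) + S.ptV (1, 3) * _) = 0
    rw [hq, h0, h1, h2, h3, inc_bval_c2, inc_bval_c2, inc_bval_c2, inc_bval_c2, zero_mul, add_zero, sub_eq_zero]
    rfl

/-- a form at a multiple of a point -/
lemma inc_bval_scale {D : Type} [CommRing D] [Algebra ℂ D] {n : ℕ} {p : MvPolynomial (Fin 2) ℂ}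
    (hp : p.IsHomogeneous n) (x y : ℂ) (w : D) :
    bval (algebraMap ℂ D x * w) (algebraMap ℂ D y * w) p =
      w ^ n * algebraMap ℂ D (eval ![x, y] p) := by
  have h1 : (![algebraMap ℂ D x * w, algebraMap ℂ D y * w] : Fin 2 → D) =
      fun j => algebraMap ℂ D (![x, y] j) * w := by
    funext j
    fin_cases j <;> rfl
  rw [bval, h1, aeval_def, eval₂_eq, eval_eq, map_sum, Finset.mul_sum]
  refine Finset.sum_congr rfl fun u hu => ?_
  have h2 : ∑ i, u i = n := by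
    have := hp (mem_support_iff.mp hu)
    rw [Finsupp.weight_apply, Finsupp.sum_fintype _ _ (fun _ => by simp)] at this
    simpa using this
  have h3 : ∑ i ∈ u.support, u i = n := by
    rw [← h2]
    refine Finset.sum_subset (Finset.subset_univ _) fun i _ hi => ?_
    simpa using hi
  rw [map_mul, map_prod]
  simp only [mul_pow, map_pow, Finset.prod_mul_distrib]
  rw [Finset.prod_pow_eq_pow_sum, h3]
  ring

lemma eqn_ptC {D : Type} [CommRing D] [Algebra ℂ D] (k : Fin S.t) (ε : ℂ) (he : ε ^ 2 = 1)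
    (a w : D) : aeval (S.ptC k ε a w) S.eqn = 0 := by
  rw [aeval_eqn]
  have h0 : S.ptC k ε a w 0 = a := rfl
  have h1 : S.ptC k ε a w 1 = algebraMap ℂ D (S.al k) * w := rfl
  have h2 : S.ptC k ε a w 2 = algebraMap ℂ D (S.be k) * w := rfl
  have h3 : S.ptC k ε a w 3 = 0 := rfl
  have h4 : S.ptC k ε a w 4 = algebraMap ℂ D (ε * S.ga k) * S.uC k a w := rfl
  rw [h0, h1, h2, h3, h4, uC, inc_bval_scale S.hp, inc_bval_scale S.hs, inc_bval_scale S.hr, inc_bval_scale S.hq,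
    S.hrp, S.hqs, zero_mul, add_zero]
  have he' : algebraMap ℂ D ε ^ 2 = 1 := by rw [← map_pow, he, map_one]
  simp only [map_mul, map_pow]
  linear_combination (algebraMap ℂ D (S.ga k) ^ 2 * (w ^ (S.m - 1) *
    algebraMap ℂ D (eval ![S.al k, S.be k] S.p) * a + w ^ S.m *
    algebraMap ℂ D (eval ![S.al k, S.be k] S.s)) ^ 2) * he'

end DSData

end Pool.Agent.RCH
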