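import Pool.Agent.RCH.DSPt
import Pool.Agent.RCH.Homg

/-!
# The section `x_3 = 0` of the diagonal of the double cover
-/

set_option autoImplicit false

namespace Pool.Agent.RCH

open MvPolynomial

namespace DSData

variable (S : DSData)

lemma minor_mem_pXD (a b : Fin 5) (ha : S.V.wt a = 1) (hb : S.V.wt b = 1) :
    (MvPolynomial.X (0, a) * MvPolynomial.X (1, b) - MvPolynomial.X (0, b) * MvPolynomial.X (1, a) :
      Coord (Fin 5) 2) ∈ S.pXD.I := by
  have h : genHom S.V (fun v : Fin 2 × Fin 5 => S.ptX v.2)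
      (MvPolynomial.X (0, a) * MvPolynomial.X (1, b) -
        MvPolynomial.X (0, b) * MvPolynomial.X (1, a)) = 0 := by
    rw [genHom, map_sub, map_mul, map_mul, aeval_X, aeval_X, aeval_X, aeval_X]
    simp only [ha, hb]
    ring
  exact h

lemma pow_mem_pXD (a : Fin 5) (ha : S.V.wt a = 1) :
    (MvPolynomial.X (0, a) ^ S.m * MvPolynomial.X (1, 4) -
      MvPolynomial.X (1, a) ^ S.m * MvPolynomial.X (0, 4) : Coord (Fin 5) 2) ∈ S.pXD.I := by
  have h : genHom S.V (fun v : Fin 2 × Fin 5 => S.ptX v.2)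
      (MvPolynomial.X (0, a) ^ S.m * MvPolynomial.X (1, 4) -
        MvPolynomial.X (1, a) ^ S.m * MvPolynomial.X (0, 4)) = 0 := by
    rw [genHom, map_sub, map_mul, map_mul, map_pow, map_pow, aeval_X, aeval_X, aeval_X, aeval_X]
    simp only [ha, wt4]
    ring
  exact h

/-- A homomorphism which kills the diagonal of the double cover and `x_3`, and sends one of the
coordinates `x_0, x_1, x_2` of the first point to a unit, kills the diagonal of the section. -/
lemma kill_pYD {L : Type} [CommRing L] (can : Coord (Fin 5) 2 →+* L)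
    (hX : ∀ z ∈ S.pXD.I, can z = 0) (h3 : can (MvPolynomial.X (0, 3)) = 0) (a : Fin 5)
    (ha : S.V.wt a = 1) (hu : IsUnit (can (MvPolynomial.X (0, a)))) {z : Coord (Fin 5) 2}
    (hz : z ∈ S.pYD.I) : can z = 0 := by
  obtain ⟨u, hu⟩ := hu
  have hrel : can (MvPolynomial.X (0, 4)) ^ 2 =
      (bv can 0 S.p * can (MvPolynomial.X (0, 0)) + bv can 0 S.s) *
        (bv can 0 S.r * can (MvPolynomial.X (0, 0)) + bv can 0 S.q) := by
    have h := hX _ (S.eq_of_onX S.pXD 0)
    rw [map_sub, map_pow, map_add, map_mul, map_mul, h3, map_uu, map_vv, zero_mul, add_zero,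
      sub_eq_zero] at h
    exact h
  let f : MvPolynomial (Fin 2) ℂ →+* L :=
    eval₂Hom (can.comp C) ![can (MvPolynomial.X (0, 1)), can (MvPolynomial.X (0, 2))]
  let g : S.RY →+* L :=
    qLift S.p S.s S.r S.q f (can (MvPolynomial.X (0, 0))) (can (MvPolynomial.X (0, 4))) hrel
  -- the scaling factor
  let c1 : L := can (MvPolynomial.X (1, a)) * (↑u⁻¹ : L)
  have key : ∀ b : Fin 5, S.V.wt b = 1 →
      can (MvPolynomial.X (1, b)) = can (MvPolynomial.X (0, b)) * c1 := by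
    intro b hb
    have h := hX _ (S.minor_mem_pXD a b ha hb)
    rw [map_sub, map_mul, map_mul, ← hu] at h
    have hinv := Units.mul_inv u
    show _ = can (MvPolynomial.X (0, b)) * (can (MvPolynomial.X (1, a)) * (↑u⁻¹ : L))
    linear_combination (↑u⁻¹ : L) * h - can (MvPolynomial.X (1, b)) * hinv
  have key4 : can (MvPolynomial.X (1, 4)) = can (MvPolynomial.X (0, 4)) * c1 ^ S.m := by
    have h := hX _ (S.pow_mem_pXD a ha)
    rw [map_sub, map_mul, map_mul, map_pow, map_pow, ← hu] at h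
    have hinv : (u : L) ^ S.m * (↑u⁻¹ : L) ^ S.m = 1 := by
      rw [← mul_pow, Units.mul_inv, one_pow]
    show _ = can (MvPolynomial.X (0, 4)) * (can (MvPolynomial.X (1, a)) * (↑u⁻¹ : L)) ^ S.m
    rw [mul_pow]
    linear_combination (↑u⁻¹ : L) ^ S.m * h - can (MvPolynomial.X (1, 4)) * hinv
  have hf0 : f (MvPolynomial.X 0) = can (MvPolynomial.X (0, 1)) := by simp [f]
  have hf1 : f (MvPolynomial.X 1) = can (MvPolynomial.X (0, 2)) := by simp [f]
  have hg : ∀ j : Fin 5, g (S.ptY j) = can (MvPolynomial.X (0, j)) := by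
    intro j
    fin_cases j
    · exact qLift_T f _ _ hrel
    · exact (qLift_C f _ _ hrel _).trans hf0
    · exact (qLift_C f _ _ hrel _).trans hf1
    · show g 0 = can (MvPolynomial.X (0, 3))
      rw [map_zero, h3]
    · exact qLift_Y f _ _ hrel
  refine genIdeal_lift S.V (fun v : Fin 2 × Fin 5 => S.ptY v.2) can g ![1, c1] ?_ ?_ hz
  · intro x
    rw [algebraMap_QD]
    refine Eq.trans ?_ (qLift_C f _ _ hrel _).symm
    simp [f, MvPolynomial.algebraMap_eq]
  · rintro ⟨i, j⟩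
    show can (MvPolynomial.X (i, j)) = g (S.ptY j) * (![1, c1] : Fin 2 → L) i ^ S.V.wt j
    rw [hg]
    fin_cases i
    · simp
    · show can (MvPolynomial.X (1, j)) = can (MvPolynomial.X (0, j)) * c1 ^ S.V.wt j
      by_cases hj : j = 4
      · subst hj
        rw [key4, wt4]
      · have hw : S.V.wt j = 1 := by
          fin_cases j
          · rfl
          · rfl
          · rfl
          · rfl
          · exact absurd rfl hj
        rw [hw, pow_one, key j hw]

lemma X_notMem_pYD (i : Fin 2) : (MvPolynomial.X (i, 1) : Coord (Fin 5) 2) ∉ S.pYD.I := by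
  intro h
  have h1 := (X_mem_genIdeal S.V (fun v : Fin 2 × Fin 5 => S.ptY v.2) (i, 1)).1 h
  have h2 : qC S.p S.s S.r S.q (MvPolynomial.X 0) = 0 := h1
  exact MvPolynomial.X_ne_zero (R := ℂ) (0 : Fin 2) (qC_injective (by rw [map_zero]; exact h2))

/-- `x_3` generates the ideal of the diagonal of the section locally on the diagonal of the double
cover -/
theorem lg1 : ∀ z ∈ S.pYD.I, ∃ s, s ∉ S.pYD.I ∧
    s * z ∈ S.pXD.I ⊔ Ideal.span {(MvPolynomial.X (0, 3) : Coord (Fin 5) 2)} := by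
  intro z hz
  have hp : (S.pYD.I).IsPrime := S.pYD.prime
  apply exists_of_toLocMod_eq_zero
  refine S.kill_pYD (toLocMod _ _) ?_ ?_ 1 rfl ?_ hz
  · intro x hx
    exact toLocMod_eq_zero_of_mem (Ideal.mem_sup_left hx)
  · exact toLocMod_eq_zero_of_mem (Ideal.mem_sup_right (Ideal.mem_span_singleton_self _))
  · exact isUnit_toLocMod (S.X_notMem_pYD 0)

/-- a point where `x_0 = x_1 = x_2 = x_3 = 0` is not on the double cover -/
lemma exists_coord {Q : Ideal (Coord (Fin 5) 2)} [Q.IsPrime] (h : S.pXD.I ≤ Q)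
    (h3 : (MvPolynomial.X (0, 3) : Coord (Fin 5) 2) ∈ Q)
    (h0 : ∃ j : Fin 5, (MvPolynomial.X (0, j) : Coord (Fin 5) 2) ∉ Q) :
    ∃ a : Fin 5, S.V.wt a = 1 ∧ (MvPolynomial.X (0, a) : Coord (Fin 5) 2) ∉ Q := by
  by_contra hcon
  push Not at hcon
  have hx0 := hcon 0 rfl
  have hx1 := hcon 1 rfl
  have hx2 := hcon 2 rfl
  obtain ⟨j, hj⟩ := h0
  apply hj
  -- everything is in `Q`
  have hs0 : aeval ![(MvPolynomial.X (0, 1) : Coord (Fin 5) 2), MvPolynomial.X (0, 2)] S.s ∈ Q := by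
    have h1 : ∀ f : MvPolynomial (Fin 2) ℂ, ∀ n : ℕ, f.IsHomogeneous n → 1 ≤ n →
        aeval ![(MvPolynomial.X (0, 1) : Coord (Fin 5) 2), MvPolynomial.X (0, 2)] f ∈ Q := by
      intro f n hf hn
      rw [← Ideal.Quotient.eq_zero_iff_mem, ← Ideal.Quotient.mkₐ_eq_mk ℂ]
      have h2 : (Ideal.Quotient.mkₐ ℂ Q) (aeval ![(MvPolynomial.X (0, 1) : Coord (Fin 5) 2),
          MvPolynomial.X (0, 2)] f) = aeval (0 : Fin 2 → Coord (Fin 5) 2 ⧸ Q) f := by
        have h3 : ((Ideal.Quotient.mkₐ ℂ Q).comp (aeval ![(MvPolynomial.X (0, 1) :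
            Coord (Fin 5) 2), MvPolynomial.X (0, 2)])) =
            (aeval (0 : Fin 2 → Coord (Fin 5) 2 ⧸ Q) : MvPolynomial (Fin 2) ℂ →ₐ[ℂ] _) := by
          ext k
          fin_cases k
          · simp only [AlgHom.comp_apply, aeval_X]
            show (Ideal.Quotient.mk Q) (MvPolynomial.X (0, 1)) = 0
            rw [Ideal.Quotient.eq_zero_iff_mem]; exact hx1
          · simp only [AlgHom.comp_apply, aeval_X]
            show (Ideal.Quotient.mk Q) (MvPolynomial.X (0, 2)) = 0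
            rw [Ideal.Quotient.eq_zero_iff_mem]; exact hx2
        exact congrArg (fun ψ => ψ f) h3
      rw [h2]
      have h4 := aeval_smul_of_isHomogeneous hf (0 : Coord (Fin 5) 2 ⧸ Q) (0 : Fin 2 → _)
      rw [zero_pow (by omega), zero_mul] at h4
      rw [← h4]
      congr 1
    exact h1 S.s S.m S.hs S.hm
  have hu : S.uu 2 0 ∈ Q := by
    rw [uu]
    exact Q.add_mem (Q.mul_mem_left _ hx0) hs0
  have h4 : (MvPolynomial.X (0, 4) : Coord (Fin 5) 2) ∈ Q := by
    have h5 := h (S.eq_of_onX S.pXD 0)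
    have h6 : (MvPolynomial.X (0, 4) : Coord (Fin 5) 2) ^ 2 ∈ Q := by
      have h7 := Q.add_mem h5 (Q.add_mem (Q.mul_mem_right (S.vv 2 0) hu)
        (Q.mul_mem_right (inFactor 2 0 (rename Fin.castSucc S.P)) h3))
      have h8 : (MvPolynomial.X (0, 4) ^ 2 - (S.uu 2 0 * S.vv 2 0 + MvPolynomial.X (0, 3) *
        inFactor 2 0 (rename Fin.castSucc S.P))) + (S.uu 2 0 * S.vv 2 0 + MvPolynomial.X (0, 3) *
        inFactor 2 0 (rename Fin.castSucc S.P)) = (MvPolynomial.X (0, 4) : Coord (Fin 5) 2) ^ 2 := by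
        ring
      rwa [h8] at h7
    exact Ideal.IsPrime.mem_of_pow_mem ‹_› 2 h6
  fin_cases j
  · exact hx0
  · exact hx1
  · exact hx2
  · exact h3
  · exact h4

/-- the section `x_3 = 0` of the diagonal of the double cover is the diagonal of the section -/
theorem cl1 (Q : Ideal (Coord (Fin 5) 2)) [Q.IsPrime] (h : S.pXD.I ≤ Q)
    (h3 : (MvPolynomial.X (0, 3) : Coord (Fin 5) 2) ∈ Q)
    (h0 : ∃ j, (MvPolynomial.X (0, j) : Coord (Fin 5) 2) ∉ Q)
    (_h1 : ∃ j, (MvPolynomial.X (1, j) : Coord (Fin 5) 2) ∉ Q) : S.pYD.I ≤ Q := by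
  obtain ⟨a, ha, hau⟩ := S.exists_coord h h3 h0
  intro z hz
  rw [← toLocMod_self_eq_zero]
  refine S.kill_pYD (toLocMod Q Q) ?_ ?_ a ha ?_ hz
  · intro x hx
    exact toLocMod_eq_zero_of_mem (h hx)
  · exact toLocMod_eq_zero_of_mem h3
  · exact isUnit_toLocMod hau

end DSData

end Pool.Agent.RCH
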