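import Pool.Agent.RCH.DSIdn

/-!
# Local generation of the diagonal of `Y` on the fibre product
-/

set_option autoImplicit false

namespace Pool.Agent.RCH

open MvPolynomial

namespace DSData

variable (S : DSData)

lemma ps_ne : S.p ≠ 0 ∨ S.s ≠ 0 := by
  by_contra h
  push Not at h
  apply S.W_ne_zero
  rw [h.1, h.2]
  ring

lemma rq_ne : S.r ≠ 0 ∨ S.q ≠ 0 := by
  by_contra h
  push Not at h
  apply S.W_ne_zero
  rw [h.1, h.2]
  ring

lemma qY_ne_zero : (qY S.p S.s S.r S.q : S.RY) ≠ 0 := by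
  intro h
  have h1 := qY_sq S.p S.s S.r S.q
  rw [h, zero_pow two_ne_zero] at h1
  exact mul_ne_zero (qlin_ne_zero S.ps_ne) (qlin_ne_zero S.rq_ne) h1.symm

/-- elements with nonzero value at the generic point are not in the ideal -/
lemma notMem_pYD {z : Coord (Fin 5) 2}
    (h : aeval (fun v : Fin 2 × Fin 5 => S.ptY v.2) z ≠ 0) : z ∉ S.pYD.I := fun hz =>
  h (aeval_of_mem S.V _ hz)

lemma pYD_X1 (i : Fin 2) : (X (i, 1) : Coord (Fin 5) 2) ∉ S.pYD.I := by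
  apply notMem_pYD
  rw [aeval_X]
  intro h
  exact MvPolynomial.X_ne_zero (R := ℂ) (0 : Fin 2) (qC_injective (by rw [map_zero]; exact h))

lemma pYD_plus : (X (0, 1) ^ S.m * X (1, 4) + X (1, 1) ^ S.m * X (0, 4) : Coord (Fin 5) 2) ∉
    S.pYD.I := by
  apply notMem_pYD
  have h : aeval (fun v : Fin 2 × Fin 5 => S.ptY v.2)
      (X (0, 1) ^ S.m * X (1, 4) + X (1, 1) ^ S.m * X (0, 4) : Coord (Fin 5) 2) =
      2 * (S.ptY 1 ^ S.m * S.ptY 4) := by
    rw [map_add, map_mul, map_mul, map_pow, map_pow, aeval_X, aeval_X, aeval_X, aeval_X]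
    ring
  rw [h]
  have h2 : (2 : S.RY) ≠ 0 := by
    have h3 : (2 : S.RY) = qC S.p S.s S.r S.q (C 2) := by
      rw [show (C 2 : MvPolynomial (Fin 2) ℂ) = 2 from map_ofNat C 2, map_ofNat]
    rw [h3]
    intro h4
    have h5 := qC_injective (h4.trans (map_zero _).symm)
    have h6 := C_injective (Fin 2) ℂ (h5.trans (map_zero C).symm)
    norm_num at h6
  refine mul_ne_zero h2 (mul_ne_zero (pow_ne_zero _ ?_) S.qY_ne_zero)
  intro h
  exact MvPolynomial.X_ne_zero (R := ℂ) (0 : Fin 2) (qC_injective (by rw [map_zero]; exact h))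

/-- a homomorphism under which the coordinates of the two points differ by a scaling kills the ideal
of the diagonal of `Y` -/
lemma pYD_lift {L : Type} [CommRing L] (φ : Coord (Fin 5) 2 →+* L) (c : L)
    (h3 : ∀ i, φ (X (i, 3)) = 0) (hy : φ (X (0, 4)) ^ 2 = φ (S.uu 2 0) * φ (S.vv 2 0))
    (hc0 : φ (X (1, 0)) = φ (X (0, 0)) * c) (hc1 : φ (X (1, 1)) = φ (X (0, 1)) * c)
    (hc2 : φ (X (1, 2)) = φ (X (0, 2)) * c) (hc4 : φ (X (1, 4)) = φ (X (0, 4)) * c ^ S.m)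
    {z : Coord (Fin 5) 2} (hz : z ∈ S.pYD.I) : φ z = 0 := by
  let f : MvPolynomial (Fin 2) ℂ →+* L := eval₂Hom (φ.comp C) ![φ (X (0, 1)), φ (X (0, 2))]
  have hrel : φ (X (0, 4)) ^ 2 = (f S.p * φ (X (0, 0)) + f S.s) * (f S.r * φ (X (0, 0)) + f S.q) := by
    rw [hy, map_uu, map_vv]
    rfl
  let g : S.RY →+* L := qLift S.p S.s S.r S.q f (φ (X (0, 0))) (φ (X (0, 4))) hrel
  refine genIdeal_lift S.V (fun v : Fin 2 × Fin 5 => S.ptY v.2) φ g ![1, c] ?_ ?_ hz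
  · intro a
    rw [algebraMap_QD]
    simp only [g]
    rw [qLift_C]
    simp only [f, MvPolynomial.algebraMap_eq]
    simp
  · have g0 : g (S.ptY 0) = φ (X (0, 0)) := qLift_T _ _ _ _
    have g1 : g (S.ptY 1) = φ (X (0, 1)) := by
      have : S.ptY 1 = qC _ _ _ _ (X 0) := rfl
      rw [this]
      simp only [g]
      rw [qLift_C]
      simp [f]
    have g2 : g (S.ptY 2) = φ (X (0, 2)) := by
      have : S.ptY 2 = qC _ _ _ _ (X 1) := rfl
      rw [this]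
      simp only [g]
      rw [qLift_C]
      simp [f]
    have g3 : g (S.ptY 3) = 0 := map_zero g
    have g4 : g (S.ptY 4) = φ (X (0, 4)) := qLift_Y _ _ _ _
    rintro ⟨i, j⟩
    fin_cases i <;> fin_cases j
    · simpa using g0.symm
    · simpa using g1.symm
    · simpa using g2.symm
    · simpa [g3] using h3 0
    · simpa using g4.symm
    · simpa [g0] using hc0
    · simpa [g1] using hc1
    · simpa [g2] using hc2
    · simpa [g3] using h3 1
    · simpa [g4] using hc4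

/-- **Row LG2** -/
lemma lg2 : ∀ z ∈ S.pYD.I, ∃ s, s ∉ S.pYD.I ∧ s * z ∈ S.pV.I ⊔ Ideal.span {dl 1} := by
  intro z hz
  have hprime : S.pYD.I.IsPrime := S.pYD.prime
  set J : Ideal (Coord (Fin 5) 2) := S.pV.I ⊔ Ideal.span {dl 1} with hJ
  apply exists_of_toLocMod_eq_zero (J := J)
  let φ : Coord (Fin 5) 2 →+* LocMod J S.pYD.I := toLocMod J S.pYD.I
  have hV : ∀ w ∈ S.pV.I, φ w = 0 := fun w hw =>
    toLocMod_eq_zero_of_mem (Ideal.mem_sup_left hw)
  have hdl : φ (dl 1) = 0 :=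
    toLocMod_eq_zero_of_mem (Ideal.mem_sup_right (Ideal.mem_span_singleton_self _))
  obtain ⟨u1, hu1⟩ : IsUnit (φ (X (0, 1))) := isUnit_toLocMod (S.pYD_X1 0)
  have hupl : IsUnit (φ (X (0, 1) ^ S.m * X (1, 4) + X (1, 1) ^ S.m * X (0, 4))) :=
    isUnit_toLocMod S.pYD_plus
  have h12 : φ (X (0, 1)) * φ (X (1, 2)) = φ (X (0, 2)) * φ (X (1, 1)) := by
    have := hV _ S.pV_minor
    rwa [map_sub, map_mul, map_mul, sub_eq_zero] at this
  have h3 : ∀ i, φ (X (i, 3)) = 0 := fun i => hV _ (S.pV_X3 i)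
  have hy : ∀ i : Fin 2, φ (X (i, 4)) ^ 2 = φ (S.uu 2 i) * φ (S.vv 2 i) := by
    intro i
    have := hV _ (S.pV_sq i)
    rwa [map_sub, map_mul, map_pow, sub_eq_zero] at this
  have h01 : φ (X (0, 0)) * φ (X (1, 1)) = φ (X (1, 0)) * φ (X (0, 1)) := by
    rw [dl, map_sub, map_mul, map_mul, sub_eq_zero] at hdl
    exact hdl
  -- the scaling
  set c : LocMod J S.pYD.I := φ (X (1, 1)) * ↑u1⁻¹ with hc
  have hc1 : φ (X (1, 1)) = φ (X (0, 1)) * c := by
    rw [hc, ← hu1, mul_comm (φ (X (1, 1))), ← mul_assoc, Units.mul_inv, one_mul]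
  have hcan : ∀ a b : LocMod J S.pYD.I, φ (X (0, 1)) * a = φ (X (0, 1)) * b → a = b := by
    intro a b hab
    rw [← hu1] at hab
    exact (Units.mul_right_inj u1).1 hab
  have hc0 : φ (X (1, 0)) = φ (X (0, 0)) * c := by
    apply hcan
    linear_combination (-1 : LocMod J S.pYD.I) * h01 + φ (X (0, 0)) * hc1
  have hc2 : φ (X (1, 2)) = φ (X (0, 2)) * c := by
    apply hcan
    linear_combination h12 + φ (X (0, 2)) * hc1
  have hup : φ (X (0, 1)) ^ S.m * φ (S.uu 2 1) = φ (X (1, 1)) ^ S.m * φ (S.uu 2 0) := by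
    have hp := bv_smul φ 1 (Or.inl rfl) h12 S.hp
    have hs := bv_smul φ 1 (Or.inl rfl) h12 S.hs
    obtain ⟨m, hm⟩ : ∃ m, S.m = m + 1 := ⟨S.m - 1, by have := S.hm; omega⟩
    rw [map_uu, map_uu]
    rw [hm] at hp hs ⊢
    simp only [Nat.add_sub_cancel] at hp
    linear_combination (φ (X (0, 1)) * φ (X (1, 0))) * hp + hs -
      (φ (X (1, 1)) ^ m * bv φ 0 S.p) * h01
  have hvp : φ (X (0, 1)) ^ S.m * φ (S.vv 2 1) = φ (X (1, 1)) ^ S.m * φ (S.vv 2 0) := by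
    have hp := bv_smul φ 1 (Or.inl rfl) h12 S.hr
    have hs := bv_smul φ 1 (Or.inl rfl) h12 S.hq
    obtain ⟨m, hm⟩ : ∃ m, S.m = m + 1 := ⟨S.m - 1, by have := S.hm; omega⟩
    rw [map_vv, map_vv]
    rw [hm] at hp hs ⊢
    simp only [Nat.add_sub_cancel] at hp
    linear_combination (φ (X (0, 1)) * φ (X (1, 0))) * hp + hs -
      (φ (X (1, 1)) ^ m * bv φ 0 S.r) * h01
  have hprod : (φ (X (0, 1)) ^ S.m * φ (X (1, 4)) - φ (X (1, 1)) ^ S.m * φ (X (0, 4))) *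
      φ (X (0, 1) ^ S.m * X (1, 4) + X (1, 1) ^ S.m * X (0, 4)) = 0 := by
    rw [map_add, map_mul, map_mul, map_pow, map_pow]
    linear_combination φ (X (0, 1)) ^ (2 * S.m) * hy 1 - φ (X (1, 1)) ^ (2 * S.m) * hy 0 +
      (φ (X (0, 1)) ^ S.m * φ (S.vv 2 1)) * hup + (φ (X (1, 1)) ^ S.m * φ (S.uu 2 0)) * hvp
  have h4 : φ (X (0, 1)) ^ S.m * φ (X (1, 4)) = φ (X (1, 1)) ^ S.m * φ (X (0, 4)) := by
    rw [← sub_eq_zero]
    exact (hupl.mul_left_eq_zero).1 hprod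
  have hc4 : φ (X (1, 4)) = φ (X (0, 4)) * c ^ S.m := by
    rw [hc1, mul_pow] at h4
    have hu : IsUnit (φ (X (0, 1)) ^ S.m) := by
      rw [← hu1]
      exact (u1.isUnit).pow _
    obtain ⟨u, hu⟩ := hu
    rw [← hu] at h4
    exact (Units.mul_right_inj u).1 (by linear_combination h4)
  exact S.pYD_lift φ c h3 (hy 0) hc0 hc1 hc2 hc4 hz

end DSData

end Pool.Agent.RCH
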