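import Pool.Agent.RCH.DSRel
import Pool.Agent.RCH.Homg

/-!
# Local generators at the products of curves
-/

set_option autoImplicit false

namespace Pool.Agent.RCH

open MvPolynomial

namespace DSData

variable (S : DSData)

section Line

variable {L : Type} [CommRing L] (can : Coord (Fin 5) 2 →+* L) (i : Fin 2)

/-- values of a binary form on a line through the origin -/
lemma bv_line {a b : ℂ} {w : L} (h1 : can (MvPolynomial.X (i, 1)) = can (C a) * w)
    (h2 : can (MvPolynomial.X (i, 2)) = can (C b) * w) {n : ℕ} {p : MvPolynomial (Fin 2) ℂ}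
    (hp : p.IsHomogeneous n) : bv can i p = w ^ n * can (C (eval ![a, b] p)) := by
  have h := eval₂Hom_smul_of_isHomogeneous (can.comp C) hp w ![can (C a), can (C b)]
  have h3 : (fun j => w * (![can (C a), can (C b)] : Fin 2 → L) j) =
      ![can (MvPolynomial.X (i, 1)), can (MvPolynomial.X (i, 2))] := by
    funext j
    fin_cases j
    · simp [h1, mul_comm]
    · simp [h2, mul_comm]
  have h4 : eval₂Hom (can.comp C) ![can (C a), can (C b)] p = can (C (eval ![a, b] p)) := by
    have h5 : (![can (C a), can (C b)] : Fin 2 → L) = (can.comp C) ∘ (![a, b] : Fin 2 → ℂ) := by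
      funext j
      fin_cases j <;> rfl
    rw [h5]
    exact (eval₂_comp (can.comp C) ![a, b] p).symm
  rw [h3, h4] at h
  exact h

lemma can_vv (k : Fin S.t) {w : L} (h1 : can (MvPolynomial.X (i, 1)) = can (C (S.al k)) * w)
    (h2 : can (MvPolynomial.X (i, 2)) = can (C (S.be k)) * w) :
    can (S.vv 2 i) = can (C (S.ga k)) ^ 2 * can (S.uu 2 i) := by
  rw [S.map_vv, S.map_uu, bv_line can i h1 h2 S.hp, bv_line can i h1 h2 S.hs,
    bv_line can i h1 h2 S.hr, bv_line can i h1 h2 S.hq, S.hrp k, S.hqs k]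
  simp only [map_mul, map_pow]
  ring

lemma can_y (k : Fin S.t) {ε : ℂ} (hε : ε ^ 2 = 1) {w : L}
    (h1 : can (MvPolynomial.X (i, 1)) = can (C (S.al k)) * w)
    (h2 : can (MvPolynomial.X (i, 2)) = can (C (S.be k)) * w)
    (hsq : can (MvPolynomial.X (i, 4) ^ 2 - S.uu 2 i * S.vv 2 i) = 0)
    (hu : IsUnit (can (MvPolynomial.X (i, 4) + C (ε * S.ga k) * S.uu 2 i))) :
    can (MvPolynomial.X (i, 4)) = can (C (ε * S.ga k)) * can (S.uu 2 i) := by
  rw [map_sub, map_pow, map_mul, S.can_vv can i k h1 h2, sub_eq_zero] at hsq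
  rw [map_add, map_mul] at hu
  have h3 : can (C (ε * S.ga k)) ^ 2 = can (C (S.ga k)) ^ 2 := by
    rw [← map_pow, ← C_pow, mul_pow, hε, one_mul, C_pow, map_pow]
  have h4 : (can (MvPolynomial.X (i, 4)) + can (C (ε * S.ga k)) * can (S.uu 2 i)) *
      (can (MvPolynomial.X (i, 4)) - can (C (ε * S.ga k)) * can (S.uu 2 i)) = 0 := by
    linear_combination hsq - can (S.uu 2 i) ^ 2 * h3
  have h5 := (hu.mul_right_eq_zero).1 h4
  exact sub_eq_zero.1 h5

variable {D : Type} [CommRing D] [Algebra ℂ D] (g : D →+* L)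

lemma map_bval (hC : ∀ x : ℂ, g (algebraMap ℂ D x) = can (C x)) {x y : D}
    (h1 : g x = can (MvPolynomial.X (i, 1))) (h2 : g y = can (MvPolynomial.X (i, 2)))
    (p : MvPolynomial (Fin 2) ℂ) : g (bval x y p) = bv can i p := by
  have h : g.comp (aeval ![x, y] : MvPolynomial (Fin 2) ℂ →ₐ[ℂ] D).toRingHom =
      eval₂Hom (can.comp C) ![can (MvPolynomial.X (i, 1)), can (MvPolynomial.X (i, 2))] := by
    apply MvPolynomial.ringHom_ext
    · intro a
      simp [hC]
    · intro j
      fin_cases j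
      · simp [h1]
      · simp [h2]
  exact congrArg (fun ψ => ψ p) h

lemma map_uC (hC : ∀ x : ℂ, g (algebraMap ℂ D x) = can (C x)) (k : Fin S.t) {a w : D}
    (h0 : g a = can (MvPolynomial.X (i, 0)))
    (h1 : can (MvPolynomial.X (i, 1)) = can (C (S.al k)) * g w)
    (h2 : can (MvPolynomial.X (i, 2)) = can (C (S.be k)) * g w) :
    g (S.uC k a w) = can (S.uu 2 i) := by
  have e1 : g (algebraMap ℂ D (S.al k) * w) = can (MvPolynomial.X (i, 1)) := by
    rw [map_mul, hC, h1]
  have e2 : g (algebraMap ℂ D (S.be k) * w) = can (MvPolynomial.X (i, 2)) := by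
    rw [map_mul, hC, h2]
  rw [uC, map_add, map_mul, map_bval can i g hC e1 e2, map_bval can i g hC e1 e2, h0, S.map_uu]

/-- a homomorphism has the given values on the coordinates of a point of the `k`-th curve -/
lemma map_ptC (hC : ∀ x : ℂ, g (algebraMap ℂ D x) = can (C x)) (k : Fin S.t) (ε : ℂ) {a w : D}
    (h0 : g a = can (MvPolynomial.X (i, 0)))
    (h1 : can (MvPolynomial.X (i, 1)) = can (C (S.al k)) * g w)
    (h2 : can (MvPolynomial.X (i, 2)) = can (C (S.be k)) * g w)
    (h3 : can (MvPolynomial.X (i, 3)) = 0)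
    (h4 : can (MvPolynomial.X (i, 4)) = can (C (ε * S.ga k)) * can (S.uu 2 i)) (j : Fin 5) :
    can (MvPolynomial.X (i, j)) = g (S.ptC k ε a w j) := by
  have e0 : S.ptC k ε a w 0 = a := rfl
  have e1 : S.ptC k ε a w 1 = algebraMap ℂ D (S.al k) * w := rfl
  have e2 : S.ptC k ε a w 2 = algebraMap ℂ D (S.be k) * w := rfl
  have e3 : S.ptC k ε a w 3 = 0 := rfl
  have e4 : S.ptC k ε a w 4 = algebraMap ℂ D (ε * S.ga k) * S.uC k a w := rfl
  fin_cases j
  · show can (MvPolynomial.X (i, 0)) = g (S.ptC k ε a w 0)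
    rw [e0, h0]
  · show can (MvPolynomial.X (i, 1)) = g (S.ptC k ε a w 1)
    rw [e1, map_mul, hC, h1]
  · show can (MvPolynomial.X (i, 2)) = g (S.ptC k ε a w 2)
    rw [e2, map_mul, hC, h2]
  · show can (MvPolynomial.X (i, 3)) = g (S.ptC k ε a w 3)
    rw [e3, map_zero, h3]
  · show can (MvPolynomial.X (i, 4)) = g (S.ptC k ε a w 4)
    rw [e4, map_mul, hC, h4, S.map_uC can i g hC k h0 h1 h2]

end Line

/-! ### Values of polynomials at the generic point of a product of curves -/

/-- the first parameter of the `i`-th curve -/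
noncomputable def kA (i : Fin 2) : K4 := if i = 0 then MvPolynomial.X 0 else MvPolynomial.X 2

/-- the second parameter of the `i`-th curve -/
noncomputable def kW (i : Fin 2) : K4 := if i = 0 then MvPolynomial.X 1 else MvPolynomial.X 3

/-- the sign of the `i`-th curve -/
noncomputable def kS (b b' : Bool) (i : Fin 2) : ℂ := if i = 0 then sgn b else sgn b'

lemma kS_sq (b b' : Bool) (i : Fin 2) : kS b b' i ^ 2 = 1 := by
  unfold kS
  split_ifs
  · exact sgn_sq b
  · exact sgn_sq b'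

lemma kS_ne (b b' : Bool) (i : Fin 2) : kS b b' i ≠ 0 := by
  unfold kS
  split_ifs
  · exact sgn_ne b
  · exact sgn_ne b'

lemma ptCC_eq (k : Fin S.t) (b b' : Bool) (i : Fin 2) (j : Fin 5) :
    S.ptCC k (sgn b) (sgn b') (i, j) = S.ptC k (kS b b' i) (kA i) (kW i) j := by
  fin_cases i <;> rfl

lemma kW_ne (i : Fin 2) : kW i ≠ 0 := by
  unfold kW
  split_ifs <;> exact MvPolynomial.X_ne_zero _

/-- `p x_0 + s` does not vanish on the curves -/
lemma uC_ne (k : Fin S.t) (i : Fin 2) : S.uC k (kA i) (kW i) ≠ 0 := by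
  intro h0
  -- a value of the first parameter
  obtain ⟨x, hx⟩ : ∃ x : ℂ, eval ![S.al k, S.be k] S.p * x + eval ![S.al k, S.be k] S.s ≠ 0 := by
    by_cases hs : eval ![S.al k, S.be k] S.s = 0
    · refine ⟨1, ?_⟩
      rw [mul_one, hs, add_zero]
      exact (S.hps k).resolve_right (fun h => h hs)
    · exact ⟨0, by rwa [mul_zero, zero_add]⟩
  apply hx
  have hC : ∀ y : ℂ, (eval ![x, 1, x, 1] : K4 →+* ℂ) (algebraMap ℂ K4 y) = y := by
    intro y
    exact eval_C y
  have hA : (eval ![x, 1, x, 1] : K4 →+* ℂ) (kA i) = x := by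
    unfold kA
    split_ifs <;> simp
  have hW : (eval ![x, 1, x, 1] : K4 →+* ℂ) (kW i) = 1 := by
    unfold kW
    split_ifs <;> simp
  have key : ∀ p : MvPolynomial (Fin 2) ℂ, (eval ![x, 1, x, 1] : K4 →+* ℂ)
      (bval (algebraMap ℂ K4 (S.al k) * kW i) (algebraMap ℂ K4 (S.be k) * kW i) p) =
      eval ![S.al k, S.be k] p := by
    intro p
    have h : (eval ![x, 1, x, 1] : K4 →+* ℂ).comp
        (aeval ![algebraMap ℂ K4 (S.al k) * kW i, algebraMap ℂ K4 (S.be k) * kW i] :
          MvPolynomial (Fin 2) ℂ →ₐ[ℂ] K4).toRingHom = eval ![S.al k, S.be k] := by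
      apply MvPolynomial.ringHom_ext
      · intro a
        simp
      · intro j
        fin_cases j
        · simp [hW]
        · simp [hW]
    exact congrArg (fun ψ => ψ p) h
  have h1 := congrArg (eval ![x, 1, x, 1] : K4 →+* ℂ) h0
  rw [uC, map_add, map_mul, key, key, hA, map_zero] at h1
  exact h1

lemma aeval_uu_ptCC (k : Fin S.t) (b b' : Bool) (i : Fin 2) :
    aeval (S.ptCC k (sgn b) (sgn b')) (S.uu 2 i) = S.uC k (kA i) (kW i) := by
  have h := S.map_uC (aeval (S.ptCC k (sgn b) (sgn b')) : Coord (Fin 5) 2 →ₐ[ℂ] K4).toRingHom i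
    (RingHom.id K4) (fun x => ?_) k (a := kA i) (w := kW i) ?_ ?_ ?_
  · exact h.symm
  · show algebraMap ℂ K4 x = aeval (S.ptCC k (sgn b) (sgn b')) (C x)
    exact ((aeval (S.ptCC k (sgn b) (sgn b'))).commutes x).symm
  · show kA i = aeval (S.ptCC k (sgn b) (sgn b')) (MvPolynomial.X (i, 0))
    rw [aeval_X, ptCC_eq]
    rfl
  · show aeval (S.ptCC k (sgn b) (sgn b')) (MvPolynomial.X (i, 1)) =
      aeval (S.ptCC k (sgn b) (sgn b')) (C (S.al k)) * kW i
    rw [aeval_X, ptCC_eq, aeval_C]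
    rfl
  · show aeval (S.ptCC k (sgn b) (sgn b')) (MvPolynomial.X (i, 2)) =
      aeval (S.ptCC k (sgn b) (sgn b')) (C (S.be k)) * kW i
    rw [aeval_X, ptCC_eq, aeval_C]
    rfl

lemma notMem_pCC (k : Fin S.t) (b b' : Bool) {z : Coord (Fin 5) 2}
    (h : aeval (S.ptCC k (sgn b) (sgn b')) z ≠ 0) : z ∉ (S.pCC k b b').I :=
  fun hz => h (aeval_of_mem S.V _ hz)

lemma aeval_X_ptCC (k : Fin S.t) (b b' : Bool) (i : Fin 2) (j : Fin 5) :
    aeval (S.ptCC k (sgn b) (sgn b')) (MvPolynomial.X (i, j) : Coord (Fin 5) 2) =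
      S.ptC k (kS b b' i) (kA i) (kW i) j := by
  rw [aeval_X, ptCC_eq]

/-- a linear form with value one at the `k`-th root -/
lemma exists_coef (k : Fin S.t) : ∃ c₁ c₂ : ℂ, c₁ * S.al k + c₂ * S.be k = 1 := by
  rcases S.hne k with h | h
  · exact ⟨(S.al k)⁻¹, 0, by rw [inv_mul_cancel₀ h, zero_mul, add_zero]⟩
  · exact ⟨0, (S.be k)⁻¹, by rw [inv_mul_cancel₀ h, zero_mul, zero_add]⟩

/-- `y + ε γ (p x_0 + s)` is not in the ideal of the product of curves -/
lemma ysum_notMem (k : Fin S.t) (b b' : Bool) (i : Fin 2) :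
    MvPolynomial.X (i, 4) + C (kS b b' i * S.ga k) * S.uu 2 i ∉ (S.pCC k b b').I := by
  apply S.notMem_pCC
  rw [map_add, map_mul, aeval_uu_ptCC, aeval_X_ptCC, aeval_C]
  have e4 : S.ptC k (kS b b' i) (kA i) (kW i) 4 =
    algebraMap ℂ K4 (kS b b' i * S.ga k) * S.uC k (kA i) (kW i) := rfl
  rw [e4, ← two_mul]
  refine mul_ne_zero two_ne_zero (mul_ne_zero ?_ (S.uC_ne k i))
  intro h
  have h' : algebraMap ℂ K4 (kS b b' i * S.ga k) = algebraMap ℂ K4 0 := by rw [h, map_zero]
  exact mul_ne_zero (kS_ne b b' i) (S.hga k) (MvPolynomial.C_injective _ _ h')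

/-- **Row LG3.** Local generators at the product of two of the curves over the `k`-th root. -/
theorem lg3 (k : Fin S.t) (b b' : Bool) : ∀ z ∈ (S.pCC k b b').I,
    ∃ s, s ∉ (S.pCC k b b').I ∧ s * z ∈ S.pV.I ⊔ Ideal.span {S.ell k} := by
  intro z hz
  show ∃ s, s ∉ (S.pCC k b b').I ∧ s * z ∈ S.pV.I ⊔
      Ideal.span {C (S.be k) * MvPolynomial.X (0, 1) - C (S.al k) * MvPolynomial.X (0, 2)}
  have hprime : (S.pCC k b b').I.IsPrime := (S.pCC k b b').prime
  set J : Ideal (Coord (Fin 5) 2) := S.pV.I ⊔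
    Ideal.span {C (S.be k) * MvPolynomial.X (0, 1) - C (S.al k) * MvPolynomial.X (0, 2)} with hJ
  set can : Coord (Fin 5) 2 →+* LocMod J (S.pCC k b b').I := toLocMod J (S.pCC k b b').I
    with hcan
  have hV : ∀ y ∈ S.pV.I, can y = 0 := fun y hy =>
    toLocMod_eq_zero_of_mem (Ideal.mem_sup_left hy)
  have hell : can (C (S.be k) * MvPolynomial.X (0, 1) - C (S.al k) * MvPolynomial.X (0, 2)) = 0 :=
    toLocMod_eq_zero_of_mem (Ideal.mem_sup_right (Ideal.subset_span rfl))
  have hunit : ∀ y : Coord (Fin 5) 2, y ∉ (S.pCC k b b').I → IsUnit (can y) := fun y hy =>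
    isUnit_toLocMod hy
  obtain ⟨c₁, c₂, hc⟩ := S.exists_coef k
  -- the parameters
  set W : Fin 2 → Coord (Fin 5) 2 := fun i =>
    C c₁ * MvPolynomial.X (i, 1) + C c₂ * MvPolynomial.X (i, 2) with hW
  have hWn : ∀ i, W i ∉ (S.pCC k b b').I := by
    intro i
    apply S.notMem_pCC
    have e1 : S.ptC k (kS b b' i) (kA i) (kW i) 1 = algebraMap ℂ K4 (S.al k) * kW i := rfl
    have e2 : S.ptC k (kS b b' i) (kA i) (kW i) 2 = algebraMap ℂ K4 (S.be k) * kW i := rfl
    rw [hW]
    simp only [map_add, map_mul, aeval_X_ptCC, aeval_C, e1, e2]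
    have h1 : algebraMap ℂ K4 c₁ * algebraMap ℂ K4 (S.al k) +
        algebraMap ℂ K4 c₂ * algebraMap ℂ K4 (S.be k) = 1 := by
      rw [← map_mul, ← map_mul, ← map_add, hc, map_one]
    have h2 : algebraMap ℂ K4 c₁ * (algebraMap ℂ K4 (S.al k) * kW i) +
        algebraMap ℂ K4 c₂ * (algebraMap ℂ K4 (S.be k) * kW i) = kW i := by
      linear_combination (kW i) * h1
    rw [h2]
    exact kW_ne i
  have hc' : can (C c₁) * can (C (S.al k)) + can (C c₂) * can (C (S.be k)) = 1 := by
    have h0 : (C c₁ * C (S.al k) + C c₂ * C (S.be k) : Coord (Fin 5) 2) = 1 := by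
      rw [← C_mul, ← C_mul, ← C_add, hc, C_1]
    have h1 := congrArg can h0
    rwa [map_add, map_mul, map_mul, map_one] at h1
  have hWi : ∀ i, can (W i) = can (C c₁) * can (MvPolynomial.X (i, 1)) +
      can (C c₂) * can (MvPolynomial.X (i, 2)) := by
    intro i
    rw [hW]
    simp only [map_add, map_mul]
  -- both points are on the line
  have hline : ∀ i : Fin 2, can (C (S.be k)) * can (MvPolynomial.X (i, 1)) =
      can (C (S.al k)) * can (MvPolynomial.X (i, 2)) := by
    have h0 : can (C (S.be k)) * can (MvPolynomial.X (0, 1)) =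
        can (C (S.al k)) * can (MvPolynomial.X (0, 2)) := by
      rw [map_sub, map_mul, map_mul, sub_eq_zero] at hell
      exact hell
    have hminor := hV _ S.pV_minor
    rw [map_sub, map_mul, map_mul, sub_eq_zero] at hminor
    have hw0 := hunit _ (hWn 0)
    rw [hWi 0] at hw0
    intro i
    fin_cases i
    · exact h0
    · have h2 : (can (C c₁) * can (MvPolynomial.X (0, 1)) +
          can (C c₂) * can (MvPolynomial.X (0, 2))) *
          (can (C (S.be k)) * can (MvPolynomial.X (1, 1)) -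
            can (C (S.al k)) * can (MvPolynomial.X (1, 2))) = 0 := by
        linear_combination (can (C c₁) * can (MvPolynomial.X (1, 1)) + can (C c₂) *
          can (MvPolynomial.X (1, 2))) * h0 - (can (C c₁) * can (C (S.al k)) +
            can (C c₂) * can (C (S.be k))) * hminor
      have h3 := (hw0.mul_right_eq_zero).1 h2
      exact sub_eq_zero.1 h3
  have h1 : ∀ i : Fin 2, can (MvPolynomial.X (i, 1)) = can (C (S.al k)) * can (W i) := by
    intro i
    rw [hWi]
    linear_combination (-(can (MvPolynomial.X (i, 1)))) * hc' + can (C c₂) * hline i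
  have h2 : ∀ i : Fin 2, can (MvPolynomial.X (i, 2)) = can (C (S.be k)) * can (W i) := by
    intro i
    rw [hWi]
    linear_combination (-(can (MvPolynomial.X (i, 2)))) * hc' - can (C c₁) * hline i
  have h3 : ∀ i : Fin 2, can (MvPolynomial.X (i, 3)) = 0 := fun i => hV _ (S.pV_X3 i)
  have h4 : ∀ i : Fin 2, can (MvPolynomial.X (i, 4)) =
      can (C (kS b b' i * S.ga k)) * can (S.uu 2 i) := by
    intro i
    exact S.can_y can i k (kS_sq b b' i) (h1 i) (h2 i) (hV _ (S.pV_sq i))
      (hunit _ (S.ysum_notMem k b b' i))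
  -- the homomorphism from the coordinate ring of the product
  set g : K4 →+* LocMod J (S.pCC k b b').I := eval₂Hom (can.comp C)
    ![can (MvPolynomial.X (0, 0)), can (W 0), can (MvPolynomial.X (1, 0)), can (W 1)] with hg
  have hgC : ∀ x : ℂ, g (algebraMap ℂ K4 x) = can (C x) := by
    intro x
    rw [hg]
    exact eval₂_C _ _ x
  have hgA : ∀ i : Fin 2, g (kA i) = can (MvPolynomial.X (i, 0)) := by
    intro i
    fin_cases i
    · show g (MvPolynomial.X 0) = _
      rw [hg, eval₂Hom_X']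
      rfl
    · show g (MvPolynomial.X 2) = _
      rw [hg, eval₂Hom_X']
      rfl
  have hgW : ∀ i : Fin 2, g (kW i) = can (W i) := by
    intro i
    fin_cases i
    · show g (MvPolynomial.X 1) = _
      rw [hg, eval₂Hom_X']
      rfl
    · show g (MvPolynomial.X 3) = _
      rw [hg, eval₂Hom_X']
      rfl
  refine exists_of_toLocMod_eq_zero (J := J) (Q := (S.pCC k b b').I) ?_
  refine genIdeal_lift S.V (S.ptCC k (sgn b) (sgn b')) can g (fun _ => 1)
    (fun x => (hgC x).symm) (fun v => ?_) hz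
  obtain ⟨i, j⟩ := v
  rw [one_pow, mul_one, ptCC_eq]
  exact S.map_ptC can i g hgC k (kS b b' i) (hgA i) (by rw [hgW]; exact h1 i)
    (by rw [hgW]; exact h2 i) (h3 i) (h4 i) j

end DSData

end Pool.Agent.RCH
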