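import Pool.Agent.RCH.DSPt

/-!
# Inclusions between the points used in the proof for double covers
-/

set_option autoImplicit false

namespace Pool.Agent.RCH

open MvPolynomial

namespace DSData

variable (S : DSData)

lemma lt_bval_map {D L : Type} [CommRing D] [Algebra ℂ D] [CommRing L] [Algebra ℂ L]
    (φ : D →+* L) (hφ : ∀ a : ℂ, φ (algebraMap ℂ D a) = algebraMap ℂ L a) (x y : D)
    (p : MvPolynomial (Fin 2) ℂ) : φ (bval x y p) = bval (φ x) (φ y) p := by
  have h : φ.comp (aeval ![x, y] : MvPolynomial (Fin 2) ℂ →ₐ[ℂ] D).toRingHom =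
      (aeval ![φ x, φ y] : MvPolynomial (Fin 2) ℂ →ₐ[ℂ] L).toRingHom := by
    apply MvPolynomial.ringHom_ext
    · intro a
      simp [hφ]
    · intro j
      fin_cases j <;> simp
  exact congrArg (fun ψ => ψ p) h

/-! ### The double cover and its section -/

/-- the restriction to the section `x_3 = 0` of functions on the double cover -/
noncomputable def resY : S.RX →+* S.RY :=
  AdjoinRoot.lift (aeval (fun j => S.ptY (Fin.castSucc j)) : MvPolynomial (Fin 4) ℂ →ₐ[ℂ] S.RY).toRingHom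
    (S.ptY 4) (by
      have h := S.eqn_ptY
      rw [eqn, map_sub, map_pow, aeval_X, aeval_rename] at h
      rw [Polynomial.eval₂_sub, Polynomial.eval₂_pow, Polynomial.eval₂_X, Polynomial.eval₂_C]
      exact h)

lemma resY_alg (a : ℂ) : S.resY (algebraMap ℂ S.RX a) = algebraMap ℂ S.RY a := by
  have h : algebraMap ℂ S.RX a = AdjoinRoot.of _ (C a) := rfl
  rw [h, resY, AdjoinRoot.lift_of]
  simp

lemma resY_ptX (j : Fin 5) : S.resY (S.ptX j) = S.ptY j := by
  fin_cases j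
  · show S.resY (AdjoinRoot.of _ (MvPolynomial.X 0)) = _
    rw [resY, AdjoinRoot.lift_of]
    simp
  · show S.resY (AdjoinRoot.of _ (MvPolynomial.X 1)) = _
    rw [resY, AdjoinRoot.lift_of]
    simp
  · show S.resY (AdjoinRoot.of _ (MvPolynomial.X 2)) = _
    rw [resY, AdjoinRoot.lift_of]
    simp
  · show S.resY (AdjoinRoot.of _ (MvPolynomial.X 3)) = _
    rw [resY, AdjoinRoot.lift_of]
    simp
  · show S.resY (AdjoinRoot.root _) = _
    rw [resY, AdjoinRoot.lift_root]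
    rfl

lemma lt_ptX3_ne : S.ptX 3 ≠ 0 := by
  intro h
  have hm : (Polynomial.X ^ 2 - Polynomial.C (branch S.p S.s S.r S.q S.P)).Monic :=
    Polynomial.monic_X_pow_sub_C _ (by norm_num)
  have hinj : Function.Injective
      (AdjoinRoot.of (Polynomial.X ^ 2 - Polynomial.C (branch S.p S.s S.r S.q S.P))) := by
    apply AdjoinRoot.of.injective_of_degree_ne_zero
    rw [Polynomial.degree_eq_natDegree hm.ne_zero, Polynomial.natDegree_X_pow_sub_C]
    norm_num
  have h' : AdjoinRoot.of (Polynomial.X ^ 2 - Polynomial.C (branch S.p S.s S.r S.q S.P))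
      (MvPolynomial.X 3) = 0 := h
  rw [← map_zero (AdjoinRoot.of _)] at h'
  exact MvPolynomial.X_ne_zero _ (hinj h')

/-- a ring homomorphism between coordinate rings specialises points -/
lemma lt_genIdeal_le {D L : Type} [CommRing D] [Algebra ℂ D] [CommRing L] [Algebra ℂ L]
    (φ : D →+* L) (hφ : ∀ a : ℂ, φ (algebraMap ℂ D a) = algebraMap ℂ L a)
    (d : Fin 2 × Fin 5 → D) (d' : Fin 2 × Fin 5 → L) (h : ∀ v, φ (d v) = d' v) :
    genIdeal S.V d ≤ genIdeal S.V d' := by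
  intro z hz
  rw [mem_genIdeal_iff] at hz ⊢
  intro e
  have h1 : φ.comp (aeval d : Coord (Fin 5) 2 →ₐ[ℂ] D).toRingHom =
      (aeval d' : Coord (Fin 5) 2 →ₐ[ℂ] L).toRingHom := by
    apply MvPolynomial.ringHom_ext
    · intro a
      simp [hφ]
    · intro v
      simp [h]
  have h2 := congrArg (fun ψ => ψ (weightedHomogeneousComponent (S.V.mdeg 2) e z)) h1
  simp only [AlgHom.toRingHom_eq_coe, RingHom.coe_comp, RingHom.coe_coe,
    Function.comp_apply] at h2
  rw [← h2, hz e, map_zero]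

/-- an injective homomorphism does not change the point -/
lemma lt_genIdeal_of_injective {D L : Type} [CommRing D] [Algebra ℂ D] [CommRing L] [Algebra ℂ L]
    (φ : D →+* L) (hφ : ∀ a : ℂ, φ (algebraMap ℂ D a) = algebraMap ℂ L a)
    (hinj : Function.Injective φ) (d : Fin 2 × Fin 5 → D) :
    genIdeal S.V (fun v => φ (d v)) ≤ genIdeal S.V d := by
  intro z hz
  rw [mem_genIdeal_iff] at hz ⊢
  intro e
  apply hinj
  rw [map_zero]
  have h1 : φ.comp (aeval d : Coord (Fin 5) 2 →ₐ[ℂ] D).toRingHom =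
      (aeval (fun v => φ (d v)) : Coord (Fin 5) 2 →ₐ[ℂ] L).toRingHom := by
    apply MvPolynomial.ringHom_ext
    · intro a
      simp [hφ]
    · intro v
      simp
  have h2 := congrArg (fun ψ => ψ (weightedHomogeneousComponent (S.V.mdeg 2) e z)) h1
  simp only [AlgHom.toRingHom_eq_coe, RingHom.coe_comp, RingHom.coe_coe,
    Function.comp_apply] at h2
  rw [h2, hz e]

lemma pXD_lt : S.pXD.I < S.pYD.I := by
  refine lt_of_le_of_ne ?_ ?_
  · exact S.lt_genIdeal_le S.resY S.resY_alg _ _ (fun v => S.resY_ptX v.2)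
  · intro h
    have h1 : (MvPolynomial.X (0, 3) : Coord (Fin 5) 2) ∈ S.pYD.I :=
      (X_mem_genIdeal S.V _ (0, 3)).mpr rfl
    rw [← h] at h1
    exact S.lt_ptX3_ne ((X_mem_genIdeal S.V _ (0, 3)).mp h1)

/-! ### The fibre product -/

/-- evaluation of `B1` -/
noncomputable def liftB1 {L : Type} [CommRing L] [Algebra ℂ L] (a b l t y : L)
    (h : y ^ 2 = (bval a b S.p * t + bval a b S.s) * (bval a b S.r * t + bval a b S.q)) :
    S.B1 →+* L :=
  qLift _ _ _ _ (aeval ![a, b, l] : A0 →ₐ[ℂ] L).toRingHom t y (by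
    have h1 : ∀ p, (aeval ![a, b, l] : A0 →ₐ[ℂ] L).toRingHom (f2 p) = bval a b p := by
      intro p
      rw [f2, lt_bval_map _ (fun x => by simp)]
      simp
    rw [h1, h1, h1, h1]
    exact h)

section

variable {L : Type} [CommRing L] [Algebra ℂ L] (a b l t y : L)
    (h : y ^ 2 = (bval a b S.p * t + bval a b S.s) * (bval a b S.r * t + bval a b S.q))

lemma liftB1_c1 (x : A0) : S.liftB1 a b l t y h (S.c1 x) = aeval ![a, b, l] x :=
  qLift_C _ _ _ _ x

lemma liftB1_T : S.liftB1 a b l t y h (qT _ _ _ _) = t := qLift_T _ _ _ _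

lemma liftB1_Y : S.liftB1 a b l t y h (qY _ _ _ _) = y := qLift_Y _ _ _ _

lemma liftB1_alg (x : ℂ) : S.liftB1 a b l t y h (algebraMap ℂ S.B1 x) = algebraMap ℂ L x := by
  have h1 : algebraMap ℂ S.B1 x = S.c1 (algebraMap ℂ A0 x) := rfl
  rw [h1, liftB1_c1, AlgHom.commutes]

/-- evaluation of `B2` -/
noncomputable def liftB2 (t' y' : L)
    (h' : y' ^ 2 = (bval (l * a) (l * b) S.p * t' + bval (l * a) (l * b) S.s) *
      (bval (l * a) (l * b) S.r * t' + bval (l * a) (l * b) S.q)) : S.B2 →+* L :=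
  qLift _ _ _ _ (S.liftB1 a b l t y h) t' y' (by
    have h1 : ∀ p, S.liftB1 a b l t y h (S.g2 p) = bval (l * a) (l * b) p := by
      intro p
      rw [g2, lt_bval_map _ (S.liftB1_alg a b l t y h), liftB1_c1, liftB1_c1]
      simp
    rw [h1, h1, h1, h1]
    exact h')

variable (t' y' : L)
    (h' : y' ^ 2 = (bval (l * a) (l * b) S.p * t' + bval (l * a) (l * b) S.s) *
      (bval (l * a) (l * b) S.r * t' + bval (l * a) (l * b) S.q))

lemma liftB2_c2 (x : S.B1) : S.liftB2 a b l t y h t' y' h' (S.c2 x) = S.liftB1 a b l t y h x :=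
  qLift_C _ _ _ _ x

lemma liftB2_T : S.liftB2 a b l t y h t' y' h' (qT _ _ _ _) = t' := qLift_T _ _ _ _

lemma liftB2_Y : S.liftB2 a b l t y h t' y' h' (qY _ _ _ _) = y' := qLift_Y _ _ _ _

lemma liftB2_alg (x : ℂ) :
    S.liftB2 a b l t y h t' y' h' (algebraMap ℂ S.B2 x) = algebraMap ℂ L x := by
  have h1 : algebraMap ℂ S.B2 x = S.c2 (algebraMap ℂ S.B1 x) := rfl
  rw [h1, liftB2_c2, liftB1_alg]

/-- the images of the coordinates of the generic point of the fibre product -/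
lemma liftB2_ptV (v : Fin 2 × Fin 5) : S.liftB2 a b l t y h t' y' h' (S.ptV v) =
    if v.1 = 0 then ![t, a, b, 0, y] v.2 else ![t', l * a, l * b, 0, y'] v.2 := by
  obtain ⟨i, j⟩ := v
  by_cases hi : i = 0
  · subst hi
    rw [if_pos rfl]
    fin_cases j
    · show S.liftB2 a b l t y h t' y' h' (S.c2 (qT _ _ _ _)) = t
      rw [liftB2_c2, liftB1_T]
    · show S.liftB2 a b l t y h t' y' h' (S.c2 (S.c1 (MvPolynomial.X 0))) = a
      rw [liftB2_c2, liftB1_c1]
      simp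
    · show S.liftB2 a b l t y h t' y' h' (S.c2 (S.c1 (MvPolynomial.X 1))) = b
      rw [liftB2_c2, liftB1_c1]
      simp
    · show S.liftB2 a b l t y h t' y' h' 0 = 0
      rw [map_zero]
    · show S.liftB2 a b l t y h t' y' h' (S.c2 (qY _ _ _ _)) = y
      rw [liftB2_c2, liftB1_Y]
  · have hi1 : i = 1 := by omega
    subst hi1
    rw [if_neg hi]
    fin_cases j
    · show S.liftB2 a b l t y h t' y' h' (qT _ _ _ _) = t'
      rw [liftB2_T]
    · show S.liftB2 a b l t y h t' y' h' (S.c2 (S.c1 (MvPolynomial.X 2 * MvPolynomial.X 0))) = l * a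
      rw [liftB2_c2, liftB1_c1]
      simp
    · show S.liftB2 a b l t y h t' y' h' (S.c2 (S.c1 (MvPolynomial.X 2 * MvPolynomial.X 1))) = l * b
      rw [liftB2_c2, liftB1_c1]
      simp
    · show S.liftB2 a b l t y h t' y' h' 0 = 0
      rw [map_zero]
    · show S.liftB2 a b l t y h t' y' h' (qY _ _ _ _) = y'
      rw [liftB2_Y]

end

lemma ptY_sq : S.ptY 4 ^ 2 =
    (bval (S.ptY 1) (S.ptY 2) S.p * S.ptY 0 + bval (S.ptY 1) (S.ptY 2) S.s) *
      (bval (S.ptY 1) (S.ptY 2) S.r * S.ptY 0 + bval (S.ptY 1) (S.ptY 2) S.q) := by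
  have h := S.eqn_ptY
  rw [aeval_eqn] at h
  have h3 : S.ptY 3 = 0 := rfl
  rw [h3, zero_mul, add_zero, sub_eq_zero] at h
  exact h

/-- restriction of functions on the fibre product to the diagonal -/
noncomputable def resD : S.B2 →+* S.RY :=
  S.liftB2 (S.ptY 1) (S.ptY 2) 1 (S.ptY 0) (S.ptY 4) S.ptY_sq (S.ptY 0) (S.ptY 4)
    (by rw [one_mul, one_mul]; exact S.ptY_sq)

lemma resD_ptV (v : Fin 2 × Fin 5) : S.resD (S.ptV v) = S.ptY v.2 := by
  rw [resD, liftB2_ptV, one_mul, one_mul, ite_self]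
  obtain ⟨i, j⟩ := v
  fin_cases j <;> rfl

/-- the minor `x_0 x_1' - x_0' x_1` is not in the ideal of the fibre product -/
lemma lt_minor_notMem : (MvPolynomial.X (0, 0) * MvPolynomial.X (1, 1) -
    MvPolynomial.X (1, 0) * MvPolynomial.X (0, 1) : Coord (Fin 5) 2) ∉ S.pV.I := by
  intro h
  have h1 := aeval_of_mem S.V S.ptV h
  have h00 : S.ptV (0, 0) = S.c2 (qT _ _ _ _) := rfl
  have h01 : S.ptV (0, 1) = S.c2 (S.c1 (MvPolynomial.X 0)) := rfl
  have h10 : S.ptV (1, 0) = qT _ _ _ _ := rfl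
  have h11 : S.ptV (1, 1) = S.c2 (S.c1 (MvPolynomial.X 2 * MvPolynomial.X 0)) := rfl
  rw [map_sub, map_mul, map_mul, aeval_X, aeval_X, aeval_X, aeval_X, h00, h01, h10, h11] at h1
  have h2 : qC (S.g2 S.p) (S.g2 S.s) (S.g2 S.r) (S.g2 S.q) (- S.c1 (MvPolynomial.X 0)) *
      qT _ _ _ _ + qC (S.g2 S.p) (S.g2 S.s) (S.g2 S.r) (S.g2 S.q)
        (qT _ _ _ _ * S.c1 (MvPolynomial.X 2 * MvPolynomial.X 0)) = 0 := by
    rw [← h1, map_neg, map_mul]
    show -(S.c2 (S.c1 (MvPolynomial.X 0))) * _ + S.c2 _ * S.c2 _ = _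
    ring
  refine qlin_ne_zero (Or.inl ?_) h2
  rw [neg_ne_zero]
  intro h3
  exact MvPolynomial.X_ne_zero (R := ℂ) (0 : Fin 3) (S.c1_injective (by rw [h3, map_zero]))

lemma lt_minor_pYD : (MvPolynomial.X (0, 0) * MvPolynomial.X (1, 1) -
    MvPolynomial.X (1, 0) * MvPolynomial.X (0, 1) : Coord (Fin 5) 2) ∈ S.pYD.I := by
  show genHom S.V _ _ = 0
  rw [map_sub, map_mul, map_mul, genHom, aeval_X, aeval_X, aeval_X, aeval_X]
  simp only [wt0, wt1]
  ring

lemma pV_lt_pYD : S.pV.I < S.pYD.I := by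
  refine lt_of_le_of_ne ?_ ?_
  · refine S.lt_genIdeal_le S.resD ?_ _ _ S.resD_ptV
    intro a
    exact S.liftB2_alg _ _ _ _ _ _ _ _ _ a
  · intro h
    have h1 := S.lt_minor_pYD
    rw [← h] at h1
    exact S.lt_minor_notMem h1

/-- the relation on the curves over the roots -/
lemma lt_ptC_sq {D : Type} [CommRing D] [Algebra ℂ D] (k : Fin S.t) (ε : ℂ) (he : ε ^ 2 = 1)
    (a w : D) : (S.ptC k ε a w 4) ^ 2 =
      (bval (S.ptC k ε a w 1) (S.ptC k ε a w 2) S.p * S.ptC k ε a w 0 +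
        bval (S.ptC k ε a w 1) (S.ptC k ε a w 2) S.s) *
      (bval (S.ptC k ε a w 1) (S.ptC k ε a w 2) S.r * S.ptC k ε a w 0 +
        bval (S.ptC k ε a w 1) (S.ptC k ε a w 2) S.q) := by
  have h := S.eqn_ptC k ε he a w
  rw [aeval_eqn] at h
  have h3 : S.ptC k ε a w 3 = 0 := rfl
  rw [h3, zero_mul, add_zero, sub_eq_zero] at h
  exact h

lemma lt_ptC_map {D L : Type} [CommRing D] [Algebra ℂ D] [CommRing L] [Algebra ℂ L]
    (φ : D →+* L) (hφ : ∀ a : ℂ, φ (algebraMap ℂ D a) = algebraMap ℂ L a) (k : Fin S.t) (ε : ℂ)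
    (a w : D) (j : Fin 5) : φ (S.ptC k ε a w j) = S.ptC k ε (φ a) (φ w) j := by
  fin_cases j
  · rfl
  · show φ (algebraMap ℂ D (S.al k) * w) = algebraMap ℂ L (S.al k) * φ w
    rw [map_mul, hφ]
  · show φ (algebraMap ℂ D (S.be k) * w) = algebraMap ℂ L (S.be k) * φ w
    rw [map_mul, hφ]
  · exact map_zero φ
  · show φ (algebraMap ℂ D (ε * S.ga k) * S.uC k a w) =
      algebraMap ℂ L (ε * S.ga k) * S.uC k (φ a) (φ w)
    have hu : φ (S.uC k a w) = S.uC k (φ a) (φ w) := by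
      simp only [uC, map_add, map_mul, lt_bval_map φ hφ, hφ]
    rw [map_mul, hφ, hu]

lemma pV_le_pCC (k : Fin S.t) (b b' : Bool) : S.pV.I ≤ (S.pCC k b b').I := by
  obtain ⟨K, hK, hA, i, hi, hinj⟩ : ∃ (K : Type) (_ : Field K) (_ : Algebra ℂ K) (i : K4 →+* K),
      (∀ a : ℂ, i (algebraMap ℂ K4 a) = algebraMap ℂ K a) ∧ Function.Injective i :=
    ⟨FractionRing K4, inferInstance, inferInstance, algebraMap K4 (FractionRing K4),
      fun a => (IsScalarTower.algebraMap_apply ℂ K4 (FractionRing K4) a).symm,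
      IsFractionRing.injective K4 (FractionRing K4)⟩
  refine le_trans ?_ (S.lt_genIdeal_of_injective i hi hinj _)
  set x : K := i (MvPolynomial.X 0) with hx
  set w : K := i (MvPolynomial.X 1) with hw
  set x' : K := i (MvPolynomial.X 2) with hx'
  set w' : K := i (MvPolynomial.X 3) with hw'
  have hw0 : w ≠ 0 := by
    intro h
    exact MvPolynomial.X_ne_zero (R := ℂ) (1 : Fin 4) (hinj (by rw [map_zero]; exact h))
  have h1 : w' / w * S.ptC k (sgn b) x w 1 = S.ptC k (sgn b') x' w' 1 := by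
    show w' / w * (algebraMap ℂ K (S.al k) * w) = algebraMap ℂ K (S.al k) * w'
    rw [mul_left_comm, div_mul_cancel₀ _ hw0]
  have h2 : w' / w * S.ptC k (sgn b) x w 2 = S.ptC k (sgn b') x' w' 2 := by
    show w' / w * (algebraMap ℂ K (S.be k) * w) = algebraMap ℂ K (S.be k) * w'
    rw [mul_left_comm, div_mul_cancel₀ _ hw0]
  have hs := S.lt_ptC_sq k (sgn b') (sgn_sq b') x' w'
  rw [← h1, ← h2] at hs
  refine S.lt_genIdeal_le (S.liftB2 (S.ptC k (sgn b) x w 1) (S.ptC k (sgn b) x w 2) (w' / w)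
    (S.ptC k (sgn b) x w 0) (S.ptC k (sgn b) x w 4) (S.lt_ptC_sq k (sgn b) (sgn_sq b) x w)
    (S.ptC k (sgn b') x' w' 0) (S.ptC k (sgn b') x' w' 4) hs) ?_ _ _ ?_
  · intro a
    exact S.liftB2_alg _ _ _ _ _ _ _ _ _ a
  · rintro ⟨l, j⟩
    rw [liftB2_ptV]
    by_cases hl : l = 0
    · subst hl
      rw [if_pos rfl]
      have h3 : i (S.ptCC k (sgn b) (sgn b') (0, j)) = S.ptC k (sgn b) x w j := by
        show i (S.ptC k (sgn b) (MvPolynomial.X 0) (MvPolynomial.X 1) j) = _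
        rw [S.lt_ptC_map i hi]
      rw [h3]
      fin_cases j <;> rfl
    · have hl1 : l = 1 := by omega
      subst hl1
      rw [if_neg hl]
      have h3 : i (S.ptCC k (sgn b) (sgn b') (1, j)) = S.ptC k (sgn b') x' w' j := by
        show i (S.ptC k (sgn b') (MvPolynomial.X 2) (MvPolynomial.X 3) j) = _
        rw [S.lt_ptC_map i hi]
      rw [h3, h1, h2]
      fin_cases j <;> rfl

lemma lt_ell_notMem (k : Fin S.t) : S.ell k ∉ S.pV.I := by
  intro h
  have h1 := aeval_of_mem S.V S.ptV h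
  have h01 : S.ptV (0, 1) = S.c2 (S.c1 (MvPolynomial.X 0)) := rfl
  have h02 : S.ptV (0, 2) = S.c2 (S.c1 (MvPolynomial.X 1)) := rfl
  have hc : ∀ a : ℂ, algebraMap ℂ S.B2 a = S.c2 (S.c1 (C a)) := fun a => rfl
  rw [ell, map_sub, map_mul, map_mul, aeval_X, aeval_X, aeval_C, aeval_C, h01, h02, hc, hc,
    ← map_mul, ← map_mul, ← map_mul, ← map_mul, ← map_sub, ← map_sub] at h1
  have h2 : (C (S.be k) * MvPolynomial.X 0 - C (S.al k) * MvPolynomial.X 1 : A0) = 0 :=
    S.c1_injective (S.c2_injective (by rw [h1, map_zero, map_zero]))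
  have h3 := congrArg (eval ![(1 : ℂ), 0, 0]) h2
  have h4 := congrArg (eval ![(0 : ℂ), 1, 0]) h2
  simp at h3 h4
  rcases S.hne k with h | h
  · exact h h4
  · exact h h3

lemma lt_ell_mem (k : Fin S.t) (b b' : Bool) : S.ell k ∈ (S.pCC k b b').I := by
  show genHom S.V _ _ = 0
  have h1 : S.ptCC k (sgn b) (sgn b') (0, 1) = algebraMap ℂ K4 (S.al k) * MvPolynomial.X 1 := rfl
  have h2 : S.ptCC k (sgn b) (sgn b') (0, 2) = algebraMap ℂ K4 (S.be k) * MvPolynomial.X 1 := rfl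
  rw [ell, map_sub, map_mul, map_mul, genHom, aeval_X, aeval_X, aeval_C, aeval_C, h1, h2]
  simp only [wt1, wt2]
  have h3 : ∀ a : ℂ, algebraMap ℂ (MvPolynomial (Fin 2) K4) a = C (algebraMap ℂ K4 a) :=
    fun a => rfl
  rw [h3, h3, map_mul, map_mul]
  ring

lemma pV_lt_pCC (k : Fin S.t) (b b' : Bool) : S.pV.I < (S.pCC k b b').I := by
  refine lt_of_le_of_ne (S.pV_le_pCC k b b') ?_
  intro h
  have h1 := S.lt_ell_mem k b b'
  rw [← h] at h1
  exact S.lt_ell_notMem k h1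

end DSData

end Pool.Agent.RCH
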