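import Pool.Agent.RCH.DSPt
import Pool.Agent.RCH.DSHom
import Pool.Agent.RCH.Homg

/-!
# Elements which lie, and elements which do not lie, in the ideals of the points
-/

set_option autoImplicit false

namespace Pool.Agent.RCH

open MvPolynomial

/-- An element with nonzero value is not in the ideal of the point. -/
lemma notMem_genIdeal_nt {ι : Type} (X : WVar ι) {N : ℕ} {D : Type} [CommRing D] [Algebra ℂ D]
    (d : Fin N × ι → D) {z : Coord ι N} (h : aeval d z ≠ 0) : z ∉ genIdeal X d :=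
  fun hz => h (aeval_of_mem X d hz)

section QDn

variable {A : Type} [CommRing A] {a b c d : A}

/-- elements of the quadratic extension with nonzero second coordinate are not zero -/
lemma qnf_ne_zero_nt [IsDomain A] (x : Polynomial A) {y : Polynomial A} (hy : y ≠ 0) :
    AdjoinRoot.of (qpoly a b c d) x + AdjoinRoot.of (qpoly a b c d) y * qY a b c d ≠ 0 := by
  intro h0
  have h1 : AdjoinRoot.mk (qpoly a b c d) (Polynomial.C x + Polynomial.C y * Polynomial.X) =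
      AdjoinRoot.of (qpoly a b c d) x + AdjoinRoot.of (qpoly a b c d) y * qY a b c d := by
    rw [map_add, map_mul, AdjoinRoot.mk_C, AdjoinRoot.mk_C, AdjoinRoot.mk_X]
    rfl
  have hc : (Polynomial.C x + Polynomial.C y * Polynomial.X : Polynomial (Polynomial A)).coeff 1 =
      y := by
    simp
  refine AdjoinRoot.mk_ne_zero_of_natDegree_lt qpoly_monic (g := Polynomial.C x +
    Polynomial.C y * Polynomial.X) ?_ ?_ (h1.trans h0)
  · intro h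
    rw [h] at hc
    exact hy (by rw [← hc]; simp)
  · rw [qpoly_degree]
    refine lt_of_le_of_lt (Polynomial.natDegree_add_le _ _) ?_
    rw [max_lt_iff]
    constructor
    · rw [Polynomial.natDegree_C]; norm_num
    · refine lt_of_le_of_lt ((Polynomial.natDegree_C_mul_le _ _).trans
        Polynomial.natDegree_X_le) ?_
      norm_num

lemma qY_ne_zero_nt [IsDomain A] (h : a * d - b * c ≠ 0) : qY a b c d ≠ 0 := by
  have := isDomain_QD h
  intro h0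
  have h1 := qY_sq a b c d
  rw [h0, zero_pow (two_ne_zero)] at h1
  rcases mul_eq_zero.mp h1.symm with h2 | h2
  · refine qlin_ne_zero (a := a) (b := b) (c := c) (d := d) (e := a) (f := b) ?_ h2
    by_contra hcon
    push Not at hcon
    exact h (by rw [hcon.1, hcon.2]; ring)
  · refine qlin_ne_zero (a := a) (b := b) (c := c) (d := d) (e := c) (f := d) ?_ h2
    by_contra hcon
    push Not at hcon
    exact h (by rw [hcon.1, hcon.2]; ring)

end QDn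

namespace DSData

variable (S : DSData)

lemma aeval_bin_nt {N : ℕ} {D : Type} [CommRing D] [Algebra ℂ D] (d : Fin N × Fin 5 → D) (i : Fin N)
    (p : MvPolynomial (Fin 2) ℂ) :
    aeval d (aeval ![(MvPolynomial.X (i, 1) : Coord (Fin 5) N), MvPolynomial.X (i, 2)] p) =
      bval (d (i, 1)) (d (i, 2)) p := by
  have h : (aeval d).comp (aeval ![(MvPolynomial.X (i, 1) : Coord (Fin 5) N),
      MvPolynomial.X (i, 2)]) = aeval ![d (i, 1), d (i, 2)] := by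
    ext j
    fin_cases j <;> simp
  exact congrArg (fun ψ => ψ p) h

lemma aeval_uu_nt {N : ℕ} {D : Type} [CommRing D] [Algebra ℂ D] (d : Fin N × Fin 5 → D) (i : Fin N) :
    aeval d (S.uu N i) =
      bval (d (i, 1)) (d (i, 2)) S.p * d (i, 0) + bval (d (i, 1)) (d (i, 2)) S.s := by
  rw [uu, map_add, map_mul, aeval_bin_nt, aeval_bin_nt, aeval_X]

lemma aeval_vv_nt {N : ℕ} {D : Type} [CommRing D] [Algebra ℂ D] (d : Fin N × Fin 5 → D) (i : Fin N) :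
    aeval d (S.vv N i) =
      bval (d (i, 1)) (d (i, 2)) S.r * d (i, 0) + bval (d (i, 1)) (d (i, 2)) S.q := by
  rw [vv, map_add, map_mul, aeval_bin_nt, aeval_bin_nt, aeval_X]

lemma two_ne_zero_of_algebra_nt {D : Type} [CommRing D] [IsDomain D] [Algebra ℂ D] : (2 : D) ≠ 0 := by
  intro h
  have h1 : algebraMap ℂ D 2 = 0 := by rw [map_ofNat]; exact h
  exact two_ne_zero ((map_eq_zero (algebraMap ℂ D)).mp h1)

lemma ps_ne_nt : S.p ≠ 0 ∨ S.s ≠ 0 := by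
  by_contra h
  push Not at h
  exact S.W_ne_zero (by rw [h.1, h.2]; ring)

lemma rq_ne_nt : S.r ≠ 0 ∨ S.q ≠ 0 := by
  by_contra h
  push Not at h
  exact S.W_ne_zero (by rw [h.1, h.2]; ring)

/-! ### The diagonal of `Y` -/

lemma uu_ptY_nt (i : Fin 2) :
    aeval (fun v : Fin 2 × Fin 5 => S.ptY v.2) (S.uu 2 i) =
      qC S.p S.s S.r S.q S.p * qT S.p S.s S.r S.q + qC S.p S.s S.r S.q S.s := by
  rw [aeval_uu_nt]
  have h0 : S.ptY 0 = qT _ _ _ _ := rfl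
  have h1 : S.ptY 1 = qC _ _ _ _ (MvPolynomial.X 0) := rfl
  have h2 : S.ptY 2 = qC _ _ _ _ (MvPolynomial.X 1) := rfl
  have hb := bval_X
  simp only [bval] at hb
  rw [h0, h1, h2, bval_qC, bval_qC, hb, hb]

lemma vv_ptY_nt (i : Fin 2) :
    aeval (fun v : Fin 2 × Fin 5 => S.ptY v.2) (S.vv 2 i) =
      qC S.p S.s S.r S.q S.r * qT S.p S.s S.r S.q + qC S.p S.s S.r S.q S.q := by
  rw [aeval_vv_nt]
  have h0 : S.ptY 0 = qT _ _ _ _ := rfl
  have h1 : S.ptY 1 = qC _ _ _ _ (MvPolynomial.X 0) := rfl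
  have h2 : S.ptY 2 = qC _ _ _ _ (MvPolynomial.X 1) := rfl
  have hb := bval_X
  simp only [bval] at hb
  rw [h0, h1, h2, bval_qC, bval_qC, hb, hb]

lemma uu_ptY_ne_nt (i : Fin 2) :
    aeval (fun v : Fin 2 × Fin 5 => S.ptY v.2) (S.uu 2 i) ≠ 0 := by
  rw [uu_ptY_nt]
  exact qlin_ne_zero S.ps_ne_nt

lemma vv_ptY_ne_nt (i : Fin 2) :
    aeval (fun v : Fin 2 × Fin 5 => S.ptY v.2) (S.vv 2 i) ≠ 0 := by
  rw [vv_ptY_nt]
  exact qlin_ne_zero S.rq_ne_nt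

lemma X1_notMem_pYD (i : Fin 2) : (MvPolynomial.X (i, 1) : Coord (Fin 5) 2) ∉ S.pYD.I := by
  intro h
  have h1 : S.ptY 1 = 0 := (X_mem_genIdeal S.V _ (i, 1)).mp h
  exact MvPolynomial.X_ne_zero (R := ℂ) (0 : Fin 2) (qC_injective (by rw [map_zero]; exact h1))

lemma X2_notMem_pYD (i : Fin 2) : (MvPolynomial.X (i, 2) : Coord (Fin 5) 2) ∉ S.pYD.I := by
  intro h
  have h1 : S.ptY 2 = 0 := (X_mem_genIdeal S.V _ (i, 2)).mp h
  exact MvPolynomial.X_ne_zero (R := ℂ) (1 : Fin 2) (qC_injective (by rw [map_zero]; exact h1))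

lemma X4_notMem_pYD (i : Fin 2) : (MvPolynomial.X (i, 4) : Coord (Fin 5) 2) ∉ S.pYD.I := by
  intro h
  have h1 : S.ptY 4 = 0 := (X_mem_genIdeal S.V _ (i, 4)).mp h
  exact qY_ne_zero_nt S.W_ne_zero h1

lemma uu_notMem_pYD (i : Fin 2) : S.uu 2 i ∉ S.pYD.I :=
  notMem_genIdeal_nt S.V _ (S.uu_ptY_ne_nt i)

lemma vv_notMem_pYD (i : Fin 2) : S.vv 2 i ∉ S.pYD.I :=
  notMem_genIdeal_nt S.V _ (S.vv_ptY_ne_nt i)

lemma X3_mem_pYD (i : Fin 2) : (MvPolynomial.X (i, 3) : Coord (Fin 5) 2) ∈ S.pYD.I :=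
  (X_mem_genIdeal S.V _ (i, 3)).mpr rfl

lemma NN_mem_pYD :
    (MvPolynomial.X (0, 4) * S.uu 2 1 - MvPolynomial.X (1, 4) * S.uu 2 0) ∈ S.pYD.I := by
  refine (mem_genIdeal_of_homogeneous S.V _ S.NN_homogeneous).mpr ?_
  rw [map_sub, map_mul, map_mul, aeval_X, aeval_X, uu_ptY_nt, uu_ptY_nt, sub_self]

lemma DD_notMem_pYD :
    (MvPolynomial.X (0, 4) * S.uu 2 1 + MvPolynomial.X (1, 4) * S.uu 2 0) ∉ S.pYD.I := by
  refine notMem_genIdeal_nt S.V _ ?_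
  have h1 : S.ptY 4 ≠ 0 := qY_ne_zero_nt S.W_ne_zero
  have h2 := S.uu_ptY_ne_nt 0
  rw [uu_ptY_nt] at h2
  rw [map_add, map_mul, map_mul, aeval_X, aeval_X, uu_ptY_nt, uu_ptY_nt, ← two_mul]
  exact mul_ne_zero two_ne_zero_of_algebra_nt (mul_ne_zero h1 h2)

/-! ### The diagonal of the double cover -/

lemma ptX_of_ne_nt (j : Fin 4) :
    (AdjoinRoot.of (Polynomial.X ^ 2 - Polynomial.C (branch S.p S.s S.r S.q S.P)))
      (MvPolynomial.X j) ≠ 0 := by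
  intro h'
  have hm : (Polynomial.X ^ 2 - Polynomial.C (branch S.p S.s S.r S.q S.P)).Monic :=
    Polynomial.monic_X_pow_sub_C _ (by norm_num)
  have hinj : Function.Injective
      (AdjoinRoot.of (Polynomial.X ^ 2 - Polynomial.C (branch S.p S.s S.r S.q S.P))) := by
    apply AdjoinRoot.of.injective_of_degree_ne_zero
    rw [Polynomial.degree_eq_natDegree hm.ne_zero, Polynomial.natDegree_X_pow_sub_C]
    norm_num
  rw [← map_zero (AdjoinRoot.of _)] at h'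
  exact MvPolynomial.X_ne_zero _ (hinj h')

lemma X_castSucc_notMem_pXD (i : Fin 2) (j : Fin 4) :
    (MvPolynomial.X (i, Fin.castSucc j) : Coord (Fin 5) 2) ∉ S.pXD.I := by
  intro h
  have h1 : S.ptX (Fin.castSucc j) = 0 := (X_mem_genIdeal S.V _ (i, Fin.castSucc j)).mp h
  have h2 : S.ptX (Fin.castSucc j) = AdjoinRoot.of _ (MvPolynomial.X j) := by
    fin_cases j <;> rfl
  exact S.ptX_of_ne_nt j (h2.symm.trans h1)

lemma X3_notMem_pXD (i : Fin 2) : (MvPolynomial.X (i, 3) : Coord (Fin 5) 2) ∉ S.pXD.I :=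
  S.X_castSucc_notMem_pXD i 3

lemma X4_notMem_pXD (i : Fin 2) : (MvPolynomial.X (i, 4) : Coord (Fin 5) 2) ∉ S.pXD.I := by
  intro h
  have h1 : S.ptX 4 = 0 := (X_mem_genIdeal S.V _ (i, 4)).mp h
  have hm : (Polynomial.X ^ 2 - Polynomial.C (branch S.p S.s S.r S.q S.P)).Monic :=
    Polynomial.monic_X_pow_sub_C _ (by norm_num)
  refine AdjoinRoot.mk_ne_zero_of_natDegree_lt hm (g := Polynomial.X) Polynomial.X_ne_zero ?_ ?_
  · rw [Polynomial.natDegree_X_pow_sub_C, Polynomial.natDegree_X]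
    norm_num
  · rw [AdjoinRoot.mk_X]
    exact h1

/-! ### The fibre product -/

lemma bval_c1_nt (p : MvPolynomial (Fin 2) ℂ) :
    bval (S.c1 (MvPolynomial.X 0)) (S.c1 (MvPolynomial.X 1)) p = S.c1 (f2 p) := by
  rw [c1, bval_qC]
  rfl

lemma bval_c2_nt (x y : S.B1) (p : MvPolynomial (Fin 2) ℂ) :
    bval (S.c2 x) (S.c2 y) p = S.c2 (bval x y p) :=
  bval_qC _ _ _ _ x y p

lemma uu_ptV_zero_nt : aeval S.ptV (S.uu 2 0) =
    S.c2 (S.c1 (f2 S.p) * qT _ _ _ _ + S.c1 (f2 S.s)) := by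
  rw [aeval_uu_nt]
  have h0 : S.ptV (0, 0) = S.c2 (qT _ _ _ _) := rfl
  have h1 : S.ptV (0, 1) = S.c2 (S.c1 (MvPolynomial.X 0)) := rfl
  have h2 : S.ptV (0, 2) = S.c2 (S.c1 (MvPolynomial.X 1)) := rfl
  rw [h0, h1, h2, bval_c2_nt, bval_c2_nt, bval_c1_nt, bval_c1_nt, ← map_mul, ← map_add]

lemma uu_ptV_one_nt : aeval S.ptV (S.uu 2 1) =
    qC (S.g2 S.p) (S.g2 S.s) (S.g2 S.r) (S.g2 S.q) (S.g2 S.p) * qT _ _ _ _ +
      qC (S.g2 S.p) (S.g2 S.s) (S.g2 S.r) (S.g2 S.q) (S.g2 S.s) := by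
  rw [aeval_uu_nt]
  have h0 : S.ptV (1, 0) = qT _ _ _ _ := rfl
  have h1 : S.ptV (1, 1) = S.c2 (S.c1 (MvPolynomial.X 2 * MvPolynomial.X 0)) := rfl
  have h2 : S.ptV (1, 2) = S.c2 (S.c1 (MvPolynomial.X 2 * MvPolynomial.X 1)) := rfl
  rw [h0, h1, h2, c2, bval_qC, bval_qC]
  rfl

lemma f2_W_ne_nt : f2 S.p * f2 S.q - f2 S.s * f2 S.r ≠ 0 := by
  have h : f2 S.p * f2 S.q - f2 S.s * f2 S.r = f2 (S.p * S.q - S.s * S.r) := by
    simp only [f2, bval_sub, bval_mul]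
  rw [h]
  intro h0
  apply S.W_ne_zero
  apply f2_injective
  rw [h0]
  simp [f2, bval]

lemma f2_ps_ne_nt : f2 S.p ≠ 0 ∨ f2 S.s ≠ 0 := by
  by_contra h
  push Not at h
  exact S.f2_W_ne_nt (by rw [h.1, h.2]; ring)

lemma U1_ne_zero_nt : (S.c1 (f2 S.p) * qT _ _ _ _ + S.c1 (f2 S.s) : S.B1) ≠ 0 :=
  qlin_ne_zero S.f2_ps_ne_nt

lemma uu0_notMem_pV : S.uu 2 0 ∉ S.pV.I := by
  refine notMem_genIdeal_nt S.V _ ?_
  rw [uu_ptV_zero_nt]
  intro h
  rw [← map_zero S.c2] at h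
  exact S.U1_ne_zero_nt (S.c2_injective h)

lemma NN_notMem_pV :
    (MvPolynomial.X (0, 4) * S.uu 2 1 - MvPolynomial.X (1, 4) * S.uu 2 0) ∉ S.pV.I := by
  refine notMem_genIdeal_nt S.V _ ?_
  have h0 : S.ptV (0, 4) = S.c2 (qY _ _ _ _) := rfl
  have h1 : S.ptV (1, 4) = qY _ _ _ _ := rfl
  rw [map_sub, map_mul, map_mul, aeval_X, aeval_X, uu_ptV_zero_nt, uu_ptV_one_nt, h0, h1]
  have h2 := qnf_ne_zero_nt (a := S.g2 S.p) (b := S.g2 S.s) (c := S.g2 S.r) (d := S.g2 S.q)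
    (Polynomial.C (qY (f2 S.p) (f2 S.s) (f2 S.r) (f2 S.q)) *
      (Polynomial.C (S.g2 S.p) * Polynomial.X + Polynomial.C (S.g2 S.s)))
    (y := - Polynomial.C (S.c1 (f2 S.p) * qT _ _ _ _ + S.c1 (f2 S.s)))
    (by rw [neg_ne_zero, Polynomial.C_ne_zero]; exact S.U1_ne_zero_nt)
  intro h3
  apply h2
  rw [← h3]
  simp only [map_mul, map_add, map_neg]
  simp only [c2, qC, qT, RingHom.comp_apply]
  ring

lemma DD_notMem_pV :
    (MvPolynomial.X (0, 4) * S.uu 2 1 + MvPolynomial.X (1, 4) * S.uu 2 0) ∉ S.pV.I := by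
  refine notMem_genIdeal_nt S.V _ ?_
  have h0 : S.ptV (0, 4) = S.c2 (qY _ _ _ _) := rfl
  have h1 : S.ptV (1, 4) = qY _ _ _ _ := rfl
  rw [map_add, map_mul, map_mul, aeval_X, aeval_X, uu_ptV_zero_nt, uu_ptV_one_nt, h0, h1]
  have h2 := qnf_ne_zero_nt (a := S.g2 S.p) (b := S.g2 S.s) (c := S.g2 S.r) (d := S.g2 S.q)
    (Polynomial.C (qY (f2 S.p) (f2 S.s) (f2 S.r) (f2 S.q)) *
      (Polynomial.C (S.g2 S.p) * Polynomial.X + Polynomial.C (S.g2 S.s)))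
    (y := Polynomial.C (S.c1 (f2 S.p) * qT _ _ _ _ + S.c1 (f2 S.s)))
    (by rw [Polynomial.C_ne_zero]; exact S.U1_ne_zero_nt)
  intro h3
  apply h2
  rw [← h3]
  simp only [map_mul, map_add]
  simp only [c2, qC, qT, RingHom.comp_apply]
  ring

lemma X40_notMem_pV : (MvPolynomial.X (0, 4) : Coord (Fin 5) 2) ∉ S.pV.I := by
  intro h
  have h1 : S.ptV (0, 4) = 0 := (X_mem_genIdeal S.V _ (0, 4)).mp h
  have h2 : S.c2 (qY _ _ _ _) = 0 := h1
  rw [← map_zero S.c2] at h2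
  exact qY_ne_zero_nt S.f2_W_ne_nt (S.c2_injective h2)

lemma ell_notMem_pV (k : Fin S.t) :
    (C (S.be k) * MvPolynomial.X (0, 1) - C (S.al k) * MvPolynomial.X (0, 2) :
      Coord (Fin 5) 2) ∉ S.pV.I := by
  refine notMem_genIdeal_nt S.V _ ?_
  have h1 : S.ptV (0, 1) = S.c2 (S.c1 (MvPolynomial.X 0)) := rfl
  have h2 : S.ptV (0, 2) = S.c2 (S.c1 (MvPolynomial.X 1)) := rfl
  have h3 : ∀ x : ℂ, aeval S.ptV (C x : Coord (Fin 5) 2) = S.c2 (S.c1 (C x)) := by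
    intro x
    rw [← MvPolynomial.algebraMap_eq, AlgHom.commutes]
    rfl
  rw [map_sub, map_mul, map_mul, aeval_X, aeval_X, h1, h2, h3, h3, ← map_mul, ← map_mul,
    ← map_mul, ← map_mul, ← map_sub, ← map_sub]
  intro h4
  rw [← map_zero S.c2] at h4
  have h5 := S.c2_injective h4
  rw [← map_zero S.c1] at h5
  have h6 := S.c1_injective h5
  have h7 : f2 (C (S.be k) * MvPolynomial.X 0 - C (S.al k) * MvPolynomial.X 1) = f2 0 := by
    have h8 : f2 0 = 0 := by simp [f2, bval]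
    rw [h8, ← h6]
    simp [f2, bval]
  exact linear_ne_zero (S.hne k) (f2_injective h7)

lemma delta1_notMem_pV :
    (MvPolynomial.X (0, 0) * MvPolynomial.X (1, 1) - MvPolynomial.X (1, 0) * MvPolynomial.X (0, 1) :
      Coord (Fin 5) 2) ∉ S.pV.I := by
  refine notMem_genIdeal_nt S.V _ ?_
  have h0 : S.ptV (0, 0) = S.c2 (qT _ _ _ _) := rfl
  have h1 : S.ptV (0, 1) = S.c2 (S.c1 (MvPolynomial.X 0)) := rfl
  have h2 : S.ptV (1, 0) = qT _ _ _ _ := rfl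
  have h3 : S.ptV (1, 1) = S.c2 (S.c1 (MvPolynomial.X 2 * MvPolynomial.X 0)) := rfl
  rw [map_sub, map_mul, map_mul, aeval_X, aeval_X, aeval_X, aeval_X, h0, h1, h2, h3, ← map_mul]
  have h4 := qlin_ne_zero (a := S.g2 S.p) (b := S.g2 S.s) (c := S.g2 S.r) (d := S.g2 S.q)
    (e := - S.c1 (MvPolynomial.X 0))
    (f := qT (f2 S.p) (f2 S.s) (f2 S.r) (f2 S.q) * S.c1 (MvPolynomial.X 2 * MvPolynomial.X 0))
    (Or.inl (by
      rw [neg_ne_zero]
      intro h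
      rw [← map_zero S.c1] at h
      exact MvPolynomial.X_ne_zero _ (S.c1_injective h)))
  intro h5
  apply h4
  rw [← h5, map_neg]
  simp only [c2]
  ring

lemma delta2_notMem_pV :
    (MvPolynomial.X (0, 0) * MvPolynomial.X (1, 2) - MvPolynomial.X (1, 0) * MvPolynomial.X (0, 2) :
      Coord (Fin 5) 2) ∉ S.pV.I := by
  refine notMem_genIdeal_nt S.V _ ?_
  have h0 : S.ptV (0, 0) = S.c2 (qT _ _ _ _) := rfl
  have h1 : S.ptV (0, 2) = S.c2 (S.c1 (MvPolynomial.X 1)) := rfl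
  have h2 : S.ptV (1, 0) = qT _ _ _ _ := rfl
  have h3 : S.ptV (1, 2) = S.c2 (S.c1 (MvPolynomial.X 2 * MvPolynomial.X 1)) := rfl
  rw [map_sub, map_mul, map_mul, aeval_X, aeval_X, aeval_X, aeval_X, h0, h1, h2, h3, ← map_mul]
  have h4 := qlin_ne_zero (a := S.g2 S.p) (b := S.g2 S.s) (c := S.g2 S.r) (d := S.g2 S.q)
    (e := - S.c1 (MvPolynomial.X 1))
    (f := qT (f2 S.p) (f2 S.s) (f2 S.r) (f2 S.q) * S.c1 (MvPolynomial.X 2 * MvPolynomial.X 1))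
    (Or.inl (by
      rw [neg_ne_zero]
      intro h
      rw [← map_zero S.c1] at h
      exact MvPolynomial.X_ne_zero _ (S.c1_injective h)))
  intro h5
  apply h4
  rw [← h5, map_neg]
  simp only [c2]
  ring

/-! ### The products of the curves -/

lemma bval_smul_nt {D : Type} [CommRing D] [Algebra ℂ D] {n : ℕ} {p : MvPolynomial (Fin 2) ℂ}
    (hp : p.IsHomogeneous n) (x y : ℂ) (w : D) :
    bval (algebraMap ℂ D x * w) (algebraMap ℂ D y * w) p =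
      w ^ n * algebraMap ℂ D (eval ![x, y] p) := by
  have h1 : (![algebraMap ℂ D x * w, algebraMap ℂ D y * w] : Fin 2 → D) =
      fun i => w * (![algebraMap ℂ D x, algebraMap ℂ D y] i) := by
    funext i
    fin_cases i <;> simp [mul_comm]
  rw [bval, h1, aeval_smul_of_isHomogeneous hp]
  congr 1
  have h2 : (aeval ![algebraMap ℂ D x, algebraMap ℂ D y] : MvPolynomial (Fin 2) ℂ →ₐ[ℂ] D) =
      (Algebra.ofId ℂ D).comp (aeval ![x, y]) := by
    ext i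
    fin_cases i <;> simp [Algebra.ofId_apply]
  rw [h2]
  rfl

lemma uC_eq_nt {D : Type} [CommRing D] [Algebra ℂ D] (k : Fin S.t) (a w : D) :
    S.uC k a w = w ^ (S.m - 1) * (algebraMap ℂ D (eval ![S.al k, S.be k] S.p) * a +
      algebraMap ℂ D (eval ![S.al k, S.be k] S.s) * w) := by
  rw [uC, bval_smul_nt S.hp, bval_smul_nt S.hs]
  have h : w ^ S.m = w ^ (S.m - 1) * w := by
    rw [← pow_succ, Nat.sub_add_cancel S.hm]
  rw [h]
  ring

lemma vC_eq_nt {D : Type} [CommRing D] [Algebra ℂ D] (k : Fin S.t) (a w : D) :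
    bval (algebraMap ℂ D (S.al k) * w) (algebraMap ℂ D (S.be k) * w) S.r * a +
      bval (algebraMap ℂ D (S.al k) * w) (algebraMap ℂ D (S.be k) * w) S.q =
      algebraMap ℂ D (S.ga k ^ 2) * S.uC k a w := by
  rw [uC_eq_nt, bval_smul_nt S.hr, bval_smul_nt S.hq, S.hrp, S.hqs]
  have h : w ^ S.m = w ^ (S.m - 1) * w := by
    rw [← pow_succ, Nat.sub_add_cancel S.hm]
  rw [h, map_mul, map_mul]
  ring

lemma lin_ne_zero_K4_nt {x y : ℂ} (h : x ≠ 0 ∨ y ≠ 0) {i j : Fin 4} (hij : i ≠ j) :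
    (algebraMap ℂ K4 x * MvPolynomial.X i + algebraMap ℂ K4 y * MvPolynomial.X j : K4) ≠ 0 := by
  intro h0
  have h1 := congrArg (eval (Pi.single i (1 : ℂ) : Fin 4 → ℂ)) h0
  have h2 := congrArg (eval (Pi.single j (1 : ℂ) : Fin 4 → ℂ)) h0
  simp only [map_add, map_mul, eval_X, map_zero, MvPolynomial.algebraMap_eq, eval_C,
    Pi.single_eq_same, Pi.single_eq_of_ne hij, Pi.single_eq_of_ne hij.symm, mul_zero, mul_one,
    zero_add, add_zero] at h1 h2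
  rcases h with h | h
  · exact h h1
  · exact h h2

lemma uC_ne_zero_nt (k : Fin S.t) {i j : Fin 4} (hij : i ≠ j) :
    S.uC k (MvPolynomial.X i : K4) (MvPolynomial.X j) ≠ 0 := by
  rw [uC_eq_nt]
  exact mul_ne_zero (pow_ne_zero _ (MvPolynomial.X_ne_zero _)) (lin_ne_zero_K4_nt (S.hps k) hij)

/-- the first coordinates of the two points -/
noncomputable def aK_nt (i : Fin 2) : K4 := if i = 0 then MvPolynomial.X 0 else MvPolynomial.X 2

/-- the parameters of the two points -/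
noncomputable def wK_nt (i : Fin 2) : K4 := if i = 0 then MvPolynomial.X 1 else MvPolynomial.X 3

lemma ptCC_eq_nt (k : Fin S.t) (e : Fin 2 → ℂ) (i : Fin 2) (j : Fin 5) :
    S.ptCC k (e 0) (e 1) (i, j) = S.ptC k (e i) (aK_nt i) (wK_nt i) j := by
  fin_cases i <;> rfl

lemma uC_aw_ne_zero_nt (k : Fin S.t) (i : Fin 2) : S.uC k (aK_nt i) (wK_nt i) ≠ 0 := by
  fin_cases i
  · exact S.uC_ne_zero_nt k (by decide)
  · exact S.uC_ne_zero_nt k (by decide)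

lemma wK_ne_zero_nt (i : Fin 2) : wK_nt i ≠ 0 := by
  fin_cases i
  · exact MvPolynomial.X_ne_zero _
  · exact MvPolynomial.X_ne_zero _

lemma uu_ptCC_nt (k : Fin S.t) (e : Fin 2 → ℂ) (i : Fin 2) :
    aeval (S.ptCC k (e 0) (e 1)) (S.uu 2 i) = S.uC k (aK_nt i) (wK_nt i) := by
  rw [aeval_uu_nt, ptCC_eq_nt, ptCC_eq_nt, ptCC_eq_nt]
  rfl

lemma vv_ptCC_nt (k : Fin S.t) (e : Fin 2 → ℂ) (i : Fin 2) :
    aeval (S.ptCC k (e 0) (e 1)) (S.vv 2 i) = algebraMap ℂ K4 (S.ga k ^ 2) * S.uC k (aK_nt i) (wK_nt i) := by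
  rw [aeval_vv_nt, ptCC_eq_nt, ptCC_eq_nt, ptCC_eq_nt]
  exact S.vC_eq_nt k (aK_nt i) (wK_nt i)

/-- two signs as a function -/
noncomputable def sgs_nt (b b' : Bool) : Fin 2 → ℂ := ![sgn b, sgn b']

lemma sgs_ne_nt (b b' : Bool) (i : Fin 2) : sgs_nt b b' i ≠ 0 := by
  fin_cases i
  · exact sgn_ne b
  · exact sgn_ne b'

lemma algebraMap_K4_ne_nt {x : ℂ} (hx : x ≠ 0) : algebraMap ℂ K4 x ≠ 0 := by
  intro h
  exact hx ((map_eq_zero (algebraMap ℂ K4)).mp h)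

lemma uu_notMem_pCC (k : Fin S.t) (b b' : Bool) (i : Fin 2) : S.uu 2 i ∉ (S.pCC k b b').I := by
  refine notMem_genIdeal_nt S.V _ ?_
  have h := S.uu_ptCC_nt k (sgs_nt b b') i
  have h2 : aeval (S.ptCC k (sgn b) (sgn b')) (S.uu 2 i) = S.uC k (aK_nt i) (wK_nt i) := h
  rw [h2]
  exact S.uC_aw_ne_zero_nt k i

lemma vv_notMem_pCC (k : Fin S.t) (b b' : Bool) (i : Fin 2) : S.vv 2 i ∉ (S.pCC k b b').I := by
  refine notMem_genIdeal_nt S.V _ ?_
  have h2 : aeval (S.ptCC k (sgn b) (sgn b')) (S.vv 2 i) =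
      algebraMap ℂ K4 (S.ga k ^ 2) * S.uC k (aK_nt i) (wK_nt i) := S.vv_ptCC_nt k (sgs_nt b b') i
  rw [h2]
  exact mul_ne_zero (algebraMap_K4_ne_nt (pow_ne_zero _ (S.hga k))) (S.uC_aw_ne_zero_nt k i)

lemma ptCC_four_nt (k : Fin S.t) (b b' : Bool) (i : Fin 2) :
    S.ptCC k (sgn b) (sgn b') (i, 4) =
      algebraMap ℂ K4 (sgs_nt b b' i * S.ga k) * S.uC k (aK_nt i) (wK_nt i) :=
  S.ptCC_eq_nt k (sgs_nt b b') i 4

lemma X4_notMem_pCC (k : Fin S.t) (b b' : Bool) (i : Fin 2) :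
    (MvPolynomial.X (i, 4) : Coord (Fin 5) 2) ∉ (S.pCC k b b').I := by
  intro h
  have h1 : S.ptCC k (sgn b) (sgn b') (i, 4) = 0 := (X_mem_genIdeal S.V _ (i, 4)).mp h
  rw [ptCC_four_nt] at h1
  exact mul_ne_zero (algebraMap_K4_ne_nt (mul_ne_zero (sgs_ne_nt b b' i) (S.hga k)))
    (S.uC_aw_ne_zero_nt k i) h1

lemma ell_homogeneous_nt (x y : ℂ) :
    IsWeightedHomogeneous (S.V.mdeg 2)
      (C x * MvPolynomial.X (0, 1) - C y * MvPolynomial.X (0, 2) : Coord (Fin 5) 2)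
      (Pi.single 0 1) := by
  have h1 := (isWeightedHomogeneous_C (S.V.mdeg 2) x).mul
    (S.X1_homogeneous (N := 2) 0 1 (by decide))
  have h2 := (isWeightedHomogeneous_C (S.V.mdeg 2) y).mul
    (S.X1_homogeneous (N := 2) 0 2 (by decide))
  rw [zero_add] at h1 h2
  exact h1.sub h2

lemma aeval_ell_nt (k : Fin S.t) (b b' : Bool) (x y : ℂ) :
    aeval (S.ptCC k (sgn b) (sgn b'))
      (C x * MvPolynomial.X (0, 1) - C y * MvPolynomial.X (0, 2) : Coord (Fin 5) 2) =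
      algebraMap ℂ K4 (x * S.al k - y * S.be k) * MvPolynomial.X 1 := by
  have h1 : S.ptCC k (sgn b) (sgn b') (0, 1) =
    algebraMap ℂ K4 (S.al k) * MvPolynomial.X 1 := rfl
  have h2 : S.ptCC k (sgn b) (sgn b') (0, 2) =
    algebraMap ℂ K4 (S.be k) * MvPolynomial.X 1 := rfl
  have h3 : ∀ z : ℂ, aeval (S.ptCC k (sgn b) (sgn b')) (C z : Coord (Fin 5) 2) =
      algebraMap ℂ K4 z := fun z => (aeval (S.ptCC k (sgn b) (sgn b'))).commutes z
  rw [map_sub, map_mul, map_mul, aeval_X, aeval_X, h1, h2, h3, h3, map_sub, map_mul, map_mul]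
  ring

lemma ell_mem_pCC (k : Fin S.t) (b b' : Bool) :
    (C (S.be k) * MvPolynomial.X (0, 1) - C (S.al k) * MvPolynomial.X (0, 2) :
      Coord (Fin 5) 2) ∈ (S.pCC k b b').I := by
  refine (mem_genIdeal_of_homogeneous S.V _ (S.ell_homogeneous_nt _ _)).mpr ?_
  rw [aeval_ell_nt]
  have h : S.be k * S.al k - S.al k * S.be k = 0 := by ring
  rw [h, map_zero, zero_mul]

lemma ell_notMem_pCC (k j : Fin S.t) (hjk : j ≠ k) (b b' : Bool) :
    (C (S.be j) * MvPolynomial.X (0, 1) - C (S.al j) * MvPolynomial.X (0, 2) :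
      Coord (Fin 5) 2) ∉ (S.pCC k b b').I := by
  refine notMem_genIdeal_nt S.V _ ?_
  rw [aeval_ell_nt]
  exact mul_ne_zero (algebraMap_K4_ne_nt (S.hsep j k hjk)) (MvPolynomial.X_ne_zero _)

lemma det_ne_zero_K4_nt : (MvPolynomial.X 0 * MvPolynomial.X 3 - MvPolynomial.X 2 * MvPolynomial.X 1 :
    K4) ≠ 0 := by
  intro h0
  have h1 := congrArg (eval (![1, 0, 0, 1] : Fin 4 → ℂ)) h0
  simp at h1

lemma delta1_notMem_pCC (k : Fin S.t) (b b' : Bool)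
    (h : (MvPolynomial.X (1, 1) : Coord (Fin 5) 2) ∉ (S.pCC k b b').I) :
    (MvPolynomial.X (0, 0) * MvPolynomial.X (1, 1) - MvPolynomial.X (1, 0) * MvPolynomial.X (0, 1) :
      Coord (Fin 5) 2) ∉ (S.pCC k b b').I := by
  have h1 : S.ptCC k (sgn b) (sgn b') (1, 1) =
    algebraMap ℂ K4 (S.al k) * MvPolynomial.X 3 := rfl
  have h2 : S.ptCC k (sgn b) (sgn b') (0, 1) =
    algebraMap ℂ K4 (S.al k) * MvPolynomial.X 1 := rfl
  have h3 : S.ptCC k (sgn b) (sgn b') (0, 0) = MvPolynomial.X 0 := rfl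
  have h4 : S.ptCC k (sgn b) (sgn b') (1, 0) = MvPolynomial.X 2 := rfl
  have hal : algebraMap ℂ K4 (S.al k) ≠ 0 := by
    intro h0
    apply h
    refine (X_mem_genIdeal S.V _ (1, 1)).mpr ?_
    rw [h1, h0, zero_mul]
  refine notMem_genIdeal_nt S.V _ ?_
  rw [map_sub, map_mul, map_mul, aeval_X, aeval_X, aeval_X, aeval_X, h1, h2, h3, h4]
  have h5 : (MvPolynomial.X 0 * (algebraMap ℂ K4 (S.al k) * MvPolynomial.X 3) -
      MvPolynomial.X 2 * (algebraMap ℂ K4 (S.al k) * MvPolynomial.X 1) : K4) =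
      algebraMap ℂ K4 (S.al k) *
        (MvPolynomial.X 0 * MvPolynomial.X 3 - MvPolynomial.X 2 * MvPolynomial.X 1) := by ring
  rw [h5]
  exact mul_ne_zero hal det_ne_zero_K4_nt

lemma delta2_notMem_pCC (k : Fin S.t) (b b' : Bool)
    (h : (MvPolynomial.X (1, 2) : Coord (Fin 5) 2) ∉ (S.pCC k b b').I) :
    (MvPolynomial.X (0, 0) * MvPolynomial.X (1, 2) - MvPolynomial.X (1, 0) * MvPolynomial.X (0, 2) :
      Coord (Fin 5) 2) ∉ (S.pCC k b b').I := by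
  have h1 : S.ptCC k (sgn b) (sgn b') (1, 2) =
    algebraMap ℂ K4 (S.be k) * MvPolynomial.X 3 := rfl
  have h2 : S.ptCC k (sgn b) (sgn b') (0, 2) =
    algebraMap ℂ K4 (S.be k) * MvPolynomial.X 1 := rfl
  have h3 : S.ptCC k (sgn b) (sgn b') (0, 0) = MvPolynomial.X 0 := rfl
  have h4 : S.ptCC k (sgn b) (sgn b') (1, 0) = MvPolynomial.X 2 := rfl
  have hal : algebraMap ℂ K4 (S.be k) ≠ 0 := by
    intro h0
    apply h
    refine (X_mem_genIdeal S.V _ (1, 2)).mpr ?_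
    rw [h1, h0, zero_mul]
  refine notMem_genIdeal_nt S.V _ ?_
  rw [map_sub, map_mul, map_mul, aeval_X, aeval_X, aeval_X, aeval_X, h1, h2, h3, h4]
  have h5 : (MvPolynomial.X 0 * (algebraMap ℂ K4 (S.be k) * MvPolynomial.X 3) -
      MvPolynomial.X 2 * (algebraMap ℂ K4 (S.be k) * MvPolynomial.X 1) : K4) =
      algebraMap ℂ K4 (S.be k) *
        (MvPolynomial.X 0 * MvPolynomial.X 3 - MvPolynomial.X 2 * MvPolynomial.X 1) := by ring
  rw [h5]
  exact mul_ne_zero hal det_ne_zero_K4_nt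

lemma NN_mem_pCC (k : Fin S.t) (b : Bool) :
    (MvPolynomial.X (0, 4) * S.uu 2 1 - MvPolynomial.X (1, 4) * S.uu 2 0) ∈ (S.pCC k b b).I := by
  refine (mem_genIdeal_of_homogeneous S.V _ S.NN_homogeneous).mpr ?_
  have hu : ∀ i, aeval (S.ptCC k (sgn b) (sgn b)) (S.uu 2 i) = S.uC k (aK_nt i) (wK_nt i) :=
    fun i => S.uu_ptCC_nt k (sgs_nt b b) i
  rw [map_sub, map_mul, map_mul, aeval_X, aeval_X, hu, hu, ptCC_four_nt, ptCC_four_nt]
  have h1 : sgs_nt b b 0 = sgn b := rfl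
  have h2 : sgs_nt b b 1 = sgn b := rfl
  rw [h1, h2]
  ring

lemma DD_notMem_pCC (k : Fin S.t) (b : Bool) :
    (MvPolynomial.X (0, 4) * S.uu 2 1 + MvPolynomial.X (1, 4) * S.uu 2 0) ∉ (S.pCC k b b).I := by
  refine notMem_genIdeal_nt S.V _ ?_
  have hu : ∀ i, aeval (S.ptCC k (sgn b) (sgn b)) (S.uu 2 i) = S.uC k (aK_nt i) (wK_nt i) :=
    fun i => S.uu_ptCC_nt k (sgs_nt b b) i
  rw [map_add, map_mul, map_mul, aeval_X, aeval_X, hu, hu, ptCC_four_nt, ptCC_four_nt]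
  have h1 : sgs_nt b b 0 = sgn b := rfl
  have h2 : sgs_nt b b 1 = sgn b := rfl
  rw [h1, h2]
  have h3 : algebraMap ℂ K4 (sgn b * S.ga k) * S.uC k (aK_nt 0) (wK_nt 0) * S.uC k (aK_nt 1) (wK_nt 1) +
      algebraMap ℂ K4 (sgn b * S.ga k) * S.uC k (aK_nt 1) (wK_nt 1) * S.uC k (aK_nt 0) (wK_nt 0) =
      2 * (algebraMap ℂ K4 (sgn b * S.ga k) * (S.uC k (aK_nt 0) (wK_nt 0) * S.uC k (aK_nt 1) (wK_nt 1))) := by
    ring
  rw [h3]
  exact mul_ne_zero two_ne_zero_of_algebra_nt (mul_ne_zero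
    (algebraMap_K4_ne_nt (mul_ne_zero (sgn_ne b) (S.hga k)))
    (mul_ne_zero (S.uC_aw_ne_zero_nt k 0) (S.uC_aw_ne_zero_nt k 1)))

lemma DD_mem_pCC (k : Fin S.t) (b : Bool) :
    (MvPolynomial.X (0, 4) * S.uu 2 1 + MvPolynomial.X (1, 4) * S.uu 2 0) ∈
      (S.pCC k b (!b)).I := by
  refine (mem_genIdeal_of_homogeneous S.V _ S.DD_homogeneous).mpr ?_
  have hu : ∀ i, aeval (S.ptCC k (sgn b) (sgn (!b))) (S.uu 2 i) = S.uC k (aK_nt i) (wK_nt i) :=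
    fun i => S.uu_ptCC_nt k (sgs_nt b (!b)) i
  rw [map_add, map_mul, map_mul, aeval_X, aeval_X, hu, hu, ptCC_four_nt, ptCC_four_nt]
  have h1 : sgs_nt b (!b) 0 = sgn b := rfl
  have h2 : sgs_nt b (!b) 1 = - sgn b := by
    cases b <;> simp [sgs_nt, sgn]
  rw [h1, h2, neg_mul, map_neg]
  ring

lemma NN_notMem_pCC (k : Fin S.t) (b : Bool) :
    (MvPolynomial.X (0, 4) * S.uu 2 1 - MvPolynomial.X (1, 4) * S.uu 2 0) ∉
      (S.pCC k b (!b)).I := by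
  refine notMem_genIdeal_nt S.V _ ?_
  have hu : ∀ i, aeval (S.ptCC k (sgn b) (sgn (!b))) (S.uu 2 i) = S.uC k (aK_nt i) (wK_nt i) :=
    fun i => S.uu_ptCC_nt k (sgs_nt b (!b)) i
  rw [map_sub, map_mul, map_mul, aeval_X, aeval_X, hu, hu, ptCC_four_nt, ptCC_four_nt]
  have h1 : sgs_nt b (!b) 0 = sgn b := rfl
  have h2 : sgs_nt b (!b) 1 = - sgn b := by
    cases b <;> simp [sgs_nt, sgn]
  rw [h1, h2, neg_mul, map_neg]
  have h3 : algebraMap ℂ K4 (sgn b * S.ga k) * S.uC k (aK_nt 0) (wK_nt 0) * S.uC k (aK_nt 1) (wK_nt 1) -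
      -algebraMap ℂ K4 (sgn b * S.ga k) * S.uC k (aK_nt 1) (wK_nt 1) * S.uC k (aK_nt 0) (wK_nt 0) =
      2 * (algebraMap ℂ K4 (sgn b * S.ga k) * (S.uC k (aK_nt 0) (wK_nt 0) * S.uC k (aK_nt 1) (wK_nt 1))) := by
    ring
  rw [h3]
  exact mul_ne_zero two_ne_zero_of_algebra_nt (mul_ne_zero
    (algebraMap_K4_ne_nt (mul_ne_zero (sgn_ne b) (S.hga k)))
    (mul_ne_zero (S.uC_aw_ne_zero_nt k 0) (S.uC_aw_ne_zero_nt k 1)))

/-! ### The names used in the assembly -/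

lemma X1_pYD (i : Fin 2) : (MvPolynomial.X (i, 1) : Coord (Fin 5) 2) ∉ S.pYD.I :=
  S.X1_notMem_pYD i

lemma X4_pYD (i : Fin 2) : (MvPolynomial.X (i, 4) : Coord (Fin 5) 2) ∉ S.pYD.I :=
  S.X4_notMem_pYD i

lemma uu_pYD (i : Fin 2) : S.uu 2 i ∉ S.pYD.I := S.uu_notMem_pYD i

lemma DD_pYD : S.DD ∉ S.pYD.I := S.DD_notMem_pYD

lemma NN_pYD : S.NN ∈ S.pYD.I := S.NN_mem_pYD

lemma X3_pYD : (MvPolynomial.X (0, 3) : Coord (Fin 5) 2) ∈ S.pYD.I := S.X3_mem_pYD 0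

lemma X3_pXD : (MvPolynomial.X (0, 3) : Coord (Fin 5) 2) ∉ S.pXD.I := S.X3_notMem_pXD 0

lemma X4_pXD : (MvPolynomial.X (0, 4) : Coord (Fin 5) 2) ∉ S.pXD.I := S.X4_notMem_pXD 0

lemma NN_pV : S.NN ∉ S.pV.I := S.NN_notMem_pV

lemma DD_pV : S.DD ∉ S.pV.I := S.DD_notMem_pV

lemma X4_pCC (k : Fin S.t) (b b' : Bool) (i : Fin 2) :
    (MvPolynomial.X (i, 4) : Coord (Fin 5) 2) ∉ (S.pCC k b b').I := S.X4_notMem_pCC k b b' i

lemma uu_pCC (k : Fin S.t) (b b' : Bool) (i : Fin 2) : S.uu 2 i ∉ (S.pCC k b b').I :=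
  S.uu_notMem_pCC k b b' i

lemma ell_pCC (k : Fin S.t) (b b' : Bool) : S.ell k ∈ (S.pCC k b b').I := S.ell_mem_pCC k b b'

lemma ell_pCC_ne (k j : Fin S.t) (h : j ≠ k) (b b' : Bool) : S.ell j ∉ (S.pCC k b b').I :=
  S.ell_notMem_pCC k j h b b'

lemma X12_pCC (k : Fin S.t) (b b' : Bool) : ∃ j : Fin 5, (j = 1 ∨ j = 2) ∧
    (MvPolynomial.X (0, j) : Coord (Fin 5) 2) ∉ (S.pCC k b b').I ∧
    (MvPolynomial.X (1, j) : Coord (Fin 5) 2) ∉ (S.pCC k b b').I ∧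
    dl j ∉ (S.pCC k b b').I := by
  rcases S.hne k with h | h
  · have h0 : (MvPolynomial.X (0, 1) : Coord (Fin 5) 2) ∉ (S.pCC k b b').I := by
      intro h'
      have h1 : algebraMap ℂ K4 (S.al k) * MvPolynomial.X 1 = 0 :=
        (X_mem_genIdeal S.V _ (0, 1)).mp h'
      exact mul_ne_zero (algebraMap_K4_ne_nt h) (MvPolynomial.X_ne_zero _) h1
    have h1 : (MvPolynomial.X (1, 1) : Coord (Fin 5) 2) ∉ (S.pCC k b b').I := by
      intro h'
      have h1 : algebraMap ℂ K4 (S.al k) * MvPolynomial.X 3 = 0 :=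
        (X_mem_genIdeal S.V _ (1, 1)).mp h'
      exact mul_ne_zero (algebraMap_K4_ne_nt h) (MvPolynomial.X_ne_zero _) h1
    exact ⟨1, Or.inl rfl, h0, h1, S.delta1_notMem_pCC k b b' h1⟩
  · have h0 : (MvPolynomial.X (0, 2) : Coord (Fin 5) 2) ∉ (S.pCC k b b').I := by
      intro h'
      have h1 : algebraMap ℂ K4 (S.be k) * MvPolynomial.X 1 = 0 :=
        (X_mem_genIdeal S.V _ (0, 2)).mp h'
      exact mul_ne_zero (algebraMap_K4_ne_nt h) (MvPolynomial.X_ne_zero _) h1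
    have h1 : (MvPolynomial.X (1, 2) : Coord (Fin 5) 2) ∉ (S.pCC k b b').I := by
      intro h'
      have h1 : algebraMap ℂ K4 (S.be k) * MvPolynomial.X 3 = 0 :=
        (X_mem_genIdeal S.V _ (1, 2)).mp h'
      exact mul_ne_zero (algebraMap_K4_ne_nt h) (MvPolynomial.X_ne_zero _) h1
    exact ⟨2, Or.inr rfl, h0, h1, S.delta2_notMem_pCC k b b' h1⟩

lemma NN_pCC (k : Fin S.t) (b : Bool) : S.NN ∈ (S.pCC k b b).I := S.NN_mem_pCC k b

lemma DD_pCC (k : Fin S.t) (b : Bool) : S.DD ∉ (S.pCC k b b).I := S.DD_notMem_pCC k b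

lemma ell_pV (k : Fin S.t) : S.ell k ∉ S.pV.I := S.ell_notMem_pV k

lemma dl_pV : dl 1 ∉ S.pV.I := S.delta1_notMem_pV

lemma dl_homogeneous_nt (j : Fin 5) (hj : j ≠ 4) :
    IsWeightedHomogeneous (S.V.mdeg 2) (dl j) (Pi.single 0 1 + Pi.single 1 1) := by
  have h1 := (S.X1_homogeneous (N := 2) 0 0 (by decide)).mul (S.X1_homogeneous (N := 2) 1 j hj)
  have h2 := (S.X1_homogeneous (N := 2) 1 0 (by decide)).mul (S.X1_homogeneous (N := 2) 0 j hj)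
  rw [add_comm (Pi.single 1 1) (Pi.single 0 1)] at h2
  exact h1.sub h2

lemma dl_pYD : dl 1 ∈ S.pYD.I := by
  refine (mem_genIdeal_of_homogeneous S.V _ (S.dl_homogeneous_nt 1 (by decide))).mpr ?_
  rw [dl, map_sub, map_mul, map_mul, aeval_X, aeval_X, aeval_X, aeval_X, sub_self]

lemma ell_pYD_nt (k : Fin S.t) : S.ell k ∉ S.pYD.I := by
  refine notMem_genIdeal_nt S.V _ ?_
  have h1 : S.ptY 1 = qC S.p S.s S.r S.q (MvPolynomial.X 0) := rfl
  have h2 : S.ptY 2 = qC S.p S.s S.r S.q (MvPolynomial.X 1) := rfl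
  have h3 : ∀ x : ℂ, aeval (fun v : Fin 2 × Fin 5 => S.ptY v.2) (C x : Coord (Fin 5) 2) =
      qC S.p S.s S.r S.q (C x) := by
    intro x
    rw [← MvPolynomial.algebraMap_eq, AlgHom.commutes]
    rfl
  rw [ell, map_sub, map_mul, map_mul, aeval_X, aeval_X, h1, h2, h3, h3, ← map_mul, ← map_mul,
    ← map_sub]
  intro h4
  rw [← map_zero (qC S.p S.s S.r S.q)] at h4
  exact linear_ne_zero (S.hne k) (qC_injective h4)

lemma WW_pYD : S.WW ∉ S.pYD.I := by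
  have hp : (S.pYD.I).IsPrime := S.pYD.prime
  rw [WW]
  intro h
  rcases hp.mem_or_mem h with h1 | h1
  · refine notMem_genIdeal_nt S.V (fun v : Fin 2 × Fin 5 => S.ptY v.2) (z := C S.ka) ?_ h1
    rw [← MvPolynomial.algebraMap_eq, AlgHom.commutes]
    intro h2
    exact S.hka ((map_eq_zero (algebraMap ℂ S.RY)).mp h2)
  · obtain ⟨k, _, hk⟩ := hp.prod_mem_iff.mp h1
    exact S.ell_pYD_nt k (hp.mem_of_pow_mem _ hk)

end DSData

end Pool.Agent.RCH
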