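import Pool.Agent.RCH.DSPts

/-!
# The involutions of the square of a double cover
-/

set_option autoImplicit false

namespace Pool.Agent.RCH

open MvPolynomial

namespace DSData

variable (S : DSData)

/-- the substitution `y ↦ -y` in the coordinates of the `i`-th point, as a homomorphism -/
noncomputable def sgH (i : Fin 2) : Coord (Fin 5) 2 →ₐ[ℂ] Coord (Fin 5) 2 :=
  aeval (negY i MvPolynomial.X)

lemma sgH_X (i : Fin 2) (v : Fin 2 × Fin 5) :
    sgH i (MvPolynomial.X v) = negY i MvPolynomial.X v := by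
  rw [sgH, aeval_X]

lemma sgH_X_self (i : Fin 2) : sgH i (MvPolynomial.X (i, 4)) = - MvPolynomial.X (i, 4) := by
  rw [sgH_X, negY, if_pos rfl]

lemma sgH_X_of_ne (i : Fin 2) {v : Fin 2 × Fin 5} (hv : v ≠ (i, 4)) :
    sgH i (MvPolynomial.X v) = MvPolynomial.X v := by
  rw [sgH_X, negY, if_neg hv]

lemma sgH_comp (i : Fin 2) : (sgH i).comp (sgH i) = AlgHom.id ℂ _ := by
  apply MvPolynomial.algHom_ext
  intro v
  rw [AlgHom.comp_apply, AlgHom.id_apply]
  by_cases hv : v = (i, 4)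
  · subst hv
    rw [sgH_X_self, map_neg, sgH_X_self, neg_neg]
  · rw [sgH_X_of_ne i hv, sgH_X_of_ne i hv]

/-- the substitution `y ↦ -y` in the coordinates of the `i`-th point -/
noncomputable def sg (i : Fin 2) : Coord (Fin 5) 2 ≃+* Coord (Fin 5) 2 :=
  (AlgEquiv.ofAlgHom (sgH i) (sgH i) (sgH_comp i) (sgH_comp i)).toRingEquiv

lemma sg_apply (i : Fin 2) (z : Coord (Fin 5) 2) : sg i z = sgH i z := rfl

@[simp] lemma sg_X_self (i : Fin 2) :
    sg i (MvPolynomial.X (i, 4)) = - MvPolynomial.X (i, 4) := by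
  rw [sg_apply, sgH_X_self]

lemma sg_X_of_ne (i : Fin 2) {v : Fin 2 × Fin 5} (hv : v ≠ (i, 4)) :
    sg i (MvPolynomial.X v) = MvPolynomial.X v := by
  rw [sg_apply, sgH_X_of_ne i hv]

/-- the coordinates `x_j` are fixed -/
lemma sg_X_fix (i k : Fin 2) {j : Fin 5} (hj : j ≠ 4) :
    sg i (MvPolynomial.X (k, j)) = MvPolynomial.X (k, j) := by
  refine sg_X_of_ne i fun h => hj ?_
  exact (Prod.mk.inj h).2

/-- the coordinate `y` of the other point is fixed -/
lemma sg_X_other {i k : Fin 2} (hk : k ≠ i) (j : Fin 5) :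
    sg i (MvPolynomial.X (k, j)) = MvPolynomial.X (k, j) := by
  refine sg_X_of_ne i fun h => hk ?_
  exact (Prod.mk.inj h).1

@[simp] lemma sg_C (i : Fin 2) (a : ℂ) : sg i (C a) = C a := by
  rw [sg_apply]
  exact (sgH i).commutes a

@[simp] lemma sg_sg (i : Fin 2) (z : Coord (Fin 5) 2) : sg i (sg i z) = z := by
  rw [sg_apply, sg_apply, ← AlgHom.comp_apply, sgH_comp]
  rfl

/-- the points with coordinates `negY i d` and `d` -/
lemma genHom_negY {D : Type} [CommRing D] [Algebra ℂ D] (i : Fin 2) (d : Fin 2 × Fin 5 → D)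
    (z : Coord (Fin 5) 2) :
    genHom S.V (negY i d) z = genHom S.V d (sg i z) := by
  have h : genHom S.V (negY i d) = (genHom S.V d).comp (sgH i) := by
    apply MvPolynomial.algHom_ext
    intro v
    rw [AlgHom.comp_apply]
    by_cases hv : v = (i, 4)
    · subst hv
      rw [sgH_X_self, map_neg, genHom, aeval_X, genHom, aeval_X, negY, if_pos rfl, map_neg,
        neg_mul]
    · rw [sgH_X_of_ne i hv, genHom, aeval_X, genHom, aeval_X, negY, if_neg hv]
  rw [h]
  rfl

lemma genIdeal_negY {D : Type} [CommRing D] [Algebra ℂ D] (i : Fin 2) (d : Fin 2 × Fin 5 → D) :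
    genIdeal S.V (negY i d) = (genIdeal S.V d).comap (sg i) := by
  ext z
  rw [Ideal.mem_comap]
  constructor
  · intro hz
    have h0 : genHom S.V (negY i d) z = 0 := hz
    rw [genHom_negY] at h0
    exact h0
  · intro hz
    have h0 : genHom S.V d (sg i z) = 0 := hz
    rw [← genHom_negY] at h0
    exact h0

lemma mem_genIdeal_negY {D : Type} [CommRing D] [Algebra ℂ D] (i : Fin 2)
    (d : Fin 2 × Fin 5 → D) (z : Coord (Fin 5) 2) :
    z ∈ genIdeal S.V (negY i d) ↔ sg i z ∈ genIdeal S.V d := by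
  rw [genIdeal_negY, Ideal.mem_comap]

lemma sg_mem_genIdeal {D : Type} [CommRing D] [Algebra ℂ D] (i : Fin 2)
    (d : Fin 2 × Fin 5 → D) (z : Coord (Fin 5) 2) :
    sg i z ∈ genIdeal S.V (negY i d) ↔ z ∈ genIdeal S.V d := by
  rw [mem_genIdeal_negY, sg_sg]

/-- modulo `y` the substitution `y ↦ -y` is the identity -/
lemma sg_sub_mem (i : Fin 2) (z : Coord (Fin 5) 2) :
    sg i z - z ∈ Ideal.span {(MvPolynomial.X (i, 4) : Coord (Fin 5) 2)} := by
  set J : Ideal (Coord (Fin 5) 2) := Ideal.span {MvPolynomial.X (i, 4)} with hJ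
  have h : (Ideal.Quotient.mk J).comp (sg i : Coord (Fin 5) 2 →+* Coord (Fin 5) 2) =
      Ideal.Quotient.mk J := by
    apply MvPolynomial.ringHom_ext
    · intro a
      rw [RingHom.comp_apply]
      simp
    · intro v
      rw [RingHom.comp_apply]
      by_cases hv : v = (i, 4)
      · subst hv
        have h0 : Ideal.Quotient.mk J (MvPolynomial.X (i, 4)) = 0 := by
          rw [Ideal.Quotient.eq_zero_iff_mem]
          exact Ideal.subset_span rfl
        rw [RingEquiv.coe_toRingHom, sg_X_self, map_neg, h0, neg_zero]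
      · rw [RingEquiv.coe_toRingHom, sg_X_of_ne i hv]
  rw [← Ideal.Quotient.eq_zero_iff_mem, map_sub, sub_eq_zero]
  exact congrArg (fun ψ => ψ z) h

lemma sg_mem_iff (i : Fin 2) {Q : Ideal (Coord (Fin 5) 2)}
    (hQ : (MvPolynomial.X (i, 4) : Coord (Fin 5) 2) ∈ Q) (z : Coord (Fin 5) 2) :
    sg i z ∈ Q ↔ z ∈ Q := by
  have h : sg i z - z ∈ Q :=
    (Ideal.span_singleton_le_iff_mem Q).2 hQ (sg_sub_mem i z)
  constructor
  · intro hz
    have := Q.sub_mem hz h
    rwa [sub_sub_cancel] at this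
  · intro hz
    have := Q.add_mem h hz
    rwa [sub_add_cancel] at this

lemma bv_sg (i j : Fin 2) (p : MvPolynomial (Fin 2) ℂ) :
    bv (sg i : Coord (Fin 5) 2 →+* Coord (Fin 5) 2) j p =
      bv (RingHom.id (Coord (Fin 5) 2)) j p := by
  have h1 : (sg i : Coord (Fin 5) 2 →+* Coord (Fin 5) 2).comp C =
      (RingHom.id (Coord (Fin 5) 2)).comp C := by
    ext a
    · simp
  have h2 : ![(sg i : Coord (Fin 5) 2 →+* Coord (Fin 5) 2) (MvPolynomial.X (j, 1)),
      (sg i : Coord (Fin 5) 2 →+* Coord (Fin 5) 2) (MvPolynomial.X (j, 2))] =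
      ![(RingHom.id (Coord (Fin 5) 2)) (MvPolynomial.X (j, 1)),
        (RingHom.id (Coord (Fin 5) 2)) (MvPolynomial.X (j, 2))] := by
    rw [RingEquiv.coe_toRingHom, sg_X_fix i j (by decide), sg_X_fix i j (by decide)]
    rfl
  rw [bv, bv, h1, h2]

@[simp] lemma sg_uu (i j : Fin 2) : sg i (S.uu 2 j) = S.uu 2 j := by
  have h1 := S.map_uu (sg i : Coord (Fin 5) 2 →+* Coord (Fin 5) 2) j
  have h2 := S.map_uu (RingHom.id (Coord (Fin 5) 2)) j
  rw [bv_sg, bv_sg, RingEquiv.coe_toRingHom, sg_X_fix i j (by decide)] at h1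
  rw [h1]
  exact h2.symm

@[simp] lemma sg_vv (i j : Fin 2) : sg i (S.vv 2 j) = S.vv 2 j := by
  have h1 := S.map_vv (sg i : Coord (Fin 5) 2 →+* Coord (Fin 5) 2) j
  have h2 := S.map_vv (RingHom.id (Coord (Fin 5) 2)) j
  rw [bv_sg, bv_sg, RingEquiv.coe_toRingHom, sg_X_fix i j (by decide)] at h1
  rw [h1]
  exact h2.symm

lemma sg_X (i : Fin 2) : sg i (MvPolynomial.X (i, 4)) = - MvPolynomial.X (i, 4) := sg_X_self i

lemma sg_X_ne (i : Fin 2) (v : Fin 2 × Fin 5) (h : v ≠ (i, 4)) :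
    sg i (MvPolynomial.X v) = MvPolynomial.X v := sg_X_of_ne i h

lemma sg_mem (i : Fin 2) (Q : Ideal (Coord (Fin 5) 2))
    (h : (MvPolynomial.X (i, 4) : Coord (Fin 5) 2) ∈ Q) (z : Coord (Fin 5) 2) :
    sg i z ∈ Q ↔ z ∈ Q := sg_mem_iff i h z

/-- the substitution preserves multihomogeneity -/
lemma sg_isWeightedHomogeneous (i : Fin 2) {z : Coord (Fin 5) 2} {e : Fin 2 → ℕ}
    (hz : IsWeightedHomogeneous (S.V.mdeg 2) z e) :
    IsWeightedHomogeneous (S.V.mdeg 2) (sg i z) e := by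
  classical
  have key : ∀ (s : Fin 2 × Fin 5 →₀ ℕ) (a : ℂ),
      sg i (monomial s a) = C ((-1) ^ s (i, 4)) * monomial s a := by
    intro s a
    induction s using Finsupp.induction generalizing a with
    | zero =>
      have h1 : (monomial (0 : Fin 2 × Fin 5 →₀ ℕ) a : Coord (Fin 5) 2) = C a := rfl
      rw [h1, sg_C]
      simp
    | single_add v k s hv hk ih =>
      have h1 : (monomial (Finsupp.single v k + s) a : Coord (Fin 5) 2) =
          MvPolynomial.X v ^ k * monomial s a := by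
        rw [MvPolynomial.X_pow_eq_monomial, monomial_mul, one_mul]
      rw [h1, map_mul, map_pow, ih]
      by_cases h : v = (i, 4)
      · subst h
        rw [sg_X_self, Finsupp.add_apply, Finsupp.single_eq_same, neg_pow, pow_add, C_mul]
        have h2 : ((-1 : Coord (Fin 5) 2) ^ k) = C ((-1) ^ k) := by simp
        rw [h2]
        ring
      · rw [sg_X_of_ne i h, Finsupp.add_apply, Finsupp.single_eq_of_ne (fun h' => h h'.symm),
          zero_add]
        ring
  intro s hs
  by_contra hcon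
  apply hs
  rw [MvPolynomial.as_sum z, map_sum, coeff_sum]
  refine Finset.sum_eq_zero fun u hu => ?_
  rw [key, coeff_C_mul, coeff_monomial]
  by_cases hus : u = s
  · exfalso
    apply hcon
    rw [← hus]
    exact hz (mem_support_iff.mp hu)
  · rw [if_neg hus, mul_zero]

end DSData

end Pool.Agent.RCH
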