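import Pool.Agent.RCH.DSPt
import Pool.Agent.RCH.DSSym

/-!
# The fibre product is stable under the two involutions
-/

set_option autoImplicit false

namespace Pool.Agent.RCH

open MvPolynomial

namespace DSData

variable (S : DSData)

/-- the involution `y ↦ -y` of the first copy of `Y` -/
noncomputable def th1 : S.B1 →+* S.B1 :=
  qLift _ _ _ _ (qC _ _ _ _) (qT _ _ _ _) (- qY _ _ _ _) (by rw [neg_sq, qY_sq])

lemma th1_c1 (x : A0) : S.th1 (S.c1 x) = S.c1 x := qLift_C _ _ _ _ x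

lemma th1_T : S.th1 (qT _ _ _ _) = qT _ _ _ _ := qLift_T _ _ _ _

lemma th1_Y : S.th1 (qY _ _ _ _) = - qY _ _ _ _ := qLift_Y _ _ _ _

lemma th1_g2 (p : MvPolynomial (Fin 2) ℂ) : S.th1 (S.g2 p) = S.g2 p := by
  have h : ∀ q, S.g2 q = S.c1 (bval (MvPolynomial.X 2 * MvPolynomial.X 0)
      (MvPolynomial.X 2 * MvPolynomial.X 1) q) := by
    intro q
    exact bval_qC _ _ _ _ _ _ q
  rw [h, th1_c1]

/-- the involution `y ↦ -y` of the first factor, on the fibre product -/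
noncomputable def thA : S.B2 →+* S.B2 :=
  qLift _ _ _ _ (S.c2.comp S.th1) (qT _ _ _ _) (qY _ _ _ _) (by
    simp only [RingHom.comp_apply, th1_g2]
    exact qY_sq _ _ _ _)

lemma thA_c2 (x : S.B1) : S.thA (S.c2 x) = S.c2 (S.th1 x) := qLift_C _ _ _ _ x

lemma thA_T : S.thA (qT _ _ _ _) = qT _ _ _ _ := qLift_T _ _ _ _

lemma thA_Y : S.thA (qY _ _ _ _) = qY _ _ _ _ := qLift_Y _ _ _ _

/-- the involution `y ↦ -y` of the second factor, on the fibre product -/
noncomputable def thB : S.B2 →+* S.B2 :=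
  qLift _ _ _ _ S.c2 (qT _ _ _ _) (- qY _ _ _ _) (by rw [neg_sq]; exact qY_sq _ _ _ _)

lemma thB_c2 (x : S.B1) : S.thB (S.c2 x) = S.c2 x := qLift_C _ _ _ _ x

lemma thB_T : S.thB (qT _ _ _ _) = qT _ _ _ _ := qLift_T _ _ _ _

lemma thB_Y : S.thB (qY _ _ _ _) = - qY _ _ _ _ := qLift_Y _ _ _ _

lemma algebraMap_B2 (x : ℂ) : algebraMap ℂ S.B2 x = S.c2 (S.c1 (algebraMap ℂ A0 x)) := rfl

lemma thA_ptV (v : Fin 2 × Fin 5) : S.thA (S.ptV v) = negY 0 S.ptV v := by
  obtain ⟨i, j⟩ := v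
  fin_cases i
  · fin_cases j
    · show S.thA (S.c2 (qT _ _ _ _)) = S.c2 (qT _ _ _ _)
      rw [thA_c2, th1_T]
    · show S.thA (S.c2 (S.c1 (MvPolynomial.X 0))) = S.c2 (S.c1 (MvPolynomial.X 0))
      rw [thA_c2, th1_c1]
    · show S.thA (S.c2 (S.c1 (MvPolynomial.X 1))) = S.c2 (S.c1 (MvPolynomial.X 1))
      rw [thA_c2, th1_c1]
    · show S.thA 0 = 0
      rw [map_zero]
    · show S.thA (S.c2 (qY _ _ _ _)) = - S.c2 (qY _ _ _ _)
      rw [thA_c2, th1_Y, map_neg]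
  · fin_cases j
    · show S.thA (qT _ _ _ _) = qT _ _ _ _
      rw [thA_T]
    · show S.thA (S.c2 (S.c1 _)) = S.c2 (S.c1 _)
      rw [thA_c2, th1_c1]
    · show S.thA (S.c2 (S.c1 _)) = S.c2 (S.c1 _)
      rw [thA_c2, th1_c1]
    · show S.thA 0 = 0
      rw [map_zero]
    · show S.thA (qY _ _ _ _) = qY _ _ _ _
      rw [thA_Y]

lemma thB_ptV (v : Fin 2 × Fin 5) : S.thB (S.ptV v) = negY 1 S.ptV v := by
  obtain ⟨i, j⟩ := v
  fin_cases i
  · fin_cases j
    · show S.thB (S.c2 _) = S.c2 _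
      rw [thB_c2]
    · show S.thB (S.c2 _) = S.c2 _
      rw [thB_c2]
    · show S.thB (S.c2 _) = S.c2 _
      rw [thB_c2]
    · show S.thB 0 = 0
      rw [map_zero]
    · show S.thB (S.c2 _) = S.c2 _
      rw [thB_c2]
  · fin_cases j
    · show S.thB (qT _ _ _ _) = qT _ _ _ _
      rw [thB_T]
    · show S.thB (S.c2 _) = S.c2 _
      rw [thB_c2]
    · show S.thB (S.c2 _) = S.c2 _
      rw [thB_c2]
    · show S.thB 0 = 0
      rw [map_zero]
    · show S.thB (qY _ _ _ _) = - qY _ _ _ _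
      rw [thB_Y]

lemma genIdeal_le_endo (θ : S.B2 →+* S.B2) (hC : ∀ x : ℂ, θ (algebraMap ℂ S.B2 x) =
    algebraMap ℂ S.B2 x) (i : Fin 2) (h : ∀ v, θ (S.ptV v) = negY i S.ptV v)
    (z : Coord (Fin 5) 2) (hz : z ∈ S.pV.I) : sg i z ∈ S.pV.I := by
  have hz' : z ∈ genIdeal S.V S.ptV := hz
  show sg i z ∈ genIdeal S.V S.ptV
  have h1 : z ∈ genIdeal S.V (negY i S.ptV) := by
    rw [mem_genIdeal_iff] at hz' ⊢
    intro e
    have h2 : (aeval (negY i S.ptV) : Coord (Fin 5) 2 →ₐ[ℂ] S.B2).toRingHom =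
        θ.comp (aeval S.ptV : Coord (Fin 5) 2 →ₐ[ℂ] S.B2).toRingHom := by
      apply MvPolynomial.ringHom_ext
      · intro x
        have e1 : aeval (negY i S.ptV) (C x : Coord (Fin 5) 2) = algebraMap ℂ S.B2 x :=
          (aeval (negY i S.ptV)).commutes x
        have e2 : aeval S.ptV (C x : Coord (Fin 5) 2) = algebraMap ℂ S.B2 x :=
          (aeval S.ptV).commutes x
        show aeval (negY i S.ptV) (C x : Coord (Fin 5) 2) =
          θ (aeval S.ptV (C x : Coord (Fin 5) 2))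
        rw [e1, e2, hC]
      · intro v
        show aeval (negY i S.ptV) (MvPolynomial.X v : Coord (Fin 5) 2) =
          θ (aeval S.ptV (MvPolynomial.X v : Coord (Fin 5) 2))
        rw [aeval_X, aeval_X, h]
    have h3 := congrArg (fun ψ => ψ (weightedHomogeneousComponent (S.V.mdeg 2) e z)) h2
    have h4 : aeval (negY i S.ptV) (weightedHomogeneousComponent (S.V.mdeg 2) e z) =
        θ (aeval S.ptV (weightedHomogeneousComponent (S.V.mdeg 2) e z)) := h3
    rw [h4, hz' e, map_zero]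
  rwa [genIdeal_negY, Ideal.mem_comap] at h1

/-- **Row STA.** -/
lemma pV_stable (i : Fin 2) (z : Coord (Fin 5) 2) : sg i z ∈ S.pV.I ↔ z ∈ S.pV.I := by
  have key : ∀ w : Coord (Fin 5) 2, w ∈ S.pV.I → sg i w ∈ S.pV.I := by
    intro w hw
    fin_cases i
    · refine S.genIdeal_le_endo S.thA (fun x => ?_) 0 S.thA_ptV w hw
      rw [algebraMap_B2, thA_c2, th1_c1]
    · refine S.genIdeal_le_endo S.thB (fun x => ?_) 1 S.thB_ptV w hw
      rw [algebraMap_B2, thB_c2]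
  constructor
  · intro h
    have h1 := key _ h
    rwa [sg_sg] at h1
  · exact key z

end DSData

end Pool.Agent.RCH
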