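import Pool.Agent.RCH.Defs

/-!
# The exterior square of a difference of two points
-/

set_option autoImplicit false

open MvPolynomial

namespace Pool.Agent.RCH

variable {ι : Type} (X : WVar ι)

open Classical in
/-- Expansion of an exterior power over any finite set containing the support. -/
lemma extPow_eq_sum {N : ℕ} (a : Cycles X 1) (s : Finset (Pt X 1)) (hs : a.support ⊆ s) :
    extPow X a N = ∑ Q ∈ Fintype.piFinset (fun _ : Fin N => s), (∏ i, a (Q i)) • box X Q := by
  rw [extPow]
  refine Finset.sum_subset_zero_on_sdiff (Fintype.piFinset_subset _ _ fun _ => hs) ?_ ?_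
  · intro Q hQ
    rw [Finset.mem_sdiff, Fintype.mem_piFinset, Fintype.mem_piFinset, not_forall] at hQ
    obtain ⟨_, i, hi⟩ := hQ
    rw [Finsupp.notMem_support_iff] at hi
    rw [Finset.prod_eq_zero (Finset.mem_univ i) hi, zero_smul]
  · intro Q _
    rfl

/-- The exterior square of `C - D` is `C × C - C × D - D × C + D × D`. -/
theorem extPow_two_single_sub_single {C D : Pt X 1} (h : C ≠ D) :
    extPow X (Finsupp.single C 1 - Finsupp.single D 1) 2 =
      box X ![C, C] - box X ![C, D] - box X ![D, C] + box X ![D, D] := by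
  classical
  set a : Cycles X 1 := Finsupp.single C 1 - Finsupp.single D 1 with ha
  have haC : a C = 1 := by
    rw [ha, Finsupp.sub_apply, Finsupp.single_eq_same, Finsupp.single_apply, if_neg h.symm,
      sub_zero]
  have haD : a D = -1 := by
    rw [ha, Finsupp.sub_apply, Finsupp.single_eq_same, Finsupp.single_apply, if_neg h, zero_sub]
  have hs : a.support ⊆ {C, D} := by
    intro E hE
    rw [Finsupp.mem_support_iff] at hE
    by_contra hcon
    rw [Finset.mem_insert, Finset.mem_singleton, not_or] at hcon
    apply hE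
    rw [ha, Finsupp.sub_apply, Finsupp.single_apply, Finsupp.single_apply,
      if_neg (fun h' => hcon.1 h'.symm), if_neg (fun h' => hcon.2 h'.symm), sub_zero]
  rw [extPow_eq_sum X a {C, D} hs]
  have key : ∀ g : (Fin 2 → Pt X 1) → Cycles X 2,
      ∑ Q ∈ Fintype.piFinset (fun _ : Fin 2 => ({C, D} : Finset (Pt X 1))), g Q =
        ∑ x ∈ ({C, D} : Finset (Pt X 1)), ∑ y ∈ ({C, D} : Finset (Pt X 1)), g ![x, y] := by
    intro g
    rw [← Finset.sum_product']
    symm
    refine Finset.sum_bij (fun p _ => ![p.1, p.2]) ?_ ?_ ?_ ?_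
    · rintro ⟨x, y⟩ hp
      rw [Finset.mem_product] at hp
      rw [Fintype.mem_piFinset]
      intro i
      fin_cases i
      · exact hp.1
      · exact hp.2
    · rintro ⟨x, y⟩ _ ⟨x', y'⟩ _ hxy
      have h0 := congrFun hxy 0
      have h1 := congrFun hxy 1
      simp only [Matrix.cons_val_zero, Matrix.cons_val_one] at h0 h1
      rw [h0, h1]
    · intro Q hQ
      rw [Fintype.mem_piFinset] at hQ
      refine ⟨(Q 0, Q 1), Finset.mem_product.2 ⟨hQ 0, hQ 1⟩, ?_⟩
      funext i
      fin_cases i <;> rfl
    · intro p _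
      rfl
  rw [key]
  simp only [Finset.sum_pair h, Fin.prod_univ_two, Matrix.cons_val_zero, Matrix.cons_val_one, haC,
    haD]
  simp only [mul_one, mul_neg, neg_neg, one_smul, neg_smul]
  abel

end Pool.Agent.RCH
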