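import Pool.Agent.RCH.Defs

/-!
# Existence of the divisor of a rational function

Only finitely many points of codimension one of an integral subscheme of `X^N` can have a nonzero
coefficient in the divisor of a rational function.
-/

set_option autoImplicit false

open MvPolynomial

namespace Pool.Agent.RCH

variable {ι : Type} (X : WVar ι) {N : ℕ}

/-- The order of `g` at `Q` is zero if `g` is not in `Q`. -/
lemma ordAt_eq_zero_of_not_mem {R : Type} [CommRing R] (P Q : Ideal R) [Q.IsPrime] (g : R)
    (hg : g ∉ Q) : ordAt P Q g = 0 := by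
  rw [ordAt, Module.length_eq_zero_iff, Ideal.Quotient.subsingleton_iff, Ideal.eq_top_iff_one]
  have h1 : algebraMap R (Localization.AtPrime Q) g ∈
      (P ⊔ Ideal.span {g}).map (algebraMap R (Localization.AtPrime Q)) :=
    Ideal.mem_map_of_mem _ (Ideal.mem_sup_right (Ideal.mem_span_singleton_self g))
  have hu : IsUnit (algebraMap R (Localization.AtPrime Q) g) :=
    IsLocalization.map_units (Localization.AtPrime Q) (⟨g, hg⟩ : Q.primeCompl)
  rw [Ideal.eq_top_of_isUnit_mem _ h1 hu]
  exact Submodule.mem_top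

/-- A prime of codimension one in `P` containing an element `g` outside `P` is a minimal prime over
`P + (g)`. -/
lemma CodimOne.mem_minimalPrimes {R : Type} [CommRing R] {P Q : Ideal R} [hQ : Q.IsPrime]
    (h : CodimOne P Q) {g : R} (hg : g ∉ P) (hgQ : g ∈ Q) :
    Q ∈ (P ⊔ Ideal.span {g}).minimalPrimes := by
  refine ⟨⟨hQ, sup_le h.1.le ((Ideal.span_singleton_le_iff_mem Q).2 hgQ)⟩, ?_⟩
  rintro L ⟨hL, hPL⟩ hLQ
  rcases hLQ.lt_or_eq with hlt | heq
  · exact absurd ((h.2 L hL (le_sup_left.trans hPL) hlt) ▸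
      (hPL (Ideal.mem_sup_right (Ideal.mem_span_singleton_self g)))) hg
  · exact heq.ge

lemma Pt.I_injective : Function.Injective (fun Q : Pt X N => Q.I) := by
  intro Q Q' h
  cases Q
  cases Q'
  congr

/-- Only finitely many points of codimension one in `P` contain a given element outside `P`. -/
lemma finite_codimOne [Finite ι] (P : Pt X N) {g : Coord ι N} (hg : g ∉ P.I) :
    {Q : Pt X N | CodimOne P.I Q.I ∧ g ∈ Q.I}.Finite := by
  have hfin : (P.I ⊔ Ideal.span {g}).minimalPrimes.Finite :=
    Ideal.finite_minimalPrimes_of_isNoetherianRing _ _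
  refine Set.Finite.of_finite_image (f := fun Q : Pt X N => Q.I) ?_
    ((Pt.I_injective X).injOn)
  refine hfin.subset ?_
  rintro _ ⟨Q, ⟨hQ, hgQ⟩, rfl⟩
  have := Q.prime
  exact hQ.mem_minimalPrimes hg hgQ

/-- The divisor of `g / h` on `P` exists as a cycle. -/
theorem exists_isDivisor [Finite ι] (P : Pt X N) {g h : Coord ι N} (hg : g ∉ P.I)
    (hh : h ∉ P.I) : ∃ c : Cycles X N, IsDivisor X P g h c := by
  classical
  set v : Pt X N → ℤ := fun Q => if CodimOne P.I Q.I then
    (haveI := Q.prime; ((ordAt P.I Q.I g).toNat : ℤ) - ((ordAt P.I Q.I h).toNat : ℤ)) else 0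
    with hv
  have hfin : (Function.support v).Finite := by
    refine ((finite_codimOne X P hg).union (finite_codimOne X P hh)).subset ?_
    intro Q hQ
    rw [Function.mem_support] at hQ
    have := Q.prime
    by_contra hcon
    apply hQ
    rw [hv]
    beta_reduce
    split_ifs with hc
    · have h1 : g ∉ Q.I := fun h' => hcon (Or.inl ⟨hc, h'⟩)
      have h2 : h ∉ Q.I := fun h' => hcon (Or.inr ⟨hc, h'⟩)
      rw [ordAt_eq_zero_of_not_mem _ _ _ h1, ordAt_eq_zero_of_not_mem _ _ _ h2]
      simp
    · rfl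
  refine ⟨Finsupp.ofSupportFinite v hfin, ?_⟩
  intro Q
  rw [Finsupp.ofSupportFinite_coe, hv]

end Pool.Agent.RCH
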