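import Pool.Agent.RCH.DSLt
import Pool.Agent.RCH.DSSta
import Pool.Agent.RCH.DSCL2
import Pool.Agent.RCH.DSBox
import Pool.Agent.RCH.DSNot
import Pool.Agent.RCH.DSLG1
import Pool.Agent.RCH.DSLG2
import Pool.Agent.RCH.DSLG3
import Pool.Agent.RCH.Ord2
import Pool.Agent.RCH.Fin
import Pool.Agent.RCH.Ext

/-!
# The divisor on the fibre product
-/

set_option autoImplicit false

namespace Pool.Agent.RCH

open MvPolynomial

namespace DSData

variable (S : DSData)

lemma pXG_eq : S.pXG.I = S.pXD.I.comap (sg 1) := S.genIdeal_negY 1 _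

lemma pYG_eq : S.pYG.I = S.pYD.I.comap (sg 1) := S.genIdeal_negY 1 _

lemma sgn_not (b : Bool) : sgn (!b) = - sgn b := by
  cases b <;> simp [sgn]

lemma ptCC_zero (k : Fin S.t) (ε ε' : ℂ) (j : Fin 5) :
    S.ptCC k ε ε' (0, j) = S.ptC k ε (MvPolynomial.X 0 : K4) (MvPolynomial.X 1) j := rfl

lemma ptCC_one (k : Fin S.t) (ε ε' : ℂ) (j : Fin 5) :
    S.ptCC k ε ε' (1, j) = S.ptC k ε' (MvPolynomial.X 2 : K4) (MvPolynomial.X 3) j := rfl

lemma ptC_not (k : Fin S.t) (b : Bool) (a w : K4) (j : Fin 5) (hj : j ≠ 4) :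
    S.ptC k (sgn (!b)) a w j = S.ptC k (sgn b) a w j := by
  fin_cases j
  · exact (S.ptC0 k (sgn (!b)) a w).trans (S.ptC0 k (sgn b) a w).symm
  · exact (S.ptC1 k (sgn (!b)) a w).trans (S.ptC1 k (sgn b) a w).symm
  · exact (S.ptC2 k (sgn (!b)) a w).trans (S.ptC2 k (sgn b) a w).symm
  · exact (S.ptC3 k (sgn (!b)) a w).trans (S.ptC3 k (sgn b) a w).symm
  · exact absurd rfl hj

lemma ptC_not4 (k : Fin S.t) (b : Bool) (a w : K4) :
    S.ptC k (sgn (!b)) a w 4 = - S.ptC k (sgn b) a w 4 := by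
  rw [ptC4, ptC4, sgn_not, neg_mul, map_neg, neg_mul]

lemma ptCC_not (k : Fin S.t) (b b' : Bool) :
    S.ptCC k (sgn b) (sgn (!b')) = negY 1 (S.ptCC k (sgn b) (sgn b')) := by
  funext v
  obtain ⟨i, j⟩ := v
  rw [negY]
  by_cases hij : (i, j) = ((1, 4) : Fin 2 × Fin 5)
  · rw [if_pos hij]
    obtain ⟨rfl, rfl⟩ := Prod.mk.inj hij
    rw [ptCC_one, ptCC_one, ptC_not4]
  · rw [if_neg hij]
    by_cases hi : i = 0
    · subst hi
      rw [ptCC_zero, ptCC_zero]
    · have hi1 : i = 1 := by omega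
      subst hi1
      rw [ptCC_one, ptCC_one]
      exact S.ptC_not k b' _ _ j (fun h => hij (by rw [h]))

lemma pCC_I (k : Fin S.t) (b b' : Bool) :
    (S.pCC k b b').I = genIdeal S.V (S.ptCC k (sgn b) (sgn b')) := rfl

lemma pCC_eq (k : Fin S.t) (b b' : Bool) :
    (S.pCC k b (!b')).I = (S.pCC k b b').I.comap (sg 1) := by
  rw [pCC_I, pCC_I, ← genIdeal_negY, ptCC_not]

lemma sg_NN : sg 1 S.NN = S.DD := by
  rw [NN, DD, map_sub, map_mul, map_mul, sg_uu, sg_uu, sg_X_self, sg_X_of_ne 1 (v := (0, 4)) (by decide)]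
  ring

lemma sg_DD : sg 1 S.DD = S.NN := by
  rw [← sg_NN, sg_sg]

lemma sg0_NN : sg 0 S.NN = - S.DD := by
  rw [NN, DD, map_sub, map_mul, map_mul, sg_uu, sg_uu, sg_X_self, sg_X_of_ne 0 (v := (1, 4)) (by decide)]
  ring

lemma sg_ell (k : Fin S.t) : sg 1 (S.ell k) = S.ell k := by
  have hC : ∀ a : ℂ, sg 1 (C a : Coord (Fin 5) 2) = C a := sg_C 1
  rw [ell, map_sub, map_mul, map_mul, hC, hC, sg_X_of_ne 1 (v := (0, 1)) (by decide),
    sg_X_of_ne 1 (v := (0, 2)) (by decide)]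

lemma NN_mul_DD_notMem (Q : Ideal (Coord (Fin 5) 2)) [Q.IsPrime] (h : S.pV.I ≤ Q)
    (h0 : (X (0, 4) : Coord (Fin 5) 2) ∉ Q) (h1 : (X (1, 4) : Coord (Fin 5) 2) ∉ Q)
    (hN : S.NN ∈ Q) : S.DD ∉ Q := by
  intro hD
  have h2 : S.NN + S.DD = C 2 * (X (0, 4) * S.uu 2 1) := by
    rw [NN, DD]
    have : (C (2 : ℂ) : Coord (Fin 5) 2) = 2 := map_ofNat C 2
    rw [this]
    ring
  have h3 : C 2 * (X (0, 4) * S.uu 2 1) ∈ Q := by
    rw [← h2]
    exact Q.add_mem hN hD
  have h4 : X (0, 4) * S.uu 2 1 ∈ Q := by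
    have h5 := Q.mul_mem_left (C (2⁻¹ : ℂ)) h3
    rw [← mul_assoc, ← C_mul] at h5
    norm_num at h5
    exact h5
  rcases Ideal.IsPrime.mem_or_mem (I := Q) inferInstance h4 with h5 | h5
  · exact h0 h5
  · have h6 := h (S.pV_sq 1)
    have h7 : (X (1, 4) : Coord (Fin 5) 2) ^ 2 ∈ Q := by
      have : (X (1, 4) : Coord (Fin 5) 2) ^ 2 =
          (X (1, 4) ^ 2 - S.uu 2 1 * S.vv 2 1) + S.uu 2 1 * S.vv 2 1 := by ring
      rw [this]
      exact Q.add_mem h6 (Q.mul_mem_right _ h5)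
    exact h1 (Ideal.IsPrime.mem_of_pow_mem (I := Q) inferInstance 2 h7)

/-! ### Orders at the special points -/

lemma ord_pYD : (have := S.pYD.prime; ordAt S.pV.I S.pYD.I S.NN) = (1 : ℕ) := by
  have := S.pV.prime
  have := S.pYD.prime
  refine ordAt_eq S.pV_lt_pYD.le S.dl_pYD S.dl_pV S.lg2 (s := X (0, 1) ^ S.m * S.DD)
    (s' := -(S.uu 2 0 * S.uu 2 1 * X (1, 1) ^ (S.m - 1) * S.WW)) ?_ ?_ ?_
  · intro h
    rcases Ideal.IsPrime.mem_or_mem (I := S.pYD.I) inferInstance h with h1 | h1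
    · exact S.X1_pYD 0 (Ideal.IsPrime.mem_of_pow_mem (I := S.pYD.I) inferInstance _ h1)
    · exact S.DD_pYD h1
  · intro h
    rw [neg_mem_iff] at h
    rcases Ideal.IsPrime.mem_or_mem (I := S.pYD.I) inferInstance h with h1 | h1
    · rcases Ideal.IsPrime.mem_or_mem (I := S.pYD.I) inferInstance h1 with h2 | h2
      · rcases Ideal.IsPrime.mem_or_mem (I := S.pYD.I) inferInstance h2 with h3 | h3
        · exact S.uu_pYD 0 h3
        · exact S.uu_pYD 1 h3
      · exact S.X1_pYD 1 (Ideal.IsPrime.mem_of_pow_mem (I := S.pYD.I) inferInstance _ h2)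
    · exact S.WW_pYD h1
  · have h := S.idn 1 (Or.inl rfl)
    have h2 : X (0, 1) ^ S.m * S.DD * S.NN -
        -(S.uu 2 0 * S.uu 2 1 * X (1, 1) ^ (S.m - 1) * S.WW) * dl 1 ^ 1 =
        X (0, 1) ^ S.m * (S.NN * S.DD) + S.uu 2 0 * S.uu 2 1 * X (1, 1) ^ (S.m - 1) *
        (S.WW * dl 1) := by ring
    rw [h2]
    exact h

lemma ord_pCC (k : Fin S.t) (b b' : Bool) (G H : Coord (Fin 5) 2)
    (hGH : G * H = S.NN * S.DD) (hH : H ∉ (S.pCC k b b').I) :
    (have := (S.pCC k b b').prime; ordAt S.pV.I (S.pCC k b b').I G) = (S.n k : ℕ) := by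
  have := S.pV.prime
  have := (S.pCC k b b').prime
  obtain ⟨j, hj, hx0, hx1, hd⟩ := S.X12_pCC k b b'
  have hpr : Ideal.IsPrime (S.pCC k b b').I := inferInstance
  refine ordAt_eq (S.pV_lt_pCC k b b').le (S.ell_pCC k b b') (S.ell_pV k) (S.lg3 k b b')
    (s := X (0, j) ^ S.m * H)
    (s' := -(S.uu 2 0 * S.uu 2 1 * X (1, j) ^ (S.m - 1) *
      (C S.ka * (∏ i ∈ Finset.univ.erase k, S.ell i ^ S.n i) * dl j))) ?_ ?_ ?_
  · intro h
    rcases hpr.mem_or_mem h with h1 | h1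
    · exact hx0 (hpr.mem_of_pow_mem _ h1)
    · exact hH h1
  · intro h
    rw [neg_mem_iff] at h
    rcases hpr.mem_or_mem h with h1 | h1
    · rcases hpr.mem_or_mem h1 with h2 | h2
      · rcases hpr.mem_or_mem h2 with h3 | h3
        · exact S.uu_pCC k b b' 0 h3
        · exact S.uu_pCC k b b' 1 h3
      · exact hx1 (hpr.mem_of_pow_mem _ h2)
    · rcases hpr.mem_or_mem h1 with h2 | h2
      · rcases hpr.mem_or_mem h2 with h3 | h3
        · have hu : IsUnit (C S.ka : Coord (Fin 5) 2) :=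
            (IsUnit.mk0 _ S.hka).map (C : ℂ →+* Coord (Fin 5) 2)
          exact hpr.ne_top (Ideal.eq_top_of_isUnit_mem _ h3 hu)
        · obtain ⟨i, hi, hi'⟩ := (hpr.prod_mem_iff).mp h3
          exact S.ell_pCC_ne k i (Finset.ne_of_mem_erase hi) b b' (hpr.mem_of_pow_mem _ hi')
      · exact hd h2
  · have h := S.idn j hj
    have hW : S.WW = C S.ka * (∏ i ∈ Finset.univ.erase k, S.ell i ^ S.n i) * S.ell k ^ S.n k := by
      rw [WW, ← Finset.prod_erase_mul _ _ (Finset.mem_univ k)]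
      ring
    have h2 : X (0, j) ^ S.m * H * G -
        -(S.uu 2 0 * S.uu 2 1 * X (1, j) ^ (S.m - 1) *
      (C S.ka * (∏ i ∈ Finset.univ.erase k, S.ell i ^ S.n i) * dl j)) * S.ell k ^ S.n k =
        X (0, j) ^ S.m * (S.NN * S.DD) + S.uu 2 0 * S.uu 2 1 * X (1, j) ^ (S.m - 1) *
        (S.WW * dl j) := by
      rw [hW, ← hGH]
      ring
    rw [h2]
    exact h

lemma codim_pYD : CodimOne S.pV.I S.pYD.I := by
  have := S.pV.prime
  have := S.pYD.prime
  exact codimOne_of S.pV_lt_pYD.le S.dl_pYD S.dl_pV S.lg2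

lemma codim_pCC (k : Fin S.t) (b b' : Bool) : CodimOne S.pV.I (S.pCC k b b').I := by
  have := S.pV.prime
  have := (S.pCC k b b').prime
  exact codimOne_of (S.pV_lt_pCC k b b').le (S.ell_pCC k b b') (S.ell_pV k) (S.lg3 k b b')

lemma codim_pYG : CodimOne S.pV.I S.pYG.I := by
  refine codimOne_equiv (sg 1) (P := S.pV.I) (Q := S.pYD.I) (P' := S.pV.I) (Q' := S.pYG.I)
    (fun x => S.pV_stable 1 x) (fun x => ?_) S.codim_pYD
  rw [S.pYG_eq, Ideal.mem_comap, sg_sg]

lemma ord_pYG : (have := S.pYG.prime; ordAt S.pV.I S.pYG.I S.DD) = (1 : ℕ) := by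
  have := S.pYG.prime
  have := S.pYD.prime
  rw [ordAt_equiv (sg 1) (P := S.pV.I) (Q := S.pYG.I) (P' := S.pV.I) (Q' := S.pYD.I)
    (fun x => S.pV_stable 1 x) (fun x => by rw [S.pYG_eq, Ideal.mem_comap]) S.DD, sg_DD]
  exact S.ord_pYD

lemma NN_pYG : S.NN ∉ S.pYG.I := by
  rw [S.pYG_eq, Ideal.mem_comap, sg_NN]
  exact S.DD_pYD

lemma X4_pYG (i : Fin 2) : (X (i, 4) : Coord (Fin 5) 2) ∉ S.pYG.I := by
  rw [S.pYG_eq, Ideal.mem_comap]
  fin_cases i
  · show sg 1 (X (0, 4)) ∉ _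
    rw [sg_X_of_ne 1 (v := (0, 4)) (by decide)]
    exact S.X4_pYD 0
  · show sg 1 (X (1, 4)) ∉ _
    rw [sg_X_self, neg_mem_iff]
    exact S.X4_pYD 1

lemma ell_pYG (k : Fin S.t) : S.ell k ∉ S.pYG.I := by
  rw [S.pYG_eq, Ideal.mem_comap, sg_ell]
  exact S.ell_pYD_nt k

lemma NN_pCC' (k : Fin S.t) (b : Bool) : S.NN ∉ (S.pCC k b (!b)).I := by
  rw [S.pCC_eq, Ideal.mem_comap, sg_NN]
  exact S.DD_pCC k b

/-- the divisor of the function on the fibre product -/
noncomputable def cV : Cycles S.V 2 :=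
  Finsupp.single S.pYD 1 - Finsupp.single S.pYG 1 +
    ∑ k, (S.n k : ℤ) • (Finsupp.single (S.pCC k true true) 1 +
      Finsupp.single (S.pCC k false false) 1 - Finsupp.single (S.pCC k true false) 1 -
      Finsupp.single (S.pCC k false true) 1)

lemma pYD_ne_pYG : S.pYD ≠ S.pYG := fun h => S.NN_pYG (h ▸ S.NN_pYD)

lemma pYD_ne_pCC (k : Fin S.t) (b b' : Bool) : S.pYD ≠ S.pCC k b b' :=
  fun h => S.ell_pYD_nt k (h ▸ S.ell_pCC k b b')

lemma pYG_ne_pCC (k : Fin S.t) (b b' : Bool) : S.pYG ≠ S.pCC k b b' :=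
  fun h => S.ell_pYG k (h ▸ S.ell_pCC k b b')

lemma crv_pCC (k : Fin S.t) (b b' : Bool) : S.crv 0 k (sgn b) ∈ (S.pCC k b b').I :=
  S.crv_mem _ 0 k (sgn b) (MvPolynomial.X 0) (MvPolynomial.X 1) (fun _ => rfl)

lemma crv_pCC_ne (k : Fin S.t) (b b' : Bool) : S.crv 0 k (sgn b) ∉ (S.pCC k (!b) b').I := by
  intro h
  have hpr := (S.pCC k (!b) b').prime
  have h1 := Ideal.sub_mem _ (S.crv_pCC k (!b) b') h
  have h2 : S.crv 0 k (sgn (!b)) - S.crv 0 k (sgn b) = C (2 * (sgn b * S.ga k)) * S.uu 2 0 := by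
    have h4 : (C (2 * (sgn b * S.ga k)) : Coord (Fin 5) 2) = 2 * C (sgn b * S.ga k) := by
      rw [C_mul]
      have : (C (2 : ℂ) : Coord (Fin 5) 2) = 2 := map_ofNat C 2
      rw [this]
    rw [crv, crv, sgn_not, neg_mul, C_neg, h4]
    ring
  rw [h2] at h1
  rcases hpr.mem_or_mem h1 with h3 | h3
  · have hu : IsUnit (C (2 * (sgn b * S.ga k)) : Coord (Fin 5) 2) :=
      (IsUnit.mk0 _ (mul_ne_zero two_ne_zero (mul_ne_zero (sgn_ne b) (S.hga k)))).map
        (C : ℂ →+* Coord (Fin 5) 2)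
    exact hpr.ne_top (Ideal.eq_top_of_isUnit_mem _ h3 hu)
  · exact S.uu_pCC k (!b) b' 0 h3

lemma not_of_ne {b c : Bool} (h : b ≠ c) : c = !b := by
  revert h
  cases b <;> cases c <;> decide

lemma bool_of_iff {b b' c' : Bool} (h : b = b' ↔ b = c') : b' = c' := by
  revert h
  cases b <;> cases b' <;> cases c' <;> decide

lemma NN_pCC_iff (k : Fin S.t) (b b' : Bool) : S.NN ∈ (S.pCC k b b').I ↔ b = b' := by
  constructor
  · intro h
    by_contra hne
    rw [not_of_ne hne] at h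
    exact S.NN_pCC' k b h
  · rintro rfl
    exact S.NN_pCC k b

lemma pCC_inj (k : Fin S.t) (b b' c c' : Bool) (h : (S.pCC k b b').I = (S.pCC k c c').I) :
    b = c ∧ b' = c' := by
  have h0 : b = c := by
    by_contra hne
    have hc : c = !b := not_of_ne hne
    subst hc
    have h1 := S.crv_pCC k b b'
    rw [h] at h1
    exact S.crv_pCC_ne k b c' h1
  subst h0
  refine ⟨rfl, bool_of_iff (b := b) ?_⟩
  rw [← S.NN_pCC_iff k b b', h, S.NN_pCC_iff k b c']

lemma pCC_eq_iff (k j : Fin S.t) (b b' c c' : Bool) :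
    S.pCC k b b' = S.pCC j c c' ↔ k = j ∧ b = c ∧ b' = c' := by
  constructor
  · intro h
    have hkj : k = j := by
      by_contra hne
      exact S.ell_pCC_ne k j (fun h' => hne h'.symm) b b' (by rw [h]; exact S.ell_pCC j c c')
    subst hkj
    exact ⟨rfl, S.pCC_inj k b b' c c' (by rw [h])⟩
  · rintro ⟨rfl, rfl, rfl⟩
    rfl

lemma cV_pYD : S.cV S.pYD = 1 := by
  classical
  rw [cV, Finsupp.add_apply, Finsupp.sub_apply, Finsupp.finsetSum_apply]
  simp only [Finsupp.smul_apply, Finsupp.add_apply, Finsupp.sub_apply, Finsupp.single_apply]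
  simp [(S.pYD_ne_pYG).symm, fun k b b' => (S.pYD_ne_pCC k b b').symm]

lemma cV_pYG : S.cV S.pYG = -1 := by
  classical
  rw [cV, Finsupp.add_apply, Finsupp.sub_apply, Finsupp.finsetSum_apply]
  simp only [Finsupp.smul_apply, Finsupp.add_apply, Finsupp.sub_apply, Finsupp.single_apply]
  simp [S.pYD_ne_pYG, fun k b b' => (S.pYG_ne_pCC k b b').symm]

lemma cV_pCC (k : Fin S.t) (b b' : Bool) :
    S.cV (S.pCC k b b') = if b = b' then (S.n k : ℤ) else -(S.n k : ℤ) := by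
  classical
  rw [cV, Finsupp.add_apply, Finsupp.sub_apply, Finsupp.finsetSum_apply]
  rw [Finset.sum_eq_single k]
  · simp only [Finsupp.smul_apply, Finsupp.add_apply, Finsupp.sub_apply, Finsupp.single_apply,
      pCC_eq_iff, S.pYD_ne_pCC, S.pYG_ne_pCC]
    cases b <;> cases b' <;> simp
  · intro j _ hj
    simp only [Finsupp.smul_apply, Finsupp.add_apply, Finsupp.sub_apply, Finsupp.single_apply,
      pCC_eq_iff]
    simp [hj]
  · intro h
    exact absurd (Finset.mem_univ k) h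

lemma cV_other (Q : Pt S.V 2) (h1 : S.pYD ≠ Q) (h2 : S.pYG ≠ Q)
    (h3 : ∀ k b b', S.pCC k b b' ≠ Q) : S.cV Q = 0 := by
  classical
  rw [cV, Finsupp.add_apply, Finsupp.sub_apply, Finsupp.finsetSum_apply]
  simp only [Finsupp.smul_apply, Finsupp.add_apply, Finsupp.sub_apply, Finsupp.single_apply]
  simp [h1, h2, h3]

lemma eq_of_codim {P : Ideal (Coord (Fin 5) 2)} {Q R : Pt S.V 2} (hQ : CodimOne P Q.I)
    (hR : P < R.I) (h : R.I ≤ Q.I) : R = Q := by
  apply Pt.ext'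
  by_contra hne
  exact hR.ne' (hQ.2 R.I R.prime hR.le (lt_of_le_of_ne h hne))

theorem isDivisor_V : IsDivisor S.V S.pV S.NN S.DD S.cV := by
  classical
  intro Q
  by_cases h1 : S.pYD = Q
  · subst h1
    rw [if_pos S.codim_pYD, S.cV_pYD, S.ord_pYD]
    have := S.pYD.prime
    rw [ordAt_eq_zero S.DD_pYD]
    simp
  by_cases h2 : S.pYG = Q
  · subst h2
    rw [if_pos S.codim_pYG, S.cV_pYG, S.ord_pYG]
    have := S.pYG.prime
    rw [ordAt_eq_zero S.NN_pYG]
    simp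
  by_cases h3 : ∀ k b b', S.pCC k b b' ≠ Q
  · rw [S.cV_other Q h1 h2 h3]
    split_ifs with hc
    · have := Q.prime
      by_cases hy0 : (X (0, 4) : Coord (Fin 5) 2) ∈ Q.I
      · have h := ordAt_symmetry (sg 0) (P := S.pV.I) (Q := Q.I) (fun x => S.pV_stable 0 x)
          (fun x => sg_mem_iff 0 hy0 x) (g := S.NN) (g' := S.DD) (s := -1) ?_ ?_
        · rw [h]; ring
        · intro h
          rw [neg_mem_iff] at h
          exact Q.prime.ne_top ((Ideal.eq_top_iff_one _).mpr h)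
        · rw [sg0_NN]
          have : - S.DD - -1 * S.DD = 0 := by ring
          rw [this]
          exact S.pV.I.zero_mem
      by_cases hy1 : (X (1, 4) : Coord (Fin 5) 2) ∈ Q.I
      · have h := ordAt_symmetry (sg 1) (P := S.pV.I) (Q := Q.I) (fun x => S.pV_stable 1 x)
          (fun x => sg_mem_iff 1 hy1 x) (g := S.NN) (g' := S.DD) (s := 1) ?_ ?_
        · rw [h]; ring
        · intro h
          exact Q.prime.ne_top ((Ideal.eq_top_iff_one _).mpr h)
        · rw [sg_NN]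
          have : S.DD - 1 * S.DD = 0 := by ring
          rw [this]
          exact S.pV.I.zero_mem
      have hN : S.NN ∉ Q.I := by
        intro hN
        rcases S.cl2 Q.I hc.1.le hy0 hy1 hN with h | ⟨k, b, h⟩
        · exact h1 (S.eq_of_codim hc S.pV_lt_pYD h)
        · exact h3 k b b (S.eq_of_codim hc (S.pV_lt_pCC k b b) h)
      have hD : S.DD ∉ Q.I := by
        intro hD
        have : (Q.I.comap (sg 1)).IsPrime := Ideal.comap_isPrime _ _
        have hcomap : ∀ J : Ideal (Coord (Fin 5) 2), J ≤ Q.I.comap (sg 1) →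
            J.comap (sg 1) ≤ Q.I := by
          intro J hJ x hx
          have := hJ hx
          rw [Ideal.mem_comap, sg_sg] at this
          exact this
        have c1 : S.pV.I ≤ Q.I.comap (sg 1) := by
          intro x hx
          rw [Ideal.mem_comap]
          exact hc.1.le ((S.pV_stable 1 x).mpr hx)
        have c2 : (X (0, 4) : Coord (Fin 5) 2) ∉ Q.I.comap (sg 1) := by
          rw [Ideal.mem_comap, sg_X_of_ne 1 (v := (0, 4)) (by decide)]
          exact hy0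
        have c3 : (X (1, 4) : Coord (Fin 5) 2) ∉ Q.I.comap (sg 1) := by
          rw [Ideal.mem_comap, sg_X_self, neg_mem_iff]
          exact hy1
        have c4 : X (0, 4) * S.uu 2 1 - X (1, 4) * S.uu 2 0 ∈ Q.I.comap (sg 1) := by
          rw [Ideal.mem_comap]
          have := S.sg_NN
          rw [NN] at this
          rw [this]
          exact hD
        rcases S.cl2 (Q.I.comap (sg 1)) c1 c2 c3 c4 with h | ⟨k, b, h⟩
        · have h' := hcomap _ h
          rw [← S.pYG_eq] at h'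
          exact h2 (S.eq_of_codim hc S.codim_pYG.1 h')
        · have h' := hcomap _ h
          rw [← S.pCC_eq] at h'
          exact h3 k b (!b) (S.eq_of_codim hc (S.pV_lt_pCC k b (!b)) h')
      rw [ordAt_eq_zero hN, ordAt_eq_zero hD]
      simp
    · rfl
  · push Not at h3
    obtain ⟨k, b, b', rfl⟩ := h3
    rw [if_pos (S.codim_pCC k b b'), S.cV_pCC]
    by_cases hb : b = b'
    · subst hb
      rw [if_pos rfl, S.ord_pCC k b b S.NN S.DD rfl (S.DD_pCC k b)]
      have := (S.pCC k b b).prime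
      rw [ordAt_eq_zero (S.DD_pCC k b)]
      simp
    · rw [if_neg hb]
      have hb' : b' = !b := by cases b <;> cases b' <;> simp_all
      subst hb'
      rw [S.ord_pCC k b (!b) S.DD S.NN (mul_comm _ _) (S.NN_pCC' k b)]
      have := (S.pCC k b (!b)).prime
      rw [ordAt_eq_zero (S.NN_pCC' k b)]
      simp

end DSData

end Pool.Agent.RCH
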