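import Pool.Agent.RCH.DSDom
import Pool.Agent.RCH.DSInc

/-!
# The integral subschemes used in the proof for double covers
-/

set_option autoImplicit false

namespace Pool.Agent.RCH

open MvPolynomial

namespace DSData

variable (S : DSData)

/-- a sign -/
noncomputable def sgn (b : Bool) : ℂ := if b then 1 else -1

lemma sgn_sq (b : Bool) : sgn b ^ 2 = 1 := by
  cases b <;> simp [sgn]

lemma sgn_ne (b : Bool) : sgn b ≠ 0 := by
  cases b <;> simp [sgn]

lemma eqn_negY {D : Type} [CommRing D] [Algebra ℂ D] (d : Fin 2 × Fin 5 → D) (i k : Fin 2)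
    (h : aeval (fun j => d (i, j)) S.eqn = 0) : aeval (fun j => negY k d (i, j)) S.eqn = 0 := by
  rw [aeval_eqn] at h ⊢
  have h0 : ∀ j : Fin 5, j ≠ 4 → negY k d (i, j) = d (i, j) := by
    intro j hj
    rw [negY, if_neg]
    intro h'
    exact hj (Prod.mk.inj h').2
  have h4 : negY k d (i, 4) ^ 2 = d (i, 4) ^ 2 := by
    rw [negY]
    split_ifs <;> ring
  have hc : (fun j : Fin 4 => negY k d (i, Fin.castSucc j)) = fun j => d (i, Fin.castSucc j) := by
    funext j
    apply h0
    intro h'
    fin_cases j <;> simp at h'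
  rw [h4, hc, h0 0 (by decide), h0 1 (by decide), h0 2 (by decide), h0 3 (by decide)]
  exact h

/-- the diagonal of the section `Y` -/
noncomputable def pYD : Pt S.V 2 :=
  mkPt S.V (fun v : Fin 2 × Fin 5 => S.ptY v.2)
    (fun _ => ⟨1, fun h => MvPolynomial.X_ne_zero (R := ℂ) (0 : Fin 2)
      (qC_injective (by rw [map_zero]; exact h))⟩)
    (fun i => S.onX_genIdeal _ i S.eqn_ptY)

/-- the graph of the involution on the section `Y` -/
noncomputable def pYG : Pt S.V 2 :=
  mkPt S.V (negY 1 (fun v : Fin 2 × Fin 5 => S.ptY v.2))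
    (fun i => ⟨1, fun h => MvPolynomial.X_ne_zero (R := ℂ) (0 : Fin 2) (by
      have h' : negY 1 (fun v : Fin 2 × Fin 5 => S.ptY v.2) (i, 1) = S.ptY 1 := by
        rw [negY, if_neg (by intro h'; exact absurd (Prod.mk.inj h').2 (by decide))]
      rw [h'] at h
      exact qC_injective (by rw [map_zero]; exact h))⟩)
    (fun i => S.onX_genIdeal _ i (S.eqn_negY _ i 1 S.eqn_ptY))

lemma ptX_ne : S.ptX 0 ≠ 0 := by
  intro h
  have hm : (Polynomial.X ^ 2 - Polynomial.C (branch S.p S.s S.r S.q S.P)).Monic :=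
    Polynomial.monic_X_pow_sub_C _ (by norm_num)
  have hinj : Function.Injective
      (AdjoinRoot.of (Polynomial.X ^ 2 - Polynomial.C (branch S.p S.s S.r S.q S.P))) := by
    apply AdjoinRoot.of.injective_of_degree_ne_zero
    rw [Polynomial.degree_eq_natDegree hm.ne_zero, Polynomial.natDegree_X_pow_sub_C]
    norm_num
  have h' : AdjoinRoot.of (Polynomial.X ^ 2 - Polynomial.C (branch S.p S.s S.r S.q S.P))
      (MvPolynomial.X 0) = 0 := h
  rw [← map_zero (AdjoinRoot.of _)] at h'
  exact MvPolynomial.X_ne_zero _ (hinj h')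

/-- the diagonal of the double cover -/
noncomputable def pXD : Pt S.V 2 :=
  mkPt S.V (fun v : Fin 2 × Fin 5 => S.ptX v.2)
    (fun _ => ⟨0, S.ptX_ne⟩)
    (fun i => S.onX_genIdeal _ i S.eqn_ptX)

/-- the graph of the involution of the double cover -/
noncomputable def pXG : Pt S.V 2 :=
  mkPt S.V (negY 1 (fun v : Fin 2 × Fin 5 => S.ptX v.2))
    (fun i => ⟨0, by
      rw [negY, if_neg (by intro h'; exact absurd (Prod.mk.inj h').2 (by decide))]
      exact S.ptX_ne⟩)
    (fun i => S.onX_genIdeal _ i (S.eqn_negY _ i 1 S.eqn_ptX))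

/-- the fibre product of `Y` with itself over the projective line -/
noncomputable def pV : Pt S.V 2 :=
  mkPt S.V S.ptV
    (fun i => ⟨1, by
      fin_cases i
      · intro h
        have h1 : S.c2 (S.c1 (MvPolynomial.X 0)) = 0 := h
        exact MvPolynomial.X_ne_zero (R := ℂ) (0 : Fin 3) (S.c1_injective (S.c2_injective
          (by rw [map_zero, map_zero]; exact h1)))
      · intro h
        have h1 : S.c2 (S.c1 (MvPolynomial.X 2 * MvPolynomial.X 0)) = 0 := h
        exact mul_ne_zero (MvPolynomial.X_ne_zero (R := ℂ) (2 : Fin 3))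
          (MvPolynomial.X_ne_zero (R := ℂ) (0 : Fin 3)) (S.c1_injective (S.c2_injective
          (by rw [map_zero, map_zero]; exact h1)))⟩)
    (fun i => S.onX_genIdeal _ i (S.eqn_ptV i))

/-- the product of two of the curves over the `k`-th root -/
noncomputable def pCC (k : Fin S.t) (b b' : Bool) : Pt S.V 2 :=
  mkPt S.V (S.ptCC k (sgn b) (sgn b'))
    (fun i => ⟨0, by
      fin_cases i
      · exact MvPolynomial.X_ne_zero (R := ℂ) (0 : Fin 4)
      · exact MvPolynomial.X_ne_zero (R := ℂ) (2 : Fin 4)⟩)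
    (fun i => S.onX_genIdeal _ i (by
      fin_cases i
      · exact S.eqn_ptC k (sgn b) (sgn_sq b) _ _
      · exact S.eqn_ptC k (sgn b') (sgn_sq b') _ _))

/-- the curve over the `k`-th root -/
noncomputable def pC (k : Fin S.t) (b : Bool) : Pt S.V 1 :=
  mkPt S.V (fun v : Fin 1 × Fin 5 =>
    S.ptC k (sgn b) (MvPolynomial.X 0 : MvPolynomial (Fin 2) ℂ) (MvPolynomial.X 1) v.2)
    (fun _ => ⟨0, MvPolynomial.X_ne_zero (R := ℂ) (0 : Fin 2)⟩)
    (fun i => S.onX_genIdeal _ i (S.eqn_ptC k (sgn b) (sgn_sq b) _ _))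

/-- the first of the two functions on the fibre product -/
noncomputable def NN : Coord (Fin 5) 2 :=
  MvPolynomial.X (0, 4) * S.uu 2 1 - MvPolynomial.X (1, 4) * S.uu 2 0

/-- the second of the two functions on the fibre product -/
noncomputable def DD : Coord (Fin 5) 2 :=
  MvPolynomial.X (0, 4) * S.uu 2 1 + MvPolynomial.X (1, 4) * S.uu 2 0

/-- the linear form of the `k`-th root -/
noncomputable def ell (k : Fin S.t) : Coord (Fin 5) 2 :=
  C (S.be k) * MvPolynomial.X (0, 1) - C (S.al k) * MvPolynomial.X (0, 2)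

/-- the difference of the two points of a fibre -/
noncomputable def dl (j : Fin 5) : Coord (Fin 5) 2 :=
  MvPolynomial.X (0, 0) * MvPolynomial.X (1, j) - MvPolynomial.X (1, 0) * MvPolynomial.X (0, j)

/-- the form `p q - s r` in the coordinates of the first point -/
noncomputable def WW : Coord (Fin 5) 2 := C S.ka * ∏ k, S.ell k ^ S.n k

end DSData

end Pool.Agent.RCH
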