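import Pool.Agent.RCH.DS

/-!
# The points used in the proof for double covers
-/

set_option autoImplicit false

namespace Pool.Agent.RCH

open MvPolynomial

namespace DSData

variable (S : DSData)

/-- the equation of the double cover -/
noncomputable def eqn : MvPolynomial (Fin 5) ℂ :=
  MvPolynomial.X 4 ^ 2 - rename Fin.castSucc (branch S.p S.s S.r S.q S.P)

lemma isHomogeneous_bin {n : ℕ} {p : MvPolynomial (Fin 2) ℂ} (hp : p.IsHomogeneous n) :
    (aeval ![(MvPolynomial.X 1 : MvPolynomial (Fin 4) ℂ), MvPolynomial.X 2] p).IsHomogeneous n := by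
  have h : aeval ![(MvPolynomial.X 1 : MvPolynomial (Fin 4) ℂ), MvPolynomial.X 2] p =
      rename (![1, 2] : Fin 2 → Fin 4) p := by
    have h1 : (aeval ![(MvPolynomial.X 1 : MvPolynomial (Fin 4) ℂ), MvPolynomial.X 2] :
        MvPolynomial (Fin 2) ℂ →ₐ[ℂ] _) = rename (![1, 2] : Fin 2 → Fin 4) := by
      ext j
      fin_cases j <;> simp
    rw [h1]
  rw [h]
  exact hp.rename_isHomogeneous

lemma isHomogeneous_lin {m : ℕ} (hm : 1 ≤ m) {p s : MvPolynomial (Fin 2) ℂ}
    (hp : p.IsHomogeneous (m - 1)) (hs : s.IsHomogeneous m) : (lin p s).IsHomogeneous m := by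
  rw [lin]
  refine IsHomogeneous.add ?_ (isHomogeneous_bin hs)
  have h := (isHomogeneous_bin hp).mul (isHomogeneous_X ℂ (0 : Fin 4))
  rwa [Nat.sub_add_cancel hm] at h

lemma isHomogeneous_branch : (branch S.p S.s S.r S.q S.P).IsHomogeneous (2 * S.m) := by
  rw [branch]
  refine IsHomogeneous.add ?_ ?_
  · have h := (isHomogeneous_lin S.hm S.hp S.hs).mul (isHomogeneous_lin S.hm S.hr S.hq)
    rwa [← two_mul] at h
  · have h := (isHomogeneous_X ℂ (3 : Fin 4)).mul S.hP
    have h2 : 1 + (2 * S.m - 1) = 2 * S.m := by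
      have := S.hm
      omega
    rwa [h2] at h

lemma isWeighted_rename {n : ℕ} {f : MvPolynomial (Fin 4) ℂ} (hf : f.IsHomogeneous n) :
    IsWeightedHomogeneous S.V.wt (rename Fin.castSucc f) n := by
  classical
  intro s hs
  obtain ⟨u, hu, hs'⟩ := coeff_rename_ne_zero _ _ _ hs
  have h1 := hf hs'
  rw [← hu, Finsupp.weight_apply,
    Finsupp.sum_mapDomain_index_inj (Fin.castSucc_injective 4)]
  rw [Finsupp.weight_apply] at h1
  rw [← h1]
  refine Finset.sum_congr rfl fun j _ => ?_
  have h2 : S.V.wt (Fin.castSucc j) = 1 := by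
    fin_cases j <;> rfl
  show u j • S.V.wt (Fin.castSucc j) = u j • 1
  rw [h2]

lemma isWeighted_eqn : IsWeightedHomogeneous S.V.wt S.eqn (2 * S.m) := by
  rw [eqn]
  refine IsWeightedHomogeneous.sub ?_ (S.isWeighted_rename S.isHomogeneous_branch)
  have h := (isWeightedHomogeneous_X ℂ S.V.wt (4 : Fin 5)).pow 2
  have h2 : 2 • S.V.wt 4 = 2 * S.m := by simp
  rwa [h2] at h

/-- a tuple of coordinates in an algebra satisfies the equation of the double cover -/
lemma onX_genIdeal {N : ℕ} {D : Type} [CommRing D] [Algebra ℂ D] (d : Fin N × Fin 5 → D)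
    (i : Fin N) (h : aeval (fun j => d (i, j)) S.eqn = 0) :
    ∀ f ∈ S.V.eqs, inFactor N i f ∈ genIdeal S.V d := by
  intro f hf
  have hf' : f ∈ Ideal.span {S.eqn} := hf
  obtain ⟨g, rfl⟩ := Ideal.mem_span_singleton'.mp hf'
  rw [map_mul]
  refine Ideal.mul_mem_left _ _ ?_
  rw [mem_genIdeal_of_homogeneous S.V d (inFactor_homogeneous S.V i S.isWeighted_eqn),
    inFactor_aeval, h]

/-- values of a binary form -/
noncomputable def bval {D : Type} [CommRing D] [Algebra ℂ D] (a b : D)
    (p : MvPolynomial (Fin 2) ℂ) : D := aeval ![a, b] p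

lemma aeval_branch {D : Type} [CommRing D] [Algebra ℂ D] (e : Fin 4 → D) :
    aeval e (branch S.p S.s S.r S.q S.P) =
      (bval (e 1) (e 2) S.p * e 0 + bval (e 1) (e 2) S.s) *
        (bval (e 1) (e 2) S.r * e 0 + bval (e 1) (e 2) S.q) + e 3 * aeval e S.P := by
  have h : ∀ p : MvPolynomial (Fin 2) ℂ,
      aeval e (aeval ![(MvPolynomial.X 1 : MvPolynomial (Fin 4) ℂ), MvPolynomial.X 2] p) =
      bval (e 1) (e 2) p := by
    intro p
    have h1 : (aeval e).comp (aeval ![(MvPolynomial.X 1 : MvPolynomial (Fin 4) ℂ),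
        MvPolynomial.X 2] : MvPolynomial (Fin 2) ℂ →ₐ[ℂ] _) = aeval ![e 1, e 2] := by
      ext j
      fin_cases j <;> simp
    exact congrArg (fun ψ => ψ p) h1
  rw [branch, lin, lin]
  simp only [map_add, map_mul, h, aeval_X]

lemma aeval_eqn {D : Type} [CommRing D] [Algebra ℂ D] (e : Fin 5 → D) :
    aeval e S.eqn = e 4 ^ 2 -
      ((bval (e 1) (e 2) S.p * e 0 + bval (e 1) (e 2) S.s) *
        (bval (e 1) (e 2) S.r * e 0 + bval (e 1) (e 2) S.q) +
        e 3 * aeval (fun j => e (Fin.castSucc j)) S.P) := by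
  rw [eqn, map_sub, map_pow, aeval_X, aeval_rename, aeval_branch]
  rfl

/-- a linear form is not zero -/
lemma linear_ne_zero {a b : ℂ} (h : a ≠ 0 ∨ b ≠ 0) :
    (C b * MvPolynomial.X 0 - C a * MvPolynomial.X 1 : MvPolynomial (Fin 2) ℂ) ≠ 0 := by
  intro h0
  have h1 := congrArg (eval ![(1 : ℂ), 0]) h0
  have h2 := congrArg (eval ![(0 : ℂ), 1]) h0
  simp at h1 h2
  rcases h with h | h
  · exact h h2
  · exact h h1

lemma W_ne_zero : S.p * S.q - S.s * S.r ≠ 0 := by
  rw [S.hW]
  refine mul_ne_zero (fun h => S.hka (by simpa using h)) ?_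
  rw [Finset.prod_ne_zero_iff]
  intro i _
  exact pow_ne_zero _ (linear_ne_zero (S.hne i))

/-! ### The section `Y` of the double cover by `x_3 = 0` -/

/-- the coordinate ring of `Y` -/
abbrev RY : Type := QD S.p S.s S.r S.q

instance : IsDomain S.RY := isDomain_QD S.W_ne_zero

/-- the coordinates of the generic point of `Y` -/
noncomputable def ptY : Fin 5 → S.RY :=
  ![qT _ _ _ _, qC _ _ _ _ (MvPolynomial.X 0), qC _ _ _ _ (MvPolynomial.X 1), 0, qY _ _ _ _]

lemma algebraMap_QD {A : Type} [CommRing A] [Algebra ℂ A] (a b c d : A) (x : ℂ) :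
    algebraMap ℂ (QD a b c d) x = qC a b c d (algebraMap ℂ A x) := rfl

lemma bval_qC {A : Type} [CommRing A] [Algebra ℂ A] (a b c d : A) (x y : A)
    (p : MvPolynomial (Fin 2) ℂ) :
    bval (qC a b c d x) (qC a b c d y) p = qC a b c d (aeval ![x, y] p) := by
  have h : (aeval ![qC a b c d x, qC a b c d y] : MvPolynomial (Fin 2) ℂ →ₐ[ℂ] _).toRingHom =
      (qC a b c d).comp (aeval ![x, y] : MvPolynomial (Fin 2) ℂ →ₐ[ℂ] A).toRingHom := by
    apply MvPolynomial.ringHom_ext
    · intro a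
      simp [algebraMap_QD]
    · intro j
      fin_cases j <;> simp
  exact congrArg (fun ψ => ψ p) h

lemma bval_X (p : MvPolynomial (Fin 2) ℂ) : bval (MvPolynomial.X 0) (MvPolynomial.X 1) p = p := by
  have h : (![MvPolynomial.X 0, MvPolynomial.X 1] : Fin 2 → MvPolynomial (Fin 2) ℂ) =
      MvPolynomial.X := by
    funext j
    fin_cases j <;> rfl
  rw [bval, h, aeval_X_left_apply]

lemma eqn_ptY : aeval S.ptY S.eqn = 0 := by
  rw [aeval_eqn]
  have h0 : S.ptY 0 = qT _ _ _ _ := rfl
  have h1 : S.ptY 1 = qC _ _ _ _ (MvPolynomial.X 0) := rfl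
  have h2 : S.ptY 2 = qC _ _ _ _ (MvPolynomial.X 1) := rfl
  have h3 : S.ptY 3 = 0 := rfl
  have h4 : S.ptY 4 = qY _ _ _ _ := rfl
  rw [h0, h1, h2, h3, h4, qY_sq, bval_qC, bval_qC, bval_qC, bval_qC]
  have hb := bval_X
  simp only [bval] at hb
  rw [hb, hb, hb, hb]
  ring

/-! ### The double cover itself -/

/-- the coordinate ring of the double cover -/
abbrev RX : Type :=
  AdjoinRoot (Polynomial.X ^ 2 - Polynomial.C (branch S.p S.s S.r S.q S.P))

/-- the coordinates of the generic point of the double cover -/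
noncomputable def ptX : Fin 5 → S.RX :=
  ![AdjoinRoot.of _ (MvPolynomial.X 0), AdjoinRoot.of _ (MvPolynomial.X 1),
    AdjoinRoot.of _ (MvPolynomial.X 2), AdjoinRoot.of _ (MvPolynomial.X 3), AdjoinRoot.root _]

lemma root_sq : (AdjoinRoot.root (Polynomial.X ^ 2 - Polynomial.C (branch S.p S.s S.r S.q S.P)) :
    S.RX) ^ 2 = AdjoinRoot.of _ (branch S.p S.s S.r S.q S.P) := by
  have h := AdjoinRoot.eval₂_root
    (Polynomial.X ^ 2 - Polynomial.C (branch S.p S.s S.r S.q S.P))
  rw [Polynomial.eval₂_sub, Polynomial.eval₂_pow, Polynomial.eval₂_X, Polynomial.eval₂_C,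
    sub_eq_zero] at h
  exact h

lemma eqn_ptX : aeval S.ptX S.eqn = 0 := by
  have h4 : S.ptX 4 = AdjoinRoot.root _ := rfl
  rw [eqn, map_sub, map_pow, aeval_X, aeval_rename, h4, root_sq, sub_eq_zero]
  have h : (aeval (S.ptX ∘ Fin.castSucc) : MvPolynomial (Fin 4) ℂ →ₐ[ℂ] S.RX).toRingHom =
      AdjoinRoot.of _ := by
    apply MvPolynomial.ringHom_ext
    · intro a
      simp
      rfl
    · intro j
      fin_cases j <;> simp [ptX]
  exact (congrArg (fun ψ => ψ (branch S.p S.s S.r S.q S.P)) h).symm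

/-! ### The fibre product of `Y` with itself over the projective line -/

/-- polynomials in `x_1, x_2` and a scaling parameter -/
abbrev A0 : Type := MvPolynomial (Fin 3) ℂ

/-- a binary form as an element of `A0` -/
noncomputable def f2 (p : MvPolynomial (Fin 2) ℂ) : A0 :=
  bval (MvPolynomial.X 0) (MvPolynomial.X 1) p

/-- the coordinate ring of the first copy of `Y` -/
abbrev B1 : Type := QD (f2 S.p) (f2 S.s) (f2 S.r) (f2 S.q)

/-- the constants of `B1` -/
noncomputable def c1 : A0 →+* S.B1 := qC _ _ _ _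

/-- a binary form at the scaled second point -/
noncomputable def g2 (p : MvPolynomial (Fin 2) ℂ) : S.B1 :=
  bval (S.c1 (MvPolynomial.X 2 * MvPolynomial.X 0)) (S.c1 (MvPolynomial.X 2 * MvPolynomial.X 1)) p

/-- the coordinate ring of the fibre product of `Y` with itself -/
abbrev B2 : Type := QD (S.g2 S.p) (S.g2 S.s) (S.g2 S.r) (S.g2 S.q)

/-- the constants of `B2` -/
noncomputable def c2 : S.B1 →+* S.B2 := qC _ _ _ _

/-- the coordinates of the generic point of the fibre product -/
noncomputable def ptV (v : Fin 2 × Fin 5) : S.B2 :=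
  if v.1 = 0 then
    ![S.c2 (qT _ _ _ _), S.c2 (S.c1 (MvPolynomial.X 0)), S.c2 (S.c1 (MvPolynomial.X 1)), 0,
      S.c2 (qY _ _ _ _)] v.2
  else
    ![qT _ _ _ _, S.c2 (S.c1 (MvPolynomial.X 2 * MvPolynomial.X 0)),
      S.c2 (S.c1 (MvPolynomial.X 2 * MvPolynomial.X 1)), 0, qY _ _ _ _] v.2

lemma f2_injective : Function.Injective f2 := by
  have h : f2 = rename (![0, 1] : Fin 2 → Fin 3) := by
    funext p
    have h1 : (aeval ![MvPolynomial.X 0, MvPolynomial.X 1] : MvPolynomial (Fin 2) ℂ →ₐ[ℂ] A0) =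
        rename (![0, 1] : Fin 2 → Fin 3) := by
      ext j
      fin_cases j <;> simp
    exact congrArg (fun ψ => ψ p) h1
  rw [h]
  apply rename_injective
  intro a b hab
  fin_cases a <;> fin_cases b <;> simp_all

lemma bval_sub {D : Type} [CommRing D] [Algebra ℂ D] (a b : D) (p q : MvPolynomial (Fin 2) ℂ) :
    bval a b (p - q) = bval a b p - bval a b q := map_sub _ _ _

lemma bval_add {D : Type} [CommRing D] [Algebra ℂ D] (a b : D) (p q : MvPolynomial (Fin 2) ℂ) :
    bval a b (p + q) = bval a b p + bval a b q := map_add _ _ _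

lemma bval_mul {D : Type} [CommRing D] [Algebra ℂ D] (a b : D) (p q : MvPolynomial (Fin 2) ℂ) :
    bval a b (p * q) = bval a b p * bval a b q := map_mul _ _ _

instance : IsDomain S.B1 := by
  refine isDomain_QD ?_
  have h : f2 S.p * f2 S.q - f2 S.s * f2 S.r = f2 (S.p * S.q - S.s * S.r) := by
    simp only [f2, bval_sub, bval_mul]
  rw [h]
  intro h0
  apply S.W_ne_zero
  apply f2_injective
  rw [h0]
  simp [f2, bval]

lemma c1_injective : Function.Injective S.c1 := qC_injective

lemma c2_injective [IsDomain S.B1] : Function.Injective S.c2 := qC_injective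

/-! ### The products of the curves over the roots -/

/-- polynomials in the four coordinates `x_0, w, x_0', w'` -/
abbrev K4 : Type := MvPolynomial (Fin 4) ℂ

/-- the value of `p x_0 + s` on the line over the `k`-th root -/
noncomputable def uC {D : Type} [CommRing D] [Algebra ℂ D] (k : Fin S.t) (a w : D) : D :=
  bval (algebraMap ℂ D (S.al k) * w) (algebraMap ℂ D (S.be k) * w) S.p * a +
    bval (algebraMap ℂ D (S.al k) * w) (algebraMap ℂ D (S.be k) * w) S.s

/-- the coordinates of the generic point of the curve over the `k`-th root with sign `ε` -/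
noncomputable def ptC {D : Type} [CommRing D] [Algebra ℂ D] (k : Fin S.t) (ε : ℂ) (a w : D) :
    Fin 5 → D :=
  ![a, algebraMap ℂ D (S.al k) * w, algebraMap ℂ D (S.be k) * w, 0,
    algebraMap ℂ D (ε * S.ga k) * S.uC k a w]

/-- the coordinates of the generic point of the product of two of the curves over a root -/
noncomputable def ptCC (k : Fin S.t) (ε ε' : ℂ) (v : Fin 2 × Fin 5) : K4 :=
  if v.1 = 0 then S.ptC k ε (MvPolynomial.X 0) (MvPolynomial.X 1) v.2
  else S.ptC k ε' (MvPolynomial.X 2) (MvPolynomial.X 3) v.2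

/-- the involution `y ↦ -y` on coordinates of the `i`-th point -/
def negY {D : Type} [Neg D] (i : Fin 2) (d : Fin 2 × Fin 5 → D) (v : Fin 2 × Fin 5) : D :=
  if v = (i, 4) then - d v else d v

end DSData

end Pool.Agent.RCH
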