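import Pool.Agent.RCH.DSPt

/-!
# Relations between the coordinates of the points
-/

set_option autoImplicit false

namespace Pool.Agent.RCH

open MvPolynomial

namespace DSData

variable (S : DSData)

lemma mem_genIdeal {D : Type} [CommRing D] [Algebra ℂ D] {d : Fin 2 × Fin 5 → D}
    {z : Coord (Fin 5) 2} : z ∈ genIdeal S.V d ↔ genHom S.V d z = 0 := RingHom.mem_ker

lemma genHom_var {D : Type} [CommRing D] [Algebra ℂ D] (d : Fin 2 × Fin 5 → D)
    (v : Fin 2 × Fin 5) : genHom S.V d (MvPolynomial.X v) =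
      C (d v) * MvPolynomial.X v.1 ^ (S.V.wt v.2) := by
  rw [genHom, aeval_X]

lemma wt_castSucc (a : Fin 4) : S.V.wt (Fin.castSucc a) = 1 := by
  fin_cases a <;> rfl

/-- proportional coordinates -/
lemma minor_mem {D : Type} [CommRing D] [Algebra ℂ D] {d : Fin 2 × Fin 5 → D} {a b : Fin 5}
    (ha : S.V.wt a = 1) (hb : S.V.wt b = 1) (h : d (0, a) * d (1, b) = d (0, b) * d (1, a)) :
    (MvPolynomial.X (0, a) * MvPolynomial.X (1, b) -
      MvPolynomial.X (0, b) * MvPolynomial.X (1, a) : Coord (Fin 5) 2) ∈ genIdeal S.V d := by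
  rw [mem_genIdeal, map_sub, map_mul, map_mul, genHom_var, genHom_var, genHom_var, genHom_var]
  simp only [ha, hb, pow_one]
  have h1 : (C (d (0, a)) * C (d (1, b)) : MvPolynomial (Fin 2) D) =
      C (d (0, b)) * C (d (1, a)) := by
    rw [← C_mul, ← C_mul, h]
  linear_combination (MvPolynomial.X 0 * MvPolynomial.X 1) * h1

/-- the coordinate `y` at a point of the diagonal -/
lemma minorY_mem {D : Type} [CommRing D] [Algebra ℂ D] {d : Fin 2 × Fin 5 → D} {a : Fin 5}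
    (ha : S.V.wt a = 1)
    (h : d (0, a) ^ S.m * d (1, 4) = d (1, a) ^ S.m * d (0, 4)) :
    (MvPolynomial.X (0, a) ^ S.m * MvPolynomial.X (1, 4) -
      MvPolynomial.X (1, a) ^ S.m * MvPolynomial.X (0, 4) : Coord (Fin 5) 2) ∈
      genIdeal S.V d := by
  rw [mem_genIdeal, map_sub, map_mul, map_mul, map_pow, map_pow, genHom_var, genHom_var,
    genHom_var, genHom_var]
  simp only [ha, pow_one, wt4]
  have h1 : (C (d (0, a)) ^ S.m * C (d (1, 4)) : MvPolynomial (Fin 2) D) =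
      C (d (1, a)) ^ S.m * C (d (0, 4)) := by
    rw [← C_pow, ← C_mul, ← C_pow, ← C_mul, h]
  rw [mul_pow, mul_pow]
  linear_combination (MvPolynomial.X 0 ^ S.m * MvPolynomial.X 1 ^ S.m) * h1

/-! ### The fibre product -/

lemma pV_minor : (MvPolynomial.X (0, 1) * MvPolynomial.X (1, 2) -
    MvPolynomial.X (0, 2) * MvPolynomial.X (1, 1) : Coord (Fin 5) 2) ∈ S.pV.I := by
  refine S.minor_mem rfl rfl ?_
  have h1 : S.ptV (0, 1) = S.c2 (S.c1 (MvPolynomial.X 0)) := rfl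
  have h2 : S.ptV (0, 2) = S.c2 (S.c1 (MvPolynomial.X 1)) := rfl
  have h3 : S.ptV (1, 1) = S.c2 (S.c1 (MvPolynomial.X 2 * MvPolynomial.X 0)) := rfl
  have h4 : S.ptV (1, 2) = S.c2 (S.c1 (MvPolynomial.X 2 * MvPolynomial.X 1)) := rfl
  rw [h1, h2, h3, h4]
  simp only [map_mul]
  ring

lemma pV_rel12 : (MvPolynomial.X (0, 1) * MvPolynomial.X (1, 2) -
    MvPolynomial.X (0, 2) * MvPolynomial.X (1, 1) : Coord (Fin 5) 2) ∈ S.pV.I := S.pV_minor

lemma pV_X3 (i : Fin 2) : (MvPolynomial.X (i, 3) : Coord (Fin 5) 2) ∈ S.pV.I := by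
  refine (X_mem_genIdeal S.V S.ptV (i, 3)).2 ?_
  fin_cases i <;> rfl

lemma mul_X3_mem {I : Ideal (Coord (Fin 5) 2)} {i : Fin 2} {a b : Coord (Fin 5) 2}
    (h : a - (b + MvPolynomial.X (i, 3) * inFactor 2 i (rename Fin.castSucc S.P)) ∈ I)
    (h3 : (MvPolynomial.X (i, 3) : Coord (Fin 5) 2) ∈ I) : a - b ∈ I := by
  have h1 := I.mul_mem_right (inFactor 2 i (rename Fin.castSucc S.P)) h3
  have h2 := I.add_mem h h1
  have h4 : a - (b + MvPolynomial.X (i, 3) * inFactor 2 i (rename Fin.castSucc S.P)) +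
      MvPolynomial.X (i, 3) * inFactor 2 i (rename Fin.castSucc S.P) = a - b := by ring
  rwa [h4] at h2

lemma pV_sq (i : Fin 2) : (MvPolynomial.X (i, 4) ^ 2 - S.uu 2 i * S.vv 2 i :
    Coord (Fin 5) 2) ∈ S.pV.I :=
  S.mul_X3_mem (S.eq_of_onX S.pV i) (S.pV_X3 i)

/-! ### The diagonal of the double cover -/

lemma pXD_minor (a b : Fin 5) (ha : S.V.wt a = 1) (hb : S.V.wt b = 1) :
    (MvPolynomial.X (0, a) * MvPolynomial.X (1, b) -
      MvPolynomial.X (0, b) * MvPolynomial.X (1, a) : Coord (Fin 5) 2) ∈ S.pXD.I :=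
  S.minor_mem ha hb (mul_comm _ _)

lemma pXD_minor' (a b : Fin 4) :
    (MvPolynomial.X (0, Fin.castSucc a) * MvPolynomial.X (1, Fin.castSucc b) -
      MvPolynomial.X (0, Fin.castSucc b) * MvPolynomial.X (1, Fin.castSucc a) :
        Coord (Fin 5) 2) ∈ S.pXD.I :=
  S.pXD_minor _ _ (S.wt_castSucc a) (S.wt_castSucc b)

lemma pXD_y (a : Fin 5) (ha : S.V.wt a = 1) :
    (MvPolynomial.X (0, a) ^ S.m * MvPolynomial.X (1, 4) -
      MvPolynomial.X (1, a) ^ S.m * MvPolynomial.X (0, 4) : Coord (Fin 5) 2) ∈ S.pXD.I :=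
  S.minorY_mem ha rfl

lemma pXD_y' (a : Fin 4) :
    (MvPolynomial.X (0, Fin.castSucc a) ^ S.m * MvPolynomial.X (1, 4) -
      MvPolynomial.X (1, Fin.castSucc a) ^ S.m * MvPolynomial.X (0, 4) : Coord (Fin 5) 2) ∈
      S.pXD.I :=
  S.pXD_y _ (S.wt_castSucc a)

lemma pXD_rel (a : Fin 4) :
    (MvPolynomial.X (0, Fin.castSucc a) ^ S.m * MvPolynomial.X (1, 4) -
      MvPolynomial.X (1, Fin.castSucc a) ^ S.m * MvPolynomial.X (0, 4) : Coord (Fin 5) 2) ∈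
      S.pXD.I := S.pXD_y' a

lemma pXD_sq (i : Fin 2) : (MvPolynomial.X (i, 4) ^ 2 - (S.uu 2 i * S.vv 2 i +
    MvPolynomial.X (i, 3) * inFactor 2 i (rename Fin.castSucc S.P)) : Coord (Fin 5) 2) ∈
      S.pXD.I :=
  S.eq_of_onX S.pXD i

/-! ### The diagonal of the section -/

lemma pYD_minor (a b : Fin 5) (ha : S.V.wt a = 1) (hb : S.V.wt b = 1) :
    (MvPolynomial.X (0, a) * MvPolynomial.X (1, b) -
      MvPolynomial.X (0, b) * MvPolynomial.X (1, a) : Coord (Fin 5) 2) ∈ S.pYD.I :=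
  S.minor_mem ha hb (mul_comm _ _)

lemma pYD_y (a : Fin 5) (ha : S.V.wt a = 1) :
    (MvPolynomial.X (0, a) ^ S.m * MvPolynomial.X (1, 4) -
      MvPolynomial.X (1, a) ^ S.m * MvPolynomial.X (0, 4) : Coord (Fin 5) 2) ∈ S.pYD.I :=
  S.minorY_mem ha rfl

lemma pYD_X3 (i : Fin 2) : (MvPolynomial.X (i, 3) : Coord (Fin 5) 2) ∈ S.pYD.I :=
  (X_mem_genIdeal S.V _ (i, 3)).2 rfl

lemma pYD_sq (i : Fin 2) : (MvPolynomial.X (i, 4) ^ 2 - S.uu 2 i * S.vv 2 i :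
    Coord (Fin 5) 2) ∈ S.pYD.I :=
  S.mul_X3_mem (S.eq_of_onX S.pYD i) (S.pYD_X3 i)

/-! ### The products of curves -/

lemma pCC_X3 (k : Fin S.t) (b b' : Bool) (i : Fin 2) :
    (MvPolynomial.X (i, 3) : Coord (Fin 5) 2) ∈ (S.pCC k b b').I := by
  refine (X_mem_genIdeal S.V _ (i, 3)).2 ?_
  fin_cases i <;> rfl

lemma pCC_sq (k : Fin S.t) (b b' : Bool) (i : Fin 2) :
    (MvPolynomial.X (i, 4) ^ 2 - S.uu 2 i * S.vv 2 i : Coord (Fin 5) 2) ∈ (S.pCC k b b').I :=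
  S.mul_X3_mem (S.eq_of_onX _ i) (S.pCC_X3 k b b' i)

end DSData

end Pool.Agent.RCH
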