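import Mathlib

/-!
# Factors of weighted homogeneous polynomials
-/

set_option autoImplicit false

open MvPolynomial

namespace Pool.Agent.RCH

namespace Wd

variable {σ R : Type} [CommRing R] (w : σ → ℕ)

/-- the homomorphism which multiplies a variable by the power of a new variable given by its weight -/
noncomputable def scaleHom : MvPolynomial σ R →+* Polynomial (MvPolynomial σ R) :=
  eval₂Hom ((Polynomial.C).comp C) (fun j => Polynomial.C (MvPolynomial.X j) * Polynomial.X ^ w j)

lemma scaleHom_monomial (u : σ →₀ ℕ) (c : R) :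
    scaleHom w (monomial u c) = Polynomial.monomial (Finsupp.weight w u) (monomial u c) := by
  classical
  have h1 : scaleHom w (monomial u c) = Polynomial.C (C c) *
      u.prod (fun j k => (Polynomial.C (MvPolynomial.X j : MvPolynomial σ R) *
        Polynomial.X ^ w j) ^ k) := by
    rw [scaleHom, coe_eval₂Hom, eval₂_monomial]
    rfl
  have h2 : (u.prod (fun j k => (Polynomial.C (MvPolynomial.X j : MvPolynomial σ R) *
      Polynomial.X ^ w j) ^ k)) = Polynomial.C (monomial u (1 : R)) *
        Polynomial.X ^ (Finsupp.weight w u) := by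
    rw [monomial_eq, Finsupp.prod, Finsupp.prod, C_1, one_mul, map_prod, Finsupp.weight_apply,
      Finsupp.sum, ← Finset.prod_pow_eq_pow_sum, ← Finset.prod_mul_distrib]
    refine Finset.prod_congr rfl fun j _ => ?_
    rw [mul_pow, map_pow, ← pow_mul, smul_eq_mul, mul_comm (w j)]
  rw [h1, h2, ← mul_assoc, ← Polynomial.C_mul, C_mul_monomial, mul_one,
    Polynomial.C_mul_X_pow_eq_monomial]

lemma coeff_scaleHom (a : MvPolynomial σ R) (k : ℕ) :
    (scaleHom w a).coeff k = weightedHomogeneousComponent w k a := by
  classical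
  rw [weightedHomogeneousComponent_apply]
  conv_lhs => rw [a.as_sum]
  rw [map_sum, Polynomial.finsetSum_coeff, Finset.sum_filter]
  refine Finset.sum_congr rfl fun u _ => ?_
  rw [scaleHom_monomial, Polynomial.coeff_monomial]

lemma eval_scaleHom (a : MvPolynomial σ R) : (scaleHom w a).eval 1 = a := by
  have h : (Polynomial.evalRingHom (1 : MvPolynomial σ R)).comp (scaleHom w) = RingHom.id _ := by
    apply MvPolynomial.ringHom_ext
    · intro c
      simp [scaleHom]
    · intro j
      simp [scaleHom]
  exact congrArg (fun φ => φ a) h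

/-- A factor of a weighted homogeneous polynomial is weighted homogeneous. -/
theorem isWeightedHomogeneous_of_mul [IsDomain R] {a b : MvPolynomial σ R} {n : ℕ}
    (h : IsWeightedHomogeneous w (a * b) n) (hab : a * b ≠ 0) :
    ∃ k, IsWeightedHomogeneous w a k := by
  have ha : a ≠ 0 := left_ne_zero_of_mul hab
  have hb : b ≠ 0 := right_ne_zero_of_mul hab
  have hinj : ∀ x : MvPolynomial σ R, x ≠ 0 → scaleHom w x ≠ 0 := by
    intro x hx h0
    apply hx
    rw [← eval_scaleHom w x, h0, Polynomial.eval_zero]
  have h1 : scaleHom w a * scaleHom w b = Polynomial.monomial n (a * b) := by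
    rw [← map_mul]
    ext1 k
    rw [coeff_scaleHom, Polynomial.coeff_monomial]
    split_ifs with hk
    · subst hk
      exact h.weightedHomogeneousComponent_same
    · exact h.weightedHomogeneousComponent_ne k (fun h' => hk h'.symm)
  have h2 := congrArg Polynomial.natDegree h1
  have h3 := congrArg Polynomial.natTrailingDegree h1
  rw [Polynomial.natDegree_mul (hinj a ha) (hinj b hb), Polynomial.natDegree_monomial_eq n hab]
    at h2
  rw [Polynomial.natTrailingDegree_mul (hinj a ha) (hinj b hb),
    Polynomial.natTrailingDegree_monomial hab] at h3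
  have h4 := Polynomial.natTrailingDegree_le_natDegree (scaleHom w a)
  have h5 := Polynomial.natTrailingDegree_le_natDegree (scaleHom w b)
  have h6 : (scaleHom w a).natTrailingDegree = (scaleHom w a).natDegree := by omega
  refine ⟨(scaleHom w a).natDegree, ?_⟩
  have h7 : scaleHom w a = Polynomial.monomial (scaleHom w a).natDegree
      ((scaleHom w a).coeff (scaleHom w a).natDegree) := by
    ext1 k
    rw [Polynomial.coeff_monomial]
    split_ifs with hk
    · rw [hk]
    · rcases lt_or_gt_of_ne hk with hlt | hgt
      · exact Polynomial.coeff_eq_zero_of_natDegree_lt hlt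
      · exact Polynomial.coeff_eq_zero_of_lt_natTrailingDegree (by omega)
  have h8 : a = weightedHomogeneousComponent w (scaleHom w a).natDegree a := by
    conv_lhs => rw [← eval_scaleHom w a, h7]
    rw [Polynomial.eval_monomial, one_pow, mul_one, coeff_scaleHom]
  have h9 := weightedHomogeneousComponent_isWeightedHomogeneous (w := w) (scaleHom w a).natDegree a
  rwa [← h8] at h9

/-- A prime ideal with a nonzero weighted homogeneous polynomial contains a weighted homogeneous prime
element. -/
theorem exists_prime_homogeneous {τ : Type} (w : τ → ℕ) (Q : Ideal (MvPolynomial τ ℂ)) [hQ : Q.IsPrime]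
    {z : MvPolynomial τ ℂ} {n : ℕ} (hz : IsWeightedHomogeneous w z n) (hz0 : z ≠ 0) (hzQ : z ∈ Q) :
    ∃ (g : MvPolynomial τ ℂ) (k : ℕ), Prime g ∧ IsWeightedHomogeneous w g k ∧ g ∈ Q := by
  obtain ⟨f, hf, u, hu⟩ := UniqueFactorizationMonoid.exists_prime_factors z hz0
  have h1 : f.prod ∈ Q := by
    by_contra h
    rw [← hu] at hzQ
    rcases hQ.mem_or_mem hzQ with h' | h'
    · exact h h'
    · exact hQ.ne_top (Q.eq_top_of_isUnit_mem h' u.isUnit)
  obtain ⟨g, hg, hgQ⟩ := (hQ.multiset_prod_mem_iff_exists_mem f).1 h1
  obtain ⟨h, hh⟩ : g ∣ z := (Multiset.dvd_prod hg).trans (by rw [← hu]; exact dvd_mul_right _ _)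
  obtain ⟨k, hk⟩ := isWeightedHomogeneous_of_mul w (hh ▸ hz) (hh ▸ hz0)
  exact ⟨g, k, hf g hg, hk, hgQ⟩

end Wd

end Pool.Agent.RCH
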