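import Mathlib

/-!
# Chow groups of powers of a weighted projective variety, by homogeneous prime ideals

For a weighted projective variety `X` over the complex numbers, given by equations in a weighted
projective space with coordinates indexed by `ι` of weights `wt j`, and for `N : ℕ`, we define the
group of algebraic cycles on `X^N`, rational equivalence, the exterior powers of a cycle on `X` and
smash-nilpotence. The integral closed subschemes of `X^N` are the multihomogeneous prime ideals of
the polynomial ring in the coordinates of `N` points which contain the equations of `X` for each of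
the `N` points and, for each of them, not all its coordinates.
-/

set_option autoImplicit false

open MvPolynomial

namespace Pool.Agent.RCH

/-- A closed subscheme of a weighted projective space over `ℂ`: the weights of the coordinates and
the ideal of equations. -/
structure WVar (ι : Type) where
  /-- the weights of the coordinates -/
  wt : ι → ℕ
  /-- the ideal of equations -/
  eqs : Ideal (MvPolynomial ι ℂ)

variable {ι : Type} (X : WVar ι)

/-- The polynomial ring in the coordinates of `N` points. -/
abbrev Coord (ι : Type) (N : ℕ) : Type := MvPolynomial (Fin N × ι) ℂ

/-- The multidegree of a coordinate: the coordinate `j` of the `i`-th point has degree `wt j` in the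
`i`-th direction and `0` in the others. -/
def WVar.mdeg (N : ℕ) (v : Fin N × ι) : Fin N → ℕ := Pi.single v.1 (X.wt v.2)

/-- The polynomial `f`, in the coordinates of the `i`-th point. -/
noncomputable def inFactor (N : ℕ) (i : Fin N) : MvPolynomial ι ℂ →ₐ[ℂ] Coord ι N :=
  rename (fun j => (i, j))

/-- A point of the scheme `X^N` (an integral closed subscheme of `X^N`): a prime ideal of the ring of
the coordinates of `N` points which is multihomogeneous, does not contain all the coordinates of one
of the points, and contains the equations of `X` for each point. -/
structure Pt (N : ℕ) where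
  /-- the prime ideal -/
  I : Ideal (Coord ι N)
  prime : I.IsPrime
  homog : ∀ p ∈ I, ∀ e : Fin N → ℕ, weightedHomogeneousComponent (X.mdeg N) e p ∈ I
  relevant : ∀ i : Fin N, ∃ j : ι, (MvPolynomial.X (i, j) : Coord ι N) ∉ I
  onX : ∀ (i : Fin N), ∀ f ∈ X.eqs, inFactor N i f ∈ I

/-- The group of algebraic cycles on `X^N` (of all dimensions). -/
abbrev Cycles (N : ℕ) : Type := Pt X N →₀ ℤ

/-- The order of vanishing of `g` at `Q` on the integral subscheme `P`: the length modulo `g` of the
localisation of the homogeneous coordinate ring of `P` at the prime `Q`. When for each of the `N`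
points a coordinate of weight one is not in `Q` (as for all points of the powers of the varieties to
which this is applied below), this localisation is flat over the local ring of `P` at `Q`, with the same
uniformity of lengths, so that this is the length of the local ring of `P` at `Q` modulo a local
equation of `g`. -/
noncomputable def ordAt {R : Type} [CommRing R] (P Q : Ideal R) [Q.IsPrime] (g : R) : ℕ∞ :=
  Module.length (Localization.AtPrime Q)
    (Localization.AtPrime Q ⧸ (P ⊔ Ideal.span {g}).map (algebraMap R (Localization.AtPrime Q)))

/-- `Q` has codimension one in `P`: there is no prime ideal strictly between. -/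
def CodimOne {R : Type} [CommRing R] (P Q : Ideal R) : Prop :=
  P < Q ∧ ∀ L : Ideal R, L.IsPrime → P ≤ L → L < Q → L = P

open Classical in
/-- `c` is the divisor of the rational function `g / h` on the integral subscheme `P` of `X^N`. -/
def IsDivisor {N : ℕ} (P : Pt X N) (g h : Coord ι N) (c : Cycles X N) : Prop :=
  ∀ Q : Pt X N, c Q = if CodimOne P.I Q.I then
    (haveI := Q.prime; ((ordAt P.I Q.I g).toNat : ℤ) - ((ordAt P.I Q.I h).toNat : ℤ)) else 0

/-- The cycles on `X^N` rationally equivalent to zero: the group generated by the divisors of the
rational functions `g / h` on the integral subschemes of `X^N`, with `g` and `h` multihomogeneous of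
the same multidegree. -/
noncomputable def RatZero (N : ℕ) : AddSubgroup (Cycles X N) :=
  AddSubgroup.closure {c | ∃ (P : Pt X N) (g h : Coord ι N) (e : Fin N → ℕ),
    IsWeightedHomogeneous (X.mdeg N) g e ∧ IsWeightedHomogeneous (X.mdeg N) h e ∧
    g ∉ P.I ∧ h ∉ P.I ∧ IsDivisor X P g h c}

/-- The ideal of the product `Q_1 × ⋯ × Q_N` of integral subschemes of `X`. -/
noncomputable def boxIdeal {N : ℕ} (Q : Fin N → Pt X 1) : Ideal (Coord ι N) :=
  ⨆ i, (Q i).I.map (rename (R := ℂ) (fun v : Fin 1 × ι => (i, v.2))).toRingHom

open Classical in
/-- The cycle of the product `Q_1 × ⋯ × Q_N` of integral subschemes of `X` (the ideal of the product is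
always prime, as `ℂ` is algebraically closed). -/
noncomputable def box {N : ℕ} (Q : Fin N → Pt X 1) : Cycles X N :=
  if h : ∃ P : Pt X N, P.I = boxIdeal X Q then Finsupp.single h.choose 1 else 0

/-- The exterior power `a × ⋯ × a` (`N` factors), a cycle on `X^N`, of a cycle `a` on `X`. -/
noncomputable def extPow (a : Cycles X 1) (N : ℕ) : Cycles X N :=
  ∑ Q ∈ Fintype.piFinset (fun _ : Fin N => a.support), (∏ i, a (Q i)) • box X Q

/-- The cycle `a` on `X` is smash-nilpotent: some exterior power of `a` is zero in the Chow group of
`X^N` with rational coefficients, that is, has a nonzero multiple rationally equivalent to zero. -/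
def SmashNilpotent (a : Cycles X 1) : Prop :=
  ∃ N : ℕ, 1 ≤ N ∧ ∃ k : ℕ, 1 ≤ k ∧ k • extPow X a N ∈ RatZero X N

end Pool.Agent.RCH
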