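import Pool.Agent.RCH.Dg2Lead

/-!
# The bidegrees of an integral subscheme of `X × X`

The multiplicity of a bihomogeneous prime for the weights scaled by `τ` is a polynomial in `1 / τ`.
-/

set_option autoImplicit false

open MvPolynomial Filter Topology

namespace Pool.Agent.RCH.Dg2

open Pool.Agent.RCH.Dg

variable {ι : Type} (X : WVar ι)

/-- the dimension of (the cone of) the projection to the factor `i` -/
noncomputable def tdf (i : Fin 2) (Q : Ideal (Coord ι 2)) : ℕ :=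
  td (MvPolynomial ι ℂ ⧸ Q.comap (inFactor 2 i))

variable {X}

instance comap_prime (i : Fin 2) (Q : Ideal (Coord ι 2)) [Q.IsPrime] :
    (Q.comap (inFactor 2 i)).IsPrime := Ideal.comap_isPrime _ _

lemma inFactor_X' (i : Fin 2) (j : ι) :
    inFactor 2 i (MvPolynomial.X j : MvPolynomial ι ℂ) = MvPolynomial.X (i, j) := by
  rw [inFactor, rename_X]

section

variable [Finite ι]

lemma tdf_mono (i : Fin 2) {P Q : Ideal (Coord ι 2)} [P.IsPrime] [Q.IsPrime] (h : P ≤ Q) :
    tdf i Q ≤ tdf i P := by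
  have h1 : P.comap (inFactor 2 i) ≤ Q.comap (inFactor 2 i) := Ideal.comap_mono h
  rcases h1.eq_or_lt with h2 | h2
  · rw [tdf, tdf, h2]
  · exact (td_lt_of_lt h2).le

lemma tdf_lt (i : Fin 2) {P Q : Ideal (Coord ι 2)} [P.IsPrime] [Q.IsPrime] (h : P ≤ Q) {j : ι}
    (h1 : (MvPolynomial.X (i, j) : Coord ι 2) ∉ P) (h2 : (MvPolynomial.X (i, j) : Coord ι 2) ∈ Q) :
    tdf i Q + 1 ≤ tdf i P := by
  have h3 : P.comap (inFactor 2 i) ≤ Q.comap (inFactor 2 i) := Ideal.comap_mono h
  have h4 : P.comap (inFactor 2 i) ≠ Q.comap (inFactor 2 i) := by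
    intro h5
    have h6 : (MvPolynomial.X j : MvPolynomial ι ℂ) ∈ Q.comap (inFactor 2 i) := by
      rw [Ideal.mem_comap, inFactor_X']
      exact h2
    rw [← h5, Ideal.mem_comap, inFactor_X'] at h6
    exact h1 h6
  exact td_lt_of_lt (lt_of_le_of_ne h3 h4)

omit [Finite ι] in
/-- if all coordinates of one point are in the ideal, the projection to that factor is the vertex -/
lemma tdf_zero (i : Fin 2) {Q : Ideal (Coord ι 2)} [Q.IsPrime]
    (h : ∀ j, (MvPolynomial.X (i, j) : Coord ι 2) ∈ Q) : tdf i Q = 0 := by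
  have h1 : ∀ p : MvPolynomial ι ℂ, ∃ c : ℂ, p - C c ∈ Q.comap (inFactor 2 i) := by
    intro p
    induction p using MvPolynomial.induction_on with
    | C a => exact ⟨a, by rw [sub_self]; exact Ideal.zero_mem _⟩
    | add p q hp hq =>
      obtain ⟨c, hc⟩ := hp
      obtain ⟨d, hd⟩ := hq
      refine ⟨c + d, ?_⟩
      have h2 : p + q - C (c + d) = (p - C c) + (q - C d) := by
        rw [C_add]
        ring
      rw [h2]
      exact Ideal.add_mem _ hc hd
    | mul_X p j _ =>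
      refine ⟨0, ?_⟩
      rw [C_0, sub_zero]
      refine Ideal.mul_mem_left _ _ ?_
      rw [Ideal.mem_comap, inFactor_X']
      exact h j
  have h2 : Algebra.IsAlgebraic ℂ (MvPolynomial ι ℂ ⧸ Q.comap (inFactor 2 i)) := by
    refine ⟨fun x => ?_⟩
    obtain ⟨p, rfl⟩ := Ideal.Quotient.mk_surjective x
    obtain ⟨c, hc⟩ := h1 p
    have h3 : Ideal.Quotient.mk (Q.comap (inFactor 2 i)) p =
        algebraMap ℂ (MvPolynomial ι ℂ ⧸ Q.comap (inFactor 2 i)) c := (Ideal.Quotient.eq.2 hc)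
    rw [h3]
    exact isAlgebraic_algebraMap c
  rw [tdf, td, trdeg_eq_zero]
  exact Cardinal.zero_toNat

variable (hw : ∀ j, 0 < X.wt j)
include hw

/-- a bihomogeneous prime of rank zero is the ideal of the origin -/
lemma all_X {Q : Ideal (Coord ι 2)} [hQ : Q.IsPrime] (hb : BiHom X Q)
    (h0 : td (Coord ι 2 ⧸ Q) = 0) (v : Fin 2 × ι) : (MvPolynomial.X v : Coord ι 2) ∈ Q := by
  by_contra hv
  have h1 := hasRk_td hw hb (τ := 1) le_rfl
  rw [h0] at h1
  obtain ⟨-, -, h2⟩ := h1.add_one (wt2_pos X hw le_rfl) hQ (hb.hom 1) (wt2_pos X hw le_rfl v)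
    (isWeightedHomogeneous_X ℂ (wt2 X 1) v) hv
    (sup_span_X_ne_top (wt2_pos X hw le_rfl) hQ.ne_top (hb.hom 1) v)
  omega

lemma not_all_X {Q : Ideal (Coord ι 2)} [hQ : Q.IsPrime] (hb : BiHom X Q) {r : ℕ}
    (hr : td (Coord ι 2 ⧸ Q) = r + 1) : ∃ v : Fin 2 × ι, (MvPolynomial.X v : Coord ι 2) ∉ Q := by
  by_contra h
  push Not at h
  have h1 := hasRk_td hw hb (τ := 1) le_rfl
  have h2 := HasRk.zero_of_X (w := wt2 X 1) (wt2_pos X hw le_rfl) hQ.ne_top h h1
  omega

/-- **The multiplicity is a polynomial in `1 / τ`**, with nonnegative coefficients, and its exponents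
are bounded by the dimensions of the projections. -/
theorem exists_poly (r : ℕ) : ∀ (Q : Ideal (Coord ι 2)), Q.IsPrime → BiHom X Q →
    td (Coord ι 2 ⧸ Q) = r → ∃ F : Polynomial ℝ,
      (∀ τ : ℕ, 1 ≤ τ → mult (wt2 X τ) Q = F.eval (1 / (τ : ℝ))) ∧ (∀ i, 0 ≤ F.coeff i) ∧
      ∀ i, F.coeff i ≠ 0 → i ≤ tdf 0 Q ∧ r ≤ i + tdf 1 Q := by
  classical
  induction r with
  | zero =>
    intro Q hQ hb h0
    refine ⟨1, fun τ hτ => ?_, fun i => ?_, fun i hi => ?_⟩
    · rw [Polynomial.eval_one]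
      exact (hasRk_of_X (w := wt2 X τ) (wt2_pos X hw hτ) hQ.ne_top (all_X hw hb h0)).mult_eq
    · rw [Polynomial.coeff_one]
      split_ifs
      · exact zero_le_one
      · exact le_rfl
    · rw [Polynomial.coeff_one] at hi
      have h1 : i = 0 := by
        by_contra h2
        rw [if_neg (fun h3 => h2 h3)] at hi
        exact hi rfl
      subst h1
      exact ⟨Nat.zero_le _, Nat.zero_le _⟩
  | succ r ih =>
    intro Q hQ hb hr
    obtain ⟨v, hv⟩ := not_all_X hw hb hr
    obtain ⟨c, hc1, -, hc3⟩ := bezout hw hb hr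
      (isWeightedHomogeneous_X ℂ (X.mdeg 2) v) hv
    have hF : ∀ Q' : Ideal (Coord ι 2), ∃ F : Polynomial ℝ, c Q' ≠ 0 →
        (∀ τ : ℕ, 1 ≤ τ → mult (wt2 X τ) Q' = F.eval (1 / (τ : ℝ))) ∧ (∀ i, 0 ≤ F.coeff i) ∧
        ∀ i, F.coeff i ≠ 0 → i ≤ tdf 0 Q' ∧ r ≤ i + tdf 1 Q' := by
      intro Q'
      by_cases h : c Q' = 0
      · exact ⟨0, fun h' => absurd h h'⟩
      · obtain ⟨hp, hb', ht, -, -⟩ := hc1 Q' h
        obtain ⟨F, hF⟩ := ih Q' hp hb' ht
        exact ⟨F, fun _ => hF⟩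
    choose F hF using hF
    let G : Polynomial ℝ := ∑ Q' ∈ c.support, Polynomial.C (c Q' : ℝ) * F Q'
    have hG1 : ∀ τ : ℕ, 1 ≤ τ → (c.sum fun Q n => (n : ℝ) * mult (wt2 X τ) Q) =
        G.eval (1 / (τ : ℝ)) := by
      intro τ hτ
      rw [Finsupp.sum, Polynomial.eval_finsetSum]
      refine Finset.sum_congr rfl fun Q' hQ' => ?_
      rw [Polynomial.eval_mul, Polynomial.eval_C, (hF Q' (Finsupp.mem_support_iff.1 hQ')).1 τ hτ]
    have hG2 : ∀ i, 0 ≤ G.coeff i := by
      intro i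
      rw [Polynomial.finsetSum_coeff]
      refine Finset.sum_nonneg fun Q' hQ' => ?_
      rw [Polynomial.coeff_C_mul]
      exact mul_nonneg (Nat.cast_nonneg _) ((hF Q' (Finsupp.mem_support_iff.1 hQ')).2.1 i)
    have hG3 : ∀ i, G.coeff i ≠ 0 → ∃ Q', c Q' ≠ 0 ∧ i ≤ tdf 0 Q' ∧ r ≤ i + tdf 1 Q' := by
      intro i hi
      rw [Polynomial.finsetSum_coeff] at hi
      obtain ⟨Q', hQ', hne⟩ := Finset.exists_ne_zero_of_sum_ne_zero hi
      rw [Polynomial.coeff_C_mul] at hne
      have hc := Finsupp.mem_support_iff.1 hQ'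
      exact ⟨Q', hc, (hF Q' hc).2.2 i (right_ne_zero_of_mul hne)⟩
    have hwv : (0 : ℝ) < X.wt v.2 := by exact_mod_cast hw v.2
    obtain ⟨k, j⟩ := v
    by_cases hk : k = 0
    · subst hk
      have e0 : X.mdeg 2 ((0 : Fin 2), j) 0 = X.wt j := by simp [WVar.mdeg]
      have e1 : X.mdeg 2 ((0 : Fin 2), j) 1 = 0 := by simp [WVar.mdeg]
      rw [e0, e1] at hc3
      refine ⟨Polynomial.C (1 / (X.wt j : ℝ)) * (Polynomial.X * G), fun τ hτ => ?_, fun i => ?_,
        fun i hi => ?_⟩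
      · have h1 := hc3 τ hτ
        rw [hG1 τ hτ] at h1
        have hτ' : (0 : ℝ) < τ := by exact_mod_cast hτ
        rw [Polynomial.eval_mul, Polynomial.eval_mul, Polynomial.eval_C, Polynomial.eval_X, h1]
        push_cast
        field_simp
        ring
      · rw [Polynomial.coeff_C_mul]
        refine mul_nonneg (div_nonneg zero_le_one hwv.le) ?_
        cases i with
        | zero => rw [Polynomial.coeff_X_mul_zero]
        | succ i =>
          rw [Polynomial.coeff_X_mul]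
          exact hG2 i
      · rw [Polynomial.coeff_C_mul] at hi
        have hi' := right_ne_zero_of_mul hi
        cases i with
        | zero =>
          rw [Polynomial.coeff_X_mul_zero] at hi'
          exact absurd rfl hi'
        | succ i =>
          rw [Polynomial.coeff_X_mul] at hi'
          obtain ⟨Q', hc, h1, h2⟩ := hG3 i hi'
          obtain ⟨hp, -, -, hle, hm⟩ := hc1 Q' hc
          have h3 := tdf_lt 0 hle hv hm
          have h4 := tdf_mono 1 hle
          omega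
    · have hk1 : k = 1 := by omega
      subst hk1
      have e0 : X.mdeg 2 ((1 : Fin 2), j) 0 = 0 := by simp [WVar.mdeg]
      have e1 : X.mdeg 2 ((1 : Fin 2), j) 1 = X.wt j := by simp [WVar.mdeg]
      rw [e0, e1] at hc3
      refine ⟨Polynomial.C (1 / (X.wt j : ℝ)) * G, fun τ hτ => ?_, fun i => ?_, fun i hi => ?_⟩
      · have h1 := hc3 τ hτ
        rw [hG1 τ hτ] at h1
        rw [Polynomial.eval_mul, Polynomial.eval_C, h1]
        push_cast
        field_simp
        ring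
      · rw [Polynomial.coeff_C_mul]
        exact mul_nonneg (div_nonneg zero_le_one hwv.le) (hG2 i)
      · rw [Polynomial.coeff_C_mul] at hi
        obtain ⟨Q', hc, h1, h2⟩ := hG3 i (right_ne_zero_of_mul hi)
        obtain ⟨hp, -, -, hle, hm⟩ := hc1 Q' hc
        have h3 := tdf_lt 1 hle hv hm
        have h4 := tdf_mono 0 hle
        omega

end

end Pool.Agent.RCH.Dg2
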