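import Pool.Agent.RCH.Box

/-!
# The ideal of a product and quotients by an element

For ideals `I`, `K` of `Coord ι 1` let `prodId I K` be the ideal of `Coord ι 2` generated by `I` in the
coordinates of the first point and by `K` in the coordinates of the second point. For `a` in the
coordinates of the first point, `a f ∈ prodId I K` if and only if `f ∈ prodId (I : a) K`.
-/

set_option autoImplicit false

open MvPolynomial

namespace Pool.Agent.RCH

section ext

variable {k : Type*} [Field k] {A : Type*} [CommRing A] [Algebra k A] {σ β : Type*}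
  (e : Module.Basis β k A)

lemma crd_add (f g : MvPolynomial σ A) (b : β) : crd e (f + g) b = crd e f b + crd e g b := by
  ext m
  rw [coeff_add, coeff_crd, coeff_crd, coeff_crd, coeff_add, map_add, Finsupp.add_apply]

lemma crd_zero (b : β) : crd e (0 : MvPolynomial σ A) b = 0 := by
  ext m
  rw [coeff_crd, coeff_zero, coeff_zero, map_zero, Finsupp.zero_apply]

lemma crd_mul (p : MvPolynomial σ k) (f : MvPolynomial σ A) (b : β) :
    crd e (map (algebraMap k A) p * f) b = p * crd e f b := by
  classical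
  ext m
  rw [coeff_crd, coeff_mul, coeff_mul, map_sum, Finsupp.finsetSum_apply]
  refine Finset.sum_congr rfl fun u _ => ?_
  rw [coeff_map, coeff_crd, ← Algebra.smul_def, map_smul, Finsupp.smul_apply, smul_eq_mul]

theorem mem_map_iff_crd (f : MvPolynomial σ A) (I : Ideal (MvPolynomial σ k)) :
    f ∈ I.map (map (algebraMap k A)) ↔ ∀ b, crd e f b ∈ I := by
  refine ⟨fun hf b => ?_, mem_map_of_crd e f I⟩
  refine Submodule.span_induction (p := fun f _ => crd e f b ∈ I) ?_ ?_ ?_ ?_ hf
  · rintro _ ⟨p, hp, rfl⟩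
    have := crd_mul e p 1 b
    rw [mul_one] at this
    rw [this]
    exact I.mul_mem_right _ hp
  · rw [crd_zero]
    exact I.zero_mem
  · intro x y _ _ hx hy
    rw [crd_add]
    exact I.add_mem hx hy
  · intro a x hx _
    -- `a x` with `x` in the extension
    obtain ⟨s, hs⟩ := (Submodule.mem_span_iff_exists_finset_subset.1 hx)
    obtain ⟨t, hst, -, hsum⟩ := hs
    have h2 : a • x = ∑ c ∈ t, (a * s c) * c := by
      rw [← hsum, Finset.smul_sum]
      refine Finset.sum_congr rfl fun c _ => ?_
      rw [smul_eq_mul, smul_eq_mul, mul_assoc]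
    rw [h2]
    have h3 : ∀ t' : Finset (MvPolynomial σ A), (t' : Set (MvPolynomial σ A)) ⊆
        (map (algebraMap k A)) '' (I : Set (MvPolynomial σ k)) →
        crd e (∑ c ∈ t', (a * s c) * c) b ∈ I := by
      classical
      intro t'
      induction t' using Finset.induction_on with
      | empty =>
        intro _
        rw [Finset.sum_empty, crd_zero]
        exact I.zero_mem
      | insert c t' hc ih =>
        intro hsub
        rw [Finset.sum_insert hc, crd_add]
        refine I.add_mem ?_ (ih fun y hy => hsub (Finset.mem_insert_of_mem hy))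
        obtain ⟨p, hp, hpc⟩ := hsub (Finset.mem_insert_self c t')
        rw [← hpc, mul_comm, crd_mul]
        exact I.mul_mem_right _ hp
    exact h3 t hst

theorem mul_mem_map_iff (a : MvPolynomial σ k) (f : MvPolynomial σ A)
    (I I' : Ideal (MvPolynomial σ k)) (h : ∀ x, x ∈ I' ↔ a * x ∈ I) :
    map (algebraMap k A) a * f ∈ I.map (map (algebraMap k A)) ↔
      f ∈ I'.map (map (algebraMap k A)) := by
  let e := Module.Basis.ofVectorSpace k A
  rw [mem_map_iff_crd e, mem_map_iff_crd e]
  refine forall_congr' fun b => ?_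
  rw [crd_mul, h]

end ext

section

variable {ι : Type}

/-- the ideal of the product -/
noncomputable def prodId (I K : Ideal (Coord ι 1)) : Ideal (Coord ι 2) :=
  I.map (prMap ι 2 0).toRingHom ⊔ K.map (prMap ι 2 1).toRingHom

lemma mem_prodId_left {I : Ideal (Coord ι 1)} (K : Ideal (Coord ι 1)) {f : Coord ι 1}
    (hf : f ∈ I) : prMap ι 2 0 f ∈ prodId I K :=
  Ideal.mem_sup_left (Ideal.mem_map_of_mem (prMap ι 2 0).toRingHom hf)

lemma mem_prodId_right (I : Ideal (Coord ι 1)) {K : Ideal (Coord ι 1)} {f : Coord ι 1}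
    (hf : f ∈ K) : prMap ι 2 1 f ∈ prodId I K :=
  Ideal.mem_sup_right (Ideal.mem_map_of_mem (prMap ι 2 1).toRingHom hf)

lemma boxIdeal_eq_prodId (X : WVar ι) (P Q : Pt X 1) : boxIdeal X ![P, Q] = prodId P.I Q.I := by
  unfold boxIdeal prodId
  apply le_antisymm
  · refine iSup_le fun i => ?_
    fin_cases i
    · exact le_sup_left
    · exact le_sup_right
  · refine sup_le ?_ ?_
    · exact le_iSup (fun i => (![P, Q] i).I.map
        (rename (R := ℂ) (fun v : Fin 1 × ι => (i, v.2))).toRingHom) 0
    · exact le_iSup (fun i => (![P, Q] i).I.map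
        (rename (R := ℂ) (fun v : Fin 1 × ι => (i, v.2))).toRingHom) 1

lemma prodId_prime [Finite ι] (I K : Ideal (Coord ι 1)) [hI : I.IsPrime] [hK : K.IsPrime] :
    (prodId I K).IsPrime := by
  have h := prime_box 2 ![I, K] (by
    intro i
    fin_cases i
    · exact hI
    · exact hK)
  have h2 : (⨆ i, ((![I, K] : Fin 2 → Ideal (Coord ι 1)) i).map (prMap ι 2 i).toRingHom) =
      prodId I K := by
    unfold prodId
    apply le_antisymm
    · refine iSup_le fun i => ?_
      fin_cases i
      · exact le_sup_left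
      · exact le_sup_right
    · refine sup_le ?_ ?_
      · exact le_iSup (fun i => ((![I, K] : Fin 2 → Ideal (Coord ι 1)) i).map
          (prMap ι 2 i).toRingHom) 0
      · exact le_iSup (fun i => ((![I, K] : Fin 2 → Ideal (Coord ι 1)) i).map
          (prMap ι 2 i).toRingHom) 1
  rw [h2] at h
  exact h

/-- polynomials in the coordinates of two points as polynomials in those of the first point -/
noncomputable def curry2 (ι : Type) : Coord ι 2 ≃ₐ[ℂ] MvPolynomial (Fin 1 × ι) (Coord ι 1) :=
  (renameEquiv ℂ (splitFirst 1).symm).trans (sumAlgEquiv ℂ (Fin 1 × ι) (Fin 1 × ι))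

lemma curry2_left (f : Coord ι 1) : curry2 ι (prMap ι 2 0 f) = map (algebraMap ℂ (Coord ι 1)) f := by
  have h : ((curry2 ι).toAlgHom.toRingHom.comp (prMap ι 2 0).toRingHom) =
      (map (algebraMap ℂ (Coord ι 1)) : Coord ι 1 →+* MvPolynomial (Fin 1 × ι) (Coord ι 1)) := by
    apply MvPolynomial.ringHom_ext
    · intro r
      simp [curry2, prMap]
    · intro i
      obtain ⟨a, j⟩ := i
      have ha : a = 0 := Subsingleton.elim _ _
      subst ha
      have hs : (splitFirst (ι := ι) 1).symm (0, j) = Sum.inl (0, j) := rfl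
      simp [curry2, prMap, hs]
  exact RingHom.congr_fun h f

lemma curry2_right (f : Coord ι 1) : curry2 ι (prMap ι 2 1 f) = C f := by
  have h : ((curry2 ι).toAlgHom.toRingHom.comp (prMap ι 2 1).toRingHom) =
      (C : Coord ι 1 →+* MvPolynomial (Fin 1 × ι) (Coord ι 1)) := by
    apply MvPolynomial.ringHom_ext
    · intro r
      simp [curry2, prMap]
    · intro i
      obtain ⟨a, j⟩ := i
      have ha : a = 0 := Subsingleton.elim _ _
      subst ha
      have hs : (splitFirst (ι := ι) 1).symm (1, j) = Sum.inr (0, j) := rfl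
      simp [curry2, prMap, hs]
  exact RingHom.congr_fun h f

/-- the polynomials in the coordinates of two points modulo an ideal of the second point -/
noncomputable def curryQ (K : Ideal (Coord ι 1)) :
    Coord ι 2 →+* MvPolynomial (Fin 1 × ι) (Coord ι 1 ⧸ K) :=
  (map (Ideal.Quotient.mk K)).comp (curry2 ι).toAlgHom.toRingHom

lemma curryQ_left (K : Ideal (Coord ι 1)) (f : Coord ι 1) :
    curryQ K (prMap ι 2 0 f) = map (algebraMap ℂ (Coord ι 1 ⧸ K)) f := by
  change map (Ideal.Quotient.mk K) (curry2 ι (prMap ι 2 0 f)) = _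
  rw [curry2_left, map_map]
  rfl

theorem mem_prodId_iff (I K : Ideal (Coord ι 1)) (f : Coord ι 2) :
    f ∈ prodId I K ↔ curryQ K f ∈ I.map (map (algebraMap ℂ (Coord ι 1 ⧸ K))) := by
  have hs : Function.Surjective (map (Ideal.Quotient.mk K) :
      MvPolynomial (Fin 1 × ι) (Coord ι 1) →+* MvPolynomial (Fin 1 × ι) (Coord ι 1 ⧸ K)) :=
    map_surjective _ Ideal.Quotient.mk_surjective
  have hsurj : Function.Surjective (curryQ K) := hs.comp (curry2 ι).surjective
  have hker : RingHom.ker (curryQ K) = K.map (prMap ι 2 1).toRingHom := by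
    have h1 : RingHom.ker (map (Ideal.Quotient.mk K) :
        MvPolynomial (Fin 1 × ι) (Coord ι 1) →+* MvPolynomial (Fin 1 × ι) (Coord ι 1 ⧸ K)) =
        K.map (C : Coord ι 1 →+* MvPolynomial (Fin 1 × ι) (Coord ι 1)) := by
      have := MvPolynomial.ker_map (σ := Fin 1 × ι) (Ideal.Quotient.mk K)
      rw [Ideal.mk_ker] at this
      exact this
    have h2 : RingHom.ker (curryQ K) = (RingHom.ker (map (Ideal.Quotient.mk K) :
        MvPolynomial (Fin 1 × ι) (Coord ι 1) →+* MvPolynomial (Fin 1 × ι) (Coord ι 1 ⧸ K))).comap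
        ((curry2 ι).toRingEquiv : Coord ι 2 →+* _) := rfl
    rw [h2, h1]
    have h3 : K.map (C : Coord ι 1 →+* MvPolynomial (Fin 1 × ι) (Coord ι 1)) =
        (K.map (prMap ι 2 1).toRingHom).map ((curry2 ι).toRingEquiv : Coord ι 2 →+* _) := by
      rw [Ideal.map_map]
      congr 1
      exact RingHom.ext fun x => (curry2_right x).symm
    rw [h3]
    exact Ideal.comap_map_of_bijective _ (curry2 ι).toRingEquiv.bijective
  have hmap : I.map (map (algebraMap ℂ (Coord ι 1 ⧸ K))) =
      (I.map (prMap ι 2 0).toRingHom).map (curryQ K) := by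
    rw [Ideal.map_map]
    congr 1
    exact RingHom.ext fun x => (curryQ_left K x).symm
  rw [hmap, ← Ideal.mem_comap, Ideal.comap_map_of_surjective _ hsurj]
  have : Ideal.comap (curryQ K) ⊥ = K.map (prMap ι 2 1).toRingHom := by
    rw [← hker]
    rfl
  rw [this]
  rfl

/-- **The quotient of the ideal of a product by an element in the coordinates of the first
point.** -/
theorem left_mul_mem_prodId {I I' : Ideal (Coord ι 1)} (K : Ideal (Coord ι 1)) (a : Coord ι 1)
    (h : ∀ x, x ∈ I' ↔ a * x ∈ I) (f : Coord ι 2) :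
    prMap ι 2 0 a * f ∈ prodId I K ↔ f ∈ prodId I' K := by
  rw [mem_prodId_iff, mem_prodId_iff, map_mul, curryQ_left]
  exact mul_mem_map_iff a _ I I' h

/-- the exchange of the two points -/
noncomputable def swap2 (ι : Type) : Coord ι 2 ≃ₐ[ℂ] Coord ι 2 :=
  renameEquiv ℂ ((Equiv.swap (0 : Fin 2) 1).prodCongr (Equiv.refl ι))

lemma swap2_zero (f : Coord ι 1) : swap2 ι (prMap ι 2 0 f) = prMap ι 2 1 f := by
  unfold swap2 prMap
  rw [renameEquiv_apply, rename_rename]
  congr 1

lemma swap2_one (f : Coord ι 1) : swap2 ι (prMap ι 2 1 f) = prMap ι 2 0 f := by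
  unfold swap2 prMap
  rw [renameEquiv_apply, rename_rename]
  congr 1

lemma prodId_swap (I K : Ideal (Coord ι 1)) :
    (prodId I K).map ((swap2 ι).toRingEquiv : Coord ι 2 →+* Coord ι 2) = prodId K I := by
  unfold prodId
  rw [Ideal.map_sup, Ideal.map_map, Ideal.map_map, sup_comm]
  congr 2
  · exact RingHom.ext fun x => swap2_one x
  · exact RingHom.ext fun x => swap2_zero x

lemma swap_mem_iff (I K : Ideal (Coord ι 1)) (f : Coord ι 2) :
    swap2 ι f ∈ prodId K I ↔ f ∈ prodId I K := by
  rw [← prodId_swap I K]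
  constructor
  · intro h
    have h2 := Ideal.comap_map_of_bijective ((swap2 ι).toRingEquiv : Coord ι 2 →+* Coord ι 2)
      (swap2 ι).toRingEquiv.bijective (I := prodId I K)
    rw [← h2]
    exact h
  · exact fun h => Ideal.mem_map_of_mem ((swap2 ι).toRingEquiv : Coord ι 2 →+* Coord ι 2) h

theorem right_mul_mem_prodId (I : Ideal (Coord ι 1)) {K K' : Ideal (Coord ι 1)} (a : Coord ι 1)
    (h : ∀ x, x ∈ K' ↔ a * x ∈ K) (f : Coord ι 2) :
    prMap ι 2 1 a * f ∈ prodId I K ↔ f ∈ prodId I K' := by
  rw [← swap_mem_iff I K, ← swap_mem_iff I K', map_mul, swap2_one]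
  exact left_mul_mem_prodId I a h _

lemma prodId_sup_left (I K : Ideal (Coord ι 1)) (a : Coord ι 1) :
    prodId (I ⊔ Ideal.span {a}) K = prodId I K ⊔ Ideal.span {prMap ι 2 0 a} := by
  unfold prodId
  rw [Ideal.map_sup, Ideal.map_span, Set.image_singleton, sup_assoc, sup_comm (Ideal.span _),
    ← sup_assoc]
  rfl

lemma prodId_sup_right (I K : Ideal (Coord ι 1)) (a : Coord ι 1) :
    prodId I (K ⊔ Ideal.span {a}) = prodId I K ⊔ Ideal.span {prMap ι 2 1 a} := by
  unfold prodId
  rw [Ideal.map_sup, Ideal.map_span, Set.image_singleton, ← sup_assoc]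
  rfl

end

end Pool.Agent.RCH
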