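import Pool.Agent.RCH.Dg2Deg
import Pool.Agent.RCH.MBoxCol

/-!
# The bidegree of a product
-/

set_option autoImplicit false

open MvPolynomial Filter Topology

namespace Pool.Agent.RCH.Dg2

open Pool.Agent.RCH.Dg

variable {ι : Type} (X : WVar ι)

/-- the sum of ideals in the coordinates of the two points -/
noncomputable def star (I K : Ideal (Coord ι 1)) : Ideal (Coord ι 2) :=
  I.map (prMap ι 2 0).toRingHom ⊔ K.map (prMap ι 2 1).toRingHom

theorem col_star_left (I K : Ideal (Coord ι 1)) (a : Coord ι 1) :
    col (star I K) (prMap ι 2 0 a) = star (col I a) K := by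
  ext f
  exact left_mul_mem_prodId K a (fun _ => Iff.rfl) f

theorem col_star_right (I K : Ideal (Coord ι 1)) (a : Coord ι 1) :
    col (star I K) (prMap ι 2 1 a) = star I (col K a) := by
  ext f
  exact right_mul_mem_prodId I a (fun _ => Iff.rfl) f

lemma star_sup_left (I K : Ideal (Coord ι 1)) (a : Coord ι 1) :
    star I K ⊔ Ideal.span {prMap ι 2 0 a} = star (I ⊔ Ideal.span {a}) K := by
  rw [star, star, Ideal.map_sup, Ideal.map_span, Set.image_singleton, sup_assoc, sup_assoc,
    sup_comm (K.map _)]
  rfl

lemma star_sup_right (I K : Ideal (Coord ι 1)) (a : Coord ι 1) :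
    star I K ⊔ Ideal.span {prMap ι 2 1 a} = star I (K ⊔ Ideal.span {a}) := by
  rw [star, star, Ideal.map_sup, Ideal.map_span, Set.image_singleton, sup_assoc]
  rfl

lemma star_top_left (K : Ideal (Coord ι 1)) : star ⊤ K = ⊤ := by
  rw [star, Ideal.map_top, top_sup_eq]

lemma star_top_right (I : Ideal (Coord ι 1)) : star I ⊤ = ⊤ := by
  rw [star, Ideal.map_top, sup_top_eq]

lemma boxIdeal_eq (q : Fin 2 → Pt X 1) : boxIdeal X q = star (q 0).I (q 1).I := by
  rw [boxIdeal, star]
  apply le_antisymm
  · refine iSup_le fun i => ?_
    fin_cases i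
    · exact le_sup_left
    · exact le_sup_right
  · exact sup_le (le_iSup (fun i => Ideal.map (prMap ι 2 i).toRingHom (q i).I) 0)
      (le_iSup (fun i => Ideal.map (prMap ι 2 i).toRingHom (q i).I) 1)

variable {X}

lemma wt2_one (v : Fin 2 × ι) : wt2 X 1 v = X.wt v.2 := by
  rw [wt2, one_mul, ite_self]

lemma prMap_homog (i : Fin 2) {p : Coord ι 1} {n : ℕ} (h : IsWeightedHomogeneous (wt1 X) p n) :
    IsWeightedHomogeneous (wt2 X 1) (prMap ι 2 i p) n := by
  classical
  intro d hd
  obtain ⟨u, rfl, hu⟩ := coeff_rename_ne_zero _ _ _ hd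
  rw [← h hu, Finsupp.weight_apply, Finsupp.weight_apply, Finsupp.sum_mapDomain_index]
  · refine Finsupp.sum_congr fun v _ => ?_
    rw [wt2_one]
    rfl
  · intro b
    rw [zero_smul]
  · intro b m₁ m₂
    rw [add_smul]

section

attribute [local instance] MvPolynomial.weightedGradedAlgebra

open Classical in
lemma hom_iff {σ : Type} {w : σ → ℕ} {I : Ideal (MvPolynomial σ ℂ)} :
    Hom w I ↔ I.IsHomogeneous (weightedHomogeneousSubmodule ℂ w) := by
  constructor
  · intro hI n p hp
    have h1 := hI p hp n
    rw [← weightedDecomposition.decompose'_apply ℂ w p n] at h1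
    exact h1
  · intro h p hp n
    exact weightedHomogeneousComponent_mem_of_mem ℂ w h hp n

lemma hom_map {I : Ideal (Coord ι 1)} (hI : Hom (wt1 X) I) (i : Fin 2) :
    Hom (wt2 X 1) (I.map (prMap ι 2 i).toRingHom) := by
  classical
  have h1 := hom_iff.1 hI
  obtain ⟨S, hS⟩ := (Ideal.IsHomogeneous.iff_exists _ _).1 h1
  rw [hS, Ideal.map_span, hom_iff]
  refine Ideal.homogeneous_span _ _ ?_
  rintro x ⟨y, ⟨z, hz, rfl⟩, rfl⟩
  obtain ⟨e, he⟩ := z.2
  refine ⟨e, ?_⟩
  exact (mem_weightedHomogeneousSubmodule _ _ _ _).2
    (prMap_homog i ((mem_weightedHomogeneousSubmodule _ _ _ _).1 he))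

lemma hom_star {I K : Ideal (Coord ι 1)} (hI : Hom (wt1 X) I) (hK : Hom (wt1 X) K) :
    Hom (wt2 X 1) (star I K) := by
  classical
  have h1 := hom_iff.1 (hom_map (X := X) hI 0)
  have h2 := hom_iff.1 (hom_map (X := X) hK 1)
  exact hom_iff.2 (h1.sup h2)

end

lemma PS_irrelevant {σ : Type} [Finite σ] {w : σ → ℕ} (hw : ∀ i, 0 < w i)
    {I : Ideal (MvPolynomial σ ℂ)} (hI : I ≠ ⊤) (hX : ∀ i, (MvPolynomial.X i) ∈ I) {t : ℝ}
    (h0 : 0 < t) (h1 : t < 1) : PS w I t = 1 / (1 - t) := by
  rw [PS, tsum_congr (fun n => by rw [H_irrelevant hw hI hX n, Nat.cast_one, one_mul] :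
    ∀ n, (H w I n : ℝ) * t ^ n = t ^ n), tsum_geometric_of_lt_one h0.le h1, one_div]

section

variable [Finite ι] (hw : ∀ j, 0 < X.wt j)
include hw

/-- **The Poincaré series of a product.** -/
theorem PS_star {t : ℝ} (h0 : 0 < t) (h1 : t < 1) (I : Ideal (Coord ι 1)) :
    ∀ K : Ideal (Coord ι 1), Hom (wt1 X) I → Hom (wt1 X) K →
      PS (wt2 X 1) (star I K) t = (1 - t) * (PS (wt1 X) I t * PS (wt1 X) K t) := by
  have hw1 : ∀ v : Fin 1 × ι, 0 < wt1 X v := fun v => hw v.2
  have hw2 : ∀ v : Fin 2 × ι, 0 < wt2 X 1 v := wt2_pos X hw le_rfl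
  have h1t : (1 - t) ≠ 0 := by linarith
  have hd : ∀ d : ℕ, 0 < d → (1 - t ^ d) ≠ 0 := by
    intro d hd
    have h2 : t ^ d < 1 := pow_lt_one₀ h0.le h1 hd.ne'
    linarith
  induction I using WellFoundedGT.induction with
  | ind I ihI =>
  intro K
  induction K using WellFoundedGT.induction with
  | ind K ihK =>
  intro hI hK
  by_cases hIt : I = ⊤
  · rw [hIt, star_top_left, PS_top, PS_top, zero_mul, mul_zero]
  by_cases hKt : K = ⊤
  · rw [hKt, star_top_right, PS_top, PS_top, mul_zero, mul_zero]
  by_cases hIp : I.IsPrime
  · by_cases hIX : ∀ v, (MvPolynomial.X v) ∈ I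
    · by_cases hKp : K.IsPrime
      · by_cases hKX : ∀ v, (MvPolynomial.X v) ∈ K
        · rw [PS_irrelevant hw1 hIt hIX h0 h1, PS_irrelevant hw1 hKt hKX h0 h1,
            PS_irrelevant hw2 (I := star I K) ?_ ?_ h0 h1]
          · field_simp
          · intro htop
            have h2 : star I K ≤ RingHom.ker (constantCoeff : Coord ι 2 →+* ℂ) := by
              have h3 : ∀ (J : Ideal (Coord ι 1)) (i : Fin 2), J ≠ ⊤ →
                  (∀ v, (MvPolynomial.X v) ∈ J) → J.map (prMap ι 2 i).toRingHom ≤
                    RingHom.ker (constantCoeff : Coord ι 2 →+* ℂ) := by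
                intro J i hJ hJX
                rw [Ideal.map_le_iff_le_comap]
                intro p hp
                rw [Ideal.mem_comap, RingHom.mem_ker]
                have h4 : constantCoeff (prMap ι 2 i p) = constantCoeff p := by
                  exact constantCoeff_rename _ _
                refine h4.trans ?_
                by_contra h5
                apply hJ
                have h6 : C (constantCoeff p) ∈ J := by
                  have h7 : p - C (constantCoeff p) ∈ J := by
                    have h8 : ∀ q : Coord ι 1, q - C (constantCoeff q) ∈ J := by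
                      intro q
                      induction q using MvPolynomial.induction_on with
                      | C a =>
                        rw [constantCoeff_C, sub_self]
                        exact J.zero_mem
                      | add p q hp hq =>
                        rw [map_add, C_add, add_sub_add_comm]
                        exact J.add_mem hp hq
                      | mul_X p j _ =>
                        rw [map_mul, constantCoeff_X, mul_zero, C_0, sub_zero]
                        exact J.mul_mem_left _ (hJX j)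
                    exact h8 p
                  have h8 := J.sub_mem hp h7
                  rwa [sub_sub_cancel] at h8
                have h9 := J.mul_mem_left (C (constantCoeff p)⁻¹) h6
                rw [← C_mul, inv_mul_cancel₀ h5, C_1] at h9
                exact (Ideal.eq_top_iff_one J).2 h9
              exact sup_le (h3 I 0 hIt hIX) (h3 K 1 hKt hKX)
            rw [htop] at h2
            have h3 : (1 : Coord ι 2) ∈ RingHom.ker (constantCoeff : Coord ι 2 →+* ℂ) :=
              h2 Submodule.mem_top
            rw [RingHom.mem_ker, map_one] at h3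
            exact one_ne_zero h3
          · rintro ⟨i, j⟩
            have h3 : (prMap ι 2 i) (MvPolynomial.X ((0 : Fin 1), j)) =
                MvPolynomial.X (i, j) := by
              rw [prMap, rename_X]
            have h4 : i = 0 ∨ i = 1 := by omega
            rcases h4 with rfl | rfl
            · rw [← h3]
              exact Ideal.mem_sup_left (Ideal.mem_map_of_mem _ (hIX _))
            · rw [← h3]
              exact Ideal.mem_sup_right (Ideal.mem_map_of_mem _ (hKX _))
        · push Not at hKX
          obtain ⟨v, hv⟩ := hKX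
          have hX := isWeightedHomogeneous_X ℂ (wt1 X) v
          have hlt : K < K ⊔ Ideal.span {(MvPolynomial.X v)} := by
            refine lt_of_le_of_ne le_sup_left fun h => hv ?_
            rw [h]
            exact Ideal.mem_sup_right (Ideal.mem_span_singleton_self _)
          have h2 := ihK _ hlt hI (hom_sup hK hX)
          have h3 := PS_add hw2 (hom_star (X := X) hI hK) (prMap_homog 1 hX) h0 h1
          rw [col_star_right, star_sup_right, col_prime hv, h2] at h3
          have h4 := PS_add hw1 hK hX h0 h1
          rw [col_prime hv] at h4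
          have h5 := hd _ (hw1 v)
          have h6 : (1 - t ^ wt1 X v) * PS (wt2 X 1) (star I K) t =
              (1 - t ^ wt1 X v) * ((1 - t) * (PS (wt1 X) I t * PS (wt1 X) K t)) := by
            linear_combination h3 - (1 - t) * PS (wt1 X) I t * h4
          exact mul_left_cancel₀ h5 h6
      · obtain ⟨a, b, d, -, ha, -, haK, hbK, hab⟩ := exists_homog_of_not_prime hK hKp hKt
        have hlt1 : K < col K a := by
          refine lt_of_le_of_ne (le_col K a) fun h => hbK ?_
          rw [h]
          exact hab
        have hlt2 : K < K ⊔ Ideal.span {a} := by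
          refine lt_of_le_of_ne le_sup_left fun h => haK ?_
          rw [h]
          exact Ideal.mem_sup_right (Ideal.mem_span_singleton_self _)
        have h2 := ihK _ hlt1 hI (hom_col hK ha)
        have h2' := ihK _ hlt2 hI (hom_sup hK ha)
        have h3 := PS_add hw2 (hom_star (X := X) hI hK) (prMap_homog 1 ha) h0 h1
        rw [col_star_right, star_sup_right, h2, h2'] at h3
        have h4 := PS_add hw1 hK ha h0 h1
        linear_combination h3 - (1 - t) * PS (wt1 X) I t * h4
    · push Not at hIX
      obtain ⟨v, hv⟩ := hIX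
      have hX := isWeightedHomogeneous_X ℂ (wt1 X) v
      have hlt : I < I ⊔ Ideal.span {(MvPolynomial.X v)} := by
        refine lt_of_le_of_ne le_sup_left fun h => hv ?_
        rw [h]
        exact Ideal.mem_sup_right (Ideal.mem_span_singleton_self _)
      have h2 := ihI _ hlt K (hom_sup hI hX) hK
      have h3 := PS_add hw2 (hom_star (X := X) hI hK) (prMap_homog 0 hX) h0 h1
      rw [col_star_left, star_sup_left, col_prime hv, h2] at h3
      have h4 := PS_add hw1 hI hX h0 h1
      rw [col_prime hv] at h4
      have h5 := hd _ (hw1 v)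
      have h6 : (1 - t ^ wt1 X v) * PS (wt2 X 1) (star I K) t =
          (1 - t ^ wt1 X v) * ((1 - t) * (PS (wt1 X) I t * PS (wt1 X) K t)) := by
        linear_combination h3 - (1 - t) * PS (wt1 X) K t * h4
      exact mul_left_cancel₀ h5 h6
  · obtain ⟨a, b, d, -, ha, -, haI, hbI, hab⟩ := exists_homog_of_not_prime hI hIp hIt
    have hlt1 : I < col I a := by
      refine lt_of_le_of_ne (le_col I a) fun h => hbI ?_
      rw [h]
      exact hab
    have hlt2 : I < I ⊔ Ideal.span {a} := by
      refine lt_of_le_of_ne le_sup_left fun h => haI ?_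
      rw [h]
      exact Ideal.mem_sup_right (Ideal.mem_span_singleton_self _)
    have h2 := ihI _ hlt1 K (hom_col hI ha) hK
    have h2' := ihI _ hlt2 K (hom_sup hI ha) hK
    have h3 := PS_add hw2 (hom_star (X := X) hI hK) (prMap_homog 0 ha) h0 h1
    rw [col_star_left, star_sup_left, h2, h2'] at h3
    have h4 := PS_add hw1 hI ha h0 h1
    linear_combination h3 - (1 - t) * PS (wt1 X) K t * h4

end

end Pool.Agent.RCH.Dg2
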