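import Pool.Agent.RCH.Dg2Bi

/-!
# The bidegrees of cycles on `X × X`
-/

set_option autoImplicit false

open MvPolynomial Filter Topology

namespace Pool.Agent.RCH.Dg2

open Pool.Agent.RCH.Dg

variable {ι : Type} (X : WVar ι)

open Classical in
/-- the polynomial of the multiplicities, if the cone has dimension `r`; otherwise zero -/
noncomputable def bi (r : ℕ) (Q : Ideal (Coord ι 2)) : Polynomial ℝ :=
  if h : td (Coord ι 2 ⧸ Q) = r ∧ ∃ F : Polynomial ℝ,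
      (∀ τ : ℕ, 1 ≤ τ → mult (wt2 X τ) Q = F.eval (1 / (τ : ℝ))) ∧ (∀ i, 0 ≤ F.coeff i) ∧
      ∀ i, F.coeff i ≠ 0 → i ≤ tdf 0 Q ∧ r ≤ i + tdf 1 Q then h.2.choose else 0

/-- the bidegrees of a cycle: the polynomial `∑ n_Q F_Q` -/
noncomputable def bideg (r : ℕ) : Cycles X 2 →+ Polynomial ℝ :=
  Finsupp.liftAddHom fun Q => (AddMonoidHom.mulRight (bi X r Q.I)).comp
    (Int.castAddHom (Polynomial ℝ))

variable {X}

lemma bideg_apply (r : ℕ) (x : Cycles X 2) :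
    bideg X r x = ∑ Q ∈ x.support, (x Q : Polynomial ℝ) * bi X r Q.I := by
  rw [bideg, Finsupp.liftAddHom_apply, Finsupp.sum]
  rfl

lemma bideg_single (r : ℕ) (Q : Pt X 2) (n : ℤ) :
    bideg X r (Finsupp.single Q n) = (n : Polynomial ℝ) * bi X r Q.I := by
  rw [bideg, Finsupp.liftAddHom_apply_single]
  rfl

lemma bi_of_ne {r : ℕ} {Q : Ideal (Coord ι 2)} (h : td (Coord ι 2 ⧸ Q) ≠ r) : bi X r Q = 0 := by
  rw [bi, dif_neg fun h' => h h'.1]

lemma td_of_bi {r : ℕ} {Q : Ideal (Coord ι 2)} (h : bi X r Q ≠ 0) : td (Coord ι 2 ⧸ Q) = r := by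
  by_contra h1
  exact h (bi_of_ne h1)

/-- two polynomials which agree at `1 / τ` for all `τ` are equal -/
lemma poly_ext {F G : Polynomial ℝ}
    (h : ∀ τ : ℕ, 1 ≤ τ → F.eval (1 / (τ : ℝ)) = G.eval (1 / (τ : ℝ))) : F = G := by
  apply Polynomial.eq_of_infinite_eval_eq
  refine Set.Infinite.mono (s := Set.range fun n : ℕ => 1 / ((n + 1 : ℕ) : ℝ)) ?_ ?_
  · rintro _ ⟨n, rfl⟩
    exact h (n + 1) (by omega)
  · apply Set.infinite_range_of_injective
    intro a b hab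
    have h1 : ((a + 1 : ℕ) : ℝ) = ((b + 1 : ℕ) : ℝ) := by
      have h2 : (1 / ((a + 1 : ℕ) : ℝ)) = 1 / ((b + 1 : ℕ) : ℝ) := hab
      rwa [one_div, one_div, inv_inj] at h2
    have h3 : a + 1 = b + 1 := by exact_mod_cast h1
    omega

section

variable [Finite ι] (hw : ∀ j, 0 < X.wt j)
include hw

lemma bi_spec {r : ℕ} {Q : Ideal (Coord ι 2)} (hQ : Q.IsPrime) (hb : BiHom X Q)
    (hr : td (Coord ι 2 ⧸ Q) = r) :
    (∀ τ : ℕ, 1 ≤ τ → mult (wt2 X τ) Q = (bi X r Q).eval (1 / (τ : ℝ))) ∧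
      (∀ i, 0 ≤ (bi X r Q).coeff i) ∧
      ∀ i, (bi X r Q).coeff i ≠ 0 → i ≤ tdf 0 Q ∧ r ≤ i + tdf 1 Q := by
  have h : td (Coord ι 2 ⧸ Q) = r ∧ ∃ F : Polynomial ℝ,
      (∀ τ : ℕ, 1 ≤ τ → mult (wt2 X τ) Q = F.eval (1 / (τ : ℝ))) ∧ (∀ i, 0 ≤ F.coeff i) ∧
      ∀ i, F.coeff i ≠ 0 → i ≤ tdf 0 Q ∧ r ≤ i + tdf 1 Q := ⟨hr, exists_poly hw r Q hQ hb hr⟩
  rw [bi, dif_pos h]
  exact h.2.choose_spec

/-- the polynomial is determined by the multiplicities -/
lemma bi_eq {r : ℕ} {Q : Ideal (Coord ι 2)} (hQ : Q.IsPrime) (hb : BiHom X Q)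
    (hr : td (Coord ι 2 ⧸ Q) = r) {F : Polynomial ℝ}
    (hF : ∀ τ : ℕ, 1 ≤ τ → mult (wt2 X τ) Q = F.eval (1 / (τ : ℝ))) : bi X r Q = F :=
  poly_ext fun τ hτ => by rw [← (bi_spec hw hQ hb hr).1 τ hτ, hF τ hτ]

/-- an irrelevant prime only has the extreme bidegrees -/
lemma coeff_bi_irrelevant {r : ℕ} {Q : Ideal (Coord ι 2)} (hQ : Q.IsPrime) (hb : BiHom X Q)
    (hr : td (Coord ι 2 ⧸ Q) = r) (i : Fin 2)
    (h : ∀ j, (MvPolynomial.X (i, j) : Coord ι 2) ∈ Q) {k : ℕ} (hk : 1 ≤ k) (hk' : k + 1 ≤ r) :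
    (bi X r Q).coeff k = 0 := by
  by_contra h1
  obtain ⟨h2, h3⟩ := (bi_spec hw hQ hb hr).2.2 k h1
  have h4 := tdf_zero i h
  have h5 : i = 0 ∨ i = 1 := by omega
  rcases h5 with rfl | rfl
  · omega
  · omega

/-- **The bidegrees of a divisor vanish.** -/
theorem bideg_div {r : ℕ} {k : ℕ} (hk : 1 ≤ k) (hk' : k + 1 ≤ r) {P : Pt X 2} {g h : Coord ι 2}
    {e : Fin 2 → ℕ} (hg : IsWeightedHomogeneous (X.mdeg 2) g e)
    (hh : IsWeightedHomogeneous (X.mdeg 2) h e) (hgP : g ∉ P.I) (hhP : h ∉ P.I)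
    {x : Cycles X 2} (hdiv : IsDivisor X P g h x) : (bideg X r x).coeff k = 0 := by
  classical
  have hP := P.prime
  have hx0 : ∀ Q, x Q ≠ 0 → CodimOne P.I Q.I := by
    intro Q hQ
    by_contra h1
    apply hQ
    rw [hdiv Q, if_neg h1]
  have htd : ∀ Q, x Q ≠ 0 → td (Coord ι 2 ⧸ P.I) = td (Coord ι 2 ⧸ Q.I) + 1 := by
    intro Q hQ
    have hQp := Q.prime
    have h1 := hx0 Q hQ
    exact td_succ h1.1 fun T hT hPT hTQ => hPT.ne (h1.2 T hT hPT.le hTQ).symm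
  have hcoef : ∀ (n : ℤ) (F : Polynomial ℝ), ((n : Polynomial ℝ) * F).coeff k =
      (n : ℝ) * F.coeff k := by
    intro n F
    have h1 : (n : Polynomial ℝ) = Polynomial.C (n : ℝ) := by simp
    rw [h1, Polynomial.coeff_C_mul]
  rw [bideg_apply, Polynomial.finsetSum_coeff]
  simp only [hcoef]
  by_cases hr : td (Coord ι 2 ⧸ P.I) = r + 1
  · obtain ⟨cg, hg1, hg2, hg3⟩ := bezout hw (bihom_pt P) hr hg hgP
    obtain ⟨ch, hh1, hh2, hh3⟩ := bezout hw (bihom_pt P) hr hh hhP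
    -- the two polynomials agree
    have hpol : ∀ c : Ideal (Coord ι 2) →₀ ℕ,
        (∀ Q, c Q ≠ 0 → Q.IsPrime ∧ BiHom X Q ∧ td (Coord ι 2 ⧸ Q) = r ∧ P.I ≤ Q) →
        ∀ τ : ℕ, 1 ≤ τ → (c.sum fun Q n => (n : ℝ) * mult (wt2 X τ) Q) =
          (∑ Q ∈ c.support, Polynomial.C (c Q : ℝ) * bi X r Q).eval (1 / (τ : ℝ)) := by
      intro c hc τ hτ
      rw [Finsupp.sum, Polynomial.eval_finsetSum]
      refine Finset.sum_congr rfl fun Q hQ => ?_
      obtain ⟨h1, h2, h3, -⟩ := hc Q (Finsupp.mem_support_iff.1 hQ)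
      rw [Polynomial.eval_mul, Polynomial.eval_C, (bi_spec hw h1 h2 h3).1 τ hτ]
    have heq : (∑ Q ∈ cg.support, Polynomial.C (cg Q : ℝ) * bi X r Q) =
        ∑ Q ∈ ch.support, Polynomial.C (ch Q : ℝ) * bi X r Q := by
      apply poly_ext
      intro τ hτ
      rw [← hpol cg (fun Q hQ => ⟨(hg1 Q hQ).1, (hg1 Q hQ).2.1, (hg1 Q hQ).2.2.1,
        (hg1 Q hQ).2.2.2.1⟩) τ hτ, ← hpol ch (fun Q hQ => ⟨(hh1 Q hQ).1, (hh1 Q hQ).2.1,
        (hh1 Q hQ).2.2.1, (hh1 Q hQ).2.2.2.1⟩) τ hτ, hg3 τ hτ, hh3 τ hτ]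
    have heqk := congrArg (fun F => Polynomial.coeff F k) heq
    simp only [Polynomial.finsetSum_coeff, Polynomial.coeff_C_mul] at heqk
    -- values
    have hval : ∀ Q : Pt X 2, td (Coord ι 2 ⧸ Q.I) = r →
        x Q = (cg Q.I : ℤ) - ch Q.I := by
      intro Q hQr
      have hQp := Q.prime
      by_cases hle : P.I ≤ Q.I
      · have hcod : CodimOne P.I Q.I := by
          refine ⟨lt_of_le_of_ne hle fun h1 => ?_, fun L hL hPL hLQ => ?_⟩
          · rw [h1] at hr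
            omega
          · by_contra hne
            have h1 := td_lt_of_lt hLQ
            have h2 := td_lt_of_lt (lt_of_le_of_ne hPL (Ne.symm hne))
            omega
        rw [hdiv Q, if_pos hcod]
        have h1 : ordAt P.I Q.I g = (cg Q.I : ℕ∞) := hg2 Q.I (bihom_pt Q) hQr
        have h2 : ordAt P.I Q.I h = (ch Q.I : ℕ∞) := hh2 Q.I (bihom_pt Q) hQr
        rw [h1, h2]
        rfl
      · have h1 : cg Q.I = 0 := by
          by_contra h1
          exact hle (hg1 Q.I h1).2.2.2.1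
        have h2 : ch Q.I = 0 := by
          by_contra h2
          exact hle (hh1 Q.I h2).2.2.2.1
        have h3 : ¬ CodimOne P.I Q.I := fun h3 => hle h3.1.le
        rw [hdiv Q, if_neg h3, h1, h2]
        rfl
    -- the ideals which are not points
    have hirr : ∀ Q : Ideal (Coord ι 2), (cg Q ≠ 0 ∨ ch Q ≠ 0) → (bi X r Q).coeff k ≠ 0 →
        ∃ Q' : Pt X 2, Q'.I = Q := by
      intro Q hQ hne
      obtain ⟨hQp, hQb, hQr, hPQ⟩ : Q.IsPrime ∧ BiHom X Q ∧ td (Coord ι 2 ⧸ Q) = r ∧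
          P.I ≤ Q := by
        rcases hQ with hQ | hQ
        · exact ⟨(hg1 Q hQ).1, (hg1 Q hQ).2.1, (hg1 Q hQ).2.2.1, (hg1 Q hQ).2.2.2.1⟩
        · exact ⟨(hh1 Q hQ).1, (hh1 Q hQ).2.1, (hh1 Q hQ).2.2.1, (hh1 Q hQ).2.2.2.1⟩
      refine ⟨⟨Q, hQp, hQb, fun i => ?_, fun i f hf => hPQ (P.onX i f hf)⟩, rfl⟩
      by_contra hX
      push Not at hX
      exact hne (coeff_bi_irrelevant hw hQp hQb hQr i hX hk hk')
    -- the sum over the ideals
    have hsum : ∑ Q ∈ x.support, (x Q : ℝ) * (bi X r Q.I).coeff k =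
        ∑ Q ∈ cg.support ∪ ch.support, ((cg Q : ℝ) - ch Q) * (bi X r Q).coeff k := by
      have hQr : ∀ Q : Pt X 2, (x Q : ℝ) * (bi X r Q.I).coeff k ≠ 0 →
          td (Coord ι 2 ⧸ Q.I) = r := by
        intro Q h1
        apply td_of_bi (X := X)
        intro h2
        rw [h2, Polynomial.coeff_zero, mul_zero] at h1
        exact h1 rfl
      refine Finset.sum_bij_ne_zero (fun Q _ _ => Q.I) ?_ ?_ ?_ ?_
      · intro Q hQ hne
        have h1 := hval Q (hQr Q hne)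
        rw [Finset.mem_union, Finsupp.mem_support_iff, Finsupp.mem_support_iff]
        by_contra h2
        push Not at h2
        rw [h2.1, h2.2] at h1
        exact Finsupp.mem_support_iff.1 hQ h1
      · intro Q hQ hne Q' hQ' hne' hQQ'
        cases Q
        cases Q'
        simp only at hQQ'
        subst hQQ'
        rfl
      · intro Q hQ hne
        have h1 : cg Q ≠ 0 ∨ ch Q ≠ 0 := by
          rw [Finset.mem_union, Finsupp.mem_support_iff, Finsupp.mem_support_iff] at hQ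
          exact hQ
        obtain ⟨Q', rfl⟩ := hirr Q h1 (right_ne_zero_of_mul hne)
        have h2 : td (Coord ι 2 ⧸ Q'.I) = r := by
          rcases h1 with h1 | h1
          · exact (hg1 _ h1).2.2.1
          · exact (hh1 _ h1).2.2.1
        have h3 := hval Q' h2
        have h4 : (x Q' : ℝ) = (cg Q'.I : ℝ) - ch Q'.I := by
          rw [h3]
          push_cast
          rfl
        refine ⟨Q', ?_, ?_, rfl⟩
        · rw [Finsupp.mem_support_iff]
          intro h5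
          rw [h5, Int.cast_zero] at h4
          rw [← h4, zero_mul] at hne
          exact hne rfl
        · rw [h4]
          exact hne
      · intro Q hQ hne
        rw [hval Q (hQr Q hne)]
        push_cast
        rfl
    rw [hsum]
    have h1 : ∑ Q ∈ cg.support, (cg Q : ℝ) * (bi X r Q).coeff k =
        ∑ Q ∈ cg.support ∪ ch.support, (cg Q : ℝ) * (bi X r Q).coeff k := by
      refine Finset.sum_subset Finset.subset_union_left fun Q _ hQ => ?_
      rw [Finsupp.notMem_support_iff.1 hQ, Nat.cast_zero, zero_mul]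
    have h2 : ∑ Q ∈ ch.support, (ch Q : ℝ) * (bi X r Q).coeff k =
        ∑ Q ∈ cg.support ∪ ch.support, (ch Q : ℝ) * (bi X r Q).coeff k := by
      refine Finset.sum_subset Finset.subset_union_right fun Q _ hQ => ?_
      rw [Finsupp.notMem_support_iff.1 hQ, Nat.cast_zero, zero_mul]
    simp only [sub_mul]
    rw [Finset.sum_sub_distrib, ← h1, ← h2, heqk, sub_self]
  · refine Finset.sum_eq_zero fun Q hQ => ?_
    have h1 := htd Q (Finsupp.mem_support_iff.1 hQ)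
    rw [bi_of_ne (by omega), Polynomial.coeff_zero, mul_zero]

/-- **The bidegrees are zero on cycles rationally equivalent to zero.** -/
theorem bideg_ratZero {r : ℕ} {k : ℕ} (hk : 1 ≤ k) (hk' : k + 1 ≤ r) {x : Cycles X 2}
    (hx : x ∈ RatZero X 2) : (bideg X r x).coeff k = 0 := by
  have h0 : RatZero X 2 ≤ ((Polynomial.lcoeff ℝ k).toAddMonoidHom.comp (bideg X r)).ker := by
    rw [RatZero, AddSubgroup.closure_le]
    rintro c ⟨P, g, h, e, hg, hh, hgP, hhP, hdiv⟩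
    exact bideg_div hw hk hk' hg hh hgP hhP hdiv
  exact h0 hx

end

end Pool.Agent.RCH.Dg2
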