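import Pool.Agent.RCH.DgSer

/-!
# The Hilbert function and graded automorphisms; bounds for the rank
-/

set_option autoImplicit false

open MvPolynomial Filter Topology

namespace Pool.Agent.RCH.Dg

variable {σ : Type} {w : σ → ℕ}

section graded

/-- a graded endomorphism does not increase weights -/
lemma map_mem_Sle {φ : MvPolynomial σ ℂ →ₐ[ℂ] MvPolynomial σ ℂ}
    (hφ : ∀ i, IsWeightedHomogeneous w (φ (X i)) (w i)) {n : ℕ} {p : MvPolynomial σ ℂ}
    (hp : p ∈ Sle w n) : φ p ∈ Sle w n := by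
  classical
  have hmon : ∀ (s : σ →₀ ℕ) (a : ℂ),
      IsWeightedHomogeneous w (φ (monomial s a)) (Finsupp.weight w s) := by
    intro s a
    induction s using Finsupp.induction generalizing a with
    | zero =>
      have h1 : (monomial (0 : σ →₀ ℕ) a : MvPolynomial σ ℂ) = C a := rfl
      rw [h1, ← MvPolynomial.algebraMap_eq, AlgHom.commutes, MvPolynomial.algebraMap_eq, map_zero]
      exact isWeightedHomogeneous_C _ a
    | single_add v k s hv hk ih =>
      have h1 : (monomial (Finsupp.single v k + s) a : MvPolynomial σ ℂ) =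
          MvPolynomial.X v ^ k * monomial s a := by
        rw [MvPolynomial.X_pow_eq_monomial, monomial_mul, one_mul]
      rw [h1, map_mul, map_pow, map_add]
      have h5 := ((hφ v).pow k).mul (ih a)
      rwa [← Finsupp.weight_single] at h5
  rw [MvPolynomial.as_sum p, map_sum]
  refine Submodule.sum_mem _ fun s hs => ?_
  intro d hd
  rw [hmon s (coeff s p) hd]
  exact hp s (mem_support_iff.mp hs)

variable [Finite σ] (hw : ∀ i, 0 < w i)
include hw

lemma H_comap_le {φ : MvPolynomial σ ℂ →ₐ[ℂ] MvPolynomial σ ℂ}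
    (hφ : ∀ i, IsWeightedHomogeneous w (φ (X i)) (w i)) (I : Ideal (MvPolynomial σ ℂ)) (n : ℕ) :
    H w (I.comap φ) n ≤ H w I n := by
  have hfin := finite_Sle hw n
  let f : Sle w n →ₗ[ℂ] Sle w n :=
    (φ.toLinearMap.comp (Sle w n).subtype).codRestrict (Sle w n) fun p => map_mem_Sle hφ p.2
  have hle : Ile w (I.comap φ) n ≤ (Ile w I n).comap f := fun p hp => hp
  let g : (Sle w n ⧸ Ile w (I.comap φ) n) →ₗ[ℂ] (Sle w n ⧸ Ile w I n) :=
    Submodule.mapQ _ _ f hle
  have hg : Function.Injective g := by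
    rw [← LinearMap.ker_eq_bot, LinearMap.ker_eq_bot']
    intro x hx
    obtain ⟨x, rfl⟩ := Submodule.Quotient.mk_surjective _ x
    rw [Submodule.Quotient.mk_eq_zero]
    have hx1 : (Submodule.Quotient.mk (f x) : Sle w n ⧸ Ile w I n) = 0 := hx
    have hx2 : f x ∈ Ile w I n := (Submodule.Quotient.mk_eq_zero _).mp hx1
    exact hx2
  exact LinearMap.finrank_le_finrank_of_injective hg

/-- the Hilbert function does not change under a graded automorphism -/
theorem H_comap_equiv {φ : MvPolynomial σ ℂ ≃ₐ[ℂ] MvPolynomial σ ℂ}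
    (hφ : ∀ i, IsWeightedHomogeneous w (φ (X i)) (w i))
    (hψ : ∀ i, IsWeightedHomogeneous w (φ.symm (X i)) (w i)) (I : Ideal (MvPolynomial σ ℂ))
    (n : ℕ) : H w (I.comap φ) n = H w I n := by
  apply le_antisymm
  · exact H_comap_le hw (φ := φ.toAlgHom) hφ I n
  · have h1 := H_comap_le hw (φ := φ.symm.toAlgHom) hψ (I.comap φ) n
    have h2 : (I.comap φ).comap φ.symm.toAlgHom = I := by
      ext x
      rw [Ideal.mem_comap, Ideal.mem_comap]
      have h3 : φ (φ.symm.toAlgHom x) = x := φ.apply_symm_apply x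
      rw [h3]
    rwa [h2] at h1

end graded

section bounds

variable [Finite σ] (hw : ∀ i, 0 < w i)
include hw

/-- the rank drops at most by one modulo a homogeneous element -/
theorem HasRk.le_succ {I : Ideal (MvPolynomial σ ℂ)} (hI : Hom w I) {a : MvPolynomial σ ℂ} {d : ℕ}
    (hd : 0 < d) (ha : IsWeightedHomogeneous w a d) {r r' : ℕ} {e e' : ℝ} (h1 : HasRk w I r e)
    (h2 : HasRk w (I ⊔ Ideal.span {a}) r' e') : r ≤ r' + 1 := by
  by_contra hlt
  push Not at hlt
  have hmono : ∀ t : ℝ, 0 < t → t < 1 → (1 - t ^ d) * PS w I t ≤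
      PS w (I ⊔ Ideal.span {a}) t := by
    intro t h0 h1
    have h3 := PS_add hw hI ha h0 h1
    have h4 : PS w (col I a) t ≤ PS w I t := by
      refine Summable.tsum_le_tsum (fun n => ?_) (summable_of_bdd (polyBdd hw _) h0 h1)
        (summable_of_bdd (polyBdd hw I) h0 h1)
      refine mul_le_mul_of_nonneg_right ?_ (by positivity)
      exact_mod_cast H_anti hw (le_col I a) n
    have h5 : t ^ d * PS w (col I a) t ≤ t ^ d * PS w I t :=
      mul_le_mul_of_nonneg_left h4 (by positivity)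
    linarith
  have hgeo : Tendsto (fun t : ℝ => ∑ i ∈ Finset.range d, t ^ i) (𝓝[<] 1) (𝓝 d) := tendsto_geom d
  have h3 : Tendsto (fun t : ℝ => (∑ i ∈ Finset.range d, t ^ i) * ((1 - t) ^ (r + 1) * PS w I t))
      (𝓝[<] 1) (𝓝 (d * e)) := hgeo.mul h1.2
  have h4 : Tendsto (fun t : ℝ => (1 - t) ^ r * PS w (I ⊔ Ideal.span {a}) t) (𝓝[<] 1) (𝓝 0) := by
    obtain ⟨k, rfl⟩ : ∃ k, r = r' + 1 + (k + 1) := ⟨r - r' - 2, by omega⟩
    have h5 : Tendsto (fun t : ℝ => (1 - t) ^ (k + 1)) (𝓝[<] 1) (𝓝 0) :=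
      tendsto_one_sub_pow (Nat.succ_ne_zero k)
    have h6 := h5.mul h2.2
    rw [zero_mul] at h6
    refine h6.congr fun t => ?_
    rw [pow_add (1 - t) (r' + 1) (k + 1)]
    ring
  have h5 : (d : ℝ) * e ≤ 0 := by
    refine le_of_tendsto_of_tendsto h3 h4 ?_
    filter_upwards [ev] with t ht
    have h6 := hmono t ht.1 ht.2
    rw [one_sub_pow] at h6
    have h7 : 0 ≤ (1 - t) ^ r := pow_nonneg (by linarith [ht.2]) r
    calc (∑ i ∈ Finset.range d, t ^ i) * ((1 - t) ^ (r + 1) * PS w I t) =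
        (1 - t) ^ r * ((1 - t) * (∑ i ∈ Finset.range d, t ^ i) * PS w I t) := by ring
      _ ≤ (1 - t) ^ r * PS w (I ⊔ Ideal.span {a}) t := mul_le_mul_of_nonneg_left h6 h7
  have h6 : 0 < (d : ℝ) * e := mul_pos (by exact_mod_cast hd) h1.1
  linarith

/-- the ideal of the origin -/
lemma hasRk_of_X {I : Ideal (MvPolynomial σ ℂ)} (hI : I ≠ ⊤) (hX : ∀ i, X i ∈ I) :
    HasRk w I 0 1 := by
  have h1 : H w I = fun _ => 1 := funext fun n => H_irrelevant hw hI hX n
  refine ⟨one_pos, ?_⟩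
  show Lim (H w I) (0 + 1) 1
  rw [h1]
  exact lim_one

end bounds

end Pool.Agent.RCH.Dg
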