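import Pool.Agent.RCH.DgMap
import Pool.Agent.RCH.DgIso

/-!
# Bihomogeneous ideals and the weights with the first point scaled

For a weighted projective variety `X`, the coordinates of a point of `X × X` get the weights
`τ * wt j` (first point) and `wt j` (second point), for `τ = 1, 2, …`.
-/

set_option autoImplicit false

open MvPolynomial Filter Topology

namespace Pool.Agent.RCH.Dg

section core

variable {σ : Type} {w : σ → ℕ}

attribute [local instance] MvPolynomial.weightedGradedAlgebra in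
/-- the largest homogeneous ideal contained in a prime ideal is prime -/
theorem exists_core (w : σ → ℕ) (Q : Ideal (MvPolynomial σ ℂ)) [hQ : Q.IsPrime] :
    ∃ L : Ideal (MvPolynomial σ ℂ), L.IsPrime ∧ Hom w L ∧ L ≤ Q ∧
      ∀ I : Ideal (MvPolynomial σ ℂ), Hom w I → I ≤ Q → I ≤ L := by
  classical
  let _ := MvPolynomial.weightedGradedAlgebra ℂ w
  refine ⟨(Q.homogeneousCore (weightedHomogeneousSubmodule ℂ w)).toIdeal,
    Ideal.IsPrime.homogeneousCore hQ, ?_, Ideal.toIdeal_homogeneousCore_le _ _, ?_⟩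
  · intro p hp n
    exact weightedHomogeneousComponent_mem_of_mem ℂ w
      (Q.homogeneousCore (weightedHomogeneousSubmodule ℂ w)).isHomogeneous hp n
  · intro I hI hle p hp
    have hI' : I.IsHomogeneous (weightedHomogeneousSubmodule ℂ w) := by
      intro n p hp
      have h1 := hI p hp n
      rw [← weightedDecomposition.decompose'_apply ℂ w p n] at h1
      exact h1
    have h2 := hI'.toIdeal_homogeneousCore_eq_self
    rw [← h2] at hp
    exact Ideal.homogeneousCore_mono _ hle hp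

end core

end Pool.Agent.RCH.Dg

namespace Pool.Agent.RCH.Dg2

open Pool.Agent.RCH.Dg

variable {ι : Type} (X : WVar ι)

/-- the weights of the coordinates of two points, with the first point scaled by `τ` -/
def wt2 (τ : ℕ) (v : Fin 2 × ι) : ℕ := if v.1 = 0 then τ * X.wt v.2 else X.wt v.2

lemma wt2_pos (hw : ∀ j, 0 < X.wt j) {τ : ℕ} (hτ : 1 ≤ τ) (v : Fin 2 × ι) : 0 < wt2 X τ v := by
  rw [wt2]
  split
  · exact Nat.mul_pos hτ (hw _)
  · exact hw _

lemma wt2_eq (τ : ℕ) (v : Fin 2 × ι) : wt2 X τ v = τ * X.mdeg 2 v 0 + X.mdeg 2 v 1 := by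
  obtain ⟨i, j⟩ := v
  fin_cases i
  · simp [wt2, WVar.mdeg]
  · simp [wt2, WVar.mdeg]

lemma weight_wt2 (τ : ℕ) (d : Fin 2 × ι →₀ ℕ) :
    Finsupp.weight (wt2 X τ) d =
      τ * Finsupp.weight (X.mdeg 2) d 0 + Finsupp.weight (X.mdeg 2) d 1 := by
  rw [Finsupp.weight_apply, Finsupp.weight_apply, Finsupp.sum, Finsupp.sum, Finset.sum_apply,
    Finset.sum_apply, Finset.mul_sum, ← Finset.sum_add_distrib]
  refine Finset.sum_congr rfl fun v _ => ?_
  rw [wt2_eq, Pi.smul_apply, Pi.smul_apply, smul_eq_mul, smul_eq_mul, smul_eq_mul]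
  ring

/-- the ideal is bihomogeneous -/
def BiHom (I : Ideal (Coord ι 2)) : Prop :=
  ∀ p ∈ I, ∀ e : Fin 2 → ℕ, weightedHomogeneousComponent (X.mdeg 2) e p ∈ I

variable {X}

lemma bihom_pt (Q : Pt X 2) : BiHom X Q.I := Q.homog

/-- a bihomogeneous ideal is homogeneous for the scaled weights -/
lemma BiHom.hom {I : Ideal (Coord ι 2)} (hI : BiHom X I) (τ : ℕ) : Hom (wt2 X τ) I := by
  classical
  intro p hp n
  have h : weightedHomogeneousComponent (wt2 X τ) n p =
      ∑ e ∈ (p.support.image fun d => Finsupp.weight (X.mdeg 2) d).filter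
        (fun e => τ * e 0 + e 1 = n), weightedHomogeneousComponent (X.mdeg 2) e p := by
    ext d
    rw [coeff_weightedHomogeneousComponent, coeff_sum]
    simp only [coeff_weightedHomogeneousComponent]
    rw [Finset.sum_ite_eq, weight_wt2]
    by_cases hd : coeff d p = 0
    · rw [hd, ite_self, ite_self]
    · have h1 : Finsupp.weight (X.mdeg 2) d ∈
          p.support.image fun d => Finsupp.weight (X.mdeg 2) d :=
        Finset.mem_image_of_mem _ (mem_support_iff.2 hd)
      by_cases h2 : τ * Finsupp.weight (X.mdeg 2) d 0 + Finsupp.weight (X.mdeg 2) d 1 = n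
      · rw [if_pos h2, if_pos (Finset.mem_filter.2 ⟨h1, h2⟩)]
      · rw [if_neg h2]
        symm
        apply if_neg
        intro h3
        exact h2 (Finset.mem_filter.1 h3).2
  rw [h]
  exact I.sum_mem fun e _ => hI p hp e

/-- an ideal which is homogeneous for two different scalings is bihomogeneous -/
lemma bihom_of {I : Ideal (Coord ι 2)} (h1 : Hom (wt2 X 1) I) (h2 : Hom (wt2 X 2) I) :
    BiHom X I := by
  classical
  intro p hp e
  have h : weightedHomogeneousComponent (X.mdeg 2) e p =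
      weightedHomogeneousComponent (wt2 X 2) (2 * e 0 + e 1)
        (weightedHomogeneousComponent (wt2 X 1) (e 0 + e 1) p) := by
    ext d
    rw [coeff_weightedHomogeneousComponent, coeff_weightedHomogeneousComponent,
      coeff_weightedHomogeneousComponent, weight_wt2, weight_wt2]
    by_cases hd : Finsupp.weight (X.mdeg 2) d = e
    · rw [if_pos hd, hd, if_pos rfl, one_mul, if_pos rfl]
    · rw [if_neg hd]
      split_ifs with h3 h4
      · exfalso
        apply hd
        funext i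
        fin_cases i
        · show Finsupp.weight (X.mdeg 2) d 0 = e 0
          omega
        · show Finsupp.weight (X.mdeg 2) d 1 = e 1
          omega
      · rfl
      · rfl
  rw [h]
  exact h2 _ (h1 p hp _) _

lemma homog2_iff {e : Fin 2 → ℕ} {p : Coord ι 2} (h : IsWeightedHomogeneous (X.mdeg 2) p e)
    (τ : ℕ) : IsWeightedHomogeneous (wt2 X τ) p (τ * e 0 + e 1) := by
  intro d hd
  rw [weight_wt2, h hd]

section

variable [Finite ι] (hw : ∀ j, 0 < X.wt j)
include hw

/-- a minimal prime over a principal ideal of a bihomogeneous prime is homogeneous for every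
scaling -/
theorem hom_of_minimal {P Q : Ideal (Coord ι 2)} [hP : P.IsPrime] [hQ : Q.IsPrime]
    (hPb : BiHom X P) {g : Coord ι 2} {e : Fin 2 → ℕ} (hg : IsWeightedHomogeneous (X.mdeg 2) g e)
    (hgP : g ∉ P) (hPQ : P ≤ Q) (hgQ : g ∈ Q) {τ : ℕ} (hτ : 1 ≤ τ) {r : ℕ} {ε ε' : ℝ}
    (h1 : HasRk (wt2 X τ) P (r + 1) ε) (h2 : HasRk (wt2 X τ) Q r ε') (τ' : ℕ) :
    Hom (wt2 X τ') Q := by
  obtain ⟨L, hLp, hLh, hLQ, hmax⟩ := exists_core (wt2 X τ') Q
  have h3 : P ⊔ Ideal.span {g} ≤ L := by
    apply hmax _ (hom_sup (hPb.hom τ') (homog2_iff hg τ'))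
    rw [sup_le_iff, Ideal.span_singleton_le_iff_mem]
    exact ⟨hPQ, hgQ⟩
  have h4 : P < L := by
    refine lt_of_le_of_ne (le_sup_left.trans h3) fun h => hgP ?_
    rw [h]
    exact h3 (Ideal.mem_sup_right (Ideal.mem_span_singleton_self g))
  rcases hLQ.eq_or_lt with h5 | h5
  · rwa [← h5]
  · exfalso
    have h6 := HasRk.lt_lt (w := wt2 X τ) (wt2_pos X hw hτ) hP hLp h4 h5 h1 h2
    omega

/-- the rank does not depend on the scaling -/
lemma hasRk_td {Q : Ideal (Coord ι 2)} [hQ : Q.IsPrime] (hb : BiHom X Q) {τ : ℕ} (hτ : 1 ≤ τ) :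
    HasRk (wt2 X τ) Q (td (Coord ι 2 ⧸ Q)) (mult (wt2 X τ) Q) := by
  rw [← rk_eq_td (w := wt2 X τ) (wt2_pos X hw hτ) (hb.hom τ)]
  exact hasRk (wt2_pos X hw hτ) (hb.hom τ) hQ.ne_top

lemma rk_td {Q : Ideal (Coord ι 2)} [hQ : Q.IsPrime] (hb : BiHom X Q) {τ : ℕ} (hτ : 1 ≤ τ)
    {r : ℕ} {ε : ℝ} (h : HasRk (wt2 X τ) Q r ε) : td (Coord ι 2 ⧸ Q) = r :=
  (HasRk.unique (hasRk_td hw hb hτ) h).1

end

end Pool.Agent.RCH.Dg2
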