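import Pool.Agent.RCH.Dg2Box

/-!
# Products of points and surfaces in a relation between products of curves
-/

set_option autoImplicit false

open MvPolynomial Filter Topology

namespace Pool.Agent.RCH.Dg2

open Pool.Agent.RCH.Dg

variable {ι : Type} {X : WVar ι}

/-- the projection of a product to a factor -/
lemma tdf_box [Finite ι] {q : Fin 2 → Pt X 1} {P : Pt X 2} (hP : P.I = boxIdeal X q) (i : Fin 2) :
    tdf i P.I ≤ td (Coord ι 1 ⧸ (q i).I) := by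
  have hPp := P.prime
  have hqp := (q i).prime
  have h1 : (q i).I.comap (inFactor 1 0) ≤ P.I.comap (inFactor 2 i) := by
    intro f hf
    rw [Ideal.mem_comap] at hf ⊢
    have h2 : inFactor 2 i f = prMap ι 2 i (inFactor 1 0 f) := by
      unfold inFactor prMap
      rw [rename_rename]
      rfl
    rw [h2, hP]
    exact Ideal.mem_iSup_of_mem i (Ideal.mem_map_of_mem (prMap ι 2 i).toRingHom hf)
  have h3 : ((q i).I.comap (inFactor 1 0)).IsPrime := Ideal.comap_isPrime _ _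
  have h4 : td (MvPolynomial ι ℂ ⧸ (q i).I.comap (inFactor 1 0)) ≤ td (Coord ι 1 ⧸ (q i).I) := by
    have h5 : Algebra.trdeg ℂ (MvPolynomial ι ℂ ⧸ (q i).I.comap (inFactor 1 0)) ≤
        Algebra.trdeg ℂ (Coord ι 1 ⧸ (q i).I) :=
      trdeg_le_of_injective
        (Ideal.quotientMapₐ (q i).I (inFactor 1 0 : MvPolynomial ι ℂ →ₐ[ℂ] Coord ι 1) le_rfl)
        (by
          rw [injective_iff_map_eq_zero]
          intro x hx
          obtain ⟨f, rfl⟩ := Ideal.Quotient.mk_surjective x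
          rw [Ideal.Quotient.eq_zero_iff_mem, Ideal.mem_comap]
          exact Ideal.Quotient.eq_zero_iff_mem.1 hx)
    rw [← cast_td, ← cast_td] at h5
    exact_mod_cast h5
  rcases h1.eq_or_lt with h6 | h6
  · rw [tdf, ← h6]
    exact h4
  · exact (td_lt_of_lt h6).le.trans h4

lemma coeff_zsmul (n : ℤ) (F : Polynomial ℝ) (k : ℕ) :
    (n • F).coeff k = (n : ℝ) * F.coeff k := by
  rw [Polynomial.coeff_smul, zsmul_eq_mul]

section

variable [Finite ι] (hw : ∀ j, 0 < X.wt j)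
include hw

/-- the dimension and the multiplicity of a product -/
theorem hasRk_box {q : Fin 2 → Pt X 1} {P : Pt X 2} (hP : P.I = boxIdeal X q) {r₀ r₁ : ℕ}
    {e₀ e₁ : ℝ} (h0 : HasRk (wt1 X) (q 0).I r₀ e₀) (h1 : HasRk (wt1 X) (q 1).I r₁ e₁) :
    HasRk (wt2 X 1) P.I (r₀ + r₁) (e₀ * e₁) := by
  refine ⟨mul_pos h0.1 h1.1, ?_⟩
  refine (h0.2.mul h1.2).congr' ?_
  have h6 : ∀ᶠ t : ℝ in 𝓝[<] 1, t ∈ Set.Ioo (0 : ℝ) 1 := Ioo_mem_nhdsLT (by norm_num)
  filter_upwards [h6] with t ht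
  rw [hP, boxIdeal_eq, PS_star hw ht.1 ht.2 (q 0).I (q 1).I (hom_pt (q 0)) (hom_pt (q 1))]
  ring

lemma td_box {q : Fin 2 → Pt X 1} {P : Pt X 2} (hP : P.I = boxIdeal X q) {r₀ r₁ : ℕ}
    {e₀ e₁ : ℝ} (h0 : HasRk (wt1 X) (q 0).I r₀ e₀) (h1 : HasRk (wt1 X) (q 1).I r₁ e₁) :
    td (Coord ι 2 ⧸ P.I) = r₀ + r₁ := by
  have hPp := P.prime
  exact rk_td hw (bihom_pt P) le_rfl (hasRk_box hw hP h0 h1)

lemma td_pt {q : Pt X 1} {r : ℕ} {e : ℝ} (h : HasRk (wt1 X) q.I r e) :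
    td (Coord ι 1 ⧸ q.I) = r := by
  have hq := q.prime
  rw [← rk_eq_td (w := wt1 X) (fun v => hw v.2) (hom_pt q), h.rk_eq]

/-- **The bidegrees of a product.** -/
theorem bi_box {q : Fin 2 → Pt X 1} {P : Pt X 2} (hP : P.I = boxIdeal X q) {r₀ r₁ : ℕ}
    {e₀ e₁ : ℝ} (h0 : HasRk (wt1 X) (q 0).I r₀ e₀) (h1 : HasRk (wt1 X) (q 1).I r₁ e₁) :
    bi X (r₀ + r₁) P.I = Polynomial.C (e₀ * e₁) * Polynomial.X ^ r₀ := by
  have hPp := P.prime
  have htd := td_box hw hP h0 h1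
  obtain ⟨h2, -, h3⟩ := bi_spec hw hPp (bihom_pt P) htd
  have h4 : tdf 0 P.I ≤ r₀ := (tdf_box hP 0).trans (td_pt hw h0).le
  have h5 : tdf 1 P.I ≤ r₁ := (tdf_box hP 1).trans (td_pt hw h1).le
  have h6 : ∀ k, k ≠ r₀ → (bi X (r₀ + r₁) P.I).coeff k = 0 := by
    intro k hk
    by_contra h7
    obtain ⟨h8, h9⟩ := h3 k h7
    omega
  have h7 : bi X (r₀ + r₁) P.I =
      Polynomial.C ((bi X (r₀ + r₁) P.I).coeff r₀) * Polynomial.X ^ r₀ := by
    ext k
    rw [Polynomial.coeff_C_mul_X_pow]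
    split_ifs with h8
    · rw [h8]
    · exact h6 k h8
  have h8 := h2 1 le_rfl
  rw [(hasRk_box hw hP h0 h1).mult_eq, h7, Nat.cast_one, div_one, Polynomial.eval_mul,
    Polynomial.eval_C, Polynomial.eval_pow, Polynomial.eval_X, one_pow, mul_one] at h8
  rw [h7, ← h8]

theorem bideg_box {q : Fin 2 → Pt X 1} {r₀ r₁ r : ℕ} {e₀ e₁ : ℝ}
    (h0 : HasRk (wt1 X) (q 0).I r₀ e₀) (h1 : HasRk (wt1 X) (q 1).I r₁ e₁) (hr : r₀ + r₁ = r) :
    bideg X r (box X q) = Polynomial.C (e₀ * e₁) * Polynomial.X ^ r₀ := by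
  subst hr
  obtain ⟨P, hP, h2⟩ := box_eq X q
  rw [h2, bideg_single, bi_box hw hP h0 h1, Int.cast_one, one_mul]

/-- **Points times surfaces drop out.** In a cycle rationally equivalent to zero which is a combination
of products of two curves, of products of a point and a surface and of products of a surface and a
point, the degrees of the three parts are zero. -/
theorem kill {α β γ : Type} (s : Finset α) (s' : Finset β) (s'' : Finset γ) (m : α → ℤ)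
    (κ : β → ℤ) (κ' : γ → ℤ) (l l' : α → Pt X 1) (p Y : β → Pt X 1) (Y' p' : γ → Pt X 1)
    {d d' : α → ℝ} {e ε : β → ℝ} {ε' e' : γ → ℝ}
    (hl : ∀ a ∈ s, HasRk (wt1 X) (l a).I 2 (d a)) (hl' : ∀ a ∈ s, HasRk (wt1 X) (l' a).I 2 (d' a))
    (hp : ∀ b ∈ s', HasRk (wt1 X) (p b).I 1 (e b)) (hY : ∀ b ∈ s', HasRk (wt1 X) (Y b).I 3 (ε b))
    (hY' : ∀ c ∈ s'', HasRk (wt1 X) (Y' c).I 3 (ε' c))
    (hp' : ∀ c ∈ s'', HasRk (wt1 X) (p' c).I 1 (e' c))
    (hx : ∑ a ∈ s, m a • box X ![l a, l' a] + ∑ b ∈ s', κ b • box X ![p b, Y b] +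
      ∑ c ∈ s'', κ' c • box X ![Y' c, p' c] ∈ RatZero X 2) :
    ∑ a ∈ s, (m a : ℝ) * (d a * d' a) = 0 ∧ ∑ b ∈ s', (κ b : ℝ) * (e b * ε b) = 0 ∧
      ∑ c ∈ s'', (κ' c : ℝ) * (ε' c * e' c) = 0 := by
  have h1 : ∀ a ∈ s, bideg X 4 (box X ![l a, l' a]) =
      Polynomial.C (d a * d' a) * Polynomial.X ^ 2 := fun a ha =>
    bideg_box hw (q := ![l a, l' a]) (hl a ha) (hl' a ha) rfl
  have h2 : ∀ b ∈ s', bideg X 4 (box X ![p b, Y b]) =
      Polynomial.C (e b * ε b) * Polynomial.X ^ 1 := fun b hb =>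
    bideg_box hw (q := ![p b, Y b]) (hp b hb) (hY b hb) rfl
  have h3 : ∀ c ∈ s'', bideg X 4 (box X ![Y' c, p' c]) =
      Polynomial.C (ε' c * e' c) * Polynomial.X ^ 3 := fun c hc =>
    bideg_box hw (q := ![Y' c, p' c]) (hY' c hc) (hp' c hc) rfl
  have hb : ∀ k, (bideg X 4 (∑ a ∈ s, m a • box X ![l a, l' a] +
      ∑ b ∈ s', κ b • box X ![p b, Y b] + ∑ c ∈ s'', κ' c • box X ![Y' c, p' c])).coeff k =
      ∑ a ∈ s, (m a : ℝ) * (if k = 2 then d a * d' a else 0) +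
        ∑ b ∈ s', (κ b : ℝ) * (if k = 1 then e b * ε b else 0) +
        ∑ c ∈ s'', (κ' c : ℝ) * (if k = 3 then ε' c * e' c else 0) := by
    intro k
    rw [map_add, map_add, map_sum, map_sum, map_sum, Polynomial.coeff_add, Polynomial.coeff_add,
      Polynomial.finsetSum_coeff, Polynomial.finsetSum_coeff, Polynomial.finsetSum_coeff]
    refine congrArg₂ _ (congrArg₂ _ ?_ ?_) ?_
    · refine Finset.sum_congr rfl fun a ha => ?_
      rw [map_zsmul, coeff_zsmul, h1 a ha, Polynomial.coeff_C_mul_X_pow]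
    · refine Finset.sum_congr rfl fun b hb => ?_
      rw [map_zsmul, coeff_zsmul, h2 b hb, Polynomial.coeff_C_mul_X_pow]
    · refine Finset.sum_congr rfl fun c hc => ?_
      rw [map_zsmul, coeff_zsmul, h3 c hc, Polynomial.coeff_C_mul_X_pow]
  refine ⟨?_, ?_, ?_⟩
  · have h4 := bideg_ratZero hw (r := 4) (k := 2) (by norm_num) (by norm_num) hx
    rw [hb 2] at h4
    simpa using h4
  · have h4 := bideg_ratZero hw (r := 4) (k := 1) (by norm_num) (by norm_num) hx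
    rw [hb 1] at h4
    simpa using h4
  · have h4 := bideg_ratZero hw (r := 4) (k := 3) (by norm_num) (by norm_num) hx
    rw [hb 3] at h4
    simpa using h4

/-- one point: its multiplicity is zero -/
theorem kill_one {α : Type} (s : Finset α) (m : α → ℤ) (κ κ' : ℤ) (l l' : α → Pt X 1)
    (p Y : Pt X 1) {d d' : α → ℝ} {e ε : ℝ}
    (hl : ∀ a ∈ s, HasRk (wt1 X) (l a).I 2 (d a)) (hl' : ∀ a ∈ s, HasRk (wt1 X) (l' a).I 2 (d' a))
    (hp : HasRk (wt1 X) p.I 1 e) (hY : HasRk (wt1 X) Y.I 3 ε)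
    (hx : ∑ a ∈ s, m a • box X ![l a, l' a] + κ • box X ![p, Y] + κ' • box X ![Y, p] ∈
      RatZero X 2) :
    κ = 0 ∧ κ' = 0 ∧ ∑ a ∈ s, (m a : ℝ) * (d a * d' a) = 0 := by
  obtain ⟨h1, h2, h3⟩ := kill hw s Finset.univ Finset.univ m (fun _ : Unit => κ)
    (fun _ : Unit => κ') l l' (fun _ => p) (fun _ => Y) (fun _ => Y) (fun _ => p) hl hl'
    (e := fun _ => e) (ε := fun _ => ε) (ε' := fun _ => ε) (e' := fun _ => e)
    (fun _ _ => hp) (fun _ _ => hY) (fun _ _ => hY) (fun _ _ => hp)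
    (by simpa using hx)
  have h4 : e * ε ≠ 0 := (mul_pos hp.1 hY.1).ne'
  have h5 : ε * e ≠ 0 := (mul_pos hY.1 hp.1).ne'
  rw [Finset.univ_unique, Finset.sum_singleton] at h2 h3
  refine ⟨?_, ?_, h1⟩
  · exact_mod_cast (mul_eq_zero.1 h2).resolve_right h4
  · exact_mod_cast (mul_eq_zero.1 h3).resolve_right h5

end

end Pool.Agent.RCH.Dg2
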