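import Pool.Agent.RCH.Dg2Hom

/-!
# The multiplicity of a divisor for the scaled weights
-/

set_option autoImplicit false

open MvPolynomial Filter Topology

namespace Pool.Agent.RCH.Dg2

open Pool.Agent.RCH.Dg

variable {ι : Type} {X : WVar ι} [Finite ι] (hw : ∀ j, 0 < X.wt j)
include hw

/-- **Bézout for a bihomogeneous prime.** The primes of codimension one over `P` and the element `g` of
bidegree `e`, with the lengths as multiplicities: the sum of their multiplicities for the weights scaled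
by `τ` is `τ e_0 + e_1` times the one of `P`, for every `τ`. -/
theorem bezout {P : Ideal (Coord ι 2)} [hP : P.IsPrime] (hPb : BiHom X P) {r : ℕ}
    (hr : td (Coord ι 2 ⧸ P) = r + 1) {g : Coord ι 2} {e : Fin 2 → ℕ}
    (hg : IsWeightedHomogeneous (X.mdeg 2) g e) (hgP : g ∉ P) :
    ∃ c : Ideal (Coord ι 2) →₀ ℕ,
      (∀ Q, c Q ≠ 0 → Q.IsPrime ∧ BiHom X Q ∧ td (Coord ι 2 ⧸ Q) = r ∧ P ≤ Q ∧ g ∈ Q) ∧
      (∀ (Q : Ideal (Coord ι 2)) [Q.IsPrime], BiHom X Q → td (Coord ι 2 ⧸ Q) = r →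
        len Q (P ⊔ Ideal.span {g}) = (c Q : ℕ∞)) ∧
      ∀ τ : ℕ, 1 ≤ τ → (c.sum fun Q n => (n : ℝ) * mult (wt2 X τ) Q) =
        (τ * e 0 + e 1 : ℕ) * mult (wt2 X τ) P := by
  classical
  have hrk : ∀ τ : ℕ, 1 ≤ τ → HasRk (wt2 X τ) P (r + 1) (mult (wt2 X τ) P) := by
    intro τ hτ
    rw [← hr]
    exact hasRk_td hw hPb hτ
  have hlt : P < P ⊔ Ideal.span {g} := by
    refine lt_of_le_of_ne le_sup_left (fun h => hgP ?_)
    rw [h]
    exact Ideal.mem_sup_right (Ideal.subset_span rfl)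
  have hlead := fun (τ : ℕ) (hτ : 1 ≤ τ) => leading (w := wt2 X τ) (wt2_pos X hw hτ) r
    (P ⊔ Ideal.span {g}) (hom_sup (hPb.hom τ) (homog2_iff hg τ)) (fun r' e h => by
      have := HasRk.lt (w := wt2 X τ) (wt2_pos X hw hτ) hP hlt (hrk τ hτ) h
      omega)
  choose c hc1 hc2 using hlead
  let em : ∀ τ : ℕ, Prm (wt2 X τ) r ↪ Ideal (Coord ι 2) := fun τ => ⟨Subtype.val,
    Subtype.val_injective⟩
  have hval : ∀ (τ : ℕ) (hτ : 1 ≤ τ) (Q : Ideal (Coord ι 2)) (hQ : Q.IsPrime), BiHom X Q →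
      td (Coord ι 2 ⧸ Q) = r →
        len Q (P ⊔ Ideal.span {g}) = ((c τ hτ).embDomain (em τ) Q : ℕ∞) := by
    intro τ hτ Q hQ hQb hQr
    have h1 : ∃ ε : ℝ, HasRk (wt2 X τ) Q r ε := by
      refine ⟨mult (wt2 X τ) Q, ?_⟩
      rw [← hQr]
      exact hasRk_td hw hQb hτ
    have h2 := hc1 τ hτ ⟨Q, hQ, hQb.hom τ, h1⟩
    have h3 : (c τ hτ).embDomain (em τ) Q = c τ hτ ⟨Q, hQ, hQb.hom τ, h1⟩ :=
      Finsupp.embDomain_apply_self (em τ) (c τ hτ) ⟨Q, hQ, hQb.hom τ, h1⟩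
    rw [h3]
    exact h2
  have hsup : ∀ (τ : ℕ) (hτ : 1 ≤ τ) (Q : Ideal (Coord ι 2)),
      (c τ hτ).embDomain (em τ) Q ≠ 0 → Q.IsPrime ∧ BiHom X Q ∧ td (Coord ι 2 ⧸ Q) = r ∧
        P ≤ Q ∧ g ∈ Q := by
    intro τ hτ Q hQ
    have h1 : Q ∈ Set.range (em τ) := by
      by_contra h2
      exact hQ (Finsupp.embDomain_of_notMem_range _ _ _ h2)
    obtain ⟨⟨Q', hp, hh, ε, hε⟩, rfl⟩ := h1
    change (c τ hτ).embDomain (em τ) (em τ ⟨Q', hp, hh, ε, hε⟩) ≠ 0 at hQ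
    rw [Finsupp.embDomain_apply_self] at hQ
    have h2 := hc1 τ hτ ⟨Q', hp, hh, ε, hε⟩
    have h3 : P ⊔ Ideal.span {g} ≤ Q' := by
      by_contra h3
      rw [len_of_not_le Q' h3] at h2
      exact hQ (by exact_mod_cast h2.symm)
    have h4 : P ≤ Q' := le_sup_left.trans h3
    have h5 : g ∈ Q' := h3 (Ideal.mem_sup_right (Ideal.mem_span_singleton_self g))
    have h6 := fun τ' : ℕ => hom_of_minimal hw hPb hg hgP h4 h5 hτ (hrk τ hτ) hε τ'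
    have h7 : BiHom X Q' := bihom_of (h6 1) (h6 2)
    exact ⟨hp, h7, rk_td hw h7 hτ hε, h4, h5⟩
  have heq : ∀ (τ : ℕ) (hτ : 1 ≤ τ),
      (c τ hτ).embDomain (em τ) = (c 1 le_rfl).embDomain (em 1) := by
    intro τ hτ
    ext Q
    by_cases h1 : (c τ hτ).embDomain (em τ) Q = 0
    · by_cases h2 : (c 1 le_rfl).embDomain (em 1) Q = 0
      · rw [h1, h2]
      · obtain ⟨hp, hb, ht, -, -⟩ := hsup 1 le_rfl Q h2
        have h3 := hval τ hτ Q hp hb ht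
        rw [hval 1 le_rfl Q hp hb ht] at h3
        exact_mod_cast h3.symm
    · obtain ⟨hp, hb, ht, -, -⟩ := hsup τ hτ Q h1
      have h3 := hval τ hτ Q hp hb ht
      rw [hval 1 le_rfl Q hp hb ht] at h3
      exact_mod_cast h3.symm
  refine ⟨(c 1 le_rfl).embDomain (em 1), hsup 1 le_rfl, fun Q hQ hb ht =>
    hval 1 le_rfl Q hQ hb ht, fun τ hτ => ?_⟩
  rw [← heq τ hτ, Finsupp.sum_embDomain]
  have h1 := tendsto_prime (w := wt2 X τ) (wt2_pos X hw hτ) (hPb.hom τ) (homog2_iff hg τ) hgP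
    (hrk τ hτ)
  have h2 := tendsto_nhds_unique (hc2 τ hτ) h1
  rw [← h2]
  refine Finsupp.sum_congr fun Q _ => ?_
  have h3 : mult (wt2 X τ) ((em τ) Q) = Q.lc := Q.hasRk.mult_eq
  rw [h3]

end Pool.Agent.RCH.Dg2
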