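import Pool.Agent.RCH.DgHil

/-!
# Lengths of localisations
-/

set_option autoImplicit false

open MvPolynomial

namespace Pool.Agent.RCH.Dg

section local_len

variable {L : Type*} [CommRing L]

/-- the exact sequence of multiplication by an element, lengths of quotients -/
lemma length_colon (J : Ideal L) (a : L) :
    Module.length L (L ⧸ J) =
      Module.length L (L ⧸ Submodule.comap (LinearMap.mulLeft L a) J) +
        Module.length L (L ⧸ (J ⊔ Ideal.span {a})) := by
  let f : (L ⧸ Submodule.comap (LinearMap.mulLeft L a) J) →ₗ[L] (L ⧸ J) :=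
    Submodule.mapQ _ _ (LinearMap.mulLeft L a) le_rfl
  have hg : J ≤ Submodule.comap (LinearMap.id : L →ₗ[L] L) (J ⊔ Ideal.span {a}) :=
    fun x hx => Ideal.mem_sup_left hx
  let g : (L ⧸ J) →ₗ[L] (L ⧸ (J ⊔ Ideal.span {a})) := Submodule.mapQ _ _ LinearMap.id hg
  refine Module.length_eq_add_of_exact f g ?_ ?_ ?_
  · rw [← LinearMap.ker_eq_bot, LinearMap.ker_eq_bot']
    intro x hx
    obtain ⟨x, rfl⟩ := Submodule.Quotient.mk_surjective _ x
    rw [Submodule.Quotient.mk_eq_zero]
    have hx1 : (Submodule.Quotient.mk (a * x) : L ⧸ J) = 0 := hx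
    have hx2 : a * x ∈ J := (Submodule.Quotient.mk_eq_zero _).mp hx1
    exact hx2
  · intro y
    obtain ⟨y, rfl⟩ := Submodule.Quotient.mk_surjective _ y
    exact ⟨Submodule.Quotient.mk y, rfl⟩
  · rw [LinearMap.exact_iff]
    ext x
    obtain ⟨x, rfl⟩ := Submodule.Quotient.mk_surjective _ x
    rw [LinearMap.mem_ker, LinearMap.mem_range]
    constructor
    · intro hx
      have hx1 : x ∈ (J ⊔ Ideal.span {a} : Ideal L) := (Submodule.Quotient.mk_eq_zero _).mp hx
      rw [Submodule.mem_sup] at hx1
      obtain ⟨i, hi, b, hb, hib⟩ := hx1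
      rw [Ideal.mem_span_singleton'] at hb
      obtain ⟨c, rfl⟩ := hb
      refine ⟨Submodule.Quotient.mk c, ?_⟩
      change Submodule.Quotient.mk (a * c) = Submodule.Quotient.mk x
      rw [Submodule.Quotient.eq]
      have h1 : a * c - x = -i := by linear_combination hib
      rw [h1]
      exact J.neg_mem hi
    · rintro ⟨y, hy⟩
      obtain ⟨y, rfl⟩ := Submodule.Quotient.mk_surjective _ y
      rw [← hy]
      change Submodule.Quotient.mk (a * y) = 0
      rw [Submodule.Quotient.mk_eq_zero]
      exact Ideal.mem_sup_right (Ideal.mul_mem_right _ _ (Ideal.subset_span rfl))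

end local_len

section len

variable {R : Type} [CommRing R]

/-- the length of the localisation of `R / I` at the prime `Q` -/
noncomputable def len (Q : Ideal R) [Q.IsPrime] (I : Ideal R) : ℕ∞ :=
  Module.length (Localization.AtPrime Q)
    (Localization.AtPrime Q ⧸ I.map (algebraMap R (Localization.AtPrime Q)))

variable (Q : Ideal R) [Q.IsPrime]

/-- lengths are additive -/
theorem len_add (I : Ideal R) (a : R) :
    len Q I = len Q (Submodule.comap (LinearMap.mulLeft R a) I) +
      len Q (I ⊔ Ideal.span {a}) := by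
  have h1 := length_colon (I.map (algebraMap R (Localization.AtPrime Q)))
    (algebraMap R (Localization.AtPrime Q) a)
  have h2 : (I ⊔ Ideal.span {a}).map (algebraMap R (Localization.AtPrime Q)) =
      I.map (algebraMap R (Localization.AtPrime Q)) ⊔
        Ideal.span {algebraMap R (Localization.AtPrime Q) a} := by
    rw [Ideal.map_sup, Ideal.map_span, Set.image_singleton]
  have h3 : Ideal.map (algebraMap R (Localization.AtPrime Q))
      (Submodule.comap (LinearMap.mulLeft R a) I : Ideal R) =
      Submodule.comap (LinearMap.mulLeft (Localization.AtPrime Q)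
        (algebraMap R (Localization.AtPrime Q) a))
          (I.map (algebraMap R (Localization.AtPrime Q))) := by
    ext z
    obtain ⟨x, s, rfl⟩ := IsLocalization.exists_mk'_eq Q.primeCompl z
    rw [IsLocalization.mk'_mem_map_algebraMap_iff, Submodule.mem_comap, LinearMap.mulLeft_apply,
      IsLocalization.mul_mk'_eq_mk'_of_mul, IsLocalization.mk'_mem_map_algebraMap_iff]
    constructor
    · rintro ⟨u, hu, h⟩
      refine ⟨u, hu, ?_⟩
      have h' : a * (u * x) ∈ I := h
      rwa [show u * (a * x) = a * (u * x) by ring]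
    · rintro ⟨u, hu, h⟩
      refine ⟨u, hu, ?_⟩
      show a * (u * x) ∈ I
      rwa [show a * (u * x) = u * (a * x) by ring]
  rw [len, h1, len, len, h3, h2]

/-- the length is zero away from the locus of the ideal -/
theorem len_of_not_le {I : Ideal R} (h : ¬ I ≤ Q) : len Q I = 0 := by
  obtain ⟨x, hx, hxQ⟩ := SetLike.not_le_iff_exists.mp h
  have h1 : I.map (algebraMap R (Localization.AtPrime Q)) = ⊤ := by
    apply Ideal.eq_top_of_isUnit_mem _ (Ideal.mem_map_of_mem _ hx)
    exact IsLocalization.map_units (Localization.AtPrime Q) (⟨x, hxQ⟩ : Q.primeCompl)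
  rw [len, h1]
  exact Module.length_eq_zero

/-- the length of the prime itself -/
theorem len_self : len Q Q = 1 := by
  rw [len, Localization.AtPrime.map_eq_maximalIdeal]
  rw [Module.length_eq_one_iff, isSimpleModule_iff_isCoatom]
  exact (IsLocalRing.maximalIdeal.isMaximal _).out

end len

end Pool.Agent.RCH.Dg
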