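import Pool.Agent.RCH.DgSer
import Pool.Agent.RCH.DgLen

/-!
# The leading coefficient of the Hilbert function as a sum over primes
-/

set_option autoImplicit false

open MvPolynomial Filter Topology

namespace Pool.Agent.RCH.Dg

variable {σ : Type} (w : σ → ℕ)

/-- the homogeneous primes of rank `r` -/
def Prm (r : ℕ) : Type :=
  {Q : Ideal (MvPolynomial σ ℂ) // Q.IsPrime ∧ Hom w Q ∧ ∃ e : ℝ, HasRk w Q r e}

variable {w}

namespace Prm

variable {r : ℕ} (Q : Prm w r)

instance : Q.1.IsPrime := Q.2.1

/-- the leading coefficient -/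
noncomputable def lc : ℝ := Q.2.2.2.choose

lemma hasRk : HasRk w Q.1 r Q.lc := Q.2.2.2.choose_spec

end Prm

open Classical in
/-- (C) the leading coefficient of the Hilbert function of a homogeneous ideal of rank at most `r` -/
theorem leading [Finite σ] (hw : ∀ i, 0 < w i) (r : ℕ) (I : Ideal (MvPolynomial σ ℂ))
    (hI : Hom w I) (hr : ∀ (r' : ℕ) (e : ℝ), HasRk w I r' e → r' ≤ r) :
    ∃ c : Prm w r →₀ ℕ, (∀ Q : Prm w r, len Q.1 I = (c Q : ℕ∞)) ∧
      Tendsto (fun t : ℝ => (1 - t) ^ (r + 1) * PS w I t) (𝓝[<] 1)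
        (𝓝 (c.sum fun Q n => (n : ℝ) * Q.lc)) := by
  induction I using WellFoundedGT.induction with
  | ind I ih =>
  by_cases ht : I = ⊤
  · subst ht
    refine ⟨0, fun Q => ?_, ?_⟩
    · rw [len_of_not_le]
      · rfl
      · intro h
        exact Q.2.1.ne_top (top_le_iff.mp h)
    · simp only [PS_top, mul_zero, Finsupp.sum_zero_index]
      exact tendsto_const_nhds
  obtain ⟨s, e, hs⟩ := exists_hasRk hw hI ht
  by_cases hp : I.IsPrime
  · by_cases hsr : s = r
    · subst hsr
      let Q0 : Prm w s := ⟨I, hp, hI, e, hs⟩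
      refine ⟨Finsupp.single Q0 1, fun Q => ?_, ?_⟩
      · by_cases hQ : Q = Q0
        · subst hQ
          rw [Finsupp.single_eq_same]
          exact len_self I
        · rw [Finsupp.single_eq_of_ne hQ, len_of_not_le]
          · rfl
          · intro h
            have h1 : I ≠ Q.1 := fun h2 => hQ (Subtype.ext h2.symm)
            have h2 := HasRk.lt hw hp (lt_of_le_of_ne h h1) hs Q.hasRk
            omega
      · rw [Finsupp.sum_single_index (by simp)]
        have h1 : Q0.lc = e := (HasRk.unique Q0.hasRk hs).2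
        rw [h1]
        simpa using hs.2
    · have h1 : s < r := lt_of_le_of_ne (hr s e hs) hsr
      refine ⟨0, fun Q => ?_, ?_⟩
      · rw [len_of_not_le]
        · rfl
        · intro h
          have h2 := HasRk.mono hw h hs Q.hasRk
          omega
      · rw [Finsupp.sum_zero_index]
        have h2 : (fun t : ℝ => (1 - t) ^ (r + 1) * PS w I t) =
            fun t : ℝ => (1 - t) ^ (r - s) * ((1 - t) ^ (s + 1) * PS w I t) := by
          funext t
          rw [← mul_assoc, ← pow_add]
          congr 2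
          omega
        rw [h2]
        have h3 : Tendsto (fun t : ℝ => (1 - t) ^ (r - s)) (𝓝[<] 1) (𝓝 0) := by
          have h4 : Tendsto (fun t : ℝ => (1 - t) ^ (r - s)) (𝓝 1) (𝓝 ((1 - 1) ^ (r - s))) := by
            apply Continuous.tendsto
            fun_prop
          rw [sub_self, zero_pow (by omega)] at h4
          exact h4.mono_left nhdsWithin_le_nhds
        have h5 := h3.mul hs.2
        rwa [zero_mul] at h5
  · obtain ⟨a, b, d, d', ha, hb, haI, hbI, hab⟩ := exists_homog_of_not_prime hI hp ht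
    have hJ1 : I < col I a := by
      refine lt_of_le_of_ne (le_col I a) (fun h => hbI ?_)
      rw [h]
      exact hab
    have hJ2 : I < I ⊔ Ideal.span {a} := by
      refine lt_of_le_of_ne le_sup_left (fun h => haI ?_)
      rw [h]
      exact Ideal.mem_sup_right (Ideal.subset_span rfl)
    obtain ⟨c1, h1, t1⟩ := ih _ hJ1 (hom_col hI ha) (fun r' e' h =>
      (HasRk.mono hw hJ1.le hs h).trans (hr s e hs))
    obtain ⟨c2, h2, t2⟩ := ih _ hJ2 (hom_sup hI ha) (fun r' e' h =>
      (HasRk.mono hw hJ2.le hs h).trans (hr s e hs))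
    refine ⟨c1 + c2, fun Q => ?_, ?_⟩
    · rw [len_add Q.1 I a, Finsupp.add_apply, Nat.cast_add, ← h1, ← h2]
      rfl
    · rw [Finsupp.sum_add_index' (by simp) (by intros; push_cast; ring)]
      have h3 : Tendsto (fun t : ℝ => t ^ d) (𝓝[<] 1) (𝓝 1) := by
        have h4 : Tendsto (fun t : ℝ => t ^ d) (𝓝 1) (𝓝 (1 ^ d)) := by
          apply Continuous.tendsto
          fun_prop
        rw [one_pow] at h4
        exact h4.mono_left nhdsWithin_le_nhds
      have h5 := (h3.mul t1).add t2
      rw [one_mul] at h5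
      refine h5.congr' ?_
      have h6 : ∀ᶠ t : ℝ in 𝓝[<] 1, t ∈ Set.Ioo (0 : ℝ) 1 := Ioo_mem_nhdsLT (by norm_num)
      filter_upwards [h6] with t ht
      rw [PS_add hw hI ha ht.1 ht.2]
      ring

end Pool.Agent.RCH.Dg
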