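import Pool.Agent.RCH.DgDim
import Pool.Agent.RCH.DgCyc
import Pool.Agent.RCH.Defs

/-!
# The degree of cycles
-/

set_option autoImplicit false

open MvPolynomial Filter Topology

namespace Pool.Agent.RCH.Dg

variable {ι : Type} (X : WVar ι)

/-- the weights of the coordinates of one point -/
def wt1 (v : Fin 1 × ι) : ℕ := X.wt v.2

lemma weight_mdeg (d : Fin 1 × ι →₀ ℕ) (i : Fin 1) :
    Finsupp.weight (X.mdeg 1) d i = Finsupp.weight (wt1 X) d := by
  rw [Finsupp.weight_apply, Finsupp.weight_apply, Finsupp.sum, Finsupp.sum, Finset.sum_apply]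
  refine Finset.sum_congr rfl fun v _ => ?_
  have h : X.mdeg 1 v i = X.wt v.2 := by
    have hi : i = v.1 := Subsingleton.elim _ _
    subst hi
    rw [WVar.mdeg, Pi.single_eq_same]
  rw [Pi.smul_apply, h]
  rfl

lemma comp_eq (e : Fin 1 → ℕ) (p : Coord ι 1) :
    weightedHomogeneousComponent (X.mdeg 1) e p = weightedHomogeneousComponent (wt1 X) (e 0) p := by
  classical
  ext d
  rw [coeff_weightedHomogeneousComponent, coeff_weightedHomogeneousComponent]
  have h : (Finsupp.weight (X.mdeg 1) d = e) ↔ (Finsupp.weight (wt1 X) d = e 0) := by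
    rw [← weight_mdeg X d 0]
    constructor
    · intro h
      rw [h]
    · intro h
      funext i
      have hi : i = 0 := Subsingleton.elim _ _
      rw [hi, h]
  by_cases h1 : Finsupp.weight (X.mdeg 1) d = e
  · rw [if_pos h1, if_pos (h.mp h1)]
  · rw [if_neg h1, if_neg (fun h2 => h1 (h.mpr h2))]

lemma homog_iff {e : Fin 1 → ℕ} {p : Coord ι 1} :
    IsWeightedHomogeneous (X.mdeg 1) p e → IsWeightedHomogeneous (wt1 X) p (e 0) := by
  intro h d hd
  rw [← weight_mdeg X d 0, h hd]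

variable {X}

lemma hom_pt (Q : Pt X 1) : Hom (wt1 X) Q.I := by
  intro p hp n
  have h := Q.homog p hp (fun _ => n)
  rwa [comp_eq] at h

variable (X)

open Classical in
/-- the degree of the integral subscheme `Q`, if its cone has dimension `r` -/
noncomputable def degPt (r : ℕ) (Q : Pt X 1) : ℝ :=
  if h : ∃ e : ℝ, HasRk (wt1 X) Q.I r e then h.choose else 0

/-- the degree -/
noncomputable def deg (r : ℕ) : Cycles X 1 →+ ℝ :=
  Finsupp.liftAddHom fun Q => (AddMonoidHom.mulRight (degPt X r Q)).comp (Int.castAddHom ℝ)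

lemma deg_apply (r : ℕ) (D : Cycles X 1) :
    deg X r D = ∑ Q ∈ D.support, (D Q : ℝ) * degPt X r Q := by
  rw [deg, Finsupp.liftAddHom_apply, Finsupp.sum]
  rfl

variable {X}

lemma degPt_eq {r : ℕ} {Q : Pt X 1} {e : ℝ} (h : HasRk (wt1 X) Q.I r e) : degPt X r Q = e := by
  have h1 : ∃ e : ℝ, HasRk (wt1 X) Q.I r e := ⟨e, h⟩
  rw [degPt, dif_pos h1]
  exact (HasRk.unique h1.choose_spec h).2

lemma deg_single {r : ℕ} {Q : Pt X 1} (n : ℤ) :
    deg X r (Finsupp.single Q n) = n * degPt X r Q := by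
  rw [deg, Finsupp.liftAddHom_apply_single]
  rfl

lemma exists_of_degPt_ne {r : ℕ} {Q : Pt X 1} (h : degPt X r Q ≠ 0) :
    ∃ e : ℝ, HasRk (wt1 X) Q.I r e := by
  by_contra h1
  rw [degPt, dif_neg h1] at h
  exact h rfl

/-- the homogeneous prime of a point -/
def prm {r : ℕ} {Q : Pt X 1} (h : ∃ e : ℝ, HasRk (wt1 X) Q.I r e) : Prm (wt1 X) r :=
  ⟨Q.I, Q.prime, hom_pt Q, h⟩

lemma degPt_prm {r : ℕ} {Q : Pt X 1} (h : ∃ e : ℝ, HasRk (wt1 X) Q.I r e) :
    degPt X r Q = (prm h).lc := degPt_eq (prm h).hasRk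

variable [Finite ι] (hw : ∀ j, 0 < X.wt j)
include hw

/-- a homogeneous prime of positive rank which contains the ideal of a point is a point -/
lemma exists_pt {r : ℕ} (hr : 1 ≤ r) (P : Pt X 1) (Q : Prm (wt1 X) r) (h : P.I ≤ Q.1) :
    ∃ Q' : Pt X 1, Q'.I = Q.1 := by
  refine ⟨⟨Q.1, Q.2.1, ?_, ?_, fun i f hf => h (P.onX i f hf)⟩, rfl⟩
  · intro p hp e
    rw [comp_eq]
    exact Q.2.2.1 p hp (e 0)
  · intro i
    by_contra hX
    push Not at hX
    have hX' : ∀ v : Fin 1 × ι, (MvPolynomial.X v : Coord ι 1) ∈ Q.1 := by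
      rintro ⟨i', j⟩
      have hi : i' = i := Subsingleton.elim _ _
      rw [hi]
      exact hX j
    have h0 := HasRk.zero_of_X (w := wt1 X) (fun v => hw v.2) Q.2.1.ne_top hX' Q.hasRk
    omega

/-- the limit for `P + (g)` -/
lemma leading_prime {r : ℕ} {P : Pt X 1} {ε : ℝ} (hs : HasRk (wt1 X) P.I (r + 1) ε)
    {g : Coord ι 1} {d : ℕ} (hg : IsWeightedHomogeneous (wt1 X) g d) (hgP : g ∉ P.I) :
    ∃ c : Prm (wt1 X) r →₀ ℕ, (∀ Q : Prm (wt1 X) r, len Q.1 (P.I ⊔ Ideal.span {g}) = (c Q : ℕ∞)) ∧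
      Tendsto (fun t : ℝ => (1 - t) ^ (r + 1) * ((1 - t ^ d) * PS (wt1 X) P.I t)) (𝓝[<] 1)
        (𝓝 (c.sum fun Q n => (n : ℝ) * Q.lc)) := by
  have hP := P.prime
  have hlt : P.I < P.I ⊔ Ideal.span {g} := by
    refine lt_of_le_of_ne le_sup_left (fun h => hgP ?_)
    rw [h]
    exact Ideal.mem_sup_right (Ideal.subset_span rfl)
  obtain ⟨c, h1, h2⟩ := leading (w := wt1 X) (fun v => hw v.2) r (P.I ⊔ Ideal.span {g})
    (hom_sup (hom_pt P) hg) (fun r' e h => by
      have := HasRk.lt (w := wt1 X) (fun v => hw v.2) hP hlt hs h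
      omega)
  refine ⟨c, h1, h2.congr' ?_⟩
  have h6 : ∀ᶠ t : ℝ in 𝓝[<] 1, t ∈ Set.Ioo (0 : ℝ) 1 := Ioo_mem_nhdsLT (by norm_num)
  filter_upwards [h6] with t ht
  rw [PS_prime (w := wt1 X) (fun v => hw v.2) (hom_pt P) hg hgP ht.1 ht.2]

/-- **The degree of a divisor is zero.** -/
theorem deg_div {r : ℕ} (hr : 1 ≤ r) {P : Pt X 1} {g h : Coord ι 1} {e : Fin 1 → ℕ}
    (hg : IsWeightedHomogeneous (X.mdeg 1) g e) (hh : IsWeightedHomogeneous (X.mdeg 1) h e)
    (hgP : g ∉ P.I) (hhP : h ∉ P.I) {c : Cycles X 1} (hdiv : IsDivisor X P g h c) :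
    deg X r c = 0 := by
  classical
  have hP := P.prime
  have hw' : ∀ v : Fin 1 × ι, 0 < wt1 X v := fun v => hw v.2
  obtain ⟨s, ε, hs⟩ := exists_hasRk hw' (hom_pt P) hP.ne_top
  have hc0 : ∀ Q, c Q ≠ 0 → CodimOne P.I Q.I := by
    intro Q hQ
    by_contra h1
    apply hQ
    rw [hdiv Q, if_neg h1]
  rw [deg_apply]
  by_cases hsr : s = r + 1
  · subst hsr
    obtain ⟨cg, hg1, hg2⟩ := leading_prime hw hs (homog_iff X hg) hgP
    obtain ⟨ch, hh1, hh2⟩ := leading_prime hw hs (homog_iff X hh) hhP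
    have heq := tendsto_nhds_unique hg2 hh2
    have hval : ∀ (Q : Pt X 1) (hQ : ∃ e : ℝ, HasRk (wt1 X) Q.I r e), CodimOne P.I Q.I →
        c Q = (cg (prm hQ) : ℤ) - ch (prm hQ) := by
      intro Q hQ hcod
      have hQp := Q.prime
      rw [hdiv Q, if_pos hcod]
      have h1 : ordAt P.I Q.I g = (cg (prm hQ) : ℕ∞) := hg1 (prm hQ)
      have h2 : ordAt P.I Q.I h = (ch (prm hQ) : ℕ∞) := hh1 (prm hQ)
      rw [h1, h2]
      rfl
    have hmem : ∀ (Q : Pt X 1) (hQ : ∃ e : ℝ, HasRk (wt1 X) Q.I r e), c Q ≠ 0 →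
        prm hQ ∈ cg.support ∪ ch.support := by
      intro Q hQ hQ'
      have h1 := hval Q hQ (hc0 Q hQ')
      rw [Finset.mem_union, Finsupp.mem_support_iff, Finsupp.mem_support_iff]
      by_contra h2
      push Not at h2
      rw [h2.1, h2.2] at h1
      exact hQ' h1
    have hterm : ∀ (Q : Pt X 1) (hQ : ∃ e : ℝ, HasRk (wt1 X) Q.I r e), c Q ≠ 0 →
        (c Q : ℝ) * degPt X r Q = ((cg (prm hQ) : ℝ) - ch (prm hQ)) * (prm hQ).lc := by
      intro Q hQ hQ'
      rw [degPt_prm hQ, hval Q hQ (hc0 Q hQ')]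
      push_cast
      rfl
    have hsum : ∑ Q ∈ c.support, (c Q : ℝ) * degPt X r Q =
        ∑ Q ∈ cg.support ∪ ch.support, ((cg Q : ℝ) - ch Q) * Q.lc := by
      have key : ∀ Q : Pt X 1, c Q ≠ 0 → (c Q : ℝ) * degPt X r Q ≠ 0 →
          ∃ e : ℝ, HasRk (wt1 X) Q.I r e := fun Q _ h1 =>
        exists_of_degPt_ne (right_ne_zero_of_mul h1)
      refine Finset.sum_bij_ne_zero
        (fun Q hQ hne => prm (key Q (Finsupp.mem_support_iff.mp hQ) hne)) ?_ ?_ ?_ ?_
      · intro Q hQ hne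
        exact hmem Q _ (Finsupp.mem_support_iff.mp hQ)
      · intro Q hQ hne Q' hQ' hne' heq'
        have h1 : Q.I = Q'.I := congrArg Subtype.val heq'
        cases Q
        cases Q'
        simp only at h1
        subst h1
        rfl
      · intro Q hQ hne
        have hle : P.I ≤ Q.1 := by
          have h1 : (cg Q : ℝ) - ch Q ≠ 0 := left_ne_zero_of_mul hne
          have h2 : cg Q ≠ 0 ∨ ch Q ≠ 0 := by
            by_contra h3
            push Not at h3
            rw [h3.1, h3.2] at h1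
            exact h1 (sub_self _)
          rcases h2 with h2 | h2
          · by_contra h3
            apply h2
            have h4 : len Q.1 (P.I ⊔ Ideal.span {g}) = 0 :=
              len_of_not_le Q.1 (fun h5 => h3 (le_sup_left.trans h5))
            rw [hg1 Q] at h4
            exact_mod_cast h4
          · by_contra h3
            apply h2
            have h4 : len Q.1 (P.I ⊔ Ideal.span {h}) = 0 :=
              len_of_not_le Q.1 (fun h5 => h3 (le_sup_left.trans h5))
            rw [hh1 Q] at h4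
            exact_mod_cast h4
        obtain ⟨Q', hQ'⟩ := exists_pt hw hr P Q hle
        have hrk : ∃ e : ℝ, HasRk (wt1 X) Q'.I r e := by
          rw [hQ']
          exact Q.2.2.2
        have hprm : prm hrk = Q := Subtype.ext hQ'
        have hcod : CodimOne P.I Q'.I := by
          obtain ⟨e', he'⟩ := hrk
          refine ⟨lt_of_le_of_ne (by rw [hQ']; exact hle) ?_, ?_⟩
          · intro h1
            rw [← h1] at he'
            have := (HasRk.unique hs he').1
            omega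
          · intro L hL hPL hLQ
            by_contra hne'
            have := HasRk.lt_lt hw' hP hL (lt_of_le_of_ne hPL (Ne.symm hne')) hLQ hs he'
            omega
        have hv := hval Q' hrk hcod
        rw [hprm] at hv
        have hv' : (c Q' : ℝ) = (cg Q : ℝ) - ch Q := by
          rw [hv]
          push_cast
          rfl
        have hd : degPt X r Q' = Q.lc := by
          rw [degPt_prm hrk, hprm]
        have hne' : (c Q' : ℝ) * degPt X r Q' ≠ 0 := by
          rw [hv', hd]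
          exact hne
        refine ⟨Q', ?_, hne', hprm⟩
        rw [Finsupp.mem_support_iff]
        intro h1
        rw [h1, Int.cast_zero, zero_mul] at hne'
        exact hne' rfl
      · intro Q hQ hne
        exact hterm Q _ (Finsupp.mem_support_iff.mp hQ)
    rw [hsum]
    have h1 : cg.sum (fun Q n => (n : ℝ) * Q.lc) =
        ∑ Q ∈ cg.support ∪ ch.support, (cg Q : ℝ) * Q.lc :=
      Finsupp.sum_of_support_subset _ Finset.subset_union_left _ (by simp)
    have h2 : ch.sum (fun Q n => (n : ℝ) * Q.lc) =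
        ∑ Q ∈ cg.support ∪ ch.support, (ch Q : ℝ) * Q.lc :=
      Finsupp.sum_of_support_subset _ Finset.subset_union_right _ (by simp)
    simp only [sub_mul]
    rw [Finset.sum_sub_distrib, ← h1, ← h2, heq, sub_self]
  · refine Finset.sum_eq_zero fun Q hQ => ?_
    have hQ' := Finsupp.mem_support_iff.mp hQ
    have hcod := hc0 Q hQ'
    by_cases h1 : ∃ e : ℝ, HasRk (wt1 X) Q.I r e
    · obtain ⟨e', he'⟩ := h1
      exact absurd (rk_succ hw' hP Q.prime (hom_pt P) (hom_pt Q) hcod.1 hcod.2 hs he') hsr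
    · rw [degPt, dif_neg h1, mul_zero]

/-- **The degree is zero on cycles rationally equivalent to zero.** -/
theorem deg_ratZero {r : ℕ} (hr : 1 ≤ r) {x : Cycles X 1} (hx : x ∈ RatZero X 1) :
    deg X r x = 0 := by
  have h0 : RatZero X 1 ≤ (deg X r).ker := by
    rw [RatZero, AddSubgroup.closure_le]
    rintro c ⟨P, g, h, e, hg, hh, hgP, hhP, hdiv⟩
    exact deg_div hw hr hg hh hgP hhP hdiv
  exact h0 hx

end Pool.Agent.RCH.Dg
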