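import Pool.Agent.RCH.DgSer

/-!
# Dimensions of the homogeneous parts, and the degree of a curve
-/

set_option autoImplicit false

open MvPolynomial Filter Topology

namespace Pool.Agent.RCH.Dg

/-- the difference of step `K` -/
def Dl (K : ℕ) (f : ℕ → ℤ) : ℕ → ℤ := fun n => f (n + K) - f n

/-- the `r`-th difference of step `K` is eventually zero -/
def Ev (K r : ℕ) (f : ℕ → ℤ) : Prop := ∀ᶠ n in atTop, (Dl K)^[r] f n = 0

lemma iter_add (K r : ℕ) : ∀ f g : ℕ → ℤ, (Dl K)^[r] (fun n => f n + g n) =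
    fun n => (Dl K)^[r] f n + (Dl K)^[r] g n := by
  induction r with
  | zero => exact fun _ _ => rfl
  | succ r ih =>
    intro f g
    rw [Function.iterate_succ_apply, Function.iterate_succ_apply, Function.iterate_succ_apply,
      ← ih]
    congr 1
    funext n
    simp only [Dl]
    ring

lemma iter_shift (K r d : ℕ) : ∀ f : ℕ → ℤ, (Dl K)^[r] (fun n => f (n + d)) =
    fun n => (Dl K)^[r] f (n + d) := by
  induction r with
  | zero => exact fun _ => rfl
  | succ r ih =>
    intro f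
    rw [Function.iterate_succ_apply, Function.iterate_succ_apply, ← ih]
    congr 1
    funext n
    simp only [Dl]
    rw [show n + K + d = n + d + K by omega]

lemma Ev.succ {K r : ℕ} {f : ℕ → ℤ} (h : Ev K r f) : Ev K (r + 1) f := by
  obtain ⟨N, hN⟩ := eventually_atTop.1 h
  refine eventually_atTop.2 ⟨N, fun n hn => ?_⟩
  rw [Function.iterate_succ_apply', Dl, hN n hn, hN (n + K) (by omega), sub_self]

lemma Ev.mono {K r r' : ℕ} {f : ℕ → ℤ} (h : Ev K r f) (hr : r ≤ r') : Ev K r' f := by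
  induction r', hr using Nat.le_induction with
  | base => exact h
  | succ n _ ih => exact ih.succ

lemma Ev.add {K r : ℕ} {f g : ℕ → ℤ} (h : Ev K r f) (h' : Ev K r g) :
    Ev K r (fun n => f n + g n) := by
  filter_upwards [h, h'] with n h1 h2
  rw [iter_add]
  show (Dl K)^[r] f n + (Dl K)^[r] g n = 0
  rw [h1, h2, add_zero]

lemma Ev.shift {K r : ℕ} {f : ℕ → ℤ} (h : Ev K r f) (d : ℕ) : Ev K r (fun n => f (n + d)) := by
  obtain ⟨N, hN⟩ := eventually_atTop.1 h
  refine eventually_atTop.2 ⟨N, fun n hn => ?_⟩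
  rw [iter_shift]
  exact hN _ (by omega)

lemma Ev.of_shift {K r d : ℕ} {f : ℕ → ℤ} (h : Ev K r (fun n => f (n + d))) : Ev K r f := by
  obtain ⟨N, hN⟩ := eventually_atTop.1 h
  refine eventually_atTop.2 ⟨N + d, fun n hn => ?_⟩
  have h1 := hN (n - d) (by omega)
  rw [iter_shift] at h1
  simp only at h1
  rwa [Nat.sub_add_cancel (by omega)] at h1

lemma Ev.zero (K r : ℕ) {f : ℕ → ℤ} (h : ∀ n, f n = 0) : Ev K r f := by
  refine Ev.mono (r := 0) ?_ (Nat.zero_le r)
  exact Eventually.of_forall h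

variable {σ : Type} (w : σ → ℕ)

/-- the dimension of the part of degree `n + 1`, as a difference -/
noncomputable def hd (I : Ideal (MvPolynomial σ ℂ)) (n : ℕ) : ℤ :=
  (H w I (n + 1) : ℤ) - (H w I n : ℤ)

/-- the dimension of the part of degree `n` of the quotient by `I` -/
noncomputable def gdim (I : Ideal (MvPolynomial σ ℂ)) (n : ℕ) : ℕ :=
  Module.finrank ℂ
    ((weightedHomogeneousSubmodule ℂ w n).map (Ideal.Quotient.mkₐ ℂ I).toLinearMap)

variable {w}

section fin

variable [Finite σ] (hw : ∀ i, 0 < w i)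
include hw

lemma hd_add {I : Ideal (MvPolynomial σ ℂ)} (hI : Hom w I) {a : MvPolynomial σ ℂ} {d : ℕ}
    (ha : IsWeightedHomogeneous w a d) (n : ℕ) :
    hd w I (n + d) = hd w (col I a) n + hd w (I ⊔ Ideal.span {a}) (n + d) := by
  have h1 := H_add hw hI ha n
  have h2 := H_add hw hI ha (n + 1)
  rw [show n + 1 + d = n + d + 1 by omega] at h2
  rw [hd, hd, hd, h1, h2]
  push_cast
  ring

lemma hd_nonneg (I : Ideal (MvPolynomial σ ℂ)) (n : ℕ) : 0 ≤ hd w I n := by
  have := H_mono hw I (Nat.le_succ n)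
  rw [hd]
  have h1 : (H w I n : ℤ) ≤ H w I (n + 1) := by exact_mod_cast this
  omega

/-- the difference of the Hilbert function is the dimension of the homogeneous part -/
theorem H_succ {I : Ideal (MvPolynomial σ ℂ)} (hI : Hom w I) (n : ℕ) :
    H w I (n + 1) = H w I n + gdim w I (n + 1) := by
  have := finite_Sle hw n
  have := finite_Sle hw (n + 1)
  have hle : Sle w n ≤ Sle w (n + 1) := fun p hp d hd => (hp d hd).trans (Nat.le_succ n)
  let f : (Sle w n ⧸ Ile w I n) →ₗ[ℂ] (Sle w (n + 1) ⧸ Ile w I (n + 1)) :=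
    Submodule.mapQ _ _ (Submodule.inclusion hle) fun r hr => hr
  have hf : Function.Injective f := by
    rw [← LinearMap.ker_eq_bot, LinearMap.ker_eq_bot']
    intro x hx
    obtain ⟨r, rfl⟩ := Submodule.Quotient.mk_surjective _ x
    have hx' : (Submodule.Quotient.mk (Submodule.inclusion hle r) :
      Sle w (n + 1) ⧸ Ile w I (n + 1)) = 0 := hx
    rw [Submodule.Quotient.mk_eq_zero] at hx' ⊢
    exact hx'
  let g0 : Sle w (n + 1) →ₗ[ℂ] (MvPolynomial σ ℂ ⧸ I) :=
    (Ideal.Quotient.mkₐ ℂ I).toLinearMap ∘ₗ weightedHomogeneousComponent w (n + 1) ∘ₗ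
      (Sle w (n + 1)).subtype
  have hg0 : ∀ p : Sle w (n + 1), g0 p =
      Ideal.Quotient.mk I (weightedHomogeneousComponent w (n + 1) (p : MvPolynomial σ ℂ)) :=
    fun p => rfl
  let g : (Sle w (n + 1) ⧸ Ile w I (n + 1)) →ₗ[ℂ] (MvPolynomial σ ℂ ⧸ I) :=
    Submodule.liftQ _ g0 fun p hp => by
      rw [LinearMap.mem_ker, hg0, Ideal.Quotient.eq_zero_iff_mem]
      exact hI _ hp (n + 1)
  have hrange : LinearMap.range g =
      (weightedHomogeneousSubmodule ℂ w (n + 1)).map (Ideal.Quotient.mkₐ ℂ I).toLinearMap := by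
    ext x
    rw [LinearMap.mem_range, Submodule.mem_map]
    constructor
    · rintro ⟨y, rfl⟩
      obtain ⟨p, rfl⟩ := Submodule.Quotient.mk_surjective _ y
      exact ⟨weightedHomogeneousComponent w (n + 1) (p : MvPolynomial σ ℂ),
        weightedHomogeneousComponent_mem w _ _, rfl⟩
    · rintro ⟨p, hp, rfl⟩
      have hp1 : p ∈ Sle w (n + 1) := fun d hd => (hp hd).le
      refine ⟨Submodule.Quotient.mk ⟨p, hp1⟩, ?_⟩
      show g0 ⟨p, hp1⟩ = _
      rw [hg0]
      show Ideal.Quotient.mk I (weightedHomogeneousComponent w (n + 1) p) = _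
      rw [IsWeightedHomogeneous.weightedHomogeneousComponent_same hp]
      rfl
  have hker : LinearMap.ker g = LinearMap.range f := by
    ext x
    obtain ⟨p, rfl⟩ := Submodule.Quotient.mk_surjective _ x
    rw [LinearMap.mem_ker]
    constructor
    · intro hx
      have hx' : g0 p = 0 := hx
      rw [hg0, Ideal.Quotient.eq_zero_iff_mem] at hx'
      have hq : (p : MvPolynomial σ ℂ) - weightedHomogeneousComponent w (n + 1)
          (p : MvPolynomial σ ℂ) ∈ Sle w n := by
        classical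
        intro d hd
        rw [coeff_sub, coeff_weightedHomogeneousComponent] at hd
        by_cases h1 : Finsupp.weight w d = n + 1
        · rw [if_pos h1, sub_self] at hd
          exact absurd rfl hd
        · rw [if_neg h1, sub_zero] at hd
          have := p.2 d hd
          omega
      refine ⟨Submodule.Quotient.mk ⟨_, hq⟩, ?_⟩
      refine (Submodule.Quotient.eq _).mpr ?_
      have h3 : ((Submodule.inclusion hle ⟨_, hq⟩ - p : Sle w (n + 1)) : MvPolynomial σ ℂ) =
          - weightedHomogeneousComponent w (n + 1) (p : MvPolynomial σ ℂ) := by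
        rw [Submodule.coe_sub, Submodule.coe_inclusion]
        ring
      have h4 := I.neg_mem hx'
      rw [← h3] at h4
      exact h4
    · rintro ⟨y, hy⟩
      obtain ⟨r, rfl⟩ := Submodule.Quotient.mk_surjective _ y
      rw [← hy]
      show g0 (Submodule.inclusion hle r) = 0
      rw [hg0, Submodule.coe_inclusion]
      have h5 : weightedHomogeneousComponent w (n + 1) (r : MvPolynomial σ ℂ) = 0 := by
        classical
        ext d
        rw [coeff_weightedHomogeneousComponent, coeff_zero]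
        by_cases h1 : Finsupp.weight w d = n + 1
        · rw [if_pos h1]
          by_contra h2
          have := r.2 d h2
          omega
        · rw [if_neg h1]
      rw [h5, map_zero]
  have e1 := LinearMap.finrank_range_add_finrank_ker g
  rw [hker, LinearMap.finrank_range_of_inj hf, hrange] at e1
  rw [H, H, gdim, ← e1, add_comm]

lemma hd_eq {I : Ideal (MvPolynomial σ ℂ)} (hI : Hom w I) (n : ℕ) :
    hd w I n = gdim w I (n + 1) := by
  rw [hd, H_succ hw hI n]
  push_cast
  ring

omit [Finite σ] hw in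
lemma gdim_eq_zero {I : Ideal (MvPolynomial σ ℂ)} {n : ℕ}
    (h : ∀ a, IsWeightedHomogeneous w a n → a ∈ I) : gdim w I n = 0 := by
  have h1 : (weightedHomogeneousSubmodule ℂ w n).map (Ideal.Quotient.mkₐ ℂ I).toLinearMap = ⊥ := by
    rw [Submodule.eq_bot_iff]
    rintro x ⟨a, ha, rfl⟩
    exact Ideal.Quotient.eq_zero_iff_mem.2 (h a ha)
  rw [gdim, h1, finrank_bot]

variable {K : ℕ} (hK0 : 0 < K) (hK : ∀ i, w i ∣ K)
include hK0 hK

/-- the iterated differences of the dimensions of the homogeneous parts are eventually zero -/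
theorem ev_hd (I : Ideal (MvPolynomial σ ℂ)) :
    Hom w I → I ≠ ⊤ → Ev K (rk w I) (hd w I) := by
  induction I using IsNoetherian.induction with
  | hgt I ih =>
  intro hI ht
  by_cases hp : Ideal.IsPrime I
  · have := hp
    by_cases hX : ∀ i, X i ∈ I
    · refine Ev.zero _ _ fun n => ?_
      rw [hd, H_irrelevant hw ht hX, H_irrelevant hw ht hX]
      norm_num
    · push Not at hX
      obtain ⟨i, hi⟩ := hX
      obtain ⟨l, hl⟩ := hK i
      set y : MvPolynomial σ ℂ := X i ^ l with hy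
      have hd' : IsWeightedHomogeneous w y K := by
        have h1 := (isWeightedHomogeneous_X ℂ w i).pow l
        rwa [smul_eq_mul, mul_comm, ← hl] at h1
      have hyI : y ∉ I := fun h => hi (hp.mem_of_pow_mem l h)
      have hlt : I < I ⊔ Ideal.span {y} := by
        refine lt_of_le_of_ne le_sup_left fun h => hyI ?_
        rw [h]
        exact Ideal.mem_sup_right (Ideal.mem_span_singleton_self _)
      have hne : I ⊔ Ideal.span {y} ≠ ⊤ := by
        intro h
        have h1 := H_lt hw hI hd' hK0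
        rw [h, H_top] at h1
        have h2 := one_le_H hw ht 0
        omega
      have h1 := ih _ hlt (hom_sup hI hd') hne
      rw [rk_add_one hw hI hK0 hd' hyI hne]
      have h2 : Dl K (hd w I) = fun n => hd w (I ⊔ Ideal.span {y}) (n + K) := by
        funext n
        rw [Dl, hd_add hw hI hd' n, col_prime hyI]
        ring
      have h3 := h1.shift K
      rw [← h2] at h3
      exact h3
  · obtain ⟨a, b, d, -, ha, -, haI, hbI, hab⟩ := exists_homog_of_not_prime hI hp ht
    have hlt1 : I < col I a := by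
      refine lt_of_le_of_ne (le_col I a) fun h => hbI ?_
      rw [h]
      exact hab
    have hne1 : col I a ≠ ⊤ := by
      intro h
      have h1 : (1 : MvPolynomial σ ℂ) ∈ col I a := by
        rw [h]
        exact Submodule.mem_top
      rw [mem_col, mul_one] at h1
      exact haI h1
    have hlt2 : I < I ⊔ Ideal.span {a} := by
      refine lt_of_le_of_ne le_sup_left fun h => haI ?_
      rw [h]
      exact Ideal.mem_sup_right (Ideal.mem_span_singleton_self _)
    have hmono : ∀ J : Ideal (MvPolynomial σ ℂ), I ≤ J → Hom w J → J ≠ ⊤ → rk w J ≤ rk w I :=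
      fun J hJ hJh hJt => HasRk.mono hw hJ (hasRk hw hI ht) (hasRk hw hJh hJt)
    have h1 : Ev K (rk w I) (hd w (col I a)) :=
      (ih _ hlt1 (hom_col hI ha) hne1).mono (hmono _ hlt1.le (hom_col hI ha) hne1)
    have h2 : Ev K (rk w I) (hd w (I ⊔ Ideal.span {a})) := by
      by_cases hne2 : I ⊔ Ideal.span {a} = ⊤
      · rw [hne2]
        refine Ev.zero _ _ fun n => ?_
        rw [hd, H_top, H_top]
        norm_num
      · exact (ih _ hlt2 (hom_sup hI ha) hne2).mono (hmono _ hlt2.le (hom_sup hI ha) hne2)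
    refine Ev.of_shift (d := d) ?_
    have h3 : (fun n => hd w I (n + d)) =
        fun n => hd w (col I a) n + hd w (I ⊔ Ideal.span {a}) (n + d) :=
      funext fun n => hd_add hw hI ha n
    rw [h3]
    exact h1.add (h2.shift d)

end fin

/-- the power series of a sequence with a linear asymptotics -/
lemma lim_linear {f : ℕ → ℕ} {α C : ℝ} (h : ∀ n, |(f n : ℝ) - α * n| ≤ C) : Lim f 2 α := by
  have hC : 0 ≤ C := (abs_nonneg _).trans (h 0)
  have hk : ∀ t : ℝ, 0 < t → t < 1 → |(1 - t) ^ 2 * ser f t - α| ≤ (C + |α|) * (1 - t) := by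
    intro t h0 h1
    have hn := norm_lt_one h0 h1
    have s1 := (hasSum_choose_mul_geometric_of_norm_lt_one 1 hn).mul_left α
    have s0 := (hasSum_choose_mul_geometric_of_norm_lt_one 0 hn).mul_left (C + |α|)
    simp only [Nat.choose_one_right, Nat.choose_zero_right, add_zero, Nat.cast_one, one_mul,
      zero_add, pow_one] at s0 s1
    have hg : ∀ n : ℕ, ‖((f n : ℝ) - α * ((n + 1 : ℕ) : ℝ)) * t ^ n‖ ≤ (C + |α|) * t ^ n := by
      intro n
      rw [norm_mul, Real.norm_eq_abs, Real.norm_eq_abs, abs_of_nonneg (pow_nonneg h0.le n)]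
      refine mul_le_mul_of_nonneg_right ?_ (pow_nonneg h0.le n)
      have e1 : (f n : ℝ) - α * ((n + 1 : ℕ) : ℝ) = ((f n : ℝ) - α * n) - α := by
        push_cast
        ring
      rw [e1]
      exact (abs_sub _ _).trans (add_le_add (h n) le_rfl)
    have hsg : Summable fun n : ℕ => ((f n : ℝ) - α * ((n + 1 : ℕ) : ℝ)) * t ^ n :=
      Summable.of_norm_bounded s0.summable hg
    have hG := tsum_of_norm_bounded s0 hg
    have hf : ser f t = ∑' n : ℕ, ((f n : ℝ) - α * ((n + 1 : ℕ) : ℝ)) * t ^ n +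
        α * (1 / (1 - t) ^ (1 + 1)) := by
      rw [← (hsg.hasSum.add s1).tsum_eq, ser]
      refine tsum_congr fun n => ?_
      ring
    set G := ∑' n : ℕ, ((f n : ℝ) - α * ((n + 1 : ℕ) : ℝ)) * t ^ n with hGdef
    have ht : 0 < 1 - t := by linarith
    have e2 : (1 - t) ^ 2 * ser f t - α = (1 - t) ^ 2 * G := by
      rw [hf]
      field_simp
      ring
    rw [e2, abs_mul, abs_of_pos (pow_pos ht 2)]
    rw [Real.norm_eq_abs] at hG
    calc (1 - t) ^ 2 * |G| ≤ (1 - t) ^ 2 * ((C + |α|) * (1 / (1 - t))) :=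
          mul_le_mul_of_nonneg_left hG (pow_pos ht 2).le
      _ = (C + |α|) * (1 - t) := by
          field_simp
  rw [Lim, tendsto_iff_norm_sub_tendsto_zero]
  have h3 : Tendsto (fun t : ℝ => (C + |α|) * (1 - t) ^ 1) (𝓝[<] 1) (𝓝 ((C + |α|) * 0)) :=
    tendsto_const_nhds.mul (tendsto_one_sub_pow one_ne_zero)
  rw [mul_zero] at h3
  refine tendsto_of_tendsto_of_tendsto_of_le_of_le' tendsto_const_nhds h3
    (Eventually.of_forall fun t => norm_nonneg _) ?_
  filter_upwards [ev] with t ht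
  rw [pow_one]
  exact hk t ht.1 ht.2

section fin

variable [Finite σ] (hw : ∀ i, 0 < w i) {K : ℕ} (hK0 : 0 < K) (hK : ∀ i, w i ∣ K)
include hw hK0 hK

/-- the dimensions of the parts of degree `K n` of the homogeneous coordinate ring of a curve -/
theorem tendsto_gdim {Q : Ideal (MvPolynomial σ ℂ)} [Q.IsPrime] (hQ : Hom w Q) {e : ℝ}
    (h : HasRk w Q 2 e) {δ γ : ℕ} (hδ : 0 < δ)
    (hdiv : ∀ (m : ℕ) (a : MvPolynomial σ ℂ), IsWeightedHomogeneous w a m → a ∉ Q → δ ∣ m)
    {t₁ t₂ : MvPolynomial σ ℂ} (ht₁ : IsWeightedHomogeneous w t₁ (γ + δ))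
    (ht₂ : IsWeightedHomogeneous w t₂ γ) (h₁ : t₁ ∉ Q) (h₂ : t₂ ∉ Q) :
    Tendsto (fun n : ℕ => (gdim w Q (K * n) : ℝ) / n) atTop (𝓝 (K * δ * e)) := by
  have hQp : Q.IsPrime := ‹_›
  have hQt : Q ≠ ⊤ := hQp.ne_top
  have hi : ∃ i, X i ∉ Q := by
    by_contra hX
    push Not at hX
    have := HasRk.zero_of_X hw hQt hX h
    omega
  obtain ⟨i, hi⟩ := hi
  obtain ⟨l, hl⟩ := hK i
  set y : MvPolynomial σ ℂ := X i ^ l with hy
  have hyd : IsWeightedHomogeneous w y K := by
    have h1 := (isWeightedHomogeneous_X ℂ w i).pow l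
    rwa [smul_eq_mul, mul_comm, ← hl] at h1
  have hyQ : y ∉ Q := fun h => hi (hQp.mem_of_pow_mem l h)
  have hδK : δ ∣ K := hdiv K y hyd hyQ
  set J := Q ⊔ Ideal.span {y} with hJ
  have hlim : Lim (H w J) 2 (K * e) := tendsto_prime hw hQ hyd hyQ h
  set v : ℕ → ℤ := hd w Q with hv
  set p : ℕ → ℤ := Dl K v with hp
  have hpJ : ∀ n, p n = hd w J (n + K) := by
    intro n
    rw [hp, Dl, hv, hd_add hw hQ hyd n, col_prime hyQ]
    ring
  have hrk : rk w Q = 2 := h.rk_eq
  have hev := ev_hd hw hK0 hK Q hQ hQt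
  rw [hrk] at hev
  obtain ⟨N, hN⟩ := eventually_atTop.1 hev
  have hper : ∀ n, N ≤ n → p (n + K) = p n := by
    intro n hn
    have h1 := hN n hn
    have h2 : Dl K (Dl K v) n = 0 := h1
    rw [Dl] at h2
    rw [hp]
    omega
  -- the values on an arithmetic progression
  have harith : ∀ m, N ≤ m → ∀ j : ℕ, p (m + j * K) = p m ∧ v (m + j * K) = v m + j * p m := by
    intro m hm j
    induction j with
    | zero => simp
    | succ j ih =>
      obtain ⟨ih1, ih2⟩ := ih
      have e1 : m + (j + 1) * K = m + j * K + K := by ring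
      have e2 : p (m + j * K) = v (m + j * K + K) - v (m + j * K) := rfl
      refine ⟨?_, ?_⟩
      · rw [e1, hper _ (by have := Nat.zero_le (j * K); omega), ih1]
      · rw [e1]
        push_cast
        linear_combination ih2 - e2 + ih1
  have hmono : ∀ (a : MvPolynomial σ ℂ) (D : ℕ), IsWeightedHomogeneous w a D → a ∉ Q → ∀ n,
      v n ≤ v (n + D) := by
    intro a D ha haQ n
    have h1 := hd_add hw hQ ha n
    rw [col_prime haQ] at h1
    have h2 := hd_nonneg hw (Q ⊔ Ideal.span {a}) (n + D)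
    rw [hv]
    omega
  have hnotpow : ∀ (a : MvPolynomial σ ℂ) (k : ℕ), a ∉ Q → a ^ k ∉ Q :=
    fun a k ha h => ha (hQp.mem_of_pow_mem k h)
  have hle : ∀ m m', N ≤ m → N ≤ m' → δ ∣ m + 1 → δ ∣ m' + 1 → p m ≤ p m' := by
    intro m m' hm hm' hdm hdm'
    obtain ⟨k, hk⟩ : δ ∣ (m' + 1) + (K - 1) * (m + 1) := Dvd.dvd.add hdm' (hdm.mul_left _)
    set a : MvPolynomial σ ℂ := t₁ ^ k * t₂ ^ ((K - 1) * k) with ha
    have haQ : a ∉ Q := fun h =>
      (hQp.mem_or_mem h).elim (hnotpow _ _ h₁) (hnotpow _ _ h₂)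
    have had : IsWeightedHomogeneous w a (m' + (m + 1 + k * γ) * K - m) := by
      have h3 := (ht₁.pow k).mul (ht₂.pow ((K - 1) * k))
      have h4 : k • (γ + δ) + ((K - 1) * k) • γ = m' + (m + 1 + k * γ) * K - m := by
        obtain ⟨K', rfl⟩ : ∃ K', K = K' + 1 := ⟨K - 1, by omega⟩
        rw [Nat.add_sub_cancel] at hk ⊢
        rw [smul_eq_mul, smul_eq_mul]
        have h5 : k * (γ + δ) + K' * k * γ + m = m' + (m + 1 + k * γ) * (K' + 1) := by
          nlinarith [hk]
        omega
      rw [h4] at h3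
      exact h3
    by_contra hlt
    push Not at hlt
    have key : ∀ j : ℕ, v m + j * p m ≤ v m' + (j + (m + 1 + k * γ)) * p m' := by
      intro j
      have h3 := hmono a _ had haQ (m + j * K)
      have h4 : m + j * K + (m' + (m + 1 + k * γ) * K - m) = m' + (j + (m + 1 + k * γ)) * K := by
        have : m ≤ m' + (m + 1 + k * γ) * K := by nlinarith [Nat.zero_le (k * γ), Nat.zero_le m']
        have h5 : (j + (m + 1 + k * γ)) * K = j * K + (m + 1 + k * γ) * K := by ring
        rw [h5]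
        omega
      rw [h4, (harith m hm j).2, (harith m' hm' _).2] at h3
      push_cast at h3
      exact h3
    have h5 := key ((v m' - v m + (m + 1 + k * γ) * p m').toNat + 1)
    have h6 := Int.self_le_toNat (v m' - v m + (m + 1 + k * γ) * p m')
    push_cast at h5
    nlinarith [Int.toNat_of_nonneg (Int.natCast_nonneg
      ((v m' - v m + (m + 1 + k * γ) * p m').toNat))]
  -- the stable value
  set m₀ : ℕ := δ * (N + 1) - 1 with hm₀
  have hm₀' : m₀ + 1 = δ * (N + 1) := by
    have : 0 < δ * (N + 1) := by positivity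
    omega
  have hm₀N : N ≤ m₀ := by
    have : N + 1 ≤ δ * (N + 1) := Nat.le_mul_of_pos_left _ hδ
    omega
  set A : ℤ := p m₀ with hA
  have hpA : ∀ m, N ≤ m → δ ∣ m + 1 → p m = A := fun m hm hd =>
    le_antisymm (hle m m₀ hm hm₀N hd ⟨N + 1, hm₀'⟩) (hle m₀ m hm₀N hm ⟨N + 1, hm₀'⟩ hd)
  have hv0 : ∀ m, ¬ δ ∣ m + 1 → v m = 0 := by
    intro m hm
    rw [hv, hd_eq hw hQ, gdim_eq_zero, Nat.cast_zero]
    intro a ha
    by_contra haQ
    exact hm (hdiv _ a ha haQ)
  have hp0 : ∀ m, ¬ δ ∣ m + 1 → p m = 0 := by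
    intro m hm
    have h1 : ¬ δ ∣ m + K + 1 := by
      rw [show m + K + 1 = (m + 1) + K by omega, ← Nat.dvd_add_iff_left hδK]
      exact hm
    rw [hp, Dl, hv0 _ hm, hv0 _ h1, sub_self]
  -- the quotient by `y`
  have hJs : ∀ n, N + K ≤ n → (H w J (n + 1) : ℤ) = H w J n + if δ ∣ n + 1 then A else 0 := by
    intro n hn
    obtain ⟨m, rfl⟩ : ∃ m, n = m + K := ⟨n - K, by omega⟩
    have h1 := hpJ m
    rw [hd] at h1
    have h2 : (δ ∣ m + K + 1) ↔ δ ∣ m + 1 := by
      rw [show m + K + 1 = (m + 1) + K by omega, ← Nat.dvd_add_iff_left hδK]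
    by_cases h3 : δ ∣ m + 1
    · rw [if_pos (h2.2 h3)]
      rw [hpA m (by omega) h3] at h1
      omega
    · rw [if_neg (fun h4 => h3 (h2.1 h4))]
      rw [hp0 m h3] at h1
      omega
  have hJf : ∃ C : ℤ, ∀ n, N + K ≤ n → (H w J n : ℤ) = A * (n / δ : ℕ) + C := by
    refine ⟨(H w J (N + K) : ℤ) - A * ((N + K) / δ : ℕ), fun n hn => ?_⟩
    induction n, hn using Nat.le_induction with
    | base => ring
    | succ n hn ih =>
      rw [hJs n hn, ih, Nat.succ_div]
      by_cases h3 : δ ∣ n + 1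
      · rw [if_pos h3, if_pos h3]
        push_cast
        ring
      · rw [if_neg h3, if_neg h3]
        push_cast
        ring
  obtain ⟨C, hC⟩ := hJf
  have hδ' : (0 : ℝ) < δ := by exact_mod_cast hδ
  have hlim' : Lim (H w J) 2 ((A : ℝ) / δ) := by
    refine lim_linear (C := |(A : ℝ)| + |(C : ℝ)| + (H w J (N + K) : ℝ) + |(A : ℝ)| * (N + K)) ?_
    intro n
    have hdivn : |((n / δ : ℕ) : ℝ) - (n : ℝ) / δ| ≤ 1 := by
      have h3 : ((n / δ : ℕ) : ℝ) ≤ (n : ℝ) / δ := Nat.cast_div_le
      have h4 : (n : ℝ) / δ < ((n / δ : ℕ) : ℝ) + 1 := by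
        rw [div_lt_iff₀ hδ']
        have h5 : n < (n / δ + 1) * δ := by
          have := Nat.lt_mul_div_succ n hδ
          rwa [mul_comm] at this
        exact_mod_cast h5
      rw [abs_le]
      constructor <;> linarith
    by_cases hn : N + K ≤ n
    · have h3 : (H w J n : ℝ) = A * ((n / δ : ℕ) : ℝ) + C := by
        have := congrArg (Int.cast : ℤ → ℝ) (hC n hn)
        push_cast at this
        exact this
      have h4 : (H w J n : ℝ) - (A : ℝ) / δ * n =
          A * (((n / δ : ℕ) : ℝ) - (n : ℝ) / δ) + C := by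
        rw [h3]
        ring
      rw [h4]
      refine (abs_add_le _ _).trans ?_
      rw [abs_mul]
      have h5 := mul_le_mul_of_nonneg_left hdivn (abs_nonneg (A : ℝ))
      have h6 : (0 : ℝ) ≤ |(A : ℝ)| * (N + K) := by positivity
      have h7 : (0 : ℝ) ≤ (H w J (N + K) : ℝ) := by positivity
      linarith
    · push Not at hn
      have h3 : (H w J n : ℝ) ≤ H w J (N + K) := by exact_mod_cast H_mono hw J hn.le
      have h4 : |(A : ℝ) / δ * n| ≤ |(A : ℝ)| * (N + K) := by
        rw [abs_mul, abs_div, abs_of_pos hδ', Nat.abs_cast]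
        have h5 : |(A : ℝ)| / δ ≤ |(A : ℝ)| :=
          div_le_self (abs_nonneg _) (by exact_mod_cast hδ)
        have h6 : (n : ℝ) ≤ N + K := by exact_mod_cast hn.le
        exact mul_le_mul h5 h6 (by positivity) (abs_nonneg _)
      refine (abs_sub _ _).trans ?_
      rw [Nat.abs_cast]
      have h7 := abs_nonneg (A : ℝ)
      have h8 := abs_nonneg (C : ℝ)
      linarith
  have hAe : (A : ℝ) = K * δ * e := by
    have h3 := hlim'.unique hlim
    rw [div_eq_iff hδ'.ne'] at h3
    rw [h3]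
    ring
  -- the conclusion
  have hu : ∀ n, N + 1 ≤ n → (gdim w Q (K * (n + 1)) : ℤ) = gdim w Q (K * n) + A := by
    intro n hn
    have h3 : N + 1 ≤ K * n := hn.trans (Nat.le_mul_of_pos_left _ hK0)
    obtain ⟨m, hm⟩ : ∃ m, K * n = m + 1 := ⟨K * n - 1, by omega⟩
    have h4 : K * (n + 1) = m + K + 1 := by rw [Nat.mul_succ, hm]; ring
    have h5 : p m = A := hpA m (by omega) (by rw [← hm]; exact hδK.mul_right n)
    rw [h4, hm, ← hd_eq hw hQ, ← hd_eq hw hQ]
    have h6 : hd w Q (m + K) - hd w Q m = A := h5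
    linarith
  have hu' : ∀ n, N + 1 ≤ n → (gdim w Q (K * n) : ℤ) =
      A * n + ((gdim w Q (K * (N + 1)) : ℤ) - A * (N + 1)) := by
    intro n hn
    induction n, hn using Nat.le_induction with
    | base => push_cast; ring
    | succ n hn ih =>
      rw [hu n hn, ih]
      push_cast
      ring
  set B : ℤ := (gdim w Q (K * (N + 1)) : ℤ) - A * (N + 1) with hB
  rw [← hAe]
  have h6 : Tendsto (fun n : ℕ => (A : ℝ) + (B : ℝ) / n) atTop (𝓝 ((A : ℝ) + 0)) :=
    tendsto_const_nhds.add (tendsto_const_div_atTop_nhds_zero_nat _)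
  rw [add_zero] at h6
  refine h6.congr' ?_
  filter_upwards [eventually_ge_atTop (N + 1)] with n hn
  have h7 : (gdim w Q (K * n) : ℝ) = A * n + B := by exact_mod_cast hu' n hn
  have h8 : (n : ℝ) ≠ 0 := by
    have : 0 < n := by omega
    positivity
  rw [h7]
  field_simp

end fin

end Pool.Agent.RCH.Dg
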