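import Pool.Agent.RCH.StarRat
import Pool.Agent.RCH.AutBox

/-!
# The smash-nilpotent cycles form a group

The set of smash-nilpotent cycles is a subgroup, contains the cycles rationally equivalent to zero
and is stable under the symmetries of `X`.
-/

set_option autoImplicit false

open MvPolynomial

namespace Pool.Agent.RCH

variable {ι : Type} (X : WVar ι) {N : ℕ}

/-- the cycles with a nonzero multiple rationally equivalent to zero -/
def torZero (N : ℕ) : AddSubgroup (Cycles X N) where
  carrier := {z | ∃ k : ℕ, 1 ≤ k ∧ k • z ∈ RatZero X N}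
  zero_mem' := ⟨1, le_rfl, by rw [smul_zero]; exact zero_mem _⟩
  add_mem' := by
    rintro x y ⟨k, hk, hx⟩ ⟨l, hl, hy⟩
    refine ⟨k * l, Nat.one_le_iff_ne_zero.2 (by positivity), ?_⟩
    rw [smul_add]
    refine add_mem ?_ ?_
    · rw [mul_comm, mul_smul]
      exact AddSubgroup.nsmul_mem _ hx l
    · rw [mul_smul]
      exact AddSubgroup.nsmul_mem _ hy k
  neg_mem' := by
    rintro x ⟨k, hk, hx⟩
    exact ⟨k, hk, by rw [smul_neg]; exact neg_mem hx⟩

variable {X}

lemma mem_torZero {z : Cycles X N} : z ∈ torZero X N ↔ ∃ k : ℕ, 1 ≤ k ∧ k • z ∈ RatZero X N :=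
  Iff.rfl

lemma torZero_of_ratZero {z : Cycles X N} (hz : z ∈ RatZero X N) : z ∈ torZero X N :=
  ⟨1, le_rfl, by rwa [one_smul]⟩

/-- cycles of which a multiple is torsion -/
lemma torZero_of_smul {z : Cycles X N} {k : ℕ} (hk : 1 ≤ k) (hz : k • z ∈ torZero X N) :
    z ∈ torZero X N := by
  obtain ⟨l, hl, h⟩ := hz
  refine ⟨l * k, Nat.one_le_iff_ne_zero.2 (by positivity), ?_⟩
  rwa [mul_smul]

lemma smashNilpotent_iff {a : Cycles X 1} :
    SmashNilpotent X a ↔ ∃ N : ℕ, 1 ≤ N ∧ extPow X a N ∈ torZero X N := Iff.rfl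

section finite

variable [Finite ι]

lemma prod_torZero (Z : Pt X 1) {c : Cycles X N} (hc : c ∈ torZero X N) :
    Finsupp.mapDomain (fun P => prodPt X P Z) c ∈ torZero X (N + 1) := by
  obtain ⟨k, hk, h⟩ := hc
  refine ⟨k, hk, ?_⟩
  have h1 := prod_ratZero X Z h
  have h2 : Finsupp.mapDomain (fun P => prodPt X P Z) (k • c) =
      k • Finsupp.mapDomain (fun P => prodPt X P Z) c :=
    map_nsmul (Finsupp.mapDomain.addMonoidHom (M := ℤ) (fun P : Pt X N => prodPt X P Z)) k c
  rwa [h2] at h1

omit [Finite ι] in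
lemma trN_torZero (τ : Equiv.Perm (Fin N)) (g : Fin N → MSym X) (z : Cycles X N) :
    Finsupp.mapDomain (trN τ g) z ∈ torZero X N ↔ z ∈ torZero X N := by
  have h2 : ∀ k : ℕ, Finsupp.mapDomain (trN τ g) (k • z) = k • Finsupp.mapDomain (trN τ g) z :=
    fun k => map_nsmul (Finsupp.mapDomain.addMonoidHom (M := ℤ) (trN τ g)) k z
  constructor
  · rintro ⟨k, hk, h⟩
    refine ⟨k, hk, ?_⟩
    rwa [← h2, ratZero_trN] at h
  · rintro ⟨k, hk, h⟩
    refine ⟨k, hk, ?_⟩
    rwa [← h2, ratZero_trN]

/-- the product with a multiple of a point in the last place -/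
lemma boxC_snoc_single (a : Fin N → Cycles X 1) (Z : Pt X 1) (n : ℤ) :
    boxC X (Fin.snoc (α := fun _ => Cycles X 1) a (Finsupp.single Z n)) =
      n • Finsupp.mapDomain (fun P => prodPt X P Z) (boxC X a) := by
  classical
  rw [boxC_eq_sum X _ (Fin.snoc (α := fun _ => Finset (Pt X 1)) (fun i => (a i).support) {Z})
    (by
      intro i
      refine Fin.lastCases ?_ (fun i => ?_) i
      · rw [Fin.snoc_last, Fin.snoc_last]
        exact Finsupp.support_single_subset
      · rw [Fin.snoc_castSucc, Fin.snoc_castSucc])]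
  have hinj : Function.Injective (fun Q : Fin N → Pt X 1 =>
      Fin.snoc (α := fun _ => Pt X 1) Q Z) := by
    intro Q Q' h
    funext i
    have := congrFun h i.castSucc
    simpa using this
  have himg : Fintype.piFinset (Fin.snoc (α := fun _ => Finset (Pt X 1))
      (fun i => (a i).support) {Z}) =
      (Fintype.piFinset (fun i => (a i).support)).image
        (fun Q : Fin N → Pt X 1 => Fin.snoc (α := fun _ => Pt X 1) Q Z) := by
    ext Q
    rw [Finset.mem_image, Fintype.mem_piFinset]
    constructor
    · intro h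
      refine ⟨fun i => Q i.castSucc, ?_, ?_⟩
      · rw [Fintype.mem_piFinset]
        intro i
        have := h i.castSucc
        rwa [Fin.snoc_castSucc] at this
      · have hl := h (Fin.last N)
        rw [Fin.snoc_last, Finset.mem_singleton] at hl
        funext i
        refine Fin.lastCases ?_ (fun i => ?_) i
        · rw [Fin.snoc_last, hl]
        · rw [Fin.snoc_castSucc]
    · rintro ⟨Q', hQ', rfl⟩ i
      rw [Fintype.mem_piFinset] at hQ'
      refine Fin.lastCases ?_ (fun i => ?_) i
      · rw [Fin.snoc_last, Fin.snoc_last]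
        exact Finset.mem_singleton_self _
      · rw [Fin.snoc_castSucc, Fin.snoc_castSucc]
        exact hQ' i
  rw [himg, Finset.sum_image (fun x _ y _ h => hinj h), boxC, Finsupp.mapDomain_finsetSum,
    Finset.smul_sum]
  refine Finset.sum_congr rfl fun Q _ => ?_
  rw [Fin.prod_univ_castSucc, box_snoc]
  simp only [Fin.snoc_castSucc, Fin.snoc_last, Finsupp.single_eq_same]
  have h3 : Finsupp.mapDomain (fun P => prodPt X P Z) ((∏ i, a i (Q i)) • box X Q) =
      (∏ i, a i (Q i)) • Finsupp.mapDomain (fun P => prodPt X P Z) (box X Q) :=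
    map_zsmul (Finsupp.mapDomain.addMonoidHom (M := ℤ) (fun P : Pt X N => prodPt X P Z)) _ _
  rw [h3, smul_smul, mul_comm]

/-- the product of a torsion product with any cycle is torsion -/
lemma boxC_snoc_mem {a : Fin N → Cycles X 1} (ha : boxC X a ∈ torZero X N) (b : Cycles X 1) :
    boxC X (Fin.snoc (α := fun _ => Cycles X 1) a b) ∈ torZero X (N + 1) := by
  classical
  have hup : ∀ x y : Cycles X 1, (Fin.snoc (α := fun _ => Cycles X 1) a x) =
      Function.update (Fin.snoc (α := fun _ => Cycles X 1) a y) (Fin.last N) x := by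
    intro x y
    funext i
    refine Fin.lastCases ?_ (fun i => ?_) i
    · rw [Fin.snoc_last, Function.update_self]
    · rw [Fin.snoc_castSucc, Function.update_of_ne (Fin.castSucc_lt_last i).ne,
        Fin.snoc_castSucc]
  induction b using Finsupp.induction_linear with
  | zero =>
    have h : boxC X (Fin.snoc (α := fun _ => Cycles X 1) a 0) = 0 := by
      have := (boxM X (N + 1)).map_coord_zero (m := Fin.snoc (α := fun _ => Cycles X 1) a 0)
        (Fin.last N) (Fin.snoc_last _ _)
      exact this
    rw [h]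
    exact zero_mem _
  | add x y hx hy =>
    have h : boxC X (Fin.snoc (α := fun _ => Cycles X 1) a (x + y)) =
        boxC X (Fin.snoc (α := fun _ => Cycles X 1) a x) +
        boxC X (Fin.snoc (α := fun _ => Cycles X 1) a y) := by
      have := (boxM X (N + 1)).map_update_add (Fin.snoc (α := fun _ => Cycles X 1) a 0)
        (Fin.last N) x y
      rw [← hup, ← hup, ← hup] at this
      exact this
    rw [h]
    exact add_mem hx hy
  | single Z n =>
    rw [boxC_snoc_single]
    exact AddSubgroup.zsmul_mem _ (prod_torZero Z ha) n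

/-- a product whose first `n` factors have a torsion product is torsion -/
lemma boxC_prefix {n : ℕ} (a : Cycles X 1) (ha : extPow X a n ∈ torZero X n) :
    ∀ (k : ℕ) (x : Fin (n + k) → Cycles X 1), (∀ i : Fin n, x (Fin.castAdd k i) = a) →
      boxC X x ∈ torZero X (n + k) := by
  intro k
  induction k with
  | zero =>
    intro x hx
    have : x = fun _ => a := by
      funext i
      exact hx i
    rw [this]
    exact ha
  | succ k ih =>
    intro x hx
    have h : x = Fin.snoc (α := fun _ => Cycles X 1) (fun i : Fin (n + k) => x i.castSucc)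
        (x (Fin.last (n + k))) :=
      (Fin.snoc_init_self (n := n + k) (α := fun _ => Cycles X 1) x).symm
    rw [h]
    exact boxC_snoc_mem (ih _ (fun i => hx i)) _

/-- a product containing at least `n` times the factor `a` is torsion -/
lemma boxC_count {n : ℕ} (a : Cycles X 1) (ha : extPow X a n ∈ torZero X n) {M : ℕ}
    (x : Fin M → Cycles X 1) (S : Finset (Fin M)) (hS : n ≤ S.card) (hx : ∀ i ∈ S, x i = a) :
    boxC X x ∈ torZero X M := by
  classical
  have hnM : n ≤ M := hS.trans (by simpa using S.card_le_univ)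
  obtain ⟨k, rfl⟩ := Nat.exists_eq_add_of_le hnM
  obtain ⟨S', hS', hcard⟩ := Finset.exists_subset_card_eq hS
  have hc : Fintype.card {i : Fin (n + k) // (i : ℕ) < n} = Fintype.card {i // i ∈ S'} := by
    rw [Fintype.card_coe, hcard]
    have e : Fin n ≃ {i : Fin (n + k) // (i : ℕ) < n} :=
      { toFun := fun i => ⟨Fin.castAdd k i, i.2⟩
        invFun := fun i => ⟨i.1, i.2⟩
        left_inv := fun i => rfl
        right_inv := fun i => rfl }
    rw [← Fintype.card_congr e, Fintype.card_fin]
  let e : {i : Fin (n + k) // (i : ℕ) < n} ≃ {i // i ∈ S'} := Fintype.equivOfCardEq hc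
  let τ : Equiv.Perm (Fin (n + k)) := e.extendSubtype
  have hτ : ∀ i : Fin n, τ (Fin.castAdd k i) ∈ S' := by
    intro i
    have h1 : ((Fin.castAdd k i : Fin (n + k)) : ℕ) < n := i.2
    have h2 := e.extendSubtype_apply_of_mem (Fin.castAdd k i) h1
    rw [h2]
    exact (e ⟨Fin.castAdd k i, h1⟩).2
  have h3 : boxC X (fun i => x (τ i)) ∈ torZero X (n + k) :=
    boxC_prefix a ha k _ fun i => hx _ (hS' (hτ i))
  rwa [← boxC_perm, trN_torZero] at h3

/-- The sum of two smash-nilpotent cycles is smash-nilpotent. -/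
theorem smashNilpotent_add {a b : Cycles X 1} (ha : SmashNilpotent X a)
    (hb : SmashNilpotent X b) : SmashNilpotent X (a + b) := by
  classical
  obtain ⟨n, hn, ha⟩ := ha
  obtain ⟨m, hm, hb⟩ := hb
  refine ⟨n + m, by omega, ?_⟩
  have ha' : extPow X a n ∈ torZero X n := ha
  have hb' : extPow X b m ∈ torZero X m := hb
  show extPow X (a + b) (n + m) ∈ torZero X (n + m)
  have h1 : a + b = ∑ k : Fin 2, (![a, b] : Fin 2 → Cycles X 1) k := by
    rw [Fin.sum_univ_two]
    rfl
  rw [extPow_eq_boxC, h1, boxC_sum X (fun _ k => (![a, b] : Fin 2 → Cycles X 1) k)]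
  refine sum_mem fun f _ => ?_
  by_cases hcard : n ≤ (Finset.univ.filter fun i : Fin (n + m) => f i = 0).card
  · refine boxC_count a ha' _ _ hcard fun i hi => ?_
    rw [(Finset.mem_filter.1 hi).2]
    rfl
  · refine boxC_count b hb' _ (Finset.univ.filter fun i : Fin (n + m) => f i = 1) ?_ fun i hi => ?_
    · have h2 := Finset.card_filter_add_card_filter_not (s := (Finset.univ : Finset (Fin (n + m))))
        (fun i => f i = 0)
      have h3 : (Finset.univ.filter fun i : Fin (n + m) => ¬ f i = 0) =
          (Finset.univ.filter fun i : Fin (n + m) => f i = 1) := by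
        refine Finset.filter_congr fun i _ => ?_
        generalize f i = y
        fin_cases y <;> simp
      rw [h3, Finset.card_univ, Fintype.card_fin] at h2
      omega
    · rw [(Finset.mem_filter.1 hi).2]
      rfl

omit [Finite ι] in
lemma extPow_zero_cycle {n : ℕ} (hn : 1 ≤ n) : extPow X (0 : Cycles X 1) n = 0 := by
  rw [extPow_eq_boxC]
  exact (boxM X n).map_coord_zero (m := fun _ => (0 : Cycles X 1)) ⟨0, hn⟩ rfl

omit [Finite ι] in
lemma extPow_smul (n : ℕ) (r : ℤ) (a : Cycles X 1) :
    extPow X (r • a) n = r ^ n • extPow X a n := by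
  rw [extPow_eq_boxC, extPow_eq_boxC]
  have h := (boxM X n).map_smul_univ (fun _ => r) (fun _ => a)
  rw [Finset.prod_const, Finset.card_univ, Fintype.card_fin] at h
  exact h

omit [Finite ι] in
/-- The first exterior power of a cycle is the cycle. -/
theorem extPow_one (a : Cycles X 1) : extPow X a 1 = a := by
  classical
  have hbox : ∀ Q : Fin 1 → Pt X 1, box X Q = Finsupp.single (Q 0) 1 := by
    intro Q
    apply box_of_eq
    unfold boxIdeal
    rw [iSup_unique]
    have h : (rename (R := ℂ) (fun v : Fin 1 × ι => ((default : Fin 1), v.2))).toRingHom =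
        RingHom.id (Coord ι 1) := by
      apply MvPolynomial.ringHom_ext
      · intro r
        simp
      · rintro ⟨i, j⟩
        have : i = default := Subsingleton.elim _ _
        subst this
        simp
    rw [h, Ideal.map_id]
    rfl
  have h := extPow_sum_single (X := X) (κ := {Q // Q ∈ a.support}) (fun Q => Q.1)
    (fun Q => a Q.1) 1
  have h1 : (∑ k : {Q // Q ∈ a.support}, Finsupp.single k.1 (a k.1)) = a := by
    rw [Finset.sum_coe_sort a.support (fun Q => Finsupp.single Q (a Q))]
    exact a.sum_single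
  rw [h1] at h
  rw [h]
  rw [← (Equiv.funUnique (Fin 1) {Q // Q ∈ a.support}).symm.sum_comp]
  refine Eq.trans ?_ h1
  refine Finset.sum_congr rfl fun k _ => ?_
  rw [hbox]
  simp

omit [Finite ι] in
/-- A cycle with a nonzero multiple rationally equivalent to zero is smash-nilpotent. -/
theorem smashNilpotent_of_torZero {a : Cycles X 1} (ha : a ∈ torZero X 1) :
    SmashNilpotent X a := by
  refine ⟨1, le_rfl, ?_⟩
  rw [extPow_one]
  exact ha

variable (X) in
/-- The group of smash-nilpotent cycles. -/
def nilGroup : AddSubgroup (Cycles X 1) where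
  carrier := {a | SmashNilpotent X a}
  zero_mem' := smashNilpotent_of_torZero (zero_mem _)
  add_mem' := smashNilpotent_add
  neg_mem' := by
    rintro a ⟨n, hn, ha⟩
    refine ⟨n, hn, ?_⟩
    have ha' : extPow X a n ∈ torZero X n := ha
    have h : extPow X (-a) n = (-1 : ℤ) ^ n • extPow X a n := by
      rw [← extPow_smul, neg_one_smul]
    show extPow X (-a) n ∈ torZero X n
    rw [h]
    exact AddSubgroup.zsmul_mem _ ha' _

lemma mem_nilGroup {a : Cycles X 1} : a ∈ nilGroup X ↔ SmashNilpotent X a := Iff.rfl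

/-- Smash-nilpotence depends only on the class modulo rational equivalence, even with rational
coefficients. -/
theorem smashNilpotent_congr {a b : Cycles X 1} (h : a - b ∈ torZero X 1) :
    SmashNilpotent X a ↔ SmashNilpotent X b := by
  have h1 := smashNilpotent_of_torZero h
  constructor
  · intro ha
    have := (nilGroup X).sub_mem (mem_nilGroup.2 ha) (mem_nilGroup.2 h1)
    rwa [sub_sub_cancel] at this
  · intro hb
    have := (nilGroup X).add_mem (mem_nilGroup.2 h1) (mem_nilGroup.2 hb)
    rwa [sub_add_cancel] at this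

omit [Finite ι] in
/-- A cycle with a smash-nilpotent nonzero multiple is smash-nilpotent. -/
theorem smashNilpotent_of_smul {a : Cycles X 1} {r : ℕ} (hr : 1 ≤ r)
    (h : SmashNilpotent X (r • a)) : SmashNilpotent X a := by
  obtain ⟨n, hn, h⟩ := h
  refine ⟨n, hn, ?_⟩
  have h' : extPow X (r • a) n ∈ torZero X n := h
  have e : extPow X (r • a) n = r ^ n • extPow X a n := by
    have := extPow_smul n (r : ℤ) a
    rw [natCast_zsmul] at this
    rw [this, ← Nat.cast_pow, natCast_zsmul]
  rw [e] at h'
  exact torZero_of_smul (Nat.one_le_pow _ _ hr) h'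

lemma mapDomain_tr1_extPow (g : MSym X) (a : Cycles X 1) (n : ℕ) :
    extPow X (Finsupp.mapDomain (tr1 g) a) n =
      Finsupp.mapDomain (trN (Equiv.refl _) (fun _ => g)) (extPow X a n) := by
  rw [extPow_eq_boxC, extPow_eq_boxC, boxC_trN]

/-- Smash-nilpotence is invariant under the symmetries of `X`. -/
theorem smashNilpotent_tr1 (g : MSym X) (a : Cycles X 1) :
    SmashNilpotent X (Finsupp.mapDomain (tr1 g) a) ↔ SmashNilpotent X a := by
  have h : ∀ n : ℕ, extPow X (Finsupp.mapDomain (tr1 g) a) n ∈ torZero X n ↔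
      extPow X a n ∈ torZero X n := by
    intro n
    rw [mapDomain_tr1_extPow, trN_torZero]
  constructor
  · rintro ⟨n, hn, ha⟩
    exact ⟨n, hn, (h n).1 ha⟩
  · rintro ⟨n, hn, ha⟩
    exact ⟨n, hn, (h n).2 ha⟩

/-- Criterion: all elements of the subgroup generated by smash-nilpotent cycles, their images under
the symmetries of `X` and the cycles torsion modulo rational equivalence are smash-nilpotent. -/
theorem smashNilpotent_of_mem_closure (T : Set (Cycles X 1)) (hT : ∀ t ∈ T, SmashNilpotent X t)
    {a : Cycles X 1}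
    (ha : a ∈ AddSubgroup.closure ({b | ∃ (g : MSym X), ∃ t ∈ T, b = Finsupp.mapDomain (tr1 g) t} ∪
      {b | b ∈ torZero X 1})) : SmashNilpotent X a := by
  have h : AddSubgroup.closure ({b | ∃ (g : MSym X), ∃ t ∈ T, b = Finsupp.mapDomain (tr1 g) t} ∪
      {b | b ∈ torZero X 1}) ≤ nilGroup X := by
    rw [AddSubgroup.closure_le]
    rintro b (⟨g, t, ht, rfl⟩ | hb)
    · exact (smashNilpotent_tr1 g t).2 (hT t ht)
    · exact smashNilpotent_of_torZero hb
  exact h ha

end finite

end Pool.Agent.RCH
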