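import Pool.Agent.RCH.WtAlg

/-!
# Lengths over a localised graded ring and over the part of degree zero
-/

set_option autoImplicit false

open DirectSum

namespace Pool.Agent.RCH.Wt

section graded

variable {S : Type} [CommRing S] {Γ : Type} [AddCommGroup Γ] [DecidableEq Γ]
  {τ : Type} [SetLike τ S] [AddSubgroupClass τ S] (𝒜 : Γ → τ) [GradedRing 𝒜]
  (P Q : Ideal S) [P.IsPrime] [Q.IsPrime]

/-- the residue class in the fraction field of `S / P` -/
noncomputable def res : S →+* FractionRing (S ⧸ P) :=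
  (algebraMap (S ⧸ P) (FractionRing (S ⧸ P))).comp (Ideal.Quotient.mk P)

lemma res_eq_zero {a : S} : res P a = 0 ↔ a ∈ P := by
  rw [res, RingHom.comp_apply, map_eq_zero_iff _ (IsFractionRing.injective (S ⧸ P) _),
    Ideal.Quotient.eq_zero_iff_mem]

/-- The local ring of the variety of `P` at `Q`: the quotients `a / s` of homogeneous elements of
the same degree, with `s ∉ Q`. -/
noncomputable def locRing : Subring (FractionRing (S ⧸ P)) where
  carrier := {x | ∃ (γ : Γ) (a s : S), a ∈ 𝒜 γ ∧ s ∈ 𝒜 γ ∧ s ∉ Q ∧ x * res P s = res P a}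
  mul_mem' := by
    rintro x y ⟨γ, a, s, ha, hs, hsQ, hx⟩ ⟨γ', b, t, hb, ht, htQ, hy⟩
    refine ⟨γ + γ', a * b, s * t, SetLike.mul_mem_graded ha hb, SetLike.mul_mem_graded hs ht,
      fun h => (Ideal.IsPrime.mem_or_mem ‹_› h).elim hsQ htQ, ?_⟩
    rw [map_mul, map_mul, ← hx, ← hy]
    ring
  one_mem' := ⟨0, 1, 1, SetLike.one_mem_graded _, SetLike.one_mem_graded _,
    fun h => Ideal.IsPrime.ne_top ‹Q.IsPrime› ((Ideal.eq_top_iff_one Q).2 h), by rw [one_mul]⟩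
  add_mem' := by
    rintro x y ⟨γ, a, s, ha, hs, hsQ, hx⟩ ⟨γ', b, t, hb, ht, htQ, hy⟩
    refine ⟨γ + γ', a * t + s * b, s * t, add_mem (SetLike.mul_mem_graded ha ht)
      (SetLike.mul_mem_graded hs hb), SetLike.mul_mem_graded hs ht,
      fun h => (Ideal.IsPrime.mem_or_mem ‹_› h).elim hsQ htQ, ?_⟩
    rw [map_add, map_mul, map_mul, map_mul, ← hx, ← hy]
    ring
  zero_mem' := ⟨0, 0, 1, zero_mem _, SetLike.one_mem_graded _,
    fun h => Ideal.IsPrime.ne_top ‹Q.IsPrime› ((Ideal.eq_top_iff_one Q).2 h), by simp⟩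
  neg_mem' := by
    rintro x ⟨γ, a, s, ha, hs, hsQ, hx⟩
    exact ⟨γ, -a, s, neg_mem ha, hs, hsQ, by rw [map_neg, ← hx, neg_mul]⟩

/-- the quotients `a / s` of degree `δ` of homogeneous elements, with `a ∈ I` and `s ∉ Q` -/
noncomputable def fr (δ : Γ) (I : Ideal S) :
    Submodule (locRing 𝒜 P Q) (FractionRing (S ⧸ P)) where
  carrier := {x | ∃ (γ : Γ) (a s : S), a ∈ I ∧ a ∈ 𝒜 (γ + δ) ∧ s ∈ 𝒜 γ ∧ s ∉ Q ∧
    x * res P s = res P a}
  add_mem' := by
    rintro x y ⟨γ, a, s, haI, ha, hs, hsQ, hx⟩ ⟨γ', b, t, hbI, hb, ht, htQ, hy⟩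
    refine ⟨γ + γ', a * t + s * b, s * t, add_mem (I.mul_mem_right _ haI) (I.mul_mem_left _ hbI),
      add_mem ?_ ?_, SetLike.mul_mem_graded hs ht,
      fun h => (Ideal.IsPrime.mem_or_mem ‹_› h).elim hsQ htQ, ?_⟩
    · have h := SetLike.mul_mem_graded ha ht
      rwa [show γ + δ + γ' = γ + γ' + δ by abel] at h
    · have h := SetLike.mul_mem_graded hs hb
      rwa [← add_assoc] at h
    · rw [map_add, map_mul, map_mul, map_mul, ← hx, ← hy]
      ring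
  zero_mem' := ⟨0, 0, 1, zero_mem _, zero_mem _, SetLike.one_mem_graded _,
    fun h => Ideal.IsPrime.ne_top ‹Q.IsPrime› ((Ideal.eq_top_iff_one Q).2 h), by simp⟩
  smul_mem' := by
    rintro ⟨c, γ', b, t, hb, ht, htQ, hc⟩ x ⟨γ, a, s, haI, ha, hs, hsQ, hx⟩
    refine ⟨γ' + γ, b * a, t * s, I.mul_mem_left _ haI, ?_, SetLike.mul_mem_graded ht hs,
      fun h => (Ideal.IsPrime.mem_or_mem ‹_› h).elim htQ hsQ, ?_⟩
    · have h := SetLike.mul_mem_graded hb ha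
      rwa [← add_assoc] at h
    · show c * x * _ = _
      rw [map_mul, map_mul, ← hx, ← hc]
      ring

/-- the group generated by the degrees of the homogeneous elements which are not in `Q` -/
def degs : AddSubgroup Γ := AddSubgroup.closure {γ | ∃ a ∈ 𝒜 γ, a ∉ Q}

variable {𝒜 P Q}

lemma mem_degs {γ : Γ} {a : S} (ha : a ∈ 𝒜 γ) (haQ : a ∉ Q) : γ ∈ degs 𝒜 Q :=
  AddSubgroup.subset_closure ⟨a, ha, haQ⟩

lemma exists_of_degs {δ : Γ} (h : δ ∈ degs 𝒜 Q) :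
    ∃ (γ : Γ) (t₁ t₂ : S), t₁ ∈ 𝒜 (γ + δ) ∧ t₂ ∈ 𝒜 γ ∧ t₁ ∉ Q ∧ t₂ ∉ Q := by
  have h1 : (1 : S) ∉ Q := fun h => Ideal.IsPrime.ne_top ‹Q.IsPrime› ((Ideal.eq_top_iff_one Q).2 h)
  have hmul : ∀ {a b : S}, a ∉ Q → b ∉ Q → a * b ∉ Q := fun ha hb h =>
    (Ideal.IsPrime.mem_or_mem ‹_› h).elim ha hb
  induction h using AddSubgroup.closure_induction with
  | mem δ h =>
    obtain ⟨a, ha, haQ⟩ := h
    exact ⟨0, a, 1, by rwa [zero_add], SetLike.one_mem_graded _, haQ, h1⟩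
  | zero => exact ⟨0, 1, 1, by simpa using SetLike.one_mem_graded 𝒜, SetLike.one_mem_graded _, h1, h1⟩
  | add x y _ _ hx hy =>
    obtain ⟨γ, a, b, ha, hb, haQ, hbQ⟩ := hx
    obtain ⟨γ', c, d, hc, hd, hcQ, hdQ⟩ := hy
    refine ⟨γ + γ', a * c, b * d, ?_, SetLike.mul_mem_graded hb hd, hmul haQ hcQ, hmul hbQ hdQ⟩
    have h := SetLike.mul_mem_graded ha hc
    rwa [show γ + x + (γ' + y) = γ + γ' + (x + y) by abel] at h
  | neg x _ hx =>
    obtain ⟨γ, a, b, ha, hb, haQ, hbQ⟩ := hx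
    refine ⟨γ + x, b, a, ?_, ha, hbQ, haQ⟩
    rwa [show γ + x + -x = γ by abel]

/-- `y` belongs to `I` after localisation at `Q` -/
def LocMem (Q : Ideal S) (I : Ideal S) (y : S) : Prop := ∃ s ∉ Q, s * y ∈ I

lemma LocMem.of_mul {I : Ideal S} {y t : S} (ht : t ∉ Q) (h : LocMem Q I (y * t)) :
    LocMem Q I y := by
  obtain ⟨s, hs, h⟩ := h
  exact ⟨s * t, fun h => (Ideal.IsPrime.mem_or_mem ‹_› h).elim hs ht, by
    rwa [mul_assoc, mul_comm t y]⟩

omit [Q.IsPrime] in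
lemma LocMem.mul_right {I : Ideal S} {y : S} (t : S) (h : LocMem Q I y) :
    LocMem Q I (y * t) := by
  obtain ⟨s, hs, h⟩ := h
  exact ⟨s, hs, by rw [← mul_assoc]; exact I.mul_mem_right _ h⟩

lemma LocMem.add {I : Ideal S} {y z : S} (hy : LocMem Q I y) (hz : LocMem Q I z) :
    LocMem Q I (y + z) := by
  obtain ⟨s, hs, h⟩ := hy
  obtain ⟨t, ht, h'⟩ := hz
  refine ⟨s * t, fun h => (Ideal.IsPrime.mem_or_mem ‹_› h).elim hs ht, ?_⟩
  rw [show s * t * (y + z) = t * (s * y) + s * (t * z) by ring]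
  exact add_mem (I.mul_mem_left _ h) (I.mul_mem_left _ h')

lemma LocMem.of_mem {I : Ideal S} {y : S} (h : y ∈ I) : LocMem Q I y :=
  ⟨1, fun h => Ideal.IsPrime.ne_top ‹Q.IsPrime› ((Ideal.eq_top_iff_one Q).2 h), by rwa [one_mul]⟩

omit [Q.IsPrime] in
lemma LocMem.homog {I : Ideal S} (hI : I.IsHomogeneous 𝒜) {γ : Γ} {y : S} (hy : y ∈ 𝒜 γ)
    (h : LocMem Q I y) : ∃ (k : Γ) (s : S), s ∈ 𝒜 k ∧ s ∉ Q ∧ s * y ∈ I := by
  classical
  obtain ⟨s, hs, h⟩ := h
  have h1 : ∃ k, (decompose 𝒜 s k : S) ∉ Q := by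
    by_contra hall
    push Not at hall
    apply hs
    rw [← DirectSum.sum_support_decompose 𝒜 s]
    exact Q.sum_mem fun k _ => hall k
  obtain ⟨k, hk⟩ := h1
  refine ⟨k, _, SetLike.coe_mem _, hk, ?_⟩
  rw [← DirectSum.coe_decompose_mul_add_of_right_mem 𝒜 hy]
  exact hI (k + γ) h

/-- membership in `fr δ I` -/
lemma mem_fr_iff {I : Ideal S} (hI : I.IsHomogeneous 𝒜) (hPI : P ≤ I) {δ γ : Γ}
    {y t : S} (hy : y ∈ 𝒜 (γ + δ)) (ht : t ∈ 𝒜 γ) (htQ : t ∉ Q) {x : FractionRing (S ⧸ P)}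
    (hx : x * res P t = res P y) : x ∈ fr 𝒜 P Q δ I ↔ LocMem Q I y := by
  constructor
  · rintro ⟨γ', a, s, haI, ha, hs, hsQ, hxs⟩
    refine ⟨s, hsQ, ?_⟩
    have h1 : s * y - a * t ∈ P := by
      rw [← res_eq_zero, map_sub, map_mul, map_mul, ← hx, ← hxs]
      ring
    have h2 := add_mem (hPI h1) (I.mul_mem_right t haI)
    rwa [sub_add_cancel] at h2
  · intro h
    obtain ⟨k, s, hs, hsQ, hsy⟩ := h.homog hI hy
    refine ⟨k + γ, s * y, s * t, hsy, ?_, SetLike.mul_mem_graded hs ht,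
      fun h => (Ideal.IsPrime.mem_or_mem ‹_› h).elim hsQ htQ, ?_⟩
    · have h := SetLike.mul_mem_graded hs hy
      rwa [← add_assoc] at h
    · rw [map_mul, map_mul, ← hx]
      ring

lemma fr_mono {δ : Γ} {I J : Ideal S} (h : I ≤ J) : fr 𝒜 P Q δ I ≤ fr 𝒜 P Q δ J := by
  rintro x ⟨γ, a, s, haI, ha, hs, hsQ, hxs⟩
  exact ⟨γ, a, s, h haI, ha, hs, hsQ, hxs⟩

/-- a homogeneous element of `I + (x)` -/
lemma exists_of_sup {I : Ideal S} (hI : I.IsHomogeneous 𝒜) {d : Γ} {x : S} (hx : x ∈ 𝒜 d) {γ : Γ}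
    {j : S} (hj : j ∈ I ⊔ Ideal.span {x}) (hjγ : j ∈ 𝒜 γ) :
    ∃ i ∈ I, ∃ r ∈ 𝒜 (γ - d), i ∈ 𝒜 γ ∧ j = i + r * x := by
  obtain ⟨i, hi, z, hz, rfl⟩ := Submodule.mem_sup.1 hj
  obtain ⟨r, rfl⟩ := Ideal.mem_span_singleton'.1 hz
  refine ⟨decompose 𝒜 i γ, hI γ hi, decompose 𝒜 r (γ - d), SetLike.coe_mem _, SetLike.coe_mem _, ?_⟩
  rw [← DirectSum.coe_decompose_mul_add_of_right_mem 𝒜 hx, sub_add_cancel]
  have h := DirectSum.decompose_of_mem_same 𝒜 hjγ
  rw [DirectSum.decompose_add, DirectSum.add_apply, AddMemClass.coe_add] at h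
  exact h.symm


/-- the classes of the degrees of `P` modulo those of `Q` -/
abbrev Cls (𝒜 : Γ → τ) (P Q : Ideal S) : Type :=
  degs 𝒜 P ⧸ (degs 𝒜 Q).addSubgroupOf (degs 𝒜 P)

/-- a degree in the class -/
noncomputable def rep (c : Cls 𝒜 P Q) : Γ := ((Quotient.out c : degs 𝒜 P) : Γ)

lemma rep_sub {d : Γ} (hd : d ∈ degs 𝒜 P) (c : Cls 𝒜 P Q) :
    rep c - d ∈ degs 𝒜 Q ↔ c = QuotientAddGroup.mk ⟨d, hd⟩ := by
  have h : c = QuotientAddGroup.mk (Quotient.out c) := (Quotient.out_eq c).symm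
  conv_rhs => rw [h, eq_comm, QuotientAddGroup.eq, AddSubgroup.mem_addSubgroupOf]
  have h1 : ((-(⟨d, hd⟩ : degs 𝒜 P) + Quotient.out c : degs 𝒜 P) : Γ) = rep c - d := by
    show -d + rep c = rep c - d
    abel
  rw [h1]

variable (𝒜 P Q) in
/-- the submodule of the fractions with numerators in `I`, one degree in each class -/
noncomputable def W (I : Ideal S) :
    Submodule (locRing 𝒜 P Q) (∀ c : Cls 𝒜 P Q, fr 𝒜 P Q (rep c) ⊤) :=
  Submodule.pi Set.univ fun c => (fr 𝒜 P Q (rep c) I).comap (Submodule.subtype _)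

lemma mem_W {I : Ideal S} {f : ∀ c : Cls 𝒜 P Q, fr 𝒜 P Q (rep c) ⊤} :
    f ∈ W 𝒜 P Q I ↔ ∀ c, (f c : FractionRing (S ⧸ P)) ∈ fr 𝒜 P Q (rep c) I := by
  simp [W, Submodule.mem_pi]

theorem W_covBy (hPQ : P ≤ Q) {I : Ideal S} (hI : I.IsHomogeneous 𝒜) (hPI : P ≤ I) {d : Γ} {x : S}
    (hx : x ∈ 𝒜 d) (hnx : ¬ LocMem Q I x) (hQx : ∀ q ∈ Q, LocMem Q I (q * x)) :
    W 𝒜 P Q I ⋖ W 𝒜 P Q (I ⊔ Ideal.span {x}) := by
  classical
  have hmul : ∀ {a b : S}, a ∉ Q → b ∉ Q → a * b ∉ Q := fun ha hb h =>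
    (Ideal.IsPrime.mem_or_mem ‹_› h).elim ha hb
  have hres : ∀ {a : S}, a ∉ Q → res P a ≠ 0 := fun ha h => ha (hPQ ((res_eq_zero P).1 h))
  have hxP : x ∉ P := fun h => hnx (LocMem.of_mem (hPI h))
  have hd : d ∈ degs 𝒜 P := mem_degs hx hxP
  set c₀ : Cls 𝒜 P Q := QuotientAddGroup.mk ⟨d, hd⟩ with hc₀
  have hrep : rep c₀ - d ∈ degs 𝒜 Q := (rep_sub hd c₀).2 rfl
  obtain ⟨γ, t₁, t₂, ht₁, ht₂, ht₁Q, ht₂Q⟩ := exists_of_degs hrep
  -- the new fraction
  set y : FractionRing (S ⧸ P) := res P (x * t₁) / res P t₂ with hy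
  have hyt : y * res P t₂ = res P (x * t₁) := div_mul_cancel₀ _ (hres ht₂Q)
  have hxt : x * t₁ ∈ 𝒜 (γ + rep c₀) := by
    have h := SetLike.mul_mem_graded hx ht₁
    rwa [show d + (γ + (rep c₀ - d)) = γ + rep c₀ by abel] at h
  have hyJ : y ∈ fr 𝒜 P Q (rep c₀) (I ⊔ Ideal.span {x}) :=
    ⟨γ, x * t₁, t₂, Ideal.mul_mem_right _ _ (Ideal.mem_sup_right (Ideal.mem_span_singleton_self x)),
      hxt, ht₂, ht₂Q, hyt⟩
  have hyT : y ∈ fr 𝒜 P Q (rep c₀) ⊤ := fr_mono le_top hyJ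
  set Y : ∀ c : Cls 𝒜 P Q, fr 𝒜 P Q (rep c) ⊤ := Pi.single c₀ ⟨y, hyT⟩ with hY
  have hYs : (Y c₀ : FractionRing (S ⧸ P)) = y := by rw [hY, Pi.single_eq_same]
  have hYn : ∀ c, c ≠ c₀ → (Y c : FractionRing (S ⧸ P)) = 0 := fun c hc => by
    rw [hY, Pi.single_eq_of_ne hc]
    rfl
  -- the ideal of the nonunits
  let m : Set (locRing 𝒜 P Q) := {c | ∃ (γ : Γ) (a s : S), a ∈ Q ∧ a ∈ 𝒜 γ ∧ s ∈ 𝒜 γ ∧ s ∉ Q ∧
    (c : FractionRing (S ⧸ P)) * res P s = res P a}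
  have hunit : ∀ c, c ∉ m → IsUnit c := by
    rintro ⟨c, γ', a, s, ha, hs, hsQ, hc⟩ hcm
    have haQ : a ∉ Q := fun h => hcm ⟨γ', a, s, h, ha, hs, hsQ, hc⟩
    refine IsUnit.of_mul_eq_one (⟨res P s / res P a, γ', s, a, hs, ha, haQ,
      div_mul_cancel₀ _ (hres haQ)⟩ : locRing 𝒜 P Q) ?_
    apply Subtype.ext
    show c * (res P s / res P a) = 1
    rw [← mul_div_assoc, hc, div_self (hres haQ)]
  have hYI : Y ∉ W 𝒜 P Q I := by
    intro h
    have h1 := mem_W.1 h c₀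
    rw [hYs, mem_fr_iff hI hPI hxt ht₂ ht₂Q hyt] at h1
    exact hnx (LocMem.of_mul ht₁Q h1)
  have hm : ∀ c ∈ m, c • Y ∈ W 𝒜 P Q I := by
    rintro c ⟨γ', a, s, haQ, ha, hs, hsQ, hc⟩
    refine mem_W.2 fun c' => ?_
    by_cases hcc : c' = c₀
    · subst hcc
      have h1 : ((c • Y) c₀ : FractionRing (S ⧸ P)) = (c : FractionRing (S ⧸ P)) * y := by
        rw [← hYs]
        rfl
      rw [h1]
      have h2 : a * (x * t₁) ∈ 𝒜 (γ' + γ + rep c₀) := by
        have h := SetLike.mul_mem_graded ha hxt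
        rwa [← add_assoc] at h
      have h3 : (c : FractionRing (S ⧸ P)) * y * res P (s * t₂) = res P (a * (x * t₁)) := by
        rw [map_mul, map_mul, ← hc, ← hyt]
        ring
      rw [mem_fr_iff hI hPI h2 (SetLike.mul_mem_graded hs ht₂) (hmul hsQ ht₂Q) h3, ← mul_assoc]
      exact (hQx a haQ).mul_right t₁
    · have h1 : ((c • Y) c' : FractionRing (S ⧸ P)) = (c : FractionRing (S ⧸ P)) *
          (Y c' : FractionRing (S ⧸ P)) := rfl
      rw [h1, hYn c' hcc, mul_zero]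
      exact zero_mem _
  have heq : W 𝒜 P Q (I ⊔ Ideal.span {x}) = W 𝒜 P Q I ⊔ Submodule.span _ {Y} := by
    apply le_antisymm
    · intro f hf
      rw [mem_W] at hf
      -- the other classes
      have hoth : ∀ c, c ≠ c₀ → (f c : FractionRing (S ⧸ P)) ∈ fr 𝒜 P Q (rep c) I := by
        intro c hc
        obtain ⟨γ', j, s, hj, hjg, hs, hsQ, hfs⟩ := hf c
        obtain ⟨i, hi, r, hr, -, hjr⟩ := exists_of_sup hI hx hj hjg
        have hrQ : r ∈ Q := by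
          by_contra hrQ
          have h1 := mem_degs hr hrQ
          have h2 := sub_mem h1 (mem_degs hs hsQ)
          rw [show γ' + rep c - d - γ' = rep c - d by abel, rep_sub hd] at h2
          exact hc h2
        rw [mem_fr_iff hI hPI hjg hs hsQ hfs, hjr]
        exact (LocMem.of_mem hi).add (hQx r hrQ)
      obtain ⟨γ', j, s, hj, hjg, hs, hsQ, hfs⟩ := hf c₀
      obtain ⟨i, hi, r, hr, hig, hjr⟩ := exists_of_sup hI hx hj hjg
      have hrt : r * t₂ ∈ 𝒜 (γ' + (γ + (rep c₀ - d))) := by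
        have h := SetLike.mul_mem_graded hr ht₂
        rwa [show γ' + rep c₀ - d + γ = γ' + (γ + (rep c₀ - d)) by abel] at h
      let c : locRing 𝒜 P Q := ⟨res P (r * t₂) / res P (s * t₁), _, r * t₂, s * t₁, hrt,
        SetLike.mul_mem_graded hs ht₁, hmul hsQ ht₁Q, div_mul_cancel₀ _ (hres (hmul hsQ ht₁Q))⟩
      have hc : (c : FractionRing (S ⧸ P)) * res P (s * t₁) = res P (r * t₂) :=
        div_mul_cancel₀ _ (hres (hmul hsQ ht₁Q))
      have h1 : f - c • Y ∈ W 𝒜 P Q I := by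
        refine mem_W.2 fun c' => ?_
        by_cases hcc : c' = c₀
        · subst hcc
          have h2 : ((f - c • Y) c₀ : FractionRing (S ⧸ P)) =
              (f c₀ : FractionRing (S ⧸ P)) - (c : FractionRing (S ⧸ P)) * y := by
            rw [← hYs]
            rfl
          rw [h2]
          refine ⟨γ' + (γ + (rep c₀ - d)) + γ, i * t₁ * t₂, s * t₁ * t₂,
            I.mul_mem_right _ (I.mul_mem_right _ hi), ?_,
            SetLike.mul_mem_graded (SetLike.mul_mem_graded hs ht₁) ht₂,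
            hmul (hmul hsQ ht₁Q) ht₂Q, ?_⟩
          · have h := SetLike.mul_mem_graded (SetLike.mul_mem_graded hig ht₁) ht₂
            rwa [show γ' + rep c₀ + (γ + (rep c₀ - d)) + γ =
              γ' + (γ + (rep c₀ - d)) + γ + rep c₀ by abel] at h
          · have h3 : (c : FractionRing (S ⧸ P)) * y * res P (s * t₁ * t₂) =
                res P (r * t₂) * res P (x * t₁) := by
              rw [← hc, ← hyt, map_mul _ (s * t₁) t₂]
              ring
            rw [sub_mul, h3, show i = j - r * x by rw [hjr]; ring]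
            simp only [map_mul, map_sub, ← hfs]
            ring
        · have h2 : ((f - c • Y) c' : FractionRing (S ⧸ P)) =
              (f c' : FractionRing (S ⧸ P)) - (c : FractionRing (S ⧸ P)) *
                (Y c' : FractionRing (S ⧸ P)) := rfl
          rw [h2, hYn c' hcc, mul_zero, sub_zero]
          exact hoth c' hcc
      have h2 : f = (f - c • Y) + c • Y := by abel
      rw [h2]
      exact add_mem (Submodule.mem_sup_left h1) (Submodule.mem_sup_right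
        (Submodule.smul_mem _ _ (Submodule.mem_span_singleton_self Y)))
    · refine sup_le ?_ ?_
      · intro f hf
        rw [mem_W] at hf ⊢
        exact fun c => fr_mono le_sup_left (hf c)
      · rw [Submodule.span_le, Set.singleton_subset_iff, SetLike.mem_coe, mem_W]
        intro c
        by_cases hcc : c = c₀
        · subst hcc
          rw [hYs]
          exact hyJ
        · rw [hYn c hcc]
          exact zero_mem _
  rw [heq]
  exact covBy_sup_span hunit hYI hm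

end graded

end Pool.Agent.RCH.Wt
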