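import Pool.Agent.RCH.Defs
import Pool.Agent.RCH.WtGr

/-!
# The multigrading of the ring of the coordinates of `N` points, by integers
-/

set_option autoImplicit false

open MvPolynomial

namespace Pool.Agent.RCH.Wt

attribute [local instance] MvPolynomial.weightedGradedAlgebra

variable {ι : Type} (X : WVar ι) (N : ℕ)

/-- the multidegree of a coordinate, in the group of integer vectors -/
def zdeg (v : Fin N × ι) : Fin N → ℤ := fun i => (X.mdeg N v i : ℤ)

/-- the multigrading by integer vectors -/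
noncomputable abbrev gr : (Fin N → ℤ) → Submodule ℂ (Coord ι N) :=
  weightedHomogeneousSubmodule ℂ (zdeg X N)

/-- the embedding of the multidegrees -/
def ncast : (Fin N → ℕ) →+ (Fin N → ℤ) where
  toFun e := fun i => (e i : ℤ)
  map_zero' := by ext i; simp
  map_add' a b := by ext i; simp

variable {X N}

lemma ncast_apply (e : Fin N → ℕ) (i : Fin N) : ncast N e i = (e i : ℤ) := rfl

lemma ncast_injective : Function.Injective (ncast N) := by
  intro a b h
  ext i
  have := congrFun h i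
  rw [ncast_apply, ncast_apply] at this
  exact_mod_cast this

lemma weight_zdeg (d : (Fin N × ι) →₀ ℕ) :
    Finsupp.weight (zdeg X N) d = ncast N (Finsupp.weight (X.mdeg N) d) := by
  rw [Finsupp.weight_apply, Finsupp.weight_apply, Finsupp.sum, Finsupp.sum, map_sum]
  refine Finset.sum_congr rfl fun v _ => ?_
  rw [map_nsmul]
  rfl

/-- M1 -/
lemma mem_of_homog {z : Coord ι N} {e : Fin N → ℕ}
    (hz : IsWeightedHomogeneous (X.mdeg N) z e) : z ∈ gr X N (fun i => (e i : ℤ)) := by
  intro d hd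
  rw [weight_zdeg, hz hd]
  rfl

/-- M2 -/
lemma homog_of_mem {z : Coord ι N} {γ : Fin N → ℤ} (hz : z ∈ gr X N γ) (h0 : z ≠ 0) :
    ∃ e : Fin N → ℕ, γ = (fun i => (e i : ℤ)) ∧ IsWeightedHomogeneous (X.mdeg N) z e := by
  obtain ⟨d, hd⟩ := MvPolynomial.ne_zero_iff.1 h0
  have h1 : ncast N (Finsupp.weight (X.mdeg N) d) = γ := by
    rw [← weight_zdeg]
    exact hz hd
  refine ⟨Finsupp.weight (X.mdeg N) d, h1.symm, ?_⟩
  intro d' hd'
  apply ncast_injective
  rw [h1, ← weight_zdeg]
  exact hz hd'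

lemma component_ncast (e : Fin N → ℕ) (p : Coord ι N) :
    weightedHomogeneousComponent (zdeg X N) (ncast N e) p =
      weightedHomogeneousComponent (X.mdeg N) e p := by
  classical
  ext d
  rw [coeff_weightedHomogeneousComponent, coeff_weightedHomogeneousComponent, weight_zdeg]
  simp only [ncast_injective.eq_iff]

lemma component_of_notMem (γ : Fin N → ℤ) (hγ : ∀ e : Fin N → ℕ, ncast N e ≠ γ)
    (p : Coord ι N) : weightedHomogeneousComponent (zdeg X N) γ p = 0 := by
  classical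
  ext d
  rw [coeff_weightedHomogeneousComponent, weight_zdeg, if_neg (hγ _), coeff_zero]

/-- M3 -/
lemma pt_isHomogeneous (Q : Pt X N) : Q.I.IsHomogeneous (gr X N) := by
  classical
  intro γ p hp
  have h1 : ((DirectSum.decompose (gr X N) p) γ : Coord ι N) =
      weightedHomogeneousComponent (zdeg X N) γ p :=
    weightedDecomposition.decompose'_apply ℂ (zdeg X N) p γ
  rw [h1]
  by_cases hγ : ∃ e : Fin N → ℕ, ncast N e = γ
  · obtain ⟨e, rfl⟩ := hγ
    rw [component_ncast]
    exact Q.homog p hp e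
  · push Not at hγ
    rw [component_of_notMem γ hγ]
    exact Q.I.zero_mem

lemma mem_X (v : Fin N × ι) : (MvPolynomial.X v : Coord ι N) ∈ gr X N (zdeg X N v) :=
  isWeightedHomogeneous_X _ _ _

/-- M4 -/
lemma exists_pow_degs (hwt : ∀ j, 0 < X.wt j) (Q : Pt X N) :
    ∃ k : ℕ, 0 < k ∧ ∀ γ : Fin N → ℤ, k • γ ∈ degs (gr X N) Q.I ∧
      (∀ e : Fin N → ℕ, γ = (fun i => (e i : ℤ)) → ∃ s ∈ gr X N (k • γ), s ∉ Q.I) := by
  classical
  choose j hj using Q.relevant
  have hQ := Q.prime
  set k := ∏ i, X.wt (j i) with hk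
  have hk0 : 0 < k := Finset.prod_pos fun i _ => hwt (j i)
  have hdvd : ∀ i, X.wt (j i) ∣ k := fun i => Finset.dvd_prod_of_mem _ (Finset.mem_univ i)
  have hz : ∀ (i : Fin N) (c : ℤ), ((k / X.wt (j i) : ℕ) * c : ℤ) • zdeg X N (i, j i) =
      Pi.single i ((k : ℤ) * c) := by
    intro i c
    ext l
    rw [Pi.smul_apply, smul_eq_mul]
    show _ * ((Pi.single i (X.wt (j i)) : Fin N → ℕ) l : ℤ) = _
    by_cases hl : l = i
    · subst hl
      rw [Pi.single_eq_same, Pi.single_eq_same]
      obtain ⟨c', hc'⟩ := hdvd l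
      rw [hc', Nat.mul_div_cancel_left _ (hwt (j l))]
      push_cast
      ring
    · rw [Pi.single_eq_of_ne hl, Pi.single_eq_of_ne hl, Nat.cast_zero, mul_zero]
  refine ⟨k, hk0, fun γ => ⟨?_, ?_⟩⟩
  · have h1 : k • γ = ∑ i, ((k / X.wt (j i) : ℕ) * γ i : ℤ) • zdeg X N (i, j i) := by
      ext l
      rw [Finset.sum_apply]
      simp only [hz]
      rw [Finset.sum_pi_single, if_pos (Finset.mem_univ _), Pi.smul_apply, nsmul_eq_mul]
    rw [h1]
    exact sum_mem fun i _ => zsmul_mem (mem_degs (mem_X (i, j i)) (hj i)) _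
  · rintro e rfl
    refine ⟨∏ i, (MvPolynomial.X (i, j i) : Coord ι N) ^ ((k / X.wt (j i)) * e i), ?_, ?_⟩
    · have h1 : k • (fun i => (e i : ℤ)) = ∑ i, ((k / X.wt (j i)) * e i : ℕ) •
          zdeg X N (i, j i) := by
        ext l
        rw [Finset.sum_apply]
        have h2 : ∀ i, (((k / X.wt (j i)) * e i : ℕ) • zdeg X N (i, j i)) l =
            (Pi.single i ((k : ℤ) * e i) : Fin N → ℤ) l := by
          intro i
          rw [← hz i (e i), ← natCast_zsmul]
          push_cast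
          rfl
        rw [Finset.sum_congr rfl fun i _ => h2 i, Finset.sum_pi_single,
          if_pos (Finset.mem_univ _), Pi.smul_apply, nsmul_eq_mul]
      rw [h1]
      refine IsWeightedHomogeneous.prod _ _ _ fun i _ => ?_
      exact (mem_X (X := X) (i, j i)).pow _
    · intro hc
      obtain ⟨i, _, hi⟩ := (hQ.prod_mem_iff).1 hc
      exact hj i (hQ.mem_of_pow_mem _ hi)

/-- M5 -/
lemma exists_section (X : WVar ι) (hw : ∀ j, 0 < X.wt j) {N : ℕ} (Q : Pt X N) :
    ∃ k : ℕ, 0 < k ∧ ∀ (γ : Fin N → ℤ) (t : Coord ι N), t ∈ gr X N γ → t ≠ 0 →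
      ∃ s ∈ gr X N (k • γ), s ∉ Q.I := by
  obtain ⟨k, hk, h⟩ := exists_pow_degs hw Q
  refine ⟨k, hk, fun γ t ht h0 => ?_⟩
  obtain ⟨e, he, _⟩ := homog_of_mem ht h0
  exact (h γ).2 e he

/-- M6 -/
lemma degs_eq (X : WVar ι) {N : ℕ} (Q : Pt X N) :
    degs (gr X N) Q.I = AddSubgroup.closure
      {γ | ∃ v, (MvPolynomial.X v : Coord ι N) ∉ Q.I ∧ γ = zdeg X N v} := by
  apply le_antisymm
  · rw [degs, AddSubgroup.closure_le]
    rintro γ ⟨a, ha, haQ⟩
    obtain ⟨d, hd, hdQ⟩ : ∃ d ∈ a.support, monomial d (a.coeff d) ∉ Q.I := by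
      by_contra hc
      push Not at hc
      apply haQ
      rw [a.as_sum]
      exact sum_mem fun d hd => hc d hd
    have h1 : Finsupp.weight (zdeg X N) d = γ := ha (mem_support_iff.1 hd)
    rw [← h1, Finsupp.weight_apply, Finsupp.sum]
    refine sum_mem fun v hv => ?_
    have hX' : (MvPolynomial.X v : Coord ι N) ∉ Q.I := by
      intro hX
      apply hdQ
      have h2 : (monomial d (a.coeff d) : Coord ι N) =
          monomial (d - Finsupp.single v 1) (a.coeff d) * MvPolynomial.X v := by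
        rw [MvPolynomial.X, monomial_mul, mul_one,
          tsub_add_cancel_of_le (Finsupp.single_le_iff.2
            (Nat.one_le_iff_ne_zero.2 (Finsupp.mem_support_iff.1 hv)))]
      rw [h2]
      exact Q.I.mul_mem_left _ hX
    have h3 : zdeg X N v ∈ AddSubgroup.closure
        {γ | ∃ v, (MvPolynomial.X v : Coord ι N) ∉ Q.I ∧ γ = zdeg X N v} :=
      AddSubgroup.subset_closure ⟨v, hX', rfl⟩
    exact nsmul_mem h3 _
  · rw [AddSubgroup.closure_le]
    rintro γ ⟨v, hv, rfl⟩
    exact AddSubgroup.subset_closure ⟨_, mem_X v, hv⟩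

end Pool.Agent.RCH.Wt
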