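import Pool.Agent.RCH.Box
import Pool.Agent.RCH.WtMv

/-!
# The index of the group of the multidegrees
-/

set_option autoImplicit false

open MvPolynomial

namespace Pool.Agent.RCH.Wt

attribute [local instance] MvPolynomial.weightedGradedAlgebra

variable {ι : Type}

lemma zdeg_eq_single (X : WVar ι) (N : ℕ) (i : Fin N) (j : ι) :
    zdeg X N (i, j) = Pi.single i (X.wt j : ℤ) := by
  ext l
  show ((Pi.single i (X.wt j) : Fin N → ℕ) l : ℤ) = _
  by_cases hl : l = i
  · subst hl
    rw [Pi.single_eq_same, Pi.single_eq_same]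
  · rw [Pi.single_eq_of_ne hl, Pi.single_eq_of_ne hl, Nat.cast_zero]

/-- a common multiple of the weights times anything is in the group of the degrees -/
lemma smul_mem_degs (X : WVar ι) {N : ℕ} (Q : Pt X N) (K : ℤ) (hK : ∀ j, (X.wt j : ℤ) ∣ K)
    (γ : Fin N → ℤ) (hγ : ∀ i, K ∣ γ i) : γ ∈ degs (gr X N) Q.I := by
  classical
  choose j hj using Q.relevant
  have h1 : γ = ∑ i, (γ i / X.wt (j i)) • zdeg X N (i, j i) := by
    ext l
    rw [Finset.sum_apply]
    have h2 : ∀ i, ((γ i / X.wt (j i)) • zdeg X N (i, j i)) l =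
        (Pi.single i (γ i) : Fin N → ℤ) l := by
      intro i
      rw [zdeg_eq_single, ← Pi.single_smul, smul_eq_mul, Int.ediv_mul_cancel
        ((hK (j i)).trans (hγ i))]
    rw [Finset.sum_congr rfl fun i _ => h2 i, Finset.sum_pi_single, if_pos (Finset.mem_univ _)]
  rw [h1]
  have := Q.prime
  exact sum_mem fun i _ => zsmul_mem (mem_degs (mem_X (i, j i)) (hj i)) _

/-- M7 -/
lemma idx_dvd [Fintype ι] (X : WVar ι) (hw : ∀ j, 0 < X.wt j) {N : ℕ} (Q : Pt X N) :
    (degs (gr X N) Q.I).index ∣ (∏ j, X.wt j) ^ N := by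
  classical
  set K := ∏ j, X.wt j with hK
  have hK0 : 0 < K := Finset.prod_pos fun j _ => hw j
  have : NeZero K := ⟨hK0.ne'⟩
  let φ : (Fin N → ℤ) →+ (Fin N → ZMod K) :=
    { toFun := fun γ i => (γ i : ZMod K)
      map_zero' := by ext i; simp
      map_add' := fun a b => by ext i; simp }
  have hφ : Function.Surjective φ := by
    intro y
    refine ⟨fun i => (y i).cast, ?_⟩
    ext i
    show (((y i).cast : ℤ) : ZMod K) = y i
    exact ZMod.intCast_zmod_cast (y i)
  have h1 : φ.ker.index = K ^ N := by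
    rw [AddSubgroup.index_ker, AddMonoidHom.range_eq_top.2 hφ]
    rw [Nat.card_congr (AddSubgroup.topEquiv (G := Fin N → ZMod K)).toEquiv, Nat.card_fun,
      Nat.card_zmod, Nat.card_eq_fintype_card, Fintype.card_fin]
  rw [← h1]
  apply AddSubgroup.index_dvd_of_le
  intro γ hγ
  refine smul_mem_degs X Q K (fun j => ?_) γ (fun i => ?_)
  · exact_mod_cast Finset.dvd_prod_of_mem _ (Finset.mem_univ j)
  · have h2 : ((γ i : ℤ) : ZMod K) = 0 := congrFun hγ i
    exact (ZMod.intCast_zmod_eq_zero_iff_dvd (γ i) K).1 h2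

lemma X_notMem_box_iff [Finite ι] (X : WVar ι) {N : ℕ} (Q : Fin N → Pt X 1) (i : Fin N) (j : ι) :
    (MvPolynomial.X (i, j) : Coord ι N) ∉ boxIdeal X Q ↔
      (MvPolynomial.X (0, j) : Coord ι 1) ∉ (Q i).I := by
  classical
  constructor
  · intro h hc
    apply h
    have h1 : (MvPolynomial.X (i, j) : Coord ι N) =
        (rename (R := ℂ) (fun v : Fin 1 × ι => (i, v.2))).toRingHom (MvPolynomial.X (0, j)) := by
      show _ = rename _ _
      rw [rename_X]
    rw [h1]
    exact Ideal.mem_iSup_of_mem i (Ideal.mem_map_of_mem _ hc)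
  · intro h hc
    have hx : ∀ k : Fin N, ∃ (x : Fin 1 × ι → ℂ), (∀ p ∈ (Q k).I, eval x p = 0) ∧
        (k = i → x (0, j) ≠ 0) := by
      intro k
      have := (Q k).prime
      by_cases hk : k = i
      · subst hk
        obtain ⟨x, hx, hne⟩ := exists_zero_ne (Q k).I h
        rw [eval_X] at hne
        exact ⟨x, hx, fun _ => hne⟩
      · obtain ⟨j', hj'⟩ := (Q k).relevant 0
        obtain ⟨x, hx, hne⟩ := exists_zero_ne (Q k).I hj'
        exact ⟨x, hx, fun h => absurd h hk⟩
    choose x hx hne using hx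
    let y : Fin N × ι → ℂ := fun v => x v.1 (0, v.2)
    have hle : boxIdeal X Q ≤ RingHom.ker (eval y) := by
      refine iSup_le fun k => ?_
      rw [Ideal.map_le_iff_le_comap]
      intro p hp
      show eval y (rename _ p) = 0
      rw [eval_rename]
      have : y ∘ (fun v : Fin 1 × ι => (k, v.2)) = x k := by
        funext v
        obtain ⟨a, l⟩ := v
        have : a = 0 := Subsingleton.elim _ _
        subst this
        rfl
      rw [this]
      exact hx k p hp
    have h0 : eval y (MvPolynomial.X (i, j)) = 0 := hle hc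
    rw [eval_X] at h0
    exact hne i rfl h0

/-- the components of a multidegree -/
def comps (N : ℕ) : (Fin N → ℤ) ≃+ ((_ : Fin N) → (Fin 1 → ℤ)) where
  toFun γ i := fun _ => γ i
  invFun δ i := δ i 0
  left_inv γ := rfl
  right_inv δ := by
    ext i l
    have : l = 0 := Subsingleton.elim _ _
    rw [this]
  map_add' a b := rfl

lemma degs_box [Finite ι] (X : WVar ι) {N : ℕ} (Q : Fin N → Pt X 1) (B : Pt X N)
    (hB : B.I = boxIdeal X Q) :
    degs (gr X N) B.I = (AddSubgroup.pi Set.univ fun i => degs (gr X 1) (Q i).I).comap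
      (comps N : (Fin N → ℤ) →+ ((_ : Fin N) → (Fin 1 → ℤ))) := by
  classical
  apply le_antisymm
  · rw [degs_eq, AddSubgroup.closure_le]
    rintro γ ⟨⟨i, j⟩, hv, rfl⟩
    rw [hB, X_notMem_box_iff] at hv
    intro i' _
    show (fun _ => zdeg X N (i, j) i') ∈ degs (gr X 1) (Q i').I
    rw [zdeg_eq_single]
    by_cases h : i' = i
    · subst h
      have h1 : (fun _ => (Pi.single i' (X.wt j : ℤ) : Fin N → ℤ) i') = zdeg X 1 (0, j) := by
        ext l
        have : l = 0 := Subsingleton.elim _ _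
        rw [this, zdeg_eq_single, Pi.single_eq_same, Pi.single_eq_same]
      rw [h1]
      exact AddSubgroup.subset_closure ⟨_, mem_X (X := X) (0, j), hv⟩
    · have h1 : (fun _ => (Pi.single i (X.wt j : ℤ) : Fin N → ℤ) i' : Fin 1 → ℤ) = 0 := by
        ext l
        rw [Pi.single_eq_of_ne h]
        rfl
      rw [h1]
      exact zero_mem _
  · intro γ hγ
    have h1 : γ = ∑ i, Pi.single i (γ i) := (Finset.univ_sum_single γ).symm
    rw [h1]
    refine sum_mem fun i _ => ?_
    have hi : (fun _ => γ i : Fin 1 → ℤ) ∈ degs (gr X 1) (Q i).I := hγ i (Set.mem_univ i)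
    let s : (Fin 1 → ℤ) →+ (Fin N → ℤ) :=
      { toFun := fun δ => Pi.single i (δ 0)
        map_zero' := by simp
        map_add' := fun a b => by simp [Pi.single_add] }
    have h2 : degs (gr X 1) (Q i).I ≤ (degs (gr X N) B.I).comap s := by
      rw [degs_eq X (Q i), AddSubgroup.closure_le]
      rintro δ ⟨⟨a, j⟩, hv, rfl⟩
      have ha : a = 0 := Subsingleton.elim _ _
      subst ha
      show Pi.single i (zdeg X 1 (0, j) 0) ∈ degs (gr X N) B.I
      rw [zdeg_eq_single, Pi.single_eq_same, ← zdeg_eq_single X N i j]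
      refine AddSubgroup.subset_closure ⟨_, mem_X (X := X) (i, j), ?_⟩
      rw [hB, X_notMem_box_iff]
      exact hv
    exact h2 hi

/-- M8 -/
lemma idx_box [Fintype ι] (X : WVar ι) {N : ℕ} (Q : Fin N → Pt X 1) (B : Pt X N)
    (hB : B.I = boxIdeal X Q) :
    (degs (gr X N) B.I).index = ∏ i, (degs (gr X 1) (Q i).I).index := by
  rw [degs_box X Q B hB, AddSubgroup.index_comap_of_surjective _ (comps N).surjective]
  exact AddSubgroup.index_pi _

end Pool.Agent.RCH.Wt
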