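import Pool.Agent.RCH.WtCl
import Pool.Agent.RCH.WtIdx
import Pool.Agent.RCH.Box
import Pool.Agent.RCH.Ext
import Pool.Agent.RCH.Nil

/-!
# Comparison of the two relations of rational equivalence on a weighted projective variety
-/

set_option autoImplicit false

open MvPolynomial

namespace Pool.Agent.RCH.Wt

attribute [local instance] MvPolynomial.weightedGradedAlgebra

variable {ι : Type} {X : WVar ι} {N : ℕ}

/-- multiplication of the coefficients of a cycle by a function -/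
noncomputable def mulFun (w : Pt X N → ℤ) : Cycles X N →+ Cycles X N :=
  Finsupp.liftAddHom fun Q => (Finsupp.singleAddHom Q).comp (AddMonoidHom.mulRight (w Q))

lemma mulFun_single (w : Pt X N → ℤ) (Q : Pt X N) (n : ℤ) :
    mulFun w (Finsupp.single Q n) = Finsupp.single Q (n * w Q) := by
  simp [mulFun]

lemma mulFun_apply (w : Pt X N → ℤ) (c : Cycles X N) (Q : Pt X N) :
    mulFun w c Q = c Q * w Q := by
  classical
  induction c using Finsupp.induction_linear with
  | zero => simp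
  | add a b ha hb => rw [map_add, Finsupp.add_apply, ha, hb, Finsupp.add_apply, add_mul]
  | single R n =>
    rw [mulFun_single, Finsupp.single_apply, Finsupp.single_apply]
    split
    · next h => rw [h]
    · rw [zero_mul]

lemma support_mulFun (w : Pt X N → ℤ) (c : Cycles X N) : (mulFun w c).support ⊆ c.support := by
  intro Q hQ
  rw [Finsupp.mem_support_iff, mulFun_apply] at hQ
  rw [Finsupp.mem_support_iff]
  rintro h
  rw [h, zero_mul] at hQ
  exact hQ rfl

/-- rational functions are quotients of elements of the local ring -/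
lemma exists_uv (hw : ∀ j, 0 < X.wt j) {P Q : Pt X N} (hPQ : P.I ≤ Q.I)
    {e : Fin N → ℕ} {g h : Coord ι N} (hg : IsWeightedHomogeneous (X.mdeg N) g e)
    (hh : IsWeightedHomogeneous (X.mdeg N) h e) (hgP : g ∉ P.I) (hhP : h ∉ P.I) :
    ∃ u v : localRing X P Q, u ≠ 0 ∧ v ≠ 0 ∧ frac X P g * v = frac X P h * u := by
  have hP := P.prime
  have hQ := Q.prime
  obtain ⟨k, hk, hdeg⟩ := exists_pow_degs hw Q
  obtain ⟨s, hs, hsQ⟩ := (hdeg _).2 e rfl
  have hs0 : s ≠ 0 := fun h => hsQ (by rw [h]; exact zero_mem _)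
  obtain ⟨e', he', hs'⟩ := homog_of_mem hs hs0
  have h1 : e' = k • e := by
    apply ncast_injective
    rw [map_nsmul]
    exact he'.symm
  subst h1
  obtain ⟨k, rfl⟩ := Nat.exists_eq_succ_of_ne_zero hk.ne'
  let f : Coord ι N →+* FractionRing (Coord ι N ⧸ P.I) := frac X P
  have hsP : f s ≠ 0 := fun h => hsQ (hPQ ((res_eq_zero P.I).1 h))
  have hgf : f g ≠ 0 := fun h => hgP ((res_eq_zero P.I).1 h)
  have hhf : f h ≠ 0 := fun h => hhP ((res_eq_zero P.I).1 h)
  refine ⟨⟨f (g * h ^ k) / f s, (k + 1) • e, g * h ^ k, s, ?_, hs', hsQ,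
    div_mul_cancel₀ (f (g * h ^ k)) hsP⟩, ⟨f (h ^ (k + 1)) / f s, (k + 1) • e, h ^ (k + 1), s, ?_,
    hs', hsQ, div_mul_cancel₀ (f (h ^ (k + 1))) hsP⟩, ?_, ?_, ?_⟩
  · have h2 := hg.mul (hh.pow k)
    rwa [← succ_nsmul'] at h2
  · exact hh.pow (k + 1)
  · intro h2
    have h3 : f (g * h ^ k) / f s = 0 := congrArg Subtype.val h2
    rw [div_eq_zero_iff, map_mul, map_pow] at h3
    exact h3.elim (mul_ne_zero hgf (pow_ne_zero _ hhf)) hsP
  · intro h2
    have h3 : f (h ^ (k + 1)) / f s = 0 := congrArg Subtype.val h2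
    rw [div_eq_zero_iff, map_pow] at h3
    exact h3.elim (pow_ne_zero _ hhf) hsP
  · show f g * (f (h ^ (k + 1)) / f s) = f h * (f (g * h ^ k) / f s)
    rw [map_mul, map_pow, map_pow]
    ring

lemma card_ne_zero (hw : ∀ j, 0 < X.wt j) {P Q : Pt X N} (hPQ : P.I ≤ Q.I) :
    Nat.card (Cls (gr X N) P.I Q.I) ≠ 0 := by
  intro h
  apply idx_ne_zero hw Q
  rw [← idx_mul hPQ, h, zero_mul]

/-- if at each point a coordinate of weight one does not vanish, the index is one -/
lemma idx_eq_one {Q : Pt X N} (h : ∀ i, ∃ j, (MvPolynomial.X (i, j) : Coord ι N) ∉ Q.I ∧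
    X.wt j = 1) : idx Q = 1 := by
  classical
  have hQ := Q.prime
  rw [idx, AddSubgroup.index_eq_one, AddSubgroup.eq_top_iff']
  intro γ
  choose j hj hj1 using h
  have h1 : γ = ∑ i, γ i • zdeg X N (i, j i) := by
    ext l
    rw [Finset.sum_apply]
    have h2 : ∀ i, (γ i • zdeg X N (i, j i)) l = (Pi.single i (γ i) : Fin N → ℤ) l := by
      intro i
      rw [zdeg_eq_single, hj1, ← Pi.single_smul, smul_eq_mul, Nat.cast_one, mul_one]
    rw [Finset.sum_congr rfl fun i _ => h2 i, Finset.sum_pi_single, if_pos (Finset.mem_univ _)]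
  rw [h1]
  exact sum_mem fun i _ => zsmul_mem (mem_degs (mem_X (i, j i)) (hj i)) _

/-- **Comparison**: if at each point a coordinate of weight one does not vanish, the two relations of
rational equivalence are the same. -/
theorem ratZero_eq_ratEq [Finite ι] (hw : ∀ j, 0 < X.wt j) (h : ∀ (Q : Pt X N) (i : Fin N),
    ∃ j, (MvPolynomial.X (i, j) : Coord ι N) ∉ Q.I ∧ X.wt j = 1) : RatZero X N = RatEq X N := by
  have hcard : ∀ P Q : Pt X N, P.I ≤ Q.I → Nat.card (Cls (gr X N) P.I Q.I) = 1 := by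
    intro P Q hPQ
    have h1 := idx_mul hPQ
    rwa [idx_eq_one (h P), idx_eq_one (h Q), mul_one] at h1
  have hiff : ∀ (P : Pt X N) (g h : Coord ι N) (e : Fin N → ℕ) (c : Cycles X N),
      IsWeightedHomogeneous (X.mdeg N) g e → IsWeightedHomogeneous (X.mdeg N) h e →
      g ∉ P.I → h ∉ P.I → (IsDivisor X P g h c ↔ IsDiv X P g h c) := by
    intro P g h e c hg hh hgP hhP
    constructor
    · intro hdiv Q
      refine ⟨fun hQ => ?_, fun hQ => by rw [hdiv Q, if_neg hQ]⟩
      obtain ⟨u, v, hu, hv, huv⟩ := exists_uv hw hQ.1.le hg hh hgP hhP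
      refine ⟨u, v, hu, hv, huv, ?_⟩
      rw [hdiv Q, if_pos hQ]
      have h1 := ordAt_sub hw hQ hgP hhP u v hu hv huv
      rwa [hcard P Q hQ.1.le, Nat.cast_one, one_mul] at h1
    · intro hdiv Q
      by_cases hQ : CodimOne P.I Q.I
      · obtain ⟨u, v, hu, hv, huv, hc⟩ := (hdiv Q).1 hQ
        rw [if_pos hQ, hc]
        have h1 := ordAt_sub hw hQ hgP hhP u v hu hv huv
        rw [hcard P Q hQ.1.le, Nat.cast_one, one_mul] at h1
        exact h1.symm
      · rw [if_neg hQ, (hdiv Q).2 hQ]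
  rw [RatZero, RatEq]
  congr 1
  ext c
  constructor
  · rintro ⟨P, g, h, e, hg, hh, hgP, hhP, hdiv⟩
    exact ⟨P, g, h, e, hg, hh, hgP, hhP, (hiff P g h e c hg hh hgP hhP).1 hdiv⟩
  · rintro ⟨P, g, h, e, hg, hh, hgP, hhP, hdiv⟩
    exact ⟨P, g, h, e, hg, hh, hgP, hhP, (hiff P g h e c hg hh hgP hhP).2 hdiv⟩

section fin

variable [Fintype ι]

/-- the cycle with the coefficients multiplied by `K ^ N / [ℤ ^ N : D_Q]` -/
noncomputable def scale (X : WVar ι) (N : ℕ) : Cycles X N →+ Cycles X N :=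
  mulFun fun Q => (((∏ j, X.wt j) ^ N / idx Q : ℕ) : ℤ)

/-- the cycle with the coefficients multiplied by `[ℤ ^ N : D_Q]` -/
noncomputable def unscale (X : WVar ι) (N : ℕ) : Cycles X N →+ Cycles X N :=
  mulFun fun Q => (idx Q : ℤ)

lemma idx_dvd' (hw : ∀ j, 0 < X.wt j) (Q : Pt X N) : idx Q ∣ (∏ j, X.wt j) ^ N := idx_dvd X hw Q

lemma scale_unscale (hw : ∀ j, 0 < X.wt j) (c : Cycles X N) :
    scale X N (unscale X N c) = (∏ j, X.wt j) ^ N • c := by
  ext Q
  rw [scale, unscale, mulFun_apply, mulFun_apply, Finsupp.smul_apply, mul_assoc, ← Nat.cast_mul,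
    Nat.mul_div_cancel' (idx_dvd' hw Q), nsmul_eq_mul, mul_comm]

/-- T1 -/
theorem scale_mem (hw : ∀ j, 0 < X.wt j) {c : Cycles X N} (hc : c ∈ RatZero X N) :
    scale X N c ∈ RatEq X N := by
  classical
  have h0 : RatZero X N ≤ (RatEq X N).comap (scale X N) := by
    rw [RatZero, AddSubgroup.closure_le]
    rintro c ⟨P, g, h, e, hg, hh, hgP, hhP, hdiv⟩
    show scale X N c ∈ RatEq X N
    let c' : Cycles X N := Finsupp.onFinset c.support
      (fun Q => c Q / (Nat.card (Cls (gr X N) P.I Q.I) : ℤ)) (fun Q hQ => by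
        rw [Finsupp.mem_support_iff]
        intro h
        rw [h, Int.zero_ediv] at hQ
        exact hQ rfl)
    have hc' : ∀ Q, c' Q = c Q / (Nat.card (Cls (gr X N) P.I Q.I) : ℤ) := fun Q => rfl
    have hval : ∀ Q, CodimOne P.I Q.I → ∀ u v : localRing X P Q, u ≠ 0 → v ≠ 0 →
        frac X P g * v = frac X P h * u → c Q = (Nat.card (Cls (gr X N) P.I Q.I) : ℤ) *
          (((ordIn X u).toNat : ℤ) - ((ordIn X v).toNat : ℤ)) := by
      intro Q hQ u v hu hv huv
      rw [hdiv Q, if_pos hQ]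
      exact ordAt_sub hw hQ hgP hhP u v hu hv huv
    have hdiv' : IsDiv X P g h c' := by
      intro Q
      refine ⟨fun hQ => ?_, fun hQ => ?_⟩
      · obtain ⟨u, v, hu, hv, huv⟩ := exists_uv hw hQ.1.le hg hh hgP hhP
        refine ⟨u, v, hu, hv, huv, ?_⟩
        rw [hc', hval Q hQ u v hu hv huv, Int.mul_ediv_cancel_left]
        exact_mod_cast card_ne_zero hw hQ.1.le
      · rw [hc', hdiv Q, if_neg hQ, Int.zero_ediv]
    have hsc : scale X N c = ((∏ j, X.wt j) ^ N / idx P) • c' := by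
      ext Q
      rw [scale, mulFun_apply, Finsupp.smul_apply, hc', nsmul_eq_mul]
      by_cases hQ : CodimOne P.I Q.I
      · obtain ⟨u, v, hu, hv, huv⟩ := exists_uv hw hQ.1.le hg hh hgP hhP
        rw [hval Q hQ u v hu hv huv]
        obtain ⟨r, hr⟩ := idx_dvd' hw Q
        have hr' : (∏ j, X.wt j) ^ N = idx Q * r := hr
        have hne : (Nat.card (Cls (gr X N) P.I Q.I) : ℤ) ≠ 0 := by
          exact_mod_cast card_ne_zero hw hQ.1.le
        rw [Int.mul_ediv_cancel_left _ hne]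
        have e1 : (∏ j, X.wt j) ^ N / idx Q = r := by
          rw [hr', Nat.mul_div_cancel_left _ (Nat.pos_of_ne_zero (idx_ne_zero hw Q))]
        have e2 : (∏ j, X.wt j) ^ N / idx P = Nat.card (Cls (gr X N) P.I Q.I) * r := by
          rw [hr', ← idx_mul hQ.1.le, mul_right_comm, mul_comm (_ * _) (idx P),
            Nat.mul_div_cancel_left _ (Nat.pos_of_ne_zero (idx_ne_zero hw P))]
        rw [e1, e2]
        push_cast
        ring
      · have h1 := hdiv Q
        rw [if_neg hQ] at h1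
        rw [h1, zero_mul, Int.zero_ediv, mul_zero]
    rw [hsc]
    refine AddSubgroup.nsmul_mem _ (AddSubgroup.subset_closure ?_) _
    exact ⟨P, g, h, e, hg, hh, hgP, hhP, hdiv'⟩
  exact h0 hc

/-- T1, the other direction -/
theorem unscale_mem (hw : ∀ j, 0 < X.wt j) {c : Cycles X N} (hc : c ∈ RatEq X N) :
    unscale X N c ∈ RatZero X N := by
  classical
  have h0 : RatEq X N ≤ (RatZero X N).comap (unscale X N) := by
    rw [RatEq, AddSubgroup.closure_le]
    rintro c ⟨P, g, h, e, hg, hh, hgP, hhP, hdiv⟩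
    show unscale X N c ∈ RatZero X N
    set c' : Cycles X N := mulFun (fun Q => (Nat.card (Cls (gr X N) P.I Q.I) : ℤ)) c with hc'
    have hdiv' : IsDivisor X P g h c' := by
      intro Q
      rw [hc', mulFun_apply]
      by_cases hQ : CodimOne P.I Q.I
      · rw [if_pos hQ]
        obtain ⟨u, v, hu, hv, huv, huc⟩ := (hdiv Q).1 hQ
        rw [huc, mul_comm]
        exact (ordAt_sub hw hQ hgP hhP u v hu hv huv).symm
      · rw [if_neg hQ, (hdiv Q).2 hQ, zero_mul]
    have hsc : unscale X N c = idx P • c' := by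
      ext Q
      rw [unscale, mulFun_apply, Finsupp.smul_apply, hc', mulFun_apply, nsmul_eq_mul]
      by_cases hQ : CodimOne P.I Q.I
      · rw [← idx_mul hQ.1.le]
        push_cast
        ring
      · rw [(hdiv Q).2 hQ, zero_mul, zero_mul, mul_zero]
    rw [hsc]
    refine AddSubgroup.nsmul_mem _ (AddSubgroup.subset_closure ?_) _
    exact ⟨P, g, h, e, hg, hh, hgP, hhP, hdiv'⟩
  exact h0 hc

lemma scale_box (hw : ∀ j, 0 < X.wt j) (Q : Fin N → Pt X 1) :
    scale X N (box X Q) = (∏ i, (((∏ j, X.wt j) ^ 1 / idx (Q i) : ℕ) : ℤ)) • box X Q := by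
  obtain ⟨B, hB, hbox⟩ := box_eq X Q
  rw [hbox, scale, mulFun_single, one_mul, Finsupp.smul_single, smul_eq_mul, mul_one,
    ← Nat.cast_prod]
  congr 2
  have h1 : idx B = ∏ i, idx (Q i) := idx_box X Q B hB
  have h2 : ∀ i, (∏ j, X.wt j) ^ 1 = idx (Q i) * ((∏ j, X.wt j) ^ 1 / idx (Q i)) := fun i =>
    (Nat.mul_div_cancel' (idx_dvd' hw (Q i))).symm
  have h3 : (∏ j, X.wt j) ^ N = idx B * ∏ i, ((∏ j, X.wt j) ^ 1 / idx (Q i)) := by
    rw [h1, ← Finset.prod_mul_distrib, ← Finset.prod_congr rfl fun i _ => h2 i, Finset.prod_const,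
      Finset.card_univ, Fintype.card_fin, pow_one]
  rw [h3, Nat.mul_div_cancel_left _ (Nat.pos_of_ne_zero (idx_ne_zero hw B))]

lemma unscale_box (Q : Fin N → Pt X 1) :
    unscale X N (box X Q) = (∏ i, (idx (Q i) : ℤ)) • box X Q := by
  obtain ⟨B, hB, hbox⟩ := box_eq X Q
  rw [hbox, unscale, mulFun_single, one_mul, Finsupp.smul_single, smul_eq_mul, mul_one,
    ← Nat.cast_prod]
  congr 2
  exact idx_box X Q B hB

/-- T2 -/
theorem scale_extPow (hw : ∀ j, 0 < X.wt j) (a : Cycles X 1) :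
    scale X N (extPow X a N) = extPow X (scale X 1 a) N := by
  rw [extPow_eq_sum X a a.support subset_rfl, extPow_eq_sum X (scale X 1 a) a.support
    (support_mulFun _ _), map_sum]
  refine Finset.sum_congr rfl fun Q _ => ?_
  rw [map_zsmul, scale_box hw, smul_smul, ← Finset.prod_mul_distrib]
  congr 1
  refine Finset.prod_congr rfl fun i _ => ?_
  rw [scale, mulFun_apply]

theorem unscale_extPow (a : Cycles X 1) :
    unscale X N (extPow X a N) = extPow X (unscale X 1 a) N := by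
  rw [extPow_eq_sum X a a.support subset_rfl, extPow_eq_sum X (unscale X 1 a) a.support
    (support_mulFun _ _), map_sum]
  refine Finset.sum_congr rfl fun Q _ => ?_
  rw [map_zsmul, unscale_box, smul_smul, ← Finset.prod_mul_distrib]
  congr 1
  refine Finset.prod_congr rfl fun i _ => ?_
  rw [unscale, mulFun_apply]

/-- The exterior power of `D` has a nonzero multiple rationally equivalent to zero, if this holds for
the rescaled cycle and the orders of vanishing in the homogeneous coordinate ring. -/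
theorem cl_of_ratZero (hw : ∀ j, 0 < X.wt j) {D : Cycles X 1} {M : ℕ} (hM : 1 ≤ M)
    (h : M • extPow X (unscale X 1 D) N ∈ RatZero X N) :
    ∃ M' : ℕ, 1 ≤ M' ∧ M' • extPow X D N ∈ RatEq X N := by
  have h1 := scale_mem hw h
  rw [map_nsmul, scale_extPow hw, scale_unscale hw, ← natCast_zsmul D, extPow_smul, ← Nat.cast_pow,
    natCast_zsmul, smul_smul] at h1
  exact ⟨_, Nat.mul_pos hM (pow_pos (pow_pos (Finset.prod_pos fun j _ => hw j) _) _), h1⟩

theorem ratZero_of_cl (hw : ∀ j, 0 < X.wt j) {D : Cycles X 1} {M : ℕ}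
    (h : M • extPow X D N ∈ RatEq X N) : M • extPow X (unscale X 1 D) N ∈ RatZero X N := by
  have h1 := unscale_mem hw h
  rwa [map_nsmul, unscale_extPow] at h1

omit [Fintype ι] in
lemma support_unscale (D : Cycles X N) : (unscale X N D).support ⊆ D.support :=
  support_mulFun _ _

omit [Fintype ι] in
/-- the index depends on the coordinates which vanish only -/
lemma idx_congr {P Q : Pt X N}
    (h : ∀ v, (MvPolynomial.X v : Coord ι N) ∈ P.I ↔ (MvPolynomial.X v : Coord ι N) ∈ Q.I) :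
    idx P = idx Q := by
  have h1 : degs (gr X N) P.I = degs (gr X N) Q.I := by
    rw [degs_eq, degs_eq]
    simp only [h]
  rw [idx, idx, h1]

/-- C1 -/
theorem cl_pair (hw : ∀ j, 0 < X.wt j) {C₁ C₂ : Pt X 1} (h12 : idx C₁ = idx C₂) {M : ℕ}
    (hM : 1 ≤ M)
    (h : M • extPow X (Finsupp.single C₁ 1 - Finsupp.single C₂ 1) N ∈ RatZero X N) :
    ∃ M' : ℕ, 1 ≤ M' ∧
      M' • extPow X (Finsupp.single C₁ 1 - Finsupp.single C₂ 1) N ∈ RatEq X N := by
  refine cl_of_ratZero hw hM ?_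
  have h1 : unscale X 1 (Finsupp.single C₁ 1 - Finsupp.single C₂ 1) =
      (idx C₁ : ℤ) • (Finsupp.single C₁ 1 - Finsupp.single C₂ 1) := by
    rw [map_sub, unscale, mulFun_single, mulFun_single, ← h12, smul_sub, Finsupp.smul_single,
      Finsupp.smul_single, smul_eq_mul, mul_one, one_mul]
  rw [h1, extPow_smul, smul_comm]
  exact AddSubgroup.zsmul_mem _ h _

/-- C2 -/
theorem cl_supported (hw : ∀ j, 0 < X.wt j) {C₁ C₂ : Pt X 1} {D : Cycles X 1} {M : ℕ}
    (hM : 1 ≤ M) {a b : ℤ} (h : M • unscale X 1 D -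
      (a • Finsupp.single C₁ 1 + b • Finsupp.single C₂ 1) ∈ RatZero X 1) :
    ∃ M' : ℕ, 1 ≤ M' ∧ ∃ a' b' : ℤ, M' • D -
      (a' • Finsupp.single C₁ 1 + b' • Finsupp.single C₂ 1) ∈ RatEq X 1 := by
  have h1 := scale_mem hw h
  rw [map_sub, map_nsmul, scale_unscale hw, map_add, map_zsmul, map_zsmul, smul_smul] at h1
  have hK : 0 < ∏ j, X.wt j := Finset.prod_pos fun j _ => hw j
  refine ⟨M * (∏ j, X.wt j) ^ 1, Nat.mul_pos hM (pow_pos hK 1),
    a * (((∏ j, X.wt j) ^ 1 / idx C₁ : ℕ) : ℤ), b * (((∏ j, X.wt j) ^ 1 / idx C₂ : ℕ) : ℤ), ?_⟩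
  have h2 : ∀ C : Pt X 1, scale X 1 (Finsupp.single C 1) =
      (((∏ j, X.wt j) ^ 1 / idx C : ℕ) : ℤ) • Finsupp.single C 1 := by
    intro C
    rw [scale, mulFun_single, one_mul, Finsupp.smul_single, smul_eq_mul, mul_one]
  rw [h2, h2, smul_smul, smul_smul] at h1
  exact h1

end fin

end Pool.Agent.RCH.Wt
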