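import Pool.Agent.RCH.DgDefs
import Pool.Agent.RCH.DgVer
import Pool.Agent.RCH.DgMap
import Pool.Agent.RCH.WtTr

/-!
# The degree of a curve and the multiplicity of its cone
-/

set_option autoImplicit false

open MvPolynomial Filter Topology

namespace Pool.Agent.RCH.Dg

attribute [local instance] MvPolynomial.weightedGradedAlgebra

open Pool.Agent.RCH.Wt

/-- subgroups of the group of the integers -/
lemma mem_iff_index_dvd (G : AddSubgroup ℤ) (z : ℤ) : z ∈ G ↔ (G.index : ℤ) ∣ z := by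
  obtain ⟨a, ha⟩ := Int.subgroup_cyclic G
  rw [← AddSubgroup.zmultiples_eq_closure] at ha
  rw [ha, Int.index_zmultiples, Int.mem_zmultiples_iff, Int.natAbs_dvd]

lemma mem_iff_index_dvd' (G : AddSubgroup (Fin 1 → ℤ)) (γ : Fin 1 → ℤ) :
    γ ∈ G ↔ (G.index : ℤ) ∣ γ 0 := by
  let φ : ℤ →+ (Fin 1 → ℤ) :=
    { toFun := fun z _ => z
      map_zero' := rfl
      map_add' := fun _ _ => rfl }
  have hφ : Function.Surjective φ := fun γ => ⟨γ 0, by
    funext i
    rw [Subsingleton.elim i 0]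
    rfl⟩
  have h1 : (G.comap φ).index = G.index := AddSubgroup.index_comap_of_surjective G hφ
  have h2 : γ = φ (γ 0) := by
    funext i
    rw [Subsingleton.elim i 0]
    rfl
  rw [← h1, ← mem_iff_index_dvd, AddSubgroup.mem_comap, ← h2]

variable {ι : Type} {X : WVar ι}

lemma wt1_homog {e : ℕ} {p : Coord ι 1} (h : IsWeightedHomogeneous (wt1 X) p e) :
    IsWeightedHomogeneous (X.mdeg 1) p (fun _ => e) := by
  intro d hd
  funext i
  rw [weight_mdeg X d i, h hd]

lemma submodule_eq (n : ℕ) : weightedHomogeneousSubmodule ℂ (X.mdeg 1) (fun _ => n) =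
    weightedHomogeneousSubmodule ℂ (wt1 X) n := by
  ext p
  rw [mem_weightedHomogeneousSubmodule, mem_weightedHomogeneousSubmodule]
  exact ⟨fun h => homog_iff X h, wt1_homog⟩

lemma hilb_eq (Q : Pt X 1) (n : ℕ) : hilb X Q n = gdim (wt1 X) Q.I n := by
  rw [hilb, gdim, submodule_eq]

/-- the degrees of the homogeneous elements which are not in `Q` are multiples of the index -/
lemma idx_dvd_degree (Q : Pt X 1) (m : ℕ) (a : Coord ι 1) (ha : IsWeightedHomogeneous (wt1 X) a m)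
    (haQ : a ∉ Q.I) : idx Q ∣ m := by
  have hQ := Q.prime
  have h1 : (fun i : Fin 1 => (((fun _ => m : Fin 1 → ℕ) i : ℕ) : ℤ)) ∈ degs (gr X 1) Q.I :=
    mem_degs (mem_of_homog (wt1_homog ha)) haQ
  rw [mem_iff_index_dvd'] at h1
  exact_mod_cast h1

/-- two homogeneous elements which are not in `Q` with degrees differing by the index -/
lemma exists_degree (Q : Pt X 1) : ∃ (γ : ℕ) (t₁ t₂ : Coord ι 1),
    IsWeightedHomogeneous (wt1 X) t₁ (γ + idx Q) ∧ IsWeightedHomogeneous (wt1 X) t₂ γ ∧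
    t₁ ∉ Q.I ∧ t₂ ∉ Q.I := by
  have hQ := Q.prime
  have h1 : (fun _ : Fin 1 => (idx Q : ℤ)) ∈ degs (gr X 1) Q.I := by
    rw [mem_iff_index_dvd']
    exact dvd_rfl
  obtain ⟨γ, t₁, t₂, ht₁, ht₂, h₁, h₂⟩ := exists_of_degs h1
  have h01 : t₁ ≠ 0 := fun h => h₁ (by rw [h]; exact zero_mem _)
  have h02 : t₂ ≠ 0 := fun h => h₂ (by rw [h]; exact zero_mem _)
  obtain ⟨e₁, he₁, hh₁⟩ := homog_of_mem ht₁ h01
  obtain ⟨e₂, he₂, hh₂⟩ := homog_of_mem ht₂ h02
  have h3 : e₁ 0 = e₂ 0 + idx Q := by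
    have h4 := congrFun he₁ 0
    have h5 := congrFun he₂ 0
    rw [Pi.add_apply, h5] at h4
    exact_mod_cast h4.symm
  refine ⟨e₂ 0, t₁, t₂, ?_, homog_iff X hh₂, h₁, h₂⟩
  rw [← h3]
  exact homog_iff X hh₁

variable [Fintype ι] (hw : ∀ j, 0 < X.wt j)
include hw

/-- the Hilbert function of a curve in the multiples of the product of the weights -/
theorem tendsto_hilb (Q : Pt X 1) {e : ℝ} (h : HasRk (wt1 X) Q.I 2 e) :
    Tendsto (fun n : ℕ => (hilb X Q ((∏ j, X.wt j) * n) : ℝ) / n) atTop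
      (𝓝 (((∏ j, X.wt j : ℕ) : ℝ) * (idx Q : ℝ) * e)) := by
  have hQ := Q.prime
  obtain ⟨γ, t₁, t₂, ht₁, ht₂, h₁, h₂⟩ := exists_degree Q
  have h3 := tendsto_gdim (w := wt1 X) (fun v => hw v.2) (K := ∏ j, X.wt j)
    (Finset.prod_pos fun j _ => hw j) (fun v => Finset.dvd_prod_of_mem _ (Finset.mem_univ v.2))
    (hom_pt Q) h (Nat.pos_of_ne_zero (idx_ne_zero hw Q)) (idx_dvd_degree Q) ht₁ ht₂ h₁ h₂
  refine h3.congr fun n => ?_
  rw [hilb_eq]

theorem curveDegree_eq (Q : Pt X 1) {e : ℝ} (h : HasRk (wt1 X) Q.I 2 e) :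
    curveDegree X Q = ((∏ j, X.wt j : ℕ) : ℝ) * (idx Q : ℝ) * e :=
  (tendsto_hilb hw Q h).limUnder_eq

/-- the degree of a curve is positive -/
theorem curveDegree_pos (Q : Pt X 1) {e : ℝ} (h : HasRk (wt1 X) Q.I 2 e) :
    0 < curveDegree X Q := by
  rw [curveDegree_eq hw Q h]
  have h1 : 0 < ∏ j, X.wt j := Finset.prod_pos fun j _ => hw j
  have h2 : 0 < idx Q := Nat.pos_of_ne_zero (idx_ne_zero hw Q)
  have h3 := h.1
  positivity

/-- the degree of a one-cycle, by the degree map -/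
theorem degree_eq {D : Cycles X 1} (hD : ∀ Q ∈ D.support, ∃ e : ℝ, HasRk (wt1 X) Q.I 2 e) :
    degree X D = ((∏ j, X.wt j : ℕ) : ℝ) * deg X 2 (unscale X 1 D) := by
  have h1 : deg X 2 (unscale X 1 D) = ∑ Q ∈ D.support, (D Q : ℝ) * ((idx Q : ℝ) * degPt X 2 Q) := by
    have h2 : D = D.sum Finsupp.single := (Finsupp.sum_single D).symm
    conv_lhs => rw [h2, Finsupp.sum, map_sum, map_sum]
    refine Finset.sum_congr rfl fun Q _ => ?_
    have h3 : unscale X 1 (Finsupp.single Q (D Q)) = Finsupp.single Q ((idx Q : ℤ) * D Q) := by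
      classical
      ext Q'
      rw [unscale, mulFun_apply]
      by_cases hQ : Q = Q'
      · subst hQ
        rw [Finsupp.single_eq_same, Finsupp.single_eq_same, mul_comm]
      · rw [Finsupp.single_eq_of_ne' hQ, Finsupp.single_eq_of_ne' hQ]
        simp
    rw [h3, deg_single]
    push_cast
    ring
  rw [h1, degree, Finset.mul_sum]
  refine Finset.sum_congr rfl fun Q hQ => ?_
  obtain ⟨e, he⟩ := hD Q hQ
  rw [curveDegree_eq hw Q he, degPt_eq he]
  ring

/-- **The degree is zero on one-cycles rationally equivalent to zero** (classical Chow groups). -/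
theorem deg_unscale_ratEq {D : Cycles X 1} (h : D ∈ RatEq X 1) : deg X 2 (unscale X 1 D) = 0 :=
  deg_ratZero hw (by norm_num) (unscale_mem hw h)

theorem degree_ratEq {D : Cycles X 1} (hD : ∀ Q ∈ D.support, ∃ e : ℝ, HasRk (wt1 X) Q.I 2 e)
    (h : D ∈ RatEq X 1) : degree X D = 0 := by
  rw [degree_eq hw hD, deg_unscale_ratEq hw h, mul_zero]

end Pool.Agent.RCH.Dg
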