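import Pool.Agent.RCH.WdNF

/-!
# The normal form of a general weighted form: the isomorphism and the curves
-/

set_option autoImplicit false

open MvPolynomial

namespace Pool.Agent.RCH

open Wd

/-- The ideal, in the ring of the coordinates of one point, of the curve
`a x_1 + b x_2 ^ j = x_3 = 0`, `y = r x_2 ^ n`. -/
noncomputable def weightedCurveAt (a b : ℂ) (j n : ℕ) (r : ℂ) : Ideal (Coord (Fin 5) 1) :=
  Ideal.span {inFactor 1 0 (C a * MvPolynomial.X 1 + C b * MvPolynomial.X 2 ^ j),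
    inFactor 1 0 (MvPolynomial.X 3),
    inFactor 1 0 (MvPolynomial.X 4 - C r * MvPolynomial.X 2 ^ n)}

/-- the preimage of an ideal generated by three polynomials under an automorphism -/
lemma comap_span3 (φ : MvPolynomial (Fin 5) ℂ ≃ₐ[ℂ] MvPolynomial (Fin 5) ℂ)
    (x y z : MvPolynomial (Fin 5) ℂ) :
    (Ideal.span {inFactor 1 0 x, inFactor 1 0 y, inFactor 1 0 z} :
      Ideal (Coord (Fin 5) 1)).comap (facN 1 φ) =
      (Ideal.span {φ.symm x, φ.symm y, φ.symm z}).map (inFactor 1 0) := by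
  have h := Ideal.map_comap_of_equiv
    (I := (Ideal.span {inFactor 1 0 x, inFactor 1 0 y, inFactor 1 0 z} :
      Ideal (Coord (Fin 5) 1))) (facN 1 φ).symm.toRingEquiv
  have h1 : (Ideal.span {inFactor 1 0 x, inFactor 1 0 y, inFactor 1 0 z} :
      Ideal (Coord (Fin 5) 1)).comap (facN 1 φ) =
      (Ideal.span {inFactor 1 0 x, inFactor 1 0 y, inFactor 1 0 z} :
      Ideal (Coord (Fin 5) 1)).map (facN 1 φ).symm.toRingEquiv.toRingHom := h.symm
  have h2 : ∀ p : MvPolynomial (Fin 5) ℂ,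
      (facN 1 φ).symm.toRingEquiv.toRingHom (inFactor 1 0 p) = inFactor 1 0 (φ.symm p) :=
    fun p => facHom_inFactor φ.symm.toAlgHom 0 p
  rw [h1, Ideal.map_span, Ideal.map_span]
  simp only [Set.image_insert_eq, Set.image_singleton, h2]

namespace GF

variable (G : GF)

/-- the data of the normal form -/
noncomputable def S : WD where
  N := G.N
  p := G.p
  q := G.q
  w := G.w
  m := G.m
  e := G.e
  k := G.k
  n := G.n
  j := 2 * G.m - G.w
  hN := G.hN
  hp := G.hp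
  hq := G.hq
  hw := G.hw
  hep := G.hep
  heq := G.heq
  hNe := G.hNe
  hk := G.hk
  hdeg := G.hdeg
  hn := G.hn
  hj := by
    have := G.hw2
    omega
  b := G.b2
  hb := G.b2_hom
  c := G.cc
  hc := G.cc_ne
  hbc := G.hbc
  P := G.P2
  hP := G.P2_hom

/-- the isomorphism with the normal form -/
noncomputable def iso : WIso (weightedHypersurface G.wt5 G.F) G.S.V :=
  isoOf G.wt5 G.pos5 G.ph G.ph_hom G.ph_symm_hom G.F
    (X 4 ^ 2 - rename Fin.castSucc (weightedBranch G.k G.e G.b2 G.P2)) G.ka G.ka_ne G.ph_F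

lemma iso_φ : G.iso.φ = G.ph := rfl

lemma al_sig : C (G.al⁻¹) * G.sig = X 1 - C G.lb * X 2 ^ G.j := by
  have h1 : (C (G.al⁻¹) * C G.al : MvPolynomial (Fin 5) ℂ) = 1 := by
    rw [← C_mul, inv_mul_cancel₀ G.al_ne, C_1]
  have h2 : (C (G.al⁻¹) * C G.be : MvPolynomial (Fin 5) ℂ) = - C G.lb := by
    rw [← C_mul, ← C_neg]
    congr 1
    rw [lb, neg_neg, div_eq_inv_mul]
  rw [sig]
  linear_combination X 1 * h1 + X 2 ^ G.j * h2

lemma g0_mod : rename Fin.castSucc (rename ![1, 2] G.g0 : MvPolynomial (Fin 4) ℂ) -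
    C G.ga * X 2 ^ G.n ∈ Ideal.span {G.sig} := by
  set J : Ideal (MvPolynomial (Fin 5) ℂ) := Ideal.span {G.sig} with hJ
  set f : MvPolynomial (Fin 5) ℂ →ₐ[ℂ] MvPolynomial (Fin 5) ℂ ⧸ J :=
    Ideal.Quotient.mkₐ ℂ J with hf
  have hx : f (X 1) = algebraMap ℂ _ G.lb * f (X 2) ^ G.j := by
    have h1 : f (C (G.al⁻¹) * G.sig) = 0 := by
      rw [hf, Ideal.Quotient.mkₐ_eq_mk, Ideal.Quotient.eq_zero_iff_mem]
      exact J.mul_mem_left _ (Ideal.subset_span rfl)
    rw [al_sig, map_sub, map_mul, map_pow, sub_eq_zero] at h1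
    rw [h1, ← MvPolynomial.algebraMap_eq, AlgHom.commutes]
  have h1 : f (rename Fin.castSucc (rename ![1, 2] G.g0 : MvPolynomial (Fin 4) ℂ)) =
      aeval ![f (X 1), f (X 2)] G.g0 := by
    have h2 : (f.comp (rename Fin.castSucc)).comp
        (rename ![1, 2] : MvPolynomial (Fin 2) ℂ →ₐ[ℂ] MvPolynomial (Fin 4) ℂ) =
        aeval ![f (X 1), f (X 2)] := by
      apply MvPolynomial.algHom_ext
      intro i
      rw [AlgHom.comp_apply, AlgHom.comp_apply, rename_X, rename_X, aeval_X]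
      fin_cases i <;> rfl
    exact congrArg (fun g => g G.g0) h2
  have h3 : f (rename Fin.castSucc (rename ![1, 2] G.g0 : MvPolynomial (Fin 4) ℂ) -
      C G.ga * X 2 ^ G.n) = 0 := by
    have hg : IsWeightedHomogeneous ![G.p, G.q] G.g0 (G.n * G.q) := by
      rw [G.hn]
      exact G.hg0
    rw [map_sub, h1, hx, aeval_two G.hq hg G.lb G.lb_or, map_mul, map_pow,
      ← MvPolynomial.algebraMap_eq, AlgHom.commutes, ga, sub_self]
  rw [hf, Ideal.Quotient.mkₐ_eq_mk, Ideal.Quotient.eq_zero_iff_mem] at h3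
  exact h3

lemma g4_mod : rename Fin.castSucc G.g4 - C G.ga * X 2 ^ G.n ∈
    Ideal.span {G.sig, (X 3 : MvPolynomial (Fin 5) ℂ)} := by
  have h1 : rename Fin.castSucc G.g4 - C G.ga * X 2 ^ G.n =
      (rename Fin.castSucc (rename ![1, 2] G.g0 : MvPolynomial (Fin 4) ℂ) -
        C G.ga * X 2 ^ G.n) + rename Fin.castSucc G.g1 * X 3 := by
    rw [g4, map_add, map_mul, rename_X]
    have : Fin.castSucc (3 : Fin 4) = (3 : Fin 5) := rfl
    rw [this]
    ring
  rw [h1]
  refine Ideal.add_mem _ (Ideal.span_mono (by simp) G.g0_mod) (Ideal.mul_mem_left _ _ ?_)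
  exact Ideal.subset_span (by simp)

lemma A1_symm_X {i : Fin 5} (hi : i ≠ 4) : G.A1.symm (X i) = X i := elemHom_X_of_ne hi _ _

lemma A1_symm_C (a : ℂ) : G.A1.symm (C a) = C a := elemHom_C _ _ _ _

lemma ph_symm_X {i : Fin 5} (h4 : i ≠ 4) (h1 : i ≠ 1) : G.ph.symm (X i) = X i := by
  show G.A1.symm (G.A2.symm (X i)) = X i
  have h : G.A2.symm (X i) = X i := elemHom_X_of_ne h1 _ _
  rw [h, A1_symm_X G h4]

lemma ph_symm_C (a : ℂ) : G.ph.symm (C a) = C a := by
  rw [← MvPolynomial.algebraMap_eq, AlgEquiv.commutes]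

lemma ph_symm_X1 : G.ph.symm (X 1) = C (G.sa⁻¹ * G.al⁻¹) * G.sig := by
  show G.A1.symm (G.A2.symm (X 1)) = _
  have h : G.A2.symm (X 1) = C (G.sa⁻¹) * X 1 + -(C (G.sa⁻¹) * G.t5) := elemHom_X_self _ _ _
  rw [h, t5_eq, map_add, map_neg, map_mul, map_mul, map_mul, map_pow, A1_symm_C, A1_symm_C,
    A1_symm_X G (by decide), A1_symm_X G (by decide), C_mul, mul_assoc, al_sig]
  ring

lemma ph_symm_X4 : G.ph.symm (X 4) = X 4 + C G.kh * rename Fin.castSucc G.g4 := by
  show G.A1.symm (G.A2.symm (X 4)) = _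
  have h : G.A2.symm (X 4) = X 4 := elemHom_X_of_ne (by decide) _ _
  have h1 : G.A1.symm (X 4) = C (1⁻¹ : ℂ) * X 4 + -(C (1⁻¹ : ℂ) * G.t1) := elemHom_X_self _ _ _
  rw [h, h1, t1, map_mul, rename_C, inv_one, C_1, C_neg]
  ring

/-- the ideals of the curves correspond to each other -/
lemma comap_curve (c r : ℂ) (h : c = r + G.ga * G.kh) :
    (weightedCurve G.n c).comap (facN 1 G.ph) = weightedCurveAt G.al G.be G.j G.n r := by
  rw [weightedCurve, comap_span3, weightedCurveAt]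
  have h1 : (Ideal.span {inFactor 1 0 (C G.al * X 1 + C G.be * X 2 ^ G.j), inFactor 1 0 (X 3),
      inFactor 1 0 (X 4 - C r * X 2 ^ G.n)} : Ideal (Coord (Fin 5) 1)) =
      (Ideal.span {G.sig, X 3, X 4 - C r * X 2 ^ G.n}).map (inFactor 1 0) := by
    rw [Ideal.map_span]
    simp only [Set.image_insert_eq, Set.image_singleton]
    rfl
  rw [h1]
  congr 1
  have h3 : G.ph.symm (X 3) = X 3 := ph_symm_X G (by decide) (by decide)
  have hsa : G.sa⁻¹ * G.al⁻¹ ≠ 0 := mul_ne_zero (inv_ne_zero G.sa_ne) (inv_ne_zero G.al_ne)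
  have h4 : G.ph.symm (X 4 - C c * X 2 ^ G.n) = (X 4 - C r * X 2 ^ G.n) +
      C G.kh * (rename Fin.castSucc G.g4 - C G.ga * X 2 ^ G.n) := by
    rw [map_sub, map_mul, map_pow, ph_symm_C, ph_symm_X4, ph_symm_X G (by decide) (by decide), h,
      C_add, C_mul]
    ring
  rw [ph_symm_X1, h3, h4]
  have hsub : (Ideal.span {G.sig, (X 3 : MvPolynomial (Fin 5) ℂ)}) ≤
      Ideal.span {G.sig, X 3, X 4 - C r * X 2 ^ G.n} := by
    apply Ideal.span_mono
    intro x hx
    simp only [Set.mem_insert_iff, Set.mem_singleton_iff] at hx ⊢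
    tauto
  apply le_antisymm
  · rw [Ideal.span_le]
    intro x hx
    simp only [Set.mem_insert_iff, Set.mem_singleton_iff] at hx
    rcases hx with rfl | rfl | rfl
    · exact Ideal.mul_mem_left _ _ (Ideal.subset_span (by simp))
    · exact Ideal.subset_span (by simp)
    · exact Ideal.add_mem _ (Ideal.subset_span (by simp))
        (Ideal.mul_mem_left _ _ (hsub G.g4_mod))
  · have hs : G.sig ∈ Ideal.span {C (G.sa⁻¹ * G.al⁻¹) * G.sig, X 3, X 4 - C r * X 2 ^ G.n +
        C G.kh * (rename Fin.castSucc G.g4 - C G.ga * X 2 ^ G.n)} := by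
      have h5 : G.sig = C ((G.sa⁻¹ * G.al⁻¹)⁻¹) * (C (G.sa⁻¹ * G.al⁻¹) * G.sig) := by
        rw [← mul_assoc, ← C_mul, inv_mul_cancel₀ hsa, C_1, one_mul]
      rw [h5]
      refine Ideal.mul_mem_left _ _ (Ideal.subset_span ?_)
      rw [← h5]
      simp
    have h6 : (Ideal.span {G.sig, (X 3 : MvPolynomial (Fin 5) ℂ)}) ≤
        Ideal.span {C (G.sa⁻¹ * G.al⁻¹) * G.sig, X 3, X 4 - C r * X 2 ^ G.n +
        C G.kh * (rename Fin.castSucc G.g4 - C G.ga * X 2 ^ G.n)} := by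
      rw [Ideal.span_le]
      intro x hx
      simp only [Set.mem_insert_iff, Set.mem_singleton_iff] at hx
      rcases hx with rfl | rfl
      · exact hs
      · exact Ideal.subset_span (by simp)
    rw [Ideal.span_le]
    intro x hx
    simp only [Set.mem_insert_iff, Set.mem_singleton_iff] at hx
    rcases hx with rfl | rfl | rfl
    · exact hs
    · exact Ideal.subset_span (by simp)
    · have h8 := Ideal.sub_mem _ (Ideal.subset_span (show (X 4 - C r * X 2 ^ G.n +
          C G.kh * (rename Fin.castSucc G.g4 - C G.ga * X 2 ^ G.n) : MvPolynomial (Fin 5) ℂ) ∈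
          ({C (G.sa⁻¹ * G.al⁻¹) * G.sig, X 3, X 4 - C r * X 2 ^ G.n +
        C G.kh * (rename Fin.castSucc G.g4 - C G.ga * X 2 ^ G.n)} :
          Set (MvPolynomial (Fin 5) ℂ)) by simp)) (Ideal.mul_mem_left _ (C G.kh) (h6 G.g4_mod))
      rwa [add_sub_cancel_right] at h8

/-- the preimages of the two curves of the normal form -/
theorem comap_curve1 : (weightedCurve G.S.n G.S.c).comap (facN 1 G.iso.φ) =
    weightedCurveAt G.al G.be G.j G.n G.ρ := G.comap_curve _ _ G.cc_eq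

theorem comap_curve2 : (weightedCurve G.S.n (-G.S.c)).comap (facN 1 G.iso.φ) =
    weightedCurveAt G.al G.be G.j G.n G.ρ' := G.comap_curve _ _ G.cc_eq'

end GF

end Pool.Agent.RCH
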