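import Pool.Agent.RCH.Defs

/-!
# The degree of a one-cycle on a weighted projective variety
-/

set_option autoImplicit false

open MvPolynomial Filter

namespace Pool.Agent.RCH

variable {ι : Type} (X : WVar ι)

/-- The dimension of the part of degree `n` of the homogeneous coordinate ring of the integral
subscheme `Q` of `X`. -/
noncomputable def hilb (Q : Pt X 1) (n : ℕ) : ℕ :=
  Module.finrank ℂ ((weightedHomogeneousSubmodule ℂ (X.mdeg 1) fun _ => n).map
    (Ideal.Quotient.mkₐ ℂ Q.I).toLinearMap)

variable [Fintype ι]

/-- The degree of the integral curve `Q` on `X`, with respect to the line bundle `O(K)`, where `K` is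
the product of the weights: the leading coefficient of its Hilbert polynomial, that is, the limit of
`dim (S / Q)_(K n) / n`. -/
noncomputable def curveDegree (Q : Pt X 1) : ℝ :=
  limUnder atTop fun n : ℕ => (hilb X Q ((∏ j, X.wt j) * n) : ℝ) / n

/-- The degree of a one-cycle on `X`. -/
noncomputable def degree (D : Cycles X 1) : ℝ := ∑ Q ∈ D.support, (D Q : ℝ) * curveDegree X Q

end Pool.Agent.RCH
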