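import Pool.Agent.RCH.DgSer

/-!
# Transcendence degree and primes of height one; the rank of a homogeneous prime ideal
-/

set_option autoImplicit false

open MvPolynomial Filter Topology

namespace Pool.Agent.RCH.Dg

/-- the transcendence degree over `ℂ`, as a natural number -/
noncomputable def td (A : Type) [CommRing A] [Algebra ℂ A] : ℕ :=
  Cardinal.toNat (Algebra.trdeg ℂ A)

section tr

variable {A : Type} [CommRing A] [IsDomain A] [Algebra ℂ A] [Algebra.FiniteType ℂ A]

omit [IsDomain A] in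
lemma cast_td : (td A : Cardinal) = Algebra.trdeg ℂ A :=
  Cardinal.cast_toNat_of_lt_aleph0 trdeg_lt_aleph0_of_finiteType

omit [IsDomain A] in
lemma card_le_td {ι : Type} [Fintype ι] {x : ι → A} (hx : AlgebraicIndependent ℂ x) :
    Fintype.card ι ≤ td A := by
  have h1 := hx.cardinalMk_le_trdeg
  rw [← cast_td, Cardinal.mk_fintype] at h1
  exact_mod_cast h1

lemma exists_algInd (A : Type) [CommRing A] [IsDomain A] [Algebra ℂ A] [Algebra.FiniteType ℂ A] :
    ∃ x : Fin (td A) → A, AlgebraicIndependent ℂ x := by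
  have hinj : FaithfulSMul ℂ A :=
    (faithfulSMul_iff_algebraMap_injective ℂ A).mpr (algebraMap ℂ A).injective
  obtain ⟨s, hs⟩ := exists_isTranscendenceBasis ℂ A
  have h1 : Cardinal.mk s = td A := by
    rw [cast_td]
    exact hs.cardinalMk_eq_trdeg
  obtain ⟨e⟩ := Cardinal.mk_eq_nat_iff.mp h1
  exact ⟨fun i => (e.symm i : A), hs.1.comp _ e.symm.injective⟩

lemma td_eq_of_isTranscendenceBasis {ι : Type} [Fintype ι] {x : ι → A}
    (hx : IsTranscendenceBasis ℂ x) : td A = Fintype.card ι := by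
  have h1 := hx.cardinalMk_eq_trdeg
  rw [← cast_td, Cardinal.mk_fintype] at h1
  exact_mod_cast h1.symm

instance (q : Ideal A) : Algebra.FiniteType ℂ (A ⧸ q) :=
  Algebra.FiniteType.of_surjective (Ideal.Quotient.mkₐ ℂ q) (Ideal.Quotient.mkₐ_surjective ℂ q)

/-- a proper quotient domain has smaller transcendence degree -/
theorem td_lt {q : Ideal A} [q.IsPrime] (hq : q ≠ ⊥) : td (A ⧸ q) < td A := by
  obtain ⟨y, hy⟩ := exists_algInd (A ⧸ q)
  choose x hx using fun i => Ideal.Quotient.mk_surjective (I := q) (y i)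
  have hxy : ∀ c : MvPolynomial (Fin (td (A ⧸ q))) ℂ,
      Ideal.Quotient.mk q (aeval x c) = aeval y c := by
    intro c
    have h1 : (Ideal.Quotient.mkₐ ℂ q).comp (aeval x) = aeval y := by
      apply MvPolynomial.algHom_ext
      intro i
      rw [AlgHom.comp_apply, aeval_X, aeval_X]
      exact hx i
    exact DFunLike.congr_fun h1 c
  have hxi : AlgebraicIndependent ℂ x := by
    rw [algebraicIndependent_iff]
    intro c hc
    refine (algebraicIndependent_iff.mp hy) c ?_
    rw [← hxy, hc, map_zero]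
  have hle := card_le_td hxi
  rw [Fintype.card_fin] at hle
  refine lt_of_le_of_ne hle fun heq => ?_
  have hb : IsTranscendenceBasis ℂ x := by
    refine hxi.isTranscendenceBasis_of_trdeg_le_of_finite ?_
    rw [← cast_td, Cardinal.mk_fin, heq]
  obtain ⟨z, hzq, hz⟩ := Submodule.exists_mem_ne_zero_of_ne_bot hq
  have halg : Algebra.IsAlgebraic (Algebra.adjoin ℂ (Set.range x)) A := hb.isAlgebraic
  have hne := Ideal.comap_ne_bot_of_algebraic_mem hz hzq
    (Algebra.IsAlgebraic.isAlgebraic (R := Algebra.adjoin ℂ (Set.range x)) z)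
  obtain ⟨b, hbq, hb0⟩ := Submodule.exists_mem_ne_zero_of_ne_bot hne
  obtain ⟨c, hc⟩ : ∃ c, aeval x c = (b : A) := by
    have h2 : ∀ a : A, a ∈ Algebra.adjoin ℂ (Set.range x) →
        ∃ c : MvPolynomial (Fin (td (A ⧸ q))) ℂ, aeval x c = a := by
      intro a ha
      rw [Algebra.adjoin_range_eq_range_aeval] at ha
      exact ha
    exact h2 b b.2
  have h3 : (b : A) ∈ q := hbq
  have h4 : c = 0 := by
    refine (algebraicIndependent_iff.mp hy) c ?_
    rw [← hxy, hc]
    exact Ideal.Quotient.eq_zero_iff_mem.mpr h3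
  rw [h4, map_zero] at hc
  exact hb0 (Subtype.ext hc.symm)

/-- a nonconstant polynomial involves a variable, and the others are independent modulo it -/
lemma exists_degreeOf_pos {s : ℕ} {f : MvPolynomial (Fin s) ℂ} (hf0 : f ≠ 0) (hf : ¬ IsUnit f) :
    ∃ j, 0 < degreeOf j f := by
  by_contra hcon
  push Not at hcon
  have h1 : f = C (coeff 0 f) := by
    ext d
    rw [coeff_C]
    split_ifs with hd
    · rw [hd]
    · by_contra h2
      obtain ⟨i, hi⟩ : ∃ i, d i ≠ 0 := by
        by_contra h3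
        push Not at h3
        exact hd (Finsupp.ext fun i => (h3 i).symm)
      have h4 : d i ≤ degreeOf i f := by
        rw [degreeOf_eq_sup]
        exact Finset.le_sup (f := fun m => m i) (mem_support_iff.mpr h2)
      have h5 := hcon i
      omega
  refine hf ?_
  rw [h1]
  refine (isUnit_iff_ne_zero.mpr fun h6 => hf0 ?_).map C
  rw [h1, h6, C_0]

theorem le_td_quot {q : Ideal A} [q.IsPrime] (hq : q ≠ ⊥)
    (h1 : ∀ r : Ideal A, r.IsPrime → r < q → r = ⊥) : td A ≤ td (A ⧸ q) + 1 := by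
  classical
  obtain ⟨s, g, hginj, hgint⟩ := exists_integral_inj_algHom_of_fg ℂ A
  let _ : Algebra (MvPolynomial (Fin s) ℂ) A := g.toRingHom.toAlgebra
  have hmap : algebraMap (MvPolynomial (Fin s) ℂ) A = g.toRingHom := rfl
  have : FaithfulSMul (MvPolynomial (Fin s) ℂ) A :=
    (faithfulSMul_iff_algebraMap_injective _ _).mpr hginj
  have : Algebra.IsIntegral (MvPolynomial (Fin s) ℂ) A := ⟨hgint⟩
  have : IsScalarTower ℂ (MvPolynomial (Fin s) ℂ) A :=
    IsScalarTower.of_algebraMap_eq fun c => (g.commutes c).symm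
  -- the transcendence degree of `A` is `s`
  have htd : td A = s := by
    have h3 : IsTranscendenceBasis ℂ (algebraMap (MvPolynomial (Fin s) ℂ) A ∘ X) :=
      (IsTranscendenceBasis.mvPolynomial (Fin s) ℂ).algebraMap_comp
    rw [td_eq_of_isTranscendenceBasis h3, Fintype.card_fin]
  -- the contraction of `q` is principal
  set p : Ideal (MvPolynomial (Fin s) ℂ) := q.comap (algebraMap _ A) with hp
  have hpp : p.IsPrime := Ideal.comap_isPrime _ _
  have hp0 : p ≠ ⊥ := by
    obtain ⟨z, hzq, hz⟩ := Submodule.exists_mem_ne_zero_of_ne_bot hq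
    exact Ideal.comap_ne_bot_of_integral_mem hz hzq (Algebra.IsIntegral.isIntegral z)
  have hht : ∀ p1 : Ideal (MvPolynomial (Fin s) ℂ), p1.IsPrime → p1 < p → p1 = ⊥ := by
    intro p1 hp1 hlt
    have : q.LiesOver p := ⟨rfl⟩
    obtain ⟨q1, hq1, hq1p, hq1o⟩ := Ideal.exists_ideal_lt_liesOver_of_lt q hlt
    have h5 := h1 q1 hq1p hq1
    rw [hq1o.over, h5]
    exact Ideal.comap_bot_of_injective _ hginj
  obtain ⟨f, hfp, hf⟩ := hpp.exists_mem_prime_of_ne_bot hp0
  have hpf : p = Ideal.span {f} := by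
    have h6 : Ideal.span {f} ≤ p := (Ideal.span_singleton_le_iff_mem _).mpr hfp
    rcases h6.lt_or_eq with h7 | h7
    · exfalso
      have h8 := hht _ ((Ideal.span_singleton_prime hf.ne_zero).mpr hf) h7
      exact hf.ne_zero (Ideal.span_singleton_eq_bot.mp h8)
    · exact h7.symm
  obtain ⟨j, hj⟩ := exists_degreeOf_pos hf.ne_zero hf.not_isUnit
  -- the other variables are independent
  have hind : AlgebraicIndependent ℂ
      fun i : {i : Fin s // i ≠ j} => Ideal.Quotient.mk q (g (X i.1)) := by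
    rw [algebraicIndependent_iff]
    intro c hc
    by_contra hc0
    have h9 : Ideal.Quotient.mk q (g (rename Subtype.val c)) = 0 := by
      rw [← hc]
      have h10 : (((Ideal.Quotient.mkₐ ℂ q).comp g).comp (rename Subtype.val)) =
          aeval fun i : {i : Fin s // i ≠ j} => Ideal.Quotient.mk q (g (X i.1)) := by
        apply MvPolynomial.algHom_ext
        intro i
        rw [AlgHom.comp_apply, rename_X, aeval_X]
        rfl
      exact DFunLike.congr_fun h10 c
    have h11 : rename Subtype.val c ∈ p := by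
      rw [hp, Ideal.mem_comap]
      exact Ideal.Quotient.eq_zero_iff_mem.mp h9
    rw [hpf, Ideal.mem_span_singleton] at h11
    obtain ⟨h, hh⟩ := h11
    have hr0 : rename (Subtype.val : {i : Fin s // i ≠ j} → Fin s) c ≠ 0 := fun h12 =>
      hc0 (rename_injective _ Subtype.val_injective (by rw [h12, map_zero]))
    have hh0 : h ≠ 0 := fun h12 => hr0 (by rw [hh, h12, mul_zero])
    have h13 : degreeOf j (rename (Subtype.val : {i : Fin s // i ≠ j} → Fin s) c) =
        degreeOf j f + degreeOf j h := by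
      rw [hh, degreeOf_mul_eq hf.ne_zero hh0]
    have h14 : degreeOf j (rename (Subtype.val : {i : Fin s // i ≠ j} → Fin s) c) = 0 := by
      rw [← Nat.le_zero, degreeOf_le_iff]
      intro m hm
      obtain ⟨u, hu, -⟩ := coeff_rename_ne_zero _ _ _ (mem_support_iff.mp hm)
      rw [← hu, Finsupp.mapDomain_of_notMem_range]
      rintro ⟨i, hi⟩
      exact i.2 hi
    omega
  have h15 := card_le_td hind
  rw [Fintype.card_subtype_compl, Fintype.card_fin, Fintype.card_subtype_eq] at h15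
  omega

lemma td_congr {B C : Type} [CommRing B] [CommRing C] [Algebra ℂ B] [Algebra ℂ C]
    (e : B ≃ₐ[ℂ] C) : td B = td C := by
  rw [td, td, e.trdeg_eq]

end tr

/-- the transcendence degree drops by exactly one along a step of codimension one -/
theorem td_succ {R : Type} [CommRing R] [Algebra ℂ R] [Algebra.FiniteType ℂ R] {P Q : Ideal R}
    [hP : P.IsPrime] [hQ : Q.IsPrime] (hPQ : P < Q)
    (h1 : ∀ T : Ideal R, T.IsPrime → P < T → T < Q → False) :
    td (R ⧸ P) = td (R ⧸ Q) + 1 := by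
  have : Algebra.FiniteType ℂ (R ⧸ P) :=
    Algebra.FiniteType.of_surjective (Ideal.Quotient.mkₐ ℂ P) (Ideal.Quotient.mkₐ_surjective ℂ P)
  set q : Ideal (R ⧸ P) := Q.map (Ideal.Quotient.mk P) with hq
  have hcomap : q.comap (Ideal.Quotient.mk P) = Q := by
    rw [hq, Ideal.comap_map_of_surjective _ Ideal.Quotient.mk_surjective, ← RingHom.ker,
      Ideal.mk_ker]
    exact sup_eq_left.mpr hPQ.le
  have hqp : q.IsPrime := by
    rw [hq]
    refine Ideal.map_isPrime_of_surjective Ideal.Quotient.mk_surjective ?_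
    rw [Ideal.mk_ker]
    exact hPQ.le
  have hq0 : q ≠ ⊥ := by
    intro h
    rw [h, ← RingHom.ker, Ideal.mk_ker] at hcomap
    exact hPQ.ne hcomap
  have hno : ∀ r : Ideal (R ⧸ P), r.IsPrime → r < q → r = ⊥ := by
    intro r hr hrq
    by_contra hr0
    have hrp : (r.comap (Ideal.Quotient.mk P)).IsPrime := Ideal.comap_isPrime _ _
    refine h1 _ hrp ?_ ?_
    · refine lt_of_le_of_ne ?_ fun h => hr0 ?_
      · intro x hx
        rw [Ideal.mem_comap, Ideal.Quotient.eq_zero_iff_mem.mpr hx]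
        exact r.zero_mem
      · rw [← Ideal.map_comap_of_surjective _ Ideal.Quotient.mk_surjective r, ← h]
        exact Ideal.map_quotient_self P
    · rw [← hcomap]
      refine lt_of_le_of_ne (Ideal.comap_mono hrq.le) fun h => hrq.ne ?_
      rw [← Ideal.map_comap_of_surjective _ Ideal.Quotient.mk_surjective r, h,
        Ideal.map_comap_of_surjective _ Ideal.Quotient.mk_surjective q]
  have h2 := td_lt hq0
  have h3 := le_td_quot hq0 hno
  have h4 : td ((R ⧸ P) ⧸ q) = td (R ⧸ Q) :=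
    td_congr (DoubleQuot.quotQuotEquivQuotOfLEₐ ℂ hPQ.le)
  omega

/-- the transcendence degree drops along every proper inclusion of primes -/
theorem td_lt_of_lt {R : Type} [CommRing R] [Algebra ℂ R] [Algebra.FiniteType ℂ R] {P Q : Ideal R}
    [hP : P.IsPrime] [hQ : Q.IsPrime] (hPQ : P < Q) : td (R ⧸ Q) < td (R ⧸ P) := by
  have : Algebra.FiniteType ℂ (R ⧸ P) :=
    Algebra.FiniteType.of_surjective (Ideal.Quotient.mkₐ ℂ P) (Ideal.Quotient.mkₐ_surjective ℂ P)
  set q : Ideal (R ⧸ P) := Q.map (Ideal.Quotient.mk P) with hq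
  have hcomap : q.comap (Ideal.Quotient.mk P) = Q := by
    rw [hq, Ideal.comap_map_of_surjective _ Ideal.Quotient.mk_surjective, ← RingHom.ker,
      Ideal.mk_ker]
    exact sup_eq_left.mpr hPQ.le
  have hqp : q.IsPrime := by
    rw [hq]
    refine Ideal.map_isPrime_of_surjective Ideal.Quotient.mk_surjective ?_
    rw [Ideal.mk_ker]
    exact hPQ.le
  have hq0 : q ≠ ⊥ := by
    intro h
    rw [h, ← RingHom.ker, Ideal.mk_ker] at hcomap
    exact hPQ.ne hcomap
  have h2 := td_lt hq0
  have h4 : td ((R ⧸ P) ⧸ q) = td (R ⧸ Q) :=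
    td_congr (DoubleQuot.quotQuotEquivQuotOfLEₐ ℂ hPQ.le)
  omega

/-! ## the lower growth bound -/

section low

variable {σ : Type} {w : σ → ℕ}

lemma mul_mem_Sle_add {a b : ℕ} {p q : MvPolynomial σ ℂ} (hp : p ∈ Sle w a) (hq : q ∈ Sle w b) :
    p * q ∈ Sle w (a + b) := by
  classical
  intro d hd
  rw [coeff_mul] at hd
  obtain ⟨x, hx, hx0⟩ := Finset.exists_ne_zero_of_sum_ne_zero hd
  have h1 := hp x.1 (left_ne_zero_of_mul hx0)
  have h2 := hq x.2 (right_ne_zero_of_mul hx0)
  rw [← Finset.HasAntidiagonal.mem_antidiagonal.mp hx, map_add]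
  exact add_le_add h1 h2

lemma pow_mem_Sle {a : ℕ} {p : MvPolynomial σ ℂ} (hp : p ∈ Sle w a) (k : ℕ) :
    p ^ k ∈ Sle w (k * a) := by
  induction k with
  | zero =>
    rw [pow_zero, Nat.zero_mul]
    exact one_mem_Sle 0
  | succ k ih =>
    rw [pow_succ, Nat.succ_mul]
    exact mul_mem_Sle_add ih hp

lemma prod_mem_Sle {ι : Type} (t : Finset ι) {b : ι → ℕ} {p : ι → MvPolynomial σ ℂ}
    (hp : ∀ i ∈ t, p i ∈ Sle w (b i)) : ∏ i ∈ t, p i ∈ Sle w (∑ i ∈ t, b i) := by
  classical
  induction t using Finset.induction_on with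
  | empty =>
    rw [Finset.prod_empty, Finset.sum_empty]
    exact one_mem_Sle 0
  | insert i t hi ih =>
    rw [Finset.prod_insert hi, Finset.sum_insert hi]
    exact mul_mem_Sle_add (hp i (Finset.mem_insert_self i t))
      (ih fun j hj => hp j (Finset.mem_insert_of_mem hj))

lemma Sle_mono {a b : ℕ} (hab : a ≤ b) : Sle w a ≤ Sle w b :=
  fun _ hp d hd => (hp d hd).trans hab

lemma exists_mem_Sle (p : MvPolynomial σ ℂ) : ∃ n, p ∈ Sle w n := by
  refine ⟨p.support.sup (Finsupp.weight w), fun d hd => ?_⟩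
  exact Finset.le_sup (mem_support_iff.mpr hd)

variable [Finite σ] (hw : ∀ i, 0 < w i)
include hw

lemma card_le_H {P : Ideal (MvPolynomial σ ℂ)} {n : ℕ} {ι : Type} [Fintype ι]
    (v : ι → MvPolynomial σ ℂ) (hv : ∀ i, v i ∈ Sle w n)
    (hli : LinearIndependent ℂ fun i => (Ideal.Quotient.mk P (v i) : MvPolynomial σ ℂ ⧸ P)) :
    Fintype.card ι ≤ H w P n := by
  have := finite_Sle hw n
  let ψ : (Sle w n ⧸ Ile w P n) →ₗ[ℂ] (MvPolynomial σ ℂ ⧸ P) :=
    Submodule.liftQ _ ((Ideal.Quotient.mkₐ ℂ P).toLinearMap.comp (Sle w n).subtype)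
      fun p hp => Ideal.Quotient.eq_zero_iff_mem.mpr hp
  have h1 : LinearIndependent ℂ fun i : ι =>
      (Submodule.Quotient.mk ⟨v i, hv i⟩ : Sle w n ⧸ Ile w P n) :=
    LinearIndependent.of_comp ψ hli
  exact h1.fintype_card_le_finrank

/-- the Hilbert function grows at least like the power given by the transcendence degree -/
theorem le_H_prime {P : Ideal (MvPolynomial σ ℂ)} [hP : P.IsPrime] :
    ∃ E : ℕ, 0 < E ∧ ∀ n : ℕ, (n / E + 1) ^ td (MvPolynomial σ ℂ ⧸ P) ≤ H w P n := by
  classical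
  obtain ⟨s, hs, x, hx⟩ : ∃ s : ℕ, td (MvPolynomial σ ℂ ⧸ P) = s ∧
      ∃ x : Fin s → MvPolynomial σ ℂ ⧸ P, AlgebraicIndependent ℂ x :=
    ⟨_, rfl, exists_algInd (MvPolynomial σ ℂ ⧸ P)⟩
  rw [hs]
  choose y hy using fun i => Ideal.Quotient.mk_surjective (I := P) (x i)
  choose D hD using fun i => exists_mem_Sle (w := w) (y i)
  refine ⟨∑ i, D i + 1, Nat.succ_pos _, fun n => ?_⟩
  set E := ∑ i, D i + 1 with hE
  set m := n / E with hm
  have h1 : Fintype.card (Fin s → Fin (m + 1)) = (m + 1) ^ s := by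
    rw [Fintype.card_fun, Fintype.card_fin, Fintype.card_fin]
  rw [← h1]
  refine card_le_H hw (fun e => ∏ i, y i ^ (e i : ℕ)) ?_ ?_
  · intro e
    refine Sle_mono ?_ (prod_mem_Sle Finset.univ (b := fun i => (e i : ℕ) * D i)
      fun i _ => pow_mem_Sle (hD i) _)
    calc ∑ i, (e i : ℕ) * D i ≤ ∑ i, m * D i :=
          Finset.sum_le_sum fun i _ => Nat.mul_le_mul_right _ (Nat.lt_succ_iff.mp (e i).2)
      _ = m * ∑ i, D i := (Finset.mul_sum _ _ _).symm
      _ ≤ m * E := Nat.mul_le_mul_left _ (Nat.le_succ _)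
      _ ≤ n := Nat.div_mul_le_self n E
  · have h2 : LinearIndependent ℂ fun e : Fin s → Fin (m + 1) =>
        (monomial (Finsupp.equivFunOnFinite.symm fun i => (e i : ℕ)) (1 : ℂ) :
          MvPolynomial (Fin s) ℂ) := by
      refine (basisMonomials (Fin s) ℂ).linearIndependent.comp
        (fun e : Fin s → Fin (m + 1) => Finsupp.equivFunOnFinite.symm fun i => (e i : ℕ)) ?_
      intro e f hef
      funext i
      have h3 := DFunLike.congr_fun hef i
      exact Fin.ext h3
    have h4 := h2.map' (aeval x).toLinearMap (LinearMap.ker_eq_bot.mpr hx)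
    have h5 : (fun e : Fin s → Fin (m + 1) => Ideal.Quotient.mk P (∏ i, y i ^ (e i : ℕ))) =
        ((aeval x).toLinearMap ∘ fun e : Fin s → Fin (m + 1) =>
          (monomial (Finsupp.equivFunOnFinite.symm fun i => (e i : ℕ)) (1 : ℂ) :
            MvPolynomial (Fin s) ℂ)) := ?_
    · rw [h5]
      exact h4
    funext e
    rw [Function.comp_apply, AlgHom.toLinearMap_apply, aeval_monomial, map_one, one_mul, map_prod,
      Finsupp.prod_fintype _ _ fun i => pow_zero _]
    refine Finset.prod_congr rfl fun i _ => ?_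
    rw [map_pow, hy i]
    rfl

/-! ## the rank of a homogeneous prime ideal is its transcendence degree -/

omit [Finite σ] in
lemma sup_span_X_ne_top {P : Ideal (MvPolynomial σ ℂ)} (ht : P ≠ ⊤) (hP : Hom w P) (i : σ) :
    P ⊔ Ideal.span {X i} ≠ ⊤ := by
  intro h
  have h1 : (1 : MvPolynomial σ ℂ) ∈ P ⊔ Ideal.span {X i} := by
    rw [h]
    exact Submodule.mem_top
  obtain ⟨p, hp, j, hj, hpj⟩ := Submodule.mem_sup.mp h1
  obtain ⟨r, rfl⟩ := Ideal.mem_span_singleton.mp hj
  have h2 := congrArg (weightedHomogeneousComponent w 0) hpj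
  rw [map_add, comp_mul_hom_zero (isWeightedHomogeneous_X ℂ w i) r (hw i), add_zero,
    (isWeightedHomogeneous_one ℂ w).weightedHomogeneousComponent_same] at h2
  have h3 := hP p hp 0
  rw [h2] at h3
  exact ht ((Ideal.eq_top_iff_one P).mpr h3)

theorem td_le_rk {P : Ideal (MvPolynomial σ ℂ)} [hp : P.IsPrime] (hP : Hom w P) :
    td (MvPolynomial σ ℂ ⧸ P) ≤ rk w P := by
  obtain ⟨E, hE, h⟩ := le_H_prime hw (P := P)
  have hE' : (0 : ℝ) < E := by exact_mod_cast hE
  refine le_rk hw hP hp.ne_top (c := (1 / (E : ℝ)) ^ td (MvPolynomial σ ℂ ⧸ P))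
    (pow_pos (div_pos one_pos hE') _) (n₀ := 0) fun n _ => ?_
  have h1 : ((n / E + 1 : ℕ) : ℝ) ^ td (MvPolynomial σ ℂ ⧸ P) ≤ H w P n := by
    exact_mod_cast h n
  refine le_trans ?_ h1
  rw [← mul_pow]
  refine pow_le_pow_left₀ (by positivity) ?_ _
  have h2 : n < (n / E + 1) * E := by
    have := Nat.lt_mul_div_succ n hE
    rw [mul_comm]
    exact this
  have h3 : (n : ℝ) < ((n / E + 1 : ℕ) : ℝ) * E := by exact_mod_cast h2
  rw [one_div, inv_mul_eq_div, div_le_iff₀ hE']
  exact h3.le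

theorem rk_le_td : ∀ (k : ℕ) (P : Ideal (MvPolynomial σ ℂ)), P.IsPrime → Hom w P →
    td (MvPolynomial σ ℂ ⧸ P) ≤ k → rk w P ≤ td (MvPolynomial σ ℂ ⧸ P) := by
  intro k
  induction k with
  | zero =>
    intro P hp hP hk
    by_cases hX : ∀ i, X i ∈ P
    · rw [HasRk.zero_of_X hw hp.ne_top hX (hasRk hw hP hp.ne_top)]
      exact Nat.zero_le _
    · exfalso
      push Not at hX
      obtain ⟨i, hi⟩ := hX
      have ht := sup_span_X_ne_top hw hp.ne_top hP i
      obtain ⟨Q, hQ, hQh, hle, -⟩ := exists_prime_rk hw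
        (hom_sup hP (isWeightedHomogeneous_X ℂ w i)) ht
      have hlt : P < Q := lt_of_le_of_ne (le_sup_left.trans hle) fun h =>
        hi (h ▸ hle (Submodule.mem_sup_right (Ideal.mem_span_singleton_self _)))
      have := td_lt_of_lt hlt
      omega
  | succ k ih =>
    intro P hp hP hk
    by_cases hX : ∀ i, X i ∈ P
    · rw [HasRk.zero_of_X hw hp.ne_top hX (hasRk hw hP hp.ne_top)]
      exact Nat.zero_le _
    · push Not at hX
      obtain ⟨i, hi⟩ := hX
      have ht := sup_span_X_ne_top hw hp.ne_top hP i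
      obtain ⟨Q, hQ, hQh, hle, hrk⟩ := exists_prime_rk hw
        (hom_sup hP (isWeightedHomogeneous_X ℂ w i)) ht
      have hlt : P < Q := lt_of_le_of_ne (le_sup_left.trans hle) fun h =>
        hi (h ▸ hle (Submodule.mem_sup_right (Ideal.mem_span_singleton_self _)))
      have h1 := td_lt_of_lt hlt
      have h2 := ih Q hQ hQh (by omega)
      have h3 := rk_add_one hw hP (hw i) (isWeightedHomogeneous_X ℂ w i) hi ht
      omega

/-- the rank of a homogeneous prime ideal is the transcendence degree of the quotient -/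
theorem rk_eq_td {P : Ideal (MvPolynomial σ ℂ)} [hp : P.IsPrime] (hP : Hom w P) :
    rk w P = td (MvPolynomial σ ℂ ⧸ P) :=
  le_antisymm (rk_le_td hw _ P hp hP le_rfl) (td_le_rk hw hP)

/-- the rank drops by exactly one along a step of codimension one -/
theorem rk_succ {P Q : Ideal (MvPolynomial σ ℂ)} (hP : P.IsPrime) (hQ : Q.IsPrime)
    (hPh : Hom w P) (hQh : Hom w Q) (h : P < Q)
    (hc : ∀ L : Ideal (MvPolynomial σ ℂ), L.IsPrime → P ≤ L → L < Q → L = P) {r r' : ℕ}
    {e e' : ℝ} (h1 : HasRk w P r e) (h2 : HasRk w Q r' e') : r = r' + 1 := by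
  have h3 := td_succ h fun T hT hPT hTQ => hPT.ne (hc T hT hPT.le hTQ).symm
  rw [← rk_eq_td hw hPh, ← rk_eq_td hw hQh, h1.rk_eq, h2.rk_eq] at h3
  exact h3

end low

end Pool.Agent.RCH.Dg
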