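import Pool.Agent.RCH.DgMap
import Pool.Agent.RCH.DgIso
import Pool.Agent.RCH.WtTr

/-!
# The degree and rational equivalence with the orders in the local rings
-/

set_option autoImplicit false

open MvPolynomial Filter Topology

namespace Pool.Agent.RCH.Dg

variable {ι : Type} {X : WVar ι}

section lims

/-- the degree is computed by any limit -/
theorem degPt_of_tendsto [Finite ι] (hw : ∀ j, 0 < X.wt j) {r : ℕ} {Q : Pt X 1} {δ : ℝ}
    (h : Tendsto (fun t : ℝ => (1 - t) ^ (r + 1) * PS (wt1 X) Q.I t) (𝓝[<] 1) (𝓝 δ)) :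
    degPt X r Q = δ := by
  have hP := Q.prime
  have hw' : ∀ v : Fin 1 × ι, 0 < wt1 X v := fun v => hw v.2
  obtain ⟨s, ε, hs⟩ := exists_hasRk hw' (hom_pt Q) hP.ne_top
  by_cases hsr : s = r
  · subst hsr
    rw [degPt_eq hs]
    exact tendsto_nhds_unique hs.2 h
  · have h1 : degPt X r Q = 0 := by
      by_contra h2
      obtain ⟨e, he⟩ := exists_of_degPt_ne h2
      exact hsr (HasRk.unique hs he).1
    rw [h1]
    rcases lt_or_gt_of_ne hsr with hlt | hgt
    · exact Lim.unique (Lim.of_lt hs.2 (show s + 1 < r + 1 by omega)) h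
    · exfalso
      have h2 : Lim (H (wt1 X) Q.I) (s + 1) 0 :=
        Lim.of_lt (k := r + 1) h (show r + 1 < s + 1 by omega)
      have h3 := Lim.unique hs.2 h2
      exact absurd h3 hs.1.ne'

end lims

section eqs

variable [Fintype ι] (hw : ∀ j, 0 < X.wt j)
include hw

/-- **The degree is zero on cycles rationally equivalent to zero**, the orders of vanishing being
computed in the local rings; the coefficient of `Q` is multiplied by the index of `Q`. -/
theorem deg_ratEq {r : ℕ} (hr : 1 ≤ r) {x : Cycles X 1} (hx : x ∈ RatEq X 1) :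
    deg X r (Wt.unscale X 1 x) = 0 :=
  deg_ratZero hw hr (Wt.unscale_mem hw hx)

omit [Fintype ι] hw in
lemma deg_unscale_single {r : ℕ} (Q : Pt X 1) (n : ℤ) :
    deg X r (Wt.unscale X 1 (Finsupp.single Q n)) = n * (Wt.idx Q * degPt X r Q) := by
  rw [Wt.unscale, Wt.mulFun_single, deg_single]
  push_cast
  ring

omit [Fintype ι] hw in
lemma deg_unscale {r : ℕ} (D : Cycles X 1) :
    deg X r (Wt.unscale X 1 D) = ∑ Q ∈ D.support, (D Q : ℝ) * (Wt.idx Q * degPt X r Q) := by
  induction D using Finsupp.induction_linear with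
  | zero => simp
  | add a b ha hb =>
    classical
    have h1 : ∀ E : Cycles X 1, E.support ⊆ a.support ∪ b.support →
        ∑ Q ∈ E.support, (E Q : ℝ) * (Wt.idx Q * degPt X r Q) =
          ∑ Q ∈ a.support ∪ b.support, (E Q : ℝ) * (Wt.idx Q * degPt X r Q) := by
      intro E hE
      refine Finset.sum_subset hE fun Q _ hQ => ?_
      rw [Finsupp.notMem_support_iff.mp hQ, Int.cast_zero, zero_mul]
    rw [map_add, map_add, ha, hb, h1 a Finset.subset_union_left, h1 b Finset.subset_union_right,
      h1 (a + b) Finsupp.support_add, ← Finset.sum_add_distrib]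
    refine Finset.sum_congr rfl fun Q _ => ?_
    rw [Finsupp.add_apply]
    push_cast
    ring
  | single Q n =>
    rw [deg_unscale_single]
    by_cases hn : n = 0
    · subst hn
      simp
    · rw [Finsupp.support_single_ne_zero _ hn, Finset.sum_singleton, Finsupp.single_eq_same]

/-- the degree is a class map for which two integral curves of the same degree have the same class,
of infinite order -/
theorem class_map {r : ℕ} (hr : 1 ≤ r) {C₁ C₂ : Pt X 1} (h12 : Wt.idx C₁ = Wt.idx C₂)
    (h : degPt X r C₁ = degPt X r C₂ ∧ 0 < degPt X r C₁) :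
    (∀ x ∈ RatEq X 1, (deg X r).comp (Wt.unscale X 1) x = 0) ∧
    (deg X r).comp (Wt.unscale X 1) (Finsupp.single C₁ 1) =
      (deg X r).comp (Wt.unscale X 1) (Finsupp.single C₂ 1) ∧
    ∀ n : ℤ, n • (deg X r).comp (Wt.unscale X 1) (Finsupp.single C₁ 1) = 0 → n = 0 := by
  refine ⟨fun x hx => deg_ratEq hw hr hx, ?_, fun n hn => ?_⟩
  · rw [AddMonoidHom.comp_apply, AddMonoidHom.comp_apply, deg_unscale_single, deg_unscale_single,
      h12, h.1]
  · rw [AddMonoidHom.comp_apply, deg_unscale_single, zsmul_eq_mul, Int.cast_one, one_mul] at hn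
    have h1 : (0 : ℝ) < Wt.idx C₁ := by
      exact_mod_cast Nat.pos_of_ne_zero (Wt.idx_ne_zero hw C₁)
    rcases mul_eq_zero.mp hn with h2 | h2
    · exact_mod_cast h2
    · exact absurd h2 (mul_pos h1 h.2).ne'

end eqs

end Pool.Agent.RCH.Dg
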