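import Mathlib

/-!
# The Hilbert function of a weighted homogeneous ideal
-/

set_option autoImplicit false

open MvPolynomial

namespace Pool.Agent.RCH.Dg

variable {σ : Type} (w : σ → ℕ)

/-- the polynomials with all monomials of weight at most `n` -/
def Sle (n : ℕ) : Submodule ℂ (MvPolynomial σ ℂ) where
  carrier := {p | ∀ d, coeff d p ≠ 0 → Finsupp.weight w d ≤ n}
  add_mem' := by
    intro p q hp hq d hd
    by_cases h : coeff d p = 0
    · refine hq d fun h2 => hd ?_
      rw [coeff_add, h, h2, add_zero]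
    · exact hp d h
  zero_mem' := fun d hd => absurd (coeff_zero d) hd
  smul_mem' := by
    intro c p hp d hd
    refine hp d fun h => hd ?_
    rw [coeff_smul, h, smul_zero]

/-- the part of `I` in weights at most `n` -/
noncomputable def Ile (I : Ideal (MvPolynomial σ ℂ)) (n : ℕ) : Submodule ℂ (Sle w n) :=
  (I.restrictScalars ℂ).comap (Sle w n).subtype

/-- the Hilbert function: the dimension of the polynomials of weight at most `n` modulo `I` -/
noncomputable def H (I : Ideal (MvPolynomial σ ℂ)) (n : ℕ) : ℕ :=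
  Module.finrank ℂ (Sle w n ⧸ Ile w I n)

/-- the ideal is weighted homogeneous -/
def Hom (I : Ideal (MvPolynomial σ ℂ)) : Prop :=
  ∀ p ∈ I, ∀ n : ℕ, weightedHomogeneousComponent w n p ∈ I

/-- the ideal quotient `I : a` -/
noncomputable def col (I : Ideal (MvPolynomial σ ℂ)) (a : MvPolynomial σ ℂ) :
    Ideal (MvPolynomial σ ℂ) := Submodule.comap (LinearMap.mulLeft (MvPolynomial σ ℂ) a) I

variable {w}

omit w in
lemma mem_col {I : Ideal (MvPolynomial σ ℂ)} {a x : MvPolynomial σ ℂ} :
    x ∈ col I a ↔ a * x ∈ I := Iff.rfl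

omit w in
lemma le_col (I : Ideal (MvPolynomial σ ℂ)) (a : MvPolynomial σ ℂ) : I ≤ col I a :=
  fun _ hx => I.mul_mem_left _ hx

omit w in
lemma col_prime {P : Ideal (MvPolynomial σ ℂ)} [P.IsPrime] {a : MvPolynomial σ ℂ} (ha : a ∉ P) :
    col P a = P :=
  le_antisymm (fun _ hx => (Ideal.IsPrime.mem_or_mem ‹_› hx).resolve_left ha) (le_col P a)


/-! ## truncation -/

/-- the part of a polynomial in weights at most `n` -/
noncomputable def trunc (w : σ → ℕ) (n : ℕ) (p : MvPolynomial σ ℂ) : MvPolynomial σ ℂ :=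
  ∑ k ∈ Finset.range (n + 1), weightedHomogeneousComponent w k p

lemma coeff_trunc (n : ℕ) (p : MvPolynomial σ ℂ) (d : σ →₀ ℕ) :
    coeff d (trunc w n p) = if Finsupp.weight w d ≤ n then coeff d p else 0 := by
  rw [trunc, coeff_sum]
  simp_rw [coeff_weightedHomogeneousComponent]
  rw [Finset.sum_ite_eq]
  simp only [Finset.mem_range, Nat.lt_succ_iff]

lemma trunc_add (n : ℕ) (p q : MvPolynomial σ ℂ) :
    trunc w n (p + q) = trunc w n p + trunc w n q := by
  ext d
  rw [coeff_add, coeff_trunc, coeff_trunc, coeff_trunc, coeff_add]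
  split_ifs
  · rfl
  · rw [add_zero]

lemma trunc_mem (n : ℕ) (p : MvPolynomial σ ℂ) : trunc w n p ∈ Sle w n := by
  intro d hd
  rw [coeff_trunc] at hd
  by_contra h
  exact hd (if_neg h)

lemma trunc_of_mem {n : ℕ} {p : MvPolynomial σ ℂ} (hp : p ∈ Sle w n) : trunc w n p = p := by
  ext d
  rw [coeff_trunc]
  split_ifs with h
  · rfl
  · by_contra h2
    exact h (hp d (Ne.symm h2))

lemma trunc_mem_ideal {I : Ideal (MvPolynomial σ ℂ)} (hI : Hom w I) {p : MvPolynomial σ ℂ}
    (hp : p ∈ I) (n : ℕ) : trunc w n p ∈ I :=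
  I.sum_mem fun k _ => hI p hp k

/-- a component of a product with a homogeneous factor -/
lemma comp_mul_hom {a : MvPolynomial σ ℂ} {d : ℕ} (ha : IsWeightedHomogeneous w a d)
    (r : MvPolynomial σ ℂ) (k : ℕ) :
    weightedHomogeneousComponent w (k + d) (a * r) = a * weightedHomogeneousComponent w k r := by
  classical
  have key : ∀ j : ℕ, weightedHomogeneousComponent w (k + d)
      (a * weightedHomogeneousComponent w j r) = if j = k then
        a * weightedHomogeneousComponent w j r else 0 := by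
    intro j
    have h1 : a * weightedHomogeneousComponent w j r ∈
        weightedHomogeneousSubmodule ℂ w (d + j) :=
      ha.mul (weightedHomogeneousComponent_isWeightedHomogeneous j r)
    rw [weightedHomogeneousComponent_of_mem h1]
    by_cases hj : j = k
    · rw [if_pos hj, if_pos (by omega)]
    · rw [if_neg hj, if_neg (by omega)]
  have h2 : r = ∑ᶠ j : ℕ, weightedHomogeneousComponent w j r :=
    (sum_weightedHomogeneousComponent w r).symm
  have hfin : (Function.support fun j : ℕ => weightedHomogeneousComponent w j r).Finite :=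
    weightedHomogeneousComponent_finsupp r
  have h3 : r = ∑ j ∈ hfin.toFinset, weightedHomogeneousComponent w j r := by
    conv_lhs => rw [h2]
    exact finsum_eq_sum _ hfin
  conv_lhs => rw [h3]
  rw [Finset.mul_sum, map_sum, Finset.sum_congr rfl fun j _ => key j, Finset.sum_ite_eq']
  split_ifs with h
  · rfl
  · have h4 : weightedHomogeneousComponent w k r = 0 := by
      by_contra h5
      exact h (hfin.mem_toFinset.mpr h5)
    rw [h4, mul_zero]

/-- a low component of a product with a homogeneous factor vanishes -/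
lemma comp_mul_hom_zero {a : MvPolynomial σ ℂ} {d : ℕ} (ha : IsWeightedHomogeneous w a d)
    (r : MvPolynomial σ ℂ) {k : ℕ} (hk : k < d) :
    weightedHomogeneousComponent w k (a * r) = 0 := by
  classical
  have hfin : (Function.support fun j : ℕ => weightedHomogeneousComponent w j r).Finite :=
    weightedHomogeneousComponent_finsupp r
  have h3 : r = ∑ j ∈ hfin.toFinset, weightedHomogeneousComponent w j r := by
    conv_lhs => rw [(sum_weightedHomogeneousComponent w r).symm]
    exact finsum_eq_sum _ hfin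
  rw [h3, Finset.mul_sum, map_sum]
  refine Finset.sum_eq_zero fun j _ => ?_
  have h1 : a * weightedHomogeneousComponent w j r ∈ weightedHomogeneousSubmodule ℂ w (d + j) :=
    ha.mul (weightedHomogeneousComponent_isWeightedHomogeneous j r)
  rw [weightedHomogeneousComponent_of_mem h1, if_neg (by omega)]

lemma trunc_mul {a : MvPolynomial σ ℂ} {d : ℕ} (ha : IsWeightedHomogeneous w a d) (n : ℕ)
    (r : MvPolynomial σ ℂ) : trunc w (n + d) (a * r) = a * trunc w n r := by
  rw [trunc, trunc, Finset.mul_sum]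
  have h1 : n + d + 1 = d + (n + 1) := by omega
  rw [h1, Finset.sum_range_add, Finset.sum_eq_zero, zero_add]
  · refine Finset.sum_congr rfl fun k _ => ?_
    rw [add_comm d k]
    exact comp_mul_hom ha r k
  · intro k hk
    exact comp_mul_hom_zero ha r (Finset.mem_range.mp hk)

lemma trunc_mul_zero {a : MvPolynomial σ ℂ} {d : ℕ} (ha : IsWeightedHomogeneous w a d) {n : ℕ}
    (hn : n < d) (r : MvPolynomial σ ℂ) : trunc w n (a * r) = 0 := by
  rw [trunc]
  refine Finset.sum_eq_zero fun k hk => ?_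
  exact comp_mul_hom_zero ha r (by have := Finset.mem_range.mp hk; omega)

lemma mul_mem_Sle {a : MvPolynomial σ ℂ} {d : ℕ} (ha : IsWeightedHomogeneous w a d) {n : ℕ}
    {r : MvPolynomial σ ℂ} (hr : r ∈ Sle w n) : a * r ∈ Sle w (n + d) := by
  have h1 := trunc_mul ha n r
  rw [trunc_of_mem hr] at h1
  rw [← h1]
  exact trunc_mem _ _

/-! ## homogeneous ideals -/

theorem hom_col {I : Ideal (MvPolynomial σ ℂ)} (hI : Hom w I) {a : MvPolynomial σ ℂ} {d : ℕ}
    (ha : IsWeightedHomogeneous w a d) : Hom w (col I a) := by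
  intro p hp n
  rw [mem_col, ← comp_mul_hom ha]
  exact hI _ hp _

theorem hom_sup {I : Ideal (MvPolynomial σ ℂ)} (hI : Hom w I) {a : MvPolynomial σ ℂ} {d : ℕ}
    (ha : IsWeightedHomogeneous w a d) : Hom w (I ⊔ Ideal.span {a}) := by
  intro p hp n
  obtain ⟨i, hi, j, hj, rfl⟩ := Submodule.mem_sup.mp hp
  obtain ⟨r, rfl⟩ := Ideal.mem_span_singleton.mp hj
  rw [map_add]
  refine Ideal.add_mem _ (Submodule.mem_sup_left (hI i hi n)) (Submodule.mem_sup_right ?_)
  rw [Ideal.mem_span_singleton]
  rcases Nat.lt_or_ge n d with hn | hn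
  · rw [comp_mul_hom_zero ha r hn]
    exact dvd_zero a
  · obtain ⟨k, rfl⟩ := Nat.exists_eq_add_of_le' hn
    rw [comp_mul_hom ha r k]
    exact Dvd.intro _ rfl

attribute [local instance] MvPolynomial.weightedGradedAlgebra in
/-- if a weighted homogeneous ideal is not prime and not the unit ideal, this is seen on homogeneous
elements -/
theorem exists_homog_of_not_prime [Finite σ] {I : Ideal (MvPolynomial σ ℂ)} (hI : Hom w I)
    (hp : ¬ I.IsPrime) (ht : I ≠ ⊤) : ∃ (a b : MvPolynomial σ ℂ) (d e : ℕ),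
      IsWeightedHomogeneous w a d ∧ IsWeightedHomogeneous w b e ∧ a ∉ I ∧ b ∉ I ∧ a * b ∈ I := by
  classical
  let _ := MvPolynomial.weightedGradedAlgebra ℂ w
  have hI' : I.IsHomogeneous (weightedHomogeneousSubmodule ℂ w) := by
    intro n p hp
    have h1 := hI p hp n
    rw [← weightedDecomposition.decompose'_apply ℂ w p n] at h1
    exact h1
  by_contra hcon
  push Not at hcon
  refine hp (hI'.isPrime_of_homogeneous_mem_or_mem ht ?_)
  rintro a b ⟨d, ha⟩ ⟨e, hb⟩ hab
  by_contra h
  push Not at h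
  exact hcon a b d e ha hb h.1 h.2 hab

section fin

variable [Finite σ] (hw : ∀ i, 0 < w i)
include hw

/-- the exponents of weight at most `n` are finite in number -/
lemma finite_wt (n : ℕ) : {d : σ →₀ ℕ | Finsupp.weight w d ≤ n}.Finite :=
  Finsupp.finite_of_nat_weight_le w (fun i => (hw i).ne') n

omit hw [Finite σ] in
lemma Sle_eq (n : ℕ) : Sle w n = restrictSupport ℂ {d : σ →₀ ℕ | Finsupp.weight w d ≤ n} := by
  ext p
  rw [mem_restrictSupport_iff]
  constructor
  · intro hp d hd
    exact hp d (mem_support_iff.mp hd)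
  · intro hp d hd
    exact hp (mem_support_iff.mpr hd)

theorem finite_Sle (n : ℕ) : Module.Finite ℂ (Sle w n) := by
  rw [Sle_eq]
  have := (finite_wt hw n).to_subtype
  exact Module.Finite.of_basis (basisRestrictSupport ℂ _)

/-- (A) the exact sequence of multiplication by a homogeneous element -/
theorem H_add {I : Ideal (MvPolynomial σ ℂ)} (hI : Hom w I) {a : MvPolynomial σ ℂ} {d : ℕ}
    (ha : IsWeightedHomogeneous w a d) (n : ℕ) :
    H w I (n + d) = H w (col I a) n + H w (I ⊔ Ideal.span {a}) (n + d) := by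
  have := finite_Sle hw n
  have := finite_Sle hw (n + d)
  -- multiplication by `a`
  let m : Sle w n →ₗ[ℂ] Sle w (n + d) :=
    (LinearMap.mulLeft ℂ a).restrict fun r hr => mul_mem_Sle ha hr
  have hm : ∀ r : Sle w n, ((m r : Sle w (n + d)) : MvPolynomial σ ℂ) = a * r := fun r => rfl
  let f : (Sle w n ⧸ Ile w (col I a) n) →ₗ[ℂ] (Sle w (n + d) ⧸ Ile w I (n + d)) :=
    Submodule.mapQ _ _ m fun r hr => hr
  have hf : Function.Injective f := by
    rw [← LinearMap.ker_eq_bot, LinearMap.ker_eq_bot']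
    intro x hx
    obtain ⟨r, rfl⟩ := Submodule.Quotient.mk_surjective _ x
    have hx' : (Submodule.Quotient.mk (m r) : Sle w (n + d) ⧸ Ile w I (n + d)) = 0 := hx
    rw [Submodule.Quotient.mk_eq_zero] at hx' ⊢
    exact hx'
  let g : (Sle w (n + d) ⧸ Ile w I (n + d)) →ₗ[ℂ]
      (Sle w (n + d) ⧸ Ile w (I ⊔ Ideal.span {a}) (n + d)) :=
    Submodule.mapQ _ _ LinearMap.id fun r hr =>
      (Submodule.mem_sup_left hr : (r : MvPolynomial σ ℂ) ∈ I ⊔ Ideal.span {a})
  have hg : Function.Surjective g := by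
    intro x
    obtain ⟨r, rfl⟩ := Submodule.Quotient.mk_surjective _ x
    exact ⟨Submodule.Quotient.mk r, rfl⟩
  have hker : LinearMap.ker g = LinearMap.range f := by
    ext x
    obtain ⟨p, rfl⟩ := Submodule.Quotient.mk_surjective _ x
    rw [LinearMap.mem_ker]
    constructor
    · intro hx
      have hx' : (Submodule.Quotient.mk p :
        Sle w (n + d) ⧸ Ile w (I ⊔ Ideal.span {a}) (n + d)) = 0 := hx
      rw [Submodule.Quotient.mk_eq_zero] at hx'
      have h1 : (p : MvPolynomial σ ℂ) ∈ I ⊔ Ideal.span {a} := hx'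
      obtain ⟨i, hi, j, hj, hij⟩ := Submodule.mem_sup.mp h1
      obtain ⟨r, rfl⟩ := Ideal.mem_span_singleton.mp hj
      refine ⟨Submodule.Quotient.mk ⟨trunc w n r, trunc_mem n r⟩, ?_⟩
      refine (Submodule.Quotient.eq _).mpr ?_
      have h2 : (p : MvPolynomial σ ℂ) = trunc w (n + d) i + a * trunc w n r := by
        rw [← trunc_mul ha, ← trunc_add, hij, trunc_of_mem p.2]
      have h3 : ((m ⟨trunc w n r, trunc_mem n r⟩ - p : Sle w (n + d)) : MvPolynomial σ ℂ) =
          - trunc w (n + d) i := by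
        rw [Submodule.coe_sub, hm, h2]
        ring
      have h4 : - trunc w (n + d) i ∈ I := I.neg_mem (trunc_mem_ideal hI hi _)
      rw [← h3] at h4
      exact h4
    · rintro ⟨y, hy⟩
      obtain ⟨r, rfl⟩ := Submodule.Quotient.mk_surjective _ y
      rw [← hy]
      refine (Submodule.Quotient.mk_eq_zero _).mpr ?_
      exact (Submodule.mem_sup_right (Ideal.mem_span_singleton.mpr (Dvd.intro _ rfl)) :
        a * (r : MvPolynomial σ ℂ) ∈ I ⊔ Ideal.span {a})
  have e1 := LinearMap.finrank_range_add_finrank_ker g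
  rw [hker, LinearMap.finrank_range_of_inj hf, LinearMap.range_eq_top.mpr hg, finrank_top] at e1
  rw [H, H, H, ← e1, add_comm]

set_option linter.unusedSectionVars false in
theorem H_lt {I : Ideal (MvPolynomial σ ℂ)} (hI : Hom w I) {a : MvPolynomial σ ℂ} {d : ℕ}
    (ha : IsWeightedHomogeneous w a d) {n : ℕ} (hn : n < d) :
    H w I n = H w (I ⊔ Ideal.span {a}) n := by
  have h1 : Ile w I n = Ile w (I ⊔ Ideal.span {a}) n := by
    ext p
    constructor
    · intro hp
      exact (Submodule.mem_sup_left hp : (p : MvPolynomial σ ℂ) ∈ I ⊔ Ideal.span {a})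
    · intro hp
      obtain ⟨i, hi, j, hj, hij⟩ := Submodule.mem_sup.mp
        (hp : (p : MvPolynomial σ ℂ) ∈ I ⊔ Ideal.span {a})
      obtain ⟨r, rfl⟩ := Ideal.mem_span_singleton.mp hj
      have hij' : i + a * r = (p : MvPolynomial σ ℂ) := hij
      have h2 : (p : MvPolynomial σ ℂ) = trunc w n i := by
        rw [← trunc_of_mem p.2, ← hij', trunc_add, trunc_mul_zero ha hn, add_zero]
      have h3 : (p : MvPolynomial σ ℂ) ∈ I := h2 ▸ trunc_mem_ideal hI hi n
      exact h3
  rw [H, H, h1]

theorem H_mono (I : Ideal (MvPolynomial σ ℂ)) : Monotone (H w I) := by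
  intro n m hnm
  have := finite_Sle hw n
  have := finite_Sle hw m
  have hle : Sle w n ≤ Sle w m := fun p hp d hd => (hp d hd).trans hnm
  let f : (Sle w n ⧸ Ile w I n) →ₗ[ℂ] (Sle w m ⧸ Ile w I m) :=
    Submodule.mapQ _ _ (Submodule.inclusion hle) fun r hr => hr
  have hf : Function.Injective f := by
    rw [← LinearMap.ker_eq_bot, LinearMap.ker_eq_bot']
    intro x hx
    obtain ⟨r, rfl⟩ := Submodule.Quotient.mk_surjective _ x
    have hx' : (Submodule.Quotient.mk (Submodule.inclusion hle r) : Sle w m ⧸ Ile w I m) = 0 := hx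
    rw [Submodule.Quotient.mk_eq_zero] at hx' ⊢
    exact hx'
  exact LinearMap.finrank_le_finrank_of_injective hf

theorem H_anti {I J : Ideal (MvPolynomial σ ℂ)} (h : I ≤ J) (n : ℕ) : H w J n ≤ H w I n := by
  have := finite_Sle hw n
  let g : (Sle w n ⧸ Ile w I n) →ₗ[ℂ] (Sle w n ⧸ Ile w J n) :=
    Submodule.mapQ _ _ LinearMap.id fun r hr => h hr
  have hg : Function.Surjective g := by
    intro x
    obtain ⟨r, rfl⟩ := Submodule.Quotient.mk_surjective _ x
    exact ⟨Submodule.Quotient.mk r, rfl⟩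
  exact LinearMap.finrank_le_finrank_of_surjective hg

omit hw [Finite σ] in
lemma one_mem_Sle (n : ℕ) : (1 : MvPolynomial σ ℂ) ∈ Sle w n := by
  classical
  intro d hd
  rw [coeff_one] at hd
  have h1 : 0 = d := by
    by_contra h
    exact hd (if_neg h)
  rw [← h1, map_zero]
  exact Nat.zero_le n

theorem one_le_H {I : Ideal (MvPolynomial σ ℂ)} (hI : I ≠ ⊤) (n : ℕ) : 1 ≤ H w I n := by
  have := finite_Sle hw n
  have h1 : (Submodule.Quotient.mk ⟨1, one_mem_Sle n⟩ : Sle w n ⧸ Ile w I n) ≠ 0 := by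
    intro h
    rw [Submodule.Quotient.mk_eq_zero] at h
    exact hI ((Ideal.eq_top_iff_one I).mpr h)
  have : Nontrivial (Sle w n ⧸ Ile w I n) := ⟨_, _, h1⟩
  exact Module.finrank_pos

theorem H_irrelevant {I : Ideal (MvPolynomial σ ℂ)} (hI : I ≠ ⊤) (hX : ∀ i, X i ∈ I) (n : ℕ) :
    H w I n = 1 := by
  refine le_antisymm ?_ (one_le_H hw hI n)
  have hspan : ∀ p : MvPolynomial σ ℂ, p - C (constantCoeff p) ∈ I := by
    intro p
    induction p using MvPolynomial.induction_on with
    | C a =>
      rw [constantCoeff_C, sub_self]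
      exact I.zero_mem
    | add p q hp hq =>
      rw [map_add, C_add, add_sub_add_comm]
      exact I.add_mem hp hq
    | mul_X p i _ =>
      rw [map_mul, constantCoeff_X, mul_zero, C_0, sub_zero]
      exact I.mul_mem_left _ (hX i)
  refine finrank_le_one (Submodule.Quotient.mk ⟨1, one_mem_Sle n⟩) ?_
  intro x
  obtain ⟨p, rfl⟩ := Submodule.Quotient.mk_surjective _ x
  refine ⟨constantCoeff (p : MvPolynomial σ ℂ), ?_⟩
  refine (Submodule.Quotient.eq _).mpr ?_
  have h3 : ((constantCoeff (p : MvPolynomial σ ℂ) • (⟨1, one_mem_Sle n⟩ : Sle w n) - p :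
      Sle w n) : MvPolynomial σ ℂ) = -((p : MvPolynomial σ ℂ) - C (constantCoeff
        (p : MvPolynomial σ ℂ))) := by
    rw [Submodule.coe_sub, Submodule.coe_smul, smul_eq_C_mul, mul_one]
    ring
  have h4 := I.neg_mem (hspan p)
  rw [← h3] at h4
  exact h4

omit hw [Finite σ] in
theorem H_top (n : ℕ) : H w (⊤ : Ideal (MvPolynomial σ ℂ)) n = 0 := by
  have h1 : Ile w (⊤ : Ideal (MvPolynomial σ ℂ)) n = ⊤ := by
    rw [eq_top_iff]
    intro p _
    exact (Submodule.mem_top : (p : MvPolynomial σ ℂ) ∈ (⊤ : Ideal (MvPolynomial σ ℂ)))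
  have : Subsingleton (Sle w n ⧸ Ile w (⊤ : Ideal (MvPolynomial σ ℂ)) n) :=
    Submodule.Quotient.subsingleton_iff.mpr h1
  exact Module.finrank_zero_of_subsingleton

/-- the polynomial bound -/
theorem H_le (I : Ideal (MvPolynomial σ ℂ)) (n : ℕ) : H w I n ≤ (n + 1) ^ Nat.card σ := by
  have := finite_Sle hw n
  have := (finite_wt hw n).to_subtype
  have := Fintype.ofFinite σ
  have h1 : H w I n ≤ Module.finrank ℂ (Sle w n) := Submodule.finrank_quotient_le _
  have h2 : Module.finrank ℂ (Sle w n) = Nat.card {d : σ →₀ ℕ | Finsupp.weight w d ≤ n} := by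
    rw [Sle_eq]
    exact Module.finrank_eq_nat_card_basis (basisRestrictSupport ℂ _)
  have h3 : Nat.card {d : σ →₀ ℕ | Finsupp.weight w d ≤ n} ≤ Nat.card (σ → Fin (n + 1)) := by
    refine Nat.card_le_card_of_injective (fun d i => ⟨d.1 i, ?_⟩) ?_
    · exact Nat.lt_succ_of_le ((Finsupp.le_weight w (hw i).ne' d.1).trans d.2)
    · intro d e hde
      ext i
      exact congrArg Fin.val (congrFun hde i)
  refine h1.trans (h2.le.trans (h3.trans ?_))
  rw [Nat.card_fun, Nat.card_eq_fintype_card, Fintype.card_fin]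

end fin

end Pool.Agent.RCH.Dg
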