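import Pool.Agent.RCH.KcStrata
import Pool.Agent.RCH.KcNil

/-!
# Generators of the group of cycles supported on the hyperplane section, and smash-nilpotence
-/

set_option autoImplicit false

open MvPolynomial

namespace Pool.Agent.RCH

namespace Kc

open Kp

/-- The cycle is supported on the hyperplane section `x_v = 0`. -/
def SupportedOn {ι : Type} {X : WVar ι} (v : ι) (D : Cycles X 1) : Prop :=
  ∀ Q ∈ D.support, (MvPolynomial.X (0, v) : Coord ι 1) ∈ Q.I

variable (S : PlData)

/-- the standard cycles exist -/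
theorem exists_std (k₀ : Fin S.t) : ∃ B : Fin (2 * S.r + 3) → Pt (hyp S.F) 1,
    ∀ j, (B j).I = stdIdeal S.r S.F (S.b k₀) j := by
  have h : ∀ j : Fin (2 * S.r + 3), ∃ Q : Pt (hyp S.F) 1, Q.I = stdIdeal S.r S.F (S.b k₀) j := by
    intro j
    by_cases h1 : (j : ℕ) ≤ S.r
    · obtain ⟨σ, _, _, D, hD, -⟩ := exists_cell_lin S h1
      exact ⟨D.V, by rw [hD, stdIdeal, if_pos h1]⟩
    by_cases h2 : (j : ℕ) = S.r + 1
    · exact ⟨S.pl k₀, by rw [S.pl_I_eq, stdIdeal, if_neg h1, if_pos h2]⟩
    · obtain ⟨σ, _, _, D, hD, -⟩ := exists_cell_sec S (i := 2 * S.r + 2 - j) (by omega)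
      exact ⟨D.V, by rw [hD, stdIdeal, if_neg h1, if_neg h2]⟩
  choose B hB using h
  exact ⟨B, hB⟩

/-- Every cycle supported on the hyperplane section is, modulo rational equivalence, a combination of
the standard cycles, one in each dimension, and a combination of degree zero of the linear spaces. -/
theorem generated (k₀ : Fin S.t) (B : Fin (2 * S.r + 3) → Pt (hyp S.F) 1)
    (hB : ∀ j, (B j).I = stdIdeal S.r S.F (S.b k₀) j) (D : Cycles (hyp S.F) 1)
    (hD : SupportedOn (S.x (2 * S.r + 4)) D) :
    ∃ (c : Fin (2 * S.r + 3) → ℤ) (γ : Fin S.t → ℤ), ∑ k, γ k = 0 ∧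
      D - (∑ j, Finsupp.single (B j) (c j) + ∑ k, Finsupp.single (S.pl k) (γ k)) ∈
        RatZero (hyp S.F) 1 := by
  classical
  -- the subgroup of all such cycles
  let G : AddSubgroup (Cycles (hyp S.F) 1) :=
    { carrier := {D | ∃ (c : Fin (2 * S.r + 3) → ℤ) (γ : Fin S.t → ℤ), ∑ k, γ k = 0 ∧
        D - (∑ j, Finsupp.single (B j) (c j) + ∑ k, Finsupp.single (S.pl k) (γ k)) ∈
          RatZero (hyp S.F) 1}
      zero_mem' := ⟨0, 0, by simp, by simp⟩
      add_mem' := by
        rintro a b ⟨c, γ, h, h1⟩ ⟨c', γ', h', h1'⟩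
        refine ⟨c + c', γ + γ', by simp [Finset.sum_add_distrib, h, h'], ?_⟩
        have := add_mem h1 h1'
        simp only [Pi.add_apply, Finsupp.single_add, Finset.sum_add_distrib]
        convert this using 1
        abel
      neg_mem' := by
        rintro a ⟨c, γ, h, h1⟩
        refine ⟨-c, -γ, by simp [h], ?_⟩
        have := neg_mem h1
        simp only [Pi.neg_apply, Finsupp.single_neg, Finset.sum_neg_distrib]
        convert this using 1
        abel }
  have hrat : RatZero (hyp S.F) 1 ≤ G := by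
    intro x hx
    exact ⟨0, 0, by simp, by simpa using hx⟩
  have hBG : ∀ j, (Finsupp.single (B j) 1 : Cycles (hyp S.F) 1) ∈ G := by
    intro j
    refine ⟨Pi.single j 1, 0, by simp, ?_⟩
    have h1 : ∑ i, Finsupp.single (B i) ((Pi.single j 1 : Fin (2 * S.r + 3) → ℤ) i) =
        (Finsupp.single (B j) 1 : Cycles (hyp S.F) 1) := by
      rw [Finset.sum_eq_single j (fun i _ hi => by
        rw [Pi.single_eq_of_ne hi, Finsupp.single_zero]) (fun h => absurd (Finset.mem_univ j) h),
        Pi.single_eq_same]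
    rw [h1]
    simp
  have hplG : ∀ k, (Finsupp.single (S.pl k) 1 : Cycles (hyp S.F) 1) ∈ G := by
    intro k
    have h1 : (Finsupp.single (S.pl k) 1 : Cycles (hyp S.F) 1) =
        Finsupp.single (S.pl k₀) 1 +
          (Finsupp.single (S.pl k) 1 - Finsupp.single (S.pl k₀) 1) := by abel
    rw [h1]
    refine add_mem ?_ ?_
    · have h2 : S.pl k₀ = B ⟨S.r + 1, by omega⟩ := by
        apply Pt.ext'
        rw [hB, S.pl_I_eq, stdIdeal, if_neg (by simp), if_pos rfl]
      rw [h2]
      exact hBG _
    · refine ⟨0, Pi.single k 1 - Pi.single k₀ 1, by simp, ?_⟩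
      have h3 : ∑ i, Finsupp.single (S.pl i)
          ((Pi.single k 1 - Pi.single k₀ 1 : Fin S.t → ℤ) i) =
          (Finsupp.single (S.pl k) 1 - Finsupp.single (S.pl k₀) 1 : Cycles (hyp S.F) 1) := by
        simp only [Pi.sub_apply, Finsupp.single_sub, Finset.sum_sub_distrib]
        rw [Finset.sum_eq_single k (fun i _ hi => by
          rw [Pi.single_eq_of_ne hi, Finsupp.single_zero]) (fun h => absurd (Finset.mem_univ k) h),
          Finset.sum_eq_single k₀ (fun i _ hi => by
          rw [Pi.single_eq_of_ne hi, Finsupp.single_zero]) (fun h => absurd (Finset.mem_univ k₀) h),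
          Pi.single_eq_same, Pi.single_eq_same]
      rw [h3]
      simp
  have hstd : ∀ Q' : Pt (hyp S.F) 1, IsStd S Q' →
      (Finsupp.single Q' 1 : Cycles (hyp S.F) 1) ∈ G := by
    rintro Q' (⟨i, hi, h⟩ | ⟨k, rfl⟩ | ⟨j, hj, h⟩)
    · have h2 : Q' = B ⟨2 * S.r + 2 - i, by omega⟩ := by
        apply Pt.ext'
        rw [hB, h, stdIdeal, if_neg (by simp only; omega), if_neg (by simp only; omega)]
        congr 1
        simp only
        omega
      rw [h2]
      exact hBG _
    · exact hplG k
    · have h2 : Q' = B ⟨j, by omega⟩ := by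
        apply Pt.ext'
        rw [hB, h, stdIdeal, if_pos hj]
      rw [h2]
      exact hBG _
  have hall : ∀ Q : Pt (hyp S.F) 1, (MvPolynomial.X (0, S.x (2 * S.r + 4)) : Coord S.J 1) ∈ Q.I →
      (Finsupp.single Q 1 : Cycles (hyp S.F) 1) ∈ G := by
    intro Q hQ
    have h := strata S Q hQ
    refine (sup_le hrat ?_) h
    rw [AddSubgroup.closure_le]
    rintro c ⟨Q', rfl, hQ'⟩
    exact hstd Q' hQ'
  have hfin : D ∈ G := by
    rw [← D.sum_single]
    refine sum_mem fun Q hQ => ?_
    have h1 : (Finsupp.single Q (D Q) : Cycles (hyp S.F) 1) = (D Q) • Finsupp.single Q 1 := by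
      rw [Finsupp.smul_single, smul_eq_mul, mul_one]
    rw [h1]
    exact zsmul_mem (hall Q (hD Q hQ)) _
  exact hfin

/-- A homomorphism from the cycles on `X` to an abelian group which is zero on the cycles rationally
equivalent to zero, has the same value on all `l_k`, and whose values on the `B_j` are linearly
independent. For smooth `X` the cycle class map to any Weil cohomology is of this kind if the `B_j` have
different dimensions. -/
structure IsClassMap {ι : Type} (X : WVar ι) {t m : ℕ} (l : Fin t → Pt X 1) (B : Fin m → Pt X 1)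
    {A : Type} [AddCommGroup A] (cl : Cycles X 1 →+ A) : Prop where
  rat : ∀ x ∈ RatZero X 1, cl x = 0
  eq : ∀ j k, cl (Finsupp.single (l j) 1) = cl (Finsupp.single (l k) 1)
  indep : LinearIndependent ℤ (fun j => cl (Finsupp.single (B j) 1))

/-- A cycle supported on the hyperplane section with zero class is, modulo rational equivalence, a
combination of degree zero of the linear spaces. -/
theorem mod_class (k₀ : Fin S.t) (B : Fin (2 * S.r + 3) → Pt (hyp S.F) 1)
    (hB : ∀ j, (B j).I = stdIdeal S.r S.F (S.b k₀) j) {A : Type} [AddCommGroup A]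
    (cl : Cycles (hyp S.F) 1 →+ A) (hcl : IsClassMap (hyp S.F) S.pl B cl)
    (D : Cycles (hyp S.F) 1) (hD : SupportedOn (S.x (2 * S.r + 4)) D) (h0 : cl D = 0) :
    ∃ γ : Fin S.t → ℤ, ∑ k, γ k = 0 ∧
      D - ∑ k, Finsupp.single (S.pl k) (γ k) ∈ RatZero (hyp S.F) 1 := by
  obtain ⟨c, γ, hγ, hmem⟩ := generated S k₀ B hB D hD
  have hsm : ∀ (Q : Pt (hyp S.F) 1) (n : ℤ),
      cl (Finsupp.single Q n) = n • cl (Finsupp.single Q 1) := by
    intro Q n
    rw [← map_zsmul, Finsupp.smul_single, smul_eq_mul, mul_one]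
  have h1 : cl (∑ k, Finsupp.single (S.pl k) (γ k)) = 0 := by
    rw [map_sum]
    have h2 : ∀ k, cl (Finsupp.single (S.pl k) (γ k)) =
        γ k • cl (Finsupp.single (S.pl k₀) 1) := by
      intro k
      rw [hsm, hcl.eq k k₀]
    rw [Finset.sum_congr rfl fun k _ => h2 k, ← Finset.sum_smul, hγ, zero_smul]
  have h3 : ∑ j, c j • cl (Finsupp.single (B j) 1) = 0 := by
    have h4 := hcl.rat _ hmem
    rw [map_sub, map_add, h1, h0, add_zero, zero_sub, neg_eq_zero, map_sum] at h4
    rw [← h4]
    exact Finset.sum_congr rfl fun j _ => (hsm _ _).symm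
  have h5 := Fintype.linearIndependent_iff.1 hcl.indep c h3
  refine ⟨γ, hγ, ?_⟩
  have h6 : ∑ j, (Finsupp.single (B j) (c j) : Cycles (hyp S.F) 1) = 0 :=
    Finset.sum_eq_zero fun j _ => by rw [h5 j, Finsupp.single_zero]
  rwa [h6, zero_add] at hmem

/-- Products of cycles with zero class supported on the hyperplane section are torsion if this is so
for the combinations of degree zero of the linear spaces. -/
theorem nil_supported (k₀ : Fin S.t) (B : Fin (2 * S.r + 3) → Pt (hyp S.F) 1)
    (hB : ∀ j, (B j).I = stdIdeal S.r S.F (S.b k₀) j) {A : Type} [AddCommGroup A]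
    (cl : Cycles (hyp S.F) 1 →+ A) (hcl : IsClassMap (hyp S.F) S.pl B cl) {N : ℕ}
    (hN : ∀ c : Fin N → Fin S.t → ℤ, (∀ i, ∑ k, c i k = 0) →
      boxC (hyp S.F) (fun i => ∑ k, Finsupp.single (S.pl k) (c i k)) ∈ torZero (hyp S.F) N)
    (D : Fin N → Cycles (hyp S.F) 1) (hD : ∀ i, SupportedOn (S.x (2 * S.r + 4)) (D i))
    (h0 : ∀ i, cl (D i) = 0) : boxC (hyp S.F) D ∈ torZero (hyp S.F) N := by
  have h := fun i => mod_class S k₀ B hB cl hcl (D i) (hD i) (h0 i)
  choose γ hγ hmem using h
  exact boxC_congr D _ (fun i => torZero_of_ratZero (hmem i)) (hN γ hγ)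

/-- two linear spaces: all products of two combinations of degree zero are torsion -/
theorem two_nil (ht : S.t = 2) (c : Fin 2 → Fin S.t → ℤ) (hc : ∀ i, ∑ k, c i k = 0) :
    boxC (hyp S.F) (fun i => ∑ k, Finsupp.single (S.pl k) (c i k)) ∈ torZero (hyp S.F) 2 := by
  classical
  let j : Fin S.t := ⟨0, by omega⟩
  let k : Fin S.t := ⟨1, by omega⟩
  have hjk : j ≠ k := fun h => by
    have := congrArg Fin.val h
    simp [j, k] at this
  have huniv : (Finset.univ : Finset (Fin S.t)) = {j, k} := by
    symm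
    apply Finset.eq_univ_of_card
    rw [Finset.card_pair hjk, Fintype.card_fin, ht]
  have hz : ∀ i, ∑ k, Finsupp.single (S.pl k) (c i k) =
      c i j • (Finsupp.single (S.pl j) 1 - Finsupp.single (S.pl k) 1 :
        Cycles (hyp S.F) 1) := by
    intro i
    have h1 := hc i
    rw [huniv, Finset.sum_pair hjk] at h1 ⊢
    have h2 : c i k = - c i j := by linarith
    rw [h2, smul_sub, Finsupp.smul_single, Finsupp.smul_single, smul_eq_mul, mul_one,
      Finsupp.single_neg, sub_eq_add_neg]
  simp only [hz]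
  have h2 := (boxM (hyp S.F) 2).map_smul_univ (fun i => c i j)
    (fun _ => (Finsupp.single (S.pl j) 1 - Finsupp.single (S.pl k) 1 : Cycles (hyp S.F) 1))
  rw [boxM_apply, boxM_apply] at h2
  rw [h2]
  refine AddSubgroup.zsmul_mem _ ?_ _
  have h3 := S.rel_squares
  refine torZero_of_smul (k := (S.m + 2) ^ (S.r + 1) * (S.a j * S.a k)) ?_ ?_
  · have h1 := S.ha j
    have h2 := S.ha k
    exact Nat.one_le_iff_ne_zero.2 (by positivity)
  · refine torZero_of_ratZero ?_
    rw [huniv] at h3
    have h4 : ∑ x ∈ ({j, k} : Finset (Fin S.t)),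
        ∑ y ∈ ({j, k} : Finset (Fin S.t)).filter (fun y => x < y), (S.a x * S.a y) •
          extPow (hyp S.F) (Finsupp.single (S.pl x) 1 - Finsupp.single (S.pl y) 1) 2 =
        (S.a j * S.a k) •
          extPow (hyp S.F) (Finsupp.single (S.pl j) 1 - Finsupp.single (S.pl k) 1) 2 := by
      have hjlt : j < k := by
        show (0 : ℕ) < 1
        norm_num
      rw [Finset.sum_pair hjk]
      have e1 : ({j, k} : Finset (Fin S.t)).filter (fun y => j < y) = {k} := by
        ext y
        simp only [Finset.mem_filter, Finset.mem_insert, Finset.mem_singleton]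
        constructor
        · rintro ⟨rfl | rfl, h⟩
          · exact absurd h (lt_irrefl _)
          · rfl
        · rintro rfl
          exact ⟨Or.inr rfl, hjlt⟩
      have e2 : ({j, k} : Finset (Fin S.t)).filter (fun y => k < y) = ∅ := by
        ext y
        simp only [Finset.mem_filter, Finset.mem_insert, Finset.mem_singleton,
          Finset.notMem_empty, iff_false, not_and, not_lt]
        rintro (rfl | rfl)
        · exact hjlt.le
        · exact le_refl _
      rw [e1, e2, Finset.sum_singleton, Finset.sum_empty, add_zero]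
    rw [h4, ← mul_smul] at h3
    exact h3

end Kc

end Pool.Agent.RCH
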