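import Pool.Agent.RCH.DgSer

/-!
# The rank and the multiplicity of linear spaces and of hypersurfaces in them
-/

set_option autoImplicit false

open MvPolynomial Filter Topology

namespace Pool.Agent.RCH.Dg

variable {σ : Type}

section

variable (V : Set σ)

open Classical in
/-- setting the variables of `V` to zero -/
noncomputable def killV : MvPolynomial σ ℂ →ₐ[ℂ] MvPolynomial σ ℂ :=
  aeval fun i => if i ∈ V then 0 else X i

/-- the ideal generated by the variables in `V` -/
noncomputable def varI : Ideal (MvPolynomial σ ℂ) := Ideal.span (X '' V)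

lemma killV_X_mem {i : σ} (hi : i ∈ V) : killV V (X i) = 0 := by
  classical
  rw [killV, aeval_X, if_pos hi]

lemma killV_X_notMem {i : σ} (hi : i ∉ V) : killV V (X i) = X i := by
  classical
  rw [killV, aeval_X, if_neg hi]

lemma sub_killV_mem (p : MvPolynomial σ ℂ) : p - killV V p ∈ varI V := by
  induction p using MvPolynomial.induction_on with
  | C a =>
    have : killV V (C a) = C a := (killV V).commutes a
    rw [this, sub_self]
    exact zero_mem _
  | add p q hp hq =>
    rw [map_add]
    have : p + q - (killV V p + killV V q) = (p - killV V p) + (q - killV V q) := by ring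
    rw [this]
    exact add_mem hp hq
  | mul_X p i hp =>
    rw [map_mul]
    by_cases hi : i ∈ V
    · rw [killV_X_mem V hi, mul_zero, sub_zero]
      exact Ideal.mul_mem_left _ _ (Ideal.subset_span ⟨i, hi, rfl⟩)
    · rw [killV_X_notMem V hi, ← sub_mul]
      exact Ideal.mul_mem_right _ _ hp

lemma ker_killV : RingHom.ker (killV V) = varI V := by
  apply le_antisymm
  · intro p hp
    have h1 := sub_killV_mem V p
    rw [RingHom.mem_ker] at hp
    rwa [hp, sub_zero] at h1
  · rw [varI, Ideal.span_le]
    rintro _ ⟨i, hi, rfl⟩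
    exact killV_X_mem V hi

instance : (varI V).IsPrime := by
  rw [← ker_killV]
  exact RingHom.ker_isPrime _

lemma mem_varI {p : MvPolynomial σ ℂ} : p ∈ varI V ↔ killV V p = 0 := by
  rw [← ker_killV]
  rfl

lemma X_mem_varI {i : σ} : (X i : MvPolynomial σ ℂ) ∈ varI V ↔ i ∈ V := by
  rw [mem_varI]
  constructor
  · intro h
    by_contra hi
    rw [killV_X_notMem V hi] at h
    exact X_ne_zero i h
  · exact killV_X_mem V

end

lemma hom_varI (w : σ → ℕ) (V : Set σ) : Hom w (varI V) := by
  classical
  intro p hp n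
  rw [varI, mem_ideal_span_X_image] at hp ⊢
  intro m hm
  refine hp m ?_
  rw [mem_support_iff, coeff_weightedHomogeneousComponent] at hm
  rw [mem_support_iff]
  intro h
  apply hm
  rw [h, ite_self]

section weights

variable [Finite σ] {w : σ → ℕ} (hw : ∀ i, 0 < w i)
include hw

/-- adding a homogeneous element to a prime ideal -/
theorem hasRk_add {P : Ideal (MvPolynomial σ ℂ)} [P.IsPrime] (hP : Hom w P)
    {a : MvPolynomial σ ℂ} {d : ℕ} (hd : 0 < d) (ha : IsWeightedHomogeneous w a d) (haP : a ∉ P)
    {r : ℕ} {e : ℝ} (h : HasRk w P (r + 1) e) : HasRk w (P ⊔ Ideal.span {a}) r (d * e) :=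
  ⟨mul_pos (by exact_mod_cast hd) h.1, tendsto_prime hw hP ha haP h⟩

end weights

/-- weights one: linear spaces -/
theorem hasRk_varI [Finite σ] (w : σ → ℕ) (hw : ∀ i, w i = 1) :
    ∀ (k : ℕ) (V : Set σ), Vᶜ.ncard = k → HasRk w (varI V) k 1 := by
  have hw0 : ∀ i, 0 < w i := fun i => by rw [hw i]; exact one_pos
  intro k
  induction k with
  | zero =>
    intro V hV
    have hV' : Vᶜ = ∅ := (Set.ncard_eq_zero (Set.toFinite _)).1 hV
    have hX : ∀ i, (X i : MvPolynomial σ ℂ) ∈ varI V := by
      intro i
      rw [X_mem_varI]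
      by_contra h
      exact (Set.mem_empty_iff_false i).1 (hV' ▸ (h : i ∈ Vᶜ))
    refine ⟨one_pos, ?_⟩
    have h1 : H w (varI V) = fun _ => 1 := funext fun n =>
      H_irrelevant hw0 (Ideal.IsPrime.ne_top inferInstance) hX n
    show Lim (H w (varI V)) (0 + 1) 1
    rw [h1]
    exact lim_one
  | succ k ih =>
    intro V hV
    obtain ⟨i, hi⟩ : ∃ i, i ∈ Vᶜ := by
      by_contra h
      push Not at h
      rw [Set.eq_empty_of_forall_notMem h, Set.ncard_empty] at hV
      exact absurd hV (by omega)
    have h1 : varI (insert i V) = varI V ⊔ Ideal.span {(X i : MvPolynomial σ ℂ)} := by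
      rw [varI, varI, Set.image_insert_eq, Ideal.span_insert, sup_comm]
    have h2 : (insert i V)ᶜ.ncard = k := by
      have h3 : (insert i V)ᶜ = Vᶜ \ {i} := by
        ext j
        simp only [Set.mem_compl_iff, Set.mem_insert_iff, not_or, Set.mem_sdiff,
          Set.mem_singleton_iff]
        tauto
      rw [h3, Set.ncard_sdiff_singleton_of_mem hi, hV]
      omega
    have h3 := ih _ h2
    have hX : IsWeightedHomogeneous w (X i : MvPolynomial σ ℂ) 1 := by
      have := isWeightedHomogeneous_X ℂ w i
      rwa [hw i] at this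
    have hi' : (X i : MvPolynomial σ ℂ) ∉ varI V := fun h => hi ((X_mem_varI V).1 h)
    obtain ⟨r, e, hr⟩ := exists_hasRk hw0 (hom_varI w V) (Ideal.IsPrime.ne_top inferInstance)
    have h4 : rk w (varI V) = rk w (varI V ⊔ Ideal.span {(X i : MvPolynomial σ ℂ)}) + 1 := by
      refine rk_add_one hw0 (hom_varI w V) one_pos hX hi' ?_
      rw [← h1]
      exact Ideal.IsPrime.ne_top inferInstance
    rw [← h1, h3.rk_eq, hr.rk_eq] at h4
    subst h4
    have h5 := hasRk_add hw0 (hom_varI w V) one_pos hX hi' hr
    rw [← h1] at h5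
    have h6 := (h5.unique h3).2
    rw [Nat.cast_one, one_mul] at h6
    rw [h6] at hr
    exact hr

end Pool.Agent.RCH.Dg
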