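import Mathlib

/-!
# Power series of sequences of polynomial growth, near `t = 1`
-/

set_option autoImplicit false

open Filter Topology Finset

namespace Pool.Agent.RCH.Dg

/-- the value at `t` of the power series of the sequence `a` -/
noncomputable def ser (a : ℕ → ℕ) (t : ℝ) : ℝ := ∑' n, (a n : ℝ) * t ^ n

/-- `a` grows at most like a polynomial -/
def PolyBdd (a : ℕ → ℕ) : Prop := ∃ C s : ℕ, ∀ n, a n ≤ C * (n + 1) ^ s

/-- `(1 - t) ^ k * ser a t` tends to `e` when `t` tends to `1` from below -/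
def Lim (a : ℕ → ℕ) (k : ℕ) (e : ℝ) : Prop :=
  Tendsto (fun t : ℝ => (1 - t) ^ k * ser a t) (𝓝[<] 1) (𝓝 e)

lemma pow_le_choose (n s : ℕ) : (n + 1) ^ s ≤ s.factorial * (n + s).choose s := by
  rw [← Nat.ascFactorial_eq_factorial_mul_choose]
  exact Nat.pow_succ_le_ascFactorial (n + 1) s

lemma choose_le (n s : ℕ) : s.factorial * (n + s).choose s ≤ (n + s) ^ s := by
  rw [← Nat.descFactorial_eq_factorial_mul_choose]
  exact Nat.descFactorial_le_pow _ _

lemma norm_lt_one {t : ℝ} (h0 : 0 < t) (h1 : t < 1) : ‖t‖ < 1 := by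
  rw [Real.norm_eq_abs, abs_of_pos h0]
  exact h1

lemma le_choose {a : ℕ → ℕ} {C s : ℕ} (h : ∀ n, a n ≤ C * (n + 1) ^ s) (n : ℕ) :
    (a n : ℝ) ≤ (C * s.factorial : ℕ) * ((n + s).choose s : ℝ) := by
  have h1 : a n ≤ C * s.factorial * (n + s).choose s := by
    refine (h n).trans ?_
    rw [mul_assoc]
    exact Nat.mul_le_mul_left C (pow_le_choose n s)
  exact_mod_cast h1

lemma summable_of_bdd {a : ℕ → ℕ} (h : PolyBdd a) {t : ℝ} (h0 : 0 < t) (h1 : t < 1) :
    Summable fun n => (a n : ℝ) * t ^ n := by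
  obtain ⟨C, s, h⟩ := h
  have h2 := (summable_choose_mul_geometric_of_norm_lt_one s (norm_lt_one h0 h1)).mul_left
    ((C * s.factorial : ℕ) : ℝ)
  refine Summable.of_nonneg_of_le (fun n => by positivity) (fun n => ?_) h2
  rw [← mul_assoc]
  exact mul_le_mul_of_nonneg_right (le_choose h n) (by positivity)

lemma ser_le {a : ℕ → ℕ} {C s : ℕ} (h : ∀ n, a n ≤ C * (n + 1) ^ s) {t : ℝ} (h0 : 0 < t)
    (h1 : t < 1) : ser a t ≤ (C * s.factorial : ℕ) * (1 / (1 - t) ^ (s + 1)) := by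
  rw [← tsum_choose_mul_geometric_of_norm_lt_one s (norm_lt_one h0 h1), ← tsum_mul_left]
  refine Summable.tsum_le_tsum (fun n => ?_) (summable_of_bdd ⟨C, s, h⟩ h0 h1)
    ((summable_choose_mul_geometric_of_norm_lt_one s (norm_lt_one h0 h1)).mul_left _)
  rw [← mul_assoc]
  exact mul_le_mul_of_nonneg_right (le_choose h n) (by positivity)

lemma ser_nonneg (a : ℕ → ℕ) {t : ℝ} (h0 : 0 < t) : 0 ≤ ser a t :=
  tsum_nonneg fun n => by positivity

lemma hasSum_shift {b : ℕ → ℕ} (hb : PolyBdd b) (d : ℕ) {t : ℝ} (h0 : 0 < t) (h1 : t < 1) :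
    HasSum (fun n => ((if d ≤ n then b (n - d) else 0 : ℕ) : ℝ) * t ^ n) (t ^ d * ser b t) := by
  have h2 : HasSum (fun n => (b n : ℝ) * t ^ n) (ser b t) := (summable_of_bdd hb h0 h1).hasSum
  have h3 := h2.mul_left (t ^ d)
  have h3' : HasSum (fun n => ((if d ≤ n + d then b (n + d - d) else 0 : ℕ) : ℝ) * t ^ (n + d))
      (t ^ d * ser b t) := by
    have e : (fun n => ((if d ≤ n + d then b (n + d - d) else 0 : ℕ) : ℝ) * t ^ (n + d)) =
        fun n => t ^ d * ((b n : ℝ) * t ^ n) := by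
      funext n
      rw [if_pos (Nat.le_add_left d n), Nat.add_sub_cancel, pow_add]
      ring
    rw [e]
    exact h3
  have h4 := (hasSum_nat_add_iff (f := fun n => ((if d ≤ n then b (n - d) else 0 : ℕ) : ℝ) * t ^ n)
    d).1 h3'
  have h5 : ∑ i ∈ range d, ((if d ≤ i then b (i - d) else 0 : ℕ) : ℝ) * t ^ i = 0 := by
    refine Finset.sum_eq_zero fun i hi => ?_
    rw [if_neg (by rw [Finset.mem_range] at hi; omega)]
    simp
  rw [h5, add_zero] at h4
  exact h4

/-- the power series of an extension -/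
lemma ser_exact {a b c : ℕ → ℕ} {d : ℕ} (h : ∀ n, a n = c n + if d ≤ n then b (n - d) else 0)
    (hb : PolyBdd b) (hc : PolyBdd c) {t : ℝ} (h0 : 0 < t) (h1 : t < 1) :
    ser a t = ser c t + t ^ d * ser b t := by
  have h2 : HasSum (fun n => (c n : ℝ) * t ^ n) (ser c t) := (summable_of_bdd hc h0 h1).hasSum
  have h3 := (h2.add (hasSum_shift hb d h0 h1)).tsum_eq
  rw [← h3]
  refine tsum_congr fun n => ?_
  rw [h n]
  push_cast
  ring

lemma ev : ∀ᶠ t : ℝ in 𝓝[<] 1, 0 < t ∧ t < 1 :=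
  Ioo_mem_nhdsLT (by norm_num : (0 : ℝ) < 1)

lemma tendsto_one_sub_pow {k : ℕ} (hk : k ≠ 0) :
    Tendsto (fun t : ℝ => (1 - t) ^ k) (𝓝[<] 1) (𝓝 0) := by
  have h : Tendsto (fun t : ℝ => (1 - t) ^ k) (𝓝 1) (𝓝 ((1 - 1) ^ k)) :=
    (continuous_const.sub continuous_id).pow k |>.tendsto 1
  rw [sub_self, zero_pow hk] at h
  exact h.mono_left nhdsWithin_le_nhds

lemma tendsto_pow (d : ℕ) : Tendsto (fun t : ℝ => t ^ d) (𝓝[<] 1) (𝓝 1) := by
  have h : Tendsto (fun t : ℝ => t ^ d) (𝓝 1) (𝓝 (1 ^ d)) := (continuous_id.pow d).tendsto 1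
  rw [one_pow] at h
  exact h.mono_left nhdsWithin_le_nhds

lemma Lim.unique {a : ℕ → ℕ} {k : ℕ} {e e' : ℝ} (h : Lim a k e) (h' : Lim a k e') : e = e' :=
  tendsto_nhds_unique h h'

lemma Lim.nonneg {a : ℕ → ℕ} {k : ℕ} {e : ℝ} (h : Lim a k e) : 0 ≤ e := by
  refine ge_of_tendsto h ?_
  filter_upwards [ev] with t ht
  exact mul_nonneg (pow_nonneg (by linarith [ht.2]) _) (ser_nonneg a ht.1)

lemma Lim.of_lt {a : ℕ → ℕ} {k k' : ℕ} {e : ℝ} (h : Lim a k e) (hk : k < k') : Lim a k' 0 := by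
  have h1 := (tendsto_one_sub_pow (k := k' - k) (by omega)).mul h
  rw [zero_mul] at h1
  refine h1.congr fun t => ?_
  rw [← mul_assoc, ← pow_add, show k' - k + k = k' by omega]

/-- the exponent is determined by the sequence -/
lemma Lim.eq_of_pos {a : ℕ → ℕ} {k k' : ℕ} {e e' : ℝ} (h : Lim a k e) (he : 0 < e)
    (h' : Lim a k' e') (he' : 0 < e') : k = k' := by
  rcases lt_trichotomy k k' with hk | hk | hk
  · exact absurd ((h.of_lt hk).unique h') he'.ne
  · exact hk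
  · exact absurd ((h'.of_lt hk).unique h) he.ne

lemma Lim.exact {a b c : ℕ → ℕ} {d k : ℕ} {e₁ e₂ : ℝ}
    (h : ∀ n, a n = c n + if d ≤ n then b (n - d) else 0) (hb : PolyBdd b) (hc : PolyBdd c)
    (h1 : Lim b k e₁) (h2 : Lim c k e₂) : Lim a k (e₁ + e₂) := by
  have h3 := ((tendsto_pow d).mul h1).add h2
  rw [one_mul] at h3
  refine h3.congr' ?_
  filter_upwards [ev] with t ht
  rw [ser_exact h hb hc ht.1 ht.2]
  ring

lemma one_sub_pow (d : ℕ) (t : ℝ) : 1 - t ^ d = (1 - t) * ∑ i ∈ range d, t ^ i := by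
  have := geom_sum_mul t d
  linarith

lemma tendsto_geom (d : ℕ) :
    Tendsto (fun t : ℝ => ∑ i ∈ range d, t ^ i) (𝓝[<] 1) (𝓝 d) := by
  have h : Tendsto (fun t : ℝ => ∑ i ∈ range d, t ^ i) (𝓝[<] 1) (𝓝 (∑ _i ∈ range d, (1 : ℝ))) :=
    tendsto_finsetSum _ fun i _ => tendsto_pow i
  simpa using h

/-- from the quotient by a nonzerodivisor of degree `d` to the whole ring -/
lemma Lim.of_quot {a c : ℕ → ℕ} {d k : ℕ} {e : ℝ} (hd : 0 < d)
    (h : ∀ n, a n = c n + if d ≤ n then a (n - d) else 0) (ha : PolyBdd a) (hc : PolyBdd c)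
    (h2 : Lim c k e) : Lim a (k + 1) (e / d) := by
  have h3 := h2.div (tendsto_geom d) (by positivity : (d : ℝ) ≠ 0)
  refine h3.congr' ?_
  filter_upwards [ev] with t ht
  have h4 := ser_exact h ha hc ht.1 ht.2
  have h5 : 0 < ∑ i ∈ range d, t ^ i :=
    Finset.sum_pos (fun i _ => pow_pos ht.1 i) ⟨0, Finset.mem_range.2 hd⟩
  have h6 : ser c t = (1 - t) * (∑ i ∈ range d, t ^ i) * ser a t := by
    rw [← one_sub_pow]
    linarith
  show (1 - t) ^ k * ser c t / (∑ i ∈ range d, t ^ i) = (1 - t) ^ (k + 1) * ser a t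
  rw [h6, div_eq_iff h5.ne']
  ring

/-- from the whole ring to the quotient by a nonzerodivisor of degree `d` -/
lemma Lim.quot {a c : ℕ → ℕ} {d k : ℕ} {e : ℝ}
    (h : ∀ n, a n = c n + if d ≤ n then a (n - d) else 0) (ha : PolyBdd a) (hc : PolyBdd c)
    (h2 : Lim a (k + 1) e) : Lim c k (d * e) := by
  have h3 := (tendsto_geom d).mul h2
  refine h3.congr' ?_
  filter_upwards [ev] with t ht
  have h4 := ser_exact h ha hc ht.1 ht.2
  have h6 : ser c t = (1 - t) * (∑ i ∈ range d, t ^ i) * ser a t := by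
    rw [← one_sub_pow]
    linarith
  rw [h6]
  ring

lemma lim_one : Lim (fun _ => 1) 1 1 := by
  have h : Tendsto (fun _ : ℝ => (1 : ℝ)) (𝓝[<] 1) (𝓝 1) := tendsto_const_nhds
  refine h.congr' ?_
  filter_upwards [ev] with t ht
  rw [ser]
  have h1 := tsum_choose_mul_geometric_of_norm_lt_one 0 (norm_lt_one ht.1 ht.2)
  simp only [add_zero, Nat.choose_zero_right, zero_add, pow_one] at h1
  rw [h1, pow_one, mul_one_div, div_self (by linarith [ht.2])]

/-- a sequence bounded by a polynomial of degree `s` -/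
lemma Lim.le_of_bdd {a : ℕ → ℕ} {k : ℕ} {e : ℝ} (h : Lim a k e) (he : 0 < e) {C s : ℕ}
    (hC : ∀ n, a n ≤ C * (n + 1) ^ s) : k ≤ s + 1 := by
  by_contra hk
  push Not at hk
  have h1 : Tendsto (fun t : ℝ => (1 - t) ^ (k - (s + 1)) * ((C * s.factorial : ℕ) : ℝ)) (𝓝[<] 1)
      (𝓝 (0 * ((C * s.factorial : ℕ) : ℝ))) :=
    (tendsto_one_sub_pow (by omega)).mul tendsto_const_nhds
  rw [zero_mul] at h1
  have h2 : e ≤ 0 := by
    refine le_of_tendsto_of_tendsto h h1 ?_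
    filter_upwards [ev] with t ht
    have h3 := ser_le hC ht.1 ht.2
    have h4 : 0 < (1 - t) ^ k := pow_pos (by linarith [ht.2]) _
    have h5 : 0 < (1 - t) ^ (s + 1) := pow_pos (by linarith [ht.2]) _
    calc (1 - t) ^ k * ser a t ≤ (1 - t) ^ k *
        (((C * s.factorial : ℕ) : ℝ) * (1 / (1 - t) ^ (s + 1))) :=
          mul_le_mul_of_nonneg_left h3 h4.le
      _ = (1 - t) ^ (k - (s + 1)) * ((C * s.factorial : ℕ) : ℝ) := by
          rw [show k = k - (s + 1) + (s + 1) by omega, pow_add, Nat.add_sub_cancel]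
          field_simp
  exact absurd he (not_lt.2 h2)

/-- a sequence bounded from below by a multiple of `n ^ s` -/
lemma Lim.ge_of_bdd {a : ℕ → ℕ} {k : ℕ} {e : ℝ} (h : Lim a k e) (hb : PolyBdd a) {c : ℝ}
    (hc : 0 < c) {s n₀ : ℕ} (hC : ∀ n, n₀ ≤ n → c * (n : ℝ) ^ s ≤ a n) : s + 1 ≤ k := by
  by_contra hk
  push Not at hk
  set c' : ℝ := c * s.factorial / 2 ^ s with hc'
  have hc'0 : 0 < c' := by positivity
  set N : ℕ := n₀ + s with hN
  have key : ∀ n, N ≤ n → c' * ((n + s).choose s : ℝ) ≤ a n := by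
    intro n hn
    refine le_trans ?_ (hC n (by omega))
    have h1 : (s.factorial : ℝ) * ((n + s).choose s : ℝ) ≤ ((n : ℝ) + s) ^ s := by
      exact_mod_cast choose_le n s
    have h2 : ((n : ℝ) + s) ^ s ≤ (2 * (n : ℝ)) ^ s := by
      apply pow_le_pow_left₀ (by positivity)
      have : (s : ℝ) ≤ n := by exact_mod_cast (by omega : s ≤ n)
      linarith
    rw [mul_pow] at h2
    rw [hc']
    have h3 : c * (s.factorial : ℝ) / 2 ^ s * ((n + s).choose s : ℝ) =
        c / 2 ^ s * ((s.factorial : ℝ) * ((n + s).choose s : ℝ)) := by ring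
    rw [h3]
    calc c / 2 ^ s * ((s.factorial : ℝ) * ((n + s).choose s : ℝ))
        ≤ c / 2 ^ s * (2 ^ s * (n : ℝ) ^ s) :=
          mul_le_mul_of_nonneg_left (h1.trans h2) (by positivity)
      _ = c * (n : ℝ) ^ s := by field_simp
  set K : ℝ := ∑ n ∈ range N, c' * ((n + s).choose s : ℝ) with hK
  have key2 : ∀ t : ℝ, 0 < t → t < 1 → c' * (1 / (1 - t) ^ (s + 1)) ≤ ser a t + K := by
    intro t h0 h1
    have hs := (summable_choose_mul_geometric_of_norm_lt_one s (norm_lt_one h0 h1)).mul_left c'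
    rw [← tsum_choose_mul_geometric_of_norm_lt_one s (norm_lt_one h0 h1), ← tsum_mul_left,
      ← hs.sum_add_tsum_nat_add N, add_comm (ser a t)]
    refine add_le_add ?_ ?_
    · refine Finset.sum_le_sum fun n _ => ?_
      have h3 : t ^ n ≤ 1 := pow_le_one₀ h0.le h1.le
      have h4 : (0 : ℝ) ≤ ((n + s).choose s : ℝ) := by positivity
      nlinarith [mul_nonneg hc'0.le (mul_nonneg h4 (sub_nonneg.2 h3))]
    · have hsa := summable_of_bdd hb h0 h1
      rw [ser, ← hsa.sum_add_tsum_nat_add N]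
      refine le_trans ?_ (le_add_of_nonneg_left (Finset.sum_nonneg fun n _ => by positivity))
      refine Summable.tsum_le_tsum (fun n => ?_) ((summable_nat_add_iff N).2 hs)
        ((summable_nat_add_iff N).2 hsa)
      rw [← mul_assoc]
      exact mul_le_mul_of_nonneg_right (key (n + N) (by omega)) (by positivity)
  have h1 : Tendsto (fun t : ℝ => (1 - t) ^ (s + 1 - k) * ((1 - t) ^ k * ser a t) +
      (1 - t) ^ (s + 1) * K) (𝓝[<] 1) (𝓝 (0 * e + 0 * K)) :=
    ((tendsto_one_sub_pow (by omega)).mul h).add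
      ((tendsto_one_sub_pow (by omega)).mul tendsto_const_nhds)
  have h2 : c' ≤ 0 * e + 0 * K := by
    refine ge_of_tendsto h1 ?_
    filter_upwards [ev] with t ht
    have h5 : 0 < (1 - t) ^ (s + 1) := pow_pos (by linarith [ht.2]) _
    have h6 := mul_le_mul_of_nonneg_left (key2 t ht.1 ht.2) h5.le
    rw [← mul_assoc, mul_comm ((1 - t) ^ (s + 1)) c', mul_assoc, mul_one_div, div_self h5.ne',
      mul_one] at h6
    refine h6.trans (le_of_eq ?_)
    rw [← mul_assoc, ← pow_add, show s + 1 - k + k = s + 1 by omega]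
    ring
  linarith

lemma Lim.zero (k : ℕ) {a : ℕ → ℕ} (h : ∀ n, a n = 0) : Lim a k 0 := by
  have h1 : Tendsto (fun _ : ℝ => (0 : ℝ)) (𝓝[<] 1) (𝓝 0) := tendsto_const_nhds
  refine h1.congr fun t => ?_
  rw [ser, tsum_congr (fun n => by rw [h n, Nat.cast_zero, zero_mul] :
    ∀ n, (a n : ℝ) * t ^ n = 0), tsum_zero, mul_zero]

/-- comparison of two sequences -/
lemma Lim.add_le {a b : ℕ → ℕ} {k k' j : ℕ} {e e' C : ℝ} (ha : Lim a k e) (hb : Lim b k' e')
    (he' : 0 < e') (h : ∀ t : ℝ, 0 < t → t < 1 → ser b t ≤ C * (1 - t) ^ j * ser a t) :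
    k' + j ≤ k := by
  by_contra hk
  push Not at hk
  have h1 : Tendsto (fun t : ℝ => C * ((1 - t) ^ (k' + j - k) * ((1 - t) ^ k * ser a t)))
      (𝓝[<] 1) (𝓝 (C * (0 * e))) :=
    tendsto_const_nhds.mul ((tendsto_one_sub_pow (by omega)).mul ha)
  have h2 : e' ≤ C * (0 * e) := by
    refine le_of_tendsto_of_tendsto hb h1 ?_
    filter_upwards [ev] with t ht
    have h3 : 0 < (1 - t) ^ k' := pow_pos (by linarith [ht.2]) _
    refine (mul_le_mul_of_nonneg_left (h t ht.1 ht.2) h3.le).trans (le_of_eq ?_)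
    rw [← mul_assoc ((1 - t) ^ (k' + j - k)), ← pow_add, show k' + j - k + k = k' + j by omega,
      pow_add]
    ring
  linarith

lemma one_sub_pow_le (d : ℕ) {t : ℝ} (h0 : 0 < t) (h1 : t < 1) : 1 - t ^ d ≤ d * (1 - t) := by
  rw [one_sub_pow, mul_comm]
  refine mul_le_mul_of_nonneg_right ?_ (by linarith)
  calc ∑ i ∈ range d, t ^ i ≤ ∑ _i ∈ range d, (1 : ℝ) :=
        Finset.sum_le_sum fun i _ => pow_le_one₀ h0.le h1.le
    _ = d := by simp

/-- the power series of a subquotient -/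
lemma ser_sub_le {a b : ℕ → ℕ} {d : ℕ} (h : ∀ n, b (n + d) + a n ≤ a (n + d))
    (h' : ∀ n, b n ≤ a n) (ha : PolyBdd a) (hb : PolyBdd b) {t : ℝ} (h0 : 0 < t) (h1 : t < 1) :
    ser b t ≤ (1 - t ^ d) * ser a t := by
  have h2 : HasSum (fun n => (b n : ℝ) * t ^ n) (ser b t) := (summable_of_bdd hb h0 h1).hasSum
  have h3 := h2.add (hasSum_shift ha d h0 h1)
  have h4 : HasSum (fun n => (a n : ℝ) * t ^ n) (ser a t) := (summable_of_bdd ha h0 h1).hasSum
  have h5 := hasSum_le (fun n => by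
    rw [← add_mul]
    refine mul_le_mul_of_nonneg_right ?_ (by positivity)
    rw [← Nat.cast_add, Nat.cast_le]
    by_cases hn : d ≤ n
    · rw [if_pos hn]
      have := h (n - d)
      rwa [Nat.sub_add_cancel hn] at this
    · rw [if_neg hn, add_zero]
      exact h' n) h3 h4
  linarith

lemma PolyBdd.mono {a b : ℕ → ℕ} (hb : PolyBdd b) (h : ∀ n, a n ≤ b n) : PolyBdd a := by
  obtain ⟨C, s, hC⟩ := hb
  exact ⟨C, s, fun n => (h n).trans (hC n)⟩

end Pool.Agent.RCH.Dg
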