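import Pool.Agent.RCH.DgSeq
import Pool.Agent.RCH.DgHil

/-!
# The Poincaré series of a weighted homogeneous ideal near `t = 1`
-/

set_option autoImplicit false

open MvPolynomial Filter Topology

namespace Pool.Agent.RCH.Dg

variable {σ : Type} (w : σ → ℕ)

/-- the Poincaré series of the ideal `I` (of the function `H w I`) -/
noncomputable def PS (I : Ideal (MvPolynomial σ ℂ)) (t : ℝ) : ℝ := ∑' n, (H w I n : ℝ) * t ^ n

/-- `r` is the rank (the dimension of the cone) of the ideal `I` and `e` its multiplicity: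
`(1 - t) ^ (r + 1) * PS w I t` tends to `e > 0` when `t` tends to `1` from below -/
def HasRk (I : Ideal (MvPolynomial σ ℂ)) (r : ℕ) (e : ℝ) : Prop :=
  0 < e ∧ Tendsto (fun t : ℝ => (1 - t) ^ (r + 1) * PS w I t) (𝓝[<] 1) (𝓝 e)

variable {w}

lemma HasRk.lim {I : Ideal (MvPolynomial σ ℂ)} {r : ℕ} {e : ℝ} (h : HasRk w I r e) :
    Lim (H w I) (r + 1) e := h.2

lemma HasRk.unique {I : Ideal (MvPolynomial σ ℂ)} {r r' : ℕ} {e e' : ℝ} (h : HasRk w I r e)
    (h' : HasRk w I r' e') : r = r' ∧ e = e' := by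
  have h1 : r + 1 = r' + 1 := Lim.eq_of_pos h.2 h.1 h'.2 h'.1
  have h2 : r = r' := by omega
  subst h2
  exact ⟨rfl, Lim.unique h.2 h'.2⟩

variable (w) in
open Classical in
/-- the rank of an ideal (`0` if it has none) -/
noncomputable def rk (I : Ideal (MvPolynomial σ ℂ)) : ℕ :=
  if h : ∃ r : ℕ, ∃ e : ℝ, HasRk w I r e then h.choose else 0

variable (w) in
open Classical in
/-- the multiplicity of an ideal (`0` if it has none) -/
noncomputable def mult (I : Ideal (MvPolynomial σ ℂ)) : ℝ :=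
  if h : ∃ e : ℝ, HasRk w I (rk w I) e then h.choose else 0

lemma HasRk.rk_mult {I : Ideal (MvPolynomial σ ℂ)} {r : ℕ} {e : ℝ} (h : HasRk w I r e) :
    HasRk w I (rk w I) (mult w I) := by
  have h1 : ∃ r : ℕ, ∃ e : ℝ, HasRk w I r e := ⟨r, e, h⟩
  have h2 : ∃ e : ℝ, HasRk w I (rk w I) e := by
    rw [rk, dif_pos h1]
    exact h1.choose_spec
  rw [mult, dif_pos h2]
  exact h2.choose_spec

lemma HasRk.rk_eq {I : Ideal (MvPolynomial σ ℂ)} {r : ℕ} {e : ℝ} (h : HasRk w I r e) :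
    rk w I = r := (h.rk_mult.unique h).1

lemma HasRk.mult_eq {I : Ideal (MvPolynomial σ ℂ)} {r : ℕ} {e : ℝ} (h : HasRk w I r e) :
    mult w I = e := (h.rk_mult.unique h).2

section fin

variable [Finite σ] (hw : ∀ i, 0 < w i)
include hw

lemma polyBdd (I : Ideal (MvPolynomial σ ℂ)) : PolyBdd (H w I) :=
  ⟨1, Nat.card σ, fun n => by rw [one_mul]; exact H_le hw I n⟩

omit [Finite σ] hw in
/-- weights of a product -/
lemma mul_mem_Sle' {g p : MvPolynomial σ ℂ} {d n : ℕ} (hg : g ∈ Sle w d) (hp : p ∈ Sle w n) :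
    g * p ∈ Sle w (n + d) := by
  classical
  intro c hc
  rw [coeff_mul] at hc
  obtain ⟨x, hx, hx0⟩ := Finset.exists_ne_zero_of_sum_ne_zero hc
  have hx := Finset.HasAntidiagonal.mem_antidiagonal.1 hx
  have h1 := hg x.1 (left_ne_zero_of_mul hx0)
  have h2 := hp x.2 (right_ne_zero_of_mul hx0)
  rw [← hx, map_add]
  omega

/-- multiplication by an element outside of a prime ideal which need not be homogeneous -/
theorem H_prime_le {L : Ideal (MvPolynomial σ ℂ)} [L.IsPrime] {g : MvPolynomial σ ℂ}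
    (hg : g ∉ L) {d : ℕ} (hd : g ∈ Sle w d) (n : ℕ) :
    H w (L ⊔ Ideal.span {g}) (n + d) + H w L n ≤ H w L (n + d) := by
  have := finite_Sle hw n
  have := finite_Sle hw (n + d)
  let m : Sle w n →ₗ[ℂ] Sle w (n + d) :=
    (LinearMap.mulLeft ℂ g).restrict fun r hr => mul_mem_Sle' hd hr
  have hm : ∀ r : Sle w n, ((m r : Sle w (n + d)) : MvPolynomial σ ℂ) = g * r := fun r => rfl
  let f : (Sle w n ⧸ Ile w L n) →ₗ[ℂ] (Sle w (n + d) ⧸ Ile w L (n + d)) :=
    Submodule.mapQ _ _ m fun r hr => L.mul_mem_left g hr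
  have hf : Function.Injective f := by
    rw [← LinearMap.ker_eq_bot, LinearMap.ker_eq_bot']
    intro x hx
    obtain ⟨r, rfl⟩ := Submodule.Quotient.mk_surjective _ x
    have hx' : (Submodule.Quotient.mk (m r) : Sle w (n + d) ⧸ Ile w L (n + d)) = 0 := hx
    rw [Submodule.Quotient.mk_eq_zero] at hx' ⊢
    have hx1 : g * (r : MvPolynomial σ ℂ) ∈ L := hx'
    exact (Ideal.IsPrime.mem_or_mem ‹_› hx1).resolve_left hg
  let q : (Sle w (n + d) ⧸ Ile w L (n + d)) →ₗ[ℂ]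
      (Sle w (n + d) ⧸ Ile w (L ⊔ Ideal.span {g}) (n + d)) :=
    Submodule.mapQ _ _ LinearMap.id fun r hr =>
      (Submodule.mem_sup_left hr : (r : MvPolynomial σ ℂ) ∈ L ⊔ Ideal.span {g})
  have hq : Function.Surjective q := by
    intro x
    obtain ⟨r, rfl⟩ := Submodule.Quotient.mk_surjective _ x
    exact ⟨Submodule.Quotient.mk r, rfl⟩
  have hker : LinearMap.range f ≤ LinearMap.ker q := by
    rintro x ⟨y, hy⟩
    obtain ⟨r, rfl⟩ := Submodule.Quotient.mk_surjective _ y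
    rw [LinearMap.mem_ker, ← hy]
    refine (Submodule.Quotient.mk_eq_zero _).mpr ?_
    exact (Submodule.mem_sup_right (Ideal.mem_span_singleton.mpr (Dvd.intro _ rfl)) :
      g * (r : MvPolynomial σ ℂ) ∈ L ⊔ Ideal.span {g})
  have e1 := LinearMap.finrank_range_add_finrank_ker q
  rw [LinearMap.range_eq_top.mpr hq, finrank_top] at e1
  have e2 := Submodule.finrank_mono hker
  rw [LinearMap.finrank_range_of_inj hf] at e2
  rw [H, H, H, ← e1]
  exact Nat.add_le_add_left e2 _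

lemma H_exact {I : Ideal (MvPolynomial σ ℂ)} (hI : Hom w I) {a : MvPolynomial σ ℂ} {d : ℕ}
    (ha : IsWeightedHomogeneous w a d) (n : ℕ) :
    H w I n = H w (I ⊔ Ideal.span {a}) n + if d ≤ n then H w (col I a) (n - d) else 0 := by
  by_cases hn : d ≤ n
  · rw [if_pos hn]
    have := H_add hw hI ha (n - d)
    rw [Nat.sub_add_cancel hn] at this
    omega
  · rw [if_neg hn, add_zero]
    exact H_lt hw hI ha (by omega)

/-- the Poincaré series of an extension -/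
theorem PS_exact {I : Ideal (MvPolynomial σ ℂ)} (hI : Hom w I) {a : MvPolynomial σ ℂ} {d : ℕ}
    (ha : IsWeightedHomogeneous w a d) {t : ℝ} (h0 : 0 < t) (h1 : t < 1) :
    PS w I t = PS w (I ⊔ Ideal.span {a}) t + t ^ d * PS w (col I a) t :=
  ser_exact (H_exact hw hI ha) (polyBdd hw _) (polyBdd hw _) h0 h1

theorem PS_prime {P : Ideal (MvPolynomial σ ℂ)} [P.IsPrime] (hP : Hom w P)
    {a : MvPolynomial σ ℂ} {d : ℕ} (ha : IsWeightedHomogeneous w a d) (haP : a ∉ P) {t : ℝ}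
    (h0 : 0 < t) (h1 : t < 1) : PS w (P ⊔ Ideal.span {a}) t = (1 - t ^ d) * PS w P t := by
  have h := PS_exact hw hP ha h0 h1
  rw [col_prime haP] at h
  linarith

/-- the multiplicity of an extension, in a fixed rank -/
theorem tendsto_exact {I : Ideal (MvPolynomial σ ℂ)} (hI : Hom w I) {a : MvPolynomial σ ℂ} {d : ℕ}
    (ha : IsWeightedHomogeneous w a d) {k : ℕ} {e₁ e₂ : ℝ} (h1 : Lim (H w (col I a)) k e₁)
    (h2 : Lim (H w (I ⊔ Ideal.span {a})) k e₂) : Lim (H w I) k (e₁ + e₂) :=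
  Lim.exact (H_exact hw hI ha) (polyBdd hw _) (polyBdd hw _) h1 h2

/-- every weighted homogeneous ideal different from the unit ideal has a rank, which is the rank of
a homogeneous prime ideal containing it -/
theorem exists_hasRk_prime (I : Ideal (MvPolynomial σ ℂ)) :
    Hom w I → I ≠ ⊤ → ∃ (r : ℕ) (e : ℝ), HasRk w I r e ∧
      ∃ Q : Ideal (MvPolynomial σ ℂ), Q.IsPrime ∧ Hom w Q ∧ I ≤ Q ∧ ∃ e' : ℝ, HasRk w Q r e' := by
  induction I using IsNoetherian.induction with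
  | hgt I ih =>
  intro hI ht
  by_cases hp : Ideal.IsPrime I
  · have := hp
    suffices h : ∃ (r : ℕ) (e : ℝ), HasRk w I r e by
      obtain ⟨r, e, h⟩ := h
      exact ⟨r, e, h, I, hp, hI, le_rfl, e, h⟩
    by_cases hX : ∀ i, X i ∈ I
    · refine ⟨0, 1, one_pos, ?_⟩
      have h1 : H w I = fun _ => 1 := funext fun n => H_irrelevant hw ht hX n
      show Lim (H w I) (0 + 1) 1
      rw [h1]
      exact lim_one
    · push Not at hX
      obtain ⟨i, hi⟩ := hX
      have hd : IsWeightedHomogeneous w (X i : MvPolynomial σ ℂ) (w i) :=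
        isWeightedHomogeneous_X ℂ w i
      have hlt : I < I ⊔ Ideal.span {(X i : MvPolynomial σ ℂ)} := by
        refine lt_of_le_of_ne le_sup_left fun h => hi ?_
        rw [h]
        exact Ideal.mem_sup_right (Ideal.mem_span_singleton_self _)
      have hne : I ⊔ Ideal.span {(X i : MvPolynomial σ ℂ)} ≠ ⊤ := by
        intro h
        have h1 := H_lt hw hI hd (hw i)
        rw [h, H_top] at h1
        have h2 := one_le_H hw ht 0
        omega
      obtain ⟨r, e, ⟨he, hr⟩, -⟩ := ih _ hlt (hom_sup hI hd) hne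
      refine ⟨r + 1, e / w i, div_pos he (by exact_mod_cast hw i), ?_⟩
      refine Lim.of_quot (hw i) (fun n => ?_) (polyBdd hw I) (polyBdd hw _) hr
      have h3 := H_exact hw hI hd n
      rwa [col_prime hi] at h3
  · obtain ⟨a, b, d, -, ha, -, haI, hbI, hab⟩ := exists_homog_of_not_prime hI hp ht
    have hlt1 : I < col I a := by
      refine lt_of_le_of_ne (le_col I a) fun h => hbI ?_
      rw [h]
      exact hab
    have hne1 : col I a ≠ ⊤ := by
      intro h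
      have h1 : (1 : MvPolynomial σ ℂ) ∈ col I a := by
        rw [h]
        exact Submodule.mem_top
      rw [mem_col, mul_one] at h1
      exact haI h1
    have hlt2 : I < I ⊔ Ideal.span {a} := by
      refine lt_of_le_of_ne le_sup_left fun h => haI ?_
      rw [h]
      exact Ideal.mem_sup_right (Ideal.mem_span_singleton_self _)
    obtain ⟨r₁, e₁, ⟨he₁, hr₁⟩, Q₁, hQ₁, hQh₁, hle₁, hQr₁⟩ := ih _ hlt1 (hom_col hI ha) hne1
    have hle₁' : I ≤ Q₁ := hlt1.le.trans hle₁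
    by_cases hne2 : I ⊔ Ideal.span {a} = ⊤
    · refine ⟨r₁, e₁, ⟨he₁, ?_⟩, Q₁, hQ₁, hQh₁, hle₁', hQr₁⟩
      have h2 : Lim (H w (I ⊔ Ideal.span {a})) (r₁ + 1) 0 := by
        rw [hne2]
        exact Lim.zero _ fun n => H_top n
      have h3 := tendsto_exact hw hI ha hr₁ h2
      rw [add_zero] at h3
      exact h3
    · obtain ⟨r₂, e₂, ⟨he₂, hr₂⟩, Q₂, hQ₂, hQh₂, hle₂, hQr₂⟩ := ih _ hlt2 (hom_sup hI ha) hne2
      have hle₂' : I ≤ Q₂ := hlt2.le.trans hle₂
      rcases lt_trichotomy r₁ r₂ with h | h | h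
      · refine ⟨r₂, e₂, ⟨he₂, ?_⟩, Q₂, hQ₂, hQh₂, hle₂', hQr₂⟩
        have h3 := tendsto_exact hw hI ha (Lim.of_lt hr₁ (show r₁ + 1 < r₂ + 1 by omega)) hr₂
        rw [zero_add] at h3
        exact h3
      · subst h
        exact ⟨r₁, e₁ + e₂, ⟨add_pos he₁ he₂, tendsto_exact hw hI ha hr₁ hr₂⟩, Q₁, hQ₁, hQh₁,
          hle₁', hQr₁⟩
      · refine ⟨r₁, e₁, ⟨he₁, ?_⟩, Q₁, hQ₁, hQh₁, hle₁', hQr₁⟩
        have h3 := tendsto_exact hw hI ha hr₁ (Lim.of_lt hr₂ (show r₂ + 1 < r₁ + 1 by omega))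
        rw [add_zero] at h3
        exact h3

/-- every weighted homogeneous ideal different from the unit ideal has a rank -/
theorem exists_hasRk {I : Ideal (MvPolynomial σ ℂ)} (hI : Hom w I) (ht : I ≠ ⊤) :
    ∃ (r : ℕ) (e : ℝ), HasRk w I r e := by
  obtain ⟨r, e, h, -⟩ := exists_hasRk_prime hw I hI ht
  exact ⟨r, e, h⟩

/-- multiplicity of the quotient of a prime ideal by a homogeneous element of degree `d` -/
theorem tendsto_prime {P : Ideal (MvPolynomial σ ℂ)} [P.IsPrime] (hP : Hom w P)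
    {a : MvPolynomial σ ℂ} {d : ℕ} (ha : IsWeightedHomogeneous w a d) (haP : a ∉ P) {r : ℕ}
    {e : ℝ} (h : HasRk w P (r + 1) e) :
    Tendsto (fun t : ℝ => (1 - t) ^ (r + 1) * PS w (P ⊔ Ideal.span {a}) t) (𝓝[<] 1)
      (𝓝 (d * e)) := by
  refine Lim.quot (fun n => ?_) (polyBdd hw P) (polyBdd hw _) h.2
  have h3 := H_exact hw hP ha n
  rwa [col_prime haP] at h3

omit [Finite σ] hw in
/-- a polynomial bound for `H` bounds the rank -/
theorem HasRk.le_of_bdd {I : Ideal (MvPolynomial σ ℂ)} {r : ℕ} {e : ℝ} (h : HasRk w I r e)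
    {C s : ℕ} (hC : ∀ n, H w I n ≤ C * (n + 1) ^ s) : r ≤ s := by
  have := Lim.le_of_bdd h.2 h.1 hC
  omega

/-- a lower bound for `H` bounds the rank from below -/
theorem HasRk.ge_of_bdd {I : Ideal (MvPolynomial σ ℂ)} {r : ℕ} {e : ℝ} (h : HasRk w I r e)
    {c : ℝ} (hc : 0 < c) {s n₀ : ℕ} (hC : ∀ n, n₀ ≤ n → c * (n : ℝ) ^ s ≤ H w I n) : s ≤ r := by
  have := Lim.ge_of_bdd h.2 (polyBdd hw I) hc hC
  omega

/-- the Poincaré series of an ideal larger than a prime ideal (which need not be homogeneous) -/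
theorem PS_lt {L Q : Ideal (MvPolynomial σ ℂ)} [L.IsPrime] (h : L < Q) :
    ∃ d : ℕ, ∀ t : ℝ, 0 < t → t < 1 → PS w Q t ≤ (1 - t ^ d) * PS w L t := by
  obtain ⟨g, hgQ, hgL⟩ := SetLike.exists_of_lt h
  have hd : ∃ d, g ∈ Sle w d := by
    refine ⟨weightedTotalDegree w g, fun d hd => ?_⟩
    exact le_weightedTotalDegree w (mem_support_iff.2 hd)
  obtain ⟨d, hd⟩ := hd
  refine ⟨d, fun t h0 h1 => ?_⟩
  have hle : L ⊔ Ideal.span {g} ≤ Q := by
    rw [sup_le_iff, Ideal.span_singleton_le_iff_mem]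
    exact ⟨h.le, hgQ⟩
  refine ser_sub_le (fun n => ?_) (fun n => H_anti hw h.le n) (polyBdd hw L) (polyBdd hw Q) h0 h1
  exact (Nat.add_le_add_right (H_anti hw hle (n + d)) _).trans (H_prime_le hw hgL hd n)

/-- the rank strictly decreases -/
theorem HasRk.succ_le {P Q : Ideal (MvPolynomial σ ℂ)} [P.IsPrime] (h : P < Q) {r r' : ℕ}
    {e e' : ℝ} (hP : HasRk w P r e) (hQ : HasRk w Q r' e') : r' + 1 ≤ r := by
  obtain ⟨d, hd⟩ := PS_lt hw h
  have h2 : r' + 1 + 1 ≤ r + 1 := by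
    refine Lim.add_le (C := d) (j := 1) hP.2 hQ.2 hQ.1 fun t h0 h1 => ?_
    rw [pow_one]
    exact (hd t h0 h1).trans
      (mul_le_mul_of_nonneg_right (one_sub_pow_le d h0 h1) (ser_nonneg _ h0))
  omega

/-- if there is a prime ideal (homogeneous or not) strictly in between, the rank decreases by two -/
theorem HasRk.add_two_le {P L Q : Ideal (MvPolynomial σ ℂ)} [P.IsPrime] [L.IsPrime] (h : P < L)
    (h' : L < Q) {r r' : ℕ} {e e' : ℝ} (hP : HasRk w P r e) (hQ : HasRk w Q r' e') :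
    r' + 2 ≤ r := by
  obtain ⟨d, hd⟩ := PS_lt hw h
  obtain ⟨d', hd'⟩ := PS_lt hw h'
  have h2 : r' + 1 + 2 ≤ r + 1 := by
    refine Lim.add_le (C := (d' : ℝ) * d) (j := 2) hP.2 hQ.2 hQ.1 fun t h0 h1 => ?_
    have e1 := one_sub_pow_le d h0 h1
    have e2 := one_sub_pow_le d' h0 h1
    have e3 : 0 ≤ PS w P t := ser_nonneg _ h0
    have e4 : 0 ≤ 1 - t := by linarith
    calc ser (H w Q) t ≤ (1 - t ^ d') * PS w L t := hd' t h0 h1
      _ ≤ (d' * (1 - t)) * PS w L t := mul_le_mul_of_nonneg_right e2 (ser_nonneg _ h0)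
      _ ≤ (d' * (1 - t)) * ((1 - t ^ d) * PS w P t) :=
          mul_le_mul_of_nonneg_left (hd t h0 h1) (by positivity)
      _ ≤ (d' * (1 - t)) * ((d * (1 - t)) * PS w P t) :=
          mul_le_mul_of_nonneg_left (mul_le_mul_of_nonneg_right e1 e3) (by positivity)
      _ = (d' : ℝ) * d * (1 - t) ^ 2 * ser (H w P) t := by
          rw [PS, ser]
          ring
  omega

theorem hasRk {I : Ideal (MvPolynomial σ ℂ)} (hI : Hom w I) (ht : I ≠ ⊤) :
    HasRk w I (rk w I) (mult w I) := by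
  obtain ⟨r, e, h⟩ := exists_hasRk hw hI ht
  exact h.rk_mult

theorem mult_pos {I : Ideal (MvPolynomial σ ℂ)} (hI : Hom w I) (ht : I ≠ ⊤) : 0 < mult w I :=
  (hasRk hw hI ht).1

/-- the rank of the quotient of a prime ideal by a homogeneous element -/
theorem rk_add_one {P : Ideal (MvPolynomial σ ℂ)} [P.IsPrime] (hP : Hom w P)
    {a : MvPolynomial σ ℂ} {d : ℕ} (hd : 0 < d) (ha : IsWeightedHomogeneous w a d) (haP : a ∉ P)
    (ht : P ⊔ Ideal.span {a} ≠ ⊤) : rk w P = rk w (P ⊔ Ideal.span {a}) + 1 := by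
  have h := hasRk hw (hom_sup hP ha) ht
  have h1 : HasRk w P (rk w (P ⊔ Ideal.span {a}) + 1) (mult w (P ⊔ Ideal.span {a}) / d) := by
    refine ⟨div_pos h.1 (by exact_mod_cast hd), ?_⟩
    refine Lim.of_quot hd (fun n => ?_) (polyBdd hw P) (polyBdd hw _) h.2
    have h3 := H_exact hw hP ha n
    rwa [col_prime haP] at h3
  exact h1.rk_eq

/-- the rank of a homogeneous ideal is the rank of a homogeneous prime ideal containing it -/
theorem exists_prime_rk {I : Ideal (MvPolynomial σ ℂ)} (hI : Hom w I) (ht : I ≠ ⊤) :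
    ∃ Q : Ideal (MvPolynomial σ ℂ), Q.IsPrime ∧ Hom w Q ∧ I ≤ Q ∧ rk w Q = rk w I := by
  obtain ⟨r, e, h, Q, hQ, hQh, hle, e', h'⟩ := exists_hasRk_prime hw I hI ht
  exact ⟨Q, hQ, hQh, hle, by rw [h.rk_eq, h'.rk_eq]⟩

/-- a polynomial bound for `H` bounds the rank -/
theorem rk_le {I : Ideal (MvPolynomial σ ℂ)} (hI : Hom w I) (ht : I ≠ ⊤) {C s : ℕ}
    (hC : ∀ n, H w I n ≤ C * (n + 1) ^ s) : rk w I ≤ s :=
  (hasRk hw hI ht).le_of_bdd hC

/-- a lower bound for `H` bounds the rank from below -/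
theorem le_rk {I : Ideal (MvPolynomial σ ℂ)} (hI : Hom w I) (ht : I ≠ ⊤) {c : ℝ} (hc : 0 < c)
    {s n₀ : ℕ} (hC : ∀ n, n₀ ≤ n → c * (n : ℝ) ^ s ≤ H w I n) : s ≤ rk w I :=
  (hasRk hw hI ht).ge_of_bdd hw hc hC

/-- the rank strictly decreases -/
theorem rk_lt {P Q : Ideal (MvPolynomial σ ℂ)} [P.IsPrime] (hP : Hom w P) (hQ : Hom w Q)
    (hQt : Q ≠ ⊤) (h : P < Q) : rk w Q + 1 ≤ rk w P :=
  HasRk.succ_le hw h (hasRk hw hP (Ideal.IsPrime.ne_top ‹_›)) (hasRk hw hQ hQt)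

/-- if there is a prime ideal (homogeneous or not) strictly in between, the rank decreases by two -/
theorem rk_lt_lt {P L Q : Ideal (MvPolynomial σ ℂ)} [P.IsPrime] [L.IsPrime] (hP : Hom w P)
    (hQ : Hom w Q) (hQt : Q ≠ ⊤) (h : P < L) (h' : L < Q) : rk w Q + 2 ≤ rk w P :=
  HasRk.add_two_le hw h h' (hasRk hw hP (Ideal.IsPrime.ne_top ‹_›)) (hasRk hw hQ hQt)

theorem PS_add {I : Ideal (MvPolynomial σ ℂ)} (hI : Hom w I) {a : MvPolynomial σ ℂ} {d : ℕ}
    (ha : IsWeightedHomogeneous w a d) {t : ℝ} (h0 : 0 < t) (h1 : t < 1) :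
    PS w I t = t ^ d * PS w (col I a) t + PS w (I ⊔ Ideal.span {a}) t := by
  rw [PS_exact hw hI ha h0 h1, add_comm]

theorem HasRk.mono {I J : Ideal (MvPolynomial σ ℂ)} (h : I ≤ J) {r r' : ℕ} {e e' : ℝ}
    (h1 : HasRk w I r e) (h2 : HasRk w J r' e') : r' ≤ r := by
  have h3 : r' + 1 + 0 ≤ r + 1 := by
    refine Lim.add_le (C := 1) (j := 0) h1.2 h2.2 h2.1 fun t h0 ht => ?_
    rw [pow_zero, mul_one, one_mul]
    refine Summable.tsum_le_tsum (fun n => ?_) (summable_of_bdd (polyBdd hw J) h0 ht)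
      (summable_of_bdd (polyBdd hw I) h0 ht)
    exact mul_le_mul_of_nonneg_right (by exact_mod_cast H_anti hw h n) (by positivity)
  omega

theorem HasRk.lt {P Q : Ideal (MvPolynomial σ ℂ)} (hP : P.IsPrime) (h : P < Q) {r r' : ℕ}
    {e e' : ℝ} (h1 : HasRk w P r e) (h2 : HasRk w Q r' e') : r' + 1 ≤ r :=
  HasRk.succ_le hw h h1 h2

theorem HasRk.lt_lt {P L Q : Ideal (MvPolynomial σ ℂ)} (hP : P.IsPrime) (hL : L.IsPrime)
    (h : P < L) (h' : L < Q) {r r' : ℕ}
    {e e' : ℝ} (h1 : HasRk w P r e) (h2 : HasRk w Q r' e') : r' + 2 ≤ r :=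
  HasRk.add_two_le hw h h' h1 h2

theorem HasRk.zero_of_X {I : Ideal (MvPolynomial σ ℂ)} (hI : I ≠ ⊤) (hX : ∀ i, X i ∈ I) {r : ℕ}
    {e : ℝ} (h : HasRk w I r e) : r = 0 := by
  have h1 : H w I = fun _ => 1 := funext fun n => H_irrelevant hw hI hX n
  have h2 : HasRk w I 0 1 := by
    refine ⟨one_pos, ?_⟩
    show Lim (H w I) (0 + 1) 1
    rw [h1]
    exact lim_one
  exact (h.unique h2).1

omit [Finite σ] hw in
theorem PS_top (t : ℝ) : PS w (⊤ : Ideal (MvPolynomial σ ℂ)) t = 0 := by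
  rw [PS, tsum_congr (fun n => by rw [H_top, Nat.cast_zero, zero_mul] :
    ∀ n, (H w (⊤ : Ideal (MvPolynomial σ ℂ)) n : ℝ) * t ^ n = 0), tsum_zero]

/-- the quotient of a prime ideal by a homogeneous element has the rank minus one -/
theorem HasRk.add_one {P : Ideal (MvPolynomial σ ℂ)} (hp : P.IsPrime) (hP : Hom w P)
    {a : MvPolynomial σ ℂ} {d : ℕ} (hd : 1 ≤ d) (ha : IsWeightedHomogeneous w a d) (haP : a ∉ P)
    (ht : P ⊔ Ideal.span {a} ≠ ⊤) {r : ℕ} {e : ℝ} (h : HasRk w P r e) :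
    ∃ e' : ℝ, HasRk w (P ⊔ Ideal.span {a}) (r - 1) e' ∧ 1 ≤ r := by
  have h1 := hasRk hw (hom_sup hP ha) ht
  have h2 := rk_add_one hw hP hd ha haP ht
  rw [h.rk_eq] at h2
  refine ⟨mult w (P ⊔ Ideal.span {a}), ?_, by omega⟩
  rw [h2, Nat.add_sub_cancel]
  exact h1

end fin

end Pool.Agent.RCH.Dg
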