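import Pool.Agent.RCH.AutBox

/-!
# Graded isomorphisms act on cycles modulo rational equivalence

A graded isomorphism from `X` to `Y` is an automorphism of the polynomial ring of the coordinates
which sends every coordinate to a weighted homogeneous polynomial of the same weight and the
equations of `X` to the equations of `Y`. It induces a bijection between the points of `Y^N` and the
points of `X^N`, compatible with rational equivalence and with products of cycles.
-/

set_option autoImplicit false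

open MvPolynomial

namespace Pool.Agent.RCH

variable {ι : Type}

section facHom

/-- a map of polynomial rings, applied in every factor -/
noncomputable def facHom (N : ℕ) (φ : MvPolynomial ι ℂ →ₐ[ℂ] MvPolynomial ι ℂ) :
    Coord ι N →ₐ[ℂ] Coord ι N :=
  aeval (fun v => inFactor N v.1 (φ (MvPolynomial.X v.2)))

variable {N : ℕ}

lemma facHom_X (φ : MvPolynomial ι ℂ →ₐ[ℂ] MvPolynomial ι ℂ) (v : Fin N × ι) :
    facHom N φ (MvPolynomial.X v) = inFactor N v.1 (φ (MvPolynomial.X v.2)) := by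
  rw [facHom, aeval_X]

lemma facHom_inFactor (φ : MvPolynomial ι ℂ →ₐ[ℂ] MvPolynomial ι ℂ) (i : Fin N)
    (f : MvPolynomial ι ℂ) : facHom N φ (inFactor N i f) = inFactor N i (φ f) := by
  have h : (facHom N φ).comp (inFactor N i) = (inFactor N i).comp φ := by
    apply MvPolynomial.algHom_ext
    intro j
    rw [AlgHom.comp_apply, AlgHom.comp_apply]
    have h1 : inFactor N i (MvPolynomial.X j : MvPolynomial ι ℂ) = MvPolynomial.X (i, j) := by
      rw [inFactor, rename_X]
    rw [h1, facHom_X]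
  exact congrArg (fun g => g f) h

lemma facHom_facHom (φ ψ : MvPolynomial ι ℂ →ₐ[ℂ] MvPolynomial ι ℂ) (p : Coord ι N) :
    facHom N φ (facHom N ψ p) = facHom N (φ.comp ψ) p := by
  have h : (facHom N φ).comp (facHom N ψ) = facHom N (φ.comp ψ) := by
    apply MvPolynomial.algHom_ext
    intro v
    rw [AlgHom.comp_apply, facHom_X, facHom_inFactor, facHom_X, AlgHom.comp_apply]
  exact congrArg (fun g => g p) h

lemma facHom_id (p : Coord ι N) : facHom N (AlgHom.id ℂ (MvPolynomial ι ℂ)) p = p := by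
  have h : facHom N (AlgHom.id ℂ (MvPolynomial ι ℂ)) = AlgHom.id ℂ (Coord ι N) := by
    apply MvPolynomial.algHom_ext
    intro v
    rw [facHom_X, AlgHom.id_apply, AlgHom.id_apply, inFactor, rename_X]
  exact congrArg (fun g => g p) h

/-- an automorphism of the polynomial ring, applied in every factor -/
noncomputable def facN (N : ℕ) (φ : MvPolynomial ι ℂ ≃ₐ[ℂ] MvPolynomial ι ℂ) :
    Coord ι N ≃ₐ[ℂ] Coord ι N :=
  AlgEquiv.ofAlgHom (facHom N φ.toAlgHom) (facHom N φ.symm.toAlgHom)
    (by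
      apply AlgHom.ext
      intro p
      rw [AlgHom.comp_apply, facHom_facHom, AlgHom.id_apply]
      have h : φ.toAlgHom.comp φ.symm.toAlgHom = AlgHom.id ℂ (MvPolynomial ι ℂ) := by
        apply AlgHom.ext
        intro f
        exact φ.apply_symm_apply f
      rw [h, facHom_id])
    (by
      apply AlgHom.ext
      intro p
      rw [AlgHom.comp_apply, facHom_facHom, AlgHom.id_apply]
      have h : φ.symm.toAlgHom.comp φ.toAlgHom = AlgHom.id ℂ (MvPolynomial ι ℂ) := by
        apply AlgHom.ext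
        intro f
        exact φ.symm_apply_apply f
      rw [h, facHom_id])

lemma facN_apply (φ : MvPolynomial ι ℂ ≃ₐ[ℂ] MvPolynomial ι ℂ) (p : Coord ι N) :
    facN N φ p = facHom N φ.toAlgHom p := rfl

lemma facN_symm_apply (φ : MvPolynomial ι ℂ ≃ₐ[ℂ] MvPolynomial ι ℂ) (p : Coord ι N) :
    (facN N φ).symm p = facHom N φ.symm.toAlgHom p := rfl

lemma facN_symm (φ : MvPolynomial ι ℂ ≃ₐ[ℂ] MvPolynomial ι ℂ) :
    (facN N φ).symm = facN N φ.symm := rfl

/-- a monomial goes to a polynomial of the same multidegree -/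
lemma facHom_homogeneous_monomial (X : WVar ι) {φ : MvPolynomial ι ℂ →ₐ[ℂ] MvPolynomial ι ℂ}
    (hφ : ∀ j, IsWeightedHomogeneous X.wt (φ (MvPolynomial.X j)) (X.wt j))
    (s : Fin N × ι →₀ ℕ) (a : ℂ) :
    IsWeightedHomogeneous (X.mdeg N) (facHom N φ (monomial s a))
      (Finsupp.weight (X.mdeg N) s) := by
  classical
  induction s using Finsupp.induction generalizing a with
  | zero =>
    have h1 : (monomial (0 : Fin N × ι →₀ ℕ) a : Coord ι N) = C a := rfl
    rw [h1, ← MvPolynomial.algebraMap_eq, AlgHom.commutes, MvPolynomial.algebraMap_eq, map_zero]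
    exact isWeightedHomogeneous_C _ a
  | single_add v k s hv hk ih =>
    have h1 : (monomial (Finsupp.single v k + s) a : Coord ι N) =
        MvPolynomial.X v ^ k * monomial s a := by
      rw [MvPolynomial.X_pow_eq_monomial, monomial_mul, one_mul]
    rw [h1, map_mul, map_pow, facHom_X, map_add]
    have h2 : IsWeightedHomogeneous (X.mdeg N) (inFactor N v.1 (φ (MvPolynomial.X v.2)))
        (X.mdeg N v) := inFactor_homogeneous X v.1 (hφ v.2)
    have h5 := (h2.pow k).mul (ih a)
    rwa [← Finsupp.weight_single] at h5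

lemma facHom_homogeneous (X : WVar ι) {φ : MvPolynomial ι ℂ →ₐ[ℂ] MvPolynomial ι ℂ}
    (hφ : ∀ j, IsWeightedHomogeneous X.wt (φ (MvPolynomial.X j)) (X.wt j)) {p : Coord ι N}
    {e : Fin N → ℕ} (hp : IsWeightedHomogeneous (X.mdeg N) p e) :
    IsWeightedHomogeneous (X.mdeg N) (facHom N φ p) e := by
  classical
  rw [MvPolynomial.as_sum p, map_sum]
  rw [← mem_weightedHomogeneousSubmodule]
  refine Submodule.sum_mem _ fun s hs => ?_
  rw [mem_weightedHomogeneousSubmodule]
  have h := facHom_homogeneous_monomial X hφ s (coeff s p)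
  have h1 : Finsupp.weight (X.mdeg N) s = e := hp (mem_support_iff.mp hs)
  rwa [h1] at h

lemma facHom_component (X : WVar ι) {φ : MvPolynomial ι ℂ →ₐ[ℂ] MvPolynomial ι ℂ}
    (hφ : ∀ j, IsWeightedHomogeneous X.wt (φ (MvPolynomial.X j)) (X.wt j)) (p : Coord ι N)
    (e : Fin N → ℕ) :
    weightedHomogeneousComponent (X.mdeg N) e (facHom N φ p) =
      facHom N φ (weightedHomogeneousComponent (X.mdeg N) e p) := by
  classical
  conv_lhs => rw [MvPolynomial.as_sum p]
  rw [weightedHomogeneousComponent_apply (w := X.mdeg N) (n := e) (φ := p), map_sum, map_sum,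
    map_sum, Finset.sum_filter]
  refine Finset.sum_congr rfl fun s hs => ?_
  have h := facHom_homogeneous_monomial X hφ s (coeff s p)
  split_ifs with h1
  · rw [h1] at h
    exact h.weightedHomogeneousComponent_same
  · exact h.weightedHomogeneousComponent_ne _ (fun h2 => h1 h2.symm)

lemma facHom_prMap (φ : MvPolynomial ι ℂ →ₐ[ℂ] MvPolynomial ι ℂ) (i : Fin N) (p : Coord ι 1) :
    facHom N φ (prMap ι N i p) = prMap ι N i (facHom 1 φ p) := by
  have h : (facHom N φ).comp (prMap ι N i) = (prMap ι N i).comp (facHom 1 φ) := by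
    apply MvPolynomial.algHom_ext
    intro v
    rw [AlgHom.comp_apply, AlgHom.comp_apply, facHom_X]
    have h1 : prMap ι N i (MvPolynomial.X v) = MvPolynomial.X (i, v.2) := by
      rw [prMap, rename_X]
    rw [h1, facHom_X, inFactor, inFactor, prMap, rename_rename]
    rfl
  exact congrArg (fun g => g p) h

end facHom

/-- A graded isomorphism from `X` to `Y`: an automorphism of the polynomial ring which sends every
coordinate to a polynomial of the same weight, whose inverse has the same property, and which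
identifies the equations. All weights are positive. -/
structure WIso (X Y : WVar ι) where
  /-- the automorphism of the polynomial ring -/
  φ : MvPolynomial ι ℂ ≃ₐ[ℂ] MvPolynomial ι ℂ
  wt_eq : Y.wt = X.wt
  pos : ∀ j, 0 < X.wt j
  hφ : ∀ j, IsWeightedHomogeneous X.wt (φ (MvPolynomial.X j)) (X.wt j)
  hψ : ∀ j, IsWeightedHomogeneous X.wt (φ.symm (MvPolynomial.X j)) (X.wt j)
  heq : ∀ f : MvPolynomial ι ℂ, φ f ∈ Y.eqs ↔ f ∈ X.eqs

namespace WIso

variable {X Y : WVar ι}

/-- the inverse -/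
noncomputable def symm (g : WIso X Y) : WIso Y X where
  φ := g.φ.symm
  wt_eq := g.wt_eq.symm
  pos := fun j => by rw [g.wt_eq]; exact g.pos j
  hφ := fun j => by rw [g.wt_eq]; exact g.hψ j
  hψ := fun j => by rw [g.wt_eq]; exact g.hφ j
  heq := fun f => by rw [← g.heq, AlgEquiv.apply_symm_apply]

lemma mdeg_eq (g : WIso X Y) (N : ℕ) : Y.mdeg N = X.mdeg N := by
  funext v
  rw [WVar.mdeg, WVar.mdeg, g.wt_eq]

/-- the transport of a point of `Y^N` -/
noncomputable def trPt (g : WIso X Y) (N : ℕ) (Q : Pt Y N) : Pt X N where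
  I := Q.I.comap (facN N g.φ)
  prime := by
    have := Q.prime
    exact Ideal.comap_isPrime _ _
  homog := fun p hp e => by
    rw [Ideal.mem_comap] at hp ⊢
    rw [facN_apply, ← facHom_component X g.hφ, ← g.mdeg_eq N]
    exact Q.homog _ hp _
  relevant := fun i => by
    by_contra hcon
    push Not at hcon
    obtain ⟨j, hj⟩ := Q.relevant i
    apply hj
    set J := Q.I
    have h0 : ∀ k : ι, (Ideal.Quotient.mkₐ ℂ J) (inFactor N i (g.φ (MvPolynomial.X k))) = 0 := by
      intro k
      rw [Ideal.Quotient.mkₐ_eq_mk, Ideal.Quotient.eq_zero_iff_mem]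
      have h1 := hcon k
      rw [Ideal.mem_comap, facN_apply, facHom_X] at h1
      exact h1
    have h2 : (((Ideal.Quotient.mkₐ ℂ J).comp (inFactor N i)).comp g.φ.toAlgHom) =
        aeval (0 : ι → Coord ι N ⧸ J) := by
      apply MvPolynomial.algHom_ext
      intro k
      rw [aeval_X]
      exact h0 k
    have h3 : (Ideal.Quotient.mkₐ ℂ J) (inFactor N i (g.φ (g.φ.symm (MvPolynomial.X j)))) =
        aeval (0 : ι → Coord ι N ⧸ J) (g.φ.symm (MvPolynomial.X j)) := by
      rw [← h2]
      rfl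
    rw [AlgEquiv.apply_symm_apply, aeval_zero] at h3
    have h4 : constantCoeff (g.φ.symm (MvPolynomial.X j)) = 0 := by
      by_contra hne
      have h5 := g.hψ j hne
      rw [map_zero] at h5
      have := g.pos j
      omega
    rw [h4, map_zero, Ideal.Quotient.mkₐ_eq_mk, Ideal.Quotient.eq_zero_iff_mem] at h3
    have h6 : inFactor N i (MvPolynomial.X j : MvPolynomial ι ℂ) = MvPolynomial.X (i, j) := by
      rw [inFactor, rename_X]
    rwa [h6] at h3
  onX := fun i f hf => by
    rw [Ideal.mem_comap, facN_apply, facHom_inFactor]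
    exact Q.onX _ _ ((g.heq f).mpr hf)

lemma mem_trPt (g : WIso X Y) (N : ℕ) (Q : Pt Y N) (p : Coord ι N) :
    p ∈ (g.trPt N Q).I ↔ facN N g.φ p ∈ Q.I := Iff.rfl

/-- the transport of points as a bijection -/
noncomputable def tr (g : WIso X Y) (N : ℕ) : Pt Y N ≃ Pt X N where
  toFun := g.trPt N
  invFun := g.symm.trPt N
  left_inv := fun Q => by
    apply Pt.ext'
    ext p
    rw [mem_trPt, mem_trPt]
    show facN N g.φ ((facN N g.φ).symm p) ∈ _ ↔ _
    rw [AlgEquiv.apply_symm_apply]
  right_inv := fun Q => by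
    apply Pt.ext'
    ext p
    rw [mem_trPt, mem_trPt]
    show (facN N g.φ).symm (facN N g.φ p) ∈ _ ↔ _
    rw [AlgEquiv.symm_apply_apply]

lemma tr_I (g : WIso X Y) (N : ℕ) (Q : Pt Y N) : (g.tr N Q).I = Q.I.comap (facN N g.φ) := rfl

lemma mem_tr (g : WIso X Y) (N : ℕ) (Q : Pt Y N) (p : Coord ι N) :
    p ∈ (g.tr N Q).I ↔ facN N g.φ p ∈ Q.I := Iff.rfl

lemma tr_symm (g : WIso X Y) (N : ℕ) : (g.tr N).symm = g.symm.tr N := rfl

lemma isDivisor_tr (g : WIso X Y) {N : ℕ} {P : Pt Y N} {a b : Coord ι N} {c : Cycles Y N}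
    (h : IsDivisor Y P a b c) :
    IsDivisor X (g.tr N P) ((facN N g.φ).symm a) ((facN N g.φ).symm b)
      (Finsupp.mapDomain (g.tr N) c) := by
  classical
  intro Q
  obtain ⟨Q, rfl⟩ := (g.tr N).surjective Q
  rw [Finsupp.mapDomain_apply (g.tr N).injective, h Q]
  have hP : ∀ x, (facN N g.φ).toRingEquiv x ∈ P.I ↔ x ∈ (g.tr N P).I := fun x => Iff.rfl
  have hQ : ∀ x, (facN N g.φ).toRingEquiv x ∈ Q.I ↔ x ∈ (g.tr N Q).I := fun x => Iff.rfl
  have hP' : ∀ x, (facN N g.φ).symm.toRingEquiv x ∈ (g.tr N P).I ↔ x ∈ P.I := fun x => by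
    rw [mem_tr]
    show facN N g.φ ((facN N g.φ).symm x) ∈ _ ↔ _
    rw [AlgEquiv.apply_symm_apply]
  have hQ' : ∀ x, (facN N g.φ).symm.toRingEquiv x ∈ (g.tr N Q).I ↔ x ∈ Q.I := fun x => by
    rw [mem_tr]
    show facN N g.φ ((facN N g.φ).symm x) ∈ _ ↔ _
    rw [AlgEquiv.apply_symm_apply]
  have hcod : CodimOne P.I Q.I ↔ CodimOne (g.tr N P).I (g.tr N Q).I :=
    ⟨fun hc => codimOne_equiv (facN N g.φ).symm.toRingEquiv hP' hQ' hc,
      fun hc => codimOne_equiv (facN N g.φ).toRingEquiv hP hQ hc⟩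
  by_cases hc : CodimOne P.I Q.I
  · rw [if_pos hc, if_pos (hcod.mp hc)]
    have := Q.prime
    have := (g.tr N Q).prime
    have h1 : ∀ x, ordAt P.I Q.I x =
        ordAt (g.tr N P).I (g.tr N Q).I ((facN N g.φ).symm x) :=
      fun x => ordAt_equiv (facN N g.φ).symm.toRingEquiv hP' hQ' x
    rw [h1 a, h1 b]
  · rw [if_neg hc, if_neg (fun h' => hc (hcod.mpr h'))]

lemma ratZero_tr_aux (g : WIso X Y) {N : ℕ} {z : Cycles Y N} (hz : z ∈ RatZero Y N) :
    Finsupp.mapDomain (g.tr N) z ∈ RatZero X N := by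
  have h : RatZero Y N ≤ (RatZero X N).comap (Finsupp.mapDomain.addMonoidHom (g.tr N)) := by
    conv_lhs => rw [RatZero]
    rw [AddSubgroup.closure_le]
    rintro c ⟨P, a, b, e, ha, hb, haP, hbP, hc⟩
    rw [g.mdeg_eq N] at ha hb
    rw [SetLike.mem_coe, AddSubgroup.mem_comap]
    refine AddSubgroup.subset_closure ⟨g.tr N P, (facN N g.φ).symm a, (facN N g.φ).symm b, e,
      ?_, ?_, ?_, ?_, g.isDivisor_tr hc⟩
    · exact facHom_homogeneous X g.hψ ha
    · exact facHom_homogeneous X g.hψ hb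
    · rw [mem_tr, AlgEquiv.apply_symm_apply]
      exact haP
    · rw [mem_tr, AlgEquiv.apply_symm_apply]
      exact hbP
  exact h hz

/-- Rational equivalence is preserved by graded isomorphisms. -/
theorem ratZero_tr (g : WIso X Y) {N : ℕ} (z : Cycles Y N) :
    Finsupp.mapDomain (g.tr N) z ∈ RatZero X N ↔ z ∈ RatZero Y N := by
  refine ⟨fun h => ?_, g.ratZero_tr_aux⟩
  have h1 := g.symm.ratZero_tr_aux h
  rw [← g.tr_symm N, ← Finsupp.mapDomain_comp] at h1
  have h3 : ((g.tr N).symm : Pt X N → Pt Y N) ∘ (g.tr N) = id := by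
    funext Q
    simp
  rwa [h3, Finsupp.mapDomain_id] at h1

/-- graded isomorphisms and ideals of products -/
lemma boxIdeal_tr (g : WIso X Y) {N : ℕ} (Q : Fin N → Pt Y 1) :
    boxIdeal X (fun i => g.tr 1 (Q i)) = (boxIdeal Y Q).comap (facN N g.φ) := by
  have h1 : (boxIdeal Y Q).comap (facN N g.φ) =
      (boxIdeal Y Q).map (facN N g.φ).symm.toRingEquiv.toRingHom := by
    have h := Ideal.map_comap_of_equiv (I := boxIdeal Y Q) (facN N g.φ).symm.toRingEquiv
    exact h.symm
  rw [h1, boxIdeal, boxIdeal, Ideal.map_iSup]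
  refine iSup_congr fun i => ?_
  have h2 : (g.tr 1 (Q i)).I = (Q i).I.map (facN 1 g.φ).symm.toRingEquiv.toRingHom := by
    rw [tr_I]
    have h := Ideal.map_comap_of_equiv (I := (Q i).I) (facN 1 g.φ).symm.toRingEquiv
    exact h.symm
  rw [h2, Ideal.map_map, Ideal.map_map]
  have h3 : (rename (R := ℂ) (fun v : Fin 1 × ι => (i, v.2))).toRingHom.comp
      (facN 1 g.φ).symm.toRingEquiv.toRingHom =
      (facN N g.φ).symm.toRingEquiv.toRingHom.comp
        (rename (R := ℂ) (fun v : Fin 1 × ι => (i, v.2))).toRingHom := by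
    refine RingHom.ext fun p => ?_
    exact (facHom_prMap g.φ.symm.toAlgHom i p).symm
  rw [h3]

/-- graded isomorphisms and products of integral subschemes -/
theorem box_tr [Finite ι] (g : WIso X Y) {N : ℕ} (Q : Fin N → Pt Y 1) :
    Finsupp.mapDomain (g.tr N) (box Y Q) = box X (fun i => g.tr 1 (Q i)) := by
  obtain ⟨P, hP, hbox⟩ := box_eq Y Q
  rw [hbox, Finsupp.mapDomain_single]
  refine (box_of_eq X _ (g.tr N P) ?_).symm
  rw [boxIdeal_tr, tr_I, hP]

/-- graded isomorphisms and products of cycles -/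
theorem boxC_tr [Finite ι] (g : WIso X Y) {N : ℕ} (a : Fin N → Cycles Y 1) :
    Finsupp.mapDomain (g.tr N) (boxC Y a) =
      boxC X (fun i => Finsupp.mapDomain (g.tr 1) (a i)) := by
  classical
  have hs : ∀ i, (Finsupp.mapDomain (g.tr 1) (a i)).support ⊆
      (a i).support.image (g.tr 1) := fun i => Finsupp.mapDomain_support
  rw [boxC_eq_sum X _ _ hs, boxC]
  rw [Finsupp.mapDomain_finsetSum]
  refine Finset.sum_bij (fun Q _ => fun i => g.tr 1 (Q i)) ?_ ?_ ?_ ?_
  · intro Q hQ
    rw [Fintype.mem_piFinset] at hQ ⊢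
    intro i
    exact Finset.mem_image_of_mem _ (hQ i)
  · intro Q _ Q' _ h
    funext i
    exact (g.tr 1).injective (congrFun h i)
  · intro Q' hQ'
    rw [Fintype.mem_piFinset] at hQ'
    have h1 : ∀ i, ∃ q ∈ (a i).support, g.tr 1 q = Q' i := fun i =>
      Finset.mem_image.mp (hQ' i)
    choose q hq hq' using h1
    refine ⟨q, ?_, ?_⟩
    · rw [Fintype.mem_piFinset]
      exact hq
    · funext i
      exact hq' i
  · intro Q _
    rw [Finsupp.mapDomain_smul, box_tr]
    congr 1
    refine Finset.prod_congr rfl fun i _ => ?_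
    rw [Finsupp.mapDomain_apply (g.tr 1).injective]

/-- graded isomorphisms and exterior powers -/
theorem extPow_tr [Finite ι] (g : WIso X Y) (a : Cycles Y 1) (N : ℕ) :
    Finsupp.mapDomain (g.tr N) (extPow Y a N) = extPow X (Finsupp.mapDomain (g.tr 1) a) N := by
  rw [extPow_eq_boxC, extPow_eq_boxC, boxC_tr]

/-- multiples of exterior powers and rational equivalence -/
theorem smul_extPow_mem [Finite ι] (g : WIso X Y) (a : Cycles Y 1) (N k : ℕ) :
    k • extPow X (Finsupp.mapDomain (g.tr 1) a) N ∈ RatZero X N ↔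
      k • extPow Y a N ∈ RatZero Y N := by
  rw [← g.extPow_tr, ← Finsupp.mapDomain_smul, g.ratZero_tr]

/-- Smash-nilpotence is preserved by graded isomorphisms. -/
theorem smashNilpotent_tr [Finite ι] (g : WIso X Y) (a : Cycles Y 1) :
    SmashNilpotent X (Finsupp.mapDomain (g.tr 1) a) ↔ SmashNilpotent Y a := by
  constructor
  · rintro ⟨N, hN, k, hk, h⟩
    exact ⟨N, hN, k, hk, (g.smul_extPow_mem a N k).mp h⟩
  · rintro ⟨N, hN, k, hk, h⟩
    exact ⟨N, hN, k, hk, (g.smul_extPow_mem a N k).mpr h⟩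

end WIso

end Pool.Agent.RCH
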