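import Mathlib

/-!
# Adjoining a square root of a quadratic polynomial with non-zero discriminant
-/

set_option autoImplicit false

namespace Pool.Agent.RCH

open Polynomial

/-- a monic polynomial over a subring of a field which is irreducible over the field is prime -/
lemma prime_of_map_irreducible {R K : Type*} [CommRing R] [Field K] (i : R →+* K)
    (hi : Function.Injective i) {p : R[X]} (hp : p.Monic) (h : Irreducible (p.map i)) :
    Prime p := by
  have hP : Prime (p.map i) := h.prime
  have h0 : p ≠ 0 := by
    rintro rfl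
    exact h.ne_zero (by simp)
  refine ⟨h0, fun hu => h.not_isUnit (hu.map (mapRingHom i)), fun a b hab => ?_⟩
  have h1 : p.map i ∣ a.map i * b.map i := by
    rw [← Polynomial.map_mul]
    exact (map_dvd_map i hi hp).2 hab
  exact (hP.dvd_or_dvd h1).imp (map_dvd_map i hi hp).1 (map_dvd_map i hi hp).1

/-- a quadratic polynomial with non-zero discriminant over a field is not a square of a rational
function -/
lemma sq_ne_of_disc {F : Type*} [Field F] (α β γ : F)
    (h : β ^ 2 - 4 * α * γ ≠ 0) (r : FractionRing F[X]) :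
    r ^ 2 ≠ algebraMap F[X] (FractionRing F[X]) (C α * X ^ 2 + C β * X + C γ) := by
  intro hr
  have hint : IsIntegral F[X] (r ^ 2) := by
    rw [hr]
    exact isIntegral_algebraMap
  obtain ⟨q, rfl⟩ := IsIntegrallyClosed.exists_algebraMap_eq_of_isIntegral_pow
    (by norm_num : 0 < 2) hint
  rw [← map_pow] at hr
  have hq := IsFractionRing.injective F[X] (FractionRing F[X]) hr
  have hd : q.natDegree ≤ 1 := by
    have h1 : (q ^ 2).natDegree = 2 * q.natDegree := natDegree_pow q 2
    have h2 : (q ^ 2).natDegree ≤ 2 := by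
      rw [hq]
      exact natDegree_quadratic_le
    omega
  obtain ⟨u, v, rfl⟩ := exists_eq_X_add_C_of_natDegree_le_one hd
  have hexp : (C u * X + C v) ^ 2
      = C (u ^ 2) * X ^ 2 + C (2 * u * v) * X + C (v ^ 2) := by
    simp only [map_mul, map_pow, map_ofNat]
    ring
  rw [hexp] at hq
  have key : ∀ a b c : F, (C a * X ^ 2 + C b * X + C c : F[X]).coeff 2 = a ∧
      (C a * X ^ 2 + C b * X + C c : F[X]).coeff 1 = b ∧
      (C a * X ^ 2 + C b * X + C c : F[X]).coeff 0 = c := by
    intro a b c
    refine ⟨?_, ?_, ?_⟩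
    · simp only [coeff_add, coeff_C_mul, coeff_X_pow, coeff_X, coeff_C]; norm_num
    · simp only [coeff_add, coeff_C_mul, coeff_X_pow, coeff_X, coeff_C]; norm_num
    · simp only [coeff_add, coeff_C_mul, coeff_X_pow, coeff_X, coeff_C]; norm_num
  have h1 := key (u ^ 2) (2 * u * v) (v ^ 2)
  have h2 := key α β γ
  rw [hq] at h1
  apply h
  have ha := h2.1.symm.trans h1.1
  have hb := h2.2.1.symm.trans h1.2.1
  have hc := h2.2.2.symm.trans h1.2.2
  rw [ha, hb, hc]
  ring

/-- **Row B1.**  Over a domain `A`, a quadratic polynomial in one variable with non-zero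
discriminant has no square root, and adjoining one gives a domain. -/
theorem prime_sq_sub {A : Type*} [CommRing A] [IsDomain A] (α β γ : A)
    (h : β ^ 2 - 4 * α * γ ≠ 0) :
    Prime (X ^ 2 - C (C α * X ^ 2 + C β * X + C γ) : A[X][X]) := by
  let F := FractionRing A
  let K := FractionRing F[X]
  have hA : Function.Injective (algebraMap A F) := IsFractionRing.injective A F
  let i : A[X] →+* K := (algebraMap F[X] K).comp (mapRingHom (algebraMap A F))
  have hi : Function.Injective i :=
    (IsFractionRing.injective F[X] K).comp (map_injective _ hA)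
  refine prime_of_map_irreducible i hi (monic_X_pow_sub_C _ (by norm_num)) ?_
  have hmap : (X ^ 2 - C (C α * X ^ 2 + C β * X + C γ) : A[X][X]).map i
      = X ^ 2 - C (algebraMap F[X] K (C (algebraMap A F α) * X ^ 2 +
        C (algebraMap A F β) * X + C (algebraMap A F γ))) := by
    rw [Polynomial.map_sub, Polynomial.map_pow, map_X, map_C]
    congr 2
    simp [i]
  rw [hmap]
  refine X_pow_sub_C_irreducible_of_prime Nat.prime_two fun r => sq_ne_of_disc _ _ _ ?_ r
  intro h0
  apply h
  apply hA
  rw [map_zero, ← h0]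
  simp only [map_sub, map_mul, map_pow, map_ofNat]

theorem isDomain_adjoinRoot_sq {A : Type*} [CommRing A] [IsDomain A] (α β γ : A)
    (h : β ^ 2 - 4 * α * γ ≠ 0) :
    IsDomain (AdjoinRoot (X ^ 2 - C (C α * X ^ 2 + C β * X + C γ) : A[X][X])) :=
  AdjoinRoot.isDomain_of_prime (prime_sq_sub α β γ h)

end Pool.Agent.RCH
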