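import Mathlib

/-!
# Functions on a power of a cyclic group with vanishing sums over lines

Row G-ALG of project G: a function on `(ℤ/t)^N`, `t < 2N`, with values in a complex vector space is
zero if its sums over the lines in the directions `e_i`, `e_i + e_j`, `e_i - e_j` are zero: for each
character `a` one of these directions is orthogonal to `a`, so every Fourier coefficient is zero.
-/

set_option autoImplicit false

namespace Pool.Agent.RCH

namespace Gd

section

variable {t : ℕ} [NeZero t] {W : Type} [AddCommGroup W] [Module ℂ W] {N : ℕ}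

/-- the character `k ↦ e(∑ a_i k_i)` -/
private noncomputable def chr (a k : Fin N → ZMod t) : ℂ := ZMod.stdAddChar (∑ i, a i * k i)

private lemma chr_add (a k v : Fin N → ZMod t) : chr a (k + v) = chr a k * chr a v := by
  rw [chr, chr, chr, ← AddChar.map_add_eq_mul]
  congr 1
  rw [← Finset.sum_add_distrib]
  exact Finset.sum_congr rfl fun i _ => mul_add _ _ _

private lemma std_sum (s : Finset (Fin N)) (g : Fin N → ZMod t) :
    (ZMod.stdAddChar (∑ i ∈ s, g i) : ℂ) = ∏ i ∈ s, (ZMod.stdAddChar (g i) : ℂ) := by
  induction s using Finset.induction_on with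
  | empty => simp
  | insert i s hi ih =>
    rw [Finset.sum_insert hi, Finset.prod_insert hi, AddChar.map_add_eq_mul, ih]

private lemma chr_smul_eq_one (a v : Fin N → ZMod t) (h : ∑ i, a i * v i = 0) (s : ZMod t) :
    chr a (s • v) = 1 := by
  rw [chr]
  have : ∑ i, a i * (s • v) i = s * ∑ i, a i * v i := by
    rw [Finset.mul_sum]
    refine Finset.sum_congr rfl fun i _ => ?_
    rw [Pi.smul_apply, smul_eq_mul]
    ring
  rw [this, h, mul_zero, AddChar.map_zero_eq_one]

/-- a Fourier coefficient is zero if the sums over the lines in an orthogonal direction are zero -/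
private lemma coeff_zero (f : (Fin N → ZMod t) → W) (a v : Fin N → ZMod t)
    (hav : ∑ i, a i * v i = 0) (hv : ∀ k, ∑ s : ZMod t, f (k + s • v) = 0) :
    ∑ k, chr a k • f k = 0 := by
  have h1 : ∀ s : ZMod t, ∑ k, chr a k • f k = ∑ k, chr a k • f (k + s • v) := by
    intro s
    rw [← Equiv.sum_comp (Equiv.addRight (s • v)) (fun k => chr a k • f k)]
    refine Finset.sum_congr rfl fun k _ => ?_
    rw [Equiv.coe_addRight, chr_add, chr_smul_eq_one a v hav s, mul_one]
  have h2 : (t : ℂ) • ∑ k, chr a k • f k = 0 := by
    have h3 : ∑ _s : ZMod t, ∑ k, chr a k • f k = 0 := by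
      rw [Finset.sum_congr rfl fun s _ => h1 s, Finset.sum_comm]
      refine Finset.sum_eq_zero fun k _ => ?_
      rw [← Finset.smul_sum, hv k, smul_zero]
    rw [Finset.sum_const, Finset.card_univ, ZMod.card, ← Nat.cast_smul_eq_nsmul ℂ] at h3
    exact h3
  rcases smul_eq_zero.1 h2 with h | h
  · exact absurd h (Nat.cast_ne_zero.2 (NeZero.ne t))
  · exact h

private lemma sum_std (x : ZMod t) : ∑ b : ZMod t, (ZMod.stdAddChar (b * x) : ℂ) =
    if x = 0 then (t : ℂ) else 0 := by
  have h := AddChar.sum_mulShift (R := ZMod t) (R' := ℂ) x (ZMod.isPrimitive_stdAddChar t)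
  rw [ZMod.card] at h
  rw [h]
  split_ifs <;> simp

/-- the inversion formula -/
private lemma inversion (f : (Fin N → ZMod t) → W) (h : ∀ a, ∑ k, chr a k • f k = 0) : f = 0 := by
  funext k0
  have h1 : ∑ a : Fin N → ZMod t, chr a (-k0) • ∑ k, chr a k • f k = ((t : ℂ) ^ N) • f k0 := by
    simp only [Finset.smul_sum, smul_smul]
    rw [Finset.sum_comm]
    rw [Finset.sum_eq_single k0]
    · rw [← Finset.sum_smul]
      congr 1
      have : ∀ a : Fin N → ZMod t, chr a (-k0) * chr a k0 = 1 := by
        intro a
        rw [← chr_add, neg_add_cancel, chr]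
        simp
      rw [Finset.sum_congr rfl fun a _ => this a, Finset.sum_const, Finset.card_univ, nsmul_eq_mul,
        mul_one, Fintype.card_fun, ZMod.card, Fintype.card_fin]
      push_cast
      rfl
    · intro k _ hk
      rw [← Finset.sum_smul]
      have hz : ∑ a : Fin N → ZMod t, chr a (-k0) * chr a k = 0 := by
        have h2 : ∀ a : Fin N → ZMod t, chr a (-k0) * chr a k =
            ∏ i, (ZMod.stdAddChar (a i * (k i - k0 i)) : ℂ) := by
          intro a
          rw [← chr_add, chr, std_sum]
          refine Finset.prod_congr rfl fun i _ => ?_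
          congr 2
          simp only [Pi.add_apply, Pi.neg_apply]
          ring
        rw [Finset.sum_congr rfl fun a _ => h2 a]
        have h3 := (Finset.prod_univ_sum (fun _ : Fin N => (Finset.univ : Finset (ZMod t)))
          (fun i b => (ZMod.stdAddChar (b * (k i - k0 i)) : ℂ))).symm
        rw [Fintype.piFinset_univ] at h3
        rw [h3]
        obtain ⟨i, hi⟩ := Function.ne_iff.1 hk
        refine Finset.prod_eq_zero (Finset.mem_univ i) ?_
        rw [sum_std, if_neg (sub_ne_zero.2 hi)]
      rw [hz, zero_smul]
    · intro h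
      exact absurd (Finset.mem_univ k0) h
  have h4 : ((t : ℂ) ^ N) • f k0 = 0 := by
    rw [← h1]
    refine Finset.sum_eq_zero fun a _ => ?_
    rw [h a, smul_zero]
  rcases smul_eq_zero.1 h4 with h | h
  · exact absurd h (pow_ne_zero _ (Nat.cast_ne_zero.2 (NeZero.ne t)))
  · exact h

end

/-- Two of more than `t / 2` nonzero elements of `ℤ/t` are equal or opposite. -/
private lemma pigeon {t : ℕ} [NeZero t] {N : ℕ} (hN : t < 2 * N) (a : Fin N → ZMod t)
    (h0 : ∀ i, a i ≠ 0) : ∃ i j, i ≠ j ∧ (a i = a j ∨ a i = -a j) := by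
  have hmaps : ∀ i ∈ (Finset.univ : Finset (Fin N)),
      (a i).valMinAbs.natAbs ∈ Finset.Icc 1 (t / 2) := by
    intro i _
    rw [Finset.mem_Icc]
    refine ⟨?_, ZMod.natAbs_valMinAbs_le _⟩
    rw [Nat.one_le_iff_ne_zero, Int.natAbs_ne_zero]
    intro h
    exact h0 i ((ZMod.valMinAbs_eq_zero _).1 h)
  have hcard : (Finset.Icc 1 (t / 2)).card < (Finset.univ : Finset (Fin N)).card := by
    rw [Nat.card_Icc, Finset.card_univ, Fintype.card_fin]
    omega
  obtain ⟨i, -, j, -, hij, h⟩ := Finset.exists_ne_map_eq_of_card_lt_of_maps_to hcard hmaps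
  refine ⟨i, j, hij, ?_⟩
  rcases Int.natAbs_eq_natAbs_iff.1 h with h | h
  · left
    rw [← ZMod.coe_valMinAbs (a i), h, ZMod.coe_valMinAbs]
  · right
    rw [← ZMod.coe_valMinAbs (a i), h, Int.cast_neg, ZMod.coe_valMinAbs]

/-- A function on `(ℤ/t)^N`, `t` odd, `t < 2N`, with values in a complex vector space, is zero if its
sums over the lines in the directions `e_i`, `e_i + e_j` and `e_i - e_j` are zero. -/
theorem fourier_zero {t : ℕ} [NeZero t] (_ht : Odd t) {W : Type} [AddCommGroup W] [Module ℂ W]
    {N : ℕ} (hN : t < 2 * N) (f : (Fin N → ZMod t) → W)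
    (h0 : ∀ (i : Fin N) (k : Fin N → ZMod t), ∑ s, f (Function.update k i s) = 0)
    (h1 : ∀ i j : Fin N, i ≠ j → ∀ (k : Fin N → ZMod t) (s : ZMod t),
      ∑ u, f (Function.update (Function.update k i (u + s)) j u) = 0)
    (h2 : ∀ i j : Fin N, i ≠ j → ∀ (k : Fin N → ZMod t) (s : ZMod t),
      ∑ u, f (Function.update (Function.update k i (s - u)) j u) = 0) : f = 0 := by
  refine inversion f fun a => ?_
  by_cases hz : ∃ i, a i = 0
  · obtain ⟨i, hi⟩ := hz
    refine coeff_zero f a (Pi.single i 1) ?_ fun k => ?_
    · rw [Finset.sum_eq_single i (fun j _ hj => by rw [Pi.single_eq_of_ne hj, mul_zero])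
        (fun h => absurd (Finset.mem_univ i) h), hi, zero_mul]
    · rw [← h0 i k, ← Equiv.sum_comp (Equiv.addLeft (k i)) (fun s => f (Function.update k i s))]
      refine Finset.sum_congr rfl fun s _ => ?_
      congr 1
      funext l
      rcases eq_or_ne l i with rfl | hl
      · simp
      · simp [Function.update_of_ne hl, Pi.single_eq_of_ne hl]
  · push Not at hz
    obtain ⟨i, j, hij, h | h⟩ := pigeon hN a hz
    · refine coeff_zero f a (Pi.single j 1 - Pi.single i 1) ?_ fun k => ?_
      · simp only [Pi.sub_apply, mul_sub, Finset.sum_sub_distrib]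
        rw [Finset.sum_eq_single j (fun l _ hl => by rw [Pi.single_eq_of_ne hl, mul_zero])
          (fun h => absurd (Finset.mem_univ j) h),
          Finset.sum_eq_single i (fun l _ hl => by rw [Pi.single_eq_of_ne hl, mul_zero])
          (fun h => absurd (Finset.mem_univ i) h), Pi.single_eq_same, Pi.single_eq_same, h, sub_self]
      · rw [← h2 i j hij k (k i + k j), ← Equiv.sum_comp (Equiv.addLeft (k j))
          (fun u => f (Function.update (Function.update k i (k i + k j - u)) j u))]
        refine Finset.sum_congr rfl fun s _ => ?_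
        congr 1
        funext l
        rcases eq_or_ne l j with rfl | hl
        · simp [Pi.single_eq_of_ne (Ne.symm hij)]
        · rcases eq_or_ne l i with rfl | hl'
          · simp [Function.update_of_ne hl, Pi.single_eq_of_ne hl]
            ring
          · simp [Function.update_of_ne hl, Function.update_of_ne hl', Pi.single_eq_of_ne hl,
              Pi.single_eq_of_ne hl']
    · refine coeff_zero f a (Pi.single j 1 + Pi.single i 1) ?_ fun k => ?_
      · simp only [Pi.add_apply, mul_add, Finset.sum_add_distrib]
        rw [Finset.sum_eq_single j (fun l _ hl => by rw [Pi.single_eq_of_ne hl, mul_zero])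
          (fun h => absurd (Finset.mem_univ j) h),
          Finset.sum_eq_single i (fun l _ hl => by rw [Pi.single_eq_of_ne hl, mul_zero])
          (fun h => absurd (Finset.mem_univ i) h), Pi.single_eq_same, Pi.single_eq_same, h, mul_one,
          mul_one, add_neg_cancel]
      · rw [← h1 i j hij k (k i - k j), ← Equiv.sum_comp (Equiv.addLeft (k j))
          (fun u => f (Function.update (Function.update k i (u + (k i - k j))) j u))]
        refine Finset.sum_congr rfl fun s _ => ?_
        congr 1
        funext l
        rcases eq_or_ne l j with rfl | hl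
        · simp [Pi.single_eq_of_ne (Ne.symm hij)]
        · rcases eq_or_ne l i with rfl | hl'
          · simp [Function.update_of_ne hl, Pi.single_eq_of_ne hl]
            ring
          · simp [Function.update_of_ne hl, Function.update_of_ne hl', Pi.single_eq_of_ne hl,
              Pi.single_eq_of_ne hl']

end Gd

end Pool.Agent.RCH
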