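import Pool.Agent.RCH.KpFin

/-!
# The sum of the squares of the centered linear spaces
-/

set_option autoImplicit false

open MvPolynomial

namespace Pool.Agent.RCH

namespace Gd

section bilin

variable {ι : Type} (X : WVar ι)

/-- the product of two cycles, as a bilinear map -/
noncomputable def rlBox : Cycles X 1 →ₗ[ℤ] Cycles X 1 →ₗ[ℤ] Cycles X 2 :=
  LinearMap.mk₂ ℤ (fun x y => boxC X ![x, y])
    (by
      intro x y z
      have h0 : ∀ w : Cycles X 1, (![w, z] : Fin 2 → Cycles X 1) =
          Function.update ![0, z] 0 w := by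
        intro w
        funext i
        fin_cases i <;> rfl
      rw [h0 (x + y), h0 x, h0 y]
      exact (boxM X 2).map_update_add ![0, z] 0 x y)
    (by
      intro c x z
      have h0 : ∀ w : Cycles X 1, (![w, z] : Fin 2 → Cycles X 1) =
          Function.update ![0, z] 0 w := by
        intro w
        funext i
        fin_cases i <;> rfl
      rw [h0 (c • x), h0 x]
      exact (boxM X 2).map_update_smul ![0, z] 0 c x)
    (by
      intro z x y
      have h0 : ∀ w : Cycles X 1, (![z, w] : Fin 2 → Cycles X 1) =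
          Function.update ![z, 0] 1 w := by
        intro w
        funext i
        fin_cases i <;> rfl
      rw [h0 (x + y), h0 x, h0 y]
      exact (boxM X 2).map_update_add ![z, 0] 1 x y)
    (by
      intro c z x
      have h0 : ∀ w : Cycles X 1, (![z, w] : Fin 2 → Cycles X 1) =
          Function.update ![z, 0] 1 w := by
        intro w
        funext i
        fin_cases i <;> rfl
      rw [h0 (c • x), h0 x]
      exact (boxM X 2).map_update_smul ![z, 0] 1 c x)

lemma rlBox_apply (x y : Cycles X 1) : rlBox X x y = boxC X ![x, y] := rfl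

lemma rlBox_single (P Q : Pt X 1) : rlBox X (Finsupp.single P 1) (Finsupp.single Q 1) =
    box X ![P, Q] := by
  have h : (![Finsupp.single P 1, Finsupp.single Q 1] : Fin 2 → Cycles X 1) =
      fun i => Finsupp.single (![P, Q] i) ((fun _ => (1 : ℤ)) i) := by
    funext i
    fin_cases i <;> rfl
  rw [rlBox_apply, h, boxC_single, Finset.prod_const_one, one_smul]

/-- the sum of the squares of the centered cycles -/
lemma rl_sum_centered {t : ℕ} (l : Fin t → Cycles X 1) :
    ∑ k, rlBox X ((t : ℤ) • l k - ∑ j, l j) ((t : ℤ) • l k - ∑ j, l j) =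
      (t : ℤ) • ((t : ℤ) • ∑ k, rlBox X (l k) (l k) - ∑ j, ∑ k, rlBox X (l j) (l k)) := by
  have hLL : rlBox X (∑ j, l j) (∑ j, l j) = ∑ j, ∑ k, rlBox X (l j) (l k) := by
    rw [map_sum (rlBox X), LinearMap.sum_apply]
    exact Finset.sum_congr rfl fun j _ => map_sum (rlBox X (l j)) _ _
  have h1 : ∀ k, rlBox X ((t : ℤ) • l k - ∑ j, l j) ((t : ℤ) • l k - ∑ j, l j) =
      (t : ℤ) • (t : ℤ) • rlBox X (l k) (l k) - (t : ℤ) • rlBox X (l k) (∑ j, l j) -
        (t : ℤ) • rlBox X (∑ j, l j) (l k) + rlBox X (∑ j, l j) (∑ j, l j) := by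
    intro k
    simp only [map_sub, map_smul, LinearMap.sub_apply, LinearMap.smul_apply, smul_sub]
    abel
  simp only [h1]
  rw [Finset.sum_add_distrib, Finset.sum_sub_distrib, Finset.sum_sub_distrib, ← Finset.smul_sum,
    ← Finset.smul_sum, ← Finset.smul_sum, ← Finset.smul_sum, ← LinearMap.sum_apply, ← map_sum,
    ← map_sum, Finset.sum_const, Finset.card_univ, Fintype.card_fin, hLL, smul_sub]
  have h2 : t • (∑ j, ∑ k, rlBox X (l j) (l k)) = (t : ℤ) • (∑ j, ∑ k, rlBox X (l j) (l k)) :=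
    (natCast_zsmul _ _).symm
  rw [h2]
  abel

end bilin

/-- the sum of the squares of the centered linear spaces -/
theorem rel_centered (S : Kp.PlData) (a : ℕ) (ha : ∀ k, S.a k = a)
    (z : Fin S.t → Cycles (Kp.hyp S.F) 1)
    (hz : ∀ k, z k = (S.t : ℤ) • Finsupp.single (S.pl k) 1 - ∑ j, Finsupp.single (S.pl j) 1) :
    ∑ k, boxC (Kp.hyp S.F) ![z k, z k] ∈ torZero (Kp.hyp S.F) 2 := by
  have hsum := S.hsum
  simp only [ha, Finset.sum_const, Finset.card_univ, Fintype.card_fin, smul_eq_mul] at hsum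
  have ht : 1 ≤ S.t := Nat.one_le_iff_ne_zero.2 fun h => by
    rw [h, zero_mul] at hsum
    omega
  have ha1 : 1 ≤ a := Nat.one_le_iff_ne_zero.2 fun h => by
    rw [h, mul_zero] at hsum
    omega
  have h := S.rel_spaces
  simp only [ha] at h
  have e0 : ∀ k, boxC (Kp.hyp S.F) ![z k, z k] =
      rlBox (Kp.hyp S.F) ((S.t : ℤ) • Finsupp.single (S.pl k) 1 - ∑ j, Finsupp.single (S.pl j) 1)
        ((S.t : ℤ) • Finsupp.single (S.pl k) 1 - ∑ j, Finsupp.single (S.pl j) 1) := by
    intro k
    rw [← hz k, rlBox_apply]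
  simp only [e0]
  rw [rl_sum_centered]
  simp only [rlBox_single]
  refine AddSubgroup.zsmul_mem _ ?_ _
  refine ⟨(S.m + 2) ^ (S.r + 1) * (a * a), ?_, ?_⟩
  · exact Nat.one_le_iff_ne_zero.2 (by positivity)
  · have e1 : ((S.m + 2) ^ (S.r + 1) * (a * a)) •
        (((S.t : ℤ) • ∑ k, box (Kp.hyp S.F) ![S.pl k, S.pl k] -
          ∑ j, ∑ k, box (Kp.hyp S.F) ![S.pl j, S.pl k] : Cycles (Kp.hyp S.F) 2)) =
        (S.m + 2) ^ (S.r + 1) •
          ((S.m + 3) • ∑ k, a • box (Kp.hyp S.F) ![S.pl k, S.pl k] -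
            ∑ j, ∑ k, (a * a) • box (Kp.hyp S.F) ![S.pl j, S.pl k]) := by
      rw [mul_smul, ← hsum]
      congr 1
      simp only [← Finset.smul_sum]
      rw [natCast_zsmul, smul_sub, smul_smul, smul_smul]
      congr 2
      ring
    rw [e1]
    exact h

end Gd

end Pool.Agent.RCH
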