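import Pool.Agent.RCH.GdNil
import Pool.Agent.RCH.GdTr
import Pool.Agent.RCH.GdRel

/-!
# All combinations of degree zero of the linear spaces are smash-nilpotent
-/

set_option autoImplicit false

open MvPolynomial

namespace Pool.Agent.RCH

namespace Gd

/-- the residues modulo `t` and the indices -/
noncomputable def ez (t : ℕ) [NeZero t] : ZMod t ≃ Fin t where
  toFun k := ⟨k.val, ZMod.val_lt k⟩
  invFun k := ((k : ℕ) : ZMod t)
  left_inv k := ZMod.natCast_zmod_val k
  right_inv k := Fin.ext (ZMod.val_cast_of_lt k.2)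

lemma ez_val {t : ℕ} [NeZero t] (k : ZMod t) : ((ez t k : Fin t) : ℕ) = k.val := rfl

section points

variable {ι : Type} [Finite ι] {X : WVar ι} {t : ℕ} [NeZero t] (l : ZMod t → Pt X 1)

/-- the sum of the points -/
noncomputable def tot : Cycles X 1 := ∑ j, Finsupp.single (l j) 1

/-- the centered points -/
noncomputable def cen (k : ZMod t) : Cycles X 1 := (t : ℤ) • Finsupp.single (l k) 1 - tot l

omit [Finite ι] in
lemma mapDomain_tot (f : Pt X 1 ≃ Pt X 1) (e : ZMod t ≃ ZMod t) (h : ∀ k, f (l k) = l (e k)) :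
    Finsupp.mapDomain f (tot l) = tot l := by
  rw [tot, Finsupp.mapDomain_finsetSum]
  simp only [Finsupp.mapDomain_single, h]
  exact Equiv.sum_comp e (fun k => (Finsupp.single (l k) 1 : Cycles X 1))

omit [Finite ι] in
lemma mapDomain_cen (f : Pt X 1 ≃ Pt X 1) (e : ZMod t ≃ ZMod t) (h : ∀ k, f (l k) = l (e k))
    (k : ZMod t) : Finsupp.mapDomain f (cen l k) = cen l (e k) := by
  have h1 := map_sub (Finsupp.mapDomain.addMonoidHom (M := ℤ) f)
    ((t : ℤ) • Finsupp.single (l k) 1) (tot l)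
  rw [map_zsmul] at h1
  have h2 : Finsupp.mapDomain f ((t : ℤ) • Finsupp.single (l k) 1 - tot l : Cycles X 1) =
      (t : ℤ) • Finsupp.mapDomain f (Finsupp.single (l k) 1 : Cycles X 1) -
        Finsupp.mapDomain f (tot l) := h1
  rw [cen, h2, mapDomain_tot l f e h, Finsupp.mapDomain_single, h, cen]

omit [Finite ι] in
lemma sum_cen : ∑ k, cen l k = 0 := by
  simp only [cen]
  rw [Finset.sum_sub_distrib, ← Finset.smul_sum, Finset.sum_const, Finset.card_univ, ZMod.card,
    natCast_zsmul, tot, sub_self]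

omit [Finite ι] in
lemma smul_comb (c : ZMod t → ℤ) (hc : ∑ k, c k = 0) :
    (t : ℤ) • ∑ k, Finsupp.single (l k) (c k) = ∑ k, c k • cen l k := by
  simp only [cen, smul_sub]
  rw [Finset.sum_sub_distrib, ← Finset.sum_smul, hc, zero_smul, sub_zero, Finset.smul_sum]
  refine Finset.sum_congr rfl fun k _ => ?_
  rw [smul_comm, Finsupp.smul_single, Finsupp.smul_single, Finsupp.smul_single, smul_eq_mul,
    smul_eq_mul, smul_eq_mul, mul_one]

/-- Points `l_k`, `k` modulo the odd number `t`, permuted by two symmetries as `l_k ↦ l_(k+1)` and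
`l_k ↦ l_(-k)`, with `∑ z_k × z_k` torsion for `z_k = t l_k - ∑ l_j`: the product of any `N`
combinations of degree zero of them is torsion, for `t < 2N`. -/
theorem nil_points (ht : Odd t) (g h : MSym X) (hg : ∀ k, tr1 g (l k) = l (k + 1))
    (hh : ∀ k, tr1 h (l k) = l (-k)) (hq : ∑ k, boxC X ![cen l k, cen l k] ∈ torZero X 2)
    {N : ℕ} (hN : t < 2 * N) (c : Fin N → ZMod t → ℤ) (hc : ∀ i, ∑ k, c i k = 0) :
    boxC X (fun i => ∑ k, Finsupp.single (l k) (c i k)) ∈ torZero X N := by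
  have hall := nil_dihedral ht (cen l) g h
    (mapDomain_cen l (tr1 g) (Equiv.addRight (1 : ZMod t)) hg)
    (mapDomain_cen l (tr1 h) (Equiv.neg (ZMod t)) hh) (sum_cen l) hq hN
  have h1 : boxC X (fun i => (t : ℤ) • ∑ k, Finsupp.single (l k) (c i k)) ∈ torZero X N := by
    simp only [fun i => smul_comb l (c i) (hc i)]
    rw [boxC_sum X (fun i k => c i k • cen l k)]
    refine sum_mem fun f _ => ?_
    have h2 := (boxM X N).map_smul_univ (fun i => c i (f i)) (fun i => cen l (f i))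
    rw [boxM_apply, boxM_apply] at h2
    rw [h2]
    exact AddSubgroup.zsmul_mem _ (hall f) _
  have h3 := (boxM X N).map_smul_univ (fun _ => (t : ℤ))
    (fun i => ∑ k, Finsupp.single (l k) (c i k))
  rw [boxM_apply, boxM_apply, Finset.prod_const, Finset.card_univ, Fintype.card_fin] at h3
  rw [h3, ← Nat.cast_pow, natCast_zsmul] at h1
  exact torZero_of_smul (Nat.one_le_pow _ _ (Nat.pos_of_ne_zero (NeZero.ne t))) h1

end points

/-- The product of any `(t + 1) / 2` combinations of degree zero of `l_1, …, l_t` has a nonzero multiple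
which is rationally equivalent to zero, and all combinations of degree zero of them are
smash-nilpotent. -/
def AllNilpotent {ι : Type} (X : WVar ι) {t : ℕ} (l : Fin t → Pt X 1) : Prop :=
  (∀ c : Fin ((t + 1) / 2) → Fin t → ℤ, (∀ i, ∑ k, c i k = 0) → ∃ M : ℕ, 1 ≤ M ∧
    M • boxC X (fun i => ∑ k, Finsupp.single (l k) (c i k)) ∈ RatZero X ((t + 1) / 2)) ∧
  ∀ c : Fin t → ℤ, ∑ k, c k = 0 → SmashNilpotent X (∑ k, Finsupp.single (l k) (c k))

/-- two symmetries which permute the linear spaces as a rotation and a reflection -/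
theorem act_nil (S : Kp.PlData) (ht : Odd S.t) (ha : ∀ j k, S.a j = S.a k)
    (γ δ : MSym (Kp.hyp S.F))
    (hγ : ∀ j k : Fin S.t, (j : ℕ) ≡ k + 1 [MOD S.t] → tr1 γ (S.pl k) = S.pl j)
    (hδ : ∀ j k : Fin S.t, (j : ℕ) + k ≡ 0 [MOD S.t] → tr1 δ (S.pl k) = S.pl j) :
    AllNilpotent (Kp.hyp S.F) S.pl := by
  have ht0 : S.t ≠ 0 := by
    intro h
    rw [h] at ht
    exact absurd ht (by decide)
  have : NeZero S.t := ⟨ht0⟩
  have hgl : ∀ k : ZMod S.t, tr1 γ (S.pl (ez S.t k)) = S.pl (ez S.t (k + 1)) := by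
    intro k
    refine hγ _ _ ?_
    rw [← ZMod.natCast_eq_natCast_iff, ez_val, ez_val]
    push_cast
    rw [ZMod.natCast_zmod_val, ZMod.natCast_zmod_val]
  have hhl : ∀ k : ZMod S.t, tr1 δ (S.pl (ez S.t k)) = S.pl (ez S.t (-k)) := by
    intro k
    refine hδ _ _ ?_
    rw [← ZMod.natCast_eq_natCast_iff, ez_val, ez_val]
    push_cast
    rw [ZMod.natCast_zmod_val, ZMod.natCast_zmod_val, neg_add_cancel]
  have hq : ∑ k, boxC (Kp.hyp S.F) ![cen (fun k => S.pl (ez S.t k)) k,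
      cen (fun k => S.pl (ez S.t k)) k] ∈ torZero (Kp.hyp S.F) 2 := by
    have h1 := rel_centered S (S.a (ez S.t 0)) (fun k => ha _ _)
      (fun k => cen (fun k => S.pl (ez S.t k)) ((ez S.t).symm k)) (fun k => by
      show (S.t : ℤ) • Finsupp.single (S.pl (ez S.t ((ez S.t).symm k))) 1 -
        tot (fun k => S.pl (ez S.t k)) = _
      rw [Equiv.apply_symm_apply, tot]
      congr 1
      exact Equiv.sum_comp (ez S.t) fun j =>
        (Finsupp.single (S.pl j) 1 : Cycles (Kp.hyp S.F) 1))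
    rw [← Equiv.sum_comp (ez S.t)] at h1
    simp only [Equiv.symm_apply_apply] at h1
    exact h1
  have ht2 : S.t < 2 * ((S.t + 1) / 2) := by
    obtain ⟨m, hm⟩ := ht
    omega
  have h1 : ∀ c : Fin ((S.t + 1) / 2) → Fin S.t → ℤ, (∀ i, ∑ k, c i k = 0) →
      boxC (Kp.hyp S.F) (fun i => ∑ k, Finsupp.single (S.pl k) (c i k)) ∈
        torZero (Kp.hyp S.F) ((S.t + 1) / 2) := by
    intro c hc
    have h2 := nil_points (fun k => S.pl (ez S.t k)) ht _ _ hgl hhl hq ht2
      (fun i k => c i (ez S.t k)) (fun i => (Equiv.sum_comp (ez S.t) (c i)).trans (hc i))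
    have h3 : ∀ i, ∑ k, (Finsupp.single (S.pl (ez S.t k)) (c i (ez S.t k)) :
        Cycles (Kp.hyp S.F) 1) = ∑ k, Finsupp.single (S.pl k) (c i k) := fun i =>
      Equiv.sum_comp (ez S.t) fun k => (Finsupp.single (S.pl k) (c i k) : Cycles (Kp.hyp S.F) 1)
    simp only [h3] at h2
    exact h2
  refine ⟨h1, fun c hc => ⟨(S.t + 1) / 2, ?_, h1 (fun _ => c) (fun _ => hc)⟩⟩
  obtain ⟨k, hk⟩ := ht
  omega

/-- the same, for substitutions which multiply the equation by a constant -/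
theorem all_nil (S : Kp.PlData) (ht : Odd S.t) (a : ℕ) (ha : ∀ k, S.a k = a) {ζ : ℂ}
    (hζ : IsPrimitiveRoot ζ S.t) (hb : ∀ k : Fin S.t, S.b k = ζ ^ (k : ℕ)) {α β : S.J → ℂ}
    (hα : IsSym S.F (Equiv.refl _) α)
    (hα1 : α (S.x (2 * S.r + 3)) = ζ * α (S.x (2 * S.r + 2)))
    (hβ : IsSym S.F (Equiv.swap (S.x (2 * S.r + 2)) (S.x (2 * S.r + 3))) β)
    (hβ1 : β (S.x (2 * S.r + 3)) = β (S.x (2 * S.r + 2))) :
    AllNilpotent (Kp.hyp S.F) S.pl := by
  have hpow : ∀ {i j : ℕ}, i ≡ j [MOD S.t] → ζ ^ i = ζ ^ j := by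
    intro i j h
    rw [← Nat.mod_add_div i S.t, ← Nat.mod_add_div j S.t, pow_add, pow_add, pow_mul, pow_mul,
      hζ.pow_eq_one, one_pow, one_pow, h]
  refine act_nil S ht (fun j k => (ha j).trans (ha k).symm) (msym (F_ne_zero S) hα)
    (msym (F_ne_zero S) hβ) (fun j k h => ?_) (fun j k h => ?_)
  · refine tr_rot S hα hα1 ?_
    rw [hb, hb, ← pow_succ', hpow h]
  · refine tr_swap S hβ hβ1 ?_
    rw [hb, hb, ← pow_add, hpow h, pow_zero]

end Gd

end Pool.Agent.RCH
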