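import Pool.Agent.RCH.GdEx

/-!
# The examples: smooth hypersurfaces with a dihedral group of symmetries, general multiplicity
-/

set_option autoImplicit false

open MvPolynomial

namespace Pool.Agent.RCH

namespace Gd

/-- The polynomial of degree `n + 1 = (2p+1) a`
`∑_(i < r) (x_(2i) x_(2i+1) ^ n + x_(2i+1) x_(2i+2) ^ n) + x_(2r) x_(2r+1) ^ n +
x_(2r+1) (x_(2r+2) x_(2r+3)) ^ p (x_(2r+2) ^ (2p+1) + x_(2r+3) ^ (2p+1)) ^ (a-1) +
(x_(2r+3) ^ (2p+1) - x_(2r+2) ^ (2p+1)) ^ a + x_(2r+4) (x_0 ^ n + x_(2r+4) ^ n)`, written as a member of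
the family. -/
noncomputable def exPoly2 (r n p a : ℕ) (ζ : ℂ) : MvPolynomial (Fin (2 * r + 5)) ℂ :=
  Kp.planesPoly r n (fun k : Fin (2 * p + 1) => ζ ^ (k : ℕ)) (fun _ => a)
    (fun i => if i < r then MvPolynomial.X (Kp.cx r (2 * i + 2)) ^ n else
      (MvPolynomial.X (Kp.cx r (2 * r + 2)) * MvPolynomial.X (Kp.cx r (2 * r + 3))) ^ p *
      (MvPolynomial.X (Kp.cx r (2 * r + 2)) ^ (2 * p + 1) +
        MvPolynomial.X (Kp.cx r (2 * r + 3)) ^ (2 * p + 1)) ^ (a - 1))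
    (MvPolynomial.X (Kp.cx r 0) ^ n + MvPolynomial.X (Kp.cx r (2 * r + 4)) ^ n)

/-- the example, written as a chain -/
lemma ex2_form (r n p a : ℕ) {ζ : ℂ} (hζ : IsPrimitiveRoot ζ (2 * p + 1)) :
    exPoly2 r n p a ζ =
    ∑ j ∈ Finset.range (2 * r + 1),
        MvPolynomial.X (Kp.cx r j) * MvPolynomial.X (Kp.cx r (j + 1)) ^ n +
      MvPolynomial.X (Kp.cx r (2 * r + 1)) *
        ((MvPolynomial.X (Kp.cx r (2 * r + 2)) * MvPolynomial.X (Kp.cx r (2 * r + 3))) ^ p *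
          (MvPolynomial.X (Kp.cx r (2 * r + 2)) ^ (2 * p + 1) +
            MvPolynomial.X (Kp.cx r (2 * r + 3)) ^ (2 * p + 1)) ^ (a - 1)) +
      (MvPolynomial.X (Kp.cx r (2 * r + 3)) ^ (2 * p + 1) -
        MvPolynomial.X (Kp.cx r (2 * r + 2)) ^ (2 * p + 1)) ^ a +
      MvPolynomial.X (Kp.cx r (2 * r + 4)) *
        (MvPolynomial.X (Kp.cx r 0) ^ n + MvPolynomial.X (Kp.cx r (2 * r + 4)) ^ n) := by
  have hprod : ∏ k : Fin (2 * p + 1), (MvPolynomial.X (Kp.cx r (2 * r + 3)) -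
      C (ζ ^ (k : ℕ)) * MvPolynomial.X (Kp.cx r (2 * r + 2)) :
        MvPolynomial (Fin (2 * r + 5)) ℂ) ^ a =
      (MvPolynomial.X (Kp.cx r (2 * r + 3)) ^ (2 * p + 1) -
        MvPolynomial.X (Kp.cx r (2 * r + 2)) ^ (2 * p + 1)) ^ a := by
    rw [Finset.prod_pow, ← ex_prod r p hζ]
    simp only [pow_one]
  rw [exPoly2, Kp.planesPoly, hprod, Finset.sum_range_succ, if_neg (lt_irrefl r),
    Finset.sum_range_succ, ← Kp.smooth_sum_pairs]
  congr 2
  rw [← add_assoc]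
  congr 2
  refine Finset.sum_congr rfl fun i hi => ?_
  rw [if_pos (Finset.mem_range.1 hi)]

/-- the derivative in `u` of `(u v) ^ (q + 1) (u ^ t + v ^ t) ^ b`, `t = 2 (q + 1) + 1` -/
noncomputable def dG (q b : ℕ) (u v : ℂ) : ℂ :=
  (q + 1) * (u * v) ^ q * v * (u ^ (2 * (q + 1) + 1) + v ^ (2 * (q + 1) + 1)) ^ b +
    (u * v) ^ (q + 1) * (b * (u ^ (2 * (q + 1) + 1) + v ^ (2 * (q + 1) + 1)) ^ (b - 1) *
      ((2 * (q + 1) + 1) * u ^ (2 * (q + 1))))

/-- the derivative of the example -/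
lemma ex2_pd (r m q b : ℕ) {ζ : ℂ} (hζ : IsPrimitiveRoot ζ (2 * (q + 1) + 1))
    (v : Fin (2 * r + 5) → ℂ) (l : Fin (2 * r + 5)) :
    eval v (pderiv l (exPoly2 r (m + 1) (q + 1) (b + 1) ζ)) =
    ∑ j ∈ Finset.range (2 * r + 1),
        ((if Kp.cx r j = l then v (Kp.cx r (j + 1)) ^ (m + 1) else 0) +
          (if Kp.cx r (j + 1) = l then
            (m + 1) * v (Kp.cx r j) * v (Kp.cx r (j + 1)) ^ m else 0)) +
      ((if Kp.cx r (2 * r + 1) = l then
          (v (Kp.cx r (2 * r + 2)) * v (Kp.cx r (2 * r + 3))) ^ (q + 1) *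
            (v (Kp.cx r (2 * r + 2)) ^ (2 * (q + 1) + 1) +
              v (Kp.cx r (2 * r + 3)) ^ (2 * (q + 1) + 1)) ^ b else 0) +
        (if Kp.cx r (2 * r + 2) = l then v (Kp.cx r (2 * r + 1)) *
            dG q b (v (Kp.cx r (2 * r + 2))) (v (Kp.cx r (2 * r + 3))) -
          (b + 1) * (v (Kp.cx r (2 * r + 3)) ^ (2 * (q + 1) + 1) -
            v (Kp.cx r (2 * r + 2)) ^ (2 * (q + 1) + 1)) ^ b *
            ((2 * (q + 1) + 1) * v (Kp.cx r (2 * r + 2)) ^ (2 * (q + 1))) else 0) +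
        (if Kp.cx r (2 * r + 3) = l then v (Kp.cx r (2 * r + 1)) *
            dG q b (v (Kp.cx r (2 * r + 3))) (v (Kp.cx r (2 * r + 2))) +
          (b + 1) * (v (Kp.cx r (2 * r + 3)) ^ (2 * (q + 1) + 1) -
            v (Kp.cx r (2 * r + 2)) ^ (2 * (q + 1) + 1)) ^ b *
            ((2 * (q + 1) + 1) * v (Kp.cx r (2 * r + 3)) ^ (2 * (q + 1))) else 0)) +
      ((if Kp.cx r (2 * r + 4) = l then v (Kp.cx r 0) ^ (m + 1) +
          (m + 2) * v (Kp.cx r (2 * r + 4)) ^ (m + 1) else 0) +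
        (if Kp.cx r 0 = l then
          (m + 1) * v (Kp.cx r (2 * r + 4)) * v (Kp.cx r 0) ^ m else 0)) := by
  have hd : ∀ j : Fin (2 * r + 5), pderiv l (MvPolynomial.X j : MvPolynomial (Fin (2 * r + 5)) ℂ) =
      if j = l then 1 else 0 := by
    intro j
    rw [pderiv_X, Pi.single_apply]
  rw [ex2_form r (m + 1) (q + 1) (b + 1) hζ]
  simp only [map_add, map_sum, map_sub, Derivation.leibniz, Derivation.leibniz_pow, hd,
    smul_eq_mul, map_mul, eval_X, map_pow, apply_ite (eval v), map_one, map_zero, nsmul_eq_mul,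
    map_natCast, Nat.add_sub_cancel, dG]
  congr 1
  · rw [add_assoc]
    congr 1
    · refine Finset.sum_congr rfl fun j _ => ?_
      split_ifs <;> push_cast <;> ring
    · split_ifs <;> push_cast <;> ring
  · split_ifs <;> push_cast <;> ring

/-- the equations for the partial derivatives have only the trivial solution -/
lemma ex2_core (M m q b : ℕ) (hmt : m + 2 = (2 * (q + 1) + 1) * (b + 1)) (x : ℕ → ℂ) (u v w : ℂ)
    (hw : x 0 ^ (m + 1) + (m + 2) * w ^ (m + 1) = 0)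
    (h0 : x 1 ^ (m + 1) + (m + 1) * w * x 0 ^ m = 0)
    (hj : ∀ j, j < M → (m + 1) * x j * x (j + 1) ^ m + x (j + 2) ^ (m + 1) = 0)
    (hs : (m + 1) * x M * x (M + 1) ^ m + (u * v) ^ (q + 1) *
      (u ^ (2 * (q + 1) + 1) + v ^ (2 * (q + 1) + 1)) ^ b = 0)
    (hu : x (M + 1) * dG q b u v -
      (b + 1) * (v ^ (2 * (q + 1) + 1) - u ^ (2 * (q + 1) + 1)) ^ b *
        ((2 * (q + 1) + 1) * u ^ (2 * (q + 1))) = 0)
    (hv : x (M + 1) * dG q b v u +
      (b + 1) * (v ^ (2 * (q + 1) + 1) - u ^ (2 * (q + 1) + 1)) ^ b *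
        ((2 * (q + 1) + 1) * v ^ (2 * (q + 1))) = 0) :
    (∀ j, j ≤ M + 1 → x j = 0) ∧ u = 0 ∧ v = 0 ∧ w = 0 := by
  have hm1 : 1 ≤ m := by
    by_contra h
    have hm0 : m = 0 := by omega
    rw [hm0] at hmt
    have : 3 * 1 ≤ (2 * (q + 1) + 1) * (b + 1) := Nat.mul_le_mul (by omega) (by omega)
    omega
  have htm : ((m : ℂ) + 2) = (2 * ((q : ℂ) + 1) + 1) * (b + 1) := by exact_mod_cast hmt
  obtain ⟨U, hU⟩ : ∃ U, U = u ^ (2 * (q + 1)) := ⟨_, rfl⟩
  obtain ⟨V, hV⟩ : ∃ V, V = v ^ (2 * (q + 1)) := ⟨_, rfl⟩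
  obtain ⟨K, hK⟩ : ∃ K, K = (u * v) ^ q := ⟨_, rfl⟩
  obtain ⟨Ψ, hΨ⟩ : ∃ Ψ, Ψ = U * u + V * v := ⟨_, rfl⟩
  obtain ⟨Φ, hΦ⟩ : ∃ Φ, Φ = V * v - U * u := ⟨_, rfl⟩
  obtain ⟨G, hG⟩ : ∃ G, G = K * (u * v) * Ψ ^ b := ⟨_, rfl⟩
  obtain ⟨F, hF⟩ : ∃ F, F = Φ ^ b := ⟨_, rfl⟩
  have hΨb : (b : ℂ) * Ψ ^ (b - 1) * Ψ = b * Ψ ^ b := by
    rcases b with _ | b
    · simp
    · rw [Nat.add_sub_cancel, pow_succ]
      ring
  have e1 : v ^ (2 * (q + 1) + 1) = V * v := by rw [pow_succ, hV]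
  have e2 : u ^ (2 * (q + 1) + 1) = U * u := by rw [pow_succ, hU]
  have e3 : (u * v) ^ (q + 1) = K * (u * v) := by rw [pow_succ, hK]
  have e4 : Φ ^ (b + 1) = F * Φ := by rw [pow_succ, hF]
  unfold dG at hu hv
  rw [add_comm (v ^ (2 * (q + 1) + 1)) (u ^ (2 * (q + 1) + 1)), mul_comm v u] at hv
  rw [e1, e2, e3] at hu hv hs
  rw [← hΨ, ← hΦ, ← hF, ← hK] at hu hv
  rw [← hU] at hu
  rw [← hV] at hv
  rw [← hΨ, ← hG] at hs
  obtain ⟨A, hA⟩ : ∃ A, A = Ψ ^ (b - 1) := ⟨_, rfl⟩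
  obtain ⟨B, hB⟩ : ∃ B, B = Ψ ^ b := ⟨_, rfl⟩
  rw [← hA, ← hB] at hu hv hΨb
  rw [← hB] at hG
  -- the Euler relation and the difference
  have hE : ((m : ℂ) + 1) * (x (M + 1) * G) + (m + 2) * Φ ^ (b + 1) = 0 := by
    rw [hG, e4, htm, show ((m : ℂ) + 1) = (m + 2) - 1 from by ring, htm]
    linear_combination u * hu + v * hv +
      (x (M + 1) * (K * (u * v)) * b * A * (2 * (q + 1) + 1)) * hΨ +
      ((b + 1) * F * (2 * (q + 1) + 1)) * hΦ -
      (x (M + 1) * (K * (u * v)) * (2 * (q + 1) + 1)) * hΨb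
  have hc : (2 * ((q : ℂ) + 1) + 1) ≠ 0 := by
    have h : (2 * ((q : ℂ) + 1) + 1) = ((2 * (q + 1) + 1 : ℕ) : ℂ) := by push_cast; ring
    rw [h]
    exact Nat.cast_ne_zero.2 (by omega)
  have hD : (b : ℂ) * (x (M + 1) * G) * Φ + (b + 1) * F * Ψ ^ 2 = 0 := by
    have h : (2 * ((q : ℂ) + 1) + 1) *
        ((b : ℂ) * (x (M + 1) * G) * Φ + (b + 1) * F * Ψ ^ 2) = 0 := by
      rw [hG]
      linear_combination (-u * Ψ) * hu + (v * Ψ) * hv +
        (x (M + 1) * (K * (u * v)) * b * A * (2 * (q + 1) + 1) * Ψ) * hΦ +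
        ((b + 1) * F * (2 * (q + 1) + 1) * Ψ) * hΨ -
        (x (M + 1) * (K * (u * v)) * (2 * (q + 1) + 1) * Φ) * hΨb
    exact (mul_eq_zero.1 h).resolve_left hc
  have hm2 : ((m : ℂ) + 2) ≠ 0 := by
    have h : ((m : ℂ) + 2) = ((m + 2 : ℕ) : ℂ) := by push_cast; ring
    rw [h]
    exact Nat.cast_ne_zero.2 (by omega)
  by_cases hx : x 0 = 0
  · have hw0 : w = 0 := by
      rw [hx, zero_pow (by omega), zero_add] at hw
      exact pow_eq_zero_iff (by omega) |>.1 ((mul_eq_zero.1 hw).resolve_left hm2)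
    have hx1 : x 1 = 0 := by
      rw [hw0, mul_zero, zero_mul, add_zero] at h0
      exact pow_eq_zero_iff (by omega) |>.1 h0
    have hall : ∀ j, j ≤ M → x j = 0 ∧ x (j + 1) = 0 := by
      intro j
      induction j with
      | zero => exact fun _ => ⟨hx, hx1⟩
      | succ j ih =>
        intro hjM
        have h1 := ih (by omega)
        refine ⟨h1.2, ?_⟩
        have h2 := hj j (by omega)
        rw [h1.1, mul_zero, zero_mul, zero_add] at h2
        exact pow_eq_zero_iff (by omega) |>.1 h2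
    have hM := hall M le_rfl
    rw [hM.1, mul_zero, zero_mul, zero_add] at hs
    rw [hs, mul_zero, mul_zero, zero_add] at hE
    have hΦ0 : Φ = 0 := pow_eq_zero_iff (by omega) |>.1 ((mul_eq_zero.1 hE).resolve_left hm2)
    have hVU : V * v = U * u := by
      rw [hΦ0] at hΦ
      exact (sub_eq_zero.1 hΦ.symm)
    have hU0 : u = 0 → v = 0 := by
      intro h
      rw [h, mul_zero, ← e1] at hVU
      exact pow_eq_zero_iff (by omega) |>.1 hVU
    have hV0 : v = 0 → u = 0 := by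
      intro h
      rw [h, mul_zero, ← e2] at hVU
      exact pow_eq_zero_iff (by omega) |>.1 hVU.symm
    have huv0 : u = 0 ∧ v = 0 := by
      rw [hs, hB] at hG
      rcases mul_eq_zero.1 hG.symm with h | h
      · rw [← e3] at h
        rcases mul_eq_zero.1 (pow_eq_zero_iff (by omega) |>.1 h) with h | h
        · exact ⟨h, hU0 h⟩
        · exact ⟨hV0 h, h⟩
      · have hΨ0 : Ψ = 0 := by
          by_contra hne
          exact pow_ne_zero _ hne h
        rw [hΨ0, hVU] at hΨ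
        have h2 : U * u = 0 := by
          have : 2 * (U * u) = 0 := by linear_combination -hΨ
          exact (mul_eq_zero.1 this).resolve_left two_ne_zero
        rw [← e2] at h2
        have h3 : u = 0 := pow_eq_zero_iff (by omega) |>.1 h2
        exact ⟨h3, hU0 h3⟩
    refine ⟨fun j hjM => ?_, huv0.1, huv0.2, hw0⟩
    rcases Nat.lt_or_ge M j with h | h
    · rw [show j = M + 1 from by omega]
      exact hM.2
    · exact (hall j h).1
  · exfalso
    obtain ⟨s, hsG⟩ : ∃ s : ℂ, s ^ (m + 1) = G := IsAlgClosed.exists_pow_nat_eq G (by omega)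
    set y : ℕ → ℂ := fun j => if j ≤ M + 1 then x j else s with hy
    have hyj : ∀ j, j ≤ M + 1 → y j = x j := fun j hjM => if_pos hjM
    have hys : y (M + 2) = s := if_neg (by omega)
    have hN := Kp.smooth_norms (p := m) hm1 (M + 1) y w
      (by rw [hyj 0 (by omega)]; exact hw)
      (by rw [hyj 0 (by omega), hyj 1 (by omega)]; exact h0)
      (fun j hjM => by
        rw [hyj j (by omega), hyj (j + 1) (by omega)]
        rcases Nat.lt_or_ge j M with h | h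
        · rw [hyj (j + 2) (by omega)]
          exact hj j h
        · have hjM2 : j = M := by omega
          subst hjM2
          rw [hys, hsG]
          exact hs)
      (by rw [hyj 0 (by omega)]; exact hx) (M + 1) le_rfl
    rw [hyj (M + 1) le_rfl, hys] at hN
    obtain ⟨hN1, hN2, -⟩ := hN
    -- real numbers
    have hs0 : 0 < ‖s‖ := hN1.trans_le hN2
    have hG0 : 0 < ‖G‖ := by
      rw [← hsG, norm_pow]
      exact pow_pos hs0 _
    have hyG : ‖x (M + 1)‖ ^ (m + 1) ≤ ‖G‖ := by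
      rw [← hsG, norm_pow]
      exact pow_le_pow_left₀ hN1.le hN2 _
    have hcast : ∀ k : ℕ, ‖((k : ℂ))‖ = (k : ℝ) := fun k => Complex.norm_natCast k
    have hEn : ((m : ℝ) + 1) * (‖x (M + 1)‖ * ‖G‖) = (m + 2) * ‖Φ‖ ^ (b + 1) := by
      have h1 := congrArg norm (eq_neg_of_add_eq_zero_left hE)
      rw [norm_neg, norm_mul, norm_mul, norm_mul, norm_pow,
        show ((m : ℂ) + 1) = ((m + 1 : ℕ) : ℂ) from by push_cast; ring,
        show ((m : ℂ) + 2) = ((m + 2 : ℕ) : ℂ) from by push_cast; ring, hcast, hcast] at h1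
      push_cast at h1
      exact h1
    have hA0 : 0 < ‖Φ‖ := by
      rcases (norm_nonneg Φ).eq_or_lt with h | h
      · rw [← h, zero_pow (by omega), mul_zero] at hEn
        have : 0 < ((m : ℝ) + 1) * (‖x (M + 1)‖ * ‖G‖) := by positivity
        exact absurd hEn this.ne'
      · exact h
    have hΦne : Φ ≠ 0 := norm_pos_iff.1 hA0
    -- the ratio of `Ψ` and `Φ`
    have hρ : ((b : ℂ) + 1) * (m + 1) * Ψ ^ 2 = b * (m + 2) * Φ ^ 2 := by
      have h1 : Φ ^ b * (((b : ℂ) + 1) * (m + 1) * Ψ ^ 2 - b * (m + 2) * Φ ^ 2) = 0 := by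
        rw [← hF]
        rw [e4] at hE
        linear_combination ((m : ℂ) + 1) * hD - (b * Φ) * hE
      exact sub_eq_zero.1 ((mul_eq_zero.1 h1).resolve_left (pow_ne_zero _ hΦne))
    have hρn : ((b : ℝ) + 1) * (m + 1) * ‖Ψ‖ ^ 2 = b * (m + 2) * ‖Φ‖ ^ 2 := by
      have h1 := congrArg norm hρ
      rw [norm_mul, norm_mul, norm_mul, norm_mul, norm_pow, norm_pow,
        show ((m : ℂ) + 1) = ((m + 1 : ℕ) : ℂ) from by push_cast; ring,
        show ((m : ℂ) + 2) = ((m + 2 : ℕ) : ℂ) from by push_cast; ring,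
        show ((b : ℂ) + 1) = ((b + 1 : ℕ) : ℂ) from by push_cast; ring,
        hcast, hcast, hcast, hcast] at h1
      push_cast at h1
      exact h1
    have hbm : b ≤ m := by
      have : 1 * (b + 1) ≤ (2 * (q + 1) + 1) * (b + 1) := Nat.mul_le_mul (by omega) le_rfl
      have : 3 * (b + 1) ≤ (2 * (q + 1) + 1) * (b + 1) := Nat.mul_le_mul (by omega) le_rfl
      omega
    have hΨΦ : ‖Ψ‖ ^ 2 ≤ ‖Φ‖ ^ 2 := by
      have hb' : (b : ℝ) ≤ m := by exact_mod_cast hbm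
      have h1 : (b : ℝ) * (m + 2) ≤ (b + 1) * (m + 1) := by nlinarith
      have h2 : (0 : ℝ) < ((b : ℝ) + 1) * (m + 1) := by positivity
      have h3 : ((b : ℝ) + 1) * (m + 1) * ‖Ψ‖ ^ 2 ≤ ((b : ℝ) + 1) * (m + 1) * ‖Φ‖ ^ 2 := by
        rw [hρn]
        exact mul_le_mul_of_nonneg_right h1 (by positivity)
      exact le_of_mul_le_mul_left h3 h2
    have hΨΦ1 : ‖Ψ‖ ≤ ‖Φ‖ := (pow_le_pow_iff_left₀ (norm_nonneg _) (norm_nonneg _) two_ne_zero).1 hΨΦ
    -- the product `u v`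
    have huvt : ‖u * v‖ ^ (2 * (q + 1) + 1) ≤ ‖Φ‖ ^ 2 := by
      have h1 : (4 : ℂ) * (u * v) ^ (2 * (q + 1) + 1) = Ψ ^ 2 - Φ ^ 2 := by
        rw [mul_pow, e1, e2, hΨ, hΦ]
        ring
      have h2 := congrArg norm h1
      rw [norm_mul, norm_pow, Complex.norm_ofNat] at h2
      have h3 := norm_sub_le (Ψ ^ 2) (Φ ^ 2)
      rw [norm_pow, norm_pow] at h3
      have h4 : (0 : ℝ) ≤ ‖Φ‖ ^ 2 := by positivity
      linarith
    have hGt : ‖G‖ ^ (2 * (q + 1) + 1) ≤ ‖Φ‖ ^ (m + 1) := by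
      have h1 : ‖G‖ = ‖u * v‖ ^ (q + 1) * ‖Ψ‖ ^ b := by
        rw [hG, hB, ← e3, norm_mul, norm_pow, norm_pow]
      have h2 : ‖G‖ ^ (2 * (q + 1) + 1) =
          (‖u * v‖ ^ (2 * (q + 1) + 1)) ^ (q + 1) * ‖Ψ‖ ^ (b * (2 * (q + 1) + 1)) := by
        rw [h1, mul_pow, ← pow_mul, ← pow_mul, ← pow_mul, mul_comm (q + 1)]
      have h3 : m + 1 = 2 * (q + 1) + b * (2 * (q + 1) + 1) := by
        have : (2 * (q + 1) + 1) * (b + 1) = b * (2 * (q + 1) + 1) + (2 * (q + 1) + 1) := by ring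
        omega
      have h4 : ‖Φ‖ ^ (m + 1) = (‖Φ‖ ^ 2) ^ (q + 1) * ‖Φ‖ ^ (b * (2 * (q + 1) + 1)) := by
        rw [h3, ← pow_mul, ← pow_add]
      rw [h2, h4]
      exact mul_le_mul (pow_le_pow_left₀ (by positivity) huvt _)
        (pow_le_pow_left₀ (norm_nonneg _) hΨΦ1 _) (by positivity) (by positivity)
    -- the contradiction
    have hfin := congrArg (fun z : ℝ => z ^ ((m + 1) * (2 * (q + 1) + 1))) hEn
    simp only [mul_pow] at hfin
    have h5 : ‖x (M + 1)‖ ^ ((m + 1) * (2 * (q + 1) + 1)) *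
        ‖G‖ ^ ((m + 1) * (2 * (q + 1) + 1)) ≤
        (‖Φ‖ ^ (b + 1)) ^ ((m + 1) * (2 * (q + 1) + 1)) := by
      have h6 : ‖x (M + 1)‖ ^ ((m + 1) * (2 * (q + 1) + 1)) ≤ ‖G‖ ^ (2 * (q + 1) + 1) := by
        rw [pow_mul]
        exact pow_le_pow_left₀ (by positivity) hyG _
      have h7 : (‖Φ‖ ^ (b + 1)) ^ ((m + 1) * (2 * (q + 1) + 1)) =
          (‖Φ‖ ^ (m + 1)) ^ (m + 2) := by
        rw [← pow_mul, ← pow_mul, hmt]
        congr 1
        ring
      calc ‖x (M + 1)‖ ^ ((m + 1) * (2 * (q + 1) + 1)) * ‖G‖ ^ ((m + 1) * (2 * (q + 1) + 1))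
          ≤ ‖G‖ ^ (2 * (q + 1) + 1) * ‖G‖ ^ ((m + 1) * (2 * (q + 1) + 1)) :=
            mul_le_mul_of_nonneg_right h6 (by positivity)
        _ = (‖G‖ ^ (2 * (q + 1) + 1)) ^ (m + 2) := by
            rw [← pow_add, ← pow_mul]
            congr 1
            ring
        _ ≤ (‖Φ‖ ^ (m + 1)) ^ (m + 2) := pow_le_pow_left₀ (by positivity) hGt _
        _ = _ := h7.symm
    have h8 : ((m : ℝ) + 1) ^ ((m + 1) * (2 * (q + 1) + 1)) <
        ((m : ℝ) + 2) ^ ((m + 1) * (2 * (q + 1) + 1)) :=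
      pow_lt_pow_left₀ (by linarith) (by positivity)
        (Nat.mul_ne_zero (by omega) (by omega))
    have h9 : 0 < (‖Φ‖ ^ (b + 1)) ^ ((m + 1) * (2 * (q + 1) + 1)) := by positivity
    have h10 := mul_lt_mul_of_pos_right h8 h9
    rw [← hfin] at h10
    have h11 := mul_le_mul_of_nonneg_left h5
      (show (0 : ℝ) ≤ ((m : ℝ) + 1) ^ ((m + 1) * (2 * (q + 1) + 1)) by positivity)
    exact absurd (h10.trans_le h11) (lt_irrefl _)

/-- Row G-EX2': the examples are smooth. -/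
theorem ex2_smooth (r n : ℕ) {p a : ℕ} (hp : 1 ≤ p) (ha : 1 ≤ a) (hn : n + 1 = (2 * p + 1) * a)
    {ζ : ℂ} (hζ : IsPrimitiveRoot ζ (2 * p + 1)) (v : Fin (2 * r + 5) → ℂ)
    (h : ∀ j, eval v (pderiv j (exPoly2 r n p a ζ)) = 0) : v = 0 := by
  obtain ⟨q, rfl⟩ : ∃ q, p = q + 1 := ⟨p - 1, by omega⟩
  obtain ⟨b, rfl⟩ : ∃ b, a = b + 1 := ⟨a - 1, by omega⟩
  obtain ⟨m, rfl⟩ : ∃ m, n = m + 1 := ⟨n - 1, by
    have : 3 * 1 ≤ (2 * (q + 1) + 1) * (b + 1) := Nat.mul_le_mul (by omega) (by omega)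
    omega⟩
  have h2 := fun j => (ex2_pd r m q b hζ v j).symm.trans (h j)
  have hne : ∀ {j l : ℕ}, j < 2 * r + 5 → l < 2 * r + 5 → (Kp.cx r j = Kp.cx r l ↔ j = l) := by
    intro j l hj hl
    rw [Kp.eq_cx r hl, Kp.cx_val r hj]
  -- the two sums
  have hs1 : ∀ l, l < 2 * r + 5 → ∑ j ∈ Finset.range (2 * r + 1),
      (if Kp.cx r j = Kp.cx r l then v (Kp.cx r (j + 1)) ^ (m + 1) else 0) =
      if l < 2 * r + 1 then v (Kp.cx r (l + 1)) ^ (m + 1) else 0 := by
    intro l hl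
    rw [Finset.sum_congr rfl (g := fun j => if l = j then v (Kp.cx r (j + 1)) ^ (m + 1) else 0)
      (fun j hj => by
        rw [Finset.mem_range] at hj
        exact if_congr ((hne (by omega) hl).trans eq_comm) rfl rfl), Finset.sum_ite_eq]
    exact if_congr (by rw [Finset.mem_range]) rfl rfl
  have hs2 : ∀ l, l < 2 * r + 5 → ∑ j ∈ Finset.range (2 * r + 1),
      (if Kp.cx r (j + 1) = Kp.cx r l then
        (m + 1) * v (Kp.cx r j) * v (Kp.cx r (j + 1)) ^ m else 0) =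
      if 1 ≤ l ∧ l ≤ 2 * r + 1 then
        (m + 1) * v (Kp.cx r (l - 1)) * v (Kp.cx r l) ^ m else 0 := by
    intro l hl
    by_cases h1 : 1 ≤ l
    · obtain ⟨l, rfl⟩ : ∃ k, l = k + 1 := ⟨l - 1, by omega⟩
      rw [Finset.sum_congr rfl (g := fun j => if l = j then
        (m + 1) * v (Kp.cx r j) * v (Kp.cx r (j + 1)) ^ m else 0)
        (fun j hj => by
          rw [Finset.mem_range] at hj
          exact if_congr ((hne (by omega) hl).trans (by omega)) rfl rfl), Finset.sum_ite_eq,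
        Nat.add_sub_cancel]
      exact if_congr (by rw [Finset.mem_range]; omega) rfl rfl
    · rw [if_neg (by omega)]
      refine Finset.sum_eq_zero fun j hj => ?_
      rw [Finset.mem_range] at hj
      exact if_neg (by rw [hne (by omega) hl]; omega)
  simp only [Finset.sum_add_distrib] at h2
  have h3 : ∀ l, l < 2 * r + 5 →
      ((if l < 2 * r + 1 then v (Kp.cx r (l + 1)) ^ (m + 1) else 0) +
        (if 1 ≤ l ∧ l ≤ 2 * r + 1 then
          (m + 1) * v (Kp.cx r (l - 1)) * v (Kp.cx r l) ^ m else 0)) +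
      ((if 2 * r + 1 = l then
          (v (Kp.cx r (2 * r + 2)) * v (Kp.cx r (2 * r + 3))) ^ (q + 1) *
            (v (Kp.cx r (2 * r + 2)) ^ (2 * (q + 1) + 1) +
              v (Kp.cx r (2 * r + 3)) ^ (2 * (q + 1) + 1)) ^ b else 0) +
        (if 2 * r + 2 = l then v (Kp.cx r (2 * r + 1)) *
            dG q b (v (Kp.cx r (2 * r + 2))) (v (Kp.cx r (2 * r + 3))) -
          (b + 1) * (v (Kp.cx r (2 * r + 3)) ^ (2 * (q + 1) + 1) -
            v (Kp.cx r (2 * r + 2)) ^ (2 * (q + 1) + 1)) ^ b *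
            ((2 * (q + 1) + 1) * v (Kp.cx r (2 * r + 2)) ^ (2 * (q + 1))) else 0) +
        (if 2 * r + 3 = l then v (Kp.cx r (2 * r + 1)) *
            dG q b (v (Kp.cx r (2 * r + 3))) (v (Kp.cx r (2 * r + 2))) +
          (b + 1) * (v (Kp.cx r (2 * r + 3)) ^ (2 * (q + 1) + 1) -
            v (Kp.cx r (2 * r + 2)) ^ (2 * (q + 1) + 1)) ^ b *
            ((2 * (q + 1) + 1) * v (Kp.cx r (2 * r + 3)) ^ (2 * (q + 1))) else 0)) +
      ((if 2 * r + 4 = l then v (Kp.cx r 0) ^ (m + 1) +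
          (m + 2) * v (Kp.cx r (2 * r + 4)) ^ (m + 1) else 0) +
        (if 0 = l then
          (m + 1) * v (Kp.cx r (2 * r + 4)) * v (Kp.cx r 0) ^ m else 0)) = 0 := by
    intro l hl
    have h4 := h2 (Kp.cx r l)
    rw [hs1 l hl, hs2 l hl] at h4
    simp only [hne (show 2 * r + 1 < 2 * r + 5 by omega) hl,
      hne (show 2 * r + 3 < 2 * r + 5 by omega) hl,
      hne (show 2 * r + 2 < 2 * r + 5 by omega) hl, hne (show 2 * r + 4 < 2 * r + 5 by omega) hl,
      hne (show 0 < 2 * r + 5 by omega) hl] at h4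
    exact h4
  obtain ⟨hx, hu, hv, hw⟩ := ex2_core (2 * r) m q b hn (fun j => v (Kp.cx r j))
    (v (Kp.cx r (2 * r + 2))) (v (Kp.cx r (2 * r + 3))) (v (Kp.cx r (2 * r + 4)))
    (by
      have h4 := h3 (2 * r + 4) (by omega)
      rw [if_neg (by omega), if_neg (by omega), if_neg (by omega), if_neg (by omega),
        if_neg (by omega), if_pos rfl, if_neg (by omega)] at h4
      linear_combination h4)
    (by
      have h4 := h3 0 (by omega)
      rw [if_pos (by omega), if_neg (by omega), if_neg (by omega), if_neg (by omega),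
        if_neg (by omega), if_neg (by omega), if_pos rfl] at h4
      linear_combination h4)
    (fun j hj => by
      have h4 := h3 (j + 1) (by omega)
      rw [if_pos (by omega), if_pos (by omega), if_neg (by omega), if_neg (by omega),
        if_neg (by omega), if_neg (by omega), if_neg (by omega), Nat.add_sub_cancel] at h4
      linear_combination h4)
    (by
      have h4 := h3 (2 * r + 1) (by omega)
      rw [if_neg (by omega), if_pos (by omega), if_pos rfl, if_neg (by omega),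
        if_neg (by omega), if_neg (by omega), if_neg (by omega), Nat.add_sub_cancel] at h4
      linear_combination h4)
    (by
      have h4 := h3 (2 * r + 2) (by omega)
      rw [if_neg (by omega), if_neg (by omega), if_neg (by omega), if_pos rfl,
        if_neg (by omega), if_neg (by omega), if_neg (by omega)] at h4
      linear_combination h4)
    (by
      have h4 := h3 (2 * r + 3) (by omega)
      rw [if_neg (by omega), if_neg (by omega), if_neg (by omega), if_neg (by omega), if_pos rfl,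
        if_neg (by omega), if_neg (by omega)] at h4
      linear_combination h4)
  funext j
  rw [← Kp.cx_of r j, Pi.zero_apply]
  have hj := j.2
  by_cases h5 : (j : ℕ) ≤ 2 * r + 1
  · exact hx j (by omega)
  · rcases (show (j : ℕ) = 2 * r + 2 ∨ (j : ℕ) = 2 * r + 3 ∨ (j : ℕ) = 2 * r + 4 by omega) with
      h6 | h6 | h6 <;> rw [h6]
    · exact hu
    · exact hv
    · exact hw

end Gd

end Pool.Agent.RCH
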