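import Pool.Agent.RCH.KpPl
import Pool.Agent.RCH.AutBox

/-!
# Symmetries of hypersurfaces
-/

set_option autoImplicit false

open MvPolynomial

namespace Pool.Agent.RCH

namespace Gd

/-- The substitution `x_j ↦ α_j x_(σ j)` multiplies `F` by a constant; the `α_j` are not zero. -/
def IsSym {ι : Type} (F : MvPolynomial ι ℂ) (σ : Equiv.Perm ι) (α : ι → ℂ) : Prop :=
  (∀ j, α j ≠ 0) ∧
    ∃ c : ℂ, aeval (fun j => C (α j) * (MvPolynomial.X (σ j) : MvPolynomial ι ℂ)) F = C c * F

/-- a monomial substitution and its inverse -/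
lemma sub_sub {ι : Type} (σ : Equiv.Perm ι) {α : ι → ℂ} (hα : ∀ j, α j ≠ 0)
    (f : MvPolynomial ι ℂ) :
    aeval (fun j => C ((α (σ.symm j))⁻¹) * (MvPolynomial.X (σ.symm j) : MvPolynomial ι ℂ))
      (aeval (fun j => C (α j) * (MvPolynomial.X (σ j) : MvPolynomial ι ℂ)) f) = f := by
  have h : (aeval (fun j => C ((α (σ.symm j))⁻¹) *
      (MvPolynomial.X (σ.symm j) : MvPolynomial ι ℂ))).comp
      (aeval (fun j => C (α j) * (MvPolynomial.X (σ j) : MvPolynomial ι ℂ))) =
      AlgHom.id ℂ (MvPolynomial ι ℂ) := by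
    apply MvPolynomial.algHom_ext
    intro j
    rw [AlgHom.comp_apply, aeval_X, map_mul, aeval_X, aeval_C, AlgHom.id_apply,
      Equiv.symm_apply_apply, ← mul_assoc]
    show C (α j) * C ((α j)⁻¹) * _ = _
    rw [← C_mul, mul_inv_cancel₀ (hα j), C_1, one_mul]
  rw [← AlgHom.comp_apply, h, AlgHom.id_apply]

/-- the symmetry of the hypersurface -/
noncomputable def msym {ι : Type} {F : MvPolynomial ι ℂ} (hF : F ≠ 0) {σ : Equiv.Perm ι}
    {α : ι → ℂ} (h : IsSym F σ α) : MSym (Kp.hyp F) where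
  σ := σ
  c := α
  hc := h.1
  hwt := fun _ => rfl
  heq := by
    intro f
    obtain ⟨hα, c, hc⟩ := h
    have hs := sub_sub σ hα
    show _ ∈ Ideal.span {F} ↔ f ∈ Ideal.span {F}
    rw [Ideal.mem_span_singleton', Ideal.mem_span_singleton']
    constructor
    · rintro ⟨a, ha⟩
      have hc0 : c ≠ 0 := by
        rintro rfl
        rw [C_0, zero_mul] at hc
        have h1 := hs F
        rw [hc, map_zero] at h1
        exact hF h1.symm
      have h1 : F = C c⁻¹ * aeval (fun j => C (α j) * (MvPolynomial.X (σ j) :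
          MvPolynomial ι ℂ)) F := by
        rw [hc, ← mul_assoc, ← C_mul, inv_mul_cancel₀ hc0, C_1, one_mul]
      refine ⟨aeval (fun j => C ((α (σ.symm j))⁻¹) *
        (MvPolynomial.X (σ.symm j) : MvPolynomial ι ℂ)) (a * C c⁻¹), ?_⟩
      have h2 : a * F = a * C c⁻¹ * aeval (fun j => C (α j) * (MvPolynomial.X (σ j) :
          MvPolynomial ι ℂ)) F := by rw [mul_assoc, ← h1]
      conv_rhs => rw [← hs f, ← ha, h2, map_mul, hs F]
    · rintro ⟨a, rfl⟩
      refine ⟨aeval (fun j => C (α j) * (MvPolynomial.X (σ j) : MvPolynomial ι ℂ)) a * C c, ?_⟩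
      rw [map_mul, hc, mul_assoc]

lemma F_ne_zero (S : Kp.PlData) : S.F ≠ 0 := by
  intro h
  let e : S.J → Polynomial ℂ := fun j =>
    if (j : ℕ) = 0 then 1 else if (j : ℕ) = 2 * S.r + 4 then Polynomial.X else 0
  have hY : ∀ j, j < 2 * S.r + 5 → aeval e (S.Y j) =
      if j = 0 then 1 else if j = 2 * S.r + 4 then Polynomial.X else 0 := by
    intro j hj
    rw [Kp.PlData.Y, aeval_X]
    show (if ((S.x j : S.J) : ℕ) = 0 then (1 : Polynomial ℂ) else _) = _
    rw [S.x_val hj]
  have hY0 : ∀ j, j < 2 * S.r + 4 → j ≠ 0 → aeval e (S.Y j) = 0 := by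
    intro j hj hj0
    rw [hY j (by omega), if_neg hj0, if_neg (by omega)]
  have hte : ∀ i ∈ Finset.Ico 0 (S.r + 1), aeval e (S.te i) = 0 := by
    intro i hi
    rw [Finset.mem_Ico] at hi
    rw [Kp.PlData.te, map_add, map_mul, map_mul, map_pow, hY0 (2 * i + 1) (by omega) (by omega),
      zero_pow (by omega), mul_zero, zero_mul, add_zero]
  have hph : aeval e S.ph = 0 := by
    have ht : ∃ k : Fin S.t, True := by
      by_contra hne
      have h1 := S.hsum
      rw [Finset.sum_eq_zero fun k _ => absurd ⟨k, trivial⟩ hne] at h1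
      omega
    obtain ⟨k, -⟩ := ht
    rw [Kp.PlData.ph, map_prod]
    refine Finset.prod_eq_zero (Finset.mem_univ k) ?_
    rw [map_pow, Kp.PlData.q, map_sub, map_mul, hY0 (2 * S.r + 3) (by omega) (by omega),
      hY0 (2 * S.r + 2) (by omega) (by omega), mul_zero, sub_zero,
      zero_pow (Nat.one_le_iff_ne_zero.1 (S.ha k))]
  have h1 : aeval e S.F = Polynomial.X * aeval e S.P := by
    rw [S.F_eq, map_add, map_mul, hY (2 * S.r + 4) (by omega), if_neg (by omega), if_pos rfl,
      Kp.PlData.ff, map_add, map_sum, Finset.sum_eq_zero hte, hph, add_zero, zero_add]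
  rw [h, map_zero] at h1
  have h2 : aeval e S.P = 0 := (mul_eq_zero.1 h1.symm).resolve_left Polynomial.X_ne_zero
  have h3 : eval (Pi.single (Kp.cx S.r 0) 1) S.P = Polynomial.eval 0 (aeval e S.P) := by
    have h4 : (Polynomial.evalRingHom (0 : ℂ)).comp
        ((aeval e : MvPolynomial S.J ℂ →ₐ[ℂ] Polynomial ℂ) : MvPolynomial S.J ℂ →+* Polynomial ℂ) =
        (eval (Pi.single (Kp.cx S.r 0) 1) : MvPolynomial S.J ℂ →+* ℂ) := by
      apply MvPolynomial.ringHom_ext
      · intro a
        simp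
      · intro j
        have hx0 : ((Kp.cx S.r 0 : S.J) : ℕ) = 0 := S.x_val (by omega)
        simp only [RingHom.comp_apply, RingHom.coe_coe, aeval_X, Polynomial.coe_evalRingHom,
          eval_X]
        show Polynomial.eval 0 (if (j : ℕ) = 0 then (1 : Polynomial ℂ) else
          if (j : ℕ) = 2 * S.r + 4 then Polynomial.X else 0) = _
        by_cases hj : (j : ℕ) = 0
        · have : j = Kp.cx S.r 0 := Fin.ext (by rw [hj, hx0])
          rw [if_pos hj, this, Pi.single_eq_same, Polynomial.eval_one]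
        · have : j ≠ Kp.cx S.r 0 := fun h5 => hj (by rw [h5, hx0])
          rw [if_neg hj, Pi.single_eq_of_ne this]
          split_ifs
          · rw [Polynomial.eval_X]
          · rw [Polynomial.eval_zero]
    exact (RingHom.congr_fun h4 S.P).symm
  rw [h2, Polynomial.eval_zero] at h3
  exact S.hPc h3

end Gd

end Pool.Agent.RCH
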