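import Pool.Agent.RCH.GdEx2
import Pool.Agent.RCH.GdMsym

/-!
# The symmetries of the second example
-/

set_option autoImplicit false

open MvPolynomial

namespace Pool.Agent.RCH

namespace Gd

/-- the product of the forms with multiplicities -/
lemma ex2_prod (r p a : ℕ) {ζ : ℂ} (hζ : IsPrimitiveRoot ζ (2 * p + 1)) :
    ∏ k : Fin (2 * p + 1), (MvPolynomial.X (Kp.cx r (2 * r + 3)) -
      C (ζ ^ (k : ℕ)) * MvPolynomial.X (Kp.cx r (2 * r + 2)) : MvPolynomial (Fin (2 * r + 5)) ℂ) ^ a =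
    (MvPolynomial.X (Kp.cx r (2 * r + 3)) ^ (2 * p + 1) -
      MvPolynomial.X (Kp.cx r (2 * r + 2)) ^ (2 * p + 1)) ^ a := by
  rw [← ex_prod r p hζ, ← Finset.prod_pow]
  refine Finset.prod_congr rfl fun k _ => ?_
  rw [pow_one]

lemma ex2Sym_aux (r n p a : ℕ) {ζ : ℂ} (hζ : IsPrimitiveRoot ζ (2 * p + 1))
    (φ : MvPolynomial (Fin (2 * r + 5)) ℂ →ₐ[ℂ] MvPolynomial (Fin (2 * r + 5)) ℂ) (γ c : ℂ)
    (hφ : ∀ j < 2 * r + 5, j ≠ 2 * r + 2 → j ≠ 2 * r + 3 →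
      φ (MvPolynomial.X (Kp.cx r j)) = C γ * MvPolynomial.X (Kp.cx r j))
    (hγ : γ ^ (n + 1) = c)
    (h2 : C γ * ((φ (MvPolynomial.X (Kp.cx r (2 * r + 2))) *
      φ (MvPolynomial.X (Kp.cx r (2 * r + 3)))) ^ p *
      (φ (MvPolynomial.X (Kp.cx r (2 * r + 2))) ^ (2 * p + 1) +
        φ (MvPolynomial.X (Kp.cx r (2 * r + 3))) ^ (2 * p + 1)) ^ (a - 1)) =
      C c * ((MvPolynomial.X (Kp.cx r (2 * r + 2)) * MvPolynomial.X (Kp.cx r (2 * r + 3))) ^ p *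
      (MvPolynomial.X (Kp.cx r (2 * r + 2)) ^ (2 * p + 1) +
        MvPolynomial.X (Kp.cx r (2 * r + 3)) ^ (2 * p + 1)) ^ (a - 1)))
    (h3 : (φ (MvPolynomial.X (Kp.cx r (2 * r + 3))) ^ (2 * p + 1) -
      φ (MvPolynomial.X (Kp.cx r (2 * r + 2))) ^ (2 * p + 1)) ^ a =
      C c * (MvPolynomial.X (Kp.cx r (2 * r + 3)) ^ (2 * p + 1) -
        MvPolynomial.X (Kp.cx r (2 * r + 2)) ^ (2 * p + 1)) ^ a) :
    φ (exPoly2 r n p a ζ) = C c * exPoly2 r n p a ζ := by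
  have hc : (C c : MvPolynomial (Fin (2 * r + 5)) ℂ) = C γ * C γ ^ n := by
    rw [← hγ, C_pow, pow_succ']
  have hP := ex2_prod r p a hζ
  simp only [exPoly2, Kp.planesPoly]
  rw [hP]
  simp only [map_add, map_mul, map_pow, map_sum, map_sub]
  have ht : ∀ i ∈ Finset.range (r + 1), φ (MvPolynomial.X (Kp.cx r (2 * i))) *
      φ (MvPolynomial.X (Kp.cx r (2 * i + 1))) ^ n +
      φ (MvPolynomial.X (Kp.cx r (2 * i + 1))) *
        φ (if i < r then MvPolynomial.X (Kp.cx r (2 * i + 2)) ^ n else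
          (MvPolynomial.X (Kp.cx r (2 * r + 2)) * MvPolynomial.X (Kp.cx r (2 * r + 3))) ^ p *
          (MvPolynomial.X (Kp.cx r (2 * r + 2)) ^ (2 * p + 1) +
            MvPolynomial.X (Kp.cx r (2 * r + 3)) ^ (2 * p + 1)) ^ (a - 1)) =
      C c * (MvPolynomial.X (Kp.cx r (2 * i)) * MvPolynomial.X (Kp.cx r (2 * i + 1)) ^ n +
        MvPolynomial.X (Kp.cx r (2 * i + 1)) *
          (if i < r then MvPolynomial.X (Kp.cx r (2 * i + 2)) ^ n else
          (MvPolynomial.X (Kp.cx r (2 * r + 2)) * MvPolynomial.X (Kp.cx r (2 * r + 3))) ^ p *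
          (MvPolynomial.X (Kp.cx r (2 * r + 2)) ^ (2 * p + 1) +
            MvPolynomial.X (Kp.cx r (2 * r + 3)) ^ (2 * p + 1)) ^ (a - 1))) := by
    intro i hi
    rw [Finset.mem_range] at hi
    have e0 := hφ (2 * i) (by omega) (by omega) (by omega)
    have e1 := hφ (2 * i + 1) (by omega) (by omega) (by omega)
    by_cases hir : i < r
    · have e2 := hφ (2 * i + 2) (by omega) (by omega) (by omega)
      rw [if_pos hir, map_pow, e0, e1, e2, hc]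
      ring
    · have hi' : i = r := by omega
      subst hi'
      rw [if_neg hir, map_mul, map_pow, map_pow, map_mul, map_add, map_pow, map_pow, e0, e1]
      rw [hc] at h2
      rw [hc]
      linear_combination (MvPolynomial.X (Kp.cx i (2 * i + 1))) * h2
  rw [Finset.sum_congr rfl ht, h3, hφ 0 (by omega) (by omega) (by omega),
    hφ (2 * r + 4) (by omega) (by omega) (by omega), ← Finset.mul_sum, hc]
  ring

/-- the rotation (`α = ζ ^ (p + 1)` except `1` and `ζ` at the indices `2r + 2`, `2r + 3`) -/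
theorem ex2_rot (r n : ℕ) {p a : ℕ} (hp : 1 ≤ p) (ha : 1 ≤ a) (hn : n + 1 = (2 * p + 1) * a)
    {ζ : ℂ} (hζ : IsPrimitiveRoot ζ (2 * p + 1)) :
    ∃ α, IsSym (exPoly2 r n p a ζ) (Equiv.refl _) α ∧
      α (Kp.cx r (2 * r + 3)) = ζ * α (Kp.cx r (2 * r + 2)) := by
  have hζ0 : ζ ≠ 0 := hζ.ne_zero (by omega)
  have hne : Kp.cx r (2 * r + 3) ≠ Kp.cx r (2 * r + 2) :=
    Kp.cx_ne r (by omega) (by omega) (by omega)
  let α : Fin (2 * r + 5) → ℂ := fun j => if j = Kp.cx r (2 * r + 2) then 1 else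
    if j = Kp.cx r (2 * r + 3) then ζ else ζ ^ (p + 1)
  have hα2 : α (Kp.cx r (2 * r + 2)) = 1 := if_pos rfl
  have hα3 : α (Kp.cx r (2 * r + 3)) = ζ := (if_neg hne).trans (if_pos rfl)
  have hz : (C ζ : MvPolynomial (Fin (2 * r + 5)) ℂ) ^ (2 * p + 1) = 1 := by
    rw [← C_pow, hζ.pow_eq_one, C_1]
  refine ⟨α, ⟨fun j => ?_, 1, ?_⟩, by rw [hα2, hα3, mul_one]⟩
  · simp only [α]
    split_ifs
    · exact one_ne_zero
    · exact hζ0
    · exact pow_ne_zero _ hζ0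
  · refine ex2Sym_aux r n p a hζ _ (ζ ^ (p + 1)) 1 ?_ ?_ ?_ ?_
    · intro j hj h2 h3
      rw [aeval_X]
      have e : α (Kp.cx r j) = ζ ^ (p + 1) :=
        (if_neg (Kp.cx_ne r hj (by omega) h2)).trans (if_neg (Kp.cx_ne r hj (by omega) h3))
      rw [e]
      rfl
    · rw [hn, ← pow_mul, mul_comm, mul_assoc, pow_mul, hζ.pow_eq_one, one_pow]
    · rw [aeval_X, aeval_X, hα2, hα3, Equiv.refl_apply, Equiv.refl_apply]
      have e : (C (ζ ^ (p + 1)) * C ζ ^ p : MvPolynomial (Fin (2 * r + 5)) ℂ) = 1 := by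
        rw [← C_pow, ← C_mul, ← pow_add, show p + 1 + p = 2 * p + 1 from by ring, hζ.pow_eq_one,
          C_1]
      rw [C_1, mul_pow (C ζ) (MvPolynomial.X (Kp.cx r (2 * r + 3))) (2 * p + 1), hz]
      simp only [one_mul]
      linear_combination ((MvPolynomial.X (Kp.cx r (2 * r + 2)) *
        MvPolynomial.X (Kp.cx r (2 * r + 3))) ^ p *
        (MvPolynomial.X (Kp.cx r (2 * r + 2)) ^ (2 * p + 1) +
          MvPolynomial.X (Kp.cx r (2 * r + 3)) ^ (2 * p + 1)) ^ (a - 1)) * e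
    · rw [aeval_X, aeval_X, hα2, hα3, Equiv.refl_apply, Equiv.refl_apply, mul_pow, mul_pow,
        hz, C_1]
      ring

/-- the reflection (`β = (-1) ^ a` except `1` at the indices `2r + 2`, `2r + 3`) -/
theorem ex2_swap (r n : ℕ) {p a : ℕ} (hp : 1 ≤ p) (ha : 1 ≤ a) (hn : n + 1 = (2 * p + 1) * a)
    {ζ : ℂ} (hζ : IsPrimitiveRoot ζ (2 * p + 1)) :
    ∃ β, IsSym (exPoly2 r n p a ζ)
        (Equiv.swap (Kp.cx r (2 * r + 2)) (Kp.cx r (2 * r + 3))) β ∧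
      β (Kp.cx r (2 * r + 3)) = β (Kp.cx r (2 * r + 2)) := by
  have hne : Kp.cx r (2 * r + 3) ≠ Kp.cx r (2 * r + 2) :=
    Kp.cx_ne r (by omega) (by omega) (by omega)
  let β : Fin (2 * r + 5) → ℂ := fun j => if j = Kp.cx r (2 * r + 2) then 1 else
    if j = Kp.cx r (2 * r + 3) then 1 else (-1) ^ a
  have hβ2 : β (Kp.cx r (2 * r + 2)) = 1 := if_pos rfl
  have hβ3 : β (Kp.cx r (2 * r + 3)) = 1 := (if_neg hne).trans (if_pos rfl)
  refine ⟨β, ⟨fun j => ?_, (-1) ^ a, ?_⟩, by rw [hβ2, hβ3]⟩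
  · simp only [β]
    split_ifs
    · exact one_ne_zero
    · exact one_ne_zero
    · exact pow_ne_zero _ (neg_ne_zero.2 one_ne_zero)
  · refine ex2Sym_aux r n p a hζ _ ((-1) ^ a) ((-1) ^ a) ?_ ?_ ?_ ?_
    · intro j hj h2 h3
      have n2 := Kp.cx_ne r hj (by omega : 2 * r + 2 < 2 * r + 5) h2
      have n3 := Kp.cx_ne r hj (by omega : 2 * r + 3 < 2 * r + 5) h3
      rw [aeval_X]
      have e : β (Kp.cx r j) = (-1) ^ a := (if_neg n2).trans (if_neg n3)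
      rw [e, Equiv.swap_apply_of_ne_of_ne n2 n3]
    · rw [hn, ← pow_mul]
      rcases Nat.even_or_odd a with h | h
      · rw [h.neg_one_pow, (h.mul_right _).neg_one_pow]
      · rw [h.neg_one_pow, (h.mul (Odd.mul ⟨p, rfl⟩ h)).neg_one_pow]
    · rw [aeval_X, aeval_X, hβ2, hβ3, Equiv.swap_apply_left, Equiv.swap_apply_right, C_1]
      ring
    · rw [aeval_X, aeval_X, hβ2, hβ3, Equiv.swap_apply_left, Equiv.swap_apply_right, C_pow, C_neg,
        C_1, one_mul, one_mul, ← neg_sub, neg_pow]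

end Gd

end Pool.Agent.RCH
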