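import Pool.Agent.RCH.GdAll

/-!
# Hypersurfaces with a dihedral group of symmetries: the data
-/

set_option autoImplicit false

open MvPolynomial

namespace Pool.Agent.RCH

namespace Gd

/-- The data of `Kp.PlData` with slopes the `t`-th roots of unity and equal multiplicities. -/
noncomputable def rootData (r m t a : ℕ) {ζ : ℂ} (hζ : IsPrimitiveRoot ζ t) (hta : t * a = m + 3)
    (g : ℕ → MvPolynomial (Fin (2 * r + 5)) ℂ) (P : MvPolynomial (Fin (2 * r + 5)) ℂ)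
    (hg : ∀ i ≤ r, (g i).IsHomogeneous (m + 2))
    (hgv : ∀ i ≤ r, ∀ j ∈ (g i).vars, 2 * i + 1 ≤ (j : ℕ) ∧ (j : ℕ) ≤ 2 * r + 3)
    (hge : ∀ i < r, eval (Pi.single (Kp.cx r (2 * i + 2)) 1) (g i) ≠ 0)
    (hgb : ∀ k : Fin t, eval (Pi.single (Kp.cx r (2 * r + 2)) 1 +
      Pi.single (Kp.cx r (2 * r + 3)) (ζ ^ (k : ℕ))) (g r) ≠ 0)
    (hP : P.IsHomogeneous (m + 2)) (hPc : eval (Pi.single (Kp.cx r 0) 1) P ≠ 0) : Kp.PlData where
  r := r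
  m := m
  t := t
  b := fun k => ζ ^ (k : ℕ)
  a := fun _ => a
  hb := fun i j h => Fin.ext (hζ.pow_inj i.2 j.2 h)
  ha := fun _ => by
    rcases Nat.eq_zero_or_pos a with h | h
    · rw [h, mul_zero] at hta
      omega
    · exact h
  hsum := by
    rw [Finset.sum_const, Finset.card_univ, Fintype.card_fin, smul_eq_mul, hta]
  g := g
  hg := hg
  hgv := hgv
  hge := hge
  hgb := hgb
  P := P
  hP := hP
  hPc := hPc

theorem rootData_nil (r n t a : ℕ) (hn : 2 ≤ n) (ht : Odd t) {ζ : ℂ}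
    (hζ : IsPrimitiveRoot ζ t) (hta : t * a = n + 1)
    (g : ℕ → MvPolynomial (Fin (2 * r + 5)) ℂ) (P : MvPolynomial (Fin (2 * r + 5)) ℂ)
    (hg : ∀ i ≤ r, (g i).IsHomogeneous n)
    (hgv : ∀ i ≤ r, ∀ j ∈ (g i).vars, 2 * i + 1 ≤ (j : ℕ) ∧ (j : ℕ) ≤ 2 * r + 3)
    (hge : ∀ i < r, eval (Pi.single (Kp.cx r (2 * i + 2)) 1) (g i) ≠ 0)
    (hgb : ∀ k : Fin t, eval (Pi.single (Kp.cx r (2 * r + 2)) 1 +
      Pi.single (Kp.cx r (2 * r + 3)) (ζ ^ (k : ℕ))) (g r) ≠ 0)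
    (hP : P.IsHomogeneous n) (hPc : eval (Pi.single (Kp.cx r 0) 1) P ≠ 0)
    (hα : ∃ α, IsSym (Kp.planesPoly r n (fun k : Fin t => ζ ^ (k : ℕ)) (fun _ => a) g P)
      (Equiv.refl _) α ∧ α (Kp.cx r (2 * r + 3)) = ζ * α (Kp.cx r (2 * r + 2)))
    (hβ : ∃ β, IsSym (Kp.planesPoly r n (fun k : Fin t => ζ ^ (k : ℕ)) (fun _ => a) g P)
      (Equiv.swap (Kp.cx r (2 * r + 2)) (Kp.cx r (2 * r + 3))) β ∧
        β (Kp.cx r (2 * r + 3)) = β (Kp.cx r (2 * r + 2))) :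
    ∃ l : Fin t → Pt (Kp.hyp
      (Kp.planesPoly r n (fun k : Fin t => ζ ^ (k : ℕ)) (fun _ => a) g P)) 1,
      (∀ k, (l k).I = Kp.spaceIdeal r (ζ ^ (k : ℕ))) ∧ AllNilpotent _ l := by
  obtain ⟨m, rfl⟩ : ∃ m, n = m + 2 := ⟨n - 2, by omega⟩
  obtain ⟨α, hα, hα1⟩ := hα
  obtain ⟨β, hβ, hβ1⟩ := hβ
  have hta' : t * a = m + 3 := hta
  exact ⟨(rootData r m t a hζ hta' g P hg hgv hge hgb hP hPc).pl,
    (rootData r m t a hζ hta' g P hg hgv hge hgb hP hPc).pl_I_eq,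
    all_nil (rootData r m t a hζ hta' g P hg hgv hge hgb hP hPc) ht a (fun _ => rfl) hζ
      (fun _ => rfl) (α := α) (β := β) hα hα1 hβ hβ1⟩

end Gd

end Pool.Agent.RCH
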