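import Pool.Agent.RCH.KpFin
import Pool.Agent.RCH.AutBox

/-!
# The relations given by the symmetries of the first factor
-/

set_option autoImplicit false

open MvPolynomial

namespace Pool.Agent.RCH

namespace Gd

variable {ι : Type} [Finite ι] {X : WVar ι}

/-- a symmetry of the first factor -/
lemma mapDomain_box_fst (g : MSym X) (P Q : Pt X 1) :
    Finsupp.mapDomain (trN (Equiv.refl (Fin 2)) ![g, MSym.one X]) (box X ![P, Q]) =
      box X ![tr1 g P, Q] := by
  rw [box_trN]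
  congr 1
  funext i
  fin_cases i
  · rfl
  · exact tr1_one Q

/-- A symmetry of `X` which permutes the linear spaces: the difference of the relation between the
linear spaces and of its image under the symmetry of the first factor. -/
theorem rel_act (S : Kp.PlData) (g : MSym (Kp.hyp S.F)) (π : Equiv.Perm (Fin S.t))
    (hπ : ∀ k, tr1 g (S.pl k) = S.pl (π k)) (ha : ∀ k, S.a (π k) = S.a k) :
    ((S.m + 2) ^ (S.r + 1) * (S.m + 3)) • ∑ k, S.a k • (box (Kp.hyp S.F) ![S.pl (π k), S.pl k] -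
      box (Kp.hyp S.F) ![S.pl k, S.pl k]) ∈ RatZero (Kp.hyp S.F) 2 := by
  have h1 := S.rel_spaces
  have h2 := (ratZero_trN (Equiv.refl (Fin 2)) ![g, MSym.one (Kp.hyp S.F)] _).2 h1
  set M := Finsupp.mapDomain.addMonoidHom (M := ℤ)
    (trN (Equiv.refl (Fin 2)) ![g, MSym.one (Kp.hyp S.F)]) with hM
  have h3 : M ((S.m + 2) ^ (S.r + 1) •
      ((S.m + 3) • ∑ k, S.a k • box (Kp.hyp S.F) ![S.pl k, S.pl k] -
        ∑ j, ∑ k, (S.a j * S.a k) • box (Kp.hyp S.F) ![S.pl j, S.pl k])) ∈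
          RatZero (Kp.hyp S.F) 2 := h2
  have h4 : ∀ P Q, M (box (Kp.hyp S.F) ![P, Q]) = box (Kp.hyp S.F) ![tr1 g P, Q] :=
    mapDomain_box_fst g
  simp only [map_nsmul, map_sub, map_sum, h4, hπ] at h3
  have h5 : ∑ j, ∑ k, (S.a j * S.a k) • box (Kp.hyp S.F) ![S.pl (π j), S.pl k] =
      ∑ j, ∑ k, (S.a j * S.a k) • box (Kp.hyp S.F) ![S.pl j, S.pl k] := by
    rw [← Equiv.sum_comp π (fun j => ∑ k, (S.a j * S.a k) • box (Kp.hyp S.F) ![S.pl j, S.pl k])]
    simp only [ha]
  rw [h5] at h3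
  have h6 := sub_mem h3 h1
  rw [← smul_sub, sub_sub_sub_cancel_right, ← smul_sub, ← Finset.sum_sub_distrib, smul_smul] at h6
  simp only [← smul_sub] at h6
  exact h6

/-- If a symmetry of `X` exchanges two of the linear spaces and fixes the others, then the difference
of the two is smash-nilpotent. -/
theorem swap_nil (S : Kp.PlData) (g : MSym (Kp.hyp S.F)) {j k : Fin S.t}
    (hπ : ∀ i, tr1 g (S.pl i) = S.pl (Equiv.swap j k i))
    (ha : ∀ i, S.a (Equiv.swap j k i) = S.a i) :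
    SmashNilpotent (Kp.hyp S.F) (Finsupp.single (S.pl j) 1 - Finsupp.single (S.pl k) 1) := by
  classical
  by_cases hjk : j = k
  · subst hjk
    rw [sub_self]
    refine ⟨1, le_rfl, 1, le_rfl, ?_⟩
    rw [extPow_zero_cycle le_rfl, smul_zero]
    exact zero_mem _
  have h1 := rel_act S g (Equiv.swap j k) hπ ha
  have h2 : ∑ i, S.a i • (box (Kp.hyp S.F) ![S.pl (Equiv.swap j k i), S.pl i] -
      box (Kp.hyp S.F) ![S.pl i, S.pl i]) =
      ∑ i ∈ {j, k}, S.a i • (box (Kp.hyp S.F) ![S.pl (Equiv.swap j k i), S.pl i] -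
      box (Kp.hyp S.F) ![S.pl i, S.pl i]) := by
    symm
    refine Finset.sum_subset (Finset.subset_univ _) fun i _ hi => ?_
    rw [Finset.mem_insert, Finset.mem_singleton, not_or] at hi
    rw [Equiv.swap_apply_of_ne_of_ne hi.1 hi.2, sub_self, smul_zero]
  have hajk : S.a k = S.a j := by
    have := ha j
    rwa [Equiv.swap_apply_left] at this
  rw [h2, Finset.sum_pair hjk, Equiv.swap_apply_left, Equiv.swap_apply_right, hajk, ← smul_add,
    smul_smul] at h1
  refine ⟨2, by norm_num, (S.m + 2) ^ (S.r + 1) * (S.m + 3) * S.a j, ?_, ?_⟩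
  · have h3 := S.ha j
    exact Nat.one_le_iff_ne_zero.2 (by positivity)
  · rw [S.extPow_spaces hjk]
    have h4 := neg_mem h1
    rw [← smul_neg] at h4
    refine (congrArg (· ∈ RatZero (Kp.hyp S.F) 2) (congrArg _ ?_)).mp h4
    abel

end Gd

end Pool.Agent.RCH
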