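import Mathlib

/-!
# Smoothness of an explicit member, in all dimensions: the equations for the coordinates
-/

set_option autoImplicit false

namespace Pool.Agent.RCH

namespace Kp

/-- the inequality for the last equation -/
lemma smooth_num {n : ℕ} (hn : 2 ≤ n) : (n : ℝ) < 2 * (2 * n / (n + 1)) ^ n := by
  have h0 : (0 : ℝ) < n + 1 := by positivity
  have hn' : (2 : ℝ) ≤ n := by exact_mod_cast hn
  have h1 : (2 * n / (n + 1) : ℝ) = 1 + (n - 1) / (n + 1) := by
    field_simp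
    ring
  have h2 : (1 : ℝ) + n * ((n - 1) / (n + 1)) ≤ (1 + (n - 1) / (n + 1)) ^ n := by
    refine one_add_mul_le_pow ?_ n
    have : (0 : ℝ) ≤ (n - 1) / (n + 1) := by
      apply div_nonneg <;> linarith
    linarith
  have h3 : (n : ℝ) < 2 * (1 + n * ((n - 1) / (n + 1))) := by
    have h4 : (2 : ℝ) * (1 + n * ((n - 1) / (n + 1))) - n = (n ^ 2 - n + 2) / (n + 1) := by
      field_simp
      ring
    have h5 : (0 : ℝ) < (n ^ 2 - n + 2) / (n + 1) := by
      apply div_pos _ h0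
      nlinarith
    linarith
  rw [h1]
  linarith

/-- the norms of the coordinates increase, but not too fast -/
lemma smooth_norms {p : ℕ} (hp : 1 ≤ p) (M : ℕ) (x : ℕ → ℂ) (w : ℂ)
    (hw : x 0 ^ (p + 1) + (p + 2) * w ^ (p + 1) = 0)
    (h0 : x 1 ^ (p + 1) + (p + 1) * w * x 0 ^ p = 0)
    (hj : ∀ j, j < M → (p + 1) * x j * x (j + 1) ^ p + x (j + 2) ^ (p + 1) = 0)
    (hx : x 0 ≠ 0) (j : ℕ) (hjM : j ≤ M) :
    0 < ‖x j‖ ∧ ‖x j‖ ≤ ‖x (j + 1)‖ ∧
      ‖x (j + 1)‖ ^ (p + 1) ≤ (p + 1) * ‖x j‖ ^ (p + 1) := by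
  have hp' : (1 : ℝ) ≤ p := by exact_mod_cast hp
  have hpp : ((p : ℝ) + 1) ≤ (p + 1) ^ (p + 1) := by
    calc ((p : ℝ) + 1) = (p + 1) ^ 1 := (pow_one _).symm
      _ ≤ (p + 1) ^ (p + 1) := pow_le_pow_right₀ (by linarith) (by omega)
  have hpp2 : ((p : ℝ) + 2) ≤ (p + 1) ^ (p + 1) := by
    calc ((p : ℝ) + 2) ≤ (p + 1) ^ 2 := by nlinarith
      _ ≤ (p + 1) ^ (p + 1) := pow_le_pow_right₀ (by linarith) (by omega)
  have hcast : ‖(p : ℂ) + 1‖ = (p : ℝ) + 1 := by
    have : ((p : ℂ) + 1) = ((p + 1 : ℕ) : ℂ) := by push_cast; ring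
    rw [this, Complex.norm_natCast]
    push_cast
    ring
  have hcast2 : ‖(p : ℂ) + 2‖ = (p : ℝ) + 2 := by
    have : ((p : ℂ) + 2) = ((p + 2 : ℕ) : ℂ) := by push_cast; ring
    rw [this, Complex.norm_natCast]
    push_cast
    ring
  induction j with
  | zero =>
    have e1 : ‖x 0‖ ^ (p + 1) = (p + 2) * ‖w‖ ^ (p + 1) := by
      have h1 : x 0 ^ (p + 1) = -((p + 2) * w ^ (p + 1)) := eq_neg_of_add_eq_zero_left hw
      rw [← norm_pow, h1, norm_neg, norm_mul, norm_pow, hcast2]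
    have e2 : ‖x 1‖ ^ (p + 1) = (p + 1) * ‖w‖ * ‖x 0‖ ^ p := by
      have h1 : x 1 ^ (p + 1) = -((p + 1) * w * x 0 ^ p) := eq_neg_of_add_eq_zero_left h0
      rw [← norm_pow, h1, norm_neg, norm_mul, norm_mul, norm_pow, hcast]
    have hpos : 0 < ‖x 0‖ := norm_pos_iff.2 hx
    have hwle : ‖w‖ ≤ ‖x 0‖ := by
      refine le_of_pow_le_pow_left₀ (n := p + 1) (by omega) hpos.le ?_
      rw [e1]
      have : (0 : ℝ) ≤ ‖w‖ ^ (p + 1) := by positivity
      nlinarith
    have hwge : ‖x 0‖ ≤ (p + 1) * ‖w‖ := by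
      refine le_of_pow_le_pow_left₀ (n := p + 1) (by omega) (by positivity) ?_
      rw [e1, mul_pow]
      exact mul_le_mul_of_nonneg_right hpp2 (by positivity)
    refine ⟨hpos, ?_, ?_⟩
    · refine le_of_pow_le_pow_left₀ (n := p + 1) (by omega) (norm_nonneg _) ?_
      rw [zero_add, e2, pow_succ, mul_comm (‖x 0‖ ^ p)]
      exact mul_le_mul_of_nonneg_right hwge (by positivity)
    · rw [zero_add, e2, pow_succ, mul_assoc]
      refine mul_le_mul_of_nonneg_left ?_ (by positivity)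
      rw [mul_comm]
      exact mul_le_mul_of_nonneg_left hwle (by positivity)
  | succ j ih =>
    obtain ⟨i1, i2, i3⟩ := ih (by omega)
    have hpos : 0 < ‖x (j + 1)‖ := lt_of_lt_of_le i1 i2
    have e2 : ‖x (j + 1 + 1)‖ ^ (p + 1) = (p + 1) * ‖x j‖ * ‖x (j + 1)‖ ^ p := by
      have h1 : x (j + 2) ^ (p + 1) = -((p + 1) * x j * x (j + 1) ^ p) :=
        eq_neg_of_add_eq_zero_right (hj j (by omega))
      rw [← norm_pow, h1, norm_neg, norm_mul, norm_mul, norm_pow, hcast]
    have hge : ‖x (j + 1)‖ ≤ (p + 1) * ‖x j‖ := by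
      refine le_of_pow_le_pow_left₀ (n := p + 1) (by omega) (by positivity) (i3.trans ?_)
      rw [mul_pow]
      exact mul_le_mul_of_nonneg_right hpp (by positivity)
    refine ⟨hpos, ?_, ?_⟩
    · refine le_of_pow_le_pow_left₀ (n := p + 1) (by omega) (norm_nonneg _) ?_
      rw [e2, pow_succ, mul_comm (‖x (j + 1)‖ ^ p)]
      exact mul_le_mul_of_nonneg_right hge (by positivity)
    · rw [e2, pow_succ, mul_assoc]
      refine mul_le_mul_of_nonneg_left ?_ (by positivity)
      rw [mul_comm]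
      exact mul_le_mul_of_nonneg_left i2 (by positivity)

/-- The partial derivatives of
`∑_{j ≤ M} x_j x_{j+1} ^ n + (x_{M+2} - x_{M+1}) (x_{M+2} + x_{M+1}) ^ n + w (x_0 ^ n + w ^ n)`,
`n = p + 1`, vanish together only at zero. -/
theorem smooth_core {p : ℕ} (hp : 1 ≤ p) (M : ℕ) (x : ℕ → ℂ) (w : ℂ)
    (hw : x 0 ^ (p + 1) + (p + 2) * w ^ (p + 1) = 0)
    (h0 : x 1 ^ (p + 1) + (p + 1) * w * x 0 ^ p = 0)
    (hj : ∀ j, j < M → (p + 1) * x j * x (j + 1) ^ p + x (j + 2) ^ (p + 1) = 0)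
    (hu : (p + 1) * x M * x (M + 1) ^ p - (x (M + 2) + x (M + 1)) ^ (p + 1) +
      (p + 1) * (x (M + 2) - x (M + 1)) * (x (M + 2) + x (M + 1)) ^ p = 0)
    (hv : (x (M + 2) + x (M + 1)) ^ (p + 1) +
      (p + 1) * (x (M + 2) - x (M + 1)) * (x (M + 2) + x (M + 1)) ^ p = 0) :
    (∀ j, j ≤ M + 2 → x j = 0) ∧ w = 0 := by
  have hcast : ((p : ℂ) + 2) ≠ 0 := by
    have : ((p : ℂ) + 2) = ((p + 2 : ℕ) : ℂ) := by push_cast; ring
    rw [this]
    exact Nat.cast_ne_zero.2 (by omega)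
  by_cases hx : x 0 = 0
  · have hw0 : w = 0 := by
      rw [hx, zero_pow (by omega), zero_add] at hw
      exact pow_eq_zero_iff (by omega) |>.1 ((mul_eq_zero.1 hw).resolve_left hcast)
    have h1 : x 1 = 0 := by
      rw [hw0, mul_zero, zero_mul, add_zero] at h0
      exact pow_eq_zero_iff (by omega) |>.1 h0
    have hall : ∀ j, j ≤ M + 1 → x j = 0 := by
      intro j
      induction j using Nat.strong_induction_on with
      | _ j ih =>
        intro hjM
        match j, ih, hjM with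
        | 0, _, _ => exact hx
        | 1, _, _ => exact h1
        | j + 2, ih, hjM =>
          have h2 := hj j (by omega)
          rw [ih j (by omega) (by omega), mul_zero, zero_mul, zero_add] at h2
          exact pow_eq_zero_iff (by omega) |>.1 h2
    refine ⟨fun j hjM => ?_, hw0⟩
    rcases Nat.lt_or_ge j (M + 2) with h | h
    · exact hall j (by omega)
    · have hj2 : j = M + 2 := by omega
      subst hj2
      rw [hall (M + 1) le_rfl, add_zero, sub_zero] at hv
      have h3 : ((p : ℂ) + 2) * x (M + 2) ^ (p + 1) = 0 := by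
        rw [← hv]
        ring
      exact pow_eq_zero_iff (by omega) |>.1 ((mul_eq_zero.1 h3).resolve_left hcast)
  · exfalso
    obtain ⟨i1, i2, -⟩ := smooth_norms hp M x w hw h0 hj hx M le_rfl
    set u := x (M + 1) with hu'
    set v := x (M + 2) with hv'
    have hupos : 0 < ‖u‖ := lt_of_lt_of_le i1 i2
    have hu0 : u ≠ 0 := norm_pos_iff.1 hupos
    have hM0 : x M ≠ 0 := norm_pos_iff.1 i1
    have hp1 : ((p : ℂ) + 1) ≠ 0 := by exact_mod_cast Nat.succ_ne_zero p
    have hv2 : (v + u) ^ p * ((v + u) + (p + 1) * (v - u)) = 0 := by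
      rw [← hv]
      ring
    rcases mul_eq_zero.1 hv2 with h | h
    · have h1 : v + u = 0 := pow_eq_zero_iff (by omega) |>.1 h
      rw [h1, zero_pow (by omega), zero_pow (by omega), mul_zero, add_zero, sub_zero] at hu
      exact (mul_ne_zero (mul_ne_zero hp1 hM0) (pow_ne_zero _ hu0)) hu
    · have h1 : (v + u) * (p + 2) = 2 * (p + 1) * u := by linear_combination h
      have h2 : (p + 1) * x M * u ^ p = 2 * (v + u) ^ (p + 1) := by
        have h3 : (p + 1) * (v - u) = -(v + u) := by linear_combination h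
        rw [h3] at hu
        linear_combination hu
      -- norms
      have hcast1 : ‖(p : ℂ) + 1‖ = (p : ℝ) + 1 := by
        have : ((p : ℂ) + 1) = ((p + 1 : ℕ) : ℂ) := by push_cast; ring
        rw [this, Complex.norm_natCast]
        push_cast
        ring
      have hcast2 : ‖(p : ℂ) + 2‖ = (p : ℝ) + 2 := by
        have : ((p : ℂ) + 2) = ((p + 2 : ℕ) : ℂ) := by push_cast; ring
        rw [this, Complex.norm_natCast]
        push_cast
        ring
      have n1 : ‖v + u‖ = 2 * (p + 1) / (p + 2) * ‖u‖ := by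
        have h4 := congrArg norm h1
        rw [norm_mul, norm_mul, norm_mul, hcast1, hcast2, Complex.norm_ofNat] at h4
        have h5 : (0 : ℝ) < p + 2 := by positivity
        field_simp
        linarith
      have n2 : ((p : ℝ) + 1) * ‖x M‖ * ‖u‖ ^ p = 2 * ‖v + u‖ ^ (p + 1) := by
        have h4 := congrArg norm h2
        rw [norm_mul, norm_mul, norm_mul, norm_pow, norm_pow, hcast1, Complex.norm_ofNat] at h4
        exact h4
      rw [n1, mul_pow, pow_succ ‖u‖ p] at n2
      have hup : 0 < ‖u‖ ^ p := by positivity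
      have n3 : ((p : ℝ) + 1) * ‖x M‖ = 2 * (2 * (p + 1) / (p + 2)) ^ (p + 1) * ‖u‖ := by
        apply mul_right_cancel₀ hup.ne'
        linear_combination n2
      have n4 := smooth_num (n := p + 1) (by omega)
      push_cast at n4
      have h5 : ((p : ℝ) + 1 + 1) = p + 2 := by ring
      rw [h5] at n4
      have n5 : ((p : ℝ) + 1) * ‖x M‖ ≤ (p + 1) * ‖u‖ :=
        mul_le_mul_of_nonneg_left i2 (by positivity)
      have n6 : ((p : ℝ) + 1) * ‖u‖ < 2 * (2 * (p + 1) / (p + 2)) ^ (p + 1) * ‖u‖ :=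
        mul_lt_mul_of_pos_right n4 hupos
      linarith

end Kp

end Pool.Agent.RCH
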