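import Pool.Agent.RCH.KpPl
import Pool.Agent.RCH.KpSmCore

/-!
# An explicit smooth member of the family, for every dimension and every degree
-/

set_option autoImplicit false

open MvPolynomial

namespace Pool.Agent.RCH

namespace Kp

lemma smooth_sum_pairs {A : Type} [AddCommMonoid A] (f : ℕ → A) (k : ℕ) :
    ∑ i ∈ Finset.range k, (f (2 * i) + f (2 * i + 1)) = ∑ j ∈ Finset.range (2 * k), f j := by
  induction k with
  | zero => simp
  | succ k ih =>
    rw [Finset.sum_range_succ, ih, show 2 * (k + 1) = 2 * k + 1 + 1 from by ring,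
      Finset.sum_range_succ, Finset.sum_range_succ, add_assoc]

/-- the member, written as a chain -/
lemma smooth_planes (r n : ℕ) : planesPoly r n ![1, -1] ![1, n]
      (fun i => MvPolynomial.X (cx r (2 * i + 2)) ^ n)
      (MvPolynomial.X (cx r 0) ^ n + MvPolynomial.X (cx r (2 * r + 4)) ^ n) =
    ∑ j ∈ Finset.range (2 * (r + 1)),
        MvPolynomial.X (cx r j) * MvPolynomial.X (cx r (j + 1)) ^ n +
      (MvPolynomial.X (cx r (2 * r + 3)) - MvPolynomial.X (cx r (2 * r + 2))) *
        (MvPolynomial.X (cx r (2 * r + 3)) + MvPolynomial.X (cx r (2 * r + 2))) ^ n +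
      MvPolynomial.X (cx r (2 * r + 4)) *
        (MvPolynomial.X (cx r 0) ^ n + MvPolynomial.X (cx r (2 * r + 4)) ^ n) := by
  rw [planesPoly, ← smooth_sum_pairs, Fin.prod_univ_two]
  simp

/-- the derivative of the member -/
lemma smooth_pd (r p : ℕ) (v : Fin (2 * r + 5) → ℂ) (l : Fin (2 * r + 5)) :
    eval v (pderiv l (planesPoly r (p + 1) ![1, -1] ![1, p + 1]
      (fun i => MvPolynomial.X (cx r (2 * i + 2)) ^ (p + 1))
      (MvPolynomial.X (cx r 0) ^ (p + 1) + MvPolynomial.X (cx r (2 * r + 4)) ^ (p + 1)))) =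
    ∑ j ∈ Finset.range (2 * (r + 1)),
        ((if cx r j = l then v (cx r (j + 1)) ^ (p + 1) else 0) +
          (if cx r (j + 1) = l then (p + 1) * v (cx r j) * v (cx r (j + 1)) ^ p else 0)) +
      ((if cx r (2 * r + 3) = l then (v (cx r (2 * r + 3)) + v (cx r (2 * r + 2))) ^ (p + 1) +
          (p + 1) * (v (cx r (2 * r + 3)) - v (cx r (2 * r + 2))) *
            (v (cx r (2 * r + 3)) + v (cx r (2 * r + 2))) ^ p else 0) +
        (if cx r (2 * r + 2) = l then -(v (cx r (2 * r + 3)) + v (cx r (2 * r + 2))) ^ (p + 1) +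
          (p + 1) * (v (cx r (2 * r + 3)) - v (cx r (2 * r + 2))) *
            (v (cx r (2 * r + 3)) + v (cx r (2 * r + 2))) ^ p else 0)) +
      ((if cx r (2 * r + 4) = l then v (cx r 0) ^ (p + 1) +
          (p + 2) * v (cx r (2 * r + 4)) ^ (p + 1) else 0) +
        (if cx r 0 = l then (p + 1) * v (cx r (2 * r + 4)) * v (cx r 0) ^ p else 0)) := by
  have hd : ∀ j : Fin (2 * r + 5), pderiv l (MvPolynomial.X j : MvPolynomial (Fin (2 * r + 5)) ℂ) =
      if j = l then 1 else 0 := by
    intro j
    rw [pderiv_X, Pi.single_apply]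
  rw [smooth_planes]
  simp only [map_add, map_sum, map_sub, Derivation.leibniz, Derivation.leibniz_pow, hd,
    smul_eq_mul, map_mul, eval_X, map_pow, apply_ite (eval v), map_one, map_zero, nsmul_eq_mul,
    map_natCast, Nat.add_sub_cancel]
  congr 1
  · congr 1
    · refine Finset.sum_congr rfl fun j _ => ?_
      split_ifs <;> push_cast <;> ring
    · split_ifs <;> push_cast <;> ring
  · split_ifs <;> push_cast <;> ring

/-- The member is smooth. -/
theorem planesPoly_smooth (r n : ℕ) (hn : 2 ≤ n) (v : Fin (2 * r + 5) → ℂ)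
    (h : ∀ j, eval v (pderiv j (planesPoly r n ![1, -1] ![1, n]
      (fun i => MvPolynomial.X (cx r (2 * i + 2)) ^ n)
      (MvPolynomial.X (cx r 0) ^ n + MvPolynomial.X (cx r (2 * r + 4)) ^ n))) = 0) : v = 0 := by
  obtain ⟨p, rfl⟩ : ∃ p, n = p + 1 := ⟨n - 1, by omega⟩
  have h2 := fun j => (smooth_pd r p v j).symm.trans (h j)
  have hne : ∀ {j l : ℕ}, j < 2 * r + 5 → l < 2 * r + 5 → (cx r j = cx r l ↔ j = l) := by
    intro j l hj hl
    rw [eq_cx r hl, cx_val r hj]
  -- the two sums
  have hs1 : ∀ l, l < 2 * r + 5 → ∑ j ∈ Finset.range (2 * (r + 1)),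
      (if cx r j = cx r l then v (cx r (j + 1)) ^ (p + 1) else 0) =
      if l < 2 * r + 2 then v (cx r (l + 1)) ^ (p + 1) else 0 := by
    intro l hl
    rw [Finset.sum_congr rfl (g := fun j => if l = j then v (cx r (j + 1)) ^ (p + 1) else 0)
      (fun j hj => by
        rw [Finset.mem_range] at hj
        exact if_congr ((hne (by omega) hl).trans eq_comm) rfl rfl), Finset.sum_ite_eq]
    exact if_congr (by rw [Finset.mem_range]; omega) rfl rfl
  have hs2 : ∀ l, l < 2 * r + 5 → ∑ j ∈ Finset.range (2 * (r + 1)),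
      (if cx r (j + 1) = cx r l then (p + 1) * v (cx r j) * v (cx r (j + 1)) ^ p else 0) =
      if 1 ≤ l ∧ l ≤ 2 * r + 2 then (p + 1) * v (cx r (l - 1)) * v (cx r l) ^ p else 0 := by
    intro l hl
    by_cases h1 : 1 ≤ l
    · obtain ⟨l, rfl⟩ : ∃ k, l = k + 1 := ⟨l - 1, by omega⟩
      rw [Finset.sum_congr rfl (g := fun j => if l = j then
        (p + 1) * v (cx r j) * v (cx r (j + 1)) ^ p else 0)
        (fun j hj => by
          rw [Finset.mem_range] at hj
          exact if_congr ((hne (by omega) hl).trans (by omega)) rfl rfl), Finset.sum_ite_eq,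
        Nat.add_sub_cancel]
      exact if_congr (by rw [Finset.mem_range]; omega) rfl rfl
    · rw [if_neg (by omega)]
      refine Finset.sum_eq_zero fun j hj => ?_
      rw [Finset.mem_range] at hj
      exact if_neg (by rw [hne (by omega) hl]; omega)
  simp only [Finset.sum_add_distrib] at h2
  have h3 : ∀ l, l < 2 * r + 5 →
      ((if l < 2 * r + 2 then v (cx r (l + 1)) ^ (p + 1) else 0) +
        (if 1 ≤ l ∧ l ≤ 2 * r + 2 then (p + 1) * v (cx r (l - 1)) * v (cx r l) ^ p else 0)) +
      ((if 2 * r + 3 = l then (v (cx r (2 * r + 3)) + v (cx r (2 * r + 2))) ^ (p + 1) +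
          (p + 1) * (v (cx r (2 * r + 3)) - v (cx r (2 * r + 2))) *
            (v (cx r (2 * r + 3)) + v (cx r (2 * r + 2))) ^ p else 0) +
        (if 2 * r + 2 = l then -(v (cx r (2 * r + 3)) + v (cx r (2 * r + 2))) ^ (p + 1) +
          (p + 1) * (v (cx r (2 * r + 3)) - v (cx r (2 * r + 2))) *
            (v (cx r (2 * r + 3)) + v (cx r (2 * r + 2))) ^ p else 0)) +
      ((if 2 * r + 4 = l then v (cx r 0) ^ (p + 1) +
          (p + 2) * v (cx r (2 * r + 4)) ^ (p + 1) else 0) +
        (if 0 = l then (p + 1) * v (cx r (2 * r + 4)) * v (cx r 0) ^ p else 0)) = 0 := by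
    intro l hl
    have h4 := h2 (cx r l)
    rw [hs1 l hl, hs2 l hl] at h4
    simp only [hne (show 2 * r + 3 < 2 * r + 5 by omega) hl,
      hne (show 2 * r + 2 < 2 * r + 5 by omega) hl, hne (show 2 * r + 4 < 2 * r + 5 by omega) hl,
      hne (show 0 < 2 * r + 5 by omega) hl] at h4
    exact h4
  obtain ⟨hx, hw⟩ := smooth_core (p := p) (by omega) (2 * r + 1) (fun j => v (cx r j))
    (v (cx r (2 * r + 4)))
    (by
      have h4 := h3 (2 * r + 4) (by omega)
      rw [if_neg (by omega), if_neg (by omega), if_neg (by omega), if_neg (by omega), if_pos rfl,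
        if_neg (by omega)] at h4
      linear_combination h4)
    (by
      have h4 := h3 0 (by omega)
      rw [if_pos (by omega), if_neg (by omega), if_neg (by omega), if_neg (by omega),
        if_neg (by omega), if_pos rfl] at h4
      linear_combination h4)
    (fun j hj => by
      have h4 := h3 (j + 1) (by omega)
      rw [if_pos (by omega), if_pos (by omega), if_neg (by omega), if_neg (by omega),
        if_neg (by omega), if_neg (by omega), Nat.add_sub_cancel] at h4
      linear_combination h4)
    (by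
      have h4 := h3 (2 * r + 2) (by omega)
      rw [if_neg (by omega), if_pos (by omega), if_neg (by omega), if_pos rfl,
        if_neg (by omega), if_neg (by omega), show 2 * r + 2 - 1 = 2 * r + 1 from by omega] at h4
      show ((p : ℂ) + 1) * v (cx r (2 * r + 1)) * v (cx r (2 * r + 2)) ^ p -
        (v (cx r (2 * r + 3)) + v (cx r (2 * r + 2))) ^ (p + 1) +
        (p + 1) * (v (cx r (2 * r + 3)) - v (cx r (2 * r + 2))) *
          (v (cx r (2 * r + 3)) + v (cx r (2 * r + 2))) ^ p = 0
      linear_combination h4)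
    (by
      have h4 := h3 (2 * r + 3) (by omega)
      rw [if_neg (by omega), if_neg (by omega), if_pos rfl, if_neg (by omega),
        if_neg (by omega), if_neg (by omega)] at h4
      show (v (cx r (2 * r + 3)) + v (cx r (2 * r + 2))) ^ (p + 1) +
        (p + 1) * (v (cx r (2 * r + 3)) - v (cx r (2 * r + 2))) *
          (v (cx r (2 * r + 3)) + v (cx r (2 * r + 2))) ^ p = 0
      linear_combination h4)
  funext j
  rw [← cx_of r j, Pi.zero_apply]
  have hj := j.2
  by_cases h5 : (j : ℕ) ≤ 2 * r + 3
  · exact hx j (by omega)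
  · rw [show (j : ℕ) = 2 * r + 4 from by omega]
    exact hw

/-- The smooth member as an element of the family. -/
noncomputable def smoothData (r m : ℕ) : PlData where
  r := r
  m := m
  t := 2
  b := ![1, -1]
  a := ![1, m + 2]
  hb := by
    intro i j h
    fin_cases i <;> fin_cases j <;> simp_all [Matrix.cons_val_zero, Matrix.cons_val_one]
    · norm_num at h
    · norm_num at h
  ha := by
    intro k
    fin_cases k <;> simp
  hsum := by
    simp [Fin.sum_univ_two]
    ring
  g := fun i => MvPolynomial.X (cx r (2 * i + 2)) ^ (m + 2)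
  hg := fun i _ => by
    have h := (isHomogeneous_X ℂ (cx r (2 * i + 2))).pow (m + 2)
    rwa [one_mul] at h
  hgv := fun i hi j hj => by
    have h := vars_pow _ _ hj
    rw [vars_X, Finset.mem_singleton] at h
    rw [h, cx_val r (by omega)]
    omega
  hge := fun i _ => by
    rw [map_pow, eval_X, Pi.single_eq_same, one_pow]
    exact one_ne_zero
  hgb := fun k => by
    rw [map_pow, eval_X, Pi.add_apply, Pi.single_eq_same,
      Pi.single_eq_of_ne (cx_ne r (by omega) (by omega) (by omega)), add_zero, one_pow]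
    exact one_ne_zero
  P := MvPolynomial.X (cx r 0) ^ (m + 2) + MvPolynomial.X (cx r (2 * r + 4)) ^ (m + 2)
  hP := by
    have h := (isHomogeneous_X ℂ (cx r 0)).pow (m + 2)
    have h' := (isHomogeneous_X ℂ (cx r (2 * r + 4))).pow (m + 2)
    rw [one_mul] at h h'
    exact h.add h'
  hPc := by
    rw [map_add, map_pow, map_pow, eval_X, eval_X, Pi.single_eq_same,
      Pi.single_eq_of_ne (cx_ne r (by omega) (by omega) (by omega)), one_pow,
      zero_pow (by omega), add_zero]
    exact one_ne_zero

theorem smoothData_smooth (r m : ℕ) (v : (smoothData r m).J → ℂ)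
    (h : ∀ j, eval v (pderiv j (smoothData r m).F) = 0) : v = 0 :=
  planesPoly_smooth r (m + 2) (by omega) v h

end Kp

end Pool.Agent.RCH
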