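import Pool.Agent.RCH.KcFin
import Pool.Agent.RCH.GdFin
import Pool.Agent.RCH.GdGen
import Pool.Agent.RCH.GdEx2Sym
import Pool.Agent.RCH.KpSmooth

/-!
# Hypersurfaces with linear spaces and all cycles supported on a hyperplane section: the statements
-/

set_option autoImplicit false

open MvPolynomial

namespace Pool.Agent.RCH

namespace Kc

open Kp Gd

section defs

variable {ι : Type} (X : WVar ι) {t m : ℕ} (l : Fin t → Pt X 1)

/-- The cycle `D` on `X` is, modulo rational equivalence, an integer combination `∑ γ_k l_k` with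
`∑ γ_k = 0`. -/
def DegreeZero (D : Cycles X 1) : Prop :=
  ∃ γ : Fin t → ℤ, ∑ k, γ k = 0 ∧ D - ∑ k, Finsupp.single (l k) (γ k) ∈ RatZero X 1

/-- Every cycle supported on the hyperplane section `x_v = 0` of `X`, of any dimension, is the sum of an
integer combination of the `B_j` and of a cycle which is, modulo rational equivalence, a combination
of degree zero of the `l_k`. Moreover, for a class map `cl` every cycle `D` supported on the hyperplane
section with `cl D = 0` is, modulo rational equivalence, a combination of degree zero of the `l_k`. -/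
def SectionGenerated (v : ι) (B : Fin m → Pt X 1) : Prop :=
  (∀ D : Cycles X 1, SupportedOn v D → ∃ c : Fin m → ℤ,
    DegreeZero X l (D - ∑ j, Finsupp.single (B j) (c j))) ∧
  ∀ (A : Type) [AddCommGroup A] (cl : Cycles X 1 →+ A), IsClassMap X l B cl →
    ∀ D : Cycles X 1, SupportedOn v D → cl D = 0 → DegreeZero X l D

/-- For `N` cycles `D_1, …, D_N` on `X` with the property `T` a nonzero multiple of `D_1 × ⋯ × D_N` is
rationally equivalent to zero on `X^N`, and every cycle with the property `T` is smash-nilpotent. -/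
def ProductsTorsion (T : Cycles X 1 → Prop) (N : ℕ) : Prop :=
  (∀ D : Fin N → Cycles X 1, (∀ i, T (D i)) → ∃ M : ℕ, 1 ≤ M ∧ M • boxC X D ∈ RatZero X N) ∧
  ∀ D : Cycles X 1, T D → SmashNilpotent X D

/-- The products of `N` cycles are torsion and the cycles are smash-nilpotent, for the cycles on `X`
which are, modulo rational equivalence, combinations of degree zero of the `l_k`, and, for every class
map `cl`, for the cycles `D` supported on the hyperplane section `x_v = 0` of `X` with `cl D = 0`. -/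
def SectionNilpotent (v : ι) (B : Fin m → Pt X 1) (N : ℕ) : Prop :=
  ProductsTorsion X (DegreeZero X l) N ∧
  ∀ (A : Type) [AddCommGroup A] (cl : Cycles X 1 →+ A), IsClassMap X l B cl →
    ProductsTorsion X (fun D => SupportedOn v D ∧ cl D = 0) N

/-- If a monomial symmetry of `X` (for example the identity) maps `l_k` to `l_(π(k))` for all `k`, for a
permutation `π` with `a_(π(k)) = a_k`, then `e (d ∑ a_k l_(π(k)) × l_k - L × L)`, `L = ∑ a_k l_k`, is
rationally equivalent to zero on `X × X`, and if `π` is the transposition of `i` and `j`, then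
`l_i - l_j` is smash-nilpotent. -/
def SymRelation [Finite ι] (a : Fin t → ℕ) (e d : ℕ) : Prop :=
  ∀ (γ : MSym X) (π : Equiv.Perm (Fin t)), (∀ k, tr1 γ (l k) = l (π k)) →
    (∀ k, a (π k) = a k) →
    e • (d • ∑ k, a k • box X ![l (π k), l k] - ∑ j, ∑ k, (a j * a k) • box X ![l j, l k]) ∈
      RatZero X 2 ∧
    ∀ i j, π = Equiv.swap i j → SmashNilpotent X (Finsupp.single (l i) 1 - Finsupp.single (l j) 1)

/-- The number `t` is odd, all `a_k` are equal and two monomial symmetries of `X` map `l_k` to `l_(k+1)`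
and to `l_(-k)` for all `k` (indices modulo `t`). -/
def Dihedral (a : Fin t → ℕ) : Prop :=
  Odd t ∧ (∀ j k, a j = a k) ∧ ∃ γ δ : MSym X,
    (∀ j k : Fin t, (j : ℕ) ≡ k + 1 [MOD t] → tr1 γ (l k) = l j) ∧
    ∀ j k : Fin t, (j : ℕ) + k ≡ 0 [MOD t] → tr1 δ (l k) = l j

end defs

variable (S : PlData)

theorem sectionGenerated (k₀ : Fin S.t) (B : Fin (2 * S.r + 3) → Pt (hyp S.F) 1)
    (hB : ∀ j, (B j).I = stdIdeal S.r S.F (S.b k₀) j) :
    SectionGenerated (hyp S.F) S.pl (S.x (2 * S.r + 4)) B := by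
  refine ⟨fun D hD => ?_, fun A _ cl hcl D hD h0 => mod_class S k₀ B hB cl hcl D hD h0⟩
  obtain ⟨c, γ, hγ, hmem⟩ := generated S k₀ B hB D hD
  refine ⟨c, γ, hγ, ?_⟩
  rw [_root_.sub_sub]
  exact hmem

theorem sectionNilpotent (k₀ : Fin S.t) (B : Fin (2 * S.r + 3) → Pt (hyp S.F) 1)
    (hB : ∀ j, (B j).I = stdIdeal S.r S.F (S.b k₀) j) {N : ℕ} (hN1 : 1 ≤ N)
    (hN : ∀ c : Fin N → Fin S.t → ℤ, (∀ i, ∑ k, c i k = 0) →
      boxC (hyp S.F) (fun i => ∑ k, Finsupp.single (S.pl k) (c i k)) ∈ torZero (hyp S.F) N) :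
    SectionNilpotent (hyp S.F) S.pl (S.x (2 * S.r + 4)) B N := by
  have hcomb : ∀ D : Cycles (hyp S.F) 1, DegreeZero (hyp S.F) S.pl D →
      SmashNilpotent (hyp S.F) D := by
    rintro D ⟨γ, hγ, hmem⟩
    refine (smashNilpotent_congr (torZero_of_ratZero hmem)).2 ⟨N, hN1, ?_⟩
    rw [extPow_eq_boxC]
    exact hN (fun _ => γ) (fun _ => hγ)
  have hprod : ∀ D : Fin N → Cycles (hyp S.F) 1, (∀ i, DegreeZero (hyp S.F) S.pl (D i)) →
      ∃ M : ℕ, 1 ≤ M ∧ M • boxC (hyp S.F) D ∈ RatZero (hyp S.F) N := by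
    intro D hD
    choose γ hγ hmem using hD
    exact boxC_congr D _ (fun i => torZero_of_ratZero (hmem i)) (hN γ hγ)
  exact ⟨⟨hprod, hcomb⟩, fun A _ cl hcl =>
    ⟨fun D hD => hprod D fun i => mod_class S k₀ B hB cl hcl (D i) (hD i).1 (hD i).2,
      fun D hD => hcomb D (mod_class S k₀ B hB cl hcl D hD.1 hD.2)⟩⟩

theorem symRelation : SymRelation (hyp S.F) S.pl S.a ((S.m + 2) ^ (S.r + 1)) (S.m + 3) := by
  intro γ π hπ haπ
  refine ⟨?_, ?_⟩
  · have h1 := rel_act S γ π hπ haπ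
    have h2 := add_mem h1 S.rel_spaces
    convert h2 using 1
    rw [Finset.sum_congr rfl fun k _ => smul_sub (S.a k) (box (hyp S.F) ![S.pl (π k), S.pl k])
      (box (hyp S.F) ![S.pl k, S.pl k]), Finset.sum_sub_distrib, mul_smul, ← smul_add]
    congr 1
    rw [smul_sub]
    abel
  · rintro i j rfl
    exact swap_nil S γ hπ haπ

theorem dihedral_nil (k₀ : Fin S.t) (B : Fin (2 * S.r + 3) → Pt (hyp S.F) 1)
    (hB : ∀ j, (B j).I = stdIdeal S.r S.F (S.b k₀) j) (h : Dihedral (hyp S.F) S.pl S.a) :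
    SectionNilpotent (hyp S.F) S.pl (S.x (2 * S.r + 4)) B ((S.t + 1) / 2) := by
  obtain ⟨ht, ha, γ, δ, hγ, hδ⟩ := h
  refine sectionNilpotent S k₀ B hB ?_ (act_nil S ht ha γ δ hγ hδ).1
  obtain ⟨p, hp⟩ := ht
  omega

/-- symmetries of the equation -/
theorem dihedral_of (ht : Odd S.t) (a : ℕ) (ha : ∀ k, S.a k = a) {ζ : ℂ}
    (hζ : IsPrimitiveRoot ζ S.t) (hb : ∀ k : Fin S.t, S.b k = ζ ^ (k : ℕ)) {α β : S.J → ℂ}
    (hα : IsSym S.F (Equiv.refl _) α)
    (hα1 : α (S.x (2 * S.r + 3)) = ζ * α (S.x (2 * S.r + 2)))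
    (hβ : IsSym S.F (Equiv.swap (S.x (2 * S.r + 2)) (S.x (2 * S.r + 3))) β)
    (hβ1 : β (S.x (2 * S.r + 3)) = β (S.x (2 * S.r + 2))) : Dihedral (hyp S.F) S.pl S.a := by
  have hpow : ∀ {i j : ℕ}, i ≡ j [MOD S.t] → ζ ^ i = ζ ^ j := by
    intro i j h
    rw [← Nat.mod_add_div i S.t, ← Nat.mod_add_div j S.t, pow_add, pow_add, pow_mul, pow_mul,
      hζ.pow_eq_one, one_pow, one_pow, h]
  refine ⟨ht, fun j k => (ha j).trans (ha k).symm, msym (F_ne_zero S) hα,
    msym (F_ne_zero S) hβ, fun j k h => ?_, fun j k h => ?_⟩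
  · refine tr_rot S hα hα1 ?_
    rw [hb, hb, ← pow_succ', hpow h]
  · refine tr_swap S hβ hβ1 ?_
    rw [hb, hb, ← pow_add, hpow h, pow_zero]

end Kc

end Pool.Agent.RCH
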