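import Pool.Agent.RCH.KcDefs

/-!
# Points of a cell and primes of the polynomial ring
-/

set_option autoImplicit false

open MvPolynomial

namespace Pool.Agent.RCH

namespace Kc

namespace Cell

variable {ι σ : Type} {X : WVar ι} (D : Cell X σ)

lemma homog_s : IsWeightedHomogeneous (X.mdeg 1) (MvPolynomial.X (0, D.s) : Coord ι 1)
    (fun _ => 1) := by
  have h := isWeightedHomogeneous_X ℂ (X.mdeg 1) ((0 : Fin 1), D.s)
  have h1 : X.mdeg 1 ((0 : Fin 1), D.s) = fun _ => 1 := by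
    funext i
    have : i = 0 := Subsingleton.elim _ _
    subst this
    simp [WVar.mdeg, D.hw]
  rwa [h1] at h

include D in
lemma homog_X (j : ι) : IsWeightedHomogeneous (X.mdeg 1) (MvPolynomial.X (0, j) : Coord ι 1)
    (fun _ => 1) := by
  have h := isWeightedHomogeneous_X ℂ (X.mdeg 1) ((0 : Fin 1), j)
  have h1 : X.mdeg 1 ((0 : Fin 1), j) = fun _ => 1 := by
    funext i
    have : i = 0 := Subsingleton.elim _ _
    subst this
    simp [WVar.mdeg, D.hw]
  rwa [h1] at h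

lemma homog_s_pow (n : ℕ) : IsWeightedHomogeneous (X.mdeg 1)
    ((MvPolynomial.X (0, D.s)) ^ n : Coord ι 1) (fun _ => n) := by
  have h := D.homog_s.pow n
  have h1 : (n • (fun _ => 1 : Fin 1 → ℕ)) = fun _ => n := by
    funext i
    simp
  rwa [h1] at h

/-- homogenization, with its values -/
theorem exists_lift' (a : MvPolynomial σ ℂ) : ∃ n₀ : ℕ, ∀ n, n₀ ≤ n → ∃ z : Coord ι 1,
    IsWeightedHomogeneous (X.mdeg 1) z (fun _ => n) ∧
      ∀ (L : Type) [CommRing L] (φ : Coord ι 1 →+* L) (y : σ → L),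
        (∀ b, φ (MvPolynomial.X (0, D.u b)) = φ (MvPolynomial.X (0, D.s)) * y b) →
        φ z = φ (MvPolynomial.X (0, D.s)) ^ n * eval₂Hom (φ.comp C) y a := by
  induction a using MvPolynomial.induction_on with
  | C c =>
    refine ⟨0, fun n _ => ⟨C c * MvPolynomial.X (0, D.s) ^ n, ?_, ?_⟩⟩
    · have h := (isWeightedHomogeneous_C (X.mdeg 1) c).mul (D.homog_s_pow n)
      rwa [zero_add] at h
    · intro L _ φ y _
      rw [map_mul, map_pow, eval₂Hom_C, mul_comm]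
      rfl
  | add p q hp hq =>
    obtain ⟨n₁, h₁⟩ := hp
    obtain ⟨n₂, h₂⟩ := hq
    refine ⟨max n₁ n₂, fun n hn => ?_⟩
    obtain ⟨z₁, hz₁, hv₁⟩ := h₁ n ((le_max_left _ _).trans hn)
    obtain ⟨z₂, hz₂, hv₂⟩ := h₂ n ((le_max_right _ _).trans hn)
    refine ⟨z₁ + z₂, hz₁.add hz₂, ?_⟩
    intro L _ φ y hy
    rw [map_add, hv₁ L φ y hy, hv₂ L φ y hy, map_add, mul_add]
  | mul_X p b hp =>
    obtain ⟨n₁, h₁⟩ := hp
    refine ⟨n₁ + 1, fun n hn => ?_⟩
    obtain ⟨m, rfl⟩ : ∃ m, n = m + 1 := ⟨n - 1, by omega⟩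
    obtain ⟨z, hz, hv⟩ := h₁ m (by omega)
    refine ⟨z * MvPolynomial.X (0, D.u b), ?_, ?_⟩
    · have h := hz.mul (D.homog_X (D.u b))
      have h1 : ((fun _ => m : Fin 1 → ℕ) + fun _ => 1) = fun _ => m + 1 := by
        funext i
        rfl
      rwa [h1] at h
    · intro L _ φ y hy
      rw [map_mul, hv L φ y hy, hy b, map_mul, eval₂Hom_X', pow_succ]
      ring

/-- homogenization -/
theorem exists_lift (a : MvPolynomial σ ℂ) : ∃ n₀ : ℕ, ∀ n, n₀ ≤ n → ∃ z : Coord ι 1,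
    IsWeightedHomogeneous (X.mdeg 1) z (fun _ => n) ∧ D.ev z = a := by
  obtain ⟨n₀, h⟩ := D.exists_lift' a
  refine ⟨n₀, fun n hn => ?_⟩
  obtain ⟨z, hz, hv⟩ := h n hn
  refine ⟨z, hz, ?_⟩
  have h1 := hv (MvPolynomial σ ℂ) D.ev.toRingHom MvPolynomial.X (fun b => by
    show D.ev _ = D.ev _ * _
    rw [ev_X, ev_X, D.hs, one_mul, D.hu])
  have h2 : D.ev.toRingHom.comp C = (C : ℂ →+* MvPolynomial σ ℂ) := by
    ext c
    exact congrArg _ (D.ev.commutes c)
  have h3 : D.ev z = D.ev (MvPolynomial.X (0, D.s)) ^ n * eval₂Hom (D.ev.toRingHom.comp C)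
      MvPolynomial.X a := h1
  rw [h3, h2, ev_X, D.hs, one_pow, one_mul]
  exact eval₂_eta a

lemma homog_const {z : Coord ι 1} {e : Fin 1 → ℕ} (hz : IsWeightedHomogeneous (X.mdeg 1) z e) :
    IsWeightedHomogeneous (X.mdeg 1) z (fun _ => e 0) := by
  have h : e = fun _ => e 0 := by
    funext i
    rw [Subsingleton.elim i 0]
  rwa [← h]

/-- inclusion of the ideals of points, on homogeneous elements -/
lemma le_of_homog (P Q : Pt X 1) (h : ∀ (n : ℕ) (z : Coord ι 1),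
    IsWeightedHomogeneous (X.mdeg 1) z (fun _ => n) → z ∈ P.I → z ∈ Q.I) : P.I ≤ Q.I := by
  intro z hz
  rw [← sum_weightedHomogeneousComponent (X.mdeg 1) z]
  refine finsum_induction (· ∈ Q.I) (zero_mem _) (fun _ _ => add_mem) fun e => ?_
  exact h _ _ (homog_const (weightedHomogeneousComponent_isWeightedHomogeneous _ _))
    (P.homog z hz e)

theorem V_le_pt (q : Ideal (MvPolynomial σ ℂ)) [q.IsPrime] : D.V.I ≤ (D.pt q).I := by
  refine le_of_homog _ _ fun n z hz h => ?_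
  rw [D.mem_pt q hz]
  rw [D.mem_V hz] at h
  rw [h]
  exact zero_mem _

theorem pt_bot : D.pt ⊥ = D.V := by
  apply Pt.ext'
  refine le_antisymm (le_of_homog _ _ fun n z hz h => ?_) (D.V_le_pt ⊥)
  rw [D.mem_pt ⊥ hz, Ideal.mem_bot] at h
  rwa [D.mem_V hz]

/-- inclusions -/
theorem pt_le_pt (q q' : Ideal (MvPolynomial σ ℂ)) [q.IsPrime] [q'.IsPrime] :
    (D.pt q).I ≤ (D.pt q').I ↔ q ≤ q' := by
  constructor
  · intro h a ha
    obtain ⟨n, hn⟩ := D.exists_lift a
    obtain ⟨z, hz, hv⟩ := hn n le_rfl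
    rw [← hv] at ha ⊢
    exact (D.mem_pt q' hz).1 (h ((D.mem_pt q hz).2 ha))
  · intro h
    refine le_of_homog _ _ fun n z hz h1 => ?_
    rw [D.mem_pt q hz] at h1
    rw [D.mem_pt q' hz]
    exact h h1

/-- every integral subscheme of `V` which meets the cell is given by a prime -/
theorem exists_prime (Q : Pt X 1) (hV : D.V.I ≤ Q.I)
    (hs : (MvPolynomial.X (0, D.s) : Coord ι 1) ∉ Q.I) :
    ∃ (q : Ideal (MvPolynomial σ ℂ)) (_ : q.IsPrime), D.pt q = Q := by
  have hQ := Q.prime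
  have : IsDomain (Coord ι 1 ⧸ Q.I) := Ideal.Quotient.isDomain Q.I
  let K := FractionRing (Coord ι 1 ⧸ Q.I)
  let π : Coord ι 1 →+* K := (algebraMap (Coord ι 1 ⧸ Q.I) K).comp (Ideal.Quotient.mk Q.I)
  have hπ : ∀ z, π z = 0 ↔ z ∈ Q.I := by
    intro z
    show (algebraMap (Coord ι 1 ⧸ Q.I) K) (Ideal.Quotient.mk Q.I z) = 0 ↔ _
    rw [map_eq_zero_iff _ (IsFractionRing.injective (Coord ι 1 ⧸ Q.I) K),
      Ideal.Quotient.eq_zero_iff_mem]
  have hπs : π (MvPolynomial.X (0, D.s)) ≠ 0 := fun h => hs ((hπ _).1 h)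
  let y : σ → K := fun b => π (MvPolynomial.X (0, D.u b)) / π (MvPolynomial.X (0, D.s))
  have hy : ∀ b, π (MvPolynomial.X (0, D.u b)) = π (MvPolynomial.X (0, D.s)) * y b := fun b => by
    rw [mul_div_cancel₀ _ hπs]
  let ψ : MvPolynomial σ ℂ →+* K := eval₂Hom (π.comp C) y
  have key : ∀ (n : ℕ) (z : Coord ι 1), IsWeightedHomogeneous (X.mdeg 1) z (fun _ => n) →
      (z ∈ Q.I ↔ D.ev z ∈ RingHom.ker ψ) := by
    intro n z hz
    obtain ⟨n₀, hn₀⟩ := D.exists_lift' (D.ev z)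
    obtain ⟨z', hz', hv⟩ := hn₀ (n₀ + n) (by omega)
    have hev : D.ev z' = D.ev z := by
      have h1 := hv (MvPolynomial σ ℂ) D.ev.toRingHom MvPolynomial.X (fun b => by
        show D.ev _ = D.ev _ * _
        rw [ev_X, ev_X, D.hs, one_mul, D.hu])
      have h2 : D.ev.toRingHom.comp C = (C : ℂ →+* MvPolynomial σ ℂ) := by
        ext c
        exact congrArg _ (D.ev.commutes c)
      have h3 : D.ev z' = D.ev (MvPolynomial.X (0, D.s)) ^ (n₀ + n) *
        eval₂Hom (D.ev.toRingHom.comp C) MvPolynomial.X (D.ev z) := h1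
      rw [h3, h2, ev_X, D.hs, one_pow, one_mul]
      exact eval₂_eta _
    have hw : IsWeightedHomogeneous (X.mdeg 1) (MvPolynomial.X (0, D.s) ^ n₀ * z - z')
        (fun _ => n₀ + n) := by
      have h := (D.homog_s_pow n₀).mul hz
      have h1 : ((fun _ => n₀ : Fin 1 → ℕ) + fun _ => n) = fun _ => n₀ + n := by
        funext i
        rfl
      rw [h1] at h
      exact h.sub hz'
    have hmem : MvPolynomial.X (0, D.s) ^ n₀ * z - z' ∈ Q.I := by
      apply hV
      rw [D.mem_V hw, map_sub, map_mul, map_pow, ev_X, D.hs, one_pow, one_mul, hev, sub_self]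
    have h1 := (hπ _).2 hmem
    rw [map_sub, map_mul, map_pow, hv K π y hy] at h1
    have h2 : π z = π (MvPolynomial.X (0, D.s)) ^ n * ψ (D.ev z) := by
      have h3 : π (MvPolynomial.X (0, D.s)) ^ n₀ * (π z - π (MvPolynomial.X (0, D.s)) ^ n *
          ψ (D.ev z)) = 0 := by
        rw [← h1, pow_add]
        show _ = _ - _ * ψ (D.ev z)
        ring
      rcases mul_eq_zero.1 h3 with h | h
      · exact absurd h (pow_ne_zero _ hπs)
      · exact sub_eq_zero.1 h
    rw [← hπ, h2, RingHom.mem_ker, mul_eq_zero]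
    constructor
    · rintro (h | h)
      · exact absurd h (pow_ne_zero _ hπs)
      · exact h
    · exact Or.inr
  have hprime : (RingHom.ker ψ).IsPrime := RingHom.ker_isPrime _
  refine ⟨RingHom.ker ψ, hprime, ?_⟩
  apply Pt.ext'
  refine le_antisymm (le_of_homog _ _ fun n z hz h => ?_) (le_of_homog _ _ fun n z hz h => ?_)
  · exact (key n z hz).2 ((D.mem_pt _ hz).1 h)
  · exact (D.mem_pt _ hz).2 ((key n z hz).1 h)

end Cell

end Kc

end Pool.Agent.RCH
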