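import Pool.Agent.RCH.KcPts

/-!
# The divisor of a function on the closure of a part of a cell
-/

set_option autoImplicit false

open MvPolynomial

namespace Pool.Agent.RCH

namespace Kc

namespace Cell

variable {ι σ : Type} {X : WVar ι} (D : Cell X σ)

/-- the elements with a multiple in an ideal by an element outside a prime -/
def satur {R : Type} [CommRing R] (Q J : Ideal R) [hQ : Q.IsPrime] : Ideal R where
  carrier := {z | ∃ s ∉ Q, s * z ∈ J}
  zero_mem' := ⟨1, fun h => hQ.ne_top ((Ideal.eq_top_iff_one Q).2 h), by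
    rw [mul_zero]
    exact J.zero_mem⟩
  add_mem' := by
    rintro x y ⟨s, hs, hx⟩ ⟨s', hs', hy⟩
    refine ⟨s * s', fun h => (hQ.mem_or_mem h).elim hs hs', ?_⟩
    have h1 : s * s' * (x + y) = s' * (s * x) + s * (s' * y) := by ring
    rw [h1]
    exact add_mem (J.mul_mem_left _ hx) (J.mul_mem_left _ hy)
  smul_mem' := by
    rintro c x ⟨s, hs, hx⟩
    refine ⟨s, hs, ?_⟩
    have h1 : s * (c • x) = c * (s * x) := by
      rw [smul_eq_mul]
      ring
    rw [h1]
    exact J.mul_mem_left _ hx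

lemma mem_satur {R : Type} [CommRing R] {Q J : Ideal R} [hQ : Q.IsPrime] {z : R} :
    z ∈ satur Q J ↔ ∃ s ∉ Q, s * z ∈ J := Iff.rfl

/-- an ideal contains an element if it contains its components -/
lemma mem_of_components {N : ℕ} (X : WVar ι) (J : Ideal (Coord ι N)) (z : Coord ι N)
    (h : ∀ e : Fin N → ℕ, weightedHomogeneousComponent (X.mdeg N) e z ∈ J) : z ∈ J := by
  have h1 : (∑ᶠ e, weightedHomogeneousComponent (X.mdeg N) e z) = z :=
    sum_weightedHomogeneousComponent _ z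
  rw [← h1]
  exact finsum_induction (p := fun x => x ∈ J) (zero_mem J) (fun _ _ => add_mem) h

/-- the local equation of the point of `q` on the point of `v` -/
theorem codimOne_pt [Finite ι] {v q : Ideal (MvPolynomial σ ℂ)} [v.IsPrime] [q.IsPrime]
    (hvq : v ≤ q) {G : MvPolynomial σ ℂ} (hG : G ∈ q) (hGv : G ∉ v)
    (h : ∀ z ∈ q, ∃ c ∉ q, c * z ∈ v ⊔ Ideal.span {G}) :
    ∀ z ∈ (D.pt q).I, ∀ {n : ℕ} (t : Coord ι 1), IsWeightedHomogeneous (X.mdeg 1) t (fun _ => n) →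
      D.ev t = G → ∃ s ∉ (D.pt q).I, s * z ∈ (D.pt v).I ⊔ Ideal.span {t} := by
  intro z hz n t ht htG
  have hp := (D.pt q).prime
  rw [← mem_satur (Q := (D.pt q).I) (J := (D.pt v).I ⊔ Ideal.span {t})]
  refine mem_of_components X _ z fun e => ?_
  have he : e = fun _ => e 0 := by
    funext i
    rw [Subsingleton.elim i 0]
  have hze := (D.pt q).homog z hz e
  have hzh := weightedHomogeneousComponent_isWeightedHomogeneous (w := X.mdeg 1) e z
  set y := weightedHomogeneousComponent (X.mdeg 1) e z with hy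
  obtain ⟨c, hc, hcy⟩ := h _ ((D.mem_pt q hzh).1 hze)
  rw [Submodule.mem_sup] at hcy
  obtain ⟨w, hw, b', hb', hwb⟩ := hcy
  obtain ⟨b, rfl⟩ := Ideal.mem_span_singleton'.1 hb'
  obtain ⟨n₁, h₁⟩ := D.exists_lift c
  obtain ⟨n₂, h₂⟩ := D.exists_lift b
  obtain ⟨c', hc', hcc⟩ := h₁ (n₁ + n₂ + n) (by omega)
  obtain ⟨b'', hb'', hbb⟩ := h₂ (n₁ + n₂ + e 0) (by omega)
  refine mem_satur.2 ⟨c', fun h' => hc ?_, ?_⟩
  · rw [← hcc]
    exact (D.mem_pt q hc').1 h'
  · have h3 : c' * y - b'' * t ∈ (D.pt v).I := by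
      have h4 : IsWeightedHomogeneous (X.mdeg 1) (c' * y - b'' * t)
          (fun _ => n₁ + n₂ + n + e 0) := by
        have h5 := hc'.mul hzh
        have h6 := hb''.mul ht
        have e5 : ((fun _ => n₁ + n₂ + n) + e : Fin 1 → ℕ) = fun _ => n₁ + n₂ + n + e 0 := by
          rw [he]
          rfl
        have e6 : ((fun _ => n₁ + n₂ + e 0) + (fun _ => n) : Fin 1 → ℕ) =
            fun _ => n₁ + n₂ + n + e 0 := by
          funext i
          show n₁ + n₂ + e 0 + n = n₁ + n₂ + n + e 0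
          omega
        rw [e5] at h5
        rw [e6] at h6
        exact h5.sub h6
      rw [D.mem_pt v h4, map_sub, map_mul, map_mul, hcc, hbb, htG, ← hwb, add_sub_cancel_right]
      exact hw
    have h7 : c' * y = (c' * y - b'' * t) + b'' * t := by ring
    rw [h7]
    exact add_mem (Ideal.mem_sup_left h3)
      (Ideal.mem_sup_right (Ideal.mem_span_singleton'.2 ⟨b'', rfl⟩))

/-- The point of `q` is, modulo rational equivalence, a combination of points at infinity and of other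
points of codimension one in the point of `v` at which `G` vanishes. -/
theorem step [Finite ι] {v q : Ideal (MvPolynomial σ ℂ)} [v.IsPrime] [q.IsPrime] (hvq : v ≤ q)
    {G : MvPolynomial σ ℂ} (hG : G ∈ q) (hGv : G ∉ v)
    (h : ∀ z ∈ q, ∃ c ∉ q, c * z ∈ v ⊔ Ideal.span {G}) :
    (Finsupp.single (D.pt q) 1 : Cycles X 1) ∈ RatZero X 1 ⊔ AddSubgroup.closure
      {c | ∃ Q' : Pt X 1, c = Finsupp.single Q' 1 ∧ D.V.I ≤ Q'.I ∧
        ((MvPolynomial.X (0, D.s) : Coord ι 1) ∈ Q'.I ∨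
          (Q' ≠ D.pt q ∧ CodimOne (D.pt v).I Q'.I ∧
            ∃ (q' : Ideal (MvPolynomial σ ℂ)) (_ : q'.IsPrime), D.pt q' = Q' ∧ G ∈ q'))} := by
  classical
  have hpv := (D.pt v).prime
  have hpq := (D.pt q).prime
  obtain ⟨n, hn⟩ := D.exists_lift G
  obtain ⟨t, ht, htG⟩ := hn n le_rfl
  have hs := isWeightedHomogeneous_X ℂ (X.mdeg 1) ((0 : Fin 1), D.s)
  have hsn : IsWeightedHomogeneous (X.mdeg 1) ((MvPolynomial.X (0, D.s) : Coord ι 1) ^ n)
      (fun _ => n) := by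
    have h1 := hs.pow n
    have h2 : n • X.mdeg 1 ((0 : Fin 1), D.s) = fun _ => n := by
      funext i
      rw [Subsingleton.elim i 0, Pi.smul_apply, WVar.mdeg]
      show n • (Pi.single (0 : Fin 1) (X.wt D.s) : Fin 1 → ℕ) 0 = n
      rw [Pi.single_eq_same, D.hw, smul_eq_mul, mul_one]
    rwa [h2] at h1
  have htv : t ∉ (D.pt v).I := fun h' => hGv (by
    rw [← htG]
    exact (D.mem_pt v ht).1 h')
  have hsv : (MvPolynomial.X (0, D.s) : Coord ι 1) ^ n ∉ (D.pt v).I := fun h' =>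
    D.s_notMem_pt v (hpv.mem_of_pow_mem n h')
  have htq : t ∈ (D.pt q).I := (D.mem_pt q ht).2 (by rwa [htG])
  have hsq : (MvPolynomial.X (0, D.s) : Coord ι 1) ^ n ∉ (D.pt q).I := fun h' =>
    D.s_notMem_pt q (hpq.mem_of_pow_mem n h')
  have hle : (D.pt v).I ≤ (D.pt q).I := (D.pt_le_pt v q).2 hvq
  have hloc : ∀ z ∈ (D.pt q).I, ∃ s, s ∉ (D.pt q).I ∧ s * z ∈ (D.pt v).I ⊔ Ideal.span {t} :=
    fun z hz => D.codimOne_pt hvq hG hGv h z hz t ht htG
  have hcod : CodimOne (D.pt v).I (D.pt q).I := codimOne_of hle htq htv hloc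
  obtain ⟨c, hc⟩ := exists_isDivisor X (D.pt v) htv hsv
  have hcR : c ∈ RatZero X 1 := AddSubgroup.subset_closure
    ⟨D.pt v, t, _, fun _ => n, ht, hsn, htv, hsv, hc⟩
  have hcQ : c (D.pt q) = 1 := by
    have h1 : ordAt (D.pt v).I (D.pt q).I t = (1 : ℕ) :=
      ordAt_eq hle htq htv hloc (s := 1) (s' := 1) (n := 1)
        (fun h' => hpq.ne_top ((Ideal.eq_top_iff_one _).2 h'))
        (fun h' => hpq.ne_top ((Ideal.eq_top_iff_one _).2 h')) (by
          rw [one_mul, one_mul, pow_one, sub_self]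
          exact zero_mem _)
    rw [hc, if_pos hcod, h1, ordAt_eq_zero hsq]
    rfl
  have hsum : (Finsupp.single (D.pt q) 1 : Cycles X 1) = c - c.erase (D.pt q) := by
    have h1 := Finsupp.single_add_erase (D.pt q) c
    rw [hcQ] at h1
    exact eq_sub_of_add_eq h1
  rw [hsum]
  refine sub_mem (AddSubgroup.mem_sup_left hcR) (AddSubgroup.mem_sup_right ?_)
  rw [← Finsupp.sum_single (c.erase (D.pt q))]
  refine sum_mem fun Q' hQ' => ?_
  rw [Finsupp.support_erase, Finset.mem_erase, Finsupp.mem_support_iff] at hQ'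
  obtain ⟨hne, hQc⟩ := hQ'
  have hp' := Q'.prime
  have h1 : (Finsupp.single Q' (c.erase (D.pt q) Q') : Cycles X 1) =
      c.erase (D.pt q) Q' • (Finsupp.single Q' 1 : Cycles X 1) := by
    rw [Finsupp.smul_single, smul_eq_mul, mul_one]
  rw [h1]
  refine AddSubgroup.zsmul_mem _ ?_ _
  refine AddSubgroup.subset_closure ?_
  refine ⟨Q', rfl, ?_⟩
  have hcod' : CodimOne (D.pt v).I Q'.I := by
    by_contra h2
    rw [hc, if_neg h2] at hQc
    exact hQc rfl
  have hVQ : D.V.I ≤ Q'.I := (D.V_le_pt v).trans hcod'.1.le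
  refine ⟨hVQ, ?_⟩
  by_cases hsQ : (MvPolynomial.X (0, D.s) : Coord ι 1) ∈ Q'.I
  · exact Or.inl hsQ
  · right
    refine ⟨hne, hcod', ?_⟩
    obtain ⟨q', hq', rfl⟩ := D.exists_prime Q' hVQ hsQ
    refine ⟨q', hq', rfl, ?_⟩
    by_contra hGq
    apply hQc
    have h3 : t ∉ (D.pt q').I := fun h' => hGq (by
      rw [← htG]
      exact (D.mem_pt q' ht).1 h')
    have h4 : (MvPolynomial.X (0, D.s) : Coord ι 1) ^ n ∉ (D.pt q').I := fun h' =>
      D.s_notMem_pt q' (hp'.mem_of_pow_mem n h')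
    rw [hc, if_pos hcod', ordAt_eq_zero h3, ordAt_eq_zero h4]
    rfl

end Cell

end Kc

end Pool.Agent.RCH
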