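import Pool.Agent.RCH.KcCyl
import Pool.Agent.RCH.KcPts
import Pool.Agent.RCH.KcStep

/-!
# The cell theorem
-/

set_option autoImplicit false

open MvPolynomial

namespace Pool.Agent.RCH

namespace Kc

namespace Cell

variable {ι σ : Type} {X : WVar ι} (D : Cell X σ)

/-- the generators: the closure of the cell and the integral subschemes of it at infinity -/
lemma cell_aux [Finite ι] [DecidableEq σ] (S : Finset σ) :
    ∀ (q : Ideal (MvPolynomial σ ℂ)) [q.IsPrime], cyl S q = q →
      (Finsupp.single (D.pt q) 1 : Cycles X 1) ∈ RatZero X 1 ⊔ AddSubgroup.closure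
      ({Finsupp.single D.V 1} ∪ {c | ∃ Q' : Pt X 1, c = Finsupp.single Q' 1 ∧ D.V.I ≤ Q'.I ∧
        (MvPolynomial.X (0, D.s) : Coord ι 1) ∈ Q'.I}) := by
  induction S using Finset.induction_on with
  | empty =>
    intro q hq hc
    have h : q = ⊥ := by rw [← hc, cyl_empty q hq.ne_top]
    subst h
    rw [D.pt_bot]
    exact AddSubgroup.mem_sup_right (AddSubgroup.subset_closure (Or.inl rfl))
  | insert a S ha ih =>
    intro q hq hc
    by_cases hS : cyl S q = q
    · exact ih q hS
    obtain ⟨G, hG, hGv, hz, hq'⟩ := cyl_step ha hc hS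
    refine (sup_le le_sup_left ((AddSubgroup.closure_le _).2 ?_) : _ ≤ RatZero X 1 ⊔
      AddSubgroup.closure ({Finsupp.single D.V 1} ∪ {c | ∃ Q' : Pt X 1, c = Finsupp.single Q' 1 ∧
        D.V.I ≤ Q'.I ∧ (MvPolynomial.X (0, D.s) : Coord ι 1) ∈ Q'.I}))
      (D.step (cyl_le S q) hG hGv hz)
    rintro c ⟨Q', rfl, hVQ, hs | ⟨hne, hcod, q', hp, rfl, hGq⟩⟩
    · exact AddSubgroup.mem_sup_right (AddSubgroup.subset_closure (Or.inr ⟨Q', rfl, hVQ, hs⟩))
    · have hv : cyl S q ≤ q' := (D.pt_le_pt _ _).1 hcod.1.le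
      rcases hq' q' hp hv hGq with h | h
      · exfalso
        apply hne
        apply Pt.ext'
        by_contra hlt
        have h1 : (D.pt q).I < (D.pt q').I := lt_of_le_of_ne ((D.pt_le_pt _ _).2 h)
          fun e => hlt e.symm
        have h2 := hcod.2 _ (D.pt q).prime ((D.pt_le_pt _ _).2 (cyl_le S q)) h1
        exact hS (le_antisymm (cyl_le S q) ((D.pt_le_pt _ _).1 h2.le))
      · have h1 : (D.pt (cyl S q')).I = (D.pt q').I := by
          by_contra hlt
          have h2 : (D.pt (cyl S q')).I < (D.pt q').I :=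
            lt_of_le_of_ne ((D.pt_le_pt _ _).2 (cyl_le S q')) hlt
          have h3 := hcod.2 _ (D.pt (cyl S q')).prime ((D.pt_le_pt _ _).2 h.le) h2
          exact absurd ((D.pt_le_pt _ _).1 h3.le) (not_le_of_gt h)
        have h2 : D.pt (cyl S q') = D.pt q' := Pt.ext' X h1
        rw [← h2]
        exact ih (cyl S q') (cyl_cyl S q')

/-- An integral subscheme of `V` which meets the cell is, modulo rational equivalence, a combination of
`V` and of integral subschemes of `V` contained in `x_s = 0`. -/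
theorem cell_theorem [Finite ι] [Fintype σ] [DecidableEq σ] (Q : Pt X 1) (hV : D.V.I ≤ Q.I)
    (hs : (MvPolynomial.X (0, D.s) : Coord ι 1) ∉ Q.I) :
    (Finsupp.single Q 1 : Cycles X 1) ∈ RatZero X 1 ⊔ AddSubgroup.closure
      ({Finsupp.single D.V 1} ∪ {c | ∃ Q' : Pt X 1, c = Finsupp.single Q' 1 ∧ D.V.I ≤ Q'.I ∧
        (MvPolynomial.X (0, D.s) : Coord ι 1) ∈ Q'.I}) := by
  obtain ⟨q, hq, rfl⟩ := D.exists_prime Q hV hs
  exact D.cell_aux Finset.univ q (cyl_univ q)

end Cell

end Kc

end Pool.Agent.RCH
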