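import Mathlib

/-!
# Primes of a polynomial ring which are extended from the polynomial ring in fewer variables

For a prime `q` of the polynomial ring `A` in the variables `σ` and a finite set `S` of variables,
`cyl S q` is the ideal generated by the elements of `q` in the variables of `S` (a prime). The step
from `S` to one variable more, for the Chow groups of affine spaces: `cyl_step`.
-/

set_option autoImplicit false

open MvPolynomial

namespace Pool.Agent.RCH

namespace Kc

variable {σ : Type} [DecidableEq σ]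

/-- the variables outside `S` separated from the variables of `S` -/
noncomputable def sep (S : Finset σ) :
    MvPolynomial σ ℂ →+* MvPolynomial σ (MvPolynomial σ ℂ) :=
  eval₂Hom ((C : MvPolynomial σ ℂ →+* _).comp C)
    (fun b => if b ∈ S then C (MvPolynomial.X b) else MvPolynomial.X b)

@[simp] lemma sep_C (S : Finset σ) (c : ℂ) : sep S (C c) = C (C c) := by
  rw [sep, eval₂Hom_C]
  rfl

lemma sep_X (S : Finset σ) (b : σ) :
    sep S (MvPolynomial.X b) = if b ∈ S then C (MvPolynomial.X b) else MvPolynomial.X b := by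
  rw [sep, eval₂Hom_X']

/-- the polynomial is a polynomial in the variables of `S` -/
def InS (S : Finset σ) (z : MvPolynomial σ ℂ) : Prop := sep S z = C z

/-- two homomorphisms which agree on the variables of `S` agree on the polynomials in them -/
lemma InS.congr {S : Finset σ} {z : MvPolynomial σ ℂ} (hz : InS S z) {L : Type} [CommRing L]
    (f g : MvPolynomial σ ℂ →+* L) (hC : ∀ c, f (C c) = g (C c))
    (hX : ∀ b ∈ S, f (MvPolynomial.X b) = g (MvPolynomial.X b)) : f z = g z := by
  have h : (eval₂Hom f (fun b => g (MvPolynomial.X b))).comp (sep S) = g := by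
    apply MvPolynomial.ringHom_ext
    · intro c
      rw [RingHom.comp_apply, sep_C, eval₂Hom_C, hC]
    · intro b
      rw [RingHom.comp_apply, sep_X]
      split_ifs with hb
      · rw [eval₂Hom_C, hX b hb]
      · rw [eval₂Hom_X']
  have h1 := congrArg (fun ψ => ψ z) h
  simp only [RingHom.comp_apply] at h1
  rw [hz, eval₂Hom_C] at h1
  exact h1

lemma InS.add {S : Finset σ} {z w : MvPolynomial σ ℂ} (hz : InS S z) (hw : InS S w) :
    InS S (z + w) := by
  rw [InS, map_add, map_add, hz, hw]

lemma InS.sub {S : Finset σ} {z w : MvPolynomial σ ℂ} (hz : InS S z) (hw : InS S w) :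
    InS S (z - w) := by
  rw [InS, map_sub, map_sub, hz, hw]

lemma InS.mul {S : Finset σ} {z w : MvPolynomial σ ℂ} (hz : InS S z) (hw : InS S w) :
    InS S (z * w) := by
  rw [InS, map_mul, map_mul, hz, hw]

lemma InS.pow {S : Finset σ} {z : MvPolynomial σ ℂ} (hz : InS S z) (n : ℕ) : InS S (z ^ n) := by
  rw [InS, map_pow, map_pow, hz]

lemma InS_X {S : Finset σ} {b : σ} (hb : b ∈ S) : InS S (MvPolynomial.X b) := by
  rw [InS, sep_X, if_pos hb]

lemma InS.mono {S T : Finset σ} (h : S ⊆ T) {z : MvPolynomial σ ℂ} (hz : InS S z) : InS T z :=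
  hz.congr (sep T) C (fun c => sep_C T c) fun b hb => by rw [sep_X, if_pos (h hb)]

/-- the coefficients with respect to the variables outside `S` are polynomials in those of `S` -/
lemma InS_coeff (S : Finset σ) (z : MvPolynomial σ ℂ) (m : σ →₀ ℕ) : InS S (coeff m (sep S z)) := by
  have h : (MvPolynomial.map (sep S)).comp (sep S) =
      (MvPolynomial.map (C : MvPolynomial σ ℂ →+* MvPolynomial σ (MvPolynomial σ ℂ))).comp
        (sep S) := by
    apply MvPolynomial.ringHom_ext
    · intro c
      simp only [RingHom.comp_apply, sep_C, MvPolynomial.map_C]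
    · intro b
      simp only [RingHom.comp_apply, sep_X]
      split_ifs with hb
      · rw [MvPolynomial.map_C, MvPolynomial.map_C, sep_X, if_pos hb]
      · rw [MvPolynomial.map_X, MvPolynomial.map_X]
  have h1 := congrArg (fun ψ => coeff m (ψ z)) h
  simp only [RingHom.comp_apply, coeff_map] at h1
  exact h1

/-- a polynomial is the sum of its coefficients times the monomials -/
lemma eval_sep (S : Finset σ) (z : MvPolynomial σ ℂ) :
    eval₂Hom (RingHom.id _) (fun b => (MvPolynomial.X b : MvPolynomial σ ℂ)) (sep S z) = z := by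
  have h : (eval₂Hom (RingHom.id _) (fun b => (MvPolynomial.X b : MvPolynomial σ ℂ))).comp
      (sep S) = RingHom.id _ := by
    apply MvPolynomial.ringHom_ext
    · intro c
      simp only [RingHom.comp_apply, sep_C, eval₂Hom_C, RingHom.id_apply]
    · intro b
      simp only [RingHom.comp_apply, sep_X, RingHom.id_apply]
      split_ifs with hb
      · rw [eval₂Hom_C, RingHom.id_apply]
      · rw [eval₂Hom_X']
  exact congrArg (fun ψ => ψ z) h

lemma mem_of_coeff {S : Finset σ} {J : Ideal (MvPolynomial σ ℂ)} {z : MvPolynomial σ ℂ}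
    (h : ∀ m, coeff m (sep S z) ∈ J) : z ∈ J := by
  rw [← eval_sep S z, coe_eval₂Hom, eval₂_eq]
  refine Ideal.sum_mem _ fun m _ => Ideal.mul_mem_right _ _ ?_
  exact h m

/-- the ideal generated by the elements of `q` in the variables of `S` -/
noncomputable def cyl (S : Finset σ) (q : Ideal (MvPolynomial σ ℂ)) : Ideal (MvPolynomial σ ℂ) :=
  RingHom.ker ((MvPolynomial.map (Ideal.Quotient.mk q)).comp (sep S))

lemma mem_cyl {S : Finset σ} {q : Ideal (MvPolynomial σ ℂ)} {z : MvPolynomial σ ℂ} :
    z ∈ cyl S q ↔ ∀ m, coeff m (sep S z) ∈ q := by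
  rw [cyl, RingHom.mem_ker, RingHom.comp_apply, MvPolynomial.ext_iff]
  refine forall_congr' fun m => ?_
  rw [coeff_map, coeff_zero, Ideal.Quotient.eq_zero_iff_mem]

instance cyl_prime (S : Finset σ) (q : Ideal (MvPolynomial σ ℂ)) [q.IsPrime] : (cyl S q).IsPrime :=
  RingHom.ker_isPrime _

lemma cyl_le (S : Finset σ) (q : Ideal (MvPolynomial σ ℂ)) : cyl S q ≤ q := fun _ hz =>
  mem_of_coeff (mem_cyl.1 hz)

lemma InS.mem_cyl_iff {S : Finset σ} {q : Ideal (MvPolynomial σ ℂ)} {z : MvPolynomial σ ℂ}
    (hz : InS S z) : z ∈ cyl S q ↔ z ∈ q := by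
  refine ⟨fun h => cyl_le S q h, fun h => mem_cyl.2 fun m => ?_⟩
  rw [hz, coeff_C]
  split_ifs
  · exact h
  · exact zero_mem _

lemma cyl_mono {S : Finset σ} {q q' : Ideal (MvPolynomial σ ℂ)} (h : q ≤ q') :
    cyl S q ≤ cyl S q' := fun _ hz => mem_cyl.2 fun m => h (mem_cyl.1 hz m)

lemma cyl_cyl (S : Finset σ) (q : Ideal (MvPolynomial σ ℂ)) : cyl S (cyl S q) = cyl S q :=
  le_antisymm (cyl_le _ _) fun z hz =>
    mem_cyl.2 fun m => (InS_coeff S z m).mem_cyl_iff.2 (mem_cyl.1 hz m)

lemma cyl_univ [Fintype σ] (q : Ideal (MvPolynomial σ ℂ)) : cyl Finset.univ q = q := by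
  refine le_antisymm (cyl_le _ _) fun z hz => ?_
  have h : sep (Finset.univ : Finset σ) = C := by
    apply MvPolynomial.ringHom_ext
    · intro c
      exact sep_C _ c
    · intro b
      rw [sep_X, if_pos (Finset.mem_univ b)]
  have h1 : InS Finset.univ z := by
    rw [InS, h]
  exact h1.mem_cyl_iff.2 hz

lemma cyl_empty (q : Ideal (MvPolynomial σ ℂ)) (hq : q ≠ ⊤) : cyl ∅ q = ⊥ := by
  rw [eq_bot_iff]
  intro z hz
  have h : sep (∅ : Finset σ) = MvPolynomial.map C := by
    apply MvPolynomial.ringHom_ext
    · intro c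
      rw [sep_C, MvPolynomial.map_C]
    · intro b
      rw [sep_X, if_neg (Finset.notMem_empty b), MvPolynomial.map_X]
  rw [Ideal.mem_bot]
  ext m
  have h1 := mem_cyl.1 hz m
  rw [h, coeff_map] at h1
  rw [coeff_zero]
  by_contra hne
  apply hq
  rw [Ideal.eq_top_iff_one]
  have h2 : C (coeff m z)⁻¹ * C (coeff m z) = (1 : MvPolynomial σ ℂ) := by
    rw [← C_mul, inv_mul_cancel₀ hne, C_1]
  rw [← h2]
  exact Ideal.mul_mem_left _ _ h1

/-! ### The degree in one variable -/

/-- the variable `a` separated from the others -/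
noncomputable def sepA (a : σ) : MvPolynomial σ ℂ →+* Polynomial (MvPolynomial σ ℂ) :=
  eval₂Hom (Polynomial.C.comp C) (fun b => if b = a then Polynomial.X else
    Polynomial.C (MvPolynomial.X b))

lemma sepA_C (a : σ) (c : ℂ) : sepA a (C c) = Polynomial.C (C c) := by
  rw [sepA, eval₂Hom_C]
  rfl

lemma sepA_X (a b : σ) : sepA a (MvPolynomial.X b) =
    if b = a then Polynomial.X else Polynomial.C (MvPolynomial.X b) := by
  rw [sepA, eval₂Hom_X']

/-- evaluation of the separated variable -/
lemma eval_sepA (a : σ) (z : MvPolynomial σ ℂ) : (sepA a z).eval (MvPolynomial.X a) = z := by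
  have h : (Polynomial.evalRingHom (MvPolynomial.X a : MvPolynomial σ ℂ)).comp (sepA a) =
      RingHom.id _ := by
    apply MvPolynomial.ringHom_ext
    · intro c
      rw [RingHom.comp_apply, sepA_C, Polynomial.coe_evalRingHom, Polynomial.eval_C,
        RingHom.id_apply]
    · intro b
      rw [RingHom.comp_apply, sepA_X, Polynomial.coe_evalRingHom, RingHom.id_apply]
      split_ifs with hb
      · rw [Polynomial.eval_X, hb]
      · rw [Polynomial.eval_C]
  exact congrArg (fun ψ => ψ z) h

lemma InS.sepA {S : Finset σ} {a : σ} (ha : a ∉ S) {c : MvPolynomial σ ℂ} (hc : InS S c) :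
    sepA a c = Polynomial.C c :=
  hc.congr (Kc.sepA a) Polynomial.C (fun c => sepA_C a c) fun b hb => by
    rw [sepA_X, if_neg]
    rintro rfl
    exact ha hb

lemma InS.coeff_sepA {S : Finset σ} {a : σ} {z : MvPolynomial σ ℂ}
    (hz : InS (insert a S) z) (i : ℕ) : InS S ((Kc.sepA a z).coeff i) := by
  have h := hz.congr (L := Polynomial (MvPolynomial σ (MvPolynomial σ ℂ)))
    ((Polynomial.mapRingHom (sep S)).comp (Kc.sepA a))
    ((Polynomial.mapRingHom (C : MvPolynomial σ ℂ →+* MvPolynomial σ (MvPolynomial σ ℂ))).comp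
      (Kc.sepA a))
    (fun c => by
      simp only [RingHom.comp_apply, sepA_C, Polynomial.coe_mapRingHom, Polynomial.map_C, sep_C])
    (fun b hb => by
      simp only [RingHom.comp_apply, sepA_X, Polynomial.coe_mapRingHom]
      split_ifs with hba
      · rw [Polynomial.map_X, Polynomial.map_X]
      · have hbS : b ∈ S := (Finset.mem_insert.1 hb).resolve_left hba
        rw [Polynomial.map_C, Polynomial.map_C, sep_X, if_pos hbS])
  have h1 := congrArg (fun p => p.coeff i) h
  simp only [RingHom.comp_apply, Polynomial.coe_mapRingHom, Polynomial.coeff_map] at h1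
  exact h1

/-- Step from `S` to one variable more: a prime `q` generated by its elements in the variables
`S ∪ {a}` but not by those in the variables `S`. -/
theorem cyl_step {S : Finset σ} {a : σ} (ha : a ∉ S) {q : Ideal (MvPolynomial σ ℂ)} [q.IsPrime]
    (hq : cyl (insert a S) q = q) (hn : cyl S q ≠ q) :
    ∃ G ∈ q, G ∉ cyl S q ∧ (∀ z ∈ q, ∃ c ∉ q, c * z ∈ cyl S q ⊔ Ideal.span {G}) ∧
      ∀ q' : Ideal (MvPolynomial σ ℂ), q'.IsPrime → cyl S q ≤ q' → G ∈ q' →
        q ≤ q' ∨ cyl S q < cyl S q' := by
  classical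
  set v := cyl S q with hv
  -- an element of `q` in the variables `S ∪ {a}` which is not in `v`
  have hex : ∃ e : ℕ, ∃ G, G ∈ q ∧ InS (insert a S) G ∧ G ∉ v ∧ (sepA a G).natDegree = e := by
    by_contra hne
    push Not at hne
    apply hn
    refine le_antisymm (cyl_le _ _) fun z hz => ?_
    rw [← hq, mem_cyl] at hz
    refine mem_of_coeff (S := insert a S) fun m => ?_
    by_contra hm
    exact hne _ _ (hz m) (InS_coeff _ z m) hm rfl
  obtain ⟨G, hGq, hGT, hGv, hdeg⟩ := Nat.find_spec hex
  have hmin : ∀ z, z ∈ q → InS (insert a S) z → (sepA a z).natDegree < Nat.find hex → z ∈ v := by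
    intro z hz hzT hd
    by_contra hzv
    exact Nat.find_min hex hd ⟨z, hz, hzT, hzv, rfl⟩
  set e := Nat.find hex with he
  set c := (sepA a G).leadingCoeff with hc
  have hcS : InS S c := hGT.coeff_sepA _
  have hXT : InS (insert a S) (MvPolynomial.X a : MvPolynomial σ ℂ) :=
    InS_X (Finset.mem_insert_self a S)
  have hST : S ⊆ insert a S := Finset.subset_insert a S
  have hXa : sepA a (MvPolynomial.X a : MvPolynomial σ ℂ) = Polynomial.X := by
    rw [sepA_X, if_pos rfl]
  -- the leading coefficient is not in `q`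
  have hcq : c ∉ q := by
    intro hcq
    have hcv : c ∈ v := hcS.mem_cyl_iff.2 hcq
    have h1 : G - c * MvPolynomial.X a ^ e ∉ v := by
      intro h
      apply hGv
      have := v.add_mem h (v.mul_mem_right (MvPolynomial.X a ^ e) hcv)
      rwa [sub_add_cancel] at this
    have h2 : sepA a (G - c * MvPolynomial.X a ^ e) =
        sepA a G - Polynomial.C c * Polynomial.X ^ e := by
      rw [map_sub, map_mul, map_pow, hXa, hcS.sepA ha]
    rcases Nat.eq_zero_or_pos e with h0 | hpos
    · have h3 : (sepA a G) = Polynomial.C c := by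
        have h4 : (sepA a G).natDegree = 0 := by rw [hdeg, h0]
        rw [hc, Polynomial.leadingCoeff, h4]
        exact Polynomial.eq_C_of_natDegree_eq_zero h4
      have h5 : G = c := by
        have := eval_sepA a G
        rw [h3, Polynomial.eval_C] at this
        exact this.symm
      exact hGv (h5 ▸ hcv)
    · have h3 : (sepA a (G - c * MvPolynomial.X a ^ e)).natDegree < e := by
        rw [h2]
        have h4 : (sepA a G - Polynomial.C c * Polynomial.X ^ e) = (sepA a G).eraseLead := by
          rw [← Polynomial.self_sub_C_mul_X_pow, hdeg]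
        rw [h4]
        have h5 := Polynomial.eraseLead_natDegree_le (sepA a G)
        rw [hdeg] at h5
        omega
      refine h1 (hmin _ ?_ ?_ h3)
      · exact q.sub_mem hGq (q.mul_mem_right _ hcq)
      · exact hGT.sub ((hcS.mono hST).mul (hXT.pow e))
  have hGe : (sepA a G).coeff e = c := by
    rw [hc, Polynomial.leadingCoeff, hdeg]
  -- pseudo-division
  have hdiv : ∀ d : ℕ, ∀ z, z ∈ q → InS (insert a S) z → (sepA a z).natDegree < d + e →
      ∃ N : ℕ, c ^ N * z ∈ v ⊔ Ideal.span {G} := by
    intro d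
    induction d with
    | zero =>
      intro z hz hzT hd
      refine ⟨0, ?_⟩
      rw [pow_zero, one_mul]
      exact Ideal.mem_sup_left (hmin z hz hzT (by omega))
    | succ d ih =>
      intro z hz hzT hd
      set l := (sepA a z).coeff (d + e) with hl
      have hlS : InS S l := hzT.coeff_sepA _
      have hz' : c * z - l * MvPolynomial.X a ^ d * G ∈ q :=
        q.sub_mem (q.mul_mem_left _ hz) (q.mul_mem_left _ hGq)
      have hzT' : InS (insert a S) (c * z - l * MvPolynomial.X a ^ d * G) :=
        ((hcS.mono hST).mul hzT).sub (((hlS.mono hST).mul (hXT.pow d)).mul hGT)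
      have hpos : 0 < d + e := by
        rcases Nat.eq_zero_or_pos (d + e) with h0 | hpos
        · exfalso
          have he0 : e = 0 := by omega
          have h4 : (sepA a G).natDegree = 0 := by rw [hdeg, he0]
          have h6 := eval_sepA a G
          rw [Polynomial.eq_C_of_natDegree_eq_zero h4, Polynomial.eval_C, ← he0, hGe] at h6
          exact hcq (h6 ▸ hGq)
        · exact hpos
      have hdeg' : (sepA a (c * z - l * MvPolynomial.X a ^ d * G)).natDegree < d + e := by
        rw [map_sub, map_mul, map_mul, map_mul, map_pow, hXa, hcS.sepA ha, hlS.sepA ha]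
        have hle : (Polynomial.C c * sepA a z - Polynomial.C l * Polynomial.X ^ d *
            sepA a G).natDegree ≤ d + e := by
          refine (Polynomial.natDegree_sub_le _ _).trans (max_le ?_ ?_)
          · refine (Polynomial.natDegree_C_mul_le _ _).trans ?_
            omega
          · refine Polynomial.natDegree_mul_le.trans ?_
            have h1 : (Polynomial.C l * Polynomial.X ^ d : Polynomial (MvPolynomial σ ℂ)).natDegree ≤
              d := Polynomial.natDegree_C_mul_X_pow_le _ _
            omega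
        have hco : (Polynomial.C c * sepA a z - Polynomial.C l * Polynomial.X ^ d *
            sepA a G).coeff (d + e) = 0 := by
          rw [Polynomial.coeff_sub, Polynomial.coeff_C_mul, mul_assoc, Polynomial.coeff_C_mul,
            Polynomial.coeff_X_pow_mul', if_pos (Nat.le_add_right d e), Nat.add_sub_cancel_left,
            hGe, ← hl, mul_comm, sub_self]
        refine lt_of_le_of_ne hle fun heq => ?_
        have h2 : (Polynomial.C c * sepA a z - Polynomial.C l * Polynomial.X ^ d *
            sepA a G).leadingCoeff = 0 := by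
          rw [Polynomial.leadingCoeff, heq, hco]
        rw [Polynomial.leadingCoeff_eq_zero] at h2
        rw [h2, Polynomial.natDegree_zero] at heq
        omega
      obtain ⟨N, hmem⟩ := ih _ hz' hzT' hdeg'
      refine ⟨N + 1, ?_⟩
      have h3 : c ^ (N + 1) * z = c ^ N * (c * z - l * MvPolynomial.X a ^ d * G) +
          c ^ N * (l * MvPolynomial.X a ^ d) * G := by ring
      rw [h3]
      exact add_mem hmem (Ideal.mem_sup_right (Ideal.mem_span_singleton'.2 ⟨_, rfl⟩))
  have hall : ∀ z ∈ q, ∃ N : ℕ, c ^ N * z ∈ v ⊔ Ideal.span {G} := by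
    intro z hz
    rw [← hq, mem_cyl] at hz
    have hm : ∀ m, ∃ N : ℕ, c ^ N * coeff m (sep (insert a S) z) ∈ v ⊔ Ideal.span {G} := fun m =>
      hdiv ((sepA a (coeff m (sep (insert a S) z))).natDegree + 1) _ (hz m) (InS_coeff _ z m)
        (by omega)
    choose f hfm using hm
    refine ⟨∑ m ∈ (sep (insert a S) z).support, f m, ?_⟩
    have h6 := eval_sep (insert a S) z
    rw [coe_eval₂Hom, eval₂_eq] at h6
    have h7 : ∑ m ∈ (sep (insert a S) z).support, c ^ (∑ m ∈ (sep (insert a S) z).support, f m) *
        ((RingHom.id (MvPolynomial σ ℂ)) (coeff m (sep (insert a S) z)) *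
          ∏ i ∈ m.support, MvPolynomial.X i ^ m i) ∈ v ⊔ Ideal.span {G} := by
      refine Ideal.sum_mem _ fun m hm => ?_
      rw [RingHom.id_apply, ← mul_assoc]
      refine Ideal.mul_mem_right _ _ ?_
      rw [← Finset.sum_erase_add _ _ hm, pow_add, mul_assoc]
      exact Ideal.mul_mem_left _ _ (hfm m)
    rw [← Finset.mul_sum, h6] at h7
    exact h7
  refine ⟨G, hGq, hGv, fun z hz => ?_, fun q' hq' hvq' hGq' => ?_⟩
  · obtain ⟨N, hN⟩ := hall z hz
    exact ⟨c ^ N, fun h => hcq (Ideal.IsPrime.mem_of_pow_mem ‹q.IsPrime› N h), hN⟩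
  by_cases hcase : cyl S q' = v
  · left
    have hcq' : c ∉ q' := fun h => hcq (cyl_le S q (by
      rw [← hv, ← hcase]
      exact hcS.mem_cyl_iff.2 h))
    intro z hz
    obtain ⟨N, hN⟩ := hall z hz
    have hle : v ⊔ Ideal.span {G} ≤ q' := by
      rw [sup_le_iff, Ideal.span_le, Set.singleton_subset_iff]
      exact ⟨hvq', hGq'⟩
    exact (hq'.mem_or_mem (hle hN)).resolve_left (fun h => hcq' (hq'.mem_of_pow_mem N h))
  · right
    have h7 := cyl_mono (S := S) hvq'
    rw [hv, cyl_cyl] at h7
    exact lt_of_le_of_ne h7 (fun h => hcase (hv ▸ h.symm))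

end Kc

end Pool.Agent.RCH
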