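import Pool.Agent.RCH.Defs

/-!
# Orders of vanishing: general facts

`ordAt_eq`: the order at a point of codimension one with uniformizer `t`. `codimOne_of`: nothing
between. `ordAt_equiv`: transport along ring isomorphisms.
-/

set_option autoImplicit false

namespace Pool.Agent.RCH

open Ideal IsLocalRing


section LocalLen

variable {L : Type*} [CommRing L]

/-- the quotient by `p + (t^(n+1))`: an exact sequence -/
lemma length_step (p : Ideal L) [p.IsPrime] (t : L) (ht : t ∉ p) (n : ℕ) :
    Module.length L (L ⧸ (p ⊔ span {t ^ (n + 1)})) =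
      Module.length L (L ⧸ (p ⊔ span {t ^ n})) + Module.length L (L ⧸ (p ⊔ span {t})) := by
  -- f : L/(p + t^n) → L/(p + t^(n+1)), multiplication by t
  have hf : (p ⊔ span {t ^ n} : Ideal L) ≤
      Submodule.comap (LinearMap.mulLeft L t) (p ⊔ span {t ^ (n + 1)} : Ideal L) := by
    rw [sup_le_iff]
    refine ⟨fun x hx => ?_, ?_⟩
    · rw [Submodule.mem_comap, LinearMap.mulLeft_apply]
      exact Ideal.mem_sup_left (p.mul_mem_left _ hx)
    · rw [Ideal.span_le, Set.singleton_subset_iff, SetLike.mem_coe, Submodule.mem_comap,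
        LinearMap.mulLeft_apply]
      apply Ideal.mem_sup_right
      rw [Ideal.mem_span_singleton, pow_succ']
  have hg : (p ⊔ span {t ^ (n + 1)} : Ideal L) ≤
      Submodule.comap (LinearMap.id : L →ₗ[L] L) (p ⊔ span {t} : Ideal L) := by
    rw [sup_le_iff]
    refine ⟨fun x hx => ?_, ?_⟩
    · rw [Submodule.mem_comap, LinearMap.id_apply]
      exact Ideal.mem_sup_left hx
    · rw [Ideal.span_le, Set.singleton_subset_iff, SetLike.mem_coe, Submodule.mem_comap,
        LinearMap.id_apply]
      apply Ideal.mem_sup_right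
      rw [Ideal.mem_span_singleton]
      exact Dvd.intro_left _ (by rw [pow_succ])
  let f : (L ⧸ (p ⊔ span {t ^ n})) →ₗ[L] (L ⧸ (p ⊔ span {t ^ (n + 1)})) :=
    Submodule.mapQ _ _ (LinearMap.mulLeft L t) hf
  let g : (L ⧸ (p ⊔ span {t ^ (n + 1)})) →ₗ[L] (L ⧸ (p ⊔ span {t})) :=
    Submodule.mapQ _ _ LinearMap.id hg
  refine Module.length_eq_add_of_exact f g ?_ ?_ ?_
  · rw [← LinearMap.ker_eq_bot, LinearMap.ker_eq_bot']
    intro x hx
    obtain ⟨x, rfl⟩ := Submodule.Quotient.mk_surjective _ x
    have hx' : t * x ∈ (p ⊔ span {t ^ (n + 1)} : Ideal L) := by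
      have := hx
      simp only [f, Submodule.mapQ_apply, LinearMap.mulLeft_apply] at this
      exact (Submodule.Quotient.mk_eq_zero _).1 this
    rw [Submodule.Quotient.mk_eq_zero]
    rw [Submodule.mem_sup] at hx' ⊢
    obtain ⟨a, ha, b, hb, hab⟩ := hx'
    rw [Ideal.mem_span_singleton'] at hb
    obtain ⟨c, rfl⟩ := hb
    have h1 : t * (x - c * t ^ n) ∈ p := by
      have : t * (x - c * t ^ n) = a := by rw [pow_succ] at hab; linear_combination -hab
      rw [this]; exact ha
    refine ⟨x - c * t ^ n, ((Ideal.IsPrime.mem_or_mem ‹p.IsPrime› h1).resolve_left ht), c * t ^ n,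
      Ideal.mem_span_singleton'.2 ⟨c, rfl⟩, by ring⟩
  · intro y
    obtain ⟨y, rfl⟩ := Submodule.Quotient.mk_surjective _ y
    exact ⟨Submodule.Quotient.mk y, by simp [g]⟩
  · intro y
    obtain ⟨y, rfl⟩ := Submodule.Quotient.mk_surjective _ y
    constructor
    · intro hy
      have hy' : y ∈ (p ⊔ span {t} : Ideal L) := by
        simp only [g, Submodule.mapQ_apply, LinearMap.id_apply] at hy
        exact (Submodule.Quotient.mk_eq_zero _).1 hy
      rw [Submodule.mem_sup] at hy'
      obtain ⟨a, ha, b, hb, hab⟩ := hy'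
      rw [Ideal.mem_span_singleton'] at hb
      obtain ⟨c, rfl⟩ := hb
      refine ⟨Submodule.Quotient.mk c, ?_⟩
      simp only [f, Submodule.mapQ_apply, LinearMap.mulLeft_apply]
      rw [Submodule.Quotient.eq]
      apply Ideal.mem_sup_left
      have : t * c - y = -a := by rw [← hab]; ring
      rw [this]
      exact p.neg_mem ha
    · rintro ⟨x, hx⟩
      obtain ⟨x, rfl⟩ := Submodule.Quotient.mk_surjective _ x
      rw [← hx]
      simp only [f, g, Submodule.mapQ_apply, LinearMap.mulLeft_apply, LinearMap.id_apply]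
      rw [Submodule.Quotient.mk_eq_zero]
      apply Ideal.mem_sup_right
      exact Ideal.mem_span_singleton'.2 ⟨x, by ring⟩

lemma length_eq_of_max (p : Ideal L) [p.IsPrime] (t : L) (ht : t ∉ p)
    (hm : (p ⊔ span {t}).IsMaximal) (n : ℕ) :
    Module.length L (L ⧸ (p ⊔ span {t ^ n})) = n := by
  induction n with
  | zero =>
    rw [pow_zero, Ideal.span_singleton_one, sup_top_eq]
    have : Subsingleton (L ⧸ (⊤ : Ideal L)) := Ideal.Quotient.subsingleton_iff.2 rfl
    rw [Module.length_eq_zero]; rfl
  | succ n ih =>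
    rw [length_step p t ht n, ih]
    have : Module.length L (L ⧸ (p ⊔ span {t})) = 1 := by
      rw [Module.length_eq_one_iff]
      rw [isSimpleModule_iff_isCoatom]
      exact hm.out
    rw [this]; push_cast; rfl

end LocalLen



lemma length_quot_equiv {L L' : Type*} [CommRing L] [CommRing L'] (e : L ≃+* L') (I : Ideal L)
    (I' : Ideal L') (h : I' = I.map (e : L →+* L')) :
    Module.length L (L ⧸ I) = Module.length L' (L' ⧸ I') := by
  let _ : Algebra L L' := (e : L →+* L').toAlgebra
  have hsurj : Function.Surjective (algebraMap L L') := e.surjective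
  have h1 : Module.length L (L' ⧸ I') = Module.length L' (L' ⧸ I') :=
    Module.length_eq_of_surjective hsurj
  rw [← h1]
  refine LinearEquiv.length_eq
    { (Ideal.quotientEquiv I I' e h) with
      map_smul' := ?_ }
  intro m x
  obtain ⟨x, rfl⟩ := Ideal.Quotient.mk_surjective x
  change Ideal.quotientEquiv I I' e h (Ideal.Quotient.mk I (m * x)) =
    m • Ideal.quotientEquiv I I' e h (Ideal.Quotient.mk I x)
  rw [Ideal.quotientEquiv_mk, Ideal.quotientEquiv_mk, map_mul, map_mul]
  rfl


section ord

variable {S : Type} [CommRing S]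


lemma disj_of_le {P Q : Ideal S} [Q.IsPrime] (hPQ : P ≤ Q) :
    Disjoint (Q.primeCompl : Set S) (P : Set S) := by
  rw [Set.disjoint_left]
  intro x hx hx'
  exact hx (hPQ hx')

lemma isPrime_map {P Q : Ideal S} [P.IsPrime] [Q.IsPrime] (hPQ : P ≤ Q) :
    (Ideal.map (algebraMap S (Localization.AtPrime Q)) P).IsPrime :=
  IsLocalization.isPrime_of_isPrime_disjoint Q.primeCompl _ P ‹_› (disj_of_le hPQ)

lemma mem_map_iff {P Q : Ideal S} [P.IsPrime] [Q.IsPrime] (hPQ : P ≤ Q) (x : S) :
    algebraMap S (Localization.AtPrime Q) x ∈ Ideal.map (algebraMap S (Localization.AtPrime Q)) P ↔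
      x ∈ P := by
  have h := IsLocalization.under_map_of_isPrime_disjoint Q.primeCompl (Localization.AtPrime Q)
    ‹P.IsPrime› (disj_of_le hPQ)
  constructor
  · intro hx
    rw [← h]
    exact hx
  · exact Ideal.mem_map_of_mem _

lemma isUnit_of_notMem {Q : Ideal S} [Q.IsPrime] {s : S} (hs : s ∉ Q) :
    IsUnit (algebraMap S (Localization.AtPrime Q) s) :=
  IsLocalization.map_units (Localization.AtPrime Q) (⟨s, hs⟩ : Q.primeCompl)

lemma sup_span_eq_max {P Q : Ideal S} [Q.IsPrime] (hPQ : P ≤ Q) (t : S) (htQ : t ∈ Q)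
    (h : ∀ z ∈ Q, ∃ s, s ∉ Q ∧ s * z ∈ P ⊔ span {t}) :
    Ideal.map (algebraMap S (Localization.AtPrime Q)) P ⊔
      span {algebraMap S (Localization.AtPrime Q) t} =
        IsLocalRing.maximalIdeal (Localization.AtPrime Q) := by
  rw [← Localization.AtPrime.map_eq_maximalIdeal]
  have h1 : Ideal.map (algebraMap S (Localization.AtPrime Q)) P ⊔
      span {algebraMap S (Localization.AtPrime Q) t} =
      Ideal.map (algebraMap S (Localization.AtPrime Q)) (P ⊔ span {t}) := by
    rw [Ideal.map_sup, Ideal.map_span, Set.image_singleton]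
  rw [h1]
  apply le_antisymm
  · apply Ideal.map_mono
    rw [sup_le_iff]
    exact ⟨hPQ, by rw [Ideal.span_le, Set.singleton_subset_iff]; exact htQ⟩
  · rw [Ideal.map_le_iff_le_comap]
    intro z hz
    obtain ⟨s, hs, hsz⟩ := h z hz
    rw [Ideal.mem_comap]
    have h2 := Ideal.mem_map_of_mem (algebraMap S (Localization.AtPrime Q)) hsz
    rw [map_mul] at h2
    exact (Ideal.unit_mul_mem_iff_mem _ (isUnit_of_notMem hs)).1 h2

/-- A1 (ii): the order at a regular codimension one point with uniformizer `t` -/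
theorem ordAt_eq {P Q : Ideal S} [P.IsPrime] [Q.IsPrime] (hPQ : P ≤ Q) {t : S} (htQ : t ∈ Q)
    (htP : t ∉ P) (h : ∀ z ∈ Q, ∃ s, s ∉ Q ∧ s * z ∈ P ⊔ span {t}) {g s s' : S} {n : ℕ}
    (hs : s ∉ Q) (hs' : s' ∉ Q) (hg : s * g - s' * t ^ n ∈ P) : ordAt P Q g = n := by
  have hp := isPrime_map (P := P) (Q := Q) hPQ
  have hmax := sup_span_eq_max hPQ t htQ h
  have h1 : Ideal.map (algebraMap S (Localization.AtPrime Q)) (P ⊔ span {g}) =
      Ideal.map (algebraMap S (Localization.AtPrime Q)) P ⊔
        span {(algebraMap S (Localization.AtPrime Q) t) ^ n} := by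
    rw [Ideal.map_sup, Ideal.map_span, Set.image_singleton]
    have hg' := Ideal.mem_map_of_mem (algebraMap S (Localization.AtPrime Q)) hg
    rw [map_sub, map_mul, map_mul, map_pow] at hg'
    obtain ⟨u, hu⟩ := isUnit_of_notMem hs
    obtain ⟨u', hu'⟩ := isUnit_of_notMem hs'
    rw [← hu, ← hu'] at hg'
    set I := Ideal.map (algebraMap S (Localization.AtPrime Q)) P
    set x := algebraMap S (Localization.AtPrime Q) g
    set y := algebraMap S (Localization.AtPrime Q) t ^ n
    apply le_antisymm
    · rw [sup_le_iff, Ideal.span_le, Set.singleton_subset_iff]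
      refine ⟨le_sup_left, ?_⟩
      have : x = (↑u⁻¹ : Localization.AtPrime Q) * ((u : Localization.AtPrime Q) * x - u' * y) +
        ((↑u⁻¹ : Localization.AtPrime Q) * u') * y := by
        have := Units.inv_mul u
        linear_combination (-x) * this
      rw [SetLike.mem_coe, this]
      exact add_mem (Ideal.mem_sup_left (I.mul_mem_left _ hg'))
        (Ideal.mem_sup_right (Ideal.mem_span_singleton'.2 ⟨_, rfl⟩))
    · rw [sup_le_iff, Ideal.span_le, Set.singleton_subset_iff]
      refine ⟨le_sup_left, ?_⟩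
      have : y = -(↑u'⁻¹ : Localization.AtPrime Q) * ((u : Localization.AtPrime Q) * x - u' * y) +
        ((↑u'⁻¹ : Localization.AtPrime Q) * u) * x := by
        have := Units.inv_mul u'
        linear_combination (-y) * this
      rw [SetLike.mem_coe, this]
      exact add_mem (Ideal.mem_sup_left (I.mul_mem_left _ hg'))
        (Ideal.mem_sup_right (Ideal.mem_span_singleton'.2 ⟨_, rfl⟩))
  unfold ordAt
  rw [h1]
  exact length_eq_of_max _ _ (fun hc => htP ((mem_map_iff hPQ t).1 hc))
    (by rw [hmax]; exact IsLocalRing.maximalIdeal.isMaximal _) n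

/-- A1 (i): nothing between `P` and `Q` -/
theorem eq_or_eq_of_between [IsNoetherianRing S] {P Q : Ideal S} [P.IsPrime] [Q.IsPrime]
    (hPQ : P ≤ Q) {t : S} (htQ : t ∈ Q)
    (h : ∀ z ∈ Q, ∃ s, s ∉ Q ∧ s * z ∈ P ⊔ span {t}) {P' : Ideal S} [P'.IsPrime]
    (h1 : P ≤ P') (h2 : P' ≤ Q) : P' = P ∨ P' = Q := by
  by_cases htP' : t ∈ P'
  · right
    apply le_antisymm h2
    intro z hz
    obtain ⟨s, hs, hsz⟩ := h z hz
    have hle : P ⊔ span {t} ≤ P' := by
      rw [sup_le_iff, Ideal.span_le, Set.singleton_subset_iff]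
      exact ⟨h1, htP'⟩
    exact (Ideal.IsPrime.mem_or_mem ‹_› (hle hsz)).resolve_left (fun hc => hs (h2 hc))
  · left
    have hnak : Ideal.map (algebraMap S (Localization.AtPrime Q)) P' ≤
        Ideal.map (algebraMap S (Localization.AtPrime Q)) P := by
      have hfg : (Ideal.map (algebraMap S (Localization.AtPrime Q)) P').FG :=
        Ideal.FG.map ((isNoetherianRing_iff_ideal_fg S).1 ‹_› P') _
      refine Submodule.le_of_le_smul_of_le_jacobson_bot
        (I := IsLocalRing.maximalIdeal (Localization.AtPrime Q)) hfg ?_ ?_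
      · exact IsLocalRing.maximalIdeal_le_jacobson _
      · rw [Ideal.map_le_iff_le_comap]
        intro z hz
        rw [Ideal.mem_comap]
        obtain ⟨s, hs, hsz⟩ := h z (h2 hz)
        rw [Submodule.mem_sup] at hsz
        obtain ⟨a, ha, b, hb, hab⟩ := hsz
        rw [Ideal.mem_span_singleton'] at hb
        obtain ⟨c, rfl⟩ := hb
        have hc : c ∈ P' := by
          have : c * t ∈ P' := by
            have : c * t = s * z - a := by rw [← hab]; ring
            rw [this]
            exact sub_mem (P'.mul_mem_left _ hz) (h1 ha)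
          exact (Ideal.IsPrime.mem_or_mem ‹_› this).resolve_right htP'
        obtain ⟨u, hu⟩ := isUnit_of_notMem hs
        have hz' : algebraMap S (Localization.AtPrime Q) z =
            (↑u⁻¹ : Localization.AtPrime Q) * algebraMap S (Localization.AtPrime Q) a +
            (↑u⁻¹ : Localization.AtPrime Q) * (algebraMap S (Localization.AtPrime Q) t *
              algebraMap S (Localization.AtPrime Q) c) := by
          have h3 := congrArg (algebraMap S (Localization.AtPrime Q)) hab
          rw [map_add, map_mul, map_mul, ← hu] at h3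
          have := Units.inv_mul u
          linear_combination (-(algebraMap S (Localization.AtPrime Q) z)) * this -
            (↑u⁻¹ : Localization.AtPrime Q) * h3
        rw [hz']
        refine add_mem (Ideal.mem_sup_left (Ideal.mul_mem_left _ _ (Ideal.mem_map_of_mem _ ha)))
          (Ideal.mem_sup_right (Ideal.mul_mem_left _ _ ?_))
        rw [smul_eq_mul]
        refine Ideal.mul_mem_mul ?_ (Ideal.mem_map_of_mem _ hc)
        rw [← Localization.AtPrime.map_eq_maximalIdeal]
        exact Ideal.mem_map_of_mem _ htQ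
    apply le_antisymm _ h1
    intro z hz
    exact (mem_map_iff hPQ z).1 (hnak (Ideal.mem_map_of_mem _ hz))


theorem codimOne_of [IsNoetherianRing S] {P Q : Ideal S} [P.IsPrime] [Q.IsPrime]
    (hPQ : P ≤ Q) {t : S} (htQ : t ∈ Q) (htP : t ∉ P)
    (h : ∀ z ∈ Q, ∃ s, s ∉ Q ∧ s * z ∈ P ⊔ span {t}) : CodimOne P Q := by
  refine ⟨lt_of_le_of_ne hPQ ?_, ?_⟩
  · rintro rfl
    exact htP htQ
  · intro L hL h1 h2
    have := hL
    exact (eq_or_eq_of_between hPQ htQ h h1 h2.le).resolve_right (ne_of_lt h2)

variable {S' : Type} [CommRing S']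


/-- A3: transport of orders along a ring isomorphism -/
theorem ordAt_equiv (e : S ≃+* S') {P Q : Ideal S} {P' Q' : Ideal S'} [Q.IsPrime] [Q'.IsPrime]
    (hP : ∀ x, e x ∈ P' ↔ x ∈ P) (hQ : ∀ x, e x ∈ Q' ↔ x ∈ Q) (g : S) :
    ordAt P Q g = ordAt P' Q' (e g) := by
  have H : Submonoid.map (e : S →* S') Q.primeCompl = Q'.primeCompl := by
    ext y
    simp only [Submonoid.mem_map]
    constructor
    · rintro ⟨x, hx, rfl⟩
      exact fun hc => hx ((hQ x).1 hc)
    · intro hy
      refine ⟨e.symm y, fun hc => hy ?_, by simp⟩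
      have := (hQ (e.symm y)).2 hc
      simpa using this
  let E : Localization.AtPrime Q ≃+* Localization.AtPrime Q' :=
    IsLocalization.ringEquivOfRingEquiv (M := Q.primeCompl) (T := Q'.primeCompl)
      (Localization.AtPrime Q) (Localization.AtPrime Q') e H
  unfold ordAt
  apply length_quot_equiv E
  rw [Ideal.map_map]
  have hE : ((E : Localization.AtPrime Q →+* Localization.AtPrime Q').comp
      (algebraMap S (Localization.AtPrime Q))) =
      (algebraMap S' (Localization.AtPrime Q')).comp (e : S →+* S') := by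
    ext x
    exact IsLocalization.ringEquivOfRingEquiv_eq H x
  rw [hE, ← Ideal.map_map]
  have hPm : Ideal.map (e : S →+* S') P = P' := by
    ext y
    rw [Ideal.mem_map_iff_of_surjective (e : S →+* S') e.surjective]
    constructor
    · rintro ⟨x, hx, rfl⟩
      exact (hP x).2 hx
    · intro hy
      refine ⟨e.symm y, ?_, by simp⟩
      rw [← hP]
      simpa using hy
  have hm : Ideal.map (e : S →+* S') (P ⊔ span {g}) = P' ⊔ span {e g} := by
    rw [Ideal.map_sup, Ideal.map_span, Set.image_singleton, hPm]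
    rfl
  rw [hm]

lemma ordAt_neg {P Q : Ideal S} [Q.IsPrime] (g : S) : ordAt P Q (-g) = ordAt P Q g := by
  unfold ordAt
  rw [Ideal.span_singleton_neg]


end ord

end Pool.Agent.RCH
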