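import Pool.Agent.RCH.Fin
import Pool.Agent.RCH.Ord
import Pool.Agent.RCH.Ord2
import Pool.Agent.RCH.Homg
import Pool.Agent.RCH.Nil

/-!
# Cells: definitions

A cell of a variety `X` (all weights one): an integral subscheme `V` of `X` and a coordinate `s` such
that the part of `V` where `x_s = 1` is an affine space with coordinates indexed by `σ`.
-/

set_option autoImplicit false

open MvPolynomial

namespace Pool.Agent.RCH

namespace Kc

variable {ι : Type}

/-- A cell: `V` is the closure of the points with coordinates `θ` (polynomials in the variables `σ`),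
with `θ_s = 1` and the variable `a` the coordinate `u a`. -/
structure Cell (X : WVar ι) (σ : Type) where
  /-- the closure of the cell -/
  V : Pt X 1
  /-- the coordinate at infinity -/
  s : ι
  /-- the coordinates -/
  θ : ι → MvPolynomial σ ℂ
  /-- the indices of the variables -/
  u : σ → ι
  hw : ∀ j, X.wt j = 1
  hs : θ s = 1
  hu : ∀ a, θ (u a) = MvPolynomial.X a
  hV : V.I = genIdeal X (fun v : Fin 1 × ι => θ v.2)

namespace Cell

variable {X : WVar ι} {σ : Type} (D : Cell X σ)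

/-- the values on the cell -/
noncomputable def ev : Coord ι 1 →ₐ[ℂ] MvPolynomial σ ℂ := aeval (fun v => D.θ v.2)

@[simp] lemma ev_X (v : Fin 1 × ι) : D.ev (MvPolynomial.X v) = D.θ v.2 := by
  rw [ev, aeval_X]

lemma ev_s : D.ev (MvPolynomial.X (0, D.s)) = 1 := by
  rw [ev_X, D.hs]

lemma mem_V {z : Coord ι 1} {e : Fin 1 → ℕ} (hz : IsWeightedHomogeneous (X.mdeg 1) z e) :
    z ∈ D.V.I ↔ D.ev z = 0 := by
  rw [D.hV]
  exact mem_genIdeal_of_homogeneous X _ hz

lemma aeval_mk (q : Ideal (MvPolynomial σ ℂ)) (z : Coord ι 1) :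
    aeval (fun v : Fin 1 × ι => Ideal.Quotient.mk q (D.θ v.2)) z = Ideal.Quotient.mk q (D.ev z) := by
  have h : (aeval (fun v : Fin 1 × ι => Ideal.Quotient.mk q (D.θ v.2)) :
      Coord ι 1 →ₐ[ℂ] MvPolynomial σ ℂ ⧸ q) = (Ideal.Quotient.mkₐ ℂ q).comp D.ev := by
    ext v
    simp
  rw [h]
  rfl

/-- the point of `X` given by a prime of the polynomial ring -/
noncomputable def pt (q : Ideal (MvPolynomial σ ℂ)) [hq : q.IsPrime] : Pt X 1 :=
  haveI : IsDomain (MvPolynomial σ ℂ ⧸ q) := Ideal.Quotient.isDomain q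
  mkPt X (fun v : Fin 1 × ι => Ideal.Quotient.mk q (D.θ v.2))
    (fun i => ⟨D.s, by
      rw [D.hs, map_one]
      exact one_ne_zero⟩)
    (fun i f hf => by
      have h := D.V.onX i f hf
      rw [D.hV] at h
      exact genIdeal_le_comp X _ (Ideal.Quotient.mkₐ ℂ q) h)

lemma pt_I (q : Ideal (MvPolynomial σ ℂ)) [q.IsPrime] :
    (D.pt q).I = genIdeal X (fun v : Fin 1 × ι => Ideal.Quotient.mk q (D.θ v.2)) := rfl

/-- the homogeneous elements of the ideal of a point of the cell -/
lemma mem_pt (q : Ideal (MvPolynomial σ ℂ)) [q.IsPrime] {z : Coord ι 1} {e : Fin 1 → ℕ}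
    (hz : IsWeightedHomogeneous (X.mdeg 1) z e) : z ∈ (D.pt q).I ↔ D.ev z ∈ q := by
  rw [pt_I, mem_genIdeal_of_homogeneous X _ hz, aeval_mk, Ideal.Quotient.eq_zero_iff_mem]

lemma s_notMem_pt (q : Ideal (MvPolynomial σ ℂ)) [hq : q.IsPrime] :
    (MvPolynomial.X (0, D.s) : Coord ι 1) ∉ (D.pt q).I := by
  rw [D.mem_pt q (isWeightedHomogeneous_X ℂ _ _), ev_s]
  exact fun h => hq.ne_top ((Ideal.eq_top_iff_one q).2 h)

end Cell

end Kc

end Pool.Agent.RCH
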