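import Pool.Agent.RCH.KcNot

/-!
# The cells of the linear spaces
-/

set_option autoImplicit false

open MvPolynomial

namespace Pool.Agent.RCH

namespace Kc

open Kp

variable (S : PlData)

/-- the indices of the coordinates `x_0, x_2, …, x_(2m-2)` -/
def lnFree (m : ℕ) : Finset S.J :=
  Finset.univ.filter fun j => (j : ℕ) < 2 * m ∧ (j : ℕ) % 2 = 0

lemma mem_lnFree {m : ℕ} {j : S.J} : j ∈ lnFree S m ↔ (j : ℕ) < 2 * m ∧ (j : ℕ) % 2 = 0 := by
  simp [lnFree]

/-- the coordinates of the cell -/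
noncomputable def lnTh (m : ℕ) (β : ℂ) (j : S.J) : MvPolynomial (lnFree S m) ℂ :=
  if h : j ∈ lnFree S m then MvPolynomial.X ⟨j, h⟩ else if j = S.x (2 * m) then 1 else
    if j = S.x (2 * S.r + 3) then C β else 0

variable {S}

lemma lnTh_free {m : ℕ} {β : ℂ} (a : lnFree S m) : lnTh S m β a = MvPolynomial.X a := by
  rw [lnTh, dif_pos a.2]

lemma lnTh_s {m : ℕ} (hm : m ≤ S.r + 1) {β : ℂ} : lnTh S m β (S.x (2 * m)) = 1 := by
  rw [lnTh, dif_neg, if_pos rfl]
  rw [mem_lnFree, S.x_val (by omega)]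
  omega

lemma lnTh_3 {m : ℕ} (hm : m ≤ S.r + 1) {β : ℂ} : lnTh S m β (S.x (2 * S.r + 3)) = C β := by
  rw [lnTh, dif_neg, if_neg (S.x_ne (by omega) (by omega) (by omega)), if_pos rfl]
  rw [mem_lnFree, S.x_val (by omega)]
  omega

lemma lnTh_zero {m : ℕ} (hm : m ≤ S.r + 1) {β : ℂ} {j : S.J} (h : (j : ℕ) % 2 = 1 ∨
    2 * m < (j : ℕ)) (h3 : (j : ℕ) ≠ 2 * S.r + 3) : lnTh S m β j = 0 := by
  rw [lnTh, dif_neg (by rw [mem_lnFree]; omega), if_neg (fun h' => by
    rw [S.eq_x (by omega)] at h'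
    omega), if_neg (fun h' => by
    rw [S.eq_x (by omega)] at h'
    omega)]

lemma lnTh_F {m : ℕ} (hm : m ≤ S.r + 1) {β : ℂ}
    (hβ : (m ≤ S.r ∧ β = 0 ∧ ∃ _k : Fin S.t, True) ∨ (m = S.r + 1 ∧ ∃ k, β = S.b k)) :
    eval₂Hom (algebraMap ℂ (MvPolynomial (lnFree S m) ℂ)) (lnTh S m β) S.F = 0 := by
  refine ev_eq_zero_of_mem _ _ (S.F_mem_span le_rfl) ?_
  have h3 := lnTh_3 (S := S) (m := m) hm (β := β)
  have key : ∃ k, eval₂Hom (algebraMap ℂ (MvPolynomial (lnFree S m) ℂ)) (lnTh S m β) (S.q k) = 0 := by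
    rcases hβ with ⟨h1, h2, ⟨k, -⟩⟩ | ⟨h1, ⟨k, h2⟩⟩
    · refine ⟨k, ?_⟩
      have h4 : lnTh S m β (S.x (2 * S.r + 2)) = 0 :=
        lnTh_zero hm (by rw [S.x_val (by omega)]; omega) (by rw [S.x_val (by omega)]; omega)
      rw [PlData.q, map_sub, map_mul, PlData.Y, PlData.Y, eval₂Hom_X', eval₂Hom_X', eval₂Hom_C,
        h3, h4, h2, C_0, mul_zero, sub_zero]
    · refine ⟨k, ?_⟩
      have h4 : lnTh S m β (S.x (2 * S.r + 2)) = 1 := by
        have := lnTh_s (S := S) (m := m) hm (β := β)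
        rwa [show 2 * m = 2 * S.r + 2 by omega] at this
      rw [PlData.q, map_sub, map_mul, PlData.Y, PlData.Y, eval₂Hom_X', eval₂Hom_X', eval₂Hom_C,
        h3, h4, h2, mul_one, MvPolynomial.algebraMap_eq, sub_self]
  rintro p (⟨j, hj, rfl⟩ | hp)
  · rw [eval₂Hom_X']
    rw [PlData.mem_Kf] at hj
    exact lnTh_zero hm (by omega) (by omega)
  · obtain ⟨k, hk⟩ := key
    rw [Set.mem_singleton_iff.1 hp, PlData.ff_last, PlData.ph, map_prod]
    refine Finset.prod_eq_zero (Finset.mem_univ k) ?_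
    rw [map_pow, hk, zero_pow]
    have := S.ha k
    omega

/-- the closure of the cell -/
noncomputable def lnPt {m : ℕ} (hm : m ≤ S.r + 1) {β : ℂ}
    (hβ : (m ≤ S.r ∧ β = 0 ∧ ∃ _k : Fin S.t, True) ∨ (m = S.r + 1 ∧ ∃ k, β = S.b k)) :
    Pt (hyp S.F) 1 :=
  Kp.pt S.F_homog (fun v : Fin 1 × S.J => lnTh S m β v.2)
    (fun _ => ⟨S.x (2 * m), by
      change lnTh S m β (S.x (2 * m)) ≠ 0
      rw [lnTh_s hm]
      exact one_ne_zero⟩)
    (fun _ => lnTh_F hm hβ)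

/-- the cell -/
noncomputable def lnCell {m : ℕ} (hm : m ≤ S.r + 1) {β : ℂ}
    (hβ : (m ≤ S.r ∧ β = 0 ∧ ∃ _k : Fin S.t, True) ∨ (m = S.r + 1 ∧ ∃ k, β = S.b k)) :
    Cell (hyp S.F) (lnFree S m) where
  V := lnPt hm hβ
  s := S.x (2 * m)
  θ := lnTh S m β
  u := fun a => a
  hw := fun _ => rfl
  hs := lnTh_s hm
  hu := lnTh_free
  hV := rfl

/-- the homomorphism onto the coordinate ring of the linear space -/
noncomputable def lnRed (S : PlData) (m : ℕ) (β : ℂ) : Coord S.J 1 →+* Coord S.J 1 :=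
  eval₂Hom C fun v => if v.2 ∈ lnFree S m then MvPolynomial.X v else
    if v.2 = S.x (2 * m) then MvPolynomial.X v else
    if v.2 = S.x (2 * S.r + 3) then C β * MvPolynomial.X (0, S.x (2 * m)) else 0

lemma lnRed_X {m : ℕ} {β : ℂ} (j : S.J) : lnRed S m β (MvPolynomial.X (0, j)) =
    if j ∈ lnFree S m then MvPolynomial.X (0, j) else
    if j = S.x (2 * m) then MvPolynomial.X (0, j) else
    if j = S.x (2 * S.r + 3) then C β * MvPolynomial.X (0, S.x (2 * m)) else 0 := by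
  rw [lnRed, eval₂Hom_X']

/-- the elements of the ideal of the cell are killed -/
lemma lnRed_eq_zero {m : ℕ} (hm : m ≤ S.r + 1) {β : ℂ}
    (hβ : (m ≤ S.r ∧ β = 0 ∧ ∃ _k : Fin S.t, True) ∨ (m = S.r + 1 ∧ ∃ k, β = S.b k))
    {z : Coord S.J 1} (hz : z ∈ (lnPt hm hβ).I) : lnRed S m β z = 0 := by
  set K := FractionRing (Coord S.J 1) with hK
  have hinj : Function.Injective (algebraMap (Coord S.J 1) K) := IsFractionRing.injective _ _
  set φ : Coord S.J 1 →+* K := (algebraMap (Coord S.J 1) K).comp (lnRed S m β) with hφ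
  have hφ0 : ∀ z, φ z = 0 ↔ lnRed S m β z = 0 := fun z => by
    rw [hφ, RingHom.comp_apply, map_eq_zero_iff _ hinj]
  rw [← hφ0]
  have hfree : S.x (2 * m) ∉ lnFree S m := by
    rw [mem_lnFree, S.x_val (by omega)]
    omega
  have hXs : φ (MvPolynomial.X (0, S.x (2 * m))) ≠ 0 := by
    rw [Ne, hφ0, lnRed_X, if_neg hfree, if_pos rfl]
    exact MvPolynomial.X_ne_zero _
  set w : K := φ (MvPolynomial.X (0, S.x (2 * m))) with hw
  set γ : MvPolynomial (lnFree S m) ℂ →+* K :=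
    eval₂Hom (cs φ) (fun a => w⁻¹ * xs φ 0 a) with hγ
  have hc : ∀ a : ℂ, γ (algebraMap ℂ _ a) = cs φ a := fun a => by
    rw [MvPolynomial.algebraMap_eq, hγ, eval₂Hom_C]
  refine kill_gen S.F (fun v : Fin 1 × S.J => lnTh S m β v.2) φ γ (fun _ => w) hc ?_ hz
  intro l j
  have hl : l = 0 := Subsingleton.elim _ _
  subst hl
  change xs φ 0 j = γ (lnTh S m β j) * w
  by_cases hf : j ∈ lnFree S m
  · have e : lnTh S m β j = MvPolynomial.X ⟨j, hf⟩ := dif_pos hf
    rw [e, hγ, eval₂Hom_X', mul_comm, mul_inv_cancel_left₀ hXs]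
  by_cases hs : j = S.x (2 * m)
  · subst hs
    rw [lnTh_s hm, map_one, one_mul]
    rfl
  by_cases h3 : j = S.x (2 * S.r + 3)
  · subst h3
    rw [lnTh_3 hm]
    have h4 := hc β
    rw [MvPolynomial.algebraMap_eq] at h4
    rw [h4]
    change φ (MvPolynomial.X (0, S.x (2 * S.r + 3))) = φ (C β) * w
    rw [hw, ← map_mul, hφ, RingHom.comp_apply, RingHom.comp_apply]
    congr 1
    rw [map_mul, lnRed_X, lnRed_X, if_neg hf, if_neg hs, if_pos rfl, if_neg hfree, if_pos rfl]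
    congr 1
    rw [lnRed, eval₂Hom_C]
  · have e : lnTh S m β j = 0 := by
      rw [lnTh, dif_neg hf, if_neg hs, if_neg h3]
    rw [e, map_zero, zero_mul]
    change φ (MvPolynomial.X (0, j)) = 0
    rw [hφ0, lnRed_X, if_neg hf, if_neg hs, if_neg h3]

/-- criterion for the ideal of the closure of the cell -/
lemma lnPt_I_eq {m : ℕ} (hm : m ≤ S.r + 1) {β : ℂ}
    (hβ : (m ≤ S.r ∧ β = 0 ∧ ∃ _k : Fin S.t, True) ∨ (m = S.r + 1 ∧ ∃ k, β = S.b k))
    (I : Ideal (Coord S.J 1))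
    (h1 : I ≤ (lnPt hm hβ).I)
    (h2 : ∀ j, j ∉ lnFree S m → j ≠ S.x (2 * m) → j ≠ S.x (2 * S.r + 3) →
      (MvPolynomial.X (0, j) : Coord S.J 1) ∈ I)
    (h3 : m ≤ S.r + 1 → (MvPolynomial.X (0, S.x (2 * S.r + 3)) -
      C β * MvPolynomial.X (0, S.x (2 * m)) : Coord S.J 1) ∈ I) :
    (lnPt hm hβ).I = I := by
  refine le_antisymm (fun z hz => ?_) h1
  have h4 : (Ideal.Quotient.mk I) = (Ideal.Quotient.mk I).comp (lnRed S m β) := by
    apply MvPolynomial.ringHom_ext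
    · intro a
      simp [lnRed]
    · rintro ⟨l, j⟩
      have hl : l = 0 := Subsingleton.elim _ _
      subst hl
      rw [RingHom.comp_apply, lnRed_X]
      split_ifs with hf hs h3'
      · rfl
      · rfl
      · subst h3'
        rw [← sub_eq_zero, ← map_sub, Ideal.Quotient.eq_zero_iff_mem]
        exact h3 hm
      · rw [map_zero, Ideal.Quotient.eq_zero_iff_mem]
        exact h2 j hf hs h3'
  have h5 := congrArg (fun ψ => ψ z) h4
  simp only [RingHom.comp_apply] at h5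
  rw [lnRed_eq_zero hm hβ hz, map_zero, Ideal.Quotient.eq_zero_iff_mem] at h5
  exact h5

variable (S)

/-- the cell `x_(2r+2) ≠ 0` of the `k`-th linear space -/
theorem exists_cell_pl (k : Fin S.t) :
    ∃ (σ : Type) (_ : Fintype σ) (_ : DecidableEq σ) (D : Cell (hyp S.F) σ),
      D.V = S.pl k ∧ D.s = S.x (2 * S.r + 2) := by
  have hβ : (S.r + 1 ≤ S.r ∧ S.b k = 0 ∧ ∃ _k : Fin S.t, True) ∨
      (S.r + 1 = S.r + 1 ∧ ∃ k', S.b k = S.b k') := Or.inr ⟨rfl, k, rfl⟩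
  refine ⟨lnFree S (S.r + 1), inferInstance, inferInstance, lnCell le_rfl hβ, ?_, rfl⟩
  apply Pt.ext'
  refine (lnPt_I_eq le_rfl hβ (S.pl k).I ?_ ?_ ?_)
  · rw [S.pl_I_eq]
    refine Ideal.span_le.2 ?_
    rintro w (⟨i, hi, rfl⟩ | hw)
    · refine (X_mem_gen S.F _ _).2 ?_
      exact lnTh_zero le_rfl (by rw [cx_val _ (by omega)]; omega)
        (by rw [cx_val _ (by omega)]; omega)
    · rw [Set.mem_insert_iff, Set.mem_singleton_iff] at hw
      rcases hw with rfl | rfl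
      · refine (X_mem_gen S.F _ _).2 ?_
        exact lnTh_zero le_rfl (by rw [cx_val _ (by omega)]; omega)
          (by rw [cx_val _ (by omega)]; omega)
      · refine (mem_gen S.F _ (S.lin_homog (S.b k))).2 ?_
        rw [map_sub, map_mul, aeval_X, aeval_X, aeval_C]
        have e3 := lnTh_3 (S := S) (m := S.r + 1) le_rfl (β := S.b k)
        have e2 := lnTh_s (S := S) (m := S.r + 1) le_rfl (β := S.b k)
        change lnTh S (S.r + 1) (S.b k) (S.x (2 * S.r + 3)) - _ *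
          lnTh S (S.r + 1) (S.b k) (S.x (2 * S.r + 2)) = 0
        rw [e3, show 2 * S.r + 2 = 2 * (S.r + 1) by ring, e2, mul_one,
          MvPolynomial.algebraMap_eq, sub_self]
  · intro j hf hs h3
    rw [S.pl_I_eq]
    refine Ideal.subset_span ?_
    rw [mem_lnFree] at hf
    have hlt := j.2
    rw [Ne, S.eq_x (by omega)] at hs h3
    by_cases h4 : (j : ℕ) = 2 * S.r + 4
    · have e : j = S.x (2 * S.r + 4) := (S.eq_x (by omega)).2 h4
      exact Or.inr (Or.inl (by rw [e]; rfl))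
    · have e : j = S.x (2 * ((j : ℕ) / 2) + 1) := (S.eq_x (by omega)).2 (by omega)
      exact Or.inl ⟨(j : ℕ) / 2, by omega,
        congrArg (fun l => (MvPolynomial.X (0, l) : Coord S.J 1)) e⟩
  · intro _
    rw [S.pl_I_eq]
    exact Ideal.subset_span (Or.inr (Or.inr rfl))

/-- the cell `x_(2j) ≠ 0` of the linear space of dimension `j` -/
theorem exists_cell_lin {j : ℕ} (hj : j ≤ S.r) :
    ∃ (σ : Type) (_ : Fintype σ) (_ : DecidableEq σ) (D : Cell (hyp S.F) σ),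
      D.V.I = linIdeal S.r j ∧ D.s = S.x (2 * j) := by
  have hk : ∃ _k : Fin S.t, True := by
    rcases Nat.eq_zero_or_pos S.t with h | h
    · exfalso
      have h1 := S.hsum
      have : IsEmpty (Fin S.t) := by
        rw [h]
        infer_instance
      rw [Finset.univ_eq_empty, Finset.sum_empty] at h1
      omega
    · exact ⟨⟨0, h⟩, trivial⟩
  have hβ : (j ≤ S.r ∧ (0 : ℂ) = 0 ∧ ∃ _k : Fin S.t, True) ∨
      (j = S.r + 1 ∧ ∃ k', (0 : ℂ) = S.b k') := Or.inl ⟨hj, rfl, hk⟩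
  refine ⟨lnFree S j, inferInstance, inferInstance, lnCell (by omega) hβ, ?_, rfl⟩
  refine (lnPt_I_eq (by omega) hβ (linIdeal S.r j) ?_ ?_ ?_)
  · refine Ideal.span_le.2 ?_
    rintro w ⟨l, hl, h, rfl⟩
    refine (X_mem_gen S.F _ _).2 ?_
    by_cases h3 : l = 2 * S.r + 3
    · subst h3
      exact (lnTh_3 (by omega)).trans C_0
    · exact lnTh_zero (by omega) (by rw [cx_val _ (by omega)]; omega)
        (by rw [cx_val _ (by omega)]; omega)
  · intro i hf hs h3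
    refine Ideal.subset_span ?_
    rw [mem_lnFree] at hf
    have hlt := i.2
    rw [Ne, S.eq_x (by omega)] at hs h3
    exact ⟨i, hlt, by omega, congrArg (fun l => (MvPolynomial.X (0, l) : Coord S.J 1))
      (cx_of S.r i).symm⟩
  · intro _
    rw [C_0, zero_mul, sub_zero]
    exact Ideal.subset_span ⟨2 * S.r + 3, by omega, by omega, rfl⟩

end Kc

end Pool.Agent.RCH
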