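import Pool.Agent.RCH.KcDefs
import Pool.Agent.RCH.KpFin

/-!
# The standard cycles on the hyperplane section `x_(2r+4) = 0`
-/

set_option autoImplicit false

open MvPolynomial

namespace Pool.Agent.RCH

namespace Kc

open Kp

/-- The ideal of the linear section of the hypersurface `F = 0` by `x_(2r+4) = 0` and
`x_(2l+1) = 0` for `l < i`. -/
noncomputable def secIdeal (r : ℕ) (F : MvPolynomial (Fin (2 * r + 5)) ℂ) (i : ℕ) :
    Ideal (Coord (Fin (2 * r + 5)) 1) :=
  Ideal.span ({z | ∃ l < i, z = MvPolynomial.X (0, cx r (2 * l + 1))} ∪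
    {MvPolynomial.X (0, cx r (2 * r + 4)), inFactor 1 0 F})

/-- The ideal of the linear space in which all coordinates except `x_0, x_2, …, x_(2j)` are zero. -/
noncomputable def linIdeal (r j : ℕ) : Ideal (Coord (Fin (2 * r + 5)) 1) :=
  Ideal.span {z | ∃ l < 2 * r + 5, (l % 2 = 1 ∨ 2 * j < l) ∧ z = MvPolynomial.X (0, cx r l)}

/-- The ideals of the standard cycles of dimension `j = 0, …, 2r + 2` on the section `x_(2r+4) = 0` of
`F = 0`: for `j ≤ r` the linear space of the coordinates `x_0, x_2, …, x_(2j)`, for `j = r + 1` the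
linear space of slope `β`, for `j > r + 1` the section of `F = 0` by `x_(2r+4) = 0` and
`x_(2l+1) = 0`, `l < 2r + 2 - j`. -/
noncomputable def stdIdeal (r : ℕ) (F : MvPolynomial (Fin (2 * r + 5)) ℂ) (β : ℂ) (j : ℕ) :
    Ideal (Coord (Fin (2 * r + 5)) 1) :=
  if j ≤ r then linIdeal r j else if j = r + 1 then spaceIdeal r β else
    secIdeal r F (2 * r + 2 - j)

end Kc

end Pool.Agent.RCH
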