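import Pool.Agent.RCH.KcNot

/-!
# The cells of the linear sections
-/

set_option autoImplicit false

open MvPolynomial

namespace Pool.Agent.RCH

namespace Kc

open Kp

variable (S : PlData)

/-- the indices of the free coordinates of the `i`-th cell -/
def secFree (i : ℕ) : Finset S.J :=
  Finset.univ.filter fun j => ((j : ℕ) < 2 * i ∧ (j : ℕ) % 2 = 0) ∨
    (2 * i + 2 ≤ (j : ℕ) ∧ (j : ℕ) ≤ 2 * S.r + 3)

lemma mem_secFree {i : ℕ} {j : S.J} : j ∈ secFree S i ↔ ((j : ℕ) < 2 * i ∧ (j : ℕ) % 2 = 0) ∨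
    (2 * i + 2 ≤ (j : ℕ) ∧ (j : ℕ) ≤ 2 * S.r + 3) := by
  simp [secFree]

/-- the coordinates except the one which is solved for -/
noncomputable def secTh0 (i : ℕ) (j : S.J) : MvPolynomial (secFree S i) ℂ :=
  if h : j ∈ secFree S i then MvPolynomial.X ⟨j, h⟩ else if j = S.x (2 * i + 1) then 1 else 0

/-- the coordinates -/
noncomputable def secTh (i : ℕ) (j : S.J) : MvPolynomial (secFree S i) ℂ :=
  if j = S.x (2 * i) then - (eval₂Hom (algebraMap ℂ (MvPolynomial (secFree S i) ℂ)) (secTh0 S i)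
    (S.g i) + eval₂Hom (algebraMap ℂ (MvPolynomial (secFree S i) ℂ)) (secTh0 S i) (S.ff (i + 1)))
  else secTh0 S i j

variable {S}

lemma secTh0_free {i : ℕ} (a : secFree S i) : secTh0 S i a = MvPolynomial.X a := by
  rw [secTh0, dif_pos a.2]

lemma secTh0_s {i : ℕ} (hi : i ≤ S.r) : secTh0 S i (S.x (2 * i + 1)) = 1 := by
  rw [secTh0, dif_neg, if_pos rfl]
  rw [mem_secFree, S.x_val (by omega)]
  omega

lemma secTh_of_ne {i : ℕ} (hi : i ≤ S.r) {j : S.J} (hj : (j : ℕ) ≠ 2 * i) :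
    secTh S i j = secTh0 S i j := by
  rw [secTh, if_neg]
  rw [S.eq_x (by omega)]
  exact hj

lemma secTh_free {i : ℕ} (hi : i ≤ S.r) (a : secFree S i) : secTh S i a = MvPolynomial.X a := by
  rw [secTh_of_ne hi, secTh0_free]
  have := (mem_secFree S).1 a.2
  omega

lemma secTh_s {i : ℕ} (hi : i ≤ S.r) : secTh S i (S.x (2 * i + 1)) = 1 := by
  rw [secTh_of_ne hi, secTh0_s hi]
  rw [S.x_val (by omega)]
  omega

lemma secTh_kill {i : ℕ} (hi : i ≤ S.r) {j : S.J} (hj : j ∈ S.Kf i) : secTh S i j = 0 := by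
  rw [PlData.mem_Kf] at hj
  rw [secTh_of_ne hi (by omega), secTh0, dif_neg, if_neg]
  · rw [S.eq_x (by omega)]
    omega
  · rw [mem_secFree]
    omega

/-- a function of the coordinates `x_(2i+1), …, x_(2r+3)` -/
lemma sec_congr {i : ℕ} (hi : i ≤ S.r) {p : MvPolynomial S.J ℂ}
    (hp : ∀ j ∈ p.vars, 2 * i + 1 ≤ (j : ℕ) ∧ (j : ℕ) ≤ 2 * S.r + 3) :
    eval₂Hom (algebraMap ℂ (MvPolynomial (secFree S i) ℂ)) (secTh S i) p =
      eval₂Hom (algebraMap ℂ (MvPolynomial (secFree S i) ℂ)) (secTh0 S i) p :=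
  ev_congr _ _ fun j hj => secTh_of_ne hi (by have := hp j hj; omega)

lemma sec_g_vars {i : ℕ} (hi : i ≤ S.r) : ∀ j ∈ (S.g i).vars,
    2 * i + 1 ≤ (j : ℕ) ∧ (j : ℕ) ≤ 2 * S.r + 3 := fun j hj => S.hgv i hi j hj

lemma sec_ff_vars {i : ℕ} (hi : i ≤ S.r) : ∀ j ∈ (S.ff (i + 1)).vars,
    2 * i + 1 ≤ (j : ℕ) ∧ (j : ℕ) ≤ 2 * S.r + 3 := fun j hj => by
  have := S.ff_vars (i := i + 1) (by omega) hj
  omega

lemma secTh_F {i : ℕ} (hi : i ≤ S.r) :
    eval₂Hom (algebraMap ℂ (MvPolynomial (secFree S i) ℂ)) (secTh S i) S.F = 0 := by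
  refine ev_eq_zero_of_mem _ _ (S.F_mem_span (i := i) (by omega)) ?_
  rintro p (⟨j, hj, rfl⟩ | hp)
  · rw [eval₂Hom_X', secTh_kill hi hj]
  · rw [Set.mem_singleton_iff] at hp
    subst hp
    rw [S.ff_eq' hi]
    simp only [map_add, map_mul, map_pow, PlData.Y, eval₂Hom_X']
    rw [secTh_s hi, sec_congr hi (sec_g_vars hi), sec_congr hi (sec_ff_vars hi), secTh, if_pos rfl]
    ring

/-- the closure of the `i`-th cell -/
noncomputable def secPt {i : ℕ} (hi : i ≤ S.r) : Pt (hyp S.F) 1 :=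
  Kp.pt S.F_homog (fun v : Fin 1 × S.J => secTh S i v.2)
    (fun _ => ⟨S.x (2 * i + 1), by
      change secTh S i (S.x (2 * i + 1)) ≠ 0
      rw [secTh_s hi]
      exact one_ne_zero⟩)
    (fun _ => secTh_F hi)

/-- the `i`-th cell -/
noncomputable def secCell {i : ℕ} (hi : i ≤ S.r) : Cell (hyp S.F) (secFree S i) where
  V := secPt hi
  s := S.x (2 * i + 1)
  θ := secTh S i
  u := fun a => a
  hw := fun _ => rfl
  hs := secTh_s hi
  hu := secTh_free hi
  hV := rfl

/-- the killed coordinates set to zero -/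
noncomputable def secKill (S : PlData) (i : ℕ) : Coord S.J 1 →+* Coord S.J 1 :=
  eval₂Hom C fun v => if v.2 ∈ S.Kf i then 0 else MvPolynomial.X v

lemma X_mem_secIdeal {i : ℕ} {j : S.J} (hj : j ∈ S.Kf i) :
    (MvPolynomial.X (0, j) : Coord S.J 1) ∈ secIdeal S.r S.F i := by
  rw [PlData.mem_Kf] at hj
  refine Ideal.subset_span ?_
  have hlt := j.2
  rcases hj with h | ⟨h1, h2⟩
  · have e : j = S.x (2 * S.r + 4) := (S.eq_x (by omega)).2 h
    exact Or.inr (Or.inl (by rw [e]; rfl))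
  · have e : j = S.x (2 * ((j : ℕ) / 2) + 1) := (S.eq_x (by omega)).2 (by omega)
    exact Or.inl ⟨(j : ℕ) / 2, by omega,
      congrArg (fun l => (MvPolynomial.X (0, l) : Coord S.J 1)) e⟩

lemma sub_secKill {i : ℕ} (z : Coord S.J 1) : z - secKill S i z ∈ secIdeal S.r S.F i := by
  rw [← Ideal.Quotient.eq_zero_iff_mem, map_sub, sub_eq_zero]
  have h : (Ideal.Quotient.mk (secIdeal S.r S.F i)) =
      (Ideal.Quotient.mk (secIdeal S.r S.F i)).comp (secKill S i) := by
    apply MvPolynomial.ringHom_ext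
    · intro a
      simp [secKill]
    · rintro ⟨l, j⟩
      have hl : l = 0 := Subsingleton.elim _ _
      subst hl
      rw [RingHom.comp_apply, secKill, eval₂Hom_X']
      split_ifs with hj
      · rw [map_zero, Ideal.Quotient.eq_zero_iff_mem]
        exact X_mem_secIdeal hj
      · rfl
  exact congrArg (fun ψ => ψ z) h

lemma ff_mem_secIdeal {i : ℕ} (hi : i ≤ S.r) :
    inFactor 1 0 (S.ff i) ∈ secIdeal S.r S.F i := by
  have h1 : inFactor 1 0 (S.F - S.ff i) ∈ secIdeal S.r S.F i := by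
    have h2 : Ideal.span (XS (S.Kf i)) ≤
        (secIdeal S.r S.F i).comap (inFactor 1 (0 : Fin 1)).toRingHom := by
      refine Ideal.span_le.2 ?_
      rintro p ⟨j, hj, rfl⟩
      change inFactor 1 0 (MvPolynomial.X j) ∈ secIdeal S.r S.F i
      have h3 : inFactor 1 (0 : Fin 1) (MvPolynomial.X j : MvPolynomial S.J ℂ) =
          MvPolynomial.X (0, j) := by simp [inFactor]
      rw [h3]
      exact X_mem_secIdeal hj
    exact h2 (S.F_sub_ff (by omega))
  have h4 : inFactor 1 0 S.F ∈ secIdeal S.r S.F i := Ideal.subset_span (Or.inr (Or.inr rfl))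
  have h5 := sub_mem h4 h1
  rwa [map_sub, sub_sub_cancel] at h5

lemma secKill_X {i : ℕ} (j : S.J) : secKill S i (MvPolynomial.X (0, j)) =
    if j ∈ S.Kf i then 0 else MvPolynomial.X (0, j) := by
  rw [secKill, eval₂Hom_X']

lemma secKill_ff {i : ℕ} (hi : i ≤ S.r) :
    secKill S i (inFactor 1 0 (S.ff i)) = inFactor 1 0 (S.ff i) := by
  rw [map_inFactor]
  have h := map_inFactor (RingHom.id (Coord S.J 1)) 0 (S.ff i)
  rw [RingHom.id_apply] at h
  rw [h]
  have hc : cs (secKill S i) = cs (RingHom.id (Coord S.J 1)) := by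
    ext a
    simp [cs, secKill]
  rw [hc]
  refine ev_congr _ _ fun j hj => ?_
  have h1 := S.ff_vars (i := i) (by omega) hj
  change secKill S i (MvPolynomial.X (0, j)) = MvPolynomial.X (0, j)
  rw [secKill_X, if_neg]
  rw [PlData.mem_Kf]
  omega

lemma prime_inFactor {p : MvPolynomial S.J ℂ} (hp : Prime p) :
    Prime (inFactor 1 (0 : Fin 1) p) := by
  have e : inFactor 1 (0 : Fin 1) p =
      (renameEquiv ℂ (Equiv.uniqueProd S.J (Fin 1)).symm) p := by
    rw [renameEquiv_apply]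
    rfl
  rw [e]
  exact (MulEquiv.prime_iff (renameEquiv ℂ (Equiv.uniqueProd S.J (Fin 1)).symm)).2 hp

lemma sec_solve {K : Type} [Field K] {x w G H : K} {m : ℕ} (hw : w ≠ 0)
    (h : x * w ^ (m + 2) + (w * G + H) = 0) :
    x = - (w⁻¹ ^ (m + 2) * G + w⁻¹ ^ (m + 3) * H) * w := by
  have h1 : w⁻¹ ^ (m + 2) * w ^ (m + 2) = 1 := by
    rw [← mul_pow, inv_mul_cancel₀ hw, one_pow]
  have h2 : w⁻¹ * w = 1 := inv_mul_cancel₀ hw
  have h3 : x = w⁻¹ ^ (m + 2) * (x * w ^ (m + 2)) := by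
    rw [mul_left_comm, h1, mul_one]
  rw [h3, eq_neg_of_add_eq_zero_left h]
  have h4 : w⁻¹ ^ (m + 3) * w = w⁻¹ ^ (m + 2) := by
    rw [pow_succ, mul_assoc, h2, mul_one]
  linear_combination H * h4

/-- an element of the ideal of the `i`-th cell is divisible by `f_i` when the killed coordinates are
set to zero -/
lemma dvd_secKill {i : ℕ} (hi : i ≤ S.r) {z : Coord S.J 1} (hz : z ∈ (secPt hi).I) :
    inFactor 1 0 (S.ff i) ∣ secKill S i z := by
  have hp : Prime (inFactor 1 (0 : Fin 1) (S.ff i)) := prime_inFactor (S.ff_prime hi)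
  have hI : (Ideal.span {inFactor 1 (0 : Fin 1) (S.ff i)}).IsPrime :=
    (Ideal.span_singleton_prime hp.ne_zero).2 hp
  have hdom : IsDomain (Coord S.J 1 ⧸ Ideal.span {inFactor 1 (0 : Fin 1) (S.ff i)}) :=
    Ideal.Quotient.isDomain _
  set A := Coord S.J 1 ⧸ Ideal.span {inFactor 1 (0 : Fin 1) (S.ff i)} with hA
  set φ : Coord S.J 1 →+* FractionRing A := (algebraMap A (FractionRing A)).comp
    ((Ideal.Quotient.mk (Ideal.span {inFactor 1 (0 : Fin 1) (S.ff i)})).comp (secKill S i)) with hφ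
  have hinj : Function.Injective (algebraMap A (FractionRing A)) := IsFractionRing.injective _ _
  have hφ0 : ∀ z, φ z = 0 ↔ inFactor 1 0 (S.ff i) ∣ secKill S i z := by
    intro z
    rw [hφ, RingHom.comp_apply, map_eq_zero_iff _ hinj, RingHom.comp_apply,
      Ideal.Quotient.eq_zero_iff_mem, Ideal.mem_span_singleton]
  rw [← hφ0]
  have hXs : φ (MvPolynomial.X (0, S.x (2 * i + 1))) ≠ 0 := by
    rw [Ne, hφ0, secKill_X, if_neg (by rw [S.x_mem_Kf (by omega)]; omega)]
    exact not_dvd_X (n := S.m + 1) ((S.ff_homog i).rename_isHomogeneous) _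
  set w : FractionRing A := φ (MvPolynomial.X (0, S.x (2 * i + 1))) with hw
  have hff : eval₂Hom (cs φ) (xs φ 0) (S.ff i) = 0 := by
    rw [← map_inFactor, hφ0, secKill_ff hi]
  set γ : MvPolynomial (secFree S i) ℂ →+* FractionRing A :=
    eval₂Hom (cs φ) (fun a => w⁻¹ * xs φ 0 a) with hγ
  have hc : ∀ a : ℂ, γ (algebraMap ℂ _ a) = cs φ a := fun a => by
    rw [MvPolynomial.algebraMap_eq, hγ, eval₂Hom_C]
  have hcc : γ.comp (algebraMap ℂ (MvPolynomial (secFree S i) ℂ)) = cs φ := RingHom.ext hc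
  have hval : ∀ (p : MvPolynomial S.J ℂ) (n : ℕ), p.IsHomogeneous n →
      (∀ j ∈ p.vars, 2 * i + 1 ≤ (j : ℕ) ∧ (j : ℕ) ≤ 2 * S.r + 3) →
      γ (eval₂Hom (algebraMap ℂ (MvPolynomial (secFree S i) ℂ)) (secTh0 S i) p) =
        w⁻¹ ^ n * eval₂Hom (cs φ) (xs φ 0) p := by
    intro p n hp hv
    rw [map_ev, hcc, ← ev_smul _ _ hp]
    refine ev_congr _ _ fun j hj => ?_
    have h1 := hv j hj
    by_cases hjs : (j : ℕ) = 2 * i + 1
    · have e : j = S.x (2 * i + 1) := (S.eq_x (by omega)).2 hjs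
      subst e
      rw [secTh0_s hi, map_one]
      exact (inv_mul_cancel₀ hXs).symm
    · have hf : j ∈ secFree S i := by
        rw [mem_secFree]
        omega
      have e := secTh0_free (S := S) ⟨j, hf⟩
      rw [e, hγ, eval₂Hom_X']
  refine kill_gen S.F (fun v : Fin 1 × S.J => secTh S i v.2) φ γ (fun _ => w) hc ?_ hz
  intro l j
  have hl : l = 0 := Subsingleton.elim _ _
  subst hl
  change xs φ 0 j = γ (secTh S i j) * w
  by_cases hjK : j ∈ S.Kf i
  · rw [secTh_kill hi hjK, map_zero, zero_mul, xs, hφ0, secKill_X, if_pos hjK]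
    exact dvd_zero _
  by_cases hj2 : (j : ℕ) = 2 * i
  · have e : j = S.x (2 * i) := (S.eq_x (by omega)).2 hj2
    subst e
    rw [secTh, if_pos rfl, map_neg, map_add, hval _ _ (S.hg i hi) (sec_g_vars hi),
      hval _ _ (S.ff_homog (i + 1)) (sec_ff_vars hi)]
    refine sec_solve hXs ?_
    have e2 := congrArg (eval₂Hom (cs φ) (xs φ 0)) (S.ff_eq' hi)
    rw [hff] at e2
    simp only [map_add, map_mul, map_pow, PlData.Y, eval₂Hom_X'] at e2
    exact e2.symm
  · by_cases hjs : (j : ℕ) = 2 * i + 1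
    · have e : j = S.x (2 * i + 1) := (S.eq_x (by omega)).2 hjs
      subst e
      rw [secTh_s hi, map_one, one_mul]
      rfl
    · have hf : j ∈ secFree S i := by
        have := j.2
        rw [PlData.mem_Kf] at hjK
        rw [mem_secFree]
        omega
      have e := secTh_free hi (⟨j, hf⟩ : secFree S i)
      change xs φ 0 j = γ (secTh S i ((⟨j, hf⟩ : secFree S i) : S.J)) * w
      rw [e, hγ, eval₂Hom_X', mul_comm, mul_inv_cancel_left₀ hXs]

theorem secPt_I {i : ℕ} (hi : i ≤ S.r) : (secPt hi).I = secIdeal S.r S.F i := by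
  apply le_antisymm
  · intro z hz
    have h1 : secKill S i z ∈ secIdeal S.r S.F i := by
      obtain ⟨c, hc⟩ := dvd_secKill hi hz
      rw [hc]
      exact Ideal.mul_mem_right _ _ (ff_mem_secIdeal hi)
    have h2 := add_mem (sub_secKill (i := i) z) h1
    rwa [sub_add_cancel] at h2
  · refine Ideal.span_le.2 ?_
    rintro w (⟨l, hl, rfl⟩ | hw)
    · refine (X_mem_gen S.F _ _).2 (secTh_kill hi ?_)
      exact (S.x_mem_Kf (by omega)).2 (by omega)
    · rw [Set.mem_insert_iff, Set.mem_singleton_iff] at hw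
      rcases hw with rfl | rfl
      · refine (X_mem_gen S.F _ _).2 (secTh_kill hi ?_)
        exact (S.x_mem_Kf (by omega)).2 (by omega)
      · exact (secPt hi).onX 0 S.F (Ideal.mem_span_singleton_self S.F)

variable (S)

theorem exists_cell_sec {i : ℕ} (hi : i ≤ S.r) :
    ∃ (σ : Type) (_ : Fintype σ) (_ : DecidableEq σ) (D : Cell (hyp S.F) σ),
      D.V.I = secIdeal S.r S.F i ∧ D.s = S.x (2 * i + 1) :=
  ⟨secFree S i, inferInstance, inferInstance, secCell hi, secPt_I hi, rfl⟩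

end Kc

end Pool.Agent.RCH
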