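import Pool.Agent.RCH.KcCell
import Pool.Agent.RCH.KcSec
import Pool.Agent.RCH.KcLin

/-!
# The strata of the hyperplane section

Every integral subscheme of the hyperplane section `x_(2r+4) = 0` of the hypersurface is, modulo
rational equivalence, a combination of the linear sections, of the linear spaces `l_k` and of the
coordinate linear spaces.
-/

set_option autoImplicit false

open MvPolynomial

namespace Pool.Agent.RCH

namespace Kc

open Kp

variable (S : PlData)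

/-- the standard cycles -/
def IsStd (Q : Pt (hyp S.F) 1) : Prop :=
  (∃ i ≤ S.r, Q.I = secIdeal S.r S.F i) ∨ (∃ k, Q = S.pl k) ∨ (∃ j ≤ S.r, Q.I = linIdeal S.r j)

/-- the combinations of the standard cycles, modulo rational equivalence -/
noncomputable def stdGroup : AddSubgroup (Cycles (hyp S.F) 1) :=
  RatZero (hyp S.F) 1 ⊔ AddSubgroup.closure
    {c | ∃ Q' : Pt (hyp S.F) 1, c = Finsupp.single Q' 1 ∧ IsStd S Q'}

variable {S}

lemma std_mem {Q : Pt (hyp S.F) 1} (h : IsStd S Q) :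
    (Finsupp.single Q 1 : Cycles (hyp S.F) 1) ∈ stdGroup S :=
  AddSubgroup.mem_sup_right (AddSubgroup.subset_closure ⟨Q, rfl, h⟩)

/-- the step given by a cell -/
lemma of_cell {σ : Type} [Fintype σ] [DecidableEq σ] (D : Cell (hyp S.F) σ)
    (hV : (Finsupp.single D.V 1 : Cycles (hyp S.F) 1) ∈ stdGroup S)
    (h : ∀ Q' : Pt (hyp S.F) 1, D.V.I ≤ Q'.I →
      (MvPolynomial.X (0, D.s) : Coord S.J 1) ∈ Q'.I →
      (Finsupp.single Q' 1 : Cycles (hyp S.F) 1) ∈ stdGroup S)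
    {Q : Pt (hyp S.F) 1} (hQ : D.V.I ≤ Q.I) :
    (Finsupp.single Q 1 : Cycles (hyp S.F) 1) ∈ stdGroup S := by
  by_cases hs : (MvPolynomial.X (0, D.s) : Coord S.J 1) ∈ Q.I
  · exact h Q hQ hs
  · have h1 := D.cell_theorem Q hQ hs
    refine (sup_le le_sup_left ?_ : _ ≤ stdGroup S) h1
    rw [AddSubgroup.closure_le]
    rintro c (hc | ⟨Q', rfl, h2, h3⟩)
    · rw [Set.mem_singleton_iff] at hc
      rw [hc]
      exact hV
    · exact h Q' h2 h3

/-! ### The coordinate linear spaces -/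

lemma X_mem_of_lin {j : ℕ} {Q : Pt (hyp S.F) 1} (h : linIdeal S.r j ≤ Q.I) {l : ℕ}
    (hl : l < 2 * S.r + 5) (hl2 : l % 2 = 1 ∨ 2 * j < l) :
    (MvPolynomial.X (0, S.x l) : Coord S.J 1) ∈ Q.I :=
  h (Ideal.subset_span ⟨l, hl, hl2, rfl⟩)

lemma lin_zero {Q : Pt (hyp S.F) 1} (h : linIdeal S.r 0 ≤ Q.I) :
    (MvPolynomial.X (0, S.x 0) : Coord S.J 1) ∉ Q.I := by
  intro h0
  obtain ⟨j, hj⟩ := Q.relevant 0
  apply hj
  have hx : j = S.x (j : ℕ) := (S.eq_x j.2).2 rfl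
  rw [hx]
  rcases Nat.eq_zero_or_pos (j : ℕ) with hl | hl
  · rw [hl]
    exact h0
  · exact X_mem_of_lin h j.2 (Or.inr (by omega))

lemma lin_mem : ∀ {j : ℕ}, j ≤ S.r → ∀ {Q : Pt (hyp S.F) 1}, linIdeal S.r j ≤ Q.I →
    (Finsupp.single Q 1 : Cycles (hyp S.F) 1) ∈ stdGroup S := by
  intro j
  induction j with
  | zero =>
    intro hj Q hQ
    obtain ⟨σ, _, _, D, hV, hs⟩ := exists_cell_lin S hj
    refine of_cell D (std_mem (Or.inr (Or.inr ⟨0, hj, hV⟩))) (fun Q' h1 h2 => ?_) (hV.trans_le hQ)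
    rw [hs] at h2
    exact absurd h2 (lin_zero (hV.ge.trans h1))
  | succ j ih =>
    intro hj Q hQ
    obtain ⟨σ, _, _, D, hV, hs⟩ := exists_cell_lin S hj
    refine of_cell D (std_mem (Or.inr (Or.inr ⟨j + 1, hj, hV⟩))) (fun Q' h1 h2 => ?_)
      (hV.trans_le hQ)
    rw [hs] at h2
    refine ih (by omega) (Ideal.span_le.2 ?_)
    rintro z ⟨l, hl, hl2, rfl⟩
    by_cases h3 : l = 2 * (j + 1)
    · subst h3
      exact h2
    · exact X_mem_of_lin (hV.ge.trans h1) hl (by omega)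

/-! ### The last section -/

/-- the coordinates `x_(2r+4)`, `x_(2l+1)`, `l < i` are in the ideal of the point -/
def Lev (i : ℕ) (Q : Pt (hyp S.F) 1) : Prop :=
  (MvPolynomial.X (0, S.x (2 * S.r + 4)) : Coord S.J 1) ∈ Q.I ∧
    ∀ l < i, (MvPolynomial.X (0, S.x (2 * l + 1)) : Coord S.J 1) ∈ Q.I

lemma F_mem (Q : Pt (hyp S.F) 1) : inFactor 1 0 S.F ∈ Q.I :=
  Q.onX 0 S.F (Ideal.subset_span rfl)

lemma inFactor_Y (j : ℕ) : inFactor 1 0 (S.Y j) = (MvPolynomial.X (0, S.x j) : Coord S.J 1) := by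
  rw [PlData.Y, inFactor, rename_X]

lemma ff_mem : ∀ {i : ℕ}, i ≤ S.r + 1 → ∀ {Q : Pt (hyp S.F) 1}, Lev i Q →
    inFactor 1 0 (S.ff i) ∈ Q.I := by
  intro i
  induction i with
  | zero =>
    intro _ Q hQ
    have h := F_mem Q
    have e := congrArg (inFactor 1 0) S.F_eq
    rw [map_add, map_mul, inFactor_Y] at e
    rw [e] at h
    exact (Ideal.add_mem_iff_left _ (Q.I.mul_mem_right _ hQ.1)).1 h
  | succ i ih =>
    intro hi Q hQ
    have h := ih (by omega) (Q := Q) ⟨hQ.1, fun l hl => hQ.2 l (by omega)⟩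
    rw [S.ff_eq (by omega), map_add] at h
    refine (Ideal.add_mem_iff_right _ ?_).1 h
    have h1 := hQ.2 i (by omega)
    rw [PlData.te, map_add, map_mul, map_mul, map_pow, inFactor_Y, inFactor_Y]
    exact add_mem (Q.I.mul_mem_left _ (Ideal.pow_mem_of_mem _ h1 _ (by omega)))
      (Q.I.mul_mem_right _ h1)

lemma exists_space {Q : Pt (hyp S.F) 1} (hQ : Lev (S.r + 1) Q) : ∃ k, (S.pl k).I ≤ Q.I := by
  have hp := Q.prime
  have h := ff_mem le_rfl hQ
  rw [S.ff_last, PlData.ph, map_prod] at h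
  obtain ⟨k, -, hk⟩ := (Ideal.IsPrime.prod_mem_iff (hp := hp)).1 h
  rw [map_pow] at hk
  have h1 := hp.mem_of_pow_mem _ hk
  rw [PlData.q, map_sub, map_mul, inFactor_Y, inFactor_Y] at h1
  have hC : (inFactor 1 0 (C (S.b k)) : Coord S.J 1) = C (S.b k) := by
    rw [inFactor, rename_C]
  rw [hC] at h1
  refine ⟨k, ?_⟩
  rw [S.pl_I_eq]
  refine Ideal.span_le.2 ?_
  rintro w (⟨i, hi, rfl⟩ | hw)
  · exact hQ.2 i (by omega)
  · rw [Set.mem_insert_iff, Set.mem_singleton_iff] at hw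
    rcases hw with rfl | rfl
    · exact hQ.1
    · exact h1

lemma lev_last {Q : Pt (hyp S.F) 1} (hQ : Lev (S.r + 1) Q) :
    (Finsupp.single Q 1 : Cycles (hyp S.F) 1) ∈ stdGroup S := by
  obtain ⟨k, hk⟩ := exists_space hQ
  obtain ⟨σ, _, _, D, hV, hs⟩ := exists_cell_pl S k
  refine of_cell D (std_mem (Or.inr (Or.inl ⟨k, hV⟩))) (fun Q' h1 h2 => ?_) (by rw [hV]; exact hk)
  rw [hV, S.pl_I_eq] at h1
  rw [hs] at h2
  refine lin_mem le_rfl (Ideal.span_le.2 ?_)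
  rintro z ⟨l, hl, hl2, rfl⟩
  have hgen : ∀ w ∈ ({z | ∃ i ≤ S.r, z = MvPolynomial.X (0, cx S.r (2 * i + 1))} ∪
      {MvPolynomial.X (0, cx S.r (2 * S.r + 4)), MvPolynomial.X (0, cx S.r (2 * S.r + 3)) -
        C (S.b k) * MvPolynomial.X (0, cx S.r (2 * S.r + 2))} : Set (Coord S.J 1)), w ∈ Q'.I :=
    fun w hw => h1 (Ideal.subset_span hw)
  by_cases hl3 : l = 2 * S.r + 2
  · subst hl3
    exact h2
  · by_cases hl4 : l = 2 * S.r + 4
    · subst hl4
      exact hgen _ (Or.inr (Or.inl rfl))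
    · by_cases hl5 : l = 2 * S.r + 3
      · subst hl5
        have h3 := hgen _ (Or.inr (Or.inr rfl))
        have h4 := add_mem h3 (Q'.I.mul_mem_left (C (S.b k)) h2)
        rwa [PlData.x, sub_add_cancel] at h4
      · obtain ⟨i, rfl⟩ : ∃ i, l = 2 * i + 1 := ⟨l / 2, by omega⟩
        exact hgen _ (Or.inl ⟨i, by omega, rfl⟩)

lemma sec_le {i : ℕ} {Q : Pt (hyp S.F) 1} (hQ : Lev i Q) : secIdeal S.r S.F i ≤ Q.I := by
  refine Ideal.span_le.2 ?_
  rintro w (⟨l, hl, rfl⟩ | hw)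
  · exact hQ.2 l hl
  · rw [Set.mem_insert_iff, Set.mem_singleton_iff] at hw
    rcases hw with rfl | rfl
    · exact hQ.1
    · exact F_mem Q

lemma lev_of_sec {i : ℕ} {Q : Pt (hyp S.F) 1} (h : secIdeal S.r S.F i ≤ Q.I) : Lev i Q :=
  ⟨h (Ideal.subset_span (Or.inr (Or.inl rfl))),
    fun l hl => h (Ideal.subset_span (Or.inl ⟨l, hl, rfl⟩))⟩

lemma lev_mem : ∀ {k i : ℕ}, i + k = S.r + 1 → ∀ {Q : Pt (hyp S.F) 1}, Lev i Q →
    (Finsupp.single Q 1 : Cycles (hyp S.F) 1) ∈ stdGroup S := by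
  intro k
  induction k with
  | zero =>
    intro i hi Q hQ
    rw [add_zero] at hi
    subst hi
    exact lev_last hQ
  | succ k ih =>
    intro i hi Q hQ
    obtain ⟨σ, _, _, D, hV, hs⟩ := exists_cell_sec S (i := i) (by omega)
    refine of_cell D (std_mem (Or.inl ⟨i, by omega, hV⟩)) (fun Q' h1 h2 => ?_)
      (hV.trans_le (sec_le hQ))
    rw [hV] at h1
    rw [hs] at h2
    have h3 := lev_of_sec h1
    refine ih (i := i + 1) (by omega) ⟨h3.1, fun l hl => ?_⟩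
    rcases Nat.lt_succ_iff_lt_or_eq.1 hl with h4 | rfl
    · exact h3.2 l h4
    · exact h2

variable (S) in
/-- Every integral subscheme of the hyperplane section is, modulo rational equivalence, a combination
of the standard ones. (Downward induction on `i ≤ r + 1` for the points containing the coordinates
`x_(2r+4)`, `x_(2l+1)`, `l < i`.) -/
theorem strata (Q : Pt (hyp S.F) 1)
    (hQ : (MvPolynomial.X (0, S.x (2 * S.r + 4)) : Coord S.J 1) ∈ Q.I) :
    (Finsupp.single Q 1 : Cycles (hyp S.F) 1) ∈ RatZero (hyp S.F) 1 ⊔ AddSubgroup.closure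
      {c | ∃ Q' : Pt (hyp S.F) 1, c = Finsupp.single Q' 1 ∧ IsStd S Q'} :=
  lev_mem (k := S.r + 1) (i := 0) (by omega) ⟨hQ, fun l hl => absurd hl (by omega)⟩

end Kc

end Pool.Agent.RCH
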