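import Pool.Agent.RCH.KpB

/-!
# The points of relation (B)
-/

set_option autoImplicit false

open MvPolynomial

namespace Pool.Agent.RCH

namespace Kp

section gen

variable {ι : Type}

lemma mem_span_of_homog {p : MvPolynomial ι ℂ} {n : ℕ} (hp : p.IsHomogeneous n) (hn : n ≠ 0)
    {A : Finset ι} (hA : ∀ j ∈ p.vars, j ∉ A) :
    p ∈ Ideal.span {p : MvPolynomial ι ℂ | ∃ j ∉ A, p = MvPolynomial.X j} := by
  have hset : {p : MvPolynomial ι ℂ | ∃ j ∉ A, p = MvPolynomial.X j} =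
      MvPolynomial.X '' {j : ι | j ∉ A} := by
    ext p
    constructor
    · rintro ⟨j, hj, rfl⟩
      exact ⟨j, hj, rfl⟩
    · rintro ⟨j, hj, rfl⟩
      exact ⟨j, hj, rfl⟩
  rw [hset, mem_ideal_span_X_image]
  intro d hd
  have hd0 : d ≠ 0 := by
    rintro rfl
    have h1 := hp (mem_support_iff.1 hd)
    simp at h1
    exact hn h1.symm
  obtain ⟨j, hj⟩ := Finsupp.ne_iff.1 hd0
  refine ⟨j, hA j ?_, hj⟩
  rw [mem_vars_iff_mem_support]
  exact ⟨d, hd, Finsupp.mem_support_iff.2 hj⟩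

lemma not_dvd_X {h : MvPolynomial ι ℂ} {n : ℕ} (hh : h.IsHomogeneous (n + 2)) (j : ι) :
    ¬ h ∣ MvPolynomial.X j := by
  rintro ⟨c, hc⟩
  have h0 : h ≠ 0 := by
    rintro rfl
    rw [zero_mul] at hc
    exact MvPolynomial.X_ne_zero j hc
  have hc0 : c ≠ 0 := by
    rintro rfl
    rw [mul_zero] at hc
    exact MvPolynomial.X_ne_zero j hc
  have h1 := congrArg totalDegree hc
  rw [totalDegree_X, totalDegree_mul_of_isDomain h0 hc0, hh.totalDegree h0] at h1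
  omega

end gen

namespace BData

variable {ι : Type} [Fintype ι] [DecidableEq ι] (S : BData ι)

lemma mem_K1 {j : ι} : j ∈ S.K1 ↔ j = S.s ∨ j ∈ S.K := Finset.mem_insert
lemma mem_K2 {j : ι} : j ∈ S.K2 ↔ j = S.tt ∨ j = S.s ∨ j ∈ S.K := by
  rw [K2, Finset.mem_insert, mem_K1]
lemma mem_Fr1 {j : ι} : j ∈ S.Fr1 ↔ j = S.al ∨ j ∈ S.Fr := Finset.mem_insert
lemma mem_Fr2 {j : ι} : j ∈ S.Fr2 ↔ j = S.be ∨ j = S.al ∨ j ∈ S.Fr := by
  rw [Fr2, Finset.mem_insert, mem_Fr1]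

omit [Fintype ι] [DecidableEq ι] in
lemma XS_mono {K K' : Finset ι} (h : K ⊆ K') : XS K ⊆ XS K' := by
  rintro p ⟨j, hj, rfl⟩
  exact ⟨j, h hj, rfl⟩

lemma F_mem_of {I : Ideal (MvPolynomial ι ℂ)} (hK : ∀ j ∈ S.K, MvPolynomial.X j ∈ I)
    (hf : S.f ∈ I) : S.F ∈ I := by
  have h1 : S.F - S.f ∈ I := by
    refine (Ideal.span_le.2 ?_ : Ideal.span (XS S.K) ≤ I) S.hFf'
    rintro p ⟨j, hj, rfl⟩
    exact hK j hj
  have h2 := add_mem h1 hf
  rwa [sub_add_cancel] at h2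

lemma adm0 : Adm S.F S.K S.Fr S.f where
  prime := S.f_prime
  vK := fun j hj => (S.f_vars hj).1
  vF := fun j hj => (S.f_vars hj).2
  mem := S.F_mem_of (fun j hj => Ideal.subset_span (Or.inl ⟨j, hj, rfl⟩))
    (Ideal.subset_span (Or.inr rfl))
  rel := ⟨S.s, S.sK, not_dvd_X (n := S.m + 1) S.f_homog _⟩

lemma adm1 : Adm S.F S.K1 S.Fr1 S.psi where
  prime := S.psi_prime
  vK := fun j hj => by
    have h := S.psi_vars hj
    rw [mem_K1]
    rintro (rfl | h1)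
    · exact h.2.2.2 rfl
    · exact h.1 h1
  vF := fun j hj => by
    have h := S.psi_vars hj
    rw [mem_Fr1]
    rintro (rfl | h1)
    · exact h.2.2.1 rfl
    · exact h.2.1 h1
  mem := by
    have hs : (MvPolynomial.X S.s : MvPolynomial ι ℂ) ∈ Ideal.span (XS S.K1 ∪ {S.psi}) :=
      Ideal.subset_span (Or.inl ⟨S.s, S.mem_K1.2 (Or.inl rfl), rfl⟩)
    refine S.F_mem_of (fun j hj => Ideal.subset_span (Or.inl ⟨j, S.mem_K1.2 (Or.inr hj), rfl⟩)) ?_
    refine add_mem (Ideal.mul_mem_left _ _ (Ideal.pow_mem_of_mem _ hs _ (by omega)))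
      (add_mem (Ideal.mul_mem_right _ _ hs) (Ideal.subset_span (Or.inr rfl)))
  rel := ⟨S.tt, fun h => (S.mem_K1.1 h).elim (fun h => S.hstt h.symm) S.ttK,
    not_dvd_X (n := S.m + 1) S.psi_homog _⟩

lemma tau_dvd (k : Fin S.T) : S.q k ∣ S.tau :=
  (dvd_pow_self _ (by have := S.ha k; omega)).trans
    (Finset.dvd_prod_of_mem (fun k => S.q k ^ S.a k) (Finset.mem_univ k))

lemma adm2 (k : Fin S.T) : Adm S.F S.K2 S.Fr2 (S.q k) where
  prime := S.hqp k
  vK := fun j hj => by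
    have h := S.hqv k j hj
    rw [mem_K2]
    rintro (rfl | rfl | h1)
    · exact h.2.2.2.2.2 rfl
    · exact h.2.2.2.1 rfl
    · exact h.1 h1
  vF := fun j hj => by
    have h := S.hqv k j hj
    rw [mem_Fr2]
    rintro (rfl | rfl | h1)
    · exact h.2.2.2.2.1 rfl
    · exact h.2.2.1 rfl
    · exact h.2.1 h1
  mem := by
    have hs : (MvPolynomial.X S.s : MvPolynomial ι ℂ) ∈ Ideal.span (XS S.K2 ∪ {S.q k}) :=
      Ideal.subset_span (Or.inl ⟨S.s, S.mem_K2.2 (Or.inr (Or.inl rfl)), rfl⟩)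
    have ht : (MvPolynomial.X S.tt : MvPolynomial ι ℂ) ∈ Ideal.span (XS S.K2 ∪ {S.q k}) :=
      Ideal.subset_span (Or.inl ⟨S.tt, S.mem_K2.2 (Or.inl rfl), rfl⟩)
    have hq : S.tau ∈ Ideal.span (XS S.K2 ∪ {S.q k}) := by
      obtain ⟨c, hc⟩ := S.tau_dvd k
      rw [hc]
      exact Ideal.mul_mem_right _ _ (Ideal.subset_span (Or.inr rfl))
    refine S.F_mem_of (fun j hj => Ideal.subset_span
      (Or.inl ⟨j, S.mem_K2.2 (Or.inr (Or.inr hj)), rfl⟩)) ?_
    refine add_mem (Ideal.mul_mem_left _ _ (Ideal.pow_mem_of_mem _ hs _ (by omega)))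
      (add_mem (Ideal.mul_mem_right _ _ hs) ?_)
    exact add_mem (Ideal.mul_mem_left _ _ (Ideal.pow_mem_of_mem _ ht _ (by omega)))
      (add_mem (Ideal.mul_mem_right _ _ ht) hq)
  rel := ⟨S.b k, by
    have h := S.hb k
    rw [mem_K2]
    rintro (h1 | h1 | h1)
    · exact h.2.2.2.2.2 h1
    · exact h.2.2.2.1 h1
    · exact h.1 h1, S.hbq k⟩

lemma psi_memA {A : Finset ι} (htt : S.tt ∉ A) (hv : ∀ j ∈ S.tau.vars, j ∉ A) :
    S.psi ∈ Ideal.span {p : MvPolynomial ι ℂ | ∃ j ∉ A, p = MvPolynomial.X j} := by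
  have ht : (MvPolynomial.X S.tt : MvPolynomial ι ℂ) ∈
      Ideal.span {p : MvPolynomial ι ℂ | ∃ j ∉ A, p = MvPolynomial.X j} :=
    Ideal.subset_span ⟨S.tt, htt, rfl⟩
  exact add_mem (Ideal.mul_mem_left _ _ (Ideal.pow_mem_of_mem _ ht _ (by omega)))
    (add_mem (Ideal.mul_mem_right _ _ ht) (mem_span_of_homog S.tau_homog (by omega) hv))

lemma F_memA {A : Finset ι} (hKA : ∀ j ∈ S.K, j ∉ A) (hs : S.s ∉ A) (htt : S.tt ∉ A)
    (hv : ∀ j ∈ S.tau.vars, j ∉ A) :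
    S.F ∈ Ideal.span {p : MvPolynomial ι ℂ | ∃ j ∉ A, p = MvPolynomial.X j} := by
  have hs' : (MvPolynomial.X S.s : MvPolynomial ι ℂ) ∈
      Ideal.span {p : MvPolynomial ι ℂ | ∃ j ∉ A, p = MvPolynomial.X j} :=
    Ideal.subset_span ⟨S.s, hs, rfl⟩
  refine S.F_mem_of (fun j hj => Ideal.subset_span ⟨j, hKA j hj, rfl⟩) ?_
  exact add_mem (Ideal.mul_mem_left _ _ (Ideal.pow_mem_of_mem _ hs' _ (by omega)))
    (add_mem (Ideal.mul_mem_right _ _ hs') (S.psi_memA htt hv))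

lemma s_notMem_Fr2 : S.s ∉ S.Fr2 := by
  rw [mem_Fr2]
  rintro (h | h | h)
  · exact S.hsbe h
  · exact S.hals h.symm
  · exact S.sF h

lemma tt_notMem_Fr2 : S.tt ∉ S.Fr2 := by
  rw [mem_Fr2]
  rintro (h | h | h)
  · exact S.hbett h.symm
  · exact S.haltt h.symm
  · exact S.ttF h

lemma K_notMem_Fr2 {j : ι} (hj : j ∈ S.K) : j ∉ S.Fr2 := by
  rw [mem_Fr2]
  rintro (rfl | rfl | h)
  · exact S.beK hj
  · exact S.alK hj
  · exact S.hKF j hj h

lemma tau_notMem_Fr2 {j : ι} (hj : j ∈ S.tau.vars) : j ∉ S.Fr2 := by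
  have h := S.tau_vars hj
  rw [mem_Fr2]
  rintro (rfl | rfl | h1)
  · exact h.2.2.2.2.1 rfl
  · exact h.2.2.1 rfl
  · exact h.2.1 h1

lemma Fr1_sub : S.Fr1 ⊆ S.Fr2 := Finset.subset_insert _ _

lemma admE0 : AdmE S.F S.Fr1 S.K S.f where
  prime := S.f_prime
  vK := S.adm0.vK
  mem := S.adm0.mem
  rel := S.adm0.rel
  memA := S.F_memA (fun j hj h => S.K_notMem_Fr2 hj (S.Fr1_sub h))
    (fun h => S.s_notMem_Fr2 (S.Fr1_sub h)) (fun h => S.tt_notMem_Fr2 (S.Fr1_sub h))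
    (fun j hj h => S.tau_notMem_Fr2 hj (S.Fr1_sub h))
  ne := ⟨S.al, S.mem_Fr1.2 (Or.inl rfl)⟩

lemma admE1 : AdmE S.F S.Fr2 S.K1 S.psi where
  prime := S.psi_prime
  vK := S.adm1.vK
  mem := S.adm1.mem
  rel := S.adm1.rel
  memA := S.F_memA (fun j hj => S.K_notMem_Fr2 hj) S.s_notMem_Fr2 S.tt_notMem_Fr2
    (fun j hj => S.tau_notMem_Fr2 hj)
  ne := ⟨S.al, S.mem_Fr2.2 (Or.inr (Or.inl rfl))⟩

/-- the diagonal of `f = 0` -/
noncomputable def D0 : Pt (hyp S.F) 2 := Dpt S.hF S.adm0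
/-- the diagonal of `psi = 0` and its cone -/
noncomputable def D1 : Pt (hyp S.F) 2 := Dpt S.hF S.adm1
/-- the diagonal of `q k = 0` and its cone -/
noncomputable def D2 (k : Fin S.T) : Pt (hyp S.F) 2 := Dpt S.hF (S.adm2 k)
/-- vertex times surface; `i0` is the factor with the surface -/
noncomputable def E0 (i0 : Fin 2) : Pt (hyp S.F) 2 := Ept S.hF i0 S.admE0
/-- the same on the next level -/
noncomputable def E1 (i0 : Fin 2) : Pt (hyp S.F) 2 := Ept S.hF i0 S.admE1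

/-! ### The fibre square -/

/-- the values of `p` at `(s, be_i, z)` -/
noncomputable def uev (i : Fin 2) (p : MvPolynomial ι ℂ) : Coord ι 2 :=
  eval₂Hom C (fun j => if j = S.be then MvPolynomial.X (i, S.be) else MvPolynomial.X (0, j)) p

/-- the coordinates of the generic point of the fibre square -/
noncomputable def dU (v : Fin 2 × ι) : Coord ι 2 :=
  if v.2 ∈ S.K then 0 else if v.2 ∈ S.Fr then MvPolynomial.X v else
    if v.2 = S.al then
      -(MvPolynomial.X (0, S.s) * S.uev v.1 S.g + S.uev v.1 S.psi) else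
    if v.2 = S.be then MvPolynomial.X (0, S.s) ^ (S.m + 2) * MvPolynomial.X (v.1, S.be) else
      MvPolynomial.X (0, S.s) ^ (S.m + 2) * MvPolynomial.X (0, v.2)

lemma F_dU (i : Fin 2) : eval₂Hom (algebraMap ℂ (Coord ι 2)) (fun j => S.dU (i, j)) S.F = 0 := by
  have hK : ∀ j ∈ S.K, (fun j => S.dU (i, j)) j = 0 := fun j hj => if_pos hj
  rw [S.F_ev _ _ hK, f_ev]
  set U : ι → Coord ι 2 := fun j => if j = S.be then MvPolynomial.X (i, S.be) else
    MvPolynomial.X (0, j) with hU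
  set σ : Coord ι 2 := MvPolynomial.X (0, S.s) with hσ
  have hev : ∀ p : MvPolynomial ι ℂ, (∀ j ∈ p.vars, j ∉ S.K ∧ j ∉ S.Fr ∧ j ≠ S.al) →
      eval₂Hom (algebraMap ℂ (Coord ι 2)) (fun j => S.dU (i, j)) p =
        eval₂Hom (algebraMap ℂ (Coord ι 2)) (fun j => σ ^ (S.m + 2) * U j) p := by
    intro p hp
    refine ev_congr _ _ fun j hj => ?_
    obtain ⟨h1, h2, h3⟩ := hp j hj
    simp only [dU, hU]
    rw [if_neg h1, if_neg h2, if_neg h3]
    by_cases h4 : j = S.be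
    · subst h4
      rw [if_pos rfl, if_pos rfl]
    · rw [if_neg h4, if_neg h4]
  rw [hev S.g S.hgv, hev S.psi fun j hj => ⟨(S.psi_vars hj).1, (S.psi_vars hj).2.1,
    (S.psi_vars hj).2.2.1⟩, ev_smul _ _ S.hgh, ev_smul _ _ S.psi_homog]
  have hal : S.dU (i, S.al) = -(σ * S.uev i S.g + S.uev i S.psi) := by
    rw [dU, if_neg S.alK, if_neg S.alF, if_pos rfl]
  have hs : S.dU (i, S.s) = σ ^ (S.m + 2) * σ := by
    rw [dU, if_neg S.sK, if_neg S.sF, if_neg S.hals.symm, if_neg S.hsbe]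
  simp only [hal, hs]
  have e1 : S.uev i S.g = eval₂Hom (algebraMap ℂ (Coord ι 2)) U S.g := rfl
  have e2 : S.uev i S.psi = eval₂Hom (algebraMap ℂ (Coord ι 2)) U S.psi := rfl
  rw [e1, e2]
  ring

/-- the fibre square -/
noncomputable def pU : Pt (hyp S.F) 2 :=
  pt S.hF S.dU (fun i => ⟨S.s, by
    rw [dU, if_neg S.sK, if_neg S.sF, if_neg S.hals.symm, if_neg S.hsbe]
    exact mul_ne_zero (pow_ne_zero _ (MvPolynomial.X_ne_zero _)) (MvPolynomial.X_ne_zero _)⟩)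
    S.F_dU

/-! ### The relations, as values -/

section values

variable {L : Type} [CommRing L] (c : ℂ →+* L) (x y : ι → L) (b : ι)

/-- `g` at the coordinates `y_b x_j`, with `x_b y_be` for `be` -/
noncomputable def gB : L :=
  eval₂Hom c (fun j => if j = S.be then x b * y S.be else y b * x j) S.g

/-- `g` at the coordinates `x_b y_j`, with `y_b x_be` for `be` -/
noncomputable def gS : L :=
  eval₂Hom c (fun j => if j = S.be then y b * x S.be else x b * y j) S.g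

/-- the difference of the equations, both scaled -/
noncomputable def r2v : L :=
  (x S.al * y b - y S.al * x b) * (y b * x S.s) ^ (S.m + 2) +
    y b * x S.s * (y b ^ (S.m + 2) * eval₂Hom c x S.g - S.gB c x y b) +
    (x S.be * y b - y S.be * x b) * (y b * x S.tt) ^ (S.m + 2)

/-- the first equation, scaled, divided by `x_b` -/
noncomputable def hhv : L :=
  y b * x S.al * x b ^ (S.m + 1) * y S.s ^ (S.m + 2) + y S.s * S.gS c x y b +
    y b * x S.be * x b ^ (S.m + 1) * y S.tt ^ (S.m + 2) + x b ^ (S.m + 2) * eval₂Hom c y S.rho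

end values

/-- the generic points -/
noncomputable def XX (i : Fin 2) (j : ι) : Coord ι 2 := MvPolynomial.X (i, j)

noncomputable def R2 (b : ι) : Coord ι 2 := S.r2v C (XX 0) (XX 1) b

noncomputable def HH (b : ι) : Coord ι 2 := S.hhv C (XX 0) (XX 1) b

/-- the difference of the values of `g` -/
noncomputable def gD (b : ι) : Coord ι 2 :=
  MvPolynomial.X (1, b) ^ (S.m + 2) * inFactor 2 0 S.g - S.gB C (XX 0) (XX 1) b

/-- the function of relation (B) -/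
noncomputable def MM : Coord ι 2 := mn S.be S.s

end BData

end Kp

end Pool.Agent.RCH
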