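import Pool.Agent.RCH.KpPoly
import Pool.Agent.RCH.KpBPts

/-!
# The data of relation (A)
-/

set_option autoImplicit false

open MvPolynomial

namespace Pool.Agent.RCH

namespace Kp

/-- The data of relation (A). The three coordinates `al`, `s`, `om` are special. The degree is
`m + 3`. -/
structure AData (ι : Type) [Fintype ι] [DecidableEq ι] where
  m : ℕ
  al : ι
  s : ι
  om : ι
  hals : al ≠ s
  halom : al ≠ om
  hsom : s ≠ om
  T : ℕ
  q : Fin T → MvPolynomial ι ℂ
  a : Fin T → ℕ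
  e : Fin T → ℕ
  ha : ∀ k, 1 ≤ a k
  hqh : ∀ k, (q k).IsHomogeneous (e k)
  hsum : ∑ k, a k * e k = m + 3
  hqp : ∀ k, Prime (q k)
  hqv : ∀ k, ∀ j ∈ (q k).vars, j ≠ al ∧ j ≠ s ∧ j ≠ om
  hqn : ∀ j k, j ≠ k → ¬ q j ∣ q k
  /-- a coordinate which is not zero on `q k = 0` -/
  b : Fin T → ι
  hb : ∀ k, b k ≠ al ∧ b k ≠ s ∧ b k ≠ om
  hbq : ∀ k, ¬ q k ∣ MvPolynomial.X (b k)
  g : MvPolynomial ι ℂ
  hgh : g.IsHomogeneous (m + 2)
  hgv : ∀ j ∈ g.vars, j ≠ al ∧ j ≠ om
  hgq : ∀ k, g ∉ Ideal.span {MvPolynomial.X s, q k}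
  P : MvPolynomial ι ℂ
  hP : P.IsHomogeneous (m + 2)
  hPc : eval (Pi.single al 1) P ≠ 0

namespace AData

variable {ι : Type} [Fintype ι] [DecidableEq ι] (S : AData ι)

noncomputable def tau : MvPolynomial ι ℂ := ∏ k, S.q k ^ S.a k

/-- the equation of the hyperplane section -/
noncomputable def f0 : MvPolynomial ι ℂ :=
  MvPolynomial.X S.al * MvPolynomial.X S.s ^ (S.m + 2) + (MvPolynomial.X S.s * S.g + S.tau)

/-- the equation -/
noncomputable def F : MvPolynomial ι ℂ := S.f0 + MvPolynomial.X S.om * S.P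

/-- the variety -/
noncomputable def V : WVar ι := hyp S.F

/-- the derivative of the equation in the coordinate `al` -/
noncomputable def dF : MvPolynomial ι ℂ :=
  MvPolynomial.X S.s ^ (S.m + 2) + MvPolynomial.X S.om * pderiv S.al S.P

/-- the leading coefficient of `P` -/
noncomputable def lc : ℂ := eval (Pi.single S.al 1) S.P

/-! ### Variables -/

lemma tau_vars {j : ι} (hj : j ∈ S.tau.vars) : j ≠ S.al ∧ j ≠ S.s ∧ j ≠ S.om := by
  have h1 := vars_prod (s := Finset.univ) (fun k => S.q k ^ S.a k) hj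
  rw [Finset.mem_biUnion] at h1
  obtain ⟨k, -, hk⟩ := h1
  exact S.hqv k j (vars_pow _ _ hk)

lemma sg_vars {j : ι} (hj : j ∈ (MvPolynomial.X S.s * S.g + S.tau).vars) :
    j ≠ S.al ∧ j ≠ S.om := by
  have h1 := vars_add_subset _ _ hj
  rw [Finset.mem_union] at h1
  rcases h1 with h1 | h1
  · have h2 := vars_mul _ _ h1
    rw [Finset.mem_union, vars_X, Finset.mem_singleton] at h2
    rcases h2 with rfl | h2
    · exact ⟨S.hals.symm, S.hsom⟩
    · exact S.hgv j h2
  · have h2 := S.tau_vars h1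
    exact ⟨h2.1, h2.2.2⟩

lemma f0_vars {j : ι} (hj : j ∈ S.f0.vars) : j ≠ S.om := by
  have h1 := vars_add_subset _ _ hj
  rw [Finset.mem_union] at h1
  rcases h1 with h1 | h1
  · have h2 := vars_mul _ _ h1
    rw [Finset.mem_union, vars_X, Finset.mem_singleton] at h2
    rcases h2 with rfl | h2
    · exact S.halom
    · have h3 := vars_pow _ _ h2
      rw [vars_X, Finset.mem_singleton] at h3
      subst h3
      exact S.hsom
  · exact (S.sg_vars h1).2

/-! ### Values -/

section values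

variable {L : Type} [CommRing L] (c : ℂ →+* L) (x : ι → L)

lemma tau_ev : eval₂Hom c x S.tau = ∏ k, eval₂Hom c x (S.q k) ^ S.a k := by
  rw [tau, map_prod]
  exact Finset.prod_congr rfl fun k _ => map_pow _ _ _

lemma f0_ev : eval₂Hom c x S.f0 = x S.al * x S.s ^ (S.m + 2) +
    (x S.s * eval₂Hom c x S.g + eval₂Hom c x S.tau) := by
  rw [f0, map_add, map_mul, map_pow, map_add, map_mul, eval₂Hom_X', eval₂Hom_X']

lemma F_ev : eval₂Hom c x S.F = eval₂Hom c x S.f0 + x S.om * eval₂Hom c x S.P := by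
  rw [F, map_add, map_mul, eval₂Hom_X']

lemma dF_ev : eval₂Hom c x S.dF =
    x S.s ^ (S.m + 2) + x S.om * eval₂Hom c x (pderiv S.al S.P) := by
  rw [dF, map_add, map_mul, map_pow, eval₂Hom_X', eval₂Hom_X']

end values

/-! ### Homogeneity -/

lemma tau_homog : S.tau.IsHomogeneous (S.m + 3) := by
  have h := IsHomogeneous.prod (Finset.univ : Finset (Fin S.T)) (fun k => S.q k ^ S.a k)
    (fun k => S.e k * S.a k) (fun k _ => (S.hqh k).pow (S.a k))
  have h2 : ∑ k, S.e k * S.a k = S.m + 3 := by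
    rw [← S.hsum]
    exact Finset.sum_congr rfl fun k _ => mul_comm _ _
  rwa [h2] at h

lemma f0_homog : S.f0.IsHomogeneous (S.m + 3) := by
  have h := (isHomogeneous_X ℂ S.al).mul ((isHomogeneous_X ℂ S.s).pow (S.m + 2))
  rw [one_mul, show 1 + (S.m + 2) = S.m + 3 from by ring] at h
  have h2 := (isHomogeneous_X ℂ S.s).mul S.hgh
  rw [show 1 + (S.m + 2) = S.m + 3 from by ring] at h2
  exact h.add (h2.add S.tau_homog)

lemma F_homog : S.F.IsHomogeneous (S.m + 3) := by
  have h := (isHomogeneous_X ℂ S.om).mul S.hP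
  rw [show 1 + (S.m + 2) = S.m + 3 from by ring] at h
  exact S.f0_homog.add h

lemma dF_homog : S.dF.IsHomogeneous (S.m + 2) := by
  have h1 := (isHomogeneous_X ℂ S.s).pow (S.m + 2)
  rw [one_mul] at h1
  have h2 : (pderiv S.al S.P).IsHomogeneous (S.m + 1) := S.hP.pderiv
  have h := (isHomogeneous_X ℂ S.om).mul h2
  rw [show 1 + (S.m + 1) = S.m + 2 from by ring] at h
  exact h1.add h

lemma pderiv_eq_zero {p : MvPolynomial ι ℂ} {j : ι} (h : j ∉ p.vars) : pderiv j p = 0 :=
  pderiv_eq_zero_of_notMem_vars h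

lemma pderiv_F : pderiv S.al S.F = S.dF := by
  rw [F, f0, map_add, map_add, pderiv_eq_zero (p := MvPolynomial.X S.s * S.g + S.tau)
    (fun hj => (S.sg_vars hj).1 rfl), pderiv_mul, pderiv_mul, pderiv_X_self,
    pderiv_X_of_ne S.halom.symm, pderiv_eq_zero (p := MvPolynomial.X S.s ^ (S.m + 2)), dF]
  · ring
  · intro hj
    have h3 := vars_pow _ _ hj
    rw [vars_X, Finset.mem_singleton] at h3
    exact S.hals h3

lemma tau_ne : S.tau ≠ 0 := Finset.prod_ne_zero_iff.2 fun k _ => pow_ne_zero _ (S.hqp k).ne_zero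

lemma f0_prime : Prime S.f0 := by
  refine prime_lin S.hals _ (fun hj => (S.sg_vars hj).1 rfl) ?_
  intro h
  have h2 : (MvPolynomial.X S.s : MvPolynomial ι ℂ) ∣ MvPolynomial.X S.s * S.g :=
    dvd_mul_right _ _
  exact BData.notMem_vars_of (fun hj => (S.tau_vars hj).2.1 rfl) S.tau_ne
    ((dvd_add_right h2).1 h)

/-! ### The points -/

lemma om_F_mem {I : Ideal (MvPolynomial ι ℂ)} (h : MvPolynomial.X S.om ∈ I) (h0 : S.f0 ∈ I) :
    S.F ∈ I := add_mem h0 (Ideal.mul_mem_right _ _ h)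

lemma admY : Adm S.F {S.om} ∅ S.f0 where
  prime := S.f0_prime
  vK := fun j hj h => S.f0_vars hj (Finset.mem_singleton.1 h)
  vF := fun j _ h => absurd h (Finset.notMem_empty j)
  mem := S.om_F_mem (Ideal.subset_span (Or.inl ⟨S.om, Finset.mem_singleton_self _, rfl⟩))
    (Ideal.subset_span (Or.inr rfl))
  rel := ⟨S.s, fun h => S.hsom (Finset.mem_singleton.1 h),
    not_dvd_X (n := S.m + 1) S.f0_homog _⟩

lemma admE : AdmE S.F {S.al} {S.om} S.f0 where
  prime := S.f0_prime
  vK := S.admY.vK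
  mem := S.admY.mem
  rel := S.admY.rel
  memA := by
    have hs : (MvPolynomial.X S.s : MvPolynomial ι ℂ) ∈ Ideal.span {p : MvPolynomial ι ℂ |
        ∃ j ∉ ({S.al} : Finset ι), p = MvPolynomial.X j} :=
      Ideal.subset_span ⟨S.s, fun h => S.hals (Finset.mem_singleton.1 h).symm, rfl⟩
    refine S.om_F_mem (Ideal.subset_span
      ⟨S.om, fun h => S.halom (Finset.mem_singleton.1 h).symm, rfl⟩) ?_
    refine add_mem (Ideal.mul_mem_left _ _ (Ideal.pow_mem_of_mem _ hs _ (by omega)))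
      (add_mem (Ideal.mul_mem_right _ _ hs) ?_)
    exact mem_span_of_homog S.tau_homog (by omega)
      (fun j hj h => (S.tau_vars hj).1 (Finset.mem_singleton.1 h))
  ne := ⟨S.al, Finset.mem_singleton_self _⟩

lemma tau_dvd (k : Fin S.T) : S.q k ∣ S.tau :=
  (dvd_pow_self _ (by have := S.ha k; omega)).trans
    (Finset.dvd_prod_of_mem (fun k => S.q k ^ S.a k) (Finset.mem_univ k))

lemma admC (k : Fin S.T) : Adm S.F {S.s, S.om} {S.al} (S.q k) where
  prime := S.hqp k
  vK := fun j hj h => by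
    rw [Finset.mem_insert, Finset.mem_singleton] at h
    exact h.elim (S.hqv k j hj).2.1 (S.hqv k j hj).2.2
  vF := fun j hj h => (S.hqv k j hj).1 (Finset.mem_singleton.1 h)
  mem := by
    have hs : (MvPolynomial.X S.s : MvPolynomial ι ℂ) ∈
        Ideal.span (XS ({S.s, S.om} : Finset ι) ∪ {S.q k}) :=
      Ideal.subset_span (Or.inl ⟨S.s, Finset.mem_insert_self _ _, rfl⟩)
    have hq : S.tau ∈ Ideal.span (XS ({S.s, S.om} : Finset ι) ∪ {S.q k}) := by
      obtain ⟨c, hc⟩ := S.tau_dvd k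
      rw [hc]
      exact Ideal.mul_mem_right _ _ (Ideal.subset_span (Or.inr rfl))
    refine S.om_F_mem (Ideal.subset_span (Or.inl ⟨S.om, Finset.mem_insert_of_mem
      (Finset.mem_singleton_self _), rfl⟩)) ?_
    exact add_mem (Ideal.mul_mem_left _ _ (Ideal.pow_mem_of_mem _ hs _ (by omega)))
      (add_mem (Ideal.mul_mem_right _ _ hs) hq)
  rel := ⟨S.b k, by
    rw [Finset.mem_insert, Finset.mem_singleton]
    exact fun h => h.elim (S.hb k).2.1 (S.hb k).2.2, S.hbq k⟩

/-- the diagonal of the hyperplane section -/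
noncomputable def pYD : Pt (hyp S.F) 2 := Dpt S.F_homog S.admY
/-- the diagonal of `q k = 0` and its cone -/
noncomputable def pC (k : Fin S.T) : Pt (hyp S.F) 2 := Dpt S.F_homog (S.admC k)
/-- vertex times hyperplane section; `i0` is the factor with the hyperplane section -/
noncomputable def pE (i0 : Fin 2) : Pt (hyp S.F) 2 := Ept S.F_homog i0 S.admE

end AData

end Kp

end Pool.Agent.RCH
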