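import Pool.Agent.RCH.KpAPts

/-!
# Members and non-members of the ideal of the fibre square of the projection from the vertex
-/

set_option autoImplicit false

open MvPolynomial

namespace Pool.Agent.RCH

namespace Kp

attribute [local instance] Pt.prime

namespace AData

variable {ι : Type} [Fintype ι] [DecidableEq ι] (S : AData ι)

/-! ### Members and non-members -/

lemma root_ne : AdjoinRoot.root S.Gm ≠ S.ptV0 S.al := by
  intro h
  have h1 := S.eval_quoF_root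
  rw [h, eval_quoF_self _ _ _ S.F_ptV0, S.pderiv_F] at h1
  exact S.dF_ptV0 h1

lemma notMem_of_aeval {z : Coord ι 2} (h : aeval S.ptV z ≠ 0) : z ∉ S.pV.I :=
  fun hz => h (ev_gen S.F S.ptV hz)

lemma mn_pV {i j : ι} (hi : i ≠ S.al) (hj : j ≠ S.al) : mn i j ∈ S.pV.I := by
  change genHom (hyp S.F) S.ptV (mn i j) = 0
  have h : ∀ k : ι, k ≠ S.al → S.ptV (1, k) = S.ptV (0, k) := fun k hk => S.ptV1_of_ne hk
  rw [mn, map_sub, map_mul, map_mul]
  simp only [genHom, aeval_X, wt_hyp]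
  rw [h i hi, h j hj]
  ring

lemma X_pV (i : Fin 2) {j : ι} (hj : j ≠ S.al) :
    (MvPolynomial.X (i, j) : Coord ι 2) ∉ S.pV.I := by
  refine S.notMem_of_aeval ?_
  rw [aeval_X]
  fin_cases i
  · exact S.ptV0_ne j
  · exact fun h => S.ptV0_ne j ((S.ptV1_of_ne hj).symm.trans h)

lemma NN_pV {j : ι} (hj : j ≠ S.al) : mn S.al j ∉ S.pV.I := by
  refine S.notMem_of_aeval ?_
  have h1 : S.ptV (0, S.al) = S.ptV0 S.al := rfl
  have h2 : S.ptV (1, S.al) = AdjoinRoot.root S.Gm := S.ptV1_al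
  have h3 : S.ptV (0, j) = S.ptV0 j := rfl
  have h4 : S.ptV (1, j) = S.ptV0 j := S.ptV1_of_ne hj
  rw [mn, map_sub, map_mul, map_mul, aeval_X, aeval_X, aeval_X, aeval_X, h1, h2, h3, h4, ← sub_mul]
  exact mul_ne_zero (sub_ne_zero.2 S.root_ne.symm) (S.ptV0_ne j)

/-! ### The relations -/

/-- the main relation between the values of the equation at two points which are proportional in
the coordinates different from `al` -/
lemma key_rel {L : Type} [CommRing L] (c : ℂ →+* L) (x y : ι → L) (j : ι)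
    (hm : ∀ k, k ≠ S.al → x j * y k = y j * x k) :
    y j ^ (S.m + 3) * eval₂Hom c x S.F - x j ^ (S.m + 3) * eval₂Hom c y S.F =
      (y j * x S.s) ^ (S.m + 2) * (x S.al * y j - y S.al * x j) +
        y j * x S.om * (y j ^ (S.m + 2) * eval₂Hom c x S.P -
          x j ^ (S.m + 2) * eval₂Hom c y S.P) := by
  have hg : eval₂Hom c (fun k => y j * x k) S.g = eval₂Hom c (fun k => x j * y k) S.g :=
    ev_congr _ _ fun k hk => (hm k (S.hgv k hk).1).symm
  have ht : eval₂Hom c (fun k => y j * x k) S.tau = eval₂Hom c (fun k => x j * y k) S.tau :=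
    ev_congr _ _ fun k hk => (hm k (S.tau_vars hk).1).symm
  rw [← ev_smul c x S.F_homog (y j), ← ev_smul c y S.F_homog (x j)]
  rw [F_ev, F_ev, f0_ev, f0_ev, ev_smul c x S.hP (y j), ev_smul c y S.hP (x j), hg, ht]
  rw [hm S.s S.hals.symm, hm S.om S.halom.symm]
  ring

/-- the quotient homomorphism -/
noncomputable abbrev qV : Coord ι 2 →+* (Coord ι 2 ⧸ S.pV.I) := Ideal.Quotient.mk S.pV.I

lemma qV_eq_zero {z : Coord ι 2} : S.qV z = 0 ↔ z ∈ S.pV.I := Ideal.Quotient.eq_zero_iff_mem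

lemma qV_mn {j k : ι} (hj : j ≠ S.al) (hk : k ≠ S.al) :
    xs S.qV 0 j * xs S.qV 1 k = xs S.qV 1 j * xs S.qV 0 k := by
  have h := S.qV_eq_zero.2 (S.mn_pV hj hk)
  rw [map_mn, sub_eq_zero] at h
  exact h

lemma qV_F (i : Fin 2) : eval₂Hom (cs S.qV) (xs S.qV i) S.F = 0 := by
  rw [← map_inFactor]
  exact S.qV_eq_zero.2 (F_mem S.pV i)

lemma qV_RR (j : ι) : S.qV (S.RR j) =
    xs S.qV 1 j ^ (S.m + 2) * eval₂Hom (cs S.qV) (xs S.qV 0) S.P -
      xs S.qV 0 j ^ (S.m + 2) * eval₂Hom (cs S.qV) (xs S.qV 1) S.P := by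
  rw [RR, map_sub, map_mul, map_mul, map_pow, map_pow, map_inFactor, map_inFactor]
  rfl

lemma KK_pV {j : ι} (hj : j ≠ S.al) :
    MvPolynomial.X (0, S.s) ^ (S.m + 2) * MvPolynomial.X (1, j) ^ (S.m + 2) * mn S.al j +
      MvPolynomial.X (0, S.om) * MvPolynomial.X (1, j) * S.RR j ∈ S.pV.I := by
  rw [← qV_eq_zero, map_add, map_mul, map_mul, map_mul, map_mul, map_pow, map_pow, qV_RR, map_mn]
  have h := S.key_rel (cs S.qV) (xs S.qV 0) (xs S.qV 1) j (fun k hk => S.qV_mn hj hk)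
  rw [qV_F, qV_F] at h
  change xs S.qV 0 S.s ^ (S.m + 2) * xs S.qV 1 j ^ (S.m + 2) *
    (xs S.qV 0 S.al * xs S.qV 1 j - xs S.qV 1 S.al * xs S.qV 0 j) +
    xs S.qV 0 S.om * xs S.qV 1 j *
      (xs S.qV 1 j ^ (S.m + 2) * eval₂Hom (cs S.qV) (xs S.qV 0) S.P -
        xs S.qV 0 j ^ (S.m + 2) * eval₂Hom (cs S.qV) (xs S.qV 1) S.P) = 0
  linear_combination -h

lemma HH_pV : S.HH ∈ S.pV.I := by
  have h := S.KK_pV S.hals.symm
  rw [← qV_eq_zero] at h ⊢
  have h0 : S.qV (MvPolynomial.X (0, S.s)) ≠ 0 := fun h0 =>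
    S.X_pV 0 S.hals.symm (S.qV_eq_zero.1 h0)
  haveI : IsDomain (Coord ι 2 ⧸ S.pV.I) := Ideal.Quotient.isDomain _
  have hm := S.qV_mn S.hals.symm S.halom.symm
  have e : S.qV (MvPolynomial.X (0, S.s)) * S.qV S.HH = 0 := by
    rw [HH, map_add, map_mul, map_mul, map_mul, map_pow, map_pow]
    rw [map_add, map_mul, map_mul, map_mul, map_mul, map_pow, map_pow] at h
    change xs S.qV 0 S.s ^ (S.m + 2) * xs S.qV 1 S.s ^ (S.m + 2) * S.qV (mn S.al S.s) +
      xs S.qV 0 S.om * xs S.qV 1 S.s * S.qV (S.RR S.s) = 0 at h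
    change xs S.qV 0 S.s * (xs S.qV 0 S.s ^ (S.m + 1) * xs S.qV 1 S.s ^ (S.m + 2) *
      S.qV (mn S.al S.s) + xs S.qV 1 S.om * S.qV (S.RR S.s)) = 0
    linear_combination h + S.qV (S.RR S.s) * hm
  exact (mul_eq_zero.1 e).resolve_left h0

lemma HHom_pV :
    MvPolynomial.X (0, S.s) ^ (S.m + 1) * MvPolynomial.X (1, S.s) * MvPolynomial.X (1, S.om) ^ S.m *
      mn S.al S.om + S.RR S.om ∈ S.pV.I := by
  have h := S.KK_pV S.halom.symm
  rw [← qV_eq_zero] at h ⊢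
  have h0 : S.qV (MvPolynomial.X (0, S.om)) ≠ 0 := fun h0 =>
    S.X_pV 0 S.halom.symm (S.qV_eq_zero.1 h0)
  have h1 : S.qV (MvPolynomial.X (1, S.om)) ≠ 0 := fun h0 =>
    S.X_pV 1 S.halom.symm (S.qV_eq_zero.1 h0)
  haveI : IsDomain (Coord ι 2 ⧸ S.pV.I) := Ideal.Quotient.isDomain _
  have hm := S.qV_mn S.hals.symm S.halom.symm
  have e : S.qV (MvPolynomial.X (0, S.om)) * S.qV (MvPolynomial.X (1, S.om)) *
      S.qV (MvPolynomial.X (0, S.s) ^ (S.m + 1) * MvPolynomial.X (1, S.s) *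
        MvPolynomial.X (1, S.om) ^ S.m * mn S.al S.om + S.RR S.om) = 0 := by
    rw [map_add, map_mul, map_mul, map_mul, map_pow, map_pow]
    rw [map_add, map_mul, map_mul, map_mul, map_mul, map_pow, map_pow] at h
    change xs S.qV 0 S.s ^ (S.m + 2) * xs S.qV 1 S.om ^ (S.m + 2) * S.qV (mn S.al S.om) +
      xs S.qV 0 S.om * xs S.qV 1 S.om * S.qV (S.RR S.om) = 0 at h
    change xs S.qV 0 S.om * xs S.qV 1 S.om * (xs S.qV 0 S.s ^ (S.m + 1) * xs S.qV 1 S.s *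
      xs S.qV 1 S.om ^ S.m * S.qV (mn S.al S.om) + S.qV (S.RR S.om)) = 0
    linear_combination h -
      xs S.qV 0 S.s ^ (S.m + 1) * xs S.qV 1 S.om ^ (S.m + 1) * S.qV (mn S.al S.om) * hm
  exact (mul_eq_zero.1 e).resolve_left (mul_ne_zero h0 h1)

/-! ### Divided differences and the Taylor formula -/

/-- the coordinates of the `i`-th point -/
noncomputable def vx (i : Fin 2) (k : ι) : Coord ι 2 := MvPolynomial.X (i, k)

lemma qV_vx (i : Fin 2) (k : ι) : S.qV (vx i k) = xs S.qV i k := rfl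

lemma qV_C : S.qV.comp C = cs S.qV := rfl

lemma upd_qV {j : ι} (hj : j ≠ S.al) :
    (fun k => S.qV (Function.update (fun k => vx 1 j * vx 0 k) S.al (vx 0 j * vx 1 S.al) k)) =
      fun k => xs S.qV 0 j * xs S.qV 1 k := by
  funext k
  by_cases hk : k = S.al
  · subst hk
    rw [Function.update_self]
    exact map_mul _ _ _
  · rw [Function.update_of_ne hk, map_mul, S.qV_mn hj hk]
    rfl

/-- the value at the point with the first coordinates -/
lemma qV_eval_self (j : ι) {p : MvPolynomial ι ℂ} {n : ℕ} (hp : p.IsHomogeneous n) :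
    S.qV ((polF C (fun k => vx 1 j * vx 0 k) S.al p).eval (vx 1 j * vx 0 S.al)) =
      xs S.qV 1 j ^ n * eval₂Hom (cs S.qV) (xs S.qV 0) p := by
  have e1 : Function.update (fun k => vx 1 j * vx 0 k) S.al (vx 1 j * vx 0 S.al) =
      (fun k => vx 1 j * vx 0 k : ι → Coord ι 2) :=
    Function.update_eq_self S.al (fun k => vx 1 j * vx 0 k : ι → Coord ι 2)
  have e2 : (fun k => S.qV (vx 1 j * vx 0 k)) = fun k => xs S.qV 1 j * xs S.qV 0 k := by
    funext k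
    exact map_mul _ _ _
  rw [eval_polF, e1, map_ev, qV_C, e2, ev_smul _ _ hp]

/-- the value at the point with the second coordinates -/
lemma qV_eval_upd {j : ι} (hj : j ≠ S.al) {p : MvPolynomial ι ℂ} {n : ℕ}
    (hp : p.IsHomogeneous n) :
    S.qV ((polF C (fun k => vx 1 j * vx 0 k) S.al p).eval (vx 0 j * vx 1 S.al)) =
      xs S.qV 0 j ^ n * eval₂Hom (cs S.qV) (xs S.qV 1) p := by
  rw [eval_polF, map_ev, qV_C, S.upd_qV hj, ev_smul _ _ hp]

lemma exists_BB {j : ι} (hj : j ≠ S.al) : ∃ B : Coord ι 2,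
    MvPolynomial.X (0, S.s) ^ (S.m + 2) * MvPolynomial.X (1, j) ^ (S.m + 1) +
      MvPolynomial.X (0, S.om) * B ∈ S.pV.I := by
  obtain ⟨B, hB⟩ := Polynomial.evalSubFactor (polF C (fun k => vx 1 j * vx 0 k) S.al S.P)
    (vx 1 j * vx 0 S.al) (vx 0 j * vx 1 S.al)
  refine ⟨B, ?_⟩
  have hK := S.KK_pV hj
  rw [← qV_eq_zero] at hK ⊢
  have h0 : S.qV (MvPolynomial.X (1, j)) ≠ 0 := fun h0 => S.X_pV 1 hj (S.qV_eq_zero.1 h0)
  have h1 : S.qV (mn S.al j) ≠ 0 := fun h0 => S.NN_pV hj (S.qV_eq_zero.1 h0)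
  haveI : IsDomain (Coord ι 2 ⧸ S.pV.I) := Ideal.Quotient.isDomain _
  have hB' := congrArg S.qV hB
  rw [map_sub, S.qV_eval_self j S.hP, S.qV_eval_upd hj S.hP, map_mul, map_sub, map_mul, map_mul,
    qV_vx, qV_vx, qV_vx, qV_vx] at hB'
  rw [map_add, map_mul, map_mul, map_mul, map_mul, map_pow, map_pow, qV_RR] at hK
  rw [map_add, map_mul, map_mul, map_pow, map_pow]
  rw [map_mn] at hK h1
  have e : S.qV (MvPolynomial.X (1, j)) *
      (xs S.qV 0 S.al * xs S.qV 1 j - xs S.qV 1 S.al * xs S.qV 0 j) *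
      (S.qV (MvPolynomial.X (0, S.s)) ^ (S.m + 2) * S.qV (MvPolynomial.X (1, j)) ^ (S.m + 1) +
        S.qV (MvPolynomial.X (0, S.om)) * S.qV B) = 0 := by
    change xs S.qV 0 S.s ^ (S.m + 2) * xs S.qV 1 j ^ (S.m + 2) *
      (xs S.qV 0 S.al * xs S.qV 1 j - xs S.qV 1 S.al * xs S.qV 0 j) +
      xs S.qV 0 S.om * xs S.qV 1 j *
        (xs S.qV 1 j ^ (S.m + 2) * eval₂Hom (cs S.qV) (xs S.qV 0) S.P -
        xs S.qV 0 j ^ (S.m + 2) * eval₂Hom (cs S.qV) (xs S.qV 1) S.P) = 0 at hK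
    change xs S.qV 1 j *
      (xs S.qV 0 S.al * xs S.qV 1 j - xs S.qV 1 S.al * xs S.qV 0 j) *
      (xs S.qV 0 S.s ^ (S.m + 2) * xs S.qV 1 j ^ (S.m + 1) + xs S.qV 0 S.om * S.qV B) = 0
    linear_combination hK - xs S.qV 0 S.om * xs S.qV 1 j * hB'
  exact (mul_eq_zero.1 e).resolve_left (mul_ne_zero h0 h1)

lemma exists_taylor : ∃ R : Coord ι 2,
    MvPolynomial.X (1, S.om) ^ (S.m + 2) * inFactor 2 0 S.dF - mn S.al S.om * R ∈ S.pV.I := by
  obtain ⟨R, hR⟩ := Polynomial.binomExpansion (polF C (fun k => vx 1 S.om * vx 0 k) S.al S.F)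
    (vx 1 S.om * vx 0 S.al) (vx 0 S.om * vx 1 S.al - vx 1 S.om * vx 0 S.al)
  refine ⟨R, ?_⟩
  have hne : S.om ≠ S.al := S.halom.symm
  rw [← qV_eq_zero]
  have h1 : S.qV (mn S.al S.om) ≠ 0 := fun h0 => S.NN_pV hne (S.qV_eq_zero.1 h0)
  haveI : IsDomain (Coord ι 2 ⧸ S.pV.I) := Ideal.Quotient.isDomain _
  rw [show vx 1 S.om * vx 0 S.al + (vx 0 S.om * vx 1 S.al - vx 1 S.om * vx 0 S.al) =
    (vx 0 S.om * vx 1 S.al : Coord ι 2) from by ring, derivative_polF, S.pderiv_F] at hR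
  have hR' := congrArg S.qV hR
  rw [map_add, map_add, map_mul, map_mul, map_pow, map_sub, map_mul, map_mul,
    S.qV_eval_self S.om S.F_homog, S.qV_eval_upd hne S.F_homog, S.qV_eval_self S.om S.dF_homog,
    qV_F, qV_F, qV_vx, qV_vx, qV_vx, qV_vx] at hR'
  rw [map_sub, map_mul, map_mul, map_pow, map_inFactor]
  rw [map_mn] at h1 ⊢
  have e : (xs S.qV 0 S.al * xs S.qV 1 S.om - xs S.qV 1 S.al * xs S.qV 0 S.om) *
      (xs S.qV 1 S.om ^ (S.m + 2) * eval₂Hom (cs S.qV) (xs S.qV 0) S.dF -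
        (xs S.qV 0 S.al * xs S.qV 1 S.om - xs S.qV 1 S.al * xs S.qV 0 S.om) * S.qV R) = 0 := by
    linear_combination hR'
  exact (mul_eq_zero.1 e).resolve_left h1

end AData

end Kp

end Pool.Agent.RCH
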