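import Pool.Agent.RCH.KpACa
import Pool.Agent.RCH.KpARel

/-!
# Relation (A): the orders at the points `pC k`; the uniformizer is `inFactor 2 0 (q k)`
-/

set_option autoImplicit false

open MvPolynomial

namespace Pool.Agent.RCH

namespace Kp

attribute [local instance] Pt.prime

namespace AData

variable {ι : Type} [Fintype ι] [DecidableEq ι] (S : AData ι)

section main

variable (k : Fin S.T)

/-! ### Products which are not in the ideal -/

lemma ac_mul {a b : Coord ι 2} (ha : a ∉ (S.pC k).I) (hb : b ∉ (S.pC k).I) :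
    a * b ∉ (S.pC k).I := fun h => ((S.pC k).prime.mem_or_mem h).elim ha hb

lemma ac_pow {a : Coord ι 2} (n : ℕ) (ha : a ∉ (S.pC k).I) : a ^ n ∉ (S.pC k).I :=
  fun h => ha ((S.pC k).prime.mem_of_pow_mem n h)

lemma ac_neg {a : Coord ι 2} (ha : a ∉ (S.pC k).I) : -a ∉ (S.pC k).I :=
  fun h => ha (neg_mem_iff.1 h)

/-! ### The cofactor of `x_s` -/

/-- the cofactor of `x_s` -/
noncomputable def acCo : Coord ι 2 :=
  S.RR (S.b k) * S.gX 0 - MvPolynomial.X (0, S.s) ^ (S.m + 1) *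
    (MvPolynomial.X (1, S.b k) ^ (S.m + 1) * mn S.al (S.b k) * inFactor 2 0 S.P)

lemma ac_gX_notMem : S.gX 0 ∉ (S.pC k).I := by
  intro h
  have h1 : MvPolynomial.X (0, S.al) * MvPolynomial.X (0, S.s) ^ (S.m + 1) ∈ (S.pC k).I :=
    Ideal.mul_mem_left _ _ (Ideal.pow_mem_of_mem _ (S.ac_s_mem k 0) _ (by omega))
  rw [gX] at h
  exact S.ac_g_notMem k 0 ((Ideal.add_mem_iff_right _ h1).1 h)

lemma acCo_notMem : S.acCo k ∉ (S.pC k).I := by
  intro h
  have h1 : MvPolynomial.X (0, S.s) ^ (S.m + 1) *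
    (MvPolynomial.X (1, S.b k) ^ (S.m + 1) * mn S.al (S.b k) * inFactor 2 0 S.P) ∈
      (S.pC k).I :=
    Ideal.mul_mem_right _ _ (Ideal.pow_mem_of_mem _ (S.ac_s_mem k 0) _ (by omega))
  have h2 := add_mem h h1
  rw [acCo, sub_add_cancel] at h2
  exact S.ac_mul k (S.ac_RR_notMem k) (S.ac_gX_notMem k) h2

/-- the product of the other factors -/
noncomputable def acOth : Coord ι 2 := ∏ i ∈ Finset.univ.erase k, inFactor 2 0 (S.q i) ^ S.a i

lemma acOth_notMem : S.acOth k ∉ (S.pC k).I := by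
  intro h
  rw [acOth, (S.pC k).prime.prod_mem_iff] at h
  obtain ⟨i, hi, hm⟩ := h
  exact S.ac_pow k _ (S.ac_q_notMem k (Finset.ne_of_mem_erase hi) 0) hm

lemma ac_tau : inFactor 2 0 S.tau = inFactor 2 0 (S.q k) ^ S.a k * S.acOth k := by
  rw [tau, map_prod, acOth]
  simp only [map_pow]
  exact (Finset.mul_prod_erase _ (fun i => inFactor 2 0 (S.q i) ^ S.a i)
    (Finset.mem_univ k)).symm

lemma ac_eq_F : inFactor 2 0 S.F = MvPolynomial.X (0, S.s) * S.gX 0 +
    inFactor 2 0 (S.q k) ^ S.a k * S.acOth k +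
      MvPolynomial.X (0, S.om) * inFactor 2 0 S.P := by
  have hX : ∀ j : ι, inFactor 2 0 (MvPolynomial.X j : MvPolynomial ι ℂ) =
      MvPolynomial.X (0, j) := fun j => by rw [inFactor, rename_X]
  rw [← ac_tau, F, f0, gX]
  simp only [map_add, map_mul, map_pow, hX]
  ring

/-! ### The family -/

/-- the indices of the family -/
abbrev ACκ : Type := Option (Option {j : ι // j ≠ S.al ∧ j ≠ S.b k})

/-- the family -/
noncomputable def acfam : S.ACκ k → Coord ι 2
  | none => inFactor 2 0 S.F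
  | some none => inFactor 2 1 S.F
  | some (some j) => mn (S.b k) j.1

lemma acfam_mem (i : S.ACκ k) : S.acfam k i ∈ (S.pC k).I := by
  rcases i with _ | _ | j
  · exact F_mem (S.pC k) 0
  · exact F_mem (S.pC k) 1
  · exact S.ac_minor_mem k (S.hb k).1 j.2.1

/-- the elements of the family and the uniformizer generate the ideal locally -/
lemma acfam_kill {L : Type} [CommRing L] (φ : Coord ι 2 →+* L)
    (h : ∀ i, φ (S.acfam k i) = 0) (ht : φ (inFactor 2 0 (S.q k)) = 0)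
    (hx : IsUnit (xs φ 0 (S.b k))) (hy : IsUnit (xs φ 1 (S.b k)))
    (hR : IsUnit (φ (S.RR (S.b k)))) (hco : IsUnit (φ (S.acCo k))) {z : Coord ι 2}
    (hz : z ∈ (S.pC k).I) : φ z = 0 := by
  have hF0 : φ (inFactor 2 0 S.F) = 0 := h none
  have hF1 : φ (inFactor 2 1 S.F) = 0 := h (some none)
  have hmn : ∀ j, j ≠ S.al → xs φ 0 (S.b k) * xs φ 1 j = xs φ 1 (S.b k) * xs φ 0 j := by
    intro j hj
    by_cases hjb : j = S.b k
    · subst hjb
      exact mul_comm _ _
    · have h1 := h (some (some ⟨j, hj, hjb⟩))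
      have h2 : φ (mn (S.b k) j) = 0 := h1
      rw [map_mn] at h2
      exact sub_eq_zero.1 h2
  have hmF0 := map_inFactor φ 0 S.F
  have hmF1 := map_inFactor φ 1 S.F
  rw [hF0] at hmF0
  rw [hF1] at hmF1
  have r1 := S.ac_rel_one (cs φ) (xs φ 0) (xs φ 1) (xs φ 1 (S.b k)) (xs φ 0 (S.b k)) hmn
  rw [← hmF0, ← hmF1, mul_zero, mul_zero, sub_zero] at r1
  have hRR : φ (S.RR (S.b k)) = xs φ 1 (S.b k) ^ (S.m + 2) *
      eval₂Hom (cs φ) (xs φ 0) S.P -
      xs φ 0 (S.b k) ^ (S.m + 2) * eval₂Hom (cs φ) (xs φ 1) S.P := by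
    rw [RR, map_sub, map_mul, map_mul, map_pow, map_pow, map_inFactor, map_inFactor]
    rfl
  rw [← hRR] at r1
  have hs : xs φ 0 S.s = 0 := by
    have h1 : φ (S.acCo k) * xs φ 0 S.s = 0 := by
      have hC : φ (S.acCo k) = φ (S.RR (S.b k)) * φ (S.gX 0) -
          xs φ 0 S.s ^ (S.m + 1) * (xs φ 1 (S.b k) ^ (S.m + 1) *
            (xs φ 0 S.al * xs φ 1 (S.b k) - xs φ 1 S.al * xs φ 0 (S.b k)) *
              φ (inFactor 2 0 S.P)) := by
        rw [acCo, map_sub, map_mul, map_mul, map_mul, map_mul, map_pow, map_pow, map_mn]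
        rfl
      have hE : xs φ 0 S.s * φ (S.gX 0) + xs φ 0 S.om * φ (inFactor 2 0 S.P) = 0 := by
        have h2 := hF0
        rw [ac_eq_F S k, map_add, map_add, map_mul, map_mul, map_pow, ht,
          zero_pow (by have := S.ha k; omega), zero_mul, add_zero, map_mul] at h2
        exact h2
      have h3 : xs φ 1 (S.b k) * (φ (S.acCo k) * xs φ 0 S.s) = 0 := by
        rw [hC]
        linear_combination (xs φ 1 (S.b k) * φ (S.RR (S.b k))) * hE +
          φ (inFactor 2 0 S.P) * r1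
      exact hy.mul_right_eq_zero.1 h3
    exact hco.mul_right_eq_zero.1 h1
  have hom : xs φ 0 S.om = 0 := by
    rw [hs, mul_zero, zero_pow (by omega), mul_zero, zero_add] at r1
    exact hy.mul_right_eq_zero.1 (hR.mul_left_eq_zero.1 r1.symm)
  have hs1 : xs φ 1 S.s = 0 := by
    have h1 := hmn S.s S.hals.symm
    rw [hs, mul_zero] at h1
    exact hx.mul_right_eq_zero.1 h1
  have hom1 : xs φ 1 S.om = 0 := by
    have h1 := hmn S.om S.halom.symm
    rw [hom, mul_zero] at h1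
    exact hx.mul_right_eq_zero.1 h1
  obtain ⟨y, hy'⟩ := hy
  have hq : eval₂Hom (cs φ) (xs φ 1) (S.q k) = 0 := by
    have h1 : eval₂Hom (cs φ) (xs φ 0) (S.q k) = 0 := by
      rw [← map_inFactor]
      exact ht
    have h2 : xs φ 0 (S.b k) ^ S.e k * eval₂Hom (cs φ) (xs φ 1) (S.q k) =
        xs φ 1 (S.b k) ^ S.e k * eval₂Hom (cs φ) (xs φ 0) (S.q k) := by
      rw [← ev_smul _ _ (S.hqh k), ← ev_smul _ _ (S.hqh k)]
      exact ev_congr _ _ fun j hj => hmn j (S.hqv k j hj).1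
    rw [h1, mul_zero] at h2
    exact (hx.pow _).mul_right_eq_zero.1 h2
  refine S.ac_kill k φ (xs φ 0 (S.b k) * ↑y⁻¹) (hx.mul (Units.isUnit _)) ?_ ?_ hq ?_ hz
  · intro i
    have hi : i = 0 ∨ i = 1 := by omega
    rcases hi with rfl | rfl
    · exact hs
    · exact hs1
  · intro i
    have hi : i = 0 ∨ i = 1 := by omega
    rcases hi with rfl | rfl
    · exact hom
    · exact hom1
  · intro j hj
    have h1 := hmn j hj
    rw [← hy'] at h1
    have h2 : xs φ 0 j = (↑y⁻¹ * ↑y) * xs φ 0 j := by rw [Units.inv_mul, one_mul]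
    rw [h2]
    linear_combination (-(↑y⁻¹ : L)) * h1

/-! ### The derivatives -/

/-- the quotient by the ideal -/
noncomputable def acq : Coord ι 2 →+* Coord ι 2 ⧸ (S.pC k).I := Ideal.Quotient.mk _

lemma acq_eq_zero {z : Coord ι 2} : S.acq k z = 0 ↔ z ∈ (S.pC k).I :=
  Ideal.Quotient.eq_zero_iff_mem

lemma ac_pderiv_s (i : Fin 2) :
    S.acq k (pderiv (i, S.s) (inFactor 2 i S.F)) = S.acq k (inFactor 2 i S.g) := by
  have h1 : pderiv S.s S.F = (MvPolynomial.X S.al * ((S.m + 2 : ℕ) • MvPolynomial.X S.s ^ (S.m + 1)) +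
      (S.g + MvPolynomial.X S.s * pderiv S.s S.g)) +
      MvPolynomial.X S.om * pderiv S.s S.P := by
    have e1 : pderiv S.s (MvPolynomial.X S.al : MvPolynomial ι ℂ) = 0 := pderiv_X_of_ne S.hals
    have e2 : pderiv S.s (MvPolynomial.X S.om : MvPolynomial ι ℂ) = 0 :=
      pderiv_X_of_ne S.hsom.symm
    have e3 : pderiv S.s S.tau = 0 :=
      pderiv_eq_zero_of_notMem_vars fun h => (S.tau_vars h).2.1 rfl
    rw [F, f0, map_add, map_add, map_add, pderiv_mul, pderiv_mul, pderiv_mul, pderiv_pow, e1, e2,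
      e3, pderiv_X_self]
    simp only [nsmul_eq_mul]
    push_cast
    ring_nf
  have hX : ∀ j : ι, inFactor 2 i (MvPolynomial.X j : MvPolynomial ι ℂ) =
      MvPolynomial.X (i, j) := fun j => by rw [inFactor, rename_X]
  have hs : S.acq k (MvPolynomial.X (i, S.s)) = 0 := (S.acq_eq_zero k).2 (S.ac_s_mem k i)
  have ho : S.acq k (MvPolynomial.X (i, S.om)) = 0 := (S.acq_eq_zero k).2 (S.ac_om_mem k i)
  rw [ac_pderiv_inFactor, h1]
  simp only [map_add, map_mul, map_nsmul, map_pow, hX, hs, ho]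
  rw [zero_pow (by omega)]
  simp

lemma ac_pderiv_om (i : Fin 2) :
    S.acq k (pderiv (i, S.om) (inFactor 2 i S.F)) = S.acq k (inFactor 2 i S.P) := by
  have h1 : pderiv S.om S.F = S.P + MvPolynomial.X S.om * pderiv S.om S.P := by
    have e1 : pderiv S.om S.f0 = 0 :=
      pderiv_eq_zero_of_notMem_vars fun h => S.f0_vars h rfl
    rw [F, map_add, pderiv_mul, e1, pderiv_X_self]
    ring
  have hX : inFactor 2 i (MvPolynomial.X S.om : MvPolynomial ι ℂ) =
      MvPolynomial.X (i, S.om) := by rw [inFactor, rename_X]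
  have ho : S.acq k (MvPolynomial.X (i, S.om)) = 0 := (S.acq_eq_zero k).2 (S.ac_om_mem k i)
  rw [ac_pderiv_inFactor, h1]
  simp only [map_add, map_mul, hX, ho]
  simp

omit [Fintype ι] [DecidableEq ι] in
lemma ac_pderiv_mn [DecidableEq ι] {b j : ι} (hj : j ≠ b) (i : Fin 2) {l : ι} (hl : l ≠ b) :
    pderiv (i, l) (mn b j : Coord ι 2) =
      if l = j then (if i = 1 then MvPolynomial.X (0, b) else -MvPolynomial.X (1, b)) else 0 := by
  have e : ∀ v w : Fin 2 × ι, pderiv v (MvPolynomial.X w : Coord ι 2) = if v = w then 1 else 0 := by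
    intro v w
    by_cases h : v = w
    · rw [if_pos h, h, pderiv_X_self]
    · rw [if_neg h, pderiv_X_of_ne (Ne.symm h)]
  have hlb : ∀ a : Fin 2, ((i, l) : Fin 2 × ι) ≠ (a, b) := fun a h => hl (Prod.mk.inj h).2
  rw [mn, map_sub, pderiv_mul, pderiv_mul, e, e, e, e, if_neg (hlb 0), if_neg (hlb 1)]
  by_cases h : l = j
  · subst h
    have hi : i = 0 ∨ i = 1 := by omega
    rcases hi with rfl | rfl
    · simp
    · simp
  · have h0 : ∀ a : Fin 2, ((i, l) : Fin 2 × ι) ≠ (a, j) := fun a h' => h (Prod.mk.inj h').2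
    rw [if_neg (h0 0), if_neg (h0 1), if_neg h]
    ring

lemma ac_jac (c : S.ACκ k → Coord ι 2) (d : Coord ι 2)
    (h : ∀ v : Fin 2 × ι, ∑ i, c i * pderiv v (S.acfam k i) +
      d * pderiv v (inFactor 2 0 (S.q k)) ∈ (S.pC k).I) :
    (∀ i, c i ∈ (S.pC k).I) ∧ d ∈ (S.pC k).I := by
  have hdom : IsDomain (Coord ι 2 ⧸ (S.pC k).I) :=
    (Ideal.Quotient.isDomain_iff_prime _).2 (S.pC k).prime
  have key : ∀ v : Fin 2 × ι, S.acq k (c none) * S.acq k (pderiv v (inFactor 2 0 S.F)) +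
      (S.acq k (c (some none)) * S.acq k (pderiv v (inFactor 2 1 S.F)) +
        ∑ j : {j : ι // j ≠ S.al ∧ j ≠ S.b k}, S.acq k (c (some (some j))) *
            S.acq k (pderiv v (mn (S.b k) j.1))) +
      S.acq k d * S.acq k (pderiv v (inFactor 2 0 (S.q k))) = 0 := by
    intro v
    have h1 := (S.acq_eq_zero k).2 (h v)
    rw [map_add, map_mul, map_sum, Fintype.sum_option, Fintype.sum_option] at h1
    simp only [map_mul] at h1
    exact h1
  -- the sum over the minors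
  have hsum : ∀ (i : Fin 2) (l : ι) (hl : l ≠ S.al ∧ l ≠ S.b k),
      ∑ j : {j : ι // j ≠ S.al ∧ j ≠ S.b k}, S.acq k (c (some (some j))) *
            S.acq k (pderiv (i, l) (mn (S.b k) j.1)) =
      S.acq k (c (some (some ⟨l, hl⟩))) *
        S.acq k (if i = 1 then MvPolynomial.X (0, S.b k) else -MvPolynomial.X (1, S.b k)) := by
    intro i l hl
    rw [Finset.sum_eq_single (⟨l, hl⟩ : {j : ι // j ≠ S.al ∧ j ≠ S.b k})]
    · rw [ac_pderiv_mn hl.2 i hl.2, if_pos rfl]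
    · intro j _ hj
      have hne : ¬ (l = j.1) := fun h => hj (Subtype.ext h.symm)
      rw [ac_pderiv_mn j.2.2 i hl.2, if_neg hne, map_zero, mul_zero]
    · intro h
      exact absurd (Finset.mem_univ _) h
  have hqs : ∀ (i : Fin 2) (l : ι), l = S.s ∨ l = S.om →
      pderiv (i, l) (inFactor 2 0 (S.q k)) = 0 := by
    intro i l hl
    have hi : i = 0 ∨ i = 1 := by omega
    rcases hi with rfl | rfl
    · rw [ac_pderiv_inFactor, pderiv_eq_zero_of_notMem_vars, map_zero]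
      intro hv
      rcases hl with rfl | rfl
      · exact (S.hqv k _ hv).2.1 rfl
      · exact (S.hqv k _ hv).2.2 rfl
    · exact ac_pderiv_inFactor_ne (by decide) _ _
  have hq1 : ∀ l : ι, pderiv (1, l) (inFactor 2 0 (S.q k)) = 0 :=
    fun l => ac_pderiv_inFactor_ne (by decide) _ _
  have h01 : ∀ l : ι, pderiv (0, l) (inFactor 2 1 S.F) = 0 :=
    fun l => ac_pderiv_inFactor_ne (by decide) _ _
  have h10 : ∀ l : ι, pderiv (1, l) (inFactor 2 0 S.F) = 0 :=
    fun l => ac_pderiv_inFactor_ne (by decide) _ _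
  set x := S.acq k (MvPolynomial.X (0, S.b k)) with hx
  set y := S.acq k (MvPolynomial.X (1, S.b k)) with hy
  have hx0 : x ≠ 0 := fun h => S.ac_b_notMem k 0 ((S.acq_eq_zero k).1 h)
  have hy0 : y ≠ 0 := fun h => S.ac_b_notMem k 1 ((S.acq_eq_zero k).1 h)
  have hR0 : S.acq k (S.RR (S.b k)) ≠ 0 := fun h => S.ac_RR_notMem k ((S.acq_eq_zero k).1 h)
  have hg0 : S.acq k (inFactor 2 1 S.g) ≠ 0 :=
    fun h => S.ac_g_notMem k 1 ((S.acq_eq_zero k).1 h)
  have hs' : S.s ≠ S.al ∧ S.s ≠ S.b k := ⟨S.hals.symm, (S.hb k).2.1.symm⟩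
  have ho' : S.om ≠ S.al ∧ S.om ≠ S.b k := ⟨S.halom.symm, (S.hb k).2.2.symm⟩
  -- the four equations
  have k0s := key (0, S.s)
  rw [h01, hsum 0 S.s hs', hqs 0 S.s (Or.inl rfl), ac_pderiv_s, map_zero, mul_zero, mul_zero,
    zero_add, add_zero, if_neg (by decide), map_neg] at k0s
  have k1s := key (1, S.s)
  rw [h10, hsum 1 S.s hs', hqs 1 S.s (Or.inl rfl), ac_pderiv_s, map_zero, mul_zero, mul_zero,
    zero_add, add_zero, if_pos rfl] at k1s
  have k0o := key (0, S.om)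
  rw [h01, hsum 0 S.om ho', hqs 0 S.om (Or.inr rfl), ac_pderiv_om, map_zero, mul_zero, mul_zero,
    zero_add, add_zero, if_neg (by decide), map_neg] at k0o
  have k1o := key (1, S.om)
  rw [h10, hsum 1 S.om ho', hqs 1 S.om (Or.inr rfl), ac_pderiv_om, map_zero, mul_zero, mul_zero,
    zero_add, add_zero, if_pos rfl] at k1o
  -- the values of `g`
  have hmn : ∀ j, j ≠ S.al → x * xs (S.acq k) 1 j = y * xs (S.acq k) 0 j := by
    intro j hj
    have h1 := (S.acq_eq_zero k).2 (S.ac_minor_mem k (S.hb k).1 hj)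
    rw [map_mn] at h1
    exact sub_eq_zero.1 h1
  have hgg := S.ac_rel_g (cs (S.acq k)) (xs (S.acq k) 0) (xs (S.acq k) 1) y x hmn
  rw [← map_inFactor, ← map_inFactor] at hgg
  have hRR : S.acq k (S.RR (S.b k)) = y ^ (S.m + 2) * S.acq k (inFactor 2 0 S.P) -
      x ^ (S.m + 2) * S.acq k (inFactor 2 1 S.P) := by
    rw [RR, map_sub, map_mul, map_mul, map_pow, map_pow]
  have hAB : x ^ (S.m + 3) * S.acq k (c none) + y ^ (S.m + 3) * S.acq k (c (some none)) = 0 := by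
    have h1 : S.acq k (inFactor 2 1 S.g) *
        (x ^ (S.m + 3) * S.acq k (c none) + y ^ (S.m + 3) * S.acq k (c (some none))) = 0 := by
      linear_combination (x * y ^ (S.m + 2)) * k0s + (y ^ (S.m + 3)) * k1s -
        (x * S.acq k (c none)) * hgg
    exact (mul_eq_zero.1 h1).resolve_left hg0
  have hB : S.acq k (c (some none)) = 0 := by
    have h1 : (y * S.acq k (S.RR (S.b k))) * S.acq k (c (some none)) = 0 := by
      rw [hRR]
      linear_combination (S.acq k (inFactor 2 0 S.P)) * hAB - (x ^ (S.m + 3)) * k0o -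
        (x ^ (S.m + 2) * y) * k1o
    exact (mul_eq_zero.1 h1).resolve_left (mul_ne_zero hy0 hR0)
  have hA : S.acq k (c none) = 0 := by
    rw [hB, mul_zero, add_zero] at hAB
    exact (mul_eq_zero.1 hAB).resolve_left (pow_ne_zero _ hx0)
  have hC : ∀ j : {j : ι // j ≠ S.al ∧ j ≠ S.b k}, S.acq k (c (some (some j))) = 0 := by
    intro j
    have h1 := key (1, j.1)
    rw [h10, hsum 1 j.1 j.2, hq1, hB, map_zero, mul_zero, mul_zero, zero_mul, zero_add, zero_add,
      add_zero, if_pos rfl] at h1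
    exact (mul_eq_zero.1 h1).resolve_right hx0
  have hd : S.acq k d = 0 := by
    obtain ⟨l, hl⟩ := S.ac_exists_pderiv k
    have h1 := key (0, l)
    rw [hA, hB, zero_mul, zero_mul, Finset.sum_eq_zero (fun j _ => by rw [hC j, zero_mul]),
      zero_add, zero_add, zero_add, ac_pderiv_inFactor] at h1
    exact (mul_eq_zero.1 h1).resolve_right fun h => hl ((S.acq_eq_zero k).1 h)
  refine ⟨?_, (S.acq_eq_zero k).1 hd⟩
  rintro (_ | _ | j)
  · exact (S.acq_eq_zero k).1 hA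
  · exact (S.acq_eq_zero k).1 hB
  · exact (S.acq_eq_zero k).1 (hC j)

/-! ### The inclusion -/

lemma ac_exists_field {R : Type} [CommRing R] (L : Ideal R) [hL : L.IsPrime] :
    ∃ (K : Type) (_ : Field K) (φ : R →+* K), ∀ z, φ z = 0 ↔ z ∈ L := by
  refine ⟨FractionRing (R ⧸ L), inferInstance,
    (algebraMap (R ⧸ L) (FractionRing (R ⧸ L))).comp (Ideal.Quotient.mk L), fun z => ?_⟩
  rw [RingHom.comp_apply, FaithfulSMul.algebraMap_eq_zero_iff, Ideal.Quotient.eq_zero_iff_mem]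

theorem ac_between : ∃ L : Ideal (Coord ι 2), L.IsPrime ∧ S.pV.I ≤ L ∧ L < (S.pC k).I ∧
    inFactor 2 0 (S.q k) ∉ L := by
  obtain ⟨L, hL, hfam, hLQ, ht⟩ := kj (Q := (S.pC k).I) (S.acfam k) (inFactor 2 0 (S.q k))
    (S.acfam_mem k) (S.ac_q_mem k 0) (by
      intro z hz
      set J := Ideal.span (Set.range (S.acfam k)) ⊔ Ideal.span {inFactor 2 0 (S.q k)} with hJ
      refine S.acfam_kill k (toLocMod J (S.pC k).I) ?_ ?_ ?_ ?_ ?_ ?_ hz
      · intro i
        exact toLocMod_eq_zero_of_mem (Ideal.mem_sup_left (Ideal.subset_span ⟨i, rfl⟩))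
      · exact toLocMod_eq_zero_of_mem (Ideal.mem_sup_right (Ideal.mem_span_singleton_self _))
      · exact isUnit_toLocMod (S.ac_b_notMem k 0)
      · exact isUnit_toLocMod (S.ac_b_notMem k 1)
      · exact isUnit_toLocMod (S.ac_RR_notMem k)
      · exact isUnit_toLocMod (S.acCo_notMem k)) (S.ac_jac k)
  obtain ⟨K, hK, φ, hφ⟩ := ac_exists_field L
  have nx : xs φ 0 (S.b k) ≠ 0 := fun h => S.ac_b_notMem k 0 (hLQ.le ((hφ _).1 h))
  have ny : xs φ 1 (S.b k) ≠ 0 := fun h => S.ac_b_notMem k 1 (hLQ.le ((hφ _).1 h))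
  have hN : φ (mn S.al (S.b k)) ≠ 0 := fun h => S.ac_mn_notMem k (hLQ.le ((hφ _).1 h))
  rw [map_mn] at hN
  have hmn : ∀ j, j ≠ S.al → xs φ 0 (S.b k) * xs φ 1 j = xs φ 1 (S.b k) * xs φ 0 j := by
    intro j hj
    by_cases hjb : j = S.b k
    · subst hjb
      exact mul_comm _ _
    · have h1 := (hφ _).2 (hfam (some (some ⟨j, hj, hjb⟩)))
      have h2 : φ (mn (S.b k) j) = 0 := h1
      rw [map_mn] at h2
      exact sub_eq_zero.1 h2
  have eF0 : eval₂Hom (cs φ) (xs φ 0) S.F = 0 := by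
    rw [← map_inFactor]
    exact (hφ _).2 (hfam none)
  have eF1 : eval₂Hom (cs φ) (xs φ 1) S.F = 0 := by
    rw [← map_inFactor]
    exact (hφ _).2 (hfam (some none))
  have hom : xs φ 0 S.om ≠ 0 := by
    intro h
    have r1 := S.ac_rel_one (cs φ) (xs φ 0) (xs φ 1) (xs φ 1 (S.b k)) (xs φ 0 (S.b k)) hmn
    rw [eF0, eF1, h, mul_zero, mul_zero, mul_zero, zero_mul, add_zero, sub_zero] at r1
    have hs : xs φ 0 S.s = 0 := by
      have h3 := (mul_eq_zero.1 r1.symm).resolve_left (by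
        intro h4
        apply hN
        linear_combination h4)
      exact (mul_eq_zero.1 (pow_eq_zero_iff (by omega) |>.1 h3)).resolve_left ny
    rw [F_ev, f0_ev, h, hs, zero_pow (by omega), mul_zero, zero_mul, zero_mul, zero_add, add_zero,
      zero_add, tau_ev, Finset.prod_eq_zero_iff] at eF0
    obtain ⟨j, -, hj⟩ := eF0
    have hj' := pow_eq_zero_iff (by have := S.ha j; omega) |>.1 hj
    rw [← map_inFactor] at hj'
    by_cases hjk : j = k
    · subst hjk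
      exact ht ((hφ _).1 hj')
    · exact S.ac_q_notMem k hjk 0 (hLQ.le ((hφ _).1 hj'))
  refine ⟨L, hL, ?_, hLQ, ht⟩
  intro z hz
  refine (hφ z).1 ?_
  set w := xs φ 1 (S.b k) / xs φ 0 (S.b k) with hw
  have hw0 : w ≠ 0 := div_ne_zero ny nx
  have hprop : ∀ j, j ≠ S.al → xs φ 1 j = xs φ 0 j * w := by
    intro j hj
    have h1 := hmn j hj
    rw [hw]
    field_simp
    linear_combination h1
  refine S.kill_V φ w hprop (xs φ 1 S.al / w) (div_mul_cancel₀ _ hw0).symm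
    (isUnit_iff_ne_zero.2 hom) eF0 ?_ hz
  refine eval_quoF_of_ne _ _ _ eF0 ?_ ?_
  · have h5 : Function.update (xs φ 0) S.al (xs φ 1 S.al / w) = fun j => w⁻¹ * xs φ 1 j := by
      funext j
      by_cases hj : j = S.al
      · subst hj
        rw [Function.update_self, div_eq_inv_mul]
      · rw [Function.update_of_ne hj, hprop j hj]
        field_simp
    rw [h5, ev_smul _ _ S.F_homog, eF1, mul_zero]
  · intro h
    apply hN
    have h1 : xs φ 1 S.al = xs φ 0 S.al * w := by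
      rw [← h]
      exact (div_mul_cancel₀ _ hw0).symm
    rw [h1, hw]
    field_simp
    ring

lemma ac_pV_le : S.pV.I ≤ (S.pC k).I := by
  obtain ⟨L, -, h1, h2, -⟩ := S.ac_between k
  exact h1.trans h2.le

/-! ### The orders -/

lemma ac_q_notMem_pV : inFactor 2 0 (S.q k) ∉ S.pV.I := by
  intro h
  obtain ⟨L, -, h1, -, h3⟩ := S.ac_between k
  exact h3 (h1 h)

lemma ac_reg {z : Coord ι 2} (hz : z ∈ (S.pC k).I) :
    ∃ s, s ∉ (S.pC k).I ∧ s * z ∈ S.pV.I ⊔ Ideal.span {inFactor 2 0 (S.q k)} := by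
  set J := S.pV.I ⊔ Ideal.span {inFactor 2 0 (S.q k)} with hJ
  apply exists_of_toLocMod_eq_zero (J := J)
  refine S.acfam_kill k (toLocMod J (S.pC k).I) ?_ ?_ ?_ ?_ ?_ ?_ hz
  · rintro (_ | _ | j)
    · exact toLocMod_eq_zero_of_mem (Ideal.mem_sup_left (F_mem S.pV 0))
    · exact toLocMod_eq_zero_of_mem (Ideal.mem_sup_left (F_mem S.pV 1))
    · exact toLocMod_eq_zero_of_mem (Ideal.mem_sup_left (S.mn_pV (S.hb k).1 j.2.1))
  · exact toLocMod_eq_zero_of_mem (Ideal.mem_sup_right (Ideal.mem_span_singleton_self _))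
  · exact isUnit_toLocMod (S.ac_b_notMem k 0)
  · exact isUnit_toLocMod (S.ac_b_notMem k 1)
  · exact isUnit_toLocMod (S.ac_RR_notMem k)
  · exact isUnit_toLocMod (S.acCo_notMem k)

lemma ac_key : MvPolynomial.X (1, S.b k) * S.acCo k * MvPolynomial.X (0, S.s) +
    MvPolynomial.X (1, S.b k) * S.RR (S.b k) * S.acOth k * inFactor 2 0 (S.q k) ^ S.a k ∈
      S.pV.I := by
  have h1 := F_mem S.pV 0
  have h2 := S.KK_pV (S.hb k).1
  have h := sub_mem (S.pV.I.mul_mem_left (MvPolynomial.X (1, S.b k) * S.RR (S.b k)) h1)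
    (S.pV.I.mul_mem_left (inFactor 2 0 S.P) h2)
  rw [ac_eq_F S k] at h
  convert h using 1
  rw [acCo]
  ring

lemma ac_rel_pow (n : ℕ) : (MvPolynomial.X (1, S.b k) * S.acCo k) ^ n *
    MvPolynomial.X (0, S.s) ^ n -
    (-(MvPolynomial.X (1, S.b k) * S.RR (S.b k) * S.acOth k)) ^ n *
      inFactor 2 0 (S.q k) ^ (n * S.a k) ∈ S.pV.I := by
  have h0 := S.ac_key k
  have h : MvPolynomial.X (1, S.b k) * S.acCo k * MvPolynomial.X (0, S.s) -
      (-(MvPolynomial.X (1, S.b k) * S.RR (S.b k) * S.acOth k)) *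
        inFactor 2 0 (S.q k) ^ S.a k ∈ S.pV.I := by
    convert h0 using 1
    ring
  have e1 : (MvPolynomial.X (1, S.b k) * S.acCo k * MvPolynomial.X (0, S.s)) ^ n =
      (MvPolynomial.X (1, S.b k) * S.acCo k) ^ n * MvPolynomial.X (0, S.s) ^ n := mul_pow _ _ _
  have e2 : (-(MvPolynomial.X (1, S.b k) * S.RR (S.b k) * S.acOth k) *
      inFactor 2 0 (S.q k) ^ S.a k) ^ n =
      (-(MvPolynomial.X (1, S.b k) * S.RR (S.b k) * S.acOth k)) ^ n *
        inFactor 2 0 (S.q k) ^ (n * S.a k) := by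
    rw [mul_pow, ← pow_mul, mul_comm (S.a k) n]
  rw [← e1, ← e2]
  exact S.pV.I.mem_of_dvd (sub_dvd_pow_sub_pow _ _ n) h

theorem ac_ord_om : ordAt S.pV.I (S.pC k).I (MvPolynomial.X (0, S.om)) =
    ((S.m + 2) * S.a k : ℕ) := by
  have hy2 := S.ac_b_notMem k 1
  refine ordAt_eq (t := inFactor 2 0 (S.q k)) (S.ac_pV_le k) (S.ac_q_mem k 0)
    (S.ac_q_notMem_pV k) (fun z hz => S.ac_reg k hz)
    (s := (MvPolynomial.X (1, S.b k) * S.acCo k) ^ (S.m + 2) *
      (MvPolynomial.X (1, S.b k) * S.RR (S.b k)))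
    (s' := (-(MvPolynomial.X (1, S.b k) * S.RR (S.b k) * S.acOth k)) ^ (S.m + 2) *
      (-(MvPolynomial.X (1, S.b k) ^ (S.m + 2) * mn S.al (S.b k))))
    (S.ac_mul k (S.ac_pow k _ (S.ac_mul k hy2 (S.acCo_notMem k)))
      (S.ac_mul k hy2 (S.ac_RR_notMem k)))
    (S.ac_mul k (S.ac_pow k _ (S.ac_neg k (S.ac_mul k (S.ac_mul k hy2 (S.ac_RR_notMem k))
      (S.acOth_notMem k)))) (S.ac_neg k (S.ac_mul k (S.ac_pow k _ hy2) (S.ac_mn_notMem k)))) ?_
  have h1 := S.KK_pV (S.hb k).1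
  have h2 := S.ac_rel_pow k (S.m + 2)
  have h := sub_mem (S.pV.I.mul_mem_left
      ((MvPolynomial.X (1, S.b k) * S.acCo k) ^ (S.m + 2)) h1)
    (S.pV.I.mul_mem_left (MvPolynomial.X (1, S.b k) ^ (S.m + 2) * mn S.al (S.b k)) h2)
  convert h using 1
  ring

end main

/-- Row A-C -/
lemma ord_C (k : Fin S.T) : CodimOne S.pV.I (S.pC k).I ∧
    ordAt S.pV.I (S.pC k).I (mn S.al S.om) = ((S.m + 2) * S.a k : ℕ) ∧
    ordAt S.pV.I (S.pC k).I (MvPolynomial.X (0, S.om)) = ((S.m + 2) * S.a k : ℕ) ∧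
    ordAt S.pV.I (S.pC k).I (MvPolynomial.X (1, S.om)) = ((S.m + 2) * S.a k : ℕ) := by
  have hmn := S.mn_pV (S.hb k).1 S.halom.symm
  have hx2 := S.ac_b_notMem k 0
  have hy2 := S.ac_b_notMem k 1
  refine ⟨codimOne_of (S.ac_pV_le k) (S.ac_q_mem k 0) (S.ac_q_notMem_pV k)
    (fun z hz => S.ac_reg k hz), ?_, S.ac_ord_om k, ?_⟩
  · rw [← S.ac_ord_om k, ← ordAt_unit_mul hx2 (mn S.al S.om),
      ← ordAt_unit_mul (S.ac_mn_notMem k) (MvPolynomial.X (0, S.om))]
    apply ordAt_congr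
    have h := S.pV.I.mul_mem_left (MvPolynomial.X (0, S.al)) hmn
    convert h using 1
    rw [mn, mn, mn]
    ring
  · rw [← S.ac_ord_om k, ← ordAt_unit_mul hx2 (MvPolynomial.X (1, S.om)),
      ← ordAt_unit_mul hy2 (MvPolynomial.X (0, S.om))]
    apply ordAt_congr
    exact hmn

end AData

end Kp

end Pool.Agent.RCH
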