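import Pool.Agent.RCH.KpARel

/-!
# Relation (A): the primes over the fibre square which contain `x_om` or `y_om` (row A-CLV, helper14)
-/

set_option autoImplicit false

open MvPolynomial

namespace Pool.Agent.RCH

namespace Kp

namespace AData

attribute [local instance] Pt.prime

variable {ι : Type} [Fintype ι] [DecidableEq ι] (S : AData ι)

/-- the value of `P` at a multiple of the vertex -/
lemma clv_P_vertex {L : Type} [CommRing L] (c : ℂ →+* L) (x : ι → L)
    (h : ∀ j, j ≠ S.al → x j = 0) :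
    eval₂Hom c x S.P = x S.al ^ (S.m + 2) * c S.lc := by
  have h1 : x = fun j : ι => x S.al * (fun j => c ((Pi.single S.al 1 : ι → ℂ) j)) j := by
    funext j
    by_cases hj : j = S.al
    · subst hj
      simp
    · rw [h j hj]
      simp [hj]
  have h2 := map_ev (RingHom.id ℂ) (Pi.single S.al 1 : ι → ℂ) c S.P
  have h3 : eval₂Hom c x S.P =
      eval₂Hom c (fun j : ι => x S.al * (fun j => c ((Pi.single S.al 1 : ι → ℂ) j)) j) S.P := by
    rw [← h1]
  rw [h3, ev_smul c _ S.hP]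
  congr 1
  exact h2.symm

section field

variable {D : Type} [Field D] (φ : Coord ι 2 →+* D)

lemma clv_lc : cs φ S.lc ≠ 0 := by
  intro h
  exact S.hPc ((cs φ).injective (h.trans (map_zero _).symm))

lemma clv_f0 (hφ : ∀ w ∈ S.pV.I, φ w = 0) (i : Fin 2) (h : xs φ i S.om = 0) :
    eval₂Hom (cs φ) (xs φ i) S.f0 = 0 := by
  have h1 := hφ _ (F_mem S.pV i)
  rw [map_inFactor, S.F_ev, h, zero_mul, add_zero] at h1
  exact h1

/-- the first point is the vertex -/
lemma clv_case_A (hφ : ∀ w ∈ S.pV.I, φ w = 0) (h : ∀ j, j ≠ S.al → xs φ 0 j = 0)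
    (h0 : xs φ 0 S.al ≠ 0) {z : Coord ι 2} (hz : z ∈ (S.pE 1).I) : φ z = 0 := by
  have h4 : xs φ 1 S.om = 0 := by
    have h2 := hφ _ S.HHom_pV
    have e0 : φ (MvPolynomial.X (0, S.s)) = 0 := h S.s S.hals.symm
    have e1 : φ (MvPolynomial.X (0, S.om)) = 0 := h S.om S.halom.symm
    rw [map_add, map_mul, map_mul, map_mul, map_pow, e0, zero_pow (by omega), zero_mul, zero_mul,
      zero_mul, zero_add, RR, map_sub, map_mul, map_mul, map_pow, map_pow, e1,
      zero_pow (by omega), zero_mul, sub_zero, map_inFactor, S.clv_P_vertex _ _ h] at h2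
    rcases mul_eq_zero.1 h2 with h3 | h3
    · exact pow_eq_zero_iff (by omega) |>.1 h3
    · exact absurd h3 (mul_ne_zero (pow_ne_zero _ h0) (S.clv_lc φ))
  refine kill_dE φ 1 0 (by decide) ?_ ?_ (S.clv_f0 φ hφ 1 h4) hz
  · intro j hj
    rw [Finset.mem_singleton.1 hj]
    exact h4
  · intro j hj
    exact h j fun h5 => hj (Finset.mem_singleton.2 h5)

/-- the second point is the vertex -/
lemma clv_case_B (hφ : ∀ w ∈ S.pV.I, φ w = 0) (h : ∀ j, j ≠ S.al → xs φ 1 j = 0)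
    (h0 : xs φ 1 S.al ≠ 0) {z : Coord ι 2} (hz : z ∈ (S.pE 0).I) : φ z = 0 := by
  have h4 : xs φ 0 S.om = 0 := by
    have h2 := hφ _ S.HHom_pV
    have e0 : φ (MvPolynomial.X (1, S.s)) = 0 := h S.s S.hals.symm
    have e1 : φ (MvPolynomial.X (1, S.om)) = 0 := h S.om S.halom.symm
    rw [map_add, map_mul, map_mul, map_mul, e0, mul_zero, zero_mul, zero_mul, zero_add, RR,
      map_sub, map_mul, map_mul, map_pow, map_pow, e1, zero_pow (by omega), zero_mul, zero_sub,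
      map_inFactor, S.clv_P_vertex _ _ h, neg_eq_zero] at h2
    rcases mul_eq_zero.1 h2 with h3 | h3
    · exact pow_eq_zero_iff (by omega) |>.1 h3
    · exact absurd h3 (mul_ne_zero (pow_ne_zero _ h0) (S.clv_lc φ))
  refine kill_dE φ 0 1 (by decide) ?_ ?_ (S.clv_f0 φ hφ 0 h4) hz
  · intro j hj
    rw [Finset.mem_singleton.1 hj]
    exact h4
  · intro j hj
    exact h j fun h5 => hj (Finset.mem_singleton.2 h5)

/-- the two points are proportional -/
lemma clv_case_C (hφ : ∀ w ∈ S.pV.I, φ w = 0) (i : ι) (hi : i ≠ S.al)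
    (hx : xs φ 0 i ≠ 0) (hy : xs φ 1 i ≠ 0) (h4 : xs φ 0 S.om = 0 ∨ xs φ 1 S.om = 0) :
    ∃ k, ∀ z ∈ (S.pC k).I, φ z = 0 := by
  have hmn : ∀ j, j ≠ S.al → xs φ 0 i * xs φ 1 j = xs φ 1 i * xs φ 0 j := by
    intro j hj
    have h := hφ _ (S.mn_pV hi hj)
    rw [map_mn] at h
    exact sub_eq_zero.1 h
  have hiff : ∀ j, j ≠ S.al → (xs φ 0 j = 0 ↔ xs φ 1 j = 0) := by
    intro j hj
    have h := hmn j hj
    constructor
    · intro h0
      rw [h0, mul_zero] at h
      exact (mul_eq_zero.1 h).resolve_left hx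
    · intro h0
      rw [h0, mul_zero] at h
      exact (mul_eq_zero.1 h.symm).resolve_left hy
  have hx4 : xs φ 0 S.om = 0 := h4.elim id (fun h => (hiff S.om S.halom.symm).2 h)
  have hy4 : xs φ 1 S.om = 0 := (hiff S.om S.halom.symm).1 hx4
  have hx1 : xs φ 0 S.s = 0 := by
    obtain ⟨B, hB⟩ := S.exists_BB (j := S.s) S.hals.symm
    have h := hφ _ hB
    have e4 : φ (MvPolynomial.X (0, S.om)) = 0 := hx4
    rw [map_add, map_mul, map_mul, e4, zero_mul, add_zero, map_pow, map_pow] at h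
    rcases mul_eq_zero.1 h with h | h
    · exact pow_eq_zero_iff (by omega) |>.1 h
    · exact (hiff S.s S.hals.symm).2 (pow_eq_zero_iff (by omega) |>.1 h)
  have hy1 : xs φ 1 S.s = 0 := (hiff S.s S.hals.symm).1 hx1
  have hF := S.clv_f0 φ hφ 0 hx4
  rw [S.f0_ev, hx1, zero_pow (by omega), mul_zero, zero_mul, zero_add, zero_add, S.tau_ev,
    Finset.prod_eq_zero_iff] at hF
  obtain ⟨k, -, hk⟩ := hF
  have hk1 : eval₂Hom (cs φ) (xs φ 0) (S.q k) = 0 :=
    pow_eq_zero_iff (by have := S.ha k; omega) |>.1 hk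
  set w : D := xs φ 0 i / xs φ 1 i with hw
  have hw0 : w ≠ 0 := div_ne_zero hx hy
  have hpr : ∀ j, j ≠ S.al → xs φ 0 j = xs φ 1 j * w := by
    intro j hj
    rw [hw]
    field_simp
    linear_combination -hmn j hj
  refine ⟨k, fun z hz => ?_⟩
  refine kill_dD φ 1 0 (by decide) w (isUnit_iff_ne_zero.2 hw0) ?_ ?_ ?_ hz
  · intro l j hj
    rw [Finset.mem_insert, Finset.mem_singleton] at hj
    rcases hj with rfl | rfl
    · fin_cases l
      · exact hx1
      · exact hy1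
    · fin_cases l
      · exact hx4
      · exact hy4
  · have h1 : eval₂Hom (cs φ) (xs φ 0) (S.q k) =
        eval₂Hom (cs φ) (fun j => w * xs φ 1 j) (S.q k) := by
      refine ev_congr _ _ fun j hj => ?_
      rw [hpr j (S.hqv k j hj).1, mul_comm]
    rw [h1, ev_smul _ _ (S.hqh k)] at hk1
    exact (mul_eq_zero.1 hk1).resolve_left (pow_ne_zero _ hw0)
  · intro j _ hj
    exact hpr j fun h5 => hj (Finset.mem_singleton.2 h5)

end field

omit [Fintype ι] [DecidableEq ι] in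
/-- the homomorphism to the fraction field of the quotient by a prime -/
noncomputable def clvFr (Q : Ideal (Coord ι 2)) [Q.IsPrime] :
    Coord ι 2 →+* FractionRing (Coord ι 2 ⧸ Q) :=
  (algebraMap (Coord ι 2 ⧸ Q) (FractionRing (Coord ι 2 ⧸ Q))).comp (Ideal.Quotient.mk Q)

omit [Fintype ι] [DecidableEq ι] in
lemma clvFr_eq_zero {Q : Ideal (Coord ι 2)} [Q.IsPrime] {z : Coord ι 2} :
    clvFr Q z = 0 ↔ z ∈ Q := by
  rw [clvFr, RingHom.comp_apply, FaithfulSMul.algebraMap_eq_zero_iff,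
    Ideal.Quotient.eq_zero_iff_mem]

lemma clv (Q : Ideal (Coord ι 2)) [Q.IsPrime] (h : S.pV.I ≤ Q)
    (h0 : ∃ j, (MvPolynomial.X (0, j) : Coord ι 2) ∉ Q)
    (h1 : ∃ j, (MvPolynomial.X (1, j) : Coord ι 2) ∉ Q)
    (h4 : (MvPolynomial.X (0, S.om) : Coord ι 2) ∈ Q ∨
      (MvPolynomial.X (1, S.om) : Coord ι 2) ∈ Q) :
    (S.pE 1).I ≤ Q ∨ (S.pE 0).I ≤ Q ∨ ∃ k, (S.pC k).I ≤ Q := by
  have hφ : ∀ w ∈ S.pV.I, clvFr Q w = 0 := fun w hw => clvFr_eq_zero.2 (h hw)
  by_cases hA : ∀ j, j ≠ S.al → (MvPolynomial.X (0, j) : Coord ι 2) ∈ Q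
  · left
    intro z hz
    rw [← clvFr_eq_zero]
    refine S.clv_case_A (clvFr Q) hφ (fun j hj => clvFr_eq_zero.2 (hA j hj)) ?_ hz
    intro h2
    have h3 : (MvPolynomial.X (0, S.al) : Coord ι 2) ∈ Q := clvFr_eq_zero.1 h2
    obtain ⟨j, hj⟩ := h0
    by_cases hj0 : j = S.al
    · rw [hj0] at hj
      exact hj h3
    · exact hj (hA j hj0)
  by_cases hB : ∀ j, j ≠ S.al → (MvPolynomial.X (1, j) : Coord ι 2) ∈ Q
  · right
    left
    intro z hz
    rw [← clvFr_eq_zero]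
    refine S.clv_case_B (clvFr Q) hφ (fun j hj => clvFr_eq_zero.2 (hB j hj)) ?_ hz
    intro h2
    have h3 : (MvPolynomial.X (1, S.al) : Coord ι 2) ∈ Q := clvFr_eq_zero.1 h2
    obtain ⟨j, hj⟩ := h1
    by_cases hj0 : j = S.al
    · rw [hj0] at hj
      exact hj h3
    · exact hj (hB j hj0)
  · right
    right
    push Not at hA hB
    obtain ⟨i, hi, hx⟩ := hA
    obtain ⟨j, hj, hy⟩ := hB
    have hp : Q.IsPrime := inferInstance
    have hyi : (MvPolynomial.X (1, i) : Coord ι 2) ∉ Q := by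
      intro hyi
      have h2 := h (S.mn_pV hi hj)
      rw [mn] at h2
      have h3 := add_mem h2 (Q.mul_mem_right (MvPolynomial.X (0, j)) hyi)
      rw [sub_add_cancel] at h3
      exact (hp.mem_or_mem h3).elim hx hy
    obtain ⟨k, hk⟩ := S.clv_case_C (clvFr Q) hφ i hi
      (fun h2 => hx (clvFr_eq_zero.1 h2)) (fun h2 => hyi (clvFr_eq_zero.1 h2))
      (h4.imp clvFr_eq_zero.2 clvFr_eq_zero.2)
    exact ⟨k, fun z hz => clvFr_eq_zero.1 (hk z hz)⟩

end AData

end Kp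

end Pool.Agent.RCH
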