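import Pool.Agent.RCH.KpA

/-!
# The points of relation (A) are different
-/

set_option autoImplicit false

open MvPolynomial

namespace Pool.Agent.RCH

namespace Kp

namespace AData

variable {ι : Type} [Fintype ι] [DecidableEq ι] (S : AData ι)

/-! ### Coordinates in the ideals of the points -/

lemma X_pE (i j : Fin 2) : (MvPolynomial.X (i, S.om) : Coord ι 2) ∈ (S.pE j).I := by
  rw [pE, Ept_I, X_mem_gen]
  by_cases h : i = j
  · exact (if_pos h).trans (if_pos (Finset.mem_singleton_self _))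
  · exact (if_neg h).trans (if_neg fun h1 => S.halom (Finset.mem_singleton.1 h1).symm)

lemma X_pC (i : Fin 2) (k : Fin S.T) : (MvPolynomial.X (i, S.om) : Coord ι 2) ∈ (S.pC k).I := by
  rw [pC, Dpt_I, X_mem_gen]
  exact if_pos (Finset.mem_insert_of_mem (Finset.mem_singleton_self _))

lemma s_pC (i : Fin 2) (k : Fin S.T) : (MvPolynomial.X (i, S.s) : Coord ι 2) ∈ (S.pC k).I := by
  rw [pC, Dpt_I, X_mem_gen]
  exact if_pos (Finset.mem_insert_self _ _)

/-- the coordinates of the factor on the hyperplane section -/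
lemma pE_main (i0 : Fin 2) {j : ι} (hj : j ≠ S.om) :
    (MvPolynomial.X (i0, j) : Coord ι 2) ∉ (S.pE i0).I := by
  rw [pE, Ept_I, X_mem_gen]
  simp only [dE]
  rw [if_pos trivial, if_neg fun h => hj (Finset.mem_singleton.1 h)]
  exact mk_X_ne i0 i0 S.f0_prime (not_dvd_X (n := S.m + 1) S.f0_homog _)

/-- the coordinates of the vertex -/
lemma pE_other {i0 i1 : Fin 2} (h : i1 ≠ i0) {j : ι} (hj : j ≠ S.al) :
    (MvPolynomial.X (i1, j) : Coord ι 2) ∈ (S.pE i0).I := by
  rw [pE, Ept_I, X_mem_gen]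
  exact (if_neg h).trans (if_neg fun h1 => hj (Finset.mem_singleton.1 h1))

/-- the value of a polynomial in the last coordinates at the point `pC k` -/
lemma q_pC (k j : Fin S.T) : inFactor 2 1 (S.q j) ∈ (S.pC k).I ↔ S.q k ∣ S.q j := by
  have hw : IsWeightedHomogeneous (hyp S.F).wt (S.q j) (S.e j) := S.hqh j
  rw [pC, Dpt_I, mem_genIdeal_of_homogeneous (hyp S.F) _ (inFactor_homogeneous (hyp S.F) 1 hw),
    inFactor_aeval]
  have h1 : eval₂Hom (algebraMap ℂ (RD 1 (S.q k)))
      (fun l => dD 1 {S.s, S.om} {S.al} (S.q k) (1, l)) (S.q j) =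
        Kp.mk 1 (S.q k) (inFactor 2 1 (S.q j)) := by
    rw [map_inFactor]
    refine ev_congr _ _ fun l hl => ?_
    have h := S.hqv j l hl
    simp only [dD]
    rw [if_neg, if_neg]
    · rfl
    · exact fun h1 => h.1 (Finset.mem_singleton.1 h1)
    · rw [Finset.mem_insert, Finset.mem_singleton]
      exact fun h1 => h1.elim h.2.1 h.2.2
  have h2 : aeval (fun l => dD 1 {S.s, S.om} {S.al} (S.q k) (1, l)) (S.q j) =
      Kp.mk 1 (S.q k) (inFactor 2 1 (S.q j)) := h1
  rw [h2, mk_eq_zero, ← Ideal.mem_span_singleton, inFactor_zero_iff]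

/-! ### The points are different -/

lemma pE_ne : S.pE 0 ≠ S.pE 1 ∧ ∀ i k, S.pE i ≠ S.pC k := by
  constructor
  · intro h
    have h1 := S.pE_other (i0 := 1) (i1 := 0) (by decide) S.hals.symm
    rw [← h] at h1
    exact S.pE_main 0 S.hsom h1
  · intro i k h
    have h1 := S.s_pC i k
    rw [← h] at h1
    exact S.pE_main i S.hsom h1

lemma pC_inj : Function.Injective S.pC := by
  intro j k h
  by_contra hjk
  refine S.hqn k j (fun h => hjk h.symm) ?_
  rw [← S.q_pC, ← h, S.q_pC]

end AData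

end Kp

end Pool.Agent.RCH
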