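import Pool.Agent.RCH.Ord2

/-!
# Local comparison of orders of vanishing, and primes between an ideal and a prime
-/

set_option autoImplicit false

namespace Pool.Agent.RCH

open Ideal

section loc

variable {S : Type} [CommRing S]

/-- `I ⊆ J` near the prime `Q` -/
def LocLe (Q I J : Ideal S) : Prop := ∀ z ∈ I, ∃ s, s ∉ Q ∧ s * z ∈ J

variable {Q I J K : Ideal S} [hQ : Q.IsPrime]

/-- the elements which are in `J` near `Q` -/
def satur (Q J : Ideal S) [hQ : Q.IsPrime] : Ideal S where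
  carrier := {z | ∃ s, s ∉ Q ∧ s * z ∈ J}
  zero_mem' := ⟨1, fun h => hQ.ne_top ((Ideal.eq_top_iff_one Q).2 h), by rw [mul_zero]; exact J.zero_mem⟩
  add_mem' := by
    rintro x y ⟨s, hs, hx⟩ ⟨r, hr, hy⟩
    refine ⟨s * r, fun h => (hQ.mem_or_mem h).elim hs hr, ?_⟩
    have e : s * r * (x + y) = r * (s * x) + s * (r * y) := by ring
    rw [e]
    exact J.add_mem (J.mul_mem_left _ hx) (J.mul_mem_left _ hy)
  smul_mem' := by
    rintro c x ⟨s, hs, hx⟩
    refine ⟨s, hs, ?_⟩
    have e : s * (c • x) = c * (s * x) := by rw [smul_eq_mul]; ring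
    rw [e]
    exact J.mul_mem_left _ hx

lemma mem_satur {z : S} : z ∈ satur Q J ↔ ∃ s, s ∉ Q ∧ s * z ∈ J := Iff.rfl

lemma locLe_iff : LocLe Q I J ↔ I ≤ satur Q J := Iff.rfl

lemma le_satur : J ≤ satur Q J := fun z hz =>
  ⟨1, fun h => hQ.ne_top ((Ideal.eq_top_iff_one Q).2 h), by rwa [one_mul]⟩

lemma LocLe.of_le (h : I ≤ J) : LocLe Q I J := fun _ hz => le_satur (h hz)

lemma satur_satur : satur Q (satur Q J) = satur Q J := by
  apply le_antisymm
  · rintro z ⟨s, hs, r, hr, h⟩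
    refine ⟨r * s, fun h => (hQ.mem_or_mem h).elim hr hs, ?_⟩
    rwa [mul_assoc]
  · exact le_satur

lemma satur_mono (h : I ≤ J) : satur Q I ≤ satur Q J := by
  rintro z ⟨s, hs, hz⟩
  exact ⟨s, hs, h hz⟩

lemma LocLe.trans (h : LocLe Q I J) (h' : LocLe Q J K) : LocLe Q I K := by
  rw [locLe_iff] at *
  refine h.trans ?_
  rw [← satur_satur (J := K)]
  exact satur_mono h'

lemma LocLe.sup (h : LocLe Q I K) (h' : LocLe Q J K) : LocLe Q (I ⊔ J) K := by
  rw [locLe_iff] at *
  exact sup_le h h'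

lemma LocLe.sup_left (h : LocLe Q I J) : LocLe Q (I ⊔ K) (J ⊔ K) :=
  (h.trans (LocLe.of_le le_sup_left)).sup (LocLe.of_le le_sup_right)

/-- it is enough to check generators -/
lemma LocLe.span {s : Set S} (h : ∀ z ∈ s, ∃ r, r ∉ Q ∧ r * z ∈ J) : LocLe Q (span s) J := by
  rw [locLe_iff, Ideal.span_le]
  exact h

lemma LocLe.map_le (h : LocLe Q I J) :
    I.map (algebraMap S (Localization.AtPrime Q)) ≤
      J.map (algebraMap S (Localization.AtPrime Q)) := by
  rw [Ideal.map_le_iff_le_comap]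
  intro z hz
  obtain ⟨s, hs, h'⟩ := h z hz
  have hu := IsLocalization.map_units (Localization.AtPrime Q) (⟨s, hs⟩ : Q.primeCompl)
  rw [Ideal.mem_comap, ← Ideal.unit_mul_mem_iff_mem _ hu]
  have h2 := Ideal.mem_map_of_mem (algebraMap S (Localization.AtPrime Q)) h'
  rwa [map_mul] at h2

omit hQ in
/-- a prime below `Q` is saturated -/
lemma LocLe.le_of_le {P : Ideal S} [hP : P.IsPrime] (hPQ : P ≤ Q) (h : LocLe Q I P) : I ≤ P := by
  intro z hz
  obtain ⟨s, hs, h'⟩ := h z hz
  exact (hP.mem_or_mem h').resolve_left fun hsP => hs (hPQ hsP)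

/-- The order of vanishing depends only on the ideal generated near `Q`. -/
theorem ordAt_eq_of_locLe {P P' : Ideal S} {g f : S}
    (h : LocLe Q (P ⊔ Ideal.span {g}) (P' ⊔ Ideal.span {f}))
    (h' : LocLe Q (P' ⊔ Ideal.span {f}) (P ⊔ Ideal.span {g})) :
    ordAt P Q g = ordAt P' Q f := by
  unfold ordAt
  rw [le_antisymm h.map_le h'.map_le]

end loc

section krull

variable {S : Type} [CommRing S] [IsNoetherianRing S]

/-- A prime of height larger than the number of generators of an ideal below it is not minimal over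
this ideal. -/
theorem exists_prime_lt {Q J : Ideal S} [hQ : Q.IsPrime] (hJQ : J ≤ Q) (s : Finset S)
    (hs : J = Ideal.span (s : Set S)) (hn : (s.card : ℕ∞) < Q.height) :
    ∃ L : Ideal S, L.IsPrime ∧ J ≤ L ∧ L < Q := by
  obtain ⟨L, hL, hLQ⟩ := Ideal.exists_minimalPrimes_le hJQ
  refine ⟨L, hL.1.1, hL.1.2, lt_of_le_of_ne hLQ ?_⟩
  rintro rfl
  rw [hs] at hL
  exact absurd (Ideal.height_le_card_of_mem_minimalPrimes_span_finset hL) (not_le.2 hn)

/-- the same with a uniformizer which is not in the smaller prime -/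
theorem exists_prime_lt_notMem {Q J : Ideal S} [hQ : Q.IsPrime] (hJQ : J ≤ Q) (s : Finset S)
    (hs : J = Ideal.span (s : Set S)) (hn : (s.card : ℕ∞) < Q.height) {t : S}
    (h : LocLe Q Q (J ⊔ Ideal.span {t})) :
    ∃ L : Ideal S, L.IsPrime ∧ J ≤ L ∧ L < Q ∧ t ∉ L := by
  obtain ⟨L, hL, hJL, hLQ⟩ := exists_prime_lt hJQ s hs hn
  refine ⟨L, hL, hJL, hLQ, fun ht => hLQ.not_ge ?_⟩
  have h1 : J ⊔ Ideal.span {t} ≤ L := by
    refine sup_le hJL ?_
    rwa [Ideal.span_le, Set.singleton_subset_iff]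
  exact (h.trans (LocLe.of_le h1)).le_of_le hLQ.le

omit [IsNoetherianRing S] in
/-- a chain of primes gives a lower bound for the height -/
lemma height_ge_of_chain {n : ℕ} (P : Fin (n + 1) → Ideal S) (hP : ∀ i, (P i).IsPrime)
    (hlt : ∀ i : Fin n, P i.castSucc < P i.succ) : (n : ℕ∞) ≤ (P (Fin.last n)).height := by
  induction n with
  | zero => simp
  | succ n ih =>
    have h1 := ih (fun i => P i.castSucc) (fun i => hP _) (fun i => hlt i.castSucc)
    have hp1 := hP (Fin.last (n + 1))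
    have hp2 := hP (Fin.last n).castSucc
    have h2 := Ideal.height_add_one_le_of_lt_of_isPrime (hlt (Fin.last n))
    have h3 : ((n + 1 : ℕ) : ℕ∞) ≤ (P (Fin.last n).castSucc).height + 1 := by
      push_cast
      exact add_le_add_left h1 1
    exact h3.trans h2

end krull

end Pool.Agent.RCH
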