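import Pool.Agent.RCH.KpJac
import Pool.Agent.RCH.LnGen
import Pool.Agent.RCH.Lift

/-!
# Jacobian bound and Krull: a prime between, which does not contain the uniformizer
-/

set_option autoImplicit false

open MvPolynomial

namespace Pool.Agent.RCH

namespace Kp

/-- Row K-JAC2 -/
theorem kj {σ : Type} [Finite σ] {Q : Ideal (MvPolynomial σ ℂ)} [Q.IsPrime]
    {κ : Type} [Fintype κ] (q : κ → MvPolynomial σ ℂ) (t : MvPolynomial σ ℂ) (hq : ∀ i, q i ∈ Q)
    (ht : t ∈ Q)
    (hloc : ∀ z ∈ Q, toLocMod (Ideal.span (Set.range q) ⊔ Ideal.span {t}) Q z = 0)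
    (hjac : ∀ (c : κ → MvPolynomial σ ℂ) (d : MvPolynomial σ ℂ),
      (∀ v : σ, ∑ i, c i * pderiv v (q i) + d * pderiv v t ∈ Q) → (∀ i, c i ∈ Q) ∧ d ∈ Q) :
    ∃ L : Ideal (MvPolynomial σ ℂ), L.IsPrime ∧ (∀ i, q i ∈ L) ∧ L < Q ∧ t ∉ L := by
  classical
  have h1 : (Fintype.card (Option κ) : ℕ∞) ≤ Q.height := by
    refine le_height_of_pderiv (Option.elim' t q) ?_ ?_
    · rintro (_ | i)
      · exact ht
      · exact hq i
    · intro c hc
      have h2 := hjac (fun i => c (some i)) (c none) (fun v => by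
        have h3 := hc v
        rw [Fintype.sum_option, add_comm] at h3
        exact h3)
      rintro (_ | i)
      · exact h2.2
      · exact h2.1 i
  have hcard : ((Finset.univ.image q).card : ℕ∞) < Q.height := by
    refine lt_of_lt_of_le ?_ h1
    have h2 : (Finset.univ.image q).card < Fintype.card (Option κ) := by
      rw [Fintype.card_option]
      exact Nat.lt_succ_of_le Finset.card_image_le
    exact_mod_cast h2
  have hcoe : ((Finset.univ.image q : Finset (MvPolynomial σ ℂ)) :
      Set (MvPolynomial σ ℂ)) = Set.range q := by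
    rw [Finset.coe_image, Finset.coe_univ, Set.image_univ]
  have hJ : Ideal.span (Set.range q) ≤ Q := by
    rw [Ideal.span_le]
    rintro _ ⟨i, rfl⟩
    exact hq i
  obtain ⟨L, hL, hJL, hLQ, htL⟩ := exists_prime_lt_notMem hJ (Finset.univ.image q)
    (by rw [hcoe]) hcard (t := t) (fun z hz => exists_of_toLocMod_eq_zero (hloc z hz))
  exact ⟨L, hL, fun i => hJL (Ideal.subset_span ⟨i, rfl⟩), hLQ, htL⟩

end Kp

end Pool.Agent.RCH
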