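import Pool.Agent.RCH.KpARel
import Pool.Agent.RCH.KpJac2

/-!
# Relation (A): the point `pE 1`; the uniformizer is `X (0, s)` (row A-E, helper14)
-/

set_option autoImplicit false

open MvPolynomial

namespace Pool.Agent.RCH

namespace Kp

namespace AData

attribute [local instance] Pt.prime

variable {ι : Type} [Fintype ι] [DecidableEq ι] (S : AData ι)

/-! ### Members of the ideal -/

lemma ae_X0 {j : ι} (hj : j ≠ S.al) : (MvPolynomial.X (0, j) : Coord ι 2) ∈ (S.pE 1).I := by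
  show _ ∈ genIdeal (hyp S.F) (dE 1 {S.al} {S.om} S.f0)
  rw [X_mem_gen]
  simp only [dE]
  rw [if_neg (by decide), if_neg fun h => hj (Finset.mem_singleton.1 h)]

lemma ae_om : (MvPolynomial.X (1, S.om) : Coord ι 2) ∈ (S.pE 1).I := by
  show _ ∈ genIdeal (hyp S.F) (dE 1 {S.al} {S.om} S.f0)
  rw [X_mem_gen]
  simp only [dE]
  rw [if_pos trivial, if_pos (Finset.mem_singleton_self _)]

lemma ae_al : (MvPolynomial.X (0, S.al) : Coord ι 2) ∉ (S.pE 1).I := by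
  show _ ∉ genIdeal (hyp S.F) (dE 1 {S.al} {S.om} S.f0)
  rw [X_mem_gen]
  simp only [dE]
  rw [if_neg (by decide), if_pos (Finset.mem_singleton_self _)]
  exact mk_X_ne 1 0 S.f0_prime (not_dvd_X (n := S.m + 1) S.f0_homog _)

lemma ae_s1 : (MvPolynomial.X (1, S.s) : Coord ι 2) ∉ (S.pE 1).I := by
  show _ ∉ genIdeal (hyp S.F) (dE 1 {S.al} {S.om} S.f0)
  rw [X_mem_gen]
  simp only [dE]
  rw [if_pos trivial, if_neg fun h => S.hsom (Finset.mem_singleton.1 h)]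
  exact mk_X_ne 1 1 S.f0_prime (not_dvd_X (n := S.m + 1) S.f0_homog _)

/-- the quotient by the ideal -/
noncomputable def aeq : Coord ι 2 →+* Coord ι 2 ⧸ (S.pE 1).I := Ideal.Quotient.mk _

lemma aeq_eq_zero {z : Coord ι 2} : S.aeq z = 0 ↔ z ∈ (S.pE 1).I :=
  Ideal.Quotient.eq_zero_iff_mem

lemma aeq_s0 : xs S.aeq 0 S.s = 0 := S.aeq_eq_zero.2 (S.ae_X0 S.hals.symm)

lemma aeq_s1 : xs S.aeq 1 S.s ≠ 0 := fun h => S.ae_s1 (S.aeq_eq_zero.1 h)

lemma aeq_om : xs S.aeq 1 S.om = 0 := S.aeq_eq_zero.2 S.ae_om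

/-- the value of `P` at a multiple of the vertex -/
lemma ae_P_vertex {L : Type} [CommRing L] (c : ℂ →+* L) (x : ι → L)
    (h : ∀ j, j ≠ S.al → x j = 0) :
    eval₂Hom c x S.P = x S.al ^ (S.m + 2) * c S.lc := by
  have h1 : x = fun j : ι => x S.al * (fun j => c ((Pi.single S.al 1 : ι → ℂ) j)) j := by
    funext j
    by_cases hj : j = S.al
    · subst hj
      simp
    · rw [h j hj]
      simp [hj]
  have h2 := map_ev (RingHom.id ℂ) (Pi.single S.al 1 : ι → ℂ) c S.P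
  have h3 : eval₂Hom c x S.P =
      eval₂Hom c (fun j : ι => x S.al * (fun j => c ((Pi.single S.al 1 : ι → ℂ) j)) j) S.P := by
    rw [← h1]
  rw [h3, ev_smul c _ S.hP]
  congr 1
  exact h2.symm

lemma ae_RR : S.RR S.s ∉ (S.pE 1).I := by
  have hp : (S.pE 1).I.IsPrime := (S.pE 1).prime
  have : IsDomain (Coord ι 2 ⧸ (S.pE 1).I) := Ideal.Quotient.isDomain _
  have e4 : eval₂Hom (cs S.aeq) (xs S.aeq 0) S.P = xs S.aeq 0 S.al ^ (S.m + 2) * cs S.aeq S.lc :=
    S.ae_P_vertex _ _ fun j hj => S.aeq_eq_zero.2 (S.ae_X0 hj)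
  rw [← aeq_eq_zero, RR, map_sub, map_mul, map_mul, map_pow, map_pow, map_inFactor, e4]
  have e0 : S.aeq (MvPolynomial.X (0, S.s)) = 0 := S.aeq_s0
  have e1 : S.aeq (MvPolynomial.X (1, S.s)) ≠ 0 := S.aeq_s1
  have e2 : xs S.aeq 0 S.al ≠ 0 := fun h => S.ae_al (S.aeq_eq_zero.1 h)
  have e3 : IsUnit (cs S.aeq S.lc) := (IsUnit.mk0 _ S.hPc).map (cs S.aeq)
  rw [e0, zero_pow (by omega), zero_mul, sub_zero]
  exact mul_ne_zero (pow_ne_zero _ e1) (mul_ne_zero (pow_ne_zero _ e2) e3.ne_zero)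

lemma ae_NN : mn S.al S.s ∉ (S.pE 1).I := by
  have hp : (S.pE 1).I.IsPrime := (S.pE 1).prime
  have : IsDomain (Coord ι 2 ⧸ (S.pE 1).I) := Ideal.Quotient.isDomain _
  rw [← aeq_eq_zero, map_mn, S.aeq_s0, mul_zero, sub_zero]
  exact mul_ne_zero (fun h => S.ae_al (S.aeq_eq_zero.1 h)) S.aeq_s1

lemma ae_mn {j : ι} (hj : j ≠ S.al) : mn S.s j ∈ (S.pE 1).I := by
  have h0 : xs S.aeq 0 j = 0 := S.aeq_eq_zero.2 (S.ae_X0 hj)
  rw [← aeq_eq_zero, map_mn, S.aeq_s0, h0, zero_mul, mul_zero, sub_zero]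

lemma ae_HH : S.HH ∈ (S.pE 1).I := by
  have e0 : S.aeq (MvPolynomial.X (0, S.s)) = 0 := S.aeq_s0
  have e1 : S.aeq (MvPolynomial.X (1, S.om)) = 0 := S.aeq_om
  rw [← aeq_eq_zero, HH, map_add, map_mul, map_mul, map_mul, map_pow, e0, e1,
    zero_pow (by omega), zero_mul, zero_mul, zero_mul, add_zero]

/-! ### Killing the ideal -/

lemma ae_kill {L : Type} [CommRing L] (φ : Coord ι 2 →+* L) (hs : xs φ 0 S.s = 0)
    (hy : IsUnit (xs φ 1 S.s)) (hR : IsUnit (φ (S.RR S.s)))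
    (hmn : ∀ j, j ≠ S.al → j ≠ S.s → φ (mn S.s j) = 0) (hH : φ S.HH = 0)
    (hF : φ (inFactor 2 1 S.F) = 0) {z : Coord ι 2} (hz : z ∈ (S.pE 1).I) : φ z = 0 := by
  have hs' : φ (MvPolynomial.X (0, S.s)) = 0 := hs
  have h4 : xs φ 1 S.om = 0 := by
    rw [HH, map_add, map_mul, map_mul, map_mul, map_pow, hs', zero_pow (by omega), zero_mul,
      zero_mul, zero_add] at hH
    exact (hR.mul_left_eq_zero).1 hH
  refine kill_dE φ 1 0 (by decide) ?_ ?_ ?_ hz
  · intro j hj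
    rw [Finset.mem_singleton.1 hj]
    exact h4
  · intro j hj
    have hj' : j ≠ S.al := fun h => hj (Finset.mem_singleton.2 h)
    by_cases hjs : j = S.s
    · rw [hjs]
      exact hs
    · have h := hmn j hj' hjs
      rw [map_mn, hs, zero_mul, zero_sub, neg_eq_zero] at h
      exact (hy.mul_right_eq_zero).1 h
  · rw [map_inFactor, S.F_ev, h4, zero_mul, add_zero] at hF
    exact hF

/-! ### The family and the Jacobian condition -/

/-- the indices of the equations -/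
abbrev AEκ : Type := Option (Option {j : ι // j ≠ S.al ∧ j ≠ S.s})

/-- the equations -/
noncomputable def aefam : S.AEκ → Coord ι 2
  | none => inFactor 2 1 S.F
  | some none => S.HH
  | some (some j) => mn S.s j.1

lemma aefam_mem (i : S.AEκ) : S.aefam i ∈ (S.pE 1).I := by
  rcases i with _ | _ | j
  · exact F_mem _ 1
  · exact S.ae_HH
  · exact S.ae_mn j.2.1

lemma ae_pd_F : S.aeq (pderiv (1, S.al) (inFactor 2 1 S.F)) = xs S.aeq 1 S.s ^ (S.m + 2) := by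
  have hinj : Function.Injective (fun j : ι => ((1, j) : Fin 2 × ι)) :=
    fun a b hab => (Prod.mk.inj hab).2
  have h1 : pderiv (1, S.al) (inFactor 2 1 S.F) = inFactor 2 1 (pderiv S.al S.F) :=
    pderiv_rename hinj S.al S.F
  rw [h1, pderiv_F, map_inFactor, dF_ev, S.aeq_om, zero_mul, add_zero]

lemma ae_pd_X (v w : Fin 2 × ι) :
    S.aeq (pderiv v (MvPolynomial.X w)) = if v = w then 1 else 0 := by
  by_cases h : v = w
  · rw [if_pos h, h, pderiv_X_self, map_one]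
  · rw [if_neg h, pderiv_X_of_ne (Ne.symm h), map_zero]

lemma ae_pd_HH {v : Fin 2 × ι} (hv : v ≠ (0, S.s)) :
    S.aeq (pderiv v S.HH) = if v = (1, S.om) then S.aeq (S.RR S.s) else 0 := by
  have e1 : pderiv v (MvPolynomial.X (0, S.s) : Coord ι 2) = 0 := pderiv_X_of_ne hv.symm
  have e2 : S.aeq (MvPolynomial.X (1, S.om)) = 0 := S.aeq_om
  have e3 : S.aeq (MvPolynomial.X (0, S.s)) = 0 := S.aeq_s0
  obtain ⟨A, h0⟩ : ∃ A : Coord ι 2, S.HH = MvPolynomial.X (0, S.s) ^ (S.m + 1) * A +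
      MvPolynomial.X (1, S.om) * S.RR S.s := by
    refine ⟨MvPolynomial.X (1, S.s) ^ (S.m + 2) * mn S.al S.s, ?_⟩
    rw [HH]
    ring
  rw [h0, map_add, pderiv_mul, pderiv_mul, pderiv_pow, e1, mul_zero, zero_mul, zero_add,
    map_add, map_add, map_mul, map_mul, map_mul, map_pow, e2, e3, zero_mul,
    zero_pow (by omega), zero_mul, zero_add, add_zero]
  by_cases h : v = (1, S.om)
  · rw [if_pos h, h, pderiv_X_self, map_one, one_mul]
  · rw [if_neg h, pderiv_X_of_ne (Ne.symm h), map_zero, zero_mul]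

lemma ae_pd_mn (v : Fin 2 × ι) {j : ι} (hj : j ≠ S.al) (hv : v ≠ (0, S.s)) :
    S.aeq (pderiv v (mn S.s j)) = if v = (0, j) then -xs S.aeq 1 S.s else 0 := by
  have e1 : pderiv v (MvPolynomial.X (0, S.s) : Coord ι 2) = 0 := pderiv_X_of_ne hv.symm
  have e3 : S.aeq (MvPolynomial.X (0, S.s)) = 0 := S.aeq_s0
  have e4 : S.aeq (MvPolynomial.X (0, j)) = 0 := S.aeq_eq_zero.2 (S.ae_X0 hj)
  rw [mn, map_sub, pderiv_mul, pderiv_mul, e1, zero_mul, zero_add, map_sub, map_mul, map_add,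
    map_mul, map_mul, e3, e4, zero_mul, mul_zero, zero_add, zero_sub]
  by_cases h : v = (0, j)
  · rw [if_pos h, h, pderiv_X_self, map_one, mul_one]
    rfl
  · rw [if_neg h, pderiv_X_of_ne (Ne.symm h), map_zero, mul_zero, neg_zero]

lemma ae_jac (c : S.AEκ → Coord ι 2) (d : Coord ι 2)
    (h : ∀ v : Fin 2 × ι, ∑ i, c i * pderiv v (S.aefam i) +
      d * pderiv v (MvPolynomial.X (0, S.s)) ∈ (S.pE 1).I) :
    (∀ i, c i ∈ (S.pE 1).I) ∧ d ∈ (S.pE 1).I := by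
  have hp : (S.pE 1).I.IsPrime := (S.pE 1).prime
  have : IsDomain (Coord ι 2 ⧸ (S.pE 1).I) := Ideal.Quotient.isDomain _
  have key : ∀ v : Fin 2 × ι, S.aeq (c none) * S.aeq (pderiv v (inFactor 2 1 S.F)) +
      (S.aeq (c (some none)) * S.aeq (pderiv v S.HH) +
        ∑ j : {j : ι // j ≠ S.al ∧ j ≠ S.s}, S.aeq (c (some (some j))) *
            S.aeq (pderiv v (mn S.s j.1))) +
      S.aeq d * S.aeq (pderiv v (MvPolynomial.X (0, S.s))) = 0 := by
    intro v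
    have h1 := S.aeq_eq_zero.2 (h v)
    rw [map_add, map_mul, map_sum, Fintype.sum_option, Fintype.sum_option] at h1
    simp only [map_mul] at h1
    exact h1
  have hf : S.aeq (c none) = 0 := by
    have h1 := key (1, S.al)
    have hne : ((1, S.al) : Fin 2 × ι) ≠ (0, S.s) := by simp
    have hne2 : ((1, S.al) : Fin 2 × ι) ≠ (1, S.om) := by
      intro h2
      exact S.halom (Prod.mk.inj h2).2
    have hs2 : ∑ j : {j : ι // j ≠ S.al ∧ j ≠ S.s}, S.aeq (c (some (some j))) *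
        S.aeq (pderiv (1, S.al) (mn S.s j.1)) = 0 := by
      refine Finset.sum_eq_zero fun j _ => ?_
      rw [ae_pd_mn S _ j.2.1 hne, if_neg (by simp), mul_zero]
    rw [hs2, ae_pd_HH S hne, if_neg hne2, ae_pd_X, if_neg hne, ae_pd_F, mul_zero, mul_zero,
      add_zero, add_zero, add_zero] at h1
    exact (mul_eq_zero.1 h1).resolve_right (pow_ne_zero _ S.aeq_s1)
  have hH : S.aeq (c (some none)) = 0 := by
    have h1 := key (1, S.om)
    have hne : ((1, S.om) : Fin 2 × ι) ≠ (0, S.s) := by simp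
    have hs2 : ∑ j : {j : ι // j ≠ S.al ∧ j ≠ S.s}, S.aeq (c (some (some j))) *
        S.aeq (pderiv (1, S.om) (mn S.s j.1)) = 0 := by
      refine Finset.sum_eq_zero fun j _ => ?_
      rw [ae_pd_mn S _ j.2.1 hne, if_neg (by simp), mul_zero]
    rw [hs2, ae_pd_HH S hne, if_pos rfl, ae_pd_X, if_neg hne, hf, mul_zero, zero_mul,
      add_zero, add_zero, zero_add] at h1
    exact (mul_eq_zero.1 h1).resolve_right fun h2 => S.ae_RR (S.aeq_eq_zero.1 h2)
  have hM : ∀ j : {j : ι // j ≠ S.al ∧ j ≠ S.s}, S.aeq (c (some (some j))) = 0 := by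
    intro j
    have h1 := key (0, j.1)
    have hne : ((0, j.1) : Fin 2 × ι) ≠ (0, S.s) := by
      intro h2
      exact j.2.2 (Prod.mk.inj h2).2
    have hs2 : ∑ l : {j : ι // j ≠ S.al ∧ j ≠ S.s}, S.aeq (c (some (some l))) *
        S.aeq (pderiv (0, j.1) (mn S.s l.1)) =
          S.aeq (c (some (some j))) * -xs S.aeq 1 S.s := by
      rw [Finset.sum_eq_single j]
      · rw [ae_pd_mn S _ j.2.1 hne, if_pos rfl]
      · intro l _ hl
        rw [ae_pd_mn S _ l.2.1 hne, if_neg, mul_zero]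
        intro h2
        exact hl (Subtype.ext (Prod.mk.inj h2).2.symm)
      · intro h2
        exact absurd (Finset.mem_univ _) h2
    rw [hs2, hf, hH, ae_pd_X, if_neg hne, mul_zero, zero_mul, zero_mul, zero_add,
      zero_add, add_zero] at h1
    exact (mul_eq_zero.1 h1).resolve_right (neg_ne_zero.2 S.aeq_s1)
  have hd : S.aeq d = 0 := by
    have h1 := key (0, S.s)
    have hs2 : ∑ j : {j : ι // j ≠ S.al ∧ j ≠ S.s}, S.aeq (c (some (some j))) *
        S.aeq (pderiv (0, S.s) (mn S.s j.1)) = 0 :=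
      Finset.sum_eq_zero fun j _ => by rw [hM, zero_mul]
    rw [hs2, hf, hH, ae_pd_X, if_pos rfl, mul_one, zero_mul, zero_mul, zero_add,
      zero_add, zero_add] at h1
    exact h1
  refine ⟨fun i => ?_, S.aeq_eq_zero.1 hd⟩
  rw [← aeq_eq_zero]
  rcases i with _ | _ | j
  · exact hf
  · exact hH
  · exact hM j

/-! ### The relation between the two equations -/

lemma ae_rel {L : Type} [CommRing L] (c : ℂ →+* L) (x y : ι → L)
    (h : ∀ j, j ≠ S.al → x S.s * y j = y S.s * x j) :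
    y S.s ^ (S.m + 3) * eval₂Hom c x S.F - x S.s ^ (S.m + 3) * eval₂Hom c y S.F =
      x S.s * (x S.s ^ (S.m + 1) * y S.s ^ (S.m + 2) * (x S.al * y S.s - y S.al * x S.s) +
        y S.om * (y S.s ^ (S.m + 2) * eval₂Hom c x S.P -
          x S.s ^ (S.m + 2) * eval₂Hom c y S.P)) := by
  have hg : y S.s ^ (S.m + 2) * eval₂Hom c x S.g = x S.s ^ (S.m + 2) * eval₂Hom c y S.g := by
    rw [← ev_smul c _ S.hgh, ← ev_smul c _ S.hgh]
    refine ev_congr _ _ fun j hj => ?_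
    exact (h j (S.hgv j hj).1).symm
  have ht : y S.s ^ (S.m + 3) * eval₂Hom c x S.tau = x S.s ^ (S.m + 3) * eval₂Hom c y S.tau := by
    rw [← ev_smul c _ S.tau_homog, ← ev_smul c _ S.tau_homog]
    refine ev_congr _ _ fun j hj => ?_
    exact (h j (S.tau_vars hj).1).symm
  have ho := h S.om S.halom.symm
  rw [S.F_ev, S.F_ev, S.f0_ev, S.f0_ev]
  have e1 : y S.s ^ (S.m + 3) = y S.s ^ (S.m + 2) * y S.s := pow_succ _ _
  have e2 : x S.s ^ (S.m + 3) = x S.s ^ (S.m + 2) * x S.s := pow_succ _ _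
  have e3 : x S.s ^ (S.m + 2) = x S.s ^ (S.m + 1) * x S.s := pow_succ _ _
  linear_combination ht + (x S.s * y S.s) * hg -
    (y S.s ^ (S.m + 2) * eval₂Hom c x S.P) * ho

/-! ### The point is above the fibre square -/

/-- the homomorphism to the fraction field of the quotient by a prime -/
noncomputable def aeFr (Q : Ideal (Coord ι 2)) [Q.IsPrime] :
    Coord ι 2 →+* FractionRing (Coord ι 2 ⧸ Q) :=
  (algebraMap (Coord ι 2 ⧸ Q) (FractionRing (Coord ι 2 ⧸ Q))).comp (Ideal.Quotient.mk Q)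

omit [Fintype ι] [DecidableEq ι] in
lemma aeFr_eq_zero {Q : Ideal (Coord ι 2)} [Q.IsPrime] {z : Coord ι 2} :
    aeFr Q z = 0 ↔ z ∈ Q := by
  rw [aeFr, RingHom.comp_apply, FaithfulSMul.algebraMap_eq_zero_iff,
    Ideal.Quotient.eq_zero_iff_mem]

/-- `kill_V` in a field -/
lemma ae_kill_V {D : Type} [Field D] (φ : Coord ι 2 →+* D) (a : ι) (ha : a ≠ S.al)
    (hx : xs φ 0 a ≠ 0) (hy : xs φ 1 a ≠ 0) (hN : φ (mn S.al a) ≠ 0)
    (hmn : ∀ j, j ≠ S.al → φ (mn a j) = 0) (hu : xs φ 0 S.om ≠ 0)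
    (hF : ∀ i, eval₂Hom (cs φ) (xs φ i) S.F = 0) {z : Coord ι 2} (hz : z ∈ S.pV.I) :
    φ z = 0 := by
  have hpr : ∀ j, j ≠ S.al → xs φ 0 a * xs φ 1 j = xs φ 1 a * xs φ 0 j := by
    intro j hj
    have h := hmn j hj
    rw [map_mn] at h
    exact sub_eq_zero.1 h
  rw [map_mn] at hN
  set w : D := xs φ 1 a / xs φ 0 a with hw
  have hw0 : w ≠ 0 := div_ne_zero hy hx
  have hxw : xs φ 0 a * w = xs φ 1 a := by
    rw [hw]
    field_simp
  have h1 : ∀ j, j ≠ S.al → xs φ 1 j = xs φ 0 j * w := by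
    intro j hj
    apply mul_left_cancel₀ hx
    rw [hpr j hj, ← hxw]
    ring
  refine S.kill_V φ w h1 (xs φ 1 S.al / w) (by field_simp) (isUnit_iff_ne_zero.2 hu) (hF 0) ?_ hz
  refine eval_quoF_of_ne _ _ _ (hF 0) ?_ ?_
  · have h2 : Function.update (xs φ 0) S.al (xs φ 1 S.al / w) = fun j => w⁻¹ * xs φ 1 j := by
      funext j
      by_cases hj : j = S.al
      · rw [hj, Function.update_self]
        field_simp
      · rw [Function.update_of_ne hj, h1 j hj]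
        field_simp
    rw [h2, ev_smul _ _ S.F_homog, hF 1, mul_zero]
  · intro h2
    apply hN
    have h3 : xs φ 1 S.al = xs φ 0 S.al * w := by
      rw [← h2]
      field_simp
    rw [h3, ← hxw]
    ring

lemma ae_le : S.pV.I ≤ (S.pE 1).I := by
  obtain ⟨L, hL, hq, hlt, htL⟩ := kj (Q := (S.pE 1).I) S.aefam (MvPolynomial.X (0, S.s))
    S.aefam_mem (S.ae_X0 S.hals.symm)
    (fun z hz => S.ae_kill
      (toLocMod (Ideal.span (Set.range S.aefam) ⊔ Ideal.span {MvPolynomial.X (0, S.s)})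
        (S.pE 1).I)
      (toLocMod_eq_zero_of_mem (Ideal.mem_sup_right (Ideal.mem_span_singleton_self _)))
      (isUnit_toLocMod S.ae_s1) (isUnit_toLocMod S.ae_RR)
      (fun j hj hjs => toLocMod_eq_zero_of_mem (Ideal.mem_sup_left
        (Ideal.subset_span ⟨some (some ⟨j, hj, hjs⟩), rfl⟩)))
      (toLocMod_eq_zero_of_mem (Ideal.mem_sup_left (Ideal.subset_span ⟨some none, rfl⟩)))
      (toLocMod_eq_zero_of_mem (Ideal.mem_sup_left (Ideal.subset_span ⟨none, rfl⟩))) hz)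
    S.ae_jac
  have hmnL : ∀ j, j ≠ S.al → mn S.s j ∈ L := by
    intro j hj
    by_cases hjt : j = S.s
    · subst hjt
      have h0 : mn S.s S.s = (0 : Coord ι 2) := by
        rw [mn]
        ring
      rw [h0]
      exact L.zero_mem
    · exact hq (some (some ⟨j, hj, hjt⟩))
  have hFL : inFactor 2 1 S.F ∈ L := hq none
  have hHL : S.HH ∈ L := hq (some none)
  let φ : Coord ι 2 →+* FractionRing (Coord ι 2 ⧸ L) := aeFr L
  have hφ : ∀ z, φ z = 0 ↔ z ∈ L := fun z => aeFr_eq_zero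
  have hx : xs φ 0 S.s ≠ 0 := fun h => htL ((hφ _).1 h)
  have hy : xs φ 1 S.s ≠ 0 := fun h => S.ae_s1 (hlt.le ((hφ _).1 h))
  have hN : φ (mn S.al S.s) ≠ 0 := fun h => S.ae_NN (hlt.le ((hφ _).1 h))
  have hmn : ∀ j, j ≠ S.al → φ (mn S.s j) = 0 := fun j hj => (hφ _).2 (hmnL j hj)
  have hH : φ S.HH = 0 := (hφ _).2 hHL
  have hF1 : eval₂Hom (cs φ) (xs φ 1) S.F = 0 := by
    rw [← map_inFactor]
    exact (hφ _).2 hFL
  have hpr : ∀ j, j ≠ S.al → xs φ 0 S.s * xs φ 1 j = xs φ 1 S.s * xs φ 0 j := by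
    intro j hj
    have h := hmn j hj
    rw [map_mn] at h
    exact sub_eq_zero.1 h
  have hH' : xs φ 0 S.s ^ (S.m + 1) * xs φ 1 S.s ^ (S.m + 2) *
      (xs φ 0 S.al * xs φ 1 S.s - xs φ 1 S.al * xs φ 0 S.s) +
      xs φ 1 S.om * (xs φ 1 S.s ^ (S.m + 2) * eval₂Hom (cs φ) (xs φ 0) S.P -
        xs φ 0 S.s ^ (S.m + 2) * eval₂Hom (cs φ) (xs φ 1) S.P) = 0 := by
    rw [← map_inFactor, ← map_inFactor, ← map_mn]
    have h := hH
    rw [HH, RR] at h
    simp only [map_add, map_mul, map_sub, map_pow] at h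
    exact h
  have hu : xs φ 0 S.om ≠ 0 := by
    intro h
    have h1 := hpr S.om S.halom.symm
    rw [h, mul_zero] at h1
    have h2 : xs φ 1 S.om = 0 := (mul_eq_zero.1 h1).resolve_left hx
    rw [h2, zero_mul, add_zero] at hH'
    have h3 := (mul_eq_zero.1 hH').resolve_left (mul_ne_zero (pow_ne_zero _ hx)
      (pow_ne_zero _ hy))
    apply hN
    rw [map_mn]
    exact h3
  have hF0 : eval₂Hom (cs φ) (xs φ 0) S.F = 0 := by
    have h := S.ae_rel (cs φ) (xs φ 0) (xs φ 1) hpr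
    rw [hH', hF1, mul_zero, mul_zero, sub_zero] at h
    exact (mul_eq_zero.1 h).resolve_left (pow_ne_zero _ hy)
  intro z hz
  refine hlt.le ((hφ z).1 ?_)
  refine S.ae_kill_V φ S.s S.hals.symm hx hy hN hmn hu (fun i => ?_) hz
  have hi : i = 0 ∨ i = 1 := by omega
  rcases hi with rfl | rfl
  · exact hF0
  · exact hF1

lemma ae_reg {z : Coord ι 2} (hz : z ∈ (S.pE 1).I) : ∃ s, s ∉ (S.pE 1).I ∧
    s * z ∈ S.pV.I ⊔ Ideal.span {(MvPolynomial.X (0, S.s) : Coord ι 2)} := by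
  set J := S.pV.I ⊔ Ideal.span {(MvPolynomial.X (0, S.s) : Coord ι 2)} with hJ
  apply exists_of_toLocMod_eq_zero (J := J)
  let φ : Coord ι 2 →+* LocMod J (S.pE 1).I := toLocMod J (S.pE 1).I
  have hφ : ∀ w ∈ S.pV.I, φ w = 0 := fun w hw =>
    toLocMod_eq_zero_of_mem (Ideal.mem_sup_left hw)
  exact S.ae_kill φ
    (toLocMod_eq_zero_of_mem (Ideal.mem_sup_right (Ideal.mem_span_singleton_self _)))
    (isUnit_toLocMod S.ae_s1) (isUnit_toLocMod S.ae_RR)
    (fun j hj _ => hφ _ (S.mn_pV S.hals.symm hj)) (hφ _ S.HH_pV) (hφ _ (F_mem S.pV 1)) hz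

lemma ord_E : CodimOne S.pV.I (S.pE 1).I ∧
    ordAt S.pV.I (S.pE 1).I (mn S.al S.om) = (S.m + 1 : ℕ) ∧
    ordAt S.pV.I (S.pE 1).I (MvPolynomial.X (0, S.om)) = (S.m + 2 : ℕ) ∧
    ordAt S.pV.I (S.pE 1).I (MvPolynomial.X (1, S.om)) = (S.m + 1 : ℕ) := by
  have hP := S.ae_le
  have htQ : (MvPolynomial.X (0, S.s) : Coord ι 2) ∈ (S.pE 1).I := S.ae_X0 S.hals.symm
  have htP : (MvPolynomial.X (0, S.s) : Coord ι 2) ∉ S.pV.I := S.X_pV 0 S.hals.symm
  have hreg : ∀ z ∈ (S.pE 1).I, ∃ s, s ∉ (S.pE 1).I ∧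
      s * z ∈ S.pV.I ⊔ Ideal.span {(MvPolynomial.X (0, S.s) : Coord ι 2)} :=
    fun z hz => S.ae_reg hz
  have hp : (S.pE 1).I.IsPrime := (S.pE 1).prime
  have hy1 := S.ae_s1
  have hN := S.ae_NN
  have hR := S.ae_RR
  have hmn : mn S.s S.om ∈ S.pV.I := S.mn_pV S.hals.symm S.halom.symm
  have hHH := S.HH_pV
  have hmul : ∀ a b : Coord ι 2, a ∉ (S.pE 1).I → b ∉ (S.pE 1).I →
      a * b ∉ (S.pE 1).I := fun a b ha hb h => (hp.mem_or_mem h).elim ha hb
  have hpow : ∀ (a : Coord ι 2) (n : ℕ), a ∉ (S.pE 1).I →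
      a ^ n ∉ (S.pE 1).I := fun a n ha h => ha (hp.mem_of_pow_mem n h)
  have hneg : ∀ a : Coord ι 2, a ∉ (S.pE 1).I → -a ∉ (S.pE 1).I :=
    fun a ha h => ha (neg_mem_iff.1 h)
  refine ⟨codimOne_of hP htQ htP hreg, ?_, ?_, ?_⟩
  · refine ordAt_eq (t := MvPolynomial.X (0, S.s)) hP htQ htP hreg
      (s := S.RR S.s * MvPolynomial.X (1, S.s))
      (s' := -(mn S.al S.s ^ 2 * MvPolynomial.X (1, S.s) ^ (S.m + 2))) (hmul _ _ hR hy1)
      (hneg _ (hmul _ _ (hpow _ _ hN) (hpow _ _ hy1))) ?_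
    have h := add_mem (S.pV.I.mul_mem_left (mn S.al S.s) hHH)
      (S.pV.I.mul_mem_left (S.RR S.s * MvPolynomial.X (1, S.al)) hmn)
    convert h using 1
    rw [HH, mn, mn, mn]
    ring
  · refine ordAt_eq (t := MvPolynomial.X (0, S.s)) hP htQ htP hreg
      (s := S.RR S.s * MvPolynomial.X (1, S.s))
      (s' := -(mn S.al S.s * MvPolynomial.X (1, S.s) ^ (S.m + 2))) (hmul _ _ hR hy1)
      (hneg _ (hmul _ _ hN (hpow _ _ hy1))) ?_
    have h := sub_mem (S.pV.I.mul_mem_left (MvPolynomial.X (0, S.s)) hHH)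
      (S.pV.I.mul_mem_left (S.RR S.s) hmn)
    convert h using 1
    rw [HH, mn, mn]
    ring
  · refine ordAt_eq (t := MvPolynomial.X (0, S.s)) hP htQ htP hreg
      (s := S.RR S.s) (s' := -(mn S.al S.s * MvPolynomial.X (1, S.s) ^ (S.m + 2))) hR
      (hneg _ (hmul _ _ hN (hpow _ _ hy1))) ?_
    convert hHH using 1
    rw [HH]
    ring

end AData

end Kp

end Pool.Agent.RCH
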