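import Pool.Agent.RCH.KpBase

/-!
# The exchange of the two factors
-/

set_option autoImplicit false

open MvPolynomial

namespace Pool.Agent.RCH

namespace Kp

variable {ι : Type}

/-- the exchange of the two factors -/
noncomputable def sw : Coord ι 2 ≃+* Coord ι 2 :=
  (renameEquiv ℂ (Equiv.prodCongr (Equiv.swap (0 : Fin 2) 1) (Equiv.refl ι))).toRingEquiv

lemma sw_X0 (j : ι) : sw (MvPolynomial.X (0, j)) = MvPolynomial.X (1, j) := by
  show rename _ (MvPolynomial.X (0, j)) = _
  rw [rename_X]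
  simp

lemma sw_X1 (j : ι) : sw (MvPolynomial.X (1, j)) = MvPolynomial.X (0, j) := by
  show rename _ (MvPolynomial.X (1, j)) = _
  rw [rename_X]
  simp

lemma sw_C (a : ℂ) : sw (ι := ι) (C a) = C a := by
  show rename _ (C a) = _
  rw [rename_C]

/-- the exchange of the two factors, as a homomorphism -/
noncomputable def swH : Coord ι 2 →+* Coord ι 2 := RingEquiv.toRingHom sw

lemma swH_apply (z : Coord ι 2) : swH z = sw z := rfl

lemma sw_sw (z : Coord ι 2) : sw (sw z) = z := by
  have h : (swH (ι := ι)).comp swH = RingHom.id _ := by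
    apply MvPolynomial.ringHom_ext
    · intro a
      simp [swH_apply, sw_C]
    · rintro ⟨i, j⟩
      fin_cases i
      · simp [swH_apply, sw_X0, sw_X1]
      · simp [swH_apply, sw_X0, sw_X1]
  exact congrArg (fun ψ => ψ z) h

lemma sw_mn (i j : ι) : sw (mn i j) = - mn i j := by
  rw [mn, map_sub, map_mul, map_mul, sw_X0, sw_X0, sw_X1, sw_X1]
  ring

lemma sw_inFactor0 (p : MvPolynomial ι ℂ) : sw (inFactor 2 0 p) = inFactor 2 1 p := by
  have h : (swH (ι := ι)).comp (inFactor 2 0).toRingHom =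
      (inFactor 2 1).toRingHom := by
    apply MvPolynomial.ringHom_ext
    · intro a
      simp [inFactor, swH_apply, sw_C]
    · intro j
      simp [inFactor, swH_apply, sw_X0]
  exact congrArg (fun ψ => ψ p) h

lemma sw_inFactor1 (p : MvPolynomial ι ℂ) : sw (inFactor 2 1 p) = inFactor 2 0 p := by
  rw [← sw_inFactor0, sw_sw]

section

variable {L : Type} [CommRing L] (φ : Coord ι 2 →+* L)

lemma xs_sw0 : xs (φ.comp swH) 0 = xs φ 1 := by
  funext j
  show φ (sw _) = _
  rw [sw_X0]
  rfl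

lemma xs_sw1 : xs (φ.comp swH) 1 = xs φ 0 := by
  funext j
  show φ (sw _) = _
  rw [sw_X1]
  rfl

lemma cs_sw : cs (φ.comp swH) = cs φ := by
  refine RingHom.ext fun a => ?_
  show φ (sw _) = _
  rw [sw_C]
  rfl

end

lemma sw_mem_iff_of {I J : Ideal (Coord ι 2)} (h1 : ∀ z ∈ I, sw z ∈ J)
    (h2 : ∀ z ∈ J, sw z ∈ I) (z : Coord ι 2) : sw z ∈ J ↔ z ∈ I := by
  constructor
  · intro h
    have h3 := h2 _ h
    rwa [sw_sw] at h3
  · exact h1 z

/-- the exchange of the factors and the ideals of points given by coordinates -/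
lemma sw_mem_genIdeal (F : MvPolynomial ι ℂ) {D D' : Type} [CommRing D] [Algebra ℂ D]
    [CommRing D'] [Algebra ℂ D'] (d : Fin 2 × ι → D) (d' : Fin 2 × ι → D') (σ : D →+* D')
    (hC : ∀ a : ℂ, σ (algebraMap ℂ D a) = algebraMap ℂ D' a)
    (h0 : ∀ j, σ (d (0, j)) = d' (1, j)) (h1 : ∀ j, σ (d (1, j)) = d' (0, j))
    (z : Coord ι 2) (hz : z ∈ genIdeal (hyp F) d) : sw z ∈ genIdeal (hyp F) d' := by
  have hX : ∀ v : Fin 2 × ι, genHom (hyp F) d' (MvPolynomial.X v) =
      C (d' v) * MvPolynomial.X v.1 := by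
    intro v
    rw [genHom, aeval_X, wt_hyp, pow_one]
  have key := genIdeal_lift (hyp F) d
    ((genHom (hyp F) d').toRingHom.comp swH)
    ((C : D' →+* MvPolynomial (Fin 2) D').comp σ) ![MvPolynomial.X 1, MvPolynomial.X 0] ?_ ?_ hz
  · exact key
  · intro a
    rw [RingHom.comp_apply, RingHom.comp_apply, hC, swH_apply, sw_C]
    exact (genHom (hyp F) d').commutes a
  · rintro ⟨i, j⟩
    rw [RingHom.comp_apply, RingHom.comp_apply, wt_hyp, pow_one, swH_apply]
    fin_cases i
    · refine (congrArg (genHom (hyp F) d') (sw_X0 j)).trans ?_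
      rw [hX]
      exact congrArg₂ (fun a b => C a * b) (h0 j).symm rfl
    · refine (congrArg (genHom (hyp F) d') (sw_X1 j)).trans ?_
      rw [hX]
      exact congrArg₂ (fun a b => C a * b) (h1 j).symm rfl

end Kp

end Pool.Agent.RCH
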