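import Pool.Agent.RCH.KpAE
import Pool.Agent.RCH.KpSw

/-!
# The exchange of the two factors
-/

set_option autoImplicit false

open MvPolynomial

namespace Pool.Agent.RCH

namespace Kp

attribute [local instance] Pt.prime

namespace AData

variable {ι : Type} [Fintype ι] [DecidableEq ι] (S : AData ι)

/-! ### The fibre square of the projection from the vertex -/

lemma ptV_al_ne : S.ptV0 S.al ≠ S.ptV1 S.al := by
  intro h
  refine S.NN_pV S.halom.symm ?_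
  have h1 : genHom (hyp S.F) S.ptV (mn S.al S.om) = 0 := by
    have h2 : ∀ v : Fin 2 × ι, genHom (hyp S.F) S.ptV (MvPolynomial.X v) =
        C (S.ptV v) * MvPolynomial.X v.1 := by
      intro v
      rw [genHom, aeval_X, wt_hyp, pow_one]
    rw [mn, map_sub, map_mul, map_mul, h2, h2, h2, h2]
    have e0 : S.ptV (0, S.al) = S.ptV1 S.al := h
    have e1 : S.ptV (1, S.al) = S.ptV1 S.al := rfl
    have e2 : S.ptV (1, S.om) = S.ptV0 S.om := S.ptV1_of_ne S.halom.symm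
    have e3 : S.ptV (0, S.om) = S.ptV0 S.om := rfl
    rw [e0, e1, e2, e3]
    ring
  exact h1

lemma exists_swV : ∃ σ : S.RV →+* S.RV,
    (∀ a : ℂ, σ (algebraMap ℂ S.RV a) = algebraMap ℂ S.RV a) ∧
    (∀ j, σ (S.ptV0 j) = S.ptV1 j) ∧ ∀ j, σ (S.ptV1 j) = S.ptV0 j := by
  have hrep : Function.update S.ptV1 S.al (S.ptV0 S.al) = S.ptV0 := by
    funext j
    by_cases hj : j = S.al
    · rw [hj, Function.update_self]
    · rw [Function.update_of_ne hj, S.ptV1_of_ne hj]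
  obtain ⟨σ, h1, h2, h3⟩ := S.exists_liftV (algebraMap ℂ S.RV) S.ptV1
    (by rw [S.ptV1_of_ne S.halom.symm]; exact S.isUnit_ptV0_om) S.F_ptV1 (S.ptV0 S.al)
    (eval_quoF_of_ne _ _ _ S.F_ptV1 (by rw [hrep]; exact S.F_ptV0) S.ptV_al_ne)
  refine ⟨σ, h1, h2, fun j => ?_⟩
  rw [h3, hrep]

lemma sw_mem_pV_of (z : Coord ι 2) (hz : z ∈ S.pV.I) : sw z ∈ S.pV.I := by
  obtain ⟨σ, h1, h2, h3⟩ := S.exists_swV
  exact sw_mem_genIdeal S.F S.ptV S.ptV σ h1 h2 h3 z hz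

lemma sw_mem_pV (z : Coord ι 2) : sw z ∈ S.pV.I ↔ z ∈ S.pV.I :=
  sw_mem_iff_of S.sw_mem_pV_of S.sw_mem_pV_of z

/-! ### The points of the products -/

lemma X_pE_om (i0 : Fin 2) : (MvPolynomial.X (i0, S.om) : Coord ι 2) ∈ (S.pE i0).I := by
  refine (X_mem_gen S.F (dE i0 {S.al} {S.om} S.f0) (i0, S.om)).2 ?_
  rw [dE, if_pos rfl, if_pos (Finset.mem_singleton_self _)]

lemma X_pE_ne {i0 i1 : Fin 2} (h01 : i0 ≠ i1) {j : ι} (hj : j ∉ ({S.al} : Finset ι)) :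
    (MvPolynomial.X (i1, j) : Coord ι 2) ∈ (S.pE i0).I := by
  refine (X_mem_gen S.F (dE i0 {S.al} {S.om} S.f0) (i1, j)).2 ?_
  rw [dE, if_neg h01.symm, if_neg hj]

/-- a homomorphism composed with the exchange kills the product -/
lemma kill_pE_sw {L : Type} [CommRing L] (ψ : Coord ι 2 →+* L) (i0 i1 : Fin 2) (h01 : i0 ≠ i1)
    (hψ : ∀ z ∈ (S.pE i1).I, ψ z = 0) {z : Coord ι 2} (hz : z ∈ (S.pE i0).I) :
    ψ (sw z) = 0 := by
  have hxs : ∀ i i' : Fin 2, i ≠ i' → xs (ψ.comp swH) i = xs ψ i' := by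
    intro i i' hi
    rcases (by omega : (i = 0 ∧ i' = 1) ∨ (i = 1 ∧ i' = 0)) with ⟨rfl, rfl⟩ | ⟨rfl, rfl⟩
    · exact xs_sw0 ψ
    · exact xs_sw1 ψ
  have hom : xs ψ i1 S.om = 0 := hψ _ (S.X_pE_om i1)
  have key : ψ.comp swH z = 0 := by
    refine kill_dE (ψ.comp swH) i0 i1 h01 ?_ ?_ ?_ hz
    · intro j hj
      rw [hxs i0 i1 h01, Finset.mem_singleton.1 hj]
      exact hom
    · intro j hj
      rw [hxs i1 i0 h01.symm]
      exact hψ _ (S.X_pE_ne h01.symm hj)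
    · have h1 := hψ _ (F_mem (S.pE i1) i1)
      rw [map_inFactor, F_ev, hom, zero_mul, add_zero] at h1
      rw [hxs i0 i1 h01, cs_sw]
      exact h1
  exact key

/-- exchange for the products of a point and the section -/
lemma sw_mem_pE_of (i0 i1 : Fin 2) (h01 : i0 ≠ i1) (z : Coord ι 2) (hz : z ∈ (S.pE i0).I) :
    sw z ∈ (S.pE i1).I :=
  Ideal.Quotient.eq_zero_iff_mem.1 (S.kill_pE_sw (Ideal.Quotient.mk (S.pE i1).I) i0 i1 h01
    (fun _ hz => Ideal.Quotient.eq_zero_iff_mem.2 hz) hz)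

lemma sw_mem_pE (z : Coord ι 2) : sw z ∈ (S.pE 0).I ↔ z ∈ (S.pE 1).I :=
  sw_mem_iff_of (S.sw_mem_pE_of 1 0 (by decide)) (S.sw_mem_pE_of 0 1 (by decide)) z

/-! ### The orders -/

lemma ord_E' : CodimOne S.pV.I (S.pE 0).I ∧
    ordAt S.pV.I (S.pE 0).I (mn S.al S.om) = (S.m + 1 : ℕ) ∧
    ordAt S.pV.I (S.pE 0).I (MvPolynomial.X (0, S.om)) = (S.m + 1 : ℕ) ∧
    ordAt S.pV.I (S.pE 0).I (MvPolynomial.X (1, S.om)) = (S.m + 2 : ℕ) := by
  obtain ⟨h1, h2, h3, h4⟩ := S.ord_E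
  refine ⟨codimOne_equiv sw S.sw_mem_pV S.sw_mem_pE h1, ?_, ?_, ?_⟩
  · rw [← ordAt_neg, ← sw_mn, ← ordAt_equiv sw S.sw_mem_pV S.sw_mem_pE]
    exact h2
  · rw [← sw_X1, ← ordAt_equiv sw S.sw_mem_pV S.sw_mem_pE]
    exact h4
  · rw [← sw_X0, ← ordAt_equiv sw S.sw_mem_pV S.sw_mem_pE]
    exact h3

end AData

end Kp

end Pool.Agent.RCH
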