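import Pool.Agent.RCH.KpARel

/-!
# The diagonal of the variety, its section `x_om = 0`, and the comparison with `pV`
-/

set_option autoImplicit false

open MvPolynomial

namespace Pool.Agent.RCH

namespace Kp

attribute [local instance] Pt.prime

/-- the minors vanish at the points with the same coordinates twice -/
lemma mn_diag {ι : Type} (F : MvPolynomial ι ℂ) {D : Type} [CommRing D] [Algebra ℂ D]
    (d : Fin 2 × ι → D) (h : ∀ j, d (0, j) = d (1, j)) (i j : ι) :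
    mn i j ∈ genIdeal (hyp F) d := by
  change genHom (hyp F) d (mn i j) = 0
  have hX : ∀ v : Fin 2 × ι, genHom (hyp F) d (MvPolynomial.X v) =
      C (d v) * MvPolynomial.X v.1 := by
    intro v
    rw [genHom, aeval_X, wt_hyp, pow_one]
  rw [mn, map_sub, map_mul, map_mul, hX, hX, hX, hX, h, h]
  ring

namespace AData

variable {ι : Type} [Fintype ι] [DecidableEq ι] (S : AData ι)

/-! ### Members and non-members -/

lemma X_pXD (i : Fin 2) (j : ι) : (MvPolynomial.X (i, j) : Coord ι 2) ∉ S.pXD.I := by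
  intro h
  have h1 := (X_mem_gen S.F (dD 1 ∅ ∅ S.F) (i, j)).1 h
  rw [dD, if_neg (Finset.notMem_empty _), if_neg (Finset.notMem_empty _)] at h1
  exact mk_X_ne 1 1 S.F_prime (not_dvd_X (n := S.m + 1) S.F_homog _) h1

lemma X_pYD (i : Fin 2) : (MvPolynomial.X (i, S.om) : Coord ι 2) ∈ S.pYD.I :=
  (X_mem_gen S.F (dD 1 {S.om} ∅ S.f0) (i, S.om)).2 (if_pos (Finset.mem_singleton_self _))

lemma X_pYD_ne (i : Fin 2) {j : ι} (hj : j ≠ S.om) :
    (MvPolynomial.X (i, j) : Coord ι 2) ∉ S.pYD.I := by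
  intro h
  have h1 := (X_mem_gen S.F (dD 1 {S.om} ∅ S.f0) (i, j)).1 h
  rw [dD, if_neg (fun h2 => hj (Finset.mem_singleton.1 h2)),
    if_neg (Finset.notMem_empty _)] at h1
  exact mk_X_ne 1 1 S.f0_prime (not_dvd_X (n := S.m + 1) S.f0_homog _) h1

lemma mn_pXD (i j : ι) : mn i j ∈ S.pXD.I := mn_diag S.F _ (fun _ => rfl) i j

lemma mn_pYD (i j : ι) : mn i j ∈ S.pYD.I := mn_diag S.F _ (fun _ => rfl) i j

lemma dF_pYD : inFactor 2 0 S.dF ∉ S.pYD.I := by
  intro h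
  have := isDomain_RD 1 S.f0_prime
  have h1 := ev_gen S.F (dD 1 {S.om} ∅ S.f0) h
  rw [inFactor_aeval] at h1
  have h2 : eval₂Hom (algebraMap ℂ (RD 1 S.f0))
      (fun j => dD 1 {S.om} ∅ S.f0 ((0 : Fin 2), j)) S.dF = 0 := h1
  have h3 : dD 1 {S.om} ∅ S.f0 ((0 : Fin 2), S.om) = 0 := if_pos (Finset.mem_singleton_self _)
  have h4 : dD 1 {S.om} ∅ S.f0 ((0 : Fin 2), S.s) = Kp.mk 1 S.f0 (MvPolynomial.X (1, S.s)) := by
    rw [dD, if_neg (fun h5 => S.hsom (Finset.mem_singleton.1 h5)),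
      if_neg (Finset.notMem_empty _)]
  rw [dF_ev, h3, h4, zero_mul, add_zero] at h2
  exact mk_X_ne 1 1 S.f0_prime (not_dvd_X (n := S.m + 1) S.f0_homog _)
    (eq_zero_of_pow_eq_zero h2)

/-! ### Killing in local rings -/

omit [Fintype ι] [DecidableEq ι] in
/-- the ratio of two points with the same ratios of coordinates -/
lemma ratio {L : Type} [CommRing L] {x y : ι → L} {a b : ι} (ha : IsUnit (x a))
    (hb : IsUnit (y b)) (h : x a * y b = y a * x b) :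
    ∃ w, IsUnit w ∧ ∀ j, x j * y b = y j * x b → x j = y j * w := by
  have h1 : IsUnit (y a * x b) := h ▸ ha.mul hb
  have h2 : IsUnit (x b) := isUnit_of_mul_isUnit_right h1
  obtain ⟨u, hu⟩ := hb
  refine ⟨x b * ↑u⁻¹, h2.mul (Units.isUnit _), ?_⟩
  intro j hj
  rw [← hu] at hj
  have h3 : (u : L) * ↑u⁻¹ = 1 := Units.mul_inv u
  linear_combination (↑u⁻¹ : L) * hj - x j * h3

/-- killing the diagonal of the variety in a local ring -/
lemma kill_pXD_loc (J Q : Ideal (Coord ι 2)) [Q.IsPrime] (hmn : ∀ i j, mn i j ∈ J)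
    (hF : inFactor 2 1 S.F ∈ J) {a b : ι} (h0 : (MvPolynomial.X (0, a) : Coord ι 2) ∉ Q)
    (h1 : (MvPolynomial.X (1, b) : Coord ι 2) ∉ Q)
    {z : Coord ι 2} (hz : z ∈ S.pXD.I) : toLocMod J Q z = 0 := by
  set φ := toLocMod J Q with hφ
  have hm : ∀ i j, xs φ 0 i * xs φ 1 j = xs φ 1 i * xs φ 0 j := by
    intro i j
    have h2 : φ (mn i j) = 0 := toLocMod_eq_zero_of_mem (hmn i j)
    rw [map_mn, sub_eq_zero] at h2
    exact h2
  obtain ⟨w, hw, hwj⟩ := ratio (x := xs φ 0) (y := xs φ 1) (isUnit_toLocMod h0)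
    (isUnit_toLocMod h1) (hm a b)
  refine kill_dD φ 1 0 (by decide) w hw (fun i j hj => absurd hj (Finset.notMem_empty j)) ?_
    (fun j _ _ => hwj j (hm j b)) hz
  rw [← map_inFactor]
  exact toLocMod_eq_zero_of_mem hF

/-- killing the diagonal of the section in a local ring -/
lemma kill_pYD_loc (J Q : Ideal (Coord ι 2)) [Q.IsPrime] (hJ : S.pXD.I ≤ J)
    (h4 : toLocMod J Q (MvPolynomial.X (0, S.om)) = 0)
    (h0 : ∃ j : ι, (MvPolynomial.X (0, j) : Coord ι 2) ∉ Q)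
    (h1 : ∃ j : ι, (MvPolynomial.X (1, j) : Coord ι 2) ∉ Q)
    {z : Coord ι 2} (hz : z ∈ S.pYD.I) : toLocMod J Q z = 0 := by
  obtain ⟨a, ha⟩ := h0
  obtain ⟨b, hb⟩ := h1
  set φ := toLocMod J Q with hφ
  have hm : ∀ i j, xs φ 0 i * xs φ 1 j = xs φ 1 i * xs φ 0 j := by
    intro i j
    have h2 : φ (mn i j) = 0 := toLocMod_eq_zero_of_mem (hJ (S.mn_pXD i j))
    rw [map_mn, sub_eq_zero] at h2
    exact h2
  have h40 : xs φ 0 S.om = 0 := h4
  have h41 : xs φ 1 S.om = 0 := by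
    have h2 := hm a S.om
    rw [h40, mul_zero] at h2
    exact ((isUnit_toLocMod ha : IsUnit (xs φ 0 a)).mul_right_eq_zero).1 h2
  obtain ⟨w, hw, hwj⟩ := ratio (x := xs φ 0) (y := xs φ 1) (isUnit_toLocMod ha)
    (isUnit_toLocMod hb) (hm a b)
  refine kill_dD φ 1 0 (by decide) w hw ?_ ?_ (fun j _ _ => hwj j (hm j b)) hz
  · intro i j hj
    rw [Finset.mem_singleton.1 hj]
    rcases (by omega : i = 0 ∨ i = 1) with rfl | rfl
    · exact h40
    · exact h41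
  · have h3 := toLocMod_eq_zero_of_mem (Q := Q) (hJ (F_mem S.pXD 1))
    rw [← hφ, map_inFactor, F_ev, h41, zero_mul, add_zero] at h3
    exact h3

/-! ### The section `x_om = 0` of the diagonal -/

lemma pXD_le_pYD : S.pXD.I ≤ S.pYD.I := by
  intro z hz
  exact toLocMod_self_eq_zero.1 (S.kill_pXD_loc S.pYD.I S.pYD.I S.mn_pYD (F_mem S.pYD 1)
    (S.X_pYD_ne 0 S.hsom) (S.X_pYD_ne 1 S.hsom) hz)

lemma dF_pXD : inFactor 2 0 S.dF ∉ S.pXD.I := fun h => S.dF_pYD (S.pXD_le_pYD h)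

lemma unif_XY {z : Coord ι 2} (hz : z ∈ S.pYD.I) : ∃ s, s ∉ S.pYD.I ∧
    s * z ∈ S.pXD.I ⊔ Ideal.span {(MvPolynomial.X (0, S.om) : Coord ι 2)} := by
  refine exists_of_toLocMod_eq_zero (S.kill_pYD_loc _ _ le_sup_left ?_
    ⟨S.s, S.X_pYD_ne 0 S.hsom⟩ ⟨S.s, S.X_pYD_ne 1 S.hsom⟩ hz)
  exact toLocMod_eq_zero_of_mem (Ideal.mem_sup_right (Ideal.mem_span_singleton_self _))

lemma oxy : CodimOne S.pXD.I S.pYD.I ∧
    ordAt S.pXD.I S.pYD.I (MvPolynomial.X (0, S.om)) = (1 : ℕ) ∧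
    inFactor 2 0 S.dF ∉ S.pYD.I := by
  have hone : (1 : Coord ι 2) ∉ S.pYD.I := fun h =>
    S.pYD.prime.ne_top ((Ideal.eq_top_iff_one _).2 h)
  refine ⟨codimOne_of S.pXD_le_pYD (S.X_pYD 0) (S.X_pXD 0 S.om) (fun z hz => S.unif_XY hz), ?_,
    S.dF_pYD⟩
  refine ordAt_eq S.pXD_le_pYD (S.X_pYD 0) (S.X_pXD 0 S.om) (fun z hz => S.unif_XY hz)
    (s := 1) (s' := 1) (n := 1) hone hone ?_
  rw [pow_one, sub_self]
  exact zero_mem _

lemma clxy (Q : Ideal (Coord ι 2)) [Q.IsPrime] (h : S.pXD.I ≤ Q)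
    (h0 : ∃ j, (MvPolynomial.X (0, j) : Coord ι 2) ∉ Q)
    (h1 : ∃ j, (MvPolynomial.X (1, j) : Coord ι 2) ∉ Q)
    (h4 : (MvPolynomial.X (0, S.om) : Coord ι 2) ∈ Q ∨
      (MvPolynomial.X (1, S.om) : Coord ι 2) ∈ Q) : S.pYD.I ≤ Q := by
  have h4' : (MvPolynomial.X (0, S.om) : Coord ι 2) ∈ Q := by
    rcases h4 with h4 | h4
    · exact h4
    · obtain ⟨j, hj⟩ := h1
      have h2 : (MvPolynomial.X (0, S.om) * MvPolynomial.X (1, j) : Coord ι 2) ∈ Q := by
        have h3 := add_mem (h (S.mn_pXD S.om j)) (Q.mul_mem_right (MvPolynomial.X (0, j)) h4)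
        rw [mn, sub_add_cancel] at h3
        exact h3
      exact (Ideal.IsPrime.mem_or_mem (I := Q) inferInstance h2).resolve_right hj
  intro z hz
  exact toLocMod_self_eq_zero.1
    (S.kill_pYD_loc Q Q h (toLocMod_eq_zero_of_mem h4') h0 h1 hz)

/-! ### The comparison -/

section compare

variable (Q : Pt (hyp S.F) 2)

lemma dl_h1 (h4 : (MvPolynomial.X (0, S.om) : Coord ι 2) ∉ Q.I) (z : Coord ι 2)
    (hz : z ∈ S.pV.I) :
    toLocMod (S.pXD.I ⊔ Ideal.span {inFactor 2 0 S.dF}) Q.I z = 0 := by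
  set J := S.pXD.I ⊔ Ideal.span {inFactor 2 0 S.dF} with hJ
  set φ := toLocMod J Q.I with hφ
  have hu : IsUnit (xs φ 0 S.om) := isUnit_toLocMod h4
  obtain ⟨u, hu'⟩ := id hu
  have hw : ∀ j, xs φ 1 j = xs φ 0 j * (↑u⁻¹ * xs φ 1 S.om) := by
    intro j
    have h : φ (mn j S.om) = 0 :=
      toLocMod_eq_zero_of_mem (Ideal.mem_sup_left (S.mn_pXD j S.om))
    rw [map_mn, ← hu'] at h
    have h3 : (u : LocMod J Q.I) * ↑u⁻¹ = 1 := Units.mul_inv u
    linear_combination (-(↑u⁻¹ : LocMod J Q.I)) * h - xs φ 1 j * h3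
  have hF : eval₂Hom (cs φ) (xs φ 0) S.F = 0 := by
    rw [← map_inFactor]
    exact toLocMod_eq_zero_of_mem (Ideal.mem_sup_left (F_mem S.pXD 0))
  refine S.kill_V φ (↑u⁻¹ * xs φ 1 S.om) (fun j _ => hw j) (xs φ 0 S.al) (hw S.al) hu hF ?_ hz
  rw [eval_quoF_self _ _ _ hF, pderiv_F, ← map_inFactor]
  exact toLocMod_eq_zero_of_mem (Ideal.mem_sup_right (Ideal.mem_span_singleton_self _))

lemma dl_h2 : toLocMod (S.pXD.I ⊔ Ideal.span {inFactor 2 0 S.dF}) Q.I (mn S.al S.om) = 0 :=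
  toLocMod_eq_zero_of_mem (Ideal.mem_sup_left (S.mn_pXD S.al S.om))

lemma dl_h3 (h4 : (MvPolynomial.X (0, S.om) : Coord ι 2) ∉ Q.I)
    (h4' : (MvPolynomial.X (1, S.om) : Coord ι 2) ∉ Q.I) (z : Coord ι 2)
    (hz : z ∈ S.pXD.I) :
    toLocMod (S.pV.I ⊔ Ideal.span {mn S.al S.om}) Q.I z = 0 := by
  set J := S.pV.I ⊔ Ideal.span {mn S.al S.om} with hJ
  set φ := toLocMod J Q.I with hφ
  have hm : ∀ j, xs φ 0 j * xs φ 1 S.om = xs φ 1 j * xs φ 0 S.om := by
    intro j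
    have h2 : φ (mn j S.om) = 0 := by
      by_cases hj : j = S.al
      · rw [hj]
        exact toLocMod_eq_zero_of_mem (Ideal.mem_sup_right (Ideal.mem_span_singleton_self _))
      · exact toLocMod_eq_zero_of_mem (Ideal.mem_sup_left (S.mn_pV hj S.halom.symm))
    rw [map_mn, sub_eq_zero] at h2
    exact h2
  obtain ⟨w, hw, hwj⟩ := ratio (x := xs φ 0) (y := xs φ 1) (isUnit_toLocMod h4)
    (isUnit_toLocMod h4') (hm S.om)
  refine kill_dD φ 1 0 (by decide) w hw (fun i j hj => absurd hj (Finset.notMem_empty j)) ?_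
    (fun j _ _ => hwj j (hm j)) hz
  rw [← map_inFactor]
  exact toLocMod_eq_zero_of_mem (Ideal.mem_sup_left (F_mem S.pV 1))

lemma dl_h4 (h4' : (MvPolynomial.X (1, S.om) : Coord ι 2) ∉ Q.I) :
    toLocMod (S.pV.I ⊔ Ideal.span {mn S.al S.om}) Q.I (inFactor 2 0 S.dF) = 0 := by
  obtain ⟨R, hR⟩ := S.exists_taylor
  have h1 := toLocMod_eq_zero_of_mem (Q := Q.I)
    (Ideal.mem_sup_left hR : _ ∈ S.pV.I ⊔ Ideal.span {mn S.al S.om})
  have h2 := toLocMod_eq_zero_of_mem (Q := Q.I)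
    (Ideal.mem_sup_right (Ideal.mem_span_singleton_self (mn S.al S.om)) :
      mn S.al S.om ∈ S.pV.I ⊔ Ideal.span {mn S.al S.om})
  rw [map_sub, map_mul, map_mul, h2, zero_mul, sub_zero, map_pow] at h1
  have hu : IsUnit (toLocMod (S.pV.I ⊔ Ideal.span {mn S.al S.om}) Q.I
      (MvPolynomial.X (1, S.om) : Coord ι 2)) := isUnit_toLocMod h4'
  exact ((hu.pow _).mul_right_eq_zero).1 h1

open Classical in
lemma dl (h4 : (MvPolynomial.X (0, S.om) : Coord ι 2) ∉ Q.I)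
    (h4' : (MvPolynomial.X (1, S.om) : Coord ι 2) ∉ Q.I) :
    (if CodimOne S.pV.I Q.I then (ordAt S.pV.I Q.I (mn S.al S.om)).toNat else 0) =
      (if CodimOne S.pXD.I Q.I then
        (ordAt S.pXD.I Q.I (inFactor 2 0 S.dF)).toNat else 0) := by
  have k1 := S.dl_h1 Q h4
  have k2 := S.dl_h2 Q
  have k3 := S.dl_h3 Q h4 h4'
  have k4 := S.dl_h4 Q h4'
  have hord : ordAt S.pV.I Q.I (mn S.al S.om) = ordAt S.pXD.I Q.I (inFactor 2 0 S.dF) :=
    leq_ord k1 k2 k3 k4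
  by_cases hN : mn S.al S.om ∈ Q.I
  · by_cases hd : inFactor 2 0 S.dF ∈ Q.I
    · have hiff : CodimOne S.pV.I Q.I ↔ CodimOne S.pXD.I Q.I := by
        constructor
        · intro hc
          have hle : S.pXD.I ≤ Q.I := by
            intro z hz
            obtain ⟨s, hs, h⟩ := exists_of_toLocMod_eq_zero (k3 z hz)
            have h5 : S.pV.I ⊔ Ideal.span {mn S.al S.om} ≤ Q.I := by
              rw [sup_le_iff, Ideal.span_singleton_le_iff_mem]
              exact ⟨hc.1.le, hN⟩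
            exact ((Ideal.IsPrime.mem_or_mem (I := Q.I) inferInstance (h5 h))).resolve_left hs
          exact leq_codim hle hd S.dF_pXD (S.NN_pV S.halom.symm) k3 k4 k1 k2 hc
        · intro hc
          have hle : S.pV.I ≤ Q.I := by
            intro z hz
            obtain ⟨s, hs, h⟩ := exists_of_toLocMod_eq_zero (k1 z hz)
            have h5 : S.pXD.I ⊔ Ideal.span {inFactor 2 0 S.dF} ≤ Q.I := by
              rw [sup_le_iff, Ideal.span_singleton_le_iff_mem]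
              exact ⟨hc.1.le, hd⟩
            exact ((Ideal.IsPrime.mem_or_mem (I := Q.I) inferInstance (h5 h))).resolve_left hs
          exact leq_codim hle hN (S.NN_pV S.halom.symm) S.dF_pXD k1 k2 k3 k4 hc
      by_cases hc : CodimOne S.pV.I Q.I
      · rw [if_pos hc, if_pos (hiff.1 hc), hord]
      · rw [if_neg hc, if_neg (fun h => hc (hiff.2 h))]
    · have h0 : ordAt S.pXD.I Q.I (inFactor 2 0 S.dF) = 0 := ordAt_eq_zero hd
      rw [hord, h0]
      split_ifs <;> rfl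
  · have h0 : ordAt S.pV.I Q.I (mn S.al S.om) = 0 := ordAt_eq_zero hN
    rw [← hord, h0]
    split_ifs <;> rfl

end compare

end AData

end Kp

end Pool.Agent.RCH
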