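import Pool.Agent.RCH.KpRelU

/-!
# The primes over the fibre square which contain `x_s` or `y_s`, or the function `MM`
-/

set_option autoImplicit false

open MvPolynomial

namespace Pool.Agent.RCH

namespace Kp

attribute [local instance] Pt.prime

/-- a form at a point with one coordinate which is not zero -/
lemma ev_single {ι : Type} [DecidableEq ι] {L : Type} [CommRing L] (c : ℂ →+* L)
    {p : MvPolynomial ι ℂ} {n : ℕ} (hp : p.IsHomogeneous n) (b : ι) (k : L) :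
    eval₂Hom c (fun j => if j = b then k else 0) p = c (eval (Pi.single b 1) p) * k ^ n := by
  have h1 : (fun j => if j = b then k else 0) =
      fun j => k * c ((Pi.single b 1 : ι → ℂ) j) := by
    funext j
    by_cases hj : j = b
    · subst hj
      rw [if_pos rfl, Pi.single_eq_same, map_one, mul_one]
    · rw [if_neg hj, Pi.single_eq_of_ne hj, map_zero, mul_zero]
  rw [h1, ev_smul c _ hp, mul_comm]
  congr 1
  have h2 := map_ev (RingHom.id ℂ) (Pi.single b 1 : ι → ℂ) c p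
  have h3 : c.comp (RingHom.id ℂ) = c := RingHom.comp_id c
  rw [h3] at h2
  rw [← h2]
  rfl

namespace BData

variable {ι : Type} [Fintype ι] [DecidableEq ι] (S : BData ι)

/-- the second relation for the points in the other order -/
noncomputable def HHs (b : ι) : Coord ι 2 := S.hhv C (XX 1) (XX 0) b

lemma map_hhv {L L' : Type} [CommRing L] [CommRing L'] (ψ : L →+* L') (c : ℂ →+* L) (x y : ι → L)
    (b : ι) : ψ (S.hhv c x y b) =
      S.hhv (ψ.comp c) (fun j => ψ (x j)) (fun j => ψ (y j)) b := by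
  have h1 : ψ (S.gS c x y b) = S.gS (ψ.comp c) (fun j => ψ (x j)) (fun j => ψ (y j)) b := by
    rw [gS, gS, map_ev]
    refine ev_congr _ _ fun j _ => ?_
    by_cases hj : j = S.be
    · rw [if_pos hj, if_pos hj, map_mul]
    · rw [if_neg hj, if_neg hj, map_mul]
  rw [hhv, hhv, ← h1]
  simp only [map_add, map_mul, map_pow, map_ev]

lemma map_HHs {L : Type} [CommRing L] (φ : Coord ι 2 →+* L) (b : ι) :
    φ (S.HHs b) = S.hhv (cs φ) (xs φ 1) (xs φ 0) b := S.map_hhv φ C (XX 1) (XX 0) b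

lemma HHs_pU {b : ι} (hb : b ∈ S.Zs) : S.HHs b ∈ S.pU.I := by
  have h0 := S.mem_pU.1 (S.f_pU 1)
  rw [map_inFactor] at h0
  rw [mem_pU, map_HHs]
  exact S.hhv_gU_aux hb (S.xs_gU_ne 1 hb) (fun j hj => (S.prop_gU hb j hj).symm) h0

/-! ### Two points with values in a field -/

section field

variable {L : Type} [Field L] (c : ℂ →+* L) {x y : ι → L}

/-- `HH s` with `x_s = 0` -/
lemma hhv_s_zero (hx : ∀ j ∈ S.Zs, x j = 0) (hys : y S.s ≠ 0)
    (hh : S.hhv c x y S.s = 0) : x S.be = 0 := by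
  have hxs : x S.s = 0 := hx _ S.s_mem
  have h1 : S.gS c x y S.s = c (eval (Pi.single S.be 1) S.g) * (y S.s * x S.be) ^ (S.m + 2) := by
    rw [gS, ← ev_single c S.hgh]
    refine ev_congr _ _ fun j _ => ?_
    by_cases hj : j = S.be
    · rw [if_pos hj, if_pos hj]
    · rw [if_neg hj, if_neg hj, hxs, zero_mul]
  have hm : S.m + 1 ≠ 0 := by omega
  have hm2 : S.m + 2 ≠ 0 := by omega
  rw [hhv, h1, hxs, zero_pow hm, zero_pow hm2, mul_zero, zero_mul, mul_zero, zero_mul, zero_mul,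
    zero_add, add_zero, add_zero] at hh
  have hc : c (eval (Pi.single S.be 1) S.g) ≠ 0 := (map_ne_zero c).2 S.hgc
  have h2 := (mul_eq_zero.1 ((mul_eq_zero.1 hh).resolve_left hys)).resolve_left hc
  exact (mul_eq_zero.1 (eq_zero_of_pow_eq_zero h2)).resolve_left hys

/-- the case of two points with proportional coordinates which are not all zero, and `x_s = 0` -/
lemma r2v_s_zero {b : ι} (hxs : x S.s = 0) (hyb : y b ≠ 0)
    (hr : S.r2v c x y b = 0) : x S.tt = 0 ∨ x S.be * y b = y S.be * x b := by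
  have hm2 : S.m + 2 ≠ 0 := by omega
  rw [r2v, hxs, mul_zero, zero_pow hm2, mul_zero, zero_mul, zero_add, zero_add] at hr
  rcases mul_eq_zero.1 hr with h | h
  · exact Or.inr (sub_eq_zero.1 h)
  · exact Or.inl ((mul_eq_zero.1 (eq_zero_of_pow_eq_zero h)).resolve_left hyb)

lemma f_s_zero {x : ι → L} (hxs : x S.s = 0) (hf : eval₂Hom c x S.f = 0) :
    eval₂Hom c x S.psi = 0 := by
  rw [f_ev, hxs, zero_pow (by omega), mul_zero, zero_mul, zero_add, zero_add] at hf
  exact hf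

lemma psi_tt_zero {x : ι → L} (hxt : x S.tt = 0) (hf : eval₂Hom c x S.psi = 0) :
    ∃ k, eval₂Hom c x (S.q k) = 0 := by
  rw [psi_ev, rho_ev, hxt, zero_pow (by omega), mul_zero, zero_mul, zero_add, zero_add,
    tau_ev, Finset.prod_eq_zero_iff] at hf
  obtain ⟨k, -, hk⟩ := hf
  exact ⟨k, eq_zero_of_pow_eq_zero hk⟩

end field

/-! ### The classification -/

omit [Fintype ι] [DecidableEq ι] in
lemma le_of_toFr {Q P : Ideal (Coord ι 2)} (h : ∀ z ∈ P, toFr Q z = 0) : P ≤ Q :=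
  fun z hz => toFr_eq_zero.1 (h z hz)

lemma clb (Q : Ideal (Coord ι 2)) [Q.IsPrime] (h : S.pU.I ≤ Q)
    (hs : (MvPolynomial.X (0, S.s) : Coord ι 2) ∈ Q ∨
      (MvPolynomial.X (1, S.s) : Coord ι 2) ∈ Q) :
    (∃ i, (S.E0 i).I ≤ Q) ∨ (∃ i, (S.E1 i).I ≤ Q) ∨ S.D1.I ≤ Q ∨ ∃ k, (S.D2 k).I ≤ Q := by
  have hφ : ∀ z ∈ S.pU.I, toFr Q z = 0 := fun z hz => toFr_eq_zero.2 (h hz)
  set φ := toFr Q with hφd
  have hs' : xs φ 0 S.s = 0 ∨ xs φ 1 S.s = 0 := by
    rcases hs with hs | hs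
    · exact Or.inl (toFr_eq_zero.2 hs)
    · exact Or.inr (toFr_eq_zero.2 hs)
  have hK : ∀ i, ∀ j ∈ S.K, xs φ i j = 0 := fun i j hj => hφ _ (S.K_pU i hj)
  have hmn : ∀ j ∈ S.Zs, ∀ l ∈ S.Zs, xs φ 0 j * xs φ 1 l = xs φ 1 j * xs φ 0 l := by
    intro j hj l hl
    have h1 := hφ _ (S.mn_pU hj hl)
    rw [map_mn, sub_eq_zero] at h1
    exact h1
  have hf : ∀ i, eval₂Hom (cs φ) (xs φ i) S.f = 0 := by
    intro i
    rw [← map_inFactor]
    exact hφ _ (S.f_pU i)
  by_cases h0 : xs φ 0 S.s = 0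
  · by_cases h1 : xs φ 1 S.s = 0
    · -- both zero
      have hp0 := S.f_s_zero (cs φ) h0 (hf 0)
      have hp1 := S.f_s_zero (cs φ) h1 (hf 1)
      have hzs : ∀ i, xs φ i S.s = 0 := by
        intro i
        rcases (by omega : i = 0 ∨ i = 1) with rfl | rfl
        · exact h0
        · exact h1
      have hK1 : ∀ i, ∀ j ∈ S.K1, xs φ i j = 0 := by
        intro i j hj
        rcases S.mem_K1.1 hj with rfl | hj
        · exact hzs i
        · exact hK i j hj
      have hFr2 : ∀ i, (∀ j ∈ S.Zs, xs φ i j = 0) → ∀ j, j ∉ S.Fr2 → xs φ i j = 0 := by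
        intro i hi j hj
        by_cases hjK : j ∈ S.K
        · exact hK i j hjK
        · rw [S.mem_Fr2, not_or, not_or] at hj
          exact hi j (S.mem_Zs.2 ⟨hjK, hj.2.2, hj.2.1, hj.1⟩)
      by_cases hx : ∀ j ∈ S.Zs, xs φ 0 j = 0
      · refine Or.inr (Or.inl ⟨1, le_of_toFr fun z hz => ?_⟩)
        exact kill_dE φ 1 0 (by decide) (hK1 1) (hFr2 0 hx) hp1 hz
      by_cases hy : ∀ j ∈ S.Zs, xs φ 1 j = 0
      · refine Or.inr (Or.inl ⟨0, le_of_toFr fun z hz => ?_⟩)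
        exact kill_dE φ 0 1 (by decide) (hK1 0) (hFr2 1 hy) hp0 hz
      push Not at hx hy
      obtain ⟨a, ha, hxa⟩ := hx
      obtain ⟨b, hb, hyb⟩ := hy
      have hxb : xs φ 0 b ≠ 0 := by
        intro hxb
        have h2 := hmn a ha b hb
        rw [hxb, mul_zero] at h2
        exact (mul_ne_zero hxa hyb) h2
      set w : FractionRing (Coord ι 2 ⧸ Q) := xs φ 0 b / xs φ 1 b with hw
      have hw0 : w ≠ 0 := div_ne_zero hxb hyb
      have hpr : ∀ j ∈ S.Zs, xs φ 0 j = xs φ 1 j * w := by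
        intro j hj
        rw [hw, mul_div_assoc', eq_div_iff hyb]
        exact hmn j hj b hb
      have hr : S.r2v (cs φ) (xs φ 0) (xs φ 1) b = 0 := by
        rw [← S.map_R2]
        exact hφ _ (S.R2_pU hb)
      rcases S.r2v_s_zero (cs φ) h0 hyb hr with ht | hbe
      · -- `x_tt = 0`
        have ht1 : xs φ 1 S.tt = 0 := by
          have h2 := hpr _ S.tt_mem
          rw [ht] at h2
          exact (mul_eq_zero.1 h2.symm).resolve_right hw0
        obtain ⟨k, hk⟩ := S.psi_tt_zero (cs φ) ht1 hp1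
        refine Or.inr (Or.inr (Or.inr ⟨k, le_of_toFr fun z hz => ?_⟩))
        refine kill_dD φ 1 0 (by decide) w hw0.isUnit ?_ hk ?_ hz
        · intro i j hj
          rcases S.mem_K2.1 hj with rfl | rfl | hj
          · rcases (by omega : i = 0 ∨ i = 1) with rfl | rfl
            · exact ht
            · exact ht1
          · exact hzs i
          · exact hK i j hj
        · intro j hj1 hj2
          rw [S.mem_K2, not_or, not_or] at hj1
          rw [S.mem_Fr2, not_or, not_or] at hj2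
          exact hpr j (S.mem_Zs.2 ⟨hj1.2.2, hj2.2.2, hj2.2.1, hj2.1⟩)
      · -- `x_be` is proportional
        refine Or.inr (Or.inr (Or.inl (le_of_toFr fun z hz => ?_)))
        refine kill_dD φ 1 0 (by decide) w hw0.isUnit hK1 hp1 ?_ hz
        intro j hj1 hj2
        rw [S.mem_K1, not_or] at hj1
        rw [S.mem_Fr1, not_or] at hj2
        by_cases hjb : j = S.be
        · rw [hjb, hw, mul_div_assoc', eq_div_iff hyb]
          exact hbe
        · exact hpr j (S.mem_Zs.2 ⟨hj1.2, hj2.2, hj2.1, hjb⟩)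
    · -- `x_s = 0`, `y_s` not
      have hx : ∀ j ∈ S.Zs, xs φ 0 j = 0 := by
        intro j hj
        have h2 := hmn _ S.s_mem j hj
        rw [h0, zero_mul] at h2
        exact (mul_eq_zero.1 h2.symm).resolve_left h1
      have hh : S.hhv (cs φ) (xs φ 0) (xs φ 1) S.s = 0 := by
        rw [← S.map_HH]
        exact hφ _ (S.HH_pU S.s_mem)
      have hbe := S.hhv_s_zero (cs φ) hx h1 hh
      refine Or.inl ⟨1, le_of_toFr fun z hz => ?_⟩
      refine kill_dE φ 1 0 (by decide) (hK 1) ?_ (hf 1) hz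
      intro j hj
      rw [S.mem_Fr1, not_or] at hj
      by_cases hjK : j ∈ S.K
      · exact hK 0 j hjK
      by_cases hjb : j = S.be
      · rw [hjb]
        exact hbe
      · exact hx j (S.mem_Zs.2 ⟨hjK, hj.2, hj.1, hjb⟩)
  · -- `y_s = 0`, `x_s` not
    have h1 : xs φ 1 S.s = 0 := hs'.resolve_left h0
    have hy : ∀ j ∈ S.Zs, xs φ 1 j = 0 := by
      intro j hj
      have h2 := hmn _ S.s_mem j hj
      rw [h1, zero_mul] at h2
      exact (mul_eq_zero.1 h2).resolve_left h0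
    have hh : S.hhv (cs φ) (xs φ 1) (xs φ 0) S.s = 0 := by
      rw [← S.map_HHs]
      exact hφ _ (S.HHs_pU S.s_mem)
    have hbe := S.hhv_s_zero (cs φ) hy h0 hh
    refine Or.inl ⟨0, le_of_toFr fun z hz => ?_⟩
    refine kill_dE φ 0 1 (by decide) (hK 0) ?_ (hf 0) hz
    intro j hj
    rw [S.mem_Fr1, not_or] at hj
    by_cases hjK : j ∈ S.K
    · exact hK 1 j hjK
    by_cases hjb : j = S.be
    · rw [hjb]
      exact hbe
    · exact hy j (S.mem_Zs.2 ⟨hjK, hj.2, hj.1, hjb⟩)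

lemma clb' (Q : Ideal (Coord ι 2)) [Q.IsPrime] (h : S.pU.I ≤ Q)
    (h0 : (MvPolynomial.X (0, S.s) : Coord ι 2) ∉ Q)
    (h1 : (MvPolynomial.X (1, S.s) : Coord ι 2) ∉ Q) (hM : S.MM ∈ Q) : S.D0.I ≤ Q := by
  have hφ : ∀ z ∈ S.pU.I, toFr Q z = 0 := fun z hz => toFr_eq_zero.2 (h hz)
  set φ := toFr Q with hφd
  have hx : xs φ 0 S.s ≠ 0 := fun h2 => h0 (toFr_eq_zero.1 h2)
  have hy : xs φ 1 S.s ≠ 0 := fun h2 => h1 (toFr_eq_zero.1 h2)
  have hK : ∀ i, ∀ j ∈ S.K, xs φ i j = 0 := fun i j hj => hφ _ (S.K_pU i hj)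
  have hf : ∀ i, eval₂Hom (cs φ) (xs φ i) S.f = 0 := by
    intro i
    rw [← map_inFactor]
    exact hφ _ (S.f_pU i)
  set w : FractionRing (Coord ι 2 ⧸ Q) := xs φ 0 S.s / xs φ 1 S.s with hw
  have hw0 : w ≠ 0 := div_ne_zero hx hy
  have hpr : ∀ j, j ∉ S.K → j ∉ S.Fr → j ≠ S.al → xs φ 0 j = w * xs φ 1 j := by
    intro j hj1 hj2 hj3
    rw [hw, div_mul_eq_mul_div, eq_div_iff hy]
    by_cases hjb : j = S.be
    · have h2 := toFr_eq_zero.2 hM
      rw [MM, map_mn, sub_eq_zero] at h2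
      rw [hjb, mul_comm (xs φ 0 S.s)]
      exact h2
    · have h2 := hφ _ (S.mn_pU (S.mem_Zs.2 ⟨hj1, hj2, hj3, hjb⟩) S.s_mem)
      rw [map_mn, sub_eq_zero] at h2
      rw [mul_comm (xs φ 0 S.s)]
      exact h2
  have hg : eval₂Hom (cs φ) (xs φ 0) S.g = w ^ (S.m + 2) * eval₂Hom (cs φ) (xs φ 1) S.g := by
    rw [← ev_smul _ _ S.hgh]
    exact ev_congr _ _ fun j hj => hpr j (S.hgv j hj).1 (S.hgv j hj).2.1 (S.hgv j hj).2.2
  have hp : eval₂Hom (cs φ) (xs φ 0) S.psi = w ^ (S.m + 3) * eval₂Hom (cs φ) (xs φ 1) S.psi := by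
    rw [← ev_smul _ _ S.psi_homog]
    exact ev_congr _ _ fun j hj =>
      hpr j (S.psi_vars hj).1 (S.psi_vars hj).2.1 (S.psi_vars hj).2.2.1
  have hsw : xs φ 0 S.s = w * xs φ 1 S.s := hpr _ S.sK S.sF S.hals.symm
  have hal : xs φ 0 S.al = xs φ 1 S.al * w := by
    have e0 := hf 0
    have e1 := hf 1
    rw [f_ev, hg, hp, hsw] at e0
    rw [f_ev] at e1
    have h2 : (xs φ 0 S.al - xs φ 1 S.al * w) * (w * xs φ 1 S.s) ^ (S.m + 2) = 0 := by
      linear_combination e0 - w ^ (S.m + 3) * e1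
    exact sub_eq_zero.1 ((mul_eq_zero.1 h2).resolve_right
      (pow_ne_zero _ (mul_ne_zero hw0 hy)))
  refine le_of_toFr fun z hz => ?_
  refine kill_dD φ 1 0 (by decide) w hw0.isUnit hK (hf 1) ?_ hz
  intro j hj1 hj2
  by_cases hja : j = S.al
  · rw [hja]
    exact hal
  · rw [mul_comm]
    exact hpr j hj1 hj2 hja

end BData

end Kp

end Pool.Agent.RCH
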