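import Pool.Agent.RCH.KpBPts

/-!
# Killing the ideal of the fibre square
-/

set_option autoImplicit false

open MvPolynomial

namespace Pool.Agent.RCH

namespace Kp

/-- the homomorphism to the fraction field of the quotient by an ideal -/
noncomputable def toFr {σ : Type} (Q : Ideal (MvPolynomial σ ℂ)) :
    MvPolynomial σ ℂ →+* FractionRing (MvPolynomial σ ℂ ⧸ Q) :=
  (algebraMap _ _).comp (Ideal.Quotient.mk Q)

lemma toFr_eq_zero {σ : Type} {Q : Ideal (MvPolynomial σ ℂ)} {z : MvPolynomial σ ℂ} :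
    toFr Q z = 0 ↔ z ∈ Q := by
  rw [toFr, RingHom.comp_apply, FaithfulSMul.algebraMap_eq_zero_iff,
    Ideal.Quotient.eq_zero_iff_mem]

namespace BData

variable {ι : Type} [Fintype ι] [DecidableEq ι] (S : BData ι)

lemma kill_U {L : Type} [CommRing L] (φ : Coord ι 2 →+* L) (hK : ∀ i, ∀ j ∈ S.K, xs φ i j = 0)
    (h0 : IsUnit (xs φ 0 S.s)) (h1 : IsUnit (xs φ 1 S.s))
    (hpr : ∀ j ∈ S.Zs, xs φ 0 S.s * xs φ 1 j = xs φ 1 S.s * xs φ 0 j)
    (hf : ∀ i, eval₂Hom (cs φ) (xs φ i) S.f = 0) {z : Coord ι 2} (hz : z ∈ S.pU.I) : φ z = 0 := by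
  have hex : ∀ i : Fin 2, ∃ w : L, xs φ i S.s * w = 1 := by
    intro i
    have hi : IsUnit (xs φ i S.s) := by
      rcases (by omega : i = 0 ∨ i = 1) with rfl | rfl
      · exact h0
      · exact h1
    obtain ⟨u, hu⟩ := hi
    exact ⟨↑u⁻¹, by rw [← hu]; exact Units.mul_inv u⟩
  choose w hw using hex
  have hr : ∀ i, ∀ j ∈ S.Zs, xs φ 0 j * w 0 = xs φ i j * w i := by
    intro i j hj
    rcases (by omega : i = 0 ∨ i = 1) with rfl | rfl
    · rfl
    · linear_combination (-(w 0 * w 1)) * hpr j hj + xs φ 1 j * w 1 * hw 0 -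
        xs φ 0 j * w 0 * hw 1
  let V : Fin 2 × ι → L := fun v => xs φ v.1 v.2 * w v.1
  let γ : Coord ι 2 →+* L := eval₂Hom (cs φ) V
  have hγX : ∀ v, γ (MvPolynomial.X v) = V v := fun v => eval₂Hom_X' _ _ _
  have hγC : ∀ a, γ (C a) = cs φ a := fun a => eval₂Hom_C _ _ _
  have hσ : γ (MvPolynomial.X (0, S.s)) = 1 := by
    rw [hγX]
    exact hw 0
  have hγc : γ.comp C = cs φ := RingHom.ext hγC
  have huev : ∀ (i : Fin 2) (n : ℕ) (p : MvPolynomial ι ℂ), p.IsHomogeneous n →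
      (∀ j ∈ p.vars, j ∉ S.K ∧ j ∉ S.Fr ∧ j ≠ S.al) →
      γ (S.uev i p) = w i ^ n * eval₂Hom (cs φ) (xs φ i) p := by
    intro i n p hp hv
    rw [uev, map_ev, hγc, ← ev_smul _ _ hp]
    refine ev_congr _ _ fun j hj => ?_
    obtain ⟨h1, h2, h3⟩ := hv j hj
    by_cases h4 : j = S.be
    · rw [if_pos h4, hγX, h4]
      exact mul_comm _ _
    · rw [if_neg h4, hγX, mul_comm (w i)]
      exact hr i j (S.mem_Zs.2 ⟨h1, h2, h3, h4⟩)
  refine kill_gen S.F S.dU φ γ (fun i => xs φ i S.s) (fun a => hγC a) ?_ hz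
  intro i j
  have hwi := hw i
  by_cases hjK : j ∈ S.K
  · rw [hK i j hjK, dU, if_pos hjK, map_zero, zero_mul]
  by_cases hjF : j ∈ S.Fr
  · rw [dU, if_neg hjK, if_pos hjF, hγX]
    show xs φ i j = xs φ i j * w i * xs φ i S.s
    linear_combination (-xs φ i j) * hwi
  by_cases hja : j = S.al
  · subst hja
    rw [dU, if_neg hjK, if_neg hjF, if_pos rfl, map_neg, map_add, map_mul, hσ,
      huev i _ _ S.hgh S.hgv, huev i _ _ S.psi_homog fun j hj =>
        ⟨(S.psi_vars hj).1, (S.psi_vars hj).2.1, (S.psi_vars hj).2.2.1⟩]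
    have h := hf i
    rw [f_ev] at h
    have h2 : (xs φ i S.s * w i) ^ (S.m + 2) = 1 := by rw [hwi, one_pow]
    linear_combination w i ^ (S.m + 2) * h - xs φ i S.al * h2 +
      w i ^ (S.m + 2) * eval₂Hom (cs φ) (xs φ i) S.psi * hwi
  by_cases hjb : j = S.be
  · subst hjb
    rw [dU, if_neg hjK, if_neg hjF, if_neg hja, if_pos rfl, map_mul, map_pow, hσ, one_pow,
      one_mul, hγX]
    show xs φ i S.be = xs φ i S.be * w i * xs φ i S.s
    linear_combination (-xs φ i S.be) * hwi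
  · rw [dU, if_neg hjK, if_neg hjF, if_neg hja, if_neg hjb, map_mul, map_pow, hσ, one_pow,
      one_mul, hγX]
    show xs φ i j = xs φ 0 j * w 0 * xs φ i S.s
    rw [hr i j (S.mem_Zs.2 ⟨hjK, hjF, hja, hjb⟩)]
    linear_combination (-xs φ i j) * hwi

/-- a prime which satisfies the equations and does not contain `x_s`, `y_s` contains `pU`
(`kill_U` in the fraction field) -/
lemma pU_le_of {Q : Ideal (Coord ι 2)} [Q.IsPrime]
    (hK : ∀ i, ∀ j ∈ S.K, (MvPolynomial.X (i, j) : Coord ι 2) ∈ Q)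
    (h0 : (MvPolynomial.X (0, S.s) : Coord ι 2) ∉ Q)
    (h1 : (MvPolynomial.X (1, S.s) : Coord ι 2) ∉ Q)
    (hpr : ∀ j ∈ S.Zs, mn S.s j ∈ Q) (hf : ∀ i, inFactor 2 i S.f ∈ Q) : S.pU.I ≤ Q := by
  intro z hz
  rw [← toFr_eq_zero]
  refine S.kill_U (toFr Q) (fun i j hj => toFr_eq_zero.2 (hK i j hj)) ?_ ?_ ?_ ?_ hz
  · exact isUnit_iff_ne_zero.2 fun h => h0 (toFr_eq_zero.1 h)
  · exact isUnit_iff_ne_zero.2 fun h => h1 (toFr_eq_zero.1 h)
  · intro j hj
    have h := toFr_eq_zero.2 (hpr j hj)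
    rw [map_mn, sub_eq_zero] at h
    exact h
  · intro i
    rw [← map_inFactor]
    exact toFr_eq_zero.2 (hf i)

end BData

end Kp

end Pool.Agent.RCH
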