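import Pool.Agent.RCH.KpBPts

/-!
# The relations between two points of the fibre square
-/

set_option autoImplicit false

open MvPolynomial

namespace Pool.Agent.RCH

namespace Kp

namespace BData

variable {ι : Type} [Fintype ι] [DecidableEq ι] (S : BData ι)

section rel

variable {L : Type} [CommRing L] (c : ℂ →+* L)

omit [Fintype ι] [DecidableEq ι] in
/-- a form in coordinates for which two points are proportional -/
lemma ev_prop {p : MvPolynomial ι ℂ} {n : ℕ} (hp : p.IsHomogeneous n) {x y : ι → L} {k l : L}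
    (h : ∀ j ∈ p.vars, k * y j = l * x j) :
    l ^ n * eval₂Hom c x p = k ^ n * eval₂Hom c y p := by
  rw [← ev_smul c _ hp, ← ev_smul c _ hp]
  exact ev_congr c _ fun j hj => (h j hj).symm

lemma rho_prop {x y : ι → L} {b : ι} (h : ∀ j ∈ S.Zs, x b * y j = y b * x j) :
    y b ^ (S.m + 3) * eval₂Hom c x S.rho = x b ^ (S.m + 3) * eval₂Hom c y S.rho :=
  ev_prop c S.rho_homog fun j hj => h j (S.mem_Zs.2
    ⟨(S.rho_vars hj).1, (S.rho_vars hj).2.1, (S.rho_vars hj).2.2.1, (S.rho_vars hj).2.2.2.2⟩)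

lemma rel_r2 (x y : ι → L) (b : ι) (hb : b ∈ S.Zs) (h : ∀ j ∈ S.Zs, x b * y j = y b * x j) :
    y b ^ (S.m + 3) * eval₂Hom c x S.f - x b ^ (S.m + 3) * eval₂Hom c y S.f =
      S.r2v c x y b := by
  have h1 := S.rho_prop c h
  have h2 : x b ^ (S.m + 2) * eval₂Hom c y S.g = S.gB c x y b := by
    rw [← ev_smul c _ S.hgh, gB]
    refine ev_congr c _ fun j hj => ?_
    by_cases hjb : j = S.be
    · rw [if_pos hjb, hjb]
    · rw [if_neg hjb]
      exact h j (S.mem_Zs.2 ⟨(S.hgv j hj).1, (S.hgv j hj).2.1, (S.hgv j hj).2.2, hjb⟩)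
  have h3 := h _ S.s_mem
  have h4 : x b ^ (S.m + 2) * y S.s ^ (S.m + 2) = (y b * x S.s) ^ (S.m + 2) := by
    rw [← mul_pow, h3]
  have h5 : x b ^ (S.m + 2) * y S.tt ^ (S.m + 2) = (y b * x S.tt) ^ (S.m + 2) := by
    rw [← mul_pow, h _ S.tt_mem]
  rw [f_ev, f_ev, psi_ev, psi_ev, r2v, ← h2]
  linear_combination h1 - x b * y S.al * h4 - x b * y S.be * h5 -
    x b ^ (S.m + 2) * eval₂Hom c y S.g * h3

lemma rel_hh (x y : ι → L) (b : ι) (hb : b ∈ S.Zs) (h : ∀ j ∈ S.Zs, x b * y j = y b * x j) :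
    y b ^ (S.m + 3) * eval₂Hom c x S.f = x b * S.hhv c x y b := by
  have h1 := S.rho_prop c h
  have h2 : y b ^ (S.m + 2) * eval₂Hom c x S.g = S.gS c x y b := by
    rw [← ev_smul c _ S.hgh, gS]
    refine ev_congr c _ fun j hj => ?_
    by_cases hjb : j = S.be
    · rw [if_pos hjb, hjb]
    · rw [if_neg hjb]
      exact (h j (S.mem_Zs.2
        ⟨(S.hgv j hj).1, (S.hgv j hj).2.1, (S.hgv j hj).2.2, hjb⟩)).symm
  have h3 := h _ S.s_mem
  have h4 : x b ^ (S.m + 2) * y S.s ^ (S.m + 2) = y b ^ (S.m + 2) * x S.s ^ (S.m + 2) := by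
    rw [← mul_pow, h3, mul_pow]
  have h5 : x b ^ (S.m + 2) * y S.tt ^ (S.m + 2) = y b ^ (S.m + 2) * x S.tt ^ (S.m + 2) := by
    rw [← mul_pow, h _ S.tt_mem, mul_pow]
  rw [f_ev, psi_ev, hhv, ← h2]
  linear_combination h1 - y b * x S.al * h4 - y b * x S.be * h5 -
    y b ^ (S.m + 2) * eval₂Hom c x S.g * h3

variable (φ : Coord ι 2 →+* L)

lemma map_gB {L' : Type} [CommRing L'] (ψ : L' →+* L) (c' : ℂ →+* L') (x y : ι → L') (b : ι) :
    ψ (S.gB c' x y b) = S.gB (ψ.comp c') (fun j => ψ (x j)) (fun j => ψ (y j)) b := by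
  rw [gB, gB, map_ev]
  refine ev_congr _ _ fun j _ => ?_
  by_cases hj : j = S.be
  · rw [if_pos hj, if_pos hj, map_mul]
  · rw [if_neg hj, if_neg hj, map_mul]

lemma map_gS {L' : Type} [CommRing L'] (ψ : L' →+* L) (c' : ℂ →+* L') (x y : ι → L') (b : ι) :
    ψ (S.gS c' x y b) = S.gS (ψ.comp c') (fun j => ψ (x j)) (fun j => ψ (y j)) b := by
  rw [gS, gS, map_ev]
  refine ev_congr _ _ fun j _ => ?_
  by_cases hj : j = S.be
  · rw [if_pos hj, if_pos hj, map_mul]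
  · rw [if_neg hj, if_neg hj, map_mul]

lemma map_R2 (b : ι) : φ (S.R2 b) = S.r2v (cs φ) (xs φ 0) (xs φ 1) b := by
  have h1 : φ (S.gB C (XX 0) (XX 1) b) = S.gB (cs φ) (xs φ 0) (xs φ 1) b :=
    S.map_gB φ C (XX 0) (XX 1) b
  have h2 : φ (eval₂Hom C (XX 0) S.g) = eval₂Hom (cs φ) (xs φ 0) S.g := map_ev _ _ _ _
  have h3 : ∀ i j, φ (XX i j) = xs φ i j := fun i j => rfl
  rw [R2, r2v, r2v]
  simp only [map_add, map_sub, map_mul, map_pow, h1, h2, h3]

lemma map_HH (b : ι) : φ (S.HH b) = S.hhv (cs φ) (xs φ 0) (xs φ 1) b := by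
  have h1 : φ (S.gS C (XX 0) (XX 1) b) = S.gS (cs φ) (xs φ 0) (xs φ 1) b :=
    S.map_gS φ C (XX 0) (XX 1) b
  have h2 : φ (eval₂Hom C (XX 1) S.rho) = eval₂Hom (cs φ) (xs φ 1) S.rho := map_ev _ _ _ _
  have h3 : ∀ i j, φ (XX i j) = xs φ i j := fun i j => rfl
  rw [HH, hhv, hhv]
  simp only [map_add, map_mul, map_pow, h1, h2, h3]

lemma map_gD (b : ι) : φ (S.gD b) = xs φ 1 b ^ (S.m + 2) * eval₂Hom (cs φ) (xs φ 0) S.g -
    S.gB (cs φ) (xs φ 0) (xs φ 1) b := by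
  have h1 : φ (S.gB C (XX 0) (XX 1) b) = S.gB (cs φ) (xs φ 0) (xs φ 1) b :=
    S.map_gB φ C (XX 0) (XX 1) b
  rw [gD, map_sub, map_mul, map_pow, map_inFactor, h1]
  rfl

end rel

/-- divided difference (only the coordinate `be` changes) -/
lemma gD_dvd (b : ι) : mn S.be b ∣ S.gD b := by
  rw [← Ideal.mem_span_singleton, ← Ideal.Quotient.eq_zero_iff_mem]
  set φ := Ideal.Quotient.mk (Ideal.span {(mn S.be b : Coord ι 2)}) with hφ
  have h0 : φ (mn S.be b) = 0 :=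
    Ideal.Quotient.eq_zero_iff_mem.2 (Ideal.mem_span_singleton_self _)
  rw [map_mn, sub_eq_zero] at h0
  rw [map_gD, ← ev_smul _ _ S.hgh, gB, sub_eq_zero]
  refine ev_congr _ _ fun j _ => ?_
  by_cases hj : j = S.be
  · rw [if_pos hj, hj, mul_comm, h0, mul_comm]
  · rw [if_neg hj]

end BData

end Kp

end Pool.Agent.RCH
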