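import Pool.Agent.RCH.KpKillU
import Pool.Agent.RCH.KpRel

/-!
# Members and non-members of the ideal of the fibre square
-/

set_option autoImplicit false

open MvPolynomial

namespace Pool.Agent.RCH

namespace Kp

namespace BData

variable {ι : Type} [Fintype ι] [DecidableEq ι] (S : BData ι)

/-! ### The generic point with the scaling variables -/

/-- the homomorphism whose kernel is the ideal of the fibre square -/
noncomputable def gU : Coord ι 2 →+* MvPolynomial (Fin 2) (Coord ι 2) :=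
  (genHom (hyp S.F) S.dU).toRingHom

lemma mem_pU {z : Coord ι 2} : z ∈ S.pU.I ↔ S.gU z = 0 := RingHom.mem_ker

lemma xs_gU (i : Fin 2) (j : ι) : xs S.gU i j = C (S.dU (i, j)) * MvPolynomial.X i := by
  show genHom (hyp S.F) S.dU (MvPolynomial.X (i, j)) = _
  rw [genHom, aeval_X, wt_hyp, pow_one]

lemma dU_Zs (i : Fin 2) {j : ι} (hj : j ∈ S.Zs) :
    S.dU (i, j) = MvPolynomial.X (0, S.s) ^ (S.m + 2) * MvPolynomial.X (0, j) := by
  obtain ⟨h1, h2, h3, h4⟩ := S.mem_Zs.1 hj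
  rw [dU, if_neg h1, if_neg h2, if_neg h3, if_neg h4]

lemma K_pU (i : Fin 2) {j : ι} (hj : j ∈ S.K) : (MvPolynomial.X (i, j) : Coord ι 2) ∈ S.pU.I :=
  (X_mem_gen S.F S.dU (i, j)).2 (if_pos hj)

lemma mn_pU {j l : ι} (hj : j ∈ S.Zs) (hl : l ∈ S.Zs) : mn j l ∈ S.pU.I := by
  rw [mem_pU, map_mn, xs_gU, xs_gU, xs_gU, xs_gU, S.dU_Zs _ hj, S.dU_Zs _ hj, S.dU_Zs _ hl,
    S.dU_Zs _ hl]
  ring

lemma f_pU (i : Fin 2) : inFactor 2 i S.f ∈ S.pU.I := by
  have hw : IsWeightedHomogeneous (hyp S.F).wt S.f (S.m + 3) := S.f_homog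
  show inFactor 2 i S.f ∈ genIdeal (hyp S.F) S.dU
  rw [mem_genIdeal_of_homogeneous (hyp S.F) S.dU (inFactor_homogeneous (hyp S.F) i hw),
    inFactor_aeval]
  have hK : ∀ j ∈ S.K, (fun j => S.dU (i, j)) j = 0 := fun j hj => if_pos hj
  have h := S.F_dU i
  rw [S.F_ev _ _ hK] at h
  exact h

lemma prop_gU {b : ι} (hb : b ∈ S.Zs) : ∀ j ∈ S.Zs,
    xs S.gU 0 b * xs S.gU 1 j = xs S.gU 1 b * xs S.gU 0 j := by
  intro j hj
  have h := S.mem_pU.1 (S.mn_pU hb hj)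
  rw [map_mn, sub_eq_zero] at h
  exact h

lemma R2_pU {b : ι} (hb : b ∈ S.Zs) : S.R2 b ∈ S.pU.I := by
  have h0 := S.mem_pU.1 (S.f_pU 0)
  have h1 := S.mem_pU.1 (S.f_pU 1)
  rw [map_inFactor] at h0 h1
  rw [mem_pU, map_R2, ← S.rel_r2 _ _ _ b hb (S.prop_gU hb), h0, h1, mul_zero, mul_zero, sub_zero]

/-- the value of the second relation for two points in any order -/
lemma hhv_gU_aux {b : ι} (hb : b ∈ S.Zs) {x y : ι → MvPolynomial (Fin 2) (Coord ι 2)}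
    (hx : x b ≠ 0) (h : ∀ j ∈ S.Zs, x b * y j = y b * x j)
    (hf : eval₂Hom (cs S.gU) x S.f = 0) : S.hhv (cs S.gU) x y b = 0 := by
  have h1 := S.rel_hh (cs S.gU) x y b hb h
  rw [hf, mul_zero] at h1
  exact (mul_eq_zero.1 h1.symm).resolve_left hx

lemma xs_gU_ne (i : Fin 2) {j : ι} (hj : j ∈ S.Zs) : xs S.gU i j ≠ 0 := by
  rw [xs_gU, S.dU_Zs i hj]
  refine mul_ne_zero ?_ (MvPolynomial.X_ne_zero _)
  rw [Ne, C_eq_zero]
  exact mul_ne_zero (pow_ne_zero _ (MvPolynomial.X_ne_zero _)) (MvPolynomial.X_ne_zero _)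

lemma HH_pU {b : ι} (hb : b ∈ S.Zs) : S.HH b ∈ S.pU.I := by
  have h0 := S.mem_pU.1 (S.f_pU 0)
  rw [map_inFactor] at h0
  rw [mem_pU, map_HH]
  exact S.hhv_gU_aux hb (S.xs_gU_ne 0 hb) (S.prop_gU hb) h0

/-! ### Non-members -/

lemma sg_ne : MvPolynomial.X S.s * S.g + S.psi ≠ 0 := by
  intro h
  have h2 : (MvPolynomial.X S.s : MvPolynomial ι ℂ) ∣ MvPolynomial.X S.s * S.g :=
    dvd_mul_right _ _
  exact notMem_vars_of (fun hj => (S.psi_vars hj).2.2.2 rfl) S.psi_prime.ne_zero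
    ((dvd_add_right h2).1 (h ▸ dvd_zero _))

lemma uev_sg_ne (i : Fin 2) :
    MvPolynomial.X (0, S.s) * S.uev i S.g + S.uev i S.psi ≠ 0 := by
  intro h
  have h1 := congrArg (eval₂Hom (C : ℂ →+* MvPolynomial ι ℂ)
    (fun v : Fin 2 × ι => MvPolynomial.X v.2)) h
  have h2 : ∀ p : MvPolynomial ι ℂ, eval₂Hom (C : ℂ →+* MvPolynomial ι ℂ)
      (fun v : Fin 2 × ι => MvPolynomial.X v.2) (S.uev i p) = p := by
    intro p
    rw [uev, map_ev]
    have h3 : (eval₂Hom (C : ℂ →+* MvPolynomial ι ℂ)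
        (fun v : Fin 2 × ι => MvPolynomial.X v.2)).comp C = C := by
      refine RingHom.ext fun a => ?_
      rw [RingHom.comp_apply, eval₂Hom_C]
    rw [h3]
    have h4 : (fun j => eval₂Hom (C : ℂ →+* MvPolynomial ι ℂ)
        (fun v : Fin 2 × ι => MvPolynomial.X v.2)
        (if j = S.be then MvPolynomial.X (i, S.be) else MvPolynomial.X (0, j))) =
        MvPolynomial.X := by
      funext j
      by_cases hj : j = S.be
      · rw [if_pos hj, eval₂Hom_X', hj]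
      · rw [if_neg hj, eval₂Hom_X']
    rw [h4]
    exact MvPolynomial.eval₂_eta p
  rw [map_add, map_mul, eval₂Hom_X', h2, h2, map_zero] at h1
  exact S.sg_ne h1

lemma dU_ne (i : Fin 2) {j : ι} (hj : j ∉ S.K) : S.dU (i, j) ≠ 0 := by
  rw [dU, if_neg hj]
  split_ifs
  · exact MvPolynomial.X_ne_zero _
  · exact neg_ne_zero.2 (S.uev_sg_ne i)
  · exact mul_ne_zero (pow_ne_zero _ (MvPolynomial.X_ne_zero _)) (MvPolynomial.X_ne_zero _)
  · exact mul_ne_zero (pow_ne_zero _ (MvPolynomial.X_ne_zero _)) (MvPolynomial.X_ne_zero _)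

lemma X_pU (i : Fin 2) {j : ι} (hj : j ∉ S.K) : (MvPolynomial.X (i, j) : Coord ι 2) ∉ S.pU.I :=
  fun h => S.dU_ne i hj ((X_mem_gen S.F S.dU (i, j)).1 h)

lemma dU_be (i : Fin 2) : S.dU (i, S.be) =
    MvPolynomial.X (0, S.s) ^ (S.m + 2) * MvPolynomial.X (i, S.be) := by
  rw [dU, if_neg S.beK, if_neg S.beF, if_neg S.halbe.symm, if_pos rfl]

lemma MM_pU : S.MM ∉ S.pU.I := by
  intro h
  have h1 := ev_gen S.F S.dU h
  rw [MM, mn, map_sub, map_mul, map_mul, aeval_X, aeval_X, aeval_X, aeval_X, S.dU_be, S.dU_be,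
    S.dU_Zs _ S.s_mem, S.dU_Zs _ S.s_mem] at h1
  have h2 : (MvPolynomial.X (0, S.s) ^ (S.m + 2) * (MvPolynomial.X (0, S.s) ^ (S.m + 2) *
      MvPolynomial.X (0, S.s))) * ((MvPolynomial.X (0, S.be) : Coord ι 2) -
      MvPolynomial.X (1, S.be)) = 0 := by
    rw [← h1]
    ring
  have hX : (MvPolynomial.X (0, S.s) : Coord ι 2) ≠ 0 := MvPolynomial.X_ne_zero _
  have h3 := (mul_eq_zero.1 h2).resolve_left
    (mul_ne_zero (pow_ne_zero _ hX) (mul_ne_zero (pow_ne_zero _ hX) hX))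
  have h4 := MvPolynomial.X_injective (sub_eq_zero.1 h3)
  exact Fin.zero_ne_one (congrArg Prod.fst h4)

end BData

end Kp

end Pool.Agent.RCH
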