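import Pool.Agent.RCH.KpPd
import Pool.Agent.RCH.KpJac2
import Pool.Agent.RCH.KpRel
import Pool.Agent.RCH.KpRelU
import Pool.Agent.RCH.KpKillU

/-!
# The orders at the diagonal of the next level
-/

set_option autoImplicit false

open MvPolynomial

namespace Pool.Agent.RCH

namespace Kp

attribute [local instance] Pt.prime

namespace BData

variable {ι : Type} [Fintype ι] [DecidableEq ι] (S : BData ι)

lemma d1_al_K1 : S.al ∉ S.K1 := by
  rw [mem_K1]
  rintro (h | h)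
  · exact S.hals h
  · exact S.alK h

lemma d1_tt_K1 : S.tt ∉ S.K1 := by
  rw [mem_K1]
  rintro (h | h)
  · exact S.hstt h.symm
  · exact S.ttK h

lemma d1_tt_Fr1 : S.tt ∉ S.Fr1 := fun h => S.tt_notMem_Fr2 (S.Fr1_sub h)

lemma d1_X {i : Fin 2} {j : ι} (hj : j ∈ S.K1) :
    (MvPolynomial.X (i, j) : Coord ι 2) ∈ S.D1.I := by
  rw [D1, Dpt_I, X_mem_gen, dD]
  exact if_pos hj

lemma d1_tt (i : Fin 2) : (MvPolynomial.X (i, S.tt) : Coord ι 2) ∉ S.D1.I := by
  rw [D1, Dpt_I, X_mem_gen, dD]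
  simp only [if_neg S.d1_tt_K1, if_neg S.d1_tt_Fr1]
  exact mk_X_ne 1 1 S.psi_prime (not_dvd_X (n := S.m + 1) S.psi_homog _)

lemma d1_mn {j : ι} (hj : j ∈ S.Zs) : mn S.tt j ∈ S.D1.I := by
  rw [D1, Dpt_I, mn_mem_gen]
  by_cases hjs : j = S.s
  · subst hjs
    have h : ∀ i, dD 1 S.K1 S.Fr1 S.psi (i, S.s) = 0 := fun i => by
      rw [dD]
      exact if_pos (S.mem_K1.2 (Or.inl rfl))
    rw [h, h, mul_zero, mul_zero]
  · have h := S.mem_Zs.1 hj
    have h1 : j ∉ S.K1 := fun h' => (S.mem_K1.1 h').elim hjs h.1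
    have h2 : j ∉ S.Fr1 := fun h' => (S.mem_Fr1.1 h').elim h.2.2.1 h.2.1
    have hd : ∀ i, ∀ l, l ∉ S.K1 → l ∉ S.Fr1 → dD 1 S.K1 S.Fr1 S.psi (i, l) =
        Kp.mk 1 S.psi (MvPolynomial.X (1, l)) := fun i l hl hl' => by
      simp only [dD]
      rw [if_neg hl, if_neg hl']
    rw [hd _ _ S.d1_tt_K1 S.d1_tt_Fr1, hd _ _ S.d1_tt_K1 S.d1_tt_Fr1, hd _ _ h1 h2, hd _ _ h1 h2]

lemma d1_f (i : Fin 2) : inFactor 2 i S.f ∈ S.D1.I := by
  rw [D1, Dpt_I, inFactor_mem_gen S.F _ i S.f_homog, S.f_ev]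
  have hs : dD 1 S.K1 S.Fr1 S.psi (i, S.s) = 0 := by
    rw [dD]
    exact if_pos (S.mem_K1.2 (Or.inl rfl))
  have h := h_dD S.adm1 1 i
  simp only [hs, h]
  rw [zero_mul, zero_pow (by omega), mul_zero]
  ring

lemma d1_al : mn S.al S.tt ∉ S.D1.I := by
  have := isDomain_RD 1 S.psi_prime
  rw [D1, Dpt_I, mn_mem_gen]
  simp only [dD]
  rw [if_neg S.d1_al_K1, if_neg S.d1_al_K1, if_neg S.d1_tt_K1, if_neg S.d1_tt_K1,
    if_pos (S.mem_Fr1.2 (Or.inl rfl)), if_pos (S.mem_Fr1.2 (Or.inl rfl)), if_neg S.d1_tt_Fr1,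
    if_neg S.d1_tt_Fr1]
  intro h
  have h1 := mul_right_cancel₀
    (mk_X_ne 1 1 S.psi_prime (not_dvd_X (n := S.m + 1) S.psi_homog _)) h
  rw [← sub_eq_zero, ← map_sub, mk_eq_zero] at h1
  obtain ⟨c, hc⟩ := h1
  have h2 := congrArg (eval₂Hom (C : ℂ →+* MvPolynomial ι ℂ)
    (fun v : Fin 2 × ι => if v.1 = 1 then MvPolynomial.X v.2 else MvPolynomial.X v.2 + 1)) hc
  rw [map_mul, map_inFactor, map_sub, eval₂Hom_X', eval₂Hom_X', if_neg zero_ne_one,
    if_pos rfl] at h2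
  have h3 : cs (eval₂Hom (C : ℂ →+* MvPolynomial ι ℂ)
      (fun v : Fin 2 × ι => if v.1 = 1 then MvPolynomial.X v.2 else
        MvPolynomial.X v.2 + 1)) = C := by
    refine RingHom.ext fun a => ?_
    simp [cs]
  have h4 : xs (eval₂Hom (C : ℂ →+* MvPolynomial ι ℂ)
      (fun v : Fin 2 × ι => if v.1 = 1 then MvPolynomial.X v.2 else
        MvPolynomial.X v.2 + 1)) 1 = MvPolynomial.X := by
    funext j
    simp [xs]
  rw [h3, h4] at h2
  have h5 : eval₂Hom (C : ℂ →+* MvPolynomial ι ℂ) MvPolynomial.X S.psi = S.psi :=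
    MvPolynomial.eval₂_eta S.psi
  rw [h5, add_sub_cancel_left] at h2
  exact S.psi_prime.not_isUnit (IsUnit.of_mul_eq_one _ h2.symm)

/-- the index set of the equations -/
abbrev D1K : Type := (Fin 2 × S.K) ⊕ ((S.Zs.erase S.tt : Finset ι) ⊕ Fin 2)

/-- the equations -/
noncomputable def d1q : S.D1K → Coord ι 2 :=
  Sum.elim (fun p => MvPolynomial.X (p.1, (p.2 : ι)))
    (Sum.elim (fun j => mn S.tt (j : ι)) (fun i => inFactor 2 i S.f))

lemma d1q_mem (i : S.D1K) : S.d1q i ∈ S.D1.I := by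
  rcases i with p | j | i
  · exact S.d1_X (S.mem_K1.2 (Or.inr p.2.2))
  · exact S.d1_mn (Finset.mem_of_mem_erase j.2)
  · exact S.d1_f i

lemma d1_t : (MvPolynomial.X (0, S.s) : Coord ι 2) ∈ S.D1.I := S.d1_X (S.mem_K1.2 (Or.inl rfl))

/-- the equations and the uniformizer generate the ideal locally -/
lemma d1_loc {L : Type} [CommRing L] (φ : Coord ι 2 →+* L) (hq : ∀ i, φ (S.d1q i) = 0)
    (ht : φ (MvPolynomial.X (0, S.s)) = 0) (h0 : IsUnit (φ (MvPolynomial.X (0, S.tt))))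
    (h1 : IsUnit (φ (MvPolynomial.X (1, S.tt)))) {z : Coord ι 2} (hz : z ∈ S.D1.I) :
    φ z = 0 := by
  have hK : ∀ i, ∀ j ∈ S.K, xs φ i j = 0 := fun i j hj => hq (Sum.inl (i, ⟨j, hj⟩))
  have hmn : ∀ j ∈ S.Zs, xs φ 0 S.tt * xs φ 1 j = xs φ 1 S.tt * xs φ 0 j := by
    intro j hj
    by_cases hjt : j = S.tt
    · subst hjt
      ring
    · have h := hq (Sum.inr (Sum.inl ⟨j, Finset.mem_erase.2 ⟨hjt, hj⟩⟩))
      have h' : φ (mn S.tt j) = 0 := h
      rw [map_mn, sub_eq_zero] at h'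
      exact h'
  have hf : ∀ i, eval₂Hom (cs φ) (xs φ i) S.f = 0 := fun i => by
    rw [← map_inFactor]
    exact hq (Sum.inr (Sum.inr i))
  obtain ⟨u0, hu0⟩ := h0
  obtain ⟨u1, hu1⟩ := h1
  have hu0' : xs φ 0 S.tt = u0 := hu0.symm
  have hu1' : xs φ 1 S.tt = u1 := hu1.symm
  have hi1 := u1.inv_mul
  have hi0 := u0.inv_mul
  have hs0 : xs φ 0 S.s = 0 := ht
  have hs1 : xs φ 1 S.s = 0 := by
    have h := hmn S.s S.s_mem
    rw [hs0, mul_zero, hu0'] at h
    exact (u0.isUnit.mul_right_eq_zero).1 h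
  have hpsi : ∀ i, xs φ i S.s = 0 → eval₂Hom (cs φ) (xs φ i) S.psi = 0 := by
    intro i hi
    have h := hf i
    rw [S.f_ev, hi, zero_pow (by omega), mul_zero, zero_mul, zero_add, zero_add] at h
    exact h
  have hpr : ∀ j ∈ S.Zs, xs φ 0 j = (↑u1⁻¹ * ↑u0) * xs φ 1 j := by
    intro j hj
    have h := hmn j hj
    rw [hu0', hu1'] at h
    linear_combination (-(↑u1⁻¹ : L)) * h - xs φ 0 j * hi1
  have hw : IsUnit ((↑u1⁻¹ : L) * ↑u0) := (u1⁻¹ * u0).isUnit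
  refine kill_dD φ 1 0 one_ne_zero ((↑u1⁻¹ : L) * ↑u0) hw ?_ (hpsi 1 hs1) ?_ hz
  · intro i j hj
    rcases S.mem_K1.1 hj with rfl | hj
    · rcases (by omega : i = 0 ∨ i = 1) with rfl | rfl
      · exact hs0
      · exact hs1
    · exact hK i j hj
  · intro j hjK hjF
    by_cases hjb : j = S.be
    · subst hjb
      have e0 := hpsi 0 hs0
      have e1 := hpsi 1 hs1
      rw [S.psi_ev] at e0 e1
      have er : eval₂Hom (cs φ) (xs φ 0) S.rho =
          ((↑u1⁻¹ : L) * ↑u0) ^ (S.m + 3) * eval₂Hom (cs φ) (xs φ 1) S.rho := by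
        rw [← ev_smul _ _ S.rho_homog]
        refine ev_congr _ _ fun l hl => ?_
        have h := S.rho_vars hl
        exact hpr l (S.mem_Zs.2 ⟨h.1, h.2.1, h.2.2.1, h.2.2.2.2⟩)
      have ht0 : xs φ 0 S.tt = (↑u1⁻¹ * ↑u0) * xs φ 1 S.tt := hpr S.tt S.tt_mem
      have hu : IsUnit (xs φ 0 S.tt ^ (S.m + 2)) := by
        rw [hu0']
        exact u0.isUnit.pow _
      rw [← sub_eq_zero]
      refine (hu.mul_left_eq_zero).1 ?_
      rw [er] at e0
      rw [ht0] at e0 ⊢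
      linear_combination e0 - ((↑u1⁻¹ : L) * ↑u0) ^ (S.m + 3) * e1
    · rw [mul_comm]
      refine hpr j (S.mem_Zs.2 ⟨fun h => hjK (S.mem_K1.2 (Or.inr h)),
        fun h => hjF (S.mem_Fr1.2 (Or.inr h)), fun h => hjF (S.mem_Fr1.2 (Or.inl h)), hjb⟩)

/-! ### The Jacobian -/

lemma d1_fbe (i : Fin 2) : inFactor 2 i (pderiv S.be S.f) ∉ S.D1.I := by
  have hr : pderiv S.be S.rho = 0 :=
    pderiv_eq_zero_of_notMem_vars fun h => (S.rho_vars h).2.2.2.2 rfl
  have e : pderiv S.be S.f = MvPolynomial.X S.s * pderiv S.be S.g +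
      MvPolynomial.X S.tt ^ (S.m + 2) := by
    rw [f, psi, map_add, map_add, map_add, hr, Derivation.leibniz, Derivation.leibniz,
      Derivation.leibniz, Derivation.leibniz_pow, Derivation.leibniz_pow, pderiv_X_of_ne S.halbe,
      pderiv_X_of_ne S.hsbe, pderiv_X_of_ne S.hbett.symm, pderiv_X_self]
    simp only [smul_eq_mul, smul_zero, mul_zero, add_zero, zero_add, mul_one]
  intro h
  rw [e, map_add, map_mul, map_pow] at h
  have e1 : inFactor 2 i (MvPolynomial.X S.s : MvPolynomial ι ℂ) = MvPolynomial.X (i, S.s) :=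
    rename_X _ _
  have e2 : inFactor 2 i (MvPolynomial.X S.tt : MvPolynomial ι ℂ) = MvPolynomial.X (i, S.tt) :=
    rename_X _ _
  rw [e1, e2] at h
  have h1 := (Ideal.add_mem_iff_right _ (Ideal.mul_mem_right _ _
    (S.d1_X (i := i) (S.mem_K1.2 (Or.inl rfl))))).1 h
  exact S.d1_tt i (Ideal.IsPrime.mem_of_pow_mem inferInstance _ h1)

lemma d1_jac (c : S.D1K → Coord ι 2) (d : Coord ι 2)
    (h : ∀ v, ∑ i, c i * pderiv v (S.d1q i) + d * pderiv v (MvPolynomial.X (0, S.s)) ∈ S.D1.I) :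
    (∀ i, c i ∈ S.D1.I) ∧ d ∈ S.D1.I := by
  have H : ∀ v, ∑ p : Fin 2 × S.K, c (Sum.inl p) * pderiv v (MvPolynomial.X (p.1, (p.2 : ι))) +
      ((∑ j : (S.Zs.erase S.tt : Finset ι), c (Sum.inr (Sum.inl j)) * pderiv v (mn S.tt j) +
        (c (Sum.inr (Sum.inr 0)) * pderiv v (inFactor 2 0 S.f) +
        c (Sum.inr (Sum.inr 1)) * pderiv v (inFactor 2 1 S.f))) +
        d * pderiv v (MvPolynomial.X (0, S.s))) ∈ S.D1.I := by
    intro v
    have h1 := h v
    rw [Fintype.sum_sum_type, Fintype.sum_sum_type, Fin.sum_univ_two] at h1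
    have e : ∀ a b c d : Coord ι 2, a + (b + c) + d = a + ((b + c) + d) := fun a b c d => by ring
    rw [e] at h1
    exact h1
  have z1 : ∀ (v : Fin 2 × ι), v.2 ∉ S.K →
      ∑ p : Fin 2 × S.K, c (Sum.inl p) * pderiv v (MvPolynomial.X (p.1, (p.2 : ι))) = 0 := by
    intro v hv
    refine Finset.sum_eq_zero fun p _ => ?_
    rw [pd_X, if_neg, mul_zero]
    rintro rfl
    exact hv p.2.2
  have z2 : ∀ (v : Fin 2 × ι), v.2 ∉ S.Zs →
      ∑ j : (S.Zs.erase S.tt : Finset ι), c (Sum.inr (Sum.inl j)) * pderiv v (mn S.tt j) =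
        0 := by
    intro v hv
    refine Finset.sum_eq_zero fun j _ => ?_
    have hj : (j : ι) ∈ S.Zs := Finset.mem_of_mem_erase j.2
    rw [pd_mn, if_neg, if_neg, if_neg, if_neg]
    · ring
    · rintro rfl
      exact hv hj
    · rintro rfl
      exact hv S.tt_mem
    · rintro rfl
      exact hv hj
    · rintro rfl
      exact hv S.tt_mem
  have hbeZ : S.be ∉ S.Zs := fun h => (S.mem_Zs.1 h).2.2.2 rfl
  have h3 : ∀ i : Fin 2, c (Sum.inr (Sum.inr i)) ∈ S.D1.I := by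
    intro i
    have h1 := H (i, S.be)
    rw [z1 _ S.beK, z2 _ hbeZ, pd_X, if_neg (fun h => S.hsbe (Prod.mk.inj h).2.symm), mul_zero,
      zero_add, zero_add, add_zero] at h1
    rcases (by omega : i = 0 ∨ i = 1) with rfl | rfl
    · rw [pd_inFactor_same, pd_inFactor_ne zero_ne_one, mul_zero, add_zero] at h1
      exact (Ideal.IsPrime.mem_or_mem inferInstance h1).resolve_right (S.d1_fbe 0)
    · rw [pd_inFactor_same, pd_inFactor_ne one_ne_zero, mul_zero, zero_add] at h1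
      exact (Ideal.IsPrime.mem_or_mem inferInstance h1).resolve_right (S.d1_fbe 1)
  have H3 : ∀ v, c (Sum.inr (Sum.inr 0)) * pderiv v (inFactor 2 0 S.f) +
        c (Sum.inr (Sum.inr 1)) * pderiv v (inFactor 2 1 S.f) ∈ S.D1.I := fun v =>
    add_mem (Ideal.mul_mem_right _ _ (h3 0)) (Ideal.mul_mem_right _ _ (h3 1))
  have h1 : ∀ p : Fin 2 × S.K, c (Sum.inl p) ∈ S.D1.I := by
    rintro ⟨i, j, hj⟩
    have h4 := H (i, j)
    have hjZ : j ∉ S.Zs := fun h => (S.mem_Zs.1 h).1 hj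
    have hjs : j ≠ S.s := by
      rintro rfl
      exact S.sK hj
    rw [z2 _ hjZ, pd_X, if_neg (fun h => hjs (Prod.mk.inj h).2), mul_zero, zero_add,
      add_zero] at h4
    have h5 := (Ideal.add_mem_iff_left _ (H3 _)).1 h4
    rw [Finset.sum_eq_single (i, ⟨j, hj⟩) ?_ (fun h => absurd (Finset.mem_univ _) h), pd_X,
      if_pos rfl, mul_one] at h5
    · exact h5
    · rintro p - hp
      rw [pd_X, if_neg, mul_zero]
      intro h
      apply hp
      have := Prod.mk.inj h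
      exact Prod.ext this.1.symm (Subtype.ext this.2.symm)
  have h2 : ∀ j : (S.Zs.erase S.tt : Finset ι), c (Sum.inr (Sum.inl j)) ∈ S.D1.I := by
    rintro ⟨j, hj⟩
    have hjt : j ≠ S.tt := (Finset.mem_erase.1 hj).1
    have hjZ : j ∈ S.Zs := (Finset.mem_erase.1 hj).2
    have h4 := H (1, j)
    rw [z1 _ (S.mem_Zs.1 hjZ).1, pd_X, if_neg (fun h => one_ne_zero (Prod.mk.inj h).1), mul_zero,
      zero_add, add_zero] at h4
    have h5 := (Ideal.add_mem_iff_left _ (H3 _)).1 h4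
    rw [Finset.sum_eq_single ⟨j, hj⟩ ?_ (fun h => absurd (Finset.mem_univ _) h), pd_mn,
      if_neg (fun h => one_ne_zero (Prod.mk.inj h).1), if_pos rfl,
      if_neg (fun h => hjt (Prod.mk.inj h).2),
      if_neg (fun h => one_ne_zero (Prod.mk.inj h).1)] at h5
    · rw [zero_add, sub_zero, sub_zero] at h5
      exact (Ideal.IsPrime.mem_or_mem inferInstance h5).resolve_right (S.d1_tt 0)
    · rintro ⟨l, hl⟩ - hlj
      have hlj' : j ≠ l := fun h => hlj (Subtype.ext h.symm)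
      rw [pd_mn, if_neg (fun h => one_ne_zero (Prod.mk.inj h).1),
        if_neg (fun h => hlj' (Prod.mk.inj h).2), if_neg (fun h => hjt (Prod.mk.inj h).2),
        if_neg (fun h => one_ne_zero (Prod.mk.inj h).1)]
      ring
  refine ⟨?_, ?_⟩
  · rintro (p | j | i)
    · exact h1 p
    · exact h2 j
    · exact h3 i
  · have h4 := H (0, S.s)
    rw [z1 _ S.sK, zero_add, pd_X, if_pos rfl, mul_one] at h4
    exact (Ideal.add_mem_iff_right _ (add_mem (Ideal.sum_mem _ fun j _ =>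
      Ideal.mul_mem_right _ _ (h2 j)) (H3 _))).1 h4

lemma d1_between : ∃ L : Ideal (Coord ι 2), L.IsPrime ∧ (∀ i, S.d1q i ∈ L) ∧ L < S.D1.I ∧
    (MvPolynomial.X (0, S.s) : Coord ι 2) ∉ L := by
  refine kj S.d1q (MvPolynomial.X (0, S.s)) S.d1q_mem S.d1_t ?_ S.d1_jac
  intro z hz
  refine S.d1_loc _ (fun i => toLocMod_eq_zero_of_mem
    (Ideal.mem_sup_left (Ideal.subset_span (Set.mem_range_self i))))
    (toLocMod_eq_zero_of_mem (Ideal.mem_sup_right (Ideal.mem_span_singleton_self _)))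
    (isUnit_toLocMod (S.d1_tt 0)) (isUnit_toLocMod (S.d1_tt 1)) hz

lemma pU_le_D1 : S.pU.I ≤ S.D1.I := by
  obtain ⟨L, hL, hq, hlt, ht⟩ := S.d1_between
  have hmn : ∀ j ∈ S.Zs, mn S.tt j ∈ L := by
    intro j hj
    by_cases hjt : j = S.tt
    · subst hjt
      have e : (mn S.tt S.tt : Coord ι 2) = 0 := by
        rw [mn]
        ring
      rw [e]
      exact zero_mem _
    · exact hq (Sum.inr (Sum.inl ⟨j, Finset.mem_erase.2 ⟨hjt, hj⟩⟩))
  have htt0 : (MvPolynomial.X (0, S.tt) : Coord ι 2) ∉ L := fun h => S.d1_tt 0 (hlt.le h)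
  have htt1 : (MvPolynomial.X (1, S.tt) : Coord ι 2) ∉ L := fun h => S.d1_tt 1 (hlt.le h)
  refine (S.pU_le_of (Q := L) (fun i j hj => hq (Sum.inl (i, ⟨j, hj⟩))) ht ?_ ?_
    (fun i => hq (Sum.inr (Sum.inr i)))).trans hlt.le
  · intro h
    have h1 := hmn S.s S.s_mem
    have e : (MvPolynomial.X (1, S.tt) * MvPolynomial.X (0, S.s) : Coord ι 2) =
        MvPolynomial.X (0, S.tt) * MvPolynomial.X (1, S.s) - mn S.tt S.s := by
      rw [mn]
      ring
    have h2 : (MvPolynomial.X (1, S.tt) * MvPolynomial.X (0, S.s) : Coord ι 2) ∈ L := by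
      rw [e]
      exact sub_mem (Ideal.mul_mem_left _ _ h) h1
    rcases hL.mem_or_mem h2 with h3 | h3
    · exact htt1 h3
    · exact ht h3
  · intro j hj
    have e : (MvPolynomial.X (0, S.tt) * mn S.s j : Coord ι 2) =
        MvPolynomial.X (0, S.s) * mn S.tt j - MvPolynomial.X (0, j) * mn S.tt S.s := by
      simp only [mn]
      ring
    have h2 : (MvPolynomial.X (0, S.tt) * mn S.s j : Coord ι 2) ∈ L := by
      rw [e]
      exact sub_mem (Ideal.mul_mem_left _ _ (hmn j hj)) (Ideal.mul_mem_left _ _ (hmn _ S.s_mem))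
    exact (hL.mem_or_mem h2).resolve_left htt0

lemma d1_one : (1 : Coord ι 2) ∉ S.D1.I := fun h =>
  Ideal.IsPrime.ne_top inferInstance ((Ideal.eq_top_iff_one _).2 h)

lemma d1_unif (z : Coord ι 2) (hz : z ∈ S.D1.I) :
    ∃ s, s ∉ S.D1.I ∧ s * z ∈ S.pU.I ⊔ Ideal.span {MvPolynomial.X (0, S.s)} := by
  refine exists_of_toLocMod_eq_zero ?_
  have hm : ∀ w ∈ S.pU.I, toLocMod (S.pU.I ⊔ Ideal.span {MvPolynomial.X (0, S.s)})
      S.D1.I w = 0 := fun w hw => toLocMod_eq_zero_of_mem (Ideal.mem_sup_left hw)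
  refine S.d1_loc _ ?_
    (toLocMod_eq_zero_of_mem (Ideal.mem_sup_right (Ideal.mem_span_singleton_self _)))
    (isUnit_toLocMod (S.d1_tt 0)) (isUnit_toLocMod (S.d1_tt 1)) hz
  rintro (p | j | i)
  · exact hm _ (S.K_pU _ p.2.2)
  · exact hm _ (S.mn_pU S.tt_mem (Finset.mem_of_mem_erase j.2))
  · exact hm _ (S.f_pU i)

/-- Row K-D1 -/
lemma ord_D1 : CodimOne S.pU.I S.D1.I ∧
    ordAt S.pU.I S.D1.I (MvPolynomial.X (0, S.s)) = (1 : ℕ) ∧
    ordAt S.pU.I S.D1.I (MvPolynomial.X (1, S.s)) = (1 : ℕ) ∧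
    ordAt S.pU.I S.D1.I S.MM = (S.m + 3 : ℕ) := by
  have htU := S.X_pU 0 S.sK
  refine ⟨codimOne_of S.pU_le_D1 S.d1_t htU S.d1_unif, ?_, ?_, ?_⟩
  · refine ordAt_eq (s := 1) (s' := 1) S.pU_le_D1 S.d1_t htU S.d1_unif S.d1_one S.d1_one ?_
    rw [pow_one, sub_self]
    exact zero_mem _
  · refine ordAt_eq (s := MvPolynomial.X (0, S.tt)) (s' := MvPolynomial.X (1, S.tt)) S.pU_le_D1
      S.d1_t htU S.d1_unif (S.d1_tt 0) (S.d1_tt 1) ?_
    rw [pow_one]
    exact S.mn_pU S.tt_mem S.s_mem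
  · obtain ⟨G, hG⟩ := S.gD_dvd S.tt
    have hn : MvPolynomial.X (0, S.tt) * ((MvPolynomial.X (1, S.tt) *
        MvPolynomial.X (0, S.tt)) ^ (S.m + 2) + MvPolynomial.X (0, S.s) *
          (MvPolynomial.X (1, S.tt) * G)) ∉ S.D1.I := by
      intro h
      rcases Ideal.IsPrime.mem_or_mem inferInstance h with h | h
      · exact S.d1_tt 0 h
      · have h1 := (Ideal.add_mem_iff_left _ (Ideal.mul_mem_right _ _ S.d1_t)).1 h
        rcases Ideal.IsPrime.mem_or_mem inferInstance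
          (Ideal.IsPrime.mem_of_pow_mem inferInstance _ h1) with h2 | h2
        · exact S.d1_tt 1 h2
        · exact S.d1_tt 0 h2
    have hn' : -(mn S.al S.tt * MvPolynomial.X (1, S.tt) ^ (S.m + 2)) ∉ S.D1.I := by
      rw [neg_mem_iff]
      intro h
      rcases Ideal.IsPrime.mem_or_mem inferInstance h with h | h
      · exact S.d1_al h
      · exact S.d1_tt 1 (Ideal.IsPrime.mem_of_pow_mem inferInstance _ h)
    refine ordAt_eq S.pU_le_D1 S.d1_t htU S.d1_unif hn hn' ?_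
    rw [← Ideal.Quotient.eq_zero_iff_mem]
    have hR : Ideal.Quotient.mk S.pU.I (S.R2 S.tt) = 0 :=
      Ideal.Quotient.eq_zero_iff_mem.2 (S.R2_pU S.tt_mem)
    have hs : Ideal.Quotient.mk S.pU.I (mn S.tt S.s) = 0 :=
      Ideal.Quotient.eq_zero_iff_mem.2 (S.mn_pU S.tt_mem S.s_mem)
    have hx : ∀ i j, Ideal.Quotient.mk S.pU.I (MvPolynomial.X (i, j)) =
      xs (Ideal.Quotient.mk S.pU.I) i j := fun _ _ => rfl
    rw [map_R2, r2v, ← S.map_gD, hG, map_mul, map_mn] at hR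
    rw [map_mn] at hs
    rw [MM]
    simp only [map_sub, map_mul, map_add, map_pow, map_neg, map_mn, hx]
    generalize xs (Ideal.Quotient.mk S.pU.I) = v at *
    generalize Ideal.Quotient.mk S.pU.I G = G' at *
    linear_combination v 0 S.s * hR + (((v 1 S.tt * v 0 S.tt) ^ (S.m + 2) +
      v 0 S.s * (v 1 S.tt * G')) * v 0 S.be) * hs

end BData

end Kp

end Pool.Agent.RCH
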