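import Pool.Agent.RCH.KpD2b

/-!
# Relation (B): the orders at the diagonal of `q k = 0`; the uniformizer is `q k (x)`
-/

set_option autoImplicit false

open MvPolynomial

namespace Pool.Agent.RCH

namespace Kp

attribute [local instance] Pt.prime

namespace BData

variable {ι : Type} [Fintype ι] [DecidableEq ι] (S : BData ι)

/-! ### The family -/

/-- the indices of the family -/
abbrev D2κ (k : Fin S.T) : Type :=
  Option (Option ((Fin 2 × {j : ι // j ∈ S.K}) ⊕ {j : ι // j ∈ S.Zs ∧ j ≠ S.b k}))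

/-- the family -/
noncomputable def d2fam (k : Fin S.T) : S.D2κ k → Coord ι 2
  | none => inFactor 2 0 S.f
  | some none => S.R2 (S.b k)
  | some (some (Sum.inl p)) => MvPolynomial.X (p.1, p.2.1)
  | some (some (Sum.inr j)) => mn (S.b k) j.1

lemma d2_K_K2 {j : ι} (hj : j ∈ S.K) : j ∈ S.K2 := S.mem_K2.2 (Or.inr (Or.inr hj))

lemma d2fam_mem (k : Fin S.T) (i : S.D2κ k) : S.d2fam k i ∈ (S.D2 k).I := by
  rcases i with _ | _ | p | j
  · exact S.d2_fm k
  · exact S.d2_R2m k _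
  · exact S.d2_K2 k p.1 (S.d2_K_K2 p.2.2)
  · exact S.d2_mnm k (S.b_mem k) j.2.1

/-! ### The derivatives, modulo the ideal -/

omit [Fintype ι] [DecidableEq ι] in
lemma d2_pd_in (v : Fin 2 × ι) (p : MvPolynomial ι ℂ) :
    pderiv v (inFactor 2 0 p) = if v.1 = 0 then inFactor 2 0 (pderiv v.2 p) else 0 := by
  classical
  obtain ⟨i, j⟩ := v
  by_cases hi : i = 0
  · subst hi
    have hinj : Function.Injective (fun j : ι => ((0, j) : Fin 2 × ι)) :=
      fun a b hab => (Prod.mk.inj hab).2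
    have h1 : pderiv (0, j) (inFactor 2 0 p) = inFactor 2 0 (pderiv j p) :=
      pderiv_rename hinj j p
    rw [h1, if_pos rfl]
  · rw [if_neg hi]
    refine pderiv_eq_zero_of_notMem_vars fun h => hi ?_
    have h1 := vars_rename _ _ h
    obtain ⟨l, -, hl⟩ := Finset.mem_image.1 h1
    exact (Prod.mk.inj hl).1.symm

lemma d2_pd_t (k : Fin S.T) (v : Fin 2 × ι) (hv : v.1 = 0 → v.2 ∉ (S.q k).vars) :
    pderiv v (S.d2t k) = 0 := by
  rw [d2t, d2_pd_in]
  by_cases h : v.1 = 0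
  · rw [if_pos h, pderiv_eq_zero_of_notMem_vars (hv h), map_zero]
  · rw [if_neg h]

lemma d2_pd_X (k : Fin S.T) (v w : Fin 2 × ι) :
    S.d2q k (pderiv v (MvPolynomial.X w)) = if v = w then 1 else 0 := by
  by_cases h : v = w
  · rw [if_pos h, h, pderiv_X_self, map_one]
  · rw [if_neg h, pderiv_X_of_ne (Ne.symm h), map_zero]

/-- the coefficient of the derivative of `t` in the derivative of `f` -/
noncomputable def d2ep (k : Fin S.T) : Coord ι 2 :=
  S.a k • S.d2t k ^ (S.a k - 1) * S.d2r' k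

lemma d2_pd_f (k : Fin S.T) (v : Fin 2 × ι) : S.d2q k (pderiv v (inFactor 2 0 S.f)) =
    (if v = (0, S.s) then 1 else 0) * S.d2q k S.d2al +
      (if v = (0, S.tt) then 1 else 0) * S.d2q k S.d2be +
        S.d2q k (S.d2ep k) * S.d2q k (pderiv v (S.d2t k)) := by
  have e2 : S.d2q k (MvPolynomial.X (0, S.s)) = 0 := (S.d2q_eq_zero k).2 (S.d2_s k 0)
  have e3 : S.d2q k (MvPolynomial.X (0, S.tt)) = 0 := (S.d2q_eq_zero k).2 (S.d2_tt k 0)
  have e4 : S.d2q k (S.d2t k) = 0 := (S.d2q_eq_zero k).2 (S.d2_t k)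
  have ha : S.a k ≠ 0 := by have := S.ha k; omega
  rw [S.d2_f k, map_add (pderiv v), map_add (pderiv v), pderiv_mul, pderiv_mul, pderiv_mul,
    pderiv_pow, d2ep]
  simp only [map_add, map_mul, map_pow, map_natCast, nsmul_eq_mul, d2_pd_X, e2, e3,
    e4, zero_mul, add_zero, zero_pow ha]
  ring

lemma d2_pd_R2 (k : Fin S.T) (v : Fin 2 × ι) : S.d2q k (pderiv v (S.R2 (S.b k))) =
    (if v = (0, S.s) then 1 else 0) * S.d2q k (S.d2ga (S.b k)) := by
  have e2 : S.d2q k (MvPolynomial.X (0, S.s)) = 0 := (S.d2q_eq_zero k).2 (S.d2_s k 0)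
  have e3 : S.d2q k (MvPolynomial.X (0, S.tt)) = 0 := (S.d2q_eq_zero k).2 (S.d2_tt k 0)
  rw [S.d2_R2, map_add, pderiv_mul, pderiv_mul, pderiv_pow]
  have h1 : (0 : Coord ι 2 ⧸ (S.D2 k).I) ^ (S.m + 2) = 0 := zero_pow (by omega)
  have h2 : (0 : Coord ι 2 ⧸ (S.D2 k).I) ^ (S.m + 2 - 1) = 0 := zero_pow (by omega)
  simp only [map_add, map_mul, map_pow, map_natCast, d2_pd_X, e2, e3, zero_mul, add_zero,
    mul_zero, h1, h2]

/-- the derivative of a minor at a variable of the second point -/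
lemma d2_pd_mn1 (k : Fin S.T) {i j : ι} (hi : i ≠ S.b k) :
    S.d2q k (pderiv (1, i) (mn (S.b k) j)) =
      if i = j then xs (S.d2q k) 0 (S.b k) else 0 := by
  have e1 : pderiv (1, i) (MvPolynomial.X (0, S.b k) : Coord ι 2) = 0 :=
    pderiv_X_of_ne (by simp)
  have e2 : pderiv (1, i) (MvPolynomial.X (0, j) : Coord ι 2) = 0 := pderiv_X_of_ne (by simp)
  have e3 : pderiv (1, i) (MvPolynomial.X (1, S.b k) : Coord ι 2) = 0 :=
    pderiv_X_of_ne fun h => hi (Prod.mk.inj h).2.symm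
  rw [mn, map_sub, pderiv_mul, pderiv_mul, e1, e2, e3]
  by_cases h : i = j
  · subst h
    rw [if_pos rfl, pderiv_X_self, zero_mul, zero_mul, mul_zero, zero_add, mul_one, add_zero,
      sub_zero]
    rfl
  · have e4 : pderiv (1, i) (MvPolynomial.X (1, j) : Coord ι 2) = 0 :=
      pderiv_X_of_ne fun h' => h (Prod.mk.inj h').2.symm
    rw [if_neg h, e4, zero_mul, zero_mul, mul_zero, mul_zero, add_zero, sub_zero, map_zero]

lemma d2_jac (k : Fin S.T) (c : S.D2κ k → Coord ι 2) (d : Coord ι 2)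
    (h : ∀ v : Fin 2 × ι, ∑ i, c i * pderiv v (S.d2fam k i) +
      d * pderiv v (S.d2t k) ∈ (S.D2 k).I) :
    (∀ i, c i ∈ (S.D2 k).I) ∧ d ∈ (S.D2 k).I := by
  have key : ∀ v : Fin 2 × ι, S.d2q k (c none) * S.d2q k (pderiv v (inFactor 2 0 S.f)) +
      (S.d2q k (c (some none)) * S.d2q k (pderiv v (S.R2 (S.b k))) +
        (∑ p : Fin 2 × {j : ι // j ∈ S.K}, S.d2q k (c (some (some (Sum.inl p)))) *
            S.d2q k (pderiv v (MvPolynomial.X (p.1, p.2.1))) +
          ∑ j : {j : ι // j ∈ S.Zs ∧ j ≠ S.b k}, S.d2q k (c (some (some (Sum.inr j)))) *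
            S.d2q k (pderiv v (mn (S.b k) j.1)))) +
      S.d2q k d * S.d2q k (pderiv v (S.d2t k)) = 0 := by
    intro v
    have h1 := (S.d2q_eq_zero k).2 (h v)
    rw [map_add, map_mul, map_sum, Fintype.sum_option, Fintype.sum_option,
      Fintype.sum_sum_type] at h1
    simp only [map_mul] at h1
    exact h1
  have hM : ∀ j : {j : ι // j ∈ S.Zs ∧ j ≠ S.b k},
      S.d2q k (c (some (some (Sum.inr j)))) = 0 := by
    intro j
    have h1 := key (1, j.1)
    have ht : pderiv (1, j.1) (S.d2t k) = 0 :=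
      S.d2_pd_t k _ fun h => absurd h one_ne_zero
    have hne : ∀ i : ι, ((1, j.1) : Fin 2 × ι) ≠ (0, i) := fun i => by simp
    have hs1 : ∑ p : Fin 2 × {j : ι // j ∈ S.K}, S.d2q k (c (some (some (Sum.inl p)))) *
        S.d2q k (pderiv (1, j.1) (MvPolynomial.X (p.1, p.2.1))) = 0 := by
      refine Finset.sum_eq_zero fun p _ => ?_
      rw [d2_pd_X, if_neg, mul_zero]
      intro h2
      have h3 : j.1 = p.2.1 := (Prod.mk.inj h2).2
      exact (S.mem_Zs.1 j.2.1).1 (h3 ▸ p.2.2)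
    have hs2 : ∑ l : {j : ι // j ∈ S.Zs ∧ j ≠ S.b k}, S.d2q k (c (some (some (Sum.inr l)))) *
        S.d2q k (pderiv (1, j.1) (mn (S.b k) l.1)) =
          S.d2q k (c (some (some (Sum.inr j)))) * xs (S.d2q k) 0 (S.b k) := by
      rw [Finset.sum_eq_single j]
      · rw [S.d2_pd_mn1 k j.2.2, if_pos rfl]
      · intro l _ hl
        rw [S.d2_pd_mn1 k j.2.2, if_neg, mul_zero]
        intro h2
        exact hl (Subtype.ext h2.symm)
      · intro h2
        exact absurd (Finset.mem_univ _) h2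
    rw [hs1, hs2, d2_pd_f, d2_pd_R2, if_neg (hne _), if_neg (hne _), ht, map_zero, mul_zero,
      zero_mul, zero_mul, zero_mul, mul_zero, add_zero, add_zero, mul_zero, mul_zero, zero_add,
      zero_add, zero_add, add_zero] at h1
    exact (mul_eq_zero.1 h1).resolve_right fun h2 => S.d2_X k 0 ((S.d2q_eq_zero k).1 h2)
  have hs2 : ∀ v, ∑ l : {j : ι // j ∈ S.Zs ∧ j ≠ S.b k},
      S.d2q k (c (some (some (Sum.inr l)))) * S.d2q k (pderiv v (mn (S.b k) l.1)) = 0 := fun v =>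
    Finset.sum_eq_zero fun l _ => by rw [hM, zero_mul]
  have hX : ∀ p : Fin 2 × {j : ι // j ∈ S.K}, S.d2q k (c (some (some (Sum.inl p)))) = 0 := by
    intro p
    have h1 := key (p.1, p.2.1)
    have ht : pderiv (p.1, p.2.1) (S.d2t k) = 0 :=
      S.d2_pd_t k _ fun _ h => (S.hqv k _ h).1 p.2.2
    have hs : ((p.1, p.2.1) : Fin 2 × ι) ≠ (0, S.s) := by
      intro h2
      have h3 : p.2.1 = S.s := (Prod.mk.inj h2).2
      exact S.sK (h3 ▸ p.2.2)
    have htt : ((p.1, p.2.1) : Fin 2 × ι) ≠ (0, S.tt) := by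
      intro h2
      have h3 : p.2.1 = S.tt := (Prod.mk.inj h2).2
      exact S.ttK (h3 ▸ p.2.2)
    have hs1 : ∑ r : Fin 2 × {j : ι // j ∈ S.K}, S.d2q k (c (some (some (Sum.inl r)))) *
        S.d2q k (pderiv (p.1, p.2.1) (MvPolynomial.X (r.1, r.2.1))) =
          S.d2q k (c (some (some (Sum.inl p)))) := by
      rw [Finset.sum_eq_single p]
      · rw [d2_pd_X, if_pos rfl, mul_one]
      · intro r _ hr
        rw [d2_pd_X, if_neg, mul_zero]
        intro h2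
        apply hr
        have h3 := Prod.mk.inj h2
        exact Prod.ext h3.1.symm (Subtype.ext h3.2.symm)
      · intro h2
        exact absurd (Finset.mem_univ _) h2
    rw [hs1, hs2, d2_pd_f, d2_pd_R2, if_neg hs, if_neg htt, ht, map_zero, mul_zero,
      zero_mul, zero_mul, zero_mul, mul_zero, add_zero, add_zero, mul_zero, mul_zero, zero_add,
      zero_add, add_zero, add_zero] at h1
    exact h1
  have hs1 : ∀ v, ∑ p : Fin 2 × {j : ι // j ∈ S.K}, S.d2q k (c (some (some (Sum.inl p)))) *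
      S.d2q k (pderiv v (MvPolynomial.X (p.1, p.2.1))) = 0 := fun v =>
    Finset.sum_eq_zero fun p _ => by rw [hX, zero_mul]
  have hf : S.d2q k (c none) = 0 := by
    have h1 := key (0, S.tt)
    have ht : pderiv (0, S.tt) (S.d2t k) = 0 :=
      S.d2_pd_t k _ fun _ h => (S.hqv k _ h).2.2.2.2.2 rfl
    have hs : ((0, S.tt) : Fin 2 × ι) ≠ (0, S.s) := fun h2 => S.hstt (Prod.mk.inj h2).2.symm
    rw [hs1, hs2, d2_pd_f, d2_pd_R2, if_neg hs, if_pos rfl, ht, map_zero, mul_zero,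
      zero_mul, zero_mul, one_mul, mul_zero, mul_zero, add_zero, add_zero, add_zero, add_zero,
      add_zero, zero_add] at h1
    exact (mul_eq_zero.1 h1).resolve_right fun h2 => S.d2_be k ((S.d2q_eq_zero k).1 h2)
  have hR : S.d2q k (c (some none)) = 0 := by
    have h1 := key (0, S.s)
    have ht : pderiv (0, S.s) (S.d2t k) = 0 :=
      S.d2_pd_t k _ fun _ h => (S.hqv k _ h).2.2.2.1 rfl
    rw [hs1, hs2, hf, d2_pd_R2, if_pos rfl, ht, map_zero, mul_zero, one_mul, zero_mul,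
      add_zero, add_zero, add_zero, zero_add] at h1
    exact (mul_eq_zero.1 h1).resolve_right fun h2 => S.d2_ga k ((S.d2q_eq_zero k).1 h2)
  have hd : S.d2q k d = 0 := by
    obtain ⟨v, hv⟩ := S.d2_exists_pderiv k
    have h1 := key (0, v)
    rw [hs1, hs2, hf, hR, zero_mul, zero_mul, add_zero, add_zero, zero_add, zero_add, d2t,
      d2_pd_in, if_pos rfl] at h1
    exact (mul_eq_zero.1 h1).resolve_right fun h2 => S.d2_pd k hv ((S.d2q_eq_zero k).1 h2)
  refine ⟨fun i => ?_, (S.d2q_eq_zero k).1 hd⟩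
  rw [← d2q_eq_zero]
  rcases i with _ | _ | p | j
  · exact hf
  · exact hR
  · exact hX p
  · exact hM j

/-! ### The point is above the fibre square -/

omit [Fintype ι] [DecidableEq ι] in
lemma d2_mn_self (j : ι) : mn j j = (0 : Coord ι 2) := by
  rw [mn]
  ring

lemma d2_le' (k : Fin S.T) : S.pU.I ≤ (S.D2 k).I ∧ S.d2t k ∉ S.pU.I := by
  set b := S.b k with hb
  obtain ⟨L, hL, hq, hlt, htL⟩ := kj (Q := (S.D2 k).I) (S.d2fam k) (S.d2t k)
    (S.d2fam_mem k) (S.d2_t k)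
    (fun z hz => S.d2_kill k
      (toLocMod (Ideal.span (Set.range (S.d2fam k)) ⊔ Ideal.span {S.d2t k}) (S.D2 k).I)
      (fun i j hj => toLocMod_eq_zero_of_mem
        (Ideal.mem_sup_left (Ideal.subset_span ⟨some (some (Sum.inl ⟨i, ⟨j, hj⟩⟩)), rfl⟩)))
      (fun j hj => by
        by_cases hjb : j = S.b k
        · rw [hjb, d2_mn_self, map_zero]
        · exact toLocMod_eq_zero_of_mem
            (Ideal.mem_sup_left (Ideal.subset_span ⟨some (some (Sum.inr ⟨j, hj, hjb⟩)), rfl⟩)))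
      (toLocMod_eq_zero_of_mem (Ideal.mem_sup_left (Ideal.subset_span ⟨none, rfl⟩)))
      (toLocMod_eq_zero_of_mem (Ideal.mem_sup_left (Ideal.subset_span ⟨some none, rfl⟩)))
      (toLocMod_eq_zero_of_mem (Ideal.mem_sup_right (Ideal.mem_span_singleton_self _)))
      (isUnit_toLocMod (S.d2_u1 k)) (isUnit_toLocMod (S.d2_ga k))
      (isUnit_toLocMod (S.d2_X k 0)) (isUnit_toLocMod (S.d2_X k 1)) hz)
    (S.d2_jac k)
  have hKL : ∀ i, ∀ j ∈ S.K, (MvPolynomial.X (i, j) : Coord ι 2) ∈ L := fun i j hj =>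
    hq (some (some (Sum.inl ⟨i, ⟨j, hj⟩⟩)))
  have hmnL : ∀ j ∈ S.Zs, mn b j ∈ L := by
    intro j hj
    by_cases hjb : j = b
    · rw [hjb, d2_mn_self]
      exact L.zero_mem
    · exact hq (some (some (Sum.inr ⟨j, hj, hjb⟩)))
  have hfL : inFactor 2 0 S.f ∈ L := hq none
  have hRL : S.R2 b ∈ L := hq (some none)
  have hxL : (MvPolynomial.X (0, b) : Coord ι 2) ∉ L := fun h => S.d2_X k 0 (hlt.le h)
  have hyL : (MvPolynomial.X (1, b) : Coord ι 2) ∉ L := fun h => S.d2_X k 1 (hlt.le h)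
  have httL : (MvPolynomial.X (0, S.tt) : Coord ι 2) ∉ L := by
    intro h
    have h1 : S.d2v1 k b * S.d2t k ^ S.a k ∈ L := by
      have h2 := sub_mem (L.mul_mem_left (S.d2u1 b) h)
        (sub_mem (L.mul_mem_left (S.d2ga b) hfL) (L.mul_mem_left S.d2al hRL))
      rw [← S.d2_rel k b, sub_sub_cancel] at h2
      exact h2
    rcases hL.mem_or_mem h1 with h2 | h2
    · exact S.d2_v1 k (hlt.le h2)
    · exact htL (hL.mem_of_pow_mem _ h2)
  have hs0 : (MvPolynomial.X (0, S.s) : Coord ι 2) ∉ L := by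
    intro h
    have h1 : MvPolynomial.X (0, S.tt) ^ (S.m + 2) * S.d2de b ∈ L := by
      have h2 := sub_mem hRL (L.mul_mem_right (S.d2ga b) h)
      rw [S.d2_R2, add_sub_cancel_left] at h2
      exact h2
    rcases hL.mem_or_mem h1 with h2 | h2
    · exact httL (hL.mem_of_pow_mem _ h2)
    · exact S.d2_de k (hlt.le h2)
  have hs1 : (MvPolynomial.X (1, S.s) : Coord ι 2) ∉ L := by
    intro h
    have h1 : (MvPolynomial.X (1, b) * MvPolynomial.X (0, S.s) : Coord ι 2) ∈ L := by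
      have h2 := sub_mem (L.mul_mem_left (MvPolynomial.X (0, b)) h) (hmnL S.s S.s_mem)
      rw [mn, sub_sub_cancel] at h2
      exact h2
    exact (hL.mem_or_mem h1).elim hyL hs0
  let π : Coord ι 2 →+* Coord ι 2 ⧸ L := Ideal.Quotient.mk L
  have hπ : ∀ z, π z = 0 ↔ z ∈ L := fun z => Ideal.Quotient.eq_zero_iff_mem
  have hpr : ∀ j ∈ S.Zs, xs π 0 b * xs π 1 j = xs π 1 b * xs π 0 j := by
    intro j hj
    have h1 := (hπ _).2 (hmnL j hj)
    rw [map_mn] at h1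
    exact sub_eq_zero.1 h1
  have hle : S.pU.I ≤ L := by
    refine S.pU_le_of hKL hs0 hs1 ?_ ?_
    · intro j hj
      rw [← hπ, map_mn]
      have h1 : xs π 1 b * (xs π 0 S.s * xs π 1 j - xs π 1 S.s * xs π 0 j) = 0 := by
        have e1 := hpr j hj
        have e2 := hpr S.s S.s_mem
        linear_combination (-xs π 1 j) * e2 + xs π 1 S.s * e1
      exact (mul_eq_zero.1 h1).resolve_left fun h2 => hyL ((hπ _).1 h2)
    · intro i
      rcases (by omega : i = 0 ∨ i = 1) with rfl | rfl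
      · exact hfL
      · rw [← hπ, map_inFactor]
        have h1 := S.rel_r2 (cs π) (xs π 0) (xs π 1) b (S.b_mem k) hpr
        rw [← map_R2, (hπ _).2 hRL, ← map_inFactor π 0, (hπ _).2 hfL, mul_zero, zero_sub,
          neg_eq_zero] at h1
        exact (mul_eq_zero.1 h1).resolve_left (pow_ne_zero _ fun h2 => hxL ((hπ _).1 h2))
  exact ⟨hle.trans hlt.le, fun h => htL (hle h)⟩

lemma d2_reg (k : Fin S.T) {z : Coord ι 2} (hz : z ∈ (S.D2 k).I) : ∃ s, s ∉ (S.D2 k).I ∧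
    s * z ∈ S.pU.I ⊔ Ideal.span {S.d2t k} := by
  set J := S.pU.I ⊔ Ideal.span {S.d2t k} with hJ
  apply exists_of_toLocMod_eq_zero (J := J)
  let φ : Coord ι 2 →+* LocMod J (S.D2 k).I := toLocMod J (S.D2 k).I
  have hφ : ∀ w ∈ S.pU.I, φ w = 0 := fun w hw =>
    toLocMod_eq_zero_of_mem (Ideal.mem_sup_left hw)
  exact S.d2_kill k φ (fun i j hj => hφ _ (S.K_pU i hj))
    (fun j hj => hφ _ (S.mn_pU (S.b_mem k) hj)) (hφ _ (S.f_pU 0)) (hφ _ (S.R2_pU (S.b_mem k)))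
    (toLocMod_eq_zero_of_mem (Ideal.mem_sup_right (Ideal.mem_span_singleton_self _)))
    (isUnit_toLocMod (S.d2_u1 k)) (isUnit_toLocMod (S.d2_ga k))
    (isUnit_toLocMod (S.d2_X k 0)) (isUnit_toLocMod (S.d2_X k 1)) hz

/-- the main relation, modulo `pU` -/
lemma d2_main (k : Fin S.T) : S.d2u1 (S.b k) ^ (S.m + 2) * S.d2ga (S.b k) *
    MvPolynomial.X (0, S.s) - -(S.d2de (S.b k) * S.d2v1 k (S.b k) ^ (S.m + 2)) *
      S.d2t k ^ ((S.m + 2) * S.a k) ∈ S.pU.I := by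
  let π : Coord ι 2 →+* Coord ι 2 ⧸ S.pU.I := Ideal.Quotient.mk _
  have hπ : ∀ z, π z = 0 ↔ z ∈ S.pU.I := fun z => Ideal.Quotient.eq_zero_iff_mem
  have hR := (hπ _).2 (S.R2_pU (S.b_mem k))
  have hf := (hπ _).2 (S.f_pU 0)
  have h1 := congrArg π (S.d2_rel k (S.b k))
  rw [map_sub, map_sub, map_mul, map_mul, map_mul, map_mul, hR, hf, mul_zero, mul_zero,
    sub_zero, sub_eq_zero, map_pow] at h1
  rw [d2_R2, map_add, map_mul, map_mul, map_pow] at hR
  rw [← hπ, map_sub, map_mul, map_mul, map_mul, map_neg, map_mul, map_pow, map_pow, map_pow,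
    mul_comm (S.m + 2) (S.a k), pow_mul]
  have h2 : (π (S.d2u1 (S.b k)) * π (MvPolynomial.X (0, S.tt))) ^ (S.m + 2) =
      (π (S.d2v1 k (S.b k)) * π (S.d2t k) ^ S.a k) ^ (S.m + 2) := by rw [h1]
  rw [mul_pow, mul_pow] at h2
  linear_combination π (S.d2u1 (S.b k)) ^ (S.m + 2) * hR - π (S.d2de (S.b k)) * h2

lemma ord_D2 (k : Fin S.T) : CodimOne S.pU.I (S.D2 k).I ∧
    ordAt S.pU.I (S.D2 k).I (MvPolynomial.X (0, S.s)) = ((S.m + 2) * S.a k : ℕ) ∧
    ordAt S.pU.I (S.D2 k).I (MvPolynomial.X (1, S.s)) = ((S.m + 2) * S.a k : ℕ) ∧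
    ordAt S.pU.I (S.D2 k).I S.MM = ((S.m + 2) * S.a k : ℕ) := by
  have hp : (S.D2 k).I.IsPrime := (S.D2 k).prime
  obtain ⟨hle, ht⟩ := S.d2_le' k
  have hs : S.d2u1 (S.b k) ^ (S.m + 2) * S.d2ga (S.b k) ∉ (S.D2 k).I := fun h =>
    (hp.mem_or_mem h).elim (fun h => S.d2_u1 k (hp.mem_of_pow_mem _ h)) (S.d2_ga k)
  have hs' : -(S.d2de (S.b k) * S.d2v1 k (S.b k) ^ (S.m + 2)) ∉ (S.D2 k).I := fun h =>
    (hp.mem_or_mem (neg_mem_iff.1 h)).elim (S.d2_de k)
      (fun h => S.d2_v1 k (hp.mem_of_pow_mem _ h))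
  have hmul : ∀ {x y : Coord ι 2}, x ∉ (S.D2 k).I → y ∉ (S.D2 k).I → x * y ∉ (S.D2 k).I :=
    fun hx hy h => (hp.mem_or_mem h).elim hx hy
  have hms := S.mn_pU (S.b_mem k) S.s_mem
  have hmain := S.d2_main k
  refine ⟨codimOne_of hle (S.d2_t k) ht (fun _ hz => S.d2_reg k hz), ?_, ?_, ?_⟩
  · exact ordAt_eq hle (S.d2_t k) ht (fun _ hz => S.d2_reg k hz) hs hs' hmain
  · refine ordAt_eq hle (S.d2_t k) ht (fun _ hz => S.d2_reg k hz)
      (hmul hs (S.d2_X k 0)) (hmul hs' (S.d2_X k 1)) ?_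
    have e : S.d2u1 (S.b k) ^ (S.m + 2) * S.d2ga (S.b k) * MvPolynomial.X (0, S.b k) *
        MvPolynomial.X (1, S.s) -
        -(S.d2de (S.b k) * S.d2v1 k (S.b k) ^ (S.m + 2)) * MvPolynomial.X (1, S.b k) *
          S.d2t k ^ ((S.m + 2) * S.a k) =
        S.d2u1 (S.b k) ^ (S.m + 2) * S.d2ga (S.b k) * mn (S.b k) S.s +
          MvPolynomial.X (1, S.b k) * (S.d2u1 (S.b k) ^ (S.m + 2) * S.d2ga (S.b k) *
            MvPolynomial.X (0, S.s) - -(S.d2de (S.b k) * S.d2v1 k (S.b k) ^ (S.m + 2)) *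
              S.d2t k ^ ((S.m + 2) * S.a k)) := by
      rw [mn]
      ring
    rw [e]
    exact add_mem (Ideal.mul_mem_left _ _ hms) (Ideal.mul_mem_left _ _ hmain)
  · refine ordAt_eq hle (S.d2_t k) ht (fun _ hz => S.d2_reg k hz)
      (hmul hs (S.d2_X k 0)) (hmul hs' (S.d2_mn k)) ?_
    have e : S.d2u1 (S.b k) ^ (S.m + 2) * S.d2ga (S.b k) * MvPolynomial.X (0, S.b k) * S.MM -
        -(S.d2de (S.b k) * S.d2v1 k (S.b k) ^ (S.m + 2)) * mn S.be (S.b k) *
          S.d2t k ^ ((S.m + 2) * S.a k) =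
        S.d2u1 (S.b k) ^ (S.m + 2) * S.d2ga (S.b k) * MvPolynomial.X (0, S.be) *
          mn (S.b k) S.s +
          mn S.be (S.b k) * (S.d2u1 (S.b k) ^ (S.m + 2) * S.d2ga (S.b k) *
            MvPolynomial.X (0, S.s) - -(S.d2de (S.b k) * S.d2v1 k (S.b k) ^ (S.m + 2)) *
              S.d2t k ^ ((S.m + 2) * S.a k)) := by
      rw [MM, mn, mn, mn]
      ring
    rw [e]
    exact add_mem (Ideal.mul_mem_left _ _ hms) (Ideal.mul_mem_left _ _ hmain)

end BData

end Kp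

end Pool.Agent.RCH
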