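import Pool.Agent.RCH.KpBPts

/-!
# The points of relation (B) are different
-/

set_option autoImplicit false

open MvPolynomial

namespace Pool.Agent.RCH

namespace Kp

namespace BData

variable {ι : Type} [Fintype ι] [DecidableEq ι] (S : BData ι)

/-! ### Coordinates in the ideals of the points -/

lemma s_D0 (i : Fin 2) : (MvPolynomial.X (i, S.s) : Coord ι 2) ∉ S.D0.I := by
  rw [D0, Dpt_I, X_mem_gen]
  simp only [dD]
  rw [if_neg S.sK, if_neg S.sF]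
  exact mk_X_ne 1 1 S.f_prime (not_dvd_X (n := S.m + 1) S.f_homog _)

lemma tt_D0 (i : Fin 2) : (MvPolynomial.X (i, S.tt) : Coord ι 2) ∉ S.D0.I := by
  rw [D0, Dpt_I, X_mem_gen]
  simp only [dD]
  rw [if_neg S.ttK, if_neg S.ttF]
  exact mk_X_ne 1 1 S.f_prime (not_dvd_X (n := S.m + 1) S.f_homog _)

lemma s_D1 (i : Fin 2) : (MvPolynomial.X (i, S.s) : Coord ι 2) ∈ S.D1.I := by
  rw [D1, Dpt_I, X_mem_gen]
  exact if_pos (S.mem_K1.2 (Or.inl rfl))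

lemma tt_notMem_K1 : S.tt ∉ S.K1 := fun h =>
  (S.mem_K1.1 h).elim (fun h => S.hstt h.symm) S.ttK

lemma tt_D1 (i : Fin 2) : (MvPolynomial.X (i, S.tt) : Coord ι 2) ∉ S.D1.I := by
  rw [D1, Dpt_I, X_mem_gen]
  simp only [dD]
  rw [if_neg S.tt_notMem_K1, if_neg fun h => S.tt_notMem_Fr2 (S.Fr1_sub h)]
  exact mk_X_ne 1 1 S.psi_prime (not_dvd_X (n := S.m + 1) S.psi_homog _)

lemma s_D2 (k : Fin S.T) (i : Fin 2) : (MvPolynomial.X (i, S.s) : Coord ι 2) ∈ (S.D2 k).I := by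
  rw [D2, Dpt_I, X_mem_gen]
  exact if_pos (S.mem_K2.2 (Or.inr (Or.inl rfl)))

lemma tt_D2 (k : Fin S.T) (i : Fin 2) :
    (MvPolynomial.X (i, S.tt) : Coord ι 2) ∈ (S.D2 k).I := by
  rw [D2, Dpt_I, X_mem_gen]
  exact if_pos (S.mem_K2.2 (Or.inl rfl))

/-- the value of a polynomial in the last coordinates at the point `D2 k` -/
lemma q_D2 (k j : Fin S.T) : inFactor 2 1 (S.q j) ∈ (S.D2 k).I ↔ S.q k ∣ S.q j := by
  have hw : IsWeightedHomogeneous (hyp S.F).wt (S.q j) (S.e j) := S.hqh j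
  rw [D2, Dpt_I, mem_genIdeal_of_homogeneous (hyp S.F) _ (inFactor_homogeneous (hyp S.F) 1 hw),
    inFactor_aeval]
  have h1 : eval₂Hom (algebraMap ℂ (RD 1 (S.q k)))
      (fun l => dD 1 S.K2 S.Fr2 (S.q k) (1, l)) (S.q j) = Kp.mk 1 (S.q k) (inFactor 2 1 (S.q j)) := by
    rw [map_inFactor]
    refine ev_congr _ _ fun l hl => ?_
    have h := S.hqv j l hl
    simp only [dD]
    rw [if_neg, if_neg]
    · rfl
    · rw [mem_Fr2]
      rintro (rfl | rfl | h1)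
      · exact h.2.2.2.2.1 rfl
      · exact h.2.2.1 rfl
      · exact h.2.1 h1
    · rw [mem_K2]
      rintro (rfl | rfl | h1)
      · exact h.2.2.2.2.2 rfl
      · exact h.2.2.2.1 rfl
      · exact h.1 h1
  have h2 : aeval (fun l => dD 1 S.K2 S.Fr2 (S.q k) (1, l)) (S.q j) =
      Kp.mk 1 (S.q k) (inFactor 2 1 (S.q j)) := h1
  rw [h2, mk_eq_zero, ← Ideal.mem_span_singleton, inFactor_zero_iff]

/-- the coordinates of the factor on `f = 0` -/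
lemma E0_main (i0 : Fin 2) {j : ι} (hj : j ∉ S.K) :
    (MvPolynomial.X (i0, j) : Coord ι 2) ∉ (S.E0 i0).I := by
  rw [E0, Ept_I, X_mem_gen]
  simp only [dE]
  rw [if_pos trivial, if_neg hj]
  exact mk_X_ne i0 i0 S.f_prime (not_dvd_X (n := S.m + 1) S.f_homog _)

/-- the coordinates of the other factor -/
lemma E0_other {i0 i1 : Fin 2} (h : i1 ≠ i0) {j : ι} (hj : j ∉ S.Fr1) :
    (MvPolynomial.X (i1, j) : Coord ι 2) ∈ (S.E0 i0).I := by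
  rw [E0, Ept_I, X_mem_gen]
  exact (if_neg h).trans (if_neg hj)

/-- the coordinates of the factor on `psi = 0` -/
lemma E1_main (i0 : Fin 2) {j : ι} (hj : j ∉ S.K1) :
    (MvPolynomial.X (i0, j) : Coord ι 2) ∉ (S.E1 i0).I := by
  rw [E1, Ept_I, X_mem_gen]
  simp only [dE]
  rw [if_pos trivial, if_neg hj]
  exact mk_X_ne i0 i0 S.psi_prime (not_dvd_X (n := S.m + 1) S.psi_homog _)

/-- the coordinates of the other factor -/
lemma E1_other {i0 i1 : Fin 2} (h : i1 ≠ i0) {j : ι} (hj : j ∉ S.Fr2) :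
    (MvPolynomial.X (i1, j) : Coord ι 2) ∈ (S.E1 i0).I := by
  rw [E1, Ept_I, X_mem_gen]
  exact (if_neg h).trans (if_neg hj)

lemma s_notMem_Fr1 : S.s ∉ S.Fr1 := fun h => S.s_notMem_Fr2 (S.Fr1_sub h)

lemma tt_notMem_Fr1 : S.tt ∉ S.Fr1 := fun h => S.tt_notMem_Fr2 (S.Fr1_sub h)

lemma s_E1 (i0 i : Fin 2) : (MvPolynomial.X (i, S.s) : Coord ι 2) ∈ (S.E1 i0).I := by
  by_cases h : i = i0
  · subst h
    rw [E1, Ept_I, X_mem_gen]
    exact (if_pos rfl).trans (if_pos (S.mem_K1.2 (Or.inl rfl)))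
  · exact S.E1_other h S.s_notMem_Fr2

omit [Fintype ι] [DecidableEq ι] in
lemma exists_ne_fin2 (i : Fin 2) : ∃ i1 : Fin 2, i1 ≠ i := by
  fin_cases i
  · exact ⟨1, by decide⟩
  · exact ⟨0, by decide⟩

omit [Fintype ι] [DecidableEq ι] in
lemma ne_of_mem {X : WVar ι} {A B : Pt X 2} (z : Coord ι 2) (h1 : z ∈ A.I) (h2 : z ∉ B.I) :
    A ≠ B := by
  rintro rfl
  exact h2 h1

/-! ### The points are different -/

lemma D0_ne : S.D0 ≠ S.D1 ∧ (∀ k, S.D0 ≠ S.D2 k) ∧ (∀ i, S.D0 ≠ S.E0 i) ∧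
    ∀ i, S.D0 ≠ S.E1 i := by
  refine ⟨(ne_of_mem _ (S.s_D1 0) (S.s_D0 0)).symm, fun k => (ne_of_mem _ (S.s_D2 k 0)
    (S.s_D0 0)).symm, fun i => ?_, fun i => (ne_of_mem _ (S.s_E1 i 0) (S.s_D0 0)).symm⟩
  obtain ⟨i1, h⟩ := exists_ne_fin2 i
  exact (ne_of_mem _ (S.E0_other h S.s_notMem_Fr1) (S.s_D0 i1)).symm

lemma D1_ne : (∀ k, S.D1 ≠ S.D2 k) ∧ (∀ i, S.D1 ≠ S.E0 i) ∧ ∀ i, S.D1 ≠ S.E1 i := by
  refine ⟨fun k => (ne_of_mem _ (S.tt_D2 k 0) (S.tt_D1 0)).symm, fun i =>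
    ne_of_mem _ (S.s_D1 i) (S.E0_main i S.sK), fun i => ?_⟩
  obtain ⟨i1, h⟩ := exists_ne_fin2 i
  exact (ne_of_mem _ (S.E1_other h S.tt_notMem_Fr2) (S.tt_D1 i1)).symm

lemma D2_ne : Function.Injective S.D2 ∧ (∀ k i, S.D2 k ≠ S.E0 i) ∧ ∀ k i, S.D2 k ≠ S.E1 i := by
  refine ⟨fun j k h => ?_, fun k i => ne_of_mem _ (S.s_D2 k i) (S.E0_main i S.sK),
    fun k i => ne_of_mem _ (S.tt_D2 k i) (S.E1_main i S.tt_notMem_K1)⟩
  by_contra hjk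
  refine S.hqn k j (fun h => hjk h.symm) ?_
  rw [← S.q_D2, ← h, S.q_D2]

lemma E_ne : S.E0 0 ≠ S.E0 1 ∧ S.E1 0 ≠ S.E1 1 ∧ ∀ i j, S.E0 i ≠ S.E1 j := by
  refine ⟨?_, ?_, fun i j => (ne_of_mem _ (S.s_E1 j i) (S.E0_main i S.sK)).symm⟩
  · exact (ne_of_mem _ (S.E0_other (by decide) S.s_notMem_Fr1) (S.E0_main 0 S.sK)).symm
  · exact (ne_of_mem _ (S.E1_other (by decide) S.tt_notMem_Fr2)
      (S.E1_main 0 S.tt_notMem_K1)).symm

end BData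

end Kp

end Pool.Agent.RCH
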