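import Pool.Agent.RCH.KpE0a
import Pool.Agent.RCH.KpRel
import Pool.Agent.RCH.KpRelU

/-!
# Order of vanishing of `X (0, s)` at the pairs of a point of the vertex and a point of the surface

The auxiliary prime is the ideal of the pairs `(x, y)` with `y` on the surface and `x` in the linear
space of the next level.
-/

set_option autoImplicit false

open MvPolynomial

namespace Pool.Agent.RCH

namespace Kp

attribute [local instance] Pt.prime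

namespace BData

variable {ι : Type} [Fintype ι] [DecidableEq ι] (S : BData ι)

/-- the auxiliary prime -/
noncomputable def PN : Ideal (Coord ι 2) := genIdeal (hyp S.F) (dE 1 S.Fr2 S.K S.f)

instance pn_isPrime : (S.PN).IsPrime :=
  letI := isDomain_RD 1 S.f_prime
  genIdeal_prime (hyp S.F) (dE 1 S.Fr2 S.K S.f)

lemma pn_s_notMem : S.s ∉ S.Fr1 := fun h => S.s_notMem_Fr2 (S.Fr1_sub h)

lemma pn_be_notMem : S.be ∉ S.Fr1 := by
  rw [mem_Fr1]
  rintro (h | h)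
  · exact S.halbe h.symm
  · exact S.beF h

lemma pn_X0be : (MvPolynomial.X (0, S.be) : Coord ι 2) ∉ S.PN := by
  rw [PN, X_mem_gen, dE]
  simp only [if_neg (zero_ne_one (α := Fin 2)), if_pos (S.mem_Fr2.2 (Or.inl rfl) : S.be ∈ S.Fr2)]
  exact mk_X_ne 1 0 S.f_prime (not_dvd_X (n := S.m + 1) S.f_homog _)

lemma pn_X0 {j : ι} (hj : j ∉ S.Fr2) : (MvPolynomial.X (0, j) : Coord ι 2) ∈ S.PN := by
  rw [PN, X_mem_gen, dE]
  simp only [if_neg (zero_ne_one (α := Fin 2)), if_neg hj]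

lemma pn_X1 {j : ι} (hj : j ∈ S.K) : (MvPolynomial.X (1, j) : Coord ι 2) ∈ S.PN := by
  rw [PN, X_mem_gen, dE]
  simp only [if_pos hj, if_true]

lemma pn_f1 : inFactor 2 1 S.f ∈ S.PN := by
  have hw : IsWeightedHomogeneous (hyp S.F).wt S.f (S.m + 3) := S.f_homog
  rw [PN, mem_gen S.F _ (inFactor_homogeneous (hyp S.F) 1 hw), inFactor_aeval]
  refine Eq.trans ?_ (h_main 1 S.f)
  refine ev_congr _ _ fun j hj => ?_
  exact (if_pos rfl).trans (if_neg (S.f_vars hj).1)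

lemma pn_X0_E0 {j : ι} (hj : j ∉ S.Fr1) :
    (MvPolynomial.X (0, j) : Coord ι 2) ∈ (S.E0 1).I := by
  rw [E0, Ept_I, X_mem_gen, dE]
  simp only [if_neg (zero_ne_one (α := Fin 2)), if_neg hj]

lemma pn_X1_E0 {j : ι} (hj : j ∈ S.K) :
    (MvPolynomial.X (1, j) : Coord ι 2) ∈ (S.E0 1).I := by
  rw [E0, Ept_I, X_mem_gen, dE]
  simp only [if_pos hj, if_true]

lemma pn_f1_E0 : inFactor 2 1 S.f ∈ (S.E0 1).I := by
  have hw : IsWeightedHomogeneous (hyp S.F).wt S.f (S.m + 3) := S.f_homog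
  rw [E0, Ept_I, mem_gen S.F _ (inFactor_homogeneous (hyp S.F) 1 hw), inFactor_aeval]
  refine Eq.trans ?_ (h_main 1 S.f)
  refine ev_congr _ _ fun j hj => ?_
  exact (if_pos rfl).trans (if_neg (S.f_vars hj).1)

lemma pn_X1s_E0 : (MvPolynomial.X (1, S.s) : Coord ι 2) ∉ (S.E0 1).I := by
  rw [E0, Ept_I, X_mem_gen, dE]
  simp only [if_neg S.sK, if_true]
  exact mk_X_ne 1 1 S.f_prime (not_dvd_X (n := S.m + 1) S.f_homog _)

lemma pn_one_E0 : (1 : Coord ι 2) ∉ (S.E0 1).I := fun h =>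
  Ideal.IsPrime.ne_top inferInstance ((Ideal.eq_top_iff_one _).2 h)

lemma pn_le_E0 : S.PN ≤ (S.E0 1).I := by
  intro z hz
  rw [← toLocMod_self_eq_zero]
  refine kill_dE _ 1 0 one_ne_zero ?_ ?_ ?_ hz
  · exact fun j hj => toLocMod_eq_zero_of_mem (S.pn_X1_E0 hj)
  · exact fun j hj => toLocMod_eq_zero_of_mem (S.pn_X0_E0 fun h => hj (S.Fr1_sub h))
  · rw [← map_inFactor]
    exact toLocMod_eq_zero_of_mem S.pn_f1_E0

lemma pn_unif (z : Coord ι 2) (hz : z ∈ (S.E0 1).I) :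
    ∃ s, s ∉ (S.E0 1).I ∧ s * z ∈ S.PN ⊔ Ideal.span {MvPolynomial.X (0, S.be)} := by
  refine exists_of_toLocMod_eq_zero ?_
  have hm : ∀ w ∈ S.PN, toLocMod (S.PN ⊔ Ideal.span {MvPolynomial.X (0, S.be)})
      (S.E0 1).I w = 0 := fun w hw => toLocMod_eq_zero_of_mem (Ideal.mem_sup_left hw)
  refine kill_dE _ 1 0 one_ne_zero ?_ ?_ ?_ hz
  · exact fun j hj => hm _ (S.pn_X1 hj)
  · intro j hj
    by_cases hjb : j = S.be
    · subst hjb
      exact toLocMod_eq_zero_of_mem (Ideal.mem_sup_right (Ideal.mem_span_singleton_self _))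
    · refine hm _ (S.pn_X0 ?_)
      rw [mem_Fr2]
      rintro (h | h)
      · exact hjb h
      · exact hj (S.mem_Fr1.2 h)
  · rw [← map_inFactor]
    exact hm _ S.pn_f1

lemma pn_codim : CodimOne S.PN (S.E0 1).I :=
  codimOne_of S.pn_le_E0 (S.pn_X0_E0 S.pn_be_notMem) S.pn_X0be S.pn_unif

lemma pn_ord : ordAt S.PN (S.E0 1).I (MvPolynomial.X (0, S.be) ^ (S.m + 2)) =
    (S.m + 2 : ℕ) := by
  refine ordAt_eq (s := 1) (s' := 1) S.pn_le_E0 (S.pn_X0_E0 S.pn_be_notMem) S.pn_X0be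
    S.pn_unif S.pn_one_E0 S.pn_one_E0 ?_
  rw [sub_self]
  exact zero_mem _

lemma pn_hhv {L : Type} [CommRing L] (c : ℂ →+* L) (x y : ι → L) (hs : x S.s = 0) :
    S.hhv c x y S.s = c (eval (Pi.single S.be 1) S.g) * y S.s ^ (S.m + 3) *
      x S.be ^ (S.m + 2) := by
  have h1 : S.gS c x y S.s = (y S.s * x S.be) ^ (S.m + 2) *
      c (eval (Pi.single S.be 1) S.g) := by
    have h2 : c (eval (Pi.single S.be 1) S.g) =
        eval₂Hom c (fun j => c ((Pi.single S.be 1 : ι → ℂ) j)) S.g := by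
      have h3 := map_ev (RingHom.id ℂ) (Pi.single S.be 1 : ι → ℂ) c S.g
      rw [RingHom.comp_id] at h3
      exact h3
    rw [h2, ← ev_smul c _ S.hgh, gS]
    refine ev_congr _ _ fun j _ => ?_
    by_cases hj : j = S.be
    · subst hj
      rw [if_pos rfl, Pi.single_eq_same, map_one, mul_one]
    · rw [if_neg hj, Pi.single_eq_of_ne hj, map_zero, mul_zero, hs, zero_mul]
  rw [hhv, h1, hs]
  ring

lemma pn_leq1 : ∀ z ∈ S.pU.I,
    toLocMod (S.PN ⊔ Ideal.span {MvPolynomial.X (0, S.be) ^ (S.m + 2)}) (S.E0 1).I z = 0 := by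
  have hmP : ∀ w ∈ S.PN, toLocMod (S.PN ⊔ Ideal.span {MvPolynomial.X (0, S.be) ^ (S.m + 2)})
      (S.E0 1).I w = 0 := fun w hw => toLocMod_eq_zero_of_mem (Ideal.mem_sup_left hw)
  intro z hz
  obtain ⟨t, ht, htz⟩ := exists_of_toLocMod_eq_zero (S.E0_gen z hz)
  have hu := isUnit_toLocMod
    (J := S.PN ⊔ Ideal.span {MvPolynomial.X (0, S.be) ^ (S.m + 2)}) ht
  refine (hu.mul_right_eq_zero).1 ?_
  rw [← map_mul]
  rw [Submodule.mem_sup] at htz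
  obtain ⟨p, hp, r, hr, hpr⟩ := htz
  obtain ⟨d, rfl⟩ := Ideal.mem_span_singleton'.1 hr
  rw [← hpr, map_add, map_mul]
  have h1 : toLocMod (S.PN ⊔ Ideal.span {MvPolynomial.X (0, S.be) ^ (S.m + 2)})
      (S.E0 1).I p = 0 := by
    refine kill_dL _ S.s S.s_notMem_Fr2 0 ?_ ?_ ?_ hp
    · intro i j hj
      rcases (by omega : i = 0 ∨ i = 1) with rfl | rfl
      · exact hmP _ (S.pn_X0 (S.K_notMem_Fr2 hj))
      · exact hmP _ (S.pn_X1 hj)
    · rw [← map_inFactor]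
      exact hmP _ S.pn_f1
    · intro j _ hj
      rw [zero_mul]
      exact hmP _ (S.pn_X0 hj)
  have h2 : toLocMod (S.PN ⊔ Ideal.span {MvPolynomial.X (0, S.be) ^ (S.m + 2)})
      (S.E0 1).I (S.HH S.s) = 0 := by
    have h4 : toLocMod (S.PN ⊔ Ideal.span {MvPolynomial.X (0, S.be) ^ (S.m + 2)})
        (S.E0 1).I (MvPolynomial.X (0, S.be) ^ (S.m + 2)) = 0 :=
      toLocMod_eq_zero_of_mem (Ideal.mem_sup_right (Ideal.mem_span_singleton_self _))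
    rw [map_pow] at h4
    have h5 : xs (toLocMod (S.PN ⊔ Ideal.span {MvPolynomial.X (0, S.be) ^ (S.m + 2)})
        (S.E0 1).I) 0 S.be ^ (S.m + 2) = 0 := h4
    rw [map_HH, S.pn_hhv _ _ _ (hmP _ (S.pn_X0 S.s_notMem_Fr2)), h5, mul_zero]
  rw [h1, h2, mul_zero, add_zero]

lemma pn_leq3 : ∀ z ∈ S.PN, toLocMod (S.pU.I ⊔ Ideal.span {MvPolynomial.X (0, S.s)})
    (S.E0 1).I z = 0 := by
  have hmU : ∀ w ∈ S.pU.I, toLocMod (S.pU.I ⊔ Ideal.span {MvPolynomial.X (0, S.s)})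
      (S.E0 1).I w = 0 := fun w hw => toLocMod_eq_zero_of_mem (Ideal.mem_sup_left hw)
  have hs : xs (toLocMod (S.pU.I ⊔ Ideal.span {MvPolynomial.X (0, S.s)}) (S.E0 1).I) 0 S.s = 0 :=
    toLocMod_eq_zero_of_mem (Ideal.mem_sup_right (Ideal.mem_span_singleton_self _))
  have hu : IsUnit (xs (toLocMod (S.pU.I ⊔ Ideal.span {MvPolynomial.X (0, S.s)}) (S.E0 1).I)
      1 S.s) := isUnit_toLocMod S.pn_X1s_E0
  intro z hz
  refine kill_dE _ 1 0 one_ne_zero ?_ ?_ ?_ hz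
  · exact fun j hj => hmU _ (S.K_pU 1 hj)
  · intro j hj
    by_cases hjK : j ∈ S.K
    · exact hmU _ (S.K_pU 0 hjK)
    · have hjZ : j ∈ S.Zs := S.mem_Zs.2 ⟨hjK, fun h => hj (S.mem_Fr2.2 (Or.inr (Or.inr h))),
        fun h => hj (S.mem_Fr2.2 (Or.inr (Or.inl h))), fun h => hj (S.mem_Fr2.2 (Or.inl h))⟩
      have h := hmU _ (S.mn_pU hjZ S.s_mem)
      rw [map_mn, hs, mul_zero, sub_zero] at h
      exact (hu.mul_left_eq_zero).1 h
  · rw [← map_inFactor]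
    exact hmU _ (S.f_pU 1)

lemma pn_leq4 : toLocMod (S.pU.I ⊔ Ideal.span {MvPolynomial.X (0, S.s)}) (S.E0 1).I
    (MvPolynomial.X (0, S.be) ^ (S.m + 2)) = 0 := by
  have hmU : ∀ w ∈ S.pU.I, toLocMod (S.pU.I ⊔ Ideal.span {MvPolynomial.X (0, S.s)})
      (S.E0 1).I w = 0 := fun w hw => toLocMod_eq_zero_of_mem (Ideal.mem_sup_left hw)
  have hs : xs (toLocMod (S.pU.I ⊔ Ideal.span {MvPolynomial.X (0, S.s)}) (S.E0 1).I) 0 S.s = 0 :=
    toLocMod_eq_zero_of_mem (Ideal.mem_sup_right (Ideal.mem_span_singleton_self _))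
  have h1 := hmU _ (S.HH_pU S.s_mem)
  rw [map_HH, S.pn_hhv _ _ _ hs] at h1
  have hu1 : IsUnit (cs (toLocMod (S.pU.I ⊔ Ideal.span {MvPolynomial.X (0, S.s)}) (S.E0 1).I)
      (eval (Pi.single S.be 1) S.g)) := (IsUnit.mk0 _ S.hgc).map _
  have hu2 : IsUnit (xs (toLocMod (S.pU.I ⊔ Ideal.span {MvPolynomial.X (0, S.s)}) (S.E0 1).I)
      1 S.s ^ (S.m + 3)) := (isUnit_toLocMod S.pn_X1s_E0).pow _
  rw [map_pow]
  exact ((hu1.mul hu2).mul_right_eq_zero).1 h1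

/-- Row K-E0b -/
lemma ord_E0 : CodimOne S.pU.I (S.E0 1).I ∧
    ordAt S.pU.I (S.E0 1).I (MvPolynomial.X (0, S.s)) = (S.m + 2 : ℕ) ∧
    (MvPolynomial.X (1, S.s) : Coord ι 2) ∉ (S.E0 1).I := by
  have h2 : toLocMod (S.PN ⊔ Ideal.span {MvPolynomial.X (0, S.be) ^ (S.m + 2)})
      (S.E0 1).I (MvPolynomial.X (0, S.s)) = 0 :=
    toLocMod_eq_zero_of_mem (Ideal.mem_sup_left (S.pn_X0 S.s_notMem_Fr2))
  refine ⟨?_, ?_, S.pn_X1s_E0⟩
  · exact leq_codim S.pU_le_E0 (S.pn_X0_E0 S.pn_s_notMem) (S.X_pU 0 S.sK)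
      (fun h => S.pn_X0be (Ideal.IsPrime.mem_of_pow_mem inferInstance _ h))
      S.pn_leq1 h2 S.pn_leq3 S.pn_leq4 S.pn_codim
  · rw [← S.pn_ord]
    exact leq_ord S.pn_leq1 h2 S.pn_leq3 S.pn_leq4

end BData

end Kp

end Pool.Agent.RCH
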