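import Pool.Agent.RCH.KpE0a
import Pool.Agent.RCH.KpRel
import Pool.Agent.RCH.KpRelU

/-!
# Order of vanishing of the minor at the pairs of a point of the vertex and a point of the surface

The auxiliary prime is the ideal of the pairs `(x, y)` with `y` on the surface and `x` in the linear
space spanned by `y` and the vertex.
-/

set_option autoImplicit false

open MvPolynomial

namespace Pool.Agent.RCH

namespace Kp

attribute [local instance] Pt.prime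

namespace BData

variable {ι : Type} [Fintype ι] [DecidableEq ι] (S : BData ι)

/-- the auxiliary prime -/
noncomputable def PM : Ideal (Coord ι 2) := genIdeal (hyp S.F) (dL S.K S.Fr1 S.s S.f)

instance pm_isPrime_PM : (S.PM).IsPrime :=
  letI := isDomain_RD 1 S.f_prime
  genIdeal_prime (hyp S.F) (dL S.K S.Fr1 S.s S.f)

lemma pm_s_notMem_Fr1 : S.s ∉ S.Fr1 := fun h => S.s_notMem_Fr2 (S.Fr1_sub h)

lemma pm_be_notMem_Fr1 : S.be ∉ S.Fr1 := by
  rw [mem_Fr1]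
  rintro (h | h)
  · exact S.halbe h.symm
  · exact S.beF h

lemma pm_K_notMem_Fr1 {j : ι} (hj : j ∈ S.K) : j ∉ S.Fr1 := fun h =>
  S.K_notMem_Fr2 hj (S.Fr1_sub h)

lemma pm_X0s_notMem_PM : (MvPolynomial.X (0, S.s) : Coord ι 2) ∉ S.PM := by
  have := isDomain_RD 1 S.f_prime
  rw [PM, X_mem_gen, dL]
  simp only [if_neg S.sK, if_neg S.pm_s_notMem_Fr1, if_neg (zero_ne_one (α := Fin 2))]
  rw [map_mul]
  exact mul_ne_zero (mk_X_ne 1 0 S.f_prime (not_dvd_X (n := S.m + 1) S.f_homog _))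
    (mk_X_ne 1 1 S.f_prime (not_dvd_X (n := S.m + 1) S.f_homog _))

lemma pm_XK_mem_PM {j : ι} (hj : j ∈ S.K) (i : Fin 2) :
    (MvPolynomial.X (i, j) : Coord ι 2) ∈ S.PM := by
  rw [PM, X_mem_gen, dL]
  exact if_pos hj

lemma pm_dL_zero {j : ι} (hj : j ∉ S.Fr1) : dL S.K S.Fr1 S.s S.f (0, j) =
    Kp.mk 1 S.f (MvPolynomial.X (0, S.s)) * dL S.K S.Fr1 S.s S.f (1, j) := by
  simp only [dL]
  by_cases hjK : j ∈ S.K
  · rw [if_pos hjK, if_pos hjK, mul_zero]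
  · rw [if_neg hjK, if_neg hjK, if_neg (zero_ne_one (α := Fin 2)), if_neg hj, if_pos trivial,
      map_mul]

lemma pm_mn_mem_PM {j l : ι} (hj : j ∉ S.Fr1) (hl : l ∉ S.Fr1) : mn j l ∈ S.PM := by
  have hw : IsWeightedHomogeneous ((hyp S.F).mdeg 2) (mn j l)
      ((hyp S.F).mdeg 2 (0, j) + (hyp S.F).mdeg 2 (1, l)) := by
    rw [mn]
    refine ((isWeightedHomogeneous_X ℂ _ _).mul (isWeightedHomogeneous_X ℂ _ _)).sub ?_
    have h := (isWeightedHomogeneous_X ℂ ((hyp S.F).mdeg 2) (1, j)).mul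
      (isWeightedHomogeneous_X ℂ ((hyp S.F).mdeg 2) (0, l))
    have e : (hyp S.F).mdeg 2 (0, j) + (hyp S.F).mdeg 2 (1, l) =
        (hyp S.F).mdeg 2 (1, j) + (hyp S.F).mdeg 2 (0, l) := by
      rw [add_comm]
      rfl
    rw [e]
    exact h
  rw [PM, mem_gen S.F _ hw, mn, map_sub, map_mul, map_mul, aeval_X, aeval_X, aeval_X, aeval_X,
    S.pm_dL_zero hj, S.pm_dL_zero hl]
  ring

lemma pm_f1_mem_PM : inFactor 2 1 S.f ∈ S.PM := by
  have hw : IsWeightedHomogeneous (hyp S.F).wt S.f (S.m + 3) := S.f_homog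
  rw [PM, mem_gen S.F _ (inFactor_homogeneous (hyp S.F) 1 hw), inFactor_aeval]
  refine Eq.trans ?_ (h_main 1 S.f)
  refine ev_congr _ _ fun j hj => ?_
  simp only [dL]
  rw [if_neg (S.f_vars hj).1, if_pos trivial]

lemma pm_X0_mem_E0 {j : ι} (hj : j ∉ S.Fr1) :
    (MvPolynomial.X (0, j) : Coord ι 2) ∈ (S.E0 1).I := by
  rw [E0, Ept_I, X_mem_gen, dE]
  simp only [if_neg (zero_ne_one (α := Fin 2)), if_neg hj]

lemma pm_X1_mem_E0 {j : ι} (hj : j ∈ S.K) :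
    (MvPolynomial.X (1, j) : Coord ι 2) ∈ (S.E0 1).I := by
  rw [E0, Ept_I, X_mem_gen, dE]
  simp only [if_pos hj, if_true]

lemma pm_f1_mem_E0 : inFactor 2 1 S.f ∈ (S.E0 1).I := by
  have hw : IsWeightedHomogeneous (hyp S.F).wt S.f (S.m + 3) := S.f_homog
  rw [E0, Ept_I, mem_gen S.F _ (inFactor_homogeneous (hyp S.F) 1 hw), inFactor_aeval]
  refine Eq.trans ?_ (h_main 1 S.f)
  refine ev_congr _ _ fun j hj => ?_
  exact (if_pos rfl).trans (if_neg (S.f_vars hj).1)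

lemma pm_X1s_notMem_E0 : (MvPolynomial.X (1, S.s) : Coord ι 2) ∉ (S.E0 1).I := by
  rw [E0, Ept_I, X_mem_gen, dE]
  simp only [if_neg S.sK, if_true]
  exact mk_X_ne 1 1 S.f_prime (not_dvd_X (n := S.m + 1) S.f_homog _)

lemma pm_X0al_notMem_E0 : (MvPolynomial.X (0, S.al) : Coord ι 2) ∉ (S.E0 1).I := by
  rw [E0, Ept_I, X_mem_gen, dE]
  simp only [if_neg (zero_ne_one (α := Fin 2)), if_pos (S.mem_Fr1.2 (Or.inl rfl) : S.al ∈ S.Fr1)]
  exact mk_X_ne 1 0 S.f_prime (not_dvd_X (n := S.m + 1) S.f_homog _)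

lemma pm_PM_le_E0 : S.PM ≤ (S.E0 1).I := by
  intro z hz
  rw [← toLocMod_self_eq_zero]
  refine kill_dL _ S.s S.pm_s_notMem_Fr1 0 ?_ ?_ ?_ hz
  · intro i j hj
    refine toLocMod_eq_zero_of_mem ?_
    rcases (by omega : i = 0 ∨ i = 1) with rfl | rfl
    · exact S.pm_X0_mem_E0 (S.pm_K_notMem_Fr1 hj)
    · exact S.pm_X1_mem_E0 hj
  · rw [← map_inFactor]
    exact toLocMod_eq_zero_of_mem S.pm_f1_mem_E0
  · intro j _ hj
    rw [zero_mul]
    exact toLocMod_eq_zero_of_mem (S.pm_X0_mem_E0 hj)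

section equations

variable {L : Type} [CommRing L] (c : ℂ →+* L) (x y : ι → L)

/-- the relation modulo the minor -/
lemma pm_hhv_eq (hM : x S.be * y S.s = y S.be * x S.s) : S.hhv c x y S.s =
    x S.s ^ (S.m + 1) * (y S.s ^ (S.m + 3) * x S.al +
      x S.s * (eval₂Hom c y S.f - y S.al * y S.s ^ (S.m + 2))) := by
  have h1 : S.gS c x y S.s = x S.s ^ (S.m + 2) * eval₂Hom c y S.g := by
    rw [gS, ← ev_smul c y S.hgh]
    refine ev_congr _ _ fun j _ => ?_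
    by_cases hj : j = S.be
    · subst hj
      rw [if_pos rfl]
      linear_combination hM
    · rw [if_neg hj]
  rw [hhv, h1, S.f_ev, S.psi_ev]
  linear_combination (x S.s ^ (S.m + 1) * y S.tt ^ (S.m + 2)) * hM

end equations

lemma pm_unif_PM (z : Coord ι 2) (hz : z ∈ (S.E0 1).I) :
    ∃ s, s ∉ (S.E0 1).I ∧ s * z ∈ S.PM ⊔ Ideal.span {MvPolynomial.X (0, S.s)} := by
  refine exists_of_toLocMod_eq_zero ?_
  have hm : ∀ w ∈ S.PM, toLocMod (S.PM ⊔ Ideal.span {MvPolynomial.X (0, S.s)})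
      (S.E0 1).I w = 0 := fun w hw => toLocMod_eq_zero_of_mem (Ideal.mem_sup_left hw)
  have hs : xs (toLocMod (S.PM ⊔ Ideal.span {MvPolynomial.X (0, S.s)}) (S.E0 1).I) 0 S.s = 0 :=
    toLocMod_eq_zero_of_mem (Ideal.mem_sup_right (Ideal.mem_span_singleton_self _))
  have hu : IsUnit (xs (toLocMod (S.PM ⊔ Ideal.span {MvPolynomial.X (0, S.s)}) (S.E0 1).I)
      1 S.s) := isUnit_toLocMod S.pm_X1s_notMem_E0
  refine kill_dE _ 1 0 one_ne_zero ?_ ?_ ?_ hz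
  · exact fun j hj => hm _ (S.pm_XK_mem_PM hj 1)
  · intro j hj
    have h := hm _ (S.pm_mn_mem_PM hj S.pm_s_notMem_Fr1)
    rw [map_mn, hs, mul_zero, sub_zero] at h
    exact (hu.mul_left_eq_zero).1 h
  · rw [← map_inFactor]
    exact hm _ S.pm_f1_mem_PM

lemma pm_ordAt_PM : ordAt S.PM (S.E0 1).I (MvPolynomial.X (0, S.s) ^ (S.m + 1)) =
    (S.m + 1 : ℕ) := by
  refine ordAt_eq (s := 1) (s' := 1) S.pm_PM_le_E0 (S.pm_X0_mem_E0 S.pm_s_notMem_Fr1)
    S.pm_X0s_notMem_PM S.pm_unif_PM ?_ ?_ ?_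
  · exact fun h => Ideal.IsPrime.ne_top inferInstance ((Ideal.eq_top_iff_one _).2 h)
  · exact fun h => Ideal.IsPrime.ne_top inferInstance ((Ideal.eq_top_iff_one _).2 h)
  · rw [sub_self]
    exact zero_mem _

/-- Row K-E0c -/
lemma ord_E0_MM : ordAt S.pU.I (S.E0 1).I S.MM = (S.m + 1 : ℕ) := by
  rw [← S.pm_ordAt_PM]
  have hmP : ∀ w ∈ S.PM, toLocMod (S.PM ⊔ Ideal.span {MvPolynomial.X (0, S.s) ^ (S.m + 1)})
      (S.E0 1).I w = 0 := fun w hw => toLocMod_eq_zero_of_mem (Ideal.mem_sup_left hw)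
  have hmU : ∀ w ∈ S.pU.I, toLocMod (S.pU.I ⊔ Ideal.span {S.MM})
      (S.E0 1).I w = 0 := fun w hw => toLocMod_eq_zero_of_mem (Ideal.mem_sup_left hw)
  have hMM : toLocMod (S.pU.I ⊔ Ideal.span {S.MM}) (S.E0 1).I S.MM = 0 :=
    toLocMod_eq_zero_of_mem (Ideal.mem_sup_right (Ideal.mem_span_singleton_self _))
  refine leq_ord ?_ ?_ ?_ ?_
  · intro z hz
    obtain ⟨t, ht, htz⟩ := exists_of_toLocMod_eq_zero (S.E0_gen z hz)
    have hu := isUnit_toLocMod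
      (J := S.PM ⊔ Ideal.span {MvPolynomial.X (0, S.s) ^ (S.m + 1)}) ht
    refine (hu.mul_right_eq_zero).1 ?_
    rw [← map_mul]
    rw [Submodule.mem_sup] at htz
    obtain ⟨p, hp, r, hr, hpr⟩ := htz
    obtain ⟨d, rfl⟩ := Ideal.mem_span_singleton'.1 hr
    rw [← hpr, map_add, map_mul]
    have hys := isUnit_toLocMod
      (J := S.PM ⊔ Ideal.span {MvPolynomial.X (0, S.s) ^ (S.m + 1)}) S.pm_X1s_notMem_E0
    obtain ⟨u, hu⟩ := hys
    have h1 : toLocMod (S.PM ⊔ Ideal.span {MvPolynomial.X (0, S.s) ^ (S.m + 1)})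
        (S.E0 1).I p = 0 := by
      refine kill_dL _ S.s S.s_notMem_Fr2 (↑u⁻¹ * toLocMod (S.PM ⊔
        Ideal.span {MvPolynomial.X (0, S.s) ^ (S.m + 1)}) (S.E0 1).I
          (MvPolynomial.X (0, S.s))) ?_ ?_ ?_ hp
      · exact fun i j hj => hmP _ (S.pm_XK_mem_PM hj i)
      · rw [← map_inFactor]
        exact hmP _ S.pm_f1_mem_PM
      · intro j _ hj
        have h2 := hmP _ (S.pm_mn_mem_PM (fun h => hj (S.Fr1_sub h)) S.pm_s_notMem_Fr1)
        rw [map_mn] at h2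
        have h3 : xs (toLocMod (S.PM ⊔ Ideal.span {MvPolynomial.X (0, S.s) ^ (S.m + 1)})
          (S.E0 1).I) 1 S.s = ↑u := hu.symm
        have h4 : toLocMod (S.PM ⊔ Ideal.span {MvPolynomial.X (0, S.s) ^ (S.m + 1)})
          (S.E0 1).I (MvPolynomial.X (0, S.s)) = xs (toLocMod (S.PM ⊔
            Ideal.span {MvPolynomial.X (0, S.s) ^ (S.m + 1)}) (S.E0 1).I) 0 S.s := rfl
        rw [h3] at h2
        rw [h4]
        have h5 := u.inv_mul
        linear_combination (↑u⁻¹ : LocMod (S.PM ⊔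
          Ideal.span {MvPolynomial.X (0, S.s) ^ (S.m + 1)}) (S.E0 1).I) * h2 -
            xs (toLocMod (S.PM ⊔ Ideal.span {MvPolynomial.X (0, S.s) ^ (S.m + 1)})
              (S.E0 1).I) 0 j * h5
    have h2 : toLocMod (S.PM ⊔ Ideal.span {MvPolynomial.X (0, S.s) ^ (S.m + 1)})
        (S.E0 1).I (S.HH S.s) = 0 := by
      have h3 := hmP _ (S.pm_mn_mem_PM S.pm_be_notMem_Fr1 S.pm_s_notMem_Fr1)
      rw [map_mn, sub_eq_zero] at h3
      have h4 : toLocMod (S.PM ⊔ Ideal.span {MvPolynomial.X (0, S.s) ^ (S.m + 1)})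
          (S.E0 1).I (MvPolynomial.X (0, S.s) ^ (S.m + 1)) = 0 :=
        toLocMod_eq_zero_of_mem (Ideal.mem_sup_right (Ideal.mem_span_singleton_self _))
      rw [map_pow] at h4
      have h5 : xs (toLocMod (S.PM ⊔ Ideal.span {MvPolynomial.X (0, S.s) ^ (S.m + 1)})
          (S.E0 1).I) 0 S.s ^ (S.m + 1) = 0 := h4
      rw [map_HH, S.pm_hhv_eq _ _ _ h3, h5, zero_mul]
    rw [h1, h2, mul_zero, add_zero]
  · exact hmP _ (S.pm_mn_mem_PM S.pm_be_notMem_Fr1 S.pm_s_notMem_Fr1)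
  · intro z hz
    obtain ⟨u, hu⟩ := isUnit_toLocMod (J := S.pU.I ⊔ Ideal.span {S.MM}) S.pm_X1s_notMem_E0
    have h3 : xs (toLocMod (S.pU.I ⊔ Ideal.span {S.MM}) (S.E0 1).I) 1 S.s = ↑u := hu.symm
    have h5 := u.inv_mul
    refine kill_dL _ S.s S.pm_s_notMem_Fr1
      (↑u⁻¹ * xs (toLocMod (S.pU.I ⊔ Ideal.span {S.MM}) (S.E0 1).I) 0 S.s) ?_ ?_ ?_ hz
    · exact fun i j hj => hmU _ (S.K_pU i hj)
    · rw [← map_inFactor]
      exact hmU _ (S.f_pU 1)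
    · intro j hjK hj
      have h2 : toLocMod (S.pU.I ⊔ Ideal.span {S.MM}) (S.E0 1).I (mn j S.s) = 0 := by
        by_cases hjb : j = S.be
        · subst hjb
          exact hMM
        · refine hmU _ (S.mn_pU (S.mem_Zs.2 ⟨hjK, fun h => hj (S.mem_Fr1.2 (Or.inr h)),
            fun h => hj (S.mem_Fr1.2 (Or.inl h)), hjb⟩) S.s_mem)
      rw [map_mn, h3] at h2
      linear_combination (↑u⁻¹ : LocMod (S.pU.I ⊔ Ideal.span {S.MM}) (S.E0 1).I) * h2 -
        xs (toLocMod (S.pU.I ⊔ Ideal.span {S.MM}) (S.E0 1).I) 0 j * h5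
  · have h1 := hmU _ (S.HH_pU S.s_mem)
    have hM : toLocMod (S.pU.I ⊔ Ideal.span {S.MM}) (S.E0 1).I (mn S.be S.s) = 0 := hMM
    rw [map_mn, sub_eq_zero] at hM
    rw [map_HH, S.pm_hhv_eq _ _ _ hM, ← map_inFactor, hmU _ (S.f_pU 1), zero_sub] at h1
    have hn : MvPolynomial.X (1, S.s) ^ (S.m + 3) * MvPolynomial.X (0, S.al) +
        MvPolynomial.X (0, S.s) * -(MvPolynomial.X (1, S.al) *
          MvPolynomial.X (1, S.s) ^ (S.m + 2)) ∉ (S.E0 1).I := by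
      intro h
      have h2 := (Ideal.add_mem_iff_left _ (Ideal.mul_mem_right _ _
        (S.pm_X0_mem_E0 S.pm_s_notMem_Fr1))).1 h
      rcases Ideal.IsPrime.mem_or_mem inferInstance h2 with h3 | h3
      · exact S.pm_X1s_notMem_E0 (Ideal.IsPrime.mem_of_pow_mem inferInstance _ h3)
      · exact S.pm_X0al_notMem_E0 h3
    have hu := isUnit_toLocMod (J := S.pU.I ⊔ Ideal.span {S.MM}) hn
    rw [map_pow]
    refine (hu.mul_left_eq_zero).1 ?_
    simp only [map_add, map_mul, map_pow, map_neg]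
    exact h1

end BData

end Kp

end Pool.Agent.RCH
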