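import Pool.Agent.RCH.KpJac2
import Pool.Agent.RCH.KpRelU

/-!
# Relation (B): the orders at the point `E1 1`; the uniformizer is `X (0, tt)`
-/

set_option autoImplicit false

open MvPolynomial

namespace Pool.Agent.RCH

namespace Kp

attribute [local instance] Pt.prime

namespace BData

variable {ι : Type} [Fintype ι] [DecidableEq ι] (S : BData ι)

/-! ### Values -/

section values

variable {L : Type} [CommRing L] (c : ℂ →+* L)

omit [Fintype ι] in
lemma e1_ev_single (b : ι) (p : MvPolynomial ι ℂ) :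
    eval₂Hom c (fun j => c ((Pi.single b 1 : ι → ℂ) j)) p =
      c (eval (Pi.single b 1) p) := by
  have h := map_ev (RingHom.id ℂ) (Pi.single b 1 : ι → ℂ) c p
  rw [RingHom.comp_id] at h
  exact h.symm

lemma e1_gS (x y : ι → L) (b : ι) (hx : x b = 0) :
    S.gS c x y b = (y b * x S.be) ^ (S.m + 2) * c (eval (Pi.single S.be 1) S.g) := by
  have h1 : S.gS c x y b = eval₂Hom c (fun j => (y b * x S.be) *
      c ((Pi.single S.be 1 : ι → ℂ) j)) S.g := by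
    rw [gS]
    refine ev_congr _ _ fun j _ => ?_
    by_cases hj : j = S.be
    · subst hj
      rw [if_pos rfl, Pi.single_eq_same, map_one, mul_one]
    · rw [if_neg hj, Pi.single_eq_of_ne hj, map_zero, mul_zero, hx, zero_mul]
  rw [h1, ev_smul c _ S.hgh, e1_ev_single]

lemma e1_unit : IsUnit (c (eval (Pi.single S.be 1) S.g)) := (IsUnit.mk0 _ S.hgc).map c

end values

/-! ### Members of the ideal -/

lemma e1_X0 {j : ι} (hj : j ∉ S.Fr2) : (MvPolynomial.X (0, j) : Coord ι 2) ∈ (S.E1 1).I := by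
  have h : (MvPolynomial.X (0, j) : Coord ι 2) ∈ genIdeal (hyp S.F) (dE 1 S.Fr2 S.K1 S.psi) := by
    rw [X_mem_gen]
    have h01 : ¬ ((0 : Fin 2) = 1) := by decide
    exact (if_neg h01).trans (if_neg hj)
  exact h

lemma e1_X1 {j : ι} (hj : j ∈ S.K1) : (MvPolynomial.X (1, j) : Coord ι 2) ∈ (S.E1 1).I := by
  have h : (MvPolynomial.X (1, j) : Coord ι 2) ∈ genIdeal (hyp S.F) (dE 1 S.Fr2 S.K1 S.psi) := by
    rw [X_mem_gen]
    exact (if_pos rfl).trans (if_pos hj)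
  exact h

lemma e1_notMem {v : Fin 2 × ι} (h : dE 1 S.Fr2 S.K1 S.psi v ≠ 0) :
    (MvPolynomial.X v : Coord ι 2) ∉ (S.E1 1).I := fun hc =>
  h ((X_mem_gen S.F (dE 1 S.Fr2 S.K1 S.psi) v).1 hc)

lemma e1_be : (MvPolynomial.X (0, S.be) : Coord ι 2) ∉ (S.E1 1).I := by
  apply e1_notMem
  have h01 : ¬ ((0 : Fin 2) = 1) := by decide
  have h : dE 1 S.Fr2 S.K1 S.psi (0, S.be) = Kp.mk 1 S.psi (MvPolynomial.X (0, S.be)) :=
    (if_neg h01).trans (if_pos (S.mem_Fr2.2 (Or.inl rfl)))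
  rw [h]
  exact mk_X_ne 1 0 S.psi_prime (not_dvd_X (n := S.m + 1) S.psi_homog _)

lemma e1_tt1 : (MvPolynomial.X (1, S.tt) : Coord ι 2) ∉ (S.E1 1).I := by
  apply e1_notMem
  have hK : S.tt ∉ S.K1 := fun h => (S.mem_K1.1 h).elim (fun h => S.hstt h.symm) S.ttK
  have h : dE 1 S.Fr2 S.K1 S.psi (1, S.tt) = Kp.mk 1 S.psi (MvPolynomial.X (1, S.tt)) :=
    (if_pos rfl).trans (if_neg hK)
  rw [h]
  exact mk_X_ne 1 1 S.psi_prime (not_dvd_X (n := S.m + 1) S.psi_homog _)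

lemma e1_tt0 : (MvPolynomial.X (0, S.tt) : Coord ι 2) ∈ (S.E1 1).I := S.e1_X0 S.tt_notMem_Fr2

lemma e1_s1 : (MvPolynomial.X (1, S.s) : Coord ι 2) ∈ (S.E1 1).I :=
  S.e1_X1 (S.mem_K1.2 (Or.inl rfl))

lemma e1_K (i : Fin 2) {j : ι} (hj : j ∈ S.K) :
    (MvPolynomial.X (i, j) : Coord ι 2) ∈ (S.E1 1).I := by
  have hi : i = 0 ∨ i = 1 := by omega
  rcases hi with rfl | rfl
  · exact S.e1_X0 (S.K_notMem_Fr2 hj)
  · exact S.e1_X1 (S.mem_K1.2 (Or.inr hj))

lemma e1_Zs {j : ι} (hj : j ∈ S.Zs) : (MvPolynomial.X (0, j) : Coord ι 2) ∈ (S.E1 1).I := by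
  refine S.e1_X0 fun h => ?_
  have h1 := S.mem_Zs.1 hj
  rcases S.mem_Fr2.1 h with h2 | h2 | h2
  · exact h1.2.2.2 h2
  · exact h1.2.2.1 h2
  · exact h1.2.1 h2

lemma e1_psi : inFactor 2 1 S.psi ∈ (S.E1 1).I := by
  have h : inFactor 2 1 S.psi ∈ genIdeal (hyp S.F) (dE 1 S.Fr2 S.K1 S.psi) := by
    have hw : IsWeightedHomogeneous (hyp S.F).wt S.psi (S.m + 3) := S.psi_homog
    rw [mem_genIdeal_of_homogeneous (hyp S.F) _ (inFactor_homogeneous (hyp S.F) 1 hw),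
      inFactor_aeval]
    have h1 : eval₂Hom (algebraMap ℂ (RD 1 S.psi)) (fun j => dE 1 S.Fr2 S.K1 S.psi (1, j))
        S.psi = 0 := by
      rw [← h_main 1 S.psi]
      refine ev_congr _ _ fun j hj => ?_
      exact (if_pos rfl).trans (if_neg (S.admE1.vK j hj))
    exact h1
  exact h

/-- the quotient by the ideal -/
noncomputable def e1q : Coord ι 2 →+* Coord ι 2 ⧸ (S.E1 1).I := Ideal.Quotient.mk _

lemma e1q_eq_zero {z : Coord ι 2} : S.e1q z = 0 ↔ z ∈ (S.E1 1).I :=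
  Ideal.Quotient.eq_zero_iff_mem

lemma e1_f : inFactor 2 1 S.f ∈ (S.E1 1).I := by
  rw [← e1q_eq_zero, map_inFactor, f_ev]
  have h1 : xs S.e1q 1 S.s = 0 := S.e1q_eq_zero.2 S.e1_s1
  have h2 : eval₂Hom (cs S.e1q) (xs S.e1q 1) S.psi = 0 := by
    rw [← map_inFactor]
    exact S.e1q_eq_zero.2 S.e1_psi
  rw [h1, h2, zero_pow (by omega), mul_zero, zero_mul, zero_add, add_zero]

lemma e1_mn {j : ι} (hj : j ∈ S.Zs) : mn S.tt j ∈ (S.E1 1).I := by
  rw [← e1q_eq_zero, map_mn]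
  have h1 : xs S.e1q 0 S.tt = 0 := S.e1q_eq_zero.2 S.e1_tt0
  have h2 : xs S.e1q 0 j = 0 := S.e1q_eq_zero.2 (S.e1_Zs hj)
  rw [h1, h2, zero_mul, mul_zero, sub_zero]

/-! ### The decomposition of `HH tt` -/

/-- the coefficient of `y_s` in `HH tt` -/
noncomputable def e1A : Coord ι 2 :=
  MvPolynomial.X (1, S.tt) * MvPolynomial.X (0, S.al) * MvPolynomial.X (0, S.tt) ^ (S.m + 1) *
    MvPolynomial.X (1, S.s) ^ (S.m + 1) + S.gS C (XX 0) (XX 1) S.tt

/-- the coefficient of `x_tt ^ (m + 1)` in `HH tt` -/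
noncomputable def e1B : Coord ι 2 :=
  MvPolynomial.X (1, S.tt) * MvPolynomial.X (0, S.be) * MvPolynomial.X (1, S.tt) ^ (S.m + 2) +
    MvPolynomial.X (0, S.tt) * inFactor 2 1 S.rho

omit [Fintype ι] [DecidableEq ι] in
lemma e1_inFactor (i : Fin 2) (p : MvPolynomial ι ℂ) :
    inFactor 2 i p = eval₂Hom C (XX i) p := by
  have h := map_inFactor (RingHom.id (Coord ι 2)) i p
  exact h

lemma e1_HH : S.HH S.tt = MvPolynomial.X (1, S.s) * S.e1A +
    MvPolynomial.X (0, S.tt) ^ (S.m + 1) * S.e1B := by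
  rw [HH, hhv, e1A, e1B, e1_inFactor]
  simp only [XX]
  ring

section hom

variable {L : Type} [CommRing L] (φ : Coord ι 2 →+* L)

lemma e1_map_gS (b : ι) :
    φ (S.gS C (XX 0) (XX 1) b) = S.gS (cs φ) (xs φ 0) (xs φ 1) b := by
  rw [gS, gS, map_ev C _ φ]
  refine ev_congr _ _ fun j _ => ?_
  by_cases hj : j = S.be
  · subst hj
    rw [if_pos rfl, if_pos rfl, map_mul]
    rfl
  · rw [if_neg hj, if_neg hj, map_mul]
    rfl

lemma e1_A_val (h : xs φ 0 S.tt = 0) : φ S.e1A =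
    (xs φ 1 S.tt * xs φ 0 S.be) ^ (S.m + 2) * cs φ (eval (Pi.single S.be 1) S.g) := by
  have h' : φ (MvPolynomial.X (0, S.tt)) = 0 := h
  rw [e1A, map_add, map_mul, map_mul, map_pow, h', zero_pow (by omega), mul_zero, zero_mul,
    zero_add, e1_map_gS, e1_gS S _ _ _ _ h]

lemma e1_B_val (h : xs φ 0 S.tt = 0) : φ S.e1B =
    xs φ 1 S.tt * xs φ 0 S.be * xs φ 1 S.tt ^ (S.m + 2) := by
  have h' : φ (MvPolynomial.X (0, S.tt)) = 0 := h
  rw [e1B, map_add, map_mul _ (MvPolynomial.X (0, S.tt)), h', zero_mul, add_zero, map_mul,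
    map_mul, map_pow]
  rfl

end hom

lemma e1q_tt0 : xs S.e1q 0 S.tt = 0 := S.e1q_eq_zero.2 S.e1_tt0

lemma e1q_tt1 : xs S.e1q 1 S.tt ≠ 0 := fun h => S.e1_tt1 (S.e1q_eq_zero.1 h)

lemma e1q_be : xs S.e1q 0 S.be ≠ 0 := fun h => S.e1_be (S.e1q_eq_zero.1 h)

lemma e1_A_notMem : S.e1A ∉ (S.E1 1).I := by
  have : Nontrivial (Coord ι 2 ⧸ (S.E1 1).I) := Ideal.Quotient.nontrivial_iff.2 (S.E1 1).prime.ne_top
  rw [← e1q_eq_zero, e1_A_val S _ S.e1q_tt0]
  exact mul_ne_zero (pow_ne_zero _ (mul_ne_zero S.e1q_tt1 S.e1q_be)) (S.e1_unit _).ne_zero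

lemma e1_B_notMem : S.e1B ∉ (S.E1 1).I := by
  rw [← e1q_eq_zero, e1_B_val S _ S.e1q_tt0]
  exact mul_ne_zero (mul_ne_zero S.e1q_tt1 S.e1q_be) (pow_ne_zero _ S.e1q_tt1)

lemma e1_HH_mem : S.HH S.tt ∈ (S.E1 1).I := by
  rw [e1_HH]
  exact add_mem (Ideal.mul_mem_right _ _ S.e1_s1)
    (Ideal.mul_mem_right _ _ (Ideal.pow_mem_of_mem _ S.e1_tt0 _ (by omega)))

lemma e1_mnbe_notMem : mn S.be S.tt ∉ (S.E1 1).I := by
  rw [← e1q_eq_zero, map_mn, e1q_tt0, mul_zero, sub_zero]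
  exact mul_ne_zero S.e1q_be S.e1q_tt1

/-! ### Killing -/

lemma e1_kill {L : Type} [CommRing L] (φ : Coord ι 2 →+* L)
    (hK : ∀ i, ∀ j ∈ S.K, xs φ i j = 0) (ht : xs φ 0 S.tt = 0) (hy : IsUnit (xs φ 1 S.tt))
    (hx : IsUnit (xs φ 0 S.be)) (hmn : ∀ j ∈ S.Zs, j ≠ S.tt → φ (mn S.tt j) = 0)
    (hf : φ (inFactor 2 1 S.f) = 0) (hH : φ (S.HH S.tt) = 0) {z : Coord ι 2}
    (hz : z ∈ (S.E1 1).I) : φ z = 0 := by
  have hs : xs φ 1 S.s = 0 := by
    have ht' : φ (MvPolynomial.X (0, S.tt)) = 0 := ht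
    rw [e1_HH, map_add, map_mul, map_mul, map_pow, ht', zero_pow (by omega), zero_mul,
      add_zero, e1_A_val S φ ht] at hH
    have hu : IsUnit ((xs φ 1 S.tt * xs φ 0 S.be) ^ (S.m + 2) *
        cs φ (eval (Pi.single S.be 1) S.g)) := ((hy.mul hx).pow _).mul (S.e1_unit _)
    exact hu.mul_left_eq_zero.1 hH
  have hpsi : eval₂Hom (cs φ) (xs φ 1) S.psi = 0 := by
    rw [map_inFactor, f_ev, hs, zero_pow (by omega), mul_zero, zero_mul, zero_add,
      zero_add] at hf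
    exact hf
  refine kill_dE φ 1 0 (by decide) ?_ ?_ hpsi hz
  · intro j hj
    rcases S.mem_K1.1 hj with rfl | hj
    · exact hs
    · exact hK 1 j hj
  · intro j hj
    by_cases hjK : j ∈ S.K
    · exact hK 0 j hjK
    · have hjZ : j ∈ S.Zs := S.mem_Zs.2 ⟨hjK, fun h => hj (S.mem_Fr2.2 (Or.inr (Or.inr h))),
        fun h => hj (S.mem_Fr2.2 (Or.inr (Or.inl h))), fun h => hj (S.mem_Fr2.2 (Or.inl h))⟩
      by_cases hjt : j = S.tt
      · rw [hjt]
        exact ht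
      · have h := hmn j hjZ hjt
        rw [map_mn, ht, zero_mul, zero_sub, neg_eq_zero] at h
        exact hy.mul_right_eq_zero.1 h

/-! ### The family -/

/-- the indices of the family -/
abbrev E1κ : Type :=
  Option (Option ((Fin 2 × {j : ι // j ∈ S.K}) ⊕ {j : ι // j ∈ S.Zs ∧ j ≠ S.tt}))

/-- the family -/
noncomputable def e1fam : S.E1κ → Coord ι 2
  | none => inFactor 2 1 S.f
  | some none => S.HH S.tt
  | some (some (Sum.inl p)) => MvPolynomial.X (p.1, p.2.1)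
  | some (some (Sum.inr j)) => mn S.tt j.1

lemma e1fam_mem (i : S.E1κ) : S.e1fam i ∈ (S.E1 1).I := by
  rcases i with _ | _ | p | j
  · exact S.e1_f
  · exact S.e1_HH_mem
  · exact S.e1_K p.1 p.2.2
  · exact S.e1_mn j.2.1

lemma e1fam_kill {L : Type} [CommRing L] (φ : Coord ι 2 →+* L)
    (h : ∀ i, φ (S.e1fam i) = 0) (ht : xs φ 0 S.tt = 0) (hy : IsUnit (xs φ 1 S.tt))
    (hx : IsUnit (xs φ 0 S.be)) {z : Coord ι 2} (hz : z ∈ (S.E1 1).I) : φ z = 0 := by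
  refine S.e1_kill φ ?_ ht hy hx ?_ (h none) (h (some none)) hz
  · intro i j hj
    exact h (some (some (Sum.inl ⟨i, ⟨j, hj⟩⟩)))
  · intro j hj hjt
    exact h (some (some (Sum.inr ⟨j, hj, hjt⟩)))

/-! ### The derivatives, modulo the ideal -/

lemma e1_pd_f : S.e1q (pderiv (1, S.be) (inFactor 2 1 S.f)) = xs S.e1q 1 S.tt ^ (S.m + 2) := by
  have hinj : Function.Injective (fun j : ι => ((1, j) : Fin 2 × ι)) :=
    fun a b hab => (Prod.mk.inj hab).2
  have h1 : pderiv (1, S.be) (inFactor 2 1 S.f) = inFactor 2 1 (pderiv S.be S.f) :=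
    pderiv_rename hinj S.be S.f
  have h2 : pderiv S.be S.f = MvPolynomial.X S.s * pderiv S.be S.g +
      MvPolynomial.X S.tt ^ (S.m + 2) := by
    have e1 : pderiv S.be (MvPolynomial.X S.al : MvPolynomial ι ℂ) = 0 :=
      pderiv_X_of_ne S.halbe
    have e2 : pderiv S.be (MvPolynomial.X S.s : MvPolynomial ι ℂ) = 0 := pderiv_X_of_ne S.hsbe
    have e3 : pderiv S.be (MvPolynomial.X S.tt : MvPolynomial ι ℂ) = 0 :=
      pderiv_X_of_ne S.hbett.symm
    have e4 : pderiv S.be S.rho = 0 :=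
      pderiv_eq_zero_of_notMem_vars fun h => (S.rho_vars h).2.2.2.2 rfl
    rw [f, psi, map_add, map_add, map_add, pderiv_mul, pderiv_mul, pderiv_mul, pderiv_pow,
      pderiv_pow, e1, e2, e3, e4, pderiv_X_self]
    ring
  rw [h1, h2, map_add, map_mul, map_pow, map_add, map_mul, map_pow]
  have e5 : inFactor 2 1 (MvPolynomial.X S.s : MvPolynomial ι ℂ) = MvPolynomial.X (1, S.s) := by
    rw [inFactor, rename_X]
  have e6 : inFactor 2 1 (MvPolynomial.X S.tt : MvPolynomial ι ℂ) = MvPolynomial.X (1, S.tt) := by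
    rw [inFactor, rename_X]
  rw [e5, e6, S.e1q_eq_zero.2 S.e1_s1, zero_mul, zero_add]
  rfl

lemma e1_pd_HH {v : Fin 2 × ι} (hv : v ≠ (0, S.tt)) :
    S.e1q (pderiv v (S.HH S.tt)) = if v = (1, S.s) then S.e1q S.e1A else 0 := by
  have e1 : pderiv v (MvPolynomial.X (0, S.tt) : Coord ι 2) = 0 := pderiv_X_of_ne hv.symm
  have e2 : S.e1q (MvPolynomial.X (1, S.s)) = 0 := S.e1q_eq_zero.2 S.e1_s1
  have e3 : S.e1q (MvPolynomial.X (0, S.tt)) = 0 := S.e1q_eq_zero.2 S.e1_tt0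
  rw [e1_HH, map_add, pderiv_mul, pderiv_mul, pderiv_pow, e1, mul_zero, zero_mul, zero_add,
    map_add, map_add, map_mul, map_mul, map_mul, map_pow, e2, e3, zero_mul,
    zero_pow (by omega), zero_mul, add_zero, add_zero]
  by_cases h : v = (1, S.s)
  · rw [if_pos h, h, pderiv_X_self, map_one, one_mul]
  · rw [if_neg h, pderiv_X_of_ne (Ne.symm h), map_zero, zero_mul]

lemma e1_pd_mn (v : Fin 2 × ι) {j : ι} (hj : j ∈ S.Zs) (hv : v ≠ (0, S.tt)) :
    S.e1q (pderiv v (mn S.tt j)) = if v = (0, j) then -xs S.e1q 1 S.tt else 0 := by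
  have e1 : pderiv v (MvPolynomial.X (0, S.tt) : Coord ι 2) = 0 := pderiv_X_of_ne hv.symm
  have e3 : S.e1q (MvPolynomial.X (0, S.tt)) = 0 := S.e1q_eq_zero.2 S.e1_tt0
  have e4 : S.e1q (MvPolynomial.X (0, j)) = 0 := S.e1q_eq_zero.2 (S.e1_Zs hj)
  rw [mn, map_sub, pderiv_mul, pderiv_mul, e1, zero_mul, zero_add, map_sub, map_mul, map_add,
    map_mul, map_mul, e3, e4, zero_mul, mul_zero, zero_add, zero_sub]
  by_cases h : v = (0, j)
  · rw [if_pos h, h, pderiv_X_self, map_one, mul_one]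
    rfl
  · rw [if_neg h, pderiv_X_of_ne (Ne.symm h), map_zero, mul_zero, neg_zero]

lemma e1_pd_X (v w : Fin 2 × ι) :
    S.e1q (pderiv v (MvPolynomial.X w)) = if v = w then 1 else 0 := by
  by_cases h : v = w
  · rw [if_pos h, h, pderiv_X_self, map_one]
  · rw [if_neg h, pderiv_X_of_ne (Ne.symm h), map_zero]

lemma e1_jac (c : S.E1κ → Coord ι 2) (d : Coord ι 2)
    (h : ∀ v : Fin 2 × ι, ∑ i, c i * pderiv v (S.e1fam i) +
      d * pderiv v (MvPolynomial.X (0, S.tt)) ∈ (S.E1 1).I) :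
    (∀ i, c i ∈ (S.E1 1).I) ∧ d ∈ (S.E1 1).I := by
  have key : ∀ v : Fin 2 × ι, S.e1q (c none) * S.e1q (pderiv v (inFactor 2 1 S.f)) +
      (S.e1q (c (some none)) * S.e1q (pderiv v (S.HH S.tt)) +
        (∑ p : Fin 2 × {j : ι // j ∈ S.K}, S.e1q (c (some (some (Sum.inl p)))) *
            S.e1q (pderiv v (MvPolynomial.X (p.1, p.2.1))) +
          ∑ j : {j : ι // j ∈ S.Zs ∧ j ≠ S.tt}, S.e1q (c (some (some (Sum.inr j)))) *
            S.e1q (pderiv v (mn S.tt j.1)))) +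
      S.e1q d * S.e1q (pderiv v (MvPolynomial.X (0, S.tt))) = 0 := by
    intro v
    have h1 := S.e1q_eq_zero.2 (h v)
    rw [map_add, map_mul, map_sum, Fintype.sum_option, Fintype.sum_option,
      Fintype.sum_sum_type] at h1
    simp only [map_mul] at h1
    exact h1
  have hf : S.e1q (c none) = 0 := by
    have h1 := key (1, S.be)
    have hne : ((1, S.be) : Fin 2 × ι) ≠ (0, S.tt) := by simp
    have hne2 : ((1, S.be) : Fin 2 × ι) ≠ (1, S.s) := by
      intro h2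
      exact S.hsbe (Prod.mk.inj h2).2.symm
    have hs1 : ∑ p : Fin 2 × {j : ι // j ∈ S.K}, S.e1q (c (some (some (Sum.inl p)))) *
        S.e1q (pderiv (1, S.be) (MvPolynomial.X (p.1, p.2.1))) = 0 := by
      refine Finset.sum_eq_zero fun p _ => ?_
      rw [e1_pd_X, if_neg, mul_zero]
      intro h2
      have h3 : S.be = p.2.1 := (Prod.mk.inj h2).2
      exact S.beK (h3 ▸ p.2.2)
    have hs2 : ∑ j : {j : ι // j ∈ S.Zs ∧ j ≠ S.tt}, S.e1q (c (some (some (Sum.inr j)))) *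
        S.e1q (pderiv (1, S.be) (mn S.tt j.1)) = 0 := by
      refine Finset.sum_eq_zero fun j _ => ?_
      rw [e1_pd_mn S _ j.2.1 hne, if_neg (by simp), mul_zero]
    rw [hs1, hs2, e1_pd_HH S hne, if_neg hne2, e1_pd_X, if_neg hne, e1_pd_f, mul_zero, mul_zero,
      add_zero, add_zero, add_zero, add_zero] at h1
    exact (mul_eq_zero.1 h1).resolve_right (pow_ne_zero _ S.e1q_tt1)
  have hH : S.e1q (c (some none)) = 0 := by
    have h1 := key (1, S.s)
    have hne : ((1, S.s) : Fin 2 × ι) ≠ (0, S.tt) := by simp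
    have hs1 : ∑ p : Fin 2 × {j : ι // j ∈ S.K}, S.e1q (c (some (some (Sum.inl p)))) *
        S.e1q (pderiv (1, S.s) (MvPolynomial.X (p.1, p.2.1))) = 0 := by
      refine Finset.sum_eq_zero fun p _ => ?_
      rw [e1_pd_X, if_neg, mul_zero]
      intro h2
      have h3 : S.s = p.2.1 := (Prod.mk.inj h2).2
      exact S.sK (h3 ▸ p.2.2)
    have hs2 : ∑ j : {j : ι // j ∈ S.Zs ∧ j ≠ S.tt}, S.e1q (c (some (some (Sum.inr j)))) *
        S.e1q (pderiv (1, S.s) (mn S.tt j.1)) = 0 := by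
      refine Finset.sum_eq_zero fun j _ => ?_
      rw [e1_pd_mn S _ j.2.1 hne, if_neg (by simp), mul_zero]
    rw [hs1, hs2, e1_pd_HH S hne, if_pos rfl, e1_pd_X, if_neg hne, hf, mul_zero, zero_mul,
      add_zero, add_zero, add_zero, zero_add] at h1
    exact (mul_eq_zero.1 h1).resolve_right fun h2 => S.e1_A_notMem (S.e1q_eq_zero.1 h2)
  have hM : ∀ j : {j : ι // j ∈ S.Zs ∧ j ≠ S.tt},
      S.e1q (c (some (some (Sum.inr j)))) = 0 := by
    intro j
    have h1 := key (0, j.1)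
    have hne : ((0, j.1) : Fin 2 × ι) ≠ (0, S.tt) := by
      intro h2
      exact j.2.2 (Prod.mk.inj h2).2
    have hs1 : ∑ p : Fin 2 × {j : ι // j ∈ S.K}, S.e1q (c (some (some (Sum.inl p)))) *
        S.e1q (pderiv (0, j.1) (MvPolynomial.X (p.1, p.2.1))) = 0 := by
      refine Finset.sum_eq_zero fun p _ => ?_
      rw [e1_pd_X, if_neg, mul_zero]
      intro h2
      have h3 : j.1 = p.2.1 := (Prod.mk.inj h2).2
      exact (S.mem_Zs.1 j.2.1).1 (h3 ▸ p.2.2)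
    have hs2 : ∑ l : {j : ι // j ∈ S.Zs ∧ j ≠ S.tt}, S.e1q (c (some (some (Sum.inr l)))) *
        S.e1q (pderiv (0, j.1) (mn S.tt l.1)) =
          S.e1q (c (some (some (Sum.inr j)))) * -xs S.e1q 1 S.tt := by
      rw [Finset.sum_eq_single j]
      · rw [e1_pd_mn S _ j.2.1 hne, if_pos rfl]
      · intro l _ hl
        rw [e1_pd_mn S _ l.2.1 hne, if_neg, mul_zero]
        intro h2
        exact hl (Subtype.ext (Prod.mk.inj h2).2.symm)
      · intro h2
        exact absurd (Finset.mem_univ _) h2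
    rw [hs1, hs2, hf, hH, e1_pd_X, if_neg hne, mul_zero, zero_mul, zero_mul, zero_add, zero_add,
      zero_add, add_zero] at h1
    exact (mul_eq_zero.1 h1).resolve_right (neg_ne_zero.2 S.e1q_tt1)
  have hX : ∀ p : Fin 2 × {j : ι // j ∈ S.K}, S.e1q (c (some (some (Sum.inl p)))) = 0 := by
    intro p
    have h1 := key (p.1, p.2.1)
    have hne : ((p.1, p.2.1) : Fin 2 × ι) ≠ (0, S.tt) := by
      intro h2
      have h3 : p.2.1 = S.tt := (Prod.mk.inj h2).2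
      exact S.ttK (h3 ▸ p.2.2)
    have hs1 : ∑ r : Fin 2 × {j : ι // j ∈ S.K}, S.e1q (c (some (some (Sum.inl r)))) *
        S.e1q (pderiv (p.1, p.2.1) (MvPolynomial.X (r.1, r.2.1))) =
          S.e1q (c (some (some (Sum.inl p)))) := by
      rw [Finset.sum_eq_single p]
      · rw [e1_pd_X, if_pos rfl, mul_one]
      · intro r _ hr
        rw [e1_pd_X, if_neg, mul_zero]
        intro h2
        apply hr
        have h3 := Prod.mk.inj h2
        exact Prod.ext h3.1.symm (Subtype.ext h3.2.symm)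
      · intro h2
        exact absurd (Finset.mem_univ _) h2
    have hs2 : ∑ j : {j : ι // j ∈ S.Zs ∧ j ≠ S.tt}, S.e1q (c (some (some (Sum.inr j)))) *
        S.e1q (pderiv (p.1, p.2.1) (mn S.tt j.1)) = 0 :=
      Finset.sum_eq_zero fun j _ => by rw [hM, zero_mul]
    rw [hs1, hs2, hf, hH, e1_pd_X, if_neg hne, mul_zero, zero_mul, zero_mul, zero_add, zero_add,
      add_zero, add_zero] at h1
    exact h1
  have hd : S.e1q d = 0 := by
    have h1 := key (0, S.tt)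
    have hs1 : ∑ p : Fin 2 × {j : ι // j ∈ S.K}, S.e1q (c (some (some (Sum.inl p)))) *
        S.e1q (pderiv (0, S.tt) (MvPolynomial.X (p.1, p.2.1))) = 0 :=
      Finset.sum_eq_zero fun p _ => by rw [hX, zero_mul]
    have hs2 : ∑ j : {j : ι // j ∈ S.Zs ∧ j ≠ S.tt}, S.e1q (c (some (some (Sum.inr j)))) *
        S.e1q (pderiv (0, S.tt) (mn S.tt j.1)) = 0 :=
      Finset.sum_eq_zero fun j _ => by rw [hM, zero_mul]
    rw [hs1, hs2, hf, hH, e1_pd_X, if_pos rfl, mul_one, zero_mul, zero_mul, zero_add, zero_add,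
      zero_add, zero_add] at h1
    exact h1
  refine ⟨fun i => ?_, S.e1q_eq_zero.1 hd⟩
  rw [← e1q_eq_zero]
  rcases i with _ | _ | p | j
  · exact hf
  · exact hH
  · exact hX p
  · exact hM j

/-! ### The point is above the fibre square -/

lemma e1_le : S.pU.I ≤ (S.E1 1).I := by
  obtain ⟨L, hL, hq, hlt, htL⟩ := kj (Q := (S.E1 1).I) S.e1fam (MvPolynomial.X (0, S.tt))
    S.e1fam_mem S.e1_tt0
    (fun z hz => S.e1fam_kill
      (toLocMod (Ideal.span (Set.range S.e1fam) ⊔ Ideal.span {MvPolynomial.X (0, S.tt)})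
        (S.E1 1).I)
      (fun i => toLocMod_eq_zero_of_mem (Ideal.mem_sup_left (Ideal.subset_span ⟨i, rfl⟩)))
      (toLocMod_eq_zero_of_mem (Ideal.mem_sup_right (Ideal.mem_span_singleton_self _)))
      (isUnit_toLocMod S.e1_tt1) (isUnit_toLocMod S.e1_be) hz)
    S.e1_jac
  have hKL : ∀ i, ∀ j ∈ S.K, (MvPolynomial.X (i, j) : Coord ι 2) ∈ L := fun i j hj =>
    hq (some (some (Sum.inl ⟨i, ⟨j, hj⟩⟩)))
  have hmnL : ∀ j ∈ S.Zs, mn S.tt j ∈ L := by
    intro j hj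
    by_cases hjt : j = S.tt
    · subst hjt
      have h0 : mn S.tt S.tt = (0 : Coord ι 2) := by
        rw [mn]
        ring
      rw [h0]
      exact L.zero_mem
    · exact hq (some (some (Sum.inr ⟨j, hj, hjt⟩)))
  have hfL : inFactor 2 1 S.f ∈ L := hq none
  have hHL : S.HH S.tt ∈ L := hq (some none)
  have hyL : (MvPolynomial.X (1, S.tt) : Coord ι 2) ∉ L := fun h => S.e1_tt1 (hlt.le h)
  have hs1 : (MvPolynomial.X (1, S.s) : Coord ι 2) ∉ L := by
    intro h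
    have h1 : MvPolynomial.X (0, S.tt) ^ (S.m + 1) * S.e1B ∈ L := by
      have h2 := sub_mem hHL (L.mul_mem_right S.e1A h)
      rw [e1_HH] at h2
      have e : MvPolynomial.X (1, S.s) * S.e1A + MvPolynomial.X (0, S.tt) ^ (S.m + 1) * S.e1B -
        MvPolynomial.X (1, S.s) * S.e1A = MvPolynomial.X (0, S.tt) ^ (S.m + 1) * S.e1B := by
        ring
      rwa [e] at h2
    rcases hL.mem_or_mem h1 with h2 | h2
    · exact htL (hL.mem_of_pow_mem _ h2)
    · exact S.e1_B_notMem (hlt.le h2)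
  have hs0 : (MvPolynomial.X (0, S.s) : Coord ι 2) ∉ L := by
    intro h
    have h1 := hmnL S.s S.s_mem
    have h2 : (MvPolynomial.X (0, S.tt) * MvPolynomial.X (1, S.s) : Coord ι 2) ∈ L := by
      have h3 := add_mem h1 (L.mul_mem_left (MvPolynomial.X (1, S.tt)) h)
      rw [mn, sub_add_cancel] at h3
      exact h3
    rcases hL.mem_or_mem h2 with h3 | h3
    · exact htL h3
    · exact hs1 h3
  let π : Coord ι 2 →+* Coord ι 2 ⧸ L := Ideal.Quotient.mk L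
  have hπ : ∀ z, π z = 0 ↔ z ∈ L := fun z => Ideal.Quotient.eq_zero_iff_mem
  have hpr : ∀ j ∈ S.Zs, xs π 0 S.tt * xs π 1 j = xs π 1 S.tt * xs π 0 j := by
    intro j hj
    have h1 := (hπ _).2 (hmnL j hj)
    rw [map_mn] at h1
    exact sub_eq_zero.1 h1
  refine (S.pU_le_of hKL hs0 hs1 ?_ ?_).trans hlt.le
  · intro j hj
    rw [← hπ, map_mn]
    have h1 : xs π 1 S.tt * (xs π 0 S.s * xs π 1 j - xs π 1 S.s * xs π 0 j) = 0 := by
      have e1 := hpr j hj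
      have e2 := hpr S.s S.s_mem
      linear_combination (-xs π 1 j) * e2 + xs π 1 S.s * e1
    exact (mul_eq_zero.1 h1).resolve_left fun h2 => hyL ((hπ _).1 h2)
  · intro i
    have hi : i = 0 ∨ i = 1 := by omega
    rcases hi with rfl | rfl
    · rw [← hπ, map_inFactor]
      have h1 := S.rel_hh (cs π) (xs π 0) (xs π 1) S.tt S.tt_mem hpr
      rw [← map_HH, (hπ _).2 hHL, mul_zero] at h1
      exact (mul_eq_zero.1 h1).resolve_left
        (pow_ne_zero _ fun h2 => hyL ((hπ _).1 h2))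
    · exact hfL

lemma e1_tt_pU : (MvPolynomial.X (0, S.tt) : Coord ι 2) ∉ S.pU.I := S.X_pU 0 S.ttK

lemma e1_reg {z : Coord ι 2} (hz : z ∈ (S.E1 1).I) : ∃ s, s ∉ (S.E1 1).I ∧
    s * z ∈ S.pU.I ⊔ Ideal.span {(MvPolynomial.X (0, S.tt) : Coord ι 2)} := by
  set J := S.pU.I ⊔ Ideal.span {(MvPolynomial.X (0, S.tt) : Coord ι 2)} with hJ
  apply exists_of_toLocMod_eq_zero (J := J)
  let φ : Coord ι 2 →+* LocMod J (S.E1 1).I := toLocMod J (S.E1 1).I
  have hφ : ∀ w ∈ S.pU.I, φ w = 0 := fun w hw =>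
    toLocMod_eq_zero_of_mem (Ideal.mem_sup_left hw)
  exact S.e1_kill φ (fun i j hj => hφ _ (S.K_pU i hj))
    (toLocMod_eq_zero_of_mem (Ideal.mem_sup_right (Ideal.mem_span_singleton_self _)))
    (isUnit_toLocMod S.e1_tt1) (isUnit_toLocMod S.e1_be)
    (fun j hj _ => hφ _ (S.mn_pU S.tt_mem hj)) (hφ _ (S.f_pU 1)) (hφ _ (S.HH_pU S.tt_mem)) hz

lemma ord_E1 : CodimOne S.pU.I (S.E1 1).I ∧
    ordAt S.pU.I (S.E1 1).I (MvPolynomial.X (0, S.s)) = (S.m + 2 : ℕ) ∧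
    ordAt S.pU.I (S.E1 1).I (MvPolynomial.X (1, S.s)) = (S.m + 1 : ℕ) ∧
    ordAt S.pU.I (S.E1 1).I S.MM = (S.m + 1 : ℕ) := by
  have hp : (S.E1 1).I.IsPrime := (S.E1 1).prime
  have hA := S.e1_A_notMem
  have hB : -S.e1B ∉ (S.E1 1).I := fun h => S.e1_B_notMem (neg_mem_iff.1 h)
  have hH := S.HH_pU S.tt_mem
  have hms := S.mn_pU S.tt_mem S.s_mem
  rw [e1_HH] at hH
  have hAy : S.e1A * MvPolynomial.X (1, S.tt) ∉ (S.E1 1).I := fun h =>
    (hp.mem_or_mem h).elim hA S.e1_tt1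
  refine ⟨codimOne_of S.e1_le S.e1_tt0 S.e1_tt_pU (fun _ hz => S.e1_reg hz), ?_, ?_, ?_⟩
  · refine ordAt_eq S.e1_le S.e1_tt0 S.e1_tt_pU (fun _ hz => S.e1_reg hz) hAy hB ?_
    have e : S.e1A * MvPolynomial.X (1, S.tt) * MvPolynomial.X (0, S.s) -
        -S.e1B * MvPolynomial.X (0, S.tt) ^ (S.m + 2) =
        -S.e1A * mn S.tt S.s + MvPolynomial.X (0, S.tt) * (MvPolynomial.X (1, S.s) * S.e1A +
          MvPolynomial.X (0, S.tt) ^ (S.m + 1) * S.e1B) := by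
      rw [mn]
      ring
    rw [e]
    exact add_mem (Ideal.mul_mem_left _ _ hms) (Ideal.mul_mem_left _ _ hH)
  · refine ordAt_eq S.e1_le S.e1_tt0 S.e1_tt_pU (fun _ hz => S.e1_reg hz) hA hB ?_
    have e : S.e1A * MvPolynomial.X (1, S.s) - -S.e1B * MvPolynomial.X (0, S.tt) ^ (S.m + 1) =
        MvPolynomial.X (1, S.s) * S.e1A + MvPolynomial.X (0, S.tt) ^ (S.m + 1) * S.e1B := by
      ring
    rw [e]
    exact hH
  · have hBm : -S.e1B * mn S.be S.tt ∉ (S.E1 1).I := fun h =>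
      (hp.mem_or_mem h).elim hB S.e1_mnbe_notMem
    refine ordAt_eq S.e1_le S.e1_tt0 S.e1_tt_pU (fun _ hz => S.e1_reg hz) hAy hBm ?_
    have e : S.e1A * MvPolynomial.X (1, S.tt) * S.MM -
        -S.e1B * mn S.be S.tt * MvPolynomial.X (0, S.tt) ^ (S.m + 1) =
        MvPolynomial.X (1, S.be) * S.e1A * mn S.tt S.s +
          mn S.be S.tt * (MvPolynomial.X (1, S.s) * S.e1A +
            MvPolynomial.X (0, S.tt) ^ (S.m + 1) * S.e1B) := by
      rw [MM, mn, mn, mn]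
      ring
    rw [e]
    exact add_mem (Ideal.mul_mem_left _ _ hms) (Ideal.mul_mem_left _ _ hH)

end BData

end Kp

end Pool.Agent.RCH
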