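import Pool.Agent.RCH.KpPts
import Pool.Agent.RCH.KpSw

/-!
# The exchange of the two factors and the two types of points
-/

set_option autoImplicit false

open MvPolynomial

namespace Pool.Agent.RCH

namespace Kp

variable {ι : Type}

lemma sw_X {i0 i1 : Fin 2} (h : i0 ≠ i1) (j : ι) :
    sw (MvPolynomial.X (i0, j)) = MvPolynomial.X (i1, j) := by
  fin_cases i0 <;> fin_cases i1
  · exact absurd rfl h
  · exact sw_X0 j
  · exact sw_X1 j
  · exact absurd rfl h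

lemma sw_inFactor {i0 i1 : Fin 2} (h : i0 ≠ i1) (p : MvPolynomial ι ℂ) :
    sw (inFactor 2 i0 p) = inFactor 2 i1 p := by
  fin_cases i0 <;> fin_cases i1
  · exact absurd rfl h
  · exact sw_inFactor0 p
  · exact sw_inFactor1 p
  · exact absurd rfl h

lemma xs_sw {L : Type} [CommRing L] (φ : Coord ι 2 →+* L) {i0 i1 : Fin 2} (h : i0 ≠ i1) :
    xs (φ.comp swH) i0 = xs φ i1 := by
  funext j
  show φ (sw _) = _
  rw [sw_X h]
  rfl

variable [DecidableEq ι]

/-- the exchange of the factors and the pairs of a point on `h = 0` and a point of a linear space -/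
lemma sw_mem_dE {F : MvPolynomial ι ℂ} {A K : Finset ι} {h : MvPolynomial ι ℂ}
    {n : ℕ} (hh : h.IsHomogeneous n) (vK : ∀ j ∈ h.vars, j ∉ K) {i0 i1 : Fin 2} (h01 : i0 ≠ i1)
    {z : Coord ι 2} (hz : z ∈ genIdeal (hyp F) (dE i0 A K h)) :
    sw z ∈ genIdeal (hyp F) (dE i1 A K h) := by
  rw [← Ideal.Quotient.eq_zero_iff_mem]
  refine kill_dE ((Ideal.Quotient.mk (genIdeal (hyp F) (dE i1 A K h))).comp
    swH) i0 i1 h01 ?_ ?_ ?_ hz
  · intro j hj
    rw [xs_sw _ h01]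
    show Ideal.Quotient.mk _ (MvPolynomial.X (i1, j)) = 0
    rw [Ideal.Quotient.eq_zero_iff_mem, X_mem_gen]
    exact (if_pos rfl).trans (if_pos hj)
  · intro j hj
    rw [xs_sw _ h01.symm]
    show Ideal.Quotient.mk _ (MvPolynomial.X (i0, j)) = 0
    rw [Ideal.Quotient.eq_zero_iff_mem, X_mem_gen]
    exact (if_neg h01).trans (if_neg hj)
  · rw [← map_inFactor]
    show Ideal.Quotient.mk _ (sw (inFactor 2 i0 h)) = 0
    rw [sw_inFactor h01, Ideal.Quotient.eq_zero_iff_mem]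
    have hw : IsWeightedHomogeneous (hyp F).wt h n := hh
    rw [mem_genIdeal_of_homogeneous (hyp F) _ (inFactor_homogeneous (hyp F) i1 hw), inFactor_aeval]
    have h1 : eval₂Hom (algebraMap ℂ (RD i1 h)) (fun j => dE i1 A K h (i1, j)) h = 0 := by
      rw [← h_main i1 h]
      refine ev_congr _ _ fun j hj => ?_
      exact (if_pos rfl).trans (if_neg (vK j hj))
    exact h1

lemma sw_mem_dE_iff {F : MvPolynomial ι ℂ} {A K : Finset ι} {h : MvPolynomial ι ℂ} {n : ℕ}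
    (hh : h.IsHomogeneous n) (vK : ∀ j ∈ h.vars, j ∉ K) {i0 i1 : Fin 2} (h01 : i0 ≠ i1)
    (z : Coord ι 2) :
    sw z ∈ genIdeal (hyp F) (dE i1 A K h) ↔ z ∈ genIdeal (hyp F) (dE i0 A K h) :=
  sw_mem_iff_of (fun _ hz => sw_mem_dE hh vK h01 hz) (fun _ hz => sw_mem_dE hh vK h01.symm hz) z

/-- the exchange of the factors and the proportional pairs -/
lemma sw_mem_dD {F : MvPolynomial ι ℂ} {K Fr : Finset ι} {h : MvPolynomial ι ℂ}
    (vF : ∀ j ∈ h.vars, j ∉ Fr) (i0 : Fin 2) {z : Coord ι 2}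
    (hz : z ∈ genIdeal (hyp F) (dD i0 K Fr h)) : sw z ∈ genIdeal (hyp F) (dD i0 K Fr h) := by
  obtain ⟨σ, hσ1, hσ2⟩ : ∃ σ : RD i0 h →+* RD i0 h,
      (∀ a, σ (algebraMap ℂ (RD i0 h) a) = algebraMap ℂ (RD i0 h) a) ∧
      ∀ v, σ (mk i0 h (MvPolynomial.X v)) = if v.2 ∈ Fr then
        mk i0 h (MvPolynomial.X (Equiv.swap (0 : Fin 2) 1 v.1, v.2)) else
          mk i0 h (MvPolynomial.X v) := by
    refine exists_liftD i0 h (algebraMap ℂ (RD i0 h)) _ ?_
    rw [← h_main i0 h]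
    refine ev_congr _ _ fun j hj => ?_
    exact if_neg (vF j hj)
  have hd : ∀ i j, σ (dD i0 K Fr h (i, j)) = dD i0 K Fr h (Equiv.swap (0 : Fin 2) 1 i, j) := by
    intro i j
    simp only [dD]
    by_cases hK : j ∈ K
    · rw [if_pos hK, if_pos hK, map_zero]
    · rw [if_neg hK, if_neg hK]
      by_cases hF : j ∈ Fr
      · rw [if_pos hF, if_pos hF, hσ2]
        exact if_pos hF
      · rw [if_neg hF, if_neg hF, hσ2]
        exact if_neg hF
  refine sw_mem_genIdeal F _ _ σ hσ1 (fun j => ?_) (fun j => ?_) z hz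
  · exact hd 0 j
  · exact hd 1 j

lemma sw_mem_dD_iff {F : MvPolynomial ι ℂ} {K Fr : Finset ι} {h : MvPolynomial ι ℂ}
    (vF : ∀ j ∈ h.vars, j ∉ Fr) (i0 : Fin 2) (z : Coord ι 2) :
    sw z ∈ genIdeal (hyp F) (dD i0 K Fr h) ↔ z ∈ genIdeal (hyp F) (dD i0 K Fr h) :=
  sw_mem_iff_of (fun _ hz => sw_mem_dD vF i0 hz) (fun _ hz => sw_mem_dD vF i0 hz) z

end Kp

end Pool.Agent.RCH
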