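import Pool.Agent.RCH.KpBPts
import Pool.Agent.RCH.KpSwPts

/-!
# The exchange of the two factors and the points of relation (B)
-/

set_option autoImplicit false

open MvPolynomial

namespace Pool.Agent.RCH

namespace Kp

attribute [local instance] Pt.prime

namespace BData

variable {ι : Type} [Fintype ι] [DecidableEq ι] (S : BData ι)

/-- the exchange of the free coordinates and of `be` -/
noncomputable def swU : Coord ι 2 →+* Coord ι 2 :=
  eval₂Hom C (fun v => if v.2 ∈ S.Fr ∨ v.2 = S.be then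
    MvPolynomial.X (Equiv.swap (0 : Fin 2) 1 v.1, v.2) else MvPolynomial.X v)

lemma swU_C (a : ℂ) : S.swU (C a) = C a := by
  rw [swU, eval₂Hom_C]

lemma swU_X_pos (i : Fin 2) {j : ι} (h : j ∈ S.Fr ∨ j = S.be) :
    S.swU (MvPolynomial.X (i, j)) = MvPolynomial.X (Equiv.swap (0 : Fin 2) 1 i, j) := by
  rw [swU, eval₂Hom_X']
  exact if_pos h

lemma swU_X_neg (i : Fin 2) {j : ι} (h1 : j ∉ S.Fr) (h2 : j ≠ S.be) :
    S.swU (MvPolynomial.X (i, j)) = MvPolynomial.X (i, j) := by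
  rw [swU, eval₂Hom_X']
  exact if_neg fun h => h.elim h1 h2

lemma swU_uev (i : Fin 2) {p : MvPolynomial ι ℂ} (hp : ∀ j ∈ p.vars, j ∉ S.Fr) :
    S.swU (S.uev i p) = S.uev (Equiv.swap (0 : Fin 2) 1 i) p := by
  have hc : S.swU.comp C = C := RingHom.ext fun a => S.swU_C a
  rw [uev, map_ev, hc, uev]
  refine ev_congr _ _ fun j hj => ?_
  by_cases hb : j = S.be
  · rw [if_pos hb, if_pos hb]
    exact S.swU_X_pos i (Or.inr rfl)
  · rw [if_neg hb, if_neg hb]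
    exact S.swU_X_neg 0 (hp j hj) hb

lemma swU_dU (i : Fin 2) (j : ι) : S.swU (S.dU (i, j)) = S.dU (Equiv.swap (0 : Fin 2) 1 i, j) := by
  have hs : S.swU (MvPolynomial.X (0, S.s)) = MvPolynomial.X (0, S.s) :=
    S.swU_X_neg 0 S.sF S.hsbe
  simp only [dU]
  by_cases hK : j ∈ S.K
  · rw [if_pos hK, if_pos hK, map_zero]
  · rw [if_neg hK, if_neg hK]
    by_cases hF : j ∈ S.Fr
    · rw [if_pos hF, if_pos hF]
      exact S.swU_X_pos i (Or.inl hF)
    · rw [if_neg hF, if_neg hF]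
      by_cases hal : j = S.al
      · rw [if_pos hal, if_pos hal, map_neg, map_add, map_mul, hs,
          S.swU_uev i fun j hj => (S.hgv j hj).2.1, S.swU_uev i fun j hj => (S.psi_vars hj).2.1]
      · rw [if_neg hal, if_neg hal]
        by_cases hbe : j = S.be
        · rw [if_pos hbe, if_pos hbe, map_mul, map_pow, hs, S.swU_X_pos i (Or.inr rfl)]
        · rw [if_neg hbe, if_neg hbe, map_mul, map_pow, hs, S.swU_X_neg 0 hF hbe]

lemma sw_mem_pU_of (z : Coord ι 2) (hz : z ∈ S.pU.I) : sw z ∈ S.pU.I :=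
  sw_mem_genIdeal S.F S.dU S.dU S.swU (fun a => S.swU_C a) (fun j => S.swU_dU 0 j)
    (fun j => S.swU_dU 1 j) z hz

lemma sw_mem_pU (z : Coord ι 2) : sw z ∈ S.pU.I ↔ z ∈ S.pU.I :=
  sw_mem_iff_of S.sw_mem_pU_of S.sw_mem_pU_of z

lemma sw_mem_E0 (z : Coord ι 2) : sw z ∈ (S.E0 0).I ↔ z ∈ (S.E0 1).I :=
  sw_mem_dE_iff S.f_homog S.admE0.vK (by decide) z

lemma sw_mem_E1 (z : Coord ι 2) : sw z ∈ (S.E1 0).I ↔ z ∈ (S.E1 1).I :=
  sw_mem_dE_iff S.psi_homog S.admE1.vK (by decide) z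

lemma sw_MM : sw S.MM = -S.MM := sw_mn _ _

lemma sw_mem_D0 (z : Coord ι 2) : sw z ∈ S.D0.I ↔ z ∈ S.D0.I :=
  sw_mem_dD_iff S.adm0.vF 1 z

lemma sw_mem_D1 (z : Coord ι 2) : sw z ∈ S.D1.I ↔ z ∈ S.D1.I :=
  sw_mem_dD_iff S.adm1.vF 1 z

lemma sw_mem_D2 (k : Fin S.T) (z : Coord ι 2) : sw z ∈ (S.D2 k).I ↔ z ∈ (S.D2 k).I :=
  sw_mem_dD_iff (S.adm2 k).vF 1 z

end BData

end Kp

end Pool.Agent.RCH
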