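import Pool.Agent.RCH.KpE0b
import Pool.Agent.RCH.KpE0c
import Pool.Agent.RCH.KpE1
import Pool.Agent.RCH.KpSwB

/-!
# The orders at the points `E0 0` and `E1 0`, by exchange of the two factors
-/

set_option autoImplicit false

open MvPolynomial

namespace Pool.Agent.RCH

namespace Kp

attribute [local instance] Pt.prime

namespace BData

variable {ι : Type} [Fintype ι] [DecidableEq ι] (S : BData ι)

lemma ord_E0' : CodimOne S.pU.I (S.E0 0).I ∧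
    ordAt S.pU.I (S.E0 0).I (MvPolynomial.X (1, S.s)) = (S.m + 2 : ℕ) ∧
    ordAt S.pU.I (S.E0 0).I S.MM = (S.m + 1 : ℕ) ∧
    (MvPolynomial.X (0, S.s) : Coord ι 2) ∉ (S.E0 0).I := by
  obtain ⟨h1, h2, h3⟩ := S.ord_E0
  refine ⟨codimOne_equiv sw S.sw_mem_pU S.sw_mem_E0 h1, ?_, ?_, ?_⟩
  · rw [← sw_X0, ← ordAt_equiv sw S.sw_mem_pU S.sw_mem_E0]
    exact h2
  · rw [← ordAt_neg, ← sw_MM, ← ordAt_equiv sw S.sw_mem_pU S.sw_mem_E0]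
    exact S.ord_E0_MM
  · rw [← sw_X1, S.sw_mem_E0]
    exact h3

lemma ord_E1' : CodimOne S.pU.I (S.E1 0).I ∧
    ordAt S.pU.I (S.E1 0).I (MvPolynomial.X (0, S.s)) = (S.m + 1 : ℕ) ∧
    ordAt S.pU.I (S.E1 0).I (MvPolynomial.X (1, S.s)) = (S.m + 2 : ℕ) ∧
    ordAt S.pU.I (S.E1 0).I S.MM = (S.m + 1 : ℕ) := by
  obtain ⟨h1, h2, h3, h4⟩ := S.ord_E1
  refine ⟨codimOne_equiv sw S.sw_mem_pU S.sw_mem_E1 h1, ?_, ?_, ?_⟩
  · rw [← sw_X1, ← ordAt_equiv sw S.sw_mem_pU S.sw_mem_E1]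
    exact h3
  · rw [← sw_X0, ← ordAt_equiv sw S.sw_mem_pU S.sw_mem_E1]
    exact h2
  · rw [← ordAt_neg, ← sw_MM, ← ordAt_equiv sw S.sw_mem_pU S.sw_mem_E1]
    exact h4

end BData

end Kp

end Pool.Agent.RCH
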