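import Pool.Agent.RCH.KpD0
import Pool.Agent.RCH.KpD1
import Pool.Agent.RCH.KpD2
import Pool.Agent.RCH.KpE0b
import Pool.Agent.RCH.KpE0c
import Pool.Agent.RCH.KpE1
import Pool.Agent.RCH.KpCLB
import Pool.Agent.RCH.KpSymB
import Pool.Agent.RCH.KpDisB

/-!
# The relation (B): the divisor of a function on the fibre square
-/

set_option autoImplicit false

open MvPolynomial

namespace Pool.Agent.RCH

namespace Kp

attribute [local instance] Pt.prime

lemma eq_of_codimOne_k {ι : Type} (X : WVar ι) {N : ℕ} {P A Q : Pt X N} (hA : CodimOne P.I A.I)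
    (hQ : CodimOne P.I Q.I) (h : A.I ≤ Q.I) : Q = A := by
  rcases h.lt_or_eq with h1 | h1
  · exact absurd (hQ.2 A.I A.prime hA.1.le h1) hA.1.ne'
  · exact (Pt.ext' X h1).symm

lemma X_hom_k {ι : Type} (F : MvPolynomial ι ℂ) (i : Fin 2) (j : ι) :
    IsWeightedHomogeneous ((hyp F).mdeg 2) (MvPolynomial.X (i, j) : Coord ι 2) (Pi.single i 1) :=
  isWeightedHomogeneous_X ℂ ((hyp F).mdeg 2) (i, j)

lemma single_add_k (a b : ℕ) : (Pi.single 0 a + Pi.single 1 b : Fin 2 → ℕ) = ![a, b] := by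
  funext k
  fin_cases k <;> simp

lemma XX_hom_k {ι : Type} (F : MvPolynomial ι ℂ) (i j : ι) :
    IsWeightedHomogeneous ((hyp F).mdeg 2)
      (MvPolynomial.X (0, i) * MvPolynomial.X (1, j) : Coord ι 2) ![1, 1] := by
  have h := (X_hom_k F 0 i).mul (X_hom_k F 1 j)
  rwa [single_add_k] at h

lemma mn_hom_k {ι : Type} (F : MvPolynomial ι ℂ) (i j : ι) :
    IsWeightedHomogeneous ((hyp F).mdeg 2) (mn i j : Coord ι 2) ![1, 1] := by
  have h := (X_hom_k F 1 i).mul (X_hom_k F 0 j)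
  rw [add_comm, single_add_k] at h
  exact (XX_hom_k F i j).sub h

/-- an element of positive order is in the point -/
lemma mem_of_ordAt {R : Type} [CommRing R] {P Q : Ideal R} [Q.IsPrime] {g : R} {n : ℕ}
    (h : ordAt P Q g = (n : ℕ)) (hn : n ≠ 0) : g ∈ Q := by
  by_contra hg
  rw [ordAt_eq_zero hg] at h
  exact hn (by exact_mod_cast h.symm)

namespace BData

variable {ι : Type} [Fintype ι] [DecidableEq ι] (S : BData ι)

/-- the points of codimension one of `pU` on `x_s y_s = 0` -/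
lemma cases_B (Q : Pt (hyp S.F) 2) (hc : CodimOne S.pU.I Q.I)
    (h : (MvPolynomial.X (0, S.s) : Coord ι 2) ∈ Q.I ∨
      (MvPolynomial.X (1, S.s) : Coord ι 2) ∈ Q.I) :
    Q = S.E0 0 ∨ Q = S.E0 1 ∨ Q = S.E1 0 ∨ Q = S.E1 1 ∨ Q = S.D1 ∨ ∃ k, Q = S.D2 k := by
  rcases S.clb Q.I hc.1.le h with ⟨i, h⟩ | ⟨i, h⟩ | h | ⟨k, h⟩
  · fin_cases i
    · exact Or.inl (eq_of_codimOne_k _ S.ord_E0'.1 hc h)
    · exact Or.inr (Or.inl (eq_of_codimOne_k _ S.ord_E0.1 hc h))
  · fin_cases i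
    · exact Or.inr (Or.inr (Or.inl (eq_of_codimOne_k _ S.ord_E1'.1 hc h)))
    · exact Or.inr (Or.inr (Or.inr (Or.inl (eq_of_codimOne_k _ S.ord_E1.1 hc h))))
  · exact Or.inr (Or.inr (Or.inr (Or.inr (Or.inl (eq_of_codimOne_k _ S.ord_D1.1 hc h)))))
  · exact Or.inr (Or.inr (Or.inr (Or.inr (Or.inr ⟨k, eq_of_codimOne_k _ (S.ord_D2 k).1 hc h⟩))))

lemma ord_mul_B {Q : Pt (hyp S.F) 2} (hc : CodimOne S.pU.I Q.I) :
    (ordAt S.pU.I Q.I (MvPolynomial.X (0, S.s) * MvPolynomial.X (1, S.s))).toNat =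
      (ordAt S.pU.I Q.I (MvPolynomial.X (0, S.s))).toNat +
        (ordAt S.pU.I Q.I (MvPolynomial.X (1, S.s))).toNat :=
  toNat_ordAt_mul hc (S.X_pU 0 S.sK) (S.X_pU 1 S.sK)

open Classical in
/-- the sum over the factors of the last part -/
lemma sum_D2 (k : Fin S.T) :
    ∑ i, (S.a i : ℤ) * (if S.D2 i = S.D2 k then 1 else 0) = S.a k := by
  rw [Finset.sum_eq_single k]
  · rw [if_pos rfl, mul_one]
  · intro i _ hi
    rw [if_neg (fun h => hi (S.D2_ne.1 h)), mul_zero]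
  · intro h
    exact absurd (Finset.mem_univ k) h

open Classical in
lemma sum_D2_zero {Q : Pt (hyp S.F) 2} (h : ∀ k, S.D2 k ≠ Q) :
    ∑ i, (S.a i : ℤ) * (if S.D2 i = Q then 1 else 0) = 0 := by
  refine Finset.sum_eq_zero fun k _ => ?_
  rw [if_neg (h k), mul_zero]

open Classical in
theorem relB : Finsupp.single S.D0 1 + (S.m + 1) • Finsupp.single S.D1 1 -
    (S.m + 2) • ∑ k, S.a k • Finsupp.single (S.D2 k) 1 -
    (Finsupp.single (S.E0 1) 1 + Finsupp.single (S.E0 0) 1) -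
    (S.m + 2) • (Finsupp.single (S.E1 1) 1 + Finsupp.single (S.E1 0) 1 : Cycles (hyp S.F) 2) ∈
      RatZero (hyp S.F) 2 := by
  have hXX : (MvPolynomial.X (0, S.s) * MvPolynomial.X (1, S.s) : Coord ι 2) ∉ S.pU.I := by
    intro h
    rcases Ideal.IsPrime.mem_or_mem (I := S.pU.I) inferInstance h with h1 | h1
    · exact S.X_pU 0 S.sK h1
    · exact S.X_pU 1 S.sK h1
  refine AddSubgroup.subset_closure ⟨S.pU, S.MM,
    MvPolynomial.X (0, S.s) * MvPolynomial.X (1, S.s), ![1, 1], mn_hom_k S.F S.be S.s,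
    XX_hom_k S.F S.s S.s, S.MM_pU, hXX, ?_⟩
  intro Q
  have hL : (Finsupp.single S.D0 1 + (S.m + 1) • Finsupp.single S.D1 1 -
      (S.m + 2) • ∑ k, S.a k • Finsupp.single (S.D2 k) 1 -
      (Finsupp.single (S.E0 1) 1 + Finsupp.single (S.E0 0) 1) -
      (S.m + 2) • (Finsupp.single (S.E1 1) 1 + Finsupp.single (S.E1 0) 1) :
        Cycles (hyp S.F) 2) Q =
      (if S.D0 = Q then 1 else 0) + ((S.m + 1 : ℕ) : ℤ) * (if S.D1 = Q then 1 else 0) -
        ((S.m + 2 : ℕ) : ℤ) * ∑ k, (S.a k : ℤ) * (if S.D2 k = Q then 1 else 0) -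
        ((if S.E0 1 = Q then 1 else 0) + (if S.E0 0 = Q then 1 else 0)) -
        ((S.m + 2 : ℕ) : ℤ) * ((if S.E1 1 = Q then 1 else 0) +
          (if S.E1 0 = Q then 1 else 0)) := by
    simp only [Finsupp.smul_apply, Finsupp.sub_apply, Finsupp.add_apply, Finsupp.finsetSum_apply,
      Finsupp.single_apply, nsmul_eq_mul]
  rw [hL]
  by_cases hc : CodimOne S.pU.I Q.I
  · rw [if_pos hc, ord_mul_B S hc]
    by_cases h1 : (MvPolynomial.X (0, S.s) : Coord ι 2) ∈ Q.I ∨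
      (MvPolynomial.X (1, S.s) : Coord ι 2) ∈ Q.I
    · rcases S.cases_B Q hc h1 with rfl | rfl | rfl | rfl | rfl | ⟨k, rfl⟩
      · obtain ⟨-, o1, o2, o3⟩ := S.ord_E0'
        rw [o1, o2, ordAt_eq_zero o3, if_neg (S.D0_ne.2.2.1 0), if_neg (S.D1_ne.2.1 0),
          S.sum_D2_zero (fun k => S.D2_ne.2.1 k 0), if_neg S.E_ne.1.symm, if_pos rfl,
          if_neg (S.E_ne.2.2 0 1).symm, if_neg (S.E_ne.2.2 0 0).symm]
        simp only [ENat.toNat_natCast, ENat.toNat_zero]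
        push_cast
        ring
      · obtain ⟨-, o1, o3⟩ := S.ord_E0
        rw [o1, S.ord_E0_MM, ordAt_eq_zero o3, if_neg (S.D0_ne.2.2.1 1), if_neg (S.D1_ne.2.1 1),
          S.sum_D2_zero (fun k => S.D2_ne.2.1 k 1), if_pos rfl, if_neg S.E_ne.1,
          if_neg (S.E_ne.2.2 1 1).symm, if_neg (S.E_ne.2.2 1 0).symm]
        simp only [ENat.toNat_natCast, ENat.toNat_zero]
        push_cast
        ring
      · obtain ⟨-, o1, o2, o3⟩ := S.ord_E1'
        rw [o1, o2, o3, if_neg (S.D0_ne.2.2.2 0), if_neg (S.D1_ne.2.2 0),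
          S.sum_D2_zero (fun k => S.D2_ne.2.2 k 0), if_neg (S.E_ne.2.2 1 0),
          if_neg (S.E_ne.2.2 0 0), if_neg S.E_ne.2.1.symm, if_pos rfl]
        simp only [ENat.toNat_natCast]
        push_cast
        ring
      · obtain ⟨-, o1, o2, o3⟩ := S.ord_E1
        rw [o1, o2, o3, if_neg (S.D0_ne.2.2.2 1), if_neg (S.D1_ne.2.2 1),
          S.sum_D2_zero (fun k => S.D2_ne.2.2 k 1), if_neg (S.E_ne.2.2 1 1),
          if_neg (S.E_ne.2.2 0 1), if_pos rfl, if_neg S.E_ne.2.1]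
        simp only [ENat.toNat_natCast]
        push_cast
        ring
      · obtain ⟨-, o1, o2, o3⟩ := S.ord_D1
        rw [o1, o2, o3, if_neg S.D0_ne.1, if_pos rfl,
          S.sum_D2_zero (fun k => (S.D1_ne.1 k).symm), if_neg (S.D1_ne.2.1 1).symm,
          if_neg (S.D1_ne.2.1 0).symm, if_neg (S.D1_ne.2.2 1).symm, if_neg (S.D1_ne.2.2 0).symm]
        simp only [ENat.toNat_natCast]
        push_cast
        ring
      · obtain ⟨-, o1, o2, o3⟩ := S.ord_D2 k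
        rw [o1, o2, o3, if_neg (S.D0_ne.2.1 k), if_neg (S.D1_ne.1 k), S.sum_D2 k,
          if_neg (S.D2_ne.2.1 k 1).symm, if_neg (S.D2_ne.2.1 k 0).symm,
          if_neg (S.D2_ne.2.2 k 1).symm, if_neg (S.D2_ne.2.2 k 0).symm]
        simp only [ENat.toNat_natCast]
        push_cast
        ring
    · push Not at h1
      obtain ⟨h1, h1'⟩ := h1
      have e1 : S.D1 ≠ Q := by
        rintro rfl
        exact h1 (mem_of_ordAt S.ord_D1.2.1 (by omega))
      have e2 : ∀ k, S.D2 k ≠ Q := by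
        rintro k rfl
        refine h1 (mem_of_ordAt (S.ord_D2 k).2.1 ?_)
        exact mul_ne_zero (by omega) (by have := S.ha k; omega)
      have e3 : S.E0 1 ≠ Q := by
        rintro rfl
        exact h1 (mem_of_ordAt S.ord_E0.2.1 (by omega))
      have e4 : S.E0 0 ≠ Q := by
        rintro rfl
        exact h1' (mem_of_ordAt S.ord_E0'.2.1 (by omega))
      have e5 : S.E1 1 ≠ Q := by
        rintro rfl
        exact h1 (mem_of_ordAt S.ord_E1.2.1 (by omega))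
      have e6 : S.E1 0 ≠ Q := by
        rintro rfl
        exact h1 (mem_of_ordAt S.ord_E1'.2.1 (by omega))
      rw [if_neg e1, S.sum_D2_zero e2, if_neg e3, if_neg e4, if_neg e5, if_neg e6,
        ordAt_eq_zero h1, ordAt_eq_zero h1']
      by_cases hM : S.MM ∈ Q.I
      · have hQ : Q = S.D0 := eq_of_codimOne_k _ S.ord_D0.1 hc (S.clb' Q.I hc.1.le h1 h1' hM)
        subst hQ
        rw [if_pos rfl, S.ord_D0.2.1]
        simp
      · have hQ : S.D0 ≠ Q := by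
          rintro rfl
          exact hM (mem_of_ordAt S.ord_D0.2.1 one_ne_zero)
        rw [if_neg hQ, ordAt_eq_zero hM]
        simp
  · have e0 : S.D0 ≠ Q := fun h => hc (h ▸ S.ord_D0.1)
    have e1 : S.D1 ≠ Q := fun h => hc (h ▸ S.ord_D1.1)
    have e2 : ∀ k, S.D2 k ≠ Q := fun k h => hc (h ▸ (S.ord_D2 k).1)
    have e3 : S.E0 1 ≠ Q := fun h => hc (h ▸ S.ord_E0.1)
    have e4 : S.E0 0 ≠ Q := fun h => hc (h ▸ S.ord_E0'.1)
    have e5 : S.E1 1 ≠ Q := fun h => hc (h ▸ S.ord_E1.1)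
    have e6 : S.E1 0 ≠ Q := fun h => hc (h ▸ S.ord_E1'.1)
    rw [if_neg hc, if_neg e0, if_neg e1, S.sum_D2_zero e2, if_neg e3, if_neg e4, if_neg e5,
      if_neg e6]
    simp

end BData

end Kp

end Pool.Agent.RCH
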