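import Pool.Agent.RCH.KpARel
import Pool.Agent.RCH.KpAE
import Pool.Agent.RCH.KpAC
import Pool.Agent.RCH.KpACLV
import Pool.Agent.RCH.KpAXY
import Pool.Agent.RCH.KpASym
import Pool.Agent.RCH.KpADis
import Pool.Agent.RCH.KpAsmB

/-!
# The relation (A): the fibre square of the projection from the vertex and the diagonal
-/

set_option autoImplicit false

open MvPolynomial

namespace Pool.Agent.RCH

namespace Kp

attribute [local instance] Pt.prime

lemma ordAt_pow_k {R : Type} [CommRing R] {P Q : Ideal R} [P.IsPrime] [Q.IsPrime] (h : P ≤ Q)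
    {g : R} (hg : g ∉ P) (n : ℕ) : ordAt P Q (g ^ n) = n * ordAt P Q g := by
  induction n with
  | zero =>
    rw [pow_zero, Nat.cast_zero, zero_mul]
    exact ordAt_eq_zero fun h1 => (Ideal.ne_top_iff_one Q).1 (Ideal.IsPrime.ne_top inferInstance) h1
  | succ n ih =>
    rw [pow_succ, ordAt_mul h _ hg, ih]
    push_cast
    ring

lemma X_pow_hom_k {ι : Type} (F : MvPolynomial ι ℂ) (i : Fin 2) (j : ι) (n : ℕ) :
    IsWeightedHomogeneous ((hyp F).mdeg 2) (MvPolynomial.X (i, j) ^ n : Coord ι 2)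
      (Pi.single i n) := by
  have h := (X_hom_k F i j).pow n
  rwa [← Pi.single_smul, smul_eq_mul, mul_one] at h

namespace AData

variable {ι : Type} [Fintype ι] [DecidableEq ι] (S : AData ι)

lemma dF_hom_k : IsWeightedHomogeneous ((hyp S.F).mdeg 2) (inFactor 2 0 S.dF)
    (Pi.single 0 (S.m + 2)) := by
  have h : IsWeightedHomogeneous (hyp S.F).wt S.dF (S.m + 2) := S.dF_homog
  exact inFactor_homogeneous (hyp S.F) (0 : Fin 2) h

/-- the points of codimension one of `pV` on `x_om y_om = 0` -/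
lemma cases_A (Q : Pt (hyp S.F) 2) (hc : CodimOne S.pV.I Q.I)
    (h4 : (MvPolynomial.X (0, S.om) : Coord ι 2) ∈ Q.I ∨
      (MvPolynomial.X (1, S.om) : Coord ι 2) ∈ Q.I) :
    Q = S.pE 1 ∨ Q = S.pE 0 ∨ ∃ k, Q = S.pC k := by
  rcases S.clv Q.I hc.1.le (Q.relevant 0) (Q.relevant 1) h4 with h | h | ⟨k, h⟩
  · exact Or.inl (eq_of_codimOne_k _ S.ord_E.1 hc h)
  · exact Or.inr (Or.inl (eq_of_codimOne_k _ S.ord_E'.1 hc h))
  · exact Or.inr (Or.inr ⟨k, eq_of_codimOne_k _ (S.ord_C k).1 hc h⟩)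

lemma ord_mul_A {Q : Pt (hyp S.F) 2} (hc : CodimOne S.pV.I Q.I) :
    (ordAt S.pV.I Q.I (MvPolynomial.X (0, S.om) * MvPolynomial.X (1, S.om))).toNat =
      (ordAt S.pV.I Q.I (MvPolynomial.X (0, S.om))).toNat +
        (ordAt S.pV.I Q.I (MvPolynomial.X (1, S.om))).toNat :=
  toNat_ordAt_mul hc (S.X_pV 0 S.halom.symm) (S.X_pV 1 S.halom.symm)

open Classical in
/-- the sum over the factors of the last part -/
lemma sum_C (k : Fin S.T) :
    ∑ i, (S.a i : ℤ) * (if S.pC i = S.pC k then 1 else 0) = S.a k := by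
  rw [Finset.sum_eq_single k]
  · rw [if_pos rfl, mul_one]
  · intro i _ hi
    rw [if_neg (fun h => hi (S.pC_inj h)), mul_zero]
  · intro h
    exact absurd (Finset.mem_univ k) h

open Classical in
lemma sum_C_zero {Q : Pt (hyp S.F) 2} (h : ∀ k, S.pC k ≠ Q) :
    ∑ i, (S.a i : ℤ) * (if S.pC i = Q then 1 else 0) = 0 := by
  refine Finset.sum_eq_zero fun k _ => ?_
  rw [if_neg (h k), mul_zero]

open Classical in
theorem relA : (S.m + 2) • (Finsupp.single S.pYD 1 - ∑ k, S.a k • Finsupp.single (S.pC k) 1 -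
    Finsupp.single (S.pE 1) 1 - Finsupp.single (S.pE 0) 1 : Cycles (hyp S.F) 2) ∈
      RatZero (hyp S.F) 2 := by
  have hN : (mn S.al S.om : Coord ι 2) ∉ S.pV.I := S.NN_pV S.halom.symm
  have hXX : (MvPolynomial.X (0, S.om) * MvPolynomial.X (1, S.om) : Coord ι 2) ∉ S.pV.I := by
    intro h
    rcases Ideal.IsPrime.mem_or_mem (I := S.pV.I) inferInstance h with h1 | h1
    · exact S.X_pV 0 S.halom.symm h1
    · exact S.X_pV 1 S.halom.symm h1
  have hXp : (MvPolynomial.X (0, S.om) ^ (S.m + 2) : Coord ι 2) ∉ S.pXD.I := fun h =>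
    S.X_pXD 0 S.om (Ideal.IsPrime.mem_of_pow_mem (I := S.pXD.I) inferInstance _ h)
  obtain ⟨cV, hV⟩ := exists_isDivisor (hyp S.F) S.pV hN hXX
  obtain ⟨cX, hX⟩ := exists_isDivisor (hyp S.F) S.pXD S.dF_pXD hXp
  have h1 : cV ∈ RatZero (hyp S.F) 2 :=
    AddSubgroup.subset_closure ⟨S.pV, _, _, ![1, 1], mn_hom_k S.F S.al S.om,
      XX_hom_k S.F S.om S.om, hN, hXX, hV⟩
  have h2 : cX ∈ RatZero (hyp S.F) 2 :=
    AddSubgroup.subset_closure ⟨S.pXD, _, _, _, S.dF_hom_k, X_pow_hom_k S.F 0 S.om (S.m + 2),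
      S.dF_pXD, hXp, hX⟩
  suffices h3 : (S.m + 2) • (Finsupp.single S.pYD 1 - ∑ k, S.a k • Finsupp.single (S.pC k) 1 -
      Finsupp.single (S.pE 1) 1 - Finsupp.single (S.pE 0) 1 : Cycles (hyp S.F) 2) =
      cV - cX by
    rw [h3]
    exact sub_mem h1 h2
  -- the coefficients
  ext Q
  have hL : ((S.m + 2) • (Finsupp.single S.pYD 1 - ∑ k, S.a k • Finsupp.single (S.pC k) 1 -
      Finsupp.single (S.pE 1) 1 - Finsupp.single (S.pE 0) 1 : Cycles (hyp S.F) 2)) Q =
      ((S.m + 2 : ℕ) : ℤ) * ((if S.pYD = Q then 1 else 0) -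
        ∑ k, (S.a k : ℤ) * (if S.pC k = Q then 1 else 0) -
        (if S.pE 1 = Q then 1 else 0) - (if S.pE 0 = Q then 1 else 0)) := by
    simp only [Finsupp.smul_apply, Finsupp.sub_apply, Finsupp.finsetSum_apply,
      Finsupp.single_apply, nsmul_eq_mul]
  rw [hL, Finsupp.sub_apply, hV Q, hX Q]
  by_cases h4 : (MvPolynomial.X (0, S.om) : Coord ι 2) ∉ Q.I ∧
      (MvPolynomial.X (1, S.om) : Coord ι 2) ∉ Q.I
  · -- away from `x_om y_om = 0`
    obtain ⟨h4, h4'⟩ := h4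
    have e1 : S.pYD ≠ Q := fun h => h4 (h ▸ S.X_pYD 0)
    have e2 : S.pE 1 ≠ Q := fun h => h4 (h ▸ S.X_pE 0 1)
    have e3 : S.pE 0 ≠ Q := fun h => h4 (h ▸ S.X_pE 0 0)
    have e4 : ∀ k, S.pC k ≠ Q := fun k h => h4 (h ▸ S.X_pC 0 k)
    have hd := S.dl Q h4 h4'
    have z1 : ordAt S.pV.I Q.I (MvPolynomial.X (0, S.om) * MvPolynomial.X (1, S.om)) = 0 := by
      refine ordAt_eq_zero fun h => ?_
      rcases Ideal.IsPrime.mem_or_mem (I := Q.I) inferInstance h with h1 | h1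
      · exact h4 h1
      · exact h4' h1
    have z2 : ordAt S.pXD.I Q.I (MvPolynomial.X (0, S.om) ^ (S.m + 2)) = 0 :=
      ordAt_eq_zero fun h => h4 (Ideal.IsPrime.mem_of_pow_mem (I := Q.I) inferInstance _ h)
    rw [if_neg e1, if_neg e2, if_neg e3, z1, z2, S.sum_C_zero e4]
    have hd' : ((if CodimOne S.pV.I Q.I then ((ordAt S.pV.I Q.I (mn S.al S.om)).toNat : ℤ)
        else 0)) =
        (if CodimOne S.pXD.I Q.I then ((ordAt S.pXD.I Q.I (inFactor 2 0 S.dF)).toNat : ℤ)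
          else 0) := by
      have := congrArg (fun n : ℕ => (n : ℤ)) hd
      simpa using this
    simp only [ENat.toNat_zero, Nat.cast_zero, sub_zero, mul_zero]
    rw [hd', sub_self]
  · -- on `x_om y_om = 0`
    have h4 : (MvPolynomial.X (0, S.om) : Coord ι 2) ∈ Q.I ∨
        (MvPolynomial.X (1, S.om) : Coord ι 2) ∈ Q.I := by
      by_contra hc
      push Not at hc
      exact h4 hc
    -- the divisor on `pXD`
    have hcX : (if CodimOne S.pXD.I Q.I then
        ((ordAt S.pXD.I Q.I (inFactor 2 0 S.dF)).toNat : ℤ) -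
        ((ordAt S.pXD.I Q.I (MvPolynomial.X (0, S.om) ^ (S.m + 2))).toNat : ℤ) else 0) =
        -(((S.m + 2 : ℕ) : ℤ) * (if S.pYD = Q then 1 else 0)) := by
      by_cases hc : CodimOne S.pXD.I Q.I
      · have hQ : Q = S.pYD :=
          eq_of_codimOne_k _ S.oxy.1 hc (S.clxy Q.I hc.1.le (Q.relevant 0) (Q.relevant 1) h4)
        subst hQ
        rw [if_pos hc, if_pos rfl, ordAt_eq_zero S.oxy.2.2,
          ordAt_pow_k hc.1.le (S.X_pXD 0 S.om), S.oxy.2.1, Nat.cast_one, mul_one, mul_one,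
          ENat.toNat_natCast, ENat.toNat_zero]
        simp
      · have hQ : S.pYD ≠ Q := fun h => hc (h ▸ S.oxy.1)
        rw [if_neg hc, if_neg hQ, mul_zero, neg_zero]
    -- the divisor on `pV`
    have hcV : (if CodimOne S.pV.I Q.I then ((ordAt S.pV.I Q.I (mn S.al S.om)).toNat : ℤ) -
        ((ordAt S.pV.I Q.I (MvPolynomial.X (0, S.om) * MvPolynomial.X (1, S.om))).toNat : ℤ)
          else 0) =
        -(((S.m + 2 : ℕ) : ℤ) *
          (∑ k, (S.a k : ℤ) * (if S.pC k = Q then 1 else 0) +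
          (if S.pE 1 = Q then 1 else 0) + (if S.pE 0 = Q then 1 else 0))) := by
      by_cases hc : CodimOne S.pV.I Q.I
      · rw [if_pos hc, ord_mul_A S hc]
        rcases S.cases_A Q hc h4 with rfl | rfl | ⟨k, rfl⟩
        · obtain ⟨-, o1, o2, o3⟩ := S.ord_E
          rw [o1, o2, o3, S.sum_C_zero (fun k => (S.pE_ne.2 1 k).symm), if_pos rfl,
            if_neg S.pE_ne.1]
          simp only [ENat.toNat_natCast]
          push_cast
          ring
        · obtain ⟨-, o1, o2, o3⟩ := S.ord_E'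
          rw [o1, o2, o3, S.sum_C_zero (fun k => (S.pE_ne.2 0 k).symm), if_pos rfl,
            if_neg S.pE_ne.1.symm]
          simp only [ENat.toNat_natCast]
          push_cast
          ring
        · obtain ⟨-, o1, o2, o3⟩ := S.ord_C k
          rw [o1, o2, o3, S.sum_C k, if_neg (S.pE_ne.2 1 k), if_neg (S.pE_ne.2 0 k)]
          simp only [ENat.toNat_natCast]
          push_cast
          ring
      · have e2 : S.pE 1 ≠ Q := fun h => hc (h ▸ S.ord_E.1)
        have e3 : S.pE 0 ≠ Q := fun h => hc (h ▸ S.ord_E'.1)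
        have e4 : ∀ k, S.pC k ≠ Q := fun k h => hc (h ▸ (S.ord_C k).1)
        rw [if_neg hc, S.sum_C_zero e4, if_neg e2, if_neg e3]
        ring
    rw [hcX, hcV]
    ring

end AData

end Kp

end Pool.Agent.RCH
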