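import Pool.Agent.RCH.KpAPts
import Pool.Agent.RCH.KpJac2

/-!
# Relation (A) at the points `pC k`: members, non-members, derivatives
-/

set_option autoImplicit false

open MvPolynomial

namespace Pool.Agent.RCH

namespace Kp

attribute [local instance] Pt.prime

/-- the derivatives of a polynomial in the coordinates of one point -/
lemma ac_pderiv_inFactor {ι : Type} (i : Fin 2) (j : ι) (p : MvPolynomial ι ℂ) :
    pderiv (i, j) (inFactor 2 i p) = inFactor 2 i (pderiv j p) := by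
  have hinj : Function.Injective (fun j : ι => ((i, j) : Fin 2 × ι)) :=
    fun a b hab => (Prod.mk.inj hab).2
  exact pderiv_rename hinj j p

lemma ac_pderiv_inFactor_ne {ι : Type} {i i' : Fin 2} (h : i' ≠ i) (j : ι)
    (p : MvPolynomial ι ℂ) : pderiv (i', j) (inFactor 2 i p) = 0 := by
  classical
  apply pderiv_eq_zero_of_notMem_vars
  intro hv
  have h1 := vars_rename (fun j : ι => ((i, j) : Fin 2 × ι)) p hv
  rw [Finset.mem_image] at h1
  obtain ⟨l, -, hl⟩ := h1
  exact h (Prod.mk.inj hl).1.symm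

namespace AData

variable {ι : Type} [Fintype ι] [DecidableEq ι] (S : AData ι)

/-! ### The relation for two points on a line through the vertex -/

section values

variable {L : Type} [CommRing L] (c : ℂ →+* L)

lemma ac_rel_one (x y : ι → L) (u v : L) (h : ∀ j, j ≠ S.al → v * y j = u * x j) :
    u ^ (S.m + 3) * eval₂Hom c x S.F - v ^ (S.m + 3) * eval₂Hom c y S.F =
      (u * x S.al - v * y S.al) * (u * x S.s) ^ (S.m + 2) +
        u * x S.om * (u ^ (S.m + 2) * eval₂Hom c x S.P - v ^ (S.m + 2) * eval₂Hom c y S.P) := by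
  have hg : eval₂Hom c (fun j => v * y j) S.g = eval₂Hom c (fun j => u * x j) S.g :=
    ev_congr _ _ fun j hj => h j (S.hgv j hj).1
  have ht : eval₂Hom c (fun j => v * y j) S.tau = eval₂Hom c (fun j => u * x j) S.tau :=
    ev_congr _ _ fun j hj => h j (S.tau_vars hj).1
  have e1 : u ^ (S.m + 3) * eval₂Hom c x S.F = (u * x S.al) * (u * x S.s) ^ (S.m + 2) +
      (u * x S.s * eval₂Hom c (fun j => u * x j) S.g + eval₂Hom c (fun j => u * x j) S.tau) +
      u * x S.om * (u ^ (S.m + 2) * eval₂Hom c x S.P) := by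
    rw [← ev_smul c x S.F_homog u, ← ev_smul c x S.hP u, F_ev, f0_ev]
  have e2 : v ^ (S.m + 3) * eval₂Hom c y S.F = (v * y S.al) * (v * y S.s) ^ (S.m + 2) +
      (v * y S.s * eval₂Hom c (fun j => v * y j) S.g + eval₂Hom c (fun j => v * y j) S.tau) +
      v * y S.om * (v ^ (S.m + 2) * eval₂Hom c y S.P) := by
    rw [← ev_smul c y S.F_homog v, ← ev_smul c y S.hP v, F_ev, f0_ev]
  rw [e1, e2, hg, ht, h S.s S.hals.symm, h S.om S.halom.symm]
  ring

/-- the values of `g` at two points on a line through the vertex -/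
lemma ac_rel_g (x y : ι → L) (u v : L) (h : ∀ j, j ≠ S.al → v * y j = u * x j) :
    u ^ (S.m + 2) * eval₂Hom c x S.g = v ^ (S.m + 2) * eval₂Hom c y S.g := by
  rw [← ev_smul c x S.hgh u, ← ev_smul c y S.hgh v]
  exact ev_congr _ _ fun j hj => (h j (S.hgv j hj).1).symm

end values

/-! ### Homomorphisms which kill the ideal of `pC k` -/

lemma ac_kill (k : Fin S.T) {L : Type} [CommRing L] (φ : Coord ι 2 →+* L) (w : L) (hw : IsUnit w)
    (hs : ∀ i, xs φ i S.s = 0) (ho : ∀ i, xs φ i S.om = 0)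
    (hq : eval₂Hom (cs φ) (xs φ 1) (S.q k) = 0)
    (hpr : ∀ j, j ≠ S.al → xs φ 0 j = xs φ 1 j * w) {z : Coord ι 2} (hz : z ∈ (S.pC k).I) :
    φ z = 0 := by
  refine kill_dD φ 1 0 (by decide) w hw ?_ hq ?_ hz
  · intro i j hj
    rw [Finset.mem_insert, Finset.mem_singleton] at hj
    rcases hj with rfl | rfl
    · exact hs i
    · exact ho i
  · intro j _ hj
    exact hpr j fun h => hj (Finset.mem_singleton.2 h)

/-! ### The generic point -/

section gen

variable (k : Fin S.T)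

/-- the ring of the polynomials modulo `q k` -/
abbrev ACR : Type := MvPolynomial ι ℂ ⧸ Ideal.span {S.q k}

lemma ac_domain : IsDomain (S.ACR k) := by
  rw [Ideal.Quotient.isDomain_iff_prime, Ideal.span_singleton_prime (S.hqp k).ne_zero]
  exact S.hqp k

lemma ac_mk_eq_zero (p : MvPolynomial ι ℂ) :
    (Ideal.Quotient.mk (Ideal.span {S.q k}) p : S.ACR k) = 0 ↔ S.q k ∣ p := by
  rw [Ideal.Quotient.eq_zero_iff_mem, Ideal.mem_span_singleton]

/-- the generic point of `q k = 0` with zero coordinates `s` and `om` -/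
noncomputable def acE (j : ι) : S.ACR k :=
  if j = S.s ∨ j = S.om then 0 else Ideal.Quotient.mk _ (MvPolynomial.X j)

omit [DecidableEq ι] in
lemma ac_ev_mk [DecidableEq ι] {A : Type} [CommRing A] [Algebra ℂ A] (f : MvPolynomial ι ℂ →ₐ[ℂ] A)
    (p : MvPolynomial ι ℂ) :
    eval₂Hom (algebraMap ℂ A) (fun j => f (MvPolynomial.X j)) p = f p := by
  have h : (aeval (fun j => f (MvPolynomial.X j)) : MvPolynomial ι ℂ →ₐ[ℂ] A) = f := by
    ext j
    simp
  exact congrArg (fun ψ : MvPolynomial ι ℂ →ₐ[ℂ] A => ψ p) h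

lemma ac_ev {p : MvPolynomial ι ℂ} (hp : ∀ j ∈ p.vars, j ≠ S.s ∧ j ≠ S.om) :
    eval₂Hom (algebraMap ℂ (S.ACR k)) (S.acE k) p = Ideal.Quotient.mk _ p := by
  have h := ac_ev_mk (Ideal.Quotient.mkₐ ℂ (Ideal.span {S.q k})) p
  rw [Ideal.Quotient.mkₐ_eq_mk] at h
  rw [← h]
  refine ev_congr _ _ fun j hj => ?_
  exact if_neg fun hc => hc.elim (hp j hj).1 (hp j hj).2

lemma ac_ev_q : eval₂Hom (algebraMap ℂ (S.ACR k)) (S.acE k) (S.q k) = 0 := by
  rw [ac_ev S k fun j hj => (S.hqv k j hj).2, ac_mk_eq_zero]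

lemma ac_ev_g : eval₂Hom (algebraMap ℂ (S.ACR k)) (S.acE k) S.g ≠ 0 := by
  intro h0
  apply S.hgq k
  have hle : Ideal.span {S.q k} ≤ Ideal.span {MvPolynomial.X S.s, S.q k} :=
    Ideal.span_mono (by simp)
  have h1 := map_ev (algebraMap ℂ (S.ACR k)) (S.acE k) (Ideal.Quotient.factor hle) S.g
  rw [h0, map_zero] at h1
  have h := ac_ev_mk (Ideal.Quotient.mkₐ ℂ (Ideal.span {MvPolynomial.X S.s, S.q k})) S.g
  rw [Ideal.Quotient.mkₐ_eq_mk] at h
  rw [← Ideal.Quotient.eq_zero_iff_mem, ← h, h1]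
  have hc : (Ideal.Quotient.factor hle).comp (algebraMap ℂ (S.ACR k)) =
      algebraMap ℂ (MvPolynomial ι ℂ ⧸ Ideal.span {MvPolynomial.X S.s, S.q k}) := rfl
  rw [hc]
  refine ev_congr _ _ fun j hj => ?_
  by_cases hjs : j = S.s
  · subst hjs
    have h2 : S.acE k S.s = 0 := if_pos (Or.inl rfl)
    rw [h2, map_zero, Ideal.Quotient.eq_zero_iff_mem]
    exact Ideal.subset_span (by simp)
  · have h2 : S.acE k j = Ideal.Quotient.mk _ (MvPolynomial.X j) :=
      if_neg fun hc => hc.elim hjs (S.hgv j hj).2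
    rw [h2, Ideal.Quotient.factor_mk]

lemma acE_b : S.acE k (S.b k) ≠ 0 := by
  have h2 : S.acE k (S.b k) = Ideal.Quotient.mk _ (MvPolynomial.X (S.b k)) :=
    if_neg fun hc => hc.elim (S.hb k).2.1 (S.hb k).2.2
  rw [h2]
  intro h
  exact S.hbq k ((S.ac_mk_eq_zero k _).1 h)

/-- the generic pair of points of `pC k`, with coordinates `T` and `0` at the place `al` -/
noncomputable def acT : Coord ι 2 →+* Polynomial (S.ACR k) :=
  eval₂Hom (Polynomial.C.comp (algebraMap ℂ (S.ACR k)))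
    (pair (Function.update (fun j => Polynomial.C (S.acE k j)) S.al Polynomial.X)
      (Function.update (fun j => Polynomial.C (S.acE k j)) S.al 0))

lemma cs_acT : cs (L := Polynomial (S.ACR k)) (S.acT k) =
    Polynomial.C.comp (algebraMap ℂ (S.ACR k)) := by
  refine RingHom.ext fun a => ?_
  rw [cs, RingHom.comp_apply, acT, eval₂Hom_C]

lemma xs_acT_zero : xs (L := Polynomial (S.ACR k)) (S.acT k) 0 =
    Function.update (fun j => Polynomial.C (S.acE k j)) S.al Polynomial.X := by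
  funext j
  rw [xs, acT, eval₂Hom_X']
  rfl

lemma xs_acT_one : xs (L := Polynomial (S.ACR k)) (S.acT k) 1 =
    Function.update (fun j => Polynomial.C (S.acE k j)) S.al 0 := by
  funext j
  rw [xs, acT, eval₂Hom_X']
  rfl

lemma xs_acT_of_ne (i : Fin 2) {j : ι} (hj : j ≠ S.al) :
    xs (L := Polynomial (S.ACR k)) (S.acT k) i j = Polynomial.C (S.acE k j) := by
  have hi : i = 0 ∨ i = 1 := by omega
  rcases hi with rfl | rfl
  · rw [xs_acT_zero, Function.update_of_ne hj]
  · rw [xs_acT_one, Function.update_of_ne hj]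

lemma ac_ev_acT (i : Fin 2) {p : MvPolynomial ι ℂ} (hp : S.al ∉ p.vars) :
    S.acT k (inFactor 2 i p) =
      Polynomial.C (eval₂Hom (algebraMap ℂ (S.ACR k)) (S.acE k) p) := by
  rw [map_inFactor (L := Polynomial (S.ACR k)) (S.acT k), cs_acT, map_ev (L := S.ACR k) (L' := Polynomial (S.ACR k))
    (algebraMap ℂ (S.ACR k)) (S.acE k) Polynomial.C p]
  refine ev_congr _ _ fun j hj => ?_
  exact S.xs_acT_of_ne k i fun h => hp (h ▸ hj)

lemma ac_kill_acT {z : Coord ι 2} (hz : z ∈ (S.pC k).I) : S.acT k z = 0 := by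
  refine S.ac_kill k (L := Polynomial (S.ACR k)) (S.acT k) 1 isUnit_one ?_ ?_ ?_ ?_ hz
  · intro i
    rw [xs_acT_of_ne S k i S.hals.symm, acE, if_pos (Or.inl rfl), map_zero]
  · intro i
    rw [xs_acT_of_ne S k i S.halom.symm, acE, if_pos (Or.inr rfl), map_zero]
  · rw [← map_inFactor (L := Polynomial (S.ACR k)) (S.acT k), ac_ev_acT S k 1 (fun h => (S.hqv k _ h).1 rfl), ac_ev_q, map_zero]
  · intro j hj
    rw [xs_acT_of_ne S k 0 hj, xs_acT_of_ne S k 1 hj, mul_one]

/-! ### Non-members -/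

lemma ac_b_notMem (i : Fin 2) : (MvPolynomial.X (i, S.b k) : Coord ι 2) ∉ (S.pC k).I := by
  intro h
  have h1 : xs (L := Polynomial (S.ACR k)) (S.acT k) i (S.b k) = 0 := S.ac_kill_acT k h
  rw [xs_acT_of_ne S k i (S.hb k).1] at h1
  exact S.acE_b k (Polynomial.C_eq_zero.1 h1)

lemma ac_g_notMem (i : Fin 2) : inFactor 2 i S.g ∉ (S.pC k).I := by
  intro h
  have h1 := S.ac_kill_acT k h
  rw [ac_ev_acT S k i (fun h => (S.hgv _ h).1 rfl)] at h1
  exact S.ac_ev_g k (Polynomial.C_eq_zero.1 h1)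

lemma ac_mn_notMem : mn S.al (S.b k) ∉ (S.pC k).I := by
  have := S.ac_domain k
  intro h
  have h1 := S.ac_kill_acT k h
  rw [map_mn (L := Polynomial (S.ACR k)) (S.acT k), xs_acT_of_ne S k 1 (S.hb k).1, xs_acT_of_ne S k 0 (S.hb k).1, xs_acT_zero,
    xs_acT_one, Function.update_self, Function.update_self, zero_mul, sub_zero] at h1
  exact mul_ne_zero Polynomial.X_ne_zero (fun h => S.acE_b k (Polynomial.C_eq_zero.1 h)) h1

lemma ac_lc : algebraMap ℂ (S.ACR k) S.lc ≠ 0 := by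
  have := S.ac_domain k
  exact ((isUnit_iff_ne_zero.2 S.hPc : IsUnit S.lc).map (algebraMap ℂ (S.ACR k))).ne_zero

lemma ac_RR_notMem : S.RR (S.b k) ∉ (S.pC k).I := by
  have := S.ac_domain k
  intro h
  have h1 := S.ac_kill_acT k h
  have e0 : S.acT k (MvPolynomial.X (0, S.b k)) = Polynomial.C (S.acE k (S.b k)) :=
    S.xs_acT_of_ne k 0 (S.hb k).1
  have e1 : S.acT k (MvPolynomial.X (1, S.b k)) = Polynomial.C (S.acE k (S.b k)) :=
    S.xs_acT_of_ne k 1 (S.hb k).1
  have e2 : S.acT k (inFactor 2 0 S.P) =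
      polF (algebraMap ℂ (S.ACR k)) (S.acE k) S.al S.P := by
    rw [map_inFactor (L := Polynomial (S.ACR k)) (S.acT k), cs_acT, xs_acT_zero, polF]
  have e3 : S.acT k (inFactor 2 1 S.P) = Polynomial.C (eval₂Hom (algebraMap ℂ (S.ACR k))
      (Function.update (S.acE k) S.al 0) S.P) := by
    rw [map_inFactor (L := Polynomial (S.ACR k)) (S.acT k), cs_acT, xs_acT_one, map_ev (L := S.ACR k)
      (L' := Polynomial (S.ACR k)) (algebraMap ℂ (S.ACR k)) _ Polynomial.C S.P]
    refine ev_congr _ _ fun j _ => ?_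
    by_cases hj : j = S.al
    · subst hj
      rw [Function.update_self, Function.update_self, map_zero]
    · rw [Function.update_of_ne hj, Function.update_of_ne hj]
  rw [RR, map_sub, map_mul, map_mul, map_pow, map_pow, e0, e1, e2, e3, ← map_pow] at h1
  have h2 := congrArg (fun p => Polynomial.coeff p (S.m + 2)) h1
  simp only [Polynomial.coeff_sub, Polynomial.coeff_C_mul, Polynomial.coeff_zero] at h2
  rw [coeff_polF (algebraMap ℂ (S.ACR k)) (S.acE k) S.al S.hP,
    Polynomial.coeff_C_ne_zero (by omega), mul_zero, sub_zero] at h2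
  exact mul_ne_zero (pow_ne_zero _ (S.acE_b k)) (S.ac_lc k) h2

lemma ac_q_notMem {j : Fin S.T} (hj : j ≠ k) (i : Fin 2) : inFactor 2 i (S.q j) ∉ (S.pC k).I := by
  intro h
  have h1 := S.ac_kill_acT k h
  rw [ac_ev_acT S k i (fun h => (S.hqv j _ h).1 rfl),
    ac_ev S k (fun l hl => (S.hqv j l hl).2)] at h1
  exact S.hqn k j (Ne.symm hj) ((S.ac_mk_eq_zero k _).1 (Polynomial.C_eq_zero.1 h1))

omit [Fintype ι] [DecidableEq ι] in
lemma ac_vars_pderiv {p : MvPolynomial ι ℂ} {j l : ι} (h : l ∈ (pderiv j p).vars) :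
    l ∈ p.vars := by
  classical
  rw [mem_vars_iff_mem_support] at h ⊢
  obtain ⟨d, hd, hl⟩ := h
  rw [mem_support_iff, coeff_pderiv] at hd
  refine ⟨d + Finsupp.single j 1, ?_, ?_⟩
  · rw [mem_support_iff]
    intro h0
    rw [h0] at hd
    simp at hd
  · rw [Finsupp.mem_support_iff] at hl ⊢
    rw [Finsupp.add_apply]
    omega

/-- a derivative of `q k` which is not in the ideal -/
lemma ac_exists_pderiv : ∃ j, inFactor 2 0 (pderiv j (S.q k)) ∉ (S.pC k).I := by
  by_contra hcon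
  push Not at hcon
  have h0 : ∀ j, pderiv j (S.q k) = 0 := by
    intro j
    have h1 := S.ac_kill_acT k (hcon j)
    rw [ac_ev_acT S k 0 (fun h => (S.hqv k _ (ac_vars_pderiv h)).1 rfl),
      ac_ev S k (fun l hl => (S.hqv k l (ac_vars_pderiv hl)).2), Polynomial.C_eq_zero,
      ac_mk_eq_zero] at h1
    by_contra hne
    obtain ⟨c, hc⟩ := h1
    have hc0 : c ≠ 0 := by
      rintro rfl
      rw [mul_zero] at hc
      exact hne hc
    have hd1 : (pderiv j (S.q k)).IsHomogeneous (S.e k - 1) := (S.hqh k).pderiv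
    have h2 := congrArg totalDegree hc
    rw [totalDegree_mul_of_isDomain (S.hqp k).ne_zero hc0, (S.hqh k).totalDegree (S.hqp k).ne_zero,
      hd1.totalDegree hne] at h2
    have he : S.e k = 0 := by omega
    have h3 : (S.q k).IsHomogeneous 0 := he ▸ S.hqh k
    rw [h3.totalDegree (S.hqp k).ne_zero |> totalDegree_eq_zero_iff_eq_C.1] at hne
    exact hne pderiv_C
  have he := (S.hqh k).sum_X_mul_pderiv
  rw [Finset.sum_eq_zero (fun j _ => by rw [h0 j, mul_zero])] at he
  have he0 : S.e k = 0 := by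
    rw [nsmul_eq_mul, eq_comm] at he
    have h4 := (mul_eq_zero.1 he).resolve_right (S.hqp k).ne_zero
    exact_mod_cast h4
  have h3 : (S.q k).IsHomogeneous 0 := he0 ▸ S.hqh k
  have h5 := totalDegree_eq_zero_iff_eq_C.1 (h3.totalDegree (S.hqp k).ne_zero)
  have h6 : coeff 0 (S.q k) ≠ 0 := by
    intro h7
    rw [h7, map_zero] at h5
    exact (S.hqp k).ne_zero h5
  apply (S.hqp k).not_isUnit
  rw [h5]
  exact (isUnit_iff_ne_zero.2 h6).map (C : ℂ →+* MvPolynomial ι ℂ)

/-! ### Members -/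

lemma ac_s_mem (i : Fin 2) : (MvPolynomial.X (i, S.s) : Coord ι 2) ∈ (S.pC k).I := by
  have h : (MvPolynomial.X (i, S.s) : Coord ι 2) ∈
      genIdeal (hyp S.F) (dD 1 {S.s, S.om} {S.al} (S.q k)) := by
    rw [X_mem_gen]
    exact if_pos (Finset.mem_insert_self _ _)
  exact h

lemma ac_om_mem (i : Fin 2) : (MvPolynomial.X (i, S.om) : Coord ι 2) ∈ (S.pC k).I := by
  have h : (MvPolynomial.X (i, S.om) : Coord ι 2) ∈
      genIdeal (hyp S.F) (dD 1 {S.s, S.om} {S.al} (S.q k)) := by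
    rw [X_mem_gen]
    exact if_pos (Finset.mem_insert_of_mem (Finset.mem_singleton_self _))
  exact h

lemma ac_q_mem (i : Fin 2) : inFactor 2 i (S.q k) ∈ (S.pC k).I := by
  have h : inFactor 2 i (S.q k) ∈
      genIdeal (hyp S.F) (dD 1 {S.s, S.om} {S.al} (S.q k)) := by
    have hw : IsWeightedHomogeneous (hyp S.F).wt (S.q k) (S.e k) := S.hqh k
    rw [mem_genIdeal_of_homogeneous (hyp S.F) _ (inFactor_homogeneous (hyp S.F) i hw),
      inFactor_aeval]
    exact h_dD (S.admC k) 1 i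
  exact h

omit [Fintype ι] [DecidableEq ι] in
lemma ac_mn_homog (F : MvPolynomial ι ℂ) (i j : ι) :
    IsWeightedHomogeneous ((hyp F).mdeg 2) (mn i j : Coord ι 2) (1 : Fin 2 → ℕ) := by
  have hX : ∀ v : Fin 2 × ι, IsWeightedHomogeneous ((hyp F).mdeg 2)
      (MvPolynomial.X v : Coord ι 2) ((hyp F).mdeg 2 v) := fun v => isWeightedHomogeneous_X ℂ _ v
  have e : ∀ i j : ι, (hyp F).mdeg 2 (0, i) + (hyp F).mdeg 2 (1, j) = (1 : Fin 2 → ℕ) := by
    intro i j
    funext k
    fin_cases k <;> simp [WVar.mdeg]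
  refine IsWeightedHomogeneous.sub ?_ ?_
  · have h := (hX (0, i)).mul (hX (1, j))
    rwa [e] at h
  · have h := (hX (1, i)).mul (hX (0, j))
    rwa [add_comm, e] at h

lemma ac_minor_mem {i j : ι} (hi : i ≠ S.al) (hj : j ≠ S.al) : mn i j ∈ (S.pC k).I := by
  have h : mn i j ∈ genIdeal (hyp S.F) (dD 1 {S.s, S.om} {S.al} (S.q k)) := by
    rw [mem_gen S.F _ (ac_mn_homog S.F i j), mn, map_sub, map_mul, map_mul, aeval_X, aeval_X,
      aeval_X, aeval_X]
    have key : ∀ l, l ≠ S.al → dD 1 {S.s, S.om} {S.al} (S.q k) (0, l) =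
        dD 1 {S.s, S.om} {S.al} (S.q k) (1, l) := by
      intro l hl
      simp only [dD]
      by_cases h1 : l ∈ ({S.s, S.om} : Finset ι)
      · rw [if_pos h1, if_pos h1]
      · rw [if_neg h1, if_neg h1, if_neg (fun h => hl (Finset.mem_singleton.1 h)),
          if_neg (fun h => hl (Finset.mem_singleton.1 h))]
    rw [key i hi, key j hj]
    ring
  exact h

end gen

end AData

end Kp

end Pool.Agent.RCH
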