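import Pool.Agent.RCH.LnRings

/-!
# The degree and the leading coefficient of the equation as a polynomial in `x_0`
-/

set_option autoImplicit false

open MvPolynomial

namespace Pool.Agent.RCH

namespace LnData

variable (S : LnData)

section lead

variable {L : Type} [CommRing L] (c : ℂ →+* L) (e : Fin 5 → L)

lemma eval₂_monomial_X (s : Fin 5 →₀ ℕ) (a : ℂ) :
    eval₂Hom (Polynomial.C.comp c) ![Polynomial.X, Polynomial.C (e 1), Polynomial.C (e 2),
      Polynomial.C (e 3), Polynomial.C (e 4)] (monomial s a) =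
    Polynomial.C (c a * (e 1 ^ s 1 * e 2 ^ s 2 * e 3 ^ s 3 * e 4 ^ s 4)) * Polynomial.X ^ s 0 := by
  rw [eval₂Hom_monomial, Finsupp.prod_fintype _ _ (fun _ => pow_zero _), Fin.prod_univ_five]
  simp only [Matrix.cons_val, RingHom.comp_apply, ← Polynomial.C_pow, map_mul]
  ring

lemma sum_of_mem_support {s : Fin 5 →₀ ℕ} (hs : s ∈ S.P.support) :
    s 0 + s 1 + s 2 + s 3 + s 4 = S.m + 2 := by
  have h := S.hP (mem_support_iff.1 hs)
  rw [Finsupp.weight_apply, Finsupp.sum_fintype _ _ (by intro i; simp),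
    Fin.sum_univ_five] at h
  simpa using h

lemma Pv_eq_sum : eval₂Hom (Polynomial.C.comp c) ![Polynomial.X, Polynomial.C (e 1),
      Polynomial.C (e 2), Polynomial.C (e 3), Polynomial.C (e 4)] S.P =
    ∑ s ∈ S.P.support, Polynomial.C (c (coeff s S.P) *
      (e 1 ^ s 1 * e 2 ^ s 2 * e 3 ^ s 3 * e 4 ^ s 4)) * Polynomial.X ^ s 0 := by
  conv_lhs => rw [S.P.as_sum]
  rw [map_sum]
  exact Finset.sum_congr rfl fun s _ => eval₂_monomial_X c e s _

lemma natDegree_Pv_le : (eval₂Hom (Polynomial.C.comp c) ![Polynomial.X, Polynomial.C (e 1),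
      Polynomial.C (e 2), Polynomial.C (e 3), Polynomial.C (e 4)] S.P).natDegree ≤ S.m + 2 := by
  rw [Pv_eq_sum]
  refine Polynomial.natDegree_sum_le_of_forall_le _ _ fun s hs => ?_
  refine (Polynomial.natDegree_C_mul_X_pow_le _ _).trans ?_
  have := S.sum_of_mem_support hs
  omega

lemma coeff_Pv : (eval₂Hom (Polynomial.C.comp c) ![Polynomial.X, Polynomial.C (e 1),
      Polynomial.C (e 2), Polynomial.C (e 3), Polynomial.C (e 4)] S.P).coeff (S.m + 2) =
    c S.lc := by
  rw [Pv_eq_sum, Polynomial.finsetSum_coeff, lc]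
  conv_rhs => rw [S.P.as_sum]
  rw [map_sum, map_sum]
  refine Finset.sum_congr rfl fun s hs => ?_
  have hsum := S.sum_of_mem_support hs
  rw [Polynomial.coeff_C_mul_X_pow, eval_monomial, Finsupp.prod_fintype _ _ (fun _ => pow_zero _),
    Fin.prod_univ_five]
  simp only [Matrix.cons_val, one_pow, one_mul]
  by_cases h : S.m + 2 = s 0
  · have h1 : s 1 = 0 := by omega
    have h2 : s 2 = 0 := by omega
    have h3 : s 3 = 0 := by omega
    have h4 : s 4 = 0 := by omega
    rw [if_pos h, h1, h2, h3, h4]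
    simp
  · rw [if_neg h]
    have h5 : (0 : ℂ) ^ s 1 * 0 ^ s 2 * 0 ^ s 3 * 0 ^ s 4 = 0 := by
      rw [← pow_add, ← pow_add, ← pow_add]
      exact zero_pow (by omega)
    rw [h5, mul_zero, map_zero]

lemma Fp_eq : S.Fp c e = Polynomial.X * Polynomial.C (e 1 ^ (S.m + 2)) +
    Polynomial.C (S.phv c (e 2) (e 3) + e 1 * S.gv c (e 1) (e 2) (e 3)) +
    Polynomial.C (e 4) * eval₂Hom (Polynomial.C.comp c) ![Polynomial.X, Polynomial.C (e 1),
      Polynomial.C (e 2), Polynomial.C (e 3), Polynomial.C (e 4)] S.P := by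
  have e0 : (![Polynomial.X, Polynomial.C (e 1), Polynomial.C (e 2), Polynomial.C (e 3),
    Polynomial.C (e 4)] : Fin 5 → Polynomial L) 0 = Polynomial.X := rfl
  have e1 : (![Polynomial.X, Polynomial.C (e 1), Polynomial.C (e 2), Polynomial.C (e 3),
    Polynomial.C (e 4)] : Fin 5 → Polynomial L) 1 = Polynomial.C (e 1) := rfl
  have e2 : (![Polynomial.X, Polynomial.C (e 1), Polynomial.C (e 2), Polynomial.C (e 3),
    Polynomial.C (e 4)] : Fin 5 → Polynomial L) 2 = Polynomial.C (e 2) := rfl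
  have e3 : (![Polynomial.X, Polynomial.C (e 1), Polynomial.C (e 2), Polynomial.C (e 3),
    Polynomial.C (e 4)] : Fin 5 → Polynomial L) 3 = Polynomial.C (e 3) := rfl
  have e4 : (![Polynomial.X, Polynomial.C (e 1), Polynomial.C (e 2), Polynomial.C (e 3),
    Polynomial.C (e 4)] : Fin 5 → Polynomial L) 4 = Polynomial.C (e 4) := rfl
  have hph : S.phv (Polynomial.C.comp c) (Polynomial.C (e 2)) (Polynomial.C (e 3)) =
      Polynomial.C (S.phv c (e 2) (e 3)) := (S.map_phv c Polynomial.C _ _).symm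
  have hg : S.gv (Polynomial.C.comp c) (Polynomial.C (e 1)) (Polynomial.C (e 2))
      (Polynomial.C (e 3)) = Polynomial.C (S.gv c (e 1) (e 2) (e 3)) :=
    (S.map_gv c Polynomial.C _ _ _).symm
  rw [Fp, Fv, F0v, Pv, e0, e1, e2, e3, e4, hph, hg, ← Polynomial.C_pow, ← Polynomial.C_mul,
    Polynomial.C_add]
  ring

lemma natDegree_Fp_le : (S.Fp c e).natDegree ≤ S.m + 2 := by
  rw [Fp_eq]
  refine Polynomial.natDegree_add_le_of_degree_le (Polynomial.natDegree_add_le_of_degree_le ?_ ?_) ?_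
  · refine (Polynomial.natDegree_mul_C_le _ _).trans ?_
    exact Polynomial.natDegree_X_le.trans (by omega)
  · rw [Polynomial.natDegree_C]
    omega
  · exact (Polynomial.natDegree_C_mul_le _ _).trans (S.natDegree_Pv_le c e)

lemma coeff_Fp : (S.Fp c e).coeff (S.m + 2) = e 4 * c S.lc := by
  rw [Fp_eq, Polynomial.coeff_add, Polynomial.coeff_add, Polynomial.coeff_C_mul, coeff_Pv,
    Polynomial.coeff_mul_C, Polynomial.coeff_C_of_ne_zero (by omega),
    Polynomial.coeff_X_of_ne_one (by omega), zero_mul, zero_add, zero_add]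

end lead

end LnData

end Pool.Agent.RCH
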