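import Pool.Agent.RCH.LnDomX
import Pool.Agent.RCH.LnLead

/-!
# The ring of the fibre square is a domain (Eisenstein)
-/

set_option autoImplicit false

namespace Pool.Agent.RCH

section abstract

open Polynomial

lemma irreducible_of_reverse {K : Type} [Field K] {p : Polynomial K} (h0 : p.coeff 0 ≠ 0)
    (h : Irreducible p.reverse) : Irreducible p := by
  have key : ∀ a : Polynomial K, a.coeff 0 ≠ 0 → IsUnit a.reverse → IsUnit a := by
    intro a ha hu
    have h1 : a.reverse.natDegree = 0 := natDegree_eq_zero_of_isUnit hu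
    rw [reverse_natDegree, natTrailingDegree_eq_zero_of_constantCoeff_ne_zero ha,
      Nat.sub_zero] at h1
    rw [eq_C_of_natDegree_eq_zero h1, isUnit_C]
    exact isUnit_iff_ne_zero.2 ha
  constructor
  · intro hp
    apply h.not_isUnit
    obtain ⟨r, hr, hrp⟩ := Polynomial.isUnit_iff.1 hp
    rw [← hrp, reverse_C]
    exact isUnit_C.2 hr
  · intro a b hab
    rw [hab, reverse_mul_of_domain] at h
    rw [hab, mul_coeff_zero] at h0
    rcases h.isUnit_or_isUnit rfl with h1 | h1
    · exact Or.inl (key a (left_ne_zero_of_mul h0) h1)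
    · exact Or.inr (key b (right_ne_zero_of_mul h0) h1)

/-- a polynomial whose reverse is an Eisenstein polynomial is irreducible over the field of
fractions -/
theorem irreducible_of_reverse_eisenstein {D K : Type} [CommRing D] [IsDomain D]
    [IsIntegrallyClosed D] [Field K] [Algebra D K] [IsFractionRing D K] {P : Ideal D}
    (hP : P.IsPrime) (G : Polynomial D) (n : ℕ) (hn : 0 < n) (hdeg : G.natDegree = n)
    (h0 : IsUnit (G.coeff 0)) (hj : ∀ j, 1 ≤ j → G.coeff j ∈ P) (htop : G.coeff n ∉ P ^ 2) :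
    Irreducible (G.map (algebraMap D K)) := by
  obtain ⟨u, hu⟩ := h0
  have hinj : Function.Injective (algebraMap D K) := IsFractionRing.injective D K
  set H : Polynomial D := C (↑u⁻¹ : D) * reflect n G with hH
  have hcoeff : ∀ i ≤ n, H.coeff i = (↑u⁻¹ : D) * G.coeff (n - i) := by
    intro i hi
    rw [hH, coeff_C_mul, coeff_reflect, revAt_le hi]
  have hcn : H.coeff n = 1 := by
    rw [hcoeff n le_rfl, Nat.sub_self, ← hu, Units.inv_mul]
  have hdH : H.natDegree ≤ n := by
    refine (natDegree_C_mul_le _ _).trans ?_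
    refine natDegree_reflect_le.trans ?_
    rw [hdeg, max_self]
  have hmon : H.Monic := monic_of_natDegree_le_of_coeff_eq_one n hdH hcn
  have hne : Nontrivial D := inferInstance
  have hdH' : H.natDegree = n :=
    le_antisymm hdH (le_natDegree_of_ne_zero (by rw [hcn]; exact one_ne_zero))
  have hdeg' : H.degree = n := by
    rw [degree_eq_natDegree hmon.ne_zero, hdH']
  have hirr : Irreducible H := by
    refine irreducible_of_eisenstein_criterion hP ?_ ?_ ?_ ?_ hmon.isPrimitive
    · rw [hmon.leadingCoeff]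
      exact fun h => hP.ne_top (P.eq_top_iff_one.2 h)
    · intro i hi
      rw [hdeg'] at hi
      have hi' : i < n := by exact_mod_cast hi
      rw [hcoeff i hi'.le]
      exact P.mul_mem_left _ (hj _ (by omega))
    · rw [hdeg']
      exact_mod_cast hn
    · rw [hcoeff 0 (Nat.zero_le _), Nat.sub_zero]
      intro h
      apply htop
      have h1 := (P ^ 2).mul_mem_left (u : D) h
      rwa [← mul_assoc, Units.mul_inv, one_mul] at h1
  have hirr' : Irreducible (H.map (algebraMap D K)) :=
    (hmon.irreducible_iff_irreducible_map_fraction_map (K := K)).1 hirr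
  have hndeg : (G.map (algebraMap D K)).natDegree = n := by
    rw [natDegree_map_eq_of_injective hinj, hdeg]
  have hrev : H.map (algebraMap D K) =
      C (algebraMap D K (↑u⁻¹ : D)) * (G.map (algebraMap D K)).reverse := by
    rw [hH, Polynomial.map_mul, map_C, ← reflect_map, reverse, hndeg]
  rw [hrev] at hirr'
  have hun : IsUnit (C (algebraMap D K (↑u⁻¹ : D))) :=
    isUnit_C.2 ((Units.isUnit _).map (algebraMap D K))
  apply irreducible_of_reverse
  · rw [coeff_map, ← hu]
    exact (u.isUnit.map (algebraMap D K)).ne_zero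
  · exact (irreducible_isUnit_mul hun).1 hirr'

/-- the ring of a monic polynomial over a subring of a field over which it is irreducible -/
theorem isDomain_adjoinRoot_of_map {A K : Type} [CommRing A] [Field K] (f : A →+* K)
    (hf : Function.Injective f) (g : Polynomial A) (hg : g.Monic) (h : Irreducible (g.map f)) :
    IsDomain (AdjoinRoot g) := by
  have : Fact (Irreducible (g.map f)) := ⟨h⟩
  let φ : AdjoinRoot g →+* AdjoinRoot (g.map f) :=
    AdjoinRoot.lift ((AdjoinRoot.of (g.map f)).comp f) (AdjoinRoot.root _) (by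
      rw [← eval₂_map]
      exact AdjoinRoot.eval₂_root _)
  have hφ : ∀ p : Polynomial A, φ (AdjoinRoot.mk g p) = AdjoinRoot.mk (g.map f) (p.map f) := by
    intro p
    rw [AdjoinRoot.lift_mk, ← eval₂_map]
    exact AdjoinRoot.aeval_eq _
  have hinj : Function.Injective φ := by
    rw [injective_iff_map_eq_zero]
    intro x
    obtain ⟨p, rfl⟩ := AdjoinRoot.mk_surjective x
    intro hx
    rw [hφ, AdjoinRoot.mk_eq_zero] at hx
    rw [AdjoinRoot.mk_eq_zero, ← modByMonic_eq_zero_iff_dvd hg]
    rw [← modByMonic_eq_zero_iff_dvd (hg.map f), ← map_modByMonic f hg] at hx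
    exact (map_injective f hf) (by rw [hx, Polynomial.map_zero])
  exact hinj.isDomain φ

end abstract

open MvPolynomial

namespace LnData

variable (S : LnData)

section quot

variable {L : Type} [CommRing L] (c : ℂ →+* L) (e : Fin 5 → L)

lemma natDegree_Gp_le : (S.Gp c e).natDegree ≤ S.m + 1 := by
  nontriviality L
  rw [Gp, Polynomial.natDegree_divByMonic _ (Polynomial.monic_X_sub_C _),
    Polynomial.natDegree_X_sub_C]
  have := S.natDegree_Fp_le c e
  omega

lemma coeff_Gp (h : S.Fv c e = 0) : (S.Gp c e).coeff (S.m + 1) = e 4 * c S.lc := by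
  have h1 : ((Polynomial.X - Polynomial.C (e 0)) * S.Gp c e).coeff (S.m + 1 + 1) =
      (S.Fp c e).coeff (S.m + 2) := by rw [S.mul_Gp c e h]
  rw [coeff_Fp, sub_mul, Polynomial.coeff_sub, Polynomial.coeff_X_mul, Polynomial.coeff_C_mul,
    Polynomial.coeff_eq_zero_of_natDegree_lt (lt_of_le_of_lt (S.natDegree_Gp_le c e)
      (Nat.lt_succ_self _)), mul_zero, sub_zero] at h1
  exact h1

/-- the quotient at a point of the surface -/
lemma Gp_eq_C (h : S.Fv c e = 0) (h4 : e 4 = 0) :
    S.Gp c e = Polynomial.C (e 1 ^ (S.m + 2)) := by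
  have h1 : S.Fp c e = (Polynomial.X - Polynomial.C (e 0)) * Polynomial.C (e 1 ^ (S.m + 2)) := by
    have h2 : S.phv c (e 2) (e 3) + e 1 * S.gv c (e 1) (e 2) (e 3) = - (e 0 * e 1 ^ (S.m + 2)) := by
      rw [Fv, F0v, h4] at h
      linear_combination h
    rw [Fp_eq, h4, h2, Polynomial.C_neg, Polynomial.C_mul, Polynomial.C_0]
    ring
  rw [Gp, h1, Polynomial.mul_divByMonic_cancel_left _ (Polynomial.monic_X_sub_C _)]

end quot

/-- a point of the threefold outside the hyperplane section -/
lemma exists_point4 : ∃ e : Fin 5 → ℂ, e 4 = 1 ∧ S.Fv (RingHom.id ℂ) e = 0 := by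
  set p := S.Fp (RingHom.id ℂ) ![0, 0, 0, 0, 1] with hp
  have h1 : p.coeff (S.m + 2) ≠ 0 := by
    rw [hp, coeff_Fp]
    have h2 : (![0, 0, 0, 0, 1] : Fin 5 → ℂ) 4 = 1 := rfl
    rw [h2, one_mul]
    exact S.hPc
  have h2 : p.degree ≠ 0 := by
    intro h
    have h3 := Polynomial.le_natDegree_of_ne_zero h1
    have h4 : p.natDegree = 0 := Polynomial.natDegree_eq_of_degree_eq_some (by rw [h]; rfl)
    omega
  obtain ⟨y, hy⟩ := IsAlgClosed.exists_root p h2
  refine ⟨repl ![0, 0, 0, 0, 1] y, rfl, ?_⟩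
  rw [Polynomial.IsRoot.def, hp, eval_Fp] at hy
  exact hy

lemma ptX4_ne : S.ptX 4 ≠ 0 := by
  obtain ⟨e, h4, h⟩ := S.exists_point4
  obtain ⟨γ, -, hγ⟩ := S.exists_liftX (RingHom.id ℂ) e h
  intro h0
  have h1 := hγ 4
  rw [h0, map_zero, h4] at h1
  exact zero_ne_one h1

lemma ptY1_ne : S.ptY 1 ≠ 0 := by
  obtain ⟨e, h1, h4, h⟩ : ∃ e : Fin 5 → ℂ, e 1 = 1 ∧ e 4 = 0 ∧ S.F0v (RingHom.id ℂ) e = 0 := by
    refine ⟨![- (S.phv (RingHom.id ℂ) 0 0 + S.gv (RingHom.id ℂ) 1 0 0), 1, 0, 0, 0], rfl, rfl, ?_⟩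
    have e0 : (![- (S.phv (RingHom.id ℂ) 0 0 + S.gv (RingHom.id ℂ) 1 0 0), 1, 0, 0, 0] :
        Fin 5 → ℂ) 0 = - (S.phv (RingHom.id ℂ) 0 0 + S.gv (RingHom.id ℂ) 1 0 0) := rfl
    have e1 : (![- (S.phv (RingHom.id ℂ) 0 0 + S.gv (RingHom.id ℂ) 1 0 0), 1, 0, 0, 0] :
        Fin 5 → ℂ) 1 = 1 := rfl
    have e2 : (![- (S.phv (RingHom.id ℂ) 0 0 + S.gv (RingHom.id ℂ) 1 0 0), 1, 0, 0, 0] :
        Fin 5 → ℂ) 2 = 0 := rfl
    have e3 : (![- (S.phv (RingHom.id ℂ) 0 0 + S.gv (RingHom.id ℂ) 1 0 0), 1, 0, 0, 0] :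
        Fin 5 → ℂ) 3 = 0 := rfl
    rw [F0v, e0, e1, e2, e3]
    ring
  obtain ⟨γ, -, hγ⟩ := S.exists_liftY (RingHom.id ℂ) e h4 h
  intro h0
  have h2 := hγ 1
  rw [h0, map_zero, h1] at h2
  exact zero_ne_one h2

/-- a discrete valuation ring, abstractly: the polynomial `G` is irreducible over the fraction field -/
lemma irreducible_Gp {R D K : Type} [CommRing R] [IsDomain R] [IsNoetherianRing R] [CommRing D]
    [IsDomain D] [Algebra R D] [Field K] [Algebra D K] [IsFractionRing D K] (p : Ideal R)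
    [p.IsPrime] [IsLocalization.AtPrime D p] (c : ℂ →+* R) (e : Fin 5 → R)
    (hF : S.Fv c e = 0) (hp : p = Ideal.span {e 4}) (h4 : e 4 ≠ 0) (h1 : e 1 ∉ p) :
    Irreducible ((S.Gp ((algebraMap R D).comp c) (fun j => algebraMap R D (e j))).map
      (algebraMap D K)) := by
  have hloc : IsLocalRing D := IsLocalization.AtPrime.isLocalRing D p
  have hnoe : IsNoetherianRing D := IsLocalization.isNoetherianRing p.primeCompl D inferInstance
  have hmax : IsLocalRing.maximalIdeal D = Ideal.span {algebraMap R D (e 4)} := by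
    rw [← IsLocalization.AtPrime.map_eq_maximalIdeal p D, hp, Ideal.map_span,
      Set.image_singleton]
  have hinj : Function.Injective (algebraMap R D) :=
    IsLocalization.injective D p.primeCompl_le_nonZeroDivisors
  have hpi : (IsLocalRing.maximalIdeal D).IsPrincipal := by
    rw [hmax]
    exact ⟨⟨_, rfl⟩⟩
  have htf : (IsLocalRing.maximalIdeal D).IsPrincipal ↔ IsIntegrallyClosed D ∧
      ∀ P : Ideal D, P ≠ ⊥ → P.IsPrime → P = IsLocalRing.maximalIdeal D :=
    (tfae_of_isNoetherianRing_of_isLocalRing_of_isDomain D).out 4 3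
  have hic : IsIntegrallyClosed D := (htf.1 hpi).1
  have hFD : S.Fv ((algebraMap R D).comp c) (fun j => algebraMap R D (e j)) = 0 := by
    rw [← S.map_Fv, hF, map_zero]
  have h4D : algebraMap R D (e 4) ≠ 0 := fun h => h4 (hinj (by rw [h, map_zero]))
  have h4m : algebraMap R D (e 4) ∈ IsLocalRing.maximalIdeal D := by
    rw [hmax]
    exact Ideal.mem_span_singleton_self _
  have h1u : IsUnit (algebraMap R D (e 1)) :=
    IsLocalization.map_units D (⟨e 1, h1⟩ : p.primeCompl)
  have hlc : IsUnit (c S.lc) := (isUnit_iff_ne_zero.2 S.hPc : IsUnit S.lc).map c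
  have htop : (S.Gp ((algebraMap R D).comp c) (fun j => algebraMap R D (e j))).coeff (S.m + 1) =
      algebraMap R D (e 4) * algebraMap R D (c S.lc) := S.coeff_Gp _ _ hFD
  have hq := S.map_Gp ((algebraMap R D).comp c) (fun j => algebraMap R D (e j))
    (IsLocalRing.residue D)
  have hq' : S.Gp ((IsLocalRing.residue D).comp ((algebraMap R D).comp c))
      (fun j => IsLocalRing.residue D (algebraMap R D (e j))) =
      Polynomial.C (IsLocalRing.residue D (algebraMap R D (e 1)) ^ (S.m + 2)) := by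
    refine S.Gp_eq_C _ (fun j => IsLocalRing.residue D (algebraMap R D (e j))) ?_ ?_
    · have := S.map_Fv ((algebraMap R D).comp c) (IsLocalRing.residue D)
        (fun j => algebraMap R D (e j))
      rw [← this, hFD, map_zero]
    · exact (IsLocalRing.residue_eq_zero_iff _).2 h4m
  rw [hq'] at hq
  have hcj : ∀ j, IsLocalRing.residue D ((S.Gp ((algebraMap R D).comp c)
      (fun j => algebraMap R D (e j))).coeff j) = (Polynomial.C (IsLocalRing.residue D
        (algebraMap R D (e 1)) ^ (S.m + 2))).coeff j := by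
    intro j
    rw [← hq, Polynomial.coeff_map]
  have hntop : (S.Gp ((algebraMap R D).comp c) (fun j => algebraMap R D (e j))).coeff (S.m + 1) ∉
      IsLocalRing.maximalIdeal D ^ 2 := by
    rw [htop, hmax, Ideal.span_singleton_pow, Ideal.mem_span_singleton']
    rintro ⟨r, hr⟩
    have h5 : algebraMap R D (c S.lc) = r * algebraMap R D (e 4) :=
      mul_left_cancel₀ h4D (by linear_combination -hr)
    have h6 : algebraMap R D (c S.lc) ∈ IsLocalRing.maximalIdeal D := by
      rw [h5]
      exact Ideal.mul_mem_left _ _ h4m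
    exact (IsLocalRing.mem_maximalIdeal _).1 h6 (hlc.map _)
  refine irreducible_of_reverse_eisenstein (P := IsLocalRing.maximalIdeal D) inferInstance _
    (S.m + 1) (Nat.succ_pos _) ?_ ?_ ?_ hntop
  · refine le_antisymm (S.natDegree_Gp_le _ _) (Polynomial.le_natDegree_of_ne_zero fun h => ?_)
    exact hntop (by rw [h]; exact Ideal.zero_mem _)
  · have h5 := hcj 0
    rw [Polynomial.coeff_C_zero] at h5
    rw [← IsLocalRing.residue_ne_zero_iff_isUnit, h5]
    exact ((h1u.map _).pow _).ne_zero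
  · intro j hj
    have h5 := hcj j
    rw [Polynomial.coeff_C_of_ne_zero (by omega)] at h5
    exact (IsLocalRing.residue_eq_zero_iff _).1 h5

lemma monic_Gm : S.Gm.Monic := by
  refine Polynomial.monic_of_natDegree_le_of_coeff_eq_one (S.m + 1) ?_ ?_
  · exact (Polynomial.natDegree_C_mul_le _ _).trans (S.natDegree_Gp_le _ _)
  · rw [Gm, Polynomial.coeff_C_mul, S.coeff_Gp _ _ S.Fv_ptA, mul_comm (S.ptA 4), lcInv_mul]

lemma isDomain_RV_of {D K : Type} [CommRing D] [IsDomain D] [Algebra S.RX D] [Field K]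
    [Algebra D K] [IsFractionRing D K] (p : Ideal S.RX) [p.IsPrime] [IsLocalization.AtPrime D p]
    (hps : p = Ideal.span {S.ptX 4}) (h1 : S.ptX 1 ∉ p) : IsDomain S.RV := by
  have hirr := S.irreducible_Gp (D := D) (K := K) p (algebraMap ℂ S.RX) S.ptX S.Fv_ptX hps
    S.ptX4_ne h1
  have hinjD : Function.Injective (algebraMap S.RX D) :=
    IsLocalization.injective D p.primeCompl_le_nonZeroDivisors
  have hinjK : Function.Injective (algebraMap D K) := IsFractionRing.injective D K
  have hu : IsUnit (((algebraMap D K).comp (algebraMap S.RX D)) (S.ptX 4)) := by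
    rw [isUnit_iff_ne_zero, RingHom.comp_apply]
    intro h
    exact S.ptX4_ne (hinjD (hinjK (by rw [h, map_zero, map_zero])))
  let f : S.AX →+* K := IsLocalization.Away.lift (S.ptX 4) hu
  have hf : ∀ x, f (algebraMap S.RX S.AX x) = algebraMap D K (algebraMap S.RX D x) := fun x =>
    IsLocalization.Away.lift_eq (S.ptX 4) hu x
  have hfinj : Function.Injective f := by
    rw [injective_iff_map_eq_zero]
    intro x hx
    obtain ⟨⟨a, s⟩, has⟩ := IsLocalization.surj (Submonoid.powers (S.ptX 4)) x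
    have h2 : f (algebraMap S.RX S.AX a) = 0 := by rw [← has, map_mul, hx, zero_mul]
    rw [hf] at h2
    have h3 : a = 0 := hinjD (hinjK (by rw [h2, map_zero, map_zero]))
    simp only at has
    rw [h3, map_zero] at has
    exact ((IsLocalization.map_units S.AX s).mul_left_eq_zero).1 has
  refine isDomain_adjoinRoot_of_map f hfinj S.Gm S.monic_Gm ?_
  have h6 : f.comp (algebraMap ℂ S.AX) =
      (algebraMap D K).comp ((algebraMap S.RX D).comp (algebraMap ℂ S.RX)) := by
    refine RingHom.ext fun a => ?_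
    rw [RingHom.comp_apply, algebraMap_AX, hf]
    rfl
  have h7 : (fun j => f (S.ptA j)) = fun j => algebraMap D K (algebraMap S.RX D (S.ptX j)) := by
    funext j
    exact hf _
  have h9 := S.map_Gp ((algebraMap S.RX D).comp (algebraMap ℂ S.RX))
    (fun j => algebraMap S.RX D (S.ptX j)) (algebraMap D K)
  rw [h9] at hirr
  have h5 : S.Gm.map f = Polynomial.C (f S.lcInv) *
      S.Gp ((algebraMap D K).comp ((algebraMap S.RX D).comp (algebraMap ℂ S.RX)))
        (fun j => algebraMap D K (algebraMap S.RX D (S.ptX j))) := by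
    rw [Gm, Polynomial.map_mul, Polynomial.map_C, map_Gp, h6, h7]
  rw [h5]
  have h8 : IsUnit (f S.lcInv) := (Units.isUnit (S.isUnit_lc_mul.unit⁻¹)).map f
  exact (irreducible_isUnit_mul (Polynomial.isUnit_C.2 h8)).2 hirr

lemma isDomain_RV_of' {D : Type} [CommRing D] [IsDomain D] [Algebra S.RX D] (p : Ideal S.RX)
    [p.IsPrime] [IsLocalization.AtPrime D p] (hps : p = Ideal.span {S.ptX 4})
    (h1 : S.ptX 1 ∉ p) : IsDomain S.RV :=
  S.isDomain_RV_of (D := D) (K := FractionRing D) p hps h1

instance instDomRV : IsDomain S.RV := by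
  obtain ⟨ρ, hρ1, hρ2, hρ3⟩ := S.exists_restr
  have hpp : (RingHom.ker ρ).IsPrime := RingHom.ker_isPrime ρ
  have hps : RingHom.ker ρ = Ideal.span {S.ptX 4} := by
    ext z
    rw [RingHom.mem_ker, hρ3, Ideal.mem_span_singleton]
  have h1 : S.ptX 1 ∉ RingHom.ker ρ := by
    rw [RingHom.mem_ker, hρ2]
    exact S.ptY1_ne
  have hdD : IsDomain (Localization.AtPrime (RingHom.ker ρ)) :=
    IsLocalization.isDomain_localization (RingHom.ker ρ).primeCompl_le_nonZeroDivisors
  exact S.isDomain_RV_of' (D := Localization.AtPrime (RingHom.ker ρ)) (RingHom.ker ρ) hps h1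

end LnData

end Pool.Agent.RCH
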