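import Pool.Agent.RCH.KpADomX
import Pool.Agent.RCH.LnDomV

/-!
# The ring of the fibre square is a domain (Eisenstein)
-/

set_option autoImplicit false

open MvPolynomial

namespace Pool.Agent.RCH

namespace Kp

namespace AData

variable {ι : Type} [Fintype ι] [DecidableEq ι] (S : AData ι)

/-! ### The quotient by `Y - x_al` -/

section quot

variable {L : Type} [CommRing L] (c : ℂ →+* L) (e : ι → L)

lemma natDegree_quoF_le : (quoF c e S.al S.F).natDegree ≤ S.m + 1 := by
  nontriviality L
  rw [quoF, Polynomial.natDegree_divByMonic _ (Polynomial.monic_X_sub_C _),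
    Polynomial.natDegree_X_sub_C]
  have := S.natDegree_F_le c e
  omega

lemma coeff_quoF (h : eval₂Hom c e S.F = 0) :
    (quoF c e S.al S.F).coeff (S.m + 1) = e S.om * c S.lc := by
  have h1 : ((Polynomial.X - Polynomial.C (e S.al)) * quoF c e S.al S.F).coeff (S.m + 1 + 1) =
      (polF c e S.al S.F).coeff (S.m + 2) := by rw [mul_quoF c e S.al h]
  rw [coeff_F, sub_mul, Polynomial.coeff_sub, Polynomial.coeff_X_mul, Polynomial.coeff_C_mul,
    Polynomial.coeff_eq_zero_of_natDegree_lt (lt_of_le_of_lt (S.natDegree_quoF_le c e)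
      (Nat.lt_succ_self _)), mul_zero, sub_zero] at h1
  exact h1

/-- the quotient at a point of the hyperplane section -/
lemma quoF_eq_C (h : eval₂Hom c e S.F = 0) (h4 : e S.om = 0) :
    quoF c e S.al S.F = Polynomial.C (e S.s ^ (S.m + 2)) := by
  have h1 : polF c e S.al S.F =
      (Polynomial.X - Polynomial.C (e S.al)) * Polynomial.C (e S.s ^ (S.m + 2)) := by
    have h2 : e S.s * eval₂Hom c e S.g + eval₂Hom c e S.tau = -(e S.al * e S.s ^ (S.m + 2)) := by
      rw [F_ev, f0_ev, h4] at h
      linear_combination h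
    rw [polF_F, h4, h2, Polynomial.C_neg, Polynomial.C_mul, Polynomial.C_0]
    ring
  rw [quoF, h1, Polynomial.mul_divByMonic_cancel_left _ (Polynomial.monic_X_sub_C _)]

end quot

lemma ptX_ne (j : ι) : S.ptX j ≠ 0 := by
  intro h
  rw [ptX, Ideal.Quotient.eq_zero_iff_mem, Ideal.mem_span_singleton] at h
  exact not_dvd_X (n := S.m + 1) S.F_homog j h

instance instDomRX : IsDomain S.RX :=
  (Ideal.Quotient.isDomain_iff_prime _).2
    ((Ideal.span_singleton_prime S.F_prime.ne_zero).2 S.F_prime)

/-! ### The hyperplane section -/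

/-- the ring of the hyperplane section -/
abbrev RY0 : Type := MvPolynomial ι ℂ ⧸ Ideal.span {S.f0}

lemma domRY0 : IsDomain S.RY0 :=
  (Ideal.Quotient.isDomain_iff_prime _).2
    ((Ideal.span_singleton_prime S.f0_prime.ne_zero).2 S.f0_prime)

/-- the coordinates of the generic point of the hyperplane section -/
noncomputable def ptY0 (j : ι) : S.RY0 :=
  Ideal.Quotient.mk _ (if j = S.om then 0 else MvPolynomial.X j)

lemma ptY0_s : S.ptY0 S.s ≠ 0 := by
  rw [ptY0, if_neg S.hsom, Ne, Ideal.Quotient.eq_zero_iff_mem, Ideal.mem_span_singleton]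
  exact not_dvd_X (n := S.m + 1) S.f0_homog S.s

lemma ptY0_om : S.ptY0 S.om = 0 := by
  rw [ptY0, if_pos rfl, map_zero]

lemma exists_restr : ∃ ρ : S.RX →+* S.RY0,
    (∀ a, ρ (algebraMap ℂ S.RX a) = algebraMap ℂ S.RY0 a) ∧
    (∀ j, ρ (S.ptX j) = S.ptY0 j) ∧ ∀ z, ρ z = 0 ↔ S.ptX S.om ∣ z := by
  have hF : ∀ p ∈ Ideal.span {S.F},
      ((Ideal.Quotient.mk (Ideal.span {S.f0})).comp
        (resO S.om : MvPolynomial ι ℂ →+* MvPolynomial ι ℂ)) p = 0 := by
    intro p hp
    obtain ⟨q, rfl⟩ := Ideal.mem_span_singleton'.1 hp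
    rw [map_mul]
    have h1 : ((Ideal.Quotient.mk (Ideal.span {S.f0})).comp
        (resO S.om : MvPolynomial ι ℂ →+* MvPolynomial ι ℂ)) S.F = 0 := by
      change Ideal.Quotient.mk _ (resO S.om S.F) = 0
      rw [resO_F, Ideal.Quotient.eq_zero_iff_mem]
      exact Ideal.mem_span_singleton_self _
    rw [h1, mul_zero]
  have hj : ∀ j, Ideal.Quotient.lift _ _ hF (S.ptX j) = S.ptY0 j := by
    intro j
    rw [ptX, Ideal.Quotient.lift_mk]
    change Ideal.Quotient.mk _ (resO S.om (MvPolynomial.X j)) = S.ptY0 j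
    rw [resO_X]
    rfl
  refine ⟨Ideal.Quotient.lift _ _ hF, ?_, hj, ?_⟩
  · intro a
    have h1 : algebraMap ℂ S.RX a = Ideal.Quotient.mk _ (C a) := rfl
    rw [h1, Ideal.Quotient.lift_mk]
    change Ideal.Quotient.mk _ (resO S.om (C a)) = _
    have h2 : resO S.om (C a) = C a := (resO S.om).commutes a
    rw [h2]
    rfl
  · intro z
    constructor
    · intro hz
      obtain ⟨p, rfl⟩ := Ideal.Quotient.mk_surjective z
      rw [Ideal.Quotient.lift_mk] at hz
      have hz' : Ideal.Quotient.mk (Ideal.span {S.f0}) (resO S.om p) = 0 := hz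
      rw [Ideal.Quotient.eq_zero_iff_mem] at hz'
      obtain ⟨q, hq⟩ := Ideal.mem_span_singleton'.1 hz'
      have h1 := dvd_sub_resO S.om p
      have h2 := dvd_sub_resO S.om S.F
      rw [resO_F] at h2
      have h3 : (MvPolynomial.X S.om : MvPolynomial ι ℂ) ∣ p - q * S.F := by
        have h5 : p - q * S.F = (p - resO S.om p) - q * (S.F - S.f0) := by
          rw [← hq]; ring
        rw [h5]
        exact dvd_sub h1 (h2.mul_left _)
      obtain ⟨r, hr⟩ := h3
      refine ⟨Ideal.Quotient.mk _ r, ?_⟩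
      rw [ptX, ← map_mul, ← hr, map_sub, map_mul]
      have h6 : Ideal.Quotient.mk (Ideal.span {S.F}) S.F = 0 :=
        Ideal.Quotient.eq_zero_iff_mem.2 (Ideal.mem_span_singleton_self _)
      rw [h6, mul_zero, sub_zero]
    · rintro ⟨w, rfl⟩
      rw [map_mul, hj, ptY0_om, zero_mul]

/-! ### Eisenstein -/

/-- a discrete valuation ring, abstractly: the quotient is irreducible over the fraction field -/
lemma irreducible_quoF {R D K : Type} [CommRing R] [IsDomain R] [IsNoetherianRing R] [CommRing D]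
    [IsDomain D] [Algebra R D] [Field K] [Algebra D K] [IsFractionRing D K] (p : Ideal R)
    [p.IsPrime] [IsLocalization.AtPrime D p] (c : ℂ →+* R) (e : ι → R)
    (hF : eval₂Hom c e S.F = 0) (hp : p = Ideal.span {e S.om}) (h4 : e S.om ≠ 0)
    (h1 : e S.s ∉ p) :
    Irreducible ((quoF ((algebraMap R D).comp c) (fun j => algebraMap R D (e j)) S.al S.F).map
      (algebraMap D K)) := by
  have hloc : IsLocalRing D := IsLocalization.AtPrime.isLocalRing D p
  have hnoe : IsNoetherianRing D := IsLocalization.isNoetherianRing p.primeCompl D inferInstance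
  have hmax : IsLocalRing.maximalIdeal D = Ideal.span {algebraMap R D (e S.om)} := by
    rw [← IsLocalization.AtPrime.map_eq_maximalIdeal p D, hp, Ideal.map_span,
      Set.image_singleton]
  have hinj : Function.Injective (algebraMap R D) :=
    IsLocalization.injective D p.primeCompl_le_nonZeroDivisors
  have hpi : (IsLocalRing.maximalIdeal D).IsPrincipal := by
    rw [hmax]
    exact ⟨⟨_, rfl⟩⟩
  have htf : (IsLocalRing.maximalIdeal D).IsPrincipal ↔ IsIntegrallyClosed D ∧
      ∀ P : Ideal D, P ≠ ⊥ → P.IsPrime → P = IsLocalRing.maximalIdeal D :=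
    (tfae_of_isNoetherianRing_of_isLocalRing_of_isDomain D).out 4 3
  have hic : IsIntegrallyClosed D := (htf.1 hpi).1
  have hFD : eval₂Hom ((algebraMap R D).comp c) (fun j => algebraMap R D (e j)) S.F = 0 := by
    rw [← map_ev c e (algebraMap R D), hF, map_zero]
  have h4D : algebraMap R D (e S.om) ≠ 0 := fun h => h4 (hinj (by rw [h, map_zero]))
  have h4m : algebraMap R D (e S.om) ∈ IsLocalRing.maximalIdeal D := by
    rw [hmax]
    exact Ideal.mem_span_singleton_self _
  have h1u : IsUnit (algebraMap R D (e S.s)) :=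
    IsLocalization.map_units D (⟨e S.s, h1⟩ : p.primeCompl)
  have hlc : IsUnit (c S.lc) := (isUnit_iff_ne_zero.2 S.hPc : IsUnit S.lc).map c
  have htop : (quoF ((algebraMap R D).comp c) (fun j => algebraMap R D (e j)) S.al
      S.F).coeff (S.m + 1) = algebraMap R D (e S.om) * algebraMap R D (c S.lc) :=
    S.coeff_quoF _ _ hFD
  have hq := map_quoF ((algebraMap R D).comp c) (fun j => algebraMap R D (e j)) S.al
    (IsLocalRing.residue D) S.F
  have hq' : quoF ((IsLocalRing.residue D).comp ((algebraMap R D).comp c))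
      (fun j => IsLocalRing.residue D (algebraMap R D (e j))) S.al S.F =
      Polynomial.C (IsLocalRing.residue D (algebraMap R D (e S.s)) ^ (S.m + 2)) := by
    refine S.quoF_eq_C _ (fun j => IsLocalRing.residue D (algebraMap R D (e j))) ?_ ?_
    · have := map_ev ((algebraMap R D).comp c) (fun j => algebraMap R D (e j))
        (IsLocalRing.residue D) S.F
      rw [← this, hFD, map_zero]
    · exact (IsLocalRing.residue_eq_zero_iff _).2 h4m
  rw [hq'] at hq
  have hcj : ∀ j, IsLocalRing.residue D ((quoF ((algebraMap R D).comp c)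
      (fun j => algebraMap R D (e j)) S.al S.F).coeff j) =
        (Polynomial.C (IsLocalRing.residue D
        (algebraMap R D (e S.s)) ^ (S.m + 2))).coeff j := by
    intro j
    rw [← hq, Polynomial.coeff_map]
  have hntop : (quoF ((algebraMap R D).comp c) (fun j => algebraMap R D (e j)) S.al
      S.F).coeff (S.m + 1) ∉ IsLocalRing.maximalIdeal D ^ 2 := by
    rw [htop, hmax, Ideal.span_singleton_pow, Ideal.mem_span_singleton']
    rintro ⟨r, hr⟩
    have h5 : algebraMap R D (c S.lc) = r * algebraMap R D (e S.om) :=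
      mul_left_cancel₀ h4D (by linear_combination -hr)
    have h6 : algebraMap R D (c S.lc) ∈ IsLocalRing.maximalIdeal D := by
      rw [h5]
      exact Ideal.mul_mem_left _ _ h4m
    exact (IsLocalRing.mem_maximalIdeal _).1 h6 (hlc.map _)
  refine irreducible_of_reverse_eisenstein (P := IsLocalRing.maximalIdeal D) inferInstance _
    (S.m + 1) (Nat.succ_pos _) ?_ ?_ ?_ hntop
  · refine le_antisymm (S.natDegree_quoF_le _ _) (Polynomial.le_natDegree_of_ne_zero fun h => ?_)
    exact hntop (by rw [h]; exact Ideal.zero_mem _)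
  · have h5 := hcj 0
    rw [Polynomial.coeff_C_zero] at h5
    rw [← IsLocalRing.residue_ne_zero_iff_isUnit, h5]
    exact ((h1u.map _).pow _).ne_zero
  · intro j hj
    have h5 := hcj j
    rw [Polynomial.coeff_C_of_ne_zero (by omega)] at h5
    exact (IsLocalRing.residue_eq_zero_iff _).1 h5

lemma monic_Gm : S.Gm.Monic := by
  refine Polynomial.monic_of_natDegree_le_of_coeff_eq_one (S.m + 1) ?_ ?_
  · exact (Polynomial.natDegree_C_mul_le _ _).trans (S.natDegree_quoF_le _ _)
  · rw [Gm, Polynomial.coeff_C_mul, S.coeff_quoF _ _ S.F_ptA, mul_comm (S.ptA S.om), lcInv_mul]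

lemma isDomain_RV_of {D K : Type} [CommRing D] [IsDomain D] [Algebra S.RX D] [Field K]
    [Algebra D K] [IsFractionRing D K] (p : Ideal S.RX) [p.IsPrime] [IsLocalization.AtPrime D p]
    (hps : p = Ideal.span {S.ptX S.om}) (h1 : S.ptX S.s ∉ p) : IsDomain S.RV := by
  have hirr := S.irreducible_quoF (D := D) (K := K) p (algebraMap ℂ S.RX) S.ptX S.F_ptX hps
    (S.ptX_ne S.om) h1
  have hinjD : Function.Injective (algebraMap S.RX D) :=
    IsLocalization.injective D p.primeCompl_le_nonZeroDivisors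
  have hinjK : Function.Injective (algebraMap D K) := IsFractionRing.injective D K
  have hu : IsUnit (((algebraMap D K).comp (algebraMap S.RX D)) (S.ptX S.om)) := by
    rw [isUnit_iff_ne_zero, RingHom.comp_apply]
    intro h
    exact S.ptX_ne S.om (hinjD (hinjK (by rw [h, map_zero, map_zero])))
  let f : S.AX →+* K := IsLocalization.Away.lift (S.ptX S.om) hu
  have hf : ∀ x, f (algebraMap S.RX S.AX x) = algebraMap D K (algebraMap S.RX D x) := fun x =>
    IsLocalization.Away.lift_eq (S.ptX S.om) hu x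
  have hfinj : Function.Injective f := by
    rw [injective_iff_map_eq_zero]
    intro x hx
    obtain ⟨⟨a, s⟩, has⟩ := IsLocalization.surj (Submonoid.powers (S.ptX S.om)) x
    have h2 : f (algebraMap S.RX S.AX a) = 0 := by rw [← has, map_mul, hx, zero_mul]
    rw [hf] at h2
    have h3 : a = 0 := hinjD (hinjK (by rw [h2, map_zero, map_zero]))
    simp only at has
    rw [h3, map_zero] at has
    exact ((IsLocalization.map_units S.AX s).mul_left_eq_zero).1 has
  refine isDomain_adjoinRoot_of_map f hfinj S.Gm S.monic_Gm ?_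
  have h6 : f.comp (algebraMap ℂ S.AX) =
      (algebraMap D K).comp ((algebraMap S.RX D).comp (algebraMap ℂ S.RX)) := by
    refine RingHom.ext fun a => ?_
    rw [RingHom.comp_apply, algebraMap_AX, hf]
    rfl
  have h7 : (fun j => f (S.ptA j)) = fun j => algebraMap D K (algebraMap S.RX D (S.ptX j)) := by
    funext j
    exact hf _
  have h9 := map_quoF ((algebraMap S.RX D).comp (algebraMap ℂ S.RX))
    (fun j => algebraMap S.RX D (S.ptX j)) S.al (algebraMap D K) S.F
  rw [h9] at hirr
  have h5 : S.Gm.map f = Polynomial.C (f S.lcInv) *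
      quoF ((algebraMap D K).comp ((algebraMap S.RX D).comp (algebraMap ℂ S.RX)))
        (fun j => algebraMap D K (algebraMap S.RX D (S.ptX j))) S.al S.F := by
    rw [Gm, Polynomial.map_mul, Polynomial.map_C, map_quoF, h6, h7]
  rw [h5]
  have h8 : IsUnit (f S.lcInv) := (Units.isUnit (S.isUnit_lc_mul.unit⁻¹)).map f
  exact (irreducible_isUnit_mul (Polynomial.isUnit_C.2 h8)).2 hirr

lemma isDomain_RV_of' {D : Type} [CommRing D] [IsDomain D] [Algebra S.RX D] (p : Ideal S.RX)
    [p.IsPrime] [IsLocalization.AtPrime D p] (hps : p = Ideal.span {S.ptX S.om})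
    (h1 : S.ptX S.s ∉ p) : IsDomain S.RV :=
  S.isDomain_RV_of (D := D) (K := FractionRing D) p hps h1

instance instDomRV : IsDomain S.RV := by
  obtain ⟨ρ, hρ1, hρ2, hρ3⟩ := S.exists_restr
  have hdY := S.domRY0
  have hpp : (RingHom.ker ρ).IsPrime := RingHom.ker_isPrime ρ
  have hps : RingHom.ker ρ = Ideal.span {S.ptX S.om} := by
    ext z
    rw [RingHom.mem_ker, hρ3, Ideal.mem_span_singleton]
  have h1 : S.ptX S.s ∉ RingHom.ker ρ := by
    rw [RingHom.mem_ker, hρ2]
    exact S.ptY0_s
  have hdD : IsDomain (Localization.AtPrime (RingHom.ker ρ)) :=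
    IsLocalization.isDomain_localization (RingHom.ker ρ).primeCompl_le_nonZeroDivisors
  exact S.isDomain_RV_of' (D := Localization.AtPrime (RingHom.ker ρ)) (RingHom.ker ρ) hps h1

/-! ### The ring of the variety embeds -/

lemma inj_X : Function.Injective (algebraMap S.RX S.AX) :=
  IsLocalization.injective (M := Submonoid.powers (S.ptX S.om)) S.AX
    (Submonoid.powers_le.2 (mem_nonZeroDivisors_of_ne_zero (S.ptX_ne S.om)))

lemma domA : IsDomain S.AX :=
  IsLocalization.isDomain_localization
    (Submonoid.powers_le.2 (mem_nonZeroDivisors_of_ne_zero (S.ptX_ne S.om)))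

lemma natDegree_Gm : S.Gm.natDegree = S.m + 1 := by
  have := S.domA
  refine le_antisymm ((Polynomial.natDegree_C_mul_le _ _).trans (S.natDegree_quoF_le _ _))
    (Polynomial.le_natDegree_of_ne_zero ?_)
  have h : S.Gm.coeff (S.m + 1) = 1 := by
    rw [Gm, Polynomial.coeff_C_mul, S.coeff_quoF _ _ S.F_ptA, mul_comm (S.ptA S.om), lcInv_mul]
  rw [h]
  exact one_ne_zero

lemma inj_A : Function.Injective (AdjoinRoot.of S.Gm) := by
  have := S.domA
  apply AdjoinRoot.of.injective_of_degree_ne_zero
  intro h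
  have h1 : S.Gm.natDegree = 0 := Polynomial.natDegree_eq_of_degree_eq_some h
  rw [natDegree_Gm] at h1
  omega

/-- the inclusion of the ring of the variety -/
noncomputable def inc : S.RX →+* S.RV := (AdjoinRoot.of S.Gm).comp (algebraMap S.RX S.AX)

lemma inc_inj : Function.Injective S.inc := S.inj_A.comp S.inj_X

lemma inc_ptX (j : ι) : S.inc (S.ptX j) = S.ptV0 j := rfl

lemma inc_comp : S.inc.comp (algebraMap ℂ S.RX) = algebraMap ℂ S.RV := by
  rw [← of_comp]
  refine RingHom.ext fun a => ?_
  rw [RingHom.comp_apply, RingHom.comp_apply, algebraMap_AX]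
  rfl

lemma ptV0_ne (j : ι) : S.ptV0 j ≠ 0 := by
  rw [← inc_ptX]
  exact fun h => S.ptX_ne j (S.inc_inj (h.trans (map_zero _).symm))

lemma dF_ptX : eval₂Hom (algebraMap ℂ S.RX) S.ptX S.dF ≠ 0 := by
  intro h
  obtain ⟨ρ, h1, h2, -⟩ := S.exists_restr
  have hdY := S.domRY0
  have h3 := map_ev (algebraMap ℂ S.RX) S.ptX ρ S.dF
  have h4 : ρ.comp (algebraMap ℂ S.RX) = algebraMap ℂ S.RY0 := RingHom.ext h1
  have h5 : (fun j => ρ (S.ptX j)) = S.ptY0 := funext h2
  rw [h, map_zero, h4, h5, dF_ev, ptY0_om, zero_mul, add_zero] at h3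
  exact S.ptY0_s (pow_eq_zero_iff (by omega) |>.1 h3.symm)

lemma dF_ptV0 : eval₂Hom (algebraMap ℂ S.RV) S.ptV0 S.dF ≠ 0 := by
  intro h
  have h3 := map_ev (algebraMap ℂ S.RX) S.ptX S.inc S.dF
  have h5 : (fun j => S.inc (S.ptX j)) = S.ptV0 := funext S.inc_ptX
  rw [inc_comp, h5, h] at h3
  exact S.dF_ptX (S.inc_inj (h3.trans (map_zero _).symm))

end AData

end Kp

end Pool.Agent.RCH
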