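import Pool.Agent.RCH.LnDomY

/-!
# The coordinate ring of the threefold is a domain
-/

set_option autoImplicit false

open MvPolynomial

namespace Pool.Agent.RCH

namespace LnData

variable (S : LnData)

/-- substituting polynomials of degree at most one does not raise the total degree -/
lemma totalDegree_aeval_le {σ τ : Type} [Fintype σ] {f : σ → MvPolynomial τ ℂ}
    (hf : ∀ j, (f j).totalDegree ≤ 1) (p : MvPolynomial σ ℂ) :
    (aeval f p).totalDegree ≤ p.totalDegree := by
  rw [aeval_def, eval₂_eq']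
  refine totalDegree_finsetSum_le fun d hd => ?_
  refine (totalDegree_mul _ _).trans ?_
  have h1 : (algebraMap ℂ (MvPolynomial τ ℂ) (coeff d p)).totalDegree = 0 := totalDegree_C _
  rw [h1, zero_add]
  refine (totalDegree_finsetProd _ _).trans ?_
  refine le_trans ?_ (le_totalDegree hd)
  rw [Finsupp.sum_fintype _ _ (fun _ => rfl)]
  refine Finset.sum_le_sum fun j _ => ?_
  refine (totalDegree_pow _ _).trans ?_
  calc d j * (f j).totalDegree ≤ d j * 1 := Nat.mul_le_mul_left _ (hf j)
    _ = d j := mul_one _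

/-- restriction to the hyperplane `x_4 = 0` -/
noncomputable def res : MvPolynomial (Fin 5) ℂ →ₐ[ℂ] MvPolynomial (Fin 4) ℂ :=
  aeval ![MvPolynomial.X 0, MvPolynomial.X 1, MvPolynomial.X 2, MvPolynomial.X 3, 0]

lemma res_F : res S.F = S.F04 := by
  have h := S.eval₂_F (C : ℂ →+* MvPolynomial (Fin 4) ℂ)
    ![MvPolynomial.X 0, MvPolynomial.X 1, MvPolynomial.X 2, MvPolynomial.X 3, 0]
  have h1 : res S.F = eval₂Hom C ![MvPolynomial.X 0, MvPolynomial.X 1, MvPolynomial.X 2,
    MvPolynomial.X 3, 0] S.F := rfl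
  rw [h1, h, Fv]
  have h4 : (![MvPolynomial.X 0, MvPolynomial.X 1, MvPolynomial.X 2, MvPolynomial.X 3, 0] :
    Fin 5 → MvPolynomial (Fin 4) ℂ) 4 = 0 := rfl
  rw [h4, zero_mul, add_zero]
  rfl

lemma totalDegree_res_le (p : MvPolynomial (Fin 5) ℂ) : (res p).totalDegree ≤ p.totalDegree := by
  refine totalDegree_aeval_le (fun j => ?_) p
  fin_cases j
  · exact (totalDegree_X (R := ℂ) (0 : Fin 4)).le
  · exact (totalDegree_X (R := ℂ) (1 : Fin 4)).le
  · exact (totalDegree_X (R := ℂ) (2 : Fin 4)).le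
  · exact (totalDegree_X (R := ℂ) (3 : Fin 4)).le
  · exact (totalDegree_zero (R := ℂ) (σ := Fin 4)).le.trans (Nat.zero_le _)

lemma F04_isHomogeneous : S.F04.IsHomogeneous (S.m + 3) := by
  rw [← res_F]
  have h := S.isHomogeneous_F.aeval (n := 1)
    ![(MvPolynomial.X 0 : MvPolynomial (Fin 4) ℂ), MvPolynomial.X 1, MvPolynomial.X 2,
      MvPolynomial.X 3, 0] (fun j => by
      fin_cases j
      · exact isHomogeneous_X ℂ (0 : Fin 4)
      · exact isHomogeneous_X ℂ (1 : Fin 4)
      · exact isHomogeneous_X ℂ (2 : Fin 4)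
      · exact isHomogeneous_X ℂ (3 : Fin 4)
      · exact isHomogeneous_zero (Fin 4) ℂ 1)
  rw [one_mul] at h
  exact h

lemma F_ne_zero : S.F ≠ 0 := by
  intro h
  have h1 := S.res_F
  rw [h, map_zero] at h1
  exact S.irreducible_F04.ne_zero h1.symm

lemma isUnit_of_res {U W : MvPolynomial (Fin 5) ℂ} (h : S.F = U * W) (hU : IsUnit (res U)) :
    IsUnit U := by
  have hF := S.F_ne_zero
  have hU0 : U ≠ 0 := by
    rintro rfl
    exact hF (by rw [h, zero_mul])
  have hW0 : W ≠ 0 := by
    rintro rfl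
    exact hF (by rw [h, mul_zero])
  have h1 : U.totalDegree + W.totalDegree = S.m + 3 := by
    rw [← totalDegree_mul_of_isDomain hU0 hW0, ← h]
    exact S.isHomogeneous_F.totalDegree hF
  have h2 : res U * res W = S.F04 := by
    rw [← map_mul, ← h, res_F]
  have hU1 : res U ≠ 0 := hU.ne_zero
  have hW1 : res W ≠ 0 := by
    intro h3
    rw [h3, mul_zero] at h2
    exact S.irreducible_F04.ne_zero h2.symm
  have h3 : (res U).totalDegree + (res W).totalDegree = S.m + 3 := by
    rw [← totalDegree_mul_of_isDomain hU1 hW1, h2]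
    exact S.F04_isHomogeneous.totalDegree S.irreducible_F04.ne_zero
  have h4 : (res U).totalDegree = 0 := by
    obtain ⟨u, hu⟩ := hU
    have h5 : res U * (↑u⁻¹ : MvPolynomial (Fin 4) ℂ) = 1 := by
      rw [← hu]; exact Units.mul_inv u
    have h6 : (↑u⁻¹ : MvPolynomial (Fin 4) ℂ) ≠ 0 := by
      intro h7
      rw [h7, mul_zero] at h5
      exact zero_ne_one h5
    have h7 := totalDegree_mul_of_isDomain hU1 h6
    rw [h5, totalDegree_one] at h7
    omega
  have h5 := totalDegree_res_le W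
  have h6 : U.totalDegree = 0 := by omega
  rw [totalDegree_eq_zero_iff_eq_C] at h6
  rw [h6] at hU0 ⊢
  refine (isUnit_iff_ne_zero.2 fun h7 => hU0 ?_).map C
  rw [h7, C_0]

lemma irreducible_F : Irreducible S.F := by
  refine ⟨fun hu => ?_, fun U W h => ?_⟩
  · exact S.irreducible_F04.not_isUnit (by rw [← res_F]; exact hu.map res)
  · have h2 : S.F04 = res U * res W := by rw [← map_mul, ← h, res_F]
    rcases S.irreducible_F04.isUnit_or_isUnit h2 with h3 | h3
    · exact Or.inl (S.isUnit_of_res h h3)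
    · exact Or.inr (S.isUnit_of_res (by rw [h, mul_comm]) h3)

instance instDomRX : IsDomain S.RX :=
  (Ideal.Quotient.isDomain_iff_prime _).2
    ((Ideal.span_singleton_prime S.irreducible_F.ne_zero).2 S.irreducible_F.prime)

/-- the inclusion of polynomials in four variables -/
noncomputable def incl : MvPolynomial (Fin 4) ℂ →ₐ[ℂ] MvPolynomial (Fin 5) ℂ :=
  aeval ![MvPolynomial.X 0, MvPolynomial.X 1, MvPolynomial.X 2, MvPolynomial.X 3]

/-- a polynomial is congruent to its restriction modulo `x_4` -/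
lemma dvd_sub_incl (p : MvPolynomial (Fin 5) ℂ) :
    (MvPolynomial.X 4 : MvPolynomial (Fin 5) ℂ) ∣ p - incl (res p) := by
  rw [← Ideal.mem_span_singleton, ← Ideal.Quotient.eq]
  have h : (Ideal.Quotient.mkₐ ℂ (Ideal.span {(MvPolynomial.X 4 : MvPolynomial (Fin 5) ℂ)})) =
      ((Ideal.Quotient.mkₐ ℂ (Ideal.span {(MvPolynomial.X 4 : MvPolynomial (Fin 5) ℂ)})).comp
        incl).comp res := by
    apply MvPolynomial.algHom_ext
    intro j
    rw [AlgHom.comp_apply, AlgHom.comp_apply, res, aeval_X]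
    fin_cases j
    · change _ = Ideal.Quotient.mk _ (incl (MvPolynomial.X 0))
      rw [incl, aeval_X]; rfl
    · change _ = Ideal.Quotient.mk _ (incl (MvPolynomial.X 1))
      rw [incl, aeval_X]; rfl
    · change _ = Ideal.Quotient.mk _ (incl (MvPolynomial.X 2))
      rw [incl, aeval_X]; rfl
    · change _ = Ideal.Quotient.mk _ (incl (MvPolynomial.X 3))
      rw [incl, aeval_X]; rfl
    · change Ideal.Quotient.mk _ (MvPolynomial.X 4) = Ideal.Quotient.mk _ (incl 0)
      rw [map_zero, map_zero, Ideal.Quotient.eq_zero_iff_mem]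
      exact Ideal.mem_span_singleton_self _
  exact congrArg (fun φ => φ p) h

lemma exists_restr : ∃ ρ : S.RX →+* S.RY, (∀ a, ρ (algebraMap ℂ S.RX a) = algebraMap ℂ S.RY a) ∧
    (∀ j, ρ (S.ptX j) = S.ptY j) ∧ ∀ z, ρ z = 0 ↔ S.ptX 4 ∣ z := by
  have hF : ∀ p ∈ Ideal.span {S.F},
      ((Ideal.Quotient.mk (Ideal.span {S.F04})).comp (res : _ →+* _)) p = 0 := by
    intro p hp
    obtain ⟨q, rfl⟩ := Ideal.mem_span_singleton'.1 hp
    rw [map_mul]
    have h1 : ((Ideal.Quotient.mk (Ideal.span {S.F04})).comp (res : _ →+* _)) S.F = 0 := by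
      change Ideal.Quotient.mk _ (res S.F) = 0
      rw [res_F, Ideal.Quotient.eq_zero_iff_mem]
      exact Ideal.mem_span_singleton_self _
    rw [h1, mul_zero]
  have h4 : S.ptY 4 = 0 := rfl
  have hj : ∀ j, Ideal.Quotient.lift _ _ hF (S.ptX j) = S.ptY j := by
    intro j
    rw [ptX, Ideal.Quotient.lift_mk]
    change Ideal.Quotient.mk _ (res (MvPolynomial.X j)) = S.ptY j
    rw [res, aeval_X]
    fin_cases j
    · rfl
    · rfl
    · rfl
    · rfl
    · exact map_zero _
  refine ⟨Ideal.Quotient.lift _ _ hF, ?_, hj, ?_⟩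
  · intro a
    have h1 : algebraMap ℂ S.RX a = Ideal.Quotient.mk _ (C a) := rfl
    rw [h1, Ideal.Quotient.lift_mk]
    change Ideal.Quotient.mk _ (res (C a)) = _
    have h2 : res (C a) = C a := res.commutes a
    rw [h2]
    rfl
  · intro z
    constructor
    · intro hz
      obtain ⟨p, rfl⟩ := Ideal.Quotient.mk_surjective z
      rw [Ideal.Quotient.lift_mk] at hz
      have hz' : Ideal.Quotient.mk (Ideal.span {S.F04}) (res p) = 0 := hz
      rw [Ideal.Quotient.eq_zero_iff_mem] at hz'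
      obtain ⟨q, hq⟩ := Ideal.mem_span_singleton'.1 hz'
      have h1 := dvd_sub_incl p
      have h2 := dvd_sub_incl S.F
      rw [res_F] at h2
      have h3 : (MvPolynomial.X 4 : MvPolynomial (Fin 5) ℂ) ∣ p - incl q * S.F := by
        have h5 : p - incl q * S.F = (p - incl (res p)) - incl q * (S.F - incl S.F04) := by
          rw [← hq, map_mul]; ring
        rw [h5]
        exact dvd_sub h1 (h2.mul_left _)
      obtain ⟨r, hr⟩ := h3
      refine ⟨Ideal.Quotient.mk _ r, ?_⟩
      rw [ptX, ← map_mul, ← hr, map_sub, map_mul]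
      have h6 : Ideal.Quotient.mk (Ideal.span {S.F}) S.F = 0 :=
        Ideal.Quotient.eq_zero_iff_mem.2 (Ideal.mem_span_singleton_self _)
      rw [h6, mul_zero, sub_zero]
    · rintro ⟨w, rfl⟩
      rw [map_mul, hj, h4, zero_mul]

end LnData

end Pool.Agent.RCH
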