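import Pool.Agent.RCH.KpARings
import Pool.Agent.RCH.LnDomX

/-!
# The equation is prime; its degree and leading coefficient in the coordinate `al`
-/

set_option autoImplicit false

open MvPolynomial

namespace Pool.Agent.RCH

namespace Kp

namespace AData

variable {ι : Type} [Fintype ι] [DecidableEq ι] (S : AData ι)

/-! ### Restriction to a coordinate hyperplane -/

section res

variable (o : ι)

/-- restriction to the hyperplane `x_o = 0` -/
noncomputable def resO : MvPolynomial ι ℂ →ₐ[ℂ] MvPolynomial ι ℂ :=
  aeval fun j => if j = o then 0 else MvPolynomial.X j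

omit [Fintype ι] in
lemma resO_X (j : ι) : resO o (MvPolynomial.X j) = if j = o then 0 else MvPolynomial.X j := by
  rw [resO, aeval_X]

omit [Fintype ι] in
lemma resO_of_notMem {p : MvPolynomial ι ℂ} (h : o ∉ p.vars) : resO o p = p := by
  have h1 : resO o p = eval₂Hom (C : ℂ →+* MvPolynomial ι ℂ)
      (fun j => if j = o then 0 else MvPolynomial.X j) p := rfl
  rw [h1]
  have h2 : eval₂Hom (C : ℂ →+* MvPolynomial ι ℂ)
      (fun j => if j = o then 0 else MvPolynomial.X j) p =
      eval₂Hom (C : ℂ →+* MvPolynomial ι ℂ) MvPolynomial.X p := by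
    refine ev_congr _ _ fun j hj => ?_
    rw [if_neg]
    rintro rfl
    exact h hj
  rw [h2]
  exact MvPolynomial.eval₂_eta p

lemma totalDegree_resO_le (p : MvPolynomial ι ℂ) : (resO o p).totalDegree ≤ p.totalDegree := by
  refine LnData.totalDegree_aeval_le (fun j => ?_) p
  by_cases hj : j = o
  · rw [if_pos hj, totalDegree_zero]
    exact Nat.zero_le _
  · rw [if_neg hj]
    exact (totalDegree_X (R := ℂ) j).le

omit [Fintype ι] in
/-- a polynomial is congruent to its restriction modulo `x_o` -/
lemma dvd_sub_resO (p : MvPolynomial ι ℂ) : MvPolynomial.X o ∣ p - resO o p := by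
  rw [← Ideal.mem_span_singleton, ← Ideal.Quotient.eq]
  have h : Ideal.Quotient.mkₐ ℂ (Ideal.span {(MvPolynomial.X o : MvPolynomial ι ℂ)}) =
      (Ideal.Quotient.mkₐ ℂ (Ideal.span {(MvPolynomial.X o : MvPolynomial ι ℂ)})).comp
        (resO o) := by
    apply MvPolynomial.algHom_ext
    intro j
    rw [AlgHom.comp_apply, resO_X]
    by_cases hj : j = o
    · subst hj
      rw [if_pos rfl, map_zero]
      change Ideal.Quotient.mk _ (MvPolynomial.X j) = 0
      rw [Ideal.Quotient.eq_zero_iff_mem]
      exact Ideal.mem_span_singleton_self _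
    · rw [if_neg hj]
  exact congrArg (fun φ => φ p) h

/-- a homogeneous polynomial whose restriction is prime, of the same degree, is prime -/
lemma prime_of_resO {p : MvPolynomial ι ℂ} {n : ℕ} (hp : p.IsHomogeneous n)
    (hr : (resO o p).IsHomogeneous n) (h : Prime (resO o p)) : Prime p := by
  have hp0 : p ≠ 0 := by
    rintro rfl
    exact h.ne_zero (map_zero _)
  have hirr := h.irreducible
  have key : ∀ U W : MvPolynomial ι ℂ, p = U * W → IsUnit (resO o U) → IsUnit U := by
    intro U W h hU
    have hU0 : U ≠ 0 := by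
      rintro rfl
      exact hp0 (by rw [h, zero_mul])
    have hW0 : W ≠ 0 := by
      rintro rfl
      exact hp0 (by rw [h, mul_zero])
    have h1 : U.totalDegree + W.totalDegree = n := by
      rw [← totalDegree_mul_of_isDomain hU0 hW0, ← h]
      exact hp.totalDegree hp0
    have h2 : resO o U * resO o W = resO o p := by
      rw [← map_mul, ← h]
    have hU1 : resO o U ≠ 0 := hU.ne_zero
    have hW1 : resO o W ≠ 0 := by
      intro h3
      rw [h3, mul_zero] at h2
      exact hirr.ne_zero h2.symm
    have h3 : (resO o U).totalDegree + (resO o W).totalDegree = n := by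
      rw [← totalDegree_mul_of_isDomain hU1 hW1, h2]
      exact hr.totalDegree hirr.ne_zero
    have h4 : (resO o U).totalDegree = 0 := by
      obtain ⟨u, hu⟩ := hU
      have h5 : resO o U * (↑u⁻¹ : MvPolynomial ι ℂ) = 1 := by
        rw [← hu]; exact Units.mul_inv u
      have h6 : (↑u⁻¹ : MvPolynomial ι ℂ) ≠ 0 := by
        intro h7
        rw [h7, mul_zero] at h5
        exact zero_ne_one h5
      have h7 := totalDegree_mul_of_isDomain hU1 h6
      rw [h5, totalDegree_one] at h7
      omega
    have h5 := totalDegree_resO_le o W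
    have h6 : U.totalDegree = 0 := by omega
    rw [totalDegree_eq_zero_iff_eq_C] at h6
    rw [h6] at hU0 ⊢
    refine (isUnit_iff_ne_zero.2 fun h7 => hU0 ?_).map C
    rw [h7, C_0]
  refine Irreducible.prime ⟨fun hu => hirr.not_isUnit (hu.map (resO o)), fun U W h => ?_⟩
  have h2 : resO o p = resO o U * resO o W := by rw [← map_mul, ← h]
  rcases hirr.isUnit_or_isUnit h2 with h3 | h3
  · exact Or.inl (key U W h h3)
  · exact Or.inr (key W U (by rw [h, mul_comm]) h3)

end res

lemma resO_F : resO S.om S.F = S.f0 := by
  rw [F, map_add, map_mul, resO_X, if_pos rfl, zero_mul, add_zero]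
  exact resO_of_notMem S.om fun h => S.f0_vars h rfl

/-- the equation is prime -/
theorem F_prime : Prime S.F := by
  refine prime_of_resO S.om S.F_homog ?_ ?_
  · rw [resO_F]
    exact S.f0_homog
  · rw [resO_F]
    exact S.f0_prime

/-! ### The degree and the leading coefficient -/

section lead

variable {L : Type} [CommRing L] (c : ℂ →+* L) (e : ι → L)

lemma polF_F : polF c e S.al S.F = Polynomial.X * Polynomial.C (e S.s ^ (S.m + 2)) +
    Polynomial.C (e S.s * eval₂Hom c e S.g + eval₂Hom c e S.tau) +
    Polynomial.C (e S.om) * polF c e S.al S.P := by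
  have h1 : polF c e S.al (MvPolynomial.X S.s ^ (S.m + 2)) =
      Polynomial.C (e S.s ^ (S.m + 2)) := by
    rw [polF_of_notMem, map_pow, eval₂Hom_X']
    intro hj
    have h3 := vars_pow _ _ hj
    rw [vars_X, Finset.mem_singleton] at h3
    exact S.hals h3
  have h2 : polF c e S.al (MvPolynomial.X S.s * S.g + S.tau) =
      Polynomial.C (e S.s * eval₂Hom c e S.g + eval₂Hom c e S.tau) := by
    rw [polF_of_notMem, map_add, map_mul, eval₂Hom_X']
    exact fun hj => (S.sg_vars hj).1 rfl
  rw [F, f0, polF_add, polF_add, polF_mul, polF_mul, polF_X_self, h1, h2,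
    polF_X_of_ne _ _ _ S.halom.symm]

lemma natDegree_F_le : (polF c e S.al S.F).natDegree ≤ S.m + 2 := by
  rw [polF_F]
  refine Polynomial.natDegree_add_le_of_degree_le (Polynomial.natDegree_add_le_of_degree_le ?_ ?_) ?_
  · refine (Polynomial.natDegree_mul_C_le _ _).trans ?_
    exact Polynomial.natDegree_X_le.trans (by omega)
  · rw [Polynomial.natDegree_C]
    omega
  · exact (Polynomial.natDegree_C_mul_le _ _).trans (natDegree_polF_le c e S.al S.hP)

lemma coeff_F : (polF c e S.al S.F).coeff (S.m + 2) = e S.om * c S.lc := by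
  rw [polF_F, Polynomial.coeff_add, Polynomial.coeff_add, Polynomial.coeff_C_mul,
    coeff_polF c e S.al S.hP, Polynomial.coeff_mul_C, Polynomial.coeff_C_of_ne_zero (by omega),
    Polynomial.coeff_X_of_ne_one (by omega), zero_mul, zero_add, zero_add]
  rfl

end lead

end AData

end Kp

end Pool.Agent.RCH
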