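import Pool.Agent.RCH.KpADomV

/-!
# The points of relation (A)
-/

set_option autoImplicit false

open MvPolynomial

namespace Pool.Agent.RCH

namespace Kp

/-- the equation vanishes at every point -/
lemma F_mem {ι : Type} {F : MvPolynomial ι ℂ} {N : ℕ} (Q : Pt (hyp F) N) (i : Fin N) :
    inFactor N i F ∈ Q.I := Q.onX i _ (Ideal.subset_span rfl)

namespace AData

variable {ι : Type} [Fintype ι] [DecidableEq ι] (S : AData ι)

lemma admX : Adm S.F ∅ ∅ S.F where
  prime := S.F_prime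
  vK := fun j _ h => absurd h (Finset.notMem_empty j)
  vF := fun j _ h => absurd h (Finset.notMem_empty j)
  mem := Ideal.subset_span (Or.inr rfl)
  rel := ⟨S.s, Finset.notMem_empty _, not_dvd_X (n := S.m + 1) S.F_homog _⟩

/-- the diagonal of the variety -/
noncomputable def pXD : Pt (hyp S.F) 2 := Dpt S.F_homog S.admX

/-- the generic point of the fibre square of the projection -/
noncomputable def ptV : Fin 2 × ι → S.RV := pair S.ptV0 S.ptV1

lemma ptV0_om_ne : S.ptV0 S.om ≠ 0 := S.isUnit_ptV0_om.ne_zero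

/-- the fibre square, without the diagonal, of the projection from the vertex -/
noncomputable def pV : Pt (hyp S.F) 2 :=
  pt S.F_homog S.ptV
    (fun i => ⟨S.om, by
      fin_cases i
      · exact S.ptV0_om_ne
      · exact fun h => S.ptV0_om_ne ((S.ptV1_of_ne S.halom.symm).symm.trans h)⟩)
    (fun i => by
      fin_cases i
      · exact S.F_ptV0
      · exact S.F_ptV1)

lemma kill_V {L : Type} [CommRing L] (φ : Coord ι 2 →+* L) (w : L)
    (h1 : ∀ j, j ≠ S.al → xs φ 1 j = xs φ 0 j * w) (y : L) (h0 : xs φ 1 S.al = y * w)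
    (hu : IsUnit (xs φ 0 S.om)) (hF : eval₂Hom (cs φ) (xs φ 0) S.F = 0)
    (hG : (quoF (cs φ) (xs φ 0) S.al S.F).eval y = 0) {z : Coord ι 2}
    (hz : z ∈ S.pV.I) : φ z = 0 := by
  obtain ⟨γ, hγ1, hγ2, hγ3⟩ := S.exists_liftV (cs φ) (xs φ 0) hu hF y hG
  refine kill_gen S.F S.ptV φ γ ![1, w] hγ1 ?_ hz
  intro i j
  fin_cases i
  · exact (by rw [hγ2]; simp : xs φ 0 j = γ (S.ptV0 j) * 1)
  · by_cases hj : j = S.al
    · subst hj
      refine h0.trans ?_
      exact congrArg (fun t => t * w) ((hγ3 S.al).trans (Function.update_self _ _ _)).symm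
    · refine (h1 j hj).trans ?_
      exact congrArg (fun t => t * w) ((hγ3 j).trans (Function.update_of_ne hj _ _)).symm

/-! ### The forms -/

/-- the form `y_j ^ n P(x) - x_j ^ n P(y)` -/
noncomputable def RR (j : ι) : Coord ι 2 :=
  MvPolynomial.X (1, j) ^ (S.m + 2) * inFactor 2 0 S.P -
    MvPolynomial.X (0, j) ^ (S.m + 2) * inFactor 2 1 S.P

/-- `x_s ^ (n - 1) y_s ^ n N_s + y_om R_s` -/
noncomputable def HH : Coord ι 2 :=
  MvPolynomial.X (0, S.s) ^ (S.m + 1) * MvPolynomial.X (1, S.s) ^ (S.m + 2) * mn S.al S.s +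
    MvPolynomial.X (1, S.om) * S.RR S.s

/-- `x_al x_s ^ (n - 1) + g` -/
noncomputable def gX (i : Fin 2) : Coord ι 2 :=
  MvPolynomial.X (i, S.al) * MvPolynomial.X (i, S.s) ^ (S.m + 1) + inFactor 2 i S.g

end AData

end Kp

end Pool.Agent.RCH
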