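import Pool.Agent.RCH.KpA

/-!
# The rings for the fibre square of the projection from the vertex
-/

set_option autoImplicit false

open MvPolynomial

namespace Pool.Agent.RCH

namespace Kp

namespace AData

variable {ι : Type} [Fintype ι] [DecidableEq ι] (S : AData ι)

/-! ### The ring of the variety -/

/-- the coordinate ring of the variety -/
abbrev RX : Type := MvPolynomial ι ℂ ⧸ Ideal.span {S.F}

/-- the generic point of the variety -/
noncomputable def ptX (j : ι) : S.RX := Ideal.Quotient.mk _ (MvPolynomial.X j)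

lemma ev_ptX (p : MvPolynomial ι ℂ) :
    eval₂Hom (algebraMap ℂ S.RX) S.ptX p = Ideal.Quotient.mk _ p := by
  have h : eval₂Hom (algebraMap ℂ S.RX) S.ptX = Ideal.Quotient.mk (Ideal.span {S.F}) := by
    apply MvPolynomial.ringHom_ext
    · intro a
      simp
      rfl
    · intro j
      simp
      rfl
  rw [h]

lemma F_ptX : eval₂Hom (algebraMap ℂ S.RX) S.ptX S.F = 0 := by
  rw [ev_ptX, Ideal.Quotient.eq_zero_iff_mem]
  exact Ideal.mem_span_singleton_self _

lemma exists_liftX {L : Type} [CommRing L] (c : ℂ →+* L) (e : ι → L)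
    (h : eval₂Hom c e S.F = 0) :
    ∃ γ : S.RX →+* L, (∀ a, γ (algebraMap ℂ S.RX a) = c a) ∧ ∀ j, γ (S.ptX j) = e j := by
  have hF : ∀ p ∈ Ideal.span {S.F}, eval₂Hom c e p = 0 := by
    intro p hp
    obtain ⟨q, rfl⟩ := Ideal.mem_span_singleton'.1 hp
    rw [map_mul, h, mul_zero]
  refine ⟨Ideal.Quotient.lift _ (eval₂Hom c e) hF, ?_, ?_⟩
  · intro a
    have h1 : algebraMap ℂ S.RX a = Ideal.Quotient.mk _ (C a) := rfl
    rw [h1, Ideal.Quotient.lift_mk]
    simp
  · intro j
    rw [ptX, Ideal.Quotient.lift_mk]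
    simp

/-! ### The ring of the fibre square of the projection from the vertex -/

/-- the ring of the variety, with `x_om` inverted -/
abbrev AX : Type := Localization.Away (S.ptX S.om)

/-- the generic point with `x_om` inverted -/
noncomputable def ptA (j : ι) : S.AX := algebraMap S.RX S.AX (S.ptX j)

lemma isUnit_ptA_om : IsUnit (S.ptA S.om) := IsLocalization.Away.algebraMap_isUnit (S.ptX S.om)

lemma isUnit_lc_mul : IsUnit (algebraMap ℂ S.AX S.lc * S.ptA S.om) := by
  refine IsUnit.mul ?_ S.isUnit_ptA_om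
  exact (isUnit_iff_ne_zero.2 S.hPc : IsUnit S.lc).map (algebraMap ℂ S.AX)

/-- the inverse of the leading coefficient -/
noncomputable def lcInv : S.AX := ↑(S.isUnit_lc_mul.unit⁻¹)

lemma lcInv_mul : S.lcInv * (algebraMap ℂ S.AX S.lc * S.ptA S.om) = 1 :=
  S.isUnit_lc_mul.val_inv_mul

/-- the equation of the second point over the ring of the first, made monic -/
noncomputable def Gm : Polynomial S.AX :=
  Polynomial.C S.lcInv * quoF (algebraMap ℂ S.AX) S.ptA S.al S.F

/-- the ring of the fibre square, without the diagonal, of the projection from the vertex -/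
abbrev RV : Type := AdjoinRoot S.Gm

/-- the coordinates of the first point -/
noncomputable def ptV0 (j : ι) : S.RV := AdjoinRoot.of _ (S.ptA j)

/-- the coordinates of the second point -/
noncomputable def ptV1 : ι → S.RV := Function.update S.ptV0 S.al (AdjoinRoot.root _)

lemma ptV1_al : S.ptV1 S.al = AdjoinRoot.root _ := Function.update_self _ _ _

lemma ptV1_of_ne {j : ι} (hj : j ≠ S.al) : S.ptV1 j = S.ptV0 j := Function.update_of_ne hj _ _

lemma algebraMap_AX (a : ℂ) : algebraMap ℂ S.AX a = algebraMap S.RX S.AX (algebraMap ℂ S.RX a) :=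
  IsScalarTower.algebraMap_apply ℂ S.RX S.AX a

lemma F_ptA : eval₂Hom (algebraMap ℂ S.AX) S.ptA S.F = 0 := by
  have h := map_ev (algebraMap ℂ S.RX) S.ptX (algebraMap S.RX S.AX) S.F
  rw [F_ptX, map_zero] at h
  have h1 : (algebraMap S.RX S.AX).comp (algebraMap ℂ S.RX) = algebraMap ℂ S.AX :=
    RingHom.ext fun a => (S.algebraMap_AX a).symm
  rw [h1] at h
  exact h.symm

lemma of_comp : (AdjoinRoot.of S.Gm).comp (algebraMap ℂ S.AX) = algebraMap ℂ S.RV := rfl

lemma F_ptV0 : eval₂Hom (algebraMap ℂ S.RV) S.ptV0 S.F = 0 := by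
  have h := map_ev (algebraMap ℂ S.AX) S.ptA (AdjoinRoot.of S.Gm) S.F
  rw [F_ptA, map_zero, of_comp] at h
  exact h.symm

lemma isUnit_ptV0_om : IsUnit (S.ptV0 S.om) := S.isUnit_ptA_om.map (AdjoinRoot.of S.Gm)

lemma eval₂_Gm {L : Type} [CommRing L] (f : S.AX →+* L) (y : L) :
    Polynomial.eval₂ f y S.Gm = f S.lcInv *
      (quoF (f.comp (algebraMap ℂ S.AX)) (fun j => f (S.ptA j)) S.al S.F).eval y := by
  rw [Gm, Polynomial.eval₂_mul, Polynomial.eval₂_C,
    Polynomial.eval₂_eq_eval_map (p := quoF _ _ _ _), map_quoF]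

lemma eval_quoF_root :
    (quoF (algebraMap ℂ S.RV) S.ptV0 S.al S.F).eval (AdjoinRoot.root S.Gm) = 0 := by
  have h := AdjoinRoot.eval₂_root S.Gm
  rw [eval₂_Gm] at h
  have h1 : IsUnit (AdjoinRoot.of S.Gm S.lcInv) :=
    (Units.isUnit (S.isUnit_lc_mul.unit⁻¹)).map (AdjoinRoot.of S.Gm)
  exact (h1.mul_right_eq_zero).1 h

lemma F_ptV1 : eval₂Hom (algebraMap ℂ S.RV) S.ptV1 S.F = 0 :=
  ev_of_eval_quoF _ _ _ S.F_ptV0 S.eval_quoF_root

lemma exists_liftV {L : Type} [CommRing L] (c : ℂ →+* L) (e : ι → L) (h4 : IsUnit (e S.om))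
    (h : eval₂Hom c e S.F = 0) (y : L) (hy : (quoF c e S.al S.F).eval y = 0) :
    ∃ γ : S.RV →+* L, (∀ a, γ (algebraMap ℂ S.RV a) = c a) ∧ (∀ j, γ (S.ptV0 j) = e j) ∧
      ∀ j, γ (S.ptV1 j) = Function.update e S.al y j := by
  obtain ⟨γ0, hγ1, hγ2⟩ := S.exists_liftX c e h
  have hu : IsUnit (γ0 (S.ptX S.om)) := by rw [hγ2]; exact h4
  let γ1 : S.AX →+* L := IsLocalization.Away.lift (S.ptX S.om) hu
  have h1 : ∀ x, γ1 (algebraMap S.RX S.AX x) = γ0 x := fun x =>
    IsLocalization.Away.lift_eq (S.ptX S.om) hu x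
  have h2 : γ1.comp (algebraMap ℂ S.AX) = c := by
    refine RingHom.ext fun a => ?_
    rw [RingHom.comp_apply, algebraMap_AX, h1, hγ1]
  have h3 : (fun j => γ1 (S.ptA j)) = e := by
    funext j
    rw [ptA, h1, hγ2]
  have h5 : Polynomial.eval₂ γ1 y S.Gm = 0 := by
    rw [eval₂_Gm, h2, h3, hy, mul_zero]
  have h6 : ∀ j, AdjoinRoot.lift γ1 y h5 (S.ptV0 j) = e j := by
    intro j
    rw [ptV0, AdjoinRoot.lift_of]
    exact congrFun h3 j
  refine ⟨AdjoinRoot.lift γ1 y h5, ?_, h6, ?_⟩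
  · intro a
    rw [← of_comp, RingHom.comp_apply, AdjoinRoot.lift_of]
    exact congrArg (fun ψ => ψ a) h2
  · intro j
    by_cases hj : j = S.al
    · subst hj
      rw [ptV1_al, Function.update_self]
      exact AdjoinRoot.lift_root _
    · rw [S.ptV1_of_ne hj, Function.update_of_ne hj]
      exact h6 j

end AData

end Kp

end Pool.Agent.RCH
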