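import Mathlib.RingTheory.Polynomial.UniqueFactorization
import Mathlib.Algebra.MvPolynomial.NoZeroDivisors
import Mathlib.Algebra.MvPolynomial.Nilpotent
import Mathlib.Algebra.MvPolynomial.Division
import Mathlib.Algebra.MvPolynomial.PDeriv
import Mathlib.Analysis.Complex.Basic

/-!
# A polynomial which is linear in a coordinate is prime
-/

set_option autoImplicit false

open MvPolynomial

namespace Pool.Agent.RCH

namespace Kp

section prim

variable {ι : Type} {a b : ι} {v : MvPolynomial ι ℂ}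

lemma pderiv_lin (hab : a ≠ b) (n : ℕ) (hv : a ∉ v.vars) :
    pderiv a (MvPolynomial.X a * MvPolynomial.X b ^ n + v) = MvPolynomial.X b ^ n := by
  rw [map_add, pderiv_mul, pderiv_X_self, pderiv_pow, pderiv_X_of_ne hab.symm,
    pderiv_eq_zero_of_notMem_vars hv]
  simp

lemma degreeOf_lin_le (hab : a ≠ b) (n : ℕ) (hv : a ∉ v.vars) :
    degreeOf a (MvPolynomial.X a * MvPolynomial.X b ^ n + v) ≤ 1 := by
  classical
  have h1 : degreeOf a v = 0 := by
    by_contra h
    exact hv (mem_vars_iff_degreeOf_ne_zero.2 h)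
  have h2 : degreeOf a (MvPolynomial.X b ^ n : MvPolynomial ι ℂ) = 0 := by
    rw [degreeOf_pow_eq _ _ _ (MvPolynomial.X_ne_zero b), degreeOf_X_of_ne hab, mul_zero]
  have h3 : degreeOf a (MvPolynomial.X a * MvPolynomial.X b ^ n : MvPolynomial ι ℂ) ≤ 1 := by
    refine (degreeOf_mul_le _ _ _).trans ?_
    rw [h2, degreeOf_X_self]
  refine (degreeOf_add_le _ _ _).trans ?_
  rw [h1]
  exact max_le h3 zero_le_one

/-- a factor of `x_a x_b ^ n + v` which does not involve `x_a` is a unit -/
lemma isUnit_of_lin (hab : a ≠ b) (n : ℕ) (hv : a ∉ v.vars) (hb : ¬ MvPolynomial.X b ∣ v)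
    {f g : MvPolynomial ι ℂ} (h : MvPolynomial.X a * MvPolynomial.X b ^ n + v = f * g)
    (hg : a ∉ g.vars) : IsUnit g := by
  classical
  have h1 : g ∣ MvPolynomial.X b ^ n := by
    have h2 := congrArg (pderiv a) h
    rw [pderiv_lin hab n hv, pderiv_mul, pderiv_eq_zero_of_notMem_vars hg, mul_zero,
      add_zero] at h2
    exact ⟨_, h2.trans (mul_comm _ _)⟩
  have h3 : g ∣ v := by
    let θ : MvPolynomial ι ℂ →ₐ[ℂ] MvPolynomial ι ℂ :=
      aeval (fun j => if j = a then 0 else MvPolynomial.X j)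
    have hθ : ∀ p : MvPolynomial ι ℂ, a ∉ p.vars → θ p = p := by
      intro p hp
      have h4 : θ p = aeval MvPolynomial.X p := by
        refine eval₂Hom_congr' rfl (fun j hj _ => ?_) rfl
        have hja : j ≠ a := fun h => hp (h ▸ hj)
        rw [if_neg hja]
      rw [h4, aeval_X_left_apply]
    have h5 := congrArg θ h
    rw [map_add, map_mul, map_mul, hθ v hv, hθ g hg] at h5
    have h6 : θ (MvPolynomial.X a) = 0 := by
      simp [θ]
    rw [h6, zero_mul, zero_add] at h5
    exact ⟨_, h5.trans (mul_comm _ _)⟩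
  obtain ⟨k, -, hk⟩ := (dvd_prime_pow (MvPolynomial.X_prime (R := ℂ) (i := b)) n).1 h1
  rcases Nat.eq_zero_or_pos k with rfl | hk0
  · rw [pow_zero] at hk
    exact hk.isUnit_iff.2 isUnit_one
  · exfalso
    refine hb (((dvd_pow_self _ (by omega)).trans hk.symm.dvd).trans h3)

theorem prime_lin {ι : Type} [Finite ι] {a b : ι} (hab : a ≠ b) (n : ℕ) {v : MvPolynomial ι ℂ}
    (hv : a ∉ v.vars) (hb : ¬ MvPolynomial.X b ∣ v) :
    Prime (MvPolynomial.X a * MvPolynomial.X b ^ n + v) := by
  have hne : (MvPolynomial.X b ^ n : MvPolynomial ι ℂ) ≠ 0 :=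
    pow_ne_zero _ (MvPolynomial.X_ne_zero b)
  have hp0 : (MvPolynomial.X a * MvPolynomial.X b ^ n + v : MvPolynomial ι ℂ) ≠ 0 := by
    intro h
    have h1 := pderiv_lin hab n hv
    rw [h, map_zero] at h1
    exact hne h1.symm
  refine Irreducible.prime ⟨?_, ?_⟩
  · intro h
    obtain ⟨c, -, hc⟩ := MvPolynomial.isUnit_iff_eq_C_of_isReduced.1 h
    have h1 := pderiv_lin hab n hv
    rw [hc, pderiv_C] at h1
    exact hne h1.symm
  · intro f g h
    have hf0 : f ≠ 0 := by
      rintro rfl
      rw [zero_mul] at h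
      exact hp0 h
    have hg0 : g ≠ 0 := by
      rintro rfl
      rw [mul_zero] at h
      exact hp0 h
    have h1 := degreeOf_lin_le hab n hv
    rw [h, degreeOf_mul_eq hf0 hg0] at h1
    by_cases hg : a ∈ g.vars
    · have hf : a ∉ f.vars := by
        intro hf
        rw [mem_vars_iff_degreeOf_ne_zero] at hf hg
        omega
      exact Or.inl (isUnit_of_lin hab n hv hb (h.trans (mul_comm _ _)) hf)
    · exact Or.inr (isUnit_of_lin hab n hv hb h hg)

end prim

end Kp

end Pool.Agent.RCH
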