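import Pool.Agent.RCH.KpPts
import Pool.Agent.RCH.KpPrim

/-!
# The data of relation (B), and the points
-/

set_option autoImplicit false

open MvPolynomial

namespace Pool.Agent.RCH

namespace Kp

/-- The data of relation (B). The coordinates are: the killed ones `K`, the free ones `Fr`, the four
coordinates `al`, `s`, `be`, `tt`, and the others. The degree is `m + 3`, and `n = m + 2`. -/
structure BData (ι : Type) [Fintype ι] [DecidableEq ι] where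
  F : MvPolynomial ι ℂ
  m : ℕ
  hF : F.IsHomogeneous (m + 3)
  K : Finset ι
  Fr : Finset ι
  al : ι
  s : ι
  be : ι
  tt : ι
  hals : al ≠ s
  halbe : al ≠ be
  haltt : al ≠ tt
  hsbe : s ≠ be
  hstt : s ≠ tt
  hbett : be ≠ tt
  hKF : ∀ j ∈ K, j ∉ Fr
  alK : al ∉ K
  alF : al ∉ Fr
  sK : s ∉ K
  sF : s ∉ Fr
  beK : be ∉ K
  beF : be ∉ Fr
  ttK : tt ∉ K
  ttF : tt ∉ Fr
  /-- the number of the factors of the last part -/
  T : ℕ
  q : Fin T → MvPolynomial ι ℂ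
  a : Fin T → ℕ
  e : Fin T → ℕ
  ha : ∀ k, 1 ≤ a k
  hqh : ∀ k, (q k).IsHomogeneous (e k)
  hsum : ∑ k, a k * e k = m + 3
  hqp : ∀ k, Prime (q k)
  hqv : ∀ k, ∀ j ∈ (q k).vars, j ∉ K ∧ j ∉ Fr ∧ j ≠ al ∧ j ≠ s ∧ j ≠ be ∧ j ≠ tt
  hqn : ∀ j k, j ≠ k → ¬ q j ∣ q k
  /-- a coordinate which is not zero on `q k = 0` -/
  b : Fin T → ι
  hb : ∀ k, b k ∉ K ∧ b k ∉ Fr ∧ b k ≠ al ∧ b k ≠ s ∧ b k ≠ be ∧ b k ≠ tt
  hbq : ∀ k, ¬ q k ∣ MvPolynomial.X (b k)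
  g : MvPolynomial ι ℂ
  hgh : g.IsHomogeneous (m + 2)
  hgv : ∀ j ∈ g.vars, j ∉ K ∧ j ∉ Fr ∧ j ≠ al
  hgc : eval (Pi.single be 1) g ≠ 0
  g' : MvPolynomial ι ℂ
  hg'h : g'.IsHomogeneous (m + 2)
  hg'v : ∀ j ∈ g'.vars, j ∉ K ∧ j ∉ Fr ∧ j ≠ al ∧ j ≠ s ∧ j ≠ be
  hg'q : ∀ k, g' ∉ Ideal.span {MvPolynomial.X tt, q k}
  hFf : F - (MvPolynomial.X al * MvPolynomial.X s ^ (m + 2) + (MvPolynomial.X s * g +
    (MvPolynomial.X be * MvPolynomial.X tt ^ (m + 2) + (MvPolynomial.X tt * g' +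
      ∏ k, q k ^ a k)))) ∈ Ideal.span (XS K)

namespace BData

variable {ι : Type} [Fintype ι] [DecidableEq ι] (S : BData ι)

noncomputable def tau : MvPolynomial ι ℂ := ∏ k, S.q k ^ S.a k

noncomputable def rho : MvPolynomial ι ℂ := MvPolynomial.X S.tt * S.g' + S.tau

noncomputable def psi : MvPolynomial ι ℂ :=
  MvPolynomial.X S.be * MvPolynomial.X S.tt ^ (S.m + 2) + S.rho

noncomputable def f : MvPolynomial ι ℂ :=
  MvPolynomial.X S.al * MvPolynomial.X S.s ^ (S.m + 2) + (MvPolynomial.X S.s * S.g + S.psi)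

lemma hFf' : S.F - S.f ∈ Ideal.span (XS S.K) := S.hFf

/-- the coordinates `s`, `tt` and the last ones, which are proportional on `pU` -/
def Zs : Finset ι := Finset.univ.filter fun j => j ∉ S.K ∧ j ∉ S.Fr ∧ j ≠ S.al ∧ j ≠ S.be

def K1 : Finset ι := insert S.s S.K
def K2 : Finset ι := insert S.tt S.K1
def Fr1 : Finset ι := insert S.al S.Fr
def Fr2 : Finset ι := insert S.be S.Fr1

lemma mem_Zs {j : ι} : j ∈ S.Zs ↔ j ∉ S.K ∧ j ∉ S.Fr ∧ j ≠ S.al ∧ j ≠ S.be := by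
  simp [Zs]

lemma s_mem : S.s ∈ S.Zs := S.mem_Zs.2 ⟨S.sK, S.sF, S.hals.symm, S.hsbe⟩

lemma tt_mem : S.tt ∈ S.Zs := S.mem_Zs.2 ⟨S.ttK, S.ttF, S.haltt.symm, S.hbett.symm⟩

lemma b_mem (k : Fin S.T) : S.b k ∈ S.Zs :=
  S.mem_Zs.2 ⟨(S.hb k).1, (S.hb k).2.1, (S.hb k).2.2.1, (S.hb k).2.2.2.2.1⟩

/-! ### Variables -/

lemma tau_vars {j : ι} (hj : j ∈ S.tau.vars) :
    j ∉ S.K ∧ j ∉ S.Fr ∧ j ≠ S.al ∧ j ≠ S.s ∧ j ≠ S.be ∧ j ≠ S.tt := by
  have h1 := vars_prod (s := Finset.univ) (fun k => S.q k ^ S.a k) hj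
  rw [Finset.mem_biUnion] at h1
  obtain ⟨k, -, hk⟩ := h1
  exact S.hqv k j (vars_pow _ _ hk)

lemma rho_vars {j : ι} (hj : j ∈ S.rho.vars) :
    j ∉ S.K ∧ j ∉ S.Fr ∧ j ≠ S.al ∧ j ≠ S.s ∧ j ≠ S.be := by
  have h1 := vars_add_subset _ _ hj
  rw [Finset.mem_union] at h1
  rcases h1 with h1 | h1
  · have h2 := vars_mul _ _ h1
    rw [Finset.mem_union, vars_X, Finset.mem_singleton] at h2
    rcases h2 with rfl | h2
    · exact ⟨S.ttK, S.ttF, S.haltt.symm, S.hstt.symm, S.hbett.symm⟩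
    · exact S.hg'v j h2
  · have h2 := S.tau_vars h1
    exact ⟨h2.1, h2.2.1, h2.2.2.1, h2.2.2.2.1, h2.2.2.2.2.1⟩

lemma psi_vars {j : ι} (hj : j ∈ S.psi.vars) : j ∉ S.K ∧ j ∉ S.Fr ∧ j ≠ S.al ∧ j ≠ S.s := by
  have h1 := vars_add_subset _ _ hj
  rw [Finset.mem_union] at h1
  rcases h1 with h1 | h1
  · have h2 := vars_mul _ _ h1
    rw [Finset.mem_union, vars_X, Finset.mem_singleton] at h2
    rcases h2 with rfl | h2
    · exact ⟨S.beK, S.beF, S.halbe.symm, S.hsbe.symm⟩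
    · have h3 := vars_pow _ _ h2
      rw [vars_X, Finset.mem_singleton] at h3
      subst h3
      exact ⟨S.ttK, S.ttF, S.haltt.symm, S.hstt.symm⟩
  · have h2 := S.rho_vars h1
    exact ⟨h2.1, h2.2.1, h2.2.2.1, h2.2.2.2.1⟩

lemma sg_vars {j : ι} (hj : j ∈ (MvPolynomial.X S.s * S.g + S.psi).vars) :
    j ∉ S.K ∧ j ∉ S.Fr ∧ j ≠ S.al := by
  have h1 := vars_add_subset _ _ hj
  rw [Finset.mem_union] at h1
  rcases h1 with h1 | h1
  · have h2 := vars_mul _ _ h1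
    rw [Finset.mem_union, vars_X, Finset.mem_singleton] at h2
    rcases h2 with rfl | h2
    · exact ⟨S.sK, S.sF, S.hals.symm⟩
    · exact S.hgv j h2
  · have h2 := S.psi_vars h1
    exact ⟨h2.1, h2.2.1, h2.2.2.1⟩

lemma f_vars {j : ι} (hj : j ∈ S.f.vars) : j ∉ S.K ∧ j ∉ S.Fr := by
  have h1 := vars_add_subset _ _ hj
  rw [Finset.mem_union] at h1
  rcases h1 with h1 | h1
  · have h2 := vars_mul _ _ h1
    rw [Finset.mem_union, vars_X, Finset.mem_singleton] at h2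
    rcases h2 with rfl | h2
    · exact ⟨S.alK, S.alF⟩
    · have h3 := vars_pow _ _ h2
      rw [vars_X, Finset.mem_singleton] at h3
      subst h3
      exact ⟨S.sK, S.sF⟩
  · have h2 := S.sg_vars h1
    exact ⟨h2.1, h2.2.1⟩

/-! ### Values -/

section values

variable {L : Type} [CommRing L] (c : ℂ →+* L)

lemma tau_ev (x : ι → L) : eval₂Hom c x S.tau = ∏ k, eval₂Hom c x (S.q k) ^ S.a k := by
  rw [tau, map_prod]
  exact Finset.prod_congr rfl fun k _ => map_pow _ _ _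

lemma rho_ev (x : ι → L) :
    eval₂Hom c x S.rho = x S.tt * eval₂Hom c x S.g' + eval₂Hom c x S.tau := by
  rw [rho, map_add, map_mul, eval₂Hom_X']

lemma psi_ev (x : ι → L) :
    eval₂Hom c x S.psi = x S.be * x S.tt ^ (S.m + 2) + eval₂Hom c x S.rho := by
  rw [psi, map_add, map_mul, map_pow, eval₂Hom_X', eval₂Hom_X']

lemma f_ev (x : ι → L) : eval₂Hom c x S.f = x S.al * x S.s ^ (S.m + 2) +
    (x S.s * eval₂Hom c x S.g + eval₂Hom c x S.psi) := by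
  rw [f, map_add, map_mul, map_pow, map_add, map_mul, eval₂Hom_X', eval₂Hom_X']

lemma F_ev (x : ι → L) (hK : ∀ j ∈ S.K, x j = 0) : eval₂Hom c x S.F = eval₂Hom c x S.f := by
  have h := ev_eq_zero_of_mem c x S.hFf' (by
    rintro p ⟨j, hj, rfl⟩
    rw [eval₂Hom_X']
    exact hK j hj)
  rw [map_sub, sub_eq_zero] at h
  exact h

end values

lemma tau_ne : S.tau ≠ 0 := Finset.prod_ne_zero_iff.2 fun k _ => pow_ne_zero _ (S.hqp k).ne_zero

lemma tau_homog : S.tau.IsHomogeneous (S.m + 3) := by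
  have h := IsHomogeneous.prod (Finset.univ : Finset (Fin S.T)) (fun k => S.q k ^ S.a k)
    (fun k => S.e k * S.a k) (fun k _ => (S.hqh k).pow (S.a k))
  have h2 : ∑ k, S.e k * S.a k = S.m + 3 := by
    rw [← S.hsum]
    exact Finset.sum_congr rfl fun k _ => mul_comm _ _
  rwa [h2] at h

lemma rho_homog : S.rho.IsHomogeneous (S.m + 3) := by
  have h := (isHomogeneous_X ℂ S.tt).mul S.hg'h
  rw [show 1 + (S.m + 2) = S.m + 3 from by ring] at h
  exact h.add S.tau_homog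

lemma psi_homog : S.psi.IsHomogeneous (S.m + 3) := by
  have h := (isHomogeneous_X ℂ S.be).mul ((isHomogeneous_X ℂ S.tt).pow (S.m + 2))
  rw [one_mul, show 1 + (S.m + 2) = S.m + 3 from by ring] at h
  exact h.add S.rho_homog

lemma f_homog : S.f.IsHomogeneous (S.m + 3) := by
  have h := (isHomogeneous_X ℂ S.al).mul ((isHomogeneous_X ℂ S.s).pow (S.m + 2))
  rw [one_mul, show 1 + (S.m + 2) = S.m + 3 from by ring] at h
  have h2 := (isHomogeneous_X ℂ S.s).mul S.hgh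
  rw [show 1 + (S.m + 2) = S.m + 3 from by ring] at h2
  exact h.add (h2.add S.psi_homog)

/-! ### The prime polynomials -/

omit [Fintype ι] in
lemma notMem_vars_of {p : MvPolynomial ι ℂ} {j : ι} (h : j ∉ p.vars) (hp : p ≠ 0) :
    ¬ MvPolynomial.X j ∣ p := by
  rintro ⟨c, rfl⟩
  apply h
  have h1 : c ≠ 0 := right_ne_zero_of_mul hp
  classical
  rw [vars_def, Multiset.mem_toFinset, mem_degrees]
  obtain ⟨d, hd⟩ := MvPolynomial.ne_zero_iff.1 h1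
  refine ⟨Finsupp.single j 1 + d, ?_, ?_⟩
  · rw [X, coeff_monomial_mul, one_mul]
    exact hd
  · rw [Finsupp.mem_support_iff, Finsupp.add_apply, Finsupp.single_eq_same]
    omega

lemma X_ndvd_psi' : ¬ MvPolynomial.X S.tt ∣ S.rho := by
  intro h
  have h1 : MvPolynomial.X S.tt ∣ S.tau := by
    have h2 : (MvPolynomial.X S.tt : MvPolynomial ι ℂ) ∣ MvPolynomial.X S.tt * S.g' :=
      dvd_mul_right _ _
    exact (dvd_add_right h2).1 h
  exact notMem_vars_of (fun hj => (S.tau_vars hj).2.2.2.2.2 rfl) S.tau_ne h1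

lemma psi_prime : Prime S.psi :=
  prime_lin S.hbett _ (fun hj => (S.rho_vars hj).2.2.2.2 rfl) S.X_ndvd_psi'

lemma f_prime : Prime S.f := by
  refine prime_lin S.hals _ (fun hj => (S.sg_vars hj).2.2 rfl) ?_
  intro h
  have h2 : (MvPolynomial.X S.s : MvPolynomial ι ℂ) ∣ MvPolynomial.X S.s * S.g :=
    dvd_mul_right _ _
  exact notMem_vars_of (fun hj => (S.psi_vars hj).2.2.2 rfl) S.psi_prime.ne_zero
    ((dvd_add_right h2).1 h)

end BData

end Kp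

end Pool.Agent.RCH
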