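import Pool.Agent.RCH.Star

/-!
# Codimension one on the product with a last factor
-/

set_option autoImplicit false

open MvPolynomial

namespace Pool.Agent.RCH

/-- Krull: there is no prime strictly between a prime `I` and a minimal prime over `I + (x)` -/
lemma krull_between {R : Type} [CommRing R] [IsNoetherianRing R] {I p : Ideal R} [hI : I.IsPrime]
    {x : R} (hp : p ∈ (I ⊔ Ideal.span {x}).minimalPrimes) {L : Ideal R} (hL : L.IsPrime)
    (h1 : I ≤ L) (h2 : L < p) : L = I := by
  have h := Ideal.map_height_le_one_of_mem_minimalPrimes hp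
  have hpp : p.IsPrime := hp.1.1
  have hLp : (L.map (Ideal.Quotient.mk I)).IsPrime :=
    Ideal.map_isPrime_of_surjective Ideal.Quotient.mk_surjective (by rwa [Ideal.mk_ker])
  have hpp' : (p.map (Ideal.Quotient.mk I)).IsPrime :=
    Ideal.map_isPrime_of_surjective Ideal.Quotient.mk_surjective
      (by rw [Ideal.mk_ker]; exact h1.trans h2.le)
  have hcm : ∀ K : Ideal R, I ≤ K → (K.map (Ideal.Quotient.mk I)).comap (Ideal.Quotient.mk I) = K := by
    intro K hK
    rw [Ideal.comap_map_of_surjective _ Ideal.Quotient.mk_surjective, ← RingHom.ker_eq_comap_bot,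
      Ideal.mk_ker, sup_eq_left.2 hK]
  have hlt : L.map (Ideal.Quotient.mk I) < p.map (Ideal.Quotient.mk I) := by
    refine lt_of_le_of_ne (Ideal.map_mono h2.le) fun he => ?_
    apply h2.ne
    rw [← hcm L h1, he, hcm p (h1.trans h2.le)]
  have h' : (p.map (Ideal.Quotient.mk I)).height ≤ ((1 : ℕ) : ℕ∞) := h
  have h3 := (Ideal.height_le_iff.1 h') _ hLp hlt
  have h4 : (L.map (Ideal.Quotient.mk I)).height = 0 := by
    have h5 : (L.map (Ideal.Quotient.mk I)).height < 1 := h3
    exact Order.lt_one_iff.1 h5
  rw [Ideal.height_eq_zero_iff_eq_bot] at h4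
  rw [← hcm L h1, h4, ← RingHom.ker_eq_comap_bot, Ideal.mk_ker]

variable {ι : Type} {N : ℕ}

/-- a prime of codimension one over `P * J` containing a function of the first factor -/
theorem codimOne_star_of_mem [Finite ι] (P : Ideal (Coord ι N)) (J : Ideal (Coord ι 1))
    [hJ : J.IsPrime] (Q' : Ideal (Coord ι (N + 1))) [hQ' : Q'.IsPrime]
    (hc : CodimOne (star P J) Q') {g : Coord ι N} (hg : inc ι N g ∈ Q') (hgP : g ∉ P) :
    CodimOne P (Q'.comap (inc ι N).toRingHom) ∧ Q' = star (Q'.comap (inc ι N).toRingHom) J := by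
  obtain ⟨hlt, hcov⟩ := hc
  set q := Q'.comap (inc ι N).toRingHom with hq
  have hqp : q.IsPrime := Ideal.comap_isPrime _ _
  have hPq : P ≤ q := ((star_le_iff P J Q').1 hlt.le).1
  have hle : star q J ≤ Q' := (star_le_iff q J Q').2 ⟨le_rfl, ((star_le_iff P J Q').1 hlt.le).2⟩
  have hne : q ≠ P := by
    intro h
    apply hgP
    rw [← h]
    exact hg
  have heq : star q J = Q' := by
    rcases hle.lt_or_eq with h | h
    · exfalso
      have := hcov _ (star_prime q J) (star_mono hPq J) h
      exact hne (star_injective J this)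
    · exact h
  refine ⟨⟨lt_of_le_of_ne hPq (Ne.symm hne), ?_⟩, heq.symm⟩
  intro L hL h1 h2
  have h3 := hcov (star L J) (star_prime L J) (star_mono h1 J) (by
    rw [← heq]
    exact lt_of_le_of_ne (star_mono h2.le J) fun h => h2.ne (star_injective J h))
  exact star_injective J h3

/-- a prime of codimension one gives a prime of codimension one of the product -/
theorem codimOne_star [Finite ι] (P q : Ideal (Coord ι N)) [hP : P.IsPrime] [hq : q.IsPrime]
    (J : Ideal (Coord ι 1)) [hJ : J.IsPrime] (hc : CodimOne P q) :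
    CodimOne (star P J) (star q J) := by
  obtain ⟨hlt, hcov⟩ := hc
  obtain ⟨g, hgq, hgP⟩ := SetLike.exists_of_lt hlt
  have hPJ : (star P J).IsPrime := star_prime P J
  have hqJ : (star q J).IsPrime := star_prime q J
  refine ⟨lt_of_le_of_ne (star_mono hlt.le J) fun h => hlt.ne (star_injective J h), ?_⟩
  intro L hL h1 h2
  refine krull_between (x := inc ι N g) ?_ hL h1 h2
  refine ⟨⟨hqJ, sup_le (star_mono hlt.le J) ?_⟩, ?_⟩
  · rw [Ideal.span_le, Set.singleton_subset_iff]
    exact le_star_left q J hgq
  · rintro M ⟨hM, hM1⟩ hM2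
    have hM1' := sup_le_iff.1 hM1
    have h3 := (star_le_iff P J M).1 hM1'.1
    have hgM : inc ι N g ∈ M := hM1'.2 (Ideal.mem_span_singleton_self _)
    have hmp : (M.comap (inc ι N).toRingHom).IsPrime := Ideal.comap_isPrime _ _
    have hMq : M.comap (inc ι N).toRingHom ≤ q := by
      rw [← star_comap_inc q J]
      exact Ideal.comap_mono hM2
    have hMq' : M.comap (inc ι N).toRingHom = q := by
      rcases hMq.lt_or_eq with h | h
      · exfalso
        have := hcov _ hmp h3.1 h
        apply hgP
        rw [← this]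
        exact hgM
      · exact h
    exact (star_le_iff q J M).2 ⟨hMq'.ge, h3.2⟩

/-- the converse -/
theorem codimOne_of_star [Finite ι] (P q : Ideal (Coord ι N)) (J : Ideal (Coord ι 1))
    [hJ : J.IsPrime] (hc : CodimOne (star P J) (star q J)) : CodimOne P q := by
  obtain ⟨hlt, hcov⟩ := hc
  have hle : P ≤ q := by
    rw [← star_comap_inc P J, ← star_comap_inc q J]
    exact Ideal.comap_mono hlt.le
  refine ⟨lt_of_le_of_ne hle fun h => hlt.ne (by rw [h]), ?_⟩
  intro L hL h1 h2
  have h3 := hcov (star L J) (star_prime L J) (star_mono h1 J)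
    (lt_of_le_of_ne (star_mono h2.le J) fun h => h2.ne (star_injective J h))
  exact star_injective J h3

end Pool.Agent.RCH
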