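import Pool.Agent.RCH.Lift
import Pool.Agent.RCH.Ord2
import Pool.Agent.RCH.Fin
import Pool.Agent.RCH.StarCodim

/-!
# Auxiliary primes: orders of vanishing and codimension one depend only on the local ideal
-/

set_option autoImplicit false

namespace Pool.Agent.RCH

/-- local inclusion of ideals -/
lemma leq_map {R : Type} [CommRing R] {P P' Q : Ideal R} [Q.IsPrime] {g f : R}
    (h1 : ∀ z ∈ P, toLocMod (P' ⊔ Ideal.span {f}) Q z = 0)
    (h2 : toLocMod (P' ⊔ Ideal.span {f}) Q g = 0) :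
    (P ⊔ Ideal.span {g}).map (algebraMap R (Localization.AtPrime Q)) ≤
      (P' ⊔ Ideal.span {f}).map (algebraMap R (Localization.AtPrime Q)) := by
  rw [map_sup_span, sup_le_iff, Ideal.map_le_iff_le_comap, Ideal.span_le,
    Set.singleton_subset_iff]
  refine ⟨fun z hz => ?_, ?_⟩
  · have h := h1 z hz
    rw [toLocMod, RingHom.comp_apply, Ideal.Quotient.eq_zero_iff_mem] at h
    exact h
  · rw [toLocMod, RingHom.comp_apply, Ideal.Quotient.eq_zero_iff_mem] at h2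
    exact h2

/-- auxiliary primes: `P + (g)` and `P' + (f)` agree locally at `Q` -/
theorem leq_ord {R : Type} [CommRing R] {P P' Q : Ideal R} [Q.IsPrime] {g f : R}
    (h1 : ∀ z ∈ P, toLocMod (P' ⊔ Ideal.span {f}) Q z = 0)
    (h2 : toLocMod (P' ⊔ Ideal.span {f}) Q g = 0)
    (h3 : ∀ z ∈ P', toLocMod (P ⊔ Ideal.span {g}) Q z = 0)
    (h4 : toLocMod (P ⊔ Ideal.span {g}) Q f = 0) : ordAt P Q g = ordAt P' Q f := by
  unfold ordAt
  rw [le_antisymm (leq_map h1 h2) (leq_map h3 h4)]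

/-- the same for a prime below `Q` -/
lemma leq_le {R : Type} [CommRing R] {P P' Q : Ideal R} [Q.IsPrime] {g f : R}
    (h1 : ∀ z ∈ P, toLocMod (P' ⊔ Ideal.span {f}) Q z = 0)
    (h2 : toLocMod (P' ⊔ Ideal.span {f}) Q g = 0) {L : Ideal R} (hL : L.IsPrime)
    (hle : P' ⊔ Ideal.span {f} ≤ L) (hLQ : L ≤ Q) : P ⊔ Ideal.span {g} ≤ L := by
  have key : ∀ z, toLocMod (P' ⊔ Ideal.span {f}) Q z = 0 → z ∈ L := by
    intro z hz
    obtain ⟨s, hs, hsz⟩ := exists_of_toLocMod_eq_zero hz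
    exact (hL.mem_or_mem (hle hsz)).resolve_left fun hc => hs (hLQ hc)
  rw [sup_le_iff, Ideal.span_le, Set.singleton_subset_iff]
  exact ⟨fun z hz => key z (h1 z hz), key g h2⟩

theorem leq_codim {R : Type} [CommRing R] [IsNoetherianRing R] {P P' Q : Ideal R} [P.IsPrime]
    [P'.IsPrime] [Q.IsPrime] {g f : R} (hP : P ≤ Q) (hg : g ∈ Q) (hgP : g ∉ P) (hfP : f ∉ P')
    (h1 : ∀ z ∈ P, toLocMod (P' ⊔ Ideal.span {f}) Q z = 0)
    (h2 : toLocMod (P' ⊔ Ideal.span {f}) Q g = 0)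
    (h3 : ∀ z ∈ P', toLocMod (P ⊔ Ideal.span {g}) Q z = 0)
    (h4 : toLocMod (P ⊔ Ideal.span {g}) Q f = 0) (hc : CodimOne P' Q) : CodimOne P Q := by
  have hPQ : P ⊔ Ideal.span {g} ≤ Q := by
    rw [sup_le_iff, Ideal.span_le, Set.singleton_subset_iff]
    exact ⟨hP, hg⟩
  have hfQ : f ∈ Q :=
    leq_le h3 h4 ‹Q.IsPrime› hPQ le_rfl
      (Ideal.mem_sup_right (Ideal.mem_span_singleton_self f))
  have h5 := hc.mem_minimalPrimes hfP hfQ
  have h6 : Q ∈ (P ⊔ Ideal.span {g}).minimalPrimes := by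
    refine ⟨⟨‹Q.IsPrime›, hPQ⟩, ?_⟩
    rintro L ⟨hL, hPL⟩ hLQ
    exact h5.2 ⟨hL, leq_le h3 h4 hL hPL hLQ⟩ hLQ
  refine ⟨lt_of_le_of_ne hP ?_, fun L hL hPL hLQ => krull_between h6 hL hPL hLQ⟩
  rintro rfl
  exact hgP hg

end Pool.Agent.RCH
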