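import Pool.Agent.RCH.KpDefs
import Pool.Agent.RCH.Lift
import Pool.Agent.RCH.Homg
import Pool.Agent.RCH.Ord2
import Pool.Agent.RCH.LnGen
import Pool.Agent.RCH.LnLEQ

/-!
# Points of the powers of a hypersurface, with coordinates indexed by a finite type
-/

set_option autoImplicit false

open MvPolynomial

namespace Pool.Agent.RCH

namespace Kp

variable {ι : Type}

@[simp] lemma wt_hyp (F : MvPolynomial ι ℂ) (j : ι) : (hyp F).wt j = 1 := rfl

/-! ### Values -/

section ev

variable {L L' : Type} [CommRing L] [CommRing L'] (c : ℂ →+* L) (e : ι → L)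

lemma map_ev (f : L →+* L') (p : MvPolynomial ι ℂ) :
    f (eval₂Hom c e p) = eval₂Hom (f.comp c) (fun j => f (e j)) p := by
  have h : f.comp (eval₂Hom c e) = eval₂Hom (f.comp c) (fun j => f (e j)) := by
    apply MvPolynomial.ringHom_ext
    · intro a
      simp
    · intro j
      simp
  exact congrArg (fun ψ => ψ p) h

lemma ev_congr {p : MvPolynomial ι ℂ} {e' : ι → L} (h : ∀ j ∈ p.vars, e j = e' j) :
    eval₂Hom c e p = eval₂Hom c e' p :=
  eval₂Hom_congr' rfl (fun j hj _ => h j hj) rfl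

lemma ev_smul {n : ℕ} {p : MvPolynomial ι ℂ} (hp : p.IsHomogeneous n) (k : L) :
    eval₂Hom c (fun j => k * e j) p = k ^ n * eval₂Hom c e p :=
  eval₂Hom_smul_of_isHomogeneous c hp k e

lemma ev_eq_zero_of_mem {s : Set (MvPolynomial ι ℂ)} {p : MvPolynomial ι ℂ}
    (hp : p ∈ Ideal.span s) (h : ∀ q ∈ s, eval₂Hom c e q = 0) : eval₂Hom c e p = 0 := by
  have hle : Ideal.span s ≤ RingHom.ker (eval₂Hom c e) := Ideal.span_le.2 fun q hq => h q hq
  exact hle hp

end ev

/-! ### The coordinates of the points of a power under a homomorphism -/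

section coords

variable {N : ℕ} {L : Type} [CommRing L] (φ : Coord ι N →+* L)

/-- the values of the constants -/
noncomputable def cs : ℂ →+* L := φ.comp C

/-- the values of the coordinates of the `i`-th point -/
noncomputable def xs (i : Fin N) (j : ι) : L := φ (MvPolynomial.X (i, j))

lemma map_inFactor (i : Fin N) (p : MvPolynomial ι ℂ) :
    φ (inFactor N i p) = eval₂Hom (cs φ) (xs φ i) p := by
  have h : φ.comp (inFactor N i).toRingHom = eval₂Hom (cs φ) (xs φ i) := by
    apply MvPolynomial.ringHom_ext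
    · intro a
      simp [cs, inFactor]
    · intro j
      simp [xs, inFactor]
  exact congrArg (fun ψ => ψ p) h

end coords

/-- a pair of points -/
def pair {D : Type} (e f : ι → D) (v : Fin 2 × ι) : D := if v.1 = 0 then e v.2 else f v.2

@[simp] lemma pair_zero {D : Type} (e f : ι → D) (j : ι) : pair e f (0, j) = e j := rfl

@[simp] lemma pair_one {D : Type} (e f : ι → D) (j : ι) : pair e f (1, j) = f j := rfl

/-- the minors -/
noncomputable def mn (i j : ι) : Coord ι 2 :=
  MvPolynomial.X (0, i) * MvPolynomial.X (1, j) - MvPolynomial.X (1, i) * MvPolynomial.X (0, j)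

lemma map_mn {L : Type} [CommRing L] (φ : Coord ι 2 →+* L) (i j : ι) :
    φ (mn i j) = xs φ 0 i * xs φ 1 j - xs φ 1 i * xs φ 0 j := by
  simp only [mn, map_sub, map_mul]
  rfl

/-! ### Points with given coordinates -/

section points

variable (F : MvPolynomial ι ℂ) {N : ℕ} {n : ℕ} {D : Type} [CommRing D] [Algebra ℂ D]

lemma onX_of {F : MvPolynomial ι ℂ} (hF : F.IsHomogeneous n) (d : Fin N × ι → D)
    (h : ∀ i, eval₂Hom (algebraMap ℂ D) (fun j => d (i, j)) F = 0) :
    ∀ (i : Fin N), ∀ f ∈ (hyp F).eqs, inFactor N i f ∈ genIdeal (hyp F) d := by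
  intro i f hf
  have hf' : f ∈ Ideal.span {F} := hf
  obtain ⟨q, rfl⟩ := Ideal.mem_span_singleton'.mp hf'
  rw [map_mul]
  refine Ideal.mul_mem_left _ _ ?_
  have hw : IsWeightedHomogeneous (hyp F).wt F n := hF
  rw [mem_genIdeal_of_homogeneous (hyp F) d (inFactor_homogeneous (hyp F) i hw), inFactor_aeval]
  exact h i

/-- the point with given coordinates -/
noncomputable def pt [IsDomain D] {F : MvPolynomial ι ℂ} (hF : F.IsHomogeneous n)
    (d : Fin N × ι → D) (hrel : ∀ i, ∃ j, d (i, j) ≠ 0)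
    (h : ∀ i, eval₂Hom (algebraMap ℂ D) (fun j => d (i, j)) F = 0) : Pt (hyp F) N :=
  mkPt (hyp F) d hrel (onX_of hF d h)

lemma pt_I [IsDomain D] {F : MvPolynomial ι ℂ} (hF : F.IsHomogeneous n)
    (d : Fin N × ι → D) (hrel : ∀ i, ∃ j, d (i, j) ≠ 0)
    (h : ∀ i, eval₂Hom (algebraMap ℂ D) (fun j => d (i, j)) F = 0) :
    (pt hF d hrel h).I = genIdeal (hyp F) d := rfl

/-- an element of the ideal of the point with coordinates `d` vanishes at the points which are, up to
scaling, images of `d` -/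
lemma kill_gen (d : Fin N × ι → D) {L : Type} [CommRing L] (φ : Coord ι N →+* L) (γ : D →+* L)
    (w : Fin N → L) (hc : ∀ a : ℂ, γ (algebraMap ℂ D a) = cs φ a)
    (h : ∀ i j, xs φ i j = γ (d (i, j)) * w i) {z : Coord ι N}
    (hz : z ∈ genIdeal (hyp F) d) : φ z = 0 := by
  refine genIdeal_lift (hyp F) d φ γ w (fun a => (hc a).symm) ?_ hz
  rintro ⟨i, j⟩
  rw [wt_hyp, pow_one]
  exact h i j

lemma X_mem_gen (d : Fin N × ι → D) (v : Fin N × ι) :
    (MvPolynomial.X v : Coord ι N) ∈ genIdeal (hyp F) d ↔ d v = 0 := X_mem_genIdeal (hyp F) d v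

/-- the value of an element of the ideal of a point -/
lemma ev_gen (d : Fin N × ι → D) {z : Coord ι N} (hz : z ∈ genIdeal (hyp F) d) :
    aeval d z = 0 := aeval_of_mem (hyp F) d hz

lemma mem_gen (d : Fin N × ι → D) {e : Fin N → ℕ} {z : Coord ι N}
    (hz : IsWeightedHomogeneous ((hyp F).mdeg N) z e) :
    z ∈ genIdeal (hyp F) d ↔ aeval d z = 0 := mem_genIdeal_of_homogeneous (hyp F) d hz

end points

end Kp

end Pool.Agent.RCH
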