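import Pool.Agent.RCH.StarLen
import Pool.Agent.RCH.StarCodim

/-!
# Cones: free and killed variables

For an injective map `e : σ → τ` of sets of variables and a set `K` of variables in `τ` which are not
in the image, the cone over an ideal `I` of the polynomials in `σ` is the ideal of the polynomials in
`τ` generated by `I` and by the variables in `K`; the variables in neither set are free. Cones of
primes are prime, and codimension one and orders of vanishing do not change.
-/

set_option autoImplicit false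

open MvPolynomial

namespace Pool.Agent.RCH

section cone

variable {σ τ : Type} (e : σ → τ) (K : Set τ)

/-- the ideal of the cone over `I`: the variables in `K` are killed, those which are not in `K` and
not in the image of `e` are free -/
noncomputable def coneIdeal (I : Ideal (MvPolynomial σ ℂ)) : Ideal (MvPolynomial τ ℂ) :=
  I.map (rename (R := ℂ) e).toRingHom ⊔ Ideal.span (MvPolynomial.X '' K)

lemma rename_mem_coneIdeal {I : Ideal (MvPolynomial σ ℂ)} {z : MvPolynomial σ ℂ} (hz : z ∈ I) :
    rename (R := ℂ) e z ∈ coneIdeal e K I :=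
  Ideal.mem_sup_left (Ideal.mem_map_of_mem (rename (R := ℂ) e).toRingHom hz)

lemma X_mem_coneIdeal (I : Ideal (MvPolynomial σ ℂ)) {t : τ} (ht : t ∈ K) :
    (MvPolynomial.X t : MvPolynomial τ ℂ) ∈ coneIdeal e K I :=
  Ideal.mem_sup_right (Ideal.subset_span ⟨t, ht, rfl⟩)

lemma coneIdeal_le_iff (I : Ideal (MvPolynomial σ ℂ)) (Q : Ideal (MvPolynomial τ ℂ)) :
    coneIdeal e K I ≤ Q ↔ I ≤ Q.comap (rename (R := ℂ) e).toRingHom ∧
      ∀ t ∈ K, (MvPolynomial.X t : MvPolynomial τ ℂ) ∈ Q := by
  unfold coneIdeal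
  rw [sup_le_iff, Ideal.map_le_iff_le_comap, Ideal.span_le]
  refine and_congr_right fun _ => ?_
  constructor
  · intro h t ht
    exact h ⟨t, ht, rfl⟩
  · rintro h _ ⟨t, ht, rfl⟩
    exact h t ht

/-- an element of the cone is killed by a homomorphism if the equations are -/
lemma kill_coneIdeal {L : Type} [CommRing L] (φ : MvPolynomial τ ℂ →+* L)
    {I : Ideal (MvPolynomial σ ℂ)} (h : ∀ z ∈ I, φ (rename (R := ℂ) e z) = 0)
    (hK : ∀ t ∈ K, φ (MvPolynomial.X t) = 0) {z : MvPolynomial τ ℂ} (hz : z ∈ coneIdeal e K I) :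
    φ z = 0 := by
  have h1 : coneIdeal e K I ≤ RingHom.ker φ := by
    rw [coneIdeal_le_iff]
    exact ⟨fun z hz => h z hz, fun t ht => hK t ht⟩
  exact h1 hz

lemma coneIdeal_mono {I J : Ideal (MvPolynomial σ ℂ)} (h : I ≤ J) :
    coneIdeal e K I ≤ coneIdeal e K J :=
  sup_le_sup_right (Ideal.map_mono h) _

lemma coneIdeal_sup_span (I : Ideal (MvPolynomial σ ℂ)) (g : MvPolynomial σ ℂ) :
    coneIdeal e K (I ⊔ Ideal.span {g}) = coneIdeal e K I ⊔ Ideal.span {rename (R := ℂ) e g} := by
  unfold coneIdeal
  rw [Ideal.map_sup, Ideal.map_span, Set.image_singleton]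
  show _ ⊔ Ideal.span {rename (R := ℂ) e g} ⊔ _ = _
  ac_rfl

lemma coneIdeal_sup (I J : Ideal (MvPolynomial σ ℂ)) :
    coneIdeal e K (I ⊔ J) = coneIdeal e K I ⊔ coneIdeal e K J := by
  unfold coneIdeal
  rw [Ideal.map_sup]
  apply le_antisymm
  · exact sup_le (sup_le (le_sup_left.trans le_sup_left) (le_sup_left.trans le_sup_right))
      (le_sup_right.trans le_sup_left)
  · exact sup_le (sup_le (le_sup_left.trans le_sup_left) le_sup_right)
      (sup_le (le_sup_right.trans le_sup_left) le_sup_right)

/-- a cone over a cone is a cone -/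
lemma coneIdeal_coneIdeal {ρ : Type} (e' : ρ → σ) (K' : Set σ) (I : Ideal (MvPolynomial ρ ℂ)) :
    coneIdeal e K (coneIdeal e' K' I) = coneIdeal (e ∘ e') (K ∪ e '' K') I := by
  have h1 : ((rename (R := ℂ) e).toRingHom.comp (rename (R := ℂ) e').toRingHom) =
      (rename (R := ℂ) (e ∘ e')).toRingHom := by
    refine RingHom.ext fun p => ?_
    exact rename_rename e' e p
  unfold coneIdeal
  rw [Ideal.map_sup, Ideal.map_map, h1, Ideal.map_span, Set.image_image, Set.image_union,
    Set.image_image, Ideal.span_union]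
  have h2 : (fun x => (rename (R := ℂ) e).toRingHom (MvPolynomial.X x)) '' K' =
      (fun x => (MvPolynomial.X (e x) : MvPolynomial τ ℂ)) '' K' := by
    refine Set.image_congr fun x _ => ?_
    exact rename_X e x
  rw [h2]
  ac_rfl

/-! ### The model: polynomials in the free variables -/

/-- the free variables -/
abbrev FreeVar : Type := {t : τ // t ∉ K ∧ t ∉ Set.range e}

open Classical in
/-- the killed variables go to zero, the polynomials in `σ` become the coefficients -/
noncomputable def conePi : MvPolynomial τ ℂ →ₐ[ℂ] MvPolynomial (FreeVar e K) (MvPolynomial σ ℂ) :=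
  aeval fun t => if h : t ∉ K ∧ t ∉ Set.range e then MvPolynomial.X ⟨t, h⟩ else
    if h' : t ∈ Set.range e then C (MvPolynomial.X h'.choose) else 0

/-- back -/
noncomputable def coneBack : MvPolynomial (FreeVar e K) (MvPolynomial σ ℂ) →+* MvPolynomial τ ℂ :=
  eval₂Hom (rename (R := ℂ) e).toRingHom (fun t => MvPolynomial.X t.1)

variable {e K}

lemma conePi_X_free {t : τ} (h : t ∉ K ∧ t ∉ Set.range e) :
    conePi e K (MvPolynomial.X t) = MvPolynomial.X ⟨t, h⟩ := by
  rw [conePi, aeval_X, dif_pos h]

lemma conePi_X_e (he : Function.Injective e) (s : σ) :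
    conePi e K (MvPolynomial.X (e s)) = C (MvPolynomial.X s) := by
  have h1 : ¬ (e s ∉ K ∧ e s ∉ Set.range e) := fun h => h.2 ⟨s, rfl⟩
  have h2 : e s ∈ Set.range e := ⟨s, rfl⟩
  rw [conePi, aeval_X, dif_neg h1, dif_pos h2]
  congr 2
  exact he h2.choose_spec

lemma conePi_X_K (hK : ∀ s, e s ∉ K) {t : τ} (ht : t ∈ K) :
    conePi e K (MvPolynomial.X t) = 0 := by
  have h1 : ¬ (t ∉ K ∧ t ∉ Set.range e) := fun h => h.1 ht
  have h2 : t ∉ Set.range e := by
    rintro ⟨s, rfl⟩
    exact hK s ht
  rw [conePi, aeval_X, dif_neg h1, dif_neg h2]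

lemma conePi_rename (he : Function.Injective e) (z : MvPolynomial σ ℂ) :
    conePi e K (rename (R := ℂ) e z) = C z := by
  have h : (conePi e K).toRingHom.comp (rename (R := ℂ) e).toRingHom =
      (C : MvPolynomial σ ℂ →+* MvPolynomial (FreeVar e K) (MvPolynomial σ ℂ)) := by
    apply MvPolynomial.ringHom_ext
    · intro a
      show conePi e K (rename (R := ℂ) e (C a)) = C (C a)
      rw [rename_C]
      exact (conePi e K).commutes a
    · intro s
      show conePi e K (rename (R := ℂ) e (MvPolynomial.X s)) = _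
      rw [rename_X, conePi_X_e he]
  exact congrArg (fun ψ => ψ z) h

lemma conePi_surjective (he : Function.Injective e) : Function.Surjective (conePi e K) := by
  intro p
  induction p using MvPolynomial.induction_on with
  | C z => exact ⟨rename (R := ℂ) e z, conePi_rename he z⟩
  | add p q hp hq =>
    obtain ⟨a, rfl⟩ := hp
    obtain ⟨b, rfl⟩ := hq
    exact ⟨a + b, map_add _ _ _⟩
  | mul_X p t hp =>
    obtain ⟨a, rfl⟩ := hp
    exact ⟨a * MvPolynomial.X t.1, by rw [map_mul, conePi_X_free t.2]⟩

/-- the kernel of the model -/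
lemma sub_back_mem (he : Function.Injective e) (z : MvPolynomial τ ℂ) :
    z - coneBack e K (conePi e K z) ∈ Ideal.span ((MvPolynomial.X : τ → MvPolynomial τ ℂ) '' K) := by
  have hmk : (Ideal.Quotient.mk (Ideal.span ((MvPolynomial.X : τ → MvPolynomial τ ℂ) '' K))).comp
      ((coneBack e K).comp (conePi e K).toRingHom) =
      Ideal.Quotient.mk (Ideal.span ((MvPolynomial.X : τ → MvPolynomial τ ℂ) '' K)) := by
    apply MvPolynomial.ringHom_ext
    · intro a
      simp only [RingHom.comp_apply]
      congr 1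
      show coneBack e K (conePi e K (C a)) = C a
      have h : conePi e K (C a) = C (C a) := (conePi e K).commutes a
      rw [h, coneBack, coe_eval₂Hom, eval₂_C]
      show rename (R := ℂ) e (C a) = C a
      exact rename_C e a
    · intro t
      simp only [RingHom.comp_apply]
      show Ideal.Quotient.mk _ (coneBack e K (conePi e K (MvPolynomial.X t))) = _
      by_cases h : t ∉ K ∧ t ∉ Set.range e
      · rw [conePi_X_free h, coneBack, coe_eval₂Hom, eval₂_X]
      · by_cases h' : t ∈ Set.range e
        · obtain ⟨s, rfl⟩ := h'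
          rw [conePi_X_e he, coneBack, coe_eval₂Hom, eval₂_C]
          congr 1
          exact rename_X e s
        · have hK : t ∈ K := by
            by_contra hc
            exact h ⟨hc, h'⟩
          have h0 : conePi e K (MvPolynomial.X t) = 0 := by
            rw [conePi, aeval_X, dif_neg h, dif_neg h']
          rw [h0, map_zero, map_zero, eq_comm, Ideal.Quotient.eq_zero_iff_mem]
          exact Ideal.subset_span ⟨t, hK, rfl⟩
  rw [← Ideal.Quotient.eq]
  exact (congrArg (fun ψ => ψ z) hmk).symm

/-- the cone through the model -/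
lemma coneIdeal_eq_comap (he : Function.Injective e) (hK : ∀ s, e s ∉ K)
    (I : Ideal (MvPolynomial σ ℂ)) :
    coneIdeal e K I = (I.map (C : MvPolynomial σ ℂ →+*
      MvPolynomial (FreeVar e K) (MvPolynomial σ ℂ))).comap (conePi e K).toRingHom := by
  apply le_antisymm
  · rw [coneIdeal_le_iff]
    refine ⟨fun z hz => ?_, fun t ht => ?_⟩
    · rw [Ideal.mem_comap, Ideal.mem_comap]
      have h := conePi_rename (K := K) he z
      have h1 : (conePi e K).toRingHom ((rename (R := ℂ) e).toRingHom z) = C z := h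
      rw [h1]
      exact Ideal.mem_map_of_mem _ hz
    · rw [Ideal.mem_comap]
      have h1 : (conePi e K).toRingHom (MvPolynomial.X t) = 0 := conePi_X_K hK ht
      rw [h1]
      exact Ideal.zero_mem _
  · intro z hz
    have hz' : conePi e K z ∈ I.map (C : MvPolynomial σ ℂ →+*
      MvPolynomial (FreeVar e K) (MvPolynomial σ ℂ)) := hz
    have h1 : coneBack e K (conePi e K z) ∈ I.map (rename (R := ℂ) e).toRingHom := by
      have h2 : I.map (C : MvPolynomial σ ℂ →+*
          MvPolynomial (FreeVar e K) (MvPolynomial σ ℂ)) ≤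
          (I.map (rename (R := ℂ) e).toRingHom).comap (coneBack e K) := by
        rw [Ideal.map_le_iff_le_comap]
        intro y hy
        rw [Ideal.mem_comap, Ideal.mem_comap, coneBack, coe_eval₂Hom, eval₂_C]
        exact Ideal.mem_map_of_mem _ hy
      exact h2 hz'
    have h3 : z = (z - coneBack e K (conePi e K z)) + coneBack e K (conePi e K z) := by ring
    rw [h3]
    exact add_mem (Ideal.mem_sup_right (sub_back_mem he z)) (Ideal.mem_sup_left h1)

lemma prime_map_C {A F : Type} [CommRing A] (I : Ideal A) [hI : I.IsPrime] :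
    (I.map (C : A →+* MvPolynomial F A)).IsPrime := by
  have h := MvPolynomial.ker_map (σ := F) (Ideal.Quotient.mk I)
  rw [Ideal.mk_ker] at h
  rw [← h]
  exact RingHom.ker_isPrime _

lemma comap_map_C {A F : Type} [CommRing A] (I : Ideal A) :
    (I.map (C : A →+* MvPolynomial F A)).comap (C : A →+* MvPolynomial F A) = I := by
  ext z
  rw [Ideal.mem_comap, MvPolynomial.mem_map_C_iff]
  constructor
  · intro h
    have := h 0
    rwa [coeff_zero_C] at this
  · intro h m
    classical
    rw [coeff_C]
    split_ifs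
    · exact h
    · exact I.zero_mem

/-- the cone over a prime is prime -/
theorem coneIdeal_prime (he : Function.Injective e) (hK : ∀ s, e s ∉ K)
    (I : Ideal (MvPolynomial σ ℂ)) [hI : I.IsPrime] : (coneIdeal e K I).IsPrime := by
  rw [coneIdeal_eq_comap he hK]
  have := prime_map_C (F := FreeVar e K) I
  exact Ideal.comap_isPrime _ _

lemma coneIdeal_comap (he : Function.Injective e) (hK : ∀ s, e s ∉ K)
    (I : Ideal (MvPolynomial σ ℂ)) :
    (coneIdeal e K I).comap (rename (R := ℂ) e).toRingHom = I := by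
  rw [coneIdeal_eq_comap he hK, Ideal.comap_comap]
  have h : (conePi e K).toRingHom.comp (rename (R := ℂ) e).toRingHom =
      (C : MvPolynomial σ ℂ →+* MvPolynomial (FreeVar e K) (MvPolynomial σ ℂ)) :=
    RingHom.ext fun z => conePi_rename he z
  rw [h, comap_map_C]

lemma rename_mem_coneIdeal_iff (he : Function.Injective e) (hK : ∀ s, e s ∉ K)
    (I : Ideal (MvPolynomial σ ℂ)) (z : MvPolynomial σ ℂ) :
    rename (R := ℂ) e z ∈ coneIdeal e K I ↔ z ∈ I := by
  constructor
  · intro h
    rw [← coneIdeal_comap he hK I]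
    exact h
  · exact rename_mem_coneIdeal e K

lemma coneIdeal_injective (he : Function.Injective e) (hK : ∀ s, e s ∉ K) :
    Function.Injective (coneIdeal e K) := by
  intro I J h
  rw [← coneIdeal_comap he hK I, h, coneIdeal_comap he hK J]

/-- the free variables are not in a proper cone -/
lemma X_notMem_coneIdeal (he : Function.Injective e) (hK : ∀ s, e s ∉ K)
    {I : Ideal (MvPolynomial σ ℂ)} (hI : I ≠ ⊤) {t : τ} (h : t ∉ K) (h' : t ∉ Set.range e) :
    (MvPolynomial.X t : MvPolynomial τ ℂ) ∉ coneIdeal e K I := by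
  classical
  have h1 : (conePi e K).toRingHom (MvPolynomial.X t) = MvPolynomial.X ⟨t, h, h'⟩ :=
    conePi_X_free ⟨h, h'⟩
  rw [coneIdeal_eq_comap he hK, Ideal.mem_comap, h1, MvPolynomial.mem_map_C_iff]
  intro hc
  have := hc (Finsupp.single ⟨t, h, h'⟩ 1)
  rw [coeff_X, if_pos rfl] at this
  exact hI ((Ideal.eq_top_iff_one I).2 this)

/-- the order of vanishing of an equation in the given variables on the cone -/
theorem ordAt_cone (he : Function.Injective e) (hK : ∀ s, e s ∉ K)
    (P q : Ideal (MvPolynomial σ ℂ)) [hq : q.IsPrime] [hs : (coneIdeal e K q).IsPrime]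
    (g : MvPolynomial σ ℂ) :
    ordAt (coneIdeal e K P) (coneIdeal e K q) (rename (R := ℂ) e g) = ordAt P q g := by
  have hflat : (C : MvPolynomial σ ℂ →+*
      MvPolynomial (FreeVar e K) (MvPolynomial σ ℂ)).Flat :=
    (RingHom.flat_algebraMap_iff (R := MvPolynomial σ ℂ)
      (S := MvPolynomial (FreeVar e K) (MvPolynomial σ ℂ))).2 inferInstance
  exact ordAt_model (C : MvPolynomial σ ℂ →+* MvPolynomial (FreeVar e K) (MvPolynomial σ ℂ))
    (conePi e K).toRingHom (conePi_surjective he) hflat P q hq _ _ hs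
    (coneIdeal_eq_comap he hK P) (coneIdeal_eq_comap he hK q) (prime_map_C q) (comap_map_C q) g _
    (conePi_rename he g)

/-- a prime of codimension one over a cone containing an equation in the given variables is a cone -/
theorem codimOne_cone_of_mem (he : Function.Injective e) (hK : ∀ s, e s ∉ K)
    (P : Ideal (MvPolynomial σ ℂ)) (Q' : Ideal (MvPolynomial τ ℂ)) [hQ' : Q'.IsPrime]
    (hc : CodimOne (coneIdeal e K P) Q') {g : MvPolynomial σ ℂ} (hg : rename (R := ℂ) e g ∈ Q')
    (hgP : g ∉ P) : CodimOne P (Q'.comap (rename (R := ℂ) e).toRingHom) ∧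
      Q' = coneIdeal e K (Q'.comap (rename (R := ℂ) e).toRingHom) := by
  obtain ⟨hlt, hcov⟩ := hc
  set q := Q'.comap (rename (R := ℂ) e).toRingHom with hq
  have hqp : q.IsPrime := Ideal.comap_isPrime _ _
  have hPq : P ≤ q := ((coneIdeal_le_iff e K P Q').1 hlt.le).1
  have hle : coneIdeal e K q ≤ Q' :=
    (coneIdeal_le_iff e K q Q').2 ⟨le_rfl, ((coneIdeal_le_iff e K P Q').1 hlt.le).2⟩
  have hne : q ≠ P := by
    intro h
    apply hgP
    rw [← h]
    exact hg
  have heq : coneIdeal e K q = Q' := by
    rcases hle.lt_or_eq with h | h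
    · exfalso
      have := hcov _ (coneIdeal_prime he hK q) (coneIdeal_mono e K hPq) h
      exact hne (coneIdeal_injective he hK this)
    · exact h
  refine ⟨⟨lt_of_le_of_ne hPq (Ne.symm hne), ?_⟩, heq.symm⟩
  intro L hL h1 h2
  have h3 := hcov (coneIdeal e K L) (coneIdeal_prime he hK L) (coneIdeal_mono e K h1) (by
    rw [← heq]
    exact lt_of_le_of_ne (coneIdeal_mono e K h2.le)
      fun h => h2.ne (coneIdeal_injective he hK h))
  exact coneIdeal_injective he hK h3

/-- codimension one passes to cones -/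
theorem codimOne_cone [Finite τ] (he : Function.Injective e) (hK : ∀ s, e s ∉ K)
    (P q : Ideal (MvPolynomial σ ℂ)) [hP : P.IsPrime] [hq : q.IsPrime] (hc : CodimOne P q) :
    CodimOne (coneIdeal e K P) (coneIdeal e K q) := by
  obtain ⟨hlt, hcov⟩ := hc
  obtain ⟨g, hgq, hgP⟩ := SetLike.exists_of_lt hlt
  have hPJ : (coneIdeal e K P).IsPrime := coneIdeal_prime he hK P
  have hqJ : (coneIdeal e K q).IsPrime := coneIdeal_prime he hK q
  refine ⟨lt_of_le_of_ne (coneIdeal_mono e K hlt.le)
    fun h => hlt.ne (coneIdeal_injective he hK h), ?_⟩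
  intro L hL h1 h2
  refine krull_between (x := rename (R := ℂ) e g) ?_ hL h1 h2
  refine ⟨⟨hqJ, sup_le (coneIdeal_mono e K hlt.le) ?_⟩, ?_⟩
  · rw [Ideal.span_le, Set.singleton_subset_iff]
    exact rename_mem_coneIdeal e K hgq
  · rintro M ⟨hM, hM1⟩ hM2
    have hM1' := sup_le_iff.1 hM1
    have h3 := (coneIdeal_le_iff e K P M).1 hM1'.1
    have hgM : rename (R := ℂ) e g ∈ M := hM1'.2 (Ideal.mem_span_singleton_self _)
    have hmp : (M.comap (rename (R := ℂ) e).toRingHom).IsPrime := Ideal.comap_isPrime _ _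
    have hMq : M.comap (rename (R := ℂ) e).toRingHom ≤ q := by
      rw [← coneIdeal_comap he hK q]
      exact Ideal.comap_mono hM2
    have hMq' : M.comap (rename (R := ℂ) e).toRingHom = q := by
      rcases hMq.lt_or_eq with h | h
      · exfalso
        have := hcov _ hmp h3.1 h
        apply hgP
        rw [← this]
        exact hgM
      · exact h
    exact (coneIdeal_le_iff e K q M).2 ⟨hMq'.ge, h3.2⟩

/-- the converse -/
theorem codimOne_of_cone (he : Function.Injective e) (hK : ∀ s, e s ∉ K)
    (P q : Ideal (MvPolynomial σ ℂ)) (hc : CodimOne (coneIdeal e K P) (coneIdeal e K q)) :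
    CodimOne P q := by
  obtain ⟨hlt, hcov⟩ := hc
  have hle : P ≤ q := by
    rw [← coneIdeal_comap he hK P, ← coneIdeal_comap he hK q]
    exact Ideal.comap_mono hlt.le
  refine ⟨lt_of_le_of_ne hle fun h => hlt.ne (by rw [h]), ?_⟩
  intro L hL h1 h2
  have h3 := hcov (coneIdeal e K L) (coneIdeal_prime he hK L) (coneIdeal_mono e K h1)
    (lt_of_le_of_ne (coneIdeal_mono e K h2.le) fun h => h2.ne (coneIdeal_injective he hK h))
  exact coneIdeal_injective he hK h3

end cone

end Pool.Agent.RCH
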