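import Pool.Agent.RCH.Star

/-!
# The product of a point of `X^N` with a point of `X`
-/

set_option autoImplicit false

open MvPolynomial

namespace Pool.Agent.RCH

variable {ι : Type} (X : WVar ι) {N : ℕ}

lemma inc_injective_fun :
    Function.Injective (fun v : Fin N × ι => ((v.1.castSucc, v.2) : Fin (N + 1) × ι)) := by
  rintro ⟨a, j⟩ ⟨b, k⟩ h
  have h1 : a.castSucc = b.castSucc := (Prod.mk.inj h).1
  have h2 : j = k := (Prod.mk.inj h).2
  rw [Fin.castSucc_injective N h1, h2]

lemma weight_inc (u : Fin N × ι →₀ ℕ) :
    Finsupp.weight (X.mdeg (N + 1))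
      (Finsupp.mapDomain (fun v : Fin N × ι => (v.1.castSucc, v.2)) u) =
      Fin.snoc (α := fun _ => ℕ) (Finsupp.weight (X.mdeg N) u) 0 := by
  classical
  rw [Finsupp.weight_apply, Finsupp.sum_mapDomain_index_inj inc_injective_fun,
    Finsupp.weight_apply]
  funext k
  rw [Finsupp.sum, Finset.sum_apply]
  refine Fin.lastCases ?_ (fun i => ?_) k
  · rw [Fin.snoc_last]
    refine Finset.sum_eq_zero fun v _ => ?_
    simp [WVar.mdeg]
  · rw [Fin.snoc_castSucc, Finsupp.sum, Finset.sum_apply]
    refine Finset.sum_congr rfl fun v _ => ?_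
    simp only [WVar.mdeg, Pi.smul_apply]
    congr 1
    by_cases h : i = v.1
    · subst h
      rw [Pi.single_eq_same, Pi.single_eq_same]
    · rw [Pi.single_eq_of_ne h, Pi.single_eq_of_ne
        (fun h' => h (Fin.castSucc_injective N h'))]

lemma inc_homogeneous {f : Coord ι N} {e : Fin N → ℕ}
    (hf : IsWeightedHomogeneous (X.mdeg N) f e) :
    IsWeightedHomogeneous (X.mdeg (N + 1)) (inc ι N f) (Fin.snoc (α := fun _ => ℕ) e 0) := by
  intro s hs
  obtain ⟨u, hu, hs'⟩ := coeff_rename_ne_zero _ _ _ hs
  rw [← hu, weight_inc, hf hs']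

lemma inc_component (e : Fin N → ℕ) (p : Coord ι N) :
    inc ι N (weightedHomogeneousComponent (X.mdeg N) e p) =
      weightedHomogeneousComponent (X.mdeg (N + 1)) (Fin.snoc (α := fun _ => ℕ) e 0)
        (inc ι N p) := by
  classical
  induction p using MvPolynomial.induction_on' with
  | monomial u a =>
    have h1 : IsWeightedHomogeneous (X.mdeg N) (monomial u a)
        (Finsupp.weight (X.mdeg N) u) := isWeightedHomogeneous_monomial _ _ _ rfl
    have h2 := inc_homogeneous X h1
    by_cases h : Finsupp.weight (X.mdeg N) u = e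
    · subst h
      rw [h1.weightedHomogeneousComponent_same, h2.weightedHomogeneousComponent_same]
    · rw [h1.weightedHomogeneousComponent_ne e (Ne.symm h),
        h2.weightedHomogeneousComponent_ne _, map_zero]
      intro h'
      apply h
      have h3 := congrArg (fun f : Fin (N + 1) → ℕ => fun i : Fin N => f i.castSucc) h'
      simp only [Fin.snoc_castSucc] at h3
      exact h3.symm
  | add p q hp hq => rw [map_add, map_add, map_add, map_add, hp, hq]

lemma lst_eq_prMap : lst ι N = prMap ι (N + 1) (Fin.last N) := rfl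

lemma inc_inFactor (i : Fin N) (f : MvPolynomial ι ℂ) :
    inc ι N (inFactor N i f) = inFactor (N + 1) i.castSucc f := by
  unfold inFactor inc
  rw [rename_rename]
  rfl

lemma lst_inFactor (f : MvPolynomial ι ℂ) :
    lst ι N (inFactor 1 0 f) = inFactor (N + 1) (Fin.last N) f := by
  unfold inFactor lst
  rw [rename_rename]
  rfl

attribute [local instance] MvPolynomial.weightedGradedAlgebra

open Classical in
lemma isHomogeneous_star (P : Pt X N) (Z : Pt X 1) :
    (star P.I Z.I).IsHomogeneous (weightedHomogeneousSubmodule ℂ (X.mdeg (N + 1))) := by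
  refine Ideal.IsHomogeneous.sup ?_ ?_
  · have h1 : P.I.IsHomogeneous (weightedHomogeneousSubmodule ℂ (X.mdeg N)) := by
      intro e p hp
      have := P.homog p hp e
      rw [← weightedDecomposition.decompose'_apply] at this
      exact this
    obtain ⟨S, hS⟩ := (Ideal.IsHomogeneous.iff_exists _ _).1 h1
    rw [hS, Ideal.map_span]
    refine Ideal.homogeneous_span _ _ ?_
    rintro x ⟨y, ⟨z, hz, rfl⟩, rfl⟩
    obtain ⟨e, he⟩ := z.2
    refine ⟨Fin.snoc (α := fun _ => ℕ) e 0, ?_⟩
    have := inc_homogeneous X ((mem_weightedHomogeneousSubmodule _ _ _ _).1 he)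
    exact (mem_weightedHomogeneousSubmodule _ _ _ _).2 this
  · have h1 : Z.I.IsHomogeneous (weightedHomogeneousSubmodule ℂ (X.mdeg 1)) := by
      intro e p hp
      have := Z.homog p hp e
      rw [← weightedDecomposition.decompose'_apply] at this
      exact this
    obtain ⟨S, hS⟩ := (Ideal.IsHomogeneous.iff_exists _ _).1 h1
    rw [hS, Ideal.map_span]
    refine Ideal.homogeneous_span _ _ ?_
    rintro x ⟨y, ⟨z, hz, rfl⟩, rfl⟩
    obtain ⟨e, he⟩ := z.2
    refine ⟨Pi.single (Fin.last N) (e 0), ?_⟩
    have := prMap_homogeneous X (Fin.last N) ((mem_weightedHomogeneousSubmodule _ _ _ _).1 he)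
    exact (mem_weightedHomogeneousSubmodule _ _ _ _).2 this

/-- The product of a point of `X^N` with a point of `X`. -/
noncomputable def prodPt [Finite ι] (P : Pt X N) (Z : Pt X 1) : Pt X (N + 1) where
  I := star P.I Z.I
  prime := by
    have := P.prime
    have := Z.prime
    exact star_prime P.I Z.I
  homog := by
    classical
    intro p hp e
    exact weightedHomogeneousComponent_mem_of_mem ℂ _ (isHomogeneous_star X P Z) hp e
  relevant := by
    intro i
    have hZ := Z.prime
    have hP := P.prime
    refine Fin.lastCases ?_ (fun i => ?_) i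
    · obtain ⟨j, hj⟩ := Z.relevant 0
      obtain ⟨y, hy, hne⟩ := exists_zero_ne Z.I hj
      obtain ⟨x, hx, -⟩ := exists_zero_ne P.I (f := 1)
        (fun h => hP.ne_top ((Ideal.eq_top_iff_one _).2 h))
      rw [eval_X] at hne
      refine ⟨j, fun hmem => hne ?_⟩
      let z : Fin (N + 1) × ι → ℂ := fun v =>
        Fin.lastCases (motive := fun _ => ℂ) (y (0, v.2)) (fun i => x (i, v.2)) v.1
      have hle : star P.I Z.I ≤ RingHom.ker (eval z) := by
        rw [star_le_iff]
        constructor
        · intro p hp
          show eval z (rename _ p) = 0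
          rw [eval_rename]
          have : z ∘ (fun v : Fin N × ι => (v.1.castSucc, v.2)) = x := by
            funext v
            simp [z]
          rw [this]
          exact hx p hp
        · intro p hp
          show eval z (rename _ p) = 0
          rw [eval_rename]
          have : z ∘ (fun v : Fin 1 × ι => (Fin.last N, v.2)) = y := by
            funext v
            obtain ⟨a, l⟩ := v
            have : a = 0 := Subsingleton.elim _ _
            subst this
            simp [z]
          rw [this]
          exact hy p hp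
      have h0 : eval z (MvPolynomial.X (Fin.last N, j)) = 0 := hle hmem
      rw [eval_X] at h0
      simpa [z] using h0
    · obtain ⟨j, hj⟩ := P.relevant i
      refine ⟨j, fun hmem => hj ?_⟩
      rw [← star_comap_inc P.I Z.I]
      show inc ι N (MvPolynomial.X (i, j)) ∈ star P.I Z.I
      rw [inc, rename_X]
      exact hmem
  onX := by
    intro i f hf
    refine Fin.lastCases ?_ (fun i => ?_) i
    · rw [← lst_inFactor]
      exact le_star_right P.I Z.I (Z.onX 0 f hf)
    · rw [← inc_inFactor]
      exact le_star_left P.I Z.I (P.onX i f hf)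

lemma prodPt_I [Finite ι] (P : Pt X N) (Z : Pt X 1) : (prodPt X P Z).I = star P.I Z.I := rfl

lemma prodPt_injective [Finite ι] (Z : Pt X 1) :
    Function.Injective (fun P : Pt X N => prodPt X P Z) := by
  intro P P' h
  have hZ := Z.prime
  have h' : star P.I Z.I = star P'.I Z.I := congrArg Pt.I h
  exact Pt.ext' X (star_injective Z.I h')

/-- The contraction of a point of `X^(N+1)` to `X^N`. -/
noncomputable def contrPt (Q : Pt X (N + 1)) : Pt X N where
  I := Q.I.comap (inc ι N).toRingHom
  prime := by
    have := Q.prime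
    exact Ideal.comap_isPrime _ _
  homog := by
    intro p hp e
    show inc ι N _ ∈ Q.I
    rw [inc_component]
    exact Q.homog _ hp _
  relevant := by
    intro i
    obtain ⟨j, hj⟩ := Q.relevant i.castSucc
    refine ⟨j, fun hmem => hj ?_⟩
    have h : inc ι N (MvPolynomial.X (i, j)) ∈ Q.I := hmem
    rwa [inc, rename_X] at h
  onX := by
    intro i f hf
    show inc ι N _ ∈ Q.I
    rw [inc_inFactor]
    exact Q.onX _ f hf

/-- the ideal of a product of points of `X`, the last one split off -/
lemma boxIdeal_snoc (Q : Fin N → Pt X 1) (Z : Pt X 1) :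
    boxIdeal X (Fin.snoc (α := fun _ => Pt X 1) Q Z) = star (boxIdeal X Q) Z.I := by
  unfold boxIdeal star
  rw [Ideal.map_iSup]
  have hinc : ∀ i : Fin N, ((inc ι N).toRingHom).comp
      (rename (R := ℂ) (fun v : Fin 1 × ι => (i, v.2))).toRingHom =
      (rename (R := ℂ) (fun v : Fin 1 × ι => (i.castSucc, v.2))).toRingHom := by
    intro i
    refine RingHom.ext fun p => ?_
    show inc ι N (rename _ p) = rename _ p
    rw [inc, rename_rename]
    rfl
  apply le_antisymm
  · refine iSup_le fun k => ?_
    refine Fin.lastCases ?_ (fun i => ?_) k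
    · rw [Fin.snoc_last]
      exact le_sup_right
    · rw [Fin.snoc_castSucc]
      refine le_trans ?_ le_sup_left
      refine le_trans ?_ (le_iSup _ i)
      rw [Ideal.map_map, hinc]
  · refine sup_le (iSup_le fun i => ?_) ?_
    · rw [Ideal.map_map, hinc]
      have h := le_iSup (fun k : Fin (N + 1) =>
        (Fin.snoc (α := fun _ => Pt X 1) Q Z k).I.map
          (rename (R := ℂ) (fun v : Fin 1 × ι => (k, v.2))).toRingHom) i.castSucc
      simp only [Fin.snoc_castSucc] at h
      exact h
    · have h := le_iSup (fun k : Fin (N + 1) =>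
        (Fin.snoc (α := fun _ => Pt X 1) Q Z k).I.map
          (rename (R := ℂ) (fun v : Fin 1 × ι => (k, v.2))).toRingHom) (Fin.last N)
      simp only [Fin.snoc_last] at h
      exact h

/-- the product of points of `X`, the last one split off -/
theorem box_snoc [Finite ι] (Q : Fin N → Pt X 1) (Z : Pt X 1) :
    box X (Fin.snoc (α := fun _ => Pt X 1) Q Z) =
      Finsupp.mapDomain (fun P => prodPt X P Z) (box X Q) := by
  obtain ⟨P, hP, hb⟩ := box_eq X Q
  rw [hb, Finsupp.mapDomain_single]
  apply box_of_eq
  rw [boxIdeal_snoc, prodPt_I, hP]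

end Pool.Agent.RCH
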