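import Pool.Agent.RCH.KpCone
import Pool.Agent.RCH.StarPt

/-!
# Cones over points and over divisors

`T` and `X` are varieties with coordinates indexed by `ι` and `ι'`, the coordinates of `T` are among
those of `X` (`e : ι → ι'`), the coordinates of `X` in `K` are killed and the others are free.
-/

set_option autoImplicit false

open MvPolynomial

namespace Pool.Agent.RCH

section cone

variable {ι ι' : Type} {N : ℕ} (e : ι → ι') (K : Set ι')

/-- the coordinates of `N` points of `T` as coordinates of `N` points of `X` -/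
noncomputable def ren (N : ℕ) (e : ι → ι') : Coord ι N →ₐ[ℂ] Coord ι' N :=
  rename (R := ℂ) (Prod.map id e)

/-- the ideal of the cone -/
noncomputable def coneI (I : Ideal (Coord ι N)) : Ideal (Coord ι' N) :=
  coneIdeal (Prod.map id e) {v : Fin N × ι' | v.2 ∈ K} I

lemma coneI_eq (I : Ideal (Coord ι N)) : coneI e K I = I.map (ren N e).toRingHom ⊔
    Ideal.span {z : Coord ι' N | ∃ (i : Fin N) (l : ι'), l ∈ K ∧ MvPolynomial.X (i, l) = z} := by
  unfold coneI coneIdeal
  congr 2
  ext z
  constructor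
  · rintro ⟨⟨i, l⟩, hl, rfl⟩
    exact ⟨i, l, hl, rfl⟩
  · rintro ⟨i, l, hl, rfl⟩
    exact ⟨(i, l), hl, rfl⟩

@[simp] lemma ren_X (i : Fin N) (j : ι) :
    ren N e (MvPolynomial.X (i, j)) = MvPolynomial.X (i, e j) := by
  unfold ren
  rw [rename_X]
  rfl

lemma ren_inFactor (i : Fin N) (f : MvPolynomial ι ℂ) :
    ren N e (inFactor N i f) = inFactor N i (rename (R := ℂ) e f) := by
  unfold inFactor ren
  rw [rename_rename, rename_rename]
  rfl

lemma ren_mem_coneI {I : Ideal (Coord ι N)} {z : Coord ι N} (hz : z ∈ I) :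
    ren N e z ∈ coneI e K I := rename_mem_coneIdeal _ _ hz

lemma X_mem_coneI (I : Ideal (Coord ι N)) (i : Fin N) {l : ι'} (hl : l ∈ K) :
    (MvPolynomial.X (i, l) : Coord ι' N) ∈ coneI e K I := X_mem_coneIdeal _ _ I hl

lemma coneI_le_iff (I : Ideal (Coord ι N)) (Q : Ideal (Coord ι' N)) :
    coneI e K I ≤ Q ↔ (∀ z ∈ I, ren N e z ∈ Q) ∧
      ∀ (i : Fin N), ∀ l ∈ K, (MvPolynomial.X (i, l) : Coord ι' N) ∈ Q := by
  unfold coneI
  rw [coneIdeal_le_iff]
  constructor
  · rintro ⟨h1, h2⟩
    exact ⟨fun z hz => h1 hz, fun i l hl => h2 (i, l) hl⟩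
  · rintro ⟨h1, h2⟩
    exact ⟨fun z hz => h1 z hz, fun v hv => h2 v.1 v.2 hv⟩

lemma kill_coneI {L : Type} [CommRing L] (φ : Coord ι' N →+* L)
    {I : Ideal (Coord ι N)} (h : ∀ z ∈ I, φ (ren N e z) = 0)
    (hK : ∀ (i : Fin N), ∀ l ∈ K, φ (MvPolynomial.X (i, l)) = 0) {z : Coord ι' N}
    (hz : z ∈ coneI e K I) : φ z = 0 :=
  kill_coneIdeal _ _ φ h (fun v hv => hK v.1 v.2 hv) hz

lemma coneI_mono {I J : Ideal (Coord ι N)} (h : I ≤ J) : coneI e K I ≤ coneI e K J :=
  coneIdeal_mono _ _ h

/-- a cone over a cone is a cone -/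
lemma coneI_coneI {κ : Type} (e' : κ → ι) (K' : Set ι) (I : Ideal (Coord κ N)) :
    coneI e K (coneI e' K' I) = coneI (e ∘ e') (K ∪ e '' K') I := by
  unfold coneI
  rw [coneIdeal_coneIdeal]
  have h1 : (Prod.map (id : Fin N → Fin N) e ∘ Prod.map id e') = Prod.map id (e ∘ e') := by
    funext v
    rfl
  have h2 : ({v : Fin N × ι' | v.2 ∈ K} ∪ Prod.map id e '' {v : Fin N × ι | v.2 ∈ K'}) =
      {v : Fin N × ι' | v.2 ∈ K ∪ e '' K'} := by
    ext ⟨i, l⟩
    constructor
    · rintro (h | ⟨⟨i', l'⟩, h, h'⟩)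
      · exact Or.inl h
      · have h2 := (Prod.mk.inj h').2
        exact Or.inr ⟨l', h, h2⟩
    · rintro (h | ⟨l', h, rfl⟩)
      · exact Or.inl h
      · exact Or.inr ⟨(i, l'), h, rfl⟩
  rw [h1, h2]

/-- the cone with all coordinates kept -/
lemma coneI_id (I : Ideal (Coord ι N)) : coneI (id : ι → ι) ∅ I = I := by
  unfold coneI coneIdeal
  have h1 : {v : Fin N × ι | v.2 ∈ (∅ : Set ι)} = ∅ := by
    ext v
    simp
  have h2 : (rename (R := ℂ) (Prod.map (id : Fin N → Fin N) (id : ι → ι))).toRingHom =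
      RingHom.id _ := by
    rw [Prod.map_id]
    refine RingHom.ext fun z => ?_
    exact rename_id_apply z
  rw [h1, Set.image_empty, Ideal.span_empty, sup_bot_eq, h2, Ideal.map_id]

variable {e K}

lemma map_injective (he : Function.Injective e) :
    Function.Injective (Prod.map (id : Fin N → Fin N) e) :=
  Function.injective_id.prodMap he

lemma map_notMem (hK : ∀ j, e j ∉ K) (v : Fin N × ι) :
    Prod.map (id : Fin N → Fin N) e v ∉ {v : Fin N × ι' | v.2 ∈ K} := hK v.2

theorem coneI_prime (he : Function.Injective e) (hK : ∀ j, e j ∉ K)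
    (I : Ideal (Coord ι N)) [hI : I.IsPrime] : (coneI e K I).IsPrime :=
  coneIdeal_prime (map_injective he) (map_notMem hK) I

lemma coneI_comap (he : Function.Injective e) (hK : ∀ j, e j ∉ K)
    (I : Ideal (Coord ι N)) : (coneI e K I).comap (ren N e).toRingHom = I :=
  coneIdeal_comap (map_injective he) (map_notMem hK) I

lemma ren_mem_coneI_iff (he : Function.Injective e) (hK : ∀ j, e j ∉ K)
    (I : Ideal (Coord ι N)) (z : Coord ι N) : ren N e z ∈ coneI e K I ↔ z ∈ I :=
  rename_mem_coneIdeal_iff (map_injective he) (map_notMem hK) I z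

lemma coneI_injective (he : Function.Injective e) (hK : ∀ j, e j ∉ K) :
    Function.Injective (coneI (N := N) e K) :=
  coneIdeal_injective (map_injective he) (map_notMem hK)

lemma X_notMem_coneI (he : Function.Injective e) (hK : ∀ j, e j ∉ K)
    {I : Ideal (Coord ι N)} (hI : I ≠ ⊤) (i : Fin N) {l : ι'} (h : l ∉ K)
    (h' : l ∉ Set.range e) : (MvPolynomial.X (i, l) : Coord ι' N) ∉ coneI e K I := by
  refine X_notMem_coneIdeal (map_injective he) (map_notMem hK) hI (t := (i, l)) h ?_
  rintro ⟨v, hv⟩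
  exact h' ⟨v.2, (Prod.mk.inj hv).2⟩

theorem ordAt_coneI (he : Function.Injective e) (hK : ∀ j, e j ∉ K)
    (P q : Ideal (Coord ι N)) [hq : q.IsPrime] [hs : (coneI e K q).IsPrime]
    (g : Coord ι N) : ordAt (coneI e K P) (coneI e K q) (ren N e g) = ordAt P q g := by
  have hs' : (coneIdeal (Prod.map id e) {v : Fin N × ι' | v.2 ∈ K} q).IsPrime := hs
  exact ordAt_cone (map_injective he) (map_notMem hK) P q g

theorem codimOne_coneI_of_mem (he : Function.Injective e) (hK : ∀ j, e j ∉ K)
    (P : Ideal (Coord ι N)) (Q' : Ideal (Coord ι' N)) [hQ' : Q'.IsPrime]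
    (hc : CodimOne (coneI e K P) Q') {g : Coord ι N} (hg : ren N e g ∈ Q')
    (hgP : g ∉ P) : CodimOne P (Q'.comap (ren N e).toRingHom) ∧
      Q' = coneI e K (Q'.comap (ren N e).toRingHom) :=
  codimOne_cone_of_mem (map_injective he) (map_notMem hK) P Q' hc hg hgP

theorem codimOne_coneI [Finite ι'] (he : Function.Injective e) (hK : ∀ j, e j ∉ K)
    (P q : Ideal (Coord ι N)) [hP : P.IsPrime] [hq : q.IsPrime] (hc : CodimOne P q) :
    CodimOne (coneI e K P) (coneI e K q) :=
  codimOne_cone (map_injective he) (map_notMem hK) P q hc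

theorem codimOne_of_coneI (he : Function.Injective e) (hK : ∀ j, e j ∉ K)
    (P q : Ideal (Coord ι N)) (hc : CodimOne (coneI e K P) (coneI e K q)) : CodimOne P q :=
  codimOne_of_cone (map_injective he) (map_notMem hK) P q hc

theorem codimOne_coneI_iff [Finite ι'] (he : Function.Injective e) (hK : ∀ j, e j ∉ K)
    (P q : Ideal (Coord ι N)) [hP : P.IsPrime] [hq : q.IsPrime] :
    CodimOne (coneI e K P) (coneI e K q) ↔ CodimOne P q :=
  ⟨codimOne_of_coneI he hK P q, codimOne_coneI he hK P q⟩

/-! ### Homogeneity -/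

variable {T : WVar ι} {X : WVar ι'}

lemma weight_ren (he : Function.Injective e) (hw : ∀ j, X.wt (e j) = T.wt j)
    (u : Fin N × ι →₀ ℕ) :
    Finsupp.weight (X.mdeg N) (Finsupp.mapDomain (Prod.map id e) u) =
      Finsupp.weight (T.mdeg N) u := by
  classical
  rw [Finsupp.weight_apply, Finsupp.sum_mapDomain_index_inj (map_injective he),
    Finsupp.weight_apply]
  refine Finsupp.sum_congr fun v _ => ?_
  simp only [WVar.mdeg, Prod.map_fst, Prod.map_snd, id_eq, hw]

lemma ren_homogeneous (he : Function.Injective e) (hw : ∀ j, X.wt (e j) = T.wt j)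
    {f : Coord ι N} {d : Fin N → ℕ} (hf : IsWeightedHomogeneous (T.mdeg N) f d) :
    IsWeightedHomogeneous (X.mdeg N) (ren N e f) d := by
  intro s hs
  obtain ⟨u, hu, hs'⟩ := coeff_rename_ne_zero _ _ _ hs
  rw [← hu, weight_ren he hw, hf hs']

lemma ren_component (he : Function.Injective e) (hw : ∀ j, X.wt (e j) = T.wt j)
    (d : Fin N → ℕ) (p : Coord ι N) :
    ren N e (weightedHomogeneousComponent (T.mdeg N) d p) =
      weightedHomogeneousComponent (X.mdeg N) d (ren N e p) := by
  classical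
  induction p using MvPolynomial.induction_on' with
  | monomial u a =>
    have h1 : IsWeightedHomogeneous (T.mdeg N) (monomial u a)
        (Finsupp.weight (T.mdeg N) u) := isWeightedHomogeneous_monomial _ _ _ rfl
    have h2 := ren_homogeneous (X := X) he hw h1
    by_cases h : Finsupp.weight (T.mdeg N) u = d
    · subst h
      rw [h1.weightedHomogeneousComponent_same, h2.weightedHomogeneousComponent_same]
    · rw [h1.weightedHomogeneousComponent_ne d (Ne.symm h),
        h2.weightedHomogeneousComponent_ne _ (Ne.symm h), map_zero]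
  | add p q hp hq => rw [map_add, map_add, map_add, map_add, hp, hq]

attribute [local instance] MvPolynomial.weightedGradedAlgebra

open Classical in
lemma isHomogeneous_coneI (he : Function.Injective e) (hw : ∀ j, X.wt (e j) = T.wt j)
    (K : Set ι') (P : Pt T N) :
    (coneI e K P.I).IsHomogeneous (weightedHomogeneousSubmodule ℂ (X.mdeg N)) := by
  refine Ideal.IsHomogeneous.sup ?_ ?_
  · have h1 : P.I.IsHomogeneous (weightedHomogeneousSubmodule ℂ (T.mdeg N)) := by
      intro d p hp
      have := P.homog p hp d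
      rw [← weightedDecomposition.decompose'_apply] at this
      exact this
    obtain ⟨S, hS⟩ := (Ideal.IsHomogeneous.iff_exists _ _).1 h1
    rw [hS, Ideal.map_span]
    refine Ideal.homogeneous_span _ _ ?_
    rintro x ⟨y, ⟨z, hz, rfl⟩, rfl⟩
    obtain ⟨d, hd⟩ := z.2
    refine ⟨d, ?_⟩
    have := ren_homogeneous (X := X) he hw ((mem_weightedHomogeneousSubmodule _ _ _ _).1 hd)
    exact (mem_weightedHomogeneousSubmodule _ _ _ _).2 this
  · refine Ideal.homogeneous_span _ _ ?_
    rintro x ⟨v, -, rfl⟩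
    exact ⟨X.mdeg N v, (mem_weightedHomogeneousSubmodule _ _ _ _).2
      (isWeightedHomogeneous_X ℂ _ v)⟩

/-- the cone over a point -/
noncomputable def conePt (he : Function.Injective e) (hK : ∀ j, e j ∉ K)
    (hw : ∀ j, X.wt (e j) = T.wt j) (P : Pt T N)
    (hX : ∀ (i : Fin N), ∀ f ∈ X.eqs, inFactor N i f ∈ coneI e K P.I) : Pt X N where
  I := coneI e K P.I
  prime := by
    have := P.prime
    exact coneI_prime he hK P.I
  homog := by
    classical
    intro p hp d
    exact weightedHomogeneousComponent_mem_of_mem ℂ _ (isHomogeneous_coneI he hw K P) hp d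
  relevant := by
    intro i
    obtain ⟨j, hj⟩ := P.relevant i
    refine ⟨e j, fun hmem => hj ?_⟩
    rw [← ren_mem_coneI_iff he hK, ren_X]
    exact hmem
  onX := hX

theorem exists_conePt (he : Function.Injective e) (hK : ∀ j, e j ∉ K)
    (hw : ∀ j, X.wt (e j) = T.wt j) (P : Pt T N)
    (hX : ∀ (i : Fin N), ∀ f ∈ X.eqs, inFactor N i f ∈ coneI e K P.I) :
    ∃ P' : Pt X N, P'.I = coneI e K P.I :=
  ⟨conePt he hK hw P hX, rfl⟩

/-- the equations hold on the cone if they are in the cone over the equations -/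
lemma onX_coneI (h : ∀ f ∈ X.eqs, f ∈ coneIdeal e K T.eqs) (P : Pt T N) (i : Fin N)
    (f : MvPolynomial ι' ℂ) (hf : f ∈ X.eqs) : inFactor N i f ∈ coneI e K P.I := by
  have h1 : coneIdeal e K T.eqs ≤ (coneI e K P.I).comap (inFactor N i).toRingHom := by
    rw [coneIdeal_le_iff]
    refine ⟨fun z hz => ?_, fun t ht => ?_⟩
    · show inFactor N i (rename (R := ℂ) e z) ∈ coneI e K P.I
      rw [← ren_inFactor]
      exact ren_mem_coneI e K (P.onX i z hz)
    · show inFactor N i (MvPolynomial.X t) ∈ coneI e K P.I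
      unfold inFactor
      rw [rename_X]
      exact X_mem_coneI e K P.I i ht
  exact h1 (h f hf)

/-- the contraction of a point, when it is relevant and on `T` -/
noncomputable def conContr (he : Function.Injective e) (hw : ∀ j, X.wt (e j) = T.wt j)
    (P : Pt T N) (Q : Pt X N) (hPQ : P.I ≤ Q.I.comap (ren N e).toRingHom)
    (hrel : ∀ i : Fin N, ∃ j : ι, (MvPolynomial.X (i, j) : Coord ι N) ∉
      Q.I.comap (ren N e).toRingHom) : Pt T N where
  I := Q.I.comap (ren N e).toRingHom
  prime := by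
    have := Q.prime
    exact Ideal.comap_isPrime _ _
  homog := by
    intro p hp d
    show ren N e _ ∈ Q.I
    rw [ren_component he hw]
    exact Q.homog _ hp _
  relevant := hrel
  onX := fun i f hf => hPQ (P.onX i f hf)

/-- The cone over the divisor of a rational function is the divisor of the same rational function on
the cone, if no irrelevant prime of codimension one contains one of the two forms. -/
theorem isDivisor_cone' [Finite ι'] (he : Function.Injective e) (hK : ∀ j, e j ∉ K)
    (hw : ∀ j, X.wt (e j) = T.wt j) (P : Pt T N) {g h : Coord ι N} (hg : g ∉ P.I) (hh : h ∉ P.I)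
    {c : Cycles T N} (hc : IsDivisor T P g h c) (F : Pt T N → Pt X N)
    (hF : ∀ Q : Pt T N, P.I ≤ Q.I → (F Q).I = coneI e K Q.I)
    (hv : ∀ Q : Ideal (Coord ι N), Q.IsPrime → CodimOne P.I Q → g ∈ Q ∨ h ∈ Q →
      ∀ i : Fin N, ∃ j : ι, (MvPolynomial.X (i, j) : Coord ι N) ∉ Q) :
    IsDivisor X (F P) (ren N e g) (ren N e h) (Finsupp.mapDomain F c) := by
  classical
  intro Q'
  have hPp := P.prime
  have hQp := Q'.prime
  have hFP : (F P).I = coneI e K P.I := hF P le_rfl
  have hsupp : ∀ Q ∈ c.support, P.I ≤ Q.I := by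
    intro Q hQ
    rw [Finsupp.mem_support_iff, hc Q] at hQ
    by_contra hcon
    apply hQ
    rw [if_neg]
    intro hcod
    exact hcon hcod.1.le
  by_cases hex : ∃ q : Pt T N, P.I ≤ q.I ∧ F q = Q'
  · obtain ⟨q, hq, rfl⟩ := hex
    have hinj : Set.InjOn F {Q : Pt T N | P.I ≤ Q.I} := by
      intro Q1 h1 Q2 h2 h12
      apply Pt.ext' T
      apply coneI_injective he hK
      rw [← hF Q1 h1, ← hF Q2 h2, h12]
    rw [Finsupp.mapDomain_apply' {Q : Pt T N | P.I ≤ Q.I} c (fun Q hQ => hsupp Q hQ) hinj hq,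
      hc q]
    have hqp := q.prime
    have hFq : (F q).I = coneI e K q.I := hF q hq
    have hs : (coneI e K q.I).IsPrime := coneI_prime he hK q.I
    have key : ∀ s : Coord ι N, ordAt (F P).I (F q).I (ren N e s) = ordAt P.I q.I s := by
      intro s
      rw [ordAt_of_eq hQp hs hFP hFq]
      exact ordAt_coneI he hK P.I q.I s
    by_cases hcod : CodimOne P.I q.I
    · have hcod' : CodimOne (F P).I (F q).I := by
        rw [hFP, hFq]
        exact codimOne_coneI he hK P.I q.I hcod
      rw [if_pos hcod, if_pos hcod', key, key]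
    · have hcod' : ¬ CodimOne (F P).I (F q).I := by
        rw [hFP, hFq]
        exact fun h => hcod (codimOne_of_coneI he hK P.I q.I h)
      rw [if_neg hcod, if_neg hcod']
  · have h0 : Finsupp.mapDomain F c Q' = 0 := by
      rw [← Finsupp.notMem_support_iff]
      intro hmem
      have h1 := Finsupp.mapDomain_support hmem
      rw [Finset.mem_image] at h1
      obtain ⟨q, hq, hq'⟩ := h1
      exact hex ⟨q, hsupp q hq, hq'⟩
    rw [h0]
    by_cases hcod : CodimOne (F P).I Q'.I
    · rw [if_pos hcod]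
      have hcod1 : CodimOne (coneI e K P.I) Q'.I := by
        rw [← hFP]
        exact hcod
      have key : ∀ s : Coord ι N, s ∉ P.I → (s = g ∨ s = h) → ren N e s ∉ Q'.I := by
        intro s hs hsgh hmem
        obtain ⟨h1, h2⟩ := codimOne_coneI_of_mem he hK P.I Q'.I hcod1 hmem hs
        have hsQ : s ∈ Q'.I.comap (ren N e).toRingHom := hmem
        have hqp : (Q'.I.comap (ren N e).toRingHom).IsPrime := Ideal.comap_isPrime _ _
        have hrel := hv _ hqp h1 (by
          rcases hsgh with rfl | rfl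
          · exact Or.inl hsQ
          · exact Or.inr hsQ)
        refine hex ⟨conContr he hw P Q' h1.1.le hrel, h1.1.le, ?_⟩
        apply Pt.ext' X
        rw [hF _ h1.1.le]
        exact h2.symm
      rw [ordAt_eq_zero (key g hg (Or.inl rfl)), ordAt_eq_zero (key h hh (Or.inr rfl))]
      simp
    · rw [if_neg hcod]

/-- The cone over the divisor of a rational function is the divisor of the same rational function on
the cone. -/
theorem isDivisor_cone [Finite ι'] (he : Function.Injective e) (hK : ∀ j, e j ∉ K)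
    (hw : ∀ j, X.wt (e j) = T.wt j) (P : Pt T N) {g h : Coord ι N} (hg : g ∉ P.I) (hh : h ∉ P.I)
    {c : Cycles T N} (hc : IsDivisor T P g h c) (F : Pt T N → Pt X N)
    (hF : ∀ Q : Pt T N, P.I ≤ Q.I → (F Q).I = coneI e K Q.I)
    (hv : ∀ i : Fin N, ∃ L : Ideal (Coord ι N), L.IsPrime ∧ P.I < L ∧
      ∀ Q : Ideal (Coord ι N), Q.IsPrime → P.I ≤ Q →
        (∀ j : ι, (MvPolynomial.X (i, j) : Coord ι N) ∈ Q) → L < Q) :
    IsDivisor X (F P) (ren N e g) (ren N e h) (Finsupp.mapDomain F c) := by
  refine isDivisor_cone' he hK hw P hg hh hc F hF ?_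
  intro Q hQ hcod _ i
  by_contra hcon
  push Not at hcon
  obtain ⟨L, hL, hPL, hL'⟩ := hv i
  have h1 := hL' Q hQ hcod.1.le hcon
  have h2 := hcod.2 L hL hPL.le h1
  exact hPL.ne h2.symm

/-- The cone over the divisor of a rational function is rationally equivalent to zero. -/
theorem cone_ratZero [Finite ι'] (he : Function.Injective e) (hK : ∀ j, e j ∉ K)
    (hw : ∀ j, X.wt (e j) = T.wt j) (P : Pt T N) {g h : Coord ι N} (hg : g ∉ P.I) (hh : h ∉ P.I)
    {d : Fin N → ℕ} (hgd : IsWeightedHomogeneous (T.mdeg N) g d)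
    (hhd : IsWeightedHomogeneous (T.mdeg N) h d)
    {c : Cycles T N} (hc : IsDivisor T P g h c) (F : Pt T N → Pt X N)
    (hF : ∀ Q : Pt T N, P.I ≤ Q.I → (F Q).I = coneI e K Q.I)
    (hv : ∀ i : Fin N, ∃ L : Ideal (Coord ι N), L.IsPrime ∧ P.I < L ∧
      ∀ Q : Ideal (Coord ι N), Q.IsPrime → P.I ≤ Q →
        (∀ j : ι, (MvPolynomial.X (i, j) : Coord ι N) ∈ Q) → L < Q) :
    Finsupp.mapDomain F c ∈ RatZero X N := by
  refine AddSubgroup.subset_closure ⟨F P, ren N e g, ren N e h, d, ren_homogeneous he hw hgd,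
    ren_homogeneous he hw hhd, ?_, ?_, isDivisor_cone he hK hw P hg hh hc F hF hv⟩
  · rw [hF P le_rfl, ren_mem_coneI_iff he hK]
    exact hg
  · rw [hF P le_rfl, ren_mem_coneI_iff he hK]
    exact hh

/-! ### Products -/

/-- the cone over a product is the product of the cones -/
lemma boxIdeal_cone (Q : Fin N → Pt T 1) (Q' : Fin N → Pt X 1)
    (h : ∀ i, (Q' i).I = coneI e K (Q i).I) :
    boxIdeal X Q' = coneI e K (boxIdeal T Q) := by
  apply le_antisymm
  · refine iSup_le fun i => ?_
    rw [h i, Ideal.map_le_iff_le_comap, coneI_le_iff]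
    refine ⟨fun z hz => ?_, fun a l hl => ?_⟩
    · rw [Ideal.mem_comap]
      have h1 : rename (R := ℂ) (fun v : Fin 1 × ι' => (i, v.2)) (ren 1 e z) =
          ren N e (rename (R := ℂ) (fun v : Fin 1 × ι => (i, v.2)) z) := by
        unfold ren
        rw [rename_rename, rename_rename]
        rfl
      have h2 : ren N e (rename (R := ℂ) (fun v : Fin 1 × ι => (i, v.2)) z) ∈
          coneI e K (boxIdeal T Q) := by
        refine ren_mem_coneI e K ?_
        exact Ideal.mem_iSup_of_mem i (Ideal.mem_map_of_mem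
          (rename (R := ℂ) (fun v : Fin 1 × ι => (i, v.2))).toRingHom hz)
      rw [← h1] at h2
      exact h2
    · rw [Ideal.mem_comap]
      have h1 : (rename (R := ℂ) (fun v : Fin 1 × ι' => (i, v.2))).toRingHom
          (MvPolynomial.X (a, l)) = (MvPolynomial.X (i, l) : Coord ι' N) := by
        show rename (R := ℂ) _ (MvPolynomial.X (a, l)) = _
        rw [rename_X]
      rw [h1]
      exact X_mem_coneI e K _ i hl
  · rw [coneI_le_iff]
    constructor
    · have h2 : boxIdeal T Q ≤ (boxIdeal X Q').comap (ren N e).toRingHom := by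
        refine iSup_le fun i => ?_
        rw [Ideal.map_le_iff_le_comap]
        intro z hz
        show ren N e (rename (R := ℂ) (fun v : Fin 1 × ι => (i, v.2)) z) ∈ boxIdeal X Q'
        have h1 : ren N e (rename (R := ℂ) (fun v : Fin 1 × ι => (i, v.2)) z) =
            rename (R := ℂ) (fun v : Fin 1 × ι' => (i, v.2)) (ren 1 e z) := by
          unfold ren
          rw [rename_rename, rename_rename]
          rfl
        rw [h1]
        refine Ideal.mem_iSup_of_mem i (Ideal.mem_map_of_mem
          (rename (R := ℂ) (fun v : Fin 1 × ι' => (i, v.2))).toRingHom ?_)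
        rw [h i]
        exact ren_mem_coneI e K hz
      exact fun z hz => h2 hz
    · intro i l hl
      have h1 : (MvPolynomial.X (i, l) : Coord ι' N) =
          (rename (R := ℂ) (fun v : Fin 1 × ι' => (i, v.2))).toRingHom
            (MvPolynomial.X ((0 : Fin 1), l)) := by
        show _ = rename (R := ℂ) _ (MvPolynomial.X ((0 : Fin 1), l))
        rw [rename_X]
      rw [h1]
      refine Ideal.mem_iSup_of_mem i (Ideal.mem_map_of_mem _ ?_)
      rw [h i]
      exact X_mem_coneI e K _ 0 hl

/-- the cone over the cycle of a product -/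
theorem box_cone [Finite ι] (F : Pt T N → Pt X N) (Q : Fin N → Pt T 1) (Q' : Fin N → Pt X 1)
    (h : ∀ i, (Q' i).I = coneI e K (Q i).I)
    (hF : ∀ P : Pt T N, P.I = boxIdeal T Q → (F P).I = coneI e K P.I) :
    box X Q' = Finsupp.mapDomain F (box T Q) := by
  obtain ⟨P, hP, hb⟩ := box_eq T Q
  rw [hb, Finsupp.mapDomain_single]
  apply box_of_eq
  rw [hF P hP, boxIdeal_cone Q Q' h, hP]

end cone

end Pool.Agent.RCH
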