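import Pool.Agent.RCH.LnAsm2
import Pool.Agent.RCH.KpConePt

/-!
# Cones over the divisor on the fibre square of the pencil on the surface
-/

set_option autoImplicit false

open MvPolynomial

namespace Pool.Agent.RCH

attribute [local instance] Pt.prime

namespace LnData

variable (S : LnData)

/-- the divisor of `(x_3 y_1 - y_3 x_1) / (x_1 y_1)` on `pU` -/
noncomputable def cycU : Cycles S.V 2 :=
  Finsupp.single S.pYD 1 -
    ∑ j, ∑ k, (S.a j * S.a k) • Finsupp.single (S.pB (S.pl j) (S.pl k)) 1 +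
    (S.m + 2) • ∑ k, S.a k • Finsupp.single (S.pB (S.pl k) (S.pl k)) 1
    - Finsupp.single (S.pB S.pp S.pY) 1 - Finsupp.single (S.pB S.pY S.pp) 1

lemma XX_pU : (MvPolynomial.X (0, 1) * MvPolynomial.X (1, 1) : Coord (Fin 5) 2) ∉ S.pU.I := by
  intro h
  rcases Ideal.IsPrime.mem_or_mem (I := S.pU.I) inferInstance h with h1 | h1
  · exact S.X_pU 0 1 (by decide) h1
  · exact S.X_pU 1 1 (by decide) h1

open Classical in
theorem isDivisor_U : IsDivisor S.V S.pU (mn 3 1)
    (MvPolynomial.X (0, 1) * MvPolynomial.X (1, 1)) S.cycU := by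
  unfold cycU
  intro Q
  have hL : (Finsupp.single S.pYD 1 -
      ∑ j, ∑ k, (S.a j * S.a k) • Finsupp.single (S.pB (S.pl j) (S.pl k)) 1 +
      (S.m + 2) • ∑ k, S.a k • Finsupp.single (S.pB (S.pl k) (S.pl k)) 1
      - Finsupp.single (S.pB S.pp S.pY) 1 - Finsupp.single (S.pB S.pY S.pp) 1 : Cycles S.V 2) Q =
      (if S.pYD = Q then 1 else 0) -
        ∑ j, ∑ k, ((S.a j * S.a k : ℕ) : ℤ) * (if S.pB (S.pl j) (S.pl k) = Q then 1 else 0) +
        ((S.m + 2 : ℕ) : ℤ) * ∑ k, (S.a k : ℤ) * (if S.pB (S.pl k) (S.pl k) = Q then 1 else 0) -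
        (if S.pB S.pp S.pY = Q then 1 else 0) - (if S.pB S.pY S.pp = Q then 1 else 0) := by
    simp only [Finsupp.smul_apply, Finsupp.sub_apply, Finsupp.add_apply, Finsupp.finsetSum_apply,
      Finsupp.single_apply, nsmul_eq_mul]
  rw [hL]
  -- the sums vanish away from the products of lines
  have hs0 : (∀ j k, S.pB (S.pl j) (S.pl k) ≠ Q) →
      ∑ j, ∑ k, ((S.a j * S.a k : ℕ) : ℤ) * (if S.pB (S.pl j) (S.pl k) = Q then 1 else 0) = 0 ∧
      ∑ k, (S.a k : ℤ) * (if S.pB (S.pl k) (S.pl k) = Q then 1 else 0) = 0 := by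
    intro h
    refine ⟨Finset.sum_eq_zero fun j _ => Finset.sum_eq_zero fun k _ => ?_,
      Finset.sum_eq_zero fun k _ => ?_⟩
    · rw [if_neg (h j k), mul_zero]
    · rw [if_neg (h k k), mul_zero]
  by_cases hc : CodimOne S.pU.I Q.I
  · rw [if_pos hc, ord_mul_U S hc]
    by_cases h1 : (MvPolynomial.X (0, 1) : Coord (Fin 5) 2) ∈ Q.I ∨
      (MvPolynomial.X (1, 1) : Coord (Fin 5) 2) ∈ Q.I
    · rcases S.cases_U Q hc h1 with rfl | rfl | ⟨j, k, rfl⟩
      · obtain ⟨-, o1, o2⟩ := S.oup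
        obtain ⟨e1, e2⟩ := hs0 fun j k => (S.pp_ne_ll' j k).symm
        rw [e1, e2, o1, o2, ordAt_eq_zero (S.X1_pp 1 (by decide)), if_neg S.pYD_ne_pY,
          if_pos rfl, if_neg S.pp_ne_Yp.symm]
        simp only [ENat.toNat_natCast, ENat.toNat_zero]
        push_cast
        ring
      · obtain ⟨-, o1, o2⟩ := S.oup'
        obtain ⟨e1, e2⟩ := hs0 fun j k => (S.Yp_ne_ll' j k).symm
        rw [e1, e2, o1, o2, ordAt_eq_zero S.X1_Yp, if_neg S.pYD_ne_Yp,
          if_pos rfl, if_neg S.pp_ne_Yp]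
        simp only [ENat.toNat_natCast, ENat.toNat_zero]
        push_cast
        ring
      · obtain ⟨-, o1, o2⟩ := S.oul j k
        rw [o1, o2, if_neg (S.pYD_ne_ll j k), if_neg (S.pp_ne_ll' j k), if_neg (S.Yp_ne_ll' j k),
          S.sum_ll _ (fun i l => ((S.a i * S.a l : ℕ) : ℤ)) j k rfl]
        by_cases hjk : j = k
        · subst hjk
          have hs : ∑ i, (S.a i : ℤ) * (if S.pB (S.pl i) (S.pl i) = S.pB (S.pl j) (S.pl j) then 1
              else 0) = S.a j := by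
            rw [Finset.sum_eq_single j]
            · rw [if_pos rfl, mul_one]
            · intro i _ hi
              rw [if_neg (fun h => hi (S.ll_inj h)), mul_zero]
            · intro h
              exact absurd (Finset.mem_univ j) h
          rw [hs, S.oum_eq j]
          simp only [ENat.toNat_natCast]
          push_cast
          ring
        · have hs : ∑ i, (S.a i : ℤ) * (if S.pB (S.pl i) (S.pl i) = S.pB (S.pl j) (S.pl k) then 1
              else 0) = 0 := by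
            refine Finset.sum_eq_zero fun i _ => ?_
            rw [if_neg, mul_zero]
            intro h
            exact hjk ((S.ll_inj' h).1.symm.trans (S.ll_inj' h).2)
          rw [hs, S.oum_ne j k hjk]
          simp only [ENat.toNat_natCast]
          push_cast
          ring
    · push Not at h1
      obtain ⟨h1, h1'⟩ := h1
      have e1 : S.pB S.pp S.pY ≠ Q := fun h => h1 (h ▸ S.X_mem_pp 1 (by decide))
      have e2 : S.pB S.pY S.pp ≠ Q := by
        rintro rfl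
        have h := S.oup'.2.2
        rw [ordAt_eq_zero h1'] at h
        exact absurd h.symm (by norm_cast)
      obtain ⟨e3, e4⟩ := hs0 fun j k h => h1 (h ▸ S.X1_mem_ll 0 j k)
      rw [e3, e4, if_neg e1, if_neg e2, ordAt_eq_zero h1, ordAt_eq_zero h1']
      by_cases hM : mn 3 1 ∈ Q.I
      · have hQ : Q = S.pYD := eq_of_codimOne S.V S.oud.1 hc (S.clu' Q.I hc.1.le h1 h1' hM)
        subst hQ
        rw [if_pos rfl, S.oud.2]
        simp
      · have hQ : S.pYD ≠ Q := by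
          rintro rfl
          have h := S.oud.2
          rw [ordAt_eq_zero hM] at h
          exact absurd h.symm (by norm_cast)
        rw [if_neg hQ, ordAt_eq_zero hM]
        simp
  · have e1 : S.pB S.pp S.pY ≠ Q := fun h => hc (h ▸ S.oup.1)
    have e2 : S.pB S.pY S.pp ≠ Q := fun h => hc (h ▸ S.oup'.1)
    obtain ⟨e3, e4⟩ := hs0 fun j k h => hc (h ▸ (S.oul j k).1)
    have e5 : S.pYD ≠ Q := fun h => hc (h ▸ S.oud.1)
    rw [if_neg hc, e3, e4, if_neg e1, if_neg e2, if_neg e5]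
    simp

/-- the vertex hypothesis of the theorem on cones -/
theorem vertex_U (i : Fin 2) : ∃ L : Ideal (Coord (Fin 5) 2), L.IsPrime ∧ S.pU.I < L ∧
    ∀ Q : Ideal (Coord (Fin 5) 2), Q.IsPrime → S.pU.I ≤ Q →
      (∀ j : Fin 5, (MvPolynomial.X (i, j) : Coord (Fin 5) 2) ∈ Q) → L < Q := by
  have key : ∀ Q : Ideal (Coord (Fin 5) 2), Q.IsPrime → S.pU.I ≤ Q →
      ∀ k : Fin 2, S.F0v (cs (Ideal.Quotient.mk Q)) (xs (Ideal.Quotient.mk Q) k) = 0 := by
    intro Q hQ hle k
    have h1 : Ideal.Quotient.mk Q (S.FX 2 k) = 0 :=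
      Ideal.Quotient.eq_zero_iff_mem.2 (hle (S.FX_mem S.pU k))
    rw [map_FX, Fv] at h1
    have h2 : xs (Ideal.Quotient.mk Q) k 4 = 0 :=
      Ideal.Quotient.eq_zero_iff_mem.2 (hle (S.X4_mem_pU k))
    rw [h2, zero_mul, add_zero] at h1
    exact h1
  fin_cases i
  · refine ⟨(S.pB S.pp S.pY).I, inferInstance, S.oup.1.1, ?_⟩
    intro Q hQ hle hX
    have hX0 : ∀ j, xs (Ideal.Quotient.mk Q) 0 j = 0 := fun j =>
      Ideal.Quotient.eq_zero_iff_mem.2 (hX j)
    have h4 : xs (Ideal.Quotient.mk Q) 1 4 = 0 :=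
      Ideal.Quotient.eq_zero_iff_mem.2 (hle (S.X4_mem_pU 1))
    refine lt_of_le_of_ne (fun z hz => ?_) ?_
    · exact Ideal.Quotient.eq_zero_iff_mem.1 (S.kill_pY_box (Ideal.Quotient.mk Q) (hX0 1) (hX0 2)
        (hX0 3) (hX0 4) h4 (key Q hQ hle 1) hz)
    · rintro rfl
      exact S.X0_pp (hX 0)
  · refine ⟨(S.pB S.pY S.pp).I, inferInstance, S.oup'.1.1, ?_⟩
    intro Q hQ hle hX
    have hX1 : ∀ j, xs (Ideal.Quotient.mk Q) 1 j = 0 := fun j =>
      Ideal.Quotient.eq_zero_iff_mem.2 (hX j)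
    have h4 : xs (Ideal.Quotient.mk Q) 0 4 = 0 :=
      Ideal.Quotient.eq_zero_iff_mem.2 (hle (S.X4_mem_pU 0))
    refine lt_of_le_of_ne (fun z hz => ?_) ?_
    · exact Ideal.Quotient.eq_zero_iff_mem.1 (S.kill_Yp_box (Ideal.Quotient.mk Q) (hX1 1) (hX1 2)
        (hX1 3) (hX1 4) h4 (key Q hQ hle 0) hz)
    · intro he
      have hX10 : (MvPolynomial.X (1, 0) : Coord (Fin 5) 2) ∈ (S.pB S.pY S.pp).I := by
        rw [he]
        exact hX 0
      have h1 := S.kill_Yp_box (evPair S.ptY ![1, 0, 0, 0, 0]) (by rw [xs_evPair_one]; rfl)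
        (by rw [xs_evPair_one]; rfl) (by rw [xs_evPair_one]; rfl) (by rw [xs_evPair_one]; rfl)
        (by rw [xs_evPair_zero]; rfl) (by rw [xs_evPair_zero, cs_evPair]; exact S.F0v_ptY) hX10
      have h2 : xs (evPair S.ptY ![1, 0, 0, 0, 0]) 1 0 = 0 := h1
      rw [xs_evPair_one] at h2
      exact one_ne_zero h2

variable {ι' : Type} [Finite ι'] {X : WVar ι'} {e : Fin 5 → ι'} {K : Set ι'}

/-- the cone over the divisor -/
theorem cone_U (he : Function.Injective e) (hK : ∀ j, e j ∉ K) (hw : ∀ j, X.wt (e j) = 1)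
    (F : Pt S.V 2 → Pt X 2) (hF : ∀ Q : Pt S.V 2, S.pU.I ≤ Q.I → (F Q).I = coneI e K Q.I) :
    Finsupp.mapDomain F S.cycU ∈ RatZero X 2 :=
  cone_ratZero he hK hw S.pU S.mn31_pU S.XX_pU (S.mn_hom 3 1) (S.XX_hom 1 1) S.isDivisor_U F hF
    S.vertex_U

/-- the cone over the divisor, as a combination of points -/
theorem cone_U' (he : Function.Injective e) (hK : ∀ j, e j ∉ K) (hw : ∀ j, X.wt (e j) = 1)
    (F : Pt S.V 2 → Pt X 2) (hF : ∀ Q : Pt S.V 2, S.pU.I ≤ Q.I → (F Q).I = coneI e K Q.I) :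
    (Finsupp.single (F S.pYD) 1 -
      ∑ j, ∑ k, (S.a j * S.a k) • Finsupp.single (F (S.pB (S.pl j) (S.pl k))) 1 +
      (S.m + 2) • ∑ k, S.a k • Finsupp.single (F (S.pB (S.pl k) (S.pl k))) 1
      - Finsupp.single (F (S.pB S.pp S.pY)) 1 - Finsupp.single (F (S.pB S.pY S.pp)) 1 :
      Cycles X 2) ∈ RatZero X 2 := by
  have h := S.cone_U he hK hw F hF
  have h1 : Finsupp.mapDomain F S.cycU = (Finsupp.mapDomain.addMonoidHom (M := ℤ) F) S.cycU := rfl
  rw [h1, cycU] at h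
  simp only [map_sub, map_add, map_sum, map_nsmul, Finsupp.mapDomain.addMonoidHom_apply,
    Finsupp.mapDomain_single] at h
  exact h

end LnData

end Pool.Agent.RCH
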