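import Pool.Agent.RCH.KpRel
import Pool.Agent.RCH.KpRelU

/-!
# Relation (B), the diagonal `D0` (row K-D0, helper14)
-/

set_option autoImplicit false

open MvPolynomial

namespace Pool.Agent.RCH

namespace Kp

namespace BData

attribute [local instance] Pt.prime

variable {ι : Type} [Fintype ι] [DecidableEq ι] (S : BData ι)

lemma kpD0_X_mem (i : Fin 2) {j : ι} (hj : j ∈ S.K) :
    (MvPolynomial.X (i, j) : Coord ι 2) ∈ S.D0.I := by
  show _ ∈ genIdeal (hyp S.F) (dD 1 S.K S.Fr S.f)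
  rw [X_mem_gen]
  exact if_pos hj

lemma kpD0_X_notMem (i : Fin 2) {j : ι} (hj : j ∉ S.K) :
    (MvPolynomial.X (i, j) : Coord ι 2) ∉ S.D0.I := by
  show _ ∉ genIdeal (hyp S.F) (dD 1 S.K S.Fr S.f)
  rw [X_mem_gen]
  simp only [dD]
  rw [if_neg hj]
  split_ifs
  · exact mk_X_ne 1 i S.f_prime (not_dvd_X (n := S.m + 1) S.f_homog _)
  · exact mk_X_ne 1 1 S.f_prime (not_dvd_X (n := S.m + 1) S.f_homog _)

lemma kpD0_f_mem (i : Fin 2) : inFactor 2 i S.f ∈ S.D0.I := by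
  show _ ∈ genIdeal (hyp S.F) (dD 1 S.K S.Fr S.f)
  have hw : IsWeightedHomogeneous (hyp S.F).wt S.f (S.m + 3) := S.f_homog
  rw [mem_gen S.F _ (inFactor_homogeneous (hyp S.F) i hw), inFactor_aeval]
  exact h_dD S.adm0 1 i

lemma kpD0_mn_mem {j l : ι} (hj : j ∉ S.K) (hj' : j ∉ S.Fr) (hl : l ∉ S.K) (hl' : l ∉ S.Fr) :
    mn j l ∈ S.D0.I := by
  have hxs : ∀ (i : Fin 2) (j : ι), xs (genHom (hyp S.F) (dD 1 S.K S.Fr S.f)).toRingHom i j =
      C (dD 1 S.K S.Fr S.f (i, j)) * MvPolynomial.X i := by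
    intro i j
    show genHom (hyp S.F) _ (MvPolynomial.X (i, j)) = _
    rw [genHom, aeval_X, wt_hyp, pow_one]
  have h : (genHom (hyp S.F) (dD 1 S.K S.Fr S.f)).toRingHom (mn j l) = 0 := by
    rw [map_mn, hxs, hxs, hxs, hxs]
    have hZ : ∀ (i : Fin 2) (j : ι), j ∉ S.K → j ∉ S.Fr → dD 1 S.K S.Fr S.f (i, j) =
        Kp.mk 1 S.f (MvPolynomial.X (1, j)) := by
      intro i j h1 h2
      simp only [dD]
      rw [if_neg h1, if_neg h2]
    rw [hZ 0 j hj hj', hZ 0 l hl hl', hZ 1 j hj hj', hZ 1 l hl hl']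
    ring
  exact h

lemma kpD0_le : S.pU.I ≤ S.D0.I := by
  refine S.pU_le_of (fun i j hj => S.kpD0_X_mem i hj) (S.kpD0_X_notMem 0 S.sK)
    (S.kpD0_X_notMem 1 S.sK) ?_ (fun i => S.kpD0_f_mem i)
  intro j hj
  rw [mem_Zs] at hj
  exact S.kpD0_mn_mem S.sK S.sF hj.1 hj.2.1

lemma kpD0_unif {z : Coord ι 2} (hz : z ∈ S.D0.I) :
    ∃ s, s ∉ S.D0.I ∧ s * z ∈ S.pU.I ⊔ Ideal.span {S.MM} := by
  apply exists_of_toLocMod_eq_zero
  set J : Ideal (Coord ι 2) := S.pU.I ⊔ Ideal.span {S.MM} with hJ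
  set φ : Coord ι 2 →+* LocMod J S.D0.I := toLocMod J S.D0.I with hφ
  have hU : ∀ w ∈ S.pU.I, φ w = 0 := fun w hw =>
    toLocMod_eq_zero_of_mem (Ideal.mem_sup_left hw)
  obtain ⟨v, hv⟩ := isUnit_toLocMod (J := J) (S.kpD0_X_notMem 0 S.sK)
  obtain ⟨u, hu⟩ := isUnit_toLocMod (J := J) (S.kpD0_X_notMem 1 S.sK)
  have hv0 : xs φ 0 S.s = v := hv.symm
  have hu0 : xs φ 1 S.s = u := hu.symm
  have hinv : (u : LocMod J S.D0.I) * (↑u⁻¹ : LocMod J S.D0.I) = 1 := Units.mul_inv u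
  have hbe : xs φ 0 S.be * u - xs φ 1 S.be * v = 0 := by
    have h : φ (mn S.be S.s) = 0 :=
      toLocMod_eq_zero_of_mem (Ideal.mem_sup_right (Ideal.mem_span_singleton_self _))
    rw [map_mn, hv0, hu0] at h
    exact h
  have hZs : ∀ j ∈ S.Zs, xs φ 0 j * u - xs φ 1 j * v = 0 := by
    intro j hj
    have h := hU _ (S.mn_pU hj S.s_mem)
    rw [map_mn, hv0, hu0] at h
    exact h
  have hal : xs φ 0 S.al * u - xs φ 1 S.al * v = 0 := by
    have h := hU _ (S.R2_pU S.s_mem)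
    rw [S.map_R2 φ, r2v] at h
    have hg : φ (S.gD S.s) = 0 := by
      obtain ⟨c, hc⟩ := S.gD_dvd S.s
      have h1 : φ (mn S.be S.s) = 0 :=
        toLocMod_eq_zero_of_mem (Ideal.mem_sup_right (Ideal.mem_span_singleton_self _))
      rw [hc, map_mul, h1, zero_mul]
    rw [S.map_gD φ] at hg
    rw [hg, hu0, hv0, hbe, zero_mul, mul_zero, add_zero, add_zero] at h
    exact ((u.isUnit.mul v.isUnit).pow (S.m + 2)).mul_left_eq_zero.1 h
  refine kill_dD φ 1 0 (by decide) (v * (↑u⁻¹ : LocMod J S.D0.I)) (v * u⁻¹).isUnit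
    (fun i j hj => hU _ (S.K_pU i hj)) ?_ ?_ hz
  · rw [← map_inFactor]
    exact hU _ (S.f_pU 1)
  · intro j hjK hjF
    have key : xs φ 0 j * u - xs φ 1 j * v = 0 := by
      by_cases h1 : j = S.al
      · rw [h1]
        exact hal
      · by_cases h2 : j = S.be
        · rw [h2]
          exact hbe
        · exact hZs j (S.mem_Zs.2 ⟨hjK, hjF, h1, h2⟩)
    linear_combination (↑u⁻¹ : LocMod J S.D0.I) * key - xs φ 0 j * hinv

lemma ord_D0 : CodimOne S.pU.I S.D0.I ∧ ordAt S.pU.I S.D0.I S.MM = (1 : ℕ) ∧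
    (MvPolynomial.X (0, S.s) : Coord ι 2) ∉ S.D0.I ∧
    (MvPolynomial.X (1, S.s) : Coord ι 2) ∉ S.D0.I := by
  have hM : S.MM ∈ S.D0.I := S.kpD0_mn_mem S.beK S.beF S.sK S.sF
  have hone : (1 : Coord ι 2) ∉ S.D0.I := fun h =>
    S.D0.prime.ne_top ((Ideal.eq_top_iff_one _).2 h)
  refine ⟨codimOne_of S.kpD0_le hM S.MM_pU (fun z hz => S.kpD0_unif hz), ?_,
    S.kpD0_X_notMem 0 S.sK, S.kpD0_X_notMem 1 S.sK⟩
  refine ordAt_eq S.kpD0_le hM S.MM_pU (fun z hz => S.kpD0_unif hz)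
    (s := 1) (s' := 1) (n := 1) hone hone ?_
  rw [pow_one, sub_self]
  exact zero_mem _

end BData

end Kp

end Pool.Agent.RCH
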