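import Pool.Agent.RCH.KpJac2
import Pool.Agent.RCH.KpRelU

/-!
# Relation (B): a specialisation of the diagonal of `q k = 0`, and elements outside of its ideal
-/

set_option autoImplicit false

open MvPolynomial

namespace Pool.Agent.RCH

namespace Kp

attribute [local instance] Pt.prime

lemma d2_vars_pderiv {ι : Type} (v : ι) (p : MvPolynomial ι ℂ) {j : ι}
    (hj : j ∈ (pderiv v p).vars) : j ∈ p.vars := by
  classical
  have key : ∀ r ∈ supported ℂ (p.vars : Set ι), pderiv v r ∈ supported ℂ (p.vars : Set ι) := by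
    intro r hr
    induction hr using Algebra.adjoin_induction with
    | mem x hx =>
      obtain ⟨i, -, rfl⟩ := hx
      rw [pderiv_X, Pi.single_apply]
      split_ifs
      · exact one_mem _
      · exact zero_mem _
    | algebraMap r =>
      rw [MvPolynomial.algebraMap_eq, pderiv_C]
      exact zero_mem _
    | add x y hx hy h1 h2 =>
      rw [map_add]
      exact add_mem h1 h2
    | mul x y hx hy h1 h2 =>
      rw [pderiv_mul]
      exact add_mem (mul_mem h1 hy) (mul_mem hx h2)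
  have h := key p (mem_supported.2 (Set.Subset.refl _))
  exact mem_supported.1 h hj

namespace BData

variable {ι : Type} [Fintype ι] [DecidableEq ι] (S : BData ι)

/-! ### A specialisation of the point -/

/-- the ring of `q k = 0` -/
abbrev d2A (k : Fin S.T) : Type := MvPolynomial ι ℂ ⧸ Ideal.span {S.q k}

lemma d2_domain (k : Fin S.T) : IsDomain (S.d2A k) := by
  rw [Ideal.Quotient.isDomain_iff_prime, Ideal.span_singleton_prime (S.hqp k).ne_zero]
  exact S.hqp k

/-- the class of a polynomial -/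
noncomputable def d2mk (k : Fin S.T) : MvPolynomial ι ℂ →+* S.d2A k := Ideal.Quotient.mk _

lemma d2mk_eq_zero (k : Fin S.T) (p : MvPolynomial ι ℂ) : S.d2mk k p = 0 ↔ S.q k ∣ p := by
  rw [d2mk, Ideal.Quotient.eq_zero_iff_mem, Ideal.mem_span_singleton]

/-- the ring of the specialisation -/
def d2P (k : Fin S.T) : Type := MvPolynomial Unit (S.d2A k)

noncomputable instance d2PI (k : Fin S.T) : CommRing (S.d2P k) :=
  inferInstanceAs (CommRing (MvPolynomial Unit (S.d2A k)))

lemma d2P_domain (k : Fin S.T) : IsDomain (S.d2P k) := by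
  have := S.d2_domain k
  exact inferInstanceAs (IsDomain (MvPolynomial Unit (S.d2A k)))

/-- the constants of the ring of the specialisation -/
noncomputable def d2C (k : Fin S.T) : MvPolynomial ι ℂ →+* S.d2P k :=
  (C : S.d2A k →+* MvPolynomial Unit (S.d2A k)).comp (S.d2mk k)

lemma d2C_eq_zero (k : Fin S.T) (p : MvPolynomial ι ℂ) : S.d2C k p = 0 ↔ S.q k ∣ p := by
  rw [← d2mk_eq_zero]
  exact C_eq_zero

/-- the parameter -/
noncomputable def d2T (k : Fin S.T) : S.d2P k :=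
  (MvPolynomial.X () : MvPolynomial Unit (S.d2A k))

/-- the value at zero of the parameter -/
noncomputable def d2tau (k : Fin S.T) : S.d2P k →+* S.d2A k :=
  (eval₂Hom (RingHom.id _) (fun _ => 0) : MvPolynomial Unit (S.d2A k) →+* S.d2A k)

lemma d2tau_T (k : Fin S.T) : S.d2tau k (S.d2T k) = 0 := eval₂Hom_X' _ _ _

lemma d2tau_C (k : Fin S.T) (p : MvPolynomial ι ℂ) : S.d2tau k (S.d2C k p) = S.d2mk k p :=
  eval₂Hom_C _ _ _

/-- the coordinates of the specialisation: `x_be = 1`, `y_be = 0`, the killed ones zero, and the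
others the parameter times the coordinates of the point of `q k = 0` -/
noncomputable def d2u (k : Fin S.T) (v : Fin 2 × ι) : S.d2P k :=
  if v.2 ∈ S.K2 then 0 else if v.2 = S.be then (if v.1 = 0 then 1 else 0) else
    S.d2T k * S.d2C k (MvPolynomial.X v.2)

/-- the specialisation -/
noncomputable def d2th (k : Fin S.T) : Coord ι 2 →+* S.d2P k :=
  eval₂Hom ((S.d2C k).comp C) (S.d2u k)

lemma d2th_cs (k : Fin S.T) : cs (S.d2th k) = (S.d2C k).comp C := by
  refine RingHom.ext fun a => ?_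
  show eval₂Hom _ _ (C a) = _
  rw [eval₂Hom_C]

lemma d2th_xs (k : Fin S.T) (i : Fin 2) : xs (S.d2th k) i = fun j => S.d2u k (i, j) := by
  funext j
  show eval₂Hom _ _ (MvPolynomial.X (i, j)) = _
  rw [eval₂Hom_X']

/-- the value of a homogeneous polynomial which does not involve `K2` and `be` -/
lemma d2_ev (k : Fin S.T) {p : MvPolynomial ι ℂ} {n : ℕ} (hp : p.IsHomogeneous n)
    (hv : ∀ j ∈ p.vars, j ∉ S.K2 ∧ j ≠ S.be) (i : Fin 2) :
    eval₂Hom (cs (S.d2th k)) (xs (S.d2th k) i) p = S.d2T k ^ n * S.d2C k p := by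
  rw [d2th_cs, d2th_xs]
  have h1 : eval₂Hom ((S.d2C k).comp C) (fun j => S.d2u k (i, j)) p =
      eval₂Hom ((S.d2C k).comp C) (fun j => S.d2T k * S.d2C k (MvPolynomial.X j)) p := by
    refine ev_congr _ _ fun j hj => ?_
    simp only [d2u]
    rw [if_neg (hv j hj).1, if_neg (hv j hj).2]
  rw [h1, ev_smul _ _ hp]
  congr 1
  have h2 := map_ev (C : ℂ →+* MvPolynomial ι ℂ) MvPolynomial.X (S.d2C k) p
  have h3 : eval₂Hom (C : ℂ →+* MvPolynomial ι ℂ) MvPolynomial.X p = p := eval₂_eta p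
  rw [h3] at h2
  exact h2.symm

lemma d2_q_vars (j : Fin S.T) {v : ι} (hv : v ∈ (S.q j).vars) : v ∉ S.K2 ∧ v ≠ S.be := by
  have h := S.hqv j v hv
  refine ⟨?_, h.2.2.2.2.1⟩
  rw [mem_K2]
  rintro (h1 | h1 | h1)
  · exact h.2.2.2.2.2 h1
  · exact h.2.2.2.1 h1
  · exact h.1 h1

lemma d2_be_K2 : S.be ∉ S.K2 := by
  rw [mem_K2]
  rintro (h1 | h1 | h1)
  · exact S.hbett h1
  · exact S.hsbe h1.symm
  · exact S.beK h1

lemma d2_b_K2 (k : Fin S.T) : S.b k ∉ S.K2 := by
  have h := S.hb k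
  rw [mem_K2]
  rintro (h1 | h1 | h1)
  · exact h.2.2.2.2.2 h1
  · exact h.2.2.2.1 h1
  · exact h.1 h1

/-- the specialisation is in the closure of the point -/
lemma d2th_kill (k : Fin S.T) {z : Coord ι 2} (hz : z ∈ (S.D2 k).I) : S.d2th k z = 0 := by
  refine kill_dD (F := S.F) (S.d2th k) 1 0 (by decide) 1 isUnit_one ?_ ?_ ?_ hz
  · intro i j hj
    rw [d2th_xs]
    exact if_pos hj
  · rw [S.d2_ev k (S.hqh k) (fun j hj => S.d2_q_vars k hj),
      (S.d2C_eq_zero k _).2 dvd_rfl, mul_zero]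
  · intro j hj hj2
    rw [d2th_xs, d2th_xs, mul_one]
    have h : j ≠ S.be := fun h => hj2 (S.mem_Fr2.2 (Or.inl h))
    simp only [d2u]
    rw [if_neg hj, if_neg h, if_neg hj, if_neg h]

lemma d2_notMem (k : Fin S.T) {z : Coord ι 2} (hz : S.d2th k z ≠ 0) : z ∉ (S.D2 k).I :=
  fun h => hz (S.d2th_kill k h)

lemma d2_ne (k : Fin S.T) (n : ℕ) {p : MvPolynomial ι ℂ} (hp : ¬ S.q k ∣ p) :
    S.d2T k ^ n * S.d2C k p ≠ 0 := by
  have := S.d2P_domain k
  have := S.d2_domain k
  have h0 : S.d2T k ≠ 0 := MvPolynomial.X_ne_zero (R := S.d2A k) ()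
  exact mul_ne_zero (pow_ne_zero _ h0) fun h => hp ((S.d2C_eq_zero k _).1 h)

lemma d2th_b (k : Fin S.T) (i : Fin 2) : xs (S.d2th k) i (S.b k) =
    S.d2T k * S.d2C k (MvPolynomial.X (S.b k)) := by
  rw [d2th_xs]
  exact (if_neg (S.d2_b_K2 k)).trans (if_neg (S.hb k).2.2.2.2.1)

lemma d2th_b_ne (k : Fin S.T) (i : Fin 2) : xs (S.d2th k) i (S.b k) ≠ 0 := by
  rw [d2th_b]
  have h := S.d2_ne k 1 (S.hbq k)
  rwa [pow_one] at h

lemma d2th_be0 (k : Fin S.T) : xs (S.d2th k) 0 S.be = 1 := by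
  rw [d2th_xs]
  exact (if_neg S.d2_be_K2).trans ((if_pos rfl).trans (if_pos rfl))

lemma d2th_be1 (k : Fin S.T) : xs (S.d2th k) 1 S.be = 0 := by
  rw [d2th_xs]
  exact (if_neg S.d2_be_K2).trans ((if_pos rfl).trans (if_neg one_ne_zero))

/-! ### Elements which are not in the ideal of the point -/

lemma d2_X (k : Fin S.T) (i : Fin 2) :
    (MvPolynomial.X (i, S.b k) : Coord ι 2) ∉ (S.D2 k).I :=
  S.d2_notMem k (S.d2th_b_ne k i)

lemma d2_q (k j : Fin S.T) (hjk : j ≠ k) : inFactor 2 0 (S.q j) ∉ (S.D2 k).I := by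
  refine S.d2_notMem k ?_
  rw [map_inFactor, S.d2_ev k (S.hqh j) (fun v hv => S.d2_q_vars j hv)]
  exact S.d2_ne k _ (S.hqn k j hjk.symm)

lemma d2_pd (k : Fin S.T) {v : ι} (hv : ¬ S.q k ∣ pderiv v (S.q k)) :
    inFactor 2 0 (pderiv v (S.q k)) ∉ (S.D2 k).I := by
  have h : (pderiv v (S.q k)).IsHomogeneous (S.e k - 1) := (S.hqh k).pderiv
  refine S.d2_notMem k ?_
  rw [map_inFactor, S.d2_ev k h (fun j hj => S.d2_q_vars k ?_)]
  · exact S.d2_ne k _ hv
  · exact d2_vars_pderiv _ _ hj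

lemma d2_mn (k : Fin S.T) : mn S.be (S.b k) ∉ (S.D2 k).I := by
  refine S.d2_notMem k ?_
  rw [map_mn, d2th_be0, d2th_be1, one_mul, zero_mul, sub_zero]
  exact S.d2th_b_ne k 1

/-- the polynomial with the coordinates in `K2` replaced by zero -/
noncomputable def d2r : MvPolynomial ι ℂ →+* MvPolynomial ι ℂ :=
  eval₂Hom C (fun j => if j ∈ S.K2 then 0 else MvPolynomial.X j)

lemma d2_g' (k : Fin S.T) : inFactor 2 0 S.g' ∉ (S.D2 k).I := by
  refine S.d2_notMem k ?_
  -- the value is the value of `d2r g'`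
  have h1 : eval₂Hom (cs (S.d2th k)) (xs (S.d2th k) 0) S.g' =
      S.d2T k ^ (S.m + 2) * S.d2C k (S.d2r S.g') := by
    rw [d2th_cs, d2th_xs]
    have h2 : eval₂Hom ((S.d2C k).comp C) (fun j => S.d2u k (0, j)) S.g' =
        eval₂Hom ((S.d2C k).comp C)
        (fun j => S.d2T k * (S.d2C k (if j ∈ S.K2 then 0 else MvPolynomial.X j))) S.g' := by
      refine ev_congr _ _ fun j hj => ?_
      simp only [d2u]
      by_cases h3 : j ∈ S.K2
      · rw [if_pos h3, if_pos h3, map_zero, mul_zero]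
      · rw [if_neg h3, if_neg h3, if_neg (S.hg'v j hj).2.2.2.2]
    rw [h2, ev_smul _ _ S.hg'h, d2r, map_ev C _ (S.d2C k)]
  rw [map_inFactor, h1]
  refine S.d2_ne k _ fun h0 => S.hg'q k ?_
  -- `g'` and `d2r g'` are congruent modulo `X tt`
  set I : Ideal (MvPolynomial ι ℂ) := Ideal.span {MvPolynomial.X S.tt, S.q k} with hI
  have h5 : Ideal.Quotient.mk I S.g' = Ideal.Quotient.mk I (S.d2r S.g') := by
    have h6 := map_ev (C : ℂ →+* MvPolynomial ι ℂ) MvPolynomial.X (Ideal.Quotient.mk I) S.g'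
    have h3 : eval₂Hom (C : ℂ →+* MvPolynomial ι ℂ) MvPolynomial.X S.g' = S.g' := eval₂_eta _
    rw [h3] at h6
    rw [h6, d2r, map_ev C _ (Ideal.Quotient.mk I)]
    refine ev_congr _ _ fun j hj => ?_
    by_cases h3 : j ∈ S.K2
    · rw [if_pos h3, map_zero]
      have h4 := S.hg'v j hj
      rcases S.mem_K2.1 h3 with h | h | h
      · rw [h, Ideal.Quotient.eq_zero_iff_mem]
        exact Ideal.subset_span (Or.inl rfl)
      · exact absurd h h4.2.2.2.1
      · exact absurd h h4.1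
    · rw [if_neg h3]
  have h6 : S.d2r S.g' ∈ I := by
    obtain ⟨c, hc⟩ := h0
    rw [hc]
    exact Ideal.mul_mem_right _ _ (Ideal.subset_span (Or.inr rfl))
  rw [← Ideal.Quotient.eq_zero_iff_mem, h5, Ideal.Quotient.eq_zero_iff_mem]
  exact h6

/-- some derivative of `q k` does not vanish on `q k = 0` -/
lemma d2_exists_pderiv (k : Fin S.T) : ∃ v : ι, ¬ S.q k ∣ pderiv v (S.q k) := by
  by_contra h
  push Not at h
  have hq := S.hqp k
  have h4 : S.e k ≠ 0 := by
    intro h3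
    have h5 := S.hqh k
    rw [h3] at h5
    have h6 : (S.q k).totalDegree = 0 := h5.totalDegree hq.ne_zero
    have h7 := totalDegree_eq_zero_iff_eq_C.1 h6
    have h8 : coeff 0 (S.q k) ≠ 0 := by
      intro h0
      rw [h0, map_zero] at h7
      exact hq.ne_zero h7
    apply hq.not_isUnit
    rw [h7]
    exact (isUnit_iff_ne_zero.2 h8).map C
  have h1 : ∀ v, pderiv v (S.q k) = 0 := by
    intro v
    by_contra h0
    have h2 : (pderiv v (S.q k)).IsHomogeneous (S.e k - 1) := (S.hqh k).pderiv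
    obtain ⟨c, hc⟩ := h v
    have hc0 : c ≠ 0 := by
      rintro rfl
      rw [mul_zero] at hc
      exact h0 hc
    have h3 := congrArg totalDegree hc
    rw [totalDegree_mul_of_isDomain hq.ne_zero hc0, (S.hqh k).totalDegree hq.ne_zero,
      h2.totalDegree h0] at h3
    omega
  have h2 := (S.hqh k).sum_X_mul_pderiv
  simp only [h1, mul_zero, Finset.sum_const_zero] at h2
  rw [eq_comm, nsmul_eq_mul, mul_eq_zero] at h2
  rcases h2 with h2 | h2
  · exact h4 (by exact_mod_cast h2)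
  · exact hq.ne_zero h2

/-- the value of `gD` -/
lemma d2_gD (k : Fin S.T) : S.gD (S.b k) ∉ (S.D2 k).I := by
  have := S.d2_domain k
  have := S.d2P_domain k
  refine S.d2_notMem k ?_
  rw [map_gD]
  -- `gB` is the value at a scaled point
  have h1 : S.gB (cs (S.d2th k)) (xs (S.d2th k) 0) (xs (S.d2th k) 1) (S.b k) =
      xs (S.d2th k) 1 (S.b k) ^ (S.m + 2) * eval₂Hom (cs (S.d2th k))
        (fun j => if j = S.be then 0 else xs (S.d2th k) 0 j) S.g := by
    rw [gB, ← ev_smul _ _ S.hgh]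
    refine ev_congr _ _ fun j _ => ?_
    by_cases hj : j = S.be
    · rw [if_pos hj, if_pos hj, d2th_be1, mul_zero, mul_zero]
    · rw [if_neg hj, if_neg hj]
  rw [h1, ← mul_sub]
  refine mul_ne_zero (pow_ne_zero _ (S.d2th_b_ne k 1)) fun h2 => ?_
  -- the value of the bracket when the parameter is zero
  let τ : S.d2P k →+* S.d2A k := S.d2tau k
  have hτT : τ (S.d2T k) = 0 := S.d2tau_T k
  have hτC : τ.comp (cs (S.d2th k)) = (S.d2mk k).comp C := by
    rw [d2th_cs]
    exact RingHom.ext fun a => S.d2tau_C k (C a)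
  have h3 := congrArg τ h2
  rw [map_sub, map_zero, map_ev _ _ τ, map_ev _ _ τ, hτC] at h3
  have h4 : ∀ j, j ≠ S.be → τ (xs (S.d2th k) 0 j) = 0 := by
    intro j hj
    rw [d2th_xs]
    simp only [d2u]
    split_ifs
    · exact map_zero _
    · rw [map_mul, hτT, zero_mul]
  have h5 : eval₂Hom ((S.d2mk k).comp C) (fun j => τ (xs (S.d2th k) 0 j)) S.g =
      S.d2mk k (C (eval (Pi.single S.be 1) S.g)) := by
    have h6 := map_ev (RingHom.id ℂ) (Pi.single S.be 1 : ι → ℂ) ((S.d2mk k).comp C) S.g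
    have h7 : eval₂Hom ((S.d2mk k).comp C) (fun j => τ (xs (S.d2th k) 0 j)) S.g =
        eval₂Hom ((S.d2mk k).comp C)
          (fun j => ((S.d2mk k).comp C) ((Pi.single S.be 1 : ι → ℂ) j)) S.g := by
      refine ev_congr _ _ fun j _ => ?_
      by_cases hj : j = S.be
      · rw [hj, d2th_be0, Pi.single_eq_same, map_one, map_one]
      · rw [h4 j hj, Pi.single_eq_of_ne hj, map_zero]
    rw [h7]
    rw [RingHom.comp_id] at h6
    exact h6.symm
  have h8 : eval₂Hom ((S.d2mk k).comp C)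
      (fun j => τ (if j = S.be then 0 else xs (S.d2th k) 0 j)) S.g = 0 := by
    have h9 : eval₂Hom ((S.d2mk k).comp C)
        (fun j => τ (if j = S.be then 0 else xs (S.d2th k) 0 j)) S.g =
        eval₂Hom ((S.d2mk k).comp C) (fun _ => (0 : S.d2A k) * 0) S.g := by
      refine ev_congr _ _ fun j _ => ?_
      by_cases hj : j = S.be
      · rw [if_pos hj, map_zero, mul_zero]
      · rw [if_neg hj, h4 j hj, mul_zero]
    rw [h9, ev_smul _ _ S.hgh, zero_pow (by omega), zero_mul]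
  rw [h5, h8, sub_zero, d2mk_eq_zero] at h3
  exact (S.hqp k).not_isUnit (isUnit_of_dvd_unit h3 ((isUnit_iff_ne_zero.2 S.hgc).map C))

end BData

end Kp

end Pool.Agent.RCH
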