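import Pool.Agent.RCH.KpD2a

/-!
# Relation (B): members of the ideal of the diagonal of `q k = 0`, and how to kill it
-/

set_option autoImplicit false

open MvPolynomial

namespace Pool.Agent.RCH

namespace Kp

attribute [local instance] Pt.prime

lemma d2_mn_gen {ι D : Type} [CommRing D] [Algebra ℂ D] (F : MvPolynomial ι ℂ)
    (d : Fin 2 × ι → D) {j l : ι} (h : d (0, j) * d (1, l) = d (1, j) * d (0, l)) :
    mn j l ∈ genIdeal (hyp F) d := by
  have h1 : genHom (hyp F) d (mn j l) = 0 := by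
    have hx : ∀ v : Fin 2 × ι, genHom (hyp F) d (MvPolynomial.X v) =
        C (d v) * MvPolynomial.X v.1 := by
      intro v
      rw [genHom, aeval_X, wt_hyp, pow_one]
    rw [mn, map_sub, map_mul, map_mul, hx, hx, hx, hx]
    have h2 := congrArg (C : D →+* MvPolynomial (Fin 2) D) h
    rw [map_mul, map_mul] at h2
    linear_combination (MvPolynomial.X 0 * MvPolynomial.X 1) * h2
  exact RingHom.mem_ker.2 h1

namespace BData

variable {ι : Type} [Fintype ι] [DecidableEq ι] (S : BData ι)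

/-! ### Members of the ideal of the point -/

/-- the uniformizer -/
noncomputable def d2t (k : Fin S.T) : Coord ι 2 := inFactor 2 0 (S.q k)

lemma d2_K2 (k : Fin S.T) (i : Fin 2) {j : ι} (hj : j ∈ S.K2) :
    (MvPolynomial.X (i, j) : Coord ι 2) ∈ (S.D2 k).I :=
  (X_mem_gen S.F (dD 1 S.K2 S.Fr2 (S.q k)) (i, j)).2 (if_pos hj)

lemma d2_s (k : Fin S.T) (i : Fin 2) : (MvPolynomial.X (i, S.s) : Coord ι 2) ∈ (S.D2 k).I :=
  S.d2_K2 k i (S.mem_K2.2 (Or.inr (Or.inl rfl)))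

lemma d2_tt (k : Fin S.T) (i : Fin 2) : (MvPolynomial.X (i, S.tt) : Coord ι 2) ∈ (S.D2 k).I :=
  S.d2_K2 k i (S.mem_K2.2 (Or.inl rfl))

lemma d2_t (k : Fin S.T) : S.d2t k ∈ (S.D2 k).I := by
  have h : inFactor 2 0 (S.q k) ∈ genIdeal (hyp S.F) (dD 1 S.K2 S.Fr2 (S.q k)) := by
    have hw : IsWeightedHomogeneous (hyp S.F).wt (S.q k) (S.e k) := S.hqh k
    rw [mem_genIdeal_of_homogeneous (hyp S.F) _ (inFactor_homogeneous (hyp S.F) 0 hw),
      inFactor_aeval]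
    exact h_dD (S.adm2 k) 1 0
  exact h

lemma d2_dD_Zs (k : Fin S.T) (i : Fin 2) {j : ι} (hj : j ∈ S.Zs) :
    dD 1 S.K2 S.Fr2 (S.q k) (i, j) = dD 1 S.K2 S.Fr2 (S.q k) (1, j) := by
  have h : j ∉ S.Fr2 := by
    obtain ⟨h1, h2, h3, h4⟩ := S.mem_Zs.1 hj
    rw [mem_Fr2]
    rintro (h | h | h)
    · exact h4 h
    · exact h3 h
    · exact h2 h
  simp only [dD]
  by_cases hK : j ∈ S.K2
  · rw [if_pos hK, if_pos hK]
  · rw [if_neg hK, if_neg hK, if_neg h, if_neg h]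

lemma d2_mnm (k : Fin S.T) {j l : ι} (hj : j ∈ S.Zs) (hl : l ∈ S.Zs) :
    mn j l ∈ (S.D2 k).I := by
  refine d2_mn_gen S.F (dD 1 S.K2 S.Fr2 (S.q k)) ?_
  rw [S.d2_dD_Zs k 0 hj, S.d2_dD_Zs k 0 hl]

/-- the quotient by the ideal -/
noncomputable def d2q (k : Fin S.T) : Coord ι 2 →+* Coord ι 2 ⧸ (S.D2 k).I :=
  Ideal.Quotient.mk _

lemma d2q_eq_zero (k : Fin S.T) {z : Coord ι 2} : S.d2q k z = 0 ↔ z ∈ (S.D2 k).I :=
  Ideal.Quotient.eq_zero_iff_mem

/-! ### Identities -/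

omit [Fintype ι] [DecidableEq ι] in
lemma d2_inFactor (i : Fin 2) (p : MvPolynomial ι ℂ) :
    inFactor 2 i p = eval₂Hom C (XX i) p := by
  have h := map_inFactor (RingHom.id (Coord ι 2)) i p
  exact h

/-- the coefficient of `x_s` in `R2` -/
noncomputable def d2ga (b : ι) : Coord ι 2 :=
  mn S.al b * MvPolynomial.X (1, b) ^ (S.m + 2) * MvPolynomial.X (0, S.s) ^ (S.m + 1) +
    MvPolynomial.X (1, b) * S.gD b

/-- the coefficient of `x_tt ^ (m + 2)` in `R2` -/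
noncomputable def d2de (b : ι) : Coord ι 2 := mn S.be b * MvPolynomial.X (1, b) ^ (S.m + 2)

lemma d2_R2 (b : ι) : S.R2 b = MvPolynomial.X (0, S.s) * S.d2ga b +
    MvPolynomial.X (0, S.tt) ^ (S.m + 2) * S.d2de b := by
  rw [R2, r2v, d2ga, d2de, gD, mn, mn, d2_inFactor]
  simp only [XX]
  ring

/-- the coefficient of `x_s` in `f` -/
noncomputable def d2al : Coord ι 2 :=
  MvPolynomial.X (0, S.al) * MvPolynomial.X (0, S.s) ^ (S.m + 1) + inFactor 2 0 S.g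

/-- the coefficient of `x_tt` in `f` -/
noncomputable def d2be : Coord ι 2 :=
  MvPolynomial.X (0, S.be) * MvPolynomial.X (0, S.tt) ^ (S.m + 1) + inFactor 2 0 S.g'

/-- the other factors of the last part -/
noncomputable def d2r' (k : Fin S.T) : Coord ι 2 :=
  ∏ j ∈ Finset.univ.erase k, inFactor 2 0 (S.q j) ^ S.a j

lemma d2_f (k : Fin S.T) : inFactor 2 0 S.f = MvPolynomial.X (0, S.s) * S.d2al +
    MvPolynomial.X (0, S.tt) * S.d2be + S.d2t k ^ S.a k * S.d2r' k := by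
  have h1 : inFactor 2 0 S.tau = S.d2t k ^ S.a k * S.d2r' k := by
    rw [tau, map_prod, d2t, d2r', ← Finset.mul_prod_erase Finset.univ _ (Finset.mem_univ k),
      map_pow]
    congr 1
    exact Finset.prod_congr rfl fun j _ => map_pow _ _ _
  have hX : ∀ j, inFactor 2 0 (MvPolynomial.X j : MvPolynomial ι ℂ) =
      MvPolynomial.X (0, j) := fun j => by rw [inFactor, rename_X]
  rw [← h1, f, psi, rho, d2al, d2be]
  simp only [map_add, map_mul, map_pow, hX]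
  ring

/-- the coefficient of `x_tt` in the relation with `t` -/
noncomputable def d2u1 (b : ι) : Coord ι 2 :=
  S.d2ga b * S.d2be - S.d2de b * S.d2al * MvPolynomial.X (0, S.tt) ^ (S.m + 1)

/-- the coefficient of `t ^ a` in the relation with `t` -/
noncomputable def d2v1 (k : Fin S.T) (b : ι) : Coord ι 2 := -(S.d2ga b * S.d2r' k)

lemma d2_rel (k : Fin S.T) (b : ι) : S.d2u1 b * MvPolynomial.X (0, S.tt) -
    S.d2v1 k b * S.d2t k ^ S.a k = S.d2ga b * inFactor 2 0 S.f - S.d2al * S.R2 b := by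
  rw [S.d2_f k, S.d2_R2 b, d2u1, d2v1]
  ring

lemma d2_fm (k : Fin S.T) : inFactor 2 0 S.f ∈ (S.D2 k).I := by
  rw [S.d2_f k]
  exact add_mem (add_mem (Ideal.mul_mem_right _ _ (S.d2_s k 0))
    (Ideal.mul_mem_right _ _ (S.d2_tt k 0))) (Ideal.mul_mem_right _ _
      (Ideal.pow_mem_of_mem _ (S.d2_t k) _ (by have := S.ha k; omega)))

lemma d2_R2m (k : Fin S.T) (b : ι) : S.R2 b ∈ (S.D2 k).I := by
  rw [S.d2_R2 b]
  exact add_mem (Ideal.mul_mem_right _ _ (S.d2_s k 0))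
    (Ideal.mul_mem_right _ _ (Ideal.pow_mem_of_mem _ (S.d2_tt k 0) _ (by omega)))

/-! ### The coefficients are not in the ideal of the point -/

lemma d2_ga (k : Fin S.T) : S.d2ga (S.b k) ∉ (S.D2 k).I := by
  intro h
  have h1 : mn S.al (S.b k) * MvPolynomial.X (1, S.b k) ^ (S.m + 2) *
      MvPolynomial.X (0, S.s) ^ (S.m + 1) ∈ (S.D2 k).I :=
    Ideal.mul_mem_left _ _ (Ideal.pow_mem_of_mem _ (S.d2_s k 0) _ (by omega))
  have h2 := sub_mem h h1
  rw [d2ga, add_sub_cancel_left] at h2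
  exact ((S.D2 k).prime.mem_or_mem h2).elim (S.d2_X k 1) (S.d2_gD k)

lemma d2_de (k : Fin S.T) : S.d2de (S.b k) ∉ (S.D2 k).I := by
  intro h
  rcases (S.D2 k).prime.mem_or_mem h with h1 | h1
  · exact S.d2_mn k h1
  · exact S.d2_X k 1 ((S.D2 k).prime.mem_of_pow_mem _ h1)

lemma d2_be (k : Fin S.T) : S.d2be ∉ (S.D2 k).I := by
  intro h
  have h1 : MvPolynomial.X (0, S.be) * MvPolynomial.X (0, S.tt) ^ (S.m + 1) ∈ (S.D2 k).I :=
    Ideal.mul_mem_left _ _ (Ideal.pow_mem_of_mem _ (S.d2_tt k 0) _ (by omega))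
  have h2 := sub_mem h h1
  rw [d2be, add_sub_cancel_left] at h2
  exact S.d2_g' k h2

lemma d2_r' (k : Fin S.T) : S.d2r' k ∉ (S.D2 k).I := by
  intro h
  obtain ⟨j, hj, h1⟩ := ((S.D2 k).prime.prod_mem_iff).1 h
  exact S.d2_q k j (Finset.ne_of_mem_erase hj) ((S.D2 k).prime.mem_of_pow_mem _ h1)

lemma d2_u1 (k : Fin S.T) : S.d2u1 (S.b k) ∉ (S.D2 k).I := by
  intro h
  have h1 : S.d2de (S.b k) * S.d2al * MvPolynomial.X (0, S.tt) ^ (S.m + 1) ∈ (S.D2 k).I :=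
    Ideal.mul_mem_left _ _ (Ideal.pow_mem_of_mem _ (S.d2_tt k 0) _ (by omega))
  have h2 := add_mem h h1
  rw [d2u1, sub_add_cancel] at h2
  exact ((S.D2 k).prime.mem_or_mem h2).elim (S.d2_ga k) (S.d2_be k)

lemma d2_v1 (k : Fin S.T) : S.d2v1 k (S.b k) ∉ (S.D2 k).I := by
  intro h
  rw [d2v1, neg_mem_iff] at h
  exact ((S.D2 k).prime.mem_or_mem h).elim (S.d2_ga k) (S.d2_r' k)

/-! ### Killing -/

lemma d2_kill (k : Fin S.T) {L : Type} [CommRing L] (φ : Coord ι 2 →+* L)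
    (hK : ∀ i, ∀ j ∈ S.K, xs φ i j = 0) (hmn : ∀ j ∈ S.Zs, φ (mn (S.b k) j) = 0)
    (hf : φ (inFactor 2 0 S.f) = 0) (hR : φ (S.R2 (S.b k)) = 0) (ht : φ (S.d2t k) = 0)
    (hu : IsUnit (φ (S.d2u1 (S.b k)))) (hg : IsUnit (φ (S.d2ga (S.b k))))
    (hx : IsUnit (xs φ 0 (S.b k))) (hy : IsUnit (xs φ 1 (S.b k))) {z : Coord ι 2}
    (hz : z ∈ (S.D2 k).I) : φ z = 0 := by
  have htt : xs φ 0 S.tt = 0 := by
    have h1 := congrArg φ (S.d2_rel k (S.b k))
    rw [map_sub, map_sub, map_mul, map_mul, map_mul, map_mul, map_pow, ht, hf, hR,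
      zero_pow (by have := S.ha k; omega), mul_zero, mul_zero, mul_zero, sub_zero, sub_zero] at h1
    exact hu.mul_right_eq_zero.1 h1
  have hs : xs φ 0 S.s = 0 := by
    have htt' : φ (MvPolynomial.X (0, S.tt)) = 0 := htt
    have h1 := hR
    rw [d2_R2, map_add, map_mul, map_mul, map_pow, htt', zero_pow (by omega), zero_mul,
      add_zero] at h1
    exact hg.mul_left_eq_zero.1 h1
  have hpr : ∀ j ∈ S.Zs, xs φ 0 (S.b k) * xs φ 1 j = xs φ 1 (S.b k) * xs φ 0 j := by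
    intro j hj
    have h := hmn j hj
    rw [map_mn, sub_eq_zero] at h
    exact h
  have hK2 : ∀ i, ∀ j ∈ S.K2, xs φ i j = 0 := by
    have h0 : ∀ j ∈ S.K2, xs φ 0 j = 0 := by
      intro j hj
      rcases S.mem_K2.1 hj with rfl | rfl | hj
      · exact htt
      · exact hs
      · exact hK 0 j hj
    intro i j hj
    rcases (by omega : i = 0 ∨ i = 1) with rfl | rfl
    · exact h0 j hj
    · rcases S.mem_K2.1 hj with h | h | h
      · have h1 := hpr j (h ▸ S.tt_mem)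
        rw [h0 j hj, mul_zero] at h1
        exact hx.mul_right_eq_zero.1 h1
      · have h1 := hpr j (h ▸ S.s_mem)
        rw [h0 j hj, mul_zero] at h1
        exact hx.mul_right_eq_zero.1 h1
      · exact hK 1 j h
  obtain ⟨u, hu'⟩ := hx
  obtain ⟨w, hw⟩ := hy
  have hxy : ∀ j ∈ S.Zs, xs φ 0 j = xs φ 1 j * (↑(u * w⁻¹) : L) := by
    intro j hj
    have h1 := hpr j hj
    rw [← hu', ← hw] at h1
    have h2 : (w : L) * (↑w⁻¹ : L) = 1 := Units.mul_inv w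
    rw [Units.val_mul]
    linear_combination (-(xs φ 0 j)) * h2 - (↑w⁻¹ : L) * h1
  have hq : eval₂Hom (cs φ) (xs φ 1) (S.q k) = 0 := by
    rw [d2t, map_inFactor] at ht
    have h1 : eval₂Hom (cs φ) (xs φ 0) (S.q k) =
        eval₂Hom (cs φ) (fun j => (↑(u * w⁻¹) : L) * xs φ 1 j) (S.q k) := by
      refine ev_congr _ _ fun j hj => ?_
      have h := S.hqv k j hj
      rw [hxy j (S.mem_Zs.2 ⟨h.1, h.2.1, h.2.2.1, h.2.2.2.2.1⟩), mul_comm]
    rw [h1, ev_smul _ _ (S.hqh k)] at ht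
    exact ((u * w⁻¹).isUnit.pow _).mul_right_eq_zero.1 ht
  refine kill_dD (F := S.F) φ 1 0 (by decide) (↑(u * w⁻¹) : L) (u * w⁻¹).isUnit hK2 hq ?_ hz
  intro j hj hj2
  refine hxy j (S.mem_Zs.2 ⟨fun h => hj (S.mem_K2.2 (Or.inr (Or.inr h))),
    fun h => hj2 (S.mem_Fr2.2 (Or.inr (Or.inr h))), fun h => hj2 (S.mem_Fr2.2 (Or.inr (Or.inl h))),
    fun h => hj2 (S.mem_Fr2.2 (Or.inl h))⟩)

end BData

end Kp

end Pool.Agent.RCH
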