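import Pool.Agent.RCH.Defs

/-!
# Hypersurfaces of even dimensional projective space which contain linear spaces

The definitions used in the statement, besides those of `Pool/Agent/RCH/Defs.lean`.
-/

set_option autoImplicit false

open MvPolynomial

namespace Pool.Agent.RCH

namespace Kp

/-- The hypersurface `F = 0` in the projective space with coordinates indexed by `ι`. -/
noncomputable def hyp {ι : Type} (F : MvPolynomial ι ℂ) : WVar ι where
  wt := fun _ => 1
  eqs := Ideal.span {F}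

/-- The index of the coordinate `x_j`, for `j < 2r + 5`. -/
def cx (r j : ℕ) : Fin (2 * r + 5) := Fin.ofNat (2 * r + 5) j

/-- The polynomial
`∑_(i ≤ r) (x_(2i) x_(2i+1) ^ n + x_(2i+1) g_i) + ∏ (x_(2r+3) - b_k x_(2r+2)) ^ (a_k) + x_(2r+4) P`
in the coordinates `x_0, …, x_(2r+4)`. -/
noncomputable def planesPoly (r n : ℕ) {t : ℕ} (b : Fin t → ℂ) (a : Fin t → ℕ)
    (g : ℕ → MvPolynomial (Fin (2 * r + 5)) ℂ) (P : MvPolynomial (Fin (2 * r + 5)) ℂ) :
    MvPolynomial (Fin (2 * r + 5)) ℂ :=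
  ∑ i ∈ Finset.range (r + 1),
    (MvPolynomial.X (cx r (2 * i)) * MvPolynomial.X (cx r (2 * i + 1)) ^ n +
      MvPolynomial.X (cx r (2 * i + 1)) * g i) +
    ∏ k, (MvPolynomial.X (cx r (2 * r + 3)) - C (b k) * MvPolynomial.X (cx r (2 * r + 2))) ^ a k +
    MvPolynomial.X (cx r (2 * r + 4)) * P

/-- The ideal of the linear space `x_(2i+1) = 0` for `i ≤ r`, `x_(2r+4) = 0`,
`x_(2r+3) = β x_(2r+2)` in the projective space with coordinates `x_0, …, x_(2r+4)`. -/
noncomputable def spaceIdeal (r : ℕ) (β : ℂ) : Ideal (Coord (Fin (2 * r + 5)) 1) :=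
  Ideal.span ({z | ∃ i ≤ r, z = MvPolynomial.X (0, cx r (2 * i + 1))} ∪
    {MvPolynomial.X (0, cx r (2 * r + 4)),
      MvPolynomial.X (0, cx r (2 * r + 3)) - C β * MvPolynomial.X (0, cx r (2 * r + 2))})

end Kp

end Pool.Agent.RCH
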