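import Pool.Agent.RCH.KpRel
import Pool.Agent.RCH.KpKillU

/-!
# Relation (B), the point `E0 1`: local generators of the ideal of `pU` (row K-E0a, helper14)
-/

set_option autoImplicit false

open MvPolynomial

namespace Pool.Agent.RCH

section sat

variable {R : Type} [CommRing R]

/-- saturation of `I + (x b - a)` with respect to `x` -/
lemma kpE0a_sat_aux {I : Ideal R} [hI : I.IsPrime] {x a b : R} (hx : x ∉ I)
    (h : ∀ q, a * q ∈ I ⊔ Ideal.span {x} → q ∈ I ⊔ Ideal.span {x}) {z : R}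
    (hz : x * z ∈ I ⊔ Ideal.span {x * b - a}) : z ∈ I ⊔ Ideal.span {x * b - a} := by
  rw [Submodule.mem_sup] at hz
  obtain ⟨i, hi, j, hj, hij⟩ := hz
  obtain ⟨q, rfl⟩ := Ideal.mem_span_singleton'.1 hj
  have h1 : q ∈ I ⊔ Ideal.span {x} := by
    apply h
    have : a * q = i + (b * q - z) * x := by linear_combination -hij
    rw [this]
    exact Ideal.add_mem _ (Ideal.mem_sup_left hi) (Ideal.mem_sup_right
      (Ideal.mem_span_singleton'.2 ⟨_, rfl⟩))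
  rw [Submodule.mem_sup] at h1
  obtain ⟨i', hi', j', hj', hij'⟩ := h1
  obtain ⟨q', rfl⟩ := Ideal.mem_span_singleton'.1 hj'
  have h2 : x * (z - q' * (x * b - a)) ∈ I := by
    have : x * (z - q' * (x * b - a)) = i + i' * (x * b - a) := by
      linear_combination -hij - (x * b - a) * hij'
    rw [this]
    exact I.add_mem hi (I.mul_mem_right _ hi')
  have h3 := (hI.mem_or_mem h2).resolve_left hx
  have : z = (z - q' * (x * b - a)) + q' * (x * b - a) := by ring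
  rw [this]
  exact Ideal.add_mem _ (Ideal.mem_sup_left h3) (Ideal.mem_sup_right
    (Ideal.mem_span_singleton'.2 ⟨q', rfl⟩))

lemma kpE0a_mem_iff {J Q : Ideal R} [Q.IsPrime] {z : R} : toLocMod J Q z = 0 ↔
    algebraMap R (Localization.AtPrime Q) z ∈ J.map (algebraMap R (Localization.AtPrime Q)) := by
  rw [toLocMod, RingHom.comp_apply, Ideal.Quotient.eq_zero_iff_mem]

lemma kpE0a_prime {I Q : Ideal R} [hI : I.IsPrime] [Q.IsPrime] (hIQ : I ≤ Q) :
    (I.map (algebraMap R (Localization.AtPrime Q))).IsPrime := by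
  refine IsLocalization.isPrime_of_isPrime_disjoint Q.primeCompl _ I hI ?_
  rw [Set.disjoint_left]
  intro x hx hxI
  exact hx (hIQ hxI)

lemma kpE0a_notMem {I Q : Ideal R} [hI : I.IsPrime] [Q.IsPrime] (hIQ : I ≤ Q) {x : R}
    (hx : x ∉ I) :
    algebraMap R (Localization.AtPrime Q) x ∉ I.map (algebraMap R (Localization.AtPrime Q)) := by
  intro h
  rw [IsLocalization.mem_map_algebraMap_iff Q.primeCompl] at h
  obtain ⟨⟨⟨a, ha⟩, ⟨s, hs⟩⟩, h⟩ := h
  simp only at h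
  rw [← map_mul] at h
  obtain ⟨⟨t, ht⟩, h'⟩ := (IsLocalization.eq_iff_exists Q.primeCompl _).mp h
  simp only at h'
  have h2 : t * (x * s) ∈ I := by
    rw [h']
    exact I.mul_mem_left _ ha
  rcases hI.mem_or_mem h2 with h3 | h3
  · exact ht (hIQ h3)
  · rcases hI.mem_or_mem h3 with h4 | h4
    · exact hx h4
    · exact hs (hIQ h4)

/-- saturation with respect to an element which is locally a nonzerodivisor -/
lemma kpE0a_sat1 {I I' Q : Ideal R} [I.IsPrime] [I'.IsPrime] [Q.IsPrime] (hI'Q : I' ≤ Q)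
    (hII' : I ≤ I') {x b a : R} (hx : x ∉ I) (hxI' : x ∈ I') (ha : a ∉ I')
    (hloc : ∀ z ∈ I', toLocMod (I ⊔ Ideal.span {x}) Q z = 0) {z : R}
    (hz : toLocMod (I ⊔ Ideal.span {x * b - a}) Q (x * z) = 0) :
    toLocMod (I ⊔ Ideal.span {x * b - a}) Q z = 0 := by
  have p1 : (I.map (algebraMap R (Localization.AtPrime Q))).IsPrime :=
    kpE0a_prime (hII'.trans hI'Q)
  have p2 : (I'.map (algebraMap R (Localization.AtPrime Q))).IsPrime := kpE0a_prime hI'Q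
  have e1 : I.map (algebraMap R (Localization.AtPrime Q)) ⊔
      Ideal.span {algebraMap R (Localization.AtPrime Q) x} =
      I'.map (algebraMap R (Localization.AtPrime Q)) := by
    apply le_antisymm
    · rw [sup_le_iff, Ideal.span_le, Set.singleton_subset_iff]
      exact ⟨Ideal.map_mono hII', Ideal.mem_map_of_mem _ hxI'⟩
    · rw [Ideal.map_le_iff_le_comap]
      intro y hy
      have h := kpE0a_mem_iff.1 (hloc y hy)
      rw [map_sup_span] at h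
      exact h
  rw [kpE0a_mem_iff, map_sup_span, map_sub, map_mul] at hz ⊢
  rw [map_mul] at hz
  refine kpE0a_sat_aux (kpE0a_notMem (hII'.trans hI'Q) hx) ?_ hz
  intro q hq
  rw [e1] at hq ⊢
  exact (p2.mem_or_mem hq).resolve_left (kpE0a_notMem hI'Q ha)

lemma kpE0a_sat {I I' Q : Ideal R} [I.IsPrime] [I'.IsPrime] [Q.IsPrime] (hI'Q : I' ≤ Q)
    (hII' : I ≤ I') {x b a : R} (hx : x ∉ I) (hxI' : x ∈ I') (ha : a ∉ I')
    (hloc : ∀ z ∈ I', toLocMod (I ⊔ Ideal.span {x}) Q z = 0) {z : R} (n : ℕ)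
    (hz : toLocMod (I ⊔ Ideal.span {x * b - a}) Q (x ^ n * z) = 0) :
    toLocMod (I ⊔ Ideal.span {x * b - a}) Q z = 0 := by
  induction n with
  | zero => simpa using hz
  | succ n ih =>
    apply ih
    apply kpE0a_sat1 hI'Q hII' hx hxI' ha hloc
    rwa [← mul_assoc, ← pow_succ']

end sat

namespace Kp

namespace BData

attribute [local instance] Pt.prime

variable {ι : Type} [Fintype ι] [DecidableEq ι] (S : BData ι)

/-- the prime of the proportional pairs, `x_al`, `x_be` free -/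
local instance kpE0a_instPS : (genIdeal (hyp S.F) (dL S.K S.Fr2 S.s S.f)).IsPrime :=
  haveI := isDomain_RD 1 S.f_prime
  genIdeal_prime _ _

/-- the prime `y` on the surface, `x` in the linear space -/
local instance kpE0a_instPR : (genIdeal (hyp S.F) (dE 1 S.Fr2 S.K S.f)).IsPrime :=
  haveI := isDomain_RD 1 S.f_prime
  genIdeal_prime _ _

lemma kpE0a_xs_genHom {D : Type} [CommRing D] [Algebra ℂ D] (d : Fin 2 × ι → D) (i : Fin 2)
    (j : ι) : xs (genHom (hyp S.F) d).toRingHom i j =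
      C (d (i, j)) * MvPolynomial.X i := by
  show genHom (hyp S.F) d (MvPolynomial.X (i, j)) = _
  rw [genHom, aeval_X, wt_hyp, pow_one]

lemma kpE0a_mn_PS {j l : ι} (hj : j ∈ S.Zs) (hl : l ∈ S.Zs) :
    mn j l ∈ genIdeal (hyp S.F) (dL S.K S.Fr2 S.s S.f) := by
  have h : (genHom (hyp S.F) (dL S.K S.Fr2 S.s S.f)).toRingHom (mn j l) = 0 := by
    rw [map_mn, kpE0a_xs_genHom, kpE0a_xs_genHom, kpE0a_xs_genHom, kpE0a_xs_genHom]
    have hZ : ∀ j ∈ S.Zs, dL S.K S.Fr2 S.s S.f (0, j) =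
        Kp.mk 1 S.f (MvPolynomial.X (0, S.s) * MvPolynomial.X (1, j)) := by
      intro j hj
      rw [mem_Zs] at hj
      have h2 : j ∉ S.Fr2 := by
        rw [mem_Fr2]
        rintro (h | h | h)
        · exact hj.2.2.2 h
        · exact hj.2.2.1 h
        · exact hj.2.1 h
      simp only [dL]
      rw [if_neg hj.1, if_neg (by decide), if_neg h2]
    have hZ1 : ∀ j ∈ S.Zs, dL S.K S.Fr2 S.s S.f (1, j) =
        Kp.mk 1 S.f (MvPolynomial.X (1, j)) := by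
      intro j hj
      rw [mem_Zs] at hj
      simp only [dL]
      rw [if_neg hj.1, if_pos trivial]
    rw [hZ j hj, hZ l hl, hZ1 j hj, hZ1 l hl, map_mul, map_mul, map_mul, map_mul]
    ring
  exact h

lemma kpE0a_X_PS (i : Fin 2) {j : ι} (hj : j ∈ S.K) :
    (MvPolynomial.X (i, j) : Coord ι 2) ∈ genIdeal (hyp S.F) (dL S.K S.Fr2 S.s S.f) := by
  rw [X_mem_gen]
  exact if_pos hj

lemma kpE0a_f_PS : inFactor 2 1 S.f ∈ genIdeal (hyp S.F) (dL S.K S.Fr2 S.s S.f) := by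
  have hw : IsWeightedHomogeneous (hyp S.F).wt S.f (S.m + 3) := S.f_homog
  rw [mem_gen S.F _ (inFactor_homogeneous (hyp S.F) 1 hw), inFactor_aeval]
  have h1 := h_main 1 S.f
  rw [← h1]
  refine ev_congr _ _ fun j hj => ?_
  simp only [dL]
  rw [if_neg (S.f_vars hj).1, if_pos trivial]

lemma kpE0a_s_PS : (MvPolynomial.X (0, S.s) : Coord ι 2) ∉
    genIdeal (hyp S.F) (dL S.K S.Fr2 S.s S.f) := by
  have := isDomain_RD 1 S.f_prime
  rw [X_mem_gen]
  simp only [dL]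
  rw [if_neg S.sK, if_neg (by decide), if_neg S.s_notMem_Fr2, map_mul]
  exact mul_ne_zero (mk_X_ne 1 0 S.f_prime (not_dvd_X (n := S.m + 1) S.f_homog _))
    (mk_X_ne 1 1 S.f_prime (not_dvd_X (n := S.m + 1) S.f_homog _))

/-! ### The auxiliary prime `PR` -/

lemma kpE0a_x_PR {j : ι} (hj : j ∉ S.Fr2) : (MvPolynomial.X (0, j) : Coord ι 2) ∈
    genIdeal (hyp S.F) (dE 1 S.Fr2 S.K S.f) := by
  rw [X_mem_gen]
  simp only [dE]
  rw [if_neg (by decide), if_neg hj]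

lemma kpE0a_y_PR {j : ι} (hj : j ∈ S.K) : (MvPolynomial.X (1, j) : Coord ι 2) ∈
    genIdeal (hyp S.F) (dE 1 S.Fr2 S.K S.f) := by
  rw [X_mem_gen]
  simp only [dE]
  rw [if_pos trivial, if_pos hj]

lemma kpE0a_x_notPR {j : ι} (hj : j ∈ S.Fr2) : (MvPolynomial.X (0, j) : Coord ι 2) ∉
    genIdeal (hyp S.F) (dE 1 S.Fr2 S.K S.f) := by
  rw [X_mem_gen]
  simp only [dE]
  rw [if_neg (by decide), if_pos hj]
  exact mk_X_ne 1 0 S.f_prime (not_dvd_X (n := S.m + 1) S.f_homog _)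

lemma kpE0a_y_notPR {j : ι} (hj : j ∉ S.K) : (MvPolynomial.X (1, j) : Coord ι 2) ∉
    genIdeal (hyp S.F) (dE 1 S.Fr2 S.K S.f) := by
  rw [X_mem_gen]
  simp only [dE]
  rw [if_pos trivial, if_neg hj]
  exact mk_X_ne 1 1 S.f_prime (not_dvd_X (n := S.m + 1) S.f_homog _)

lemma kpE0a_f_PR : inFactor 2 1 S.f ∈ genIdeal (hyp S.F) (dE 1 S.Fr2 S.K S.f) := by
  have hw : IsWeightedHomogeneous (hyp S.F).wt S.f (S.m + 3) := S.f_homog
  rw [mem_gen S.F _ (inFactor_homogeneous (hyp S.F) 1 hw), inFactor_aeval]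
  have h1 := h_main 1 S.f
  rw [← h1]
  refine ev_congr _ _ fun j hj => ?_
  simp only [dE]
  rw [if_pos trivial, if_neg (S.f_vars hj).1]

/-! ### The point `E0 1` -/

lemma kpE0a_Fr1_Fr2 {j : ι} (hj : j ∉ S.Fr2) : j ∉ S.Fr1 := fun h => hj (S.Fr1_sub h)

lemma kpE0a_x_E0 {j : ι} (hj : j ∉ S.Fr1) : (MvPolynomial.X (0, j) : Coord ι 2) ∈ (S.E0 1).I := by
  show _ ∈ genIdeal (hyp S.F) (dE 1 S.Fr1 S.K S.f)
  rw [X_mem_gen]
  simp only [dE]
  rw [if_neg (by decide), if_neg hj]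

lemma kpE0a_y_E0 {j : ι} (hj : j ∈ S.K) : (MvPolynomial.X (1, j) : Coord ι 2) ∈ (S.E0 1).I := by
  show _ ∈ genIdeal (hyp S.F) (dE 1 S.Fr1 S.K S.f)
  rw [X_mem_gen]
  simp only [dE]
  rw [if_pos trivial, if_pos hj]

lemma kpE0a_y_notE0 {j : ι} (hj : j ∉ S.K) :
    (MvPolynomial.X (1, j) : Coord ι 2) ∉ (S.E0 1).I := by
  show _ ∉ genIdeal (hyp S.F) (dE 1 S.Fr1 S.K S.f)
  rw [X_mem_gen]
  simp only [dE]
  rw [if_pos trivial, if_neg hj]
  exact mk_X_ne 1 1 S.f_prime (not_dvd_X (n := S.m + 1) S.f_homog _)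

lemma kpE0a_f_E0 : inFactor 2 1 S.f ∈ (S.E0 1).I := by
  show _ ∈ genIdeal (hyp S.F) (dE 1 S.Fr1 S.K S.f)
  have hw : IsWeightedHomogeneous (hyp S.F).wt S.f (S.m + 3) := S.f_homog
  rw [mem_gen S.F _ (inFactor_homogeneous (hyp S.F) 1 hw), inFactor_aeval]
  have h1 := h_main 1 S.f
  rw [← h1]
  refine ev_congr _ _ fun j hj => ?_
  simp only [dE]
  rw [if_pos trivial, if_neg (S.f_vars hj).1]

/-- the value of the second equation -/
lemma kpE0a_ev_f {L : Type} [CommRing L] (φ : Coord ι 2 →+* L) (h : φ (inFactor 2 1 S.f) = 0) :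
    eval₂Hom (cs φ) (xs φ 1) S.f = 0 := by
  rw [← map_inFactor]
  exact h

lemma kpE0a_PR_le_E0 : genIdeal (hyp S.F) (dE 1 S.Fr2 S.K S.f) ≤ (S.E0 1).I := by
  intro z hz
  rw [← Ideal.Quotient.eq_zero_iff_mem]
  refine kill_dE (Ideal.Quotient.mk (S.E0 1).I) 1 0 (by decide) ?_ ?_ ?_ hz
  · intro j hj
    exact Ideal.Quotient.eq_zero_iff_mem.2 (S.kpE0a_y_E0 hj)
  · intro j hj
    exact Ideal.Quotient.eq_zero_iff_mem.2 (S.kpE0a_x_E0 (S.kpE0a_Fr1_Fr2 hj))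
  · exact S.kpE0a_ev_f _ (Ideal.Quotient.eq_zero_iff_mem.2 S.kpE0a_f_E0)

lemma kpE0a_PS_le_PR : genIdeal (hyp S.F) (dL S.K S.Fr2 S.s S.f) ≤
    genIdeal (hyp S.F) (dE 1 S.Fr2 S.K S.f) := by
  intro z hz
  rw [← Ideal.Quotient.eq_zero_iff_mem]
  refine kill_dL (Ideal.Quotient.mk _) S.s S.s_notMem_Fr2 0 ?_ ?_ ?_ hz
  · intro i j hj
    by_cases hi : i = 1
    · subst hi
      exact Ideal.Quotient.eq_zero_iff_mem.2 (S.kpE0a_y_PR hj)
    · have hi0 : i = 0 := by omega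
      subst hi0
      exact Ideal.Quotient.eq_zero_iff_mem.2 (S.kpE0a_x_PR (S.K_notMem_Fr2 hj))
  · exact S.kpE0a_ev_f _ (Ideal.Quotient.eq_zero_iff_mem.2 S.kpE0a_f_PR)
  · intro j hjK hjF
    rw [zero_mul]
    exact Ideal.Quotient.eq_zero_iff_mem.2 (S.kpE0a_x_PR hjF)

lemma kpE0a_mem_Zs {j : ι} (hK : j ∉ S.K) (hF : j ∉ S.Fr2) : j ∈ S.Zs := by
  rw [mem_Fr2] at hF
  rw [mem_Zs]
  exact ⟨hK, fun h => hF (Or.inr (Or.inr h)), fun h => hF (Or.inr (Or.inl h)),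
    fun h => hF (Or.inl h)⟩

lemma kpE0a_loc {z : Coord ι 2} (hz : z ∈ genIdeal (hyp S.F) (dE 1 S.Fr2 S.K S.f)) :
    toLocMod (genIdeal (hyp S.F) (dL S.K S.Fr2 S.s S.f) ⊔
      Ideal.span {(MvPolynomial.X (0, S.s) : Coord ι 2)}) (S.E0 1).I z = 0 := by
  have hJ : ∀ w ∈ genIdeal (hyp S.F) (dL S.K S.Fr2 S.s S.f),
      toLocMod (genIdeal (hyp S.F) (dL S.K S.Fr2 S.s S.f) ⊔
        Ideal.span {(MvPolynomial.X (0, S.s) : Coord ι 2)}) (S.E0 1).I w = 0 :=
    fun w hw => toLocMod_eq_zero_of_mem (Ideal.mem_sup_left hw)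
  have hs : toLocMod (genIdeal (hyp S.F) (dL S.K S.Fr2 S.s S.f) ⊔
        Ideal.span {(MvPolynomial.X (0, S.s) : Coord ι 2)}) (S.E0 1).I
        (MvPolynomial.X (0, S.s)) = 0 :=
    toLocMod_eq_zero_of_mem (Ideal.mem_sup_right (Ideal.mem_span_singleton_self _))
  refine kill_dE (toLocMod _ _) 1 0 (by decide) ?_ ?_ ?_ hz
  · intro j hj
    exact hJ _ (S.kpE0a_X_PS 1 hj)
  · intro j hj
    by_cases hK : j ∈ S.K
    · exact hJ _ (S.kpE0a_X_PS 0 hK)
    · have h1 := hJ _ (S.kpE0a_mn_PS S.s_mem (S.kpE0a_mem_Zs hK hj))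
      rw [mn, map_sub, map_mul, map_mul, hs, zero_mul, zero_sub, neg_eq_zero] at h1
      exact (isUnit_toLocMod (S.kpE0a_y_notE0 S.sK)).mul_right_eq_zero.1 h1
  · exact S.kpE0a_ev_f _ (hJ _ S.kpE0a_f_PS)

/-- the value of `g` at the coordinate point `be` -/
noncomputable def kpE0a_gc : ℂ := eval (Pi.single S.be 1) S.g

lemma kpE0a_ev_single {L : Type} [CommRing L] (c : ℂ →+* L) (k : L) :
    eval₂Hom c (fun j => if j = S.be then k else 0) S.g = c S.kpE0a_gc * k ^ (S.m + 2) := by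
  have h1 : (fun j => if j = S.be then k else 0) = fun j : ι =>
      k * (fun j => c ((Pi.single S.be 1 : ι → ℂ) j)) j := by
    funext j
    by_cases hj : j = S.be
    · subst hj
      simp
    · simp [hj]
  have h2 := map_ev (RingHom.id ℂ) (Pi.single S.be 1 : ι → ℂ) c S.g
  rw [h1, ev_smul c _ S.hgh]
  rw [mul_comm, kpE0a_gc]
  congr 1
  exact h2.symm

/-- `HH s` modulo `x_s` -/
lemma kpE0a_HH : ∃ b : Coord ι 2, S.HH S.s = MvPolynomial.X (0, S.s) * b -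
    -(C S.kpE0a_gc * (MvPolynomial.X (1, S.s) ^ (S.m + 3) *
      MvPolynomial.X (0, S.be) ^ (S.m + 2))) := by
  have h : S.HH S.s - C S.kpE0a_gc * (MvPolynomial.X (1, S.s) ^ (S.m + 3) *
      MvPolynomial.X (0, S.be) ^ (S.m + 2)) ∈
      Ideal.span {(MvPolynomial.X (0, S.s) : Coord ι 2)} := by
    rw [← Ideal.Quotient.eq_zero_iff_mem]
    set φ : Coord ι 2 →+* Coord ι 2 ⧸ Ideal.span {(MvPolynomial.X (0, S.s) : Coord ι 2)} :=
      Ideal.Quotient.mk (Ideal.span {(MvPolynomial.X (0, S.s) : Coord ι 2)}) with hφ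
    have hs : xs φ 0 S.s = 0 :=
      Ideal.Quotient.eq_zero_iff_mem.2 (Ideal.mem_span_singleton_self _)
    have hgS : S.gS (cs φ) (xs φ 0) (xs φ 1) S.s =
        cs φ S.kpE0a_gc * (xs φ 1 S.s * xs φ 0 S.be) ^ (S.m + 2) := by
      rw [gS, hs, ← kpE0a_ev_single]
      refine ev_congr _ _ fun j _ => ?_
      rw [zero_mul]
    have hC : φ (C S.kpE0a_gc) = cs φ S.kpE0a_gc := rfl
    have h1 : φ (MvPolynomial.X (1, S.s)) = xs φ 1 S.s := rfl
    have h2 : φ (MvPolynomial.X (0, S.be)) = xs φ 0 S.be := rfl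
    rw [map_sub, S.map_HH φ, hhv, hgS, hs, map_mul, map_mul, map_pow, map_pow, hC, h1, h2,
      zero_pow (by omega), zero_pow (by omega)]
    ring
  rw [Ideal.mem_span_singleton'] at h
  obtain ⟨b, hb⟩ := h
  exact ⟨b, by linear_combination -hb⟩

lemma kpE0a_a_notMem : -(C S.kpE0a_gc * (MvPolynomial.X (1, S.s) ^ (S.m + 3) *
      MvPolynomial.X (0, S.be) ^ (S.m + 2))) ∉ genIdeal (hyp S.F) (dE 1 S.Fr2 S.K S.f) := by
  intro h
  rw [neg_mem_iff] at h
  have hp : (genIdeal (hyp S.F) (dE 1 S.Fr2 S.K S.f)).IsPrime := inferInstance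
  rcases hp.mem_or_mem h with h1 | h1
  · apply hp.ne_top
    refine Ideal.eq_top_of_isUnit_mem _ h1 ?_
    exact (IsUnit.mk0 S.kpE0a_gc S.hgc).map C
  · rcases hp.mem_or_mem h1 with h2 | h2
    · exact S.kpE0a_y_notPR S.sK (hp.mem_of_pow_mem _ h2)
    · exact S.kpE0a_x_notPR (S.mem_Fr2.2 (Or.inl rfl)) (hp.mem_of_pow_mem _ h2)

lemma E0_gen : ∀ z ∈ S.pU.I, toLocMod (genIdeal (hyp S.F) (dL S.K S.Fr2 S.s S.f) ⊔
    Ideal.span {S.HH S.s}) (S.E0 1).I z = 0 := by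
  intro z hz
  set J : Ideal (Coord ι 2) := genIdeal (hyp S.F) (dL S.K S.Fr2 S.s S.f) ⊔
    Ideal.span {S.HH S.s} with hJdef
  set can : Coord ι 2 →+* LocMod J (S.E0 1).I := toLocMod J (S.E0 1).I with hcan
  let r : LocMod J (S.E0 1).I := can (MvPolynomial.X (0, S.s))
  let φ : Coord ι 2 →+* Localization.Away r := (algebraMap _ (Localization.Away r)).comp can
  have hcz : ∀ w, can w = 0 → φ w = 0 := by
    intro w hw
    show algebraMap _ (Localization.Away r) (can w) = 0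
    rw [hw, map_zero]
  have hPS : ∀ w ∈ genIdeal (hyp S.F) (dL S.K S.Fr2 S.s S.f), φ w = 0 := fun w hw =>
    hcz w (toLocMod_eq_zero_of_mem (Ideal.mem_sup_left hw))
  have hHH : φ (S.HH S.s) = 0 :=
    hcz _ (toLocMod_eq_zero_of_mem (Ideal.mem_sup_right (Ideal.mem_span_singleton_self _)))
  have h0 : IsUnit (xs φ 0 S.s) :=
    IsLocalization.Away.algebraMap_isUnit (S := Localization.Away r) r
  have h1 : IsUnit (xs φ 1 S.s) :=
    (isUnit_toLocMod (J := J) (S.kpE0a_y_notE0 S.sK)).map (algebraMap _ (Localization.Away r))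
  have hpr : ∀ j ∈ S.Zs, xs φ 0 S.s * xs φ 1 j = xs φ 1 S.s * xs φ 0 j := by
    intro j hj
    have h := hPS _ (S.kpE0a_mn_PS S.s_mem hj)
    rw [map_mn, sub_eq_zero] at h
    exact h
  have hf1 : eval₂Hom (cs φ) (xs φ 1) S.f = 0 := S.kpE0a_ev_f φ (hPS _ S.kpE0a_f_PS)
  have hf0 : eval₂Hom (cs φ) (xs φ 0) S.f = 0 := by
    have h := S.rel_hh (cs φ) (xs φ 0) (xs φ 1) S.s S.s_mem hpr
    rw [← S.map_HH φ, hHH, mul_zero] at h
    exact (h1.pow (S.m + 3)).mul_right_eq_zero.1 h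
  have hφz : φ z = 0 := S.kill_U φ (fun i j hj => hPS _ (S.kpE0a_X_PS i hj)) h0 h1 hpr
    (fun i => by
      by_cases hi : i = 1
      · subst hi
        exact hf1
      · have hi0 : i = 0 := by omega
        subst hi0
        exact hf0) hz
  have h2 : algebraMap _ (Localization.Away r) (can z) = 0 := hφz
  rw [IsLocalization.map_eq_zero_iff (Submonoid.powers r)] at h2
  obtain ⟨⟨_, n, rfl⟩, hn⟩ := h2
  have h3 : can (MvPolynomial.X (0, S.s) ^ n * z) = 0 := by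
    rw [map_mul, map_pow]
    exact hn
  obtain ⟨b, hb⟩ := S.kpE0a_HH
  rw [hcan, hJdef, hb] at h3 ⊢
  exact kpE0a_sat S.kpE0a_PR_le_E0 S.kpE0a_PS_le_PR S.kpE0a_s_PS
    (S.kpE0a_x_PR S.s_notMem_Fr2) S.kpE0a_a_notMem (fun w hw => S.kpE0a_loc hw) n h3

lemma pU_le_E0 : S.pU.I ≤ (S.E0 1).I := by
  intro z hz
  obtain ⟨s, hs, hsz⟩ := exists_of_toLocMod_eq_zero (S.E0_gen z hz)
  have hle : genIdeal (hyp S.F) (dL S.K S.Fr2 S.s S.f) ⊔ Ideal.span {S.HH S.s} ≤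
      (S.E0 1).I := by
    rw [sup_le_iff, Ideal.span_le, Set.singleton_subset_iff]
    refine ⟨S.kpE0a_PS_le_PR.trans S.kpE0a_PR_le_E0, ?_⟩
    obtain ⟨b, hb⟩ := S.kpE0a_HH
    have hs' : S.s ∉ S.Fr1 := fun h => S.s_notMem_Fr2 (S.Fr1_sub h)
    have hbe : S.be ∉ S.Fr1 := by
      rw [mem_Fr1]
      rintro (h | h)
      · exact S.halbe h.symm
      · exact S.beF h
    rw [SetLike.mem_coe, hb]
    refine sub_mem (Ideal.mul_mem_right _ _ (S.kpE0a_x_E0 hs')) (neg_mem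
      (Ideal.mul_mem_left _ _ (Ideal.mul_mem_left _ _ ?_)))
    exact Ideal.pow_mem_of_mem _ (S.kpE0a_x_E0 hbe) _ (by omega)
  exact ((S.E0 1).prime.mem_or_mem (hle hsz)).resolve_left hs

end BData

end Kp

end Pool.Agent.RCH
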