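import Mathlib
import Pool.Agent.RCH.Lift

/-!
# The Jacobian bound for the height of a prime ideal of a polynomial ring
-/

set_option autoImplicit false

open MvPolynomial

namespace Pool.Agent.RCH

namespace Kp

/-- the derivatives of the elements of the square of an ideal are in the ideal -/
lemma pderiv_mem_of_mem_sq {σ : Type} {Q : Ideal (MvPolynomial σ ℂ)} {w : MvPolynomial σ ℂ}
    (hw : w ∈ Q ^ 2) (v : σ) : pderiv v w ∈ Q := by
  rw [pow_two] at hw
  refine Submodule.mul_induction_on hw (fun a ha b hb => ?_) (fun a b ha hb => ?_)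
  · rw [Derivation.leibniz, smul_eq_mul, smul_eq_mul]
    exact add_mem (Ideal.mul_mem_right _ _ ha) (Ideal.mul_mem_right _ _ hb)
  · rw [map_add]
    exact add_mem ha hb

/-- the Jacobian bound for the height: `MvPolynomial σ ℂ` is a regular ring
(`MvPolynomial.isRegularRing_of_isRegularRing`), so the height of `Q` is the dimension of the
cotangent space of `Localization.AtPrime Q`; the classes of the `q i` are independent there -/
theorem le_height_of_pderiv {σ : Type} [Finite σ] {Q : Ideal (MvPolynomial σ ℂ)} [Q.IsPrime]
    {κ : Type} [Fintype κ] (q : κ → MvPolynomial σ ℂ) (hq : ∀ i, q i ∈ Q)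
    (h : ∀ c : κ → MvPolynomial σ ℂ, (∀ v : σ, ∑ i, c i * pderiv v (q i) ∈ Q) → ∀ i, c i ∈ Q) :
    (Fintype.card κ : ℕ∞) ≤ Q.height := by
  classical
  have hreg : IsRegularLocalRing (Localization.AtPrime Q) := inferInstance
  have hfr := (IsRegularLocalRing.iff_finrank_cotangentSpace (R := Localization.AtPrime Q)).1 hreg
  have hm : ∀ i, algebraMap (MvPolynomial σ ℂ) (Localization.AtPrime Q) (q i) ∈
      IsLocalRing.maximalIdeal (Localization.AtPrime Q) := by
    intro i
    rw [← Localization.AtPrime.map_eq_maximalIdeal]
    exact Ideal.mem_map_of_mem _ (hq i)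
  let v : κ → IsLocalRing.CotangentSpace (Localization.AtPrime Q) := fun i =>
    (IsLocalRing.maximalIdeal (Localization.AtPrime Q)).toCotangent ⟨_, hm i⟩
  have hli : LinearIndependent (IsLocalRing.ResidueField (Localization.AtPrime Q)) v := by
    rw [Fintype.linearIndependent_iff]
    intro g hg
    have hsurj : ∀ i, ∃ c : Localization.AtPrime Q,
        algebraMap (Localization.AtPrime Q)
          (IsLocalRing.ResidueField (Localization.AtPrime Q)) c = g i :=
      fun i => IsLocalRing.residue_surjective (g i)
    choose c hc using hsurj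
    obtain ⟨b, hb⟩ := IsLocalization.exist_integer_multiples_of_finite Q.primeCompl c
    choose a ha using hb
    have hbu : IsUnit (algebraMap (MvPolynomial σ ℂ) (Localization.AtPrime Q) (b : MvPolynomial σ ℂ)) :=
      IsLocalization.map_units _ b
    -- the relation with integral coefficients
    have h1 : ∑ i, (algebraMap (MvPolynomial σ ℂ) (Localization.AtPrime Q) (a i)) • v i = 0 := by
      have h2 : ∀ i, (algebraMap (MvPolynomial σ ℂ) (Localization.AtPrime Q) (a i)) • v i =
          (algebraMap (MvPolynomial σ ℂ) (Localization.AtPrime Q) (b : MvPolynomial σ ℂ)) •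
            (g i • v i) := by
        intro i
        have h3 : algebraMap (MvPolynomial σ ℂ) (Localization.AtPrime Q) (a i) =
            algebraMap (MvPolynomial σ ℂ) (Localization.AtPrime Q) (b : MvPolynomial σ ℂ) * c i := by
          rw [ha i, Algebra.smul_def]
        rw [h3, mul_smul, ← hc i]
        congr 1
      rw [Finset.sum_congr rfl fun i _ => h2 i, ← Finset.smul_sum, hg, smul_zero]
    have h4 : algebraMap (MvPolynomial σ ℂ) (Localization.AtPrime Q) (∑ i, a i * q i) ∈
        IsLocalRing.maximalIdeal (Localization.AtPrime Q) ^ 2 := by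
      have h5 : (IsLocalRing.maximalIdeal (Localization.AtPrime Q)).toCotangent
          (∑ i, (algebraMap (MvPolynomial σ ℂ) (Localization.AtPrime Q) (a i)) •
            (⟨_, hm i⟩ : IsLocalRing.maximalIdeal (Localization.AtPrime Q))) = 0 := by
        rw [map_sum, ← h1]
        exact Finset.sum_congr rfl fun i _ => map_smul _ _ _
      rw [Ideal.toCotangent_eq_zero] at h5
      have h6 : ((∑ i, (algebraMap (MvPolynomial σ ℂ) (Localization.AtPrime Q) (a i)) •
            (⟨_, hm i⟩ : IsLocalRing.maximalIdeal (Localization.AtPrime Q)) :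
            IsLocalRing.maximalIdeal (Localization.AtPrime Q)) : Localization.AtPrime Q) =
          algebraMap (MvPolynomial σ ℂ) (Localization.AtPrime Q) (∑ i, a i * q i) := by
        rw [map_sum, Submodule.coe_sum]
        exact Finset.sum_congr rfl fun i _ => by rw [map_mul]; rfl
      rw [h6] at h5
      exact h5
    rw [← Localization.AtPrime.map_eq_maximalIdeal, ← Ideal.map_pow,
      IsLocalization.algebraMap_mem_map_algebraMap_iff Q.primeCompl] at h4
    obtain ⟨u, hu, huQ⟩ := h4
    -- derivatives
    have h7 : ∀ i, u * a i ∈ Q := by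
      refine h (fun i => u * a i) fun w => ?_
      have h8 := pderiv_mem_of_mem_sq huQ w
      have h9 : pderiv w (u * ∑ i, a i * q i) =
          ∑ i, u * a i * pderiv w (q i) + ∑ i, q i * pderiv w (u * a i) := by
        rw [Finset.mul_sum, map_sum, ← Finset.sum_add_distrib]
        refine Finset.sum_congr rfl fun i _ => ?_
        rw [← mul_assoc, Derivation.leibniz, smul_eq_mul, smul_eq_mul]
      rw [h9] at h8
      have h10 : ∑ i, q i * pderiv w (u * a i) ∈ Q :=
        Ideal.sum_mem _ fun i _ => Ideal.mul_mem_right _ _ (hq i)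
      exact (Ideal.add_mem_iff_left Q h10).1 h8
    intro i
    have h11 : a i ∈ Q := (Ideal.IsPrime.mem_or_mem inferInstance (h7 i)).resolve_left hu
    have h12 : algebraMap (MvPolynomial σ ℂ) (Localization.AtPrime Q) (a i) ∈
        IsLocalRing.maximalIdeal (Localization.AtPrime Q) := by
      rw [← Localization.AtPrime.map_eq_maximalIdeal]
      exact Ideal.mem_map_of_mem _ h11
    rw [ha i, Algebra.smul_def] at h12
    have h13 : c i ∈ IsLocalRing.maximalIdeal (Localization.AtPrime Q) :=
      (Ideal.unit_mul_mem_iff_mem _ hbu).1 h12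
    rw [← hc i]
    exact (IsLocalRing.residue_eq_zero_iff _).2 h13
  have hcard := hli.fintype_card_le_finrank
  have hdim := IsLocalization.AtPrime.ringKrullDim_eq_height Q (Localization.AtPrime Q)
  rw [← hfr] at hdim
  have h14 : ((Fintype.card κ : ℕ) : WithBot ℕ∞) ≤ (Q.height : WithBot ℕ∞) := by
    rw [← hdim]
    exact_mod_cast hcard
  exact_mod_cast h14

end Kp

end Pool.Agent.RCH
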