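import Pool.Agent.RCH.KpPl

/-!
# The point of the proportional pairs on the last level is the square of the linear space
-/

set_option autoImplicit false

open MvPolynomial

namespace Pool.Agent.RCH

namespace Kp

namespace PlData

variable (S : PlData)

/-- members of the ideal of the product -/
lemma LL_mem (k : Fin S.t) (i : Fin 2) {p : Coord S.J 1} (hp : p ∈ (S.pl k).I) :
    rename (R := ℂ) (fun v : Fin 1 × S.J => (i, v.2)) p ∈ (S.LL k k).I := by
  rw [LL_I]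
  refine Ideal.mem_iSup_of_mem i (Ideal.mem_map_of_mem _ ?_)
  fin_cases i
  · exact hp
  · exact hp

lemma pl_I (k : Fin S.t) : (S.pl k).I = genIdeal (hyp S.F) (S.lc k) := rfl

lemma pl_X {k : Fin S.t} {j : S.J} (hj : j ∈ S.Kf (S.r + 1)) :
    (MvPolynomial.X (0, j) : Coord S.J 1) ∈ (S.pl k).I := by
  rw [pl_I, X_mem_gen]
  exact if_pos hj

lemma lc_2 (k : Fin S.t) (i : Fin 1) : S.lc k (i, S.x (2 * S.r + 2)) = S.Y (2 * S.r + 2) := by
  rw [lc, if_neg (by rw [S.x_mem_Kf (by omega)]; omega),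
    if_neg (S.x_ne (by omega) (by omega) (by omega))]
  rfl

lemma lc_3 (k : Fin S.t) (i : Fin 1) :
    S.lc k (i, S.x (2 * S.r + 3)) = C (S.b k) * S.Y (2 * S.r + 2) := by
  rw [lc, if_neg (by rw [S.x_mem_Kf (by omega)]; omega), if_pos rfl]

lemma pl_q (k : Fin S.t) : inFactor 1 0 (S.q k) ∈ (S.pl k).I := by
  have hw : IsWeightedHomogeneous (hyp S.F).wt (S.q k) 1 := S.q_homog k
  rw [pl_I, mem_genIdeal_of_homogeneous (hyp S.F) _ (inFactor_homogeneous (hyp S.F) 0 hw),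
    inFactor_aeval, q, map_sub, map_mul, Y, Y, aeval_X, aeval_X, lc_2, lc_3, aeval_C,
    MvPolynomial.algebraMap_eq]
  exact sub_self _

lemma X_LL (k : Fin S.t) (i : Fin 2) {j : S.J} (hj : j ∈ S.Kf (S.r + 1)) :
    (MvPolynomial.X (i, j) : Coord S.J 2) ∈ (S.LL k k).I := by
  have h := S.LL_mem k i (S.pl_X (k := k) hj)
  rwa [rename_X] at h

lemma q_LL (k : Fin S.t) (i : Fin 2) : inFactor 2 i (S.q k) ∈ (S.LL k k).I := by
  have h := S.LL_mem k i (S.pl_q k)
  have e : rename (R := ℂ) (fun v : Fin 1 × S.J => (i, v.2)) (inFactor 1 0 (S.q k)) =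
      inFactor 2 i (S.q k) := by
    rw [inFactor, inFactor, rename_rename]
    rfl
  rwa [e] at h

/-! ### The ideal of the proportional pairs -/

lemma DL_I (k : Fin S.t) : (S.DL k).I =
    genIdeal (hyp S.F) (dD 1 (S.Kf (S.r + 1)) (S.Ff (S.r + 1)) (S.q k)) := rfl

lemma X_DL (k : Fin S.t) (i : Fin 2) {j : S.J} (hj : j ∈ S.Kf (S.r + 1)) :
    (MvPolynomial.X (i, j) : Coord S.J 2) ∈ (S.DL k).I := by
  rw [DL_I, X_mem_gen]
  exact if_pos hj

lemma q_DL (k : Fin S.t) (i : Fin 2) : inFactor 2 i (S.q k) ∈ (S.DL k).I := by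
  have hw : IsWeightedHomogeneous (hyp S.F).wt (S.q k) 1 := S.q_homog k
  rw [DL_I, mem_genIdeal_of_homogeneous (hyp S.F) _ (inFactor_homogeneous (hyp S.F) i hw),
    inFactor_aeval]
  exact h_dD (S.admL k) 1 i

lemma X2_DL (k : Fin S.t) (i : Fin 2) :
    (MvPolynomial.X (i, S.x (2 * S.r + 2)) : Coord S.J 2) ∉ (S.DL k).I := by
  rw [DL_I, X_mem_gen]
  simp only [dD]
  rw [if_neg (by rw [S.x_mem_Kf (by omega)]; omega), if_neg (by rw [S.x_mem_Ff (by omega)]; omega)]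
  exact mk_X_ne 1 1 (S.q_prime k) (S.q_ndvd_X k)

lemma LL_le_DL (k : Fin S.t) : (S.LL k k).I ≤ (S.DL k).I := by
  rw [LL_I]
  refine iSup_le fun i => ?_
  rw [Ideal.map_le_iff_le_comap]
  intro z hz
  have hz' : z ∈ genIdeal (hyp S.F) (S.lc k) := by
    fin_cases i
    · exact hz
    · exact hz
  rw [Ideal.mem_comap, ← Ideal.Quotient.eq_zero_iff_mem]
  let φ : Coord S.J 1 →+* Coord S.J 2 ⧸ (S.DL k).I := (Ideal.Quotient.mk (S.DL k).I).comp
    (rename (R := ℂ) (fun v : Fin 1 × S.J => (i, v.2))).toRingHom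
  have hφ : ∀ i' j, xs φ i' j = Ideal.Quotient.mk (S.DL k).I (MvPolynomial.X (i, j)) := by
    intro i' j
    show Ideal.Quotient.mk (S.DL k).I (rename _ (MvPolynomial.X (i', j))) = _
    rw [rename_X]
  refine kill_gen S.F (S.lc k) φ (eval₂Hom (cs φ)
    (fun j => Ideal.Quotient.mk (S.DL k).I (MvPolynomial.X (i, j)))) (fun _ => 1) ?_ ?_ hz'
  · intro a
    rw [MvPolynomial.algebraMap_eq, eval₂Hom_C]
  · intro i' j
    rw [mul_one, hφ]
    by_cases hK : j ∈ S.Kf (S.r + 1)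
    · rw [lc, if_pos hK, map_zero, Ideal.Quotient.eq_zero_iff_mem]
      exact S.X_DL k i hK
    · by_cases h3 : j = S.x (2 * S.r + 3)
      · subst h3
        rw [lc_3, map_mul, eval₂Hom_C, Y, eval₂Hom_X']
        have h := S.q_DL k i
        rw [← Ideal.Quotient.eq_zero_iff_mem, q, map_sub, map_mul, Y, Y, inFactor, rename_X,
          rename_X, rename_C, map_sub, map_mul, sub_eq_zero] at h
        have hc : cs φ (S.b k) = Ideal.Quotient.mk (S.DL k).I (C (S.b k)) := by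
          show Ideal.Quotient.mk (S.DL k).I (rename _ (C (S.b k))) = _
          rw [rename_C]
        rw [hc]
        exact h
      · rw [lc, if_neg hK, if_neg h3, eval₂Hom_X']

lemma DL_le_LL (k : Fin S.t) : (S.DL k).I ≤ (S.LL k k).I := by
  have : (S.LL k k).I.IsPrime := (S.LL k k).prime
  let Q := (S.LL k k).I
  let L := FractionRing (Coord S.J 2 ⧸ Q)
  let φ : Coord S.J 2 →+* L := (algebraMap (Coord S.J 2 ⧸ Q) L).comp (Ideal.Quotient.mk Q)
  have hφ : ∀ p, φ p = 0 ↔ p ∈ Q := by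
    intro p
    show algebraMap (Coord S.J 2 ⧸ Q) L (Ideal.Quotient.mk Q p) = 0 ↔ _
    rw [← Ideal.Quotient.eq_zero_iff_mem]
    constructor
    · intro h
      exact IsFractionRing.injective (Coord S.J 2 ⧸ Q) L (h.trans (map_zero _).symm)
    · intro h
      rw [h, map_zero]
  have h2 : ∀ i, φ (MvPolynomial.X (i, S.x (2 * S.r + 2))) ≠ 0 := by
    intro i h
    exact S.X2_DL k i (S.LL_le_DL k ((hφ _).1 h))
  have hq : ∀ i, φ (MvPolynomial.X (i, S.x (2 * S.r + 3))) =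
      φ (C (S.b k)) * φ (MvPolynomial.X (i, S.x (2 * S.r + 2))) := by
    intro i
    have h := (hφ _).2 (S.q_LL k i)
    rwa [q, map_sub, map_mul, Y, Y, inFactor, rename_X, rename_X, rename_C, map_sub, map_mul,
      sub_eq_zero] at h
  intro z hz
  rw [DL_I] at hz
  refine (hφ z).1 (kill_dD φ 1 0 (by decide)
    (φ (MvPolynomial.X (0, S.x (2 * S.r + 2))) / φ (MvPolynomial.X (1, S.x (2 * S.r + 2))))
    (isUnit_iff_ne_zero.2 (div_ne_zero (h2 0) (h2 1))) ?_ ?_ ?_ hz)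
  · intro i j hj
    exact (hφ _).2 (S.X_LL k i hj)
  · rw [← map_inFactor]
    exact (hφ _).2 (S.q_LL k 1)
  · intro j hK hF
    have hj : (j : ℕ) = 2 * S.r + 2 ∨ (j : ℕ) = 2 * S.r + 3 := by
      have := j.2
      rw [mem_Kf] at hK
      rw [mem_Ff] at hF
      omega
    rcases hj with hj | hj
    · rw [(S.eq_x (by omega)).2 hj]
      show φ (MvPolynomial.X (0, S.x (2 * S.r + 2))) =
        φ (MvPolynomial.X (1, S.x (2 * S.r + 2))) * _
      rw [mul_div_cancel₀ _ (h2 1)]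
    · rw [(S.eq_x (by omega)).2 hj]
      show φ (MvPolynomial.X (0, S.x (2 * S.r + 3))) =
        φ (MvPolynomial.X (1, S.x (2 * S.r + 3))) * _
      rw [hq 0, hq 1, mul_assoc, mul_div_cancel₀ _ (h2 1)]

theorem DL_eq (k : Fin S.t) : S.DL k = S.LL k k :=
  Pt.ext' (hyp S.F) (le_antisymm (S.DL_le_LL k) (S.LL_le_DL k))

end PlData

end Kp

end Pool.Agent.RCH
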