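import Pool.Agent.RCH.KpLastC

/-!
# The relation on the fibre square of the pencil, on the last level
-/

set_option autoImplicit false

open MvPolynomial

namespace Pool.Agent.RCH

namespace Kp

attribute [local instance] Pt.prime

namespace PlData

variable (S : PlData)

/-! ### The cones over the products of the lines -/

lemma la_pl_I (k : Fin S.t) : (S.pl k).I = genIdeal (hyp S.F) (S.lc k) := rfl

lemma la_lc_K (k : Fin S.t) {j : S.J} (hj : j ∈ S.Kf (S.r + 1)) (i : Fin 1) :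
    S.lc k (i, j) = 0 := if_pos hj

lemma la_lc_3 (k : Fin S.t) (i : Fin 1) :
    S.lc k (i, S.e5 3) = C (S.b k) * S.Y (2 * S.r + 2) := by
  rw [lc, if_neg (by rw [mem_Kf, S.e5_val]; simp; omega)]
  exact if_pos rfl

lemma lc_of (k : Fin S.t) {j : S.J} (hj : j ∉ S.Kf (S.r + 1)) (hj3 : j ≠ S.e5 3) (i : Fin 1) :
    S.lc k (i, j) = MvPolynomial.X j := by
  rw [lc, if_neg hj]
  exact if_neg hj3

lemma X_hom_one (l : S.J) : IsWeightedHomogeneous ((hyp S.F).mdeg 1)
    (MvPolynomial.X (0, l) : Coord S.J 1) (Pi.single 0 1) :=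
  isWeightedHomogeneous_X ℂ ((hyp S.F).mdeg 1) (0, l)

theorem cone_pl (k : Fin S.t) : (S.pl k).I = coneI S.e5 S.K5 (S.toLn.pl k).I := by
  have hK : ∀ {l : S.J}, l ∈ S.Kf (S.r + 1) → l = S.e5 1 ∨ l = S.e5 4 ∨ l ∈ S.K5 := by
    intro l hl
    rw [mem_Kf] at hl
    by_cases h4 : (l : ℕ) = 2 * S.r + 4
    · exact Or.inr (Or.inl (S.eq_e5 4 h4))
    · by_cases h1 : (l : ℕ) = 2 * S.r + 1
      · exact Or.inl (S.eq_e5 1 h1)
      · exact Or.inr (Or.inr ⟨by omega, by omega⟩)
  have h1K : S.e5 1 ∈ S.Kf (S.r + 1) := by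
    rw [mem_Kf, S.e5_val]
    simp
    omega
  have h4K : S.e5 4 ∈ S.Kf (S.r + 1) := by
    rw [mem_Kf, S.e5_val]
    exact Or.inl rfl
  apply le_antisymm
  · intro z hz
    have hren : ∀ z ∈ (S.toLn.pl k).I,
        Ideal.Quotient.mk (coneI S.e5 S.K5 (S.toLn.pl k).I) (ren 1 S.e5 z) = 0 := fun z hz =>
      Ideal.Quotient.eq_zero_iff_mem.2 (ren_mem_coneI _ _ hz)
    rw [← Ideal.Quotient.eq_zero_iff_mem]
    refine kill_gen S.F (S.lc k) (Ideal.Quotient.mk (coneI S.e5 S.K5 (S.toLn.pl k).I))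
      (eval₂Hom (cs (Ideal.Quotient.mk (coneI S.e5 S.K5 (S.toLn.pl k).I)))
        (xs (Ideal.Quotient.mk (coneI S.e5 S.K5 (S.toLn.pl k).I)) 0)) (fun _ => 1)
      (fun a => eval₂Hom_C _ _ _) ?_ hz
    intro i l
    have hi : i = 0 := Subsingleton.elim _ _
    subst hi
    rw [mul_one]
    by_cases hl : l ∈ S.Kf (S.r + 1)
    · rw [S.la_lc_K k hl, map_zero]
      rcases hK hl with rfl | rfl | h
      · have h := hren _ (S.toLn.dis_X1_pl k)
        rw [ren_X] at h
        exact h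
      · have h := hren (MvPolynomial.X (0, 4)) ((X_mem_genIdeal S.toLn.V _ (0, 4)).2 rfl)
        rw [ren_X] at h
        exact h
      · exact Ideal.Quotient.eq_zero_iff_mem.2 (X_mem_coneI _ _ _ 0 h)
    · by_cases hl3 : l = S.e5 3
      · subst hl3
        rw [la_lc_3, map_mul, eval₂Hom_C, Y, eval₂Hom_X']
        have hw : IsWeightedHomogeneous (S.toLn.V.mdeg 1)
            (MvPolynomial.X (0, 3) - C (S.b k) * MvPolynomial.X (0, 2) : Coord (Fin 5) 1)
            (Pi.single 0 1) := by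
          have h3 : IsWeightedHomogeneous (S.toLn.V.mdeg 1)
            (MvPolynomial.X (0, 3) : Coord (Fin 5) 1) (Pi.single 0 1) :=
            isWeightedHomogeneous_X ℂ (S.toLn.V.mdeg 1) (0, 3)
          have h2 : IsWeightedHomogeneous (S.toLn.V.mdeg 1)
            (MvPolynomial.X (0, 2) : Coord (Fin 5) 1) (Pi.single 0 1) :=
            isWeightedHomogeneous_X ℂ (S.toLn.V.mdeg 1) (0, 2)
          have h4 := (isWeightedHomogeneous_C (S.toLn.V.mdeg 1) (S.b k)).mul h2
          rw [zero_add] at h4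
          exact h3.sub h4
        have hm : (MvPolynomial.X (0, 3) - C (S.b k) * MvPolynomial.X (0, 2) :
            Coord (Fin 5) 1) ∈ (S.toLn.pl k).I := by
          refine (mem_genIdeal_of_homogeneous S.toLn.V _ hw).2 ?_
          rw [map_sub, map_mul, aeval_X, aeval_X, algHom_C]
          exact sub_self _
        have h := hren _ hm
        rw [map_sub, map_mul, ren_X, ren_X, map_sub, map_mul, sub_eq_zero] at h
        refine h.trans ?_
        have hC : ren 1 S.e5 (C (S.b k)) = C (S.b k) := by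
          rw [ren, rename_C]
        rw [hC]
        rfl
      · rw [S.lc_of k hl hl3, eval₂Hom_X']
  · rw [coneI_le_iff]
    refine ⟨fun z hz => ?_, fun i l hl => ?_⟩
    · rw [← Ideal.Quotient.eq_zero_iff_mem]
      have hX : ∀ {l : S.J}, l ∈ S.Kf (S.r + 1) →
          (MvPolynomial.X (0, l) : Coord S.J 1) ∈ (S.pl k).I := fun hl => by
        rw [la_pl_I, X_mem_gen]
        exact S.la_lc_K k hl 0
      refine S.toLn.kill_pl (S.down (Ideal.Quotient.mk (S.pl k).I)) k ?_ ?_ ?_ hz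
      · rw [S.xs_down]
        exact Ideal.Quotient.eq_zero_iff_mem.2 (hX h1K)
      · rw [S.xs_down, S.xs_down, S.cs_down]
        have h4 := (isWeightedHomogeneous_C ((hyp S.F).mdeg 1) (S.b k)).mul (S.X_hom_one (S.e5 2))
        rw [zero_add] at h4
        have hm : (MvPolynomial.X (0, S.e5 3) - C (S.b k) * MvPolynomial.X (0, S.e5 2) :
            Coord S.J 1) ∈ (S.pl k).I := by
          rw [la_pl_I, mem_gen S.F _ ((S.X_hom_one (S.e5 3)).sub h4)]
          have h2 : S.lc k (0, S.e5 2) = MvPolynomial.X (S.e5 2) := by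
            refine S.lc_of k ?_ (fun h => absurd (S.e5_inj h) (by decide)) 0
            rw [mem_Kf, S.e5_val]
            simp
          rw [map_sub, map_mul, aeval_X, aeval_X, algHom_C, la_lc_3, h2]
          exact sub_self _
        have h := Ideal.Quotient.eq_zero_iff_mem.2 hm
        rw [map_sub, map_mul, sub_eq_zero] at h
        exact h
      · rw [S.xs_down]
        exact Ideal.Quotient.eq_zero_iff_mem.2 (hX h4K)
    · have hi : i = 0 := Subsingleton.elim _ _
      subst hi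
      rw [la_pl_I, X_mem_gen]
      refine S.la_lc_K k ?_ 0
      rw [mem_Kf]
      have h1 := hl.1
      have h2 := hl.2
      exact Or.inr ⟨by omega, h2⟩

theorem cone_LL (j k : Fin S.t) : (S.LL j k).I =
    coneI S.e5 S.K5 (S.toLn.pB (S.toLn.pl j) (S.toLn.pl k)).I := by
  rw [LL_I, LnData.pB_I]
  refine boxIdeal_cone _ _ ?_
  intro i
  fin_cases i
  · exact S.cone_pl j
  · exact S.cone_pl k

/-! ### The relation -/

open Classical in
theorem relLast : (Finsupp.single (S.DD (le_refl S.r)) 1 -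
      ∑ j, ∑ k, (S.a j * S.a k) • Finsupp.single (S.LL j k) 1 +
      (S.m + 2) • ∑ k, S.a k • Finsupp.single (S.LL k k) 1
      - Finsupp.single (S.EE (le_refl S.r) 1) 1 - Finsupp.single (S.EE (le_refl S.r) 0) 1 :
      Cycles (hyp S.F) 2) ∈ RatZero (hyp S.F) 2 := by
  have hF : ∃ G : Pt S.toLn.V 2 → Pt (hyp S.F) 2, ∀ Q : Pt S.toLn.V 2, S.toLn.pU.I ≤ Q.I →
      (G Q).I = coneI S.e5 S.K5 Q.I := by
    have h : ∀ Q : Pt S.toLn.V 2, ∃ Q' : Pt (hyp S.F) 2, S.toLn.pU.I ≤ Q.I →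
        Q'.I = coneI S.e5 S.K5 Q.I := by
      intro Q
      by_cases hQ : S.toLn.pU.I ≤ Q.I
      · obtain ⟨Q', hQ'⟩ := exists_conePt (X := hyp S.F) S.e5_inj S.e5_K5 (fun _ => rfl) Q
          (S.onX_cone Q (fun i => hQ (S.toLn.X4_mem_pU i)))
        exact ⟨Q', fun _ => hQ'⟩
      · exact ⟨S.DD (le_refl S.r), fun h => absurd h hQ⟩
    choose G hG using h
    exact ⟨G, hG⟩
  obtain ⟨G, hG⟩ := hF
  have h := S.toLn.cone_U' S.e5_inj S.e5_K5 (fun _ => rfl) G hG
  have e1 : G S.toLn.pYD = S.DD (le_refl S.r) :=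
    Pt.ext' _ ((hG _ S.toLn.pU_le_pYD).trans S.cone_pYD.symm)
  have e2 : ∀ j k, G (S.toLn.pB (S.toLn.pl j) (S.toLn.pl k)) = S.LL j k := fun j k =>
    Pt.ext' _ ((hG _ (S.toLn.oul j k).1.1.le).trans (S.cone_LL j k).symm)
  have e3 : G (S.toLn.pB S.toLn.pp S.toLn.pY) = S.EE (le_refl S.r) 1 :=
    Pt.ext' _ ((hG _ S.toLn.oup.1.1.le).trans S.cone_pY.symm)
  have e4 : G (S.toLn.pB S.toLn.pY S.toLn.pp) = S.EE (le_refl S.r) 0 :=
    Pt.ext' _ ((hG _ S.toLn.oup'.1.1.le).trans S.cone_Yp.symm)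
  simp only [e1, e2, e3, e4] at h
  exact h

end PlData

end Kp

end Pool.Agent.RCH
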