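import Pool.Agent.RCH.KpPl
import Pool.Agent.RCH.KpConeU
import Pool.Agent.RCH.KpKillU

/-!
# The last level: the cones over the diagonal and over the products of the vertex and the surface
-/

set_option autoImplicit false

open MvPolynomial

namespace Pool.Agent.RCH

namespace Kp

attribute [local instance] Pt.prime

namespace PlData

variable (S : PlData)

/-! ### The coordinates of the last level -/

/-- the five coordinates of the last level -/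
def e5 (j : Fin 5) : S.J := S.x (2 * S.r + j)

lemma e5_val (j : Fin 5) : ((S.e5 j : S.J) : ℕ) = 2 * S.r + j := S.x_val (by omega)

lemma e5_inj : Function.Injective S.e5 := by
  intro a b h
  have h1 := S.e5_val a
  rw [h, S.e5_val b] at h1
  exact Fin.ext (by omega)

lemma eq_e5 {l : S.J} (j : Fin 5) (h : (l : ℕ) = 2 * S.r + j) : l = S.e5 j :=
  Fin.ext (by rw [h, S.e5_val])

/-- the killed coordinates which are not among the five -/
def K5 : Set S.J := {j | (j : ℕ) < 2 * S.r ∧ (j : ℕ) % 2 = 1}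

lemma e5_K5 (j : Fin 5) : S.e5 j ∉ S.K5 := by
  intro h
  have h1 := S.e5_val j
  have h2 := h.1
  omega

lemma K5_Kf {j : S.J} (h : j ∈ S.K5) : j ∈ S.Kf S.r := by
  rw [mem_Kf]
  exact Or.inr h

lemma Kf_cases {j : S.J} (h : j ∈ S.Kf S.r) : j = S.e5 4 ∨ j ∈ S.K5 := by
  rw [mem_Kf] at h
  rcases h with h | h
  · exact Or.inl (S.eq_e5 4 h)
  · exact Or.inr h

lemma e5_notMem_Kf {j : Fin 5} (h : j ≠ 4) : S.e5 j ∉ S.Kf S.r := by
  rw [mem_Kf, S.e5_val]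
  have h1 : (j : ℕ) ≠ 4 := fun h2 => h (Fin.ext h2)
  omega

lemma e5_notMem_Ff (j : Fin 5) : S.e5 j ∉ S.Ff S.r := by
  rw [mem_Ff, S.e5_val]
  omega

lemma exists_e5 {l : S.J} (h1 : l ∉ S.Kf S.r) (h2 : l ∉ S.Ff S.r) : ∃ j : Fin 5, j ≠ 4 ∧
    l = S.e5 j := by
  rw [mem_Kf] at h1
  rw [mem_Ff] at h2
  have h3 := l.2
  refine ⟨⟨(l : ℕ) - 2 * S.r, by omega⟩, ?_, S.eq_e5 _ ?_⟩
  · intro h
    have := congrArg Fin.val h
    simp at this
    omega
  · simp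
    omega

/-- the coordinates of `g` on the last level -/
def f3 : Fin 3 → S.J := ![S.e5 1, S.e5 2, S.e5 3]

lemma f3_inj : Function.Injective S.f3 := by
  intro a b h
  fin_cases a <;> fin_cases b <;> first
    | rfl
    | (exact absurd (S.e5_inj h) (by decide))

lemma exists_g3 : ∃ p : MvPolynomial (Fin 3) ℂ, rename S.f3 p = S.g S.r := by
  refine exists_rename_eq_of_vars_subset_range _ _ S.f3_inj ?_
  intro j hj
  have h := S.hgv S.r le_rfl j hj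
  rcases (by omega : (j : ℕ) = 2 * S.r + 1 ∨ (j : ℕ) = 2 * S.r + 2 ∨ (j : ℕ) = 2 * S.r + 3) with
    h1 | h1 | h1
  · exact ⟨0, (S.eq_e5 1 h1).symm⟩
  · exact ⟨1, (S.eq_e5 2 h1).symm⟩
  · exact ⟨2, (S.eq_e5 3 h1).symm⟩

/-- the last form `g` as a form in three variables -/
noncomputable def g3 : MvPolynomial (Fin 3) ℂ := S.exists_g3.choose

lemma rename_g3 : rename S.f3 S.g3 = S.g S.r := S.exists_g3.choose_spec

lemma ev_g3 {L : Type} [CommRing L] (c : ℂ →+* L) (x : S.J → L) :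
    eval₂Hom c x (S.g S.r) = eval₂Hom c ![x (S.e5 1), x (S.e5 2), x (S.e5 3)] S.g3 := by
  rw [← rename_g3]
  have h : (eval₂Hom c x).comp (rename (R := ℂ) S.f3).toRingHom =
      eval₂Hom c ![x (S.e5 1), x (S.e5 2), x (S.e5 3)] := by
    apply MvPolynomial.ringHom_ext
    · intro a
      show eval₂Hom c x (rename S.f3 (C a)) = _
      rw [rename_C, eval₂Hom_C, eval₂Hom_C]
    · intro j
      show eval₂Hom c x (rename S.f3 (MvPolynomial.X j)) = _
      rw [rename_X, eval₂Hom_X', eval₂Hom_X']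
      fin_cases j <;> rfl
  exact congrArg (fun ψ => ψ S.g3) h

lemma eval_g3 (k : Fin S.t) : eval ![0, 1, S.b k] S.g3 ≠ 0 := by
  have h := S.hgb k
  have h1 : eval (S.ev0 k) (S.g S.r) = eval ![0, 1, S.b k] S.g3 := by
    have h2 := S.ev_g3 (RingHom.id ℂ) (S.ev0 k)
    have e1 : S.ev0 k (S.e5 1) = 0 := S.ev0_of (by rw [e5_val]; simp) (by rw [e5_val]; simp)
    have e2 : S.ev0 k (S.e5 2) = 1 := S.ev0_2 k
    have e3 : S.ev0 k (S.e5 3) = S.b k := S.ev0_3 k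
    rw [e1, e2, e3] at h2
    exact h2
  rw [← h1]
  exact h

/-- the data of the last level -/
noncomputable def toLn : LnData where
  m := S.m
  t := S.t
  b := S.b
  a := S.a
  hb := S.hb
  ha := S.ha
  hsum := S.hsum
  g := S.g3
  hg := by
    have h := S.hg S.r le_rfl
    rw [← rename_g3] at h
    exact (IsHomogeneous.rename_isHomogeneous_iff S.f3_inj).1 h
  hgb := S.eval_g3
  P := MvPolynomial.X 0 ^ (S.m + 2)
  hP := by
    have h := (isHomogeneous_X ℂ (0 : Fin 5)).pow (S.m + 2)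
    rwa [one_mul] at h
  hPc := by
    rw [map_pow, eval_X]
    exact pow_ne_zero _ one_ne_zero

lemma ff_ev {L : Type} [CommRing L] (c : ℂ →+* L) (x : S.J → L) :
    eval₂Hom c x (S.ff S.r) = S.toLn.F0v c (fun j => x (S.e5 j)) := by
  have e0 : eval₂Hom c x (S.Y (2 * S.r)) = x (S.e5 0) := eval₂Hom_X' _ _ _
  have e1 : eval₂Hom c x (S.Y (2 * S.r + 1)) = x (S.e5 1) := eval₂Hom_X' _ _ _
  have e2 : eval₂Hom c x (S.Y (2 * S.r + 2)) = x (S.e5 2) := eval₂Hom_X' _ _ _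
  have e3 : eval₂Hom c x (S.Y (2 * S.r + 3)) = x (S.e5 3) := eval₂Hom_X' _ _ _
  have e4 : eval₂Hom c x S.ph = S.toLn.phv c (x (S.e5 2)) (x (S.e5 3)) := by
    rw [ph, map_prod]
    refine Finset.prod_congr rfl fun k _ => ?_
    rw [map_pow, q, map_sub, map_mul, e2, e3, eval₂Hom_C]
    rfl
  have e5' : eval₂Hom c x (S.g S.r) = S.toLn.gv c (x (S.e5 1)) (x (S.e5 2)) (x (S.e5 3)) :=
    S.ev_g3 c x
  rw [S.ff_eq' le_rfl, ff_last, map_add, map_mul, map_pow, map_add, map_mul, e0, e1, e4, e5']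
  show _ = x (S.e5 0) * x (S.e5 1) ^ (S.m + 2) + S.toLn.phv c (x (S.e5 2)) (x (S.e5 3)) +
    x (S.e5 1) * S.toLn.gv c (x (S.e5 1)) (x (S.e5 2)) (x (S.e5 3))
  ring

/-! ### Restriction of homomorphisms -/

section down

variable {N : ℕ} {L : Type} [CommRing L] (φ : Coord S.J N →+* L)

/-- the restriction to the five coordinates -/
noncomputable def down : Coord (Fin 5) N →+* L := φ.comp (ren N S.e5).toRingHom

lemma xs_down (i : Fin N) (j : Fin 5) : LnData.xs (S.down φ) i j = xs φ i (S.e5 j) := by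
  show φ (ren N S.e5 (MvPolynomial.X (i, j))) = φ (MvPolynomial.X (i, S.e5 j))
  rw [ren_X]

lemma xs_down' (i : Fin N) : LnData.xs (S.down φ) i = fun j => xs φ i (S.e5 j) :=
  funext fun j => S.xs_down φ i j

lemma cs_down : LnData.cs (S.down φ) = cs φ := by
  refine RingHom.ext fun a => ?_
  show φ (ren N S.e5 (C a)) = φ (C a)
  rw [ren, rename_C]

end down

/-- the value of the equation of the last level -/
lemma F0v_down {L : Type} [CommRing L] (φ : Coord S.J 2 →+* L) (i : Fin 2) :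
    S.toLn.F0v (LnData.cs (S.down φ)) (LnData.xs (S.down φ) i) =
      eval₂Hom (cs φ) (xs φ i) (S.ff S.r) := by
  rw [S.cs_down, S.xs_down', ff_ev]

/-- the equation of the last level on the cone over a point with `x_4 = y_4 = 0` -/
lemma ff_of_cone {L : Type} [CommRing L] (φ : Coord S.J 2 →+* L) (Q : Pt S.toLn.V 2) (i : Fin 2)
    (h4 : (MvPolynomial.X (i, 4) : Coord (Fin 5) 2) ∈ Q.I)
    (hφ : ∀ z ∈ Q.I, φ (ren 2 S.e5 z) = 0) : eval₂Hom (cs φ) (xs φ i) (S.ff S.r) = 0 := by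
  have h1 : S.down φ (S.toLn.FX 2 i) = 0 := hφ _ (S.toLn.FX_mem Q i)
  have h2 : LnData.xs (S.down φ) i 4 = 0 := hφ _ h4
  rw [LnData.map_FX, LnData.Fv, h2, zero_mul, add_zero, F0v_down] at h1
  exact h1

lemma onX_cone (Q : Pt S.toLn.V 2) (h4 : ∀ i, (MvPolynomial.X (i, 4) : Coord (Fin 5) 2) ∈ Q.I)
    (i : Fin 2) (f : MvPolynomial S.J ℂ) (hf : f ∈ (hyp S.F).eqs) :
    inFactor 2 i f ∈ coneI S.e5 S.K5 Q.I := by
  have hf' : f ∈ Ideal.span {S.F} := hf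
  obtain ⟨p, rfl⟩ := Ideal.mem_span_singleton'.mp hf'
  rw [map_mul]
  refine Ideal.mul_mem_left _ _ ?_
  rw [← Ideal.Quotient.eq_zero_iff_mem, map_inFactor]
  refine ev_eq_zero_of_mem _ _ (S.F_mem_span (i := S.r) (by omega)) ?_
  have hφ : ∀ z ∈ Q.I, Ideal.Quotient.mk (coneI S.e5 S.K5 Q.I) (ren 2 S.e5 z) = 0 := fun z hz =>
    Ideal.Quotient.eq_zero_iff_mem.2 (ren_mem_coneI _ _ hz)
  rintro p (⟨j, hj, rfl⟩ | hp)
  · rw [eval₂Hom_X']
    rcases S.Kf_cases hj with rfl | hj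
    · have h := hφ _ (h4 i)
      rw [ren_X] at h
      exact h
    · exact Ideal.Quotient.eq_zero_iff_mem.2 (X_mem_coneI _ _ _ i hj)
  · rw [Set.mem_singleton_iff.1 hp]
    exact S.ff_of_cone _ Q i (h4 i) hφ

/-! ### The cones over the points -/

section cones

variable {S}

lemma xs_cone {L : Type} [CommRing L] {φ : Coord S.J 2 →+* L} {Q : Ideal (Coord (Fin 5) 2)}
    (hφ : ∀ z ∈ coneI S.e5 S.K5 Q, φ z = 0) {i : Fin 2} {j : Fin 5}
    (h : (MvPolynomial.X (i, j) : Coord (Fin 5) 2) ∈ Q) : xs φ i (S.e5 j) = 0 := by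
  have h1 := hφ _ (ren_mem_coneI S.e5 S.K5 h)
  rw [ren_X] at h1
  exact h1

lemma xs_cone_K {L : Type} [CommRing L] {φ : Coord S.J 2 →+* L} {Q : Ideal (Coord (Fin 5) 2)}
    (hφ : ∀ z ∈ coneI S.e5 S.K5 Q, φ z = 0) {i : Fin 2} {j : S.J} (hj : j ∈ S.K5) :
    xs φ i j = 0 := hφ _ (X_mem_coneI _ _ _ i hj)

lemma xs_cone_Kf {L : Type} [CommRing L] {φ : Coord S.J 2 →+* L} {Q : Ideal (Coord (Fin 5) 2)}
    (hφ : ∀ z ∈ coneI S.e5 S.K5 Q, φ z = 0) {i : Fin 2}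
    (h4 : (MvPolynomial.X (i, 4) : Coord (Fin 5) 2) ∈ Q) {j : S.J} (hj : j ∈ S.Kf S.r) :
    xs φ i j = 0 := by
  rcases S.Kf_cases hj with rfl | hj
  · exact xs_cone hφ h4
  · exact xs_cone_K hφ hj

end cones

lemma DD_I : (S.DD (le_refl S.r)).I =
    genIdeal (hyp S.F) (dD 1 (S.Kf S.r) (S.Ff S.r) (S.ff S.r)) := rfl

lemma EE_I (i : Fin 2) : (S.EE (le_refl S.r) i).I =
    genIdeal (hyp S.F) (dE i (S.Ff (S.r + 1)) (S.Kf S.r) (S.ff S.r)) := rfl

lemma X_DD_K (i : Fin 2) {j : S.J} (hj : j ∈ S.Kf S.r) :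
    (MvPolynomial.X (i, j) : Coord S.J 2) ∈ (S.DD (le_refl S.r)).I := by
  rw [DD_I, X_mem_gen]
  exact if_pos hj

lemma mn_DD {i j : S.J} (hi : i ∉ S.Kf S.r) (hi' : i ∉ S.Ff S.r) (hj : j ∉ S.Kf S.r)
    (hj' : j ∉ S.Ff S.r) : (mn i j : Coord S.J 2) ∈ (S.DD (le_refl S.r)).I := by
  have hX : ∀ (a : Fin 2) (l : S.J), IsWeightedHomogeneous ((hyp S.F).mdeg 2)
      (MvPolynomial.X (a, l) : Coord S.J 2) (Pi.single a 1) := fun a l =>
    isWeightedHomogeneous_X ℂ ((hyp S.F).mdeg 2) (a, l)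
  have h1 := (hX 0 i).mul (hX 1 j)
  have h2 := (hX 1 i).mul (hX 0 j)
  rw [add_comm] at h2
  rw [DD_I, mn, mem_gen S.F _ (h1.sub h2)]
  simp only [map_sub, map_mul, aeval_X, dD, if_neg hi, if_neg hi', if_neg hj, if_neg hj']
  ring

lemma X_DD {j : S.J} (i : Fin 2) (hj : j ∉ S.Kf S.r) (hj' : j ∉ S.Ff S.r) :
    (MvPolynomial.X (i, j) : Coord S.J 2) ∉ (S.DD (le_refl S.r)).I := by
  rw [DD_I, X_mem_gen, dD]
  simp only
  rw [if_neg hj, if_neg hj']
  exact mk_X_ne 1 1 (S.ff_prime le_rfl) (not_dvd_X (n := S.m + 1) (S.ff_homog _) _)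

/-- a homomorphism which kills the point of the proportional pairs -/
lemma ff_DD {L : Type} [CommRing L] (φ : Coord S.J 2 →+* L) (i : Fin 2)
    (hφ : ∀ z ∈ (S.DD (le_refl S.r)).I, φ z = 0) :
    eval₂Hom (cs φ) (xs φ i) (S.ff S.r) = 0 := by
  have h1 := S.F_sub_ff (i := S.r) (by omega)
  have h2 : eval₂Hom (cs φ) (xs φ i) (S.F - S.ff S.r) = 0 := by
    refine ev_eq_zero_of_mem _ _ h1 ?_
    rintro p ⟨j, hj, rfl⟩
    rw [eval₂Hom_X']
    exact hφ _ (S.X_DD_K i hj)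
  have h3 : eval₂Hom (cs φ) (xs φ i) S.F = 0 := by
    rw [← map_inFactor]
    exact hφ _ ((S.DD (le_refl S.r)).onX i _ (Ideal.subset_span rfl))
  rw [map_sub, h3, zero_sub, neg_eq_zero] at h2
  exact h2

theorem cone_pYD : (S.DD (le_refl S.r)).I = coneI S.e5 S.K5 S.toLn.pYD.I := by
  apply le_antisymm
  · intro z hz
    have hp : (coneI S.e5 S.K5 S.toLn.pYD.I).IsPrime := coneI_prime S.e5_inj S.e5_K5 _
    have hφ : ∀ z ∈ coneI S.e5 S.K5 S.toLn.pYD.I, toFr (coneI S.e5 S.K5 S.toLn.pYD.I) z = 0 :=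
      fun z hz => toFr_eq_zero.2 hz
    have hc : ∀ i, xs (toFr (coneI S.e5 S.K5 S.toLn.pYD.I)) i (S.e5 1) ≠ 0 := by
      intro i h
      have h1 := toFr_eq_zero.1 h
      rw [← ren_X, ren_mem_coneI_iff S.e5_inj S.e5_K5] at h1
      exact S.toLn.X_pYD i 1 (by decide) h1
    rw [← toFr_eq_zero]
    refine kill_dD (F := S.F) (K := S.Kf S.r) (Fr := S.Ff S.r) (h := S.ff S.r)
      (toFr (coneI S.e5 S.K5 S.toLn.pYD.I)) 1 0 (by decide)
      ((xs (toFr (coneI S.e5 S.K5 S.toLn.pYD.I)) 1 (S.e5 1))⁻¹ *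
        xs (toFr (coneI S.e5 S.K5 S.toLn.pYD.I)) 0 (S.e5 1)) ?_ ?_ ?_ ?_ hz
    · exact isUnit_iff_ne_zero.2 (mul_ne_zero (inv_ne_zero (hc 1)) (hc 0))
    · intro i j hj
      exact xs_cone_Kf hφ (S.toLn.X4_pYD i) hj
    · exact S.ff_of_cone _ S.toLn.pYD 1 (S.toLn.X4_pYD 1)
        (fun z hz => hφ _ (ren_mem_coneI _ _ hz))
    · intro l h1 h2
      obtain ⟨j, hj, rfl⟩ := S.exists_e5 h1 h2
      have h3 := hφ _ (ren_mem_coneI S.e5 S.K5 (S.toLn.mn_pYD j 1))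
      rw [LnData.mn, map_sub, map_mul, map_mul, ren_X, ren_X, ren_X, ren_X, map_sub, map_mul,
        map_mul] at h3
      have h4 : xs (toFr (coneI S.e5 S.K5 S.toLn.pYD.I)) 0 (S.e5 j) *
          xs (toFr (coneI S.e5 S.K5 S.toLn.pYD.I)) 1 (S.e5 1) =
          xs (toFr (coneI S.e5 S.K5 S.toLn.pYD.I)) 1 (S.e5 j) *
          xs (toFr (coneI S.e5 S.K5 S.toLn.pYD.I)) 0 (S.e5 1) := sub_eq_zero.1 h3
      rw [← mul_assoc, mul_comm _ (_⁻¹), mul_assoc, ← h4, mul_comm, mul_assoc,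
        mul_inv_cancel₀ (hc 1), mul_one]
  · rw [coneI_le_iff]
    refine ⟨fun z hz => ?_, fun i l hl => S.X_DD_K i (S.K5_Kf hl)⟩
    have hφ : ∀ z ∈ (S.DD (le_refl S.r)).I, toFr (S.DD (le_refl S.r)).I z = 0 :=
      fun z hz => toFr_eq_zero.2 hz
    have hc : xs (toFr (S.DD (le_refl S.r)).I) 0 (S.e5 1) ≠ 0 := fun h =>
      S.X_DD 0 (S.e5_notMem_Kf (by decide)) (S.e5_notMem_Ff 1) (toFr_eq_zero.1 h)
    rw [← toFr_eq_zero]
    refine S.toLn.kill_YD (S.down (toFr (S.DD (le_refl S.r)).I))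
      ((xs (toFr (S.DD (le_refl S.r)).I) 0 (S.e5 1))⁻¹ *
        xs (toFr (S.DD (le_refl S.r)).I) 1 (S.e5 1)) ?_ ?_ ?_ hz
    · intro j
      rw [S.xs_down, S.xs_down]
      by_cases hj : j = 4
      · subst hj
        have h0 : ∀ i, xs (toFr (S.DD (le_refl S.r)).I) i (S.e5 4) = 0 := fun i =>
          hφ _ (S.X_DD_K i (by rw [mem_Kf, S.e5_val]; exact Or.inl rfl))
        rw [h0, h0, zero_mul]
      · have h3 := hφ _ (S.mn_DD (S.e5_notMem_Kf hj) (S.e5_notMem_Ff j)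
          (S.e5_notMem_Kf (j := 1) (by decide)) (S.e5_notMem_Ff 1))
        rw [map_mn] at h3
        have h4 := sub_eq_zero.1 h3
        rw [← mul_assoc, mul_comm _ (_⁻¹), mul_assoc, h4, mul_comm, mul_assoc,
          mul_inv_cancel₀ hc, mul_one]
    · rw [S.xs_down]
      exact hφ _ (S.X_DD_K 0 (by rw [mem_Kf, S.e5_val]; exact Or.inl rfl))
    · rw [F0v_down]
      exact S.ff_DD _ 0 hφ

/-! ### The cones over the products of the vertex and the surface -/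

lemma X_EE_K (i : Fin 2) {j : S.J} (hj : j ∈ S.Kf S.r) :
    (MvPolynomial.X (i, j) : Coord S.J 2) ∈ (S.EE (le_refl S.r) i).I := by
  rw [EE_I, X_mem_gen, dE]
  exact (if_pos rfl).trans (if_pos hj)

lemma X_EE_A {i i0 : Fin 2} (hi : i ≠ i0) {j : S.J} (hj : j ∉ S.Ff (S.r + 1)) :
    (MvPolynomial.X (i, j) : Coord S.J 2) ∈ (S.EE (le_refl S.r) i0).I := by
  rw [EE_I, X_mem_gen, dE]
  exact (if_neg hi).trans (if_neg hj)

lemma notMem_A_of_K {j : S.J} (hj : j ∈ S.K5) : j ∉ S.Ff (S.r + 1) := by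
  rw [mem_Ff]
  have := hj.2
  omega

lemma e5_notMem_A {j : Fin 5} (hj : j ≠ 0) : S.e5 j ∉ S.Ff (S.r + 1) := by
  rw [mem_Ff, S.e5_val]
  have h1 : (j : ℕ) ≠ 0 := fun h2 => hj (Fin.ext h2)
  omega

lemma A_cases {l : S.J} (h : l ∉ S.Ff (S.r + 1)) : l ∈ S.K5 ∨ ∃ j : Fin 5, j ≠ 0 ∧
    l = S.e5 j := by
  rw [mem_Ff] at h
  by_cases h1 : (l : ℕ) < 2 * S.r
  · exact Or.inl ⟨h1, by omega⟩
  · have h3 := l.2
    refine Or.inr ⟨⟨(l : ℕ) - 2 * S.r, by omega⟩, ?_, S.eq_e5 _ ?_⟩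
    · intro h
      have := congrArg Fin.val h
      simp at this
      omega
    · simp
      omega

/-- a homomorphism which kills the product -/
lemma ff_EE {L : Type} [CommRing L] (φ : Coord S.J 2 →+* L) (i : Fin 2)
    (hφ : ∀ z ∈ (S.EE (le_refl S.r) i).I, φ z = 0) :
    eval₂Hom (cs φ) (xs φ i) (S.ff S.r) = 0 := by
  have h1 := S.F_sub_ff (i := S.r) (by omega)
  have h2 : eval₂Hom (cs φ) (xs φ i) (S.F - S.ff S.r) = 0 := by
    refine ev_eq_zero_of_mem _ _ h1 ?_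
    rintro p ⟨j, hj, rfl⟩
    rw [eval₂Hom_X']
    exact hφ _ (S.X_EE_K i hj)
  have h3 : eval₂Hom (cs φ) (xs φ i) S.F = 0 := by
    rw [← map_inFactor]
    exact hφ _ ((S.EE (le_refl S.r) i).onX i _ (Ideal.subset_span rfl))
  rw [map_sub, h3, zero_sub, neg_eq_zero] at h2
  exact h2

/-- the ideal of the product is killed -/
lemma kill_EE {L : Type} [CommRing L] {φ : Coord S.J 2 →+* L} (i0 i1 : Fin 2) (h01 : i0 ≠ i1)
    (Q : Pt S.toLn.V 2) (hφ : ∀ z ∈ coneI S.e5 S.K5 Q.I, φ z = 0)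
    (h4 : (MvPolynomial.X (i0, 4) : Coord (Fin 5) 2) ∈ Q.I)
    (hX : ∀ j : Fin 5, j ≠ 0 → (MvPolynomial.X (i1, j) : Coord (Fin 5) 2) ∈ Q.I)
    {z : Coord S.J 2} (hz : z ∈ (S.EE (le_refl S.r) i0).I) : φ z = 0 := by
  refine kill_dE (F := S.F) (K := S.Kf S.r) (A := S.Ff (S.r + 1)) (h := S.ff S.r) φ i0 i1 h01
    ?_ ?_ ?_ hz
  · intro j hj
    exact xs_cone_Kf hφ h4 hj
  · intro l hl
    rcases S.A_cases hl with hl | ⟨j, hj, rfl⟩
    · exact xs_cone_K hφ hl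
    · exact xs_cone hφ (hX j hj)
  · exact S.ff_of_cone _ Q i0 h4 (fun z hz => hφ _ (ren_mem_coneI _ _ hz))

theorem cone_pY : (S.EE (le_refl S.r) 1).I =
    coneI S.e5 S.K5 (S.toLn.pB S.toLn.pp S.toLn.pY).I := by
  apply le_antisymm
  · intro z hz
    rw [← Ideal.Quotient.eq_zero_iff_mem]
    exact S.kill_EE 1 0 (by decide) (S.toLn.pB S.toLn.pp S.toLn.pY)
      (fun z hz => Ideal.Quotient.eq_zero_iff_mem.2 hz) S.toLn.X4_mem_pp
      (fun j hj => S.toLn.X_mem_pp j hj) hz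
  · rw [coneI_le_iff]
    refine ⟨fun z hz => ?_, fun i l hl => ?_⟩
    · have hφ : ∀ z ∈ (S.EE (le_refl S.r) 1).I,
          Ideal.Quotient.mk (S.EE (le_refl S.r) 1).I z = 0 :=
        fun z hz => Ideal.Quotient.eq_zero_iff_mem.2 hz
      have hX : ∀ j : Fin 5, j ≠ 0 → LnData.xs (S.down (Ideal.Quotient.mk
          (S.EE (le_refl S.r) 1).I)) 0 j = 0 := fun j hj => by
        rw [S.xs_down]
        exact hφ _ (S.X_EE_A (by decide) (S.e5_notMem_A hj))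
      rw [← Ideal.Quotient.eq_zero_iff_mem]
      refine S.toLn.kill_pY_box (S.down (Ideal.Quotient.mk (S.EE (le_refl S.r) 1).I))
        (hX 1 (by decide)) (hX 2 (by decide)) (hX 3 (by decide)) (hX 4 (by decide)) ?_ ?_ hz
      · rw [S.xs_down]
        exact hφ _ (S.X_EE_K 1 (by rw [mem_Kf, S.e5_val]; exact Or.inl rfl))
      · rw [F0v_down]
        exact S.ff_EE _ 1 hφ
    · rcases (by omega : i = 0 ∨ i = 1) with rfl | rfl
      · exact S.X_EE_A (by decide) (S.notMem_A_of_K hl)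
      · exact S.X_EE_K 1 (S.K5_Kf hl)

theorem cone_Yp : (S.EE (le_refl S.r) 0).I =
    coneI S.e5 S.K5 (S.toLn.pB S.toLn.pY S.toLn.pp).I := by
  apply le_antisymm
  · intro z hz
    rw [← Ideal.Quotient.eq_zero_iff_mem]
    exact S.kill_EE 0 1 (by decide) (S.toLn.pB S.toLn.pY S.toLn.pp)
      (fun z hz => Ideal.Quotient.eq_zero_iff_mem.2 hz) S.toLn.X4_mem_Yp
      (fun j hj => S.toLn.X1_mem_pB _ _ (S.toLn.dis_X_pp j hj)) hz
  · rw [coneI_le_iff]
    refine ⟨fun z hz => ?_, fun i l hl => ?_⟩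
    · have hφ : ∀ z ∈ (S.EE (le_refl S.r) 0).I,
          Ideal.Quotient.mk (S.EE (le_refl S.r) 0).I z = 0 :=
        fun z hz => Ideal.Quotient.eq_zero_iff_mem.2 hz
      have hX : ∀ j : Fin 5, j ≠ 0 → LnData.xs (S.down (Ideal.Quotient.mk
          (S.EE (le_refl S.r) 0).I)) 1 j = 0 := fun j hj => by
        rw [S.xs_down]
        exact hφ _ (S.X_EE_A (by decide) (S.e5_notMem_A hj))
      rw [← Ideal.Quotient.eq_zero_iff_mem]
      refine S.toLn.kill_Yp_box (S.down (Ideal.Quotient.mk (S.EE (le_refl S.r) 0).I))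
        (hX 1 (by decide)) (hX 2 (by decide)) (hX 3 (by decide)) (hX 4 (by decide)) ?_ ?_ hz
      · rw [S.xs_down]
        exact hφ _ (S.X_EE_K 0 (by rw [mem_Kf, S.e5_val]; exact Or.inl rfl))
      · rw [F0v_down]
        exact S.ff_EE _ 0 hφ
    · rcases (by omega : i = 0 ∨ i = 1) with rfl | rfl
      · exact S.X_EE_K 0 (S.K5_Kf hl)
      · exact S.X_EE_A (by decide) (S.notMem_A_of_K hl)

end PlData

end Kp

end Pool.Agent.RCH
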