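import Pool.Agent.RCH.KpBPts

/-!
# Partial derivatives of the equations
-/

set_option autoImplicit false

open MvPolynomial

namespace Pool.Agent.RCH

namespace Kp

variable {ι : Type} [DecidableEq ι]

lemma pd_X (v u : Fin 2 × ι) : pderiv v (MvPolynomial.X u : Coord ι 2) = if v = u then 1 else 0 := by
  classical
  rw [pderiv_X, Pi.single_apply]
  by_cases h : u = v
  · rw [if_pos h, if_pos h.symm]
  · rw [if_neg h, if_neg fun h' => h h'.symm]

lemma pd_mn (v : Fin 2 × ι) (i j : ι) : pderiv v (mn i j) =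
    (if v = (0, i) then MvPolynomial.X (1, j) else 0) +
    (if v = (1, j) then MvPolynomial.X (0, i) else 0) -
    (if v = (1, i) then MvPolynomial.X (0, j) else 0) -
    (if v = (0, j) then MvPolynomial.X (1, i) else 0) := by
  rw [mn, map_sub, Derivation.leibniz, Derivation.leibniz, pd_X, pd_X, pd_X, pd_X]
  simp only [smul_eq_mul]
  split_ifs <;> ring

omit [DecidableEq ι] in
lemma pd_inFactor_same (i : Fin 2) (j : ι) (p : MvPolynomial ι ℂ) :
    pderiv (i, j) (inFactor 2 i p) = inFactor 2 i (pderiv j p) := by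
  have hinj : Function.Injective (fun j : ι => ((i, j) : Fin 2 × ι)) :=
    fun a b hab => (Prod.mk.inj hab).2
  exact pderiv_rename hinj j p

omit [DecidableEq ι] in
lemma pd_inFactor_ne {i i' : Fin 2} (h : i ≠ i') (j : ι) (p : MvPolynomial ι ℂ) :
    pderiv (i, j) (inFactor 2 i' p) = 0 := by
  classical
  refine pderiv_eq_zero_of_notMem_vars ?_
  intro hv
  have h1 := vars_rename (fun j : ι => ((i', j) : Fin 2 × ι)) p hv
  rw [Finset.mem_image] at h1
  obtain ⟨a, -, ha⟩ := h1
  exact h (Prod.mk.inj ha).1.symm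

omit [DecidableEq ι] in
/-- the minors are homogeneous -/
lemma hom_mn (F : MvPolynomial ι ℂ) (j l : ι) :
    IsWeightedHomogeneous ((hyp F).mdeg 2) (mn j l)
      ((hyp F).mdeg 2 (0, j) + (hyp F).mdeg 2 (1, l)) := by
  rw [mn]
  refine ((isWeightedHomogeneous_X ℂ _ _).mul (isWeightedHomogeneous_X ℂ _ _)).sub ?_
  have h := (isWeightedHomogeneous_X ℂ ((hyp F).mdeg 2) (1, j)).mul
    (isWeightedHomogeneous_X ℂ ((hyp F).mdeg 2) (0, l))
  have e : (hyp F).mdeg 2 (0, j) + (hyp F).mdeg 2 (1, l) =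
      (hyp F).mdeg 2 (1, j) + (hyp F).mdeg 2 (0, l) := by
    rw [add_comm]
    rfl
  rw [e]
  exact h

omit [DecidableEq ι] in
/-- membership of a minor in the ideal of a point -/
lemma mn_mem_gen {D : Type} [CommRing D] [Algebra ℂ D] (F : MvPolynomial ι ℂ)
    (d : Fin 2 × ι → D) (j l : ι) :
    mn j l ∈ genIdeal (hyp F) d ↔ d (0, j) * d (1, l) = d (1, j) * d (0, l) := by
  rw [mem_gen F d (hom_mn F j l), mn, map_sub, map_mul, map_mul, aeval_X, aeval_X, aeval_X,
    aeval_X, sub_eq_zero]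

omit [DecidableEq ι] in
/-- membership of an equation in the ideal of a point -/
lemma inFactor_mem_gen {D : Type} [CommRing D] [Algebra ℂ D] (F : MvPolynomial ι ℂ)
    (d : Fin 2 × ι → D) (i : Fin 2) {h : MvPolynomial ι ℂ} {n : ℕ} (hh : h.IsHomogeneous n) :
    inFactor 2 i h ∈ genIdeal (hyp F) d ↔
      eval₂Hom (algebraMap ℂ D) (fun j => d (i, j)) h = 0 := by
  have hw : IsWeightedHomogeneous (hyp F).wt h n := hh
  rw [mem_gen F d (inFactor_homogeneous (hyp F) i hw), inFactor_aeval]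
  rfl

/-- the sum of the terms at a single index -/
lemma sum_single_mem {σ : Type} [Fintype σ] [DecidableEq σ] {R : Type} [CommRing R] {Q : Ideal R}
    (c e : σ → R) (j : σ) (h : ∀ i, i ≠ j → e i = 0) {r : R}
    (hr : ∑ i, c i * e i + r ∈ Q) : c j * e j + r ∈ Q := by
  rw [Finset.sum_eq_single j (fun i _ hi => by rw [h i hi, mul_zero])
    (fun hj => absurd (Finset.mem_univ j) hj)] at hr
  exact hr

end Kp

end Pool.Agent.RCH
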