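import Pool.Agent.RCH.KpBPts

/-!
# Hypersurfaces of even dimensional projective space which contain a pencil of linear spaces
-/

set_option autoImplicit false

open MvPolynomial

namespace Pool.Agent.RCH

namespace Kp

lemma cx_val (r : ℕ) {j : ℕ} (hj : j < 2 * r + 5) : ((cx r j : Fin (2 * r + 5)) : ℕ) = j := by
  simp only [cx, Fin.val_ofNat]
  exact Nat.mod_eq_of_lt hj

lemma cx_of (r : ℕ) (j : Fin (2 * r + 5)) : cx r (j : ℕ) = j :=
  Fin.ext (cx_val r j.2)

lemma eq_cx (r : ℕ) {j : ℕ} (hj : j < 2 * r + 5) {l : Fin (2 * r + 5)} :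
    l = cx r j ↔ (l : ℕ) = j := by
  rw [Fin.ext_iff, cx_val r hj]

lemma cx_ne (r : ℕ) {j l : ℕ} (hj : j < 2 * r + 5) (hl : l < 2 * r + 5) (h : j ≠ l) :
    cx r j ≠ cx r l := by
  rw [Ne, eq_cx r hl, cx_val r hj]
  exact h

/-- The data: the degree is `d = m + 3`, the `t` linear spaces have slopes `b k` and multiplicities
`a k`. -/
structure PlData where
  r : ℕ
  m : ℕ
  t : ℕ
  b : Fin t → ℂ
  a : Fin t → ℕ
  hb : Function.Injective b
  ha : ∀ k, 1 ≤ a k
  hsum : ∑ k, a k = m + 3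
  g : ℕ → MvPolynomial (Fin (2 * r + 5)) ℂ
  hg : ∀ i ≤ r, (g i).IsHomogeneous (m + 2)
  hgv : ∀ i ≤ r, ∀ j ∈ (g i).vars, 2 * i + 1 ≤ (j : ℕ) ∧ (j : ℕ) ≤ 2 * r + 3
  hge : ∀ i < r, eval (Pi.single (cx r (2 * i + 2)) 1) (g i) ≠ 0
  hgb : ∀ k, eval (Pi.single (cx r (2 * r + 2)) 1 + Pi.single (cx r (2 * r + 3)) (b k)) (g r) ≠ 0
  P : MvPolynomial (Fin (2 * r + 5)) ℂ
  hP : P.IsHomogeneous (m + 2)
  hPc : eval (Pi.single (cx r 0) 1) P ≠ 0

namespace PlData

variable (S : PlData)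

/-- the coordinates -/
abbrev J : Type := Fin (2 * S.r + 5)

/-- the coordinate `x_j` -/
def x (j : ℕ) : S.J := cx S.r j

/-- the coordinate `x_j` as a polynomial -/
noncomputable def Y (j : ℕ) : MvPolynomial S.J ℂ := MvPolynomial.X (S.x j)

/-- the linear form of the `k`-th linear space -/
noncomputable def q (k : Fin S.t) : MvPolynomial S.J ℂ :=
  S.Y (2 * S.r + 3) - C (S.b k) * S.Y (2 * S.r + 2)

/-- the form in the last two coordinates -/
noncomputable def ph : MvPolynomial S.J ℂ := ∏ k, S.q k ^ S.a k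

/-- the terms -/
noncomputable def te (i : ℕ) : MvPolynomial S.J ℂ :=
  S.Y (2 * i) * S.Y (2 * i + 1) ^ (S.m + 2) + S.Y (2 * i + 1) * S.g i

/-- the partial sums -/
noncomputable def ff (i : ℕ) : MvPolynomial S.J ℂ := ∑ l ∈ Finset.Ico i (S.r + 1), S.te l + S.ph

/-- the equation -/
noncomputable def F : MvPolynomial S.J ℂ := planesPoly S.r (S.m + 2) S.b S.a S.g S.P

/-- the killed coordinates -/
def Kf (i : ℕ) : Finset S.J :=
  Finset.univ.filter fun j => (j : ℕ) = 2 * S.r + 4 ∨ ((j : ℕ) < 2 * i ∧ (j : ℕ) % 2 = 1)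

/-- the free coordinates -/
def Ff (i : ℕ) : Finset S.J :=
  Finset.univ.filter fun j => (j : ℕ) < 2 * i ∧ (j : ℕ) % 2 = 0

lemma mem_Kf {i : ℕ} {j : S.J} : j ∈ S.Kf i ↔
    (j : ℕ) = 2 * S.r + 4 ∨ ((j : ℕ) < 2 * i ∧ (j : ℕ) % 2 = 1) := by
  simp [Kf]

lemma mem_Ff {i : ℕ} {j : S.J} : j ∈ S.Ff i ↔ (j : ℕ) < 2 * i ∧ (j : ℕ) % 2 = 0 := by
  simp [Ff]

lemma x_val {j : ℕ} (hj : j < 2 * S.r + 5) : ((S.x j : S.J) : ℕ) = j := cx_val S.r hj

lemma eq_x {j : ℕ} (hj : j < 2 * S.r + 5) {l : S.J} : l = S.x j ↔ (l : ℕ) = j := eq_cx S.r hj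

lemma x_ne {j l : ℕ} (hj : j < 2 * S.r + 5) (hl : l < 2 * S.r + 5) (h : j ≠ l) :
    S.x j ≠ S.x l := cx_ne S.r hj hl h

lemma x_mem_Kf {i j : ℕ} (hj : j < 2 * S.r + 5) : S.x j ∈ S.Kf i ↔
    j = 2 * S.r + 4 ∨ (j < 2 * i ∧ j % 2 = 1) := by
  rw [mem_Kf, S.x_val hj]

lemma x_mem_Ff {i j : ℕ} (hj : j < 2 * S.r + 5) : S.x j ∈ S.Ff i ↔ j < 2 * i ∧ j % 2 = 0 := by
  rw [mem_Ff, S.x_val hj]

lemma insert_Kf {i : ℕ} (hi : i ≤ S.r) : insert (S.x (2 * i + 1)) (S.Kf i) = S.Kf (i + 1) := by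
  ext j
  rw [Finset.mem_insert, mem_Kf, mem_Kf, S.eq_x (by omega)]
  omega

lemma insert_Ff {i : ℕ} (hi : i ≤ S.r) : insert (S.x (2 * i)) (S.Ff i) = S.Ff (i + 1) := by
  ext j
  rw [Finset.mem_insert, mem_Ff, mem_Ff, S.eq_x (by omega)]
  omega

/-! ### The partial sums -/

lemma ff_last : S.ff (S.r + 1) = S.ph := by
  rw [ff, Finset.Ico_self, Finset.sum_empty, zero_add]

lemma ff_eq {i : ℕ} (hi : i ≤ S.r) : S.ff i = S.te i + S.ff (i + 1) := by
  rw [ff, ff, Finset.sum_eq_sum_Ico_succ_bot (by omega), add_assoc]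

lemma ff_eq' {i : ℕ} (hi : i ≤ S.r) : S.ff i = S.Y (2 * i) * S.Y (2 * i + 1) ^ (S.m + 2) +
    (S.Y (2 * i + 1) * S.g i + S.ff (i + 1)) := by
  rw [S.ff_eq hi, te, add_assoc]

lemma F_eq : S.F = S.ff 0 + S.Y (2 * S.r + 4) * S.P := by
  rw [F, planesPoly, ff, ← Finset.range_eq_Ico]
  rfl

lemma Y_vars {j : ℕ} (hj : j < 2 * S.r + 5) {l : S.J} (hl : l ∈ (S.Y j).vars) : (l : ℕ) = j := by
  rw [Y, vars_X, Finset.mem_singleton] at hl
  rw [hl, S.x_val hj]

lemma q_vars {k : Fin S.t} {l : S.J} (hl : l ∈ (S.q k).vars) :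
    (l : ℕ) = 2 * S.r + 3 ∨ (l : ℕ) = 2 * S.r + 2 := by
  rw [q, sub_eq_add_neg] at hl
  have h1 := vars_add_subset _ _ hl
  rw [Finset.mem_union, vars_neg] at h1
  rcases h1 with h1 | h1
  · exact Or.inl (S.Y_vars (by omega) h1)
  · have h2 := vars_mul _ _ h1
    rw [Finset.mem_union, vars_C] at h2
    rcases h2 with h2 | h2
    · exact absurd h2 (Finset.notMem_empty l)
    · exact Or.inr (S.Y_vars (by omega) h2)

lemma ph_vars {l : S.J} (hl : l ∈ S.ph.vars) : (l : ℕ) = 2 * S.r + 3 ∨ (l : ℕ) = 2 * S.r + 2 := by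
  have h1 := vars_prod (s := Finset.univ) (fun k => S.q k ^ S.a k) hl
  rw [Finset.mem_biUnion] at h1
  obtain ⟨k, -, hk⟩ := h1
  exact S.q_vars (vars_pow _ _ hk)

lemma te_vars {i : ℕ} (hi : i ≤ S.r) {l : S.J} (hl : l ∈ (S.te i).vars) :
    2 * i ≤ (l : ℕ) ∧ (l : ℕ) ≤ 2 * S.r + 3 := by
  have h1 := vars_add_subset _ _ hl
  rw [Finset.mem_union] at h1
  rcases h1 with h1 | h1
  · have h2 := vars_mul _ _ h1
    rw [Finset.mem_union] at h2
    rcases h2 with h2 | h2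
    · have := S.Y_vars (by omega) h2
      omega
    · have := S.Y_vars (by omega) (vars_pow _ _ h2)
      omega
  · have h2 := vars_mul _ _ h1
    rw [Finset.mem_union] at h2
    rcases h2 with h2 | h2
    · have := S.Y_vars (by omega) h2
      omega
    · have := S.hgv i hi l h2
      omega

lemma ff_vars {i : ℕ} (hi : i ≤ S.r + 1) {l : S.J} (hl : l ∈ (S.ff i).vars) :
    2 * i ≤ (l : ℕ) ∧ (l : ℕ) ≤ 2 * S.r + 3 := by
  have h1 := vars_add_subset _ _ hl
  rw [Finset.mem_union] at h1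
  rcases h1 with h1 | h1
  · have h2 := vars_sum_subset _ _ h1
    rw [Finset.mem_biUnion] at h2
    obtain ⟨j, hj, hj2⟩ := h2
    rw [Finset.mem_Ico] at hj
    have := S.te_vars (by omega) hj2
    omega
  · have := S.ph_vars h1
    omega

/-! ### Homogeneity -/

lemma Y_homog (j : ℕ) : (S.Y j).IsHomogeneous 1 := isHomogeneous_X ℂ _

lemma q_homog (k : Fin S.t) : (S.q k).IsHomogeneous 1 := by
  refine (S.Y_homog _).sub ?_
  have h2 := (isHomogeneous_C S.J (S.b k)).mul (S.Y_homog (2 * S.r + 2))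
  rwa [zero_add] at h2

lemma ph_homog : S.ph.IsHomogeneous (S.m + 3) := by
  have h := IsHomogeneous.prod (Finset.univ : Finset (Fin S.t)) (fun k => S.q k ^ S.a k)
    (fun k => 1 * S.a k) (fun k _ => (S.q_homog k).pow (S.a k))
  simp only [one_mul] at h
  rwa [S.hsum] at h

lemma te_homog {i : ℕ} (hi : i ≤ S.r) : (S.te i).IsHomogeneous (S.m + 3) := by
  have h := (S.Y_homog (2 * i)).mul ((S.Y_homog (2 * i + 1)).pow (S.m + 2))
  rw [one_mul, show 1 + (S.m + 2) = S.m + 3 from by ring] at h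
  have h2 := (S.Y_homog (2 * i + 1)).mul (S.hg i hi)
  rw [show 1 + (S.m + 2) = S.m + 3 from by ring] at h2
  exact h.add h2

lemma ff_homog (i : ℕ) : (S.ff i).IsHomogeneous (S.m + 3) := by
  refine IsHomogeneous.add (IsHomogeneous.sum _ _ _ fun l hl => ?_) S.ph_homog
  rw [Finset.mem_Ico] at hl
  exact S.te_homog (by omega)

lemma F_homog : S.F.IsHomogeneous (S.m + 3) := by
  rw [F_eq]
  refine (S.ff_homog 0).add ?_
  have h := (S.Y_homog (2 * S.r + 4)).mul S.hP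
  rwa [show 1 + (S.m + 2) = S.m + 3 from by ring] at h

/-! ### Primes -/

lemma q_ne (k : Fin S.t) : S.q k ≠ 0 := by
  intro h
  have h1 := congrArg (eval (Pi.single (S.x (2 * S.r + 3)) 1)) h
  rw [q, map_sub, map_mul, Y, Y, eval_X, eval_X, map_zero, Pi.single_eq_same,
    Pi.single_eq_of_ne (S.x_ne (by omega) (by omega) (by omega)), mul_zero, sub_zero] at h1
  exact one_ne_zero h1

lemma q_irr (k : Fin S.t) : Irreducible (S.q k) := by
  have hd : ∀ p : MvPolynomial S.J ℂ, p ≠ 0 → p.totalDegree = 0 → IsUnit p := by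
    intro p hp h0
    rw [totalDegree_eq_zero_iff_eq_C] at h0
    rw [h0] at hp ⊢
    refine (isUnit_iff_ne_zero.2 fun h1 => hp ?_).map C
    rw [h1, C_0]
  have ht : (S.q k).totalDegree = 1 := (S.q_homog k).totalDegree (S.q_ne k)
  refine ⟨fun hu => ?_, fun A B h => ?_⟩
  · obtain ⟨u, hu⟩ := hu
    have h1 : (S.q k) * (↑u⁻¹ : MvPolynomial S.J ℂ) = 1 := by
      rw [← hu]
      exact u.mul_inv
    have h2 : (↑u⁻¹ : MvPolynomial S.J ℂ) ≠ 0 := by
      intro h
      rw [h, mul_zero] at h1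
      exact zero_ne_one h1
    have h3 := totalDegree_mul_of_isDomain (S.q_ne k) h2
    rw [h1, totalDegree_one, ht] at h3
    omega
  · have hA : A ≠ 0 := by
      rintro rfl
      exact S.q_ne k (by rw [h, zero_mul])
    have hB : B ≠ 0 := by
      rintro rfl
      exact S.q_ne k (by rw [h, mul_zero])
    have h3 := totalDegree_mul_of_isDomain hA hB
    rw [← h, ht] at h3
    by_cases h4 : A.totalDegree = 0
    · exact Or.inl (hd A hA h4)
    · exact Or.inr (hd B hB (by omega))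

lemma q_prime (k : Fin S.t) : Prime (S.q k) := (S.q_irr k).prime

/-- the point of the `k`-th linear space which is used for `g` -/
noncomputable def ev0 (k : Fin S.t) : S.J → ℂ :=
  Pi.single (S.x (2 * S.r + 2)) 1 + Pi.single (S.x (2 * S.r + 3)) (S.b k)

lemma ev0_2 (k : Fin S.t) : S.ev0 k (S.x (2 * S.r + 2)) = 1 := by
  have h : S.x (2 * S.r + 2) ≠ S.x (2 * S.r + 3) := S.x_ne (by omega) (by omega) (by omega)
  rw [ev0, Pi.add_apply, Pi.single_eq_same, Pi.single_eq_of_ne h, add_zero]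

lemma ev0_3 (k : Fin S.t) : S.ev0 k (S.x (2 * S.r + 3)) = S.b k := by
  have h : S.x (2 * S.r + 3) ≠ S.x (2 * S.r + 2) := S.x_ne (by omega) (by omega) (by omega)
  rw [ev0, Pi.add_apply, Pi.single_eq_same, Pi.single_eq_of_ne h, zero_add]

lemma ev0_of {k : Fin S.t} {l : S.J} (h2 : (l : ℕ) ≠ 2 * S.r + 2) (h3 : (l : ℕ) ≠ 2 * S.r + 3) :
    S.ev0 k l = 0 := by
  have e2 : l ≠ S.x (2 * S.r + 2) := fun h => h2 ((S.eq_x (by omega)).1 h)
  have e3 : l ≠ S.x (2 * S.r + 3) := fun h => h3 ((S.eq_x (by omega)).1 h)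
  rw [ev0, Pi.add_apply, Pi.single_eq_of_ne e2, Pi.single_eq_of_ne e3, add_zero]

lemma eval_q (k j : Fin S.t) : eval (S.ev0 k) (S.q j) = S.b k - S.b j := by
  rw [q, map_sub, map_mul, Y, Y, eval_X, eval_X, eval_C, ev0_2, ev0_3, mul_one]

lemma q_ndvd (j k : Fin S.t) (h : j ≠ k) : ¬ S.q j ∣ S.q k := by
  rintro ⟨c, hc⟩
  have h1 := congrArg (eval (S.ev0 j)) hc
  rw [map_mul, eval_q, eval_q, sub_self, zero_mul, sub_eq_zero] at h1
  exact h (S.hb h1)

lemma q_ndvd_X (k : Fin S.t) : ¬ S.q k ∣ S.Y (2 * S.r + 2) := by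
  rintro ⟨c, hc⟩
  have h1 := congrArg (eval (S.ev0 k)) hc
  rw [map_mul, eval_q, sub_self, zero_mul, Y, eval_X, ev0_2] at h1
  exact one_ne_zero h1

lemma ph_ne : S.ph ≠ 0 := Finset.prod_ne_zero_iff.2 fun k _ => pow_ne_zero _ (S.q_ne k)

lemma prime_step {i : ℕ} (hi : i ≤ S.r) (hne : S.ff (i + 1) ≠ 0) : Prime (S.ff i) := by
  rw [S.ff_eq' hi]
  refine prime_lin (S.x_ne (by omega) (by omega) (by omega)) _ ?_ ?_
  · intro hj
    have h1 := vars_add_subset _ _ hj
    rw [Finset.mem_union] at h1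
    rcases h1 with h1 | h1
    · have h2 := vars_mul _ _ h1
      rw [Finset.mem_union] at h2
      rcases h2 with h2 | h2
      · have := S.Y_vars (by omega) h2
        rw [S.x_val (by omega)] at this
        omega
      · have := S.hgv i hi _ h2
        rw [S.x_val (by omega)] at this
        omega
    · have := S.ff_vars (by omega) h1
      rw [S.x_val (by omega)] at this
      omega
  · intro h
    have h2 : MvPolynomial.X (S.x (2 * i + 1)) ∣ S.Y (2 * i + 1) * S.g i := dvd_mul_right _ _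
    refine BData.notMem_vars_of (fun hj => ?_) hne ((dvd_add_right h2).1 h)
    have := S.ff_vars (by omega) hj
    rw [S.x_val (by omega)] at this
    omega

lemma ff_prime {i : ℕ} (hi : i ≤ S.r) : Prime (S.ff i) := by
  obtain ⟨n, hn⟩ : ∃ n, n = S.r - i := ⟨_, rfl⟩
  induction n generalizing i with
  | zero =>
    have h : i = S.r := by omega
    subst h
    exact S.prime_step le_rfl (by rw [ff_last]; exact S.ph_ne)
  | succ n ih => exact S.prime_step hi (ih (i := i + 1) (by omega) (by omega)).ne_zero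

/-! ### The equation modulo the killed coordinates -/

lemma F_sub_ff {i : ℕ} (hi : i ≤ S.r + 1) : S.F - S.ff i ∈ Ideal.span (XS (S.Kf i)) := by
  induction i with
  | zero =>
    rw [F_eq, add_sub_cancel_left]
    exact Ideal.mul_mem_right _ _ (Ideal.subset_span ⟨_, (S.x_mem_Kf (by omega)).2 (by omega), rfl⟩)
  | succ i ih =>
    have h1 : S.F - S.ff (i + 1) = (S.F - S.ff i) + S.te i := by
      have e := S.ff_eq (i := i) (by omega)
      rw [e]
      ring
    rw [h1]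
    refine add_mem (Ideal.span_mono ?_ (ih (by omega))) ?_
    · rintro p ⟨j, hj, rfl⟩
      refine ⟨j, ?_, rfl⟩
      rw [mem_Kf] at hj ⊢
      omega
    · have hm : S.Y (2 * i + 1) ∈ Ideal.span (XS (S.Kf (i + 1))) :=
        Ideal.subset_span ⟨_, (S.x_mem_Kf (by omega)).2 (by omega), rfl⟩
      exact add_mem (Ideal.mul_mem_left _ _ (Ideal.pow_mem_of_mem _ hm _ (by omega)))
        (Ideal.mul_mem_right _ _ hm)

lemma F_mem_span {i : ℕ} (hi : i ≤ S.r + 1) :
    S.F ∈ Ideal.span (XS (S.Kf i) ∪ {S.ff i}) := by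
  have h := add_mem (Ideal.span_mono Set.subset_union_left (S.F_sub_ff hi))
    (Ideal.subset_span (Or.inr rfl) : S.ff i ∈ Ideal.span (XS (S.Kf i) ∪ {S.ff i}))
  rwa [sub_add_cancel] at h

lemma F_mem_A : S.F ∈ Ideal.span {p : MvPolynomial S.J ℂ | ∃ j ∉ S.Ff (S.r + 1), p =
    MvPolynomial.X j} := by
  have h1 : S.ff (S.r + 1) ∈ Ideal.span {p : MvPolynomial S.J ℂ | ∃ j ∉ S.Ff (S.r + 1), p =
      MvPolynomial.X j} := by
    refine mem_span_of_homog (S.ff_homog _) (by omega) fun j hj => ?_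
    have := S.ff_vars le_rfl hj
    rw [mem_Ff]
    omega
  have h2 : S.F - S.ff (S.r + 1) ∈ Ideal.span {p : MvPolynomial S.J ℂ | ∃ j ∉ S.Ff (S.r + 1), p =
      MvPolynomial.X j} := by
    refine Ideal.span_mono ?_ (S.F_sub_ff le_rfl)
    rintro p ⟨j, hj, rfl⟩
    refine ⟨j, ?_, rfl⟩
    rw [mem_Kf] at hj
    rw [mem_Ff]
    omega
  have h := add_mem h2 h1
  rwa [sub_add_cancel] at h

/-! ### The points -/

lemma admD {i : ℕ} (hi : i ≤ S.r) : Adm S.F (S.Kf i) (S.Ff i) (S.ff i) where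
  prime := S.ff_prime hi
  vK := fun j hj => by
    have := S.ff_vars (by omega) hj
    rw [mem_Kf]
    omega
  vF := fun j hj => by
    have := S.ff_vars (by omega) hj
    rw [mem_Ff]
    omega
  mem := S.F_mem_span (by omega)
  rel := ⟨S.x (2 * S.r + 2), by rw [S.x_mem_Kf (by omega)]; omega,
    not_dvd_X (n := S.m + 1) (S.ff_homog i) _⟩

lemma admE {i : ℕ} (hi : i ≤ S.r) : AdmE S.F (S.Ff (i + 1)) (S.Kf i) (S.ff i) where
  prime := S.ff_prime hi
  vK := (S.admD hi).vK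
  mem := (S.admD hi).mem
  rel := (S.admD hi).rel
  memA := by
    refine Ideal.span_mono ?_ S.F_mem_A
    rintro p ⟨j, hj, rfl⟩
    refine ⟨j, ?_, rfl⟩
    rw [mem_Ff] at hj ⊢
    omega
  ne := ⟨S.x (2 * i), by rw [S.x_mem_Ff (by omega)]; omega⟩

lemma q_dvd_ph (k : Fin S.t) : S.q k ∣ S.ph :=
  (dvd_pow_self _ (by have := S.ha k; omega)).trans
    (Finset.dvd_prod_of_mem (fun k => S.q k ^ S.a k) (Finset.mem_univ k))

lemma admL (k : Fin S.t) : Adm S.F (S.Kf (S.r + 1)) (S.Ff (S.r + 1)) (S.q k) where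
  prime := S.q_prime k
  vK := fun j hj => by
    have := S.q_vars hj
    rw [mem_Kf]
    omega
  vF := fun j hj => by
    have := S.q_vars hj
    rw [mem_Ff]
    omega
  mem := by
    have h := S.F_mem_span le_rfl
    refine Ideal.span_le.2 ?_ h
    rintro p (hp | hp)
    · exact Ideal.subset_span (Or.inl hp)
    · rw [Set.mem_singleton_iff] at hp
      rw [hp, ff_last]
      obtain ⟨c, hc⟩ := S.q_dvd_ph k
      rw [hc]
      exact Ideal.mul_mem_right _ _ (Ideal.subset_span (Or.inr rfl))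
  rel := ⟨S.x (2 * S.r + 2), by rw [S.x_mem_Kf (by omega)]; omega, S.q_ndvd_X k⟩

/-- the point of the proportional pairs on the `i`-th level -/
noncomputable def DD {i : ℕ} (hi : i ≤ S.r) : Pt (hyp S.F) 2 := Dpt S.F_homog (S.admD hi)

/-- the product of a linear space and the `i`-th level; `j` is the factor with the level -/
noncomputable def EE {i : ℕ} (hi : i ≤ S.r) (j : Fin 2) : Pt (hyp S.F) 2 :=
  Ept S.F_homog j (S.admE hi)

/-- the point of the proportional pairs on the last level -/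
noncomputable def DL (k : Fin S.t) : Pt (hyp S.F) 2 := Dpt S.F_homog (S.admL k)

/-! ### The linear spaces -/

/-- the coordinates of the generic point of the `k`-th linear space -/
noncomputable def lc (k : Fin S.t) (v : Fin 1 × S.J) : MvPolynomial S.J ℂ :=
  if v.2 ∈ S.Kf (S.r + 1) then 0 else
    if v.2 = S.x (2 * S.r + 3) then C (S.b k) * S.Y (2 * S.r + 2) else MvPolynomial.X v.2

lemma F_lc (k : Fin S.t) (i : Fin 1) :
    eval₂Hom (algebraMap ℂ (MvPolynomial S.J ℂ)) (fun j => S.lc k (i, j)) S.F = 0 := by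
  refine ev_eq_zero_of_mem _ _ (S.F_mem_span le_rfl) ?_
  rintro p (⟨j, hj, rfl⟩ | hp)
  · rw [eval₂Hom_X']
    exact if_pos hj
  · rw [Set.mem_singleton_iff.1 hp, ff_last, ph, map_prod]
    refine Finset.prod_eq_zero (Finset.mem_univ k) ?_
    rw [map_pow, q, map_sub, map_mul, Y, Y, eval₂Hom_X', eval₂Hom_X', eval₂Hom_C]
    have e3 : S.lc k (i, S.x (2 * S.r + 3)) = C (S.b k) * S.Y (2 * S.r + 2) := by
      rw [lc, if_neg (by rw [S.x_mem_Kf (by omega)]; omega), if_pos rfl]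
    have e2 : S.lc k (i, S.x (2 * S.r + 2)) = S.Y (2 * S.r + 2) := by
      rw [lc, if_neg (by rw [S.x_mem_Kf (by omega)]; omega),
        if_neg (S.x_ne (by omega) (by omega) (by omega))]
      rfl
    rw [e3, e2, MvPolynomial.algebraMap_eq, sub_self, zero_pow]
    have := S.ha k
    omega

/-- the `k`-th linear space -/
noncomputable def pl (k : Fin S.t) : Pt (hyp S.F) 1 :=
  pt S.F_homog (S.lc k) (fun i => ⟨S.x (2 * S.r + 2), by
    rw [lc, if_neg (by rw [S.x_mem_Kf (by omega)]; omega),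
      if_neg (S.x_ne (by omega) (by omega) (by omega))]
    exact MvPolynomial.X_ne_zero _⟩) (S.F_lc k)

/-- the product of two linear spaces -/
noncomputable def LL (j k : Fin S.t) : Pt (hyp S.F) 2 :=
  (exists_box (hyp S.F) ![S.pl j, S.pl k]).choose

lemma LL_I (j k : Fin S.t) : (S.LL j k).I = boxIdeal (hyp S.F) ![S.pl j, S.pl k] :=
  (exists_box (hyp S.F) ![S.pl j, S.pl k]).choose_spec

lemma box_LL (j k : Fin S.t) :
    box (hyp S.F) ![S.pl j, S.pl k] = Finsupp.single (S.LL j k) 1 :=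
  box_of_eq (hyp S.F) _ _ (S.LL_I j k)

end PlData

end Kp

end Pool.Agent.RCH
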