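import Pool.Agent.RCH.KpPl
import Pool.Agent.RCH.KpA

/-!
# The data of the relations (A) and (B) for the levels
-/

set_option autoImplicit false

open MvPolynomial

namespace Pool.Agent.RCH

namespace Kp

lemma Dpt_congr {ι : Type} [DecidableEq ι] {F : MvPolynomial ι ℂ} {n : ℕ}
    (hF : F.IsHomogeneous n) {K K' Fr Fr' : Finset ι} {h h' : MvPolynomial ι ℂ}
    (ad : Adm F K Fr h) (ad' : Adm F K' Fr' h') (hK : K = K') (hFr : Fr = Fr') (hh : h = h') :
    Dpt hF ad = Dpt hF ad' := by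
  subst hK hFr hh
  rfl

lemma Ept_congr {ι : Type} [DecidableEq ι] {F : MvPolynomial ι ℂ} {n : ℕ}
    (hF : F.IsHomogeneous n) {A A' K K' : Finset ι} {h h' : MvPolynomial ι ℂ} (i0 : Fin 2)
    (ad : AdmE F A K h) (ad' : AdmE F A' K' h') (hA : A = A') (hK : K = K') (hh : h = h') :
    Ept hF i0 ad = Ept hF i0 ad' := by
  subst hA hK hh
  rfl

namespace PlData

variable (S : PlData)

/-! ### Values at points -/

lemma eval_ff_single {i : ℕ} (hi : i ≤ S.r) :
    eval (Pi.single (S.x (2 * i)) 1) (S.ff i) = 0 := by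
  obtain ⟨n, hn⟩ : ∃ n, n = S.r - i := ⟨_, rfl⟩
  -- the form is in the ideal of the coordinates with other indices
  have h1 : S.ff i ∈ Ideal.span {p : MvPolynomial S.J ℂ | ∃ j ≠ S.x (2 * i), p =
      MvPolynomial.X j} := by
    rw [S.ff_eq' hi]
    have hy : S.Y (2 * i + 1) ∈ Ideal.span {p : MvPolynomial S.J ℂ | ∃ j ≠ S.x (2 * i), p =
        MvPolynomial.X j} :=
      Ideal.subset_span ⟨_, S.x_ne (by omega) (by omega) (by omega), rfl⟩
    refine add_mem (Ideal.mul_mem_left _ _ (Ideal.pow_mem_of_mem _ hy _ (by omega)))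
      (add_mem (Ideal.mul_mem_right _ _ hy) ?_)
    have h2 := mem_span_of_homog (S.ff_homog (i + 1)) (by omega) (A := {S.x (2 * i)})
      (fun j hj => by
        rw [Finset.mem_singleton, S.eq_x (by omega)]
        have := S.ff_vars (by omega) hj
        omega)
    refine Ideal.span_mono ?_ h2
    rintro p ⟨j, hj, rfl⟩
    exact ⟨j, fun h => hj (Finset.mem_singleton.2 h), rfl⟩
  have hle : Ideal.span {p : MvPolynomial S.J ℂ | ∃ j ≠ S.x (2 * i), p = MvPolynomial.X j} ≤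
      RingHom.ker (eval (Pi.single (S.x (2 * i)) (1 : ℂ))) := by
    refine Ideal.span_le.2 ?_
    rintro p ⟨j, hj, rfl⟩
    rw [SetLike.mem_coe, RingHom.mem_ker, eval_X, Pi.single_eq_of_ne hj]
  exact hle h1

/-- a form which does not vanish at a point is not in the ideal of the point -/
lemma notMem_of_eval {p u v : MvPolynomial S.J ℂ} (e : S.J → ℂ) (hp : eval e p ≠ 0)
    (hu : eval e u = 0) (hv : eval e v = 0) : p ∉ Ideal.span {u, v} := by
  intro h
  obtain ⟨c, d, hcd⟩ := Ideal.mem_span_pair.1 h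
  apply hp
  rw [← hcd, map_add, map_mul, map_mul, hu, hv, mul_zero, mul_zero, add_zero]

/-! ### Relation (B), not at the end -/

/-- the data of relation (B) -/
noncomputable def bd1 {i : ℕ} (hi : i + 2 ≤ S.r) : BData S.J where
  F := S.F
  m := S.m
  hF := S.F_homog
  K := S.Kf i
  Fr := S.Ff i
  al := S.x (2 * i)
  s := S.x (2 * i + 1)
  be := S.x (2 * i + 2)
  tt := S.x (2 * i + 3)
  hals := S.x_ne (by omega) (by omega) (by omega)
  halbe := S.x_ne (by omega) (by omega) (by omega)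
  haltt := S.x_ne (by omega) (by omega) (by omega)
  hsbe := S.x_ne (by omega) (by omega) (by omega)
  hstt := S.x_ne (by omega) (by omega) (by omega)
  hbett := S.x_ne (by omega) (by omega) (by omega)
  hKF := fun j hj => by rw [mem_Kf] at hj; rw [mem_Ff]; omega
  alK := by rw [S.x_mem_Kf (by omega)]; omega
  alF := by rw [S.x_mem_Ff (by omega)]; omega
  sK := by rw [S.x_mem_Kf (by omega)]; omega
  sF := by rw [S.x_mem_Ff (by omega)]; omega
  beK := by rw [S.x_mem_Kf (by omega)]; omega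
  beF := by rw [S.x_mem_Ff (by omega)]; omega
  ttK := by rw [S.x_mem_Kf (by omega)]; omega
  ttF := by rw [S.x_mem_Ff (by omega)]; omega
  T := 1
  q := fun _ => S.ff (i + 2)
  a := fun _ => 1
  e := fun _ => S.m + 3
  ha := fun _ => le_rfl
  hqh := fun _ => S.ff_homog _
  hsum := by simp
  hqp := fun _ => S.ff_prime hi
  hqv := fun _ j hj => by
    have := S.ff_vars (by omega) hj
    simp only [mem_Kf, mem_Ff, Ne, S.eq_x (show 2 * i < 2 * S.r + 5 by omega),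
      S.eq_x (show 2 * i + 1 < 2 * S.r + 5 by omega), S.eq_x (show 2 * i + 2 < 2 * S.r + 5 by omega),
      S.eq_x (show 2 * i + 3 < 2 * S.r + 5 by omega)]
    omega
  hqn := fun j k h => absurd (Subsingleton.elim j k) h
  b := fun _ => S.x (2 * S.r + 2)
  hb := fun _ => by
    simp only [mem_Kf, mem_Ff, Ne, S.eq_x (show 2 * i < 2 * S.r + 5 by omega),
      S.eq_x (show 2 * i + 1 < 2 * S.r + 5 by omega), S.eq_x (show 2 * i + 2 < 2 * S.r + 5 by omega),
      S.eq_x (show 2 * i + 3 < 2 * S.r + 5 by omega), S.x_val (show 2 * S.r + 2 < _ by omega)]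
    omega
  hbq := fun _ => not_dvd_X (n := S.m + 1) (S.ff_homog _) _
  g := S.g i
  hgh := S.hg i (by omega)
  hgv := fun j hj => by
    have := S.hgv i (by omega) j hj
    simp only [mem_Kf, mem_Ff, Ne, S.eq_x (show 2 * i < 2 * S.r + 5 by omega)]
    omega
  hgc := S.hge i (by omega)
  g' := S.g (i + 1)
  hg'h := S.hg (i + 1) (by omega)
  hg'v := fun j hj => by
    have := S.hgv (i + 1) (by omega) j hj
    simp only [mem_Kf, mem_Ff, Ne, S.eq_x (show 2 * i < 2 * S.r + 5 by omega),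
      S.eq_x (show 2 * i + 1 < 2 * S.r + 5 by omega), S.eq_x (show 2 * i + 2 < 2 * S.r + 5 by omega)]
    omega
  hg'q := fun _ => by
    refine S.notMem_of_eval (Pi.single (S.x (2 * (i + 2))) 1) (S.hge (i + 1) (by omega)) ?_
      (S.eval_ff_single hi)
    rw [eval_X, Pi.single_eq_of_ne (S.x_ne (by omega) (by omega) (by omega))]
  hFf := by
    have h := S.F_sub_ff (i := i) (by omega)
    rw [S.ff_eq' (by omega), S.ff_eq' (i := i + 1) (by omega)] at h
    rw [Fin.prod_univ_one, pow_one]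
    exact h

lemma bd1_psi {i : ℕ} (hi : i + 2 ≤ S.r) : (S.bd1 hi).psi = S.ff (i + 1) := by
  have h1 : (S.bd1 hi).tau = S.ff (i + 2) := by
    show ∏ k : Fin 1, S.ff (i + 2) ^ 1 = _
    rw [Fin.prod_univ_one, pow_one]
  rw [BData.psi, BData.rho, h1, S.ff_eq' (i := i + 1) (by omega)]
  rfl

lemma bd1_f {i : ℕ} (hi : i + 2 ≤ S.r) : (S.bd1 hi).f = S.ff i := by
  rw [BData.f, bd1_psi, S.ff_eq' (i := i) (by omega)]
  rfl

lemma bd1_K1 {i : ℕ} (hi : i + 2 ≤ S.r) : (S.bd1 hi).K1 = S.Kf (i + 1) :=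
  S.insert_Kf (by omega)

lemma bd1_K2 {i : ℕ} (hi : i + 2 ≤ S.r) : (S.bd1 hi).K2 = S.Kf (i + 2) := by
  rw [BData.K2, bd1_K1]
  exact S.insert_Kf (by omega)

lemma bd1_Fr1 {i : ℕ} (hi : i + 2 ≤ S.r) : (S.bd1 hi).Fr1 = S.Ff (i + 1) :=
  S.insert_Ff (by omega)

lemma bd1_Fr2 {i : ℕ} (hi : i + 2 ≤ S.r) : (S.bd1 hi).Fr2 = S.Ff (i + 2) := by
  rw [BData.Fr2, bd1_Fr1]
  exact S.insert_Ff (by omega)

lemma bd1_D0 {i : ℕ} (hi : i + 2 ≤ S.r) (h : i ≤ S.r) : (S.bd1 hi).D0 = S.DD h :=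
  Dpt_congr S.F_homog (S.bd1 hi).adm0 (S.admD h) rfl rfl (S.bd1_f hi)

lemma bd1_D1 {i : ℕ} (hi : i + 2 ≤ S.r) (h : i + 1 ≤ S.r) : (S.bd1 hi).D1 = S.DD h :=
  Dpt_congr S.F_homog (S.bd1 hi).adm1 (S.admD h) (S.bd1_K1 hi) (S.bd1_Fr1 hi) (S.bd1_psi hi)

lemma bd1_D2 {i : ℕ} (hi : i + 2 ≤ S.r) (k : Fin 1) : (S.bd1 hi).D2 k = S.DD hi :=
  Dpt_congr S.F_homog ((S.bd1 hi).adm2 k) (S.admD hi) (S.bd1_K2 hi) (S.bd1_Fr2 hi) rfl

lemma bd1_E0 {i : ℕ} (hi : i + 2 ≤ S.r) (h : i ≤ S.r) (j : Fin 2) :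
    (S.bd1 hi).E0 j = S.EE h j :=
  Ept_congr S.F_homog j (S.bd1 hi).admE0 (S.admE h) (S.bd1_Fr1 hi) rfl (S.bd1_f hi)

lemma bd1_E1 {i : ℕ} (hi : i + 2 ≤ S.r) (h : i + 1 ≤ S.r) (j : Fin 2) :
    (S.bd1 hi).E1 j = S.EE h j :=
  Ept_congr S.F_homog j (S.bd1 hi).admE1 (S.admE h) (S.bd1_Fr2 hi) (S.bd1_K1 hi) (S.bd1_psi hi)

/-! ### Relation (B), at the end -/

/-- the data of relation (B) for the last but one level -/
noncomputable def bd2 {i : ℕ} (hi : i + 1 = S.r) : BData S.J where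
  F := S.F
  m := S.m
  hF := S.F_homog
  K := S.Kf i
  Fr := S.Ff i
  al := S.x (2 * i)
  s := S.x (2 * i + 1)
  be := S.x (2 * i + 2)
  tt := S.x (2 * i + 3)
  hals := S.x_ne (by omega) (by omega) (by omega)
  halbe := S.x_ne (by omega) (by omega) (by omega)
  haltt := S.x_ne (by omega) (by omega) (by omega)
  hsbe := S.x_ne (by omega) (by omega) (by omega)
  hstt := S.x_ne (by omega) (by omega) (by omega)
  hbett := S.x_ne (by omega) (by omega) (by omega)
  hKF := fun j hj => by rw [mem_Kf] at hj; rw [mem_Ff]; omega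
  alK := by rw [S.x_mem_Kf (by omega)]; omega
  alF := by rw [S.x_mem_Ff (by omega)]; omega
  sK := by rw [S.x_mem_Kf (by omega)]; omega
  sF := by rw [S.x_mem_Ff (by omega)]; omega
  beK := by rw [S.x_mem_Kf (by omega)]; omega
  beF := by rw [S.x_mem_Ff (by omega)]; omega
  ttK := by rw [S.x_mem_Kf (by omega)]; omega
  ttF := by rw [S.x_mem_Ff (by omega)]; omega
  T := S.t
  q := S.q
  a := S.a
  e := fun _ => 1
  ha := S.ha
  hqh := S.q_homog
  hsum := by simp [S.hsum]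
  hqp := S.q_prime
  hqv := fun k j hj => by
    have := S.q_vars hj
    simp only [mem_Kf, mem_Ff, Ne, S.eq_x (show 2 * i < 2 * S.r + 5 by omega),
      S.eq_x (show 2 * i + 1 < 2 * S.r + 5 by omega), S.eq_x (show 2 * i + 2 < 2 * S.r + 5 by omega),
      S.eq_x (show 2 * i + 3 < 2 * S.r + 5 by omega)]
    omega
  hqn := S.q_ndvd
  b := fun _ => S.x (2 * S.r + 2)
  hb := fun _ => by
    simp only [mem_Kf, mem_Ff, Ne, S.eq_x (show 2 * i < 2 * S.r + 5 by omega),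
      S.eq_x (show 2 * i + 1 < 2 * S.r + 5 by omega), S.eq_x (show 2 * i + 2 < 2 * S.r + 5 by omega),
      S.eq_x (show 2 * i + 3 < 2 * S.r + 5 by omega), S.x_val (show 2 * S.r + 2 < _ by omega)]
    omega
  hbq := S.q_ndvd_X
  g := S.g i
  hgh := S.hg i (by omega)
  hgv := fun j hj => by
    have := S.hgv i (by omega) j hj
    simp only [mem_Kf, mem_Ff, Ne, S.eq_x (show 2 * i < 2 * S.r + 5 by omega)]
    omega
  hgc := S.hge i (by omega)
  g' := S.g (i + 1)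
  hg'h := S.hg (i + 1) (by omega)
  hg'v := fun j hj => by
    have := S.hgv (i + 1) (by omega) j hj
    simp only [mem_Kf, mem_Ff, Ne, S.eq_x (show 2 * i < 2 * S.r + 5 by omega),
      S.eq_x (show 2 * i + 1 < 2 * S.r + 5 by omega), S.eq_x (show 2 * i + 2 < 2 * S.r + 5 by omega)]
    omega
  hg'q := fun k => by
    refine S.notMem_of_eval (S.ev0 k) ?_ ?_ ?_
    · rw [hi]
      exact S.hgb k
    · rw [eval_X, S.ev0_of (by rw [S.x_val (by omega)]; omega) (by rw [S.x_val (by omega)]; omega)]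
    · rw [eval_q, sub_self]
  hFf := by
    have h := S.F_sub_ff (i := i) (by omega)
    have e : S.ff (i + 1 + 1) = S.ph := by rw [hi, ff_last]
    rw [S.ff_eq' (by omega), S.ff_eq' (i := i + 1) (by omega), e] at h
    exact h

lemma bd2_psi {i : ℕ} (hi : i + 1 = S.r) : (S.bd2 hi).psi = S.ff (i + 1) := by
  have h1 : (S.bd2 hi).tau = S.ff (i + 1 + 1) := by
    rw [hi, ff_last]
    rfl
  rw [BData.psi, BData.rho, h1, S.ff_eq' (i := i + 1) (by omega)]
  rfl

lemma bd2_f {i : ℕ} (hi : i + 1 = S.r) : (S.bd2 hi).f = S.ff i := by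
  rw [BData.f, bd2_psi, S.ff_eq' (i := i) (by omega)]
  rfl

lemma bd2_K1 {i : ℕ} (hi : i + 1 = S.r) : (S.bd2 hi).K1 = S.Kf (i + 1) :=
  S.insert_Kf (by omega)

lemma bd2_K2 {i : ℕ} (hi : i + 1 = S.r) : (S.bd2 hi).K2 = S.Kf (i + 2) := by
  rw [BData.K2, bd2_K1]
  exact S.insert_Kf (by omega)

lemma bd2_Fr1 {i : ℕ} (hi : i + 1 = S.r) : (S.bd2 hi).Fr1 = S.Ff (i + 1) :=
  S.insert_Ff (by omega)

lemma bd2_Fr2 {i : ℕ} (hi : i + 1 = S.r) : (S.bd2 hi).Fr2 = S.Ff (i + 2) := by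
  rw [BData.Fr2, bd2_Fr1]
  exact S.insert_Ff (by omega)

lemma bd2_D0 {i : ℕ} (hi : i + 1 = S.r) (h : i ≤ S.r) : (S.bd2 hi).D0 = S.DD h :=
  Dpt_congr S.F_homog (S.bd2 hi).adm0 (S.admD h) rfl rfl (S.bd2_f hi)

lemma bd2_D1 {i : ℕ} (hi : i + 1 = S.r) (h : i + 1 ≤ S.r) : (S.bd2 hi).D1 = S.DD h :=
  Dpt_congr S.F_homog (S.bd2 hi).adm1 (S.admD h) (S.bd2_K1 hi) (S.bd2_Fr1 hi) (S.bd2_psi hi)

lemma bd2_D2 {i : ℕ} (hi : i + 1 = S.r) (k : Fin S.t) : (S.bd2 hi).D2 k = S.DL k :=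
  Dpt_congr S.F_homog ((S.bd2 hi).adm2 k) (S.admL k)
    ((S.bd2_K2 hi).trans (congrArg S.Kf (by omega)))
    ((S.bd2_Fr2 hi).trans (congrArg S.Ff (by omega))) rfl

lemma bd2_E0 {i : ℕ} (hi : i + 1 = S.r) (h : i ≤ S.r) (j : Fin 2) :
    (S.bd2 hi).E0 j = S.EE h j :=
  Ept_congr S.F_homog j (S.bd2 hi).admE0 (S.admE h) (S.bd2_Fr1 hi) rfl (S.bd2_f hi)

lemma bd2_E1 {i : ℕ} (hi : i + 1 = S.r) (h : i + 1 ≤ S.r) (j : Fin 2) :
    (S.bd2 hi).E1 j = S.EE h j :=
  Ept_congr S.F_homog j (S.bd2 hi).admE1 (S.admE h) (S.bd2_Fr2 hi) (S.bd2_K1 hi) (S.bd2_psi hi)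

/-! ### Relation (A) -/

/-- the data of relation (A) if there is more than one level -/
noncomputable def ad1 (hr : 1 ≤ S.r) : AData S.J where
  m := S.m
  al := S.x 0
  s := S.x 1
  om := S.x (2 * S.r + 4)
  hals := S.x_ne (by omega) (by omega) (by omega)
  halom := S.x_ne (by omega) (by omega) (by omega)
  hsom := S.x_ne (by omega) (by omega) (by omega)
  T := 1
  q := fun _ => S.ff 1
  a := fun _ => 1
  e := fun _ => S.m + 3
  ha := fun _ => le_rfl
  hqh := fun _ => S.ff_homog _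
  hsum := by simp
  hqp := fun _ => S.ff_prime hr
  hqv := fun _ j hj => by
    have := S.ff_vars (by omega) hj
    simp only [Ne, S.eq_x (show 0 < 2 * S.r + 5 by omega),
      S.eq_x (show 1 < 2 * S.r + 5 by omega), S.eq_x (show 2 * S.r + 4 < 2 * S.r + 5 by omega)]
    omega
  hqn := fun j k h => absurd (Subsingleton.elim j k) h
  b := fun _ => S.x (2 * S.r + 2)
  hb := fun _ => ⟨S.x_ne (by omega) (by omega) (by omega), S.x_ne (by omega) (by omega) (by omega),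
    S.x_ne (by omega) (by omega) (by omega)⟩
  hbq := fun _ => not_dvd_X (n := S.m + 1) (S.ff_homog _) _
  g := S.g 0
  hgh := S.hg 0 (by omega)
  hgv := fun j hj => by
    have := S.hgv 0 (by omega) j hj
    simp only [Ne, S.eq_x (show 0 < 2 * S.r + 5 by omega),
      S.eq_x (show 2 * S.r + 4 < 2 * S.r + 5 by omega)]
    omega
  hgq := fun _ => by
    refine S.notMem_of_eval (Pi.single (S.x (2 * 1)) 1) (S.hge 0 (by omega)) ?_
      (S.eval_ff_single hr)
    rw [eval_X, Pi.single_eq_of_ne (S.x_ne (by omega) (by omega) (by omega))]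
  P := S.P
  hP := S.hP
  hPc := S.hPc

/-- the data of relation (A) if there is one level -/
noncomputable def ad2 (hr : S.r = 0) : AData S.J where
  m := S.m
  al := S.x 0
  s := S.x 1
  om := S.x (2 * S.r + 4)
  hals := S.x_ne (by omega) (by omega) (by omega)
  halom := S.x_ne (by omega) (by omega) (by omega)
  hsom := S.x_ne (by omega) (by omega) (by omega)
  T := S.t
  q := S.q
  a := S.a
  e := fun _ => 1
  ha := S.ha
  hqh := S.q_homog
  hsum := by simp [S.hsum]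
  hqp := S.q_prime
  hqv := fun k j hj => by
    have := S.q_vars hj
    simp only [Ne, S.eq_x (show 0 < 2 * S.r + 5 by omega),
      S.eq_x (show 1 < 2 * S.r + 5 by omega), S.eq_x (show 2 * S.r + 4 < 2 * S.r + 5 by omega)]
    omega
  hqn := S.q_ndvd
  b := fun _ => S.x (2 * S.r + 2)
  hb := fun _ => ⟨S.x_ne (by omega) (by omega) (by omega), S.x_ne (by omega) (by omega) (by omega),
    S.x_ne (by omega) (by omega) (by omega)⟩
  hbq := S.q_ndvd_X
  g := S.g 0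
  hgh := S.hg 0 (by omega)
  hgv := fun j hj => by
    have := S.hgv 0 (by omega) j hj
    simp only [Ne, S.eq_x (show 0 < 2 * S.r + 5 by omega),
      S.eq_x (show 2 * S.r + 4 < 2 * S.r + 5 by omega)]
    omega
  hgq := fun k => by
    refine S.notMem_of_eval (S.ev0 k) ?_ ?_ ?_
    · have h := S.hgb k
      rw [show S.g S.r = S.g 0 from congrArg S.g hr] at h
      exact h
    · rw [eval_X, S.ev0_of (by rw [S.x_val (by omega)]; omega) (by rw [S.x_val (by omega)]; omega)]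
    · rw [eval_q, sub_self]
  P := S.P
  hP := S.hP
  hPc := S.hPc

lemma ad1_f0 (hr : 1 ≤ S.r) : (S.ad1 hr).f0 = S.ff 0 := by
  have h1 : (S.ad1 hr).tau = S.ff (0 + 1) := by
    show ∏ k : Fin 1, S.ff 1 ^ 1 = _
    rw [Fin.prod_univ_one, pow_one]
  rw [AData.f0, h1, S.ff_eq' (i := 0) (by omega)]
  rfl

lemma ad2_f0 (hr : S.r = 0) : (S.ad2 hr).f0 = S.ff 0 := by
  have h1 : (S.ad2 hr).tau = S.ff (0 + 1) := by
    have h2 : S.ff (0 + 1) = S.ff (S.r + 1) := congrArg S.ff (by omega)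
    rw [h2, ff_last]
    rfl
  rw [AData.f0, h1, S.ff_eq' (i := 0) (by omega)]
  rfl

lemma ad1_F (hr : 1 ≤ S.r) : (S.ad1 hr).F = S.F := by
  rw [AData.F, ad1_f0, F_eq]
  rfl

lemma ad2_F (hr : S.r = 0) : (S.ad2 hr).F = S.F := by
  rw [AData.F, ad2_f0, F_eq]
  rfl

end PlData

end Kp

end Pool.Agent.RCH
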