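import Pool.Agent.RCH.LnAsm2
import Pool.Agent.RCH.Nil

/-!
# The relation between the lines, and smash-nilpotence
-/

set_option autoImplicit false

open MvPolynomial

namespace Pool.Agent.RCH

/-- a double sum, symmetrized -/
lemma sum_sum_eq_add_lt {t : ℕ} {M : Type*} [AddCommMonoid M] (f : Fin t → Fin t → M) :
    ∑ j, ∑ k, f j k = ∑ j, f j j +
      ∑ j, ∑ k ∈ Finset.univ.filter (fun k => j < k), (f j k + f k j) := by
  have h1 : ∀ j, ∑ k, f j k = f j j + (∑ k ∈ Finset.univ.filter (fun k => j < k), f j k +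
      ∑ k ∈ Finset.univ.filter (fun k => k < j), f j k) := by
    intro j
    rw [← Finset.sum_filter_add_sum_filter_not Finset.univ (fun k => j < k) (f j)]
    have h2 : Finset.univ.filter (fun k => ¬ j < k) =
        insert j (Finset.univ.filter (fun k => k < j)) := by
      ext k
      simp only [Finset.mem_filter, Finset.mem_univ, true_and, Finset.mem_insert]
      omega
    rw [h2, Finset.sum_insert (by simp)]
    rw [← add_assoc, add_comm (∑ k ∈ Finset.univ.filter (fun k => j < k), f j k) (f j j),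
      add_assoc]
  rw [Finset.sum_congr rfl fun j _ => h1 j, Finset.sum_add_distrib, Finset.sum_add_distrib]
  congr 1
  have h3 : ∑ j, ∑ k ∈ Finset.univ.filter (fun k => k < j), f j k =
      ∑ j, ∑ k ∈ Finset.univ.filter (fun k => j < k), f k j := by
    refine Finset.sum_comm' ?_
    intro j k
    simp
  rw [h3, ← Finset.sum_add_distrib]
  refine Finset.sum_congr rfl fun j _ => ?_
  rw [← Finset.sum_add_distrib]

lemma sum_squares_aux {t : ℕ} {M : Type*} [AddCommGroup M] (a : Fin t → ℕ) (n : ℕ)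
    (hsum : ∑ k, a k = n) (B : Fin t → Fin t → M) :
    n • ∑ k, a k • B k k - ∑ j, ∑ k, (a j * a k) • B j k =
      ∑ j, ∑ k ∈ Finset.univ.filter (fun k => j < k), (a j * a k) •
        (B j j - B j k - B k j + B k k) := by
  have h1 : n • ∑ k, a k • B k k - ∑ j, ∑ k, (a j * a k) • B j k =
      ∑ j, ∑ k, (a j * a k) • (B j j - B j k) := by
    simp only [smul_sub, Finset.sum_sub_distrib]
    congr 1
    rw [Finset.smul_sum]
    refine Finset.sum_congr rfl fun j _ => ?_
    rw [← Finset.sum_smul, ← Finset.mul_sum, hsum, smul_smul, mul_comm]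
  rw [h1, sum_sum_eq_add_lt]
  have h2 : ∑ j, (a j * a j) • (B j j - B j j) = 0 :=
    Finset.sum_eq_zero fun j _ => by rw [sub_self, smul_zero]
  rw [h2, zero_add]
  refine Finset.sum_congr rfl fun j _ => Finset.sum_congr rfl fun k _ => ?_
  rw [mul_comm (a k) (a j), ← smul_add]
  congr 1
  abel

lemma two_aux {M : Type*} [AddCommGroup M] (a b : ℕ) (x y z w : M) :
    (a + b) • (a • x + b • w) - ((a * a) • x + (a * b) • y + ((b * a) • z + (b * b) • w)) =
      (a * b) • (x - y - z + w) := by
  have h1 : (a + b) • (a • x + b • w) =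
      (a * a) • x + (a * b) • x + ((a * b) • w + (b * b) • w) := by
    rw [smul_add, smul_smul, smul_smul, add_mul, add_mul, add_smul, add_smul, mul_comm b a]
  rw [h1, mul_comm b a]
  simp only [smul_add, smul_sub]
  abel

namespace LnData

variable (S : LnData)

theorem rel_lines : (S.m + 2) • ((S.m + 3) • ∑ k, S.a k • box S.V ![S.pl k, S.pl k] -
    ∑ j, ∑ k, (S.a j * S.a k) • box S.V ![S.pl j, S.pl k]) ∈ RatZero S.V 2 := by
  have hA := S.relA
  have hB := S.relB
  simp only [box_pB]
  have h : (S.m + 2) • ((S.m + 3) • ∑ k, S.a k • Finsupp.single (S.pB (S.pl k) (S.pl k)) 1 -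
      ∑ j, ∑ k, (S.a j * S.a k) • Finsupp.single (S.pB (S.pl j) (S.pl k)) 1 : Cycles S.V 2) =
      (S.m + 2) • (Finsupp.single S.pYD 1 -
        ∑ j, ∑ k, (S.a j * S.a k) • Finsupp.single (S.pB (S.pl j) (S.pl k)) 1 +
        (S.m + 2) • ∑ k, S.a k • Finsupp.single (S.pB (S.pl k) (S.pl k)) 1
        - Finsupp.single (S.pB S.pp S.pY) 1 - Finsupp.single (S.pB S.pY S.pp) 1) -
      (S.m + 2) • (Finsupp.single S.pYD 1 -
        ∑ k, S.a k • Finsupp.single (S.pB (S.pl k) (S.pl k)) 1
        - Finsupp.single (S.pB S.pp S.pY) 1 - Finsupp.single (S.pB S.pY S.pp) 1) := by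
    rw [← smul_sub]
    congr 1
    rw [succ_nsmul' (∑ k, S.a k • (Finsupp.single (S.pB (S.pl k) (S.pl k)) 1 : Cycles S.V 2))
      (S.m + 2)]
    abel
  rw [h]
  exact sub_mem (AddSubgroup.nsmul_mem _ hB _) hA

lemma extPow_lines {j k : Fin S.t} (h : j ≠ k) :
    extPow S.V (Finsupp.single (S.pl j) 1 - Finsupp.single (S.pl k) 1) 2 =
      box S.V ![S.pl j, S.pl j] - box S.V ![S.pl j, S.pl k] - box S.V ![S.pl k, S.pl j] +
        box S.V ![S.pl k, S.pl k] :=
  extPow_two_single_sub_single S.V (fun h' => h (S.pl_injective h'))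

/-- the sum over pairs of the squares of the differences of two lines -/
theorem rel_squares : (S.m + 2) • ∑ j, ∑ k ∈ Finset.univ.filter (fun k => j < k),
    (S.a j * S.a k) • extPow S.V (Finsupp.single (S.pl j) 1 - Finsupp.single (S.pl k) 1) 2 ∈
      RatZero S.V 2 := by
  have h := S.rel_lines
  rw [sum_squares_aux S.a (S.m + 3) S.hsum (fun j k => box S.V ![S.pl j, S.pl k])] at h
  have h3 : ∑ j, ∑ k ∈ Finset.univ.filter (fun k => j < k),
      (S.a j * S.a k) • extPow S.V (Finsupp.single (S.pl j) 1 - Finsupp.single (S.pl k) 1) 2 =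
      ∑ j, ∑ k ∈ Finset.univ.filter (fun k => j < k), (S.a j * S.a k) •
        (box S.V ![S.pl j, S.pl j] - box S.V ![S.pl j, S.pl k] - box S.V ![S.pl k, S.pl j] +
        box S.V ![S.pl k, S.pl k]) := by
    refine Finset.sum_congr rfl fun j _ => Finset.sum_congr rfl fun k hk => ?_
    have hjk : j ≠ k := by
      have := (Finset.mem_filter.1 hk).2
      exact this.ne
    rw [S.extPow_lines hjk]
  rw [h3]
  exact h

theorem smash (h : S.t = 2) (j k : Fin S.t) :
    SmashNilpotent S.V (Finsupp.single (S.pl j) 1 - Finsupp.single (S.pl k) 1) := by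
  classical
  by_cases hjk : j = k
  · subst hjk
    rw [sub_self]
    refine ⟨1, le_rfl, 1, le_rfl, ?_⟩
    rw [extPow_zero_cycle le_rfl, smul_zero]
    exact zero_mem _
  refine ⟨2, by norm_num, (S.m + 2) * (S.a j * S.a k), ?_, ?_⟩
  · have h1 := S.ha j
    have h2 := S.ha k
    exact Nat.one_le_iff_ne_zero.2 (by positivity)
  · have huniv : (Finset.univ : Finset (Fin S.t)) = {j, k} := by
      symm
      apply Finset.eq_univ_of_card
      rw [Finset.card_pair hjk, Fintype.card_fin, h]
    have hsum := S.hsum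
    rw [huniv, Finset.sum_pair hjk] at hsum
    have hrel := S.rel_lines
    rw [huniv] at hrel
    simp only [Finset.sum_pair hjk] at hrel
    rw [← hsum] at hrel
    rw [S.extPow_lines hjk, mul_smul]
    rw [two_aux] at hrel
    exact hrel

end LnData

end Pool.Agent.RCH
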