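import Pool.Agent.RCH.KpPlAB
import Pool.Agent.RCH.KpLL
import Pool.Agent.RCH.KpLast
import Pool.Agent.RCH.KpAAsm
import Pool.Agent.RCH.KpAsmB
import Pool.Agent.RCH.LnAsm3

/-!
# The relation between the linear spaces, and smash-nilpotence
-/

set_option autoImplicit false

open MvPolynomial

namespace Pool.Agent.RCH

namespace Kp

lemma genIdeal_dD_congr {ι : Type} [DecidableEq ι] (F : MvPolynomial ι ℂ) {K K' Fr Fr' : Finset ι}
    {h h' : MvPolynomial ι ℂ} (hK : K = K') (hFr : Fr = Fr') (hh : h = h') :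
    genIdeal (hyp F) (dD 1 K Fr h) = genIdeal (hyp F) (dD 1 K' Fr' h') := by
  subst hK hFr hh
  rfl

lemma genIdeal_dE_congr {ι : Type} [DecidableEq ι] (F : MvPolynomial ι ℂ) {A A' K K' : Finset ι}
    {h h' : MvPolynomial ι ℂ} (i : Fin 2) (hA : A = A') (hK : K = K') (hh : h = h') :
    genIdeal (hyp F) (dE i A K h) = genIdeal (hyp F) (dE i A' K' h') := by
  subst hA hK hh
  rfl

/-- relation (A), for a variety with the same equation -/
lemma relA_tr {ι : Type} [Fintype ι] [DecidableEq ι] (A : AData ι) {F : MvPolynomial ι ℂ}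
    (hAF : A.F = F) (Y : Pt (hyp F) 2) (Cp : Fin A.T → Pt (hyp F) 2) (E : Fin 2 → Pt (hyp F) 2)
    (hY : Y.I = genIdeal (hyp F) (dD 1 {A.om} ∅ A.f0))
    (hC : ∀ k, (Cp k).I = genIdeal (hyp F) (dD 1 {A.s, A.om} {A.al} (A.q k)))
    (hE : ∀ i, (E i).I = genIdeal (hyp F) (dE i {A.al} {A.om} A.f0)) :
    (A.m + 2) • (Finsupp.single Y 1 - ∑ k, A.a k • Finsupp.single (Cp k) 1 -
      Finsupp.single (E 1) 1 - Finsupp.single (E 0) 1 : Cycles (hyp F) 2) ∈
        RatZero (hyp F) 2 := by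
  subst hAF
  have e1 : Y = A.pYD := Pt.ext' _ hY
  have e2 : Cp = A.pC := funext fun k => Pt.ext' _ (hC k)
  have e3 : E = A.pE := funext fun i => Pt.ext' _ (hE i)
  rw [e1, e2, e3]
  exact A.relA

namespace PlData

variable (S : PlData)

/-- the diagonal of the `i`-th level -/
noncomputable def Dc (i : ℕ) : Cycles (hyp S.F) 2 :=
  if h : i ≤ S.r then Finsupp.single (S.DD h) 1 else ∑ k, S.a k • Finsupp.single (S.DL k) 1

/-- the products of a linear space and the `i`-th level -/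
noncomputable def Ec (i : ℕ) : Cycles (hyp S.F) 2 :=
  if h : i ≤ S.r then Finsupp.single (S.EE h 1) 1 + Finsupp.single (S.EE h 0) 1 else 0

lemma Dc_le {i : ℕ} (h : i ≤ S.r) : S.Dc i = Finsupp.single (S.DD h) 1 := dif_pos h

lemma Dc_last {i : ℕ} (h : i = S.r + 1) : S.Dc i = ∑ k, S.a k • Finsupp.single (S.DL k) 1 :=
  dif_neg (by omega)

lemma Ec_le {i : ℕ} (h : i ≤ S.r) :
    S.Ec i = Finsupp.single (S.EE h 1) 1 + Finsupp.single (S.EE h 0) 1 := dif_pos h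

lemma relB_levels {i : ℕ} (hi : i < S.r) : S.Dc i + (S.m + 1) • S.Dc (i + 1) -
    (S.m + 2) • S.Dc (i + 2) - S.Ec i - (S.m + 2) • S.Ec (i + 1) ∈ RatZero (hyp S.F) 2 := by
  rw [S.Dc_le (i := i) (by omega), S.Dc_le (i := i + 1) (by omega), S.Ec_le (i := i) (by omega),
    S.Ec_le (i := i + 1) (by omega)]
  by_cases h2 : i + 2 ≤ S.r
  · rw [S.Dc_le h2]
    have h : Finsupp.single ((S.bd1 h2).D0 : Pt (hyp S.F) 2) 1 +
        (S.m + 1) • Finsupp.single ((S.bd1 h2).D1 : Pt (hyp S.F) 2) 1 -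
        (S.m + 2) • ∑ k : Fin 1, 1 • Finsupp.single ((S.bd1 h2).D2 k : Pt (hyp S.F) 2) 1 -
        (Finsupp.single ((S.bd1 h2).E0 1 : Pt (hyp S.F) 2) 1 +
          Finsupp.single ((S.bd1 h2).E0 0 : Pt (hyp S.F) 2) 1) -
        (S.m + 2) • (Finsupp.single ((S.bd1 h2).E1 1 : Pt (hyp S.F) 2) 1 +
          Finsupp.single ((S.bd1 h2).E1 0 : Pt (hyp S.F) 2) 1 : Cycles (hyp S.F) 2) ∈
        RatZero (hyp S.F) 2 := (S.bd1 h2).relB
    rw [Fin.sum_univ_one, one_smul, S.bd1_D0 h2 (by omega), S.bd1_D1 h2 (by omega), S.bd1_D2 h2,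
      S.bd1_E0 h2 (by omega), S.bd1_E0 h2 (by omega), S.bd1_E1 h2 (by omega),
      S.bd1_E1 h2 (by omega)] at h
    exact h
  · have h3 : i + 1 = S.r := by omega
    rw [S.Dc_last (i := i + 2) (by omega)]
    have key : ∀ (D0 D1 : Pt (hyp S.F) 2) (D2 : Fin S.t → Pt (hyp S.F) 2)
        (E0 E1 : Fin 2 → Pt (hyp S.F) 2), D0 = (S.bd2 h3).D0 → D1 = (S.bd2 h3).D1 →
        D2 = (S.bd2 h3).D2 → E0 = (S.bd2 h3).E0 → E1 = (S.bd2 h3).E1 →
        (Finsupp.single D0 1 + (S.m + 1) • Finsupp.single D1 1 -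
        (S.m + 2) • ∑ k : Fin S.t, S.a k • Finsupp.single (D2 k) 1 -
        (Finsupp.single (E0 1) 1 + Finsupp.single (E0 0) 1) -
        (S.m + 2) • (Finsupp.single (E1 1) 1 + Finsupp.single (E1 0) 1) : Cycles (hyp S.F) 2) ∈
        RatZero (hyp S.F) 2 := by
      rintro _ _ _ _ _ rfl rfl rfl rfl rfl
      exact (S.bd2 h3).relB
    exact key _ _ S.DL (S.EE (by omega)) (S.EE (by omega))
      (S.bd2_D0 h3 (by omega)).symm (S.bd2_D1 h3 (by omega)).symm
      (funext fun k => (S.bd2_D2 h3 k).symm) (funext fun j => (S.bd2_E0 h3 (by omega) j).symm)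
      (funext fun j => (S.bd2_E1 h3 (by omega) j).symm)

lemma Kf_zero : S.Kf 0 = {S.x (2 * S.r + 4)} := by
  ext j
  rw [mem_Kf, Finset.mem_singleton, S.eq_x (by omega)]
  omega

lemma Ff_zero : S.Ff 0 = ∅ := by
  ext j
  rw [mem_Ff]
  simp

lemma Kf_one : S.Kf 1 = {S.x 1, S.x (2 * S.r + 4)} := by
  ext j
  rw [mem_Kf, Finset.mem_insert, Finset.mem_singleton, S.eq_x (by omega), S.eq_x (by omega)]
  omega

lemma Ff_one : S.Ff 1 = {S.x 0} := by
  ext j
  rw [mem_Ff, Finset.mem_singleton, S.eq_x (by omega)]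
  omega

lemma relA_levels : (S.m + 2) • (S.Dc 0 - S.Dc 1 - S.Ec 0) ∈ RatZero (hyp S.F) 2 := by
  have hr0 : 0 ≤ S.r := Nat.zero_le _
  rw [S.Dc_le hr0, S.Ec_le hr0]
  by_cases hr : 1 ≤ S.r
  · have h := relA_tr (S.ad1 hr) (S.ad1_F hr) (S.DD hr0) (fun _ => S.DD hr) (S.EE hr0)
      (genIdeal_dD_congr S.F S.Kf_zero S.Ff_zero (S.ad1_f0 hr).symm)
      (fun _ => genIdeal_dD_congr S.F S.Kf_one S.Ff_one rfl)
      (fun i => genIdeal_dE_congr S.F i S.Ff_one S.Kf_zero (S.ad1_f0 hr).symm)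
    have h' : (S.m + 2) • (Finsupp.single (S.DD hr0) 1 -
        ∑ k : Fin 1, 1 • Finsupp.single (S.DD hr) 1 -
        Finsupp.single (S.EE hr0 1) 1 - Finsupp.single (S.EE hr0 0) 1 : Cycles (hyp S.F) 2) ∈
          RatZero (hyp S.F) 2 := h
    rw [Fin.sum_univ_one, one_smul] at h'
    rw [S.Dc_le hr, ← sub_sub]
    exact h'
  · have hr' : S.r = 0 := by omega
    have h := relA_tr (S.ad2 hr') (S.ad2_F hr') (S.DD hr0) S.DL (S.EE hr0)
      (genIdeal_dD_congr S.F S.Kf_zero S.Ff_zero (S.ad2_f0 hr').symm)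
      (fun _ => genIdeal_dD_congr S.F ((congrArg S.Kf (by omega)).trans S.Kf_one)
        ((congrArg S.Ff (by omega)).trans S.Ff_one) rfl)
      (fun i => genIdeal_dE_congr S.F i S.Ff_one S.Kf_zero (S.ad2_f0 hr').symm)
    have h' : (S.m + 2) • (Finsupp.single (S.DD hr0) 1 -
        ∑ k : Fin S.t, S.a k • Finsupp.single (S.DL k) 1 -
        Finsupp.single (S.EE hr0 1) 1 - Finsupp.single (S.EE hr0 0) 1 : Cycles (hyp S.F) 2) ∈
          RatZero (hyp S.F) 2 := h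
    rw [S.Dc_last (i := 1) (by omega), ← sub_sub]
    exact h'

/-- the difference of the levels -/
noncomputable def Rc (i : ℕ) : Cycles (hyp S.F) 2 := S.Dc i - S.Ec i - S.Dc (i + 1)

lemma rel_step {i : ℕ} (hi : i < S.r) : S.Rc i + (S.m + 2) • S.Rc (i + 1) ∈
    RatZero (hyp S.F) 2 := by
  have h := S.relB_levels hi
  have e : S.Rc i + (S.m + 2) • S.Rc (i + 1) = S.Dc i + (S.m + 1) • S.Dc (i + 1) -
      (S.m + 2) • S.Dc (i + 2) - S.Ec i - (S.m + 2) • S.Ec (i + 1) := by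
    rw [Rc, Rc, smul_sub, smul_sub, succ_nsmul (S.Dc (i + 1)) (S.m + 1)]
    abel
  rw [e]
  exact h

lemma rel_level {i : ℕ} (hi : i ≤ S.r) : (S.m + 2) ^ (i + 1) • S.Rc i ∈ RatZero (hyp S.F) 2 := by
  induction i with
  | zero =>
    have h := S.relA_levels
    rw [zero_add, pow_one, Rc, sub_right_comm]
    exact h
  | succ i ih =>
    have h1 := AddSubgroup.nsmul_mem _ (S.rel_step (i := i) (by omega)) ((S.m + 2) ^ (i + 1))
    have h2 := sub_mem h1 (ih (by omega))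
    rw [smul_add, add_sub_cancel_left, smul_smul, ← pow_succ] at h2
    exact h2

/-- the relation between the linear spaces -/
theorem rel_spaces : (S.m + 2) ^ (S.r + 1) •
    ((S.m + 3) • ∑ k, S.a k • box (hyp S.F) ![S.pl k, S.pl k] -
      ∑ j, ∑ k, (S.a j * S.a k) • box (hyp S.F) ![S.pl j, S.pl k]) ∈ RatZero (hyp S.F) 2 := by
  have hR := S.rel_level le_rfl
  have hL := AddSubgroup.nsmul_mem _ S.relLast ((S.m + 2) ^ (S.r + 1))
  have h := sub_mem hL hR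
  simp only [box_LL]
  rw [← smul_sub] at h
  have e : (Finsupp.single (S.DD (le_refl S.r)) 1 -
      ∑ j, ∑ k, (S.a j * S.a k) • Finsupp.single (S.LL j k) 1 +
      (S.m + 2) • ∑ k, S.a k • Finsupp.single (S.LL k k) 1
      - Finsupp.single (S.EE (le_refl S.r) 1) 1 - Finsupp.single (S.EE (le_refl S.r) 0) 1 :
      Cycles (hyp S.F) 2) - S.Rc S.r =
      (S.m + 3) • ∑ k, S.a k • Finsupp.single (S.LL k k) 1 -
      ∑ j, ∑ k, (S.a j * S.a k) • Finsupp.single (S.LL j k) 1 := by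
    have e1 : ∑ k, S.a k • (Finsupp.single (S.DL k) 1 : Cycles (hyp S.F) 2) =
        ∑ k, S.a k • (Finsupp.single (S.LL k k) 1 : Cycles (hyp S.F) 2) :=
      Finset.sum_congr rfl fun k _ => by rw [S.DL_eq]
    rw [Rc, S.Dc_le le_rfl, S.Ec_le le_rfl, S.Dc_last rfl, e1,
      succ_nsmul (∑ k, S.a k • (Finsupp.single (S.LL k k) 1 : Cycles (hyp S.F) 2)) (S.m + 2)]
    abel
  rw [e] at h
  exact h

end PlData

end Kp

end Pool.Agent.RCH
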