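import Pool.Agent.RCH.KpBase

/-!
# A form as a polynomial in one coordinate, and its quotient by `Y - x`
-/

set_option autoImplicit false

open MvPolynomial

namespace Pool.Agent.RCH

namespace Kp

variable {ι : Type} [DecidableEq ι]

section poly

variable {L L' : Type} [CommRing L] [CommRing L'] (c : ℂ →+* L) (e : ι → L) (al : ι)

/-- the value of a polynomial at the point `e` with a variable at the place `al` -/
noncomputable def polF (p : MvPolynomial ι ℂ) : Polynomial L :=
  eval₂Hom (Polynomial.C.comp c) (Function.update (fun j => Polynomial.C (e j)) al Polynomial.X) p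

lemma polF_add (p q : MvPolynomial ι ℂ) : polF c e al (p + q) = polF c e al p + polF c e al q :=
  map_add _ _ _

lemma polF_mul (p q : MvPolynomial ι ℂ) : polF c e al (p * q) = polF c e al p * polF c e al q :=
  map_mul _ _ _

lemma polF_X_self : polF c e al (MvPolynomial.X al) = Polynomial.X := by
  rw [polF, eval₂Hom_X', Function.update_self]

lemma polF_X_of_ne {j : ι} (hj : j ≠ al) : polF c e al (MvPolynomial.X j) = Polynomial.C (e j) := by
  rw [polF, eval₂Hom_X', Function.update_of_ne hj]

lemma polF_of_notMem {p : MvPolynomial ι ℂ} (hp : al ∉ p.vars) :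
    polF c e al p = Polynomial.C (eval₂Hom c e p) := by
  rw [polF, map_ev c e Polynomial.C p]
  refine ev_congr _ _ fun j hj => ?_
  rw [Function.update_of_ne]
  rintro rfl
  exact hp hj

lemma eval_polF (p : MvPolynomial ι ℂ) (y : L) :
    (polF c e al p).eval y = eval₂Hom c (Function.update e al y) p := by
  have h := map_ev (Polynomial.C.comp c)
    (Function.update (fun j => Polynomial.C (e j)) al Polynomial.X) (Polynomial.evalRingHom y) p
  have h1 : (Polynomial.evalRingHom y).comp (Polynomial.C.comp c) = c := by
    ext a
    · simp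
  have h2 : (fun j => Polynomial.evalRingHom y (Function.update (fun j => Polynomial.C (e j)) al
      Polynomial.X j)) = Function.update e al y := by
    funext j
    by_cases hj : j = al
    · subst hj
      simp
    · simp [Function.update_of_ne hj]
  rw [h1, h2] at h
  exact h

lemma eval_polF_self (p : MvPolynomial ι ℂ) : (polF c e al p).eval (e al) = eval₂Hom c e p := by
  rw [eval_polF, Function.update_eq_self]

lemma map_polF (f : L →+* L') (p : MvPolynomial ι ℂ) :
    (polF c e al p).map f = polF (f.comp c) (fun j => f (e j)) al p := by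
  have h := map_ev (Polynomial.C.comp c)
    (Function.update (fun j => Polynomial.C (e j)) al Polynomial.X) (Polynomial.mapRingHom f) p
  have h1 : (Polynomial.mapRingHom f).comp (Polynomial.C.comp c) =
      Polynomial.C.comp (f.comp c) := by
    refine RingHom.ext fun a => ?_
    simp
  have h2 : (fun j => Polynomial.mapRingHom f (Function.update (fun j => Polynomial.C (e j)) al
      Polynomial.X j)) = Function.update (fun j => Polynomial.C (f (e j))) al Polynomial.X := by
    funext j
    by_cases hj : j = al
    · subst hj
      simp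
    · simp [Function.update_of_ne hj]
  rw [h1, h2] at h
  exact h

/-- the derivative of the value of a polynomial -/
lemma derivative_polF (p : MvPolynomial ι ℂ) :
    Polynomial.derivative (polF c e al p) = polF c e al (pderiv al p) := by
  induction p using MvPolynomial.induction_on with
  | C a => simp [polF]
  | add p q hp hq => rw [polF_add, map_add, map_add, hp, hq, polF_add]
  | mul_X p j hp =>
    rw [polF_mul, Polynomial.derivative_mul, hp, Derivation.leibniz, polF_add, smul_eq_mul,
      smul_eq_mul, polF_mul, polF_mul, pderiv_X]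
    by_cases hj : j = al
    · subst hj
      rw [polF_X_self, Polynomial.derivative_X, Pi.single_eq_same]
      have h1 : polF c e j 1 = 1 := map_one _
      rw [h1]
      ring
    · rw [polF_X_of_ne _ _ _ hj, Polynomial.derivative_C, Pi.single_eq_of_ne hj]
      have h1 : polF c e al 0 = 0 := map_zero _
      rw [h1]
      ring

/-- the quotient by `Y - e_al` -/
noncomputable def quoF (p : MvPolynomial ι ℂ) : Polynomial L :=
  polF c e al p /ₘ (Polynomial.X - Polynomial.C (e al))

lemma map_quoF (f : L →+* L') (p : MvPolynomial ι ℂ) :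
    (quoF c e al p).map f = quoF (f.comp c) (fun j => f (e j)) al p := by
  unfold quoF
  rw [Polynomial.map_divByMonic f (Polynomial.monic_X_sub_C _), map_polF]
  simp

lemma mul_quoF {p : MvPolynomial ι ℂ} (h : eval₂Hom c e p = 0) :
    (Polynomial.X - Polynomial.C (e al)) * quoF c e al p = polF c e al p := by
  unfold quoF
  rw [Polynomial.mul_divByMonic_eq_iff_isRoot, Polynomial.IsRoot.def, eval_polF_self, h]

/-- the value of the quotient at another root -/
lemma eval_quoF_of_ne [IsDomain L] {p : MvPolynomial ι ℂ} (h : eval₂Hom c e p = 0) {y : L}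
    (hy : eval₂Hom c (Function.update e al y) p = 0) (hne : y ≠ e al) :
    (quoF c e al p).eval y = 0 := by
  have h1 := congrArg (Polynomial.eval y) (mul_quoF c e al h)
  rw [Polynomial.eval_mul, eval_polF, hy, Polynomial.eval_sub, Polynomial.eval_X,
    Polynomial.eval_C] at h1
  exact (mul_eq_zero.1 h1).resolve_left (sub_ne_zero.2 hne)

lemma ev_of_eval_quoF {p : MvPolynomial ι ℂ} (h : eval₂Hom c e p = 0) {y : L}
    (hy : (quoF c e al p).eval y = 0) : eval₂Hom c (Function.update e al y) p = 0 := by
  have h1 := congrArg (Polynomial.eval y) (mul_quoF c e al h)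
  rw [Polynomial.eval_mul, eval_polF, hy, mul_zero] at h1
  exact h1.symm

/-- the value of the quotient at `e_al` is the derivative -/
lemma eval_quoF_self {p : MvPolynomial ι ℂ} (h : eval₂Hom c e p = 0) :
    (quoF c e al p).eval (e al) = eval₂Hom c e (pderiv al p) := by
  have h1 := congrArg (fun q => (Polynomial.derivative q).eval (e al)) (mul_quoF c e al h)
  simp only [derivative_polF, eval_polF_self] at h1
  rw [← h1, Polynomial.derivative_mul]
  simp

/-! ### The degree and the leading coefficient -/

lemma polF_monomial [Fintype ι] (s : ι →₀ ℕ) (a : ℂ) :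
    polF c e al (monomial s a) =
      Polynomial.C (c a * ∏ j ∈ Finset.univ.erase al, e j ^ s j) * Polynomial.X ^ s al := by
  rw [polF, eval₂Hom_monomial, Finsupp.prod_fintype _ _ (fun _ => pow_zero _),
    ← Finset.mul_prod_erase Finset.univ _ (Finset.mem_univ al), Function.update_self, map_mul,
    map_prod]
  have h : ∏ x ∈ Finset.univ.erase al, Function.update (fun j => Polynomial.C (e j)) al
      Polynomial.X x ^ s x = ∏ x ∈ Finset.univ.erase al, Polynomial.C (e x ^ s x) := by
    refine Finset.prod_congr rfl fun j hj => ?_
    rw [Function.update_of_ne (Finset.ne_of_mem_erase hj), map_pow]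
  rw [h, RingHom.comp_apply]
  ring

lemma degree_eq_of_homog [Fintype ι] {p : MvPolynomial ι ℂ} {n : ℕ} (hp : p.IsHomogeneous n)
    {s : ι →₀ ℕ} (hs : s ∈ p.support) : s al + ∑ j ∈ Finset.univ.erase al, s j = n := by
  have h := hp (mem_support_iff.1 hs)
  rw [Finsupp.weight_apply, Finsupp.sum_fintype _ _ (by intro i; simp)] at h
  rw [Finset.add_sum_erase _ _ (Finset.mem_univ al)]
  simpa using h

lemma natDegree_polF_le [Fintype ι] {p : MvPolynomial ι ℂ} {n : ℕ} (hp : p.IsHomogeneous n) :
    (polF c e al p).natDegree ≤ n := by
  have h0 : polF c e al p = ∑ s ∈ p.support, polF c e al (monomial s (coeff s p)) := by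
    conv_lhs => rw [p.as_sum]
    exact map_sum _ _ _
  rw [h0]
  refine Polynomial.natDegree_sum_le_of_forall_le _ _ fun s hs => ?_
  rw [polF_monomial]
  refine (Polynomial.natDegree_C_mul_X_pow_le _ _).trans ?_
  have := degree_eq_of_homog al hp hs
  omega

lemma coeff_polF [Fintype ι] {p : MvPolynomial ι ℂ} {n : ℕ} (hp : p.IsHomogeneous n) :
    (polF c e al p).coeff n = c (eval (Pi.single al 1) p) := by
  have h0 : polF c e al p = ∑ s ∈ p.support, polF c e al (monomial s (coeff s p)) := by
    conv_lhs => rw [p.as_sum]
    exact map_sum _ _ _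
  rw [h0, Polynomial.finsetSum_coeff]
  conv_rhs => rw [p.as_sum]
  rw [map_sum, map_sum]
  refine Finset.sum_congr rfl fun s hs => ?_
  have hsum := degree_eq_of_homog al hp hs
  rw [polF_monomial, Polynomial.coeff_C_mul_X_pow, eval_monomial,
    Finsupp.prod_fintype _ _ (fun _ => pow_zero _),
    ← Finset.mul_prod_erase Finset.univ _ (Finset.mem_univ al), Pi.single_eq_same, one_pow, one_mul]
  by_cases h : n = s al
  · have h1 : ∀ j ∈ Finset.univ.erase al, s j = 0 := by
      have h2 : ∑ j ∈ Finset.univ.erase al, s j = 0 := by omega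
      exact Finset.sum_eq_zero_iff.1 h2
    rw [if_pos h, Finset.prod_eq_one (fun j hj => by rw [h1 j hj, pow_zero]), mul_one,
      Finset.prod_eq_one (fun j hj => by rw [h1 j hj, pow_zero]), mul_one]
  · rw [if_neg h]
    obtain ⟨j, hj, hj0⟩ : ∃ j ∈ Finset.univ.erase al, s j ≠ 0 := by
      by_contra hcon
      push Not at hcon
      have h2 : ∑ j ∈ Finset.univ.erase al, s j = 0 := Finset.sum_eq_zero hcon
      omega
    rw [Finset.prod_eq_zero hj, mul_zero, map_zero]
    rw [Pi.single_eq_of_ne (Finset.ne_of_mem_erase hj), zero_pow hj0]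

end poly

end Kp

end Pool.Agent.RCH
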