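import Pool.Agent.RCH.KpBase

/-!
# The two types of points of the square of a hypersurface

For a main factor `i0`, a prime polynomial `h`, a set `K` of killed coordinates and a set `Fr` of free
coordinates, `dD` are the coordinates of the generic pair of points with killed coordinates zero,
with `h = 0`, whose coordinates outside of `K` and `Fr` are proportional. For a set `A`, `dE` are
the coordinates of the generic pair of a point with killed coordinates zero on `h = 0` (the main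
factor) and a point whose coordinates outside of `A` are zero.
-/

set_option autoImplicit false

open MvPolynomial

namespace Pool.Agent.RCH

namespace Kp

variable {ι : Type}

/-- the ring of the pairs of points with `h = 0` for the factor `i0` -/
abbrev RD (i0 : Fin 2) (h : MvPolynomial ι ℂ) : Type := Coord ι 2 ⧸ Ideal.span {inFactor 2 i0 h}

lemma inFactor_zero_iff (i0 : Fin 2) (h z : MvPolynomial ι ℂ) :
    inFactor 2 i0 z ∈ Ideal.span {inFactor 2 i0 h} ↔ h ∣ z := by
  rw [Ideal.mem_span_singleton]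
  constructor
  · rintro ⟨c, hc⟩
    have h1 := congrArg (eval₂Hom (C : ℂ →+* MvPolynomial ι ℂ)
      (fun v : Fin 2 × ι => MvPolynomial.X v.2)) hc
    rw [map_mul, map_inFactor, map_inFactor] at h1
    have h2 : ∀ p : MvPolynomial ι ℂ, eval₂Hom (cs (eval₂Hom (C : ℂ →+* MvPolynomial ι ℂ)
        (fun v : Fin 2 × ι => MvPolynomial.X v.2))) (xs (eval₂Hom (C : ℂ →+* MvPolynomial ι ℂ)
        (fun v : Fin 2 × ι => MvPolynomial.X v.2)) i0) p = p := by
      intro p
      have h3 : cs (eval₂Hom (C : ℂ →+* MvPolynomial ι ℂ)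
        (fun v : Fin 2 × ι => MvPolynomial.X v.2)) = C := by
        refine RingHom.ext fun a => ?_
        simp [cs]
      have h4 : xs (eval₂Hom (C : ℂ →+* MvPolynomial ι ℂ)
        (fun v : Fin 2 × ι => MvPolynomial.X v.2)) i0 = MvPolynomial.X := by
        funext j
        simp [xs]
      rw [h3, h4]
      exact MvPolynomial.eval₂_eta p
    rw [h2, h2] at h1
    exact ⟨_, h1⟩
  · rintro ⟨c, rfl⟩
    exact ⟨inFactor 2 i0 c, map_mul _ _ _⟩

/-- a prime polynomial remains prime in more variables -/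
lemma prime_inFactor (i0 : Fin 2) {h : MvPolynomial ι ℂ} (hp : Prime h) :
    Prime (inFactor 2 i0 h) := by
  have hinj : Function.Injective (fun j : ι => ((i0, j) : Fin 2 × ι)) :=
    fun a b hab => (Prod.mk.inj hab).2
  let e := Equiv.ofInjective _ hinj
  have h1 : inFactor 2 i0 h = rename ((↑) : (Set.range fun j : ι => ((i0, j) : Fin 2 × ι)) →
      Fin 2 × ι) (rename e h) := by
    rw [inFactor, rename_rename]
    rfl
  rw [h1, prime_rename_iff]
  exact (MulEquiv.prime_iff (MvPolynomial.renameEquiv ℂ e).toMulEquiv).2 hp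

lemma isDomain_RD (i0 : Fin 2) {h : MvPolynomial ι ℂ} (hp : Prime h) : IsDomain (RD i0 h) := by
  have h1 := prime_inFactor i0 hp
  rw [Ideal.Quotient.isDomain_iff_prime, Ideal.span_singleton_prime h1.ne_zero]
  exact h1

/-- the class of a coordinate -/
noncomputable def mk (i0 : Fin 2) (h : MvPolynomial ι ℂ) : Coord ι 2 →+* RD i0 h :=
  Ideal.Quotient.mk _

lemma mk_eq_zero (i0 : Fin 2) (h : MvPolynomial ι ℂ) (z : Coord ι 2) :
    mk i0 h z = 0 ↔ inFactor 2 i0 h ∣ z := by
  rw [mk, Ideal.Quotient.eq_zero_iff_mem, Ideal.mem_span_singleton]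

lemma mk_X_ne (i0 i : Fin 2) {h : MvPolynomial ι ℂ} (hp : Prime h) {j : ι}
    (hj : ¬ h ∣ MvPolynomial.X j) : mk i0 h (MvPolynomial.X (i, j)) ≠ 0 := by
  classical
  intro h0
  rw [mk_eq_zero] at h0
  by_cases hi : i = i0
  · subst hi
    have h1 : (MvPolynomial.X (i, j) : Coord ι 2) = inFactor 2 i (MvPolynomial.X j) := by
      rw [inFactor, rename_X]
    rw [h1, ← Ideal.mem_span_singleton, inFactor_zero_iff] at h0
    exact hj h0
  · obtain ⟨c, hc⟩ := h0
    have h1 := congrArg (eval₂Hom (C : ℂ →+* MvPolynomial ι ℂ)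
      (fun v : Fin 2 × ι => if v.1 = i0 then MvPolynomial.X v.2 else 1)) hc
    rw [map_mul, map_inFactor, eval₂Hom_X', if_neg hi] at h1
    have h3 : cs (eval₂Hom (C : ℂ →+* MvPolynomial ι ℂ)
        (fun v : Fin 2 × ι => if v.1 = i0 then MvPolynomial.X v.2 else 1)) = C := by
      refine RingHom.ext fun a => ?_
      simp [cs]
    have h4 : xs (eval₂Hom (C : ℂ →+* MvPolynomial ι ℂ)
        (fun v : Fin 2 × ι => if v.1 = i0 then MvPolynomial.X v.2 else 1)) i0 =
        MvPolynomial.X := by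
      funext j
      simp [xs]
    rw [h3, h4] at h1
    have h5 : eval₂Hom (C : ℂ →+* MvPolynomial ι ℂ) MvPolynomial.X h = h :=
      MvPolynomial.eval₂_eta h
    rw [h5] at h1
    exact hp.not_isUnit (IsUnit.of_mul_eq_one _ h1.symm)

/-- the homomorphism from the ring of the pairs with `h = 0` given by values -/
lemma exists_liftD {L : Type} [CommRing L] (i0 : Fin 2) (h : MvPolynomial ι ℂ) (c : ℂ →+* L)
    (u : Fin 2 × ι → L) (h0 : eval₂Hom c (fun j => u (i0, j)) h = 0) :
    ∃ γ : RD i0 h →+* L, (∀ a, γ (algebraMap ℂ (RD i0 h) a) = c a) ∧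
      ∀ v, γ (mk i0 h (MvPolynomial.X v)) = u v := by
  have hF : ∀ p ∈ Ideal.span {inFactor 2 i0 h}, eval₂Hom c u p = 0 := by
    intro p hp
    obtain ⟨q, rfl⟩ := Ideal.mem_span_singleton'.1 hp
    have h1 : cs (eval₂Hom c u) = c := by
      refine RingHom.ext fun a => ?_
      simp [cs]
    have h2 : xs (eval₂Hom c u) i0 = fun j => u (i0, j) := by
      funext j
      simp [xs]
    rw [map_mul, map_inFactor, h1, h2, h0, mul_zero]
  refine ⟨Ideal.Quotient.lift _ (eval₂Hom c u) hF, ?_, ?_⟩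
  · intro a
    have h1 : algebraMap ℂ (RD i0 h) a = Ideal.Quotient.mk _ (C a) := rfl
    rw [h1, Ideal.Quotient.lift_mk]
    simp
  · intro v
    rw [mk, Ideal.Quotient.lift_mk]
    simp

variable [DecidableEq ι]

/-- the coordinates of the generic pair of proportional points -/
noncomputable def dD (i0 : Fin 2) (K Fr : Finset ι) (h : MvPolynomial ι ℂ) (v : Fin 2 × ι) :
    RD i0 h :=
  if v.2 ∈ K then 0 else if v.2 ∈ Fr then mk i0 h (MvPolynomial.X v) else
    mk i0 h (MvPolynomial.X (i0, v.2))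

/-- the coordinates of the generic pair of a point on `h = 0` and a point of a linear space -/
noncomputable def dE (i0 : Fin 2) (A K : Finset ι) (h : MvPolynomial ι ℂ) (v : Fin 2 × ι) :
    RD i0 h :=
  if v.1 = i0 then (if v.2 ∈ K then 0 else mk i0 h (MvPolynomial.X v))
    else (if v.2 ∈ A then mk i0 h (MvPolynomial.X v) else 0)

/-- other coordinates for the generic pair of points with killed coordinates zero, the second on
`h = 0`, and with proportional coordinates outside of `K` and `Fr`: the factor of proportionality is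
the value of the coordinate `X (0, s)` and need not be a unit -/
noncomputable def dL (K Fr : Finset ι) (s : ι) (h : MvPolynomial ι ℂ) (v : Fin 2 × ι) : RD 1 h :=
  if v.2 ∈ K then 0 else if v.1 = 1 then mk 1 h (MvPolynomial.X v) else
    if v.2 ∈ Fr then mk 1 h (MvPolynomial.X v) else
      mk 1 h (MvPolynomial.X (0, s) * MvPolynomial.X (1, v.2))

/-- the set of the coordinates in a finite set -/
def XS (K : Finset ι) : Set (MvPolynomial ι ℂ) := {p | ∃ j ∈ K, p = MvPolynomial.X j}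

/-- the equations `h = 0` and `x_j = 0` for `j` in `K` define a subvariety of `F = 0` which is not
empty, and `h` does not involve the coordinates in `K` and `Fr` -/
structure Adm (F : MvPolynomial ι ℂ) (K Fr : Finset ι) (h : MvPolynomial ι ℂ) : Prop where
  prime : Prime h
  vK : ∀ j ∈ h.vars, j ∉ K
  vF : ∀ j ∈ h.vars, j ∉ Fr
  mem : F ∈ Ideal.span (XS K ∪ {h})
  rel : ∃ j, j ∉ K ∧ ¬ h ∣ MvPolynomial.X j

/-- the same, and `F` vanishes when the coordinates outside of `A` are zero -/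
structure AdmE (F : MvPolynomial ι ℂ) (A K : Finset ι) (h : MvPolynomial ι ℂ) : Prop where
  prime : Prime h
  vK : ∀ j ∈ h.vars, j ∉ K
  mem : F ∈ Ideal.span (XS K ∪ {h})
  rel : ∃ j, j ∉ K ∧ ¬ h ∣ MvPolynomial.X j
  memA : F ∈ Ideal.span {p : MvPolynomial ι ℂ | ∃ j ∉ A, p = MvPolynomial.X j}
  ne : A.Nonempty

omit [DecidableEq ι] in
lemma h_main (i0 : Fin 2) (h : MvPolynomial ι ℂ) :
    eval₂Hom (algebraMap ℂ (RD i0 h)) (fun j => mk i0 h (MvPolynomial.X (i0, j))) h = 0 := by
  have h1 := map_inFactor (mk i0 h) i0 h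
  have h2 : mk i0 h (inFactor 2 i0 h) = 0 := (mk_eq_zero i0 h _).2 dvd_rfl
  rw [h2] at h1
  exact h1.symm

lemma h_dD {F : MvPolynomial ι ℂ} {K Fr : Finset ι} {h : MvPolynomial ι ℂ} (ad : Adm F K Fr h)
    (i0 i : Fin 2) :
    eval₂Hom (algebraMap ℂ (RD i0 h)) (fun j => dD i0 K Fr h (i, j)) h = 0 := by
  rw [← h_main i0 h]
  refine ev_congr _ _ fun j hj => ?_
  simp only [dD]
  rw [if_neg (ad.vK j hj), if_neg (ad.vF j hj)]

lemma F_dD {F : MvPolynomial ι ℂ} {K Fr : Finset ι} {h : MvPolynomial ι ℂ} (ad : Adm F K Fr h)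
    (i0 i : Fin 2) :
    eval₂Hom (algebraMap ℂ (RD i0 h)) (fun j => dD i0 K Fr h (i, j)) F = 0 := by
  refine ev_eq_zero_of_mem _ _ ad.mem ?_
  rintro p (⟨j, hj, rfl⟩ | hp)
  · rw [eval₂Hom_X']
    exact if_pos hj
  · rw [Set.mem_singleton_iff.1 hp]
    exact h_dD ad i0 i

lemma F_dE {F : MvPolynomial ι ℂ} {A K : Finset ι} {h : MvPolynomial ι ℂ} (ad : AdmE F A K h)
    (i0 i : Fin 2) :
    eval₂Hom (algebraMap ℂ (RD i0 h)) (fun j => dE i0 A K h (i, j)) F = 0 := by
  by_cases hi : i = i0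
  · subst hi
    refine ev_eq_zero_of_mem _ _ ad.mem ?_
    rintro p (⟨j, hj, rfl⟩ | hp)
    · rw [eval₂Hom_X']
      exact (if_pos rfl).trans (if_pos hj)
    · rw [Set.mem_singleton_iff.1 hp, ← h_main i h]
      refine ev_congr _ _ fun j hj => ?_
      exact (if_pos rfl).trans (if_neg (ad.vK j hj))
  · refine ev_eq_zero_of_mem _ _ ad.memA ?_
    rintro p ⟨j, hj, rfl⟩
    rw [eval₂Hom_X']
    exact (if_neg hi).trans (if_neg hj)

/-- the point of the proportional pairs -/
noncomputable def Dpt {F : MvPolynomial ι ℂ} {n : ℕ} (hF : F.IsHomogeneous n) {K Fr : Finset ι}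
    {h : MvPolynomial ι ℂ} (ad : Adm F K Fr h) : Pt (hyp F) 2 :=
  haveI := isDomain_RD 1 ad.prime
  pt hF (dD 1 K Fr h) (fun i => by
    obtain ⟨j, hjK, hj⟩ := ad.rel
    refine ⟨j, ?_⟩
    rw [dD, if_neg hjK]
    split_ifs
    · exact mk_X_ne 1 i ad.prime hj
    · exact mk_X_ne 1 1 ad.prime hj) (fun i => F_dD ad 1 i)

/-- the point of the pairs of a point on `h = 0` (for the factor `i0`) and a point of a linear
space -/
noncomputable def Ept {F : MvPolynomial ι ℂ} {n : ℕ} (hF : F.IsHomogeneous n) {A K : Finset ι}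
    {h : MvPolynomial ι ℂ} (i0 : Fin 2) (ad : AdmE F A K h) : Pt (hyp F) 2 :=
  haveI := isDomain_RD i0 ad.prime
  pt hF (dE i0 A K h) (fun i => by
    by_cases hi : i = i0
    · obtain ⟨j, hjK, hj⟩ := ad.rel
      refine ⟨j, ?_⟩
      rw [dE, if_pos hi, if_neg hjK]
      exact mk_X_ne i0 i ad.prime hj
    · obtain ⟨j, hj⟩ := ad.ne
      refine ⟨j, ?_⟩
      rw [dE, if_neg hi, if_pos hj]
      intro h0
      rw [mk_eq_zero] at h0
      have h1 : ¬ (inFactor 2 i0 h ∣ (MvPolynomial.X (i, j) : Coord ι 2)) := by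
        intro h2
        obtain ⟨c, hc⟩ := h2
        have h1 := congrArg (eval₂Hom (C : ℂ →+* MvPolynomial ι ℂ)
          (fun v : Fin 2 × ι => if v.1 = i0 then MvPolynomial.X v.2 else 1)) hc
        rw [map_mul, map_inFactor, eval₂Hom_X', if_neg hi] at h1
        have h3 : cs (eval₂Hom (C : ℂ →+* MvPolynomial ι ℂ)
            (fun v : Fin 2 × ι => if v.1 = i0 then MvPolynomial.X v.2 else 1)) = C := by
          refine RingHom.ext fun a => ?_
          simp [cs]
        have h4 : xs (eval₂Hom (C : ℂ →+* MvPolynomial ι ℂ)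
            (fun v : Fin 2 × ι => if v.1 = i0 then MvPolynomial.X v.2 else 1)) i0 =
            MvPolynomial.X := by
          funext j
          simp [xs]
        rw [h3, h4] at h1
        have h5 : eval₂Hom (C : ℂ →+* MvPolynomial ι ℂ) MvPolynomial.X h = h :=
          MvPolynomial.eval₂_eta h
        rw [h5] at h1
        exact ad.prime.not_isUnit (IsUnit.of_mul_eq_one _ h1.symm)
      exact h1 h0) (fun i => F_dE ad i0 i)

/-! ### Killing the ideals of the points -/

section kill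

variable {F : MvPolynomial ι ℂ} {K Fr A : Finset ι} {h : MvPolynomial ι ℂ} {L : Type} [CommRing L]
  (φ : Coord ι 2 →+* L)

/-- main factor `i0`, the other factor is `i1` -/
lemma kill_dD (i0 i1 : Fin 2) (h01 : i0 ≠ i1) (w : L) (hw : IsUnit w)
    (hK : ∀ i, ∀ j ∈ K, xs φ i j = 0) (h0 : eval₂Hom (cs φ) (xs φ i0) h = 0)
    (hpr : ∀ j, j ∉ K → j ∉ Fr → xs φ i1 j = xs φ i0 j * w) {z : Coord ι 2}
    (hz : z ∈ genIdeal (hyp F) (dD i0 K Fr h)) : φ z = 0 := by
  obtain ⟨u, rfl⟩ := hw
  let U : Fin 2 × ι → L := fun v => if v.1 = i0 then xs φ i0 v.2 else xs φ i1 v.2 * ↑u⁻¹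
  have hU : eval₂Hom (cs φ) (fun j => U (i0, j)) h = 0 := by
    rw [← h0]
    refine ev_congr _ _ fun j _ => ?_
    exact if_pos rfl
  obtain ⟨γ, hγ1, hγ2⟩ := exists_liftD i0 h (cs φ) U hU
  refine kill_gen F (dD i0 K Fr h) φ γ (fun i => if i = i0 then 1 else ↑u) hγ1 ?_ hz
  intro i j
  by_cases hjK : j ∈ K
  · rw [hK i j hjK]
    simp only [dD]
    rw [if_pos hjK, map_zero, zero_mul]
  · by_cases hjF : j ∈ Fr
    · simp only [dD]
      rw [if_neg hjK, if_pos hjF, hγ2]
      by_cases hi : i = i0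
      · subst hi
        simp [U]
      · have hi1 : i = i1 := by omega
        subst hi1
        simp only [U]
        rw [if_neg hi, if_neg hi, mul_assoc, Units.inv_mul, mul_one]
    · simp only [dD]
      rw [if_neg hjK, if_neg hjF, hγ2]
      by_cases hi : i = i0
      · subst hi
        simp [U]
      · have hi1 : i = i1 := by omega
        subst hi1
        simp only [U]
        rw [if_neg hi, if_pos trivial]
        exact hpr j hjK hjF

/-- main factor `i0`, the other factor is `i1` -/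
lemma kill_dE (i0 i1 : Fin 2) (h01 : i0 ≠ i1) (hK : ∀ j ∈ K, xs φ i0 j = 0)
    (hA : ∀ j, j ∉ A → xs φ i1 j = 0) (h0 : eval₂Hom (cs φ) (xs φ i0) h = 0) {z : Coord ι 2}
    (hz : z ∈ genIdeal (hyp F) (dE i0 A K h)) : φ z = 0 := by
  obtain ⟨γ, hγ1, hγ2⟩ := exists_liftD i0 h (cs φ) (fun v => xs φ v.1 v.2) h0
  refine kill_gen F (dE i0 A K h) φ γ (fun _ => 1) hγ1 ?_ hz
  intro i j
  rw [mul_one]
  simp only [dE]
  by_cases hi : i = i0
  · subst hi
    rw [if_pos rfl]
    by_cases hjK : j ∈ K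
    · rw [if_pos hjK, map_zero]
      exact hK j hjK
    · rw [if_neg hjK, hγ2]
  · have hi1 : i = i1 := by omega
    subst hi1
    rw [if_neg hi]
    by_cases hjA : j ∈ A
    · rw [if_pos hjA, hγ2]
    · rw [if_neg hjA, map_zero]
      exact hA j hjA

lemma kill_dL (s : ι) (hs : s ∉ Fr) (w : L) (hK : ∀ i, ∀ j ∈ K, xs φ i j = 0)
    (h0 : eval₂Hom (cs φ) (xs φ 1) h = 0)
    (hpr : ∀ j, j ∉ K → j ∉ Fr → xs φ 0 j = w * xs φ 1 j) {z : Coord ι 2}
    (hz : z ∈ genIdeal (hyp F) (dL K Fr s h)) : φ z = 0 := by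
  let U : Fin 2 × ι → L := fun v => if v.1 = 1 then xs φ 1 v.2 else
    if v.2 = s then w else xs φ 0 v.2
  have hU : eval₂Hom (cs φ) (fun j => U (1, j)) h = 0 := by
    rw [← h0]
    refine ev_congr _ _ fun j _ => ?_
    exact if_pos rfl
  obtain ⟨γ, hγ1, hγ2⟩ := exists_liftD 1 h (cs φ) U hU
  refine kill_gen F (dL K Fr s h) φ γ (fun _ => 1) hγ1 ?_ hz
  intro i j
  rw [mul_one]
  simp only [dL]
  by_cases hjK : j ∈ K
  · rw [if_pos hjK, map_zero]
    exact hK i j hjK
  · rw [if_neg hjK]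
    by_cases hi : i = 1
    · subst hi
      rw [if_pos rfl, hγ2]
      exact (if_pos rfl).symm
    · have hi0 : i = 0 := by omega
      subst hi0
      rw [if_neg hi]
      by_cases hjF : j ∈ Fr
      · rw [if_pos hjF, hγ2]
        have hjs : j ≠ s := fun h => hs (h ▸ hjF)
        exact ((if_neg hi).trans (if_neg hjs)).symm
      · rw [if_neg hjF, map_mul, map_mul, hγ2, hγ2]
        have h1 : U (0, s) = w := (if_neg hi).trans (if_pos rfl)
        have h2 : U (1, j) = xs φ 1 j := if_pos rfl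
        rw [h1, h2]
        exact hpr j hjK hjF

end kill

lemma Dpt_I {F : MvPolynomial ι ℂ} {n : ℕ} (hF : F.IsHomogeneous n) {K Fr : Finset ι}
    {h : MvPolynomial ι ℂ} (ad : Adm F K Fr h) :
    (Dpt hF ad).I = genIdeal (hyp F) (dD 1 K Fr h) := rfl

lemma Ept_I {F : MvPolynomial ι ℂ} {n : ℕ} (hF : F.IsHomogeneous n) {A K : Finset ι}
    {h : MvPolynomial ι ℂ} (i0 : Fin 2) (ad : AdmE F A K h) :
    (Ept hF i0 ad).I = genIdeal (hyp F) (dE i0 A K h) := rfl

end Kp

end Pool.Agent.RCH
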