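import Pool.Agent.RCH.Defs

/-!
# The Chow groups of powers of a weighted projective variety, with the orders of vanishing computed
# in the local rings of the varieties
-/

set_option autoImplicit false

open MvPolynomial

namespace Pool.Agent.RCH

variable {ι : Type} (X : WVar ι)

/-- The ring structure of the ring of fractions of `R / I` (its field of fractions, if `I` is
prime). -/
@[reducible] noncomputable def fracRing {R : Type} [CommRing R] (I : Ideal R) :
    CommRing (FractionRing (R ⧸ I)) :=
  inferInstance

/-- The homomorphism from `R` to the ring of fractions of `R / I`. -/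
noncomputable def fracHom {R : Type} [CommRing R] (I : Ideal R) : R →+* FractionRing (R ⧸ I) :=
  (algebraMap (R ⧸ I) (FractionRing (R ⧸ I))).comp (Ideal.Quotient.mk I)

/-- The field of fractions of the ring of the coordinates of `P`. -/
def FracField {N : ℕ} (P : Pt X N) : Type := FractionRing (Coord ι N ⧸ P.I)

noncomputable instance {N : ℕ} (P : Pt X N) : CommRing (FracField X P) := fracRing P.I

/-- The class of a polynomial in the field of fractions of the ring of the coordinates of `P`. -/
noncomputable def frac {N : ℕ} (P : Pt X N) : Coord ι N →+* FracField X P := fracHom P.I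

/-- The local ring at `Q` of the integral subscheme `P` of `X^N`, a subring of its function field:
the quotients `a / s` of multihomogeneous elements of the same multidegree, with `s` not in `Q`. -/
noncomputable def localRing {N : ℕ} (P Q : Pt X N) : Subring (FracField X P) where
  carrier := {x | ∃ (e : Fin N → ℕ) (a s : Coord ι N), IsWeightedHomogeneous (X.mdeg N) a e ∧
    IsWeightedHomogeneous (X.mdeg N) s e ∧ s ∉ Q.I ∧ x * frac X P s = frac X P a}
  mul_mem' := by
    rintro x y ⟨e, a, s, ha, hs, hsQ, hx⟩ ⟨e', b, t, hb, ht, htQ, hy⟩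
    refine ⟨e + e', a * b, s * t, ha.mul hb, hs.mul ht,
      fun h => (Q.prime.mem_or_mem h).elim hsQ htQ, ?_⟩
    rw [map_mul, map_mul, ← hx, ← hy]
    ring
  one_mem' := ⟨0, 1, 1, isWeightedHomogeneous_one _ _, isWeightedHomogeneous_one _ _,
    fun h => Q.prime.ne_top ((Ideal.eq_top_iff_one Q.I).2 h), by rw [one_mul]⟩
  add_mem' := by
    rintro x y ⟨e, a, s, ha, hs, hsQ, hx⟩ ⟨e', b, t, hb, ht, htQ, hy⟩
    refine ⟨e + e', a * t + s * b, s * t, (ha.mul ht).add (hs.mul hb), hs.mul ht,
      fun h => (Q.prime.mem_or_mem h).elim hsQ htQ, ?_⟩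
    rw [map_add, map_mul, map_mul, map_mul, ← hx, ← hy]
    ring
  zero_mem' := ⟨0, 0, 1, isWeightedHomogeneous_zero _ _ _, isWeightedHomogeneous_one _ _,
    fun h => Q.prime.ne_top ((Ideal.eq_top_iff_one Q.I).2 h), by simp⟩
  neg_mem' := by
    rintro x ⟨e, a, s, ha, hs, hsQ, hx⟩
    exact ⟨e, -a, s, (weightedHomogeneousSubmodule ℂ (X.mdeg N) e).neg_mem ha, hs, hsQ, by
      rw [map_neg, ← hx, neg_mul]⟩

/-- The length of the ring `R` modulo `u`. -/
noncomputable def quotLength (R : Type) [CommRing R] (u : R) : ℕ∞ :=
  Module.length R (R ⧸ Ideal.span {u})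

/-- The order of vanishing at `Q` of an element `u` of the local ring of `P` at `Q`: the length of
the local ring modulo `u`. -/
noncomputable def ordIn {N : ℕ} {P Q : Pt X N} (u : localRing X P Q) : ℕ∞ :=
  quotLength (localRing X P Q) u

/-- `c` is the divisor of the rational function `g / h` on the integral subscheme `P` of `X^N`: its
coefficient at a point `Q` of codimension one of `P` is the difference of the orders of vanishing of
`u` and `v`, for `g / h = u / v` with `u` and `v` in the local ring of `P` at `Q`. -/
def IsDiv {N : ℕ} (P : Pt X N) (g h : Coord ι N) (c : Cycles X N) : Prop :=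
  ∀ Q : Pt X N, (CodimOne P.I Q.I → ∃ u v : localRing X P Q, u ≠ 0 ∧ v ≠ 0 ∧
      frac X P g * v = frac X P h * u ∧
      c Q = ((ordIn X u).toNat : ℤ) - ((ordIn X v).toNat : ℤ)) ∧
    (¬ CodimOne P.I Q.I → c Q = 0)

/-- The cycles on `X^N` rationally equivalent to zero: the group generated by the divisors of the
rational functions `g / h` on the integral subschemes of `X^N`, with `g` and `h` multihomogeneous of
the same multidegree. -/
noncomputable def RatEq (N : ℕ) : AddSubgroup (Cycles X N) :=
  AddSubgroup.closure {c | ∃ (P : Pt X N) (g h : Coord ι N) (e : Fin N → ℕ),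
    IsWeightedHomogeneous (X.mdeg N) g e ∧ IsWeightedHomogeneous (X.mdeg N) h e ∧
    g ∉ P.I ∧ h ∉ P.I ∧ IsDiv X P g h c}

/-- The cycle `a` on `X` is smash-nilpotent: some exterior power of `a` has a nonzero multiple
rationally equivalent to zero. -/
def IsSmashNilpotent (a : Cycles X 1) : Prop :=
  ∃ N : ℕ, 1 ≤ N ∧ ∃ k : ℕ, 1 ≤ k ∧ k • extPow X a N ∈ RatEq X N

end Pool.Agent.RCH
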