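import Mathlib

/-!
# The length of the cokernel of a square matrix over a one-dimensional domain
-/

set_option autoImplicit false

namespace Pool.Agent.RCH.Lat

open Module

section cok

variable {A : Type*} [CommRing A] {M N P : Type*} [AddCommGroup M] [Module A M]
  [AddCommGroup N] [Module A N] [AddCommGroup P] [Module A P]

/-- the length of the cokernel of a linear map -/
noncomputable def cok (φ : M →ₗ[A] N) : ℕ∞ := Module.length A (N ⧸ LinearMap.range φ)

/-- the length of the kernel of a linear map -/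
noncomputable def krl (φ : M →ₗ[A] N) : ℕ∞ := Module.length A (LinearMap.ker φ)

lemma krl_of_injective (φ : M →ₗ[A] N) (h : Function.Injective φ) : krl φ = 0 := by
  unfold krl
  rw [LinearMap.ker_eq_bot.mpr h]
  exact Module.length_bot

lemma cok_of_surjective (φ : M →ₗ[A] N) (h : Function.Surjective φ) : cok φ = 0 := by
  unfold cok
  rw [Module.length_eq_zero_iff, Submodule.Quotient.subsingleton_iff]
  exact LinearMap.range_eq_top.mpr h

/-- the cokernel of a composition -/
theorem cok_comp (φ : N →ₗ[A] P) (ψ : M →ₗ[A] N) (hφ : Function.Injective φ) :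
    cok (φ ∘ₗ ψ) = cok φ + cok ψ := by
  unfold cok
  have h1 : LinearMap.range ψ ≤ (LinearMap.range (φ ∘ₗ ψ)).comap φ := by
    rintro _ ⟨x, rfl⟩
    exact ⟨x, rfl⟩
  have h2 : LinearMap.range (φ ∘ₗ ψ) ≤ (LinearMap.range φ).comap LinearMap.id := by
    rintro _ ⟨x, rfl⟩
    exact ⟨ψ x, rfl⟩
  rw [add_comm]
  refine Module.length_eq_add_of_exact (Submodule.mapQ _ _ φ h1)
    (Submodule.mapQ _ _ LinearMap.id h2) ?_ ?_ ?_
  · rw [← LinearMap.ker_eq_bot, LinearMap.ker_eq_bot']
    intro x hx
    obtain ⟨x, rfl⟩ := Submodule.Quotient.mk_surjective _ x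
    rw [Submodule.mapQ_apply, Submodule.Quotient.mk_eq_zero] at hx
    obtain ⟨y, hy⟩ := hx
    rw [Submodule.Quotient.mk_eq_zero]
    exact ⟨y, hφ hy⟩
  · intro y
    obtain ⟨y, rfl⟩ := Submodule.Quotient.mk_surjective _ y
    exact ⟨Submodule.Quotient.mk y, rfl⟩
  · rw [LinearMap.exact_iff]
    ext x
    obtain ⟨x, rfl⟩ := Submodule.Quotient.mk_surjective _ x
    rw [LinearMap.mem_ker, LinearMap.mem_range, Submodule.mapQ_apply,
      Submodule.Quotient.mk_eq_zero]
    constructor
    · rintro ⟨y, hy⟩
      refine ⟨Submodule.Quotient.mk y, ?_⟩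
      rw [Submodule.mapQ_apply, hy]
      rfl
    · rintro ⟨y, hy⟩
      obtain ⟨y, rfl⟩ := Submodule.Quotient.mk_surjective _ y
      rw [Submodule.mapQ_apply, Submodule.Quotient.eq] at hy
      obtain ⟨z, hz⟩ := hy
      refine ⟨y - ψ z, ?_⟩
      rw [map_sub]
      have hz' : φ (ψ z) = φ y - x := hz
      rw [hz']
      simp

/-- maps which agree up to isomorphisms of the sources and of the targets -/
theorem cok_equiv {M' N' : Type*} [AddCommGroup M'] [Module A M'] [AddCommGroup N'] [Module A N']
    (e : M ≃ₗ[A] M') (f : N ≃ₗ[A] N')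
    (φ : M →ₗ[A] N) (φ' : M' →ₗ[A] N') (h : ∀ m, f (φ m) = φ' (e m)) : cok φ = cok φ' := by
  unfold cok
  refine (Submodule.Quotient.equiv _ _ f ?_).length_eq
  ext x
  constructor
  · rintro ⟨_, ⟨m, rfl⟩, rfl⟩
    exact ⟨e m, (h m).symm⟩
  · rintro ⟨m, rfl⟩
    refine ⟨φ (e.symm m), ⟨_, rfl⟩, ?_⟩
    have := h (e.symm m)
    rw [e.apply_symm_apply] at this
    exact this

theorem krl_equiv {M' N' : Type*} [AddCommGroup M'] [Module A M'] [AddCommGroup N'] [Module A N']
    (e : M ≃ₗ[A] M') (f : N ≃ₗ[A] N')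
    (φ : M →ₗ[A] N) (φ' : M' →ₗ[A] N') (h : ∀ m, f (φ m) = φ' (e m)) : krl φ = krl φ' := by
  unfold krl
  refine (e.submoduleMap (LinearMap.ker φ)).length_eq.trans ?_
  have h1 : (LinearMap.ker φ).map (e : M →ₗ[A] M') = LinearMap.ker φ' := by
    ext x
    constructor
    · rintro ⟨y, hy, rfl⟩
      have hy' : φ y = 0 := hy
      change φ' (e y) = 0
      rw [← h, hy', map_zero]
    · intro hx
      have hx' : φ' x = 0 := hx
      refine ⟨e.symm x, ?_, by simp⟩
      change φ (e.symm x) = 0
      apply f.injective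
      rw [h, e.apply_symm_apply, hx', map_zero]
  exact (LinearEquiv.ofEq _ _ h1).length_eq

end cok

section matrix

variable {A : Type*} [CommRing A] {n : Type*} [Fintype n] [DecidableEq n]

lemma mulVecLin_injective [IsDomain A] (M : Matrix n n A) (hM : M.det ≠ 0) :
    Function.Injective M.mulVecLin := by
  rw [← LinearMap.ker_eq_bot, LinearMap.ker_eq_bot']
  intro v hv
  by_contra hne
  exact hM (Matrix.exists_mulVec_eq_zero_iff.mp ⟨v, hne, hv⟩)

lemma cok_mul [IsDomain A] (M N : Matrix n n A) (hM : M.det ≠ 0) :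
    cok (M * N).mulVecLin = cok M.mulVecLin + cok N.mulVecLin := by
  rw [Matrix.mulVecLin_mul]
  exact cok_comp _ _ (mulVecLin_injective M hM)

lemma cok_isUnit (M : Matrix n n A) (hM : IsUnit M) : cok M.mulVecLin = 0 := by
  apply cok_of_surjective
  obtain ⟨u, rfl⟩ := hM
  intro v
  refine ⟨(↑u⁻¹ : Matrix n n A).mulVec v, ?_⟩
  rw [Matrix.mulVecLin_apply, Matrix.mulVec_mulVec, Units.mul_inv, Matrix.one_mulVec]

/-- diagonal matrices -/
lemma cok_diagonal (d : n → A) :
    cok (Matrix.diagonal d).mulVecLin = ∑ i, Ring.ord A (d i) := by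
  unfold cok Ring.ord
  rw [← Module.length_pi_of_fintype]
  have h1 : LinearMap.range (Matrix.diagonal d).mulVecLin =
      Submodule.pi Set.univ (fun i => Ideal.span {d i}) := by
    ext x
    rw [LinearMap.mem_range, Submodule.mem_pi]
    constructor
    · rintro ⟨y, rfl⟩ i _
      rw [Matrix.mulVecLin_apply, Matrix.mulVec_diagonal, mul_comm]
      exact Ideal.mem_span_singleton'.mpr ⟨y i, rfl⟩
    · intro h
      have h2 : ∀ i, ∃ a, a * d i = x i := fun i => Ideal.mem_span_singleton'.mp (h i trivial)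
      choose y hy using h2
      refine ⟨y, ?_⟩
      ext i
      rw [Matrix.mulVecLin_apply, Matrix.mulVec_diagonal, mul_comm, hy]
  rw [h1]
  exact (Submodule.quotientPi (fun i => Ideal.span {d i})).length_eq

end matrix

section field

variable {A : Type*} [CommRing A] [IsDomain A] [IsNoetherianRing A] [Ring.KrullDimLE 1 A]
  {K : Type*} [Field K] [Algebra A K] [IsFractionRing A K]
  {n : Type*} [Fintype n] [DecidableEq n]

omit [IsNoetherianRing A] [Ring.KrullDimLE 1 A] [Fintype n] in
lemma ord_prod (s : Finset n) (a : n → A) (ha : ∀ i ∈ s, a i ≠ 0) :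
    Ring.ord A (∏ i ∈ s, a i) = ∑ i ∈ s, Ring.ord A (a i) := by
  induction s using Finset.induction_on with
  | empty => simp
  | insert i s his ih =>
    rw [Finset.prod_insert his, Finset.sum_insert his, Ring.ord_mul,
      ih (fun j hj => ha j (Finset.mem_insert_of_mem hj))]
    exact mem_nonZeroDivisors_of_ne_zero
      (Finset.prod_ne_zero_iff.mpr (fun j hj => ha j (Finset.mem_insert_of_mem hj)))

/-- a matrix over the fraction field for which the formula holds -/
def Good (A : Type*) [CommRing A] {K : Type*} [Field K] [Algebra A K]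
    {n : Type*} [Fintype n] [DecidableEq n] (g : Matrix n n K) : Prop :=
  ∃ (M : Matrix n n A) (c : A), c ≠ 0 ∧ M.map (algebraMap A K) = algebraMap A K c • g ∧
    cok M.mulVecLin = Ring.ord A M.det

omit [IsDomain A] [IsNoetherianRing A] [Ring.KrullDimLE 1 A] in
lemma det_ne_zero_of_map {M : Matrix n n A} {c : A} {g : Matrix n n K} (hc : c ≠ 0)
    (h : M.map (algebraMap A K) = algebraMap A K c • g) (hg : g.det ≠ 0) : M.det ≠ 0 := by
  intro h0
  have h1 : (M.map (algebraMap A K)).det = 0 := by
    have := (algebraMap A K).map_det M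
    rw [h0, map_zero] at this
    exact this.symm
  rw [h, Matrix.det_smul, mul_eq_zero] at h1
  rcases h1 with h1 | h1
  · have h3 : algebraMap A K c ≠ 0 := by
      rw [Ne, FaithfulSMul.algebraMap_eq_zero_iff]
      exact hc
    exact pow_ne_zero _ h3 h1
  · exact hg h1

omit [IsNoetherianRing A] [Ring.KrullDimLE 1 A] in
lemma Good.mul {g h : Matrix n n K} (hg : g.det ≠ 0) (hh : h.det ≠ 0) (h1 : Good A g)
    (h2 : Good A h) : Good A (g * h) := by
  obtain ⟨M, c, hc, hM, hM1⟩ := h1
  obtain ⟨N, d, hd, hN, hN1⟩ := h2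
  refine ⟨M * N, c * d, mul_ne_zero hc hd, ?_, ?_⟩
  · rw [Matrix.map_mul, hM, hN, map_mul, Matrix.smul_mul, Matrix.mul_smul, smul_smul]
  · rw [cok_mul M N (det_ne_zero_of_map hc hM hg), hM1, hN1, Matrix.det_mul, Ring.ord_mul]
    exact mem_nonZeroDivisors_of_ne_zero (det_ne_zero_of_map hd hN hh)

omit [IsNoetherianRing A] [Ring.KrullDimLE 1 A] in
lemma Good.diagonal (d : n → K) (hd : (Matrix.diagonal d).det ≠ 0) :
    Good A (Matrix.diagonal d) := by
  obtain ⟨b, hb⟩ := IsLocalization.exist_integer_multiples_of_finite (nonZeroDivisors A) d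
  choose a ha using hb
  have hb0 : (b : A) ≠ 0 := nonZeroDivisors.coe_ne_zero b
  have hbK : algebraMap A K (b : A) ≠ 0 := by
    rw [Ne, FaithfulSMul.algebraMap_eq_zero_iff]
    exact hb0
  have hd' : ∀ i, d i ≠ 0 := by
    rw [Matrix.det_diagonal, Finset.prod_ne_zero_iff] at hd
    exact fun i => hd i (Finset.mem_univ i)
  have ha' : ∀ i, a i ≠ 0 := by
    intro i hi
    have h1 := ha i
    rw [hi, map_zero, Algebra.smul_def] at h1
    exact mul_ne_zero hbK (hd' i) h1.symm
  refine ⟨Matrix.diagonal a, b, hb0, ?_, ?_⟩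
  · rw [Matrix.diagonal_map (map_zero _), ← Matrix.diagonal_smul]
    congr 1
    ext i
    rw [ha i, Algebra.smul_def, Pi.smul_apply, smul_eq_mul]
  · rw [cok_diagonal, Matrix.det_diagonal, ord_prod _ _ (fun i _ => ha' i)]

omit [IsDomain A] [IsNoetherianRing A] [Ring.KrullDimLE 1 A] [IsFractionRing A K] in
lemma Good.transvection_int [Nontrivial A] (i j : n) (hij : i ≠ j) (a : A) :
    Good A (Matrix.transvection i j (algebraMap A K a)) := by
  refine ⟨Matrix.transvection i j a, 1, one_ne_zero, ?_, ?_⟩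
  · rw [map_one, one_smul]
    ext k l
    simp only [Matrix.transvection, Matrix.map_apply, Matrix.add_apply, Matrix.one_apply,
      Matrix.single_apply]
    split_ifs <;> simp
  · have hu : IsUnit (Matrix.transvection i j a) := by
      rw [Matrix.isUnit_iff_isUnit_det, Matrix.det_transvection_of_ne i j hij]
      exact isUnit_one
    rw [cok_isUnit _ hu, Matrix.det_transvection_of_ne i j hij, Ring.ord_one]

omit [IsNoetherianRing A] [Ring.KrullDimLE 1 A] in
lemma Good.transvection (i j : n) (hij : i ≠ j) (x : K) :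
    Good A (Matrix.transvection i j x) := by
  obtain ⟨a, b, hb, rfl⟩ := IsFractionRing.div_surjective (A := A) x
  have hbK : algebraMap A K b ≠ 0 := by
    rw [Ne, FaithfulSMul.algebraMap_eq_zero_iff]
    exact nonZeroDivisors.ne_zero hb
  set B : K := algebraMap A K b with hB
  set D : n → K := Function.update 1 i B with hD
  set D' : n → K := Function.update 1 i B⁻¹ with hD'
  have h0 : ∀ k, D k ≠ 0 := by
    intro k
    rw [hD, Function.update_apply]
    split_ifs
    · exact hbK
    · exact one_ne_zero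
  have h0' : ∀ k, D' k ≠ 0 := by
    intro k
    rw [hD', Function.update_apply]
    split_ifs
    · exact inv_ne_zero hbK
    · exact one_ne_zero
  have hdD : (Matrix.diagonal D).det ≠ 0 := by
    rw [Matrix.det_diagonal]
    exact Finset.prod_ne_zero_iff.mpr (fun k _ => h0 k)
  have hdD' : (Matrix.diagonal D').det ≠ 0 := by
    rw [Matrix.det_diagonal]
    exact Finset.prod_ne_zero_iff.mpr (fun k _ => h0' k)
  have hdT : (Matrix.transvection i j (algebraMap A K a)).det ≠ 0 := by
    rw [Matrix.det_transvection_of_ne i j hij]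
    exact one_ne_zero
  have key : Matrix.transvection i j (algebraMap A K a / B) =
      Matrix.diagonal D' * Matrix.transvection i j (algebraMap A K a) * Matrix.diagonal D := by
    ext k l
    rw [Matrix.mul_diagonal, Matrix.diagonal_mul]
    simp only [Matrix.transvection, Matrix.add_apply, Matrix.one_apply, Matrix.single_apply, hD,
      hD', Function.update_apply, Pi.one_apply]
    by_cases hk : i = k
    · subst hk
      by_cases hl : j = l
      · subst hl
        simp [hij, hij.symm]
        field_simp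
      · by_cases hil : i = l
        · subst hil
          simp [hij.symm, hbK]
        · simp [hl, hil]
    · by_cases hkl : k = l
      · subst hkl
        simp [hk, Ne.symm hk]
      · simp [hk, hkl]
  rw [key]
  refine Good.mul ?_ hdD (Good.mul hdD' hdT (Good.diagonal D' hdD')
    (Good.transvection_int i j hij a)) (Good.diagonal D hdD)
  rw [Matrix.det_mul]
  exact mul_ne_zero hdD' hdT

omit [IsNoetherianRing A] [Ring.KrullDimLE 1 A] in
theorem good_of_det (g : Matrix n n K) (hg : g.det ≠ 0) : Good A g := by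
  refine Matrix.diagonal_transvection_induction_of_det_ne_zero (Good A) g hg
    (fun D hD => Good.diagonal D hD) (fun t => ?_) (fun B C hB hC h1 h2 => Good.mul hB hC h1 h2)
  obtain ⟨i, j, hij, c⟩ := t
  exact Good.transvection i j hij c

/-- THE LENGTH OF THE COKERNEL OF A MATRIX -/
theorem cok_matrix (M : Matrix n n A) (hM : M.det ≠ 0) :
    cok M.mulVecLin = Ring.ord A M.det := by
  have hg : (M.map (algebraMap A (FractionRing A))).det ≠ 0 := by
    have h1 := (algebraMap A (FractionRing A)).map_det M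
    intro h0
    apply hM
    have h2 : algebraMap A (FractionRing A) M.det = 0 := h1.trans h0
    rwa [FaithfulSMul.algebraMap_eq_zero_iff] at h2
  obtain ⟨N, c, hc, hN, hN1⟩ := good_of_det (A := A) _ hg
  have hNM : N = Matrix.diagonal (fun _ => c) * M := by
    ext k l
    have h1 := congrFun (congrFun hN k) l
    rw [Matrix.map_apply, Matrix.smul_apply, Matrix.map_apply, smul_eq_mul, ← map_mul] at h1
    rw [Matrix.diagonal_mul]
    exact FaithfulSMul.algebraMap_injective A (FractionRing A) h1
  have hdc : (Matrix.diagonal (fun _ : n => c)).det ≠ 0 := by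
    rw [Matrix.det_diagonal]
    exact Finset.prod_ne_zero_iff.mpr (fun k _ => hc)
  rw [hNM, cok_mul _ _ hdc, Matrix.det_mul, Ring.ord_mul _ (mem_nonZeroDivisors_of_ne_zero hM),
    cok_diagonal, Matrix.det_diagonal, ord_prod _ _ (fun _ _ => hc)] at hN1
  refine ENat.add_right_injective_of_ne_top ?_ hN1
  rw [← ord_prod _ _ (fun _ _ => hc)]
  exact Ring.ord_ne_top (mem_nonZeroDivisors_of_ne_zero (Finset.prod_ne_zero_iff.mpr
    (fun k _ => hc)))

end field

end Pool.Agent.RCH.Lat
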