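import Pool.Agent.RCH.LatC

/-!
# The index of an endomorphism is the order of its determinant
-/

set_option autoImplicit false

namespace Pool.Agent.RCH.Lat

open Module

section torsion

variable {A : Type*} [CommRing A] [IsDomain A] {M : Type*} [AddCommGroup M] [Module A M]

lemma exists_smul_eq_zero [Module.Finite A M] (h : ∀ m : M, ∃ c : A, c ≠ 0 ∧ c • m = 0) :
    ∃ c : A, c ≠ 0 ∧ ∀ m : M, c • m = 0 := by
  obtain ⟨s, hs⟩ := (Module.Finite.fg_top : (⊤ : Submodule A M).FG)
  choose c hc0 hc using h
  refine ⟨∏ m ∈ s, c m, Finset.prod_ne_zero_iff.mpr (fun m _ => hc0 m), fun m => ?_⟩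
  have hm : m ∈ Submodule.span A (s : Set M) := by rw [hs]; trivial
  induction hm using Submodule.span_induction with
  | mem x hx =>
    obtain ⟨d, hd⟩ := Finset.dvd_prod_of_mem c (Finset.mem_coe.mp hx)
    rw [hd, mul_comm, mul_smul, hc, smul_zero]
  | zero => exact smul_zero _
  | add x y _ _ hx hy => rw [smul_add, hx, hy, add_zero]
  | smul a x _ hx => rw [smul_comm, hx, smul_zero]

variable [IsNoetherianRing A] [Ring.KrullDimLE 1 A]

/-- finitely generated torsion modules have finite length -/
theorem length_ne_top_of_smul [Module.Finite A M] (c : A) (hc : c ≠ 0)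
    (h : ∀ m : M, c • m = 0) : Module.length A M ≠ ⊤ := by
  obtain ⟨n, π, hπ⟩ := Module.Finite.exists_fin' A M
  have h1 : LinearMap.range (Matrix.diagonal (fun _ : Fin n => c)).mulVecLin ≤
      LinearMap.ker π := by
    rintro _ ⟨x, rfl⟩
    have h2 : (Matrix.diagonal (fun _ : Fin n => c)).mulVecLin x = c • x := by
      ext i
      rw [Matrix.mulVecLin_apply, Matrix.mulVec_diagonal, Pi.smul_apply, smul_eq_mul]
    rw [LinearMap.mem_ker, h2, map_smul, h]
  have h2 : Function.Surjective (Submodule.liftQ _ π h1) := by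
    intro y
    obtain ⟨x, rfl⟩ := hπ y
    exact ⟨Submodule.Quotient.mk x, rfl⟩
  have h3 := Module.length_le_of_surjective _ h2
  have h4 : cok (Matrix.diagonal (fun _ : Fin n => c)).mulVecLin ≠ ⊤ := by
    rw [cok_diagonal, ← ord_prod _ _ (fun _ _ => hc)]
    exact Ring.ord_ne_top (mem_nonZeroDivisors_of_ne_zero
      (Finset.prod_ne_zero_iff.mpr (fun _ _ => hc)))
  exact ne_top_of_le_ne_top h4 h3

/-- finitely generated torsion modules have finite length -/
theorem length_ne_top_of_torsion [Module.Finite A M] (h : ∀ m : M, ∃ c : A, c ≠ 0 ∧ c • m = 0) :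
    Module.length A M ≠ ⊤ := by
  obtain ⟨c, hc, h1⟩ := exists_smul_eq_zero h
  exact length_ne_top_of_smul c hc h1

end torsion

section aux

lemma injective_of_det_ne_zero {K V : Type*} [Field K] [AddCommGroup V] [Module K V]
    [Module.Finite K V] (ψ : V →ₗ[K] V) (hψ : LinearMap.det ψ ≠ 0) : Function.Injective ψ := by
  intro x y hxy
  have h : IsUnit (LinearMap.det ψ) := isUnit_iff_ne_zero.mpr hψ
  apply (LinearMap.equivOfIsUnitDet h).injective
  rw [LinearMap.equivOfIsUnitDet_apply, LinearMap.equivOfIsUnitDet_apply, hxy]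

lemma finite_of_span {A K M V : Type*} [CommRing A] [Field K] [Algebra A K]
    [AddCommGroup M] [Module A M] [Module.Finite A M] [AddCommGroup V] [Module A V] [Module K V]
    [IsScalarTower A K V] (f : M →ₗ[A] V) (hspan : Submodule.span K (Set.range f) = ⊤) :
    Module.Finite K V := by
  classical
  obtain ⟨s, hs⟩ := (Module.Finite.fg_top : (⊤ : Submodule A M).FG)
  refine ⟨⟨s.image f, ?_⟩⟩
  rw [eq_top_iff, ← hspan, Submodule.span_le]
  rintro _ ⟨m, rfl⟩
  have hm : m ∈ Submodule.span A (s : Set M) := by rw [hs]; trivial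
  induction hm using Submodule.span_induction with
  | mem x hx => exact Submodule.subset_span (Finset.mem_coe.mpr (Finset.mem_image_of_mem f hx))
  | zero => rw [map_zero]; exact Submodule.zero_mem _
  | add x y _ _ hx hy => rw [map_add]; exact Submodule.add_mem _ hx hy
  | smul a x _ hx =>
    rw [map_smul, ← algebraMap_smul K a (f x)]
    exact Submodule.smul_mem _ _ hx

end aux

section index

variable {A : Type*} [CommRing A] [IsDomain A] [IsNoetherianRing A] [Ring.KrullDimLE 1 A]
  {K : Type*} [Field K] [Algebra A K] [IsFractionRing A K]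
  {M : Type*} [AddCommGroup M] [Module A M] [Module.Finite A M]
  {V : Type*} [AddCommGroup V] [Module A V] [Module K V] [IsScalarTower A K V]

/-- the torsion free case -/
theorem cok_of_injective (f : M →ₗ[A] V) (hf : Function.Injective f)
    (hspan : Submodule.span K (Set.range f) = ⊤) (φ : M →ₗ[A] M) (ψ : V →ₗ[K] V)
    (h : ∀ m, ψ (f m) = f (φ m)) (hψ : LinearMap.det ψ ≠ 0) (a b : A) (hb : b ≠ 0)
    (hab : algebraMap A K a = algebraMap A K b * LinearMap.det ψ) :
    cok φ + Ring.ord A b = Ring.ord A a := by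
  classical
  have hinj : Function.Injective (algebraMap A K) := FaithfulSMul.algebraMap_injective A K
  -- a basis
  obtain ⟨t, ht, hts, hli⟩ := exists_linearIndependent K (Set.range f)
  rw [hspan] at hts
  have hfin : Module.Finite K V := finite_of_span f hspan
  have : Finite t := hli.finite
  have := Fintype.ofFinite t
  let e : Module.Basis t K V := Module.Basis.mk hli (by
    rw [Subtype.range_coe, hts])
  have he : ∀ i : t, e i = i.1 := fun i => Module.Basis.mk_apply _ _ i
  choose m hm using fun i : t => ht i.2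
  let F : (t → A) →ₗ[A] M := Fintype.linearCombination A m
  have hF : ∀ x i, e.equivFun (f (F x)) i = algebraMap A K (x i) := by
    intro x i
    have h1 : f (F x) = ∑ j, algebraMap A K (x j) • e j := by
      rw [Fintype.linearCombination_apply, map_sum]
      refine Finset.sum_congr rfl (fun j _ => ?_)
      rw [map_smul, hm, he, algebraMap_smul]
    rw [h1, Module.Basis.equivFun_apply, Module.Basis.repr_sum_self]
  have hFinj : Function.Injective F := by
    intro x y hxy
    ext i
    apply hinj
    rw [← hF, ← hF, hxy]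
  -- the quotient by the image of `F` is torsion
  have hcok : Module.length A (M ⧸ LinearMap.range F) ≠ ⊤ := by
    apply length_ne_top_of_torsion
    intro y
    obtain ⟨y, rfl⟩ := Submodule.Quotient.mk_surjective _ y
    obtain ⟨c, hc⟩ := IsLocalization.exist_integer_multiples_of_finite (nonZeroDivisors A)
      (e.equivFun (f y))
    choose x hx using hc
    refine ⟨c, nonZeroDivisors.coe_ne_zero c, ?_⟩
    rw [← Submodule.Quotient.mk_smul, Submodule.Quotient.mk_eq_zero]
    refine ⟨x, hf (e.equivFun.injective ?_)⟩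
    ext i
    rw [hF, hx, map_smul, ← algebraMap_smul K (c : A) (f y), map_smul, Pi.smul_apply,
      Algebra.smul_def, smul_eq_mul]
  -- the matrix
  set g : Matrix t t K := LinearMap.toMatrix e e ψ with hg
  obtain ⟨c, hc⟩ := IsLocalization.exist_integer_multiples_of_finite (nonZeroDivisors A)
    (fun p : t × t => g p.1 p.2)
  choose N' hN' using hc
  set N : Matrix t t A := fun i j => N' (i, j) with hN
  have hc0 : (c : A) ≠ 0 := nonZeroDivisors.coe_ne_zero c
  have hcK : algebraMap A K (c : A) ≠ 0 := by
    rw [Ne, FaithfulSMul.algebraMap_eq_zero_iff]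
    exact hc0
  have hNg : ∀ i j, algebraMap A K (N i j) = algebraMap A K c * g i j := by
    intro i j
    rw [hN, hN' (i, j), Algebra.smul_def]
  have hcomm : F ∘ₗ N.mulVecLin = ((c : A) • φ) ∘ₗ F := by
    refine LinearMap.ext (fun x => hf (e.equivFun.injective ?_))
    ext i
    have h1 : e.equivFun (ψ (f (F x))) = g.mulVec (e.equivFun (f (F x))) :=
      (LinearMap.toMatrix_mulVec_repr e e ψ (f (F x))).symm
    have h2 : f (((c : A) • φ) (F x)) = algebraMap A K c • ψ (f (F x)) := by
      rw [LinearMap.smul_apply, map_smul, h, algebraMap_smul]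
    rw [LinearMap.comp_apply, LinearMap.comp_apply, h2, map_smul, h1, hF, Pi.smul_apply,
      smul_eq_mul, Matrix.mulVecLin_apply]
    unfold Matrix.mulVec dotProduct
    rw [map_sum, Finset.mul_sum]
    refine Finset.sum_congr rfl (fun j _ => ?_)
    rw [map_mul, hNg, hF, mul_assoc]
  have hψinj : Function.Injective ψ := injective_of_det_ne_zero ψ hψ
  have hφ : Function.Injective φ := by
    intro x y hxy
    apply hf
    apply hψinj
    rw [h, h, hxy]
  have hsmul : ∀ c' : A, c' ≠ 0 → Function.Injective (fun m : M => c' • m) := by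
    intro c' hc' x y hxy
    apply hf
    have h1 : algebraMap A K c' • f x = algebraMap A K c' • f y := by
      rw [algebraMap_smul, algebraMap_smul, ← map_smul, ← map_smul]
      exact congrArg f hxy
    have h2 : algebraMap A K c' ≠ 0 := by
      rw [Ne, FaithfulSMul.algebraMap_eq_zero_iff]
      exact hc'
    exact smul_right_injective V h2 h1
  -- the determinant
  have hdet : algebraMap A K N.det = algebraMap A K c ^ Fintype.card t * LinearMap.det ψ := by
    have h1 : N.map (algebraMap A K) = algebraMap A K c • g := by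
      ext i j
      rw [Matrix.map_apply, hNg, Matrix.smul_apply, smul_eq_mul]
    have h2 := (algebraMap A K).map_det N
    rw [RingHom.mapMatrix_apply, h1, Matrix.det_smul, hg, LinearMap.det_toMatrix] at h2
    exact h2
  have hN0 : N.det ≠ 0 := by
    intro h0
    rw [h0, map_zero] at hdet
    exact mul_ne_zero (pow_ne_zero _ hcK) hψ hdet.symm
  have hbN : b * N.det = (c : A) ^ Fintype.card t * a := by
    apply hinj
    rw [map_mul, map_mul, map_pow, hdet, hab]
    ring
  have ha : a ≠ 0 := by
    rintro rfl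
    rw [mul_zero] at hbN
    exact mul_ne_zero hb hN0 hbN
  -- lengths
  have general : ∀ (φ' : M →ₗ[A] M) (N' : Matrix t t A), Function.Injective φ' → N'.det ≠ 0 →
      F ∘ₗ N'.mulVecLin = φ' ∘ₗ F → cok φ' = Ring.ord A N'.det := by
    intro φ' N' h1 h2 h3
    have h4 : LinearMap.range F ≤ (LinearMap.range F).comap φ' := by
      rintro _ ⟨x, rfl⟩
      exact ⟨N'.mulVecLin x, LinearMap.congr_fun h3 x⟩
    have h5 := index_of_finite_right N'.mulVecLin φ' (Submodule.mapQ _ _ φ' h4) F
      (LinearMap.range F).mkQ hFinj (Submodule.mkQ_surjective _)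
      (LinearMap.exact_map_mkQ_range F) h3 (by ext x; rfl) hcok
    rw [krl_of_injective _ (mulVecLin_injective N' h2), krl_of_injective _ h1, zero_add,
      zero_add, cok_matrix _ h2] at h5
    exact h5
  have hd1 : (Matrix.diagonal (fun _ : t => (c : A))).det ≠ 0 := by
    rw [Matrix.det_diagonal]
    exact Finset.prod_ne_zero_iff.mpr (fun _ _ => hc0)
  have hL1 : cok ((c : A) • (LinearMap.id : M →ₗ[A] M)) = Ring.ord A ((c : A) ^ Fintype.card t) := by
    have h1 := general ((c : A) • LinearMap.id) (Matrix.diagonal (fun _ : t => (c : A)))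
      (hsmul c hc0) hd1 (by
        refine LinearMap.ext (fun x => ?_)
        have h2 : (Matrix.diagonal (fun _ : t => (c : A))).mulVecLin x = (c : A) • x := by
          ext i
          rw [Matrix.mulVecLin_apply, Matrix.mulVec_diagonal, Pi.smul_apply, smul_eq_mul]
        rw [LinearMap.comp_apply, LinearMap.comp_apply, h2, map_smul, LinearMap.smul_apply,
          LinearMap.id_apply])
    rw [h1, Matrix.det_diagonal, Finset.prod_const, Finset.card_univ]
  have hL2 : cok ((c : A) • φ) = Ring.ord A N.det :=
    general ((c : A) • φ) N (fun x y hxy => hφ (hsmul c hc0 hxy)) hN0 hcomm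
  have hL3 : cok ((c : A) • φ) = cok ((c : A) • (LinearMap.id : M →ₗ[A] M)) + cok φ := by
    have h1 : (c : A) • φ = ((c : A) • (LinearMap.id : M →ₗ[A] M)) ∘ₗ φ := by
      ext x
      rfl
    rw [h1]
    exact cok_comp _ _ (hsmul c hc0)
  have hL4 : Ring.ord A (b * N.det) = Ring.ord A ((c : A) ^ Fintype.card t * a) := by rw [hbN]
  rw [Ring.ord_mul _ (mem_nonZeroDivisors_of_ne_zero hN0),
    Ring.ord_mul _ (mem_nonZeroDivisors_of_ne_zero ha), ← hL2, hL3, hL1] at hL4
  have hfc : Ring.ord A ((c : A) ^ Fintype.card t) ≠ ⊤ :=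
    Ring.ord_ne_top (mem_nonZeroDivisors_of_ne_zero (pow_ne_zero _ hc0))
  apply ENat.add_right_injective_of_ne_top hfc
  change Ring.ord A ((c : A) ^ Fintype.card t) + (cok φ + Ring.ord A b) =
    Ring.ord A ((c : A) ^ Fintype.card t) + Ring.ord A a
  rw [← hL4]
  ring

/-- THE INDEX IS THE ORDER OF THE DETERMINANT -/
theorem index_det (f : M →ₗ[A] V) (hf : ∀ m, f m = 0 → ∃ c : A, c ≠ 0 ∧ c • m = 0)
    (hspan : Submodule.span K (Set.range f) = ⊤) (φ : M →ₗ[A] M) (ψ : V →ₗ[K] V)
    (h : ∀ m, ψ (f m) = f (φ m)) (hψ : LinearMap.det ψ ≠ 0) (a b : A) (hb : b ≠ 0)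
    (hab : algebraMap A K a = algebraMap A K b * LinearMap.det ψ) :
    cok φ + Ring.ord A b = krl φ + Ring.ord A a := by
  have hstab : LinearMap.ker f ≤ (LinearMap.ker f).comap φ := by
    intro x hx
    rw [Submodule.mem_comap, LinearMap.mem_ker, ← h, LinearMap.mem_ker.mp hx, map_zero]
  have hfin : Module.length A (LinearMap.ker f) ≠ ⊤ := by
    apply length_ne_top_of_torsion
    intro m
    obtain ⟨c, hc, h1⟩ := hf m.1 m.2
    exact ⟨c, hc, Subtype.ext h1⟩
  set φ₃ := Submodule.mapQ _ _ φ hstab with hφ₃
  set f₃ : (M ⧸ LinearMap.ker f) →ₗ[A] V := Submodule.liftQ _ f le_rfl with hf₃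
  have hinj : Function.Injective f₃ := by
    rw [← LinearMap.ker_eq_bot]
    exact Submodule.ker_liftQ_eq_bot _ _ _ le_rfl
  have hrange : Set.range f₃ = Set.range f := by
    ext x
    constructor
    · rintro ⟨y, rfl⟩
      obtain ⟨y, rfl⟩ := Submodule.Quotient.mk_surjective _ y
      exact ⟨y, rfl⟩
    · rintro ⟨y, rfl⟩
      exact ⟨Submodule.Quotient.mk y, rfl⟩
  have h3 : ∀ m, ψ (f₃ m) = f₃ (φ₃ m) := by
    intro m
    obtain ⟨m, rfl⟩ := Submodule.Quotient.mk_surjective _ m
    exact h m
  have h4 := cok_of_injective f₃ hinj (by rw [hrange, hspan]) φ₃ ψ h3 hψ a b hb hab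
  have hfinV : Module.Finite K V := finite_of_span f hspan
  have h5 : Function.Injective φ₃ := by
    intro x y hxy
    apply hinj
    apply injective_of_det_ne_zero ψ hψ
    rw [h3, h3, hxy]
  have h7 := index_of_finite_left (φ.restrict hstab) φ φ₃ (LinearMap.ker f).subtype
    (LinearMap.ker f).mkQ (Submodule.subtype_injective _) (Submodule.mkQ_surjective _)
    (LinearMap.exact_subtype_mkQ _) (by ext x; rfl) (by ext x; rfl) hfin
  rw [krl_of_injective _ h5, zero_add] at h7
  rw [h7, ← h4]
  ring

end index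

end Pool.Agent.RCH.Lat
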