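import Pool.Agent.RCH.LatA

/-!
# The lengths of kernels and cokernels in exact sequences
-/

set_option autoImplicit false

namespace Pool.Agent.RCH.Lat

open Module

section six

variable {A : Type*} [CommRing A]

/-- the length of the middle term of an exact sequence -/
lemma length_of_exact {X Y Z : Type*} [AddCommGroup X] [Module A X] [AddCommGroup Y] [Module A Y]
    [AddCommGroup Z] [Module A Z] (f : X →ₗ[A] Y) (g : Y →ₗ[A] Z) (h : Function.Exact f g) :
    Module.length A Y = Module.length A (LinearMap.range f) + Module.length A (LinearMap.range g) := by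
  refine Module.length_eq_add_of_exact (LinearMap.range f).subtype g.rangeRestrict
    (Submodule.subtype_injective _) (LinearMap.surjective_rangeRestrict g) ?_
  rw [LinearMap.exact_iff, LinearMap.ker_rangeRestrict, Submodule.range_subtype]
  exact LinearMap.exact_iff.mp h

lemma length_of_injective {X Y : Type*} [AddCommGroup X] [Module A X] [AddCommGroup Y] [Module A Y]
    (f : X →ₗ[A] Y) (h : Function.Injective f) :
    Module.length A X = Module.length A (LinearMap.range f) :=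
  (LinearEquiv.ofInjective f h).length_eq

lemma length_of_surjective {X Y : Type*} [AddCommGroup X] [Module A X] [AddCommGroup Y]
    [Module A Y] (f : X →ₗ[A] Y) (h : Function.Surjective f) :
    Module.length A Y = Module.length A (LinearMap.range f) := by
  rw [LinearMap.range_eq_top.mpr h]
  exact Module.length_top.symm

variable {M₁ M₂ M₃ N₁ N₂ N₃ : Type*}
  [AddCommGroup M₁] [Module A M₁] [AddCommGroup M₂] [Module A M₂] [AddCommGroup M₃] [Module A M₃]
  [AddCommGroup N₁] [Module A N₁] [AddCommGroup N₂] [Module A N₂] [AddCommGroup N₃] [Module A N₃]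
  (φ₁ : M₁ →ₗ[A] N₁) (φ₂ : M₂ →ₗ[A] N₂) (φ₃ : M₃ →ₗ[A] N₃)
  (f₁ : M₁ →ₗ[A] M₂) (f₂ : M₂ →ₗ[A] M₃) (g₁ : N₁ →ₗ[A] N₂) (g₂ : N₂ →ₗ[A] N₃)

/-- THE SIX TERM SEQUENCE -/
theorem krl_add_krl_add_cok (hf₁ : Function.Injective f₁) (hf₂ : Function.Surjective f₂)
    (hf : Function.Exact f₁ f₂) (hg₁ : Function.Injective g₁) (hg₂ : Function.Surjective g₂)
    (hg : Function.Exact g₁ g₂) (h₁ : g₁ ∘ₗ φ₁ = φ₂ ∘ₗ f₁) (h₂ : g₂ ∘ₗ φ₂ = φ₃ ∘ₗ f₂) :
    krl φ₁ + krl φ₃ + cok φ₂ = krl φ₂ + cok φ₁ + cok φ₃ := by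
  have e1 : ∀ x, g₁ (φ₁ x) = φ₂ (f₁ x) := fun x => LinearMap.congr_fun h₁ x
  have e2 : ∀ x, g₂ (φ₂ x) = φ₃ (f₂ x) := fun x => LinearMap.congr_fun h₂ x
  have hk1 : ∀ x ∈ LinearMap.ker φ₁, f₁ x ∈ LinearMap.ker φ₂ := by
    intro x hx
    rw [LinearMap.mem_ker, ← e1, LinearMap.mem_ker.mp hx, map_zero]
  have hk2 : ∀ x ∈ LinearMap.ker φ₂, f₂ x ∈ LinearMap.ker φ₃ := by
    intro x hx
    rw [LinearMap.mem_ker, ← e2, LinearMap.mem_ker.mp hx, map_zero]
  have hc1 : LinearMap.range φ₁ ≤ (LinearMap.range φ₂).comap g₁ := by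
    rintro _ ⟨x, rfl⟩
    exact ⟨f₁ x, (e1 x).symm⟩
  have hc2 : LinearMap.range φ₂ ≤ (LinearMap.range φ₃).comap g₂ := by
    rintro _ ⟨x, rfl⟩
    exact ⟨f₂ x, (e2 x).symm⟩
  set F₁ : LinearMap.ker φ₁ →ₗ[A] LinearMap.ker φ₂ := f₁.restrict hk1
  set F₂ : LinearMap.ker φ₂ →ₗ[A] LinearMap.ker φ₃ := f₂.restrict hk2
  set G₁ : (N₁ ⧸ LinearMap.range φ₁) →ₗ[A] (N₂ ⧸ LinearMap.range φ₂) := Submodule.mapQ _ _ g₁ hc1
  set G₂ : (N₂ ⧸ LinearMap.range φ₂) →ₗ[A] (N₃ ⧸ LinearMap.range φ₃) := Submodule.mapQ _ _ g₂ hc2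
  have hF : Function.Exact F₁ F₂ := by
    intro x
    constructor
    · intro hx
      have hx1 : f₂ x.1 = 0 := congrArg Subtype.val hx
      obtain ⟨y, hy⟩ := (hf _).mp hx1
      refine ⟨⟨y, ?_⟩, Subtype.ext hy⟩
      rw [LinearMap.mem_ker]
      apply hg₁
      rw [e1, hy, map_zero]
      exact x.2
    · rintro ⟨y, rfl⟩
      apply Subtype.ext
      exact (hf _).mpr ⟨y.1, rfl⟩
  have hG : Function.Exact G₁ G₂ := by
    intro x
    obtain ⟨x, rfl⟩ := Submodule.Quotient.mk_surjective _ x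
    constructor
    · intro hx
      have hx1 : g₂ x ∈ LinearMap.range φ₃ := (Submodule.Quotient.mk_eq_zero _).mp hx
      obtain ⟨y, hy⟩ := hx1
      obtain ⟨z, rfl⟩ := hf₂ y
      rw [← e2] at hy
      have h3 : g₂ (x - φ₂ z) = 0 := by rw [map_sub, hy, sub_self]
      obtain ⟨w, hw⟩ := (hg _).mp h3
      refine ⟨Submodule.Quotient.mk w, ?_⟩
      change Submodule.Quotient.mk (g₁ w) = _
      rw [hw, Submodule.Quotient.eq]
      exact ⟨-z, by rw [map_neg]; abel⟩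
    · rintro ⟨y, hy⟩
      obtain ⟨y, rfl⟩ := Submodule.Quotient.mk_surjective _ y
      rw [← hy]
      change Submodule.Quotient.mk (g₂ (g₁ y)) = (0 : N₃ ⧸ LinearMap.range φ₃)
      rw [hg.apply_apply_eq_zero, Submodule.Quotient.mk_zero]
  have hF₁ : Function.Injective F₁ := by
    intro x y hxy
    exact Subtype.ext (hf₁ (congrArg Subtype.val hxy))
  have hG₂ : Function.Surjective G₂ := by
    intro x
    obtain ⟨x, rfl⟩ := Submodule.Quotient.mk_surjective _ x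
    obtain ⟨y, rfl⟩ := hg₂ x
    exact ⟨Submodule.Quotient.mk y, rfl⟩
  set δ := SnakeLemma.δ' φ₁ φ₂ φ₃ f₁ f₂ hf g₁ g₂ hg h₁ h₂ (LinearMap.ker φ₃).subtype
    (LinearMap.exact_subtype_ker_map φ₃) (LinearMap.range φ₁).mkQ
    (LinearMap.exact_map_mkQ_range φ₁) hf₂ hg₁ with hδ
  have hδ1 : Function.Exact F₂ δ :=
    SnakeLemma.exact_δ'_right φ₁ φ₂ φ₃ f₁ f₂ hf g₁ g₂ hg h₁ h₂ (LinearMap.ker φ₂).subtype
      (LinearMap.exact_subtype_ker_map φ₂) (LinearMap.ker φ₃).subtype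
      (LinearMap.exact_subtype_ker_map φ₃) (LinearMap.range φ₁).mkQ
      (LinearMap.exact_map_mkQ_range φ₁) hf₂ hg₁ F₂ (by ext x; rfl)
      (Submodule.subtype_injective _)
  have hδ2 : Function.Exact δ G₁ :=
    SnakeLemma.exact_δ'_left φ₁ φ₂ φ₃ f₁ f₂ hf g₁ g₂ hg h₁ h₂ (LinearMap.ker φ₃).subtype
      (LinearMap.exact_subtype_ker_map φ₃) (LinearMap.range φ₁).mkQ
      (LinearMap.exact_map_mkQ_range φ₁) (LinearMap.range φ₂).mkQ
      (LinearMap.exact_map_mkQ_range φ₂) hf₂ hg₁ G₁ (by ext x; rfl)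
      (Submodule.mkQ_surjective _)
  have l1 : krl φ₁ = _ := length_of_injective F₁ hF₁
  have l2 : krl φ₂ = _ := length_of_exact F₁ F₂ hF
  have l3 : krl φ₃ = _ := length_of_exact F₂ δ hδ1
  have l4 : cok φ₁ = _ := length_of_exact δ G₁ hδ2
  have l5 : cok φ₂ = _ := length_of_exact G₁ G₂ hG
  have l6 : cok φ₃ = _ := length_of_surjective G₂ hG₂
  rw [l1, l2, l3, l4, l5, l6]
  ring

end six

section fin

variable {A : Type*} [CommRing A] {M : Type*} [AddCommGroup M] [Module A M]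

/-- on a module of finite length, kernel and cokernel have the same length -/
theorem cok_eq_krl (φ : M →ₗ[A] M) (h : Module.length A M ≠ ⊤) : cok φ = krl φ := by
  have h1 := length_of_exact (LinearMap.ker φ).subtype φ (LinearMap.exact_subtype_ker_map φ)
  have h2 := length_of_exact φ (LinearMap.range φ).mkQ (LinearMap.exact_map_mkQ_range φ)
  rw [← length_of_surjective _ (Submodule.mkQ_surjective _)] at h2
  rw [← length_of_injective _ (Submodule.subtype_injective _)] at h1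
  have h3 : krl φ + Module.length A (LinearMap.range φ) =
      cok φ + Module.length A (LinearMap.range φ) := by
    unfold krl cok
    rw [← h1, h2, add_comm]
  have h4 : Module.length A (LinearMap.range φ) ≠ ⊤ := by
    intro h0
    rw [h0, top_add] at h2
    exact h h2
  exact (ENat.add_left_injective_of_ne_top h4 h3).symm

lemma krl_ne_top (φ : M →ₗ[A] M) (h : Module.length A M ≠ ⊤) : krl φ ≠ ⊤ := by
  intro h0
  have h1 := Module.length_le_of_injective (LinearMap.ker φ).subtype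
    (Submodule.subtype_injective _)
  unfold krl at h0
  rw [h0, top_le_iff] at h1
  exact h h1

variable {M₁ M₃ : Type*} [AddCommGroup M₁] [Module A M₁] [AddCommGroup M₃] [Module A M₃]
  (φ₁ : M₁ →ₗ[A] M₁) (φ : M →ₗ[A] M) (φ₃ : M₃ →ₗ[A] M₃) (f : M₁ →ₗ[A] M) (g : M →ₗ[A] M₃)

/-- a submodule of finite length does not matter -/
theorem index_of_finite_left (hf : Function.Injective f) (hg : Function.Surjective g)
    (hfg : Function.Exact f g) (h₁ : f ∘ₗ φ₁ = φ ∘ₗ f) (h₂ : g ∘ₗ φ = φ₃ ∘ₗ g)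
    (hfin : Module.length A M₁ ≠ ⊤) : krl φ₃ + cok φ = krl φ + cok φ₃ := by
  have h := krl_add_krl_add_cok φ₁ φ φ₃ f g f g hf hg hfg hf hg hfg h₁ h₂
  rw [cok_eq_krl φ₁ hfin] at h
  apply ENat.add_right_injective_of_ne_top (krl_ne_top φ₁ hfin)
  change krl φ₁ + (krl φ₃ + cok φ) = krl φ₁ + (krl φ + cok φ₃)
  rw [← add_assoc, h]
  ring

/-- a quotient of finite length does not matter -/
theorem index_of_finite_right (hf : Function.Injective f) (hg : Function.Surjective g)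
    (hfg : Function.Exact f g) (h₁ : f ∘ₗ φ₁ = φ ∘ₗ f) (h₂ : g ∘ₗ φ = φ₃ ∘ₗ g)
    (hfin : Module.length A M₃ ≠ ⊤) : krl φ₁ + cok φ = krl φ + cok φ₁ := by
  have h := krl_add_krl_add_cok φ₁ φ φ₃ f g f g hf hg hfg hf hg hfg h₁ h₂
  rw [cok_eq_krl φ₃ hfin] at h
  apply ENat.add_right_injective_of_ne_top (krl_ne_top φ₃ hfin)
  change krl φ₃ + (krl φ₁ + cok φ) = krl φ₃ + (krl φ + cok φ₁)
  rw [← add_assoc, add_comm (krl φ₃), h]
  ring

end fin

end Pool.Agent.RCH.Lat
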