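import Mathlib

/-!
# Norms of homogeneous elements are quotients of homogeneous elements

`R → T` is a homomorphism of graded rings (graded by an abelian group `G`), `T → E` a homomorphism to
a field with homogeneous kernel, `K` the field generated by the image of `R` and `E` the field generated
by the image of `T`, finite over `K`. Then the norm from `E` to `K` of (the image of) a homogeneous
element `b` of `T` of degree `e` is a quotient `g / h` of homogeneous elements of `R`, and the quotient of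
two such norms, for elements of the same degree, is a quotient of homogeneous elements of the same degree.
-/

set_option autoImplicit false

open DirectSum Module

namespace Pool.Agent.RCH

section MHom

variable {G k R T : Type} [AddCommGroup G] [DecidableEq G] [CommRing k] [CommRing R] [CommRing T]
  [Algebra k R] [Algebra k T] (𝒜 : G → Submodule k R) [GradedAlgebra 𝒜]
  (ℬ : G → Submodule k T) [GradedAlgebra ℬ]

/-- a graded homomorphism commutes with taking components -/
theorem decompose_map (φ : R →ₐ[k] T) (hφ : ∀ g a, a ∈ 𝒜 g → φ a ∈ ℬ g) (r : R) (g : G) :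
    ((decompose ℬ (φ r) g : ℬ g) : T) = φ ((decompose 𝒜 r g : 𝒜 g) : R) := by
  classical
  conv_lhs => rw [← sum_support_decompose 𝒜 r, map_sum, decompose_sum]
  rw [DFinsupp.finsetSum_apply, AddSubmonoidClass.coe_finsetSum]
  by_cases hg : g ∈ (decompose 𝒜 r).support
  · rw [Finset.sum_eq_single g]
    · exact decompose_of_mem_same ℬ (hφ g _ (decompose 𝒜 r g).2)
    · intro i _ hi
      exact decompose_of_mem_ne ℬ (hφ i _ (decompose 𝒜 r i).2) hi
    · exact fun h => absurd hg h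
  · rw [DFinsupp.notMem_support_iff] at hg
    rw [hg, ZeroMemClass.coe_zero, map_zero]
    refine Finset.sum_eq_zero fun i hi => ?_
    refine decompose_of_mem_ne ℬ (hφ i _ (decompose 𝒜 r i).2) ?_
    rintro rfl
    rw [DFinsupp.mem_support_iff] at hi
    exact hi hg

/-- if all components of an element are killed, so is the element -/
theorem map_eq_zero_of_decompose {L : Type} [CommRing L] (f : R →+* L) (r : R)
    (h : ∀ g, f ((decompose 𝒜 r g : 𝒜 g) : R) = 0) : f r = 0 := by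
  classical
  rw [← sum_support_decompose 𝒜 r, map_sum]
  exact Finset.sum_eq_zero fun i _ => h i

variable {K E : Type} [Field K] [Field E] [Algebra K E] (φ : R →ₐ[k] T) (fR : R →+* K) (fT : T →+* E)

/-- the image of `T` spans `E` over `K` -/
theorem span_range_eq_top [FiniteDimensional K E]
    (hE : ∀ x : E, ∃ a s : T, fT s ≠ 0 ∧ x * fT s = fT a) :
    Submodule.span K (Set.range fT) = ⊤ := by
  have h1 : (Subalgebra.toSubmodule (Algebra.adjoin K (Set.range fT))) =
      Submodule.span K (Set.range fT) := by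
    rw [Algebra.adjoin_eq_span]
    congr 1
    exact SetLike.ext'_iff.1 (Submonoid.closure_eq (MonoidHom.mrange fT.toMonoidHom))
  rw [← h1, eq_top_iff]
  intro x _
  obtain ⟨a, s, hs, hx⟩ := hE x
  have ha : fT a ∈ Algebra.adjoin K (Set.range fT) := Algebra.subset_adjoin ⟨a, rfl⟩
  have hs' : fT s ∈ Algebra.adjoin K (Set.range fT) := Algebra.subset_adjoin ⟨s, rfl⟩
  have hinv : (fT s)⁻¹ ∈ Algebra.adjoin K (Set.range fT) := by
    have := (Algebra.adjoin K (Set.range fT)).inv_mem_of_algebraic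
      (x := ⟨fT s, hs'⟩) (Algebra.IsAlgebraic.isAlgebraic _)
    exact this
  have hx' : x = fT a * (fT s)⁻¹ := by rw [← hx, mul_assoc, mul_inv_cancel₀ hs, mul_one]
  rw [hx']
  exact (Algebra.adjoin K (Set.range fT)).mul_mem ha hinv

/-- there is a basis of `E` over `K` consisting of homogeneous elements of `T` -/
theorem exists_homog_basis [FiniteDimensional K E]
    (hE : ∀ x : E, ∃ a s : T, fT s ≠ 0 ∧ x * fT s = fT a) :
    ∃ (κ : Type) (_ : Fintype κ) (m : κ → T) (d : κ → G) (b : Basis κ K E),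
      (∀ i, m i ∈ ℬ (d i)) ∧ ∀ i, b i = fT (m i) := by
  classical
  set S : Set E := {x | ∃ (g : G) (t : T), t ∈ ℬ g ∧ x = fT t} with hS
  have hspan : ⊤ ≤ Submodule.span K S := by
    rw [← span_range_eq_top fT hE, Submodule.span_le]
    rintro _ ⟨t, rfl⟩
    rw [← sum_support_decompose ℬ t, map_sum]
    exact Submodule.sum_mem _ fun i _ => Submodule.subset_span ⟨i, _, (decompose ℬ t i).2, rfl⟩
  set b := Basis.ofSpan hspan with hb
  have hsub : ∀ i, b i ∈ S := fun i => Basis.ofSpan_subset hspan ⟨i, rfl⟩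
  choose d m hm hbm using hsub
  exact ⟨_, FiniteDimensional.fintypeBasisIndex b, m, d, b, hm, hbm⟩

/-- a common denominator for finitely many elements of `K` -/
theorem exists_common_denom {κ : Type} [Finite κ]
    (hK : ∀ x : K, ∃ a s : R, fR s ≠ 0 ∧ x * fR s = fR a) (c : κ → K) :
    ∃ (s : R) (r : κ → R), fR s ≠ 0 ∧ ∀ i, c i * fR s = fR (r i) := by
  classical
  have := Fintype.ofFinite κ
  choose a s hs h using fun i => hK (c i)
  refine ⟨∏ i, s i, fun i => a i * ∏ j ∈ Finset.univ.erase i, s j, ?_, fun i => ?_⟩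
  · rw [map_prod]
    exact Finset.prod_ne_zero_iff.2 fun i _ => hs i
  · rw [← Finset.mul_prod_erase Finset.univ s (Finset.mem_univ i), map_mul, ← mul_assoc, h,
      ← map_mul]

/-- the product of a homogeneous element and a component -/
theorem decompose_mul_left {e g : G} {b t : T} (hb : b ∈ ℬ e) :
    ((decompose ℬ (b * t) g : ℬ g) : T) = b * ((decompose ℬ t (g - e) : ℬ (g - e)) : T) := by
  have := coe_decompose_mul_add_of_left_mem ℬ (j := g - e) (b := t) hb
  rwa [add_sub_cancel] at this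

/-- multiplication by a homogeneous element, in a basis of homogeneous elements, has a homogeneous
matrix with a homogeneous common denominator -/
theorem exists_homog_matrix (hφ : ∀ g a, a ∈ 𝒜 g → φ a ∈ ℬ g)
    (hcomp : ∀ r, algebraMap K E (fR r) = fT (φ r))
    (hK : ∀ x : K, ∃ a s : R, fR s ≠ 0 ∧ x * fR s = fR a)
    (hT : ∀ t, fT t = 0 → ∀ g, fT ((decompose ℬ t g : ℬ g) : T) = 0)
    {κ : Type} [Fintype κ] [DecidableEq κ] (m : κ → T) (d : κ → G) (b : Basis κ K E)
    (hm : ∀ i, m i ∈ ℬ (d i)) (hbm : ∀ i, b i = fT (m i)) {e : G} {t : T} (ht : t ∈ ℬ e) :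
    ∃ (δ : G) (s : R) (r : κ → κ → R), s ∈ 𝒜 δ ∧ fR s ≠ 0 ∧
      (∀ i j, r i j ∈ 𝒜 (e + δ + d j - d i)) ∧
      ∀ i j, Algebra.leftMulMatrix b (fT t) i j * fR s = fR (r i j) := by
  classical
  obtain ⟨s, r, hs, hr⟩ := exists_common_denom fR hK
    (fun ij : κ × κ => Algebra.leftMulMatrix b (fT t) ij.1 ij.2)
  obtain ⟨δ, hδ⟩ : ∃ δ, fR ((decompose 𝒜 s δ : 𝒜 δ) : R) ≠ 0 := by
    by_contra hcon
    push Not at hcon
    exact hs (map_eq_zero_of_decompose 𝒜 fR s hcon)
  refine ⟨δ, decompose 𝒜 s δ, fun i j => decompose 𝒜 (r (i, j)) (e + δ + d j - d i),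
    (decompose 𝒜 s δ).2, hδ, fun i j => SetLike.coe_mem _, ?_⟩
  -- the relation `s t m_j = ∑ r_ij m_i`
  have hrel : ∀ j, fT (φ s * (t * m j) - ∑ i, φ (r (i, j)) * m i) = 0 := by
    intro j
    rw [map_sub, map_mul, map_mul, map_sum, sub_eq_zero]
    have h1 : fT t * fT (m j) = ∑ i, Algebra.leftMulMatrix b (fT t) i j • b i := by
      rw [← hbm j]
      have := b.sum_repr (fT t * b j)
      rw [← this]
      refine Finset.sum_congr rfl fun i _ => ?_
      rw [Algebra.leftMulMatrix_eq_repr_mul]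
    rw [h1, Finset.mul_sum]
    refine Finset.sum_congr rfl fun i _ => ?_
    rw [map_mul, ← hcomp, ← hcomp, ← hr (i, j), map_mul, Algebra.smul_def, hbm i]
    ring
  have hrel2 : ∀ j, fT (φ ((decompose 𝒜 s δ : 𝒜 δ) : R) * (t * m j) -
      ∑ i, φ ((decompose 𝒜 (r (i, j)) (e + δ + d j - d i) : 𝒜 (e + δ + d j - d i)) : R) * m i) =
        0 := by
    intro j
    have h := hT _ (hrel j) (e + δ + d j)
    rw [decompose_sub, decompose_sum, DFinsupp.coe_sub, Pi.sub_apply, AddSubgroupClass.coe_sub,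
      DFinsupp.finsetSum_apply, AddSubmonoidClass.coe_finsetSum] at h
    have e1 : ((decompose ℬ (φ s * (t * m j)) (e + δ + d j) : ℬ (e + δ + d j)) : T) =
        φ ((decompose 𝒜 s δ : 𝒜 δ) : R) * (t * m j) := by
      have htm : t * m j ∈ ℬ (e + d j) := SetLike.mul_mem_graded ht (hm j)
      rw [mul_comm, decompose_mul_left ℬ htm]
      have : e + δ + d j - (e + d j) = δ := by abel
      rw [this, decompose_map 𝒜 ℬ φ hφ, mul_comm]
    have e2 : ∀ i, ((decompose ℬ (φ (r (i, j)) * m i) (e + δ + d j) : ℬ (e + δ + d j)) : T) =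
        φ ((decompose 𝒜 (r (i, j)) (e + δ + d j - d i) : 𝒜 (e + δ + d j - d i)) : R) * m i := by
      intro i
      rw [mul_comm, decompose_mul_left ℬ (hm i), decompose_map 𝒜 ℬ φ hφ, mul_comm]
    rw [e1, Finset.sum_congr rfl fun i _ => e2 i] at h
    exact h
  intro i j
  have h3 := hrel2 j
  rw [map_sub, map_mul, map_mul, map_sum, sub_eq_zero, ← hbm j] at h3
  have h4 : fR ((decompose 𝒜 s δ : 𝒜 δ) : R) • (fT t * b j) =
      ∑ i, fR ((decompose 𝒜 (r (i, j)) (e + δ + d j - d i) : 𝒜 (e + δ + d j - d i)) : R) • b i := by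
    rw [Algebra.smul_def, hcomp, h3]
    refine Finset.sum_congr rfl fun i _ => ?_
    rw [map_mul, Algebra.smul_def, hcomp, hbm i]
  have h5 := congrArg (fun x => b.repr x i) h4
  simp only [map_smul, Finsupp.smul_apply, smul_eq_mul, Basis.repr_sum_self] at h5
  rw [Algebra.leftMulMatrix_eq_repr_mul, mul_comm]
  exact h5

/-- the determinant of a homogeneous matrix is homogeneous -/
theorem det_mem {κ : Type} [Fintype κ] [DecidableEq κ] (d : κ → G) (ε : G) (r : κ → κ → R)
    (hr : ∀ i j, r i j ∈ 𝒜 (ε + d j - d i)) :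
    (Matrix.of r).det ∈ 𝒜 (Fintype.card κ • ε) := by
  rw [Matrix.det_apply]
  refine Submodule.sum_mem _ fun π _ => ?_
  rw [Units.smul_def]
  refine zsmul_mem ?_ _
  have h1 : ∀ i, Matrix.of r (π i) i ∈ 𝒜 (ε + d i - d (π i)) := fun i => hr _ _
  have h2 := SetLike.prod_mem_graded (A := 𝒜) (fun i => ε + d i - d (π i))
    (fun i => Matrix.of r (π i) i) (F := Finset.univ) (fun i _ => h1 i)
  have h3 : ∑ i, (ε + d i - d (π i)) = Fintype.card κ • ε := by
    rw [Finset.sum_sub_distrib, Finset.sum_add_distrib, Equiv.sum_comp π d, add_sub_cancel_right,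
      Finset.sum_const, Finset.card_univ]
  rwa [h3] at h2

/-- the norm of a homogeneous element is a quotient of homogeneous elements -/
theorem norm_homog (hφ : ∀ g a, a ∈ 𝒜 g → φ a ∈ ℬ g)
    (hcomp : ∀ r, algebraMap K E (fR r) = fT (φ r))
    (hK : ∀ x : K, ∃ a s : R, fR s ≠ 0 ∧ x * fR s = fR a)
    (hE : ∀ x : E, ∃ a s : T, fT s ≠ 0 ∧ x * fT s = fT a) [FiniteDimensional K E]
    (hT : ∀ t, fT t = 0 → ∀ g, fT ((decompose ℬ t g : ℬ g) : T) = 0)
    {e : G} {t : T} (ht : t ∈ ℬ e) :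
    ∃ (δ : G) (g s : R), g ∈ 𝒜 (finrank K E • (e + δ)) ∧ s ∈ 𝒜 δ ∧ fR s ≠ 0 ∧
      Algebra.norm K (fT t) * fR s ^ finrank K E = fR g := by
  classical
  obtain ⟨κ, _, m, d, b, hm, hbm⟩ := exists_homog_basis ℬ fT hE (K := K)
  obtain ⟨δ, s, r, hs, hs0, hr, hrel⟩ :=
    exists_homog_matrix 𝒜 ℬ φ fR fT hφ hcomp hK hT m d b hm hbm ht
  have hcard : finrank K E = Fintype.card κ := finrank_eq_card_basis b
  refine ⟨δ, (Matrix.of r).det, s, ?_, hs, hs0, ?_⟩
  · rw [hcard]
    exact det_mem 𝒜 d (e + δ) r hr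
  · rw [hcard, Algebra.norm_eq_matrix_det b, mul_comm, ← Matrix.det_smul, RingHom.map_det]
    congr 1
    ext i j
    rw [Matrix.smul_apply, smul_eq_mul, mul_comm, hrel i j]
    rfl

/-- the quotient of the norms of two homogeneous elements of the same degree is a quotient of
homogeneous elements of the same degree -/
theorem norm_div_homog (hφ : ∀ g a, a ∈ 𝒜 g → φ a ∈ ℬ g)
    (hcomp : ∀ r, algebraMap K E (fR r) = fT (φ r))
    (hK : ∀ x : K, ∃ a s : R, fR s ≠ 0 ∧ x * fR s = fR a)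
    (hE : ∀ x : E, ∃ a s : T, fT s ≠ 0 ∧ x * fT s = fT a) [FiniteDimensional K E]
    (hT : ∀ t, fT t = 0 → ∀ g, fT ((decompose ℬ t g : ℬ g) : T) = 0)
    {e : G} {t t' : T} (ht : t ∈ ℬ e) (ht' : t' ∈ ℬ e) (h0 : fT t ≠ 0) (h0' : fT t' ≠ 0) :
    ∃ (δ : G) (g h : R), g ∈ 𝒜 δ ∧ h ∈ 𝒜 δ ∧ fR g ≠ 0 ∧ fR h ≠ 0 ∧
      Algebra.norm K (fT t) * fR h = Algebra.norm K (fT t') * fR g := by
  obtain ⟨δ, g, s, hg, hs, hs0, hn⟩ := norm_homog 𝒜 ℬ φ fR fT hφ hcomp hK hE hT ht
  obtain ⟨δ', g', s', hg', hs', hs0', hn'⟩ := norm_homog 𝒜 ℬ φ fR fT hφ hcomp hK hE hT ht'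
  set n := finrank K E with hn0
  have hg0 : fR g ≠ 0 := by
    rw [← hn]
    exact mul_ne_zero (Algebra.norm_ne_zero_iff.2 h0) (pow_ne_zero _ hs0)
  have hg0' : fR g' ≠ 0 := by
    rw [← hn']
    exact mul_ne_zero (Algebra.norm_ne_zero_iff.2 h0') (pow_ne_zero _ hs0')
  refine ⟨n • δ + n • (e + δ'), s' ^ n * g, s ^ n * g', ?_, ?_, ?_, ?_, ?_⟩
  · have h1 : s' ^ n * g ∈ 𝒜 (n • δ' + n • (e + δ)) :=
      SetLike.mul_mem_graded (SetLike.pow_mem_graded n hs') hg
    have h2 : n • δ' + n • (e + δ) = n • δ + n • (e + δ') := by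
      rw [smul_add, smul_add]
      abel
    rwa [h2] at h1
  · exact SetLike.mul_mem_graded (SetLike.pow_mem_graded n hs) hg'
  · rw [map_mul, map_pow]
    exact mul_ne_zero (pow_ne_zero _ hs0') hg0
  · rw [map_mul, map_pow]
    exact mul_ne_zero (pow_ne_zero _ hs0) hg0'
  · rw [map_mul, map_mul, map_pow, map_pow, ← mul_assoc, hn, ← mul_assoc, hn', mul_comm]

end MHom

end Pool.Agent.RCH
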