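import Pool.Agent.RCH.MLen
import Pool.Agent.RCH.MHom

/-!
# Homogeneous primes of a ring graded by `ℤ^N`
-/

set_option autoImplicit false

open DirectSum

namespace Pool.Agent.RCH.Lat

section prime

/-- homogeneous ideals which are prime for homogeneous elements are prime -/
theorem isPrime_of_homog {k G T : Type} [CommRing k] [AddCommGroup G] [dG : DecidableEq G]
    (hG : ∃ i : LinearOrder G, @IsOrderedCancelAddMonoid G _ i.toPartialOrder.toPreorder)
    [CommRing T] [Algebra k T] (𝒯 : G → Submodule k T) [GradedAlgebra 𝒯] {I : Ideal T}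
    (hI : I.IsHomogeneous 𝒯) (hne : I ≠ ⊤)
    (h : ∀ x y : T, SetLike.IsHomogeneousElem 𝒯 x → SetLike.IsHomogeneousElem 𝒯 y →
      x * y ∈ I → x ∈ I ∨ y ∈ I) : I.IsPrime := by
  obtain ⟨i1, i2⟩ := hG
  have hd : dG = i1.toDecidableEq := Subsingleton.elim _ _
  subst hd
  exact hI.isPrime_of_homogeneous_mem_or_mem hne (fun {x y} hx hy hxy => h x y hx hy hxy)

theorem exists_order (N : ℕ) : ∃ i : LinearOrder (Fin N → ℤ),
    @IsOrderedCancelAddMonoid (Fin N → ℤ) _ i.toPartialOrder.toPreorder :=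
  ⟨(inferInstance : LinearOrder (Lex (Fin N → ℤ))),
    (inferInstance : IsOrderedCancelAddMonoid (Lex (Fin N → ℤ)))⟩

/-- the ideal of the elements `t` with `t x ∈ J` -/
def colX {T : Type} [CommRing T] (J : Ideal T) (x : T) : Ideal T :=
  Submodule.comap (LinearMap.mulRight T x) J

lemma mem_colX {T : Type} [CommRing T] {J : Ideal T} {x t : T} : t ∈ colX J x ↔ t * x ∈ J :=
  Iff.rfl

lemma le_colX {T : Type} [CommRing T] (J : Ideal T) (x : T) : J ≤ colX J x :=
  fun _ ht => mem_colX.mpr (J.mul_mem_right x ht)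

lemma homog_colX {k G T : Type} [CommRing k] [AddCommGroup G] [DecidableEq G]
    [CommRing T] [Algebra k T] (𝒯 : G → Submodule k T) [GradedAlgebra 𝒯] {J : Ideal T}
    (hJ : J.IsHomogeneous 𝒯) {x : T} (hx : SetLike.IsHomogeneousElem 𝒯 x) :
    (colX J x).IsHomogeneous 𝒯 := by
  obtain ⟨d, hd⟩ := hx
  intro i t ht
  rw [mem_colX] at ht ⊢
  have h1 := hJ (i + d) ht
  have h2 : ((decompose 𝒯 (t * x) (i + d) : 𝒯 (i + d)) : T) = decompose 𝒯 t i * x :=
    coe_decompose_mul_add_of_right_mem 𝒯 hd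
  rwa [h2] at h1

/-- a homogeneous prime ideal of the form `(J : x)` -/
theorem exists_prime_colX {k G T : Type} [CommRing k] [AddCommGroup G] [DecidableEq G]
    (hG : ∃ i : LinearOrder G, @IsOrderedCancelAddMonoid G _ i.toPartialOrder.toPreorder)
    [CommRing T] [IsNoetherianRing T] [Algebra k T] (𝒯 : G → Submodule k T) [GradedAlgebra 𝒯]
    {J : Ideal T} (hJ : J.IsHomogeneous 𝒯) (hne : J ≠ ⊤) :
    ∃ x : T, SetLike.IsHomogeneousElem 𝒯 x ∧ x ∉ J ∧ (colX J x).IsPrime ∧
      (colX J x).IsHomogeneous 𝒯 := by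
  set S : Set (Ideal T) := {I | ∃ x : T, SetLike.IsHomogeneousElem 𝒯 x ∧ x ∉ J ∧ I = colX J x}
    with hS
  have hSne : S.Nonempty :=
    ⟨colX J 1, 1, ⟨0, SetLike.one_mem_graded 𝒯⟩, fun h => hne ((Ideal.eq_top_iff_one J).mpr h), rfl⟩
  obtain ⟨I, ⟨x, hx, hxJ, rfl⟩, hmax⟩ := set_has_maximal_iff_noetherian.mpr
    (inferInstance : IsNoetherian T T) S hSne
  refine ⟨x, hx, hxJ, ?_, homog_colX 𝒯 hJ hx⟩
  refine isPrime_of_homog hG 𝒯 (homog_colX 𝒯 hJ hx) ?_ ?_
  · rw [Ne, Ideal.eq_top_iff_one, mem_colX, one_mul]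
    exact hxJ
  · intro f g hf hg hfg
    by_cases h1 : f ∈ colX J x
    · exact Or.inl h1
    · right
      have h2 : colX J (f * x) ∈ S := ⟨f * x, by
        obtain ⟨a, ha⟩ := hf
        obtain ⟨b, hb⟩ := hx
        exact ⟨a + b, SetLike.mul_mem_graded ha hb⟩, h1, rfl⟩
      have h3 : colX J x ≤ colX J (f * x) := by
        intro t ht
        rw [mem_colX] at ht ⊢
        have h4 : t * (f * x) = f * (t * x) := by ring
        rw [h4]
        exact J.mul_mem_left f ht
      have h4 : g ∈ colX J (f * x) := by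
        rw [mem_colX] at hfg ⊢
        have h5 : g * (f * x) = f * g * x := by ring
        rw [h5]
        exact hfg
      by_contra h5
      exact hmax _ h2 (lt_of_le_of_ne h3 (fun h6 => h5 (h6 ▸ h4)))

end prime

end Pool.Agent.RCH.Lat
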