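import Pool.Agent.RCH.LatD

/-!
# The index of a multiplication on a cyclic module over a big ring
-/

set_option autoImplicit false

open DirectSum

namespace Pool.Agent.RCH.Lat

section index

variable {R T : Type} [CommRing R] [CommRing T] [Algebra R T]

variable (R) in
/-- multiplication by `b` on `T / J`, as an `R`-linear map -/
noncomputable def mulT (b : T) (J : Ideal T) : (T ⧸ J) →ₗ[R] (T ⧸ J) :=
  LinearMap.mulLeft R (Ideal.Quotient.mk J b)

lemma mulT_mk (b t : T) (J : Ideal T) :
    mulT R b J (Ideal.Quotient.mk J t) = Ideal.Quotient.mk J (b * t) := by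
  rw [mulT, LinearMap.mulLeft_apply, map_mul]

variable (Q : Ideal R) [Q.IsPrime]

/-- the length at `Q` of the kernel of `b` on `T / J` -/
noncomputable def lk (b : T) (J : Ideal T) : ℕ∞ := len Q (LinearMap.ker (mulT R b J))

/-- the length at `Q` of the cokernel of `b` on `T / J` -/
noncomputable def lc (b : T) (J : Ideal T) : ℕ∞ :=
  len Q ((T ⧸ J) ⧸ LinearMap.range (mulT R b J))

/-- the index of `b` on `T / J` at `Q` -/
noncomputable def chi (b : T) (J : Ideal T) : ℤ := ((lc Q b J).toNat : ℤ) - ((lk Q b J).toNat : ℤ)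

/-- the index is defined -/
def Fin' (b : T) (J : Ideal T) : Prop := lc Q b J ≠ ⊤ ∧ lk Q b J ≠ ⊤

/-- the multiplication by `x`, from `T / (J : x)` to `T / J` -/
noncomputable def mulX (R : Type) [CommRing R] [Algebra R T] (J : Ideal T) (x : T) :
    (T ⧸ colX J x) →ₗ[R] (T ⧸ J) :=
  (Submodule.mapQ (colX J x) J (LinearMap.mulRight T x) le_rfl).restrictScalars R

lemma mulX_mk (J : Ideal T) (x t : T) :
    mulX R J x (Ideal.Quotient.mk _ t) = Ideal.Quotient.mk J (t * x) := rfl

lemma mulX_injective (J : Ideal T) (x : T) : Function.Injective (mulX R J x) := by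
  rw [← LinearMap.ker_eq_bot, LinearMap.ker_eq_bot']
  intro y hy
  obtain ⟨y, rfl⟩ := Ideal.Quotient.mk_surjective y
  rw [mulX_mk, Ideal.Quotient.eq_zero_iff_mem] at hy
  rw [Ideal.Quotient.eq_zero_iff_mem]
  exact hy

/-- the quotient map -/
noncomputable def facX (R : Type) [CommRing R] [Algebra R T] (J : Ideal T) (x : T) :
    (T ⧸ J) →ₗ[R] (T ⧸ (J ⊔ Ideal.span {x})) :=
  (Ideal.Quotient.factorₐ R (le_sup_left : J ≤ J ⊔ Ideal.span {x})).toLinearMap

lemma facX_mk (J : Ideal T) (x t : T) :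
    facX R J x (Ideal.Quotient.mk _ t) = Ideal.Quotient.mk _ t := rfl

lemma facX_surjective (J : Ideal T) (x : T) : Function.Surjective (facX R J x) := by
  intro y
  obtain ⟨y, rfl⟩ := Ideal.Quotient.mk_surjective y
  exact ⟨Ideal.Quotient.mk _ y, rfl⟩

lemma exact_X (J : Ideal T) (x : T) : Function.Exact (mulX R J x) (facX R J x) := by
  intro y
  obtain ⟨y, rfl⟩ := Ideal.Quotient.mk_surjective y
  rw [facX_mk, Ideal.Quotient.eq_zero_iff_mem]
  constructor
  · intro h
    obtain ⟨a, ha, c, hc, hac⟩ := Submodule.mem_sup.mp h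
    obtain ⟨t, rfl⟩ := Ideal.mem_span_singleton'.mp hc
    refine ⟨Ideal.Quotient.mk _ t, ?_⟩
    rw [mulX_mk, Ideal.Quotient.mk_eq_mk_iff_sub_mem, ← hac]
    have h1 : t * x - (a + t * x) = -a := by ring
    rw [h1]
    exact J.neg_mem ha
  · rintro ⟨z, hz⟩
    obtain ⟨z, rfl⟩ := Ideal.Quotient.mk_surjective z
    rw [mulX_mk, Ideal.Quotient.mk_eq_mk_iff_sub_mem] at hz
    have h1 : y = -(z * x - y) + z * x := by ring
    rw [h1]
    exact Submodule.add_mem_sup (J.neg_mem hz) (Ideal.mul_mem_left _ _ (Ideal.subset_span rfl))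

lemma comm_mulX (b : T) (J : Ideal T) (x : T) :
    mulX R J x ∘ₗ mulT R b (colX J x) = mulT R b J ∘ₗ mulX R J x := by
  refine LinearMap.ext fun y => ?_
  obtain ⟨y, rfl⟩ := Ideal.Quotient.mk_surjective y
  rw [LinearMap.comp_apply, LinearMap.comp_apply, mulT_mk, mulX_mk, mulX_mk, mulT_mk, mul_assoc]

lemma comm_facX (b : T) (J : Ideal T) (x : T) :
    facX R J x ∘ₗ mulT R b J = mulT R b (J ⊔ Ideal.span {x}) ∘ₗ facX R J x := by
  refine LinearMap.ext fun y => ?_
  obtain ⟨y, rfl⟩ := Ideal.Quotient.mk_surjective y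
  rw [LinearMap.comp_apply, LinearMap.comp_apply, mulT_mk, facX_mk, facX_mk, mulT_mk]

lemma fin_add {b : T} {J : Ideal T} {x : T} (h1 : Fin' Q b (colX J x))
    (h2 : Fin' Q b (J ⊔ Ideal.span {x})) : Fin' Q b J := by
  constructor
  · exact ne_top_of_le_ne_top (WithTop.add_ne_top.mpr ⟨h1.1, h2.1⟩)
      (len_coker_le Q (mulX R J x) (facX R J x) (facX_surjective J x) (exact_X J x)
        (comm_mulX b J x) (comm_facX b J x))
  · exact ne_top_of_le_ne_top (WithTop.add_ne_top.mpr ⟨h1.2, h2.2⟩)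
      (len_ker_le Q (mulX R J x) (facX R J x) (mulX_injective J x) (exact_X J x)
        (comm_mulX b J x) (comm_facX b J x))

/-- the index is additive -/
theorem chi_add {b : T} {J : Ideal T} {x : T} (h1 : Fin' Q b (colX J x))
    (h2 : Fin' Q b (J ⊔ Ideal.span {x})) :
    chi Q b J = chi Q b (colX J x) + chi Q b (J ⊔ Ideal.span {x}) := by
  have h3 := fin_add Q h1 h2
  have h := len_snake Q (mulX R J x) (facX R J x) (mulX_injective J x) (facX_surjective J x)
    (exact_X J x) (comm_mulX b J x) (comm_facX b J x)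
  change lk Q b (colX J x) + lk Q b (J ⊔ Ideal.span {x}) + lc Q b J =
    lk Q b J + lc Q b (colX J x) + lc Q b (J ⊔ Ideal.span {x}) at h
  obtain ⟨a1, e1⟩ := ENat.ne_top_iff_exists.mp h1.1
  obtain ⟨a2, e2⟩ := ENat.ne_top_iff_exists.mp h1.2
  obtain ⟨a3, e3⟩ := ENat.ne_top_iff_exists.mp h2.1
  obtain ⟨a4, e4⟩ := ENat.ne_top_iff_exists.mp h2.2
  obtain ⟨a5, e5⟩ := ENat.ne_top_iff_exists.mp h3.1
  obtain ⟨a6, e6⟩ := ENat.ne_top_iff_exists.mp h3.2
  unfold chi
  rw [← e1, ← e2, ← e3, ← e4, ← e5, ← e6] at h ⊢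
  have h' : a2 + a4 + a5 = a6 + a1 + a3 := by exact_mod_cast h
  simp only [ENat.toNat_natCast]
  omega

/-- the cokernel -/
theorem lc_eq (b : T) (J : Ideal T) : lc Q b J = len Q (T ⧸ (J ⊔ Ideal.span {b})) := by
  have h1 : LinearMap.range (mulT R b J) = LinearMap.ker (facX R J b) := by
    ext y
    obtain ⟨y, rfl⟩ := Ideal.Quotient.mk_surjective y
    rw [LinearMap.mem_ker, LinearMap.mem_range, facX_mk, Ideal.Quotient.eq_zero_iff_mem]
    constructor
    · rintro ⟨z, hz⟩
      obtain ⟨z, rfl⟩ := Ideal.Quotient.mk_surjective z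
      rw [mulT_mk, Ideal.Quotient.mk_eq_mk_iff_sub_mem] at hz
      have h2 : y = -(b * z - y) + z * b := by ring
      rw [h2]
      exact Submodule.add_mem_sup (J.neg_mem hz) (Ideal.mul_mem_left _ _ (Ideal.subset_span rfl))
    · intro h
      obtain ⟨a, ha, c, hc, hac⟩ := Submodule.mem_sup.mp h
      obtain ⟨t, rfl⟩ := Ideal.mem_span_singleton'.mp hc
      refine ⟨Ideal.Quotient.mk _ t, ?_⟩
      rw [mulT_mk, Ideal.Quotient.mk_eq_mk_iff_sub_mem, ← hac]
      have h1 : b * t - (a + t * b) = -a := by ring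
      rw [h1]
      exact J.neg_mem ha
  rw [lc, h1]
  exact len_equiv Q ((facX R J b).quotKerEquivOfSurjective (facX_surjective J b))

/-- the kernel, for a nonzerodivisor -/
theorem lk_eq_zero (b : T) (J : Ideal T) (h : ∀ t, b * t ∈ J → t ∈ J) : lk Q b J = 0 := by
  have h1 : LinearMap.ker (mulT R b J) = ⊥ := by
    rw [LinearMap.ker_eq_bot']
    intro y hy
    obtain ⟨y, rfl⟩ := Ideal.Quotient.mk_surjective y
    rw [mulT_mk, Ideal.Quotient.eq_zero_iff_mem] at hy
    rw [Ideal.Quotient.eq_zero_iff_mem]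
    exact h y hy
  rw [lk, h1]
  exact len_eq_zero Q

/-- a module killed by an element outside `Q` -/
lemma len_zero_of_smul {M : Type} [AddCommGroup M] [Module R M] (s : R) (hs : s ∉ Q)
    (h : ∀ m : M, s • m = 0) : len Q M = 0 := by
  have h1 : Subsingleton (LocalizedModule Q.primeCompl M) := by
    refine LocalizedModule.subsingleton_iff.mpr fun m => ⟨s, hs, h m⟩
  exact Module.length_eq_zero

/-- a module killed by `Q` -/
lemma len_ne_top_of_smul {M : Type} [AddCommGroup M] [Module R M]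
    (hfin : Module.Finite (Localization.AtPrime Q) (LocalizedModule Q.primeCompl M))
    (h : ∀ r ∈ Q, ∀ m : M, r • m = 0) : len Q M ≠ ⊤ := by
  obtain ⟨n, π, hπ⟩ := Module.Finite.exists_fin' (Localization.AtPrime Q)
    (LocalizedModule Q.primeCompl M)
  set m := IsLocalRing.maximalIdeal (Localization.AtPrime Q) with hm
  have hkill : ∀ r ∈ m, ∀ y : LocalizedModule Q.primeCompl M, r • y = 0 := by
    intro r hr y
    rw [hm, ← Localization.AtPrime.map_eq_maximalIdeal] at hr
    induction hr using Submodule.span_induction with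
    | mem x hx =>
      obtain ⟨r, hr, rfl⟩ := hx
      induction y using LocalizedModule.induction_on with
      | _ z s => rw [algebraMap_smul, LocalizedModule.smul'_mk, h r hr, LocalizedModule.zero_mk]
    | zero => exact zero_smul _ _
    | add a b _ _ ha hb => rw [add_smul, ha, hb, add_zero]
    | smul a b _ hb => rw [smul_assoc, hb, smul_zero]
  have h1 : Submodule.pi Set.univ (fun _ : Fin n => m) ≤ LinearMap.ker π := by
    intro x hx
    rw [LinearMap.mem_ker, pi_eq_sum_univ x, map_sum]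
    refine Finset.sum_eq_zero fun i _ => ?_
    rw [map_smul]
    exact hkill _ (hx i trivial) _
  have h2 : Function.Surjective (Submodule.liftQ _ π h1) := by
    intro y
    obtain ⟨x, rfl⟩ := hπ y
    exact ⟨Submodule.Quotient.mk x, rfl⟩
  have h3 := Module.length_le_of_surjective _ h2
  have h4 : Module.length (Localization.AtPrime Q)
      ((Fin n → Localization.AtPrime Q) ⧸ Submodule.pi Set.univ (fun _ : Fin n => m)) ≠ ⊤ := by
    rw [(Submodule.quotientPi (fun _ : Fin n => m)).length_eq, Module.length_pi_of_fintype]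
    have h5 : IsSimpleModule (Localization.AtPrime Q) (Localization.AtPrime Q ⧸ m) :=
      isSimpleModule_iff_isCoatom.2 (IsLocalRing.maximalIdeal.isMaximal _).out
    have h6 : Module.length (Localization.AtPrime Q) (Localization.AtPrime Q ⧸ m) = 1 :=
      Module.length_eq_one _ _
    rw [h6]
    simp
  exact ne_top_of_le_ne_top h4 h3

/-- finite modules -/
lemma chi_zero_of_ne_top (b : T) (J : Ideal T) (h : len Q (T ⧸ J) ≠ ⊤) :
    Fin' Q b J ∧ chi Q b J = 0 := by
  have h1 := len_ker_range Q (mulT R b J)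
  have h2 := len_sub_quot Q (LinearMap.range (mulT R b J))
  have h3 : Fin' Q b J := by
    constructor
    · intro h0
      rw [lc] at h0
      rw [h0, add_top] at h2
      exact h h2
    · intro h0
      rw [lk] at h0
      rw [h0, top_add] at h1
      exact h h1
  refine ⟨h3, ?_⟩
  have h4 : len Q (LinearMap.range (mulT R b J)) ≠ ⊤ := by
    intro h0
    rw [h0, add_top] at h1
    exact h h1
  have h5 : lk Q b J = lc Q b J := by
    rw [h1, add_comm] at h2
    exact ENat.add_right_injective_of_ne_top h4 h2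
  rw [chi, h5, sub_self]

end index

end Pool.Agent.RCH.Lat
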