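import Pool.Agent.RCH.LatE
import Pool.Agent.RCH.Fin
import Pool.Agent.RCH.DgDim

/-!
# The points below the homogeneous primes of a big ring
-/

set_option autoImplicit false

open MvPolynomial DirectSum

namespace Pool.Agent.RCH.Lat

/-- a multidegree, with integral entries -/
def cst {N : ℕ} (e : Fin N → ℕ) : Fin N → ℤ := fun i => (e i : ℤ)

lemma cst_injective {N : ℕ} : Function.Injective (cst (N := N)) := by
  intro e e' h
  ext i
  exact Nat.cast_injective (congrFun h i)

lemma cst_add {N : ℕ} (e e' : Fin N → ℕ) : cst (e + e') = cst e + cst e' := by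
  ext i
  simp [cst]

lemma cst_zero {N : ℕ} : cst (0 : Fin N → ℕ) = 0 := by
  ext i
  simp [cst]

lemma cst_nsmul {N : ℕ} (n : ℕ) (e : Fin N → ℕ) : cst (n • e) = n • cst e := by
  ext i
  simp [cst]

section big

variable {ι : Type} {X : WVar ι} {N : ℕ} {T : Type} [CommRing T] [Algebra ℂ T]
  [Algebra (Coord ι N) T] [IsScalarTower ℂ (Coord ι N) T] (𝒯 : (Fin N → ℤ) → Submodule ℂ T)
  [GradedAlgebra 𝒯]
  (hT : ∀ v, algebraMap (Coord ι N) T (MvPolynomial.X v) ∈ 𝒯 (cst (X.mdeg N v)))

include hT

/-- the structure map is homogeneous -/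
theorem map_mem {p : Coord ι N} {e : Fin N → ℕ} (hp : IsWeightedHomogeneous (X.mdeg N) p e) :
    algebraMap (Coord ι N) T p ∈ 𝒯 (cst e) := by
  classical
  rw [p.as_sum, map_sum]
  refine Submodule.sum_mem _ fun d hd => ?_
  have h1 : Finsupp.weight (X.mdeg N) d = e := hp (mem_support_iff.mp hd)
  rw [monomial_eq, map_mul, ← MvPolynomial.algebraMap_eq, ← IsScalarTower.algebraMap_apply,
    ← Algebra.smul_def]
  refine Submodule.smul_mem _ _ ?_
  rw [Finsupp.prod, map_prod, ← h1, Finsupp.weight_apply, Finsupp.sum]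
  have h2 : cst (∑ a ∈ d.support, d a • X.mdeg N a) = ∑ a ∈ d.support, d a • cst (X.mdeg N a) := by
    have h3 := map_sum ({ toFun := cst, map_zero' := cst_zero, map_add' := cst_add } :
      (Fin N → ℕ) →+ (Fin N → ℤ)) (fun a => d a • X.mdeg N a) d.support
    refine h3.trans (Finset.sum_congr rfl fun a _ => cst_nsmul _ _)
  rw [h2]
  refine SetLike.prod_mem_graded (A := 𝒯) _ _ fun v _ => ?_
  rw [map_pow]
  exact SetLike.pow_mem_graded _ (hT v)

/-- the components of the image of a polynomial -/
theorem decompose_algebraMap (p : Coord ι N) (e : Fin N → ℕ) :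
    ((decompose 𝒯 (algebraMap (Coord ι N) T p) (cst e) : 𝒯 (cst e)) : T) =
      algebraMap (Coord ι N) T (weightedHomogeneousComponent (X.mdeg N) e p) := by
  classical
  have h0 : algebraMap (Coord ι N) T p = ∑ᶠ e', algebraMap (Coord ι N) T
      (weightedHomogeneousComponent (X.mdeg N) e' p) := by
    conv_lhs => rw [← sum_weightedHomogeneousComponent (X.mdeg N) p]
    exact (algebraMap (Coord ι N) T).toAddMonoidHom.map_finsum
      (weightedHomogeneousComponent_finsupp p)
  have hfin : (Function.support fun e' => algebraMap (Coord ι N) T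
      (weightedHomogeneousComponent (X.mdeg N) e' p)).Finite := by
    refine (weightedHomogeneousComponent_finsupp (w := X.mdeg N) p).subset fun e' he' => ?_
    rw [Function.mem_support] at he' ⊢
    intro h1
    rw [h1, map_zero] at he'
    exact he' rfl
  rw [finsum_eq_sum_of_support_subset _ (s := hfin.toFinset ∪ {e})
    (by intro x hx; rw [Finset.mem_coe, Finset.mem_union]; left; rwa [Set.Finite.mem_toFinset])]
    at h0
  rw [h0, decompose_sum, DFinsupp.finsetSum_apply, AddSubmonoidClass.coe_finsetSum,
    Finset.sum_eq_single e]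
  · exact decompose_of_mem_same 𝒯
      (map_mem 𝒯 hT (weightedHomogeneousComponent_isWeightedHomogeneous e p))
  · intro e' _ hne
    exact decompose_of_mem_ne 𝒯
      (map_mem 𝒯 hT (weightedHomogeneousComponent_isWeightedHomogeneous e' p))
      (fun h => hne (cst_injective h))
  · intro h
    exact absurd (Finset.mem_union_right _ (Finset.mem_singleton_self e)) h

/-- the homogeneous prime of `X^N` below a homogeneous prime of the big ring -/
noncomputable def below {q : Ideal T} (hq : q.IsPrime) (hqh : q.IsHomogeneous 𝒯)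
    (hrel : ∀ i : Fin N, ∃ j : ι, (MvPolynomial.X (i, j) : Coord ι N) ∉
      q.comap (algebraMap (Coord ι N) T))
    (heq : ∀ (i : Fin N), ∀ f ∈ X.eqs, algebraMap (Coord ι N) T (inFactor N i f) ∈ q) : Pt X N where
  I := q.comap (algebraMap (Coord ι N) T)
  prime := Ideal.comap_isPrime _ _
  homog := by
    intro p hp e
    rw [Ideal.mem_comap] at hp ⊢
    rw [← decompose_algebraMap 𝒯 hT]
    exact hqh _ hp
  relevant := hrel
  onX := heq

end big

end Pool.Agent.RCH.Lat
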