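import Pool.Agent.RCH.MTd

/-!
# Finiteness of a localized algebra

Let `B` be an `R`-algebra of finite type and `Q` a prime ideal of `R`. If `B` is integral over `R`
near `Q` (`IntAt`) then the localization of `B` at `Q` is a finite module over `R_Q`.
-/

set_option autoImplicit false

namespace Pool.Agent.RCH

open TensorProduct

section

variable {R A B : Type} [CommRing R] [CommRing A] [CommRing B] [Algebra R A] [Algebra R B]

/-- an algebra of finite type, all of whose elements are integral after multiplication by elements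
which become units, is finite -/
theorem finite_tensor [Algebra.FiniteType R B]
    (h : ∀ x : B, ∃ s : R, IsUnit (algebraMap R A s) ∧ IsIntegral R (algebraMap R B s * x)) :
    Module.Finite A (A ⊗[R] B) := by
  have hB : ∀ b : B, IsIntegral A ((1 : A) ⊗ₜ[R] b) := by
    intro b
    obtain ⟨s, ⟨u, hu⟩, hs⟩ := h b
    have h1 : IsIntegral A ((1 : A) ⊗ₜ[R] (algebraMap R B s * b)) := by
      have h2 : IsIntegral R ((Algebra.TensorProduct.includeRight : B →ₐ[R] A ⊗[R] B)
        (algebraMap R B s * b)) := hs.map _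
      exact h2.tower_top
    have h3 : (1 : A) ⊗ₜ[R] b = algebraMap A (A ⊗[R] B) (↑u⁻¹ : A) *
        ((1 : A) ⊗ₜ[R] (algebraMap R B s * b)) := by
      rw [← Algebra.smul_def, ← Algebra.smul_def s b, TensorProduct.tmul_smul,
        TensorProduct.smul_tmul', TensorProduct.smul_tmul', Algebra.smul_def s (1 : A), ← hu,
        smul_eq_mul, mul_one, Units.inv_mul]
    rw [h3]
    exact isIntegral_algebraMap.mul h1
  have : Algebra.IsIntegral A (A ⊗[R] B) := by
    refine ⟨fun z => ?_⟩
    induction z with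
    | zero => exact isIntegral_zero
    | tmul a b =>
      have h1 : a ⊗ₜ[R] b = algebraMap A (A ⊗[R] B) a * ((1 : A) ⊗ₜ[R] b) := by
        rw [← Algebra.smul_def, TensorProduct.smul_tmul', smul_eq_mul, mul_one]
      rw [h1]
      exact isIntegral_algebraMap.mul (hB b)
    | add x y hx hy => exact hx.add hy
  exact Algebra.IsIntegral.finite

/-- **(L4)** an algebra of finite type which is integral near `Q` is finite over `R_Q` -/
theorem IntAt.finite [Algebra.FiniteType R B] {Q : Ideal R} [Q.IsPrime] (h : IntAt R B Q) :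
    Module.Finite (Localization.AtPrime Q) (LocalizedModule Q.primeCompl B) := by
  have h2 : Module.Finite (Localization.AtPrime Q) (Localization.AtPrime Q ⊗[R] B) :=
    finite_tensor fun x => (h x).imp fun s hs =>
      ⟨IsLocalization.map_units (M := Q.primeCompl) (Localization.AtPrime Q) ⟨s, hs.1⟩, hs.2⟩
  exact Module.Finite.equiv (LocalizedModule.equivTensorProduct Q.primeCompl B).symm

/-- a root of `a X ^ w - b` with `a` not in `Q` -/
theorem exists_isIntegral_of_pow {Q : Ideal R} {x : B} {a b : R} {w : ℕ} (hw : w ≠ 0) (ha : a ∉ Q)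
    (h : algebraMap R B a * x ^ w = algebraMap R B b) :
    ∃ s : R, s ∉ Q ∧ IsIntegral R (algebraMap R B s * x) := by
  refine ⟨a, ha, IsIntegral.of_pow (Nat.pos_of_ne_zero hw) ?_⟩
  obtain ⟨w, rfl⟩ : ∃ k, w = k + 1 := ⟨w - 1, by omega⟩
  have h1 : (algebraMap R B a * x) ^ (w + 1) = algebraMap R B (a ^ w * b) := by
    rw [mul_pow, pow_succ (algebraMap R B a), mul_assoc, h, ← map_pow, ← map_mul]
  rw [h1]
  exact isIntegral_algebraMap

theorem exists_isIntegral_mul {Q : Ideal R} [hQ : Q.IsPrime] {x y : B}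
    (hx : ∃ s : R, s ∉ Q ∧ IsIntegral R (algebraMap R B s * x))
    (hy : ∃ s : R, s ∉ Q ∧ IsIntegral R (algebraMap R B s * y)) :
    ∃ s : R, s ∉ Q ∧ IsIntegral R (algebraMap R B s * (x * y)) := by
  obtain ⟨s, hs, hsx⟩ := hx
  obtain ⟨t, ht, hty⟩ := hy
  refine ⟨s * t, fun h => (hQ.mem_or_mem h).elim hs ht, ?_⟩
  have h1 : algebraMap R B (s * t) * (x * y) =
      (algebraMap R B s * x) * (algebraMap R B t * y) := by
    rw [map_mul]
    ring
  rw [h1]
  exact hsx.mul hty

theorem exists_isIntegral_pow {Q : Ideal R} [hQ : Q.IsPrime] {x : B}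
    (hx : ∃ s : R, s ∉ Q ∧ IsIntegral R (algebraMap R B s * x)) (n : ℕ) :
    ∃ s : R, s ∉ Q ∧ IsIntegral R (algebraMap R B s * x ^ n) := by
  obtain ⟨s, hs, hsx⟩ := hx
  refine ⟨s ^ n, fun h => hs (hQ.mem_of_pow_mem n h), ?_⟩
  rw [map_pow, ← mul_pow]
  exact hsx.pow n

theorem exists_isIntegral_algebraMap {Q : Ideal R} [hQ : Q.IsPrime] (r : R) :
    ∃ s : R, s ∉ Q ∧ IsIntegral R (algebraMap R B s * algebraMap R B r) :=
  ⟨1, fun h => hQ.ne_top ((Ideal.eq_top_iff_one Q).2 h), by
    rw [← map_mul]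
    exact isIntegral_algebraMap⟩

/-- a root of a polynomial over `R` whose leading coefficient is not in `Q` -/
theorem exists_isIntegral_of_poly {Q : Ideal R} {x : B} {p : Polynomial R}
    (hp : p.leadingCoeff ∉ Q) (h : Polynomial.aeval x p = 0) :
    ∃ s : R, s ∉ Q ∧ IsIntegral R (algebraMap R B s * x) := by
  refine ⟨p.leadingCoeff, hp, ?_⟩
  have h1 := isIntegral_leadingCoeff_smul p x h
  rwa [Algebra.smul_def] at h1

end

section

variable {σ : Type} {R : Type} [CommRing R] [Algebra ℂ R]
    [Algebra R (MvPolynomial σ ℂ)] [IsScalarTower ℂ R (MvPolynomial σ ℂ)]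

/-- a quotient of a polynomial ring is integral near `Q` if the variables are -/
theorem IntAt.of_X (J : Ideal (MvPolynomial σ ℂ)) {Q : Ideal R} [Q.IsPrime]
    (h : ∀ i, ∃ s : R, s ∉ Q ∧ IsIntegral R (algebraMap R (MvPolynomial σ ℂ ⧸ J) s *
      Ideal.Quotient.mk J (MvPolynomial.X i))) : IntAt R (MvPolynomial σ ℂ ⧸ J) Q := by
  refine IntAt.of_gens (fun i => Ideal.Quotient.mk J (MvPolynomial.X i)) ?_ h
  rw [eq_top_iff]
  rintro x -
  obtain ⟨x, rfl⟩ := Ideal.Quotient.mk_surjective x
  induction x using MvPolynomial.induction_on with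
  | C a =>
    have h2 : (MvPolynomial.C a : MvPolynomial σ ℂ) =
        algebraMap R (MvPolynomial σ ℂ) (algebraMap ℂ R a) := by
      rw [← IsScalarTower.algebraMap_apply]
      rfl
    rw [h2]
    exact Subalgebra.algebraMap_mem _ (algebraMap ℂ R a)
  | add x y hx hy =>
    rw [map_add]
    exact add_mem hx hy
  | mul_X x i hx =>
    rw [map_mul]
    exact mul_mem hx (Algebra.subset_adjoin ⟨i, rfl⟩)

end

end Pool.Agent.RCH
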