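import Pool.Agent.RCH.Defs
import Pool.Agent.RCH.MHom

/-!
# Degrees in `ℕ^N` and in `ℤ^N`
-/

set_option autoImplicit false

open MvPolynomial DirectSum

namespace Pool.Agent.RCH

section Zdeg

variable {τ : Type} {N : ℕ} (w : τ → Fin N → ℕ)

/-- the weights `w`, read in `ℤ^N` -/
def wZ (v : τ) (i : Fin N) : ℤ := (w v i : ℤ)

/-- a degree in `ℕ^N`, read in `ℤ^N` -/
def castZ (e : Fin N → ℕ) (i : Fin N) : ℤ := (e i : ℤ)

theorem castZ_injective : Function.Injective (castZ (N := N)) := by
  intro e e' h
  ext i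
  exact Int.ofNat_inj.1 (congrFun h i)

theorem weight_wZ (d : τ →₀ ℕ) : Finsupp.weight (wZ w) d = castZ (Finsupp.weight w d) := by
  ext i
  simp [Finsupp.weight_apply, Finsupp.sum, wZ, castZ, Finset.sum_apply]

theorem isWH_castZ {p : MvPolynomial τ ℂ} {e : Fin N → ℕ} :
    IsWeightedHomogeneous (wZ w) p (castZ e) ↔ IsWeightedHomogeneous w p e := by
  constructor
  · intro h d hd
    have := h hd
    rw [weight_wZ] at this
    exact castZ_injective this
  · intro h d hd
    rw [weight_wZ, h hd]

theorem exists_nat_degree {p : MvPolynomial τ ℂ} {δ : Fin N → ℤ}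
    (h : IsWeightedHomogeneous (wZ w) p δ) (hp : p ≠ 0) :
    ∃ e : Fin N → ℕ, castZ e = δ ∧ IsWeightedHomogeneous w p e := by
  obtain ⟨d, hd⟩ := MvPolynomial.ne_zero_iff.1 hp
  have h1 := h hd
  rw [weight_wZ] at h1
  exact ⟨_, h1, (isWH_castZ w).1 (by rwa [h1])⟩

theorem component_castZ (p : MvPolynomial τ ℂ) (e : Fin N → ℕ) :
    weightedHomogeneousComponent (wZ w) (castZ e) p = weightedHomogeneousComponent w e p := by
  classical
  ext d
  rw [coeff_weightedHomogeneousComponent, coeff_weightedHomogeneousComponent, weight_wZ]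
  by_cases hd : Finsupp.weight w d = e
  · rw [if_pos hd, if_pos (by rw [hd])]
  · rw [if_neg hd, if_neg fun h => hd (castZ_injective h)]

/-- an ideal which is homogeneous for the `ℕ^N`-grading is so for the `ℤ^N`-grading -/
theorem component_wZ_mem {I : Ideal (MvPolynomial τ ℂ)}
    (hI : ∀ p ∈ I, ∀ e : Fin N → ℕ, weightedHomogeneousComponent w e p ∈ I)
    {p : MvPolynomial τ ℂ} (hp : p ∈ I) (δ : Fin N → ℤ) :
    weightedHomogeneousComponent (wZ w) δ p ∈ I := by
  by_cases h0 : weightedHomogeneousComponent (wZ w) δ p = 0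
  · rw [h0]
    exact I.zero_mem
  · obtain ⟨e, he, -⟩ := exists_nat_degree w
      (weightedHomogeneousComponent_isWeightedHomogeneous (w := wZ w) δ p) h0
    rw [← he, component_castZ]
    exact hI p hp e

/-- the component in the graded algebra is the homogeneous component -/
theorem decompose_eq_component {σ : Type} {G : Type} [AddCommGroup G] [DecidableEq G]
    (wt : σ → G) (p : MvPolynomial σ ℂ) (g : G) :
    letI := weightedGradedAlgebra ℂ wt
    ((decompose (weightedHomogeneousSubmodule ℂ wt) p g : weightedHomogeneousSubmodule ℂ wt g) :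
      MvPolynomial σ ℂ) = weightedHomogeneousComponent wt g p :=
  weightedDecomposition.decompose'_apply ℂ wt p g

end Zdeg

end Pool.Agent.RCH
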