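import Pool.Agent.RCH.MRelB
import Pool.Agent.RCH.MZdeg

/-!
# The relation lemma for one homogeneous prime (REL1)
-/

set_option autoImplicit false
set_option linter.style.haveILetI false

open MvPolynomial DirectSum

namespace Pool.Agent.RCH

section hom

variable {τ : Type} {N : ℕ} {T : Type} [CommRing T] [Algebra ℂ T]
  (𝒯 : (Fin N → ℤ) → Submodule ℂ T) [GradedAlgebra 𝒯]

/-- an algebra homomorphism sending the variables to homogeneous elements of the right degrees is a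
graded homomorphism -/
theorem map_mem_of_X (w : τ → Fin N → ℕ) (φ : MvPolynomial τ ℂ →ₐ[ℂ] T)
    (hX : ∀ v, φ (MvPolynomial.X v) ∈ 𝒯 (castZ (w v))) (δ : Fin N → ℤ) (a : MvPolynomial τ ℂ)
    (ha : IsWeightedHomogeneous (wZ w) a δ) : φ a ∈ 𝒯 δ := by
  classical
  rw [MvPolynomial.as_sum a, map_sum]
  refine Submodule.sum_mem _ fun d hd => ?_
  rw [monomial_eq, ← smul_eq_C_mul, map_smul]
  refine Submodule.smul_mem _ _ ?_
  rw [Finsupp.prod, map_prod]
  simp only [map_pow]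
  have h1 := SetLike.prod_pow_mem_graded 𝒯 (fun v => castZ (w v))
    (fun v => φ (MvPolynomial.X v)) (F := d.support) (fun v => d v) (fun v _ => hX v)
  have h2 : ∑ v ∈ d.support, d v • castZ (w v) = δ := by
    rw [← ha (mem_support_iff.1 hd), Finsupp.weight_apply, Finsupp.sum]
    rfl
  rwa [h2] at h1

end hom

section span

variable {T K E : Type} [CommRing T] [Field K] [Field E] [Algebra K E] (fT : T →+* E)

/-- the image of `T` spans `E` over `K`, if it spans a finite dimensional space -/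
theorem span_range_eq_top_of_finite
    (hE : ∀ x : E, ∃ a s : T, fT s ≠ 0 ∧ x * fT s = fT a)
    (hfin : Module.Finite K (Submodule.span K (Set.range fT))) :
    Submodule.span K (Set.range fT) = ⊤ := by
  have h1 : (Subalgebra.toSubmodule (Algebra.adjoin K (Set.range fT))) =
      Submodule.span K (Set.range fT) := by
    rw [Algebra.adjoin_eq_span]
    congr 1
    exact SetLike.ext'_iff.1 (Submonoid.closure_eq (MonoidHom.mrange fT.toMonoidHom))
  have h2 : Module.Finite K (Algebra.adjoin K (Set.range fT)) := by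
    have h3 : Module.Finite K (Subalgebra.toSubmodule (Algebra.adjoin K (Set.range fT))) := by
      rw [h1]
      exact hfin
    exact h3
  rw [← h1, eq_top_iff]
  intro x _
  obtain ⟨a, s, hs, hx⟩ := hE x
  have ha : fT a ∈ Algebra.adjoin K (Set.range fT) := Algebra.subset_adjoin ⟨a, rfl⟩
  have hs' : fT s ∈ Algebra.adjoin K (Set.range fT) := Algebra.subset_adjoin ⟨s, rfl⟩
  have halg : IsAlgebraic K (fT s) := by
    have h4 : IsIntegral K (⟨fT s, hs'⟩ : Algebra.adjoin K (Set.range fT)) :=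
      Algebra.IsIntegral.isIntegral _
    exact (h4.map (Algebra.adjoin K (Set.range fT)).val).isAlgebraic
  have hinv : (fT s)⁻¹ ∈ Algebra.adjoin K (Set.range fT) := by
    have := (Algebra.adjoin K (Set.range fT)).inv_mem_of_algebraic (x := ⟨fT s, hs'⟩) halg
    exact this
  have hx' : x = fT a * (fT s)⁻¹ := by rw [← hx, mul_assoc, mul_inv_cancel₀ hs, mul_one]
  rw [hx']
  exact (Algebra.adjoin K (Set.range fT)).mul_mem ha hinv

end span

section coker

variable {R T : Type} [CommRing R] [CommRing T] [Algebra R T]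

theorem len_coker_mul (Q : Ideal R) [Q.IsPrime] (q : Ideal T) (b : T) :
    len Q ((T ⧸ q) ⧸ LinearMap.range (Algebra.lmul R (T ⧸ q) (Ideal.Quotient.mk q b))) =
      len Q (T ⧸ (q ⊔ Ideal.span {b})) := by
  have h1 : LinearMap.range (Algebra.lmul R (T ⧸ q) (Ideal.Quotient.mk q b)) =
      (((Ideal.span {b}).map (Ideal.Quotient.mk q) : Ideal (T ⧸ q)) :
        Submodule (T ⧸ q) (T ⧸ q)).restrictScalars R := by
    rw [Ideal.map_span, Set.image_singleton]
    ext x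
    rw [LinearMap.mem_range, Submodule.restrictScalars_mem, Ideal.mem_span_singleton']
    constructor
    · rintro ⟨y, hy⟩
      exact ⟨y, by rw [← hy, mul_comm]; rfl⟩
    · rintro ⟨y, hy⟩
      exact ⟨y, by rw [← hy, mul_comm]; rfl⟩
  let I : Ideal (T ⧸ q) := (Ideal.span {b}).map (Ideal.Quotient.mk q)
  let e1 : ((T ⧸ q) ⧸ LinearMap.range (Algebra.lmul R (T ⧸ q) (Ideal.Quotient.mk q b))) ≃ₗ[R]
      ((T ⧸ q) ⧸ ((I : Submodule (T ⧸ q) (T ⧸ q)).restrictScalars R)) :=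
    Submodule.quotEquivOfEq _ _ h1
  let e2 : ((T ⧸ q) ⧸ ((I : Submodule (T ⧸ q) (T ⧸ q)).restrictScalars R)) ≃ₗ[R] ((T ⧸ q) ⧸ I) :=
    Submodule.Quotient.restrictScalarsEquiv R (I : Submodule (T ⧸ q) (T ⧸ q))
  let e3 : ((T ⧸ q) ⧸ I) ≃ₗ[R] (T ⧸ (q ⊔ Ideal.span {b})) :=
    (DoubleQuot.quotQuotEquivQuotSupₐ R q (Ideal.span {b})).toLinearEquiv
  exact len_equiv Q ((e1.trans e2).trans e3)

end coker

section rel

variable {ι : Type} (X : WVar ι) {N : ℕ} {T : Type} [CommRing T] [Algebra ℂ T]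
  [Algebra (Coord ι N) T] [IsScalarTower ℂ (Coord ι N) T] [Fintype ι]
  (𝒯 : (Fin N → ℤ) → Submodule ℂ T) [GradedAlgebra 𝒯]
  (hX : ∀ v : Fin N × ι, algebraMap (Coord ι N) T (MvPolynomial.X v) ∈ 𝒯 (castZ (X.mdeg N v)))

include hX in
/-- (REL1) the relation lemma for one homogeneous prime -/
theorem rel1_fin (q : Ideal T) [q.IsPrime] (hq : q.IsHomogeneous 𝒯) {δ : Fin N → ℤ} {b b' : T}
    (hb : b ∈ 𝒯 δ) (hb' : b' ∈ 𝒯 δ) (hbq : b ∉ q) (hbq' : b' ∉ q) (P : Pt X N)
    (hP : P.I = q.comap (algebraMap (Coord ι N) T)) :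
    ∃ (g h : Coord ι N) (e : Fin N → ℕ), IsWeightedHomogeneous (X.mdeg N) g e ∧
      IsWeightedHomogeneous (X.mdeg N) h e ∧ g ∉ P.I ∧ h ∉ P.I ∧
      ∀ Q : Pt X N, CodimOne P.I Q.I →
        haveI := Q.prime
        Module.Finite (Localization.AtPrime Q.I) (LocalizedModule Q.I.primeCompl (T ⧸ q)) →
        len Q.I (T ⧸ (q ⊔ Ideal.span {b})) ≠ ⊤ ∧ len Q.I (T ⧸ (q ⊔ Ideal.span {b'})) ≠ ⊤ ∧
        ((len Q.I (T ⧸ (q ⊔ Ideal.span {b}))).toNat : ℤ) -
            (len Q.I (T ⧸ (q ⊔ Ideal.span {b'}))).toNat =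
          (ordAt P.I Q.I g).toNat - (ordAt P.I Q.I h).toNat := by
  classical
  by_cases hex : ∃ Q : Pt X N, CodimOne P.I Q.I ∧
      haveI := Q.prime
      Module.Finite (Localization.AtPrime Q.I) (LocalizedModule Q.I.primeCompl (T ⧸ q))
  swap
  · refine ⟨1, 1, 0, isWeightedHomogeneous_one _ _, isWeightedHomogeneous_one _ _, ?_, ?_, ?_⟩
    · exact fun h => P.prime.ne_top ((Ideal.eq_top_iff_one _).2 h)
    · exact fun h => P.prime.ne_top ((Ideal.eq_top_iff_one _).2 h)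
    · intro Q hc hf
      exact absurd ⟨Q, hc, hf⟩ hex
  obtain ⟨Q₀, hc₀, hf₀⟩ := hex
  have := P.prime
  -- the fields
  let A := Coord ι N ⧸ P.I
  let K := FractionRing A
  let E := FractionRing (T ⧸ q)
  let fR : Coord ι N →+* K := (algebraMap A K).comp (Ideal.Quotient.mk P.I)
  let fT : T →+* E := (algebraMap (T ⧸ q) E).comp (Ideal.Quotient.mk q)
  have hkerR : ∀ a, fR a = 0 ↔ a ∈ P.I := by
    intro a
    change algebraMap A K (Ideal.Quotient.mk P.I a) = 0 ↔ _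
    rw [FaithfulSMul.algebraMap_eq_zero_iff, Ideal.Quotient.eq_zero_iff_mem]
  have hkerT : ∀ a, fT a = 0 ↔ a ∈ q := by
    intro a
    change algebraMap (T ⧸ q) E (Ideal.Quotient.mk q a) = 0 ↔ _
    rw [FaithfulSMul.algebraMap_eq_zero_iff, Ideal.Quotient.eq_zero_iff_mem]
  let μ : A →+* E := Ideal.Quotient.lift P.I (fT.comp (algebraMap (Coord ι N) T)) (by
    intro a ha
    rw [RingHom.comp_apply, hkerT]
    rw [hP] at ha
    exact ha)
  have hμ : Function.Injective μ := by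
    rw [injective_iff_map_eq_zero]
    intro a ha
    obtain ⟨a, rfl⟩ := Ideal.Quotient.mk_surjective a
    have h1 : fT (algebraMap (Coord ι N) T a) = 0 := ha
    rw [hkerT] at h1
    rw [Ideal.Quotient.eq_zero_iff_mem, hP]
    exact h1
  letI : Algebra K E := (IsFractionRing.lift (K := K) hμ).toAlgebra
  have hcomp : ∀ r, algebraMap K E (fR r) = fT (algebraMap (Coord ι N) T r) := by
    intro r
    change IsFractionRing.lift (K := K) hμ (algebraMap A K (Ideal.Quotient.mk P.I r)) = _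
    rw [IsFractionRing.lift_algebraMap]
    rfl
  have hK : ∀ x : K, ∃ a s : Coord ι N, fR s ≠ 0 ∧ x * fR s = fR a := by
    intro x
    obtain ⟨⟨a, s⟩, h⟩ := IsLocalization.surj (nonZeroDivisors A) x
    obtain ⟨a, rfl⟩ := Ideal.Quotient.mk_surjective a
    obtain ⟨s', hs'⟩ := Ideal.Quotient.mk_surjective (s : A)
    refine ⟨a, s', ?_, ?_⟩
    · change algebraMap A K (Ideal.Quotient.mk P.I s') ≠ 0
      rw [hs', Ne, FaithfulSMul.algebraMap_eq_zero_iff]
      exact nonZeroDivisors.coe_ne_zero s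
    · change x * algebraMap A K (Ideal.Quotient.mk P.I s') = _
      rw [hs']
      exact h
  have hE : ∀ x : E, ∃ a s : T, fT s ≠ 0 ∧ x * fT s = fT a := by
    intro x
    obtain ⟨⟨a, s⟩, h⟩ := IsLocalization.surj (nonZeroDivisors (T ⧸ q)) x
    obtain ⟨a, rfl⟩ := Ideal.Quotient.mk_surjective a
    obtain ⟨s', hs'⟩ := Ideal.Quotient.mk_surjective (s : T ⧸ q)
    refine ⟨a, s', ?_, ?_⟩
    · change algebraMap (T ⧸ q) E (Ideal.Quotient.mk q s') ≠ 0
      rw [hs', Ne, FaithfulSMul.algebraMap_eq_zero_iff]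
      exact nonZeroDivisors.coe_ne_zero s
    · change x * algebraMap (T ⧸ q) E (Ideal.Quotient.mk q s') = _
      rw [hs']
      exact h
  -- the module `T / q` in `E`
  let j : (T ⧸ q) →+ E := (algebraMap (T ⧸ q) E).toAddMonoidHom
  have hjT : ∀ t, j (Ideal.Quotient.mk q t) = fT t := fun t => rfl
  have hj : ∀ (a : Coord ι N) (m : T ⧸ q), j (a • m) = fR a • j m := by
    intro a m
    obtain ⟨m, rfl⟩ := Ideal.Quotient.mk_surjective m
    have h1 : a • (Ideal.Quotient.mk q m) = Ideal.Quotient.mk q (algebraMap (Coord ι N) T a * m) := by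
      rw [← Algebra.smul_def]
      rfl
    rw [h1, hjT, hjT, Algebra.smul_def, hcomp, map_mul]
  have hinj : Function.Injective j := IsFractionRing.injective (T ⧸ q) E
  have hrange : Set.range j = Set.range fT := by
    ext x
    constructor
    · rintro ⟨y, rfl⟩
      obtain ⟨y, rfl⟩ := Ideal.Quotient.mk_surjective y
      exact ⟨y, rfl⟩
    · rintro ⟨y, rfl⟩
      exact ⟨Ideal.Quotient.mk q y, rfl⟩
  have hfin0 : Module.Finite K (Submodule.span K (Set.range fT)) := by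
    have := Q₀.prime
    let j0 : (T ⧸ q) →+ Submodule.span K (Set.range fT) :=
      { toFun := fun m => ⟨j m, Submodule.subset_span (by rw [← hrange]; exact ⟨m, rfl⟩)⟩
        map_zero' := Subtype.ext (map_zero j)
        map_add' := fun x y => Subtype.ext (map_add j x y) }
    refine finite_of_fin hc₀.1.le fR hkerR hf₀ j0 (fun a m => Subtype.ext (hj a m)) ?_
    have h1 : Submodule.map (Submodule.span K (Set.range fT)).subtype
        (Submodule.span K (Set.range j0)) = Submodule.map (Submodule.span K (Set.range fT)).subtype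
          ⊤ := by
      rw [Submodule.map_span, Submodule.map_top, Submodule.range_subtype, ← Set.range_comp]
      congr 1
    exact Submodule.map_injective_of_injective (Submodule.injective_subtype _) h1
  have hspan : Submodule.span K (Set.range fT) = ⊤ := span_range_eq_top_of_finite fT hE hfin0
  have hspanj : Submodule.span K (Set.range j) = ⊤ := by rw [hrange, hspan]
  have hfinE : FiniteDimensional K E := by
    have := Q₀.prime
    exact finite_of_fin hc₀.1.le fR hkerR hf₀ j hj hspanj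
  -- the norms are quotients of homogeneous elements
  letI := weightedGradedAlgebra ℂ (wZ (X.mdeg N))
  have hφ := map_mem_of_X 𝒯 (X.mdeg N) (IsScalarTower.toAlgHom ℂ (Coord ι N) T) hX
  have hT : ∀ t, fT t = 0 → ∀ g, fT ((decompose 𝒯 t g : 𝒯 g) : T) = 0 := by
    intro t ht g
    rw [hkerT] at ht ⊢
    exact hq g ht
  obtain ⟨δ₁, g₁, s₁, hg₁, hs₁, hs₁0, hn₁⟩ := norm_homog
    (weightedHomogeneousSubmodule ℂ (wZ (X.mdeg N))) 𝒯 (IsScalarTower.toAlgHom ℂ (Coord ι N) T)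
    fR fT hφ hcomp hK hE hT hb
  obtain ⟨δ₂, g₂, s₂, hg₂, hs₂, hs₂0, hn₂⟩ := norm_homog
    (weightedHomogeneousSubmodule ℂ (wZ (X.mdeg N))) 𝒯 (IsScalarTower.toAlgHom ℂ (Coord ι N) T)
    fR fT hφ hcomp hK hE hT hb'
  set n := Module.finrank K E with hn
  have hnb : Algebra.norm K (fT b) ≠ 0 := Algebra.norm_ne_zero_iff.2 fun h => hbq ((hkerT b).1 h)
  have hnb' : Algebra.norm K (fT b') ≠ 0 :=
    Algebra.norm_ne_zero_iff.2 fun h => hbq' ((hkerT b').1 h)
  have hg₁P : g₁ ∉ P.I := by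
    rw [← hkerR, ← hn₁]
    exact mul_ne_zero hnb (pow_ne_zero _ hs₁0)
  have hg₂P : g₂ ∉ P.I := by
    rw [← hkerR, ← hn₂]
    exact mul_ne_zero hnb' (pow_ne_zero _ hs₂0)
  have hs₁P : s₁ ^ n ∉ P.I := by
    rw [← hkerR, map_pow]
    exact pow_ne_zero _ hs₁0
  have hs₂P : s₂ ^ n ∉ P.I := by
    rw [← hkerR, map_pow]
    exact pow_ne_zero _ hs₂0
  have hG : IsWeightedHomogeneous (wZ (X.mdeg N)) (s₂ ^ n * g₁) (n • δ₁ + n • (δ + δ₂)) := by
    have h1 : IsWeightedHomogeneous (wZ (X.mdeg N)) (s₂ ^ n * g₁) (n • δ₂ + n • (δ + δ₁)) :=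
      (IsWeightedHomogeneous.pow hs₂ n).mul hg₁
    have h2 : n • δ₂ + n • (δ + δ₁) = n • δ₁ + n • (δ + δ₂) := by
      rw [smul_add, smul_add]
      abel
    rwa [h2] at h1
  have hH : IsWeightedHomogeneous (wZ (X.mdeg N)) (s₁ ^ n * g₂) (n • δ₁ + n • (δ + δ₂)) :=
    (IsWeightedHomogeneous.pow hs₁ n).mul hg₂
  have hGP : s₂ ^ n * g₁ ∉ P.I := fun h => (P.prime.mem_or_mem h).elim hs₂P hg₁P
  have hHP : s₁ ^ n * g₂ ∉ P.I := fun h => (P.prime.mem_or_mem h).elim hs₁P hg₂P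
  obtain ⟨e, he, hGe⟩ := exists_nat_degree (X.mdeg N) hG
    fun h => hGP (by rw [h]; exact P.I.zero_mem)
  have hHe : IsWeightedHomogeneous (X.mdeg N) (s₁ ^ n * g₂) e := by
    rw [← isWH_castZ, he]
    exact hH
  refine ⟨_, _, e, hGe, hHe, hGP, hHP, ?_⟩
  intro Q hc hf
  have := Q.prime
  have hMP : ∀ a ∈ P.I, ∀ m : T ⧸ q, a • m = 0 := by
    intro a ha m
    obtain ⟨m, rfl⟩ := Ideal.Quotient.mk_surjective m
    have h1 : a • (Ideal.Quotient.mk q m) = Ideal.Quotient.mk q (algebraMap (Coord ι N) T a * m) := by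
      rw [← Algebra.smul_def]
      rfl
    rw [h1, Ideal.Quotient.eq_zero_iff_mem]
    rw [hP] at ha
    exact q.mul_mem_right _ ha
  have formula : ∀ (c : T) (g s : Coord ι N), c ∉ q → s ^ n ∉ P.I →
      Algebra.norm K (fT c) * fR s ^ n = fR g →
      len Q.I (T ⧸ (q ⊔ Ideal.span {c})) + ordAt P.I Q.I (s ^ n) = ordAt P.I Q.I g := by
    intro c g s hcq hsP hcg
    rw [← len_coker_mul Q.I q c]
    refine len_norm hc fR hkerR hK hMP hf j hj hinj hspanj _ (Algebra.lmul K E (fT c)) ?_ ?_ g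
      (s ^ n) hsP ?_
    · intro m
      obtain ⟨m, rfl⟩ := Ideal.Quotient.mk_surjective m
      change fT c * fT m = j (Ideal.Quotient.mk q c * Ideal.Quotient.mk q m)
      rw [← map_mul, ← map_mul]
      rfl
    · rw [← Algebra.norm_apply]
      exact Algebra.norm_ne_zero_iff.2 fun h => hcq ((hkerT c).1 h)
    · rw [← Algebra.norm_apply, ← hcg, map_pow, mul_comm]
  have f₁ := formula b g₁ s₁ hbq hs₁P hn₁
  have f₂ := formula b' g₂ s₂ hbq' hs₂P hn₂
  have o₁ := ordAt_ne_top hc hg₁P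
  have o₂ := ordAt_ne_top hc hg₂P
  have p₁ := ordAt_ne_top hc hs₁P
  have p₂ := ordAt_ne_top hc hs₂P
  have l₁ : len Q.I (T ⧸ (q ⊔ Ideal.span {b})) ≠ ⊤ := by
    intro h
    rw [h, top_add] at f₁
    exact o₁ f₁.symm
  have l₂ : len Q.I (T ⧸ (q ⊔ Ideal.span {b'})) ≠ ⊤ := by
    intro h
    rw [h, top_add] at f₂
    exact o₂ f₂.symm
  refine ⟨l₁, l₂, ?_⟩
  have t₁ := congrArg ENat.toNat f₁
  have t₂ := congrArg ENat.toNat f₂
  rw [ENat.toNat_add l₁ p₁] at t₁
  rw [ENat.toNat_add l₂ p₂] at t₂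
  rw [toNat_ordAt_mul hc hs₂P hg₁P, toNat_ordAt_mul hc hs₁P hg₂P, ← t₁, ← t₂]
  push_cast
  ring

end rel

attribute [local instance] Pt.prime

/-- (REL1) the relation lemma for one homogeneous prime; finiteness is needed only at the points
`Q` of codimension one with the property `G` -/
theorem rel1 {ι : Type} [Finite ι] {X : WVar ι} {N : ℕ} {T : Type} [CommRing T] [Algebra ℂ T]
    [Algebra (Coord ι N) T] [IsScalarTower ℂ (Coord ι N) T]
    (𝒯 : (Fin N → ℤ) → Submodule ℂ T) [GradedAlgebra 𝒯]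
    (hT : ∀ v, algebraMap (Coord ι N) T (MvPolynomial.X v) ∈ 𝒯 (fun i => (X.mdeg N v i : ℤ)))
    {q : Ideal T} (hq : q.IsPrime) (hqh : q.IsHomogeneous 𝒯) {δ : Fin N → ℤ} {b b' : T}
    (hb : b ∈ 𝒯 δ) (hb' : b' ∈ 𝒯 δ) (hbq : b ∉ q) (hbq' : b' ∉ q)
    (P : Pt X N) (hP : P.I = q.comap (algebraMap (Coord ι N) T))
    {G : Pt X N → Prop} (hfin : ∀ Q : Pt X N, CodimOne P.I Q.I → G Q →
      Module.Finite (Localization.AtPrime Q.I) (LocalizedModule Q.I.primeCompl (T ⧸ q))) :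
    ∃ (g h : Coord ι N) (e : Fin N → ℕ), IsWeightedHomogeneous (X.mdeg N) g e ∧
      IsWeightedHomogeneous (X.mdeg N) h e ∧ g ∉ P.I ∧ h ∉ P.I ∧
      ∀ Q : Pt X N, CodimOne P.I Q.I → G Q →
        len Q.I (T ⧸ (q ⊔ Ideal.span {b})) ≠ ⊤ ∧ len Q.I (T ⧸ (q ⊔ Ideal.span {b'})) ≠ ⊤ ∧
        ((len Q.I (T ⧸ (q ⊔ Ideal.span {b}))).toNat : ℤ) -
          ((len Q.I (T ⧸ (q ⊔ Ideal.span {b'}))).toNat : ℤ) =
          ((ordAt P.I Q.I g).toNat : ℤ) - ((ordAt P.I Q.I h).toNat : ℤ) := by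
  have := Fintype.ofFinite ι
  obtain ⟨g, h, e, hg, hh, hgP, hhP, H⟩ :=
    rel1_fin X 𝒯 (fun v => hT v) q hqh hb hb' hbq hbq' P hP
  exact ⟨g, h, e, hg, hh, hgP, hhP, fun Q hc hG => H Q hc (hfin Q hc hG)⟩

end Pool.Agent.RCH
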