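import Pool.Agent.RCH.LatF
import Pool.Agent.RCH.MRel1

/-!
# The relation given by two homogeneous elements of a big ring
-/

set_option autoImplicit false

open MvPolynomial DirectSum

namespace Pool.Agent.RCH.Lat

open Pool.Agent.RCH.Dg

attribute [local instance] Pt.prime

section rel

variable {ι : Type} {X : WVar ι} {N : ℕ} {T : Type} [CommRing T] [Algebra ℂ T]
  [Algebra (Coord ι N) T] [IsScalarTower ℂ (Coord ι N) T] (𝒯 : (Fin N → ℤ) → Submodule ℂ T)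
  [GradedAlgebra 𝒯]

/-- the hypotheses of the relation lemma -/
structure Rel (X : WVar ι) (𝒯 : (Fin N → ℤ) → Submodule ℂ T) [GradedAlgebra 𝒯]
    (G : Pt X N → Prop) (J : Ideal T) (b b' : T) (e : ℕ) : Prop where
  dim : ∀ q : Ideal T, q.IsPrime → q.IsHomogeneous 𝒯 → J ≤ q →
    (∀ i : Fin N, ∃ j : ι, (MvPolynomial.X (i, j) : Coord ι N) ∉
      q.comap (algebraMap (Coord ι N) T)) →
    td (Coord ι N ⧸ q.comap (algebraMap (Coord ι N) T)) ≤ e + 1 ∧
    (td (Coord ι N ⧸ q.comap (algebraMap (Coord ι N) T)) = e + 1 → b ∉ q ∧ b' ∉ q)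
  fin : ∀ Q : Pt X N, G Q → Module.Finite (Localization.AtPrime Q.I)
    (LocalizedModule Q.I.primeCompl (T ⧸ J))
  eqs : ∀ (i : Fin N), ∀ f ∈ X.eqs, algebraMap (Coord ι N) T (inFactor N i f) ∈ J

omit [IsScalarTower ℂ (Coord ι N) T] in
lemma Rel.mono {G : Pt X N → Prop} {J J' : Ideal T} {b b' : T} {e : ℕ}
    (h : Rel X 𝒯 G J b b' e) (hJ : J ≤ J') : Rel X 𝒯 G J' b b' e where
  dim := fun q hq hqh hJq => h.dim q hq hqh (hJ.trans hJq)
  fin := by
    intro Q hQ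
    have := h.fin Q hQ
    exact Module.Finite.of_surjective (LocalizedModule.map Q.I.primeCompl
      (Ideal.Quotient.factorₐ (Coord ι N) hJ).toLinearMap)
      (LocalizedModule.map_surjective _ _ (Ideal.Quotient.factor_surjective hJ))
  eqs := fun i f hf => hJ (h.eqs i f hf)

/-- the conclusion of the relation lemma -/
def RelConcl (X : WVar ι) (G : Pt X N → Prop) (J : Ideal T) (b b' : T) (e : ℕ) : Prop :=
  ∃ c ∈ RatZero X N, (∀ Q : Pt X N, G Q → td (Coord ι N ⧸ Q.I) = e →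
    Fin' Q.I b J ∧ Fin' Q.I b' J ∧ c Q = chi Q.I b J - chi Q.I b' J) ∧
    ∀ Q : Pt X N, c Q ≠ 0 →
      J.comap (algebraMap (Coord ι N) T) ≤ Q.I ∧ td (Coord ι N ⧸ Q.I) = e

omit [Algebra ℂ T] [IsScalarTower ℂ (Coord ι N) T] in
lemma RelConcl.of_top (G : Pt X N → Prop) (b b' : T) (e : ℕ) :
    RelConcl X G (⊤ : Ideal T) b b' e := by
  refine ⟨0, zero_mem _, fun Q _ _ => ?_, fun Q hQ => absurd rfl hQ⟩
  have h0 : len Q.I (T ⧸ (⊤ : Ideal T)) ≠ ⊤ := by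
    rw [len_zero_of_smul Q.I (1 : Coord ι N)
      (fun h => Q.prime.ne_top ((Ideal.eq_top_iff_one _).mpr h)) (fun m => ?_)]
    · exact ENat.zero_ne_top
    · exact Subsingleton.elim _ _
  obtain ⟨h1, h2⟩ := chi_zero_of_ne_top Q.I b ⊤ h0
  obtain ⟨h3, h4⟩ := chi_zero_of_ne_top Q.I b' ⊤ h0
  exact ⟨h1, h3, by rw [h2, h4, sub_zero]; rfl⟩

omit [Algebra ℂ T] [IsScalarTower ℂ (Coord ι N) T] in
lemma RelConcl.add {G : Pt X N → Prop} {J : Ideal T} {x : T} {b b' : T} {e : ℕ}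
    (h1 : RelConcl X G (colX J x) b b' e)
    (h2 : RelConcl X G (J ⊔ Ideal.span {x}) b b' e) : RelConcl X G J b b' e := by
  obtain ⟨c, hc, h1, k1⟩ := h1
  obtain ⟨c', hc', h2, k2⟩ := h2
  refine ⟨c + c', add_mem hc hc', fun Q hG hQ => ?_, fun Q hQ => ?_⟩
  · obtain ⟨a1, a2, a3⟩ := h1 Q hG hQ
    obtain ⟨b1, b2, b3⟩ := h2 Q hG hQ
    refine ⟨fin_add Q.I a1 b1, fin_add Q.I a2 b2, ?_⟩
    rw [Finsupp.add_apply, a3, b3, chi_add Q.I a1 b1, chi_add Q.I a2 b2]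
    ring
  · rw [Finsupp.add_apply] at hQ
    by_cases h0 : c Q = 0
    · rw [h0, zero_add] at hQ
      obtain ⟨h3, h4⟩ := k2 Q hQ
      exact ⟨(Ideal.comap_mono le_sup_left).trans h3, h4⟩
    · obtain ⟨h3, h4⟩ := k1 Q h0
      exact ⟨(Ideal.comap_mono (le_colX J x)).trans h3, h4⟩

variable [Finite ι]
  (hT : ∀ v, algebraMap (Coord ι N) T (MvPolynomial.X v) ∈ 𝒯 (fun i => (X.mdeg N v i : ℤ)))

include hT

/-- the pieces -/
theorem piece {q : Ideal T} (hq : q.IsPrime) (hqh : q.IsHomogeneous 𝒯) {δ : Fin N → ℤ} {b b' : T}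
    (hb : b ∈ 𝒯 δ) (hb' : b' ∈ 𝒯 δ) {e : ℕ} {G : Pt X N → Prop} (h : Rel X 𝒯 G q b b' e) :
    RelConcl X G q b b' e := by
  classical
  -- the case of a piece which is zero at `Q`
  have hzero : ∀ (Q : Pt X N), ¬ q.comap (algebraMap (Coord ι N) T) ≤ Q.I →
      Fin' Q.I b q ∧ Fin' Q.I b' q ∧ 0 = chi Q.I b q - chi Q.I b' q := by
    intro Q hQ
    obtain ⟨s, hs, hsQ⟩ := SetLike.not_le_iff_exists.mp hQ
    have h0 : len Q.I (T ⧸ q) ≠ ⊤ := by
      rw [len_zero_of_smul Q.I s hsQ (fun m => ?_)]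
      · exact ENat.zero_ne_top
      · obtain ⟨m, rfl⟩ := Ideal.Quotient.mk_surjective m
        rw [Algebra.smul_def]
        have h1 : algebraMap (Coord ι N) (T ⧸ q) s =
            Ideal.Quotient.mk q (algebraMap (Coord ι N) T s) := rfl
        rw [h1, ← map_mul, Ideal.Quotient.eq_zero_iff_mem]
        exact q.mul_mem_right _ hs
    obtain ⟨h1, h2⟩ := chi_zero_of_ne_top Q.I b q h0
    obtain ⟨h3, h4⟩ := chi_zero_of_ne_top Q.I b' q h0
    exact ⟨h1, h3, by rw [h2, h4, sub_zero]⟩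
  by_cases hrel : ∀ i : Fin N, ∃ j : ι, (MvPolynomial.X (i, j) : Coord ι N) ∉
      q.comap (algebraMap (Coord ι N) T)
  swap
  · push Not at hrel
    obtain ⟨i, hi⟩ := hrel
    refine ⟨0, zero_mem _, fun Q _ _ => ?_, fun Q hQ => absurd rfl hQ⟩
    refine hzero Q (fun hle => ?_)
    obtain ⟨j, hj⟩ := Q.relevant i
    exact hj (hle (hi j))
  obtain ⟨hd1, hd2⟩ := h.dim q hq hqh le_rfl hrel
  set P : Pt X N := below 𝒯 hT hq hqh hrel h.eqs with hP
  have hPI : P.I = q.comap (algebraMap (Coord ι N) T) := rfl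
  rw [← hPI] at hd1 hd2
  by_cases hd : td (Coord ι N ⧸ P.I) = e + 1
  · obtain ⟨hbq, hbq'⟩ := hd2 hd
    have := Fintype.ofFinite ι
    obtain ⟨g, g', e', hg, hg', hgP, hgP', hrel1⟩ := rel1_fin X 𝒯 hT q hqh hb hb' hbq hbq' P rfl
    obtain ⟨c, hc⟩ := exists_isDivisor X P hgP hgP'
    refine ⟨c, AddSubgroup.subset_closure ⟨P, g, g', e', hg, hg', hgP, hgP', hc⟩,
      fun Q hG hQ => ?_, fun Q hQ => ?_⟩
    · by_cases hPQ : P.I ≤ Q.I
      · have hlt : P.I < Q.I := by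
          refine lt_of_le_of_ne hPQ (fun h0 => ?_)
          rw [h0, hQ] at hd
          omega
        have hco : CodimOne P.I Q.I := by
          refine ⟨hlt, fun L hL hPL hLQ => ?_⟩
          by_contra hne
          have h1 := td_lt_of_lt (lt_of_le_of_ne hPL (Ne.symm hne))
          have h2 := td_lt_of_lt hLQ
          omega
        obtain ⟨k1, k2, k3⟩ := hrel1 Q hco (h.fin Q hG)
        have hl1 : ∀ t, b * t ∈ q → t ∈ q := fun t ht => (hq.mem_or_mem ht).resolve_left hbq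
        have hl2 : ∀ t, b' * t ∈ q → t ∈ q := fun t ht => (hq.mem_or_mem ht).resolve_left hbq'
        refine ⟨⟨?_, ?_⟩, ⟨?_, ?_⟩, ?_⟩
        · rwa [lc_eq]
        · rw [lk_eq_zero _ _ _ hl1]
          exact ENat.zero_ne_top
        · rwa [lc_eq]
        · rw [lk_eq_zero _ _ _ hl2]
          exact ENat.zero_ne_top
        · rw [hc Q, if_pos hco, chi, chi, lk_eq_zero _ _ _ hl1, lk_eq_zero _ _ _ hl2, lc_eq, lc_eq,
            ← k3]
          simp
      · have h1 := hc Q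
        rw [if_neg (fun h0 : CodimOne P.I Q.I => hPQ h0.1.le)] at h1
        rw [h1]
        exact hzero Q hPQ
    · rw [hc Q] at hQ
      have hco : CodimOne P.I Q.I := by
        by_contra h0
        rw [if_neg h0] at hQ
        exact hQ rfl
      have h1 := td_succ hco.1 (fun L hL hPL hLQ => hPL.ne (hco.2 L hL hPL.le hLQ).symm)
      exact ⟨hco.1.le, by omega⟩
  · refine ⟨0, zero_mem _, fun Q hG hQ => ?_, fun Q hQ => absurd rfl hQ⟩
    by_cases hPQ : P.I ≤ Q.I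
    · have heq : P.I = Q.I := by
        by_contra hne
        have h1 := td_lt_of_lt (lt_of_le_of_ne hPQ hne)
        omega
      have h0 : len Q.I (T ⧸ q) ≠ ⊤ := by
        refine len_ne_top_of_smul Q.I (h.fin Q hG) (fun r hr m => ?_)
        obtain ⟨m, rfl⟩ := Ideal.Quotient.mk_surjective m
        rw [Algebra.smul_def]
        have h1 : algebraMap (Coord ι N) (T ⧸ q) r =
            Ideal.Quotient.mk q (algebraMap (Coord ι N) T r) := rfl
        rw [h1, ← map_mul, Ideal.Quotient.eq_zero_iff_mem]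
        refine q.mul_mem_right _ ?_
        rw [← heq, hPI] at hr
        exact hr
      obtain ⟨h1, h2⟩ := chi_zero_of_ne_top Q.I b q h0
      obtain ⟨h3, h4⟩ := chi_zero_of_ne_top Q.I b' q h0
      exact ⟨h1, h3, by rw [h2, h4, sub_zero]; rfl⟩
    · exact hzero Q hPQ

/-- THE RELATION LEMMA -/
theorem rel2 [IsNoetherianRing T] {J : Ideal T} (hJ : J.IsHomogeneous 𝒯) {δ : Fin N → ℤ}
    {b b' : T} (hb : b ∈ 𝒯 δ) (hb' : b' ∈ 𝒯 δ) {e : ℕ} {G : Pt X N → Prop}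
    (h : Rel X 𝒯 G J b b' e) : RelConcl X G J b b' e := by
  induction J using IsNoetherian.induction with
  | hgt J ih =>
    by_cases hne : J = ⊤
    · rw [hne]
      exact RelConcl.of_top G b b' e
    obtain ⟨x, hx, hxJ, hp, hph⟩ := exists_prime_colX (exists_order N) 𝒯 hJ hne
    refine RelConcl.add (x := x) ?_ ?_
    · exact piece 𝒯 hT hp hph hb hb' (h.mono 𝒯 (le_colX J x))
    · refine ih (J ⊔ Ideal.span {x}) ?_ ?_ (h.mono 𝒯 le_sup_left)
      · refine lt_of_le_of_ne le_sup_left (fun h0 => hxJ ?_)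
        rw [h0]
        exact Ideal.mem_sup_right (Ideal.subset_span rfl)
      · exact hJ.sup (Ideal.homogeneous_span 𝒯 _ (fun y hy => by
          rw [Set.mem_singleton_iff.mp hy]
          exact hx))

/-- THE RELATION LEMMA, for nonzerodivisors modulo `J` -/
theorem rel2_nzd [IsNoetherianRing T] {J : Ideal T} (hJ : J.IsHomogeneous 𝒯) {δ : Fin N → ℤ}
    {b b' : T} (hb : b ∈ 𝒯 δ) (hb' : b' ∈ 𝒯 δ) {e : ℕ} {G : Pt X N → Prop}
    (h : Rel X 𝒯 G J b b' e) (hn : ∀ t, b * t ∈ J → t ∈ J) (hn' : ∀ t, b' * t ∈ J → t ∈ J) :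
    ∃ c ∈ RatZero X N, (∀ Q : Pt X N, G Q → td (Coord ι N ⧸ Q.I) = e →
        len Q.I (T ⧸ (J ⊔ Ideal.span {b})) ≠ ⊤ ∧
        len Q.I (T ⧸ (J ⊔ Ideal.span {b'})) ≠ ⊤ ∧
        c Q = ((len Q.I (T ⧸ (J ⊔ Ideal.span {b}))).toNat : ℤ) -
          ((len Q.I (T ⧸ (J ⊔ Ideal.span {b'}))).toNat : ℤ)) ∧
      ∀ Q : Pt X N, c Q ≠ 0 →
        J.comap (algebraMap (Coord ι N) T) ≤ Q.I ∧ td (Coord ι N ⧸ Q.I) = e := by
  obtain ⟨c, hc, h1, h2⟩ := rel2 𝒯 hT hJ hb hb' h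
  refine ⟨c, hc, fun Q hG hQ => ?_, h2⟩
  obtain ⟨h2, h3, h4⟩ := h1 Q hG hQ
  rw [← lc_eq, ← lc_eq]
  refine ⟨h2.1, h3.1, ?_⟩
  rw [h4, chi, chi, lk_eq_zero _ _ _ hn, lk_eq_zero _ _ _ hn']
  simp

end rel

end Pool.Agent.RCH.Lat
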