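import Pool.Agent.RCH.Defs
import Pool.Agent.RCH.DgDim

/-!
# Transcendence degree, integral extensions and codimension one

For an algebra `T` over `R` which is integral over `R` near a prime `Q` of `R`, the primes `P' ≤ Q'` of
`T` with `Q' ∩ R = Q` are at distance one if and only if the primes `P' ∩ R ≤ Q` are; bounds for the
transcendence degree of a quotient of a polynomial ring.
-/

set_option autoImplicit false

open MvPolynomial

namespace Pool.Agent.RCH

open Dg (td)

section general

theorem td_le_of_injective {A B : Type} [CommRing A] [CommRing B] [Algebra ℂ A] [Algebra ℂ B]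
    [Algebra.FiniteType ℂ B] (f : A →ₐ[ℂ] B) (hf : Function.Injective f) : td A ≤ td B :=
  Cardinal.toNat_le_toNat (trdeg_le_of_injective f hf) trdeg_lt_aleph0_of_finiteType

theorem td_le_of_surjective {A B : Type} [CommRing A] [CommRing B] [Algebra ℂ A] [Algebra ℂ B]
    [Algebra.FiniteType ℂ A] (f : A →ₐ[ℂ] B) (hf : Function.Surjective f) : td B ≤ td A :=
  Cardinal.toNat_le_toNat (trdeg_le_of_surjective f hf) trdeg_lt_aleph0_of_finiteType

/-- The transcendence degree is unchanged by an injective algebraic extension of domains. -/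
theorem td_eq_of_isAlgebraic (A B : Type) [CommRing A] [IsDomain A] [CommRing B] [IsDomain B]
    [Algebra ℂ A] [Algebra ℂ B] [Algebra A B] [IsScalarTower ℂ A B] [FaithfulSMul A B]
    [Algebra.IsAlgebraic A B] : td A = td B := by
  unfold Dg.td
  rw [← trdeg_add_eq ℂ A (A := B), trdeg_eq_zero (R := A) (A := B), add_zero]

/-- The dimension formula: `Q` has codimension one in `P` if and only if the dimensions differ by
one. -/
theorem codimOne_iff_td {R : Type} [CommRing R] [Algebra ℂ R] [Algebra.FiniteType ℂ R]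
    {P Q : Ideal R} [P.IsPrime] [Q.IsPrime] (hPQ : P ≤ Q) :
    CodimOne P Q ↔ td (R ⧸ P) = td (R ⧸ Q) + 1 := by
  constructor
  · intro h
    exact Dg.td_succ h.1 fun L hL h1 h2 => h1.ne' (h.2 L hL h1.le h2)
  · intro h
    have hlt : P < Q := by
      refine lt_of_le_of_ne hPQ ?_
      rintro rfl
      omega
    refine ⟨hlt, fun L hL hPL hLQ => ?_⟩
    by_contra hne
    have h1 := Dg.td_lt_of_lt hLQ
    have h2 := Dg.td_lt_of_lt (lt_of_le_of_ne hPL (Ne.symm hne))
    omega

end general

section integral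

/-- The algebra `T` is integral over `R` near the prime `Q` of `R`. -/
def IntAt (R T : Type) [CommRing R] [CommRing T] [Algebra R T] (Q : Ideal R) : Prop :=
  ∀ t : T, ∃ s : R, s ∉ Q ∧ IsIntegral R (algebraMap R T s * t)

variable {R T : Type} [CommRing R] [CommRing T] [Algebra R T]

theorem IntAt.mono {Q Q' : Ideal R} (h : IntAt R T Q) (hQ : Q' ≤ Q) : IntAt R T Q' := fun t =>
  (h t).imp fun _ hs => ⟨fun hm => hs.1 (hQ hm), hs.2⟩

theorem IntAt.quot {Q : Ideal R} (h : IntAt R T Q) (J : Ideal T) : IntAt R (T ⧸ J) Q := by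
  intro x
  obtain ⟨t, rfl⟩ := Ideal.Quotient.mk_surjective x
  obtain ⟨s, hs, hst⟩ := h t
  refine ⟨s, hs, ?_⟩
  have h1 : IsIntegral R (Ideal.Quotient.mk J (algebraMap R T s * t)) :=
    hst.map (Ideal.Quotient.mkₐ R J)
  rwa [map_mul] at h1

/-- Integrality near `Q` can be checked on generators. -/
theorem IntAt.of_gens {κ : Type} (z : κ → T) (hz : Algebra.adjoin R (Set.range z) = ⊤)
    {Q : Ideal R} [hQ : Q.IsPrime]
    (h : ∀ j, ∃ s : R, s ∉ Q ∧ IsIntegral R (algebraMap R T s * z j)) : IntAt R T Q := by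
  intro t
  have ht : t ∈ Algebra.adjoin R (Set.range z) := by rw [hz]; exact Algebra.mem_top
  induction ht using Algebra.adjoin_induction with
  | mem x hx =>
    obtain ⟨j, rfl⟩ := hx
    exact h j
  | algebraMap r =>
    refine ⟨1, fun h1 => hQ.ne_top ((Ideal.eq_top_iff_one Q).2 h1), ?_⟩
    rw [map_one, one_mul]
    exact isIntegral_algebraMap
  | add x y _ _ hx hy =>
    obtain ⟨s, hs, hsx⟩ := hx
    obtain ⟨u, hu, huy⟩ := hy
    refine ⟨s * u, fun hm => (hQ.mem_or_mem hm).elim hs hu, ?_⟩
    have e : algebraMap R T (s * u) * (x + y)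
        = algebraMap R T u * (algebraMap R T s * x) + algebraMap R T s * (algebraMap R T u * y) := by
      rw [map_mul]; ring
    rw [e]
    exact (isIntegral_algebraMap.mul hsx).add (isIntegral_algebraMap.mul huy)
  | mul x y _ _ hx hy =>
    obtain ⟨s, hs, hsx⟩ := hx
    obtain ⟨u, hu, huy⟩ := hy
    refine ⟨s * u, fun hm => (hQ.mem_or_mem hm).elim hs hu, ?_⟩
    have e : algebraMap R T (s * u) * (x * y)
        = (algebraMap R T s * x) * (algebraMap R T u * y) := by
      rw [map_mul]; ring
    rw [e]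
    exact hsx.mul huy

variable [Algebra ℂ R] [Algebra ℂ T] [IsScalarTower ℂ R T]

theorem td_comap_le [Algebra.FiniteType ℂ T] (q : Ideal T) :
    td (R ⧸ q.comap (algebraMap R T)) ≤ td (T ⧸ q) :=
  td_le_of_injective (IsScalarTower.toAlgHom ℂ (R ⧸ q.comap (algebraMap R T)) (T ⧸ q))
    (FaithfulSMul.algebraMap_injective _ _)

theorem td_comap_of_isAlgebraic (q : Ideal T) [q.IsPrime]
    (h : ∀ t : T, ∃ s : R, algebraMap R T s ∉ q ∧
      IsIntegral (R ⧸ q.comap (algebraMap R T)) (Ideal.Quotient.mk q (algebraMap R T s * t))) :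
    td (T ⧸ q) = td (R ⧸ q.comap (algebraMap R T)) := by
  have halg : Algebra.IsAlgebraic (R ⧸ q.comap (algebraMap R T)) (T ⧸ q) := by
    refine ⟨fun x => ?_⟩
    obtain ⟨t, rfl⟩ := Ideal.Quotient.mk_surjective x
    obtain ⟨s, hs, hst⟩ := h t
    refine IsAlgebraic.of_smul_isIntegral
      (y := Ideal.Quotient.mk (q.comap (algebraMap R T)) s) ?_ ?_
    · rw [isNilpotent_iff_eq_zero]
      intro h0
      have h1 : s ∈ q.comap (algebraMap R T) := Ideal.Quotient.eq_zero_iff_mem.1 h0
      exact hs h1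
    · have h2 : (Ideal.Quotient.mk (q.comap (algebraMap R T)) s) • (Ideal.Quotient.mk q t)
          = Ideal.Quotient.mk q (algebraMap R T s * t) := by
        rw [Algebra.smul_def, map_mul]
        rfl
      rw [h2]
      exact hst
  exact (td_eq_of_isAlgebraic (R ⧸ q.comap (algebraMap R T)) (T ⧸ q)).symm

/-- The dimension of a prime `q` of `T` and of the prime under it. -/
theorem td_comap {Q : Ideal R} (hI : IntAt R T Q) (q : Ideal T) [q.IsPrime]
    (hq : q.comap (algebraMap R T) ≤ Q) : td (T ⧸ q) = td (R ⧸ q.comap (algebraMap R T)) := by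
  refine td_comap_of_isAlgebraic q fun t => ?_
  obtain ⟨s, hs, hst⟩ := hI t
  refine ⟨s, fun hm => hs (hq hm), ?_⟩
  have h1 : IsIntegral R (Ideal.Quotient.mk q (algebraMap R T s * t)) :=
    hst.map (Ideal.Quotient.mkₐ R q)
  exact h1.tower_top

/-- If `T` is integral over `R` near `q' ∩ R`, then `q'` has codimension one in `q` if and only if
`q' ∩ R` has codimension one in `q ∩ R`. -/
theorem codimOne_comap_iff [Algebra.FiniteType ℂ R] [Algebra.FiniteType ℂ T]
    {q q' : Ideal T} [q.IsPrime] [q'.IsPrime] (hqq : q ≤ q')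
    (hI : IntAt R T (q'.comap (algebraMap R T))) :
    CodimOne q q' ↔ CodimOne (q.comap (algebraMap R T)) (q'.comap (algebraMap R T)) := by
  have hle : q.comap (algebraMap R T) ≤ q'.comap (algebraMap R T) := Ideal.comap_mono hqq
  rw [codimOne_iff_td hqq, codimOne_iff_td hle, td_comap hI q hle, td_comap hI q' le_rfl]

end integral

section bound

/-- The dimension is at most the number of elements over which the domain is algebraic. -/
theorem td_le_card {A ι : Type} [CommRing A] [IsDomain A] [Algebra ℂ A] [Fintype ι] (x : ι → A)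
    [h : Algebra.IsAlgebraic (Algebra.adjoin ℂ (Set.range x)) A] : td A ≤ Fintype.card ι := by
  have h1 := Algebra.IsAlgebraic.trdeg_le_cardinalMk ℂ (Set.range x) (A := A)
  have h2 : Cardinal.mk (Set.range x) ≤ Cardinal.mk ι := Cardinal.mk_range_le
  have h3 := h1.trans h2
  rw [Cardinal.mk_fintype] at h3
  have h4 := Cardinal.toNat_le_toNat h3 (Cardinal.natCast_lt_aleph0)
  rwa [Cardinal.toNat_natCast] at h4

/-- Bound for the dimension of `ℂ[σ] / q`: the variables not in `s` are roots, modulo `q`, of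
polynomials with coefficients in the variables of `s` and with a leading coefficient not in `q`. -/
theorem td_mvPolynomial_le {σ : Type} [Finite σ] (q : Ideal (MvPolynomial σ ℂ)) [q.IsPrime]
    (s : Finset σ)
    (h : ∀ j, j ∉ s → ∃ (n : ℕ) (c : ℕ → MvPolynomial σ ℂ), (∀ i, c i ∈ supported ℂ (s : Set σ)) ∧
      c n ∉ q ∧ ∑ i ∈ Finset.range (n + 1), c i * X j ^ i ∈ q) :
    td (MvPolynomial σ ℂ ⧸ q) ≤ s.card := by
  set A := MvPolynomial σ ℂ ⧸ q
  set x : s → A := fun i => Ideal.Quotient.mk q (X i.1) with hx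
  set B := Algebra.adjoin ℂ (Set.range x) with hB
  have hsup : ∀ c ∈ supported ℂ (s : Set σ), Ideal.Quotient.mk q c ∈ B := by
    intro c hc
    have h1 : supported ℂ (s : Set σ) ≤ B.comap (Ideal.Quotient.mkₐ ℂ q) := by
      rw [supported, Algebra.adjoin_le_iff]
      rintro _ ⟨i, hi, rfl⟩
      exact Algebra.subset_adjoin ⟨⟨i, hi⟩, rfl⟩
    exact h1 hc
  have halgX : ∀ j : σ, IsAlgebraic B (Ideal.Quotient.mk q (X j)) := by
    intro j
    by_cases hj : j ∈ s
    · have h1 : Ideal.Quotient.mk q (X j) ∈ B := Algebra.subset_adjoin ⟨⟨j, hj⟩, rfl⟩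
      exact isAlgebraic_algebraMap (⟨_, h1⟩ : B)
    · obtain ⟨n, c, hc, hn, hsum⟩ := h j hj
      refine ⟨∑ i ∈ Finset.range (n + 1),
        Polynomial.monomial i (⟨Ideal.Quotient.mk q (c i), hsup _ (hc i)⟩ : B), ?_, ?_⟩
      · intro h0
        have h2 := congrArg (fun p => Polynomial.coeff p n) h0
        simp only [Polynomial.finsetSum_coeff, Polynomial.coeff_monomial, Polynomial.coeff_zero] at h2
        rw [Finset.sum_ite_eq' (Finset.range (n + 1)) n, if_pos (Finset.self_mem_range_succ n)] at h2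
        exact hn (Ideal.Quotient.eq_zero_iff_mem.1 (congrArg Subtype.val h2))
      · rw [map_sum]
        simp only [Polynomial.aeval_monomial]
        have h3 : ∑ i ∈ Finset.range (n + 1), (algebraMap B A
            (⟨Ideal.Quotient.mk q (c i), hsup _ (hc i)⟩ : B)) * (Ideal.Quotient.mk q (X j)) ^ i
            = Ideal.Quotient.mk q (∑ i ∈ Finset.range (n + 1), c i * X j ^ i) := by
          rw [map_sum]
          refine Finset.sum_congr rfl fun i _ => ?_
          rw [map_mul, map_pow]
          rfl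
        rw [h3]
        exact Ideal.Quotient.eq_zero_iff_mem.2 hsum
  have halg : Algebra.IsAlgebraic B A := by
    refine ⟨fun a => ?_⟩
    obtain ⟨p, rfl⟩ := Ideal.Quotient.mk_surjective a
    induction p using MvPolynomial.induction_on with
    | C r => exact isAlgebraic_algebraMap (algebraMap ℂ B r)
    | add p₁ p₂ h₁ h₂ =>
      rw [map_add]
      exact h₁.add h₂
    | mul_X p₁ i h₁ =>
      rw [map_mul]
      exact h₁.mul (halgX i)
  have h5 := td_le_card x (A := A)
  rwa [Fintype.card_coe] at h5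

end bound

end Pool.Agent.RCH
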