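import Pool.Agent.RCH.LatG
import Pool.Agent.RCH.MTd

/-!
# The relation lemma for nonzerodivisors on a module of bounded dimension
-/

set_option autoImplicit false

open MvPolynomial DirectSum

namespace Pool.Agent.RCH.Lat

open Pool.Agent.RCH.Dg

attribute [local instance] Pt.prime

section nzd

/-- a nonzerodivisor modulo `J` is not in a minimal prime over `J` -/
theorem notMem_minimal {T : Type} [CommRing T] {J q : Ideal T} (hq : q ∈ J.minimalPrimes) {b : T}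
    (hb : ∀ t, b * t ∈ J → t ∈ J) : b ∉ q := by
  intro hbq
  obtain ⟨⟨hqp, hJq⟩, hmin⟩ := hq
  -- the multiplicative set of the products `b ^ n * s`, `s ∉ q`
  let S : Submonoid T :=
    { carrier := {x | ∃ (n : ℕ) (s : T), s ∉ q ∧ x = b ^ n * s}
      mul_mem' := by
        rintro _ _ ⟨n, s, hs, rfl⟩ ⟨m, t, ht, rfl⟩
        exact ⟨n + m, s * t, fun h => (hqp.mem_or_mem h).elim hs ht, by ring⟩
      one_mem' := ⟨0, 1, fun h => hqp.ne_top ((Ideal.eq_top_iff_one q).mpr h), by simp⟩ }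
  have hpow : ∀ n t, b ^ n * t ∈ J → t ∈ J := by
    intro n
    induction n with
    | zero => intro t ht; simpa using ht
    | succ n ih =>
      intro t ht
      rw [pow_succ, mul_assoc] at ht
      exact hb t (ih _ ht)
  have hdis : Disjoint (J : Set T) (S : Set T) := by
    rw [Set.disjoint_left]
    rintro x hx ⟨n, s, hs, rfl⟩
    exact hs (hJq (hpow n s hx))
  obtain ⟨p, hp, hJp, hpS⟩ := Ideal.exists_le_prime_disjoint J S hdis
  have hpq : p ≤ q := by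
    intro x hx
    by_contra hxq
    exact Set.disjoint_left.mp hpS hx ⟨0, x, hxq, by simp⟩
  have hbp : b ∉ p := fun h => Set.disjoint_left.mp hpS h
    ⟨1, 1, fun h => hqp.ne_top ((Ideal.eq_top_iff_one q).mpr h), by simp⟩
  exact hbp (hmin ⟨hp, hJp⟩ hpq hbq)

end nzd

section rel

variable {ι : Type} {X : WVar ι} {N : ℕ} {T : Type} [CommRing T] [Algebra ℂ T]
  [Algebra.FiniteType ℂ T] [Algebra (Coord ι N) T] [IsScalarTower ℂ (Coord ι N) T]
  (𝒯 : (Fin N → ℤ) → Submodule ℂ T) [GradedAlgebra 𝒯] [Finite ι]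
  (hT : ∀ v, algebraMap (Coord ι N) T (MvPolynomial.X v) ∈ 𝒯 (fun i => (X.mdeg N v i : ℤ)))

include hT

/-- THE RELATION LEMMA for nonzerodivisors and a module of bounded dimension -/
theorem rel3 {J : Ideal T} (hJ : J.IsHomogeneous 𝒯) {δ : Fin N → ℤ}
    {b b' : T} (hb : b ∈ 𝒯 δ) (hb' : b' ∈ 𝒯 δ) (hn : ∀ t, b * t ∈ J → t ∈ J)
    (hn' : ∀ t, b' * t ∈ J → t ∈ J) {e : ℕ}
    (hlev : ∀ q : Ideal T, q.IsPrime → J ≤ q → td (T ⧸ q) ≤ e + 1)
    (heqs : ∀ (i : Fin N), ∀ f ∈ X.eqs, algebraMap (Coord ι N) T (inFactor N i f) ∈ J)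
    {G : Pt X N → Prop} (hfin : ∀ Q : Pt X N, G Q → Module.Finite (Localization.AtPrime Q.I)
      (LocalizedModule Q.I.primeCompl (T ⧸ J))) :
    ∃ c ∈ RatZero X N, (∀ Q : Pt X N, G Q → td (Coord ι N ⧸ Q.I) = e →
        len Q.I (T ⧸ (J ⊔ Ideal.span {b})) ≠ ⊤ ∧
        len Q.I (T ⧸ (J ⊔ Ideal.span {b'})) ≠ ⊤ ∧
        c Q = ((len Q.I (T ⧸ (J ⊔ Ideal.span {b}))).toNat : ℤ) -
          ((len Q.I (T ⧸ (J ⊔ Ideal.span {b'}))).toNat : ℤ)) ∧
      ∀ Q : Pt X N, c Q ≠ 0 →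
        J.comap (algebraMap (Coord ι N) T) ≤ Q.I ∧ td (Coord ι N ⧸ Q.I) = e := by
  have : IsNoetherianRing T := Algebra.FiniteType.isNoetherianRing ℂ T
  have key : ∀ {a : T}, (∀ t, a * t ∈ J → t ∈ J) → ∀ q : Ideal T, q.IsPrime → J ≤ q →
      td (Coord ι N ⧸ q.comap (algebraMap (Coord ι N) T)) = e + 1 → a ∉ q := by
    intro a ha q hq hJq htd haq
    obtain ⟨p, hp, hpq⟩ := Ideal.exists_minimalPrimes_le hJq
    have hpp : p.IsPrime := hp.1.1
    have h1 : a ∉ p := notMem_minimal hp ha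
    have h2 : p < q := lt_of_le_of_ne hpq (fun h => h1 (h ▸ haq))
    have h3 := td_lt_of_lt h2
    have h4 := hlev p hpp hp.1.2
    have h5 := td_comap_le (R := Coord ι N) q
    omega
  refine rel2_nzd 𝒯 hT hJ hb hb' ⟨fun q hq _ hJq _ => ⟨?_, fun h => ⟨?_, ?_⟩⟩, hfin, heqs⟩ hn hn'
  · exact (td_comap_le (R := Coord ι N) q).trans (hlev q hq hJq)
  · exact key hn q hq hJq h
  · exact key hn' q hq hJq h

end rel

end Pool.Agent.RCH.Lat
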