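import Pool.Agent.RCH.LatH

/-!
# A bound for the dimension of a quotient of the ring of Laurent polynomials
-/

set_option autoImplicit false

open MvPolynomial DirectSum

namespace Pool.Agent.RCH.Lat

open Pool.Agent.RCH.Dg

/-- a domain generated by elements integral over `n` elements, by a unit and by its inverse -/
theorem td_le_gen {B : Type} [CommRing B] [IsDomain B] [Algebra ℂ B] {n : ℕ} (y : Fin n → B)
    (T T' : B) (hT : T * T' = 1) (S : Set B)
    (hS : ∀ x ∈ S, IsIntegral (Algebra.adjoin ℂ (Set.range y)) x)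
    (hgen : Algebra.adjoin ℂ (S ∪ {T, T'}) = ⊤) : td B ≤ n + 1 := by
  set x : Option (Fin n) → B := fun o => o.elim T y with hx
  set A := Algebra.adjoin ℂ (Set.range x) with hA
  have hle : Algebra.adjoin ℂ (Set.range y) ≤ A := by
    refine Algebra.adjoin_mono ?_
    rintro _ ⟨i, rfl⟩
    exact ⟨some i, rfl⟩
  have hTA : T ∈ A := Algebra.subset_adjoin ⟨none, rfl⟩
  have hT0 : T ≠ 0 := fun h => by
    rw [h, zero_mul] at hT
    exact zero_ne_one hT
  have key : ∀ z ∈ S ∪ {T, T'}, IsAlgebraic A z := by
    rintro z (hz | hz | hz)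
    · have h1 : IsIntegral A z := by
        let _ : Algebra (Algebra.adjoin ℂ (Set.range y)) A := (Subalgebra.inclusion hle).toAlgebra
        have : IsScalarTower (Algebra.adjoin ℂ (Set.range y)) A B :=
          IsScalarTower.of_algebraMap_eq fun _ => rfl
        exact (hS z hz).tower_top
      exact h1.isAlgebraic
    · rw [hz]
      exact isAlgebraic_algebraMap (⟨T, hTA⟩ : A)
    · rw [Set.mem_singleton_iff] at hz
      rw [hz]
      refine ⟨Polynomial.C (⟨T, hTA⟩ : A) * Polynomial.X - 1, ?_, ?_⟩
      · intro h0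
        have h1 := congrArg (fun p => Polynomial.coeff p 0) h0
        simp at h1
      · rw [map_sub, map_mul, Polynomial.aeval_C, Polynomial.aeval_X, map_one]
        change T * T' - 1 = 0
        rw [hT, sub_self]
  have hall : ∀ z : B, IsAlgebraic A z := by
    intro z
    have h1 : Algebra.adjoin ℂ (S ∪ {T, T'}) ≤
        (Subalgebra.algebraicClosure A B).restrictScalars ℂ :=
      Algebra.adjoin_le fun w hw => key w hw
    rw [hgen] at h1
    exact h1 (Algebra.mem_top : z ∈ (⊤ : Subalgebra ℂ B))
  have : Algebra.IsAlgebraic (Algebra.adjoin ℂ (Set.range x)) B := ⟨hall⟩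
  have h2 := td_le_card (A := B) x
  rwa [Fintype.card_option, Fintype.card_fin] at h2

end Pool.Agent.RCH.Lat
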