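import Pool.Agent.RCH.Lift
import Pool.Agent.RCH.Homg

/-!
# Hypersurfaces in four-dimensional projective space with a hyperplane section which is a monoid
surface all of whose lines through the vertex lie in one plane
-/

set_option autoImplicit false

open MvPolynomial

namespace Pool.Agent.RCH

/-- The hypersurface `F = 0` in the projective space with coordinates `x_0, …, x_4`. -/
noncomputable def hypersurface (F : MvPolynomial (Fin 5) ℂ) : WVar (Fin 5) where
  wt := fun _ => 1
  eqs := Ideal.span {F}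

/-- The polynomial
`x_0 x_1 ^ (d - 1) + ∏ (x_3 - b_k x_2) ^ (a_k) + x_1 g(x_1, x_2, x_3) + x_4 P(x_0, …, x_4)`,
with `n = d - 1`. -/
noncomputable def linesPoly (n : ℕ) {t : ℕ} (b : Fin t → ℂ) (a : Fin t → ℕ)
    (g : MvPolynomial (Fin 3) ℂ) (P : MvPolynomial (Fin 5) ℂ) : MvPolynomial (Fin 5) ℂ :=
  MvPolynomial.X 0 * MvPolynomial.X 1 ^ n +
    ∏ k, (MvPolynomial.X 3 - C (b k) * MvPolynomial.X 2) ^ a k +
    MvPolynomial.X 1 * aeval ![MvPolynomial.X 1, MvPolynomial.X 2, MvPolynomial.X 3] g +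
    MvPolynomial.X 4 * P

/-- The data: the degree is `d = m + 3`, the `t` lines have slopes `b k` and multiplicities `a k`. -/
structure LnData where
  m : ℕ
  t : ℕ
  b : Fin t → ℂ
  a : Fin t → ℕ
  hb : Function.Injective b
  ha : ∀ k, 1 ≤ a k
  hsum : ∑ k, a k = m + 3
  g : MvPolynomial (Fin 3) ℂ
  hg : g.IsHomogeneous (m + 2)
  hgb : ∀ k, eval ![0, 1, b k] g ≠ 0
  P : MvPolynomial (Fin 5) ℂ
  hP : P.IsHomogeneous (m + 2)
  hPc : eval ![1, 0, 0, 0, 0] P ≠ 0

namespace LnData

variable (S : LnData)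

/-- the equation of the threefold -/
noncomputable def F : MvPolynomial (Fin 5) ℂ := linesPoly (S.m + 2) S.b S.a S.g S.P

/-- the threefold -/
noncomputable def V : WVar (Fin 5) := hypersurface S.F

@[simp] lemma wt_V (j : Fin 5) : S.V.wt j = 1 := rfl

/-! ### Values of the forms in a ring -/

section values

variable {L L' : Type} [CommRing L] [CommRing L'] (c : ℂ →+* L)

/-- the values of `∏ (x_3 - b_k x_2) ^ (a_k)` -/
noncomputable def phv (y z : L) : L := ∏ k, (z - c (S.b k) * y) ^ S.a k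

/-- the values of `g` -/
noncomputable def gv (x y z : L) : L := eval₂Hom c ![x, y, z] S.g

/-- the values of `P` -/
noncomputable def Pv (e : Fin 5 → L) : L := eval₂Hom c e S.P

/-- the values of the equation of the monoid surface -/
noncomputable def F0v (e : Fin 5 → L) : L :=
  e 0 * e 1 ^ (S.m + 2) + S.phv c (e 2) (e 3) + e 1 * S.gv c (e 1) (e 2) (e 3)

/-- the values of the equation of the threefold -/
noncomputable def Fv (e : Fin 5 → L) : L := S.F0v c e + e 4 * S.Pv c e

/-- the values of the derivative of the equation in `x_0` -/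
noncomputable def dFv (e : Fin 5 → L) : L :=
  e 1 ^ (S.m + 2) + e 4 * eval₂Hom c e (pderiv 0 S.P)

lemma map_phv (f : L →+* L') (y z : L) : f (S.phv c y z) = S.phv (f.comp c) (f y) (f z) := by
  simp only [phv, map_prod, map_pow, map_sub, map_mul, RingHom.comp_apply]

lemma map_gv (f : L →+* L') (x y z : L) :
    f (S.gv c x y z) = S.gv (f.comp c) (f x) (f y) (f z) := by
  have h : f.comp (eval₂Hom c ![x, y, z]) = eval₂Hom (f.comp c) ![f x, f y, f z] := by
    apply MvPolynomial.ringHom_ext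
    · intro a
      simp
    · intro j
      fin_cases j <;> simp
  exact congrArg (fun ψ => ψ S.g) h

lemma map_eval₂ (f : L →+* L') (e : Fin 5 → L) (p : MvPolynomial (Fin 5) ℂ) :
    f (eval₂Hom c e p) = eval₂Hom (f.comp c) (fun j => f (e j)) p := by
  have h : f.comp (eval₂Hom c e) = eval₂Hom (f.comp c) (fun j => f (e j)) := by
    apply MvPolynomial.ringHom_ext
    · intro a
      simp
    · intro j
      simp
  exact congrArg (fun ψ => ψ p) h

lemma map_Pv (f : L →+* L') (e : Fin 5 → L) :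
    f (S.Pv c e) = S.Pv (f.comp c) (fun j => f (e j)) := map_eval₂ c f e S.P

lemma map_F0v (f : L →+* L') (e : Fin 5 → L) :
    f (S.F0v c e) = S.F0v (f.comp c) (fun j => f (e j)) := by
  simp only [F0v, map_add, map_mul, map_pow, map_phv, map_gv]

lemma map_Fv (f : L →+* L') (e : Fin 5 → L) :
    f (S.Fv c e) = S.Fv (f.comp c) (fun j => f (e j)) := by
  simp only [Fv, map_add, map_mul, map_F0v, map_Pv]

lemma map_dFv (f : L →+* L') (e : Fin 5 → L) :
    f (S.dFv c e) = S.dFv (f.comp c) (fun j => f (e j)) := by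
  simp only [dFv, map_add, map_mul, map_pow]
  rw [map_eval₂]

lemma eval₂_F (e : Fin 5 → L) : eval₂Hom c e S.F = S.Fv c e := by
  have h : eval₂Hom c e (aeval ![(MvPolynomial.X 1 : MvPolynomial (Fin 5) ℂ), MvPolynomial.X 2,
      MvPolynomial.X 3] S.g) = S.gv c (e 1) (e 2) (e 3) := by
    have h1 : (eval₂Hom c e).comp (aeval ![(MvPolynomial.X 1 : MvPolynomial (Fin 5) ℂ),
        MvPolynomial.X 2, MvPolynomial.X 3]).toRingHom = eval₂Hom c ![e 1, e 2, e 3] := by
      apply MvPolynomial.ringHom_ext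
      · intro a
        simp
      · intro j
        fin_cases j <;> simp
    exact congrArg (fun ψ => ψ S.g) h1
  rw [F, linesPoly, map_add, map_add, map_add, map_mul, map_mul, map_mul, map_pow, map_prod, h]
  simp only [map_pow, map_sub, map_mul, eval₂Hom_X', eval₂Hom_C]
  rfl

lemma phv_smul (k y z : L) : S.phv c (k * y) (k * z) = k ^ (S.m + 3) * S.phv c y z := by
  unfold phv
  rw [← S.hsum, ← Finset.prod_pow_eq_pow_sum, ← Finset.prod_mul_distrib]
  refine Finset.prod_congr rfl fun i _ => ?_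
  rw [← mul_pow]
  congr 1
  ring

lemma gv_smul (k x y z : L) :
    S.gv c (k * x) (k * y) (k * z) = k ^ (S.m + 2) * S.gv c x y z := by
  unfold gv
  rw [← eval₂Hom_smul_of_isHomogeneous c S.hg]
  congr 2
  funext j
  fin_cases j <;> rfl

lemma Pv_smul (k : L) (e : Fin 5 → L) :
    S.Pv c (fun j => k * e j) = k ^ (S.m + 2) * S.Pv c e :=
  eval₂Hom_smul_of_isHomogeneous c S.hP k e

lemma F0v_smul (k : L) (e : Fin 5 → L) :
    S.F0v c (fun j => k * e j) = k ^ (S.m + 3) * S.F0v c e := by
  simp only [F0v, phv_smul, gv_smul]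
  ring

lemma Fv_smul (k : L) (e : Fin 5 → L) :
    S.Fv c (fun j => k * e j) = k ^ (S.m + 3) * S.Fv c e := by
  simp only [Fv, F0v_smul, Pv_smul]
  ring

lemma isHomogeneous_F : S.F.IsHomogeneous (S.m + 3) := by
  have hX : ∀ j : Fin 5, (MvPolynomial.X j : MvPolynomial (Fin 5) ℂ).IsHomogeneous 1 :=
    fun j => isHomogeneous_X ℂ j
  rw [F, linesPoly]
  refine IsHomogeneous.add (IsHomogeneous.add (IsHomogeneous.add ?_ ?_) ?_) ?_
  · have h := (hX 0).mul ((hX 1).pow (S.m + 2))
    rwa [one_mul, show 1 + (S.m + 2) = S.m + 3 from by ring] at h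
  · have h := IsHomogeneous.prod (Finset.univ : Finset (Fin S.t))
      (fun k => ((MvPolynomial.X 3 - C (S.b k) * MvPolynomial.X 2 : MvPolynomial (Fin 5) ℂ)) ^ S.a k)
      (fun k => 1 * S.a k) (fun k _ => by
        refine IsHomogeneous.pow ?_ _
        refine IsHomogeneous.sub (hX 3) ?_
        have h2 := (isHomogeneous_C (Fin 5) (S.b k)).mul (hX 2)
        rwa [zero_add] at h2)
    simp only [one_mul] at h
    rwa [S.hsum] at h
  · have h1 : (aeval ![(MvPolynomial.X 1 : MvPolynomial (Fin 5) ℂ), MvPolynomial.X 2,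
        MvPolynomial.X 3] S.g).IsHomogeneous (S.m + 2) := by
      have h2 : aeval ![(MvPolynomial.X 1 : MvPolynomial (Fin 5) ℂ), MvPolynomial.X 2,
          MvPolynomial.X 3] S.g = rename (![1, 2, 3] : Fin 3 → Fin 5) S.g := by
        have h3 : (aeval ![(MvPolynomial.X 1 : MvPolynomial (Fin 5) ℂ), MvPolynomial.X 2,
          MvPolynomial.X 3] : MvPolynomial (Fin 3) ℂ →ₐ[ℂ] _) =
            rename (![1, 2, 3] : Fin 3 → Fin 5) := by
          ext j
          fin_cases j <;> simp
        rw [h3]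
      rw [h2]
      exact S.hg.rename_isHomogeneous
    have h := (hX 1).mul h1
    rwa [show 1 + (S.m + 2) = S.m + 3 from by ring] at h
  · have h := (hX 4).mul S.hP
    rwa [show 1 + (S.m + 2) = S.m + 3 from by ring] at h

/-- the value of `∏ (x_3 - b_k x_2) ^ (a_k)` on a line is zero -/
lemma phv_eq_zero (k : Fin S.t) {y z : L} (h : z = c (S.b k) * y) : S.phv c y z = 0 := by
  unfold phv
  refine Finset.prod_eq_zero (Finset.mem_univ k) ?_
  rw [h, sub_self, zero_pow]
  have := S.ha k
  omega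

lemma phv_zero_right (y : L) : S.phv c y 0 = (∏ k, (- c (S.b k)) ^ S.a k) * y ^ (S.m + 3) := by
  unfold phv
  rw [← S.hsum, ← Finset.prod_pow_eq_pow_sum, ← Finset.prod_mul_distrib]
  refine Finset.prod_congr rfl fun i _ => ?_
  rw [← mul_pow]
  congr 1
  ring

lemma phv_zero_left (z : L) : S.phv c 0 z = z ^ (S.m + 3) := by
  unfold phv
  rw [← S.hsum, ← Finset.prod_pow_eq_pow_sum]
  refine Finset.prod_congr rfl fun i _ => ?_
  rw [mul_zero, sub_zero]

/-- the roots of the product of linear forms in a domain -/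
lemma exists_root [IsDomain L] {y z : L} (h : S.phv c y z = 0) : ∃ k, z = c (S.b k) * y := by
  unfold phv at h
  rw [Finset.prod_eq_zero_iff] at h
  obtain ⟨k, -, hk⟩ := h
  exact ⟨k, sub_eq_zero.1 (pow_eq_zero_iff (by have := S.ha k; omega) |>.1 hk)⟩

end values

/-! ### The coordinates of a point of a power under a homomorphism -/

section coords

variable {N : ℕ} {L : Type} [CommRing L] (φ : Coord (Fin 5) N →+* L)

/-- the values of the constants -/
noncomputable def cs : ℂ →+* L := φ.comp C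

/-- the values of the coordinates of the `i`-th point -/
noncomputable def xs (i : Fin N) (j : Fin 5) : L := φ (MvPolynomial.X (i, j))

lemma map_inFactor (i : Fin N) (p : MvPolynomial (Fin 5) ℂ) :
    φ (inFactor N i p) = eval₂Hom (cs φ) (xs φ i) p := by
  have h : φ.comp (inFactor N i).toRingHom = eval₂Hom (cs φ) (xs φ i) := by
    apply MvPolynomial.ringHom_ext
    · intro a
      simp [cs, inFactor]
    · intro j
      simp [xs, inFactor]
  exact congrArg (fun ψ => ψ p) h

end coords

/-- the equation of the threefold for the `i`-th point -/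
noncomputable def FX (N : ℕ) (i : Fin N) : Coord (Fin 5) N := inFactor N i S.F

/-- the derivative of the equation in `x_0` for the `i`-th point -/
noncomputable def dFX (N : ℕ) (i : Fin N) : Coord (Fin 5) N :=
  MvPolynomial.X (i, 1) ^ (S.m + 2) + MvPolynomial.X (i, 4) * inFactor N i (pderiv 0 S.P)

lemma map_FX {N : ℕ} {L : Type} [CommRing L] (φ : Coord (Fin 5) N →+* L) (i : Fin N) :
    φ (S.FX N i) = S.Fv (cs φ) (xs φ i) := by
  rw [FX, map_inFactor, eval₂_F]

lemma map_dFX {N : ℕ} {L : Type} [CommRing L] (φ : Coord (Fin 5) N →+* L) (i : Fin N) :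
    φ (S.dFX N i) = S.dFv (cs φ) (xs φ i) := by
  rw [dFX, map_add, map_mul, map_pow, map_inFactor]
  rfl

lemma onX_genIdeal {N : ℕ} {D : Type} [CommRing D] [Algebra ℂ D] (d : Fin N × Fin 5 → D)
    (h : ∀ i, S.Fv (algebraMap ℂ D) (fun j => d (i, j)) = 0) :
    ∀ (i : Fin N), ∀ f ∈ S.V.eqs, inFactor N i f ∈ genIdeal S.V d := by
  intro i f hf
  have hf' : f ∈ Ideal.span {S.F} := hf
  obtain ⟨q, rfl⟩ := Ideal.mem_span_singleton'.mp hf'
  rw [map_mul]
  refine Ideal.mul_mem_left _ _ ?_
  have hw : IsWeightedHomogeneous S.V.wt S.F (S.m + 3) := S.isHomogeneous_F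
  rw [mem_genIdeal_of_homogeneous S.V d (inFactor_homogeneous S.V i hw), inFactor_aeval]
  have h1 : aeval (fun j => d (i, j)) S.F = eval₂Hom (algebraMap ℂ D) (fun j => d (i, j)) S.F := rfl
  rw [h1, eval₂_F, h]

lemma FX_mem {N : ℕ} (Q : Pt S.V N) (i : Fin N) : S.FX N i ∈ Q.I :=
  Q.onX i _ (Ideal.subset_span rfl)

end LnData

end Pool.Agent.RCH
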