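import Pool.Agent.RCH.LnBase

/-!
# The divisors of `N_4` on `pV` and of the derivative on the diagonal of the threefold agree
where `x_4` and `y_4` do not vanish
-/

set_option autoImplicit false

open MvPolynomial

namespace Pool.Agent.RCH

attribute [local instance] Pt.prime

namespace LnData

variable (S : LnData)

/-- the homomorphism given by the generic point of the diagonal of the surface -/
noncomputable def dlEv : Coord (Fin 5) 2 →+* S.RY :=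
  eval₂Hom (algebraMap ℂ S.RY) (fun v : Fin 2 × Fin 5 => S.ptY v.2)

lemma cs_dlEv : cs S.dlEv = algebraMap ℂ S.RY := by
  refine RingHom.ext fun a => ?_
  simp [cs, dlEv]

lemma xs_dlEv (i : Fin 2) : xs S.dlEv i = S.ptY := by
  funext j
  simp [xs, dlEv]

lemma dFX_pXD : S.dFX 2 0 ∉ S.pXD.I := by
  intro h
  have h1 := S.kill_XD S.dlEv 1 (fun j => by rw [xs_dlEv, xs_dlEv, mul_one])
    (by rw [xs_dlEv, cs_dlEv]; exact S.Fv_ptY) h
  rw [map_dFX, xs_dlEv, dFv, show S.ptY 4 = 0 from rfl, zero_mul, add_zero] at h1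
  exact S.ptY_ne (pow_eq_zero_iff (by omega) |>.1 h1)

lemma dl_mn_pXD (i j : Fin 5) : mn i j ∈ S.pXD.I := by
  show genHom S.V (fun v : Fin 2 × Fin 5 => S.ptX v.2) (mn i j) = 0
  have h : ∀ v : Fin 2 × Fin 5, genHom S.V (fun v : Fin 2 × Fin 5 => S.ptX v.2)
      (MvPolynomial.X v) = C (S.ptX v.2) * MvPolynomial.X v.1 := by
    intro v
    rw [genHom, aeval_X, wt_V, pow_one]
  rw [mn, map_sub, map_mul, map_mul, h, h, h, h]
  ring

section general

variable {L : Type} [CommRing L] (φ : Coord (Fin 5) 2 →+* L)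

lemma dl_map_mn (i j : Fin 5) :
    φ (mn i j) = xs φ 0 i * xs φ 1 j - xs φ 1 i * xs φ 0 j := by
  rw [mn, map_sub, map_mul, map_mul]
  rfl

lemma dl_map_NN (j : Fin 5) :
    φ (NN j) = xs φ 0 0 * xs φ 1 j - xs φ 1 0 * xs φ 0 j := by
  rw [NN, map_sub, map_mul, map_mul]
  rfl

/-- where `x_4` and `y_4` are units, two points with the same ratios are proportional -/
lemma dl_ratio (hu : IsUnit (xs φ 0 4)) :
    ∃ w, xs φ 1 4 = xs φ 0 4 * w ∧
      ∀ j, xs φ 0 j * xs φ 1 4 = xs φ 1 j * xs φ 0 4 → xs φ 1 j = xs φ 0 j * w := by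
  obtain ⟨u, hu⟩ := hu
  refine ⟨↑u⁻¹ * xs φ 1 4, ?_, ?_⟩
  · rw [← hu, Units.mul_inv_cancel_left]
  · intro j hj
    have h1 : xs φ 0 j * (↑u⁻¹ * xs φ 1 4) = ↑u⁻¹ * (xs φ 0 j * xs φ 1 4) := by ring
    rw [h1, hj, ← hu]
    have h2 : (↑u⁻¹ : L) * (xs φ 1 j * ↑u) = xs φ 1 j * (↑u⁻¹ * ↑u) := by ring
    rw [h2, Units.inv_mul, mul_one]

end general

variable (Q : Pt S.V 2)

lemma dl_h1 (h4 : (MvPolynomial.X (0, 4) : Coord (Fin 5) 2) ∉ Q.I) (z : Coord (Fin 5) 2)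
    (hz : z ∈ S.pV.I) :
    toLocMod (S.pXD.I ⊔ Ideal.span {S.dFX 2 0}) Q.I z = 0 := by
  set J := S.pXD.I ⊔ Ideal.span {S.dFX 2 0} with hJ
  have hu : IsUnit (xs (toLocMod J Q.I) 0 4) := isUnit_toLocMod h4
  have hmn : ∀ i j, xs (toLocMod J Q.I) 0 i * xs (toLocMod J Q.I) 1 j =
      xs (toLocMod J Q.I) 1 i * xs (toLocMod J Q.I) 0 j := by
    intro i j
    have h := toLocMod_eq_zero_of_mem (Q := Q.I) (Ideal.mem_sup_left (S.dl_mn_pXD i j) : mn i j ∈ J)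
    rw [dl_map_mn] at h
    exact sub_eq_zero.1 h
  obtain ⟨w, hw4, hw⟩ := dl_ratio (toLocMod J Q.I) hu
  have hF : S.Fv (cs (toLocMod J Q.I)) (xs (toLocMod J Q.I) 0) = 0 := by
    rw [← map_FX]
    exact toLocMod_eq_zero_of_mem (Ideal.mem_sup_left (S.FX_mem S.pXD 0))
  refine S.kill_V _ w (hw 1 (hmn 1 4)) (hw 2 (hmn 2 4)) (hw 3 (hmn 3 4)) hw4
    (xs (toLocMod J Q.I) 0 0) (hw 0 (hmn 0 4)) hu hF ?_ hz
  rw [S.eval_Gp_self _ _ hF, ← map_dFX]
  exact toLocMod_eq_zero_of_mem (Ideal.mem_sup_right (Ideal.mem_span_singleton_self _))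

lemma dl_h2 : toLocMod (S.pXD.I ⊔ Ideal.span {S.dFX 2 0}) Q.I (NN 4) = 0 :=
  toLocMod_eq_zero_of_mem (Ideal.mem_sup_left (S.dl_mn_pXD 0 4))

lemma dl_h3 (h4 : (MvPolynomial.X (0, 4) : Coord (Fin 5) 2) ∉ Q.I) (z : Coord (Fin 5) 2)
    (hz : z ∈ S.pXD.I) :
    toLocMod (S.pV.I ⊔ Ideal.span {NN 4}) Q.I z = 0 := by
  set J := S.pV.I ⊔ Ideal.span {NN 4} with hJ
  have hu : IsUnit (xs (toLocMod J Q.I) 0 4) := isUnit_toLocMod h4
  have hmn : ∀ i : Fin 5, i ≠ 0 → xs (toLocMod J Q.I) 0 i * xs (toLocMod J Q.I) 1 4 =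
      xs (toLocMod J Q.I) 1 i * xs (toLocMod J Q.I) 0 4 := by
    intro i hi
    have h := toLocMod_eq_zero_of_mem (Q := Q.I)
      (Ideal.mem_sup_left (S.mn_pV i 4 hi (by decide)) : mn i 4 ∈ J)
    rw [dl_map_mn] at h
    exact sub_eq_zero.1 h
  have hNN : xs (toLocMod J Q.I) 0 0 * xs (toLocMod J Q.I) 1 4 =
      xs (toLocMod J Q.I) 1 0 * xs (toLocMod J Q.I) 0 4 := by
    have h := toLocMod_eq_zero_of_mem (Q := Q.I)
      (Ideal.mem_sup_right (Ideal.mem_span_singleton_self _) : NN 4 ∈ J)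
    rw [dl_map_NN] at h
    exact sub_eq_zero.1 h
  obtain ⟨w, hw4, hw⟩ := dl_ratio (toLocMod J Q.I) hu
  have hF : S.Fv (cs (toLocMod J Q.I)) (xs (toLocMod J Q.I) 0) = 0 := by
    rw [← map_FX]
    exact toLocMod_eq_zero_of_mem (Ideal.mem_sup_left (S.FX_mem S.pV 0))
  refine S.kill_XD _ w (fun j => hw j ?_) hF hz
  by_cases hj : j = 0
  · rw [hj]
    exact hNN
  · exact hmn j hj

lemma dl_h4 (h4' : (MvPolynomial.X (1, 4) : Coord (Fin 5) 2) ∉ Q.I) :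
    toLocMod (S.pV.I ⊔ Ideal.span {NN 4}) Q.I (S.dFX 2 0) = 0 := by
  obtain ⟨R, hR⟩ := S.exists_taylor
  have h1 := toLocMod_eq_zero_of_mem (Q := Q.I)
    (Ideal.mem_sup_left hR : _ ∈ S.pV.I ⊔ Ideal.span {NN 4})
  have h2 := toLocMod_eq_zero_of_mem (Q := Q.I)
    (Ideal.mem_sup_right (Ideal.mem_span_singleton_self (NN 4)) :
      NN 4 ∈ S.pV.I ⊔ Ideal.span {NN 4})
  rw [map_sub, map_mul, map_mul, h2, zero_mul, sub_zero, map_pow] at h1
  have hu : IsUnit (toLocMod (S.pV.I ⊔ Ideal.span {NN 4}) Q.I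
      (MvPolynomial.X (1, 4) : Coord (Fin 5) 2)) := isUnit_toLocMod h4'
  exact ((hu.pow _).mul_right_eq_zero).1 h1

open Classical in
lemma dl (h4 : (MvPolynomial.X (0, 4) : Coord (Fin 5) 2) ∉ Q.I)
    (h4' : (MvPolynomial.X (1, 4) : Coord (Fin 5) 2) ∉ Q.I) :
    (if CodimOne S.pV.I Q.I then (ordAt S.pV.I Q.I (NN 4)).toNat else 0) =
      (if CodimOne S.pXD.I Q.I then (ordAt S.pXD.I Q.I (S.dFX 2 0)).toNat else 0) := by
  have k1 := S.dl_h1 Q h4
  have k2 := S.dl_h2 Q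
  have k3 := S.dl_h3 Q h4
  have k4 := S.dl_h4 Q h4'
  have hord : ordAt S.pV.I Q.I (NN 4) = ordAt S.pXD.I Q.I (S.dFX 2 0) := leq_ord k1 k2 k3 k4
  by_cases hN : NN 4 ∈ Q.I
  · by_cases hd : S.dFX 2 0 ∈ Q.I
    · have hiff : CodimOne S.pV.I Q.I ↔ CodimOne S.pXD.I Q.I := by
        constructor
        · intro hc
          have hle : S.pXD.I ≤ Q.I := by
            intro z hz
            obtain ⟨s, hs, h⟩ := exists_of_toLocMod_eq_zero (k3 z hz)
            have h5 : S.pV.I ⊔ Ideal.span {NN 4} ≤ Q.I := by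
              rw [sup_le_iff, Ideal.span_singleton_le_iff_mem]
              exact ⟨hc.1.le, hN⟩
            exact ((Ideal.IsPrime.mem_or_mem (I := Q.I) inferInstance (h5 h))).resolve_left hs
          exact leq_codim hle hd S.dFX_pXD (S.NN_pV 4 (by decide)) k3 k4 k1 k2 hc
        · intro hc
          have hle : S.pV.I ≤ Q.I := by
            intro z hz
            obtain ⟨s, hs, h⟩ := exists_of_toLocMod_eq_zero (k1 z hz)
            have h5 : S.pXD.I ⊔ Ideal.span {S.dFX 2 0} ≤ Q.I := by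
              rw [sup_le_iff, Ideal.span_singleton_le_iff_mem]
              exact ⟨hc.1.le, hd⟩
            exact ((Ideal.IsPrime.mem_or_mem (I := Q.I) inferInstance (h5 h))).resolve_left hs
          exact leq_codim hle hN (S.NN_pV 4 (by decide)) S.dFX_pXD k1 k2 k3 k4 hc
      by_cases hc : CodimOne S.pV.I Q.I
      · rw [if_pos hc, if_pos (hiff.1 hc), hord]
      · rw [if_neg hc, if_neg (fun h => hc (hiff.2 h))]
    · have h0 : ordAt S.pXD.I Q.I (S.dFX 2 0) = 0 := ordAt_eq_zero hd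
      rw [hord, h0]
      split_ifs <;> rfl
  · have h0 : ordAt S.pV.I Q.I (NN 4) = 0 := ordAt_eq_zero hN
    rw [← hord, h0]
    split_ifs <;> rfl

end LnData

end Pool.Agent.RCH
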