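import Pool.Agent.RCH.LnBase

/-!
# The orders of the functions on the fibre square of the projection, at `l_k x l_k`
-/

set_option autoImplicit false

open MvPolynomial

namespace Pool.Agent.RCH

attribute [local instance] Pt.prime

namespace LnData

namespace Ovl

variable (S : LnData) (k : Fin S.t)

/-- the cofactor of `x_1` -/
noncomputable def co : Coord (Fin 5) 2 :=
  S.RR 2 * S.gX 0 - MvPolynomial.X (0, 1) ^ (S.m + 1) * (MvPolynomial.X (1, 2) ^ (S.m + 1) *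
    NN 2 * inFactor 2 0 S.P)

/-- the product over the other lines -/
noncomputable def oth : Coord (Fin 5) 2 := ∏ i ∈ Finset.univ.erase k, S.lam 0 i ^ S.a i

lemma prod_eq : ∏ i, S.lam 0 i ^ S.a i = S.lam 0 k ^ S.a k * oth S k :=
  (Finset.mul_prod_erase _ _ (Finset.mem_univ k)).symm

lemma key : MvPolynomial.X (1, 2) * co S * MvPolynomial.X (0, 1) +
    MvPolynomial.X (1, 2) * S.RR 2 * oth S k * S.lam 0 k ^ S.a k ∈ S.pV.I := by
  have h1 := S.FX_mem S.pV 0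
  have h2 := S.KK_pV 2 (by decide)
  have h := sub_mem (S.pV.I.mul_mem_left (MvPolynomial.X (1, 2) * S.RR 2) h1)
    (S.pV.I.mul_mem_left (inFactor 2 0 S.P) h2)
  rw [eq_gX, prod_eq S k] at h
  convert h using 1
  rw [co]
  ring

lemma notMem_mul {a b : Coord (Fin 5) 2} (ha : a ∉ (S.pB (S.pl k) (S.pl k)).I)
    (hb : b ∉ (S.pB (S.pl k) (S.pl k)).I) : a * b ∉ (S.pB (S.pl k) (S.pl k)).I :=
  fun h => ((S.pB (S.pl k) (S.pl k)).prime.mem_or_mem h).elim ha hb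

lemma notMem_pow {a : Coord (Fin 5) 2} (n : ℕ) (ha : a ∉ (S.pB (S.pl k) (S.pl k)).I) :
    a ^ n ∉ (S.pB (S.pl k) (S.pl k)).I :=
  fun h => ha ((S.pB (S.pl k) (S.pl k)).prime.mem_of_pow_mem n h)

lemma co_notMem : co S ∉ (S.pB (S.pl k) (S.pl k)).I := by
  intro h
  have h1 : MvPolynomial.X (0, 1) ^ (S.m + 1) * (MvPolynomial.X (1, 2) ^ (S.m + 1) *
      NN 2 * inFactor 2 0 S.P) ∈ (S.pB (S.pl k) (S.pl k)).I :=
    Ideal.mul_mem_right _ _ (Ideal.pow_mem_of_mem _ (S.X1_mem_ll 0 k k) _ (by omega))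
  have h2 := add_mem h h1
  rw [co, sub_add_cancel] at h2
  exact notMem_mul S k (S.RR2_ll k) (S.gX_ll 0 k k) h2

lemma oth_notMem : oth S k ∉ (S.pB (S.pl k) (S.pl k)).I := by
  intro h
  rw [oth, (S.pB (S.pl k) (S.pl k)).prime.prod_mem_iff] at h
  obtain ⟨i, hi, hm⟩ := h
  exact notMem_pow S k _ (S.lam0_ll k k i (Finset.ne_of_mem_erase hi)) hm

lemma lam_notMem : S.lam 0 k ∉ S.pV.I := by
  intro h
  have h1 := key S k
  have hp := S.pV.prime
  have h2 : MvPolynomial.X (1, 2) * S.RR 2 * oth S k * S.lam 0 k ^ S.a k ∈ S.pV.I :=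
    Ideal.mul_mem_left _ _ (Ideal.pow_mem_of_mem _ h _ (S.ha k))
  have h3 := (Ideal.add_mem_iff_left _ h2).1 h1
  rcases hp.mem_or_mem h3 with h4 | h4
  · rcases hp.mem_or_mem h4 with h5 | h5
    · exact S.X_pV 1 2 (by decide) h5
    · exact co_notMem S k (S.pV_le_ll k h5)
  · exact S.X_pV 0 1 (by decide) h4

lemma reg {z : Coord (Fin 5) 2} (hz : z ∈ (S.pB (S.pl k) (S.pl k)).I) :
    ∃ s, s ∉ (S.pB (S.pl k) (S.pl k)).I ∧
      s * z ∈ S.pV.I ⊔ Ideal.span {S.lam 0 k} := by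
  set J := S.pV.I ⊔ Ideal.span {S.lam 0 k} with hJ
  apply exists_of_toLocMod_eq_zero (J := J)
  let φ : Coord (Fin 5) 2 →+* LocMod J (S.pB (S.pl k) (S.pl k)).I :=
    toLocMod J (S.pB (S.pl k) (S.pl k)).I
  have hφ : ∀ w ∈ S.pV.I, φ w = 0 := fun w hw =>
    toLocMod_eq_zero_of_mem (Ideal.mem_sup_left hw)
  have hl : φ (S.lam 0 k) = 0 :=
    toLocMod_eq_zero_of_mem (Ideal.mem_sup_right (Ideal.mem_span_singleton_self _))
  have hx2 : IsUnit (φ (MvPolynomial.X (0, 2))) := isUnit_toLocMod (S.X2_ll 0 k k)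
  have hy2 : IsUnit (φ (MvPolynomial.X (1, 2))) := isUnit_toLocMod (S.X2_ll 1 k k)
  have hR2 : IsUnit (φ (S.RR 2)) := isUnit_toLocMod (S.RR2_ll k)
  have hco : IsUnit (φ (co S)) := isUnit_toLocMod (co_notMem S k)
  have h3 : φ (MvPolynomial.X (0, 3)) = φ (C (S.b k)) * φ (MvPolynomial.X (0, 2)) := by
    rw [lam, map_sub, map_mul] at hl
    exact sub_eq_zero.1 hl
  have h1 : φ (MvPolynomial.X (0, 1)) = 0 := by
    have h := hφ _ (key S k)
    rw [map_add, map_mul _ (MvPolynomial.X (1, 2) * S.RR 2 * oth S k), map_pow, hl,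
      zero_pow (by have := S.ha k; omega), mul_zero, add_zero, map_mul, map_mul] at h
    exact (hy2.mul hco).mul_right_eq_zero.1 h
  have h4 : φ (MvPolynomial.X (0, 4)) = 0 := by
    have h := hφ _ (S.KK_pV 2 (by decide))
    rw [map_add, map_mul, map_mul, map_pow, h1, zero_pow (by omega), zero_mul, zero_mul, zero_add,
      map_mul, map_mul, mul_assoc] at h
    exact (hy2.mul hR2).mul_left_eq_zero.1 h
  have hmn : ∀ j : Fin 5, j ≠ 0 → φ (MvPolynomial.X (0, 2)) * φ (MvPolynomial.X (1, j)) =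
      φ (MvPolynomial.X (1, 2)) * φ (MvPolynomial.X (0, j)) := by
    intro j hj
    have h := hφ _ (S.mn_pV 2 j (by decide) hj)
    rw [mn, map_sub, map_mul, map_mul] at h
    exact sub_eq_zero.1 h
  have h1' : φ (MvPolynomial.X (1, 1)) = 0 := by
    have h := hmn 1 (by decide)
    rw [h1, mul_zero] at h
    exact hx2.mul_right_eq_zero.1 h
  have h4' : φ (MvPolynomial.X (1, 4)) = 0 := by
    have h := hmn 4 (by decide)
    rw [h4, mul_zero] at h
    exact hx2.mul_right_eq_zero.1 h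
  have h3' : φ (MvPolynomial.X (1, 3)) = φ (C (S.b k)) * φ (MvPolynomial.X (1, 2)) := by
    have h := hmn 3 (by decide)
    rw [h3] at h
    refine hx2.mul_left_cancel ?_
    rw [h]
    ring
  exact S.kill_ll φ k k h1 h4 h3 h1' h4' h3' hz

/-- the relation for `x_1` -/
lemma rel1 : MvPolynomial.X (1, 2) * co S * MvPolynomial.X (0, 1) -
    (-(MvPolynomial.X (1, 2) * S.RR 2 * oth S k)) * S.lam 0 k ^ S.a k ∈ S.pV.I := by
  have h := key S k
  convert h using 1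
  ring

/-- the relation for the powers of `x_1` -/
lemma rel1_pow (n : ℕ) : (MvPolynomial.X (1, 2) * co S) ^ n * MvPolynomial.X (0, 1) ^ n -
    (-(MvPolynomial.X (1, 2) * S.RR 2 * oth S k)) ^ n * S.lam 0 k ^ (n * S.a k) ∈ S.pV.I := by
  have h := rel1 S k
  rw [← Ideal.Quotient.eq_zero_iff_mem, map_sub, sub_eq_zero] at h ⊢
  have h2 := congrArg (fun x => x ^ n) h
  simp only [← map_pow] at h2
  have e1 : (MvPolynomial.X (1, 2) * co S * MvPolynomial.X (0, 1)) ^ n =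
      (MvPolynomial.X (1, 2) * co S) ^ n * MvPolynomial.X (0, 1) ^ n := mul_pow _ _ _
  have e2 : (-(MvPolynomial.X (1, 2) * S.RR 2 * oth S k) * S.lam 0 k ^ S.a k) ^ n =
      (-(MvPolynomial.X (1, 2) * S.RR 2 * oth S k)) ^ n * S.lam 0 k ^ (n * S.a k) := by
    rw [mul_pow, ← pow_mul, mul_comm (S.a k) n]
  rw [e1, e2] at h2
  exact h2

theorem ord4 : ordAt S.pV.I (S.pB (S.pl k) (S.pl k)).I (MvPolynomial.X (0, 4)) =
    ((S.m + 2) * S.a k : ℕ) := by
  have hneg : ∀ a : Coord (Fin 5) 2, a ∉ (S.pB (S.pl k) (S.pl k)).I →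
      -a ∉ (S.pB (S.pl k) (S.pl k)).I := fun a ha h => ha (neg_mem_iff.1 h)
  have hy2 := S.X2_ll 1 k k
  refine ordAt_eq (t := S.lam 0 k) (S.pV_le_ll k) (S.lam0_mem_ll k k) (lam_notMem S k)
    (fun z hz => reg S k hz)
    (s := (MvPolynomial.X (1, 2) * co S) ^ (S.m + 2) * (MvPolynomial.X (1, 2) * S.RR 2))
    (s' := (-(MvPolynomial.X (1, 2) * S.RR 2 * oth S k)) ^ (S.m + 2) *
      (-(MvPolynomial.X (1, 2) ^ (S.m + 2) * NN 2)))
    (notMem_mul S k (notMem_pow S k _ (notMem_mul S k hy2 (co_notMem S k)))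
      (notMem_mul S k hy2 (S.RR2_ll k)))
    (notMem_mul S k (notMem_pow S k _ (hneg _ (notMem_mul S k (notMem_mul S k hy2 (S.RR2_ll k))
      (oth_notMem S k)))) (hneg _ (notMem_mul S k (notMem_pow S k _ hy2) (S.NN2_ll k k)))) ?_
  have h1 := S.KK_pV 2 (by decide)
  have h2 := rel1_pow S k (S.m + 2)
  have h := sub_mem (S.pV.I.mul_mem_left ((MvPolynomial.X (1, 2) * co S) ^ (S.m + 2)) h1)
    (S.pV.I.mul_mem_left (MvPolynomial.X (1, 2) ^ (S.m + 2) * NN 2) h2)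
  convert h using 1
  ring

theorem main : CodimOne S.pV.I (S.pB (S.pl k) (S.pl k)).I ∧
    ordAt S.pV.I (S.pB (S.pl k) (S.pl k)).I (NN 4) = ((S.m + 2) * S.a k : ℕ) ∧
    ordAt S.pV.I (S.pB (S.pl k) (S.pl k)).I (MvPolynomial.X (0, 4)) =
      ((S.m + 2) * S.a k : ℕ) ∧
    ordAt S.pV.I (S.pB (S.pl k) (S.pl k)).I (MvPolynomial.X (1, 4)) =
      ((S.m + 2) * S.a k : ℕ) := by
  have hmn := S.mn_pV 2 4 (by decide) (by decide)
  have hx2 := S.X2_ll 0 k k
  have hy2 := S.X2_ll 1 k k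
  refine ⟨codimOne_of (S.pV_le_ll k) (S.lam0_mem_ll k k) (lam_notMem S k)
    (fun z hz => reg S k hz), ?_, ord4 S k, ?_⟩
  · rw [← ord4 S k, ← ordAt_unit_mul hx2 (NN 4),
      ← ordAt_unit_mul (S.NN2_ll k k) (MvPolynomial.X (0, 4))]
    apply ordAt_congr
    have h := S.pV.I.mul_mem_left (MvPolynomial.X (0, 0)) hmn
    convert h using 1
    rw [mn, NN, NN]
    ring
  · rw [← ord4 S k, ← ordAt_unit_mul hx2 (MvPolynomial.X (1, 4)),
      ← ordAt_unit_mul hy2 (MvPolynomial.X (0, 4))]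
    apply ordAt_congr
    exact hmn

end Ovl

variable (S : LnData)

lemma ovl (k : Fin S.t) : CodimOne S.pV.I (S.pB (S.pl k) (S.pl k)).I ∧
    ordAt S.pV.I (S.pB (S.pl k) (S.pl k)).I (NN 4) = ((S.m + 2) * S.a k : ℕ) ∧
    ordAt S.pV.I (S.pB (S.pl k) (S.pl k)).I (MvPolynomial.X (0, 4)) = ((S.m + 2) * S.a k : ℕ) ∧
    ordAt S.pV.I (S.pB (S.pl k) (S.pl k)).I (MvPolynomial.X (1, 4)) = ((S.m + 2) * S.a k : ℕ) :=
  Ovl.main S k

end LnData

end Pool.Agent.RCH
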