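import Pool.Agent.RCH.LnBase

/-!
# The orders of the functions on the fibre square of the pencil, at `p x Y`
-/

set_option autoImplicit false

open MvPolynomial

namespace Pool.Agent.RCH

attribute [local instance] Pt.prime

namespace LnData

namespace Oup

variable (S : LnData)

/-- polynomials over the ring of the surface -/
abbrev DD : Type := MvPolynomial (Fin 2) S.RY

/-- evaluation at a first point with given coordinates, and the generic point of the surface -/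
noncomputable def ev (v : Fin 5 → DD S) : Coord (Fin 5) 2 →+* DD S :=
  eval₂Hom ((C : S.RY →+* DD S).comp (algebraMap ℂ S.RY))
    (fun w => if w.1 = 0 then v w.2 else C (S.ptY w.2))

section ev

variable (v : Fin 5 → DD S)

lemma ev_X0 (j : Fin 5) : ev S v (MvPolynomial.X (0, j)) = v j := by
  simp [ev]

lemma ev_X1 (j : Fin 5) : ev S v (MvPolynomial.X (1, j)) = C (S.ptY j) := by
  simp [ev]

lemma xs_ev1 : xs (ev S v) 1 = fun j => C (S.ptY j) := funext fun j => ev_X1 S v j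

lemma cs_ev : cs (L := DD S) (ev S v) = (C : S.RY →+* DD S).comp (algebraMap ℂ S.RY) := by
  refine RingHom.ext fun a => ?_
  rw [cs, RingHom.comp_apply, ev, eval₂Hom_C]

lemma ev_FX1 : ev S v (S.FX 2 1) = 0 := by
  rw [S.map_FX (L := DD S) (ev S v) 1, xs_ev1, cs_ev, ← S.map_Fv, Fv_ptY, map_zero]

lemma ev_X4 : ev S v (MvPolynomial.X (1, 4)) = 0 := by
  rw [ev_X1]
  exact map_zero _

/-- the prime ideal of the pairs `(x, y)` with `x` given and `y` on the surface -/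
noncomputable def PP : Ideal (Coord (Fin 5) 2) := RingHom.ker (ev S v)

lemma PP_prime : (PP S v).IsPrime := RingHom.ker_isPrime _

lemma mem_PP {z : Coord (Fin 5) 2} : z ∈ PP S v ↔ ev S v z = 0 := Iff.rfl

lemma kill {L : Type} [CommRing L] (φ : Coord (Fin 5) 2 →+* L) (h4 : xs φ 1 4 = 0)
    (hF : S.F0v (cs φ) (xs φ 1) = 0) (T : Fin 2 → L)
    (hv : ∀ γ : S.RY →+* L, (∀ j, γ (S.ptY j) = xs φ 1 j) →
      ∀ j, eval₂Hom γ T (v j) = xs φ 0 j) {z : Coord (Fin 5) 2} (hz : z ∈ PP S v) :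
    φ z = 0 := by
  obtain ⟨γ, hγ1, hγ2⟩ := S.exists_liftY (cs φ) (xs φ 1) h4 hF
  have h : (eval₂Hom γ T).comp (ev S v) = φ := by
    apply MvPolynomial.ringHom_ext
    · intro a
      rw [RingHom.comp_apply, ev, eval₂Hom_C, RingHom.comp_apply, eval₂Hom_C, hγ1]
      rfl
    · rintro ⟨i, j⟩
      rw [RingHom.comp_apply]
      fin_cases i
      · exact (congrArg _ (ev_X0 S v j)).trans (hv γ hγ2 j)
      · refine (congrArg _ (ev_X1 S v j)).trans ?_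
        rw [eval₂Hom_C]
        exact hγ2 j
  rw [← h, RingHom.comp_apply, (mem_PP S v).1 hz, map_zero]

end ev

lemma F0_of {L : Type} [CommRing L] (φ : Coord (Fin 5) 2 →+* L) (i : Fin 2)
    (h4 : xs φ i 4 = 0) (h : φ (S.FX 2 i) = 0) : S.F0v (cs φ) (xs φ i) = 0 := by
  rw [map_FX, Fv, h4, zero_mul, add_zero] at h
  exact h

/-! ### The line `x_1 = x_2 = x_4 = 0` -/

/-- the generic point of a line through the vertex -/
noncomputable def vA : Fin 5 → DD S := ![MvPolynomial.X 0, 0, 0, MvPolynomial.X 1, 0]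

instance : (PP S (vA S)).IsPrime := PP_prime S _

lemma killA {L : Type} [CommRing L] (φ : Coord (Fin 5) 2 →+* L) (h1 : xs φ 0 1 = 0)
    (h2 : xs φ 0 2 = 0) (h4 : xs φ 0 4 = 0) (h4' : xs φ 1 4 = 0)
    (hF : S.F0v (cs φ) (xs φ 1) = 0) {z : Coord (Fin 5) 2} (hz : z ∈ PP S (vA S)) :
    φ z = 0 := by
  refine kill S _ φ h4' hF ![xs φ 0 0, xs φ 0 3] (fun γ _ j => ?_) hz
  fin_cases j
  · exact (eval₂Hom_X' _ _ _ : eval₂Hom γ ![xs φ 0 0, xs φ 0 3] (MvPolynomial.X 0) = _)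
  · exact (map_zero _).trans h1.symm
  · exact (map_zero _).trans h2.symm
  · exact (eval₂Hom_X' _ _ _ : eval₂Hom γ ![xs φ 0 0, xs φ 0 3] (MvPolynomial.X 1) = _)
  · exact (map_zero _).trans h4.symm

lemma X1_A : (MvPolynomial.X (0, 1) : Coord (Fin 5) 2) ∈ PP S (vA S) := ev_X0 S _ 1

lemma X2_A : (MvPolynomial.X (0, 2) : Coord (Fin 5) 2) ∈ PP S (vA S) := ev_X0 S _ 2

lemma X4_A : (MvPolynomial.X (0, 4) : Coord (Fin 5) 2) ∈ PP S (vA S) := ev_X0 S _ 4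

lemma X3_A : (MvPolynomial.X (0, 3) : Coord (Fin 5) 2) ∉ PP S (vA S) := by
  intro h
  have h1 : ev S (vA S) (MvPolynomial.X (0, 3)) = 0 := h
  rw [ev_X0] at h1
  exact MvPolynomial.X_ne_zero (R := S.RY) (1 : Fin 2) h1

lemma phi_FXQ {L : Type} [CommRing L] (φ : Coord (Fin 5) 2 →+* L)
    (h : ∀ z ∈ (S.pB S.pp S.pY).I, φ z = 0) : S.F0v (cs φ) (xs φ 1) = 0 :=
  F0_of S φ 1 (h _ S.X4_mem_pp) (h _ (S.FX_mem _ 1))

lemma A_le : PP S (vA S) ≤ (S.pB S.pp S.pY).I := by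
  intro z hz
  have hm : ∀ w ∈ (S.pB S.pp S.pY).I, Ideal.Quotient.mk (S.pB S.pp S.pY).I w = 0 :=
    fun w hw => Ideal.Quotient.eq_zero_iff_mem.2 hw
  rw [← Ideal.Quotient.eq_zero_iff_mem]
  exact killA S _ (hm _ (S.X_mem_pp 1 (by decide))) (hm _ (S.X_mem_pp 2 (by decide)))
    (hm _ (S.X_mem_pp 4 (by decide))) (hm _ S.X4_mem_pp) (phi_FXQ S _ hm) hz

lemma regA {z : Coord (Fin 5) 2} (hz : z ∈ (S.pB S.pp S.pY).I) :
    ∃ s, s ∉ (S.pB S.pp S.pY).I ∧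
      s * z ∈ PP S (vA S) ⊔ Ideal.span {(MvPolynomial.X (0, 3) : Coord (Fin 5) 2)} := by
  set J := PP S (vA S) ⊔ Ideal.span {(MvPolynomial.X (0, 3) : Coord (Fin 5) 2)} with hJ
  apply exists_of_toLocMod_eq_zero (J := J)
  let φ : Coord (Fin 5) 2 →+* LocMod J (S.pB S.pp S.pY).I := toLocMod J (S.pB S.pp S.pY).I
  have hφ : ∀ w ∈ PP S (vA S), φ w = 0 := fun w hw =>
    toLocMod_eq_zero_of_mem (Ideal.mem_sup_left hw)
  have h3 : φ (MvPolynomial.X (0, 3)) = 0 :=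
    toLocMod_eq_zero_of_mem (Ideal.mem_sup_right (Ideal.mem_span_singleton_self _))
  have h4 : xs φ 1 4 = 0 := hφ _ (ev_X4 S _)
  exact S.kill_pY_box φ (hφ _ (X1_A S)) (hφ _ (X2_A S)) h3 (hφ _ (X4_A S)) h4
    (F0_of S φ 1 h4 (hφ _ (ev_FX1 S _))) hz

lemma codimA : CodimOne (PP S (vA S)) (S.pB S.pp S.pY).I :=
  codimOne_of (A_le S) (S.X_mem_pp 3 (by decide)) (X3_A S) (fun _ hz => regA S hz)

lemma ordA (n : ℕ) : ordAt (PP S (vA S)) (S.pB S.pp S.pY).I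
    (MvPolynomial.X (0, 3) ^ n) = n := by
  have hp : (S.pB S.pp S.pY).I.IsPrime := (S.pB S.pp S.pY).prime
  have h1 : (1 : Coord (Fin 5) 2) ∉ (S.pB S.pp S.pY).I := (Ideal.ne_top_iff_one _).1 hp.ne_top
  refine ordAt_eq (A_le S) (S.X_mem_pp 3 (by decide)) (X3_A S) (fun _ hz => regA S hz) h1 h1 ?_
  rw [sub_self]
  exact Ideal.zero_mem _

lemma leq1 (z : Coord (Fin 5) 2) (hz : z ∈ S.pU.I) :
    toLocMod (PP S (vA S) ⊔ Ideal.span {(MvPolynomial.X (0, 3) : Coord (Fin 5) 2) ^ (S.m + 3)})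
      (S.pB S.pp S.pY).I z = 0 := by
  set J := PP S (vA S) ⊔
    Ideal.span {(MvPolynomial.X (0, 3) : Coord (Fin 5) 2) ^ (S.m + 3)} with hJ
  let φ : Coord (Fin 5) 2 →+* LocMod J (S.pB S.pp S.pY).I := toLocMod J (S.pB S.pp S.pY).I
  have hφ : ∀ w ∈ PP S (vA S), φ w = 0 := fun w hw =>
    toLocMod_eq_zero_of_mem (Ideal.mem_sup_left hw)
  have h1 : xs φ 0 1 = 0 := hφ _ (X1_A S)
  have h2 : xs φ 0 2 = 0 := hφ _ (X2_A S)
  have h3 : φ (MvPolynomial.X (0, 3) ^ (S.m + 3)) = 0 :=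
    toLocMod_eq_zero_of_mem (Ideal.mem_sup_right (Ideal.mem_span_singleton_self _))
  have h4 : xs φ 1 4 = 0 := hφ _ (ev_X4 S _)
  refine S.kill_U φ (by rw [h1, h2, zero_mul, mul_zero]) (hφ _ (X4_A S)) h4 ?_
    (F0_of S φ 1 h4 (hφ _ (ev_FX1 S _))) hz
  rw [F0v, h1, h2, phv_zero_left, zero_pow (by omega), mul_zero, zero_mul, zero_add, add_zero]
  rw [map_pow] at h3
  exact h3

lemma leq34 {L : Type} [CommRing L] (φ : Coord (Fin 5) 2 →+* L) (hφ : ∀ w ∈ S.pU.I, φ w = 0)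
    (h1 : φ (MvPolynomial.X (0, 1)) = 0) (hy : IsUnit (φ (MvPolynomial.X (1, 1)))) :
    (∀ z ∈ PP S (vA S), φ z = 0) ∧ φ (MvPolynomial.X (0, 3) ^ (S.m + 3)) = 0 := by
  have h4 : xs φ 0 4 = 0 := hφ _ (S.X4_mem_pU 0)
  have h4' : xs φ 1 4 = 0 := hφ _ (S.X4_mem_pU 1)
  have h2 : φ (MvPolynomial.X (0, 2)) = 0 := by
    have h := hφ _ S.mn12_pU
    rw [mn, map_sub, map_mul, map_mul, h1, zero_mul, zero_sub, neg_eq_zero] at h
    exact hy.mul_right_eq_zero.1 h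
  refine ⟨fun z hz => killA S φ h1 h2 h4 h4' (F0_of S φ 1 h4' (hφ _ (S.FX_mem _ 1))) hz, ?_⟩
  have h := F0_of S φ 0 h4 (hφ _ (S.FX_mem _ 0))
  have h1' : xs φ 0 1 = 0 := h1
  have h2' : xs φ 0 2 = 0 := h2
  rw [F0v, h1', h2', phv_zero_left, zero_pow (by omega), mul_zero, zero_mul, zero_add,
    add_zero] at h
  rw [map_pow]
  exact h

/-! ### The lines through the vertex and the points of the surface -/

/-- the generic point of the line through the vertex and the generic point of the surface -/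
noncomputable def vB : Fin 5 → DD S := ![MvPolynomial.X 0, MvPolynomial.X 1 * C (S.ptY 1),
  MvPolynomial.X 1 * C (S.ptY 2), MvPolynomial.X 1 * C (S.ptY 3), 0]

instance : (PP S (vB S)).IsPrime := PP_prime S _

lemma killB {L : Type} [CommRing L] (φ : Coord (Fin 5) 2 →+* L) (w : L)
    (h1 : xs φ 0 1 = w * xs φ 1 1) (h2 : xs φ 0 2 = w * xs φ 1 2) (h3 : xs φ 0 3 = w * xs φ 1 3)
    (h4 : xs φ 0 4 = 0) (h4' : xs φ 1 4 = 0)
    (hF : S.F0v (cs φ) (xs φ 1) = 0) {z : Coord (Fin 5) 2} (hz : z ∈ PP S (vB S)) :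
    φ z = 0 := by
  refine kill S _ φ h4' hF ![xs φ 0 0, w] (fun γ hγ j => ?_) hz
  have key : ∀ i, eval₂Hom γ ![xs φ 0 0, w] (MvPolynomial.X 1 * C (S.ptY i)) = w * xs φ 1 i := by
    intro i
    rw [map_mul, eval₂Hom_X', eval₂Hom_C, hγ]
    rfl
  fin_cases j
  · exact (eval₂Hom_X' _ _ _ : eval₂Hom γ ![xs φ 0 0, w] (MvPolynomial.X 0) = _)
  · exact (key 1).trans h1.symm
  · exact (key 2).trans h2.symm
  · exact (key 3).trans h3.symm
  · exact (map_zero _).trans h4.symm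

lemma X4_B : (MvPolynomial.X (0, 4) : Coord (Fin 5) 2) ∈ PP S (vB S) := ev_X0 S _ 4

lemma X1_B : (MvPolynomial.X (0, 1) : Coord (Fin 5) 2) ∉ PP S (vB S) := by
  intro h
  have h1 : ev S (vB S) (MvPolynomial.X (0, 1)) = 0 := h
  rw [ev_X0] at h1
  have h2 : MvPolynomial.X 1 * C (S.ptY 1) = (0 : DD S) := h1
  rcases mul_eq_zero.1 h2 with h3 | h3
  · exact MvPolynomial.X_ne_zero (R := S.RY) (1 : Fin 2) h3
  · rw [C_eq_zero] at h3
    exact S.ptY_ne h3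

lemma mn_B {i j : Fin 5} (hi : i = 1 ∨ i = 2 ∨ i = 3) (hj : j = 1 ∨ j = 2 ∨ j = 3) :
    mn i j ∈ PP S (vB S) := by
  have hv : ∀ i : Fin 5, (i = 1 ∨ i = 2 ∨ i = 3) → vB S i = MvPolynomial.X 1 * C (S.ptY i) := by
    rintro i (rfl | rfl | rfl)
    · rfl
    · rfl
    · rfl
  rw [mem_PP, mn, map_sub, map_mul, map_mul, ev_X0, ev_X0, ev_X1, ev_X1, hv i hi, hv j hj]
  ring

lemma B_le : PP S (vB S) ≤ (S.pB S.pp S.pY).I := by
  intro z hz
  have hm : ∀ w ∈ (S.pB S.pp S.pY).I, Ideal.Quotient.mk (S.pB S.pp S.pY).I w = 0 :=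
    fun w hw => Ideal.Quotient.eq_zero_iff_mem.2 hw
  rw [← Ideal.Quotient.eq_zero_iff_mem]
  exact killB S _ 0 ((hm _ (S.X_mem_pp 1 (by decide))).trans (zero_mul _).symm)
    ((hm _ (S.X_mem_pp 2 (by decide))).trans (zero_mul _).symm)
    ((hm _ (S.X_mem_pp 3 (by decide))).trans (zero_mul _).symm)
    (hm _ (S.X_mem_pp 4 (by decide))) (hm _ S.X4_mem_pp) (phi_FXQ S _ hm) hz

lemma regB {z : Coord (Fin 5) 2} (hz : z ∈ (S.pB S.pp S.pY).I) :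
    ∃ s, s ∉ (S.pB S.pp S.pY).I ∧
      s * z ∈ PP S (vB S) ⊔ Ideal.span {(MvPolynomial.X (0, 1) : Coord (Fin 5) 2)} := by
  set J := PP S (vB S) ⊔ Ideal.span {(MvPolynomial.X (0, 1) : Coord (Fin 5) 2)} with hJ
  apply exists_of_toLocMod_eq_zero (J := J)
  let φ : Coord (Fin 5) 2 →+* LocMod J (S.pB S.pp S.pY).I := toLocMod J (S.pB S.pp S.pY).I
  have hφ : ∀ w ∈ PP S (vB S), φ w = 0 := fun w hw =>
    toLocMod_eq_zero_of_mem (Ideal.mem_sup_left hw)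
  have h1 : φ (MvPolynomial.X (0, 1)) = 0 :=
    toLocMod_eq_zero_of_mem (Ideal.mem_sup_right (Ideal.mem_span_singleton_self _))
  have hy1 : IsUnit (φ (MvPolynomial.X (1, 1))) := isUnit_toLocMod (S.X1_pp 1 (by decide))
  have h4 : xs φ 1 4 = 0 := hφ _ (ev_X4 S _)
  have hj : ∀ j : Fin 5, (j = 1 ∨ j = 2 ∨ j = 3) → φ (MvPolynomial.X (0, j)) = 0 := by
    intro j hj
    have h := hφ _ (mn_B S (Or.inl rfl) hj)
    rw [mn, map_sub, map_mul, map_mul, h1, zero_mul, zero_sub, neg_eq_zero] at h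
    exact hy1.mul_right_eq_zero.1 h
  exact S.kill_pY_box φ h1 (hj 2 (by decide)) (hj 3 (by decide)) (hφ _ (X4_B S)) h4
    (F0_of S φ 1 h4 (hφ _ (ev_FX1 S _))) hz

lemma ordB (n : ℕ) : ordAt (PP S (vB S)) (S.pB S.pp S.pY).I
    (MvPolynomial.X (0, 1) ^ n) = n := by
  have hp : (S.pB S.pp S.pY).I.IsPrime := (S.pB S.pp S.pY).prime
  have h1 : (1 : Coord (Fin 5) 2) ∉ (S.pB S.pp S.pY).I := (Ideal.ne_top_iff_one _).1 hp.ne_top
  refine ordAt_eq (B_le S) (S.X_mem_pp 1 (by decide)) (X1_B S) (fun _ hz => regB S hz) h1 h1 ?_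
  rw [sub_self]
  exact Ideal.zero_mem _

/-- the equation on a line through the vertex and a point of the surface -/
lemma F0_line {L : Type} [CommRing L] (c : ℂ →+* L) (x y : Fin 5 → L) (w : L)
    (h1 : x 1 = w * y 1) (h2 : x 2 = w * y 2) (h3 : x 3 = w * y 3) (hF : S.F0v c y = 0) :
    S.F0v c x = (x 0 - w * y 0) * x 1 ^ (S.m + 2) := by
  rw [F0v, h2, h3, phv_smul, h1, gv_smul]
  rw [F0v] at hF
  have e : w ^ (S.m + 3) = w * w ^ (S.m + 2) := by ring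
  rw [e, mul_pow]
  linear_combination (w * w ^ (S.m + 2)) * hF

lemma exists_w {L : Type} [CommRing L] (φ : Coord (Fin 5) 2 →+* L)
    (hy : IsUnit (φ (MvPolynomial.X (1, 1)))) (h2 : φ (mn 1 2) = 0) (h3 : φ (mn 3 1) = 0) :
    ∃ w : L, xs φ 0 1 = w * xs φ 1 1 ∧ xs φ 0 2 = w * xs φ 1 2 ∧ xs φ 0 3 = w * xs φ 1 3 := by
  obtain ⟨u, hu⟩ := hy
  have hu' : (↑u⁻¹ : L) * xs φ 1 1 = 1 := by
    have h : xs φ 1 1 = u := hu.symm
    rw [h, Units.inv_mul]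
  rw [mn, map_sub, map_mul, map_mul] at h2 h3
  have h2' : xs φ 0 1 * xs φ 1 2 - xs φ 1 1 * xs φ 0 2 = 0 := h2
  have h3' : xs φ 0 3 * xs φ 1 1 - xs φ 1 3 * xs φ 0 1 = 0 := h3
  refine ⟨(↑u⁻¹ : L) * xs φ 0 1, ?_, ?_, ?_⟩
  · linear_combination (-xs φ 0 1) * hu'
  · linear_combination (-xs φ 0 2) * hu' - (↑u⁻¹ : L) * h2'
  · linear_combination (-xs φ 0 3) * hu' + (↑u⁻¹ : L) * h3'

lemma leq1B (z : Coord (Fin 5) 2) (hz : z ∈ S.pU.I) :
    toLocMod (PP S (vB S) ⊔ Ideal.span {(MvPolynomial.X (0, 1) : Coord (Fin 5) 2) ^ (S.m + 2)})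
      (S.pB S.pp S.pY).I z = 0 := by
  set J := PP S (vB S) ⊔
    Ideal.span {(MvPolynomial.X (0, 1) : Coord (Fin 5) 2) ^ (S.m + 2)} with hJ
  let φ : Coord (Fin 5) 2 →+* LocMod J (S.pB S.pp S.pY).I := toLocMod J (S.pB S.pp S.pY).I
  have hφ : ∀ w ∈ PP S (vB S), φ w = 0 := fun w hw =>
    toLocMod_eq_zero_of_mem (Ideal.mem_sup_left hw)
  have h1 : φ (MvPolynomial.X (0, 1) ^ (S.m + 2)) = 0 :=
    toLocMod_eq_zero_of_mem (Ideal.mem_sup_right (Ideal.mem_span_singleton_self _))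
  have hy1 : IsUnit (φ (MvPolynomial.X (1, 1))) := isUnit_toLocMod (S.X1_pp 1 (by decide))
  have h4 : xs φ 1 4 = 0 := hφ _ (ev_X4 S _)
  have h12 := hφ _ (mn_B S (i := 1) (j := 2) (by decide) (by decide))
  have hF := F0_of S φ 1 h4 (hφ _ (ev_FX1 S _))
  obtain ⟨w, e1, e2, e3⟩ := exists_w φ hy1 h12
    (hφ _ (mn_B S (i := 3) (j := 1) (by decide) (by decide)))
  refine S.kill_U φ ?_ (hφ _ (X4_B S)) h4 ?_ hF hz
  · rw [mn, map_sub, map_mul, map_mul] at h12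
    exact sub_eq_zero.1 h12
  · rw [F0_line S (cs φ) _ _ w e1 e2 e3 hF]
    rw [map_pow] at h1
    have h1' : xs φ 0 1 ^ (S.m + 2) = 0 := h1
    rw [h1', mul_zero]

lemma leq34B {L : Type} [CommRing L] (φ : Coord (Fin 5) 2 →+* L) (hφ : ∀ w ∈ S.pU.I, φ w = 0)
    (h1 : φ (mn 3 1) = 0) (hy : IsUnit (φ (MvPolynomial.X (1, 1)))) (hN : IsUnit (φ (NN 1))) :
    (∀ z ∈ PP S (vB S), φ z = 0) ∧ φ (MvPolynomial.X (0, 1) ^ (S.m + 2)) = 0 := by
  have h4 : xs φ 0 4 = 0 := hφ _ (S.X4_mem_pU 0)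
  have h4' : xs φ 1 4 = 0 := hφ _ (S.X4_mem_pU 1)
  have hF := F0_of S φ 1 h4' (hφ _ (S.FX_mem _ 1))
  obtain ⟨w, e1, e2, e3⟩ := exists_w φ hy (hφ _ S.mn12_pU) h1
  refine ⟨fun z hz => killB S φ w e1 e2 e3 h4 h4' hF hz, ?_⟩
  have h := F0_of S φ 0 h4 (hφ _ (S.FX_mem _ 0))
  rw [F0_line S (cs φ) _ _ w e1 e2 e3 hF] at h
  have e : φ (NN 1) = xs φ 1 1 * (xs φ 0 0 - w * xs φ 1 0) := by
    rw [NN, map_sub, map_mul, map_mul]
    have h5 : xs φ 0 0 * xs φ 1 1 - xs φ 1 0 * xs φ 0 1 =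
      xs φ 1 1 * (xs φ 0 0 - w * xs φ 1 0) := by
      rw [e1]
      ring
    exact h5
  rw [e] at hN
  rw [map_pow]
  exact (isUnit_of_mul_isUnit_right hN).mul_right_eq_zero.1 h

/-! ### The result -/

lemma U_le : S.pU.I ≤ (S.pB S.pp S.pY).I := by
  intro z hz
  have hm : ∀ w ∈ (S.pB S.pp S.pY).I, Ideal.Quotient.mk (S.pB S.pp S.pY).I w = 0 :=
    fun w hw => Ideal.Quotient.eq_zero_iff_mem.2 hw
  rw [← Ideal.Quotient.eq_zero_iff_mem]
  have h1 : xs (Ideal.Quotient.mk (S.pB S.pp S.pY).I) 0 1 = 0 := hm _ (S.X_mem_pp 1 (by decide))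
  have h2 : xs (Ideal.Quotient.mk (S.pB S.pp S.pY).I) 0 2 = 0 := hm _ (S.X_mem_pp 2 (by decide))
  have h3 : xs (Ideal.Quotient.mk (S.pB S.pp S.pY).I) 0 3 = 0 := hm _ (S.X_mem_pp 3 (by decide))
  refine S.kill_U _ (by rw [h1, h2, zero_mul, mul_zero]) (hm _ (S.X_mem_pp 4 (by decide)))
    (hm _ S.X4_mem_pp) ?_ (phi_FXQ S _ hm) hz
  rw [F0v, h1, h2, h3, phv_zero_left, zero_pow (by omega), zero_pow (by omega), mul_zero,
    zero_mul, zero_add, add_zero]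

theorem main : CodimOne S.pU.I (S.pB S.pp S.pY).I ∧
    ordAt S.pU.I (S.pB S.pp S.pY).I (mn 3 1) = (S.m + 2 : ℕ) ∧
    ordAt S.pU.I (S.pB S.pp S.pY).I (MvPolynomial.X (0, 1)) = (S.m + 3 : ℕ) := by
  have hA := leq34 S (toLocMod (S.pU.I ⊔ Ideal.span {(MvPolynomial.X (0, 1) : Coord (Fin 5) 2)})
    (S.pB S.pp S.pY).I) (fun w hw => toLocMod_eq_zero_of_mem (Ideal.mem_sup_left hw))
    (toLocMod_eq_zero_of_mem (Ideal.mem_sup_right (Ideal.mem_span_singleton_self _)))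
    (isUnit_toLocMod (S.X1_pp 1 (by decide)))
  have hB := leq34B S (toLocMod (S.pU.I ⊔ Ideal.span {mn 3 1})
    (S.pB S.pp S.pY).I) (fun w hw => toLocMod_eq_zero_of_mem (Ideal.mem_sup_left hw))
    (toLocMod_eq_zero_of_mem (Ideal.mem_sup_right (Ideal.mem_span_singleton_self _)))
    (isUnit_toLocMod (S.X1_pp 1 (by decide))) (isUnit_toLocMod S.NN1_pp)
  refine ⟨?_, ?_, ?_⟩
  · refine leq_codim (P' := PP S (vA S)) (f := MvPolynomial.X (0, 3) ^ (S.m + 3)) (U_le S)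
      (S.X_mem_pp 1 (by decide)) (S.X_pU 0 1 (by decide)) ?_ (leq1 S) ?_ hA.1 hA.2 (codimA S)
    · intro h
      exact X3_A S ((PP_prime S _).mem_of_pow_mem _ h)
    · exact toLocMod_eq_zero_of_mem (Ideal.mem_sup_left (X1_A S))
  · rw [leq_ord (P' := PP S (vB S)) (f := MvPolynomial.X (0, 1) ^ (S.m + 2)) (leq1B S) ?_ hB.1 hB.2]
    · exact ordB S _
    · exact toLocMod_eq_zero_of_mem (Ideal.mem_sup_left
        (mn_B S (i := 3) (j := 1) (by decide) (by decide)))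
  · rw [leq_ord (P' := PP S (vA S)) (f := MvPolynomial.X (0, 3) ^ (S.m + 3)) (leq1 S) ?_ hA.1 hA.2]
    · exact ordA S _
    · exact toLocMod_eq_zero_of_mem (Ideal.mem_sup_left (X1_A S))

end Oup

variable (S : LnData)

lemma oup : CodimOne S.pU.I (S.pB S.pp S.pY).I ∧
    ordAt S.pU.I (S.pB S.pp S.pY).I (mn 3 1) = (S.m + 2 : ℕ) ∧
    ordAt S.pU.I (S.pB S.pp S.pY).I (MvPolynomial.X (0, 1)) = (S.m + 3 : ℕ) := Oup.main S

end LnData

end Pool.Agent.RCH
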