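import Pool.Agent.RCH.LnPts

/-!
# The exchange of the two factors, members of products, evaluation at pairs
-/

set_option autoImplicit false

open MvPolynomial

namespace Pool.Agent.RCH

namespace LnData

variable (S : LnData)

/-- the exchange of the two factors -/
noncomputable def sw : Coord (Fin 5) 2 ≃+* Coord (Fin 5) 2 :=
  (renameEquiv ℂ (Equiv.prodCongr (Equiv.swap (0 : Fin 2) 1) (Equiv.refl (Fin 5)))).toRingEquiv

lemma sw_X0 (j : Fin 5) : sw (MvPolynomial.X (0, j)) = MvPolynomial.X (1, j) := by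
  show rename _ (MvPolynomial.X (0, j)) = _
  rw [rename_X]
  simp

lemma sw_X1 (j : Fin 5) : sw (MvPolynomial.X (1, j)) = MvPolynomial.X (0, j) := by
  show rename _ (MvPolynomial.X (1, j)) = _
  rw [rename_X]
  simp

lemma sw_C (a : ℂ) : sw (C a) = C a := by
  show rename _ (C a) = _
  rw [rename_C]

lemma sw_sw (z : Coord (Fin 5) 2) : sw (sw z) = z := by
  have h : (sw : Coord (Fin 5) 2 →+* Coord (Fin 5) 2).comp (sw : Coord (Fin 5) 2 →+* _) =
      RingHom.id _ := by
    apply MvPolynomial.ringHom_ext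
    · intro a
      simp [sw_C]
    · rintro ⟨i, j⟩
      fin_cases i
      · simp [sw_X0, sw_X1]
      · simp [sw_X0, sw_X1]
  exact congrArg (fun ψ => ψ z) h

lemma sw_mn (i j : Fin 5) : sw (mn i j) = - mn i j := by
  rw [mn, map_sub, map_mul, map_mul, sw_X0, sw_X0, sw_X1, sw_X1]
  ring

lemma sw_NN (j : Fin 5) : sw (NN j) = - NN j := sw_mn 0 j

section

variable {L : Type} [CommRing L] (φ : Coord (Fin 5) 2 →+* L)

lemma xs_sw0 : xs (φ.comp (sw : Coord (Fin 5) 2 →+* _)) 0 = xs φ 1 := by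
  funext j
  show φ (sw _) = _
  rw [sw_X0]
  rfl

lemma xs_sw1 : xs (φ.comp (sw : Coord (Fin 5) 2 →+* _)) 1 = xs φ 0 := by
  funext j
  show φ (sw _) = _
  rw [sw_X1]
  rfl

lemma cs_sw : cs (φ.comp (sw : Coord (Fin 5) 2 →+* _)) = cs φ := by
  refine RingHom.ext fun a => ?_
  show φ (sw _) = _
  rw [sw_C]
  rfl

end

lemma prH_zero_mem (A B : Pt S.V 1) {z : Coord (Fin 5) 1} (hz : z ∈ A.I) :
    prH 0 z ∈ (S.pB A B).I := by
  rw [pB_I]
  exact Ideal.mem_iSup_of_mem (0 : Fin 2) (Ideal.mem_map_of_mem _ hz)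

lemma prH_one_mem (A B : Pt S.V 1) {z : Coord (Fin 5) 1} (hz : z ∈ B.I) :
    prH 1 z ∈ (S.pB A B).I := by
  rw [pB_I]
  exact Ideal.mem_iSup_of_mem (1 : Fin 2) (Ideal.mem_map_of_mem _ hz)

lemma X0_mem_pB (A B : Pt S.V 1) {j : Fin 5}
    (h : (MvPolynomial.X (0, j) : Coord (Fin 5) 1) ∈ A.I) :
    (MvPolynomial.X (0, j) : Coord (Fin 5) 2) ∈ (S.pB A B).I := by
  rw [← prH_X]
  exact S.prH_zero_mem A B h

lemma X1_mem_pB (A B : Pt S.V 1) {j : Fin 5}
    (h : (MvPolynomial.X (0, j) : Coord (Fin 5) 1) ∈ B.I) :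
    (MvPolynomial.X (1, j) : Coord (Fin 5) 2) ∈ (S.pB A B).I := by
  rw [← prH_X]
  exact S.prH_one_mem A B h

/-- the exchange of the factors and products -/
lemma sw_mem_pB (A B : Pt S.V 1) {z : Coord (Fin 5) 2} (hz : z ∈ (S.pB A B).I) :
    sw z ∈ (S.pB B A).I := by
  rw [← Ideal.Quotient.eq_zero_iff_mem]
  refine S.kill_pB ((Ideal.Quotient.mk (S.pB B A).I).comp (sw : Coord (Fin 5) 2 →+* _)) A B
    ?_ ?_ hz
  · intro x hx
    have h : sw (prH 0 x) = prH 1 x := by
      have h1 : (sw : Coord (Fin 5) 2 →+* Coord (Fin 5) 2).comp (prH 0) = prH 1 := by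
        apply MvPolynomial.ringHom_ext
        · intro a
          simp [prH, sw_C]
        · rintro ⟨i, j⟩
          have : i = 0 := Subsingleton.elim _ _
          subst this
          rw [RingHom.comp_apply, prH_X, prH_X]
          exact sw_X0 j
      exact congrArg (fun ψ => ψ x) h1
    show Ideal.Quotient.mk _ (sw (prH 0 x)) = 0
    rw [h, Ideal.Quotient.eq_zero_iff_mem]
    exact S.prH_one_mem B A hx
  · intro x hx
    have h : sw (prH 1 x) = prH 0 x := by
      have h1 : (sw : Coord (Fin 5) 2 →+* Coord (Fin 5) 2).comp (prH 1) = prH 0 := by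
        apply MvPolynomial.ringHom_ext
        · intro a
          simp [prH, sw_C]
        · rintro ⟨i, j⟩
          have : i = 0 := Subsingleton.elim _ _
          subst this
          rw [RingHom.comp_apply, prH_X, prH_X]
          exact sw_X1 j
      exact congrArg (fun ψ => ψ x) h1
    show Ideal.Quotient.mk _ (sw (prH 1 x)) = 0
    rw [h, Ideal.Quotient.eq_zero_iff_mem]
    exact S.prH_zero_mem B A hx

lemma sw_mem_pB_iff (A B : Pt S.V 1) {z : Coord (Fin 5) 2} :
    sw z ∈ (S.pB B A).I ↔ z ∈ (S.pB A B).I := by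
  refine ⟨fun h => ?_, S.sw_mem_pB A B⟩
  have := S.sw_mem_pB B A h
  rwa [sw_sw] at this

/-- evaluation at a pair of points -/
noncomputable def evP {D : Type} [CommRing D] [Algebra ℂ D] (e f : Fin 5 → D) :
    Coord (Fin 5) 2 →+* D := eval₂Hom (algebraMap ℂ D) (pair e f)

lemma cs_evP {D : Type} [CommRing D] [Algebra ℂ D] (e f : Fin 5 → D) :
    cs (evP e f) = algebraMap ℂ D := by
  refine RingHom.ext fun a => ?_
  simp [cs, evP]

lemma xs_evP_zero {D : Type} [CommRing D] [Algebra ℂ D] (e f : Fin 5 → D) :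
    xs (evP e f) 0 = e := by
  funext j
  simp [xs, evP]

lemma xs_evP_one {D : Type} [CommRing D] [Algebra ℂ D] (e f : Fin 5 → D) :
    xs (evP e f) 1 = f := by
  funext j
  simp [xs, evP]

/-- the two kinds of members of the ideals of the surface -/
lemma pY_X4 : (MvPolynomial.X (0, 4) : Coord (Fin 5) 1) ∈ S.pY.I :=
  (X_mem_genIdeal S.V _ (0, 4)).2 rfl

/-- the value of the equation of the surface in a quotient by the ideal of a point on `x_4 = 0` -/
lemma F0v_eq_zero_of {L : Type} [CommRing L] {N : ℕ} (φ : Coord (Fin 5) N →+* L) (i : Fin N)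
    (Q : Pt S.V N) (h : ∀ z ∈ Q.I, φ z = 0)
    (h4 : xs φ i 4 = 0) : S.F0v (cs φ) (xs φ i) = 0 := by
  have h1 := h _ (S.FX_mem Q i)
  rw [map_FX, Fv, h4, zero_mul, add_zero] at h1
  exact h1

end LnData

end Pool.Agent.RCH
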