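import Pool.Agent.RCH.LnOVP
import Pool.Agent.RCH.LnOUP
import Pool.Agent.RCH.LnSw

/-!
# The exchange of the two factors
-/

set_option autoImplicit false

open MvPolynomial

namespace Pool.Agent.RCH

attribute [local instance] Pt.prime

namespace LnData

variable (S : LnData)

lemma sw_mem_iff_of {I J : Ideal (Coord (Fin 5) 2)} (h1 : ∀ z ∈ I, sw z ∈ J)
    (h2 : ∀ z ∈ J, sw z ∈ I) (z : Coord (Fin 5) 2) : sw z ∈ J ↔ z ∈ I := by
  constructor
  · intro h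
    have h3 := h2 _ h
    rwa [sw_sw] at h3
  · exact h1 z

/-! ### The fibre square of the pencil -/

lemma map_sfCd {D D' : Type} [CommRing D] [Algebra ℂ D] [CommRing D'] [Algebra ℂ D']
    (f : D →ₐ[ℂ] D') (s u z : D) (j : Fin 5) :
    f (S.sfCd s u z j) = S.sfCd (f s) (f u) (f z) j := by
  have hc : (f : D →+* D').comp (algebraMap ℂ D) = algebraMap ℂ D' := f.comp_algebraMap
  fin_cases j
  · have h1 := S.map_phv (algebraMap ℂ D) (f : D →+* D') u z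
    have h2 := S.map_gv (algebraMap ℂ D) (f : D →+* D') s u z
    rw [hc] at h1 h2
    show f (-(S.phv (algebraMap ℂ D) u z + s * S.gv (algebraMap ℂ D) s u z)) =
      -(S.phv (algebraMap ℂ D') (f u) (f z) + f s * S.gv (algebraMap ℂ D') (f s) (f u) (f z))
    have h1' : f (S.phv (algebraMap ℂ D) u z) = S.phv (algebraMap ℂ D') (f u) (f z) := h1
    have h2' : f (S.gv (algebraMap ℂ D) s u z) = S.gv (algebraMap ℂ D') (f s) (f u) (f z) := h2
    rw [map_neg, map_add, map_mul, h1', h2']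
  · exact map_pow f s _
  · show f (s ^ (S.m + 2) * u) = f s ^ (S.m + 2) * f u
    rw [map_mul, map_pow]
  · show f (s ^ (S.m + 2) * z) = f s ^ (S.m + 2) * f z
    rw [map_mul, map_pow]
  · exact map_zero f

/-- the exchange of the last two variables -/
noncomputable def swK : K4 →ₐ[ℂ] K4 :=
  aeval ![MvPolynomial.X 0, MvPolynomial.X 1, MvPolynomial.X 3, MvPolynomial.X 2]

lemma swK_ptU0 (j : Fin 5) : swK (S.ptU (0, j)) = S.ptU (1, j) := by
  have h0 : swK (MvPolynomial.X 0) = MvPolynomial.X 0 := by rw [swK, aeval_X]; rfl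
  have h1 : swK (MvPolynomial.X 1) = MvPolynomial.X 1 := by rw [swK, aeval_X]; rfl
  have h2 : swK (MvPolynomial.X 2) = MvPolynomial.X 3 := by rw [swK, aeval_X]; rfl
  rw [ptU, pair_zero, pair_one, map_sfCd, h0, h1, h2]

lemma swK_ptU1 (j : Fin 5) : swK (S.ptU (1, j)) = S.ptU (0, j) := by
  have h0 : swK (MvPolynomial.X 0) = MvPolynomial.X 0 := by rw [swK, aeval_X]; rfl
  have h1 : swK (MvPolynomial.X 1) = MvPolynomial.X 1 := by rw [swK, aeval_X]; rfl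
  have h2 : swK (MvPolynomial.X 3) = MvPolynomial.X 2 := by rw [swK, aeval_X]; rfl
  rw [ptU, pair_zero, pair_one, map_sfCd, h0, h1, h2]

/-- an exchange of the two points of a pair given by an endomorphism of the ring -/
lemma sw_mem_genIdeal {D : Type} [CommRing D] [Algebra ℂ D] (d : Fin 2 × Fin 5 → D)
    (σ : D →+* D) (hC : ∀ a : ℂ, σ (algebraMap ℂ D a) = algebraMap ℂ D a)
    (h0 : ∀ j, σ (d (0, j)) = d (1, j)) (h1 : ∀ j, σ (d (1, j)) = d (0, j))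
    (z : Coord (Fin 5) 2) (hz : z ∈ genIdeal S.V d) : sw z ∈ genIdeal S.V d := by
  show genHom S.V d (sw z) = 0
  refine genIdeal_lift S.V d
    ((genHom S.V d : Coord (Fin 5) 2 →+* MvPolynomial (Fin 2) D).comp
      (sw : Coord (Fin 5) 2 →+* Coord (Fin 5) 2))
    ((C : D →+* MvPolynomial (Fin 2) D).comp σ) ![MvPolynomial.X 1, MvPolynomial.X 0] ?_ ?_ hz
  · intro a
    rw [RingHom.comp_apply, RingHom.comp_apply, hC]
    show genHom S.V d (sw (C a)) = _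
    rw [sw_C]
    exact (genHom S.V d).commutes a
  · rintro ⟨i, j⟩
    rw [RingHom.comp_apply, RingHom.comp_apply, wt_V]
    show genHom S.V d (sw (MvPolynomial.X (i, j))) = _
    fin_cases i
    · show genHom S.V d (sw (MvPolynomial.X (0, j))) =
        C (σ (d (0, j))) * MvPolynomial.X 1 ^ 1
      rw [sw_X0, h0, genHom, aeval_X, wt_V]
    · show genHom S.V d (sw (MvPolynomial.X (1, j))) =
        C (σ (d (1, j))) * MvPolynomial.X 0 ^ 1
      rw [sw_X1, h1, genHom, aeval_X, wt_V]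

lemma sw_mem_pU_of (z : Coord (Fin 5) 2) (hz : z ∈ S.pU.I) : sw z ∈ S.pU.I :=
  S.sw_mem_genIdeal S.ptU (swK : K4 →+* K4) (fun a => swK.commutes a) S.swK_ptU0 S.swK_ptU1 z hz

lemma sw_mem_pU (z : Coord (Fin 5) 2) : sw z ∈ S.pU.I ↔ z ∈ S.pU.I :=
  sw_mem_iff_of S.sw_mem_pU_of S.sw_mem_pU_of z

/-! ### The fibre square of the projection from the vertex -/

lemma root_ne : S.ptV0 0 ≠ S.ptV1 0 := by
  intro h
  refine S.NN_pV 4 (by decide) ?_
  show genHom S.V S.ptV (NN 4) = 0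
  have h2 : ∀ v : Fin 2 × Fin 5, genHom S.V S.ptV (MvPolynomial.X v) =
      C (S.ptV v) * MvPolynomial.X v.1 := by
    intro v
    rw [genHom, aeval_X, wt_V, pow_one]
  rw [NN, map_sub, map_mul, map_mul, h2, h2, h2, h2]
  have e0 : S.ptV (0, 0) = S.ptV0 0 := rfl
  have e1 : S.ptV (1, 0) = S.ptV1 0 := rfl
  have e2 : S.ptV (1, 4) = S.ptV0 4 := rfl
  have e3 : S.ptV (0, 4) = S.ptV0 4 := rfl
  rw [e0, e1, e2, e3, h]
  ring

lemma exists_swV : ∃ σ : S.RV →+* S.RV, (∀ a : ℂ, σ (algebraMap ℂ S.RV a) = algebraMap ℂ S.RV a) ∧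
    (∀ j, σ (S.ptV0 j) = S.ptV1 j) ∧ ∀ j, σ (S.ptV1 j) = S.ptV0 j := by
  have e4 : S.ptV1 4 = S.ptV0 4 := rfl
  have hrep : repl S.ptV1 (S.ptV0 0) = S.ptV0 := by
    funext j
    fin_cases j <;> rfl
  obtain ⟨σ, h1, h2, h3⟩ := S.exists_liftV (algebraMap ℂ S.RV) S.ptV1
    (by rw [e4]; exact S.isUnit_ptV0_4) S.Fv_ptV1 (S.ptV0 0)
    (S.eval_Gp_of_ne _ _ S.Fv_ptV1 (by rw [hrep]; exact S.Fv_ptV0) S.root_ne)
  refine ⟨σ, h1, h2, fun j => ?_⟩
  rw [h3, hrep]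

lemma sw_mem_pV_of (z : Coord (Fin 5) 2) (hz : z ∈ S.pV.I) : sw z ∈ S.pV.I := by
  obtain ⟨σ, h1, h2, h3⟩ := S.exists_swV
  exact S.sw_mem_genIdeal S.ptV σ h1 h2 h3 z hz

lemma sw_mem_pV (z : Coord (Fin 5) 2) : sw z ∈ S.pV.I ↔ z ∈ S.pV.I :=
  sw_mem_iff_of S.sw_mem_pV_of S.sw_mem_pV_of z

lemma ordAt_neg' {R : Type} [CommRing R] (P Q : Ideal R) [Q.IsPrime] (g : R) :
    ordAt P Q (-g) = ordAt P Q g := by
  have h : (-1 : R) ∉ Q := by
    intro h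
    have h2 := Q.neg_mem h
    rw [neg_neg] at h2
    exact (inferInstance : Q.IsPrime).ne_top ((Ideal.eq_top_iff_one Q).2 h2)
  rw [← ordAt_unit_mul h g, neg_one_mul]

lemma ovp' : CodimOne S.pV.I (S.pB S.pY S.pp).I ∧
    ordAt S.pV.I (S.pB S.pY S.pp).I (NN 4) = (S.m + 1 : ℕ) ∧
    ordAt S.pV.I (S.pB S.pY S.pp).I (MvPolynomial.X (0, 4)) = (S.m + 1 : ℕ) ∧
    ordAt S.pV.I (S.pB S.pY S.pp).I (MvPolynomial.X (1, 4)) = (S.m + 2 : ℕ) := by
  obtain ⟨h1, h2, h3, h4⟩ := S.ovp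
  have hQ := fun z => S.sw_mem_pB_iff S.pp S.pY (z := z)
  refine ⟨codimOne_equiv sw S.sw_mem_pV hQ h1, ?_, ?_, ?_⟩
  · rw [← ordAt_neg', ← sw_NN, ← ordAt_equiv sw S.sw_mem_pV hQ]
    exact h2
  · rw [← sw_X1, ← ordAt_equiv sw S.sw_mem_pV hQ]
    exact h4
  · rw [← sw_X0, ← ordAt_equiv sw S.sw_mem_pV hQ]
    exact h3

lemma oup' : CodimOne S.pU.I (S.pB S.pY S.pp).I ∧
    ordAt S.pU.I (S.pB S.pY S.pp).I (mn 3 1) = (S.m + 2 : ℕ) ∧
    ordAt S.pU.I (S.pB S.pY S.pp).I (MvPolynomial.X (1, 1)) = (S.m + 3 : ℕ) := by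
  obtain ⟨h1, h2, h3⟩ := S.oup
  have hQ := fun z => S.sw_mem_pB_iff S.pp S.pY (z := z)
  refine ⟨codimOne_equiv sw S.sw_mem_pU hQ h1, ?_, ?_⟩
  · rw [← ordAt_neg', ← sw_mn, ← ordAt_equiv sw S.sw_mem_pU hQ]
    exact h2
  · rw [← sw_X0, ← ordAt_equiv sw S.sw_mem_pU hQ]
    exact h3

end LnData

end Pool.Agent.RCH
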