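import Pool.Agent.RCH.LnCLV
import Pool.Agent.RCH.LnDL
import Pool.Agent.RCH.LnOVL
import Pool.Agent.RCH.LnSym

/-!
# The relation from the fibre square of the projection and the diagonal
-/

set_option autoImplicit false

open MvPolynomial

namespace Pool.Agent.RCH

attribute [local instance] Pt.prime

lemma ordAt_pow {R : Type} [CommRing R] {P Q : Ideal R} [P.IsPrime] [Q.IsPrime] (h : P ≤ Q) {g : R}
    (hg : g ∉ P) (n : ℕ) : ordAt P Q (g ^ n) = n * ordAt P Q g := by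
  induction n with
  | zero =>
    rw [pow_zero, Nat.cast_zero, zero_mul]
    exact ordAt_eq_zero fun h1 => (Ideal.ne_top_iff_one Q).1 (Ideal.IsPrime.ne_top inferInstance) h1
  | succ n ih =>
    rw [pow_succ, ordAt_mul h _ hg, ih]
    push_cast
    ring

lemma eq_of_codimOne {ι : Type} (X : WVar ι) {N : ℕ} {P A Q : Pt X N} (hA : CodimOne P.I A.I)
    (hQ : CodimOne P.I Q.I) (h : A.I ≤ Q.I) : Q = A := by
  rcases h.lt_or_eq with h1 | h1
  · exact absurd (hQ.2 A.I A.prime hA.1.le h1) hA.1.ne'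
  · exact (Pt.ext' X h1).symm

namespace LnData

variable (S : LnData)

lemma X_hom (i : Fin 2) (j : Fin 5) :
    IsWeightedHomogeneous (S.V.mdeg 2) (MvPolynomial.X (i, j) : Coord (Fin 5) 2)
      (Pi.single i 1) :=
  isWeightedHomogeneous_X ℂ (S.V.mdeg 2) (i, j)

lemma single_add_single (a b : ℕ) : (Pi.single 0 a + Pi.single 1 b : Fin 2 → ℕ) = ![a, b] := by
  funext k
  fin_cases k <;> simp

lemma single_add_single' (a b : ℕ) : (Pi.single 1 b + Pi.single 0 a : Fin 2 → ℕ) = ![a, b] := by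
  rw [add_comm, single_add_single]

lemma XX_hom (i j : Fin 5) :
    IsWeightedHomogeneous (S.V.mdeg 2)
      (MvPolynomial.X (0, i) * MvPolynomial.X (1, j) : Coord (Fin 5) 2) ![1, 1] := by
  have h := (S.X_hom 0 i).mul (S.X_hom 1 j)
  rwa [single_add_single] at h

lemma mn_hom (i j : Fin 5) : IsWeightedHomogeneous (S.V.mdeg 2) (mn i j) ![1, 1] := by
  have h := (S.X_hom 1 i).mul (S.X_hom 0 j)
  rw [single_add_single'] at h
  exact (S.XX_hom i j).sub h

lemma NN_eq (j : Fin 5) : NN j = mn 0 j := rfl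

lemma X_pow_hom (i : Fin 2) (j : Fin 5) (n : ℕ) :
    IsWeightedHomogeneous (S.V.mdeg 2) (MvPolynomial.X (i, j) ^ n : Coord (Fin 5) 2)
      (Pi.single i n) := by
  have h := (S.X_hom i j).pow n
  rwa [← Pi.single_smul, smul_eq_mul, mul_one] at h

lemma dFX_hom : IsWeightedHomogeneous (S.V.mdeg 2) (S.dFX 2 0) (Pi.single 0 (S.m + 2)) := by
  refine (S.X_pow_hom 0 1 (S.m + 2)).add ?_
  have h1 : (pderiv 0 S.P).IsHomogeneous (S.m + 1) := S.hP.pderiv
  have h2 : IsWeightedHomogeneous S.V.wt (pderiv 0 S.P) (S.m + 1) := h1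
  have h := (S.X_hom 0 4).mul (inFactor_homogeneous S.V (0 : Fin 2) h2)
  rwa [← Pi.single_add, show 1 + (S.m + 1) = S.m + 2 from by ring] at h

/-- the points of codimension one of `pV` on `x_4 y_4 = 0` -/
lemma cases_V (Q : Pt S.V 2) (hc : CodimOne S.pV.I Q.I)
    (h4 : (MvPolynomial.X (0, 4) : Coord (Fin 5) 2) ∈ Q.I ∨
      (MvPolynomial.X (1, 4) : Coord (Fin 5) 2) ∈ Q.I) :
    Q = S.pB S.pp S.pY ∨ Q = S.pB S.pY S.pp ∨ ∃ k, Q = S.pB (S.pl k) (S.pl k) := by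
  rcases S.clv Q.I hc.1.le (Q.relevant 0) (Q.relevant 1) h4 with h | h | ⟨k, h⟩
  · exact Or.inl (eq_of_codimOne S.V S.ovp.1 hc h)
  · exact Or.inr (Or.inl (eq_of_codimOne S.V S.ovp'.1 hc h))
  · exact Or.inr (Or.inr ⟨k, eq_of_codimOne S.V (S.ovl k).1 hc h⟩)

lemma ord_mul_V {Q : Pt S.V 2} (hc : CodimOne S.pV.I Q.I) :
    (ordAt S.pV.I Q.I (MvPolynomial.X (0, 4) * MvPolynomial.X (1, 4))).toNat =
      (ordAt S.pV.I Q.I (MvPolynomial.X (0, 4))).toNat +
        (ordAt S.pV.I Q.I (MvPolynomial.X (1, 4))).toNat :=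
  toNat_ordAt_mul hc (S.X_pV 0 4 (by decide)) (S.X_pV 1 4 (by decide))

lemma X4_mem_Yp : (MvPolynomial.X (0, 4) : Coord (Fin 5) 2) ∈ (S.pB S.pY S.pp).I := by
  have h := S.ovp'.2.2.1
  by_contra hc
  rw [ordAt_eq_zero hc] at h
  exact absurd h.symm (by norm_cast)

lemma X4_mem_pYD : (MvPolynomial.X (0, 4) : Coord (Fin 5) 2) ∈ S.pYD.I := by
  have h := S.oxy.2.1
  by_contra hc
  rw [ordAt_eq_zero hc] at h
  exact absurd h.symm (by norm_cast)

lemma pp_ne_Yp : S.pB S.pp S.pY ≠ S.pB S.pY S.pp := fun h => S.pp_ne_pY (S.pB_inj h).1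

lemma pp_ne_ll (k : Fin S.t) : S.pB S.pp S.pY ≠ S.pB (S.pl k) (S.pl k) :=
  fun h => S.pl_ne_pp k (S.pB_inj h).1.symm

lemma Yp_ne_ll (k : Fin S.t) : S.pB S.pY S.pp ≠ S.pB (S.pl k) (S.pl k) :=
  fun h => S.pl_ne_pp k (S.pB_inj h).2.symm

lemma ll_inj {j k : Fin S.t} (h : S.pB (S.pl j) (S.pl j) = S.pB (S.pl k) (S.pl k)) : j = k :=
  S.pl_injective (S.pB_inj h).1

open Classical in
/-- the first relation -/
lemma relA : (S.m + 2) • (Finsupp.single S.pYD 1 - ∑ k, S.a k • Finsupp.single (S.pB (S.pl k) (S.pl k)) 1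
    - Finsupp.single (S.pB S.pp S.pY) 1 - Finsupp.single (S.pB S.pY S.pp) 1 : Cycles S.V 2) ∈
      RatZero S.V 2 := by
  have hN : NN 4 ∉ S.pV.I := S.NN_pV 4 (by decide)
  have hXX : (MvPolynomial.X (0, 4) * MvPolynomial.X (1, 4) : Coord (Fin 5) 2) ∉ S.pV.I := by
    intro h
    rcases Ideal.IsPrime.mem_or_mem (I := S.pV.I) inferInstance h with h1 | h1
    · exact S.X_pV 0 4 (by decide) h1
    · exact S.X_pV 1 4 (by decide) h1
  have hXp : (MvPolynomial.X (0, 4) ^ (S.m + 2) : Coord (Fin 5) 2) ∉ S.pXD.I := fun h =>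
    S.X_pXD 0 4 (Ideal.IsPrime.mem_of_pow_mem (I := S.pXD.I) inferInstance _ h)
  obtain ⟨cV, hV⟩ := exists_isDivisor S.V S.pV hN hXX
  obtain ⟨cX, hX⟩ := exists_isDivisor S.V S.pXD S.dFX_pXD hXp
  have h1 : cV ∈ RatZero S.V 2 :=
    AddSubgroup.subset_closure ⟨S.pV, _, _, ![1, 1], S.mn_hom 0 4, S.XX_hom 4 4, hN, hXX, hV⟩
  have h2 : cX ∈ RatZero S.V 2 :=
    AddSubgroup.subset_closure ⟨S.pXD, _, _, _, S.dFX_hom, S.X_pow_hom 0 4 (S.m + 2), S.dFX_pXD,
      hXp, hX⟩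
  suffices h3 : (S.m + 2) • (Finsupp.single S.pYD 1 -
      ∑ k, S.a k • Finsupp.single (S.pB (S.pl k) (S.pl k)) 1
      - Finsupp.single (S.pB S.pp S.pY) 1 - Finsupp.single (S.pB S.pY S.pp) 1 : Cycles S.V 2) =
      cV - cX by
    rw [h3]
    exact sub_mem h1 h2
  -- the coefficients
  ext Q
  have hL : ((S.m + 2) • (Finsupp.single S.pYD 1 -
      ∑ k, S.a k • Finsupp.single (S.pB (S.pl k) (S.pl k)) 1
      - Finsupp.single (S.pB S.pp S.pY) 1 - Finsupp.single (S.pB S.pY S.pp) 1 : Cycles S.V 2)) Q =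
      ((S.m + 2 : ℕ) : ℤ) * ((if S.pYD = Q then 1 else 0) -
        ∑ k, (S.a k : ℤ) * (if S.pB (S.pl k) (S.pl k) = Q then 1 else 0) -
        (if S.pB S.pp S.pY = Q then 1 else 0) - (if S.pB S.pY S.pp = Q then 1 else 0)) := by
    simp only [Finsupp.smul_apply, Finsupp.sub_apply, Finsupp.finsetSum_apply,
      Finsupp.single_apply, nsmul_eq_mul]
  rw [hL, Finsupp.sub_apply, hV Q, hX Q]
  by_cases h4 : (MvPolynomial.X (0, 4) : Coord (Fin 5) 2) ∉ Q.I ∧
      (MvPolynomial.X (1, 4) : Coord (Fin 5) 2) ∉ Q.I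
  · -- away from `x_4 y_4 = 0`
    obtain ⟨h4, h4'⟩ := h4
    have e1 : S.pYD ≠ Q := fun h => h4 (h ▸ S.X4_mem_pYD)
    have e2 : S.pB S.pp S.pY ≠ Q := fun h => h4 (h ▸ S.X_mem_pp 4 (by decide))
    have e3 : S.pB S.pY S.pp ≠ Q := fun h => h4 (h ▸ S.X4_mem_Yp)
    have e4 : ∀ k, S.pB (S.pl k) (S.pl k) ≠ Q := fun k h => h4 (h ▸ S.X4_mem_ll 0 k k)
    have hd := S.dl Q h4 h4'
    have z1 : ordAt S.pV.I Q.I (MvPolynomial.X (0, 4) * MvPolynomial.X (1, 4)) = 0 := by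
      refine ordAt_eq_zero fun h => ?_
      rcases Ideal.IsPrime.mem_or_mem (I := Q.I) inferInstance h with h1 | h1
      · exact h4 h1
      · exact h4' h1
    have z2 : ordAt S.pXD.I Q.I (MvPolynomial.X (0, 4) ^ (S.m + 2)) = 0 :=
      ordAt_eq_zero fun h => h4 (Ideal.IsPrime.mem_of_pow_mem (I := Q.I) inferInstance _ h)
    rw [if_neg e1, if_neg e2, if_neg e3, z1, z2]
    have hs : ∑ k, (S.a k : ℤ) * (if S.pB (S.pl k) (S.pl k) = Q then 1 else 0) = 0 :=
      Finset.sum_eq_zero fun k _ => by rw [if_neg (e4 k), mul_zero]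
    rw [hs]
    have hd' : ((if CodimOne S.pV.I Q.I then ((ordAt S.pV.I Q.I (NN 4)).toNat : ℤ) else 0)) =
        (if CodimOne S.pXD.I Q.I then ((ordAt S.pXD.I Q.I (S.dFX 2 0)).toNat : ℤ) else 0) := by
      have := congrArg (fun n : ℕ => (n : ℤ)) hd
      simpa using this
    simp only [ENat.toNat_zero, Nat.cast_zero, sub_zero, mul_zero]
    rw [hd', sub_self]
  · -- on `x_4 y_4 = 0`
    have h4 : (MvPolynomial.X (0, 4) : Coord (Fin 5) 2) ∈ Q.I ∨
        (MvPolynomial.X (1, 4) : Coord (Fin 5) 2) ∈ Q.I := by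
      by_contra hc
      push Not at hc
      exact h4 hc
    -- the divisor on `pXD`
    have hcX : (if CodimOne S.pXD.I Q.I then ((ordAt S.pXD.I Q.I (S.dFX 2 0)).toNat : ℤ) -
        ((ordAt S.pXD.I Q.I (MvPolynomial.X (0, 4) ^ (S.m + 2))).toNat : ℤ) else 0) =
        -(((S.m + 2 : ℕ) : ℤ) * (if S.pYD = Q then 1 else 0)) := by
      by_cases hc : CodimOne S.pXD.I Q.I
      · have hQ : Q = S.pYD :=
          eq_of_codimOne S.V S.oxy.1 hc (S.clxy Q.I hc.1.le (Q.relevant 0) (Q.relevant 1) h4)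
        subst hQ
        rw [if_pos hc, if_pos rfl, ordAt_eq_zero S.oxy.2.2, ordAt_pow hc.1.le (S.X_pXD 0 4),
          S.oxy.2.1, Nat.cast_one, mul_one, mul_one, ENat.toNat_natCast, ENat.toNat_zero]
        simp
      · have hQ : S.pYD ≠ Q := fun h => hc (h ▸ S.oxy.1)
        rw [if_neg hc, if_neg hQ, mul_zero, neg_zero]
    -- the divisor on `pV`
    have hcV : (if CodimOne S.pV.I Q.I then ((ordAt S.pV.I Q.I (NN 4)).toNat : ℤ) -
        ((ordAt S.pV.I Q.I (MvPolynomial.X (0, 4) * MvPolynomial.X (1, 4))).toNat : ℤ) else 0) =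
        -(((S.m + 2 : ℕ) : ℤ) *
          (∑ k, (S.a k : ℤ) * (if S.pB (S.pl k) (S.pl k) = Q then 1 else 0) +
          (if S.pB S.pp S.pY = Q then 1 else 0) + (if S.pB S.pY S.pp = Q then 1 else 0))) := by
      by_cases hc : CodimOne S.pV.I Q.I
      · rw [if_pos hc, ord_mul_V S hc]
        rcases S.cases_V Q hc h4 with rfl | rfl | ⟨k, rfl⟩
        · obtain ⟨-, o1, o2, o3⟩ := S.ovp
          have hs : ∑ k, (S.a k : ℤ) * (if S.pB (S.pl k) (S.pl k) = S.pB S.pp S.pY then 1 else 0) =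
              0 := Finset.sum_eq_zero fun k _ => by rw [if_neg (S.pp_ne_ll k).symm, mul_zero]
          rw [o1, o2, o3, hs, if_pos rfl, if_neg S.pp_ne_Yp.symm]
          simp only [ENat.toNat_natCast]
          push_cast
          ring
        · obtain ⟨-, o1, o2, o3⟩ := S.ovp'
          have hs : ∑ k, (S.a k : ℤ) * (if S.pB (S.pl k) (S.pl k) = S.pB S.pY S.pp then 1 else 0) =
              0 := Finset.sum_eq_zero fun k _ => by rw [if_neg (S.Yp_ne_ll k).symm, mul_zero]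
          rw [o1, o2, o3, hs, if_pos rfl, if_neg S.pp_ne_Yp]
          simp only [ENat.toNat_natCast]
          push_cast
          ring
        · obtain ⟨-, o1, o2, o3⟩ := S.ovl k
          have hs : ∑ j, (S.a j : ℤ) * (if S.pB (S.pl j) (S.pl j) = S.pB (S.pl k) (S.pl k) then 1
              else 0) = S.a k := by
            rw [Finset.sum_eq_single k]
            · rw [if_pos rfl, mul_one]
            · intro j _ hj
              rw [if_neg (fun h => hj (S.ll_inj h)), mul_zero]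
            · intro h
              exact absurd (Finset.mem_univ k) h
          rw [o1, o2, o3, hs, if_neg (S.pp_ne_ll k), if_neg (S.Yp_ne_ll k)]
          simp only [ENat.toNat_natCast]
          push_cast
          ring
      · have e2 : S.pB S.pp S.pY ≠ Q := fun h => hc (h ▸ S.ovp.1)
        have e3 : S.pB S.pY S.pp ≠ Q := fun h => hc (h ▸ S.ovp'.1)
        have e4 : ∀ k, S.pB (S.pl k) (S.pl k) ≠ Q := fun k h => hc (h ▸ (S.ovl k).1)
        have hs : ∑ k, (S.a k : ℤ) * (if S.pB (S.pl k) (S.pl k) = Q then 1 else 0) = 0 :=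
          Finset.sum_eq_zero fun k _ => by rw [if_neg (e4 k), mul_zero]
        rw [if_neg hc, hs, if_neg e2, if_neg e3]
        ring
    rw [hcX, hcV]
    ring

end LnData

end Pool.Agent.RCH
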