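import Pool.Agent.RCH.LnBase

/-!
# Classification of the points of codimension one of the fibre square of the pencil
-/

set_option autoImplicit false

open MvPolynomial

namespace Pool.Agent.RCH

namespace LnData

variable (S : LnData)

/-- the relations between the coordinates of the two points modulo a prime containing `pU` -/
lemma clu_rel {L : Type} [CommRing L] (φ : Coord (Fin 5) 2 →+* L)
    (h : ∀ z ∈ S.pU.I, φ z = 0) :
    xs φ 0 1 * xs φ 1 2 = xs φ 1 1 * xs φ 0 2 ∧ xs φ 0 4 = 0 ∧ xs φ 1 4 = 0 ∧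
      S.F0v (cs φ) (xs φ 0) = 0 ∧ S.F0v (cs φ) (xs φ 1) = 0 := by
  have h4 : ∀ i, xs φ i 4 = 0 := fun i => h _ (S.X4_mem_pU i)
  have hF : ∀ i, S.F0v (cs φ) (xs φ i) = 0 := by
    intro i
    have h1 := h _ (S.FX_mem S.pU i)
    rw [map_FX, Fv, h4 i, zero_mul, add_zero] at h1
    exact h1
  refine ⟨?_, h4 0, h4 1, hF 0, hF 1⟩
  have h1 := h _ S.mn12_pU
  rw [mn, map_sub, map_mul, map_mul, sub_eq_zero] at h1
  exact h1

lemma clu (Q : Ideal (Coord (Fin 5) 2)) [Q.IsPrime] (h : S.pU.I ≤ Q)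
    (h1 : (MvPolynomial.X (0, 1) : Coord (Fin 5) 2) ∈ Q ∨
      (MvPolynomial.X (1, 1) : Coord (Fin 5) 2) ∈ Q) :
    (S.pB S.pp S.pY).I ≤ Q ∨ (S.pB S.pY S.pp).I ≤ Q ∨ ∃ j k, (S.pB (S.pl j) (S.pl k)).I ≤ Q := by
  set φ := Ideal.Quotient.mk Q with hφ
  obtain ⟨h12, h4, h4', hF, hF'⟩ := S.clu_rel φ
    (fun z hz => Ideal.Quotient.eq_zero_iff_mem.2 (h hz))
  have hmem : ∀ J : Ideal (Coord (Fin 5) 2), (∀ z ∈ J, φ z = 0) → J ≤ Q :=
    fun J hJ z hz => Ideal.Quotient.eq_zero_iff_mem.1 (hJ z hz)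
  have hx : xs φ 0 1 = 0 ∨ xs φ 1 1 = 0 := by
    rcases h1 with h1 | h1
    · exact Or.inl (Ideal.Quotient.eq_zero_iff_mem.2 h1)
    · exact Or.inr (Ideal.Quotient.eq_zero_iff_mem.2 h1)
  have hroot : ∀ i, xs φ i 1 = 0 → S.F0v (cs φ) (xs φ i) = 0 →
      ∃ k, xs φ i 3 = cs φ (S.b k) * xs φ i 2 := by
    intro i hi hFi
    rw [F0v, hi, zero_pow (by omega), mul_zero, zero_mul, zero_add, add_zero] at hFi
    exact S.exists_root (cs φ) hFi
  by_cases hx0 : xs φ 0 1 = 0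
  · obtain ⟨j, hj⟩ := hroot 0 hx0 hF
    by_cases hx1 : xs φ 1 1 = 0
    · obtain ⟨k, hk⟩ := hroot 1 hx1 hF'
      exact Or.inr (Or.inr ⟨j, k, hmem _ fun z hz => S.kill_ll φ j k hx0 h4 hj hx1 h4' hk hz⟩)
    · left
      rw [hx0, zero_mul] at h12
      have h2 : xs φ 0 2 = 0 := (mul_eq_zero.1 h12.symm).resolve_left hx1
      rw [h2, mul_zero] at hj
      exact hmem _ fun z hz => S.kill_pY_box φ hx0 h2 hj h4 h4' hF' hz
  · have hx1 : xs φ 1 1 = 0 := hx.resolve_left hx0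
    right; left
    obtain ⟨k, hk⟩ := hroot 1 hx1 hF'
    rw [hx1, zero_mul] at h12
    have h2 : xs φ 1 2 = 0 := (mul_eq_zero.1 h12).resolve_left hx0
    rw [h2, mul_zero] at hk
    exact hmem _ fun z hz => S.kill_Yp_box φ hx1 h2 hk h4' h4 hF hz

lemma clu' (Q : Ideal (Coord (Fin 5) 2)) [Q.IsPrime] (h : S.pU.I ≤ Q)
    (h1 : (MvPolynomial.X (0, 1) : Coord (Fin 5) 2) ∉ Q)
    (h1' : (MvPolynomial.X (1, 1) : Coord (Fin 5) 2) ∉ Q) (hM : mn 3 1 ∈ Q) : S.pYD.I ≤ Q := by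
  set ψ : Coord (Fin 5) 2 →+* FractionRing (Coord (Fin 5) 2 ⧸ Q) :=
    (algebraMap (Coord (Fin 5) 2 ⧸ Q) (FractionRing (Coord (Fin 5) 2 ⧸ Q))).comp
      (Ideal.Quotient.mk Q) with hψ
  have hker : ∀ z, ψ z = 0 ↔ z ∈ Q := by
    intro z
    rw [hψ, RingHom.comp_apply, map_eq_zero_iff _ (IsFractionRing.injective _ _),
      Ideal.Quotient.eq_zero_iff_mem]
  obtain ⟨h12, h4, h4', hF, hF'⟩ := S.clu_rel ψ (fun z hz => (hker z).2 (h hz))
  have hx : xs ψ 0 1 ≠ 0 := fun h' => h1 ((hker _).1 h')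
  have hy : xs ψ 1 1 ≠ 0 := fun h' => h1' ((hker _).1 h')
  have h31 : xs ψ 0 3 * xs ψ 1 1 = xs ψ 1 3 * xs ψ 0 1 := by
    have h2 := (hker _).2 hM
    rw [mn, map_sub, map_mul, map_mul, sub_eq_zero] at h2
    exact h2
  set w := xs ψ 1 1 / xs ψ 0 1 with hw
  have hw0 : w ≠ 0 := div_ne_zero hy hx
  have e1 : xs ψ 1 1 = w * xs ψ 0 1 := by
    rw [hw, div_mul_cancel₀ _ hx]
  have e2 : xs ψ 1 2 = w * xs ψ 0 2 := by
    rw [hw, div_mul_eq_mul_div, eq_div_iff hx]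
    linear_combination h12
  have e3 : xs ψ 1 3 = w * xs ψ 0 3 := by
    rw [hw, div_mul_eq_mul_div, eq_div_iff hx]
    linear_combination -h31
  have e0 : xs ψ 1 0 = w * xs ψ 0 0 := by
    rw [F0v] at hF hF'
    rw [e2, e3, e1, phv_smul, gv_smul] at hF'
    have h2 : (w * xs ψ 0 1) ^ (S.m + 2) * (xs ψ 1 0 - w * xs ψ 0 0) = 0 := by
      rw [mul_pow] at hF' ⊢
      linear_combination hF' - w ^ (S.m + 3) * hF
    have h3 := (mul_eq_zero.1 h2).resolve_left (pow_ne_zero _ (mul_ne_zero hw0 hx))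
    exact sub_eq_zero.1 h3
  intro z hz
  rw [← hker]
  refine S.kill_YD ψ w ?_ h4 hF hz
  intro j
  rw [mul_comm]
  fin_cases j
  · exact e0
  · exact e1
  · exact e2
  · exact e3
  · exact (by rw [h4, h4', mul_zero] : xs ψ 1 4 = w * xs ψ 0 4)

end LnData

end Pool.Agent.RCH
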