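import Pool.Agent.RCH.LnHgt

/-!
# Row KR: the fibre square contains the squares of the lines and the vertex times the surface
-/

set_option autoImplicit false

open MvPolynomial

namespace Pool.Agent.RCH

namespace LnData

variable (S : LnData)

/-! ### The first relation -/

section rel

variable {L : Type} [CommRing L] (c : ℂ →+* L)

/-- Relation (1): the equations at two points on a line through the vertex. -/
lemma kr_rel_one (x y : Fin 5 → L) (u v : L) (h1 : v * y 1 = u * x 1) (h2 : v * y 2 = u * x 2)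
    (h3 : v * y 3 = u * x 3) (h4 : v * y 4 = u * x 4) :
    u ^ (S.m + 3) * S.Fv c x - v ^ (S.m + 3) * S.Fv c y =
      (u * x 0 - v * y 0) * (u * x 1) ^ (S.m + 2) +
        u * x 4 * (u ^ (S.m + 2) * S.Pv c x - v ^ (S.m + 2) * S.Pv c y) := by
  rw [← Fv_smul, ← Fv_smul, ← Pv_smul, ← Pv_smul, Fv, Fv, F0v, F0v]
  simp only [h1, h2, h3, h4]
  ring

/-- the same with a factor `x_1` taken out -/
lemma kr_rel_two (x y : Fin 5 → L) (h2 : x 1 * y 2 = y 1 * x 2)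
    (h3 : x 1 * y 3 = y 1 * x 3) (h4 : x 1 * y 4 = y 1 * x 4) :
    y 1 ^ (S.m + 3) * S.Fv c x - x 1 ^ (S.m + 3) * S.Fv c y =
      x 1 * (x 1 ^ (S.m + 1) * y 1 ^ (S.m + 2) * (x 0 * y 1 - y 0 * x 1) +
        y 4 * (y 1 ^ (S.m + 2) * S.Pv c x - x 1 ^ (S.m + 2) * S.Pv c y)) := by
  rw [S.kr_rel_one c x y (y 1) (x 1) (mul_comm _ _) h2 h3 h4]
  linear_combination (-(y 1 ^ (S.m + 2) * S.Pv c x - x 1 ^ (S.m + 2) * S.Pv c y)) * h4

end rel

/-- the difference of the values of `P` at two points on a line through the vertex -/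
noncomputable def kR (j : Fin 5) : Coord (Fin 5) 2 :=
  MvPolynomial.X (1, j) ^ (S.m + 2) * inFactor 2 0 S.P -
    MvPolynomial.X (0, j) ^ (S.m + 2) * inFactor 2 1 S.P

/-- the equation of the fibre square after division by `x_1` -/
noncomputable def kH : Coord (Fin 5) 2 :=
  MvPolynomial.X (0, 1) ^ (S.m + 1) * MvPolynomial.X (1, 1) ^ (S.m + 2) * NN 1 +
    MvPolynomial.X (1, 4) * S.kR 1

section values

variable {L : Type} [CommRing L] (φ : Coord (Fin 5) 2 →+* L)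

lemma kr_map_NN (j : Fin 5) : φ (NN j) = xs φ 0 0 * xs φ 1 j - xs φ 1 0 * xs φ 0 j := by
  simp only [NN, map_sub, map_mul]
  rfl

lemma kr_map_mn (i j : Fin 5) : φ (mn i j) = xs φ 0 i * xs φ 1 j - xs φ 1 i * xs φ 0 j := by
  simp only [mn, map_sub, map_mul]
  rfl

lemma kr_map_kR (j : Fin 5) : φ (S.kR j) = xs φ 1 j ^ (S.m + 2) * S.Pv (cs φ) (xs φ 0) -
    xs φ 0 j ^ (S.m + 2) * S.Pv (cs φ) (xs φ 1) := by
  simp only [kR, map_sub, map_mul, map_pow, map_inFactor]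
  rfl

lemma kr_map_kH : φ S.kH = xs φ 0 1 ^ (S.m + 1) * xs φ 1 1 ^ (S.m + 2) *
      (xs φ 0 0 * xs φ 1 1 - xs φ 1 0 * xs φ 0 1) +
    xs φ 1 4 * (xs φ 1 1 ^ (S.m + 2) * S.Pv (cs φ) (xs φ 0) -
    xs φ 0 1 ^ (S.m + 2) * S.Pv (cs φ) (xs φ 1)) := by
  rw [kH, map_add, map_mul, map_mul, map_mul, map_pow, map_pow, kr_map_kR, kr_map_NN]
  rfl

end values

/-! ### Complex points -/

/-- an element which does not vanish at a pair of complex points -/
lemma kr_notMem_pB {A B : Pt S.V 1} (φ : Coord (Fin 5) 2 →+* ℂ) (hA : ∀ z ∈ A.I, φ (prH 0 z) = 0)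
    (hB : ∀ z ∈ B.I, φ (prH 1 z) = 0) {z : Coord (Fin 5) 2} (hz : φ z ≠ 0) :
    z ∉ (S.pB A B).I := fun h => hz (S.kill_pB φ A B hA hB h)

/-- the evaluation at a pair of points -/
noncomputable def kr_evP (x y : Fin 5 → ℂ) : Coord (Fin 5) 2 →+* ℂ := eval (pair x y)

lemma kr_cs_evP (x y : Fin 5 → ℂ) : cs (kr_evP x y) = RingHom.id ℂ :=
  RingHom.ext fun a => eval_C a

lemma kr_xs_evP_zero (x y : Fin 5 → ℂ) : xs (kr_evP x y) 0 = x := by
  funext j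
  exact (eval_X _).trans rfl

lemma kr_xs_evP_one (x y : Fin 5 → ℂ) : xs (kr_evP x y) 1 = y := by
  funext j
  exact (eval_X _).trans rfl

/-- a point of the surface outside of the lines -/
noncomputable def kr_ySf : Fin 5 → ℂ := ![- S.gv (RingHom.id ℂ) 1 0 0, 1, 0, 0, 0]

lemma kr_F0v_ySf : S.F0v (RingHom.id ℂ) S.kr_ySf = 0 := by
  have e0 : S.kr_ySf 0 = - S.gv (RingHom.id ℂ) 1 0 0 := rfl
  have e1 : S.kr_ySf 1 = 1 := rfl
  have e2 : S.kr_ySf 2 = 0 := rfl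
  have e3 : S.kr_ySf 3 = 0 := rfl
  rw [F0v, e0, e1, e2, e3, phv_zero_left, zero_pow (by omega), one_pow]
  ring

lemma kr_ev_pp_pY {z : Coord (Fin 5) 2} (hz : z ∈ (S.pB S.pp S.pY).I) :
    kr_evP ![1, 0, 0, 0, 0] S.kr_ySf z = 0 := by
  refine S.kill_pB _ _ _ ?_ ?_ hz
  · intro w hw
    refine S.kill_pp ((kr_evP ![1, 0, 0, 0, 0] S.kr_ySf).comp (prH 0)) ?_ ?_ ?_ ?_ hw
    · rw [xs_comp_prH, kr_xs_evP_zero]; rfl
    · rw [xs_comp_prH, kr_xs_evP_zero]; rfl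
    · rw [xs_comp_prH, kr_xs_evP_zero]; rfl
    · rw [xs_comp_prH, kr_xs_evP_zero]; rfl
  · intro w hw
    refine S.kill_pY ((kr_evP ![1, 0, 0, 0, 0] S.kr_ySf).comp (prH 1)) ?_ ?_ hw
    · rw [xs_comp_prH, kr_xs_evP_one]; rfl
    · rw [xs_comp_prH, kr_xs_evP_one, cs_comp_prH, kr_cs_evP, kr_F0v_ySf]

/-- the points of a line -/
noncomputable def kr_lPt (k : Fin S.t) (x w : ℂ) : Fin 5 → ℂ := ![x, 0, w, S.b k * w, 0]

lemma kr_ev_pl_pl (j k : Fin S.t) (x w x' w' : ℂ) {z : Coord (Fin 5) 2}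
    (hz : z ∈ (S.pB (S.pl j) (S.pl k)).I) :
    kr_evP (S.kr_lPt j x w) (S.kr_lPt k x' w') z = 0 := by
  refine S.kill_pB _ _ _ ?_ ?_ hz
  · intro z hz
    refine S.kill_pl ((kr_evP (S.kr_lPt j x w) (S.kr_lPt k x' w')).comp (prH 0)) j ?_ ?_ ?_ hz
    · rw [xs_comp_prH, kr_xs_evP_zero]; rfl
    · rw [xs_comp_prH, kr_xs_evP_zero, cs_comp_prH, kr_cs_evP]; rfl
    · rw [xs_comp_prH, kr_xs_evP_zero]; rfl
  · intro z hz
    refine S.kill_pl ((kr_evP (S.kr_lPt j x w) (S.kr_lPt k x' w')).comp (prH 1)) k ?_ ?_ ?_ hz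
    · rw [xs_comp_prH, kr_xs_evP_one]; rfl
    · rw [xs_comp_prH, kr_xs_evP_one, cs_comp_prH, kr_cs_evP]; rfl
    · rw [xs_comp_prH, kr_xs_evP_one]; rfl

lemma kr_Pv_vertex : S.Pv (RingHom.id ℂ) ![1, 0, 0, 0, 0] ≠ 0 := by
  have h : eval₂Hom (RingHom.id ℂ) ![1, 0, 0, 0, 0] S.P = eval ![1, 0, 0, 0, 0] S.P := rfl
  rw [Pv, h]
  exact S.hPc

/-- `P` is not constant on the affine part of a line -/
lemma kr_exists_Pv_ne (k : Fin S.t) : ∃ x x' : ℂ,
    S.Pv (RingHom.id ℂ) (S.kr_lPt k x 1) ≠ S.Pv (RingHom.id ℂ) (S.kr_lPt k x' 1) := by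
  by_contra hcon
  push Not at hcon
  let q : Polynomial ℂ := eval₂Hom Polynomial.C
    ![1, 0, Polynomial.X, Polynomial.C (S.b k) * Polynomial.X, 0] S.P
  have hq : ∀ s : ℂ, q.eval s = S.Pv (RingHom.id ℂ) (S.kr_lPt k 1 s) := by
    intro s
    have h := map_eval₂ Polynomial.C (Polynomial.evalRingHom s)
      ![1, 0, Polynomial.X, Polynomial.C (S.b k) * Polynomial.X, 0] S.P
    have h1 : (Polynomial.evalRingHom s).comp Polynomial.C = RingHom.id ℂ := by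
      refine RingHom.ext fun a => ?_
      simp
    have h2 : (fun j => Polynomial.evalRingHom s
        ((![1, 0, Polynomial.X, Polynomial.C (S.b k) * Polynomial.X, 0] :
        Fin 5 → Polynomial ℂ) j)) = S.kr_lPt k 1 s := by
      funext j
      fin_cases j <;> simp [kr_lPt]
    rw [h1, h2] at h
    exact h
  have h0 : ∀ s : ℂ, s ≠ 0 → q.eval s = S.Pv (RingHom.id ℂ) (S.kr_lPt k 0 1) * s ^ (S.m + 2) := by
    intro s hs
    rw [hq]
    have h1 : S.kr_lPt k 1 s = fun j => s * S.kr_lPt k s⁻¹ 1 j := by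
      funext j
      fin_cases j
      · exact (mul_inv_cancel₀ hs).symm
      · exact (mul_zero s).symm
      · exact (mul_one s).symm
      · show S.b k * s = s * (S.b k * 1)
        ring
      · exact (mul_zero s).symm
    rw [h1, Pv_smul, hcon s⁻¹ 0]
    ring
  have h2 : (q - Polynomial.C (S.Pv (RingHom.id ℂ) (S.kr_lPt k 0 1)) * Polynomial.X ^ (S.m + 2)) *
      Polynomial.X = 0 := by
    refine Polynomial.funext fun s => ?_
    by_cases hs : s = 0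
    · simp [hs]
    · simp [h0 s hs]
  have h3 := (mul_eq_zero.1 h2).resolve_right Polynomial.X_ne_zero
  have h4 := congrArg (Polynomial.eval 0) h3
  rw [Polynomial.eval_sub, Polynomial.eval_mul, Polynomial.eval_pow, Polynomial.eval_X,
    zero_pow (by omega), mul_zero, sub_zero, Polynomial.eval_zero, hq] at h4
  have h5 : S.kr_lPt k 1 0 = ![1, 0, 0, 0, 0] := by
    funext j
    fin_cases j <;> simp [kr_lPt]
  rw [h5] at h4
  exact S.kr_Pv_vertex h4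

/-! ### Elements which are not in the ideals -/

lemma kr_y1_notMem : (MvPolynomial.X (1, 1) : Coord (Fin 5) 2) ∉ (S.pB S.pp S.pY).I := by
  intro h
  have h1 : kr_evP ![1, 0, 0, 0, 0] S.kr_ySf (MvPolynomial.X (1, 1)) = 1 := eval_X _
  exact one_ne_zero (h1.symm.trans (S.kr_ev_pp_pY h))

lemma kr_x0_notMem : (MvPolynomial.X (0, 0) : Coord (Fin 5) 2) ∉ (S.pB S.pp S.pY).I := by
  intro h
  have h1 : kr_evP ![1, 0, 0, 0, 0] S.kr_ySf (MvPolynomial.X (0, 0)) = 1 := eval_X _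
  exact one_ne_zero (h1.symm.trans (S.kr_ev_pp_pY h))

lemma kr_kR_notMem : S.kR 1 ∉ (S.pB S.pp S.pY).I := by
  intro h
  have h1 := S.kr_ev_pp_pY h
  rw [kr_map_kR, kr_cs_evP, kr_xs_evP_zero, kr_xs_evP_one] at h1
  have e1 : S.kr_ySf 1 = 1 := rfl
  have e2 : (![1, 0, 0, 0, 0] : Fin 5 → ℂ) 1 = 0 := rfl
  rw [e1, e2, one_pow, zero_pow (by omega), one_mul, zero_mul, sub_zero] at h1
  exact S.kr_Pv_vertex h1

lemma kr_NN1_notMem : (NN 1 : Coord (Fin 5) 2) ∉ (S.pB S.pp S.pY).I := by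
  intro h
  have h1 := S.kr_ev_pp_pY h
  rw [kr_map_NN, kr_xs_evP_zero, kr_xs_evP_one] at h1
  have e1 : S.kr_ySf 1 = 1 := rfl
  have e2 : (![1, 0, 0, 0, 0] : Fin 5 → ℂ) 1 = 0 := rfl
  have e3 : (![1, 0, 0, 0, 0] : Fin 5 → ℂ) 0 = 1 := rfl
  rw [e1, e2, e3, mul_zero, sub_zero, mul_one] at h1
  exact one_ne_zero h1

lemma kr_x2_notMem_pl (j k : Fin S.t) (i : Fin 2) :
    (MvPolynomial.X (i, 2) : Coord (Fin 5) 2) ∉ (S.pB (S.pl j) (S.pl k)).I := by
  intro h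
  have h1 : kr_evP (S.kr_lPt j 0 1) (S.kr_lPt k 0 1) (MvPolynomial.X (i, 2)) = 1 := by
    refine (eval_X _).trans ?_
    fin_cases i <;> rfl
  exact one_ne_zero (h1.symm.trans (S.kr_ev_pl_pl j k 0 1 0 1 h))

lemma kr_kR_notMem_pl (k : Fin S.t) : S.kR 2 ∉ (S.pB (S.pl k) (S.pl k)).I := by
  intro h
  obtain ⟨x, x', hne⟩ := S.kr_exists_Pv_ne k
  have h1 := S.kr_ev_pl_pl k k x 1 x' 1 h
  rw [kr_map_kR, kr_cs_evP, kr_xs_evP_zero, kr_xs_evP_one] at h1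
  have e1 : S.kr_lPt k x 1 2 = 1 := rfl
  have e2 : S.kr_lPt k x' 1 2 = 1 := rfl
  rw [e1, e2, one_pow, one_mul, one_mul, sub_eq_zero] at h1
  exact hne h1

lemma kr_NN2_notMem_pl (j k : Fin S.t) : (NN 2 : Coord (Fin 5) 2) ∉ (S.pB (S.pl j) (S.pl k)).I := by
  intro h
  have h1 := S.kr_ev_pl_pl j k 1 1 0 1 h
  rw [kr_map_NN, kr_xs_evP_zero, kr_xs_evP_one] at h1
  have e1 : S.kr_lPt j 1 1 0 = 1 := rfl
  have e2 : S.kr_lPt k 0 1 2 = 1 := rfl
  have e3 : S.kr_lPt k 0 1 0 = 0 := rfl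
  rw [e1, e2, e3, zero_mul, sub_zero, mul_one] at h1
  exact one_ne_zero h1

/-- the values of `g` for the first point -/
noncomputable def kG : Coord (Fin 5) 2 :=
  aeval ![(MvPolynomial.X (0, 1) : Coord (Fin 5) 2), MvPolynomial.X (0, 2), MvPolynomial.X (0, 3)]
    S.g

lemma kr_map_kG {L : Type} [CommRing L] (φ : Coord (Fin 5) 2 →+* L) :
    φ S.kG = S.gv (cs φ) (xs φ 0 1) (xs φ 0 2) (xs φ 0 3) := by
  have h : φ.comp (aeval ![(MvPolynomial.X (0, 1) : Coord (Fin 5) 2), MvPolynomial.X (0, 2),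
      MvPolynomial.X (0, 3)]).toRingHom =
      eval₂Hom (cs φ) ![xs φ 0 1, xs φ 0 2, xs φ 0 3] := by
    apply MvPolynomial.ringHom_ext
    · intro a
      simp [cs]
    · intro j
      fin_cases j <;> simp [xs]
  exact congrArg (fun ψ => ψ S.g) h

/-- the unit factor in the equation near the square of a line -/
noncomputable def kB : Coord (Fin 5) 2 :=
  S.kR 2 * MvPolynomial.X (1, 2) * S.kG +
    MvPolynomial.X (0, 1) ^ (S.m + 1) * (MvPolynomial.X (0, 0) * S.kR 2 * MvPolynomial.X (1, 2) -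
      NN 2 * MvPolynomial.X (1, 2) ^ (S.m + 2) * inFactor 2 0 S.P)

lemma kr_kG_notMem_pl (k : Fin S.t) : S.kG ∉ (S.pB (S.pl k) (S.pl k)).I := by
  intro h
  have h1 := S.kr_ev_pl_pl k k 0 1 0 1 h
  rw [kr_map_kG, kr_cs_evP, kr_xs_evP_zero] at h1
  have e1 : S.kr_lPt k 0 1 1 = 0 := rfl
  have e2 : S.kr_lPt k 0 1 2 = 1 := rfl
  have e3 : S.kr_lPt k 0 1 3 = S.b k * 1 := rfl
  rw [e1, e2, e3, mul_one] at h1
  exact S.hgb k h1

lemma kr_kB_notMem_pl (k : Fin S.t) : S.kB ∉ (S.pB (S.pl k) (S.pl k)).I := by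
  intro h
  have hQ := (S.pB (S.pl k) (S.pl k)).prime
  have hx1 : (MvPolynomial.X (0, 1) : Coord (Fin 5) 2) ∈ (S.pB (S.pl k) (S.pl k)).I := by
    rw [← prH_X]; exact S.kr_prH0_mem_pB (S.kr_X1_mem_pl k)
  have h1 : S.kR 2 * MvPolynomial.X (1, 2) * S.kG ∈ (S.pB (S.pl k) (S.pl k)).I := by
    refine (Ideal.add_mem_iff_left _ ?_).1 h
    exact Ideal.mul_mem_right _ _ (Ideal.pow_mem_of_mem _ hx1 _ (by omega))
  rcases hQ.mem_or_mem h1 with h2 | h2
  · rcases hQ.mem_or_mem h2 with h3 | h3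
    · exact S.kr_kR_notMem_pl k h3
    · exact S.kr_x2_notMem_pl k k 1 h3
  · exact S.kr_kG_notMem_pl k h2

/-! ### The homomorphism to the field of a prime ideal -/

lemma kr_exists_field {R : Type} [CommRing R] (L : Ideal R) [hL : L.IsPrime] :
    ∃ (K : Type) (_ : Field K) (φ : R →+* K), ∀ z, φ z = 0 ↔ z ∈ L := by
  refine ⟨FractionRing (R ⧸ L), inferInstance,
    (algebraMap (R ⧸ L) (FractionRing (R ⧸ L))).comp (Ideal.Quotient.mk L), fun z => ?_⟩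
  rw [RingHom.comp_apply, FaithfulSMul.algebraMap_eq_zero_iff, Ideal.Quotient.eq_zero_iff_mem]

lemma kr_kill_V_field {K : Type} [Field K] (φ : Coord (Fin 5) 2 →+* K) (w : K) (hw : w ≠ 0)
    (h1 : xs φ 1 1 = xs φ 0 1 * w) (h2 : xs φ 1 2 = xs φ 0 2 * w)
    (h3 : xs φ 1 3 = xs φ 0 3 * w) (h4 : xs φ 1 4 = xs φ 0 4 * w)
    (hx4 : xs φ 0 4 ≠ 0) (hFx : S.Fv (cs φ) (xs φ 0) = 0) (hFy : S.Fv (cs φ) (xs φ 1) = 0)
    (hne : xs φ 1 0 ≠ xs φ 0 0 * w) {z : Coord (Fin 5) 2} (hz : z ∈ S.pV.I) : φ z = 0 := by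
  have h0 : xs φ 1 0 = xs φ 1 0 / w * w := (div_mul_cancel₀ _ hw).symm
  refine S.kill_V φ w h1 h2 h3 h4 (xs φ 1 0 / w) h0 (isUnit_iff_ne_zero.2 hx4) hFx ?_ hz
  refine S.eval_Gp_of_ne _ _ hFx ?_ ?_
  · have h5 : repl (xs φ 0) (xs φ 1 0 / w) = fun j => w⁻¹ * xs φ 1 j := by
      funext j
      fin_cases j
      · show xs φ 1 0 / w = w⁻¹ * xs φ 1 0
        rw [div_eq_inv_mul]
      · show xs φ 0 1 = w⁻¹ * xs φ 1 1
        rw [h1]; field_simp
      · show xs φ 0 2 = w⁻¹ * xs φ 1 2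
        rw [h2]; field_simp
      · show xs φ 0 3 = w⁻¹ * xs φ 1 3
        rw [h3]; field_simp
      · show xs φ 0 4 = w⁻¹ * xs φ 1 4
        rw [h4]; field_simp
    rw [h5, Fv_smul, hFy, mul_zero]
  · intro h
    apply hne
    rw [← h]
    exact h0

/-! ### The vertex times the surface -/

lemma kr_eq_of_minor {K : Type} [Field K] {a b c d : K} (ha : a ≠ 0) (h : a * d - b * c = 0) :
    d = c * (b / a) := by
  field_simp
  linear_combination h

theorem exists_between_pp_pY : ∃ L : Ideal (Coord (Fin 5) 2), L.IsPrime ∧ S.pV.I ≤ L ∧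
    L < (S.pB S.pp S.pY).I ∧ MvPolynomial.X (0, 1) ∉ L ∧ MvPolynomial.X (0, 4) ∉ L := by
  have hQ := (S.pB S.pp S.pY).prime
  have hx : ∀ j : Fin 5, j ≠ 0 → (MvPolynomial.X (0, j) : Coord (Fin 5) 2) ∈
      (S.pB S.pp S.pY).I := fun j hj => by
    rw [← prH_X]; exact S.kr_prH0_mem_pB (S.kr_X_mem_pp hj)
  have hy4 : (MvPolynomial.X (1, 4) : Coord (Fin 5) 2) ∈ (S.pB S.pp S.pY).I := by
    rw [← prH_X]; exact S.kr_prH1_mem_pB S.kr_X4_mem_pY
  have hmn : ∀ j : Fin 5, j ≠ 0 → (mn 1 j : Coord (Fin 5) 2) ∈ (S.pB S.pp S.pY).I :=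
    fun j hj => Ideal.sub_mem _ (Ideal.mul_mem_right _ _ (hx 1 (by decide)))
      (Ideal.mul_mem_left _ _ (hx j hj))
  have hH : S.kH ∈ (S.pB S.pp S.pY).I := by
    refine Ideal.add_mem _ (Ideal.mul_mem_right _ _ (Ideal.mul_mem_right _ _ ?_))
      (Ideal.mul_mem_right _ _ hy4)
    exact Ideal.pow_mem_of_mem _ (hx 1 (by decide)) _ (by omega)
  obtain ⟨L, hL, hLQ, m2, m3, m4, mF, mH, mt⟩ := kr_exists_prime_lt5 S.height_pp
    (mn 1 2) (mn 1 3) (mn 1 4) (S.FX 2 1) S.kH (MvPolynomial.X (0, 1))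
    (hmn 2 (by decide)) (hmn 3 (by decide)) (hmn 4 (by decide)) (S.FX_mem _ 1) hH (by
      intro z hz
      set J : Ideal (Coord (Fin 5) 2) := Ideal.span {mn 1 2, mn 1 3, mn 1 4, S.FX 2 1, S.kH} ⊔
        Ideal.span {MvPolynomial.X (0, 1)} with hJ
      set φ := toLocMod J (S.pB S.pp S.pY).I with hφ
      have hz0 : ∀ w ∈ J, φ w = 0 := fun w hw => toLocMod_eq_zero_of_mem hw
      have hin : ∀ w ∈ ({mn 1 2, mn 1 3, mn 1 4, S.FX 2 1, S.kH} : Set (Coord (Fin 5) 2)),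
          φ w = 0 := fun w hw => hz0 w (Ideal.mem_sup_left (Ideal.subset_span hw))
      have hx1 : xs φ 0 1 = 0 := hz0 _ (Ideal.mem_sup_right (Ideal.mem_span_singleton_self _))
      have hy1 : IsUnit (xs φ 1 1) := isUnit_toLocMod S.kr_y1_notMem
      have hR : IsUnit (φ (S.kR 1)) := isUnit_toLocMod S.kr_kR_notMem
      have e2 : φ (mn 1 2) = 0 := hin _ (by simp)
      have e3 : φ (mn 1 3) = 0 := hin _ (by simp)
      have e4 : φ (mn 1 4) = 0 := hin _ (by simp)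
      have eF : φ (S.FX 2 1) = 0 := hin _ (by simp)
      have eH : φ S.kH = 0 := hin _ (by simp)
      rw [kr_map_mn, hx1, zero_mul, zero_sub, neg_eq_zero] at e2 e3 e4
      have hx2 : xs φ 0 2 = 0 := (hy1.mul_right_eq_zero).1 e2
      have hx3 : xs φ 0 3 = 0 := (hy1.mul_right_eq_zero).1 e3
      have hx4 : xs φ 0 4 = 0 := (hy1.mul_right_eq_zero).1 e4
      have hy4' : xs φ 1 4 = 0 := by
        rw [kH, map_add, map_mul, map_mul, map_mul, map_pow] at eH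
        have h1 : φ (MvPolynomial.X (0, 1)) = 0 := hx1
        rw [h1, zero_pow (by omega), zero_mul, zero_mul, zero_add] at eH
        exact (hR.mul_left_eq_zero).1 eH
      have hF0 : S.F0v (cs φ) (xs φ 1) = 0 := by
        rw [map_FX, Fv, hy4', zero_mul, add_zero] at eF
        exact eF
      refine S.kill_pB φ _ _ ?_ ?_ hz
      · intro w hw
        refine S.kill_pp (φ.comp (prH 0)) ?_ ?_ ?_ ?_ hw
        · rw [xs_comp_prH]; exact hx1
        · rw [xs_comp_prH]; exact hx2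
        · rw [xs_comp_prH]; exact hx3
        · rw [xs_comp_prH]; exact hx4
      · intro w hw
        refine S.kill_pY (φ.comp (prH 1)) ?_ ?_ hw
        · rw [xs_comp_prH]; exact hy4'
        · rw [xs_comp_prH, cs_comp_prH]; exact hF0)
  obtain ⟨K, hK, φ, hφ⟩ := kr_exists_field L
  have hx1 : xs φ 0 1 ≠ 0 := fun h => mt ((hφ _).1 h)
  have hy1 : xs φ 1 1 ≠ 0 := fun h => S.kr_y1_notMem (hLQ.le ((hφ _).1 h))
  have hN : φ (NN 1) ≠ 0 := fun h => S.kr_NN1_notMem (hLQ.le ((hφ _).1 h))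
  have e2 := (hφ _).2 m2
  have e3 := (hφ _).2 m3
  have e4 := (hφ _).2 m4
  have eF := (hφ _).2 mF
  have eH := (hφ _).2 mH
  rw [kr_map_mn] at e2 e3 e4
  rw [map_FX] at eF
  rw [kr_map_kH] at eH
  rw [kr_map_NN] at hN
  have hx4 : xs φ 0 4 ≠ 0 := by
    intro h
    rw [h, mul_zero, sub_zero] at e4
    have hy4 : xs φ 1 4 = 0 := (mul_eq_zero.1 e4).resolve_left hx1
    rw [hy4, zero_mul, add_zero] at eH
    exact mul_ne_zero (mul_ne_zero (pow_ne_zero _ hx1) (pow_ne_zero _ hy1)) hN eH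
  have hFx : S.Fv (cs φ) (xs φ 0) = 0 := by
    have h := S.kr_rel_two (cs φ) (xs φ 0) (xs φ 1) (sub_eq_zero.1 e2) (sub_eq_zero.1 e3)
      (sub_eq_zero.1 e4)
    rw [eH, eF, mul_zero, mul_zero, sub_zero] at h
    exact (mul_eq_zero.1 h).resolve_left (pow_ne_zero _ hy1)
  refine ⟨L, hL, ?_, hLQ, mt, fun h => hx4 ((hφ _).2 h)⟩
  intro z hz
  refine (hφ z).1 ?_
  refine S.kr_kill_V_field φ (xs φ 1 1 / xs φ 0 1) (div_ne_zero hy1 hx1) ?_ (kr_eq_of_minor hx1 e2)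
    (kr_eq_of_minor hx1 e3) (kr_eq_of_minor hx1 e4) hx4 hFx eF ?_ hz
  · field_simp
  · intro h
    apply hN
    rw [h]
    field_simp
    ring

/-! ### The square of a line -/

theorem exists_between_pl_pl (k : Fin S.t) : ∃ L : Ideal (Coord (Fin 5) 2), L.IsPrime ∧
    S.pV.I ≤ L ∧ L < (S.pB (S.pl k) (S.pl k)).I ∧
    MvPolynomial.X (0, 3) - C (S.b k) * MvPolynomial.X (0, 2) ∉ L ∧
    MvPolynomial.X (0, 4) ∉ L := by
  have hQ := (S.pB (S.pl k) (S.pl k)).prime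
  have hx1 : (MvPolynomial.X (0, 1) : Coord (Fin 5) 2) ∈ (S.pB (S.pl k) (S.pl k)).I := by
    rw [← prH_X]; exact S.kr_prH0_mem_pB (S.kr_X1_mem_pl k)
  have hx4 : (MvPolynomial.X (0, 4) : Coord (Fin 5) 2) ∈ (S.pB (S.pl k) (S.pl k)).I := by
    rw [← prH_X]; exact S.kr_prH0_mem_pB (S.kr_X4_mem_pl k)
  have hy1 : (MvPolynomial.X (1, 1) : Coord (Fin 5) 2) ∈ (S.pB (S.pl k) (S.pl k)).I := by
    rw [← prH_X]; exact S.kr_prH1_mem_pB (S.kr_X1_mem_pl k)
  have hy4 : (MvPolynomial.X (1, 4) : Coord (Fin 5) 2) ∈ (S.pB (S.pl k) (S.pl k)).I := by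
    rw [← prH_X]; exact S.kr_prH1_mem_pB (S.kr_X4_mem_pl k)
  have hl0 : (MvPolynomial.X (0, 3) - C (S.b k) * MvPolynomial.X (0, 2) : Coord (Fin 5) 2) ∈
      (S.pB (S.pl k) (S.pl k)).I := by
    have h := S.kr_prH0_mem_pB (B := S.pl k) (S.kr_lam_mem_pl k)
    rw [map_sub, map_mul, prH_X, prH_X] at h
    have hC : prH 0 (C (S.b k)) = C (S.b k) := by simp [prH]
    rwa [hC] at h
  have hl1 : (MvPolynomial.X (1, 3) - C (S.b k) * MvPolynomial.X (1, 2) : Coord (Fin 5) 2) ∈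
      (S.pB (S.pl k) (S.pl k)).I := by
    have h := S.kr_prH1_mem_pB (A := S.pl k) (S.kr_lam_mem_pl k)
    rw [map_sub, map_mul, prH_X, prH_X] at h
    have hC : prH 1 (C (S.b k)) = C (S.b k) := by simp [prH]
    rwa [hC] at h
  have hm3 : (mn 2 3 : Coord (Fin 5) 2) ∈ (S.pB (S.pl k) (S.pl k)).I := by
    have h : (mn 2 3 : Coord (Fin 5) 2) =
        MvPolynomial.X (0, 2) * (MvPolynomial.X (1, 3) - C (S.b k) * MvPolynomial.X (1, 2)) -
        MvPolynomial.X (1, 2) * (MvPolynomial.X (0, 3) - C (S.b k) * MvPolynomial.X (0, 2)) := by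
      rw [mn]; ring
    rw [h]
    exact Ideal.sub_mem _ (Ideal.mul_mem_left _ _ hl1) (Ideal.mul_mem_left _ _ hl0)
  have hm1 : (mn 2 1 : Coord (Fin 5) 2) ∈ (S.pB (S.pl k) (S.pl k)).I :=
    Ideal.sub_mem _ (Ideal.mul_mem_left _ _ hy1) (Ideal.mul_mem_left _ _ hx1)
  have hm4 : (mn 2 4 : Coord (Fin 5) 2) ∈ (S.pB (S.pl k) (S.pl k)).I :=
    Ideal.sub_mem _ (Ideal.mul_mem_left _ _ hy4) (Ideal.mul_mem_left _ _ hx4)
  obtain ⟨L, hL, hLQ, m1, m3, m4, mF0, mF1, mt⟩ := kr_exists_prime_lt5 (S.height_ll k)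
    (mn 2 1) (mn 2 3) (mn 2 4) (S.FX 2 0) (S.FX 2 1)
    (MvPolynomial.X (0, 3) - C (S.b k) * MvPolynomial.X (0, 2))
    hm1 hm3 hm4 (S.FX_mem _ 0) (S.FX_mem _ 1) (by
      intro z hz
      set J : Ideal (Coord (Fin 5) 2) := Ideal.span {mn 2 1, mn 2 3, mn 2 4, S.FX 2 0, S.FX 2 1} ⊔
        Ideal.span {MvPolynomial.X (0, 3) - C (S.b k) * MvPolynomial.X (0, 2)} with hJ
      set φ := toLocMod J (S.pB (S.pl k) (S.pl k)).I with hφ
      have hz0 : ∀ w ∈ J, φ w = 0 := fun w hw => toLocMod_eq_zero_of_mem hw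
      have hin : ∀ w ∈ ({mn 2 1, mn 2 3, mn 2 4, S.FX 2 0, S.FX 2 1} : Set (Coord (Fin 5) 2)),
          φ w = 0 := fun w hw => hz0 w (Ideal.mem_sup_left (Ideal.subset_span hw))
      have ht : φ (MvPolynomial.X (0, 3) - C (S.b k) * MvPolynomial.X (0, 2)) = 0 :=
        hz0 _ (Ideal.mem_sup_right (Ideal.mem_span_singleton_self _))
      have ux2 : IsUnit (xs φ 0 2) := isUnit_toLocMod (S.kr_x2_notMem_pl k k 0)
      have uy2 : IsUnit (xs φ 1 2) := isUnit_toLocMod (S.kr_x2_notMem_pl k k 1)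
      have uR : IsUnit (φ (S.kR 2)) := isUnit_toLocMod (S.kr_kR_notMem_pl k)
      have uB : IsUnit (φ S.kB) := isUnit_toLocMod (S.kr_kB_notMem_pl k)
      have e1 : φ (mn 2 1) = 0 := hin _ (by simp)
      have e3 : φ (mn 2 3) = 0 := hin _ (by simp)
      have e4 : φ (mn 2 4) = 0 := hin _ (by simp)
      have eF0 : φ (S.FX 2 0) = 0 := hin _ (by simp)
      have eF1 : φ (S.FX 2 1) = 0 := hin _ (by simp)
      rw [kr_map_mn] at e1 e3 e4
      rw [map_FX] at eF0 eF1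
      have hl : xs φ 0 3 = cs φ (S.b k) * xs φ 0 2 := by
        rw [map_sub, map_mul] at ht
        exact sub_eq_zero.1 ht
      have r1 := S.kr_rel_one (cs φ) (xs φ 0) (xs φ 1) (xs φ 1 2) (xs φ 0 2) (sub_eq_zero.1 e1)
        (mul_comm _ _) (sub_eq_zero.1 e3) (sub_eq_zero.1 e4)
      rw [eF0, eF1, mul_zero, mul_zero, sub_zero, ← kr_map_kR] at r1
      have hx1 : xs φ 0 1 = 0 := by
        have h1 : φ S.kB * xs φ 0 1 = 0 := by
          have hB : φ S.kB = φ (S.kR 2) * xs φ 1 2 *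
              S.gv (cs φ) (xs φ 0 1) (xs φ 0 2) (xs φ 0 3) + xs φ 0 1 ^ (S.m + 1) *
              (xs φ 0 0 * φ (S.kR 2) * xs φ 1 2 - (xs φ 0 0 * xs φ 1 2 - xs φ 1 0 * xs φ 0 2) *
                xs φ 1 2 ^ (S.m + 2) * S.Pv (cs φ) (xs φ 0)) := by
            simp only [kB, map_add, map_mul, map_sub, map_pow, kr_map_kG, kr_map_NN, map_inFactor]
            rfl
          rw [hB]
          rw [Fv, F0v, S.phv_eq_zero _ k hl] at eF0
          linear_combination (φ (S.kR 2) * xs φ 1 2) * eF0 + S.Pv (cs φ) (xs φ 0) * r1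
        exact (uB.mul_right_eq_zero).1 h1
      have hx4 : xs φ 0 4 = 0 := by
        rw [hx1, mul_zero, zero_pow (by omega), mul_zero, zero_add] at r1
        exact (uy2.mul_right_eq_zero).1 ((uR.mul_left_eq_zero).1 r1.symm)
      have hy1 : xs φ 1 1 = 0 := by
        rw [hx1, mul_zero, sub_zero] at e1
        exact (ux2.mul_right_eq_zero).1 e1
      have hy4 : xs φ 1 4 = 0 := by
        rw [hx4, mul_zero, sub_zero] at e4
        exact (ux2.mul_right_eq_zero).1 e4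
      have hl1 : xs φ 1 3 = cs φ (S.b k) * xs φ 1 2 := by
        refine sub_eq_zero.1 ((ux2.mul_right_eq_zero).1 ?_)
        rw [hl] at e3
        linear_combination e3
      refine S.kill_pB φ _ _ ?_ ?_ hz
      · intro w hw
        refine S.kill_pl (φ.comp (prH 0)) k ?_ ?_ ?_ hw
        · rw [xs_comp_prH]; exact hx1
        · rw [xs_comp_prH, cs_comp_prH]; exact hl
        · rw [xs_comp_prH]; exact hx4
      · intro w hw
        refine S.kill_pl (φ.comp (prH 1)) k ?_ ?_ ?_ hw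
        · rw [xs_comp_prH]; exact hy1
        · rw [xs_comp_prH, cs_comp_prH]; exact hl1
        · rw [xs_comp_prH]; exact hy4)
  obtain ⟨K, hK, φ, hφ⟩ := kr_exists_field L
  have nx2 : xs φ 0 2 ≠ 0 := fun h => S.kr_x2_notMem_pl k k 0 (hLQ.le ((hφ _).1 h))
  have ny2 : xs φ 1 2 ≠ 0 := fun h => S.kr_x2_notMem_pl k k 1 (hLQ.le ((hφ _).1 h))
  have hN : φ (NN 2) ≠ 0 := fun h => S.kr_NN2_notMem_pl k k (hLQ.le ((hφ _).1 h))
  have e1 := (hφ _).2 m1
  have e3 := (hφ _).2 m3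
  have e4 := (hφ _).2 m4
  have eF0 := (hφ _).2 mF0
  have eF1 := (hφ _).2 mF1
  rw [kr_map_mn] at e1 e3 e4
  rw [map_FX] at eF0 eF1
  rw [kr_map_NN] at hN
  have hx4 : xs φ 0 4 ≠ 0 := by
    intro h
    have h1 := S.kr_rel_one (cs φ) (xs φ 0) (xs φ 1) (xs φ 1 2) (xs φ 0 2) (sub_eq_zero.1 e1)
      (mul_comm _ _) (sub_eq_zero.1 e3) (sub_eq_zero.1 e4)
    rw [eF0, eF1, h, mul_zero, mul_zero, mul_zero, zero_mul, add_zero, sub_zero] at h1
    have h2 : xs φ 0 1 = 0 := by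
      have h3 := (mul_eq_zero.1 h1.symm).resolve_left (by
        intro h4
        apply hN
        linear_combination h4)
      exact (mul_eq_zero.1 (pow_eq_zero_iff (by omega) |>.1 h3)).resolve_left ny2
    rw [Fv, F0v, h, h2, zero_pow (by omega), mul_zero, zero_mul, zero_mul, zero_add, add_zero,
      add_zero] at eF0
    obtain ⟨j, hj⟩ := S.exists_root _ eF0
    by_cases hjk : j = k
    · subst hjk
      apply mt
      rw [← hφ, map_sub, map_mul]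
      exact sub_eq_zero.2 hj
    · have h5 : (MvPolynomial.X (0, 3) - C (S.b j) * MvPolynomial.X (0, 2) : Coord (Fin 5) 2) ∈
          (S.pB (S.pl k) (S.pl k)).I := by
        apply hLQ.le
        rw [← hφ, map_sub, map_mul]
        exact sub_eq_zero.2 hj
      have h6 := S.kr_ev_pl_pl k k 0 1 0 1 h5
      have h7 : kr_evP (S.kr_lPt k 0 1) (S.kr_lPt k 0 1)
          (MvPolynomial.X (0, 3) - C (S.b j) * MvPolynomial.X (0, 2)) = S.b k - S.b j := by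
        rw [map_sub, map_mul]
        have a3 : kr_evP (S.kr_lPt k 0 1) (S.kr_lPt k 0 1) (MvPolynomial.X (0, 3)) = S.b k * 1 := eval_X _
        have a2 : kr_evP (S.kr_lPt k 0 1) (S.kr_lPt k 0 1) (MvPolynomial.X (0, 2)) = 1 := eval_X _
        have ac : kr_evP (S.kr_lPt k 0 1) (S.kr_lPt k 0 1) (C (S.b j)) = S.b j := eval_C _
        rw [a3, a2, ac, mul_one, mul_one]
      rw [h7, sub_eq_zero] at h6
      exact hjk (S.hb h6.symm)
  refine ⟨L, hL, ?_, hLQ, mt, fun h => hx4 ((hφ _).2 h)⟩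
  intro z hz
  refine (hφ z).1 ?_
  refine S.kr_kill_V_field φ (xs φ 1 2 / xs φ 0 2) (div_ne_zero ny2 nx2) (kr_eq_of_minor nx2 e1) ?_
    (kr_eq_of_minor nx2 e3) (kr_eq_of_minor nx2 e4) hx4 eF0 eF1 ?_ hz
  · field_simp
  · intro h
    apply hN
    rw [h]
    field_simp
    ring

/-! ### Row KR -/

lemma pV_le_pp : S.pV.I ≤ (S.pB S.pp S.pY).I := by
  obtain ⟨L, -, h1, h2, -⟩ := S.exists_between_pp_pY
  exact h1.trans h2.le

lemma pV_le_ll (k : Fin S.t) : S.pV.I ≤ (S.pB (S.pl k) (S.pl k)).I := by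
  obtain ⟨L, -, h1, h2, -⟩ := S.exists_between_pl_pl k
  exact h1.trans h2.le

end LnData

end Pool.Agent.RCH
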