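import Pool.Agent.RCH.LnFm
import Pool.Agent.RCH.LnKR

/-!
# Row NU: members and non-members of the ideal of the fibre square of the pencil
-/

set_option autoImplicit false

open MvPolynomial

namespace Pool.Agent.RCH

namespace LnData

variable (S : LnData)

lemma nu_sfCd_map {D : Type} [CommRing D] [Algebra ℂ D] (f : D →+* ℂ)
    (hf : f.comp (algebraMap ℂ D) = RingHom.id ℂ) (s u z : D) (j : Fin 5) :
    f (S.sfCd s u z j) = S.sfCd (f s) (f u) (f z) j := by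
  have e0 : S.sfCd s u z 0 =
    -(S.phv (algebraMap ℂ D) u z + s * S.gv (algebraMap ℂ D) s u z) := rfl
  have e1 : S.sfCd s u z 1 = s ^ (S.m + 3) := rfl
  have e2 : S.sfCd s u z 2 = s ^ (S.m + 2) * u := rfl
  have e3 : S.sfCd s u z 3 = s ^ (S.m + 2) * z := rfl
  have e4 : S.sfCd s u z 4 = 0 := rfl
  have e0' : S.sfCd (f s) (f u) (f z) 0 =
    -(S.phv (algebraMap ℂ ℂ) (f u) (f z) + f s * S.gv (algebraMap ℂ ℂ) (f s) (f u) (f z)) := rfl
  fin_cases j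
  · refine (congrArg f e0).trans ?_
    refine Eq.trans ?_ e0'.symm
    rw [map_neg, map_add, map_mul, map_phv, map_gv, hf]
    rfl
  · exact (congrArg f e1).trans (map_pow f _ _)
  · refine (congrArg f e2).trans ?_
    rw [map_mul, map_pow]
    rfl
  · refine (congrArg f e3).trans ?_
    rw [map_mul, map_pow]
    rfl
  · exact (congrArg f e4).trans (map_zero f)

/-- the values at a complex point of the fibre square -/
lemma nu_ev (a : Fin 4 → ℂ) {z : Coord (Fin 5) 2} (hz : z ∈ S.pU.I) :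
    kr_evP (S.sfCd (a 0) (a 1) (a 2)) (S.sfCd (a 0) (a 1) (a 3)) z = 0 := by
  have hf : (eval a).comp (algebraMap ℂ K4) = RingHom.id ℂ :=
    RingHom.ext fun c => eval_C c
  refine genIdeal_lift S.V _ _ (eval a) (fun _ => 1) ?_ ?_ hz
  · intro c
    exact (eval_C c).trans (congrArg (fun ψ => ψ c) hf).symm
  · rintro ⟨i, j⟩
    rw [one_pow, mul_one]
    refine (eval_X _).trans ?_
    fin_cases i
    · have h := S.nu_sfCd_map (eval a) hf (MvPolynomial.X 0) (MvPolynomial.X 1)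
        (MvPolynomial.X 2) j
      rw [eval_X, eval_X, eval_X] at h
      exact h.symm
    · have h := S.nu_sfCd_map (eval a) hf (MvPolynomial.X 0) (MvPolynomial.X 1)
        (MvPolynomial.X 3) j
      rw [eval_X, eval_X, eval_X] at h
      exact h.symm

lemma nu_mn_homog (i j : Fin 5) :
    IsWeightedHomogeneous (S.V.mdeg 2) (mn i j : Coord (Fin 5) 2) (1 : Fin 2 → ℕ) := by
  have hX : ∀ v : Fin 2 × Fin 5, IsWeightedHomogeneous (S.V.mdeg 2)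
      (MvPolynomial.X v : Coord (Fin 5) 2) (S.V.mdeg 2 v) := fun v => isWeightedHomogeneous_X ℂ _ v
  have e : ∀ i j : Fin 5, S.V.mdeg 2 (0, i) + S.V.mdeg 2 (1, j) = (1 : Fin 2 → ℕ) := by
    intro i j
    funext k
    fin_cases k <;> simp [WVar.mdeg]
  refine IsWeightedHomogeneous.sub ?_ ?_
  · have h := (hX (0, i)).mul (hX (1, j))
    rwa [e] at h
  · have h := (hX (1, i)).mul (hX (0, j))
    rwa [add_comm, e] at h

lemma mn12_pU : mn 1 2 ∈ S.pU.I := by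
  refine (mem_genIdeal_of_homogeneous S.V _ (S.nu_mn_homog 1 2)).2 ?_
  rw [mn, map_sub, map_mul, map_mul, aeval_X, aeval_X, aeval_X, aeval_X]
  have e1 : ∀ z : K4, S.sfCd (MvPolynomial.X 0) (MvPolynomial.X 1) z 1 =
      MvPolynomial.X 0 ^ (S.m + 3) := fun _ => rfl
  have e2 : ∀ z : K4, S.sfCd (MvPolynomial.X 0) (MvPolynomial.X 1) z 2 =
      MvPolynomial.X 0 ^ (S.m + 2) * MvPolynomial.X 1 := fun _ => rfl
  rw [ptU, pair_zero, pair_one, pair_zero, pair_one, e1, e2, e1, e2, sub_self]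

lemma X4_mem_pU (i : Fin 2) : (MvPolynomial.X (i, 4) : Coord (Fin 5) 2) ∈ S.pU.I := by
  refine (X_mem_genIdeal S.V _ (i, 4)).2 ?_
  fin_cases i
  · rfl
  · rfl

lemma nu_sfCd_zero {u z : ℂ} (j : Fin 5) (h0 : S.sfCd (0 : ℂ) u z 0 = 0) : S.phv (algebraMap ℂ ℂ) u z = 0 := by
  have e0 : S.sfCd (0 : ℂ) u z 0 =
    -(S.phv (algebraMap ℂ ℂ) u z + 0 * S.gv (algebraMap ℂ ℂ) 0 u z) := rfl
  rw [e0, zero_mul, add_zero, neg_eq_zero] at h0
  exact h0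

lemma nu_ev_X (a : Fin 4 → ℂ) (i : Fin 2) (j : Fin 5)
    (h : (MvPolynomial.X (i, j) : Coord (Fin 5) 2) ∈ S.pU.I) :
    (if i = 0 then S.sfCd (a 0) (a 1) (a 2) j else S.sfCd (a 0) (a 1) (a 3) j) = 0 := by
  have h1 := S.nu_ev a h
  have h2 : kr_evP (S.sfCd (a 0) (a 1) (a 2)) (S.sfCd (a 0) (a 1) (a 3))
      (MvPolynomial.X (i, j)) = pair (S.sfCd (a 0) (a 1) (a 2)) (S.sfCd (a 0) (a 1) (a 3)) (i, j) :=
    eval_X _
  exact h2.symm.trans h1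

lemma X_pU (i : Fin 2) (j : Fin 5) (hj : j ≠ 4) :
    (MvPolynomial.X (i, j) : Coord (Fin 5) 2) ∉ S.pU.I := by
  intro h
  have e1 : ∀ s u z : ℂ, S.sfCd s u z 1 = s ^ (S.m + 3) := fun _ _ _ => rfl
  have e2 : ∀ s u z : ℂ, S.sfCd s u z 2 = s ^ (S.m + 2) * u := fun _ _ _ => rfl
  have e3 : ∀ s u z : ℂ, S.sfCd s u z 3 = s ^ (S.m + 2) * z := fun _ _ _ => rfl
  have hex : ∃ s u z : ℂ, S.sfCd s u z j ≠ 0 := by
    fin_cases j
    · refine ⟨0, 0, 1, fun h0 => ?_⟩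
      have h1 := S.nu_sfCd_zero 0 h0
      rw [phv_zero_left, one_pow] at h1
      exact one_ne_zero h1
    · refine ⟨1, 1, 1, fun h0 => ?_⟩
      have h1 := (e1 1 1 1).symm.trans h0
      rw [one_pow] at h1
      exact one_ne_zero h1
    · refine ⟨1, 1, 1, fun h0 => ?_⟩
      have h1 := (e2 1 1 1).symm.trans h0
      rw [one_pow, one_mul] at h1
      exact one_ne_zero h1
    · refine ⟨1, 1, 1, fun h0 => ?_⟩
      have h1 := (e3 1 1 1).symm.trans h0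
      rw [one_pow, one_mul] at h1
      exact one_ne_zero h1
    · exact absurd rfl hj
  obtain ⟨s, u, z, hne⟩ := hex
  have h1 := S.nu_ev_X ![s, u, z, z] i j h
  apply hne
  split_ifs at h1
  · exact h1
  · exact h1

lemma mn31_pU : mn 3 1 ∉ S.pU.I := by
  intro h
  have h1 := S.nu_ev ![1, 0, 1, 0] h
  rw [fm_mn, kr_xs_evP_zero, kr_xs_evP_one] at h1
  have e1 : ∀ z : ℂ, S.sfCd (![1, 0, 1, 0] 0 : ℂ) (![1, 0, 1, 0] 1) z 1 = (1 : ℂ) ^ (S.m + 3) :=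
    fun _ => rfl
  have e3 : ∀ z : ℂ, S.sfCd (![1, 0, 1, 0] 0 : ℂ) (![1, 0, 1, 0] 1) z 3 = (1 : ℂ) ^ (S.m + 2) * z :=
    fun _ => rfl
  have e2 : (![1, 0, 1, 0] 2 : ℂ) = 1 := rfl
  have e4 : (![1, 0, 1, 0] 3 : ℂ) = 0 := rfl
  rw [e1, e3, e1, e3, e2, e4, one_pow, one_pow] at h1
  norm_num at h1

lemma mn23_pU : mn 2 3 ∉ S.pU.I := by
  intro h
  have h1 := S.nu_ev ![1, 1, 1, 0] h
  rw [fm_mn, kr_xs_evP_zero, kr_xs_evP_one] at h1
  have e1 : ∀ z : ℂ, S.sfCd (![1, 1, 1, 0] 0 : ℂ) (![1, 1, 1, 0] 1) z 2 =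
      (1 : ℂ) ^ (S.m + 2) * 1 := fun _ => rfl
  have e3 : ∀ z : ℂ, S.sfCd (![1, 1, 1, 0] 0 : ℂ) (![1, 1, 1, 0] 1) z 3 = (1 : ℂ) ^ (S.m + 2) * z :=
    fun _ => rfl
  have e2 : (![1, 1, 1, 0] 2 : ℂ) = 1 := rfl
  have e4 : (![1, 1, 1, 0] 3 : ℂ) = 0 := rfl
  rw [e1, e3, e1, e3, e2, e4, one_pow] at h1
  norm_num at h1

lemma lam_pU (i : Fin 2) (k : Fin S.t) : S.lam i k ∉ S.pU.I := by
  intro h
  have h1 := S.nu_ev ![1, 0, 1, 1] h
  rw [fm_lam, kr_cs_evP] at h1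
  have e2 : S.sfCd (1 : ℂ) 0 1 2 = (1 : ℂ) ^ (S.m + 2) * 0 := rfl
  have e3 : S.sfCd (1 : ℂ) 0 1 3 = (1 : ℂ) ^ (S.m + 2) * 1 := rfl
  have key : ∀ x : Fin 5 → ℂ, x = S.sfCd (1 : ℂ) 0 1 →
      x 3 - RingHom.id ℂ (S.b k) * x 2 ≠ 0 := by
    rintro x rfl
    rw [e2, e3, one_pow]
    simp
  fin_cases i
  · exact key _ (kr_xs_evP_zero _ _) h1
  · exact key _ (kr_xs_evP_one _ _) h1

end LnData

end Pool.Agent.RCH
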