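import Pool.Agent.RCH.LnSw

/-!
# The ideal of the fibre square of the pencil is generated by the five equations
-/

set_option autoImplicit false

open MvPolynomial

namespace Pool.Agent.RCH

section abstract

variable {R : Type} [CommRing R]

/-- nonzerodivisors modulo `A + (ψ)` for products `ψ` -/
lemma nzd_mul {A : Ideal R} [A.IsPrime] {a ψ ψ' : R} (h : ψ ∉ A)
    (h1 : ∀ q, a * q ∈ A ⊔ Ideal.span {ψ} → q ∈ A ⊔ Ideal.span {ψ})
    (h2 : ∀ q, a * q ∈ A ⊔ Ideal.span {ψ'} → q ∈ A ⊔ Ideal.span {ψ'}) (q : R)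
    (hq : a * q ∈ A ⊔ Ideal.span {ψ * ψ'}) : q ∈ A ⊔ Ideal.span {ψ * ψ'} := by
  rw [Submodule.mem_sup] at hq
  obtain ⟨i, hi, j, hj, hij⟩ := hq
  obtain ⟨r, rfl⟩ := Ideal.mem_span_singleton'.1 hj
  have h3 : q ∈ A ⊔ Ideal.span {ψ} := by
    apply h1
    rw [← hij]
    exact Ideal.add_mem _ (Ideal.mem_sup_left hi) (Ideal.mem_sup_right
      (Ideal.mem_span_singleton'.2 ⟨r * ψ', by ring⟩))
  rw [Submodule.mem_sup] at h3
  obtain ⟨i', hi', j', hj', hij'⟩ := h3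
  obtain ⟨q', rfl⟩ := Ideal.mem_span_singleton'.1 hj'
  have h4 : ψ * (a * q' - r * ψ') ∈ A := by
    have : ψ * (a * q' - r * ψ') = i - a * i' := by
      linear_combination a * hij' - hij
    rw [this]
    exact A.sub_mem hi (A.mul_mem_left _ hi')
  have h5 : a * q' - r * ψ' ∈ A := (Ideal.IsPrime.mem_or_mem inferInstance h4).resolve_left h
  have h6 : q' ∈ A ⊔ Ideal.span {ψ'} := by
    apply h2
    have : a * q' = (a * q' - r * ψ') + r * ψ' := by ring
    rw [this]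
    exact Ideal.add_mem _ (Ideal.mem_sup_left h5) (Ideal.mem_sup_right
      (Ideal.mem_span_singleton'.2 ⟨r, rfl⟩))
  rw [Submodule.mem_sup] at h6
  obtain ⟨i2, hi2, j2, hj2, hij2⟩ := h6
  obtain ⟨q2, rfl⟩ := Ideal.mem_span_singleton'.1 hj2
  have : q = (i' + i2 * ψ) + q2 * (ψ * ψ') := by
    linear_combination -hij' - ψ * hij2
  rw [this]
  exact Ideal.add_mem _ (Ideal.mem_sup_left (A.add_mem hi' (A.mul_mem_right _ hi2)))
    (Ideal.mem_sup_right (Ideal.mem_span_singleton'.2 ⟨q2, rfl⟩))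

/-- the multiplicative set of the good `ψ` -/
def nzdSub (A : Ideal R) [hA : A.IsPrime] (a : R) : Submonoid R where
  carrier := {ψ | ψ ∉ A ∧ ∀ q, a * q ∈ A ⊔ Ideal.span {ψ} → q ∈ A ⊔ Ideal.span {ψ}}
  one_mem' := by
    refine ⟨fun h => hA.ne_top ((Ideal.eq_top_iff_one A).2 h), fun q _ => ?_⟩
    have : A ⊔ Ideal.span {(1 : R)} = ⊤ := by rw [Ideal.span_singleton_one, sup_top_eq]
    rw [this]
    exact Submodule.mem_top
  mul_mem' := by
    rintro ψ ψ' ⟨h1, h2⟩ ⟨h3, h4⟩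
    refine ⟨fun h => ?_, nzd_mul h1 h2 h4⟩
    rcases hA.mem_or_mem h with h5 | h5
    · exact h1 h5
    · exact h3 h5

lemma nzd_prime {A B : Ideal R} [hB : B.IsPrime] {a ψ : R} (hψ : A ⊔ Ideal.span {ψ} = B)
    (ha : a ∉ B) (q : R) (hq : a * q ∈ A ⊔ Ideal.span {ψ}) : q ∈ A ⊔ Ideal.span {ψ} := by
  rw [hψ] at hq ⊢
  exact (hB.mem_or_mem hq).resolve_left ha

/-- saturation of `I + (x b - a)` with respect to `x` -/
lemma sat_aux {I : Ideal R} [hI : I.IsPrime] {x a b : R} (hx : x ∉ I)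
    (h : ∀ q, a * q ∈ I ⊔ Ideal.span {x} → q ∈ I ⊔ Ideal.span {x}) {z : R}
    (hz : x * z ∈ I ⊔ Ideal.span {x * b - a}) : z ∈ I ⊔ Ideal.span {x * b - a} := by
  rw [Submodule.mem_sup] at hz
  obtain ⟨i, hi, j, hj, hij⟩ := hz
  obtain ⟨q, rfl⟩ := Ideal.mem_span_singleton'.1 hj
  have h1 : q ∈ I ⊔ Ideal.span {x} := by
    apply h
    have : a * q = i + (b * q - z) * x := by linear_combination -hij
    rw [this]
    exact Ideal.add_mem _ (Ideal.mem_sup_left hi) (Ideal.mem_sup_right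
      (Ideal.mem_span_singleton'.2 ⟨_, rfl⟩))
  rw [Submodule.mem_sup] at h1
  obtain ⟨i', hi', j', hj', hij'⟩ := h1
  obtain ⟨q', rfl⟩ := Ideal.mem_span_singleton'.1 hj'
  have h2 : x * (z - q' * (x * b - a)) ∈ I := by
    have : x * (z - q' * (x * b - a)) = i + i' * (x * b - a) := by
      linear_combination -hij - (x * b - a) * hij'
    rw [this]
    exact I.add_mem hi (I.mul_mem_right _ hi')
  have h3 := (hI.mem_or_mem h2).resolve_left hx
  have : z = (z - q' * (x * b - a)) + q' * (x * b - a) := by ring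
  rw [this]
  exact Ideal.add_mem _ (Ideal.mem_sup_left h3) (Ideal.mem_sup_right
    (Ideal.mem_span_singleton'.2 ⟨q', rfl⟩))

end abstract

namespace LnData

variable (S : LnData)

attribute [local instance] Pt.prime

/-! ### The case in which `x_1` and `y_1` are units -/

lemma kill_U0 {L : Type} [CommRing L] (φ : Coord (Fin 5) 2 →+* L)
    (h12 : xs φ 0 1 * xs φ 1 2 = xs φ 1 1 * xs φ 0 2) (h4 : xs φ 0 4 = 0) (h4' : xs φ 1 4 = 0)
    (hF : S.F0v (cs φ) (xs φ 0) = 0) (hF' : S.F0v (cs φ) (xs φ 1) = 0)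
    (hu : IsUnit (xs φ 0 1)) (hu' : IsUnit (xs φ 1 1))
    {z : Coord (Fin 5) 2} (hz : z ∈ S.pU.I) : φ z = 0 := by
  obtain ⟨u, hu⟩ := hu
  obtain ⟨v, hv⟩ := hu'
  set c := cs φ with hc
  -- the third coordinate of the second point over that of the first
  set z' : L := xs φ 1 3 * (u : L) * (↑v⁻¹ : L) with hz'
  let γ : K4 →+* L := eval₂Hom c ![(u : L), xs φ 0 2, xs φ 0 3, z']
  have γC : ∀ a, γ (algebraMap ℂ K4 a) = c a := by
    intro a
    simp [γ, MvPolynomial.algebraMap_eq]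
  have γ0 : γ (MvPolynomial.X 0) = u := by simp [γ]
  have γ1 : γ (MvPolynomial.X 1) = xs φ 0 2 := by simp [γ]
  have γ2 : γ (MvPolynomial.X 2) = xs φ 0 3 := by simp [γ]
  have γ3 : γ (MvPolynomial.X 3) = z' := by simp [γ]
  have γcomp : γ.comp (algebraMap ℂ K4) = c := RingHom.ext γC
  have huu := Units.mul_inv u
  have hvv := Units.mul_inv v
  have hpow : ∀ n : ℕ, (u : L) ^ n * (↑u⁻¹ : L) ^ n = 1 := by
    intro n
    rw [← mul_pow, huu, one_pow]
  have key : ∀ w : K4, ∀ wv : L, γ w = wv → ∀ j : Fin 5,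
      γ (S.sfCd (MvPolynomial.X 0) (MvPolynomial.X 1) w j) =
        (![-(S.phv c (xs φ 0 2) wv + u * S.gv c u (xs φ 0 2) wv), (u : L) ^ (S.m + 3),
          (u : L) ^ (S.m + 2) * xs φ 0 2, (u : L) ^ (S.m + 2) * wv, 0] : Fin 5 → L) j := by
    intro w wv hw j
    fin_cases j
    · show γ (-(S.phv (algebraMap ℂ K4) (MvPolynomial.X 1) w +
        MvPolynomial.X 0 * S.gv (algebraMap ℂ K4) (MvPolynomial.X 0) (MvPolynomial.X 1) w)) =
        -(S.phv c (xs φ 0 2) wv + u * S.gv c u (xs φ 0 2) wv)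
      rw [map_neg, map_add, map_mul, map_phv, map_gv, γcomp, γ0, γ1, hw]
    · show γ (MvPolynomial.X 0 ^ (S.m + 3)) = (u : L) ^ (S.m + 3)
      rw [map_pow, γ0]
    · show γ (MvPolynomial.X 0 ^ (S.m + 2) * MvPolynomial.X 1) = (u : L) ^ (S.m + 2) * xs φ 0 2
      rw [map_mul, map_pow, γ0, γ1]
    · show γ (MvPolynomial.X 0 ^ (S.m + 2) * w) = (u : L) ^ (S.m + 2) * wv
      rw [map_mul, map_pow, γ0, hw]
    · exact map_zero γ
  have hu1 : xs φ 0 1 = u := hu.symm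
  have hv1 : xs φ 1 1 = v := hv.symm
  -- the equations
  rw [F0v, hu1] at hF
  rw [F0v, hv1] at hF'
  refine genIdeal_lift S.V _ φ γ ![(↑u⁻¹ : L) ^ (S.m + 2), v * (↑u⁻¹ : L) ^ (S.m + 3)] ?_ ?_ hz
  · intro a
    rw [γC]
    rfl
  · rintro ⟨i, j⟩
    rw [wt_V, pow_one]
    fin_cases i
    · show xs φ 0 j = γ (S.sfCd (MvPolynomial.X 0) (MvPolynomial.X 1) (MvPolynomial.X 2) j) *
        (↑u⁻¹ : L) ^ (S.m + 2)
      rw [key _ _ γ2]
      have h1 := hpow (S.m + 2)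
      fin_cases j
      · show xs φ 0 0 = -(S.phv c (xs φ 0 2) (xs φ 0 3) + u * S.gv c u (xs φ 0 2) (xs φ 0 3)) *
          (↑u⁻¹ : L) ^ (S.m + 2)
        linear_combination (-xs φ 0 0) * h1 + (↑u⁻¹ : L) ^ (S.m + 2) * hF
      · show xs φ 0 1 = (u : L) ^ (S.m + 3) * (↑u⁻¹ : L) ^ (S.m + 2)
        rw [hu1]
        have h2 : (u : L) ^ (S.m + 3) = (u : L) ^ (S.m + 2) * u := pow_succ _ _
        rw [h2]
        linear_combination (-(u : L)) * h1
      · show xs φ 0 2 = (u : L) ^ (S.m + 2) * xs φ 0 2 * (↑u⁻¹ : L) ^ (S.m + 2)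
        linear_combination (-xs φ 0 2) * h1
      · show xs φ 0 3 = (u : L) ^ (S.m + 2) * xs φ 0 3 * (↑u⁻¹ : L) ^ (S.m + 2)
        linear_combination (-xs φ 0 3) * h1
      · show xs φ 0 4 = 0 * _
        rw [h4, zero_mul]
    · show xs φ 1 j = γ (S.sfCd (MvPolynomial.X 0) (MvPolynomial.X 1) (MvPolynomial.X 3) j) *
        (v * (↑u⁻¹ : L) ^ (S.m + 3))
      rw [key _ _ γ3]
      have h1 := hpow (S.m + 2)
      have h3 := hpow (S.m + 3)
      have hp2 : (u : L) ^ (S.m + 2) * (↑u⁻¹ : L) ^ (S.m + 3) = ↑u⁻¹ := by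
        have h5 : (↑u⁻¹ : L) ^ (S.m + 3) = (↑u⁻¹ : L) ^ (S.m + 2) * ↑u⁻¹ := pow_succ _ _
        rw [h5]
        linear_combination (↑u⁻¹ : L) * h1
      fin_cases j
      · show xs φ 1 0 = -(S.phv c (xs φ 0 2) z' + u * S.gv c u (xs φ 0 2) z') *
          (v * (↑u⁻¹ : L) ^ (S.m + 3))
        -- `y = κ (x_1, x_2, z')` with `κ = v / u`
        set κ : L := v * (↑u⁻¹ : L) with hκ
        have e1 : (v : L) = κ * u := by
          rw [hκ]
          linear_combination (-(v : L)) * huu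
        have e2 : xs φ 1 2 = κ * xs φ 0 2 := by
          have h6 : (u : L) * xs φ 1 2 = v * xs φ 0 2 := by
            rw [← hu1, ← hv1]
            exact h12
          rw [hκ]
          linear_combination (↑u⁻¹ : L) * h6 - xs φ 1 2 * huu
        have e3 : xs φ 1 3 = κ * z' := by
          rw [hκ, hz']
          linear_combination (-(xs φ 1 3)) * huu - (xs φ 1 3 * (u : L) * ↑u⁻¹) * hvv
        have e4 : S.phv c (xs φ 1 2) (xs φ 1 3) + v * S.gv c v (xs φ 1 2) (xs φ 1 3) =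
            κ ^ (S.m + 3) * (S.phv c (xs φ 0 2) z' + u * S.gv c u (xs φ 0 2) z') := by
          rw [e2, e3, phv_smul]
          have e5 : S.gv c v (κ * xs φ 0 2) (κ * z') =
              κ ^ (S.m + 2) * S.gv c u (xs φ 0 2) z' := by
            rw [← gv_smul, ← e1]
          rw [e5, e1]
          ring
        have hF2 : xs φ 1 0 * (v : L) ^ (S.m + 2) =
            -(κ ^ (S.m + 3) * (S.phv c (xs φ 0 2) z' + u * S.gv c u (xs φ 0 2) z')) := by
          rw [← e4]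
          linear_combination hF'
        have hvp : (v : L) ^ (S.m + 2) * (↑v⁻¹ : L) ^ (S.m + 2) = 1 := by
          rw [← mul_pow, hvv, one_pow]
        have hκp : κ ^ (S.m + 3) * (↑v⁻¹ : L) ^ (S.m + 2) = v * (↑u⁻¹ : L) ^ (S.m + 3) := by
          rw [hκ, mul_pow]
          have h7 : (v : L) ^ (S.m + 3) = (v : L) ^ (S.m + 2) * v := pow_succ _ _
          rw [h7]
          linear_combination (v * (↑u⁻¹ : L) ^ (S.m + 3)) * hvp
        linear_combination (↑v⁻¹ : L) ^ (S.m + 2) * hF2 - xs φ 1 0 * hvp -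
          (S.phv c (xs φ 0 2) z' + u * S.gv c u (xs φ 0 2) z') * hκp
      · show xs φ 1 1 = (u : L) ^ (S.m + 3) * (v * (↑u⁻¹ : L) ^ (S.m + 3))
        rw [hv1]
        linear_combination (-(v : L)) * h3
      · show xs φ 1 2 = (u : L) ^ (S.m + 2) * xs φ 0 2 * (v * (↑u⁻¹ : L) ^ (S.m + 3))
        have h6 : (u : L) * xs φ 1 2 = v * xs φ 0 2 := by
          rw [← hu1, ← hv1]
          exact h12
        linear_combination (↑u⁻¹ : L) * h6 - xs φ 1 2 * huu - (v * xs φ 0 2) * hp2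
      · show xs φ 1 3 = (u : L) ^ (S.m + 2) * z' * (v * (↑u⁻¹ : L) ^ (S.m + 3))
        have h7 : xs φ 1 3 = z' * v * ↑u⁻¹ := by
          rw [hz']
          linear_combination (-(xs φ 1 3)) * huu - (xs φ 1 3 * (u : L) * ↑u⁻¹) * hvv
        linear_combination h7 - (z' * v) * hp2
      · show xs φ 1 4 = 0 * _
        rw [h4', zero_mul]

/-! ### The auxiliary prime `x_1 = x_4 = 0`, `y` on the surface -/

/-- the coordinates of the auxiliary point -/
noncomputable def dAX : Fin 2 × Fin 5 → MvPolynomial (Fin 3) S.RY :=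
  pair ![MvPolynomial.X 0, 0, MvPolynomial.X 1, MvPolynomial.X 2, 0] (fun j => C (S.ptY j))

/-- the auxiliary prime -/
noncomputable def AX' : Ideal (Coord (Fin 5) 2) := genIdeal S.V S.dAX

instance : (S.AX').IsPrime := genIdeal_prime S.V S.dAX

lemma kill_AX {L : Type} [CommRing L] (φ : Coord (Fin 5) 2 →+* L) (h1 : xs φ 0 1 = 0)
    (h4 : xs φ 0 4 = 0) (h4' : xs φ 1 4 = 0) (hF' : S.F0v (cs φ) (xs φ 1) = 0)
    {z : Coord (Fin 5) 2} (hz : z ∈ S.AX') : φ z = 0 := by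
  obtain ⟨γ, hγ1, hγ2⟩ := S.exists_liftY (cs φ) (xs φ 1) h4' hF'
  refine genIdeal_lift S.V S.dAX φ (eval₂Hom γ ![xs φ 0 0, xs φ 0 2, xs φ 0 3]) (fun _ => 1)
    ?_ ?_ hz
  · intro a
    have h : algebraMap ℂ (MvPolynomial (Fin 3) S.RY) a = C (algebraMap ℂ S.RY a) := rfl
    rw [h, eval₂Hom_C, hγ1]
    rfl
  · rintro ⟨i, j⟩
    rw [one_pow, mul_one]
    fin_cases i
    · fin_cases j
      · exact (by simp : xs φ 0 0 = eval₂Hom γ ![xs φ 0 0, xs φ 0 2, xs φ 0 3]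
          (MvPolynomial.X 0))
      · exact h1.trans (map_zero _).symm
      · exact (by simp : xs φ 0 2 = eval₂Hom γ ![xs φ 0 0, xs φ 0 2, xs φ 0 3]
          (MvPolynomial.X 1))
      · exact (by simp : xs φ 0 3 = eval₂Hom γ ![xs φ 0 0, xs φ 0 2, xs φ 0 3]
          (MvPolynomial.X 2))
      · exact h4.trans (map_zero _).symm
    · refine Eq.trans ?_ (eval₂Hom_C γ _ (S.ptY j)).symm
      exact (hγ2 j).symm

lemma FX_mem_genIdeal {N : ℕ} {D : Type} [CommRing D] [Algebra ℂ D] (d : Fin N × Fin 5 → D)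
    (i : Fin N) (h : S.Fv (algebraMap ℂ D) (fun j => d (i, j)) = 0) :
    S.FX N i ∈ genIdeal S.V d := by
  have hw : IsWeightedHomogeneous S.V.wt S.F (S.m + 3) := S.isHomogeneous_F
  rw [FX, mem_genIdeal_of_homogeneous S.V d (inFactor_homogeneous S.V i hw), inFactor_aeval]
  have h1 : aeval (fun j => d (i, j)) S.F = eval₂Hom (algebraMap ℂ D) (fun j => d (i, j)) S.F := rfl
  rw [h1, eval₂_F, h]

/-- the linear form of the `k`-th line -/
noncomputable def lamq (k : Fin S.t) : Coord (Fin 5) 2 :=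
  MvPolynomial.X (0, 3) - C (S.b k) * MvPolynomial.X (0, 2)

/-- the product of the linear forms -/
noncomputable def psi : Coord (Fin 5) 2 := ∏ k, S.lamq k ^ S.a k

lemma map_lamq {L : Type} [CommRing L] (φ : Coord (Fin 5) 2 →+* L) (k : Fin S.t) :
    φ (S.lamq k) = xs φ 0 3 - cs φ (S.b k) * xs φ 0 2 := by
  rw [lamq, map_sub, map_mul]
  rfl

lemma map_psi {L : Type} [CommRing L] (φ : Coord (Fin 5) 2 →+* L) :
    φ S.psi = S.phv (cs φ) (xs φ 0 2) (xs φ 0 3) := by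
  rw [psi, map_prod, phv]
  refine Finset.prod_congr rfl fun k _ => ?_
  rw [map_pow, map_lamq]

/-- the product of the surface with itself -/
noncomputable abbrev I2 : Ideal (Coord (Fin 5) 2) := (S.pB S.pY S.pY).I

lemma AX_X1 : (MvPolynomial.X (0, 1) : Coord (Fin 5) 2) ∈ S.AX' :=
  (X_mem_genIdeal S.V S.dAX (0, 1)).2 rfl

lemma AX_X4 : (MvPolynomial.X (0, 4) : Coord (Fin 5) 2) ∈ S.AX' :=
  (X_mem_genIdeal S.V S.dAX (0, 4)).2 rfl

lemma AX_Y4 : (MvPolynomial.X (1, 4) : Coord (Fin 5) 2) ∈ S.AX' :=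
  (X_mem_genIdeal S.V S.dAX (1, 4)).2 (by
    show C (S.ptY 4) = 0
    have : S.ptY 4 = 0 := rfl
    rw [this, map_zero])

lemma AX_F : S.FX 2 1 ∈ S.AX' := by
  refine S.FX_mem_genIdeal S.dAX 1 ?_
  have h := S.map_Fv (L' := MvPolynomial (Fin 3) S.RY) (algebraMap ℂ S.RY) C S.ptY
  rw [Fv_ptY, map_zero] at h
  exact h.symm

/-- a homomorphism killing an ideal which contains the equations of the second point -/
lemma F0v_of_mem {L : Type} [CommRing L] (φ : Coord (Fin 5) 2 →+* L) (i : Fin 2)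
    (h4 : xs φ i 4 = 0) (hF : φ (S.FX 2 i) = 0) : S.F0v (cs φ) (xs φ i) = 0 := by
  rw [map_FX, Fv, h4, zero_mul, add_zero] at hF
  exact hF

lemma mk_zero {I : Ideal (Coord (Fin 5) 2)} {z : Coord (Fin 5) 2} (hz : z ∈ I) :
    Ideal.Quotient.mk I z = 0 := Ideal.Quotient.eq_zero_iff_mem.2 hz

lemma I2_X4 : (MvPolynomial.X (0, 4) : Coord (Fin 5) 2) ∈ S.I2 := S.X0_mem_pB _ _ S.pY_X4

lemma I2_Y4 : (MvPolynomial.X (1, 4) : Coord (Fin 5) 2) ∈ S.I2 := S.X1_mem_pB _ _ S.pY_X4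

/-- a homomorphism killing the equations of both points kills the product of the surfaces -/
lemma kill_I2 {L : Type} [CommRing L] (φ : Coord (Fin 5) 2 →+* L) (h4 : xs φ 0 4 = 0)
    (h4' : xs φ 1 4 = 0) (hF : S.F0v (cs φ) (xs φ 0) = 0) (hF' : S.F0v (cs φ) (xs φ 1) = 0)
    {z : Coord (Fin 5) 2} (hz : z ∈ S.I2) : φ z = 0 := by
  refine S.kill_pB φ S.pY S.pY ?_ ?_ hz
  · intro x hx
    refine S.kill_pY (φ.comp (prH 0)) ?_ ?_ hx
    · rw [xs_comp_prH]; exact h4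
    · rw [xs_comp_prH, cs_comp_prH]; exact hF
  · intro x hx
    refine S.kill_pY (φ.comp (prH 1)) ?_ ?_ hx
    · rw [xs_comp_prH]; exact h4'
    · rw [xs_comp_prH, cs_comp_prH]; exact hF'

lemma sup_I2 : S.I2 ⊔ Ideal.span {(MvPolynomial.X (0, 1) : Coord (Fin 5) 2)} =
    S.AX' ⊔ Ideal.span {S.psi} := by
  apply le_antisymm
  · rw [sup_le_iff, Ideal.span_le, Set.singleton_subset_iff]
    refine ⟨fun z hz => ?_, Ideal.mem_sup_left S.AX_X1⟩
    rw [← Ideal.Quotient.eq_zero_iff_mem]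
    have e1 := mk_zero (Ideal.mem_sup_left (T := Ideal.span {S.psi}) S.AX_X1)
    have e4 := mk_zero (Ideal.mem_sup_left (T := Ideal.span {S.psi}) S.AX_X4)
    have e4' := mk_zero (Ideal.mem_sup_left (T := Ideal.span {S.psi}) S.AX_Y4)
    have eF := mk_zero (Ideal.mem_sup_left (T := Ideal.span {S.psi}) S.AX_F)
    have eψ := mk_zero (Ideal.mem_sup_right (S := S.AX') (Ideal.mem_span_singleton_self S.psi))
    refine S.kill_I2 _ e4 e4' ?_ (S.F0v_of_mem _ 1 e4' eF) hz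
    rw [map_psi] at eψ
    have e1' : xs (Ideal.Quotient.mk (S.AX' ⊔ Ideal.span {S.psi})) 0 1 = 0 := e1
    rw [F0v, eψ, e1', zero_pow (by omega)]
    ring
  · rw [sup_le_iff, Ideal.span_le, Set.singleton_subset_iff]
    have e1 := mk_zero (Ideal.mem_sup_right (S := S.I2)
      (Ideal.mem_span_singleton_self (MvPolynomial.X (0, 1) : Coord (Fin 5) 2)))
    have e4 := mk_zero (Ideal.mem_sup_left
      (T := Ideal.span {(MvPolynomial.X (0, 1) : Coord (Fin 5) 2)}) S.I2_X4)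
    have e4' := mk_zero (Ideal.mem_sup_left
      (T := Ideal.span {(MvPolynomial.X (0, 1) : Coord (Fin 5) 2)}) S.I2_Y4)
    have eF := mk_zero (Ideal.mem_sup_left
      (T := Ideal.span {(MvPolynomial.X (0, 1) : Coord (Fin 5) 2)}) (S.FX_mem (S.pB S.pY S.pY) 0))
    have eF' := mk_zero (Ideal.mem_sup_left
      (T := Ideal.span {(MvPolynomial.X (0, 1) : Coord (Fin 5) 2)}) (S.FX_mem (S.pB S.pY S.pY) 1))
    constructor
    · intro z hz
      rw [← Ideal.Quotient.eq_zero_iff_mem]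
      exact S.kill_AX _ e1 e4 e4' (S.F0v_of_mem _ 1 e4' eF') hz
    · rw [SetLike.mem_coe, ← Ideal.Quotient.eq_zero_iff_mem, map_psi]
      have h := S.F0v_of_mem _ 0 e4 eF
      have e1' : xs (Ideal.Quotient.mk (S.I2 ⊔ Ideal.span
        {(MvPolynomial.X (0, 1) : Coord (Fin 5) 2)})) 0 1 = 0 := e1
      rw [F0v, e1', zero_pow (by omega)] at h
      linear_combination h

lemma lamq_mem (k : Fin S.t) : S.lamq k ∈ (S.pB (S.pl k) S.pY).I := by
  have h : (MvPolynomial.X (0, 3) - C (S.b k) * MvPolynomial.X (0, 2) : Coord (Fin 5) 1) ∈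
      (S.pl k).I := by
    show genHom S.V _ _ = 0
    simp [genHom, lineCd]
    ring
  have h1 := S.prH_zero_mem (S.pl k) S.pY h
  have h2 : prH 0 (MvPolynomial.X (0, 3) - C (S.b k) * MvPolynomial.X (0, 2) : Coord (Fin 5) 1) =
      S.lamq k := by
    rw [map_sub, map_mul, prH_X, prH_X]
    simp [prH, lamq]
  rwa [h2] at h1

lemma sup_line (k : Fin S.t) : S.AX' ⊔ Ideal.span {S.lamq k} = (S.pB (S.pl k) S.pY).I := by
  apply le_antisymm
  · rw [sup_le_iff, Ideal.span_le, Set.singleton_subset_iff]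
    refine ⟨fun z hz => ?_, S.lamq_mem k⟩
    rw [← Ideal.Quotient.eq_zero_iff_mem]
    have e1 := mk_zero (S.X0_mem_pB (S.pl k) S.pY (j := 1)
      ((X_mem_genIdeal S.V _ (0, 1)).2 rfl))
    have e4 := mk_zero (S.X0_mem_pB (S.pl k) S.pY (j := 4)
      ((X_mem_genIdeal S.V _ (0, 4)).2 rfl))
    have e4' := mk_zero (S.X1_mem_pB (S.pl k) S.pY S.pY_X4)
    have eF' := mk_zero (S.FX_mem (S.pB (S.pl k) S.pY) 1)
    exact S.kill_AX _ e1 e4 e4' (S.F0v_of_mem _ 1 e4' eF') hz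
  · intro z hz
    rw [← Ideal.Quotient.eq_zero_iff_mem]
    have e1 := mk_zero (Ideal.mem_sup_left (T := Ideal.span {S.lamq k}) S.AX_X1)
    have e4 := mk_zero (Ideal.mem_sup_left (T := Ideal.span {S.lamq k}) S.AX_X4)
    have e4' := mk_zero (Ideal.mem_sup_left (T := Ideal.span {S.lamq k}) S.AX_Y4)
    have eF := mk_zero (Ideal.mem_sup_left (T := Ideal.span {S.lamq k}) S.AX_F)
    have el := mk_zero (Ideal.mem_sup_right (S := S.AX')
      (Ideal.mem_span_singleton_self (S.lamq k)))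
    refine S.kill_pB _ (S.pl k) S.pY ?_ ?_ hz
    · intro x hx
      refine S.kill_pl ((Ideal.Quotient.mk _).comp (prH 0)) k ?_ ?_ ?_ hx
      · rw [xs_comp_prH]; exact e1
      · rw [xs_comp_prH, cs_comp_prH]
        rw [map_lamq, sub_eq_zero] at el
        exact el
      · rw [xs_comp_prH]; exact e4
    · intro x hx
      refine S.kill_pY ((Ideal.Quotient.mk _).comp (prH 1)) ?_ ?_ hx
      · rw [xs_comp_prH]; exact e4'
      · rw [xs_comp_prH, cs_comp_prH]; exact S.F0v_of_mem _ 1 e4' eF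

/-- the element `y_1 x_2` -/
noncomputable def aq : Coord (Fin 5) 2 := MvPolynomial.X (1, 1) * MvPolynomial.X (0, 2)

lemma aq_notMem (k : Fin S.t) : aq ∉ (S.pB (S.pl k) S.pY).I := by
  intro h
  have h1 : evP (S.lineCd k 0 1) S.ptY aq = 0 := by
    refine S.kill_pB _ (S.pl k) S.pY ?_ ?_ h
    · intro x hx
      refine S.kill_pl ((evP (S.lineCd k 0 1) S.ptY).comp (prH 0)) k ?_ ?_ ?_ hx
      · rw [xs_comp_prH, xs_evP_zero]; rfl
      · rw [xs_comp_prH, cs_comp_prH, xs_evP_zero, cs_evP]; rfl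
      · rw [xs_comp_prH, xs_evP_zero]; rfl
    · intro x hx
      refine S.kill_pY ((evP (S.lineCd k 0 1) S.ptY).comp (prH 1)) ?_ ?_ hx
      · rw [xs_comp_prH, xs_evP_one]; rfl
      · rw [xs_comp_prH, cs_comp_prH, xs_evP_one, cs_evP]; exact S.F0v_ptY
  rw [aq, map_mul] at h1
  have h2 : evP (S.lineCd k 0 1) S.ptY (MvPolynomial.X (1, 1)) = S.ptY 1 :=
    congrFun (xs_evP_one (S.lineCd k 0 1) S.ptY) 1
  have h3 : evP (S.lineCd k 0 1) S.ptY (MvPolynomial.X (0, 2)) = 1 :=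
    congrFun (xs_evP_zero (S.lineCd k 0 1) S.ptY) 2
  rw [h2, h3, mul_one] at h1
  exact S.ptY_ne h1

lemma lamq_notMem (k : Fin S.t) : S.lamq k ∉ S.AX' := by
  intro h
  have h1 := S.kill_AX (evP ![0, 0, 0, 1, 0] S.ptY) (by rw [xs_evP_zero]; rfl)
    (by rw [xs_evP_zero]; rfl) (by rw [xs_evP_one]; rfl)
    (by rw [xs_evP_one, cs_evP]; exact S.F0v_ptY) h
  rw [map_lamq, xs_evP_zero, cs_evP] at h1
  have h2 : (![0, 0, 0, 1, 0] : Fin 5 → S.RY) 3 = 1 := rfl
  have h3 : (![0, 0, 0, 1, 0] : Fin 5 → S.RY) 2 = 0 := rfl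
  rw [h2, h3, mul_zero, sub_zero] at h1
  exact one_ne_zero h1

lemma psi_nzd : S.psi ∈ nzdSub S.AX' aq := by
  refine Submonoid.prod_mem _ fun k _ => Submonoid.pow_mem _ ?_ _
  exact ⟨S.lamq_notMem k, nzd_prime (S.sup_line k) (S.aq_notMem k)⟩

lemma I2_X1 : (MvPolynomial.X (0, 1) : Coord (Fin 5) 2) ∉ S.I2 := by
  intro h
  have h1 := S.kill_I2 (evP S.ptY S.ptY) (by rw [xs_evP_zero]; rfl) (by rw [xs_evP_one]; rfl)
    (by rw [xs_evP_zero, cs_evP]; exact S.F0v_ptY) (by rw [xs_evP_one, cs_evP]; exact S.F0v_ptY) h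
  have h2 : evP S.ptY S.ptY (MvPolynomial.X (0, 1)) = S.ptY 1 :=
    congrFun (xs_evP_zero S.ptY S.ptY) 1
  rw [h2] at h1
  exact S.ptY_ne h1

/-- the ideal of the five equations -/
noncomputable def JU : Ideal (Coord (Fin 5) 2) := S.I2 ⊔ Ideal.span {mn 1 2}

lemma sat_X1 {z : Coord (Fin 5) 2} (hz : MvPolynomial.X (0, 1) * z ∈ S.JU) : z ∈ S.JU := by
  have h := sat_aux (I := S.I2) (x := MvPolynomial.X (0, 1)) (a := aq)
    (b := MvPolynomial.X (1, 2)) S.I2_X1 (fun q hq => by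
      rw [S.sup_I2] at hq ⊢
      exact S.psi_nzd.2 q hq) (z := z)
  exact h hz

lemma sw_mem_JU {z : Coord (Fin 5) 2} (hz : z ∈ S.JU) : sw z ∈ S.JU := by
  have h : S.JU ≤ Ideal.comap (sw : Coord (Fin 5) 2 →+* _) S.JU := by
    rw [JU, sup_le_iff, Ideal.span_le, Set.singleton_subset_iff]
    constructor
    · intro x hx
      exact Ideal.mem_sup_left (S.sw_mem_pB _ _ hx)
    · show sw (mn 1 2) ∈ S.I2 ⊔ Ideal.span {mn 1 2}
      rw [sw_mn]
      exact neg_mem (Ideal.mem_sup_right (Ideal.mem_span_singleton_self _))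
  exact h hz

lemma sat_Y1 {z : Coord (Fin 5) 2} (hz : MvPolynomial.X (1, 1) * z ∈ S.JU) : z ∈ S.JU := by
  have h := S.sw_mem_JU hz
  rw [map_mul, sw_X1] at h
  have h1 := S.sw_mem_JU (S.sat_X1 h)
  rwa [sw_sw] at h1

lemma sat_pow {z : Coord (Fin 5) 2} (n : ℕ)
    (hz : (MvPolynomial.X (0, 1) * MvPolynomial.X (1, 1)) ^ n * z ∈ S.JU) : z ∈ S.JU := by
  induction n with
  | zero => simpa using hz
  | succ n ih =>
    apply ih
    apply S.sat_X1
    apply S.sat_Y1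
    have : MvPolynomial.X (1, 1) * (MvPolynomial.X (0, 1) *
        ((MvPolynomial.X (0, 1) * MvPolynomial.X (1, 1)) ^ n * z)) =
        (MvPolynomial.X (0, 1) * MvPolynomial.X (1, 1)) ^ (n + 1) * z := by
      rw [pow_succ]
      ring
    rwa [this]

/-- the ideal of the fibre square is generated by the equations -/
lemma pU_le : S.pU.I ≤ S.JU := by
  intro z hz
  let r : Coord (Fin 5) 2 ⧸ S.JU :=
    Ideal.Quotient.mk S.JU (MvPolynomial.X (0, 1) * MvPolynomial.X (1, 1))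
  let φ : Coord (Fin 5) 2 →+* Localization.Away r :=
    (algebraMap _ (Localization.Away r)).comp (Ideal.Quotient.mk S.JU)
  have hJ : ∀ x ∈ S.JU, φ x = 0 := by
    intro x hx
    show algebraMap _ (Localization.Away r) (Ideal.Quotient.mk S.JU x) = 0
    rw [Ideal.Quotient.eq_zero_iff_mem.2 hx, map_zero]
  have hr : IsUnit (xs φ 0 1 * xs φ 1 1) := by
    have h := IsLocalization.Away.algebraMap_isUnit (S := Localization.Away r) r
    have h2 : algebraMap _ (Localization.Away r) r = xs φ 0 1 * xs φ 1 1 := by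
      show φ (MvPolynomial.X (0, 1) * MvPolynomial.X (1, 1)) = _
      rw [map_mul]
      rfl
    rwa [h2] at h
  have e4 : xs φ 0 4 = 0 := hJ _ (Ideal.mem_sup_left S.I2_X4)
  have e4' : xs φ 1 4 = 0 := hJ _ (Ideal.mem_sup_left S.I2_Y4)
  have h12 : xs φ 0 1 * xs φ 1 2 = xs φ 1 1 * xs φ 0 2 := by
    have h := hJ _ (Ideal.mem_sup_right (S := S.I2) (Ideal.mem_span_singleton_self (mn 1 2)))
    rw [mn, map_sub, map_mul, map_mul, sub_eq_zero] at h
    exact h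
  have h0 : φ z = 0 := S.kill_U0 φ h12 e4 e4'
    (S.F0v_of_mem φ 0 e4 (hJ _ (Ideal.mem_sup_left (S.FX_mem (S.pB S.pY S.pY) 0))))
    (S.F0v_of_mem φ 1 e4' (hJ _ (Ideal.mem_sup_left (S.FX_mem (S.pB S.pY S.pY) 1))))
    (isUnit_of_mul_isUnit_left hr) (isUnit_of_mul_isUnit_right hr) hz
  have h1 : algebraMap _ (Localization.Away r) (Ideal.Quotient.mk S.JU z) = 0 := h0
  rw [IsLocalization.map_eq_zero_iff (Submonoid.powers r)] at h1
  obtain ⟨⟨_, n, rfl⟩, hn⟩ := h1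
  apply S.sat_pow n
  rw [← Ideal.Quotient.eq_zero_iff_mem, map_mul, map_pow]
  exact hn

/-- **Row UNZ** -/
lemma kill_U {L : Type} [CommRing L] (φ : Coord (Fin 5) 2 →+* L)
    (h12 : xs φ 0 1 * xs φ 1 2 = xs φ 1 1 * xs φ 0 2) (h4 : xs φ 0 4 = 0) (h4' : xs φ 1 4 = 0)
    (hF : S.F0v (cs φ) (xs φ 0) = 0) (hF' : S.F0v (cs φ) (xs φ 1) = 0)
    {z : Coord (Fin 5) 2} (hz : z ∈ S.pU.I) : φ z = 0 := by
  have h : S.JU ≤ RingHom.ker φ := by
    rw [JU, sup_le_iff, Ideal.span_le, Set.singleton_subset_iff]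
    refine ⟨fun x hx => S.kill_I2 φ h4 h4' hF hF' hx, ?_⟩
    rw [SetLike.mem_coe, RingHom.mem_ker, mn, map_sub, map_mul, map_mul, sub_eq_zero]
    exact h12
  exact h (S.pU_le hz)

end LnData

end Pool.Agent.RCH
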