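import Pool.Agent.RCH.LnXY
import Pool.Agent.RCH.LnUNZ
import Pool.Agent.RCH.LnNU

/-!
# The order at the diagonal on the fibre square of the pencil
-/

set_option autoImplicit false

open MvPolynomial

namespace Pool.Agent.RCH

attribute [local instance] Pt.prime

namespace LnData

variable (S : LnData)

lemma pU_le_diag {D : Type} [CommRing D] [Algebra ℂ D] (e : Fin 5 → D) (h4 : e 4 = 0)
    (h : S.F0v (algebraMap ℂ D) e = 0) :
    S.pU.I ≤ genIdeal S.V (fun v : Fin 2 × Fin 5 => e v.2) := by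
  intro z hz
  let φ : Coord (Fin 5) 2 →+* MvPolynomial (Fin 2) D :=
    RingHomClass.toRingHom (genHom S.V (fun v : Fin 2 × Fin 5 => e v.2))
  have hx : ∀ (i : Fin 2) (j : Fin 5),
      xs φ i j = (C (e j) * MvPolynomial.X i : MvPolynomial (Fin 2) D) :=
    fun i j => S.genHom_two e (i, j)
  have hF : ∀ i : Fin 2, S.F0v (cs φ) (xs φ i) = (0 : MvPolynomial (Fin 2) D) := by
    intro i
    have h1 : xs φ i = fun j => (MvPolynomial.X i * C (e j) : MvPolynomial (Fin 2) D) := by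
      funext j
      rw [hx, mul_comm]
    rw [h1, F0v_smul]
    have h2 := S.map_F0v (algebraMap ℂ D) (C : D →+* MvPolynomial (Fin 2) D) e
    rw [h, map_zero] at h2
    have h3 : (C : D →+* MvPolynomial (Fin 2) D).comp (algebraMap ℂ D) = cs φ := by
      refine RingHom.ext fun a => ?_
      exact ((genHom S.V (fun v : Fin 2 × Fin 5 => e v.2)).commutes a).symm
    rw [h3] at h2
    rw [← h2, mul_zero]
  have hz0 : φ z = 0 := by
    refine S.kill_U φ ?_ ?_ ?_ (hF 0) (hF 1) hz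
    · rw [hx, hx, hx, hx]
      ring
    · rw [hx, h4, C_0, zero_mul]
    · rw [hx, h4, C_0, zero_mul]
  exact hz0

lemma pU_le_pYD : S.pU.I ≤ S.pYD.I := S.pU_le_diag S.ptY rfl S.F0v_ptY

lemma unif_UD {z : Coord (Fin 5) 2} (hz : z ∈ S.pYD.I) : ∃ s, s ∉ S.pYD.I ∧
    s * z ∈ S.pU.I ⊔ Ideal.span {mn 3 1} := by
  refine exists_of_toLocMod_eq_zero ?_
  set J := S.pU.I ⊔ Ideal.span {mn 3 1} with hJ
  set φ := toLocMod J S.pYD.I with hφ
  have hU : ∀ w ∈ S.pU.I, φ w = 0 := fun w hw => toLocMod_eq_zero_of_mem (Ideal.mem_sup_left hw)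
  obtain ⟨u, hu⟩ := isUnit_toLocMod (J := J) (S.X_pYD 0 1 (by decide))
  obtain ⟨u', hu'⟩ := isUnit_toLocMod (J := J) (S.X_pYD 1 1 (by decide))
  have hu0 : (u : LocMod J S.pYD.I) = xs φ 0 1 := hu
  have hu1 : (u' : LocMod J S.pYD.I) = xs φ 1 1 := hu'
  have hinv : (u : LocMod J S.pYD.I) * (↑u⁻¹ : LocMod J S.pYD.I) = 1 := Units.mul_inv u
  set w : LocMod J S.pYD.I := xs φ 1 1 * (↑u⁻¹ : LocMod J S.pYD.I) with hw
  have hwu : IsUnit w := by
    rw [hw, ← hu1]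
    exact (u' * u⁻¹).isUnit
  have h1 : xs φ 1 1 = xs φ 0 1 * w := by
    rw [hw, ← hu0]
    linear_combination (-xs φ 1 1) * hinv
  have h12 : xs φ 0 1 * xs φ 1 2 - xs φ 1 1 * xs φ 0 2 = 0 := by
    have h := hU _ S.mn12_pU
    rw [mn, map_sub, map_mul, map_mul] at h
    exact h
  have h31 : xs φ 0 3 * xs φ 1 1 - xs φ 1 3 * xs φ 0 1 = 0 := by
    have h : φ (mn 3 1) = 0 :=
      toLocMod_eq_zero_of_mem (Ideal.mem_sup_right (Ideal.mem_span_singleton_self _))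
    rw [mn, map_sub, map_mul, map_mul] at h
    exact h
  have h2 : xs φ 1 2 = xs φ 0 2 * w := by
    rw [hw]
    rw [← hu0] at h12
    linear_combination (↑u⁻¹ : LocMod J S.pYD.I) * h12 - xs φ 1 2 * hinv
  have h3 : xs φ 1 3 = xs φ 0 3 * w := by
    rw [hw]
    rw [← hu0] at h31
    linear_combination -(↑u⁻¹ : LocMod J S.pYD.I) * h31 - xs φ 1 3 * hinv
  have h4 : xs φ 0 4 = 0 := hU _ (S.X4_mem_pU 0)
  have h4' : xs φ 1 4 = 0 := hU _ (S.X4_mem_pU 1)
  have hF : ∀ i : Fin 2, S.F0v (cs φ) (xs φ i) = 0 := by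
    intro i
    have h := hU _ (S.FX_mem S.pU i)
    rw [map_FX, Fv] at h
    have h5 : xs φ i 4 = 0 := by
      fin_cases i
      · exact h4
      · exact h4'
    rw [h5, zero_mul, add_zero] at h
    exact h
  have h0 : xs φ 1 0 = xs φ 0 0 * w := by
    have e0 := hF 0
    have e1 := hF 1
    rw [F0v] at e0 e1
    rw [h1, h2, h3, mul_comm (xs φ 0 2) w, mul_comm (xs φ 0 3) w, mul_comm (xs φ 0 1) w, phv_smul,
      gv_smul] at e1
    have h5 : (xs φ 1 0 - xs φ 0 0 * w) * (w * xs φ 0 1) ^ (S.m + 2) = 0 := by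
      have h6 : w ^ (S.m + 3) = w ^ (S.m + 2) * w := pow_succ _ _
      rw [mul_pow] at e1 ⊢
      rw [h6] at e1
      linear_combination e1 - w ^ (S.m + 2) * w * e0
    have hU2 : IsUnit ((w * xs φ 0 1) ^ (S.m + 2)) := by
      refine (hwu.mul ?_).pow _
      rw [← hu0]
      exact u.isUnit
    have h7 := (hU2.mul_left_eq_zero).1 h5
    linear_combination h7
  refine S.kill_YD φ w (fun j => ?_) h4 (hF 0) hz
  fin_cases j
  · exact h0
  · exact h1
  · exact h2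
  · exact h3
  · change xs φ 1 4 = xs φ 0 4 * w
    rw [h4, h4', zero_mul]

lemma oud : CodimOne S.pU.I S.pYD.I ∧ ordAt S.pU.I S.pYD.I (mn 3 1) = (1 : ℕ) := by
  have hone : (1 : Coord (Fin 5) 2) ∉ S.pYD.I := fun h =>
    S.pYD.prime.ne_top ((Ideal.eq_top_iff_one _).2 h)
  refine ⟨codimOne_of S.pU_le_pYD (S.mn_pYD 3 1) S.mn31_pU (fun z hz => S.unif_UD hz), ?_⟩
  refine ordAt_eq S.pU_le_pYD (S.mn_pYD 3 1) S.mn31_pU (fun z hz => S.unif_UD hz)
    (s := 1) (s' := 1) (n := 1) hone hone ?_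
  rw [pow_one, sub_self]
  exact zero_mem _

end LnData

end Pool.Agent.RCH
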