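import Pool.Agent.RCH.LnOUL

/-!
# Order of vanishing of the last minor on the fibre square of the pencil, at the products of two lines
-/

set_option autoImplicit false

open MvPolynomial

namespace Pool.Agent.RCH

attribute [local instance] Pt.prime

namespace LnData

variable (S : LnData)

/-- the pairs of a point of the surface and a point of the cone over it -/
noncomputable def auxC : Coord (Fin 5) 2 →ₐ[ℂ] MvPolynomial (Fin 2) S.RY :=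
  aeval (pair (fun j => C (S.ptY j))
    (repl (fun j => MvPolynomial.X 1 * C (S.ptY j)) (MvPolynomial.X 0)))

/-- the ideal of these pairs -/
noncomputable def pauxC : Ideal (Coord (Fin 5) 2) := RingHom.ker S.auxC

instance : (S.pauxC).IsPrime := RingHom.ker_isPrime _

lemma mem_pauxC (z : Coord (Fin 5) 2) : z ∈ S.pauxC ↔ S.auxC z = 0 := Iff.rfl

lemma auxC_X0 (j : Fin 5) : S.auxC (MvPolynomial.X (0, j)) = C (S.ptY j) := by
  rw [auxC, aeval_X]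
  rfl

lemma auxC_X1 (j : Fin 5) (hj : j ≠ 0) :
    S.auxC (MvPolynomial.X (1, j)) = MvPolynomial.X 1 * C (S.ptY j) := by
  rw [auxC, aeval_X]
  fin_cases j
  · exact absurd rfl hj
  · rfl
  · rfl
  · rfl
  · rfl

lemma auxC_X10 : S.auxC (MvPolynomial.X (1, 0)) = MvPolynomial.X 0 := by
  rw [auxC, aeval_X]
  rfl

lemma kill_auxC {L : Type} [CommRing L] (φ : Coord (Fin 5) 2 →+* L) (w : L)
    (hw : ∀ j, j ≠ 0 → xs φ 1 j = w * xs φ 0 j) (h4 : xs φ 0 4 = 0)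
    (hF : S.F0v (cs φ) (xs φ 0) = 0) {z : Coord (Fin 5) 2} (hz : z ∈ S.pauxC) : φ z = 0 := by
  obtain ⟨γ, hγ1, hγ2⟩ := S.exists_liftY (cs φ) (xs φ 0) h4 hF
  have h : φ = (eval₂Hom γ ![xs φ 1 0, w]).comp S.auxC.toRingHom := by
    apply MvPolynomial.ringHom_ext
    · intro a
      have h2 : S.auxC.toRingHom (C a) = C (algebraMap ℂ S.RY a) := S.auxC.commutes a
      rw [RingHom.comp_apply, h2, eval₂Hom_C, hγ1]
      rfl
    · rintro ⟨i, j⟩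
      rw [RingHom.comp_apply]
      fin_cases i
      · have h2 : S.auxC.toRingHom (MvPolynomial.X (0, j)) = C (S.ptY j) := S.auxC_X0 j
        refine Eq.trans ?_ (congrArg _ h2.symm)
        rw [eval₂Hom_C, hγ2]
        rfl
      · by_cases hj : j = 0
        · subst hj
          refine Eq.trans ?_ (congrArg _ S.auxC_X10.symm)
          rw [eval₂Hom_X']
          rfl
        · refine Eq.trans ?_ (congrArg _ (S.auxC_X1 j hj).symm)
          rw [map_mul, eval₂Hom_X', eval₂Hom_C, hγ2]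
          exact hw j hj
  rw [h, RingHom.comp_apply]
  have h0 : S.auxC.toRingHom z = 0 := hz
  rw [h0, map_zero]

lemma X4_mem_pauxC (i : Fin 2) : (MvPolynomial.X (i, 4) : Coord (Fin 5) 2) ∈ S.pauxC := by
  have h4 : S.ptY 4 = 0 := rfl
  rw [mem_pauxC]
  fin_cases i
  · exact (S.auxC_X0 4).trans (by rw [h4, map_zero])
  · exact (S.auxC_X1 4 (by decide)).trans (by rw [h4, map_zero, mul_zero])

lemma mn_mem_pauxC (i j : Fin 5) (hi : i ≠ 0) (hj : j ≠ 0) : mn i j ∈ S.pauxC := by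
  rw [mem_pauxC, mn, map_sub, map_mul, map_mul, auxC_X0, auxC_X0, auxC_X1 _ _ hi,
    auxC_X1 _ _ hj]
  ring

lemma FX0_mem_pauxC : S.FX 2 0 ∈ S.pauxC := by
  rw [mem_pauxC]
  let ψ : Coord (Fin 5) 2 →+* MvPolynomial (Fin 2) S.RY := S.auxC.toRingHom
  have h := S.map_FX (L := MvPolynomial (Fin 2) S.RY) ψ 0
  have h1 : xs (L := MvPolynomial (Fin 2) S.RY) ψ 0 = fun j => (C : S.RY →+* MvPolynomial (Fin 2) S.RY) (S.ptY j) :=
    funext fun j => S.auxC_X0 j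
  have h2 : cs (L := MvPolynomial (Fin 2) S.RY) ψ = (C : S.RY →+* MvPolynomial (Fin 2) S.RY).comp
      (algebraMap ℂ S.RY) := RingHom.ext fun a => S.auxC.commutes a
  rw [h1, h2, ← map_Fv, Fv_ptY, map_zero] at h
  exact h

lemma lam0_notMem_pauxC (k : Fin S.t) : S.lam 0 k ∉ S.pauxC := by
  have h1 : S.auxC (C (S.b k)) = C (algebraMap ℂ S.RY (S.b k)) := S.auxC.commutes (S.b k)
  rw [mem_pauxC, lam, map_sub, map_mul, auxC_X0, auxC_X0, h1, ← map_mul, ← map_sub]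
  intro h
  have h2 := C_injective (Fin 2) S.RY (h.trans (map_zero _).symm)
  obtain ⟨γ, hγ1, hγ2⟩ := S.exists_liftY (RingHom.id ℂ)
    ![-(S.phv (RingHom.id ℂ) 0 1 + S.gv (RingHom.id ℂ) 1 0 1), 1, 0, 1, 0] rfl
    (by simp [F0v])
  have h3 := congrArg γ h2
  rw [map_sub, map_mul, hγ2, hγ2, map_zero] at h3
  simp at h3

section locmod

variable {L : Type} [CommRing L] (φ : Coord (Fin 5) 2 →+* L)

lemma F0v_of_FX (i : Fin 2) (h4 : xs φ i 4 = 0) (h : φ (S.FX 2 i) = 0) :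
    S.F0v (cs φ) (xs φ i) = 0 := by
  rw [map_FX, Fv, h4, zero_mul, add_zero] at h
  exact h

/-- the equation of the second point when it is in the cone over the first -/
lemma FX1_eq (w : L) (hw : ∀ j, j ≠ 0 → xs φ 1 j = w * xs φ 0 j) (h4 : xs φ 0 4 = 0)
    (hF : S.F0v (cs φ) (xs φ 0) = 0) :
    φ (S.FX 2 1) = w ^ (S.m + 2) * xs φ 0 1 ^ (S.m + 2) * (xs φ 1 0 - w * xs φ 0 0) := by
  rw [map_FX, Fv, F0v, hw 1 (by decide), hw 2 (by decide), hw 3 (by decide), hw 4 (by decide),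
    h4, phv_smul, gv_smul]
  rw [F0v] at hF
  linear_combination w ^ (S.m + 3) * hF

end locmod

section oum

variable (j k : Fin S.t)

lemma rel_mn31 : MvPolynomial.X (0, 2) * mn 3 1 - -(MvPolynomial.X (0, 1) * mn 2 3) ∈ S.pU.I := by
  have e : (MvPolynomial.X (0, 2) * mn 3 1 - -(MvPolynomial.X (0, 1) * mn 2 3) :
      Coord (Fin 5) 2) = -(MvPolynomial.X (0, 3)) * mn 1 2 := by
    simp only [mn]
    ring
  rw [e]
  exact S.pU.I.mul_mem_left _ S.mn12_pU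

lemma ordAt_mn31 : ordAt S.pU.I (S.pB (S.pl j) (S.pl k)).I (mn 3 1) =
    (S.a j * S.a k : ℕ) + ordAt S.pU.I (S.pB (S.pl j) (S.pl k)).I (mn 2 3) := by
  rw [← ordAt_unit_mul (S.X2_ll 0 j k), ordAt_congr S.rel_mn31, ordAt_neg,
    ordAt_mul (S.pU_le_ll j k) _ S.mn23_pU, ordAt_X01]

/-- Row OUM, first part -/
lemma oum_ne (h : j ≠ k) :
    ordAt S.pU.I (S.pB (S.pl j) (S.pl k)).I (mn 3 1) = (S.a j * S.a k : ℕ) := by
  rw [ordAt_mn31, ordAt_eq_zero (S.mn23_ll j k h), add_zero]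

lemma exists_cone (J : Ideal (Coord (Fin 5) 2)) (h1 : mn 1 2 ∈ J) (h3 : mn 2 3 ∈ J)
    (h4 : (MvPolynomial.X (0, 4) : Coord (Fin 5) 2) ∈ J)
    (h4' : (MvPolynomial.X (1, 4) : Coord (Fin 5) 2) ∈ J) :
    ∃ w, w * xs (toLocMod J (S.pB (S.pl k) (S.pl k)).I) 0 2 =
        xs (toLocMod J (S.pB (S.pl k) (S.pl k)).I) 1 2 ∧
      ∀ j, j ≠ 0 → xs (toLocMod J (S.pB (S.pl k) (S.pl k)).I) 1 j =
        w * xs (toLocMod J (S.pB (S.pl k) (S.pl k)).I) 0 j := by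
  obtain ⟨u, hu⟩ := (isUnit_toLocMod (J := J) (S.X2_ll 0 k k))
  have hu2 : (u : LocMod J (S.pB (S.pl k) (S.pl k)).I) =
    xs (toLocMod J (S.pB (S.pl k) (S.pl k)).I) 0 2 := hu
  have hi : (↑u⁻¹ : LocMod J (S.pB (S.pl k) (S.pl k)).I) *
      xs (toLocMod J (S.pB (S.pl k) (S.pl k)).I) 0 2 = 1 := by
    rw [← hu2]
    exact u.inv_mul
  have e1 := toLocMod_eq_zero_of_mem (Q := (S.pB (S.pl k) (S.pl k)).I) h1
  have e3 := toLocMod_eq_zero_of_mem (Q := (S.pB (S.pl k) (S.pl k)).I) h3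
  have e4 : xs (toLocMod J (S.pB (S.pl k) (S.pl k)).I) 0 4 = 0 :=
    toLocMod_eq_zero_of_mem (Q := (S.pB (S.pl k) (S.pl k)).I) h4
  have e4' : xs (toLocMod J (S.pB (S.pl k) (S.pl k)).I) 1 4 = 0 :=
    toLocMod_eq_zero_of_mem (Q := (S.pB (S.pl k) (S.pl k)).I) h4'
  rw [mn, map_sub, map_mul, map_mul] at e1 e3
  have e1' : xs (toLocMod J (S.pB (S.pl k) (S.pl k)).I) 0 1 *
      xs (toLocMod J (S.pB (S.pl k) (S.pl k)).I) 1 2 -
      xs (toLocMod J (S.pB (S.pl k) (S.pl k)).I) 1 1 *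
      xs (toLocMod J (S.pB (S.pl k) (S.pl k)).I) 0 2 = 0 := e1
  have e3' : xs (toLocMod J (S.pB (S.pl k) (S.pl k)).I) 0 2 *
      xs (toLocMod J (S.pB (S.pl k) (S.pl k)).I) 1 3 -
      xs (toLocMod J (S.pB (S.pl k) (S.pl k)).I) 1 2 *
      xs (toLocMod J (S.pB (S.pl k) (S.pl k)).I) 0 3 = 0 := e3
  generalize xs (toLocMod J (S.pB (S.pl k) (S.pl k)).I) = v at *
  refine ⟨(↑u⁻¹ : LocMod J (S.pB (S.pl k) (S.pl k)).I) * v 1 2, ?_, ?_⟩
  · linear_combination v 1 2 * hi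
  · intro j hj
    fin_cases j
    · exact absurd rfl hj
    · change v 1 1 = (↑u⁻¹ * v 1 2) * v 0 1
      linear_combination (-(v 1 1)) * hi - (↑u⁻¹ : LocMod J (S.pB (S.pl k) (S.pl k)).I) * e1'
    · change v 1 2 = (↑u⁻¹ * v 1 2) * v 0 2
      linear_combination (-(v 1 2)) * hi
    · change v 1 3 = (↑u⁻¹ * v 1 2) * v 0 3
      linear_combination (-(v 1 3)) * hi + (↑u⁻¹ : LocMod J (S.pB (S.pl k) (S.pl k)).I) * e3'
    · show v 1 4 = (↑u⁻¹ * v 1 2) * v 0 4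
      rw [e4, e4', mul_zero]

lemma pauxC_le_ll : S.pauxC ≤ (S.pB (S.pl k) (S.pl k)).I := by
  intro z hz
  rw [← toLocMod_self_eq_zero]
  have hm12 : mn 1 2 ∈ (S.pB (S.pl k) (S.pl k)).I := S.pU_le_ll k k S.mn12_pU
  have hm23 : mn 2 3 ∈ (S.pB (S.pl k) (S.pl k)).I := by
    have e : (mn 2 3 : Coord (Fin 5) 2) = MvPolynomial.X (0, 2) * S.lam 1 k -
        MvPolynomial.X (1, 2) * S.lam 0 k := by
      simp only [mn, lam]
      ring
    rw [e]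
    exact sub_mem (Ideal.mul_mem_left _ _ (S.lam1_mem_ll k k))
      (Ideal.mul_mem_left _ _ (S.lam0_mem_ll k k))
  obtain ⟨w, -, hw⟩ := S.exists_cone k _ hm12 hm23 (S.X4_mem_ll 0 k k) (S.X4_mem_ll 1 k k)
  refine S.kill_auxC _ w hw (toLocMod_eq_zero_of_mem (S.X4_mem_ll 0 k k)) ?_ hz
  refine S.F0v_eq_zero _ 0 (toLocMod_eq_zero_of_mem (S.X1_mem_ll 0 k k)) k ?_
  rw [toLocMod_eq_zero_of_mem (S.lam0_mem_ll k k), zero_pow]
  have := S.ha k
  omega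

lemma unif_pauxC (z : Coord (Fin 5) 2) (hz : z ∈ (S.pB (S.pl k) (S.pl k)).I) :
    ∃ s, s ∉ (S.pB (S.pl k) (S.pl k)).I ∧ s * z ∈ S.pauxC ⊔ Ideal.span {S.lam 0 k} := by
  refine exists_of_toLocMod_eq_zero ?_
  have hm : ∀ w ∈ S.pauxC, toLocMod (S.pauxC ⊔ Ideal.span {S.lam 0 k})
      (S.pB (S.pl k) (S.pl k)).I w = 0 :=
    fun w hw => toLocMod_eq_zero_of_mem (Ideal.mem_sup_left hw)
  have hl : toLocMod (S.pauxC ⊔ Ideal.span {S.lam 0 k}) (S.pB (S.pl k) (S.pl k)).I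
      (S.lam 0 k) = 0 :=
    toLocMod_eq_zero_of_mem (Ideal.mem_sup_right (Ideal.mem_span_singleton_self _))
  obtain ⟨w, hw2, hw⟩ := S.exists_cone k (S.pauxC ⊔ Ideal.span {S.lam 0 k})
    (Ideal.mem_sup_left (S.mn_mem_pauxC 1 2 (by decide) (by decide)))
    (Ideal.mem_sup_left (S.mn_mem_pauxC 2 3 (by decide) (by decide)))
    (Ideal.mem_sup_left (S.X4_mem_pauxC 0)) (Ideal.mem_sup_left (S.X4_mem_pauxC 1))
  have h1 : xs (toLocMod (S.pauxC ⊔ Ideal.span {S.lam 0 k}) (S.pB (S.pl k) (S.pl k)).I) 0 1 =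
      0 := by
    have h := S.map_gX_mul _ 0 (hm _ (S.X4_mem_pauxC 0)) (hm _ S.FX0_mem_pauxC) k
    rw [hl, zero_pow (by have := S.ha k; omega), mul_zero, neg_zero] at h
    exact ((isUnit_toLocMod (J := S.pauxC ⊔ Ideal.span {S.lam 0 k})
      (S.gX_ll 0 k k)).mul_left_eq_zero).1 h
  have h3 : xs (toLocMod (S.pauxC ⊔ Ideal.span {S.lam 0 k}) (S.pB (S.pl k) (S.pl k)).I) 0 3 =
      cs (toLocMod (S.pauxC ⊔ Ideal.span {S.lam 0 k}) (S.pB (S.pl k) (S.pl k)).I) (S.b k) *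
      xs (toLocMod (S.pauxC ⊔ Ideal.span {S.lam 0 k}) (S.pB (S.pl k) (S.pl k)).I) 0 2 := by
    rw [← sub_eq_zero, ← map_lam]
    exact hl
  refine S.kill_ll _ k k h1 (hm _ (S.X4_mem_pauxC 0)) h3 ?_ (hm _ (S.X4_mem_pauxC 1)) ?_ hz
  · rw [hw 1 (by decide), h1, mul_zero]
  · rw [hw 3 (by decide), h3, hw 2 (by decide)]
    ring

lemma leqC1 : ∀ z ∈ S.pU.I, toLocMod (S.pauxC ⊔ Ideal.span {S.FX 2 1})
    (S.pB (S.pl k) (S.pl k)).I z = 0 := by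
  intro z hz
  have hm : ∀ w ∈ S.pauxC, toLocMod (S.pauxC ⊔ Ideal.span {S.FX 2 1})
      (S.pB (S.pl k) (S.pl k)).I w = 0 :=
    fun w hw => toLocMod_eq_zero_of_mem (Ideal.mem_sup_left hw)
  refine S.kill_U _ ?_ (hm _ (S.X4_mem_pauxC 0)) (hm _ (S.X4_mem_pauxC 1)) ?_ ?_ hz
  · have h := hm _ (S.mn_mem_pauxC 1 2 (by decide) (by decide))
    rw [mn, map_sub, sub_eq_zero, map_mul, map_mul] at h
    exact h
  · exact S.F0v_of_FX _ 0 (hm _ (S.X4_mem_pauxC 0)) (hm _ S.FX0_mem_pauxC)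
  · exact S.F0v_of_FX _ 1 (hm _ (S.X4_mem_pauxC 1))
      (toLocMod_eq_zero_of_mem (Ideal.mem_sup_right (Ideal.mem_span_singleton_self _)))

lemma leqC3 : ∀ z ∈ S.pauxC, toLocMod (S.pU.I ⊔ Ideal.span {mn 2 3})
    (S.pB (S.pl k) (S.pl k)).I z = 0 := by
  intro z hz
  have hm : ∀ w ∈ S.pU.I, toLocMod (S.pU.I ⊔ Ideal.span {mn 2 3})
      (S.pB (S.pl k) (S.pl k)).I w = 0 :=
    fun w hw => toLocMod_eq_zero_of_mem (Ideal.mem_sup_left hw)
  obtain ⟨w, -, hw⟩ := S.exists_cone k (S.pU.I ⊔ Ideal.span {mn 2 3})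
    (Ideal.mem_sup_left S.mn12_pU) (Ideal.mem_sup_right (Ideal.mem_span_singleton_self _))
    (Ideal.mem_sup_left (S.X4_mem_pU 0)) (Ideal.mem_sup_left (S.X4_mem_pU 1))
  exact S.kill_auxC _ w hw (hm _ (S.X4_mem_pU 0))
    (S.F0v_of_FX _ 0 (hm _ (S.X4_mem_pU 0)) (hm _ (S.FX_mem S.pU 0))) hz

lemma ordAt_FX1 : ordAt S.pauxC (S.pB (S.pl k) (S.pl k)).I (S.FX 2 1) =
    ((S.m + 2) * S.a k : ℕ) := by
  have hs : (MvPolynomial.X (0, 2) : Coord (Fin 5) 2) ^ (S.m + 3) * S.gX 0 ^ (S.m + 2) ∉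
      (S.pB (S.pl k) (S.pl k)).I := by
    intro h
    rcases Ideal.IsPrime.mem_or_mem inferInstance h with h | h
    · exact S.X2_ll 0 k k (Ideal.IsPrime.mem_of_pow_mem inferInstance _ h)
    · exact S.gX_ll 0 k k (Ideal.IsPrime.mem_of_pow_mem inferInstance _ h)
  have hs' : (-1) ^ (S.m + 2) * (MvPolynomial.X (1, 2) : Coord (Fin 5) 2) ^ (S.m + 2) *
      (-(NN 2)) * S.oth 0 k ^ (S.m + 2) ∉ (S.pB (S.pl k) (S.pl k)).I := by
    intro h
    rcases Ideal.IsPrime.mem_or_mem inferInstance h with h | h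
    · rcases Ideal.IsPrime.mem_or_mem inferInstance h with h | h
      · rcases Ideal.IsPrime.mem_or_mem inferInstance h with h | h
        · have h1 := Ideal.IsPrime.mem_of_pow_mem inferInstance _ h
          rw [neg_mem_iff] at h1
          exact Ideal.IsPrime.ne_top inferInstance ((Ideal.eq_top_iff_one _).2 h1)
        · exact S.X2_ll 1 k k (Ideal.IsPrime.mem_of_pow_mem inferInstance _ h)
      · rw [neg_mem_iff] at h
        exact S.NN2_ll k k h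
    · exact S.oth0_ll k k (Ideal.IsPrime.mem_of_pow_mem inferInstance _ h)
  refine ordAt_eq (S.pauxC_le_ll k) (S.lam0_mem_ll k k) (S.lam0_notMem_pauxC k)
    (S.unif_pauxC k) hs hs' ?_
  refine mem_of_toLocMod_eq_zero (S.pauxC_le_ll k) ?_
  have hm : ∀ w ∈ S.pauxC, toLocMod S.pauxC (S.pB (S.pl k) (S.pl k)).I w = 0 :=
    fun w hw => toLocMod_eq_zero_of_mem hw
  obtain ⟨w, hw2, hw⟩ := S.exists_cone k S.pauxC
    (S.mn_mem_pauxC 1 2 (by decide) (by decide)) (S.mn_mem_pauxC 2 3 (by decide) (by decide))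
    (S.X4_mem_pauxC 0) (S.X4_mem_pauxC 1)
  have h4 := hm _ (S.X4_mem_pauxC 0)
  have h1 := S.FX1_eq _ w hw h4 (S.F0v_of_FX _ 0 h4 (hm _ S.FX0_mem_pauxC))
  have h2 := congrArg (fun x => x ^ (S.m + 2)) (S.map_gX_mul _ 0 h4 (hm _ S.FX0_mem_pauxC) k)
  have hN : toLocMod S.pauxC (S.pB (S.pl k) (S.pl k)).I (NN 2) =
      xs (toLocMod S.pauxC (S.pB (S.pl k) (S.pl k)).I) 0 0 *
      xs (toLocMod S.pauxC (S.pB (S.pl k) (S.pl k)).I) 1 2 -
      xs (toLocMod S.pauxC (S.pB (S.pl k) (S.pl k)).I) 1 0 *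
      xs (toLocMod S.pauxC (S.pB (S.pl k) (S.pl k)).I) 0 2 := by
    rw [NN, map_sub, map_mul, map_mul]
    rfl
  have h02 : toLocMod S.pauxC (S.pB (S.pl k) (S.pl k)).I (MvPolynomial.X (0, 2)) =
    xs (toLocMod S.pauxC (S.pB (S.pl k) (S.pl k)).I) 0 2 := rfl
  have h12 : toLocMod S.pauxC (S.pB (S.pl k) (S.pl k)).I (MvPolynomial.X (1, 2)) =
    xs (toLocMod S.pauxC (S.pB (S.pl k) (S.pl k)).I) 1 2 := rfl
  simp only [map_sub, map_mul, map_pow, map_neg, map_one, h1, hN, h02, h12]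
  simp only [mul_pow, neg_pow (toLocMod S.pauxC (S.pB (S.pl k) (S.pl k)).I (S.oth 0 k) *
    toLocMod S.pauxC (S.pB (S.pl k) (S.pl k)).I (S.lam 0 k) ^ S.a k)] at h2
  rw [← hw2]
  have e1 : toLocMod S.pauxC (S.pB (S.pl k) (S.pl k)).I (S.lam 0 k) ^ ((S.m + 2) * S.a k) =
    (toLocMod S.pauxC (S.pB (S.pl k) (S.pl k)).I (S.lam 0 k) ^ S.a k) ^ (S.m + 2) := by
    rw [← pow_mul, mul_comm]
  rw [e1]
  generalize toLocMod S.pauxC (S.pB (S.pl k) (S.pl k)).I (S.lam 0 k) ^ S.a k = lk at *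
  generalize toLocMod S.pauxC (S.pB (S.pl k) (S.pl k)).I (S.oth 0 k) = ok at *
  generalize toLocMod S.pauxC (S.pB (S.pl k) (S.pl k)).I (S.gX 0) = gk at *
  generalize xs (toLocMod S.pauxC (S.pB (S.pl k) (S.pl k)).I) = v at *
  linear_combination (w ^ (S.m + 2) * v 0 2 ^ (S.m + 3) * (v 1 0 - w * v 0 0)) * h2

/-- Row OUM, second part -/
lemma oum_eq :
    ordAt S.pU.I (S.pB (S.pl k) (S.pl k)).I (mn 3 1) = (S.a k * S.a k + (S.m + 2) * S.a k : ℕ) := by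
  rw [ordAt_mn31, leq_ord (S.leqC1 k)
    (toLocMod_eq_zero_of_mem (Ideal.mem_sup_left (S.mn_mem_pauxC 2 3 (by decide) (by decide))))
    (S.leqC3 k) (toLocMod_eq_zero_of_mem (Ideal.mem_sup_left (S.FX_mem S.pU 1))), ordAt_FX1]
  push_cast
  rfl

end oum

end LnData

end Pool.Agent.RCH
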