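import Pool.Agent.RCH.LnAsm1
import Pool.Agent.RCH.LnCLU
import Pool.Agent.RCH.LnOUD
import Pool.Agent.RCH.LnOUM

/-!
# The relation from the fibre square of the pencil on the surface
-/

set_option autoImplicit false

open MvPolynomial

namespace Pool.Agent.RCH

attribute [local instance] Pt.prime

namespace LnData

variable (S : LnData)

/-- evaluation at a pair of points -/
noncomputable def evPair {D : Type} [CommRing D] [Algebra ℂ D] (e f : Fin 5 → D) :
    Coord (Fin 5) 2 →+* D := eval₂Hom (algebraMap ℂ D) (pair e f)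

lemma cs_evPair {D : Type} [CommRing D] [Algebra ℂ D] (e f : Fin 5 → D) :
    cs (evPair e f) = algebraMap ℂ D := by
  refine RingHom.ext fun a => ?_
  simp [cs, evPair]

lemma xs_evPair_zero {D : Type} [CommRing D] [Algebra ℂ D] (e f : Fin 5 → D) :
    xs (evPair e f) 0 = e := by
  funext j
  simp [xs, evPair]

lemma xs_evPair_one {D : Type} [CommRing D] [Algebra ℂ D] (e f : Fin 5 → D) :
    xs (evPair e f) 1 = f := by
  funext j
  simp [xs, evPair]

lemma X1_Yp : (MvPolynomial.X (0, 1) : Coord (Fin 5) 2) ∉ (S.pB S.pY S.pp).I := by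
  intro h
  have h1 := S.kill_Yp_box (evPair S.ptY ![1, 0, 0, 0, 0]) (by rw [xs_evPair_one]; rfl)
    (by rw [xs_evPair_one]; rfl) (by rw [xs_evPair_one]; rfl) (by rw [xs_evPair_one]; rfl)
    (by rw [xs_evPair_zero]; rfl) (by rw [xs_evPair_zero, cs_evPair]; exact S.F0v_ptY) h
  have h2 : xs (evPair S.ptY ![1, 0, 0, 0, 0]) 0 1 = 0 := h1
  rw [xs_evPair_zero] at h2
  exact S.ptY_ne h2

/-- the points of codimension one of `pU` on `x_1 y_1 = 0` -/
lemma cases_U (Q : Pt S.V 2) (hc : CodimOne S.pU.I Q.I)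
    (h1 : (MvPolynomial.X (0, 1) : Coord (Fin 5) 2) ∈ Q.I ∨
      (MvPolynomial.X (1, 1) : Coord (Fin 5) 2) ∈ Q.I) :
    Q = S.pB S.pp S.pY ∨ Q = S.pB S.pY S.pp ∨ ∃ j k, Q = S.pB (S.pl j) (S.pl k) := by
  rcases S.clu Q.I hc.1.le h1 with h | h | ⟨j, k, h⟩
  · exact Or.inl (eq_of_codimOne S.V S.oup.1 hc h)
  · exact Or.inr (Or.inl (eq_of_codimOne S.V S.oup'.1 hc h))
  · exact Or.inr (Or.inr ⟨j, k, eq_of_codimOne S.V (S.oul j k).1 hc h⟩)

lemma ord_mul_U {Q : Pt S.V 2} (hc : CodimOne S.pU.I Q.I) :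
    (ordAt S.pU.I Q.I (MvPolynomial.X (0, 1) * MvPolynomial.X (1, 1))).toNat =
      (ordAt S.pU.I Q.I (MvPolynomial.X (0, 1))).toNat +
        (ordAt S.pU.I Q.I (MvPolynomial.X (1, 1))).toNat :=
  toNat_ordAt_mul hc (S.X_pU 0 1 (by decide)) (S.X_pU 1 1 (by decide))

lemma pp_ne_ll' (j k : Fin S.t) : S.pB S.pp S.pY ≠ S.pB (S.pl j) (S.pl k) :=
  fun h => S.pl_ne_pp j (S.pB_inj h).1.symm

lemma Yp_ne_ll' (j k : Fin S.t) : S.pB S.pY S.pp ≠ S.pB (S.pl j) (S.pl k) :=
  fun h => S.pl_ne_pp k (S.pB_inj h).2.symm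

lemma ll_inj' {i j k l : Fin S.t} (h : S.pB (S.pl i) (S.pl j) = S.pB (S.pl k) (S.pl l)) :
    i = k ∧ j = l :=
  ⟨S.pl_injective (S.pB_inj h).1, S.pl_injective (S.pB_inj h).2⟩

open Classical in
/-- the sum over the pairs of lines -/
lemma sum_ll (Q : Pt S.V 2) (v : Fin S.t → Fin S.t → ℤ) (j k : Fin S.t)
    (hQ : Q = S.pB (S.pl j) (S.pl k)) :
    ∑ i, ∑ l, v i l * (if S.pB (S.pl i) (S.pl l) = Q then 1 else 0) = v j k := by
  subst hQ
  rw [Finset.sum_eq_single j, Finset.sum_eq_single k]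
  · rw [if_pos rfl, mul_one]
  · intro l _ hl
    rw [if_neg (fun h => hl (S.ll_inj' h).2), mul_zero]
  · intro h
    exact absurd (Finset.mem_univ k) h
  · intro i _ hi
    refine Finset.sum_eq_zero fun l _ => ?_
    rw [if_neg (fun h => hi (S.ll_inj' h).1), mul_zero]
  · intro h
    exact absurd (Finset.mem_univ j) h

open Classical in
/-- the second relation -/
lemma relB : (Finsupp.single S.pYD 1 -
    ∑ j, ∑ k, (S.a j * S.a k) • Finsupp.single (S.pB (S.pl j) (S.pl k)) 1 +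
    (S.m + 2) • ∑ k, S.a k • Finsupp.single (S.pB (S.pl k) (S.pl k)) 1
    - Finsupp.single (S.pB S.pp S.pY) 1 - Finsupp.single (S.pB S.pY S.pp) 1 : Cycles S.V 2) ∈
      RatZero S.V 2 := by
  have hXX : (MvPolynomial.X (0, 1) * MvPolynomial.X (1, 1) : Coord (Fin 5) 2) ∉ S.pU.I := by
    intro h
    rcases Ideal.IsPrime.mem_or_mem (I := S.pU.I) inferInstance h with h1 | h1
    · exact S.X_pU 0 1 (by decide) h1
    · exact S.X_pU 1 1 (by decide) h1
  refine AddSubgroup.subset_closure ⟨S.pU, mn 3 1, MvPolynomial.X (0, 1) * MvPolynomial.X (1, 1),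
    ![1, 1], S.mn_hom 3 1, S.XX_hom 1 1, S.mn31_pU, hXX, ?_⟩
  intro Q
  have hL : (Finsupp.single S.pYD 1 -
      ∑ j, ∑ k, (S.a j * S.a k) • Finsupp.single (S.pB (S.pl j) (S.pl k)) 1 +
      (S.m + 2) • ∑ k, S.a k • Finsupp.single (S.pB (S.pl k) (S.pl k)) 1
      - Finsupp.single (S.pB S.pp S.pY) 1 - Finsupp.single (S.pB S.pY S.pp) 1 : Cycles S.V 2) Q =
      (if S.pYD = Q then 1 else 0) -
        ∑ j, ∑ k, ((S.a j * S.a k : ℕ) : ℤ) * (if S.pB (S.pl j) (S.pl k) = Q then 1 else 0) +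
        ((S.m + 2 : ℕ) : ℤ) * ∑ k, (S.a k : ℤ) * (if S.pB (S.pl k) (S.pl k) = Q then 1 else 0) -
        (if S.pB S.pp S.pY = Q then 1 else 0) - (if S.pB S.pY S.pp = Q then 1 else 0) := by
    simp only [Finsupp.smul_apply, Finsupp.sub_apply, Finsupp.add_apply, Finsupp.finsetSum_apply,
      Finsupp.single_apply, nsmul_eq_mul]
  rw [hL]
  -- the sums vanish away from the products of lines
  have hs0 : (∀ j k, S.pB (S.pl j) (S.pl k) ≠ Q) →
      ∑ j, ∑ k, ((S.a j * S.a k : ℕ) : ℤ) * (if S.pB (S.pl j) (S.pl k) = Q then 1 else 0) = 0 ∧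
      ∑ k, (S.a k : ℤ) * (if S.pB (S.pl k) (S.pl k) = Q then 1 else 0) = 0 := by
    intro h
    refine ⟨Finset.sum_eq_zero fun j _ => Finset.sum_eq_zero fun k _ => ?_,
      Finset.sum_eq_zero fun k _ => ?_⟩
    · rw [if_neg (h j k), mul_zero]
    · rw [if_neg (h k k), mul_zero]
  by_cases hc : CodimOne S.pU.I Q.I
  · rw [if_pos hc, ord_mul_U S hc]
    by_cases h1 : (MvPolynomial.X (0, 1) : Coord (Fin 5) 2) ∈ Q.I ∨
      (MvPolynomial.X (1, 1) : Coord (Fin 5) 2) ∈ Q.I
    · rcases S.cases_U Q hc h1 with rfl | rfl | ⟨j, k, rfl⟩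
      · obtain ⟨-, o1, o2⟩ := S.oup
        obtain ⟨e1, e2⟩ := hs0 fun j k => (S.pp_ne_ll' j k).symm
        rw [e1, e2, o1, o2, ordAt_eq_zero (S.X1_pp 1 (by decide)), if_neg S.pYD_ne_pY,
          if_pos rfl, if_neg S.pp_ne_Yp.symm]
        simp only [ENat.toNat_natCast, ENat.toNat_zero]
        push_cast
        ring
      · obtain ⟨-, o1, o2⟩ := S.oup'
        obtain ⟨e1, e2⟩ := hs0 fun j k => (S.Yp_ne_ll' j k).symm
        rw [e1, e2, o1, o2, ordAt_eq_zero S.X1_Yp, if_neg S.pYD_ne_Yp,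
          if_pos rfl, if_neg S.pp_ne_Yp]
        simp only [ENat.toNat_natCast, ENat.toNat_zero]
        push_cast
        ring
      · obtain ⟨-, o1, o2⟩ := S.oul j k
        rw [o1, o2, if_neg (S.pYD_ne_ll j k), if_neg (S.pp_ne_ll' j k), if_neg (S.Yp_ne_ll' j k),
          S.sum_ll _ (fun i l => ((S.a i * S.a l : ℕ) : ℤ)) j k rfl]
        by_cases hjk : j = k
        · subst hjk
          have hs : ∑ i, (S.a i : ℤ) * (if S.pB (S.pl i) (S.pl i) = S.pB (S.pl j) (S.pl j) then 1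
              else 0) = S.a j := by
            rw [Finset.sum_eq_single j]
            · rw [if_pos rfl, mul_one]
            · intro i _ hi
              rw [if_neg (fun h => hi (S.ll_inj h)), mul_zero]
            · intro h
              exact absurd (Finset.mem_univ j) h
          rw [hs, S.oum_eq j]
          simp only [ENat.toNat_natCast]
          push_cast
          ring
        · have hs : ∑ i, (S.a i : ℤ) * (if S.pB (S.pl i) (S.pl i) = S.pB (S.pl j) (S.pl k) then 1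
              else 0) = 0 := by
            refine Finset.sum_eq_zero fun i _ => ?_
            rw [if_neg, mul_zero]
            intro h
            exact hjk ((S.ll_inj' h).1.symm.trans (S.ll_inj' h).2)
          rw [hs, S.oum_ne j k hjk]
          simp only [ENat.toNat_natCast]
          push_cast
          ring
    · push Not at h1
      obtain ⟨h1, h1'⟩ := h1
      have e1 : S.pB S.pp S.pY ≠ Q := fun h => h1 (h ▸ S.X_mem_pp 1 (by decide))
      have e2 : S.pB S.pY S.pp ≠ Q := by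
        rintro rfl
        have h := S.oup'.2.2
        rw [ordAt_eq_zero h1'] at h
        exact absurd h.symm (by norm_cast)
      obtain ⟨e3, e4⟩ := hs0 fun j k h => h1 (h ▸ S.X1_mem_ll 0 j k)
      rw [e3, e4, if_neg e1, if_neg e2, ordAt_eq_zero h1, ordAt_eq_zero h1']
      by_cases hM : mn 3 1 ∈ Q.I
      · have hQ : Q = S.pYD := eq_of_codimOne S.V S.oud.1 hc (S.clu' Q.I hc.1.le h1 h1' hM)
        subst hQ
        rw [if_pos rfl, S.oud.2]
        simp
      · have hQ : S.pYD ≠ Q := by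
          rintro rfl
          have h := S.oud.2
          rw [ordAt_eq_zero hM] at h
          exact absurd h.symm (by norm_cast)
        rw [if_neg hQ, ordAt_eq_zero hM]
        simp
  · have e1 : S.pB S.pp S.pY ≠ Q := fun h => hc (h ▸ S.oup.1)
    have e2 : S.pB S.pY S.pp ≠ Q := fun h => hc (h ▸ S.oup'.1)
    obtain ⟨e3, e4⟩ := hs0 fun j k h => hc (h ▸ (S.oul j k).1)
    have e5 : S.pYD ≠ Q := fun h => hc (h ▸ S.oud.1)
    rw [if_neg hc, e3, e4, if_neg e1, if_neg e2, if_neg e5]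
    simp

end LnData

end Pool.Agent.RCH
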