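import Pool.Agent.RCH.LnPts

/-!
# The points used for the lines on a threefold are different
-/

set_option autoImplicit false

open MvPolynomial

namespace Pool.Agent.RCH

namespace LnData

variable (S : LnData)

lemma prH_mem_zero {A B : Pt S.V 1} {z : Coord (Fin 5) 1} (hz : z ∈ A.I) :
    prH 0 z ∈ (S.pB A B).I := by
  rw [pB_I]
  exact Ideal.mem_iSup_of_mem (0 : Fin 2) (Ideal.mem_map_of_mem _ hz)

lemma prH_mem_one {A B : Pt S.V 1} {z : Coord (Fin 5) 1} (hz : z ∈ B.I) :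
    prH 1 z ∈ (S.pB A B).I := by
  rw [pB_I]
  exact Ideal.mem_iSup_of_mem (1 : Fin 2) (Ideal.mem_map_of_mem _ hz)

/-- a closed point on a point of the threefold -/
lemma exists_closed (B : Pt S.V 1) : ∃ β : Fin 1 × Fin 5 → ℂ, ∀ z ∈ B.I, eval β z = 0 := by
  obtain ⟨M, hM, hBM⟩ := Ideal.exists_le_maximal B.I B.prime.ne_top
  obtain ⟨β, hβ⟩ := (isMaximal_iff_eq_vanishingIdeal_singleton (K := ℂ)).1 hM
  refine ⟨β, fun z hz => ?_⟩
  have h := hBM hz
  rw [hβ, mem_vanishingIdeal_singleton_iff] at h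
  exact h

/-- the first point generic, the second one closed -/
noncomputable def spZ (A : Pt S.V 1) (β : Fin 1 × Fin 5 → ℂ) :
    Coord (Fin 5) 2 →+* Coord (Fin 5) 1 ⧸ A.I :=
  (Ideal.Quotient.mk A.I).comp (eval₂Hom C (fun v : Fin 2 × Fin 5 => if v.1 = 0 then
    MvPolynomial.X (0, v.2) else C (β (0, v.2))))

lemma spZ_zero (A : Pt S.V 1) (β : Fin 1 × Fin 5 → ℂ) (z : Coord (Fin 5) 1) :
    S.spZ A β (prH 0 z) = Ideal.Quotient.mk A.I z := by
  have h : (S.spZ A β).comp (prH 0) = Ideal.Quotient.mk A.I := by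
    apply MvPolynomial.ringHom_ext
    · intro a
      have : prH 0 (C a) = C a := by simp [prH]
      rw [RingHom.comp_apply, this, spZ, RingHom.comp_apply, eval₂Hom_C]
    · rintro ⟨i, j⟩
      have : i = 0 := Subsingleton.elim _ _
      subst this
      rw [RingHom.comp_apply, prH_X, spZ, RingHom.comp_apply, eval₂Hom_X']
      rfl
  exact congrArg (fun ψ => ψ z) h

lemma spZ_one (A : Pt S.V 1) (β : Fin 1 × Fin 5 → ℂ) (z : Coord (Fin 5) 1) :
    S.spZ A β (prH 1 z) = Ideal.Quotient.mk A.I (C (eval β z)) := by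
  have h : (S.spZ A β).comp (prH 1) = (Ideal.Quotient.mk A.I).comp (C.comp (eval β)) := by
    apply MvPolynomial.ringHom_ext
    · intro a
      have : prH 1 (C a) = C a := by simp [prH]
      rw [RingHom.comp_apply, this, spZ, RingHom.comp_apply, eval₂Hom_C, RingHom.comp_apply,
        RingHom.comp_apply, eval_C]
    · rintro ⟨i, j⟩
      have : i = 0 := Subsingleton.elim _ _
      subst this
      rw [RingHom.comp_apply, prH_X, spZ, RingHom.comp_apply, eval₂Hom_X', RingHom.comp_apply,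
        RingHom.comp_apply, eval_X]
      rfl
  exact congrArg (fun ψ => ψ z) h

/-- the second point generic, the first one closed -/
noncomputable def spO (B : Pt S.V 1) (β : Fin 1 × Fin 5 → ℂ) :
    Coord (Fin 5) 2 →+* Coord (Fin 5) 1 ⧸ B.I :=
  (Ideal.Quotient.mk B.I).comp (eval₂Hom C (fun v : Fin 2 × Fin 5 => if v.1 = 1 then
    MvPolynomial.X (0, v.2) else C (β (0, v.2))))

lemma spO_one (B : Pt S.V 1) (β : Fin 1 × Fin 5 → ℂ) (z : Coord (Fin 5) 1) :
    S.spO B β (prH 1 z) = Ideal.Quotient.mk B.I z := by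
  have h : (S.spO B β).comp (prH 1) = Ideal.Quotient.mk B.I := by
    apply MvPolynomial.ringHom_ext
    · intro a
      have : prH 1 (C a) = C a := by simp [prH]
      rw [RingHom.comp_apply, this, spO, RingHom.comp_apply, eval₂Hom_C]
    · rintro ⟨i, j⟩
      have : i = 0 := Subsingleton.elim _ _
      subst this
      rw [RingHom.comp_apply, prH_X, spO, RingHom.comp_apply, eval₂Hom_X']
      rfl
  exact congrArg (fun ψ => ψ z) h

lemma spO_zero (B : Pt S.V 1) (β : Fin 1 × Fin 5 → ℂ) (z : Coord (Fin 5) 1) :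
    S.spO B β (prH 0 z) = Ideal.Quotient.mk B.I (C (eval β z)) := by
  have h : (S.spO B β).comp (prH 0) = (Ideal.Quotient.mk B.I).comp (C.comp (eval β)) := by
    apply MvPolynomial.ringHom_ext
    · intro a
      have : prH 0 (C a) = C a := by simp [prH]
      rw [RingHom.comp_apply, this, spO, RingHom.comp_apply, eval₂Hom_C, RingHom.comp_apply,
        RingHom.comp_apply, eval_C]
    · rintro ⟨i, j⟩
      have : i = 0 := Subsingleton.elim _ _
      subst this
      rw [RingHom.comp_apply, prH_X, spO, RingHom.comp_apply, eval₂Hom_X', RingHom.comp_apply,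
        RingHom.comp_apply, eval_X]
      rfl
  exact congrArg (fun ψ => ψ z) h

lemma mem_of_prH_zero {A B : Pt S.V 1} {z : Coord (Fin 5) 1} (hz : prH 0 z ∈ (S.pB A B).I) :
    z ∈ A.I := by
  obtain ⟨β, hβ⟩ := S.exists_closed B
  have h1 := S.kill_pB (S.spZ A β) A B
    (fun w hw => (S.spZ_zero A β w).trans (Ideal.Quotient.eq_zero_iff_mem.2 hw))
    (fun w hw => by rw [spZ_one, hβ w hw, map_zero, map_zero]) hz
  rw [spZ_zero] at h1
  exact Ideal.Quotient.eq_zero_iff_mem.1 h1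

lemma mem_of_prH_one {A B : Pt S.V 1} {z : Coord (Fin 5) 1} (hz : prH 1 z ∈ (S.pB A B).I) :
    z ∈ B.I := by
  obtain ⟨β, hβ⟩ := S.exists_closed A
  have h1 := S.kill_pB (S.spO B β) A B
    (fun w hw => by rw [spO_zero, hβ w hw, map_zero, map_zero])
    (fun w hw => (S.spO_one B β w).trans (Ideal.Quotient.eq_zero_iff_mem.2 hw)) hz
  rw [spO_one] at h1
  exact Ideal.Quotient.eq_zero_iff_mem.1 h1


lemma pB_inj {A B A' B' : Pt S.V 1} (h : S.pB A B = S.pB A' B') : A = A' ∧ B = B' := by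
  constructor
  · apply Pt.ext'
    ext z
    constructor
    · intro hz
      exact S.mem_of_prH_zero (B := B') (h ▸ S.prH_mem_zero (B := B) hz)
    · intro hz
      exact S.mem_of_prH_zero (B := B) (h ▸ S.prH_mem_zero (B := B') hz)
  · apply Pt.ext'
    ext z
    constructor
    · intro hz
      exact S.mem_of_prH_one (A := A') (h ▸ S.prH_mem_one (A := A) hz)
    · intro hz
      exact S.mem_of_prH_one (A := A) (h ▸ S.prH_mem_one (A := A') hz)

lemma dis_X_pp (j : Fin 5) (hj : j ≠ 0) :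
    (MvPolynomial.X (0, j) : Coord (Fin 5) 1) ∈ S.pp.I := by
  refine (X_mem_genIdeal S.V _ (0, j)).2 ?_
  fin_cases j
  · exact absurd rfl hj
  all_goals rfl

lemma dis_X1_pY : (MvPolynomial.X (0, 1) : Coord (Fin 5) 1) ∉ S.pY.I := by
  intro h
  exact S.ptY_ne ((X_mem_genIdeal S.V _ (0, 1)).1 h)

lemma dis_X1_pYD (i : Fin 2) : (MvPolynomial.X (i, 1) : Coord (Fin 5) 2) ∉ S.pYD.I := by
  intro h
  exact S.ptY_ne ((X_mem_genIdeal S.V _ (i, 1)).1 h)

lemma dis_X2_pl (k : Fin S.t) : (MvPolynomial.X (0, 2) : Coord (Fin 5) 1) ∉ (S.pl k).I := by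
  intro h
  have h1 := (X_mem_genIdeal S.V _ (0, 2)).1 h
  exact MvPolynomial.X_ne_zero (R := ℂ) (1 : Fin 2) h1

lemma dis_X1_pl (k : Fin S.t) : (MvPolynomial.X (0, 1) : Coord (Fin 5) 1) ∈ (S.pl k).I :=
  (X_mem_genIdeal S.V _ (0, 1)).2 rfl

lemma dis_lam_pl (k : Fin S.t) : (MvPolynomial.X (0, 3) - C (S.b k) * MvPolynomial.X (0, 2) :
    Coord (Fin 5) 1) ∈ (S.pl k).I := by
  have h3 : IsWeightedHomogeneous (S.V.mdeg 1) (MvPolynomial.X (0, 3) : Coord (Fin 5) 1)
      (Pi.single 0 1) := isWeightedHomogeneous_X ℂ _ (0, 3)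
  have h2 : IsWeightedHomogeneous (S.V.mdeg 1) (C (S.b k) * MvPolynomial.X (0, 2) :
      Coord (Fin 5) 1) (Pi.single 0 1) := by
    have h := (isWeightedHomogeneous_C (S.V.mdeg 1) (S.b k)).mul
      (isWeightedHomogeneous_X ℂ (S.V.mdeg 1) (0, 2))
    rw [zero_add] at h
    exact h
  refine (mem_genIdeal_of_homogeneous S.V _ (h3.sub h2)).2 ?_
  rw [map_sub, map_mul, aeval_X, aeval_X, ← MvPolynomial.algebraMap_eq, AlgHom.commutes]
  exact sub_self _

lemma pl_injective : Function.Injective S.pl := by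
  intro j k h
  apply S.hb
  have h1 := S.dis_lam_pl j
  rw [h] at h1
  have h2 := Ideal.sub_mem _ (S.dis_lam_pl k) h1
  have h3 : (MvPolynomial.X (0, 3) - C (S.b k) * MvPolynomial.X (0, 2) -
      (MvPolynomial.X (0, 3) - C (S.b j) * MvPolynomial.X (0, 2)) : Coord (Fin 5) 1) =
      C (S.b j - S.b k) * MvPolynomial.X (0, 2) := by
    rw [C_sub]
    ring
  rw [h3] at h2
  by_contra hne
  have hu : IsUnit (C (S.b j - S.b k) : Coord (Fin 5) 1) :=
    (IsUnit.mk0 _ (sub_ne_zero.2 hne)).map (C : ℂ →+* Coord (Fin 5) 1)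
  rcases (S.pl k).prime.mem_or_mem h2 with h4 | h4
  · exact (S.pl k).prime.ne_top (Ideal.eq_top_of_isUnit_mem _ h4 hu)
  · exact S.dis_X2_pl k h4

lemma pp_ne_pY : S.pp ≠ S.pY := fun h =>
  S.dis_X1_pY (h ▸ S.dis_X_pp 1 (by decide))

lemma pl_ne_pp (k : Fin S.t) : S.pl k ≠ S.pp := fun h =>
  S.dis_X2_pl k (h ▸ S.dis_X_pp 2 (by decide))

lemma pYD_ne_ll (j k : Fin S.t) : S.pYD ≠ S.pB (S.pl j) (S.pl k) := fun h => by
  have h1 := S.prH_mem_zero (B := S.pl k) (S.dis_X1_pl j)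
  rw [prH_X, ← h] at h1
  exact S.dis_X1_pYD 0 h1

lemma pYD_ne_pY : S.pYD ≠ S.pB S.pp S.pY := fun h => by
  have h1 := S.prH_mem_zero (B := S.pY) (S.dis_X_pp 1 (by decide))
  rw [prH_X, ← h] at h1
  exact S.dis_X1_pYD 0 h1

lemma pYD_ne_Yp : S.pYD ≠ S.pB S.pY S.pp := fun h => by
  have h1 := S.prH_mem_one (A := S.pY) (S.dis_X_pp 1 (by decide))
  rw [prH_X, ← h] at h1
  exact S.dis_X1_pYD 1 h1

end LnData

end Pool.Agent.RCH
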