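import Pool.Agent.RCH.LnForms

/-!
# The product of the vertex and the surface
-/

set_option autoImplicit false

open MvPolynomial

namespace Pool.Agent.RCH

namespace LnData

variable (S : LnData)

lemma kill_pY_box {L : Type} [CommRing L] (φ : Coord (Fin 5) 2 →+* L) (h1 : xs φ 0 1 = 0)
    (h2 : xs φ 0 2 = 0) (h3 : xs φ 0 3 = 0) (h4 : xs φ 0 4 = 0) (h4' : xs φ 1 4 = 0)
    (hF : S.F0v (cs φ) (xs φ 1) = 0) {z : Coord (Fin 5) 2} (hz : z ∈ (S.pB S.pp S.pY).I) :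
    φ z = 0 := by
  refine S.kill_pB φ _ _ (fun w hw => ?_) (fun w hw => ?_) hz
  · refine S.kill_pp (φ.comp (prH 0)) ?_ ?_ ?_ ?_ hw
    · rw [xs_comp_prH, h1]
    · rw [xs_comp_prH, h2]
    · rw [xs_comp_prH, h3]
    · rw [xs_comp_prH, h4]
  · refine S.kill_pY (φ.comp (prH 1)) ?_ ?_ hw
    · rw [xs_comp_prH, h4']
    · rw [xs_comp_prH, cs_comp_prH, hF]

lemma kill_Yp_box {L : Type} [CommRing L] (φ : Coord (Fin 5) 2 →+* L) (h1 : xs φ 1 1 = 0)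
    (h2 : xs φ 1 2 = 0) (h3 : xs φ 1 3 = 0) (h4 : xs φ 1 4 = 0) (h4' : xs φ 0 4 = 0)
    (hF : S.F0v (cs φ) (xs φ 0) = 0) {z : Coord (Fin 5) 2} (hz : z ∈ (S.pB S.pY S.pp).I) :
    φ z = 0 := by
  refine S.kill_pB φ _ _ (fun w hw => ?_) (fun w hw => ?_) hz
  · refine S.kill_pY (φ.comp (prH 0)) ?_ ?_ hw
    · rw [xs_comp_prH, h4']
    · rw [xs_comp_prH, cs_comp_prH, hF]
  · refine S.kill_pp (φ.comp (prH 1)) ?_ ?_ ?_ ?_ hw
    · rw [xs_comp_prH, h1]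
    · rw [xs_comp_prH, h2]
    · rw [xs_comp_prH, h3]
    · rw [xs_comp_prH, h4]

namespace Npy

lemma mem_box0 {A B : Pt S.V 1} {z : Coord (Fin 5) 1} (hz : z ∈ A.I) :
    prH 0 z ∈ (S.pB A B).I := by
  rw [pB_I]
  exact (le_iSup (fun i => (![A, B] i).I.map
    (rename (R := ℂ) (fun v : Fin 1 × Fin 5 => (i, v.2))).toRingHom) 0)
    (Ideal.mem_map_of_mem _ hz)

lemma mem_box1 {A B : Pt S.V 1} {z : Coord (Fin 5) 1} (hz : z ∈ B.I) :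
    prH 1 z ∈ (S.pB A B).I := by
  rw [pB_I]
  exact (le_iSup (fun i => (![A, B] i).I.map
    (rename (R := ℂ) (fun v : Fin 1 × Fin 5 => (i, v.2))).toRingHom) 1)
    (Ideal.mem_map_of_mem _ hz)

lemma X_mem_p {j : Fin 5} (hj : j ≠ 0) : (MvPolynomial.X (0, j) : Coord (Fin 5) 1) ∈ S.pp.I := by
  refine (X_mem_genIdeal S.V _ (0, j)).2 ?_
  fin_cases j
  · exact absurd rfl hj
  · rfl
  · rfl
  · rfl
  · rfl

lemma X4_mem_Y : (MvPolynomial.X (0, 4) : Coord (Fin 5) 1) ∈ S.pY.I :=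
  (X_mem_genIdeal S.V _ (0, 4)).2 rfl

/-- a point of the surface over a point of the plane -/
lemma ptY_ne_of (x y z : ℂ) (w : ℂ) (h : S.F0v (RingHom.id ℂ) ![w, x, y, z, 0] = 0) (j : Fin 5)
    (hj : (![w, x, y, z, 0] : Fin 5 → ℂ) j ≠ 0) : S.ptY j ≠ 0 := by
  obtain ⟨γ, -, hγ⟩ := S.exists_liftY (RingHom.id ℂ) ![w, x, y, z, 0] rfl h
  intro h0
  apply hj
  rw [← hγ j, h0, map_zero]

lemma ptY_ne' (j : Fin 5) (hj : j ≠ 4) : S.ptY j ≠ 0 := by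
  have h1 : ∀ y z : ℂ, S.F0v (RingHom.id ℂ)
      ![-(S.phv (RingHom.id ℂ) y z + S.gv (RingHom.id ℂ) 1 y z), 1, y, z, 0] = 0 := by
    intro y z
    have e0 : (![-(S.phv (RingHom.id ℂ) y z + S.gv (RingHom.id ℂ) 1 y z), 1, y, z, 0] :
      Fin 5 → ℂ) 0 = -(S.phv (RingHom.id ℂ) y z + S.gv (RingHom.id ℂ) 1 y z) := rfl
    have e1 : (![-(S.phv (RingHom.id ℂ) y z + S.gv (RingHom.id ℂ) 1 y z), 1, y, z, 0] :
      Fin 5 → ℂ) 1 = 1 := rfl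
    have e2 : (![-(S.phv (RingHom.id ℂ) y z + S.gv (RingHom.id ℂ) 1 y z), 1, y, z, 0] :
      Fin 5 → ℂ) 2 = y := rfl
    have e3 : (![-(S.phv (RingHom.id ℂ) y z + S.gv (RingHom.id ℂ) 1 y z), 1, y, z, 0] :
      Fin 5 → ℂ) 3 = z := rfl
    rw [F0v, e0, e1, e2, e3, one_pow]
    ring
  have h2 : S.F0v (RingHom.id ℂ) ![1, 0, 0, 0, 0] = 0 := by
    have e0 : (![1, 0, 0, 0, 0] : Fin 5 → ℂ) 0 = 1 := rfl
    have e1 : (![1, 0, 0, 0, 0] : Fin 5 → ℂ) 1 = 0 := rfl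
    have e2 : (![1, 0, 0, 0, 0] : Fin 5 → ℂ) 2 = 0 := rfl
    have e3 : (![1, 0, 0, 0, 0] : Fin 5 → ℂ) 3 = 0 := rfl
    rw [F0v, e0, e1, e2, e3, phv_zero_left, zero_pow (by omega), zero_pow (by omega)]
    ring
  fin_cases j
  · exact ptY_ne_of S 0 0 0 1 h2 0 one_ne_zero
  · exact ptY_ne_of S 1 0 0 _ (h1 0 0) 1 one_ne_zero
  · exact ptY_ne_of S 1 1 0 _ (h1 1 0) 2 one_ne_zero
  · exact ptY_ne_of S 1 0 1 _ (h1 0 1) 3 one_ne_zero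
  · exact absurd rfl hj

/-- evaluation at the vertex and the generic point of the surface -/
noncomputable def ev : Coord (Fin 5) 2 →+* S.RY :=
  (aeval (fun v : Fin 2 × Fin 5 => if v.1 = 0 then
    (![1, 0, 0, 0, 0] : Fin 5 → S.RY) v.2 else S.ptY v.2)).toRingHom

lemma ev_X0 (j : Fin 5) : ev S (MvPolynomial.X (0, j)) = (![1, 0, 0, 0, 0] : Fin 5 → S.RY) j := by
  simp [ev]

lemma ev_X1 (j : Fin 5) : ev S (MvPolynomial.X (1, j)) = S.ptY j := by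
  simp [ev]

lemma xs_ev0 : xs (ev S) 0 = (![1, 0, 0, 0, 0] : Fin 5 → S.RY) := funext fun j => ev_X0 S j

lemma xs_ev1 : xs (ev S) 1 = S.ptY := funext fun j => ev_X1 S j

lemma cs_ev : cs (ev S) = algebraMap ℂ S.RY := by
  refine RingHom.ext fun a => ?_
  rw [cs, RingHom.comp_apply]
  exact (aeval _).commutes a

lemma ev_of_mem {z : Coord (Fin 5) 2} (hz : z ∈ (S.pB S.pp S.pY).I) : ev S z = 0 := by
  refine S.kill_pY_box (ev S) ?_ ?_ ?_ ?_ ?_ ?_ hz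
  · rw [xs_ev0]
    rfl
  · rw [xs_ev0]
    rfl
  · rw [xs_ev0]
    rfl
  · rw [xs_ev0]
    rfl
  · rw [xs_ev1]
    rfl
  · rw [xs_ev1, cs_ev, F0v_ptY]

lemma ev_P0 : ev S (inFactor 2 0 S.P) = algebraMap ℂ S.RY S.lc := by
  rw [map_inFactor, xs_ev0, cs_ev]
  have h := map_eval₂ (RingHom.id ℂ) (algebraMap ℂ S.RY) ![1, 0, 0, 0, 0] S.P
  have h1 : (fun j => algebraMap ℂ S.RY ((![1, 0, 0, 0, 0] : Fin 5 → ℂ) j)) =
      ![1, 0, 0, 0, 0] := by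
    funext j
    fin_cases j
    · exact map_one _
    · exact map_zero _
    · exact map_zero _
    · exact map_zero _
    · exact map_zero _
  rw [h1, RingHom.comp_id] at h
  exact h.symm

end Npy

lemma X_mem_pp (j : Fin 5) (hj : j ≠ 0) :
    (MvPolynomial.X (0, j) : Coord (Fin 5) 2) ∈ (S.pB S.pp S.pY).I := by
  have h := Npy.mem_box0 S (B := S.pY) (Npy.X_mem_p S hj)
  rwa [prH_X] at h

lemma X4_mem_pp : (MvPolynomial.X (1, 4) : Coord (Fin 5) 2) ∈ (S.pB S.pp S.pY).I := by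
  have h := Npy.mem_box1 S (A := S.pp) (Npy.X4_mem_Y S)
  rwa [prH_X] at h

lemma X0_pp : (MvPolynomial.X (0, 0) : Coord (Fin 5) 2) ∉ (S.pB S.pp S.pY).I := by
  intro h
  have h1 := Npy.ev_of_mem S h
  rw [Npy.ev_X0] at h1
  exact one_ne_zero h1

lemma X1_pp (j : Fin 5) (hj : j ≠ 4) :
    (MvPolynomial.X (1, j) : Coord (Fin 5) 2) ∉ (S.pB S.pp S.pY).I := by
  intro h
  have h1 := Npy.ev_of_mem S h
  rw [Npy.ev_X1] at h1
  exact Npy.ptY_ne' S j hj h1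

lemma NN1_pp : NN 1 ∉ (S.pB S.pp S.pY).I := by
  intro h
  have h1 := Npy.ev_of_mem S h
  have e0 : (![1, 0, 0, 0, 0] : Fin 5 → S.RY) 0 = 1 := rfl
  have e1 : (![1, 0, 0, 0, 0] : Fin 5 → S.RY) 1 = 0 := rfl
  rw [NN, map_sub, map_mul, map_mul, Npy.ev_X0, Npy.ev_X0, Npy.ev_X1, Npy.ev_X1, e0, e1, one_mul,
    mul_zero, sub_zero] at h1
  exact S.ptY_ne h1

lemma RR1_pp : S.RR 1 ∉ (S.pB S.pp S.pY).I := by
  intro h
  have h1 := Npy.ev_of_mem S h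
  have e1 : (![1, 0, 0, 0, 0] : Fin 5 → S.RY) 1 = 0 := rfl
  rw [RR, map_sub, map_mul, map_mul, map_pow, map_pow, Npy.ev_X0, Npy.ev_X1, e1,
    zero_pow (by omega), zero_mul, sub_zero, Npy.ev_P0] at h1
  rcases mul_eq_zero.1 h1 with h2 | h2
  · exact S.ptY_ne (pow_eq_zero_iff (by omega) |>.1 h2)
  · exact S.hPc ((algebraMap ℂ S.RY).injective (h2.trans (map_zero _).symm))

end LnData

end Pool.Agent.RCH
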