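import Pool.Agent.RCH.LnNPY
import Pool.Agent.RCH.LnLead

/-!
# Functions which are not zero on the fibre square of the projection
-/

set_option autoImplicit false

open MvPolynomial

namespace Pool.Agent.RCH

namespace LnData

variable (S : LnData)

lemma ptX_ne' (j : Fin 5) : S.ptX j ≠ 0 := by
  intro h
  rw [ptX, Ideal.Quotient.eq_zero_iff_mem] at h
  obtain ⟨q, hq⟩ := Ideal.mem_span_singleton'.1 h
  have hX : (MvPolynomial.X j : MvPolynomial (Fin 5) ℂ) ≠ 0 := MvPolynomial.X_ne_zero j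
  have hq0 : q ≠ 0 := by
    rintro rfl
    rw [zero_mul] at hq
    exact hX hq.symm
  have hF0 : S.F ≠ 0 := by
    intro h0
    rw [h0, mul_zero] at hq
    exact hX hq.symm
  have h1 := totalDegree_mul_of_isDomain hq0 hF0
  rw [hq, S.isHomogeneous_F.totalDegree hF0, totalDegree_X] at h1
  omega

namespace Nv

lemma inj_X : Function.Injective (algebraMap S.RX S.AX) :=
  IsLocalization.injective (M := Submonoid.powers (S.ptX 4)) S.AX
    (Submonoid.powers_le.2 (mem_nonZeroDivisors_of_ne_zero (S.ptX_ne' 4)))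

lemma domA : IsDomain S.AX :=
  IsLocalization.isDomain_localization
    (Submonoid.powers_le.2 (mem_nonZeroDivisors_of_ne_zero (S.ptX_ne' 4)))

lemma natDegree_Fp : (S.Fp (algebraMap ℂ S.AX) S.ptA).natDegree = S.m + 2 := by
  have := domA S
  refine le_antisymm (S.natDegree_Fp_le _ _) (Polynomial.le_natDegree_of_ne_zero ?_)
  rw [coeff_Fp, mul_comm]
  exact S.isUnit_lc_mul.ne_zero

lemma natDegree_Gm : S.Gm.natDegree = S.m + 1 := by
  have := domA S
  have h1 : S.lcInv ≠ 0 := (Units.isUnit (S.isUnit_lc_mul.unit⁻¹)).ne_zero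
  rw [Gm, Polynomial.natDegree_C_mul h1, Gp,
    Polynomial.natDegree_divByMonic _ (Polynomial.monic_X_sub_C _), natDegree_Fp,
    Polynomial.natDegree_X_sub_C]
  omega

lemma inj_A : Function.Injective (AdjoinRoot.of S.Gm) := by
  have := domA S
  apply AdjoinRoot.of.injective_of_degree_ne_zero
  intro h
  have h1 : S.Gm.natDegree = 0 := Polynomial.natDegree_eq_of_degree_eq_some h
  rw [natDegree_Gm] at h1
  omega

/-- the inclusion of the ring of the threefold -/
noncomputable def inc : S.RX →+* S.RV := (AdjoinRoot.of S.Gm).comp (algebraMap S.RX S.AX)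

lemma inc_inj : Function.Injective (inc S) := (inj_A S).comp (inj_X S)

lemma inc_ptX (j : Fin 5) : inc S (S.ptX j) = S.ptV0 j := rfl

lemma inc_comp : (inc S).comp (algebraMap ℂ S.RX) = algebraMap ℂ S.RV := by
  rw [← of_comp]
  refine RingHom.ext fun a => ?_
  rw [RingHom.comp_apply, RingHom.comp_apply, algebraMap_AX]
  rfl

lemma ptV0_ne (j : Fin 5) : S.ptV0 j ≠ 0 := by
  rw [← inc_ptX]
  exact fun h => S.ptX_ne' j (inc_inj S (h.trans (map_zero _).symm))

lemma dFv_ptX : S.dFv (algebraMap ℂ S.RX) S.ptX ≠ 0 := by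
  intro h
  obtain ⟨ρ, h1, h2, -⟩ := S.exists_restr
  have h3 := S.map_dFv (algebraMap ℂ S.RX) ρ S.ptX
  have h4 : ρ.comp (algebraMap ℂ S.RX) = algebraMap ℂ S.RY := RingHom.ext h1
  have h5 : (fun j => ρ (S.ptX j)) = S.ptY := funext h2
  have h6 : S.ptY 4 = 0 := rfl
  rw [h, map_zero, h4, h5, dFv, h6, zero_mul, add_zero] at h3
  exact S.ptY_ne (pow_eq_zero_iff (by omega) |>.1 h3.symm)

lemma dFv_ptV0 : S.dFv (algebraMap ℂ S.RV) S.ptV0 ≠ 0 := by
  intro h
  have h3 := S.map_dFv (algebraMap ℂ S.RX) (inc S) S.ptX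
  have h5 : (fun j => inc S (S.ptX j)) = S.ptV0 := funext (inc_ptX S)
  rw [inc_comp, h5, h] at h3
  exact dFv_ptX S (inc_inj S (h3.trans (map_zero _).symm))

lemma root_ne : AdjoinRoot.root S.Gm ≠ S.ptV0 0 := by
  intro h
  have h1 := S.eval_Gp_root
  rw [h, S.eval_Gp_self _ _ S.Fv_ptV0] at h1
  exact dFv_ptV0 S h1

lemma notMem_of_aeval {z : Coord (Fin 5) 2} (h : aeval S.ptV z ≠ 0) : z ∉ S.pV.I :=
  fun hz => h (aeval_of_mem S.V S.ptV hz)

end Nv

lemma X_pV (i : Fin 2) (j : Fin 5) (hj : j ≠ 0) :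
    (MvPolynomial.X (i, j) : Coord (Fin 5) 2) ∉ S.pV.I := by
  refine Nv.notMem_of_aeval S ?_
  rw [aeval_X]
  fin_cases i
  · exact Nv.ptV0_ne S j
  · fin_cases j
    · exact absurd rfl hj
    · exact Nv.ptV0_ne S 1
    · exact Nv.ptV0_ne S 2
    · exact Nv.ptV0_ne S 3
    · exact Nv.ptV0_ne S 4

lemma NN_pV (j : Fin 5) (hj : j ≠ 0) : NN j ∉ S.pV.I := by
  refine Nv.notMem_of_aeval S ?_
  have h1 : S.ptV (0, 0) = S.ptV0 0 := rfl
  have h2 : S.ptV (1, 0) = AdjoinRoot.root S.Gm := rfl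
  have h3 : S.ptV (0, j) = S.ptV0 j := rfl
  have h4 : S.ptV (1, j) = S.ptV0 j := by
    fin_cases j
    · exact absurd rfl hj
    · rfl
    · rfl
    · rfl
    · rfl
  rw [NN, map_sub, map_mul, map_mul, aeval_X, aeval_X, aeval_X, aeval_X, h1, h2, h3, h4, ← sub_mul]
  exact mul_ne_zero (sub_ne_zero.2 (Nv.root_ne S).symm) (Nv.ptV0_ne S j)

end LnData

end Pool.Agent.RCH
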