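import Pool.Agent.RCH.LnPts

/-!
# The forms used for the lines on a threefold
-/

set_option autoImplicit false

open MvPolynomial

namespace Pool.Agent.RCH

namespace LnData

variable (S : LnData)

/-- the linear form of the `k`-th line -/
noncomputable def lam (i : Fin 2) (k : Fin S.t) : Coord (Fin 5) 2 :=
  MvPolynomial.X (i, 3) - C (S.b k) * MvPolynomial.X (i, 2)

/-- the form `y_j ^ (d - 1) P(x) - x_j ^ (d - 1) P(y)` -/
noncomputable def RR (j : Fin 5) : Coord (Fin 5) 2 :=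
  MvPolynomial.X (1, j) ^ (S.m + 2) * inFactor 2 0 S.P -
    MvPolynomial.X (0, j) ^ (S.m + 2) * inFactor 2 1 S.P

/-- `x_1 ^ (d - 2) y_1 ^ (d - 1) N_1 + y_4 R_1` -/
noncomputable def HH : Coord (Fin 5) 2 :=
  MvPolynomial.X (0, 1) ^ (S.m + 1) * MvPolynomial.X (1, 1) ^ (S.m + 2) * NN 1 +
    MvPolynomial.X (1, 4) * S.RR 1

/-- `x_0 x_1 ^ (d - 2) + g(x_1, x_2, x_3)` -/
noncomputable def gX (i : Fin 2) : Coord (Fin 5) 2 :=
  MvPolynomial.X (i, 0) * MvPolynomial.X (i, 1) ^ (S.m + 1) +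
    aeval ![MvPolynomial.X (i, 1), MvPolynomial.X (i, 2), MvPolynomial.X (i, 3)] S.g

end LnData

end Pool.Agent.RCH
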