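import Pool.Agent.RCH.LnPts
import Pool.Agent.RCH.LnForms
import Pool.Agent.RCH.LnNV

/-!
# Relations at the generic point of the fibre square of the projection from the vertex
-/

set_option autoImplicit false

open MvPolynomial

namespace Pool.Agent.RCH

attribute [local instance] Pt.prime

namespace LnData

variable (S : LnData)

/-- the main relation between the values of the equation at two points which are proportional in the
last four coordinates -/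
lemma key_rel {L : Type} [CommRing L] (c : ℂ →+* L) (x y : Fin 5 → L) (j : Fin 5)
    (hm : ∀ k, k ≠ 0 → x j * y k = y j * x k) :
    y j ^ (S.m + 3) * S.Fv c x - x j ^ (S.m + 3) * S.Fv c y =
      (y j * x 1) ^ (S.m + 2) * (x 0 * y j - y 0 * x j) +
        y j * x 4 * (y j ^ (S.m + 2) * S.Pv c x - x j ^ (S.m + 2) * S.Pv c y) := by
  rw [← S.Fv_smul c (y j) x, ← S.Fv_smul c (x j) y]
  simp only [Fv, F0v, S.Pv_smul]
  rw [hm 1 (by decide), hm 2 (by decide), hm 3 (by decide), hm 4 (by decide)]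
  ring

lemma mn_pV (i j : Fin 5) (hi : i ≠ 0) (hj : j ≠ 0) : mn i j ∈ S.pV.I := by
  change genHom S.V S.ptV (mn i j) = 0
  have h : ∀ k : Fin 5, k ≠ 0 → S.ptV (1, k) = S.ptV (0, k) := by
    intro k hk
    fin_cases k
    · exact absurd rfl hk
    · rfl
    · rfl
    · rfl
    · rfl
  rw [mn, map_sub, map_mul, map_mul]
  simp only [genHom, aeval_X, wt_V]
  rw [h i hi, h j hj]
  ring

/-- the quotient homomorphism -/
noncomputable abbrev qV : Coord (Fin 5) 2 →+* (Coord (Fin 5) 2 ⧸ S.pV.I) := Ideal.Quotient.mk S.pV.I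

lemma qV_eq_zero {z : Coord (Fin 5) 2} : S.qV z = 0 ↔ z ∈ S.pV.I := Ideal.Quotient.eq_zero_iff_mem

lemma qV_mn (j k : Fin 5) (hj : j ≠ 0) (hk : k ≠ 0) :
    xs S.qV 0 j * xs S.qV 1 k = xs S.qV 1 j * xs S.qV 0 k := by
  have h := S.qV_eq_zero.2 (S.mn_pV j k hj hk)
  rw [mn, map_sub, map_mul, map_mul, sub_eq_zero] at h
  exact h

lemma qV_Fv (i : Fin 2) : S.Fv (cs S.qV) (xs S.qV i) = 0 := by
  rw [← map_FX]
  exact S.qV_eq_zero.2 (S.FX_mem S.pV i)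

lemma qV_RR (j : Fin 5) : S.qV (S.RR j) = xs S.qV 1 j ^ (S.m + 2) * S.Pv (cs S.qV) (xs S.qV 0) -
    xs S.qV 0 j ^ (S.m + 2) * S.Pv (cs S.qV) (xs S.qV 1) := by
  rw [RR, map_sub, map_mul, map_mul, map_pow, map_pow, map_inFactor, map_inFactor]
  rfl

lemma qV_NN (j : Fin 5) : S.qV (NN j) = xs S.qV 0 0 * xs S.qV 1 j - xs S.qV 1 0 * xs S.qV 0 j := by
  rw [NN, map_sub, map_mul, map_mul]
  rfl

lemma KK_pV (j : Fin 5) (hj : j ≠ 0) :
    MvPolynomial.X (0, 1) ^ (S.m + 2) * MvPolynomial.X (1, j) ^ (S.m + 2) * NN j +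
      MvPolynomial.X (0, 4) * MvPolynomial.X (1, j) * S.RR j ∈ S.pV.I := by
  rw [← qV_eq_zero, map_add, map_mul, map_mul, map_mul, map_mul, map_pow, map_pow, qV_RR, qV_NN]
  have h := S.key_rel (cs S.qV) (xs S.qV 0) (xs S.qV 1) j (fun k hk => S.qV_mn j k hj hk)
  rw [qV_Fv, qV_Fv] at h
  change xs S.qV 0 1 ^ (S.m + 2) * xs S.qV 1 j ^ (S.m + 2) *
    (xs S.qV 0 0 * xs S.qV 1 j - xs S.qV 1 0 * xs S.qV 0 j) +
    xs S.qV 0 4 * xs S.qV 1 j * (xs S.qV 1 j ^ (S.m + 2) * S.Pv (cs S.qV) (xs S.qV 0) -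
      xs S.qV 0 j ^ (S.m + 2) * S.Pv (cs S.qV) (xs S.qV 1)) = 0
  linear_combination -h

lemma HH_pV : S.HH ∈ S.pV.I := by
  have h := S.KK_pV 1 (by decide)
  rw [← qV_eq_zero] at h ⊢
  have h0 : S.qV (MvPolynomial.X (0, 1)) ≠ 0 := fun h0 => S.X_pV 0 1 (by decide) (S.qV_eq_zero.1 h0)
  haveI : IsDomain (Coord (Fin 5) 2 ⧸ S.pV.I) := Ideal.Quotient.isDomain _
  have hm := S.qV_mn 1 4 (by decide) (by decide)
  have e : S.qV (MvPolynomial.X (0, 1)) * S.qV S.HH = 0 := by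
    rw [HH, map_add, map_mul, map_mul, map_mul, map_pow, map_pow]
    rw [map_add, map_mul, map_mul, map_mul, map_mul, map_pow, map_pow] at h
    change xs S.qV 0 1 * xs S.qV 1 4 = xs S.qV 1 1 * xs S.qV 0 4 at hm
    change xs S.qV 0 1 ^ (S.m + 2) * xs S.qV 1 1 ^ (S.m + 2) * S.qV (NN 1) +
      xs S.qV 0 4 * xs S.qV 1 1 * S.qV (S.RR 1) = 0 at h
    change xs S.qV 0 1 * (xs S.qV 0 1 ^ (S.m + 1) * xs S.qV 1 1 ^ (S.m + 2) * S.qV (NN 1) +
      xs S.qV 1 4 * S.qV (S.RR 1)) = 0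
    linear_combination h + S.qV (S.RR 1) * hm
  exact (mul_eq_zero.1 e).resolve_left h0

lemma HH4_pV :
    MvPolynomial.X (0, 1) ^ (S.m + 1) * MvPolynomial.X (1, 1) * MvPolynomial.X (1, 4) ^ S.m * NN 4 +
      S.RR 4 ∈ S.pV.I := by
  have h := S.KK_pV 4 (by decide)
  rw [← qV_eq_zero] at h ⊢
  have h0 : S.qV (MvPolynomial.X (0, 4)) ≠ 0 := fun h0 => S.X_pV 0 4 (by decide) (S.qV_eq_zero.1 h0)
  have h1 : S.qV (MvPolynomial.X (1, 4)) ≠ 0 := fun h0 => S.X_pV 1 4 (by decide) (S.qV_eq_zero.1 h0)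
  haveI : IsDomain (Coord (Fin 5) 2 ⧸ S.pV.I) := Ideal.Quotient.isDomain _
  have hm := S.qV_mn 1 4 (by decide) (by decide)
  have e : S.qV (MvPolynomial.X (0, 4)) * S.qV (MvPolynomial.X (1, 4)) *
      S.qV (MvPolynomial.X (0, 1) ^ (S.m + 1) * MvPolynomial.X (1, 1) *
        MvPolynomial.X (1, 4) ^ S.m * NN 4 + S.RR 4) = 0 := by
    rw [map_add, map_mul, map_mul, map_mul, map_pow, map_pow]
    rw [map_add, map_mul, map_mul, map_mul, map_mul, map_pow, map_pow] at h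
    change xs S.qV 0 1 * xs S.qV 1 4 = xs S.qV 1 1 * xs S.qV 0 4 at hm
    change xs S.qV 0 1 ^ (S.m + 2) * xs S.qV 1 4 ^ (S.m + 2) * S.qV (NN 4) +
      xs S.qV 0 4 * xs S.qV 1 4 * S.qV (S.RR 4) = 0 at h
    change xs S.qV 0 4 * xs S.qV 1 4 * (xs S.qV 0 1 ^ (S.m + 1) * xs S.qV 1 1 *
      xs S.qV 1 4 ^ S.m * S.qV (NN 4) + S.qV (S.RR 4)) = 0
    linear_combination h - xs S.qV 0 1 ^ (S.m + 1) * xs S.qV 1 4 ^ (S.m + 1) * S.qV (NN 4) * hm
  exact (mul_eq_zero.1 e).resolve_left (mul_ne_zero h0 h1)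

end LnData

end Pool.Agent.RCH
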