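import Pool.Agent.RCH.LnRV

/-!
# Divided differences and the Taylor formula at the generic point of the fibre square
-/

set_option autoImplicit false

open MvPolynomial

namespace Pool.Agent.RCH

attribute [local instance] Pt.prime

namespace LnData

variable (S : LnData)

/-- the value of a form at a point whose first coordinate is a variable -/
noncomputable def polP {L : Type} [CommRing L] (c : ℂ →+* L) (e : Fin 5 → L)
    (p : MvPolynomial (Fin 5) ℂ) : Polynomial L :=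
  eval₂Hom (Polynomial.C.comp c) ![Polynomial.X, Polynomial.C (e 1), Polynomial.C (e 2),
    Polynomial.C (e 3), Polynomial.C (e 4)] p

lemma eval_polP {L : Type} [CommRing L] (c : ℂ →+* L) (e : Fin 5 → L)
    (p : MvPolynomial (Fin 5) ℂ) (y : L) :
    (polP c e p).eval y = eval₂Hom c (repl e y) p := by
  have h := map_eval₂ (Polynomial.C.comp c) (Polynomial.evalRingHom y)
    ![Polynomial.X, Polynomial.C (e 1), Polynomial.C (e 2), Polynomial.C (e 3), Polynomial.C (e 4)] p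
  have h1 : (Polynomial.evalRingHom y).comp (Polynomial.C.comp c) = c := by
    ext a
    · simp
  rw [h1] at h
  have h2 : (fun j => Polynomial.evalRingHom y ((![Polynomial.X, Polynomial.C (e 1),
      Polynomial.C (e 2), Polynomial.C (e 3), Polynomial.C (e 4)] : Fin 5 → Polynomial L) j)) =
      repl e y := by
    funext j
    fin_cases j <;> simp [repl]
  rw [h2] at h
  exact h

lemma dFv_smul {L : Type} [CommRing L] (c : ℂ →+* L) (k : L) (e : Fin 5 → L) :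
    S.dFv c (fun j => k * e j) = k ^ (S.m + 2) * S.dFv c e := by
  have h : (pderiv 0 S.P).IsHomogeneous (S.m + 1) := by
    have h1 := S.hP.pderiv (i := 0)
    exact h1
  have h2 := eval₂Hom_smul_of_isHomogeneous c h k e
  rw [dFv, dFv, h2]
  ring

/-- the coordinates of the `i`-th point -/
noncomputable def vx (i : Fin 2) (k : Fin 5) : Coord (Fin 5) 2 := MvPolynomial.X (i, k)

lemma repl_qV (j : Fin 5) (hj : j ≠ 0) :
    (fun k => S.qV (repl (fun k => vx 1 j * vx 0 k) (vx 0 j * vx 1 0) k)) =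
      fun k => xs S.qV 0 j * xs S.qV 1 k := by
  funext k
  have hm : ∀ k, k ≠ 0 → S.qV (vx 1 j * vx 0 k) = xs S.qV 0 j * xs S.qV 1 k := by
    intro k hk
    rw [map_mul, S.qV_mn j k hj hk]
    rfl
  fin_cases k
  · exact map_mul _ _ _
  · exact hm 1 (by decide)
  · exact hm 2 (by decide)
  · exact hm 3 (by decide)
  · exact hm 4 (by decide)

lemma qV_vx (i : Fin 2) (k : Fin 5) : S.qV (vx i k) = xs S.qV i k := rfl

lemma qV_C : S.qV.comp C = cs S.qV := rfl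

lemma exists_BB (j : Fin 5) (hj : j ≠ 0) : ∃ B : Coord (Fin 5) 2,
    MvPolynomial.X (0, 1) ^ (S.m + 2) * MvPolynomial.X (1, j) ^ (S.m + 1) +
      MvPolynomial.X (0, 4) * B ∈ S.pV.I := by
  obtain ⟨B, hB⟩ := Polynomial.evalSubFactor (polP C (fun k => vx 1 j * vx 0 k) S.P)
    (vx 1 j * vx 0 0) (vx 0 j * vx 1 0)
  refine ⟨B, ?_⟩
  have hK := S.KK_pV j hj
  rw [← qV_eq_zero] at hK ⊢
  have h0 : S.qV (MvPolynomial.X (1, j)) ≠ 0 := fun h0 => S.X_pV 1 j hj (S.qV_eq_zero.1 h0)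
  have h1 : S.qV (NN j) ≠ 0 := fun h0 => S.NN_pV j hj (S.qV_eq_zero.1 h0)
  haveI : IsDomain (Coord (Fin 5) 2 ⧸ S.pV.I) := Ideal.Quotient.isDomain _
  have ea : S.qV ((polP C (fun k => vx 1 j * vx 0 k) S.P).eval (vx 1 j * vx 0 0)) =
      xs S.qV 1 j ^ (S.m + 2) * S.Pv (cs S.qV) (xs S.qV 0) := by
    rw [eval_polP]
    have e1 : repl (fun k => vx 1 j * vx 0 k) (vx 1 j * vx 0 0) =
        (fun k => vx 1 j * vx 0 k : Fin 5 → Coord (Fin 5) 2) :=
      repl_self (fun k => vx 1 j * vx 0 k : Fin 5 → Coord (Fin 5) 2)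
    rw [e1, map_eval₂, qV_C]
    have e2 : (fun k => S.qV (vx 1 j * vx 0 k)) = fun k => xs S.qV 1 j * xs S.qV 0 k := by
      funext k
      exact map_mul _ _ _
    rw [e2]
    exact S.Pv_smul (cs S.qV) (xs S.qV 1 j) (xs S.qV 0)
  have eb : S.qV ((polP C (fun k => vx 1 j * vx 0 k) S.P).eval (vx 0 j * vx 1 0)) =
      xs S.qV 0 j ^ (S.m + 2) * S.Pv (cs S.qV) (xs S.qV 1) := by
    rw [eval_polP, map_eval₂, qV_C, S.repl_qV j hj]
    exact S.Pv_smul (cs S.qV) (xs S.qV 0 j) (xs S.qV 1)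
  have hB' := congrArg S.qV hB
  rw [map_sub, ea, eb, map_mul, map_sub, map_mul, map_mul, qV_vx, qV_vx, qV_vx, qV_vx] at hB'
  rw [map_add, map_mul, map_mul, map_mul, map_mul, map_pow, map_pow, qV_RR] at hK
  rw [map_add, map_mul, map_mul, map_pow, map_pow]
  rw [qV_NN] at hK h1
  have e : S.qV (MvPolynomial.X (1, j)) *
      (xs S.qV 0 0 * xs S.qV 1 j - xs S.qV 1 0 * xs S.qV 0 j) *
      (S.qV (MvPolynomial.X (0, 1)) ^ (S.m + 2) * S.qV (MvPolynomial.X (1, j)) ^ (S.m + 1) +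
        S.qV (MvPolynomial.X (0, 4)) * S.qV B) = 0 := by
    change xs S.qV 0 1 ^ (S.m + 2) * xs S.qV 1 j ^ (S.m + 2) *
      (xs S.qV 0 0 * xs S.qV 1 j - xs S.qV 1 0 * xs S.qV 0 j) +
      xs S.qV 0 4 * xs S.qV 1 j * (xs S.qV 1 j ^ (S.m + 2) * S.Pv (cs S.qV) (xs S.qV 0) -
        xs S.qV 0 j ^ (S.m + 2) * S.Pv (cs S.qV) (xs S.qV 1)) = 0 at hK
    change xs S.qV 1 j *
      (xs S.qV 0 0 * xs S.qV 1 j - xs S.qV 1 0 * xs S.qV 0 j) *
      (xs S.qV 0 1 ^ (S.m + 2) * xs S.qV 1 j ^ (S.m + 1) + xs S.qV 0 4 * S.qV B) = 0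
    linear_combination hK - xs S.qV 0 4 * xs S.qV 1 j * hB'
  exact (mul_eq_zero.1 e).resolve_left (mul_ne_zero h0 h1)

lemma exists_taylor : ∃ R : Coord (Fin 5) 2,
    MvPolynomial.X (1, 4) ^ (S.m + 2) * S.dFX 2 0 - NN 4 * R ∈ S.pV.I := by
  obtain ⟨R, hR⟩ := Polynomial.binomExpansion (S.Fp C (fun k => vx 1 4 * vx 0 k))
    (vx 1 4 * vx 0 0) (vx 0 4 * vx 1 0 - vx 1 4 * vx 0 0)
  refine ⟨R, ?_⟩
  rw [← qV_eq_zero]
  have h1 : S.qV (NN 4) ≠ 0 := fun h0 => S.NN_pV 4 (by decide) (S.qV_eq_zero.1 h0)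
  haveI : IsDomain (Coord (Fin 5) 2 ⧸ S.pV.I) := Ideal.Quotient.isDomain _
  have e1 : repl (fun k => vx 1 4 * vx 0 k) (vx 1 4 * vx 0 0) =
      (fun k => vx 1 4 * vx 0 k : Fin 5 → Coord (Fin 5) 2) :=
    repl_self (fun k => vx 1 4 * vx 0 k : Fin 5 → Coord (Fin 5) 2)
  have e2 : (fun k => S.qV (vx 1 4 * vx 0 k)) = fun k => xs S.qV 1 4 * xs S.qV 0 k := by
    funext k
    exact map_mul _ _ _
  rw [show vx 1 4 * vx 0 0 + (vx 0 4 * vx 1 0 - vx 1 4 * vx 0 0) =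
    (vx 0 4 * vx 1 0 : Coord (Fin 5) 2) from by ring, eval_Fp, eval_Fp, eval_derivative_Fp, e1] at hR
  have hR' := congrArg S.qV hR
  rw [map_add, map_add, map_mul, map_mul, map_pow, map_sub, map_mul, map_mul, map_Fv, map_Fv,
    map_dFv, qV_C, S.repl_qV 4 (by decide), e2, Fv_smul, Fv_smul, qV_Fv, qV_Fv, dFv_smul, qV_vx,
    qV_vx, qV_vx, qV_vx] at hR'
  rw [map_sub, map_mul, map_mul, map_pow, map_dFX]
  rw [qV_NN] at h1 ⊢
  have e : (xs S.qV 0 0 * xs S.qV 1 4 - xs S.qV 1 0 * xs S.qV 0 4) *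
      (xs S.qV 1 4 ^ (S.m + 2) * S.dFv (cs S.qV) (xs S.qV 0) -
        (xs S.qV 0 0 * xs S.qV 1 4 - xs S.qV 1 0 * xs S.qV 0 4) * S.qV R) = 0 := by
    linear_combination hR'
  exact (mul_eq_zero.1 e).resolve_left h1

end LnData

end Pool.Agent.RCH
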