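import Pool.Agent.RCH.LnPts
import Pool.Agent.RCH.Ord2

/-!
# The section `x_4 = 0` of the diagonal
-/

set_option autoImplicit false

open MvPolynomial

namespace Pool.Agent.RCH

attribute [local instance] Pt.prime

namespace LnData

variable (S : LnData)

lemma ptY_ne_aux (e0 e1 e2 e3 : ℂ) (h : S.F0v (RingHom.id ℂ) ![e0, e1, e2, e3, 0] = 0) (j : Fin 5)
    (hj : (![e0, e1, e2, e3, 0] : Fin 5 → ℂ) j ≠ 0) : S.ptY j ≠ 0 := by
  intro h0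
  obtain ⟨γ, -, hγ⟩ := S.exists_liftY (RingHom.id ℂ) (![e0, e1, e2, e3, 0]) rfl h
  have h1 := hγ j
  rw [h0, map_zero] at h1
  exact hj h1.symm

lemma ptY_ne_xy (j : Fin 5) (hj : j ≠ 4) : S.ptY j ≠ 0 := by
  have hF : ∀ e2 e3 : ℂ, S.F0v (RingHom.id ℂ) ![-(S.phv (RingHom.id ℂ) e2 e3 +
      S.gv (RingHom.id ℂ) 1 e2 e3), 1, e2, e3, 0] = 0 := by
    intro e2 e3
    simp [F0v]
  fin_cases j
  · refine S.ptY_ne_aux 1 0 0 0 ?_ 0 one_ne_zero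
    have h := S.Fv_vertex
    rw [Fv] at h
    have e4 : (![1, 0, 0, 0, 0] : Fin 5 → ℂ) 4 = 0 := rfl
    rw [e4, zero_mul, add_zero] at h
    exact h
  · exact S.ptY_ne
  · exact S.ptY_ne_aux _ _ _ _ (hF 1 0) 2 one_ne_zero
  · exact S.ptY_ne_aux _ _ _ _ (hF 0 1) 3 one_ne_zero
  · exact absurd rfl hj

lemma ptX_four_ne : S.ptX 4 ≠ 0 := by
  intro h
  rw [ptX, Ideal.Quotient.eq_zero_iff_mem] at h
  obtain ⟨q, hq⟩ := Ideal.mem_span_singleton'.1 h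
  have hX : (MvPolynomial.X 4 : MvPolynomial (Fin 5) ℂ) ≠ 0 := MvPolynomial.X_ne_zero _
  have hq0 : q ≠ 0 := by
    rintro rfl
    rw [zero_mul] at hq
    exact hX hq.symm
  have hF0 : S.F ≠ 0 := by
    intro h0
    rw [h0, mul_zero] at hq
    exact hX hq.symm
  have h1 := totalDegree_mul_of_isDomain hq0 hF0
  rw [hq, totalDegree_X, S.isHomogeneous_F.totalDegree hF0] at h1
  omega

lemma ptX_ne_xy (j : Fin 5) : S.ptX j ≠ 0 := by
  by_cases hj : j = 4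
  · rw [hj]
    exact S.ptX_four_ne
  · intro h
    obtain ⟨γ, -, hγ⟩ := S.exists_liftX (algebraMap ℂ S.RY) S.ptY S.Fv_ptY
    have h1 := hγ j
    rw [h, map_zero] at h1
    exact S.ptY_ne_xy j hj h1.symm

lemma X_pYD (i : Fin 2) (j : Fin 5) (hj : j ≠ 4) :
    (MvPolynomial.X (i, j) : Coord (Fin 5) 2) ∉ S.pYD.I :=
  fun h => S.ptY_ne_xy j hj ((X_mem_genIdeal S.V _ (i, j)).1 h)

lemma X_pXD (i : Fin 2) (j : Fin 5) : (MvPolynomial.X (i, j) : Coord (Fin 5) 2) ∉ S.pXD.I :=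
  fun h => S.ptX_ne_xy j ((X_mem_genIdeal S.V _ (i, j)).1 h)

/-- the homomorphism defining an ideal of a point with the same coordinates twice -/
lemma genHom_two {D : Type} [CommRing D] [Algebra ℂ D] (e : Fin 5 → D) (v : Fin 2 × Fin 5) :
    genHom S.V (fun v : Fin 2 × Fin 5 => e v.2) (MvPolynomial.X v) =
      C (e v.2) * MvPolynomial.X v.1 := by
  rw [genHom, aeval_X, wt_V, pow_one]

lemma mn_diag {D : Type} [CommRing D] [Algebra ℂ D] (e : Fin 5 → D) (i j : Fin 5) :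
    mn i j ∈ genIdeal S.V (fun v : Fin 2 × Fin 5 => e v.2) := by
  change genHom S.V (fun v : Fin 2 × Fin 5 => e v.2) (mn i j) = 0
  rw [mn, map_sub, map_mul, map_mul, genHom_two, genHom_two, genHom_two, genHom_two]
  ring

lemma mn_pXD (i j : Fin 5) : mn i j ∈ S.pXD.I := S.mn_diag S.ptX i j

lemma mn_pYD (i j : Fin 5) : mn i j ∈ S.pYD.I := S.mn_diag S.ptY i j

lemma X4_pYD (i : Fin 2) : (MvPolynomial.X (i, 4) : Coord (Fin 5) 2) ∈ S.pYD.I :=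
  (X_mem_genIdeal S.V _ (i, 4)).2 rfl

lemma pXD_le_pYD : S.pXD.I ≤ S.pYD.I := by
  intro z hz
  obtain ⟨γ, hγ1, hγ2⟩ := S.exists_liftX (algebraMap ℂ S.RY) S.ptY S.Fv_ptY
  have h := genIdeal_le_comp S.V (fun v : Fin 2 × Fin 5 => S.ptX v.2)
    ({ γ with commutes' := hγ1 } : S.RX →ₐ[ℂ] S.RY) hz
  have h2 : (fun v : Fin 2 × Fin 5 => ({ γ with commutes' := hγ1 } : S.RX →ₐ[ℂ] S.RY)
      (S.ptX v.2)) = fun v : Fin 2 × Fin 5 => S.ptY v.2 := by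
    funext v
    exact hγ2 v.2
  rw [h2] at h
  exact h

lemma dFX_pYD : S.dFX 2 0 ∉ S.pYD.I := by
  intro h
  have h1 := aeval_of_mem S.V _ h
  have h2 : (aeval (fun v : Fin 2 × Fin 5 => S.ptY v.2) : Coord (Fin 5) 2 →ₐ[ℂ] S.RY).toRingHom
      (S.dFX 2 0) = 0 := h1
  rw [map_dFX, dFv] at h2
  have e1 : xs (aeval (fun v : Fin 2 × Fin 5 => S.ptY v.2) :
    Coord (Fin 5) 2 →ₐ[ℂ] S.RY).toRingHom 0 1 = S.ptY 1 := by
    change aeval (fun v : Fin 2 × Fin 5 => S.ptY v.2) (MvPolynomial.X ((0 : Fin 2), (1 : Fin 5))) = _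
    rw [aeval_X]
  have e4 : xs (aeval (fun v : Fin 2 × Fin 5 => S.ptY v.2) :
    Coord (Fin 5) 2 →ₐ[ℂ] S.RY).toRingHom 0 4 = 0 := by
    change aeval (fun v : Fin 2 × Fin 5 => S.ptY v.2) (MvPolynomial.X ((0 : Fin 2), (4 : Fin 5))) = _
    rw [aeval_X]
    rfl
  rw [e1, e4, zero_mul, add_zero] at h2
  exact pow_ne_zero _ S.ptY_ne h2

/-- killing the diagonal of the surface in a local ring -/
lemma kill_pYD_loc (J Q : Ideal (Coord (Fin 5) 2)) [Q.IsPrime] (hJ : S.pXD.I ≤ J)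
    (h4 : toLocMod J Q (MvPolynomial.X (0, 4)) = 0)
    (h0 : ∃ j : Fin 5, (MvPolynomial.X (0, j) : Coord (Fin 5) 2) ∉ Q)
    {z : Coord (Fin 5) 2} (hz : z ∈ S.pYD.I) : toLocMod J Q z = 0 := by
  obtain ⟨j0, hj0⟩ := h0
  obtain ⟨u, hu⟩ := isUnit_toLocMod (J := J) hj0
  have hm : ∀ j, xs (toLocMod J Q) 1 j = xs (toLocMod J Q) 0 j *
      (toLocMod J Q (MvPolynomial.X (1, j0)) * (↑u⁻¹ : LocMod J Q)) := by
    intro j
    have h1 : toLocMod J Q (mn j0 j) = 0 := toLocMod_eq_zero_of_mem (hJ (S.mn_pXD j0 j))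
    rw [mn, map_sub, map_mul, map_mul, ← hu] at h1
    change toLocMod J Q (MvPolynomial.X (1, j)) = toLocMod J Q (MvPolynomial.X (0, j)) *
      (toLocMod J Q (MvPolynomial.X (1, j0)) * (↑u⁻¹ : LocMod J Q))
    have h2 : (u : LocMod J Q) * (↑u⁻¹ : LocMod J Q) = 1 := Units.mul_inv u
    linear_combination (↑u⁻¹ : LocMod J Q) * h1 - toLocMod J Q (MvPolynomial.X (1, j)) * h2
  refine S.kill_YD (toLocMod J Q) _ hm h4 ?_ hz
  have h3 := toLocMod_eq_zero_of_mem (Q := Q) (hJ (S.FX_mem S.pXD 0))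
  rw [map_FX, Fv] at h3
  have h5 : xs (toLocMod J Q) 0 4 = 0 := h4
  rw [h5, zero_mul, add_zero] at h3
  exact h3

lemma unif_XY {z : Coord (Fin 5) 2} (hz : z ∈ S.pYD.I) : ∃ s, s ∉ S.pYD.I ∧
    s * z ∈ S.pXD.I ⊔ Ideal.span {(MvPolynomial.X (0, 4) : Coord (Fin 5) 2)} := by
  refine exists_of_toLocMod_eq_zero (S.kill_pYD_loc _ _ le_sup_left ?_
    ⟨1, S.X_pYD 0 1 (by decide)⟩ hz)
  exact toLocMod_eq_zero_of_mem (Ideal.mem_sup_right (Ideal.mem_span_singleton_self _))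

lemma oxy : CodimOne S.pXD.I S.pYD.I ∧
    ordAt S.pXD.I S.pYD.I (MvPolynomial.X (0, 4)) = (1 : ℕ) ∧ S.dFX 2 0 ∉ S.pYD.I := by
  have hone : (1 : Coord (Fin 5) 2) ∉ S.pYD.I := fun h =>
    S.pYD.prime.ne_top ((Ideal.eq_top_iff_one _).2 h)
  refine ⟨codimOne_of S.pXD_le_pYD (S.X4_pYD 0) (S.X_pXD 0 4) (fun z hz => S.unif_XY hz), ?_,
    S.dFX_pYD⟩
  refine ordAt_eq S.pXD_le_pYD (S.X4_pYD 0) (S.X_pXD 0 4) (fun z hz => S.unif_XY hz)
    (s := 1) (s' := 1) (n := 1) hone hone ?_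
  rw [pow_one, sub_self]
  exact zero_mem _

lemma clxy (Q : Ideal (Coord (Fin 5) 2)) [Q.IsPrime] (h : S.pXD.I ≤ Q)
    (h0 : ∃ j : Fin 5, (MvPolynomial.X (0, j) : Coord (Fin 5) 2) ∉ Q)
    (h1 : ∃ j : Fin 5, (MvPolynomial.X (1, j) : Coord (Fin 5) 2) ∉ Q)
    (h4 : (MvPolynomial.X (0, 4) : Coord (Fin 5) 2) ∈ Q ∨
      (MvPolynomial.X (1, 4) : Coord (Fin 5) 2) ∈ Q) : S.pYD.I ≤ Q := by
  have h4' : (MvPolynomial.X (0, 4) : Coord (Fin 5) 2) ∈ Q := by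
    rcases h4 with h4 | h4
    · exact h4
    · obtain ⟨j, hj⟩ := h1
      have h2 : (MvPolynomial.X (0, 4) * MvPolynomial.X (1, j) : Coord (Fin 5) 2) ∈ Q := by
        have h3 := add_mem (h (S.mn_pXD 4 j)) (Q.mul_mem_right (MvPolynomial.X (0, j)) h4)
        rw [mn, sub_add_cancel] at h3
        exact h3
      exact (Ideal.IsPrime.mem_or_mem (I := Q) inferInstance h2).resolve_right hj
  intro z hz
  exact toLocMod_self_eq_zero.1
    (S.kill_pYD_loc Q Q h (toLocMod_eq_zero_of_mem h4') h0 hz)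

end LnData

end Pool.Agent.RCH
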