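import Pool.Agent.RCH.LnNLL
import Pool.Agent.RCH.LnNU
import Pool.Agent.RCH.LnNV
import Pool.Agent.RCH.LnNPY
import Pool.Agent.RCH.LnXY
import Pool.Agent.RCH.LnDis
import Pool.Agent.RCH.LnUNZ
import Pool.Agent.RCH.LnLEQ
import Pool.Agent.RCH.LnRV
import Pool.Agent.RCH.LnRV2
import Pool.Agent.RCH.Fin
import Pool.Agent.RCH.Ext

/-!
# The common imports of the files on lines on a threefold
-/
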