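import Pool.Agent.RCH.LnBase

/-!
# The primes over the fibre square of the projection which contain a last coordinate
-/

set_option autoImplicit false

open MvPolynomial

namespace Pool.Agent.RCH

namespace LnData

namespace Clv

variable (S : LnData)

/-- the value of `P` at a multiple of the vertex -/
lemma Pv_vertex {L : Type} [CommRing L] (c : ℂ →+* L) (e : Fin 5 → L)
    (h : ∀ j, j ≠ 0 → e j = 0) : S.Pv c e = e 0 ^ (S.m + 2) * c S.lc := by
  have h1 : e = fun j => e 0 * (![1, 0, 0, 0, 0] : Fin 5 → L) j := by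
    funext j
    fin_cases j
    · exact (mul_one _).symm
    · exact (h 1 (by decide)).trans (mul_zero _).symm
    · exact (h 2 (by decide)).trans (mul_zero _).symm
    · exact (h 3 (by decide)).trans (mul_zero _).symm
    · exact (h 4 (by decide)).trans (mul_zero _).symm
  have h2 := S.Pv_smul c (e 0) ![1, 0, 0, 0, 0]
  rw [← h1] at h2
  rw [h2]
  congr 1
  have h3 := map_eval₂ (RingHom.id ℂ) c ![1, 0, 0, 0, 0] S.P
  have h4 : (fun j => c ((![1, 0, 0, 0, 0] : Fin 5 → ℂ) j)) = ![1, 0, 0, 0, 0] := by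
    funext j
    fin_cases j
    · exact map_one _
    · exact map_zero _
    · exact map_zero _
    · exact map_zero _
    · exact map_zero _
  rw [h4, RingHom.comp_id] at h3
  exact h3.symm

variable {D : Type} [CommRing D] [IsDomain D] (φ : Coord (Fin 5) 2 →+* D)

omit [IsDomain D] in
lemma phi_P (i : Fin 2) (h : ∀ j : Fin 5, j ≠ 0 → φ (MvPolynomial.X (i, j)) = 0) :
    φ (inFactor 2 i S.P) = φ (MvPolynomial.X (i, 0)) ^ (S.m + 2) * cs φ S.lc := by
  rw [map_inFactor]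
  exact Pv_vertex S (cs φ) (xs φ i) h

lemma cs_lc : cs φ S.lc ≠ 0 := by
  intro h
  exact S.hPc ((cs φ).injective (h.trans (map_zero _).symm))

/-- the first point is the vertex -/
lemma case_A (hφ : ∀ w ∈ S.pV.I, φ w = 0)
    (h : ∀ j : Fin 5, j ≠ 0 → φ (MvPolynomial.X (0, j)) = 0)
    (h0 : φ (MvPolynomial.X (0, 0)) ≠ 0) {z : Coord (Fin 5) 2} (hz : z ∈ (S.pB S.pp S.pY).I) :
    φ z = 0 := by
  have h4 : φ (MvPolynomial.X (1, 4)) = 0 := by
    have h2 := hφ _ S.HH4_pV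
    rw [map_add, map_mul, map_mul, map_mul, map_pow, h 1 (by decide), zero_pow (by omega),
      zero_mul, zero_mul, zero_mul, zero_add, RR, map_sub, map_mul, map_mul, map_pow, map_pow,
      h 4 (by decide), zero_pow (by omega), zero_mul, sub_zero, phi_P S φ 0 h] at h2
    rcases mul_eq_zero.1 h2 with h3 | h3
    · exact pow_eq_zero_iff (by omega) |>.1 h3
    · exact absurd h3 (mul_ne_zero (pow_ne_zero _ h0) (cs_lc S φ))
  refine S.kill_pY_box φ (h 1 (by decide)) (h 2 (by decide)) (h 3 (by decide)) (h 4 (by decide))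
    h4 ?_ hz
  have h1 := hφ _ (S.FX_mem S.pV 1)
  rw [map_FX, Fv] at h1
  have h4' : xs φ 1 4 = 0 := h4
  rw [h4', zero_mul, add_zero] at h1
  exact h1

/-- the second point is the vertex -/
lemma case_B (hφ : ∀ w ∈ S.pV.I, φ w = 0)
    (h : ∀ j : Fin 5, j ≠ 0 → φ (MvPolynomial.X (1, j)) = 0)
    (h0 : φ (MvPolynomial.X (1, 0)) ≠ 0) {z : Coord (Fin 5) 2} (hz : z ∈ (S.pB S.pY S.pp).I) :
    φ z = 0 := by
  have h4 : φ (MvPolynomial.X (0, 4)) = 0 := by
    have h2 := hφ _ S.HH4_pV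
    rw [map_add, map_mul, map_mul, map_mul, map_pow, h 1 (by decide), mul_zero, zero_mul,
      zero_mul, zero_add, RR, map_sub, map_mul, map_mul, map_pow, map_pow,
      h 4 (by decide), zero_pow (by omega), zero_mul, zero_sub, phi_P S φ 1 h, neg_eq_zero] at h2
    rcases mul_eq_zero.1 h2 with h3 | h3
    · exact pow_eq_zero_iff (by omega) |>.1 h3
    · exact absurd h3 (mul_ne_zero (pow_ne_zero _ h0) (cs_lc S φ))
  refine S.kill_Yp_box φ (h 1 (by decide)) (h 2 (by decide)) (h 3 (by decide)) (h 4 (by decide))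
    h4 ?_ hz
  have h1 := hφ _ (S.FX_mem S.pV 0)
  rw [map_FX, Fv] at h1
  have h4' : xs φ 0 4 = 0 := h4
  rw [h4', zero_mul, add_zero] at h1
  exact h1

/-- the two points are proportional -/
lemma case_C (hφ : ∀ w ∈ S.pV.I, φ w = 0) (i : Fin 5) (hi : i ≠ 0)
    (hx : φ (MvPolynomial.X (0, i)) ≠ 0) (hy : φ (MvPolynomial.X (1, i)) ≠ 0)
    (h4 : φ (MvPolynomial.X (0, 4)) = 0 ∨ φ (MvPolynomial.X (1, 4)) = 0) :
    ∃ k, ∀ z ∈ (S.pB (S.pl k) (S.pl k)).I, φ z = 0 := by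
  have hmn : ∀ j : Fin 5, j ≠ 0 → φ (MvPolynomial.X (0, i)) * φ (MvPolynomial.X (1, j)) =
      φ (MvPolynomial.X (1, i)) * φ (MvPolynomial.X (0, j)) := by
    intro j hj
    have h := hφ _ (S.mn_pV i j hi hj)
    rw [mn, map_sub, map_mul, map_mul] at h
    exact sub_eq_zero.1 h
  have hiff : ∀ j : Fin 5, j ≠ 0 →
      (φ (MvPolynomial.X (0, j)) = 0 ↔ φ (MvPolynomial.X (1, j)) = 0) := by
    intro j hj
    have h := hmn j hj
    constructor
    · intro h0
      rw [h0, mul_zero] at h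
      exact (mul_eq_zero.1 h).resolve_left hx
    · intro h0
      rw [h0, mul_zero] at h
      exact (mul_eq_zero.1 h.symm).resolve_left hy
  have hx4 : φ (MvPolynomial.X (0, 4)) = 0 := h4.elim id (fun h => (hiff 4 (by decide)).2 h)
  have hy4 : φ (MvPolynomial.X (1, 4)) = 0 := (hiff 4 (by decide)).1 hx4
  have hx1 : φ (MvPolynomial.X (0, 1)) = 0 := by
    obtain ⟨B, hB⟩ := S.exists_BB 1 (by decide)
    have h := hφ _ hB
    rw [map_add, map_mul, map_mul, hx4, zero_mul, add_zero, map_pow, map_pow] at h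
    rcases mul_eq_zero.1 h with h | h
    · exact pow_eq_zero_iff (by omega) |>.1 h
    · exact (hiff 1 (by decide)).2 (pow_eq_zero_iff (by omega) |>.1 h)
  have hy1 : φ (MvPolynomial.X (1, 1)) = 0 := (hiff 1 (by decide)).1 hx1
  have hF : S.phv (cs φ) (xs φ 0 2) (xs φ 0 3) = 0 := by
    have h := hφ _ (S.FX_mem S.pV 0)
    have h4' : xs φ 0 4 = 0 := hx4
    have h1' : xs φ 0 1 = 0 := hx1
    rw [map_FX, Fv, h4', zero_mul, add_zero, F0v, h1', zero_pow (by omega), mul_zero, zero_mul,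
      zero_add, add_zero] at h
    exact h
  obtain ⟨k, hk⟩ := S.exists_root (cs φ) hF
  refine ⟨k, fun z hz => S.kill_ll φ k k hx1 hx4 hk hy1 hy4 ?_ hz⟩
  have h3 := hmn 3 (by decide)
  have h2 := hmn 2 (by decide)
  have hk' : φ (MvPolynomial.X (0, 3)) = cs φ (S.b k) * φ (MvPolynomial.X (0, 2)) := hk
  have h5 : φ (MvPolynomial.X (0, i)) * φ (MvPolynomial.X (1, 3)) =
      φ (MvPolynomial.X (0, i)) * (cs φ (S.b k) * φ (MvPolynomial.X (1, 2))) := by
    rw [h3, hk', mul_left_comm, ← h2, mul_left_comm]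
  exact mul_left_cancel₀ hx h5

end Clv

variable (S : LnData)

lemma clv (Q : Ideal (Coord (Fin 5) 2)) [Q.IsPrime] (h : S.pV.I ≤ Q)
    (h0 : ∃ j : Fin 5, (MvPolynomial.X (0, j) : Coord (Fin 5) 2) ∉ Q)
    (h1 : ∃ j : Fin 5, (MvPolynomial.X (1, j) : Coord (Fin 5) 2) ∉ Q)
    (h4 : (MvPolynomial.X (0, 4) : Coord (Fin 5) 2) ∈ Q ∨
      (MvPolynomial.X (1, 4) : Coord (Fin 5) 2) ∈ Q) :
    (S.pB S.pp S.pY).I ≤ Q ∨ (S.pB S.pY S.pp).I ≤ Q ∨ ∃ k, (S.pB (S.pl k) (S.pl k)).I ≤ Q := by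
  have hmem : ∀ z, Ideal.Quotient.mk Q z = 0 ↔ z ∈ Q := fun z => Ideal.Quotient.eq_zero_iff_mem
  have hφ : ∀ w ∈ S.pV.I, Ideal.Quotient.mk Q w = 0 := fun w hw => (hmem w).2 (h hw)
  by_cases hA : ∀ j : Fin 5, j ≠ 0 → (MvPolynomial.X (0, j) : Coord (Fin 5) 2) ∈ Q
  · left
    intro z hz
    rw [← hmem]
    refine Clv.case_A S _ hφ (fun j hj => (hmem _).2 (hA j hj)) ?_ hz
    rw [Ne, hmem]
    obtain ⟨j, hj⟩ := h0
    by_cases hj0 : j = 0
    · rwa [← hj0]
    · exact absurd (hA j hj0) hj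
  by_cases hB : ∀ j : Fin 5, j ≠ 0 → (MvPolynomial.X (1, j) : Coord (Fin 5) 2) ∈ Q
  · right
    left
    intro z hz
    rw [← hmem]
    refine Clv.case_B S _ hφ (fun j hj => (hmem _).2 (hB j hj)) ?_ hz
    rw [Ne, hmem]
    obtain ⟨j, hj⟩ := h1
    by_cases hj0 : j = 0
    · rwa [← hj0]
    · exact absurd (hB j hj0) hj
  · right
    right
    push Not at hA hB
    obtain ⟨i, hi, hx⟩ := hA
    obtain ⟨j, hj, hy⟩ := hB
    have hp : Q.IsPrime := inferInstance
    have hyi : (MvPolynomial.X (1, i) : Coord (Fin 5) 2) ∉ Q := by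
      intro hyi
      have h2 := h (S.mn_pV i j hi hj)
      rw [mn] at h2
      have h3 := add_mem h2 (Q.mul_mem_right (MvPolynomial.X (0, j)) hyi)
      rw [sub_add_cancel] at h3
      exact (hp.mem_or_mem h3).elim hx hy
    obtain ⟨k, hk⟩ := Clv.case_C S (Ideal.Quotient.mk Q) hφ i hi
      (fun h2 => hx ((hmem _).1 h2)) (fun h2 => hyi ((hmem _).1 h2))
      (h4.imp (hmem _).2 (hmem _).2)
    exact ⟨k, fun z hz => (hmem z).1 (hk z hz)⟩

end LnData

end Pool.Agent.RCH
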