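import Pool.Agent.RCH.LnRings

/-!
# The coordinate ring of the monoid surface is a domain
-/

set_option autoImplicit false

open MvPolynomial

namespace Pool.Agent.RCH

namespace LnData

variable (S : LnData)

/-- the part of the equation of the surface without `x_0` -/
noncomputable def b3 : MvPolynomial (Fin 3) ℂ :=
  S.phv C (MvPolynomial.X 1) (MvPolynomial.X 2) +
    MvPolynomial.X 0 * S.gv C (MvPolynomial.X 0) (MvPolynomial.X 1) (MvPolynomial.X 2)

/-- polynomials in four variables as polynomials in the first variable -/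
noncomputable def fs : MvPolynomial (Fin 4) ℂ ≃ₐ[ℂ] Polynomial (MvPolynomial (Fin 3) ℂ) :=
  finSuccEquiv ℂ 3

/-- the same as a homomorphism of rings -/
noncomputable def fsR : MvPolynomial (Fin 4) ℂ →+* Polynomial (MvPolynomial (Fin 3) ℂ) :=
  (fs : MvPolynomial (Fin 4) ℂ ≃ₐ[ℂ] Polynomial (MvPolynomial (Fin 3) ℂ)).toRingEquiv.toRingHom

lemma finSucc_F04 : fs S.F04 =
    Polynomial.C (MvPolynomial.X 0 ^ (S.m + 2)) * Polynomial.X + Polynomial.C S.b3 := by
  have h := S.map_F0v C fsR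
    ![MvPolynomial.X 0, MvPolynomial.X 1, MvPolynomial.X 2, MvPolynomial.X 3, 0]
  have h1 : fsR.comp C =
      Polynomial.C.comp (C : ℂ →+* MvPolynomial (Fin 3) ℂ) := by
    refine RingHom.ext fun a => ?_
    exact (fs : MvPolynomial (Fin 4) ℂ ≃ₐ[ℂ] Polynomial (MvPolynomial (Fin 3) ℂ)).commutes a
  have h2 : (fun j => fsR
      ((![MvPolynomial.X 0, MvPolynomial.X 1, MvPolynomial.X 2, MvPolynomial.X 3, 0] :
        Fin 5 → MvPolynomial (Fin 4) ℂ) j)) =
      ![Polynomial.X, Polynomial.C (MvPolynomial.X 0), Polynomial.C (MvPolynomial.X 1),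
        Polynomial.C (MvPolynomial.X 2), 0] := by
    funext j
    fin_cases j
    · exact finSuccEquiv_X_zero
    · exact finSuccEquiv_X_succ (j := 0)
    · exact finSuccEquiv_X_succ (j := 1)
    · exact finSuccEquiv_X_succ (j := 2)
    · exact map_zero _
  rw [h1, h2] at h
  refine Eq.trans (b := _) h ?_
  have hph := (S.map_phv (C : ℂ →+* MvPolynomial (Fin 3) ℂ) Polynomial.C
    (MvPolynomial.X 1) (MvPolynomial.X 2)).symm
  have hg := (S.map_gv (C : ℂ →+* MvPolynomial (Fin 3) ℂ) Polynomial.C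
    (MvPolynomial.X 0) (MvPolynomial.X 1) (MvPolynomial.X 2)).symm
  rw [F0v, b3]
  change Polynomial.X * Polynomial.C (MvPolynomial.X 0) ^ (S.m + 2) +
    S.phv (Polynomial.C.comp C) (Polynomial.C (MvPolynomial.X 1))
      (Polynomial.C (MvPolynomial.X 2)) +
    Polynomial.C (MvPolynomial.X 0) * S.gv (Polynomial.C.comp C)
      (Polynomial.C (MvPolynomial.X 0)) (Polynomial.C (MvPolynomial.X 1))
      (Polynomial.C (MvPolynomial.X 2)) = _
  rw [hph, hg, map_add, map_mul, map_pow]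
  ring

lemma not_dvd_b3 : ¬ (MvPolynomial.X 0 : MvPolynomial (Fin 3) ℂ) ∣ S.b3 := by
  rintro ⟨q, hq⟩
  obtain ⟨y, hy⟩ : ∃ y : ℂ, ∀ k, y ≠ S.b k := by
    have h : (Set.range S.b).Finite := Set.finite_range S.b
    obtain ⟨y, hy⟩ := h.exists_notMem
    exact ⟨y, fun k hk => hy ⟨k, hk.symm⟩⟩
  have h := congrArg (eval ![(0 : ℂ), 1, y]) hq
  rw [map_mul, b3, map_add, map_mul, eval_X] at h
  have h0 : (![(0 : ℂ), 1, y] : Fin 3 → ℂ) 0 = 0 := rfl
  rw [h0, zero_mul, zero_mul, add_zero] at h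
  have h1 := S.map_phv (C : ℂ →+* MvPolynomial (Fin 3) ℂ) (eval ![(0 : ℂ), 1, y])
    (MvPolynomial.X 1) (MvPolynomial.X 2)
  rw [h] at h1
  have h2 : S.phv ((eval ![(0 : ℂ), 1, y]).comp C) (eval ![(0 : ℂ), 1, y] (MvPolynomial.X 1))
      (eval ![(0 : ℂ), 1, y] (MvPolynomial.X 2)) = 0 := h1.symm
  obtain ⟨k, hk⟩ := S.exists_root _ h2
  rw [eval_X, eval_X, RingHom.comp_apply, eval_C] at hk
  have h3 : y = S.b k * 1 := hk
  exact hy k (by rw [h3, mul_one])

lemma irreducible_F04 : Irreducible S.F04 := by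
  rw [← MulEquiv.irreducible_iff fs, finSucc_F04]
  refine Polynomial.irreducible_C_mul_X_add_C (pow_ne_zero _ (MvPolynomial.X_ne_zero _)) ?_
  have h1 : Irreducible (MvPolynomial.X 0 : MvPolynomial (Fin 3) ℂ) := MvPolynomial.X_prime.irreducible
  exact (h1.isRelPrime_iff_not_dvd.2 S.not_dvd_b3).pow_left

instance instDomRY : IsDomain S.RY :=
  (Ideal.Quotient.isDomain_iff_prime _).2
    ((Ideal.span_singleton_prime S.irreducible_F04.ne_zero).2 S.irreducible_F04.prime)

end LnData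

end Pool.Agent.RCH
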