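import Pool.Agent.RCH.LnDomX
import Pool.Agent.RCH.LnDomY
import Pool.Agent.RCH.LnDomV

/-!
# The rings of the points are domains
-/
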