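import Pool.Agent.RCH.LnForms

/-!
# The values of the forms used for the lines on a threefold
-/

set_option autoImplicit false

open MvPolynomial

namespace Pool.Agent.RCH

namespace LnData

variable (S : LnData)

section values

variable {L : Type} [CommRing L] (φ : Coord (Fin 5) 2 →+* L)

lemma fm_lam (i : Fin 2) (k : Fin S.t) :
    φ (S.lam i k) = xs φ i 3 - cs φ (S.b k) * xs φ i 2 := by
  rw [lam, map_sub, map_mul]
  rfl

lemma fm_NN (j : Fin 5) : φ (NN j) = xs φ 0 0 * xs φ 1 j - xs φ 1 0 * xs φ 0 j := by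
  simp only [NN, map_sub, map_mul]
  rfl

lemma fm_mn (i j : Fin 5) : φ (mn i j) = xs φ 0 i * xs φ 1 j - xs φ 1 i * xs φ 0 j := by
  simp only [mn, map_sub, map_mul]
  rfl

lemma fm_RR (j : Fin 5) : φ (S.RR j) = xs φ 1 j ^ (S.m + 2) * S.Pv (cs φ) (xs φ 0) -
    xs φ 0 j ^ (S.m + 2) * S.Pv (cs φ) (xs φ 1) := by
  simp only [RR, map_sub, map_mul, map_pow, map_inFactor]
  rfl

lemma fm_HH : φ S.HH = xs φ 0 1 ^ (S.m + 1) * xs φ 1 1 ^ (S.m + 2) *
      (xs φ 0 0 * xs φ 1 1 - xs φ 1 0 * xs φ 0 1) +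
    xs φ 1 4 * (xs φ 1 1 ^ (S.m + 2) * S.Pv (cs φ) (xs φ 0) -
    xs φ 0 1 ^ (S.m + 2) * S.Pv (cs φ) (xs φ 1)) := by
  rw [HH, map_add, map_mul, map_mul, map_mul, map_pow, map_pow, fm_RR, fm_NN]
  rfl

lemma fm_gX (i : Fin 2) : φ (S.gX i) = xs φ i 0 * xs φ i 1 ^ (S.m + 1) +
    S.gv (cs φ) (xs φ i 1) (xs φ i 2) (xs φ i 3) := by
  have h : φ.comp (aeval ![(MvPolynomial.X (i, 1) : Coord (Fin 5) 2), MvPolynomial.X (i, 2),
      MvPolynomial.X (i, 3)]).toRingHom =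
      eval₂Hom (cs φ) ![xs φ i 1, xs φ i 2, xs φ i 3] := by
    apply MvPolynomial.ringHom_ext
    · intro a
      simp [cs]
    · intro j
      fin_cases j <;> simp [xs]
  have h1 : φ (aeval ![(MvPolynomial.X (i, 1) : Coord (Fin 5) 2), MvPolynomial.X (i, 2),
      MvPolynomial.X (i, 3)] S.g) = S.gv (cs φ) (xs φ i 1) (xs φ i 2) (xs φ i 3) :=
    congrArg (fun ψ => ψ S.g) h
  rw [gX, map_add, map_mul, map_pow, h1]
  rfl

end values

end LnData

end Pool.Agent.RCH
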