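import Pool.Agent.RCH.LnPts
import Pool.Agent.RCH.LnGen

/-!
# Rows KRULL and HGT: heights of two prime ideals, and primes below them
-/

set_option autoImplicit false

open MvPolynomial

namespace Pool.Agent.RCH

section subst

variable {σ : Type} [DecidableEq σ] (p : σ → MvPolynomial σ ℂ)

/-- the substitution of `p v` for the variables `v` in the list -/
noncomputable def kr_subH (l : List σ) : MvPolynomial σ ℂ →+* MvPolynomial σ ℂ :=
  eval₂Hom C (fun v => if v ∈ l then p v else MvPolynomial.X v)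

lemma kr_subH_C (l : List σ) (a : ℂ) : kr_subH p l (C a) = C a := by
  rw [kr_subH, eval₂Hom_C]

lemma kr_subH_X (l : List σ) (v : σ) :
    kr_subH p l (MvPolynomial.X v) = if v ∈ l then p v else MvPolynomial.X v := by
  rw [kr_subH, eval₂Hom_X']

theorem kr_length_le_height (l : List σ) (hl : l.Nodup)
    (hfix : ∀ l' : List σ, l' ⊆ l → ∀ v ∈ l, kr_subH p l' (p v) = p v)
    (hne : ∀ v ∈ l, (MvPolynomial.X v : MvPolynomial σ ℂ) ≠ p v) :
    (l.length : ℕ∞) ≤ (RingHom.ker (kr_subH p l)).height := by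
  induction l with
  | nil => simp
  | cons v l ih =>
    have hvl : v ∉ l := (List.nodup_cons.1 hl).1
    have h1 := ih (List.nodup_cons.1 hl).2
      (fun l' hl' w hw => hfix l' (fun a ha => List.mem_cons_of_mem _ (hl' ha)) w
        (List.mem_cons_of_mem _ hw))
      (fun w hw => hne w (List.mem_cons_of_mem _ hw))
    have hcomp : kr_subH p (v :: l) = (kr_subH p [v]).comp (kr_subH p l) := by
      apply MvPolynomial.ringHom_ext
      · intro a
        rw [RingHom.comp_apply, kr_subH_C, kr_subH_C, kr_subH_C]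
      · intro w
        rw [RingHom.comp_apply, kr_subH_X, kr_subH_X]
        by_cases hw : w ∈ l
        · rw [if_pos hw, if_pos (List.mem_cons_of_mem _ hw)]
          exact (hfix [v] (by simp) w (List.mem_cons_of_mem _ hw)).symm
        · rw [if_neg hw, kr_subH_X]
          by_cases hwv : w = v
          · subst hwv
            rw [if_pos (by simp), if_pos (by simp)]
          · rw [if_neg (by simp [hwv, hw]), if_neg (by simp [hwv])]
    have hp1 : (RingHom.ker (kr_subH p l)).IsPrime := RingHom.ker_isPrime _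
    have hp2 : (RingHom.ker (kr_subH p (v :: l))).IsPrime := RingHom.ker_isPrime _
    have hlt : RingHom.ker (kr_subH p l) < RingHom.ker (kr_subH p (v :: l)) := by
      refine lt_of_le_of_ne ?_ ?_
      · intro z hz
        rw [RingHom.mem_ker] at hz ⊢
        rw [hcomp, RingHom.comp_apply, hz, map_zero]
      · intro h
        have hz : (MvPolynomial.X v - p v : MvPolynomial σ ℂ) ∈ RingHom.ker (kr_subH p (v :: l)) := by
          rw [RingHom.mem_ker, map_sub, kr_subH_X, if_pos (by simp),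
            hfix (v :: l) (fun a ha => ha) v (by simp), sub_self]
        rw [← h, RingHom.mem_ker, map_sub, kr_subH_X, if_neg hvl,
          hfix l (fun a ha => List.mem_cons_of_mem _ ha) v (by simp)] at hz
        exact hne v (by simp) (sub_eq_zero.1 hz)
    have h2 := Ideal.height_add_one_le_of_lt_of_isPrime hlt
    have h3 : ((v :: l).length : ℕ∞) ≤ (RingHom.ker (kr_subH p l)).height + 1 := by
      rw [List.length_cons]
      push_cast
      gcongr
    exact h3.trans h2

lemma kr_ker_subH_le (l : List σ) (Q : Ideal (MvPolynomial σ ℂ))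
    (h : ∀ v ∈ l, (MvPolynomial.X v - p v : MvPolynomial σ ℂ) ∈ Q) :
    RingHom.ker (kr_subH p l) ≤ Q := by
  intro z hz
  have h1 : (Ideal.Quotient.mk Q).comp (kr_subH p l) = Ideal.Quotient.mk Q := by
    apply MvPolynomial.ringHom_ext
    · intro a
      rw [RingHom.comp_apply, kr_subH_C]
    · intro v
      rw [RingHom.comp_apply, kr_subH_X]
      by_cases hv : v ∈ l
      · rw [if_pos hv, Eq.comm, Ideal.Quotient.eq]
        exact h v hv
      · rw [if_neg hv]
  have h2 := congrArg (fun ψ => ψ z) h1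
  simp only [RingHom.comp_apply] at h2
  rw [RingHom.mem_ker.1 hz, map_zero] at h2
  exact Ideal.Quotient.eq_zero_iff_mem.1 h2.symm

end subst

/-- Row KRULL. -/
theorem krull_lt {R : Type} [CommRing R] [IsNoetherianRing R] {Q : Ideal R} [Q.IsPrime]
    (s : Finset R) (hs : ∀ x ∈ s, x ∈ Q) (hcard : (s.card : ℕ∞) < Q.height) {t : R} (ht : t ∈ Q)
    (h : ∀ z ∈ Q, ∃ r, r ∉ Q ∧ r * z ∈ Ideal.span (s : Set R) ⊔ Ideal.span {t}) :
    ∃ L : Ideal R, L.IsPrime ∧ (∀ x ∈ s, x ∈ L) ∧ L < Q ∧ t ∉ L := by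
  have hJ : Ideal.span (s : Set R) ≤ Q := Ideal.span_le.2 fun z hz => hs z hz
  obtain ⟨L, hL, hJL, hLQ, ht⟩ := exists_prime_lt_notMem hJ s rfl hcard (t := t) h
  exact ⟨L, hL, fun x hx => hJL (Ideal.subset_span hx), hLQ, ht⟩

/-- Row KRULL for five elements. -/
theorem kr_exists_prime_lt5 {S : Type} [CommRing S] [IsNoetherianRing S] {Q : Ideal S}
    [hQ : Q.IsPrime] (h6 : 6 ≤ Q.height) (a b c d e t : S) (ha : a ∈ Q) (hb : b ∈ Q)
    (hc : c ∈ Q) (hd : d ∈ Q) (he : e ∈ Q)
    (h : ∀ z ∈ Q, toLocMod (Ideal.span {a, b, c, d, e} ⊔ Ideal.span {t}) Q z = 0) :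
    ∃ L : Ideal S, L.IsPrime ∧ L < Q ∧ a ∈ L ∧ b ∈ L ∧ c ∈ L ∧ d ∈ L ∧ e ∈ L ∧ t ∉ L := by
  classical
  have hJ : Ideal.span {a, b, c, d, e} ≤ Q := by
    rw [Ideal.span_le]
    intro z hz
    simp only [Set.mem_insert_iff, Set.mem_singleton_iff] at hz
    rcases hz with rfl | rfl | rfl | rfl | rfl <;> assumption
  have hcard : ((({a, b, c, d, e} : Finset S).card : ℕ) : ℕ∞) < Q.height := by
    refine lt_of_lt_of_le ?_ h6
    have h5 : ({a, b, c, d, e} : Finset S).card ≤ 5 := Finset.card_le_five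
    have h5' : ({a, b, c, d, e} : Finset S).card < 6 := by omega
    exact_mod_cast h5'
  obtain ⟨L, hL, hJL, hLQ, ht⟩ := exists_prime_lt_notMem hJ ({a, b, c, d, e} : Finset S)
    (by simp) hcard (t := t) (fun z hz => exists_of_toLocMod_eq_zero (h z hz))
  have hmem : ∀ z ∈ ({a, b, c, d, e} : Set S), z ∈ L := fun z hz => hJL (Ideal.subset_span hz)
  refine ⟨L, hL, hLQ, hmem a (by simp), hmem b (by simp), hmem c (by simp), hmem d (by simp),
    hmem e (by simp), ht⟩

namespace LnData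

variable (S : LnData)

lemma kr_prH0_mem_pB {A B : Pt S.V 1} {z : Coord (Fin 5) 1} (hz : z ∈ A.I) :
    prH 0 z ∈ (S.pB A B).I := by
  rw [pB_I]
  exact Ideal.mem_iSup_of_mem (0 : Fin 2) (Ideal.mem_map_of_mem _ hz)

lemma kr_prH1_mem_pB {A B : Pt S.V 1} {z : Coord (Fin 5) 1} (hz : z ∈ B.I) :
    prH 1 z ∈ (S.pB A B).I := by
  rw [pB_I]
  exact Ideal.mem_iSup_of_mem (1 : Fin 2) (Ideal.mem_map_of_mem _ hz)

lemma kr_X_mem_pp {j : Fin 5} (hj : j ≠ 0) :
    (MvPolynomial.X (0, j) : Coord (Fin 5) 1) ∈ S.pp.I := by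
  refine (X_mem_genIdeal S.V _ (0, j)).2 ?_
  fin_cases j
  · exact absurd rfl hj
  · rfl
  · rfl
  · rfl
  · rfl

lemma kr_X1_mem_pl (k : Fin S.t) : (MvPolynomial.X (0, 1) : Coord (Fin 5) 1) ∈ (S.pl k).I :=
  (X_mem_genIdeal S.V _ (0, 1)).2 rfl

lemma kr_X4_mem_pl (k : Fin S.t) : (MvPolynomial.X (0, 4) : Coord (Fin 5) 1) ∈ (S.pl k).I :=
  (X_mem_genIdeal S.V _ (0, 4)).2 rfl

lemma kr_lam_homog (c : ℂ) : IsWeightedHomogeneous (S.V.mdeg 1)
    (MvPolynomial.X (0, 3) - C c * MvPolynomial.X (0, 2) : Coord (Fin 5) 1) (S.V.mdeg 1 (0, 3)) := by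
  refine IsWeightedHomogeneous.sub ?_ ?_
  · exact isWeightedHomogeneous_X ℂ _ _
  · have h := (isWeightedHomogeneous_C (S.V.mdeg 1) c).mul
      (isWeightedHomogeneous_X ℂ (S.V.mdeg 1) ((0, 2) : Fin 1 × Fin 5))
    rw [zero_add] at h
    exact h

lemma kr_lam_mem_pl (k : Fin S.t) :
    (MvPolynomial.X (0, 3) - C (S.b k) * MvPolynomial.X (0, 2) : Coord (Fin 5) 1) ∈ (S.pl k).I := by
  refine (mem_genIdeal_of_homogeneous S.V _ (S.kr_lam_homog (S.b k))).2 ?_
  rw [map_sub, map_mul, aeval_X, aeval_X, aeval_C]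
  exact sub_self _

lemma kr_X4_mem_pY : (MvPolynomial.X (0, 4) : Coord (Fin 5) 1) ∈ S.pY.I :=
  (X_mem_genIdeal S.V _ (0, 4)).2 rfl

lemma height_pp : 6 ≤ (S.pB S.pp S.pY).I.height := by
  have hQ := (S.pB S.pp S.pY).prime
  let p : Fin 2 × Fin 5 → Coord (Fin 5) 2 := fun _ => 0
  let l : List (Fin 2 × Fin 5) := [(0, 1), (0, 2), (0, 3), (0, 4), (1, 4)]
  have h1 : ((l.length : ℕ) : ℕ∞) ≤ (RingHom.ker (kr_subH p l)).height :=
    kr_length_le_height p l (by decide) (fun l' _ v _ => map_zero _) (fun v _ => MvPolynomial.X_ne_zero v)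
  have hp : (RingHom.ker (kr_subH p l)).IsPrime := RingHom.ker_isPrime _
  have hle : RingHom.ker (kr_subH p l) ≤ (S.pB S.pp S.pY).I := by
    refine kr_ker_subH_le p l _ ?_
    intro v hv
    show MvPolynomial.X v - 0 ∈ _
    rw [sub_zero]
    simp only [l, List.mem_cons, List.not_mem_nil, or_false] at hv
    rcases hv with rfl | rfl | rfl | rfl | rfl
    · rw [← prH_X]; exact S.kr_prH0_mem_pB (S.kr_X_mem_pp (by decide))
    · rw [← prH_X]; exact S.kr_prH0_mem_pB (S.kr_X_mem_pp (by decide))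
    · rw [← prH_X]; exact S.kr_prH0_mem_pB (S.kr_X_mem_pp (by decide))
    · rw [← prH_X]; exact S.kr_prH0_mem_pB (S.kr_X_mem_pp (by decide))
    · rw [← prH_X]; exact S.kr_prH1_mem_pB S.kr_X4_mem_pY
  have hlt : RingHom.ker (kr_subH p l) < (S.pB S.pp S.pY).I := by
    refine lt_of_le_of_ne hle ?_
    intro h
    have hF := S.FX_mem (S.pB S.pp S.pY) 1
    rw [← h, RingHom.mem_ker] at hF
    let y : Fin 5 → ℂ := ![1 - S.gv (RingHom.id ℂ) 1 0 0, 1, 0, 0, 0]
    let ψ : Coord (Fin 5) 2 →+* ℂ := eval (fun v : Fin 2 × Fin 5 => y v.2)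
    have h3 : (ψ.comp (kr_subH p l)) (S.FX 2 1) = 0 := by
      rw [RingHom.comp_apply, hF, map_zero]
    rw [map_FX] at h3
    have h4 : cs (ψ.comp (kr_subH p l)) = RingHom.id ℂ := by
      refine RingHom.ext fun a => ?_
      show ψ (kr_subH p l (C a)) = a
      rw [kr_subH_C]
      exact eval_C a
    have h5 : xs (ψ.comp (kr_subH p l)) 1 = y := by
      funext j
      show ψ (kr_subH p l (MvPolynomial.X (1, j))) = y j
      rw [kr_subH_X]
      fin_cases j
      · rw [if_neg (by decide)]; exact eval_X _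
      · rw [if_neg (by decide)]; exact eval_X _
      · rw [if_neg (by decide)]; exact eval_X _
      · rw [if_neg (by decide)]; exact eval_X _
      · rw [if_pos (by decide)]; exact map_zero _
    rw [h4, h5] at h3
    have e0 : y 0 = 1 - S.gv (RingHom.id ℂ) 1 0 0 := rfl
    have e1 : y 1 = 1 := rfl
    have e2 : y 2 = 0 := rfl
    have e3 : y 3 = 0 := rfl
    have e4 : y 4 = 0 := rfl
    rw [Fv, F0v, e0, e1, e2, e3, e4, phv_zero_left, zero_pow (by omega), one_pow] at h3
    have h6 : (1 : ℂ) = 0 := by linear_combination h3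
    exact one_ne_zero h6
  have h2 := Ideal.height_add_one_le_of_lt_of_isPrime hlt
  refine le_trans ?_ h2
  have h3 : (6 : ℕ∞) = ((l.length : ℕ) : ℕ∞) + 1 := by
    show (6 : ℕ∞) = ((5 : ℕ) : ℕ∞) + 1
    norm_num
  rw [h3]
  gcongr

lemma kr_height_pl_pl (j k : Fin S.t) : 6 ≤ (S.pB (S.pl j) (S.pl k)).I.height := by
  have hQ := (S.pB (S.pl j) (S.pl k)).prime
  let bb : Fin 2 → ℂ := ![S.b j, S.b k]
  let p : Fin 2 × Fin 5 → Coord (Fin 5) 2 := fun v =>
    if v.2 = 3 then C (bb v.1) * MvPolynomial.X (v.1, 2) else 0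
  let l : List (Fin 2 × Fin 5) := [(0, 1), (0, 4), (0, 3), (1, 1), (1, 4), (1, 3)]
  have h1 : ((l.length : ℕ) : ℕ∞) ≤ (RingHom.ker (kr_subH p l)).height := by
    refine kr_length_le_height p l (by decide) ?_ ?_
    · intro l' hl' v hv
      have h2 : ∀ i : Fin 2, ((i, 2) : Fin 2 × Fin 5) ∉ l' := by
        intro i hi
        have := hl' hi
        revert this
        fin_cases i <;> decide
      show kr_subH p l' (if v.2 = 3 then C (bb v.1) * MvPolynomial.X (v.1, 2) else 0) = _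
      by_cases h3 : v.2 = 3
      · rw [if_pos h3, map_mul, kr_subH_C, kr_subH_X, if_neg (h2 _)]
        exact (if_pos h3).symm
      · rw [if_neg h3, map_zero]
        exact (if_neg h3).symm
    · intro v hv h
      by_cases h3 : v.2 = 3
      · have h4 : (MvPolynomial.X v : Coord (Fin 5) 2) = C (bb v.1) * MvPolynomial.X (v.1, 2) :=
          h.trans (if_pos h3)
        have h5 := congrArg (eval (fun w : Fin 2 × Fin 5 => if w = v then (1 : ℂ) else 0)) h4
        rw [eval_X, if_pos rfl, map_mul, eval_X, if_neg, mul_zero] at h5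
        · exact one_ne_zero h5
        · intro h6
          have h7 : (2 : Fin 5) = v.2 := congrArg Prod.snd h6
          rw [h3] at h7
          exact absurd h7 (by decide)
      · exact MvPolynomial.X_ne_zero (R := ℂ) v (h.trans (if_neg h3))
  have hle : RingHom.ker (kr_subH p l) ≤ (S.pB (S.pl j) (S.pl k)).I := by
    refine kr_ker_subH_le p l _ ?_
    intro v hv
    simp only [l, List.mem_cons, List.not_mem_nil, or_false] at hv
    rcases hv with rfl | rfl | rfl | rfl | rfl | rfl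
    · show MvPolynomial.X (0, 1) - 0 ∈ _
      rw [sub_zero, ← prH_X]; exact S.kr_prH0_mem_pB (S.kr_X1_mem_pl j)
    · show MvPolynomial.X (0, 4) - 0 ∈ _
      rw [sub_zero, ← prH_X]; exact S.kr_prH0_mem_pB (S.kr_X4_mem_pl j)
    · show MvPolynomial.X (0, 3) - C (S.b j) * MvPolynomial.X (0, 2) ∈ _
      have h := S.kr_prH0_mem_pB (B := S.pl k) (S.kr_lam_mem_pl j)
      rw [map_sub, map_mul, prH_X, prH_X] at h
      have hC : prH 0 (C (S.b j)) = C (S.b j) := by simp [prH]
      rwa [hC] at h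
    · show MvPolynomial.X (1, 1) - 0 ∈ _
      rw [sub_zero, ← prH_X]; exact S.kr_prH1_mem_pB (S.kr_X1_mem_pl k)
    · show MvPolynomial.X (1, 4) - 0 ∈ _
      rw [sub_zero, ← prH_X]; exact S.kr_prH1_mem_pB (S.kr_X4_mem_pl k)
    · show MvPolynomial.X (1, 3) - C (S.b k) * MvPolynomial.X (1, 2) ∈ _
      have h := S.kr_prH1_mem_pB (A := S.pl j) (S.kr_lam_mem_pl k)
      rw [map_sub, map_mul, prH_X, prH_X] at h
      have hC : prH 1 (C (S.b k)) = C (S.b k) := by simp [prH]
      rwa [hC] at h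
  have h2 : (RingHom.ker (kr_subH p l)).height ≤ (S.pB (S.pl j) (S.pl k)).I.height :=
    Ideal.height_mono hle
  exact h1.trans h2

lemma height_ll (k : Fin S.t) : 6 ≤ (S.pB (S.pl k) (S.pl k)).I.height := S.kr_height_pl_pl k k

end LnData

end Pool.Agent.RCH
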