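import Pool.Agent.RCH.LnFm
import Pool.Agent.RCH.LnKR

/-!
# Row NLL: the points `l_j x l_k`
-/

set_option autoImplicit false

open MvPolynomial

namespace Pool.Agent.RCH

namespace LnData

variable (S : LnData)

lemma kill_ll {L : Type} [CommRing L] (φ : Coord (Fin 5) 2 →+* L) (j k : Fin S.t)
    (h1 : xs φ 0 1 = 0) (h4 : xs φ 0 4 = 0) (h3 : xs φ 0 3 = cs φ (S.b j) * xs φ 0 2)
    (h1' : xs φ 1 1 = 0) (h4' : xs φ 1 4 = 0) (h3' : xs φ 1 3 = cs φ (S.b k) * xs φ 1 2)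
    {z : Coord (Fin 5) 2} (hz : z ∈ (S.pB (S.pl j) (S.pl k)).I) : φ z = 0 := by
  refine S.kill_pB φ _ _ ?_ ?_ hz
  · intro w hw
    refine S.kill_pl (φ.comp (prH 0)) j ?_ ?_ ?_ hw
    · rw [xs_comp_prH]; exact h1
    · rw [xs_comp_prH, cs_comp_prH]; exact h3
    · rw [xs_comp_prH]; exact h4
  · intro w hw
    refine S.kill_pl (φ.comp (prH 1)) k ?_ ?_ ?_ hw
    · rw [xs_comp_prH]; exact h1'
    · rw [xs_comp_prH, cs_comp_prH]; exact h3'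
    · rw [xs_comp_prH]; exact h4'

lemma X1_mem_ll (i : Fin 2) (j k : Fin S.t) :
    (MvPolynomial.X (i, 1) : Coord (Fin 5) 2) ∈ (S.pB (S.pl j) (S.pl k)).I := by
  rw [← prH_X]
  fin_cases i
  · exact S.kr_prH0_mem_pB (S.kr_X1_mem_pl j)
  · exact S.kr_prH1_mem_pB (S.kr_X1_mem_pl k)

lemma X4_mem_ll (i : Fin 2) (j k : Fin S.t) :
    (MvPolynomial.X (i, 4) : Coord (Fin 5) 2) ∈ (S.pB (S.pl j) (S.pl k)).I := by
  rw [← prH_X]
  fin_cases i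
  · exact S.kr_prH0_mem_pB (S.kr_X4_mem_pl j)
  · exact S.kr_prH1_mem_pB (S.kr_X4_mem_pl k)

lemma lam0_mem_ll (j k : Fin S.t) : S.lam 0 j ∈ (S.pB (S.pl j) (S.pl k)).I := by
  have h := S.kr_prH0_mem_pB (B := S.pl k) (S.kr_lam_mem_pl j)
  rw [map_sub, map_mul, prH_X, prH_X] at h
  have hC : prH 0 (C (S.b j)) = C (S.b j) := by simp [prH]
  rwa [hC] at h

lemma lam1_mem_ll (j k : Fin S.t) : S.lam 1 k ∈ (S.pB (S.pl j) (S.pl k)).I := by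
  have h := S.kr_prH1_mem_pB (A := S.pl j) (S.kr_lam_mem_pl k)
  rw [map_sub, map_mul, prH_X, prH_X] at h
  have hC : prH 1 (C (S.b k)) = C (S.b k) := by simp [prH]
  rwa [hC] at h

lemma lam0_ll (j k i : Fin S.t) (h : i ≠ j) : S.lam 0 i ∉ (S.pB (S.pl j) (S.pl k)).I := by
  intro hz
  have h1 := S.kr_ev_pl_pl j k 0 1 0 1 hz
  have e3 : S.kr_lPt j 0 1 3 = S.b j * 1 := rfl
  have e2 : S.kr_lPt j 0 1 2 = 1 := rfl
  rw [fm_lam, kr_cs_evP, kr_xs_evP_zero, e3, e2, mul_one, mul_one] at h1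
  exact h (S.hb (sub_eq_zero.1 h1).symm)

lemma lam1_ll (j k i : Fin S.t) (h : i ≠ k) : S.lam 1 i ∉ (S.pB (S.pl j) (S.pl k)).I := by
  intro hz
  have h1 := S.kr_ev_pl_pl j k 0 1 0 1 hz
  have e3 : S.kr_lPt k 0 1 3 = S.b k * 1 := rfl
  have e2 : S.kr_lPt k 0 1 2 = 1 := rfl
  rw [fm_lam, kr_cs_evP, kr_xs_evP_one, e3, e2, mul_one, mul_one] at h1
  exact h (S.hb (sub_eq_zero.1 h1).symm)

lemma X0_ll (i : Fin 2) (j k : Fin S.t) :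
    (MvPolynomial.X (i, 0) : Coord (Fin 5) 2) ∉ (S.pB (S.pl j) (S.pl k)).I := by
  intro h
  have h1 : kr_evP (S.kr_lPt j 1 1) (S.kr_lPt k 1 1) (MvPolynomial.X (i, 0)) = 1 := by
    refine (eval_X _).trans ?_
    fin_cases i <;> rfl
  exact one_ne_zero (h1.symm.trans (S.kr_ev_pl_pl j k 1 1 1 1 h))

lemma X2_ll (i : Fin 2) (j k : Fin S.t) :
    (MvPolynomial.X (i, 2) : Coord (Fin 5) 2) ∉ (S.pB (S.pl j) (S.pl k)).I :=
  S.kr_x2_notMem_pl j k i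

lemma NN2_ll (j k : Fin S.t) : NN 2 ∉ (S.pB (S.pl j) (S.pl k)).I := S.kr_NN2_notMem_pl j k

lemma RR2_ll (k : Fin S.t) : S.RR 2 ∉ (S.pB (S.pl k) (S.pl k)).I := S.kr_kR_notMem_pl k

lemma nll_gX_ne (k : Fin S.t) (x : Fin 5 → ℂ) (hx : x = S.kr_lPt k 0 1) :
    x 0 * x 1 ^ (S.m + 1) + S.gv (RingHom.id ℂ) (x 1) (x 2) (x 3) ≠ 0 := by
  subst hx
  intro h2
  have e0 : S.kr_lPt k 0 1 0 = 0 := rfl
  have e1 : S.kr_lPt k 0 1 1 = 0 := rfl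
  have e2 : S.kr_lPt k 0 1 2 = 1 := rfl
  have e3 : S.kr_lPt k 0 1 3 = S.b k * 1 := rfl
  rw [e0, e1, e2, e3, zero_mul, zero_add, mul_one] at h2
  exact S.hgb k h2

lemma gX_ll (i : Fin 2) (j k : Fin S.t) : S.gX i ∉ (S.pB (S.pl j) (S.pl k)).I := by
  intro hz
  have h1 := S.kr_ev_pl_pl j k 0 1 0 1 hz
  rw [fm_gX, kr_cs_evP] at h1
  fin_cases i
  · exact S.nll_gX_ne j _ (kr_xs_evP_zero _ _) h1
  · exact S.nll_gX_ne k _ (kr_xs_evP_one _ _) h1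

lemma mn23_ll (j k : Fin S.t) (h : j ≠ k) : mn 2 3 ∉ (S.pB (S.pl j) (S.pl k)).I := by
  intro hz
  have h1 := S.kr_ev_pl_pl j k 0 1 0 1 hz
  have e3 : S.kr_lPt j 0 1 3 = S.b j * 1 := rfl
  have e2 : S.kr_lPt j 0 1 2 = 1 := rfl
  have e3' : S.kr_lPt k 0 1 3 = S.b k * 1 := rfl
  have e2' : S.kr_lPt k 0 1 2 = 1 := rfl
  rw [fm_mn, kr_xs_evP_one, kr_xs_evP_zero, e3, e2, e3', e2', mul_one, mul_one, one_mul,
    one_mul] at h1
  exact h (S.hb (sub_eq_zero.1 h1).symm)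

/-- the equation on the surface: `x_1 (x_0 x_1 ^ (d - 2) + g) = - ∏ lam ^ a` modulo `x_4` -/
lemma eq_gX (i : Fin 2) : S.FX 2 i = MvPolynomial.X (i, 1) * S.gX i +
    ∏ k, S.lam i k ^ S.a k + MvPolynomial.X (i, 4) * inFactor 2 i S.P := by
  have h := S.map_FX (RingHom.id (Coord (Fin 5) 2)) i
  have hp : ∏ k, S.lam i k ^ S.a k =
      S.phv (cs (RingHom.id (Coord (Fin 5) 2))) (MvPolynomial.X (i, 2)) (MvPolynomial.X (i, 3)) := by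
    unfold phv
    refine Finset.prod_congr rfl fun k _ => ?_
    rfl
  have hg := S.fm_gX (RingHom.id (Coord (Fin 5) 2)) i
  have hP := map_inFactor (RingHom.id (Coord (Fin 5) 2)) i S.P
  rw [RingHom.id_apply] at h hg hP
  rw [h, hg, hP, hp, Fv, F0v, Pv]
  have hx : ∀ j, xs (RingHom.id (Coord (Fin 5) 2)) i j = MvPolynomial.X (i, j) := fun j => rfl
  simp only [hx]
  ring

end LnData

end Pool.Agent.RCH
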