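import Pool.Agent.RCH.LnBase

/-!
# Orders of vanishing on the fibre square of the pencil, at the products of two lines
-/

set_option autoImplicit false

open MvPolynomial

namespace Pool.Agent.RCH

attribute [local instance] Pt.prime

section gen

variable {R : Type} [CommRing R] {P Q : Ideal R} [hP : P.IsPrime] [hQ : Q.IsPrime]

lemma mem_of_toLocMod_eq_zero (hPQ : P ≤ Q) {z : R} (h : toLocMod P Q z = 0) : z ∈ P := by
  obtain ⟨s, hs, h'⟩ := exists_of_toLocMod_eq_zero h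
  exact (hP.mem_or_mem h').resolve_left fun hsP => hs (hPQ hsP)

lemma ordAt_pow (hPQ : P ≤ Q) {t : R} (ht : t ∉ P) (n : ℕ) :
    ordAt P Q (t ^ n) = n * ordAt P Q t := by
  induction n with
  | zero =>
    rw [pow_zero, ordAt_eq_zero fun h => hQ.ne_top ((Ideal.eq_top_iff_one Q).2 h)]
    simp
  | succ n ih =>
    rw [pow_succ, ordAt_mul hPQ _ ht, ih]
    push_cast
    rw [add_mul, one_mul]

end gen

namespace LnData

variable (S : LnData)

/-- the pairs of a point of the plane `x_1 = x_4 = 0` and a point of the `k`-th line -/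
noncomputable def auxL (k : Fin S.t) : Coord (Fin 5) 2 →ₐ[ℂ] MvPolynomial (Fin 5) ℂ :=
  aeval (pair ![MvPolynomial.X 0, 0, MvPolynomial.X 1, MvPolynomial.X 2, 0]
    (S.lineCd k (MvPolynomial.X 3) (MvPolynomial.X 4)))

/-- the ideal of these pairs -/
noncomputable def pauxL (k : Fin S.t) : Ideal (Coord (Fin 5) 2) := RingHom.ker (S.auxL k)

instance (k : Fin S.t) : (S.pauxL k).IsPrime := RingHom.ker_isPrime _

lemma mem_pauxL (k : Fin S.t) (z : Coord (Fin 5) 2) : z ∈ S.pauxL k ↔ S.auxL k z = 0 := Iff.rfl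

lemma auxL_X0 (k : Fin S.t) (j : Fin 5) : S.auxL k (MvPolynomial.X (0, j)) =
    (![MvPolynomial.X 0, 0, MvPolynomial.X 1, MvPolynomial.X 2, 0] :
      Fin 5 → MvPolynomial (Fin 5) ℂ) j := by
  rw [auxL, aeval_X]
  rfl

lemma auxL_X1 (k : Fin S.t) (j : Fin 5) : S.auxL k (MvPolynomial.X (1, j)) =
    S.lineCd k (MvPolynomial.X 3 : MvPolynomial (Fin 5) ℂ) (MvPolynomial.X 4) j := by
  rw [auxL, aeval_X]
  rfl

lemma auxL_lam0 (k j : Fin S.t) : S.auxL k (S.lam 0 j) =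
    MvPolynomial.X 2 - C (S.b j) * MvPolynomial.X 1 := by
  rw [lam, map_sub, map_mul, auxL_X0, auxL_X0, ← MvPolynomial.algebraMap_eq, AlgHom.commutes]
  rfl

lemma auxL_lam1 (k : Fin S.t) : S.auxL k (S.lam 1 k) = 0 := by
  rw [lam, map_sub, map_mul, auxL_X1, auxL_X1, ← MvPolynomial.algebraMap_eq, AlgHom.commutes]
  exact sub_self _

lemma auxL_lam0_ne (k j : Fin S.t) : S.auxL k (S.lam 0 j) ≠ 0 := by
  rw [auxL_lam0]
  intro h
  have h1 := congrArg (eval (![0, 0, 1, 0, 0] : Fin 5 → ℂ)) h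
  simp at h1

lemma kill_auxL {L : Type} [CommRing L] (φ : Coord (Fin 5) 2 →+* L) (k : Fin S.t)
    (h1 : xs φ 0 1 = 0) (h4 : xs φ 0 4 = 0) (h1' : xs φ 1 1 = 0) (h4' : xs φ 1 4 = 0)
    (h3' : xs φ 1 3 = cs φ (S.b k) * xs φ 1 2) {z : Coord (Fin 5) 2} (hz : z ∈ S.pauxL k) :
    φ z = 0 := by
  have h : φ = (eval₂Hom (cs φ) ![xs φ 0 0, xs φ 0 2, xs φ 0 3, xs φ 1 0, xs φ 1 2]).comp
      (S.auxL k).toRingHom := by
    apply MvPolynomial.ringHom_ext
    · intro a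
      have h2 : (S.auxL k).toRingHom (C a) = C a := (S.auxL k).commutes a
      rw [RingHom.comp_apply, h2, eval₂Hom_C]
      rfl
    · rintro ⟨i, j⟩
      rw [RingHom.comp_apply]
      fin_cases i
      · have h2 : (S.auxL k).toRingHom (MvPolynomial.X (0, j)) =
          (![MvPolynomial.X 0, 0, MvPolynomial.X 1, MvPolynomial.X 2, 0] :
            Fin 5 → MvPolynomial (Fin 5) ℂ) j := S.auxL_X0 k j
        refine Eq.trans ?_ (congrArg _ h2.symm)
        show xs φ 0 j = _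
        fin_cases j
        · simp
        · simpa using h1
        · simp
        · simp
        · simpa using h4
      · have h2 : (S.auxL k).toRingHom (MvPolynomial.X (1, j)) =
          S.lineCd k (MvPolynomial.X 3 : MvPolynomial (Fin 5) ℂ) (MvPolynomial.X 4) j :=
          S.auxL_X1 k j
        refine Eq.trans ?_ (congrArg _ h2.symm)
        show xs φ 1 j = _
        fin_cases j
        · simp [lineCd]
        · simpa [lineCd] using h1'
        · simp [lineCd]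
        · simpa [lineCd, MvPolynomial.algebraMap_eq] using h3'
        · simpa [lineCd] using h4'
  rw [h, RingHom.comp_apply]
  have h0 : (S.auxL k).toRingHom z = 0 := hz
  rw [h0, map_zero]

section values

variable {L : Type} [CommRing L] (φ : Coord (Fin 5) 2 →+* L)

lemma map_lam (i : Fin 2) (k : Fin S.t) :
    φ (S.lam i k) = xs φ i 3 - cs φ (S.b k) * xs φ i 2 := by
  rw [lam, map_sub, map_mul]
  rfl

lemma prod_lam (i : Fin 2) :
    φ (∏ k, S.lam i k ^ S.a k) = S.phv (cs φ) (xs φ i 2) (xs φ i 3) := by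
  rw [map_prod, phv]
  refine Finset.prod_congr rfl fun k _ => ?_
  rw [map_pow, map_lam]

/-- the product of the other linear forms -/
noncomputable def oth (i : Fin 2) (k : Fin S.t) : Coord (Fin 5) 2 :=
  ∏ l ∈ Finset.univ.erase k, S.lam i l ^ S.a l

lemma oth_mul (i : Fin 2) (k : Fin S.t) :
    S.oth i k * S.lam i k ^ S.a k = ∏ l, S.lam i l ^ S.a l := by
  classical
  rw [oth, Finset.prod_erase_mul _ _ (Finset.mem_univ k)]

/-- the equation of the surface for a homomorphism which kills the last coordinate -/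
lemma map_gX_mul (i : Fin 2) (h4 : xs φ i 4 = 0) (hF : φ (S.FX 2 i) = 0) (k : Fin S.t) :
    xs φ i 1 * φ (S.gX i) = - (φ (S.oth i k) * φ (S.lam i k) ^ S.a k) := by
  have h := congrArg φ (S.eq_gX i)
  rw [hF, map_add, map_add, map_mul, map_mul, ← oth_mul S i k, map_mul, map_pow] at h
  have h5 : φ (MvPolynomial.X (i, 4)) = 0 := h4
  have h6 : φ (MvPolynomial.X (i, 1)) = xs φ i 1 := rfl
  rw [h5, h6, zero_mul, add_zero] at h
  rw [eq_neg_iff_add_eq_zero]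
  exact h.symm

lemma F0v_eq_zero (i : Fin 2) (h1 : xs φ i 1 = 0) (k : Fin S.t)
    (hk : φ (S.lam i k) ^ S.a k = 0) : S.F0v (cs φ) (xs φ i) = 0 := by
  rw [F0v, h1, zero_pow (by omega), zero_mul, mul_zero, zero_add, add_zero, ← prod_lam,
    ← oth_mul S i k, map_mul, map_pow, hk, mul_zero]

end values

lemma oth0_ll (j k : Fin S.t) : S.oth 0 j ∉ (S.pB (S.pl j) (S.pl k)).I := by
  classical
  intro h
  rw [oth, Ideal.IsPrime.prod_mem_iff] at h
  obtain ⟨l, hl, h1⟩ := h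
  exact S.lam0_ll j k l (Finset.ne_of_mem_erase hl) (Ideal.IsPrime.mem_of_pow_mem inferInstance _ h1)

lemma oth1_ll (j k : Fin S.t) : S.oth 1 k ∉ (S.pB (S.pl j) (S.pl k)).I := by
  classical
  intro h
  rw [oth, Ideal.IsPrime.prod_mem_iff] at h
  obtain ⟨l, hl, h1⟩ := h
  exact S.lam1_ll j k l (Finset.ne_of_mem_erase hl) (Ideal.IsPrime.mem_of_pow_mem inferInstance _ h1)


section oul

variable (j k : Fin S.t)

lemma gX_ne_ll (i : Fin 2) : S.gX i ∉ (S.pB (S.pl j) (S.pl k)).I := S.gX_ll i j k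

lemma pU_le_ll : S.pU.I ≤ (S.pB (S.pl j) (S.pl k)).I := by
  intro z hz
  rw [← toLocMod_self_eq_zero]
  have h1 : ∀ i, xs (toLocMod (S.pB (S.pl j) (S.pl k)).I (S.pB (S.pl j) (S.pl k)).I) i 1 = 0 :=
    fun i => toLocMod_eq_zero_of_mem (S.X1_mem_ll i j k)
  have h4 : ∀ i, xs (toLocMod (S.pB (S.pl j) (S.pl k)).I (S.pB (S.pl j) (S.pl k)).I) i 4 = 0 :=
    fun i => toLocMod_eq_zero_of_mem (S.X4_mem_ll i j k)
  have hj : ∀ k' : Fin S.t, 1 ≤ S.a k' := S.ha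
  refine S.kill_U _ ?_ (h4 0) (h4 1) ?_ ?_ hz
  · rw [h1, h1, zero_mul, zero_mul]
  · refine S.F0v_eq_zero _ 0 (h1 0) j ?_
    rw [toLocMod_eq_zero_of_mem (S.lam0_mem_ll j k), zero_pow]
    have := S.ha j
    omega
  · refine S.F0v_eq_zero _ 1 (h1 1) k ?_
    rw [toLocMod_eq_zero_of_mem (S.lam1_mem_ll j k), zero_pow]
    have := S.ha k
    omega

lemma pauxL_le_ll : S.pauxL k ≤ (S.pB (S.pl j) (S.pl k)).I := by
  intro z hz
  rw [← toLocMod_self_eq_zero]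
  refine S.kill_auxL _ k (toLocMod_eq_zero_of_mem (S.X1_mem_ll 0 j k))
    (toLocMod_eq_zero_of_mem (S.X4_mem_ll 0 j k)) (toLocMod_eq_zero_of_mem (S.X1_mem_ll 1 j k))
    (toLocMod_eq_zero_of_mem (S.X4_mem_ll 1 j k)) ?_ hz
  rw [← sub_eq_zero, ← map_lam]
  exact toLocMod_eq_zero_of_mem (S.lam1_mem_ll j k)

lemma X1_mem_pauxL (i : Fin 2) : (MvPolynomial.X (i, 1) : Coord (Fin 5) 2) ∈ S.pauxL k := by
  rw [mem_pauxL]
  fin_cases i
  · exact S.auxL_X0 k 1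
  · exact S.auxL_X1 k 1

lemma X4_mem_pauxL (i : Fin 2) : (MvPolynomial.X (i, 4) : Coord (Fin 5) 2) ∈ S.pauxL k := by
  rw [mem_pauxL]
  fin_cases i
  · exact S.auxL_X0 k 4
  · exact S.auxL_X1 k 4

lemma unif_pauxL (z : Coord (Fin 5) 2) (hz : z ∈ (S.pB (S.pl j) (S.pl k)).I) :
    ∃ s, s ∉ (S.pB (S.pl j) (S.pl k)).I ∧ s * z ∈ S.pauxL k ⊔ Ideal.span {S.lam 0 j} := by
  refine exists_of_toLocMod_eq_zero ?_
  have hm : ∀ w ∈ S.pauxL k, toLocMod (S.pauxL k ⊔ Ideal.span {S.lam 0 j})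
      (S.pB (S.pl j) (S.pl k)).I w = 0 :=
    fun w hw => toLocMod_eq_zero_of_mem (Ideal.mem_sup_left hw)
  refine S.kill_ll _ j k (hm _ (S.X1_mem_pauxL k 0)) (hm _ (S.X4_mem_pauxL k 0)) ?_
    (hm _ (S.X1_mem_pauxL k 1)) (hm _ (S.X4_mem_pauxL k 1)) ?_ hz
  · rw [← sub_eq_zero, ← map_lam]
    exact toLocMod_eq_zero_of_mem (Ideal.mem_sup_right (Ideal.mem_span_singleton_self _))
  · rw [← sub_eq_zero, ← map_lam]
    exact hm _ (S.auxL_lam1 k)

lemma lam0_notMem_pauxL : S.lam 0 j ∉ S.pauxL k := S.auxL_lam0_ne k j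

/-- the two ideals agree near the product of the two lines -/
lemma leq1 : ∀ z ∈ S.pU.I, toLocMod (S.pauxL k ⊔ Ideal.span {S.lam 0 j ^ S.a j})
    (S.pB (S.pl j) (S.pl k)).I z = 0 := by
  intro z hz
  have hm : ∀ w ∈ S.pauxL k, toLocMod (S.pauxL k ⊔ Ideal.span {S.lam 0 j ^ S.a j})
      (S.pB (S.pl j) (S.pl k)).I w = 0 :=
    fun w hw => toLocMod_eq_zero_of_mem (Ideal.mem_sup_left hw)
  refine S.kill_U _ ?_ (hm _ (S.X4_mem_pauxL k 0)) (hm _ (S.X4_mem_pauxL k 1)) ?_ ?_ hz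
  · have h0 : xs (toLocMod (S.pauxL k ⊔ Ideal.span {S.lam 0 j ^ S.a j})
      (S.pB (S.pl j) (S.pl k)).I) 0 1 = 0 := hm _ (S.X1_mem_pauxL k 0)
    have h1 : xs (toLocMod (S.pauxL k ⊔ Ideal.span {S.lam 0 j ^ S.a j})
      (S.pB (S.pl j) (S.pl k)).I) 1 1 = 0 := hm _ (S.X1_mem_pauxL k 1)
    rw [h0, h1, zero_mul, zero_mul]
  · refine S.F0v_eq_zero _ 0 (hm _ (S.X1_mem_pauxL k 0)) j ?_
    rw [← map_pow]
    exact toLocMod_eq_zero_of_mem (Ideal.mem_sup_right (Ideal.mem_span_singleton_self _))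
  · refine S.F0v_eq_zero _ 1 (hm _ (S.X1_mem_pauxL k 1)) k ?_
    rw [hm _ (S.auxL_lam1 k), zero_pow]
    have := S.ha k
    omega

lemma leq2 : toLocMod (S.pauxL k ⊔ Ideal.span {S.lam 0 j ^ S.a j})
    (S.pB (S.pl j) (S.pl k)).I (S.lam 1 k) = 0 :=
  toLocMod_eq_zero_of_mem (Ideal.mem_sup_left (S.auxL_lam1 k))

lemma leq_x1 (J : Ideal (Coord (Fin 5) 2)) (hJ : S.pU.I ≤ J) (hl : S.lam 1 k ∈ J) :
    xs (toLocMod J (S.pB (S.pl j) (S.pl k)).I) 1 1 = 0 ∧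
      xs (toLocMod J (S.pB (S.pl j) (S.pl k)).I) 0 1 = 0 := by
  have hm : ∀ w ∈ S.pU.I, toLocMod J (S.pB (S.pl j) (S.pl k)).I w = 0 :=
    fun w hw => toLocMod_eq_zero_of_mem (hJ hw)
  have h := S.map_gX_mul (toLocMod J (S.pB (S.pl j) (S.pl k)).I) 1
    (hm _ (S.X4_mem_pU 1)) (hm _ (S.FX_mem S.pU 1)) k
  have hk : toLocMod J (S.pB (S.pl j) (S.pl k)).I (S.lam 1 k) = 0 := toLocMod_eq_zero_of_mem hl
  rw [hk, zero_pow (by have := S.ha k; omega), mul_zero, neg_zero] at h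
  have h1 := ((isUnit_toLocMod (J := J) (S.gX_ll 1 j k)).mul_left_eq_zero).1 h
  refine ⟨h1, ?_⟩
  have h2 := hm _ S.mn12_pU
  rw [mn, map_sub, map_mul, map_mul] at h2
  have h3 : toLocMod J (S.pB (S.pl j) (S.pl k)).I (MvPolynomial.X (1, 1)) = 0 := h1
  rw [h3, zero_mul, sub_zero] at h2
  exact ((isUnit_toLocMod (J := J) (S.X2_ll 1 j k)).mul_left_eq_zero).1 h2

lemma leq3 : ∀ z ∈ S.pauxL k, toLocMod (S.pU.I ⊔ Ideal.span {S.lam 1 k})
    (S.pB (S.pl j) (S.pl k)).I z = 0 := by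
  intro z hz
  have hl : S.lam 1 k ∈ S.pU.I ⊔ Ideal.span {S.lam 1 k} :=
    Ideal.mem_sup_right (Ideal.mem_span_singleton_self _)
  obtain ⟨h1, h0⟩ := S.leq_x1 j k _ le_sup_left hl
  refine S.kill_auxL _ k h0 (toLocMod_eq_zero_of_mem (Ideal.mem_sup_left (S.X4_mem_pU 0))) h1
    (toLocMod_eq_zero_of_mem (Ideal.mem_sup_left (S.X4_mem_pU 1))) ?_ hz
  rw [← sub_eq_zero, ← map_lam]
  exact toLocMod_eq_zero_of_mem hl

lemma leq4 : toLocMod (S.pU.I ⊔ Ideal.span {S.lam 1 k}) (S.pB (S.pl j) (S.pl k)).I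
    (S.lam 0 j ^ S.a j) = 0 := by
  have hl : S.lam 1 k ∈ S.pU.I ⊔ Ideal.span {S.lam 1 k} :=
    Ideal.mem_sup_right (Ideal.mem_span_singleton_self _)
  obtain ⟨-, h0⟩ := S.leq_x1 j k _ le_sup_left hl
  have h := S.map_gX_mul (toLocMod (S.pU.I ⊔ Ideal.span {S.lam 1 k})
    (S.pB (S.pl j) (S.pl k)).I) 0
    (toLocMod_eq_zero_of_mem (Ideal.mem_sup_left (S.X4_mem_pU 0)))
    (toLocMod_eq_zero_of_mem (Ideal.mem_sup_left (S.FX_mem S.pU 0))) j
  rw [h0, zero_mul, zero_eq_neg] at h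
  rw [map_pow]
  exact ((isUnit_toLocMod (J := S.pU.I ⊔ Ideal.span {S.lam 1 k})
    (S.oth0_ll j k)).mul_right_eq_zero).1 h

lemma ordAt_lam1 : ordAt S.pU.I (S.pB (S.pl j) (S.pl k)).I (S.lam 1 k) = (S.a j : ℕ) := by
  rw [leq_ord (S.leq1 j k) (S.leq2 j k) (S.leq3 j k) (S.leq4 j k)]
  refine ordAt_eq (S.pauxL_le_ll j k) (S.lam0_mem_ll j k) (S.lam0_notMem_pauxL j k)
    (S.unif_pauxL j k) (s := 1) (s' := 1) ?_ ?_ ?_
  · exact fun h => Ideal.IsPrime.ne_top inferInstance ((Ideal.eq_top_iff_one _).2 h)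
  · exact fun h => Ideal.IsPrime.ne_top inferInstance ((Ideal.eq_top_iff_one _).2 h)
  · rw [sub_self]
    exact Ideal.zero_mem _

lemma codimOne_ll : CodimOne S.pU.I (S.pB (S.pl j) (S.pl k)).I := by
  refine leq_codim (S.pU_le_ll j k) (S.lam1_mem_ll j k) (S.lam_pU 1 k) ?_ (S.leq1 j k)
    (S.leq2 j k) (S.leq3 j k) (S.leq4 j k) ?_
  · exact fun h => S.lam0_notMem_pauxL j k (Ideal.IsPrime.mem_of_pow_mem inferInstance _ h)
  · exact codimOne_of (S.pauxL_le_ll j k) (S.lam0_mem_ll j k) (S.lam0_notMem_pauxL j k)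
      (S.unif_pauxL j k)

lemma ordAt_X11 : ordAt S.pU.I (S.pB (S.pl j) (S.pl k)).I (MvPolynomial.X (1, 1)) =
    (S.a j * S.a k : ℕ) := by
  have hle := S.pU_le_ll j k
  have hmem : S.gX 1 * MvPolynomial.X (1, 1) - - (S.oth 1 k * S.lam 1 k ^ S.a k) ∈ S.pU.I := by
    have h := S.FX_mem S.pU 1
    rw [S.eq_gX 1, ← oth_mul S 1 k] at h
    have h2 := S.pU.I.mul_mem_right (inFactor 2 1 S.P) (S.X4_mem_pU 1)
    have h3 := sub_mem h h2
    have e : S.gX 1 * MvPolynomial.X (1, 1) - - (S.oth 1 k * S.lam 1 k ^ S.a k) =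
      MvPolynomial.X (1, 1) * S.gX 1 + S.oth 1 k * S.lam 1 k ^ S.a k +
        MvPolynomial.X (1, 4) * inFactor 2 1 S.P - MvPolynomial.X (1, 4) * inFactor 2 1 S.P := by
      ring
    rw [e]
    exact h3
  rw [← ordAt_unit_mul (S.gX_ll 1 j k), ordAt_congr hmem, ordAt_neg,
    ordAt_unit_mul (S.oth1_ll j k), ordAt_pow hle (S.lam_pU 1 k), ordAt_lam1, mul_comm (S.a j)]
  push_cast
  rfl

lemma ordAt_X01 : ordAt S.pU.I (S.pB (S.pl j) (S.pl k)).I (MvPolynomial.X (0, 1)) =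
    (S.a j * S.a k : ℕ) := by
  have hmem : MvPolynomial.X (1, 2) * MvPolynomial.X (0, 1) -
      MvPolynomial.X (0, 2) * MvPolynomial.X (1, 1) ∈ S.pU.I := by
    have h := S.mn12_pU
    rw [mn] at h
    have e : (MvPolynomial.X (1, 2) * MvPolynomial.X (0, 1) -
      MvPolynomial.X (0, 2) * MvPolynomial.X (1, 1) : Coord (Fin 5) 2) =
      MvPolynomial.X (0, 1) * MvPolynomial.X (1, 2) -
        MvPolynomial.X (1, 1) * MvPolynomial.X (0, 2) := by
      ring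
    rw [e]
    exact h
  rw [← ordAt_unit_mul (S.X2_ll 1 j k), ordAt_congr hmem, ordAt_unit_mul (S.X2_ll 0 j k),
    ordAt_X11]

/-- Row OUL -/
lemma oul : CodimOne S.pU.I (S.pB (S.pl j) (S.pl k)).I ∧
    ordAt S.pU.I (S.pB (S.pl j) (S.pl k)).I (MvPolynomial.X (0, 1)) = (S.a j * S.a k : ℕ) ∧
    ordAt S.pU.I (S.pB (S.pl j) (S.pl k)).I (MvPolynomial.X (1, 1)) = (S.a j * S.a k : ℕ) :=
  ⟨S.codimOne_ll j k, S.ordAt_X01 j k, S.ordAt_X11 j k⟩

end oul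

end LnData

end Pool.Agent.RCH
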