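import Pool.Agent.RCH.LnBase

/-!
# The orders of the functions on the fibre square of the projection, at `p x Y`
-/

set_option autoImplicit false

open MvPolynomial

namespace Pool.Agent.RCH

attribute [local instance] Pt.prime

namespace LnData

namespace Ovp

variable (S : LnData)

lemma reg {z : Coord (Fin 5) 2} (hz : z ∈ (S.pB S.pp S.pY).I) :
    ∃ s, s ∉ (S.pB S.pp S.pY).I ∧
      s * z ∈ S.pV.I ⊔ Ideal.span {(MvPolynomial.X (0, 1) : Coord (Fin 5) 2)} := by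
  set J := S.pV.I ⊔ Ideal.span {(MvPolynomial.X (0, 1) : Coord (Fin 5) 2)} with hJ
  apply exists_of_toLocMod_eq_zero (J := J)
  let φ : Coord (Fin 5) 2 →+* LocMod J (S.pB S.pp S.pY).I := toLocMod J (S.pB S.pp S.pY).I
  have hφ : ∀ w ∈ S.pV.I, φ w = 0 := fun w hw =>
    toLocMod_eq_zero_of_mem (Ideal.mem_sup_left hw)
  have h1 : φ (MvPolynomial.X (0, 1)) = 0 :=
    toLocMod_eq_zero_of_mem (Ideal.mem_sup_right (Ideal.mem_span_singleton_self _))
  have hy1 : IsUnit (φ (MvPolynomial.X (1, 1))) := isUnit_toLocMod (S.X1_pp 1 (by decide))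
  have hR1 : IsUnit (φ (S.RR 1)) := isUnit_toLocMod S.RR1_pp
  have hj : ∀ j : Fin 5, j ≠ 0 → φ (MvPolynomial.X (0, j)) = 0 := by
    intro j hj
    have h := hφ _ (S.mn_pV 1 j (by decide) hj)
    rw [mn, map_sub, map_mul, map_mul, h1, zero_mul, zero_sub, neg_eq_zero] at h
    exact hy1.mul_right_eq_zero.1 h
  have h4 : φ (MvPolynomial.X (1, 4)) = 0 := by
    have h := hφ _ S.HH_pV
    rw [HH, map_add, map_mul, map_mul, map_mul, map_pow, h1, zero_pow (by omega), zero_mul,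
      zero_mul, zero_add] at h
    exact hR1.mul_left_eq_zero.1 h
  refine S.kill_pY_box φ (hj 1 (by decide)) (hj 2 (by decide)) (hj 3 (by decide))
    (hj 4 (by decide)) h4 ?_ hz
  have h := hφ _ (S.FX_mem S.pV 1)
  rw [map_FX, Fv] at h
  have h4' : xs φ 1 4 = 0 := h4
  rw [h4', zero_mul, add_zero] at h
  exact h

theorem main : CodimOne S.pV.I (S.pB S.pp S.pY).I ∧
    ordAt S.pV.I (S.pB S.pp S.pY).I (NN 4) = (S.m + 1 : ℕ) ∧
    ordAt S.pV.I (S.pB S.pp S.pY).I (MvPolynomial.X (0, 4)) = (S.m + 2 : ℕ) ∧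
    ordAt S.pV.I (S.pB S.pp S.pY).I (MvPolynomial.X (1, 4)) = (S.m + 1 : ℕ) := by
  have hP := S.pV_le_pp
  have htQ := S.X_mem_pp 1 (by decide)
  have htP := S.X_pV 0 1 (by decide)
  have hreg : ∀ z ∈ (S.pB S.pp S.pY).I, ∃ s, s ∉ (S.pB S.pp S.pY).I ∧
      s * z ∈ S.pV.I ⊔ Ideal.span {(MvPolynomial.X (0, 1) : Coord (Fin 5) 2)} :=
    fun z hz => reg S hz
  have hp : (S.pB S.pp S.pY).I.IsPrime := (S.pB S.pp S.pY).prime
  have hy1 : (MvPolynomial.X (1, 1) : Coord (Fin 5) 2) ∉ (S.pB S.pp S.pY).I :=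
    S.X1_pp 1 (by decide)
  have hN := S.NN1_pp
  have hR := S.RR1_pp
  have hmn := S.mn_pV 1 4 (by decide) (by decide)
  have hHH := S.HH_pV
  have hmul : ∀ a b : Coord (Fin 5) 2, a ∉ (S.pB S.pp S.pY).I → b ∉ (S.pB S.pp S.pY).I →
      a * b ∉ (S.pB S.pp S.pY).I := fun a b ha hb h => (hp.mem_or_mem h).elim ha hb
  have hpow : ∀ (a : Coord (Fin 5) 2) (n : ℕ), a ∉ (S.pB S.pp S.pY).I →
      a ^ n ∉ (S.pB S.pp S.pY).I := fun a n ha h => ha (hp.mem_of_pow_mem n h)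
  have hneg : ∀ a : Coord (Fin 5) 2, a ∉ (S.pB S.pp S.pY).I → -a ∉ (S.pB S.pp S.pY).I :=
    fun a ha h => ha (neg_mem_iff.1 h)
  refine ⟨codimOne_of hP htQ htP hreg, ?_, ?_, ?_⟩
  · refine ordAt_eq (t := MvPolynomial.X (0, 1)) hP htQ htP hreg
      (s := S.RR 1 * MvPolynomial.X (1, 1))
      (s' := -(NN 1 ^ 2 * MvPolynomial.X (1, 1) ^ (S.m + 2))) (hmul _ _ hR hy1)
      (hneg _ (hmul _ _ (hpow _ _ hN) (hpow _ _ hy1))) ?_
    have h := add_mem (S.pV.I.mul_mem_left (NN 1) hHH)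
      (S.pV.I.mul_mem_left (S.RR 1 * MvPolynomial.X (1, 0)) hmn)
    convert h using 1
    rw [HH, mn, NN, NN]
    ring
  · refine ordAt_eq (t := MvPolynomial.X (0, 1)) hP htQ htP hreg
      (s := S.RR 1 * MvPolynomial.X (1, 1))
      (s' := -(NN 1 * MvPolynomial.X (1, 1) ^ (S.m + 2))) (hmul _ _ hR hy1)
      (hneg _ (hmul _ _ hN (hpow _ _ hy1))) ?_
    have h := sub_mem (S.pV.I.mul_mem_left (MvPolynomial.X (0, 1)) hHH)
      (S.pV.I.mul_mem_left (S.RR 1) hmn)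
    convert h using 1
    rw [HH, mn]
    ring
  · refine ordAt_eq (t := MvPolynomial.X (0, 1)) hP htQ htP hreg
      (s := S.RR 1) (s' := -(NN 1 * MvPolynomial.X (1, 1) ^ (S.m + 2))) hR
      (hneg _ (hmul _ _ hN (hpow _ _ hy1))) ?_
    convert hHH using 1
    rw [HH]
    ring

end Ovp

variable (S : LnData)

lemma ovp : CodimOne S.pV.I (S.pB S.pp S.pY).I ∧
    ordAt S.pV.I (S.pB S.pp S.pY).I (NN 4) = (S.m + 1 : ℕ) ∧
    ordAt S.pV.I (S.pB S.pp S.pY).I (MvPolynomial.X (0, 4)) = (S.m + 2 : ℕ) ∧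
    ordAt S.pV.I (S.pB S.pp S.pY).I (MvPolynomial.X (1, 4)) = (S.m + 1 : ℕ) := Ovp.main S

end LnData

end Pool.Agent.RCH
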