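import Pool.Agent.RCH.LnDom
import Pool.Agent.RCH.StarPt

/-!
# The points used for the lines on a threefold
-/

set_option autoImplicit false

open MvPolynomial

namespace Pool.Agent.RCH

namespace LnData

variable (S : LnData)

/-- a pair of points -/
def pair {D : Type} (e f : Fin 5 → D) (v : Fin 2 × Fin 5) : D := if v.1 = 0 then e v.2 else f v.2

@[simp] lemma pair_zero {D : Type} (e f : Fin 5 → D) (j : Fin 5) : pair e f (0, j) = e j := rfl

@[simp] lemma pair_one {D : Type} (e f : Fin 5 → D) (j : Fin 5) : pair e f (1, j) = f j := rfl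

/-! ### The vertex, the lines and the surface -/

lemma Fv_vertex : S.Fv (algebraMap ℂ ℂ) ![1, 0, 0, 0, 0] = 0 := by
  have e0 : (![1, 0, 0, 0, 0] : Fin 5 → ℂ) 0 = 1 := rfl
  have e1 : (![1, 0, 0, 0, 0] : Fin 5 → ℂ) 1 = 0 := rfl
  have e2 : (![1, 0, 0, 0, 0] : Fin 5 → ℂ) 2 = 0 := rfl
  have e3 : (![1, 0, 0, 0, 0] : Fin 5 → ℂ) 3 = 0 := rfl
  have e4 : (![1, 0, 0, 0, 0] : Fin 5 → ℂ) 4 = 0 := rfl
  rw [Fv, F0v, e0, e1, e2, e3, e4, phv_zero_left, zero_pow (by omega), zero_pow (by omega)]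
  ring

/-- the vertex `(1 : 0 : 0 : 0 : 0)` -/
noncomputable def pp : Pt S.V 1 :=
  mkPt S.V (fun v : Fin 1 × Fin 5 => (![1, 0, 0, 0, 0] : Fin 5 → ℂ) v.2)
    (fun _ => ⟨0, one_ne_zero⟩) (S.onX_genIdeal _ (fun _ => S.Fv_vertex))

/-- the coordinates of a point of the `k`-th line -/
noncomputable def lineCd {D : Type} [CommRing D] [Algebra ℂ D] (k : Fin S.t) (x w : D) : Fin 5 → D :=
  ![x, 0, w, algebraMap ℂ D (S.b k) * w, 0]

lemma Fv_line {D : Type} [CommRing D] [Algebra ℂ D] (k : Fin S.t) (x w : D) :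
    S.Fv (algebraMap ℂ D) (S.lineCd k x w) = 0 := by
  have e0 : S.lineCd k x w 0 = x := rfl
  have e1 : S.lineCd k x w 1 = 0 := rfl
  have e2 : S.lineCd k x w 2 = w := rfl
  have e3 : S.lineCd k x w 3 = algebraMap ℂ D (S.b k) * w := rfl
  have e4 : S.lineCd k x w 4 = 0 := rfl
  rw [Fv, F0v, e0, e1, e2, e3, e4, S.phv_eq_zero _ k rfl, zero_pow (by omega)]
  ring

/-- the `k`-th line `x_1 = x_4 = 0`, `x_3 = b_k x_2` -/
noncomputable def pl (k : Fin S.t) : Pt S.V 1 :=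
  mkPt S.V (fun v : Fin 1 × Fin 5 => S.lineCd k (MvPolynomial.X 0 : MvPolynomial (Fin 2) ℂ)
    (MvPolynomial.X 1) v.2)
    (fun _ => ⟨0, MvPolynomial.X_ne_zero (R := ℂ) (0 : Fin 2)⟩)
    (S.onX_genIdeal _ (fun _ => S.Fv_line k _ _))

/-- the surface `x_4 = 0` has a nonzero coordinate -/
lemma ptY_ne : S.ptY 1 ≠ 0 := by
  intro h
  have h4 : S.Fv (RingHom.id ℂ) (![-(S.phv (RingHom.id ℂ) 0 0 + S.gv (RingHom.id ℂ) 1 0 0), 1, 0, 0, 0] : Fin 5 → ℂ) = 0 := by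
    simp [Fv, F0v, Pv]
  obtain ⟨γ, -, hγ⟩ := S.exists_liftY (RingHom.id ℂ)
    (![-(S.phv (RingHom.id ℂ) 0 0 + S.gv (RingHom.id ℂ) 1 0 0), 1, 0, 0, 0]) rfl
    (by
      have := h4
      rw [Fv] at this
      simpa using this)
  have h1 := hγ 1
  rw [h, map_zero] at h1
  exact zero_ne_one h1

/-- the surface -/
noncomputable def pY : Pt S.V 1 :=
  mkPt S.V (fun v : Fin 1 × Fin 5 => S.ptY v.2) (fun _ => ⟨1, S.ptY_ne⟩)
    (S.onX_genIdeal _ (fun _ => S.Fv_ptY))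

/-- the diagonal of the surface -/
noncomputable def pYD : Pt S.V 2 :=
  mkPt S.V (fun v : Fin 2 × Fin 5 => S.ptY v.2) (fun _ => ⟨1, S.ptY_ne⟩)
    (S.onX_genIdeal _ (fun _ => S.Fv_ptY))

lemma ptX_ne : S.ptX 1 ≠ 0 := by
  intro h
  obtain ⟨γ, -, hγ⟩ := S.exists_liftX (algebraMap ℂ S.RY) S.ptY S.Fv_ptY
  have h1 := hγ 1
  rw [h, map_zero] at h1
  exact S.ptY_ne h1.symm

/-- the diagonal of the threefold -/
noncomputable def pXD : Pt S.V 2 :=
  mkPt S.V (fun v : Fin 2 × Fin 5 => S.ptX v.2) (fun _ => ⟨1, S.ptX_ne⟩)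
    (S.onX_genIdeal _ (fun _ => S.Fv_ptX))

/-- the generic point of the fibre square of the projection -/
noncomputable def ptV : Fin 2 × Fin 5 → S.RV := pair S.ptV0 S.ptV1

lemma ptV0_4_ne : S.ptV0 4 ≠ 0 := S.isUnit_ptV0_4.ne_zero

/-- the fibre square, without the diagonal, of the projection from the vertex -/
noncomputable def pV : Pt S.V 2 :=
  mkPt S.V S.ptV
    (fun i => ⟨4, by
      fin_cases i
      · exact S.ptV0_4_ne
      · exact S.ptV0_4_ne⟩)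
    (S.onX_genIdeal _ (fun i => by
      fin_cases i
      · exact S.Fv_ptV0
      · exact S.Fv_ptV1))

/-! ### The fibre square of the pencil `x_1 : x_2` on the surface -/

/-- polynomials in `s_1, s_2, z, z'` -/
abbrev K4 : Type := MvPolynomial (Fin 4) ℂ

/-- the coordinates of the point of the surface over `(s : u : z)` -/
noncomputable def sfCd {D : Type} [CommRing D] [Algebra ℂ D] (s u z : D) : Fin 5 → D :=
  ![-(S.phv (algebraMap ℂ D) u z + s * S.gv (algebraMap ℂ D) s u z), s ^ (S.m + 3),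
    s ^ (S.m + 2) * u, s ^ (S.m + 2) * z, 0]

lemma F0v_sfCd {D : Type} [CommRing D] [Algebra ℂ D] (s u z : D) :
    S.F0v (algebraMap ℂ D) (S.sfCd s u z) = 0 := by
  have e0 : S.sfCd s u z 0 =
    -(S.phv (algebraMap ℂ D) u z + s * S.gv (algebraMap ℂ D) s u z) := rfl
  have e1 : S.sfCd s u z 1 = s ^ (S.m + 3) := rfl
  have e2 : S.sfCd s u z 2 = s ^ (S.m + 2) * u := rfl
  have e3 : S.sfCd s u z 3 = s ^ (S.m + 2) * z := rfl
  have h1 : s ^ (S.m + 3) = s ^ (S.m + 2) * s := pow_succ _ _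
  rw [F0v, e0, e1, e2, e3, phv_smul]
  conv_lhs =>
    rw [h1]
  rw [gv_smul]
  ring

lemma Fv_sfCd {D : Type} [CommRing D] [Algebra ℂ D] (s u z : D) :
    S.Fv (algebraMap ℂ D) (S.sfCd s u z) = 0 := by
  have e4 : S.sfCd s u z 4 = 0 := rfl
  rw [Fv, F0v_sfCd, e4, zero_mul, add_zero]

/-- the generic point of the fibre square of the pencil -/
noncomputable def ptU : Fin 2 × Fin 5 → K4 :=
  pair (S.sfCd (MvPolynomial.X 0) (MvPolynomial.X 1) (MvPolynomial.X 2))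
    (S.sfCd (MvPolynomial.X 0) (MvPolynomial.X 1) (MvPolynomial.X 3))

/-- the fibre square of the pencil -/
noncomputable def pU : Pt S.V 2 :=
  mkPt S.V S.ptU
    (fun i => ⟨1, by
      fin_cases i
      · exact pow_ne_zero _ (MvPolynomial.X_ne_zero (R := ℂ) (0 : Fin 4))
      · exact pow_ne_zero _ (MvPolynomial.X_ne_zero (R := ℂ) (0 : Fin 4))⟩)
    (S.onX_genIdeal _ (fun i => by
      fin_cases i
      · exact S.Fv_sfCd _ _ _
      · exact S.Fv_sfCd _ _ _))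

/-! ### Products -/

/-- the product of two points of the threefold -/
noncomputable def pB (A B : Pt S.V 1) : Pt S.V 2 := (exists_box S.V ![A, B]).choose

lemma pB_I (A B : Pt S.V 1) : (S.pB A B).I = boxIdeal S.V ![A, B] :=
  (exists_box S.V ![A, B]).choose_spec

lemma box_pB (A B : Pt S.V 1) : box S.V ![A, B] = Finsupp.single (S.pB A B) 1 :=
  box_of_eq S.V _ _ (S.pB_I A B)

/-- the coordinates of the `i`-th point -/
noncomputable def prH (i : Fin 2) : Coord (Fin 5) 1 →+* Coord (Fin 5) 2 :=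
  (rename (R := ℂ) (fun v : Fin 1 × Fin 5 => (i, v.2))).toRingHom

lemma prH_X (i : Fin 2) (j : Fin 5) :
    prH i (MvPolynomial.X (0, j)) = MvPolynomial.X (i, j) := by
  simp [prH]

section kill

variable {L : Type} [CommRing L]

lemma xs_comp_prH (φ : Coord (Fin 5) 2 →+* L) (i : Fin 2) :
    xs (φ.comp (prH i)) 0 = xs φ i := by
  funext j
  rw [xs, RingHom.comp_apply, prH_X]
  rfl

lemma cs_comp_prH (φ : Coord (Fin 5) 2 →+* L) (i : Fin 2) :
    cs (φ.comp (prH i)) = cs φ := by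
  ext a
  · simp [cs, prH]

lemma kill_pp (φ : Coord (Fin 5) 1 →+* L) (h1 : xs φ 0 1 = 0) (h2 : xs φ 0 2 = 0)
    (h3 : xs φ 0 3 = 0) (h4 : xs φ 0 4 = 0) {z : Coord (Fin 5) 1} (hz : z ∈ S.pp.I) : φ z = 0 := by
  refine genIdeal_lift S.V _ φ (cs φ) (fun _ => xs φ 0 0) ?_ ?_ hz
  · intro a
    rfl
  · rintro ⟨i, j⟩
    have : i = 0 := Subsingleton.elim _ _
    subst this
    fin_cases j
    · show xs φ 0 0 = cs φ 1 * xs φ 0 0 ^ 1
      rw [map_one, one_mul, pow_one]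
    · show xs φ 0 1 = cs φ 0 * xs φ 0 0 ^ 1
      rw [map_zero, zero_mul, h1]
    · show xs φ 0 2 = cs φ 0 * xs φ 0 0 ^ 1
      rw [map_zero, zero_mul, h2]
    · show xs φ 0 3 = cs φ 0 * xs φ 0 0 ^ 1
      rw [map_zero, zero_mul, h3]
    · show xs φ 0 4 = cs φ 0 * xs φ 0 0 ^ 1
      rw [map_zero, zero_mul, h4]

lemma kill_pl (φ : Coord (Fin 5) 1 →+* L) (k : Fin S.t) (h1 : xs φ 0 1 = 0)
    (h3 : xs φ 0 3 = cs φ (S.b k) * xs φ 0 2)
    (h4 : xs φ 0 4 = 0) {z : Coord (Fin 5) 1} (hz : z ∈ (S.pl k).I) : φ z = 0 := by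
  refine genIdeal_lift S.V _ φ (eval₂Hom (cs φ) ![xs φ 0 0, xs φ 0 2]) (fun _ => 1) ?_ ?_ hz
  · intro a
    rw [MvPolynomial.algebraMap_eq, eval₂Hom_C]
    rfl
  · rintro ⟨i, j⟩
    have : i = 0 := Subsingleton.elim _ _
    subst this
    rw [one_pow, mul_one]
    fin_cases j
    · exact (by simp : xs φ 0 0 = eval₂Hom (cs φ) ![xs φ 0 0, xs φ 0 2] (MvPolynomial.X 0))
    · exact h1.trans (map_zero _).symm
    · exact (by simp : xs φ 0 2 = eval₂Hom (cs φ) ![xs φ 0 0, xs φ 0 2] (MvPolynomial.X 1))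
    · refine h3.trans ?_
      exact (by simp [MvPolynomial.algebraMap_eq] : cs φ (S.b k) * xs φ 0 2 =
        eval₂Hom (cs φ) ![xs φ 0 0, xs φ 0 2]
        (algebraMap ℂ (MvPolynomial (Fin 2) ℂ) (S.b k) * MvPolynomial.X 1))
    · exact h4.trans (map_zero _).symm

lemma kill_pY (φ : Coord (Fin 5) 1 →+* L) (h4 : xs φ 0 4 = 0) (hF : S.F0v (cs φ) (xs φ 0) = 0)
    {z : Coord (Fin 5) 1} (hz : z ∈ S.pY.I) : φ z = 0 := by
  obtain ⟨γ, hγ1, hγ2⟩ := S.exists_liftY (cs φ) (xs φ 0) h4 hF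
  refine genIdeal_lift S.V _ φ γ (fun _ => 1) ?_ ?_ hz
  · intro a
    exact (hγ1 a).symm
  · rintro ⟨i, j⟩
    have : i = 0 := Subsingleton.elim _ _
    subst this
    rw [one_pow, mul_one]
    exact (hγ2 j).symm

lemma kill_pB (φ : Coord (Fin 5) 2 →+* L) (A B : Pt S.V 1) (hA : ∀ z ∈ A.I, φ (prH 0 z) = 0)
    (hB : ∀ z ∈ B.I, φ (prH 1 z) = 0) {z : Coord (Fin 5) 2} (hz : z ∈ (S.pB A B).I) :
    φ z = 0 := by
  rw [pB_I] at hz
  have hle : boxIdeal S.V ![A, B] ≤ RingHom.ker φ := by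
    refine iSup_le fun i => ?_
    rw [Ideal.map_le_iff_le_comap]
    intro z hz
    rw [Ideal.mem_comap, RingHom.mem_ker]
    fin_cases i
    · exact hA z hz
    · exact hB z hz
  exact hle hz

lemma kill_XD (φ : Coord (Fin 5) 2 →+* L) (w : L) (hw : ∀ j, xs φ 1 j = xs φ 0 j * w)
    (hF : S.Fv (cs φ) (xs φ 0) = 0) {z : Coord (Fin 5) 2} (hz : z ∈ S.pXD.I) : φ z = 0 := by
  obtain ⟨γ, hγ1, hγ2⟩ := S.exists_liftX (cs φ) (xs φ 0) hF
  refine genIdeal_lift S.V _ φ γ ![1, w] ?_ ?_ hz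
  · intro a
    exact (hγ1 a).symm
  · rintro ⟨i, j⟩
    fin_cases i
    · exact (by rw [hγ2]; simp [xs] : φ (MvPolynomial.X (0, j)) = γ (S.ptX j) * 1 ^ 1)
    · exact (by rw [hγ2, pow_one]; exact hw j : φ (MvPolynomial.X (1, j)) = γ (S.ptX j) * w ^ 1)

lemma kill_YD (φ : Coord (Fin 5) 2 →+* L) (w : L) (hw : ∀ j, xs φ 1 j = xs φ 0 j * w)
    (h4 : xs φ 0 4 = 0) (hF : S.F0v (cs φ) (xs φ 0) = 0) {z : Coord (Fin 5) 2}
    (hz : z ∈ S.pYD.I) : φ z = 0 := by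
  obtain ⟨γ, hγ1, hγ2⟩ := S.exists_liftY (cs φ) (xs φ 0) h4 hF
  refine genIdeal_lift S.V _ φ γ ![1, w] ?_ ?_ hz
  · intro a
    exact (hγ1 a).symm
  · rintro ⟨i, j⟩
    fin_cases i
    · exact (by rw [hγ2]; simp [xs] : φ (MvPolynomial.X (0, j)) = γ (S.ptY j) * 1 ^ 1)
    · exact (by rw [hγ2, pow_one]; exact hw j : φ (MvPolynomial.X (1, j)) = γ (S.ptY j) * w ^ 1)

lemma kill_V (φ : Coord (Fin 5) 2 →+* L) (w : L) (h1 : xs φ 1 1 = xs φ 0 1 * w)
    (h2 : xs φ 1 2 = xs φ 0 2 * w) (h3 : xs φ 1 3 = xs φ 0 3 * w) (h4 : xs φ 1 4 = xs φ 0 4 * w)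
    (y : L) (h0 : xs φ 1 0 = y * w) (hu : IsUnit (xs φ 0 4)) (hF : S.Fv (cs φ) (xs φ 0) = 0)
    (hG : (S.Gp (cs φ) (xs φ 0)).eval y = 0) {z : Coord (Fin 5) 2}
    (hz : z ∈ S.pV.I) : φ z = 0 := by
  obtain ⟨γ, hγ1, hγ2, hγ3⟩ := S.exists_liftV (cs φ) (xs φ 0) hu hF y hG
  refine genIdeal_lift S.V _ φ γ ![1, w] ?_ ?_ hz
  · intro a
    exact (hγ1 a).symm
  · rintro ⟨i, j⟩
    fin_cases i
    · exact (by rw [hγ2]; simp [xs] : φ (MvPolynomial.X (0, j)) = γ (S.ptV0 j) * 1 ^ 1)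
    · refine (by
        rw [hγ3, pow_one]
        fin_cases j
        · exact h0
        · exact h1
        · exact h2
        · exact h3
        · exact h4 : φ (MvPolynomial.X (1, j)) = γ (S.ptV1 j) * w ^ 1)

end kill

/-- the two functions -/
noncomputable def NN (j : Fin 5) : Coord (Fin 5) 2 :=
  MvPolynomial.X (0, 0) * MvPolynomial.X (1, j) - MvPolynomial.X (1, 0) * MvPolynomial.X (0, j)

/-- the minors -/
noncomputable def mn (i j : Fin 5) : Coord (Fin 5) 2 :=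
  MvPolynomial.X (0, i) * MvPolynomial.X (1, j) - MvPolynomial.X (1, i) * MvPolynomial.X (0, j)

end LnData

end Pool.Agent.RCH
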