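import Pool.Agent.RCH.Ln

/-!
# The coordinate rings
-/

set_option autoImplicit false

open MvPolynomial

namespace Pool.Agent.RCH

namespace LnData

variable (S : LnData)

/-! ### The equation as a polynomial in `x_0`, and its quotient by `Y - x_0` -/

section poly

variable {L L' : Type} [CommRing L] [CommRing L'] (c : ℂ →+* L) (e : Fin 5 → L)

/-- the equation at `(Y, e_1, …, e_4)`, as a polynomial in `Y` -/
noncomputable def Fp : Polynomial L :=
  S.Fv (Polynomial.C.comp c) ![Polynomial.X, Polynomial.C (e 1), Polynomial.C (e 2),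
    Polynomial.C (e 3), Polynomial.C (e 4)]

/-- the point `(y, e_1, …, e_4)` -/
def repl (y : L) : Fin 5 → L := ![y, e 1, e 2, e 3, e 4]

omit [CommRing L] in
lemma repl_self : repl e (e 0) = e := by
  funext j
  fin_cases j <;> rfl

lemma eval_Fp (y : L) : (S.Fp c e).eval y = S.Fv c (repl e y) := by
  have h := S.map_Fv (Polynomial.C.comp c) (Polynomial.evalRingHom y)
    ![Polynomial.X, Polynomial.C (e 1), Polynomial.C (e 2), Polynomial.C (e 3), Polynomial.C (e 4)]
  have h1 : (Polynomial.evalRingHom y).comp (Polynomial.C.comp c) = c := by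
    ext a
    · simp
  rw [h1] at h
  have h2 : (fun j => Polynomial.evalRingHom y ((![Polynomial.X, Polynomial.C (e 1),
      Polynomial.C (e 2), Polynomial.C (e 3), Polynomial.C (e 4)] : Fin 5 → Polynomial L) j)) =
      repl e y := by
    funext j
    fin_cases j <;> simp [repl]
  rw [h2] at h
  exact h

lemma map_Fp (f : L →+* L') :
    (S.Fp c e).map f = S.Fp (f.comp c) (fun j => f (e j)) := by
  have h := S.map_Fv (Polynomial.C.comp c) (Polynomial.mapRingHom f)
    ![Polynomial.X, Polynomial.C (e 1), Polynomial.C (e 2), Polynomial.C (e 3), Polynomial.C (e 4)]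
  have h1 : (Polynomial.mapRingHom f).comp (Polynomial.C.comp c) =
      Polynomial.C.comp (f.comp c) := by
    refine RingHom.ext fun a => ?_
    simp
  rw [h1] at h
  have h2 : (fun j => Polynomial.mapRingHom f ((![Polynomial.X, Polynomial.C (e 1),
      Polynomial.C (e 2), Polynomial.C (e 3), Polynomial.C (e 4)] : Fin 5 → Polynomial L) j)) =
      ![Polynomial.X, Polynomial.C (f (e 1)), Polynomial.C (f (e 2)), Polynomial.C (f (e 3)),
        Polynomial.C (f (e 4))] := by
    funext j
    fin_cases j <;> simp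
  rw [h2] at h
  exact h

/-- the quotient by `Y - e_0` -/
noncomputable def Gp : Polynomial L := S.Fp c e /ₘ (Polynomial.X - Polynomial.C (e 0))

lemma map_Gp (f : L →+* L') :
    (S.Gp c e).map f = S.Gp (f.comp c) (fun j => f (e j)) := by
  unfold Gp
  rw [Polynomial.map_divByMonic f (Polynomial.monic_X_sub_C _), map_Fp]
  simp

lemma mul_Gp (h : S.Fv c e = 0) :
    (Polynomial.X - Polynomial.C (e 0)) * S.Gp c e = S.Fp c e := by
  unfold Gp
  rw [Polynomial.mul_divByMonic_eq_iff_isRoot, Polynomial.IsRoot.def, eval_Fp, repl_self, h]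

/-- the value of the quotient at another root -/
lemma eval_Gp_of_ne [IsDomain L] (h : S.Fv c e = 0) {y : L} (hy : S.Fv c (repl e y) = 0)
    (hne : y ≠ e 0) : (S.Gp c e).eval y = 0 := by
  have h1 := congrArg (Polynomial.eval y) (S.mul_Gp c e h)
  rw [Polynomial.eval_mul, eval_Fp, hy, Polynomial.eval_sub, Polynomial.eval_X,
    Polynomial.eval_C] at h1
  exact (mul_eq_zero.1 h1).resolve_left (sub_ne_zero.2 hne)

lemma Fv_of_eval_Gp (h : S.Fv c e = 0) {y : L} (hy : (S.Gp c e).eval y = 0) :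
    S.Fv c (repl e y) = 0 := by
  have h1 := congrArg (Polynomial.eval y) (S.mul_Gp c e h)
  rw [Polynomial.eval_mul, eval_Fp, hy, mul_zero] at h1
  exact h1.symm

/-- the derivative of the value of a polynomial in the first variable -/
lemma derivative_eval₂ (p : MvPolynomial (Fin 5) ℂ) :
    Polynomial.derivative (eval₂Hom (Polynomial.C.comp c) ![Polynomial.X, Polynomial.C (e 1),
      Polynomial.C (e 2), Polynomial.C (e 3), Polynomial.C (e 4)] p) =
      eval₂Hom (Polynomial.C.comp c) ![Polynomial.X, Polynomial.C (e 1),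
      Polynomial.C (e 2), Polynomial.C (e 3), Polynomial.C (e 4)] (pderiv 0 p) := by
  induction p using MvPolynomial.induction_on with
  | C a => simp
  | add p q hp hq => rw [map_add, map_add, map_add, map_add, hp, hq]
  | mul_X p j hp =>
    rw [map_mul, Polynomial.derivative_mul, hp, Derivation.leibniz, map_add, smul_eq_mul,
      smul_eq_mul, map_mul, map_mul, pderiv_X]
    fin_cases j
    · simp
      ring
    · simp
      ring
    · simp
      ring
    · simp
      ring
    · simp
      ring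

lemma eval_derivative_Fp (y : L) :
    (Polynomial.derivative (S.Fp c e)).eval y = S.dFv c (repl e y) := by
  have h0 : Polynomial.derivative (S.Fp c e) =
      S.dFv (Polynomial.C.comp c) ![Polynomial.X, Polynomial.C (e 1),
        Polynomial.C (e 2), Polynomial.C (e 3), Polynomial.C (e 4)] := by
    have e0 : (![Polynomial.X, Polynomial.C (e 1), Polynomial.C (e 2), Polynomial.C (e 3),
      Polynomial.C (e 4)] : Fin 5 → Polynomial L) 0 = Polynomial.X := rfl
    have e1 : (![Polynomial.X, Polynomial.C (e 1), Polynomial.C (e 2), Polynomial.C (e 3),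
      Polynomial.C (e 4)] : Fin 5 → Polynomial L) 1 = Polynomial.C (e 1) := rfl
    have e2 : (![Polynomial.X, Polynomial.C (e 1), Polynomial.C (e 2), Polynomial.C (e 3),
      Polynomial.C (e 4)] : Fin 5 → Polynomial L) 2 = Polynomial.C (e 2) := rfl
    have e3 : (![Polynomial.X, Polynomial.C (e 1), Polynomial.C (e 2), Polynomial.C (e 3),
      Polynomial.C (e 4)] : Fin 5 → Polynomial L) 3 = Polynomial.C (e 3) := rfl
    have e4 : (![Polynomial.X, Polynomial.C (e 1), Polynomial.C (e 2), Polynomial.C (e 3),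
      Polynomial.C (e 4)] : Fin 5 → Polynomial L) 4 = Polynomial.C (e 4) := rfl
    have hph : S.phv (Polynomial.C.comp c) (Polynomial.C (e 2)) (Polynomial.C (e 3)) =
        Polynomial.C (S.phv c (e 2) (e 3)) := (S.map_phv c Polynomial.C _ _).symm
    have hg : S.gv (Polynomial.C.comp c) (Polynomial.C (e 1)) (Polynomial.C (e 2))
        (Polynomial.C (e 3)) = Polynomial.C (S.gv c (e 1) (e 2) (e 3)) :=
      (S.map_gv c Polynomial.C _ _ _).symm
    rw [Fp, Fv, F0v, dFv, Pv, e0, e1, e2, e3, e4, hph, hg, Polynomial.derivative_add,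
      Polynomial.derivative_add, Polynomial.derivative_add, Polynomial.derivative_mul,
      Polynomial.derivative_mul, Polynomial.derivative_mul, derivative_eval₂, ← Polynomial.C_pow]
    simp only [Polynomial.derivative_X, Polynomial.derivative_C]
    ring
  rw [h0]
  have h := S.map_dFv (Polynomial.C.comp c) (Polynomial.evalRingHom y)
    ![Polynomial.X, Polynomial.C (e 1), Polynomial.C (e 2), Polynomial.C (e 3), Polynomial.C (e 4)]
  have h1 : (Polynomial.evalRingHom y).comp (Polynomial.C.comp c) = c := by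
    ext a
    · simp
  rw [h1] at h
  have h2 : (fun j => Polynomial.evalRingHom y ((![Polynomial.X, Polynomial.C (e 1),
      Polynomial.C (e 2), Polynomial.C (e 3), Polynomial.C (e 4)] : Fin 5 → Polynomial L) j)) =
      repl e y := by
    funext j
    fin_cases j <;> simp [repl]
  rw [h2] at h
  exact h

/-- the value of the quotient at `e_0` is the derivative -/
lemma eval_Gp_self (h : S.Fv c e = 0) : (S.Gp c e).eval (e 0) = S.dFv c e := by
  have h1 := congrArg (fun p => (Polynomial.derivative p).eval (e 0)) (S.mul_Gp c e h)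
  simp only [eval_derivative_Fp, repl_self] at h1
  rw [← h1, Polynomial.derivative_mul]
  simp

end poly

/-! ### The ring of the surface -/

/-- the equation of the surface -/
noncomputable def F04 : MvPolynomial (Fin 4) ℂ :=
  S.F0v C ![MvPolynomial.X 0, MvPolynomial.X 1, MvPolynomial.X 2, MvPolynomial.X 3, 0]

/-- the coordinate ring of the surface -/
abbrev RY : Type := MvPolynomial (Fin 4) ℂ ⧸ Ideal.span {S.F04}

/-- the generic point of the surface -/
noncomputable def ptY : Fin 5 → S.RY :=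
  ![Ideal.Quotient.mk _ (MvPolynomial.X 0), Ideal.Quotient.mk _ (MvPolynomial.X 1),
    Ideal.Quotient.mk _ (MvPolynomial.X 2), Ideal.Quotient.mk _ (MvPolynomial.X 3), 0]

lemma F0v_ptY : S.F0v (algebraMap ℂ S.RY) S.ptY = 0 := by
  have h := S.map_F0v C (Ideal.Quotient.mk (Ideal.span {S.F04}))
    ![MvPolynomial.X 0, MvPolynomial.X 1, MvPolynomial.X 2, MvPolynomial.X 3, 0]
  have h1 : (fun j => Ideal.Quotient.mk (Ideal.span {S.F04}) ((![MvPolynomial.X 0,
      MvPolynomial.X 1, MvPolynomial.X 2, MvPolynomial.X 3, 0] : Fin 5 → MvPolynomial (Fin 4) ℂ)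
      j)) = S.ptY := by
    funext j
    fin_cases j
    · rfl
    · rfl
    · rfl
    · rfl
    · exact map_zero _
  rw [h1] at h
  have h2 : Ideal.Quotient.mk (Ideal.span {S.F04}) S.F04 = 0 :=
    Ideal.Quotient.eq_zero_iff_mem.2 (Ideal.mem_span_singleton_self _)
  exact h.symm.trans h2

lemma Fv_ptY : S.Fv (algebraMap ℂ S.RY) S.ptY = 0 := by
  have h : S.ptY 4 = 0 := rfl
  rw [Fv, F0v_ptY, h, zero_mul, add_zero]

lemma exists_liftY {L : Type} [CommRing L] (c : ℂ →+* L) (e : Fin 5 → L) (h4 : e 4 = 0)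
    (h : S.F0v c e = 0) :
    ∃ γ : S.RY →+* L, (∀ a, γ (algebraMap ℂ S.RY a) = c a) ∧ ∀ j, γ (S.ptY j) = e j := by
  have hF : ∀ p ∈ Ideal.span {S.F04}, eval₂Hom c (fun j : Fin 4 => e (Fin.castSucc j)) p = 0 := by
    intro p hp
    obtain ⟨q, rfl⟩ := Ideal.mem_span_singleton'.1 hp
    rw [map_mul]
    have h1 := S.map_F0v C (eval₂Hom c (fun j : Fin 4 => e (Fin.castSucc j)))
      ![MvPolynomial.X 0, MvPolynomial.X 1, MvPolynomial.X 2, MvPolynomial.X 3, 0]
    have h2 : (eval₂Hom c (fun j : Fin 4 => e (Fin.castSucc j))).comp C = c := by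
      ext a
      · simp
    have h3 : (fun j => eval₂Hom c (fun j : Fin 4 => e (Fin.castSucc j))
        ((![MvPolynomial.X 0, MvPolynomial.X 1, MvPolynomial.X 2, MvPolynomial.X 3, 0] :
        Fin 5 → MvPolynomial (Fin 4) ℂ) j)) = e := by
      funext j
      fin_cases j <;> simp [h4]
    rw [h2, h3, h] at h1
    have h5 : eval₂Hom c (fun j : Fin 4 => e (Fin.castSucc j)) S.F04 = 0 := h1
    rw [h5, mul_zero]
  refine ⟨Ideal.Quotient.lift _ (eval₂Hom c (fun j : Fin 4 => e (Fin.castSucc j))) hF, ?_, ?_⟩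
  · intro a
    have h1 : algebraMap ℂ S.RY a = Ideal.Quotient.mk _ (C a) := rfl
    rw [h1, Ideal.Quotient.lift_mk]
    simp
  · intro j
    fin_cases j
    · exact (Ideal.Quotient.lift_mk _ _ _).trans (by simp)
    · exact (Ideal.Quotient.lift_mk _ _ _).trans (by simp)
    · exact (Ideal.Quotient.lift_mk _ _ _).trans (by simp)
    · exact (Ideal.Quotient.lift_mk _ _ _).trans (by simp)
    · exact (map_zero _).trans h4.symm

/-! ### The ring of the threefold -/

/-- the coordinate ring of the threefold -/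
abbrev RX : Type := MvPolynomial (Fin 5) ℂ ⧸ Ideal.span {S.F}

/-- the generic point of the threefold -/
noncomputable def ptX (j : Fin 5) : S.RX := Ideal.Quotient.mk _ (MvPolynomial.X j)

lemma eval₂_ptX (p : MvPolynomial (Fin 5) ℂ) :
    eval₂Hom (algebraMap ℂ S.RX) S.ptX p = Ideal.Quotient.mk _ p := by
  have h : eval₂Hom (algebraMap ℂ S.RX) S.ptX = Ideal.Quotient.mk (Ideal.span {S.F}) := by
    apply MvPolynomial.ringHom_ext
    · intro a
      simp
      rfl
    · intro j
      simp
      rfl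
  rw [h]

lemma Fv_ptX : S.Fv (algebraMap ℂ S.RX) S.ptX = 0 := by
  rw [← eval₂_F, eval₂_ptX, Ideal.Quotient.eq_zero_iff_mem]
  exact Ideal.mem_span_singleton_self _

lemma exists_liftX {L : Type} [CommRing L] (c : ℂ →+* L) (e : Fin 5 → L) (h : S.Fv c e = 0) :
    ∃ γ : S.RX →+* L, (∀ a, γ (algebraMap ℂ S.RX a) = c a) ∧ ∀ j, γ (S.ptX j) = e j := by
  have hF : ∀ p ∈ Ideal.span {S.F}, eval₂Hom c e p = 0 := by
    intro p hp
    obtain ⟨q, rfl⟩ := Ideal.mem_span_singleton'.1 hp
    rw [map_mul, eval₂_F, h, mul_zero]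
  refine ⟨Ideal.Quotient.lift _ (eval₂Hom c e) hF, ?_, ?_⟩
  · intro a
    have h1 : algebraMap ℂ S.RX a = Ideal.Quotient.mk _ (C a) := rfl
    rw [h1, Ideal.Quotient.lift_mk]
    simp
  · intro j
    rw [ptX, Ideal.Quotient.lift_mk]
    simp

/-! ### The ring of the fibre square of the projection from the vertex -/

/-- the leading coefficient of `P` in `x_0` -/
noncomputable def lc : ℂ := eval ![1, 0, 0, 0, 0] S.P

/-- the ring of the threefold, with `x_4` inverted -/
abbrev AX : Type := Localization.Away (S.ptX 4)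

/-- the generic point with `x_4` inverted -/
noncomputable def ptA (j : Fin 5) : S.AX := algebraMap S.RX S.AX (S.ptX j)

lemma isUnit_ptA4 : IsUnit (S.ptA 4) := IsLocalization.Away.algebraMap_isUnit (S.ptX 4)

lemma isUnit_lc_mul : IsUnit (algebraMap ℂ S.AX S.lc * S.ptA 4) := by
  refine IsUnit.mul ?_ S.isUnit_ptA4
  exact (isUnit_iff_ne_zero.2 S.hPc : IsUnit S.lc).map (algebraMap ℂ S.AX)

/-- the inverse of the leading coefficient -/
noncomputable def lcInv : S.AX := ↑(S.isUnit_lc_mul.unit⁻¹)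

lemma lcInv_mul : S.lcInv * (algebraMap ℂ S.AX S.lc * S.ptA 4) = 1 :=
  S.isUnit_lc_mul.val_inv_mul

/-- the equation of the second point over the ring of the first, made monic -/
noncomputable def Gm : Polynomial S.AX :=
  Polynomial.C S.lcInv * S.Gp (algebraMap ℂ S.AX) S.ptA

/-- the ring of the fibre square, without the diagonal, of the projection from the vertex -/
abbrev RV : Type := AdjoinRoot S.Gm

/-- the coordinates of the first point -/
noncomputable def ptV0 (j : Fin 5) : S.RV := AdjoinRoot.of _ (S.ptA j)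

/-- the coordinates of the second point -/
noncomputable def ptV1 : Fin 5 → S.RV := repl S.ptV0 (AdjoinRoot.root _)

lemma algebraMap_AX (a : ℂ) : algebraMap ℂ S.AX a = algebraMap S.RX S.AX (algebraMap ℂ S.RX a) :=
  IsScalarTower.algebraMap_apply ℂ S.RX S.AX a

lemma Fv_ptA : S.Fv (algebraMap ℂ S.AX) S.ptA = 0 := by
  have h := S.map_Fv (algebraMap ℂ S.RX) (algebraMap S.RX S.AX) S.ptX
  rw [Fv_ptX, map_zero] at h
  have h1 : (algebraMap S.RX S.AX).comp (algebraMap ℂ S.RX) = algebraMap ℂ S.AX :=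
    RingHom.ext fun a => (S.algebraMap_AX a).symm
  rw [h1] at h
  exact h.symm

lemma of_comp : (AdjoinRoot.of S.Gm).comp (algebraMap ℂ S.AX) = algebraMap ℂ S.RV := rfl

lemma Fv_ptV0 : S.Fv (algebraMap ℂ S.RV) S.ptV0 = 0 := by
  have h := S.map_Fv (algebraMap ℂ S.AX) (AdjoinRoot.of S.Gm) S.ptA
  rw [Fv_ptA, map_zero, of_comp] at h
  exact h.symm

lemma isUnit_ptV0_4 : IsUnit (S.ptV0 4) := S.isUnit_ptA4.map (AdjoinRoot.of S.Gm)

lemma eval₂_Gm {L : Type} [CommRing L] (f : S.AX →+* L) (y : L) :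
    Polynomial.eval₂ f y S.Gm = f S.lcInv *
      (S.Gp (f.comp (algebraMap ℂ S.AX)) (fun j => f (S.ptA j))).eval y := by
  rw [Gm, Polynomial.eval₂_mul, Polynomial.eval₂_C, Polynomial.eval₂_eq_eval_map (p := S.Gp _ _),
    map_Gp]

lemma eval_Gp_root : (S.Gp (algebraMap ℂ S.RV) S.ptV0).eval (AdjoinRoot.root S.Gm) = 0 := by
  have h := AdjoinRoot.eval₂_root S.Gm
  rw [eval₂_Gm] at h
  have h1 : IsUnit (AdjoinRoot.of S.Gm S.lcInv) :=
    (Units.isUnit (S.isUnit_lc_mul.unit⁻¹)).map (AdjoinRoot.of S.Gm)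
  exact (h1.mul_right_eq_zero).1 h

lemma Fv_ptV1 : S.Fv (algebraMap ℂ S.RV) S.ptV1 = 0 :=
  S.Fv_of_eval_Gp _ _ S.Fv_ptV0 S.eval_Gp_root

lemma exists_liftV {L : Type} [CommRing L] (c : ℂ →+* L) (e : Fin 5 → L) (h4 : IsUnit (e 4))
    (h : S.Fv c e = 0) (y : L) (hy : (S.Gp c e).eval y = 0) :
    ∃ γ : S.RV →+* L, (∀ a, γ (algebraMap ℂ S.RV a) = c a) ∧ (∀ j, γ (S.ptV0 j) = e j) ∧
      ∀ j, γ (S.ptV1 j) = repl e y j := by
  obtain ⟨γ0, hγ1, hγ2⟩ := S.exists_liftX c e h
  have hu : IsUnit (γ0 (S.ptX 4)) := by rw [hγ2]; exact h4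
  let γ1 : S.AX →+* L := IsLocalization.Away.lift (S.ptX 4) hu
  have h1 : ∀ x, γ1 (algebraMap S.RX S.AX x) = γ0 x := fun x =>
    IsLocalization.Away.lift_eq (S.ptX 4) hu x
  have h2 : γ1.comp (algebraMap ℂ S.AX) = c := by
    refine RingHom.ext fun a => ?_
    rw [RingHom.comp_apply, algebraMap_AX, h1, hγ1]
  have h3 : (fun j => γ1 (S.ptA j)) = e := by
    funext j
    rw [ptA, h1, hγ2]
  have h5 : Polynomial.eval₂ γ1 y S.Gm = 0 := by
    rw [eval₂_Gm, h2, h3, hy, mul_zero]
  refine ⟨AdjoinRoot.lift γ1 y h5, ?_, ?_, ?_⟩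
  · intro a
    rw [← of_comp, RingHom.comp_apply, AdjoinRoot.lift_of]
    exact congrArg (fun ψ => ψ a) h2
  · intro j
    rw [ptV0, AdjoinRoot.lift_of]
    exact congrFun h3 j
  · have h6 : ∀ j, AdjoinRoot.lift γ1 y h5 (S.ptV0 j) = e j := by
      intro j
      rw [ptV0, AdjoinRoot.lift_of]
      exact congrFun h3 j
    intro j
    fin_cases j
    · exact AdjoinRoot.lift_root _
    · exact h6 1
    · exact h6 2
    · exact h6 3
    · exact h6 4

end LnData

end Pool.Agent.RCH
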