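import Pool.Agent.RCH.MUa
import Pool.Agent.RCH.MBoxCol

/-!
# The length of a product is the product of the lengths

For ideals `I`, `K` of the ring of the coordinates of one point and prime ideals `p`, `q`, the length at
the prime `prodId p q` of the quotient by `prodId I K` is the product of the length of the quotient
by `I` at `p` and that of the quotient by `K` at `q`.
-/

set_option autoImplicit false

open MvPolynomial

namespace Pool.Agent.RCH

section

variable {S : Type} [CommRing S]

/-- the length at `Q` of the quotient by a smaller prime ideal is infinite -/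
theorem len_prime_lt (Q : Ideal S) [Q.IsPrime] [IsNoetherianRing S] {p : Ideal S} [hp : p.IsPrime]
    (h : p < Q) : len Q (S ⧸ p) = ⊤ := by
  by_contra hne
  rw [len_quot] at hne
  let A := Localization.AtPrime Q ⧸ p.map (algebraMap S (Localization.AtPrime Q))
  have hfl : IsFiniteLength (Localization.AtPrime Q) A := by
    rw [← Module.length_ne_top_iff]
    exact hne
  have hart : IsArtinian (Localization.AtPrime Q) A :=
    (isFiniteLength_iff_isNoetherian_isArtinian.1 hfl).2
  have hart' : IsArtinianRing A := by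
    have : IsArtinian A A := isArtinian_of_tower (Localization.AtPrime Q) hart
    exact this
  have hdisj : Disjoint (Q.primeCompl : Set S) (p : Set S) := by
    rw [Set.disjoint_left]
    intro x hx hxp
    exact hx (h.le hxp)
  have hprime : (p.map (algebraMap S (Localization.AtPrime Q))).IsPrime :=
    IsLocalization.isPrime_of_isPrime_disjoint Q.primeCompl _ p hp hdisj
  have hmax : (p.map (algebraMap S (Localization.AtPrime Q))).IsMaximal := by
    have hdom : IsDomain A := Ideal.Quotient.isDomain _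
    have hf : IsField A := IsArtinianRing.isField_of_isDomain A
    exact Ideal.Quotient.maximal_of_isField _ hf
  have h1 := IsLocalRing.eq_maximalIdeal hmax
  have h2 : p = Q := by
    have h3 := IsLocalization.under_map_of_isPrime_disjoint Q.primeCompl (Localization.AtPrime Q)
      hp hdisj
    rw [h1, Localization.AtPrime.under_maximalIdeal] at h3
    exact h3.symm
  exact h.ne h2

/-- `a` modulo `J` -/
theorem len_quot_colon (Q : Ideal S) [Q.IsPrime] {T : Type} [CommRing T] [Algebra S T]
    (J J' : Ideal T) (a : T) (h : ∀ x, x ∈ J' ↔ a * x ∈ J) :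
    len Q (T ⧸ J) = len Q (T ⧸ J') + len Q (T ⧸ (J ⊔ Ideal.span {a})) := by
  have h1 : (J' : Submodule T T) ≤ Submodule.comap (LinearMap.mulLeft T a) J :=
    fun x hx => (h x).1 hx
  have h2 : (J : Submodule T T) ≤ Submodule.comap LinearMap.id (J ⊔ Ideal.span {a}) :=
    fun x hx => Ideal.mem_sup_left hx
  let f : (T ⧸ J') →ₗ[T] (T ⧸ J) := Submodule.mapQ _ _ (LinearMap.mulLeft T a) h1
  let k : (T ⧸ J) →ₗ[T] (T ⧸ (J ⊔ Ideal.span {a})) := Submodule.mapQ _ _ LinearMap.id h2
  refine len_add Q (f.restrictScalars S) (k.restrictScalars S) ?_ ?_ ?_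
  · rw [LinearMap.coe_restrictScalars]
    rw [← LinearMap.ker_eq_bot, LinearMap.ker_eq_bot']
    intro x hx
    obtain ⟨x, rfl⟩ := Submodule.mkQ_surjective _ x
    exact (Submodule.Quotient.mk_eq_zero _).2 ((h x).2 ((Submodule.Quotient.mk_eq_zero _).1 hx))
  · rw [LinearMap.coe_restrictScalars]
    intro x
    obtain ⟨x, rfl⟩ := Submodule.mkQ_surjective _ x
    exact ⟨Submodule.mkQ _ x, rfl⟩
  · intro x
    rw [LinearMap.coe_restrictScalars, LinearMap.coe_restrictScalars]
    obtain ⟨x, rfl⟩ := Submodule.mkQ_surjective _ x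
    constructor
    · intro hx
      have hx' : x ∈ J ⊔ Ideal.span {a} := (Submodule.Quotient.mk_eq_zero _).1 hx
      obtain ⟨j, hj, y, hy, hjy⟩ := Submodule.mem_sup.1 hx'
      obtain ⟨c, rfl⟩ := Ideal.mem_span_singleton.1 hy
      refine ⟨Submodule.mkQ _ c, ?_⟩
      change Submodule.mkQ _ (a * c) = Submodule.mkQ _ x
      rw [← sub_eq_zero, ← map_sub]
      refine (Submodule.Quotient.mk_eq_zero _).2 ?_
      have : a * c - x = -j := by linear_combination hjy
      rw [this]
      exact neg_mem hj
    · rintro ⟨y, hy⟩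
      obtain ⟨y, rfl⟩ := Submodule.mkQ_surjective _ y
      rw [← hy]
      change Submodule.mkQ _ (a * y) = 0
      refine (Submodule.Quotient.mk_eq_zero _).2 (Ideal.mem_sup_right ?_)
      exact Ideal.mul_mem_right _ _ (Ideal.mem_span_singleton_self a)

end

theorem exists_prime_colon {T : Type} [CommRing T] [IsNoetherianRing T] (I : Ideal T)
    (hI : I ≠ ⊤) : ∃ (p : Ideal T) (a : T), a ∉ I ∧ (∀ x, x ∈ p ↔ a * x ∈ I) ∧ p.IsPrime := by
  let 𝒮 : Set (Ideal T) := {J | ∃ a : T, a ∉ I ∧ ∀ x, x ∈ J ↔ a * x ∈ I}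
  have hcol : ∀ a : T, ∃ J : Ideal T, ∀ x, x ∈ J ↔ a * x ∈ I := fun a =>
    ⟨Submodule.comap (LinearMap.mulLeft T a) I, fun x => Iff.rfl⟩
  have hne : 𝒮.Nonempty := ⟨I, 1, fun h => hI ((Ideal.eq_top_iff_one I).2 h), fun x => by
    rw [one_mul]⟩
  obtain ⟨p, ⟨a, haI, ha⟩, hmax⟩ := set_has_maximal_iff_noetherian.2 ‹IsNoetherianRing T› 𝒮 hne
  refine ⟨p, a, haI, ha, ?_, ?_⟩
  · intro htop
    apply haI
    rw [← mul_one a]
    exact (ha 1).1 (by rw [htop]; trivial)
  · intro x y hxy
    by_contra! hcon
    obtain ⟨hx, hy⟩ := hcon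
    obtain ⟨J, hJ⟩ := hcol (a * x)
    have hJmem : J ∈ 𝒮 := ⟨a * x, fun h => hx ((ha x).2 h), hJ⟩
    have hlt : p < J := by
      refine SetLike.lt_iff_le_and_exists.2 ⟨fun z hz => ?_, y, ?_, hy⟩
      · rw [hJ, mul_assoc, mul_comm x, ← mul_assoc]
        exact I.mul_mem_right _ ((ha z).1 hz)
      · rw [hJ, mul_assoc]
        exact (ha _).1 hxy
    exact hmax J hJmem hlt

/-- An additive function of ideals is determined by its values at prime ideals. -/
theorem ideal_devissage {T : Type} [CommRing T] [IsNoetherianRing T] (P : Ideal T → Prop)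
    (h0 : P ⊤) (h1 : ∀ p : Ideal T, p.IsPrime → P p)
    (h2 : ∀ (I I' : Ideal T) (a : T), (∀ x, x ∈ I' ↔ a * x ∈ I) → P I' →
      P (I ⊔ Ideal.span {a}) → P I) (I : Ideal T) : P I := by
  induction I using IsNoetherian.induction with
  | hgt I ih =>
    by_cases htop : I = ⊤
    · rw [htop]
      exact h0
    · obtain ⟨p, a, haI, hx', hprime⟩ := exists_prime_colon I htop
      refine h2 I p a hx' (h1 p hprime) (ih _ ?_)
      refine lt_of_le_of_ne le_sup_left fun heq => haI ?_
      rw [heq]
      exact Ideal.mem_sup_right (Ideal.mem_span_singleton_self a)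

section

variable {ι : Type}

lemma comap_prodId_left (I K : Ideal (Coord ι 1)) (hK : K ≠ ⊤) :
    (prodId I K).comap (prMap ι 2 0).toRingHom = I := by
  ext f
  rw [Ideal.mem_comap]
  change prMap ι 2 0 f ∈ _ ↔ _
  rw [mem_prodId_iff, curryQ_left]
  have : Nontrivial (Coord ι 1 ⧸ K) := Ideal.Quotient.nontrivial_iff.2 hK
  let e := Module.Basis.ofVectorSpace ℂ (Coord ι 1 ⧸ K)
  rw [mem_map_iff_crd e]
  have key : ∀ b, crd e (map (algebraMap ℂ (Coord ι 1 ⧸ K)) f) b = f * C (e.repr 1 b) := by
    intro b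
    have := crd_mul e f 1 b
    rw [mul_one] at this
    rw [this]
    congr 1
    ext m
    classical
    rw [coeff_crd, coeff_one, coeff_C]
    split_ifs
    · rfl
    · rw [map_zero, Finsupp.zero_apply]
  constructor
  · intro h
    have h1 : e.repr (1 : Coord ι 1 ⧸ K) ≠ 0 := by
      rw [Ne, LinearEquiv.map_eq_zero_iff]
      exact one_ne_zero
    obtain ⟨b, hb⟩ := Finsupp.ne_iff.1 h1
    rw [Finsupp.zero_apply] at hb
    have h2 := h b
    rw [key] at h2
    have h3 : f = f * C (e.repr 1 b) * C (e.repr 1 b)⁻¹ := by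
      rw [mul_assoc, ← C_mul, mul_inv_cancel₀ hb, C_1, mul_one]
    rw [h3]
    exact I.mul_mem_right _ h2
  · intro h b
    rw [key]
    exact I.mul_mem_right _ h

lemma comap_prodId_right (I K : Ideal (Coord ι 1)) (hI : I ≠ ⊤) :
    (prodId I K).comap (prMap ι 2 1).toRingHom = K := by
  refine Eq.trans ?_ (comap_prodId_left K I hI)
  ext f
  rw [Ideal.mem_comap, Ideal.mem_comap]
  change prMap ι 2 1 f ∈ _ ↔ prMap ι 2 0 f ∈ _
  rw [← swap_mem_iff I K, swap2_one]

lemma prodId_mono {I I' K K' : Ideal (Coord ι 1)} (h : I ≤ I') (h' : K ≤ K') :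
    prodId I K ≤ prodId I' K' :=
  sup_le_sup (Ideal.map_mono h) (Ideal.map_mono h')

lemma prodId_le_iff {I I' K K' : Ideal (Coord ι 1)} (hI : I' ≠ ⊤) (hK : K' ≠ ⊤) :
    prodId I K ≤ prodId I' K' ↔ I ≤ I' ∧ K ≤ K' := by
  refine ⟨fun h => ⟨?_, ?_⟩, fun h => prodId_mono h.1 h.2⟩
  · intro f hf
    rw [← comap_prodId_left I' K' hK]
    exact h (mem_prodId_left K hf)
  · intro f hf
    rw [← comap_prodId_right I' K' hI]
    exact h (mem_prodId_right I hf)

lemma prodId_top_left (K : Ideal (Coord ι 1)) : prodId ⊤ K = ⊤ := by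
  unfold prodId
  rw [Ideal.map_top]
  exact top_sup_eq _

lemma prodId_top_right (I : Ideal (Coord ι 1)) : prodId I ⊤ = ⊤ := by
  unfold prodId
  rw [Ideal.map_top]
  exact sup_top_eq _

/-- **The length of a product is the product of the lengths.** -/
theorem len_prodId [Finite ι] (p q : Ideal (Coord ι 1)) [hp : p.IsPrime] [hq : q.IsPrime]
    [hpq : (prodId p q).IsPrime] (I K : Ideal (Coord ι 1)) :
    len (prodId p q) (Coord ι 2 ⧸ prodId I K) =
      len p (Coord ι 1 ⧸ I) * len q (Coord ι 1 ⧸ K) := by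
  revert K
  refine ideal_devissage (fun I => ∀ K : Ideal (Coord ι 1),
    len (prodId p q) (Coord ι 2 ⧸ prodId I K) =
      len p (Coord ι 1 ⧸ I) * len q (Coord ι 1 ⧸ K)) ?_ ?_ ?_ I
  · intro K
    rw [len_quot_top _ (prodId_top_left K), len_quot_top _ (rfl : (⊤ : Ideal (Coord ι 1)) = ⊤),
      zero_mul]
  · intro I hI K
    refine ideal_devissage (fun K => len (prodId p q) (Coord ι 2 ⧸ prodId I K) =
      len p (Coord ι 1 ⧸ I) * len q (Coord ι 1 ⧸ K)) ?_ ?_ ?_ K
    · rw [len_quot_top _ (prodId_top_right I), len_quot_top _ (rfl : (⊤ : Ideal (Coord ι 1)) = ⊤),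
        mul_zero]
    · intro K hK
      have hIK := prodId_prime I K
      by_cases h : I ≤ p ∧ K ≤ q
      · rcases eq_or_lt_of_le h.1 with h1 | h1
        · rcases eq_or_lt_of_le h.2 with h2 | h2
          · subst h1 h2
            rw [len_prime_self, len_prime_self, len_prime_self, mul_one]
          · have h3 : prodId I K < prodId p q := by
              refine lt_of_le_of_ne (prodId_mono h.1 h.2) fun heq => h2.ne ?_
              rw [← comap_prodId_right I K hI.ne_top, heq, comap_prodId_right p q hp.ne_top]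
            rw [len_prime_lt _ h3, len_prime_lt _ h2]
            subst h1
            rw [len_prime_self, one_mul]
        · have h3 : prodId I K < prodId p q := by
            refine lt_of_le_of_ne (prodId_mono h.1 h.2) fun heq => h1.ne ?_
            rw [← comap_prodId_left I K hK.ne_top, heq, comap_prodId_left p q hq.ne_top]
          rw [len_prime_lt _ h3, len_prime_lt _ h1]
          rcases eq_or_lt_of_le h.2 with h2 | h2
          · subst h2
            rw [len_prime_self, mul_one]
          · rw [len_prime_lt _ h2]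
            rfl
      · rw [len_prime_zero _ (fun h' => h ((prodId_le_iff hp.ne_top hq.ne_top).1 h'))]
        rcases not_and_or.1 h with h1 | h1
        · rw [len_prime_zero _ h1, zero_mul]
        · rw [len_prime_zero _ h1, mul_zero]
    · intro K K' a ha h1 h2
      rw [len_quot_colon (prodId p q) (prodId I K) (prodId I K') (prMap ι 2 1 a)
        (fun f => (right_mul_mem_prodId I a ha f).symm), ← prodId_sup_right, h1, h2,
        len_quot_colon q K K' a ha, mul_add]
  · intro I I' a ha h1 h2 K
    rw [len_quot_colon (prodId p q) (prodId I K) (prodId I' K) (prMap ι 2 0 a)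
      (fun f => (left_mul_mem_prodId K a ha f).symm), ← prodId_sup_left, h1, h2,
      len_quot_colon p I I' a ha, add_mul]

end

end Pool.Agent.RCH
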