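import Pool.Agent.RCH.Ord2

/-!
# The length of a module at a prime ideal

`len Q M` is the length of the localization of `M` at `Q`. It is additive; for endomorphisms the
difference of the lengths of the cokernel and of the kernel is additive; devissage.
-/

set_option autoImplicit false

namespace Pool.Agent.RCH

open Module LinearMap

section basic

variable {S : Type} [CommRing S]

/-- the length of the localization of `M` at `Q` -/
noncomputable def len (Q : Ideal S) [Q.IsPrime] (M : Type) [AddCommGroup M] [Module S M] : ℕ∞ :=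
  Module.length (Localization.AtPrime Q) (LocalizedModule Q.primeCompl M)

variable (Q : Ideal S) [Q.IsPrime]
variable {M N P : Type} [AddCommGroup M] [Module S M] [AddCommGroup N] [Module S N]
  [AddCommGroup P] [Module S P]

/-- additivity in short exact sequences -/
theorem len_add (f : N →ₗ[S] M) (g : M →ₗ[S] P) (hf : Function.Injective f)
    (hg : Function.Surjective g) (h : Function.Exact f g) : len Q M = len Q N + len Q P :=
  Module.length_eq_add_of_exact (LocalizedModule.map Q.primeCompl f)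
    (LocalizedModule.map Q.primeCompl g) (LocalizedModule.map_injective _ _ hf)
    (LocalizedModule.map_surjective _ _ hg) (LocalizedModule.map_exact _ _ _ h)

theorem len_eq_zero [Subsingleton M] : len Q M = 0 := by
  have : Subsingleton (LocalizedModule Q.primeCompl M) := inferInstance
  exact Module.length_eq_zero

theorem len_le_of_injective (f : N →ₗ[S] M) (hf : Function.Injective f) : len Q N ≤ len Q M :=
  Module.length_le_of_injective (LocalizedModule.map Q.primeCompl f)
    (LocalizedModule.map_injective _ _ hf)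

theorem len_le_of_surjective (g : M →ₗ[S] P) (hg : Function.Surjective g) : len Q P ≤ len Q M :=
  Module.length_le_of_surjective (LocalizedModule.map Q.primeCompl g)
    (LocalizedModule.map_surjective _ _ hg)

theorem len_equiv (e : M ≃ₗ[S] N) : len Q M = len Q N :=
  le_antisymm (len_le_of_injective Q e.toLinearMap e.injective)
    (len_le_of_surjective Q e.toLinearMap e.surjective)

/-- kernel and image -/
theorem len_ker_range (f : M →ₗ[S] N) : len Q M = len Q (ker f) + len Q (range f) :=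
  len_add Q (ker f).subtype f.rangeRestrict (Submodule.injective_subtype _)
    f.surjective_rangeRestrict (by
      intro x
      rw [← LinearMap.mem_ker, LinearMap.ker_rangeRestrict]
      exact ⟨fun h => ⟨⟨x, h⟩, rfl⟩, fun ⟨y, hy⟩ => hy ▸ y.2⟩)

/-- submodule and quotient -/
theorem len_sub_quot (N : Submodule S M) : len Q M = len Q N + len Q (M ⧸ N) :=
  len_add Q N.subtype N.mkQ (Submodule.injective_subtype _) (Submodule.mkQ_surjective _)
    (LinearMap.exact_subtype_mkQ _)

/-- the length of `S / I` -/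
theorem len_quot (I : Ideal S) : len Q (S ⧸ I) = Module.length (Localization.AtPrime Q)
    (Localization.AtPrime Q ⧸ I.map (algebraMap S (Localization.AtPrime Q))) := by
  have e := (IsLocalizedModule.linearEquiv Q.primeCompl
    (LocalizedModule.mkLinearMap Q.primeCompl (S ⧸ I))
    (Submodule.toLocalizedQuotient' (Localization.AtPrime Q) Q.primeCompl
      (Algebra.linearMap S (Localization.AtPrime Q)) I)).extendScalarsOfIsLocalization
      Q.primeCompl (Localization.AtPrime Q)
  have h := Ideal.localized'_eq_map (Localization.AtPrime Q) Q.primeCompl I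
  rw [h] at e
  exact e.length_eq

theorem len_ordAt (R : Ideal S) (g : S) : len Q (S ⧸ (R ⊔ Ideal.span {g})) = ordAt R Q g :=
  len_quot Q _

/-- the length of `S / q` at a prime which does not contain `q` -/
theorem len_prime_zero {q : Ideal S} (h : ¬ q ≤ Q) : len Q (S ⧸ q) = 0 := by
  have : Subsingleton (Localization.AtPrime Q ⧸
      q.map (algebraMap S (Localization.AtPrime Q))) := by
    rw [Ideal.Quotient.subsingleton_iff, Ideal.eq_top_iff_one]
    obtain ⟨s, hs, hsQ⟩ := SetLike.not_le_iff_exists.1 h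
    have h1 : IsUnit (algebraMap S (Localization.AtPrime Q) s) :=
      IsLocalization.map_units (M := Q.primeCompl) _ ⟨s, hsQ⟩
    obtain ⟨u, hu⟩ := h1.exists_left_inv
    rw [← hu]
    exact Ideal.mul_mem_left _ _ (Ideal.mem_map_of_mem _ hs)
  rw [len_quot]
  exact Module.length_eq_zero

/-- the length of `S / Q` at `Q` -/
theorem len_prime_self : len Q (S ⧸ Q) = 1 := by
  rw [len_quot, Localization.AtPrime.map_eq_maximalIdeal]
  have : IsSimpleModule (Localization.AtPrime Q)
      (Localization.AtPrime Q ⧸ IsLocalRing.maximalIdeal (Localization.AtPrime Q)) :=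
    isSimpleModule_iff_isCoatom.2 (IsLocalRing.maximalIdeal.isMaximal _).out
  exact Module.length_eq_one _ _

/-! ### The snake -/

section snake

variable {b₁ : N →ₗ[S] N} {b₂ : M →ₗ[S] M} {b₃ : P →ₗ[S] P}

/-- the lengths of the kernels and the cokernels in a short exact sequence -/
theorem len_snake (f : N →ₗ[S] M) (g : M →ₗ[S] P) (hf : Function.Injective f)
    (hg : Function.Surjective g) (h : Function.Exact f g) (h1 : f ∘ₗ b₁ = b₂ ∘ₗ f)
    (h2 : g ∘ₗ b₂ = b₃ ∘ₗ g) :
    len Q (ker b₁) + len Q (ker b₃) + len Q (M ⧸ range b₂) =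
      len Q (ker b₂) + len Q (N ⧸ range b₁) + len Q (P ⧸ range b₃) := by
  have k1 : ∀ x ∈ ker b₁, f x ∈ ker b₂ := by
    intro x hx
    have := LinearMap.congr_fun h1 x
    rw [LinearMap.mem_ker] at hx ⊢
    rw [LinearMap.comp_apply, LinearMap.comp_apply, hx, map_zero] at this
    exact this.symm
  have k2 : ∀ x ∈ ker b₂, g x ∈ ker b₃ := by
    intro x hx
    have := LinearMap.congr_fun h2 x
    rw [LinearMap.mem_ker] at hx ⊢
    rw [LinearMap.comp_apply, LinearMap.comp_apply, hx, map_zero] at this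
    exact this.symm
  let d1 : ker b₁ →ₗ[S] ker b₂ := f.restrict k1
  let d2 : ker b₂ →ₗ[S] ker b₃ := g.restrict k2
  have c1 : range b₁ ≤ (range b₂).comap f := by
    rintro _ ⟨x, rfl⟩
    exact ⟨f x, (LinearMap.congr_fun h1 x).symm⟩
  have c2 : range b₂ ≤ (range b₃).comap g := by
    rintro _ ⟨x, rfl⟩
    exact ⟨g x, (LinearMap.congr_fun h2 x).symm⟩
  let d4 : (N ⧸ range b₁) →ₗ[S] (M ⧸ range b₂) := Submodule.mapQ _ _ f c1
  let d5 : (M ⧸ range b₂) →ₗ[S] (P ⧸ range b₃) := Submodule.mapQ _ _ g c2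
  have e1 : Function.Exact (ker b₃).subtype b₃ := fun x => by
    rw [← LinearMap.mem_ker]
    exact ⟨fun h => ⟨⟨x, h⟩, rfl⟩, fun ⟨y, hy⟩ => hy ▸ y.2⟩
  have e2 : Function.Exact (ker b₂).subtype b₂ := fun x => by
    rw [← LinearMap.mem_ker]
    exact ⟨fun h => ⟨⟨x, h⟩, rfl⟩, fun ⟨y, hy⟩ => hy ▸ y.2⟩
  have e3 : Function.Exact b₁ (range b₁).mkQ := LinearMap.exact_map_mkQ_range b₁
  have e4 : Function.Exact b₂ (range b₂).mkQ := LinearMap.exact_map_mkQ_range b₂
  let δ := SnakeLemma.δ' b₁ b₂ b₃ f g h f g h h1 h2 (ker b₃).subtype e1 (range b₁).mkQ e3 hg hf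
  have x1 : Function.Exact d2 δ :=
    SnakeLemma.exact_δ'_right b₁ b₂ b₃ f g h f g h h1 h2 (ker b₂).subtype e2
      (ker b₃).subtype e1 (range b₁).mkQ e3 hg hf d2 rfl (Submodule.injective_subtype _)
  have x2 : Function.Exact δ d4 :=
    SnakeLemma.exact_δ'_left b₁ b₂ b₃ f g h f g h h1 h2
      (ker b₃).subtype e1 (range b₁).mkQ e3 (range b₂).mkQ e4 hg hf d4 rfl
      (Submodule.mkQ_surjective _)
  have x0 : Function.Exact d1 d2 := by
    intro x
    constructor
    · intro hx
      have hx' : g (x : M) = 0 := congrArg Subtype.val hx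
      obtain ⟨y, hy⟩ := (h _).1 hx'
      have hy1 : b₁ y = 0 := hf (by
        have := LinearMap.congr_fun h1 y
        rw [LinearMap.comp_apply, LinearMap.comp_apply, hy, LinearMap.mem_ker.1 x.2] at this
        rw [this, map_zero])
      exact ⟨⟨y, hy1⟩, Subtype.ext hy⟩
    · rintro ⟨y, rfl⟩
      exact Subtype.ext (h.apply_apply_eq_zero (y : N))
  have x3 : Function.Exact d4 d5 := by
    intro x
    obtain ⟨x, rfl⟩ := Submodule.mkQ_surjective _ x
    constructor
    · intro hx
      have hx' : g x ∈ range b₃ := (Submodule.Quotient.mk_eq_zero _).1 hx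
      obtain ⟨z, hz⟩ := hx'
      obtain ⟨z, rfl⟩ := hg z
      have h3 : g (x - b₂ z) = 0 := by
        rw [map_sub, ← hz, sub_eq_zero]
        exact (LinearMap.congr_fun h2 z).symm
      obtain ⟨y, hy⟩ := (h _).1 h3
      refine ⟨(range b₁).mkQ y, ?_⟩
      change (range b₂).mkQ (f y) = (range b₂).mkQ x
      rw [hy, map_sub, sub_eq_self]
      exact (Submodule.Quotient.mk_eq_zero _).2 ⟨z, rfl⟩
    · rintro ⟨y, hy⟩
      obtain ⟨y, rfl⟩ := Submodule.mkQ_surjective _ y
      rw [← hy]
      change (range b₃).mkQ (g (f y)) = 0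
      rw [h.apply_apply_eq_zero, map_zero]
  have i1 : Function.Injective d1 := fun x y hxy => Subtype.ext (hf (congrArg Subtype.val hxy))
  have s5 : Function.Surjective d5 := by
    intro x
    obtain ⟨x, rfl⟩ := Submodule.mkQ_surjective _ x
    obtain ⟨x, rfl⟩ := hg x
    exact ⟨(range b₂).mkQ x, rfl⟩
  have l2 := len_ker_range Q d2
  have l3 := len_ker_range Q δ
  have l4 := len_ker_range Q d4
  have l5 := len_ker_range Q d5
  rw [x0.linearMap_ker_eq, ← len_equiv Q (LinearEquiv.ofInjective d1 i1)] at l2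
  rw [x1.linearMap_ker_eq] at l3
  rw [x2.linearMap_ker_eq] at l4
  rw [x3.linearMap_ker_eq, LinearMap.range_eq_top.2 s5, len_equiv Q Submodule.topEquiv] at l5
  rw [l2, l3, l4, l5]
  ring

end snake

end basic

section
variable {S : Type} [CommRing S] (Q : Ideal S) [Q.IsPrime]
variable {M N P : Type} [AddCommGroup M] [Module S M] [AddCommGroup N] [Module S N]
  [AddCommGroup P] [Module S P]
variable {b₁ : N →ₗ[S] N} {b₂ : M →ₗ[S] M} {b₃ : P →ₗ[S] P}

theorem len_ker_le (f : N →ₗ[S] M) (g : M →ₗ[S] P) (hf : Function.Injective f)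
    (h : Function.Exact f g) (h1 : f ∘ₗ b₁ = b₂ ∘ₗ f)
    (h2 : g ∘ₗ b₂ = b₃ ∘ₗ g) : len Q (ker b₂) ≤ len Q (ker b₁) + len Q (ker b₃) := by
  have k2 : ∀ x ∈ ker b₂, g x ∈ ker b₃ := by
    intro x hx
    have := LinearMap.congr_fun h2 x
    rw [LinearMap.mem_ker] at hx ⊢
    rw [LinearMap.comp_apply, LinearMap.comp_apply, hx, map_zero] at this
    exact this.symm
  rw [len_ker_range Q (g.restrict k2)]
  refine add_le_add ?_ ?_
  · -- the kernel embeds into the kernel of the first map
    have hex : ∀ x : ker (g.restrict k2), ∃ y : ker b₁, f (y : N) = ((x : ker b₂) : M) := by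
      intro x
      have hx' : g ((x : ker b₂) : M) = 0 := congrArg Subtype.val (LinearMap.mem_ker.1 x.2)
      obtain ⟨y, hy⟩ := (h _).1 hx'
      refine ⟨⟨y, hf ?_⟩, hy⟩
      have := LinearMap.congr_fun h1 y
      rw [LinearMap.comp_apply, LinearMap.comp_apply, hy, LinearMap.mem_ker.1 (x : ker b₂).2] at this
      rw [this, map_zero]
    choose t ht using hex
    let T : ker (g.restrict k2) →ₗ[S] ker b₁ :=
      { toFun := t
        map_add' := fun x y => Subtype.ext (hf (by
          rw [ht]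
          push_cast
          rw [map_add, ht, ht]))
        map_smul' := fun c x => Subtype.ext (hf (by
          rw [ht, RingHom.id_apply]
          push_cast
          rw [map_smul, ht])) }
    refine len_le_of_injective Q T fun x y hxy => ?_
    apply Subtype.ext
    apply Subtype.ext
    rw [← ht x, ← ht y]
    exact congrArg (fun z : ker b₁ => f (z : N)) hxy
  · exact len_le_of_injective Q (Submodule.subtype _) (Submodule.injective_subtype _)

theorem len_coker_le (f : N →ₗ[S] M) (g : M →ₗ[S] P)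
    (hg : Function.Surjective g) (h : Function.Exact f g) (h1 : f ∘ₗ b₁ = b₂ ∘ₗ f)
    (h2 : g ∘ₗ b₂ = b₃ ∘ₗ g) :
    len Q (M ⧸ range b₂) ≤ len Q (N ⧸ range b₁) + len Q (P ⧸ range b₃) := by
  have c1 : range b₁ ≤ (range b₂).comap f := by
    rintro _ ⟨x, rfl⟩
    exact ⟨f x, (LinearMap.congr_fun h1 x).symm⟩
  have c2 : range b₂ ≤ (range b₃).comap g := by
    rintro _ ⟨x, rfl⟩
    exact ⟨g x, (LinearMap.congr_fun h2 x).symm⟩
  let d4 : (N ⧸ range b₁) →ₗ[S] (M ⧸ range b₂) := Submodule.mapQ _ _ f c1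
  let d5 : (M ⧸ range b₂) →ₗ[S] (P ⧸ range b₃) := Submodule.mapQ _ _ g c2
  have hk : ker d5 ≤ range d4 := by
    intro x hx
    obtain ⟨x, rfl⟩ := Submodule.mkQ_surjective _ x
    have hx' : g x ∈ range b₃ := (Submodule.Quotient.mk_eq_zero _).1 hx
    obtain ⟨z, hz⟩ := hx'
    obtain ⟨z, rfl⟩ := hg z
    have h3 : g (x - b₂ z) = 0 := by
      rw [map_sub, ← hz, sub_eq_zero]
      exact (LinearMap.congr_fun h2 z).symm
    obtain ⟨y, hy⟩ := (h _).1 h3
    refine ⟨(range b₁).mkQ y, ?_⟩
    change (range b₂).mkQ (f y) = (range b₂).mkQ x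
    rw [hy, map_sub, sub_eq_self]
    exact (Submodule.Quotient.mk_eq_zero _).2 ⟨z, rfl⟩
  rw [len_ker_range Q d5]
  refine add_le_add ?_ ?_
  · exact (len_le_of_injective Q (Submodule.inclusion hk) (Submodule.inclusion_injective hk)).trans
      (len_le_of_surjective Q d4.rangeRestrict d4.surjective_rangeRestrict)
  · exact len_le_of_injective Q (Submodule.subtype _) (Submodule.injective_subtype _)

end

section devissage

variable {S : Type} [CommRing S] (Q : Ideal S) [Q.IsPrime]

/-- multiplication by `g` -/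
abbrev mulBy (g : S) (M : Type) [AddCommGroup M] [Module S M] : M →ₗ[S] M := LinearMap.lsmul S M g

lemma mulBy_equiv_ker (g : S) {M N : Type} [AddCommGroup M] [Module S M] [AddCommGroup N]
    [Module S N] (e : M ≃ₗ[S] N) : len Q (ker (mulBy g M)) = len Q (ker (mulBy g N)) := by
  refine len_equiv Q (LinearEquiv.ofSubmodules e _ _ ?_)
  ext x
  rw [Submodule.mem_map]
  constructor
  · rintro ⟨y, hy, rfl⟩
    rw [LinearMap.mem_ker] at hy ⊢
    change g • e y = 0
    rw [← map_smul]
    exact (congrArg e hy).trans (map_zero e)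
  · intro hx
    refine ⟨e.symm x, ?_, e.apply_symm_apply x⟩
    rw [LinearMap.mem_ker] at hx ⊢
    change g • e.symm x = 0
    rw [← map_smul]
    exact (congrArg e.symm hx).trans (map_zero e.symm)

lemma mulBy_equiv_coker (g : S) {M N : Type} [AddCommGroup M] [Module S M] [AddCommGroup N]
    [Module S N] (e : M ≃ₗ[S] N) :
    len Q (M ⧸ range (mulBy g M)) = len Q (N ⧸ range (mulBy g N)) := by
  refine len_equiv Q (Submodule.Quotient.equiv _ _ e ?_)
  ext x
  rw [Submodule.mem_map]
  constructor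
  · rintro ⟨_, ⟨y, rfl⟩, rfl⟩
    exact ⟨e y, (map_smul e g y).symm⟩
  · rintro ⟨y, rfl⟩
    refine ⟨g • e.symm y, ⟨e.symm y, rfl⟩, ?_⟩
    change e (g • e.symm y) = g • y
    rw [map_smul, e.apply_symm_apply]

/-- the cokernel of `g` on `S / I` -/
lemma mulBy_coker_quot (g : S) (I : Ideal S) :
    len Q ((S ⧸ I) ⧸ range (mulBy g (S ⧸ I))) = len Q (S ⧸ (I ⊔ Ideal.span {g})) := by
  have h : range (mulBy g (S ⧸ I)) = (Submodule.map (Submodule.mkQ I) (Ideal.span {g})) := by
    ext x
    rw [Submodule.mem_map]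
    constructor
    · rintro ⟨y, rfl⟩
      obtain ⟨y, rfl⟩ := Submodule.mkQ_surjective _ y
      exact ⟨g * y, Ideal.mem_span_singleton.2 (dvd_mul_right _ _), rfl⟩
    · rintro ⟨y, hy, rfl⟩
      obtain ⟨z, rfl⟩ := Ideal.mem_span_singleton.1 hy
      exact ⟨Submodule.mkQ I z, rfl⟩
  rw [h]
  exact len_equiv Q (Submodule.quotientQuotientEquivQuotientSup I (Ideal.span {g}))

theorem len_devissage [IsNoetherianRing S] {g : S} (hgQ : g ∈ Q) (PP : Finset (PrimeSpectrum S))
    (h1 : ∀ R ∈ PP, R.asIdeal < Q) (h2 : ∀ R ∈ PP, g ∉ R.asIdeal)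
    (h3 : ∀ R ∈ PP, ordAt R.asIdeal Q g ≠ ⊤)
    (h4 : ∀ R ∈ PP, ∀ R' ∈ PP, R.asIdeal ≤ R'.asIdeal → R = R')
    (M : Type) [AddCommGroup M] [Module S M] [hfin : Module.Finite S M]
    (hM : ∀ p : PrimeSpectrum S, p.asIdeal ≤ Q → p ∈ Module.support S M →
      p.asIdeal = Q ∨ p ∈ PP) :
    len Q (ker (mulBy g M)) ≠ ⊤ ∧ len Q (M ⧸ range (mulBy g M)) ≠ ⊤ ∧
      (∀ R ∈ PP, len R.asIdeal M ≠ ⊤) ∧
      len Q (M ⧸ range (mulBy g M)) = len Q (ker (mulBy g M)) +
        ∑ R ∈ PP, len R.asIdeal M * ordAt R.asIdeal Q g := by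
  classical
  revert hM
  induction hfin using IsNoetherianRing.induction_on_isQuotientEquivQuotientPrime S with
  | subsingleton N =>
    intro _
    rw [len_eq_zero, len_eq_zero]
    refine ⟨ENat.zero_ne_top, ENat.zero_ne_top, fun R _ => ?_, ?_⟩
    · rw [len_eq_zero]
      exact ENat.zero_ne_top
    · rw [Finset.sum_eq_zero, add_zero]
      intro R _
      rw [len_eq_zero, zero_mul]
  | quotient N p e =>
    intro hN
    rw [mulBy_equiv_ker Q g e, mulBy_equiv_coker Q g e, mulBy_coker_quot]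
    have hlen : ∀ R : PrimeSpectrum S, len R.asIdeal N = len R.asIdeal (S ⧸ p.asIdeal) :=
      fun R => len_equiv R.asIdeal e
    simp only [hlen]
    by_cases hpQ : p.asIdeal ≤ Q
    · have hsupp : p ∈ Module.support S N := by
        rw [e.support_eq, Module.mem_support_iff_of_finite, Ideal.annihilator_quotient]
      rcases hN p hpQ hsupp with h | h
      · -- the closed point
        have e0 : ∀ R ∈ PP, len R.asIdeal (S ⧸ p.asIdeal) = 0 := fun R hR =>
          len_prime_zero R.asIdeal (fun h5 => (h1 R hR).not_ge (h ▸ h5))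
        have e1 : len Q (S ⧸ (p.asIdeal ⊔ Ideal.span {g})) = 1 := by
          rw [h, sup_eq_left.2 ((Ideal.span_singleton_le_iff_mem _).2 hgQ)]
          exact len_prime_self Q
        have e2 : len Q (ker (mulBy g (S ⧸ p.asIdeal))) = 1 := by
          have h5 : ker (mulBy g (S ⧸ p.asIdeal)) = ⊤ := by
            rw [LinearMap.ker_eq_top]
            ext
            change g • (1 : S ⧸ p.asIdeal) = 0
            rw [Algebra.smul_def, mul_one]
            exact Ideal.Quotient.eq_zero_iff_mem.2 (h ▸ hgQ)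
          rw [h5, len_equiv Q Submodule.topEquiv]
          have h6 : ∀ q : Ideal S, q = Q → len Q (S ⧸ q) = 1 := by
            rintro q rfl
            exact len_prime_self q
          exact h6 _ h
        rw [e1, e2]
        refine ⟨ENat.one_ne_top, ENat.one_ne_top, fun R hR => ?_, ?_⟩
        · rw [e0 R hR]
          exact ENat.zero_ne_top
        · rw [Finset.sum_eq_zero, add_zero]
          intro R hR
          rw [e0 R hR, zero_mul]
      · -- a prime of the list
        have e0 : ∀ R ∈ PP, len R.asIdeal (S ⧸ p.asIdeal) = if R = p then 1 else 0 := by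
          intro R hR
          by_cases h5 : R = p
          · rw [if_pos h5, h5]
            exact len_prime_self p.asIdeal
          · rw [if_neg h5]
            exact len_prime_zero R.asIdeal (fun h6 => h5 (h4 p h R hR h6).symm)
        have e2 : len Q (ker (mulBy g (S ⧸ p.asIdeal))) = 0 := by
          have h5 : ker (mulBy g (S ⧸ p.asIdeal)) = ⊥ := by
            rw [LinearMap.ker_eq_bot']
            intro x hx
            obtain ⟨x, rfl⟩ := Ideal.Quotient.mk_surjective x
            have hx' : Ideal.Quotient.mk p.asIdeal (g * x) = 0 := hx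
            rw [Ideal.Quotient.eq_zero_iff_mem] at hx' ⊢
            exact (p.2.mem_or_mem hx').resolve_left (h2 p h)
          rw [h5]
          exact len_eq_zero Q
        rw [e2, len_ordAt]
        refine ⟨ENat.zero_ne_top, h3 p h, fun R hR => ?_, ?_⟩
        · rw [e0 R hR]
          split_ifs
          · exact ENat.one_ne_top
          · exact ENat.zero_ne_top
        · rw [zero_add, Finset.sum_eq_single_of_mem p h]
          · rw [e0 p h, if_pos rfl, one_mul]
          · intro R hR h5
            rw [e0 R hR, if_neg h5, zero_mul]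
    · have e0 : ∀ R ∈ PP, len R.asIdeal (S ⧸ p.asIdeal) = 0 := fun R hR =>
          len_prime_zero R.asIdeal (fun h5 => hpQ (h5.trans (h1 R hR).le))
      have e1 : len Q (S ⧸ (p.asIdeal ⊔ Ideal.span {g})) = 0 := by
        have h6 := len_le_of_surjective Q
          (Submodule.mapQ p.asIdeal (p.asIdeal ⊔ Ideal.span {g}) LinearMap.id le_sup_left)
          (by
            intro x
            obtain ⟨x, rfl⟩ := Submodule.mkQ_surjective _ x
            exact ⟨Submodule.mkQ _ x, rfl⟩)
        rw [len_prime_zero Q hpQ] at h6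
        exact le_antisymm h6 bot_le
      have e2 : len Q (ker (mulBy g (S ⧸ p.asIdeal))) = 0 := by
        have h6 := len_le_of_injective Q (ker (mulBy g (S ⧸ p.asIdeal))).subtype
          (Submodule.injective_subtype _)
        rw [len_prime_zero Q hpQ] at h6
        exact le_antisymm h6 bot_le
      rw [e1, e2]
      refine ⟨ENat.zero_ne_top, ENat.zero_ne_top, fun R hR => ?_, ?_⟩
      · rw [e0 R hR]
        exact ENat.zero_ne_top
      · rw [Finset.sum_eq_zero, add_zero]
        intro R hR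
        rw [e0 R hR, zero_mul]
  | exact N₁ N₂ N₃ f h hf hh hfh ih1 ih3 =>
    intro hN
    have hs1 := Module.support_subset_of_injective f hf
    have hs3 := Module.support_subset_of_surjective h hh
    obtain ⟨a1, b1, c1, d1⟩ := ih1 fun p hp hpN => hN p hp (hs1 hpN)
    obtain ⟨a3, b3, c3, d3⟩ := ih3 fun p hp hpN => hN p hp (hs3 hpN)
    have q1 : f ∘ₗ mulBy g N₁ = mulBy g N₂ ∘ₗ f := by ext x; simp [mulBy]
    have q2 : h ∘ₗ mulBy g N₂ = mulBy g N₃ ∘ₗ h := by ext x; simp [mulBy]
    have hsn := len_snake Q f h hf hh hfh q1 q2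
    have hR : ∀ R ∈ PP, len R.asIdeal N₂ = len R.asIdeal N₁ + len R.asIdeal N₃ := fun R _ =>
      len_add R.asIdeal f h hf hh hfh
    have hsum : ∑ R ∈ PP, len R.asIdeal N₂ * ordAt R.asIdeal Q g =
        ∑ R ∈ PP, len R.asIdeal N₁ * ordAt R.asIdeal Q g +
          ∑ R ∈ PP, len R.asIdeal N₃ * ordAt R.asIdeal Q g := by
      rw [← Finset.sum_add_distrib]
      refine Finset.sum_congr rfl fun R hR' => ?_
      rw [hR R hR', add_mul]
    have a2 : len Q (ker (mulBy g N₂)) ≠ ⊤ :=
      ne_top_of_le_ne_top (WithTop.add_ne_top.2 ⟨a1, a3⟩) (len_ker_le Q f h hf hfh q1 q2)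
    have b2 : len Q (N₂ ⧸ range (mulBy g N₂)) ≠ ⊤ :=
      ne_top_of_le_ne_top (WithTop.add_ne_top.2 ⟨b1, b3⟩) (len_coker_le Q f h hh hfh q1 q2)
    refine ⟨a2, b2, fun R hR' => ?_, ?_⟩
    · rw [hR R hR']
      exact WithTop.add_ne_top.2 ⟨c1 R hR', c3 R hR'⟩
    · rw [hsum]
      generalize ∑ R ∈ PP, len R.asIdeal N₁ * ordAt R.asIdeal Q g = s1 at d1 ⊢
      generalize ∑ R ∈ PP, len R.asIdeal N₃ * ordAt R.asIdeal Q g = s3 at d3 ⊢
      generalize len Q (ker (mulBy g N₁)) = x1 at *
      generalize len Q (ker (mulBy g N₂)) = x2 at *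
      generalize len Q (ker (mulBy g N₃)) = x3 at *
      generalize len Q (N₁ ⧸ range (mulBy g N₁)) = y1 at *
      generalize len Q (N₂ ⧸ range (mulBy g N₂)) = y2 at *
      generalize len Q (N₃ ⧸ range (mulBy g N₃)) = y3 at *
      have hs1 : s1 ≠ ⊤ := by
        rintro rfl
        rw [add_top] at d1
        exact b1 d1
      have hs3 : s3 ≠ ⊤ := by
        rintro rfl
        rw [add_top] at d3
        exact b3 d3
      lift x1 to ℕ using a1
      lift x2 to ℕ using a2
      lift x3 to ℕ using a3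
      lift y1 to ℕ using b1
      lift y2 to ℕ using b2
      lift y3 to ℕ using b3
      lift s1 to ℕ using hs1
      lift s3 to ℕ using hs3
      norm_cast at *
      omega

section comm

variable {P : Ideal S} [P.IsPrime]

/-- the kernel of `g` on `S / (P + (f))`, symmetric in `f` and `g` -/
lemma len_ker_eq {f g : S} (hg : g ∉ P) :
    len Q (ker (mulBy g (S ⧸ (P ⊔ Ideal.span {f})))) =
      len Q (Submodule.map (Submodule.mkQ (P ⊔ Ideal.span {f * g}))
        ((P ⊔ Ideal.span {f}) ⊓ (P ⊔ Ideal.span {g}))) := by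
  have h1 : (P ⊔ Ideal.span {f} : Ideal S) ≤
      Submodule.comap (LinearMap.lsmul S S g) (P ⊔ Ideal.span {f * g} : Ideal S) := by
    rw [sup_le_iff]
    constructor
    · intro x hx
      exact Ideal.mem_sup_left (Ideal.mul_mem_left _ _ hx)
    · rw [Ideal.span_le, Set.singleton_subset_iff, SetLike.mem_coe, Submodule.mem_comap]
      change g * f ∈ _
      rw [mul_comm]
      exact Ideal.mem_sup_right (Ideal.mem_span_singleton_self _)
  let φ : (S ⧸ (P ⊔ Ideal.span {f})) →ₗ[S] (S ⧸ (P ⊔ Ideal.span {f * g})) :=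
    Submodule.mapQ _ _ (LinearMap.lsmul S S g) h1
  have hφ : Function.Injective φ := by
    rw [← LinearMap.ker_eq_bot, LinearMap.ker_eq_bot']
    intro x hx
    obtain ⟨x, rfl⟩ := Submodule.mkQ_surjective _ x
    have hx' : g * x ∈ P ⊔ Ideal.span {f * g} := (Submodule.Quotient.mk_eq_zero _).1 hx
    obtain ⟨y, hy, z, hz, hyz⟩ := Submodule.mem_sup.1 hx'
    obtain ⟨c, rfl⟩ := Ideal.mem_span_singleton.1 hz
    have h2 : g * (x - f * c) ∈ P := by
      have h3 : g * (x - f * c) = y := by linear_combination -hyz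
      rw [h3]
      exact hy
    have h4 := (Ideal.IsPrime.mem_or_mem inferInstance h2).resolve_left hg
    refine (Submodule.Quotient.mk_eq_zero _).2 ?_
    have h5 : x = (x - f * c) + f * c := by ring
    rw [h5]
    exact add_mem (Ideal.mem_sup_left h4)
      (Ideal.mem_sup_right (Ideal.mem_span_singleton.2 (dvd_mul_right _ _)))
  rw [len_equiv Q (Submodule.equivMapOfInjective φ hφ (ker (mulBy g _)))]
  have h6 : Submodule.map φ (ker (mulBy g (S ⧸ (P ⊔ Ideal.span {f})))) =
      Submodule.map (Submodule.mkQ (P ⊔ Ideal.span {f * g}))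
        ((P ⊔ Ideal.span {f}) ⊓ (P ⊔ Ideal.span {g})) := by
    ext x
    rw [Submodule.mem_map, Submodule.mem_map]
    constructor
    · rintro ⟨y, hy, rfl⟩
      obtain ⟨y, rfl⟩ := Submodule.mkQ_surjective _ y
      have hy' : g * y ∈ P ⊔ Ideal.span {f} := (Submodule.Quotient.mk_eq_zero _).1 hy
      exact ⟨g * y, ⟨hy', Ideal.mem_sup_right (Ideal.mem_span_singleton.2 (dvd_mul_right _ _))⟩,
        rfl⟩
    · rintro ⟨y, ⟨hy1, hy2⟩, rfl⟩
      obtain ⟨a, ha, z, hz, haz⟩ := Submodule.mem_sup.1 hy2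
      obtain ⟨c, rfl⟩ := Ideal.mem_span_singleton.1 hz
      refine ⟨Submodule.mkQ _ c, ?_, ?_⟩
      · refine (Submodule.Quotient.mk_eq_zero _).2 ?_
        have h7 : g * c = y - a := by linear_combination haz
        change g * c ∈ _
        rw [h7]
        exact sub_mem hy1 (Ideal.mem_sup_left ha)
      · change Submodule.mkQ _ (g * c) = Submodule.mkQ _ y
        rw [← sub_eq_zero, ← map_sub]
        refine (Submodule.Quotient.mk_eq_zero _).2 ?_
        have h7 : g * c - y = -a := by linear_combination haz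
        rw [h7]
        exact Ideal.mem_sup_left (neg_mem ha)
  rw [h6]

/-- **The order of `f` along the divisor of `g` is the order of `g` along the divisor of `f`.** -/
theorem ord_comm [IsNoetherianRing S] {f g : S} (hf : f ∉ P) (hg : g ∉ P) (hfQ : f ∈ Q)
    (hgQ : g ∈ Q) (PF PG : Finset (PrimeSpectrum S))
    (hF : ∀ R ∈ PF, CodimOne R.asIdeal Q ∧ g ∉ R.asIdeal)
    (hG : ∀ R ∈ PG, CodimOne R.asIdeal Q ∧ f ∉ R.asIdeal)
    (hF' : ∀ R : PrimeSpectrum S, P ≤ R.asIdeal → R.asIdeal ≤ Q → f ∈ R.asIdeal →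
      R.asIdeal = Q ∨ R ∈ PF)
    (hG' : ∀ R : PrimeSpectrum S, P ≤ R.asIdeal → R.asIdeal ≤ Q → g ∈ R.asIdeal →
      R.asIdeal = Q ∨ R ∈ PG) :
    ∑ R ∈ PF, ordAt P R.asIdeal f * ordAt R.asIdeal Q g =
      ∑ R ∈ PG, ordAt P R.asIdeal g * ordAt R.asIdeal Q f := by
  have key : ∀ {f g : S}, f ∉ P → g ∉ P → g ∈ Q → ∀ PF : Finset (PrimeSpectrum S),
      (∀ R ∈ PF, CodimOne R.asIdeal Q ∧ g ∉ R.asIdeal) →
      (∀ R : PrimeSpectrum S, P ≤ R.asIdeal → R.asIdeal ≤ Q → f ∈ R.asIdeal →
        R.asIdeal = Q ∨ R ∈ PF) →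
      len Q (ker (mulBy g (S ⧸ (P ⊔ Ideal.span {f})))) ≠ ⊤ ∧
      len Q (S ⧸ ((P ⊔ Ideal.span {f}) ⊔ Ideal.span {g})) =
        len Q (ker (mulBy g (S ⧸ (P ⊔ Ideal.span {f})))) +
          ∑ R ∈ PF, ordAt P R.asIdeal f * ordAt R.asIdeal Q g := by
    intro f g hf hg hgQ PF hF hF'
    have h := len_devissage Q hgQ PF (fun R hR => (hF R hR).1.1) (fun R hR => (hF R hR).2)
      (fun R hR => ordAt_ne_top (hF R hR).1 (hF R hR).2)
      (fun R hR R' hR' hle => by
        by_contra hne
        have hlt : R.asIdeal < R'.asIdeal :=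
          lt_of_le_of_ne hle fun h5 => hne (PrimeSpectrum.ext h5)
        exact hlt.ne' ((hF R hR).1.2 R'.asIdeal R'.2 hle (hF R' hR').1.1))
      (S ⧸ (P ⊔ Ideal.span {f})) (fun R hRQ hR => by
        rw [Module.mem_support_iff_of_finite, Ideal.annihilator_quotient] at hR
        exact hF' R (le_sup_left.trans hR) hRQ
          (hR (Ideal.mem_sup_right (Ideal.mem_span_singleton_self f))))
    refine ⟨h.1, ?_⟩
    have h4 := h.2.2.2
    rw [mulBy_coker_quot] at h4
    rw [h4]
    congr 1
    exact Finset.sum_congr rfl fun R hR => by rw [len_ordAt]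
  obtain ⟨a1, a2⟩ := key hf hg hgQ PF hF hF'
  obtain ⟨b1, b2⟩ := key hg hf hfQ PG hG hG'
  have e1 : (P ⊔ Ideal.span {f}) ⊔ Ideal.span {g} = (P ⊔ Ideal.span {g}) ⊔ Ideal.span {f} := by
    rw [sup_assoc, sup_assoc, sup_comm (Ideal.span {f})]
  have e2 : len Q (ker (mulBy g (S ⧸ (P ⊔ Ideal.span {f})))) =
      len Q (ker (mulBy f (S ⧸ (P ⊔ Ideal.span {g})))) := by
    rw [len_ker_eq Q hg, len_ker_eq Q hf, mul_comm g f, inf_comm]
  rw [e1, e2, b2] at a2
  exact (ENat.add_right_injective_of_ne_top b1 a2).symm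

end comm

end devissage

end Pool.Agent.RCH
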