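import Pool.Agent.RCH.MLen
import Pool.Agent.RCH.LatB

/-!
# The length of the cokernel of an endomorphism at a point of codimension one
-/

set_option autoImplicit false

namespace Pool.Agent.RCH

open Ideal

section ring

variable {S : Type} [CommRing S]

/-- the local ring of `S / P` at `Q`, as a quotient of the local ring of `S` at `Q` -/
abbrev LQ (P Q : Ideal S) [Q.IsPrime] : Type :=
  Localization.AtPrime Q ⧸ P.map (algebraMap S (Localization.AtPrime Q))

theorem isDomain_LQ {P Q : Ideal S} [P.IsPrime] [Q.IsPrime] (hPQ : P ≤ Q) : IsDomain (LQ P Q) := by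
  have := isPrime_map (P := P) (Q := Q) hPQ
  exact Ideal.Quotient.isDomain _

theorem isNoetherianRing_LQ [IsNoetherianRing S] (P Q : Ideal S) [Q.IsPrime] :
    IsNoetherianRing (LQ P Q) := by
  have : IsNoetherianRing (Localization.AtPrime Q) :=
    IsLocalization.isNoetherianRing Q.primeCompl _ ‹_›
  infer_instance

theorem krullDimLE_LQ {P Q : Ideal S} [P.IsPrime] [Q.IsPrime] (hc : CodimOne P Q) :
    Ring.KrullDimLE 1 (LQ P Q) := by
  have := isDomain_LQ (P := P) (Q := Q) hc.1.le
  rw [Ring.krullDimLE_one_iff_of_noZeroDivisors]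
  intro q hq0 hq
  set I := P.map (algebraMap S (Localization.AtPrime Q)) with hI
  have hq1 : (q.comap (Ideal.Quotient.mk I)).IsPrime := Ideal.comap_isPrime _ _
  have hq2 : ((q.comap (Ideal.Quotient.mk I)).comap
      (algebraMap S (Localization.AtPrime Q))).IsPrime := Ideal.comap_isPrime _ _
  have hIq : I ≤ q.comap (Ideal.Quotient.mk I) := by
    intro x hx
    rw [Ideal.mem_comap, Ideal.Quotient.eq_zero_iff_mem.2 hx]
    exact q.zero_mem
  have hle : P ≤ (q.comap (Ideal.Quotient.mk I)).comap (algebraMap S (Localization.AtPrime Q)) := by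
    rw [← Ideal.map_le_iff_le_comap]
    exact hIq
  have hleQ : (q.comap (Ideal.Quotient.mk I)).comap
      (algebraMap S (Localization.AtPrime Q)) ≤ Q := by
    intro x hx
    by_contra hxQ
    have hu := isUnit_of_notMem (Q := Q) hxQ
    exact hq1.ne_top (Ideal.eq_top_of_isUnit_mem _ hx hu)
  have heq : (q.comap (Ideal.Quotient.mk I)).comap
      (algebraMap S (Localization.AtPrime Q)) = Q := by
    by_contra hne
    have h1 := hc.2 _ hq2 hle (lt_of_le_of_ne hleQ hne)
    apply hq0
    have h2 : q.comap (Ideal.Quotient.mk I) ≤ I := by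
      intro x hx
      obtain ⟨a, s, rfl⟩ := IsLocalization.exists_mk'_eq Q.primeCompl x
      have h3 : algebraMap S (Localization.AtPrime Q) a ∈ q.comap (Ideal.Quotient.mk I) := by
        have := (q.comap (Ideal.Quotient.mk I)).mul_mem_left
          (algebraMap S (Localization.AtPrime Q) s) hx
        rwa [IsLocalization.mk'_spec'] at this
      have h4 : a ∈ P := by
        rw [← h1]
        exact h3
      rw [IsLocalization.mk'_eq_mul_mk'_one]
      exact I.mul_mem_right _ (Ideal.mem_map_of_mem _ h4)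
    rw [eq_bot_iff]
    intro x hx
    obtain ⟨x, rfl⟩ := Ideal.Quotient.mk_surjective x
    rw [Ideal.mem_bot, Ideal.Quotient.eq_zero_iff_mem]
    exact h2 hx
  have hmax : (q.comap (Ideal.Quotient.mk I)) =
      IsLocalRing.maximalIdeal (Localization.AtPrime Q) := by
    apply le_antisymm (IsLocalRing.le_maximalIdeal hq1.ne_top)
    rw [← Localization.AtPrime.map_eq_maximalIdeal, Ideal.map_le_iff_le_comap, heq]
  have : (q.comap (Ideal.Quotient.mk I)).IsMaximal := by
    rw [hmax]; exact IsLocalRing.maximalIdeal.isMaximal _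
  have hmap : q = (q.comap (Ideal.Quotient.mk I)).map (Ideal.Quotient.mk I) :=
    (Ideal.map_comap_of_surjective _ Ideal.Quotient.mk_surjective q).symm
  rw [hmap]
  refine (Ideal.map_eq_top_or_isMaximal_of_surjective _
    Ideal.Quotient.mk_surjective this).resolve_left ?_
  rw [← hmap]
  exact hq.ne_top

theorem ord_quot {L : Type} [CommRing L] (I : Ideal L) (x : L) :
    Ring.ord (L ⧸ I) (Ideal.Quotient.mk I x) = Module.length L (L ⧸ (I ⊔ Ideal.span {x})) := by
  unfold Ring.ord
  rw [← Module.length_eq_of_surjective (S := L) (R := L ⧸ I)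
    (M := (L ⧸ I) ⧸ Ideal.span {Ideal.Quotient.mk I x}) Ideal.Quotient.mk_surjective]
  have h1 : Ideal.span {Ideal.Quotient.mk I x} = (Ideal.span {x}).map (Ideal.Quotient.mk I) := by
    rw [Ideal.map_span, Set.image_singleton]
  rw [h1]
  exact (DoubleQuot.quotQuotEquivQuotSupₐ L I (Ideal.span {x})).toLinearEquiv.length_eq

/-- the order of vanishing is the order in this ring -/
theorem ord_LQ (P Q : Ideal S) [Q.IsPrime] (g : S) :
    Ring.ord (LQ P Q) (Ideal.Quotient.mk _ (algebraMap S (Localization.AtPrime Q) g)) =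
      ordAt P Q g := by
  unfold ordAt
  rw [map_sup_span]
  exact ord_quot _ _

end ring

section frac

variable {S : Type} [CommRing S] {P Q : Ideal S} [P.IsPrime] [Q.IsPrime] (hPQ : P ≤ Q)
  {K : Type} [Field K] (fR : S →+* K) (hker : ∀ a, fR a = 0 ↔ a ∈ P)

include hPQ hker in
theorem isUnit_fR (s : Q.primeCompl) : IsUnit (fR s) := by
  rw [isUnit_iff_ne_zero]
  intro h
  exact s.2 (hPQ ((hker _).1 h))

/-- the homomorphism from the local ring of `S` at `Q` to `K` -/
noncomputable def locToK : Localization.AtPrime Q →+* K :=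
  IsLocalization.lift (M := Q.primeCompl) (isUnit_fR hPQ fR hker)

theorem locToK_algebraMap (a : S) :
    locToK hPQ fR hker (algebraMap S (Localization.AtPrime Q) a) = fR a :=
  IsLocalization.lift_eq _ _

theorem locToK_eq_zero (x : Localization.AtPrime Q) :
    locToK hPQ fR hker x = 0 ↔ x ∈ P.map (algebraMap S (Localization.AtPrime Q)) := by
  obtain ⟨a, s, rfl⟩ := IsLocalization.exists_mk'_eq Q.primeCompl x
  have h1 : locToK hPQ fR hker (IsLocalization.mk' _ a s) * fR s = fR a := by
    rw [← locToK_algebraMap hPQ fR hker (s : S), ← map_mul, IsLocalization.mk'_spec,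
      locToK_algebraMap]
  have hs : fR (s : S) ≠ 0 := (isUnit_fR hPQ fR hker s).ne_zero
  constructor
  · intro h
    rw [h, zero_mul] at h1
    rw [IsLocalization.mk'_eq_mul_mk'_one]
    exact Ideal.mul_mem_right _ _ (Ideal.mem_map_of_mem _ ((hker a).1 h1.symm))
  · intro h
    have h2 : algebraMap S (Localization.AtPrime Q) a ∈
        P.map (algebraMap S (Localization.AtPrime Q)) := by
      rw [← IsLocalization.mk'_spec (Localization.AtPrime Q) a s]
      exact Ideal.mul_mem_right _ _ h
    have h3 : a ∈ P := (mem_map_iff hPQ a).1 h2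
    rw [(hker a).2 h3] at h1
    exact (mul_eq_zero.1 h1).resolve_right hs

/-- the homomorphism from the local ring of `S / P` at `Q` to `K` -/
noncomputable def LQToK : LQ P Q →+* K :=
  Ideal.Quotient.lift _ (locToK hPQ fR hker) fun x hx => (locToK_eq_zero hPQ fR hker x).2 hx

theorem LQToK_mk (x : Localization.AtPrime Q) :
    LQToK hPQ fR hker (Ideal.Quotient.mk _ x) = locToK hPQ fR hker x := rfl

theorem LQToK_injective : Function.Injective (LQToK hPQ fR hker) := by
  rw [injective_iff_map_eq_zero]
  intro x hx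
  obtain ⟨x, rfl⟩ := Ideal.Quotient.mk_surjective x
  rw [LQToK_mk, locToK_eq_zero] at hx
  exact Ideal.Quotient.eq_zero_iff_mem.2 hx

theorem isFractionRing_LQ (hK : ∀ x : K, ∃ a s : S, fR s ≠ 0 ∧ x * fR s = fR a) :
    letI := (LQToK hPQ fR hker).toAlgebra
    IsFractionRing (LQ P Q) K := by
  letI := (LQToK hPQ fR hker).toAlgebra
  have := isDomain_LQ (P := P) (Q := Q) hPQ
  have hinj : Function.Injective (algebraMap (LQ P Q) K) := LQToK_injective hPQ fR hker
  refine ⟨?_, ?_, ?_⟩
  · rintro ⟨y, hy⟩
    rw [isUnit_iff_ne_zero]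
    intro h
    exact nonZeroDivisors.ne_zero hy (hinj (by rw [h, map_zero]))
  · intro z
    obtain ⟨a, s, hs, h⟩ := hK z
    have hs' : (Ideal.Quotient.mk (P.map (algebraMap S (Localization.AtPrime Q)))
        (algebraMap S (Localization.AtPrime Q) s)) ∈ nonZeroDivisors (LQ P Q) := by
      rw [mem_nonZeroDivisors_iff_ne_zero]
      intro h0
      apply hs
      have := congrArg (LQToK hPQ fR hker) h0
      rwa [LQToK_mk, locToK_algebraMap, map_zero] at this
    refine ⟨(Ideal.Quotient.mk _ (algebraMap S (Localization.AtPrime Q) a), ⟨_, hs'⟩), ?_⟩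
    change z * LQToK hPQ fR hker _ = LQToK hPQ fR hker _
    rw [LQToK_mk, LQToK_mk, locToK_algebraMap, locToK_algebraMap, h]
  · intro x y h
    exact ⟨1, by rw [hinj h]⟩

end frac

end Pool.Agent.RCH
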