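import Pool.Agent.RCH.MRelA

/-!
# The length of the cokernel of an endomorphism at a point of codimension one is the order of
# vanishing of its determinant
-/

set_option autoImplicit false
set_option linter.style.haveILetI false

namespace Pool.Agent.RCH

open Ideal

section coker

variable {S : Type} [CommRing S] (Q : Ideal S) [Q.IsPrime] {M : Type} [AddCommGroup M] [Module S M]

theorem len_coker (b : M →ₗ[S] M) : len Q (M ⧸ LinearMap.range b) =
    Module.length (Localization.AtPrime Q) (LocalizedModule Q.primeCompl M ⧸
      LinearMap.range (LocalizedModule.map Q.primeCompl b)) := by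
  have h1 : (LinearMap.range b).localized Q.primeCompl =
      LinearMap.range (LocalizedModule.map Q.primeCompl b) := by
    simp [LinearMap.localized'_range_eq_range_localizedMap (Localization Q.primeCompl) Q.primeCompl
      (LocalizedModule.mkLinearMap Q.primeCompl M) (LocalizedModule.mkLinearMap Q.primeCompl M),
      LocalizedModule.map, IsLocalizedModule.mapExtendScalars]
  rw [← h1]
  exact (localizedQuotientEquiv Q.primeCompl (LinearMap.range b)).symm.length_eq

end coker

section main

variable {S : Type} [CommRing S] [IsNoetherianRing S] {P Q : Ideal S} [P.IsPrime] [Q.IsPrime]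

theorem len_norm (hc : CodimOne P Q) {K : Type} [Field K] (fR : S →+* K)
    (hker : ∀ a, fR a = 0 ↔ a ∈ P) (hK : ∀ x : K, ∃ a s : S, fR s ≠ 0 ∧ x * fR s = fR a)
    {M : Type} [AddCommGroup M] [Module S M] (hMP : ∀ a ∈ P, ∀ m : M, a • m = 0)
    (hfin : Module.Finite (Localization.AtPrime Q) (LocalizedModule Q.primeCompl M))
    {V : Type} [AddCommGroup V] [Module K V] (j : M →+ V) (hj : ∀ (a : S) (m : M), j (a • m) = fR a • j m)
    (hinj : Function.Injective j) (hspan : Submodule.span K (Set.range j) = ⊤)
    (b : M →ₗ[S] M) (ψ : V →ₗ[K] V) (hψ : ∀ m, ψ (j m) = j (b m)) (hdet : LinearMap.det ψ ≠ 0)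
    (g h : S) (hh : h ∉ P) (hgh : fR g = fR h * LinearMap.det ψ) :
    len Q (M ⧸ LinearMap.range b) + ordAt P Q h = ordAt P Q g := by
  set I := P.map (algebraMap S (Localization.AtPrime Q)) with hI
  have hPQ : P ≤ Q := hc.1.le
  have : IsDomain (LQ P Q) := isDomain_LQ hPQ
  have : IsNoetherianRing (LQ P Q) := isNoetherianRing_LQ P Q
  have : Ring.KrullDimLE 1 (LQ P Q) := krullDimLE_LQ hc
  letI : Algebra S K := fR.toAlgebra
  letI : Algebra (Localization.AtPrime Q) K := (locToK hPQ fR hker).toAlgebra
  letI : Algebra (LQ P Q) K := (LQToK hPQ fR hker).toAlgebra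
  have hfrac : IsFractionRing (LQ P Q) K := isFractionRing_LQ hPQ fR hker hK
  letI : Module S V := Module.compHom V fR
  letI : Module (Localization.AtPrime Q) V := Module.compHom V (locToK hPQ fR hker)
  letI : Module (LQ P Q) V := Module.compHom V (LQToK hPQ fR hker)
  have t1 : IsScalarTower S (Localization.AtPrime Q) V := by
    refine ⟨fun a x v => ?_⟩
    change locToK hPQ fR hker (a • x) • v = fR a • locToK hPQ fR hker x • v
    rw [Algebra.smul_def, map_mul, locToK_algebraMap, mul_smul]
  have t2 : IsScalarTower (Localization.AtPrime Q) (LQ P Q) V := by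
    refine ⟨fun a x v => ?_⟩
    obtain ⟨x, rfl⟩ := Ideal.Quotient.mk_surjective x
    change locToK hPQ fR hker (a * x) • v = locToK hPQ fR hker a • locToK hPQ fR hker x • v
    rw [map_mul, mul_smul]
  have t3 : IsScalarTower (LQ P Q) K V := by
    refine ⟨fun a x v => ?_⟩
    change (LQToK hPQ fR hker a * x) • v = LQToK hPQ fR hker a • x • v
    rw [mul_smul]
  -- the module over the local ring of `P` at `Q`
  have hMI : Module.IsTorsionBySet (Localization.AtPrime Q) (LocalizedModule Q.primeCompl M) I := by
    rintro x ⟨a, ha⟩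
    change a • x = 0
    have ha' : a ∈ I := ha
    rw [hI] at ha'
    refine Submodule.span_induction (p := fun a _ => a • x = 0) ?_ ?_ ?_ ?_ ha'
    · rintro _ ⟨p, hp, rfl⟩
      rw [algebraMap_smul]
      induction x using LocalizedModule.induction_on with
      | h m s =>
        rw [LocalizedModule.smul'_mk, hMP p hp, LocalizedModule.zero_mk]
    · exact zero_smul _ _
    · intro y z _ _ hy hz
      rw [add_smul, hy, hz, add_zero]
    · intro r y _ hy
      rw [smul_eq_mul, mul_smul, hy, smul_zero]
  letI : Module (LQ P Q) (LocalizedModule Q.primeCompl M) := hMI.module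
  have t4 : IsScalarTower (Localization.AtPrime Q) (LQ P Q) (LocalizedModule Q.primeCompl M) :=
    hMI.isScalarTower
  have hfinA : Module.Finite (LQ P Q) (LocalizedModule Q.primeCompl M) :=
    Module.Finite.of_restrictScalars_finite (Localization.AtPrime Q) _ _
  -- the homomorphism to `V`
  let j' : M →ₗ[S] V := { toFun := j, map_add' := j.map_add, map_smul' := hj }
  have hunit : ∀ x : Q.primeCompl, IsUnit (algebraMap S (Module.End S V) x) := by
    intro x
    have hx : fR (x : S) ≠ 0 := (isUnit_fR hPQ fR hker x).ne_zero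
    rw [Module.End.isUnit_iff]
    constructor
    · intro v w hvw
      have hvw' : fR (x : S) • v = fR (x : S) • w := hvw
      exact smul_right_injective V hx hvw'
    · intro v
      refine ⟨(fR (x : S))⁻¹ • v, ?_⟩
      change fR (x : S) • (fR (x : S))⁻¹ • v = v
      rw [smul_smul, mul_inv_cancel₀ hx, one_smul]
  let f0 : LocalizedModule Q.primeCompl M →ₗ[S] V := LocalizedModule.lift Q.primeCompl j' hunit
  have hf0 : ∀ m, f0 (LocalizedModule.mk m 1) = j m := by
    intro m
    have := LinearMap.congr_fun (LocalizedModule.lift_comp Q.primeCompl j' hunit) m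
    exact this
  let f1 : LocalizedModule Q.primeCompl M →ₗ[Localization.AtPrime Q] V :=
    f0.extendScalarsOfIsLocalization Q.primeCompl _
  let f2 : LocalizedModule Q.primeCompl M →ₗ[LQ P Q] V :=
    f1.extendScalarsOfSurjective Ideal.Quotient.mk_surjective
  let φ1 : LocalizedModule Q.primeCompl M →ₗ[Localization.AtPrime Q]
    LocalizedModule Q.primeCompl M := LocalizedModule.map Q.primeCompl b
  let φ2 : LocalizedModule Q.primeCompl M →ₗ[LQ P Q] LocalizedModule Q.primeCompl M :=
    φ1.extendScalarsOfSurjective Ideal.Quotient.mk_surjective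
  have hφ : ∀ (m : M) (s : Q.primeCompl), φ2 (LocalizedModule.mk m s) =
      LocalizedModule.mk (b m) s := by
    intro m s
    exact LocalizedModule.map_mk Q.primeCompl b m s
  -- multiples of elements of the localisation come from `M`
  have hmul : ∀ (m : M) (s : Q.primeCompl), (s : S) • (LocalizedModule.mk m s) =
      (LocalizedModule.mk m 1 : LocalizedModule Q.primeCompl M) := by
    intro m s
    rw [LocalizedModule.smul'_mk, ← LocalizedModule.mk_cancel s m]
    rfl
  have hf2 : ∀ (m : M) (s : Q.primeCompl), fR (s : S) • f2 (LocalizedModule.mk m s) = j m := by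
    intro m s
    rw [← hf0 m, ← hmul m s, map_smul]
    rfl
  have hs0 : ∀ s : Q.primeCompl, fR (s : S) ≠ 0 := fun s => (isUnit_fR hPQ fR hker s).ne_zero
  have hinj2 : Function.Injective f2 := by
    rw [injective_iff_map_eq_zero]
    intro x hx
    induction x using LocalizedModule.induction_on with
    | h m s =>
      have h1 := hf2 m s
      rw [hx, smul_zero] at h1
      have h2 : m = 0 := hinj (by rw [← h1, map_zero])
      rw [h2, LocalizedModule.zero_mk]
  have hspan2 : Submodule.span K (Set.range f2) = ⊤ := by
    rw [eq_top_iff, ← hspan, Submodule.span_le]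
    rintro _ ⟨m, rfl⟩
    rw [← hf0 m]
    exact Submodule.subset_span ⟨_, rfl⟩
  have hψ2 : ∀ x, ψ (f2 x) = f2 (φ2 x) := by
    intro x
    induction x using LocalizedModule.induction_on with
    | h m s =>
      refine smul_right_injective V (hs0 s) ?_
      change fR (s : S) • ψ (f2 (LocalizedModule.mk m s)) =
        fR (s : S) • f2 (φ2 (LocalizedModule.mk m s))
      rw [← map_smul, hf2, hψ, hφ, hf2]
  have hmk : ∀ a : S, algebraMap (LQ P Q) K
      (Ideal.Quotient.mk I (algebraMap S (Localization.AtPrime Q) a)) = fR a :=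
    fun a => locToK_algebraMap hPQ fR hker a
  have hh0 : (Ideal.Quotient.mk I (algebraMap S (Localization.AtPrime Q) h) : LQ P Q) ≠ 0 := by
    intro h0
    have := hmk h
    rw [h0, map_zero] at this
    exact hh ((hker h).1 this.symm)
  have key := Lat.cok_of_injective f2 hinj2 hspan2 φ2 ψ hψ2 hdet
    (Ideal.Quotient.mk I (algebraMap S (Localization.AtPrime Q) g))
    (Ideal.Quotient.mk I (algebraMap S (Localization.AtPrime Q) h)) hh0
    (by rw [hmk, hmk, hgh])
  have hcok : Lat.cok φ2 = len Q (M ⧸ LinearMap.range b) := by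
    rw [len_coker]
    unfold Lat.cok
    rw [← Module.length_eq_of_surjective (S := Localization.AtPrime Q) (R := LQ P Q)
      (M := LocalizedModule Q.primeCompl M ⧸ LinearMap.range φ2) Ideal.Quotient.mk_surjective]
    exact (Submodule.Quotient.restrictScalarsEquiv (Localization.AtPrime Q)
      (LinearMap.range φ2)).symm.length_eq
  rw [← hcok, ← ord_LQ P Q g, ← ord_LQ P Q h]
  exact key

/-- the finiteness of the localisation gives the finiteness over the field -/
theorem finite_of_fin (hPQ : P ≤ Q) {K : Type} [Field K] (fR : S →+* K)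
    (hker : ∀ a, fR a = 0 ↔ a ∈ P)
    {M : Type} [AddCommGroup M] [Module S M]
    (hfin : Module.Finite (Localization.AtPrime Q) (LocalizedModule Q.primeCompl M))
    {V : Type} [AddCommGroup V] [Module K V] (j : M →+ V)
    (hj : ∀ (a : S) (m : M), j (a • m) = fR a • j m)
    (hspan : Submodule.span K (Set.range j) = ⊤) : Module.Finite K V := by
  letI : Module S V := Module.compHom V fR
  letI : Module (Localization.AtPrime Q) V := Module.compHom V (locToK hPQ fR hker)
  have t1 : IsScalarTower S (Localization.AtPrime Q) V := by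
    refine ⟨fun a x v => ?_⟩
    change locToK hPQ fR hker (a • x) • v = fR a • locToK hPQ fR hker x • v
    rw [Algebra.smul_def, map_mul, locToK_algebraMap, mul_smul]
  let j' : M →ₗ[S] V := { toFun := j, map_add' := j.map_add, map_smul' := hj }
  have hunit : ∀ x : Q.primeCompl, IsUnit (algebraMap S (Module.End S V) x) := by
    intro x
    have hx : fR (x : S) ≠ 0 := (isUnit_fR hPQ fR hker x).ne_zero
    rw [Module.End.isUnit_iff]
    constructor
    · intro v w hvw
      have hvw' : fR (x : S) • v = fR (x : S) • w := hvw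
      exact smul_right_injective V hx hvw'
    · intro v
      refine ⟨(fR (x : S))⁻¹ • v, ?_⟩
      change fR (x : S) • (fR (x : S))⁻¹ • v = v
      rw [smul_smul, mul_inv_cancel₀ hx, one_smul]
  let f0 : LocalizedModule Q.primeCompl M →ₗ[S] V := LocalizedModule.lift Q.primeCompl j' hunit
  have hf0 : ∀ m, f0 (LocalizedModule.mk m 1) = j m := by
    intro m
    have := LinearMap.congr_fun (LocalizedModule.lift_comp Q.primeCompl j' hunit) m
    exact this
  let f1 : LocalizedModule Q.primeCompl M →ₗ[Localization.AtPrime Q] V :=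
    f0.extendScalarsOfIsLocalization Q.primeCompl _
  classical
  obtain ⟨t, ht⟩ := hfin.fg_top
  refine ⟨⟨t.image f1, ?_⟩⟩
  rw [eq_top_iff, ← hspan, Submodule.span_le]
  rintro _ ⟨m, rfl⟩
  rw [← hf0 m]
  change f1 (LocalizedModule.mk m 1) ∈ Submodule.span K (t.image f1 : Set V)
  have hm : (LocalizedModule.mk m 1 : LocalizedModule Q.primeCompl M) ∈
      Submodule.span (Localization.AtPrime Q)
        (t : Set (LocalizedModule Q.primeCompl M)) := by rw [ht]; trivial
  refine Submodule.span_induction
    (p := fun x _ => f1 x ∈ Submodule.span K (t.image f1 : Set V)) ?_ ?_ ?_ ?_ hm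
  · intro x hx
    exact Submodule.subset_span (Finset.mem_coe.2 (Finset.mem_image_of_mem f1 hx))
  · rw [map_zero]
    exact Submodule.zero_mem _
  · intro x y _ _ hx hy
    rw [map_add]
    exact Submodule.add_mem _ hx hy
  · intro l x _ hx
    rw [map_smul]
    change locToK hPQ fR hker l • f1 x ∈ _
    exact Submodule.smul_mem _ _ hx

end main

end Pool.Agent.RCH
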