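import Pool.Agent.RCH.MLen

/-!
# Lengths of cyclic modules over an algebra

`T` is an algebra over `S`; the cyclic `T`-modules `T ⧸ J` are regarded as `S`-modules. Additivity of
the length at a prime of `S` in products of elements which are not zero divisors modulo `J`, and
invariance under isomorphisms over `S`.
-/

set_option autoImplicit false

namespace Pool.Agent.RCH

section

variable {S T : Type} [CommRing S] [CommRing T] [Algebra S T] (Q : Ideal S) [Q.IsPrime]

theorem len_quot_mul (J : Ideal T) (a g : T) (h : ∀ x, a * x ∈ J → x ∈ J) :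
    len Q (T ⧸ (J ⊔ Ideal.span {a * g})) =
      len Q (T ⧸ (J ⊔ Ideal.span {g})) + len Q (T ⧸ (J ⊔ Ideal.span {a})) := by
  have h1 : (J ⊔ Ideal.span {g} : Submodule T T) ≤
      (J ⊔ Ideal.span {a * g} : Submodule T T).comap (LinearMap.mulLeft T a) := by
    rw [sup_le_iff]
    constructor
    · intro x hx
      exact Ideal.mem_sup_left (J.mul_mem_left a hx)
    · refine (Ideal.span_singleton_le_iff_mem _).2 ?_
      exact Ideal.mem_sup_right (Ideal.mem_span_singleton_self (a * g))
  have h2 : (J ⊔ Ideal.span {a * g} : Submodule T T) ≤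
      (J ⊔ Ideal.span {a} : Submodule T T).comap LinearMap.id := by
    rw [Submodule.comap_id]
    refine sup_le le_sup_left ?_
    refine (Ideal.span_singleton_le_iff_mem _).2 (Ideal.mem_sup_right ?_)
    exact Ideal.mul_mem_right _ _ (Ideal.mem_span_singleton_self a)
  let f : (T ⧸ (J ⊔ Ideal.span {g})) →ₗ[T] (T ⧸ (J ⊔ Ideal.span {a * g})) :=
    Submodule.mapQ _ _ (LinearMap.mulLeft T a) h1
  let k : (T ⧸ (J ⊔ Ideal.span {a * g})) →ₗ[T] (T ⧸ (J ⊔ Ideal.span {a})) :=
    Submodule.mapQ _ _ LinearMap.id h2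
  refine len_add Q (f.restrictScalars S) (k.restrictScalars S) ?_ ?_ ?_
  · rw [LinearMap.coe_restrictScalars]
    rw [← LinearMap.ker_eq_bot, LinearMap.ker_eq_bot']
    intro x hx
    obtain ⟨x, rfl⟩ := Submodule.mkQ_surjective _ x
    have hx' : a * x ∈ J ⊔ Ideal.span {a * g} := (Submodule.Quotient.mk_eq_zero _).1 hx
    refine (Submodule.Quotient.mk_eq_zero _).2 ?_
    obtain ⟨j, hj, y, hy, hjy⟩ := Submodule.mem_sup.1 hx'
    obtain ⟨c, rfl⟩ := Ideal.mem_span_singleton.1 hy
    have h3 : a * (x - g * c) ∈ J := by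
      have : a * (x - g * c) = j := by linear_combination -hjy
      rw [this]
      exact hj
    have h4 := h _ h3
    have h5 : x = (x - g * c) + g * c := by ring
    rw [h5]
    exact add_mem (Ideal.mem_sup_left h4)
      (Ideal.mem_sup_right (Ideal.mul_mem_right _ _ (Ideal.mem_span_singleton_self g)))
  · rw [LinearMap.coe_restrictScalars]
    intro x
    obtain ⟨x, rfl⟩ := Submodule.mkQ_surjective _ x
    exact ⟨Submodule.mkQ _ x, rfl⟩
  · intro x
    rw [LinearMap.coe_restrictScalars, LinearMap.coe_restrictScalars]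
    obtain ⟨x, rfl⟩ := Submodule.mkQ_surjective _ x
    constructor
    · intro hx
      have hx' : x ∈ J ⊔ Ideal.span {a} := (Submodule.Quotient.mk_eq_zero _).1 hx
      obtain ⟨j, hj, y, hy, hjy⟩ := Submodule.mem_sup.1 hx'
      obtain ⟨c, rfl⟩ := Ideal.mem_span_singleton.1 hy
      refine ⟨Submodule.mkQ _ c, ?_⟩
      change Submodule.mkQ _ (a * c) = Submodule.mkQ _ x
      rw [← sub_eq_zero, ← map_sub]
      refine (Submodule.Quotient.mk_eq_zero _).2 ?_
      have : a * c - x = -j := by linear_combination hjy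
      rw [this]
      exact Ideal.mem_sup_left (neg_mem hj)
    · rintro ⟨y, hy⟩
      obtain ⟨y, rfl⟩ := Submodule.mkQ_surjective _ y
      rw [← hy]
      change Submodule.mkQ _ (a * y) = 0
      refine (Submodule.Quotient.mk_eq_zero _).2 (Ideal.mem_sup_right ?_)
      exact Ideal.mul_mem_right _ _ (Ideal.mem_span_singleton_self a)

theorem len_quot_top {J : Ideal T} (h : J = ⊤) : len Q (T ⧸ J) = 0 := by
  have : Subsingleton (T ⧸ J) := Ideal.Quotient.subsingleton_iff.2 h
  exact len_eq_zero Q

theorem len_quot_prod {κ : Type} (J : Ideal T) (s : Finset κ) (a : κ → T)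
    (h : ∀ i ∈ s, ∀ x, a i * x ∈ J → x ∈ J) :
    len Q (T ⧸ (J ⊔ Ideal.span {∏ i ∈ s, a i})) =
      ∑ i ∈ s, len Q (T ⧸ (J ⊔ Ideal.span {a i})) := by
  classical
  induction s using Finset.induction_on with
  | empty =>
    rw [Finset.prod_empty, Finset.sum_empty]
    refine len_quot_top Q ?_
    rw [Ideal.span_singleton_one]
    exact sup_top_eq _
  | insert i s hi ih =>
    rw [Finset.prod_insert hi, Finset.sum_insert hi,
      len_quot_mul Q J (a i) _ (h i (Finset.mem_insert_self i s)),
      ih fun j hj => h j (Finset.mem_insert_of_mem hj), add_comm]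

theorem len_quot_pow (J : Ideal T) (a : T) (h : ∀ x, a * x ∈ J → x ∈ J) (n : ℕ) :
    len Q (T ⧸ (J ⊔ Ideal.span {a ^ n})) = n * len Q (T ⧸ (J ⊔ Ideal.span {a})) := by
  have := len_quot_prod Q J (Finset.univ : Finset (Fin n)) (fun _ => a) fun _ _ => h
  rw [Finset.prod_const, Finset.card_univ, Fintype.card_fin, Finset.sum_const, Finset.card_univ,
    Fintype.card_fin, nsmul_eq_mul] at this
  exact this

/-- invariance under isomorphisms of algebras -/
theorem len_quot_equiv {T' : Type} [CommRing T'] [Algebra S T'] (σ : T ≃ₐ[S] T') (J : Ideal T)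
    (J' : Ideal T') (h : J' = J.map (σ : T ≃+* T')) : len Q (T ⧸ J) = len Q (T' ⧸ J') :=
  len_equiv Q (Ideal.quotientEquivAlg J J' σ h).toLinearEquiv

/-- a surjection of algebras -/
theorem len_quot_surj {T' : Type} [CommRing T'] [Algebra S T'] (σ : T →ₐ[S] T')
    (hσ : Function.Surjective σ) (J : Ideal T) (J' : Ideal T') (h : J = J'.comap σ) :
    len Q (T ⧸ J) = len Q (T' ⧸ J') := by
  subst h
  let f : T →ₐ[S] (T' ⧸ J') := (Ideal.Quotient.mkₐ S J').comp σ
  have hf : Function.Surjective f := (Ideal.Quotient.mkₐ_surjective S J').comp hσ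
  have hk : RingHom.ker f = J'.comap σ := by
    ext x
    rw [RingHom.mem_ker, Ideal.mem_comap]
    exact Ideal.Quotient.eq_zero_iff_mem
  have e := (Ideal.quotientEquivAlgOfEq S hk.symm).trans
    (Ideal.quotientKerAlgEquivOfSurjective hf)
  exact len_equiv Q e.toLinearEquiv

end

end Pool.Agent.RCH
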