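import Pool.Agent.RCH.MVRing
import Pool.Agent.RCH.LatFin

/-!
# Finiteness of the modules of Theorem M

Let `J` be an ideal of `TT X` which contains `L L' - 1`, `z_(0, i) - z_(1, i)` and
`z_(0, k) - z_(1, k)`, and `Q` a prime ideal of the ring of coordinates of two points which does not
contain the coordinate `i` of the first point and the coordinate `k` of the second point. Then
`TT X / J` is integral near `Q`, and its localization at `Q` is finite.
-/

set_option autoImplicit false

open MvPolynomial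

namespace Pool.Agent.RCH

section

variable {R B κ : Type} [CommRing R] [CommRing B] [Algebra R B]

theorem intAt_scaling {Q : Ideal R} [hQ : Q.IsPrime] (w : κ → ℕ) (x x' : κ → R) (z : κ → B)
    (L L' : B) (hLL : L * L' = 1) (hx' : ∀ j, algebraMap R B (x' j) = L ^ w j * z j)
    {i k : κ} (hi : algebraMap R B (x i) = z i) (hk : algebraMap R B (x k) = z k)
    (hwi : w i ≠ 0) (hwk : w k ≠ 0) (hiQ : x i ∉ Q) (hkQ : x' k ∉ Q) :
    (∃ s : R, s ∉ Q ∧ IsIntegral R (algebraMap R B s * L)) ∧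
    (∃ s : R, s ∉ Q ∧ IsIntegral R (algebraMap R B s * L')) ∧
    ∀ j, ∃ s : R, s ∉ Q ∧ IsIntegral R (algebraMap R B s * z j) := by
  have h1 : ∃ s : R, s ∉ Q ∧ IsIntegral R (algebraMap R B s * L) :=
    exists_isIntegral_of_pow (b := x' i) hwi hiQ (by rw [hi, hx', mul_comm])
  have h2 : ∃ s : R, s ∉ Q ∧ IsIntegral R (algebraMap R B s * L') :=
    exists_isIntegral_of_pow (b := x k) hwk hkQ (by
      rw [hx', hk, mul_right_comm, ← mul_pow, hLL, one_pow, one_mul])
  refine ⟨h1, h2, fun j => ?_⟩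
  have h3 : z j = algebraMap R B (x' j) * L' ^ w j := by
    rw [hx', mul_right_comm, ← mul_pow, hLL, one_pow, one_mul]
  rw [h3]
  exact exists_isIntegral_mul (exists_isIntegral_algebraMap _) (exists_isIntegral_pow h2 _)

end

namespace TT

variable {ι : Type} {X : WVar ι}

lemma adjoin_gens : Algebra.adjoin ℂ
    (Set.range (fun v : (Fin 2 × ι) ⊕ Bool =>
      Sum.elim (fun a => z X a.1 a.2) (fun b => if b then L' X else L X) v)) = ⊤ := by
  have h : (fun v : (Fin 2 × ι) ⊕ Bool =>
      Sum.elim (fun a => z X a.1 a.2) (fun b => if b then L' X else L X) v) =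
      fun v => (MvPolynomial.X v : MvPolynomial ((Fin 2 × ι) ⊕ Bool) ℂ) := by
    funext v
    rcases v with ⟨a, b⟩ | b
    · rfl
    · cases b <;> rfl
  rw [h]
  exact MvPolynomial.adjoin_range_X

/-- **(fin)**, integrality near `Q` -/
theorem intAt (J : Ideal (TT X)) (hL : L X * L' X - 1 ∈ J) {i k : ι}
    (hi : z X 0 i - z X 1 i ∈ J) (hk : z X 0 k - z X 1 k ∈ J) (hwi : X.wt i ≠ 0)
    (hwk : X.wt k ≠ 0) (Q : Ideal (Coord ι 2)) [hQ : Q.IsPrime]
    (hiQ : (MvPolynomial.X (0, i) : Coord ι 2) ∉ Q)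
    (hkQ : (MvPolynomial.X (1, k) : Coord ι 2) ∉ Q) : IntAt (Coord ι 2) (TT X ⧸ J) Q := by
  have hmk : ∀ a b : TT X, a - b ∈ J → Ideal.Quotient.mk J a = Ideal.Quotient.mk J b :=
    fun a b h => (Ideal.Quotient.mk_eq_mk_iff_sub_mem a b).2 h
  obtain ⟨h1, h2, h3⟩ := intAt_scaling (R := Coord ι 2) (B := TT X ⧸ J) (Q := Q) X.wt
    (fun j => MvPolynomial.X (0, j)) (fun j => MvPolynomial.X (1, j))
    (fun j => Ideal.Quotient.mk J (z X 1 j)) (Ideal.Quotient.mk J (L X))
    (Ideal.Quotient.mk J (L' X))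
    (by rw [← map_mul, ← map_one (Ideal.Quotient.mk J)]; exact hmk _ _ hL)
    (fun j => by
      rw [← map_pow, ← map_mul, ← str_X1]
      rfl)
    (i := i) (k := k)
    (by
      rw [← hmk _ _ hi, ← str_X0]
      rfl)
    (by
      rw [← hmk _ _ hk, ← str_X0]
      rfl) hwi hwk hiQ hkQ
  refine IntAt.of_gens (κ := (Fin 2 × ι) ⊕ Bool) (fun v => Ideal.Quotient.mk J
    (Sum.elim (fun a => z X a.1 a.2) (fun b => if b then L' X else L X) v)) ?_ ?_
  · rw [eq_top_iff]
    rintro x -
    obtain ⟨x, rfl⟩ := Ideal.Quotient.mk_surjective x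
    have hx : x ∈ Algebra.adjoin ℂ (Set.range (fun v : (Fin 2 × ι) ⊕ Bool =>
      Sum.elim (fun a => z X a.1 a.2) (fun b => if b then L' X else L X) v)) := by
      rw [adjoin_gens]
      exact Algebra.mem_top
    induction hx using Algebra.adjoin_induction with
    | mem x hx =>
      obtain ⟨v, rfl⟩ := hx
      exact Algebra.subset_adjoin ⟨v, rfl⟩
    | algebraMap r =>
      have h4 : Ideal.Quotient.mk J (algebraMap ℂ (TT X) r) =
          algebraMap (Coord ι 2) (TT X ⧸ J) (algebraMap ℂ (Coord ι 2) r) := by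
        rw [← IsScalarTower.algebraMap_apply]
        rfl
      rw [h4]
      exact Subalgebra.algebraMap_mem _ _
    | add x y _ _ hx hy =>
      rw [map_add]
      exact add_mem hx hy
    | mul x y _ _ hx hy =>
      rw [map_mul]
      exact mul_mem hx hy
  · rintro (⟨a, j⟩ | b)
    · have ha : a = 0 ∨ a = 1 := by omega
      rcases ha with rfl | rfl
      · have h4 : Ideal.Quotient.mk J (z X 0 j) =
            algebraMap (Coord ι 2) (TT X ⧸ J) (MvPolynomial.X (0, j)) := by
          rw [← str_X0]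
          rfl
        change ∃ s : Coord ι 2, s ∉ Q ∧ IsIntegral (Coord ι 2)
          (algebraMap (Coord ι 2) (TT X ⧸ J) s * Ideal.Quotient.mk J (z X 0 j))
        rw [h4]
        exact exists_isIntegral_algebraMap _
      · exact h3 j
    · cases b
      · exact h1
      · exact h2

instance [Finite ι] : Algebra.FiniteType (Coord ι 2) (TT X) := by
  have : Algebra.FiniteType ℂ (TT X) := inferInstance
  exact Algebra.FiniteType.of_restrictScalars_finiteType ℂ (Coord ι 2) (TT X)

instance [Finite ι] (J : Ideal (TT X)) : Algebra.FiniteType (Coord ι 2) (TT X ⧸ J) :=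
  Algebra.FiniteType.of_surjective (Ideal.Quotient.mkₐ (Coord ι 2) J)
    (Ideal.Quotient.mkₐ_surjective (Coord ι 2) J)

/-- **(fin)** the localization at `Q` is finite -/
theorem fin [Finite ι] (J : Ideal (TT X)) (hL : L X * L' X - 1 ∈ J) {i k : ι}
    (hi : z X 0 i - z X 1 i ∈ J) (hk : z X 0 k - z X 1 k ∈ J) (hwi : X.wt i ≠ 0)
    (hwk : X.wt k ≠ 0) (Q : Ideal (Coord ι 2)) [hQ : Q.IsPrime]
    (hiQ : (MvPolynomial.X (0, i) : Coord ι 2) ∉ Q)
    (hkQ : (MvPolynomial.X (1, k) : Coord ι 2) ∉ Q) :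
    Module.Finite (Localization.AtPrime Q) (LocalizedModule Q.primeCompl (TT X ⧸ J)) :=
  (intAt J hL hi hk hwi hwk Q hiQ hkQ).finite

end TT

end Pool.Agent.RCH
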