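import Pool.Agent.RCH.MLen

/-!
# The ring of two copies of the coordinates and of the ratio

`TT X` is the polynomial ring in two copies `z_(0, i)`, `z_(1, i)` of the coordinates of `X` and in
`L`, `L'`, an algebra over the ring of the coordinates of two points of `X`: the coordinate `i` of the
first point is `z_(0, i)`, the coordinate `i` of the second point is `L ^ (wt i) z_(1, i)`.
-/

set_option autoImplicit false

open MvPolynomial

namespace Pool.Agent.RCH

variable {ι : Type} (X : WVar ι)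

/-- the ring `ℂ[z_(0, i), z_(1, i), L, L']` -/
def TT (_ : WVar ι) : Type := MvPolynomial ((Fin 2 × ι) ⊕ Bool) ℂ

namespace TT

noncomputable instance : CommRing (TT X) :=
  inferInstanceAs (CommRing (MvPolynomial ((Fin 2 × ι) ⊕ Bool) ℂ))

noncomputable instance : Algebra ℂ (TT X) :=
  inferInstanceAs (Algebra ℂ (MvPolynomial ((Fin 2 × ι) ⊕ Bool) ℂ))

instance : IsDomain (TT X) :=
  inferInstanceAs (IsDomain (MvPolynomial ((Fin 2 × ι) ⊕ Bool) ℂ))

instance [Finite ι] : IsNoetherianRing (TT X) :=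
  inferInstanceAs (IsNoetherianRing (MvPolynomial ((Fin 2 × ι) ⊕ Bool) ℂ))

instance [Finite ι] : Algebra.FiniteType ℂ (TT X) :=
  inferInstanceAs (Algebra.FiniteType ℂ (MvPolynomial ((Fin 2 × ι) ⊕ Bool) ℂ))

/-- the coordinates -/
noncomputable def z (k : Fin 2) (i : ι) : TT X :=
  (MvPolynomial.X (Sum.inl (k, i)) : MvPolynomial ((Fin 2 × ι) ⊕ Bool) ℂ)

/-- the ratio -/
noncomputable def L : TT X :=
  (MvPolynomial.X (Sum.inr false) : MvPolynomial ((Fin 2 × ι) ⊕ Bool) ℂ)

/-- its inverse -/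
noncomputable def L' : TT X :=
  (MvPolynomial.X (Sum.inr true) : MvPolynomial ((Fin 2 × ι) ⊕ Bool) ℂ)

/-- the copy `k` of a polynomial in the coordinates -/
noncomputable def cp (k : Fin 2) : MvPolynomial ι ℂ →ₐ[ℂ] TT X :=
  (rename (fun i => (Sum.inl (k, i) : (Fin 2 × ι) ⊕ Bool)) :
    MvPolynomial ι ℂ →ₐ[ℂ] MvPolynomial ((Fin 2 × ι) ⊕ Bool) ℂ)

lemma cp_X (k : Fin 2) (i : ι) : cp X k (MvPolynomial.X i) = z X k i := by
  change (rename (fun i => (Sum.inl (k, i) : (Fin 2 × ι) ⊕ Bool))) (MvPolynomial.X i) = _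
  rw [rename_X]
  rfl

/-- the structure map -/
noncomputable def str : Coord ι 2 →ₐ[ℂ] TT X :=
  aeval fun v => if v.1 = 0 then z X 0 v.2 else L X ^ X.wt v.2 * z X 1 v.2

noncomputable instance : Algebra (Coord ι 2) (TT X) := (str X).toRingHom.toAlgebra

lemma algebraMap_eq : algebraMap (Coord ι 2) (TT X) = (str X).toRingHom := rfl

lemma algebraMap_apply (p : Coord ι 2) : algebraMap (Coord ι 2) (TT X) p = str X p := rfl

instance : IsScalarTower ℂ (Coord ι 2) (TT X) :=
  IsScalarTower.of_algebraMap_eq fun c => ((str X).commutes c).symm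

lemma str_X0 (i : ι) : str X (MvPolynomial.X (0, i)) = z X 0 i := by
  rw [str, aeval_X]
  simp

lemma str_X1 (i : ι) : str X (MvPolynomial.X (1, i)) = L X ^ X.wt i * z X 1 i := by
  rw [str, aeval_X]
  simp

/-- the weights -/
def tw : (Fin 2 × ι) ⊕ Bool → (Fin 2 → ℤ)
  | Sum.inl v => Pi.single 0 (X.wt v.2 : ℤ)
  | Sum.inr false => ![-1, 1]
  | Sum.inr true => ![1, -1]

/-- the grading -/
noncomputable def gr (δ : Fin 2 → ℤ) : Submodule ℂ (TT X) :=
  (weightedHomogeneousSubmodule ℂ (tw X) δ : Submodule ℂ (MvPolynomial ((Fin 2 × ι) ⊕ Bool) ℂ))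

noncomputable instance : GradedAlgebra (gr X) :=
  (weightedGradedAlgebra ℂ (tw X) : GradedAlgebra (weightedHomogeneousSubmodule ℂ (tw X)))

lemma z_mem (k : Fin 2) (i : ι) : z X k i ∈ gr X (Pi.single 0 (X.wt i : ℤ)) :=
  isWeightedHomogeneous_X ℂ (tw X) (Sum.inl (k, i))

lemma L_mem : L X ∈ gr X ![-1, 1] := isWeightedHomogeneous_X ℂ (tw X) (Sum.inr false)

lemma L'_mem : L' X ∈ gr X ![1, -1] := isWeightedHomogeneous_X ℂ (tw X) (Sum.inr true)

/-- the copies of a weighted homogeneous form are homogeneous -/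
lemma cp_mem (k : Fin 2) {F : MvPolynomial ι ℂ} {d : ℕ} (hF : IsWeightedHomogeneous X.wt F d) :
    cp X k F ∈ gr X (Pi.single 0 (d : ℤ)) := by
  classical
  have h : ∀ c ∈ F.support, cp X k (monomial c (coeff c F)) ∈ gr X (Pi.single 0 (d : ℤ)) := by
    intro c hc
    have h1 : cp X k (monomial c (coeff c F)) = (monomial
        (c.mapDomain (fun i => (Sum.inl (k, i) : (Fin 2 × ι) ⊕ Bool))) (coeff c F) :
          MvPolynomial ((Fin 2 × ι) ⊕ Bool) ℂ) := rename_monomial _ _ _
    rw [h1]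
    refine isWeightedHomogeneous_monomial _ _ _ ?_
    have h2 : Finsupp.weight X.wt c = d := hF (mem_support_iff.mp hc)
    rw [Finsupp.weight_apply, Finsupp.sum_mapDomain_index (by simp) (by
      intro b m n
      exact add_smul m n _), ← h2, Finsupp.weight_apply, Finsupp.sum, Finsupp.sum]
    funext j
    rw [Finset.sum_apply]
    by_cases hj : j = 0
    · subst hj
      rw [Pi.single_eq_same]
      push_cast
      refine Finset.sum_congr rfl fun i _ => ?_
      change (c i • (Pi.single 0 (X.wt i : ℤ) : Fin 2 → ℤ)) 0 = _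
      rw [Pi.smul_apply, Pi.single_eq_same]
      simp
    · rw [Pi.single_eq_of_ne hj]
      refine Finset.sum_eq_zero fun i _ => ?_
      change (c i • (Pi.single 0 (X.wt i : ℤ) : Fin 2 → ℤ)) j = _
      rw [Pi.smul_apply, Pi.single_eq_of_ne hj, smul_zero]
  have h2 : cp X k F = ∑ c ∈ F.support, cp X k (monomial c (coeff c F)) := by
    conv_lhs => rw [F.as_sum, map_sum]
  rw [h2]
  exact Submodule.sum_mem _ h

/-- the structure map is homogeneous -/
lemma str_mem_X (v : Fin 2 × ι) :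
    str X (MvPolynomial.X v) ∈ gr X (fun i => ((X.mdeg 2 v i : ℕ) : ℤ)) := by
  obtain ⟨k, i⟩ := v
  have hk : k = 0 ∨ k = 1 := by omega
  rcases hk with rfl | rfl
  · rw [str_X0]
    have h : (fun j => ((X.mdeg 2 (0, i) j : ℕ) : ℤ)) = Pi.single 0 (X.wt i : ℤ) := by
      funext j
      rw [WVar.mdeg]
      by_cases hj : j = 0
      · subst hj
        rw [Pi.single_eq_same, Pi.single_eq_same]
      · rw [Pi.single_eq_of_ne hj, Pi.single_eq_of_ne hj]
        rfl
    rw [h]
    exact z_mem X 0 i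
  · rw [str_X1]
    have h : (fun j => ((X.mdeg 2 (1, i) j : ℕ) : ℤ)) =
        X.wt i • ![(-1 : ℤ), 1] + Pi.single 0 (X.wt i : ℤ) := by
      funext j
      rw [WVar.mdeg]
      have hj : j = 0 ∨ j = 1 := by omega
      rcases hj with rfl | rfl
      · simp
      · simp
    rw [h]
    exact SetLike.mul_mem_graded (SetLike.pow_mem_graded _ (L_mem X)) (z_mem X 1 i)

end TT

end Pool.Agent.RCH
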