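import Pool.Agent.RCH.MLen
import Pool.Agent.RCH.Box
import Pool.Agent.RCH.DgHil

/-!
# Lengths of the extensions of homogeneous ideals: reduction to prime ideals
-/

set_option autoImplicit false

open MvPolynomial

namespace Pool.Agent.RCH.MZ

open Pool.Agent.RCH.Dg (Hom col mem_col le_col hom_col hom_sup exists_homog_of_not_prime)

section torsion

variable {S : Type} [CommRing S] (Q : Ideal S) [Q.IsPrime]
variable {M N : Type} [AddCommGroup M] [Module S M] [AddCommGroup N] [Module S N]

/-- a module killed by elements outside `Q` -/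
theorem len_of_torsion (h : ∀ y : M, ∃ s ∉ Q, s • y = 0) : len Q M = 0 := by
  have : Subsingleton (LocalizedModule Q.primeCompl M) := by
    rw [LocalizedModule.subsingleton_iff]
    intro m
    obtain ⟨s, hs, h1⟩ := h m
    exact ⟨s, hs, h1⟩
  exact Module.length_eq_zero

/-- an injective map whose cokernel is killed by elements outside `Q` -/
theorem len_of_torsion_coker (f : N →ₗ[S] M) (hf : Function.Injective f)
    (h : ∀ y : M, ∃ s ∉ Q, s • y ∈ LinearMap.range f) : len Q M = len Q N := by
  have h1 := len_add Q f (LinearMap.range f).mkQ hf (Submodule.mkQ_surjective _)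
    (by
      intro x
      rw [Submodule.mkQ_apply, Submodule.Quotient.mk_eq_zero]
      rfl)
  rw [h1, len_of_torsion Q (M := M ⧸ LinearMap.range f), add_zero]
  intro y
  obtain ⟨y, rfl⟩ := Submodule.mkQ_surjective _ y
  obtain ⟨s, hs, h2⟩ := h y
  refine ⟨s, hs, ?_⟩
  rw [← map_smul, Submodule.mkQ_apply, Submodule.Quotient.mk_eq_zero]
  exact h2

/-- the length of a product -/
theorem len_prod : len Q (M × N) = len Q M + len Q N :=
  len_add Q (LinearMap.inl S M N) (LinearMap.snd S M N) LinearMap.inl_injective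
    LinearMap.snd_surjective (by
      rintro ⟨x, y⟩
      constructor
      · intro h
        have h' : y = 0 := h
        subst h'
        exact ⟨x, rfl⟩
      · rintro ⟨z, hz⟩
        rw [← hz]
        rfl)

/-- the length of a power -/
theorem len_pi (n : ℕ) : len Q (Fin n → M) = n * len Q M := by
  induction n with
  | zero =>
    rw [len_eq_zero]
    simp
  | succ n ih =>
    rw [len_equiv Q (Fin.consLinearEquiv S (fun _ : Fin (n + 1) => M)).symm, len_prod, ih]
    push_cast
    ring

end torsion

section quot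

variable {S : Type} [CommRing S] (Q : Ideal S) [Q.IsPrime]
variable {T : Type} [CommRing T] [Algebra S T]

/-- the lengths of the cyclic modules are additive -/
theorem len_quot_add (I : Ideal T) (a : T) :
    len Q (T ⧸ I) = len Q (T ⧸ (Submodule.comap (LinearMap.mulLeft T a) I : Ideal T)) +
      len Q (T ⧸ (I ⊔ Ideal.span {a})) := by
  let C : Ideal T := Submodule.comap (LinearMap.mulLeft T a) I
  let f0 : (T ⧸ C) →ₗ[T] (T ⧸ I) := Submodule.mapQ C I (LinearMap.mulLeft T a) le_rfl
  let g0 : (T ⧸ I) →ₗ[T] (T ⧸ (I ⊔ Ideal.span {a})) :=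
    Submodule.mapQ I (I ⊔ Ideal.span {a}) LinearMap.id (by
      intro x hx
      exact Ideal.mem_sup_left hx)
  refine len_add Q (f0.restrictScalars S) (g0.restrictScalars S) ?_ ?_ ?_
  · have h1 : Function.Injective f0 := by
      rw [← LinearMap.ker_eq_bot]
      refine Submodule.ker_liftQ_eq_bot _ _ _ ?_
      intro x hx
      rw [LinearMap.ker_comp, Submodule.ker_mkQ] at hx
      exact hx
    exact h1
  · intro y
    obtain ⟨y, rfl⟩ := Submodule.Quotient.mk_surjective _ y
    exact ⟨Submodule.Quotient.mk y, rfl⟩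
  · intro x
    obtain ⟨x, rfl⟩ := Submodule.Quotient.mk_surjective _ x
    constructor
    · intro h
      have h1 : (Submodule.Quotient.mk x : T ⧸ (I ⊔ Ideal.span {a})) = 0 := h
      rw [Submodule.Quotient.mk_eq_zero] at h1
      obtain ⟨i, hi, r, hr, rfl⟩ := Submodule.mem_sup.mp h1
      obtain ⟨c, rfl⟩ := Ideal.mem_span_singleton'.mp hr
      refine ⟨Submodule.Quotient.mk c, ?_⟩
      show (Submodule.Quotient.mk (a * c) : T ⧸ I) = Submodule.Quotient.mk (i + c * a)
      rw [Submodule.Quotient.eq]
      have h2 : a * c - (i + c * a) = -i := by ring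
      rw [h2]
      exact I.neg_mem hi
    · rintro ⟨y, hy⟩
      obtain ⟨y, rfl⟩ := Submodule.Quotient.mk_surjective _ y
      rw [← hy]
      show (Submodule.Quotient.mk (a * y) : T ⧸ (I ⊔ Ideal.span {a})) = 0
      rw [Submodule.Quotient.mk_eq_zero]
      exact Ideal.mem_sup_right (Ideal.mul_mem_right _ _ (Ideal.subset_span rfl))

theorem len_quot_top : len Q (T ⧸ (⊤ : Ideal T)) = 0 := by
  have : Subsingleton (T ⧸ (⊤ : Ideal T)) := Ideal.Quotient.subsingleton_iff.2 rfl
  exact len_eq_zero Q

end quot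

section ext

variable {k : Type*} [Field k] {A : Type*} [CommRing A] [Algebra k A] {σ β : Type*}
  (e : Module.Basis β k A)

lemma crd_mul_map (f : MvPolynomial σ A) (p : MvPolynomial σ k) (b : β) :
    crd e (f * map (algebraMap k A) p) b = crd e f b * p := by
  classical
  ext m
  rw [coeff_crd, coeff_mul, coeff_mul, map_sum, Finsupp.finsetSum_apply]
  refine Finset.sum_congr rfl fun x _ => ?_
  rw [coeff_map, coeff_crd, mul_comm, ← Algebra.smul_def, map_smul, Finsupp.smul_apply,
    smul_eq_mul, mul_comm]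

lemma crd_add (f g : MvPolynomial σ A) (b : β) : crd e (f + g) b = crd e f b + crd e g b := by
  ext m
  rw [coeff_crd, coeff_add, map_add, Finsupp.add_apply, coeff_add, coeff_crd, coeff_crd]

lemma crd_zero (b : β) : crd e (0 : MvPolynomial σ A) b = 0 := by
  ext m
  rw [coeff_crd, coeff_zero, map_zero, Finsupp.zero_apply, coeff_zero]

lemma mem_map_iff_crd (f : MvPolynomial σ A) (I : Ideal (MvPolynomial σ k)) :
    f ∈ I.map (map (algebraMap k A)) ↔ ∀ b, crd e f b ∈ I := by
  refine ⟨fun h b => ?_, mem_map_of_crd e f I⟩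
  rw [Ideal.map] at h
  induction h using Submodule.span_induction with
  | mem x hx =>
    obtain ⟨p, hp, rfl⟩ := hx
    have h1 := crd_mul_map e (1 : MvPolynomial σ A) p b
    rw [one_mul] at h1
    rw [h1]
    exact I.mul_mem_left _ hp
  | zero => rw [crd_zero]; exact I.zero_mem
  | add x y _ _ hx hy => rw [crd_add]; exact I.add_mem hx hy
  | smul r x hx ih =>
    have hx' : x ∈ I.map (map (algebraMap k A)) := hx
    obtain ⟨n, c, p, hp, rfl⟩ : ∃ (n : ℕ) (c : Fin n → MvPolynomial σ A)
        (p : Fin n → MvPolynomial σ k), (∀ i, p i ∈ I) ∧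
          x = ∑ i, c i * map (algebraMap k A) (p i) := by
      clear ih hx
      rw [Ideal.map] at hx'
      induction hx' using Submodule.span_induction with
      | mem x hx =>
        obtain ⟨p, hp, rfl⟩ := hx
        exact ⟨1, fun _ => 1, fun _ => p, fun _ => hp, by simp⟩
      | zero => exact ⟨0, Fin.elim0, Fin.elim0, fun i => i.elim0, by simp⟩
      | add x y hx1 hy1 hx hy =>
        obtain ⟨n, c, p, hp, rfl⟩ := hx
        obtain ⟨m, c', p', hp', rfl⟩ := hy
        refine ⟨n + m, Fin.append c c', Fin.append p p', fun i => ?_, ?_⟩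
        · refine Fin.addCases (fun i => ?_) (fun i => ?_) i
          · rw [Fin.append_left]; exact hp i
          · rw [Fin.append_right]; exact hp' i
        · rw [Fin.sum_univ_add]
          simp only [Fin.append_left, Fin.append_right]
      | smul r x hx1 ih =>
        obtain ⟨n, c, p, hp, rfl⟩ := ih
        refine ⟨n, fun i => r * c i, p, hp, ?_⟩
        rw [smul_eq_mul, Finset.mul_sum]
        exact Finset.sum_congr rfl fun i _ => by ring
    rw [smul_eq_mul, Finset.mul_sum]
    have h2 : ∀ s : Finset (Fin n), crd e (∑ i ∈ s, r * (c i * map (algebraMap k A) (p i))) b =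
        ∑ i ∈ s, crd e (r * c i) b * p i := by
      intro s
      classical
      induction s using Finset.induction_on with
      | empty => rw [Finset.sum_empty, Finset.sum_empty, crd_zero]
      | insert a s ha ih =>
        rw [Finset.sum_insert ha, Finset.sum_insert ha, crd_add, ih, ← mul_assoc, crd_mul_map]
    rw [h2]
    exact I.sum_mem fun i _ => I.mul_mem_left _ (hp i)

end ext

section dev

variable {κ : Type}

/-- the extension of an ideal -/
noncomputable def ext (A : Type) [CommRing A] [Algebra ℂ A] (J : Ideal (MvPolynomial κ ℂ)) :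
    Ideal (MvPolynomial κ A) :=
  J.map (map (algebraMap ℂ A))

variable {A : Type} [CommRing A] [Algebra ℂ A]

lemma ext_colon (J : Ideal (MvPolynomial κ ℂ)) (a : MvPolynomial κ ℂ) :
    (Submodule.comap (LinearMap.mulLeft (MvPolynomial κ A) (map (algebraMap ℂ A) a)) (ext A J) :
      Ideal (MvPolynomial κ A)) = ext A (col J a) := by
  let e := Module.Basis.ofVectorSpace ℂ A
  ext x
  rw [Submodule.mem_comap, LinearMap.mulLeft_apply, ext, ext, mem_map_iff_crd e,
    mem_map_iff_crd e]
  refine forall_congr' fun b => ?_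
  rw [mul_comm, crd_mul_map, mem_col, mul_comm]

lemma ext_sup (J : Ideal (MvPolynomial κ ℂ)) (a : MvPolynomial κ ℂ) :
    ext A (J ⊔ Ideal.span {a}) = ext A J ⊔ Ideal.span {map (algebraMap ℂ A) a} := by
  rw [ext, ext, Ideal.map_sup, Ideal.map_span, Set.image_singleton]

lemma ext_top : ext A (⊤ : Ideal (MvPolynomial κ ℂ)) = ⊤ := by
  rw [ext, Ideal.map_top]

lemma ext_mono {J J' : Ideal (MvPolynomial κ ℂ)} (h : J ≤ J') : ext A J ≤ ext A J' :=
  Ideal.map_mono h

section add

variable {S : Type} [CommRing S] [Algebra S (MvPolynomial κ A)] (Q : Ideal S) [Q.IsPrime]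

/-- the lengths of the extensions are additive -/
theorem len_ext_add (J : Ideal (MvPolynomial κ ℂ)) (a : MvPolynomial κ ℂ) :
    len Q (MvPolynomial κ A ⧸ ext A J) = len Q (MvPolynomial κ A ⧸ ext A (col J a)) +
      len Q (MvPolynomial κ A ⧸ ext A (J ⊔ Ideal.span {a})) := by
  rw [len_quot_add Q (ext A J) (map (algebraMap ℂ A) a), ext_colon, ext_sup]

theorem len_ext_top : len Q (MvPolynomial κ A ⧸ ext A (⊤ : Ideal (MvPolynomial κ ℂ))) = 0 := by
  rw [ext_top]
  exact len_quot_top Q

end add

variable {w : κ → ℕ} {A' : Type} [CommRing A'] [Algebra ℂ A']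
variable {S S' : Type} [CommRing S] [CommRing S'] [Algebra S (MvPolynomial κ A)]
  [Algebra S' (MvPolynomial κ A')]

/-- **Reduction to prime ideals**: if two lengths are proportional for the homogeneous prime ideals
over `J₀`, then for all homogeneous ideals over `J₀`. -/
theorem dev [Finite κ] (Q : Ideal S) [Q.IsPrime] (Q' : Ideal S') [Q'.IsPrime] (n : ℕ)
    (J₀ : Ideal (MvPolynomial κ ℂ))
    (h : ∀ q : Ideal (MvPolynomial κ ℂ), q.IsPrime → Hom w q → J₀ ≤ q →
      len Q (MvPolynomial κ A ⧸ ext A q) = n * len Q' (MvPolynomial κ A' ⧸ ext A' q))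
    (J : Ideal (MvPolynomial κ ℂ)) (hJ : Hom w J) (h0 : J₀ ≤ J) :
    len Q (MvPolynomial κ A ⧸ ext A J) = n * len Q' (MvPolynomial κ A' ⧸ ext A' J) := by
  induction J using WellFoundedGT.induction with
  | ind J ih =>
  by_cases ht : J = ⊤
  · subst ht
    rw [len_ext_top, len_ext_top, mul_zero]
  by_cases hp : J.IsPrime
  · exact h J hp hJ h0
  obtain ⟨a, b, d, d', ha, hb, haI, hbI, hab⟩ := exists_homog_of_not_prime hJ hp ht
  have h1 : J < col J a := by
    refine lt_of_le_of_ne (le_col J a) (fun h => hbI ?_)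
    rw [h]
    exact hab
  have h2 : J < J ⊔ Ideal.span {a} := by
    refine lt_of_le_of_ne le_sup_left (fun h => haI ?_)
    rw [h]
    exact Ideal.mem_sup_right (Ideal.subset_span rfl)
  rw [len_ext_add Q J a, len_ext_add Q' J a, ih _ h1 (hom_col hJ ha) (h0.trans h1.le),
    ih _ h2 (hom_sup hJ ha) (h0.trans h2.le), mul_add]

/-- a length which is zero for the homogeneous prime ideals over `J₀` -/
theorem dev_zero [Finite κ] (Q : Ideal S) [Q.IsPrime]
    (J₀ : Ideal (MvPolynomial κ ℂ))
    (h : ∀ q : Ideal (MvPolynomial κ ℂ), q.IsPrime → Hom w q → J₀ ≤ q →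
      len Q (MvPolynomial κ A ⧸ ext A q) = 0)
    (J : Ideal (MvPolynomial κ ℂ)) (hJ : Hom w J) (h0 : J₀ ≤ J) :
    len Q (MvPolynomial κ A ⧸ ext A J) = 0 := by
  have h1 := dev (w := w) Q Q 0 J₀ (fun q h1 h2 h3 => by rw [h q h1 h2 h3]; simp) J hJ h0
  rw [h1]
  simp

end dev

end Pool.Agent.RCH.MZ
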