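import Pool.Agent.RCH.MZA

/-!
# The ring `ℂ[v, v'][L, 1 / L][x]`, and its homogeneous primes as modules

`val p ε` is the homomorphism from the ring of the coordinates of two points: the coordinate `x_k` of
the second point is sent to `L ^ (p k) x_k`. For a homogeneous prime ideal `q` of `ℂ[x]` the module
`ℂ[v, v'][L, 1 / L][x] / q` has over its annihilator the length `h`, the greatest common divisor of the
weights of the coordinates which are not in `q`.
-/

set_option autoImplicit false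

open MvPolynomial

namespace Pool.Agent.RCH.MZ

open Pool.Agent.RCH.Dg (Hom col mem_col le_col hom_col hom_sup exists_homog_of_not_prime)

/-- the ring `ℂ[v, v'][L, 1 / L]` -/
def AL : Type := LaurentPolynomial (MvPolynomial (Fin 2) ℂ)

noncomputable instance : CommRing AL :=
  inferInstanceAs (CommRing (LaurentPolynomial (MvPolynomial (Fin 2) ℂ)))

noncomputable instance : Algebra ℂ AL :=
  inferInstanceAs (Algebra ℂ (LaurentPolynomial (MvPolynomial (Fin 2) ℂ)))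

instance : IsDomain AL :=
  inferInstanceAs (IsDomain (LaurentPolynomial (MvPolynomial (Fin 2) ℂ)))

/-- the power `L ^ n` -/
noncomputable def LL (n : ℤ) : AL := (LaurentPolynomial.T n : LaurentPolynomial _)

/-- the polynomials in `v`, `v'` -/
noncomputable def CC : MvPolynomial (Fin 2) ℂ →+* AL :=
  (LaurentPolynomial.C : _ →+* LaurentPolynomial (MvPolynomial (Fin 2) ℂ))

lemma LL_zero : LL 0 = 1 := LaurentPolynomial.T_zero

lemma LL_add (m n : ℤ) : LL (m + n) = LL m * LL n := LaurentPolynomial.T_add m n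

lemma isUnit_LL (n : ℤ) : IsUnit (LL n) := LaurentPolynomial.isUnit_T n

lemma algebraMap_AL (c : ℂ) : algebraMap ℂ AL c = CC (C c) := rfl

theorem AL_induction {M : AL → Prop} (a : AL) (h_add : ∀ x y, M x → M y → M (x + y))
    (h : ∀ (n : ℤ) (b : MvPolynomial (Fin 2) ℂ), M (CC b * LL n)) : M a :=
  LaurentPolynomial.induction_on' (motive := M) a h_add h

variable {ι κ : Type}

/-- the ring -/
abbrev TZ (κ : Type) : Type := MvPolynomial κ AL

/-- the values of the coordinates; `none` is the coordinate which is zero, `some none` is the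
coordinate `v`, `some (some k)` is `x_k` -/
noncomputable def valc (p : κ → ℕ) (i : Fin 2) : Option (Option κ) → TZ κ
  | none => 0
  | some none => C (CC (X i))
  | some (some k) => C (LL ((i : ℕ) * p k)) * X k

/-- the homomorphism from the ring of the coordinates of two points -/
noncomputable def val (p : κ → ℕ) (ε : ι → Option (Option κ)) : Coord ι 2 →+* TZ κ :=
  eval₂Hom (algebraMap ℂ (TZ κ)) (fun v => valc p v.1 (ε v.2))

section hom

variable (p : κ → ℕ) (ε : ι → Option (Option κ))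

lemma val_X (i : Fin 2) (j : ι) : val p ε (X (i, j)) = valc p i (ε j) := by
  rw [val, eval₂Hom_X']

lemma val_C (c : ℂ) : val p ε (C c) = algebraMap ℂ (TZ κ) c := by
  rw [val, eval₂Hom_C]

/-- the powers of `ζ L` -/
noncomputable def sigM (ζ : ℂˣ) : Multiplicative ℤ →* AL where
  toFun n := CC (C (((ζ ^ (Multiplicative.toAdd n) : ℂˣ) : ℂ))) * LL (Multiplicative.toAdd n)
  map_one' := by
    simp [LL_zero]
  map_mul' := by
    intro a b
    rw [toAdd_mul, zpow_add, LL_add, Units.val_mul, map_mul, map_mul]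
    ring

/-- the endomorphism `L ↦ ζ L` of the coefficients -/
noncomputable def sigA (ζ : ℂˣ) : AL →+* AL :=
  AddMonoidAlgebra.liftNCRingHom CC (sigM ζ) (fun _ _ => Commute.all _ _)

lemma sigA_T (ζ : ℂˣ) (n : ℤ) : sigA ζ (LL n) = CC (C (((ζ ^ n : ℂˣ) : ℂ))) * LL n := by
  have h : sigA ζ (LL n) = CC 1 * sigM ζ (Multiplicative.ofAdd n) :=
    AddMonoidAlgebra.liftNC_single (CC : MvPolynomial (Fin 2) ℂ →+ AL) (sigM ζ) n 1
  rw [h, map_one, one_mul]
  rfl

lemma sigA_C (ζ : ℂˣ) (a : MvPolynomial (Fin 2) ℂ) : sigA ζ (CC a) = CC a := by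
  have h : sigA ζ (CC a) = CC a * sigM ζ (Multiplicative.ofAdd 0) :=
    AddMonoidAlgebra.liftNC_single (CC : MvPolynomial (Fin 2) ℂ →+ AL) (sigM ζ) 0 a
  rw [h, ofAdd_zero, map_one, mul_one]

/-- the endomorphism `L ↦ ζ L` -/
noncomputable def sig (ζ : ℂˣ) : TZ κ →+* TZ κ := map (sigA ζ)

lemma sig_C (ζ : ℂˣ) (a : AL) : sig (κ := κ) ζ (C a) = C (sigA ζ a) := by
  rw [sig, map_C]

lemma sig_X (ζ : ℂˣ) (k : κ) : sig (κ := κ) ζ (X k) = X k := by
  rw [sig, map_X]

lemma sig_map (ζ : ℂˣ) (a : MvPolynomial κ ℂ) :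
    sig ζ (map (algebraMap ℂ AL) a) = map (algebraMap ℂ AL) a := by
  rw [sig, map_map]
  congr 1
  congr 1
  refine RingHom.ext fun c => ?_
  rw [RingHom.comp_apply, algebraMap_AL, sigA_C]

end hom

section faith

variable {A : Type} [CommRing A] [Nontrivial A] [Algebra ℂ A]

lemma map_mem_ext {q : Ideal (MvPolynomial κ ℂ)} {a : MvPolynomial κ ℂ} :
    map (algebraMap ℂ A) a ∈ ext A q ↔ a ∈ q := by
  classical
  refine ⟨fun h => ?_, fun h => Ideal.mem_map_of_mem _ h⟩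
  let e := Module.Basis.ofVectorSpace ℂ A
  obtain ⟨b, hb⟩ : ∃ b, e.repr 1 b ≠ 0 := by
    by_contra! h0
    have h1 : e.repr 1 = 0 := Finsupp.ext h0
    exact one_ne_zero (e.repr.map_eq_zero_iff.mp h1)
  have h1 := (mem_map_iff_crd e _ q).mp h b
  have h2 := crd_mul_map e (1 : MvPolynomial κ A) a b
  rw [one_mul] at h2
  rw [h2] at h1
  have h3 : crd e (1 : MvPolynomial κ A) b = C (e.repr 1 b) := by
    ext m
    rw [coeff_crd, coeff_one, coeff_C]
    by_cases hm : 0 = m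
    · rw [if_pos hm, if_pos hm]
    · rw [if_neg hm, if_neg hm, map_zero, Finsupp.zero_apply]
  rw [h3] at h1
  have h4 := q.mul_mem_left (C (e.repr 1 b)⁻¹) h1
  rw [← mul_assoc, ← map_mul, inv_mul_cancel₀ hb, map_one, one_mul] at h4
  exact h4

lemma X_mem_ext {q : Ideal (MvPolynomial κ ℂ)} {k : κ} :
    (X k : MvPolynomial κ A) ∈ ext A q ↔ X k ∈ q := by
  rw [← map_mem_ext (A := A), map_X]

end faith

section prime

variable (p : κ → ℕ) (ε : ι → Option (Option κ)) (q : Ideal (MvPolynomial κ ℂ))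

/-- the ideal of the elements which act as zero -/
noncomputable def Pq : Ideal (Coord ι 2) := (ext AL q).comap (val p ε)

lemma mem_Pq {s : Coord ι 2} : s ∈ Pq p ε q ↔ val p ε s ∈ ext AL q := Iff.rfl

lemma isUnit_L (n : ℤ) : IsUnit (C (LL n) : TZ κ) := by
  have h : IsUnit (LL n) := isUnit_LL n
  exact h.map (C : AL →+* TZ κ)

lemma X_mem_Pq_iff (i : Fin 2) {j : ι} {k : κ} (hj : ε j = some (some k)) :
    X (i, j) ∈ Pq p ε q ↔ X k ∈ q := by
  rw [mem_Pq, val_X, hj]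
  show C (LL ((i : ℕ) * p k)) * X k ∈ ext AL q ↔ _
  rw [Ideal.unit_mul_mem_iff_mem _ (isUnit_L _), X_mem_ext]

section ind

variable {p q} {h : ℕ}

/-- the endomorphism `L ↦ ζ L` does not change the classes of the values -/
lemma sig_val {ζ : ℂˣ} (hζ : ζ ^ h = 1) (hd : ∀ k, X k ∉ q → h ∣ p k) (s : Coord ι 2) :
    sig ζ (val p ε s) - val p ε s ∈ ext AL q := by
  rw [← Ideal.Quotient.eq]
  suffices hs : ((Ideal.Quotient.mk (ext AL q)).comp (sig ζ)).comp (val p ε) =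
      (Ideal.Quotient.mk (ext AL q)).comp (val p ε) from RingHom.congr_fun hs s
  apply MvPolynomial.ringHom_ext
  · intro c
    rw [RingHom.comp_apply, RingHom.comp_apply, RingHom.comp_apply, val_C]
    congr 1
    rw [IsScalarTower.algebraMap_apply ℂ AL (TZ κ), algebraMap_eq, sig_C]
    congr 1
    rw [algebraMap_AL, sigA_C]
  · rintro ⟨i, j⟩
    rw [RingHom.comp_apply, RingHom.comp_apply, RingHom.comp_apply, val_X]
    rcases hj : ε j with _ | _ | k
    · show Ideal.Quotient.mk (ext AL q) (sig ζ 0) = Ideal.Quotient.mk (ext AL q) 0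
      rw [map_zero]
    · show Ideal.Quotient.mk (ext AL q) (sig ζ (C (CC (X i)))) =
        Ideal.Quotient.mk (ext AL q) (C (CC (X i)))
      rw [sig_C, sigA_C]
    · show Ideal.Quotient.mk (ext AL q) (sig ζ (C (LL ((i : ℕ) * p k)) * X k)) =
        Ideal.Quotient.mk (ext AL q) (C (LL ((i : ℕ) * p k)) * X k)
      rw [map_mul, sig_X, sig_C, sigA_T]
      by_cases hk : X k ∈ q
      · rw [Ideal.Quotient.eq]
        exact (ext AL q).sub_mem (Ideal.mul_mem_left _ _ (X_mem_ext.mpr hk))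
          (Ideal.mul_mem_left _ _ (X_mem_ext.mpr hk))
      · obtain ⟨c, hc⟩ := hd k hk
        have h1 : ζ ^ (((i : ℕ) : ℤ) * ((p k : ℕ) : ℤ)) = 1 := by
          rw [hc, Nat.cast_mul, mul_left_comm, zpow_mul, zpow_natCast, hζ, one_zpow]
        rw [h1]
        simp

lemma sig_mem {ζ : ℂˣ} {y : TZ κ} (hy : y ∈ ext AL q) : sig ζ y ∈ ext AL q := by
  have h1 : ext AL q ≤ (ext AL q).comap (sig ζ) := by
    rw [ext, Ideal.map_le_iff_le_comap]
    intro a ha
    rw [Ideal.mem_comap, Ideal.mem_comap, sig_map]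
    exact Ideal.mem_map_of_mem _ ha
  exact h1 hy

/-- **Independence** -/
theorem indep (hh : h ≠ 0) (hd : ∀ k, X k ∉ q → h ∣ p k) (r : Fin h → Coord ι 2)
    (hr : ∑ i, val p ε (r i) * C (LL (i : ℕ)) ∈ ext AL q) (j : Fin h) :
    val p ε (r j) ∈ ext AL q := by
  obtain ⟨ω, hω⟩ : ∃ ω : ℂˣ, IsPrimitiveRoot ω h := by
    have h1 := Complex.isPrimitiveRoot_exp h hh
    exact ⟨h1.isUnit hh |>.unit, by
      rw [← IsPrimitiveRoot.coe_units_iff]
      exact h1⟩
  -- the image by the power `m`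
  have h1 : ∀ m : ℕ, ∑ i : Fin h, (C (CC (C (((ω ^ m) ^ ((i : ℕ) : ℤ) : ℂˣ) : ℂ)))) *
      (val p ε (r i) * C (LL (i : ℕ))) ∈ ext AL q := by
    intro m
    have hζ : (ω ^ m) ^ h = 1 := by
      rw [← pow_mul, mul_comm, pow_mul, hω.pow_eq_one, one_pow]
    have h2 := sig_mem (ζ := ω ^ m) hr
    rw [map_sum] at h2
    have h3 : ∑ i : Fin h, (C (CC (C (((ω ^ m) ^ ((i : ℕ) : ℤ) : ℂˣ) : ℂ)))) *
      (val p ε (r i) * C (LL (i : ℕ))) = ∑ i : Fin h, sig (ω ^ m) (val p ε (r i) * C (LL (i : ℕ))) -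
        ∑ i : Fin h, (sig (ω ^ m) (val p ε (r i)) - val p ε (r i)) *
          ((C (CC (C (((ω ^ m) ^ ((i : ℕ) : ℤ) : ℂˣ) : ℂ)))) * C (LL (i : ℕ))) := by
      rw [← Finset.sum_sub_distrib]
      refine Finset.sum_congr rfl fun i _ => ?_
      rw [map_mul, sig_C, sigA_T, map_mul]
      ring
    rw [h3]
    refine (ext AL q).sub_mem h2 (Ideal.sum_mem _ fun i _ => Ideal.mul_mem_right _ _ ?_)
    exact sig_val ε hζ hd (r i)
  have h2 : ∑ m ∈ Finset.range h, C (CC (C (((ω⁻¹ ^ (m * (j : ℕ)) : ℂˣ) : ℂ)))) *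
      ∑ i : Fin h, (C (CC (C (((ω ^ m) ^ ((i : ℕ) : ℤ) : ℂˣ) : ℂ)))) *
      (val p ε (r i) * C (LL (i : ℕ))) ∈ ext AL q :=
    Ideal.sum_mem _ fun m _ => Ideal.mul_mem_left _ _ (h1 m)
  have h3 : ∑ m ∈ Finset.range h, C (CC (C (((ω⁻¹ ^ (m * (j : ℕ)) : ℂˣ) : ℂ)))) *
      ∑ i : Fin h, (C (CC (C (((ω ^ m) ^ ((i : ℕ) : ℤ) : ℂˣ) : ℂ)))) *
      (val p ε (r i) * C (LL (i : ℕ))) = C (CC (C (h : ℂ))) * C (LL (j : ℕ)) *
        val p ε (r j) := by
    simp only [Finset.mul_sum]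
    rw [Finset.sum_comm]
    have h4 : ∀ i : Fin h, ∑ m ∈ Finset.range h,
        C (CC (C (((ω⁻¹ ^ (m * (j : ℕ)) : ℂˣ) : ℂ)))) *
        ((C (CC (C (((ω ^ m) ^ ((i : ℕ) : ℤ) : ℂˣ) : ℂ)))) *
        (val p ε (r i) * C (LL (i : ℕ)))) =
        C (CC (C (∑ m ∈ Finset.range h, ((ω ^ ((i : ℕ) : ℤ) *
          ω⁻¹ ^ (j : ℕ) : ℂˣ) : ℂ) ^ m))) * (val p ε (r i) * C (LL (i : ℕ))) := by
      intro i
      rw [map_sum, map_sum, map_sum, Finset.sum_mul]
      refine Finset.sum_congr rfl fun m _ => ?_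
      rw [← mul_assoc, ← map_mul, ← map_mul, ← map_mul, ← Units.val_mul, ← Units.val_pow_eq_pow_val]
      congr 6
      rw [mul_pow, ← pow_mul, mul_comm (j : ℕ) m, zpow_natCast, zpow_natCast, ← pow_mul, ← pow_mul,
        mul_comm m (i : ℕ), mul_comm]
    rw [Finset.sum_congr rfl fun i _ => h4 i, Finset.sum_eq_single j]
    · have h5 : ω ^ ((j : ℕ) : ℤ) * ω⁻¹ ^ (j : ℕ) = 1 := by
        rw [zpow_natCast, ← mul_pow, mul_inv_cancel, one_pow]
      rw [h5]
      simp only [Units.val_one, one_pow, Finset.sum_const, Finset.card_range, nsmul_eq_mul, mul_one]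
      ring
    · intro i _ hij
      have h5 : ((ω ^ ((i : ℕ) : ℤ) * ω⁻¹ ^ (j : ℕ) : ℂˣ) : ℂ) ≠ 1 := by
        intro h6
        have h7 : ω ^ ((i : ℕ) : ℤ) * ω⁻¹ ^ (j : ℕ) = 1 := Units.ext h6
        rw [zpow_natCast, inv_pow, mul_inv_eq_one] at h7
        exact hij (Fin.ext (hω.pow_inj i.2 j.2 h7))
      have h6 : ((ω ^ ((i : ℕ) : ℤ) * ω⁻¹ ^ (j : ℕ) : ℂˣ) : ℂ) ^ h = 1 := by
        rw [← Units.val_pow_eq_pow_val, mul_pow, zpow_natCast, ← pow_mul, ← pow_mul,
          mul_comm (i : ℕ), mul_comm (j : ℕ), pow_mul, pow_mul, inv_pow, hω.pow_eq_one]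
        simp
      have h7 := geom_sum_mul (((ω ^ ((i : ℕ) : ℤ) * ω⁻¹ ^ (j : ℕ) : ℂˣ) : ℂ)) h
      rw [h6, sub_self, mul_eq_zero, or_iff_left (sub_ne_zero.mpr h5)] at h7
      rw [h7]
      simp
    · intro hj
      exact absurd (Finset.mem_univ j) hj
  rw [h3] at h2
  have h5 : IsUnit (C (CC (C (h : ℂ))) * C (LL (j : ℕ)) : TZ κ) := by
    refine IsUnit.mul ?_ (isUnit_L _)
    have h6 : IsUnit (h : ℂ) := by
      rw [isUnit_iff_ne_zero]
      exact_mod_cast hh
    exact ((h6.map (C : ℂ →+* MvPolynomial (Fin 2) ℂ)).map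
      CC).map (C : AL →+* TZ κ)
  exact (Ideal.unit_mul_mem_iff_mem _ h5).mp h2

end ind

end prime

end Pool.Agent.RCH.MZ
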