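import Pool.Agent.RCH.MZB

/-!
# The ring `ℂ[v, v'][L, 1 / L][x]` modulo a homogeneous prime: generation, and the length
-/

set_option autoImplicit false

open MvPolynomial

namespace Pool.Agent.RCH.MZ

variable {ι κ : Type} (p : κ → ℕ) (ε : ι → Option (Option κ)) (q : Ideal (MvPolynomial κ ℂ))

theorem isPrime_ext [Finite κ] [q.IsPrime] {A : Type} [CommRing A] [IsDomain A] [Algebra ℂ A] :
    (ext A q).IsPrime := prime_ext q

instance isPrime_Pq [Finite κ] [q.IsPrime] : (Pq p ε q).IsPrime := by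
  have := isPrime_ext q (A := AL)
  exact Ideal.comap_isPrime _ _

/-- the exponents `n` such that `L ^ n` is a quotient of values -/
noncomputable def shifts [Finite κ] [q.IsPrime] : AddSubgroup ℤ where
  carrier := {n | ∃ s s' : Coord ι 2, s ∉ Pq p ε q ∧ s' ∉ Pq p ε q ∧
    val p ε s * C (LL n) - val p ε s' ∈ ext AL q}
  zero_mem' := by
    have h1 : (1 : Coord ι 2) ∉ Pq p ε q := by
      rw [← Ideal.ne_top_iff_one]
      exact (isPrime_Pq p ε q).ne_top
    refine ⟨1, 1, h1, h1, ?_⟩
    rw [LL_zero, map_one, map_one, mul_one, sub_self]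
    exact Ideal.zero_mem _
  add_mem' := by
    rintro m n ⟨s, s', hs, hs', h⟩ ⟨t, t', ht, ht', h'⟩
    refine ⟨s * t, s' * t', fun h0 => ?_, fun h0 => ?_, ?_⟩
    · exact ((isPrime_Pq p ε q).mem_or_mem h0).elim hs ht
    · exact ((isPrime_Pq p ε q).mem_or_mem h0).elim hs' ht'
    · have e1 : val p ε (s * t) * C (LL (m + n)) - val p ε (s' * t') =
          (val p ε s * C (LL m) - val p ε s') * (val p ε t * C (LL n)) +
            val p ε s' * (val p ε t * C (LL n) - val p ε t') := by
        rw [LL_add, map_mul, map_mul, map_mul]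
        ring
      rw [e1]
      exact Ideal.add_mem _ (Ideal.mul_mem_right _ _ h) (Ideal.mul_mem_left _ _ h')
  neg_mem' := by
    rintro n ⟨s, s', hs, hs', h⟩
    refine ⟨s', s, hs', hs, ?_⟩
    have e1 : val p ε s' * C (LL (-n)) - val p ε s =
        - C (LL (-n)) * (val p ε s * C (LL n) - val p ε s') := by
      have e2 : (C (LL (-n)) * C (LL n) : TZ κ) = 1 := by
        rw [← map_mul, ← LL_add, neg_add_cancel, LL_zero, map_one]
      calc val p ε s' * C (LL (-n)) - val p ε s
          = val p ε s' * C (LL (-n)) - val p ε s * (C (LL (-n)) * C (LL n)) := by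
            rw [e2, mul_one]
        _ = _ := by ring
    rw [e1]
    exact Ideal.mul_mem_left _ _ h

variable {p ε q}

lemma mem_shifts [Finite κ] [q.IsPrime] {k : κ} (hk : X k ∉ q) {j : ι}
    (hj : ε j = some (some k)) : (p k : ℤ) ∈ shifts p ε q := by
  refine ⟨X (0, j), X (1, j), ?_, ?_, ?_⟩
  · rw [X_mem_Pq_iff p ε q 0 hj]
    exact hk
  · rw [X_mem_Pq_iff p ε q 1 hj]
    exact hk
  · rw [val_X, val_X, hj]
    show C (LL (((0 : Fin 2) : ℕ) * p k)) * X k * C (LL (p k)) -
      C (LL (((1 : Fin 2) : ℕ) * p k)) * X k ∈ ext AL q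
    have e1 : (((0 : Fin 2) : ℕ) : ℤ) * (p k : ℤ) = 0 := by simp
    have e2 : (((1 : Fin 2) : ℕ) : ℤ) * (p k : ℤ) = p k := by simp
    rw [e1, e2, LL_zero, map_one, one_mul, mul_comm, sub_self]
    exact Ideal.zero_mem _

variable {h : ℕ}

/-- **Generation** -/
theorem gener [Finite κ] [q.IsPrime] (hε : ∀ o : Option κ, ∃ j, ε j = some o) (hh : h ≠ 0)
    (hcl : (h : ℤ) ∈ AddSubgroup.closure {n : ℤ | ∃ k, X k ∉ q ∧ n = p k}) (y : TZ κ) :
    ∃ s ∉ Pq p ε q, ∃ r : Fin h → Coord ι 2,
      val p ε s * y - ∑ i, val p ε (r i) * C (LL (i : ℕ)) ∈ ext AL q := by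
  have hprime := isPrime_Pq p ε q
  have hone : (1 : Coord ι 2) ∉ Pq p ε q := by
    rw [← Ideal.ne_top_iff_one]
    exact hprime.ne_top
  let G : TZ κ → Prop := fun y => ∃ s ∉ Pq p ε q, ∃ r : Fin h → Coord ι 2,
    val p ε s * y - ∑ i, val p ε (r i) * C (LL (i : ℕ)) ∈ ext AL q
  have hadd : ∀ y z, G y → G z → G (y + z) := by
    rintro y z ⟨s, hs, r, hr⟩ ⟨s', hs', r', hr'⟩
    refine ⟨s * s', fun h0 => (hprime.mem_or_mem h0).elim hs hs', fun i => s' * r i + s * r' i, ?_⟩
    have e1 : val p ε (s * s') * (y + z) - ∑ i, val p ε (s' * r i + s * r' i) * C (LL (i : ℕ)) =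
        val p ε s' * (val p ε s * y - ∑ i, val p ε (r i) * C (LL (i : ℕ))) +
        val p ε s * (val p ε s' * z - ∑ i, val p ε (r' i) * C (LL (i : ℕ))) := by
      have e2 : ∑ i : Fin h, val p ε (s' * r i + s * r' i) * C (LL (i : ℕ)) =
          val p ε s' * ∑ i, val p ε (r i) * C (LL (i : ℕ)) +
          val p ε s * ∑ i, val p ε (r' i) * C (LL (i : ℕ)) := by
        rw [Finset.mul_sum, Finset.mul_sum, ← Finset.sum_add_distrib]
        refine Finset.sum_congr rfl fun i _ => ?_
        rw [map_add, map_mul, map_mul]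
        ring
      rw [e2, map_mul]
      ring
    rw [e1]
    exact Ideal.add_mem _ (Ideal.mul_mem_left _ _ hr) (Ideal.mul_mem_left _ _ hr')
  have hmul : ∀ (t : Coord ι 2) (y), G y → G (val p ε t * y) := by
    rintro t y ⟨s, hs, r, hr⟩
    refine ⟨s, hs, fun i => t * r i, ?_⟩
    have e1 : val p ε s * (val p ε t * y) - ∑ i, val p ε (t * r i) * C (LL (i : ℕ)) =
        val p ε t * (val p ε s * y - ∑ i, val p ε (r i) * C (LL (i : ℕ))) := by
      have e2 : ∑ i : Fin h, val p ε (t * r i) * C (LL (i : ℕ)) =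
          val p ε t * ∑ i, val p ε (r i) * C (LL (i : ℕ)) := by
        rw [Finset.mul_sum]
        refine Finset.sum_congr rfl fun i _ => ?_
        rw [map_mul]
        ring
      rw [e2]
      ring
    rw [e1]
    exact Ideal.mul_mem_left _ _ hr
  have hL : ∀ n : ℤ, G (C (LL n)) := by
    intro n
    have h1 : (h : ℤ) * (n / h) ∈ shifts p ε q := by
      have h2 : (h : ℤ) ∈ shifts p ε q := by
        refine (AddSubgroup.closure_le _).mpr ?_ hcl
        rintro m ⟨k, hk, rfl⟩
        obtain ⟨j, hj⟩ := hε (some k)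
        exact mem_shifts hk hj
      rw [mul_comm, ← smul_eq_mul]
      exact AddSubgroup.zsmul_mem _ h2 _
    obtain ⟨s, s', hs, -, h2⟩ := h1
    have h0 : (0 : ℤ) < h := by exact_mod_cast Nat.pos_of_ne_zero hh
    have h3 := Int.emod_nonneg n h0.ne'
    have h4 := Int.emod_lt_of_pos n h0
    obtain ⟨i, hi⟩ := Int.eq_ofNat_of_zero_le h3
    have hi' : i < h := by
      rw [hi] at h4
      exact_mod_cast h4
    classical
    refine ⟨s, hs, Pi.single ⟨i, hi'⟩ s', ?_⟩
    rw [Finset.sum_eq_single (⟨i, hi'⟩ : Fin h)]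
    · rw [Pi.single_eq_same]
      have e1 : n = h * (n / h) + (i : ℕ) := by
        rw [← hi]
        exact (Int.mul_ediv_add_emod n h).symm
      have e2 : val p ε s * C (LL n) - val p ε s' * C (LL (i : ℕ)) =
          (val p ε s * C (LL (h * (n / h))) - val p ε s') * C (LL (i : ℕ)) := by
        conv_lhs => rw [e1, LL_add, map_mul]
        ring
      show val p ε s * C (LL n) - val p ε s' * C (LL (i : ℕ)) ∈ ext AL q
      rw [e2]
      exact Ideal.mul_mem_right _ _ h2
    · intro j _ hj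
      rw [Pi.single_eq_of_ne hj, map_zero, zero_mul]
    · intro h5
      exact absurd (Finset.mem_univ _) h5
  have hV : ∀ (b : MvPolynomial (Fin 2) ℂ) (n : ℤ), G (C (CC b * LL n)) := by
    intro b n
    induction b using MvPolynomial.induction_on with
    | C c =>
      have e1 : C (CC (C c) * LL n) = val p ε (C c) * C (LL n) := by
        rw [val_C, map_mul, ← algebraMap_AL, IsScalarTower.algebraMap_apply ℂ AL (TZ κ),
          MvPolynomial.algebraMap_eq]
      rw [e1]
      exact hmul _ _ (hL n)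
    | add a b ha hb =>
      rw [map_add, add_mul, map_add]
      exact hadd _ _ ha hb
    | mul_X b i hb =>
      obtain ⟨j, hj⟩ := hε none
      have e1 : C (CC (b * X i) * LL n) = val p ε (X (i, j)) * C (CC b * LL n) := by
        rw [val_X, hj]
        show _ = C (CC (X i)) * C (CC b * LL n)
        rw [← map_mul C, map_mul CC]
        congr 1
        ring
      rw [e1]
      exact hmul _ _ hb
  have hC : ∀ a : AL, G (C a) := by
    intro a
    refine AL_induction (M := fun a => G (C a)) a (fun x y hx hy => ?_) (fun n b => hV b n)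
    rw [map_add]
    exact hadd _ _ hx hy
  show G y
  induction y using MvPolynomial.induction_on with
  | C a => exact hC a
  | add a b ha hb => exact hadd _ _ ha hb
  | mul_X b k hb =>
    obtain ⟨j, hj⟩ := hε (some k)
    have e1 : b * X k = val p ε (X (0, j)) * b := by
      rw [val_X, hj]
      show _ = C (LL (((0 : Fin 2) : ℕ) * p k)) * X k * b
      have e1 : (((0 : Fin 2) : ℕ) : ℤ) * (p k : ℤ) = 0 := by simp
      rw [e1, LL_zero, map_one, one_mul, mul_comm]
    rw [e1]
    exact hmul _ _ hb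

/-- **The length of the prime modules** -/
theorem len_AL [Finite κ] [q.IsPrime] [Algebra (Coord ι 2) (TZ κ)]
    (hα : algebraMap (Coord ι 2) (TZ κ) = val p ε) (hε : ∀ o : Option κ, ∃ j, ε j = some o)
    (hh : h ≠ 0) (hd : ∀ k, X k ∉ q → h ∣ p k)
    (hcl : (h : ℤ) ∈ AddSubgroup.closure {n : ℤ | ∃ k, X k ∉ q ∧ n = p k}) :
    len (Pq p ε q) (TZ κ ⧸ ext AL q) = h := by
  classical
  let P := Pq p ε q
  let f1 : (Fin h → Coord ι 2) →ₗ[Coord ι 2] TZ κ :=
    { toFun := fun r => ∑ i, val p ε (r i) * C (LL (i : ℕ))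
      map_add' := by
        intro r r'
        rw [← Finset.sum_add_distrib]
        refine Finset.sum_congr rfl fun i _ => ?_
        rw [Pi.add_apply, map_add, add_mul]
      map_smul' := by
        intro s r
        rw [RingHom.id_apply, Finset.smul_sum]
        refine Finset.sum_congr rfl fun i _ => ?_
        rw [Pi.smul_apply, smul_eq_mul, map_mul, Algebra.smul_def, hα, mul_assoc] }
  let f0 : (Fin h → Coord ι 2) →ₗ[Coord ι 2] (TZ κ ⧸ ext AL q) :=
    ((Ideal.Quotient.mkₐ (Coord ι 2) (ext AL q)).toLinearMap).comp f1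
  have hker : LinearMap.ker f0 = Submodule.pi Set.univ (fun _ : Fin h => P) := by
    ext r
    rw [LinearMap.mem_ker, Submodule.mem_pi]
    have e1 : f0 r = 0 ↔ ∑ i, val p ε (r i) * C (LL (i : ℕ)) ∈ ext AL q :=
      Ideal.Quotient.eq_zero_iff_mem
    rw [e1]
    constructor
    · intro h1 i _
      exact indep ε hh hd r h1 i
    · intro h1
      exact Ideal.sum_mem _ fun i _ => Ideal.mul_mem_right _ _ (h1 i trivial)
  let f : ((Fin h → Coord ι 2) ⧸ Submodule.pi Set.univ (fun _ : Fin h => P)) →ₗ[Coord ι 2]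
      (TZ κ ⧸ ext AL q) := Submodule.liftQ _ f0 hker.ge
  have hf : Function.Injective f := by
    rw [← LinearMap.ker_eq_bot]
    exact Submodule.ker_liftQ_eq_bot _ _ _ hker.le
  have hcok : ∀ y : TZ κ ⧸ ext AL q, ∃ s ∉ P, s • y ∈ LinearMap.range f := by
    intro y
    obtain ⟨y, rfl⟩ := Ideal.Quotient.mk_surjective y
    obtain ⟨s, hs, r, hr⟩ := gener (ε := ε) hε hh hcl y
    refine ⟨s, hs, ⟨Submodule.Quotient.mk r, ?_⟩⟩
    show Ideal.Quotient.mk (ext AL q) (∑ i, val p ε (r i) * C (LL (i : ℕ))) =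
      s • Ideal.Quotient.mk (ext AL q) y
    have e1 : s • Ideal.Quotient.mk (ext AL q) y =
        Ideal.Quotient.mk (ext AL q) (val p ε s * y) := by
      rw [← hα, ← Algebra.smul_def]
      rfl
    rw [e1]
    exact (Ideal.Quotient.eq.mpr hr).symm
  rw [len_of_torsion_coker P f hf hcok, len_equiv P (Submodule.quotientPi (fun _ : Fin h => P)),
    len_pi, len_prime_self, mul_one]

end Pool.Agent.RCH.MZ
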