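import Pool.Agent.RCH.Mn8
import Pool.Agent.RCH.MZC

/-!
# The module of the pairs of points with the same `(s, t, y)` and `A = B = 0`
-/

set_option autoImplicit false

open MvPolynomial

namespace Pool.Agent.RCH.MZ

section lift

variable {B : Type} [CommRing B]

/-- a homomorphism from the ring `AL` -/
noncomputable def liftA (f : MvPolynomial (Fin 2) ℂ →+* B) (u : Multiplicative ℤ →* B) :
    AL →+* B :=
  AddMonoidAlgebra.liftNCRingHom f u (fun _ _ => Commute.all _ _)

lemma liftA_CC (f : MvPolynomial (Fin 2) ℂ →+* B) (u : Multiplicative ℤ →* B)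
    (a : MvPolynomial (Fin 2) ℂ) : liftA f u (CC a) = f a := by
  have h : liftA f u (CC a) = f a * u (Multiplicative.ofAdd 0) :=
    AddMonoidAlgebra.liftNC_single (f : MvPolynomial (Fin 2) ℂ →+ B) u 0 a
  rw [h, ofAdd_zero, map_one, mul_one]

lemma liftA_LL (f : MvPolynomial (Fin 2) ℂ →+* B) (u : Multiplicative ℤ →* B) (n : ℤ) :
    liftA f u (LL n) = u (Multiplicative.ofAdd n) := by
  have h : liftA f u (LL n) = f 1 * u (Multiplicative.ofAdd n) :=
    AddMonoidAlgebra.liftNC_single (f : MvPolynomial (Fin 2) ℂ →+ B) u n 1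
  rw [h, map_one, one_mul]

open Pool.Agent.RCH.Mn

variable {wt : Fin 5 → ℕ} {J : Ideal R7}

/-- the constants -/
noncomputable def cJ (wt : Fin 5 → ℕ) (J : Ideal R7) : (R7 ⧸ J) →+* Lam wt J :=
  (LaurentPolynomial.C : (R7 ⧸ J) →+* LaurentPolynomial (R7 ⧸ J))

/-- the powers of `T` -/
noncomputable def TJ (wt : Fin 5 → ℕ) (J : Ideal R7) (n : ℤ) : Lam wt J :=
  (LaurentPolynomial.T n : LaurentPolynomial (R7 ⧸ J))

lemma TJ_zero : TJ wt J 0 = 1 := LaurentPolynomial.T_zero

lemma TJ_add (m n : ℤ) : TJ wt J (m + n) = TJ wt J m * TJ wt J n := LaurentPolynomial.T_add m n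

/-- a homomorphism from the ring of Laurent polynomials -/
noncomputable def liftJ (wt : Fin 5 → ℕ) (f : (R7 ⧸ J) →+* B) (u : Multiplicative ℤ →* B) :
    Lam wt J →+* B :=
  AddMonoidAlgebra.liftNCRingHom f u (fun _ _ => Commute.all _ _)

lemma liftJ_cJ (f : (R7 ⧸ J) →+* B) (u : Multiplicative ℤ →* B) (a : R7 ⧸ J) :
    liftJ wt f u (cJ wt J a) = f a := by
  have h : liftJ wt f u (cJ wt J a) = f a * u (Multiplicative.ofAdd 0) :=
    AddMonoidAlgebra.liftNC_single (f : (R7 ⧸ J) →+ B) u 0 a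
  rw [h, ofAdd_zero, map_one, mul_one]

lemma liftJ_TJ (f : (R7 ⧸ J) →+* B) (u : Multiplicative ℤ →* B) (n : ℤ) :
    liftJ wt f u (TJ wt J n) = u (Multiplicative.ofAdd n) := by
  have h : liftJ wt f u (TJ wt J n) = f 1 * u (Multiplicative.ofAdd n) :=
    AddMonoidAlgebra.liftNC_single (f : (R7 ⧸ J) →+ B) u n 1
  rw [h, map_one, one_mul]

theorem LJ_induction {M : Lam wt J → Prop} (a : Lam wt J) (h_add : ∀ x y, M x → M y → M (x + y))
    (h : ∀ (n : ℤ) (b : R7 ⧸ J), M (cJ wt J b * TJ wt J n)) : M a :=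
  LaurentPolynomial.induction_on' (motive := M) a h_add h

/-- the structure homomorphism, as a ring homomorphism -/
noncomputable def phJ (wt : Fin 5 → ℕ) (J : Ideal R7) : Coord (Fin 5) 2 →+* Lam wt J :=
  (phi wt J).toRingHom

lemma phJ_C (c : ℂ) : phJ wt J (C c) = cJ wt J (Ideal.Quotient.mk J (C c)) :=
  (phi wt J).commutes c

lemma phJ_X0 (j : Fin 5) : phJ wt J (X (0, j)) = cJ wt J (Ideal.Quotient.mk J (al j)) := by
  show phi wt J (X (0, j)) = _
  rw [phi, aeval_X, if_pos rfl]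
  rfl

lemma phJ_X1 (j : Fin 5) : phJ wt J (X (1, j)) =
    cJ wt J (Ideal.Quotient.mk J (be j)) * TJ wt J (wt j) := by
  show phi wt J (X (1, j)) = _
  rw [phi, aeval_X, if_neg (show ¬ (1 : Fin 2) = 0 by decide)]
  rfl

lemma smul_Lam (s : Coord (Fin 5) 2) (y : Lam wt J) : s • y = phJ wt J s * y := rfl

end lift

section bridge

open Pool.Agent.RCH.Mn

variable (S : MD)

/-- the weights of `s, t, y` -/
def p3 : Fin 3 → ℕ := ![S.p, S.q, S.r]

/-- the coordinates -/
def e5 : Fin 5 → Option (Option (Fin 3)) :=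
  ![some none, some (some 0), some (some 1), none, some (some 2)]

/-- the ideal of `A`, `B` -/
noncomputable def J0 : Ideal (MvPolynomial (Fin 3) ℂ) := Ideal.span {S.A, S.B}

/-- the target -/
abbrev LJ : Type := Lam S.wt S.JZ

/-- the class of a polynomial -/
noncomputable def cc : R7 →+* LJ S :=
  (cJ S.wt S.JZ).comp (Ideal.Quotient.mk S.JZ)

/-- the powers of `T` -/
noncomputable def uT : Multiplicative ℤ →* LJ S where
  toFun n := TJ S.wt S.JZ (Multiplicative.toAdd n)
  map_one' := TJ_zero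
  map_mul' a b := by rw [toAdd_mul, TJ_add]

/-- the polynomials in `v`, `v'` -/
noncomputable def gv : MvPolynomial (Fin 2) ℂ →+* LJ S :=
  eval₂Hom ((cc S).comp C) ![cc S (X 0), cc S (X 1) * TJ S.wt S.JZ (S.N : ℤ)]

/-- the coefficients -/
noncomputable def gA : AL →+* LJ S := liftA (gv S) (uT S)

lemma gA_CC (b : MvPolynomial (Fin 2) ℂ) : gA S (CC b) = gv S b := liftA_CC _ _ _

lemma gA_LL (n : ℤ) : gA S (LL n) = TJ S.wt S.JZ n := liftA_LL _ _ _

/-- the homomorphism to the Laurent polynomials -/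
noncomputable def gg : TZ (Fin 3) →+* LJ S :=
  eval₂Hom (gA S) (fun k => cc S (X (![2, 3, 5] k)))

lemma gg_C (a : AL) : gg S (C a) = gA S a := by rw [gg, eval₂Hom_C]

lemma gg_X (k : Fin 3) : gg S (X k) = cc S (X (![2, 3, 5] k)) := by rw [gg, eval₂Hom_X']

lemma gg_map (f : MvPolynomial (Fin 3) ℂ) :
    gg S (map (algebraMap ℂ AL) f) = cc S (rename ![2, 3, 5] f) := by
  suffices h : (gg S).comp (map (algebraMap ℂ AL)) =
      (cc S).comp (rename (R := ℂ) (![2, 3, 5] : Fin 3 → Fin 7)).toRingHom from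
    RingHom.congr_fun h f
  apply MvPolynomial.ringHom_ext
  · intro c
    rw [RingHom.comp_apply, map_C, gg_C, algebraMap_AL, gA_CC, gv, eval₂Hom_C]
    rw [RingHom.comp_apply, RingHom.comp_apply]
    congr 1
    exact (rename_C _ _).symm
  · intro k
    rw [RingHom.comp_apply, map_X, gg_X, RingHom.comp_apply]
    congr 1
    exact (rename_X _ _).symm

lemma cc_eq_zero {f : R7} (h : f ∈ S.JZ) : cc S f = 0 := by
  rw [cc, RingHom.comp_apply, Ideal.Quotient.eq_zero_iff_mem.mpr h, map_zero]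

lemma cc_X4 : cc S (X 4) = 0 := cc_eq_zero S (Ideal.subset_span (by simp))

lemma cc_X6 : cc S (X 6) = cc S (X 5) := by
  have h : cc S (X 5 - X 6) = 0 := cc_eq_zero S (Ideal.subset_span (by simp))
  rw [map_sub, sub_eq_zero] at h
  exact h.symm

lemma gg_ext {y : TZ (Fin 3)} (hy : y ∈ ext AL (J0 S)) : gg S y = 0 := by
  have h1 : ext AL (J0 S) ≤ RingHom.ker (gg S) := by
    rw [ext, Ideal.map_le_iff_le_comap, J0, Ideal.span_le]
    rintro f (rfl | rfl)
    · show gg S (map (algebraMap ℂ AL) S.A) = 0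
      rw [gg_map]
      exact cc_eq_zero S (Ideal.subset_span (by simp [MD.A7]))
    · show gg S (map (algebraMap ℂ AL) S.B) = 0
      rw [gg_map]
      exact cc_eq_zero S (Ideal.subset_span (by simp [MD.B7]))
  exact h1 hy

/-- the structure homomorphism -/
lemma gg_val (s : Coord (Fin 5) 2) : gg S (val (p3 S) e5 s) = phJ S.wt S.JZ s := by
  suffices h : (gg S).comp (val (p3 S) e5) = phJ S.wt S.JZ from RingHom.congr_fun h s
  apply MvPolynomial.ringHom_ext
  · intro c
    rw [RingHom.comp_apply, val_C, IsScalarTower.algebraMap_apply ℂ AL (TZ (Fin 3)),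
      MvPolynomial.algebraMap_eq, gg_C, algebraMap_AL, gA_CC, gv, eval₂Hom_C, phJ_C]
    rfl
  · rintro ⟨i, j⟩
    rw [RingHom.comp_apply, val_X]
    have hA : ∀ (n : ℤ) (k : Fin 3), gg S (C (LL n) * X k) =
        cc S (X (![2, 3, 5] k)) * TJ S.wt S.JZ n := by
      intro n k
      rw [map_mul, gg_C, gA_LL, gg_X, mul_comm]
    fin_cases i
    · show gg S (valc (p3 S) 0 (e5 j)) = phJ S.wt S.JZ (X (0, j))
      rw [phJ_X0]
      fin_cases j
      · show gg S (C (CC (X 0))) = cc S (X 0)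
        rw [gg_C, gA_CC, gv, eval₂Hom_X']
        rfl
      · show gg S (C (LL (((0 : Fin 2) : ℕ) * S.p)) * X 0) = cc S (X 2)
        rw [hA]
        simp [TJ_zero]
      · show gg S (C (LL (((0 : Fin 2) : ℕ) * S.q)) * X 1) = cc S (X 3)
        rw [hA]
        simp [TJ_zero]
      · show gg S 0 = cc S (X 4)
        rw [map_zero, cc_X4]
      · show gg S (C (LL (((0 : Fin 2) : ℕ) * S.r)) * X 2) = cc S (X 5)
        rw [hA]
        simp [TJ_zero]
    · show gg S (valc (p3 S) 1 (e5 j)) = phJ S.wt S.JZ (X (1, j))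
      rw [phJ_X1]
      fin_cases j
      · show gg S (C (CC (X 1))) = cc S (X 1) * TJ S.wt S.JZ (S.N : ℤ)
        rw [gg_C, gA_CC, gv, eval₂Hom_X']
        rfl
      · show gg S (C (LL (((1 : Fin 2) : ℕ) * S.p)) * X 0) =
          cc S (X 2) * TJ S.wt S.JZ (S.p : ℤ)
        rw [hA]
        simp
      · show gg S (C (LL (((1 : Fin 2) : ℕ) * S.q)) * X 1) =
          cc S (X 3) * TJ S.wt S.JZ (S.q : ℤ)
        rw [hA]
        simp
      · show gg S 0 = cc S (X 4) * TJ S.wt S.JZ (S.w : ℤ)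
        rw [map_zero, cc_X4, zero_mul]
      · show gg S (C (LL (((1 : Fin 2) : ℕ) * S.r)) * X 2) =
          cc S (X 6) * TJ S.wt S.JZ (S.r : ℤ)
        rw [hA, cc_X6]
        simp

/-- the inverse, on the polynomials -/
noncomputable def r0 : R7 →ₐ[ℂ] (TZ (Fin 3) ⧸ ext AL (J0 S)) :=
  aeval ![Ideal.Quotient.mk _ (C (CC (X 0))), Ideal.Quotient.mk _ (C (CC (X 1) * LL (-S.N))),
    Ideal.Quotient.mk _ (X 0), Ideal.Quotient.mk _ (X 1), 0, Ideal.Quotient.mk _ (X 2),
    Ideal.Quotient.mk _ (X 2)]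

lemma r0_rename (f : MvPolynomial (Fin 3) ℂ) :
    r0 S (rename ![2, 3, 5] f) = Ideal.Quotient.mk _ (map (algebraMap ℂ AL) f) := by
  suffices h : (r0 S).toRingHom.comp (rename (R := ℂ) (![2, 3, 5] : Fin 3 → Fin 7)).toRingHom =
      (Ideal.Quotient.mk _).comp (map (algebraMap ℂ AL)) from RingHom.congr_fun h f
  apply MvPolynomial.ringHom_ext
  · intro c
    show r0 S (rename (![2, 3, 5] : Fin 3 → Fin 7) (C c)) =
      Ideal.Quotient.mk _ (map (algebraMap ℂ AL) (C c))
    rw [rename_C, map_C]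
    exact (r0 S).commutes c
  · intro k
    show r0 S (rename (![2, 3, 5] : Fin 3 → Fin 7) (X k)) =
      Ideal.Quotient.mk _ (map (algebraMap ℂ AL) (X k))
    rw [rename_X, map_X, r0, aeval_X]
    fin_cases k <;> rfl

lemma r0_JZ {f : R7} (h : f ∈ S.JZ) : r0 S f = 0 := by
  have h1 : S.JZ ≤ RingHom.ker (r0 S) := by
    rw [MD.JZ, Ideal.span_le]
    rintro f (rfl | rfl | rfl | rfl)
    · show r0 S (X 4) = 0
      rw [r0, aeval_X]
      rfl
    · show r0 S (X 5 - X 6) = 0
      rw [map_sub, r0, aeval_X, aeval_X]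
      exact sub_self _
    · show r0 S (rename ![2, 3, 5] S.A) = 0
      rw [r0_rename, Ideal.Quotient.eq_zero_iff_mem]
      exact Ideal.mem_map_of_mem _ (Ideal.subset_span (by simp))
    · show r0 S (rename ![2, 3, 5] S.B) = 0
      rw [r0_rename, Ideal.Quotient.eq_zero_iff_mem]
      exact Ideal.mem_map_of_mem _ (Ideal.subset_span (by simp))
  exact h1 h

/-- the powers of `L` modulo the ideal -/
noncomputable def uL : Multiplicative ℤ →* (TZ (Fin 3) ⧸ ext AL (J0 S)) where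
  toFun n := Ideal.Quotient.mk _ (C (LL (Multiplicative.toAdd n)))
  map_one' := by
    show Ideal.Quotient.mk _ (C (LL 0)) = 1
    rw [LL_zero, map_one, map_one]
  map_mul' a b := by rw [toAdd_mul, LL_add, map_mul, map_mul]

/-- the inverse -/
noncomputable def rr : LJ S →+* (TZ (Fin 3) ⧸ ext AL (J0 S)) :=
  liftJ S.wt (Ideal.Quotient.lift S.JZ (r0 S).toRingHom (fun _ h => r0_JZ S h)) (uL S)

lemma rr_cc (f : R7) : rr S (cc S f) = r0 S f := by
  show rr S (cJ S.wt S.JZ (Ideal.Quotient.mk S.JZ f)) = r0 S f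
  rw [rr, liftJ_cJ, Ideal.Quotient.lift_mk]
  rfl

lemma rr_T (n : ℤ) : rr S (TJ S.wt S.JZ n) = Ideal.Quotient.mk _ (C (LL n)) := liftJ_TJ _ _ _

lemma rr_gg (y : TZ (Fin 3)) : rr S (gg S y) = Ideal.Quotient.mk _ y := by
  suffices h : (rr S).comp (gg S) = Ideal.Quotient.mk _ from RingHom.congr_fun h y
  apply MvPolynomial.ringHom_ext
  · intro a
    rw [RingHom.comp_apply, gg_C]
    refine AL_induction (M := fun a => rr S (gA S a) = Ideal.Quotient.mk _ (C a)) a ?_ ?_
    · intro x y hx hy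
      rw [map_add, map_add, map_add, map_add, hx, hy]
    · intro n b
      rw [map_mul, map_mul, gA_LL, gA_CC, rr_T, map_mul, map_mul]
      congr 1
      suffices h : (rr S).comp (gv S) = ((Ideal.Quotient.mk (ext AL (J0 S))).comp
          (C : AL →+* TZ (Fin 3))).comp CC from RingHom.congr_fun h b
      apply MvPolynomial.ringHom_ext
      · intro c
        rw [RingHom.comp_apply, gv, eval₂Hom_C, RingHom.comp_apply, rr_cc]
        exact (r0 S).commutes c
      · intro i
        rw [RingHom.comp_apply, gv, eval₂Hom_X']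
        fin_cases i
        · show rr S (cc S (X 0)) = _
          rw [rr_cc, r0, aeval_X]
          rfl
        · show rr S (cc S (X 1) * TJ S.wt S.JZ (S.N : ℤ)) = _
          rw [map_mul, rr_cc, rr_T, r0, aeval_X]
          show Ideal.Quotient.mk _ (C (CC (X 1) * LL (-S.N))) * Ideal.Quotient.mk _ (C (LL S.N)) =
            Ideal.Quotient.mk _ (C (CC (X 1)))
          rw [← map_mul, ← map_mul, mul_assoc, ← LL_add, neg_add_cancel, LL_zero, mul_one]
  · intro k
    rw [RingHom.comp_apply, gg_X, rr_cc, r0, aeval_X]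
    fin_cases k <;> rfl

lemma gg_surj : Function.Surjective (gg S) := by
  intro y
  have hT : ∀ n : ℤ, ∃ z, gg S z = TJ S.wt S.JZ n := fun n =>
    ⟨C (LL n), by rw [gg_C, gA_LL]⟩
  have hC : ∀ f : R7, cc S f ∈ (gg S).range := by
    intro f
    induction f using MvPolynomial.induction_on with
    | C c =>
      refine ⟨C (CC (C c)), ?_⟩
      rw [gg_C, gA_CC, gv, eval₂Hom_C]
      rfl
    | add a b ha hb =>
      rw [map_add]
      exact Subring.add_mem _ ha hb
    | mul_X a i ha =>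
      rw [map_mul]
      refine Subring.mul_mem _ ha ?_
      fin_cases i
      · refine ⟨C (CC (X 0)), ?_⟩
        rw [gg_C, gA_CC, gv, eval₂Hom_X']
        rfl
      · refine ⟨C (CC (X 1) * LL (-S.N)), ?_⟩
        rw [gg_C, map_mul, gA_CC, gA_LL, gv, eval₂Hom_X']
        show cc S (X 1) * TJ S.wt S.JZ (S.N : ℤ) * TJ S.wt S.JZ (-S.N) = cc S (X 1)
        rw [mul_assoc, ← TJ_add, add_neg_cancel, TJ_zero, mul_one]
      · exact ⟨X 0, gg_X S 0⟩
      · exact ⟨X 1, gg_X S 1⟩
      · exact ⟨0, by rw [map_zero]; exact (cc_X4 S).symm⟩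
      · exact ⟨X 2, gg_X S 2⟩
      · exact ⟨X 2, (gg_X S 2).trans (cc_X6 S).symm⟩
  suffices h : y ∈ (gg S).range from h
  refine LJ_induction (M := fun y => y ∈ (gg S).range) y (fun p q hp hq => Subring.add_mem _ hp hq)
    (fun n a => ?_)
  refine Subring.mul_mem _ ?_ (hT n)
  obtain ⟨f, rfl⟩ := Ideal.Quotient.mk_surjective a
  exact hC f

end bridge

end Pool.Agent.RCH.MZ
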