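import Pool.Agent.RCH.MZC

/-!
# The ring `ℂ[v][x]` modulo a homogeneous ideal
-/

set_option autoImplicit false

open MvPolynomial

namespace Pool.Agent.RCH.MZ

open Pool.Agent.RCH.Dg (Hom)

variable {ι κ : Type}

/-- the ring `ℂ[v][x]` -/
abbrev TN (κ : Type) : Type := MvPolynomial κ (Polynomial ℂ)

/-- the values of the coordinates -/
noncomputable def valc1 : Option (Option κ) → TN κ
  | none => 0
  | some none => C Polynomial.X
  | some (some k) => X k

/-- the homomorphism from the ring of the coordinates of a point -/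
noncomputable def val1 (ε : ι → Option (Option κ)) : Coord ι 1 →+* TN κ :=
  eval₂Hom (algebraMap ℂ (TN κ)) (fun v => valc1 (ε v.2))

section hom

variable (ε : ι → Option (Option κ))

lemma val1_X (i : Fin 1) (j : ι) : val1 ε (X (i, j)) = valc1 (ε j) := by
  rw [val1, eval₂Hom_X']

lemma val1_C (c : ℂ) : val1 ε (C c) = C (Polynomial.C c) := by
  rw [val1, eval₂Hom_C]
  rfl

theorem val1_surj {ε : ι → Option (Option κ)} (hε : ∀ o : Option κ, ∃ j, ε j = some o) :
    Function.Surjective (val1 ε) := by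
  have hX : (C (Polynomial.X : Polynomial ℂ) : TN κ) ∈ (val1 ε).range := by
    obtain ⟨j, hj⟩ := hε none
    exact ⟨X (0, j), by rw [val1_X, hj]; rfl⟩
  have hC : ∀ a : Polynomial ℂ, (C a : TN κ) ∈ (val1 ε).range := by
    intro a
    induction a using Polynomial.induction_on with
    | C c => exact ⟨C c, val1_C ε c⟩
    | add a b ha hb =>
      rw [map_add]
      exact Subring.add_mem _ ha hb
    | monomial n c h =>
      rw [pow_succ, ← mul_assoc, map_mul]
      exact Subring.mul_mem _ h hX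
  intro y
  suffices h : y ∈ (val1 ε).range from h
  induction y using MvPolynomial.induction_on with
  | C a => exact hC a
  | add a b ha hb => exact Subring.add_mem _ ha hb
  | mul_X a k ha =>
    obtain ⟨j, hj⟩ := hε (some k)
    refine Subring.mul_mem _ ha ⟨X (0, j), ?_⟩
    rw [val1_X, hj]
    rfl

/-- the elements with value in the ideal -/
noncomputable def Lq (q : Ideal (MvPolynomial κ ℂ)) : Ideal (Coord ι 1) :=
  (ext (Polynomial ℂ) q).comap (val1 ε)

variable {ε} {q : Ideal (MvPolynomial κ ℂ)}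

lemma mem_Lq {s : Coord ι 1} : s ∈ Lq ε q ↔ val1 ε s ∈ ext (Polynomial ℂ) q := Iff.rfl

instance isPrime_Lq [Finite κ] [q.IsPrime] : (Lq ε q).IsPrime := by
  have := isPrime_ext q (A := Polynomial ℂ)
  exact Ideal.comap_isPrime _ _

lemma Lq_mono {q q' : Ideal (MvPolynomial κ ℂ)} (h : q ≤ q') : Lq ε q ≤ Lq ε q' :=
  Ideal.comap_mono (ext_mono h)

/-- the polynomials in `x` as functions of the coordinates of the point `i` -/
lemma exists_rename (hε : ∀ o : Option κ, ∃ j, ε j = some o) (f : MvPolynomial κ ℂ) :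
    ∃ s : Coord ι 1, val1 ε s = map (algebraMap ℂ (Polynomial ℂ)) f :=
  val1_surj hε _

lemma le_of_Lq_le (hε : ∀ o : Option κ, ∃ j, ε j = some o) {q q' : Ideal (MvPolynomial κ ℂ)}
    (h : Lq ε q ≤ Lq ε q') : q ≤ q' := by
  intro f hf
  obtain ⟨s, hs⟩ := exists_rename hε f
  have h1 : s ∈ Lq ε q := by
    rw [mem_Lq, hs, map_mem_ext]
    exact hf
  have h2 := h h1
  rw [mem_Lq, hs, map_mem_ext] at h2
  exact h2

/-- the length of the modules is that of the cyclic module -/
theorem len_TN [Algebra (Coord ι 1) (TN κ)] (hα : algebraMap (Coord ι 1) (TN κ) = val1 ε)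
    (hε : ∀ o : Option κ, ∃ j, ε j = some o) (I : Ideal (MvPolynomial κ ℂ))
    (Q : Ideal (Coord ι 1)) [Q.IsPrime] :
    len Q (TN κ ⧸ ext (Polynomial ℂ) I) = len Q (Coord ι 1 ⧸ Lq ε I) := by
  let f0 : Coord ι 1 →ₗ[Coord ι 1] (TN κ ⧸ ext (Polynomial ℂ) I) :=
    Algebra.linearMap (Coord ι 1) (TN κ ⧸ ext (Polynomial ℂ) I)
  have h0 : ∀ s, f0 s = Ideal.Quotient.mk _ (val1 ε s) := by
    intro s
    rw [← hα]
    rfl
  have hker : LinearMap.ker f0 = Lq ε I := by
    ext s
    rw [LinearMap.mem_ker, h0, Ideal.Quotient.eq_zero_iff_mem]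
    rfl
  have hsurj : Function.Surjective f0 := by
    intro y
    obtain ⟨y, rfl⟩ := Ideal.Quotient.mk_surjective y
    obtain ⟨s, rfl⟩ := val1_surj hε y
    exact ⟨s, h0 s⟩
  have e1 := LinearMap.quotKerEquivOfSurjective f0 hsurj
  rw [hker] at e1
  exact (len_equiv Q e1).symm

theorem len_TN_self [Finite κ] [Algebra (Coord ι 1) (TN κ)]
    (hα : algebraMap (Coord ι 1) (TN κ) = val1 ε)
    (hε : ∀ o : Option κ, ∃ j, ε j = some o) [q.IsPrime] :
    len (Lq ε q) (TN κ ⧸ ext (Polynomial ℂ) q) = 1 := by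
  rw [len_TN hα hε, len_prime_self]

theorem len_TN_zero [Finite κ] [Algebra (Coord ι 1) (TN κ)]
    (hα : algebraMap (Coord ι 1) (TN κ) = val1 ε)
    (hε : ∀ o : Option κ, ∃ j, ε j = some o) {Q : Ideal (Coord ι 1)} [Q.IsPrime]
    (h : ¬ Lq ε q ≤ Q) : len Q (TN κ ⧸ ext (Polynomial ℂ) q) = 0 := by
  rw [len_TN hα hε, len_prime_zero Q h]

end hom

section two

variable {p : κ → ℕ} {ε : ι → Option (Option κ)} {q : Ideal (MvPolynomial κ ℂ)}

theorem len_AL_zero [Algebra (Coord ι 2) (TZ κ)]
    (hα : algebraMap (Coord ι 2) (TZ κ) = val p ε) {Q : Ideal (Coord ι 2)} [Q.IsPrime]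
    (h : ¬ Pq p ε q ≤ Q) : len Q (TZ κ ⧸ ext AL q) = 0 := by
  obtain ⟨s, hs, hsQ⟩ := SetLike.not_le_iff_exists.1 h
  refine len_of_torsion Q fun y => ⟨s, hsQ, ?_⟩
  obtain ⟨y, rfl⟩ := Ideal.Quotient.mk_surjective y
  have e1 : s • Ideal.Quotient.mk (ext AL q) y = Ideal.Quotient.mk (ext AL q) (val p ε s * y) := by
    rw [← hα, ← Algebra.smul_def]
    rfl
  rw [e1, Ideal.Quotient.eq_zero_iff_mem]
  exact Ideal.mul_mem_right _ _ hs

/-- the homomorphisms of the two factors -/
noncomputable def th (p : κ → ℕ) (i : Fin 2) : TN κ →+* TZ κ :=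
  eval₂Hom ((C : AL →+* TZ κ).comp (Polynomial.eval₂RingHom (algebraMap ℂ AL) (CC (X i))))
    (fun k => C (LL ((i : ℕ) * p k)) * X k)

lemma th_C (i : Fin 2) (a : Polynomial ℂ) :
    th p i (C a) = C (Polynomial.eval₂ (algebraMap ℂ AL) (CC (X i)) a) := by
  rw [th, eval₂Hom_C]
  rfl

lemma th_X (i : Fin 2) (k : κ) : th p i (X k) = C (LL ((i : ℕ) * p k)) * X k := by
  rw [th, eval₂Hom_X']

lemma val_prMap (i : Fin 2) (s : Coord ι 1) : val p ε (prMap ι 2 i s) = th p i (val1 ε s) := by
  suffices h : (val p ε).comp (prMap ι 2 i).toRingHom = (th p i).comp (val1 ε) from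
    RingHom.congr_fun h s
  apply MvPolynomial.ringHom_ext
  · intro c
    show val p ε (rename _ (C c)) = th p i (val1 ε (C c))
    rw [rename_C, val_C, val1_C, th_C, Polynomial.eval₂_C]
    rfl
  · rintro ⟨a, j⟩
    show val p ε (rename _ (X (a, j))) = th p i (val1 ε (X (a, j)))
    rw [rename_X, val_X, val1_X]
    rcases hj : ε j with _ | _ | k
    · show (0 : TZ κ) = th p i 0
      rw [map_zero]
    · show C (CC (X i)) = th p i (C Polynomial.X)
      rw [th_C, Polynomial.eval₂_X]
    · show C (LL ((i : ℕ) * p k)) * X k = th p i (X k)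
      rw [th_X]

/-- the scaling of a homogeneous polynomial -/
lemma th_map_hom (i : Fin 2) {f : MvPolynomial κ ℂ} {n : ℕ} (hf : IsWeightedHomogeneous p f n) :
    th p i (map (algebraMap ℂ (Polynomial ℂ)) f) =
      C (LL ((i : ℕ) * n)) * map (algebraMap ℂ AL) f := by
  classical
  rw [f.as_sum, map_sum, map_sum, map_sum, Finset.mul_sum]
  refine Finset.sum_congr rfl fun d hd => ?_
  have hd' : Finsupp.weight p d = n := hf (mem_support_iff.mp hd)
  rw [map_monomial, map_monomial, monomial_eq, monomial_eq, map_mul, th_C]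
  have e1 : Polynomial.eval₂ (algebraMap ℂ AL) (CC (X i)) (algebraMap ℂ (Polynomial ℂ) (coeff d f)) =
      algebraMap ℂ AL (coeff d f) := by
    show Polynomial.eval₂ (algebraMap ℂ AL) (CC (X i)) (Polynomial.C (coeff d f)) = _
    rw [Polynomial.eval₂_C]
  rw [e1]
  have e2 : th p i (d.prod fun k m => (X k : TN κ) ^ m) =
      C (LL ((i : ℕ) * n)) * d.prod fun k m => (X k : TZ κ) ^ m := by
    rw [Finsupp.prod, map_prod, Finsupp.prod]
    have e3 : ∀ k ∈ d.support, th p i ((X k : TN κ) ^ d k) =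
        C (LL ((i : ℕ) * (d k * p k : ℕ))) * (X k : TZ κ) ^ d k := by
      intro k _
      rw [map_pow, th_X, mul_pow, ← map_pow]
      congr 2
      have e4 : ∀ m : ℕ, LL ((i : ℕ) * p k) ^ m = LL ((i : ℕ) * (m * p k : ℕ)) := by
        intro m
        induction m with
        | zero => simp [LL_zero]
        | succ m ih =>
          rw [pow_succ, ih, ← LL_add]
          congr 1
          push_cast
          ring
      exact e4 _
    rw [Finset.prod_congr rfl e3, Finset.prod_mul_distrib]
    congr 1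
    rw [← map_prod]
    congr 1
    rw [← hd', Finsupp.weight_apply, Finsupp.sum]
    simp only [smul_eq_mul]
    clear e3 hd hd'
    have e4 : ∀ s : Finset κ, ∏ k ∈ s, LL ((i : ℕ) * (d k * p k : ℕ)) =
        LL ((i : ℕ) * (∑ k ∈ s, d k * p k : ℕ)) := by
      intro s
      induction s using Finset.induction_on with
      | empty => simp [LL_zero]
      | insert a s ha ih =>
        rw [Finset.prod_insert ha, Finset.sum_insert ha, ih, ← LL_add]
        congr 1
        push_cast
        ring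
    exact e4 _
  rw [e2]
  ring

/-- the scaling of the extension of a homogeneous ideal -/
lemma th_mem (i : Fin 2) (hq : Hom p q) {y : TN κ} (hy : y ∈ ext (Polynomial ℂ) q) :
    th p i y ∈ ext AL q := by
  classical
  have h1 : ext (Polynomial ℂ) q ≤ (ext AL q).comap (th p i) := by
    rw [ext, Ideal.map_le_iff_le_comap]
    intro f hf
    show th p i (map (algebraMap ℂ (Polynomial ℂ)) f) ∈ ext AL q
    have h2 := sum_weightedHomogeneousComponent p f
    rw [finsum_eq_sum _ (weightedHomogeneousComponent_finsupp f)] at h2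
    rw [← h2, map_sum, map_sum]
    refine Ideal.sum_mem _ fun n _ => ?_
    rw [th_map_hom i (weightedHomogeneousComponent_isWeightedHomogeneous n f)]
    exact Ideal.mul_mem_left _ _ (Ideal.mem_map_of_mem _ (hq f hf n))
  exact h1 hy

/-- the ideal of the product is contained in the annihilator -/
theorem prMap_mem_Pq (i : Fin 2) (hq : Hom p q) {s : Coord ι 1} (hs : s ∈ Lq ε q) :
    prMap ι 2 i s ∈ Pq p ε q := by
  rw [mem_Pq, val_prMap]
  exact th_mem i hq hs

/-- the points of the first factor in the annihilator -/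
theorem Lq_le_of_Pq_le (hε : ∀ o : Option κ, ∃ j, ε j = some o) {q' : Ideal (MvPolynomial κ ℂ)}
    (hq : Hom p q) (h : Pq p ε q ≤ Pq p ε q') : q ≤ q' := by
  intro f hf
  obtain ⟨s, hs⟩ := exists_rename hε f
  have h0 : th p 0 (map (algebraMap ℂ (Polynomial ℂ)) f) = map (algebraMap ℂ AL) f := by
    suffices h : (th p 0).comp (map (algebraMap ℂ (Polynomial ℂ))) = map (algebraMap ℂ AL) from
      RingHom.congr_fun h f
    apply MvPolynomial.ringHom_ext
    · intro c
      rw [RingHom.comp_apply, map_C, map_C, th_C]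
      show C (Polynomial.eval₂ (algebraMap ℂ AL) (CC (X 0)) (Polynomial.C c)) = _
      rw [Polynomial.eval₂_C]
    · intro k
      rw [RingHom.comp_apply, map_X, map_X, th_X]
      simp [LL_zero]
  have h1 : prMap ι 2 0 s ∈ Pq p ε q := by
    refine prMap_mem_Pq 0 hq ?_
    rw [mem_Lq, hs, map_mem_ext]
    exact hf
  have h2 := h h1
  rw [mem_Pq, val_prMap, hs, h0, map_mem_ext] at h2
  exact h2

end two

end Pool.Agent.RCH.MZ
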