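import Pool.Agent.RCH.MZD
import Pool.Agent.RCH.MZE
import Pool.Agent.RCH.MTd

/-!
# The curves `C_a` and the annihilators of the prime modules
-/

set_option autoImplicit false

open MvPolynomial

namespace Pool.Agent.RCH.MZ

open Pool.Agent.RCH.Dg (Hom)
open Pool.Agent.RCH.Mn

section lam

variable (S : MD)

/-- the length of the module, in the ring `ℂ[v, v'][L, 1 / L][s, t, y]` -/
theorem cl_JZ [Algebra (Coord (Fin 5) 2) (TZ (Fin 3))]
    (hα : algebraMap (Coord (Fin 5) 2) (TZ (Fin 3)) = val (p3 S) e5)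
    (Q : Ideal (Coord (Fin 5) 2)) [Q.IsPrime] :
    cl S.wt S.JZ Q = len Q (TZ (Fin 3) ⧸ ext AL (J0 S)) := by
  let f0 : TZ (Fin 3) →ₗ[Coord (Fin 5) 2] LJ S :=
    { toFun := gg S
      map_add' := fun x y => map_add _ _ _
      map_smul' := by
        intro s y
        rw [RingHom.id_apply, Algebra.smul_def, hα, map_mul, gg_val]
        rfl }
  have hker : LinearMap.ker f0 =
      Submodule.restrictScalars (Coord (Fin 5) 2) (ext AL (J0 S)) := by
    ext y
    rw [LinearMap.mem_ker]
    constructor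
    · intro h
      have h1 : gg S y = 0 := h
      have h2 := rr_gg S y
      rw [h1, map_zero] at h2
      exact Ideal.Quotient.eq_zero_iff_mem.mp h2.symm
    · intro h
      exact gg_ext S h
  have e1 := LinearMap.quotKerEquivOfSurjective f0 (gg_surj S)
  rw [hker] at e1
  exact (len_equiv Q e1).symm

end lam

section cone

variable (S : MD) {B : Type} [CommRing B] [Algebra ℂ B] (a : Fin 3 → ℂ) (b τ : B)

lemma hp3 (k : Fin 3) : 0 < p3 S k := by
  fin_cases k
  · exact S.hp
  · exact S.hq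
  · exact S.hr

/-- the values on the cone of a point -/
noncomputable def coneR : MvPolynomial (Fin 3) ℂ →ₐ[ℂ] B :=
  aeval (fun k => algebraMap ℂ B (a k) * τ ^ p3 S k)

lemma coneR_hom {f : MvPolynomial (Fin 3) ℂ} {n : ℕ} (hf : IsWeightedHomogeneous (p3 S) f n) :
    coneR S a τ f = algebraMap ℂ B (eval a f) * τ ^ n := by
  classical
  rw [coneR, aeval_def, eval₂_eq, eval_eq, map_sum, Finset.sum_mul]
  refine Finset.sum_congr rfl fun d hd => ?_
  have hd' : Finsupp.weight (p3 S) d = n := hf (mem_support_iff.mp hd)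
  rw [map_mul, mul_assoc]
  congr 1
  rw [map_prod, ← hd', Finsupp.weight_apply, Finsupp.sum, ← Finset.prod_pow_eq_pow_sum,
    ← Finset.prod_mul_distrib]
  refine Finset.prod_congr rfl fun k _ => ?_
  rw [mul_pow, map_pow, smul_eq_mul, mul_comm (d k), pow_mul]

variable {S a}

lemma coneR_mem {q : Ideal (MvPolynomial (Fin 3) ℂ)} (hq : Hom (p3 S) q)
    (ha : ∀ f ∈ q, eval a f = 0) {f : MvPolynomial (Fin 3) ℂ} (hf : f ∈ q) :
    coneR S a τ f = 0 := by
  have h2 := sum_weightedHomogeneousComponent (p3 S) f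
  rw [finsum_eq_sum _ (weightedHomogeneousComponent_finsupp f)] at h2
  rw [← h2, map_sum]
  refine Finset.sum_eq_zero fun n _ => ?_
  rw [coneR_hom S a τ (weightedHomogeneousComponent_isWeightedHomogeneous n f),
    ha _ (hq f hf n), map_zero, zero_mul]

variable (S a)

/-- the values on the cone of a point, with the coordinate `v` -/
noncomputable def coneN : TN (Fin 3) →+* B :=
  eval₂Hom (Polynomial.eval₂RingHom (algebraMap ℂ B) b) (fun k => algebraMap ℂ B (a k) * τ ^ p3 S k)

lemma coneN_C (f : Polynomial ℂ) : coneN S a b τ (C f) = Polynomial.eval₂ (algebraMap ℂ B) b f := by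
  rw [coneN, eval₂Hom_C]
  rfl

lemma coneN_X (k : Fin 3) : coneN S a b τ (X k) = algebraMap ℂ B (a k) * τ ^ p3 S k := by
  rw [coneN, eval₂Hom_X']

lemma coneN_map (f : MvPolynomial (Fin 3) ℂ) :
    coneN S a b τ (map (algebraMap ℂ (Polynomial ℂ)) f) = coneR S a τ f := by
  suffices h : (coneN S a b τ).comp (map (algebraMap ℂ (Polynomial ℂ))) =
      (coneR S a τ).toRingHom from RingHom.congr_fun h f
  apply MvPolynomial.ringHom_ext
  · intro c
    rw [RingHom.comp_apply, map_C, coneN_C]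
    show Polynomial.eval₂ (algebraMap ℂ B) b (Polynomial.C c) = coneR S a τ (C c)
    rw [Polynomial.eval₂_C]
    exact ((coneR S a τ).commutes c).symm
  · intro k
    rw [RingHom.comp_apply, map_X, coneN_X]
    show _ = coneR S a τ (X k)
    rw [coneR, aeval_X]

variable {S a}

lemma coneN_mem {q : Ideal (MvPolynomial (Fin 3) ℂ)} (hq : Hom (p3 S) q)
    (ha : ∀ f ∈ q, eval a f = 0) {y : TN (Fin 3)} (hy : y ∈ ext (Polynomial ℂ) q) :
    coneN S a b τ y = 0 := by
  have h1 : ext (Polynomial ℂ) q ≤ RingHom.ker (coneN S a b τ) := by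
    rw [ext, Ideal.map_le_iff_le_comap]
    intro f hf
    show coneN S a b τ (map (algebraMap ℂ (Polynomial ℂ)) f) = 0
    rw [coneN_map]
    exact coneR_mem τ hq ha hf
  exact h1 hy

variable (S a)

lemma coneHom_eq (s : Coord (Fin 5) 1) :
    S.coneHom a s = coneN S a (X 0) (X 1) (val1 e5 s) := by
  suffices h : (S.coneHom a).toRingHom =
      (coneN S a (X 0 : MvPolynomial (Fin 2) ℂ) (X 1)).comp (val1 e5) from RingHom.congr_fun h s
  apply MvPolynomial.ringHom_ext
  · intro c
    rw [RingHom.comp_apply, val1_C, coneN_C, Polynomial.eval₂_C]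
    exact (S.coneHom a).commutes c
  · rintro ⟨i, j⟩
    rw [RingHom.comp_apply, val1_X]
    show S.coneHom a (X (i, j)) = _
    rw [MD.coneHom, aeval_X]
    fin_cases j
    · show X 0 = coneN S a (X 0) (X 1) (C Polynomial.X)
      rw [coneN_C, Polynomial.eval₂_X]
    · show C (a 0) * X 1 ^ S.p = coneN S a (X 0) (X 1) (X 0)
      rw [coneN_X]
      rfl
    · show C (a 1) * X 1 ^ S.q = coneN S a (X 0) (X 1) (X 1)
      rw [coneN_X]
      rfl
    · show 0 = coneN S a (X 0) (X 1) 0
      rw [map_zero]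
    · show C (a 2) * X 1 ^ S.r = coneN S a (X 0) (X 1) (X 2)
      rw [coneN_X]
      rfl

/-- the ideal of the curve is contained in that of `C_a` -/
theorem Lq_le_cone {q : Ideal (MvPolynomial (Fin 3) ℂ)} (hq : Hom (p3 S) q)
    (ha : ∀ f ∈ q, eval a f = 0) : Lq e5 q ≤ RingHom.ker (S.coneHom a) := by
  intro s hs
  rw [RingHom.mem_ker, coneHom_eq]
  exact coneN_mem _ _ hq ha hs

/-- the coordinates of the generic point of `C_a` -/
noncomputable def cd (v : Fin 1 × Fin 5) : Polynomial ℂ :=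
  ![Polynomial.X, Polynomial.C (a 0), Polynomial.C (a 1), 0, Polynomial.C (a 2)] v.2

/-- the value of `F` -/
lemma aeval_F {B : Type} [CommRing B] [Algebra ℂ B] (b : B) (c : Fin 3 → B) :
    aeval ![b, c 0, c 1, 0, c 2] S.F = b ^ S.e * aeval c S.A + aeval c S.B := by
  obtain ⟨g, hg⟩ := Ideal.mem_span_singleton'.mp S.shape
  have h1 := congrArg (aeval (R := ℂ) ![b, c 0, c 1, 0, c 2]) hg
  rw [map_mul, aeval_X, map_sub, map_add, map_mul, map_pow, aeval_X, aeval_rename,
    aeval_rename] at h1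
  have h2 : (![b, c 0, c 1, 0, c 2] : Fin 5 → B) ∘ (![1, 2, 4] : Fin 3 → Fin 5) = c := by
    funext k
    fin_cases k <;> rfl
  rw [h2] at h1
  have h3 : aeval (R := ℂ) ![b, c 0, c 1, 0, c 2] g * (![b, c 0, c 1, 0, c 2] : Fin 5 → B) 3 = 0 :=
    mul_zero _
  rw [h3] at h1
  exact (sub_eq_zero.mp h1.symm)

/-- the embedding of the coordinate ring of the cone -/
noncomputable def jj : MvPolynomial (Fin 2) ℂ →ₐ[ℂ] MvPolynomial (Fin 1) (Polynomial ℂ) :=
  aeval ![C Polynomial.X * X 0 ^ S.N, X 0]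

lemma jj_inj : Function.Injective (jj S) := by
  let K := FractionRing (MvPolynomial (Fin 2) ℂ)
  let x0 : K := algebraMap (MvPolynomial (Fin 2) ℂ) K (X 0)
  let x1 : K := algebraMap (MvPolynomial (Fin 2) ℂ) K (X 1)
  have hx1 : x1 ≠ 0 := by
    have h := (IsFractionRing.injective (MvPolynomial (Fin 2) ℂ) K).ne (X_ne_zero (R := ℂ) (1 : Fin 2))
    rwa [map_zero] at h
  let ρ : MvPolynomial (Fin 1) (Polynomial ℂ) →+* K :=
    eval₂Hom (Polynomial.eval₂RingHom (algebraMap ℂ K) (x0 / x1 ^ S.N)) (fun _ => x1)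
  have h1 : ρ.comp (jj S).toRingHom = algebraMap (MvPolynomial (Fin 2) ℂ) K := by
    apply MvPolynomial.ringHom_ext
    · intro c
      show ρ (jj S (C c)) = _
      have e1 : jj S (C c) = C (Polynomial.C c) := (jj S).commutes c
      rw [e1]
      show eval₂Hom _ _ (C (Polynomial.C c)) = _
      rw [eval₂Hom_C]
      show Polynomial.eval₂ (algebraMap ℂ K) _ (Polynomial.C c) = _
      rw [Polynomial.eval₂_C]
      rfl
    · intro i
      show ρ (jj S (X i)) = _
      rw [jj, aeval_X]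
      fin_cases i
      · show ρ (C Polynomial.X * X 0 ^ S.N) = x0
        rw [map_mul, map_pow]
        show eval₂Hom _ _ (C Polynomial.X) * (eval₂Hom _ _ (X 0)) ^ S.N = x0
        rw [eval₂Hom_C, eval₂Hom_X']
        show Polynomial.eval₂ (algebraMap ℂ K) _ Polynomial.X * _ = x0
        rw [Polynomial.eval₂_X]
        exact div_mul_cancel₀ _ (pow_ne_zero _ hx1)
      · show eval₂Hom _ _ (X 0) = x1
        rw [eval₂Hom_X']
  intro x y hxy
  apply IsFractionRing.injective (MvPolynomial (Fin 2) ℂ) K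
  rw [← h1]
  show ρ (jj S x) = ρ (jj S y)
  rw [hxy]

lemma genHom_cd (s : Coord (Fin 5) 1) : genHom S.V (cd a) s = jj S (S.coneHom a s) := by
  suffices h : genHom S.V (cd a) = (jj S).comp (S.coneHom a) from AlgHom.congr_fun h s
  apply MvPolynomial.algHom_ext
  rintro ⟨i, j⟩
  have hi : i = 0 := Subsingleton.elim _ _
  subst hi
  rw [AlgHom.comp_apply, MD.coneHom, aeval_X, genHom, aeval_X]
  fin_cases j
  · show C Polynomial.X * X 0 ^ S.N = jj S (X 0)
    rw [jj, aeval_X]
    rfl
  · show C (Polynomial.C (a 0)) * X 0 ^ S.p = jj S (C (a 0) * X 1 ^ S.p)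
    rw [map_mul, map_pow, jj, aeval_X, aeval_C]
    rfl
  · show C (Polynomial.C (a 1)) * X 0 ^ S.q = jj S (C (a 1) * X 1 ^ S.q)
    rw [map_mul, map_pow, jj, aeval_X, aeval_C]
    rfl
  · show C (0 : Polynomial ℂ) * X 0 ^ S.w = jj S 0
    rw [map_zero, zero_mul, map_zero]
  · show C (Polynomial.C (a 2)) * X 0 ^ S.r = jj S (C (a 2) * X 1 ^ S.r)
    rw [map_mul, map_pow, jj, aeval_X, aeval_C]
    rfl

/-- **The curve `C_a` is a point of `X`.** -/
theorem exists_cone {a : Fin 3 → ℂ} (hA : eval a S.A = 0) (hB : eval a S.B = 0) :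
    ∃ C : Pt S.V 1, C.I = RingHom.ker (S.coneHom a) := by
  refine ⟨mkPt S.V (cd a) (fun i => ⟨0, ?_⟩) ?_, ?_⟩
  · exact Polynomial.X_ne_zero
  · intro i f hf
    obtain ⟨g, rfl⟩ := Ideal.mem_span_singleton'.mp hf
    rw [map_mul]
    refine Ideal.mul_mem_left _ _ ?_
    rw [mem_genIdeal_of_homogeneous S.V (cd a) (inFactor_homogeneous S.V i S.hF), inFactor_aeval]
    have h1 := aeval_F S (Polynomial.X : Polynomial ℂ) (fun k => Polynomial.C (a k))
    have h2 : ∀ f : MvPolynomial (Fin 3) ℂ, aeval (fun k => Polynomial.C (a k)) f =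
        Polynomial.C (eval a f) := by
      intro f
      have h3 := MvPolynomial.aeval_algebraMap_apply (R := ℂ) (A := ℂ) (B := Polynomial ℂ) a f
      exact h3
    rw [h2, h2, hA, hB, map_zero, mul_zero, add_zero] at h1
    exact h1
  · ext s
    show s ∈ genIdeal S.V (cd a) ↔ _
    rw [genIdeal, RingHom.mem_ker, RingHom.mem_ker]
    have h1 := genHom_cd S a s
    constructor
    · intro h
      have h2 : genHom S.V (cd a) s = 0 := h
      rw [h1] at h2
      exact (map_eq_zero_iff _ (jj_inj S)).mp h2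
    · intro h
      show genHom S.V (cd a) s = 0
      rw [h1, h, map_zero]

end cone

end Pool.Agent.RCH.MZ
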