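import Pool.Agent.RCH.MZF

/-!
# The annihilators of the prime modules are the ideals of the squares of the curves
-/

set_option autoImplicit false

open MvPolynomial

namespace Pool.Agent.RCH.MZ

open Pool.Agent.RCH.Dg (Hom td)
open Pool.Agent.RCH.Mn

lemma he5 (o : Option (Fin 3)) : ∃ j, e5 j = some o := by
  rcases o with _ | k
  · exact ⟨0, rfl⟩
  · fin_cases k
    · exact ⟨1, rfl⟩
    · exact ⟨2, rfl⟩
    · exact ⟨4, rfl⟩

variable (S : MD)

section sec

lemma val1_rename (f : MvPolynomial (Fin 3) ℂ) :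
    val1 e5 (rename ![((0 : Fin 1), (1 : Fin 5)), (0, 2), (0, 4)] f) =
      map (algebraMap ℂ (Polynomial ℂ)) f := by
  suffices h : (val1 e5).comp
      (rename (R := ℂ) (![((0 : Fin 1), (1 : Fin 5)), (0, 2), (0, 4)] : Fin 3 → _)).toRingHom =
      map (algebraMap ℂ (Polynomial ℂ)) from RingHom.congr_fun h f
  apply MvPolynomial.ringHom_ext
  · intro c
    show val1 e5 (rename _ (C c)) = map (algebraMap ℂ (Polynomial ℂ)) (C c)
    rw [rename_C, val1_C, map_C]
    rfl
  · intro k
    show val1 e5 (rename _ (X k)) = map (algebraMap ℂ (Polynomial ℂ)) (X k)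
    rw [rename_X, map_X]
    fin_cases k
    · show val1 e5 (X (0, 1)) = _
      rw [val1_X]
      rfl
    · show val1 e5 (X (0, 2)) = _
      rw [val1_X]
      rfl
    · show val1 e5 (X (0, 4)) = _
      rw [val1_X]
      rfl

/-- `F` modulo `ω`, as a function of the point -/
lemma F_sub_mem : inFactor 1 0 S.F - (X (0, 0) ^ S.e * S.A1 + S.B1) ∈
    Ideal.span {inFactor 1 0 (X 3 : MvPolynomial (Fin 5) ℂ)} := by
  obtain ⟨g, hg⟩ := Ideal.mem_span_singleton'.mp S.shape
  refine Ideal.mem_span_singleton'.mpr ⟨inFactor 1 0 g, ?_⟩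
  rw [← map_mul, hg, map_sub, map_add, map_mul, map_pow]
  have h1 : ∀ f : MvPolynomial (Fin 3) ℂ, inFactor 1 0 (rename (![1, 2, 4] : Fin 3 → Fin 5) f) =
      rename ![((0 : Fin 1), (1 : Fin 5)), (0, 2), (0, 4)] f := by
    intro f
    rw [inFactor, rename_rename]
    congr 1
    congr 1
    funext k
    fin_cases k <;> rfl
  rw [h1, h1, inFactor, rename_X]
  rfl

/-- the equations of `C_a`: the section and `A` -/
lemma sec_sup : S.secI ⊔ Ideal.span {S.A1} = Lq e5 (J0 S) := by
  have hA : S.A1 ∈ Lq e5 (J0 S) := by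
    rw [mem_Lq, MD.A1, val1_rename, map_mem_ext]
    exact Ideal.subset_span (by simp)
  have hB : S.B1 ∈ Lq e5 (J0 S) := by
    rw [mem_Lq, MD.B1, val1_rename, map_mem_ext]
    exact Ideal.subset_span (by simp)
  have ho : inFactor 1 0 (X 3 : MvPolynomial (Fin 5) ℂ) ∈ Lq e5 (J0 S) := by
    rw [mem_Lq, inFactor, rename_X, val1_X]
    exact Ideal.zero_mem _
  have hF : inFactor 1 0 S.F ∈ Lq e5 (J0 S) := by
    have h1 : inFactor 1 0 S.F - (X (0, 0) ^ S.e * S.A1 + S.B1) ∈ Lq e5 (J0 S) :=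
      (Ideal.span_singleton_le_iff_mem _).mpr ho (F_sub_mem S)
    have h2 := Ideal.add_mem _ h1 (Ideal.add_mem _ (Ideal.mul_mem_left _ (X (0, 0) ^ S.e) hA) hB)
    rwa [sub_add_cancel] at h2
  apply le_antisymm
  · refine sup_le ?_ ((Ideal.span_singleton_le_iff_mem _).mpr hA)
    rw [MD.secI, Ideal.span_le]
    rintro x (rfl | rfl)
    · exact ho
    · exact hF
  · -- the section of `val1`
    let I : Ideal (Coord (Fin 5) 1) := S.secI ⊔ Ideal.span {S.A1}
    have hoI : X (0, 3) ∈ I := Ideal.mem_sup_left (Ideal.subset_span (by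
      left
      rw [inFactor, rename_X]))
    have hAI : S.A1 ∈ I := Ideal.mem_sup_right (Ideal.subset_span rfl)
    have hFI : inFactor 1 0 S.F ∈ I := Ideal.mem_sup_left (Ideal.subset_span (by
      right
      rfl))
    have hBI : S.B1 ∈ I := by
      have h1 : inFactor 1 0 S.F - (X (0, 0) ^ S.e * S.A1 + S.B1) ∈ I := by
        refine (Ideal.span_singleton_le_iff_mem _).mpr ?_ (F_sub_mem S)
        rw [inFactor, rename_X]
        exact hoI
      have h2 : S.B1 = inFactor 1 0 S.F - (inFactor 1 0 S.F - (X (0, 0) ^ S.e * S.A1 + S.B1)) -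
          X (0, 0) ^ S.e * S.A1 := by ring
      rw [h2]
      exact Ideal.sub_mem _ (Ideal.sub_mem _ hFI h1) (Ideal.mul_mem_left _ _ hAI)
    let σ : TN (Fin 3) →+* Coord (Fin 5) 1 :=
      eval₂Hom (Polynomial.eval₂RingHom (C : ℂ →+* Coord (Fin 5) 1) (X (0, 0)))
        (fun k => X (![((0 : Fin 1), (1 : Fin 5)), (0, 2), (0, 4)] k))
    have hσ : ∀ s, Ideal.Quotient.mk I (σ (val1 e5 s)) = Ideal.Quotient.mk I s := by
      intro s
      suffices h : ((Ideal.Quotient.mk I).comp σ).comp (val1 e5) = Ideal.Quotient.mk I from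
        RingHom.congr_fun h s
      apply MvPolynomial.ringHom_ext
      · intro c
        rw [RingHom.comp_apply, RingHom.comp_apply, val1_C]
        show Ideal.Quotient.mk I (eval₂Hom _ _ (C (Polynomial.C c))) = _
        rw [eval₂Hom_C]
        show Ideal.Quotient.mk I (Polynomial.eval₂ _ _ (Polynomial.C c)) = _
        rw [Polynomial.eval₂_C]
      · rintro ⟨i, j⟩
        have hi : i = 0 := Subsingleton.elim _ _
        subst hi
        rw [RingHom.comp_apply, RingHom.comp_apply, val1_X]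
        fin_cases j
        · show Ideal.Quotient.mk I (eval₂Hom _ _ (C Polynomial.X)) = Ideal.Quotient.mk I (X (0, 0))
          rw [eval₂Hom_C]
          show Ideal.Quotient.mk I (Polynomial.eval₂ _ _ Polynomial.X) = _
          rw [Polynomial.eval₂_X]
        · show Ideal.Quotient.mk I (eval₂Hom _ _ (X 0)) = Ideal.Quotient.mk I (X (0, 1))
          rw [eval₂Hom_X']
          rfl
        · show Ideal.Quotient.mk I (eval₂Hom _ _ (X 1)) = Ideal.Quotient.mk I (X (0, 2))
          rw [eval₂Hom_X']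
          rfl
        · show Ideal.Quotient.mk I (σ 0) = Ideal.Quotient.mk I (X (0, 3))
          rw [map_zero, map_zero]
          exact (Ideal.Quotient.eq_zero_iff_mem.mpr hoI).symm
        · show Ideal.Quotient.mk I (eval₂Hom _ _ (X 2)) = Ideal.Quotient.mk I (X (0, 4))
          rw [eval₂Hom_X']
          rfl
    have hσm : ∀ f : MvPolynomial (Fin 3) ℂ, σ (map (algebraMap ℂ (Polynomial ℂ)) f) =
        rename ![((0 : Fin 1), (1 : Fin 5)), (0, 2), (0, 4)] f := by
      intro f
      suffices h : σ.comp (map (algebraMap ℂ (Polynomial ℂ))) = (rename (R := ℂ)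
          (![((0 : Fin 1), (1 : Fin 5)), (0, 2), (0, 4)] : Fin 3 → _)).toRingHom from
        RingHom.congr_fun h f
      apply MvPolynomial.ringHom_ext
      · intro c
        show eval₂Hom _ _ (map (algebraMap ℂ (Polynomial ℂ)) (C c)) = rename _ (C c)
        rw [rename_C, map_C, eval₂Hom_C]
        show Polynomial.eval₂ _ _ (Polynomial.C c) = _
        rw [Polynomial.eval₂_C]
      · intro k
        show eval₂Hom _ _ (map (algebraMap ℂ (Polynomial ℂ)) (X k)) = rename _ (X k)
        rw [rename_X, map_X, eval₂Hom_X']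
    have hσI : ext (Polynomial ℂ) (J0 S) ≤ I.comap σ := by
      rw [ext, Ideal.map_le_iff_le_comap, J0, Ideal.span_le]
      rintro f (rfl | rfl)
      · show σ (map (algebraMap ℂ (Polynomial ℂ)) S.A) ∈ I
        rw [hσm]
        exact hAI
      · show σ (map (algebraMap ℂ (Polynomial ℂ)) S.B) ∈ I
        rw [hσm]
        exact hBI
    intro s hs
    have h1 : σ (val1 e5 s) ∈ I := hσI hs
    have h2 := hσ s
    rw [Ideal.Quotient.eq_zero_iff_mem.mpr h1] at h2
    exact Ideal.Quotient.eq_zero_iff_mem.mp h2.symm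

/-- `A` is not zero on the section -/
lemma A1_notMem : S.A1 ∉ S.pY.I := by
  intro h
  have h0 : S.A1 ∈ S.secI := h
  let ρ : Coord (Fin 5) 1 →ₐ[ℂ] Polynomial (MvPolynomial (Fin 3) ℂ) :=
    aeval fun v => ![Polynomial.X, Polynomial.C (X 0), Polynomial.C (X 1), 0,
      Polynomial.C (X 2)] v.2
  have hρ : ∀ f : MvPolynomial (Fin 3) ℂ,
      ρ (rename ![((0 : Fin 1), (1 : Fin 5)), (0, 2), (0, 4)] f) = Polynomial.C f := by
    intro f
    suffices h : ρ.comp (rename (R := ℂ)
        (![((0 : Fin 1), (1 : Fin 5)), (0, 2), (0, 4)] : Fin 3 → _)) =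
        (Polynomial.CAlgHom (R := ℂ) (A := MvPolynomial (Fin 3) ℂ)) from AlgHom.congr_fun h f
    apply MvPolynomial.algHom_ext
    intro k
    show ρ (rename _ (X k)) = Polynomial.C (X k)
    rw [rename_X, aeval_X]
    fin_cases k <;> rfl
  let I1 : Ideal (Polynomial (MvPolynomial (Fin 3) ℂ)) :=
    Ideal.span {Polynomial.X ^ S.e * Polynomial.C S.A + Polynomial.C S.B}
  have h1 : S.secI ≤ I1.comap ρ := by
    rw [MD.secI, Ideal.span_le]
    rintro x (rfl | rfl)
    · show ρ (inFactor 1 0 (X 3)) ∈ I1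
      rw [inFactor, rename_X, aeval_X]
      exact Ideal.zero_mem _
    · show ρ (inFactor 1 0 S.F) ∈ I1
      obtain ⟨g, hg⟩ := Ideal.mem_span_singleton'.mp (F_sub_mem S)
      have h2 := congrArg ρ hg
      rw [map_mul, map_sub, map_add, map_mul, map_pow, MD.A1, MD.B1, hρ, hρ] at h2
      have h3 : ρ (inFactor 1 0 (X 3)) = 0 := by
        rw [inFactor, rename_X, aeval_X]
        rfl
      have h4 : ρ (X (0, 0)) = Polynomial.X := by
        rw [aeval_X]
        rfl
      rw [h3, mul_zero, h4] at h2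
      rw [sub_eq_zero.mp h2.symm]
      exact Ideal.subset_span rfl
  have h2 := h1 h0
  rw [Ideal.mem_comap, MD.A1, hρ] at h2
  obtain ⟨g, hg⟩ := Ideal.mem_span_singleton'.mp h2
  have he : 1 ≤ S.e := Nat.pos_of_ne_zero (by
    intro h
    have := S.hep
    rw [h, zero_dvd_iff] at this
    have := S.hp
    omega)
  have hg0 : g ≠ 0 := by
    rintro rfl
    rw [zero_mul] at hg
    exact S.hA0 (Polynomial.C_eq_zero.mp hg.symm)
  have hdeg : (Polynomial.X ^ S.e * Polynomial.C S.A + Polynomial.C S.B :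
      Polynomial (MvPolynomial (Fin 3) ℂ)).natDegree = S.e := by
    rw [Polynomial.natDegree_add_C, Polynomial.natDegree_mul_C S.hA0, Polynomial.natDegree_X_pow]
  have hne : (Polynomial.X ^ S.e * Polynomial.C S.A + Polynomial.C S.B :
      Polynomial (MvPolynomial (Fin 3) ℂ)) ≠ 0 := by
    intro h
    rw [h, Polynomial.natDegree_zero] at hdeg
    omega
  have h3 := Polynomial.natDegree_mul hg0 hne
  rw [hg, Polynomial.natDegree_C, hdeg] at h3
  omega

/-- **(K)** -/
theorem Lq_eq {q : Ideal (MvPolynomial (Fin 3) ℂ)} [q.IsPrime] (h0 : J0 S ≤ q) {C : Pt S.V 1}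
    (hC : C ∈ S.dA.support) (h : Lq e5 q ≤ C.I) : Lq e5 q = C.I := by
  by_contra hne
  obtain ⟨hcod, -⟩ := S.mem_dA.mp hC
  have h1 : S.secI ⊔ Ideal.span {S.A1} ≤ Lq e5 q := by
    rw [sec_sup]
    exact Lq_mono h0
  have h2 := hcod.2 (Lq e5 q) inferInstance (le_sup_left.trans h1) (lt_of_le_of_ne h hne)
  refine A1_notMem S ?_
  rw [← h2]
  exact h1 (Ideal.mem_sup_right (Ideal.subset_span rfl))

/-- the relevant homogeneous prime ideals over `(A, B)` are those of the curves -/
theorem exists_curve {q : Ideal (MvPolynomial (Fin 3) ℂ)} [q.IsPrime] (hq : Hom (p3 S) q)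
    (h0 : J0 S ≤ q) (hrel : ∃ k, X k ∉ q) : ∃ C ∈ S.dA.support, Lq e5 q = C.I ∧
      ∃ a : Fin 3 → ℂ, a ≠ 0 ∧ (∀ f ∈ q, eval a f = 0) ∧ C.I = RingHom.ker (S.coneHom a) := by
  obtain ⟨k, hk⟩ := hrel
  obtain ⟨a, ha, hak⟩ := exists_zero_ne q hk
  have ha0 : a ≠ 0 := by
    rintro rfl
    exact hak (by rw [eval_X]; rfl)
  have hA := ha S.A (h0 (Ideal.subset_span (by simp)))
  have hB := ha S.B (h0 (Ideal.subset_span (by simp)))
  obtain ⟨C, hC⟩ := exists_cone S hA hB
  have hC' : C ∈ S.dA.support := S.dA_cone.mpr ⟨a, ha0, hA, hB, hC⟩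
  refine ⟨C, hC', Lq_eq S h0 hC' ?_, a, ha0, ha, hC⟩
  rw [hC]
  exact Lq_le_cone S a hq ha

end sec

section psi

variable (a : Fin 3 → ℂ)

/-- the values on `C_a × C_a` -/
noncomputable def psi : Coord (Fin 5) 2 →ₐ[ℂ] MvPolynomial (Fin 4) ℂ :=
  aeval fun v => if v.1 = 0
    then ![X 0, C (a 0) * X 2 ^ S.p, C (a 1) * X 2 ^ S.q, 0, C (a 2) * X 2 ^ S.r] v.2
    else ![X 1, C (a 0) * X 3 ^ S.p, C (a 1) * X 3 ^ S.q, 0, C (a 2) * X 3 ^ S.r] v.2

lemma psi_X0 (j : Fin 5) : psi S a (X (0, j)) =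
    ![X 0, C (a 0) * X 2 ^ S.p, C (a 1) * X 2 ^ S.q, 0, C (a 2) * X 2 ^ S.r] j := by
  rw [psi, aeval_X, if_pos rfl]

lemma psi_X1 (j : Fin 5) : psi S a (X (1, j)) =
    ![X 1, C (a 0) * X 3 ^ S.p, C (a 1) * X 3 ^ S.q, 0, C (a 2) * X 3 ^ S.r] j := by
  rw [psi, aeval_X, if_neg (show ¬ (1 : Fin 2) = 0 by decide)]

variable {a}

/-- the annihilator of a prime module kills the functions on `C_a × C_a` -/
theorem Pq_le_psi {q : Ideal (MvPolynomial (Fin 3) ℂ)} (hq : Hom (p3 S) q)
    (ha : ∀ f ∈ q, eval a f = 0) : Pq (p3 S) e5 q ≤ RingHom.ker (psi S a) := by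
  let R4 := MvPolynomial (Fin 4) ℂ
  let K := FractionRing R4
  let x : Fin 4 → K := fun i => algebraMap R4 K (X i)
  have hx : ∀ i, x i ≠ 0 := by
    intro i
    have h := (IsFractionRing.injective R4 K).ne (X_ne_zero (R := ℂ) i)
    rwa [map_zero] at h
  let u : Multiplicative ℤ →* K :=
    { toFun := fun n => (x 3 / x 2) ^ (Multiplicative.toAdd n)
      map_one' := by
        rw [toAdd_one, zpow_zero]
      map_mul' := fun m n => by
        rw [toAdd_mul, zpow_add₀ (div_ne_zero (hx 3) (hx 2))] }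
  let χ : TZ (Fin 3) →+* K := eval₂Hom
    (liftA (eval₂Hom (algebraMap ℂ K) ![x 0, x 1]) u) (fun k => algebraMap ℂ K (a k) * x 2 ^ p3 S k)
  have hC : ∀ b, χ (C (CC b)) = eval₂Hom (algebraMap ℂ K) ![x 0, x 1] b := by
    intro b
    show eval₂Hom _ _ (C (CC b)) = _
    rw [eval₂Hom_C, liftA_CC]
  have hL : ∀ n : ℤ, χ (C (LL n)) = (x 3 / x 2) ^ n := by
    intro n
    show eval₂Hom _ _ (C (LL n)) = _
    rw [eval₂Hom_C, liftA_LL]
    rfl
  have hXk : ∀ k, χ (X k) = algebraMap ℂ K (a k) * x 2 ^ p3 S k := by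
    intro k
    show eval₂Hom _ _ (X k) = _
    rw [eval₂Hom_X']
  have hχ : ∀ f : MvPolynomial (Fin 3) ℂ, χ (map (algebraMap ℂ AL) f) = coneR S a (x 2) f := by
    intro f
    suffices h : χ.comp (map (algebraMap ℂ AL)) = (coneR S a (x 2)).toRingHom from
      RingHom.congr_fun h f
    apply MvPolynomial.ringHom_ext
    · intro c
      rw [RingHom.comp_apply, map_C, algebraMap_AL, hC, eval₂Hom_C]
      exact ((coneR S a (x 2)).commutes c).symm
    · intro k
      rw [RingHom.comp_apply, map_X, hXk]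
      show _ = coneR S a (x 2) (X k)
      rw [coneR, aeval_X]
  have hker : ext AL q ≤ RingHom.ker χ := by
    rw [ext, Ideal.map_le_iff_le_comap]
    intro f hf
    show χ (map (algebraMap ℂ AL) f) = 0
    rw [hχ]
    exact coneR_mem _ hq ha hf
  have hcomp : ∀ s, χ (val (p3 S) e5 s) = algebraMap R4 K (psi S a s) := by
    intro s
    suffices h : χ.comp (val (p3 S) e5) = (algebraMap R4 K).comp (psi S a).toRingHom from
      RingHom.congr_fun h s
    have hk0 : ∀ k : Fin 3, χ (C (LL (((0 : Fin 2) : ℕ) * p3 S k)) * X k) =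
        algebraMap R4 K (C (a k) * X 2 ^ p3 S k) := by
      intro k
      rw [map_mul, hL, hXk, map_mul, map_pow]
      simp only [Fin.val_zero, Nat.cast_zero, zero_mul, zpow_zero, one_mul]
      rfl
    have hk1 : ∀ k : Fin 3, χ (C (LL (((1 : Fin 2) : ℕ) * p3 S k)) * X k) =
        algebraMap R4 K (C (a k) * X 3 ^ p3 S k) := by
      intro k
      rw [map_mul, hL, hXk, map_mul, map_pow]
      simp only [Fin.val_one, Nat.cast_one, one_mul, zpow_natCast]
      have h2 := pow_ne_zero (p3 S k) (hx 2)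
      show (x 3 / x 2) ^ p3 S k * (algebraMap ℂ K (a k) * x 2 ^ p3 S k) =
        algebraMap ℂ K (a k) * x 3 ^ p3 S k
      rw [div_pow, mul_comm (algebraMap ℂ K (a k)) (x 2 ^ p3 S k), ← mul_assoc,
        div_mul_cancel₀ _ h2, mul_comm]
    apply MvPolynomial.ringHom_ext
    · intro c
      rw [RingHom.comp_apply, val_C]
      have e1 : algebraMap ℂ (TZ (Fin 3)) c = C (CC (C c)) := by
        rw [IsScalarTower.algebraMap_apply ℂ AL (TZ (Fin 3)), MvPolynomial.algebraMap_eq,
          algebraMap_AL]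
      rw [e1, hC, eval₂Hom_C]
      show _ = algebraMap R4 K (psi S a (C c))
      have e2 : psi S a (C c) = C c := (psi S a).commutes c
      rw [e2]
      rfl
    · rintro ⟨i, j⟩
      rw [RingHom.comp_apply, val_X]
      fin_cases i
      · show χ (valc (p3 S) 0 (e5 j)) = algebraMap R4 K (psi S a (X (0, j)))
        rw [psi_X0]
        fin_cases j
        · show χ (C (CC (X 0))) = x 0
          rw [hC, eval₂Hom_X']
          rfl
        · exact hk0 0
        · exact hk0 1
        · show χ 0 = algebraMap R4 K 0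
          rw [map_zero, map_zero]
        · exact hk0 2
      · show χ (valc (p3 S) 1 (e5 j)) = algebraMap R4 K (psi S a (X (1, j)))
        rw [psi_X1]
        fin_cases j
        · show χ (C (CC (X 1))) = x 1
          rw [hC, eval₂Hom_X']
          rfl
        · exact hk1 0
        · exact hk1 1
        · show χ 0 = algebraMap R4 K 0
          rw [map_zero, map_zero]
        · exact hk1 2
  intro s hs
  have h1 : χ (val (p3 S) e5 s) = 0 := hker hs
  rw [hcomp] at h1
  exact (map_eq_zero_iff _ (IsFractionRing.injective R4 K)).mp h1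

/-- the transcendence degree of the ring of `C_a × C_a` -/
theorem four_le_td (ha : a ≠ 0) :
    4 ≤ td (Coord (Fin 5) 2 ⧸ (RingHom.ker (psi S a) : Ideal (Coord (Fin 5) 2))) := by
  let R4 := MvPolynomial (Fin 4) ℂ
  obtain ⟨k, hk⟩ : ∃ k, a k ≠ 0 := by
    by_contra! h
    exact ha (funext h)
  let _ : Algebra (Coord (Fin 5) 2) R4 := (psi S a).toRingHom.toAlgebra
  have hmap : ∀ s, algebraMap (Coord (Fin 5) 2) R4 s = psi S a s := fun s => rfl
  have : IsScalarTower ℂ (Coord (Fin 5) 2) R4 := by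
    refine IsScalarTower.of_algebraMap_eq fun c => ?_
    rw [hmap]
    exact ((psi S a).commutes c).symm
  have hpr : (⊥ : Ideal R4).IsPrime := Ideal.isPrime_bot
  have hcomap : (⊥ : Ideal R4).comap (algebraMap (Coord (Fin 5) 2) R4) = RingHom.ker (psi S a) := by
    ext s
    rw [Ideal.mem_comap, Ideal.mem_bot, hmap, RingHom.mem_ker]
  have hker : (RingHom.ker (psi S a) : Ideal (Coord (Fin 5) 2)).IsPrime := RingHom.ker_isPrime _
  have hpow : ∀ i : Fin 4, (∃ s : Coord (Fin 5) 2, psi S a s = C (a k) * X i ^ p3 S k) →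
      IsIntegral (Coord (Fin 5) 2) (X i : R4) := by
    rintro i ⟨s, hs⟩
    refine IsIntegral.of_pow (hp3 S k) ?_
    have h1 : (X i : R4) ^ p3 S k = algebraMap (Coord (Fin 5) 2) R4 (C (a k)⁻¹ * s) := by
      rw [hmap, map_mul, hs]
      have e2 : psi S a (C (a k)⁻¹) = C (a k)⁻¹ := (psi S a).commutes _
      rw [e2, ← mul_assoc, ← map_mul, inv_mul_cancel₀ hk, map_one, one_mul]
    rw [h1]
    exact isIntegral_algebraMap
  have hint : ∀ i : Fin 4, IsIntegral (Coord (Fin 5) 2) (X i : R4) := by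
    intro i
    fin_cases i
    · have h1 : (X 0 : R4) = algebraMap (Coord (Fin 5) 2) R4 (X (0, 0)) := by
        rw [hmap, psi_X0]
        rfl
      show IsIntegral _ (X 0 : R4)
      rw [h1]
      exact isIntegral_algebraMap
    · have h1 : (X 1 : R4) = algebraMap (Coord (Fin 5) 2) R4 (X (1, 0)) := by
        rw [hmap, psi_X1]
        rfl
      show IsIntegral _ (X 1 : R4)
      rw [h1]
      exact isIntegral_algebraMap
    · refine hpow 2 ?_
      fin_cases k
      · exact ⟨X (0, 1), psi_X0 S a 1⟩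
      · exact ⟨X (0, 2), psi_X0 S a 2⟩
      · exact ⟨X (0, 4), psi_X0 S a 4⟩
    · refine hpow 3 ?_
      fin_cases k
      · exact ⟨X (1, 1), psi_X1 S a 1⟩
      · exact ⟨X (1, 2), psi_X1 S a 2⟩
      · exact ⟨X (1, 4), psi_X1 S a 4⟩
  have hall : ∀ t : R4, IsIntegral (Coord (Fin 5) 2) t := by
    intro t
    induction t using MvPolynomial.induction_on with
    | C c =>
      have h1 : (C c : R4) = algebraMap (Coord (Fin 5) 2) R4 (C c) := by
        rw [hmap]
        exact ((psi S a).commutes c).symm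
      rw [h1]
      exact isIntegral_algebraMap
    | add a b ha hb => exact ha.add hb
    | mul_X a i ha => exact ha.mul (hint i)
  have hI : IntAt (Coord (Fin 5) 2) R4 (RingHom.ker (psi S a) : Ideal (Coord (Fin 5) 2)) := by
    intro t
    refine ⟨1, ?_, ?_⟩
    · rw [← Ideal.ne_top_iff_one]
      exact hker.ne_top
    · rw [map_one, one_mul]
      exact hall t
  have h1 := td_comap hI (⊥ : Ideal R4) hcomap.le
  have h2 : 4 ≤ td (R4 ⧸ (⊥ : Ideal R4)) := by
    have h3 : td (R4 ⧸ (⊥ : Ideal R4)) = td R4 := Dg.td_congr (AlgEquiv.quotientBot ℂ R4)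
    rw [h3]
    have h4 := Dg.card_le_td (A := R4) (MvPolynomial.algebraicIndependent_X (Fin 4) ℂ)
    simpa using h4
  rw [h1, hcomap] at h2
  exact h2

end psi

end Pool.Agent.RCH.MZ
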