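import Pool.Agent.RCH.MnDefs
import Pool.Agent.RCH.MTd

/-!
# Row M1, second part: the length as a multiple of the length of the image; transcendence degrees
-/

set_option autoImplicit false

open MvPolynomial

namespace Pool.Agent.RCH

section len

variable {S : Type} [CommRing S] (Q : Ideal S) [hQ : Q.IsPrime]
variable {M : Type} [AddCommGroup M] [Module S M]

theorem len_eq_zero_of_torsion (h : ∀ x : M, ∃ s ∉ Q, s • x = 0) : len Q M = 0 := by
  have : Subsingleton (LocalizedModule Q.primeCompl M) := by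
    rw [LocalizedModule.subsingleton_iff]
    intro x
    obtain ⟨s, hs, hx⟩ := h x
    exact ⟨s, hs, hx⟩
  exact Module.length_eq_zero

theorem len_pi (c : ℕ) : len Q (Fin c → M) = c * len Q M := by
  induction c with
  | zero =>
    rw [Nat.cast_zero, zero_mul]
    exact len_eq_zero Q
  | succ c ih =>
    have h := len_add Q (LinearMap.single S (fun _ : Fin (c + 1) => M) 0)
      (LinearMap.funLeft S M (Fin.succ : Fin c → Fin (c + 1))) ?_ ?_ ?_
    · rw [h, ih, Nat.cast_add, Nat.cast_one, add_mul, one_mul, add_comm]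
    · intro x y hxy
      have h1 := congrFun hxy 0
      simpa using h1
    · exact LinearMap.funLeft_surjective_of_injective S M _ (Fin.succ_injective c)
    · intro x
      constructor
      · intro hx
        refine ⟨x 0, ?_⟩
        funext i
        rcases Fin.eq_zero_or_eq_succ i with rfl | ⟨j, rfl⟩
        · rw [LinearMap.single_apply, Pi.single_eq_same]
        · have h1 := congrFun hx j
          rw [LinearMap.funLeft_apply] at h1
          rw [h1, LinearMap.single_apply, Pi.single_eq_of_ne (Fin.succ_ne_zero j)]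
          rfl
      · rintro ⟨y, rfl⟩
        funext j
        rw [LinearMap.funLeft_apply, LinearMap.single_apply,
          Pi.single_eq_of_ne (Fin.succ_ne_zero j)]
        rfl

/-- a submodule which is everything up to elements outside of `Q` -/
theorem len_eq_of_injective {N : Type} [AddCommGroup N] [Module S N] (f : N →ₗ[S] M)
    (hf : Function.Injective f) (h : ∀ x : M, ∃ s ∉ Q, s • x ∈ LinearMap.range f) :
    len Q M = len Q N := by
  rw [len_add Q f (LinearMap.range f).mkQ hf (Submodule.mkQ_surjective _)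
    (LinearMap.exact_map_mkQ_range f), len_eq_zero_of_torsion Q (M := M ⧸ LinearMap.range f),
    add_zero]
  intro x
  obtain ⟨x, rfl⟩ := Submodule.mkQ_surjective _ x
  obtain ⟨s, hs, hx⟩ := h x
  refine ⟨s, hs, ?_⟩
  rw [← map_smul, Submodule.mkQ_apply, Submodule.Quotient.mk_eq_zero]
  exact hx

end len

/-- separation by the roots of unity -/
theorem eq_zero_of_roots {M : Type} [AddCommGroup M] [Module ℂ M] {ξ : ℂ} {c : ℕ}
    (hξ : IsPrimitiveRoot ξ c) (y : ℕ → M)
    (h : ∀ i < c, ∑ n ∈ Finset.range c, (ξ ^ (i * n)) • y n = 0) {m : ℕ} (hm : m < c) :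
    y m = 0 := by
  have hc : c ≠ 0 := by omega
  have hξ0 : ξ ≠ 0 := hξ.ne_zero hc
  have h1 : ∑ i ∈ Finset.range c, ((ξ⁻¹) ^ (i * m)) •
      (∑ n ∈ Finset.range c, (ξ ^ (i * n)) • y n) = 0 := by
    refine Finset.sum_eq_zero fun i hi => ?_
    rw [h i (Finset.mem_range.1 hi), smul_zero]
  simp only [Finset.smul_sum, smul_smul] at h1
  rw [Finset.sum_comm] at h1
  have h2 : ∀ n ∈ Finset.range c, ∑ i ∈ Finset.range c, ((ξ⁻¹) ^ (i * m) * ξ ^ (i * n)) • y n
      = if n = m then (c : ℂ) • y m else 0 := by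
    intro n hn
    rw [← Finset.sum_smul]
    have h3 : ∀ i, (ξ⁻¹) ^ (i * m) * ξ ^ (i * n) = ((ξ⁻¹) ^ m * ξ ^ n) ^ i := by
      intro i
      rw [mul_pow, ← pow_mul, ← pow_mul, mul_comm i m, mul_comm i n]
    simp only [h3]
    split_ifs with hnm
    · subst hnm
      rw [← mul_pow, inv_mul_cancel₀ hξ0, one_pow]
      simp
    · have hz : (ξ⁻¹) ^ m * ξ ^ n ≠ 1 := by
        intro h4
        apply hnm
        refine hξ.pow_inj (Finset.mem_range.1 hn) hm ?_
        rw [inv_pow] at h4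
        field_simp at h4
        exact h4
      have hzc : ((ξ⁻¹) ^ m * ξ ^ n) ^ c = 1 := by
        rw [mul_pow, ← pow_mul, ← pow_mul, mul_comm m c, mul_comm n c, pow_mul, pow_mul,
          inv_pow, hξ.pow_eq_one, inv_one, one_pow, one_pow, one_mul]
      rw [geom_sum_eq hz, hzc, sub_self, zero_div, zero_smul]
  rw [Finset.sum_congr rfl h2, Finset.sum_ite_eq' _ _, if_pos (Finset.mem_range.2 hm)] at h1
  exact (smul_eq_zero.1 h1).resolve_left (Nat.cast_ne_zero.2 hc)

namespace Mn

section grad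

variable {wt : Fin 5 → ℕ} {J : Ideal R7}

/-- A Laurent polynomial as an element of the module. -/
noncomputable def toLam (wt : Fin 5 → ℕ) {J : Ideal R7} : LaurentPolynomial (R7 ⧸ J) ≃+ Lam wt J :=
  AddEquiv.refl (LaurentPolynomial (R7 ⧸ J))

theorem comm_aux {A : Type} [CommRing A] (a b c d e : A) :
    a * (b * (c * d) * e) = c * (a * (b * (d * e))) := by ring

theorem comm_aux' {A : Type} [CommRing A] (a b c : A) : a * (b * c) = b * (a * c) := by ring

theorem smul_toLam (s : Coord (Fin 5) 2) (x : LaurentPolynomial (R7 ⧸ J)) :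
    s • toLam wt x = toLam wt (phi wt J s * x) := rfl

theorem phi_X0 (j : Fin 5) :
    phi wt J (X (0, j)) = LaurentPolynomial.C (Ideal.Quotient.mk J (al j)) := by
  rw [phi, aeval_X]; rfl

theorem phi_X1 (j : Fin 5) :
    phi wt J (X (1, j)) = LaurentPolynomial.C (Ideal.Quotient.mk J (be j)) *
      LaurentPolynomial.T (wt j) := by
  rw [phi, aeval_X]; rfl

theorem phi_C (a : ℂ) :
    phi wt J (C a) = LaurentPolynomial.C (Ideal.Quotient.mk J (C a)) := by
  have h : (C a : Coord (Fin 5) 2) = algebraMap ℂ _ a := rfl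
  rw [h, AlgHom.commutes]
  rfl

/-- The unit `ξ T`. -/
noncomputable def unitT (J : Ideal R7) (ξ : ℂˣ) : (LaurentPolynomial (R7 ⧸ J))ˣ :=
  Units.map (algebraMap ℂ (LaurentPolynomial (R7 ⧸ J))).toMonoidHom ξ *
    (LaurentPolynomial.isUnit_T (R := R7 ⧸ J) 1).unit

theorem unitT_pow (ξ : ℂˣ) (n : ℕ) : ((unitT J ξ : (LaurentPolynomial (R7 ⧸ J))ˣ) :
    LaurentPolynomial (R7 ⧸ J)) ^ n = LaurentPolynomial.C (Ideal.Quotient.mk J (C ((ξ : ℂ) ^ n))) *
      LaurentPolynomial.T n := by
  have h1 : ((unitT J ξ : (LaurentPolynomial (R7 ⧸ J))ˣ) : LaurentPolynomial (R7 ⧸ J)) =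
      LaurentPolynomial.C (Ideal.Quotient.mk J (C (ξ : ℂ))) * LaurentPolynomial.T 1 := rfl
  have h2 : ∀ a b : LaurentPolynomial (R7 ⧸ J), (a * b) ^ n = a ^ n * b ^ n := fun a b =>
    mul_pow a b n
  rw [h1, h2, LaurentPolynomial.T_pow, mul_one, map_pow, map_pow, map_pow]

/-- The endomorphism `r T ^ n ↦ τ(r) ξ ^ n T ^ n` of the Laurent polynomials over `R / J`. -/
noncomputable def theta (τ : R7 ≃ₐ[ℂ] R7) (hτ : J.map τ = J) (ξ : ℂˣ) :
    LaurentPolynomial (R7 ⧸ J) →+* LaurentPolynomial (R7 ⧸ J) :=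
  LaurentPolynomial.eval₂ (R := R7 ⧸ J) (S := LaurentPolynomial (R7 ⧸ J))
    (LaurentPolynomial.C.comp (Ideal.quotientMap J (τ : R7 →+* R7)
      (Ideal.map_le_iff_le_comap.1 hτ.le)))
    (unitT J ξ)

variable (τ : R7 ≃ₐ[ℂ] R7) (hτ : J.map τ = J) (ξ : ℂˣ)

theorem theta_C (r : R7) : theta τ hτ ξ (LaurentPolynomial.C (Ideal.Quotient.mk J r)) =
    LaurentPolynomial.C (Ideal.Quotient.mk J (τ r)) := by
  rw [theta, LaurentPolynomial.eval₂_C]
  rfl

theorem theta_T (n : ℕ) : theta τ hτ ξ (LaurentPolynomial.T n) =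
    LaurentPolynomial.C (Ideal.Quotient.mk J (C ((ξ : ℂ) ^ n))) * LaurentPolynomial.T n := by
  rw [theta, LaurentPolynomial.eval₂_T_n]
  exact unitT_pow ξ n

/-- The endomorphism fixes the image of the ring of the coordinates of two points. -/
theorem theta_phi (h0 : ∀ j, τ (al j) - al j ∈ J)
    (h1 : ∀ j, C ((ξ : ℂ) ^ wt j) * τ (be j) - be j ∈ J) (s : Coord (Fin 5) 2) :
    theta τ hτ ξ (phi wt J s) = phi wt J s := by
  have h : (theta τ hτ ξ).comp (phi wt J).toRingHom = (phi wt J).toRingHom := by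
    refine MvPolynomial.ringHom_ext (fun c => ?_) fun v => ?_
    · rw [RingHom.comp_apply]
      change theta τ hτ ξ (phi wt J (C c)) = phi wt J (C c)
      rw [phi_C, theta_C]
      congr 2
      exact τ.commutes c
    · rw [RingHom.comp_apply]
      obtain ⟨k, j⟩ := v
      by_cases hk : k = 0
      · subst hk
        change theta τ hτ ξ (phi wt J (X (0, j))) = phi wt J (X (0, j))
        rw [phi_X0, theta_C]
        congr 1
        exact Ideal.Quotient.eq.2 (h0 j)
      · have hk1 : k = 1 := by omega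
        subst hk1
        change theta τ hτ ξ (phi wt J (X (1, j))) = phi wt J (X (1, j))
        rw [phi_X1, map_mul, theta_C, theta_T, ← mul_assoc, ← map_mul, ← map_mul, mul_comm (τ _)]
        congr 2
        exact Ideal.Quotient.eq.2 (h1 j)
  exact DFunLike.congr_fun h s

/-- **Independence.** -/
theorem indep (τ : R7 ≃ₐ[ℂ] R7) (hτ : J.map τ = J) (ξ : ℂˣ) {c : ℕ} (hξ : IsPrimitiveRoot (ξ : ℂ) c) (h0 : ∀ j, τ (al j) - al j ∈ J)
    (h1 : ∀ j, C ((ξ : ℂ) ^ wt j) * τ (be j) - be j ∈ J) (s : ℕ → Coord (Fin 5) 2)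
    (h : ∑ n ∈ Finset.range c, phi wt J (s n) * LaurentPolynomial.T (n : ℤ) = 0) {m : ℕ}
    (hm : m < c) : phi wt J (s m) = 0 := by
  have hC : ∀ (a : ℂ) (x : LaurentPolynomial (R7 ⧸ J)),
      a • x = LaurentPolynomial.C (Ideal.Quotient.mk J (C a)) * x := by
    intro a x
    rw [Algebra.smul_def]
    rfl
  have h2 : ∀ i : ℕ, ∑ n ∈ Finset.range c,
      ((ξ : ℂ) ^ (i * n)) • (phi wt J (s n) * LaurentPolynomial.T (n : ℤ)) = 0 := by
    intro i
    induction i with
    | zero => simpa using h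
    | succ i ih =>
      have h3 := congrArg (theta τ hτ ξ) ih
      rw [map_sum, map_zero] at h3
      rw [← h3]
      refine Finset.sum_congr rfl fun n _ => ?_
      rw [hC, hC, map_mul, map_mul, theta_C, theta_phi τ hτ ξ h0 h1, theta_T]
      have h4 : τ (C ((ξ : ℂ) ^ (i * n))) = C ((ξ : ℂ) ^ (i * n)) := τ.commutes _
      rw [h4, add_mul, one_mul, pow_add, C_mul, map_mul, map_mul]
      ring
  have h5 := eq_zero_of_roots hξ
    (fun n => phi wt J (s n) * (LaurentPolynomial.T (n : ℤ) : LaurentPolynomial (R7 ⧸ J)))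
    (fun i _ => h2 i) hm
  exact (LaurentPolynomial.isUnit_T (R := R7 ⧸ J) (m : ℤ)).mul_left_eq_zero.1 h5

end grad

section range

variable {wt : Fin 5 → ℕ} {J : Ideal R7}

/-- the map `f ↦ f T ^ n` -/
noncomputable def powOne (wt : Fin 5 → ℕ) (J : Ideal R7) (n : ℤ) :
    (Coord (Fin 5) 2 ⧸ (RingHom.ker (phi wt J) : Ideal (Coord (Fin 5) 2)))
      →ₗ[Coord (Fin 5) 2] Lam wt J :=
  Submodule.liftQ (RingHom.ker (phi wt J) : Ideal (Coord (Fin 5) 2))
    (LinearMap.toSpanSingleton (Coord (Fin 5) 2) (Lam wt J) (toLam wt (LaurentPolynomial.T n)))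
    (fun s hs => by
      rw [LinearMap.mem_ker, LinearMap.toSpanSingleton_apply, smul_toLam]
      have h1 : phi wt J s = 0 := hs
      rw [h1, zero_mul, map_zero])

theorem powOne_mk (n : ℤ) (s : Coord (Fin 5) 2) :
    powOne wt J n (Ideal.Quotient.mk _ s) = toLam wt (phi wt J s * LaurentPolynomial.T n) := rfl

/-- the map `(f_n) ↦ ∑ f_n T ^ n` -/
noncomputable def powMap (wt : Fin 5 → ℕ) (J : Ideal R7) (c : ℕ) :
    (Fin c → Coord (Fin 5) 2 ⧸ (RingHom.ker (phi wt J) : Ideal (Coord (Fin 5) 2)))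
      →ₗ[Coord (Fin 5) 2] Lam wt J :=
  ∑ n : Fin c, (powOne wt J ((n : ℕ) : ℤ)).comp (LinearMap.proj n)

theorem powMap_mk (c : ℕ) (s : Fin c → Coord (Fin 5) 2) :
    powMap wt J c (fun n => Ideal.Quotient.mk _ (s n)) =
      toLam wt (∑ n : Fin c, phi wt J (s n) * LaurentPolynomial.T ((n : ℕ) : ℤ)) := by
  rw [powMap, LinearMap.sum_apply, map_sum]
  exact Finset.sum_congr rfl fun n _ => powOne_mk _ _

theorem powMap_injective (τ : R7 ≃ₐ[ℂ] R7) (hτ : J.map τ = J) (ξ : ℂˣ) {c : ℕ}
    (hξ : IsPrimitiveRoot (ξ : ℂ) c) (h0 : ∀ j, τ (al j) - al j ∈ J)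
    (h1 : ∀ j, C ((ξ : ℂ) ^ wt j) * τ (be j) - be j ∈ J) :
    Function.Injective (powMap wt J c) := by
  rw [← LinearMap.ker_eq_bot, LinearMap.ker_eq_bot']
  intro x hx
  choose s hs using fun n => Ideal.Quotient.mk_surjective (x n)
  have hx' : x = fun n => Ideal.Quotient.mk _ (s n) := funext fun n => (hs n).symm
  rw [hx', powMap_mk] at hx
  have h2 : ∑ n : Fin c, phi wt J (s n) * LaurentPolynomial.T ((n : ℕ) : ℤ) = 0 :=
    (toLam wt).injective (hx.trans (map_zero _).symm)
  set s' : ℕ → Coord (Fin 5) 2 := fun n => if h : n < c then s ⟨n, h⟩ else 0 with hs'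
  have h3 : ∑ n ∈ Finset.range c, phi wt J (s' n) * LaurentPolynomial.T (n : ℤ) = 0 := by
    rw [Finset.sum_range, ← h2]
    refine Finset.sum_congr rfl fun n _ => ?_
    rw [hs']
    simp only [Fin.is_lt, dif_pos, Fin.eta]
  rw [hx']
  funext n
  have h4 := indep τ hτ ξ hξ h0 h1 s' h3 n.2
  rw [hs'] at h4
  simp only [Fin.is_lt, dif_pos, Fin.eta] at h4
  exact Ideal.Quotient.eq_zero_iff_mem.2 h4

theorem toLam_T_mem_range (s : Coord (Fin 5) 2) {c n : ℕ} (hn : n < c) :
    toLam wt (phi wt J s * LaurentPolynomial.T (n : ℤ)) ∈ LinearMap.range (powMap wt J c) := by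
  refine ⟨fun m => Ideal.Quotient.mk _ (if (m : ℕ) = n then s else 0), ?_⟩
  rw [powMap_mk]
  congr 1
  rw [Finset.sum_eq_single (⟨n, hn⟩ : Fin c)]
  · rw [if_pos rfl]
  · intro m _ hm
    have h1 : (m : ℕ) ≠ n := fun h => hm (Fin.ext h)
    rw [if_neg h1, map_zero, zero_mul]
  · intro h
    exact absurd (Finset.mem_univ _) h

variable (Q : Ideal (Coord (Fin 5) 2)) [hQ : Q.IsPrime]

theorem pow_mul_T {s₁ s₂ : Coord (Fin 5) 2} {c : ℕ}
    (hs : phi wt J s₂ = phi wt J s₁ * LaurentPolynomial.T (c : ℤ)) (k : ℕ) :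
    phi wt J s₂ ^ k = phi wt J s₁ ^ k * LaurentPolynomial.T ((c : ℤ) * k) := by
  induction k with
  | zero => simp
  | succ k ih =>
    rw [pow_succ, pow_succ, ih, hs, Nat.cast_succ, mul_add, mul_one, LaurentPolynomial.T_add]
    ring

/-- up to an element outside of `Q`, all the powers of `T` are in the range -/
theorem exists_T_mem {s₁ s₂ : Coord (Fin 5) 2} {c : ℕ} (hc : 1 ≤ c)
    (hs : phi wt J s₂ = phi wt J s₁ * LaurentPolynomial.T (c : ℤ)) (hs1 : s₁ ∉ Q)
    (hs2 : s₂ ∉ Q) (n : ℤ) :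
    ∃ s ∉ Q, s • toLam wt (J := J) (LaurentPolynomial.T n) ∈ LinearMap.range (powMap wt J c) := by
  have hc0 : (c : ℤ) ≠ 0 := by exact_mod_cast (by omega : c ≠ 0)
  obtain ⟨m, hm⟩ : ∃ m : ℕ, n % c = m :=
    ⟨(n % c).toNat, (Int.toNat_of_nonneg (Int.emod_nonneg n hc0)).symm⟩
  have hmc : m < c := by
    have h1 : n % c < c := Int.emod_lt_of_pos n (by exact_mod_cast hc)
    rw [hm] at h1
    exact_mod_cast h1
  have hn : n = c * (n / c) + m := by
    rw [← hm]
    exact (Int.mul_ediv_add_emod n c).symm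
  rcases Int.eq_nat_or_neg (n / c) with ⟨k, hk | hk⟩
  · refine ⟨s₁ ^ k, fun h => hs1 (hQ.mem_of_pow_mem k h), ?_⟩
    rw [smul_toLam, map_pow, hn, hk, LaurentPolynomial.T_add, ← mul_assoc, ← pow_mul_T hs, ← map_pow]
    exact toLam_T_mem_range _ hmc
  · refine ⟨s₂ ^ k, fun h => hs2 (hQ.mem_of_pow_mem k h), ?_⟩
    have h2 : phi wt J s₂ ^ k * (LaurentPolynomial.T n : LaurentPolynomial (R7 ⧸ J)) =
        phi wt J s₁ ^ k * LaurentPolynomial.T (m : ℤ) := by
      rw [pow_mul_T hs, hn, hk, mul_assoc, ← LaurentPolynomial.T_add]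
      congr 2
      ring
    rw [smul_toLam, map_pow, h2, ← map_pow]
    exact toLam_T_mem_range _ hmc

/-- up to an element outside of `Q`, everything is in the range -/
theorem exists_mem_range {s₁ s₂ : Coord (Fin 5) 2} {c : ℕ} (hc : 1 ≤ c)
    (hs : phi wt J s₂ = phi wt J s₁ * LaurentPolynomial.T (c : ℤ)) (hs1 : s₁ ∉ Q)
    (hs2 : s₂ ∉ Q) (x : Lam wt J) :
    ∃ s ∉ Q, s • x ∈ LinearMap.range (powMap wt J c) := by
  have key : ∀ x : LaurentPolynomial (R7 ⧸ J),
      ∃ s ∉ Q, s • toLam wt x ∈ LinearMap.range (powMap wt J c) := by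
    intro x
    induction x using LaurentPolynomial.induction_on' with
    | add p q hp hq =>
      obtain ⟨s, hs, hsp⟩ := hp
      obtain ⟨t, ht, htq⟩ := hq
      refine ⟨s * t, fun h => (hQ.mem_or_mem h).elim hs ht, ?_⟩
      rw [map_add, smul_add]
      refine add_mem ?_ ?_
      · rw [mul_comm, mul_smul]
        exact Submodule.smul_mem _ _ hsp
      · rw [mul_smul]
        exact Submodule.smul_mem _ _ htq
    | C_mul_T n a =>
      obtain ⟨p, rfl⟩ := Ideal.Quotient.mk_surjective a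
      induction p using MvPolynomial.induction_on generalizing n with
      | C b =>
        obtain ⟨s, hs, hst⟩ := exists_T_mem (wt := wt) (J := J) Q hc ‹_› hs1 hs2 n
        refine ⟨s, hs, ?_⟩
        have h1 : s • toLam wt (LaurentPolynomial.C (Ideal.Quotient.mk J (C b)) *
            LaurentPolynomial.T n) = (C b : Coord (Fin 5) 2) •
              (s • toLam wt (J := J) (LaurentPolynomial.T n)) := by
          rw [smul_toLam, smul_toLam, smul_toLam, phi_C]
          exact congrArg _ (comm_aux' (A := LaurentPolynomial (R7 ⧸ J)) _ _ _)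
        rw [h1]
        exact Submodule.smul_mem _ _ hst
      | add p q hp hq =>
        obtain ⟨s, hs, hsp⟩ := hp n
        obtain ⟨t, ht, htq⟩ := hq n
        refine ⟨s * t, fun h => (hQ.mem_or_mem h).elim hs ht, ?_⟩
        rw [map_add, map_add, add_mul, map_add, smul_add]
        refine add_mem ?_ ?_
        · rw [mul_comm, mul_smul]
          exact Submodule.smul_mem _ _ hsp
        · rw [mul_smul]
          exact Submodule.smul_mem _ _ htq
      | mul_X p i hp =>
        -- the variable is the image of a coordinate, up to a power of `T`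
        obtain ⟨u, m, hu⟩ : ∃ (u : Coord (Fin 5) 2) (m : ℤ),
            LaurentPolynomial.C (Ideal.Quotient.mk J (X i)) =
              phi wt J u * LaurentPolynomial.T m := by
          have hal : ∀ j, LaurentPolynomial.C (Ideal.Quotient.mk J (al j)) =
              phi wt J (X (0, j)) * LaurentPolynomial.T 0 := fun j => by
            rw [phi_X0, LaurentPolynomial.T_zero, mul_one]
          have hbe : ∀ j, LaurentPolynomial.C (Ideal.Quotient.mk J (be j)) =
              phi wt J (X (1, j)) * LaurentPolynomial.T (-(wt j : ℤ)) := fun j => by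
            rw [phi_X1, mul_assoc, ← LaurentPolynomial.T_add, add_neg_cancel,
              LaurentPolynomial.T_zero, mul_one]
          fin_cases i
          · exact ⟨_, _, hal 0⟩
          · exact ⟨_, _, hbe 0⟩
          · exact ⟨_, _, hal 1⟩
          · exact ⟨_, _, hal 2⟩
          · exact ⟨_, _, hal 3⟩
          · exact ⟨_, _, hal 4⟩
          · exact ⟨_, _, hbe 4⟩
        obtain ⟨s, hs, hsp⟩ := hp (m + n)
        refine ⟨s, hs, ?_⟩
        have h1 : s • toLam wt (LaurentPolynomial.C (Ideal.Quotient.mk J (p * X i)) *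
            LaurentPolynomial.T n) = u • (s • toLam wt
              (LaurentPolynomial.C (Ideal.Quotient.mk J p) * LaurentPolynomial.T (m + n))) := by
          have h2 : LaurentPolynomial.C (Ideal.Quotient.mk J (p * X i)) =
              LaurentPolynomial.C (Ideal.Quotient.mk J p) *
                (phi wt J u * LaurentPolynomial.T m) := by
            rw [← hu, ← map_mul, ← map_mul]
          rw [smul_toLam, smul_toLam, smul_toLam, h2, LaurentPolynomial.T_add]
          exact congrArg _ (comm_aux (A := LaurentPolynomial (R7 ⧸ J)) _ _ _ _ _)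
        rw [h1]
        exact Submodule.smul_mem _ _ hsp
  exact key x

/-- **The length as a multiple of the length of the image.** -/
theorem cl_grad (τ : R7 ≃ₐ[ℂ] R7) (hτ : J.map τ = J) {ξ : ℂ} {c : ℕ} (hc : 1 ≤ c)
    (hξ : IsPrimitiveRoot ξ c) (h0 : ∀ j, τ (al j) - al j ∈ J)
    (h1 : ∀ j, C (ξ ^ wt j) * τ (be j) - be j ∈ J) {s₁ s₂ : Coord (Fin 5) 2}
    (hs : phi wt J s₂ = phi wt J s₁ * LaurentPolynomial.T (c : ℤ)) (hs1 : s₁ ∉ Q)
    (hs2 : s₂ ∉ Q) :
    cl wt J Q = c * len Q (Coord (Fin 5) 2 ⧸ (RingHom.ker (phi wt J) : Ideal _)) := by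
  have hξ0 : ξ ≠ 0 := hξ.ne_zero (by omega)
  rw [cl, len_eq_of_injective Q (powMap wt J c)
    (powMap_injective τ hτ (Units.mk0 ξ hξ0) hξ h0 h1) (exists_mem_range Q hc hs hs1 hs2), len_pi]

end range

section td

/-- the transcendence degree of the primes above the kernel of a homomorphism -/
theorem td_le_of_ker {A W : Type} [CommRing A] [CommRing W] [Algebra ℂ A] [Algebra ℂ W]
    [Algebra.FiniteType ℂ A] [Algebra.FiniteType ℂ W] (ψ : A →ₐ[ℂ] W) {m : ℕ}
    (h : ∀ q : Ideal W, q.IsPrime → Dg.td (W ⧸ q) ≤ m) {P : Ideal A} (hP : P.IsPrime)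
    (hJ : RingHom.ker ψ ≤ P) : Dg.td (A ⧸ P) ≤ m := by
  have hker : RingHom.ker ψ = (⊥ : Ideal W).comap (ψ : A →+* W) := rfl
  obtain ⟨P₀, hP₀, hle⟩ := Ideal.exists_minimalPrimes_le hJ
  rw [hker] at hP₀
  obtain ⟨q, hq, -, hqP⟩ := Ideal.exists_comap_eq_of_mem_minimalPrimes (ψ : A →+* W) P₀ hP₀
  have hle' : q.comap ψ ≤ P := by
    rw [← hqP] at hle
    exact hle
  have h1 : Dg.td (A ⧸ P) ≤ Dg.td (A ⧸ q.comap ψ) :=
    td_le_of_surjective (Ideal.Quotient.factorₐ ℂ hle') (Ideal.Quotient.factor_surjective hle')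
  have h2 : Dg.td (A ⧸ q.comap ψ) ≤ Dg.td (W ⧸ q) :=
    td_le_of_injective (Ideal.quotientMapₐ q ψ le_rfl)
      (Ideal.quotientMap_injective' (f := (ψ : A →+* W)) (H := le_refl (q.comap ψ)) le_rfl)
  exact h1.trans (h2.trans (h q hq))

/-- a domain generated by elements integral over `n` elements, by a unit and by its inverse -/
theorem td_le_of_gen {B : Type} [CommRing B] [IsDomain B] [Algebra ℂ B] {n : ℕ} (y : Fin n → B)
    (T T' : B) (hT : T * T' = 1) (S : Set B)
    (hS : ∀ x ∈ S, IsIntegral (Algebra.adjoin ℂ (Set.range y)) x)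
    (hgen : Algebra.adjoin ℂ (S ∪ {T, T'}) = ⊤) : Dg.td B ≤ n + 1 := by
  set x : Option (Fin n) → B := fun o => o.elim T y with hx
  set A := Algebra.adjoin ℂ (Set.range x) with hA
  have hle : Algebra.adjoin ℂ (Set.range y) ≤ A := by
    refine Algebra.adjoin_mono ?_
    rintro _ ⟨i, rfl⟩
    exact ⟨some i, rfl⟩
  have hTA : T ∈ A := Algebra.subset_adjoin ⟨none, rfl⟩
  have hT0 : T ≠ 0 := fun h => by
    rw [h, zero_mul] at hT
    exact zero_ne_one hT
  have key : ∀ z ∈ S ∪ {T, T'}, IsAlgebraic A z := by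
    rintro z (hz | hz | hz)
    · have h1 : IsIntegral A z := by
        let _ : Algebra (Algebra.adjoin ℂ (Set.range y)) A := (Subalgebra.inclusion hle).toAlgebra
        have : IsScalarTower (Algebra.adjoin ℂ (Set.range y)) A B :=
          IsScalarTower.of_algebraMap_eq fun _ => rfl
        exact (hS z hz).tower_top
      exact h1.isAlgebraic
    · rw [hz]
      exact isAlgebraic_algebraMap (⟨T, hTA⟩ : A)
    · rw [Set.mem_singleton_iff] at hz
      rw [hz]
      refine ⟨Polynomial.C (⟨T, hTA⟩ : A) * Polynomial.X - 1, ?_, ?_⟩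
      · intro h0
        have h1 := congrArg (fun p => Polynomial.coeff p 0) h0
        simp at h1
      · rw [map_sub, map_mul, Polynomial.aeval_C, Polynomial.aeval_X, map_one]
        change T * T' - 1 = 0
        rw [hT, sub_self]
  have hall : ∀ z : B, IsAlgebraic A z := by
    intro z
    have h1 : Algebra.adjoin ℂ (S ∪ {T, T'}) ≤
        (Subalgebra.algebraicClosure A B).restrictScalars ℂ :=
      Algebra.adjoin_le fun w hw => key w hw
    rw [hgen] at h1
    exact h1 (Algebra.mem_top : z ∈ (⊤ : Subalgebra ℂ B))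
  have : Algebra.IsAlgebraic (Algebra.adjoin ℂ (Set.range x)) B := ⟨hall⟩
  have h2 := td_le_card (A := B) x
  rwa [Fintype.card_option, Fintype.card_fin] at h2

variable (wt : Fin 5 → ℕ) (J : Ideal R7)

noncomputable instance : Algebra ℂ (Lam wt J) :=
  inferInstanceAs (Algebra ℂ (LaurentPolynomial (R7 ⧸ J)))

/-- the classes of the elements of `R` -/
noncomputable def lamC : R7 →ₐ[ℂ] Lam wt J where
  toRingHom := ((LaurentPolynomial.C : (R7 ⧸ J) →+* LaurentPolynomial (R7 ⧸ J)).comp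
    (Ideal.Quotient.mk J) : R7 →+* Lam wt J)
  commutes' _ := rfl

/-- the powers of `T` -/
noncomputable def lamT (n : ℤ) : Lam wt J := (LaurentPolynomial.T n : LaurentPolynomial (R7 ⧸ J))

/-- the homomorphism from the ring of the coordinates of two points -/
noncomputable def phiA : Coord (Fin 5) 2 →ₐ[ℂ] Lam wt J := phi wt J

theorem lamT_mul : lamT wt J 1 * lamT wt J (-1) = 1 := by
  have h1 : (LaurentPolynomial.T 1 * LaurentPolynomial.T (-1) : LaurentPolynomial (R7 ⧸ J)) = 1 := by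
    rw [← LaurentPolynomial.T_add, add_neg_cancel, LaurentPolynomial.T_zero]
  exact h1

/-- the generators -/
def lamGen : Set (Lam wt J) := (Set.range fun j : Fin 7 => lamC wt J (X j)) ∪ {lamT wt J 1, lamT wt J (-1)}

theorem lam_gen : Algebra.adjoin ℂ (lamGen wt J) = ⊤ := by
  rw [eq_top_iff]
  intro x _
  have hC : ∀ p : R7, lamC wt J p ∈ Algebra.adjoin ℂ (lamGen wt J) := by
    intro p
    induction p using MvPolynomial.induction_on with
    | C a => exact Subalgebra.algebraMap_mem _ a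
    | add p q hp hq => rw [map_add]; exact add_mem hp hq
    | mul_X p i hp =>
      rw [map_mul]
      exact mul_mem hp (Algebra.subset_adjoin (Or.inl ⟨i, rfl⟩))
  have hT1 : ∀ n : ℕ, lamT wt J n ∈ Algebra.adjoin ℂ (lamGen wt J) := by
    intro n
    have h1 : lamT wt J n = lamT wt J 1 ^ n := by
      have h2 : (LaurentPolynomial.T 1 : LaurentPolynomial (R7 ⧸ J)) ^ n =
          LaurentPolynomial.T ((n : ℤ) * 1) := LaurentPolynomial.T_pow 1 n
      rw [mul_one] at h2
      exact h2.symm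
    rw [h1]
    have h3 : lamT wt J 1 ∈ Algebra.adjoin ℂ (lamGen wt J) :=
      Algebra.subset_adjoin (Or.inr (Or.inl rfl))
    exact Subalgebra.pow_mem _ h3 n
  have hT2 : ∀ n : ℕ, lamT wt J (-(n : ℤ)) ∈ Algebra.adjoin ℂ (lamGen wt J) := by
    intro n
    have h1 : lamT wt J (-(n : ℤ)) = lamT wt J (-1) ^ n := by
      have h2 : (LaurentPolynomial.T (-1) : LaurentPolynomial (R7 ⧸ J)) ^ n =
          LaurentPolynomial.T ((n : ℤ) * (-1)) := LaurentPolynomial.T_pow (-1) n
      rw [mul_neg, mul_one] at h2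
      exact h2.symm
    rw [h1]
    have h3 : lamT wt J (-1) ∈ Algebra.adjoin ℂ (lamGen wt J) :=
      Algebra.subset_adjoin (Or.inr (Or.inr rfl))
    exact Subalgebra.pow_mem _ h3 n
  have hT : ∀ n : ℤ, lamT wt J n ∈ Algebra.adjoin ℂ (lamGen wt J) := by
    intro n
    rcases Int.eq_nat_or_neg n with ⟨m, rfl | rfl⟩
    · exact hT1 m
    · exact hT2 m
  have key : ∀ x : LaurentPolynomial (R7 ⧸ J),
      (show Lam wt J from x) ∈ Algebra.adjoin ℂ (lamGen wt J) := by
    intro x
    induction x using LaurentPolynomial.induction_on' with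
    | add p q hp hq => exact add_mem hp hq
    | C_mul_T n a =>
      obtain ⟨p, rfl⟩ := Ideal.Quotient.mk_surjective a
      exact mul_mem (hC p) (hT n)
  exact key x

instance : Algebra.FiniteType ℂ (Lam wt J) := by
  have h1 : (lamGen wt J).Finite := (Set.finite_range _).union (Set.toFinite _)
  refine ⟨⟨h1.toFinset, ?_⟩⟩
  rw [Set.Finite.coe_toFinset]
  exact lam_gen wt J

variable {wt J}

/-- the transcendence degree of the primes of the ring of Laurent polynomials over `R / J` -/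
theorem td_prime_le {n : ℕ} (f : Fin n → R7)
    (h : ∀ j : Fin 7, IsIntegral (Algebra.adjoin ℂ (Set.range fun i => Ideal.Quotient.mk J (f i)))
      (Ideal.Quotient.mk J (X j)))
    (q : Ideal (Lam wt J)) [q.IsPrime] : Dg.td (Lam wt J ⧸ q) ≤ n + 1 := by
  set π : Lam wt J →ₐ[ℂ] Lam wt J ⧸ q := Ideal.Quotient.mkₐ ℂ q with hπ
  set ρ : (R7 ⧸ J) →ₐ[ℂ] Lam wt J ⧸ q := Ideal.Quotient.liftₐ J (π.comp (lamC wt J)) (by
    intro a ha
    have h1 : lamC wt J a = 0 := by
      change (LaurentPolynomial.C (Ideal.Quotient.mk J a) : LaurentPolynomial (R7 ⧸ J)) = 0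
      rw [Ideal.Quotient.eq_zero_iff_mem.2 ha, map_zero]
    rw [AlgHom.comp_apply, h1, map_zero]) with hρ
  have hρm : ∀ r : R7, ρ (Ideal.Quotient.mk J r) = π (lamC wt J r) := fun r => rfl
  refine td_le_of_gen (fun i => π (lamC wt J (f i))) (π (lamT wt J 1)) (π (lamT wt J (-1))) ?_
    (Set.range fun j : Fin 7 => π (lamC wt J (X j))) ?_ ?_
  · rw [← map_mul, lamT_mul, map_one]
  · rintro _ ⟨j, rfl⟩
    have h1 := h j
    have h2 : (Algebra.adjoin ℂ (Set.range fun i => Ideal.Quotient.mk J (f i))).map ρ ≤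
        Algebra.adjoin ℂ (Set.range fun i => π (lamC wt J (f i))) := by
      rw [AlgHom.map_adjoin]
      refine Algebra.adjoin_mono ?_
      rintro _ ⟨_, ⟨i, rfl⟩, rfl⟩
      exact ⟨i, rfl⟩
    let g : Algebra.adjoin ℂ (Set.range fun i => Ideal.Quotient.mk J (f i)) →+*
        Algebra.adjoin ℂ (Set.range fun i => π (lamC wt J (f i))) :=
      { toFun := fun x => ⟨ρ x, h2 ⟨x, x.2, rfl⟩⟩
        map_one' := Subtype.ext (map_one ρ)
        map_mul' := fun x y => Subtype.ext (map_mul ρ _ _)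
        map_zero' := Subtype.ext (map_zero ρ)
        map_add' := fun x y => Subtype.ext (map_add ρ _ _) }
    exact IsIntegral.map_of_comp_eq g (ρ : (R7 ⧸ J) →+* Lam wt J ⧸ q) rfl h1
  · have h1 := congrArg (Subalgebra.map π) (lam_gen wt J)
    rw [AlgHom.map_adjoin, lamGen, Set.image_union, ← Set.range_comp, Set.image_pair] at h1
    rw [Algebra.map_top, (AlgHom.range_eq_top π).2 (Ideal.Quotient.mkₐ_surjective ℂ q)] at h1
    exact h1

/-- for the levels: all primes containing the kernel have transcendence degree at most `n + 1` if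
modulo `J` all variables are integral over `n` elements -/
theorem td_le {wt : Fin 5 → ℕ} {J : Ideal R7} {n : ℕ} (f : Fin n → R7)
    (h : ∀ j : Fin 7, IsIntegral (Algebra.adjoin ℂ (Set.range fun i => Ideal.Quotient.mk J (f i)))
      (Ideal.Quotient.mk J (X j)))
    {P : Ideal (Coord (Fin 5) 2)} (hP : P.IsPrime) (hJ : RingHom.ker (phi wt J) ≤ P) :
    Dg.td (Coord (Fin 5) 2 ⧸ P) ≤ n + 1 :=
  td_le_of_ker (phiA wt J) (fun q _ => td_prime_le f h q) hP hJ

end td

end Mn

end Pool.Agent.RCH
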