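import Pool.Agent.RCH.MnTT
import Pool.Agent.RCH.LatI

/-!
# Row M1c: relations
-/

set_option autoImplicit false

open MvPolynomial

namespace Pool.Agent.RCH.Mn

open TT

section integral

/-- integrality over a finitely generated subalgebra is preserved by homomorphisms -/
lemma isIntegral_map {A B : Type} [CommRing A] [CommRing B] [Algebra ℂ A] [Algebra ℂ B]
    (ψ : A →ₐ[ℂ] B) {n : ℕ} (f : Fin n → A) {x : A}
    (hx : IsIntegral (Algebra.adjoin ℂ (Set.range f)) x) :
    IsIntegral (Algebra.adjoin ℂ (Set.range fun i => ψ (f i))) (ψ x) := by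
  obtain ⟨p, hp, hpx⟩ := hx
  have hmem : ∀ a ∈ Algebra.adjoin ℂ (Set.range f),
      ψ a ∈ Algebra.adjoin ℂ (Set.range fun i => ψ (f i)) := by
    have h1 : Algebra.adjoin ℂ (Set.range f) ≤
        (Algebra.adjoin ℂ (Set.range fun i => ψ (f i))).comap ψ := by
      rw [Algebra.adjoin_le_iff]
      rintro _ ⟨i, rfl⟩
      exact Algebra.subset_adjoin ⟨i, rfl⟩
    exact fun a ha => h1 ha
  let ψ' : Algebra.adjoin ℂ (Set.range f) →+* Algebra.adjoin ℂ (Set.range fun i => ψ (f i)) :=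
    (ψ.comp (Algebra.adjoin ℂ (Set.range f)).val).toRingHom.codRestrict _
      (fun a => hmem a.1 a.2)
  refine ⟨p.map ψ', hp.map ψ', ?_⟩
  rw [Polynomial.eval₂_map]
  have h2 : (algebraMap (Algebra.adjoin ℂ (Set.range fun i => ψ (f i))) B).comp ψ' =
      (ψ.toRingHom).comp (algebraMap (Algebra.adjoin ℂ (Set.range f)) A) := by
    ext a
    rfl
  rw [h2]
  have h3 := Polynomial.hom_eval₂ p (algebraMap (Algebra.adjoin ℂ (Set.range f)) A) ψ.toRingHom x
  rw [hpx, map_zero] at h3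
  exact h3.symm

end integral

section rel

variable {X : WVar (Fin 5)} {J : Ideal R7}

lemma z0_sub_lift (i : Fin 5) : z X 0 i - lift X (al i) ∈ KJ X J := by
  rw [mem_KJ, map_sub, piT_z0, piT_lift, sub_self]
  exact zero_mem _

lemma z1_sub_lift (i : Fin 5) : z X 1 i - lift X (be i) ∈ KJ X J := by
  rw [mem_KJ, map_sub, piT_z1, piT_lift, sub_self]
  exact zero_mem _

lemma al_eq_X (i : Fin 5) : ∃ j : Fin 7, al i = MvPolynomial.X j := by
  fin_cases i
  · exact ⟨0, rfl⟩
  · exact ⟨2, rfl⟩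
  · exact ⟨3, rfl⟩
  · exact ⟨4, rfl⟩
  · exact ⟨5, rfl⟩

lemma be_eq_X (i : Fin 5) : ∃ j : Fin 7, be i = MvPolynomial.X j := by
  fin_cases i
  · exact ⟨1, rfl⟩
  · exact ⟨2, rfl⟩
  · exact ⟨3, rfl⟩
  · exact ⟨4, rfl⟩
  · exact ⟨6, rfl⟩

/-- the dimension of the module of Laurent polynomials -/
theorem td_KJ {n : ℕ} (f : Fin n → R7)
    (hf : ∀ j : Fin 7, IsIntegral (Algebra.adjoin ℂ (Set.range fun i => Ideal.Quotient.mk J (f i)))
      (Ideal.Quotient.mk J (MvPolynomial.X j))) {q : Ideal (TT X)} (hq : q.IsPrime)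
    (hJq : KJ X J ≤ q) : Dg.td (TT X ⧸ q) ≤ n + 1 := by
  -- the homomorphism `R / J → TT / q`
  let ψ : (R7 ⧸ J) →ₐ[ℂ] (TT X ⧸ q) := Ideal.Quotient.liftₐ J
    ((Ideal.Quotient.mkₐ ℂ q).comp (lift X)) (fun r hr => by
      change Ideal.Quotient.mk q (lift X r) = 0
      rw [Ideal.Quotient.eq_zero_iff_mem]
      exact hJq (lift_mem_KJ.mpr hr))
  have hψ : ∀ r, ψ (Ideal.Quotient.mk J r) = Ideal.Quotient.mk q (lift X r) := fun r => rfl
  refine Lat.td_le_gen (fun i => ψ (Ideal.Quotient.mk J (f i))) (Ideal.Quotient.mk q (L X))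
    (Ideal.Quotient.mk q (L' X)) ?_ (Set.range fun j : Fin 7 =>
      ψ (Ideal.Quotient.mk J (MvPolynomial.X j))) ?_ ?_
  · rw [← map_mul, ← map_one (Ideal.Quotient.mk q), Ideal.Quotient.mk_eq_mk_iff_sub_mem]
    exact hJq KJ_LL'
  · rintro _ ⟨j, rfl⟩
    exact isIntegral_map ψ _ (hf j)
  · rw [eq_top_iff]
    rintro x -
    obtain ⟨x, rfl⟩ := Ideal.Quotient.mk_surjective x
    set B := Algebra.adjoin ℂ ((Set.range fun j : Fin 7 =>
      ψ (Ideal.Quotient.mk J (MvPolynomial.X j))) ∪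
        {Ideal.Quotient.mk q (L X), Ideal.Quotient.mk q (L' X)}) with hB
    have hgen : ∀ v : (Fin 2 × Fin 5) ⊕ Bool,
        Ideal.Quotient.mk q ((MvPolynomial.X v : MvPolynomial ((Fin 2 × Fin 5) ⊕ Bool) ℂ) : TT X) ∈
          B := by
      have hlift : ∀ j : Fin 7, Ideal.Quotient.mk q (lift X (MvPolynomial.X j)) ∈ B := fun j =>
        Algebra.subset_adjoin (Or.inl ⟨j, rfl⟩)
      rintro (⟨k, i⟩ | b)
      · have hk : k = 0 ∨ k = 1 := by omega
        rcases hk with rfl | rfl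
        · have h1 : Ideal.Quotient.mk q (z X 0 i) = Ideal.Quotient.mk q (lift X (al i)) := by
            rw [Ideal.Quotient.mk_eq_mk_iff_sub_mem]
            exact hJq (z0_sub_lift i)
          obtain ⟨j, hj⟩ := al_eq_X i
          rw [hj] at h1
          change Ideal.Quotient.mk q (z X 0 i) ∈ B
          rw [h1]
          exact hlift j
        · have h1 : Ideal.Quotient.mk q (z X 1 i) = Ideal.Quotient.mk q (lift X (be i)) := by
            rw [Ideal.Quotient.mk_eq_mk_iff_sub_mem]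
            exact hJq (z1_sub_lift i)
          obtain ⟨j, hj⟩ := be_eq_X i
          rw [hj] at h1
          change Ideal.Quotient.mk q (z X 1 i) ∈ B
          rw [h1]
          exact hlift j
      · cases b
        · exact Algebra.subset_adjoin (Or.inr (Or.inl rfl))
        · exact Algebra.subset_adjoin (Or.inr (Or.inr rfl))
    have key : ∀ p : MvPolynomial ((Fin 2 × Fin 5) ⊕ Bool) ℂ,
        Ideal.Quotient.mk q (p : TT X) ∈ B := by
      intro p
      induction p using MvPolynomial.induction_on with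
      | C a => exact B.algebraMap_mem a
      | add p r hp hr =>
        have h2 : Ideal.Quotient.mk q ((p + r : MvPolynomial ((Fin 2 × Fin 5) ⊕ Bool) ℂ) : TT X) =
            Ideal.Quotient.mk q (p : TT X) + Ideal.Quotient.mk q (r : TT X) := map_add _ _ _
        rw [h2]
        exact B.add_mem hp hr
      | mul_X p v hp =>
        have h2 : Ideal.Quotient.mk q ((p * MvPolynomial.X v :
            MvPolynomial ((Fin 2 × Fin 5) ⊕ Bool) ℂ) : TT X) = Ideal.Quotient.mk q (p : TT X) *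
              Ideal.Quotient.mk q ((MvPolynomial.X v :
                MvPolynomial ((Fin 2 × Fin 5) ⊕ Bool) ℂ) : TT X) := map_mul _ _ _
        rw [h2]
        exact B.mul_mem hp (hgen v)
    exact key x

/-- the components of a substitution of homogeneous polynomials -/
lemma component_aeval {σ τ : Type} [Fintype σ] {w : σ → ℕ} {w' : τ → ℕ} {r : σ → MvPolynomial τ ℂ}
    (hr : ∀ i, IsWeightedHomogeneous w' (r i) (w i)) (F : MvPolynomial σ ℂ) (c : ℕ) :
    weightedHomogeneousComponent w' c (aeval r F) =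
      aeval r (weightedHomogeneousComponent w c F) := by
  classical
  have h1 : ∀ (m : σ →₀ ℕ) (a : ℂ),
      IsWeightedHomogeneous w' (aeval r (monomial m a)) (Finsupp.weight w m) := by
    intro m a
    rw [aeval_monomial, Finsupp.weight_apply, Finsupp.sum, Finsupp.prod]
    have h2 := (isWeightedHomogeneous_C w' a).mul
      (IsWeightedHomogeneous.prod (w := w') m.support (fun i => r i ^ m i) (fun i => m i • w i)
        (fun i _ => (hr i).pow (m i)))
    rwa [zero_add] at h2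
  have h3 : aeval r F = ∑ m ∈ F.support, aeval r (monomial m (coeff m F)) := by
    conv_lhs => rw [F.as_sum, map_sum]
  rw [h3, map_sum, weightedHomogeneousComponent_apply, map_sum, Finset.sum_filter]
  refine Finset.sum_congr rfl fun m _ => ?_
  split_ifs with h
  · rw [← h]
    exact (h1 m _).weightedHomogeneousComponent_same
  · exact (h1 m _).weightedHomogeneousComponent_ne c (Ne.symm h)

/-- the equations, without homogeneity of `F` -/
theorem KJ_eqs' {F : MvPolynomial (Fin 5) ℂ} (hX : X.eqs = Ideal.span {F})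
    (hJ : Dg.Hom (w7 X.wt) J) (hFa : aeval al F ∈ J) (hFb : aeval be F ∈ J)
    (i : Fin 2) (f : MvPolynomial (Fin 5) ℂ) (hf : f ∈ X.eqs) :
    algebraMap (Coord (Fin 5) 2) (TT X) (inFactor 2 i f) ∈ KJ X J := by
  rw [hX] at hf
  obtain ⟨c, rfl⟩ := Ideal.mem_span_singleton.1 hf
  rw [map_mul, map_mul]
  refine Ideal.mul_mem_right _ _ ?_
  rw [algebraMap_apply]
  have hi : i = 0 ∨ i = 1 := by omega
  rcases hi with rfl | rfl
  · exact str_inFactor0_mem hFa
  · have h1 : ∀ n, aeval be (weightedHomogeneousComponent X.wt n F) ∈ J := by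
      intro n
      rw [← component_aeval (be_hom X.wt) F n]
      exact hJ _ hFb n
    have key : ∀ g : MvPolynomial (Fin 5) ℂ →+ TT X,
        (∀ n, g (weightedHomogeneousComponent X.wt n F) ∈ KJ X J) → g F ∈ KJ X J := by
      intro g hg
      have h3 := g.map_finsum (weightedHomogeneousComponent_finsupp (w := X.wt) F)
      rw [sum_weightedHomogeneousComponent X.wt F] at h3
      rw [h3]
      exact finsum_induction (fun t => t ∈ KJ X J) (zero_mem _) (fun _ _ => add_mem) hg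
    exact key ((str X).toRingHom.comp (inFactor 2 1).toRingHom).toAddMonoidHom fun n =>
      str_inFactor1_mem (weightedHomogeneousComponent_isWeightedHomogeneous n F) (h1 n)

/-- **Relations.** -/
theorem rel {X : WVar (Fin 5)} (hpos : ∀ j, 0 < X.wt j) {F : MvPolynomial (Fin 5) ℂ}
    (hX : X.eqs = Ideal.span {F}) {J : Ideal R7} (hJ : Dg.Hom (w7 X.wt) J)
    (hFa : aeval al F ∈ J) (hFb : aeval be F ∈ J) {f : Fin 4 → R7}
    (hf : ∀ j : Fin 7, IsIntegral (Algebra.adjoin ℂ (Set.range fun i => Ideal.Quotient.mk J (f i)))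
      (Ideal.Quotient.mk J (MvPolynomial.X j))) {b b' : R7} {m : ℕ}
    (hb0 : IsWeightedHomogeneous (w7 X.wt) b m) (hb0' : IsWeightedHomogeneous (w7 X.wt) b' m)
    (hb : Nzd J b) (hb' : Nzd J b') :
    ∃ D ∈ RatZero X 2,
      (∀ Q : Pt X 2, D Q ≠ 0 → lev Q = 4 ∧ RingHom.ker (phi X.wt J) ≤ Q.I) ∧
      ∀ Q : Pt X 2, lev Q = 4 → (∃ j : Fin 5, al j - be j ∈ J ∧
        (MvPolynomial.X (0, j) : Coord (Fin 5) 2) ∉ Q.I ∧
        (MvPolynomial.X (1, j) : Coord (Fin 5) 2) ∉ Q.I) →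
        (haveI := Q.prime; cl X.wt (J ⊔ Ideal.span {b}) Q.I ≠ ⊤) ∧
        (haveI := Q.prime; cl X.wt (J ⊔ Ideal.span {b'}) Q.I ≠ ⊤) ∧
        D Q = clz (J ⊔ Ideal.span {b}) Q - clz (J ⊔ Ideal.span {b'}) Q := by
  obtain ⟨c, hc, h1, h2⟩ := Lat.rel3 (X := X) (gr X) (str_mem_X X) (J := KJ X J)
    (KJ_homogeneous hJ) (lift_mem hb0) (lift_mem hb0') (KJ_nzd hb) (KJ_nzd hb') (e := 4)
    (fun q hq hJq => td_KJ f hf hq hJq) (KJ_eqs' hX hJ hFa hFb)
    (G := fun Q => ∃ j : Fin 5, al j - be j ∈ J ∧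
      (MvPolynomial.X (0, j) : Coord (Fin 5) 2) ∉ Q.I ∧
      (MvPolynomial.X (1, j) : Coord (Fin 5) 2) ∉ Q.I) (fun Q hQ => by
        obtain ⟨j, hj, h0, h1⟩ := hQ
        have := Q.prime
        exact KJ_fin hj hj (hpos j).ne' (hpos j).ne' Q.I h0 h1)
  refine ⟨c, hc, fun Q hQ => ?_, fun Q hlev hG => ?_⟩
  · obtain ⟨h3, h4⟩ := h2 Q hQ
    rw [comap_KJ] at h3
    exact ⟨h4, h3⟩
  · have := Q.prime
    obtain ⟨h3, h4, h5⟩ := h1 Q hG hlev
    rw [← KJ_sup, ← cl_eq_TT] at h3 h4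
    rw [← KJ_sup, ← KJ_sup, ← cl_eq_TT, ← cl_eq_TT] at h5
    exact ⟨h3, h4, h5⟩

end rel

end Pool.Agent.RCH.Mn
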