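import Pool.Agent.RCH.Mn1a
import Pool.Agent.RCH.Mn1b
import Pool.Agent.RCH.Mn1c

/-!
# Row M1: the lengths of the modules of Laurent polynomials; relations
-/
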