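import Pool.Agent.RCH.MnDefs
import Pool.Agent.RCH.MBoxLen

/-!
# Row M1, first part: the module of the Laurent polynomials is exact; automorphisms
-/

set_option autoImplicit false

open MvPolynomial

namespace Pool.Agent.RCH.Mn

section basic

/-- the Laurent polynomials over `R`, an algebra over the ring of the coordinates of two points -/
def LL (_ : Fin 5 → ℕ) : Type := LaurentPolynomial R7

variable (wt : Fin 5 → ℕ)

noncomputable instance : CommRing (LL wt) := inferInstanceAs (CommRing (LaurentPolynomial R7))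

/-- the homomorphism to the Laurent polynomials over `R` -/
noncomputable def phi0 : Coord (Fin 5) 2 →ₐ[ℂ] LaurentPolynomial R7 :=
  aeval fun v => if v.1 = 0 then LaurentPolynomial.C (al v.2)
    else LaurentPolynomial.C (be v.2) * LaurentPolynomial.T (wt v.2)

noncomputable instance : Algebra (Coord (Fin 5) 2) (LL wt) := (phi0 wt).toRingHom.toAlgebra

/-- reduction of the coefficients modulo `J` -/
noncomputable def red (J : Ideal R7) : LaurentPolynomial R7 →+* LaurentPolynomial (R7 ⧸ J) :=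
  AddMonoidAlgebra.mapRingHom ℤ (Ideal.Quotient.mk J)

lemma coeff_red (J : Ideal R7) (f : LaurentPolynomial R7) (n : ℤ) :
    (red J f).coeff n = Ideal.Quotient.mk J (f.coeff n) :=
  AddMonoidAlgebra.coeff_mapRingHom _ f n

lemma red_C (J : Ideal R7) (r : R7) :
    red J (LaurentPolynomial.C r) = LaurentPolynomial.C (Ideal.Quotient.mk J r) := by
  ext n
  rw [coeff_red, LaurentPolynomial.C_apply, LaurentPolynomial.C_apply]
  split_ifs
  · rfl
  · exact map_zero _

lemma red_T (J : Ideal R7) (m : ℤ) :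
    red J (LaurentPolynomial.T m) = LaurentPolynomial.T m := by
  ext n
  rw [coeff_red, LaurentPolynomial.T_apply, LaurentPolynomial.T_apply]
  split_ifs
  · exact map_one _
  · exact map_zero _

lemma red_C_mul_T (J : Ideal R7) (r : R7) (m : ℤ) :
    red J (LaurentPolynomial.C r * LaurentPolynomial.T m) =
      LaurentPolynomial.C (Ideal.Quotient.mk J r) * LaurentPolynomial.T m := by
  rw [map_mul, red_C, red_T]

lemma red_surjective (J : Ideal R7) : Function.Surjective (red J) :=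
  AddMonoidAlgebra.map_surjective _ Ideal.Quotient.mk_surjective

lemma red_phi0 (J : Ideal R7) (p : Coord (Fin 5) 2) : red J (phi0 wt p) = phi wt J p := by
  have h : (red J).comp (phi0 wt).toRingHom = (phi wt J).toRingHom := by
    apply MvPolynomial.ringHom_ext
    · intro r
      change red J (phi0 wt (C r)) = phi wt J (C r)
      have h1 : phi0 wt (C r) = LaurentPolynomial.C (C r) := by
        rw [phi0, aeval_C]
        rfl
      have h2 : phi wt J (C r) = LaurentPolynomial.C (Ideal.Quotient.mk J (C r)) := by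
        rw [phi, aeval_C]
        rfl
      rw [h1, h2, red_C]
    · intro v
      change red J (phi0 wt (X v)) = phi wt J (X v)
      rw [phi0, phi, aeval_X, aeval_X]
      split_ifs
      · rw [red_C]
      · rw [map_mul, red_C, red_T]
  exact RingHom.congr_fun h p

/-- the coefficients -/
noncomputable def cf (f : LL wt) (n : ℤ) : R7 := (show LaurentPolynomial R7 from f).coeff n

/-- the constants -/
noncomputable def LC : R7 →+* LL wt := (LaurentPolynomial.C : R7 →+* LaurentPolynomial R7)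

/-- the powers of the variable -/
noncomputable def LT (n : ℤ) : LL wt := (LaurentPolynomial.T n : LaurentPolynomial R7)

/-- the structure map -/
noncomputable def phiL : Coord (Fin 5) 2 →+* LL wt := (phi0 wt).toRingHom

/-- the structure map of the module of Laurent polynomials over `R / J` -/
noncomputable def phiM (J : Ideal R7) : Coord (Fin 5) 2 →+* Lam wt J := (phi wt J).toRingHom

/-- the reduction modulo `J` -/
noncomputable def redL (J : Ideal R7) : LL wt →+* Lam wt J := red J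

variable {wt}

lemma LL_ext {f g : LL wt} (h : ∀ n, cf wt f n = cf wt g n) : f = g := LaurentPolynomial.ext h

lemma cf_LC_mul (b : R7) (f : LL wt) (n : ℤ) : cf wt (LC wt b * f) n = b * cf wt f n := by
  have : (LaurentPolynomial.C b * (show LaurentPolynomial R7 from f)).coeff n =
      b * (show LaurentPolynomial R7 from f).coeff n := by
    rw [← LaurentPolynomial.smul_eq_C_mul]
    rfl
  exact this

lemma cf_LC (b : R7) (n : ℤ) : cf wt (LC wt b) n = if n = 0 then b else 0 :=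
  LaurentPolynomial.C_apply b n

lemma cf_add (f g : LL wt) (n : ℤ) : cf wt (f + g) n = cf wt f n + cf wt g n := rfl

lemma cf_zero (n : ℤ) : cf wt 0 n = 0 := rfl

lemma sum_cf (f : LL wt) : ∃ s : Finset ℤ, f = ∑ n ∈ s, LC wt (cf wt f n) * LT wt n := by
  refine ⟨(show LaurentPolynomial R7 from f).coeff.support, ?_⟩
  have h2 : (show LaurentPolynomial R7 from f) =
      ∑ n ∈ (show LaurentPolynomial R7 from f).coeff.support,
        LaurentPolynomial.C ((show LaurentPolynomial R7 from f).coeff n) *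
          LaurentPolynomial.T n := by
    refine LaurentPolynomial.ext fun a => ?_
    simp_rw [← LaurentPolynomial.single_eq_C_mul_T]
    rw [AddMonoidAlgebra.coeff_sum, Finsupp.finsetSum_apply]
    simp only [AddMonoidAlgebra.coeff_single]
    by_cases ha : a ∈ (show LaurentPolynomial R7 from f).coeff.support
    · rw [Finset.sum_eq_single a, Finsupp.single_eq_same]
      · intro b' _ hb'
        exact Finsupp.single_eq_of_ne' hb'
      · intro h
        exact absurd ha h
    · rw [Finset.sum_eq_zero, Finsupp.notMem_support_iff.1 ha]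
      intro b' hb'
      refine Finsupp.single_eq_of_ne' fun h => ha (h ▸ hb')
  exact h2

lemma redL_surjective (J : Ideal R7) : Function.Surjective (redL wt J) := red_surjective J

lemma redL_phiL (J : Ideal R7) (p : Coord (Fin 5) 2) :
    redL wt J (phiL wt p) = phiM wt J p := red_phi0 wt J p

lemma smul_LL (p : Coord (Fin 5) 2) (f : LL wt) : p • f = phiL wt p * f := rfl

lemma smul_Lam (J : Ideal R7) (p : Coord (Fin 5) 2) (f : Lam wt J) :
    p • f = phiM wt J p * f := rfl

variable (wt) in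
/-- the Laurent polynomials with coefficients in `J` -/
noncomputable def LI (J : Ideal R7) : Ideal (LL wt) := RingHom.ker (redL wt J)

lemma mem_LI {J : Ideal R7} {f : LL wt} : f ∈ LI wt J ↔ ∀ n, cf wt f n ∈ J := by
  rw [LI, RingHom.mem_ker]
  constructor
  · intro h n
    rw [← Ideal.Quotient.eq_zero_iff_mem]
    refine (coeff_red J (show LaurentPolynomial R7 from f) n).symm.trans ?_
    exact congrArg (fun g : Lam wt J => (show LaurentPolynomial (R7 ⧸ J) from g).coeff n) h
  · intro h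
    refine LaurentPolynomial.ext fun n => ?_
    refine (coeff_red J (show LaurentPolynomial R7 from f) n).trans ?_
    exact Ideal.Quotient.eq_zero_iff_mem.2 (h n)

lemma mem_ker_phi {J : Ideal R7} {p : Coord (Fin 5) 2} :
    p ∈ RingHom.ker (phi wt J) ↔ phiL wt p ∈ LI wt J := by
  rw [RingHom.mem_ker, LI, RingHom.mem_ker, redL_phiL]
  exact Iff.rfl

/-- the quotient of the Laurent polynomials over `R` -/
noncomputable def lamEquiv (J : Ideal R7) :
    (LL wt ⧸ LI wt J) ≃ₗ[Coord (Fin 5) 2] Lam wt J := by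
  let e : (LL wt ⧸ LI wt J) ≃+* Lam wt J :=
    RingHom.quotientKerEquivOfSurjective (f := redL wt J) (redL_surjective J)
  refine { e.toAddEquiv with map_smul' := ?_ }
  intro r x
  obtain ⟨x, rfl⟩ := Ideal.Quotient.mk_surjective x
  change e (r • Ideal.Quotient.mk (LI wt J) x) = r • e (Ideal.Quotient.mk (LI wt J) x)
  have h1 : r • Ideal.Quotient.mk (LI wt J) x = Ideal.Quotient.mk (LI wt J) (phiL wt r * x) := rfl
  have h2 : ∀ y : LL wt, e (Ideal.Quotient.mk (LI wt J) y) = redL wt J y := fun y => rfl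
  rw [h1, h2, h2, smul_Lam, map_mul, redL_phiL]

theorem cl_eq (J : Ideal R7) (Q : Ideal (Coord (Fin 5) 2)) [Q.IsPrime] :
    cl wt J Q = len Q (LL wt ⧸ LI wt J) := (len_equiv Q (lamEquiv J)).symm

lemma LI_mono {J J' : Ideal R7} (h : J ≤ J') : LI wt J ≤ LI wt J' := fun _ hf =>
  mem_LI.2 fun n => h (mem_LI.1 hf n)

lemma LI_col (J : Ideal R7) (b : R7) (f : LL wt) :
    f ∈ LI wt (Dg.col J b) ↔ LC wt b * f ∈ LI wt J := by
  rw [mem_LI, mem_LI]
  refine forall_congr' fun n => ?_
  rw [Dg.mem_col, cf_LC_mul]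

lemma LC_mem_LI {J : Ideal R7} {b : R7} (h : b ∈ J) : LC wt b ∈ LI wt J := by
  rw [mem_LI]
  intro n
  rw [cf_LC]
  split_ifs
  · exact h
  · exact J.zero_mem

lemma LI_sup (J : Ideal R7) (b : R7) :
    LI wt (J ⊔ Ideal.span {b}) = LI wt J ⊔ Ideal.span {LC wt b} := by
  apply le_antisymm
  · intro f hf
    rw [mem_LI] at hf
    obtain ⟨s, hs⟩ := sum_cf f
    rw [hs]
    refine Ideal.sum_mem _ fun n _ => Ideal.mul_mem_right _ _ ?_
    obtain ⟨j, hj, y, hy, hjy⟩ := Submodule.mem_sup.1 (hf n)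
    obtain ⟨c, rfl⟩ := Ideal.mem_span_singleton.1 hy
    rw [← hjy, map_add, map_mul]
    exact add_mem (Ideal.mem_sup_left (LC_mem_LI hj))
      (Ideal.mem_sup_right (Ideal.mul_mem_right _ _ (Ideal.mem_span_singleton_self _)))
  · refine sup_le (LI_mono le_sup_left) ?_
    rw [Ideal.span_singleton_le_iff_mem]
    exact LC_mem_LI (Ideal.mem_sup_right (Ideal.mem_span_singleton_self b))

variable {J : Ideal R7} (Q : Ideal (Coord (Fin 5) 2)) [Q.IsPrime]

/-- `0 → R / (J : b) → R / J → R / (J + b) → 0` -/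
theorem cl_split (b : R7) :
    cl wt J Q = cl wt (Dg.col J b) Q + cl wt (J ⊔ Ideal.span {b}) Q := by
  rw [cl_eq, cl_eq, cl_eq, LI_sup]
  exact len_quot_colon Q _ _ _ (fun f => LI_col J b f)

theorem cl_top (h : J = ⊤) : cl wt J Q = 0 := by
  rw [cl_eq]
  refine len_quot_top Q ?_
  rw [Ideal.eq_top_iff_one, mem_LI]
  intro n
  rw [h]
  trivial

theorem cl_mul {b c : R7} (h : Nzd J b) : cl wt (J ⊔ Ideal.span {b * c}) Q =
    cl wt (J ⊔ Ideal.span {b}) Q + cl wt (J ⊔ Ideal.span {c}) Q := by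
  rw [cl_eq, cl_eq, cl_eq, LI_sup, LI_sup, LI_sup, map_mul,
    len_quot_mul Q (LI wt J) (LC wt b) (LC wt c) ?_, add_comm]
  intro f hf
  have h2 := (LI_col J b f).2 hf
  rw [mem_LI] at h2 ⊢
  exact fun n => h _ (h2 n)

theorem cl_prod {κ : Type} (s : Finset κ) {b : κ → R7} (h : ∀ i ∈ s, Nzd J (b i)) :
    cl wt (J ⊔ Ideal.span {∏ i ∈ s, b i}) Q = ∑ i ∈ s, cl wt (J ⊔ Ideal.span {b i}) Q := by
  classical
  induction s using Finset.induction_on with
  | empty =>
    rw [Finset.prod_empty, Finset.sum_empty]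
    refine cl_top Q ?_
    rw [Ideal.span_singleton_one]
    exact sup_top_eq _
  | insert i s hi ih =>
    rw [Finset.prod_insert hi, Finset.sum_insert hi, cl_mul Q (h i (Finset.mem_insert_self i s)),
      ih fun j hj => h j (Finset.mem_insert_of_mem hj)]

theorem cl_pow {b : R7} (h : Nzd J b) (n : ℕ) :
    cl wt (J ⊔ Ideal.span {b ^ n}) Q = n * cl wt (J ⊔ Ideal.span {b}) Q := by
  have := cl_prod (wt := wt) Q (Finset.univ : Finset (Fin n)) (b := fun _ => b) fun _ _ => h
  rw [Finset.prod_const, Finset.card_univ, Fintype.card_fin, Finset.sum_const, Finset.card_univ,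
    Fintype.card_fin, nsmul_eq_mul] at this
  exact this

omit [Q.IsPrime] in
theorem ker_phi_mono {J' : Ideal R7} (h : J ≤ J') :
    RingHom.ker (phi wt J) ≤ RingHom.ker (phi wt J') := fun _ hp =>
  mem_ker_phi.2 (LI_mono h (mem_ker_phi.1 hp))

theorem cl_eq_zero (h : ¬ RingHom.ker (phi wt J) ≤ Q) : cl wt J Q = 0 := by
  obtain ⟨s, hs, hsQ⟩ := SetLike.not_le_iff_exists.1 h
  have h1 : Subsingleton (LocalizedModule Q.primeCompl (Lam wt J)) := by
    refine LocalizedModule.subsingleton_iff.mpr fun m => ⟨s, hsQ, ?_⟩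
    rw [smul_Lam]
    have h2 : phiM wt J s = 0 := RingHom.mem_ker.1 hs
    rw [h2, zero_mul]
  exact Module.length_eq_zero

/-! ### Automorphisms -/

/-- the unit `ξ T` -/
noncomputable def xiT (ξ : ℂ) (hξ : ξ ≠ 0) : (LaurentPolynomial R7)ˣ where
  val := LaurentPolynomial.C (C ξ) * LaurentPolynomial.T 1
  inv := LaurentPolynomial.C (C ξ⁻¹) * LaurentPolynomial.T (-1)
  val_inv := by
    rw [mul_mul_mul_comm, ← map_mul, ← C_mul, mul_inv_cancel₀ hξ, C_1, map_one, one_mul,
      ← LaurentPolynomial.T_add]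
    simp
  inv_val := by
    rw [mul_mul_mul_comm, ← map_mul, ← C_mul, inv_mul_cancel₀ hξ, C_1, map_one, one_mul,
      ← LaurentPolynomial.T_add]
    simp

lemma xiT_zpow (ξ : ℂ) (hξ : ξ ≠ 0) (n : ℤ) : ((xiT ξ hξ ^ n : (LaurentPolynomial R7)ˣ) :
    LaurentPolynomial R7) = LaurentPolynomial.C (C (ξ ^ n)) * LaurentPolynomial.T n := by
  induction n using Int.induction_on with
  | zero => simp
  | succ n ih =>
    rw [zpow_add_one, Units.val_mul, ih, zpow_add_one₀ hξ, C_mul, map_mul,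
      LaurentPolynomial.T_add]
    change _ * (LaurentPolynomial.C (C ξ) * LaurentPolynomial.T 1) = _
    ring
  | pred n ih =>
    rw [zpow_sub_one, Units.val_mul, ih, zpow_sub_one₀ hξ, C_mul, map_mul,
      LaurentPolynomial.T_sub]
    change _ * (LaurentPolynomial.C (C ξ⁻¹) * LaurentPolynomial.T (-1)) = _
    ring

/-- `∑ r_n T ^ n ↦ ∑ τ (r_n) ξ ^ n T ^ n` -/
noncomputable def Theta (τ : R7 →+* R7) (ξ : ℂ) (hξ : ξ ≠ 0) :
    LaurentPolynomial R7 →+* LaurentPolynomial R7 :=
  LaurentPolynomial.eval₂ ((LaurentPolynomial.C).comp τ) (xiT ξ hξ)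

lemma Theta_C_mul_T (τ : R7 →+* R7) (ξ : ℂ) (hξ : ξ ≠ 0) (r : R7) (n : ℤ) :
    Theta τ ξ hξ (LaurentPolynomial.C r * LaurentPolynomial.T n) =
      LaurentPolynomial.C (C (ξ ^ n) * τ r) * LaurentPolynomial.T n := by
  rw [Theta, LaurentPolynomial.eval₂_C_mul_T, xiT_zpow, RingHom.comp_apply, map_mul]
  ring

lemma coeff_Theta (τ : R7 →+* R7) (ξ : ℂ) (hξ : ξ ≠ 0) (f : LaurentPolynomial R7) (m : ℤ) :
    (Theta τ ξ hξ f).coeff m = C (ξ ^ m) * τ (f.coeff m) := by
  induction f using LaurentPolynomial.induction_on' with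
  | add f g hf hg =>
    rw [map_add, AddMonoidAlgebra.coeff_add, AddMonoidAlgebra.coeff_add, Finsupp.add_apply,
      Finsupp.add_apply, hf, hg, map_add, mul_add]
  | C_mul_T n r =>
    have hc : ∀ (b : R7) (g : LaurentPolynomial R7) (m : ℤ),
        (LaurentPolynomial.C b * g).coeff m = b * g.coeff m := fun b g m => by
      rw [← LaurentPolynomial.smul_eq_C_mul]
      rfl
    rw [Theta_C_mul_T, hc, hc, LaurentPolynomial.T_apply]
    split_ifs with h
    · rw [h, mul_one, mul_one]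
    · rw [mul_zero, mul_zero, map_zero, mul_zero]

/-- `∑ r_n T ^ n ↦ ∑ τ (r_n) ξ ^ n T ^ n` -/
noncomputable def ThL (wt : Fin 5 → ℕ) (τ : R7 →+* R7) (ξ : ℂ) (hξ : ξ ≠ 0) : LL wt →+* LL wt :=
  Theta τ ξ hξ

lemma cf_ThL (τ : R7 →+* R7) (ξ : ℂ) (hξ : ξ ≠ 0) (f : LL wt) (n : ℤ) :
    cf wt (ThL wt τ ξ hξ f) n = C (ξ ^ n) * τ (cf wt f n) := coeff_Theta τ ξ hξ _ n

lemma mem_map_iff (τ : R7 ≃ₐ[ℂ] R7) (r : R7) : τ r ∈ J.map τ ↔ r ∈ J := by
  constructor
  · intro h
    have h2 := Ideal.comap_map_of_bijective (τ : R7 →+* R7) τ.bijective (I := J)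
    rw [← h2]
    exact h
  · exact fun h => Ideal.mem_map_of_mem _ h

lemma ThL_mem_iff (τ : R7 ≃ₐ[ℂ] R7) {ξ : ℂ} (hξ : ξ ≠ 0) (f : LL wt) :
    ThL wt (τ : R7 →+* R7) ξ hξ f ∈ LI wt (J.map τ) ↔ f ∈ LI wt J := by
  rw [mem_LI, mem_LI]
  refine forall_congr' fun n => ?_
  rw [cf_ThL, ← mem_map_iff (J := J) τ (cf wt f n)]
  constructor
  · intro h
    have h3 : τ (cf wt f n) = C (ξ ^ n)⁻¹ * (C (ξ ^ n) * τ (cf wt f n)) := by
      rw [← mul_assoc, ← C_mul, inv_mul_cancel₀ (zpow_ne_zero n hξ), C_1, one_mul]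
    rw [h3]
    exact Ideal.mul_mem_left _ _ h
  · exact fun h => Ideal.mul_mem_left _ _ h

/-- `Θ` is linear modulo `K` -/
lemma ThL_phiL (τ : R7 ≃ₐ[ℂ] R7) {ξ : ℂ} (hξ : ξ ≠ 0) {K : Ideal R7}
    (h0 : ∀ j, τ (al j) - al j ∈ K) (h1 : ∀ j, C (ξ ^ wt j) * τ (be j) - be j ∈ K)
    (p : Coord (Fin 5) 2) :
    ThL wt (τ : R7 →+* R7) ξ hξ (phiL wt p) - phiL wt p ∈ LI wt K := by
  set τ' : R7 →+* R7 := (τ : R7 →+* R7) with hτ'
  have h2 : (red K).comp ((Theta τ' ξ hξ).comp (phi0 wt).toRingHom) =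
      (red K).comp (phi0 wt).toRingHom := by
    apply MvPolynomial.ringHom_ext
    · intro r
      change red _ (Theta τ' ξ hξ (phi0 wt (C r))) = red _ (phi0 wt (C r))
      have h3 : phi0 wt (C r) = LaurentPolynomial.C (C r) := by
        rw [phi0, aeval_C]
        rfl
      have h4 := Theta_C_mul_T τ' ξ hξ (C r) 0
      rw [LaurentPolynomial.T_zero, mul_one, mul_one, zpow_zero, C_1, one_mul] at h4
      rw [h3, h4]
      have h5 : τ' (C r) = C r := τ.commutes r
      rw [h5]
    · intro v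
      change red _ (Theta τ' ξ hξ (phi0 wt (X v))) = red _ (phi0 wt (X v))
      rw [phi0, aeval_X]
      split_ifs with hv
      · have h4 := Theta_C_mul_T τ' ξ hξ (al v.2) 0
        rw [LaurentPolynomial.T_zero, mul_one, mul_one, zpow_zero, C_1, one_mul] at h4
        rw [h4, red_C, red_C]
        congr 1
        exact (Ideal.Quotient.eq).2 (h0 v.2)
      · rw [Theta_C_mul_T, red_C_mul_T, red_C_mul_T]
        congr 2
        refine (Ideal.Quotient.eq).2 ?_
        rw [zpow_natCast]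
        exact h1 v.2
  have h3 := RingHom.congr_fun h2 p
  rw [LI, RingHom.mem_ker, map_sub, sub_eq_zero]
  exact h3

/-- the length depends only on the ideal up to the automorphisms `τ` of `R` with
`τ α_j = α_j`, `ξ ^ wt j * τ β_j = β_j` modulo `τ J` -/
theorem cl_aut (τ : R7 ≃ₐ[ℂ] R7) {ξ : ℂ} (hξ : ξ ≠ 0)
    (h0 : ∀ j, τ (al j) - al j ∈ J.map τ)
    (h1 : ∀ j, C (ξ ^ wt j) * τ (be j) - be j ∈ J.map τ) :
    cl wt (J.map τ) Q = cl wt J Q := by
  rw [cl_eq, cl_eq]
  symm
  let Θ : LL wt →+* LL wt := ThL wt (τ : R7 →+* R7) ξ hξ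
  let Φ : (LL wt ⧸ LI wt J) →+* (LL wt ⧸ LI wt (J.map τ)) :=
    Ideal.Quotient.lift (LI wt J) ((Ideal.Quotient.mk (LI wt (J.map τ))).comp Θ) (by
        intro f hf
        rw [RingHom.comp_apply, Ideal.Quotient.eq_zero_iff_mem]
        exact (ThL_mem_iff τ hξ f).2 hf)
  have hΦ : ∀ f : LL wt, Φ (Ideal.Quotient.mk _ f) = Ideal.Quotient.mk _ (Θ f) := fun f => rfl
  have hinj : Function.Injective Φ := by
    rw [injective_iff_map_eq_zero]
    intro x hx
    obtain ⟨x, rfl⟩ := Ideal.Quotient.mk_surjective x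
    rw [hΦ, Ideal.Quotient.eq_zero_iff_mem] at hx
    rw [Ideal.Quotient.eq_zero_iff_mem]
    exact (ThL_mem_iff τ hξ x).1 hx
  have hsurj : Function.Surjective Φ := by
    intro y
    obtain ⟨y, rfl⟩ := Ideal.Quotient.mk_surjective y
    refine ⟨Ideal.Quotient.mk _ (ThL wt (τ.symm : R7 →+* R7) ξ⁻¹ (inv_ne_zero hξ) y), ?_⟩
    rw [hΦ]
    congr 1
    refine LL_ext fun n => ?_
    rw [cf_ThL, cf_ThL]
    have h2 : (τ : R7 →+* R7) (C (ξ⁻¹ ^ n) * (τ.symm : R7 →+* R7) (cf wt y n)) =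
      C (ξ⁻¹ ^ n) * cf wt y n := by
      rw [map_mul]
      congr 1
      · exact τ.commutes _
      · exact τ.apply_symm_apply _
    rw [h2, ← mul_assoc, ← C_mul, inv_zpow, mul_inv_cancel₀ (zpow_ne_zero n hξ), C_1, one_mul]
  have hlin : ∀ (r : Coord (Fin 5) 2) (x : LL wt ⧸ LI wt J), Φ (r • x) = r • Φ x := by
    intro r x
    obtain ⟨x, rfl⟩ := Ideal.Quotient.mk_surjective x
    have e1 : r • Ideal.Quotient.mk (LI wt J) x = Ideal.Quotient.mk (LI wt J) (phiL wt r * x) := rfl
    have e2 : r • Φ (Ideal.Quotient.mk (LI wt J) x) =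
      Ideal.Quotient.mk (LI wt (J.map τ)) (phiL wt r * Θ x) := rfl
    rw [e1, e2, hΦ, map_mul, Ideal.Quotient.eq, ← sub_mul]
    exact Ideal.mul_mem_right _ _ (ThL_phiL τ hξ h0 h1 r)
  exact len_equiv Q (LinearEquiv.ofBijective
    ({ toFun := Φ, map_add' := map_add Φ, map_smul' := hlin } :
      (LL wt ⧸ LI wt J) →ₗ[Coord (Fin 5) 2] (LL wt ⧸ LI wt (J.map τ))) ⟨hinj, hsurj⟩)

end basic

end Pool.Agent.RCH.Mn
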