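import Pool.Agent.RCH.Mn8p
import Pool.Agent.RCH.MTd
import Pool.Agent.RCH.Fin

/-!
# The section `Y`, the vertex, the divisors of `A` and of `s`
-/

set_option autoImplicit false

open MvPolynomial

namespace Pool.Agent.RCH.Mn

namespace MD

variable (S : MD)

lemma wt_pos (j : Fin 5) : 0 < S.V.wt j := by
  have h0 := S.hN
  have h1 := S.hp
  have h2 := S.hq
  have h3 := S.hw
  have h4 := S.hr
  fin_cases j
  · exact h0
  · exact h1
  · exact h2
  · exact h3
  · exact h4

lemma wt1_eq : Dg.wt1 S.V = fun v : Fin 1 × Fin 5 => ![S.N, S.p, S.q, S.w, S.r] v.2 := rfl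

/-! ### values -/

lemma eval_F {x : Fin 5 → ℂ} (hx : x 3 = 0) :
    eval x S.F = x 0 ^ S.e * eval ![x 1, x 2, x 4] S.A + eval ![x 1, x 2, x 4] S.B := by
  have h := S.shape
  have h1 : Ideal.span {(X 3 : MvPolynomial (Fin 5) ℂ)} ≤ RingHom.ker (eval x) := by
    rw [Ideal.span_le, Set.singleton_subset_iff]
    change eval x (X 3) = 0
    rw [eval_X, hx]
  have h2 : eval x (S.F - (X 0 ^ S.e * rename ![1, 2, 4] S.A + rename ![1, 2, 4] S.B)) = 0 := h1 h
  rw [map_sub, sub_eq_zero, map_add, map_mul, map_pow, eval_X, eval_rename, eval_rename] at h2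
  have h3 : (x ∘ ![1, 2, 4] : Fin 3 → ℂ) = ![x 1, x 2, x 4] := by
    funext i
    fin_cases i <;> rfl
  rw [h2, h3]

lemma eval_A_zero {x : Fin 3 → ℂ} (h0 : x 0 = 0) (h1 : x 1 = 0) : eval x S.A = 0 := by
  have h : Ideal.span {(X 0 : MvPolynomial (Fin 3) ℂ), X 1} ≤ RingHom.ker (eval x) := by
    rw [Ideal.span_le]
    rintro y (rfl | rfl)
    · exact (eval_X _).trans h0
    · exact (eval_X _).trans h1
  exact h S.hAy

/-- a form of positive degree vanishes at zero -/
lemma _root_.Pool.Agent.RCH.Mn.eval_zero_of_homog {σ : Type} {w : σ → ℕ} {f : MvPolynomial σ ℂ} {n : ℕ}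
    (hf : IsWeightedHomogeneous w f n) (hn : 0 < n) : eval (fun _ => (0 : ℂ)) f = 0 := by
  have h1 : (eval (fun _ => (0 : ℂ)) : MvPolynomial σ ℂ →+* ℂ) = constantCoeff := by
    apply MvPolynomial.ringHom_ext
    · intro r
      rw [eval_C, constantCoeff_C]
    · intro i
      rw [eval_X, constantCoeff_X]
  rw [h1, constantCoeff_eq]
  by_contra h
  have := hf h
  rw [map_zero] at this
  omega

lemma d_pos : 0 < S.d := by
  rw [← S.hD]
  have h1 := S.hD2
  have h2 := S.hr
  positivity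

lemma k_pos : 0 < S.k := by
  by_contra h
  have hk : S.k = 0 := by omega
  apply S.hA0
  have hA := S.hA
  rw [hk] at hA
  ext m
  rw [coeff_zero]
  by_contra hm
  have h1 := hA hm
  rw [Finsupp.weight_apply, Finsupp.sum_fintype _ _ (fun i => by simp), Fin.sum_univ_three] at h1
  simp only [smul_eq_mul] at h1
  have e0 : (![S.p, S.q, S.r] : Fin 3 → ℕ) 0 = S.p := rfl
  have e1 : (![S.p, S.q, S.r] : Fin 3 → ℕ) 1 = S.q := rfl
  have e2 : (![S.p, S.q, S.r] : Fin 3 → ℕ) 2 = S.r := rfl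
  rw [e0, e1, e2] at h1
  have hp := S.hp
  have hq := S.hq
  have hr := S.hr
  have z0 : m 0 * S.p = 0 := by omega
  have z1 : m 1 * S.q = 0 := by omega
  have z2 : m 2 * S.r = 0 := by omega
  have hm0 : m = 0 := by
    ext i
    fin_cases i
    · simpa using (Nat.mul_eq_zero.1 z0).resolve_right (by omega)
    · simpa using (Nat.mul_eq_zero.1 z1).resolve_right (by omega)
    · simpa using (Nat.mul_eq_zero.1 z2).resolve_right (by omega)
  apply hm
  rw [hm0]
  have h2 := S.eval_A_zero (x := fun _ => 0) rfl rfl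
  have h3 : (eval (fun _ => (0 : ℂ)) : MvPolynomial (Fin 3) ℂ →+* ℂ) = constantCoeff := by
    apply MvPolynomial.ringHom_ext
    · intro r
      rw [eval_C, constantCoeff_C]
    · intro i
      rw [eval_X, constantCoeff_X]
  rw [h3, constantCoeff_eq] at h2
  exact h2

/-- the vertex is on `Y` -/
lemma eval_F_vertex (v : ℂ) : eval ![v, 0, 0, 0, 0] S.F = 0 := by
  rw [S.eval_F rfl]
  have h1 : (![(![v, 0, 0, 0, 0] : Fin 5 → ℂ) 1, (![v, 0, 0, 0, 0] : Fin 5 → ℂ) 2,
      (![v, 0, 0, 0, 0] : Fin 5 → ℂ) 4] : Fin 3 → ℂ) = fun _ => 0 := by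
    funext i
    fin_cases i <;> rfl
  rw [h1, S.eval_A_zero rfl rfl, eval_zero_of_homog S.hB S.d_pos, mul_zero, add_zero]

/-- solving for `y` -/
lemma exists_y (v s t o : ℂ) : ∃ y, eval ![v, s, t, o, y] S.F = 0 := by
  classical
  let a : Fin 5 → Polynomial ℂ :=
    ![Polynomial.C v, Polynomial.C s, Polynomial.C t, Polynomial.C o, Polynomial.X]
  have hsum : aeval a S.F = ∑ m ∈ S.F.support, Polynomial.C (coeff m S.F * (v ^ m 0 * s ^ m 1 *
      t ^ m 2 * o ^ m 3)) * Polynomial.X ^ (m 4) := by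
    conv_lhs => rw [MvPolynomial.as_sum S.F]
    rw [map_sum]
    refine Finset.sum_congr rfl fun m _ => ?_
    rw [aeval_monomial, Finsupp.prod_fintype _ _ (fun i => pow_zero _), Fin.prod_univ_five]
    have e0 : a 0 = Polynomial.C v := rfl
    have e1 : a 1 = Polynomial.C s := rfl
    have e2 : a 2 = Polynomial.C t := rfl
    have e3 : a 3 = Polynomial.C o := rfl
    have e4 : a 4 = Polynomial.X := rfl
    rw [e0, e1, e2, e3, e4]
    simp only [Polynomial.C_mul, Polynomial.C_pow]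
    have h : algebraMap ℂ (Polynomial ℂ) (coeff m S.F) = Polynomial.C (coeff m S.F) := rfl
    rw [h]
    ring
  have hw : ∀ m ∈ S.F.support, m 4 = S.D → m = Finsupp.single 4 S.D := by
    intro m hm
    have h1 := S.hF (mem_support_iff.1 hm)
    rw [Finsupp.weight_apply, Finsupp.sum_fintype _ _ (fun i => by simp), Fin.sum_univ_five] at h1
    simp only [smul_eq_mul] at h1
    have e0 : (![S.N, S.p, S.q, S.w, S.r] : Fin 5 → ℕ) 0 = S.N := rfl
    have e1 : (![S.N, S.p, S.q, S.w, S.r] : Fin 5 → ℕ) 1 = S.p := rfl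
    have e2 : (![S.N, S.p, S.q, S.w, S.r] : Fin 5 → ℕ) 2 = S.q := rfl
    have e3 : (![S.N, S.p, S.q, S.w, S.r] : Fin 5 → ℕ) 3 = S.w := rfl
    have e4 : (![S.N, S.p, S.q, S.w, S.r] : Fin 5 → ℕ) 4 = S.r := rfl
    rw [e0, e1, e2, e3, e4] at h1
    have hD := S.hD
    have hr := S.hr
    have hN := S.hN
    have hp := S.hp
    have hq := S.hq
    have hw := S.hw
    intro h2
    rw [h2] at h1
    have z0 : m 0 * S.N = 0 := by omega
    have z1 : m 1 * S.p = 0 := by omega
    have z2 : m 2 * S.q = 0 := by omega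
    have z3 : m 3 * S.w = 0 := by omega
    ext i
    fin_cases i
    · simpa using (Nat.mul_eq_zero.1 z0).resolve_right (by omega)
    · simpa using (Nat.mul_eq_zero.1 z1).resolve_right (by omega)
    · simpa using (Nat.mul_eq_zero.1 z2).resolve_right (by omega)
    · simpa using (Nat.mul_eq_zero.1 z3).resolve_right (by omega)
    · simpa using h2
  have hcoef : (aeval a S.F).coeff S.D = coeff (Finsupp.single 4 S.D) S.F := by
    rw [hsum, Polynomial.finsetSum_coeff, Finset.sum_eq_single (Finsupp.single 4 S.D)]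
    · rw [Polynomial.coeff_C_mul_X_pow, if_pos (by simp)]
      simp
    · intro m hm hne
      rw [Polynomial.coeff_C_mul_X_pow, if_neg]
      intro h2
      exact hne (hw m hm h2.symm)
    · intro h2
      exact absurd (notMem_support_iff.1 h2) S.monic
  have hdeg : (aeval a S.F).degree ≠ 0 := by
    intro h
    have h1 := Polynomial.eq_C_of_degree_eq_zero h
    rw [h1, Polynomial.coeff_C, if_neg (by have := S.hD2; omega)] at hcoef
    exact S.monic hcoef.symm
  obtain ⟨y, hy⟩ := IsAlgClosed.exists_root _ hdeg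
  refine ⟨y, ?_⟩
  have h1 : Polynomial.eval y (aeval a S.F) = eval ![v, s, t, o, y] S.F := by
    have h2 : ((Polynomial.evalRingHom y).comp (aeval a).toRingHom) =
        (eval ![v, s, t, o, y] : MvPolynomial (Fin 5) ℂ →+* ℂ) := by
      apply MvPolynomial.ringHom_ext
      · intro c
        have h3 : (aeval a).toRingHom (C c) = Polynomial.C c := (aeval a).commutes c
        rw [RingHom.comp_apply, h3, Polynomial.coe_evalRingHom, Polynomial.eval_C, eval_C]
      · intro i
        have h3 : (aeval a : MvPolynomial (Fin 5) ℂ →ₐ[ℂ] Polynomial ℂ).toRingHom (X i) = a i :=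
          aeval_X (R := ℂ) a i
        rw [RingHom.comp_apply, h3, Polynomial.coe_evalRingHom, eval_X]
        fin_cases i
        · exact Polynomial.eval_C
        · exact Polynomial.eval_C
        · exact Polynomial.eval_C
        · exact Polynomial.eval_C
        · exact Polynomial.eval_X
    exact RingHom.congr_fun h2 S.F
  rw [← h1]
  exact hy

/-- solving for `v` -/
lemma exists_v {a : Fin 3 → ℂ} (ha : eval a S.A ≠ 0) :
    ∃ v, eval ![v, a 0, a 1, 0, a 2] S.F = 0 := by
  obtain ⟨v, hv⟩ := IsAlgClosed.exists_pow_nat_eq (-(eval a S.B) / eval a S.A) S.e_pos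
  refine ⟨v, ?_⟩
  rw [S.eval_F rfl]
  have h1 : (![(![v, a 0, a 1, 0, a 2] : Fin 5 → ℂ) 1, (![v, a 0, a 1, 0, a 2] : Fin 5 → ℂ) 2,
      (![v, a 0, a 1, 0, a 2] : Fin 5 → ℂ) 4] : Fin 3 → ℂ) = a := by
    funext i
    fin_cases i <;> rfl
  rw [h1]
  have h2 : (![v, a 0, a 1, 0, a 2] : Fin 5 → ℂ) 0 = v := rfl
  rw [h2, hv, div_mul_cancel₀ _ ha, neg_add_cancel]

/-! ### the section -/

/-- the coordinates of one point -/
noncomputable def e1 : MvPolynomial (Fin 5) ℂ ≃+* Coord (Fin 5) 1 :=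
  (renameEquiv ℂ (Equiv.uniqueProd (Fin 5) (Fin 1)).symm).toRingEquiv

lemma e1_apply (f : MvPolynomial (Fin 5) ℂ) : e1 f = inFactor 1 0 f := rfl

theorem secI_prime : S.secI.IsPrime := by
  have h := S.F0_prime
  have h1 : S.secI = (Ideal.span {(X 3 : MvPolynomial (Fin 5) ℂ), S.F}).map e1 := by
    rw [secI, Ideal.map_span, Set.image_pair, e1_apply, e1_apply]
  rw [h1]
  exact Ideal.map_isPrime_of_equiv e1

/-- the elements of the ideal of the section vanish at the points of `Y` -/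
lemma secI_le_ker {x : Fin 5 → ℂ} (h3 : x 3 = 0) (hF : eval x S.F = 0) :
    S.secI ≤ RingHom.ker (eval fun v : Fin 1 × Fin 5 => x v.2) := by
  rw [secI, Ideal.span_le]
  rintro f (rfl | rfl)
  · change eval (fun v : Fin 1 × Fin 5 => x v.2) (inFactor 1 0 (X 3)) = 0
    rw [inFactor, rename_X, eval_X]
    exact h3
  · change eval (fun v : Fin 1 × Fin 5 => x v.2) (inFactor 1 0 S.F) = 0
    rw [inFactor, eval_rename]
    exact hF

lemma hF1 : IsWeightedHomogeneous (Dg.wt1 S.V) (inFactor 1 0 S.F : Coord (Fin 5) 1) S.d := by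
  have h := inFactor_homogeneous S.V (N := 1) 0 (f := S.F) (n := S.d) S.hF
  have h2 := Dg.homog_iff S.V h
  rwa [Pi.single_eq_same] at h2

lemma _root_.Pool.Agent.RCH.Mn.homog_of_hom {X : WVar (Fin 5)} {I : Ideal (Coord (Fin 5) 1)}
    (h : Dg.Hom (Dg.wt1 X) I) : ∀ p ∈ I, ∀ e : Fin 1 → ℕ,
      weightedHomogeneousComponent (X.mdeg 1) e p ∈ I := by
  intro p hp e
  rw [Dg.comp_eq]
  exact h p hp _

/-- the section `Y : ω = 0` -/
noncomputable def pY : Pt S.V 1 where
  I := S.secI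
  prime := S.secI_prime
  homog := by
    refine homog_of_hom (X := S.V) ?_
    have h1 : Dg.Hom (Dg.wt1 S.V) (⊥ : Ideal (Coord (Fin 5) 1)) := by
      intro f hf n
      rw [Ideal.mem_bot] at hf
      rw [hf, map_zero]
      exact Ideal.zero_mem _
    have h2 := Dg.hom_sup h1 (isWeightedHomogeneous_X ℂ (Dg.wt1 S.V) ((0 : Fin 1), (3 : Fin 5)))
    have h3 := Dg.hom_sup h2 S.hF1
    rw [bot_sup_eq, ← Ideal.span_union, Set.singleton_union] at h3
    have h4 : S.secI = Ideal.span {(X ((0 : Fin 1), (3 : Fin 5)) : Coord (Fin 5) 1),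
        inFactor 1 0 S.F} := by
      rw [secI, inFactor, rename_X]
    rw [h4]
    exact h3
  relevant := by
    intro i
    refine ⟨0, fun h => ?_⟩
    have hi : i = 0 := Subsingleton.elim _ _
    subst hi
    have h1 : eval (fun v : Fin 1 × Fin 5 => (![1, 0, 0, 0, 0] : Fin 5 → ℂ) v.2)
      (X ((0 : Fin 1), (0 : Fin 5)) : Coord (Fin 5) 1) = 0 :=
      S.secI_le_ker (x := ![1, 0, 0, 0, 0]) rfl (S.eval_F_vertex 1) h
    rw [eval_X] at h1
    exact one_ne_zero h1
  onX := by
    intro i f hf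
    have hi : i = 0 := Subsingleton.elim _ _
    subst hi
    obtain ⟨g, rfl⟩ := Ideal.mem_span_singleton.1 (show f ∈ Ideal.span {S.F} from hf)
    rw [map_mul]
    exact Ideal.mul_mem_right _ _ (Ideal.subset_span (Or.inr rfl))

/-! ### the vertex -/

/-- the ideal of the vertex is the kernel of `v ↦ X`, the other coordinates going to zero -/
lemma pP_ideal : Ideal.span {(X ((0 : Fin 1), (1 : Fin 5)) : Coord (Fin 5) 1), X (0, 2), X (0, 3),
    X (0, 4)} = Dg.varI {v : Fin 1 × Fin 5 | v.2 ≠ 0} := by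
  rw [Dg.varI]
  congr 1
  ext f
  simp only [Set.mem_insert_iff, Set.mem_singleton_iff, Set.mem_image, Set.mem_ofPred_eq]
  constructor
  · rintro (rfl | rfl | rfl | rfl)
    · exact ⟨(0, 1), by decide, rfl⟩
    · exact ⟨(0, 2), by decide, rfl⟩
    · exact ⟨(0, 3), by decide, rfl⟩
    · exact ⟨(0, 4), by decide, rfl⟩
  · rintro ⟨⟨i, j⟩, hv, rfl⟩
    have hi : i = 0 := Subsingleton.elim _ _
    subst hi
    fin_cases j
    · exact absurd rfl hv
    · exact Or.inl rfl
    · exact Or.inr (Or.inl rfl)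
    · exact Or.inr (Or.inr (Or.inl rfl))
    · exact Or.inr (Or.inr (Or.inr rfl))

lemma pP_le_ker (v : ℂ) : Ideal.span {(X ((0 : Fin 1), (1 : Fin 5)) : Coord (Fin 5) 1), X (0, 2),
    X (0, 3), X (0, 4)} ≤
    RingHom.ker (eval fun u : Fin 1 × Fin 5 => (![v, 0, 0, 0, 0] : Fin 5 → ℂ) u.2) := by
  rw [Ideal.span_le]
  rintro f (rfl | rfl | rfl | rfl) <;> exact eval_X _

/-- the vertex `s = t = ω = y = 0` -/
noncomputable def pP : Pt S.V 1 where
  I := Ideal.span {X (0, 1), X (0, 2), X (0, 3), X (0, 4)}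
  prime := by
    rw [pP_ideal, ← Dg.ker_killV]
    exact RingHom.ker_isPrime _
  homog := by
    refine homog_of_hom (X := S.V) ?_
    rw [pP_ideal]
    exact Dg.hom_varI _ _
  relevant := by
    intro i
    have hi : i = 0 := Subsingleton.elim _ _
    subst hi
    refine ⟨0, fun h => ?_⟩
    have h1 := pP_le_ker 1 h
    have h2 : eval (fun v : Fin 1 × Fin 5 => (![1, 0, 0, 0, 0] : Fin 5 → ℂ) v.2)
      (X ((0 : Fin 1), (0 : Fin 5)) : Coord (Fin 5) 1) = 0 := h1
    rw [eval_X] at h2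
    exact one_ne_zero h2
  onX := by
    intro i f hf
    have hi : i = 0 := Subsingleton.elim _ _
    subst hi
    obtain ⟨g, rfl⟩ := Ideal.mem_span_singleton.1 (show f ∈ Ideal.span {S.F} from hf)
    rw [map_mul]
    refine Ideal.mul_mem_right _ _ ?_
    rw [pP_ideal, Dg.mem_varI]
    -- a polynomial in one variable which vanishes everywhere
    apply MvPolynomial.funext
    intro x
    rw [map_zero]
    have h1 : (eval x).comp (Dg.killV {v : Fin 1 × Fin 5 | v.2 ≠ 0}).toRingHom =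
        eval (fun v : Fin 1 × Fin 5 => (![x (0, 0), 0, 0, 0, 0] : Fin 5 → ℂ) v.2) := by
      apply MvPolynomial.ringHom_ext
      · intro c
        have h2 : (Dg.killV {v : Fin 1 × Fin 5 | v.2 ≠ 0}).toRingHom (C c) = C c :=
          (Dg.killV {v : Fin 1 × Fin 5 | v.2 ≠ 0}).commutes c
        rw [RingHom.comp_apply, h2, eval_C, eval_C]
      · rintro ⟨i, j⟩
        have hi : i = 0 := Subsingleton.elim _ _
        subst hi
        rw [RingHom.comp_apply, eval_X]
        change eval x (Dg.killV {v : Fin 1 × Fin 5 | v.2 ≠ 0} (X (0, j))) = _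
        by_cases hj : j = 0
        · subst hj
          rw [Dg.killV_X_notMem _ (by simp), eval_X]
          rfl
        · rw [Dg.killV_X_mem _ (by simpa using hj), map_zero]
          fin_cases j
          · exact absurd rfl hj
          · rfl
          · rfl
          · rfl
          · rfl
    have h3 := RingHom.congr_fun h1 (inFactor 1 0 S.F)
    change eval x (Dg.killV {v : Fin 1 × Fin 5 | v.2 ≠ 0} (inFactor 1 0 S.F)) = _ at h3
    rw [h3, inFactor, eval_rename]
    exact S.eval_F_vertex _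

/-! ### levels -/

/-- transcendence degree from below -/
lemma _root_.Pool.Agent.RCH.Mn.le_td {σ : Type} [Finite σ] {I : Ideal (MvPolynomial σ ℂ)}
    [I.IsPrime] {κ : Type} [Fintype κ] (f : κ → σ)
    (h : ∀ x : κ → ℂ, ∃ y : σ → ℂ, (∀ i, y (f i) = x i) ∧ I ≤ RingHom.ker (eval y)) :
    Fintype.card κ ≤ Dg.td (MvPolynomial σ ℂ ⧸ I) := by
  refine Dg.card_le_td (x := fun i => Ideal.Quotient.mk I (X (f i))) ?_
  rw [algebraicIndependent_iff]
  intro c hc
  apply MvPolynomial.funext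
  intro x
  rw [map_zero]
  obtain ⟨y, hy, hI⟩ := h x
  have h1 : aeval (fun i => Ideal.Quotient.mk I (X (f i) : MvPolynomial σ ℂ)) c =
      Ideal.Quotient.mk I (rename f c) := by
    have h2 : aeval (fun i => Ideal.Quotient.mk I (X (f i) : MvPolynomial σ ℂ)) =
        (Ideal.Quotient.mkₐ ℂ I).comp (rename f) := by
      apply MvPolynomial.algHom_ext
      intro i
      rw [aeval_X, AlgHom.comp_apply, rename_X]
      rfl
    rw [h2]
    rfl
  rw [h1, Ideal.Quotient.eq_zero_iff_mem] at hc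
  have h3 : eval y (rename f c) = 0 := hI hc
  rw [eval_rename] at h3
  have h4 : y ∘ f = x := funext hy
  rwa [h4] at h3

theorem lev_pP : lev S.pP = 1 := by
  have hp := S.pP.prime
  apply le_antisymm
  · have h := td_mvPolynomial_le S.pP.I {((0 : Fin 1), (0 : Fin 5))} (by
      rintro ⟨i, j⟩ hj
      have hi : i = 0 := Subsingleton.elim _ _
      subst hi
      have hj0 : j ≠ 0 := by
        rintro rfl
        exact hj (Finset.mem_singleton_self _)
      refine ⟨1, fun n => if n = 1 then 1 else 0, ?_, ?_, ?_⟩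
      · intro n
        by_cases hn : n = 1
        · simp only [hn, if_true]
          exact one_mem _
        · simp only [hn, if_false]
          exact zero_mem _
      · simp only [if_true]
        exact fun h1 => hp.ne_top ((Ideal.eq_top_iff_one _).2 h1)
      · rw [Finset.sum_range_succ, Finset.sum_range_one]
        simp only [zero_ne_one, if_false, if_true, zero_mul, one_mul, pow_one, zero_add]
        change X ((0 : Fin 1), j) ∈ Ideal.span {(X ((0 : Fin 1), (1 : Fin 5)) : Coord (Fin 5) 1),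
          X (0, 2), X (0, 3), X (0, 4)}
        rw [pP_ideal, Dg.X_mem_varI]
        exact hj0)
    exact h
  · have h := le_td (I := S.pP.I) (fun _ : Fin 1 => ((0 : Fin 1), (0 : Fin 5))) (by
      intro x
      refine ⟨fun u => (![x 0, 0, 0, 0, 0] : Fin 5 → ℂ) u.2, ?_, pP_le_ker (x 0)⟩
      intro i
      have hi : i = 0 := Subsingleton.elim _ _
      rw [hi]
      rfl)
    exact h

theorem lev_pY : lev S.pY = 3 := by
  have hp := S.pY.prime
  apply le_antisymm
  · have hb : (⊥ : Ideal (Coord (Fin 5) 1)).IsPrime := Ideal.isPrime_bot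
    have h5 := td_mvPolynomial_le (⊥ : Ideal (Coord (Fin 5) 1)) Finset.univ (by
      intro j hj
      exact absurd (Finset.mem_univ j) hj)
    have hcard : (Finset.univ : Finset (Fin 1 × Fin 5)).card = 5 := rfl
    rw [hcard] at h5
    have hX : Prime (X ((0 : Fin 1), (3 : Fin 5)) : Coord (Fin 5) 1) := X_prime
    have hXp : (Ideal.span {(X ((0 : Fin 1), (3 : Fin 5)) : Coord (Fin 5) 1)}).IsPrime :=
      (Ideal.span_singleton_prime hX.ne_zero).2 hX
    have h1 : (⊥ : Ideal (Coord (Fin 5) 1)) <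
        Ideal.span {(X ((0 : Fin 1), (3 : Fin 5)) : Coord (Fin 5) 1)} := by
      rw [bot_lt_iff_ne_bot, Ne, Ideal.span_singleton_eq_bot]
      exact hX.ne_zero
    have h2 : Ideal.span {(X ((0 : Fin 1), (3 : Fin 5)) : Coord (Fin 5) 1)} < S.pY.I := by
      refine lt_of_le_of_ne ?_ ?_
      · rw [Ideal.span_singleton_le_iff_mem]
        refine Ideal.subset_span (Or.inl ?_)
        rw [inFactor, rename_X]
      · intro h
        have h3 : inFactor 1 0 S.F ∈ S.pY.I := Ideal.subset_span (Or.inr rfl)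
        rw [← h, Ideal.mem_span_singleton] at h3
        obtain ⟨g, hg⟩ := h3
        have h4 : coeff (Finsupp.single ((0 : Fin 1), (4 : Fin 5)) S.D)
            (inFactor 1 0 S.F : Coord (Fin 5) 1) = coeff (Finsupp.single 4 S.D) S.F := by
          have hinj : Function.Injective (fun j : Fin 5 => ((0 : Fin 1), j)) := fun a b h =>
            (Prod.mk.inj h).2
          have h5 := coeff_rename_mapDomain (fun j : Fin 5 => ((0 : Fin 1), j)) hinj S.F
            (Finsupp.single 4 S.D)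
          rw [Finsupp.mapDomain_single] at h5
          exact h5
        apply S.monic
        rw [← h4, hg, coeff_X_mul', if_neg]
        simp
    have h3 : Dg.td (Coord (Fin 5) 1 ⧸ Ideal.span {(X ((0 : Fin 1), (3 : Fin 5)) :
      Coord (Fin 5) 1)}) < Dg.td (Coord (Fin 5) 1 ⧸ (⊥ : Ideal (Coord (Fin 5) 1))) :=
      Dg.td_lt_of_lt h1
    have h4 : Dg.td (Coord (Fin 5) 1 ⧸ S.pY.I) < Dg.td (Coord (Fin 5) 1 ⧸ Ideal.span
      {(X ((0 : Fin 1), (3 : Fin 5)) : Coord (Fin 5) 1)}) := Dg.td_lt_of_lt h2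
    have h5' : Dg.td (Coord (Fin 5) 1 ⧸ (⊥ : Ideal (Coord (Fin 5) 1))) ≤ 5 := h5
    have h6 : Dg.td (Coord (Fin 5) 1 ⧸ S.pY.I) ≤ 3 := by omega
    exact h6
  · have h := le_td (I := S.pY.I) (fun i : Fin 3 => ((0 : Fin 1), (![0, 1, 2] : Fin 3 → Fin 5) i)) (by
      intro x
      obtain ⟨y, hy⟩ := S.exists_y (x 0) (x 1) (x 2) 0
      refine ⟨fun u => (![x 0, x 1, x 2, 0, y] : Fin 5 → ℂ) u.2, ?_, S.secI_le_ker rfl hy⟩
      intro i
      fin_cases i <;> rfl)
    exact h

/-! ### the divisors -/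

/-- `A` as a function on `X` -/
noncomputable def A1 : Coord (Fin 5) 1 := rename ![((0 : Fin 1), (1 : Fin 5)), (0, 2), (0, 4)] S.A

/-- `B` as a function on `X` -/
noncomputable def B1 : Coord (Fin 5) 1 := rename ![((0 : Fin 1), (1 : Fin 5)), (0, 2), (0, 4)] S.B

lemma A1_notMem : S.A1 ∉ S.pY.I := by
  intro h
  apply S.hA0
  apply MvPolynomial.funext
  intro a
  rw [map_zero]
  by_contra ha
  obtain ⟨v, hv⟩ := S.exists_v ha
  have h1 := S.secI_le_ker (x := ![v, a 0, a 1, 0, a 2]) rfl hv h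
  have h2 : eval (fun u : Fin 1 × Fin 5 => (![v, a 0, a 1, 0, a 2] : Fin 5 → ℂ) u.2) S.A1 = 0 := h1
  rw [A1, eval_rename] at h2
  apply ha
  rw [← h2]
  congr 2
  funext i
  fin_cases i <;> rfl

lemma s_notMem : (X ((0 : Fin 1), (1 : Fin 5)) : Coord (Fin 5) 1) ∉ S.pY.I := by
  intro h
  obtain ⟨y, hy⟩ := S.exists_y 0 1 0 0
  have h1 := S.secI_le_ker (x := ![0, 1, 0, 0, y]) rfl hy h
  have h2 : eval (fun u : Fin 1 × Fin 5 => (![0, 1, 0, 0, y] : Fin 5 → ℂ) u.2)
    (X ((0 : Fin 1), (1 : Fin 5)) : Coord (Fin 5) 1) = 0 := h1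
  rw [eval_X] at h2
  exact one_ne_zero h2

lemma one_notMem {n : ℕ} (P : Pt S.V n) : (1 : Coord (Fin 5) n) ∉ P.I := fun h =>
  P.prime.ne_top ((Ideal.eq_top_iff_one _).2 h)

/-- the divisor of `A` on `Y` -/
theorem exists_dA : ∃ c : Cycles S.V 1, IsDivisor S.V S.pY S.A1 1 c :=
  exists_isDivisor S.V S.pY S.A1_notMem (S.one_notMem _)

/-- the divisor of `s` on `Y` -/
theorem exists_ds : ∃ c : Cycles S.V 1, IsDivisor S.V S.pY (X (0, 1)) 1 c :=
  exists_isDivisor S.V S.pY S.s_notMem (S.one_notMem _)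

noncomputable def dA : Cycles S.V 1 := S.exists_dA.choose

noncomputable def ds : Cycles S.V 1 := S.exists_ds.choose

lemma isDivisor_dA : IsDivisor S.V S.pY S.A1 1 S.dA := S.exists_dA.choose_spec

lemma isDivisor_ds : IsDivisor S.V S.pY (X (0, 1)) 1 S.ds := S.exists_ds.choose_spec

/-- the curve with ideal the kernel of `x ↦ (v, a_1 τ ^ p, a_2 τ ^ q, 0, a_3 τ ^ r)` -/
noncomputable def coneHom (a : Fin 3 → ℂ) : Coord (Fin 5) 1 →ₐ[ℂ] MvPolynomial (Fin 2) ℂ :=
  aeval fun v => ![X 0, C (a 0) * X 1 ^ S.p, C (a 1) * X 1 ^ S.q, 0, C (a 2) * X 1 ^ S.r] v.2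

end MD

end Pool.Agent.RCH.Mn
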