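import Pool.Agent.RCH.Mn2a
import Pool.Agent.RCH.Mn8a

/-!
# The diagonal and the residual of the pairs of points with the same `(v, s, t, ω)`
-/

set_option autoImplicit false

open MvPolynomial

namespace Pool.Agent.RCH.Mn

/-- the polynomials in `v, s, t, ω, y` -/
abbrev R5 : Type := MvPolynomial (Fin 5) ℂ

/-- identifies `v₁` with `v` -/
noncomputable def pi7 : R7 →ₐ[ℂ] Polynomial R5 :=
  aeval ![Polynomial.C (X 0), Polynomial.C (X 0), Polynomial.C (X 1), Polynomial.C (X 2),
    Polynomial.C (X 3), Polynomial.C (X 4), Polynomial.X]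

/-- a section of `pi7` -/
noncomputable def sec7 : Polynomial R5 →+* R7 :=
  Polynomial.eval₂RingHom ((aeval al : R5 →ₐ[ℂ] R7) : R5 →+* R7) (X 6)

lemma sec7_C (f : R5) : sec7 (Polynomial.C f) = aeval al f := by
  simp [sec7]

lemma sec7_X : sec7 Polynomial.X = X 6 := by
  simp [sec7]

lemma pi7_al (f : R5) : pi7 (aeval al f) = Polynomial.C f := by
  have h : ((pi7 : R7 →+* Polynomial R5).comp ((aeval al : R5 →ₐ[ℂ] R7) : R5 →+* R7)) =
      Polynomial.C := by
    refine MvPolynomial.ringHom_ext (fun c => ?_) (fun i => ?_)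
    · simp only [RingHom.coe_comp, Function.comp_apply, RingHom.coe_coe, algHom_C]
      rw [AlgHom.commutes]
      rfl
    · fin_cases i <;> simp [pi7, al]
  exact RingHom.congr_fun h f

lemma pi7_sec7 (f : Polynomial R5) : pi7 (sec7 f) = f := by
  have h : ((pi7 : R7 →+* Polynomial R5).comp sec7) = RingHom.id _ := by
    refine Polynomial.ringHom_ext (fun c => ?_) ?_
    · rw [RingHom.comp_apply, sec7_C]
      exact pi7_al c
    · rw [RingHom.comp_apply, sec7_X]
      simp [pi7]
  exact RingHom.congr_fun h f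

lemma sub_sec7 (f : R7) : f - sec7 (pi7 f) ∈ Ideal.span {(X 0 - X 1 : R7)} := by
  rw [← Ideal.Quotient.eq]
  have h : (Ideal.Quotient.mk (Ideal.span {(X 0 - X 1 : R7)})) =
      ((Ideal.Quotient.mk (Ideal.span {(X 0 - X 1 : R7)})).comp sec7).comp
        (pi7 : R7 →+* Polynomial R5) := by
    refine MvPolynomial.ringHom_ext (fun c => ?_) (fun i => ?_)
    · simp only [RingHom.coe_comp, Function.comp_apply, RingHom.coe_coe]
      rw [algHom_C, show algebraMap ℂ (Polynomial R5) c = Polynomial.C (C c) from rfl, sec7_C,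
        algHom_C]
      rfl
    · fin_cases i
      · simp [pi7, sec7, al]
      · simp only [Fin.mk_one, RingHom.coe_comp, Function.comp_apply, RingHom.coe_coe]
        have h1 : sec7 (pi7 (X 1)) = X 0 := by simp [pi7, sec7, al]
        rw [h1, eq_comm, Ideal.Quotient.eq]
        exact Ideal.subset_span rfl
      · simp [pi7, sec7, al]
      · simp [pi7, sec7, al]
      · simp [pi7, sec7, al]
      · simp [pi7, sec7, al]
      · simp [pi7, sec7, al]
  exact RingHom.congr_fun h f

/-- reduction to `v₁ = v` -/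
lemma nzd_pi7 {J : Ideal R7} (hv : (X 0 - X 1 : R7) ∈ J) {b : R7}
    (h : Nzd (J.map (pi7 : R7 →+* Polynomial R5)) (pi7 b)) : Nzd J b := by
  intro x hx
  have h1 : pi7 b * pi7 x ∈ J.map (pi7 : R7 →+* Polynomial R5) := by
    rw [← map_mul]
    exact Ideal.mem_map_of_mem (pi7 : R7 →+* Polynomial R5) hx
  have h2 := h _ h1
  have hs : Function.Surjective (pi7 : R7 →+* Polynomial R5) := fun f => ⟨sec7 f, pi7_sec7 f⟩
  obtain ⟨j, hj, h3⟩ := (Ideal.mem_map_iff_of_surjective _ hs).mp h2
  have h4 : pi7 (x - j) = 0 := by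
    rw [map_sub]
    have h5 : pi7 j = pi7 x := h3
    rw [h5, sub_self]
  have h6 := sub_sec7 (x - j)
  rw [h4, map_zero, sub_zero] at h6
  have h7 : x = (x - j) + j := by ring
  rw [h7]
  refine J.add_mem ?_ hj
  exact (Ideal.span_singleton_le_iff_mem J).mpr hv h6

/-- the coordinates of the second point with `v` in place of `v₁` -/
noncomputable def be' : Fin 5 → R7 := ![X 0, X 2, X 3, X 4, X 6]

lemma be'_sub (f : R5) : aeval be' f - aeval be f ∈ Ideal.span {(X 0 - X 1 : R7)} := by
  rw [← Ideal.Quotient.eq]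
  have h : (Ideal.Quotient.mk (Ideal.span {(X 0 - X 1 : R7)})).comp
      ((aeval be' : R5 →ₐ[ℂ] R7) : R5 →+* R7) =
      (Ideal.Quotient.mk (Ideal.span {(X 0 - X 1 : R7)})).comp
      ((aeval be : R5 →ₐ[ℂ] R7) : R5 →+* R7) := by
    refine MvPolynomial.ringHom_ext (fun c => ?_) (fun i => ?_)
    · simp only [RingHom.coe_comp, Function.comp_apply, RingHom.coe_coe, algHom_C]
    · fin_cases i
      · simp only [Fin.zero_eta, RingHom.coe_comp, Function.comp_apply, RingHom.coe_coe, aeval_X]
        rw [Ideal.Quotient.eq]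
        exact Ideal.subset_span rfl
      · simp [be, be']
      · simp [be, be']
      · simp [be, be']
      · simp [be, be']
  exact RingHom.congr_fun h f

namespace MD

variable (S : MD)

lemma wt4 : S.wt 4 = S.r := rfl

lemma wtpos (j : Fin 5) : 0 < S.wt j := S.wt_pos j

lemma hFwt : IsWeightedHomogeneous S.wt S.F S.d := S.hF

/-- `F` with the last variable `y₁` -/
noncomputable def P1 : Polynomial R5 := toP (fun i : Fin 4 => (X i.castSucc : R5)) S.F

lemma eval_P1 : S.P1.eval (X 4) = S.F := by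
  rw [P1, eval_toP]
  have h : (![X (Fin.castSucc (0 : Fin 4)), X (Fin.castSucc (1 : Fin 4)),
      X (Fin.castSucc (2 : Fin 4)), X (Fin.castSucc (3 : Fin 4)), X 4] : Fin 5 → R5) = X := by
    ext i
    fin_cases i <;> rfl
  rw [h, aeval_X_left_apply]

lemma sec7_P1 : sec7 S.P1 = aeval be' S.F := by
  have h : sec7.comp (toP (fun i : Fin 4 => (X i.castSucc : R5)) : R5 →+* Polynomial R5) =
      ((aeval be' : R5 →ₐ[ℂ] R7) : R5 →+* R7) := by
    refine MvPolynomial.ringHom_ext (fun c => ?_) (fun i => ?_)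
    · simp only [RingHom.coe_comp, Function.comp_apply, RingHom.coe_coe, algHom_C]
      rw [show algebraMap ℂ (Polynomial R5) c = Polynomial.C (C c) from rfl, sec7_C, algHom_C]
    · fin_cases i <;> simp [toP, be', sec7, al]
  exact RingHom.congr_fun h S.F

lemma D_pos' : 1 ≤ S.D := le_trans (by norm_num) S.hD2

lemma P1_coeff : S.P1.coeff S.D = C (coeff (Finsupp.single 4 S.D) S.F) :=
  toP_coeff S.wtpos S.hFwt S.hD _

lemma P1_natDegree_le : S.P1.natDegree ≤ S.D := toP_natDegree_le (S.wtpos 4) S.hFwt S.hD _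

lemma P1_coeff_ne : S.P1.coeff S.D ≠ 0 := by
  rw [P1_coeff]
  exact (map_ne_zero_iff _ (C_injective (Fin 5) ℂ)).mpr S.monic

lemma P1_natDegree : S.P1.natDegree = S.D :=
  le_antisymm S.P1_natDegree_le (Polynomial.le_natDegree_of_ne_zero S.P1_coeff_ne)

/-- the quotient of `F(…, y₁) - F(…, y)` by `y₁ - y` -/
noncomputable def Psi : Polynomial R5 := S.P1 /ₘ (Polynomial.X - Polynomial.C (X 4))

lemma Psi_mul : (Polynomial.X - Polynomial.C (X 4)) * S.Psi = S.P1 - Polynomial.C S.F := by
  have h := Polynomial.modByMonic_add_div S.P1 (Polynomial.X - Polynomial.C (X 4 : R5))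
  rw [Polynomial.modByMonic_X_sub_C_eq_C_eval, eval_P1] at h
  rw [Psi, eq_sub_iff_add_eq, add_comm]
  exact h

lemma Psi_natDegree : S.Psi.natDegree = S.D - 1 := by
  rw [Psi, Polynomial.natDegree_divByMonic _ (Polynomial.monic_X_sub_C _), P1_natDegree,
    Polynomial.natDegree_X_sub_C]

lemma Psi_coeff : S.Psi.coeff (S.D - 1) = C (coeff (Finsupp.single 4 S.D) S.F) := by
  have h1 := S.Psi_natDegree
  have h2 : S.Psi.coeff (S.D - 1) = S.Psi.leadingCoeff := by
    rw [Polynomial.leadingCoeff, h1]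
  have h3 : (S.P1 - Polynomial.C S.F).leadingCoeff = S.Psi.leadingCoeff := by
    rw [← Psi_mul, Polynomial.leadingCoeff_mul, Polynomial.leadingCoeff_X_sub_C, one_mul]
  have h4 : (S.P1 - Polynomial.C S.F).natDegree = S.D := by
    rw [Polynomial.natDegree_sub_C, P1_natDegree]
  have h5 : (S.P1 - Polynomial.C S.F).leadingCoeff = S.P1.coeff S.D := by
    have hD := S.D_pos'
    rw [Polynomial.leadingCoeff, h4, Polynomial.coeff_sub, Polynomial.coeff_C, if_neg (by omega),
      sub_zero]
  rw [h2, ← h3, h5, P1_coeff]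

/-- the derivative of `F` with respect to `y` -/
noncomputable def Fy : R5 := S.Psi.eval (X 4)

lemma derivative_toP (f : R5) : Polynomial.derivative
    (toP (fun i : Fin 4 => (X i.castSucc : R5)) f) =
    toP (fun i : Fin 4 => (X i.castSucc : R5)) (pderiv 4 f) := by
  induction f using MvPolynomial.induction_on' with
  | monomial e c =>
    rw [pderiv_monomial, toP_monomial, toP_monomial, Polynomial.derivative_mul,
      Polynomial.derivative_C, zero_mul, zero_add, Polynomial.derivative_X_pow]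
    have h0 : ∀ j : Fin 5, j ≠ 4 → (e - Finsupp.single 4 1 : Fin 5 →₀ ℕ) j = e j := by
      intro j hj
      rw [Finsupp.tsub_apply, Finsupp.single_eq_of_ne hj, tsub_zero]
    have h4 : (e - Finsupp.single 4 1 : Fin 5 →₀ ℕ) 4 = e 4 - 1 := by
      rw [Finsupp.tsub_apply, Finsupp.single_eq_same]
    rw [h0 0 (by decide), h0 1 (by decide), h0 2 (by decide), h0 3 (by decide), h4, map_mul,
      map_natCast]
    simp only [map_mul, map_natCast]
    ring
  | add p q hp hq => rw [map_add, map_add, hp, hq, map_add, map_add]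

lemma Fy_eq : S.Fy = pderiv 4 S.F := by
  have h1 := congrArg Polynomial.derivative S.Psi_mul
  rw [Polynomial.derivative_mul, Polynomial.derivative_sub, Polynomial.derivative_sub,
    Polynomial.derivative_X, Polynomial.derivative_C, Polynomial.derivative_C, sub_zero, one_mul,
    sub_zero, P1, derivative_toP] at h1
  have h2 := congrArg (Polynomial.eval (X 4 : R5)) h1
  rw [Polynomial.eval_add, Polynomial.eval_mul, Polynomial.eval_sub, Polynomial.eval_X,
    Polynomial.eval_C, sub_self, zero_mul, add_zero, eval_toP] at h2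
  have h : (![X (Fin.castSucc (0 : Fin 4)), X (Fin.castSucc (1 : Fin 4)),
      X (Fin.castSucc (2 : Fin 4)), X (Fin.castSucc (3 : Fin 4)), X 4] : Fin 5 → R5) = X := by
    ext i
    fin_cases i <;> rfl
  rw [h, aeval_X_left_apply] at h2
  exact h2

lemma Fy_ne : S.Fy ≠ 0 := by
  intro h0
  rw [Fy_eq] at h0
  have h1 : Polynomial.derivative S.P1 = 0 := by
    rw [P1, derivative_toP, h0, map_zero]
  have h2 := Polynomial.derivative_eq_zero.mp h1
  rw [P1_natDegree] at h2
  have hD := S.D_pos'
  omega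

lemma r_le_d : S.r ≤ S.d := by
  have h1 := S.hD
  have h2 := S.D_pos'
  nlinarith

lemma Fy_homog : IsWeightedHomogeneous S.wt S.Fy (S.d - S.r) := by
  rw [Fy_eq]
  refine S.hFwt.pderiv ?_
  rw [wt4]
  exact Nat.sub_add_cancel S.r_le_d

lemma not_dvd_Fy : ¬ S.F ∣ S.Fy := by
  rintro ⟨h, hh⟩
  have h1 : weightedHomogeneousComponent S.wt (S.d - S.r) (S.F * h) = 0 := by
    refine Dg.comp_mul_hom_zero S.hFwt h ?_
    have h2 := S.hr
    have h3 := S.r_le_d
    omega
  rw [← hh] at h1
  have h4 : weightedHomogeneousComponent S.wt (S.d - S.r) S.Fy = S.Fy :=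
    S.Fy_homog.weightedHomogeneousComponent_same
  exact S.Fy_ne (h4.symm.trans h1)

end MD

end Pool.Agent.RCH.Mn
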