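import Pool.Agent.RCH.Mn1c
import Pool.Agent.RCH.Mn2b

/-!
# Row M2: the relation (E)
-/

set_option autoImplicit false

open MvPolynomial

namespace Pool.Agent.RCH.Mn

section general

lemma hom_bot {σ : Type} {w : σ → ℕ} : Dg.Hom w (⊥ : Ideal (MvPolynomial σ ℂ)) := by
  intro p hp n
  rw [Ideal.mem_bot] at hp
  rw [hp, map_zero]
  exact Ideal.zero_mem _

lemma hom_span1 {σ : Type} {w : σ → ℕ} {a : MvPolynomial σ ℂ} {d : ℕ}
    (ha : IsWeightedHomogeneous w a d) : Dg.Hom w (Ideal.span {a}) := by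
  have h := Dg.hom_sup (w := w) (I := ⊥) hom_bot ha
  rwa [bot_sup_eq] at h

lemma mk_aeval (J : Ideal R7) (a : Fin 5 → R7) (f : R5) :
    Ideal.Quotient.mk J (aeval a f) = aeval ![Ideal.Quotient.mk J (a 0),
      Ideal.Quotient.mk J (a 1), Ideal.Quotient.mk J (a 2), Ideal.Quotient.mk J (a 3),
      Ideal.Quotient.mk J (a 4)] f := by
  have h : (Ideal.Quotient.mk J).comp ((aeval a : R5 →ₐ[ℂ] R7) : R5 →+* R7) =
      ((aeval ![Ideal.Quotient.mk J (a 0),
      Ideal.Quotient.mk J (a 1), Ideal.Quotient.mk J (a 2), Ideal.Quotient.mk J (a 3),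
      Ideal.Quotient.mk J (a 4)] : R5 →ₐ[ℂ] R7 ⧸ J) : R5 →+* R7 ⧸ J) := by
    refine MvPolynomial.ringHom_ext (fun c => ?_) (fun i => ?_)
    · simp only [RingHom.coe_comp, Function.comp_apply, RingHom.coe_coe, algHom_C]
      rfl
    · fin_cases i <;> simp
  exact RingHom.congr_fun h f

variable {X : WVar (Fin 5)}

lemma clz_pow {J : Ideal R7} {b : R7} (h : Nzd J b) (n : ℕ) (Q : Pt X 2) :
    clz (J ⊔ Ideal.span {b ^ n}) Q = n * clz (J ⊔ Ideal.span {b}) Q := by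
  have := Q.prime
  rw [clz, clz, cl_pow Q.I h n, ENat.toNat_mul]
  push_cast
  rw [ENat.toNat_natCast]

lemma cl_ne_top_of_pow {wt : Fin 5 → ℕ} {J : Ideal R7} {b : R7} (h : Nzd J b) {n : ℕ}
    (hn : 1 ≤ n) (Q : Ideal (Coord (Fin 5) 2)) [Q.IsPrime]
    (ht : cl wt (J ⊔ Ideal.span {b ^ n}) Q ≠ ⊤) : cl wt (J ⊔ Ideal.span {b}) Q ≠ ⊤ := by
  intro h1
  rw [cl_pow Q h n, h1, ENat.mul_top (by
    rw [Nat.cast_ne_zero]
    omega)] at ht
  exact ht rfl

lemma CT_pow {A : Type} [CommRing A] (a : A) (m n : ℕ) :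
    (LaurentPolynomial.C a * LaurentPolynomial.T (m : ℤ)) ^ n =
      LaurentPolynomial.C a ^ n * LaurentPolynomial.T (n * m : ℤ) := by
  rw [mul_pow, LaurentPolynomial.T_pow]

lemma ph_X0 (wt : Fin 5 → ℕ) (J : Ideal R7) (j : Fin 5) :
    phi wt J (MvPolynomial.X (0, j)) = LaurentPolynomial.C (Ideal.Quotient.mk J (al j)) := by
  rw [phi, aeval_X, if_pos rfl]

lemma ph_X1 (wt : Fin 5 → ℕ) (J : Ideal R7) (j : Fin 5) :
    phi wt J (MvPolynomial.X (1, j)) = LaurentPolynomial.C (Ideal.Quotient.mk J (be j)) *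
      LaurentPolynomial.T (wt j) := by
  rw [phi, aeval_X, if_neg]
  exact one_ne_zero

/-- at a point of `X²` all the common coordinates behave in the same way -/
lemma shared {wt : Fin 5 → ℕ} (hpos : ∀ j, 0 < wt j) {J : Ideal R7} {i k : Fin 5}
    (hi : al i - be i ∈ J) (hk : al k - be k ∈ J) {Q : Ideal (Coord (Fin 5) 2)} (hQ : Q.IsPrime)
    (hJ : RingHom.ker (phi wt J) ≤ Q) (h0 : (MvPolynomial.X (0, i) : Coord (Fin 5) 2) ∉ Q)
    (h1 : (MvPolynomial.X (1, k) : Coord (Fin 5) 2) ∉ Q) :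
    (MvPolynomial.X (1, i) : Coord (Fin 5) 2) ∉ Q := by
  intro h2
  have hi' : Ideal.Quotient.mk J (be i) = Ideal.Quotient.mk J (al i) :=
    (Ideal.Quotient.eq.mpr hi).symm
  have hk' : Ideal.Quotient.mk J (be k) = Ideal.Quotient.mk J (al k) :=
    (Ideal.Quotient.eq.mpr hk).symm
  have h3 : (MvPolynomial.X (0, i) ^ wt k * MvPolynomial.X (1, k) ^ wt i -
      MvPolynomial.X (1, i) ^ wt k * MvPolynomial.X (0, k) ^ wt i : Coord (Fin 5) 2) ∈
      RingHom.ker (phi wt J) := by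
    rw [RingHom.mem_ker, map_sub, map_mul, map_mul, map_pow, map_pow, map_pow, map_pow, ph_X0,
      ph_X0, ph_X1, ph_X1, hi', hk', CT_pow, CT_pow, mul_comm (wt i : ℤ)]
    ring
  have h4 := hJ h3
  have h5 : (MvPolynomial.X (1, i) ^ wt k * MvPolynomial.X (0, k) ^ wt i :
      Coord (Fin 5) 2) ∈ Q := by
    refine Q.mul_mem_right _ ?_
    exact Q.pow_mem_of_mem h2 _ (hpos k)
  have h6 : (MvPolynomial.X (0, i) ^ wt k * MvPolynomial.X (1, k) ^ wt i :
      Coord (Fin 5) 2) ∈ Q := by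
    have := Q.add_mem h4 h5
    rwa [sub_add_cancel] at this
  rcases hQ.mem_or_mem h6 with h | h
  · exact h0 (hQ.mem_of_pow_mem _ h)
  · exact h1 (hQ.mem_of_pow_mem _ h)

end general

section toP

variable {A : Type} [CommRing A] [Algebra ℂ A] {wt : Fin 5 → ℕ} {F : MvPolynomial (Fin 5) ℂ}
  {d D : ℕ}

lemma toP_zero (hpos : ∀ j, 0 < wt j) (hF : IsWeightedHomogeneous wt F d) (hd : D * wt 4 = d) :
    toP (0 : Fin 4 → A) F = Polynomial.C (algebraMap ℂ A (coeff (Finsupp.single 4 D) F)) *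
      Polynomial.X ^ D := by
  conv_lhs => rw [← support_sum_monomial_coeff F]
  rw [map_sum]
  have h1 : ∀ e ∈ F.support, e ≠ Finsupp.single 4 D →
      toP (0 : Fin 4 → A) (monomial e (coeff e F)) = 0 := by
    intro e he hne
    rw [toP_monomial]
    simp only [Pi.zero_apply]
    by_cases h : e 0 = 0 ∧ e 1 = 0 ∧ e 2 = 0 ∧ e 3 = 0
    · exfalso
      apply hne
      refine exp_eq hpos hF hd (mem_support_iff.mp he) ?_
      have h2 := hF (mem_support_iff.mp he)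
      rw [weight_five, h.1, h.2.1, h.2.2.1, h.2.2.2] at h2
      have h3 : e 4 * wt 4 = D * wt 4 := by omega
      exact Nat.eq_of_mul_eq_mul_right (hpos 4) h3
    · have h2 : (0 : A) ^ e 0 * 0 ^ e 1 * 0 ^ e 2 * 0 ^ e 3 = 0 := by
        by_contra h3
        apply h
        refine ⟨?_, ?_, ?_, ?_⟩
        · by_contra h4
          rw [zero_pow h4] at h3
          simp at h3
        · by_contra h4
          rw [zero_pow h4] at h3
          simp at h3
        · by_contra h4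
          rw [zero_pow h4] at h3
          simp at h3
        · by_contra h4
          rw [zero_pow h4] at h3
          simp at h3
      rw [h2, mul_zero, map_zero, zero_mul]
  have h2 : Finsupp.single 4 D ∉ F.support →
      toP (0 : Fin 4 → A) (monomial (Finsupp.single 4 D) (coeff (Finsupp.single 4 D) F)) = 0 := by
    intro h
    rw [notMem_support_iff.mp h, map_zero, map_zero]
  rw [Finset.sum_eq_single _ h1 h2, toP_monomial]
  simp

end toP

namespace MD

variable (S : MD)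

/-- the quotient of `F(…, y₁) - F(…, y)` by `y₁ - y` -/
noncomputable def Psi7 : R7 := sec7 S.Psi

lemma Psi7_mul : (X 6 - X 5) * S.Psi7 = aeval be' S.F - S.Fa := by
  have h := congrArg sec7 S.Psi_mul
  rw [map_mul, map_sub, map_sub, sec7_X, sec7_C, sec7_C, sec7_P1, aeval_X] at h
  exact h

lemma hal (j : Fin 5) : IsWeightedHomogeneous (w7 S.wt) (al j) (S.wt j) := by
  fin_cases j <;> exact isWeightedHomogeneous_X ℂ _ _

lemma hbe' (j : Fin 5) : IsWeightedHomogeneous (w7 S.wt) (be' j) (S.wt j) := by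
  fin_cases j <;> exact isWeightedHomogeneous_X ℂ _ _

lemma Fa_homog : IsWeightedHomogeneous (w7 S.wt) S.Fa S.d :=
  Wd.aeval_homogeneous S.wt (w7 S.wt) al S.hal S.hFwt

lemma vv_homog : IsWeightedHomogeneous (w7 S.wt) (X 0 - X 1 : R7) S.N := by
  have h0 : IsWeightedHomogeneous (w7 S.wt) (X 0 : R7) S.N := isWeightedHomogeneous_X ℂ _ _
  have h1 : IsWeightedHomogeneous (w7 S.wt) (X 1 : R7) S.N := isWeightedHomogeneous_X ℂ _ _
  exact h0.sub h1

lemma yy_homog : IsWeightedHomogeneous (w7 S.wt) (X 5 - X 6 : R7) S.r := by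
  have h0 : IsWeightedHomogeneous (w7 S.wt) (X 5 : R7) S.r := isWeightedHomogeneous_X ℂ _ _
  have h1 : IsWeightedHomogeneous (w7 S.wt) (X 6 : R7) S.r := isWeightedHomogeneous_X ℂ _ _
  exact h0.sub h1

lemma yy_homog' : IsWeightedHomogeneous (w7 S.wt) (X 6 - X 5 : R7) S.r := by
  have h0 : IsWeightedHomogeneous (w7 S.wt) (X 5 : R7) S.r := isWeightedHomogeneous_X ℂ _ _
  have h1 : IsWeightedHomogeneous (w7 S.wt) (X 6 : R7) S.r := isWeightedHomogeneous_X ℂ _ _
  exact h1.sub h0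

lemma Psi7_homog : IsWeightedHomogeneous (w7 S.wt) S.Psi7 (S.d - S.r) := by
  have h1 : IsWeightedHomogeneous (w7 S.wt) ((X 6 - X 5) * S.Psi7) S.d := by
    rw [Psi7_mul]
    exact (Wd.aeval_homogeneous S.wt (w7 S.wt) be' S.hbe' S.hFwt).sub S.Fa_homog
  have h2 := Dg.comp_mul_hom S.yy_homog' S.Psi7 (S.d - S.r)
  rw [Nat.sub_add_cancel S.r_le_d, h1.weightedHomogeneousComponent_same] at h2
  have h3 : (X 6 - X 5 : R7) ≠ 0 := by
    rw [sub_ne_zero]
    intro h
    exact absurd (X_injective h) (by decide)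
  have h4 := mul_left_cancel₀ h3 h2
  rw [h4]
  exact weightedHomogeneousComponent_isWeightedHomogeneous _ _

/-- the residual of the diagonal in the pairs of points with the same `(v, s, t, ω)` -/
noncomputable def JR : Ideal R7 :=
  Ideal.span {X 0 - X 1} ⊔ Ideal.span {S.Fa} ⊔ Ideal.span {S.Psi7}

/-- the diagonal -/
noncomputable def Jd : Ideal R7 :=
  Ideal.span {X 0 - X 1} ⊔ Ideal.span {S.Fa} ⊔ Ideal.span {X 5 - X 6}

/-- the pairs of points with the same `(v, s, t, ω)` -/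
noncomputable def JV : Ideal R7 := Ideal.span {X 0 - X 1, S.Fa, S.Fb}

lemma Fb_mem {J : Ideal R7} (hv : (X 0 - X 1 : R7) ∈ J) (hb : aeval be' S.F ∈ J) : S.Fb ∈ J := by
  have h1 := be'_sub S.F
  have h2 : aeval be' S.F - S.Fb ∈ J := (Ideal.span_singleton_le_iff_mem J).mpr hv h1
  have h3 := J.sub_mem hb h2
  rwa [sub_sub_cancel] at h3

lemma be'_mem {J : Ideal R7} (hv : (X 0 - X 1 : R7) ∈ J) (hb : S.Fb ∈ J) :
    aeval be' S.F ∈ J := by
  have h1 := be'_sub S.F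
  have h2 : aeval be' S.F - S.Fb ∈ J := (Ideal.span_singleton_le_iff_mem J).mpr hv h1
  have h3 := J.add_mem h2 hb
  rwa [sub_add_cancel] at h3

lemma be'_mem_of_Psi7 {J : Ideal R7} (ha : S.Fa ∈ J) (hb : S.Psi7 ∈ J) :
    aeval be' S.F ∈ J := by
  have h1 := J.add_mem (J.mul_mem_left (X 6 - X 5) hb) ha
  rwa [Psi7_mul, sub_add_cancel] at h1

lemma be'_mem_of_yy {J : Ideal R7} (ha : S.Fa ∈ J) (hb : (X 5 - X 6 : R7) ∈ J) :
    aeval be' S.F ∈ J := by
  have h2 : (X 6 - X 5 : R7) ∈ J := by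
    rw [← neg_sub]
    exact J.neg_mem hb
  have h1 := J.add_mem (J.mul_mem_right S.Psi7 h2) ha
  rwa [Psi7_mul, sub_add_cancel] at h1

lemma JR_v : (X 0 - X 1 : R7) ∈ S.JR :=
  Submodule.mem_sup_left (Submodule.mem_sup_left (Ideal.subset_span rfl))

lemma JR_Fa : S.Fa ∈ S.JR :=
  Submodule.mem_sup_left (Submodule.mem_sup_right (Ideal.subset_span rfl))

lemma JR_Psi : S.Psi7 ∈ S.JR := Submodule.mem_sup_right (Ideal.subset_span rfl)

lemma JR_Fb : S.Fb ∈ S.JR := S.Fb_mem S.JR_v (S.be'_mem_of_Psi7 S.JR_Fa S.JR_Psi)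

lemma Jd_v : (X 0 - X 1 : R7) ∈ S.Jd :=
  Submodule.mem_sup_left (Submodule.mem_sup_left (Ideal.subset_span rfl))

lemma Jd_Fa : S.Fa ∈ S.Jd :=
  Submodule.mem_sup_left (Submodule.mem_sup_right (Ideal.subset_span rfl))

lemma Jd_y : (X 5 - X 6 : R7) ∈ S.Jd := Submodule.mem_sup_right (Ideal.subset_span rfl)

lemma Jd_Fb : S.Fb ∈ S.Jd := S.Fb_mem S.Jd_v (S.be'_mem_of_yy S.Jd_Fa S.Jd_y)

lemma JV_le {J : Ideal R7} (hv : (X 0 - X 1 : R7) ∈ J) (ha : S.Fa ∈ J) (hb : S.Fb ∈ J) :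
    S.JV ≤ J := by
  rw [JV, Ideal.span_le]
  rintro x (rfl | rfl | rfl)
  · exact hv
  · exact ha
  · exact hb

lemma JR_hom : Dg.Hom (w7 S.wt) S.JR :=
  Dg.hom_sup (Dg.hom_sup (hom_span1 S.vv_homog) S.Fa_homog) S.Psi7_homog

lemma Jd_hom : Dg.Hom (w7 S.wt) S.Jd :=
  Dg.hom_sup (Dg.hom_sup (hom_span1 S.vv_homog) S.Fa_homog) S.yy_homog

/-- the values of the five common variables -/
lemma integral {J : Ideal R7} (hv : (X 0 - X 1 : R7) ∈ J) (ha : S.Fa ∈ J) (hb : S.Fb ∈ J)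
    (j : Fin 7) : IsIntegral (Algebra.adjoin ℂ (Set.range fun i : Fin 4 =>
      Ideal.Quotient.mk J ((![X 0, X 2, X 3, X 4] : Fin 4 → R7) i)))
      (Ideal.Quotient.mk J (X j)) := by
  set B := Algebra.adjoin ℂ (Set.range fun i : Fin 4 =>
      Ideal.Quotient.mk J ((![X 0, X 2, X 3, X 4] : Fin 4 → R7) i)) with hB
  have hm : ∀ i : Fin 4, Ideal.Quotient.mk J ((![X 0, X 2, X 3, X 4] : Fin 4 → R7) i) ∈ B :=
    fun i => Algebra.subset_adjoin ⟨i, rfl⟩
  have hi : ∀ x ∈ B, IsIntegral B x := fun x hx => isIntegral_algebraMap (R := B) (x := ⟨x, hx⟩)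
  have h0 : Ideal.Quotient.mk J (X 0) ∈ B := hm 0
  have h2 : Ideal.Quotient.mk J (X 2) ∈ B := hm 1
  have h3 : Ideal.Quotient.mk J (X 3) ∈ B := hm 2
  have h4 : Ideal.Quotient.mk J (X 4) ∈ B := hm 3
  have h1 : Ideal.Quotient.mk J (X 1) ∈ B := by
    rw [← Ideal.Quotient.eq.mpr hv]
    exact h0
  have key : ∀ y : R7, aeval ![X 0, X 2, X 3, X 4, y] S.F ∈ J →
      IsIntegral B (Ideal.Quotient.mk J y) := by
    intro y hy
    refine isIntegral_of_monic (A := R7 ⧸ J) (F := S.F) S.wtpos S.hFwt S.hD S.monic (B := B)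
      (a := ![Ideal.Quotient.mk J (X 0), Ideal.Quotient.mk J (X 2), Ideal.Quotient.mk J (X 3),
        Ideal.Quotient.mk J (X 4)]) ?_ ?_
    · intro i
      fin_cases i
      · exact h0
      · exact h2
      · exact h3
      · exact h4
    · rw [← Ideal.Quotient.eq_zero_iff_mem, mk_aeval] at hy
      exact hy
  fin_cases j
  · exact hi _ h0
  · exact hi _ h1
  · exact hi _ h2
  · exact hi _ h3
  · exact hi _ h4
  · exact key _ ha
  · exact key _ (S.be'_mem hv hb)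

lemma not_dvd_X3 : ¬ S.F ∣ (X 3 : R5) := by
  intro h
  have h1 : (X 3 : R5) ∣ S.F :=
    ((S.F_prime.dvd_prime_iff_associated (MvPolynomial.X_prime)).mp h).symm.dvd
  obtain ⟨g, hg⟩ := h1
  have h2 := S.monic
  rw [hg, coeff_X_mul', if_neg] at h2
  · exact h2 rfl
  · rw [Finsupp.mem_support_iff, Finsupp.single_eq_of_ne (by decide)]
    simp

lemma prime_CF : Prime (Polynomial.C S.F : Polynomial R5) := Polynomial.prime_C_iff.mpr S.F_prime

lemma map_JR : S.JR.map (pi7 : R7 →+* Polynomial R5) =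
    Ideal.span {Polynomial.C S.F} ⊔ Ideal.span {S.Psi} := by
  have h0 : pi7 (X 0 - X 1) = 0 := by simp [pi7]
  have h1 : pi7 S.Fa = Polynomial.C S.F := pi7_al _
  have h2 : pi7 S.Psi7 = S.Psi := pi7_sec7 _
  rw [JR, Ideal.map_sup, Ideal.map_sup, Ideal.map_span, Ideal.map_span, Ideal.map_span,
    Set.image_singleton, Set.image_singleton, Set.image_singleton, RingHom.coe_coe, h0, h1, h2,
    Ideal.span_singleton_eq_bot.mpr rfl, bot_sup_eq]

lemma map_Jd : S.Jd.map (pi7 : R7 →+* Polynomial R5) =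
    Ideal.span {Polynomial.C S.F} ⊔ Ideal.span {Polynomial.C (X 4) - Polynomial.X} := by
  have h0 : pi7 (X 0 - X 1) = 0 := by simp [pi7]
  have h1 : pi7 S.Fa = Polynomial.C S.F := pi7_al _
  have h2 : pi7 (X 5 - X 6) = Polynomial.C (X 4) - Polynomial.X := by simp [pi7]
  rw [Jd, Ideal.map_sup, Ideal.map_sup, Ideal.map_span, Ideal.map_span, Ideal.map_span,
    Set.image_singleton, Set.image_singleton, Set.image_singleton, RingHom.coe_coe, h0, h1, h2,
    Ideal.span_singleton_eq_bot.mpr rfl, bot_sup_eq]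

lemma isUnit_c : IsUnit (C (coeff (Finsupp.single 4 S.D) S.F) : R5) :=
  (isUnit_iff_ne_zero.mpr S.monic).map C

/-- `Ψ` is monic in `y₁`, up to a constant -/
lemma nzd_Psi (I : Ideal R5) : Nzd (I.map (Polynomial.C : R5 →+* Polynomial R5)) S.Psi := by
  refine nzd_map_C I (n := S.D - 1) S.Psi_natDegree.le ?_
  rw [Psi_coeff]
  exact S.isUnit_c

lemma nzd_yy (I : Ideal R5) : Nzd (I.map (Polynomial.C : R5 →+* Polynomial R5))
    (Polynomial.C (X 4 : R5) - Polynomial.X) := by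
  refine nzd_sub_comm (nzd_map_C I (n := 1) (Polynomial.natDegree_X_sub_C _).le ?_)
  rw [Polynomial.coeff_sub, Polynomial.coeff_X_one, Polynomial.coeff_C, if_neg one_ne_zero,
    sub_zero]
  exact isUnit_one

/-- the ideal of the diagonal in the polynomials in `y₁` -/
lemma diag_eq : (Ideal.span {Polynomial.C S.F} ⊔ Ideal.span {Polynomial.C (X 4) - Polynomial.X} :
    Ideal (Polynomial R5)) =
    (Ideal.span {S.F}).comap (Polynomial.evalRingHom (X 4 : R5)) := by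
  apply le_antisymm
  · refine sup_le ?_ ?_
    · rw [Ideal.span_singleton_le_iff_mem, Ideal.mem_comap, Polynomial.coe_evalRingHom,
        Polynomial.eval_C]
      exact Ideal.mem_span_singleton_self _
    · rw [Ideal.span_singleton_le_iff_mem, Ideal.mem_comap, Polynomial.coe_evalRingHom,
        Polynomial.eval_sub, Polynomial.eval_C, Polynomial.eval_X, sub_self]
      exact Ideal.zero_mem _
  · intro f hf
    rw [Ideal.mem_comap, Polynomial.coe_evalRingHom, Ideal.mem_span_singleton] at hf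
    obtain ⟨g, hg⟩ := hf
    obtain ⟨k, hk⟩ := Polynomial.X_sub_C_dvd_sub_C_eval (a := (X 4 : R5)) (p := f)
    have h1 : f = Polynomial.C S.F * Polynomial.C g + (Polynomial.C (X 4) - Polynomial.X) * (-k) := by
      rw [← Polynomial.C_mul, ← hg]
      linear_combination hk
    rw [h1]
    exact Ideal.add_mem _ (Submodule.mem_sup_left (Ideal.mem_span_singleton.mpr ⟨_, rfl⟩))
      (Submodule.mem_sup_right (Ideal.mem_span_singleton.mpr ⟨_, rfl⟩))

lemma nzd_diag {f : Polynomial R5} (hf : ¬ S.F ∣ f.eval (X 4)) :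
    Nzd (Ideal.span {Polynomial.C S.F} ⊔ Ideal.span {Polynomial.C (X 4) - Polynomial.X} :
      Ideal (Polynomial R5)) f := by
  rw [diag_eq]
  exact nzd_comap (Polynomial.evalRingHom (X 4 : R5)) (nzd_of_prime_elem S.F_prime hf)

lemma nzd_Jd {f : R5} (hf : ¬ S.F ∣ f) : Nzd S.Jd (aeval al f) := by
  refine nzd_pi7 S.Jd_v ?_
  rw [map_Jd, pi7_al]
  refine S.nzd_diag ?_
  rwa [Polynomial.eval_C]

lemma al3 : (X 4 : R7) = aeval al (X 3 : R5) := by
  rw [aeval_X]
  rfl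

lemma nzd_Jd_o : Nzd S.Jd (X 4 : R7) := by
  rw [al3]
  exact S.nzd_Jd S.not_dvd_X3

lemma nzd_Jd_Fy : Nzd S.Jd (aeval al S.Fy) := S.nzd_Jd S.not_dvd_Fy

lemma span_CF : (Ideal.span {Polynomial.C S.F} : Ideal (Polynomial R5)) =
    (Ideal.span {S.F}).map (Polynomial.C : R5 →+* Polynomial R5) := by
  rw [Ideal.map_span, Set.image_singleton]

lemma nzd_JR_yy : Nzd S.JR (X 5 - X 6 : R7) := by
  refine nzd_pi7 S.JR_v ?_
  have h2 : pi7 (X 5 - X 6) = Polynomial.C (X 4) - Polynomial.X := by simp [pi7]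
  rw [map_JR, h2]
  refine nzd_swap ?_ ?_
  · rw [span_CF]
    exact nzd_yy _
  · exact S.nzd_diag S.not_dvd_Fy

lemma nzd_JR_o : Nzd S.JR (X 4 : R7) := by
  refine nzd_pi7 S.JR_v ?_
  rw [map_JR, al3, pi7_al]
  refine nzd_swap ?_ ?_
  · refine nzd_of_prime_elem S.prime_CF ?_
    intro h
    have h1 := (Polynomial.C_dvd_iff_dvd_coeff _ _).mp h 0
    rw [Polynomial.coeff_C_zero] at h1
    exact S.not_dvd_X3 h1
  · have h1 : (Ideal.span {Polynomial.C S.F} ⊔ Ideal.span {Polynomial.C (X 3)} :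
        Ideal (Polynomial R5)) = (Ideal.span {S.F} ⊔ Ideal.span {(X 3 : R5)}).map
        (Polynomial.C : R5 →+* Polynomial R5) := by
      rw [Ideal.map_sup, Ideal.map_span, Ideal.map_span, Set.image_singleton, Set.image_singleton]
    rw [h1]
    exact S.nzd_Psi _

/-! ## the ideals of the relations -/

lemma Psi7_sub : S.Psi7 - aeval al S.Fy ∈ Ideal.span {(X 5 - X 6 : R7)} := by
  obtain ⟨k, hk⟩ := Polynomial.X_sub_C_dvd_sub_C_eval (a := (X 4 : R5)) (p := S.Psi)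
  have h1 := congrArg sec7 hk
  rw [map_sub, sec7_C, map_mul, map_sub, sec7_X, sec7_C, aeval_X] at h1
  have h2 : S.Psi7 - aeval al S.Fy = (X 6 - X 5) * sec7 k := h1
  rw [h2, Ideal.mem_span_singleton]
  exact ⟨-sec7 k, by ring⟩

lemma JR_yy : S.JR ⊔ Ideal.span {(X 5 - X 6 : R7)} = S.Jd ⊔ Ideal.span {aeval al S.Fy} := by
  apply le_antisymm
  · refine sup_le (sup_le (le_sup_of_le_left le_sup_left) ?_) (le_sup_of_le_left le_sup_right)
    rw [Ideal.span_singleton_le_iff_mem]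
    have h1 : S.Psi7 - aeval al S.Fy ∈ S.Jd ⊔ Ideal.span {aeval al S.Fy} :=
      Submodule.mem_sup_left (Submodule.mem_sup_right S.Psi7_sub)
    have h2 : aeval al S.Fy ∈ S.Jd ⊔ Ideal.span {aeval al S.Fy} :=
      Submodule.mem_sup_right (Ideal.mem_span_singleton_self _)
    have h3 := Ideal.add_mem _ h1 h2
    rwa [sub_add_cancel] at h3
  · refine sup_le (sup_le (le_sup_of_le_left le_sup_left) le_sup_right) ?_
    rw [Ideal.span_singleton_le_iff_mem]
    have h1 : S.Psi7 - aeval al S.Fy ∈ S.JR ⊔ Ideal.span {(X 5 - X 6 : R7)} :=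
      Submodule.mem_sup_right S.Psi7_sub
    have h2 : S.Psi7 ∈ S.JR ⊔ Ideal.span {(X 5 - X 6 : R7)} := Submodule.mem_sup_left S.JR_Psi
    have h3 := Ideal.sub_mem _ h2 h1
    rwa [sub_sub_cancel] at h3

lemma Jd_o : S.Jd ⊔ Ideal.span {(X 4 : R7)} = S.JD := by
  rw [JD, Jd]
  simp only [Ideal.span_insert]
  rw [← le_antisymm_iff.symm]
  constructor
  · refine sup_le (sup_le (sup_le ?_ ?_) ?_) ?_
    · exact le_sup_of_le_right le_sup_left
    · exact le_sup_of_le_right (le_sup_of_le_right le_sup_right)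
    · exact le_sup_of_le_right (le_sup_of_le_right le_sup_left)
    · exact le_sup_left
  · refine sup_le le_sup_right (sup_le ?_ (sup_le ?_ ?_))
    · exact le_sup_of_le_left (le_sup_of_le_left le_sup_left)
    · exact le_sup_of_le_left le_sup_right
    · exact le_sup_of_le_left (le_sup_of_le_left le_sup_right)

/-- the ideal of the pairs of points with the same `(v, s, t)` on `Y`, without `F(β)` -/
noncomputable def I3 : Ideal R7 := Ideal.span {X 0 - X 1} ⊔ Ideal.span {S.Fa} ⊔ Ideal.span {X 4}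

lemma I3_v : (X 0 - X 1 : R7) ∈ S.I3 :=
  Submodule.mem_sup_left (Submodule.mem_sup_left (Ideal.subset_span rfl))

lemma I3_Fa : S.Fa ∈ S.I3 :=
  Submodule.mem_sup_left (Submodule.mem_sup_right (Ideal.subset_span rfl))

lemma nzd_I3 : Nzd S.I3 (X 5 - X 6 : R7) := by
  refine nzd_pi7 S.I3_v ?_
  have h2 : pi7 (X 5 - X 6) = Polynomial.C (X 4) - Polynomial.X := by simp [pi7]
  have h0 : pi7 (X 0 - X 1) = 0 := by simp [pi7]
  have h1 : pi7 S.Fa = Polynomial.C S.F := pi7_al _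
  have h3 : pi7 (X 4) = Polynomial.C (X 3) := by simp [pi7]
  have h4 : S.I3.map (pi7 : R7 →+* Polynomial R5) = (Ideal.span {S.F} ⊔ Ideal.span {X 3}).map
      (Polynomial.C : R5 →+* Polynomial R5) := by
    rw [I3, Ideal.map_sup, Ideal.map_sup, Ideal.map_span, Ideal.map_span, Ideal.map_span,
      Set.image_singleton, Set.image_singleton, Set.image_singleton, RingHom.coe_coe, h0, h1, h3,
      Ideal.span_singleton_eq_bot.mpr rfl, bot_sup_eq, Ideal.map_sup, Ideal.map_span,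
      Ideal.map_span, Set.image_singleton, Set.image_singleton]
  rw [h4, h2]
  exact nzd_yy _

lemma JVw_eq : S.JVw = S.I3 ⊔ Ideal.span {(X 5 - X 6) * S.Psi7} := by
  have h0 : (X 5 - X 6) * S.Psi7 = S.Fa - aeval be' S.F := by
    linear_combination -S.Psi7_mul
  rw [JVw, JU]
  apply le_antisymm
  · refine sup_le ?_ ?_
    · rw [Ideal.span_le]
      rintro x (rfl | rfl | rfl)
      · exact Submodule.mem_sup_left (Submodule.mem_sup_right (Ideal.subset_span rfl))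
      · exact Submodule.mem_sup_left S.I3_Fa
      · refine S.Fb_mem (Submodule.mem_sup_left S.I3_v) ?_
        have h1 : S.Fa ∈ S.I3 ⊔ Ideal.span {(X 5 - X 6) * S.Psi7} :=
          Submodule.mem_sup_left S.I3_Fa
        have h2 : (X 5 - X 6) * S.Psi7 ∈ S.I3 ⊔ Ideal.span {(X 5 - X 6) * S.Psi7} :=
          Submodule.mem_sup_right (Ideal.mem_span_singleton_self _)
        have h3 := Ideal.sub_mem _ h1 h2
        have h4 : S.Fa - (X 5 - X 6) * S.Psi7 = aeval be' S.F := by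
          rw [h0, sub_sub_cancel]
        rwa [h4] at h3
    · exact le_sup_of_le_left (le_sup_of_le_left le_sup_left)
  · refine sup_le (sup_le (sup_le le_sup_right ?_) ?_) ?_
    · refine le_sup_of_le_left ?_
      rw [Ideal.span_singleton_le_iff_mem]
      exact Ideal.subset_span (Or.inr (Or.inl rfl))
    · refine le_sup_of_le_left ?_
      rw [Ideal.span_singleton_le_iff_mem]
      exact Ideal.subset_span (Or.inl rfl)
    · rw [Ideal.span_singleton_le_iff_mem, h0]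
      refine Ideal.sub_mem _ (Submodule.mem_sup_left (Ideal.subset_span (Or.inr (Or.inl rfl)))) ?_
      exact S.be'_mem (Submodule.mem_sup_right (Ideal.subset_span rfl))
        (Submodule.mem_sup_left (Ideal.subset_span (Or.inr (Or.inr rfl))))

lemma col_JVw : Dg.col S.JVw (X 5 - X 6) = S.JR ⊔ Ideal.span {(X 4 : R7)} := by
  rw [JVw_eq, col_sup_mul S.nzd_I3, I3, JR, sup_assoc, sup_comm (Ideal.span {(X 4 : R7)}),
    ← sup_assoc]

lemma JVw_yy : S.JVw ⊔ Ideal.span {(X 5 - X 6 : R7)} = S.JD := by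
  rw [← Jd_o, JVw_eq]
  apply le_antisymm
  · refine sup_le (sup_le (sup_le ?_ le_sup_right) ?_) (le_sup_of_le_left le_sup_right)
    · exact le_sup_of_le_left le_sup_left
    · rw [Ideal.span_singleton_le_iff_mem]
      exact Ideal.mul_mem_right _ _ (Submodule.mem_sup_left S.Jd_y)
  · refine sup_le (sup_le ?_ le_sup_right) ?_
    · exact le_sup_of_le_left (le_sup_of_le_left le_sup_left)
    · exact le_sup_of_le_left (le_sup_of_le_left le_sup_right)

theorem cl_JVw (Q : Ideal (Coord (Fin 5) 2)) [Q.IsPrime] : cl S.wt S.JVw Q =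
    cl S.wt (S.JR ⊔ Ideal.span {X 4}) Q + cl S.wt S.JD Q := by
  rw [cl_split Q (X 5 - X 6), col_JVw, JVw_yy]

lemma JV_le_JVw : S.JV ≤ S.JVw :=
  S.JV_le (Submodule.mem_sup_right (Ideal.subset_span rfl))
    (Submodule.mem_sup_left (Ideal.subset_span (Or.inr (Or.inl rfl))))
    (Submodule.mem_sup_left (Ideal.subset_span (Or.inr (Or.inr rfl))))

lemma JV_le_JR : S.JV ≤ S.JR := S.JV_le S.JR_v S.JR_Fa S.JR_Fb

lemma JV_le_Jd : S.JV ≤ S.Jd := S.JV_le S.Jd_v S.Jd_Fa S.Jd_Fb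

lemma JV_le_JD : S.JV ≤ S.JD := by
  rw [← Jd_o]
  exact S.JV_le_Jd.trans le_sup_left

/-! ## all the points are good -/

lemma exists_notMem (Q : Pt S.V 2) (a : Fin 2) : ∃ i : Fin 5, i ≠ 4 ∧
    (MvPolynomial.X (a, i) : Coord (Fin 5) 2) ∉ Q.I := by
  have := Q.prime
  by_contra hcon
  push Not at hcon
  obtain ⟨j, hj⟩ := Q.relevant a
  have hj4 : j = 4 := by
    by_contra h
    exact hj (hcon j h)
  subst hj4
  have h1 : inFactor 2 a S.F ∈ Q.I := Q.onX a S.F (Ideal.subset_span rfl)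
  have h2 : Ideal.Quotient.mk Q.I (inFactor 2 a S.F) =
      (toP (0 : Fin 4 → Coord (Fin 5) 2 ⧸ Q.I) S.F).eval
        (Ideal.Quotient.mk Q.I (MvPolynomial.X (a, 4))) := by
    rw [eval_toP]
    have h3 : (Ideal.Quotient.mk Q.I).comp
        ((inFactor 2 a : R5 →ₐ[ℂ] Coord (Fin 5) 2) : R5 →+* Coord (Fin 5) 2) =
        ((aeval ![(0 : Fin 4 → Coord (Fin 5) 2 ⧸ Q.I) 0, (0 : Fin 4 → Coord (Fin 5) 2 ⧸ Q.I) 1,
          (0 : Fin 4 → Coord (Fin 5) 2 ⧸ Q.I) 2, (0 : Fin 4 → Coord (Fin 5) 2 ⧸ Q.I) 3,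
          Ideal.Quotient.mk Q.I (MvPolynomial.X (a, 4))] : R5 →ₐ[ℂ] Coord (Fin 5) 2 ⧸ Q.I) :
          R5 →+* Coord (Fin 5) 2 ⧸ Q.I) := by
      refine MvPolynomial.ringHom_ext (fun c => ?_) (fun i => ?_)
      · simp only [RingHom.coe_comp, Function.comp_apply, RingHom.coe_coe, algHom_C]
        rfl
      · have h4 : ((inFactor 2 a : R5 →ₐ[ℂ] Coord (Fin 5) 2) : R5 →+* Coord (Fin 5) 2)
            (MvPolynomial.X i) = MvPolynomial.X (a, i) := rename_X _ _
        rw [RingHom.comp_apply, h4]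
        simp only [RingHom.coe_coe, aeval_X]
        fin_cases i
        · exact Ideal.Quotient.eq_zero_iff_mem.mpr (hcon 0 (by decide))
        · exact Ideal.Quotient.eq_zero_iff_mem.mpr (hcon 1 (by decide))
        · exact Ideal.Quotient.eq_zero_iff_mem.mpr (hcon 2 (by decide))
        · exact Ideal.Quotient.eq_zero_iff_mem.mpr (hcon 3 (by decide))
        · rfl
    exact RingHom.congr_fun h3 S.F
  rw [Ideal.Quotient.eq_zero_iff_mem.mpr h1, toP_zero S.wtpos S.hFwt S.hD, Polynomial.eval_mul,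
    Polynomial.eval_C, Polynomial.eval_pow, Polynomial.eval_X] at h2
  have h3 : algebraMap ℂ (Coord (Fin 5) 2 ⧸ Q.I) (coeff (Finsupp.single 4 S.D) S.F) ≠ 0 :=
    (map_ne_zero_iff _ (algebraMap ℂ (Coord (Fin 5) 2 ⧸ Q.I)).injective).mpr S.monic
  have h4 := (mul_eq_zero.mp h2.symm).resolve_left h3
  have h5 := eq_zero_of_pow_eq_zero h4
  exact hj (Ideal.Quotient.eq_zero_iff_mem.mp h5)

lemma al_be {J : Ideal R7} (hv : (X 0 - X 1 : R7) ∈ J) {i : Fin 5} (hi : i ≠ 4) :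
    al i - be i ∈ J := by
  fin_cases i
  · exact hv
  · simp [al, be]
  · simp [al, be]
  · simp [al, be]
  · exact absurd rfl hi

lemma good (Q : Pt S.V 2) (hQ : RingHom.ker (phi S.wt S.JV) ≤ Q.I) : ∃ j : Fin 5,
    j ≠ 4 ∧ (MvPolynomial.X (0, j) : Coord (Fin 5) 2) ∉ Q.I ∧
    (MvPolynomial.X (1, j) : Coord (Fin 5) 2) ∉ Q.I := by
  obtain ⟨i, hi, hi0⟩ := S.exists_notMem Q 0
  obtain ⟨k, hk, hk1⟩ := S.exists_notMem Q 1
  have hv : (X 0 - X 1 : R7) ∈ S.JV := Ideal.subset_span (Or.inl rfl)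
  exact ⟨i, hi, hi0, shared S.wtpos (al_be hv hi) (al_be hv hk) Q.prime hQ hi0 hk1⟩

/-- **(E)** -/
theorem E_rel : ∃ E ∈ RatZero S.V 2, ∀ Q : Pt S.V 2,
    (lev Q ≠ 4 → E Q = 0) ∧ (lev Q = 4 → E Q = S.r * clz S.JVw Q - S.d * clz S.JD Q) := by
  have hdr : 1 ≤ S.d - S.r := by
    have h1 := S.hD
    have h2 := S.hD2
    have h3 := S.hr
    have h4 : 2 * S.r ≤ S.D * S.r := Nat.mul_le_mul_right _ h2
    omega
  have ho : IsWeightedHomogeneous (w7 S.wt) (X 4 : R7) S.w := isWeightedHomogeneous_X ℂ _ _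
  have hb1 : IsWeightedHomogeneous (w7 S.wt) ((X 5 - X 6 : R7) ^ S.w) (S.w * S.r) := by
    have h := S.yy_homog.pow S.w
    rwa [smul_eq_mul] at h
  have hb1' : IsWeightedHomogeneous (w7 S.wt) ((X 4 : R7) ^ S.r) (S.w * S.r) := by
    have h := ho.pow S.r
    rwa [smul_eq_mul, mul_comm] at h
  have hb2 : IsWeightedHomogeneous (w7 S.wt) ((aeval al S.Fy : R7) ^ S.w) (S.w * (S.d - S.r)) := by
    have h := (Wd.aeval_homogeneous S.wt (w7 S.wt) al S.hal S.Fy_homog).pow S.w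
    rwa [smul_eq_mul] at h
  have hb2' : IsWeightedHomogeneous (w7 S.wt) ((X 4 : R7) ^ (S.d - S.r)) (S.w * (S.d - S.r)) := by
    have h := ho.pow (S.d - S.r)
    rwa [smul_eq_mul, mul_comm] at h
  obtain ⟨D₁, hD₁, hs₁, hv₁⟩ := rel (X := S.V) S.wt_pos (F := S.F) rfl S.JR_hom S.JR_Fa S.JR_Fb
    (S.integral S.JR_v S.JR_Fa S.JR_Fb) hb1 hb1' (nzd_pow S.nzd_JR_yy _) (nzd_pow S.nzd_JR_o _)
  obtain ⟨D₂, hD₂, hs₂, hv₂⟩ := rel (X := S.V) S.wt_pos (F := S.F) rfl S.Jd_hom S.Jd_Fa S.Jd_Fb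
    (S.integral S.Jd_v S.Jd_Fa S.Jd_Fb) hb2 hb2' (nzd_pow S.nzd_Jd_Fy _) (nzd_pow S.nzd_Jd_o _)
  refine ⟨D₂ - D₁, sub_mem hD₂ hD₁, fun Q => ⟨?_, ?_⟩⟩
  · intro h4
    have h1 : D₁ Q = 0 := by
      by_contra h
      exact h4 (hs₁ Q h).1
    have h2 : D₂ Q = 0 := by
      by_contra h
      exact h4 (hs₂ Q h).1
    rw [Finsupp.sub_apply, h1, h2, sub_zero]
  · intro h4
    have hQp := Q.prime
    by_cases hQ : RingHom.ker (phi S.wt S.JV) ≤ Q.I
    · obtain ⟨j, hj, hj0, hj1⟩ := S.good Q hQ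
      obtain ⟨t1, t1', e1⟩ := hv₁ Q h4 ⟨j, al_be S.JR_v hj, hj0, hj1⟩
      obtain ⟨t2, t2', e2⟩ := hv₂ Q h4 ⟨j, al_be S.Jd_v hj, hj0, hj1⟩
      have t3 := cl_ne_top_of_pow S.nzd_JR_o S.hr Q.I t1'
      have t4 := cl_ne_top_of_pow S.nzd_Jd_o hdr Q.I t2'
      rw [Jd_o] at t4
      rw [clz_pow S.nzd_JR_yy, clz_pow S.nzd_JR_o, JR_yy] at e1
      rw [clz_pow S.nzd_Jd_Fy, clz_pow S.nzd_Jd_o, Jd_o] at e2
      have e3 : clz S.JVw Q = clz (S.JR ⊔ Ideal.span {X 4}) Q + clz S.JD Q := by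
        rw [clz, clz, clz]
        have h5 : cl S.V.wt S.JVw Q.I = cl S.V.wt (S.JR ⊔ Ideal.span {X 4}) Q.I +
            cl S.V.wt S.JD Q.I := S.cl_JVw Q.I
        rw [h5, ENat.toNat_add t3 t4]
        push_cast
        ring
      rw [Finsupp.sub_apply, e1, e2, e3]
      have h6 : ((S.d - S.r : ℕ) : ℤ) = S.d - S.r := by
        rw [Nat.cast_sub S.r_le_d]
      rw [h6]
      ring
    · have h1 : D₁ Q = 0 := by
        by_contra h
        exact hQ ((ker_phi_mono S.JV_le_JR).trans (hs₁ Q h).2)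
      have h2 : D₂ Q = 0 := by
        by_contra h
        exact hQ ((ker_phi_mono S.JV_le_Jd).trans (hs₂ Q h).2)
      have h3 : clz S.JVw Q = 0 := by
        have h5 : cl S.V.wt S.JVw Q.I = 0 :=
          cl_eq_zero Q.I fun h => hQ ((ker_phi_mono S.JV_le_JVw).trans h)
        rw [clz, h5]
        rfl
      have h4 : clz S.JD Q = 0 := by
        have h5 : cl S.V.wt S.JD Q.I = 0 :=
          cl_eq_zero Q.I fun h => hQ ((ker_phi_mono S.JV_le_JD).trans h)
        rw [clz, h5]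
        rfl
      rw [Finsupp.sub_apply, h1, h2, h3, h4]
      ring

end MD

end Pool.Agent.RCH.Mn
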