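import Pool.Agent.RCH.MnNzd

/-!
# Forms which are monic in the last variable
-/

set_option autoImplicit false

open MvPolynomial

namespace Pool.Agent.RCH.Mn

section toP

variable {A : Type} [CommRing A] [Algebra ℂ A]

/-- a polynomial in five variables as a polynomial in the last variable, for given values of the
other variables -/
noncomputable def toP (a : Fin 4 → A) : MvPolynomial (Fin 5) ℂ →ₐ[ℂ] Polynomial A :=
  aeval ![Polynomial.C (a 0), Polynomial.C (a 1), Polynomial.C (a 2), Polynomial.C (a 3),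
    Polynomial.X]

lemma toP_monomial (a : Fin 4 → A) (e : Fin 5 →₀ ℕ) (c : ℂ) :
    toP a (monomial e c) = Polynomial.C (algebraMap ℂ A c *
      (a 0 ^ e 0 * a 1 ^ e 1 * a 2 ^ e 2 * a 3 ^ e 3)) * Polynomial.X ^ e 4 := by
  rw [toP, aeval_monomial, Finsupp.prod_fintype _ _ (fun i => pow_zero _), Fin.prod_univ_five]
  simp only [Matrix.cons_val_zero, Matrix.cons_val_one, Matrix.cons_val, map_mul, map_pow]
  rw [show algebraMap ℂ (Polynomial A) c = Polynomial.C (algebraMap ℂ A c) from rfl]
  ring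

lemma eval_toP (a : Fin 4 → A) (y : A) (f : MvPolynomial (Fin 5) ℂ) :
    (toP a f).eval y = aeval ![a 0, a 1, a 2, a 3, y] f := by
  have h : ((Polynomial.evalRingHom y).comp (toP a : MvPolynomial (Fin 5) ℂ →+* Polynomial A)) =
      ((aeval ![a 0, a 1, a 2, a 3, y] : MvPolynomial (Fin 5) ℂ →ₐ[ℂ] A) : _ →+* A) := by
    refine MvPolynomial.ringHom_ext (fun c => ?_) (fun i => ?_)
    · simp [toP]
    · fin_cases i <;> simp [toP]
  exact RingHom.congr_fun h f

lemma map_toP {B : Type} [CommRing B] [Algebra ℂ B] (g : A →ₐ[ℂ] B) (a : Fin 4 → A)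
    (f : MvPolynomial (Fin 5) ℂ) :
    (toP a f).map (g : A →+* B) = toP (fun i => g (a i)) f := by
  have h : ((Polynomial.mapRingHom (g : A →+* B)).comp
      (toP a : MvPolynomial (Fin 5) ℂ →+* Polynomial A)) =
      (toP (fun i => g (a i)) : MvPolynomial (Fin 5) ℂ →+* Polynomial B) := by
    refine MvPolynomial.ringHom_ext (fun c => ?_) (fun i => ?_)
    · simp only [RingHom.coe_comp, Function.comp_apply, RingHom.coe_coe, toP, algHom_C,
        Polynomial.coe_mapRingHom]
      rw [show algebraMap ℂ (Polynomial A) c = Polynomial.C (algebraMap ℂ A c) from rfl,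
        show algebraMap ℂ (Polynomial B) c = Polynomial.C (algebraMap ℂ B c) from rfl,
        Polynomial.map_C]
      exact congrArg Polynomial.C (g.commutes c)
    · fin_cases i <;> simp [toP]
  exact RingHom.congr_fun h f

variable {wt : Fin 5 → ℕ} {F : MvPolynomial (Fin 5) ℂ} {d D : ℕ}

lemma weight_five (e : Fin 5 →₀ ℕ) : Finsupp.weight wt e =
    e 0 * wt 0 + e 1 * wt 1 + e 2 * wt 2 + e 3 * wt 3 + e 4 * wt 4 := by
  rw [Finsupp.weight_apply, Finsupp.sum_fintype, Fin.sum_univ_five]
  · simp only [smul_eq_mul]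
  · intro i
    exact zero_smul ℕ _

lemma exp_le (h4 : 0 < wt 4) (hF : IsWeightedHomogeneous wt F d) (hd : D * wt 4 = d)
    {e : Fin 5 →₀ ℕ} (he : coeff e F ≠ 0) : e 4 ≤ D := by
  have h1 := hF he
  rw [weight_five] at h1
  have h2 : e 4 * wt 4 ≤ D * wt 4 := by omega
  exact Nat.le_of_mul_le_mul_right h2 h4

lemma exp_eq (hpos : ∀ j, 0 < wt j) (hF : IsWeightedHomogeneous wt F d) (hd : D * wt 4 = d)
    {e : Fin 5 →₀ ℕ} (he : coeff e F ≠ 0) (h4 : e 4 = D) : e = Finsupp.single 4 D := by
  have h1 := hF he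
  rw [weight_five, h4] at h1
  have h2 : ∀ j, (j : Fin 5) ≠ 4 → e j = 0 := by
    intro j hj
    have h3 := hpos j
    have h5 : e j * wt j = 0 := by
      fin_cases j
      · simp only [Fin.zero_eta]; omega
      · simp only [Fin.mk_one]; omega
      · simp only [Fin.reduceFinMk]; omega
      · simp only [Fin.reduceFinMk]; omega
      · exact absurd rfl hj
    rcases Nat.mul_eq_zero.mp h5 with h | h
    · exact h
    · omega
  ext j
  by_cases hj : j = 4
  · rw [hj, h4, Finsupp.single_eq_same]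
  · rw [h2 j hj, Finsupp.single_eq_of_ne hj]

lemma toP_natDegree_le (h4 : 0 < wt 4) (hF : IsWeightedHomogeneous wt F d) (hd : D * wt 4 = d)
    (a : Fin 4 → A) : (toP a F).natDegree ≤ D := by
  conv_lhs => rw [← support_sum_monomial_coeff F]
  rw [map_sum]
  refine Polynomial.natDegree_sum_le_of_forall_le _ _ fun e he => ?_
  rw [toP_monomial]
  refine (Polynomial.natDegree_C_mul_X_pow_le _ _).trans ?_
  exact exp_le h4 hF hd (mem_support_iff.mp he)

lemma toP_coeff (hpos : ∀ j, 0 < wt j) (hF : IsWeightedHomogeneous wt F d) (hd : D * wt 4 = d)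
    (a : Fin 4 → A) :
    (toP a F).coeff D = algebraMap ℂ A (coeff (Finsupp.single 4 D) F) := by
  conv_lhs => rw [← support_sum_monomial_coeff F]
  rw [map_sum, Polynomial.finsetSum_coeff]
  have h1 : ∀ e ∈ F.support, e ≠ Finsupp.single 4 D →
      (toP a (monomial e (coeff e F))).coeff D = 0 := by
    intro e he hne
    rw [toP_monomial, Polynomial.coeff_C_mul_X_pow, if_neg]
    intro h
    exact hne (exp_eq hpos hF hd (mem_support_iff.mp he) h.symm)
  have h2 : Finsupp.single 4 D ∉ F.support →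
      (toP a (monomial (Finsupp.single 4 D) (coeff (Finsupp.single 4 D) F))).coeff D = 0 := by
    intro h
    rw [notMem_support_iff.mp h, map_zero, map_zero, Polynomial.coeff_zero]
  rw [Finset.sum_eq_single _ h1 h2, toP_monomial, Polynomial.coeff_C_mul_X_pow, if_pos]
  · simp
  · simp

/-- the last coordinate is integral over the other coordinates -/
lemma isIntegral_of_monic (hpos : ∀ j, 0 < wt j) (hF : IsWeightedHomogeneous wt F d)
    (hd : D * wt 4 = d) (hm : coeff (Finsupp.single 4 D) F ≠ 0) {B : Subalgebra ℂ A}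
    {a : Fin 4 → A} (ha : ∀ i, a i ∈ B) {y : A} (h : aeval ![a 0, a 1, a 2, a 3, y] F = 0) :
    IsIntegral B y := by
  set c : ℂ := coeff (Finsupp.single 4 D) F with hc
  let a' : Fin 4 → B := fun i => ⟨a i, ha i⟩
  have h1 := toP_coeff (A := B) hpos hF hd a'
  have h2 := toP_natDegree_le (A := B) (hpos 4) hF hd a'
  refine ⟨Polynomial.C (algebraMap ℂ B c⁻¹) * toP a' F, ?_, ?_⟩
  · refine Polynomial.monic_of_natDegree_le_of_coeff_eq_one D ?_ ?_
    · exact (Polynomial.natDegree_C_mul_le _ _).trans h2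
    · rw [Polynomial.coeff_C_mul, h1, ← map_mul, ← hc, inv_mul_cancel₀ hm, map_one]
  · rw [Polynomial.eval₂_mul, Polynomial.eval₂_eq_eval_map (p := toP a' F),
      show (algebraMap B A) = ((B.val : B →ₐ[ℂ] A) : B →+* A) from rfl, map_toP, eval_toP]
    have h3 : aeval ![B.val (a' 0), B.val (a' 1), B.val (a' 2), B.val (a' 3), y] F = 0 := h
    rw [h3, mul_zero]

end toP

end Pool.Agent.RCH.Mn
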