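import Pool.Agent.RCH.DgVer
import Pool.Agent.RCH.DgLin
import Pool.Agent.RCH.DgDim

/-!
# The multiplicity of the cone with a vertex over a monomial curve
-/

set_option autoImplicit false

open MvPolynomial Filter Topology

namespace Pool.Agent.RCH.Dg

variable {σ : Type} (w : σ → ℕ) (i₀ : σ) (a : σ → ℂ)

open Classical in
/-- the parametrisation `x_(i₀) = v`, `x_i = a_i τ ^ (w i)` of the cone -/
noncomputable def coneMap : MvPolynomial σ ℂ →ₐ[ℂ] MvPolynomial (Fin 2) ℂ :=
  aeval fun i => if i = i₀ then X 0 else C (a i) * X 1 ^ w i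

open Classical in
/-- the parametrisation `x_(i₀) = 0`, `x_i = a_i τ ^ (w i)` of the monomial curve -/
noncomputable def monMap : MvPolynomial σ ℂ →ₐ[ℂ] Polynomial ℂ :=
  aeval fun i => if i = i₀ then 0 else Polynomial.C (a i) * Polynomial.X ^ w i

lemma coneMap_self : coneMap w i₀ a (X i₀) = X 0 := by
  rw [coneMap, aeval_X, if_pos rfl]

lemma coneMap_ne {i : σ} (hi : i ≠ i₀) : coneMap w i₀ a (X i) = C (a i) * X 1 ^ w i := by
  rw [coneMap, aeval_X, if_neg hi]

lemma monMap_self : monMap w i₀ a (X i₀) = 0 := by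
  rw [monMap, aeval_X, if_pos rfl]

lemma monMap_ne {i : σ} (hi : i ≠ i₀) :
    monMap w i₀ a (X i) = Polynomial.C (a i) * Polynomial.X ^ w i := by
  rw [monMap, aeval_X, if_neg hi]

/-- the vertex and the monomial curve -/
lemma ker_sup : RingHom.ker (coneMap w i₀ a) ⊔ Ideal.span {X i₀} =
    RingHom.ker (monMap w i₀ a) := by
  let θ : MvPolynomial (Fin 2) ℂ →ₐ[ℂ] Polynomial ℂ := aeval ![0, Polynomial.X]
  let η : Polynomial ℂ →ₐ[ℂ] MvPolynomial (Fin 2) ℂ := Polynomial.aeval (X 1)
  have h1 : θ.comp (coneMap w i₀ a) = monMap w i₀ a := by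
    refine MvPolynomial.algHom_ext fun i => ?_
    rw [AlgHom.comp_apply]
    by_cases hi : i = i₀
    · rw [hi, coneMap_self, monMap_self]
      exact aeval_X _ _
    · rw [coneMap_ne w i₀ a hi, monMap_ne w i₀ a hi, map_mul, map_pow]
      congr 1
      · exact (θ.commutes (a i)).trans rfl
      · congr 1
        exact aeval_X _ _
  have h2 : (coneMap w i₀ a).comp (killV {i₀}) = η.comp (monMap w i₀ a) := by
    refine MvPolynomial.algHom_ext fun i => ?_
    rw [AlgHom.comp_apply, AlgHom.comp_apply]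
    by_cases hi : i = i₀
    · rw [hi, killV_X_mem {i₀} (Set.mem_singleton _), monMap_self, map_zero, map_zero]
    · rw [killV_X_notMem {i₀} (fun h => hi h), coneMap_ne w i₀ a hi, monMap_ne w i₀ a hi, map_mul,
        map_pow]
      congr 1
      · exact (η.commutes (a i)).symm
      · congr 1
        exact (Polynomial.aeval_X _).symm
  apply le_antisymm
  · refine sup_le ?_ ?_
    · intro p hp
      rw [RingHom.mem_ker] at hp ⊢
      rw [← h1, AlgHom.comp_apply, hp, map_zero]
    · rw [Ideal.span_singleton_le_iff_mem]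
      exact monMap_self w i₀ a
  · intro p hp
    rw [RingHom.mem_ker] at hp
    have h3 : killV {i₀} p ∈ RingHom.ker (coneMap w i₀ a) := by
      rw [RingHom.mem_ker]
      have h4 := congrArg (fun f : MvPolynomial σ ℂ →ₐ[ℂ] MvPolynomial (Fin 2) ℂ => f p) h2
      simp only [AlgHom.comp_apply] at h4
      rw [h4, hp, map_zero]
    have h5 := sub_killV_mem {i₀} p
    rw [varI, Set.image_singleton] at h5
    have h6 : p = killV {i₀} p + (p - killV {i₀} p) := by ring
    rw [h6]
    exact add_mem (Ideal.mem_sup_left h3) (Ideal.mem_sup_right h5)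

/-- the image of a monomial -/
lemma monMap_monomial {G : ℕ} (hG : ∀ i, i ≠ i₀ → a i ≠ 0 → G ∣ w i) (d : σ →₀ ℕ) :
    ∃ c : ℂ, monMap w i₀ a (monomial d 1) = Polynomial.C c * Polynomial.X ^ Finsupp.weight w d ∧
      (c ≠ 0 → G ∣ Finsupp.weight w d) := by
  classical
  induction d using Finsupp.induction_linear with
  | zero =>
    refine ⟨1, ?_, fun _ => ?_⟩
    · rw [map_zero, pow_zero, mul_one]
      exact map_one _
    · rw [map_zero]
      exact dvd_zero _
  | add d e hd he =>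
    obtain ⟨c, hc, hc'⟩ := hd
    obtain ⟨c', hc₁, hc₁'⟩ := he
    refine ⟨c * c', ?_, fun h => ?_⟩
    · have h1 : (monomial (d + e) 1 : MvPolynomial σ ℂ) = monomial d 1 * monomial e 1 := by
        rw [monomial_mul, mul_one]
      rw [h1, map_mul, hc, hc₁, map_add, Polynomial.C_mul, pow_add]
      ring
    · rw [map_add]
      exact dvd_add (hc' (left_ne_zero_of_mul h)) (hc₁' (right_ne_zero_of_mul h))
  | single i n =>
    have h1 : (monomial (Finsupp.single i n) 1 : MvPolynomial σ ℂ) = X i ^ n := by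
      rw [X_pow_eq_monomial]
    have h2 : Finsupp.weight w (Finsupp.single i n) = n * w i := by
      rw [Finsupp.weight_apply, Finsupp.sum_single_index (by rw [zero_smul]), smul_eq_mul]
    rw [h1, h2, map_pow]
    by_cases hn : n = 0
    · subst hn
      refine ⟨1, ?_, fun _ => ?_⟩
      · rw [zero_mul, pow_zero, pow_zero, mul_one]
        rfl
      · rw [zero_mul]
        exact dvd_zero _
    by_cases hi : i = i₀
    · refine ⟨0, ?_, fun h => absurd rfl h⟩
      rw [hi, monMap_self, zero_pow hn, Polynomial.C_0, zero_mul]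
    · refine ⟨a i ^ n, ?_, fun h => ?_⟩
      · rw [monMap_ne w i₀ a hi, mul_pow, ← pow_mul, mul_comm (w i) n, Polynomial.C_pow]
      · exact Dvd.dvd.mul_left (hG i hi fun h0 => h (by rw [h0, zero_pow hn])) _

section fin

variable [Finite σ] {w} (hw : ∀ i, 0 < w i)
include hw

/-- the upper bound for the Hilbert function of the monomial curve -/
lemma H_mon_le {G : ℕ} (hG0 : 0 < G) (hG : ∀ i, i ≠ i₀ → a i ≠ 0 → G ∣ w i) (n : ℕ) :
    H w (RingHom.ker (monMap w i₀ a)) n ≤ n / G + 1 := by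
  classical
  set J := RingHom.ker (monMap w i₀ a) with hJ
  have := finite_Sle hw n
  let f : (Sle w n ⧸ Ile w J n) →ₗ[ℂ] Polynomial ℂ :=
    Submodule.liftQ _ ((monMap w i₀ a).toLinearMap.comp (Sle w n).subtype) fun p hp => hp
  have hf : Function.Injective f := by
    rw [← LinearMap.ker_eq_bot, LinearMap.ker_eq_bot']
    intro x hx
    obtain ⟨r, rfl⟩ := Submodule.Quotient.mk_surjective _ x
    rw [Submodule.Quotient.mk_eq_zero]
    exact hx
  let T : Finset (Polynomial ℂ) :=
    (Finset.range (n / G + 1)).image fun k => Polynomial.X ^ (G * k)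
  have hr : LinearMap.range f ≤ Submodule.span ℂ (T : Set (Polynomial ℂ)) := by
    rintro _ ⟨x, rfl⟩
    obtain ⟨p, rfl⟩ := Submodule.Quotient.mk_surjective _ x
    show monMap w i₀ a (p : MvPolynomial σ ℂ) ∈ _
    rw [(p : MvPolynomial σ ℂ).as_sum, map_sum]
    refine Submodule.sum_mem _ fun d hd => ?_
    have h1 : (monomial d (coeff d (p : MvPolynomial σ ℂ)) : MvPolynomial σ ℂ) =
        coeff d (p : MvPolynomial σ ℂ) • monomial d 1 := by
      rw [smul_monomial, smul_eq_mul, mul_one]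
    rw [h1, map_smul]
    refine Submodule.smul_mem _ _ ?_
    obtain ⟨c, hc, hc'⟩ := monMap_monomial w i₀ a hG d
    rw [hc]
    by_cases h0 : c = 0
    · rw [h0, Polynomial.C_0, zero_mul]
      exact zero_mem _
    obtain ⟨k, hk⟩ := hc' h0
    have h2 : Finsupp.weight w d ≤ n := p.2 d (mem_support_iff.1 hd)
    rw [← Polynomial.smul_eq_C_mul]
    refine Submodule.smul_mem _ _ (Submodule.subset_span ?_)
    rw [Finset.mem_coe, Finset.mem_image]
    refine ⟨k, ?_, by rw [hk]⟩
    rw [Finset.mem_range, Nat.lt_succ_iff, Nat.le_div_iff_mul_le hG0]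
    rw [hk] at h2
    linarith [mul_comm k G]
  have e1 : Module.finrank ℂ (Sle w n ⧸ Ile w J n) = Module.finrank ℂ (LinearMap.range f) :=
    (LinearMap.finrank_range_of_inj hf).symm
  rw [H, e1]
  calc Module.finrank ℂ (LinearMap.range f)
      ≤ Module.finrank ℂ (Submodule.span ℂ (T : Set (Polynomial ℂ))) :=
        Submodule.finrank_mono hr
    _ ≤ T.card := finrank_span_finset_le_card T
    _ ≤ n / G + 1 := Finset.card_image_le.trans (by rw [Finset.card_range])

/-- the lower bound for the Hilbert function of the monomial curve -/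
lemma le_H_mon {G n₀ : ℕ} (hG0 : 0 < G)
    (hn₀ : ∀ m, n₀ ≤ m → G ∣ m → m ∈ AddSubmonoid.closure {m | ∃ i, i ≠ i₀ ∧ a i ≠ 0 ∧ w i = m})
    (n : ℕ) : n / G + 1 ≤ H w (RingHom.ker (monMap w i₀ a)) n + n₀ := by
  classical
  set J := RingHom.ker (monMap w i₀ a) with hJ
  have key : ∀ m ∈ AddSubmonoid.closure {m | ∃ i, i ≠ i₀ ∧ a i ≠ 0 ∧ w i = m},
      ∃ u : MvPolynomial σ ℂ, IsWeightedHomogeneous w u m ∧ ∃ c : ℂˣ,
        monMap w i₀ a u = c • Polynomial.X ^ m := by
    intro m hm
    induction hm using AddSubmonoid.closure_induction with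
    | mem m hm =>
      obtain ⟨i, hi, hai, rfl⟩ := hm
      refine ⟨X i, isWeightedHomogeneous_X ℂ w i, Units.mk0 _ hai, ?_⟩
      rw [monMap_ne w i₀ a hi, Units.smul_def, Units.val_mk0, Polynomial.smul_eq_C_mul]
    | zero =>
      refine ⟨1, isWeightedHomogeneous_one ℂ w, 1, ?_⟩
      rw [map_one, pow_zero, one_smul]
    | add m m' _ _ hm hm' =>
      obtain ⟨u, hu, c, hc⟩ := hm
      obtain ⟨u', hu', c', hc'⟩ := hm'
      refine ⟨u * u', hu.mul hu', c * c', ?_⟩
      rw [map_mul, hc, hc', smul_mul_smul_comm, pow_add]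
  have hm : ∀ k : ℕ, G * (k + n₀) ∈
      AddSubmonoid.closure {m | ∃ i, i ≠ i₀ ∧ a i ≠ 0 ∧ w i = m} := fun k =>
    hn₀ _ (by nlinarith) (dvd_mul_right _ _)
  choose u hu c hc using fun k : ℕ => key _ (hm k)
  have h1 : n / G + 1 - n₀ ≤ H w J n := by
    have h2 := card_le_H (w := w) hw (P := J) (n := n) (ι := Fin (n / G + 1 - n₀))
      (fun k => u k) (fun k => ?_) ?_
    · rwa [Fintype.card_fin] at h2
    · intro d hd
      rw [hu k hd]
      have h3 : (k : ℕ) + n₀ ≤ n / G := by
        have := k.2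
        omega
      exact (Nat.mul_le_mul_left G h3).trans (Nat.mul_div_le n G)
    · let L : (MvPolynomial σ ℂ ⧸ J) →ₐ[ℂ] Polynomial ℂ :=
        Ideal.Quotient.liftₐ J (monMap w i₀ a) fun x hx => hx
      refine LinearIndependent.of_comp L.toLinearMap ?_
      have h4 : (L.toLinearMap ∘ fun k : Fin (n / G + 1 - n₀) =>
          (Ideal.Quotient.mk J (u k) : MvPolynomial σ ℂ ⧸ J)) =
          (fun k : Fin (n / G + 1 - n₀) => c k) •
            (fun k : Fin (n / G + 1 - n₀) => (Polynomial.X ^ (G * (k + n₀)) : Polynomial ℂ)) := by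
        funext k
        exact hc k
      rw [h4]
      refine LinearIndependent.units_smul ?_ _
      have h5 := (Polynomial.basisMonomials ℂ).linearIndependent.comp
        (fun k : Fin (n / G + 1 - n₀) => G * (k + n₀)) (fun k k' h => by
          have h6 := Nat.eq_of_mul_eq_mul_left hG0 h
          exact Fin.ext (by omega))
      have h7 : (⇑(Polynomial.basisMonomials ℂ) ∘ fun k : Fin (n / G + 1 - n₀) => G * (k + n₀)) =
          fun k : Fin (n / G + 1 - n₀) => (Polynomial.X ^ (G * (k + n₀)) : Polynomial ℂ) := by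
        funext k
        rw [Function.comp_apply, Polynomial.coe_basisMonomials]
        exact Polynomial.monomial_one_right_eq_X_pow _
      rwa [h7] at h5
  omega

/-- **The multiplicity of the cone.** -/
theorem hasRk_cone (hK : Hom w (RingHom.ker (coneMap w i₀ a))) {G : ℕ} (hG0 : 0 < G)
    (hG : ∀ m, (∀ i, i ≠ i₀ → a i ≠ 0 → m ∣ w i) ↔ m ∣ G) :
    HasRk w (RingHom.ker (coneMap w i₀ a)) 2 (1 / (w i₀ * G)) := by
  have hG' : Nat.setGcd {m | ∃ i, i ≠ i₀ ∧ a i ≠ 0 ∧ w i = m} = G := by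
    refine Nat.dvd_antisymm ((hG _).1 fun i hi ha => Nat.setGcd_dvd_of_mem ⟨i, hi, ha, rfl⟩) ?_
    rw [Nat.dvd_setGcd_iff]
    rintro m ⟨i, hi, ha, rfl⟩
    exact (hG G).2 dvd_rfl i hi ha
  obtain ⟨n₀, hn₀⟩ := Nat.exists_mem_closure_of_ge {m | ∃ i, i ≠ i₀ ∧ a i ≠ 0 ∧ w i = m}
  rw [hG'] at hn₀
  have hlin : Lim (H w (RingHom.ker (monMap w i₀ a))) 2 (1 / G) := by
    refine lim_linear (C := n₀ + 1) fun n => ?_
    have h1 := H_mon_le i₀ a hw hG0 ((hG G).2 dvd_rfl) n
    have h2 := le_H_mon i₀ a hw hG0 hn₀ n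
    have h1' : (H w (RingHom.ker (monMap w i₀ a)) n : ℝ) ≤ (n / G : ℕ) + 1 := by exact_mod_cast h1
    have h2' : ((n / G : ℕ) : ℝ) + 1 ≤ H w (RingHom.ker (monMap w i₀ a)) n + n₀ := by
      exact_mod_cast h2
    have hGr : (0 : ℝ) < G := by exact_mod_cast hG0
    have h3 : ((n / G : ℕ) : ℝ) ≤ 1 / G * n := by
      rw [one_div_mul_eq_div]
      exact Nat.cast_div_le
    have h4 : 1 / (G : ℝ) * n ≤ (n / G : ℕ) + 1 := by
      rw [one_div_mul_eq_div, div_le_iff₀ hGr]
      have h5 := Nat.lt_div_mul_add (a := n) hG0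
      have h6 : n ≤ (n / G + 1) * G := by
        rw [add_mul, one_mul]
        exact h5.le
      exact_mod_cast h6
    rw [abs_le]
    constructor <;> linarith
  have hp : (RingHom.ker (coneMap w i₀ a)).IsPrime := RingHom.ker_isPrime _
  have hX : (X i₀ : MvPolynomial σ ℂ) ∉ RingHom.ker (coneMap w i₀ a) := by
    rw [RingHom.mem_ker, coneMap_self]
    exact X_ne_zero _
  have hw0 : (0 : ℝ) < w i₀ := by exact_mod_cast hw i₀
  have hGr : (0 : ℝ) < G := by exact_mod_cast hG0
  refine ⟨by positivity, ?_⟩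
  have h := Lim.of_quot (a := H w (RingHom.ker (coneMap w i₀ a)))
    (c := H w (RingHom.ker (monMap w i₀ a))) (d := w i₀) (k := 2) (e := 1 / G) (hw i₀) (fun n => by
      have h1 := H_exact hw hK (isWeightedHomogeneous_X ℂ w i₀) n
      rwa [col_prime hX, ker_sup] at h1) (polyBdd hw _) (polyBdd hw _) hlin
  have h2 : (1 / (w i₀ * G) : ℝ) = 1 / G / w i₀ := by
    field_simp
  rw [h2]
  exact h

end fin

end Pool.Agent.RCH.Dg
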