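import Pool.Agent.RCH.Mn8a
import Pool.Agent.RCH.MnCone

/-!
# Row M8d: the curves of the divisor of `A`: existence, levels and multiplicities
-/

set_option autoImplicit false

open MvPolynomial

namespace Pool.Agent.RCH.Mn

namespace MD

variable (S : MD)

lemma wt1_pos (v : Fin 1 × Fin 5) : 0 < Dg.wt1 S.V v := S.wt_pos v.2

lemma coneHom_zero (a : Fin 3 → ℂ) : S.coneHom a (X (0, 0)) = X 0 := by
  rw [coneHom, aeval_X]; rfl

lemma coneHom_one (a : Fin 3 → ℂ) : S.coneHom a (X (0, 1)) = C (a 0) * X 1 ^ S.p := by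
  rw [coneHom, aeval_X]; rfl

lemma coneHom_two (a : Fin 3 → ℂ) : S.coneHom a (X (0, 2)) = C (a 1) * X 1 ^ S.q := by
  rw [coneHom, aeval_X]; rfl

lemma coneHom_three (a : Fin 3 → ℂ) : S.coneHom a (X (0, 3)) = 0 := by
  rw [coneHom, aeval_X]; rfl

lemma coneHom_four (a : Fin 3 → ℂ) : S.coneHom a (X (0, 4)) = C (a 2) * X 1 ^ S.r := by
  rw [coneHom, aeval_X]; rfl

/-- the coordinates of the point `a` -/
noncomputable def coords (a : Fin 3 → ℂ) : Fin 1 × Fin 5 → ℂ := fun v => ![0, a 0, a 1, 0, a 2] v.2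

lemma wt1_one : Dg.wt1 S.V (0, 1) = S.p := rfl

lemma wt1_two : Dg.wt1 S.V (0, 2) = S.q := rfl

lemma wt1_four : Dg.wt1 S.V (0, 4) = S.r := rfl

lemma coords_one (a : Fin 3 → ℂ) : coords a (0, 1) = a 0 := rfl

lemma coords_two (a : Fin 3 → ℂ) : coords a (0, 2) = a 1 := rfl

lemma coords_three (a : Fin 3 → ℂ) : coords a (0, 3) = 0 := rfl

lemma coords_four (a : Fin 3 → ℂ) : coords a (0, 4) = a 2 := rfl

lemma coneHom_eq_coneMap (a : Fin 3 → ℂ) :
    S.coneHom a = Dg.coneMap (Dg.wt1 S.V) ((0 : Fin 1), (0 : Fin 5)) (coords a) := by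
  have h1 : ((0, 1) : Fin 1 × Fin 5) ≠ (0, 0) := by decide
  have h2 : ((0, 2) : Fin 1 × Fin 5) ≠ (0, 0) := by decide
  have h3 : ((0, 3) : Fin 1 × Fin 5) ≠ (0, 0) := by decide
  have h4 : ((0, 4) : Fin 1 × Fin 5) ≠ (0, 0) := by decide
  have e0 : S.coneHom a (X (0, 0)) =
      Dg.coneMap (Dg.wt1 S.V) ((0 : Fin 1), (0 : Fin 5)) (coords a) (X (0, 0)) := by
    rw [coneHom_zero, Dg.coneMap_self]
  have e1 : S.coneHom a (X (0, 1)) =
      Dg.coneMap (Dg.wt1 S.V) ((0 : Fin 1), (0 : Fin 5)) (coords a) (X (0, 1)) := by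
    rw [coneHom_one, Dg.coneMap_ne _ _ _ h1, wt1_one, coords_one]
  have e2 : S.coneHom a (X (0, 2)) =
      Dg.coneMap (Dg.wt1 S.V) ((0 : Fin 1), (0 : Fin 5)) (coords a) (X (0, 2)) := by
    rw [coneHom_two, Dg.coneMap_ne _ _ _ h2, wt1_two, coords_two]
  have e3 : S.coneHom a (X (0, 3)) =
      Dg.coneMap (Dg.wt1 S.V) ((0 : Fin 1), (0 : Fin 5)) (coords a) (X (0, 3)) := by
    rw [coneHom_three, Dg.coneMap_ne _ _ _ h3, coords_three, C_0, zero_mul]
  have e4 : S.coneHom a (X (0, 4)) =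
      Dg.coneMap (Dg.wt1 S.V) ((0 : Fin 1), (0 : Fin 5)) (coords a) (X (0, 4)) := by
    rw [coneHom_four, Dg.coneMap_ne _ _ _ h4, wt1_four, coords_four]
  refine MvPolynomial.algHom_ext fun v => ?_
  obtain ⟨i, j⟩ := v
  have hi : i = 0 := Subsingleton.elim _ _
  subst hi
  fin_cases j
  exacts [e0, e1, e2, e3, e4]

lemma mem_of_cone {C' : Pt S.V 1} {a : Fin 3 → ℂ} (hC : C'.I = RingHom.ker (S.coneHom a))
    {j : Fin 5} {c : ℂ} {n : ℕ} (h : S.coneHom a (X (0, j)) = C c * X 1 ^ n) :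
    (X (0, j) : Coord (Fin 5) 1) ∈ C'.I ↔ c = 0 := by
  rw [hC, RingHom.mem_ker, h, mul_eq_zero]
  constructor
  · rintro (h1 | h1)
    · exact C_eq_zero.1 h1
    · exact absurd h1 (pow_ne_zero _ (X_ne_zero _))
  · exact fun h1 => Or.inl (by rw [h1, C_0])

/-- **The multiplicity of a cone over a monomial curve.** -/
theorem hasRk_coneHom {C' : Pt S.V 1} {a : Fin 3 → ℂ} (ha : a ≠ 0)
    (hC : C'.I = RingHom.ker (S.coneHom a)) :
    0 < S.G C' ∧ Dg.HasRk (Dg.wt1 S.V) C'.I 2 (1 / (S.N * S.G C')) := by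
  classical
  have h1 := S.mem_of_cone hC (S.coneHom_one a)
  have h2 := S.mem_of_cone hC (S.coneHom_two a)
  have h4 := S.mem_of_cone hC (S.coneHom_four a)
  have hG : ∀ m, (∀ v : Fin 1 × Fin 5, v ≠ ((0 : Fin 1), (0 : Fin 5)) → coords a v ≠ 0 →
      m ∣ Dg.wt1 S.V v) ↔ m ∣ S.G C' := by
    intro m
    rw [G, Nat.dvd_gcd_iff, Nat.dvd_gcd_iff]
    constructor
    · intro h
      refine ⟨?_, ?_, ?_⟩
      · split_ifs with hc
        · exact dvd_zero _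
        · exact h (0, 1) (by decide) fun h0 => hc (h1.2 h0)
      · split_ifs with hc
        · exact dvd_zero _
        · exact h (0, 2) (by decide) fun h0 => hc (h2.2 h0)
      · split_ifs with hc
        · exact dvd_zero _
        · exact h (0, 4) (by decide) fun h0 => hc (h4.2 h0)
    · rintro ⟨g1, g2, g4⟩ ⟨i, j⟩ hv hne
      have hi : i = 0 := Subsingleton.elim _ _
      subst hi
      fin_cases j
      · exact absurd rfl hv
      · rw [if_neg fun hc => hne (h1.1 hc)] at g1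
        exact g1
      · rw [if_neg fun hc => hne (h2.1 hc)] at g2
        exact g2
      · exact absurd rfl hne
      · rw [if_neg fun hc => hne (h4.1 hc)] at g4
        exact g4
  have hpos : 0 < S.G C' := by
    rw [Nat.pos_iff_ne_zero]
    intro h0
    have h5 := (hG 0).2 (by rw [h0])
    have h6 : ∀ v : Fin 1 × Fin 5, v ≠ ((0 : Fin 1), (0 : Fin 5)) → coords a v = 0 := by
      intro v hv
      by_contra hne
      exact (S.wt1_pos v).ne' (zero_dvd_iff.1 (h5 v hv hne))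
    apply ha
    funext i
    fin_cases i
    · exact h6 (0, 1) (by decide)
    · exact h6 (0, 2) (by decide)
    · exact h6 (0, 4) (by decide)
  refine ⟨hpos, ?_⟩
  have hK : Dg.Hom (Dg.wt1 S.V) (RingHom.ker (Dg.coneMap (Dg.wt1 S.V)
      ((0 : Fin 1), (0 : Fin 5)) (coords a))) := by
    rw [← coneHom_eq_coneMap, ← hC]
    exact Dg.hom_pt C'
  have h := Dg.hasRk_cone ((0 : Fin 1), (0 : Fin 5)) (coords a) S.wt1_pos hK hpos hG
  rw [← coneHom_eq_coneMap, ← hC] at h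
  exact h

/-- the multiplicity of the curve, from its parametrisation -/
theorem degPt_cone {C' : Pt S.V 1} {a : Fin 3 → ℂ} (ha : a ≠ 0)
    (hC : C'.I = RingHom.ker (S.coneHom a)) :
    (∃ e : ℝ, Dg.HasRk (Dg.wt1 S.V) C'.I 2 e) ∧ Dg.degPt S.V 2 C' * (S.N * S.G C') = 1 := by
  obtain ⟨h0, h⟩ := S.hasRk_coneHom ha hC
  refine ⟨⟨_, h⟩, ?_⟩
  rw [Dg.degPt_eq h]
  have h1 : (0 : ℝ) < S.N := by exact_mod_cast S.hN
  have h2 : (0 : ℝ) < S.G C' := by exact_mod_cast h0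
  field_simp

/-- the support of a divisor on `Y` consists of curves -/
lemma lev_of_isDivisor {g : Coord (Fin 5) 1} {c : Cycles S.V 1} (hc : IsDivisor S.V S.pY g 1 c)
    {C' : Pt S.V 1} (h : C' ∈ c.support) : lev C' = 2 := by
  have h1 : CodimOne S.pY.I C'.I := by
    by_contra h2
    have h3 := hc C'
    rw [if_neg h2] at h3
    exact Finsupp.mem_support_iff.1 h h3
  have hP := S.pY.prime
  have hQ := C'.prime
  have h2 := Dg.td_succ h1.1 fun T hT hPT hTQ => hPT.ne (h1.2 T hT hPT.le hTQ).symm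
  have h3 : Dg.td (Coord (Fin 5) 1 ⧸ S.pY.I) = 3 := S.lev_pY
  show Dg.td (Coord (Fin 5) 1 ⧸ C'.I) = 2
  omega

theorem lev_dA {C' : Pt S.V 1} (h : C' ∈ S.dA.support) : lev C' = 2 :=
  S.lev_of_isDivisor S.isDivisor_dA h

theorem lev_ds {C' : Pt S.V 1} (h : C' ∈ S.ds.support) : lev C' = 2 :=
  S.lev_of_isDivisor S.isDivisor_ds h

/-- `A` is homogeneous of degree `k` -/
lemma homog_A1 : IsWeightedHomogeneous (Dg.wt1 S.V) S.A1 S.k := by
  intro d hd
  rw [A1] at hd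
  obtain ⟨u, rfl, hu⟩ := coeff_rename_ne_zero _ _ _ hd
  rw [← S.hA hu, Finsupp.weight_apply, Finsupp.weight_apply, Finsupp.sum_mapDomain_index
    (h := fun (i : Fin 1 × Fin 5) (c : ℕ) => c • Dg.wt1 S.V i)
    (fun _ => zero_smul _ _) (fun _ _ _ => add_smul _ _ _)]
  refine Finsupp.sum_congr fun i _ => ?_
  congr 1
  fin_cases i <;> rfl

/-- there is a curve on `Y` where `A` vanishes -/
theorem exists_codimOne_A : ∃ C' : Pt S.V 1, CodimOne S.pY.I C'.I ∧ S.A1 ∈ C'.I := by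
  have hP := S.pY.prime
  have hw := S.wt1_pos
  have h3 : Dg.HasRk (Dg.wt1 S.V) S.pY.I (2 + 1) (Dg.mult (Dg.wt1 S.V) S.pY.I) := by
    have h1 := Dg.hasRk hw (Dg.hom_pt S.pY) hP.ne_top
    rwa [Dg.rk_eq_td hw (Dg.hom_pt S.pY), show Dg.td (Coord (Fin 5) 1 ⧸ S.pY.I) = 2 + 1 from
      S.lev_pY] at h1
  have h2 := Dg.hasRk_add hw (Dg.hom_pt S.pY) S.k_pos S.homog_A1 S.A1_notMem h3
  have hI := Dg.hom_sup (Dg.hom_pt S.pY) S.homog_A1
  have ht : S.pY.I ⊔ Ideal.span {S.A1} ≠ ⊤ := by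
    intro ht
    rw [ht] at h2
    have h4 : Dg.Lim (Dg.H (Dg.wt1 S.V) ⊤) (2 + 1) 0 :=
      Dg.Lim.zero _ fun n => Dg.H_top n
    have h5 := Dg.Lim.unique h2.2 h4
    exact absurd h2.1 (by rw [h5]; exact lt_irrefl _)
  obtain ⟨Q, hQ, hQh, hle, hrk⟩ := Dg.exists_prime_rk hw hI ht
  rw [h2.rk_eq] at hrk
  have hQ2 : Dg.HasRk (Dg.wt1 S.V) Q 2 (Dg.mult (Dg.wt1 S.V) Q) := by
    have h1 := Dg.hasRk hw hQh hQ.ne_top
    rwa [hrk] at h1
  obtain ⟨C', hC⟩ := Dg.exists_pt S.wt_pos (r := 2) (by norm_num) S.pY ⟨Q, hQ, hQh, _, hQ2⟩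
    (le_sup_left.trans hle)
  refine ⟨C', ⟨?_, ?_⟩, ?_⟩
  · rw [hC]
    refine lt_of_le_of_ne (le_sup_left.trans hle) fun h => S.A1_notMem ?_
    rw [h]
    exact hle (Ideal.mem_sup_right (Ideal.mem_span_singleton_self _))
  · intro L hL hPL hLC
    rw [hC] at hLC
    by_contra hne
    have hlt : S.pY.I < L := lt_of_le_of_ne hPL fun h => hne h.symm
    have t1 := Dg.td_lt_of_lt hlt
    have t2 := Dg.td_lt_of_lt hLC
    have t3 : Dg.td (Coord (Fin 5) 1 ⧸ S.pY.I) = 3 := S.lev_pY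
    have t4 : Dg.td (Coord (Fin 5) 1 ⧸ Q) = 2 := by rw [← Dg.rk_eq_td hw hQh, hrk]
    have t2' : Dg.td (Coord (Fin 5) 1 ⧸ Q) < Dg.td (Coord (Fin 5) 1 ⧸ L) := t2
    omega
  · rw [hC]
    exact hle (Ideal.mem_sup_right (Ideal.mem_span_singleton_self _))

end MD

end Pool.Agent.RCH.Mn
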