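import Pool.Agent.RCH.Mn8g
import Pool.Agent.RCH.Mn8d

/-!
# Row M8: the section `Y`; its divisors; generation
-/

set_option autoImplicit false

open MvPolynomial

namespace Pool.Agent.RCH.Mn

namespace MD

variable (S : MD)

theorem exists_mem_dA : ∃ C, C ∈ S.dA.support :=
  let ⟨C, h⟩ := S.exists_codimOne_A
  ⟨C, S.mem_dA.2 h⟩

/-- the multiplicity of the curve -/
theorem degPt_dA {C : Pt S.V 1} (h : C ∈ S.dA.support) :
    (∃ e : ℝ, Dg.HasRk (Dg.wt1 S.V) C.I 2 e) ∧ Dg.degPt S.V 2 C * (S.N * S.G C) = 1 :=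
  let ⟨_, ha, _, _, hC⟩ := S.dA_cone.1 h
  S.degPt_cone ha hC

end MD

end Pool.Agent.RCH.Mn
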