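import Pool.Agent.RCH.MnNzd
import Pool.Agent.RCH.Mn8

/-!
# Elements which are not zero divisors modulo an ideal
-/

set_option autoImplicit false

open MvPolynomial

namespace Pool.Agent.RCH.Mn

section nzd

variable {R : Type} [CommRing R] {I : Ideal R} {b c : R}

lemma nzd_comap_iff {R' : Type} [CommRing R'] (f : R →+* R') (hf : Function.Surjective f)
    (I' : Ideal R') : Nzd (I'.comap f) b ↔ Nzd I' (f b) := by
  constructor
  · intro h x hx
    obtain ⟨x, rfl⟩ := hf x
    rw [← map_mul] at hx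
    exact h x hx
  · intro h x hx
    rw [Ideal.mem_comap, map_mul] at hx
    exact h _ hx

end nzd

section monic

variable {σ : Type} [DecidableEq σ] (j : σ)

/-- polynomials in the variable `X_j` -/
noncomputable def fs : MvPolynomial σ ℂ ≃ₐ[ℂ] Polynomial (MvPolynomial {i // i ≠ j} ℂ) :=
  (renameEquiv ℂ (Equiv.optionSubtypeNe j).symm).trans (optionEquivLeft ℂ {i // i ≠ j})

lemma fs_self : fs j (X j) = Polynomial.X := by
  rw [fs, AlgEquiv.trans_apply, renameEquiv_apply, rename_X, Equiv.optionSubtypeNe_symm_self,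
    optionEquivLeft_X_none]

lemma fs_ne {i : σ} (h : i ≠ j) : fs j (X i) = Polynomial.C (X ⟨i, h⟩) := by
  rw [fs, AlgEquiv.trans_apply, renameEquiv_apply, rename_X, Equiv.optionSubtypeNe_symm_of_ne h,
    optionEquivLeft_X_some]

lemma fs_rename (f : MvPolynomial {i // i ≠ j} ℂ) :
    fs j (rename Subtype.val f) = Polynomial.C f := by
  have h : ((fs j).toAlgHom.comp (rename Subtype.val)) =
      (Algebra.ofId (MvPolynomial {i // i ≠ j} ℂ)
        (Polynomial (MvPolynomial {i // i ≠ j} ℂ))).restrictScalars ℂ := by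
    apply MvPolynomial.algHom_ext
    intro i
    rw [AlgHom.comp_apply, rename_X]
    exact fs_ne j i.2
  exact DFunLike.congr_fun h f

/-- a polynomial which is monic in `X_j` is not a zero divisor modulo an ideal generated by
polynomials which do not involve `X_j` -/
theorem nzd_monic (I₀ : Ideal (MvPolynomial {i // i ≠ j} ℂ)) {G : MvPolynomial σ ℂ} {c : ℂ}
    (hG : (Polynomial.C (C c) * fs j G).Monic) : Nzd (I₀.map (rename Subtype.val)) G := by
  let φ : MvPolynomial σ ℂ →+* Polynomial (MvPolynomial {i // i ≠ j} ℂ) :=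
    (fs j).toAlgHom.toRingHom
  have h1 : I₀.map (rename Subtype.val) =
      (I₀.map (Polynomial.C : _ →+* Polynomial (MvPolynomial {i // i ≠ j} ℂ))).comap φ := by
    have h2 : (I₀.map (rename (R := ℂ) (Subtype.val : {i // i ≠ j} → σ)).toRingHom).map φ =
        I₀.map (Polynomial.C : _ →+* Polynomial (MvPolynomial {i // i ≠ j} ℂ)) := by
      rw [Ideal.map_map]
      congr 1
      refine RingHom.ext fun f => ?_
      exact fs_rename j f
    rw [← h2, Ideal.comap_map_of_bijective]
    · rfl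
    · exact (fs j).bijective
  rw [h1, nzd_comap_iff φ (fs j).surjective]
  have h4 : I₀.map (Polynomial.C : _ →+* Polynomial (MvPolynomial {i // i ≠ j} ℂ)) =
      RingHom.ker (Polynomial.mapRingHom (Ideal.Quotient.mk I₀)) := by
    rw [Polynomial.ker_mapRingHom, Ideal.mk_ker]
  intro x hx
  rw [h4, RingHom.mem_ker, map_mul] at hx
  rw [h4, RingHom.mem_ker]
  have h5 := hG.map (Ideal.Quotient.mk I₀)
  generalize Polynomial.mapRingHom (Ideal.Quotient.mk I₀) x = y at hx ⊢
  have h6 : (Polynomial.map (Ideal.Quotient.mk I₀) (Polynomial.C (C c) * fs j G)) * y = 0 := by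
    rw [Polynomial.map_mul, mul_assoc]
    have h7 : Polynomial.map (Ideal.Quotient.mk I₀) (fs j G) * y = 0 := hx
    rw [h7, mul_zero]
  exact (h5.mul_right_eq_zero_iff).1 h6

/-- an ideal generated by polynomials which do not involve `X_j` -/
def Free (I : Ideal (MvPolynomial σ ℂ)) : Prop :=
  ∃ I₀ : Ideal (MvPolynomial {i // i ≠ j} ℂ), I = I₀.map (rename Subtype.val)

variable {j}

omit [DecidableEq σ] in
lemma Free.sup {I I' : Ideal (MvPolynomial σ ℂ)} (h : Free j I) (h' : Free j I') :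
    Free j (I ⊔ I') := by
  obtain ⟨a, rfl⟩ := h
  obtain ⟨b, rfl⟩ := h'
  exact ⟨a ⊔ b, (Ideal.map_sup _ _ _).symm⟩

omit [DecidableEq σ] in
lemma free_span {s : Set (MvPolynomial σ ℂ)}
    (h : ∀ f ∈ s, f ∈ (rename (Subtype.val : {i // i ≠ j} → σ) :
      MvPolynomial {i // i ≠ j} ℂ →ₐ[ℂ] MvPolynomial σ ℂ).range) : Free j (Ideal.span s) := by
  refine ⟨Ideal.span ((rename Subtype.val) ⁻¹' s), ?_⟩
  rw [Ideal.map_span, Set.image_preimage_eq_of_subset]
  intro f hf
  exact h f hf

omit [DecidableEq σ] in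
lemma X_mem_range {i : σ} (h : i ≠ j) : (X i : MvPolynomial σ ℂ) ∈
    (rename (Subtype.val : {i // i ≠ j} → σ) :
      MvPolynomial {i // i ≠ j} ℂ →ₐ[ℂ] MvPolynomial σ ℂ).range :=
  ⟨X ⟨i, h⟩, rename_X _ _⟩

omit [DecidableEq σ] in
lemma aeval_mem_range {τ : Type} {a : τ → MvPolynomial σ ℂ} (h : ∀ i, a i ∈
    (rename (Subtype.val : {i // i ≠ j} → σ) :
      MvPolynomial {i // i ≠ j} ℂ →ₐ[ℂ] MvPolynomial σ ℂ).range) (f : MvPolynomial τ ℂ) :
    aeval a f ∈ (rename (Subtype.val : {i // i ≠ j} → σ) :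
      MvPolynomial {i // i ≠ j} ℂ →ₐ[ℂ] MvPolynomial σ ℂ).range := by
  have h1 : aeval a f ∈ Algebra.adjoin ℂ (Set.range a) := by
    rw [Algebra.adjoin_range_eq_range_aeval]
    exact ⟨f, rfl⟩
  refine Algebra.adjoin_le ?_ h1
  rintro _ ⟨i, rfl⟩
  exact h i

theorem Free.nzd {I : Ideal (MvPolynomial σ ℂ)} (h : Free j I) {G : MvPolynomial σ ℂ} {c : ℂ}
    (hG : (Polynomial.C (C c) * fs j G).Monic) : Nzd I G := by
  obtain ⟨I₀, rfl⟩ := h
  exact nzd_monic j I₀ hG

end monic

section rename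

/-- the extension of a prime ideal to more variables is prime -/
theorem prime_rename {σ τ : Type} [Finite σ] {f : σ → τ} (hf : Function.Injective f)
    (I : Ideal (MvPolynomial σ ℂ)) [I.IsPrime] : (I.map (rename (R := ℂ) f)).IsPrime := by
  classical
  have h1 := prime_sum I (⊥ : Ideal (MvPolynomial {t // t ∉ Set.range f} ℂ))
  let e : σ ⊕ {t // t ∉ Set.range f} ≃ τ :=
    (Equiv.sumCongr (Equiv.ofInjective f hf) (Equiv.refl _)).trans (Equiv.Set.sumCompl (Set.range f))
  have he : ∀ i, e (Sum.inl i) = f i := fun i => rfl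
  let E : MvPolynomial (σ ⊕ {t // t ∉ Set.range f}) ℂ ≃+* MvPolynomial τ ℂ :=
    (renameEquiv ℂ e).toRingEquiv
  have h2 := Ideal.map_isPrime_of_equiv E (I := I.map (rename (R := ℂ) (Sum.inl : σ → σ ⊕
    {t // t ∉ Set.range f})).toRingHom ⊔ (⊥ : Ideal (MvPolynomial {t // t ∉ Set.range f} ℂ)).map
    (rename (R := ℂ) (Sum.inr : {t // t ∉ Set.range f} → σ ⊕ {t // t ∉ Set.range f})).toRingHom)
  rw [Ideal.map_bot, sup_bot_eq] at h2
  have h3 : (I.map (rename (R := ℂ) (Sum.inl : σ → σ ⊕
      {t // t ∉ Set.range f})).toRingHom).map E = I.map (rename (R := ℂ) f) := by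
    change (I.map (rename (R := ℂ) (Sum.inl : σ → σ ⊕
      {t // t ∉ Set.range f})).toRingHom).map (E : _ →+* _) =
      I.map (rename (R := ℂ) f).toRingHom
    rw [Ideal.map_map]
    congr 1
    apply MvPolynomial.ringHom_ext
    · intro r
      simp [E]
    · intro i
      simp [E, he]
  rw [← h3]
  exact h2

end rename

namespace MD

variable (S : MD)

lemma D_pos : 1 ≤ S.D := le_trans (by norm_num) S.hD2

/-- `F`, up to a constant, is monic in the last variable -/
theorem monic_aeval {A : Type} [CommRing A] [Algebra ℂ A] {a : Fin 5 → Polynomial A}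
    (h4 : a 4 = Polynomial.X) (h : ∀ i, i ≠ 4 → ∃ x, a i = Polynomial.C x) :
    (Polynomial.C (algebraMap ℂ A (coeff (Finsupp.single 4 S.D) S.F)⁻¹) * aeval a S.F).Monic := by
  classical
  have hc := S.monic
  have hterm : ∀ m : Fin 5 →₀ ℕ, ∃ x : A, aeval a (monomial m (coeff m S.F)) =
      Polynomial.C x * Polynomial.X ^ (m 4) ∧
      (m = Finsupp.single 4 S.D → x = algebraMap ℂ A (coeff m S.F)) := by
    intro m
    choose x hx using h
    refine ⟨algebraMap ℂ A (coeff m S.F) * ∏ i : Fin 5, (if hi : i ≠ 4 then (x i hi) ^ (m i) else 1),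
      ?_, ?_⟩
    · rw [aeval_monomial, Finsupp.prod_fintype _ _ fun i => pow_zero _]
      have h1 : ∏ i : Fin 5, a i ^ m i = (∏ i : Fin 5, Polynomial.C (if hi : i ≠ 4 then
          (x i hi) ^ (m i) else 1)) * Polynomial.X ^ (m 4) := by
        rw [← Finset.mul_prod_erase Finset.univ (fun i => a i ^ m i) (Finset.mem_univ 4),
          ← Finset.mul_prod_erase Finset.univ (fun i => Polynomial.C (if hi : i ≠ 4 then
          (x i hi) ^ (m i) else 1)) (Finset.mem_univ 4), h4]
        rw [dif_neg (by simp), Polynomial.C_1, one_mul, mul_comm]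
        congr 1
        refine Finset.prod_congr rfl fun i hi => ?_
        have hi4 : i ≠ 4 := Finset.ne_of_mem_erase hi
        rw [dif_pos hi4, hx i hi4, Polynomial.C_pow]
      rw [h1, ← map_prod, Polynomial.C_mul]
      rw [← mul_assoc]
      rfl
    · rintro rfl
      rw [Finset.prod_eq_one, mul_one]
      intro i _
      by_cases hi : i ≠ 4
      · rw [dif_pos hi, Finsupp.single_apply, if_neg (Ne.symm hi), pow_zero]
      · rw [dif_neg hi]
  choose x hx hxD using hterm
  have hw : ∀ m ∈ S.F.support, m 4 ≤ S.D ∧ (m 4 = S.D → m = Finsupp.single 4 S.D) := by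
    intro m hm
    have h1 := S.hF (mem_support_iff.1 hm)
    rw [Finsupp.weight_apply, Finsupp.sum_fintype _ _ (fun i => by simp), Fin.sum_univ_five] at h1
    simp only [smul_eq_mul] at h1
    have e0 : (![S.N, S.p, S.q, S.w, S.r] : Fin 5 → ℕ) 0 = S.N := rfl
    have e1 : (![S.N, S.p, S.q, S.w, S.r] : Fin 5 → ℕ) 1 = S.p := rfl
    have e2 : (![S.N, S.p, S.q, S.w, S.r] : Fin 5 → ℕ) 2 = S.q := rfl
    have e3 : (![S.N, S.p, S.q, S.w, S.r] : Fin 5 → ℕ) 3 = S.w := rfl
    have e4 : (![S.N, S.p, S.q, S.w, S.r] : Fin 5 → ℕ) 4 = S.r := rfl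
    rw [e0, e1, e2, e3, e4] at h1
    have hD := S.hD
    have hr := S.hr
    have hN := S.hN
    have hp := S.hp
    have hq := S.hq
    have hw := S.hw
    constructor
    · by_contra hcon
      push Not at hcon
      have : S.D * S.r < m 4 * S.r := Nat.mul_lt_mul_of_pos_right hcon hr
      omega
    · intro h2
      rw [h2] at h1
      have z0 : m 0 * S.N = 0 := by omega
      have z1 : m 1 * S.p = 0 := by omega
      have z2 : m 2 * S.q = 0 := by omega
      have z3 : m 3 * S.w = 0 := by omega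
      ext i
      fin_cases i
      · simpa using (Nat.mul_eq_zero.1 z0).resolve_right (by omega)
      · simpa using (Nat.mul_eq_zero.1 z1).resolve_right (by omega)
      · simpa using (Nat.mul_eq_zero.1 z2).resolve_right (by omega)
      · simpa using (Nat.mul_eq_zero.1 z3).resolve_right (by omega)
      · simpa using h2
  have hsum : aeval a S.F = ∑ m ∈ S.F.support, Polynomial.C (x m) * Polynomial.X ^ (m 4) := by
    conv_lhs => rw [MvPolynomial.as_sum S.F]
    rw [map_sum]
    exact Finset.sum_congr rfl fun m _ => hx m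
  refine Polynomial.monic_of_natDegree_le_of_coeff_eq_one S.D ?_ ?_
  · refine (Polynomial.natDegree_C_mul_le _ _).trans ?_
    rw [hsum]
    refine Polynomial.natDegree_sum_le_of_forall_le _ _ fun m hm => ?_
    exact (Polynomial.natDegree_C_mul_X_pow_le _ _).trans (hw m hm).1
  · rw [Polynomial.coeff_C_mul, hsum, Polynomial.finsetSum_coeff,
      Finset.sum_eq_single (Finsupp.single 4 S.D)]
    · rw [Polynomial.coeff_C_mul_X_pow, if_pos (by simp), hxD _ rfl, ← map_mul,
        inv_mul_cancel₀ hc, map_one]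
    · intro m hm hne
      rw [Polynomial.coeff_C_mul_X_pow, if_neg]
      intro h2
      exact hne ((hw m hm).2 h2.symm)
    · intro h2
      exact absurd (notMem_support_iff.1 h2) hc

/-- `F` at a point with coordinates which do not involve `X_j` but the last one, which is `X_j` -/
theorem monic_fs {σ : Type} [DecidableEq σ] {j : σ} {a : Fin 5 → MvPolynomial σ ℂ}
    (h4 : a 4 = X j) (h : ∀ i, i ≠ 4 → a i ∈ (rename (Subtype.val : {i // i ≠ j} → σ) :
      MvPolynomial {i // i ≠ j} ℂ →ₐ[ℂ] MvPolynomial σ ℂ).range) :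
    (Polynomial.C (C (coeff (Finsupp.single 4 S.D) S.F)⁻¹) * fs j (aeval a S.F)).Monic := by
  have h1 : fs j (aeval a S.F) = aeval (fun i => fs j (a i)) S.F := by
    have h2 : ((fs j).toAlgHom.comp (aeval a)) = aeval (fun i => fs j (a i)) := by
      apply MvPolynomial.algHom_ext
      intro i
      rw [AlgHom.comp_apply, aeval_X, aeval_X]
      rfl
    exact DFunLike.congr_fun h2 S.F
  rw [h1]
  refine S.monic_aeval (A := MvPolynomial {i // i ≠ j} ℂ) ?_ ?_
  · rw [h4, fs_self]
  · intro i hi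
    obtain ⟨x, hx⟩ := h i hi
    refine ⟨x, ?_⟩
    rw [← hx]
    exact fs_rename j x

theorem nzd_F {σ : Type} [DecidableEq σ] {j : σ} {a : Fin 5 → MvPolynomial σ ℂ}
    (h4 : a 4 = X j) (h : ∀ i, i ≠ 4 → a i ∈ (rename (Subtype.val : {i // i ≠ j} → σ) :
      MvPolynomial {i // i ≠ j} ℂ →ₐ[ℂ] MvPolynomial σ ℂ).range) {I : Ideal (MvPolynomial σ ℂ)}
    (hI : Free j I) : Nzd I (aeval a S.F) :=
  hI.nzd (S.monic_fs h4 h)

/-- `F` at the first point is not a zero divisor modulo an ideal which does not involve `y` -/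
theorem nzd_Fa {I : Ideal R7} (hI : Free 5 I) : Nzd I S.Fa := by
  refine S.nzd_F (j := (5 : Fin 7)) rfl ?_ hI
  intro i hi
  fin_cases i
  · exact X_mem_range (by decide)
  · exact X_mem_range (by decide)
  · exact X_mem_range (by decide)
  · exact X_mem_range (by decide)
  · exact absurd rfl hi

/-- `F` at the second point is not a zero divisor modulo an ideal which does not involve `y₁` -/
theorem nzd_Fb {I : Ideal R7} (hI : Free 6 I) : Nzd I S.Fb := by
  refine S.nzd_F (j := (6 : Fin 7)) rfl ?_ hI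
  intro i hi
  fin_cases i
  · exact X_mem_range (by decide)
  · exact X_mem_range (by decide)
  · exact X_mem_range (by decide)
  · exact X_mem_range (by decide)
  · exact absurd rfl hi

lemma Fa_mem_range : S.Fa ∈ (rename (Subtype.val : {i : Fin 7 // i ≠ 6} → Fin 7) :
      MvPolynomial {i : Fin 7 // i ≠ 6} ℂ →ₐ[ℂ] MvPolynomial (Fin 7) ℂ).range := by
  refine aeval_mem_range ?_ S.F
  intro i
  fin_cases i <;> exact X_mem_range (by decide)

lemma Fb_mem_range : S.Fb ∈ (rename (Subtype.val : {i : Fin 7 // i ≠ 5} → Fin 7) :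
      MvPolynomial {i : Fin 7 // i ≠ 5} ℂ →ₐ[ℂ] MvPolynomial (Fin 7) ℂ).range := by
  refine aeval_mem_range ?_ S.F
  intro i
  fin_cases i <;> exact X_mem_range (by decide)

/-- the ideal `(ω, F(α))` of `R` is prime -/
theorem oFa_prime : (Ideal.span {(X 4 : R7), S.Fa}).IsPrime := by
  have h := S.F0_prime
  have h1 := prime_rename (f := (![0, 2, 3, 4, 5] : Fin 5 → Fin 7)) (by decide)
    (Ideal.span {(X 3 : MvPolynomial (Fin 5) ℂ), S.F})
  have h2 : (Ideal.span {(X 3 : MvPolynomial (Fin 5) ℂ), S.F}).map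
      (rename (R := ℂ) (![0, 2, 3, 4, 5] : Fin 5 → Fin 7)) = Ideal.span {(X 4 : R7), S.Fa} := by
    rw [Ideal.map_span, Set.image_pair, rename_X]
    have h3 : rename (R := ℂ) (![0, 2, 3, 4, 5] : Fin 5 → Fin 7) S.F = S.Fa := by
      rw [Fa]
      have h4 : rename (R := ℂ) (![0, 2, 3, 4, 5] : Fin 5 → Fin 7) = aeval al := by
        apply MvPolynomial.algHom_ext
        intro i
        rw [rename_X, aeval_X]
        fin_cases i <;> rfl
      rw [h4]
    rw [h3]
    rfl
  rwa [h2] at h1

end MD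

end Pool.Agent.RCH.Mn
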