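import Pool.Agent.RCH.MnTT
import Pool.Agent.RCH.MnReg

/-!
# Row M3, first part: the pairs of points of `Y` with the same `(s, t)`
-/

set_option autoImplicit false

open MvPolynomial

namespace Pool.Agent.RCH.Mn

section hom

variable {σ : Type} {w : σ → ℕ}

attribute [local instance] MvPolynomial.weightedGradedAlgebra

open Classical in
lemma hom_span {s : Set (MvPolynomial σ ℂ)} (h : ∀ f ∈ s, ∃ n, IsWeightedHomogeneous w f n) :
    Dg.Hom w (Ideal.span s) := by
  intro p hp n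
  refine weightedHomogeneousComponent_mem_of_mem ℂ _ (Ideal.homogeneous_span _ _ ?_) hp n
  intro f hf
  obtain ⟨n, hn⟩ := h f hf
  exact ⟨n, (mem_weightedHomogeneousSubmodule _ _ _ _).2 hn⟩

lemma aeval_hom {τ : Type} {w' : τ → ℕ} {a : σ → MvPolynomial τ ℂ}
    (ha : ∀ i, IsWeightedHomogeneous w' (a i) (w i)) {f : MvPolynomial σ ℂ} {d : ℕ}
    (hf : IsWeightedHomogeneous w f d) : IsWeightedHomogeneous w' (aeval a f) d := by
  classical
  have h1 : ∀ m : σ →₀ ℕ, IsWeightedHomogeneous w' (aeval a (monomial m (1 : ℂ)))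
      (Finsupp.weight w m) := by
    intro m
    induction m using Finsupp.induction_linear with
    | zero =>
      have h1 : (monomial (0 : σ →₀ ℕ) (1 : ℂ)) = 1 := rfl
      rw [h1, map_zero, map_one]
      exact isWeightedHomogeneous_one ℂ w'
    | add f g hf hg =>
      have : (monomial (f + g) (1 : ℂ)) = monomial f 1 * monomial g 1 := by
        rw [monomial_mul, one_mul]
      rw [this, map_mul, map_add]
      exact hf.mul hg
    | single b n =>
      have : (monomial (Finsupp.single b n) (1 : ℂ)) = X b ^ n := by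
        rw [X_pow_eq_monomial]
      rw [this, map_pow, aeval_X, Finsupp.weight_apply, Finsupp.sum_single_index (by simp)]
      exact (ha b).pow n
  rw [f.as_sum, map_sum, ← mem_weightedHomogeneousSubmodule]
  refine Submodule.sum_mem _ fun c hc => ?_
  have h2 : Finsupp.weight w c = d := hf (mem_support_iff.mp hc)
  have h3 : aeval a (monomial c (coeff c f)) = coeff c f • aeval a (monomial c (1 : ℂ)) := by
    rw [← map_smul, smul_monomial, smul_eq_mul, mul_one]
  rw [h3, ← h2]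
  exact Submodule.smul_mem _ _ ((mem_weightedHomogeneousSubmodule _ _ _ _).2 (h1 c))

end hom

namespace MD

variable (S : MD)

lemma wt_eq : S.V.wt = S.wt := rfl

lemma eqs_eq : S.V.eqs = Ideal.span {S.F} := rfl

lemma X4_mem_JU : (X 4 : R7) ∈ S.JU := Ideal.subset_span (by simp)

lemma Fa_mem_JU : S.Fa ∈ S.JU := Ideal.subset_span (by simp)

lemma Fb_mem_JU : S.Fb ∈ S.JU := Ideal.subset_span (by simp)

lemma JU_eq : S.JU = Ideal.span {(X 4 : R7), S.Fa} ⊔ Ideal.span {S.Fb} := by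
  rw [JU, ← Ideal.span_union]
  congr 1
  ext x
  simp only [Set.mem_insert_iff, Set.mem_singleton_iff, Set.mem_union]
  tauto

lemma Fa_hom : IsWeightedHomogeneous (w7 S.V.wt) S.Fa S.d := aeval_hom (al_hom S.V.wt) S.hF

lemma Fb_hom : IsWeightedHomogeneous (w7 S.V.wt) S.Fb S.d := aeval_hom (be_hom S.V.wt) S.hF

lemma JU_hom : Dg.Hom (w7 S.V.wt) S.JU := by
  refine hom_span ?_
  intro f hf
  simp only [Set.mem_insert_iff, Set.mem_singleton_iff] at hf
  rcases hf with rfl | rfl | rfl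
  · exact ⟨_, isWeightedHomogeneous_X ℂ (w7 S.V.wt) 4⟩
  · exact ⟨_, S.Fa_hom⟩
  · exact ⟨_, S.Fb_hom⟩

/-- `F(α) = v ^ e A + B` modulo `ω` -/
lemma Fa_shape : S.Fa - (X 0 ^ S.e * S.A7 + S.B7) ∈ Ideal.span {(X 4 : R7)} := by
  have h := Ideal.mem_map_of_mem (aeval al : MvPolynomial (Fin 5) ℂ →ₐ[ℂ] R7).toRingHom S.shape
  rw [Ideal.map_span, Set.image_singleton] at h
  have h1 : ∀ f : MvPolynomial (Fin 3) ℂ, aeval al (rename ![1, 2, 4] f) =
      rename (![2, 3, 5] : Fin 3 → Fin 7) f := by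
    intro f
    rw [aeval_rename]
    have h4 : rename (R := ℂ) (![2, 3, 5] : Fin 3 → Fin 7) = aeval (al ∘ ![1, 2, 4]) := by
      apply MvPolynomial.algHom_ext
      intro i
      rw [rename_X, aeval_X]
      fin_cases i <;> rfl
    rw [h4]
  have h2 : (aeval al : MvPolynomial (Fin 5) ℂ →ₐ[ℂ] R7).toRingHom (X 3) = X 4 := aeval_X al 3
  have h3 : (aeval al : MvPolynomial (Fin 5) ℂ →ₐ[ℂ] R7).toRingHom
      (S.F - (X 0 ^ S.e * rename ![1, 2, 4] S.A + rename ![1, 2, 4] S.B)) =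
      S.Fa - (X 0 ^ S.e * S.A7 + S.B7) := by
    change aeval al (S.F - (X 0 ^ S.e * rename ![1, 2, 4] S.A + rename ![1, 2, 4] S.B)) = _
    rw [map_sub, map_add, map_mul, map_pow, h1, h1, aeval_X]
    rfl
  rw [h2, h3] at h
  exact h

/-- `F(β) = v₁ ^ e A + B` modulo `ω` and `y - y₁` -/
lemma Fb_shape : S.Fb - (X 1 ^ S.e * S.A7 + S.B7) ∈ Ideal.span {(X 4 : R7), X 5 - X 6} := by
  have h := Ideal.mem_map_of_mem (aeval be : MvPolynomial (Fin 5) ℂ →ₐ[ℂ] R7).toRingHom S.shape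
  rw [Ideal.map_span, Set.image_singleton] at h
  have h1 : ∀ f : MvPolynomial (Fin 3) ℂ, aeval be (rename ![1, 2, 4] f) =
      rename (![2, 3, 6] : Fin 3 → Fin 7) f := by
    intro f
    rw [aeval_rename]
    have h4 : rename (R := ℂ) (![2, 3, 6] : Fin 3 → Fin 7) = aeval (be ∘ ![1, 2, 4]) := by
      apply MvPolynomial.algHom_ext
      intro i
      rw [rename_X, aeval_X]
      fin_cases i <;> rfl
    rw [h4]
  have h2 : (aeval be : MvPolynomial (Fin 5) ℂ →ₐ[ℂ] R7).toRingHom (X 3) = X 4 := aeval_X be 3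
  have h3 : (aeval be : MvPolynomial (Fin 5) ℂ →ₐ[ℂ] R7).toRingHom
      (S.F - (X 0 ^ S.e * rename ![1, 2, 4] S.A + rename ![1, 2, 4] S.B)) =
      S.Fb - (X 1 ^ S.e * rename (![2, 3, 6] : Fin 3 → Fin 7) S.A +
        rename (![2, 3, 6] : Fin 3 → Fin 7) S.B) := by
    change aeval be (S.F - (X 0 ^ S.e * rename ![1, 2, 4] S.A + rename ![1, 2, 4] S.B)) = _
    rw [map_sub, map_add, map_mul, map_pow, h1, h1, aeval_X]
    rfl
  rw [h2, h3] at h
  -- the difference
  have h5 : ∀ f : MvPolynomial (Fin 3) ℂ, rename (![2, 3, 6] : Fin 3 → Fin 7) f -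
      rename (![2, 3, 5] : Fin 3 → Fin 7) f ∈ Ideal.span {(X 5 - X 6 : R7)} := by
    intro f
    have h6 : (Ideal.Quotient.mkₐ ℂ (Ideal.span {(X 5 - X 6 : R7)})).comp
        (rename (![2, 3, 6] : Fin 3 → Fin 7)) =
        (Ideal.Quotient.mkₐ ℂ (Ideal.span {(X 5 - X 6 : R7)})).comp
        (rename (![2, 3, 5] : Fin 3 → Fin 7)) := by
      apply MvPolynomial.algHom_ext
      intro i
      rw [AlgHom.comp_apply, AlgHom.comp_apply, rename_X, rename_X]
      fin_cases i
      · rfl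
      · rfl
      · refine (Ideal.Quotient.eq).2 ?_
        have h7 : (X 6 - X 5 : R7) = -(X 5 - X 6) := by ring
        change (X 6 - X 5 : R7) ∈ _
        rw [h7]
        exact neg_mem (Ideal.mem_span_singleton_self _)
    exact (Ideal.Quotient.eq).1 (DFunLike.congr_fun h6 f)
  have e1 : S.Fb - (X 1 ^ S.e * S.A7 + S.B7) =
      (S.Fb - (X 1 ^ S.e * rename (![2, 3, 6] : Fin 3 → Fin 7) S.A +
        rename (![2, 3, 6] : Fin 3 → Fin 7) S.B)) +
      (X 1 ^ S.e * (rename (![2, 3, 6] : Fin 3 → Fin 7) S.A - S.A7) +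
      (rename (![2, 3, 6] : Fin 3 → Fin 7) S.B - S.B7)) := by ring
  rw [e1]
  have l1 : Ideal.span {(X 4 : R7)} ≤ Ideal.span {(X 4 : R7), X 5 - X 6} :=
    Ideal.span_mono (by simp)
  have l2 : Ideal.span {(X 5 - X 6 : R7)} ≤ Ideal.span {(X 4 : R7), X 5 - X 6} :=
    Ideal.span_mono (by simp)
  exact add_mem (l1 h) (add_mem (Ideal.mul_mem_left _ _ (l2 (h5 S.A))) (l2 (h5 S.B)))

/-! ### Points -/

/-- a point `(v, s, t, y)` of `Y` with `A ≠ 0` and `g ≠ 0` -/
lemma exists_point' {g : MvPolynomial (Fin 3) ℂ} (hg : g ≠ 0) : ∃ a : Fin 3 → ℂ, ∃ v : ℂ,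
    eval a S.A ≠ 0 ∧ eval a g ≠ 0 ∧ v ^ S.e * eval a S.A + eval a S.B = 0 := by
  have h1 : ∃ a : Fin 3 → ℂ, eval a (S.A * g) ≠ 0 := by
    by_contra! h
    exact mul_ne_zero S.hA0 hg (MvPolynomial.funext fun a => by rw [h a, map_zero])
  obtain ⟨a, ha⟩ := h1
  rw [map_mul] at ha
  have ha1 := left_ne_zero_of_mul ha
  have ha2 := right_ne_zero_of_mul ha
  obtain ⟨v, hv⟩ := IsAlgClosed.exists_pow_nat_eq (-(eval a S.B) / eval a S.A)
    (n := S.e) S.e_pos
  refine ⟨a, v, ha1, ha2, ?_⟩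
  rw [hv, div_mul_cancel₀ _ ha1, neg_add_cancel]

/-- a point `(v, s, t, y)` of `Y` with `A ≠ 0` -/
lemma exists_point : ∃ a : Fin 3 → ℂ, ∃ v : ℂ, eval a S.A ≠ 0 ∧
    v ^ S.e * eval a S.A + eval a S.B = 0 := by
  obtain ⟨a, v, h1, -, h2⟩ := S.exists_point' one_ne_zero
  exact ⟨a, v, h1, h2⟩

/-- the value at the point `(v, v₁, s, t, 0, y, y₁)` -/
lemma eval_mem' {a : Fin 3 → ℂ} {v v₁ y₁ : ℂ} (h : v ^ S.e * eval a S.A + eval a S.B = 0)
    {f : R7} (hf : f ∈ Ideal.span {(X 4 : R7), S.Fa}) :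
    eval ![v, v₁, a 0, a 1, 0, a 2, y₁] f = 0 := by
  set x : Fin 7 → ℂ := ![v, v₁, a 0, a 1, 0, a 2, y₁] with hx
  have hA : eval x S.A7 = eval a S.A := by
    rw [A7, eval_rename]
    congr 2
    funext i
    fin_cases i <;> rfl
  have hB : eval x S.B7 = eval a S.B := by
    rw [B7, eval_rename]
    congr 2
    funext i
    fin_cases i <;> rfl
  have hle : Ideal.span {(X 4 : R7), S.Fa} ≤ RingHom.ker (eval x) := by
    rw [Ideal.span_le]
    intro g hg
    simp only [Set.mem_insert_iff, Set.mem_singleton_iff] at hg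
    rcases hg with rfl | rfl
    · change eval x (X 4) = 0
      rw [eval_X]
      rfl
    · change eval x S.Fa = 0
      obtain ⟨c, hc⟩ := Ideal.mem_span_singleton.1 S.Fa_shape
      have h1 : S.Fa = X 4 * c + (X 0 ^ S.e * S.A7 + S.B7) := by linear_combination hc
      rw [h1, map_add, map_add, map_mul, map_mul, map_pow, eval_X, eval_X, hA, hB]
      have e4 : x 4 = 0 := rfl
      have e0 : x 0 = v := rfl
      rw [e4, e0, h, zero_mul, add_zero]
  exact hle hf

/-- the value at the point `(v, v₁, s, t, 0, y, y)` -/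
lemma eval_mem {a : Fin 3 → ℂ} {v v₁ : ℂ} (h : v ^ S.e * eval a S.A + eval a S.B = 0)
    {f : R7} (hf : f ∈ Ideal.span {(X 4 : R7), X 5 - X 6, S.Fa}) :
    eval ![v, v₁, a 0, a 1, 0, a 2, a 2] f = 0 := by
  set x : Fin 7 → ℂ := ![v, v₁, a 0, a 1, 0, a 2, a 2] with hx
  have hA : eval x S.A7 = eval a S.A := by
    rw [A7, eval_rename]
    congr 2
    funext i
    fin_cases i <;> rfl
  have hB : eval x S.B7 = eval a S.B := by
    rw [B7, eval_rename]
    congr 2
    funext i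
    fin_cases i <;> rfl
  have hle : Ideal.span {(X 4 : R7), X 5 - X 6, S.Fa} ≤ RingHom.ker (eval x) := by
    rw [Ideal.span_le]
    intro g hg
    simp only [Set.mem_insert_iff, Set.mem_singleton_iff] at hg
    rcases hg with rfl | rfl | rfl
    · change eval x (X 4) = 0
      rw [eval_X]
      rfl
    · change eval x (X 5 - X 6) = 0
      rw [map_sub, eval_X, eval_X]
      exact sub_self _
    · change eval x S.Fa = 0
      obtain ⟨c, hc⟩ := Ideal.mem_span_singleton.1 S.Fa_shape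
      have h1 : S.Fa = X 4 * c + (X 0 ^ S.e * S.A7 + S.B7) := by linear_combination hc
      rw [h1, map_add, map_add, map_mul, map_mul, map_pow, eval_X, eval_X, hA, hB]
      have e4 : x 4 = 0 := rfl
      have e0 : x 0 = v := rfl
      rw [e4, e0, h, zero_mul, add_zero]
  exact hle hf

/-- the substitution `y₁ ↦ y` -/
noncomputable def phy : R7 →ₐ[ℂ] R7 := aeval ![X 0, X 1, X 2, X 3, X 4, X 5, X 5]

lemma phy_sub (f : R7) : phy f - f ∈ Ideal.span {(X 5 - X 6 : R7)} := by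
  have h6 : (Ideal.Quotient.mkₐ ℂ (Ideal.span {(X 5 - X 6 : R7)})).comp phy =
      Ideal.Quotient.mkₐ ℂ (Ideal.span {(X 5 - X 6 : R7)}) := by
    apply MvPolynomial.algHom_ext
    intro i
    rw [AlgHom.comp_apply, phy, aeval_X]
    fin_cases i
    · rfl
    · rfl
    · rfl
    · rfl
    · rfl
    · rfl
    · exact (Ideal.Quotient.eq).2 (Ideal.mem_span_singleton_self _)
  exact (Ideal.Quotient.eq).1 (DFunLike.congr_fun h6 f)

/-- `(ω, y - y₁, F(α))` is prime -/
theorem J1_prime : (Ideal.span {(X 4 : R7), X 5 - X 6, S.Fa}).IsPrime := by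
  have h := S.oFa_prime
  have h2 : Ideal.span {(X 4 : R7), X 5 - X 6, S.Fa} =
      (Ideal.span {(X 4 : R7), S.Fa}).comap phy.toRingHom := by
    have hFa : phy S.Fa = S.Fa := by
      rw [Fa]
      have h4 : (phy.comp (aeval al) : MvPolynomial (Fin 5) ℂ →ₐ[ℂ] R7) = aeval al := by
        apply MvPolynomial.algHom_ext
        intro i
        rw [AlgHom.comp_apply, aeval_X]
        fin_cases i
        · exact (aeval_X _ 0).trans rfl
        · exact (aeval_X _ 2).trans rfl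
        · exact (aeval_X _ 3).trans rfl
        · exact (aeval_X _ 4).trans rfl
        · exact (aeval_X _ 5).trans rfl
      exact DFunLike.congr_fun h4 S.F
    apply le_antisymm
    · rw [Ideal.span_le]
      intro g hg
      simp only [Set.mem_insert_iff, Set.mem_singleton_iff] at hg
      rcases hg with rfl | rfl | rfl
      · change phy (X 4) ∈ Ideal.span {(X 4 : R7), S.Fa}
        rw [phy, aeval_X]
        exact Ideal.subset_span (by simp)
      · change phy (X 5 - X 6) ∈ Ideal.span {(X 4 : R7), S.Fa}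
        rw [phy, map_sub, aeval_X, aeval_X]
        have : (![X 0, X 1, X 2, X 3, X 4, X 5, X 5] : Fin 7 → R7) 5 -
          (![X 0, X 1, X 2, X 3, X 4, X 5, X 5] : Fin 7 → R7) 6 = 0 := sub_self _
        rw [this]
        exact zero_mem _
      · change phy S.Fa ∈ Ideal.span {(X 4 : R7), S.Fa}
        rw [hFa]
        exact Ideal.subset_span (by simp)
    · intro f hf
      have h3 : phy f ∈ Ideal.span {(X 4 : R7), S.Fa} := hf
      have h4 : f = phy f - (phy f - f) := by ring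
      rw [h4]
      refine sub_mem (Ideal.span_mono ?_ h3) (Ideal.span_mono ?_ (phy_sub f))
      · intro x hx
        simp only [Set.mem_insert_iff, Set.mem_singleton_iff] at hx ⊢
        tauto
      · intro x hx
        simp only [Set.mem_insert_iff, Set.mem_singleton_iff] at hx ⊢
        tauto
  rw [h2]
  exact Ideal.comap_isPrime _ _

lemma oFa_le_J1 : Ideal.span {(X 4 : R7), S.Fa} ≤ Ideal.span {(X 4 : R7), X 5 - X 6, S.Fa} := by
  refine Ideal.span_mono ?_
  intro x hx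
  simp only [Set.mem_insert_iff, Set.mem_singleton_iff] at hx ⊢
  tauto

lemma A7_notMem : S.A7 ∉ Ideal.span {(X 4 : R7), X 5 - X 6, S.Fa} := by
  intro hmem
  obtain ⟨a, v, ha, hv⟩ := S.exists_point
  have h1 := S.eval_mem (v₁ := 0) hv hmem
  apply ha
  rw [A7, eval_rename] at h1
  rw [← h1]
  congr 2
  funext i
  fin_cases i <;> rfl

lemma v_notMem (ζ : ℂ) : (X 1 - C ζ * X 0 : R7) ∉ Ideal.span {(X 4 : R7), X 5 - X 6, S.Fa} := by
  intro hmem
  obtain ⟨a, v, ha, hv⟩ := S.exists_point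
  have h1 := S.eval_mem (v₁ := ζ * v + 1) hv hmem
  rw [map_sub, map_mul, eval_X, eval_X, eval_C] at h1
  have e1 : (![v, ζ * v + 1, a 0, a 1, 0, a 2, a 2] : Fin 7 → ℂ) 1 = ζ * v + 1 := rfl
  have e0 : (![v, ζ * v + 1, a 0, a 1, 0, a 2, a 2] : Fin 7 → ℂ) 0 = v := rfl
  rw [e1, e0, add_sub_cancel_left] at h1
  exact one_ne_zero h1

lemma Fb_notMem : S.Fb ∉ Ideal.span {(X 4 : R7), X 5 - X 6, S.Fa} := by
  intro hmem
  obtain ⟨a, v, ha, hv⟩ := S.exists_point
  -- a value of `v₁` which is not on `Y`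
  have hex : ∃ v₁ : ℂ, v₁ ^ S.e * eval a S.A + eval a S.B ≠ 0 := by
    by_contra! hcon
    have h0 := hcon 0
    have h1 := hcon 1
    have he := S.e_pos
    rw [zero_pow (by omega), zero_mul, zero_add] at h0
    rw [one_pow, one_mul, h0, add_zero] at h1
    exact ha h1
  obtain ⟨v₁, hv₁⟩ := hex
  have h1 := S.eval_mem (v₁ := v₁) hv hmem
  apply hv₁
  set x : Fin 7 → ℂ := ![v, v₁, a 0, a 1, 0, a 2, a 2] with hx
  have hA : eval x S.A7 = eval a S.A := by
    rw [A7, eval_rename]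
    congr 2
    funext i
    fin_cases i <;> rfl
  have hB : eval x S.B7 = eval a S.B := by
    rw [B7, eval_rename]
    congr 2
    funext i
    fin_cases i <;> rfl
  have hle : Ideal.span {(X 4 : R7), X 5 - X 6} ≤ RingHom.ker (eval x) := by
    rw [Ideal.span_le]
    intro g hg
    simp only [Set.mem_insert_iff, Set.mem_singleton_iff] at hg
    rcases hg with rfl | rfl
    · change eval x (X 4) = 0
      rw [eval_X]
      rfl
    · change eval x (X 5 - X 6) = 0
      rw [map_sub, eval_X, eval_X]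
      exact sub_self _
  have h2 : eval x (S.Fb - (X 1 ^ S.e * S.A7 + S.B7)) = 0 := hle S.Fb_shape
  rw [map_sub, h1, map_add, map_mul, map_pow, eval_X, hA, hB] at h2
  have e1 : x 1 = v₁ := rfl
  rw [e1] at h2
  linear_combination -h2

/-! ### Nonzerodivisors on `JU` -/

lemma range_oFa : ∀ f ∈ ({(X 4 : R7), S.Fa} : Set R7), f ∈ (rename (Subtype.val :
    {i : Fin 7 // i ≠ 6} → Fin 7) :
      MvPolynomial {i : Fin 7 // i ≠ 6} ℂ →ₐ[ℂ] MvPolynomial (Fin 7) ℂ).range := by
  intro f hf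
  simp only [Set.mem_insert_iff, Set.mem_singleton_iff] at hf
  rcases hf with rfl | rfl
  · exact X_mem_range (by decide)
  · exact S.Fa_mem_range

lemma nzd_JU_of_free {b : R7} (hb : b ∉ Ideal.span {(X 4 : R7), S.Fa})
    (hfree : b ∈ (rename (Subtype.val : {i : Fin 7 // i ≠ 6} → Fin 7) :
      MvPolynomial {i : Fin 7 // i ≠ 6} ℂ →ₐ[ℂ] MvPolynomial (Fin 7) ℂ).range) : Nzd S.JU b := by
  rw [S.JU_eq]
  refine nzd_swap (nzd_of_prime S.oFa_prime hb) (S.nzd_Fb ?_)
  rw [← Ideal.span_union]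
  refine free_span ?_
  intro f hf
  rcases hf with hf | hf
  · exact S.range_oFa f hf
  · rw [Set.mem_singleton_iff.1 hf]
    exact hfree

lemma nzd_JU_s : Nzd S.JU (X 2) := by
  refine S.nzd_JU_of_free ?_ (X_mem_range (by decide))
  intro hmem
  obtain ⟨a, v, ha, ha0, hv⟩ := S.exists_point' (X_ne_zero (0 : Fin 3))
  rw [eval_X] at ha0
  have h1 := S.eval_mem' (v₁ := 0) (y₁ := 0) hv hmem
  rw [eval_X] at h1
  exact ha0 h1

lemma nzd_JU_v : Nzd S.JU (X 0 - X 1) := by
  refine S.nzd_JU_of_free ?_ (sub_mem (X_mem_range (by decide)) (X_mem_range (by decide)))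
  intro hmem
  have h1 := S.v_notMem 1
  rw [C_1, one_mul] at h1
  apply h1
  have h2 : (X 1 - X 0 : R7) = -(X 0 - X 1) := by ring
  rw [h2]
  exact neg_mem (S.oFa_le_J1 hmem)

lemma nzd_JU_y : Nzd S.JU (X 5 - X 6) := by
  rw [S.JU_eq]
  refine nzd_swap (nzd_of_prime S.oFa_prime ?_) ?_
  · intro hmem
    obtain ⟨a, v, ha, hv⟩ := S.exists_point
    have h1 := S.eval_mem' (v₁ := 0) (y₁ := a 2 + 1) hv hmem
    rw [map_sub, eval_X, eval_X] at h1
    have e5 : (![v, 0, a 0, a 1, 0, a 2, a 2 + 1] : Fin 7 → ℂ) 5 = a 2 := rfl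
    have e6 : (![v, 0, a 0, a 1, 0, a 2, a 2 + 1] : Fin 7 → ℂ) 6 = a 2 + 1 := rfl
    rw [e5, e6, sub_add_cancel_left] at h1
    exact one_ne_zero (neg_eq_zero.1 h1)
  · have h1 : Ideal.span {(X 4 : R7), S.Fa} ⊔ Ideal.span {X 5 - X 6} =
        Ideal.span {(X 4 : R7), X 5 - X 6, S.Fa} := by
      rw [← Ideal.span_union]
      congr 1
      ext x
      simp only [Set.mem_insert_iff, Set.mem_singleton_iff, Set.mem_union]
      tauto
    rw [h1]
    exact nzd_of_prime S.J1_prime S.Fb_notMem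

end MD

end Pool.Agent.RCH.Mn
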