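import Pool.Agent.RCH.Mn1c
import Pool.Agent.RCH.Mn3a

/-!
# Row M3: the relations (U)
-/

set_option autoImplicit false

open MvPolynomial

namespace Pool.Agent.RCH.Mn

namespace MD

variable (S : MD)

/-! ### Integrality -/

/-- a root of `F` in the last coordinate is integral over the other coordinates -/
lemma isIntegral_of_F {K : Type} [CommRing K] [Algebra ℂ K] (A : Subalgebra ℂ K) {x : Fin 5 → K}
    (hx : ∀ i, i ≠ 4 → x i ∈ A) (hF : aeval x S.F = 0) : IsIntegral A (x 4) := by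
  let a : Fin 5 → Polynomial A := fun i =>
    if h : i ≠ 4 then Polynomial.C ⟨x i, hx i h⟩ else Polynomial.X
  have hm := S.monic_aeval (A := A) (a := a) (by simp [a]) (fun i hi => ⟨⟨x i, hx i hi⟩, by
    simp only [a]
    rw [dif_pos hi]⟩)
  refine ⟨_, hm, ?_⟩
  rw [Polynomial.eval₂_mul]
  have h1 : Polynomial.eval₂ (algebraMap A K) (x 4) (aeval a S.F) = aeval x S.F := by
    have h2 : ((Polynomial.eval₂RingHom (algebraMap A K) (x 4)).comp
        (aeval a : MvPolynomial (Fin 5) ℂ →ₐ[ℂ] Polynomial A).toRingHom) =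
        (aeval x : MvPolynomial (Fin 5) ℂ →ₐ[ℂ] K).toRingHom := by
      apply MvPolynomial.ringHom_ext
      · intro c
        change Polynomial.eval₂ (algebraMap A K) (x 4) (aeval a (C c)) = aeval x (C c)
        rw [aeval_C, aeval_C, IsScalarTower.algebraMap_apply ℂ A (Polynomial A),
          ← Polynomial.C_eq_algebraMap, Polynomial.eval₂_C, ← IsScalarTower.algebraMap_apply]
      · intro i
        change Polynomial.eval₂ (algebraMap A K) (x 4) (aeval a (X i)) = aeval x (X i)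
        rw [aeval_X, aeval_X]
        by_cases hi : i = 4
        · rw [hi]
          simp [a]
        · simp only [a]
          rw [dif_pos hi, Polynomial.eval₂_C]
          rfl
    exact RingHom.congr_fun h2 S.F
  rw [h1, hF, mul_zero]

/-- modulo `JU` all variables are integral over `v, v₁, s, t` -/
lemma integral_JU (j : Fin 7) : IsIntegral (Algebra.adjoin ℂ (Set.range fun i : Fin 4 =>
    Ideal.Quotient.mk S.JU ((![X 0, X 1, X 2, X 3] : Fin 4 → R7) i)))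
      (Ideal.Quotient.mk S.JU (X j)) := by
  set A := Algebra.adjoin ℂ (Set.range fun i : Fin 4 =>
    Ideal.Quotient.mk S.JU ((![X 0, X 1, X 2, X 3] : Fin 4 → R7) i)) with hA
  have hmem : ∀ i : Fin 4, Ideal.Quotient.mk S.JU ((![X 0, X 1, X 2, X 3] : Fin 4 → R7) i) ∈ A :=
    fun i => Algebra.subset_adjoin ⟨i, rfl⟩
  have h0 : Ideal.Quotient.mk S.JU (X 0) ∈ A := hmem 0
  have h1 : Ideal.Quotient.mk S.JU (X 1) ∈ A := hmem 1
  have h2 : Ideal.Quotient.mk S.JU (X 2) ∈ A := hmem 2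
  have h3 : Ideal.Quotient.mk S.JU (X 3) ∈ A := hmem 3
  have h4 : Ideal.Quotient.mk S.JU (X 4) = 0 := Ideal.Quotient.eq_zero_iff_mem.2 S.X4_mem_JU
  have hin : ∀ y ∈ A, IsIntegral A y := fun y hy =>
    isIntegral_algebraMap (R := A) (A := R7 ⧸ S.JU) (x := ⟨y, hy⟩)
  have hev : ∀ (g : Fin 5 → R7), aeval g S.F ∈ S.JU →
      aeval (fun i => Ideal.Quotient.mk S.JU (g i)) S.F = 0 := by
    intro g hg
    have e1 : aeval (fun i => Ideal.Quotient.mk S.JU (g i)) S.F =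
        Ideal.Quotient.mkₐ ℂ S.JU (aeval g S.F) := by
      have e2 : (aeval (fun i => Ideal.Quotient.mk S.JU (g i)) :
          MvPolynomial (Fin 5) ℂ →ₐ[ℂ] R7 ⧸ S.JU) =
          (Ideal.Quotient.mkₐ ℂ S.JU).comp (aeval g) := by
        apply MvPolynomial.algHom_ext
        intro i
        rw [AlgHom.comp_apply, aeval_X, aeval_X]
        rfl
      rw [e2]
      rfl
    rw [e1]
    exact Ideal.Quotient.eq_zero_iff_mem.2 hg
  have h5 : IsIntegral A (Ideal.Quotient.mk S.JU (X 5)) := by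
    refine S.isIntegral_of_F A (x := fun i => Ideal.Quotient.mk S.JU (al i)) ?_
      (hev al S.Fa_mem_JU)
    intro i hi
    fin_cases i
    · exact h0
    · exact h2
    · exact h3
    · change Ideal.Quotient.mk S.JU (X 4) ∈ A
      rw [h4]
      exact zero_mem _
    · exact absurd rfl hi
  have h6 : IsIntegral A (Ideal.Quotient.mk S.JU (X 6)) := by
    refine S.isIntegral_of_F A (x := fun i => Ideal.Quotient.mk S.JU (be i)) ?_
      (hev be S.Fb_mem_JU)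
    intro i hi
    fin_cases i
    · exact h1
    · exact h2
    · exact h3
    · change Ideal.Quotient.mk S.JU (X 4) ∈ A
      rw [h4]
      exact zero_mem _
    · exact absurd rfl hi
  fin_cases j
  · exact hin _ h0
  · exact hin _ h1
  · exact hin _ h2
  · exact hin _ h3
  · refine hin _ ?_
    change Ideal.Quotient.mk S.JU (X 4) ∈ A
    rw [h4]
    exact zero_mem _
  · exact h5
  · exact h6

lemma shared {Q : Pt S.V 2} (hQ : S.Good Q) : ∃ j : Fin 5, al j - be j ∈ S.JU ∧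
    (X (0, j) : Coord (Fin 5) 2) ∉ Q.I ∧ (X (1, j) : Coord (Fin 5) 2) ∉ Q.I := by
  rcases hQ with h | h
  · refine ⟨1, ?_, h⟩
    have h1 : al 1 = X 2 := rfl
    have h2 : be 1 = X 2 := rfl
    rw [h1, h2, sub_self]
    exact zero_mem _
  · refine ⟨2, ?_, h⟩
    have h1 : al 2 = X 3 := rfl
    have h2 : be 2 = X 3 := rfl
    rw [h1, h2, sub_self]
    exact zero_mem _

/-- the relation given by two elements which are not zero divisors modulo `JU` -/
theorem JU_rel {b b' : R7} {k l m n : ℕ} (hb0 : IsWeightedHomogeneous (w7 S.V.wt) b m)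
    (hb0' : IsWeightedHomogeneous (w7 S.V.wt) b' n) (hkl : k * m = l * n) (hk : 1 ≤ k)
    (hl : 1 ≤ l) (hb : Nzd S.JU b) (hb' : Nzd S.JU b') : ∃ D ∈ RatZero S.V 2,
      (∀ Q : Pt S.V 2, D Q ≠ 0 → lev Q = 4 ∧ RingHom.ker (phi S.wt S.JU) ≤ Q.I) ∧
      ∀ Q : Pt S.V 2, lev Q = 4 → S.Good Q →
        (haveI := Q.prime; cl S.wt (S.JU ⊔ Ideal.span {b}) Q.I ≠ ⊤) ∧
        (haveI := Q.prime; cl S.wt (S.JU ⊔ Ideal.span {b'}) Q.I ≠ ⊤) ∧
        D Q = k * clz (S.JU ⊔ Ideal.span {b}) Q - l * clz (S.JU ⊔ Ideal.span {b'}) Q := by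
  have hbk : IsWeightedHomogeneous (w7 S.V.wt) (b ^ k) (k * m) := by
    have := hb0.pow k
    rwa [smul_eq_mul] at this
  have hbl : IsWeightedHomogeneous (w7 S.V.wt) (b' ^ l) (k * m) := by
    have := hb0'.pow l
    rwa [smul_eq_mul, ← hkl] at this
  obtain ⟨D, hD, h1, h2⟩ := rel S.wt_pos S.eqs_eq S.JU_hom S.Fa_mem_JU S.Fb_mem_JU
    S.integral_JU hbk hbl (nzd_pow hb k) (nzd_pow hb' l)
  refine ⟨D, hD, h1, fun Q hQ hG => ?_⟩
  have hp := Q.prime
  obtain ⟨h3, h4, h5⟩ := h2 Q hQ (S.shared hG)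
  have e1 : cl S.wt (S.JU ⊔ Ideal.span {b ^ k}) Q.I =
      k * cl S.wt (S.JU ⊔ Ideal.span {b}) Q.I := cl_pow Q.I hb k
  have e2 : cl S.wt (S.JU ⊔ Ideal.span {b' ^ l}) Q.I =
      l * cl S.wt (S.JU ⊔ Ideal.span {b'}) Q.I := cl_pow Q.I hb' l
  have k0 : (k : ℕ∞) ≠ 0 := by
    have : k ≠ 0 := by omega
    exact_mod_cast this
  have l0 : (l : ℕ∞) ≠ 0 := by
    have : l ≠ 0 := by omega
    exact_mod_cast this
  have f1 : cl S.wt (S.JU ⊔ Ideal.span {b}) Q.I ≠ ⊤ := by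
    intro h
    apply h3
    have : cl S.V.wt (S.JU ⊔ Ideal.span {b ^ k}) Q.I = k * ⊤ := by
      rw [← h]
      exact e1
    rw [this, ENat.mul_top k0]
  have f2 : cl S.wt (S.JU ⊔ Ideal.span {b'}) Q.I ≠ ⊤ := by
    intro h
    apply h4
    have : cl S.V.wt (S.JU ⊔ Ideal.span {b' ^ l}) Q.I = l * ⊤ := by
      rw [← h]
      exact e2
    rw [this, ENat.mul_top l0]
  refine ⟨f1, f2, ?_⟩
  rw [h5]
  have g1 : clz (S.JU ⊔ Ideal.span {b ^ k}) Q = k * clz (S.JU ⊔ Ideal.span {b}) Q := by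
    unfold clz
    have : cl S.V.wt (S.JU ⊔ Ideal.span {b ^ k}) Q.I =
      k * cl S.V.wt (S.JU ⊔ Ideal.span {b}) Q.I := e1
    rw [this, ENat.toNat_mul, ENat.toNat_natCast]
    push_cast
    rfl
  have g2 : clz (S.JU ⊔ Ideal.span {b' ^ l}) Q = l * clz (S.JU ⊔ Ideal.span {b'}) Q := by
    unfold clz
    have : cl S.V.wt (S.JU ⊔ Ideal.span {b' ^ l}) Q.I =
      l * cl S.V.wt (S.JU ⊔ Ideal.span {b'}) Q.I := e2
    rw [this, ENat.toNat_mul, ENat.toNat_natCast]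
    push_cast
    rfl
  rw [g1, g2]

/-- **(U_y)** -/
theorem Uy_rel : ∃ m : ℕ, 1 ≤ m ∧ ∃ D ∈ RatZero S.V 2,
    (∀ Q : Pt S.V 2, D Q ≠ 0 → lev Q = 4 ∧ RingHom.ker (phi S.wt S.JU) ≤ Q.I) ∧
    ∀ Q : Pt S.V 2, lev Q = 4 → S.Good Q →
      (haveI := Q.prime; cl S.wt S.JUy Q.I ≠ ⊤) ∧
      D Q = m * (S.p * clz S.JUy Q - S.r * clz S.Js Q) := by
  have hb : IsWeightedHomogeneous (w7 S.V.wt) (X 5 - X 6 : R7) S.r := by
    rw [← mem_weightedHomogeneousSubmodule]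
    exact sub_mem (isWeightedHomogeneous_X ℂ (w7 S.V.wt) 5)
      (isWeightedHomogeneous_X ℂ (w7 S.V.wt) 6)
  have hb' : IsWeightedHomogeneous (w7 S.V.wt) (X 2 : R7) S.p :=
    isWeightedHomogeneous_X ℂ (w7 S.V.wt) 2
  obtain ⟨D, hD, h1, h2⟩ := S.JU_rel hb hb' (mul_comm S.p S.r) S.hp S.hr S.nzd_JU_y S.nzd_JU_s
  refine ⟨1, le_rfl, D, hD, h1, fun Q hQ hG => ?_⟩
  obtain ⟨h3, -, h5⟩ := h2 Q hQ hG
  refine ⟨h3, ?_⟩
  rw [h5, Nat.cast_one, one_mul]
  rfl

/-- **(U_v)** -/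
theorem Uv_rel : ∃ m : ℕ, 1 ≤ m ∧ ∃ D ∈ RatZero S.V 2,
    (∀ Q : Pt S.V 2, D Q ≠ 0 → lev Q = 4 ∧ RingHom.ker (phi S.wt S.JU) ≤ Q.I) ∧
    ∀ Q : Pt S.V 2, lev Q = 4 → S.Good Q →
      D Q = m * (S.p * clz S.JVw Q - S.N * clz S.Js Q) := by
  have hb : IsWeightedHomogeneous (w7 S.V.wt) (X 0 - X 1 : R7) S.N := by
    rw [← mem_weightedHomogeneousSubmodule]
    exact sub_mem (isWeightedHomogeneous_X ℂ (w7 S.V.wt) 0)
      (isWeightedHomogeneous_X ℂ (w7 S.V.wt) 1)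
  have hb' : IsWeightedHomogeneous (w7 S.V.wt) (X 2 : R7) S.p :=
    isWeightedHomogeneous_X ℂ (w7 S.V.wt) 2
  obtain ⟨D, hD, h1, h2⟩ := S.JU_rel hb hb' (mul_comm S.p S.N) S.hp S.hN S.nzd_JU_v S.nzd_JU_s
  refine ⟨1, le_rfl, D, hD, h1, fun Q hQ hG => ?_⟩
  obtain ⟨-, -, h5⟩ := h2 Q hQ hG
  rw [h5, Nat.cast_one, one_mul]
  rfl

/-! ### The pairs of points with the same `(s, t, y)` -/

/-- `v₁ ↦ c v₁` -/
noncomputable def scv (c : ℂ) (hc : c ≠ 0) : R7 ≃ₐ[ℂ] R7 :=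
  AlgEquiv.ofAlgHom
    (aeval ![X 0, C c * X 1, X 2, X 3, X 4, X 5, X 6])
    (aeval ![X 0, C c⁻¹ * X 1, X 2, X 3, X 4, X 5, X 6])
    (by
      apply MvPolynomial.algHom_ext
      intro i
      rw [AlgHom.comp_apply, aeval_X]
      fin_cases i
      · exact aeval_X _ 0
      · change aeval _ (C c⁻¹ * X 1) = X 1
        rw [map_mul, aeval_X, aeval_C]
        change C c⁻¹ * (C c * X 1) = X 1
        rw [← mul_assoc, ← C_mul, inv_mul_cancel₀ hc, C_1, one_mul]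
      · exact aeval_X _ 2
      · exact aeval_X _ 3
      · exact aeval_X _ 4
      · exact aeval_X _ 5
      · exact aeval_X _ 6)
    (by
      apply MvPolynomial.algHom_ext
      intro i
      rw [AlgHom.comp_apply, aeval_X]
      fin_cases i
      · exact aeval_X _ 0
      · change aeval _ (C c * X 1) = X 1
        rw [map_mul, aeval_X, aeval_C]
        change C c * (C c⁻¹ * X 1) = X 1
        rw [← mul_assoc, ← C_mul, mul_inv_cancel₀ hc, C_1, one_mul]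
      · exact aeval_X _ 2
      · exact aeval_X _ 3
      · exact aeval_X _ 4
      · exact aeval_X _ 5
      · exact aeval_X _ 6)

lemma scv_X (c : ℂ) (hc : c ≠ 0) (i : Fin 7) :
    scv c hc (X i) = (![X 0, C c * X 1, X 2, X 3, X 4, X 5, X 6] : Fin 7 → R7) i := aeval_X _ i

lemma scv_Fa (c : ℂ) (hc : c ≠ 0) : scv c hc S.Fa = S.Fa := by
  have h : ((scv c hc).toAlgHom.comp (aeval al) : MvPolynomial (Fin 5) ℂ →ₐ[ℂ] R7) = aeval al := by
    apply MvPolynomial.algHom_ext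
    intro i
    rw [AlgHom.comp_apply, aeval_X]
    fin_cases i
    · exact scv_X c hc 0
    · exact scv_X c hc 2
    · exact scv_X c hc 3
    · exact scv_X c hc 4
    · exact scv_X c hc 5
  exact DFunLike.congr_fun h S.F

/-- the ideal of the pairs with the same `(s, t, y)` and `v₁ = ζ v` -/
noncomputable def Jz (ζ : ℂ) : Ideal R7 :=
  Ideal.span {(X 4 : R7), X 5 - X 6, S.Fa} ⊔ Ideal.span {X 1 - C ζ * X 0}

lemma Jz_one : S.Jz 1 = S.JD := by
  unfold Jz JD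
  rw [C_1, one_mul, ← Ideal.span_union]
  apply le_antisymm
  · rw [Ideal.span_le]
    intro f hf
    simp only [Set.mem_insert_iff, Set.mem_singleton_iff, Set.mem_union] at hf
    rcases hf with (rfl | rfl | rfl) | rfl
    · exact Ideal.subset_span (by simp)
    · exact Ideal.subset_span (by simp)
    · exact Ideal.subset_span (by simp)
    · have : (X 1 - X 0 : R7) = -(X 0 - X 1) := by ring
      rw [this]
      exact neg_mem (Ideal.subset_span (by simp))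
  · rw [Ideal.span_le]
    intro f hf
    simp only [Set.mem_insert_iff, Set.mem_singleton_iff] at hf
    rcases hf with rfl | rfl | rfl | rfl
    · exact Ideal.subset_span (by simp)
    · have : (X 0 - X 1 : R7) = -(X 1 - X 0) := by ring
      rw [this]
      exact neg_mem (Ideal.subset_span (by simp))
    · exact Ideal.subset_span (by simp)
    · exact Ideal.subset_span (by simp)

/-- the automorphism `v₁ ↦ ξ ^ (-N) v₁` -/
lemma cl_Jz (Q : Ideal (Coord (Fin 5) 2)) [Q.IsPrime] {ξ : ℂ} (hξ : ξ ^ S.e = 1) :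
    cl S.wt (S.Jz (ξ ^ S.N)) Q = cl S.wt S.JD Q := by
  have he := S.e_pos
  have hξ0 : ξ ≠ 0 := by
    rintro rfl
    rw [zero_pow (by omega)] at hξ
    exact zero_ne_one hξ
  have hN0 : ξ ^ S.N ≠ 0 := pow_ne_zero _ hξ0
  have hc : (ξ ^ S.N)⁻¹ ≠ 0 := inv_ne_zero hN0
  have hpow : ∀ n, S.e ∣ n → ξ ^ n = 1 := by
    rintro _ ⟨m, rfl⟩
    rw [pow_mul, hξ, one_pow]
  have hmap : (S.Jz 1).map (scv (ξ ^ S.N)⁻¹ hc) = S.Jz (ξ ^ S.N) := by
    unfold Jz
    rw [C_1, one_mul, Ideal.map_sup, Ideal.map_span, Ideal.map_span]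
    have h1 : (scv (ξ ^ S.N)⁻¹ hc) '' {(X 4 : R7), X 5 - X 6, S.Fa} =
        {(X 4 : R7), X 5 - X 6, S.Fa} := by
      rw [Set.image_insert_eq, Set.image_insert_eq, Set.image_singleton, map_sub, S.scv_Fa,
        scv_X, scv_X, scv_X]
      rfl
    have h2 : (scv (ξ ^ S.N)⁻¹ hc) '' {(X 1 - X 0 : R7)} =
        {C (ξ ^ S.N)⁻¹ * (X 1 - C (ξ ^ S.N) * X 0)} := by
      rw [Set.image_singleton, map_sub, scv_X, scv_X]
      change ({C (ξ ^ S.N)⁻¹ * X 1 - X 0} : Set R7) = _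
      rw [mul_sub, ← mul_assoc, ← C_mul, inv_mul_cancel₀ hN0, C_1, one_mul]
    rw [h1, h2]
    congr 1
    apply le_antisymm
    · rw [Ideal.span_singleton_le_iff_mem]
      exact Ideal.mul_mem_left _ _ (Ideal.mem_span_singleton_self _)
    · rw [Ideal.span_singleton_le_iff_mem]
      have h3 : (X 1 - C (ξ ^ S.N) * X 0 : R7) =
          C (ξ ^ S.N) * (C (ξ ^ S.N)⁻¹ * (X 1 - C (ξ ^ S.N) * X 0)) := by
        rw [← mul_assoc, ← C_mul, mul_inv_cancel₀ hN0, C_1, one_mul]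
      have h4 := Ideal.mul_mem_left (Ideal.span
        {(C (ξ ^ S.N)⁻¹ * (X 1 - C (ξ ^ S.N) * X 0) : R7)}) (C (ξ ^ S.N))
        (Ideal.mem_span_singleton_self _)
      rwa [← h3] at h4
  rw [← S.Jz_one, ← hmap]
  refine cl_aut Q (scv (ξ ^ S.N)⁻¹ hc) hξ0 ?_ ?_
  · intro j
    have h : scv (ξ ^ S.N)⁻¹ hc (al j) - al j = 0 := by
      rw [sub_eq_zero]
      fin_cases j
      · exact scv_X _ hc 0
      · exact scv_X _ hc 2
      · exact scv_X _ hc 3
      · exact scv_X _ hc 4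
      · exact scv_X _ hc 5
    rw [h]
    exact zero_mem _
  · intro j
    have hone : ∀ (i : Fin 7) (n : ℕ), S.e ∣ n → C (ξ ^ n) * (X i : R7) - X i = 0 := by
      intro i n hn
      rw [hpow n hn, C_1, one_mul, sub_self]
    fin_cases j
    · have h : C (ξ ^ S.wt 0) * scv (ξ ^ S.N)⁻¹ hc (be 0) - be 0 = 0 := by
        have h1 : scv (ξ ^ S.N)⁻¹ hc (be 0) = C (ξ ^ S.N)⁻¹ * X 1 := scv_X _ hc 1
        rw [h1]
        change C (ξ ^ S.N) * (C (ξ ^ S.N)⁻¹ * X 1) - X 1 = (0 : R7)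
        rw [← mul_assoc, ← C_mul, mul_inv_cancel₀ hN0, C_1, one_mul, sub_self]
      exact h ▸ zero_mem _
    · have h : C (ξ ^ S.wt 1) * scv (ξ ^ S.N)⁻¹ hc (be 1) - be 1 = 0 := by
        have h1 : scv (ξ ^ S.N)⁻¹ hc (be 1) = X 2 := scv_X _ hc 2
        rw [h1]
        exact hone 2 S.p S.hep
      exact h ▸ zero_mem _
    · have h : C (ξ ^ S.wt 2) * scv (ξ ^ S.N)⁻¹ hc (be 2) - be 2 = 0 := by
        have h1 : scv (ξ ^ S.N)⁻¹ hc (be 2) = X 3 := scv_X _ hc 3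
        rw [h1]
        exact hone 3 S.q S.heq
      exact h ▸ zero_mem _
    · have h1 : scv (ξ ^ S.N)⁻¹ hc (be 3) = X 4 := scv_X _ hc 4
      have h4 : (X 4 : R7) ∈ (S.Jz 1).map (scv (ξ ^ S.N)⁻¹ hc) := by
        rw [hmap]
        exact Ideal.mem_sup_left (Ideal.subset_span (by simp))
      change C (ξ ^ S.wt 3) * scv (ξ ^ S.N)⁻¹ hc (be 3) - be 3 ∈ _
      rw [h1]
      exact sub_mem (Ideal.mul_mem_left _ _ h4) h4
    · have h : C (ξ ^ S.wt 4) * scv (ξ ^ S.N)⁻¹ hc (be 4) - be 4 = 0 := by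
        have h1 : scv (ξ ^ S.N)⁻¹ hc (be 4) = X 6 := scv_X _ hc 6
        rw [h1]
        exact hone 6 S.r S.her
      exact h ▸ zero_mem _

lemma sup_congr {I : Ideal R7} {a b : R7} (h : a - b ∈ I) :
    I ⊔ Ideal.span {a} = I ⊔ Ideal.span {b} := by
  apply le_antisymm
  · refine sup_le le_sup_left ?_
    rw [Ideal.span_singleton_le_iff_mem]
    have : a = (a - b) + b := by ring
    rw [this]
    exact add_mem (Ideal.mem_sup_left h) (Ideal.mem_sup_right (Ideal.mem_span_singleton_self b))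
  · refine sup_le le_sup_left ?_
    rw [Ideal.span_singleton_le_iff_mem]
    have : b = a - (a - b) := by ring
    rw [this]
    exact sub_mem (Ideal.mem_sup_right (Ideal.mem_span_singleton_self a)) (Ideal.mem_sup_left h)

lemma JUy_eq_sup : S.JUy = Ideal.span {(X 4 : R7), X 5 - X 6, S.Fa} ⊔
    Ideal.span {S.A7 * (X 1 ^ S.e - X 0 ^ S.e)} := by
  have h1 : S.JUy = Ideal.span {(X 4 : R7), X 5 - X 6, S.Fa} ⊔ Ideal.span {S.Fb} := by
    rw [JUy, JU, ← Ideal.span_union, ← Ideal.span_union]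
    congr 1
    ext x
    simp only [Set.mem_insert_iff, Set.mem_singleton_iff, Set.mem_union]
    tauto
  rw [h1]
  refine sup_congr ?_
  have h2 : S.Fb - S.A7 * (X 1 ^ S.e - X 0 ^ S.e) =
      (S.Fb - (X 1 ^ S.e * S.A7 + S.B7)) - (S.Fa - (X 0 ^ S.e * S.A7 + S.B7)) + S.Fa := by ring
  rw [h2]
  refine add_mem (sub_mem (Ideal.span_mono ?_ S.Fb_shape) (Ideal.span_mono ?_ S.Fa_shape))
    (Ideal.subset_span (by simp))
  · intro x hx
    simp only [Set.mem_insert_iff, Set.mem_singleton_iff] at hx ⊢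
    tauto
  · intro x hx
    simp only [Set.mem_insert_iff, Set.mem_singleton_iff] at hx ⊢
    tauto

lemma JZ_eq_sup : Ideal.span {(X 4 : R7), X 5 - X 6, S.Fa} ⊔ Ideal.span {S.A7} = S.JZ := by
  have h4 : Ideal.span {(X 4 : R7)} ≤ S.JZ := by
    rw [JZ]
    exact Ideal.span_mono (by simp)
  apply le_antisymm
  · rw [← Ideal.span_union, Ideal.span_le]
    intro f hf
    simp only [Set.mem_insert_iff, Set.mem_singleton_iff, Set.mem_union] at hf
    rcases hf with (rfl | rfl | rfl) | rfl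
    · exact Ideal.subset_span (by simp)
    · exact Ideal.subset_span (by simp)
    · have h2 : S.Fa = (S.Fa - (X 0 ^ S.e * S.A7 + S.B7)) + (X 0 ^ S.e * S.A7 + S.B7) := by ring
      rw [h2]
      exact add_mem (h4 S.Fa_shape) (add_mem
        (Ideal.mul_mem_left _ _ (Ideal.subset_span (by simp))) (Ideal.subset_span (by simp)))
    · exact Ideal.subset_span (by simp)
  · rw [JZ, Ideal.span_le]
    intro f hf
    simp only [Set.mem_insert_iff, Set.mem_singleton_iff] at hf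
    have hA : S.A7 ∈ Ideal.span {(X 4 : R7), X 5 - X 6, S.Fa} ⊔ Ideal.span {S.A7} :=
      Ideal.mem_sup_right (Ideal.mem_span_singleton_self _)
    rcases hf with rfl | rfl | rfl | rfl
    · exact Ideal.mem_sup_left (Ideal.subset_span (by simp))
    · exact Ideal.mem_sup_left (Ideal.subset_span (by simp))
    · exact hA
    · have h2 : S.B7 = S.Fa - (S.Fa - (X 0 ^ S.e * S.A7 + S.B7)) - X 0 ^ S.e * S.A7 := by ring
      rw [h2]
      refine sub_mem (sub_mem (Ideal.mem_sup_left (Ideal.subset_span (by simp))) ?_)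
        (Ideal.mul_mem_left _ _ hA)
      refine Ideal.mem_sup_left (Ideal.span_mono ?_ S.Fa_shape)
      intro x hx
      simp only [Set.mem_insert_iff, Set.mem_singleton_iff] at hx ⊢
      tauto

/-- a root of unity of order dividing `e` is the power `N` of another one -/
lemma exists_root {ζ : ℂ} (hζ : ζ ^ S.e = 1) : ∃ ξ : ℂ, ξ ^ S.e = 1 ∧ ξ ^ S.N = ζ := by
  have he := S.e_pos
  rcases Nat.lt_or_ge 1 S.e with h1 | h1
  · obtain ⟨m, hm⟩ := Nat.exists_mul_mod_eq_one_of_coprime S.hNe h1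
    refine ⟨ζ ^ m, ?_, ?_⟩
    · rw [← pow_mul, mul_comm, pow_mul, hζ, one_pow]
    · rw [← pow_mul, mul_comm]
      have h2 := Nat.div_add_mod (S.N * m) S.e
      rw [hm.2] at h2
      rw [← h2, pow_add, pow_mul, hζ, one_pow, one_mul, pow_one]
  · have h2 : S.e = 1 := by omega
    rw [h2, pow_one] at hζ
    exact ⟨1, one_pow _, by rw [one_pow, hζ]⟩

/-- the pairs of points with the same `(s, t, y)` -/
theorem JUy_eq (Q : Ideal (Coord (Fin 5) 2)) [Q.IsPrime] :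
    cl S.wt S.JUy Q = S.e * cl S.wt S.JD Q + cl S.wt S.JZ Q := by
  have he := S.e_pos
  have hA : Nzd (Ideal.span {(X 4 : R7), X 5 - X 6, S.Fa}) S.A7 :=
    nzd_of_prime S.J1_prime S.A7_notMem
  rw [S.JUy_eq_sup, cl_mul Q hA, S.JZ_eq_sup, add_comm]
  congr 1
  obtain ⟨ζ, hζ⟩ : ∃ ζ : ℂ, IsPrimitiveRoot ζ S.e :=
    ⟨_, Complex.isPrimitiveRoot_exp S.e (by omega)⟩
  have hζ' : IsPrimitiveRoot (C ζ : R7) S.e :=
    hζ.map_of_injective (C_injective (Fin 7) ℂ)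
  have hroot : ∀ μ ∈ Polynomial.nthRootsFinset S.e (1 : R7), ∃ z : ℂ, z ^ S.e = 1 ∧ μ = C z := by
    intro μ hμ
    have h1 : μ ^ S.e = 1 := (Polynomial.mem_nthRootsFinset (by omega) _).1 hμ
    have hne : NeZero S.e := ⟨by omega⟩
    obtain ⟨i, -, hi⟩ := hζ'.eq_pow_of_pow_eq_one h1
    refine ⟨ζ ^ i, ?_, ?_⟩
    · rw [← pow_mul, mul_comm, pow_mul, hζ.pow_eq_one, one_pow]
    · rw [← hi, C_pow]
  have hprod : (X 1 ^ S.e - X 0 ^ S.e : R7) =
      ∏ μ ∈ Polynomial.nthRootsFinset S.e (1 : R7), (X 1 - μ * X 0) :=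
    hζ'.pow_sub_pow_eq_prod_sub_mul _ _ (by omega)
  rw [hprod, cl_prod Q]
  · have hall : ∀ μ ∈ Polynomial.nthRootsFinset S.e (1 : R7),
        cl S.wt (Ideal.span {(X 4 : R7), X 5 - X 6, S.Fa} ⊔ Ideal.span {X 1 - μ * X 0}) Q =
          cl S.wt S.JD Q := by
      intro μ hμ
      obtain ⟨z, hz, rfl⟩ := hroot μ hμ
      obtain ⟨ξ, hξ, hξN⟩ := S.exists_root hz
      rw [← S.cl_Jz Q hξ, hξN]
      rfl
    rw [Finset.sum_congr rfl hall, Finset.sum_const, hζ'.card_nthRootsFinset, nsmul_eq_mul]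
  · intro μ hμ
    obtain ⟨z, hz, rfl⟩ := hroot μ hμ
    exact nzd_of_prime S.J1_prime (S.v_notMem z)

end MD

end Pool.Agent.RCH.Mn
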