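import Pool.Agent.RCH.Mn8
import Pool.Agent.RCH.Dg2Kill

/-!
# Row M6: the points where `s` and `t` are not invertible
-/

set_option autoImplicit false

open MvPolynomial

namespace Pool.Agent.RCH.Mn

lemma hasRk_lev {X : WVar (Fin 5)} (hpos : ∀ j, 0 < X.wt j) (C : Pt X 1) :
    Dg.HasRk (Dg.wt1 X) C.I (lev C) (Dg.mult (Dg.wt1 X) C.I) := by
  have hC := C.prime
  have hw : ∀ v : Fin 1 × Fin 5, 0 < Dg.wt1 X v := fun v => hpos v.2
  have h1 := Dg.hasRk hw (Dg.hom_pt C) hC.ne_top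
  rwa [Dg.rk_eq_td hw (Dg.hom_pt C)] at h1

/-- the level of a product -/
theorem lev_box {X : WVar (Fin 5)} (hpos : ∀ j, 0 < X.wt j) (C C' : Pt X 1) (P : Pt X 2)
    (h : P.I = boxIdeal X ![C, C']) : lev P = lev C + lev C' :=
  Dg2.td_box hpos h (hasRk_lev hpos C) (hasRk_lev hpos C')

/-- the coefficient of a pure power of `x_4` -/
lemma coeff_single_four {f : MvPolynomial (Fin 5) ℂ} {j : Fin 5} (hj : j ≠ 4) (D : ℕ) :
    coeff (Finsupp.single 4 D) (X j * f) = 0 := by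
  classical
  rw [coeff_X_mul', if_neg]
  intro h
  rw [Finsupp.mem_support_iff, Finsupp.single_apply, if_neg (Ne.symm hj)] at h
  exact h rfl

lemma laurent_aux {A : Type} [CommRing A] (a b : LaurentPolynomial A) (p q : ℕ) :
    a ^ q * (b * LaurentPolynomial.T (q : ℤ)) ^ p -
      (a * LaurentPolynomial.T (p : ℤ)) ^ q * b ^ p = 0 := by
  rw [mul_pow, mul_pow, LaurentPolynomial.T_pow, LaurentPolynomial.T_pow,
    mul_comm (p : ℤ) (q : ℤ)]
  ring

namespace MD

variable (S : MD)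

/-- `A` in the variables of `F` lies in the ideal `(s, t)` -/
lemma exists_A : ∃ a b : MvPolynomial (Fin 5) ℂ,
    rename ![1, 2, 4] S.A = X 1 * a + X 2 * b := by
  have h := S.hAy
  rw [Ideal.mem_span_pair] at h
  obtain ⟨a, b, h⟩ := h
  refine ⟨rename ![1, 2, 4] a, rename ![1, 2, 4] b, ?_⟩
  rw [← h, map_add, map_mul, map_mul, rename_X, rename_X]
  show rename ![1, 2, 4] a * X 1 + rename ![1, 2, 4] b * X 2 = _
  ring

/-- the coefficient of `y ^ D` in `B` is not zero -/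
lemma coeff_B : coeff (Finsupp.single 2 S.D) S.B ≠ 0 := by
  have hinj : Function.Injective (![1, 2, 4] : Fin 3 → Fin 5) := by decide
  have h1 : coeff (Finsupp.single 4 S.D) (rename ![1, 2, 4] S.B : MvPolynomial (Fin 5) ℂ) =
      coeff (Finsupp.single 2 S.D) S.B := by
    have h2 := coeff_rename_mapDomain (![1, 2, 4] : Fin 3 → Fin 5) hinj S.B
      (Finsupp.single 2 S.D)
    rwa [Finsupp.mapDomain_single] at h2
  obtain ⟨a, b, hab⟩ := S.exists_A
  obtain ⟨c, hc⟩ := Ideal.mem_span_singleton.1 S.shape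
  have h3 : S.F = X 1 * (X 0 ^ S.e * a) + X 2 * (X 0 ^ S.e * b) + X 3 * c +
      rename ![1, 2, 4] S.B := by
    have h4 : S.F = X 3 * c + (X 0 ^ S.e * rename ![1, 2, 4] S.A + rename ![1, 2, 4] S.B) := by
      rw [← hc]
      ring
    rw [h4, hab]
    ring
  have h5 := S.monic
  rw [h3, coeff_add, coeff_add, coeff_add, coeff_single_four (by decide),
    coeff_single_four (by decide), coeff_single_four (by decide), h1] at h5
  simpa using h5

/-- a prime with `s`, `t`, `ω` and `F` contains `y` -/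
lemma y_mem {Q : Ideal (Coord (Fin 5) 2)} (hQ : Q.IsPrime) (i : Fin 2)
    (hF : inFactor 2 i S.F ∈ Q) (h1 : (X (i, 1) : Coord (Fin 5) 2) ∈ Q)
    (h2 : (X (i, 2) : Coord (Fin 5) 2) ∈ Q) (h3 : (X (i, 3) : Coord (Fin 5) 2) ∈ Q) :
    (X (i, 4) : Coord (Fin 5) 2) ∈ Q := by
  have h0 : inFactor 2 i (rename ![1, 2, 4] S.B) ∈ Q := by
    obtain ⟨a, b, hab⟩ := S.exists_A
    obtain ⟨c, hc⟩ := Ideal.mem_span_singleton.1 S.shape
    have h4 : rename ![1, 2, 4] S.B = S.F - X 1 * (X 0 ^ S.e * a) - X 2 * (X 0 ^ S.e * b) -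
        X 3 * c := by
      rw [← hc, hab]
      ring
    have hX : ∀ j, inFactor 2 i (X j : MvPolynomial (Fin 5) ℂ) = X (i, j) := fun j => by
      rw [inFactor, rename_X]
    rw [h4, map_sub, map_sub, map_sub, map_mul, map_mul _ (X 2), map_mul _ (X 3), hX, hX, hX]
    exact Q.sub_mem (Q.sub_mem (Q.sub_mem hF (Q.mul_mem_right _ h1)) (Q.mul_mem_right _ h2))
      (Q.mul_mem_right _ h3)
  -- modulo `s` and `t` the form `B` is a multiple of `y ^ D`
  have h5 : S.B - monomial (Finsupp.single 2 S.D) (coeff (Finsupp.single 2 S.D) S.B) ∈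
      Ideal.span {(X 0 : MvPolynomial (Fin 3) ℂ), X 1} := by
    classical
    have h6 : S.B = ∑ m ∈ S.B.support, monomial m (coeff m S.B) := (support_sum_monomial_coeff _).symm
    have hmem : Finsupp.single 2 S.D ∈ S.B.support := mem_support_iff.2 S.coeff_B
    rw [← Finset.add_sum_erase _ _ hmem] at h6
    nth_rewrite 1 [h6]
    rw [add_sub_cancel_left]
    refine Ideal.sum_mem _ fun m hm => ?_
    rw [Finset.mem_erase, mem_support_iff] at hm
    have hw := S.hB hm.2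
    rw [Finsupp.weight_apply, Finsupp.sum_fintype _ _ (by simp), Fin.sum_univ_three] at hw
    by_cases h7 : m 0 = 0
    · by_cases h8 : m 1 = 0
      · exfalso
        apply hm.1
        rw [h7, h8] at hw
        have h9 : m 2 * S.r = S.D * S.r := by
          rw [S.hD]
          simpa using hw
        have h10 : m 2 = S.D := Nat.eq_of_mul_eq_mul_right S.hr h9
        ext j
        fin_cases j
        · simpa using h7
        · simpa using h8
        · simpa using h10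
      · have h11 : monomial m (coeff m S.B) = X 1 * monomial (m - Finsupp.single 1 1)
            (coeff m S.B) := by
          rw [X, monomial_mul, one_mul, add_tsub_cancel_of_le]
          rw [Finsupp.single_le_iff]
          omega
        rw [h11]
        exact Ideal.mul_mem_right _ _ (Ideal.subset_span (by simp))
    · have h11 : monomial m (coeff m S.B) = X 0 * monomial (m - Finsupp.single 0 1)
          (coeff m S.B) := by
        rw [X, monomial_mul, one_mul, add_tsub_cancel_of_le]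
        rw [Finsupp.single_le_iff]
        omega
      rw [h11]
      exact Ideal.mul_mem_right _ _ (Ideal.subset_span (by simp))
  have h12 : inFactor 2 i (rename ![1, 2, 4] (S.B - monomial (Finsupp.single 2 S.D)
      (coeff (Finsupp.single 2 S.D) S.B))) ∈ Q := by
    rw [Ideal.mem_span_pair] at h5
    obtain ⟨a, b, hab⟩ := h5
    rw [← hab, map_add, map_mul, map_mul, map_add, map_mul, map_mul, rename_X, rename_X]
    refine Q.add_mem (Q.mul_mem_left _ ?_) (Q.mul_mem_left _ ?_)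
    · rw [inFactor, rename_X]
      exact h1
    · rw [inFactor, rename_X]
      exact h2
  have h13 : inFactor 2 i (rename ![1, 2, 4] (monomial (Finsupp.single 2 S.D)
      (coeff (Finsupp.single 2 S.D) S.B))) ∈ Q := by
    have h14 := Q.sub_mem h0 h12
    rwa [map_sub, map_sub, sub_sub_cancel] at h14
  rw [← C_mul_X_pow_eq_monomial, map_mul, map_mul, map_pow, map_pow, rename_X, rename_C, inFactor,
    rename_C, rename_X] at h13
  rcases hQ.mem_or_mem h13 with h14 | h14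
  · exfalso
    have hu : IsUnit (C (coeff (Finsupp.single 2 S.D) S.B) : Coord (Fin 5) 2) :=
      (isUnit_iff_ne_zero.2 S.coeff_B).map C
    exact hQ.ne_top (Ideal.eq_top_of_isUnit_mem _ h14 hu)
  · exact hQ.mem_of_pow_mem _ h14

lemma om_mem {Q : Pt S.V 2} (hJ : RingHom.ker (phi S.wt S.JU) ≤ Q.I) (i : Fin 2) :
    (X (i, 3) : Coord (Fin 5) 2) ∈ Q.I := by
  apply hJ
  have h4 : Ideal.Quotient.mk S.JU (X 4) = 0 :=
    Ideal.Quotient.eq_zero_iff_mem.2 (Ideal.subset_span (by simp))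
  rw [RingHom.mem_ker, phi, aeval_X]
  fin_cases i
  · show LaurentPolynomial.C (Ideal.Quotient.mk S.JU (X 4)) = 0
    rw [h4, map_zero]
  · show LaurentPolynomial.C (Ideal.Quotient.mk S.JU (X 4)) * LaurentPolynomial.T _ = 0
    rw [h4, map_zero, zero_mul]

lemma st_mem {Q : Pt S.V 2} (hJ : RingHom.ker (phi S.wt S.JU) ≤ Q.I) :
    ((X (0, 1) : Coord (Fin 5) 2) ^ S.q * X (1, 2) ^ S.p -
      X (1, 1) ^ S.q * X (0, 2) ^ S.p) ∈ Q.I := by
  apply hJ
  rw [RingHom.mem_ker, phi]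
  rw [map_sub, map_mul, map_mul, map_pow, map_pow, map_pow, map_pow, aeval_X, aeval_X, aeval_X,
    aeval_X]
  show LaurentPolynomial.C (Ideal.Quotient.mk S.JU (X 2)) ^ S.q *
      (LaurentPolynomial.C (Ideal.Quotient.mk S.JU (X 3)) *
        LaurentPolynomial.T ((S.q : ℕ) : ℤ)) ^ S.p -
    (LaurentPolynomial.C (Ideal.Quotient.mk S.JU (X 2)) *
      LaurentPolynomial.T ((S.p : ℕ) : ℤ)) ^ S.q *
      LaurentPolynomial.C (Ideal.Quotient.mk S.JU (X 3)) ^ S.p = 0
  exact laurent_aux _ _ S.p S.q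

lemma F_mem (Q : Pt S.V 2) (i : Fin 2) : inFactor 2 i S.F ∈ Q.I :=
  Q.onX i _ (Ideal.subset_span (by simp))

/-- the ideal of the vertex in the coordinates of a point -/
lemma map_pP_le {Q : Pt S.V 2} (hJ : RingHom.ker (phi S.wt S.JU) ≤ Q.I) (i : Fin 2)
    (h1 : (X (i, 1) : Coord (Fin 5) 2) ∈ Q.I) (h2 : (X (i, 2) : Coord (Fin 5) 2) ∈ Q.I) :
    S.pP.I.map (rename (R := ℂ) (fun v : Fin 1 × Fin 5 => (i, v.2))).toRingHom ≤ Q.I := by
  have hQ := Q.prime
  have h3 := S.om_mem hJ i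
  have h4 := S.y_mem hQ i (S.F_mem Q i) h1 h2 h3
  show (Ideal.span {X (0, 1), X (0, 2), X (0, 3), X (0, 4)}).map _ ≤ _
  rw [Ideal.map_span, Ideal.span_le]
  rintro _ ⟨x, hx, rfl⟩
  simp only [Set.mem_insert_iff, Set.mem_singleton_iff] at hx
  rcases hx with rfl | rfl | rfl | rfl
  · simpa using h1
  · simpa using h2
  · simpa using h3
  · simpa using h4

/-- the ideal of the section in the coordinates of a point -/
lemma map_pY_le {Q : Pt S.V 2} (hJ : RingHom.ker (phi S.wt S.JU) ≤ Q.I) (i : Fin 2) :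
    S.pY.I.map (rename (R := ℂ) (fun v : Fin 1 × Fin 5 => (i, v.2))).toRingHom ≤ Q.I := by
  have h3 := S.om_mem hJ i
  have h4 := S.F_mem Q i
  show (Ideal.span {inFactor 1 0 (X 3), inFactor 1 0 S.F}).map _ ≤ _
  rw [Ideal.map_span, Ideal.span_le]
  rintro _ ⟨x, hx, rfl⟩
  simp only [Set.mem_insert_iff, Set.mem_singleton_iff] at hx
  rcases hx with rfl | rfl
  · simpa [inFactor] using h3
  · have h5 : (rename (R := ℂ) (fun v : Fin 1 × Fin 5 => (i, v.2))).toRingHom
        (inFactor 1 0 S.F) = inFactor 2 i S.F := by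
      show rename (R := ℂ) (fun v : Fin 1 × Fin 5 => (i, v.2)) (inFactor 1 0 S.F) = _
      rw [inFactor, inFactor, rename_rename]
      rfl
    rw [h5]
    exact h4

lemma eq_of_box_le {Q : Pt S.V 2} (h4 : lev Q = 4) {C C' : Pt S.V 1}
    (hC : lev C + lev C' = 4) (h : boxIdeal S.V ![C, C'] ≤ Q.I) :
    Q.I = boxIdeal S.V ![C, C'] := by
  obtain ⟨P, hP⟩ := exists_box (X := S.V) ![C, C']
  have h5 := lev_box S.wt_pos C C' P hP
  have hPp := P.prime
  have hQp := Q.prime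
  rw [← hP] at h ⊢
  rcases h.lt_or_eq with h6 | h6
  · exfalso
    have h7 : lev Q < lev P := Dg.td_lt_of_lt h6
    omega
  · exact h6.symm

theorem bad {Q : Pt S.V 2} (h4 : lev Q = 4) (hQ : ¬ S.Good Q)
    (hJ : RingHom.ker (phi S.wt S.JU) ≤ Q.I) :
    Q.I = boxIdeal S.V ![S.pP, S.pY] ∨ Q.I = boxIdeal S.V ![S.pY, S.pP] := by
  have hQp := Q.prime
  have hst := S.st_mem hJ
  have hq : S.q ≠ 0 := Nat.one_le_iff_ne_zero.1 S.hq
  have hp : S.p ≠ 0 := Nat.one_le_iff_ne_zero.1 S.hp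
  have hpP := S.lev_pP
  have hpY := S.lev_pY
  have hcase : ((X (0, 1) : Coord (Fin 5) 2) ∈ Q.I ∧ (X (0, 2) : Coord (Fin 5) 2) ∈ Q.I) ∨
      ((X (1, 1) : Coord (Fin 5) 2) ∈ Q.I ∧ (X (1, 2) : Coord (Fin 5) 2) ∈ Q.I) := by
    by_contra hcon
    have h1 : (X (0, 1) : Coord (Fin 5) 2) ∈ Q.I ∨ (X (1, 1) : Coord (Fin 5) 2) ∈ Q.I := by
      by_contra h
      exact hQ (Or.inl ⟨fun h' => h (Or.inl h'), fun h' => h (Or.inr h')⟩)
    have h2 : (X (0, 2) : Coord (Fin 5) 2) ∈ Q.I ∨ (X (1, 2) : Coord (Fin 5) 2) ∈ Q.I := by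
      by_contra h
      exact hQ (Or.inr ⟨fun h' => h (Or.inl h'), fun h' => h (Or.inr h')⟩)
    rcases h1 with h1 | h1 <;> rcases h2 with h2 | h2
    · exact hcon (Or.inl ⟨h1, h2⟩)
    · -- `s ∈ Q`, `t' ∈ Q`
      have h3 : (X (1, 1) : Coord (Fin 5) 2) ^ S.q * X (0, 2) ^ S.p ∈ Q.I := by
        have h5 : (X (0, 1) : Coord (Fin 5) 2) ^ S.q * X (1, 2) ^ S.p ∈ Q.I :=
          Q.I.mul_mem_right _ (Ideal.pow_mem_of_mem _ h1 _ (Nat.pos_of_ne_zero hq))
        have h6 := Q.I.sub_mem h5 hst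
        rwa [sub_sub_cancel] at h6
      rcases hQp.mem_or_mem h3 with h5 | h5
      · exact hcon (Or.inr ⟨hQp.mem_of_pow_mem _ h5, h2⟩)
      · exact hcon (Or.inl ⟨h1, hQp.mem_of_pow_mem _ h5⟩)
    · -- `s' ∈ Q`, `t ∈ Q`
      have h3 : (X (0, 1) : Coord (Fin 5) 2) ^ S.q * X (1, 2) ^ S.p ∈ Q.I := by
        have h5 : (X (1, 1) : Coord (Fin 5) 2) ^ S.q * X (0, 2) ^ S.p ∈ Q.I :=
          Q.I.mul_mem_right _ (Ideal.pow_mem_of_mem _ h1 _ (Nat.pos_of_ne_zero hq))
        have h6 := Q.I.add_mem hst h5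
        rwa [sub_add_cancel] at h6
      rcases hQp.mem_or_mem h3 with h5 | h5
      · exact hcon (Or.inl ⟨hQp.mem_of_pow_mem _ h5, h2⟩)
      · exact hcon (Or.inr ⟨h1, hQp.mem_of_pow_mem _ h5⟩)
    · exact hcon (Or.inr ⟨h1, h2⟩)
  rcases hcase with ⟨h1, h2⟩ | ⟨h1, h2⟩
  · left
    refine S.eq_of_box_le h4 (by omega) (iSup_le fun i => ?_)
    fin_cases i
    · exact S.map_pP_le hJ 0 h1 h2
    · exact S.map_pY_le hJ 1
  · right
    refine S.eq_of_box_le h4 (by omega) (iSup_le fun i => ?_)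
    fin_cases i
    · exact S.map_pY_le hJ 0
    · exact S.map_pP_le hJ 1 h1 h2

end MD

end Pool.Agent.RCH.Mn
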