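import Pool.Agent.RCH.Mn4a
import Pool.Agent.RCH.Mn6

/-!
# The product of the divisors of `s`
-/

set_option autoImplicit false

open MvPolynomial

namespace Pool.Agent.RCH.Mn

section pr

variable {ι : Type} (X : WVar ι)

lemma component_prMap (i : Fin 2) (p : Coord ι 1) (e : Fin 1 → ℕ) :
    weightedHomogeneousComponent (X.mdeg 2) (Pi.single i (e 0)) (prMap ι 2 i p) =
      prMap ι 2 i (weightedHomogeneousComponent (X.mdeg 1) e p) := by
  classical
  induction p using MvPolynomial.induction_on' with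
  | monomial u a =>
    have h1 : IsWeightedHomogeneous (X.mdeg 1) (monomial u a : Coord ι 1)
        (Finsupp.weight (X.mdeg 1) u) := isWeightedHomogeneous_monomial _ _ _ rfl
    have h2 := prMap_homogeneous X i h1
    by_cases he : Finsupp.weight (X.mdeg 1) u = e
    · rw [he] at h1 h2
      rw [h2.weightedHomogeneousComponent_same, h1.weightedHomogeneousComponent_same]
    · rw [h1.weightedHomogeneousComponent_ne e (Ne.symm he), map_zero]
      refine h2.weightedHomogeneousComponent_ne _ ?_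
      intro h3
      apply he
      have h4 := congrFun h3 i
      rw [Pi.single_eq_same, Pi.single_eq_same] at h4
      funext k
      have hk : k = 0 := Subsingleton.elim _ _
      rw [hk]
      exact h4.symm
  | add p q hp hq => rw [map_add, map_add, hp, hq, map_add, map_add]

/-- the projection of a point of `X²` to a factor -/
noncomputable def prPt (Q : Pt X 2) (i : Fin 2) : Pt X 1 where
  I := Q.I.comap (prMap ι 2 i).toRingHom
  prime := by
    have := Q.prime
    exact Ideal.comap_isPrime _ _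
  homog := by
    intro p hp e
    have h := Q.homog _ (show prMap ι 2 i p ∈ Q.I from hp) (Pi.single i (e 0))
    rw [component_prMap] at h
    exact h
  relevant := by
    intro k
    obtain ⟨j, hj⟩ := Q.relevant i
    refine ⟨j, fun h => hj ?_⟩
    have h1 : prMap ι 2 i (MvPolynomial.X (k, j)) ∈ Q.I := h
    rwa [prMap, rename_X] at h1
  onX := by
    intro k f hf
    have h1 := Q.onX i f hf
    have h2 : inFactor 2 i f = prMap ι 2 i (inFactor 1 k f) := by
      rw [prMap, inFactor, inFactor, rename_rename]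
      rfl
    rw [h2] at h1
    exact h1

lemma prodId_prPt_le (Q : Pt X 2) : prodId (prPt X Q 0).I (prPt X Q 1).I ≤ Q.I :=
  sup_le (Ideal.map_le_iff_le_comap.2 le_rfl) (Ideal.map_le_iff_le_comap.2 le_rfl)

lemma Pt.ne_top {n : ℕ} (P : Pt X n) : P.I ≠ ⊤ := P.prime.ne_top

variable [Finite ι] (a b : Cycles X 1)

/-- the value of the product of two cycles at a product -/
theorem boxC_of_eq (Q : Pt X 2) (C C' : Pt X 1) (h : Q.I = prodId C.I C'.I) :
    (boxC X ![a, b]) Q = a C * b C' := by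
  classical
  rw [boxC_eq_sum X ![a, b] ![insert C a.support, insert C' b.support] (by
    intro i
    fin_cases i
    · exact Finset.subset_insert _ _
    · exact Finset.subset_insert _ _), Finsupp.finsetSum_apply,
    Finset.sum_eq_single (![C, C'] : Fin 2 → Pt X 1)]
  · rw [Finsupp.smul_apply, box_of_eq X ![C, C'] Q (by rw [boxIdeal_eq_prodId, h]),
      Finsupp.single_eq_same, Fin.prod_univ_two, smul_eq_mul, mul_one]
    rfl
  · intro P hP hne
    have hP' : P = ![P 0, P 1] := by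
      funext i
      fin_cases i <;> rfl
    obtain ⟨P', hP''⟩ := exists_box X P
    rw [Finsupp.smul_apply, box_of_eq X P P' hP'', Finsupp.single_eq_of_ne, smul_zero]
    rintro rfl
    apply hne
    rw [hP', boxIdeal_eq_prodId, h] at hP''
    have h0 : C = P 0 := by
      apply Pt.ext'
      rw [← comap_prodId_left C.I C'.I C'.prime.ne_top, hP'',
        comap_prodId_left _ _ (P 1).prime.ne_top]
    have h1 : C' = P 1 := by
      apply Pt.ext'
      rw [← comap_prodId_right C.I C'.I C.prime.ne_top, hP'',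
        comap_prodId_right _ _ (P 0).prime.ne_top]
    rw [hP', h0, h1]
  · intro hP
    exfalso
    apply hP
    rw [Fintype.mem_piFinset]
    intro i
    fin_cases i
    · exact Finset.mem_insert_self _ _
    · exact Finset.mem_insert_self _ _

/-- the support of the product of two cycles -/
theorem boxC_ne_zero {Q : Pt X 2} (h : (boxC X ![a, b]) Q ≠ 0) :
    ∃ C C' : Pt X 1, a C ≠ 0 ∧ b C' ≠ 0 ∧ Q.I = prodId C.I C'.I := by
  classical
  rw [boxC, Finsupp.finsetSum_apply] at h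
  obtain ⟨P, hP, hne⟩ := Finset.exists_ne_zero_of_sum_ne_zero h
  have hP' : P = ![P 0, P 1] := by
    funext i
    fin_cases i <;> rfl
  rw [Fintype.mem_piFinset] at hP
  refine ⟨P 0, P 1, Finsupp.mem_support_iff.1 (hP 0), Finsupp.mem_support_iff.1 (hP 1), ?_⟩
  obtain ⟨P', hP''⟩ := exists_box X P
  rw [Finsupp.smul_apply, box_of_eq X P P' hP''] at hne
  have h1 : P' = Q := by
    by_contra hne'
    apply hne
    rw [Finsupp.single_eq_of_ne (Ne.symm hne'), smul_zero]
  rw [← h1, hP'', hP', boxIdeal_eq_prodId]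
  rfl

end pr

namespace MD

variable (S : MD)

lemma sI_eq : S.sI = S.pY.I ⊔ Ideal.span {X (0, 1)} := rfl

lemma X01_mem_sI : (X (0, 1) : Coord (Fin 5) 1) ∈ S.sI :=
  Ideal.mem_sup_right (Ideal.subset_span rfl)

/-- the curves in `s = 0` -/
lemma lev_sI {C : Pt S.V 1} (h : S.sI ≤ C.I) : lev C ≤ 2 ∧ (lev C = 2 → CodimOne S.pY.I C.I) := by
  have hC := C.prime
  have hY := S.pY.prime
  have h1 : S.pY.I ≤ C.I := le_trans le_sup_left h
  have h2 : S.pY.I < C.I := by
    refine lt_of_le_of_ne h1 ?_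
    intro h3
    apply S.s_notMem
    rw [h3]
    exact h S.X01_mem_sI
  have h3 : lev C < lev S.pY := Dg.td_lt_of_lt h2
  rw [S.lev_pY] at h3
  refine ⟨by omega, fun h4 => ?_⟩
  rw [codimOne_iff_td h1]
  have h5 : Dg.td (Coord (Fin 5) 1 ⧸ S.pY.I) = 3 := S.lev_pY
  have h6 : Dg.td (Coord (Fin 5) 1 ⧸ C.I) = 2 := h4
  omega

lemma ds_eq (C : Pt S.V 1) (h : CodimOne S.pY.I C.I) :
    S.ds C = haveI := C.prime; ((len C.I (Coord (Fin 5) 1 ⧸ S.sI)).toNat : ℤ) := by
  have hC := C.prime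
  have h5 := S.isDivisor_ds C
  rw [if_pos h] at h5
  have h6 : (ordAt S.pY.I C.I (1 : Coord (Fin 5) 1)) = 0 := by
    rw [← len_ordAt, Ideal.span_singleton_one, sup_top_eq]
    have : Subsingleton (Coord (Fin 5) 1 ⧸ (⊤ : Ideal (Coord (Fin 5) 1))) :=
      Ideal.Quotient.subsingleton_iff.2 rfl
    exact len_eq_zero C.I
  rw [h5, h6, ← len_ordAt, ENat.toNat_zero, S.sI_eq]
  simp

lemma ds_ne_zero {C : Pt S.V 1} (h : S.ds C ≠ 0) : CodimOne S.pY.I C.I ∧ S.sI ≤ C.I := by
  have hC := C.prime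
  have h1 : CodimOne S.pY.I C.I := by
    by_contra h1
    apply h
    have h5 := S.isDivisor_ds C
    rwa [if_neg h1] at h5
  refine ⟨h1, ?_⟩
  by_contra h2
  apply h
  rw [S.ds_eq C h1, len_prime_zero C.I h2]
  rfl

lemma lev_of_ds {C : Pt S.V 1} (h : S.ds C ≠ 0) : lev C = 2 := by
  have hC := C.prime
  have hY := S.pY.prime
  obtain ⟨h1, h2⟩ := S.ds_ne_zero h
  have h3 := (codimOne_iff_td h1.1.le).1 h1
  have h5 : Dg.td (Coord (Fin 5) 1 ⧸ S.pY.I) = 3 := S.lev_pY
  have h6 : lev C = Dg.td (Coord (Fin 5) 1 ⧸ C.I) := rfl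
  omega

lemma prodId_le_of_ds {Q : Pt S.V 2} (h : (boxC S.V ![S.ds, S.ds]) Q ≠ 0) :
    prodId S.sI S.sI ≤ Q.I := by
  obtain ⟨C, C', hC, hC', hQ⟩ := boxC_ne_zero S.V S.ds S.ds h
  rw [hQ]
  exact prodId_mono (S.ds_ne_zero hC).2 (S.ds_ne_zero hC').2

/-- **The multiplicities of the product of the divisors of `s`.** -/
theorem len_prod {Q : Pt S.V 2} (h4 : lev Q = 4) :
    (haveI := Q.prime; ((len Q.I (Coord (Fin 5) 2 ⧸ prodId S.sI S.sI)).toNat : ℤ)) =
      (boxC S.V ![S.ds, S.ds]) Q := by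
  have hQ := Q.prime
  by_cases hle : prodId S.sI S.sI ≤ Q.I
  · set q0 := prPt S.V Q 0 with hq0
    set q1 := prPt S.V Q 1 with hq1
    have hp0 := q0.prime
    have hp1 := q1.prime
    have h0 : S.sI ≤ q0.I := fun f hf => hle (mem_prodId_left S.sI hf)
    have h1 : S.sI ≤ q1.I := fun f hf => hle (mem_prodId_right S.sI hf)
    obtain ⟨P, hP⟩ := exists_box (X := S.V) ![q0, q1]
    have hPp := P.prime
    have h5 := lev_box S.wt_pos q0 q1 P hP
    rw [boxIdeal_eq_prodId] at hP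
    have h6 := (S.lev_sI h0).1
    have h7 := (S.lev_sI h1).1
    have h8 : P.I ≤ Q.I := by
      rw [hP]
      exact prodId_prPt_le S.V Q
    have h9 : P.I = Q.I := by
      rcases h8.lt_or_eq with h9 | h9
      · exfalso
        have h10 : lev Q < lev P := Dg.td_lt_of_lt h9
        omega
      · exact h9
    have h10 : P = Q := Pt.ext' S.V h9
    rw [h10] at h5 hP
    have h11 : lev q0 = 2 := by omega
    have h12 : lev q1 = 2 := by omega
    rw [boxC_of_eq S.V S.ds S.ds Q q0 q1 hP, S.ds_eq q0 ((S.lev_sI h0).2 h11),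
      S.ds_eq q1 ((S.lev_sI h1).2 h12)]
    have hpr : (prodId q0.I q1.I).IsPrime := hP ▸ hQ
    have h13 : len Q.I (Coord (Fin 5) 2 ⧸ prodId S.sI S.sI) =
        len (prodId q0.I q1.I) (Coord (Fin 5) 2 ⧸ prodId S.sI S.sI) := by
      congr 1
    rw [h13, len_prodId, ENat.toNat_mul]
    push_cast
    rfl
  · rw [len_prime_zero Q.I hle]
    by_contra h
    exact hle (S.prodId_le_of_ds (Ne.symm h))

/-- the curves in `s = 0` are not in `t = 0` -/
lemma t_notMem {Q : Pt S.V 2} {C C' : Pt S.V 1} (hC : S.ds C ≠ 0) (hC' : S.ds C' ≠ 0)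
    (hQ : Q.I = prodId C.I C'.I) :
    (X (0, 2) : Coord (Fin 5) 2) ∉ Q.I ∧ (X (1, 2) : Coord (Fin 5) 2) ∉ Q.I := by
  have hQp := Q.prime
  have hCp := C.prime
  have hCp' := C'.prime
  have hPp := S.pP.prime
  have hle : prodId S.sI S.sI ≤ Q.I := by
    rw [hQ]
    exact prodId_mono (S.ds_ne_zero hC).2 (S.ds_ne_zero hC').2
  have hlev : ∀ D : Pt S.V 1, S.ds D ≠ 0 → ¬ S.pP.I ≤ D.I := by
    intro D hD h
    have hDp := D.prime
    have h1 := S.lev_of_ds hD
    have h2 : lev D ≤ lev S.pP := by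
      rcases h.lt_or_eq with h3 | h3
      · exact (Dg.td_lt_of_lt h3).le
      · rw [Pt.ext' S.V h3]
    rw [S.lev_pP] at h2
    omega
  have hX : ∀ (i : Fin 2) (j : Fin 5), prMap (Fin 5) 2 i (X ((0 : Fin 1), j)) = X (i, j) := by
    intro i j
    rw [prMap, rename_X]
  have hF : ∀ i, inFactor 2 i S.F ∈ Q.I := fun i => S.F_mem Q i
  constructor
  · intro h2
    have h1 : (X (0, 1) : Coord (Fin 5) 2) ∈ Q.I := hle S.X01_mem
    have h3 : (X (0, 3) : Coord (Fin 5) 2) ∈ Q.I := hle S.X03_mem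
    have h4 := S.y_mem hQp 0 (hF 0) h1 h2 h3
    apply hlev C hC
    have hcom : C.I = Q.I.comap (prMap (Fin 5) 2 0).toRingHom := by
      rw [hQ, comap_prodId_left C.I C'.I hCp'.ne_top]
    rw [hcom]
    change Ideal.span {X (0, 1), X (0, 2), X (0, 3), X (0, 4)} ≤ _
    rw [Ideal.span_le]
    rintro x (rfl | rfl | rfl | rfl)
    · change prMap (Fin 5) 2 0 (X ((0 : Fin 1), (1 : Fin 5))) ∈ Q.I
      rw [hX]
      exact h1
    · change prMap (Fin 5) 2 0 (X ((0 : Fin 1), (2 : Fin 5))) ∈ Q.I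
      rw [hX]
      exact h2
    · change prMap (Fin 5) 2 0 (X ((0 : Fin 1), (3 : Fin 5))) ∈ Q.I
      rw [hX]
      exact h3
    · change prMap (Fin 5) 2 0 (X ((0 : Fin 1), (4 : Fin 5))) ∈ Q.I
      rw [hX]
      exact h4
  · intro h2
    have h1 : (X (1, 1) : Coord (Fin 5) 2) ∈ Q.I := hle S.X11_mem
    have h3 : (X (1, 3) : Coord (Fin 5) 2) ∈ Q.I := hle S.X13_mem
    have h4 := S.y_mem hQp 1 (hF 1) h1 h2 h3
    apply hlev C' hC'
    have hcom : C'.I = Q.I.comap (prMap (Fin 5) 2 1).toRingHom := by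
      rw [hQ, comap_prodId_right C.I C'.I hCp.ne_top]
    rw [hcom]
    change Ideal.span {X (0, 1), X (0, 2), X (0, 3), X (0, 4)} ≤ _
    rw [Ideal.span_le]
    rintro x (rfl | rfl | rfl | rfl)
    · change prMap (Fin 5) 2 1 (X ((0 : Fin 1), (1 : Fin 5))) ∈ Q.I
      rw [hX]
      exact h1
    · change prMap (Fin 5) 2 1 (X ((0 : Fin 1), (2 : Fin 5))) ∈ Q.I
      rw [hX]
      exact h2
    · change prMap (Fin 5) 2 1 (X ((0 : Fin 1), (3 : Fin 5))) ∈ Q.I
      rw [hX]
      exact h3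
    · change prMap (Fin 5) 2 1 (X ((0 : Fin 1), (4 : Fin 5))) ∈ Q.I
      rw [hX]
      exact h4

theorem ds_good {Q : Pt S.V 2} (h : (boxC S.V ![S.ds, S.ds]) Q ≠ 0) : lev Q = 4 ∧ S.Good Q := by
  obtain ⟨C, C', hC, hC', hQ⟩ := boxC_ne_zero S.V S.ds S.ds h
  refine ⟨?_, Or.inr (S.t_notMem hC hC' hQ)⟩
  have h1 := lev_box S.wt_pos C C' Q (by rw [boxIdeal_eq_prodId, hQ])
  rw [h1, S.lev_of_ds hC, S.lev_of_ds hC']

end MD

end Pool.Agent.RCH.Mn
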