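import Pool.Agent.RCH.Mn4b
import Pool.Agent.RCH.Mn4c

/-!
# Row M4: the module of `s = 0`
-/

set_option autoImplicit false

open MvPolynomial

namespace Pool.Agent.RCH.Mn

namespace MD

variable (S : MD)

theorem Js_eq {Q : Pt S.V 2} (h4 : lev Q = 4) (hQ : S.Good Q) :
    clz S.Js Q = S.q * (boxC S.V ![S.ds, S.ds]) Q := by
  have hQp := Q.prime
  have hwt : S.V.wt = S.wt := rfl
  rcases hQ with ⟨h0, h1⟩ | ⟨h0, h1⟩
  · have h2 : ¬ prodId S.sI S.sI ≤ Q.I := fun h => h0 (h S.X01_mem)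
    have h3 : cl S.V.wt S.Js Q.I = 0 := by
      exact cl_eq_zero Q.I fun h => h2 (le_trans S.prodId_le_ker h)
    have h5 : (boxC S.V ![S.ds, S.ds]) Q = 0 := by
      by_contra h
      exact h2 (S.prodId_le_of_ds h)
    rw [clz, h3, h5, mul_zero]
    rfl
  · have h2 := S.cl_Js Q.I h0 h1
    rw [clz, hwt, h2, ENat.toNat_mul, ENat.toNat_natCast, ← S.len_prod h4]
    push_cast
    rfl

end MD

end Pool.Agent.RCH.Mn
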