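import Pool.Agent.RCH.MnTT
import Pool.Agent.RCH.Mn8
import Pool.Agent.RCH.MBoxLen

/-!
# The module of `s = 0`: comparison with the product
-/

set_option autoImplicit false

open MvPolynomial

namespace Pool.Agent.RCH.Mn

section scale

/-- scaling the arguments of a weighted homogeneous polynomial -/
theorem eval₂_scale {σ R : Type} [CommRing R] (κ : ℂ →+* R) {w : σ → ℕ}
    {F : MvPolynomial σ ℂ} {d : ℕ} (hF : IsWeightedHomogeneous w F d) (a : σ → R) (t : R) :
    eval₂ κ (fun j => a j * t ^ w j) F = t ^ d * eval₂ κ a F := by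
  rw [eval₂_eq, eval₂_eq, Finset.mul_sum]
  refine Finset.sum_congr rfl fun m hm => ?_
  have h1 : Finsupp.weight w m = d := hF (mem_support_iff.mp hm)
  have h2 : ∏ i ∈ m.support, (a i * t ^ w i) ^ m i =
      (∏ i ∈ m.support, a i ^ m i) * t ^ d := by
    rw [← h1, Finsupp.weight_apply, Finsupp.sum, ← Finset.prod_pow_eq_pow_sum,
      ← Finset.prod_mul_distrib]
    refine Finset.prod_congr rfl fun i _ => ?_
    rw [mul_pow, ← pow_mul, smul_eq_mul, mul_comm (w i)]
  rw [h2]
  ring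

/-- a ring embeds in the ring obtained by adjoining a root of a unit -/
lemma of_injective {B : Type} [CommRing B] {q : ℕ} (hq : 1 ≤ q) (u : B) :
    Function.Injective (AdjoinRoot.of (Polynomial.X ^ q - Polynomial.C u : Polynomial B)) := by
  rcases subsingleton_or_nontrivial B with hB | hB
  · intro x y _
    exact Subsingleton.elim _ _
  rw [injective_iff_map_eq_zero]
  intro x hx
  by_contra hne
  have hm : (Polynomial.X ^ q - Polynomial.C u : Polynomial B).Monic :=
    Polynomial.monic_X_pow_sub_C u (by omega)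
  have h1 : (Polynomial.X ^ q - Polynomial.C u : Polynomial B) ∣ Polynomial.C x := by
    rw [← AdjoinRoot.mk_eq_zero]
    exact hx
  refine hm.not_dvd_of_degree_lt (Polynomial.C_ne_zero.mpr hne) ?_ h1
  rw [Polynomial.degree_X_pow_sub_C (by omega)]
  exact lt_of_le_of_lt Polynomial.degree_C_le (by exact_mod_cast hq)

end scale

namespace MD

variable (S : MD)

section ker

variable {B : Type} [CommRing B] (ε : Coord (Fin 5) 2 →+* B)

/-- a homomorphism which kills the equations of `{s = 0} × {s = 0}` on `Y × Y` and for which `t` is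
invertible at both points kills the kernel of `φ` -/
theorem ker_phi_Js_le (h0 : ε (X (0, 1)) = 0) (h1 : ε (X (1, 1)) = 0) (h2 : ε (X (0, 3)) = 0)
    (h3 : ε (X (1, 3)) = 0) (h4 : eval₂ (ε.comp C) (fun j => ε (X (0, j))) S.F = 0)
    (h5 : eval₂ (ε.comp C) (fun j => ε (X (1, j))) S.F = 0) (h6 : IsUnit (ε (X (0, 2))))
    (h7 : IsUnit (ε (X (1, 2)))) : RingHom.ker (phi S.wt S.Js) ≤ RingHom.ker ε := by
  obtain ⟨u0, hu0⟩ := h6
  obtain ⟨u1, hu1⟩ := h7
  set u : Bˣ := u1 * u0⁻¹ with hu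
  let f : Polynomial B := Polynomial.X ^ S.q - Polynomial.C (u : B)
  let ι : B →+* AdjoinRoot f := AdjoinRoot.of f
  have hroot : (AdjoinRoot.root f) ^ S.q = ι (u : B) := by
    have h8 := AdjoinRoot.eval₂_root f
    rw [Polynomial.eval₂_sub, Polynomial.eval₂_pow, Polynomial.eval₂_X, Polynomial.eval₂_C,
      sub_eq_zero] at h8
    exact h8
  have hq : S.q ≠ 0 := by
    have := S.hq
    omega
  have hunit : IsUnit (AdjoinRoot.root f) := by
    rw [← isUnit_pow_iff hq, hroot]
    exact (Units.isUnit u).map ι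
  obtain ⟨θ, hθ⟩ := hunit
  have hθq : ((θ : AdjoinRoot f)) ^ S.q * ι (ε (X (0, 2))) = ι (ε (X (1, 2))) := by
    rw [hθ, hroot, ← map_mul, ← hu0, ← hu1, hu, Units.val_mul, mul_assoc, Units.inv_mul, mul_one]
  let κ : ℂ →+* AdjoinRoot f := ι.comp (ε.comp C)
  let g : Fin 7 → AdjoinRoot f := ![ι (ε (X (0, 0))), ι (ε (X (1, 0))) * (↑(θ⁻¹) : AdjoinRoot f) ^ S.N,
    0, ι (ε (X (0, 2))), 0, ι (ε (X (0, 4))), ι (ε (X (1, 4))) * (↑(θ⁻¹) : AdjoinRoot f) ^ S.r]
  let β : R7 →+* AdjoinRoot f := eval₂Hom κ g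
  have hβX : ∀ j, β (X j) = g j := fun j => eval₂Hom_X' κ g j
  have hinv : ∀ n : ℕ, (↑(θ⁻¹) : AdjoinRoot f) ^ n * (θ : AdjoinRoot f) ^ n = 1 := by
    intro n
    rw [← mul_pow, Units.inv_mul, one_pow]
  have hal : ∀ j, β (al j) = ι (ε (X (0, j))) := by
    intro j
    fin_cases j
    · exact hβX 0
    · exact (hβX 2).trans (by change (0 : AdjoinRoot f) = ι (ε (X (0, 1))); rw [h0, map_zero])
    · exact hβX 3
    · exact (hβX 4).trans (by change (0 : AdjoinRoot f) = ι (ε (X (0, 3))); rw [h2, map_zero])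
    · exact hβX 5
  have hbe : ∀ j, β (be j) * (θ : AdjoinRoot f) ^ S.wt j = ι (ε (X (1, j))) := by
    intro j
    fin_cases j
    · change β (X 1) * (θ : AdjoinRoot f) ^ S.N = ι (ε (X (1, 0)))
      rw [hβX]
      change ι (ε (X (1, 0))) * (↑(θ⁻¹) : AdjoinRoot f) ^ S.N * (θ : AdjoinRoot f) ^ S.N = _
      rw [mul_assoc, hinv, mul_one]
    · change β (X 2) * (θ : AdjoinRoot f) ^ S.p = ι (ε (X (1, 1)))
      rw [hβX, h1, map_zero]
      exact zero_mul _
    · change β (X 3) * (θ : AdjoinRoot f) ^ S.q = ι (ε (X (1, 2)))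
      rw [hβX]
      change ι (ε (X (0, 2))) * (θ : AdjoinRoot f) ^ S.q = _
      rw [mul_comm, hθq]
    · change β (X 4) * (θ : AdjoinRoot f) ^ S.w = ι (ε (X (1, 3)))
      rw [hβX, h3, map_zero]
      exact zero_mul _
    · change β (X 6) * (θ : AdjoinRoot f) ^ S.r = ι (ε (X (1, 4)))
      rw [hβX]
      change ι (ε (X (1, 4))) * (↑(θ⁻¹) : AdjoinRoot f) ^ S.r * (θ : AdjoinRoot f) ^ S.r = _
      rw [mul_assoc, hinv, mul_one]
  have hβaeval : ∀ (a : Fin 5 → R7), β (aeval a S.F) = eval₂ κ (fun j => β (a j)) S.F := by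
    intro a
    have h8 : β.comp ((aeval a : MvPolynomial (Fin 5) ℂ →ₐ[ℂ] R7) : MvPolynomial (Fin 5) ℂ →+* R7) =
        eval₂Hom κ (fun j => β (a j)) := by
      apply MvPolynomial.ringHom_ext
      · intro c
        rw [RingHom.comp_apply]
        change β (aeval a (C c)) = _
        rw [aeval_C, eval₂Hom_C]
        exact eval₂Hom_C κ g c
      · intro j
        rw [RingHom.comp_apply]
        change β (aeval a (X j)) = _
        rw [aeval_X, eval₂Hom_X']
    exact congrArg (fun φ => φ S.F) h8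
  have hιeval : ∀ (a : Fin 5 → B), eval₂ κ (fun j => ι (a j)) S.F = ι (eval₂ (ε.comp C) a S.F) := by
    intro a
    exact (eval₂_comp_left ι (ε.comp C) a S.F).symm
  have hker : S.Js ≤ RingHom.ker β := by
    rw [MD.Js, MD.JU, sup_le_iff, Ideal.span_le, Ideal.span_le]
    refine ⟨?_, ?_⟩
    · rintro x (rfl | rfl | rfl)
      · exact hβX 4
      · change β S.Fa = 0
        rw [MD.Fa, hβaeval]
        simp only [hal]
        rw [hιeval, h4, map_zero]
      · change β S.Fb = 0
        rw [MD.Fb, hβaeval]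
        have h8 := eval₂_scale κ S.hF (fun j => β (be j)) (θ : AdjoinRoot f)
        have h9 : (fun j => β (be j) * (θ : AdjoinRoot f) ^ (![S.N, S.p, S.q, S.w, S.r] j)) =
            fun j => ι (ε (X (1, j))) := funext fun j => hbe j
        rw [h9, hιeval, h5, map_zero] at h8
        have h10 : IsUnit ((θ : AdjoinRoot f) ^ S.d) := (Units.isUnit θ).pow _
        exact (h10.mul_right_eq_zero).mp h8.symm
    · rintro x rfl
      exact hβX 2
  let βJ : (R7 ⧸ S.Js) →+* AdjoinRoot f := Ideal.Quotient.lift S.Js β hker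
  let βT : LaurentPolynomial (R7 ⧸ S.Js) →+* AdjoinRoot f := LaurentPolynomial.eval₂ βJ θ
  have hβT : ∀ p : Coord (Fin 5) 2, βT (phi S.wt S.Js p) = ι (ε p) := by
    intro p
    have h8 : βT.comp (phi S.wt S.Js).toRingHom = ι.comp ε := by
      apply MvPolynomial.ringHom_ext
      · intro c
        rw [RingHom.comp_apply, RingHom.comp_apply]
        change βT (phi S.wt S.Js (C c)) = _
        have h9 : phi S.wt S.Js (C c) = LaurentPolynomial.C (Ideal.Quotient.mk S.Js (C c)) :=
          (phi S.wt S.Js).commutes c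
        rw [h9]
        change LaurentPolynomial.eval₂ βJ θ (LaurentPolynomial.C _) = _
        rw [LaurentPolynomial.eval₂_C]
        change β (C c) = _
        exact eval₂Hom_C κ g c
      · rintro ⟨k, j⟩
        rw [RingHom.comp_apply, RingHom.comp_apply]
        change βT (phi S.wt S.Js (X (k, j))) = _
        rw [phi, aeval_X]
        by_cases hk : k = 0
        · subst hk
          rw [if_pos rfl]
          change LaurentPolynomial.eval₂ βJ θ (LaurentPolynomial.C _) = _
          rw [LaurentPolynomial.eval₂_C]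
          exact hal j
        · have hk1 : k = 1 := by omega
          subst hk1
          rw [if_neg (by exact one_ne_zero)]
          change LaurentPolynomial.eval₂ βJ θ (LaurentPolynomial.C _ * LaurentPolynomial.T _) = _
          rw [LaurentPolynomial.eval₂_C_mul_T_n]
          exact hbe j
    exact congrArg (fun φ => φ p) h8
  intro p hp
  rw [RingHom.mem_ker] at hp ⊢
  have h8 := hβT p
  have h9 : phi S.wt S.Js p = 0 := hp
  rw [h9, map_zero] at h8
  exact of_injective S.hq (u : B) (by rw [← h8, map_zero])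

end ker

/-- the ideal of the curve `s = 0` on `Y` -/
noncomputable def sI : Ideal (Coord (Fin 5) 1) := S.secI ⊔ Ideal.span {X (0, 1)}

section len

lemma X01_mem : (X (0, 1) : Coord (Fin 5) 2) ∈ prodId S.sI S.sI := by
  have h := mem_prodId_left S.sI (f := (X (0, 1) : Coord (Fin 5) 1)) (I := S.sI)
    (Ideal.mem_sup_right (Ideal.subset_span rfl))
  rwa [prMap, rename_X] at h

lemma X11_mem : (X (1, 1) : Coord (Fin 5) 2) ∈ prodId S.sI S.sI := by
  have h := mem_prodId_right S.sI (f := (X (0, 1) : Coord (Fin 5) 1)) (K := S.sI)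
    (Ideal.mem_sup_right (Ideal.subset_span rfl))
  rwa [prMap, rename_X] at h

lemma X3_mem_sI : (X (0, 3) : Coord (Fin 5) 1) ∈ S.sI := by
  refine Ideal.mem_sup_left (Ideal.subset_span (Or.inl ?_))
  rw [inFactor, rename_X]

lemma F_mem_sI : inFactor 1 0 S.F ∈ S.sI :=
  Ideal.mem_sup_left (Ideal.subset_span (Or.inr rfl))

lemma X03_mem : (X (0, 3) : Coord (Fin 5) 2) ∈ prodId S.sI S.sI := by
  have h := mem_prodId_left S.sI (f := (X (0, 3) : Coord (Fin 5) 1)) (I := S.sI) S.X3_mem_sI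
  rwa [prMap, rename_X] at h

lemma X13_mem : (X (1, 3) : Coord (Fin 5) 2) ∈ prodId S.sI S.sI := by
  have h := mem_prodId_right S.sI (f := (X (0, 3) : Coord (Fin 5) 1)) (K := S.sI) S.X3_mem_sI
  rwa [prMap, rename_X] at h

lemma prMap_inFactor (k : Fin 2) (f : MvPolynomial (Fin 5) ℂ) :
    prMap (Fin 5) 2 k (inFactor 1 0 f) = inFactor 2 k f := by
  rw [prMap, inFactor, rename_rename]
  rfl

lemma F0_mem : inFactor 2 0 S.F ∈ prodId S.sI S.sI := by
  rw [← prMap_inFactor]
  exact mem_prodId_left S.sI S.F_mem_sI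

lemma F1_mem : inFactor 2 1 S.F ∈ prodId S.sI S.sI := by
  rw [← prMap_inFactor]
  exact mem_prodId_right S.sI S.F_mem_sI

lemma eval_inFactor {B : Type} [CommRing B] (ε : Coord (Fin 5) 2 →+* B) (k : Fin 2)
    (f : MvPolynomial (Fin 5) ℂ) :
    ε (inFactor 2 k f) = eval₂ (ε.comp C) (fun j => ε (X (k, j))) f := by
  have h : ε.comp ((inFactor 2 k : MvPolynomial (Fin 5) ℂ →ₐ[ℂ] Coord (Fin 5) 2) :
      MvPolynomial (Fin 5) ℂ →+* Coord (Fin 5) 2) = eval₂Hom (ε.comp C) (fun j => ε (X (k, j))) := by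
    apply MvPolynomial.ringHom_ext
    · intro c
      rw [RingHom.comp_apply, eval₂Hom_C]
      change ε (inFactor 2 k (C c)) = _
      rw [inFactor, rename_C]
      rfl
    · intro j
      rw [RingHom.comp_apply, eval₂Hom_X']
      change ε (inFactor 2 k (X j)) = _
      rw [inFactor, rename_X]
  exact congrArg (fun φ => φ f) h

/-- the equations of `{s = 0} × {s = 0}` are in the kernel of `φ` -/
theorem prodId_le_ker : prodId S.sI S.sI ≤ RingHom.ker (phi S.wt S.Js) := by
  have hX2 : (X 2 : R7) ∈ S.Js := Ideal.mem_sup_right (Ideal.subset_span rfl)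
  have hX4 : (X 4 : R7) ∈ S.Js := Ideal.mem_sup_left (Ideal.subset_span (Or.inl rfl))
  have hFa : S.Fa ∈ S.Js := Ideal.mem_sup_left (Ideal.subset_span (Or.inr (Or.inl rfl)))
  have hFb : S.Fb ∈ S.Js := Ideal.mem_sup_left (Ideal.subset_span (Or.inr (Or.inr rfl)))
  rw [prodId, sup_le_iff, Ideal.map_le_iff_le_comap, Ideal.map_le_iff_le_comap]
  constructor
  · rw [MD.sI, MD.secI, sup_le_iff, Ideal.span_le, Ideal.span_le]
    refine ⟨?_, ?_⟩
    · rintro x (rfl | rfl)
      · change prMap (Fin 5) 2 0 (inFactor 1 0 (X 3)) ∈ RingHom.ker (phi S.wt S.Js)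
        rw [prMap_inFactor, mem_ker_phi, phiL_inFactor0, aeval_X]
        exact LC_mem_LI hX4
      · change prMap (Fin 5) 2 0 (inFactor 1 0 S.F) ∈ RingHom.ker (phi S.wt S.Js)
        rw [prMap_inFactor, mem_ker_phi, phiL_inFactor0]
        exact LC_mem_LI hFa
    · rintro x rfl
      change prMap (Fin 5) 2 0 (X (0, 1)) ∈ RingHom.ker (phi S.wt S.Js)
      rw [prMap, rename_X, mem_ker_phi]
      change phiL S.wt (X (0, 1)) ∈ _
      rw [phiL_X0]
      exact LC_mem_LI hX2
  · rw [MD.sI, MD.secI, sup_le_iff, Ideal.span_le, Ideal.span_le]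
    refine ⟨?_, ?_⟩
    · rintro x (rfl | rfl)
      · change prMap (Fin 5) 2 1 (inFactor 1 0 (X 3)) ∈ RingHom.ker (phi S.wt S.Js)
        rw [prMap_inFactor, inFactor, rename_X, mem_ker_phi, phiL_X1]
        exact Ideal.mul_mem_right _ _ (LC_mem_LI hX4)
      · change prMap (Fin 5) 2 1 (inFactor 1 0 S.F) ∈ RingHom.ker (phi S.wt S.Js)
        rw [prMap_inFactor, mem_ker_phi, phiL_inFactor1 S.wt S.hF]
        exact Ideal.mul_mem_right _ _ (LC_mem_LI hFb)
    · rintro x rfl
      change prMap (Fin 5) 2 1 (X (0, 1)) ∈ RingHom.ker (phi S.wt S.Js)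
      rw [prMap, rename_X, mem_ker_phi]
      change phiL S.wt (X (1, 1)) ∈ _
      rw [phiL_X1]
      exact Ideal.mul_mem_right _ _ (LC_mem_LI hX2)

/-- a homomorphism which kills the ideal of `{s = 0} × {s = 0}` -/
lemma ker_le_of_prodId {B : Type} [CommRing B] (ε : Coord (Fin 5) 2 →+* B)
    (hε : ∀ a ∈ prodId S.sI S.sI, ε a = 0) (h0 : IsUnit (ε (X (0, 2))))
    (h1 : IsUnit (ε (X (1, 2)))) : RingHom.ker (phi S.wt S.Js) ≤ RingHom.ker ε := by
  have h2 := hε _ S.F0_mem
  have h3 := hε _ S.F1_mem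
  rw [eval_inFactor] at h2 h3
  exact S.ker_phi_Js_le ε (hε _ S.X01_mem) (hε _ S.X11_mem) (hε _ S.X03_mem) (hε _ S.X13_mem)
    h2 h3 h0 h1

/-- the length of the image of the ring of two points -/
theorem len_ker (Q : Ideal (Coord (Fin 5) 2)) [Q.IsPrime] (h0 : X (0, 2) ∉ Q)
    (h1 : X (1, 2) ∉ Q) :
    len Q (Coord (Fin 5) 2 ⧸ (RingHom.ker (phi S.wt S.Js) : Ideal (Coord (Fin 5) 2))) =
      len Q (Coord (Fin 5) 2 ⧸ prodId S.sI S.sI) := by
  rw [len_quot, len_quot]
  have heq : (RingHom.ker (phi S.wt S.Js) : Ideal (Coord (Fin 5) 2)).map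
      (algebraMap (Coord (Fin 5) 2) (Localization.AtPrime Q)) = (prodId S.sI S.sI).map
        (algebraMap (Coord (Fin 5) 2) (Localization.AtPrime Q)) := by
    refine le_antisymm ?_ (Ideal.map_mono S.prodId_le_ker)
    rw [Ideal.map_le_iff_le_comap]
    intro p hp
    have hu : ∀ {a : Coord (Fin 5) 2}, a ∉ Q →
        IsUnit (algebraMap (Coord (Fin 5) 2) (Localization.AtPrime Q) a) := fun {a} ha =>
      IsLocalization.map_units (Localization.AtPrime Q) (⟨a, ha⟩ : Q.primeCompl)
    let K : Ideal (Localization.AtPrime Q) := (prodId S.sI S.sI).map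
        (algebraMap (Coord (Fin 5) 2) (Localization.AtPrime Q))
    let ε : Coord (Fin 5) 2 →+* (Localization.AtPrime Q ⧸ K) :=
      (Ideal.Quotient.mk K).comp (algebraMap (Coord (Fin 5) 2) (Localization.AtPrime Q))
    have hu0 : IsUnit (ε (X (0, 2))) := (hu h0).map (Ideal.Quotient.mk K)
    have hu1 : IsUnit (ε (X (1, 2))) := (hu h1).map (Ideal.Quotient.mk K)
    have h2 : p ∈ RingHom.ker ε := S.ker_le_of_prodId (B := Localization.AtPrime Q ⧸ K) ε
      (fun a ha => Ideal.Quotient.eq_zero_iff_mem.mpr (Ideal.mem_map_of_mem _ ha)) hu0 hu1 hp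
    have h3 : Ideal.Quotient.mk K (algebraMap (Coord (Fin 5) 2) (Localization.AtPrime Q) p) = 0 :=
      h2
    rw [Ideal.mem_comap]
    exact Ideal.Quotient.eq_zero_iff_mem.mp h3
  rw [heq]

end len

end MD

end Pool.Agent.RCH.Mn
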