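import Pool.Agent.RCH.Mn1
import Pool.Agent.RCH.Mn4a

/-!
# The module of `s = 0`: the group of roots of unity
-/

set_option autoImplicit false

open MvPolynomial

namespace Pool.Agent.RCH.Mn

section scaling

/-- scaling the variables -/
noncomputable def sc (a : Fin 7 → ℂ) : R7 →ₐ[ℂ] R7 := aeval fun j => C (a j) * X j

lemma sc_X (a : Fin 7 → ℂ) (j : Fin 7) : sc a (X j) = C (a j) * X j := aeval_X _ _

lemma sc_sc (a b : Fin 7 → ℂ) (h : ∀ j, a j * b j = 1) (p : R7) : sc a (sc b p) = p := by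
  have h1 : (sc a).comp (sc b) = AlgHom.id ℂ R7 := by
    apply MvPolynomial.algHom_ext
    intro j
    rw [AlgHom.comp_apply, sc_X, map_mul, sc_X, AlgHom.id_apply]
    have h2 : sc a (C (b j)) = C (b j) := (sc a).commutes (b j)
    rw [h2, ← mul_assoc, ← C_mul, mul_comm (b j), h j, C_1, one_mul]
  exact DFunLike.congr_fun h1 p

/-- scaling the variables, an automorphism -/
noncomputable def scE (a b : Fin 7 → ℂ) (h : ∀ j, a j * b j = 1) : R7 ≃ₐ[ℂ] R7 :=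
  AlgEquiv.ofAlgHom (sc a) (sc b)
    (by
      apply MvPolynomial.algHom_ext
      intro j
      exact sc_sc a b h (X j))
    (by
      apply MvPolynomial.algHom_ext
      intro j
      exact sc_sc b a (fun j => by rw [mul_comm]; exact h j) (X j))

lemma scE_apply (a b : Fin 7 → ℂ) (h : ∀ j, a j * b j = 1) (p : R7) : scE a b h p = sc a p := rfl

/-- congruent arguments -/
lemma aeval_sub_mem {A : Type} [CommRing A] [Algebra ℂ A] {J : Ideal A} {a b : Fin 5 → A}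
    (h : ∀ j, a j - b j ∈ J) (F : MvPolynomial (Fin 5) ℂ) : aeval a F - aeval b F ∈ J := by
  rw [← Ideal.Quotient.mk_eq_mk_iff_sub_mem]
  have h1 : ∀ c : Fin 5 → A, Ideal.Quotient.mk J (aeval c F) =
      aeval (fun j => Ideal.Quotient.mk J (c j)) F := by
    intro c
    have h2 : (Ideal.Quotient.mkₐ ℂ J).comp (aeval c) =
        aeval (fun j => Ideal.Quotient.mk J (c j)) := by
      apply MvPolynomial.algHom_ext
      intro j
      rw [AlgHom.comp_apply, aeval_X, aeval_X]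
      rfl
    exact DFunLike.congr_fun h2 F
  rw [h1, h1]
  congr 2
  ext j
  rw [Ideal.Quotient.mk_eq_mk_iff_sub_mem]
  exact h j

end scaling

namespace MD

variable (S : MD)

/-- the factors by which the variables are scaled -/
noncomputable def fac (ζ : ℂ) : Fin 7 → ℂ := ![1, ζ ^ S.N, 1, 1, 1, 1, ζ ^ S.r]

lemma fac_mul (ζ : ℂ) (hζ : ζ ≠ 0) (j : Fin 7) : S.fac ζ j * S.fac ζ⁻¹ j = 1 := by
  have h : ∀ n : ℕ, ζ ^ n * ζ⁻¹ ^ n = 1 := fun n => by
    rw [← mul_pow, mul_inv_cancel₀ hζ, one_pow]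
  fin_cases j
  · exact mul_one 1
  · exact h S.N
  · exact mul_one 1
  · exact mul_one 1
  · exact mul_one 1
  · exact mul_one 1
  · exact h S.r

lemma sc_al (ζ : ℂ) (j : Fin 5) : sc (S.fac ζ) (al j) = al j := by
  have h : ∀ i : Fin 7, S.fac ζ i = 1 → sc (S.fac ζ) (X i) = X i := fun i hi => by
    rw [sc_X, hi, C_1, one_mul]
  fin_cases j
  · exact h 0 rfl
  · exact h 2 rfl
  · exact h 3 rfl
  · exact h 4 rfl
  · exact h 5 rfl

/-- the second point is scaled, modulo `s` and `ω` -/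
lemma sc_be (ζ : ℂ) (hζ : ζ ≠ 0) (hq : ζ ^ S.q = 1) (j : Fin 5) :
    C (ζ⁻¹ ^ S.wt j) * sc (S.fac ζ) (be j) - be j ∈ Ideal.span {(X 2 : R7), X 4} := by
  have hinv : ∀ n : ℕ, ζ⁻¹ ^ n * ζ ^ n = 1 := fun n => by
    rw [← mul_pow, inv_mul_cancel₀ hζ, one_pow]
  have h2 : ∀ (i : Fin 7) (c : ℂ), (X i : R7) ∈ Ideal.span {(X 2 : R7), X 4} → S.fac ζ i = 1 →
      C c * sc (S.fac ζ) (X i) - X i ∈ Ideal.span {(X 2 : R7), X 4} := fun i c hi h1 => by
    rw [sc_X, h1, C_1, one_mul]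
    exact Ideal.sub_mem _ (Ideal.mul_mem_left _ _ hi) hi
  have h3 : ∀ (i : Fin 7) (n : ℕ), S.fac ζ i = ζ ^ n →
      C (ζ⁻¹ ^ n) * sc (S.fac ζ) (X i) - X i ∈ Ideal.span {(X 2 : R7), X 4} := fun i n h1 => by
    rw [sc_X, h1, ← mul_assoc, ← C_mul, hinv, C_1, one_mul, sub_self]
    exact zero_mem _
  fin_cases j
  · exact h3 1 S.N rfl
  · exact h2 2 _ (Ideal.subset_span (Or.inl rfl)) rfl
  · change C (ζ⁻¹ ^ S.q) * sc (S.fac ζ) (X 3) - X 3 ∈ _
    have h4 : ζ⁻¹ ^ S.q = 1 := by rw [inv_pow, hq, inv_one]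
    have h5 : S.fac ζ 3 = 1 := rfl
    rw [h4, sc_X, h5, C_1, one_mul, one_mul, sub_self]
    exact zero_mem _
  · exact h2 4 _ (Ideal.subset_span (Or.inr rfl)) rfl
  · exact h3 6 S.r rfl

lemma X2_mem_Js : (X 2 : R7) ∈ S.Js := Ideal.mem_sup_right (Ideal.subset_span rfl)

lemma X4_mem_Js : (X 4 : R7) ∈ S.Js := Ideal.mem_sup_left (Ideal.subset_span (Or.inl rfl))

lemma Fa_mem_Js : S.Fa ∈ S.Js := Ideal.mem_sup_left (Ideal.subset_span (Or.inr (Or.inl rfl)))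

lemma Fb_mem_Js : S.Fb ∈ S.Js := Ideal.mem_sup_left (Ideal.subset_span (Or.inr (Or.inr rfl)))

lemma span_le_Js : Ideal.span {(X 2 : R7), X 4} ≤ S.Js := by
  rw [Ideal.span_le]
  rintro x (rfl | rfl)
  · exact S.X2_mem_Js
  · exact S.X4_mem_Js

lemma sc_aeval (a : Fin 7 → ℂ) (b : Fin 5 → R7) (F : MvPolynomial (Fin 5) ℂ) :
    sc a (aeval b F) = aeval (fun j => sc a (b j)) F := by
  have h : (sc a).comp (aeval b) = aeval (fun j => sc a (b j)) := by
    apply MvPolynomial.algHom_ext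
    intro j
    rw [AlgHom.comp_apply, aeval_X, aeval_X]
  exact DFunLike.congr_fun h F

/-- the ideal is stable -/
lemma Js_le (ζ : ℂ) (hζ : ζ ≠ 0) (hq : ζ ^ S.q = 1) : ∀ p ∈ S.Js, sc (S.fac ζ) p ∈ S.Js := by
  have h : S.Js ≤ S.Js.comap (sc (S.fac ζ)) := by
    conv_lhs => rw [MD.Js, MD.JU]
    rw [sup_le_iff, Ideal.span_le, Ideal.span_le]
    refine ⟨?_, ?_⟩
    · rintro x (rfl | rfl | rfl)
      · change sc (S.fac ζ) (X 4) ∈ S.Js
        rw [sc_X]
        exact Ideal.mul_mem_left _ _ S.X4_mem_Js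
      · change sc (S.fac ζ) S.Fa ∈ S.Js
        rw [MD.Fa, sc_aeval]
        simp only [sc_al]
        exact S.Fa_mem_Js
      · change sc (S.fac ζ) S.Fb ∈ S.Js
        rw [MD.Fb, sc_aeval]
        have h1 : aeval (fun j => C (ζ⁻¹ ^ S.wt j) * sc (S.fac ζ) (be j)) S.F - aeval be S.F ∈
            S.Js := S.span_le_Js (aeval_sub_mem (S.sc_be ζ hζ hq) S.F)
        have h2 : aeval (fun j => C (ζ⁻¹ ^ S.wt j) * sc (S.fac ζ) (be j)) S.F =
            (C ζ⁻¹ : R7) ^ S.d * aeval (fun j => sc (S.fac ζ) (be j)) S.F := by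
          have h3 := eval₂_scale (algebraMap ℂ R7) S.hF (fun j => sc (S.fac ζ) (be j)) (C ζ⁻¹ : R7)
          rw [← aeval_def] at h3
          rw [← aeval_def] at h3
          rw [← h3]
          congr 2
          ext1 j
          rw [mul_comm, C_pow]
          rfl
        rw [h2] at h1
        have h4 : (C ζ⁻¹ : R7) ^ S.d * aeval (fun j => sc (S.fac ζ) (be j)) S.F ∈ S.Js := by
          have h5 := Ideal.add_mem _ h1 S.Fb_mem_Js
          rwa [MD.Fb, sub_add_cancel] at h5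
        have h6 := Ideal.mul_mem_left S.Js ((C ζ : R7) ^ S.d) h4
        rwa [← mul_assoc, ← mul_pow, ← C_mul, mul_inv_cancel₀ hζ, C_1, one_pow, one_mul] at h6
    · rintro x rfl
      change sc (S.fac ζ) (X 2) ∈ S.Js
      rw [sc_X]
      exact Ideal.mul_mem_left _ _ S.X2_mem_Js
  exact fun p hp => h hp

lemma wt_two : S.wt 2 = S.q := rfl

lemma al_two : al 2 = X 3 := rfl

lemma be_two : be 2 = X 3 := rfl

/-- `t` at the second point -/
lemma phi_t : phi S.wt S.Js (X (1, 2)) =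
    phi S.wt S.Js (X (0, 2)) * LaurentPolynomial.T (S.q : ℤ) := by
  have h0 := phi_X0 (wt := S.wt) (J := S.Js) 2
  have h1 := phi_X1 (wt := S.wt) (J := S.Js) 2
  rw [h0, h1, be_two, al_two, wt_two]

/-- **The module of `s = 0` and the product.** -/
theorem cl_Js (Q : Ideal (Coord (Fin 5) 2)) [Q.IsPrime] (h0 : X (0, 2) ∉ Q)
    (h1 : X (1, 2) ∉ Q) :
    cl S.wt S.Js Q = S.q * len Q (Coord (Fin 5) 2 ⧸ prodId S.sI S.sI) := by
  have hq0 : S.q ≠ 0 := by
    have := S.hq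
    omega
  have hξ := Complex.isPrimitiveRoot_exp S.q hq0
  set ξ : ℂ := Complex.exp (2 * Real.pi * Complex.I / S.q) with hξdef
  have hξ0 : ξ ≠ 0 := hξ.ne_zero hq0
  have hξ0' : ξ⁻¹ ≠ 0 := inv_ne_zero hξ0
  have hξq : ξ⁻¹ ^ S.q = 1 := by rw [inv_pow, hξ.pow_eq_one, inv_one]
  have hmul : ∀ j, S.fac ξ⁻¹ j * S.fac ξ j = 1 := fun j => by
    have := S.fac_mul ξ⁻¹ hξ0' j
    rwa [inv_inv] at this
  rw [← S.len_ker Q h0 h1]
  refine cl_grad Q (scE (S.fac ξ⁻¹) (S.fac ξ) hmul) ?_ S.hq hξ ?_ ?_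
    (s₁ := X (0, 2)) (s₂ := X (1, 2)) ?_ h0 h1
  · apply le_antisymm
    · rw [Ideal.map_le_iff_le_comap]
      intro p hp
      exact S.Js_le ξ⁻¹ hξ0' hξq p hp
    · intro p hp
      have h2 := S.Js_le ξ hξ0 hξ.pow_eq_one p hp
      have h3 := Ideal.mem_map_of_mem (scE (S.fac ξ⁻¹) (S.fac ξ) hmul) h2
      rwa [scE_apply, sc_sc _ _ hmul] at h3
  · intro j
    rw [scE_apply, S.sc_al, sub_self]
    exact zero_mem _
  · intro j
    have h2 := S.sc_be ξ⁻¹ hξ0' hξq j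
    rw [inv_inv] at h2
    exact S.span_le_Js h2
  · exact S.phi_t

end MD

end Pool.Agent.RCH.Mn
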