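import Pool.Agent.RCH.MZG
import Pool.Agent.RCH.Mn6

/-!
# Row M5: the module of `A = B = 0`
-/

set_option autoImplicit false

open MvPolynomial

namespace Pool.Agent.RCH.MZ

open Pool.Agent.RCH.Dg (Hom td)
open Pool.Agent.RCH.Mn

lemma len_congr_prime {R M : Type} [CommRing R] [AddCommGroup M] [Module R M] {Q Q' : Ideal R}
    [Q.IsPrime] [Q'.IsPrime] (h : Q = Q') : len Q M = len Q' M := by
  subst h
  rfl

lemma td_le_of_le {R : Type} [CommRing R] [Algebra ℂ R] [Algebra.FiniteType ℂ R] {P Q : Ideal R}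
    (h : P ≤ Q) : td (R ⧸ Q) ≤ td (R ⧸ P) :=
  td_le_of_surjective (Ideal.Quotient.factorₐ ℂ h) (Ideal.Quotient.factor_surjective h)

variable (S : MD)

section G

variable {q : Ideal (MvPolynomial (Fin 3) ℂ)} {C : Pt S.V 1}

lemma X1_mem_iff (hqC : Lq e5 q = C.I) : (X (0, 1) : Coord (Fin 5) 1) ∈ C.I ↔ X 0 ∈ q := by
  rw [← hqC, mem_Lq, val1_X]
  exact X_mem_ext

lemma X2_mem_iff (hqC : Lq e5 q = C.I) : (X (0, 2) : Coord (Fin 5) 1) ∈ C.I ↔ X 1 ∈ q := by
  rw [← hqC, mem_Lq, val1_X]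
  exact X_mem_ext

lemma X4_mem_iff (hqC : Lq e5 q = C.I) : (X (0, 4) : Coord (Fin 5) 1) ∈ C.I ↔ X 2 ∈ q := by
  rw [← hqC, mem_Lq, val1_X]
  exact X_mem_ext

lemma G_dvd (hqC : Lq e5 q = C.I) (k : Fin 3) (hk : X k ∉ q) : S.G C ∣ p3 S k := by
  unfold MD.G
  fin_cases k
  · have h1 : (X (0, 1) : Coord (Fin 5) 1) ∉ C.I := fun h => hk ((X1_mem_iff S hqC).mp h)
    rw [if_neg h1]
    exact Nat.gcd_dvd_left _ _
  · have h1 : (X (0, 2) : Coord (Fin 5) 1) ∉ C.I := fun h => hk ((X2_mem_iff S hqC).mp h)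
    rw [if_neg h1]
    exact (Nat.gcd_dvd_right _ _).trans (Nat.gcd_dvd_left _ _)
  · have h1 : (X (0, 4) : Coord (Fin 5) 1) ∉ C.I := fun h => hk ((X4_mem_iff S hqC).mp h)
    rw [if_neg h1]
    exact (Nat.gcd_dvd_right _ _).trans (Nat.gcd_dvd_right _ _)

lemma G_mem (hqC : Lq e5 q = C.I) :
    (S.G C : ℤ) ∈ AddSubgroup.closure {n : ℤ | ∃ k, X k ∉ q ∧ n = p3 S k} := by
  classical
  have hgcd : ∀ (H : AddSubgroup ℤ) (x y : ℕ), (x : ℤ) ∈ H → (y : ℤ) ∈ H → (x.gcd y : ℤ) ∈ H := by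
    intro H x y hx hy
    rw [Nat.gcd_eq_gcd_ab]
    refine AddSubgroup.add_mem _ ?_ ?_
    · rw [mul_comm, ← smul_eq_mul]
      exact AddSubgroup.zsmul_mem _ hx _
    · rw [mul_comm, ← smul_eq_mul]
      exact AddSubgroup.zsmul_mem _ hy _
  unfold MD.G
  refine hgcd _ _ _ ?_ (hgcd _ _ _ ?_ ?_)
  · split_ifs with h
    · simp
    · exact AddSubgroup.subset_closure ⟨0, fun h' => h ((X1_mem_iff S hqC).mpr h'), rfl⟩
  · split_ifs with h
    · simp
    · exact AddSubgroup.subset_closure ⟨1, fun h' => h ((X2_mem_iff S hqC).mpr h'), rfl⟩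
  · split_ifs with h
    · simp
    · exact AddSubgroup.subset_closure ⟨2, fun h' => h ((X4_mem_iff S hqC).mpr h'), rfl⟩

lemma G_ne (hqC : Lq e5 q = C.I) (hrel : ∃ k, X k ∉ q) : S.G C ≠ 0 := by
  obtain ⟨k, hk⟩ := hrel
  intro h
  have h1 := G_dvd S hqC k hk
  rw [h, zero_dvd_iff] at h1
  exact (hp3 S k).ne' h1

end G

section point

variable (a : Fin 3 → ℂ)

/-- the homogeneous prime ideal of a point of the weighted plane -/
noncomputable def qa : Ideal (MvPolynomial (Fin 3) ℂ) :=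
  RingHom.ker (coneR S a (Polynomial.X : Polynomial ℂ))

instance : (qa S a).IsPrime := RingHom.ker_isPrime _

lemma coeff_coneR (f : MvPolynomial (Fin 3) ℂ) (n : ℕ) :
    (coneR S a (Polynomial.X : Polynomial ℂ) f).coeff n =
      eval a (weightedHomogeneousComponent (p3 S) n f) := by
  classical
  have h2 := sum_weightedHomogeneousComponent (p3 S) f
  rw [finsum_eq_sum _ (weightedHomogeneousComponent_finsupp f)] at h2
  conv_lhs => rw [← h2, map_sum]
  rw [Polynomial.finsetSum_coeff]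
  have h3 : ∀ m, (coneR S a (Polynomial.X : Polynomial ℂ)
      (weightedHomogeneousComponent (p3 S) m f)).coeff n =
      if n = m then eval a (weightedHomogeneousComponent (p3 S) m f) else 0 := by
    intro m
    rw [coneR_hom S a _ (weightedHomogeneousComponent_isWeightedHomogeneous m f)]
    show (Polynomial.C _ * Polynomial.X ^ m).coeff n = _
    rw [Polynomial.coeff_C_mul_X_pow]
  rw [Finset.sum_congr rfl fun m _ => h3 m, Finset.sum_ite_eq]
  split_ifs with h
  · rfl
  · have h4 : weightedHomogeneousComponent (p3 S) n f = 0 := by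
      by_contra hne
      exact h ((weightedHomogeneousComponent_finsupp f).mem_toFinset.mpr hne)
    rw [h4, map_zero]

lemma mem_qa {f : MvPolynomial (Fin 3) ℂ} : f ∈ qa S a ↔
    ∀ n, eval a (weightedHomogeneousComponent (p3 S) n f) = 0 := by
  rw [qa, RingHom.mem_ker]
  constructor
  · intro h n
    rw [← coeff_coneR, h, Polynomial.coeff_zero]
  · intro h
    ext n
    rw [coeff_coneR, h n, Polynomial.coeff_zero]

lemma hom_qa : Hom (p3 S) (qa S a) := by
  intro f hf n
  rw [qa, RingHom.mem_ker,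
    coneR_hom S a _ (weightedHomogeneousComponent_isWeightedHomogeneous n f),
    (mem_qa S a).mp hf n, map_zero, zero_mul]

lemma eval_qa {f : MvPolynomial (Fin 3) ℂ} (hf : f ∈ qa S a) : eval a f = 0 := by
  have h2 := sum_weightedHomogeneousComponent (p3 S) f
  rw [finsum_eq_sum _ (weightedHomogeneousComponent_finsupp f)] at h2
  rw [← h2, map_sum]
  exact Finset.sum_eq_zero fun n _ => (mem_qa S a).mp hf n

variable {a}

lemma J0_le_qa (hA : eval a S.A = 0) (hB : eval a S.B = 0) : J0 S ≤ qa S a := by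
  rw [J0, Ideal.span_le]
  rintro f (rfl | rfl)
  · show S.A ∈ RingHom.ker (coneR S a (Polynomial.X : Polynomial ℂ))
    rw [RingHom.mem_ker, coneR_hom S a _ S.hA, hA, map_zero, zero_mul]
  · show S.B ∈ RingHom.ker (coneR S a (Polynomial.X : Polynomial ℂ))
    rw [RingHom.mem_ker, coneR_hom S a _ S.hB, hB, map_zero, zero_mul]

lemma hom_J0 : Hom (p3 S) (J0 S) := by
  have h1 : J0 S = (⊥ ⊔ Ideal.span {S.A}) ⊔ Ideal.span {S.B} := by
    rw [bot_sup_eq, J0, Ideal.span_insert]
  rw [h1]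
  refine Dg.hom_sup (Dg.hom_sup ?_ S.hA) S.hB
  intro f hf n
  rw [(Submodule.mem_bot _).mp hf, map_zero]
  exact Ideal.zero_mem _

end point

/-- **The annihilator of the prime module of a curve** -/
theorem Pq_eq_box {q : Ideal (MvPolynomial (Fin 3) ℂ)} (hq : Hom (p3 S) q) {C : Pt S.V 1}
    (hC : C ∈ S.dA.support) (hqC : Lq e5 q = C.I) {a : Fin 3 → ℂ} (ha0 : a ≠ 0)
    (ha : ∀ f ∈ q, eval a f = 0) : Pq (p3 S) e5 q = boxIdeal S.V ![C, C] := by
  obtain ⟨P, hP⟩ : ∃ P : Pt S.V 2, P.I = boxIdeal S.V ![C, C] := exists_box S.V ![C, C]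
  have h1 : boxIdeal S.V ![C, C] ≤ Pq (p3 S) e5 q := by
    refine iSup_le fun i => ?_
    rw [Ideal.map_le_iff_le_comap]
    intro s hs
    have hs' : s ∈ Lq e5 q := by
      rw [hqC]
      fin_cases i <;> exact hs
    exact prMap_mem_Pq i hq hs'
  have h2 := Pq_le_psi S hq ha
  have h3 := four_le_td S ha0
  have h4 : lev P = 4 := by
    rw [lev_box S.wt_pos C C P hP, S.lev_dA hC]
  have h5 : P.I = RingHom.ker (psi S a) := by
    by_contra hne
    have := P.prime
    have h6 : P.I < RingHom.ker (psi S a) := lt_of_le_of_ne (hP ▸ h1.trans h2) hne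
    have hpr : (RingHom.ker (psi S a) : Ideal (Coord (Fin 5) 2)).IsPrime := RingHom.ker_isPrime _
    have h7 := Dg.td_lt_of_lt h6
    have h8 : td (Coord (Fin 5) 2 ⧸ P.I) = 4 := h4
    omega
  rw [hP] at h5
  exact le_antisymm (h2.trans h5.ge) h1

/-- the data of a curve -/
theorem curve_data {C : Pt S.V 1} (hC : C ∈ S.dA.support) : ∃ a : Fin 3 → ℂ, a ≠ 0 ∧
    eval a S.B = 0 ∧ J0 S ≤ qa S a ∧ Lq e5 (qa S a) = C.I ∧
    Pq (p3 S) e5 (qa S a) = boxIdeal S.V ![C, C] := by
  obtain ⟨a, ha0, hA, hB, hCI⟩ := S.dA_cone.mp hC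
  have h0 := J0_le_qa S hA hB
  have h1 : Lq e5 (qa S a) = C.I := by
    refine Lq_eq S h0 hC ?_
    rw [hCI]
    exact Lq_le_cone S a (hom_qa S a) (fun f hf => eval_qa S a hf)
  exact ⟨a, ha0, hB, h0, h1, Pq_eq_box S (hom_qa S a) hC h1 ha0 (fun f hf => eval_qa S a hf)⟩

lemma rel_qa {a : Fin 3 → ℂ} (ha : a ≠ 0) : ∃ k, X k ∉ qa S a := by
  obtain ⟨k, hk⟩ : ∃ k, a k ≠ 0 := by
    by_contra! h
    exact ha (funext h)
  refine ⟨k, fun h => hk ?_⟩
  have := eval_qa S a h
  rwa [eval_X] at this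

lemma box_apply {C : Pt S.V 1} {Q : Pt S.V 2} (h : Q.I ≠ boxIdeal S.V ![C, C]) :
    (box S.V ![C, C]) Q = 0 := by
  obtain ⟨P, hP⟩ : ∃ P : Pt S.V 2, P.I = boxIdeal S.V ![C, C] := exists_box S.V ![C, C]
  rw [box_of_eq S.V ![C, C] P hP]
  refine Finsupp.single_eq_of_ne ?_
  rintro rfl
  exact h hP

lemma box_apply_self {C : Pt S.V 1} {Q : Pt S.V 2} (h : Q.I = boxIdeal S.V ![C, C]) :
    (box S.V ![C, C]) Q = 1 := by
  rw [box_of_eq S.V ![C, C] Q h, Finsupp.single_eq_same]

lemma curve_inj {C C' : Pt S.V 1} (hC : C ∈ S.dA.support) (hC' : C' ∈ S.dA.support)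
    (h : boxIdeal S.V ![C, C] = boxIdeal S.V ![C', C']) : C = C' := by
  obtain ⟨a, -, -, -, h1, h2⟩ := curve_data S hC
  obtain ⟨a', -, -, -, h1', h2'⟩ := curve_data S hC'
  have h3 : Pq (p3 S) e5 (qa S a) = Pq (p3 S) e5 (qa S a') := by rw [h2, h2', h]
  have h4 : qa S a = qa S a' :=
    le_antisymm (Lq_le_of_Pq_le he5 (hom_qa S a) h3.le) (Lq_le_of_Pq_le he5 (hom_qa S a') h3.ge)
  apply Pt.ext'
  rw [← h1, ← h1', h4]

end Pool.Agent.RCH.MZ

namespace Pool.Agent.RCH.Mn

namespace MD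

open Pool.Agent.RCH.MZ
open Pool.Agent.RCH.Dg (td)

variable (S : MD)

/-- `∑ I_a G_a C_a × C_a` -/
noncomputable def sqA : Cycles S.V 2 :=
  S.dA.sum fun C n => (n * S.G C) • box S.V ![C, C]

lemma sqA_apply (Q : Pt S.V 2) : S.sqA Q =
    ∑ C ∈ S.dA.support, (S.dA C * S.G C) * (box S.V ![C, C]) Q := by
  rw [sqA, Finsupp.sum, Finsupp.finsetSum_apply]
  rfl

lemma sqA_eq_zero {Q : Pt S.V 2} (h : ¬ ∃ C ∈ S.dA.support, Q.I = boxIdeal S.V ![C, C]) :
    S.sqA Q = 0 := by
  rw [sqA_apply]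
  refine Finset.sum_eq_zero fun C hC => ?_
  rw [box_apply S (fun h' => h ⟨C, hC, h'⟩), mul_zero]

lemma sqA_of_eq {Q : Pt S.V 2} {C : Pt S.V 1} (hC : C ∈ S.dA.support)
    (h : Q.I = boxIdeal S.V ![C, C]) : S.sqA Q = S.dA C * S.G C := by
  rw [sqA_apply, Finset.sum_eq_single C]
  · rw [box_apply_self S h, mul_one]
  · intro C' hC' hne
    rw [box_apply S, mul_zero]
    intro h'
    exact hne (curve_inj S hC' hC (h' ▸ h))
  · intro h'
    exact absurd hC h'

theorem JZ_eq {Q : Pt S.V 2} (h4 : lev Q = 4) : clz S.JZ Q = S.sqA Q := by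
  have hQp := Q.prime
  let _ : Algebra (Coord (Fin 5) 2) (TZ (Fin 3)) := (val (p3 S) e5).toAlgebra
  let _ : Algebra (Coord (Fin 5) 1) (TN (Fin 3)) := (val1 e5).toAlgebra
  have hα : algebraMap (Coord (Fin 5) 2) (TZ (Fin 3)) = val (p3 S) e5 := rfl
  have hα1 : algebraMap (Coord (Fin 5) 1) (TN (Fin 3)) = val1 e5 := rfl
  show ((cl S.V.wt S.JZ Q.I).toNat : ℤ) = S.sqA Q
  have hwt : S.V.wt = S.wt := rfl
  rw [hwt, cl_JZ S hα]
  by_cases hex : ∃ C ∈ S.dA.support, Q.I = boxIdeal S.V ![C, C]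
  · obtain ⟨C, hC, hQ⟩ := hex
    have hCp := C.prime
    obtain ⟨a, ha0, -, h0, h1, h2⟩ := curve_data S hC
    have hQ' : Q.I = Pq (p3 S) e5 (qa S a) := by rw [hQ, h2]
    have hdev := dev (w := p3 S) (A := AL) (A' := Polynomial ℂ) Q.I C.I (S.G C) (J0 S) (by
      intro q' hp' hq' hJ'
      by_cases hqq : q' = qa S a
      · subst hqq
        rw [len_congr_prime hQ', len_AL hα he5 (G_ne S h1 (rel_qa S ha0)) (G_dvd S h1)
          (G_mem S h1), len_congr_prime h1.symm, len_TN_self hα1 he5, mul_one]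
      · have e1 : ¬ Lq e5 q' ≤ C.I := by
          intro h
          have h3 := Lq_eq S hJ' hC h
          apply hqq
          exact le_antisymm (le_of_Lq_le he5 (by rw [h3, h1])) (le_of_Lq_le he5 (by rw [h3, h1]))
        have e2 : ¬ Pq (p3 S) e5 q' ≤ Q.I := by
          intro h
          rw [hQ'] at h
          refine e1 ?_
          rw [← h1]
          exact Lq_mono (Lq_le_of_Pq_le he5 hq' h)
        rw [len_AL_zero hα e2, len_TN_zero hα1 he5 e1, mul_zero]) (J0 S) (hom_J0 S) le_rfl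
    rw [hdev, ENat.toNat_mul, ENat.toNat_natCast, len_TN hα1 he5, ← sec_sup, len_ordAt,
      S.sqA_of_eq hC hQ]
    have h5 := S.isDivisor_dA C
    rw [if_pos (S.mem_dA.mp hC).1] at h5
    have h6 : (ordAt S.pY.I C.I (1 : Coord (Fin 5) 1)) = 0 := by
      rw [← len_ordAt, Ideal.span_singleton_one, sup_top_eq]
      have : Subsingleton (Coord (Fin 5) 1 ⧸ (⊤ : Ideal (Coord (Fin 5) 1))) :=
        Ideal.Quotient.subsingleton_iff.2 rfl
      exact len_eq_zero C.I
    rw [h5, h6]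
    have h7 : S.pY.I = S.secI := rfl
    rw [h7]
    push_cast
    rw [ENat.toNat_zero]
    ring
  · rw [S.sqA_eq_zero hex]
    have hdev := dev_zero (w := p3 S) (A := AL) Q.I (J0 S) (by
      intro q' hp' hq' hJ'
      refine len_AL_zero hα ?_
      intro hle
      by_cases hrel : ∃ k, X k ∉ q'
      · obtain ⟨C, hC, hqC, a, ha0, ha, -⟩ := exists_curve S hq' hJ' hrel
        have h1 := Pq_eq_box S hq' hC hqC ha0 ha
        obtain ⟨P, hP⟩ : ∃ P : Pt S.V 2, P.I = boxIdeal S.V ![C, C] := exists_box S.V ![C, C]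
        have hl : lev P = 4 := by
          rw [lev_box S.wt_pos C C P hP, S.lev_dA hC]
        apply hex
        refine ⟨C, hC, ?_⟩
        rw [← hP]
        by_contra hne
        have hPp := P.prime
        have h3 : P.I < Q.I := lt_of_le_of_ne (by rw [hP, ← h1]; exact hle) (Ne.symm hne)
        have h5 := Dg.td_lt_of_lt h3
        have h6 : td (Coord (Fin 5) 2 ⧸ P.I) = 4 := hl
        have h7 : td (Coord (Fin 5) 2 ⧸ Q.I) = 4 := h4
        omega
      · push Not at hrel
        obtain ⟨P, hP⟩ : ∃ P : Pt S.V 2, P.I = boxIdeal S.V ![S.pP, S.pP] :=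
          exists_box S.V ![S.pP, S.pP]
        have hl : lev P = 2 := by
          rw [lev_box S.wt_pos S.pP S.pP P hP, S.lev_pP]
        have hX : ∀ (i : Fin 2) (j : Fin 5), j ≠ 0 → X (i, j) ∈ Pq (p3 S) e5 q' := by
          intro i j hj
          have hk : ∀ (k : Fin 3), e5 j = some (some k) → X (i, j) ∈ Pq (p3 S) e5 q' :=
            fun k hk => (X_mem_Pq_iff (p3 S) e5 q' i hk).mpr (hrel k)
          fin_cases j
          · exact absurd rfl hj
          · exact hk 0 rfl
          · exact hk 1 rfl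
          · show X (i, 3) ∈ Pq (p3 S) e5 q'
            rw [mem_Pq, val_X]
            exact Ideal.zero_mem _
          · exact hk 2 rfl
        have h3 : P.I ≤ Q.I := by
          rw [hP]
          refine le_trans (iSup_le fun i => ?_) hle
          have e1 : (![S.pP, S.pP] i).I = Ideal.span {X (0, 1), X (0, 2), X (0, 3), X (0, 4)} := by
            fin_cases i <;> rfl
          rw [e1, Ideal.map_le_iff_le_comap, Ideal.span_le]
          rintro x (rfl | rfl | rfl | rfl)
          · show rename _ (X (0, 1)) ∈ Pq (p3 S) e5 q'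
            rw [rename_X]
            exact hX i 1 (by decide)
          · show rename _ (X (0, 2)) ∈ Pq (p3 S) e5 q'
            rw [rename_X]
            exact hX i 2 (by decide)
          · show rename _ (X (0, 3)) ∈ Pq (p3 S) e5 q'
            rw [rename_X]
            exact hX i 3 (by decide)
          · show rename _ (X (0, 4)) ∈ Pq (p3 S) e5 q'
            rw [rename_X]
            exact hX i 4 (by decide)
        have h5 := td_le_of_le h3
        have h6 : td (Coord (Fin 5) 2 ⧸ P.I) = 2 := hl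
        have h7 : td (Coord (Fin 5) 2 ⧸ Q.I) = 4 := h4
        omega) (J0 S) (hom_J0 S) le_rfl
    rw [hdev]
    rfl

/-- the value of `F` on the axis `x_4` -/
lemma eval_axis (y : ℂ) : eval ![0, 0, 0, 0, y] S.F = coeff (Finsupp.single 4 S.D) S.F * y ^ S.D := by
  classical
  rw [eval_eq, Finset.sum_eq_single (Finsupp.single 4 S.D)]
  · congr 1
    rw [Finset.prod_eq_single 4]
    · rw [Finsupp.single_eq_same]
      rfl
    · intro j hj hne
      exact absurd (Finset.mem_singleton.mp (Finsupp.support_single_subset hj)) hne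
    · intro h
      rw [Finsupp.notMem_support_iff] at h
      rw [h, pow_zero]
  · intro d hd hne
    have hd' : Finsupp.weight ![S.N, S.p, S.q, S.w, S.r] d = S.d := S.hF (mem_support_iff.mp hd)
    by_cases h0 : ∃ j ∈ d.support, j ≠ 4
    · obtain ⟨j, hj, hj4⟩ := h0
      rw [Finset.prod_eq_zero hj, mul_zero]
      have h1 : (![0, 0, 0, 0, y] : Fin 5 → ℂ) j = 0 := by
        fin_cases j
        · rfl
        · rfl
        · rfl
        · rfl
        · exact absurd rfl hj4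
      rw [h1, zero_pow (Finsupp.mem_support_iff.mp hj)]
    · push Not at h0
      exfalso
      apply hne
      have h1 : d = Finsupp.single 4 (d 4) := by
        rw [← Finsupp.support_subset_singleton]
        intro j hj
        exact Finset.mem_singleton.mpr (h0 j hj)
      rw [h1, Finsupp.weight_single] at hd'
      have h2 : d 4 * S.r = S.D * S.r := by
        rw [S.hD, ← hd']
        rfl
      rw [h1, Nat.eq_of_mul_eq_mul_right S.hr h2]
  · intro h
    exact absurd (notMem_support_iff.mp h) S.monic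

theorem sqA_good {Q : Pt S.V 2} (h : S.sqA Q ≠ 0) : lev Q = 4 ∧ S.Good Q := by
  obtain ⟨C, hC, hQ⟩ : ∃ C ∈ S.dA.support, Q.I = boxIdeal S.V ![C, C] := by
    by_contra hne
    exact h (S.sqA_eq_zero hne)
  refine ⟨by rw [lev_box S.wt_pos C C Q hQ, S.lev_dA hC], ?_⟩
  obtain ⟨a, ha0, hB, -, h1, h2⟩ := curve_data S hC
  have hQ' : Q.I = Pq (p3 S) e5 (qa S a) := by rw [hQ, h2]
  have hk : ∀ (k : Fin 3), a k ≠ 0 → X k ∉ qa S a := by
    intro k hk h
    have h3 := eval_qa S a h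
    rw [eval_X] at h3
    exact hk h3
  unfold Good
  rw [hQ', X_mem_Pq_iff (p3 S) e5 (qa S a) 0 (show e5 1 = some (some 0) from rfl),
    X_mem_Pq_iff (p3 S) e5 (qa S a) 1 (show e5 1 = some (some 0) from rfl),
    X_mem_Pq_iff (p3 S) e5 (qa S a) 0 (show e5 2 = some (some 1) from rfl),
    X_mem_Pq_iff (p3 S) e5 (qa S a) 1 (show e5 2 = some (some 1) from rfl)]
  by_cases h0 : a 0 = 0
  · by_cases h1 : a 1 = 0
    · exfalso
      apply ha0
      have he : S.e ≠ 0 := by
        intro h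
        have := S.hep
        rw [h, zero_dvd_iff] at this
        have := S.hp
        omega
      have h3 := aeval_F S (0 : ℂ) a
      have hBa : aeval a S.B = 0 := hB
      rw [zero_pow he, zero_mul, zero_add, hBa, h0, h1] at h3
      have h4 : eval ![0, 0, 0, 0, a 2] S.F = 0 := h3
      rw [eval_axis, mul_eq_zero, or_iff_right S.monic] at h4
      have h5 : a 2 = 0 := (pow_eq_zero_iff (by have := S.hD2; omega)).mp h4
      funext k
      fin_cases k
      · exact h0
      · exact h1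
      · exact h5
    · exact Or.inr ⟨hk 1 h1, hk 1 h1⟩
  · exact Or.inl ⟨hk 0 h0, hk 0 h0⟩

end MD

end Pool.Agent.RCH.Mn
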