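import Pool.Agent.RCH.Mn8
import Pool.Agent.RCH.Dg2Kill

/-!
# Row M7: the degree functional on `X × X`
-/

set_option autoImplicit false

open MvPolynomial

namespace Pool.Agent.RCH.Mn

namespace MD

variable (S : MD)

lemma hasRk_of_lev {Q : Pt S.V 1} {n : ℕ} (h : lev Q = n) :
    ∃ e : ℝ, Dg.HasRk (Dg.wt1 S.V) Q.I n e := by
  have hQ := Q.prime
  refine ⟨Dg.mult (Dg.wt1 S.V) Q.I, ?_⟩
  have hw : ∀ v : Fin 1 × Fin 5, 0 < Dg.wt1 S.V v := fun v => S.wt_pos v.2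
  have h1 := Dg.hasRk hw (Dg.hom_pt Q) hQ.ne_top
  rwa [Dg.rk_eq_td hw (Dg.hom_pt Q), show Dg.td (Coord (Fin 5) 1 ⧸ Q.I) = n from h] at h1

/-- **Kill.** -/
theorem kill (s : Finset (Pt S.V 1)) (hs : ∀ C ∈ s, ∃ e : ℝ, Dg.HasRk (Dg.wt1 S.V) C.I 2 e)
    (c : Pt S.V 1 → Pt S.V 1 → ℤ) (n₁ n₂ : ℤ)
    (h : ∑ C ∈ s, ∑ C' ∈ s, c C C' • box S.V ![C, C'] + n₁ • box S.V ![S.pP, S.pY] +
      n₂ • box S.V ![S.pY, S.pP] ∈ torZero S.V 2) :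
    n₁ = 0 ∧ n₂ = 0 ∧
      ∑ C ∈ s, ∑ C' ∈ s, (c C C' : ℝ) * Dg.degPt S.V 2 C * Dg.degPt S.V 2 C' = 0 := by
  obtain ⟨M, hM, h⟩ := h
  obtain ⟨e, he⟩ := S.hasRk_of_lev S.lev_pP
  obtain ⟨ε, hε⟩ := S.hasRk_of_lev S.lev_pY
  have hM' : (M : ℤ) ≠ 0 := by exact_mod_cast (by omega : M ≠ 0)
  have hd : ∀ C ∈ s, Dg.HasRk (Dg.wt1 S.V) C.I 2 (Dg.degPt S.V 2 C) := by
    intro C hC
    obtain ⟨e', he'⟩ := hs C hC
    rwa [Dg.degPt_eq he']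
  have h1 : ∑ a ∈ s ×ˢ s, ((M : ℤ) * c a.1 a.2) • box S.V ![a.1, a.2] +
      ((M : ℤ) * n₁) • box S.V ![S.pP, S.pY] + ((M : ℤ) * n₂) • box S.V ![S.pY, S.pP] ∈
        RatZero S.V 2 := by
    have h2 : ∑ a ∈ s ×ˢ s, ((M : ℤ) * c a.1 a.2) • box S.V ![a.1, a.2] +
      ((M : ℤ) * n₁) • box S.V ![S.pP, S.pY] + ((M : ℤ) * n₂) • box S.V ![S.pY, S.pP] =
        M • (∑ C ∈ s, ∑ C' ∈ s, c C C' • box S.V ![C, C'] + n₁ • box S.V ![S.pP, S.pY] +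
      n₂ • box S.V ![S.pY, S.pP]) := by
      rw [Finset.sum_product, smul_add, smul_add, Finset.smul_sum]
      simp only [Finset.smul_sum, mul_smul, natCast_zsmul]
    rw [h2]
    exact h
  obtain ⟨h2, h3, h4⟩ := Dg2.kill_one S.wt_pos (s ×ˢ s) (fun a => (M : ℤ) * c a.1 a.2)
    ((M : ℤ) * n₁) ((M : ℤ) * n₂) (fun a => a.1) (fun a => a.2) S.pP S.pY
    (d := fun a => Dg.degPt S.V 2 a.1) (d' := fun a => Dg.degPt S.V 2 a.2)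
    (fun a ha => hd a.1 (Finset.mem_product.1 ha).1)
    (fun a ha => hd a.2 (Finset.mem_product.1 ha).2) he hε h1
  refine ⟨(mul_eq_zero.1 h2).resolve_left hM', (mul_eq_zero.1 h3).resolve_left hM', ?_⟩
  have h5 : (M : ℝ) * ∑ C ∈ s, ∑ C' ∈ s,
      (c C C' : ℝ) * Dg.degPt S.V 2 C * Dg.degPt S.V 2 C' = 0 := by
    rw [← h4, Finset.sum_product, Finset.mul_sum]
    refine Finset.sum_congr rfl fun C _ => ?_
    rw [Finset.mul_sum]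
    refine Finset.sum_congr rfl fun C' _ => ?_
    push_cast
    ring
  exact (mul_eq_zero.1 h5).resolve_left (by exact_mod_cast hM')

end MD

end Pool.Agent.RCH.Mn
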