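import Pool.Agent.RCH.Mn8g3

/-!
# Row M8g: divisors of `A` and `s` on the section, cones, generation
-/
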