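import Pool.Agent.RCH.Mn8a
import Pool.Agent.RCH.WdSupA
import Pool.Agent.RCH.Ord2
import Pool.Agent.RCH.Fin

/-!
# The section `Y` of Theorem M: homogeneous elements up to powers of `A`
-/

set_option autoImplicit false

open MvPolynomial

namespace Pool.Agent.RCH.Mn

namespace MD

open Wd

variable (S : MD)

/-- the weights of `s, t, y` -/
def w3 : Fin 3 → ℕ := ![S.p, S.q, S.r]

/-- the inclusion of `ℂ[s, t, y]` in the coordinate ring -/
noncomputable def inc : MvPolynomial (Fin 3) ℂ →ₐ[ℂ] Coord (Fin 5) 1 :=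
  rename ![((0 : Fin 1), (1 : Fin 5)), (0, 2), (0, 4)]

lemma inc_C (a : ℂ) : inc (C a) = C a := by
  rw [inc, rename_C]

lemma inc_X0 : inc (X 0) = (X (0, 1) : Coord (Fin 5) 1) := by
  rw [inc, rename_X]
  rfl

lemma inc_X1 : inc (X 1) = (X (0, 2) : Coord (Fin 5) 1) := by
  rw [inc, rename_X]
  rfl

lemma inc_X2 : inc (X 2) = (X (0, 4) : Coord (Fin 5) 1) := by
  rw [inc, rename_X]
  rfl

lemma inc_A : inc S.A = S.A1 := rfl

lemma inc_B : inc S.B = S.B1 := rfl

lemma inc_hom {f : MvPolynomial (Fin 3) ℂ} {n : ℕ} (hf : IsWeightedHomogeneous S.w3 f n) :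
    IsWeightedHomogeneous (S.V.mdeg 1) (inc f) (fun _ => n) := by
  classical
  intro s hs
  obtain ⟨u, hu, hs'⟩ := coeff_rename_ne_zero _ _ _ hs
  have h2 := hf hs'
  rw [← hu, Finsupp.weight_apply, Finsupp.sum_mapDomain_index_inj (by decide)]
  rw [Finsupp.weight_apply] at h2
  funext i
  rw [← h2, Finsupp.sum, Finset.sum_apply, Finsupp.sum]
  refine Finset.sum_congr rfl fun j _ => ?_
  rw [Subsingleton.elim i 0]
  fin_cases j <;> simp [WVar.mdeg, w3, V, weightedHypersurface, wt]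

/-! ### The equations of the section -/

lemma pY_I : S.pY.I = S.secI := rfl

lemma X3_pY : (X (0, 3) : Coord (Fin 5) 1) ∈ S.pY.I := by
  have h : (X (0, 3) : Coord (Fin 5) 1) = inFactor 1 0 (X 3) := by
    rw [inFactor, rename_X]
  rw [h]
  exact Ideal.subset_span (by simp)

lemma F_pY : inFactor 1 0 S.F ∈ S.pY.I := Ideal.subset_span (by simp)

lemma pY_le (J : Ideal (Coord (Fin 5) 1)) (h : ∀ f ∈ S.V.eqs, inFactor 1 0 f ∈ J)
    (h3 : (X (0, 3) : Coord (Fin 5) 1) ∈ J) : S.pY.I ≤ J := by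
  rw [pY_I, secI, Ideal.span_le]
  rintro _ (rfl | rfl)
  · have h4 : (inFactor 1 0 (X 3) : Coord (Fin 5) 1) = X (0, 3) := by
      rw [inFactor, rename_X]
    rw [h4]
    exact h3
  · exact h _ (Ideal.subset_span rfl)

lemma inFactor_rename (f : MvPolynomial (Fin 3) ℂ) :
    inFactor 1 0 (rename ![(1 : Fin 5), 2, 4] f) = inc f := by
  rw [inFactor, inc, rename_rename]
  congr 2
  funext i
  fin_cases i <;> rfl

lemma mem_span_X3 {f : MvPolynomial (Fin 5) ℂ}
    (h : f ∈ Ideal.span {(X 3 : MvPolynomial (Fin 5) ℂ)}) {J : Ideal (Coord (Fin 5) 1)}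
    (h3 : (X (0, 3) : Coord (Fin 5) 1) ∈ J) : inFactor 1 0 f ∈ J := by
  obtain ⟨g, rfl⟩ := Ideal.mem_span_singleton'.1 h
  rw [map_mul]
  refine Ideal.mul_mem_left _ _ ?_
  rw [inFactor, rename_X]
  exact h3

/-- the relation `F = v ^ e A + B` modulo `ω` -/
lemma shape1 {J : Ideal (Coord (Fin 5) 1)} (h3 : (X (0, 3) : Coord (Fin 5) 1) ∈ J) :
    inFactor 1 0 S.F - (X (0, 0) ^ S.e * S.A1 + S.B1) ∈ J := by
  have h := mem_span_X3 S.shape h3
  rw [map_sub, map_add, map_mul, map_pow, inFactor_rename, inFactor_rename, inc_A, inc_B] at h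
  have h4 : (inFactor 1 0 (X 0) : Coord (Fin 5) 1) = X (0, 0) := by
    rw [inFactor, rename_X]
  rwa [h4] at h

/-- the relation `v ^ e A + B = 0` on the section -/
lemma rel_mem {J : Ideal (Coord (Fin 5) 1)} (hJ : S.pY.I ≤ J) :
    X (0, 0) ^ S.e * S.A1 + S.B1 ∈ J := by
  have h1 := S.shape1 (hJ S.X3_pY)
  have h2 := sub_mem (hJ S.F_pY) h1
  rwa [sub_sub_cancel] at h2

/-- a monomial in the coordinates of one point -/
lemma monomial_eq5 (u : Fin 1 × Fin 5 →₀ ℕ) (a : ℂ) : (monomial u a : Coord (Fin 5) 1) =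
    C a * (X (0, 0) ^ u (0, 0) * X (0, 1) ^ u (0, 1) * X (0, 2) ^ u (0, 2) * X (0, 3) ^ u (0, 3) *
      X (0, 4) ^ u (0, 4)) := by
  rw [monomial_eq, Finsupp.prod_fintype _ _ (fun _ => pow_zero _), Fintype.prod_prod_type,
    Fin.prod_univ_one, Fin.prod_univ_five]

/-- the degree of a monomial -/
lemma weight5 (u : Fin 1 × Fin 5 →₀ ℕ) : Finsupp.weight (S.V.mdeg 1) u 0 =
    u (0, 0) * S.N + u (0, 1) * S.p + u (0, 2) * S.q + u (0, 3) * S.w + u (0, 4) * S.r := by
  rw [Finsupp.weight_apply, Finsupp.sum_fintype _ _ (fun _ => by simp), Finset.sum_apply,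
    Fintype.sum_prod_type, Fin.sum_univ_one, Fin.sum_univ_five]
  simp [WVar.mdeg, V, weightedHypersurface, wt]

/-- Up to a power of `A`, a homogeneous element whose degree is a multiple of `e` is on the section
equal to a homogeneous polynomial in `s, t, y`. -/
theorem norm_form {z : Coord (Fin 5) 1} {E : ℕ}
    (hz : IsWeightedHomogeneous (S.V.mdeg 1) z (fun _ => S.e * E)) :
    ∃ (M : ℕ) (f : MvPolynomial (Fin 3) ℂ),
      IsWeightedHomogeneous S.w3 f (S.e * E + M * S.k) ∧
        S.A1 ^ M * z - inc f ∈ S.pY.I := by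
  classical
  -- the statement for all large exponents
  have key : ∃ M₀ : ℕ, ∀ M ≥ M₀, ∃ f : MvPolynomial (Fin 3) ℂ,
      IsWeightedHomogeneous S.w3 f (S.e * E + M * S.k) ∧
        S.A1 ^ M * z - inc f ∈ S.pY.I := by
    rw [z.as_sum]
    refine Finset.sum_induction _ (fun z => ∃ M₀ : ℕ, ∀ M ≥ M₀, ∃ f : MvPolynomial (Fin 3) ℂ,
      IsWeightedHomogeneous S.w3 f (S.e * E + M * S.k) ∧
        S.A1 ^ M * z - inc f ∈ S.pY.I) ?_ ?_ ?_
    · rintro z z' ⟨M₀, h⟩ ⟨M₁, h'⟩
      refine ⟨max M₀ M₁, fun M hM => ?_⟩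
      obtain ⟨f, hf, hf'⟩ := h M (le_trans (le_max_left _ _) hM)
      obtain ⟨g, hg, hg'⟩ := h' M (le_trans (le_max_right _ _) hM)
      refine ⟨f + g, hf.add hg, ?_⟩
      have h1 := add_mem hf' hg'
      rw [map_add]
      convert h1 using 1
      ring
    · refine ⟨0, fun M _ => ⟨0, isWeightedHomogeneous_zero ℂ _ _, ?_⟩⟩
      rw [mul_zero, map_zero, sub_zero]
      exact zero_mem _
    · intro u hu
      have hw := hz (mem_support_iff.1 hu)
      have hw0 := congrFun hw 0
      rw [weight5] at hw0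
      rw [monomial_eq5]
      by_cases h3 : u (0, 3) = 0
      · have hdvd : S.e ∣ u (0, 0) := by
          have h1 : S.e ∣ u (0, 0) * S.N := by
            have h2 : S.e ∣ u (0, 0) * S.N + (u (0, 1) * S.p + u (0, 2) * S.q + u (0, 4) * S.r) := by
              refine ⟨E, ?_⟩
              rw [h3] at hw0
              omega
            refine (Nat.dvd_add_left ?_).1 h2
            exact dvd_add (dvd_add (Dvd.dvd.mul_left S.hep _) (Dvd.dvd.mul_left S.heq _))
              (Dvd.dvd.mul_left S.her _)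
          exact (Nat.Coprime.symm S.hNe).dvd_of_dvd_mul_right h1
        obtain ⟨r, hr⟩ := hdvd
        refine ⟨r, fun M hM => ⟨C (coeff u z) * (S.A ^ (M - r) * (-S.B) ^ r *
          X 0 ^ u (0, 1) * X 1 ^ u (0, 2) * X 2 ^ u (0, 4)), ?_, ?_⟩⟩
        · have hB : IsWeightedHomogeneous S.w3 (-S.B) S.d := by
            have := (weightedHomogeneousSubmodule ℂ S.w3 S.d).neg_mem
              (x := S.B) ((mem_weightedHomogeneousSubmodule ℂ _ _ _).2 S.hB)
            exact (mem_weightedHomogeneousSubmodule ℂ _ _ _).1 this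
          have h1 := ((((isWeightedHomogeneous_C S.w3 (coeff u z)).mul
            ((S.hA.pow (M - r)).mul (hB.pow r))).mul
            ((isWeightedHomogeneous_X ℂ S.w3 (0 : Fin 3)).pow (u (0, 1)))).mul
            ((isWeightedHomogeneous_X ℂ S.w3 (1 : Fin 3)).pow (u (0, 2)))).mul
            ((isWeightedHomogeneous_X ℂ S.w3 (2 : Fin 3)).pow (u (0, 4)))
          have h2 : 0 + ((M - r) • S.k + r • S.d) + u (0, 1) • S.w3 0 +
              u (0, 2) • S.w3 1 + u (0, 4) • S.w3 2 = S.e * E + M * S.k := by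
            have e0 : S.w3 0 = S.p := rfl
            have e1 : S.w3 1 = S.q := rfl
            have e2 : S.w3 2 = S.r := rfl
            rw [e0, e1, e2, ← hw0, h3, hr, S.hd]
            simp only [smul_eq_mul]
            obtain ⟨d, rfl⟩ := Nat.exists_eq_add_of_le hM
            rw [Nat.add_sub_cancel_left]
            ring
          rw [h2] at h1
          convert h1 using 1
          ring
        · have h4 : (S.A1 * X (0, 0) ^ S.e) ^ r - inc ((-S.B) ^ r) ∈ S.pY.I := by
            rw [map_pow, map_neg, inc_B]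
            refine Ideal.mem_of_dvd _ (sub_dvd_pow_sub_pow _ _ _) ?_
            have h5 := S.rel_mem le_rfl
            convert h5 using 1
            ring
          have h5 := S.pY.I.mul_mem_left (C (coeff u z) * (S.A1 ^ (M - r) *
            X (0, 1) ^ u (0, 1) * X (0, 2) ^ u (0, 2) * X (0, 4) ^ u (0, 4))) h4
          convert h5 using 1
          rw [map_mul, map_mul, map_mul, map_mul, map_mul, inc_C]
          simp only [map_pow, inc_X0, inc_X1, inc_X2, inc_A]
          rw [h3, hr]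
          obtain ⟨d, rfl⟩ := Nat.exists_eq_add_of_le hM
          rw [Nat.add_sub_cancel_left]
          ring
      · refine ⟨0, fun M _ => ⟨0, isWeightedHomogeneous_zero ℂ _ _, ?_⟩⟩
        rw [map_zero, sub_zero]
        refine Ideal.mul_mem_left _ _ (Ideal.mul_mem_left _ _ (Ideal.mul_mem_right _ _
          (Ideal.mul_mem_left _ _ (Ideal.pow_mem_of_mem _ S.X3_pY _ (Nat.pos_of_ne_zero h3)))))
  obtain ⟨M₀, h⟩ := key
  obtain ⟨f, hf⟩ := h M₀ le_rfl
  exact ⟨M₀, f, hf⟩

/-- an ideal contains an element if it contains its components -/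
lemma mem_of_comp (J : Ideal (Coord (Fin 5) 1)) (z : Coord (Fin 5) 1)
    (h : ∀ e : Fin 1 → ℕ, weightedHomogeneousComponent (S.V.mdeg 1) e z ∈ J) : z ∈ J := by
  have h1 : (∑ᶠ e, weightedHomogeneousComponent (S.V.mdeg 1) e z) = z :=
    sum_weightedHomogeneousComponent _ z
  rw [← h1]
  exact finsum_induction (p := fun x => x ∈ J) (zero_mem J) (fun _ _ => add_mem) h

/-- the power with exponent `e` of a homogeneous element -/
lemma pow_hom {z : Coord (Fin 5) 1} {d : Fin 1 → ℕ} (hz : IsWeightedHomogeneous (S.V.mdeg 1) z d) :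
    IsWeightedHomogeneous (S.V.mdeg 1) (z ^ S.e) (fun _ => S.e * d 0) := by
  have h := hz.pow S.e
  convert h using 1
  funext i
  rw [Subsingleton.elim i 0]
  simp

lemma he : 1 ≤ S.e := Nat.pos_of_dvd_of_pos S.hep S.hp

/-! ### The integral subscheme of the section given by a prime ideal of `ℂ[s, t, y]` -/

/-- For a prime ideal `G` of `ℂ[s, t, y]` with `A` not in `G` there is an integral subscheme of the
section, not in `A = 0`, whose ideal contains a homogeneous polynomial in `s, t, y` if and only if it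
is in `G`, and which contains every point of the section, not in `A = 0`, whose ideal contains `G`. -/
theorem exists_pt (G : Ideal (MvPolynomial (Fin 3) ℂ)) [hG : G.IsPrime] (hs : S.A ∉ G) :
    ∃ P : Pt S.V 1, S.pY.I ≤ P.I ∧
      (∀ (f : MvPolynomial (Fin 3) ℂ) (n : ℕ), IsWeightedHomogeneous S.w3 f n →
        (inc f ∈ P.I ↔ f ∈ G)) ∧
      ∀ Q : Pt S.V 1, (X (0, 3) : Coord (Fin 5) 1) ∈ Q.I → S.A1 ∉ Q.I →
        (∀ (f : MvPolynomial (Fin 3) ℂ) (n : ℕ), IsWeightedHomogeneous S.w3 f n → f ∈ G →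
          inc f ∈ Q.I) → P.I ≤ Q.I := by
  classical
  let A := MvPolynomial (Fin 3) ℂ ⧸ G
  haveI : IsDomain A := Ideal.Quotient.isDomain G
  let K := AlgebraicClosure (FractionRing A)
  let κ : A →ₐ[ℂ] K := IsScalarTower.toAlgHom ℂ A K
  have hκ : Function.Injective κ :=
    (RingHom.injective (algebraMap (FractionRing A) K)).comp
      (IsFractionRing.injective A (FractionRing A))
  let π : MvPolynomial (Fin 3) ℂ →ₐ[ℂ] K := κ.comp (Ideal.Quotient.mkₐ ℂ G)
  have hπ : ∀ f, π f = 0 ↔ f ∈ G := by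
    intro f
    have h1 : π f = κ (Ideal.Quotient.mk G f) := rfl
    rw [h1, map_eq_zero_iff κ hκ, Ideal.Quotient.eq_zero_iff_mem]
  have hs0 : π S.A ≠ 0 := fun h => hs ((hπ _).1 h)
  obtain ⟨v, hv⟩ := IsAlgClosed.exists_pow_nat_eq (-π S.B / π S.A) S.he
  let d : Fin 5 → K := ![v, π (X 0), π (X 1), 0, π (X 2)]
  have hval : ∀ f : MvPolynomial (Fin 3) ℂ,
      aeval (fun u : Fin 1 × Fin 5 => d u.2) (inc f) = π f := by
    intro f
    have h : (aeval (fun u : Fin 1 × Fin 5 => d u.2) : Coord (Fin 5) 1 →ₐ[ℂ] K).comp inc = π := by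
      apply MvPolynomial.algHom_ext
      intro i
      rw [AlgHom.comp_apply]
      fin_cases i
      · exact (congrArg _ inc_X0).trans (aeval_X _ _)
      · exact (congrArg _ inc_X1).trans (aeval_X _ _)
      · exact (congrArg _ inc_X2).trans (aeval_X _ _)
    exact congrArg (fun φ => φ f) h
  have hF : aeval (fun u : Fin 1 × Fin 5 => d u.2) (inFactor 1 0 S.F) = 0 := by
    have h3 : (X (0, 3) : Coord (Fin 5) 1) ∈
        RingHom.ker (aeval (fun u : Fin 1 × Fin 5 => d u.2) : Coord (Fin 5) 1 →ₐ[ℂ] K) := by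
      rw [RingHom.mem_ker, aeval_X]
      rfl
    have h1 := S.shape1 h3
    rw [RingHom.mem_ker, map_sub, sub_eq_zero] at h1
    rw [h1, map_add, map_mul, map_pow, aeval_X, ← inc_A, ← inc_B, hval, hval]
    change v ^ S.e * _ + _ = 0
    rw [hv, div_mul_cancel₀ _ hs0, neg_add_cancel]
  have hrel : ∃ j : Fin 5, d j ≠ 0 := by
    by_contra hcon
    push Not at hcon
    apply hs0
    have h1 : S.A ∈ RingHom.ker π := by
      have h2 : Ideal.span {(X 0 : MvPolynomial (Fin 3) ℂ), X 1} ≤ RingHom.ker π := by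
        rw [Ideal.span_le]
        rintro _ (rfl | rfl)
        · exact hcon 1
        · exact hcon 2
      exact h2 S.hAy
    exact h1
  let P : Pt S.V 1 := mkPt S.V (fun u : Fin 1 × Fin 5 => d u.2) (fun _ => hrel)
    (fun i f hf => by
      obtain ⟨g, rfl⟩ := Ideal.mem_span_singleton'.mp (show f ∈ Ideal.span {S.F} from hf)
      rw [map_mul]
      refine Ideal.mul_mem_left _ _ ?_
      rw [Subsingleton.elim i 0]
      exact (mem_genIdeal_of_homogeneous S.V _
        (inFactor_homogeneous S.V 0 (f := S.F) (n := S.d) S.hF)).2 hF)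
  have hPI : P.I = genIdeal S.V (fun u : Fin 1 × Fin 5 => d u.2) := rfl
  have hY : S.pY.I ≤ P.I := by
    apply S.pY_le
    · exact P.onX 0
    · rw [hPI, X_mem_genIdeal]
      rfl
  refine ⟨P, hY, ?_, ?_⟩
  · intro f n hf
    rw [hPI, mem_genIdeal_of_homogeneous S.V _ (S.inc_hom hf), hval, hπ]
  · intro Q h3 h1 hQ z hz
    have hQp := Q.prime
    have hQY : S.pY.I ≤ Q.I := S.pY_le _ (Q.onX 0) h3
    refine S.mem_of_comp _ _ fun e => ?_
    have hze := P.homog z hz e
    have hzh := weightedHomogeneousComponent_isWeightedHomogeneous (w := S.V.mdeg 1) e z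
    set y := weightedHomogeneousComponent (S.V.mdeg 1) e z with hy
    obtain ⟨M, f, hf, hf'⟩ := S.norm_form (S.pow_hom hzh)
    have h5 : inc f ∈ P.I := by
      have h6 : S.A1 ^ M * y ^ S.e ∈ P.I :=
        Ideal.mul_mem_left _ _ (Ideal.pow_mem_of_mem _ hze _ S.he)
      have h7 := sub_mem h6 (hY hf')
      rwa [sub_sub_cancel] at h7
    have h8 : f ∈ G := by
      rw [← hπ, ← hval]
      exact aeval_of_mem S.V _ h5
    have h9 := hQ f _ hf h8
    have h10 := add_mem (hQY hf') h9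
    rw [sub_add_cancel] at h10
    rcases hQp.mem_or_mem h10 with h11 | h11
    · exact absurd (hQp.mem_of_pow_mem _ h11) h1
    · exact hQp.mem_of_pow_mem _ h11

/-- a nonzero homogeneous polynomial in `s, t, y` does not vanish on the section -/
lemma inc_notMem {f : MvPolynomial (Fin 3) ℂ} {n : ℕ} (hf : IsWeightedHomogeneous S.w3 f n)
    (h0 : f ≠ 0) : inc f ∉ S.pY.I := by
  obtain ⟨P, h1, h2, -⟩ := S.exists_pt ⊥ (by
    rw [Ideal.mem_bot]
    exact S.hA0)
  intro h
  exact h0 ((Ideal.mem_bot).1 ((h2 f n hf).1 (h1 h)))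

lemma A1_pY : S.A1 ∉ S.pY.I := S.inc_notMem S.hA S.hA0

end MD

end Pool.Agent.RCH.Mn
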