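import Pool.Agent.RCH.Mn8g1

/-!
# The curves of the section `Y` of Theorem M
-/

set_option autoImplicit false

open MvPolynomial

namespace Pool.Agent.RCH.Mn

namespace MD

open Wd

variable (S : MD)

/-- an order of vanishing is positive -/
lemma one_le_ord {P Q : Pt S.V 1} (h : CodimOne P.I Q.I) {g : Coord (Fin 5) 1} (hgP : g ∉ P.I)
    (hgQ : g ∈ Q.I) : 1 ≤ (haveI := Q.prime; (ordAt P.I Q.I g).toNat) := by
  have hX := P.prime
  have hY := Q.prime
  have h1 : ordAt P.I Q.I g ≠ ⊤ := ordAt_ne_top h hgP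
  have h2 : ordAt P.I Q.I g ≠ 0 := by
    intro h0
    unfold ordAt at h0
    rw [Module.length_eq_zero_iff, Ideal.Quotient.subsingleton_iff] at h0
    have h1 : (P.I ⊔ Ideal.span {g}).map (algebraMap (Coord (Fin 5) 1)
        (Localization.AtPrime Q.I)) ≤
        IsLocalRing.maximalIdeal (Localization.AtPrime Q.I) := by
      rw [← Localization.AtPrime.map_eq_maximalIdeal]
      refine Ideal.map_mono ?_
      rw [sup_le_iff, Ideal.span_le, Set.singleton_subset_iff]
      exact ⟨h.1.le, hgQ⟩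
    rw [h0] at h1
    exact (IsLocalRing.maximalIdeal.isMaximal _).ne_top (top_le_iff.mp h1)
  rw [Nat.one_le_iff_ne_zero, Ne, ENat.toNat_eq_zero, not_or]
  exact ⟨h2, h1⟩

lemma ordAt_one' (P Q : Pt S.V 1) : (haveI := Q.prime; ordAt P.I Q.I (1 : Coord (Fin 5) 1)) = 0 := by
  have hQ := Q.prime
  exact ordAt_eq_zero (fun h => hQ.ne_top ((Ideal.eq_top_iff_one _).2 h))

/-- the value of the divisor of `g` -/
lemma div_one {P : Pt S.V 1} {g : Coord (Fin 5) 1} {c : Cycles S.V 1} (hg : g ∉ P.I)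
    (hc : IsDivisor S.V P g 1 c) (C : Pt S.V 1) :
    (CodimOne P.I C.I ∧ g ∈ C.I → 0 < c C) ∧ (¬ (CodimOne P.I C.I ∧ g ∈ C.I) → c C = 0) := by
  have hC := C.prime
  have h := hc C
  constructor
  · rintro ⟨h1, h2⟩
    rw [if_pos h1, S.ordAt_one' P C] at h
    have h3 := S.one_le_ord h1 hg h2
    rw [h]
    simp only [ENat.toNat_zero, Nat.cast_zero, sub_zero]
    exact_mod_cast h3
  · intro h1
    by_cases h2 : CodimOne P.I C.I
    · have h3 : g ∉ C.I := fun h3 => h1 ⟨h2, h3⟩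
      rw [if_pos h2, S.ordAt_one' P C, ordAt_eq_zero h3] at h
      rw [h]
      simp
    · rw [if_neg h2] at h
      exact h

theorem mem_dA {C : Pt S.V 1} : C ∈ S.dA.support ↔ CodimOne S.pY.I C.I ∧ S.A1 ∈ C.I := by
  have h := S.div_one S.A1_pY S.isDivisor_dA C
  rw [Finsupp.mem_support_iff]
  constructor
  · intro h1
    by_contra h2
    exact h1 (h.2 h2)
  · intro h1
    exact (h.1 h1).ne'

theorem dA_pos {C : Pt S.V 1} (h : C ∈ S.dA.support) : 0 < S.dA C :=
  (S.div_one S.A1_pY S.isDivisor_dA C).1 (S.mem_dA.1 h)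

/-- a curve on the section, not in `A = 0`, lies on a hypersurface in `s, t, y` -/
theorem exists_g (Q : Pt S.V 1) (hQ : CodimOne S.pY.I Q.I) :
    ∃ (g : MvPolynomial (Fin 3) ℂ) (k : ℕ), Prime g ∧ IsWeightedHomogeneous S.w3 g k ∧
      inc g ∈ Q.I := by
  have hQp := Q.prime
  have hYp := S.pY.prime
  obtain ⟨z, hz, hzY⟩ : ∃ z ∈ Q.I, z ∉ S.pY.I := Set.exists_of_ssubset hQ.1
  obtain ⟨e, he⟩ : ∃ e : Fin 1 → ℕ, weightedHomogeneousComponent (S.V.mdeg 1) e z ∉ S.pY.I := by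
    by_contra hcon
    push Not at hcon
    exact hzY (S.mem_of_comp _ z hcon)
  have hze := Q.homog z hz e
  have hzh := weightedHomogeneousComponent_isWeightedHomogeneous (w := S.V.mdeg 1) e z
  set y := weightedHomogeneousComponent (S.V.mdeg 1) e z with hy
  obtain ⟨M, f, hf, hf'⟩ := S.norm_form (S.pow_hom hzh)
  have h5 : inc f ∈ Q.I := by
    have h6 : S.A1 ^ M * y ^ S.e ∈ Q.I :=
      Ideal.mul_mem_left _ _ (Ideal.pow_mem_of_mem _ hze _ S.he)
    have h7 := sub_mem h6 (hQ.1.le hf')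
    rwa [sub_sub_cancel] at h7
  have h6 : f ≠ 0 := by
    rintro rfl
    rw [map_zero, sub_zero] at hf'
    rcases hYp.mem_or_mem hf' with h7 | h7
    · exact S.A1_pY (hYp.mem_of_pow_mem _ h7)
    · exact he (hYp.mem_of_pow_mem _ h7)
  have hcp : (Q.I.comap (inc : MvPolynomial (Fin 3) ℂ →ₐ[ℂ] Coord (Fin 5) 1).toRingHom).IsPrime :=
    Ideal.comap_isPrime _ _
  obtain ⟨g, k, hg, hgk, hgQ⟩ := exists_prime_homogeneous S.w3
    (Q.I.comap (inc : MvPolynomial (Fin 3) ℂ →ₐ[ℂ] Coord (Fin 5) 1).toRingHom) hf h6 h5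
  exact ⟨g, k, hg, hgk, hgQ⟩

/-- two curves on the section, not in `A = 0`, on the same hypersurface in `s, t, y` are equal -/
theorem eq_of_g (Q P : Pt S.V 1) (hQ : CodimOne S.pY.I Q.I) (hP : CodimOne S.pY.I P.I)
    (h1 : S.A1 ∉ Q.I) (h1' : S.A1 ∉ P.I)
    {g : MvPolynomial (Fin 3) ℂ} {k : ℕ} (hg : Prime g) (hgk : IsWeightedHomogeneous S.w3 g k)
    (hgQ : inc g ∈ Q.I) (hgP : inc g ∈ P.I) : P = Q := by
  have hGp : (Ideal.span {g}).IsPrime := (Ideal.span_singleton_prime hg.ne_zero).2 hg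
  have hX0 : S.A ∉ Ideal.span {g} := by
    intro h
    obtain ⟨a, ha⟩ := Ideal.mem_span_singleton'.1 h
    have h2 : inc S.A ∈ Q.I := by
      rw [← ha, map_mul]
      exact Ideal.mul_mem_left _ _ hgQ
    exact h1 h2
  obtain ⟨L, hL1, hL2, hL3⟩ := S.exists_pt (Ideal.span {g}) hX0
  have hLQ : ∀ R : Pt S.V 1, CodimOne S.pY.I R.I → S.A1 ∉ R.I →
      inc g ∈ R.I → L.I = R.I := by
    intro R hR hR1 hRg
    have hle : L.I ≤ R.I := by
      refine hL3 R (hR.1.le S.X3_pY) hR1 fun f n _ hf => ?_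
      obtain ⟨a, ha⟩ := Ideal.mem_span_singleton'.1 hf
      rw [← ha, map_mul]
      exact Ideal.mul_mem_left _ _ hRg
    rcases hle.eq_or_lt with h | h
    · exact h
    · exfalso
      have h2 := hR.2 _ L.prime hL1 h
      have h3 : inc g ∈ L.I := (hL2 g k hgk).2 (Ideal.mem_span_singleton_self g)
      rw [h2] at h3
      exact S.inc_notMem hgk hg.ne_zero h3
  exact Pt.ext' _ ((hLQ P hP h1' hgP).symm.trans (hLQ Q hQ h1 hgQ))

lemma X1_pY : (X (0, 1) : Coord (Fin 5) 1) ∉ S.pY.I := by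
  rw [← inc_X0]
  exact S.inc_notMem (isWeightedHomogeneous_X ℂ S.w3 (0 : Fin 3)) (MvPolynomial.X_ne_zero _)

lemma toNat_ordAt_pow {P Q : Pt S.V 1} (h : CodimOne P.I Q.I) {g : Coord (Fin 5) 1}
    (hg : g ∉ P.I) (n : ℕ) : (haveI := Q.prime; (ordAt P.I Q.I (g ^ n)).toNat) =
      n * (haveI := Q.prime; (ordAt P.I Q.I g).toNat) := by
  have hQ := Q.prime
  have hP := P.prime
  have h1 : ordAt P.I Q.I (g ^ n) = n * ordAt P.I Q.I g := by
    induction n with
    | zero => rw [pow_zero, S.ordAt_one' P Q, Nat.cast_zero, zero_mul]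
    | succ n ih =>
      rw [pow_succ, ordAt_mul h.1.le _ hg, ih]
      push_cast
      ring
  rw [h1, ENat.toNat_mul, ENat.toNat_natCast]

/-- the divisor of `G ^ n / H ^ m` on the section for homogeneous polynomials in `s, t, y` -/
theorem div_pow {g h : MvPolynomial (Fin 3) ℂ} {m n : ℕ} (hg : IsWeightedHomogeneous S.w3 g m)
    (hh : IsWeightedHomogeneous S.w3 h n) (hg0 : g ≠ 0) (hh0 : h ≠ 0) {c c' : Cycles S.V 1}
    (hc : IsDivisor S.V S.pY (inc g) 1 c) (hc' : IsDivisor S.V S.pY (inc h) 1 c') :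
    (n : ℤ) • c - (m : ℤ) • c' ∈ RatZero S.V 1 := by
  have hYp := S.pY.prime
  have hgY := S.inc_notMem hg hg0
  have hhY := S.inc_notMem hh hh0
  refine AddSubgroup.subset_closure ⟨S.pY, inc g ^ n, inc h ^ m, (fun _ => n * m), ?_, ?_,
    fun h => hgY (hYp.mem_of_pow_mem _ h), fun h => hhY (hYp.mem_of_pow_mem _ h), ?_⟩
  · have h1 := (S.inc_hom hg).pow n
    have h2 : (n • fun _ : Fin 1 => m) = fun _ => n * m := by
      funext i
      simp
    rwa [h2] at h1
  · have h1 := (S.inc_hom hh).pow m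
    have h2 : (m • fun _ : Fin 1 => n) = fun _ => n * m := by
      funext i
      simp [mul_comm]
    rwa [h2] at h1
  · intro Q
    have hQp := Q.prime
    have h1 := hc Q
    have h2 := hc' Q
    rw [Finsupp.sub_apply, Finsupp.smul_apply, Finsupp.smul_apply, h1, h2]
    split_ifs with hQ
    · rw [S.ordAt_one' S.pY Q, S.toNat_ordAt_pow hQ hgY, S.toNat_ordAt_pow hQ hhY]
      simp
    · simp

theorem exists_div {g : MvPolynomial (Fin 3) ℂ} {m : ℕ} (hg : IsWeightedHomogeneous S.w3 g m)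
    (hg0 : g ≠ 0) : ∃ c : Cycles S.V 1, IsDivisor S.V S.pY (inc g) 1 c :=
  exists_isDivisor S.V S.pY (S.inc_notMem hg hg0)
    (fun h => S.pY.prime.ne_top ((Ideal.eq_top_iff_one _).2 h))

/-- the divisor of `A ^ p / s ^ k` -/
theorem dA_ds : (S.p : ℤ) • S.dA - (S.k : ℤ) • S.ds ∈ RatZero S.V 1 := by
  refine S.div_pow S.hA (isWeightedHomogeneous_X ℂ S.w3 (0 : Fin 3)) S.hA0
    (MvPolynomial.X_ne_zero _) S.isDivisor_dA ?_
  rw [inc_X0]
  exact S.isDivisor_ds

lemma w3_pos (i : Fin 3) : 1 ≤ S.w3 i := by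
  fin_cases i
  · exact S.hp
  · exact S.hq
  · exact S.hr

lemma hk : 1 ≤ S.k := by
  rcases Nat.eq_zero_or_pos S.k with h | h
  · exfalso
    have h1 : ∃ u ∈ S.A.support, u ≠ 0 := by
      obtain ⟨u, hu⟩ := MvPolynomial.ne_zero_iff.1 S.hA0
      refine ⟨u, mem_support_iff.2 hu, ?_⟩
      rintro rfl
      have h2 : constantCoeff S.A = 0 := by
        have h3 : S.A ∈ RingHom.ker (constantCoeff : MvPolynomial (Fin 3) ℂ →+* ℂ) := by
          have h4 : Ideal.span {(X 0 : MvPolynomial (Fin 3) ℂ), X 1} ≤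
              RingHom.ker (constantCoeff : MvPolynomial (Fin 3) ℂ →+* ℂ) := by
            rw [Ideal.span_le]
            rintro _ (rfl | rfl)
            · exact constantCoeff_X _ _
            · exact constantCoeff_X _ _
          exact h4 S.hAy
        exact h3
      exact hu h2
    obtain ⟨u, hu, hu0⟩ := h1
    have h2 := S.hA (mem_support_iff.1 hu)
    rw [h] at h2
    obtain ⟨i, hi⟩ : ∃ i, u i ≠ 0 := by
      by_contra hcon
      push Not at hcon
      exact hu0 (Finsupp.ext hcon)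
    rw [Finsupp.weight_apply, Finsupp.sum_fintype _ _ (fun _ => by simp)] at h2
    have h3 := (Finset.sum_eq_zero_iff.1 h2) i (Finset.mem_univ i)
    rw [smul_eq_mul, Nat.mul_eq_zero] at h3
    have h4 := S.w3_pos i
    rcases h3 with h3 | h3
    · exact hi h3
    · have h5 : S.w3 i = 0 := h3
      omega
  · exact h

/-- **Generation.** -/
theorem gen {Q : Pt S.V 1} (hQ : CodimOne S.pY.I Q.I) : ∃ m : ℕ, 1 ≤ m ∧
    ∃ c : Cycles S.V 1, c.support ⊆ S.dA.support ∧ m • Finsupp.single Q 1 - c ∈ RatZero S.V 1 := by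
  classical
  by_cases h1 : S.A1 ∈ Q.I
  · refine ⟨1, le_rfl, Finsupp.single Q 1, ?_, ?_⟩
    · refine Finsupp.support_single_subset.trans ?_
      rw [Finset.singleton_subset_iff]
      exact S.mem_dA.2 ⟨hQ, h1⟩
    · rw [one_smul, sub_self]
      exact zero_mem _
  · obtain ⟨g, n, hg, hgn, hgQ⟩ := S.exists_g Q hQ
    obtain ⟨c, hc⟩ := S.exists_div hgn hg.ne_zero
    have hrat := S.div_pow hgn S.hA hg.ne_zero S.hA0 hc S.isDivisor_dA
    have hgY := S.inc_notMem hgn hg.ne_zero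
    have hcQ : 0 < c Q := (S.div_one hgY hc Q).1 ⟨hQ, hgQ⟩
    obtain ⟨m, hm⟩ : ∃ m : ℕ, c Q = m := ⟨(c Q).toNat, by omega⟩
    have hk := S.hk
    have hm1 : 1 ≤ m := by omega
    refine ⟨S.k * m, Nat.mul_pos hk hm1,
      (n : ℤ) • S.dA - (S.k : ℤ) • (c - Finsupp.single Q (c Q)), ?_, ?_⟩
    · intro P hP
      by_contra hPA
      rw [Finsupp.mem_support_iff] at hP
      apply hP
      rw [Finsupp.notMem_support_iff] at hPA
      have h2 : (c - Finsupp.single Q (c Q)) P = 0 := by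
        by_cases hPQ : P = Q
        · rw [hPQ, Finsupp.sub_apply, Finsupp.single_eq_same, sub_self]
        · rw [Finsupp.sub_apply, Finsupp.single_eq_of_ne hPQ, sub_zero]
          refine (S.div_one hgY hc P).2 fun ⟨h3, h4⟩ => ?_
          have h5 : S.A1 ∉ P.I := by
            intro h5
            have h6 := S.mem_dA.2 ⟨h3, h5⟩
            exact (Finsupp.mem_support_iff.1 h6) hPA
          exact hPQ (S.eq_of_g Q P hQ h3 h1 h5 hg hgn hgQ h4)
      rw [Finsupp.sub_apply, Finsupp.smul_apply, Finsupp.smul_apply, hPA, h2]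
      simp
    · have h2 : (S.k * m) • (Finsupp.single Q 1 : Cycles S.V 1) -
          ((n : ℤ) • S.dA - (S.k : ℤ) • (c - Finsupp.single Q (c Q))) =
            (S.k : ℤ) • c - (n : ℤ) • S.dA := by
        have h3 : (Finsupp.single Q (c Q) : Cycles S.V 1) = (m : ℤ) • Finsupp.single Q 1 := by
          rw [Finsupp.smul_single, smul_eq_mul, mul_one, hm]
        rw [h3]
        module
      rw [h2]
      exact hrat

end MD

end Pool.Agent.RCH.Mn
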