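import Pool.Agent.RCH.Mn8g2
import Pool.Agent.RCH.MTd

/-!
# The curves `A = B = 0` on the section `Y` of Theorem M
-/

set_option autoImplicit false

open MvPolynomial

namespace Pool.Agent.RCH.Mn

namespace MD

open Wd Dg

variable (S : MD)

lemma td_mv (τ : Type) [Fintype τ] : td (MvPolynomial τ ℂ) = Fintype.card τ := by
  rw [td, MvPolynomial.trdeg_of_isDomain]
  simp

/-- the coordinates of the cone over `a` -/
noncomputable def tau (a : Fin 3 → ℂ) : MvPolynomial (Fin 3) ℂ →ₐ[ℂ] MvPolynomial (Fin 1) ℂ :=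
  aeval fun i => C (a i) * X 0 ^ S.w3 i

lemma tau_hom (a : Fin 3 → ℂ) {f : MvPolynomial (Fin 3) ℂ} {n : ℕ}
    (hf : IsWeightedHomogeneous S.w3 f n) : S.tau a f = C (eval a f) * X 0 ^ n := by
  classical
  conv_lhs => rw [f.as_sum, map_sum]
  conv_rhs => rw [f.as_sum, map_sum, map_sum, Finset.sum_mul]
  refine Finset.sum_congr rfl fun u hu => ?_
  have h := hf (mem_support_iff.1 hu)
  rw [tau, aeval_monomial, eval_monomial, Finsupp.prod_fintype _ _ (fun _ => pow_zero _),
    Finsupp.prod_fintype _ _ (fun _ => pow_zero _), ← h, Finsupp.weight_apply,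
    Finsupp.sum_fintype _ _ (fun _ => by simp)]
  simp only [Fin.prod_univ_three, Fin.sum_univ_three, map_mul, map_pow, mul_pow, smul_eq_mul,
    pow_add, algebraMap_eq, ← pow_mul]
  rw [mul_comm (S.w3 0), mul_comm (S.w3 1), mul_comm (S.w3 2)]
  ring

lemma mem_ker_tau (a : Fin 3 → ℂ) {f : MvPolynomial (Fin 3) ℂ} {n : ℕ}
    (hf : IsWeightedHomogeneous S.w3 f n) : S.tau a f = 0 ↔ eval a f = 0 := by
  rw [S.tau_hom a hf]
  constructor
  · intro h
    rcases mul_eq_zero.1 h with h1 | h1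
    · exact C_injective _ _ (by rw [h1, C_0])
    · exact absurd h1 (pow_ne_zero _ (MvPolynomial.X_ne_zero _))
  · intro h
    rw [h, C_0, zero_mul]

section

variable (c : Ideal (MvPolynomial (Fin 3) ℂ)) (a : Fin 3 → ℂ)

/-- the coordinate ring of one point over `ℂ[s, t, y] / c`, with `v` free -/
noncomputable def alC : Coord (Fin 5) 1 →ₐ[ℂ] Polynomial (MvPolynomial (Fin 3) ℂ ⧸ c) :=
  aeval fun u : Fin 1 × Fin 5 => ![Polynomial.X, Polynomial.C (Ideal.Quotient.mk c (X 0)),
    Polynomial.C (Ideal.Quotient.mk c (X 1)), 0, Polynomial.C (Ideal.Quotient.mk c (X 2))] u.2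

end

/-- the map of the cone through `ℂ[s, t, y] / c` -/
lemma coneHom_eq (a : Fin 3 → ℂ) (c : Ideal (MvPolynomial (Fin 3) ℂ))
    (hc : RingHom.ker (S.tau a) = c) (z : Coord (Fin 5) 1) :
    S.coneHom a z = 0 ↔ alC c z = 0 := by
  let κ : (MvPolynomial (Fin 3) ℂ ⧸ c) →ₐ[ℂ] MvPolynomial (Fin 1) ℂ :=
    Ideal.Quotient.liftₐ c (S.tau a) (fun x hx => by rw [← hc] at hx; exact hx)
  have hκ : Function.Injective κ := by
    rw [injective_iff_map_eq_zero]
    intro x hx
    obtain ⟨x, rfl⟩ := Ideal.Quotient.mk_surjective x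
    have h1 : S.tau a x = 0 := hx
    rw [Ideal.Quotient.eq_zero_iff_mem, ← hc]
    exact h1
  have h1 : ((finSuccEquiv ℂ 1).toAlgHom.comp (S.coneHom a)) =
      (Polynomial.mapAlgHom κ).comp (alC c) := by
    apply MvPolynomial.algHom_ext
    rintro ⟨i, j⟩
    rw [AlgHom.comp_apply, AlgHom.comp_apply, coneHom, alC, aeval_X, aeval_X]
    have hk : ∀ i : Fin 3, κ (Ideal.Quotient.mk c (X i)) = C (a i) * X 0 ^ S.w3 i := by
      intro i
      change S.tau a (X i) = _
      rw [tau, aeval_X]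
    have hs : ∀ (b : ℂ) (n : ℕ), (finSuccEquiv ℂ 1).toAlgHom (C b * X 1 ^ n) =
        Polynomial.C (C b * X 0 ^ n) := by
      intro b n
      change finSuccEquiv ℂ 1 (C b * X 1 ^ n) = _
      rw [map_mul, map_pow, show (1 : Fin 2) = Fin.succ 0 from rfl, finSuccEquiv_X_succ,
        ← algebraMap_eq, AlgEquiv.commutes, Polynomial.C_mul, Polynomial.C_pow]
      rfl
    fin_cases j
    · change finSuccEquiv ℂ 1 (X 0) = Polynomial.map κ.toRingHom Polynomial.X
      rw [finSuccEquiv_X_zero, Polynomial.map_X]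
    · change (finSuccEquiv ℂ 1).toAlgHom (C (a 0) * X 1 ^ S.p) =
        Polynomial.map κ.toRingHom (Polynomial.C _)
      rw [hs, Polynomial.map_C]
      exact congrArg _ (hk 0).symm
    · change (finSuccEquiv ℂ 1).toAlgHom (C (a 1) * X 1 ^ S.q) =
        Polynomial.map κ.toRingHom (Polynomial.C _)
      rw [hs, Polynomial.map_C]
      exact congrArg _ (hk 1).symm
    · change (finSuccEquiv ℂ 1).toAlgHom 0 = Polynomial.mapAlgHom κ 0
      rw [map_zero, map_zero]
    · change (finSuccEquiv ℂ 1).toAlgHom (C (a 2) * X 1 ^ S.r) =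
        Polynomial.map κ.toRingHom (Polynomial.C _)
      rw [hs, Polynomial.map_C]
      exact congrArg _ (hk 2).symm
  have h2 := congrArg (fun φ => φ z) h1
  rw [AlgHom.comp_apply, AlgHom.comp_apply] at h2
  have h3 : Function.Injective (Polynomial.mapAlgHom κ) := Polynomial.map_injective κ.toRingHom hκ
  constructor
  · intro h
    rw [h, map_zero] at h2
    exact (map_eq_zero_iff _ h3).1 h2.symm
  · intro h
    rw [h, map_zero] at h2
    exact (map_eq_zero_iff _ (finSuccEquiv ℂ 1).injective).1 h2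

/-- an ideal containing `ω` and the elements of `c` contains the kernel -/
lemma alC_mem (c : Ideal (MvPolynomial (Fin 3) ℂ)) (J : Ideal (Coord (Fin 5) 1))
    (h3 : (X (0, 3) : Coord (Fin 5) 1) ∈ J) (hc : ∀ f ∈ c, inc f ∈ J) {z : Coord (Fin 5) 1}
    (hz : alC c z = 0) : z ∈ J := by
  let ι' : (MvPolynomial (Fin 3) ℂ ⧸ c) →ₐ[ℂ] (Coord (Fin 5) 1 ⧸ J) :=
    Ideal.Quotient.liftₐ c ((Ideal.Quotient.mkₐ ℂ J).comp inc)
      (fun x hx => Ideal.Quotient.eq_zero_iff_mem.2 (hc x hx))
  let δ : Polynomial (MvPolynomial (Fin 3) ℂ ⧸ c) →+* (Coord (Fin 5) 1 ⧸ J) :=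
    Polynomial.eval₂RingHom ι'.toRingHom (Ideal.Quotient.mk J (X (0, 0)))
  have hi : ∀ i : Fin 3, ι' (Ideal.Quotient.mk c (X i)) = Ideal.Quotient.mk J (inc (X i)) :=
    fun i => rfl
  have h1 : δ.comp (alC c).toRingHom = Ideal.Quotient.mk J := by
    apply MvPolynomial.ringHom_ext
    · intro b
      change δ (alC c (C b)) = _
      rw [alC, aeval_C]
      change Polynomial.eval₂ _ _ (Polynomial.C _) = _
      rw [Polynomial.eval₂_C]
      exact ι'.commutes b
    · rintro ⟨i, j⟩
      rw [Subsingleton.elim i 0]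
      change δ (alC c (X (0, j))) = _
      rw [alC, aeval_X]
      fin_cases j
      · change Polynomial.eval₂ _ _ Polynomial.X = _
        rw [Polynomial.eval₂_X]
        rfl
      · change Polynomial.eval₂ _ _ (Polynomial.C _) = _
        rw [Polynomial.eval₂_C]
        exact (hi 0).trans (congrArg _ inc_X0)
      · change Polynomial.eval₂ _ _ (Polynomial.C _) = _
        rw [Polynomial.eval₂_C]
        exact (hi 1).trans (congrArg _ inc_X1)
      · change δ 0 = _
        rw [map_zero]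
        exact (Ideal.Quotient.eq_zero_iff_mem.2 h3).symm
      · change Polynomial.eval₂ _ _ (Polynomial.C _) = _
        rw [Polynomial.eval₂_C]
        exact (hi 2).trans (congrArg _ inc_X2)
  rw [← Ideal.Quotient.eq_zero_iff_mem, ← h1]
  change δ (alC c z) = 0
  rw [hz, map_zero]

/-- the map of the cone on `ℂ[s, t, y]` -/
lemma coneHom_inc (a : Fin 3 → ℂ) (f : MvPolynomial (Fin 3) ℂ) :
    S.coneHom a (inc f) = 0 ↔ S.tau a f = 0 := by
  rw [S.coneHom_eq a _ rfl]
  have h1 : ∀ g, alC (RingHom.ker (S.tau a)) (inc g) =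
      Polynomial.C (Ideal.Quotient.mk (RingHom.ker (S.tau a)) g) := by
    intro g
    have h2 : (alC (RingHom.ker (S.tau a))).comp inc =
        (Polynomial.CAlgHom (R := ℂ)).comp (Ideal.Quotient.mkₐ ℂ (RingHom.ker (S.tau a))) := by
      apply MvPolynomial.algHom_ext
      intro i
      rw [AlgHom.comp_apply]
      fin_cases i
      · exact (congrArg _ inc_X0).trans (aeval_X _ _)
      · exact (congrArg _ inc_X1).trans (aeval_X _ _)
      · exact (congrArg _ inc_X2).trans (aeval_X _ _)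
    exact congrArg (fun φ => φ g) h2
  rw [h1, Polynomial.C_eq_zero, Ideal.Quotient.eq_zero_iff_mem]
  exact Iff.rfl

/-- the transcendence degree of the quotient by the kernel of a map to a polynomial ring whose
image contains powers of all the variables -/
theorem td_ker {σ τ : Type} [Finite σ] [Fintype τ] (φ : MvPolynomial σ ℂ →ₐ[ℂ] MvPolynomial τ ℂ)
    (h : ∀ j : τ, ∃ n : ℕ, 1 ≤ n ∧ ∃ y, φ y = X j ^ n) :
    td (MvPolynomial σ ℂ ⧸ RingHom.ker φ) = Fintype.card τ := by
  set I := RingHom.ker φ with hI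
  have hIp : I.IsPrime := RingHom.ker_isPrime _
  let κ : (MvPolynomial σ ℂ ⧸ I) →ₐ[ℂ] MvPolynomial τ ℂ :=
    Ideal.Quotient.liftₐ I φ (fun x hx => hx)
  have hκ : Function.Injective κ := by
    rw [injective_iff_map_eq_zero]
    intro x hx
    obtain ⟨x, rfl⟩ := Ideal.Quotient.mk_surjective x
    exact Ideal.Quotient.eq_zero_iff_mem.2 hx
  let _ : Algebra (MvPolynomial σ ℂ ⧸ I) (MvPolynomial τ ℂ) := κ.toRingHom.toAlgebra
  have hmap : ∀ x, algebraMap (MvPolynomial σ ℂ ⧸ I) (MvPolynomial τ ℂ) x = κ x :=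
    fun x => rfl
  have : IsScalarTower ℂ (MvPolynomial σ ℂ ⧸ I) (MvPolynomial τ ℂ) :=
    IsScalarTower.of_algebraMap_eq fun r => (κ.commutes r).symm
  have : FaithfulSMul (MvPolynomial σ ℂ ⧸ I) (MvPolynomial τ ℂ) :=
    (faithfulSMul_iff_algebraMap_injective _ _).2 hκ
  have hX : ∀ j : τ, IsIntegral (MvPolynomial σ ℂ ⧸ I) (X j : MvPolynomial τ ℂ) := by
    intro j
    obtain ⟨n, hn, y, hy⟩ := h j
    refine IsIntegral.of_pow (n := n) hn ?_
    have h1 : (X j : MvPolynomial τ ℂ) ^ n =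
        algebraMap (MvPolynomial σ ℂ ⧸ I) _ (Ideal.Quotient.mk I y) := by
      rw [hmap]
      exact hy.symm
    rw [h1]
    exact isIntegral_algebraMap
  have hint : Algebra.IsIntegral (MvPolynomial σ ℂ ⧸ I) (MvPolynomial τ ℂ) := by
    refine ⟨fun x => ?_⟩
    induction x using MvPolynomial.induction_on with
    | C b =>
      have h1 : (C b : MvPolynomial τ ℂ) = algebraMap (MvPolynomial σ ℂ ⧸ I) _
          (algebraMap ℂ _ b) := by
        rw [← IsScalarTower.algebraMap_apply]
        rfl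
      rw [h1]
      exact isIntegral_algebraMap
    | add x y hx hy => exact hx.add hy
    | mul_X x j hx => exact hx.mul (hX j)
  have h := td_eq_of_isAlgebraic (MvPolynomial σ ℂ ⧸ I) (MvPolynomial τ ℂ)
  rw [h, td_mv]

lemma coneHom_C (a : Fin 3 → ℂ) (b : ℂ) : S.coneHom a (C b) = C b := (S.coneHom a).commutes _

lemma coneHom_X (a : Fin 3 → ℂ) (i : Fin 3) :
    S.coneHom a (inc (X i)) = C (a i) * X 1 ^ S.w3 i := by
  fin_cases i
  · exact (congrArg _ inc_X0).trans (aeval_X _ _)
  · exact (congrArg _ inc_X1).trans (aeval_X _ _)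
  · exact (congrArg _ inc_X2).trans (aeval_X _ _)

/-- the kernel of the map of a cone has level two -/
theorem td_cone {a : Fin 3 → ℂ} (ha : a ≠ 0) :
    td (Coord (Fin 5) 1 ⧸ RingHom.ker (S.coneHom a)) = 2 := by
  obtain ⟨i, hi⟩ : ∃ i, a i ≠ 0 := by
    by_contra hcon
    push Not at hcon
    exact ha (funext hcon)
  have h := td_ker (S.coneHom a) (fun j => by
    fin_cases j
    · refine ⟨1, le_rfl, X (0, 0), ?_⟩
      rw [coneHom, aeval_X, pow_one]
      rfl
    · refine ⟨S.w3 i, S.w3_pos i, C (a i)⁻¹ * inc (X i), ?_⟩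
      rw [map_mul, coneHom_C, coneHom_X, ← mul_assoc, ← C_mul, inv_mul_cancel₀ hi, C_1, one_mul]
      rfl)
  rw [h]
  rfl

lemma td_tau {a : Fin 3 → ℂ} (ha : a ≠ 0) :
    td (MvPolynomial (Fin 3) ℂ ⧸ RingHom.ker (S.tau a)) = 1 := by
  obtain ⟨i, hi⟩ : ∃ i, a i ≠ 0 := by
    by_contra hcon
    push Not at hcon
    exact ha (funext hcon)
  have h := td_ker (S.tau a) (fun j => by
    refine ⟨S.w3 i, S.w3_pos i, C (a i)⁻¹ * X i, ?_⟩
    have h1 : S.tau a (C (a i)⁻¹) = C (a i)⁻¹ := (S.tau a).commutes _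
    rw [map_mul, h1, tau, aeval_X, ← mul_assoc, ← C_mul, inv_mul_cancel₀ hi, C_1, one_mul,
      Subsingleton.elim j 0])
  rw [h]
  rfl

lemma inc_component (n : ℕ) (f : MvPolynomial (Fin 3) ℂ) :
    inc (weightedHomogeneousComponent S.w3 n f) =
      weightedHomogeneousComponent (S.V.mdeg 1) (fun _ => n) (inc f) := by
  classical
  induction f using MvPolynomial.induction_on' with
  | monomial u a =>
    have h1 : IsWeightedHomogeneous S.w3 (monomial u a) (Finsupp.weight S.w3 u) :=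
      isWeightedHomogeneous_monomial _ _ _ rfl
    have h2 := S.inc_hom h1
    by_cases h : Finsupp.weight S.w3 u = n
    · subst h
      rw [h1.weightedHomogeneousComponent_same, h2.weightedHomogeneousComponent_same]
    · rw [h1.weightedHomogeneousComponent_ne n (Ne.symm h),
        h2.weightedHomogeneousComponent_ne _ (fun h' => h (congrFun h' 0).symm), map_zero]
  | add p q hp hq => rw [map_add, map_add, map_add, map_add, hp, hq]

/-- the ideal of a point vanishing at `a` is contained in the ideal of the cone over `a` -/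
lemma le_ker_tau (c : Ideal (MvPolynomial (Fin 3) ℂ)) (a : Fin 3 → ℂ)
    (hc : ∀ f ∈ c, ∀ n, weightedHomogeneousComponent S.w3 n f ∈ c)
    (ha : ∀ f ∈ c, eval a f = 0) : c ≤ RingHom.ker (S.tau a) := by
  intro f hf
  have h1 : (∑ᶠ n, weightedHomogeneousComponent S.w3 n f) = f :=
    sum_weightedHomogeneousComponent _ f
  rw [← h1]
  refine finsum_induction (p := fun x => x ∈ RingHom.ker (S.tau a)) (zero_mem _)
    (fun _ _ => add_mem) fun n => ?_
  exact (S.mem_ker_tau a (weightedHomogeneousComponent_isWeightedHomogeneous n f)).2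
    (ha _ (hc f hf n))

/-- the equations of the section vanish on a cone over a common zero of `A` and `B` -/
lemma pY_le_cone {a : Fin 3 → ℂ} (hA : eval a S.A = 0) (hB : eval a S.B = 0) :
    S.pY.I ≤ RingHom.ker (S.coneHom a) ∧ S.A1 ∈ RingHom.ker (S.coneHom a) := by
  have hA1 : S.A1 ∈ RingHom.ker (S.coneHom a) := (S.coneHom_inc a S.A).2 ((S.mem_ker_tau a S.hA).2 hA)
  have hB1 : S.B1 ∈ RingHom.ker (S.coneHom a) := (S.coneHom_inc a S.B).2 ((S.mem_ker_tau a S.hB).2 hB)
  have h3 : (X (0, 3) : Coord (Fin 5) 1) ∈ RingHom.ker (S.coneHom a) := by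
    rw [RingHom.mem_ker, coneHom, aeval_X]
    rfl
  have hF : inFactor 1 0 S.F ∈ RingHom.ker (S.coneHom a) := by
    have h4 := add_mem (S.shape1 h3) (add_mem (Ideal.mul_mem_left _ (X (0, 0) ^ S.e) hA1) hB1)
    rwa [sub_add_cancel] at h4
  refine ⟨S.pY_le _ (fun f hf => ?_) h3, hA1⟩
  obtain ⟨g, rfl⟩ := Ideal.mem_span_singleton'.mp (show f ∈ Ideal.span {S.F} from hf)
  rw [map_mul]
  exact Ideal.mul_mem_left _ _ hF

theorem dA_cone {C : Pt S.V 1} : C ∈ S.dA.support ↔
    ∃ a : Fin 3 → ℂ, a ≠ 0 ∧ eval a S.A = 0 ∧ eval a S.B = 0 ∧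
      C.I = RingHom.ker (S.coneHom a) := by
  have hCp := C.prime
  have hYp := S.pY.prime
  rw [S.mem_dA]
  constructor
  · rintro ⟨hC, hA⟩
    have h3 : (X (0, 3) : Coord (Fin 5) 1) ∈ C.I := hC.1.le S.X3_pY
    have hB : S.B1 ∈ C.I := by
      have h4 := sub_mem (S.rel_mem hC.1.le) (Ideal.mul_mem_left C.I (X (0, 0) ^ S.e) hA)
      rwa [add_sub_cancel_left] at h4
    have htd : td (Coord (Fin 5) 1 ⧸ C.I) = 2 := by
      have h4 := (codimOne_iff_td hC.1.le).1 hC
      have h5 : td (Coord (Fin 5) 1 ⧸ S.pY.I) = 3 := S.lev_pY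
      omega
    -- the prime ideal of `ℂ[s, t, y]`
    set c : Ideal (MvPolynomial (Fin 3) ℂ) :=
      C.I.comap (inc : MvPolynomial (Fin 3) ℂ →ₐ[ℂ] Coord (Fin 5) 1).toRingHom with hc
    have hcp : c.IsPrime := Ideal.comap_isPrime _ _
    have hmem : ∀ f, f ∈ c ↔ inc f ∈ C.I := fun f => Iff.rfl
    have hch : ∀ f ∈ c, ∀ n, weightedHomogeneousComponent S.w3 n f ∈ c := by
      intro f hf n
      rw [hmem, inc_component]
      exact C.homog _ hf _
    have hAc : S.A ∈ c := hA
    have hBc : S.B ∈ c := hB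
    -- its transcendence degree
    have htc : td (MvPolynomial (Fin 3) ℂ ⧸ c) ≤ 1 := by
      obtain ⟨g, n, hg, hgn, hgc⟩ := exists_prime_homogeneous S.w3 c S.hA S.hA0 hAc
      have hgp : (Ideal.span {g}).IsPrime := (Ideal.span_singleton_prime hg.ne_zero).2 hg
      have hle : Ideal.span {g} ≤ c := (Ideal.span_singleton_le_iff_mem _).2 hgc
      have hlt : Ideal.span {g} < c := by
        refine lt_of_le_of_ne hle fun h => ?_
        have h1 : g ∣ S.A := Ideal.mem_span_singleton.1 (h ▸ hAc)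
        have h2 : g ∣ S.B := Ideal.mem_span_singleton.1 (h ▸ hBc)
        exact hg.not_isUnit (S.cop h1 h2)
      have hlt2 : (⊥ : Ideal (MvPolynomial (Fin 3) ℂ)) < Ideal.span {g} := by
        rw [bot_lt_iff_ne_bot, Ne, Ideal.span_singleton_eq_bot]
        exact hg.ne_zero
      have h1 := td_lt_of_lt hlt
      have h2 := td_lt_of_lt hlt2
      have h3 : td (MvPolynomial (Fin 3) ℂ ⧸ (⊥ : Ideal (MvPolynomial (Fin 3) ℂ))) = 3 := by
        rw [td_congr (AlgEquiv.quotientBot ℂ (MvPolynomial (Fin 3) ℂ)), td_mv]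
        rfl
      omega
    -- a variable which is not in it
    obtain ⟨i, hi⟩ : ∃ i, (X i : MvPolynomial (Fin 3) ℂ) ∉ c := by
      by_contra hcon
      push Not at hcon
      have hle : S.pP.I ≤ C.I := by
        change Ideal.span {X (0, 1), X (0, 2), X (0, 3), X (0, 4)} ≤ C.I
        rw [Ideal.span_le]
        rintro _ (rfl | rfl | rfl | rfl)
        · rw [← inc_X0]
          exact hcon 0
        · rw [← inc_X1]
          exact hcon 1
        · exact h3
        · rw [← inc_X2]
          exact hcon 2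
      have hPp := S.pP.prime
      have h1 : td (Coord (Fin 5) 1 ⧸ S.pP.I) = 1 := S.lev_pP
      rcases hle.eq_or_lt with h2 | h2
      · rw [h2, htd] at h1
        omega
      · have h4 := td_lt_of_lt h2
        omega
    -- a point
    obtain ⟨a, hac, hai⟩ : ∃ a : Fin 3 → ℂ, (∀ f ∈ c, eval a f = 0) ∧ a i ≠ 0 := by
      by_contra hcon
      push Not at hcon
      apply hi
      have h1 := vanishingIdeal_zeroLocus_eq_radical (K := ℂ) c
      rw [hcp.radical] at h1
      rw [← h1, mem_vanishingIdeal_iff]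
      intro a ha
      rw [aeval_X]
      refine hcon a fun f hf => ?_
      have h2 := (mem_zeroLocus_iff).1 ha f hf
      rw [← aeval_eq_eval]
      exact h2
    have ha0 : a ≠ 0 := fun h => hai (by rw [h]; rfl)
    have hcle := S.le_ker_tau c a hch hac
    have hceq : RingHom.ker (S.tau a) = c := by
      have hkp : (RingHom.ker (S.tau a)).IsPrime := RingHom.ker_isPrime _
      rcases hcle.eq_or_lt with h1 | h1
      · exact h1.symm
      · have h2 := td_lt_of_lt h1
        have h4 := S.td_tau ha0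
        omega
    refine ⟨a, ha0, hac _ hAc, hac _ hBc, ?_⟩
    have hle : RingHom.ker (S.coneHom a) ≤ C.I := by
      intro z hz
      exact alC_mem c C.I h3 (fun f hf => hf) ((S.coneHom_eq a c hceq z).1 hz)
    have hkp : (RingHom.ker (S.coneHom a)).IsPrime := RingHom.ker_isPrime _
    rcases hle.eq_or_lt with h1 | h1
    · exact h1.symm
    · have h2 := td_lt_of_lt h1
      have h4 := S.td_cone ha0
      omega
  · rintro ⟨a, ha, hA, hB, hCa⟩
    obtain ⟨h1, h2⟩ := S.pY_le_cone hA hB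
    rw [← hCa] at h1 h2
    refine ⟨(codimOne_iff_td h1).2 ?_, h2⟩
    have h3 := S.td_cone ha
    rw [← hCa] at h3
    rw [h3]
    exact S.lev_pY

end MD

end Pool.Agent.RCH.Mn
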