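import Pool.Agent.RCH.MnDefs
import Pool.Agent.RCH.DgMap
import Pool.Agent.RCH.DgLin

/-!
# The section `Y` is irreducible
-/

set_option autoImplicit false

open MvPolynomial

namespace Pool.Agent.RCH.Mn

section general

variable {σ : Type} {w : σ → ℕ}

/-- If `J` is homogeneous, `X_i` is not a zero divisor modulo `J` and `J + (X_i)` is prime, then `J` is
prime. -/
theorem prime_of_sup [Finite σ] {J : Ideal (MvPolynomial σ ℂ)} (hJ : Dg.Hom w J) {i : σ}
    (hi : 0 < w i) (hx : Nzd J (X i)) (hp : (J ⊔ Ideal.span {(X i : MvPolynomial σ ℂ)}).IsPrime) :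
    J.IsPrime := by
  classical
  have ht : J ≠ ⊤ := fun h => hp.ne_top (by rw [h]; exact top_sup_eq _)
  by_contra hcon
  obtain ⟨a, b, d, e, ha, hb, haJ, hbJ, hab⟩ := Dg.exists_homog_of_not_prime hJ hcon ht
  have key : ∀ (m : ℕ) (c : MvPolynomial σ ℂ), IsWeightedHomogeneous w c m → c ∉ J →
      ∃ (k : ℕ) (c₁ : MvPolynomial σ ℂ), c - X i ^ k * c₁ ∈ J ∧
        c₁ ∉ J ⊔ Ideal.span {(X i : MvPolynomial σ ℂ)} := by
    intro m
    induction m using Nat.strong_induction_on with
    | _ m ih =>
      intro c hc hcJ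
      by_cases h : c ∈ J ⊔ Ideal.span {(X i : MvPolynomial σ ℂ)}
      · obtain ⟨j, hj, y', hy', hjy⟩ := Submodule.mem_sup.1 h
        obtain ⟨y, rfl⟩ := Ideal.mem_span_singleton.1 hy'
        have h1 := congrArg (weightedHomogeneousComponent w m) hjy
        rw [map_add, hc.weightedHomogeneousComponent_same] at h1
        by_cases hm : w i ≤ m
        · have h2 : weightedHomogeneousComponent w m (X i * y) =
              X i * weightedHomogeneousComponent w (m - w i) y := by
            have h3 := Dg.comp_mul_hom (isWeightedHomogeneous_X ℂ w i) y (m - w i)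
            rw [Nat.sub_add_cancel hm] at h3
            exact h3
          rw [h2] at h1
          have hy1 : weightedHomogeneousComponent w (m - w i) y ∉ J := by
            intro h4
            apply hcJ
            rw [← h1]
            exact add_mem (hJ j hj m) (Ideal.mul_mem_left _ _ h4)
          obtain ⟨k, c₁, h5, h6⟩ := ih (m - w i) (by omega) _
            (weightedHomogeneousComponent_isWeightedHomogeneous _ _) hy1
          refine ⟨k + 1, c₁, ?_, h6⟩
          have h7 : c - X i ^ (k + 1) * c₁ = weightedHomogeneousComponent w m j +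
              X i * (weightedHomogeneousComponent w (m - w i) y - X i ^ k * c₁) := by
            rw [← h1]
            ring
          rw [h7]
          exact add_mem (hJ j hj m) (Ideal.mul_mem_left _ _ h5)
        · exfalso
          apply hcJ
          have h2 : weightedHomogeneousComponent w m (X i * y) = 0 := by
            have h3 := Dg.comp_mul_hom_zero (isWeightedHomogeneous_X ℂ w i) y (k := m)
              (by omega)
            exact h3
          rw [h2, add_zero] at h1
          rw [← h1]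
          exact hJ j hj m
      · exact ⟨0, c, by rw [pow_zero, one_mul, sub_self]; exact J.zero_mem, h⟩
  obtain ⟨k, a₁, h1, h2⟩ := key d a ha haJ
  obtain ⟨l, b₁, h3, h4⟩ := key e b hb hbJ
  have hpow : ∀ (n : ℕ) (x : MvPolynomial σ ℂ), X i ^ n * x ∈ J → x ∈ J := by
    intro n
    induction n with
    | zero =>
      intro x hx
      rwa [pow_zero, one_mul] at hx
    | succ n ih =>
      intro x hx'
      rw [pow_succ', mul_assoc] at hx'
      exact ih x (hx _ hx')
  have h5 : a₁ * b₁ ∈ J := by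
    apply hpow (k + l)
    have h6 : X i ^ (k + l) * (a₁ * b₁) = a * b - ((a - X i ^ k * a₁) * b +
        X i ^ k * a₁ * (b - X i ^ l * b₁)) := by
      rw [pow_add]
      ring
    rw [h6]
    exact sub_mem hab (add_mem (Ideal.mul_mem_right _ _ h1) (Ideal.mul_mem_left _ _ h3))
  rcases hp.mem_or_mem (Ideal.mem_sup_left h5) with h | h
  · exact h2 h
  · exact h4 h

end general

/-- the polynomials in `s, t, y` -/
abbrev K3 : Type := MvPolynomial (Fin 3) ℂ

/-- a form modulo `ω`, as a polynomial in `v` -/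
noncomputable def toK : MvPolynomial (Fin 5) ℂ →ₐ[ℂ] Polynomial K3 :=
  aeval ![Polynomial.X, Polynomial.C (X 0), Polynomial.C (X 1), 0, Polynomial.C (X 2)]

lemma toK_X0 : toK (X 0) = Polynomial.X := by rw [toK, aeval_X]; rfl
lemma toK_X1 : toK (X 1) = Polynomial.C (X 0) := by rw [toK, aeval_X]; rfl
lemma toK_X2 : toK (X 2) = Polynomial.C (X 1) := by rw [toK, aeval_X]; rfl
lemma toK_X3 : toK (X 3) = 0 := by rw [toK, aeval_X]; rfl
lemma toK_X4 : toK (X 4) = Polynomial.C (X 2) := by rw [toK, aeval_X]; rfl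

/-- a section of `toK` -/
noncomputable def secK : Polynomial K3 →+* MvPolynomial (Fin 5) ℂ :=
  Polynomial.eval₂RingHom (rename ![1, 2, 4] : K3 →ₐ[ℂ] MvPolynomial (Fin 5) ℂ).toRingHom (X 0)

lemma toK_rename (f : K3) : toK (rename ![1, 2, 4] f) = Polynomial.C f := by
  have h : (toK.comp (rename ![1, 2, 4])) =
      (Algebra.ofId K3 (Polynomial K3)).restrictScalars ℂ := by
    apply MvPolynomial.algHom_ext
    intro i
    rw [AlgHom.comp_apply, rename_X]
    fin_cases i
    · exact toK_X1
    · exact toK_X2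
    · exact toK_X4
  exact DFunLike.congr_fun h f

lemma toK_secK (f : Polynomial K3) : toK (secK f) = f := by
  have h : toK.toRingHom.comp secK = RingHom.id _ := by
    apply Polynomial.ringHom_ext
    · intro a
      rw [RingHom.comp_apply, secK, Polynomial.coe_eval₂RingHom, Polynomial.eval₂_C]
      exact toK_rename a
    · rw [RingHom.comp_apply, secK, Polynomial.coe_eval₂RingHom, Polynomial.eval₂_X]
      exact toK_X0
  exact RingHom.congr_fun h f

lemma toK_surjective : Function.Surjective toK := fun f => ⟨secK f, toK_secK f⟩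

lemma sub_secK_mem (f : MvPolynomial (Fin 5) ℂ) :
    f - secK (toK f) ∈ Ideal.span {(X 3 : MvPolynomial (Fin 5) ℂ)} := by
  rw [← Ideal.Quotient.eq]
  have h : (Ideal.Quotient.mk (Ideal.span {(X 3 : MvPolynomial (Fin 5) ℂ)})) =
      ((Ideal.Quotient.mk (Ideal.span {(X 3 : MvPolynomial (Fin 5) ℂ)})).comp secK).comp
        toK.toRingHom := by
    have hX0 : secK Polynomial.X = X 0 := by
      rw [secK, Polynomial.coe_eval₂RingHom, Polynomial.eval₂_X]
    have hC : ∀ a : K3, secK (Polynomial.C a) = rename ![1, 2, 4] a := by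
      intro a
      rw [secK, Polynomial.coe_eval₂RingHom, Polynomial.eval₂_C]
      rfl
    apply MvPolynomial.ringHom_ext
    · intro r
      have h1 : toK.toRingHom (C r) = Polynomial.C (C r) := toK.commutes r
      rw [RingHom.comp_apply, RingHom.comp_apply, h1, hC, rename_C]
    · intro i
      rw [RingHom.comp_apply, RingHom.comp_apply]
      fin_cases i
      · have h1 : toK.toRingHom (X 0) = Polynomial.X := toK_X0
        simp only [Fin.zero_eta]
        rw [h1, hX0]
      · have h1 : toK.toRingHom (X 1) = Polynomial.C (X 0) := toK_X1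
        simp only [Fin.mk_one]
        rw [h1, hC, rename_X]
        rfl
      · have h1 : toK.toRingHom (X 2) = Polynomial.C (X 1) := toK_X2
        simp only [Fin.reduceFinMk]
        rw [h1, hC, rename_X]
        rfl
      · have h1 : toK.toRingHom (X 3) = 0 := toK_X3
        simp only [Fin.reduceFinMk]
        rw [h1, map_zero, map_zero]
        exact Ideal.Quotient.eq_zero_iff_mem.2 (Ideal.mem_span_singleton_self _)
      · have h1 : toK.toRingHom (X 4) = Polynomial.C (X 2) := toK_X4
        simp only [Fin.reduceFinMk]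
        rw [h1, hC, rename_X]
        rfl
  exact RingHom.congr_fun h f

lemma ker_toK : RingHom.ker toK = Ideal.span {(X 3 : MvPolynomial (Fin 5) ℂ)} := by
  apply le_antisymm
  · intro f hf
    have h1 : toK f = 0 := hf
    have h := sub_secK_mem f
    rwa [h1, map_zero, sub_zero] at h
  · rw [Ideal.span_le, Set.singleton_subset_iff]
    exact toK_X3

namespace MD

variable (S : MD)

lemma e_pos : 1 ≤ S.e := Nat.pos_of_dvd_of_pos S.hep S.hp

/-- `A V + B` -/
noncomputable def AB : Polynomial K3 := Polynomial.C S.A * Polynomial.X + Polynomial.C S.B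

lemma toK_F : toK S.F = Polynomial.expand K3 S.e S.AB := by
  have h := S.shape
  rw [← ker_toK] at h
  have h1 : toK (S.F - (X 0 ^ S.e * rename ![1, 2, 4] S.A + rename ![1, 2, 4] S.B)) = 0 := h
  rw [map_sub, sub_eq_zero, map_add, map_mul, map_pow, toK_X0, toK_rename, toK_rename] at h1
  rw [h1, AB, map_add, map_mul, Polynomial.expand_C, Polynomial.expand_C, Polynomial.expand_X]
  ring

lemma AB_primitive : S.AB.IsPrimitive := by
  intro r hr
  rw [Polynomial.C_dvd_iff_dvd_coeff] at hr
  have h0 : r ∣ S.B := by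
    have := hr 0
    rwa [AB, Polynomial.coeff_add, Polynomial.coeff_C_mul, Polynomial.coeff_X_zero, mul_zero,
      zero_add, Polynomial.coeff_C_zero] at this
  have h1 : r ∣ S.A := by
    have := hr 1
    rwa [AB, Polynomial.coeff_add, Polynomial.coeff_C_mul, Polynomial.coeff_X_one, mul_one,
      Polynomial.coeff_C_succ, add_zero] at this
  exact S.cop h1 h0

/-- the exponents of `v` in a form are congruent modulo `e` -/
lemma coeff_toK {a : MvPolynomial (Fin 5) ℂ} {m : ℕ}
    (ha : IsWeightedHomogeneous ![S.N, S.p, S.q, S.w, S.r] a m) {n : ℕ}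
    (hn : (toK a).coeff n ≠ 0) : n * S.N ≡ m [MOD S.e] := by
  classical
  have h1 : toK a = ∑ s ∈ a.support, toK (monomial s (coeff s a)) := by
    conv_lhs => rw [MvPolynomial.as_sum a]
    rw [map_sum]
  rw [h1, Polynomial.finsetSum_coeff] at hn
  obtain ⟨s, hs, hs0⟩ := Finset.exists_ne_zero_of_sum_ne_zero hn
  have h2 := ha (mem_support_iff.1 hs)
  rw [Finsupp.weight_apply, Finsupp.sum_fintype _ _ (fun i => by simp), Fin.sum_univ_five] at h2
  simp only [smul_eq_mul] at h2
  have e0 : (![S.N, S.p, S.q, S.w, S.r] : Fin 5 → ℕ) 0 = S.N := rfl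
  have e1 : (![S.N, S.p, S.q, S.w, S.r] : Fin 5 → ℕ) 1 = S.p := rfl
  have e2 : (![S.N, S.p, S.q, S.w, S.r] : Fin 5 → ℕ) 2 = S.q := rfl
  have e3 : (![S.N, S.p, S.q, S.w, S.r] : Fin 5 → ℕ) 3 = S.w := rfl
  have e4 : (![S.N, S.p, S.q, S.w, S.r] : Fin 5 → ℕ) 4 = S.r := rfl
  rw [e0, e1, e2, e3, e4] at h2
  have h3 : toK (monomial s (coeff s a)) = Polynomial.C (C (coeff s a)) *
      (Polynomial.X ^ s 0 * Polynomial.C (X 0) ^ s 1 * Polynomial.C (X 1) ^ s 2 * 0 ^ s 3 *
        Polynomial.C (X 2) ^ s 4) := by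
    rw [toK, aeval_monomial, Finsupp.prod_fintype _ _ (fun i => pow_zero _), Fin.prod_univ_five]
    rfl
  rw [h3] at hs0
  have h4 : s 3 = 0 := by
    by_contra h
    rw [zero_pow h, mul_zero, zero_mul, mul_zero, Polynomial.coeff_zero] at hs0
    exact hs0 rfl
  have h5 : s 0 = n := by
    by_contra h
    apply hs0
    rw [h4, pow_zero, mul_one]
    have h6 : Polynomial.C (C (coeff s a)) *
      (Polynomial.X ^ s 0 * Polynomial.C (X 0) ^ s 1 * Polynomial.C (X 1) ^ s 2 *
        Polynomial.C (X 2) ^ s 4) = Polynomial.C (C (coeff s a) * (X 0 ^ s 1 * X 1 ^ s 2 *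
          X 2 ^ s 4)) * (Polynomial.X ^ s 0 : Polynomial K3) := by
      simp only [Polynomial.C_mul, Polynomial.C_pow]
      ring
    rw [h6, Polynomial.coeff_C_mul_X_pow, if_neg (fun h7 => h h7.symm)]
  obtain ⟨a1, ha1⟩ := S.hep
  obtain ⟨a2, ha2⟩ := S.heq
  obtain ⟨a3, ha3⟩ := S.her
  rw [← h2, h4, h5]
  have h7 : n * S.N + s 1 * S.p + s 2 * S.q + 0 * S.w + s 4 * S.r =
      n * S.N + S.e * (s 1 * a1 + s 2 * a2 + s 4 * a3) := by
    rw [ha1, ha2, ha3]
    ring
  rw [h7]
  exact (Nat.ModEq.refl _).trans ((Nat.modEq_iff_dvd' (Nat.le_add_right _ _)).2 (by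
    rw [Nat.add_sub_cancel_left]
    exact dvd_mul_right _ _))

/-- a form is, modulo `ω`, a power of `v` times a polynomial in `v ^ e` -/
lemma exists_expand {a : MvPolynomial (Fin 5) ℂ} {m : ℕ}
    (ha : IsWeightedHomogeneous ![S.N, S.p, S.q, S.w, S.r] a m) :
    ∃ (i : ℕ) (a' : Polynomial K3), toK a = Polynomial.X ^ i * Polynomial.expand K3 S.e a' := by
  classical
  by_cases h0 : toK a = 0
  · exact ⟨0, 0, by rw [h0, map_zero, mul_zero]⟩
  · obtain ⟨n₀, hn₀⟩ : ∃ n, (toK a).coeff n ≠ 0 := by
      by_contra h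
      push Not at h
      exact h0 (Polynomial.ext fun n => by rw [h n, Polynomial.coeff_zero])
    refine ⟨n₀ % S.e, ∑ n ∈ (toK a).support, Polynomial.C ((toK a).coeff n) *
      Polynomial.X ^ (n / S.e), ?_⟩
    rw [map_sum, Finset.mul_sum]
    conv_lhs => rw [Polynomial.as_sum_support_C_mul_X_pow (toK a)]
    refine Finset.sum_congr rfl fun n hn => ?_
    have h1 := S.coeff_toK ha (Polynomial.mem_support_iff.1 hn)
    have h2 := S.coeff_toK ha hn₀
    have h3 : n ≡ n₀ [MOD S.e] :=
      Nat.ModEq.cancel_right_of_coprime (S.hNe.symm) (h1.trans h2.symm)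
    rw [map_mul, Polynomial.expand_C, map_pow, Polynomial.expand_X, ← pow_mul, mul_left_comm,
      ← pow_add]
    congr 2
    have h4 : n % S.e = n₀ % S.e := h3
    rw [← h4]
    exact (Nat.mod_add_div n S.e).symm

/-- **`F` modulo `ω` is irreducible.** -/
theorem F0_prime : (Ideal.span {(X 3 : MvPolynomial (Fin 5) ℂ), S.F}).IsPrime := by
  classical
  -- the ideal is the inverse image of the ideal of the image of `F`
  have hI : Ideal.span {(X 3 : MvPolynomial (Fin 5) ℂ), S.F} =
      (Ideal.span {toK S.F}).comap toK := by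
    have h1 : (Ideal.span {toK S.F}) = (Ideal.span {S.F}).map toK := by
      rw [Ideal.map_span, Set.image_singleton]
    rw [h1, Ideal.comap_map_of_surjective _ toK_surjective, ← RingHom.ker_eq_comap_bot, ker_toK,
      ← Ideal.span_union, Set.union_comm, Set.singleton_union]
  -- a root
  let K := FractionRing K3
  let L := AlgebraicClosure K
  have hA : algebraMap K3 K S.A ≠ 0 := fun h =>
    S.hA0 ((IsFractionRing.injective K3 K) (by rw [h, map_zero]))
  let θ : K := -(algebraMap K3 K S.B) / algebraMap K3 K S.A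
  obtain ⟨α, hα⟩ := IsAlgClosed.exists_pow_nat_eq (algebraMap K L θ) S.e_pos
  have hB0 : S.B ≠ 0 := by
    intro h
    have h1 := S.cop (dvd_refl S.A) (by rw [h]; exact dvd_zero _)
    obtain ⟨u, hu⟩ := h1
    have h2 := S.hAy
    rw [← hu] at h2
    have h3 := Ideal.eq_top_of_isUnit_mem _ h2 u.isUnit
    have h4 : (1 : K3) ∈ Ideal.span {(X 0 : K3), X 1} := by rw [h3]; trivial
    have h5 : (Ideal.span {(X 0 : K3), X 1}) ≤ RingHom.ker (eval (fun _ => (0 : ℂ))) := by
      rw [Ideal.span_le]
      rintro x (rfl | rfl)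
      · exact eval_X _
      · exact eval_X _
    have h6 : eval (fun _ => (0 : ℂ)) (1 : K3) = 0 := h5 h4
    rw [map_one] at h6
    exact one_ne_zero h6
  have hθ : θ ≠ 0 := by
    intro h
    rw [div_eq_zero_iff] at h
    rcases h with h | h
    · rw [neg_eq_zero] at h
      exact hB0 ((IsFractionRing.injective K3 K) (by rw [h, map_zero]))
    · exact hA h
  have hα0 : α ≠ 0 := by
    intro h
    rw [h, zero_pow (by have := S.e_pos; omega)] at hα
    exact hθ ((map_eq_zero _).1 hα.symm)
  let ev : Polynomial K3 →+* L :=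
    Polynomial.eval₂RingHom ((algebraMap K L).comp (algebraMap K3 K)) α
  have hev : ∀ f : Polynomial K3, ev (Polynomial.expand K3 S.e f) =
      algebraMap K L (Polynomial.eval₂ (algebraMap K3 K) θ f) := by
    intro f
    rw [Polynomial.hom_eval₂]
    change Polynomial.eval₂ _ α (Polynomial.expand K3 S.e f) = _
    rw [Polynomial.expand_eq_comp_X_pow, Polynomial.eval₂_comp, Polynomial.eval₂_X_pow, hα]
  -- membership is tested at the root
  have hroot : ∀ f : Polynomial K3, Polynomial.eval₂ (algebraMap K3 K) θ f = 0 → S.AB ∣ f := by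
    intro f hf
    refine S.AB_primitive.dvd_of_fraction_map_dvd_fraction_map (K := K) ?_
    have h1 : Polynomial.X - Polynomial.C θ ∣ f.map (algebraMap K3 K) := by
      rw [Polynomial.dvd_iff_isRoot, Polynomial.IsRoot, Polynomial.eval_map]
      exact hf
    refine dvd_trans ?_ h1
    refine ⟨Polynomial.C (algebraMap K3 K S.A)⁻¹, ?_⟩
    rw [AB, Polynomial.map_add, Polynomial.map_mul, Polynomial.map_C, Polynomial.map_X,
      Polynomial.map_C]
    have h2 : algebraMap K3 K S.B = -(algebraMap K3 K S.A * θ) := by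
      rw [mul_div_cancel₀ _ hA, neg_neg]
    rw [h2, Polynomial.C_neg, Polynomial.C_mul]
    have h3 : (Polynomial.C (algebraMap K3 K S.A) * Polynomial.C (algebraMap K3 K S.A)⁻¹) =
        (1 : Polynomial K) := by
      rw [← Polynomial.C_mul, mul_inv_cancel₀ hA, Polynomial.C_1]
    linear_combination (Polynomial.C θ - Polynomial.X) * h3
  have hmem : ∀ (a : MvPolynomial (Fin 5) ℂ) (m : ℕ),
      IsWeightedHomogeneous ![S.N, S.p, S.q, S.w, S.r] a m →
      (a ∈ Ideal.span {(X 3 : MvPolynomial (Fin 5) ℂ), S.F} ↔ ev (toK a) = 0) := by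
    intro a m ha
    rw [hI, Ideal.mem_comap, Ideal.mem_span_singleton]
    have hF0 : ev (toK S.F) = 0 := by
      rw [S.toK_F, hev, AB, Polynomial.eval₂_add, Polynomial.eval₂_mul, Polynomial.eval₂_C,
        Polynomial.eval₂_X, Polynomial.eval₂_C, mul_div_cancel₀ _ hA, neg_add_cancel, map_zero]
    constructor
    · rintro ⟨g, hg⟩
      rw [hg, map_mul, hF0, zero_mul]
    · intro h
      obtain ⟨i, a', ha'⟩ := S.exists_expand ha
      rw [ha', map_mul, map_pow, hev] at h
      have h1 : ev Polynomial.X = α := Polynomial.eval₂_X _ _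
      rw [h1] at h
      have h2 := (map_eq_zero _).1 ((mul_eq_zero.1 h).resolve_left (pow_ne_zero _ hα0))
      rw [ha', S.toK_F]
      exact Dvd.dvd.mul_left (map_dvd (Polynomial.expand K3 S.e) (hroot _ h2)) _
  have hhom : Dg.Hom ![S.N, S.p, S.q, S.w, S.r]
      (Ideal.span {(X 3 : MvPolynomial (Fin 5) ℂ), S.F}) := by
    have h1 : Dg.Hom ![S.N, S.p, S.q, S.w, S.r] (⊥ : Ideal (MvPolynomial (Fin 5) ℂ)) := by
      intro f hf n
      rw [Ideal.mem_bot] at hf
      rw [hf, map_zero]
      exact Ideal.zero_mem _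
    have h2 := Dg.hom_sup h1 (isWeightedHomogeneous_X ℂ ![S.N, S.p, S.q, S.w, S.r] (3 : Fin 5))
    have h3 := Dg.hom_sup h2 S.hF
    rw [bot_sup_eq, ← Ideal.span_union, Set.singleton_union] at h3
    exact h3
  by_contra hcon
  have ht : Ideal.span {(X 3 : MvPolynomial (Fin 5) ℂ), S.F} ≠ ⊤ := by
    intro h
    have h1 : (1 : MvPolynomial (Fin 5) ℂ) ∈ Ideal.span {(X 3 : MvPolynomial (Fin 5) ℂ), S.F} := by
      rw [h]
      trivial
    rw [hmem 1 0 (isWeightedHomogeneous_one _ _), map_one, map_one] at h1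
    exact one_ne_zero h1
  obtain ⟨a, b, d, e, ha, hb, haI, hbI, hab⟩ := Dg.exists_homog_of_not_prime hhom hcon ht
  rw [hmem a d ha] at haI
  rw [hmem b e hb] at hbI
  rw [hmem _ _ (ha.mul hb), map_mul, map_mul] at hab
  exact (mul_eq_zero.1 hab).elim haI hbI

/-- **`F` is irreducible.** -/
theorem F_prime : Prime S.F := by
  classical
  have hF0 : S.F ≠ 0 := by
    intro h
    apply S.monic
    rw [h, coeff_zero]
  have hp := S.F0_prime
  have hX3 : ¬ (X 3 : MvPolynomial (Fin 5) ℂ) ∣ S.F := by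
    rintro ⟨g, hg⟩
    apply S.monic
    rw [hg, coeff_X_mul', if_neg]
    simp
  have hnz : Nzd (Ideal.span {S.F}) (X 3 : MvPolynomial (Fin 5) ℂ) := by
    intro x hx
    obtain ⟨z, hz⟩ := Ideal.mem_span_singleton.1 hx
    have hP : Prime (X 3 : MvPolynomial (Fin 5) ℂ) := X_prime
    have h1 : (X 3 : MvPolynomial (Fin 5) ℂ) ∣ S.F * z := ⟨x, hz.symm⟩
    obtain ⟨z', rfl⟩ := (hP.dvd_or_dvd h1).resolve_left hX3
    refine Ideal.mem_span_singleton.2 ⟨z', ?_⟩
    have h2 : (X 3 : MvPolynomial (Fin 5) ℂ) * x = X 3 * (S.F * z') := by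
      rw [hz]
      ring
    exact mul_left_cancel₀ (X_ne_zero _) h2
  have hhom : Dg.Hom ![S.N, S.p, S.q, S.w, S.r] (Ideal.span {S.F}) := by
    have h1 : Dg.Hom ![S.N, S.p, S.q, S.w, S.r] (⊥ : Ideal (MvPolynomial (Fin 5) ℂ)) := by
      intro f hf n
      rw [Ideal.mem_bot] at hf
      rw [hf, map_zero]
      exact Ideal.zero_mem _
    have h3 := Dg.hom_sup h1 S.hF
    rwa [bot_sup_eq] at h3
  have h4 := prime_of_sup hhom (i := (3 : Fin 5)) (by exact S.hw) hnz (by
    rw [← Ideal.span_union, Set.union_comm, Set.singleton_union]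
    exact hp)
  exact (Ideal.span_singleton_prime hF0).1 h4

end MD

end Pool.Agent.RCH.Mn
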