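import Pool.Agent.RCH.Mn9a

/-!
# Row M9: the relation between the squares of the curves
-/

set_option autoImplicit false

open MvPolynomial

namespace Pool.Agent.RCH.Mn

namespace MD

variable (S : MD)

lemma sqA_sum {s : Finset (Pt S.V 1)} (h : S.dA.support ⊆ s) : S.sqA =
    ∑ C ∈ s, (S.dA C * S.G C) • box S.V ![C, C] := by
  have h1 : S.sqA = ∑ C ∈ S.dA.support, (S.dA C * S.G C) • box S.V ![C, C] := rfl
  rw [h1]
  refine Finset.sum_subset h ?_
  intro C _ hC
  rw [Finsupp.notMem_support_iff.1 hC, zero_mul, zero_smul]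

/-- a combination of the squares and the products of the curves which is rationally equivalent to a
combination of the vertex terms is torsion and has degree zero -/
lemma kill_aux {m : ℕ} (hm : 1 ≤ m) {a b n₁ n₂ : ℤ}
    (h : (m : ℤ) • (a • S.sqA - b • boxC S.V ![S.ds, S.ds]) +
      n₁ • box S.V ![S.pP, S.pY] + n₂ • box S.V ![S.pY, S.pP] ∈ RatZero S.V 2) :
    a • S.sqA - b • boxC S.V ![S.ds, S.ds] ∈ torZero S.V 2 := by
  classical
  have h1 : (m : ℤ) • (a • S.sqA - b • boxC S.V ![S.ds, S.ds]) =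
      ∑ C ∈ S.dA.support ∪ S.ds.support, ∑ C' ∈ S.dA.support ∪ S.ds.support,
        (m * ((if C = C' then a * (S.dA C * S.G C) else 0) - b * (S.ds C * S.ds C')) : ℤ) •
          box S.V ![C, C'] := by
    rw [S.sqA_sum (Finset.subset_union_left (s₂ := S.ds.support)),
      boxC_sum (Finset.subset_union_right (s₁ := S.dA.support))
        (Finset.subset_union_right (s₁ := S.dA.support)), Finset.smul_sum, Finset.smul_sum,
      ← Finset.sum_sub_distrib, Finset.smul_sum]
    refine Finset.sum_congr rfl fun C hC => ?_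
    have h2 : ∀ C' ∈ S.dA.support ∪ S.ds.support,
        (m * ((if C = C' then a * (S.dA C * S.G C) else 0) - b * (S.ds C * S.ds C')) : ℤ) •
          box S.V ![C, C'] = (if C = C' then (m * (a * (S.dA C * S.G C)) : ℤ) •
            box S.V ![C, C'] else 0) - (m : ℤ) • b • (S.ds C * S.ds C') • box S.V ![C, C'] := by
      intro C' _
      split_ifs
      · module
      · module
    rw [Finset.sum_congr rfl h2, Finset.sum_sub_distrib, Finset.sum_ite_eq, if_pos hC, smul_sub,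
      Finset.smul_sum, Finset.smul_sum, smul_smul, smul_smul, mul_assoc]
  have h3 := S.kill (S.dA.support ∪ S.ds.support) (by
    intro C hC
    rcases Finset.mem_union.1 hC with hC | hC
    · exact (S.degPt_dA hC).1
    · exact S.hasRk_of_lev (S.lev_ds hC))
    (fun C C' => m * ((if C = C' then a * (S.dA C * S.G C) else 0) - b * (S.ds C * S.ds C')))
    n₁ n₂ (by
      rw [← h1]
      exact torZero_of_ratZero h)
  rw [h3.1, h3.2.1, zero_smul, zero_smul, add_zero, add_zero] at h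
  refine torZero_of_smul hm (torZero_of_ratZero ?_)
  rwa [natCast_zsmul] at h

/-- **(★)** -/
theorem star : ((S.p : ℤ) * S.d) • S.sqA - ((S.r : ℤ) * S.k * S.q) • boxC S.V ![S.ds, S.ds] ∈
    torZero S.V 2 := by
  obtain ⟨m, n₁, n₂, hm, h⟩ := S.star_aux
  exact S.kill_aux hm h

/-- the divisors of `A` and of `s` are proportional -/
lemma ds_dA : ((S.k : ℤ) * S.k) • boxC S.V ![S.ds, S.ds] -
    ((S.p : ℤ) * S.p) • boxC S.V ![S.dA, S.dA] ∈ torZero S.V 2 := by
  have h := torZero_of_ratZero S.dA_ds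
  have h1 := bx_torsion_left h ((S.k : ℤ) • S.ds)
  have h2 := bx_torsion_right h ((S.p : ℤ) • S.dA)
  have h3 := neg_mem (add_mem h1 h2)
  rw [← bx_apply, ← bx_apply]
  have h4 : ((S.k : ℤ) * S.k) • bx S.V S.ds S.ds - ((S.p : ℤ) * S.p) • bx S.V S.dA S.dA =
      -(bx S.V ((S.p : ℤ) • S.dA - (S.k : ℤ) • S.ds) ((S.k : ℤ) • S.ds) +
        bx S.V ((S.p : ℤ) • S.dA) ((S.p : ℤ) • S.dA - (S.k : ℤ) • S.ds)) := by
    simp only [map_sub, LinearMap.sub_apply, map_smul, LinearMap.smul_apply, smul_sub, smul_smul]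
    rw [mul_comm (S.k : ℤ) (S.p : ℤ)]
    abel
  rw [h4]
  exact h3

/-- **The quadratic relation.** -/
theorem quad : ((S.k : ℤ) * S.d) • S.sqA - ((S.p : ℤ) * S.q * S.r) • boxC S.V ![S.dA, S.dA] ∈
    torZero S.V 2 ∧
    (S.k * S.d : ℝ) = S.p * S.q * S.r * ∑ C ∈ S.dA.support, (S.dA C : ℝ) / S.G C := by
  classical
  have hp : 1 ≤ S.p := S.hp
  have h1 : ((S.k : ℤ) * S.d) • S.sqA - ((S.p : ℤ) * S.q * S.r) • boxC S.V ![S.dA, S.dA] ∈
      torZero S.V 2 := by
    refine torZero_of_smul (k := S.p) hp ?_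
    rw [← natCast_zsmul]
    have h2 : (S.p : ℤ) • (((S.k : ℤ) * S.d) • S.sqA -
        ((S.p : ℤ) * S.q * S.r) • boxC S.V ![S.dA, S.dA]) =
        (S.k : ℤ) • (((S.p : ℤ) * S.d) • S.sqA -
          ((S.r : ℤ) * S.k * S.q) • boxC S.V ![S.ds, S.ds]) +
        ((S.r : ℤ) * S.q) • (((S.k : ℤ) * S.k) • boxC S.V ![S.ds, S.ds] -
          ((S.p : ℤ) * S.p) • boxC S.V ![S.dA, S.dA]) := by
      module
    rw [h2]
    exact add_mem (AddSubgroup.zsmul_mem _ S.star _) (AddSubgroup.zsmul_mem _ S.ds_dA _)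
  refine ⟨h1, ?_⟩
  have h3 : ((S.k : ℤ) * S.d) • S.sqA - ((S.p : ℤ) * S.q * S.r) • boxC S.V ![S.dA, S.dA] =
      ∑ C ∈ S.dA.support, ∑ C' ∈ S.dA.support,
        ((if C = C' then (S.k : ℤ) * S.d * (S.dA C * S.G C) else 0) -
          (S.p : ℤ) * S.q * S.r * (S.dA C * S.dA C')) • box S.V ![C, C'] := by
    rw [S.sqA_sum (Finset.Subset.refl _), boxC_sum (Finset.Subset.refl _) (Finset.Subset.refl _),
      Finset.smul_sum, Finset.smul_sum, ← Finset.sum_sub_distrib]
    refine Finset.sum_congr rfl fun C hC => ?_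
    have h2 : ∀ C' ∈ S.dA.support, ((if C = C' then (S.k : ℤ) * S.d * (S.dA C * S.G C) else 0) -
          (S.p : ℤ) * S.q * S.r * (S.dA C * S.dA C')) • box S.V ![C, C'] =
        (if C = C' then ((S.k : ℤ) * S.d * (S.dA C * S.G C)) • box S.V ![C, C'] else 0) -
          ((S.p : ℤ) * S.q * S.r) • (S.dA C * S.dA C') • box S.V ![C, C'] := by
      intro C' _
      split_ifs
      · module
      · module
    rw [Finset.sum_congr rfl h2, Finset.sum_sub_distrib, Finset.sum_ite_eq, if_pos hC,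
      Finset.smul_sum, smul_smul]
  have h4 := (S.kill S.dA.support (fun C hC => (S.degPt_dA hC).1)
    (fun C C' => (if C = C' then (S.k : ℤ) * S.d * (S.dA C * S.G C) else 0) -
      (S.p : ℤ) * S.q * S.r * (S.dA C * S.dA C')) 0 0 (by
    rw [zero_smul, zero_smul, add_zero, add_zero, ← h3]
    exact h1)).2.2
  have hN : (S.N : ℝ) ≠ 0 := by
    have := S.hN
    exact_mod_cast (by omega : S.N ≠ 0)
  have hdeg : ∀ C ∈ S.dA.support, Dg.degPt S.V 2 C * (S.N * S.G C) = 1 := fun C hC =>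
    (S.degPt_dA hC).2
  have hGne : ∀ C ∈ S.dA.support, (S.G C : ℝ) ≠ 0 := by
    intro C hC h
    have h5 := hdeg C hC
    rw [h, mul_zero, mul_zero] at h5
    exact zero_ne_one h5
  have hdeg' : ∀ C ∈ S.dA.support, Dg.degPt S.V 2 C = 1 / (S.N * S.G C) := by
    intro C hC
    rw [eq_div_iff (mul_ne_zero hN (hGne C hC))]
    exact hdeg C hC
  -- the two parts of the degree
  have h5 : ∑ C ∈ S.dA.support, ∑ C' ∈ S.dA.support,
      ((((if C = C' then (S.k : ℤ) * S.d * (S.dA C * S.G C) else 0) -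
          (S.p : ℤ) * S.q * S.r * (S.dA C * S.dA C') : ℤ) : ℝ) * Dg.degPt S.V 2 C *
            Dg.degPt S.V 2 C') =
      (S.k * S.d : ℝ) / S.N ^ 2 * (∑ C ∈ S.dA.support, (S.dA C : ℝ) / S.G C) -
        (S.p * S.q * S.r : ℝ) / S.N ^ 2 * (∑ C ∈ S.dA.support, (S.dA C : ℝ) / S.G C) ^ 2 := by
    rw [sq (∑ C ∈ S.dA.support, (S.dA C : ℝ) / S.G C), Finset.sum_mul_sum, Finset.mul_sum,
      Finset.mul_sum, ← Finset.sum_sub_distrib]
    refine Finset.sum_congr rfl fun C hC => ?_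
    have h6 : ∀ C' ∈ S.dA.support,
        ((((if C = C' then (S.k : ℤ) * S.d * (S.dA C * S.G C) else 0) -
          (S.p : ℤ) * S.q * S.r * (S.dA C * S.dA C') : ℤ) : ℝ) * Dg.degPt S.V 2 C *
            Dg.degPt S.V 2 C') =
        (if C = C' then (S.k * S.d : ℝ) / S.N ^ 2 * ((S.dA C : ℝ) / S.G C) else 0) -
        (S.p * S.q * S.r : ℝ) / S.N ^ 2 * ((S.dA C : ℝ) / S.G C * ((S.dA C' : ℝ) / S.G C')) := by
      intro C' hC'
      rw [hdeg' C hC, hdeg' C' hC']
      have g1 := hGne C hC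
      have g2 := hGne C' hC'
      by_cases hCC : C = C'
      · subst hCC
        rw [if_pos rfl, if_pos rfl]
        push_cast
        field_simp
      · rw [if_neg hCC, if_neg hCC]
        push_cast
        field_simp
        ring
    rw [Finset.sum_congr rfl h6, Finset.sum_sub_distrib, Finset.sum_ite_eq, if_pos hC,
      ← Finset.mul_sum]
  rw [h5] at h4
  have hpos : 0 < ∑ C ∈ S.dA.support, (S.dA C : ℝ) / S.G C := by
    refine Finset.sum_pos ?_ ?_
    · intro C hC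
      have h7 : (0 : ℝ) < S.dA C := by exact_mod_cast S.dA_pos hC
      have h8 : (0 : ℝ) < S.G C := lt_of_le_of_ne (Nat.cast_nonneg _) (hGne C hC).symm
      exact div_pos h7 h8
    · obtain ⟨C, hC⟩ := S.exists_mem_dA
      exact ⟨C, hC⟩
  generalize ∑ C ∈ S.dA.support, (S.dA C : ℝ) / S.G C = t at h4 hpos ⊢
  have hN2 : (S.N : ℝ) ^ 2 ≠ 0 := pow_ne_zero _ hN
  have h9 : ((S.k * S.d : ℝ) - S.p * S.q * S.r * t) * t = 0 := by
    have h10 : ((S.k * S.d : ℝ) / S.N ^ 2 * t - (S.p * S.q * S.r : ℝ) / S.N ^ 2 * t ^ 2) *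
        S.N ^ 2 = ((S.k * S.d : ℝ) - S.p * S.q * S.r * t) * t := by
      field_simp
    rw [← h10, h4, zero_mul]
  have h11 := (mul_eq_zero.1 h9).resolve_right hpos.ne'
  linarith

end MD

end Pool.Agent.RCH.Mn
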