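import Pool.Agent.RCH.KcNil

/-!
# Sums over pairs of the exterior squares of differences
-/

set_option autoImplicit false

open MvPolynomial

namespace Pool.Agent.RCH.Mn

section pure

variable {α M : Type} [AddCommGroup M]

/-- the sum over the pairs, in an abelian group -/
lemma sum_pairs_aux (s : Finset α) (n G g : α → ℤ) (P : ℤ) (hG : ∀ C ∈ s, G C * g C = P)
    (B : α → α → M) :
    ∑ C ∈ s, ∑ C' ∈ s, (n C * n C' * (g C * g C')) • ((G C * G C) • B C C -
      (G C * G C') • B C C' - (G C' * G C) • B C' C + (G C' * G C') • B C' C') =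
    (2 * P) • ((∑ C ∈ s, n C * g C) • ∑ C ∈ s, (n C * G C) • B C C -
      P • ∑ C ∈ s, ∑ C' ∈ s, (n C * n C') • B C C') := by
  have h1 : ∑ C ∈ s, ∑ C' ∈ s, (n C * n C' * (g C * g C')) • ((G C * G C) • B C C) =
      P • ((∑ C ∈ s, n C * g C) • ∑ C ∈ s, (n C * G C) • B C C) := by
    rw [Finset.smul_sum, Finset.smul_sum]
    refine Finset.sum_congr rfl fun C hC => ?_
    rw [Finset.sum_smul, Finset.smul_sum]
    refine Finset.sum_congr rfl fun C' _ => ?_
    rw [smul_smul, smul_smul, smul_smul]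
    congr 1
    linear_combination (n C * n C' * g C' * G C) * hG C hC
  have h2 : ∑ C ∈ s, ∑ C' ∈ s, (n C * n C' * (g C * g C')) • ((G C' * G C') • B C' C') =
      P • ((∑ C ∈ s, n C * g C) • ∑ C ∈ s, (n C * G C) • B C C) := by
    rw [← h1, Finset.sum_comm]
    refine Finset.sum_congr rfl fun C _ => Finset.sum_congr rfl fun C' _ => ?_
    congr 1
    ring
  have h3 : ∑ C ∈ s, ∑ C' ∈ s, (n C * n C' * (g C * g C')) • ((G C * G C') • B C C') =
      P • (P • ∑ C ∈ s, ∑ C' ∈ s, (n C * n C') • B C C') := by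
    rw [Finset.smul_sum, Finset.smul_sum]
    refine Finset.sum_congr rfl fun C hC => ?_
    rw [Finset.smul_sum, Finset.smul_sum]
    refine Finset.sum_congr rfl fun C' hC' => ?_
    rw [smul_smul, smul_smul, smul_smul]
    congr 1
    linear_combination (n C * n C' * g C' * G C') * hG C hC + (n C * n C' * P) * hG C' hC'
  have h4 : ∑ C ∈ s, ∑ C' ∈ s, (n C * n C' * (g C * g C')) • ((G C' * G C) • B C' C) =
      P • (P • ∑ C ∈ s, ∑ C' ∈ s, (n C * n C') • B C C') := by
    rw [← h3, Finset.sum_comm]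
    refine Finset.sum_congr rfl fun C _ => Finset.sum_congr rfl fun C' _ => ?_
    congr 1
    ring
  have h5 : ∀ C C' : α, (n C * n C' * (g C * g C')) • ((G C * G C) • B C C -
      (G C * G C') • B C C' - (G C' * G C) • B C' C + (G C' * G C') • B C' C') =
      (n C * n C' * (g C * g C')) • ((G C * G C) • B C C) -
      (n C * n C' * (g C * g C')) • ((G C * G C') • B C C') -
      (n C * n C' * (g C * g C')) • ((G C' * G C) • B C' C) +
      (n C * n C' * (g C * g C')) • ((G C' * G C') • B C' C') := by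
    intro C C'
    rw [smul_add, smul_sub, smul_sub]
  simp only [h5, Finset.sum_add_distrib, Finset.sum_sub_distrib]
  rw [h1, h2, h3, h4]
  module

end pure

section box

variable {ι : Type} (X : WVar ι)

/-- the product of two cycles, as a bilinear map -/
noncomputable def bx : Cycles X 1 →ₗ[ℤ] Cycles X 1 →ₗ[ℤ] Cycles X 2 :=
  LinearMap.mk₂ ℤ (fun x y => boxC X ![x, y])
    (by
      intro x y z
      have h0 : ∀ w : Cycles X 1, (![w, z] : Fin 2 → Cycles X 1) =
          Function.update ![0, z] 0 w := by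
        intro w
        funext i
        fin_cases i <;> rfl
      rw [h0 (x + y), h0 x, h0 y]
      exact (boxM X 2).map_update_add ![0, z] 0 x y)
    (by
      intro c x z
      have h0 : ∀ w : Cycles X 1, (![w, z] : Fin 2 → Cycles X 1) =
          Function.update ![0, z] 0 w := by
        intro w
        funext i
        fin_cases i <;> rfl
      rw [h0 (c • x), h0 x]
      exact (boxM X 2).map_update_smul ![0, z] 0 c x)
    (by
      intro z x y
      have h0 : ∀ w : Cycles X 1, (![z, w] : Fin 2 → Cycles X 1) =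
          Function.update ![z, 0] 1 w := by
        intro w
        funext i
        fin_cases i <;> rfl
      rw [h0 (x + y), h0 x, h0 y]
      exact (boxM X 2).map_update_add ![z, 0] 1 x y)
    (by
      intro c z x
      have h0 : ∀ w : Cycles X 1, (![z, w] : Fin 2 → Cycles X 1) =
          Function.update ![z, 0] 1 w := by
        intro w
        funext i
        fin_cases i <;> rfl
      rw [h0 (c • x), h0 x]
      exact (boxM X 2).map_update_smul ![z, 0] 1 c x)

lemma bx_apply (x y : Cycles X 1) : bx X x y = boxC X ![x, y] := rfl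

lemma bx_single (P Q : Pt X 1) : bx X (Finsupp.single P 1) (Finsupp.single Q 1) =
    box X ![P, Q] := by
  have h : (![Finsupp.single P 1, Finsupp.single Q 1] : Fin 2 → Cycles X 1) =
      fun i => Finsupp.single (![P, Q] i) ((fun _ => (1 : ℤ)) i) := by
    funext i
    fin_cases i <;> rfl
  rw [bx_apply, h, boxC_single, Finset.prod_const_one, one_smul]

lemma extPow_two (x : Cycles X 1) : extPow X x 2 = bx X x x := by
  rw [extPow_eq_boxC, bx_apply]
  congr 1
  funext i
  fin_cases i <;> rfl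

lemma bx_self_sub (a b : ℤ) (x y : Cycles X 1) : bx X (a • x - b • y) (a • x - b • y) =
    (a * a) • bx X x x - (a * b) • bx X x y - (b * a) • bx X y x + (b * b) • bx X y y := by
  simp only [map_sub, LinearMap.sub_apply, map_smul, LinearMap.smul_apply, smul_sub, smul_smul]
  module

/-- **The sum over the pairs of the squares of the differences.** -/
theorem sum_pairs (s : Finset (Pt X 1)) (n G g : Pt X 1 → ℤ) (P : ℤ)
    (hG : ∀ C ∈ s, G C * g C = P) :
    ∑ C ∈ s, ∑ C' ∈ s, (n C * n C' * (g C * g C')) •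
      extPow X (G C • Finsupp.single C 1 - G C' • Finsupp.single C' 1) 2 =
    (2 * P) • ((∑ C ∈ s, n C * g C) • ∑ C ∈ s, (n C * G C) • box X ![C, C] -
      P • boxC X ![∑ C ∈ s, n C • Finsupp.single C 1, ∑ C ∈ s, n C • Finsupp.single C 1]) := by
  have h := sum_pairs_aux s n G g P hG
    fun C C' : Pt X 1 => bx X (Finsupp.single C 1) (Finsupp.single C' 1)
  have h1 : boxC X ![∑ C ∈ s, n C • Finsupp.single C 1, ∑ C ∈ s, n C • Finsupp.single C 1] =
      ∑ C ∈ s, ∑ C' ∈ s, (n C * n C') • bx X (Finsupp.single C 1) (Finsupp.single C' 1) := by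
    rw [← bx_apply, map_sum (bx X), LinearMap.sum_apply]
    refine Finset.sum_congr rfl fun C _ => ?_
    rw [map_sum]
    refine Finset.sum_congr rfl fun C' _ => ?_
    rw [map_smul, map_smul, LinearMap.smul_apply, smul_smul, mul_comm]
  rw [h1]
  simp only [extPow_two, bx_self_sub]
  rw [h]
  simp only [bx_single]

variable {X}

lemma torZero_of_zsmul {N : ℕ} {v : ℤ} (hv : v ≠ 0) {z : Cycles X N} (h : v • z ∈ torZero X N) :
    z ∈ torZero X N := by
  have h1 : 1 ≤ v.natAbs := Nat.one_le_iff_ne_zero.2 (Int.natAbs_ne_zero.2 hv)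
  refine torZero_of_smul h1 ?_
  rcases Int.natAbs_eq v with h2 | h2
  · rw [← natCast_zsmul, ← h2]
    exact h
  · rw [h2, neg_smul, natCast_zsmul] at h
    exact neg_mem_iff.1 h

theorem sum_pairs_torsion (s : Finset (Pt X 1)) (n G g : Pt X 1 → ℤ) (P u v : ℤ)
    (hG : ∀ C ∈ s, G C * g C = P) (hv : v ≠ 0) (hK : P * u = v * ∑ C ∈ s, n C * g C)
    (h : u • ∑ C ∈ s, (n C * G C) • box X ![C, C] -
      v • boxC X ![∑ C ∈ s, n C • Finsupp.single C 1, ∑ C ∈ s, n C • Finsupp.single C 1] ∈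
        torZero X 2) :
    ∑ C ∈ s, ∑ C' ∈ s, (n C * n C' * (g C * g C')) •
      extPow X (G C • Finsupp.single C 1 - G C' • Finsupp.single C' 1) 2 ∈ torZero X 2 := by
  refine torZero_of_zsmul hv ?_
  rw [sum_pairs X s n G g P hG]
  have h1 : v • (2 * P) • ((∑ C ∈ s, n C * g C) • ∑ C ∈ s, (n C * G C) • box X ![C, C] -
      P • boxC X ![∑ C ∈ s, n C • Finsupp.single C 1, ∑ C ∈ s, n C • Finsupp.single C 1]) =
      (2 * P * P) • (u • ∑ C ∈ s, (n C * G C) • box X ![C, C] -
        v • boxC X ![∑ C ∈ s, n C • Finsupp.single C 1, ∑ C ∈ s, n C • Finsupp.single C 1]) := by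
    rw [smul_sub, smul_sub, smul_sub, smul_smul, smul_smul, smul_smul, smul_smul, smul_smul,
      smul_smul]
    congr 1
    · congr 1
      linear_combination (-2 * P) * hK
    · congr 1
      ring
  rw [h1]
  exact AddSubgroup.zsmul_mem _ h _

section finite

variable [Finite ι]

/-- the products of cycles modulo torsion -/
lemma bx_torsion_left {x : Cycles X 1} (hx : x ∈ torZero X 1) (y : Cycles X 1) :
    bx X x y ∈ torZero X 2 := Kc.boxC_of_factor ![x, y] 0 hx

lemma bx_torsion_right {y : Cycles X 1} (hy : y ∈ torZero X 1) (x : Cycles X 1) :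
    bx X x y ∈ torZero X 2 := Kc.boxC_of_factor ![x, y] 1 hy

lemma extPow_sub_mem {x y : Cycles X 1} (h : x - y ∈ torZero X 1) :
    extPow X x 2 - extPow X y 2 ∈ torZero X 2 := by
  have h1 : extPow X x 2 - extPow X y 2 = bx X (x - y) x + bx X y (x - y) := by
    rw [extPow_two, extPow_two, map_sub, LinearMap.sub_apply, map_sub]
    abel
  rw [h1]
  exact add_mem (bx_torsion_left h _) (bx_torsion_right h _)

/-- a cycle with a multiple equal to a multiple of a cycle with torsion square -/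
lemma extPow_of_smul {x y : Cycles X 1} {a b : ℤ} (ha : a ≠ 0)
    (h : a • x - b • y ∈ torZero X 1) (hy : extPow X y 2 ∈ torZero X 2) :
    extPow X x 2 ∈ torZero X 2 := by
  have h1 := extPow_sub_mem h
  rw [extPow_smul, extPow_smul] at h1
  have h2 := add_mem h1 (AddSubgroup.zsmul_mem _ hy (b ^ 2))
  rw [sub_add_cancel] at h2
  exact torZero_of_zsmul (pow_ne_zero 2 ha) h2

/-- **Rank one.** If the differences are multiples of one cycle `δ` modulo torsion and a combination of
their squares with positive coefficients is torsion, the square of `δ` is torsion, or all the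
differences are. -/
theorem rank_one_aux (s : Finset (Pt X 1)) (c : Pt X 1 → Pt X 1 → ℤ)
    (hc : ∀ C ∈ s, ∀ C' ∈ s, 0 < c C C') (z : Pt X 1 → Pt X 1 → Cycles X 1) (δ : Cycles X 1)
    {a : ℤ} (ha : a ≠ 0) (b : Pt X 1 → Pt X 1 → ℤ)
    (hb : ∀ C ∈ s, ∀ C' ∈ s, a • z C C' - b C C' • δ ∈ torZero X 1)
    (h : ∑ C ∈ s, ∑ C' ∈ s, c C C' • extPow X (z C C') 2 ∈ torZero X 2) :
    extPow X δ 2 ∈ torZero X 2 ∨ ∀ C ∈ s, ∀ C' ∈ s, z C C' ∈ torZero X 1 := by
  by_cases h0 : ∀ C ∈ s, ∀ C' ∈ s, b C C' = 0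
  · right
    intro C hC C' hC'
    have h1 := hb C hC C' hC'
    rw [h0 C hC C' hC', zero_smul, sub_zero] at h1
    exact torZero_of_zsmul ha h1
  · left
    push Not at h0
    obtain ⟨D, hD, D', hD', hne⟩ := h0
    have h1 : ∑ C ∈ s, ∑ C' ∈ s, c C C' • ((a ^ 2) • extPow X (z C C') 2 -
        (b C C' ^ 2) • extPow X δ 2) ∈ torZero X 2 := by
      refine sum_mem fun C hC => sum_mem fun C' hC' => AddSubgroup.zsmul_mem _ ?_ _
      have h2 := extPow_sub_mem (hb C hC C' hC')
      rwa [extPow_smul, extPow_smul] at h2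
    have h2 : ∑ C ∈ s, ∑ C' ∈ s, c C C' • ((a ^ 2) • extPow X (z C C') 2 -
        (b C C' ^ 2) • extPow X δ 2) = (a ^ 2) • ∑ C ∈ s, ∑ C' ∈ s, c C C' • extPow X (z C C') 2 -
        (∑ C ∈ s, ∑ C' ∈ s, c C C' * b C C' ^ 2) • extPow X δ 2 := by
      simp only [smul_sub, Finset.sum_sub_distrib, Finset.smul_sum, Finset.sum_smul, smul_smul]
      congr 1
      refine Finset.sum_congr rfl fun C _ => Finset.sum_congr rfl fun C' _ => ?_
      rw [mul_comm]
    rw [h2] at h1
    have h3 := sub_mem (AddSubgroup.zsmul_mem _ h (a ^ 2)) h1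
    rw [sub_sub_cancel] at h3
    refine torZero_of_zsmul ?_ h3
    have h4 : 0 < ∑ C ∈ s, ∑ C' ∈ s, c C C' * b C C' ^ 2 := by
      refine Finset.sum_pos' (fun C hC => Finset.sum_nonneg fun C' hC' =>
        mul_nonneg (hc C hC C' hC').le (sq_nonneg _)) ⟨D, hD, ?_⟩
      exact Finset.sum_pos' (fun C' hC' => mul_nonneg (hc D hD C' hC').le (sq_nonneg _))
        ⟨D', hD', mul_pos (hc D hD D' hD') (by positivity)⟩
    exact h4.ne'

omit [Finite ι] in
/-- a common multiple for finitely many pairs -/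
lemma exists_common (s : Finset (Pt X 1)) (z : Pt X 1 → Pt X 1 → Cycles X 1) (δ : Cycles X 1)
    (h : ∀ C ∈ s, ∀ C' ∈ s, ∃ a : ℕ, 1 ≤ a ∧ ∃ b : ℤ, a • z C C' - b • δ ∈ torZero X 1) :
    ∃ a : ℕ, 1 ≤ a ∧ ∀ C ∈ s, ∀ C' ∈ s, ∃ b : ℤ, a • z C C' - b • δ ∈ torZero X 1 := by
  classical
  choose! a ha b hb using h
  refine ⟨∏ C ∈ s, ∏ C' ∈ s, a C C', ?_, fun C hC C' hC' => ?_⟩
  · exact Nat.one_le_iff_ne_zero.2 (Finset.prod_ne_zero_iff.2 fun C hC =>
      Finset.prod_ne_zero_iff.2 fun C' hC' => Nat.one_le_iff_ne_zero.1 (ha C hC C' hC'))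
  · have h1 : a C C' ∣ ∏ C ∈ s, ∏ C' ∈ s, a C C' :=
      (Finset.dvd_prod_of_mem (fun C' => a C C') hC').trans
        (Finset.dvd_prod_of_mem (fun C => ∏ C' ∈ s, a C C') hC)
    obtain ⟨k, hk⟩ := h1
    refine ⟨k * b C C', ?_⟩
    rw [hk, mul_comm, mul_smul, mul_smul, natCast_zsmul, ← smul_sub]
    exact AddSubgroup.nsmul_mem _ (hb C hC C' hC') k

/-- **Rank one, the squares of the cycles of degree zero.** -/
theorem square_of_rank_one (s : Finset (Pt X 1)) (c : Pt X 1 → Pt X 1 → ℤ)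
    (hc : ∀ C ∈ s, ∀ C' ∈ s, 0 < c C C') (e : Pt X 1 → Cycles X 1) (δ : Cycles X 1)
    (hδ : ∀ C ∈ s, ∀ C' ∈ s, ∃ a : ℕ, 1 ≤ a ∧ ∃ b : ℤ, a • (e C - e C') - b • δ ∈ torZero X 1)
    (h : ∑ C ∈ s, ∑ C' ∈ s, c C C' • extPow X (e C - e C') 2 ∈ torZero X 2)
    {x : Cycles X 1} {M : ℤ} (hM : M ≠ 0) (m : Pt X 1 → ℤ) (hm : ∑ C ∈ s, m C = 0)
    (hx : M • x - ∑ C ∈ s, m C • e C ∈ torZero X 1) : extPow X x 2 ∈ torZero X 2 := by
  obtain ⟨a, ha, hab⟩ := exists_common s (fun C C' => e C - e C') δ hδ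
  choose! b hb using hab
  have ha0 : (a : ℤ) ≠ 0 := by exact_mod_cast (by omega : a ≠ 0)
  have hb' : ∀ C ∈ s, ∀ C' ∈ s, (a : ℤ) • (e C - e C') - b C C' • δ ∈ torZero X 1 := by
    intro C hC C' hC'
    rw [natCast_zsmul]
    exact hb C hC C' hC'
  rcases s.eq_empty_or_nonempty with h0 | ⟨C₀, h0⟩
  · subst h0
    rw [Finset.sum_empty, sub_zero] at hx
    have h1 := extPow_sub_mem (x := x) (y := 0) (by
      rw [sub_zero]
      exact torZero_of_zsmul hM hx)
    rwa [extPow_zero_cycle (by norm_num), sub_zero] at h1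
  · have h1 : ∑ C ∈ s, m C • e C = ∑ C ∈ s, m C • (e C - e C₀) := by
      simp only [smul_sub, Finset.sum_sub_distrib]
      rw [← Finset.sum_smul, hm, zero_smul, sub_zero]
    rcases rank_one_aux s c hc (fun C C' => e C - e C') δ ha0 b hb' h with h2 | h2
    · -- the square of `δ` is torsion
      have h3 : ((a : ℤ) * M) • x - (∑ C ∈ s, m C * b C C₀) • δ ∈ torZero X 1 := by
        have h4 : ((a : ℤ) * M) • x - (∑ C ∈ s, m C * b C C₀) • δ =
            (a : ℤ) • (M • x - ∑ C ∈ s, m C • e C) +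
              ∑ C ∈ s, m C • ((a : ℤ) • (e C - e C₀) - b C C₀ • δ) := by
          rw [h1]
          have h5 : ∀ C, m C • ((a : ℤ) • (e C - e C₀) - b C C₀ • δ) =
              (a : ℤ) • (m C • (e C - e C₀)) - (m C * b C C₀) • δ := by
            intro C
            rw [smul_sub, smul_smul, smul_smul, smul_smul, mul_comm (m C) (a : ℤ)]
          simp only [h5, Finset.sum_sub_distrib]
          rw [← Finset.smul_sum, ← Finset.sum_smul]
          module
        rw [h4]
        refine add_mem (AddSubgroup.zsmul_mem _ hx _) (sum_mem fun C hC =>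
          AddSubgroup.zsmul_mem _ (hb' C hC C₀ h0) _)
      exact extPow_of_smul (mul_ne_zero ha0 hM) h3 h2
    · -- all the differences are torsion
      have h3 : M • x ∈ torZero X 1 := by
        have h4 : ∑ C ∈ s, m C • e C ∈ torZero X 1 := by
          rw [h1]
          exact sum_mem fun C hC => AddSubgroup.zsmul_mem _ (h2 C hC C₀ h0) _
        have h5 := add_mem hx h4
        rwa [sub_add_cancel] at h5
      have h6 := extPow_sub_mem (x := x) (y := 0) (by
        rw [sub_zero]
        exact torZero_of_zsmul hM h3)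
      rwa [extPow_zero_cycle (by norm_num), sub_zero] at h6

end finite

end box

end Pool.Agent.RCH.Mn
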