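import Pool.Agent.RCH.Mn2
import Pool.Agent.RCH.Mn3
import Pool.Agent.RCH.Mn4
import Pool.Agent.RCH.Mn5
import Pool.Agent.RCH.Mn6
import Pool.Agent.RCH.Mn7
import Pool.Agent.RCH.MnAlg
import Pool.Agent.RCH.WtIdx

/-!
# Row M9: the relation between the squares of the curves, with the vertex terms
-/

set_option autoImplicit false

open MvPolynomial

namespace Pool.Agent.RCH.Mn

section general

variable {ι : Type} {X : WVar ι}

lemma eq_sum_single {s : Finset (Pt X 1)} {x : Cycles X 1} (h : x.support ⊆ s) :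
    x = ∑ C ∈ s, x C • Finsupp.single C 1 := by
  have h1 : x = ∑ C ∈ x.support, Finsupp.single C (x C) := (Finsupp.sum_single x).symm
  conv_lhs => rw [h1]
  have h2 : ∑ C ∈ x.support, Finsupp.single C (x C) = ∑ C ∈ s, Finsupp.single C (x C) := by
    refine Finset.sum_subset h ?_
    intro C _ hC
    rw [Finsupp.notMem_support_iff.1 hC, Finsupp.single_zero]
  rw [h2]
  refine Finset.sum_congr rfl fun C _ => ?_
  rw [Finsupp.smul_single, smul_eq_mul, mul_one]

lemma boxC_sum {s : Finset (Pt X 1)} {x y : Cycles X 1} (hx : x.support ⊆ s)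
    (hy : y.support ⊆ s) : boxC X ![x, y] = ∑ C ∈ s, ∑ C' ∈ s, (x C * y C') • box X ![C, C'] := by
  have h1 : ∀ C : Pt X 1, bx X (Finsupp.single C 1) y = ∑ C' ∈ s, y C' • box X ![C, C'] := by
    intro C
    conv_lhs => rw [eq_sum_single hy]
    rw [map_sum]
    refine Finset.sum_congr rfl fun C' _ => ?_
    rw [map_smul, bx_single]
  have h2 : bx X x = ∑ C ∈ s, x C • bx X (Finsupp.single C 1) := by
    conv_lhs => rw [eq_sum_single hx]
    rw [map_sum]
    exact Finset.sum_congr rfl fun C _ => map_smul _ _ _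
  rw [← bx_apply, h2, LinearMap.sum_apply]
  refine Finset.sum_congr rfl fun C _ => ?_
  rw [LinearMap.smul_apply, h1, Finset.smul_sum]
  exact Finset.sum_congr rfl fun C' _ => smul_smul _ _ _

end general

namespace MD

variable (S : MD)

lemma clz_zero {J : Ideal R7} (hJ : S.JU ≤ J) {Q : Pt S.V 2}
    (h : ¬ RingHom.ker (phi S.wt S.JU) ≤ Q.I) : clz J Q = 0 := by
  have hQ := Q.prime
  have h1 : ¬ RingHom.ker (phi S.wt J) ≤ Q.I := fun h2 => h ((ker_phi_mono hJ).trans h2)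
  have h3 : cl S.wt J Q.I = 0 := cl_eq_zero Q.I h1
  rw [clz]
  change (((cl S.wt J Q.I).toNat : ℕ) : ℤ) = 0
  rw [h3]
  rfl

lemma JU_le_JD : S.JU ≤ S.JD := by
  rw [← S.JVw_yy]
  exact le_sup_left.trans le_sup_left

/-- the combination of the relations, with the vertex terms -/
theorem star_aux : ∃ (m : ℕ) (n₁ n₂ : ℤ), 1 ≤ m ∧
    (m : ℤ) • (((S.p : ℤ) * S.d) • S.sqA - ((S.r : ℤ) * S.k * S.q) • boxC S.V ![S.ds, S.ds]) +
      n₁ • box S.V ![S.pP, S.pY] + n₂ • box S.V ![S.pY, S.pP] ∈ RatZero S.V 2 := by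
  classical
  obtain ⟨E, hE, hE'⟩ := S.E_rel
  obtain ⟨my, hmy, Dy, hDy, hDy1, hDy2⟩ := S.Uy_rel
  obtain ⟨mv, hmv, Dv, hDv, hDv1, hDv2⟩ := S.Uv_rel
  obtain ⟨Q₁, hQ₁, hb₁⟩ := box_eq S.V ![S.pP, S.pY]
  obtain ⟨Q₂, hQ₂, hb₂⟩ := box_eq S.V ![S.pY, S.pP]
  set R : Cycles S.V 2 := ((S.d : ℤ) * mv) • Dy - ((S.e : ℤ) * S.r * my) • Dv +
    ((my : ℤ) * mv * S.p * S.e) • E with hR
  have hRm : R ∈ RatZero S.V 2 :=
    add_mem (sub_mem (AddSubgroup.zsmul_mem _ hDy _) (AddSubgroup.zsmul_mem _ hDv _))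
      (AddSubgroup.zsmul_mem _ hE _)
  have hmem : ∀ (i : Fin 2) (j : Fin 5) (q : Fin 2 → Pt S.V 1) (Q : Pt S.V 2),
      Q.I = boxIdeal S.V q → ((X (i, j) : Coord (Fin 5) 2) ∉ Q.I ↔
        (X (0, j) : Coord (Fin 5) 1) ∉ (q i).I) := by
    intro i j q Q hQ
    rw [hQ]
    exact Wt.X_notMem_box_iff S.V q i j
  have hP1 : (X ((0 : Fin 1), (1 : Fin 5)) : Coord (Fin 5) 1) ∈ S.pP.I :=
    Ideal.subset_span (Or.inl rfl)
  have hP2 : (X ((0 : Fin 1), (2 : Fin 5)) : Coord (Fin 5) 1) ∈ S.pP.I :=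
    Ideal.subset_span (Or.inr (Or.inl rfl))
  have hg₁ : ¬ S.Good Q₁ := by
    rintro (h | h)
    · exact (hmem 0 1 _ Q₁ hQ₁).1 h.1 hP1
    · exact (hmem 0 2 _ Q₁ hQ₁).1 h.1 hP2
  have hg₂ : ¬ S.Good Q₂ := by
    rintro (h | h)
    · exact (hmem 1 1 _ Q₂ hQ₂).1 h.2 hP1
    · exact (hmem 1 2 _ Q₂ hQ₂).1 h.2 hP2
  have hne : Q₁ ≠ Q₂ := by
    intro h
    have h1 : (X (1, 1) : Coord (Fin 5) 2) ∉ Q₁.I := (hmem 1 1 _ Q₁ hQ₁).2 S.s_notMem
    rw [h] at h1
    exact (hmem 1 1 _ Q₂ hQ₂).1 h1 hP1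
  have hbad : ∀ Q : Pt S.V 2, ¬ S.Good Q → S.sqA Q = 0 ∧ (boxC S.V ![S.ds, S.ds]) Q = 0 := by
    intro Q hQ
    constructor
    · by_contra h
      exact hQ (S.sqA_good h).2
    · by_contra h
      exact hQ (S.ds_good h).2
  refine ⟨my * mv, R Q₁, R Q₂, Nat.one_le_iff_ne_zero.2 (by positivity), ?_⟩
  have key : ((my * mv : ℕ) : ℤ) • (((S.p : ℤ) * S.d) • S.sqA -
      ((S.r : ℤ) * S.k * S.q) • boxC S.V ![S.ds, S.ds]) +
      R Q₁ • box S.V ![S.pP, S.pY] + R Q₂ • box S.V ![S.pY, S.pP] = R := by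
    rw [hb₁, hb₂]
    ext Q
    simp only [Finsupp.add_apply, Finsupp.sub_apply, Finsupp.smul_apply, smul_eq_mul,
      Finsupp.single_apply]
    by_cases e1 : Q₁ = Q
    · subst e1
      obtain ⟨z1, z2⟩ := hbad Q₁ hg₁
      rw [z1, z2, if_pos rfl, if_neg hne.symm]
      ring
    by_cases e2 : Q₂ = Q
    · subst e2
      obtain ⟨z1, z2⟩ := hbad Q₂ hg₂
      rw [z1, z2, if_pos rfl, if_neg hne]
      ring
    rw [if_neg e1, if_neg e2, mul_zero, mul_zero, add_zero, add_zero]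
    have hRQ : R Q = ((S.d : ℤ) * mv) * Dy Q - ((S.e : ℤ) * S.r * my) * Dv Q +
        ((my : ℤ) * mv * S.p * S.e) * E Q := by
      rw [hR]
      simp only [Finsupp.add_apply, Finsupp.sub_apply, Finsupp.smul_apply, smul_eq_mul]
    rw [hRQ]
    by_cases h4 : lev Q = 4
    · by_cases hG : S.Good Q
      · obtain ⟨hfin, hy⟩ := hDy2 Q h4 hG
        have hv := hDv2 Q h4 hG
        have he := (hE' Q).2 h4
        have hs := S.Js_eq h4 hG
        have hz := S.JZ_eq h4
        have hQ := Q.prime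
        have hu : clz S.JUy Q = S.e * clz S.JD Q + clz S.JZ Q := by
          have h5 := S.JUy_eq Q.I
          have h6 : cl S.wt S.JUy Q.I ≠ ⊤ := hfin
          rw [h5] at h6
          have h7 : cl S.wt S.JZ Q.I ≠ ⊤ := fun h => h6 (by rw [h, add_top])
          have h8 : (S.e : ℕ∞) * cl S.wt S.JD Q.I ≠ ⊤ := fun h => h6 (by rw [h, top_add])
          have h9 : cl S.wt S.JD Q.I ≠ ⊤ := by
            intro h
            apply h8
            rw [h, ENat.mul_top]
            have := S.e_pos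
            exact_mod_cast (by omega : S.e ≠ 0)
          change (((cl S.wt S.JUy Q.I).toNat : ℕ) : ℤ) = S.e * (((cl S.wt S.JD Q.I).toNat : ℕ) : ℤ) +
            (((cl S.wt S.JZ Q.I).toNat : ℕ) : ℤ)
          rw [h5, ENat.toNat_add h8 h7, ENat.toNat_mul, ENat.toNat_coe]
          push_cast
          ring
        have hd : (S.d : ℤ) = S.e * S.N + S.k := by exact_mod_cast S.hd
        rw [hy, hv, he, hu, hs, hz]
        push_cast
        rw [hd]
        ring
      · have hker : ¬ RingHom.ker (phi S.wt S.JU) ≤ Q.I := by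
          intro h
          rcases S.bad h4 hG h with h5 | h5
          · exact e1 (Pt.ext' S.V (hQ₁.trans h5.symm))
          · exact e2 (Pt.ext' S.V (hQ₂.trans h5.symm))
        have hy : Dy Q = 0 := by
          by_contra h
          exact hker (hDy1 Q h).2
        have hv : Dv Q = 0 := by
          by_contra h
          exact hker (hDv1 Q h).2
        have he : E Q = 0 := by
          rw [(hE' Q).2 h4, S.clz_zero (J := S.JVw) le_sup_left hker, S.clz_zero S.JU_le_JD hker]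
          ring
        obtain ⟨z1, z2⟩ := hbad Q hG
        rw [hy, hv, he, z1, z2]
        ring
    · have hy : Dy Q = 0 := by
        by_contra h
        exact h4 (hDy1 Q h).1
      have hv : Dv Q = 0 := by
        by_contra h
        exact h4 (hDv1 Q h).1
      have he : E Q = 0 := (hE' Q).1 h4
      have z1 : S.sqA Q = 0 := by
        by_contra h
        exact h4 (S.sqA_good h).1
      have z2 : (boxC S.V ![S.ds, S.ds]) Q = 0 := by
        by_contra h
        exact h4 (S.ds_good h).1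
      rw [hy, hv, he, z1, z2]
      ring
  rw [key]
  exact hRm

end MD

end Pool.Agent.RCH.Mn
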