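import Pool.Agent.RCH.Mn9
import Pool.Agent.RCH.MnAlg
import Pool.Agent.RCH.DgEq
import Pool.Agent.RCH.DgCl

/-!
# The squares of the differences of the curves
-/

set_option autoImplicit false

open MvPolynomial

namespace Pool.Agent.RCH.Mn

section general

variable {ι : Type} {X : WVar ι}

lemma sum_single (D : Cycles X 1) : D = ∑ Q ∈ D.support, D Q • Finsupp.single Q 1 := by
  conv_lhs => rw [← Finsupp.sum_single D, Finsupp.sum]
  refine Finset.sum_congr rfl fun Q _ => ?_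
  rw [Finsupp.smul_single, smul_eq_mul, mul_one]

/-- cycles all of whose components are combinations of some curves, up to a multiple -/
lemma exists_supported (s : Finset (Pt X 1)) (t : Finset (Pt X 1))
    (h : ∀ Q ∈ t, ∃ m : ℕ, 1 ≤ m ∧ ∃ c : Cycles X 1, c.support ⊆ s ∧
      m • Finsupp.single Q 1 - c ∈ RatZero X 1) (f : Pt X 1 → ℤ) :
    ∃ m : ℕ, 1 ≤ m ∧ ∃ c : Cycles X 1, c.support ⊆ s ∧
      m • ∑ Q ∈ t, f Q • Finsupp.single Q 1 - c ∈ RatZero X 1 := by
  classical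
  induction t using Finset.induction_on with
  | empty =>
    refine ⟨1, le_rfl, 0, ?_, ?_⟩
    · rw [Finsupp.support_zero]
      exact Finset.empty_subset _
    · rw [Finset.sum_empty, smul_zero, sub_zero]
      exact zero_mem _
  | insert Q t hQ ih =>
    obtain ⟨m, hm, c, hc, h1⟩ := ih fun R hR => h R (Finset.mem_insert_of_mem hR)
    obtain ⟨m', hm', c', hc', h2⟩ := h Q (Finset.mem_insert_self _ _)
    refine ⟨m * m', Nat.one_le_iff_ne_zero.2 (by positivity), (m' : ℤ) • c + (m * f Q : ℤ) • c',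
      ?_, ?_⟩
    · refine Finsupp.support_add.trans (Finset.union_subset ?_ ?_)
      · exact Finsupp.support_smul.trans hc
      · exact Finsupp.support_smul.trans hc'
    · rw [Finset.sum_insert hQ]
      have h3 : (m * m') • (f Q • (Finsupp.single Q 1 : Cycles X 1) +
          ∑ Q ∈ t, f Q • Finsupp.single Q 1) - ((m' : ℤ) • c + (m * f Q : ℤ) • c') =
          (m' : ℤ) • (m • ∑ Q ∈ t, f Q • Finsupp.single Q 1 - c) +
            (m * f Q : ℤ) • (m' • Finsupp.single Q 1 - c') := by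
        rw [← natCast_zsmul, ← natCast_zsmul, ← natCast_zsmul]
        push_cast
        module
      rw [h3]
      exact add_mem (AddSubgroup.zsmul_mem _ h1 _) (AddSubgroup.zsmul_mem _ h2 _)

end general

namespace MD

variable (S : MD)

lemma G_pos {C : Pt S.V 1} (h : C ∈ S.dA.support) : 0 < S.G C := by
  rcases Nat.eq_zero_or_pos (S.G C) with h0 | h0
  · exfalso
    have h1 := (S.degPt_dA h).2
    rw [h0, Nat.cast_zero, mul_zero, mul_zero] at h1
    exact zero_ne_one h1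
  · exact h0

/-- the product of the numbers `G C` -/
noncomputable def PG : ℕ := ∏ C ∈ S.dA.support, S.G C

/-- the product of the numbers `G C'` for the other curves -/
noncomputable def gC (C : Pt S.V 1) : ℕ := S.PG / S.G C

lemma G_mul_gC {C : Pt S.V 1} (h : C ∈ S.dA.support) : S.G C * S.gC C = S.PG :=
  Nat.mul_div_cancel' (Finset.dvd_prod_of_mem S.G h)

lemma PG_pos : 0 < S.PG := Finset.prod_pos fun _ h => S.G_pos h

lemma gC_pos {C : Pt S.V 1} (h : C ∈ S.dA.support) : 0 < S.gC C := by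
  rcases Nat.eq_zero_or_pos (S.gC C) with h0 | h0
  · have h1 := S.G_mul_gC h
    rw [h0, mul_zero] at h1
    exact absurd h1.symm S.PG_pos.ne'
  · exact h0

/-- `G C` times the curve `C`: a cycle of degree `1 / N` -/
noncomputable def eC (C : Pt S.V 1) : Cycles S.V 1 := (S.G C : ℤ) • Finsupp.single C 1

/-- the coefficients of the squares of the differences -/
noncomputable def cC (C C' : Pt S.V 1) : ℤ := S.dA C * S.dA C' * ((S.gC C : ℤ) * S.gC C')

lemma cC_pos {C C' : Pt S.V 1} (h : C ∈ S.dA.support) (h' : C' ∈ S.dA.support) :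
    0 < S.cC C C' := by
  have h1 := S.dA_pos h
  have h2 := S.dA_pos h'
  have h3 : (0 : ℤ) < S.gC C := by exact_mod_cast S.gC_pos h
  have h4 : (0 : ℤ) < S.gC C' := by exact_mod_cast S.gC_pos h'
  exact mul_pos (mul_pos h1 h2) (mul_pos h3 h4)

lemma sqA_eq : S.sqA = ∑ C ∈ S.dA.support, (S.dA C * (S.G C : ℤ)) • box S.V ![C, C] := rfl

/-- **The combination of the squares of the differences is torsion.** -/
theorem squares : ∑ C ∈ S.dA.support, ∑ C' ∈ S.dA.support, S.cC C C' •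
    extPow S.V (S.eC C - S.eC C') 2 ∈ torZero S.V 2 := by
  obtain ⟨h1, h2⟩ := S.quad
  have hp := S.hp
  have hq := S.hq
  have hr := S.hr
  have hv : ((S.p : ℤ) * S.q * S.r) ≠ 0 := by positivity
  have hK : ((S.PG : ℕ) : ℤ) * ((S.k : ℤ) * S.d) =
      ((S.p : ℤ) * S.q * S.r) * ∑ C ∈ S.dA.support, S.dA C * (S.gC C : ℤ) := by
    have h3 : ((S.PG : ℕ) : ℝ) * ((S.k : ℝ) * S.d) =
        ((S.p : ℝ) * S.q * S.r) * ∑ C ∈ S.dA.support, (S.dA C : ℝ) * (S.gC C : ℝ) := by
      rw [h2, mul_left_comm]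
      congr 1
      rw [Finset.mul_sum]
      refine Finset.sum_congr rfl fun C hC => ?_
      have h4 : ((S.G C : ℕ) : ℝ) ≠ 0 := by exact_mod_cast (S.G_pos hC).ne'
      have h5 : ((S.PG : ℕ) : ℝ) = S.G C * S.gC C := by exact_mod_cast (S.G_mul_gC hC).symm
      rw [h5]
      field_simp
    exact_mod_cast h3
  have h3 := sum_pairs_torsion S.dA.support S.dA (fun C => (S.G C : ℤ)) (fun C => (S.gC C : ℤ))
    S.PG ((S.k : ℤ) * S.d) ((S.p : ℤ) * S.q * S.r)
    (fun C hC => by exact_mod_cast S.G_mul_gC hC) hv hK (by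
      rw [← sum_single S.dA, ← S.sqA_eq]
      exact h1)
  exact h3

/-- every cycle supported on the section is a combination of the curves, up to a multiple -/
theorem supported (D : Cycles S.V 1) (hD : ∀ Q ∈ D.support, CodimOne S.pY.I Q.I) :
    ∃ m : ℕ, 1 ≤ m ∧ ∃ c : Cycles S.V 1, c.support ⊆ S.dA.support ∧
      m • D - c ∈ RatZero S.V 1 := by
  obtain ⟨m, hm, c, hc, h⟩ := exists_supported S.dA.support D.support
    (fun Q hQ => S.gen (hD Q hQ)) D
  refine ⟨m, hm, c, hc, ?_⟩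
  rwa [← sum_single D] at h

/-- the degree of a combination of the curves -/
lemma deg_combination {c : Cycles S.V 1} (hc : c.support ⊆ S.dA.support) :
    ((S.N * S.PG : ℕ) : ℝ) * Dg.deg S.V 2 c = ∑ C ∈ S.dA.support, (c C : ℝ) * (S.gC C : ℝ) := by
  rw [Dg.deg_apply, Finset.sum_subset hc (fun Q _ hQ => by
    rw [Finsupp.notMem_support_iff.mp hQ, Int.cast_zero, zero_mul]), Finset.mul_sum]
  refine Finset.sum_congr rfl fun C hC => ?_
  have h1 := (S.degPt_dA hC).2
  have h2 : ((S.PG : ℕ) : ℝ) = S.G C * S.gC C := by exact_mod_cast (S.G_mul_gC hC).symm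
  push_cast
  rw [h2]
  linear_combination ((c C : ℝ) * S.gC C) * h1

/-- a cycle of degree zero supported on the section is a combination of the cycles `e C` with
coefficients of sum zero, up to a multiple -/
theorem exists_combination (D : Cycles S.V 1) (hD : ∀ Q ∈ D.support, CodimOne S.pY.I Q.I)
    (h0 : Dg.deg S.V 2 D = 0) : ∃ M : ℤ, M ≠ 0 ∧ ∃ m : Pt S.V 1 → ℤ,
      ∑ C ∈ S.dA.support, m C = 0 ∧
      M • D - ∑ C ∈ S.dA.support, m C • S.eC C ∈ RatZero S.V 1 := by
  obtain ⟨M, hM, c, hc, h⟩ := S.supported D hD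
  have hP := S.PG_pos
  refine ⟨(S.PG : ℤ) * M, by positivity, fun C => c C * (S.gC C : ℤ), ?_, ?_⟩
  · have h1 := Dg.deg_ratZero S.wt_pos (r := 2) (by norm_num) h
    rw [map_sub, map_nsmul, h0, smul_zero, zero_sub, neg_eq_zero] at h1
    have h2 := S.deg_combination hc
    rw [h1, mul_zero] at h2
    exact_mod_cast h2.symm
  · have h1 : ∑ C ∈ S.dA.support, (c C * (S.gC C : ℤ)) • S.eC C = (S.PG : ℤ) • c := by
      have h2 : c = ∑ C ∈ S.dA.support, c C • Finsupp.single C 1 := by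
        conv_lhs => rw [sum_single c]
        refine Finset.sum_subset hc fun Q _ hQ => ?_
        rw [Finsupp.notMem_support_iff.mp hQ, zero_smul]
      conv_rhs => rw [h2, Finset.smul_sum]
      refine Finset.sum_congr rfl fun C hC => ?_
      rw [eC, smul_smul, smul_smul]
      congr 1
      have h3 : ((S.PG : ℕ) : ℤ) = S.G C * S.gC C := by exact_mod_cast (S.G_mul_gC hC).symm
      rw [h3]
      ring
    rw [h1, mul_smul, ← smul_sub, natCast_zsmul]
    exact AddSubgroup.zsmul_mem _ h _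

/-- **Rank one.** -/
theorem square_of_deg (δ : Cycles S.V 1)
    (hδ : ∀ C ∈ S.dA.support, ∀ C' ∈ S.dA.support, ∃ a : ℕ, 1 ≤ a ∧ ∃ b : ℤ,
      a • (S.eC C - S.eC C') - b • δ ∈ torZero S.V 1)
    (D : Cycles S.V 1) (hD : ∀ Q ∈ D.support, CodimOne S.pY.I Q.I)
    (h0 : Dg.deg S.V 2 D = 0) : extPow S.V D 2 ∈ torZero S.V 2 := by
  obtain ⟨M, hM, m, hm, h⟩ := S.exists_combination D hD h0
  exact square_of_rank_one S.dA.support S.cC (fun C hC C' hC' => S.cC_pos hC hC') S.eC δ hδ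
    S.squares hM m hm (torZero_of_ratZero h)

/-- the curves on the section -/
theorem rank_section {Q : Pt S.V 1} (hQ : CodimOne S.pY.I Q.I) :
    ∃ e : ℝ, Dg.HasRk (Dg.wt1 S.V) Q.I 2 e := by
  have hP := S.pY.prime
  have hQ' := Q.prime
  have h1 := Dg.td_succ hQ.1 fun T hT h3 h4 => h3.ne' (hQ.2 T hT h3.le h4)
  have h2 : lev S.pY = lev Q + 1 := h1
  rw [S.lev_pY] at h2
  exact S.hasRk_of_lev (show lev Q = 2 by omega)

/-- the cycles with a nonzero multiple rationally equivalent to zero, the orders of vanishing being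
computed in the local rings -/
lemma ratEq_of_torZero {N : ℕ} {z : Cycles S.V N} (h : Wt.unscale S.V N z ∈ torZero S.V N) :
    ∃ M : ℕ, 1 ≤ M ∧ M • z ∈ RatEq S.V N := by
  obtain ⟨M, hM, h1⟩ := h
  have h2 := Wt.scale_mem S.wt_pos h1
  rw [map_nsmul, Wt.scale_unscale S.wt_pos, smul_smul] at h2
  exact ⟨_, Nat.mul_pos hM (pow_pos (Finset.prod_pos fun j _ => S.wt_pos j) _), h2⟩

lemma torZero_of_ratEq {N : ℕ} {z : Cycles S.V N} {M : ℕ} (hM : 1 ≤ M)
    (h : M • z ∈ RatEq S.V N) : Wt.unscale S.V N z ∈ torZero S.V N := by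
  refine ⟨M, hM, ?_⟩
  have h1 := Wt.unscale_mem S.wt_pos h
  rwa [map_nsmul] at h1

/-- the multiplicity of the curve `C`: its product with the degree of `C` is constant -/
noncomputable def mC (C : Pt S.V 1) : ℕ := (∏ j, S.V.wt j) / Wt.idx C * S.G C

lemma mC_mul_idx (C : Pt S.V 1) : S.mC C * Wt.idx C = (∏ j, S.V.wt j) * S.G C := by
  have h := Wt.idx_dvd' (N := 1) S.wt_pos C
  rw [pow_one] at h
  rw [mC, mul_right_comm, Nat.div_mul_cancel h]

lemma mC_pos {C : Pt S.V 1} (h : C ∈ S.dA.support) : 0 < S.mC C := by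
  rcases Nat.eq_zero_or_pos (S.mC C) with h0 | h0
  · have h1 := S.mC_mul_idx C
    rw [h0, zero_mul] at h1
    have h2 : 0 < ∏ j, S.V.wt j := Finset.prod_pos fun j _ => S.wt_pos j
    exact absurd h1.symm (Nat.mul_pos h2 (S.G_pos h)).ne'
  · exact h0

lemma mC_degree {C : Pt S.V 1} (h : C ∈ S.dA.support) :
    (S.mC C : ℝ) * curveDegree S.V C * S.N = ((∏ j, S.V.wt j : ℕ) : ℝ) ^ 2 := by
  obtain ⟨⟨e, he⟩, h1⟩ := S.degPt_dA h
  rw [Dg.degPt_eq he] at h1
  rw [Dg.curveDegree_eq S.wt_pos C he]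
  have h2 : (S.mC C : ℝ) * Wt.idx C = ((∏ j, S.V.wt j : ℕ) : ℝ) * S.G C := by
    exact_mod_cast S.mC_mul_idx C
  linear_combination (((∏ j, S.V.wt j : ℕ) : ℝ) * e * S.N) * h2 +
    (((∏ j, S.V.wt j : ℕ) : ℝ) ^ 2) * h1

lemma unscale_single (C : Pt S.V 1) (n : ℤ) : Wt.unscale S.V 1 (n • Finsupp.single C 1) =
    (n * Wt.idx C) • Finsupp.single C 1 := by
  rw [map_zsmul, Wt.unscale, Wt.mulFun_single, one_mul, Finsupp.smul_single, Finsupp.smul_single,
    smul_eq_mul, smul_eq_mul, mul_one]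

lemma unscale_mC (C : Pt S.V 1) : Wt.unscale S.V 1 ((S.mC C : ℤ) • Finsupp.single C 1) =
    ((∏ j, S.V.wt j : ℕ) : ℤ) • S.eC C := by
  rw [S.unscale_single, eC, smul_smul]
  congr 1
  exact_mod_cast S.mC_mul_idx C

/-- **The combination of the squares of the differences is torsion**, the orders of vanishing being
computed in the local rings. -/
theorem squares_ratEq : ∃ M : ℕ, 1 ≤ M ∧
    M • ∑ C ∈ S.dA.support, ∑ C' ∈ S.dA.support, S.cC C C' •
      extPow S.V ((S.mC C : ℤ) • Finsupp.single C 1 - (S.mC C' : ℤ) • Finsupp.single C' 1) 2 ∈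
        RatEq S.V 2 := by
  refine S.ratEq_of_torZero ?_
  rw [map_sum]
  have h1 : ∀ C C' : Pt S.V 1, Wt.unscale S.V 2 (S.cC C C' •
      extPow S.V ((S.mC C : ℤ) • Finsupp.single C 1 - (S.mC C' : ℤ) • Finsupp.single C' 1) 2) =
      (((∏ j, S.V.wt j : ℕ) : ℤ) ^ 2) • S.cC C C' • extPow S.V (S.eC C - S.eC C') 2 := by
    intro C C'
    rw [map_zsmul, Wt.unscale_extPow, map_sub, S.unscale_mC, S.unscale_mC, ← smul_sub,
      extPow_smul, smul_comm]
  have h2 : ∑ C ∈ S.dA.support, Wt.unscale S.V 2 (∑ C' ∈ S.dA.support, S.cC C C' •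
      extPow S.V ((S.mC C : ℤ) • Finsupp.single C 1 - (S.mC C' : ℤ) • Finsupp.single C' 1) 2) =
      (((∏ j, S.V.wt j : ℕ) : ℤ) ^ 2) • ∑ C ∈ S.dA.support, ∑ C' ∈ S.dA.support,
        S.cC C C' • extPow S.V (S.eC C - S.eC C') 2 := by
    rw [Finset.smul_sum]
    refine Finset.sum_congr rfl fun C _ => ?_
    rw [map_sum, Finset.smul_sum]
    exact Finset.sum_congr rfl fun C' _ => h1 C C'
  rw [h2]
  exact AddSubgroup.zsmul_mem _ S.squares _

/-- **Rank one**, the orders of vanishing in the conclusion being computed in the local rings: the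
exterior square of every one-cycle of degree zero supported on the section is torsion. -/
theorem square_of_degree' (δ : Cycles S.V 1)
    (hδ : ∀ C ∈ S.dA.support, ∀ C' ∈ S.dA.support, ∃ a : ℕ, 1 ≤ a ∧ ∃ b : ℤ,
      a • (S.eC C - S.eC C') - b • δ ∈ torZero S.V 1)
    (D : Cycles S.V 1) (hD : ∀ Q ∈ D.support, CodimOne S.pY.I Q.I)
    (h0 : degree S.V D = 0) : ∃ M : ℕ, 1 ≤ M ∧ M • extPow S.V D 2 ∈ RatEq S.V 2 := by
  have hW : 0 < ∏ j, S.V.wt j := Finset.prod_pos fun j _ => S.wt_pos j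
  refine S.ratEq_of_torZero ?_
  rw [Wt.unscale_extPow]
  refine S.square_of_deg δ hδ (Wt.unscale S.V 1 D)
    (fun Q hQ => hD Q (Wt.support_unscale D hQ)) ?_
  have h4 := Dg.degree_eq (X := S.V) S.wt_pos (D := D) (fun Q hQ => S.rank_section (hD Q hQ))
  rw [h0] at h4
  have h5 : ((∏ j, S.V.wt j : ℕ) : ℝ) ≠ 0 := by exact_mod_cast hW.ne'
  exact (mul_eq_zero.mp h4.symm).resolve_left h5

/-- **Rank one**, the orders of vanishing being computed in the local rings: the exterior square of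
every one-cycle of degree zero supported on the section is torsion. -/
theorem square_of_degree (δ : Cycles S.V 1)
    (hδ : ∀ C ∈ S.dA.support, ∀ C' ∈ S.dA.support, ∃ a : ℕ, 1 ≤ a ∧ ∃ b : ℤ,
      a • ((S.mC C : ℤ) • Finsupp.single C 1 - (S.mC C' : ℤ) • Finsupp.single C' 1) - b • δ ∈
        RatEq S.V 1)
    (D : Cycles S.V 1) (hD : ∀ Q ∈ D.support, CodimOne S.pY.I Q.I)
    (h0 : degree S.V D = 0) : ∃ M : ℕ, 1 ≤ M ∧ M • extPow S.V D 2 ∈ RatEq S.V 2 := by
  have hW : 0 < ∏ j, S.V.wt j := Finset.prod_pos fun j _ => S.wt_pos j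
  refine S.square_of_degree' (Wt.unscale S.V 1 δ) ?_ D hD h0
  intro C hC C' hC'
  obtain ⟨a, ha, b, h⟩ := hδ C hC C' hC'
  refine ⟨a * ∏ j, S.V.wt j, Nat.mul_pos ha hW, b, torZero_of_ratZero ?_⟩
  have h1 := Wt.unscale_mem S.wt_pos h
  rw [map_sub, map_nsmul, map_sub, S.unscale_mC, S.unscale_mC, ← smul_sub, map_zsmul,
    natCast_zsmul, smul_smul] at h1
  exact h1

end MD

end Pool.Agent.RCH.Mn
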