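import Pool.Agent.RCH.Fin
import Pool.Agent.RCH.Ord2

/-!
# The divisor of one homogeneous element on an integral subscheme
-/

set_option autoImplicit false

open MvPolynomial

namespace Pool.Agent.RCH.Mn

section ord

variable {R : Type} [CommRing R]

lemma ordAt_ne_zero {P Q : Ideal R} [hQ : Q.IsPrime] (hPQ : P ≤ Q) {g : R} (hg : g ∈ Q) :
    ordAt P Q g ≠ 0 := by
  intro h
  unfold ordAt at h
  rw [Module.length_eq_zero_iff, Ideal.Quotient.subsingleton_iff] at h
  have h1 : (P ⊔ Ideal.span {g}).map (algebraMap R (Localization.AtPrime Q)) ≤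
      IsLocalRing.maximalIdeal (Localization.AtPrime Q) := by
    rw [← Localization.AtPrime.map_eq_maximalIdeal]
    refine Ideal.map_mono ?_
    rw [sup_le_iff, Ideal.span_le, Set.singleton_subset_iff]
    exact ⟨hPQ, hg⟩
  rw [h] at h1
  exact (IsLocalRing.maximalIdeal.isMaximal (Localization.AtPrime Q)).ne_top (top_le_iff.mp h1)

lemma toNat_ordAt_pow [IsNoetherianRing R] {P Q : Ideal R} [P.IsPrime] [hQ : Q.IsPrime]
    (hc : CodimOne P Q) {g : R} (hg : g ∉ P) (n : ℕ) :
    (ordAt P Q (g ^ n)).toNat = n * (ordAt P Q g).toNat := by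
  induction n with
  | zero =>
    rw [pow_zero, zero_mul, ordAt_eq_zero_of_not_mem P Q 1
      (fun h => hQ.ne_top ((Ideal.eq_top_iff_one Q).2 h))]
    rfl
  | succ n ih =>
    rw [pow_succ, toNat_ordAt_mul hc (fun h => hg (‹P.IsPrime›.mem_of_pow_mem _ h)) hg, ih]
    ring

end ord

variable {ι : Type} [Finite ι] {X : WVar ι} {N : ℕ} {P : Pt X N} {g h : Coord ι N}
  {c c' : Cycles X N}

omit [Finite ι] in
lemma div_apply (hc : IsDivisor X P g 1 c) {Q : Pt X N} (hQ : CodimOne P.I Q.I) :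
    c Q = (haveI := Q.prime; ((ordAt P.I Q.I g).toNat : ℤ)) := by
  have hQ' := Q.prime
  rw [hc Q, if_pos hQ, ordAt_eq_zero_of_not_mem P.I Q.I 1
    (fun h => hQ'.ne_top ((Ideal.eq_top_iff_one Q.I).2 h))]
  simp

omit [Finite ι] in
lemma div_apply' (hc : IsDivisor X P g 1 c) {Q : Pt X N} (hQ : ¬ CodimOne P.I Q.I) : c Q = 0 := by
  rw [hc Q, if_neg hQ]

omit [Finite ι] in
/-- the divisor is effective -/
theorem div_nonneg (hc : IsDivisor X P g 1 c) (Q : Pt X N) : 0 ≤ c Q := by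
  by_cases hQ : CodimOne P.I Q.I
  · rw [div_apply hc hQ]
    positivity
  · rw [div_apply' hc hQ]

/-- the support of the divisor of `g` is the zero locus of `g` -/
theorem mem_support_div (hg : g ∉ P.I) (hc : IsDivisor X P g 1 c) {Q : Pt X N} :
    Q ∈ c.support ↔ CodimOne P.I Q.I ∧ g ∈ Q.I := by
  have hQ' := Q.prime
  have hP' := P.prime
  rw [Finsupp.mem_support_iff]
  constructor
  · intro h0
    by_cases hQ : CodimOne P.I Q.I
    · refine ⟨hQ, ?_⟩
      by_contra h1
      rw [div_apply hc hQ, ordAt_eq_zero_of_not_mem P.I Q.I g h1] at h0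
      exact h0 rfl
    · exact absurd (div_apply' hc hQ) h0
  · rintro ⟨hQ, h1⟩
    rw [div_apply hc hQ]
    have h2 : ordAt P.I Q.I g ≠ 0 := ordAt_ne_zero hQ.1.le h1
    have h3 : ordAt P.I Q.I g ≠ ⊤ := ordAt_ne_top hQ hg
    have h4 : (ordAt P.I Q.I g).toNat ≠ 0 := by
      rw [Ne, ENat.toNat_eq_zero, not_or]
      exact ⟨h2, h3⟩
    exact_mod_cast h4

omit [Finite ι] in
theorem div_pos (hc : IsDivisor X P g 1 c) {Q : Pt X N} (hQ : Q ∈ c.support) : 0 < c Q :=
  lt_of_le_of_ne (div_nonneg hc Q) (Finsupp.mem_support_iff.1 hQ).symm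

/-- the divisor of `g ^ u / h ^ v` -/
theorem div_rel (hg : g ∉ P.I) (hh : h ∉ P.I) (hc : IsDivisor X P g 1 c)
    (hc' : IsDivisor X P h 1 c') {e e' : Fin N → ℕ} (hgd : IsWeightedHomogeneous (X.mdeg N) g e)
    (hhd : IsWeightedHomogeneous (X.mdeg N) h e') {u v : ℕ} (huv : u • e = v • e') :
    (u : ℤ) • c - (v : ℤ) • c' ∈ RatZero X N := by
  have hP' := P.prime
  refine AddSubgroup.subset_closure ⟨P, g ^ u, h ^ v, u • e, hgd.pow u, ?_,
    fun h1 => hg (hP'.mem_of_pow_mem _ h1), fun h1 => hh (hP'.mem_of_pow_mem _ h1), ?_⟩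
  · rw [huv]
    exact hhd.pow v
  · intro Q
    have hQ' := Q.prime
    rw [Finsupp.sub_apply, Finsupp.smul_apply, Finsupp.smul_apply, smul_eq_mul, smul_eq_mul]
    by_cases hQ : CodimOne P.I Q.I
    · rw [if_pos hQ, div_apply hc hQ, div_apply hc' hQ, toNat_ordAt_pow hQ hg,
        toNat_ordAt_pow hQ hh]
      push_cast
      rfl
    · rw [if_neg hQ, div_apply' hc hQ, div_apply' hc' hQ, mul_zero, mul_zero, sub_zero]

omit [Finite ι] in
/-- two divisors of the same element are equal -/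
theorem div_unique (hc : IsDivisor X P g h c) (hc' : IsDivisor X P g h c') : c = c' := by
  ext Q
  rw [hc Q, hc' Q]

/-- the divisor of a homogeneous element exists -/
theorem exists_div (P : Pt X N) {g : Coord ι N} (hg : g ∉ P.I) :
    ∃ c : Cycles X N, IsDivisor X P g 1 c := by
  have hP' := P.prime
  exact exists_isDivisor X P hg fun h => hP'.ne_top ((Ideal.eq_top_iff_one P.I).2 h)

end Pool.Agent.RCH.Mn
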