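import Mathlib

/-!
# Common zeros of two weighted forms: definitions
-/

set_option autoImplicit false

open MvPolynomial

namespace Pool.Agent.RCH

/-- `a` and `a'` define the same point of the weighted projective plane with weights `p, q, r` -/
def Eqv (p q r : ℕ) (a a' : Fin 3 → ℂ) : Prop :=
  ∃ c : ℂ, c ≠ 0 ∧ a' = ![c ^ p * a 0, c ^ q * a 1, c ^ r * a 2]

/-- Every common zero `a ≠ 0` of `A` and `B` defines one of the points `a₁, a₂`, or it is alone on a
factor `f` of `A`: `f` is homogeneous of positive degree, and every common zero of `A` and `B` with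
`f = 0` defines the same point as `a`. -/
def TwoPoints (p q r : ℕ) (A B : MvPolynomial (Fin 3) ℂ) : Prop :=
  ∃ a₁ a₂ : Fin 3 → ℂ, ∀ a : Fin 3 → ℂ, a ≠ 0 → eval a A = 0 → eval a B = 0 →
    Eqv p q r a₁ a ∨ Eqv p q r a₂ a ∨
      ∃ (f : MvPolynomial (Fin 3) ℂ) (n : ℕ), f ∣ A ∧ 1 ≤ n ∧
        IsWeightedHomogeneous ![p, q, r] f n ∧ eval a f = 0 ∧
        ∀ a' : Fin 3 → ℂ, a' ≠ 0 → eval a' A = 0 → eval a' B = 0 → eval a' f = 0 → Eqv p q r a a'

end Pool.Agent.RCH
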