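import Pool.Agent.RCH.WdElem
import Pool.Agent.RCH.MnTwoDefs

/-!
# Common zeros of two weighted forms

For weights `q = g q'`, `r = g r'` with `q', r'` relatively prime, a form `G` of degree `D r` in two
variables `t, y` of weights `q, r` with `D ≤ 2 q'` has at most two zeros with `t ≠ 0` up to the action of
the multiplicative group, and at most one if `D ≤ q'`.
-/

set_option autoImplicit false

open MvPolynomial

namespace Pool.Agent.RCH

namespace Two

lemma eval_scale {σ : Type} {w : σ → ℕ} {f : MvPolynomial σ ℂ} {n : ℕ}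
    (hf : IsWeightedHomogeneous w f n) (c : ℂ) (x : σ → ℂ) :
    eval (fun i => c ^ w i * x i) f = c ^ n * eval x f := by
  classical
  conv_lhs => rw [f.as_sum, map_sum]
  conv_rhs => rw [f.as_sum, map_sum, Finset.mul_sum]
  refine Finset.sum_congr rfl fun u hu => ?_
  have h := hf (mem_support_iff.1 hu)
  rw [eval_monomial, eval_monomial, ← h, Finsupp.weight_apply, Finsupp.prod, Finsupp.prod,
    Finsupp.sum]
  simp only [mul_pow, smul_eq_mul]
  rw [Finset.prod_mul_distrib]
  have h1 : ∏ i ∈ u.support, (c ^ w i) ^ u i = c ^ ∑ i ∈ u.support, u i * w i := by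
    rw [← Finset.prod_pow_eq_pow_sum]
    refine Finset.prod_congr rfl fun i _ => ?_
    rw [← pow_mul, mul_comm]
  rw [h1]
  ring

section weights

variable {q r q' r' g : ℕ} (hq : q = g * q') (hr : r = g * r') (hg : 0 < g)
    (hq' : 0 < q') (hr' : 0 < r') (hc : Nat.Coprime q' r')

include hq hr hg hq' hr' hc

/-- the exponents of a monomial of degree `D r` -/
lemma exponents {D i j : ℕ} (h : i * q + j * r = D * r) :
    ∃ k : ℕ, i = k * r' ∧ j + k * q' = D := by
  have h1 : i * q' + j * r' = D * r' := by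
    have h2 : g * (i * q' + j * r') = g * (D * r') := by
      rw [hq, hr] at h
      nlinarith [h]
    exact Nat.eq_of_mul_eq_mul_left hg h2
  have h2 : r' ∣ i := by
    have h3 : r' ∣ i * q' := by
      have h4 : r' ∣ i * q' + j * r' := by
        rw [h1]
        exact Dvd.intro_left D rfl
      exact (Nat.dvd_add_left (Dvd.intro_left j rfl)).1 h4
    exact hc.symm.dvd_of_dvd_mul_right h3
  obtain ⟨k, rfl⟩ := h2
  refine ⟨k, by ring, ?_⟩
  have h4 : (j + k * q') * r' = D * r' := by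
    rw [← h1]
    ring
  exact Nat.eq_of_mul_eq_mul_right hr' h4

/-- a form of degree `D r`, `D ≤ 2 q'`, has at most three monomials -/
theorem three {D : ℕ} (hD : D ≤ 2 * q') {G : MvPolynomial (Fin 2) ℂ}
    (hG : IsWeightedHomogeneous ![q, r] G (D * r)) :
    ∃ α β γ : ℂ, ∀ t y : ℂ, eval ![t, y] G = γ * y ^ D +
      (if q' ≤ D then β * (t ^ r' * y ^ (D - q')) else 0) +
      (if D = 2 * q' then α * t ^ (2 * r') else 0) := by
  classical
  have key : ∀ s : Finset (Fin 2 →₀ ℕ), s ⊆ G.support → ∃ α β γ : ℂ, ∀ t y : ℂ,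
      eval ![t, y] (∑ u ∈ s, monomial u (coeff u G)) = γ * y ^ D +
      (if q' ≤ D then β * (t ^ r' * y ^ (D - q')) else 0) +
      (if D = 2 * q' then α * t ^ (2 * r') else 0) := by
    intro s
    induction s using Finset.induction_on with
    | empty =>
      intro _
      exact ⟨0, 0, 0, fun t y => by simp⟩
    | insert u s hu ih =>
      intro hs
      obtain ⟨α, β, γ, h⟩ := ih fun x hx => hs (Finset.mem_insert_of_mem hx)
      have h1 := hG (mem_support_iff.1 (hs (Finset.mem_insert_self u s)))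
      rw [Finsupp.weight_apply, Finsupp.sum_fintype _ _ (fun _ => by simp),
        Fin.sum_univ_two] at h1
      obtain ⟨k, h2, h3⟩ := exponents (i := u 0) (j := u 1) hq hr hg hq' hr' hc h1
      have h4 : ∀ t y : ℂ, eval ![t, y] (monomial u (coeff u G)) =
          coeff u G * (t ^ (k * r') * y ^ (u 1)) := by
        intro t y
        rw [eval_monomial, Finsupp.prod_fintype _ _ (fun _ => pow_zero _), Fin.prod_univ_two,
          h2]
        rfl
      have hk : k ≤ 2 := by
        by_contra hk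
        have h5 : 3 * q' ≤ k * q' := Nat.mul_le_mul_right _ (by omega)
        omega
      rcases (show k = 0 ∨ k = 1 ∨ k = 2 by omega) with rfl | rfl | rfl
      · have h5 : u 1 = D := by omega
        refine ⟨α, β, γ + coeff u G, fun t y => ?_⟩
        rw [Finset.sum_insert hu, map_add, h, h4, h5, zero_mul, pow_zero]
        ring
      · have h5 : u 1 = D - q' := by omega
        have h6 : q' ≤ D := by omega
        refine ⟨α, β + coeff u G, γ, fun t y => ?_⟩
        rw [Finset.sum_insert hu, map_add, h, h4, h5, if_pos h6, if_pos h6, one_mul]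
        ring
      · have h5 : D = 2 * q' := by omega
        have h7 : u 1 = 0 := by omega
        refine ⟨α + coeff u G, β, γ, fun t y => ?_⟩
        rw [Finset.sum_insert hu, map_add, h, h4, h7, if_pos h5, if_pos h5]
        ring
  obtain ⟨α, β, γ, h⟩ := key G.support (Finset.Subset.refl _)
  refine ⟨α, β, γ, fun t y => ?_⟩
  rw [← h t y, ← G.as_sum]

omit hr hr' in
/-- a root of unity of order `q'` is the power with exponent `r` of one of order `q` -/
lemma exists_unit (hr : r = g * r') {ζ : ℂ} (hζ : ζ ^ q' = 1) :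
    ∃ μ : ℂ, μ ≠ 0 ∧ μ ^ q = 1 ∧ μ ^ r = ζ := by
  have hζ0 : ζ ≠ 0 := by
    rintro rfl
    rw [zero_pow hq'.ne'] at hζ
    exact zero_ne_one hζ
  obtain ⟨x, hx⟩ : ∃ x : ℕ, r' * x ≡ 1 [MOD q'] := by
    rcases Nat.lt_or_ge 1 q' with h1 | h1
    · obtain ⟨x, -, hx⟩ := Nat.exists_mul_mod_eq_one_of_coprime hc.symm h1
      exact ⟨x, by rw [Nat.ModEq, hx, Nat.mod_eq_of_lt h1]⟩
    · have : q' = 1 := by omega
      subst this
      exact ⟨0, Nat.modEq_one⟩
  obtain ⟨μ, hμ⟩ := IsAlgClosed.exists_pow_nat_eq (ζ ^ x) hg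
  refine ⟨μ, ?_, ?_, ?_⟩
  · rintro rfl
    rw [zero_pow hg.ne'] at hμ
    exact pow_ne_zero x hζ0 hμ.symm
  · rw [hq, pow_mul, hμ, ← pow_mul, mul_comm x, pow_mul, hζ, one_pow]
  · rw [hr, pow_mul, hμ, ← pow_mul, mul_comm x]
    have h1 : ζ ^ (r' * x) = ζ ^ ((r' * x) % q') := by
      conv_lhs => rw [← Nat.div_add_mod (r' * x) q', pow_add, pow_mul, hζ, one_pow, one_mul]
    have h2 : ζ ^ 1 = ζ ^ (1 % q') := by
      conv_lhs => rw [← Nat.div_add_mod 1 q', pow_add, pow_mul, hζ, one_pow, one_mul]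
    rw [h1, hx, ← h2, pow_one]

/-- points with the same invariant `y ^ q' / t ^ r'` are equivalent -/
theorem exists_scale {t y t₁ y₁ : ℂ} (ht : t ≠ 0) (ht₁ : t₁ ≠ 0)
    (h : y ^ q' * t₁ ^ r' = y₁ ^ q' * t ^ r') :
    ∃ c : ℂ, c ≠ 0 ∧ t₁ = c ^ q * t ∧ y₁ = c ^ r * y := by
  have hqpos : 0 < q := by rw [hq]; exact Nat.mul_pos hg hq'
  obtain ⟨c, hc1⟩ := IsAlgClosed.exists_pow_nat_eq (t₁ / t) hqpos
  have hc0 : c ≠ 0 := by
    rintro rfl
    rw [zero_pow hqpos.ne'] at hc1
    exact div_ne_zero ht₁ ht hc1.symm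
  have h1 : (c ^ r * y) ^ q' = y₁ ^ q' := by
    have h2 : (c ^ r) ^ q' = (c ^ q) ^ r' := by
      rw [hr, hq, ← pow_mul, ← pow_mul]
      congr 1
      ring
    rw [mul_pow, h2, hc1, div_pow, div_mul_eq_mul_div, div_eq_iff (pow_ne_zero _ ht),
      mul_comm (t₁ ^ r'), h]
  by_cases hy : c ^ r * y = 0
  · rw [hy, zero_pow hq'.ne'] at h1
    refine ⟨c, hc0, by rw [hc1, div_mul_cancel₀ _ ht], ?_⟩
    rw [hy]
    exact pow_eq_zero_iff hq'.ne' |>.1 h1.symm
  · obtain ⟨μ, e1, e2, e3⟩ := exists_unit (ζ := y₁ / (c ^ r * y)) hq hg hq' hc hr (by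
      rw [div_pow, h1, div_self]
      rw [← h1]
      exact pow_ne_zero _ hy)
    refine ⟨c * μ, mul_ne_zero hc0 e1, ?_, ?_⟩
    · rw [mul_pow, e2, mul_one, hc1, div_mul_cancel₀ _ ht]
    · rw [mul_pow, e3, mul_right_comm, mul_div_cancel₀ _ hy]

/-- at most two zeros with `t = 1` -/
theorem two_roots {D : ℕ} (hD : D ≤ 2 * q') {G : MvPolynomial (Fin 2) ℂ}
    (hG : IsWeightedHomogeneous ![q, r] G (D * r)) (hG0 : ∃ y : ℂ, eval ![1, y] G ≠ 0) :
    ∃ y₁ y₂ : ℂ, ∀ y : ℂ, eval ![1, y] G = 0 → y ^ q' = y₁ ^ q' ∨ y ^ q' = y₂ ^ q' := by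
  obtain ⟨α, β, γ, h⟩ := three hq hr hg hq' hr' hc hD hG
  obtain ⟨y₀, hy₀⟩ := hG0
  have hroot : ∀ z : ℂ, ∃ y : ℂ, y ^ q' = z := fun z => IsAlgClosed.exists_pow_nat_eq z hq'
  by_cases h2 : D = 2 * q'
  · have h3 : ∀ y : ℂ, eval ![1, y] G = γ * (y ^ q') ^ 2 + β * y ^ q' + α := by
      intro y
      rw [h, if_pos (by omega), if_pos h2, h2, one_pow, one_pow, ← pow_mul, mul_comm q' 2]
      have : 2 * q' - q' = q' := by omega
      rw [this]
      ring
    by_cases hγ : γ = 0
    · obtain ⟨y₁, hy₁⟩ := hroot (-α / β)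
      refine ⟨y₁, y₁, fun y hy => Or.inl ?_⟩
      rw [h3, hγ, zero_mul, zero_add] at hy
      have hβ : β ≠ 0 := by
        rintro rfl
        rw [zero_mul, zero_add] at hy
        rw [h3, hγ, hy] at hy₀
        simp at hy₀
      rw [hy₁, eq_div_iff hβ]
      linear_combination hy
    · obtain ⟨s, hs⟩ := IsAlgClosed.exists_pow_nat_eq (β ^ 2 - 4 * γ * α) (zero_lt_two)
      obtain ⟨y₁, hy₁⟩ := hroot ((-β + s) / (2 * γ))
      obtain ⟨y₂, hy₂⟩ := hroot ((-β - s) / (2 * γ))
      refine ⟨y₁, y₂, fun y hy => ?_⟩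
      rw [h3] at hy
      have h4 : (y ^ q' - (-β + s) / (2 * γ)) * (y ^ q' - (-β - s) / (2 * γ)) = 0 := by
        field_simp
        linear_combination 4 * γ * hy - hs
      rcases mul_eq_zero.1 h4 with h5 | h5
      · exact Or.inl (by rw [hy₁]; exact sub_eq_zero.1 h5)
      · exact Or.inr (by rw [hy₂]; exact sub_eq_zero.1 h5)
  · by_cases h1 : q' ≤ D
    · obtain ⟨y₁, hy₁⟩ := hroot (-β / γ)
      refine ⟨y₁, 0, fun y hy => ?_⟩
      have h3 : ∀ y : ℂ, eval ![1, y] G = y ^ (D - q') * (γ * y ^ q' + β) := by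
        intro y
        rw [h, if_pos h1, if_neg h2, one_pow]
        have : y ^ D = y ^ (D - q') * y ^ q' := by
          rw [← pow_add, Nat.sub_add_cancel h1]
        rw [this]
        ring
      rw [h3] at hy
      rcases mul_eq_zero.1 hy with h4 | h4
      · right
        have h5 : y = 0 := by
          rcases Nat.eq_zero_or_pos (D - q') with h6 | h6
          · rw [h6, pow_zero] at h4
            exact absurd h4 one_ne_zero
          · exact pow_eq_zero_iff h6.ne' |>.1 h4
        rw [h5]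
      · left
        by_cases hγ : γ = 0
        · exfalso
          rw [hγ, zero_mul, zero_add] at h4
          rw [h3, hγ, h4] at hy₀
          simp at hy₀
        · rw [hy₁, eq_div_iff hγ]
          linear_combination h4
    · refine ⟨0, 0, fun y hy => Or.inl ?_⟩
      have h3 : ∀ y : ℂ, eval ![1, y] G = γ * y ^ D := by
        intro y
        rw [h, if_neg h1, if_neg h2, add_zero, add_zero]
      rw [h3] at hy
      have hγ : γ ≠ 0 := by
        rintro rfl
        rw [h3, zero_mul] at hy₀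
        exact hy₀ rfl
      have h4 := (mul_eq_zero.1 hy).resolve_left hγ
      rcases Nat.eq_zero_or_pos D with h5 | h5
      · rw [h5, pow_zero] at h4
        exact absurd h4 one_ne_zero
      · rw [pow_eq_zero_iff h5.ne' |>.1 h4]

/-- at most one zero if `D ≤ q'` and the coefficient of `y ^ D` is not zero -/
theorem one_zero {D : ℕ} (hD0 : 0 < D) (hD : D ≤ q') {G : MvPolynomial (Fin 2) ℂ}
    (hG : IsWeightedHomogeneous ![q, r] G (D * r)) (hγ : eval ![0, 1] G ≠ 0)
    {t y t₁ y₁ : ℂ} (h0 : (t, y) ≠ 0) (h1 : (t₁, y₁) ≠ 0) (h2 : eval ![t, y] G = 0)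
    (h3 : eval ![t₁, y₁] G = 0) : ∃ c : ℂ, c ≠ 0 ∧ t₁ = c ^ q * t ∧ y₁ = c ^ r * y := by
  obtain ⟨α, β, γ, h⟩ := three hq hr hg hq' hr' hc (by omega) hG
  have hne : D ≠ 2 * q' := by omega
  have hγ' : γ ≠ 0 := by
    rintro rfl
    apply hγ
    rw [h, if_neg hne, zero_mul, zero_add, add_zero]
    split_ifs
    · rw [zero_pow hr'.ne', zero_mul, mul_zero]
    · rfl
  have key : ∀ t y : ℂ, (t, y) ≠ 0 → eval ![t, y] G = 0 → t ≠ 0 := by
    rintro t y h0 h2 rfl
    rw [h, if_neg hne, add_zero] at h2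
    have h4 : γ * y ^ D = 0 := by
      rw [← h2]
      split_ifs
      · rw [zero_pow hr'.ne', zero_mul, mul_zero, add_zero]
      · rw [add_zero]
    have h5 := pow_eq_zero_iff hD0.ne' |>.1 ((mul_eq_zero.1 h4).resolve_left hγ')
    exact h0 (by rw [h5]; rfl)
  have ht := key t y h0 h2
  have ht₁ := key t₁ y₁ h1 h3
  refine exists_scale hq hr hg hq' hr' hc ht ht₁ ?_
  rw [h, if_neg hne, add_zero] at h2 h3
  by_cases h4 : q' ≤ D
  · have h5 : D = q' := by omega
    subst h5
    rw [if_pos le_rfl, Nat.sub_self, pow_zero, mul_one] at h2 h3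
    apply mul_left_cancel₀ hγ'
    linear_combination t₁ ^ r' * h2 - t ^ r' * h3
  · rw [if_neg h4, add_zero] at h2 h3
    have e1 := pow_eq_zero_iff hD0.ne' |>.1 ((mul_eq_zero.1 h2).resolve_left hγ')
    have e2 := pow_eq_zero_iff hD0.ne' |>.1 ((mul_eq_zero.1 h3).resolve_left hγ')
    rw [e1, e2, zero_pow hq'.ne', zero_mul, zero_mul]

end weights

end Two

end Pool.Agent.RCH
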