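import Pool.Agent.RCH.Mn9b
import Pool.Agent.RCH.MnDiv
import Pool.Agent.RCH.MnTwo

/-!
# A criterion for rank one
-/

set_option autoImplicit false

open MvPolynomial

namespace Pool.Agent.RCH.Mn

namespace MD

variable (S : MD)

/-- the integer `PG` times the degree of the divisor of `A` -/
noncomputable def kap : ℤ := ∑ C ∈ S.dA.support, S.dA C * (S.gC C : ℤ)

lemma kap_eq : ((S.p : ℤ) * S.q * S.r) * S.kap = ((S.PG : ℕ) : ℤ) * ((S.k : ℤ) * S.d) := by
  have h3 : ((S.PG : ℕ) : ℝ) * ((S.k : ℝ) * S.d) =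
      ((S.p : ℝ) * S.q * S.r) * ∑ C ∈ S.dA.support, (S.dA C : ℝ) * (S.gC C : ℝ) := by
    rw [S.quad.2, mul_left_comm]
    congr 1
    rw [Finset.mul_sum]
    refine Finset.sum_congr rfl fun C hC => ?_
    have h4 : ((S.G C : ℕ) : ℝ) ≠ 0 := by exact_mod_cast (S.G_pos hC).ne'
    have h5 : ((S.PG : ℕ) : ℝ) = S.G C * S.gC C := by exact_mod_cast (S.G_mul_gC hC).symm
    rw [h5]
    field_simp
  exact_mod_cast h3.symm

lemma kap_pos : 0 < S.kap := by
  obtain ⟨C, hC⟩ := S.exists_mem_dA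
  refine Finset.sum_pos (fun C hC => ?_) ⟨C, hC⟩
  have h1 := S.dA_pos hC
  have h2 : (0 : ℤ) < S.gC C := by exact_mod_cast S.gC_pos hC
  exact mul_pos h1 h2

/-- the difference between `e C` and the multiple of the divisor of `A` of the same degree -/
noncomputable def zC (C : Pt S.V 1) : Cycles S.V 1 := S.kap • S.eC C - (S.PG : ℤ) • S.dA

lemma sum_zC : ∑ C ∈ S.dA.support, (S.dA C * (S.gC C : ℤ)) • S.zC C = 0 := by
  have h1 : ∑ C ∈ S.dA.support, (S.dA C * (S.gC C : ℤ)) • S.eC C = (S.PG : ℤ) • S.dA := by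
    conv_rhs => rw [sum_single S.dA, Finset.smul_sum]
    refine Finset.sum_congr rfl fun C hC => ?_
    rw [eC, smul_smul, smul_smul]
    congr 1
    have h3 : ((S.PG : ℕ) : ℤ) = S.G C * S.gC C := by exact_mod_cast (S.G_mul_gC hC).symm
    rw [h3]
    ring
  have h2 : ∀ C : Pt S.V 1, (S.dA C * (S.gC C : ℤ)) • S.zC C =
      S.kap • ((S.dA C * (S.gC C : ℤ)) • S.eC C) -
        (S.dA C * (S.gC C : ℤ)) • ((S.PG : ℤ) • S.dA) := by
    intro C
    rw [zC, smul_sub, smul_comm]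
  simp only [h2, Finset.sum_sub_distrib]
  rw [← Finset.smul_sum, h1, ← Finset.sum_smul]
  exact sub_self _

/-- the degree of the divisor of `A` -/
lemma deg_dA : ((S.N * S.PG : ℕ) : ℝ) * Dg.deg S.V 2 S.dA = (S.kap : ℝ) := by
  rw [S.deg_combination (Finset.Subset.refl _), kap]
  push_cast
  rfl

lemma deg_eC {C : Pt S.V 1} (hC : C ∈ S.dA.support) : (S.N : ℝ) * Dg.deg S.V 2 (S.eC C) = 1 := by
  rw [eC, map_zsmul, Dg.deg_single, zsmul_eq_mul]
  have h := (S.degPt_dA hC).2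
  push_cast
  linear_combination h

/-- a curve with a multiple rationally equivalent to a multiple of the divisor of `A` -/
lemma zC_of_rel {C : Pt S.V 1} (hC : C ∈ S.dA.support) {a b : ℤ} (ha : a ≠ 0)
    (h : a • S.eC C - b • S.dA ∈ RatZero S.V 1) : S.zC C ∈ torZero S.V 1 := by
  have h1 := Dg.deg_ratZero S.wt_pos (r := 2) (by norm_num) h
  rw [map_sub, map_zsmul, map_zsmul, zsmul_eq_mul, zsmul_eq_mul] at h1
  have h2 : a * (S.PG : ℤ) = b * S.kap := by
    have h3 := S.deg_dA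
    have h4 := S.deg_eC hC
    have h5 : (a : ℝ) * (S.PG : ℝ) = b * S.kap := by
      push_cast at h3
      linear_combination (S.N * S.PG : ℝ) * h1 - (a * S.PG : ℝ) * h4 + (b : ℝ) * h3
    exact_mod_cast h5
  have hP : (S.PG : ℤ) ≠ 0 := by exact_mod_cast S.PG_pos.ne'
  have hb : b ≠ 0 := by
    rintro rfl
    rw [zero_mul] at h2
    exact mul_ne_zero ha hP h2
  refine torZero_of_zsmul hb (torZero_of_ratZero ?_)
  have h6 : b • S.zC C = (S.PG : ℤ) • (a • S.eC C - b • S.dA) := by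
    rw [zC, smul_sub, smul_sub, smul_smul, smul_smul, smul_smul, smul_smul, ← h2]
    congr 1
    · rw [mul_comm]
    · rw [mul_comm]
  rw [h6]
  exact AddSubgroup.zsmul_mem _ h _

/-- **A criterion for rank one.** -/
theorem rank_one_of (C₁ C₂ : Pt S.V 1)
    (h : ∀ C ∈ S.dA.support, C = C₁ ∨ C = C₂ ∨ S.zC C ∈ torZero S.V 1) :
    ∃ δ : Cycles S.V 1, ∀ C ∈ S.dA.support, ∀ C' ∈ S.dA.support, ∃ a : ℕ, 1 ≤ a ∧ ∃ b : ℤ,
      a • (S.eC C - S.eC C') - b • δ ∈ torZero S.V 1 := by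
  classical
  -- every `z C` has a multiple which is a multiple of `δ`
  obtain ⟨δ, hδ⟩ : ∃ δ : Cycles S.V 1, ∀ C ∈ S.dA.support, ∃ a : ℤ, a ≠ 0 ∧ ∃ b : ℤ,
      a • S.zC C - b • δ ∈ torZero S.V 1 := by
    by_cases h1 : C₁ ∈ S.dA.support
    · refine ⟨S.zC C₁, fun C hC => ?_⟩
      rcases h C hC with rfl | rfl | h2
      · exact ⟨1, one_ne_zero, 1, by rw [sub_self]; exact zero_mem _⟩
      · by_cases h12 : C = C₁
        · subst h12
          exact ⟨1, one_ne_zero, 1, by rw [sub_self]; exact zero_mem _⟩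
        · refine ⟨S.dA C * (S.gC C : ℤ), ?_, -(S.dA C₁ * (S.gC C₁ : ℤ)), ?_⟩
          · have h2 := S.dA_pos hC
            have h3 : (0 : ℤ) < S.gC C := by exact_mod_cast S.gC_pos hC
            exact (mul_pos h2 h3).ne'
          · have h3 := S.sum_zC
            rw [← Finset.add_sum_erase _ _ hC, ← Finset.add_sum_erase _ _
              (Finset.mem_erase.2 ⟨fun h' => h12 h'.symm, h1⟩)] at h3
            have h4 : (S.dA C * (S.gC C : ℤ)) • S.zC C -
                (-(S.dA C₁ * (S.gC C₁ : ℤ))) • S.zC C₁ =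
                -∑ x ∈ (S.dA.support.erase C).erase C₁, (S.dA x * (S.gC x : ℤ)) • S.zC x := by
              rw [neg_smul, sub_neg_eq_add, eq_neg_iff_add_eq_zero, add_assoc]
              exact h3
            rw [h4]
            refine neg_mem (sum_mem fun x hx => AddSubgroup.zsmul_mem _ ?_ _)
            rw [Finset.mem_erase, Finset.mem_erase] at hx
            rcases h x hx.2.2 with h5 | h5 | h5
            · exact absurd h5 hx.1
            · exact absurd h5 hx.2.1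
            · exact h5
      · exact ⟨1, one_ne_zero, 0, by rw [one_smul, zero_smul, sub_zero]; exact h2⟩
    · refine ⟨S.zC C₂, fun C hC => ?_⟩
      rcases h C hC with rfl | rfl | h2
      · exact absurd hC h1
      · exact ⟨1, one_ne_zero, 1, by rw [sub_self]; exact zero_mem _⟩
      · exact ⟨1, one_ne_zero, 0, by rw [one_smul, zero_smul, sub_zero]; exact h2⟩
  refine ⟨δ, fun C hC C' hC' => ?_⟩
  obtain ⟨a, ha, b, h1⟩ := hδ C hC
  obtain ⟨a', ha', b', h2⟩ := hδ C' hC'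
  have hk := S.kap_pos
  -- `a a' κ (e C - e C')`
  have h3 : (a * a' * S.kap) • (S.eC C - S.eC C') - (a' * b - a * b') • δ ∈ torZero S.V 1 := by
    have h4 : (a * a' * S.kap) • (S.eC C - S.eC C') - (a' * b - a * b') • δ =
        a' • (a • S.zC C - b • δ) - a • (a' • S.zC C' - b' • δ) := by
      rw [zC, zC]
      module
    rw [h4]
    exact sub_mem (AddSubgroup.zsmul_mem _ h1 _) (AddSubgroup.zsmul_mem _ h2 _)
  have h5 : a * a' * S.kap ≠ 0 := mul_ne_zero (mul_ne_zero ha ha') hk.ne'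
  refine ⟨(a * a' * S.kap).natAbs, Nat.one_le_iff_ne_zero.2 (Int.natAbs_ne_zero.2 h5), ?_⟩
  rcases Int.natAbs_eq (a * a' * S.kap) with h6 | h6
  · refine ⟨a' * b - a * b', ?_⟩
    rw [← natCast_zsmul, ← h6]
    exact h3
  · refine ⟨-(a' * b - a * b'), ?_⟩
    have h7 : (((a * a' * S.kap).natAbs : ℕ) : ℤ) = -(a * a' * S.kap) := by omega
    have h8 : (a * a' * S.kap).natAbs • (S.eC C - S.eC C') - (-(a' * b - a * b')) • δ =
        -((a * a' * S.kap) • (S.eC C - S.eC C') - (a' * b - a * b') • δ) := by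
      rw [← natCast_zsmul, h7]
      module
    rw [h8]
    exact neg_mem h3

/-- a curve which is alone on a form `f` -/
lemma zC_of_form {C : Pt S.V 1} (hC : C ∈ S.dA.support) {f : MvPolynomial (Fin 3) ℂ} {m : ℕ}
    (hf : IsWeightedHomogeneous S.w3 f m) (hf0 : f ≠ 0) (hfC : inc f ∈ C.I)
    (h : ∀ Q : Pt S.V 1, CodimOne S.pY.I Q.I → inc f ∈ Q.I → Q = C) :
    S.zC C ∈ torZero S.V 1 := by
  obtain ⟨c, hc⟩ := S.exists_div hf hf0
  have h1 := S.div_pow hf S.hA hf0 S.hA0 hc S.isDivisor_dA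
  have hY := S.inc_notMem hf hf0
  have h2 : C ∈ c.support := (mem_support_div hY hc).2 ⟨(S.mem_dA.1 hC).1, hfC⟩
  have h3 : c = c C • Finsupp.single C 1 := by
    have h4 : c.support = {C} := by
      ext Q
      rw [Finset.mem_singleton]
      constructor
      · intro hQ
        have h5 := (mem_support_div hY hc).1 hQ
        exact h Q h5.1 h5.2
      · rintro rfl
        exact h2
    conv_lhs => rw [sum_single c, h4, Finset.sum_singleton]
  have h4 := div_pos hc h2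
  have h5 : ((S.k : ℤ) * c C) • S.eC C - ((S.G C : ℤ) * m) • S.dA ∈ RatZero S.V 1 := by
    have h6 : ((S.k : ℤ) * c C) • S.eC C - ((S.G C : ℤ) * m) • S.dA =
        (S.G C : ℤ) • ((S.k : ℤ) • c - (m : ℤ) • S.dA) := by
      rw [eC]
      conv_rhs => rw [h3]
      module
    rw [h6]
    exact AddSubgroup.zsmul_mem _ h1 _
  have h6 : ((S.k : ℤ) * c C) ≠ 0 := by
    have h7 : (0 : ℤ) < S.k := by exact_mod_cast S.k_pos
    exact (mul_pos h7 h4).ne'
  exact S.zC_of_rel hC h6 h5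

end MD

namespace MD

variable (S : MD)

lemma aeval_scale (c b : ℂ) (n : ℕ) :
    aeval ![(X 0 : MvPolynomial (Fin 2) ℂ), C c * X 1] (C b * X 1 ^ n : MvPolynomial (Fin 2) ℂ) =
      C (c ^ n * b) * X 1 ^ n := by
  have h1 : aeval ![(X 0 : MvPolynomial (Fin 2) ℂ), C c * X 1] (C b : MvPolynomial (Fin 2) ℂ) =
      C b := (aeval ![(X 0 : MvPolynomial (Fin 2) ℂ), C c * X 1]).commutes b
  have h2 : aeval ![(X 0 : MvPolynomial (Fin 2) ℂ), C c * X 1] (X 1 : MvPolynomial (Fin 2) ℂ) =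
      C c * X 1 := by
    rw [aeval_X]
    rfl
  rw [map_mul, map_pow, h1, h2, C_mul, C_pow]
  ring

/-- the change of parameter of the cone -/
lemma coneHom_eqv {a a' : Fin 3 → ℂ} {c : ℂ} (h : a' = ![c ^ S.p * a 0, c ^ S.q * a 1, c ^ S.r * a 2])
    (z : Coord (Fin 5) 1) : S.coneHom a' z =
      aeval ![(X 0 : MvPolynomial (Fin 2) ℂ), C c * X 1] (S.coneHom a z) := by
  have h1 : S.coneHom a' = (aeval ![(X 0 : MvPolynomial (Fin 2) ℂ), C c * X 1]).comp
      (S.coneHom a) := by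
    apply MvPolynomial.algHom_ext
    rintro ⟨i, j⟩
    rw [AlgHom.comp_apply, coneHom, coneHom, aeval_X, aeval_X, h]
    fin_cases j
    · show (X 0 : MvPolynomial (Fin 2) ℂ) = aeval _ (X 0)
      rw [aeval_X]
      rfl
    · exact (aeval_scale c (a 0) S.p).symm
    · exact (aeval_scale c (a 1) S.q).symm
    · show (0 : MvPolynomial (Fin 2) ℂ) = aeval _ 0
      rw [map_zero]
    · exact (aeval_scale c (a 2) S.r).symm
  exact congrArg (fun φ => φ z) h1

lemma eqv_symm {p q r : ℕ} {a a' : Fin 3 → ℂ} (h : Eqv p q r a a') : Eqv p q r a' a := by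
  obtain ⟨c, hc, rfl⟩ := h
  refine ⟨c⁻¹, inv_ne_zero hc, ?_⟩
  funext i
  fin_cases i
  · show a 0 = c⁻¹ ^ p * (c ^ p * a 0)
    rw [← mul_assoc, ← mul_pow, inv_mul_cancel₀ hc, one_pow, one_mul]
  · show a 1 = c⁻¹ ^ q * (c ^ q * a 1)
    rw [← mul_assoc, ← mul_pow, inv_mul_cancel₀ hc, one_pow, one_mul]
  · show a 2 = c⁻¹ ^ r * (c ^ r * a 2)
    rw [← mul_assoc, ← mul_pow, inv_mul_cancel₀ hc, one_pow, one_mul]

/-- points in the same orbit define the same curve -/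
lemma ker_eqv {a a' : Fin 3 → ℂ} (h : Eqv S.p S.q S.r a a') :
    RingHom.ker (S.coneHom a) = RingHom.ker (S.coneHom a') := by
  have key : ∀ b b' : Fin 3 → ℂ, Eqv S.p S.q S.r b b' →
      RingHom.ker (S.coneHom b) ≤ RingHom.ker (S.coneHom b') := by
    rintro b b' ⟨c, hc, h1⟩ z hz
    rw [RingHom.mem_ker] at hz ⊢
    rw [S.coneHom_eqv h1 z, hz, map_zero]
  exact le_antisymm (key a a' h) (key a' a (eqv_symm h))

/-- **The criterion for rank one in terms of `A` and `B`.** -/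
theorem rank_one_crit (h : TwoPoints S.p S.q S.r S.A S.B) :
    ∃ δ : Cycles S.V 1, ∀ C ∈ S.dA.support, ∀ C' ∈ S.dA.support, ∃ a : ℕ, 1 ≤ a ∧ ∃ b : ℤ,
      a • (S.eC C - S.eC C') - b • δ ∈ torZero S.V 1 := by
  classical
  obtain ⟨a₁, a₂, h⟩ := h
  obtain ⟨C₀, hC₀⟩ := S.exists_mem_dA
  -- a curve with the ideal of `a_i`, if there is one
  have hex : ∀ b : Fin 3 → ℂ, ∃ C' : Pt S.V 1, ∀ C ∈ S.dA.support,
      C.I = RingHom.ker (S.coneHom b) → C = C' := by
    intro b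
    by_cases hb : ∃ C' : Pt S.V 1, C'.I = RingHom.ker (S.coneHom b)
    · obtain ⟨C', hC'⟩ := hb
      exact ⟨C', fun C _ hC => Pt.ext' _ (hC.trans hC'.symm)⟩
    · exact ⟨C₀, fun C _ hC => absurd ⟨C, hC⟩ hb⟩
  obtain ⟨C₁, hC₁⟩ := hex a₁
  obtain ⟨C₂, hC₂⟩ := hex a₂
  refine S.rank_one_of C₁ C₂ fun C hC => ?_
  obtain ⟨a, ha, haA, haB, haC⟩ := S.dA_cone.1 hC
  rcases h a ha haA haB with h1 | h1 | ⟨f, m, ⟨g, hg⟩, -, hf, haf, huniq⟩
  · exact Or.inl (hC₁ C hC (haC.trans (S.ker_eqv h1).symm))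
  · exact Or.inr (Or.inl (hC₂ C hC (haC.trans (S.ker_eqv h1).symm)))
  · refine Or.inr (Or.inr ?_)
    have hf0 : f ≠ 0 := by
      rintro rfl
      rw [zero_mul] at hg
      exact S.hA0 hg
    refine S.zC_of_form hC hf hf0 ?_ fun Q hQ hfQ => ?_
    · rw [haC, RingHom.mem_ker, S.coneHom_inc, S.mem_ker_tau a hf]
      exact haf
    · -- the curve `Q` is in the divisor of `A`
      have hQA : Q ∈ S.dA.support := by
        refine S.mem_dA.2 ⟨hQ, ?_⟩
        have h2 : S.A1 = inc f * inc g := by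
          rw [← S.inc_A, hg, map_mul]
        rw [h2]
        exact Ideal.mul_mem_right _ _ hfQ
      obtain ⟨a', ha', ha'A, ha'B, haQ⟩ := S.dA_cone.1 hQA
      have h3 : eval a' f = 0 := by
        rw [← S.mem_ker_tau a' hf, ← S.coneHom_inc, ← RingHom.mem_ker, ← haQ]
        exact hfQ
      apply Pt.ext'
      rw [haQ, haC]
      exact (S.ker_eqv (huniq a' ha' ha'A ha'B h3)).symm

/-- **The squares of the one-cycles of degree zero on the section.** -/
theorem square_of_twoPoints (h : TwoPoints S.p S.q S.r S.A S.B) (D : Cycles S.V 1)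
    (hD : ∀ Q ∈ D.support, CodimOne S.pY.I Q.I) (h0 : degree S.V D = 0) :
    ∃ M : ℕ, 1 ≤ M ∧ M • extPow S.V D 2 ∈ RatEq S.V 2 := by
  obtain ⟨δ, hδ⟩ := S.rank_one_crit h
  exact S.square_of_degree' δ hδ D hD h0

end MD

end Pool.Agent.RCH.Mn
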