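import Mathlib

/-!
# The coefficients of a form in the first variable, modulo the fourth variable
-/

set_option autoImplicit false

open MvPolynomial

namespace Pool.Agent.RCH

/-- The coefficient of `x_0 ^ i` in `F(x_0, x_1, x_2, 0, x_4)`, as a polynomial in
`x_1, x_2, x_4`. -/
noncomputable def coefP (i : ℕ) (F : MvPolynomial (Fin 5) ℂ) : MvPolynomial (Fin 3) ℂ :=
  aeval ![X 0, X 1, 0, X 2] ((finSuccEquiv ℂ 4 F).coeff i)

namespace CoefP

/-- exponents of `x_1, x_2, x_3, x_4` -/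
noncomputable def ex4 (u : Fin 3 →₀ ℕ) : Fin 4 →₀ ℕ :=
  Finsupp.equivFunOnFinite.symm ![u 0, u 1, 0, u 2]

/-- exponents of `x_0, …, x_4` -/
noncomputable def ex5 (i : ℕ) (u : Fin 3 →₀ ℕ) : Fin 5 →₀ ℕ :=
  Finsupp.equivFunOnFinite.symm ![i, u 0, u 1, 0, u 2]

/-- the exponents of `x_1, x_2, x_4` -/
noncomputable def dr (s : Fin 5 →₀ ℕ) : Fin 3 →₀ ℕ :=
  Finsupp.equivFunOnFinite.symm ![s 1, s 2, s 4]

lemma ex4_inj {u v : Fin 3 →₀ ℕ} (h : ex4 u = ex4 v) : u = v := by
  have h1 := congrArg (fun f : Fin 4 →₀ ℕ => f 0) h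
  have h2 := congrArg (fun f : Fin 4 →₀ ℕ => f 1) h
  have h3 := congrArg (fun f : Fin 4 →₀ ℕ => f 3) h
  ext i
  fin_cases i
  · exact h1
  · exact h2
  · exact h3

lemma cons_ex4 (i : ℕ) (u : Fin 3 →₀ ℕ) : (ex4 u).cons i = ex5 i u := by
  ext j
  fin_cases j <;> rfl

lemma coeff_aeval (u : Fin 3 →₀ ℕ) (g : MvPolynomial (Fin 4) ℂ) :
    coeff u (aeval (![X 0, X 1, 0, X 2] : Fin 4 → MvPolynomial (Fin 3) ℂ) g) =
      coeff (ex4 u) g := by
  classical
  induction g using MvPolynomial.induction_on' with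
  | monomial t c =>
    rw [aeval_monomial, Finsupp.prod_fintype _ _ (fun _ => pow_zero _), coeff_monomial]
    simp only [Fin.prod_univ_four, algebraMap_eq]
    by_cases h2 : t 2 = 0
    · have h3 : (C c * ((![X 0, X 1, 0, X 2] : Fin 4 → MvPolynomial (Fin 3) ℂ) 0 ^ t 0 *
          (![X 0, X 1, 0, X 2] : Fin 4 → MvPolynomial (Fin 3) ℂ) 1 ^ t 1 *
          (![X 0, X 1, 0, X 2] : Fin 4 → MvPolynomial (Fin 3) ℂ) 2 ^ t 2 *
          (![X 0, X 1, 0, X 2] : Fin 4 → MvPolynomial (Fin 3) ℂ) 3 ^ t 3)) =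
          monomial (Finsupp.equivFunOnFinite.symm ![t 0, t 1, t 3]) c := by
        rw [h2, monomial_eq, Finsupp.prod_fintype _ _ (fun _ => pow_zero _), Fin.prod_univ_three,
          pow_zero, mul_one]
        rfl
      rw [h3, coeff_monomial]
      congr 1
      rw [eq_iff_iff]
      constructor
      · rintro rfl
        ext j
        fin_cases j
        · rfl
        · rfl
        · exact h2
        · rfl
      · rintro rfl
        ext j
        fin_cases j <;> rfl
    · rw [if_neg (by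
        rintro rfl
        exact h2 rfl)]
      have h3 : (![X 0, X 1, 0, X 2] : Fin 4 → MvPolynomial (Fin 3) ℂ) 2 ^ t 2 = 0 :=
        zero_pow h2
      rw [h3, mul_zero, zero_mul, mul_zero, coeff_zero]
  | add p q hp hq => rw [map_add, coeff_add, coeff_add, hp, hq]

/-- the coefficients -/
lemma coeff_coefP (i : ℕ) (F : MvPolynomial (Fin 5) ℂ) (u : Fin 3 →₀ ℕ) :
    coeff u (coefP i F) = coeff (ex5 i u) F := by
  rw [coefP, coeff_aeval, finSuccEquiv_coeff_coeff, cons_ex4]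

lemma coefP_add (i : ℕ) (F G : MvPolynomial (Fin 5) ℂ) :
    coefP i (F + G) = coefP i F + coefP i G := by
  ext u
  rw [coeff_add, coeff_coefP, coeff_coefP, coeff_coefP, coeff_add]

lemma weight_ex5 (N p q w r i : ℕ) (u : Fin 3 →₀ ℕ) :
    Finsupp.weight ![N, p, q, w, r] (ex5 i u) = i * N + Finsupp.weight ![p, q, r] u := by
  rw [Finsupp.weight_apply, Finsupp.weight_apply, Finsupp.sum_fintype _ _ (fun _ => by simp),
    Finsupp.sum_fintype _ _ (fun _ => by simp), Fin.sum_univ_five, Fin.sum_univ_three]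
  change i * N + u 0 * p + u 1 * q + 0 * w + u 2 * r = i * N + (u 0 * p + u 1 * q + u 2 * r)
  ring

/-- the coefficients are homogeneous -/
theorem coefP_hom {N p q w r i n : ℕ} {F : MvPolynomial (Fin 5) ℂ}
    (hF : IsWeightedHomogeneous ![N, p, q, w, r] F (i * N + n)) :
    IsWeightedHomogeneous ![p, q, r] (coefP i F) n := by
  intro u hu
  rw [coeff_coefP] at hu
  have h := hF hu
  rw [weight_ex5] at h
  omega

lemma ex5_dr {s : Fin 5 →₀ ℕ} (h3 : s 3 = 0) : ex5 (s 0) (dr s) = s := by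
  ext j
  fin_cases j
  · rfl
  · rfl
  · rfl
  · exact h3.symm
  · rfl

lemma dr_ex5 (i : ℕ) (u : Fin 3 →₀ ℕ) : dr (ex5 i u) = u := by
  ext j
  fin_cases j <;> rfl

lemma finSucc_rename (A : MvPolynomial (Fin 3) ℂ) :
    finSuccEquiv ℂ 4 (rename ![(1 : Fin 5), 2, 4] A) =
      Polynomial.C (rename ![(0 : Fin 4), 1, 3] A) := by
  have h : ((finSuccEquiv ℂ 4).toAlgHom.comp (rename ![(1 : Fin 5), 2, 4])) =
      (Polynomial.CAlgHom (R := ℂ)).comp
        (rename (R := ℂ) (![(0 : Fin 4), 1, 3])) := by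
    apply MvPolynomial.algHom_ext
    intro i
    rw [AlgHom.comp_apply, AlgHom.comp_apply, rename_X, rename_X]
    fin_cases i
    · exact finSuccEquiv_X_succ (j := (0 : Fin 4))
    · exact finSuccEquiv_X_succ (j := (1 : Fin 4))
    · exact finSuccEquiv_X_succ (j := (3 : Fin 4))
  exact congrArg (fun φ => φ A) h

lemma aeval_rename_self (A : MvPolynomial (Fin 3) ℂ) :
    aeval (![X 0, X 1, 0, X 2] : Fin 4 → MvPolynomial (Fin 3) ℂ)
      (rename ![(0 : Fin 4), 1, 3] A) = A := by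
  rw [aeval_rename]
  have h : ((![X 0, X 1, 0, X 2] : Fin 4 → MvPolynomial (Fin 3) ℂ) ∘ ![(0 : Fin 4), 1, 3]) = X := by
    funext i
    fin_cases i <;> rfl
  rw [h]
  exact congrArg (fun φ : MvPolynomial (Fin 3) ℂ →ₐ[ℂ] _ => φ A) aeval_X_left

lemma coefP_shape (i e : ℕ) (A : MvPolynomial (Fin 3) ℂ) :
    coefP i (X 0 ^ e * rename ![(1 : Fin 5), 2, 4] A) = if i = e then A else 0 := by
  rw [coefP, map_mul, map_pow, finSuccEquiv_X_zero, finSucc_rename, mul_comm,
    Polynomial.coeff_C_mul_X_pow]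
  split_ifs
  · exact aeval_rename_self A
  · exact map_zero _

lemma coefP_sub (i : ℕ) (F G : MvPolynomial (Fin 5) ℂ) :
    coefP i (F - G) = coefP i F - coefP i G := by
  ext u
  rw [coeff_sub, coeff_coefP, coeff_coefP, coeff_coefP, coeff_sub]

/-- a polynomial is divisible by `x_3` if all its coefficients `coefP` are zero -/
lemma mem_of_coefP {G : MvPolynomial (Fin 5) ℂ} (h : ∀ i, coefP i G = 0) :
    G ∈ Ideal.span {(X 3 : MvPolynomial (Fin 5) ℂ)} := by
  have h1 : ({(X 3 : MvPolynomial (Fin 5) ℂ)} : Set _) = X '' {(3 : Fin 5)} := by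
    rw [Set.image_singleton]
  rw [h1, mem_ideal_span_X_image]
  intro s hs
  refine ⟨3, rfl, fun h3 => ?_⟩
  rw [mem_support_iff, ← ex5_dr h3, ← coeff_coefP, h, coeff_zero] at hs
  exact hs rfl

/-- **The shape of `F` modulo `x_3`**, if only the powers `0` and `e` of `x_0` occur. -/
theorem shape {F : MvPolynomial (Fin 5) ℂ} {e : ℕ} (he : e ≠ 0)
    (h : ∀ s ∈ F.support, s 3 = 0 → s 0 = 0 ∨ s 0 = e) :
    F - (X 0 ^ e * rename ![(1 : Fin 5), 2, 4] (coefP e F) +
      rename ![(1 : Fin 5), 2, 4] (coefP 0 F)) ∈ Ideal.span {(X 3 : MvPolynomial (Fin 5) ℂ)} := by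
  refine mem_of_coefP fun i => ?_
  have h0 := coefP_shape i 0 (coefP 0 F)
  rw [pow_zero, one_mul] at h0
  rw [coefP_sub, coefP_add, coefP_shape, h0]
  by_cases h1 : i = e
  · rw [if_pos h1, if_neg (fun h2 => he (h1 ▸ h2)), add_zero, h1, sub_self]
  · by_cases h2 : i = 0
    · rw [if_neg h1, if_pos h2, zero_add, h2, sub_self]
    · rw [if_neg h1, if_neg h2, add_zero, sub_zero]
      ext u
      rw [coeff_coefP, coeff_zero]
      by_contra h3
      rcases h _ (mem_support_iff.2 h3) rfl with h4 | h4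
      · exact h2 h4
      · exact h1 h4

end CoefP

end Pool.Agent.RCH
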