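import Pool.Agent.RCH.MnStmt
import Pool.Agent.RCH.AutBox

/-!
# Exchangeable curves and monomial symmetries
-/

set_option autoImplicit false

open MvPolynomial

namespace Pool.Agent.RCH.Mn

lemma productCycle_eq (X : WVar (Fin 5)) {n : ℕ} (D : Fin n → Cycles X 1) :
    productCycle X D = boxC X D := rfl

lemma substitution_eq {X : WVar (Fin 5)} (g : MSym X) :
    substitution g.σ g.c = actHom (Equiv.refl (Fin 1)) (fun _ => g) := by
  apply MvPolynomial.algHom_ext
  intro u
  rw [actHom_X, substitution, aeval_X]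
  rfl

lemma comap_substitution {X : WVar (Fin 5)} (g : MSym X) (Q : Pt X 1) :
    Q.I.comap (substitution g.σ g.c) = (tr1 g Q).I := by
  ext p
  rw [Ideal.mem_comap, mem_tr1, actN_apply, substitution_eq]

lemma exchangeable_iff {X : WVar (Fin 5)} {s : Finset (Pt X 1)} :
    Exchangeable X s ↔ ∀ C ∈ s, ∀ C' ∈ s, ∃ g : MSym X, g.σ 0 = 0 ∧ g.σ 3 = 3 ∧
      tr1 g C = C' ∧ tr1 g C' = C := by
  constructor
  · intro h C hC C' hC'
    obtain ⟨σ, c, h0, h3, hc, hf, h1, h2⟩ := h C hC C' hC'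
    let g : MSym X := ⟨σ, c, fun j => (hc j).1, fun j => (hc j).2, hf⟩
    refine ⟨g, h0, h3, ?_, ?_⟩
    · apply Pt.ext'
      rw [← comap_substitution g C]
      exact h1
    · apply Pt.ext'
      rw [← comap_substitution g C']
      exact h2
  · intro h C hC C' hC'
    obtain ⟨g, h0, h3, h1, h2⟩ := h C hC C' hC'
    refine ⟨g.σ, g.c, h0, h3, fun j => ⟨g.hc j, g.hwt j⟩, g.heq, ?_, ?_⟩
    · rw [comap_substitution g C, h1]
    · rw [comap_substitution g C', h2]

end Pool.Agent.RCH.Mn
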