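import Pool.Agent.RCH.Defs

/-!
# Points of `X^N` with coordinates in a domain
-/

set_option autoImplicit false

open MvPolynomial

namespace Pool.Agent.RCH

variable {ι : Type} (X : WVar ι) {N : ℕ}

section Gen

variable {D : Type} [CommRing D] [Algebra ℂ D] (d : Fin N × ι → D)

/-- The homomorphism from the coordinate ring of `N` points to the polynomial ring over `D` in `N`
scaling variables, sending a coordinate to the given value times a power of the scaling variable. -/
noncomputable def genHom : Coord ι N →ₐ[ℂ] MvPolynomial (Fin N) D :=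
  aeval (fun v => C (d v) * MvPolynomial.X v.1 ^ (X.wt v.2))

/-- The ideal of the point with coordinates `d` in `D`. -/
noncomputable def genIdeal : Ideal (Coord ι N) := RingHom.ker (genHom X d)

/-- a multidegree as a finitely supported function -/
noncomputable def toF (e : Fin N → ℕ) : Fin N →₀ ℕ := Finsupp.equivFunOnFinite.symm e

lemma toF_inj {e e' : Fin N → ℕ} (h : toF e = toF e') : e = e' :=
  Finsupp.equivFunOnFinite.symm.injective h

lemma toF_add (e e' : Fin N → ℕ) : toF (e + e') = toF e + toF e' := by
  ext i
  simp [toF]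

lemma toF_sum {α : Type} (s : Finset α) (g : α → (Fin N → ℕ)) :
    toF (∑ a ∈ s, g a) = ∑ a ∈ s, toF (g a) := by
  classical
  induction s using Finset.induction_on with
  | empty => ext i; simp [toF]
  | insert a s ha ih => rw [Finset.sum_insert ha, Finset.sum_insert ha, toF_add, ih]

lemma genHom_X (v : Fin N × ι) :
    genHom X d (MvPolynomial.X v) = monomial (toF (X.mdeg N v)) (d v) := by
  rw [genHom, aeval_X]
  have h : toF (X.mdeg N v) = Finsupp.single v.1 (X.wt v.2) := by
    ext i
    simp only [toF, WVar.mdeg, Finsupp.equivFunOnFinite_symm_apply_apply]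
    rw [Finsupp.single_apply, Pi.single_apply]
    by_cases h : v.1 = i
    · rw [if_pos h, if_pos h.symm]
    · rw [if_neg h, if_neg (fun h' => h h'.symm)]
  rw [h, MvPolynomial.X_pow_eq_monomial, C_mul_monomial, mul_one]

lemma genHom_monomial (s : Fin N × ι →₀ ℕ) (a : ℂ) :
    genHom X d (monomial s a) =
      monomial (toF (Finsupp.weight (X.mdeg N) s)) (aeval d (monomial s a)) := by
  classical
  induction s using Finsupp.induction generalizing a with
  | zero =>
    have h0 : toF (Finsupp.weight (X.mdeg N) (0 : Fin N × ι →₀ ℕ)) = 0 := by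
      rw [map_zero]
      ext i; simp [toF]
    rw [h0]
    have h1 : (monomial (0 : Fin N × ι →₀ ℕ) a) = C a := rfl
    rw [h1]
    have h2 : genHom X d (C a) = algebraMap ℂ _ a := (genHom X d).commutes a
    have h3 : aeval d (C a : MvPolynomial (Fin N × ι) ℂ) = algebraMap ℂ D a := (aeval d).commutes a
    rw [h2, h3]
    rfl
  | single_add v k s hv hk ih =>
    have h1 : (monomial (Finsupp.single v k + s) a : Coord ι N) =
        MvPolynomial.X v ^ k * monomial s a := by
      rw [MvPolynomial.X_pow_eq_monomial, monomial_mul, one_mul]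
    rw [h1, map_mul, map_pow, map_mul, map_pow, genHom_X, ih, aeval_X, monomial_pow, monomial_mul]
    congr 1
    rw [map_add, toF_add]
    congr 1
    rw [Finsupp.weight_single]
    ext i
    simp [toF]

lemma genHom_component (e : Fin N → ℕ) (p : Coord ι N) :
    genHom X d (weightedHomogeneousComponent (X.mdeg N) e p) =
      monomial (toF e) (aeval d (weightedHomogeneousComponent (X.mdeg N) e p)) := by
  classical
  rw [weightedHomogeneousComponent_apply, map_sum, map_sum, map_sum]
  refine Finset.sum_congr rfl fun s hs => ?_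
  rw [genHom_monomial]
  rw [(Finset.mem_filter.mp hs).2]

lemma genHom_of_homogeneous {e : Fin N → ℕ} {p : Coord ι N}
    (hp : IsWeightedHomogeneous (X.mdeg N) p e) :
    genHom X d p = monomial (toF e) (aeval d p) := by
  classical
  have h : weightedHomogeneousComponent (X.mdeg N) e p = p :=
    hp.weightedHomogeneousComponent_same
  have := genHom_component X d e p
  rwa [h] at this

lemma mem_genIdeal_of_homogeneous {e : Fin N → ℕ} {p : Coord ι N}
    (hp : IsWeightedHomogeneous (X.mdeg N) p e) :
    p ∈ genIdeal X d ↔ aeval d p = 0 := by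
  rw [genIdeal, RingHom.mem_ker]
  have h := genHom_of_homogeneous X d hp
  constructor
  · intro h0
    have h1 : genHom X d p = 0 := h0
    rw [h] at h1
    exact monomial_eq_zero.mp h1
  · intro h0
    have : genHom X d p = 0 := by rw [h, h0, monomial_zero]
    exact this

/-- evaluation at scaling parameters one -/
lemma aeval_of_mem {p : Coord ι N} (hp : p ∈ genIdeal X d) : aeval d p = 0 := by
  have h : ((MvPolynomial.aeval (R := D) (fun _ : Fin N => (1 : D))).toRingHom.comp
      (genHom X d).toRingHom) = (aeval d : Coord ι N →ₐ[ℂ] D).toRingHom := by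
    apply MvPolynomial.ringHom_ext
    · intro a
      have h2 : genHom X d (C a) = algebraMap ℂ _ a := (genHom X d).commutes a
      have h3 : aeval d (C a : MvPolynomial (Fin N × ι) ℂ) = algebraMap ℂ D a := (aeval d).commutes a
      simp only [AlgHom.toRingHom_eq_coe, RingHom.coe_comp, RingHom.coe_coe, Function.comp_apply]
      rw [h2, h3]
      have h4 : (algebraMap ℂ (MvPolynomial (Fin N) D)) a = C (algebraMap ℂ D a) := rfl
      rw [h4, aeval_C]
      rfl
    · intro v
      simp [genHom]
  have h0 : genHom X d p = 0 := hp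
  have h1 := congrArg (fun φ => φ p) h
  simp only [AlgHom.toRingHom_eq_coe, RingHom.coe_comp, RingHom.coe_coe, Function.comp_apply] at h1
  rw [h0, map_zero] at h1
  exact h1.symm

lemma mem_genIdeal_iff (p : Coord ι N) : p ∈ genIdeal X d ↔
    ∀ e : Fin N → ℕ, aeval d (weightedHomogeneousComponent (X.mdeg N) e p) = 0 := by
  classical
  have key : ∀ e : Fin N → ℕ, coeff (toF e) (genHom X d p) =
      aeval d (weightedHomogeneousComponent (X.mdeg N) e p) := by
    intro e
    rw [weightedHomogeneousComponent_apply]
    conv_lhs => rw [MvPolynomial.as_sum p]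
    rw [map_sum, coeff_sum, map_sum]
    rw [Finset.sum_filter]
    refine Finset.sum_congr rfl fun s hs => ?_
    rw [genHom_monomial, coeff_monomial]
    by_cases h : Finsupp.weight (X.mdeg N) s = e
    · rw [if_pos h, if_pos (by rw [h])]
    · rw [if_neg h, if_neg (fun h' => h (toF_inj h'))]
  constructor
  · intro hp e
    rw [← key]
    have h0 : genHom X d p = 0 := hp
    rw [h0, coeff_zero]
  · intro h
    have : genHom X d p = 0 := by
      ext s
      have hs : s = toF (fun i => s i) := by ext i; simp [toF]
      rw [hs, key, h, coeff_zero]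
    exact this

lemma genIdeal_homog (p : Coord ι N) (hp : p ∈ genIdeal X d) (e : Fin N → ℕ) :
    weightedHomogeneousComponent (X.mdeg N) e p ∈ genIdeal X d := by
  classical
  rw [genIdeal, RingHom.mem_ker]
  have h := genHom_component X d e p
  have h2 := (mem_genIdeal_iff X d p).mp hp e
  have : genHom X d (weightedHomogeneousComponent (X.mdeg N) e p) = 0 := by
    rw [h, h2, monomial_zero]
  exact this

lemma genIdeal_prime [IsDomain D] : (genIdeal X d).IsPrime := RingHom.ker_isPrime _

lemma X_mem_genIdeal (v : Fin N × ι) :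
    (MvPolynomial.X v : Coord ι N) ∈ genIdeal X d ↔ d v = 0 := by
  have h : IsWeightedHomogeneous (X.mdeg N) (MvPolynomial.X v : Coord ι N) (X.mdeg N v) :=
    isWeightedHomogeneous_X ℂ _ v
  rw [mem_genIdeal_of_homogeneous X d h, aeval_X]

lemma genIdeal_le_comp {D' : Type} [CommRing D'] [Algebra ℂ D'] (g : D →ₐ[ℂ] D') :
    genIdeal X d ≤ genIdeal X (fun v => g (d v)) := by
  intro p hp
  rw [mem_genIdeal_iff] at hp ⊢
  intro e
  have h : (aeval (fun v => g (d v)) : Coord ι N →ₐ[ℂ] D') = g.comp (aeval d) := by
    ext v
    simp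
  rw [h, AlgHom.comp_apply, hp e, map_zero]

/-- A multihomogeneous ideal on which all elements of `genIdeal` of multidegree `e` are killed. -/
lemma inFactor_aeval (i : Fin N) (f : MvPolynomial ι ℂ) :
    aeval d (inFactor N i f) = aeval (fun j => d (i, j)) f := by
  rw [inFactor, aeval_rename]
  rfl

lemma inFactor_homogeneous (i : Fin N) {f : MvPolynomial ι ℂ} {n : ℕ}
    (hf : IsWeightedHomogeneous X.wt f n) :
    IsWeightedHomogeneous (X.mdeg N) (inFactor N i f) (Pi.single i n) := by
  classical
  intro s hs
  rw [inFactor] at hs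
  have hinj : Function.Injective (fun j : ι => ((i, j) : Fin N × ι)) := by
    intro a b h
    exact (Prod.mk.inj h).2
  obtain ⟨u, hu, hs'⟩ := coeff_rename_ne_zero _ _ _ hs
  have h1 := hf hs'
  rw [← hu]
  rw [Finsupp.weight_apply, Finsupp.sum_mapDomain_index_inj hinj]
  rw [Finsupp.weight_apply] at h1
  rw [← h1]
  funext k
  rw [Finsupp.sum, Finset.sum_apply, Finsupp.sum]
  by_cases hk : k = i
  · subst hk
    rw [Pi.single_eq_same]
    refine Finset.sum_congr rfl fun j hj => ?_
    simp [WVar.mdeg]
  · rw [Pi.single_eq_of_ne hk]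
    refine Finset.sum_eq_zero fun j hj => ?_
    simp [WVar.mdeg, Pi.single_eq_of_ne hk]

/-- The point of `X^N` with coordinates `d` in the domain `D`. -/
noncomputable def mkPt [IsDomain D] (hrel : ∀ i : Fin N, ∃ j, d (i, j) ≠ 0)
    (hon : ∀ (i : Fin N), ∀ f ∈ X.eqs, inFactor N i f ∈ genIdeal X d) : Pt X N where
  I := genIdeal X d
  prime := genIdeal_prime X d
  homog := fun p hp e => genIdeal_homog X d p hp e
  relevant := fun i => by
    obtain ⟨j, hj⟩ := hrel i
    exact ⟨j, fun h => hj ((X_mem_genIdeal X d (i, j)).mp h)⟩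
  onX := hon

end Gen

lemma Pt.ext' {P Q : Pt X N} (h : P.I = Q.I) : P = Q := by
  cases P; cases Q; cases h; rfl

end Pool.Agent.RCH
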