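import Pool.Agent.RCH.WdIso

/-!
# Elementary automorphisms of polynomial rings
-/

set_option autoImplicit false

open MvPolynomial

namespace Pool.Agent.RCH

namespace Wd

variable {σ τ : Type} [DecidableEq σ]

/-- the substitution `x_i ↦ c x_i + t` -/
noncomputable def elemHom (i : σ) (c : ℂ) (t : MvPolynomial σ ℂ) :
    MvPolynomial σ ℂ →ₐ[ℂ] MvPolynomial σ ℂ :=
  aeval (fun j => if j = i then C c * MvPolynomial.X i + t else MvPolynomial.X j)

lemma elemHom_X_self (i : σ) (c : ℂ) (t : MvPolynomial σ ℂ) :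
    elemHom i c t (MvPolynomial.X i) = C c * MvPolynomial.X i + t := by
  rw [elemHom, aeval_X, if_pos rfl]

lemma elemHom_X_of_ne {i j : σ} (h : j ≠ i) (c : ℂ) (t : MvPolynomial σ ℂ) :
    elemHom i c t (MvPolynomial.X j) = MvPolynomial.X j := by
  rw [elemHom, aeval_X, if_neg h]

lemma elemHom_C (i : σ) (c : ℂ) (t : MvPolynomial σ ℂ) (a : ℂ) :
    elemHom i c t (C a) = C a := by
  rw [← MvPolynomial.algebraMap_eq, AlgHom.commutes]

/-- polynomials in other variables are not changed -/
lemma elemHom_rename {i : σ} {f : τ → σ} (hf : ∀ a, f a ≠ i) (c : ℂ) (t : MvPolynomial σ ℂ)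
    (p : MvPolynomial τ ℂ) : elemHom i c t (rename f p) = rename f p := by
  have h : (elemHom i c t).comp (rename f) = rename f := by
    apply MvPolynomial.algHom_ext
    intro a
    rw [AlgHom.comp_apply, rename_X, elemHom_X_of_ne (hf a)]
  exact congrArg (fun g => g p) h

/-- substitutions and renamings -/
lemma elemHom_rename_inj [DecidableEq τ] {f : τ → σ} (hf : Function.Injective f) (i : τ) (c : ℂ)
    (t p : MvPolynomial τ ℂ) :
    elemHom (f i) c (rename f t) (rename f p) = rename f (elemHom i c t p) := by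
  have h : (elemHom (f i) c (rename f t)).comp (rename f) = (rename f).comp (elemHom i c t) := by
    apply MvPolynomial.algHom_ext
    intro a
    rw [AlgHom.comp_apply, AlgHom.comp_apply, rename_X]
    by_cases ha : a = i
    · rw [ha, elemHom_X_self, elemHom_X_self, map_add, map_mul, rename_C, rename_X]
    · rw [elemHom_X_of_ne ha, elemHom_X_of_ne (fun h => ha (hf h)), rename_X]
  exact congrArg (fun g => g p) h

/-- a substitution which does not change `t` has an inverse -/
noncomputable def elemEquiv (i : σ) (c : ℂ) (hc : c ≠ 0) (t : MvPolynomial σ ℂ)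
    (ht : ∀ (a : ℂ) (u : MvPolynomial σ ℂ), elemHom i a u t = t) :
    MvPolynomial σ ℂ ≃ₐ[ℂ] MvPolynomial σ ℂ :=
  AlgEquiv.ofAlgHom (elemHom i c t) (elemHom i c⁻¹ (-(C c⁻¹ * t)))
    (by
      apply MvPolynomial.algHom_ext
      intro j
      rw [AlgHom.comp_apply, AlgHom.id_apply]
      by_cases hj : j = i
      · subst hj
        rw [elemHom_X_self, map_add, map_neg, map_mul, map_mul, elemHom_C, elemHom_X_self, ht]
        have h : (C c⁻¹ * C c : MvPolynomial σ ℂ) = 1 := by
          rw [← C_mul, inv_mul_cancel₀ hc, C_1]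
        linear_combination (MvPolynomial.X j) * h
      · rw [elemHom_X_of_ne hj, elemHom_X_of_ne hj])
    (by
      apply MvPolynomial.algHom_ext
      intro j
      rw [AlgHom.comp_apply, AlgHom.id_apply]
      by_cases hj : j = i
      · subst hj
        rw [elemHom_X_self, map_add, map_mul, elemHom_C, elemHom_X_self, ht]
        have h : (C c⁻¹ * C c : MvPolynomial σ ℂ) = 1 := by
          rw [← C_mul, inv_mul_cancel₀ hc, C_1]
        linear_combination (MvPolynomial.X j - t) * h
      · rw [elemHom_X_of_ne hj, elemHom_X_of_ne hj])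

lemma elemEquiv_apply (i : σ) (c : ℂ) (hc : c ≠ 0) (t : MvPolynomial σ ℂ)
    (ht : ∀ (a : ℂ) (u : MvPolynomial σ ℂ), elemHom i a u t = t) (p : MvPolynomial σ ℂ) :
    elemEquiv i c hc t ht p = elemHom i c t p := rfl

lemma elemEquiv_symm_apply (i : σ) (c : ℂ) (hc : c ≠ 0) (t : MvPolynomial σ ℂ)
    (ht : ∀ (a : ℂ) (u : MvPolynomial σ ℂ), elemHom i a u t = t) (p : MvPolynomial σ ℂ) :
    (elemEquiv i c hc t ht).symm p = elemHom i c⁻¹ (-(C c⁻¹ * t)) p := rfl

lemma elemHom_homogeneous (wt : σ → ℕ) (i : σ) (c : ℂ) {t : MvPolynomial σ ℂ}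
    (ht : IsWeightedHomogeneous wt t (wt i)) (j : σ) :
    IsWeightedHomogeneous wt (elemHom i c t (MvPolynomial.X j)) (wt j) := by
  by_cases hj : j = i
  · subst hj
    rw [elemHom_X_self]
    have h3 := (isWeightedHomogeneous_C wt c).mul (isWeightedHomogeneous_X ℂ wt j)
    rw [zero_add] at h3
    exact h3.add ht
  · rw [elemHom_X_of_ne hj]
    exact isWeightedHomogeneous_X ℂ wt j

/-- weighted homogeneous polynomials go to weighted homogeneous polynomials -/
lemma aeval_homogeneous {σ τ : Type} (wt : σ → ℕ) (wt' : τ → ℕ) (d : σ → MvPolynomial τ ℂ)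
    (hd : ∀ j, IsWeightedHomogeneous wt' (d j) (wt j)) {p : MvPolynomial σ ℂ} {n : ℕ}
    (hp : IsWeightedHomogeneous wt p n) : IsWeightedHomogeneous wt' (aeval d p) n := by
  classical
  have key : ∀ (s : σ →₀ ℕ) (a : ℂ),
      IsWeightedHomogeneous wt' (aeval d (monomial s a)) (Finsupp.weight wt s) := by
    intro s
    induction s using Finsupp.induction with
    | zero =>
      intro a
      have h1 : (monomial (0 : σ →₀ ℕ) a : MvPolynomial σ ℂ) = C a := rfl
      rw [h1, ← MvPolynomial.algebraMap_eq, AlgHom.commutes, MvPolynomial.algebraMap_eq, map_zero]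
      exact isWeightedHomogeneous_C _ a
    | single_add v k s hv hk ih =>
      intro a
      have h1 : (monomial (Finsupp.single v k + s) a : MvPolynomial σ ℂ) =
          MvPolynomial.X v ^ k * monomial s a := by
        rw [MvPolynomial.X_pow_eq_monomial, monomial_mul, one_mul]
      rw [h1, map_mul, map_pow, aeval_X, map_add]
      have h5 := ((hd v).pow k).mul (ih a)
      rwa [← Finsupp.weight_single] at h5
  rw [MvPolynomial.as_sum p, map_sum]
  rw [← mem_weightedHomogeneousSubmodule]
  refine Submodule.sum_mem _ fun s hs => ?_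
  rw [mem_weightedHomogeneousSubmodule]
  have h := key s (coeff s p)
  have h1 : Finsupp.weight wt s = n := hp (mem_support_iff.mp hs)
  rwa [h1] at h

/-- elementary substitutions respect the weights -/
lemma elemHom_homogeneous' (wt : σ → ℕ) (i : σ) (c : ℂ) {t : MvPolynomial σ ℂ}
    (ht : IsWeightedHomogeneous wt t (wt i)) {p : MvPolynomial σ ℂ} {n : ℕ}
    (hp : IsWeightedHomogeneous wt p n) : IsWeightedHomogeneous wt (elemHom i c t p) n := by
  refine aeval_homogeneous wt wt _ (fun j => ?_) hp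
  have h := elemHom_homogeneous wt i c ht j
  rwa [elemHom, aeval_X] at h

lemma rename_homogeneous {σ τ : Type} (wt : σ → ℕ) (wt' : τ → ℕ) (f : σ → τ)
    (hf : ∀ j, wt' (f j) = wt j) {p : MvPolynomial σ ℂ} {n : ℕ}
    (hp : IsWeightedHomogeneous wt p n) : IsWeightedHomogeneous wt' (rename f p) n := by
  have h : (rename f : MvPolynomial σ ℂ →ₐ[ℂ] MvPolynomial τ ℂ) =
      aeval (fun j => (MvPolynomial.X (f j) : MvPolynomial τ ℂ)) := by
    apply MvPolynomial.algHom_ext
    intro a
    rw [rename_X, aeval_X]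
  rw [h]
  refine aeval_homogeneous wt wt' _ (fun j => ?_) hp
  rw [← hf j]
  exact isWeightedHomogeneous_X ℂ wt' (f j)

end Wd

/-- The hypersurface `F = 0` in the weighted projective space with coordinates of weights `wt`. -/
noncomputable def weightedHypersurface (wt : Fin 5 → ℕ) (F : MvPolynomial (Fin 5) ℂ) :
    WVar (Fin 5) where
  wt := wt
  eqs := Ideal.span {F}

namespace Wd

/-- an automorphism which sends `F` to a multiple of `G` -/
noncomputable def isoOf (wt : Fin 5 → ℕ) (hpos : ∀ j, 0 < wt j)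
    (φ : MvPolynomial (Fin 5) ℂ ≃ₐ[ℂ] MvPolynomial (Fin 5) ℂ)
    (hφ : ∀ j, IsWeightedHomogeneous wt (φ (MvPolynomial.X j)) (wt j))
    (hψ : ∀ j, IsWeightedHomogeneous wt (φ.symm (MvPolynomial.X j)) (wt j))
    (F G : MvPolynomial (Fin 5) ℂ) (κ : ℂ) (hκ : κ ≠ 0) (h : φ F = C κ * G) :
    WIso (weightedHypersurface wt F) (weightedHypersurface wt G) where
  φ := φ
  wt_eq := rfl
  pos := hpos
  hφ := hφ
  hψ := hψ
  heq := fun f => by
    show φ f ∈ Ideal.span {G} ↔ f ∈ Ideal.span {F}
    rw [Ideal.mem_span_singleton, Ideal.mem_span_singleton]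
    have hu : IsUnit (C κ : MvPolynomial (Fin 5) ℂ) := (isUnit_iff_ne_zero.mpr hκ).map C
    have h1 : G ∣ φ f ↔ φ F ∣ φ f := by
      rw [h]
      exact (hu.mul_left_dvd).symm
    rw [h1]
    exact map_dvd_iff φ

end Wd

end Pool.Agent.RCH
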