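import Pool.Agent.RCH.MLen
import Pool.Agent.RCH.DgDim
import Pool.Agent.RCH.Nil
import Pool.Agent.RCH.Points
import Pool.Agent.RCH.WdElem

/-!
# Self-correspondences of a section of a weighted hypersurface and modules of Laurent polynomials
-/

set_option autoImplicit false

open MvPolynomial

namespace Pool.Agent.RCH.Mn

/-- the polynomial ring in the variables `v, v₁, s, t, ω, y, y₁` -/
abbrev R7 : Type := MvPolynomial (Fin 7) ℂ

/-- the coordinates `v, s, t, ω, y` of the first point -/
noncomputable def al : Fin 5 → R7 := ![X 0, X 2, X 3, X 4, X 5]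

/-- the coordinates `v₁, s, t, ω, y₁` of the second point -/
noncomputable def be : Fin 5 → R7 := ![X 1, X 2, X 3, X 4, X 6]

section Lam

variable (wt : Fin 5 → ℕ) (J : Ideal R7)

/-- The homomorphism from the ring of the coordinates of two points to the Laurent polynomials over
`R / J`: the coordinates of the first point are `α_j`, those of the second point are
`β_j T ^ wt j`. -/
noncomputable def phi : Coord (Fin 5) 2 →ₐ[ℂ] LaurentPolynomial (R7 ⧸ J) :=
  aeval fun v => if v.1 = 0 then LaurentPolynomial.C (Ideal.Quotient.mk J (al v.2))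
    else LaurentPolynomial.C (Ideal.Quotient.mk J (be v.2)) * LaurentPolynomial.T (wt v.2)

/-- the Laurent polynomials over `R / J`, as a module over the ring of the coordinates of two
points -/
def Lam (_ : Fin 5 → ℕ) (J : Ideal R7) : Type := LaurentPolynomial (R7 ⧸ J)

noncomputable instance : CommRing (Lam wt J) :=
  inferInstanceAs (CommRing (LaurentPolynomial (R7 ⧸ J)))

noncomputable instance : Module (Coord (Fin 5) 2) (Lam wt J) :=
  Module.compHom (LaurentPolynomial (R7 ⧸ J)) (phi wt J).toRingHom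

/-- the length of the module of Laurent polynomials over `R / J` at `Q` -/
noncomputable def cl (Q : Ideal (Coord (Fin 5) 2)) [Q.IsPrime] : ℕ∞ := len Q (Lam wt J)

end Lam

/-- the length at a point of `X²`, as an integer -/
noncomputable def clz {X : WVar (Fin 5)} (J : Ideal R7) (Q : Pt X 2) : ℤ :=
  haveI := Q.prime
  ((cl X.wt J Q.I).toNat : ℤ)

/-- the transcendence degree of the ring of a point: two more than the dimension, for points of
`X²` -/
noncomputable def lev {X : WVar (Fin 5)} {n : ℕ} (Q : Pt X n) : ℕ := Dg.td (Coord (Fin 5) n ⧸ Q.I)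

/-- `b` is not a zero divisor modulo `J` -/
def Nzd {R : Type} [CommRing R] (J : Ideal R) (b : R) : Prop := ∀ x, b * x ∈ J → x ∈ J

/-- The data: weights `N, p, q, w, r` of `x_0, …, x_4`, a form `F` of degree `d` which is monic in
`x_4` up to a constant, of degree `D` in `x_4`, and is `x_0 ^ e A + B` modulo `x_3`. -/
structure MD where
  N : ℕ
  p : ℕ
  q : ℕ
  w : ℕ
  r : ℕ
  e : ℕ
  d : ℕ
  D : ℕ
  k : ℕ
  F : MvPolynomial (Fin 5) ℂ
  A : MvPolynomial (Fin 3) ℂ
  B : MvPolynomial (Fin 3) ℂ
  hN : 1 ≤ N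
  hp : 1 ≤ p
  hq : 1 ≤ q
  hw : 1 ≤ w
  hr : 1 ≤ r
  hep : e ∣ p
  heq : e ∣ q
  her : e ∣ r
  hNe : N.Coprime e
  hgcd : (N.gcd (p.gcd (q.gcd w))) ∣ r
  hd : d = e * N + k
  hD : D * r = d
  hD2 : 2 ≤ D
  hF : IsWeightedHomogeneous ![N, p, q, w, r] F d
  hA : IsWeightedHomogeneous ![p, q, r] A k
  hB : IsWeightedHomogeneous ![p, q, r] B d
  monic : coeff (Finsupp.single 4 D) F ≠ 0
  shape : F - (X 0 ^ e * rename ![1, 2, 4] A + rename ![1, 2, 4] B) ∈
    Ideal.span {(X 3 : MvPolynomial (Fin 5) ℂ)}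
  cop : IsRelPrime A B
  hA0 : A ≠ 0
  hAy : A ∈ Ideal.span {(X 0 : MvPolynomial (Fin 3) ℂ), X 1}

namespace MD

variable (S : MD)

/-- the weights of the coordinates -/
def wt : Fin 5 → ℕ := ![S.N, S.p, S.q, S.w, S.r]

/-- the hypersurface `F = 0` -/
noncomputable def V : WVar (Fin 5) := weightedHypersurface S.wt S.F

/-- the equation at the first point and at the second point -/
noncomputable def Fa : R7 := aeval al S.F
noncomputable def Fb : R7 := aeval be S.F

/-- `A` and `B` in the variables `s, t, y` -/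
noncomputable def A7 : R7 := rename ![2, 3, 5] S.A
noncomputable def B7 : R7 := rename ![2, 3, 5] S.B

/-- the pairs of points of `Y : ω = 0` with the same `(s, t)` -/
noncomputable def JU : Ideal R7 := Ideal.span {X 4, S.Fa, S.Fb}

/-- the pairs of points of `Y` with the same `(v, s, t)` -/
noncomputable def JVw : Ideal R7 := S.JU ⊔ Ideal.span {X 0 - X 1}

/-- the pairs of points of `Y` with the same `(s, t, y)` -/
noncomputable def JUy : Ideal R7 := S.JU ⊔ Ideal.span {X 5 - X 6}

/-- the pairs of points of `Y` with the same `(s, t)` and `s = 0` -/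
noncomputable def Js : Ideal R7 := S.JU ⊔ Ideal.span {X 2}

/-- the diagonal of `Y` -/
noncomputable def JD : Ideal R7 := Ideal.span {X 4, X 0 - X 1, X 5 - X 6, S.Fa}

/-- the pairs of points with the same `(s, t, y)` and `A = B = 0` -/
noncomputable def JZ : Ideal R7 := Ideal.span {X 4, X 5 - X 6, S.A7, S.B7}

/-- a common coordinate `s` or `t` is invertible -/
def Good (Q : Pt S.V 2) : Prop :=
  ((X (0, 1) : Coord (Fin 5) 2) ∉ Q.I ∧ (X (1, 1) : Coord (Fin 5) 2) ∉ Q.I) ∨
  ((X (0, 2) : Coord (Fin 5) 2) ∉ Q.I ∧ (X (1, 2) : Coord (Fin 5) 2) ∉ Q.I)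

/-- the ideal of the section `ω = 0` -/
noncomputable def secI : Ideal (Coord (Fin 5) 1) :=
  Ideal.span {inFactor 1 0 (X 3), inFactor 1 0 S.F}

/-- the gcd of the weights of the coordinates `s, t, y` which are not zero on the curve `C` -/
noncomputable def G (C : Pt S.V 1) : ℕ := by
  classical
  exact (if (X (0, 1) : Coord (Fin 5) 1) ∈ C.I then 0 else S.p).gcd
    ((if (X (0, 2) : Coord (Fin 5) 1) ∈ C.I then 0 else S.q).gcd
      (if (X (0, 4) : Coord (Fin 5) 1) ∈ C.I then 0 else S.r))

end MD

end Pool.Agent.RCH.Mn
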