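import Pool.Agent.RCH.MnStmt
import Pool.Agent.RCH.MnDefs
import Pool.Agent.RCH.MnCoef

/-!
# The structure `MD` of a member
-/

set_option autoImplicit false

open MvPolynomial

namespace Pool.Agent.RCH.Mn

lemma coefP_of_mem {G : MvPolynomial (Fin 5) ℂ}
    (h : G ∈ Ideal.span {(X 3 : MvPolynomial (Fin 5) ℂ)}) (i : ℕ) : coefP i G = 0 := by
  obtain ⟨H, rfl⟩ := Ideal.mem_span_singleton.1 h
  have h1 : finSuccEquiv ℂ 4 (X 3) = Polynomial.C (X 2) := finSuccEquiv_X_succ (j := (2 : Fin 4))
  rw [coefP, map_mul, h1, Polynomial.coeff_C_mul, map_mul, aeval_X]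
  exact zero_mul _

/-- the coefficients of a form of a given shape -/
lemma coefP_of_shape {F : MvPolynomial (Fin 5) ℂ} {e : ℕ} {A B : MvPolynomial (Fin 3) ℂ}
    (h : F - (X 0 ^ e * rename ![1, 2, 4] A + rename ![1, 2, 4] B) ∈
      Ideal.span {(X 3 : MvPolynomial (Fin 5) ℂ)}) (i : ℕ) :
    coefP i F = (if i = e then A else 0) + if i = 0 then B else 0 := by
  have h1 := coefP_of_mem h i
  have h0 := CoefP.coefP_shape i 0 B
  rw [pow_zero, one_mul] at h0
  rw [CoefP.coefP_sub, CoefP.coefP_add, CoefP.coefP_shape, h0, sub_eq_zero] at h1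
  exact h1

/-- a form which is zero at `(0, 0, 1)` is in the ideal of the first two variables -/
lemma mem_of_apex {p q r k : ℕ} (hr : 1 ≤ r) {A : MvPolynomial (Fin 3) ℂ}
    (hA : IsWeightedHomogeneous ![p, q, r] A k) (h : eval ![0, 0, 1] A = 0) :
    A ∈ Ideal.span {(X 0 : MvPolynomial (Fin 3) ℂ), X 1} := by
  classical
  have h1 : ({(X 0 : MvPolynomial (Fin 3) ℂ), X 1} : Set _) = X '' {(0 : Fin 3), 1} := by
    rw [Set.image_pair]
  rw [h1, mem_ideal_span_X_image]
  intro s hs
  by_contra hcon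
  have h0 : s 0 = 0 := by
    by_contra h0
    exact hcon ⟨0, Or.inl rfl, h0⟩
  have h01 : s 1 = 0 := by
    by_contra h0
    exact hcon ⟨1, Or.inr rfl, h0⟩
  have hval : ∀ u ∈ A.support, u ≠ s → ∏ i, (![0, 0, 1] : Fin 3 → ℂ) i ^ u i = 0 := by
    intro u hu hne
    rw [Fin.prod_univ_three]
    by_cases hu0 : u 0 = 0
    · by_cases hu1 : u 1 = 0
      · exfalso
        apply hne
        have h2 := hA (mem_support_iff.1 hu)
        have h3 := hA (mem_support_iff.1 hs)
        rw [Finsupp.weight_apply, Finsupp.sum_fintype _ _ (fun i => by simp),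
          Fin.sum_univ_three] at h2 h3
        have e2 : (![p, q, r] : Fin 3 → ℕ) 2 = r := rfl
        rw [hu0, hu1, zero_smul, zero_smul, e2, zero_add, zero_add, smul_eq_mul] at h2
        rw [h0, h01, zero_smul, zero_smul, e2, zero_add, zero_add, smul_eq_mul] at h3
        have h4 : u 2 = s 2 := Nat.eq_of_mul_eq_mul_right hr (h2.trans h3.symm)
        ext i
        fin_cases i
        · exact hu0.trans h0.symm
        · exact hu1.trans h01.symm
        · exact h4
      · have e1 : (![0, 0, 1] : Fin 3 → ℂ) 1 ^ u 1 = 0 := zero_pow hu1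
        rw [e1, mul_zero, zero_mul]
    · have e1 : (![0, 0, 1] : Fin 3 → ℂ) 0 ^ u 0 = 0 := zero_pow hu0
      rw [e1, zero_mul, zero_mul]
  have h2 : eval ![0, 0, 1] A = coeff s A := by
    rw [eval_eq', Finset.sum_eq_single_of_mem s hs fun u hu hne => by
      rw [hval u hu hne, mul_zero]]
    rw [Fin.prod_univ_three, h0, h01, pow_zero, pow_zero]
    have e2 : (![0, 0, 1] : Fin 3 → ℂ) 2 = 1 := rfl
    rw [e2, one_pow, mul_one, mul_one, mul_one]
  rw [h2] at h
  exact (mem_support_iff.1 hs) h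

variable {N p q w r e D k : ℕ} {A B : MvPolynomial (Fin 3) ℂ} {F : MvPolynomial (Fin 5) ℂ}

lemma Weights.he (hW : Weights N p q w r e D k) : 1 ≤ e := Nat.pos_of_dvd_of_pos hW.hep hW.hp

lemma Member.homA (hW : Weights N p q w r e D k) (hF : Member N p q w r e D A B F) :
    IsWeightedHomogeneous ![p, q, r] A k := by
  have h := coefP_of_shape hF.shape e
  rw [if_pos rfl, if_neg (by have := hW.he; omega), add_zero] at h
  rw [← h]
  refine CoefP.coefP_hom (N := N) (w := w) ?_
  have h1 := hF.homog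
  rwa [hW.hD] at h1

lemma Member.homB (hW : Weights N p q w r e D k) (hF : Member N p q w r e D A B F) :
    IsWeightedHomogeneous ![p, q, r] B (D * r) := by
  have h := coefP_of_shape hF.shape 0
  rw [if_neg (by have := hW.he; omega), if_pos rfl, zero_add] at h
  rw [← h]
  refine CoefP.coefP_hom (N := N) (w := w) ?_
  rw [zero_mul, zero_add]
  exact hF.homog

/-- **The data of a member.** -/
def toMD (hW : Weights N p q w r e D k) (hF : Member N p q w r e D A B F) : MD :=
  { N := N, p := p, q := q, w := w, r := r, e := e, d := D * r, D := D, k := k, F := F, A := A,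
    B := B, hN := hW.hN, hp := hW.hp, hq := hW.hq, hw := hW.hw, hr := hW.hr, hep := hW.hep,
    heq := hW.heq, her := hW.her, hNe := hW.hNe, hgcd := hW.hgcd, hd := hW.hD, hD := rfl,
    hD2 := hW.hD2, hF := hF.homog, hA := hF.homA hW, hB := hF.homB hW, monic := hF.monic,
    shape := hF.shape, cop := hF.cop, hA0 := hF.ne, hAy := mem_of_apex hW.hr (hF.homA hW) hF.apex }

end Pool.Agent.RCH.Mn
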