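import Pool.Agent.RCH.WpStmt
import Pool.Agent.RCH.MnTwoDefs

/-!
# Cones on a section of a weighted hypersurface: the notions used in the statement
-/

set_option autoImplicit false

open MvPolynomial

namespace Pool.Agent.RCH.Mn

open Pool.Agent.RCH.Wdc

/-- The hypotheses on the weights `N, p, q, w, r` of the coordinates `x_0, …, x_4` and on the integers
`e`, `D`, `k`: the equation has the degree `D r = e N + k`. -/
structure Weights (N p q w r e D k : ℕ) : Prop where
  hN : 1 ≤ N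
  hp : 1 ≤ p
  hq : 1 ≤ q
  hw : 1 ≤ w
  hr : 1 ≤ r
  hep : e ∣ p
  heq : e ∣ q
  her : e ∣ r
  hNe : N.Coprime e
  hgcd : (N.gcd (p.gcd (q.gcd w))) ∣ r
  hD : D * r = e * N + k
  hD2 : 2 ≤ D

/-- `F` is a weighted form of degree `D r` in which the coefficient of `x_4 ^ D` is not zero, and modulo
`x_3` it is `x_0 ^ e A(x_1, x_2, x_4) + B(x_1, x_2, x_4)`, where `A ≠ 0` and `B` are relatively prime and
`A(0, 0, 1) = 0`. -/
structure Member (N p q w r e D : ℕ) (A B : MvPolynomial (Fin 3) ℂ) (F : MvPolynomial (Fin 5) ℂ) :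
    Prop where
  homog : IsWeightedHomogeneous ![N, p, q, w, r] F (D * r)
  monic : coeff (Finsupp.single 4 D) F ≠ 0
  shape : F - (X 0 ^ e * rename ![1, 2, 4] A + rename ![1, 2, 4] B) ∈
    Ideal.span {(X 3 : MvPolynomial (Fin 5) ℂ)}
  ne : A ≠ 0
  cop : IsRelPrime A B
  apex : eval ![0, 0, 1] A = 0

/-- The numerical hypotheses of (2), in which the form `A` has the degree `k p + l q`. Every monomial
`x_0 ^ u x_1 ^ i x_2 ^ j x_4 ^ c` of degree `D r` has `u = 0` or `u = e`; if `u = e`, then `l ≤ j` and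
`i = k` or `k = 1`, and not both `i = 0` and `j = l`. Moreover `D ≤ 2 q / gcd(q, r)`, and `l = 0` or
`D ≤ p / gcd(p, r)`. -/
structure Numerical (N p q r e D k l : ℕ) : Prop where
  mono : ∀ u i j c : ℕ, u * N + i * p + j * q + c * r = D * r →
    u = 0 ∨ (u = e ∧ l ≤ j ∧ (k = 1 ∨ i = k) ∧ (1 ≤ i ∨ l < j))
  two : D * q.gcd r ≤ 2 * q
  one : l = 0 ∨ D * p.gcd r ≤ p

/-- The ideal of the curve of the points `(v, a_0 τ ^ p, a_1 τ ^ q, 0, a_2 τ ^ r)`, that is, of the
cone over the point `a` with vertex `(1, 0, 0, 0, 0)` in `x_3 = 0`. -/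
noncomputable def coneIdeal (p q r : ℕ) (a : Fin 3 → ℂ) : Ideal (Coord (Fin 5) 1) :=
  RingHom.ker (aeval fun u : Fin 1 × Fin 5 => (![X 0, C (a 0) * X 1 ^ p, C (a 1) * X 1 ^ q, 0,
    C (a 2) * X 1 ^ r] : Fin 5 → MvPolynomial (Fin 2) ℂ) u.2)

/-- `s` is the set of the curves of the ideals `coneIdeal p q r a`, for all common zeros `a ≠ 0` of `A`
and `B`; it is not empty. -/
def AllCones (p q r : ℕ) (A B : MvPolynomial (Fin 3) ℂ) {X : WVar (Fin 5)} (s : Finset (Pt X 1)) :
    Prop :=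
  s.Nonempty ∧
  (∀ C ∈ s, ∃ a : Fin 3 → ℂ, a ≠ 0 ∧ eval a A = 0 ∧ eval a B = 0 ∧ C.I = coneIdeal p q r a) ∧
  ∀ a : Fin 3 → ℂ, a ≠ 0 → eval a A = 0 → eval a B = 0 → ∃ C ∈ s, C.I = coneIdeal p q r a

/-- There are multiples `g(C) C` of the curves `C` in `s` of the same positive degree and integers
`c(C) ≥ 1` such that a nonzero multiple of the sum of the exterior squares
`c(C) c(C') (g(C) C - g(C') C') × (g(C) C - g(C') C')` over all pairs `(C, C')` is rationally
equivalent to zero. -/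
def SquaresRelation (X : WVar (Fin 5)) (s : Finset (Pt X 1)) : Prop :=
  ∃ (g c : Pt X 1 → ℕ) (δ : ℝ), 0 < δ ∧
    (∀ C ∈ s, 1 ≤ c C ∧ (g C : ℝ) * curveDegree X C = δ) ∧
    ∃ M : ℕ, 1 ≤ M ∧ M • ∑ C ∈ s, ∑ C' ∈ s, (c C * c C') •
      extPow X (g C • Finsupp.single C 1 - g C' • Finsupp.single C' 1) 2 ∈ RatEq X 2

/-- A nonzero multiple of `D` is rationally equivalent to a combination of the curves in `s`. -/
def Combination (X : WVar (Fin 5)) (s : Finset (Pt X 1)) (D : Cycles X 1) : Prop :=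
  ∃ M : ℕ, 1 ≤ M ∧ ∃ n : Pt X 1 → ℤ, M • D - ∑ C ∈ s, n C • Finsupp.single C 1 ∈ RatEq X 1

/-- The one-cycles of degree zero supported on the section `x_3 = 0` are multiples of one of them, up to
nonzero multiples and rational equivalence. -/
def RankAtMostOne (wt : Fin 5 → ℕ) (F : MvPolynomial (Fin 5) ℂ) : Prop :=
  ∃ δ : Cycles (weightedHypersurface wt F) 1, OnSection wt F δ ∧
    degree (weightedHypersurface wt F) δ = 0 ∧
    ∀ D : Cycles (weightedHypersurface wt F) 1, OnSection wt F D →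
      degree (weightedHypersurface wt F) D = 0 →
        ∃ M : ℕ, 1 ≤ M ∧ ∃ n : ℤ, M • D - n • δ ∈ RatEq (weightedHypersurface wt F) 1

/-- The substitution of `c_j x_(σ j)` for each coordinate `x_j` of a point. -/
noncomputable def substitution (σ : Equiv.Perm (Fin 5)) (c : Fin 5 → ℂ) :
    Coord (Fin 5) 1 →ₐ[ℂ] Coord (Fin 5) 1 :=
  aeval fun u => C (c u.2) * X (u.1, σ u.2)

/-- Any two curves `C`, `C'` in `s` are exchanged by a monomial symmetry of `X` which maps each of the
coordinates `x_0` and `x_3` to a multiple of itself: a substitution of `c_j x_(σ j)` for `x_j`, `c_j ≠ 0`,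
such that `x_(σ j)` has the same weight as `x_j`, which preserves the ideal of `X` and exchanges the
ideals of `C` and `C'`. -/
def Exchangeable (X : WVar (Fin 5)) (s : Finset (Pt X 1)) : Prop :=
  ∀ C ∈ s, ∀ C' ∈ s, ∃ (σ : Equiv.Perm (Fin 5)) (c : Fin 5 → ℂ), σ 0 = 0 ∧ σ 3 = 3 ∧
    (∀ j, c j ≠ 0 ∧ X.wt (σ j) = X.wt j) ∧
    (∀ f : MvPolynomial (Fin 5) ℂ,
      aeval (fun j => MvPolynomial.C (c j) * MvPolynomial.X (R := ℂ) (σ j)) f ∈ X.eqs ↔ f ∈ X.eqs) ∧
    C.I.comap (substitution σ c) = C'.I ∧ C'.I.comap (substitution σ c) = C.I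

open Classical in
/-- The product `D_1 × ⋯ × D_n` of `n` cycles on `X`, a cycle on `X^n`. -/
noncomputable def productCycle (X : WVar (Fin 5)) {n : ℕ} (D : Fin n → Cycles X 1) : Cycles X n :=
  ∑ Q ∈ Fintype.piFinset (fun i : Fin n => (D i).support), (∏ i, D i (Q i)) • box X Q

/-- For all one-cycles `D_1, …, D_n` of degree zero supported on the section `x_3 = 0`, a nonzero
multiple of the product `D_1 × ⋯ × D_n` is rationally equivalent to zero. -/
def ProductsTorsion (wt : Fin 5 → ℕ) (F : MvPolynomial (Fin 5) ℂ) (n : ℕ) : Prop :=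
  ∀ D : Fin n → Cycles (weightedHypersurface wt F) 1, (∀ i, OnSection wt F (D i)) →
    (∀ i, degree (weightedHypersurface wt F) (D i) = 0) →
      ∃ M : ℕ, 1 ≤ M ∧ M • productCycle (weightedHypersurface wt F) D ∈
        RatEq (weightedHypersurface wt F) n

/-- The conclusion for the hypersurface `X : F = 0`. Let `s` be the set of the cones over the common
zeros of `A` and `B`. They satisfy the relation `SquaresRelation`; every one-cycle supported on the
section `x_3 = 0` has a nonzero multiple which is rationally equivalent to a combination of them; if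
`A` and `B` satisfy the criterion `TwoPoints`, then `RankAtMostOne` holds; `RankAtMostOne` implies
`ProductsTorsion` for the products of two cycles; and if any two curves in `s` are exchanged by a
symmetry (`Exchangeable`), then `ProductsTorsion` holds for all products of at least `|s|` cycles. -/
def Conclusion (wt : Fin 5 → ℕ) (p q r : ℕ) (A B : MvPolynomial (Fin 3) ℂ)
    (F : MvPolynomial (Fin 5) ℂ) : Prop :=
  ∃ s : Finset (Pt (weightedHypersurface wt F) 1), AllCones p q r A B s ∧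
    SquaresRelation (weightedHypersurface wt F) s ∧
    (∀ D : Cycles (weightedHypersurface wt F) 1, OnSection wt F D →
      Combination (weightedHypersurface wt F) s D) ∧
    (TwoPoints p q r A B → RankAtMostOne wt F) ∧
    (RankAtMostOne wt F → ProductsTorsion wt F 2) ∧
    (Exchangeable (weightedHypersurface wt F) s → ∀ n : ℕ, s.card ≤ n → ProductsTorsion wt F n)

/-- `A` and `B` have two common zeros different from zero which do not define the same point -/
def Inequivalent (p q r : ℕ) (A B : MvPolynomial (Fin 3) ℂ) : Prop :=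
  ∃ a a' : Fin 3 → ℂ, a ≠ 0 ∧ a' ≠ 0 ∧ eval a A = 0 ∧ eval a B = 0 ∧ eval a' A = 0 ∧
    eval a' B = 0 ∧ ¬ Eqv p q r a a'

/-- The form `a x_0 ^ e x_1 ^ k + x_1 ^ c + x_2 ^ D + x_4 ^ D + x_3 (x_0 ^ g + x_3 ^ (m - 1))`. -/
noncomputable def symForm (e k c D g m : ℕ) (a : ℂ) : MvPolynomial (Fin 5) ℂ :=
  C a * (X 0 ^ e * X 1 ^ k) + X 1 ^ c + X 2 ^ D + X 4 ^ D + X 3 * (X 0 ^ g + X 3 ^ (m - 1))

end Pool.Agent.RCH.Mn
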