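import Pool.Agent.RCH.Mn9c
import Pool.Agent.RCH.MnStmt

/-!
# The group of one-cycles of degree zero on the section has rank at most one
-/

set_option autoImplicit false

open MvPolynomial

namespace Pool.Agent.RCH.Mn

open Pool.Agent.RCH.Wdc

section

variable {X : WVar (Fin 5)}

/-- the cycles with a nonzero multiple which is a multiple of `δ` modulo torsion -/
def lineGroup (δ : Cycles X 1) : AddSubgroup (Cycles X 1) where
  carrier := {z | ∃ a : ℤ, a ≠ 0 ∧ ∃ b : ℤ, a • z - b • δ ∈ torZero X 1}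
  zero_mem' := ⟨1, one_ne_zero, 0, by rw [smul_zero, zero_smul, sub_zero]; exact zero_mem _⟩
  add_mem' := by
    rintro z z' ⟨a, ha, b, h⟩ ⟨a', ha', b', h'⟩
    refine ⟨a * a', mul_ne_zero ha ha', a' * b + a * b', ?_⟩
    have h1 : (a * a') • (z + z') - (a' * b + a * b') • δ =
        a' • (a • z - b • δ) + a • (a' • z' - b' • δ) := by module
    rw [h1]
    exact add_mem (AddSubgroup.zsmul_mem _ h _) (AddSubgroup.zsmul_mem _ h' _)
  neg_mem' := by
    rintro z ⟨a, ha, b, h⟩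
    refine ⟨a, ha, -b, ?_⟩
    have h1 : a • (-z) - (-b) • δ = -(a • z - b • δ) := by module
    rw [h1]
    exact neg_mem h

end

namespace MD

variable (S : MD)

/-- a difference of two curves of which all the others are multiples -/
lemma exists_pair (δ : Cycles S.V 1)
    (hδ : ∀ C ∈ S.dA.support, ∀ C' ∈ S.dA.support, ∃ a : ℕ, 1 ≤ a ∧ ∃ b : ℤ,
      a • (S.eC C - S.eC C') - b • δ ∈ torZero S.V 1) :
    ∃ C₁ ∈ S.dA.support, ∃ C₂ ∈ S.dA.support, ∀ C ∈ S.dA.support, ∀ C' ∈ S.dA.support,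
      S.eC C - S.eC C' ∈ lineGroup (S.eC C₁ - S.eC C₂) := by
  by_cases h : ∃ C₁ ∈ S.dA.support, ∃ C₂ ∈ S.dA.support, ∃ a : ℕ, 1 ≤ a ∧ ∃ b : ℤ, b ≠ 0 ∧
      a • (S.eC C₁ - S.eC C₂) - b • δ ∈ torZero S.V 1
  · obtain ⟨C₁, h₁, C₂, h₂, a, ha, b, hb, h⟩ := h
    refine ⟨C₁, h₁, C₂, h₂, fun C hC C' hC' => ?_⟩
    obtain ⟨a', ha', b', h'⟩ := hδ C hC C' hC'
    refine ⟨a' * b, mul_ne_zero (by exact_mod_cast (show a' ≠ 0 by omega)) hb, b' * a, ?_⟩
    have h3 : ((a' : ℤ) * b) • (S.eC C - S.eC C') - (b' * (a : ℤ)) • (S.eC C₁ - S.eC C₂) =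
        b • (a' • (S.eC C - S.eC C') - b' • δ) - b' • (a • (S.eC C₁ - S.eC C₂) - b • δ) := by
      rw [← natCast_zsmul (S.eC C - S.eC C') a', ← natCast_zsmul (S.eC C₁ - S.eC C₂) a]
      module
    rw [h3]
    exact sub_mem (AddSubgroup.zsmul_mem _ h' _) (AddSubgroup.zsmul_mem _ h _)
  · push Not at h
    obtain ⟨C₀, h₀⟩ := S.exists_mem_dA
    refine ⟨C₀, h₀, C₀, h₀, fun C hC C' hC' => ?_⟩
    obtain ⟨a, ha, b, h1⟩ := hδ C hC C' hC'
    have hb : b = 0 := by
      by_contra hb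
      exact h C hC C' hC' a ha b hb h1
    rw [hb, zero_smul, sub_zero] at h1
    refine ⟨a, by exact_mod_cast (show a ≠ 0 by omega), 0, ?_⟩
    rw [zero_smul, sub_zero, natCast_zsmul]
    exact h1

/-- rank at most one -/
lemma exists_delta (h : TwoPoints S.p S.q S.r S.A S.B) : ∃ δ : Cycles S.V 1,
    (∀ Q ∈ δ.support, CodimOne S.pY.I Q.I) ∧ degree S.V δ = 0 ∧
    ∀ D : Cycles S.V 1, (∀ Q ∈ D.support, CodimOne S.pY.I Q.I) → degree S.V D = 0 →
      ∃ M : ℕ, 1 ≤ M ∧ ∃ n : ℤ, M • D - n • δ ∈ RatEq S.V 1 := by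
  classical
  obtain ⟨δ₀, hδ₀⟩ := S.rank_one_crit h
  obtain ⟨C₁, h₁, C₂, h₂, hC⟩ := S.exists_pair δ₀ hδ₀
  have hN : (S.N : ℝ) ≠ 0 := by
    have := S.hN
    positivity
  set W : ℕ := ∏ j, S.V.wt j with hWdef
  have hW : 0 < W := Finset.prod_pos fun j _ => S.wt_pos j
  set δ : Cycles S.V 1 := (S.mC C₁ : ℤ) • Finsupp.single C₁ 1 - (S.mC C₂ : ℤ) • Finsupp.single C₂ 1
    with hδdef
  have hun : Wt.unscale S.V 1 δ = (W : ℤ) • (S.eC C₁ - S.eC C₂) := by
    rw [hδdef, map_sub, S.unscale_mC, S.unscale_mC, ← smul_sub]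
  have hon : ∀ Q ∈ δ.support, CodimOne S.pY.I Q.I := by
    intro Q hQ
    have h3 := Finsupp.support_sub hQ
    rw [Finset.mem_union] at h3
    rcases h3 with h3 | h3
    · have h4 := Finsupp.support_single_subset (Finsupp.support_smul h3)
      rw [Finset.mem_singleton] at h4
      rw [h4]
      exact (S.mem_dA.1 h₁).1
    · have h4 := Finsupp.support_single_subset (Finsupp.support_smul h3)
      rw [Finset.mem_singleton] at h4
      rw [h4]
      exact (S.mem_dA.1 h₂).1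
  refine ⟨δ, hon, ?_, fun D hD h0 => ?_⟩
  · have h3 := Dg.degree_eq (X := S.V) S.wt_pos (D := δ) (fun Q hQ => S.rank_section (hon Q hQ))
    have h4 : Dg.deg S.V 2 (S.eC C₁ - S.eC C₂) = 0 := by
      have h5 := S.deg_eC h₁
      have h6 := S.deg_eC h₂
      rw [map_sub]
      have h7 : (S.N : ℝ) * (Dg.deg S.V 2 (S.eC C₁) - Dg.deg S.V 2 (S.eC C₂)) = 0 := by
        rw [mul_sub, h5, h6, sub_self]
      exact (mul_eq_zero.1 h7).resolve_left hN
    rw [hun, map_zsmul, h4, smul_zero, mul_zero] at h3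
    exact h3
  · have h4 := Dg.degree_eq (X := S.V) S.wt_pos (D := D) (fun Q hQ => S.rank_section (hD Q hQ))
    rw [h0] at h4
    have h5 : ((W : ℕ) : ℝ) ≠ 0 := by exact_mod_cast hW.ne'
    have hU := (mul_eq_zero.mp h4.symm).resolve_left h5
    obtain ⟨M, hM, m, hm, h6⟩ := S.exists_combination (Wt.unscale S.V 1 D)
      (fun Q hQ => hD Q (Wt.support_unscale D hQ)) hU
    have h7 : ∑ C ∈ S.dA.support, m C • S.eC C ∈ lineGroup (S.eC C₁ - S.eC C₂) := by
      have h8 : ∑ C ∈ S.dA.support, m C • S.eC C =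
          ∑ C ∈ S.dA.support, m C • (S.eC C - S.eC C₁) := by
        simp only [smul_sub, Finset.sum_sub_distrib]
        rw [← Finset.sum_smul, hm, zero_smul, sub_zero]
      rw [h8]
      exact sum_mem fun C hC' => AddSubgroup.zsmul_mem _ (hC C hC' C₁ h₁) _
    obtain ⟨a, ha, b, h8⟩ := h7
    -- the relation for the cycle `D`
    have h9 : Wt.unscale S.V 1 (((W : ℤ) * a * M) • D - b • δ) ∈ torZero S.V 1 := by
      rw [map_sub, map_zsmul, map_zsmul, hun]
      have h10 : ((W : ℤ) * a * M) • Wt.unscale S.V 1 D - b • ((W : ℤ) • (S.eC C₁ - S.eC C₂)) =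
          ((W : ℤ) * a) • (M • Wt.unscale S.V 1 D - ∑ C ∈ S.dA.support, m C • S.eC C) +
            (W : ℤ) • (a • ∑ C ∈ S.dA.support, m C • S.eC C - b • (S.eC C₁ - S.eC C₂)) := by
        module
      rw [h10]
      exact add_mem (AddSubgroup.zsmul_mem _ (torZero_of_ratZero h6) _)
        (AddSubgroup.zsmul_mem _ h8 _)
    obtain ⟨M', hM', h10⟩ := S.ratEq_of_torZero h9
    have hc : (W : ℤ) * a * M ≠ 0 := mul_ne_zero (mul_ne_zero (by exact_mod_cast hW.ne') ha) hM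
    refine ⟨M' * ((W : ℤ) * a * M).natAbs,
      Nat.mul_pos hM' (Int.natAbs_pos.2 hc), ?_⟩
    rcases Int.natAbs_eq ((W : ℤ) * a * M) with h11 | h11
    · refine ⟨M' * b, ?_⟩
      have h12 : (M' * ((W : ℤ) * a * M).natAbs) • D - ((M' : ℤ) * b) • δ =
          M' • (((W : ℤ) * a * M) • D - b • δ) := by
        conv_rhs => rw [h11]
        rw [← natCast_zsmul, ← natCast_zsmul]
        push_cast
        module
      rw [h12]
      exact h10
    · refine ⟨-(M' * b), ?_⟩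
      have h12 : (M' * ((W : ℤ) * a * M).natAbs) • D - (-((M' : ℤ) * b)) • δ =
          -(M' • (((W : ℤ) * a * M) • D - b • δ)) := by
        conv_rhs => rw [h11]
        rw [← natCast_zsmul, ← natCast_zsmul]
        push_cast
        module
      rw [h12]
      exact neg_mem h10

/-- **Rank at most one.** -/
theorem rankAtMostOne (h : TwoPoints S.p S.q S.r S.A S.B) : RankAtMostOne S.wt S.F :=
  S.exists_delta h

end MD

end Pool.Agent.RCH.Mn
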