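import Pool.Agent.RCH.Mn9c
import Pool.Agent.RCH.MnMem
import Pool.Agent.RCH.MnRk
import Pool.Agent.RCH.MnExch

/-!
# Rank at most one implies that the products of two cycles of degree zero are torsion
-/

set_option autoImplicit false

open MvPolynomial

namespace Pool.Agent.RCH.Mn

open Pool.Agent.RCH.Wdc

section products

variable {ι : Type} {X : WVar ι}

/-- the product of cycles, with the coefficients multiplied by the indices -/
theorem unscale_boxC [Finite ι] {N : ℕ} (a : Fin N → Cycles X 1) :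
    Wt.unscale X N (boxC X a) = boxC X (fun i => Wt.unscale X 1 (a i)) := by
  classical
  have := Fintype.ofFinite ι
  rw [boxC_eq_sum X a (fun i => (a i).support) (fun _ => Finset.Subset.refl _),
    boxC_eq_sum X (fun i => Wt.unscale X 1 (a i)) (fun i => (a i).support)
      (fun i => Wt.support_unscale (a i)), map_sum]
  refine Finset.sum_congr rfl fun Q _ => ?_
  rw [map_zsmul, Wt.unscale_box, smul_smul, ← Finset.prod_mul_distrib]
  congr 1
  refine Finset.prod_congr rfl fun i _ => ?_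
  rw [Wt.unscale, Wt.mulFun_apply]

variable [Finite ι]

/-- **Rank one**: the cycles of degree zero are multiples of `δ`, and the square of `δ` is torsion or
they are all torsion. -/
theorem multiple_of_rank_one (s : Finset (Pt X 1)) (c : Pt X 1 → Pt X 1 → ℤ)
    (hc : ∀ C ∈ s, ∀ C' ∈ s, 0 < c C C') (e : Pt X 1 → Cycles X 1) (δ : Cycles X 1)
    (hδ : ∀ C ∈ s, ∀ C' ∈ s, ∃ a : ℕ, 1 ≤ a ∧ ∃ b : ℤ, a • (e C - e C') - b • δ ∈ torZero X 1)
    (h : ∑ C ∈ s, ∑ C' ∈ s, c C C' • extPow X (e C - e C') 2 ∈ torZero X 2) :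
    extPow X δ 2 ∈ torZero X 2 ∧ (∀ x : Cycles X 1, ∀ M : ℤ, M ≠ 0 → ∀ m : Pt X 1 → ℤ,
        ∑ C ∈ s, m C = 0 → M • x - ∑ C ∈ s, m C • e C ∈ torZero X 1 →
          ∃ a : ℤ, a ≠ 0 ∧ ∃ b : ℤ, a • x - b • δ ∈ torZero X 1) ∨
      ∀ x : Cycles X 1, ∀ M : ℤ, M ≠ 0 → ∀ m : Pt X 1 → ℤ,
        ∑ C ∈ s, m C = 0 → M • x - ∑ C ∈ s, m C • e C ∈ torZero X 1 → x ∈ torZero X 1 := by
  obtain ⟨a, ha, hab⟩ := exists_common s (fun C C' => e C - e C') δ hδ
  choose! b hb using hab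
  have ha0 : (a : ℤ) ≠ 0 := by exact_mod_cast (by omega : a ≠ 0)
  have hb' : ∀ C ∈ s, ∀ C' ∈ s, (a : ℤ) • (e C - e C') - b C C' • δ ∈ torZero X 1 := by
    intro C hC C' hC'
    rw [natCast_zsmul]
    exact hb C hC C' hC'
  have h1 : ∀ C₀ : Pt X 1, ∀ m : Pt X 1 → ℤ, ∑ C ∈ s, m C = 0 →
      ∑ C ∈ s, m C • e C = ∑ C ∈ s, m C • (e C - e C₀) := by
    intro C₀ m hm
    simp only [smul_sub, Finset.sum_sub_distrib]
    rw [← Finset.sum_smul, hm, zero_smul, sub_zero]
  rcases rank_one_aux s c hc (fun C C' => e C - e C') δ ha0 b hb' h with h2 | h2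
  · refine Or.inl ⟨h2, fun x M hM m hm hx => ?_⟩
    rcases s.eq_empty_or_nonempty with h0 | ⟨C₀, h0⟩
    · subst h0
      rw [Finset.sum_empty, sub_zero] at hx
      refine ⟨1, one_ne_zero, 0, ?_⟩
      rw [one_smul, zero_smul, sub_zero]
      exact torZero_of_zsmul hM hx
    · refine ⟨(a : ℤ) * M, mul_ne_zero ha0 hM, ∑ C ∈ s, m C * b C C₀, ?_⟩
      have h4 : ((a : ℤ) * M) • x - (∑ C ∈ s, m C * b C C₀) • δ =
          (a : ℤ) • (M • x - ∑ C ∈ s, m C • e C) +
            ∑ C ∈ s, m C • ((a : ℤ) • (e C - e C₀) - b C C₀ • δ) := by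
        rw [h1 C₀ m hm]
        have h5 : ∀ C, m C • ((a : ℤ) • (e C - e C₀) - b C C₀ • δ) =
            (a : ℤ) • (m C • (e C - e C₀)) - (m C * b C C₀) • δ := by
          intro C
          rw [smul_sub, smul_smul, smul_smul, smul_smul, mul_comm (m C) (a : ℤ)]
        simp only [h5, Finset.sum_sub_distrib]
        rw [← Finset.smul_sum, ← Finset.sum_smul]
        module
      rw [h4]
      refine add_mem (AddSubgroup.zsmul_mem _ hx _) (sum_mem fun C hC =>
        AddSubgroup.zsmul_mem _ (hb' C hC C₀ h0) _)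
  · refine Or.inr fun x M hM m hm hx => ?_
    rcases s.eq_empty_or_nonempty with h0 | ⟨C₀, h0⟩
    · subst h0
      rw [Finset.sum_empty, sub_zero] at hx
      exact torZero_of_zsmul hM hx
    · have h4 : ∑ C ∈ s, m C • e C ∈ torZero X 1 := by
        rw [h1 C₀ m hm]
        exact sum_mem fun C hC => AddSubgroup.zsmul_mem _ (h2 C hC C₀ h0) _
      have h5 := add_mem hx h4
      rw [sub_add_cancel] at h5
      exact torZero_of_zsmul hM h5

/-- the product of two cycles with multiples equal to multiples of a cycle with torsion square -/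
lemma bx_of_smul {x y δ : Cycles X 1} {a b a' b' : ℤ} (ha : a ≠ 0) (ha' : a' ≠ 0)
    (h : a • x - b • δ ∈ torZero X 1) (h' : a' • y - b' • δ ∈ torZero X 1)
    (hδ : extPow X δ 2 ∈ torZero X 2) : bx X x y ∈ torZero X 2 := by
  rw [extPow_two] at hδ
  have h1 : (a * a') • bx X x y = bx X (a • x - b • δ) (a' • y) +
      (b • bx X δ (a' • y - b' • δ) + (b * b') • bx X δ δ) := by
    simp only [map_sub, LinearMap.sub_apply, map_smul, LinearMap.smul_apply, smul_sub, smul_smul]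
    module
  refine torZero_of_zsmul (mul_ne_zero ha ha') ?_
  rw [h1]
  exact add_mem (bx_torsion_left h _) (add_mem (AddSubgroup.zsmul_mem _ (bx_torsion_right h' _) _)
    (AddSubgroup.zsmul_mem _ hδ _))

end products

namespace MD

variable (S : MD)

/-- **Rank one**: the products of two cycles of degree zero are torsion. -/
theorem product_of_delta (δ : Cycles S.V 1)
    (hδ : ∀ C ∈ S.dA.support, ∀ C' ∈ S.dA.support, ∃ a : ℕ, 1 ≤ a ∧ ∃ b : ℤ,
      a • (S.eC C - S.eC C') - b • δ ∈ torZero S.V 1) (D D' : Cycles S.V 1)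
    (hD : ∀ Q ∈ D.support, CodimOne S.pY.I Q.I) (hD' : ∀ Q ∈ D'.support, CodimOne S.pY.I Q.I)
    (h0 : Dg.deg S.V 2 D = 0) (h0' : Dg.deg S.V 2 D' = 0) :
    boxC S.V ![D, D'] ∈ torZero S.V 2 := by
  obtain ⟨M, hM, m, hm, h1⟩ := S.exists_combination D hD h0
  obtain ⟨M', hM', m', hm', h1'⟩ := S.exists_combination D' hD' h0'
  rcases multiple_of_rank_one S.dA.support S.cC (fun C hC C' hC' => S.cC_pos hC hC') S.eC δ hδ
    S.squares with ⟨h2, h3⟩ | h3
  · obtain ⟨a, ha, b, h4⟩ := h3 D M hM m hm (torZero_of_ratZero h1)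
    obtain ⟨a', ha', b', h4'⟩ := h3 D' M' hM' m' hm' (torZero_of_ratZero h1')
    exact bx_of_smul ha ha' h4 h4' h2
  · exact bx_torsion_left (h3 D M hM m hm (torZero_of_ratZero h1)) D'

lemma deg_unscale_zero {D : Cycles S.V 1} (hD : ∀ Q ∈ D.support, CodimOne S.pY.I Q.I)
    (h0 : degree S.V D = 0) : Dg.deg S.V 2 (Wt.unscale S.V 1 D) = 0 := by
  have h4 := Dg.degree_eq (X := S.V) S.wt_pos (D := D) (fun Q hQ => S.rank_section (hD Q hQ))
  rw [h0] at h4
  have h5 : ((∏ j, S.V.wt j : ℕ) : ℝ) ≠ 0 := by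
    have h6 : 0 < ∏ j, S.V.wt j := Finset.prod_pos fun j _ => S.wt_pos j
    exact_mod_cast h6.ne'
  exact (mul_eq_zero.mp h4.symm).resolve_left h5

/-- the difference of two of the curves, of degree zero -/
lemma pair_degree {C₁ C₂ : Pt S.V 1} (h₁ : C₁ ∈ S.dA.support) (h₂ : C₂ ∈ S.dA.support) :
    (∀ Q ∈ ((S.mC C₁ : ℤ) • Finsupp.single C₁ 1 -
      (S.mC C₂ : ℤ) • Finsupp.single C₂ 1 : Cycles S.V 1).support, CodimOne S.pY.I Q.I) ∧
    degree S.V ((S.mC C₁ : ℤ) • Finsupp.single C₁ 1 - (S.mC C₂ : ℤ) • Finsupp.single C₂ 1) = 0 := by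
  classical
  have hN : (S.N : ℝ) ≠ 0 := by
    have := S.hN
    positivity
  set W : ℕ := ∏ j, S.V.wt j with hWdef
  set δ : Cycles S.V 1 := (S.mC C₁ : ℤ) • Finsupp.single C₁ 1 - (S.mC C₂ : ℤ) • Finsupp.single C₂ 1
    with hδdef
  have hun : Wt.unscale S.V 1 δ = (W : ℤ) • (S.eC C₁ - S.eC C₂) := by
    rw [hδdef, map_sub, S.unscale_mC, S.unscale_mC, ← smul_sub]
  have hon : ∀ Q ∈ δ.support, CodimOne S.pY.I Q.I := by
    intro Q hQ
    have h3 := Finsupp.support_sub hQ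
    rw [Finset.mem_union] at h3
    rcases h3 with h3 | h3
    · have h4 := Finsupp.support_single_subset (Finsupp.support_smul h3)
      rw [Finset.mem_singleton] at h4
      rw [h4]
      exact (S.mem_dA.1 h₁).1
    · have h4 := Finsupp.support_single_subset (Finsupp.support_smul h3)
      rw [Finset.mem_singleton] at h4
      rw [h4]
      exact (S.mem_dA.1 h₂).1
  refine ⟨hon, ?_⟩
  have h3 := Dg.degree_eq (X := S.V) S.wt_pos (D := δ) (fun Q hQ => S.rank_section (hon Q hQ))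
  have h4 : Dg.deg S.V 2 (S.eC C₁ - S.eC C₂) = 0 := by
    have h5 := S.deg_eC h₁
    have h6 := S.deg_eC h₂
    rw [map_sub]
    have h7 : (S.N : ℝ) * (Dg.deg S.V 2 (S.eC C₁) - Dg.deg S.V 2 (S.eC C₂)) = 0 := by
      rw [mul_sub, h5, h6, sub_self]
    exact (mul_eq_zero.1 h7).resolve_left hN
  rw [hun, map_zsmul, h4, smul_zero, mul_zero] at h3
  exact h3

/-- the multiples of `δ` among the differences of the curves -/
lemma pair_of_rank {δ : Cycles S.V 1}
    (hδ : ∀ D : Cycles S.V 1, (∀ Q ∈ D.support, CodimOne S.pY.I Q.I) → degree S.V D = 0 →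
      ∃ M : ℕ, 1 ≤ M ∧ ∃ n : ℤ, M • D - n • δ ∈ RatEq S.V 1) {C C' : Pt S.V 1}
    (hC : C ∈ S.dA.support) (hC' : C' ∈ S.dA.support) : ∃ a : ℕ, 1 ≤ a ∧ ∃ b : ℤ,
      a • (S.eC C - S.eC C') - b • Wt.unscale S.V 1 δ ∈ torZero S.V 1 := by
  have hW : 0 < ∏ j, S.V.wt j := Finset.prod_pos fun j _ => S.wt_pos j
  obtain ⟨hon, h0⟩ := S.pair_degree hC hC'
  obtain ⟨M, hM, n, hn⟩ := hδ _ hon h0
  have h1 := S.torZero_of_ratEq (M := 1) le_rfl (by rw [one_smul]; exact hn)
  rw [map_sub, map_nsmul, map_zsmul, map_sub, S.unscale_mC, S.unscale_mC, ← smul_sub] at h1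
  refine ⟨M * ∏ j, S.V.wt j, Nat.mul_pos hM hW, n, ?_⟩
  have h2 : (M * ∏ j, S.V.wt j) • (S.eC C - S.eC C') =
      M • ((∏ j, S.V.wt j : ℕ) : ℤ) • (S.eC C - S.eC C') := by
    rw [natCast_zsmul, smul_smul]
  rw [h2]
  exact h1

/-- the products of two cycles of degree zero are torsion, the orders of vanishing being computed in
the local rings -/
theorem product_ratEq_of_rank {δ : Cycles S.V 1}
    (hδ : ∀ D : Cycles S.V 1, (∀ Q ∈ D.support, CodimOne S.pY.I Q.I) → degree S.V D = 0 →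
      ∃ M : ℕ, 1 ≤ M ∧ ∃ n : ℤ, M • D - n • δ ∈ RatEq S.V 1) (D : Fin 2 → Cycles S.V 1)
    (hD : ∀ i, ∀ Q ∈ (D i).support, CodimOne S.pY.I Q.I) (h0 : ∀ i, degree S.V (D i) = 0) :
    ∃ M : ℕ, 1 ≤ M ∧ M • boxC S.V D ∈ RatEq S.V 2 := by
  refine S.ratEq_of_torZero ?_
  rw [unscale_boxC]
  have h1 := S.product_of_delta _ (fun C hC C' hC' => S.pair_of_rank hδ hC hC')
    (Wt.unscale S.V 1 (D 0)) (Wt.unscale S.V 1 (D 1))
    (fun Q hQ => hD 0 Q (Wt.support_unscale _ hQ)) (fun Q hQ => hD 1 Q (Wt.support_unscale _ hQ))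
    (S.deg_unscale_zero (hD 0) (h0 0)) (S.deg_unscale_zero (hD 1) (h0 1))
  have h2 : (fun i => Wt.unscale S.V 1 (D i)) =
      ![Wt.unscale S.V 1 (D 0), Wt.unscale S.V 1 (D 1)] := by
    funext i
    fin_cases i <;> rfl
  rw [h2]
  exact h1

/-- **If the group of the one-cycles of degree zero on the section has rank at most one, then the
products of two of them are torsion.** -/
theorem productsTorsion_of_rank (h : RankAtMostOne S.wt S.F) : ProductsTorsion S.wt S.F 2 := by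
  obtain ⟨δ, -, -, hδ⟩ := h
  intro D hD h0
  rw [productCycle_eq]
  exact S.product_ratEq_of_rank hδ D hD h0

end MD

end Pool.Agent.RCH.Mn
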