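import Pool.Agent.RCH.MnSymC

/-!
# Exchangeable curves: products of one-cycles of degree zero
-/

set_option autoImplicit false

open MvPolynomial

namespace Pool.Agent.RCH.Mn

/-- the order depends only on the class of the function up to constants -/
lemma ordAt_congr {R : Type} [CommRing R] {P Q : Ideal R} [Q.IsPrime] {a b : R}
    (h : P ⊔ Ideal.span {a} = P ⊔ Ideal.span {b}) : ordAt P Q a = ordAt P Q b :=
  congrArg (fun I : Ideal R => Module.length (Localization.AtPrime Q)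
    (Localization.AtPrime Q ⧸ I.map (algebraMap R (Localization.AtPrime Q)))) h

lemma unscale_boxC₅ {X : WVar (Fin 5)} {N : ℕ} (a : Fin N → Cycles X 1) :
    Wt.unscale X N (boxC X a) = boxC X (fun i => Wt.unscale X 1 (a i)) := by
  rw [boxC_eq_sum X a (fun i => (a i).support) (fun _ => subset_rfl),
    boxC_eq_sum X (fun i => Wt.unscale X 1 (a i)) (fun i => (a i).support)
    (fun i => Wt.support_unscale _), map_sum]
  refine Finset.sum_congr rfl fun Q _ => ?_
  rw [map_zsmul, Wt.unscale_box, smul_smul, ← Finset.prod_mul_distrib]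
  congr 1
  refine Finset.prod_congr rfl fun i _ => ?_
  rw [Wt.unscale, Wt.mulFun_apply]

namespace MD

variable (S : MD)

section act

variable {S} {g : MSym S.V}

/-- the action on the coordinates of a point -/
noncomputable abbrev Φ (g : MSym S.V) : Coord (Fin 5) 1 ≃ₐ[ℂ] Coord (Fin 5) 1 :=
  actN (Equiv.refl (Fin 1)) (fun _ => g)

lemma Φ_inFactor (f : MvPolynomial (Fin 5) ℂ) : Φ g (inFactor 1 0 f) = inFactor 1 0 (g.act f) :=
  actHom_inFactor (Equiv.refl (Fin 1)) (fun _ => g) 0 f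

lemma Φ_C (a : ℂ) : Φ g (C a) = C a := (Φ g).commutes a

lemma Φ_symm_C (a : ℂ) : (Φ g).symm (C a) = C a := (Φ g).symm.commutes a

lemma mem_secI_iff (h3 : g.σ 3 = 3) (p : Coord (Fin 5) 1) : Φ g p ∈ S.secI ↔ p ∈ S.secI := by
  obtain ⟨κ, hκ, hF⟩ := S.act_F g
  have hc := g.hc 3
  have e3 : Φ g (inFactor 1 0 (X 3)) = C (g.c 3) * inFactor 1 0 (X 3) := by
    rw [Φ_inFactor, g.act_X, h3, map_mul, algHom_C]
    rfl
  have eF : Φ g (inFactor 1 0 S.F) = C κ * inFactor 1 0 S.F := by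
    rw [Φ_inFactor, hF, map_mul, algHom_C]
    rfl
  rw [secI]
  constructor
  · intro h
    obtain ⟨a, b, hab⟩ := Ideal.mem_span_pair.mp h
    have h1 : Φ g p = Φ g ((Φ g).symm a * (C (g.c 3)⁻¹ * inFactor 1 0 (X 3)) +
        (Φ g).symm b * (C κ⁻¹ * inFactor 1 0 S.F)) := by
      rw [map_add, map_mul, map_mul, map_mul, map_mul, AlgEquiv.apply_symm_apply,
        AlgEquiv.apply_symm_apply, e3, eF, Φ_C, Φ_C, ← mul_assoc (C (g.c 3)⁻¹), ← C_mul,
        inv_mul_cancel₀ hc, ← mul_assoc (C κ⁻¹), ← C_mul, inv_mul_cancel₀ hκ, C_1, one_mul,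
        one_mul, hab]
    have h2 := (Φ g).injective h1
    rw [h2]
    refine Ideal.add_mem _ (Ideal.mul_mem_left _ _ (Ideal.mul_mem_left _ _ ?_))
      (Ideal.mul_mem_left _ _ (Ideal.mul_mem_left _ _ ?_))
    · exact Ideal.subset_span (Or.inl rfl)
    · exact Ideal.subset_span (Or.inr rfl)
  · intro h
    obtain ⟨a, b, hab⟩ := Ideal.mem_span_pair.mp h
    rw [← hab, map_add, map_mul, map_mul, e3, eF]
    refine Ideal.add_mem _ (Ideal.mul_mem_left _ _ (Ideal.mul_mem_left _ _ ?_))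
      (Ideal.mul_mem_left _ _ (Ideal.mul_mem_left _ _ ?_))
    · exact Ideal.subset_span (Or.inl rfl)
    · exact Ideal.subset_span (Or.inr rfl)

lemma tr1_pY (h3 : g.σ 3 = 3) : tr1 g S.pY = S.pY := by
  apply Pt.ext'
  ext p
  rw [mem_tr1]
  exact mem_secI_iff h3 p

lemma A1_eq : S.A1 = inFactor 1 0 S.A5 := by
  rw [A1, A5, inFactor, rename_rename]
  congr 1
  congr 1
  ext i
  all_goals fin_cases i <;> rfl

lemma symm_A1 (h0 : g.σ 0 = 0) (h3 : g.σ 3 = 3) :
    ∃ κ : ℂ, κ ≠ 0 ∧ S.A1 - C κ * (Φ g).symm S.A1 ∈ S.pY.I := by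
  obtain ⟨κ, hκ, h⟩ := S.act_A h0 h3
  refine ⟨κ, hκ, ?_⟩
  obtain ⟨H, hH⟩ := Ideal.mem_span_singleton.mp h
  have h1 : Φ g (S.A1 - C κ * (Φ g).symm S.A1) ∈ S.secI := by
    rw [map_sub, map_mul, Φ_C, AlgEquiv.apply_symm_apply, A1_eq, Φ_inFactor]
    have h2 : (inFactor 1 0 (g.act S.A5) - C κ * inFactor 1 0 S.A5 : Coord (Fin 5) 1) =
        inFactor 1 0 (X 3) * inFactor 1 0 H := by
      rw [← map_mul, ← hH, map_sub, map_mul, algHom_C]
      rfl
    rw [h2]
    exact Ideal.mul_mem_right _ _ (Ideal.subset_span (Or.inl rfl))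
  exact (mem_secI_iff h3 _).mp h1

/-- **The divisor of `A` is invariant.** -/
theorem mapDomain_dA (h0 : g.σ 0 = 0) (h3 : g.σ 3 = 3) :
    Finsupp.mapDomain (tr1 g) S.dA = S.dA := by
  have h := isDivisor_trN (Equiv.refl (Fin 1)) (fun _ => g) S.isDivisor_dA
  obtain ⟨κ, hκ, hA⟩ := symm_A1 (S := S) h0 h3
  ext Q
  have h1 := h Q
  have h2 : trN (Equiv.refl (Fin 1)) (fun _ => g) S.pY = S.pY := tr1_pY h3
  rw [h2] at h1
  have h3 : Finsupp.mapDomain (tr1 g) S.dA Q =
      Finsupp.mapDomain (trN (Equiv.refl (Fin 1)) (fun _ => g)) S.dA Q := rfl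
  rw [h3, h1, S.isDivisor_dA Q]
  have hQ := Q.prime
  have e1 : (actN (Equiv.refl (Fin 1)) (fun _ => g)).symm (1 : Coord (Fin 5) 1) = 1 :=
    map_one (Φ g).symm
  have e2 : ordAt S.pY.I Q.I ((actN (Equiv.refl (Fin 1)) (fun _ => g)).symm S.A1) =
      ordAt S.pY.I Q.I S.A1 := by
    refine ordAt_congr ?_
    apply le_antisymm
    · refine sup_le le_sup_left ?_
      rw [Ideal.span_singleton_le_iff_mem]
      have h4 : C κ⁻¹ * (S.A1 - (S.A1 - C κ * (Φ g).symm S.A1)) ∈
          S.pY.I ⊔ Ideal.span {S.A1} :=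
        Ideal.mul_mem_left _ _ (Ideal.sub_mem _
          (Submodule.mem_sup_right (Ideal.mem_span_singleton_self _)) (Submodule.mem_sup_left hA))
      rwa [sub_sub_cancel, ← mul_assoc, ← C_mul, inv_mul_cancel₀ hκ, C_1, one_mul] at h4
    · refine sup_le le_sup_left ?_
      rw [Ideal.span_singleton_le_iff_mem]
      have h4 : (S.A1 - C κ * (Φ g).symm S.A1) + C κ * (Φ g).symm S.A1 ∈
          S.pY.I ⊔ Ideal.span {(Φ g).symm S.A1} :=
        Ideal.add_mem _ (Submodule.mem_sup_left hA) (Ideal.mul_mem_left _ _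
          (Submodule.mem_sup_right (Ideal.mem_span_singleton_self _)))
      rwa [sub_add_cancel] at h4
  rw [e1, e2]

lemma dA_tr1 (h0 : g.σ 0 = 0) (h3 : g.σ 3 = 3) (C : Pt S.V 1) : S.dA (tr1 g C) = S.dA C := by
  conv_lhs => rw [← mapDomain_dA h0 h3]
  exact Finsupp.mapDomain_apply (tr1 g).injective _ _

lemma mem_support_tr1 (h0 : g.σ 0 = 0) (h3 : g.σ 3 = 3) (C : Pt S.V 1) :
    tr1 g C ∈ S.dA.support ↔ C ∈ S.dA.support := by
  rw [Finsupp.mem_support_iff, Finsupp.mem_support_iff, dA_tr1 h0 h3]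

lemma X_mem_tr1 (C : Pt S.V 1) (j : Fin 5) : (X (0, j) : Coord (Fin 5) 1) ∈ (tr1 g C).I ↔
    (X (0, g.σ j) : Coord (Fin 5) 1) ∈ C.I := by
  rw [mem_tr1]
  have h1 : actN (Equiv.refl (Fin 1)) (fun _ => g) (X (0, j)) =
      (MvPolynomial.C (g.c j) * X (0, g.σ j) : Coord (Fin 5) 1) := actN_X _ _ _
  rw [h1]
  constructor
  · intro h
    have h2 := C.I.mul_mem_left (MvPolynomial.C (g.c j)⁻¹) h
    rwa [← mul_assoc, ← C_mul, inv_mul_cancel₀ (g.hc j), C_1, one_mul] at h2
  · exact fun h => C.I.mul_mem_left _ h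

end act

lemma dvd_G (n : ℕ) (C : Pt S.V 1) : n ∣ S.G C ↔ ∀ j : Fin 5, j ≠ 0 → j ≠ 3 →
    (X (0, j) : Coord (Fin 5) 1) ∉ C.I → n ∣ S.V.wt j := by
  have e1 : S.V.wt 1 = S.p := rfl
  have e2 : S.V.wt 2 = S.q := rfl
  have e4 : S.V.wt 4 = S.r := rfl
  rw [G, Nat.dvd_gcd_iff, Nat.dvd_gcd_iff]
  constructor
  · rintro ⟨h1, h2, h4⟩ j hj0 hj3 hj
    fin_cases j
    · exact absurd rfl hj0
    · have hj' : (X (0, 1) : Coord (Fin 5) 1) ∉ C.I := hj
      rw [if_neg hj'] at h1
      exact h1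
    · have hj' : (X (0, 2) : Coord (Fin 5) 1) ∉ C.I := hj
      rw [if_neg hj'] at h2
      exact h2
    · exact absurd rfl hj3
    · have hj' : (X (0, 4) : Coord (Fin 5) 1) ∉ C.I := hj
      rw [if_neg hj'] at h4
      exact h4
  · intro h
    refine ⟨?_, ?_, ?_⟩
    · split_ifs with h1
      · exact dvd_zero n
      · exact h 1 (by decide) (by decide) h1
    · split_ifs with h1
      · exact dvd_zero n
      · exact h 2 (by decide) (by decide) h1
    · split_ifs with h1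
      · exact dvd_zero n
      · exact h 4 (by decide) (by decide) h1

lemma G_tr1 {g : MSym S.V} (h0 : g.σ 0 = 0) (h3 : g.σ 3 = 3) (C : Pt S.V 1) :
    S.G (tr1 g C) = S.G C := by
  have key : ∀ n : ℕ, n ∣ S.G (tr1 g C) ↔ n ∣ S.G C := by
    intro n
    rw [dvd_G, dvd_G]
    constructor
    · intro h j hj0 hj3 hj
      have e : g.σ (g.σ.symm j) = j := g.σ.apply_symm_apply j
      have h1 := h (g.σ.symm j) (fun h' => hj0 (by rw [← e, h', h0]))
        (fun h' => hj3 (by rw [← e, h', h3])) (by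
          rw [X_mem_tr1, e]
          exact hj)
      rwa [← g.hwt (g.σ.symm j), e] at h1
    · intro h j hj0 hj3 hj
      rw [X_mem_tr1] at hj
      have h1 := h (g.σ j) (fun h' => hj0 (g.σ.injective (h'.trans h0.symm)))
        (fun h' => hj3 (g.σ.injective (h'.trans h3.symm))) hj
      rwa [g.hwt j] at h1
  exact Nat.dvd_antisymm ((key _).mp dvd_rfl) ((key _).mpr dvd_rfl)

/-- Any two of the curves are exchanged by a monomial symmetry which fixes the first coordinate and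
the section. -/
def Exch : Prop := ∀ C ∈ S.dA.support, ∀ C' ∈ S.dA.support, ∃ g : MSym S.V,
  g.σ 0 = 0 ∧ g.σ 3 = 3 ∧ tr1 g C = C' ∧ tr1 g C' = C

/-- the number of the curves -/
noncomputable def T : ℕ := S.dA.support.card

/-- the sum of the curves -/
noncomputable def cc : Cycles S.V 1 := ∑ C ∈ S.dA.support, Finsupp.single C 1

/-- the centred curves -/
noncomputable def zz (C : Pt S.V 1) : Cycles S.V 1 := (S.T : ℤ) • Finsupp.single C 1 - S.cc

lemma T_pos : 0 < S.T := by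
  obtain ⟨C, hC⟩ := S.exists_mem_dA
  exact Finset.card_pos.mpr ⟨C, hC⟩

lemma mapDomain_cc {g : MSym S.V} (h0 : g.σ 0 = 0) (h3 : g.σ 3 = 3) :
    Finsupp.mapDomain (tr1 g) S.cc = S.cc := by
  rw [cc, Finsupp.mapDomain_finsetSum]
  simp only [Finsupp.mapDomain_single]
  refine Finset.sum_bij (fun C _ => tr1 g C) (fun C hC => (mem_support_tr1 h0 h3 C).mpr hC)
    (fun C _ C' _ h => (tr1 g).injective h) (fun C hC => ?_) (fun C _ => rfl)
  obtain ⟨C', rfl⟩ := (tr1 g).surjective C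
  exact ⟨C', (mem_support_tr1 h0 h3 C').mp hC, rfl⟩

lemma mapDomain_zz {g : MSym S.V} (h0 : g.σ 0 = 0) (h3 : g.σ 3 = 3) (C : Pt S.V 1) :
    Finsupp.mapDomain (tr1 g) (S.zz C) = S.zz (tr1 g C) := by
  have h1 : Finsupp.mapDomain (tr1 g) (S.zz C) =
      (Finsupp.mapDomain.addMonoidHom (tr1 g) : Cycles S.V 1 →+ Cycles S.V 1) (S.zz C) := rfl
  rw [h1, zz, map_sub, map_zsmul]
  have h2 : (Finsupp.mapDomain.addMonoidHom (tr1 g) : Cycles S.V 1 →+ Cycles S.V 1)
      (Finsupp.single C 1) = Finsupp.single (tr1 g C) 1 := Finsupp.mapDomain_single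
  have h4 : (Finsupp.mapDomain.addMonoidHom (tr1 g) : Cycles S.V 1 →+ Cycles S.V 1) S.cc = S.cc :=
    S.mapDomain_cc h0 h3
  rw [h2, h4, zz]

lemma sum_zz : ∑ C ∈ S.dA.support, S.zz C = 0 := by
  simp only [zz]
  rw [Finset.sum_sub_distrib, ← Finset.smul_sum, Finset.sum_const, ← cc, natCast_zsmul, T, sub_self]

/-- the squares of the centred curves -/
lemma sum_sq_zz (hE : S.Exch) :
    ∑ C ∈ S.dA.support, boxC S.V ![S.zz C, S.zz C] ∈ torZero S.V 2 := by
  classical
  obtain ⟨C₀, hC₀⟩ := S.exists_mem_dA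
  -- the multiplicities are constant
  have hn : ∀ C ∈ S.dA.support, S.dA C = S.dA C₀ := by
    intro C hC
    obtain ⟨g, h0, h3, h1, _⟩ := hE C hC C₀ hC₀
    rw [← h1, dA_tr1 h0 h3]
  have hG : ∀ C ∈ S.dA.support, S.G C = S.G C₀ := by
    intro C hC
    obtain ⟨g, h0, h3, h1, _⟩ := hE C hC C₀ hC₀
    rw [← h1, S.G_tr1 h0 h3]
  set n : ℤ := S.dA C₀ with hn0
  set G₀ : ℕ := S.G C₀ with hG0
  have hnpos : 0 < n := S.dA_pos hC₀
  have hGpos : 0 < G₀ := S.G_pos hC₀
  have hT := S.T_pos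
  obtain ⟨hq, hK⟩ := S.quad
  have hp := S.hp
  have hqq := S.hq
  have hr := S.hr
  -- the numbers
  have hK' : ((S.k : ℤ) * S.d) * G₀ = (S.p : ℤ) * S.q * S.r * (S.T * n) := by
    have h1 : ∑ C ∈ S.dA.support, (S.dA C : ℝ) / S.G C = S.T * ((n : ℝ) / G₀) := by
      rw [Finset.sum_congr rfl fun C hC => by rw [hn C hC, hG C hC], Finset.sum_const, nsmul_eq_mul,
        T]
    rw [h1] at hK
    have h2 : (G₀ : ℝ) ≠ 0 := by
      rw [Nat.cast_ne_zero]
      omega
    have h3 : ((S.k : ℝ) * S.d) * G₀ = (S.p : ℝ) * S.q * S.r * (S.T * n) := by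
      rw [hK]
      field_simp
    exact_mod_cast h3
  -- the cycles
  have e1 : S.sqA = (n * G₀) • ∑ C ∈ S.dA.support, boxC S.V ![Finsupp.single C 1,
      Finsupp.single C 1] := by
    rw [S.sqA_eq, Finset.smul_sum]
    refine Finset.sum_congr rfl fun C hC => ?_
    rw [hn C hC, hG C hC]
    congr 1
    have h1 := boxC_single S.V ![C, C] ![1, 1]
    have h2 : (fun i => Finsupp.single ((![C, C] : Fin 2 → Pt S.V 1) i)
        ((![1, 1] : Fin 2 → ℤ) i)) = ![Finsupp.single C 1, Finsupp.single C 1] := by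
      funext i
      fin_cases i <;> rfl
    rw [h2] at h1
    rw [h1, Fin.prod_univ_two]
    simp
  have e2 : S.dA = n • S.cc := by
    conv_lhs => rw [sum_single S.dA]
    rw [cc, Finset.smul_sum]
    exact Finset.sum_congr rfl fun C hC => by rw [hn C hC]
  have bl : ∀ (a : ℤ) (x y : Cycles S.V 1), boxC S.V ![a • x, y] = a • boxC S.V ![x, y] := by
    intro a x y
    have h := (boxM S.V 2).map_update_smul ![x, y] 0 a x
    have u1 : Function.update ![x, y] 0 (a • x) = ![a • x, y] := by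
      funext i
      fin_cases i <;> rfl
    have u2 : Function.update ![x, y] 0 x = ![x, y] := by
      funext i
      fin_cases i <;> rfl
    rw [u1, u2] at h
    exact h
  have br : ∀ (a : ℤ) (x y : Cycles S.V 1), boxC S.V ![x, a • y] = a • boxC S.V ![x, y] := by
    intro a x y
    have h := (boxM S.V 2).map_update_smul ![x, y] 1 a y
    have u1 : Function.update ![x, y] 1 (a • y) = ![x, a • y] := by
      funext i
      fin_cases i <;> rfl
    have u2 : Function.update ![x, y] 1 y = ![x, y] := by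
      funext i
      fin_cases i <;> rfl
    rw [u1, u2] at h
    exact h
  have al' : ∀ (x x' y : Cycles S.V 1), boxC S.V ![x - x', y] =
      boxC S.V ![x, y] - boxC S.V ![x', y] := by
    intro x x' y
    have h := (boxM S.V 2).map_update_sub ![x, y] 0 x x'
    have u1 : Function.update ![x, y] 0 (x - x') = ![x - x', y] := by
      funext i
      fin_cases i <;> rfl
    have u2 : Function.update ![x, y] 0 x = ![x, y] := by
      funext i
      fin_cases i <;> rfl
    have u3 : Function.update ![x, y] 0 x' = ![x', y] := by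
      funext i
      fin_cases i <;> rfl
    rw [u1, u2, u3] at h
    exact h
  have ar : ∀ (x y y' : Cycles S.V 1), boxC S.V ![x, y - y'] =
      boxC S.V ![x, y] - boxC S.V ![x, y'] := by
    intro x y y'
    have h := (boxM S.V 2).map_update_sub ![x, y] 1 y y'
    have u1 : Function.update ![x, y] 1 (y - y') = ![x, y - y'] := by
      funext i
      fin_cases i <;> rfl
    have u2 : Function.update ![x, y] 1 y = ![x, y] := by
      funext i
      fin_cases i <;> rfl
    have u3 : Function.update ![x, y] 1 y' = ![x, y'] := by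
      funext i
      fin_cases i <;> rfl
    rw [u1, u2, u3] at h
    exact h
  have suml : ∀ (y : Cycles S.V 1), ∑ C ∈ S.dA.support, boxC S.V ![Finsupp.single C 1, y] =
      boxC S.V ![S.cc, y] := by
    intro y
    have h := (boxM S.V 2).map_update_sum S.dA.support 0
      (fun C : Pt S.V 1 => (Finsupp.single C 1 : Cycles S.V 1)) ![0, y]
    have u1 : ∀ x : Cycles S.V 1, Function.update ![0, y] 0 x = ![x, y] := by
      intro x
      funext i
      fin_cases i <;> rfl
    rw [u1] at h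
    simp only [u1] at h
    exact h.symm
  have sumr : ∀ (x : Cycles S.V 1), ∑ C ∈ S.dA.support, boxC S.V ![x, Finsupp.single C 1] =
      boxC S.V ![x, S.cc] := by
    intro x
    have h := (boxM S.V 2).map_update_sum S.dA.support 1
      (fun C : Pt S.V 1 => (Finsupp.single C 1 : Cycles S.V 1)) ![x, 0]
    have u1 : ∀ y : Cycles S.V 1, Function.update ![x, 0] 1 y = ![x, y] := by
      intro y
      funext i
      fin_cases i <;> rfl
    rw [u1] at h
    simp only [u1] at h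
    exact h.symm
  set D := ∑ C ∈ S.dA.support, boxC S.V ![Finsupp.single C 1, Finsupp.single C 1] with hD
  set Q := boxC S.V ![S.cc, S.cc] with hQ
  have e3 : boxC S.V ![S.dA, S.dA] = (n * n) • Q := by
    rw [e2, bl, br, smul_smul]
  have e4 : ((S.k : ℤ) * S.d * (n * G₀)) • ((S.T : ℤ) • D - Q) =
      (S.T : ℤ) • (((S.k : ℤ) * S.d) • S.sqA - ((S.p : ℤ) * S.q * S.r) • boxC S.V ![S.dA, S.dA]) := by
    have c1 : (S.k : ℤ) * S.d * (n * G₀) * S.T = S.T * (S.k * S.d) * (n * G₀) := by ring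
    have c2 : (S.k : ℤ) * S.d * (n * G₀) = S.T * (S.p * S.q * S.r) * (n * n) := by
      linear_combination n * hK'
    rw [e1, e3, smul_sub, smul_sub, smul_smul, smul_smul, smul_smul, smul_smul, smul_smul]
    exact congrArg₂ (fun a b : ℤ => a • D - b • Q) c1 c2
  have e5 : (S.T : ℤ) • D - Q ∈ torZero S.V 2 := by
    have hne : (S.k : ℤ) * S.d * (n * G₀) ≠ 0 := by
      have h1 : (0 : ℤ) < (S.k : ℤ) * S.d := by
        have := S.k_pos
        have := S.d_pos
        positivity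
      have h2 : (0 : ℤ) < n * G₀ := by positivity
      exact (mul_pos h1 h2).ne'
    refine torZero_of_zsmul hne ?_
    rw [e4]
    exact AddSubgroup.zsmul_mem _ hq _
  have e6 : ∑ C ∈ S.dA.support, boxC S.V ![S.zz C, S.zz C] = (S.T : ℤ) • ((S.T : ℤ) • D - Q) := by
    have h1 : ∀ C : Pt S.V 1, boxC S.V ![S.zz C, S.zz C] =
        ((S.T : ℤ) * S.T) • boxC S.V ![Finsupp.single C 1, Finsupp.single C 1] -
        (S.T : ℤ) • boxC S.V ![Finsupp.single C 1, S.cc] -
        ((S.T : ℤ) • boxC S.V ![S.cc, Finsupp.single C 1] - Q) := by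
      intro C
      rw [zz, al', ar, ar, bl, bl, br, br, smul_smul]
    rw [Finset.sum_congr rfl fun C _ => h1 C, Finset.sum_sub_distrib, Finset.sum_sub_distrib,
      Finset.sum_sub_distrib, ← Finset.smul_sum, ← Finset.smul_sum, ← Finset.smul_sum, suml, sumr,
      Finset.sum_const, ← T, ← hD, ← hQ, ← natCast_zsmul, smul_sub, smul_smul]
    abel
  rw [e6]
  exact AddSubgroup.zsmul_mem _ e5 _

/-- **Exchangeable curves.** The product of at least as many one-cycles of degree zero on the section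
as there are curves is torsion. -/
theorem products_exch (hE : S.Exch) {N : ℕ} (hN : S.dA.support.card ≤ N)
    (D : Fin N → Cycles S.V 1) (hD : ∀ i, ∀ Q ∈ (D i).support, CodimOne S.pY.I Q.I)
    (h0 : ∀ i, Dg.deg S.V 2 (D i) = 0) : boxC S.V D ∈ torZero S.V N := by
  classical
  obtain ⟨C₀, hC₀⟩ := S.exists_mem_dA
  have hG : ∀ C ∈ S.dA.support, S.G C = S.G C₀ := by
    intro C hC
    obtain ⟨g, h0, h3, h1, _⟩ := hE C hC C₀ hC₀
    rw [← h1, S.G_tr1 h0 h3]
  have : Nonempty {C // C ∈ S.dA.support} := ⟨⟨C₀, hC₀⟩⟩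
  have hsum : ∀ f : Pt S.V 1 → Cycles S.V 1,
      ∑ u : {C // C ∈ S.dA.support}, f u.1 = ∑ C ∈ S.dA.support, f C := fun f =>
    Finset.sum_coe_sort S.dA.support f
  refine Sy.nil_combinations (α := {C // C ∈ S.dA.support}) (fun u => S.zz u.1) ?_ ?_ ?_ ?_ D ?_
  · rw [hsum, sum_zz]
  · have h1 : ∑ u : {C // C ∈ S.dA.support}, boxC S.V ![S.zz u.1, S.zz u.1] =
        ∑ C ∈ S.dA.support, boxC S.V ![S.zz C, S.zz C] :=
      Finset.sum_coe_sort S.dA.support fun C => boxC S.V ![S.zz C, S.zz C]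
    rw [h1]
    exact S.sum_sq_zz hE
  · intro u a
    obtain ⟨g, g0, g3, h1, h2⟩ := hE u.1 u.2 a.1 a.2
    refine ⟨Equiv.Perm.subtypePerm (tr1 g) fun C => mem_support_tr1 g0 g3 C, ⟨g, fun b => ?_⟩,
      ?_, ?_⟩
    · rw [S.mapDomain_zz g0 g3]
      rfl
    · exact Subtype.ext h1
    · exact Subtype.ext h2
  · rw [Fintype.card_coe]
    exact hN
  · intro i
    obtain ⟨M, hM, m, hm, h⟩ := S.exists_combination (D i) (hD i) (h0 i)
    refine ⟨(S.T : ℤ) * M, mul_ne_zero (by exact_mod_cast S.T_pos.ne') hM,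
      fun u => m u.1 * S.G C₀, ?_⟩
    have h1 : ∑ u : {C // C ∈ S.dA.support}, (m u.1 * S.G C₀) • S.zz u.1 =
        (S.T : ℤ) • ∑ C ∈ S.dA.support, m C • S.eC C := by
      rw [hsum fun C => (m C * S.G C₀) • S.zz C]
      have h2 : ∀ C ∈ S.dA.support, (m C * (S.G C₀ : ℤ)) • S.zz C =
          (S.T : ℤ) • (m C • S.eC C) - (m C * (S.G C₀ : ℤ)) • S.cc := by
        intro C hC
        rw [zz, eC, hG C hC, smul_sub, smul_smul, smul_smul, smul_smul]
        congr 2
        ring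
      rw [Finset.sum_congr rfl h2, Finset.sum_sub_distrib, ← Finset.smul_sum, ← Finset.sum_smul,
        ← Finset.sum_mul, hm, zero_mul, zero_smul, sub_zero]
    rw [h1, mul_smul, ← smul_sub]
    exact AddSubgroup.zsmul_mem _ (torZero_of_ratZero h) _

/-- the same, for the degree and with the orders of vanishing in the local rings -/
theorem products_exch' (hE : S.Exch) {N : ℕ} (hN : S.dA.support.card ≤ N)
    (D : Fin N → Cycles S.V 1) (hD : ∀ i, ∀ Q ∈ (D i).support, CodimOne S.pY.I Q.I)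
    (h0 : ∀ i, degree S.V (D i) = 0) : ∃ M : ℕ, 1 ≤ M ∧ M • boxC S.V D ∈ RatEq S.V N := by
  have hW : 0 < ∏ j, S.V.wt j := Finset.prod_pos fun j _ => S.wt_pos j
  refine S.ratEq_of_torZero ?_
  rw [unscale_boxC₅]
  refine S.products_exch hE hN (fun i => Wt.unscale S.V 1 (D i))
    (fun i Q hQ => hD i Q (Wt.support_unscale (D i) hQ)) (fun i => ?_)
  have h4 := Dg.degree_eq (X := S.V) S.wt_pos (D := D i) (fun Q hQ => S.rank_section (hD i Q hQ))
  rw [h0 i] at h4
  have h5 : ((∏ j, S.V.wt j : ℕ) : ℝ) ≠ 0 := by exact_mod_cast hW.ne'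
  exact (mul_eq_zero.mp h4.symm).resolve_left h5

end MD

end Pool.Agent.RCH.Mn
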