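import Pool.Agent.RCH.MnMem
import Pool.Agent.RCH.MnRank
import Pool.Agent.RCH.MnSymD
import Pool.Agent.RCH.MnExch
import Pool.Agent.RCH.MZF

/-!
# The conclusion of the theorem, for the bundled data
-/

set_option autoImplicit false

open MvPolynomial

namespace Pool.Agent.RCH.Mn

namespace MD

variable (S : MD)

/-- the products of at least as many cycles of degree zero as there are cones, in the symmetric case -/
theorem productsTorsion_exch (h : Exchangeable S.V S.dA.support) (n : ℕ)
    (hn : S.dA.support.card ≤ n) : ProductsTorsion S.wt S.F n := by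
  intro D hD h0
  rw [productCycle_eq]
  exact S.products_exch' (exchangeable_iff.1 h) hn D hD h0

/-- every cycle supported on the section is a combination of the curves, up to a multiple -/
theorem combination (D : Cycles S.V 1) (hD : ∀ Q ∈ D.support, CodimOne S.pY.I Q.I) :
    Combination S.V S.dA.support D := by
  obtain ⟨m, hm, c, hc, h⟩ := S.supported (Wt.unscale S.V 1 D)
    (fun Q hQ => hD Q (Wt.support_unscale D hQ))
  have h1 := Wt.scale_mem S.wt_pos h
  have hW : 0 < ∏ j, S.V.wt j := Finset.prod_pos fun j _ => S.wt_pos j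
  rw [map_sub, map_nsmul, Wt.scale_unscale S.wt_pos, smul_smul] at h1
  refine ⟨_, Nat.mul_pos hm (pow_pos hW 1), fun C => Wt.scale S.V 1 c C, ?_⟩
  have h2 : ∑ C ∈ S.dA.support, Wt.scale S.V 1 c C • (Finsupp.single C 1 : Cycles S.V 1) =
      Wt.scale S.V 1 c := by
    conv_rhs => rw [sum_single (Wt.scale S.V 1 c)]
    refine (Finset.sum_subset ((Wt.support_mulFun _ c).trans hc) fun Q _ hQ => ?_).symm
    have h3 : Wt.scale S.V 1 c Q = 0 := Finsupp.notMem_support_iff.mp hQ
    rw [h3, zero_smul]
  rw [h2]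
  exact h1

/-- the relation between the squares -/
theorem squaresRelation : SquaresRelation S.V S.dA.support := by
  have hW : 0 < ∏ j, S.V.wt j := Finset.prod_pos fun j _ => S.wt_pos j
  have hN : (0 : ℝ) < S.N := by exact_mod_cast S.hN
  obtain ⟨M, hM, h⟩ := S.squares_ratEq
  refine ⟨S.mC, fun C => (S.dA C * (S.gC C : ℤ)).toNat,
    ((∏ j, S.V.wt j : ℕ) : ℝ) ^ 2 / S.N, by positivity, fun C hC => ⟨?_, ?_⟩, M, hM, ?_⟩
  · have h1 := S.dA_pos hC
    have h2 : (0 : ℤ) < S.gC C := by exact_mod_cast S.gC_pos hC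
    have h3 := mul_pos h1 h2
    show 1 ≤ (S.dA C * (S.gC C : ℤ)).toNat
    omega
  · rw [eq_div_iff hN.ne']
    exact S.mC_degree hC
  · refine (congrArg (· ∈ RatEq S.V 2) ?_).mp h
    congr 1
    refine Finset.sum_congr rfl fun C hC => Finset.sum_congr rfl fun C' hC' => ?_
    have h1 : ∀ E ∈ S.dA.support, (((S.dA E * (S.gC E : ℤ)).toNat : ℕ) : ℤ) =
        S.dA E * (S.gC E : ℤ) := by
      intro E hE
      have h2 := S.dA_pos hE
      exact Int.toNat_of_nonneg (by positivity)
    rw [← natCast_zsmul (extPow _ _ _), Nat.cast_mul, h1 C hC, h1 C' hC', cC, natCast_zsmul,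
      natCast_zsmul]
    congr 1
    ring

/-- the curves are the cones over the common zeros of `A` and `B` -/
theorem allCones : AllCones S.p S.q S.r S.A S.B (X := S.V) S.dA.support := by
  refine ⟨?_, fun C hC => S.dA_cone.1 hC, fun a ha hA hB => ?_⟩
  · obtain ⟨C, hC⟩ := S.exists_mem_dA
    exact ⟨C, hC⟩
  · obtain ⟨C, hC⟩ := MZ.exists_cone S hA hB
    exact ⟨C, S.dA_cone.2 ⟨a, ha, hA, hB, hC⟩, hC⟩

/-- **The conclusion.** -/
theorem conclusion : Conclusion S.wt S.p S.q S.r S.A S.B S.F :=
  ⟨S.dA.support, S.allCones, S.squaresRelation, fun D hD => S.combination D hD,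
    fun h => S.rankAtMostOne h, fun h => S.productsTorsion_of_rank h,
    fun h n hn => S.productsTorsion_exch h n hn⟩

end MD

/-- **The conclusion for a member.** -/
theorem conclusion {N p q w r e D k : ℕ} {A B : MvPolynomial (Fin 3) ℂ}
    {F : MvPolynomial (Fin 5) ℂ} (hW : Weights N p q w r e D k)
    (hF : Member N p q w r e D A B F) : Conclusion ![N, p, q, w, r] p q r A B F :=
  (toMD hW hF).conclusion

end Pool.Agent.RCH.Mn
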