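import Pool.Agent.RCH.WpEx

/-!
# Quasi-smooth forms
-/

set_option autoImplicit false

open MvPolynomial

namespace Pool.Agent.RCH.Mn

open Pool.Agent.RCH.Wdc

/-- The form `x_0 ^ e x_1 + x_1 ^ c + x_2 ^ n x_4 ^ i + x_3 ^ m + x_4 ^ D`. -/
noncomputable def chainForm (e c n i m D : ℕ) : MvPolynomial (Fin 5) ℂ :=
  X 0 ^ e * X 1 + X 1 ^ c + X 2 ^ n * X 4 ^ i + X 3 ^ m + X 4 ^ D

/-- The form `a x_0 ^ e x_1 ^ k x_2 ^ l x_4 ^ j + x_1 ^ c + x_2 ^ n + x_4 ^ D +
x_3 (x_0 ^ g + x_3 ^ (m - 1))`. -/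
noncomputable def monForm (e k l j c n D g m : ℕ) (a : ℂ) : MvPolynomial (Fin 5) ℂ :=
  C a * (X 0 ^ e * X 1 ^ k * X 2 ^ l * X 4 ^ j) + X 1 ^ c + X 2 ^ n + X 4 ^ D +
    X 3 * (X 0 ^ g + X 3 ^ (m - 1))

section chain

variable {e c n i m D : ℕ} (v : Fin 5 → ℂ)

lemma chain_d0 : eval v (pderiv 0 (chainForm e c n i m D)) = (e : ℂ) * v 0 ^ (e - 1) * v 1 := by
  rw [chainForm]
  simp [pderiv_X]
  ring

lemma chain_d1 : eval v (pderiv 1 (chainForm e c n i m D)) =
    v 0 ^ e + (c : ℂ) * v 1 ^ (c - 1) := by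
  rw [chainForm]
  simp [pderiv_X]

lemma chain_d2 : eval v (pderiv 2 (chainForm e c n i m D)) =
    (n : ℂ) * v 2 ^ (n - 1) * v 4 ^ i := by
  rw [chainForm]
  simp [pderiv_X]
  ring

lemma chain_d3 : eval v (pderiv 3 (chainForm e c n i m D)) = (m : ℂ) * v 3 ^ (m - 1) := by
  rw [chainForm]
  simp [pderiv_X]

lemma chain_d4 : eval v (pderiv 4 (chainForm e c n i m D)) =
    v 2 ^ n * ((i : ℂ) * v 4 ^ (i - 1)) + (D : ℂ) * v 4 ^ (D - 1) := by
  rw [chainForm]
  simp [pderiv_X]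

lemma eq_zero_of_mul_pow {m : ℕ} (hm : 2 ≤ m) {x : ℂ} (h : (m : ℂ) * x ^ (m - 1) = 0) : x = 0 := by
  have hmC : (m : ℂ) ≠ 0 := by
    rw [Ne, Nat.cast_eq_zero]
    omega
  exact eq_zero_of_pow_eq_zero ((mul_eq_zero.mp h).resolve_left hmC)

/-- the pair `x ^ e y + y ^ c` -/
lemma pair_eq_zero {e c : ℕ} (he : 1 ≤ e) (hc : 2 ≤ c) {x y : ℂ}
    (h0 : (e : ℂ) * x ^ (e - 1) * y = 0) (h1 : x ^ e + (c : ℂ) * y ^ (c - 1) = 0) :
    x = 0 ∧ y = 0 := by
  have hy : y = 0 := by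
    by_contra hy
    have h2 : (e : ℂ) * x ^ (e - 1) = 0 := (mul_eq_zero.mp h0).resolve_right hy
    have heC : (e : ℂ) ≠ 0 := by
      rw [Ne, Nat.cast_eq_zero]
      omega
    have h3 : x ^ (e - 1) = 0 := (mul_eq_zero.mp h2).resolve_left heC
    have h4 : x ^ e = 0 := by
      have : x ^ e = x ^ (e - 1) * x := by
        rw [← pow_succ, Nat.sub_add_cancel he]
      rw [this, h3, zero_mul]
    rw [h4, zero_add] at h1
    exact hy (eq_zero_of_mul_pow hc h1)
  refine ⟨?_, hy⟩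
  rw [hy, zero_pow (by omega), mul_zero, add_zero] at h1
  exact eq_zero_of_pow_eq_zero h1

/-- **The form is quasi-smooth.** -/
theorem chainForm_quasiSmooth (he : 1 ≤ e) (hc : 2 ≤ c) (hm : 2 ≤ m) (hD : 2 ≤ D)
    (hi : (i = 0 ∧ 2 ≤ n) ∨ (i = 1 ∧ 1 ≤ n)) (v : Fin 5 → ℂ)
    (hv : ∀ l, eval v (pderiv l (chainForm e c n i m D)) = 0) : v = 0 := by
  have h0 := hv 0
  have h1 := hv 1
  have h2 := hv 2
  have h3 := hv 3
  have h4 := hv 4
  rw [chain_d0] at h0
  rw [chain_d1] at h1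
  rw [chain_d2] at h2
  rw [chain_d3] at h3
  rw [chain_d4] at h4
  obtain ⟨k0, k1⟩ := pair_eq_zero he hc h0 h1
  have k3 := eq_zero_of_mul_pow hm h3
  have k24 : v 2 = 0 ∧ v 4 = 0 := by
    rcases hi with ⟨rfl, hn⟩ | ⟨rfl, hn⟩
    · rw [pow_zero, mul_one] at h2
      rw [Nat.cast_zero, zero_mul, mul_zero, zero_add] at h4
      exact ⟨eq_zero_of_mul_pow hn h2, eq_zero_of_mul_pow hD h4⟩
    · rw [pow_one] at h2
      have h5 : v 2 ^ n + (D : ℂ) * v 4 ^ (D - 1) = 0 := by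
        simpa using h4
      exact pair_eq_zero hn hD h2 h5
  funext l
  fin_cases l
  · exact k0
  · exact k1
  · exact k24.1
  · exact k3
  · exact k24.2

end chain

section mon

variable {e k l j c n D g m : ℕ} (a : ℂ) (v : Fin 5 → ℂ)

lemma mon_d0 : eval v (pderiv 0 (monForm e k l j c n D g m a)) =
    a * ((e : ℂ) * v 0 ^ (e - 1) * v 1 ^ k * v 2 ^ l * v 4 ^ j) +
      v 3 * ((g : ℂ) * v 0 ^ (g - 1)) := by
  rw [monForm]
  simp [pderiv_X]
  left
  ring

lemma mon_d1 : eval v (pderiv 1 (monForm e k l j c n D g m a)) =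
    a * (v 0 ^ e * ((k : ℂ) * v 1 ^ (k - 1)) * v 2 ^ l * v 4 ^ j) + (c : ℂ) * v 1 ^ (c - 1) := by
  rw [monForm]
  simp [pderiv_X]
  left
  ring

lemma mon_d2 : eval v (pderiv 2 (monForm e k l j c n D g m a)) =
    a * (v 0 ^ e * v 1 ^ k * ((l : ℂ) * v 2 ^ (l - 1)) * v 4 ^ j) + (n : ℂ) * v 2 ^ (n - 1) := by
  rw [monForm]
  simp [pderiv_X]
  left
  ring

lemma mon_d3 : eval v (pderiv 3 (monForm e k l j c n D g m a)) =
    (v 0 ^ g + v 3 ^ (m - 1)) + v 3 * (((m - 1 : ℕ) : ℂ) * v 3 ^ (m - 1 - 1)) := by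
  rw [monForm]
  simp [pderiv_X]
  ring

lemma mon_d4 : eval v (pderiv 4 (monForm e k l j c n D g m a)) =
    a * (v 0 ^ e * v 1 ^ k * v 2 ^ l * ((j : ℂ) * v 4 ^ (j - 1))) + (D : ℂ) * v 4 ^ (D - 1) := by
  rw [monForm]
  simp [pderiv_X]

/-- the coordinate `x`, of which `M` is `b` times the power `k` -/
lemma pow_eq_of_deriv {k c : ℕ} (hc : 1 ≤ c) {x b M : ℂ} (hM : M = b * x ^ k)
    (h : b * ((k : ℂ) * x ^ (k - 1)) + (c : ℂ) * x ^ (c - 1) = 0) :
    x ^ c = -((k : ℂ) / c) * M := by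
  have hcC : (c : ℂ) ≠ 0 := by
    rw [Ne, Nat.cast_eq_zero]
    omega
  have e2 := mul_pow_pred (x := x) hc
  have e3 : (c : ℂ) * x ^ c = -((k : ℂ) * M) := by
    rcases Nat.eq_zero_or_pos k with hk | hk
    · rw [hk, Nat.cast_zero, zero_mul] at h ⊢
      rw [← e2]
      linear_combination x * h
    · have e1 := mul_pow_pred (x := x) hk
      rw [hM, ← e1, ← e2]
      linear_combination x * h
  field_simp
  linear_combination e3

/-- the form has no singular point outside the origin if the coefficient avoids finitely many values -/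
lemma monForm_quasiSmooth_of (he : 1 ≤ e) (hc : 1 ≤ c) (hn : 1 ≤ n) (hD : 1 ≤ D) (hm : 2 ≤ m)
    (hg : 1 ≤ g) (hE : e * (m - 1) * c * n * D + k * g * m * n * D + l * g * m * c * D +
      j * g * m * c * n = g * m * c * n * D)
    (ha : a ^ (g * m * c * n * D) * ((-((m : ℂ) * (-((e : ℂ) / g)) ^ (m - 1))) ^ (e * c * n * D) *
      (-((k : ℂ) / c)) ^ (k * g * m * n * D) * (-((l : ℂ) / n)) ^ (l * g * m * c * D) *
        (-((j : ℂ) / D)) ^ (j * g * m * c * n)) ≠ 1)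
    (hv : ∀ i, eval v (pderiv i (monForm e k l j c n D g m a)) = 0) : v = 0 := by
  have h0 := hv 0
  have h1 := hv 1
  have h2 := hv 2
  have h3 := hv 3
  have h4 := hv 4
  rw [mon_d0] at h0
  rw [mon_d1] at h1
  rw [mon_d2] at h2
  rw [mon_d3] at h3
  rw [mon_d4] at h4
  obtain ⟨M, hM⟩ : ∃ M : ℂ, M = a * (v 0 ^ e * v 1 ^ k * v 2 ^ l * v 4 ^ j) := ⟨_, rfl⟩
  have hgC : (g : ℂ) ≠ 0 := by
    rw [Ne, Nat.cast_eq_zero]
    omega
  have hmC : (m : ℂ) ≠ 0 := by
    rw [Ne, Nat.cast_eq_zero]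
    omega
  have heC : (e : ℂ) ≠ 0 := by
    rw [Ne, Nat.cast_eq_zero]
    omega
  -- the relations
  have r0 : (e : ℂ) * M = -((g : ℂ) * (v 3 * v 0 ^ g)) := by
    have e1 := mul_pow_pred (x := v 0) he
    have e2 := mul_pow_pred (x := v 0) hg
    rw [hM, ← e1, ← e2]
    linear_combination (v 0) * h0
  have r1 : v 1 ^ c = -((k : ℂ) / c) * M :=
    pow_eq_of_deriv hc (b := a * (v 0 ^ e * v 2 ^ l * v 4 ^ j)) (by rw [hM]; ring)
      (by linear_combination h1)
  have r2 : v 2 ^ n = -((l : ℂ) / n) * M :=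
    pow_eq_of_deriv hn (b := a * (v 0 ^ e * v 1 ^ k * v 4 ^ j)) (by rw [hM]; ring)
      (by linear_combination h2)
  have r4 : v 4 ^ D = -((j : ℂ) / D) * M :=
    pow_eq_of_deriv hD (b := a * (v 0 ^ e * v 1 ^ k * v 2 ^ l)) (by rw [hM]; ring)
      (by linear_combination h4)
  have hm1 : ((m - 1 : ℕ) : ℂ) = m - 1 := by
    rw [Nat.cast_sub (by omega), Nat.cast_one]
  have r3 : v 0 ^ g = -((m : ℂ) * v 3 ^ (m - 1)) := by
    have e1 := mul_pow_pred (x := v 3) (show 1 ≤ m - 1 by omega)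
    rw [hm1] at h3
    linear_combination h3 - ((m : ℂ) - 1) * e1
  have r3' : v 3 ^ m = ((e : ℂ) / (g * m)) * M := by
    have e1 := mul_pow_pred (x := v 3) (show 1 ≤ m by omega)
    have e2 : -((g : ℂ) * (v 3 * -((m : ℂ) * v 3 ^ (m - 1)))) = (e : ℂ) * M := by
      rw [← r3]
      exact r0.symm
    rw [← e1]
    field_simp
    linear_combination e2
  by_cases hM0 : M = 0
  · have k1 : v 1 = 0 := by
      rw [hM0, mul_zero] at r1
      exact eq_zero_of_pow_eq_zero r1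
    have k2 : v 2 = 0 := by
      rw [hM0, mul_zero] at r2
      exact eq_zero_of_pow_eq_zero r2
    have k4 : v 4 = 0 := by
      rw [hM0, mul_zero] at r4
      exact eq_zero_of_pow_eq_zero r4
    have k3 : v 3 = 0 := by
      rw [hM0, mul_zero] at r3'
      exact eq_zero_of_pow_eq_zero r3'
    have k0 : v 0 = 0 := by
      rw [k3, zero_pow (by omega), mul_zero, neg_zero] at r3
      exact eq_zero_of_pow_eq_zero r3
    funext i
    fin_cases i
    · exact k0
    · exact k1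
    · exact k2
    · exact k3
    · exact k4
  · exfalso
    have r0' : (v 0 ^ g) ^ m = -((m : ℂ) * (-((e : ℂ) / g)) ^ (m - 1)) * M ^ (m - 1) := by
      have e1 : v 3 * v 0 ^ g = -((e : ℂ) / g) * M := by
        field_simp
        linear_combination r0
      have e2 : (v 3 * v 0 ^ g) ^ (m - 1) * v 0 ^ g =
          -((m : ℂ) * v 3 ^ (m - 1)) * (v 3 * v 0 ^ g) ^ (m - 1) := by
        rw [mul_comm]
        congr 1
      have k3 : v 3 ≠ 0 := by
        intro h
        rw [h, zero_mul, mul_zero, neg_zero] at r0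
        rcases mul_eq_zero.mp r0 with h5 | h5
        · exact heC h5
        · exact hM0 h5
      have e3 : v 3 ^ (m - 1) * (v 0 ^ g) ^ m =
          v 3 ^ (m - 1) * (-((m : ℂ) * (-((e : ℂ) / g)) ^ (m - 1)) * M ^ (m - 1)) := by
        have e4 : (v 0 ^ g) ^ m = (v 0 ^ g) ^ (m - 1) * v 0 ^ g := by
          rw [← pow_succ, Nat.sub_add_cancel (by omega)]
        rw [e4, ← mul_assoc, ← mul_pow, e2, e1, mul_pow]
        ring
      exact mul_left_cancel₀ (pow_ne_zero _ k3) e3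
    apply ha
    set A0 := -((m : ℂ) * (-((e : ℂ) / g)) ^ (m - 1)) with hA0
    set A1 := -((k : ℂ) / c) with hA1
    set A2 := -((l : ℂ) / n) with hA2
    set A4 := -((j : ℂ) / D) with hA4
    have key : M ^ (g * m * c * n * D) = a ^ (g * m * c * n * D) *
        (A0 ^ (e * c * n * D) * A1 ^ (k * g * m * n * D) * A2 ^ (l * g * m * c * D) *
          A4 ^ (j * g * m * c * n)) * M ^ (g * m * c * n * D) := by
      have e0 : (v 0 ^ e) ^ (g * m * c * n * D) = (A0 * M ^ (m - 1)) ^ (e * c * n * D) := by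
        rw [← r0', ← pow_mul, ← pow_mul, ← pow_mul]
        congr 1
        ring
      have e1 : (v 1 ^ k) ^ (g * m * c * n * D) = (A1 * M) ^ (k * g * m * n * D) := by
        rw [← r1, ← pow_mul, ← pow_mul]
        congr 1
        ring
      have e2 : (v 2 ^ l) ^ (g * m * c * n * D) = (A2 * M) ^ (l * g * m * c * D) := by
        rw [← r2, ← pow_mul, ← pow_mul]
        congr 1
        ring
      have e4 : (v 4 ^ j) ^ (g * m * c * n * D) = (A4 * M) ^ (j * g * m * c * n) := by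
        rw [← r4, ← pow_mul, ← pow_mul]
        congr 1
        ring
      have e3 : M ^ (g * m * c * n * D) = M ^ ((m - 1) * (e * c * n * D)) *
          M ^ (k * g * m * n * D) * M ^ (l * g * m * c * D) * M ^ (j * g * m * c * n) := by
        rw [← pow_add, ← pow_add, ← pow_add]
        congr 1
        rw [← hE]
        ring
      conv_lhs => rw [hM]
      rw [mul_pow, mul_pow, mul_pow, mul_pow, e0, e1, e2, e4, e3, mul_pow, mul_pow, mul_pow,
        mul_pow, ← pow_mul]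
      ring
    have h5 : M ^ (g * m * c * n * D) ≠ 0 := pow_ne_zero _ hM0
    have h6 := key
    nth_rewrite 1 [← one_mul (M ^ (g * m * c * n * D))] at h6
    exact (mul_right_cancel₀ h5 h6).symm

end mon

/-- There is a coefficient for which the form has no singular point outside the origin. -/
theorem exists_monForm_quasiSmooth {e k l j c n D g m : ℕ} (he : 1 ≤ e) (hc : 1 ≤ c) (hn : 1 ≤ n)
    (hD : 1 ≤ D) (hm : 2 ≤ m) (hg : 1 ≤ g)
    (hE : e * (m - 1) * c * n * D + k * g * m * n * D + l * g * m * c * D +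
      j * g * m * c * n = g * m * c * n * D) : ∃ a : ℂ, a ≠ 0 ∧
        QuasiSmooth (monForm e k l j c n D g m a) := by
  set K : ℂ := (-((m : ℂ) * (-((e : ℂ) / g)) ^ (m - 1))) ^ (e * c * n * D) *
      (-((k : ℂ) / c)) ^ (k * g * m * n * D) * (-((l : ℂ) / n)) ^ (l * g * m * c * D) *
        (-((j : ℂ) / D)) ^ (j * g * m * c * n) with hK
  by_cases h1 : K = 1
  · refine ⟨2, two_ne_zero, fun v hv =>
      monForm_quasiSmooth_of 2 v he hc hn hD hm hg hE ?_ hv⟩
    rw [← hK, h1, mul_one]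
    intro h2
    have hpos : 1 ≤ g * m * c * n * D :=
      Nat.mul_pos (Nat.mul_pos (Nat.mul_pos (Nat.mul_pos hg (by omega)) hc) hn) hD
    have h3 : ((2 ^ (g * m * c * n * D) : ℕ) : ℂ) = ((1 : ℕ) : ℂ) := by
      push_cast
      exact h2
    have h4 := Nat.cast_injective h3
    have h5 := Nat.one_lt_two_pow (n := g * m * c * n * D) (by omega)
    omega
  · refine ⟨1, one_ne_zero, fun v hv =>
      monForm_quasiSmooth_of 1 v he hc hn hD hm hg hE ?_ hv⟩
    rw [← hK, one_pow, one_mul]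
    exact h1

end Pool.Agent.RCH.Mn
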