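import Pool.Agent.RCH.MnEx
import Pool.Agent.RCH.MnDefs

/-!
# The examples as data
-/

set_option autoImplicit false

open MvPolynomial

namespace Pool.Agent.RCH.Mn

section tools

variable {σ : Type} {w : σ → ℕ}

lemma hom_X_pow (i : σ) (n : ℕ) : IsWeightedHomogeneous w (X i ^ n : MvPolynomial σ ℂ) (n * w i) := by
  have := (isWeightedHomogeneous_X ℂ w i).pow n
  rwa [smul_eq_mul] at this

lemma hom_of_eq {f : MvPolynomial σ ℂ} {d d' : ℕ} (e : d = d')
    (h : IsWeightedHomogeneous w f d) : IsWeightedHomogeneous w f d' := e ▸ h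

/-- a polynomial is relatively prime to a power of a variable if it is not zero for the value zero of
the variable -/
lemma isRelPrime_X_pow {i : σ} {B : MvPolynomial σ ℂ} (hB : ¬ (X i : MvPolynomial σ ℂ) ∣ B) (k : ℕ) :
    IsRelPrime (X i ^ k) B := by
  refine IsRelPrime.pow_left ?_
  exact (X_prime (i := i)).irreducible.isRelPrime_iff_not_dvd.2 hB

end tools

section chain

variable {N p q w r e d c n i m D : ℕ}

lemma chain_hom (h0 : e * N + p = d) (h1 : c * p = d) (h2 : n * q + i * r = d) (h3 : m * w = d)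
    (h4 : D * r = d) : IsWeightedHomogeneous ![N, p, q, w, r] (chainForm e c n i m D) d := by
  have t0 : IsWeightedHomogeneous ![N, p, q, w, r]
      (X 0 ^ e * X 1 : MvPolynomial (Fin 5) ℂ) d :=
    hom_of_eq h0 ((hom_X_pow 0 e).mul (isWeightedHomogeneous_X ℂ _ 1))
  have t1 : IsWeightedHomogeneous ![N, p, q, w, r] (X 1 ^ c : MvPolynomial (Fin 5) ℂ) d :=
    hom_of_eq h1 (hom_X_pow 1 c)
  have t2 : IsWeightedHomogeneous ![N, p, q, w, r]
      (X 2 ^ n * X 4 ^ i : MvPolynomial (Fin 5) ℂ) d :=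
    hom_of_eq h2 ((hom_X_pow 2 n).mul (hom_X_pow 4 i))
  have t3 : IsWeightedHomogeneous ![N, p, q, w, r] (X 3 ^ m : MvPolynomial (Fin 5) ℂ) d :=
    hom_of_eq h3 (hom_X_pow 3 m)
  have t4 : IsWeightedHomogeneous ![N, p, q, w, r] (X 4 ^ D : MvPolynomial (Fin 5) ℂ) d :=
    hom_of_eq h4 (hom_X_pow 4 D)
  exact (((t0.add t1).add t2).add t3).add t4

lemma chain_monic (hn : 1 ≤ n) (hc : 1 ≤ c) (hm : 1 ≤ m) (he : 1 ≤ e) :
    coeff (Finsupp.single 4 D) (chainForm e c n i m D) ≠ 0 := by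
  classical
  have h : coeff (Finsupp.single 4 D) (chainForm e c n i m D) = 1 := by
    have hne : ∀ (l : Fin 5) (a : ℕ), l ≠ 4 → 1 ≤ a → Finsupp.single l a ≠ Finsupp.single 4 D := by
      intro l a hl ha h
      have h1 := DFunLike.congr_fun h l
      rw [Finsupp.single_eq_same, Finsupp.single_apply, if_neg (Ne.symm hl)] at h1
      omega
    have hne2 : ∀ (l l' : Fin 5) (a b : ℕ), l ≠ 4 → l' ≠ l → 1 ≤ a →
        Finsupp.single l a + Finsupp.single l' b ≠ Finsupp.single 4 D := by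
      intro l l' a b hl hl' ha h
      have h1 := DFunLike.congr_fun h l
      rw [Finsupp.add_apply, Finsupp.single_eq_same, Finsupp.single_apply, if_neg hl',
        Finsupp.single_apply, if_neg (Ne.symm hl)] at h1
      omega
    have e0 : (X 0 ^ e * X 1 : MvPolynomial (Fin 5) ℂ) =
        monomial (Finsupp.single 0 e + Finsupp.single 1 1) 1 := by
      rw [X_pow_eq_monomial, X, monomial_mul, one_mul]
    have e2 : (X 2 ^ n * X 4 ^ i : MvPolynomial (Fin 5) ℂ) =
        monomial (Finsupp.single 2 n + Finsupp.single 4 i) 1 := by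
      rw [X_pow_eq_monomial, X_pow_eq_monomial, monomial_mul, one_mul]
    rw [chainForm, e0, e2, coeff_add, coeff_add, coeff_add, coeff_add, X_pow_eq_monomial,
      X_pow_eq_monomial, X_pow_eq_monomial, coeff_monomial, coeff_monomial, coeff_monomial,
      coeff_monomial, coeff_monomial, if_pos rfl, if_neg (hne2 0 1 e 1 (by decide) (by decide) he),
      if_neg (hne 1 c (by decide) hc), if_neg (hne2 2 4 n i (by decide) (by decide) hn),
      if_neg (hne 3 m (by decide) hm)]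
    ring
  rw [h]
  exact one_ne_zero

/-- the part of the form which does not involve `x_0`, `x_3` -/
noncomputable def chainB (c n i D : ℕ) : MvPolynomial (Fin 3) ℂ :=
  X 0 ^ c + X 1 ^ n * X 2 ^ i + X 2 ^ D

lemma chain_shape (hm : 1 ≤ m) : chainForm e c n i m D -
    (X 0 ^ e * rename ![1, 2, 4] (X 0 : MvPolynomial (Fin 3) ℂ) +
      rename ![1, 2, 4] (chainB c n i D)) ∈ Ideal.span {(X 3 : MvPolynomial (Fin 5) ℂ)} := by
  have h : chainForm e c n i m D -
      (X 0 ^ e * rename ![1, 2, 4] (X 0 : MvPolynomial (Fin 3) ℂ) +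
        rename ![1, 2, 4] (chainB c n i D)) = X 3 * X 3 ^ (m - 1) := by
    rw [chainForm, chainB]
    simp only [map_add, map_mul, map_pow, rename_X]
    have e1 : (![1, 2, 4] : Fin 3 → Fin 5) 0 = 1 := rfl
    have e2 : (![1, 2, 4] : Fin 3 → Fin 5) 1 = 2 := rfl
    have e3 : (![1, 2, 4] : Fin 3 → Fin 5) 2 = 4 := rfl
    rw [e1, e2, e3, ← pow_succ', Nat.sub_add_cancel hm]
    ring
  rw [h]
  exact Ideal.mul_mem_right _ _ (Ideal.mem_span_singleton_self _)

lemma chainB_hom (h1 : c * p = d) (h2 : n * q + i * r = d) (h4 : D * r = d) :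
    IsWeightedHomogeneous ![p, q, r] (chainB c n i D) d := by
  have t1 : IsWeightedHomogeneous ![p, q, r] (X 0 ^ c : MvPolynomial (Fin 3) ℂ) d :=
    hom_of_eq h1 (hom_X_pow 0 c)
  have t2 : IsWeightedHomogeneous ![p, q, r] (X 1 ^ n * X 2 ^ i : MvPolynomial (Fin 3) ℂ) d :=
    hom_of_eq h2 ((hom_X_pow 1 n).mul (hom_X_pow 2 i))
  have t3 : IsWeightedHomogeneous ![p, q, r] (X 2 ^ D : MvPolynomial (Fin 3) ℂ) d :=
    hom_of_eq h4 (hom_X_pow 2 D)
  exact (t1.add t2).add t3

lemma chain_cop (hc : 1 ≤ c) : IsRelPrime (X 0 : MvPolynomial (Fin 3) ℂ)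
    (chainB c n i D) := by
  rw [← pow_one (X 0 : MvPolynomial (Fin 3) ℂ)]
  refine isRelPrime_X_pow ?_ 1
  rintro ⟨g, hg⟩
  -- the value at `(0, 1, 2)`
  have h1 := congrArg (eval (![0, 1, 2] : Fin 3 → ℂ)) hg
  rw [chainB, map_add, map_add, map_mul, map_mul, map_pow, map_pow, map_pow, map_pow, eval_X,
    eval_X, eval_X] at h1
  have e0 : (![0, 1, 2] : Fin 3 → ℂ) 0 = 0 := rfl
  have e1 : (![0, 1, 2] : Fin 3 → ℂ) 1 = 1 := rfl
  have e2 : (![0, 1, 2] : Fin 3 → ℂ) 2 = 2 := rfl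
  rw [e0, e1, e2, zero_mul, zero_pow (by omega), one_pow, one_mul, zero_add] at h1
  have h2 : ((2 ^ i + 2 ^ D : ℕ) : ℂ) = 0 := by
    push_cast
    exact h1
  rw [Nat.cast_eq_zero] at h2
  have h3 : 1 ≤ 2 ^ i := Nat.one_le_two_pow
  have h4 : 1 ≤ 2 ^ D := Nat.one_le_two_pow
  omega

lemma X0_mem : (X 0 : MvPolynomial (Fin 3) ℂ) ∈ Ideal.span {(X 0 : MvPolynomial (Fin 3) ℂ), X 1} :=
  Ideal.subset_span (by simp)

end chain

section mon

variable {N p q w r e k l j d c n D g m : ℕ} {a : ℂ}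

lemma mon_hom (h0 : e * N + k * p + l * q + j * r = d) (h1 : c * p = d) (h2 : n * q = d)
    (h4 : D * r = d) (h3 : m * w = d) (h5 : g * N + w = d) (hm : 1 ≤ m) :
    IsWeightedHomogeneous ![N, p, q, w, r] (monForm e k l j c n D g m a) d := by
  have t0 : IsWeightedHomogeneous ![N, p, q, w, r]
      (C a * (X 0 ^ e * X 1 ^ k * X 2 ^ l * X 4 ^ j) : MvPolynomial (Fin 5) ℂ) d := by
    have h := (isWeightedHomogeneous_C (![N, p, q, w, r] : Fin 5 → ℕ) a).mul
      ((((hom_X_pow (w := ![N, p, q, w, r]) 0 e).mul (hom_X_pow 1 k)).mul (hom_X_pow 2 l)).mul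
        (hom_X_pow 4 j))
    rw [zero_add] at h
    exact hom_of_eq h0 h
  have t1 : IsWeightedHomogeneous ![N, p, q, w, r] (X 1 ^ c : MvPolynomial (Fin 5) ℂ) d :=
    hom_of_eq h1 (hom_X_pow 1 c)
  have t2 : IsWeightedHomogeneous ![N, p, q, w, r] (X 2 ^ n : MvPolynomial (Fin 5) ℂ) d :=
    hom_of_eq h2 (hom_X_pow 2 n)
  have t4 : IsWeightedHomogeneous ![N, p, q, w, r] (X 4 ^ D : MvPolynomial (Fin 5) ℂ) d :=
    hom_of_eq h4 (hom_X_pow 4 D)
  have t3 : IsWeightedHomogeneous ![N, p, q, w, r]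
      (X 3 * (X 0 ^ g + X 3 ^ (m - 1)) : MvPolynomial (Fin 5) ℂ) d := by
    have s1 : IsWeightedHomogeneous ![N, p, q, w, r]
        (X 3 * X 0 ^ g : MvPolynomial (Fin 5) ℂ) d :=
      hom_of_eq (by rw [← h5, add_comm]; rfl) ((isWeightedHomogeneous_X ℂ _ 3).mul (hom_X_pow 0 g))
    have s2 : IsWeightedHomogeneous ![N, p, q, w, r]
        (X 3 * X 3 ^ (m - 1) : MvPolynomial (Fin 5) ℂ) d := by
      rw [← pow_succ', Nat.sub_add_cancel hm]
      exact hom_of_eq h3 (hom_X_pow 3 m)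
    rw [mul_add]
    exact s1.add s2
  exact (((t0.add t1).add t2).add t4).add t3

lemma mon_monic (hk : 1 ≤ k + l) (hn : 1 ≤ n) (hc : 1 ≤ c) :
    coeff (Finsupp.single 4 D) (monForm e k l j c n D g m a) ≠ 0 := by
  classical
  have h : coeff (Finsupp.single 4 D) (monForm e k l j c n D g m a) = 1 := by
    have hne : ∀ (l : Fin 5) (a : ℕ), l ≠ 4 → 1 ≤ a → Finsupp.single l a ≠ Finsupp.single 4 D := by
      intro l a hl ha h
      have h1 := DFunLike.congr_fun h l
      rw [Finsupp.single_eq_same, Finsupp.single_apply, if_neg (Ne.symm hl)] at h1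
      omega
    have e0 : (C a * (X 0 ^ e * X 1 ^ k * X 2 ^ l * X 4 ^ j) : MvPolynomial (Fin 5) ℂ) =
        monomial (Finsupp.single 0 e + Finsupp.single 1 k + Finsupp.single 2 l +
          Finsupp.single 4 j) a := by
      rw [X_pow_eq_monomial, X_pow_eq_monomial, X_pow_eq_monomial, X_pow_eq_monomial,
        monomial_mul, monomial_mul, monomial_mul, C_mul_monomial]
      simp
    have n0 : Finsupp.single (0 : Fin 5) e + Finsupp.single 1 k + Finsupp.single 2 l +
          Finsupp.single 4 j ≠ Finsupp.single 4 D := by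
      intro h
      have h1 := DFunLike.congr_fun h 1
      have h2 := DFunLike.congr_fun h 2
      simp at h1 h2
      omega
    have e3 : (X 3 * (X 0 ^ g + X 3 ^ (m - 1)) : MvPolynomial (Fin 5) ℂ) =
        monomial (Finsupp.single 3 1 + Finsupp.single 0 g) 1 +
          monomial (Finsupp.single 3 1 + Finsupp.single 3 (m - 1)) 1 := by
      rw [mul_add, X_pow_eq_monomial, X_pow_eq_monomial, X, monomial_mul, monomial_mul, one_mul]
    have n3 : ∀ (l : Fin 5) (b : ℕ),
        Finsupp.single (3 : Fin 5) 1 + Finsupp.single l b ≠ Finsupp.single 4 D := by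
      intro l b h
      have h1 := DFunLike.congr_fun h 3
      rw [Finsupp.add_apply, Finsupp.single_eq_same, Finsupp.single_apply (a := (4 : Fin 5)),
        if_neg (by decide)] at h1
      omega
    rw [monForm, e0, e3, coeff_add, coeff_add, coeff_add, coeff_add, coeff_add,
      X_pow_eq_monomial, X_pow_eq_monomial, X_pow_eq_monomial, coeff_monomial, coeff_monomial,
      coeff_monomial, coeff_monomial, coeff_monomial, coeff_monomial, if_neg n0,
      if_neg (hne 1 c (by decide) hc), if_neg (hne 2 n (by decide) hn), if_pos rfl,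
      if_neg (n3 _ _), if_neg (n3 _ _)]
    ring
  rw [h]
  exact one_ne_zero

/-- the coefficient of `x_0 ^ e` -/
noncomputable def monA (k l j : ℕ) (a : ℂ) : MvPolynomial (Fin 3) ℂ :=
  C a * (X 0 ^ k * X 1 ^ l * X 2 ^ j)

lemma mon_shape : monForm e k l j c n D g m a -
    (X 0 ^ e * rename ![1, 2, 4] (monA k l j a) +
      rename ![1, 2, 4] (chainB c n 0 D)) ∈ Ideal.span {(X 3 : MvPolynomial (Fin 5) ℂ)} := by
  have h : monForm e k l j c n D g m a -
      (X 0 ^ e * rename ![1, 2, 4] (monA k l j a) +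
        rename ![1, 2, 4] (chainB c n 0 D)) = X 3 * (X 0 ^ g + X 3 ^ (m - 1)) := by
    rw [monForm, chainB, monA]
    simp only [map_add, map_mul, map_pow, rename_X, rename_C]
    have e1 : (![1, 2, 4] : Fin 3 → Fin 5) 0 = 1 := rfl
    have e2 : (![1, 2, 4] : Fin 3 → Fin 5) 1 = 2 := rfl
    have e3 : (![1, 2, 4] : Fin 3 → Fin 5) 2 = 4 := rfl
    rw [e1, e2, e3]
    ring
  rw [h]
  exact Ideal.mul_mem_right _ _ (Ideal.mem_span_singleton_self _)

lemma monA_hom {κ : ℕ} (h : k * p + l * q + j * r = κ) :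
    IsWeightedHomogeneous ![p, q, r] (monA k l j a) κ := by
  have h1 := (isWeightedHomogeneous_C (![p, q, r] : Fin 3 → ℕ) a).mul
    (((hom_X_pow (w := ![p, q, r]) 0 k).mul (hom_X_pow 1 l)).mul (hom_X_pow 2 j))
  rw [zero_add] at h1
  exact hom_of_eq h h1

lemma monA_ne (ha : a ≠ 0) : monA k l j a ≠ 0 := by
  refine mul_ne_zero (by rwa [Ne, C_eq_zero]) ?_
  exact mul_ne_zero (mul_ne_zero (pow_ne_zero _ (X_ne_zero 0)) (pow_ne_zero _ (X_ne_zero 1)))
    (pow_ne_zero _ (X_ne_zero 2))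

lemma monA_mem (hk : 1 ≤ k + l) :
    monA k l j a ∈ Ideal.span {(X 0 : MvPolynomial (Fin 3) ℂ), X 1} := by
  have h0 : (X 0 : MvPolynomial (Fin 3) ℂ) ∈ Ideal.span {(X 0 : MvPolynomial (Fin 3) ℂ), X 1} :=
    Ideal.subset_span (by simp)
  have h1 : (X 1 : MvPolynomial (Fin 3) ℂ) ∈ Ideal.span {(X 0 : MvPolynomial (Fin 3) ℂ), X 1} :=
    Ideal.subset_span (by simp)
  refine Ideal.mul_mem_left _ _ (Ideal.mul_mem_right _ _ ?_)
  rcases Nat.eq_zero_or_pos k with hk0 | hk0
  · refine Ideal.mul_mem_left _ _ ?_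
    have hl : 1 ≤ l := by omega
    rw [← Nat.sub_add_cancel hl, pow_succ']
    exact Ideal.mul_mem_right _ _ h1
  · refine Ideal.mul_mem_right _ _ ?_
    have hk1 : 1 ≤ k := hk0
    rw [← Nat.sub_add_cancel hk1, pow_succ']
    exact Ideal.mul_mem_right _ _ h0

lemma mon_cop (ha : a ≠ 0) (hc : 1 ≤ c) (hn : 1 ≤ n) (hD : 1 ≤ D) :
    IsRelPrime (monA k l j a) (chainB c n 0 D) := by
  have key : ∀ i : Fin 3, ¬ (X i : MvPolynomial (Fin 3) ℂ) ∣ chainB c n 0 D := by
    rintro i ⟨g, hg⟩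
    have hval : ∀ x : Fin 3 → ℂ, x i = 0 → x 0 ^ c + x 1 ^ n + x 2 ^ D = 0 := by
      intro x hx
      have h1 := congrArg (eval x) hg
      rw [chainB, map_mul, eval_X, hx, zero_mul] at h1
      simpa using h1
    fin_cases i
    · have h := hval ![0, 1, 0] rfl
      simp at h
      rw [zero_pow (by omega), zero_pow (by omega)] at h
      norm_num at h
    · have h := hval ![1, 0, 0] rfl
      simp at h
      rw [zero_pow (by omega), zero_pow (by omega)] at h
      norm_num at h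
    · have h := hval ![1, 0, 0] rfl
      simp at h
      rw [zero_pow (by omega), zero_pow (by omega)] at h
      norm_num at h
  unfold monA
  refine IsRelPrime.mul_left ?_ (IsRelPrime.mul_left (IsRelPrime.mul_left
    (isRelPrime_X_pow (key 0) k) (isRelPrime_X_pow (key 1) l)) (isRelPrime_X_pow (key 2) j))
  exact IsUnit.isRelPrime_left ((isUnit_iff_ne_zero.2 ha).map C)

end mon

end Pool.Agent.RCH.Mn
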