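import Pool.Agent.RCH.MnEx2
import Pool.Agent.RCH.MnTwo

/-!
# Points of weighted lines
-/

set_option autoImplicit false

open MvPolynomial

namespace Pool.Agent.RCH.Mn

section scale

/-- two numbers with the same power of exponent `q'` differ by the power `r` of a root of unity of
order `q`, for `q = g q'`, `r = g r'` and `q'`, `r'` relatively prime -/
lemma exists_scale {g q' r' : ℕ} (hg : 0 < g) (hq : 0 < q') (hc : q'.Coprime r') {x x' : ℂ}
    (h : x ^ q' = x' ^ q') : ∃ l : ℂ, l ≠ 0 ∧ l ^ (g * q') = 1 ∧ x' = l ^ (g * r') * x := by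
  rcases eq_or_ne x 0 with hx | hx
  · refine ⟨1, one_ne_zero, one_pow _, ?_⟩
    rw [hx, zero_pow hq.ne'] at h
    rw [hx, mul_zero]
    exact (pow_eq_zero_iff hq.ne').1 h.symm
  · have hx' : x' ≠ 0 := by
      rintro rfl
      rw [zero_pow hq.ne'] at h
      exact hx ((pow_eq_zero_iff hq.ne').1 h)
    set z : ℂ := x' / x with hz
    have hz0 : z ≠ 0 := div_ne_zero hx' hx
    have hzq : z ^ q' = 1 := by
      rw [hz, div_pow, ← h, div_self (pow_ne_zero _ hx)]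
    set m : ℂ := z ^ (q'.gcdB r' : ℤ) with hm
    have hmr : m ^ r' = z := by
      have h1 : ((1 : ℕ) : ℤ) = q' * q'.gcdA r' + r' * q'.gcdB r' := by
        have := Nat.gcd_eq_gcd_ab q' r'
        rwa [hc.gcd_eq_one] at this
      have h2 : z ^ (1 : ℤ) = m ^ r' := by
        rw [Nat.cast_one] at h1
        rw [h1, zpow_add₀ hz0, zpow_mul, zpow_natCast, hzq, one_zpow, one_mul, hm,
          ← zpow_natCast, ← zpow_mul, mul_comm (r' : ℤ)]
      rw [← h2, zpow_one]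
    have hmq : m ^ q' = 1 := by
      rw [hm, ← zpow_natCast, ← zpow_mul, mul_comm, zpow_mul, zpow_natCast, hzq, one_zpow]
    obtain ⟨l, hl⟩ := IsAlgClosed.exists_pow_nat_eq m hg
    have hm0 : m ≠ 0 := zpow_ne_zero _ hz0
    refine ⟨l, ?_, ?_, ?_⟩
    · rintro rfl
      rw [zero_pow hg.ne'] at hl
      exact hm0 hl.symm
    · rw [pow_mul, hl, hmq]
    · rw [pow_mul, hl, hmr, hz, div_mul_cancel₀ _ hx]

/-- points of a weighted line, the first coordinate of which is not zero, are equal if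
`y ^ q' / t ^ r'` takes the same value -/
lemma exists_scale2 {g q' r' : ℕ} (hg : 0 < g) (hq : 0 < q') (hc : q'.Coprime r')
    {t y t' y' : ℂ} (ht : t ≠ 0) (ht' : t' ≠ 0) (h : y ^ q' * t' ^ r' = y' ^ q' * t ^ r') :
    ∃ l : ℂ, l ≠ 0 ∧ t' = l ^ (g * q') * t ∧ y' = l ^ (g * r') * y := by
  obtain ⟨m, hm⟩ := IsAlgClosed.exists_pow_nat_eq (t' / t) (Nat.mul_pos hg hq)
  have hm0 : m ≠ 0 := by
    rintro rfl
    rw [zero_pow (Nat.mul_pos hg hq).ne'] at hm
    exact div_ne_zero ht' ht hm.symm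
  have h1 : (m ^ (g * r') * y) ^ q' = y' ^ q' := by
    have h2 : (m ^ (g * r')) ^ q' = (t' / t) ^ r' := by
      rw [← hm, ← pow_mul, ← pow_mul]
      congr 1
      ring
    rw [mul_pow, h2, div_pow, div_mul_eq_mul_div, div_eq_iff (pow_ne_zero _ ht), mul_comm, h]
  obtain ⟨l, hl, hl1, hl2⟩ := exists_scale hg hq hc h1
  refine ⟨l * m, mul_ne_zero hl hm0, ?_, ?_⟩
  · rw [mul_pow, hl1, one_mul, hm, div_mul_cancel₀ _ ht]
  · rw [hl2, mul_pow, mul_assoc]

/-- the value of `y ^ q' / t ^ r'` does not change by scaling -/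
lemma scale_inv {g q' r' : ℕ} {l t y t' y' : ℂ} (ht : t' = l ^ (g * q') * t)
    (hy : y' = l ^ (g * r') * y) : y ^ q' * t' ^ r' = y' ^ q' * t ^ r' := by
  rw [ht, hy]
  ring

/-- equal products of weights and exponents -/
lemma weights_of_eq {n D q r : ℕ} (hD : 0 < D) (h : n * q = D * r) (hc : D.Coprime n) :
    ∃ g, q = g * D ∧ r = g * n := by
  have h1 : D ∣ q := hc.dvd_of_dvd_mul_left (Dvd.intro _ h.symm)
  obtain ⟨g, hg⟩ := h1
  refine ⟨g, by rw [hg, mul_comm], ?_⟩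
  rw [hg] at h
  have h2 : D * r = D * (g * n) := by
    rw [← h]
    ring
  exact Nat.eq_of_mul_eq_mul_left hD h2

/-- a square which is the opposite of a square -/
lemma sq_eq_neg {x y : ℂ} (h : x ^ 2 + y ^ 2 = 0) :
    y = Complex.I * x ∨ y = -Complex.I * x := by
  have h1 : (y - Complex.I * x) * (y + Complex.I * x) = 0 := by
    linear_combination h - x ^ 2 * Complex.I_sq
  rcases mul_eq_zero.1 h1 with h2 | h2
  · exact Or.inl (sub_eq_zero.1 h2)
  · right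
    rw [eq_neg_of_add_eq_zero_left h2, neg_mul]

end scale

section points

variable {p g a b c : ℕ}

lemma eval_chainB {n i D : ℕ} (x : Fin 3 → ℂ) :
    eval x (chainB c n i D) = x 0 ^ c + x 1 ^ n * x 2 ^ i + x 2 ^ D := by
  rw [chainB]
  simp

lemma fin3_eq_zero {x : Fin 3 → ℂ} (h0 : x 0 = 0) (h1 : x 1 = 0) (h2 : x 2 = 0) : x = 0 := by
  funext i
  fin_cases i
  · exact h0
  · exact h1
  · exact h2

/-- the points `(0, 1, z)` and `(0, t, y)` are the same if `y ^ a = z ^ a t ^ b` -/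
lemma eqv_of_pow (hg : 0 < g) (ha : 0 < a) (hab : a.Coprime b) {z : ℂ} {x : Fin 3 → ℂ}
    (h0 : x 0 = 0) (h1 : x 1 ≠ 0) (h : z ^ a * x 1 ^ b = x 2 ^ a) :
    Eqv p (g * a) (g * b) ![0, 1, z] x := by
  obtain ⟨l, hl, h2, h3⟩ := exists_scale2 (t := 1) (y := z) (t' := x 1) (y' := x 2) hg ha hab
    one_ne_zero h1 (by rw [one_pow, mul_one, h])
  refine ⟨l, hl, ?_⟩
  funext i
  fin_cases i
  · change x 0 = l ^ p * 0
    rw [h0, mul_zero]
  · exact h2
  · exact h3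

/-- the points `(0, 1, z)` and `(0, 1, z')` are different if `z ^ a ≠ z' ^ a` -/
lemma pow_of_eqv {z z' : ℂ} (h : Eqv p (g * a) (g * b) ![0, 1, z] ![0, 1, z']) :
    z ^ a = z' ^ a := by
  obtain ⟨l, -, h1⟩ := h
  have h2 : (1 : ℂ) = l ^ (g * a) * 1 := congrFun h1 1
  have h3 : z' = l ^ (g * b) * z := congrFun h1 2
  have h4 := scale_inv h2 h3
  rwa [one_pow, mul_one, mul_one] at h4

/-- The common zeros of `x_0` and `x_0 ^ c + x_1 ^ (2 b) + x_2 ^ (2 a)` are two points, for the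
weights `g a` of `x_1` and `g b` of `x_2`, with `a` and `b` relatively prime. -/
theorem points_square (hg : 0 < g) (ha : 0 < a) (hb : 0 < b) (hc : 0 < c) (hab : a.Coprime b) :
    ∃ z z' : ℂ, eval ![0, 1, z] (chainB c (2 * b) 0 (2 * a)) = 0 ∧
      eval ![0, 1, z'] (chainB c (2 * b) 0 (2 * a)) = 0 ∧
      ¬ Eqv p (g * a) (g * b) ![0, 1, z] ![0, 1, z'] ∧
      ∀ x : Fin 3 → ℂ, x ≠ 0 → x 0 = 0 → eval x (chainB c (2 * b) 0 (2 * a)) = 0 →
        Eqv p (g * a) (g * b) ![0, 1, z] x ∨ Eqv p (g * a) (g * b) ![0, 1, z'] x := by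
  obtain ⟨z, hz⟩ := IsAlgClosed.exists_pow_nat_eq Complex.I ha
  obtain ⟨z', hz'⟩ := IsAlgClosed.exists_pow_nat_eq (-Complex.I) ha
  have hev : ∀ x : Fin 3 → ℂ, x 0 = 0 → eval x (chainB c (2 * b) 0 (2 * a)) =
      (x 1 ^ b) ^ 2 + (x 2 ^ a) ^ 2 := by
    intro x hx
    rw [eval_chainB, hx, zero_pow hc.ne', ← pow_mul, ← pow_mul, mul_comm b, mul_comm a]
    ring
  refine ⟨z, z', ?_, ?_, ?_, ?_⟩
  · rw [hev _ rfl]
    change ((1 : ℂ) ^ b) ^ 2 + (z ^ a) ^ 2 = 0
    rw [hz, Complex.I_sq, one_pow, one_pow]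
    norm_num
  · rw [hev _ rfl]
    change ((1 : ℂ) ^ b) ^ 2 + (z' ^ a) ^ 2 = 0
    rw [hz', neg_sq, Complex.I_sq, one_pow, one_pow]
    norm_num
  · intro h
    have h1 := pow_of_eqv h
    rw [hz, hz'] at h1
    have h2 : Complex.I = 0 := by linear_combination h1 / 2
    exact Complex.I_ne_zero h2
  · intro x hx h0 hB
    rw [hev x h0] at hB
    have h1 : x 1 ≠ 0 := by
      intro h1
      rw [h1, zero_pow hb.ne', zero_pow two_ne_zero, zero_add, ← pow_mul] at hB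
      exact hx (fin3_eq_zero h0 h1 (eq_zero_of_pow_eq_zero hB))
    rcases sq_eq_neg hB with h2 | h2
    · left
      exact eqv_of_pow hg ha hab h0 h1 (by rw [hz, h2])
    · right
      exact eqv_of_pow hg ha hab h0 h1 (by rw [hz', h2])

/-- The common zeros of `x_0` and `x_0 ^ c + x_1 ^ b x_2 + x_2 ^ (a + 1)` are two points, for the
weights `g a` of `x_1` and `g b` of `x_2`, with `a` and `b` relatively prime. -/
theorem points_chain (hg : 0 < g) (ha : 0 < a) (hb : 0 < b) (hc : 0 < c) (hab : a.Coprime b) :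
    ∃ z z' : ℂ, eval ![0, 1, z] (chainB c b 1 (a + 1)) = 0 ∧
      eval ![0, 1, z'] (chainB c b 1 (a + 1)) = 0 ∧
      ¬ Eqv p (g * a) (g * b) ![0, 1, z] ![0, 1, z'] ∧
      ∀ x : Fin 3 → ℂ, x ≠ 0 → x 0 = 0 → eval x (chainB c b 1 (a + 1)) = 0 →
        Eqv p (g * a) (g * b) ![0, 1, z] x ∨ Eqv p (g * a) (g * b) ![0, 1, z'] x := by
  obtain ⟨z', hz'⟩ := IsAlgClosed.exists_pow_nat_eq (-1 : ℂ) ha
  have hev : ∀ x : Fin 3 → ℂ, x 0 = 0 → eval x (chainB c b 1 (a + 1)) =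
      x 2 * (x 1 ^ b + x 2 ^ a) := by
    intro x hx
    rw [eval_chainB, hx, zero_pow hc.ne']
    ring
  refine ⟨0, z', ?_, ?_, ?_, ?_⟩
  · rw [hev _ rfl]
    change (0 : ℂ) * _ = 0
    rw [zero_mul]
  · rw [hev _ rfl]
    change z' * ((1 : ℂ) ^ b + z' ^ a) = 0
    rw [hz', one_pow, add_neg_cancel, mul_zero]
  · intro h
    have h1 := pow_of_eqv h
    rw [zero_pow ha.ne', hz'] at h1
    norm_num at h1
  · intro x hx h0 hB
    rw [hev x h0] at hB
    have h1 : x 1 ≠ 0 := by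
      intro h1
      rw [h1, zero_pow hb.ne', zero_add, ← pow_succ'] at hB
      exact hx (fin3_eq_zero h0 h1 (eq_zero_of_pow_eq_zero hB))
    rcases mul_eq_zero.1 hB with h2 | h2
    · left
      exact eqv_of_pow hg ha hab h0 h1 (by rw [h2, zero_pow ha.ne', zero_mul])
    · right
      exact eqv_of_pow hg ha hab h0 h1 (by rw [hz', neg_one_mul]; exact neg_eq_of_add_eq_zero_right h2)

end points

end Pool.Agent.RCH.Mn
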