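import Pool.Agent.RCH.MnEx3
import Pool.Agent.RCH.MnStmt

/-!
# Quasi-smooth members with two cones
-/

set_option autoImplicit false

open MvPolynomial

namespace Pool.Agent.RCH.Mn

open Pool.Agent.RCH.Wdc

section chain

variable {N p q w r e D c n i m : ℕ}

theorem chain_member (h : Weights N p q w r e D p) (he : 1 ≤ e) (hc : 1 ≤ c) (hn : 1 ≤ n)
    (hm : 1 ≤ m) (h1 : c * p = D * r) (h2 : n * q + i * r = D * r) (h3 : m * w = D * r) :
    Member N p q w r e D (X 0) (chainB c n i D) (chainForm e c n i m D) where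
  homog := chain_hom h.hD.symm h1 h2 h3 rfl
  monic := chain_monic hn hc hm he
  shape := chain_shape hm
  ne := X_ne_zero 0
  cop := chain_cop hc
  apex := by rw [eval_X]; rfl

theorem chain_smooth (he : 1 ≤ e) (hc : 2 ≤ c) (hm : 2 ≤ m) (hD : 2 ≤ D)
    (hi : (i = 0 ∧ 2 ≤ n) ∨ (i = 1 ∧ 1 ≤ n)) : QuasiSmooth (chainForm e c n i m D) :=
  chainForm_quasiSmooth he hc hm hD hi

lemma chain_coeff (he : 1 ≤ e) :
    coeff (Finsupp.single 0 e + Finsupp.single 1 1) (chainForm e c n i m D) ≠ 0 := by
  classical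
  have key : ∀ u : Fin 5 →₀ ℕ, u 0 = 0 →
      coeff (Finsupp.single 0 e + Finsupp.single 1 1) (monomial u (1 : ℂ)) = 0 := by
    intro u hu
    rw [coeff_monomial, if_neg]
    intro h
    rw [h, Finsupp.add_apply, Finsupp.single_eq_same] at hu
    omega
  have h0 : (X 0 ^ e * X 1 : MvPolynomial (Fin 5) ℂ) =
      monomial (Finsupp.single 0 e + Finsupp.single 1 1) 1 := by
    rw [X_pow_eq_monomial, X, monomial_mul, one_mul]
  have h1 : (X 2 ^ n * X 4 ^ i : MvPolynomial (Fin 5) ℂ) =
      monomial (Finsupp.single 2 n + Finsupp.single 4 i) 1 := by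
    rw [X_pow_eq_monomial, X_pow_eq_monomial, monomial_mul, one_mul]
  rw [chainForm, h0, h1, X_pow_eq_monomial, X_pow_eq_monomial, X_pow_eq_monomial, coeff_add,
    coeff_add, coeff_add, coeff_add, key (Finsupp.single 1 c) (by simp),
    key (Finsupp.single 2 n + Finsupp.single 4 i) (by simp), key (Finsupp.single 3 m) (by simp),
    key (Finsupp.single 4 D) (by simp), coeff_monomial, if_pos rfl]
  norm_num

lemma vec_ne (z : ℂ) : (![0, 1, z] : Fin 3 → ℂ) ≠ 0 := by
  intro h
  have h1 : (1 : ℂ) = 0 := congrFun h 1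
  exact one_ne_zero h1

end chain

section family

variable {e a b : ℕ}

lemma two_le_mul {a b : ℕ} (ha : 1 ≤ a) (hb : 2 ≤ b) : 4 ≤ (a + 1) * b :=
  le_trans (by norm_num) (Nat.mul_le_mul (show 2 ≤ a + 1 by omega) hb)

/-- The weights `N = (a + 1) b - 1`, `e`, `e a`, `1`, `e b` with `(N, e) = 1` and the degree
`e (a + 1) b`. -/
theorem family_weights (he : 1 ≤ e) (ha : 1 ≤ a) (hb : 2 ≤ b)
    (hN : ((a + 1) * b - 1).Coprime e) :
    Weights ((a + 1) * b - 1) e (e * a) 1 (e * b) e (a + 1) e where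
  hN := by have := two_le_mul ha hb; omega
  hp := he
  hq := Nat.mul_pos he ha
  hw := le_rfl
  hr := Nat.mul_pos he (by omega)
  hep := dvd_rfl
  heq := Dvd.intro _ rfl
  her := Dvd.intro _ rfl
  hNe := hN
  hgcd := by rw [Nat.gcd_one_right, Nat.gcd_one_right, Nat.gcd_one_right]; exact one_dvd _
  hD := by
    have := two_le_mul ha hb
    have h1 : e * ((a + 1) * b - 1) + e = e * ((a + 1) * b) := by
      conv_rhs => rw [← Nat.sub_add_cancel (show 1 ≤ (a + 1) * b by omega)]
      rw [Nat.mul_add, mul_one]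
    rw [h1]
    ring
  hD2 := by omega

theorem family_numerical (he : 1 ≤ e) (ha : 1 ≤ a) (hb : 2 ≤ b) (hab : a.Coprime b)
    (hN : ((a + 1) * b - 1).Coprime e) :
    Numerical ((a + 1) * b - 1) e (e * a) (e * b) e (a + 1) 1 0 where
  mono := by
    intro u i j c h
    have h4 := two_le_mul ha hb
    have hD := (family_weights he ha hb hN).hD
    have hdvd : e ∣ u * ((a + 1) * b - 1) := by
      have h1 : e ∣ u * ((a + 1) * b - 1) + (i * e + j * (e * a) + c * (e * b)) := by
        rw [show u * ((a + 1) * b - 1) + (i * e + j * (e * a) + c * (e * b)) =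
          (a + 1) * (e * b) by rw [← h]; ring]
        exact ⟨(a + 1) * b, by ring⟩
      exact (Nat.dvd_add_left ⟨i + j * a + c * b, by ring⟩).1 h1
    obtain ⟨v, rfl⟩ := hN.symm.dvd_of_dvd_mul_right hdvd
    have h2 : v * ((a + 1) * b - 1) + (i + j * a + c * b) = (a + 1) * b := by
      have h3 : e * (v * ((a + 1) * b - 1) + (i + j * a + c * b)) = e * ((a + 1) * b) := by
        rw [show e * ((a + 1) * b) = (a + 1) * (e * b) by ring, ← h]
        ring
      exact Nat.eq_of_mul_eq_mul_left he h3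
    set M := (a + 1) * b with hM
    rcases Nat.lt_or_ge v 2 with hv | hv
    · rcases Nat.lt_or_ge v 1 with hv0 | hv0
      · left
        rw [show v = 0 by omega, mul_zero]
      · right
        have hv1 : v = 1 := by omega
        subst hv1
        refine ⟨mul_one e, Nat.zero_le _, Or.inl rfl, ?_⟩
        by_contra hcon
        have h5 : i = 0 ∧ j = 0 := by omega
        rw [h5.1, h5.2, one_mul, zero_mul, zero_add, zero_add] at h2
        have h6 : c * b = 1 := by omega
        have h7 := Nat.eq_one_of_mul_eq_one_left h6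
        omega
    · exfalso
      have h5 : 2 * (M - 1) ≤ v * (M - 1) := Nat.mul_le_mul_right _ hv
      omega
  two := by
    have h1 : (e * a).gcd (e * b) = e := by
      rw [Nat.gcd_mul_left, hab.gcd_eq_one, mul_one]
    rw [h1]
    nlinarith [Nat.mul_le_mul he ha]
  one := Or.inl rfl

/-- In each of these families there is a quasi-smooth member with two cones which are different. -/
theorem family_member (he : 1 ≤ e) (ha : 1 ≤ a) (hb : 2 ≤ b) (hab : a.Coprime b)
    (hN : ((a + 1) * b - 1).Coprime e) :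
    ∃ (B : MvPolynomial (Fin 3) ℂ) (F : MvPolynomial (Fin 5) ℂ), QuasiSmooth F ∧
      Member ((a + 1) * b - 1) e (e * a) 1 (e * b) e (a + 1) (X 0) B F ∧
      coeff (Finsupp.single 0 e + Finsupp.single 1 1) F ≠ 0 ∧
      TwoPoints e (e * a) (e * b) (X 0) B ∧ Inequivalent e (e * a) (e * b) (X 0) B := by
  have h4 := two_le_mul ha hb
  have hW := family_weights he ha hb hN
  have hm : 2 ≤ (a + 1) * (e * b) := by
    rw [show (a + 1) * (e * b) = e * ((a + 1) * b) by ring]
    nlinarith
  obtain ⟨z, z', hz, hz', hne, hall⟩ := points_chain (p := e) (c := (a + 1) * b) he ha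
    (show 0 < b by omega) (show 0 < (a + 1) * b by omega) hab
  refine ⟨chainB ((a + 1) * b) b 1 (a + 1),
    chainForm e ((a + 1) * b) b 1 ((a + 1) * (e * b)) (a + 1),
    chain_smooth he (by omega) hm (by omega) (Or.inr ⟨rfl, by omega⟩),
    chain_member hW he (by omega) (by omega) (by omega) (by ring) (by ring) (mul_one _), ?_,
    ⟨![0, 1, z], ![0, 1, z'], fun x hx h0 hB => ?_⟩,
    ⟨![0, 1, z], ![0, 1, z'], vec_ne z, vec_ne z', ?_, hz, ?_, hz', hne⟩⟩
  · exact chain_coeff he
  · rw [eval_X] at h0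
    rcases hall x hx h0 hB with h | h
    · exact Or.inl h
    · exact Or.inr (Or.inl h)
  · rw [eval_X]; rfl
  · rw [eval_X]; rfl

end family

end Pool.Agent.RCH.Mn
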