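import Pool.Agent.RCH.MnEx4
import Pool.Agent.RCH.WdEx

/-!
# Smooth members: double covers of `ℙ³`
-/

set_option autoImplicit false

open MvPolynomial

namespace Pool.Agent.RCH.Mn

open Pool.Agent.RCH.Wdc

lemma smoothForm_rename (m : ℕ) : smoothForm m = X 4 ^ 2 - rename Fin.castSucc
    (weightedBranch (2 * m - 1) 1 (X 0 ^ (2 * m) + X 1 ^ (2 * m))
      (X 0 ^ (2 * m - 1) + X 3 ^ (2 * m - 1))) := by
  rw [smoothForm, weightedBranch]
  simp only [map_add, map_mul, map_pow, rename_X, pow_one, Matrix.cons_val_zero,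
    Matrix.cons_val_one]
  have e1 : Fin.castSucc (1 : Fin 4) = 1 := rfl
  have e2 : Fin.castSucc (2 : Fin 4) = 2 := rfl
  have e3 : Fin.castSucc (0 : Fin 4) = 0 := rfl
  have e4 : Fin.castSucc (3 : Fin 4) = 3 := rfl
  rw [e1, e2, e3, e4]
  ring

/-- The double covers of `ℙ³` of the form
`x_4 ^ 2 = x_0 x_1 ^ (2 m - 1) + x_1 ^ (2 m) + x_2 ^ (2 m) + x_3 (x_0 ^ (2 m - 1) + x_3 ^ (2 m - 1))`
are smooth. -/
theorem smooth_quasiSmooth {m : ℕ} (hm : 1 ≤ m) : QuasiSmooth (smoothForm m) := by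
  rw [smoothForm_rename]
  intro v hv
  exact Wd.smooth_double m hm v hv

theorem smooth_weights {m : ℕ} (hm : 1 ≤ m) : Weights 1 1 1 1 m 1 2 (2 * m - 1) where
  hN := le_rfl
  hp := le_rfl
  hq := le_rfl
  hw := le_rfl
  hr := hm
  hep := one_dvd _
  heq := one_dvd _
  her := one_dvd _
  hNe := Nat.coprime_one_right _
  hgcd := by rw [Nat.gcd_one_left]; exact one_dvd _
  hD := by omega
  hD2 := le_rfl

/-- the form `B` of the double cover -/
noncomputable def smoothB (m : ℕ) : MvPolynomial (Fin 3) ℂ := X 2 ^ 2 - X 0 ^ (2 * m) - X 1 ^ (2 * m)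

lemma eval_smoothB (m : ℕ) (x : Fin 3 → ℂ) :
    eval x (smoothB m) = x 2 ^ 2 - x 0 ^ (2 * m) - x 1 ^ (2 * m) := by
  rw [smoothB]
  simp

theorem smooth_mem {m : ℕ} (hm : 1 ≤ m) :
    Member 1 1 1 1 m 1 2 (-(X 0 ^ (2 * m - 1))) (smoothB m) (smoothForm m) where
  homog := by
    have hX : ∀ i : Fin 5, (![1, 1, 1, 1, m] : Fin 5 → ℕ) i = 1 →
        IsWeightedHomogeneous ![1, 1, 1, 1, m] (X i ^ (2 * m) : MvPolynomial (Fin 5) ℂ) (2 * m) :=
      fun i hi => hom_of_eq (by rw [hi, mul_one]) (hom_X_pow i (2 * m))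
    have hX' : ∀ i j : Fin 5, (![1, 1, 1, 1, m] : Fin 5 → ℕ) i = 1 →
        (![1, 1, 1, 1, m] : Fin 5 → ℕ) j = 1 → IsWeightedHomogeneous ![1, 1, 1, 1, m]
          (X i * X j ^ (2 * m - 1) : MvPolynomial (Fin 5) ℂ) (2 * m) :=
      fun i j hi hj => hom_of_eq (by rw [hi, hj]; omega)
        ((isWeightedHomogeneous_X ℂ _ i).mul (hom_X_pow j (2 * m - 1)))
    have h4 : IsWeightedHomogeneous ![1, 1, 1, 1, m] (X 4 ^ 2 : MvPolynomial (Fin 5) ℂ) (2 * m) :=
      hom_of_eq rfl (hom_X_pow 4 2)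
    have h3 : IsWeightedHomogeneous ![1, 1, 1, 1, m]
        (X 3 * (X 0 ^ (2 * m - 1) + X 3 ^ (2 * m - 1)) : MvPolynomial (Fin 5) ℂ) (2 * m) := by
      rw [mul_add]
      exact (hX' 3 0 rfl rfl).add (hX' 3 3 rfl rfl)
    exact (weightedHomogeneousSubmodule ℂ ![1, 1, 1, 1, m] (2 * m)).sub_mem h4
      ((((hX' 0 1 rfl rfl).add (hX 1 rfl)).add (hX 2 rfl)).add h3)
  monic := by
    classical
    have hne : ∀ u : Fin 5 →₀ ℕ, u 4 = 0 →
        coeff (Finsupp.single 4 2) (monomial u (1 : ℂ)) = 0 := by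
      intro u hu
      rw [coeff_monomial, if_neg]
      intro h
      rw [h, Finsupp.single_eq_same] at hu
      omega
    have e1 : (X 0 * X 1 ^ (2 * m - 1) : MvPolynomial (Fin 5) ℂ) =
        monomial (Finsupp.single 0 1 + Finsupp.single 1 (2 * m - 1)) 1 := by
      rw [X_pow_eq_monomial, X, monomial_mul, one_mul]
    have e2 : (X 3 * (X 0 ^ (2 * m - 1) + X 3 ^ (2 * m - 1)) : MvPolynomial (Fin 5) ℂ) =
        monomial (Finsupp.single 3 1 + Finsupp.single 0 (2 * m - 1)) 1 +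
          monomial (Finsupp.single 3 1 + Finsupp.single 3 (2 * m - 1)) 1 := by
      rw [X_pow_eq_monomial, X_pow_eq_monomial, X, mul_add, monomial_mul, monomial_mul, one_mul]
    have h : coeff (Finsupp.single 4 2) (smoothForm m) = 1 := by
      rw [smoothForm, e1, e2, X_pow_eq_monomial, X_pow_eq_monomial, X_pow_eq_monomial, coeff_sub,
        coeff_add, coeff_add, coeff_add, coeff_add,
        hne (Finsupp.single 0 1 + Finsupp.single 1 (2 * m - 1)) (by simp),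
        hne (Finsupp.single 1 (2 * m)) (by simp), hne (Finsupp.single 2 (2 * m)) (by simp),
        hne (Finsupp.single 3 1 + Finsupp.single 0 (2 * m - 1)) (by simp),
        hne (Finsupp.single 3 1 + Finsupp.single 3 (2 * m - 1)) (by simp), coeff_monomial,
        if_pos rfl]
      norm_num
    rw [h]
    exact one_ne_zero
  shape := by
    have h : smoothForm m - (X 0 ^ 1 * rename ![1, 2, 4] (-(X 0 ^ (2 * m - 1)) :
        MvPolynomial (Fin 3) ℂ) + rename ![1, 2, 4] (smoothB m)) =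
        X 3 * -(X 0 ^ (2 * m - 1) + X 3 ^ (2 * m - 1)) := by
      rw [smoothForm, smoothB]
      simp only [map_sub, map_neg, map_pow, rename_X, pow_one]
      have e1 : (![1, 2, 4] : Fin 3 → Fin 5) 0 = 1 := rfl
      have e2 : (![1, 2, 4] : Fin 3 → Fin 5) 1 = 2 := rfl
      have e3 : (![1, 2, 4] : Fin 3 → Fin 5) 2 = 4 := rfl
      rw [e1, e2, e3]
      ring
    rw [h]
    exact Ideal.mul_mem_right _ _ (Ideal.mem_span_singleton_self _)
  ne := neg_ne_zero.2 (pow_ne_zero _ (X_ne_zero 0))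
  cop := by
    rw [neg_eq_neg_one_mul]
    have h1 : IsUnit (-1 : MvPolynomial (Fin 3) ℂ) := isUnit_neg_one
    have h2 : IsRelPrime (X 0 ^ (2 * m - 1) : MvPolynomial (Fin 3) ℂ) (smoothB m) := by
      refine isRelPrime_X_pow ?_ _
      rintro ⟨g, hg⟩
      have h3 := congrArg (eval (![0, 0, 1] : Fin 3 → ℂ)) hg
      rw [eval_smoothB, map_mul, eval_X] at h3
      have h4 : (1 : ℂ) ^ 2 - 0 ^ (2 * m) - 0 ^ (2 * m) = 0 * eval ![0, 0, 1] g := h3
      rw [zero_pow (by omega), zero_mul] at h4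
      norm_num at h4
    exact IsRelPrime.mul_left h1.isRelPrime_left h2
  apex := by
    rw [map_neg, map_pow, eval_X]
    change -((0 : ℂ) ^ (2 * m - 1)) = 0
    rw [zero_pow (by omega), neg_zero]

/-- the common zeros are two points -/
lemma smooth_zero {m : ℕ} (hm : 1 ≤ m) {x : Fin 3 → ℂ} (hx : x ≠ 0)
    (hA : eval x (-(X 0 ^ (2 * m - 1)) : MvPolynomial (Fin 3) ℂ) = 0)
    (hB : eval x (smoothB m) = 0) : Eqv 1 1 m ![0, 1, 1] x ∨ Eqv 1 1 m ![0, 1, -1] x := by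
  rw [map_neg, map_pow, eval_X, neg_eq_zero] at hA
  have h0 : x 0 = 0 := eq_zero_of_pow_eq_zero hA
  rw [eval_smoothB, h0, zero_pow (by omega), sub_zero] at hB
  have h1 : x 1 ≠ 0 := by
    intro h1
    rw [h1, zero_pow (by omega), sub_zero] at hB
    exact hx (fin3_eq_zero h0 h1 (eq_zero_of_pow_eq_zero hB))
  have h2 : (x 2 - x 1 ^ m) * (x 2 + x 1 ^ m) = 0 := by
    rw [← hB, mul_comm 2 m, pow_mul]
    ring
  rcases mul_eq_zero.1 h2 with h3 | h3
  · left
    refine ⟨x 1, h1, ?_⟩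
    funext i
    fin_cases i
    · change x 0 = x 1 ^ 1 * 0
      rw [h0, mul_zero]
    · change x 1 = x 1 ^ 1 * 1
      rw [pow_one, mul_one]
    · change x 2 = x 1 ^ m * 1
      rw [mul_one]
      exact sub_eq_zero.1 h3
  · right
    refine ⟨x 1, h1, ?_⟩
    funext i
    fin_cases i
    · change x 0 = x 1 ^ 1 * 0
      rw [h0, mul_zero]
    · change x 1 = x 1 ^ 1 * 1
      rw [pow_one, mul_one]
    · change x 2 = x 1 ^ m * -1
      rw [mul_neg_one]
      exact eq_neg_of_add_eq_zero_left h3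

theorem smooth_twoPoints {m : ℕ} (hm : 1 ≤ m) :
    TwoPoints 1 1 m (-(X 0 ^ (2 * m - 1))) (smoothB m) := by
  refine ⟨![0, 1, 1], ![0, 1, -1], fun x hx hA hB => ?_⟩
  rcases smooth_zero hm hx hA hB with h | h
  · exact Or.inl h
  · exact Or.inr (Or.inl h)

theorem smooth_inequivalent {m : ℕ} (hm : 1 ≤ m) :
    Inequivalent 1 1 m (-(X 0 ^ (2 * m - 1))) (smoothB m) := by
  have hA : ∀ z : ℂ, eval ![0, 1, z] (-(X 0 ^ (2 * m - 1)) : MvPolynomial (Fin 3) ℂ) = 0 := by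
    intro z
    rw [map_neg, map_pow, eval_X]
    change -((0 : ℂ) ^ (2 * m - 1)) = 0
    rw [zero_pow (by omega), neg_zero]
  have hB : ∀ z : ℂ, z ^ 2 = 1 → eval ![0, 1, z] (smoothB m) = 0 := by
    intro z hz
    rw [eval_smoothB]
    change z ^ 2 - (0 : ℂ) ^ (2 * m) - 1 ^ (2 * m) = 0
    rw [hz, zero_pow (by omega), one_pow, sub_zero, sub_self]
  refine ⟨![0, 1, 1], ![0, 1, -1], vec_ne 1, vec_ne (-1), hA 1, hB 1 (one_pow 2), hA (-1),
    hB (-1) (by norm_num), ?_⟩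
  rintro ⟨l, -, h⟩
  have h1 : (1 : ℂ) = l ^ 1 * 1 := congrFun h 1
  have h2 : (-1 : ℂ) = l ^ m * 1 := congrFun h 2
  rw [pow_one, mul_one] at h1
  rw [← h1, one_pow, mul_one] at h2
  norm_num at h2

/-- **Smooth members.** -/
theorem smooth_member {m : ℕ} (hm : 1 ≤ m) : Weights 1 1 1 1 m 1 2 (2 * m - 1) ∧
    QuasiSmooth (smoothForm m) ∧ ∃ A B : MvPolynomial (Fin 3) ℂ,
      Member 1 1 1 1 m 1 2 A B (smoothForm m) ∧ TwoPoints 1 1 m A B ∧ Inequivalent 1 1 m A B :=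
  ⟨smooth_weights hm, smooth_quasiSmooth hm, _, _, smooth_mem hm, smooth_twoPoints hm,
    smooth_inequivalent hm⟩

end Pool.Agent.RCH.Mn
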