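import Pool.Agent.RCH.MnEx4
import Pool.Agent.RCH.MnEx2
import Pool.Agent.RCH.GdMsym
import Pool.Agent.RCH.MnExch

/-!
# Quasi-smooth members with symmetries
-/

set_option autoImplicit false

open MvPolynomial

namespace Pool.Agent.RCH.Mn

open Pool.Agent.RCH.Wdc

lemma symForm_eq (e k c D g m : ℕ) (a : ℂ) : symForm e k c D g m a = monForm e k 0 0 c D D g m a := by
  rw [symForm, monForm, pow_zero, pow_zero, mul_one, mul_one]

/-- a monomial symmetry of a weighted hypersurface -/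
noncomputable def wsym {wt : Fin 5 → ℕ} {F : MvPolynomial (Fin 5) ℂ} (σ : Equiv.Perm (Fin 5))
    (α : Fin 5 → ℂ) (hα : ∀ j, α j ≠ 0) (hw : ∀ j, wt (σ j) = wt j)
    (h : aeval (fun j => C (α j) * (MvPolynomial.X (σ j) : MvPolynomial (Fin 5) ℂ)) F = F) :
    MSym (weightedHypersurface wt F) where
  σ := σ
  c := α
  hc := hα
  hwt := hw
  heq := by
    intro f
    have hs := Gd.sub_sub σ hα
    show _ ∈ Ideal.span {F} ↔ f ∈ Ideal.span {F}
    rw [Ideal.mem_span_singleton', Ideal.mem_span_singleton']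
    constructor
    · rintro ⟨b, hb⟩
      refine ⟨aeval (fun j => C ((α (σ.symm j))⁻¹) *
        (MvPolynomial.X (σ.symm j) : MvPolynomial (Fin 5) ℂ)) b, ?_⟩
      have h2 : b * F = b * aeval (fun j => C (α j) * (MvPolynomial.X (σ j) :
          MvPolynomial (Fin 5) ℂ)) F := by rw [h]
      conv_rhs => rw [← hs f, ← hb, h2, map_mul, hs F]
    · rintro ⟨b, rfl⟩
      refine ⟨aeval (fun j => C (α j) * (MvPolynomial.X (σ j) : MvPolynomial (Fin 5) ℂ)) b, ?_⟩
      rw [map_mul, h]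

/-- the constants of the symmetry which exchanges two of the curves -/
def symC (b : ℂ) : Fin 5 → ℂ := ![1, 1, 1, 1, b]

/-- the form is invariant -/
lemma symForm_inv {e k c D g m : ℕ} {a b : ℂ} (hb : b ^ D = 1) :
    aeval (fun j => C (symC b j) * (MvPolynomial.X (Equiv.swap (2 : Fin 5) 4 j) :
      MvPolynomial (Fin 5) ℂ)) (symForm e k c D g m a) = symForm e k c D g m a := by
  have e0 : Equiv.swap (2 : Fin 5) 4 0 = 0 := by decide
  have e1 : Equiv.swap (2 : Fin 5) 4 1 = 1 := by decide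
  have e2 : Equiv.swap (2 : Fin 5) 4 2 = 4 := by decide
  have e3 : Equiv.swap (2 : Fin 5) 4 3 = 3 := by decide
  have e4 : Equiv.swap (2 : Fin 5) 4 4 = 2 := by decide
  have c0 : symC b 0 = 1 := rfl
  have c1 : symC b 1 = 1 := rfl
  have c2 : symC b 2 = 1 := rfl
  have c3 : symC b 3 = 1 := rfl
  have c4 : symC b 4 = b := rfl
  rw [symForm]
  simp only [map_add, map_mul, map_pow, aeval_X, aeval_C, algebraMap_eq, e0, e1, e2, e3, e4, c0, c1,
    c2, c3, c4, C_1, one_mul]
  rw [mul_pow, ← C_pow, hb, C_1, one_mul]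
  ring

/-- the symmetry which exchanges two of the curves -/
noncomputable def exSym {N p q w e k c g m D : ℕ} {a b : ℂ} (hb0 : b ≠ 0) (hb : b ^ D = 1) :
    MSym (weightedHypersurface ![N, p, q, w, q] (symForm e k c D g m a)) :=
  wsym (Equiv.swap 2 4) (symC b)
    (by
      intro j
      fin_cases j
      · exact one_ne_zero
      · exact one_ne_zero
      · exact one_ne_zero
      · exact one_ne_zero
      · exact hb0)
    (by intro j; fin_cases j <;> rfl)
    (symForm_inv hb)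

/-- the parametrization of the cone -/
noncomputable def coneMap (p q r : ℕ) (a : Fin 3 → ℂ) : Coord (Fin 5) 1 →ₐ[ℂ] MvPolynomial (Fin 2) ℂ :=
  aeval fun u : Fin 1 × Fin 5 => (![X 0, C (a 0) * X 1 ^ p, C (a 1) * X 1 ^ q, 0,
    C (a 2) * X 1 ^ r] : Fin 5 → MvPolynomial (Fin 2) ℂ) u.2

lemma mem_coneIdeal {p q r : ℕ} {a : Fin 3 → ℂ} {z : Coord (Fin 5) 1} :
    z ∈ coneIdeal p q r a ↔ coneMap p q r a z = 0 := Iff.rfl

lemma coneMap_scale {p q r : ℕ} {a a' : Fin 3 → ℂ} {c : ℂ}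
    (h : a' = ![c ^ p * a 0, c ^ q * a 1, c ^ r * a 2]) (z : Coord (Fin 5) 1) :
    coneMap p q r a' z = aeval ![(X 0 : MvPolynomial (Fin 2) ℂ), C c * X 1] (coneMap p q r a z) := by
  have key : ∀ (b : ℂ) (n : ℕ), (C (c ^ n * b) * X 1 ^ n : MvPolynomial (Fin 2) ℂ) =
      aeval ![(X 0 : MvPolynomial (Fin 2) ℂ), C c * X 1]
        (C b * X 1 ^ n : MvPolynomial (Fin 2) ℂ) := by
    intro b n
    have h1 : aeval ![(X 0 : MvPolynomial (Fin 2) ℂ), C c * X 1] (C b : MvPolynomial (Fin 2) ℂ) =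
        C b := (aeval ![(X 0 : MvPolynomial (Fin 2) ℂ), C c * X 1]).commutes b
    have h2 : aeval ![(X 0 : MvPolynomial (Fin 2) ℂ), C c * X 1] (X 1 : MvPolynomial (Fin 2) ℂ) =
        C c * X 1 := by
      rw [aeval_X]
      rfl
    conv_rhs => rw [map_mul, map_pow, h1, h2]
    rw [C_mul, C_pow]
    ring
  have h1 : coneMap p q r a' = (aeval ![(X 0 : MvPolynomial (Fin 2) ℂ), C c * X 1]).comp
      (coneMap p q r a) := by
    apply MvPolynomial.algHom_ext
    rintro ⟨i, j⟩
    rw [AlgHom.comp_apply, coneMap, coneMap, aeval_X, aeval_X, h]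
    fin_cases j
    · show (X 0 : MvPolynomial (Fin 2) ℂ) = aeval _ (X 0)
      rw [aeval_X]
      rfl
    · exact key (a 0) p
    · exact key (a 1) q
    · show (0 : MvPolynomial (Fin 2) ℂ) = aeval _ 0
      rw [map_zero]
    · exact key (a 2) r
  exact congrArg (fun φ => φ z) h1

lemma coneIdeal_le {p q r : ℕ} {a a' : Fin 3 → ℂ} (h : Eqv p q r a a') :
    coneIdeal p q r a ≤ coneIdeal p q r a' := by
  obtain ⟨c, -, hc⟩ := h
  intro z hz
  rw [mem_coneIdeal] at hz ⊢
  rw [coneMap_scale hc, hz, map_zero]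

lemma eqv_symm' {p q r : ℕ} {a a' : Fin 3 → ℂ} (h : Eqv p q r a a') : Eqv p q r a' a := by
  obtain ⟨c, hc, rfl⟩ := h
  refine ⟨c⁻¹, inv_ne_zero hc, ?_⟩
  funext i
  fin_cases i
  · show a 0 = c⁻¹ ^ p * (c ^ p * a 0)
    rw [← mul_assoc, ← mul_pow, inv_mul_cancel₀ hc, one_pow, one_mul]
  · show a 1 = c⁻¹ ^ q * (c ^ q * a 1)
    rw [← mul_assoc, ← mul_pow, inv_mul_cancel₀ hc, one_pow, one_mul]
  · show a 2 = c⁻¹ ^ r * (c ^ r * a 2)
    rw [← mul_assoc, ← mul_pow, inv_mul_cancel₀ hc, one_pow, one_mul]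

/-- equivalent points define the same curve -/
lemma coneIdeal_eqv {p q r : ℕ} {a a' : Fin 3 → ℂ} (h : Eqv p q r a a') :
    coneIdeal p q r a = coneIdeal p q r a' :=
  le_antisymm (coneIdeal_le h) (coneIdeal_le (eqv_symm' h))

/-- the point `(0, b, b')` is equivalent to `(0, 1, b' / b)` -/
lemma coneIdeal_norm {p q : ℕ} (hq : 1 ≤ q) {b b' : ℂ} (hb : b ≠ 0) :
    coneIdeal p q q ![0, b, b'] = coneIdeal p q q ![0, 1, b' / b] := by
  obtain ⟨l, hl⟩ := IsAlgClosed.exists_pow_nat_eq b hq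
  symm
  refine coneIdeal_eqv ⟨l, ?_, ?_⟩
  · rintro rfl
    rw [zero_pow (by omega)] at hl
    exact hb hl.symm
  · funext i
    fin_cases i
    · show (0 : ℂ) = l ^ p * 0
      rw [mul_zero]
    · show b = l ^ q * 1
      rw [hl, mul_one]
    · show b' = l ^ q * (b' / b)
      rw [hl]
      field_simp

/-- different slopes define different curves -/
lemma slope_inj {p q : ℕ} {z z' : ℂ}
    (h : coneIdeal p q q ![0, 1, z] = coneIdeal p q q ![0, 1, z']) : z = z' := by
  have h1 : (MvPolynomial.X ((0 : Fin 1), (4 : Fin 5)) - C z * MvPolynomial.X ((0 : Fin 1), (2 : Fin 5)) :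
      Coord (Fin 5) 1) ∈ coneIdeal p q q ![0, 1, z] := by
    rw [mem_coneIdeal, coneMap, map_sub, map_mul, aeval_X, aeval_X, aeval_C]
    show (C z * X 1 ^ q - C z * (C 1 * X 1 ^ q) : MvPolynomial (Fin 2) ℂ) = 0
    rw [C_1, one_mul, sub_self]
  rw [h, mem_coneIdeal, coneMap, map_sub, map_mul, aeval_X, aeval_X, aeval_C] at h1
  have h2 : (C z' * X 1 ^ q - C z * (C 1 * X 1 ^ q) : MvPolynomial (Fin 2) ℂ) = 0 := h1
  rw [C_1, one_mul, ← sub_mul, ← C_sub] at h2
  have h3 := (mul_eq_zero.1 h2).resolve_right (pow_ne_zero _ (X_ne_zero 1))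
  rw [C_eq_zero, sub_eq_zero] at h3
  exact h3.symm

/-- the symmetry on the curves -/
lemma comap_cone {N p q w e k c g m D : ℕ} {a b z : ℂ} (hb0 : b ≠ 0) (hb : b ^ D = 1)
    {C' : Pt (weightedHypersurface ![N, p, q, w, q] (symForm e k c D g m a)) 1}
    (hC : C'.I = coneIdeal p q q ![0, 1, z]) :
    (tr1 (exSym (N := N) (p := p) (q := q) (w := w) (e := e) (k := k) (c := c) (g := g) (m := m)
      (a := a) hb0 hb) C').I = coneIdeal p q q ![0, z, b] := by
  rw [tr1_I, hC]
  ext y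
  rw [Ideal.mem_comap, mem_coneIdeal, mem_coneIdeal]
  have h1 : (coneMap p q q ![0, 1, z]).comp ((actN (Equiv.refl (Fin 1)) (fun _ =>
      exSym (N := N) (p := p) (q := q) (w := w) (e := e) (k := k) (c := c) (g := g) (m := m)
      (a := a) hb0 hb) : Coord (Fin 5) 1 ≃ₐ[ℂ] Coord (Fin 5) 1) : Coord (Fin 5) 1 →ₐ[ℂ] Coord (Fin 5) 1) =
      coneMap p q q ![0, z, b] := by
    apply MvPolynomial.algHom_ext
    rintro ⟨i, j⟩
    rw [AlgHom.comp_apply]
    have h2 : (actN (Equiv.refl (Fin 1)) (fun _ => exSym (N := N) (p := p) (q := q) (w := w)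
        (e := e) (k := k) (c := c) (g := g) (m := m) (a := a) hb0 hb)) (MvPolynomial.X (i, j)) =
        C (symC b j) * MvPolynomial.X (i, Equiv.swap (2 : Fin 5) 4 j) :=
      actN_X _ _ (i, j)
    have h3 : coneMap p q q ![0, 1, z] (C (symC b j) *
        MvPolynomial.X (i, Equiv.swap (2 : Fin 5) 4 j)) =
        coneMap p q q ![0, z, b] (MvPolynomial.X (i, j)) := by
      rw [map_mul, coneMap, aeval_X, aeval_C, coneMap, aeval_X]
      fin_cases j
      · show (C 1 * X 0 : MvPolynomial (Fin 2) ℂ) = X 0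
        rw [C_1, one_mul]
      · show (C 1 * (C 0 * X 1 ^ p) : MvPolynomial (Fin 2) ℂ) = C 0 * X 1 ^ p
        rw [C_1, one_mul]
      · show (C 1 * (C z * X 1 ^ q) : MvPolynomial (Fin 2) ℂ) = C z * X 1 ^ q
        rw [C_1, one_mul]
      · show (C 1 * 0 : MvPolynomial (Fin 2) ℂ) = 0
        rw [mul_zero]
      · show (C b * (C 1 * X 1 ^ q) : MvPolynomial (Fin 2) ℂ) = C b * X 1 ^ q
        rw [C_1, one_mul]
    rw [← h3]
    exact congrArg _ h2
  exact iff_of_eq (congrArg (fun t => t = 0) (congrArg (fun φ => φ y) h1))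

section main

variable {N p q w e k c g m D : ℕ}

lemma eval_symB (x : Fin 3 → ℂ) : eval x (chainB c D 0 D) = x 0 ^ c + x 1 ^ D + x 2 ^ D := by
  rw [eval_chainB, pow_zero, mul_one]

lemma eval_symA (a : ℂ) (x : Fin 3 → ℂ) : eval x (monA k 0 0 a) = a * x 0 ^ k := by
  rw [monA, pow_zero, pow_zero, mul_one, mul_one, map_mul, map_pow, eval_X, eval_C]

/-- the slope of a curve -/
lemma exists_slope (hc : 1 ≤ c) (hq : 1 ≤ q) (hD : 1 ≤ D) {a : ℂ} (ha : a ≠ 0)
    {x : Fin 3 → ℂ} (hx : x ≠ 0) (hA : eval x (monA k 0 0 a) = 0)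
    (hB : eval x (chainB c D 0 D) = 0) :
    ∃ z : ℂ, z ^ D = -1 ∧ coneIdeal p q q x = coneIdeal p q q ![0, 1, z] := by
  rw [eval_symA] at hA
  have h0 : x 0 = 0 := eq_zero_of_pow_eq_zero ((mul_eq_zero.1 hA).resolve_left ha)
  rw [eval_symB, h0, zero_pow (by omega), zero_add] at hB
  have h1 : x 1 ≠ 0 := by
    intro h1
    rw [h1, zero_pow (by omega), zero_add] at hB
    exact hx (fin3_eq_zero h0 h1 (eq_zero_of_pow_eq_zero hB))
  refine ⟨x 2 / x 1, ?_, ?_⟩
  · rw [div_pow, div_eq_iff (pow_ne_zero _ h1)]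
    linear_combination hB
  · have hx' : x = ![0, x 1, x 2] := by
      funext i
      fin_cases i
      · exact h0
      · rfl
      · rfl
    conv_lhs => rw [hx']
    exact coneIdeal_norm hq h1

/-- the numerical condition for quasi-smoothness -/
lemma sym_num (hd : D * q = e * N + k * p) (hc : c * p = D * q) (hm : m * w = D * q)
    (hg : g * N + w = D * q) (hm2 : 1 ≤ m) (hpos : 0 < D * q) :
    e * (m - 1) * c * D * D + k * g * m * D * D + 0 * g * m * c * D +
      0 * g * m * c * D = g * m * c * D * D := by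
  obtain ⟨m', rfl⟩ : ∃ m', m = m' + 1 := ⟨m - 1, by omega⟩
  rw [Nat.add_sub_cancel]
  have key : e * m' * c + k * g * (m' + 1) = g * (m' + 1) * c := by
    refine Nat.eq_of_mul_eq_mul_left hpos ?_
    have h1 : D * q * m' = g * (m' + 1) * N := by
      have h2 : D * q * m' + D * q = (g * N + w) * (m' + 1) := by
        rw [hg]
        ring
      have h3 : (g * N + w) * (m' + 1) = g * (m' + 1) * N + D * q := by
        rw [← hm]
        ring
      omega
    calc D * q * (e * m' * c + k * g * (m' + 1)) =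
        e * c * (D * q * m') + D * q * (k * g * (m' + 1)) := by ring
      _ = e * c * (g * (m' + 1) * N) + c * p * (k * g * (m' + 1)) := by rw [h1, hc]
      _ = g * (m' + 1) * c * (e * N + k * p) := by ring
      _ = g * (m' + 1) * c * (D * q) := by rw [← hd]
      _ = D * q * (g * (m' + 1) * c) := by ring
  calc e * m' * c * D * D + k * g * (m' + 1) * D * D + 0 * g * (m' + 1) * c * D +
      0 * g * (m' + 1) * c * D = (e * m' * c + k * g * (m' + 1)) * (D * D) := by ring
    _ = g * (m' + 1) * c * D * D := by rw [key]; ring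

/-- **Quasi-smooth members with `D` curves, any two of which are exchanged by a symmetry.** -/
theorem sym_member (hW : Weights N p q w q e D (k * p)) (hk : 1 ≤ k) (hc : c * p = D * q)
    (hm : m * w = D * q) (hg : g * N + w = D * q) (hm2 : 2 ≤ m) :
    ∃ (a : ℂ) (A B : MvPolynomial (Fin 3) ℂ), QuasiSmooth (symForm e k c D g m a) ∧
      Member N p q w q e D A B (symForm e k c D g m a) ∧
      ∀ s : Finset (Pt (weightedHypersurface ![N, p, q, w, q] (symForm e k c D g m a)) 1),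
        AllCones p q q A B s → s.card = D ∧ Exchangeable _ s := by
  classical
  have hN := hW.hN
  have hp := hW.hp
  have hq := hW.hq
  have hw := hW.hw
  have hD2 := hW.hD2
  have he : 1 ≤ e := Nat.pos_of_dvd_of_pos hW.hep hp
  have hpos : 0 < D * q := Nat.mul_pos (by omega) hq
  have hc1 : 1 ≤ c := by
    rcases Nat.eq_zero_or_pos c with h | h
    · rw [h, zero_mul] at hc
      omega
    · exact h
  have hg1 : 1 ≤ g := by
    rcases Nat.eq_zero_or_pos g with h | h
    · rw [h, zero_mul, zero_add] at hg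
      rw [← hg] at hm
      have h1 : 2 * w ≤ m * w := Nat.mul_le_mul_right _ hm2
      omega
    · exact h
  obtain ⟨a, ha, hQ⟩ := exists_monForm_quasiSmooth (e := e) (k := k) (l := 0) (j := 0) (c := c)
    (n := D) (D := D) (g := g) (m := m) he hc1 (by omega) (by omega) hm2 hg1
    (sym_num hW.hD hc hm hg (by omega) hpos)
  rw [← symForm_eq] at hQ
  have hF : Member N p q w q e D (monA k 0 0 a) (chainB c D 0 D) (symForm e k c D g m a) := by
    rw [symForm_eq]
    refine ⟨?_, ?_, ?_, ?_, ?_, ?_⟩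
    · refine mon_hom (d := D * q) ?_ hc rfl rfl hm hg (by omega)
      rw [zero_mul, add_zero, add_zero]
      exact hW.hD.symm
    · exact mon_monic (by omega) (by omega) hc1
    · exact mon_shape
    · exact monA_ne ha
    · exact mon_cop ha hc1 (by omega) (by omega)
    · rw [eval_symA]
      show a * (0 : ℂ) ^ k = 0
      rw [zero_pow (by omega), mul_zero]
  refine ⟨a, _, _, hQ, hF, ?_⟩
  rintro s ⟨-, hs1, hs2⟩
  have hslope : ∀ C' ∈ s, ∃ z : ℂ, z ^ D = -1 ∧ C'.I = coneIdeal p q q ![0, 1, z] := by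
    intro C' hC
    obtain ⟨x, hx, hA, hB, hI⟩ := hs1 C' hC
    obtain ⟨z, hz, h⟩ := exists_slope (p := p) hc1 hq (by omega) ha hx hA hB
    exact ⟨z, hz, hI.trans h⟩
  have hcurve : ∀ z : ℂ, z ^ D = -1 → ∃ C' ∈ s, C'.I = coneIdeal p q q ![0, 1, z] := by
    intro z hz
    refine hs2 ![0, 1, z] (vec_ne z) ?_ ?_
    · rw [eval_symA]
      show a * (0 : ℂ) ^ k = 0
      rw [zero_pow (by omega), mul_zero]
    · rw [eval_symB]
      show (0 : ℂ) ^ c + 1 ^ D + z ^ D = 0
      rw [zero_pow (by omega), one_pow, hz]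
      ring
  have hnz : ∀ z : ℂ, z ^ D = -1 → z ≠ 0 := by
    rintro z hz rfl
    rw [zero_pow (by omega)] at hz
    norm_num at hz
  constructor
  · -- the number of the curves
    choose f hf1 hf2 using hcurve
    have hroot := Complex.isPrimitiveRoot_exp D (by omega)
    have hT : (Polynomial.nthRoots D (-1 : ℂ)).toFinset.card = D := by
      rw [Multiset.toFinset_card_of_nodup (hroot.nthRoots_nodup (by norm_num)),
        hroot.card_nthRoots, if_pos]
      exact IsAlgClosed.exists_pow_nat_eq (-1) (by omega)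
    conv_rhs => rw [← hT]
    symm
    have hmemT : ∀ z ∈ (Polynomial.nthRoots D (-1 : ℂ)).toFinset, z ^ D = -1 := by
      intro z hz
      rw [Multiset.mem_toFinset, Polynomial.mem_nthRoots (by omega)] at hz
      exact hz
    refine Finset.card_bij (fun z hz => f z (hmemT z hz)) (fun z hz => hf1 _ _) ?_ ?_
    · intro z hz z' hz' h
      have h1 := hf2 z (hmemT z hz)
      have h2 := hf2 z' (hmemT z' hz')
      rw [h] at h1
      exact slope_inj (h1.symm.trans h2)
    · intro C' hC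
      obtain ⟨z, hz, hI⟩ := hslope C' hC
      refine ⟨z, ?_, ?_⟩
      · rw [Multiset.mem_toFinset, Polynomial.mem_nthRoots (by omega)]
        exact hz
      · apply Pt.ext'
        exact (hf2 z hz).trans hI.symm
  · -- the symmetries
    refine exchangeable_iff.2 fun C₁ h₁ C₂ h₂ => ?_
    obtain ⟨z₁, hz₁, hI₁⟩ := hslope C₁ h₁
    obtain ⟨z₂, hz₂, hI₂⟩ := hslope C₂ h₂
    have hb : (z₁ * z₂) ^ D = 1 := by
      rw [mul_pow, hz₁, hz₂]
      norm_num
    have hb0 : z₁ * z₂ ≠ 0 := mul_ne_zero (hnz z₁ hz₁) (hnz z₂ hz₂)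
    refine ⟨exSym hb0 hb, rfl, rfl, ?_, ?_⟩
    · apply Pt.ext'
      rw [comap_cone hb0 hb hI₁, coneIdeal_norm hq (hnz z₁ hz₁), hI₂,
        mul_div_cancel_left₀ _ (hnz z₁ hz₁)]
    · apply Pt.ext'
      rw [comap_cone hb0 hb hI₂, coneIdeal_norm hq (hnz z₂ hz₂), hI₁,
        mul_div_cancel_right₀ _ (hnz z₂ hz₂)]

end main

end Pool.Agent.RCH.Mn
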