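import Pool.Agent.RCH.MnTwo

/-!
# The criterion `TwoPoints` for forms of a given shape
-/

set_option autoImplicit false

open MvPolynomial

namespace Pool.Agent.RCH

namespace Two

lemma eval_aeval {σ τ : Type} (d : σ → MvPolynomial τ ℂ) (x : τ → ℂ) (f : MvPolynomial σ ℂ) :
    eval x (aeval d f) = eval (fun i => eval x (d i)) f := by
  have h : (eval x).comp (aeval d : MvPolynomial σ ℂ →ₐ[ℂ] MvPolynomial τ ℂ).toRingHom =
      eval (fun i => eval x (d i)) := by
    apply MvPolynomial.ringHom_ext
    · intro a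
      simp
    · intro i
      simp
  exact congrArg (fun φ => φ f) h

lemma eval_scale3 {p q r n : ℕ} {f : MvPolynomial (Fin 3) ℂ}
    (hf : IsWeightedHomogeneous ![p, q, r] f n) (c x y z : ℂ) :
    eval ![c ^ p * x, c ^ q * y, c ^ r * z] f = c ^ n * eval ![x, y, z] f := by
  rw [← eval_scale hf c ![x, y, z]]
  congr 2
  funext i
  fin_cases i <;> rfl

lemma eval_scale2 {q r n : ℕ} {f : MvPolynomial (Fin 2) ℂ}
    (hf : IsWeightedHomogeneous ![q, r] f n) (c x y : ℂ) :
    eval ![c ^ q * x, c ^ r * y] f = c ^ n * eval ![x, y] f := by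
  rw [← eval_scale hf c ![x, y]]
  congr 2
  funext i
  fin_cases i <;> rfl

/-- **The criterion, in terms of values.** -/
theorem twoPoints {p q r D : ℕ} (hp : 0 < p) (hq : 0 < q) (hr : 0 < r)
    (hD0 : 0 < D) (hD : D ≤ 2 * (q / q.gcd r)) {A B : MvPolynomial (Fin 3) ℂ}
    {b : MvPolynomial (Fin 2) ℂ} (hB : IsWeightedHomogeneous ![p, q, r] B (D * r))
    (hb : IsWeightedHomogeneous ![q, r] b p)
    (hA : ∀ x : Fin 3 → ℂ, eval x A = 0 → x 1 ≠ 0 → x 0 = eval ![x 1, x 2] b)
    (hγ : eval ![0, 0, 1] B ≠ 0) (hG0 : ∃ y : ℂ, eval ![eval ![1, y] b, 1, y] B ≠ 0)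
    (h0 : (X 1 ∣ A ∧ D ≤ p / p.gcd r) ∨ ∀ x : Fin 3 → ℂ, eval x A = 0 → x 1 = 0 → x 0 = 0) :
    TwoPoints p q r A B := by
  set g := q.gcd r with hgdef
  have hg : 0 < g := Nat.gcd_pos_of_pos_left _ hq
  have hq' : q = g * (q / g) := (Nat.mul_div_cancel' (Nat.gcd_dvd_left q r)).symm
  have hr' : r = g * (r / g) := (Nat.mul_div_cancel' (Nat.gcd_dvd_right q r)).symm
  have hq0 : 0 < q / g := Nat.div_pos (Nat.le_of_dvd hq (Nat.gcd_dvd_left q r)) hg
  have hr0 : 0 < r / g := Nat.div_pos (Nat.le_of_dvd hr (Nat.gcd_dvd_right q r)) hg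
  have hc : Nat.Coprime (q / g) (r / g) := Nat.coprime_div_gcd_div_gcd hg
  -- the form in two variables
  let G : MvPolynomial (Fin 2) ℂ := aeval ![b, X 0, X 1] B
  have hG : IsWeightedHomogeneous ![q, r] G (D * r) := by
    refine Wd.aeval_homogeneous ![p, q, r] ![q, r] _ (fun j => ?_) hB
    fin_cases j
    · exact hb
    · exact isWeightedHomogeneous_X ℂ ![q, r] (0 : Fin 2)
    · exact isWeightedHomogeneous_X ℂ ![q, r] (1 : Fin 2)
  have hGe : ∀ t y : ℂ, eval ![t, y] G = eval ![eval ![t, y] b, t, y] B := by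
    intro t y
    rw [eval_aeval]
    congr 2
    funext i
    fin_cases i
    · rfl
    · change eval ![t, y] (X 0) = t
      rw [eval_X]
      rfl
    · change eval ![t, y] (X 1) = y
      rw [eval_X]
      rfl
  obtain ⟨y₁, y₂, hy⟩ := two_roots hq' hr' hg hq0 hr0 hc hD hG (by
    obtain ⟨y, hy⟩ := hG0
    exact ⟨y, by rwa [hGe]⟩)
  refine ⟨![eval ![1, y₁] b, 1, y₁], ![eval ![1, y₂] b, 1, y₂], fun x hx hxA hxB => ?_⟩
  have hx3 : x = ![x 0, x 1, x 2] := by
    funext i
    fin_cases i <;> rfl
  by_cases ht : x 1 = 0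
  · rcases h0 with ⟨h1, h2⟩ | h1
    · -- alone on `x_1 = 0`
      right
      right
      refine ⟨X 1, q, h1, hq, isWeightedHomogeneous_X ℂ ![p, q, r] (1 : Fin 3), by rw [eval_X, ht],
        fun x' hx' _ hxB' hx1' => ?_⟩
      rw [eval_X] at hx1'
      have hg2 : 0 < p.gcd r := Nat.gcd_pos_of_pos_left _ hp
      have e1 : p = p.gcd r * (p / p.gcd r) :=
        (Nat.mul_div_cancel' (Nat.gcd_dvd_left p r)).symm
      have e2 : r = p.gcd r * (r / p.gcd r) :=
        (Nat.mul_div_cancel' (Nat.gcd_dvd_right p r)).symm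
      have e3 : 0 < p / p.gcd r := Nat.div_pos (Nat.le_of_dvd hp (Nat.gcd_dvd_left p r)) hg2
      have e4 : 0 < r / p.gcd r := Nat.div_pos (Nat.le_of_dvd hr (Nat.gcd_dvd_right p r)) hg2
      let G2 : MvPolynomial (Fin 2) ℂ := aeval ![X 0, 0, X 1] B
      have hG2 : IsWeightedHomogeneous ![p, r] G2 (D * r) := by
        refine Wd.aeval_homogeneous ![p, q, r] ![p, r] _ (fun j => ?_) hB
        fin_cases j
        · exact isWeightedHomogeneous_X ℂ ![p, r] (0 : Fin 2)
        · exact isWeightedHomogeneous_zero ℂ _ _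
        · exact isWeightedHomogeneous_X ℂ ![p, r] (1 : Fin 2)
      have hG2e : ∀ s y : ℂ, eval ![s, y] G2 = eval ![s, 0, y] B := by
        intro s y
        rw [eval_aeval]
        congr 2
        funext i
        fin_cases i
        · change eval ![s, y] (X 0) = s
          rw [eval_X]
          rfl
        · exact map_zero _
        · change eval ![s, y] (X 1) = y
          rw [eval_X]
          rfl
      have hne : ∀ x : Fin 3 → ℂ, x ≠ 0 → x 1 = 0 → (x 0, x 2) ≠ 0 := by
        intro x hx h h'
        apply hx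
        funext i
        fin_cases i
        · exact congrArg Prod.fst h'
        · exact h
        · exact congrArg Prod.snd h'
      have hval : ∀ x : Fin 3 → ℂ, eval x B = 0 → x 1 = 0 → eval ![x 0, x 2] G2 = 0 := by
        intro x hx h
        rw [hG2e]
        have : x = ![x 0, 0, x 2] := by
          funext i
          fin_cases i
          · rfl
          · exact h
          · rfl
        rwa [← this]
      obtain ⟨c, hc0, hc1, hc2⟩ := one_zero e1 e2 hg2 e3 e4
        (Nat.coprime_div_gcd_div_gcd hg2) hD0 h2 hG2 (by rwa [hG2e]) (hne x hx ht)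
        (hne x' hx' hx1') (hval x hxB ht) (hval x' hxB' hx1')
      refine ⟨c, hc0, ?_⟩
      funext i
      fin_cases i
      · exact hc1
      · change x' 1 = c ^ q * x 1
        rw [hx1', ht, mul_zero]
      · exact hc2
    · exfalso
      have h2 := h1 x hxA ht
      have h3 : x 2 ≠ 0 := by
        intro h3
        apply hx
        funext i
        fin_cases i
        · exact h2
        · exact ht
        · exact h3
      obtain ⟨c, hc1⟩ := IsAlgClosed.exists_pow_nat_eq (x 2) hr
      have hc0 : c ≠ 0 := by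
        rintro rfl
        rw [zero_pow hr.ne'] at hc1
        exact h3 hc1.symm
      have h4 := eval_scale3 hB c 0 0 1
      rw [mul_zero, mul_zero, mul_one, hc1] at h4
      rw [hx3, h2, ht, h4] at hxB
      rcases mul_eq_zero.1 hxB with h5 | h5
      · exact pow_ne_zero _ hc0 h5
      · exact hγ h5
  · have hx0 := hA x hxA ht
    obtain ⟨c, hc1⟩ := IsAlgClosed.exists_pow_nat_eq (x 1) hq
    have hc0 : c ≠ 0 := by
      rintro rfl
      rw [zero_pow hq.ne'] at hc1
      exact ht hc1.symm
    set y := x 2 / c ^ r with hydef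
    have hyx : c ^ r * y = x 2 := mul_div_cancel₀ _ (pow_ne_zero _ hc0)
    have hG1 : eval ![1, y] G = 0 := by
      have e1 := eval_scale2 hG c 1 y
      rw [mul_one, hc1, hyx, hGe, ← hx0, ← hx3, hxB] at e1
      exact (mul_eq_zero.1 e1.symm).resolve_left (pow_ne_zero _ hc0)
    have hcase : ∀ y' : ℂ, y ^ (q / g) = y' ^ (q / g) →
        Eqv p q r ![eval ![1, y'] b, 1, y'] x := by
      intro y' h
      obtain ⟨c', hc0', e1, e2⟩ := exists_scale hq' hr' hg hq0 hr0 hc (t := 1) (y := y')
        (t₁ := x 1) (y₁ := x 2) one_ne_zero ht (by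
          rw [← h, one_pow, mul_one, ← hyx, mul_pow]
          have e3 : (c ^ r) ^ (q / g) = (c ^ q) ^ (r / g) := by
            rw [← pow_mul, ← pow_mul]
            congr 1
            calc r * (q / g) = g * (r / g) * (q / g) := by rw [← hr']
              _ = g * (q / g) * (r / g) := by ring
              _ = q * (r / g) := by rw [← hq']
          rw [e3, hc1, mul_comm])
      refine ⟨c', hc0', ?_⟩
      have e4 : x 0 = c' ^ p * eval ![1, y'] b := by
        rw [hx0, ← eval_scale2 hb c' 1 y', ← e1, ← e2]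
      funext i
      fin_cases i
      · exact e4
      · exact e1
      · exact e2
    rcases hy y hG1 with h | h
    · exact Or.inl (hcase y₁ h)
    · exact Or.inr (Or.inl (hcase y₂ h))

/-- a relatively prime `B` does not vanish on `x_0 = b(x_1, x_2)` -/
lemma exists_ne {p q r n : ℕ} (hq : 0 < q) {A B : MvPolynomial (Fin 3) ℂ}
    {b : MvPolynomial (Fin 2) ℂ} (hB : IsWeightedHomogeneous ![p, q, r] B n)
    (hb : IsWeightedHomogeneous ![q, r] b p) (hcop : IsRelPrime A B)
    (hA : X 0 - rename ![(1 : Fin 3), 2] b ∣ A) :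
    ∃ y : ℂ, eval ![eval ![1, y] b, 1, y] B ≠ 0 := by
  by_contra hcon
  push Not at hcon
  let G : MvPolynomial (Fin 2) ℂ := aeval ![b, X 0, X 1] B
  have hG : IsWeightedHomogeneous ![q, r] G n := by
    refine Wd.aeval_homogeneous ![p, q, r] ![q, r] _ (fun j => ?_) hB
    fin_cases j
    · exact hb
    · exact isWeightedHomogeneous_X ℂ ![q, r] (0 : Fin 2)
    · exact isWeightedHomogeneous_X ℂ ![q, r] (1 : Fin 2)
  have hGe : ∀ t y : ℂ, eval ![t, y] G = eval ![eval ![t, y] b, t, y] B := by
    intro t y
    rw [eval_aeval]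
    congr 2
    funext i
    fin_cases i
    · rfl
    · change eval ![t, y] (X 0) = t
      rw [eval_X]
      rfl
    · change eval ![t, y] (X 1) = y
      rw [eval_X]
      rfl
  have hG0 : G = 0 := by
    have h1 : X 0 * G = 0 := by
      refine MvPolynomial.funext fun x => ?_
      rw [map_mul, eval_X, map_zero]
      by_cases ht : x 0 = 0
      · rw [ht, zero_mul]
      · obtain ⟨c, hc1⟩ := IsAlgClosed.exists_pow_nat_eq (x 0) hq
        have hc0 : c ≠ 0 := by
          rintro rfl
          rw [zero_pow hq.ne'] at hc1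
          exact ht hc1.symm
        have h2 := eval_scale2 hG c 1 (x 1 / c ^ r)
        rw [mul_one, hc1, mul_div_cancel₀ _ (pow_ne_zero _ hc0), hGe 1, hcon, mul_zero] at h2
        have h3 : x = ![x 0, x 1] := by
          funext i
          fin_cases i <;> rfl
        rw [h3, h2, mul_zero]
    exact (mul_eq_zero.1 h1).resolve_left (MvPolynomial.X_ne_zero _)
  set f : MvPolynomial (Fin 3) ℂ := X 0 - rename ![(1 : Fin 3), 2] b with hf
  have hBf : f ∣ B := by
    rw [← Ideal.mem_span_singleton, ← Ideal.Quotient.eq_zero_iff_mem]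
    have h1 : Ideal.Quotient.mk (Ideal.span {f}) =
        (Ideal.Quotient.mk (Ideal.span {f})).comp ((rename (R := ℂ) ![(1 : Fin 3), 2]).toRingHom.comp
          (aeval ![b, X 0, X 1] : MvPolynomial (Fin 3) ℂ →ₐ[ℂ] MvPolynomial (Fin 2) ℂ).toRingHom) := by
      apply MvPolynomial.ringHom_ext
      · intro a
        simp
      · intro i
        have h2 : Ideal.Quotient.mk (Ideal.span {f}) (X 0) =
            Ideal.Quotient.mk (Ideal.span {f}) (rename ![(1 : Fin 3), 2] b) := by
          rw [Ideal.Quotient.mk_eq_mk_iff_sub_mem]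
          exact Ideal.mem_span_singleton_self f
        fin_cases i
        · simpa using h2
        · simp
        · simp
    have h2 := congrArg (fun φ => φ B) h1
    have h3 : Ideal.Quotient.mk (Ideal.span {f}) B =
        Ideal.Quotient.mk (Ideal.span {f}) (rename ![(1 : Fin 3), 2] G) := h2
    rw [h3, hG0, map_zero, map_zero]
  have hunit : IsUnit f := hcop hA hBf
  have h4 : IsUnit (eval ![eval ![0, 0] b, 0, 0] f) := hunit.map _
  have h5 : eval ![eval ![0, 0] b, 0, 0] f = 0 := by
    rw [hf, map_sub, eval_X, eval_rename]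
    have h6 : (![eval ![0, 0] b, 0, 0] : Fin 3 → ℂ) ∘ ![(1 : Fin 3), 2] = ![0, 0] := by
      funext i
      fin_cases i <;> rfl
    rw [h6]
    exact sub_self _
  rw [h5] at h4
  exact not_isUnit_zero h4

/-- the shape of `A`, first case -/
lemma shape_one {p q r l : ℕ} (hp : 0 < p) (hq : 0 < q) (hr : 0 < r)
    (hmon : ∀ i j c : ℕ, p * i + q * j + r * c = p + l * q → l ≤ j)
    {A : MvPolynomial (Fin 3) ℂ} (hA : IsWeightedHomogeneous ![p, q, r] A (p + l * q)) :
    ∃ b : MvPolynomial (Fin 2) ℂ, IsWeightedHomogeneous ![q, r] b p ∧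
      A = X 1 ^ l * (C (coeff (Finsupp.single 0 1 + Finsupp.single 1 l) A) * X 0 +
        rename ![(1 : Fin 3), 2] b) := by
  classical
  have key : ∀ s : Finset (Fin 3 →₀ ℕ), s ⊆ A.support → ∃ b : MvPolynomial (Fin 2) ℂ,
      IsWeightedHomogeneous ![q, r] b p ∧ (∑ u ∈ s, monomial u (coeff u A)) =
        X 1 ^ l * (C (coeff (Finsupp.single 0 1 + Finsupp.single 1 l)
          (∑ u ∈ s, monomial u (coeff u A))) * X 0 + rename ![(1 : Fin 3), 2] b) := by
    intro s
    induction s using Finset.induction_on with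
    | empty =>
      intro _
      refine ⟨0, isWeightedHomogeneous_zero ℂ _ _, ?_⟩
      simp
    | insert u s hu ih =>
      intro hs
      obtain ⟨b, hb, h⟩ := ih fun x hx => hs (Finset.mem_insert_of_mem hx)
      have h1 := hA (mem_support_iff.1 (hs (Finset.mem_insert_self u s)))
      rw [Finsupp.weight_apply, Finsupp.sum_fintype _ _ (fun _ => by simp),
        Fin.sum_univ_three] at h1
      have h1' : p * u 0 + q * u 1 + r * u 2 = p + l * q := by
        rw [← h1]
        change _ = u 0 * p + u 1 * q + u 2 * r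
        ring
      have h2 := hmon _ _ _ h1'
      obtain ⟨j, hj⟩ := Nat.exists_eq_add_of_le h2
      have h3 : p * u 0 + q * j + r * u 2 = p := by
        rw [hj] at h1'
        have : q * (l + j) = l * q + q * j := by ring
        omega
      rw [Finset.sum_insert hu, coeff_add, coeff_monomial]
      have hmono : (monomial u (coeff u A) : MvPolynomial (Fin 3) ℂ) =
          C (coeff u A) * (X 0 ^ u 0 * X 1 ^ (l + j) * X 2 ^ u 2) := by
        rw [monomial_eq, Finsupp.prod_fintype _ _ (fun _ => pow_zero _), Fin.prod_univ_three, hj]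
      rcases Nat.eq_zero_or_pos (u 0) with h4 | h4
      · refine ⟨b + C (coeff u A) * (X 0 ^ j * X 1 ^ u 2), hb.add ?_, ?_⟩
        · have h5 := (isWeightedHomogeneous_C ![q, r] (coeff u A)).mul
            (((isWeightedHomogeneous_X ℂ ![q, r] (0 : Fin 2)).pow j).mul
              ((isWeightedHomogeneous_X ℂ ![q, r] (1 : Fin 2)).pow (u 2)))
          have h6 : 0 + (j • (![q, r] : Fin 2 → ℕ) 0 + u 2 • (![q, r] : Fin 2 → ℕ) 1) = p := by
            rw [h4] at h3
            change 0 + (j * q + u 2 * r) = p
            rw [← h3]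
            ring
          rwa [h6] at h5
        · rw [if_neg (by
            rintro rfl
            simp at h4), zero_add]
          rw [hmono, h4]
          generalize (∑ u ∈ s, monomial u (coeff u A)) = Z at h ⊢
          simp only [map_add, map_mul, map_pow, rename_X, rename_C, pow_zero, one_mul, pow_add,
            Matrix.cons_val_zero, Matrix.cons_val_one]
          linear_combination h
      · have h5 : u 0 = 1 := by
          by_contra h5
          have h6 : p * 2 ≤ p * u 0 := Nat.mul_le_mul_left _ (by omega)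
          omega
        rw [h5, mul_one] at h3
        have h6 : j = 0 := by
          have : q * j = 0 := by omega
          exact (Nat.mul_eq_zero.1 this).resolve_left hq.ne'
        have h7 : u 2 = 0 := by
          have : r * u 2 = 0 := by omega
          exact (Nat.mul_eq_zero.1 this).resolve_left hr.ne'
        refine ⟨b, hb, ?_⟩
        rw [if_pos (by
          ext i
          fin_cases i
          · simp [h5]
          · simp [hj, h6]
          · simp [h7])]
        rw [hmono, h5, h6, h7]
        generalize (∑ u ∈ s, monomial u (coeff u A)) = Z at h ⊢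
        simp only [map_add, pow_one, pow_zero, mul_one, add_zero]
        linear_combination h
  obtain ⟨b, hb, h⟩ := key A.support (Finset.Subset.refl _)
  rw [← A.as_sum] at h
  exact ⟨b, hb, h⟩

/-- the shape of `A`, second case -/
lemma shape_two {p q r l k : ℕ} (hq : 0 < q) (hr : 0 < r)
    (hmon : ∀ i j c : ℕ, p * i + q * j + r * c = k * p + l * q → l ≤ j ∧ i = k)
    {A : MvPolynomial (Fin 3) ℂ} (hA : IsWeightedHomogeneous ![p, q, r] A (k * p + l * q)) :
    A = C (coeff (Finsupp.single 0 k + Finsupp.single 1 l) A) * (X 0 ^ k * X 1 ^ l) := by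
  classical
  have h : ∀ u ∈ A.support, u = Finsupp.single 0 k + Finsupp.single 1 l := by
    intro u hu
    have h1 := hA (mem_support_iff.1 hu)
    rw [Finsupp.weight_apply, Finsupp.sum_fintype _ _ (fun _ => by simp),
      Fin.sum_univ_three] at h1
    have h1' : p * u 0 + q * u 1 + r * u 2 = k * p + l * q := by
      rw [← h1]
      change _ = u 0 * p + u 1 * q + u 2 * r
      ring
    obtain ⟨h2, h3⟩ := hmon _ _ _ h1'
    obtain ⟨j, hj⟩ := Nat.exists_eq_add_of_le h2
    have h4 : q * j + r * u 2 = 0 := by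
      rw [hj, h3] at h1'
      have e1 : q * (l + j) = l * q + q * j := by ring
      have e2 : p * k = k * p := mul_comm _ _
      omega
    have h6 : j = 0 := by
      have : q * j = 0 := by omega
      exact (Nat.mul_eq_zero.1 this).resolve_left hq.ne'
    have h7 : u 2 = 0 := by
      have : r * u 2 = 0 := by omega
      exact (Nat.mul_eq_zero.1 this).resolve_left hr.ne'
    ext i
    fin_cases i
    · simp [h3]
    · simp [hj, h6]
    · simp [h7]
  set v : Fin 3 →₀ ℕ := Finsupp.single 0 k + Finsupp.single 1 l with hv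
  have h1 : A = monomial v (coeff v A) := by
    ext u
    rw [coeff_monomial]
    split_ifs with h2
    · rw [h2]
    · by_contra h3
      exact h2 (h u (mem_support_iff.2 h3)).symm
  have h2 : (monomial v (coeff v A) : MvPolynomial (Fin 3) ℂ) =
      C (coeff v A) * (X 0 ^ k * X 1 ^ l) := by
    rw [monomial_eq, Finsupp.prod_fintype _ _ (fun _ => pow_zero _), Fin.prod_univ_three]
    have e0 : v 0 = k := by simp [hv]
    have e1 : v 1 = l := by simp [hv]
    have e2 : v 2 = 0 := by simp [hv]
    rw [e0, e1, e2, pow_zero, mul_one]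
  rw [← h2, ← h1]

/-- **The criterion, in terms of the monomials of `A`.** Let `k = 1`, or let the exponent of `x_0` be
`k` in all monomials of degree `k p + l q`; let the exponent of `x_1` be at least `l` in all these
monomials; `D ≤ 2 q / gcd (q, r)`, and `l = 0` or `D ≤ p / gcd (p, r)`. Then `A` and `B`, of degrees
`k p + l q` and `D r`, satisfy the criterion if they are relatively prime, the coefficient of
`x_0 ^ k x_1 ^ l` in `A` and `B(0, 0, 1)` are not zero, and `A(0, 0, 1) = 0`. -/
theorem criterion {p q r D k l : ℕ} (hp : 0 < p) (hq : 0 < q) (hr : 0 < r) (hk : 0 < k)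
    (hD0 : 0 < D) (hD : D ≤ 2 * (q / q.gcd r)) (hl : l = 0 ∨ D ≤ p / p.gcd r)
    (hmon : ∀ i j c : ℕ, p * i + q * j + r * c = k * p + l * q → l ≤ j ∧ (k = 1 ∨ i = k))
    {A B : MvPolynomial (Fin 3) ℂ} (hA : IsWeightedHomogeneous ![p, q, r] A (k * p + l * q))
    (hB : IsWeightedHomogeneous ![p, q, r] B (D * r)) (hcop : IsRelPrime A B)
    (ha : coeff (Finsupp.single 0 k + Finsupp.single 1 l) A ≠ 0)
    (hA1 : eval ![0, 0, 1] A = 0) (hγ : eval ![0, 0, 1] B ≠ 0) : TwoPoints p q r A B := by
  rcases (show k = 1 ∨ k ≠ 1 by omega) with rfl | hk1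
  · -- `A` is linear in `x_0`
    rw [one_mul] at hA hmon
    obtain ⟨b, hb, hAb⟩ := shape_one hp hq hr (fun i j c h => (hmon i j c h).1) hA
    set a := coeff (Finsupp.single 0 1 + Finsupp.single 1 l) A with hadef
    have hb' : IsWeightedHomogeneous ![q, r] (C (-a⁻¹) * b) p := by
      have h1 := (isWeightedHomogeneous_C ![q, r] (-a⁻¹)).mul hb
      rwa [zero_add] at h1
    have hev : ∀ x : Fin 3 → ℂ, eval x A = x 1 ^ l * (a * x 0 + eval ![x 1, x 2] b) := by
      intro x
      have h1 := congrArg (eval x) hAb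
      rw [h1, map_mul, map_pow, map_add, map_mul, eval_X, eval_X, eval_C, eval_rename]
      congr 3
      congr 1
      funext i
      fin_cases i <;> rfl
    have hbe : ∀ x : Fin 2 → ℂ, eval x (C (-a⁻¹) * b) = -a⁻¹ * eval x b := by
      intro x
      rw [map_mul, eval_C]
    have hdvd : X 0 - rename ![(1 : Fin 3), 2] (C (-a⁻¹) * b) ∣ A := by
      refine ⟨X 1 ^ l * C a, ?_⟩
      have h1 : (C a * C a⁻¹ : MvPolynomial (Fin 3) ℂ) = 1 := by
        rw [← C_mul, mul_inv_cancel₀ ha, C_1]
      conv_lhs => rw [hAb]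
      rw [map_mul, rename_C, C_neg]
      linear_combination (-(X 1 ^ l * rename ![(1 : Fin 3), 2] b)) * h1
    refine twoPoints hp hq hr hD0 hD hB hb' (fun x hx ht => ?_) hγ
      (exists_ne hq hB hb' hcop hdvd) ?_
    · rw [hev] at hx
      have h1 := (mul_eq_zero.1 hx).resolve_left (pow_ne_zero _ ht)
      rw [hbe]
      have h2 : x 0 = a⁻¹ * (a * x 0) := by rw [inv_mul_cancel_left₀ ha]
      rw [h2]
      linear_combination a⁻¹ * h1
    · rcases hl with rfl | hl
      · right
        intro x hx ht
        rw [hev, ht, pow_zero, one_mul] at hx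
        have h1 : eval ![(0 : ℂ), x 2] b = 0 := by
          have h2 := hev ![0, 0, 1]
          rw [hA1, pow_zero, one_mul] at h2
          have h3 : eval ![(0 : ℂ), 1] b = 0 := by
            have h4 : a * (![(0 : ℂ), 0, 1] : Fin 3 → ℂ) 0 = 0 := mul_zero a
            rw [h4, zero_add] at h2
            exact h2.symm
          obtain ⟨c, hc1⟩ := IsAlgClosed.exists_pow_nat_eq (x 2) hr
          have h4 := eval_scale2 hb c 0 1
          rw [mul_zero, mul_one, hc1, h3, mul_zero] at h4
          exact h4
        rw [h1, add_zero] at hx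
        exact (mul_eq_zero.1 hx).resolve_left ha
      · by_cases h0 : l = 0
        · subst h0
          right
          intro x hx ht
          rw [hev, ht, pow_zero, one_mul] at hx
          have h1 : eval ![(0 : ℂ), x 2] b = 0 := by
            have h2 := hev ![0, 0, 1]
            rw [hA1, pow_zero, one_mul] at h2
            have h3 : eval ![(0 : ℂ), 1] b = 0 := by
              have h4 : a * (![(0 : ℂ), 0, 1] : Fin 3 → ℂ) 0 = 0 := mul_zero a
              rw [h4, zero_add] at h2
              exact h2.symm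
            obtain ⟨c, hc1⟩ := IsAlgClosed.exists_pow_nat_eq (x 2) hr
            have h4 := eval_scale2 hb c 0 1
            rw [mul_zero, mul_one, hc1, h3, mul_zero] at h4
            exact h4
          rw [h1, add_zero] at hx
          exact (mul_eq_zero.1 hx).resolve_left ha
        · left
          refine ⟨?_, hl⟩
          rw [hAb]
          exact Dvd.dvd.mul_right (dvd_pow_self _ h0) _
  · -- `A` is a monomial
    have hAm := shape_two hq hr (fun i j c h => ⟨(hmon i j c h).1,
      (hmon i j c h).2.resolve_left hk1⟩) hA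
    set a := coeff (Finsupp.single 0 k + Finsupp.single 1 l) A with hadef
    have hev : ∀ x : Fin 3 → ℂ, eval x A = a * (x 0 ^ k * x 1 ^ l) := by
      intro x
      have h1 := congrArg (eval x) hAm
      rw [h1, map_mul, map_mul, map_pow, map_pow, eval_X, eval_X, eval_C]
    have hb : IsWeightedHomogeneous ![q, r] (0 : MvPolynomial (Fin 2) ℂ) p :=
      isWeightedHomogeneous_zero ℂ _ _
    have hdvd : X 0 - rename ![(1 : Fin 3), 2] (0 : MvPolynomial (Fin 2) ℂ) ∣ A := by
      rw [map_zero, sub_zero, hAm]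
      exact Dvd.dvd.mul_left (Dvd.dvd.mul_right (dvd_pow_self _ hk.ne') _) _
    refine twoPoints hp hq hr hD0 hD hB hb (fun x hx ht => ?_) hγ
      (exists_ne hq hB hb hcop hdvd) ?_
    · rw [hev] at hx
      rw [map_zero]
      have h1 := (mul_eq_zero.1 hx).resolve_left ha
      have h2 := (mul_eq_zero.1 h1).resolve_right (pow_ne_zero _ ht)
      exact pow_eq_zero_iff hk.ne' |>.1 h2
    · rcases Nat.eq_zero_or_pos l with h0 | h0
      · right
        intro x hx _
        rw [hev, h0, pow_zero, mul_one] at hx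
        exact pow_eq_zero_iff hk.ne' |>.1 ((mul_eq_zero.1 hx).resolve_left ha)
      · left
        refine ⟨?_, hl.resolve_left h0.ne'⟩
        rw [hAm]
        exact Dvd.dvd.mul_left (Dvd.dvd.mul_left (dvd_pow_self _ h0.ne') _) _

end Two

end Pool.Agent.RCH
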