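import Pool.Agent.RCH.MnMem
import Pool.Agent.RCH.MnTwoB
import Mathlib.RingTheory.MvPolynomial.IrreducibleQuadratic

/-!
# The numerical hypotheses
-/

set_option autoImplicit false

open MvPolynomial

namespace Pool.Agent.RCH.Mn

/-- the first two variables do not divide a form which is not zero at `(0, 0, 1)` -/
lemma isRelPrime_of_apex {g B : MvPolynomial (Fin 3) ℂ} (hg : Irreducible g)
    (h : eval ![0, 0, 1] g = 0) (hB : eval ![0, 0, 1] B ≠ 0) : IsRelPrime g B := by
  rw [hg.isRelPrime_iff_not_dvd]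
  rintro ⟨c, rfl⟩
  rw [map_mul, h, zero_mul] at hB
  exact hB rfl

/-- a linear polynomial in `x_0` is irreducible -/
lemma irreducible_linear {a : ℂ} (ha : a ≠ 0) (b : MvPolynomial (Fin 2) ℂ) :
    Irreducible (C a * X 0 + rename ![(1 : Fin 3), 2] b) := by
  refine irreducible_mul_X_add (C a) (rename ![(1 : Fin 3), 2] b) 0 ?_ ?_ ?_ ?_
  · rw [Ne, C_eq_zero]
    exact ha
  · rw [vars_C]
    exact Finset.notMem_empty _
  · intro h0
    have h1 := vars_rename (![(1 : Fin 3), 2] : Fin 2 → Fin 3) b h0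
    rw [Finset.mem_image] at h1
    obtain ⟨i, -, hi⟩ := h1
    fin_cases i
    · exact absurd hi (by decide)
    · exact absurd hi (by decide)
  · have h1 : IsUnit (C a : MvPolynomial (Fin 3) ℂ) := (isUnit_iff_ne_zero.2 ha).map C
    exact h1.isRelPrime_left

variable {N p q w r e D k l : ℕ}

/-- relative primality from the shape of `A` -/
lemma isRelPrime_numerical (hp : 1 ≤ p) (hq : 1 ≤ q) (hr : 1 ≤ r) (hk : 1 ≤ k)
    (hmon : ∀ i j c : ℕ, p * i + q * j + r * c = k * p + l * q →
      l ≤ j ∧ (k = 1 ∨ i = k) ∧ (1 ≤ i ∨ l < j))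
    {A B : MvPolynomial (Fin 3) ℂ} (hA : IsWeightedHomogeneous ![p, q, r] A (k * p + l * q))
    (ha : coeff (Finsupp.single 0 k + Finsupp.single 1 l) A ≠ 0)
    (hB : eval ![0, 0, 1] B ≠ 0) : IsRelPrime A B := by
  have hX1 : IsRelPrime (X 1 : MvPolynomial (Fin 3) ℂ) B :=
    isRelPrime_of_apex (X_prime (i := (1 : Fin 3))).irreducible (eval_X _) hB
  rcases (show k = 1 ∨ k ≠ 1 by omega) with rfl | hk1
  · rw [one_mul] at hA hmon
    obtain ⟨b, hb, hAb⟩ := Two.shape_one hp hq hr (fun i j c h => (hmon i j c h).1) hA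
    rw [hAb]
    refine IsRelPrime.mul_left hX1.pow_left (isRelPrime_of_apex (irreducible_linear ha b) ?_ hB)
    -- `b` is zero at `(0, 1)`
    rw [map_add, map_mul, eval_X, eval_rename]
    have h1 : (![(0 : ℂ), 0, 1] ∘ ![(1 : Fin 3), 2] : Fin 2 → ℂ) = ![0, 1] := by
      funext i
      fin_cases i <;> rfl
    have h2 : (![(0 : ℂ), 0, 1] : Fin 3 → ℂ) 0 = 0 := rfl
    rw [h1, h2, mul_zero, zero_add, eval_eq']
    refine Finset.sum_eq_zero fun u hu => ?_
    rw [Fin.prod_univ_two]
    by_cases hu0 : u 0 = 0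
    · exfalso
      have h3 := hb (mem_support_iff.1 hu)
      rw [Finsupp.weight_apply, Finsupp.sum_fintype _ _ (fun i => by simp),
        Fin.sum_univ_two] at h3
      have h4 : u 0 * q + u 1 * r = p := h3
      rw [hu0, zero_mul, zero_add] at h4
      have h5 := (hmon 0 l (u 1) (by rw [← h4]; ring)).2.2
      omega
    · have e1 : (![0, 1] : Fin 2 → ℂ) 0 ^ u 0 = 0 := zero_pow hu0
      rw [e1, zero_mul, mul_zero]
  · have hAm := Two.shape_two hq hr (fun i j c h => ⟨(hmon i j c h).1,
      ((hmon i j c h).2.1).resolve_left hk1⟩) hA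
    have hX0 : IsRelPrime (X 0 : MvPolynomial (Fin 3) ℂ) B :=
      isRelPrime_of_apex (X_prime (i := (0 : Fin 3))).irreducible (eval_X _) hB
    rw [hAm]
    refine IsRelPrime.mul_left ?_ (IsRelPrime.mul_left hX0.pow_left hX1.pow_left)
    have h1 : IsUnit (C (coeff (Finsupp.single 0 k + Finsupp.single 1 l) A) :
        MvPolynomial (Fin 3) ℂ) := (isUnit_iff_ne_zero.2 ha).map C
    exact h1.isRelPrime_left

/-- **The numerical hypotheses imply the hypotheses of (1) and the criterion**, for every form with two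
nonzero coefficients. -/
theorem numerical (hW : Weights N p q w r e D (k * p + l * q)) (hk : 1 ≤ k)
    (hM : Numerical N p q r e D k l) {F : MvPolynomial (Fin 5) ℂ}
    (hF : IsWeightedHomogeneous ![N, p, q, w, r] F (D * r))
    (h4 : coeff (Finsupp.single 4 D) F ≠ 0)
    (h0 : coeff (Finsupp.single 0 e + Finsupp.single 1 k + Finsupp.single 2 l) F ≠ 0) :
    Member N p q w r e D (coefP e F) (coefP 0 F) F ∧ TwoPoints p q r (coefP e F) (coefP 0 F) := by
  have he := hW.he
  have hp := hW.hp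
  have hq := hW.hq
  have hr := hW.hr
  have hD := hW.hD
  -- the monomials
  have hmono : ∀ i j c : ℕ, p * i + q * j + r * c = k * p + l * q →
      l ≤ j ∧ (k = 1 ∨ i = k) ∧ (1 ≤ i ∨ l < j) := by
    intro i j c h
    have h1 : e * N + i * p + j * q + c * r = D * r := by
      rw [hD, ← h]
      ring
    rcases hM.mono e i j c h1 with h2 | h2
    · omega
    · exact h2.2
  have hA : IsWeightedHomogeneous ![p, q, r] (coefP e F) (k * p + l * q) := by
    refine CoefP.coefP_hom (N := N) (w := w) ?_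
    rwa [← hD]
  have hB : IsWeightedHomogeneous ![p, q, r] (coefP 0 F) (D * r) := by
    refine CoefP.coefP_hom (N := N) (w := w) ?_
    rwa [zero_mul, zero_add]
  have ha : coeff (Finsupp.single 0 k + Finsupp.single 1 l) (coefP e F) ≠ 0 := by
    rw [CoefP.coeff_coefP]
    have h1 : CoefP.ex5 e (Finsupp.single 0 k + Finsupp.single 1 l) =
        Finsupp.single 0 e + Finsupp.single 1 k + Finsupp.single 2 l := by
      ext j
      fin_cases j <;> simp [CoefP.ex5]
    rw [h1]
    exact h0
  have hA1 : eval ![0, 0, 1] (coefP e F) = 0 := by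
    rw [eval_eq']
    refine Finset.sum_eq_zero fun u hu => ?_
    rw [Fin.prod_univ_three]
    have h3 := hA (mem_support_iff.1 hu)
    rw [Finsupp.weight_apply, Finsupp.sum_fintype _ _ (fun i => by simp),
      Fin.sum_univ_three] at h3
    have h5 : u 0 * p + u 1 * q + u 2 * r = k * p + l * q := h3
    have h6 := (hmono (u 0) (u 1) (u 2) (by rw [← h5]; ring)).2.2
    by_cases hu0 : u 0 = 0
    · have hu1 : u 1 ≠ 0 := by omega
      have e1 : (![0, 0, 1] : Fin 3 → ℂ) 1 ^ u 1 = 0 := zero_pow hu1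
      rw [e1, mul_zero, zero_mul, mul_zero]
    · have e1 : (![0, 0, 1] : Fin 3 → ℂ) 0 ^ u 0 = 0 := zero_pow hu0
      rw [e1, zero_mul, zero_mul, mul_zero]
  have hB1 : eval ![0, 0, 1] (coefP 0 F) ≠ 0 := by
    intro h
    have h1 := mem_of_apex hr hB h
    have h2 : ({(X 0 : MvPolynomial (Fin 3) ℂ), X 1} : Set _) = X '' {(0 : Fin 3), 1} := by
      rw [Set.image_pair]
    rw [h2, mem_ideal_span_X_image] at h1
    have h3 : Finsupp.single 2 D ∈ (coefP 0 F).support := by
      rw [mem_support_iff, CoefP.coeff_coefP]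
      have h5 : CoefP.ex5 0 (Finsupp.single 2 D) = Finsupp.single 4 D := by
        ext j
        fin_cases j <;> simp [CoefP.ex5]
      rw [h5]
      exact h4
    obtain ⟨i, hi, h6⟩ := h1 _ h3
    rcases hi with rfl | hi
    · exact h6 (by simp)
    · rw [Set.mem_singleton_iff] at hi
      subst hi
      exact h6 (by simp)
  have hcop : IsRelPrime (coefP e F) (coefP 0 F) :=
    isRelPrime_numerical hp hq hr hk hmono hA ha hB1
  refine ⟨⟨hF, h4, ?_, ?_, hcop, hA1⟩, ?_⟩
  · refine CoefP.shape (by omega) fun s hs h3 => ?_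
    have h1 := hF (mem_support_iff.1 hs)
    rw [Finsupp.weight_apply, Finsupp.sum_fintype _ _ (fun _ => by simp),
      Fin.sum_univ_five] at h1
    have h2 : s 0 * N + s 1 * p + s 2 * q + s 3 * w + s 4 * r = D * r := h1
    rw [h3, zero_mul, add_zero] at h2
    rcases hM.mono _ _ _ _ h2 with h5 | h5
    · exact Or.inl h5
    · exact Or.inr h5.1
  · intro h
    rw [h, coeff_zero] at ha
    exact ha rfl
  · have hg : 0 < q.gcd r := Nat.gcd_pos_of_pos_left _ hq
    have hg' : 0 < p.gcd r := Nat.gcd_pos_of_pos_left _ hp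
    refine Two.criterion hp hq hr hk (by have := hW.hD2; omega) ?_ ?_
      (fun i j c h => ⟨(hmono i j c h).1, (hmono i j c h).2.1⟩) hA hB hcop ha hA1 hB1
    · have h1 := hM.two
      have h2 : q = q.gcd r * (q / q.gcd r) := (Nat.mul_div_cancel' (Nat.gcd_dvd_left q r)).symm
      have h3 : q.gcd r * D ≤ q.gcd r * (2 * (q / q.gcd r)) := by
        calc q.gcd r * D = D * q.gcd r := mul_comm _ _
          _ ≤ 2 * q := h1
          _ = 2 * (q.gcd r * (q / q.gcd r)) := by rw [← h2]
          _ = q.gcd r * (2 * (q / q.gcd r)) := by ring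
      exact Nat.le_of_mul_le_mul_left h3 hg
    · rcases hM.one with h1 | h1
      · exact Or.inl h1
      · right
        rw [Nat.le_div_iff_mul_le hg']
        exact h1

end Pool.Agent.RCH.Mn
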