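import Pool.Agent.RCH.MnDefs

/-!
# Elements which are not zero divisors modulo an ideal
-/

set_option autoImplicit false

open MvPolynomial

namespace Pool.Agent.RCH.Mn

section nzd

variable {R : Type} [CommRing R] {J : Ideal R}

lemma nzd_one : Nzd J (1 : R) := fun x hx => by rwa [one_mul] at hx

lemma nzd_mul {a b : R} (ha : Nzd J a) (hb : Nzd J b) : Nzd J (a * b) := by
  intro x hx
  rw [mul_assoc] at hx
  exact hb x (ha _ hx)

lemma nzd_pow {a : R} (ha : Nzd J a) (n : ℕ) : Nzd J (a ^ n) := by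
  induction n with
  | zero => rw [pow_zero]; exact nzd_one
  | succ n ih => rw [pow_succ]; exact nzd_mul ih ha

lemma nzd_prod {κ : Type} (s : Finset κ) {b : κ → R} (h : ∀ i ∈ s, Nzd J (b i)) :
    Nzd J (∏ i ∈ s, b i) := by
  classical
  induction s using Finset.induction_on with
  | empty => rw [Finset.prod_empty]; exact nzd_one
  | insert a s ha ih =>
    rw [Finset.prod_insert ha]
    exact nzd_mul (h a (Finset.mem_insert_self a s)) (ih fun i hi =>
      h i (Finset.mem_insert_of_mem hi))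

lemma nzd_left {a b : R} (h : Nzd J (a * b)) : Nzd J a := by
  intro x hx
  refine h x ?_
  rw [mul_comm a b, mul_assoc]
  exact J.mul_mem_left _ hx

lemma nzd_neg {a : R} (ha : Nzd J a) : Nzd J (-a) := by
  intro x hx
  rw [neg_mul, neg_mem_iff] at hx
  exact ha x hx

lemma nzd_of_isUnit {a : R} (ha : IsUnit a) : Nzd J a := by
  obtain ⟨u, rfl⟩ := ha
  intro x hx
  have h1 := J.mul_mem_left ((u⁻¹ : Rˣ) : R) hx
  rwa [← mul_assoc, Units.inv_mul, one_mul] at h1

/-- being a nonzerodivisor depends only on the class -/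
lemma nzd_congr {a b : R} (ha : Nzd J a) (h : a - b ∈ J) : Nzd J b := by
  intro x hx
  refine ha x ?_
  have h1 : a * x = (a - b) * x + b * x := by ring
  rw [h1]
  exact J.add_mem (J.mul_mem_right _ h) hx

lemma nzd_sub_comm {a b : R} (h : Nzd J (a - b)) : Nzd J (b - a) := by
  rw [← neg_sub]
  exact nzd_neg h

lemma nzd_mem_iff {a : R} (ha : Nzd J a) {x : R} : a * x ∈ J ↔ x ∈ J :=
  ⟨ha x, fun h => J.mul_mem_left _ h⟩

/-- **Exchange.** -/
lemma nzd_swap {a b : R} (ha : Nzd J a) (hb : Nzd (J ⊔ Ideal.span {a}) b) :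
    Nzd (J ⊔ Ideal.span {b}) a := by
  intro x hx
  obtain ⟨j, hj, c, hc, h⟩ := Submodule.mem_sup.mp hx
  obtain ⟨y, rfl⟩ := Ideal.mem_span_singleton.mp hc
  have h1 : b * y ∈ J ⊔ Ideal.span {a} := by
    have h2 : b * y = a * x - j := by rw [← h]; ring
    rw [h2]
    exact Ideal.sub_mem _ (Submodule.mem_sup_right (Ideal.mem_span_singleton.mpr ⟨x, rfl⟩))
      (Submodule.mem_sup_left hj)
  obtain ⟨j', hj', c', hc', h'⟩ := Submodule.mem_sup.mp (hb y h1)
  obtain ⟨z, rfl⟩ := Ideal.mem_span_singleton.mp hc'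
  have h3 : a * (x - b * z) ∈ J := by
    have h4 : a * (x - b * z) = j + b * j' := by
      have h5 : a * x = j + b * y := h.symm
      calc a * (x - b * z) = a * x - b * (a * z) := by ring
        _ = j + b * y - b * (a * z) := by rw [h5]
        _ = j + b * (j' + a * z) - b * (a * z) := by rw [h']
        _ = j + b * j' := by ring
    rw [h4]
    exact J.add_mem hj (J.mul_mem_left _ hj')
  have h6 : x = (x - b * z) + b * z := by ring
  rw [h6]
  exact Ideal.add_mem _ (Submodule.mem_sup_left (ha _ h3))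
    (Submodule.mem_sup_right (Ideal.mem_span_singleton.mpr ⟨z, rfl⟩))

lemma nzd_of_prime {P : Ideal R} (hP : P.IsPrime) {a : R} (ha : a ∉ P) : Nzd P a :=
  fun _ hx => (hP.mem_or_mem hx).resolve_left ha

lemma nzd_of_prime_elem {f : R} (hf : Prime f) {a : R} (ha : ¬ f ∣ a) :
    Nzd (Ideal.span {f}) a := by
  intro x hx
  rw [Ideal.mem_span_singleton] at hx ⊢
  exact (hf.dvd_or_dvd hx).resolve_left ha

lemma nzd_comap {R' : Type} [CommRing R'] (π : R →+* R') {I : Ideal R'} {b : R}
    (h : Nzd I (π b)) : Nzd (I.comap π) b := by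
  intro x hx
  rw [Ideal.mem_comap, map_mul] at hx
  exact h _ hx

/-- transfer along an isomorphism -/
lemma nzd_map_equiv {R' : Type} [CommRing R'] (τ : R ≃+* R') {b : R} (h : Nzd J b) :
    Nzd (J.map (τ : R →+* R')) (τ b) := by
  intro x hx
  have h1 : J.map (τ : R →+* R') = J.comap (τ.symm : R' →+* R) := by
    rw [Ideal.map_comap_of_equiv]
    rfl
  rw [h1, Ideal.mem_comap] at hx ⊢
  refine h _ ?_
  have h2 : (τ.symm : R' →+* R) (τ b * x) = b * (τ.symm : R' →+* R) x := by
    rw [map_mul]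
    congr 1
    exact τ.symm_apply_apply b
  rwa [h2] at hx

/-- the colon ideal of `J + (b c)` -/
lemma col_sup_mul {σ : Type} {J : Ideal (MvPolynomial σ ℂ)} {b c : MvPolynomial σ ℂ}
    (hb : Nzd J b) : Dg.col (J ⊔ Ideal.span {b * c}) b = J ⊔ Ideal.span {c} := by
  apply le_antisymm
  · intro x hx
    rw [Dg.mem_col] at hx
    obtain ⟨j, hj, y, hy, h⟩ := Submodule.mem_sup.mp hx
    obtain ⟨z, rfl⟩ := Ideal.mem_span_singleton.mp hy
    have h1 : b * (x - c * z) ∈ J := by
      have h2 : b * (x - c * z) = j := by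
        rw [mul_sub, ← h]
        ring
      rw [h2]
      exact hj
    have h3 : x = (x - c * z) + c * z := by ring
    rw [h3]
    exact Ideal.add_mem _ (Submodule.mem_sup_left (hb _ h1))
      (Submodule.mem_sup_right (Ideal.mem_span_singleton.mpr ⟨z, rfl⟩))
  · intro x hx
    rw [Dg.mem_col]
    obtain ⟨j, hj, y, hy, rfl⟩ := Submodule.mem_sup.mp hx
    obtain ⟨z, rfl⟩ := Ideal.mem_span_singleton.mp hy
    rw [mul_add]
    refine Ideal.add_mem _ (Submodule.mem_sup_left (J.mul_mem_left _ hj))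
      (Submodule.mem_sup_right (Ideal.mem_span_singleton.mpr ⟨z, ?_⟩))
    ring

end nzd

section poly

open Polynomial in
/-- **A polynomial with an invertible leading coefficient is not a zero divisor modulo an ideal
extended from the coefficients.** -/
lemma nzd_map_C {A : Type} [CommRing A] (I : Ideal A) {f : A[X]} {n : ℕ} (hd : f.natDegree ≤ n)
    (hu : IsUnit (f.coeff n)) : Nzd (I.map (Polynomial.C : A →+* A[X])) f := by
  intro x hx
  rcases subsingleton_or_nontrivial (A ⧸ I) with hs | hs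
  · have h1 : I = ⊤ := Ideal.Quotient.subsingleton_iff.mp hs
    rw [h1, Ideal.map_top]
    trivial
  rw [Ideal.mem_map_C_iff] at hx ⊢
  set q : A →+* A ⧸ I := Ideal.Quotient.mk I with hq
  have key : ∀ g : A[X], (∀ m, g.coeff m ∈ I) ↔ g.map q = 0 := by
    intro g
    rw [Polynomial.ext_iff]
    refine forall_congr' fun m => ?_
    rw [Polynomial.coeff_map, Polynomial.coeff_zero, hq, Ideal.Quotient.eq_zero_iff_mem]
  rw [key] at hx ⊢
  rw [Polynomial.map_mul] at hx
  have h2 : (f.map q).coeff n = q (f.coeff n) := Polynomial.coeff_map q n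
  have h3 : IsUnit ((f.map q).coeff n) := by
    rw [h2]
    exact hu.map q
  have h4 : (f.map q).natDegree = n := by
    refine le_antisymm ((Polynomial.natDegree_map_le).trans hd) ?_
    exact Polynomial.le_natDegree_of_ne_zero h3.ne_zero
  have h5 : (f.map q).leadingCoeff ∈ nonZeroDivisors (A ⧸ I) := by
    rw [Polynomial.leadingCoeff, h4]
    exact h3.mem_nonZeroDivisors
  have h6 := Polynomial.mem_nonZeroDivisors_of_leadingCoeff h5
  exact (mem_nonZeroDivisors_iff.mp h6).1 _ hx

end poly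

end Pool.Agent.RCH.Mn
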