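import Mathlib

/-!
# Multilinear maps with relations for a generously transitive group

A group of permutations is generously transitive if any two points are exchanged by an element of the
group. The matrices which are invariant under such a group are symmetric and commute.
-/

set_option autoImplicit false

namespace Pool.Agent.RCH.Sy

variable {α : Type} [Fintype α] [DecidableEq α] (G : Subgroup (Equiv.Perm α)) [Fintype G]

/-- the number of elements of `G` which send `(u, a)` to `(b, c)` -/
noncomputable def M (u a : α) : Matrix α α ℝ := fun b c =>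
  ∑ g : G, if g.1 u = b ∧ g.1 a = c then (1 : ℝ) else 0

variable {G}

/-- a matrix invariant under `G` -/
def Inv (G : Subgroup (Equiv.Perm α)) (A : Matrix α α ℝ) : Prop :=
  ∀ h : G, ∀ b c, A (h.1 b) (h.1 c) = A b c

omit [Fintype α] in
lemma inv_M (u a : α) : Inv G (M G u a) := by
  intro h b c
  rw [M, M, ← Equiv.sum_comp (Equiv.mulLeft h)]
  refine Finset.sum_congr rfl fun g _ => ?_
  have h1 : ∀ x y : α, ((Equiv.mulLeft h g).1 x = h.1 y) ↔ (g.1 x = y) := by
    intro x y
    show h.1 (g.1 x) = h.1 y ↔ _
    exact h.1.injective.eq_iff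
  simp only [h1]

omit [Fintype α] in
lemma M_act (h : G) (u a : α) : M G (h.1 u) (h.1 a) = M G u a := by
  funext b c
  rw [M, M, ← Equiv.sum_comp (Equiv.mulRight h) (fun g : G =>
    if g.1 u = b ∧ g.1 a = c then (1 : ℝ) else 0)]
  rfl

omit [Fintype α] [DecidableEq α] [Fintype G] in
lemma symm_of_inv (hG : ∀ u a : α, ∃ h : G, h.1 u = a ∧ h.1 a = u) {A : Matrix α α ℝ}
    (hA : Inv G A) : A.transpose = A := by
  funext b c
  obtain ⟨h, h1, h2⟩ := hG b c
  show A c b = A b c
  have h3 := hA h b c
  rw [h1, h2] at h3
  exact h3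

omit [DecidableEq α] [Fintype G] in
lemma inv_mul {A B : Matrix α α ℝ} (hA : Inv G A) (hB : Inv G B) : Inv G (A * B) := by
  intro h b c
  rw [Matrix.mul_apply, Matrix.mul_apply, ← Equiv.sum_comp h.1]
  refine Finset.sum_congr rfl fun x _ => ?_
  rw [hA, hB]

omit [DecidableEq α] [Fintype G] in
lemma commute_of_inv (hG : ∀ u a : α, ∃ h : G, h.1 u = a ∧ h.1 a = u) {A B : Matrix α α ℝ}
    (hA : Inv G A) (hB : Inv G B) : Commute A B := by
  have h1 := symm_of_inv hG (inv_mul hA hB)
  rw [Matrix.transpose_mul, symm_of_inv hG hA, symm_of_inv hG hB] at h1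
  exact h1.symm

/-- a sum over the group, by the images of a pair -/
lemma sum_group {W : Type} [AddCommGroup W] [Module ℝ W] (u a : α) (φ : α → α → W) :
    ∑ g : G, φ (g.1 u) (g.1 a) = ∑ b, ∑ c, M G u a b c • φ b c := by
  have h1 : ∀ b c : α, M G u a b c • φ b c =
      ∑ g : G, (if g.1 u = b ∧ g.1 a = c then (1 : ℝ) else 0) • φ b c := by
    intro b c
    rw [M, Finset.sum_smul]
  simp only [h1]
  rw [Finset.sum_congr rfl fun b _ => Finset.sum_comm, Finset.sum_comm]
  refine Finset.sum_congr rfl fun g _ => ?_
  rw [Finset.sum_eq_single (g.1 u), Finset.sum_eq_single (g.1 a)]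
  · rw [if_pos ⟨rfl, rfl⟩, one_smul]
  · intro c _ hc
    rw [if_neg fun h => hc h.2.symm, zero_smul]
  · intro h
    exact absurd (Finset.mem_univ _) h
  · intro b _ hb
    refine Finset.sum_eq_zero fun c _ => ?_
    rw [if_neg fun h => hb h.1.symm, zero_smul]
  · intro h
    exact absurd (Finset.mem_univ _) h

section form

variable {W : Type} [AddCommGroup W] [Module ℝ W] {b : α → α → W}
  (hb : ∀ g : G, ∑ u, b (g.1 u) u = 0)

include hb

/-- **A bilinear map which vanishes on the permutations of the group vanishes on the joint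
eigenspaces of the invariant matrices.** -/
theorem form_zero {x y : α → ℝ} (hy0 : y ≠ 0) {lam : α → α → ℝ}
    (hy : ∀ u a, (M G u a).mulVec y = lam u a • y)
    (hx : ∀ u a, (M G u a).mulVec x = lam u a • x) :
    ∑ c, ∑ u, (y c * x u) • b c u = 0 := by
  classical
  set β : α → W := fun u => ∑ c, y c • b c u with hβ
  -- the relation for `y`
  have hA : ∀ a, ∑ u, lam u a • β u = 0 := by
    intro a
    have h1 : ∑ g : G, y (g.1 a) • ∑ u, b (g.1 u) u = 0 :=
      Finset.sum_eq_zero fun g _ => by rw [hb g, smul_zero]
    simp only [Finset.smul_sum] at h1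
    rw [Finset.sum_comm] at h1
    rw [← h1]
    refine Finset.sum_congr rfl fun u _ => ?_
    rw [sum_group u a fun c c' => y c' • b c u, hβ]
    show lam u a • ∑ c, y c • b c u = _
    rw [Finset.smul_sum]
    refine Finset.sum_congr rfl fun c _ => ?_
    have h2 := congrFun (hy u a) c
    rw [Matrix.mulVec, dotProduct, Pi.smul_apply, smul_eq_mul] at h2
    rw [smul_smul, ← h2, Finset.sum_smul]
    refine Finset.sum_congr rfl fun c' _ => ?_
    rw [smul_smul]
  -- the function `lam` is invariant
  obtain ⟨b0, hb0⟩ : ∃ b0, y b0 ≠ 0 := by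
    by_contra h
    push Not at h
    exact hy0 (funext h)
  have hlam : ∀ (h : G) u a, lam (h.1 u) (h.1 a) = lam u a := by
    intro h u a
    have h1 := congrFun (hy (h.1 u) (h.1 a)) b0
    rw [M_act, hy u a, Pi.smul_apply, Pi.smul_apply, smul_eq_mul, smul_eq_mul] at h1
    exact (mul_right_cancel₀ hb0 h1).symm
  -- the matrix `lam` acts on `x` as a positive scalar
  set K : ℝ := ∑ v, ∑ c, lam v c ^ 2 with hK
  have hL : ∀ u, (Fintype.card G : ℝ) * ∑ a, lam u a * x a = K * x u := by
    intro u
    have h1 : ∀ v c, lam v c ^ 2 * x u = ∑ a, lam v c * (M G v c u a * x a) := by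
      intro v c
      have h2 := congrFun (hx v c) u
      rw [Matrix.mulVec, dotProduct, Pi.smul_apply, smul_eq_mul] at h2
      rw [← Finset.mul_sum, h2]
      ring
    rw [hK, Finset.sum_mul]
    simp only [Finset.sum_mul, h1]
    rw [Finset.sum_congr rfl fun v _ => Finset.sum_comm, Finset.sum_comm, Finset.mul_sum]
    refine Finset.sum_congr rfl fun a _ => ?_
    have h3 : ∑ v, ∑ c, lam v c * (M G v c u a * x a) =
        (∑ v, ∑ c, ∑ g : G, (if g.1 v = u ∧ g.1 c = a then lam v c else 0)) * x a := by
      rw [Finset.sum_mul]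
      refine Finset.sum_congr rfl fun v _ => ?_
      rw [Finset.sum_mul]
      refine Finset.sum_congr rfl fun c _ => ?_
      rw [M, Finset.sum_mul, Finset.mul_sum, Finset.sum_mul]
      refine Finset.sum_congr rfl fun g _ => ?_
      split_ifs
      · ring
      · ring
    rw [h3, Finset.sum_congr rfl fun v _ => Finset.sum_comm, Finset.sum_comm]
    have h4 : ∀ g : G, ∑ v, ∑ c, (if g.1 v = u ∧ g.1 c = a then lam v c else 0) = lam u a := by
      intro g
      rw [Finset.sum_eq_single (g.1.symm u), Finset.sum_eq_single (g.1.symm a)]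
      · rw [if_pos ⟨Equiv.apply_symm_apply _ _, Equiv.apply_symm_apply _ _⟩]
        have h5 := hlam g (g.1.symm u) (g.1.symm a)
        rw [Equiv.apply_symm_apply, Equiv.apply_symm_apply] at h5
        exact h5.symm
      · intro c _ hc
        refine if_neg fun h => hc ?_
        rw [← h.2, Equiv.symm_apply_apply]
      · intro h
        exact absurd (Finset.mem_univ _) h
      · intro v _ hv
        refine Finset.sum_eq_zero fun c _ => if_neg fun h => hv ?_
        rw [← h.1, Equiv.symm_apply_apply]
      · intro h
        exact absurd (Finset.mem_univ _) h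
    simp only [h4]
    rw [Finset.sum_const, Finset.card_univ, nsmul_eq_mul]
    ring
  have hK0 : 0 < K := by
    have h1 : lam b0 b0 ≠ 0 := by
      intro h0
      have h2 := congrFun (hy b0 b0) b0
      rw [h0, zero_smul, Pi.zero_apply, Matrix.mulVec, dotProduct,
        Finset.sum_eq_single b0] at h2
      · rcases mul_eq_zero.1 h2 with h3 | h3
        · rw [M] at h3
          have h4 : (0 : ℝ) < ∑ g : G, if g.1 b0 = b0 ∧ g.1 b0 = b0 then (1 : ℝ) else 0 := by
            refine Finset.sum_pos' (fun g _ => ?_) ⟨1, Finset.mem_univ _, ?_⟩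
            · split_ifs
              · norm_num
              · exact le_rfl
            · rw [if_pos ⟨rfl, rfl⟩]
              norm_num
          exact h4.ne' h3
        · exact hb0 h3
      · intro c _ hc
        rw [M, Finset.sum_eq_zero fun g _ => ?_, zero_mul]
        refine if_neg fun h => hc ?_
        rw [← h.2, h.1]
      · intro h
        exact absurd (Finset.mem_univ _) h
    refine Finset.sum_pos' (fun v _ => Finset.sum_nonneg fun c _ => sq_nonneg _)
      ⟨b0, Finset.mem_univ _, ?_⟩
    exact Finset.sum_pos' (fun c _ => sq_nonneg _) ⟨b0, Finset.mem_univ _, by positivity⟩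
  -- the end
  have hB : ∑ u, (∑ a, lam u a * x a) • β u = 0 := by
    have h1 : ∑ a, x a • ∑ u, lam u a • β u = 0 :=
      Finset.sum_eq_zero fun a _ => by rw [hA a, smul_zero]
    simp only [Finset.smul_sum] at h1
    rw [Finset.sum_comm] at h1
    rw [← h1]
    refine Finset.sum_congr rfl fun u _ => ?_
    rw [Finset.sum_smul]
    refine Finset.sum_congr rfl fun a _ => ?_
    rw [smul_smul, mul_comm]
  have hC : K • ∑ u, x u • β u = 0 := by
    rw [Finset.smul_sum]
    have h1 : ∀ u, K • x u • β u = (Fintype.card G : ℝ) • ((∑ a, lam u a * x a) • β u) := by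
      intro u
      rw [smul_smul, ← hL u, mul_smul]
    simp only [h1]
    rw [← Finset.smul_sum, hB, smul_zero]
  have hD : ∑ u, x u • β u = 0 := (smul_eq_zero.1 hC).resolve_left hK0.ne'
  rw [← hD, Finset.sum_comm]
  refine Finset.sum_congr rfl fun u _ => ?_
  rw [hβ]
  show _ = x u • ∑ c, y c • b c u
  rw [Finset.smul_sum]
  refine Finset.sum_congr rfl fun c _ => ?_
  rw [smul_smul, mul_comm]

end form

/-- the joint eigenvectors of the invariant matrices -/
def Eig (G : Subgroup (Equiv.Perm α)) [Fintype G] : Set (α → ℝ) :=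
  {x | ∃ lam : α → α → ℝ, ∀ u a, (M G u a).mulVec x = lam u a • x}

/-- the joint eigenvectors generate -/
lemma span_eig (hG : ∀ u a : α, ∃ h : G, h.1 u = a ∧ h.1 a = u) :
    Submodule.span ℝ (Eig G) = ⊤ := by
  let T : α × α → EuclideanSpace ℝ α →ₗ[ℝ] EuclideanSpace ℝ α := fun p =>
    Matrix.toEuclideanLin (M G p.1 p.2)
  have hT : ∀ p, (T p).IsSymmetric := by
    intro p
    rw [Matrix.isSymmetric_toEuclideanLin_iff]
    show (M G p.1 p.2).conjTranspose = M G p.1 p.2
    rw [Matrix.conjTranspose_eq_transpose_of_trivial]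
    exact symm_of_inv hG (inv_M _ _)
  have hc : Pairwise (Function.onFun Commute T) := by
    intro p p' _
    show Commute (T p) (T p')
    refine LinearMap.ext fun x => ?_
    have h1 := commute_of_inv hG (inv_M (G := G) p.1 p.2) (inv_M (G := G) p'.1 p'.2)
    have h2 : (M G p.1 p.2).mulVec ((M G p'.1 p'.2).mulVec x.ofLp) =
        (M G p'.1 p'.2).mulVec ((M G p.1 p.2).mulVec x.ofLp) := by
      rw [Matrix.mulVec_mulVec, Matrix.mulVec_mulVec, h1.eq]
    exact congrArg (WithLp.toLp 2) h2
  have htop := LinearMap.IsSymmetric.iSup_iInf_eq_top_of_commute hT hc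
  let e : EuclideanSpace ℝ α ≃ₗ[ℝ] (α → ℝ) := WithLp.linearEquiv 2 ℝ (α → ℝ)
  have hle : (⊤ : Submodule ℝ (EuclideanSpace ℝ α)) ≤
      (Submodule.span ℝ (Eig G)).comap e.toLinearMap := by
    rw [← htop]
    refine iSup_le fun χ => ?_
    intro x hx
    rw [Submodule.mem_comap]
    refine Submodule.subset_span ⟨fun u a => χ (u, a), fun u a => ?_⟩
    rw [Submodule.mem_iInf] at hx
    have h1 := Module.End.mem_eigenspace_iff.1 (hx (u, a))
    exact congrArg (WithLp.ofLp) h1
  rw [eq_top_iff]
  intro x _
  have h1 := hle (Submodule.mem_top : e.symm x ∈ ⊤)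
  rw [Submodule.mem_comap] at h1
  have h2 : e.toLinearMap (e.symm x) = x := e.apply_symm_apply x
  rwa [h2] at h1

/-- the constant function is a joint eigenvector -/
lemma one_mem_eig (hG : ∀ u a : α, ∃ h : G, h.1 u = a ∧ h.1 a = u) :
    (fun _ => 1 : α → ℝ) ∈ Eig G := by
  refine ⟨fun u a => ∑ c, M G u a u c, fun u a => ?_⟩
  funext b
  obtain ⟨h, h1, -⟩ := hG u b
  rw [Matrix.mulVec, dotProduct, Pi.smul_apply, smul_eq_mul, mul_one, ← Equiv.sum_comp h.1]
  refine Finset.sum_congr rfl fun c _ => ?_
  rw [mul_one, ← inv_M u a h u c, h1]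

/-- a basis of joint eigenvectors which contains the constant function -/
lemma exists_basis [Nonempty α] (hG : ∀ u a : α, ∃ h : G, h.1 u = a ∧ h.1 a = u) :
    ∃ v : Module.Basis α ℝ (α → ℝ), (∀ i, v i ∈ Eig G) ∧ ∃ i, v i = fun _ => 1 := by
  have hs : ⊤ ≤ Submodule.span ℝ (Eig G) := (span_eig hG).ge
  have h1 : LinearIndepOn ℝ id {(fun _ => 1 : α → ℝ)} := by
    refine LinearIndepOn.singleton ?_
    intro h
    obtain ⟨a⟩ := ‹Nonempty α›
    exact one_ne_zero (congrFun h a)
  have hst : {(fun _ => 1 : α → ℝ)} ⊆ Eig G := by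
    rintro _ rfl
    exact one_mem_eig hG
  let v := Module.Basis.extendLe h1 hst hs
  let e := v.indexEquiv (Pi.basisFun ℝ α)
  refine ⟨v.reindex e, fun i => ?_, ?_⟩
  · rw [Module.Basis.reindex_apply]
    exact Module.Basis.extendLe_subset h1 hst hs (Set.mem_range_self _)
  · obtain ⟨i, hi⟩ := Module.Basis.subset_extendLe h1 hst hs (Set.mem_singleton _)
    refine ⟨e i, ?_⟩
    rw [Module.Basis.reindex_apply, Equiv.symm_apply_apply]
    exact hi

section multi

variable {W : Type} [AddCommGroup W] [Module ℝ W] {N : ℕ}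

omit [DecidableEq α] [Fintype G] in
/-- averaging over one coordinate -/
lemma sum_update (i : Fin N) (Φ : (Fin N → α) → W) :
    ∑ k, ∑ c, Φ (Function.update k i c) = (Fintype.card α : ℝ) • ∑ k, Φ k := by
  classical
  have h1 : ∑ k : Fin N → α, ∑ c : α, Φ (Function.update k i c) =
      ∑ p : (Fin N → α) × α, Φ (Function.update p.1 i p.2) :=
    (Fintype.sum_prod_type fun p : (Fin N → α) × α => Φ (Function.update p.1 i p.2)).symm
  have h2 : ∑ p : (Fin N → α) × α, Φ (Function.update p.1 i p.2) =
      ∑ p : (Fin N → α) × α, Φ p.1 := by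
    let e : (Fin N → α) × α ≃ (Fin N → α) × α :=
      { toFun := fun p => (Function.update p.1 i p.2, p.1 i)
        invFun := fun p => (Function.update p.1 i p.2, p.1 i)
        left_inv := fun p => by
          refine Prod.ext ?_ ?_
          · show Function.update (Function.update p.1 i p.2) i (p.1 i) = p.1
            rw [Function.update_idem, Function.update_eq_self]
          · show Function.update p.1 i p.2 i = p.2
            rw [Function.update_self]
        right_inv := fun p => by
          refine Prod.ext ?_ ?_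
          · show Function.update (Function.update p.1 i p.2) i (p.1 i) = p.1
            rw [Function.update_idem, Function.update_eq_self]
          · show Function.update p.1 i p.2 i = p.2
            rw [Function.update_self] }
    exact Equiv.sum_comp e (fun p => Φ p.1)
  rw [h1, h2, Fintype.sum_prod_type]
  simp only [Finset.sum_const, Finset.card_univ]
  rw [← Finset.smul_sum, ← Nat.cast_smul_eq_nsmul ℝ]

/-- **Functions with relations for a generously transitive group are zero**, if the number of
variables is large. -/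
theorem nil [Nonempty α] (hG : ∀ u a : α, ∃ h : G, h.1 u = a ∧ h.1 a = u)
    (hN : Fintype.card α ≤ N)
    (f : (Fin N → α) → W) (h0 : ∀ (i : Fin N) (k : Fin N → α), ∑ u, f (Function.update k i u) = 0)
    (hf : ∀ i j : Fin N, i ≠ j → ∀ (g : G) (k : Fin N → α),
      ∑ u, f (Function.update (Function.update k i (g.1 u)) j u) = 0) : f = 0 := by
  classical
  obtain ⟨v, hv, a₀, ha₀⟩ := exists_basis hG
  have hcard : (Fintype.card α : ℝ) ≠ 0 := by exact_mod_cast Fintype.card_ne_zero
  let F : MultilinearMap ℝ (fun _ : Fin N => α → ℝ) W := ∑ k : Fin N → α,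
    ((MultilinearMap.mkPiAlgebra ℝ (Fin N) ℝ).compLinearMap
      fun i => LinearMap.proj (k i)).smulRight (f k)
  have hF : ∀ w : Fin N → α → ℝ, F w = ∑ k : Fin N → α, (∏ i, w i (k i)) • f k := by
    intro w
    rw [sum_apply]
    rfl
  have hzero : ∀ s : Fin N → α, F (fun i => v (s i)) = 0 := by
    intro s
    by_cases hinj : Function.Injective s
    · -- the constant function occurs
      have hbij : Function.Bijective s := by
        rw [Fintype.bijective_iff_injective_and_card]
        refine ⟨hinj, ?_⟩
        have h2 := Fintype.card_le_of_injective s hinj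
        rw [Fintype.card_fin] at h2 ⊢
        omega
      obtain ⟨i, hi⟩ := hbij.2 a₀
      rw [hF]
      have h3 : (Fintype.card α : ℝ) • ∑ k : Fin N → α, (∏ l, v (s l) (k l)) • f k = 0 := by
        rw [← sum_update i (fun k => (∏ l, v (s l) (k l)) • f k)]
        refine Finset.sum_eq_zero fun k _ => ?_
        have h4 : ∀ c, (∏ l, v (s l) (Function.update k i c l)) • f (Function.update k i c) =
            (∏ l ∈ Finset.univ.erase i, v (s l) (k l)) • f (Function.update k i c) := by
          intro c
          rw [← Finset.mul_prod_erase Finset.univ _ (Finset.mem_univ i), hi, ha₀, one_mul]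
          congr 1
          refine Finset.prod_congr rfl fun l hl => ?_
          rw [Function.update_of_ne (Finset.ne_of_mem_erase hl)]
        simp only [h4]
        rw [← Finset.smul_sum, h0, smul_zero]
      exact (smul_eq_zero.1 h3).resolve_left hcard
    obtain ⟨i, j, hij, hs⟩ : ∃ i j : Fin N, i ≠ j ∧ s i = s j := by
      rw [Function.not_injective_iff] at hinj
      obtain ⟨i, j, h2, h3⟩ := hinj
      exact ⟨i, j, h3, h2⟩
    obtain ⟨lam, hlam⟩ := hv (s i)
    have hy0 : v (s i) ≠ 0 := v.ne_zero _
    set y : α → ℝ := v (s i) with hy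
    let ρ : (Fin N → α) → ℝ := fun k => ∏ l ∈ (Finset.univ.erase j).erase i, v (s l) (k l)
    have hρ : ∀ k : Fin N → α, ∏ l, v (s l) (k l) = y (k i) * y (k j) * ρ k := by
      intro k
      rw [← Finset.mul_prod_erase Finset.univ _ (Finset.mem_univ j),
        ← Finset.mul_prod_erase (Finset.univ.erase j) _
          (Finset.mem_erase.2 ⟨hij, Finset.mem_univ i⟩), ← hs, hy]
      ring
    have hρ' : ∀ (k : Fin N → α) (c u : α),
        ρ (Function.update (Function.update k i c) j u) = ρ k := by
      intro k c u
      refine Finset.prod_congr rfl fun l hl => ?_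
      rw [Finset.mem_erase, Finset.mem_erase] at hl
      rw [Function.update_of_ne hl.2.1, Function.update_of_ne hl.1]
    have key : ∀ k : Fin N → α, ∑ c, ∑ u, (∏ l, v (s l)
        (Function.update (Function.update k i c) j u l)) •
          f (Function.update (Function.update k i c) j u) = 0 := by
      intro k
      have h1 := form_zero (G := G)
        (b := fun c u => f (Function.update (Function.update k i c) j u))
        (fun g => hf i j hij g k) hy0 hlam hlam
      have h2 : ∀ c u : α, (∏ l, v (s l) (Function.update (Function.update k i c) j u l)) •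
          f (Function.update (Function.update k i c) j u) =
          ρ k • ((y c * y u) • f (Function.update (Function.update k i c) j u)) := by
        intro c u
        rw [hρ, hρ', Function.update_self, Function.update_of_ne hij, Function.update_self,
          smul_smul, mul_comm]
      simp only [h2, ← Finset.smul_sum]
      rw [h1, smul_zero]
    rw [hF]
    have h3 : (Fintype.card α : ℝ) • (Fintype.card α : ℝ) •
        ∑ k : Fin N → α, (∏ l, v (s l) (k l)) • f k = 0 := by
      rw [← sum_update j (fun k => (∏ l, v (s l) (k l)) • f k)]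
      rw [← sum_update i (fun k => ∑ c, (∏ l, v (s l) (Function.update k j c l)) •
        f (Function.update k j c))]
      refine Finset.sum_eq_zero fun k _ => ?_
      exact key k
    exact ((smul_eq_zero.1 ((smul_eq_zero.1 h3).resolve_left hcard)).resolve_left hcard)
  have hF0 : F = 0 := by
    refine Module.Basis.ext_multilinear (fun _ => v) fun s => ?_
    rw [hzero s]
    rfl
  funext k
  have h1 := hF fun i => Pi.single (k i) 1
  rw [hF0, zero_apply, Finset.sum_eq_single k] at h1
  · have h2 : ∏ i, (Pi.single (k i) (1 : ℝ) : α → ℝ) (k i) = 1 :=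
      Finset.prod_eq_one fun i _ => Pi.single_eq_same _ _
    rw [h2, one_smul] at h1
    exact h1.symm
  · intro k' _ hk'
    obtain ⟨i, hi⟩ : ∃ i, k' i ≠ k i := by
      by_contra h
      push Not at h
      exact hk' (funext h)
    rw [Finset.prod_eq_zero (Finset.mem_univ i) (Pi.single_eq_of_ne hi _), zero_smul]
  · intro h
    exact absurd (Finset.mem_univ _) h

end multi

end Pool.Agent.RCH.Sy
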