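import Pool.Agent.RCH.MnSymA
import Pool.Agent.RCH.MnAlg
import Pool.Agent.RCH.GdTor
import Pool.Agent.RCH.GdProd

/-!
# Nilpotence of cycles permuted generously transitively
-/

set_option autoImplicit false

open MvPolynomial

namespace Pool.Agent.RCH.Sy

variable {ι : Type} [Finite ι] {X : WVar ι}

/-- a symmetry of the first factor -/
lemma sum_boxC_iff (g : MSym X) {κ : Type} [Fintype κ] {a b a' : κ → Cycles X 1}
    (ha : ∀ u, Finsupp.mapDomain (tr1 g) (a u) = a' u) :
    ∑ u, boxC X ![a' u, b u] ∈ torZero X 2 ↔ ∑ u, boxC X ![a u, b u] ∈ torZero X 2 := by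
  have h1 := trN_torZero (Equiv.refl (Fin 2)) ![g, MSym.one X] (∑ u, boxC X ![a u, b u])
  rw [Finsupp.mapDomain_finsetSum] at h1
  rw [← h1]
  refine iff_of_eq (congrArg (· ∈ torZero X 2) (Finset.sum_congr rfl fun u _ => ?_))
  rw [boxC_trN]
  congr 1
  funext i
  fin_cases i
  · exact (ha u).symm
  · have h2 : (tr1 (MSym.one X) : Pt X 1 → Pt X 1) = id := by
      funext Q
      exact tr1_one Q
    show b u = Finsupp.mapDomain (tr1 (MSym.one X)) (b u)
    rw [h2, Finsupp.mapDomain_id]

variable {α : Type} [Fintype α]

/-- the permutations of the cycles `z` which are realised by symmetries of `X` -/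
def Realised (z : α → Cycles X 1) : Set (Equiv.Perm α) :=
  {π | ∃ g : MSym X, ∀ a, Finsupp.mapDomain (tr1 g) (z a) = z (π a)}

/-- the relations for the group generated by the symmetries -/
lemma relations (z : α → Cycles X 1) (hq : ∑ u, boxC X ![z u, z u] ∈ torZero X 2)
    {π : Equiv.Perm α} (hπ : π ∈ Subgroup.closure (Realised z)) :
    ∑ u, boxC X ![z (π u), z u] ∈ torZero X 2 := by
  induction hπ using Subgroup.closure_induction_left with
  | one => exact hq
  | mul_left x hx y _ ih =>
    obtain ⟨g, hg⟩ := hx
    exact (sum_boxC_iff g (a := fun u => z (y u)) (a' := fun u => z ((x * y) u))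
      (fun u => hg (y u))).2 ih
  | inv_mul_cancel x hx y _ ih =>
    obtain ⟨g, hg⟩ := hx
    refine (sum_boxC_iff g (a := fun u => z ((x⁻¹ * y) u)) (a' := fun u => z (y u))
      (fun u => ?_)).1 ih
    rw [hg]
    congr 1
    show x (x⁻¹ (y u)) = y u
    exact Equiv.apply_symm_apply x (y u)

/-- **Nilpotence.** Cycles `z_a` of sum zero whose sum of squares is torsion and any two of which are
exchanged by a permutation of all of them which is realised by a symmetry: all products of `N` of them
are torsion, if `N` is at least the number of the `z_a`. -/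
theorem nil_products [DecidableEq α] [Nonempty α] (z : α → Cycles X 1) (hz : ∑ u, z u = 0)
    (hq : ∑ u, boxC X ![z u, z u] ∈ torZero X 2)
    (hgen : ∀ u a : α, ∃ π ∈ Realised z, π u = a ∧ π a = u) {N : ℕ}
    (hN : Fintype.card α ≤ N) (k : Fin N → α) : boxC X (fun i => z (k i)) ∈ torZero X N := by
  classical
  obtain ⟨W, _, _, ψ, hψ⟩ := Gd.exists_hom X N
  have hup : ∀ (k : Fin N → α) (i : Fin N) (s : α),
      (fun l => z (Function.update k i s l)) = Function.update (fun l => z (k l)) i (z s) := by
    intro k i s
    funext l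
    by_cases hl : l = i
    · subst hl
      rw [Function.update_self, Function.update_self]
    · rw [Function.update_of_ne hl, Function.update_of_ne hl]
  have : Fintype (Subgroup.closure (Realised z)) := Fintype.ofFinite _
  have hf : (fun k : Fin N → α => ψ (boxC X (fun i => z (k i)))) = 0 := by
    refine nil (G := Subgroup.closure (Realised z)) (fun u a => ?_) hN _ (fun i k => ?_)
      fun i j hij g k => ?_
    · obtain ⟨π, hπ, h1, h2⟩ := hgen u a
      exact ⟨⟨π, Subgroup.subset_closure hπ⟩, h1, h2⟩
    · rw [← map_sum]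
      have h1 : ∑ s, boxC X (fun l => z (Function.update k i s l)) = 0 := by
        have h2 : ∀ s, boxC X (fun l => z (Function.update k i s l)) =
            boxM X N (Function.update (fun l => z (k l)) i (z s)) := by
          intro s
          rw [hup]
          rfl
        rw [Finset.sum_congr rfl fun s _ => h2 s, ← MultilinearMap.map_update_sum, hz]
        exact (boxM X N).map_coord_zero i (Function.update_self _ _ _)
      rw [h1, map_zero]
    · rw [← map_sum, hψ]
      have h1 := Gd.sum_boxC_pair (fun u => z (g.1 u)) z (relations z hq g.2) hij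
        (fun l => z (k l))
      simp only [hup]
      exact h1
  exact (hψ _).1 (congrFun hf k)

/-- the products of combinations -/
theorem nil_combinations [DecidableEq α] [Nonempty α] (z : α → Cycles X 1) (hz : ∑ u, z u = 0)
    (hq : ∑ u, boxC X ![z u, z u] ∈ torZero X 2)
    (hgen : ∀ u a : α, ∃ π ∈ Realised z, π u = a ∧ π a = u) {N : ℕ}
    (hN : Fintype.card α ≤ N) (x : Fin N → Cycles X 1)
    (hx : ∀ i, ∃ M : ℤ, M ≠ 0 ∧ ∃ c : α → ℤ, M • x i - ∑ a, c a • z a ∈ torZero X 1) :
    boxC X x ∈ torZero X N := by
  classical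
  choose M hM c hc using hx
  have h1 : boxC X (fun i => M i • x i) ∈ torZero X N := by
    refine Kc.boxC_congr _ (fun i => ∑ a, c i a • z a) hc ?_
    rw [boxC_sum X (fun i a => c i a • z a)]
    refine sum_mem fun f _ => ?_
    have h2 := (boxM X N).map_smul_univ (fun i => c i (f i)) (fun i => z (f i))
    rw [boxM_apply, boxM_apply] at h2
    rw [h2]
    exact AddSubgroup.zsmul_mem _ (nil_products z hz hq hgen hN f) _
  have h3 := (boxM X N).map_smul_univ M x
  rw [boxM_apply, boxM_apply] at h3
  rw [h3] at h1
  exact Mn.torZero_of_zsmul (Finset.prod_ne_zero_iff.2 fun i _ => hM i) h1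

end Pool.Agent.RCH.Sy
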