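import Pool.Agent.RCH.Mn9c
import Pool.Agent.RCH.MnSymB

/-!
# Monomial symmetries of the hypersurface and the divisor of `A` on the section
-/

set_option autoImplicit false

open MvPolynomial

namespace Pool.Agent.RCH.Mn

/-- derivatives and monomial substitutions -/
lemma pderiv_act {X : WVar (Fin 5)} (g : MSym X) (j : Fin 5) (f : MvPolynomial (Fin 5) ℂ) :
    pderiv (g.σ j) (g.act f) = C (g.c j) * g.act (pderiv j f) := by
  induction f using MvPolynomial.induction_on with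
  | C a =>
    have h1 : g.act (C a) = C a := by
      rw [MSym.act, aeval_C]
      rfl
    rw [h1, pderiv_C, pderiv_C, map_zero, mul_zero]
  | add p q hp hq => rw [map_add, map_add, hp, hq, map_add, map_add, mul_add]
  | mul_X p i hp =>
    rw [map_mul, pderiv_mul, hp, g.act_X, pderiv_mul, pderiv_mul, pderiv_C, zero_mul, zero_add,
      map_add, map_mul, map_mul, g.act_X, mul_add]
    by_cases hij : i = j
    · subst hij
      rw [pderiv_X_self, pderiv_X_self, map_one]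
      ring
    · rw [pderiv_X_of_ne hij, pderiv_X_of_ne (fun h => hij (g.σ.injective h)), map_zero]
      ring

namespace MD

variable (S : MD)

/-- `F` as a form, transformed -/
lemma act_F (g : MSym S.V) : ∃ κ : ℂ, κ ≠ 0 ∧ g.act S.F = C κ * S.F := by
  have h1 : g.act S.F ∈ S.V.eqs := (g.heq S.F).mpr (Ideal.mem_span_singleton_self _)
  rw [eqs_eq, Ideal.mem_span_singleton] at h1
  obtain ⟨h, hh⟩ := h1
  have hw : ∀ j, S.V.wt (g.σ j) = S.V.wt j := g.hwt
  have h2 : IsWeightedHomogeneous S.V.wt (g.act S.F) S.d := by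
    refine Wd.aeval_homogeneous S.V.wt S.V.wt _ (fun j => ?_) S.hFwt
    have h3 : IsWeightedHomogeneous S.V.wt (X (g.σ j) : MvPolynomial (Fin 5) ℂ) (S.V.wt j) := by
      rw [← hw j]
      exact isWeightedHomogeneous_X ℂ _ _
    have h4 := (isWeightedHomogeneous_C S.V.wt (g.c j)).mul h3
    rwa [zero_add] at h4
  have h3 := Dg.comp_mul_hom (w := S.V.wt) S.hFwt h 0
  rw [zero_add, ← hh, h2.weightedHomogeneousComponent_same, hh] at h3
  have hF0 : S.F ≠ 0 := S.F_prime.ne_zero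
  have h4 := mul_left_cancel₀ hF0 h3
  rw [weightedHomogeneousComponent_zero _ (fun i => (S.wt_pos i).ne')] at h4
  refine ⟨coeff 0 h, ?_, ?_⟩
  · intro h0
    rw [h0, map_zero] at h4
    rw [h4, mul_zero] at hh
    have h5 : S.F ∈ S.V.eqs := Ideal.mem_span_singleton_self _
    have h6 : g.act S.F ∈ (⊥ : Ideal (MvPolynomial (Fin 5) ℂ)) := by
      rw [hh]
      exact Ideal.zero_mem _
    have h7 : Function.Injective g.act := by
      have h8 : ∀ f, g.symm.act (g.act f) = f := by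
        intro f
        have h9 : (g.symm.act.comp g.act) = AlgHom.id ℂ (MvPolynomial (Fin 5) ℂ) := by
          apply MvPolynomial.algHom_ext
          intro j
          rw [AlgHom.comp_apply, g.act_X, map_mul, g.symm.act_X, AlgHom.id_apply]
          have h10 : g.symm.act (C (g.c j)) = C (g.c j) := by
            rw [MSym.act, aeval_C]
            rfl
          rw [h10]
          have h11 : g.symm.c (g.σ j) = (g.c j)⁻¹ := by
            show (g.c (g.σ.symm (g.σ j)))⁻¹ = _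
            rw [Equiv.symm_apply_apply]
          have h12 : g.symm.σ (g.σ j) = j := Equiv.symm_apply_apply g.σ j
          rw [h11, h12, ← mul_assoc, ← C_mul, mul_inv_cancel₀ (g.hc j), C_1, one_mul]
        exact congrArg (fun φ : MvPolynomial (Fin 5) ℂ →ₐ[ℂ] _ => φ f) h9
      exact Function.LeftInverse.injective h8
    rw [Ideal.mem_bot] at h6
    exact hF0 (h7 (h6.trans (map_zero g.act).symm))
  · rw [hh]
    conv_lhs => rw [h4]
    rw [mul_comm]

/-- `A` in the five variables -/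
noncomputable def A5 : MvPolynomial (Fin 5) ℂ := rename ![1, 2, 4] S.A

lemma act_X3 {g : MSym S.V} (h3 : g.σ 3 = 3) {f : MvPolynomial (Fin 5) ℂ}
    (hf : f ∈ Ideal.span {(X 3 : MvPolynomial (Fin 5) ℂ)}) :
    g.act f ∈ Ideal.span {(X 3 : MvPolynomial (Fin 5) ℂ)} := by
  rw [Ideal.mem_span_singleton] at hf ⊢
  obtain ⟨h, rfl⟩ := hf
  rw [map_mul, g.act_X, h3]
  exact ⟨C (g.c 3) * g.act h, by ring⟩

lemma pderiv_rename_zero (f : MvPolynomial (Fin 3) ℂ) :
    pderiv (0 : Fin 5) (rename ![1, 2, 4] f) = 0 := by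
  refine pderiv_eq_zero_of_notMem_vars ?_
  intro h
  obtain ⟨i, _, hi⟩ := Finset.mem_image.mp (vars_rename _ _ h)
  fin_cases i <;> exact absurd hi (by decide)

lemma pderiv_shape : pderiv 0 S.F - C (S.e : ℂ) * (X 0 ^ (S.e - 1) * S.A5) ∈
    Ideal.span {(X 3 : MvPolynomial (Fin 5) ℂ)} := by
  obtain ⟨H, hH⟩ := Ideal.mem_span_singleton.mp S.shape
  have h1 : S.F = X 0 ^ S.e * rename ![1, 2, 4] S.A + rename ![1, 2, 4] S.B + X 3 * H := by
    rw [← hH]
    ring
  have h2 : pderiv 0 S.F = C (S.e : ℂ) * (X 0 ^ (S.e - 1) * S.A5) + X 3 * pderiv 0 H := by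
    rw [h1, map_add, map_add, pderiv_mul, pderiv_mul, pderiv_rename_zero, pderiv_rename_zero,
      pderiv_X_of_ne (by decide), pderiv_pow, pderiv_X_self, A5]
    simp only [map_natCast]
    ring
  rw [h2, add_sub_cancel_left]
  exact Ideal.mem_span_singleton.mpr ⟨_, rfl⟩

/-- **`A` is invariant up to constants.** -/
lemma act_A {g : MSym S.V} (h0 : g.σ 0 = 0) (h3 : g.σ 3 = 3) : ∃ κ : ℂ, κ ≠ 0 ∧
    g.act S.A5 - C κ * S.A5 ∈ Ideal.span {(X 3 : MvPolynomial (Fin 5) ℂ)} := by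
  obtain ⟨κ, hκ, hF⟩ := S.act_F g
  have hc := g.hc 0
  have he : 1 ≤ S.e := Nat.pos_of_dvd_of_pos S.hep S.hp
  have heC : (S.e : ℂ) ≠ 0 := by
    rw [Ne, Nat.cast_eq_zero]
    omega
  have h1 := pderiv_act g 0 S.F
  rw [h0, hF, pderiv_C_mul] at h1
  have h2 := S.act_X3 h3 S.pderiv_shape
  rw [map_sub, map_mul, map_mul, map_pow, g.act_X, h0] at h2
  have h4 : g.act (C (S.e : ℂ)) = C (S.e : ℂ) := by
    rw [MSym.act, aeval_C]
    rfl
  rw [h4] at h2
  -- `c₀ act (∂F) = κ ∂F`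
  have h5 : C (S.e : ℂ) * (X 0 ^ (S.e - 1) * (C (g.c 0 ^ S.e) * g.act S.A5 - C κ * S.A5)) ∈
      Ideal.span {(X 3 : MvPolynomial (Fin 5) ℂ)} := by
    have h6 : C (S.e : ℂ) * (X 0 ^ (S.e - 1) * (C (g.c 0 ^ S.e) * g.act S.A5 - C κ * S.A5)) =
        C κ * (pderiv 0 S.F - C (S.e : ℂ) * (X 0 ^ (S.e - 1) * S.A5)) -
        C (g.c 0) * (g.act (pderiv 0 S.F) -
          C (S.e : ℂ) * ((C (g.c 0) * X 0) ^ (S.e - 1) * g.act S.A5)) := by
      have h7 : (C (g.c 0 ^ S.e) : MvPolynomial (Fin 5) ℂ) = C (g.c 0) * C (g.c 0) ^ (S.e - 1) := by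
        rw [C_pow, ← pow_succ', Nat.sub_add_cancel he]
      rw [h7, mul_pow]
      linear_combination -h1
    rw [h6]
    exact Ideal.sub_mem _ (Ideal.mul_mem_left _ _ S.pderiv_shape) (Ideal.mul_mem_left _ _ h2)
  have hp : (Ideal.span {(X 3 : MvPolynomial (Fin 5) ℂ)}).IsPrime :=
    (Ideal.span_singleton_prime (X_ne_zero 3)).mpr MvPolynomial.X_prime
  have hnot : ∀ c : ℂ, c ≠ 0 → (C c : MvPolynomial (Fin 5) ℂ) ∉
      Ideal.span {(X 3 : MvPolynomial (Fin 5) ℂ)} := by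
    intro c hc0 h
    have h8 := Ideal.mul_mem_left _ (C c⁻¹) h
    rw [← C_mul, inv_mul_cancel₀ hc0, C_1] at h8
    exact hp.ne_top ((Ideal.eq_top_iff_one _).mpr h8)
  have hX0 : (X 0 ^ (S.e - 1) : MvPolynomial (Fin 5) ℂ) ∉
      Ideal.span {(X 3 : MvPolynomial (Fin 5) ℂ)} := by
    intro h
    have h8 := hp.mem_of_pow_mem _ h
    rw [Ideal.mem_span_singleton] at h8
    have h9 := (X_dvd_X.mp h8)
    exact absurd h9 (by simp)
  have h6 := (hp.mem_or_mem h5).resolve_left (hnot _ heC)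
  have h7 := (hp.mem_or_mem h6).resolve_left hX0
  refine ⟨(g.c 0 ^ S.e)⁻¹ * κ, mul_ne_zero (inv_ne_zero (pow_ne_zero _ hc)) hκ, ?_⟩
  have h8 := Ideal.mul_mem_left _ (C (g.c 0 ^ S.e)⁻¹) h7
  have h9 : C (g.c 0 ^ S.e)⁻¹ * (C (g.c 0 ^ S.e) * g.act S.A5 - C κ * S.A5) =
      g.act S.A5 - C ((g.c 0 ^ S.e)⁻¹ * κ) * S.A5 := by
    rw [mul_sub, ← mul_assoc, ← C_mul, inv_mul_cancel₀ (pow_ne_zero _ hc), C_1, one_mul,
      ← mul_assoc, ← C_mul]
  rwa [h9] at h8

end MD

end Pool.Agent.RCH.Mn
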