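import Pool.Agent.RCH.Mn1a
import Pool.Agent.RCH.MVFin

/-!
# The Laurent polynomials as quotients of a polynomial ring

`piT X : TT X → LL X.wt` is a surjective homomorphism of algebras over the ring of the coordinates of
two points, and `KJ X J` is the ideal of the elements which are sent to Laurent polynomials with
coefficients in `J`.
-/

set_option autoImplicit false

open MvPolynomial

namespace Pool.Agent.RCH.Mn

/-- the weights of the variables `v, v₁, s, t, ω, y, y₁` -/
def w7 (wt : Fin 5 → ℕ) : Fin 7 → ℕ := ![wt 0, wt 0, wt 1, wt 2, wt 3, wt 4, wt 4]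

lemma al_hom (wt : Fin 5 → ℕ) (j : Fin 5) : IsWeightedHomogeneous (w7 wt) (al j) (wt j) := by
  fin_cases j
  · exact isWeightedHomogeneous_X ℂ (w7 wt) 0
  · exact isWeightedHomogeneous_X ℂ (w7 wt) 2
  · exact isWeightedHomogeneous_X ℂ (w7 wt) 3
  · exact isWeightedHomogeneous_X ℂ (w7 wt) 4
  · exact isWeightedHomogeneous_X ℂ (w7 wt) 5

lemma be_hom (wt : Fin 5 → ℕ) (j : Fin 5) : IsWeightedHomogeneous (w7 wt) (be j) (wt j) := by
  fin_cases j
  · exact isWeightedHomogeneous_X ℂ (w7 wt) 1
  · exact isWeightedHomogeneous_X ℂ (w7 wt) 2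
  · exact isWeightedHomogeneous_X ℂ (w7 wt) 3
  · exact isWeightedHomogeneous_X ℂ (w7 wt) 4
  · exact isWeightedHomogeneous_X ℂ (w7 wt) 6

section

variable {wt : Fin 5 → ℕ}

lemma LT_add (m n : ℤ) : LT wt (m + n) = LT wt m * LT wt n := LaurentPolynomial.T_add m n

lemma LT_zero : LT wt 0 = 1 := LaurentPolynomial.T_zero

lemma LT_pow (m : ℤ) (n : ℕ) : LT wt m ^ n = LT wt (n * m) := LaurentPolynomial.T_pow m n

lemma cf_LC_mul_LT (r : R7) (k n : ℤ) : cf wt (LC wt r * LT wt k) n = if k = n then r else 0 := by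
  rw [cf_LC_mul]
  have : cf wt (LT wt k) n = if k = n then 1 else 0 := LaurentPolynomial.T_apply n k
  rw [this]
  split_ifs
  · rw [mul_one]
  · rw [mul_zero]

variable {σ : Type} (ψ : MvPolynomial σ ℂ →+* LL wt)
  (hC : ∀ c, ψ (C c) = LC wt (C c)) (r : σ → R7) (k : σ → ℤ) (D : σ → ℕ)
  (hr : ∀ a, IsWeightedHomogeneous (w7 wt) (r a) (D a)) (hψ : ∀ a, ψ (X a) = LC wt (r a) * LT wt (k a))

include hr hψ hC in
lemma mono_form (m : σ →₀ ℕ) (c : ℂ) : IsWeightedHomogeneous (w7 wt) (aeval r (monomial m c))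
    (Finsupp.weight D m) ∧
    ψ (monomial m c) = LC wt (aeval r (monomial m c)) * LT wt (Finsupp.weight k m) := by
  classical
  have h1 : ∀ m : σ →₀ ℕ, IsWeightedHomogeneous (w7 wt) (aeval r (monomial m (1 : ℂ)))
      (Finsupp.weight D m) ∧
      ψ (monomial m 1) = LC wt (aeval r (monomial m (1 : ℂ))) * LT wt (Finsupp.weight k m) := by
    intro m
    induction m using Finsupp.induction_linear with
    | zero =>
      have h1 : (monomial (0 : σ →₀ ℕ) (1 : ℂ)) = 1 := rfl
      rw [h1, map_zero, map_zero, LT_zero, mul_one, map_one (aeval r), map_one (LC wt), map_one ψ]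
      exact ⟨isWeightedHomogeneous_one ℂ (w7 wt), rfl⟩
    | add f g hf hg =>
      obtain ⟨hu, hu'⟩ := hf
      obtain ⟨hv, hv'⟩ := hg
      have : (monomial (f + g) (1 : ℂ)) = monomial f 1 * monomial g 1 := by
        rw [monomial_mul, one_mul]
      rw [this, map_mul, map_mul]
      refine ⟨?_, ?_⟩
      · rw [map_add]
        exact hu.mul hv
      · rw [hu', hv', map_add, LT_add, map_mul]
        ring
    | single a b =>
      have : (monomial (Finsupp.single a b) (1 : ℂ)) = X a ^ b := by
        rw [X_pow_eq_monomial]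
      rw [this, map_pow, map_pow, aeval_X]
      refine ⟨?_, ?_⟩
      · rw [Finsupp.weight_apply, Finsupp.sum_single_index (by simp)]
        exact (hr a).pow b
      · rw [hψ, mul_pow, LT_pow, map_pow, Finsupp.weight_apply,
          Finsupp.sum_single_index (by simp)]
        simp
  obtain ⟨hu, hu'⟩ := h1 m
  have h2 : (monomial m c) = C c * monomial m 1 := by
    rw [C_mul_monomial, mul_one]
  rw [h2, map_mul, map_mul]
  have h3 : aeval r (C c : MvPolynomial σ ℂ) = (C c : R7) := by
    rw [aeval_C]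
    rfl
  rw [h3]
  refine ⟨?_, ?_⟩
  · have := (isWeightedHomogeneous_C (w7 wt) c).mul hu
    rwa [zero_add] at this
  · rw [hC, hu', map_mul]
    ring

/-- the coefficients of a homogeneous component -/
theorem cf_component (G : Type) [AddCommGroup G] (W : σ → G)
    (K : G →+ ℤ) (E : G →+ ℤ) (hK : ∀ a, K (W a) = k a) (hE : ∀ a, E (W a) = D a)
    (hKE : ∀ g, K g = 0 → E g = 0 → g = 0)
    (t : MvPolynomial σ ℂ) (g : G) (n : ℤ) {J : Ideal R7} (hJ : Dg.Hom (w7 wt) J)
    (ht : ψ t ∈ LI wt J) (hr : ∀ a, IsWeightedHomogeneous (w7 wt) (r a) (D a))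
    (hψ : ∀ a, ψ (X a) = LC wt (r a) * LT wt (k a)) (hC : ∀ c, ψ (C c) = LC wt (C c)) :
    cf wt (ψ (weightedHomogeneousComponent W g t)) n ∈ J := by
  classical
  have key : ∀ t : MvPolynomial σ ℂ,
      cf wt (ψ (weightedHomogeneousComponent W g t)) n =
        if K g = n ∧ 0 ≤ E g then
          weightedHomogeneousComponent (w7 wt) (E g).toNat (cf wt (ψ t) n) else 0 := by
    intro t
    induction t using MvPolynomial.induction_on' with
    | monomial m c =>
      obtain ⟨hu, hu'⟩ := mono_form ψ hC r k D hr hψ m c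
      set u := aeval r (monomial m c) with hudef
      have hKm : K (Finsupp.weight W m) = Finsupp.weight k m := by
        rw [Finsupp.weight_apply, Finsupp.weight_apply, Finsupp.sum, Finsupp.sum, map_sum]
        refine Finset.sum_congr rfl fun a _ => ?_
        rw [map_nsmul, hK]
      have hEm : E (Finsupp.weight W m) = (Finsupp.weight D m : ℕ) := by
        rw [Finsupp.weight_apply, Finsupp.weight_apply, Finsupp.sum, Finsupp.sum, map_sum]
        push_cast
        refine Finset.sum_congr rfl fun a _ => ?_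
        rw [map_nsmul, hE]
        simp
      rw [weightedHomogeneousComponent_of_mem (n := Finsupp.weight W m)
        (isWeightedHomogeneous_monomial W m c rfl)]
      rw [hu', cf_LC_mul_LT]
      by_cases hg : g = Finsupp.weight W m
      · rw [if_pos hg, hu', cf_LC_mul_LT]
        rw [hg, hKm, hEm]
        by_cases hn : Finsupp.weight k m = n
        · rw [if_pos hn, if_pos ⟨hn, Int.natCast_nonneg _⟩, Int.toNat_natCast,
            weightedHomogeneousComponent_of_mem (n := Finsupp.weight D m) hu, if_pos rfl]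
        · rw [if_neg hn, if_neg (fun h => hn h.1)]
      · rw [if_neg hg, map_zero, cf_zero]
        symm
        split_ifs with h1 h2
        · rw [weightedHomogeneousComponent_of_mem (n := Finsupp.weight D m) hu, if_neg]
          intro h3
          apply hg
          rw [← sub_eq_zero]
          apply hKE
          · rw [map_sub, hKm, h1.1, h2, sub_self]
          · rw [map_sub, hEm, ← h3, Int.toNat_of_nonneg h1.2, sub_self]
        · exact map_zero _
        · rfl
    | add p q hp hq =>
      rw [map_add, map_add, cf_add, hp, hq, map_add, cf_add]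
      split_ifs
      · rw [map_add]
      · rw [add_zero]
  rw [key]
  split_ifs
  · exact hJ _ (mem_LI.1 ht n) _
  · exact J.zero_mem

end

/-! ### The surjection -/

section bridge

open TT

variable (X : WVar (Fin 5))

/-- the homomorphism to the Laurent polynomials -/
noncomputable def piT : TT X →+* LL X.wt :=
  ((aeval fun v : (Fin 2 × Fin 5) ⊕ Bool => Sum.elim
    (fun a => if a.1 = 0 then LaurentPolynomial.C (al a.2) else LaurentPolynomial.C (be a.2))
    (fun b => if b then LaurentPolynomial.T (-1) else LaurentPolynomial.T 1) v :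
    MvPolynomial ((Fin 2 × Fin 5) ⊕ Bool) ℂ →ₐ[ℂ] LaurentPolynomial R7)).toRingHom

variable {X}

lemma piT_C (c : ℂ) : piT X (algebraMap ℂ (TT X) c) = LC X.wt (C c) := by
  have h : (aeval (fun v : (Fin 2 × Fin 5) ⊕ Bool => Sum.elim
    (fun a => if a.1 = 0 then LaurentPolynomial.C (al a.2) else LaurentPolynomial.C (be a.2))
    (fun b => if b then LaurentPolynomial.T (-1) else LaurentPolynomial.T 1) v) :
    MvPolynomial ((Fin 2 × Fin 5) ⊕ Bool) ℂ →ₐ[ℂ] LaurentPolynomial R7)
      (C c : MvPolynomial ((Fin 2 × Fin 5) ⊕ Bool) ℂ) = LaurentPolynomial.C (C c) := by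
    rw [aeval_C]
    rfl
  exact h

lemma piT_z0 (i : Fin 5) : piT X (z X 0 i) = LC X.wt (al i) := by
  have h : (aeval (fun v : (Fin 2 × Fin 5) ⊕ Bool => Sum.elim
    (fun a => if a.1 = 0 then LaurentPolynomial.C (al a.2) else LaurentPolynomial.C (be a.2))
    (fun b => if b then LaurentPolynomial.T (-1) else LaurentPolynomial.T 1) v) :
    MvPolynomial ((Fin 2 × Fin 5) ⊕ Bool) ℂ →ₐ[ℂ] LaurentPolynomial R7)
      (MvPolynomial.X (Sum.inl (0, i))) = LaurentPolynomial.C (al i) := by
    rw [aeval_X]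
    rfl
  exact h

lemma piT_z1 (i : Fin 5) : piT X (z X 1 i) = LC X.wt (be i) := by
  have h : (aeval (fun v : (Fin 2 × Fin 5) ⊕ Bool => Sum.elim
    (fun a => if a.1 = 0 then LaurentPolynomial.C (al a.2) else LaurentPolynomial.C (be a.2))
    (fun b => if b then LaurentPolynomial.T (-1) else LaurentPolynomial.T 1) v) :
    MvPolynomial ((Fin 2 × Fin 5) ⊕ Bool) ℂ →ₐ[ℂ] LaurentPolynomial R7)
      (MvPolynomial.X (Sum.inl (1, i))) = LaurentPolynomial.C (be i) := by
    rw [aeval_X]
    rfl
  exact h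

lemma piT_L : piT X (L X) = LT X.wt 1 := by
  have h : (aeval (fun v : (Fin 2 × Fin 5) ⊕ Bool => Sum.elim
    (fun a => if a.1 = 0 then LaurentPolynomial.C (al a.2) else LaurentPolynomial.C (be a.2))
    (fun b => if b then LaurentPolynomial.T (-1) else LaurentPolynomial.T 1) v) :
    MvPolynomial ((Fin 2 × Fin 5) ⊕ Bool) ℂ →ₐ[ℂ] LaurentPolynomial R7)
      (MvPolynomial.X (Sum.inr false)) = LaurentPolynomial.T 1 := by
    rw [aeval_X]
    rfl
  exact h

lemma piT_L' : piT X (L' X) = LT X.wt (-1) := by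
  have h : (aeval (fun v : (Fin 2 × Fin 5) ⊕ Bool => Sum.elim
    (fun a => if a.1 = 0 then LaurentPolynomial.C (al a.2) else LaurentPolynomial.C (be a.2))
    (fun b => if b then LaurentPolynomial.T (-1) else LaurentPolynomial.T 1) v) :
    MvPolynomial ((Fin 2 × Fin 5) ⊕ Bool) ℂ →ₐ[ℂ] LaurentPolynomial R7)
      (MvPolynomial.X (Sum.inr true)) = LaurentPolynomial.T (-1) := by
    rw [aeval_X]
    rfl
  exact h

lemma phiL_X0 (wt : Fin 5 → ℕ) (i : Fin 5) :
    phiL wt (MvPolynomial.X (0, i)) = LC wt (al i) := by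
  have h : phi0 wt (MvPolynomial.X (0, i)) = LaurentPolynomial.C (al i) := by
    rw [phi0, aeval_X]
    rfl
  exact h

lemma phiL_X1 (wt : Fin 5 → ℕ) (i : Fin 5) :
    phiL wt (MvPolynomial.X (1, i)) = LC wt (be i) * LT wt (wt i) := by
  have h : phi0 wt (MvPolynomial.X (1, i)) =
      LaurentPolynomial.C (be i) * LaurentPolynomial.T (wt i) := by
    rw [phi0, aeval_X]
    rfl
  exact h

lemma phiL_C (wt : Fin 5 → ℕ) (c : ℂ) : phiL wt (C c) = LC wt (C c) := by
  have h : phi0 wt (C c) = LaurentPolynomial.C (C c) := by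
    rw [phi0, aeval_C]
    rfl
  exact h

/-- the surjection is linear over the ring of the coordinates of two points -/
lemma piT_str (p : Coord (Fin 5) 2) : piT X (str X p) = phiL X.wt p := by
  have h : (piT X).comp (str X).toRingHom = phiL X.wt := by
    apply MvPolynomial.ringHom_ext
    · intro c
      rw [phiL_C, ← piT_C]
      change piT X (str X (C c)) = _
      congr 1
      exact (str X).commutes c
    · rintro ⟨k, i⟩
      change piT X (str X (MvPolynomial.X (k, i))) = _
      have hk : k = 0 ∨ k = 1 := by omega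
      rcases hk with rfl | rfl
      · rw [str_X0, piT_z0, phiL_X0]
      · rw [str_X1, map_mul, map_pow, piT_L, piT_z1, phiL_X1, LT_pow, mul_one, mul_comm]
  exact RingHom.congr_fun h p

variable (X) in
/-- a polynomial of `R` as an element of the big ring -/
noncomputable def lift : R7 →ₐ[ℂ] TT X :=
  aeval ![z X 0 0, z X 1 0, z X 0 1, z X 0 2, z X 0 3, z X 0 4, z X 1 4]

lemma piT_lift (r : R7) : piT X (lift X r) = LC X.wt r := by
  have h : (piT X).comp (lift X).toRingHom = LC X.wt := by
    apply MvPolynomial.ringHom_ext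
    · intro c
      rw [← piT_C]
      change piT X (lift X (C c)) = _
      congr 1
      exact (lift X).commutes c
    · intro i
      change piT X (lift X (MvPolynomial.X i)) = _
      rw [lift, aeval_X]
      fin_cases i
      · exact piT_z0 0
      · exact piT_z1 0
      · exact piT_z0 1
      · exact piT_z0 2
      · exact piT_z0 3
      · exact piT_z0 4
      · exact piT_z1 4
  exact RingHom.congr_fun h r

lemma piT_surjective : Function.Surjective (piT X) := by
  intro f
  obtain ⟨s, hs⟩ := sum_cf f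
  have hT : ∀ n : ℤ, ∃ t, piT X t = LT X.wt n := by
    intro n
    rcases Int.eq_nat_or_neg n with ⟨m, rfl | rfl⟩
    · exact ⟨L X ^ m, by rw [map_pow, piT_L, LT_pow, mul_one]⟩
    · exact ⟨L' X ^ m, by rw [map_pow, piT_L', LT_pow, mul_neg, mul_one]⟩
  choose g hg using hT
  refine ⟨∑ n ∈ s, lift X (cf X.wt f n) * g n, ?_⟩
  rw [map_sum]
  conv_rhs => rw [hs]
  refine Finset.sum_congr rfl fun n _ => ?_
  rw [map_mul, piT_lift, hg]

variable (X) in
/-- the surjection as a homomorphism of algebras -/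
noncomputable def piA : TT X →ₐ[Coord (Fin 5) 2] LL X.wt where
  toRingHom := piT X
  commutes' := fun p => piT_str p

variable (X) in
/-- the elements sent to Laurent polynomials with coefficients in `J` -/
noncomputable def KJ (J : Ideal R7) : Ideal (TT X) := (LI X.wt J).comap (piT X)

variable {J : Ideal R7}

lemma mem_KJ {t : TT X} : t ∈ KJ X J ↔ piT X t ∈ LI X.wt J := Iff.rfl

theorem cl_eq_TT (J : Ideal R7) (Q : Ideal (Coord (Fin 5) 2)) [Q.IsPrime] :
    cl X.wt J Q = len Q (TT X ⧸ KJ X J) := by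
  rw [cl_eq]
  exact (len_quot_surj Q (piA X) piT_surjective (KJ X J) (LI X.wt J) rfl).symm

lemma KJ_mono {J' : Ideal R7} (h : J ≤ J') : KJ X J ≤ KJ X J' :=
  Ideal.comap_mono (LI_mono h)

lemma KJ_LL' : L X * L' X - 1 ∈ KJ X J := by
  rw [mem_KJ, map_sub, map_mul, piT_L, piT_L', ← LT_add, map_one]
  have : LT X.wt (1 + -1) = 1 := by
    rw [add_neg_cancel, LT_zero]
  rw [this, sub_self]
  exact zero_mem _

/-- a common coordinate -/
lemma KJ_shared {j : Fin 5} (h : al j - be j ∈ J) : z X 0 j - z X 1 j ∈ KJ X J := by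
  rw [mem_KJ, map_sub, piT_z0, piT_z1, ← map_sub]
  exact LC_mem_LI h

lemma lift_mem_KJ {r : R7} : lift X r ∈ KJ X J ↔ r ∈ J := by
  rw [mem_KJ, piT_lift]
  refine ⟨fun h => ?_, LC_mem_LI⟩
  have := mem_LI.1 h 0
  rwa [cf_LC, if_pos rfl] at this

lemma KJ_sup (b : R7) : KJ X (J ⊔ Ideal.span {b}) = KJ X J ⊔ Ideal.span {lift X b} := by
  apply le_antisymm
  · intro t ht
    rw [mem_KJ, LI_sup] at ht
    obtain ⟨f, hf, y, hy, hfy⟩ := Submodule.mem_sup.1 ht
    obtain ⟨c, rfl⟩ := Ideal.mem_span_singleton.1 hy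
    obtain ⟨c, rfl⟩ := piT_surjective c
    have h1 : t - lift X b * c ∈ KJ X J := by
      rw [mem_KJ, map_sub, map_mul, piT_lift, ← hfy, add_sub_cancel_right]
      exact hf
    have h2 : t = (t - lift X b * c) + lift X b * c := by ring
    rw [h2]
    exact add_mem (Ideal.mem_sup_left h1)
      (Ideal.mem_sup_right (Ideal.mul_mem_right _ _ (Ideal.mem_span_singleton_self _)))
  · refine sup_le (KJ_mono le_sup_left) ?_
    rw [Ideal.span_singleton_le_iff_mem, lift_mem_KJ]
    exact Ideal.mem_sup_right (Ideal.mem_span_singleton_self b)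

lemma KJ_col (b : R7) (t : TT X) : t ∈ KJ X (Dg.col J b) ↔ lift X b * t ∈ KJ X J := by
  rw [mem_KJ, mem_KJ, LI_col, map_mul, piT_lift]

lemma KJ_nzd {b : R7} (h : Nzd J b) (t : TT X) (ht : lift X b * t ∈ KJ X J) : t ∈ KJ X J := by
  rw [← KJ_col, mem_KJ, mem_LI] at ht
  rw [mem_KJ, mem_LI]
  exact fun n => h _ (ht n)

lemma comap_KJ : (KJ X J).comap (algebraMap (Coord (Fin 5) 2) (TT X)) =
    RingHom.ker (phi X.wt J) := by
  ext p
  rw [Ideal.mem_comap, algebraMap_apply, mem_KJ, piT_str, mem_ker_phi]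

/-- the ideal is homogeneous -/
theorem KJ_homogeneous (hJ : Dg.Hom (w7 X.wt) J) : (KJ X J).IsHomogeneous (gr X) := by
  intro g t ht
  have h1 : ((DirectSum.decompose (gr X) t g : gr X g) : TT X) =
      (weightedHomogeneousComponent (tw X) g : MvPolynomial ((Fin 2 × Fin 5) ⊕ Bool) ℂ →ₗ[ℂ]
        MvPolynomial ((Fin 2 × Fin 5) ⊕ Bool) ℂ) t := by
    exact weightedDecomposition.decompose'_apply ℂ (tw X) t g
  rw [h1]
  refine mem_KJ.2 (mem_LI.2 fun n => ?_)
  refine cf_component (wt := X.wt) (σ := (Fin 2 × Fin 5) ⊕ Bool) (piT X)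
    (fun v => Sum.elim (fun a => if a.1 = 0 then al a.2 else be a.2) (fun _ => 1) v)
    (fun v => Sum.elim (fun _ => 0) (fun b => if b then -1 else 1) v)
    (fun v => Sum.elim (fun a => X.wt a.2) (fun _ => 0) v) (Fin 2 → ℤ) (tw X)
    (Pi.evalAddMonoidHom (fun _ : Fin 2 => ℤ) 1)
    (Pi.evalAddMonoidHom (fun _ : Fin 2 => ℤ) 0 + Pi.evalAddMonoidHom (fun _ : Fin 2 => ℤ) 1)
    ?_ ?_ ?_ t g n hJ ht ?_ ?_ ?_
  · rintro (a | b)
    · simp [tw]
    · cases b <;> simp [tw]
  · rintro (a | b)
    · simp [tw]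
    · cases b <;> simp [tw]
  · intro g h0 h1
    simp only [AddMonoidHom.add_apply, Pi.evalAddMonoidHom_apply] at h0 h1
    funext i
    have hi : i = 0 ∨ i = 1 := by omega
    rcases hi with rfl | rfl
    · rw [Pi.zero_apply]
      omega
    · exact h0
  · rintro (⟨k, i⟩ | b)
    · have hk : k = 0 ∨ k = 1 := by omega
      rcases hk with rfl | rfl
      · exact al_hom X.wt i
      · exact be_hom X.wt i
    · exact isWeightedHomogeneous_one ℂ (w7 X.wt)
  · rintro (⟨k, i⟩ | b)
    · have hk : k = 0 ∨ k = 1 := by omega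
      rcases hk with rfl | rfl
      · refine (piT_z0 i).trans ?_
        simp [LT_zero]
      · refine (piT_z1 i).trans ?_
        simp [LT_zero]
    · cases b
      · refine piT_L.trans ?_
        simp
      · refine piT_L'.trans ?_
        simp
  · exact piT_C

/-- the lift of a homogeneous polynomial is homogeneous -/
theorem lift_mem {b : R7} {m : ℕ} (hb : IsWeightedHomogeneous (w7 X.wt) b m) :
    lift X b ∈ gr X (Pi.single 0 (m : ℤ)) := by
  classical
  have h1 : ∀ c ∈ b.support, lift X (monomial c (coeff c b)) ∈ gr X (Pi.single 0 (m : ℤ)) := by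
    intro c hc
    have h2 : Finsupp.weight (w7 X.wt) c = m := hb (mem_support_iff.mp hc)
    have h3 : ∀ c : Fin 7 →₀ ℕ, lift X (monomial c (1 : ℂ)) ∈
        gr X (Pi.single 0 ((Finsupp.weight (w7 X.wt) c : ℕ) : ℤ)) := by
      intro c
      induction c using Finsupp.induction_linear with
      | zero =>
        have : (monomial (0 : Fin 7 →₀ ℕ) (1 : ℂ)) = 1 := rfl
        rw [this, map_one, map_zero]
        simp only [Nat.cast_zero, Pi.single_zero]
        exact SetLike.GradedOne.one_mem
      | add f g hf hg =>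
        have : (monomial (f + g) (1 : ℂ)) = monomial f 1 * monomial g 1 := by
          rw [monomial_mul, one_mul]
        rw [this, map_mul, map_add]
        push_cast
        rw [Pi.single_add]
        exact SetLike.mul_mem_graded hf hg
      | single a n =>
        have : (monomial (Finsupp.single a n) (1 : ℂ)) = MvPolynomial.X a ^ n := by
          rw [X_pow_eq_monomial]
        rw [this, map_pow, Finsupp.weight_apply, Finsupp.sum_single_index (by simp)]
        have h4 : lift X (MvPolynomial.X a) ∈ gr X (Pi.single 0 ((w7 X.wt a : ℕ) : ℤ)) := by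
          rw [lift, aeval_X]
          fin_cases a
          · exact z_mem X 0 0
          · exact z_mem X 1 0
          · exact z_mem X 0 1
          · exact z_mem X 0 2
          · exact z_mem X 0 3
          · exact z_mem X 0 4
          · exact z_mem X 1 4
        have h5 : (Pi.single 0 (((n • w7 X.wt a : ℕ)) : ℤ) : Fin 2 → ℤ) =
            n • Pi.single 0 ((w7 X.wt a : ℕ) : ℤ) := by
          rw [← Pi.single_smul]
          simp
        rw [h5]
        exact SetLike.pow_mem_graded n h4
    have h6 : lift X (monomial c (coeff c b)) = coeff c b • lift X (monomial c (1 : ℂ)) := by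
      rw [← map_smul, smul_monomial, smul_eq_mul, mul_one]
    rw [h6, ← h2]
    exact Submodule.smul_mem _ _ (h3 c)
  have h2 : lift X b = ∑ c ∈ b.support, lift X (monomial c (coeff c b)) := by
    conv_lhs => rw [b.as_sum, map_sum]
  rw [h2]
  exact Submodule.sum_mem _ h1

/-- the equations of the first point -/
lemma phiL_inFactor0 (wt : Fin 5 → ℕ) (f : MvPolynomial (Fin 5) ℂ) :
    phiL wt (inFactor 2 0 f) = LC wt (aeval al f) := by
  have h : (phiL wt).comp (inFactor 2 0).toRingHom = (LC wt).comp (aeval al).toRingHom := by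
    apply MvPolynomial.ringHom_ext
    · intro c
      change phiL wt (inFactor 2 0 (C c)) = LC wt (aeval al (C c))
      rw [inFactor, rename_C, phiL_C, aeval_C]
      rfl
    · intro i
      change phiL wt (inFactor 2 0 (MvPolynomial.X i)) = LC wt (aeval al (MvPolynomial.X i))
      rw [inFactor, rename_X, phiL_X0, aeval_X]
  exact RingHom.congr_fun h f

/-- the equations of the second point -/
theorem phiL_inFactor1 (wt : Fin 5 → ℕ) {f : MvPolynomial (Fin 5) ℂ} {d : ℕ}
    (hf : IsWeightedHomogeneous wt f d) :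
    phiL wt (inFactor 2 1 f) = LC wt (aeval be f) * LT wt d := by
  classical
  have h2 : f = ∑ c ∈ f.support, monomial c (coeff c f) := f.as_sum
  conv_lhs => rw [h2, map_sum, map_sum]
  conv_rhs => rw [h2, map_sum, map_sum, Finset.sum_mul]
  refine Finset.sum_congr rfl fun c hc => ?_
  have h3 : Finsupp.weight wt c = d := hf (mem_support_iff.mp hc)
  have h4 := (mono_form (wt := wt) ((phiL wt).comp (inFactor 2 1).toRingHom) (fun c => by
    change phiL wt (inFactor 2 1 (C c)) = _
    rw [inFactor, rename_C, phiL_C]) be (fun i => (wt i : ℤ)) wt (be_hom wt) (fun i => by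
    change phiL wt (inFactor 2 1 (MvPolynomial.X i)) = _
    rw [inFactor, rename_X, phiL_X1]) c (coeff c f)).2
  have h5 : Finsupp.weight (fun i => (wt i : ℤ)) c = (d : ℤ) := by
    rw [← h3, Finsupp.weight_apply, Finsupp.weight_apply, Finsupp.sum, Finsupp.sum]
    push_cast
    simp
  rw [h5] at h4
  exact h4

lemma str_inFactor0_mem {f : MvPolynomial (Fin 5) ℂ} (h : aeval al f ∈ J) :
    str X (inFactor 2 0 f) ∈ KJ X J := by
  rw [mem_KJ, piT_str, phiL_inFactor0]
  exact LC_mem_LI h

lemma str_inFactor1_mem {f : MvPolynomial (Fin 5) ℂ} {d : ℕ}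
    (hf : IsWeightedHomogeneous X.wt f d) (h : aeval be f ∈ J) :
    str X (inFactor 2 1 f) ∈ KJ X J := by
  rw [mem_KJ, piT_str, phiL_inFactor1 X.wt hf]
  exact Ideal.mul_mem_right _ _ (LC_mem_LI h)

/-- **(eqs)** -/
theorem KJ_eqs {F : MvPolynomial (Fin 5) ℂ} {d : ℕ} (hX : X.eqs = Ideal.span {F})
    (hF : IsWeightedHomogeneous X.wt F d) (hFa : aeval al F ∈ J) (hFb : aeval be F ∈ J)
    (i : Fin 2) (f : MvPolynomial (Fin 5) ℂ) (hf : f ∈ X.eqs) :
    algebraMap (Coord (Fin 5) 2) (TT X) (inFactor 2 i f) ∈ KJ X J := by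
  rw [hX] at hf
  obtain ⟨c, rfl⟩ := Ideal.mem_span_singleton.1 hf
  rw [map_mul, map_mul]
  refine Ideal.mul_mem_right _ _ ?_
  rw [algebraMap_apply]
  have hi : i = 0 ∨ i = 1 := by omega
  rcases hi with rfl | rfl
  · exact str_inFactor0_mem hFa
  · exact str_inFactor1_mem hF hFb

/-- **(fin)** -/
theorem KJ_fin {i k : Fin 5} (hi : al i - be i ∈ J) (hk : al k - be k ∈ J)
    (hwi : X.wt i ≠ 0) (hwk : X.wt k ≠ 0) (Q : Ideal (Coord (Fin 5) 2)) [hQ : Q.IsPrime]
    (hiQ : (MvPolynomial.X (0, i) : Coord (Fin 5) 2) ∉ Q)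
    (hkQ : (MvPolynomial.X (1, k) : Coord (Fin 5) 2) ∉ Q) :
    Module.Finite (Localization.AtPrime Q) (LocalizedModule Q.primeCompl (TT X ⧸ KJ X J)) :=
  TT.fin (KJ X J) KJ_LL' (KJ_shared hi) (KJ_shared hk) hwi hwk Q hiQ hkQ

end bridge

end Pool.Agent.RCH.Mn
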