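import Pool.Agent.RCH.NgLast
import Pool.Agent.RCH.KpFin

/-!
# The relation between the linear spaces on the product of two hypersurfaces of a pencil
-/

set_option autoImplicit false

open MvPolynomial

namespace Pool.Agent.RCH

namespace Kp

attribute [local instance] Pt.prime

/-- relation (A) on the product of the two hypersurfaces -/
def RelN {ι : Type} [Fintype ι] [DecidableEq ι] (A : AData ι) (F' : MvPolynomial ι ℂ) : Prop :=
  (A.m + 2) • (Finsupp.single (fg A.pYD) 1 - ∑ k, A.a k • Finsupp.single (fg (A.pC k)) 1 -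
    Finsupp.single (fg (A.pE 1)) 1 - Finsupp.single (fg (A.pE 0)) 1 : Cycles (projSpace ι) 2) ∈
      RatOn (projSpace ι) (pairIdeal A.F F')

/-- cycles on the square of a hypersurface as cycles on the square of the projective space -/
noncomputable abbrev fgC {ι : Type} (F : MvPolynomial ι ℂ) (N : ℕ) :
    Cycles (hyp F) N →+ Cycles (projSpace ι) N :=
  Finsupp.mapDomain.addMonoidHom (M := ℤ) fg

@[simp] lemma fgC_single {ι : Type} (F : MvPolynomial ι ℂ) {N : ℕ} (Q : Pt (hyp F) N) (n : ℤ) :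
    fgC F N (Finsupp.single Q n) = Finsupp.single (fg Q) n := Finsupp.mapDomain_single

lemma fgC_mem {ι : Type} {F : MvPolynomial ι ℂ} {N : ℕ} {J : Ideal (Coord ι N)}
    {c : Cycles (hyp F) N} (hc : c ∈ RatOn (hyp F) J) : fgC F N c ∈ RatOn (projSpace ι) J :=
  ratOn_fg hc

/-- relation (A), for a variety with the same equation -/
lemma relN_tr {ι : Type} [Fintype ι] [DecidableEq ι] (A : AData ι) {F F' : MvPolynomial ι ℂ}
    (hAF : A.F = F) (hN : RelN A F') (Y : Pt (hyp F) 2) (Cp : Fin A.T → Pt (hyp F) 2)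
    (E : Fin 2 → Pt (hyp F) 2)
    (hY : Y.I = genIdeal (hyp F) (dD 1 {A.om} ∅ A.f0))
    (hC : ∀ k, (Cp k).I = genIdeal (hyp F) (dD 1 {A.s, A.om} {A.al} (A.q k)))
    (hE : ∀ i, (E i).I = genIdeal (hyp F) (dE i {A.al} {A.om} A.f0)) :
    fgC F 2 ((A.m + 2) • (Finsupp.single Y 1 - ∑ k, A.a k • Finsupp.single (Cp k) 1 -
      Finsupp.single (E 1) 1 - Finsupp.single (E 0) 1 : Cycles (hyp F) 2)) ∈
        RatOn (projSpace ι) (pairIdeal F F') := by
  subst hAF
  have e1 : Y = A.pYD := Pt.ext' _ hY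
  have e2 : Cp = A.pC := funext fun k => Pt.ext' _ (hC k)
  have e3 : E = A.pE := funext fun i => Pt.ext' _ (hE i)
  rw [e1, e2, e3]
  simp only [map_nsmul, map_sub, map_sum, fgC_single]
  exact hN

namespace PlData

variable (S : PlData) {R F' : MvPolynomial S.J ℂ}

lemma pair_le_pU {B : BData S.J} (hB : B.F = S.F) (hK : S.x (2 * S.r + 4) ∈ B.K)
    (hF' : F' = S.F + MvPolynomial.X (S.x (2 * S.r + 4)) * R) : pairIdeal S.F F' ≤ B.pU.I := by
  rw [← hB] at hF' ⊢
  exact pairIdeal_le hF' B.pU (B.K_pU 1 hK)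

lemma ratOn_levels (hF' : F' = S.F + MvPolynomial.X (S.x (2 * S.r + 4)) * R) {i : ℕ}
    (hi : i < S.r) : S.Dc i + (S.m + 1) • S.Dc (i + 1) -
    (S.m + 2) • S.Dc (i + 2) - S.Ec i - (S.m + 2) • S.Ec (i + 1) ∈
      RatOn (hyp S.F) (pairIdeal S.F F') := by
  have hK : S.x (2 * S.r + 4) ∈ S.Kf i := (S.x_mem_Kf (by omega)).2 (Or.inl rfl)
  rw [S.Dc_le (i := i) (by omega), S.Dc_le (i := i + 1) (by omega), S.Ec_le (i := i) (by omega),
    S.Ec_le (i := i + 1) (by omega)]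
  by_cases h2 : i + 2 ≤ S.r
  · rw [S.Dc_le h2]
    have h : Finsupp.single ((S.bd1 h2).D0 : Pt (hyp S.F) 2) 1 +
        (S.m + 1) • Finsupp.single ((S.bd1 h2).D1 : Pt (hyp S.F) 2) 1 -
        (S.m + 2) • ∑ k : Fin 1, 1 • Finsupp.single ((S.bd1 h2).D2 k : Pt (hyp S.F) 2) 1 -
        (Finsupp.single ((S.bd1 h2).E0 1 : Pt (hyp S.F) 2) 1 +
          Finsupp.single ((S.bd1 h2).E0 0 : Pt (hyp S.F) 2) 1) -
        (S.m + 2) • (Finsupp.single ((S.bd1 h2).E1 1 : Pt (hyp S.F) 2) 1 +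
          Finsupp.single ((S.bd1 h2).E1 0 : Pt (hyp S.F) 2) 1 : Cycles (hyp S.F) 2) ∈
        RatOn (hyp S.F) (pairIdeal S.F F') :=
      (S.bd1 h2).ratOn_B (S.pair_le_pU (B := S.bd1 h2) rfl hK hF')
    rw [Fin.sum_univ_one, one_smul, S.bd1_D0 h2 (by omega), S.bd1_D1 h2 (by omega), S.bd1_D2 h2,
      S.bd1_E0 h2 (by omega), S.bd1_E0 h2 (by omega), S.bd1_E1 h2 (by omega),
      S.bd1_E1 h2 (by omega)] at h
    exact h
  · have h3 : i + 1 = S.r := by omega
    rw [S.Dc_last (i := i + 2) (by omega)]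
    have key : ∀ (D0 D1 : Pt (hyp S.F) 2) (D2 : Fin S.t → Pt (hyp S.F) 2)
        (E0 E1 : Fin 2 → Pt (hyp S.F) 2), D0 = (S.bd2 h3).D0 → D1 = (S.bd2 h3).D1 →
        D2 = (S.bd2 h3).D2 → E0 = (S.bd2 h3).E0 → E1 = (S.bd2 h3).E1 →
        (Finsupp.single D0 1 + (S.m + 1) • Finsupp.single D1 1 -
        (S.m + 2) • ∑ k : Fin S.t, S.a k • Finsupp.single (D2 k) 1 -
        (Finsupp.single (E0 1) 1 + Finsupp.single (E0 0) 1) -
        (S.m + 2) • (Finsupp.single (E1 1) 1 + Finsupp.single (E1 0) 1) : Cycles (hyp S.F) 2) ∈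
        RatOn (hyp S.F) (pairIdeal S.F F') := by
      rintro _ _ _ _ _ rfl rfl rfl rfl rfl
      exact (S.bd2 h3).ratOn_B (S.pair_le_pU (B := S.bd2 h3) rfl hK hF')
    exact key _ _ S.DL (S.EE (by omega)) (S.EE (by omega))
      (S.bd2_D0 h3 (by omega)).symm (S.bd2_D1 h3 (by omega)).symm
      (funext fun k => (S.bd2_D2 h3 k).symm) (funext fun j => (S.bd2_E0 h3 (by omega) j).symm)
      (funext fun j => (S.bd2_E1 h3 (by omega) j).symm)

lemma relN_levels (hN : ∀ A : AData S.J, A.m = S.m → A.om = S.x (2 * S.r + 4) → A.F = S.F →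
    RelN A F') :
    fgC S.F 2 ((S.m + 2) • (S.Dc 0 - S.Dc 1 - S.Ec 0)) ∈
      RatOn (projSpace S.J) (pairIdeal S.F F') := by
  have hr0 : 0 ≤ S.r := Nat.zero_le _
  rw [S.Dc_le hr0, S.Ec_le hr0]
  by_cases hr : 1 ≤ S.r
  · have h := relN_tr (S.ad1 hr) (S.ad1_F hr) (hN _ rfl rfl (S.ad1_F hr)) (S.DD hr0)
      (fun _ => S.DD hr) (S.EE hr0)
      (genIdeal_dD_congr S.F S.Kf_zero S.Ff_zero (S.ad1_f0 hr).symm)
      (fun _ => genIdeal_dD_congr S.F S.Kf_one S.Ff_one rfl)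
      (fun i => genIdeal_dE_congr S.F i S.Ff_one S.Kf_zero (S.ad1_f0 hr).symm)
    have h' : fgC S.F 2 ((S.m + 2) • (Finsupp.single (S.DD hr0) 1 -
        ∑ k : Fin 1, 1 • Finsupp.single (S.DD hr) 1 -
        Finsupp.single (S.EE hr0 1) 1 - Finsupp.single (S.EE hr0 0) 1 : Cycles (hyp S.F) 2)) ∈
          RatOn (projSpace S.J) (pairIdeal S.F F') := h
    rw [Fin.sum_univ_one, one_smul] at h'
    rw [S.Dc_le hr, ← sub_sub]
    exact h'
  · have hr' : S.r = 0 := by omega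
    have h := relN_tr (S.ad2 hr') (S.ad2_F hr') (hN _ rfl rfl (S.ad2_F hr')) (S.DD hr0) S.DL
      (S.EE hr0)
      (genIdeal_dD_congr S.F S.Kf_zero S.Ff_zero (S.ad2_f0 hr').symm)
      (fun _ => genIdeal_dD_congr S.F ((congrArg S.Kf (by omega)).trans S.Kf_one)
        ((congrArg S.Ff (by omega)).trans S.Ff_one) rfl)
      (fun i => genIdeal_dE_congr S.F i S.Ff_one S.Kf_zero (S.ad2_f0 hr').symm)
    have h' : fgC S.F 2 ((S.m + 2) • (Finsupp.single (S.DD hr0) 1 -
        ∑ k : Fin S.t, S.a k • Finsupp.single (S.DL k) 1 -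
        Finsupp.single (S.EE hr0 1) 1 - Finsupp.single (S.EE hr0 0) 1 : Cycles (hyp S.F) 2)) ∈
          RatOn (projSpace S.J) (pairIdeal S.F F') := h
    rw [S.Dc_last (i := 1) (by omega), ← sub_sub]
    exact h'

section main

variable (hF' : F' = S.F + MvPolynomial.X (S.x (2 * S.r + 4)) * R)
  (hN : ∀ A : AData S.J, A.m = S.m → A.om = S.x (2 * S.r + 4) → A.F = S.F → RelN A F')

include hF' in
lemma ratOn_step {i : ℕ} (hi : i < S.r) : S.Rc i + (S.m + 2) • S.Rc (i + 1) ∈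
    RatOn (hyp S.F) (pairIdeal S.F F') := by
  have h := S.ratOn_levels hF' hi
  have e : S.Rc i + (S.m + 2) • S.Rc (i + 1) = S.Dc i + (S.m + 1) • S.Dc (i + 1) -
      (S.m + 2) • S.Dc (i + 2) - S.Ec i - (S.m + 2) • S.Ec (i + 1) := by
    rw [Rc, Rc, smul_sub, smul_sub, succ_nsmul (S.Dc (i + 1)) (S.m + 1)]
    abel
  rw [e]
  exact h

include hF' hN in
lemma relN_level {i : ℕ} (hi : i ≤ S.r) : fgC S.F 2 ((S.m + 2) ^ (i + 1) • S.Rc i) ∈
    RatOn (projSpace S.J) (pairIdeal S.F F') := by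
  induction i with
  | zero =>
    have h := S.relN_levels hN
    rw [zero_add, pow_one, Rc, sub_right_comm]
    exact h
  | succ i ih =>
    have h1 := fgC_mem (AddSubgroup.nsmul_mem _ (S.ratOn_step hF' (i := i) (by omega))
      ((S.m + 2) ^ (i + 1)))
    have h2 := sub_mem h1 (ih (by omega))
    rw [← map_sub, smul_add, add_sub_cancel_left, smul_smul, ← pow_succ] at h2
    exact h2

include hF' hN in
/-- the relation between the products of the linear spaces -/
theorem relN_spaces : fgC S.F 2 ((S.m + 2) ^ (S.r + 1) •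
    ((S.m + 3) • ∑ k, S.a k • box (hyp S.F) ![S.pl k, S.pl k] -
      ∑ j, ∑ k, (S.a j * S.a k) • box (hyp S.F) ![S.pl j, S.pl k])) ∈
        RatOn (projSpace S.J) (pairIdeal S.F F') := by
  have hR := S.relN_level hF' hN le_rfl
  have hL := fgC_mem (AddSubgroup.nsmul_mem _ (S.ratOn_last hF') ((S.m + 2) ^ (S.r + 1)))
  have h := sub_mem hL hR
  simp only [box_LL]
  rw [← map_sub, ← smul_sub] at h
  have e : (Finsupp.single (S.DD (le_refl S.r)) 1 -
      ∑ j, ∑ k, (S.a j * S.a k) • Finsupp.single (S.LL j k) 1 +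
      (S.m + 2) • ∑ k, S.a k • Finsupp.single (S.LL k k) 1
      - Finsupp.single (S.EE (le_refl S.r) 1) 1 - Finsupp.single (S.EE (le_refl S.r) 0) 1 :
      Cycles (hyp S.F) 2) - S.Rc S.r =
      (S.m + 3) • ∑ k, S.a k • Finsupp.single (S.LL k k) 1 -
      ∑ j, ∑ k, (S.a j * S.a k) • Finsupp.single (S.LL j k) 1 := by
    have e1 : ∑ k, S.a k • (Finsupp.single (S.DL k) 1 : Cycles (hyp S.F) 2) =
        ∑ k, S.a k • (Finsupp.single (S.LL k k) 1 : Cycles (hyp S.F) 2) :=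
      Finset.sum_congr rfl fun k _ => by rw [S.DL_eq]
    rw [Rc, S.Dc_le le_rfl, S.Ec_le le_rfl, S.Dc_last rfl, e1,
      succ_nsmul (∑ k, S.a k • (Finsupp.single (S.LL k k) 1 : Cycles (hyp S.F) 2)) (S.m + 2)]
    abel
  rw [e] at h
  exact h

/-- the `k`-th linear space, in projective space -/
noncomputable def ql (k : Fin S.t) : Pt (projSpace S.J) 1 := fg (S.pl k)

lemma ql_I (k : Fin S.t) : (S.ql k).I = spaceIdeal S.r (S.b k) := S.pl_I_eq k

lemma ql_injective : Function.Injective S.ql := fun _ _ h => S.pl_injective (fg_injective _ h)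

lemma fgC_box (j k : Fin S.t) : fgC S.F 2 (box (hyp S.F) ![S.pl j, S.pl k]) =
    box (projSpace S.J) ![S.ql j, S.ql k] := by
  rw [box_LL, fgC_single, box_of_eq (projSpace S.J) ![S.ql j, S.ql k] (fg (S.LL j k))]
  rw [fg_I, LL_I, boxIdeal, boxIdeal]
  refine iSup_congr fun i => ?_
  fin_cases i <;> rfl

include hF' hN in
/-- the relation between the products of the linear spaces, in projective space -/
theorem relN_box : (S.m + 2) ^ (S.r + 1) •
    ((S.m + 3) • ∑ k, S.a k • box (projSpace S.J) ![S.ql k, S.ql k] -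
      ∑ j, ∑ k, (S.a j * S.a k) • box (projSpace S.J) ![S.ql j, S.ql k]) ∈
        RatOn (projSpace S.J) (pairIdeal S.F F') := by
  have h := S.relN_spaces hF' hN
  simp only [map_nsmul, map_sub, map_sum, fgC_box] at h
  exact h

include hF' hN in
/-- the sum over pairs of the products of the differences of two linear spaces -/
theorem relN_squares : (S.m + 2) ^ (S.r + 1) •
    ∑ j, ∑ k ∈ Finset.univ.filter (fun k => j < k), (S.a j * S.a k) •
      extPow (projSpace S.J) (Finsupp.single (S.ql j) 1 - Finsupp.single (S.ql k) 1) 2 ∈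
        RatOn (projSpace S.J) (pairIdeal S.F F') := by
  have h := S.relN_box hF' hN
  rw [sum_squares_aux S.a (S.m + 3) S.hsum (fun j k => box (projSpace S.J) ![S.ql j, S.ql k])] at h
  have h3 : ∑ j, ∑ k ∈ Finset.univ.filter (fun k => j < k), (S.a j * S.a k) •
      extPow (projSpace S.J) (Finsupp.single (S.ql j) 1 - Finsupp.single (S.ql k) 1) 2 =
      ∑ j, ∑ k ∈ Finset.univ.filter (fun k => j < k), (S.a j * S.a k) •
        (box (projSpace S.J) ![S.ql j, S.ql j] - box (projSpace S.J) ![S.ql j, S.ql k] -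
          box (projSpace S.J) ![S.ql k, S.ql j] + box (projSpace S.J) ![S.ql k, S.ql k]) := by
    refine Finset.sum_congr rfl fun j _ => Finset.sum_congr rfl fun k hk => ?_
    rw [extPow_two_single_sub_single (projSpace S.J)
      (fun h' => (Finset.mem_filter.1 hk).2.ne (S.ql_injective h'))]
  rw [h3]
  exact h

end main

end PlData

end Kp

end Pool.Agent.RCH
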