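import Pool.Agent.RCH.NgDomV

/-!
# The generic point of the fibre product
-/

set_option autoImplicit false

open MvPolynomial

namespace Pool.Agent.RCH

namespace Kp

attribute [local instance] Pt.prime

namespace AData

variable {ι : Type} [Fintype ι] [DecidableEq ι] (S : AData ι) (g0 : ℂ)

/-! ### The ring of the variety embeds -/

lemma coeff_Gg : (S.Gg g0).coeff (S.m + 2) = 1 := by
  rw [Gg, Polynomial.coeff_C_mul, coeff_polG_top, mul_comm (S.ptA S.om), lcInv_mul]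

lemma natDegree_Gg : (S.Gg g0).natDegree = S.m + 2 := by
  have := S.domA
  refine le_antisymm ((Polynomial.natDegree_C_mul_le _ _).trans (S.natDegree_polG_le g0 _ _))
    (Polynomial.le_natDegree_of_ne_zero ?_)
  rw [coeff_Gg]
  exact one_ne_zero

lemma inj_Ag : Function.Injective (AdjoinRoot.of (S.Gg g0)) := by
  have := S.domA
  apply AdjoinRoot.of.injective_of_degree_ne_zero
  intro h
  have h1 : (S.Gg g0).natDegree = 0 := Polynomial.natDegree_eq_of_degree_eq_some h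
  rw [natDegree_Gg] at h1
  omega

/-- the inclusion of the ring of the variety -/
noncomputable def incg : S.RX →+* S.RVg g0 :=
  (AdjoinRoot.of (S.Gg g0)).comp (algebraMap S.RX S.AX)

lemma incg_inj : Function.Injective (S.incg g0) := (S.inj_Ag g0).comp S.inj_X

lemma incg_ptX (j : ι) : S.incg g0 (S.ptX j) = S.ptVg0 g0 j := rfl

lemma ptVg0_ne (j : ι) : S.ptVg0 g0 j ≠ 0 := by
  rw [← incg_ptX]
  exact fun h => S.ptX_ne j (S.incg_inj g0 (h.trans (map_zero _).symm))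

lemma ptVg0_om_ne : S.ptVg0 g0 S.om ≠ 0 := S.ptVg0_ne g0 S.om

lemma ptVg1_ne {j : ι} (hj : j ≠ S.al) : S.ptVg1 g0 j ≠ 0 := by
  rw [S.ptVg1_of_ne g0 hj]
  exact S.ptVg0_ne g0 j

/-- the two values of the coordinate `al` are different -/
lemma rootg_ne [NeZero g0] : AdjoinRoot.root (S.Gg g0) ≠ S.ptVg0 g0 S.al := by
  intro h
  have h1 := S.F_ptVg1 g0
  have h2 : S.ptVg1 g0 = S.ptVg0 g0 := by
    rw [ptVg1, h, Function.update_eq_self]
  rw [h2, F_ptVg0] at h1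
  have h3 : algebraMap ℂ (S.RVg g0) g0 * S.ptVg0 g0 S.om ^ (S.m + 3) ≠ 0 := by
    refine mul_ne_zero ?_ (pow_ne_zero _ (S.ptVg0_om_ne g0))
    exact (map_ne_zero_iff _ (algebraMap ℂ (S.RVg g0)).injective).2 (NeZero.ne g0)
  exact h3 (by linear_combination h1)

/-! ### The generic point -/

/-- the generic point of the fibre product -/
noncomputable def ptVg : Fin 2 × ι → S.RVg g0 := pair (S.ptVg0 g0) (S.ptVg1 g0)

lemma ptVg_om_ne (i : Fin 2) : S.ptVg g0 (i, S.om) ≠ 0 := by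
  fin_cases i
  · exact S.ptVg0_om_ne g0
  · exact S.ptVg1_ne g0 S.halom.symm

/-- the fibre product -/
noncomputable def pVg [NeZero g0] : Pt (projSpace ι) 2 :=
  mkPt (projSpace ι) (S.ptVg g0) (fun i => ⟨S.om, S.ptVg_om_ne g0 i⟩)
    (fun i f hf => by
      have h0 : f = 0 := hf
      rw [h0, map_zero]
      exact Ideal.zero_mem _)

lemma pVg_I [NeZero g0] : (S.pVg g0).I = genIdeal (hyp S.F) (S.ptVg g0) := rfl

lemma pVg_I' [NeZero g0] : (S.pVg g0).I = genIdeal (projSpace ι) (S.ptVg g0) := rfl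

instance [NeZero g0] : (S.pVg g0).I.IsPrime := (S.pVg g0).prime

variable [NeZero g0]

/-- an element of the ideal of the fibre product vanishes at its points -/
lemma kill_Vg {L : Type} [CommRing L] (φ : Coord ι 2 →+* L) (w : L)
    (h1 : ∀ j, j ≠ S.al → xs φ 1 j = xs φ 0 j * w) (y : L) (h0 : xs φ 1 S.al = y * w)
    (hu : IsUnit (xs φ 0 S.om)) (hF : eval₂Hom (cs φ) (xs φ 0) S.F = 0)
    (hG : eval₂Hom (cs φ) (Function.update (xs φ 0) S.al y) (S.Fg g0) = 0) {z : Coord ι 2}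
    (hz : z ∈ (S.pVg g0).I) : φ z = 0 := by
  obtain ⟨γ, hγ1, hγ2, hγ3⟩ := S.exists_liftVg g0 (cs φ) (xs φ 0) hu hF y hG
  refine kill_gen S.F (S.ptVg g0) φ γ ![1, w] hγ1 ?_ hz
  intro i j
  fin_cases i
  · exact (by rw [hγ2]; simp : xs φ 0 j = γ (S.ptVg0 g0 j) * 1)
  · by_cases hj : j = S.al
    · subst hj
      refine h0.trans ?_
      exact congrArg (fun t => t * w) ((hγ3 S.al).trans (Function.update_self _ _ _)).symm
    · refine (h1 j hj).trans ?_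
      exact congrArg (fun t => t * w) ((hγ3 j).trans (Function.update_of_ne hj _ _)).symm

lemma notMem_of_aevalg {z : Coord ι 2} (h : aeval (S.ptVg g0) z ≠ 0) : z ∉ (S.pVg g0).I :=
  fun hz => h (ev_gen S.F (S.ptVg g0) hz)

lemma F_pVg : inFactor 2 0 S.F ∈ (S.pVg g0).I := by
  have hw : IsWeightedHomogeneous (hyp S.F).wt S.F (S.m + 3) := S.F_homog
  rw [pVg_I, mem_genIdeal_of_homogeneous (hyp S.F) _ (inFactor_homogeneous (hyp S.F) 0 hw),
    inFactor_aeval]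
  exact S.F_ptVg0 g0

lemma Fg_pVg : inFactor 2 1 (S.Fg g0) ∈ (S.pVg g0).I := by
  have hw : IsWeightedHomogeneous (hyp S.F).wt (S.Fg g0) (S.m + 3) := S.Fg_homog g0
  rw [pVg_I, mem_genIdeal_of_homogeneous (hyp S.F) _ (inFactor_homogeneous (hyp S.F) 1 hw),
    inFactor_aeval]
  exact S.Fg_ptVg1 g0

lemma pairIdeal_le_pVg : pairIdeal S.F (S.Fg g0) ≤ (S.pVg g0).I := by
  rw [pairIdeal, Ideal.span_le]
  rintro z (rfl | hz)
  · exact S.F_pVg g0
  · rw [Set.mem_singleton_iff.1 hz]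
    exact S.Fg_pVg g0

lemma mn_pVg {i j : ι} (hi : i ≠ S.al) (hj : j ≠ S.al) : mn i j ∈ (S.pVg g0).I := by
  change genHom (hyp S.F) (S.ptVg g0) (mn i j) = 0
  have h : ∀ k : ι, k ≠ S.al → S.ptVg g0 (1, k) = S.ptVg g0 (0, k) := fun k hk =>
    S.ptVg1_of_ne g0 hk
  rw [mn, map_sub, map_mul, map_mul]
  simp only [genHom, aeval_X, wt_hyp]
  rw [h i hi, h j hj]
  ring

lemma X_pVg (i : Fin 2) {j : ι} (hj : j ≠ S.al) :
    (MvPolynomial.X (i, j) : Coord ι 2) ∉ (S.pVg g0).I := by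
  refine S.notMem_of_aevalg g0 ?_
  rw [aeval_X]
  fin_cases i
  · exact S.ptVg0_ne g0 j
  · exact S.ptVg1_ne g0 hj

lemma NN_pVg {j : ι} (hj : j ≠ S.al) : mn S.al j ∉ (S.pVg g0).I := by
  refine S.notMem_of_aevalg g0 ?_
  have h1 : S.ptVg g0 (0, S.al) = S.ptVg0 g0 S.al := rfl
  have h2 : S.ptVg g0 (1, S.al) = AdjoinRoot.root (S.Gg g0) := S.ptVg1_al g0
  have h3 : S.ptVg g0 (0, j) = S.ptVg0 g0 j := rfl
  have h4 : S.ptVg g0 (1, j) = S.ptVg0 g0 j := S.ptVg1_of_ne g0 hj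
  rw [mn, map_sub, map_mul, map_mul, aeval_X, aeval_X, aeval_X, aeval_X, h1, h2, h3, h4, ← sub_mul]
  exact mul_ne_zero (sub_ne_zero.2 (S.rootg_ne g0).symm) (S.ptVg0_ne g0 j)

/-! ### The quotient homomorphism -/

/-- the quotient homomorphism -/
noncomputable abbrev qVg : Coord ι 2 →+* (Coord ι 2 ⧸ (S.pVg g0).I) :=
  Ideal.Quotient.mk (S.pVg g0).I

lemma qVg_eq_zero {z : Coord ι 2} : S.qVg g0 z = 0 ↔ z ∈ (S.pVg g0).I :=
  Ideal.Quotient.eq_zero_iff_mem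

lemma qVg_mn {j k : ι} (hj : j ≠ S.al) (hk : k ≠ S.al) :
    xs (S.qVg g0) 0 j * xs (S.qVg g0) 1 k = xs (S.qVg g0) 1 j * xs (S.qVg g0) 0 k := by
  have h := (S.qVg_eq_zero g0).2 (S.mn_pVg g0 hj hk)
  rw [map_mn, sub_eq_zero] at h
  exact h

lemma qVg_F0 : eval₂Hom (cs (S.qVg g0)) (xs (S.qVg g0) 0) S.F = 0 := by
  rw [← map_inFactor]
  exact (S.qVg_eq_zero g0).2 (S.F_pVg g0)

lemma qVg_Fg1 : eval₂Hom (cs (S.qVg g0)) (xs (S.qVg g0) 1) (S.Fg g0) = 0 := by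
  rw [← map_inFactor]
  exact (S.qVg_eq_zero g0).2 (S.Fg_pVg g0)

lemma qVg_F1 : eval₂Hom (cs (S.qVg g0)) (xs (S.qVg g0) 1) S.F =
    -(cs (S.qVg g0) g0 * xs (S.qVg g0) 1 S.om ^ (S.m + 3)) := by
  have h := S.qVg_Fg1 g0
  rw [Fg_ev] at h
  linear_combination h

end AData

end Kp

end Pool.Agent.RCH
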