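import Pool.Agent.RCH.KpAXY
import Pool.Agent.RCH.KpACa
import Pool.Agent.RCH.NgPts

/-!
# The fibre product at the diagonal of the hyperplane section
-/

set_option autoImplicit false

open MvPolynomial

namespace Pool.Agent.RCH

namespace Kp

attribute [local instance] Pt.prime

namespace AData

variable {ι : Type} [Fintype ι] [DecidableEq ι] (S : AData ι) (g0 : ℂ)

/-! ### Values of the second equation -/

lemma ngd_inFactor (i : Fin 2) :
    inFactor 2 i (S.Fg g0) =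
      inFactor 2 i S.F + C g0 * (MvPolynomial.X (i, S.om) : Coord ι 2) ^ (S.m + 3) := by
  have hX : inFactor 2 i (MvPolynomial.X S.om : MvPolynomial ι ℂ) =
      MvPolynomial.X (i, S.om) := by rw [inFactor, rename_X]
  have hC : inFactor 2 i (C g0 : MvPolynomial ι ℂ) = C g0 := by rw [inFactor, rename_C]
  rw [Fg, map_add, map_mul, map_pow, hX, hC]

lemma ngd_F_mem (i : Fin 2) :
    inFactor 2 i (S.Fg g0) ∈ S.pYD.I := by
  rw [ngd_inFactor]
  exact add_mem (F_mem S.pYD i)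
    (Ideal.mul_mem_left _ _ (Ideal.pow_mem_of_mem _ (S.X_pYD i) _ (by omega)))

/-! ### Killing the diagonal of the section -/

/-- two points which are proportional in the coordinates different from `al` and lie on the two
hypersurfaces are proportional where `x_om` is zero -/
lemma ngd_kill {L : Type} [CommRing L] (φ : Coord ι 2 →+* L)
    (hF0 : eval₂Hom (cs φ) (xs φ 0) S.F = 0)
    (hF1 : eval₂Hom (cs φ) (xs φ 1) (S.Fg g0) = 0)
    (hm : ∀ j, j ≠ S.al → xs φ 0 j * xs φ 1 S.s = xs φ 1 j * xs φ 0 S.s)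
    (hx : IsUnit (xs φ 0 S.s)) (hy : IsUnit (xs φ 1 S.s)) (ho : xs φ 0 S.om = 0)
    {z : Coord ι 2} (hz : z ∈ S.pYD.I) : φ z = 0 := by
  have ho1 : xs φ 1 S.om = 0 := by
    have h := hm S.om S.halom.symm
    rw [ho, zero_mul] at h
    exact (hx.mul_left_eq_zero).1 h.symm
  obtain ⟨w, hw, hwj⟩ := ratio (x := xs φ 0) (y := xs φ 1) hx hy (hm S.s S.hals.symm)
  have hwj' : ∀ j, j ≠ S.al → xs φ 0 j = w * xs φ 1 j := fun j hj => by
    rw [hwj j (hm j hj), mul_comm]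
  rw [Fg_ev, ho1, zero_pow (by omega), mul_zero, add_zero, F_ev, ho1, zero_mul, add_zero,
    f0_ev] at hF1
  rw [F_ev, ho, zero_mul, add_zero, f0_ev] at hF0
  have hg : eval₂Hom (cs φ) (xs φ 0) S.g = w ^ (S.m + 2) * eval₂Hom (cs φ) (xs φ 1) S.g := by
    rw [← ev_smul (cs φ) (xs φ 1) S.hgh w]
    exact ev_congr _ _ fun j hj => hwj' j (S.hgv j hj).1
  have ht : eval₂Hom (cs φ) (xs φ 0) S.tau = w ^ (S.m + 3) * eval₂Hom (cs φ) (xs φ 1) S.tau := by
    rw [← ev_smul (cs φ) (xs φ 1) S.tau_homog w]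
    exact ev_congr _ _ fun j hj => hwj' j (S.tau_vars hj).1
  have hs := hwj' S.s S.hals.symm
  have hal : xs φ 0 S.al = xs φ 1 S.al * w := by
    have hu : IsUnit (xs φ 0 S.s ^ (S.m + 2)) := hx.pow _
    have h1 : xs φ 0 S.s ^ (S.m + 2) * (xs φ 0 S.al - xs φ 1 S.al * w) = 0 := by
      have h2 : xs φ 0 S.s ^ (S.m + 2) = w ^ (S.m + 2) * xs φ 1 S.s ^ (S.m + 2) := by
        rw [hs, mul_pow]
      rw [hg, ht] at hF0
      linear_combination hF0 - (w ^ (S.m + 3)) * hF1 - (xs φ 1 S.al * w) * h2 -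
        (w ^ (S.m + 2) * eval₂Hom (cs φ) (xs φ 1) S.g) * hs
    exact sub_eq_zero.1 ((hu.mul_right_eq_zero).1 h1)
  refine kill_dD φ 1 0 (by decide) w hw ?_ ?_ ?_ hz
  · intro i j hj
    rw [Finset.mem_singleton.1 hj]
    rcases (by omega : i = 0 ∨ i = 1) with rfl | rfl
    · exact ho
    · exact ho1
  · rw [f0_ev]
    exact hF1
  · intro j _ _
    by_cases hj : j = S.al
    · rw [hj]
      exact hal
    · exact hwj j (hm j hj)

/-! ### The family -/

/-- the indices of the family -/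
abbrev NDκ : Type := Option (Option {j : ι // j ≠ S.al ∧ j ≠ S.s})

/-- the family -/
noncomputable def ndfam : S.NDκ → Coord ι 2
  | none => inFactor 2 0 S.F
  | some none => inFactor 2 1 (S.Fg g0)
  | some (some j) => mn S.s j.1

lemma ndfam_mem (i : S.NDκ) : S.ndfam g0 i ∈ S.pYD.I := by
  rcases i with _ | _ | j
  · exact F_mem S.pYD 0
  · exact S.ngd_F_mem g0 1
  · exact S.mn_pYD _ _

/-- the elements of the family and the uniformizer generate the ideal locally -/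
lemma ndfam_kill {L : Type} [CommRing L] (φ : Coord ι 2 →+* L)
    (h : ∀ i, φ (S.ndfam g0 i) = 0) (ht : φ (MvPolynomial.X (0, S.om)) = 0)
    (hx : IsUnit (xs φ 0 S.s)) (hy : IsUnit (xs φ 1 S.s)) {z : Coord ι 2}
    (hz : z ∈ S.pYD.I) : φ z = 0 := by
  refine S.ngd_kill g0 φ ?_ ?_ ?_ hx hy ht hz
  · rw [← map_inFactor]
    exact h none
  · rw [← map_inFactor]
    exact h (some none)
  · intro j hj
    by_cases hjs : j = S.s
    · subst hjs
      exact mul_comm _ _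
    · have h1 := h (some (some ⟨j, hj, hjs⟩))
      have h2 : φ (mn S.s j) = 0 := h1
      rw [map_mn] at h2
      linear_combination -h2

/-- the quotient homomorphism -/
noncomputable abbrev ndq : Coord ι 2 →+* (Coord ι 2 ⧸ S.pYD.I) := Ideal.Quotient.mk S.pYD.I

lemma ndq_eq_zero {z : Coord ι 2} : S.ndq z = 0 ↔ z ∈ S.pYD.I := Ideal.Quotient.eq_zero_iff_mem

omit [Fintype ι] [DecidableEq ι] in
lemma nd_pderiv_mn [DecidableEq ι] {b j : ι} (i : Fin 2) {l : ι} (hl : l ≠ b) :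
    pderiv (i, l) (mn b j : Coord ι 2) =
      if l = j then (if i = 1 then MvPolynomial.X (0, b) else -MvPolynomial.X (1, b)) else 0 := by
  have e : ∀ v w : Fin 2 × ι, pderiv v (MvPolynomial.X w : Coord ι 2) = if v = w then 1 else 0 := by
    intro v w
    by_cases h : v = w
    · rw [if_pos h, h, pderiv_X_self]
    · rw [if_neg h, pderiv_X_of_ne (Ne.symm h)]
  have hlb : ∀ a : Fin 2, ((i, l) : Fin 2 × ι) ≠ (a, b) := fun a h => hl (Prod.mk.inj h).2
  rw [mn, map_sub, pderiv_mul, pderiv_mul, e, e, e, e, if_neg (hlb 0), if_neg (hlb 1)]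
  by_cases h : l = j
  · subst h
    have hi : i = 0 ∨ i = 1 := by omega
    rcases hi with rfl | rfl
    · simp
    · simp
  · have h0 : ∀ a : Fin 2, ((i, l) : Fin 2 × ι) ≠ (a, j) := fun a h' => h (Prod.mk.inj h').2
    rw [if_neg (h0 0), if_neg (h0 1), if_neg h]
    ring

lemma nd_pderiv_al (i : Fin 2) :
    S.ndq (pderiv (i, S.al) (inFactor 2 i S.F)) = S.ndq (MvPolynomial.X (i, S.s)) ^ (S.m + 2) := by
  have ho : S.ndq (MvPolynomial.X (i, S.om)) = 0 := S.ndq_eq_zero.2 (S.X_pYD i)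
  have hX : ∀ j : ι, inFactor 2 i (MvPolynomial.X j : MvPolynomial ι ℂ) =
      MvPolynomial.X (i, j) := fun j => by rw [inFactor, rename_X]
  rw [ac_pderiv_inFactor, pderiv_F, dF]
  simp only [map_add, map_mul, map_pow, hX, ho, zero_mul, add_zero]

lemma nd_jac (c : S.NDκ → Coord ι 2) (d : Coord ι 2)
    (h : ∀ v : Fin 2 × ι, ∑ i, c i * pderiv v (S.ndfam g0 i) +
      d * pderiv v (MvPolynomial.X (0, S.om) : Coord ι 2) ∈ S.pYD.I) :
    (∀ i, c i ∈ S.pYD.I) ∧ d ∈ S.pYD.I := by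
  have hdom : IsDomain (Coord ι 2 ⧸ S.pYD.I) :=
    (Ideal.Quotient.isDomain_iff_prime _).2 S.pYD.prime
  have hF' : ∀ v : Fin 2 × ι, S.ndq (pderiv v (inFactor 2 1
      (S.Fg g0))) = S.ndq (pderiv v (inFactor 2 1 S.F)) := by
    intro v
    have ho : S.ndq (MvPolynomial.X (1, S.om)) = 0 := S.ndq_eq_zero.2 (S.X_pYD 1)
    rw [ngd_inFactor, map_add, pderiv_mul, pderiv_C, pderiv_pow, map_add, map_add]
    simp [ho]
  have key : ∀ v : Fin 2 × ι, S.ndq (c none) * S.ndq (pderiv v (inFactor 2 0 S.F)) +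
      (S.ndq (c (some none)) * S.ndq (pderiv v (inFactor 2 1 S.F)) +
        ∑ j : {j : ι // j ≠ S.al ∧ j ≠ S.s}, S.ndq (c (some (some j))) *
            S.ndq (pderiv v (mn S.s j.1))) +
      S.ndq d * S.ndq (pderiv v (MvPolynomial.X (0, S.om))) = 0 := by
    intro v
    have h1 := S.ndq_eq_zero.2 (h v)
    rw [map_add, map_mul, map_sum, Fintype.sum_option, Fintype.sum_option] at h1
    simp only [map_mul] at h1
    rw [← hF' v]
    exact h1
  have hsum : ∀ (i : Fin 2) (l : ι) (hl : l ≠ S.al ∧ l ≠ S.s),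
      ∑ j : {j : ι // j ≠ S.al ∧ j ≠ S.s}, S.ndq (c (some (some j))) *
            S.ndq (pderiv (i, l) (mn S.s j.1)) =
      S.ndq (c (some (some ⟨l, hl⟩))) *
        S.ndq (if i = 1 then MvPolynomial.X (0, S.s) else -MvPolynomial.X (1, S.s)) := by
    intro i l hl
    rw [Finset.sum_eq_single (⟨l, hl⟩ : {j : ι // j ≠ S.al ∧ j ≠ S.s})]
    · rw [nd_pderiv_mn i hl.2, if_pos rfl]
    · intro j _ hj
      have hne : ¬ (l = j.1) := fun h => hj (Subtype.ext h.symm)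
      rw [nd_pderiv_mn i hl.2, if_neg hne, map_zero, mul_zero]
    · intro h
      exact absurd (Finset.mem_univ _) h
  have hsum0 : ∀ i : Fin 2,
      ∑ j : {j : ι // j ≠ S.al ∧ j ≠ S.s}, S.ndq (c (some (some j))) *
            S.ndq (pderiv (i, S.al) (mn S.s j.1)) = 0 := by
    intro i
    refine Finset.sum_eq_zero fun j _ => ?_
    rw [nd_pderiv_mn i S.hals, if_neg (fun h => j.2.1 h.symm), map_zero, mul_zero]
  have h01 : ∀ l : ι, pderiv (0, l) (inFactor 2 1 S.F) = 0 :=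
    fun l => ac_pderiv_inFactor_ne (by decide) _ _
  have h10 : ∀ l : ι, pderiv (1, l) (inFactor 2 0 S.F) = 0 :=
    fun l => ac_pderiv_inFactor_ne (by decide) _ _
  have ht : ∀ v : Fin 2 × ι, v ≠ (0, S.om) →
      pderiv v (MvPolynomial.X (0, S.om) : Coord ι 2) = 0 :=
    fun v hv => pderiv_X_of_ne (Ne.symm hv)
  have hx0 : ∀ i, S.ndq (MvPolynomial.X (i, S.s)) ≠ 0 := fun i h =>
    S.X_pYD_ne i S.hsom (S.ndq_eq_zero.1 h)
  have hA : S.ndq (c none) = 0 := by
    have h1 := key (0, S.al)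
    rw [h01, hsum0, ht _ (fun h => S.halom (Prod.mk.inj h).2), nd_pderiv_al, map_zero, mul_zero,
      mul_zero, add_zero, add_zero, add_zero] at h1
    exact (mul_eq_zero.1 h1).resolve_right (pow_ne_zero _ (hx0 0))
  have hB : S.ndq (c (some none)) = 0 := by
    have h1 := key (1, S.al)
    rw [h10, hsum0, ht _ (fun h => S.halom (Prod.mk.inj h).2), nd_pderiv_al, map_zero, mul_zero,
      mul_zero, add_zero, add_zero, zero_add] at h1
    exact (mul_eq_zero.1 h1).resolve_right (pow_ne_zero _ (hx0 1))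
  have hC : ∀ j : {j : ι // j ≠ S.al ∧ j ≠ S.s}, S.ndq (c (some (some j))) = 0 := by
    intro j
    have h1 := key (1, j.1)
    rw [h10, hsum 1 j.1 j.2, ht _ (fun h => absurd (Prod.mk.inj h).1 (by decide)), hB, map_zero,
      mul_zero, mul_zero, zero_mul, zero_add, zero_add, add_zero, if_pos rfl] at h1
    exact (mul_eq_zero.1 h1).resolve_right (hx0 0)
  have hd : S.ndq d = 0 := by
    have h1 := key (0, S.om)
    rw [hA, hB, zero_mul, zero_mul, Finset.sum_eq_zero (fun j _ => by rw [hC j, zero_mul]),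
      zero_add, zero_add, zero_add, pderiv_X_self, map_one, mul_one] at h1
    exact h1
  refine ⟨?_, S.ndq_eq_zero.1 hd⟩
  rintro (_ | _ | j)
  · exact S.ndq_eq_zero.1 hA
  · exact S.ndq_eq_zero.1 hB
  · exact S.ndq_eq_zero.1 (hC j)

/-- a prime between, which does not contain `x_om` -/
theorem nd_between : ∃ L : Ideal (Coord ι 2), L.IsPrime ∧ inFactor 2 0 S.F ∈ L ∧
    inFactor 2 1 (S.Fg g0) ∈ L ∧
    (∀ j, j ≠ S.al → mn S.s j ∈ L) ∧ L < S.pYD.I ∧
    (MvPolynomial.X (0, S.om) : Coord ι 2) ∉ L := by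
  obtain ⟨L, hL, hfam, hLQ, ht⟩ := kj (Q := S.pYD.I) (S.ndfam g0) (MvPolynomial.X (0, S.om))
    (S.ndfam_mem g0) (S.X_pYD 0) (by
      intro z hz
      set J := Ideal.span (Set.range (S.ndfam g0)) ⊔
        Ideal.span {(MvPolynomial.X (0, S.om) : Coord ι 2)} with hJ
      refine S.ndfam_kill g0 (toLocMod J S.pYD.I) ?_ ?_ ?_ ?_ hz
      · intro i
        exact toLocMod_eq_zero_of_mem (Ideal.mem_sup_left (Ideal.subset_span ⟨i, rfl⟩))
      · exact toLocMod_eq_zero_of_mem (Ideal.mem_sup_right (Ideal.mem_span_singleton_self _))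
      · exact isUnit_toLocMod (S.X_pYD_ne 0 S.hsom)
      · exact isUnit_toLocMod (S.X_pYD_ne 1 S.hsom)) (S.nd_jac g0)
  refine ⟨L, hL, hfam none, hfam (some none), ?_, hLQ, ht⟩
  intro j hj
  by_cases hjs : j = S.s
  · subst hjs
    rw [mn, mul_comm, sub_self]
    exact zero_mem _
  · exact hfam (some (some ⟨j, hj, hjs⟩))

/-! ### The relation -/

section rel

variable {L : Type} [CommRing L] (φ : Coord ι 2 →+* L)

/-- the value at the point with the first coordinates -/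
lemma nd_eval_self (j : ι) {p : MvPolynomial ι ℂ} {n : ℕ} (hp : p.IsHomogeneous n) :
    φ ((polF C (fun k => vx 1 j * vx 0 k) S.al p).eval (vx 1 j * vx 0 S.al)) =
      xs φ 1 j ^ n * eval₂Hom (cs φ) (xs φ 0) p := by
  have e1 : Function.update (fun k => vx 1 j * vx 0 k) S.al (vx 1 j * vx 0 S.al) =
      (fun k => vx 1 j * vx 0 k : ι → Coord ι 2) :=
    Function.update_eq_self S.al (fun k => vx 1 j * vx 0 k : ι → Coord ι 2)
  have e2 : (fun k => φ (vx 1 j * vx 0 k)) = fun k => xs φ 1 j * xs φ 0 k := by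
    funext k
    exact map_mul _ _ _
  have e3 : φ.comp C = cs φ := rfl
  rw [eval_polF, e1, map_ev, e3, e2, ev_smul _ _ hp]

/-- the value at the point with the second coordinates -/
lemma nd_eval_upd {j : ι} (hm : ∀ k, k ≠ S.al → xs φ 0 j * xs φ 1 k = xs φ 1 j * xs φ 0 k)
    {p : MvPolynomial ι ℂ} {n : ℕ} (hp : p.IsHomogeneous n) :
    φ ((polF C (fun k => vx 1 j * vx 0 k) S.al p).eval (vx 0 j * vx 1 S.al)) =
      xs φ 0 j ^ n * eval₂Hom (cs φ) (xs φ 1) p := by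
  have e1 : (fun k => φ (Function.update (fun k => vx 1 j * vx 0 k) S.al
      (vx 0 j * vx 1 S.al) k)) = fun k => xs φ 0 j * xs φ 1 k := by
    funext k
    by_cases hk : k = S.al
    · subst hk
      rw [Function.update_self]
      exact map_mul _ _ _
    · rw [Function.update_of_ne hk, map_mul, hm k hk]
      rfl
  have e3 : φ.comp C = cs φ := rfl
  rw [eval_polF, map_ev, e3, e1, ev_smul _ _ hp]

end rel

/-- the relation between the minor and the coordinates `om` -/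
lemma nd_rel (J : Ideal (Coord ι 2)) (hF0 : inFactor 2 0 S.F ∈ J)
    (hF1 : inFactor 2 1 (S.Fg g0) ∈ J)
    (hmn : ∀ i j, i ≠ S.al → j ≠ S.al → mn i j ∈ J) :
    ∃ B : Coord ι 2, mn S.al S.s * ((MvPolynomial.X (1, S.s) * MvPolynomial.X (0, S.s)) ^ (S.m + 2) +
      MvPolynomial.X (1, S.s) * MvPolynomial.X (0, S.om) * B) -
      C g0 * (MvPolynomial.X (1, S.s) * MvPolynomial.X (0, S.om)) ^ (S.m + 3) ∈ J := by
  obtain ⟨B, hB⟩ := Polynomial.evalSubFactor (polF C (fun k => vx 1 S.s * vx 0 k) S.al S.P)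
    (vx 1 S.s * vx 0 S.al) (vx 0 S.s * vx 1 S.al)
  refine ⟨B, ?_⟩
  set φ : Coord ι 2 →+* (Coord ι 2 ⧸ J) := Ideal.Quotient.mk J with hφ
  have h0 : ∀ z, φ z = 0 ↔ z ∈ J := fun z => Ideal.Quotient.eq_zero_iff_mem
  have hm : ∀ k, k ≠ S.al → xs φ 0 S.s * xs φ 1 k = xs φ 1 S.s * xs φ 0 k := by
    intro k hk
    have h1 := (h0 _).2 (hmn S.s k S.hals.symm hk)
    rw [map_mn, sub_eq_zero] at h1
    exact h1
  have hB' := congrArg φ hB
  rw [map_sub, S.nd_eval_self φ S.s S.hP, S.nd_eval_upd φ hm S.hP, map_mul, map_sub, map_mul,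
    map_mul] at hB'
  have hk := S.key_rel (cs φ) (xs φ 0) (xs φ 1) S.s hm
  have e0 := (h0 _).2 hF0
  have e1 := (h0 _).2 hF1
  rw [map_inFactor] at e0 e1
  rw [Fg_ev] at e1
  rw [← h0, map_sub, map_mul, map_mul, map_pow, map_mul, map_add, map_pow, map_mul, map_mul, map_mul,
    map_mn]
  have hom := hm S.om S.halom.symm
  have hom' : (xs φ 0 S.s * xs φ 1 S.om) ^ (S.m + 3) =
      (xs φ 1 S.s * xs φ 0 S.om) ^ (S.m + 3) := by rw [hom]
  change (xs φ 0 S.al * xs φ 1 S.s - xs φ 1 S.al * xs φ 0 S.s) *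
    ((xs φ 1 S.s * xs φ 0 S.s) ^ (S.m + 2) + xs φ 1 S.s * xs φ 0 S.om * φ B) -
    cs φ g0 * (xs φ 1 S.s * xs φ 0 S.om) ^ (S.m + 3) = 0
  change _ = φ B * (xs φ 1 S.s * xs φ 0 S.al - xs φ 0 S.s * xs φ 1 S.al) at hB'
  linear_combination (-1 : Coord ι 2 ⧸ J) * hk - (xs φ 1 S.s * xs φ 0 S.om) * hB' +
    xs φ 1 S.s ^ (S.m + 3) * e0 - xs φ 0 S.s ^ (S.m + 3) * e1 + cs φ g0 * hom'

/-! ### The orders -/

section ords

variable {S g0} (J : Ideal (Coord ι 2)) [J.IsPrime]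

/-- the orders at the diagonal of the section, for a prime ideal with the equations and the minors -/
theorem nd_ord (hF0 : inFactor 2 0 S.F ∈ J)
    (hF1 : inFactor 2 1 (S.Fg g0) ∈ J)
    (hmn : ∀ i j, i ≠ S.al → j ≠ S.al → mn i j ∈ J)
    (hom : (MvPolynomial.X (0, S.om) : Coord ι 2) ∉ J) (hle : J ≤ S.pYD.I) (hg : g0 ≠ 0) :
    CodimOne J S.pYD.I ∧ ordAt J S.pYD.I (mn S.al S.om) = (S.m + 4 : ℕ) ∧
      ordAt J S.pYD.I (MvPolynomial.X (0, S.om)) = (1 : ℕ) ∧
      ordAt J S.pYD.I (MvPolynomial.X (1, S.om)) = (1 : ℕ) := by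
  have hx := S.X_pYD_ne 0 S.hsom
  have hy := S.X_pYD_ne 1 S.hsom
  have hreg : ∀ z ∈ S.pYD.I, ∃ s, s ∉ S.pYD.I ∧
      s * z ∈ J ⊔ Ideal.span {(MvPolynomial.X (0, S.om) : Coord ι 2)} := by
    intro z hz
    apply exists_of_toLocMod_eq_zero
    refine S.ndfam_kill g0 (toLocMod (J ⊔ Ideal.span {(MvPolynomial.X (0, S.om) : Coord ι 2)})
      S.pYD.I) ?_ ?_ (isUnit_toLocMod hx) (isUnit_toLocMod hy) hz
    · rintro (_ | _ | j)
      · exact toLocMod_eq_zero_of_mem (Ideal.mem_sup_left hF0)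
      · exact toLocMod_eq_zero_of_mem (Ideal.mem_sup_left hF1)
      · exact toLocMod_eq_zero_of_mem (Ideal.mem_sup_left (hmn _ _ S.hals.symm j.2.1))
    · exact toLocMod_eq_zero_of_mem (Ideal.mem_sup_right (Ideal.mem_span_singleton_self _))
  have hpow : ∀ {a : Coord ι 2} (n : ℕ), a ∉ S.pYD.I → a ^ n ∉ S.pYD.I :=
    fun n ha h => ha (S.pYD.prime.mem_of_pow_mem n h)
  have hmul : ∀ {a b : Coord ι 2}, a ∉ S.pYD.I → b ∉ S.pYD.I → a * b ∉ S.pYD.I :=
    fun ha hb h => (S.pYD.prime.mem_or_mem h).elim ha hb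
  have hone : ordAt J S.pYD.I (MvPolynomial.X (0, S.om)) = (1 : ℕ) := by
    have h1 : (1 : Coord ι 2) ∉ S.pYD.I := fun h =>
      S.pYD.prime.ne_top ((Ideal.eq_top_iff_one _).2 h)
    refine ordAt_eq hle (S.X_pYD 0) hom hreg (s := 1) (s' := 1) (n := 1) h1 h1 ?_
    rw [pow_one, sub_self]
    exact zero_mem _
  refine ⟨codimOne_of hle (S.X_pYD 0) hom hreg, ?_, hone, ?_⟩
  · obtain ⟨B, hB⟩ := S.nd_rel g0 J hF0 hF1 hmn
    have hW : (MvPolynomial.X (1, S.s) * MvPolynomial.X (0, S.s) : Coord ι 2) ^ (S.m + 2) +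
        MvPolynomial.X (1, S.s) * MvPolynomial.X (0, S.om) * B ∉ S.pYD.I := by
      intro h
      have h2 : MvPolynomial.X (1, S.s) * MvPolynomial.X (0, S.om) * B ∈ S.pYD.I :=
        Ideal.mul_mem_right _ _ (Ideal.mul_mem_left _ _ (S.X_pYD 0))
      exact hpow _ (hmul hy hx) ((Ideal.add_mem_iff_left _ h2).1 h)
    have hC : (C g0 : Coord ι 2) ∉ S.pYD.I := fun h =>
      S.pYD.prime.ne_top (Ideal.eq_top_of_isUnit_mem _ h ((isUnit_iff_ne_zero.2 hg).map C))
    refine ordAt_eq hle (S.X_pYD 0) hom hreg (n := S.m + 4)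
      (s := MvPolynomial.X (0, S.s) * ((MvPolynomial.X (1, S.s) * MvPolynomial.X (0, S.s)) ^ (S.m + 2) +
        MvPolynomial.X (1, S.s) * MvPolynomial.X (0, S.om) * B))
      (s' := C g0 * MvPolynomial.X (1, S.s) ^ (S.m + 3)) (hmul hx hW) (hmul hC (hpow _ hy)) ?_
    have h2 := hmn S.s S.om S.hals.symm S.halom.symm
    have h := add_mem (J.mul_mem_left (MvPolynomial.X (0, S.om)) hB)
      (J.mul_mem_left (((MvPolynomial.X (1, S.s) * MvPolynomial.X (0, S.s)) ^ (S.m + 2) +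
        MvPolynomial.X (1, S.s) * MvPolynomial.X (0, S.om) * B) * MvPolynomial.X (0, S.al)) h2)
    convert h using 1
    rw [mn, mn, mn]
    ring
  · rw [← hone, ← ordAt_unit_mul hx (MvPolynomial.X (1, S.om)),
      ← ordAt_unit_mul hy (MvPolynomial.X (0, S.om))]
    apply ordAt_congr
    exact hmn S.s S.om S.hals.symm S.halom.symm

end ords

/-! ### The fibre product -/

section fibre

variable [NeZero g0]

/-- the ideal of the fibre product lies in the ideal of the diagonal of the section -/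
lemma pVg_le_pYD : (S.pVg g0).I ≤ S.pYD.I := by
  obtain ⟨L, hL, hF0, hF1, hmn, hlt, hom⟩ := S.nd_between g0
  refine le_trans ?_ hlt.le
  obtain ⟨K, hK, φ, hφ⟩ : ∃ (K : Type) (_ : Field K) (φ : Coord ι 2 →+* K),
      ∀ z, φ z = 0 ↔ z ∈ L := by
    refine ⟨FractionRing (Coord ι 2 ⧸ L), inferInstance,
      (algebraMap (Coord ι 2 ⧸ L) (FractionRing (Coord ι 2 ⧸ L))).comp (Ideal.Quotient.mk L),
      fun z => ?_⟩
    rw [RingHom.comp_apply, FaithfulSMul.algebraMap_eq_zero_iff, Ideal.Quotient.eq_zero_iff_mem]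
  have nx : xs φ 0 S.s ≠ 0 := fun h => S.X_pYD_ne 0 S.hsom (hlt.le ((hφ _).1 h))
  have ny : xs φ 1 S.s ≠ 0 := fun h => S.X_pYD_ne 1 S.hsom (hlt.le ((hφ _).1 h))
  have no : xs φ 0 S.om ≠ 0 := fun h => hom ((hφ _).1 h)
  have hm : ∀ j, j ≠ S.al → xs φ 0 S.s * xs φ 1 j = xs φ 1 S.s * xs φ 0 j := by
    intro j hj
    have h2 := (hφ _).2 (hmn j hj)
    rw [map_mn] at h2
    exact sub_eq_zero.1 h2
  have eF0 : eval₂Hom (cs φ) (xs φ 0) S.F = 0 := by
    rw [← map_inFactor]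
    exact (hφ _).2 hF0
  have eF1 : eval₂Hom (cs φ) (xs φ 1) (S.Fg g0) = 0 := by
    rw [← map_inFactor]
    exact (hφ _).2 hF1
  intro z hz
  refine (hφ z).1 ?_
  set w := xs φ 1 S.s / xs φ 0 S.s with hw
  have hw0 : w ≠ 0 := div_ne_zero ny nx
  have hprop : ∀ j, j ≠ S.al → xs φ 1 j = xs φ 0 j * w := by
    intro j hj
    have h1 := hm j hj
    rw [hw]
    field_simp
    linear_combination h1
  refine S.kill_Vg g0 φ w hprop (xs φ 1 S.al / w) (div_mul_cancel₀ _ hw0).symm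
    (isUnit_iff_ne_zero.2 no) eF0 ?_ hz
  have h5 : Function.update (xs φ 0) S.al (xs φ 1 S.al / w) = fun j => w⁻¹ * xs φ 1 j := by
    funext j
    by_cases hj : j = S.al
    · subst hj
      rw [Function.update_self, div_eq_inv_mul]
    · rw [Function.update_of_ne hj, hprop j hj]
      field_simp
  rw [h5, ev_smul _ _ (S.Fg_homog g0), eF1, mul_zero]

/-- the orders at the diagonal of the hyperplane section -/
theorem ord_D : CodimOne (S.pVg g0).I S.pYD.I ∧
    ordAt (S.pVg g0).I S.pYD.I (mn S.al S.om) = (S.m + 4 : ℕ) ∧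
    ordAt (S.pVg g0).I S.pYD.I (MvPolynomial.X (0, S.om)) = (1 : ℕ) ∧
    ordAt (S.pVg g0).I S.pYD.I (MvPolynomial.X (1, S.om)) = (1 : ℕ) :=
  nd_ord (S.pVg g0).I (S.F_pVg g0) (S.Fg_pVg g0) (fun _ _ hi hj => S.mn_pVg g0 hi hj)
    (S.X_pVg g0 0 S.halom.symm) (S.pVg_le_pYD g0) (NeZero.ne g0)

end fibre

end AData

end Kp

end Pool.Agent.RCH
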