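import Pool.Agent.RCH.NgE
import Pool.Agent.RCH.KpASym

/-!
# Two members of a pencil: the exchange of the two factors
-/

set_option autoImplicit false

open MvPolynomial

namespace Pool.Agent.RCH

namespace Kp

attribute [local instance] Pt.prime

/-- the ideal of a generic point does not depend on the equation -/
lemma genIdeal_hyp {ι : Type} (F F' : MvPolynomial ι ℂ) {N : ℕ} {D : Type} [CommRing D]
    [Algebra ℂ D] (d : Fin N × ι → D) : genIdeal (hyp F) d = genIdeal (hyp F') d := rfl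

namespace AData

variable {ι : Type} [Fintype ι] [DecidableEq ι] (S : AData ι)

/-- the data with `P'` in the place of `P` -/
def chg (P' : MvPolynomial ι ℂ) (h : P'.IsHomogeneous (S.m + 2))
    (hc : eval (Pi.single S.al 1) P' ≠ 0) : AData ι :=
  { S with P := P', hP := h, hPc := hc }

section

variable {P' : MvPolynomial ι ℂ} (h : P'.IsHomogeneous (S.m + 2))
  (hc : eval (Pi.single S.al 1) P' ≠ 0)

lemma chg_f0 : (S.chg P' h hc).f0 = S.f0 := rfl

lemma chg_F : (S.chg P' h hc).F = S.FP P' := rfl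

lemma chg_FP : (S.chg P' h hc).FP S.P = S.F := rfl

lemma pE_I (i : Fin 2) : (S.pE i).I = genIdeal (hyp S.F) (dE i {S.al} {S.om} S.f0) := rfl

lemma chg_pE (i : Fin 2) : ((S.chg P' h hc).pE i).I = (S.pE i).I := by
  rw [pE_I, pE_I, chg_f0]
  exact genIdeal_hyp _ _ _

include h hc

/-- The orders at hyperplane section times vertex. -/
theorem ne_ord' {V : Ideal (Coord ι 2)} [V.IsPrime] (hV : S.Kills P' V)
    (hmn : ∀ j, j ≠ S.al → mn S.s j ∈ V) (hF0 : inFactor 2 0 S.F ∈ V)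
    (hF : inFactor 2 1 (S.FP P') ∈ V) (htP : (MvPolynomial.X (1, S.s) : Coord ι 2) ∉ V) :
    CodimOne V (S.pE 0).I ∧
    ordAt V (S.pE 0).I (mn S.al S.om) = (S.m + 1 : ℕ) ∧
    ordAt V (S.pE 0).I (MvPolynomial.X (0, S.om)) = (S.m + 1 : ℕ) ∧
    ordAt V (S.pE 0).I (MvPolynomial.X (1, S.om)) = (S.m + 2 : ℕ) := by
  let W : Ideal (Coord ι 2) := V.comap swH
  have hW : ∀ z, sw z ∈ V ↔ z ∈ W := fun z => Iff.rfl
  have : W.IsPrime := Ideal.comap_isPrime _ _
  have hk : (S.chg P' h hc).Kills S.P W := by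
    intro D _ φ hx hy ho hpr h0 h1 z hz
    have ho' : xs φ 1 S.om ≠ 0 := by
      intro h2
      have h3 : xs φ 0 S.s * xs φ 1 S.om = xs φ 1 S.s * xs φ 0 S.om := hpr S.om S.halom.symm
      rw [h2, mul_zero] at h3
      exact (mul_ne_zero hy ho) h3.symm
    have h2 := hV D (φ.comp swH) (by rw [xs_sw0]; exact hy) (by rw [xs_sw1]; exact hx)
      (by rw [xs_sw0]; exact ho') (fun j hj => by
        rw [xs_sw0, xs_sw1]
        exact (hpr j hj).symm) (by rw [xs_sw0, cs_sw]; exact h1) (by rw [xs_sw1, cs_sw]; exact h0)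
      (sw z) hz
    have h3 : (φ.comp swH) (sw z) = φ z := congrArg φ (sw_sw z)
    exact h3.symm.trans h2
  have hmn' : ∀ j, j ≠ S.al → mn S.s j ∈ W := by
    intro j hj
    rw [← hW, sw_mn]
    exact neg_mem (hmn j hj)
  have hF0' : inFactor 2 0 (S.chg P' h hc).F ∈ W := by
    rw [← hW, sw_inFactor0]
    exact hF
  have hF' : inFactor 2 1 ((S.chg P' h hc).FP S.P) ∈ W := by
    rw [← hW, sw_inFactor1]
    exact hF0
  have ht' : (MvPolynomial.X (0, S.s) : Coord ι 2) ∉ W := by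
    rw [← hW, sw_X0]
    exact htP
  obtain ⟨h1, h2, h3, h4⟩ := (S.chg P' h hc).ne_ord hk hmn' hF0' hF' ht'
  have hE : ∀ z, sw z ∈ (S.pE 0).I ↔ z ∈ ((S.chg P' h hc).pE 1).I := by
    intro z
    rw [chg_pE]
    exact S.sw_mem_pE z
  refine ⟨codimOne_equiv sw hW hE h1, ?_, ?_, ?_⟩
  · rw [← ordAt_neg, ← sw_mn, ← ordAt_equiv sw hW hE]
    exact h2
  · rw [← sw_X1, ← ordAt_equiv sw hW hE]
    exact h4
  · rw [← sw_X0, ← ordAt_equiv sw hW hE]
    exact h3

end

end AData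

end Kp

end Pool.Agent.RCH
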