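import Pool.Agent.RCH.NgPts
import Pool.Agent.RCH.NgSym

/-!
# The orders at the products of the vertex and the hyperplane section
-/

set_option autoImplicit false

open MvPolynomial

namespace Pool.Agent.RCH

namespace Kp

attribute [local instance] Pt.prime

namespace AData

variable {ι : Type} [Fintype ι] [DecidableEq ι] (S : AData ι) (g0 : ℂ)

lemma FP_Pg : S.FP (S.Pg g0) = S.Fg g0 := by
  rw [FP, Pg, Fg, F]
  ring

variable [NeZero g0]

lemma kills_Vg : S.Kills (S.Pg g0) (S.pVg g0).I := by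
  intro D _ φ hx hy ho hpr h0 h1 z hz
  have hw : xs φ 1 S.s / xs φ 0 S.s ≠ 0 := div_ne_zero hy hx
  have hw1 : ∀ j, j ≠ S.al → xs φ 1 j = xs φ 0 j * (xs φ 1 S.s / xs φ 0 S.s) := by
    intro j hj
    rw [← mul_div_assoc, eq_div_iff hx, mul_comm (xs φ 1 j), hpr j hj]
    ring
  refine S.kill_Vg g0 φ (xs φ 1 S.s / xs φ 0 S.s) hw1
    (xs φ 1 S.al / (xs φ 1 S.s / xs φ 0 S.s)) (div_mul_cancel₀ _ hw).symm
    (isUnit_iff_ne_zero.2 ho) h0 ?_ hz
  have h2 : (fun j => (xs φ 1 S.s / xs φ 0 S.s) * Function.update (xs φ 0) S.al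
      (xs φ 1 S.al / (xs φ 1 S.s / xs φ 0 S.s)) j) = xs φ 1 := by
    funext j
    by_cases hj : j = S.al
    · rw [hj, Function.update_self]
      exact mul_div_cancel₀ _ hw
    · rw [Function.update_of_ne hj, hw1 j hj]
      exact mul_comm _ _
  have h3 := ev_smul (cs φ) (Function.update (xs φ 0) S.al
    (xs φ 1 S.al / (xs φ 1 S.s / xs φ 0 S.s))) (S.Fg_homog g0) (xs φ 1 S.s / xs φ 0 S.s)
  rw [h2] at h3
  rw [FP_Pg] at h1
  rw [h1] at h3
  exact (mul_eq_zero.1 h3.symm).resolve_left (pow_ne_zero _ hw)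

/-- The orders at vertex times hyperplane section. -/
theorem ord_Eg : CodimOne (S.pVg g0).I (S.pE 1).I ∧
    ordAt (S.pVg g0).I (S.pE 1).I (mn S.al S.om) = (S.m + 1 : ℕ) ∧
    ordAt (S.pVg g0).I (S.pE 1).I (MvPolynomial.X (0, S.om)) = (S.m + 2 : ℕ) ∧
    ordAt (S.pVg g0).I (S.pE 1).I (MvPolynomial.X (1, S.om)) = (S.m + 1 : ℕ) :=
  S.ne_ord (S.kills_Vg g0) (fun _ hj => S.mn_pVg g0 S.hals.symm hj) (S.F_pVg g0)
    (by rw [FP_Pg]; exact S.Fg_pVg g0) (S.X_pVg g0 0 S.hals.symm)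

/-- The orders at hyperplane section times vertex. -/
theorem ord_Eg' : CodimOne (S.pVg g0).I (S.pE 0).I ∧
    ordAt (S.pVg g0).I (S.pE 0).I (mn S.al S.om) = (S.m + 1 : ℕ) ∧
    ordAt (S.pVg g0).I (S.pE 0).I (MvPolynomial.X (0, S.om)) = (S.m + 1 : ℕ) ∧
    ordAt (S.pVg g0).I (S.pE 0).I (MvPolynomial.X (1, S.om)) = (S.m + 2 : ℕ) :=
  S.ne_ord' (S.Pg_homog g0) (S.Pg_eval g0) (S.kills_Vg g0)
    (fun _ hj => S.mn_pVg g0 S.hals.symm hj) (S.F_pVg g0)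
    (by rw [FP_Pg]; exact S.Fg_pVg g0) (S.X_pVg g0 1 S.hals.symm)

end AData

end Kp

end Pool.Agent.RCH
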