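import Pool.Agent.RCH.KpACLV
import Pool.Agent.RCH.NgD
import Pool.Agent.RCH.NgEV

/-!
# The primes over the fibre product which contain `x_om` or `y_om`
-/

set_option autoImplicit false

open MvPolynomial

namespace Pool.Agent.RCH

namespace Kp

namespace AData

attribute [local instance] Pt.prime

variable {ι : Type} [Fintype ι] [DecidableEq ι] (S : AData ι) (g0 : ℂ) [NeZero g0]

lemma Pg_ev {L : Type} [CommRing L] (c : ℂ →+* L) (x : ι → L) :
    eval₂Hom c x (S.Pg g0) = eval₂Hom c x S.P + c g0 * x S.om ^ (S.m + 2) := by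
  rw [Pg, map_add, map_mul, map_pow, eval₂Hom_X', eval₂Hom_C]

/-- the value of `f0` where the points are proportional outside `al` -/
lemma f0_prop {L : Type} [CommRing L] (c : ℂ →+* L) (x y : ι → L) (A B : L)
    (h : ∀ j, j ≠ S.al → B * x j = A * y j) :
    B ^ (S.m + 3) * eval₂Hom c x S.f0 - A ^ (S.m + 3) * eval₂Hom c y S.f0 =
      (x S.al * B - y S.al * A) * (B * x S.s) ^ (S.m + 2) := by
  have hg : B ^ (S.m + 2) * eval₂Hom c x S.g = A ^ (S.m + 2) * eval₂Hom c y S.g := by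
    rw [← ev_smul c x S.hgh B, ← ev_smul c y S.hgh A]
    exact ev_congr _ _ fun j hj => h j (S.hgv j hj).1
  have ht : B ^ (S.m + 3) * eval₂Hom c x S.tau = A ^ (S.m + 3) * eval₂Hom c y S.tau := by
    rw [← ev_smul c x S.tau_homog B, ← ev_smul c y S.tau_homog A]
    exact ev_congr _ _ fun j hj => h j (S.tau_vars hj).1
  have hs := h S.s S.hals.symm
  rw [f0_ev, f0_ev]
  have e : (B * x S.s) ^ (S.m + 2) = (A * y S.s) ^ (S.m + 2) := by rw [hs]
  have e1 : (B * x S.s) ^ (S.m + 2) = B ^ (S.m + 2) * x S.s ^ (S.m + 2) := mul_pow _ _ _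
  have e2 : (A * y S.s) ^ (S.m + 2) = A ^ (S.m + 2) * y S.s ^ (S.m + 2) := mul_pow _ _ _
  linear_combination ht + B * x S.s * hg - (B * x S.al) * e1 + (A * y S.al) * e2 +
    (A * y S.al) * e + A ^ (S.m + 2) * eval₂Hom c y S.g * hs

/-- the form `x_s ^ (n-1) y_s y_om ^ (n-2) N_om + y_om ^ n P(x) - x_om ^ n P'(y)` vanishes on the fibre
product -/
lemma hhg_mem : (MvPolynomial.X (0, S.s) ^ (S.m + 1) * MvPolynomial.X (1, S.s) *
      MvPolynomial.X (1, S.om) ^ S.m * mn S.al S.om +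
      (MvPolynomial.X (1, S.om) ^ (S.m + 2) * inFactor 2 0 S.P -
        MvPolynomial.X (0, S.om) ^ (S.m + 2) * inFactor 2 1 (S.Pg g0)) : Coord ι 2) ∈
      (S.pVg g0).I := by
  rw [← S.qVg_eq_zero g0]
  have : IsDomain (Coord ι 2 ⧸ (S.pVg g0).I) := Ideal.Quotient.isDomain _
  have hF0 := S.qVg_F0 g0
  have hF1 := S.qVg_Fg1 g0
  have hm : ∀ j, j ≠ S.al → xs (S.qVg g0) 1 S.om * xs (S.qVg g0) 0 j =
      xs (S.qVg g0) 0 S.om * xs (S.qVg g0) 1 j := fun j hj => (S.qVg_mn g0 S.halom.symm hj).symm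
  have hom : xs (S.qVg g0) 0 S.om ≠ 0 := fun h =>
    S.X_pVg g0 0 S.halom.symm ((S.qVg_eq_zero g0).1 h)
  have hom' : xs (S.qVg g0) 1 S.om ≠ 0 := fun h =>
    S.X_pVg g0 1 S.halom.symm ((S.qVg_eq_zero g0).1 h)
  have hf := S.f0_prop (cs (S.qVg g0)) _ _ _ _ hm
  have hs := hm S.s S.hals.symm
  rw [F_ev] at hF0
  rw [← FP_Pg, FP_ev] at hF1
  rw [map_add, map_sub, map_mul, map_mul, map_mul, map_mul, map_mul, map_pow, map_pow, map_pow,
    map_pow, map_mn, map_inFactor, map_inFactor]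
  change xs (S.qVg g0) 0 S.s ^ (S.m + 1) * xs (S.qVg g0) 1 S.s * xs (S.qVg g0) 1 S.om ^ S.m *
    (xs (S.qVg g0) 0 S.al * xs (S.qVg g0) 1 S.om - xs (S.qVg g0) 1 S.al * xs (S.qVg g0) 0 S.om) +
    (xs (S.qVg g0) 1 S.om ^ (S.m + 2) * eval₂Hom (cs (S.qVg g0)) (xs (S.qVg g0) 0) S.P -
      xs (S.qVg g0) 0 S.om ^ (S.m + 2) *
        eval₂Hom (cs (S.qVg g0)) (xs (S.qVg g0) 1) (S.Pg g0)) = 0
  generalize xs (S.qVg g0) 0 S.om = A at *
  generalize xs (S.qVg g0) 1 S.om = B at *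
  generalize xs (S.qVg g0) 0 S.s = u at *
  generalize xs (S.qVg g0) 1 S.s = v at *
  generalize xs (S.qVg g0) 0 S.al = a at *
  generalize xs (S.qVg g0) 1 S.al = b at *
  refine (mul_eq_zero.1 (?_ : A * B * _ = 0)).resolve_left (mul_ne_zero hom hom')
  rw [mul_pow] at hf
  linear_combination (-(u ^ (S.m + 1) * B ^ (S.m + 1) * (a * B - b * A))) * hs - hf +
    B ^ (S.m + 3) * hF0 - A ^ (S.m + 3) * hF1

/-- two proportional points do not lie on different members where `x_om` is not zero -/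
lemma dlg (Q : Ideal (Coord ι 2)) [Q.IsPrime] (h : (S.pVg g0).I ≤ Q)
    (h4 : (MvPolynomial.X (0, S.om) : Coord ι 2) ∉ Q)
    (h4' : (MvPolynomial.X (1, S.om) : Coord ι 2) ∉ Q) :
    (mn S.al S.om : Coord ι 2) ∉ Q := by
  intro hmn
  have : IsDomain (Coord ι 2 ⧸ Q) := Ideal.Quotient.isDomain _
  set φ : Coord ι 2 →+* (Coord ι 2 ⧸ Q) := Ideal.Quotient.mk Q with hφd
  have hφ : ∀ z, φ z = 0 ↔ z ∈ Q := fun z => Ideal.Quotient.eq_zero_iff_mem
  have hA : xs φ 0 S.om ≠ 0 := fun h => h4 ((hφ _).1 h)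
  have hB : xs φ 1 S.om ≠ 0 := fun h => h4' ((hφ _).1 h)
  have hpr : ∀ j, xs φ 1 S.om * xs φ 0 j = xs φ 0 S.om * xs φ 1 j := by
    intro j
    by_cases hj : j = S.al
    · have h1 := (hφ _).2 hmn
      rw [map_mn] at h1
      rw [hj]
      linear_combination h1
    · have h1 := (hφ _).2 (h (S.mn_pVg g0 S.halom.symm hj))
      rw [map_mn] at h1
      linear_combination -h1
  have hF0 : eval₂Hom (cs φ) (xs φ 0) S.F = 0 := by
    rw [← map_inFactor]
    exact (hφ _).2 (h (S.F_pVg g0))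
  have hF1 : eval₂Hom (cs φ) (xs φ 1) (S.Fg g0) = 0 := by
    rw [← map_inFactor]
    exact (hφ _).2 (h (S.Fg_pVg g0))
  have h5 : xs φ 1 S.om ^ (S.m + 3) * eval₂Hom (cs φ) (xs φ 0) S.F =
      xs φ 0 S.om ^ (S.m + 3) * eval₂Hom (cs φ) (xs φ 1) S.F := by
    rw [← ev_smul (cs φ) (xs φ 0) S.F_homog, ← ev_smul (cs φ) (xs φ 1) S.F_homog]
    exact ev_congr _ _ fun j _ => hpr j
  rw [Fg_ev] at hF1
  rw [hF0, mul_zero] at h5
  have h6 : eval₂Hom (cs φ) (xs φ 1) S.F = 0 :=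
    (mul_eq_zero.1 h5.symm).resolve_left (pow_ne_zero _ hA)
  rw [h6, zero_add] at hF1
  have h7 : cs φ g0 ≠ 0 := by
    have hu : IsUnit (cs φ g0) := (IsUnit.mk0 _ (NeZero.ne g0)).map (cs φ)
    exact hu.ne_zero
  exact (mul_ne_zero h7 (pow_ne_zero _ hB)) hF1

section field

variable {D : Type} [Field D] (φ : Coord ι 2 →+* D)

/-- the first point is the vertex -/
lemma clvg_case_A (hφ : ∀ w ∈ (S.pVg g0).I, φ w = 0) (h : ∀ j, j ≠ S.al → xs φ 0 j = 0)
    (h0 : xs φ 0 S.al ≠ 0) {z : Coord ι 2} (hz : z ∈ (S.pE 1).I) : φ z = 0 := by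
  have h4 : xs φ 1 S.om = 0 := by
    have h2 := hφ _ (S.hhg_mem g0)
    have e0 : φ (MvPolynomial.X (0, S.s)) = 0 := h S.s S.hals.symm
    have e1 : φ (MvPolynomial.X (0, S.om)) = 0 := h S.om S.halom.symm
    rw [map_add, map_mul, map_mul, map_mul, map_pow, e0, zero_pow (by omega), zero_mul, zero_mul,
      zero_mul, zero_add, map_sub, map_mul, map_mul, map_pow, map_pow, e1,
      zero_pow (by omega), zero_mul, sub_zero, map_inFactor, S.clv_P_vertex _ _ h] at h2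
    rcases mul_eq_zero.1 h2 with h3 | h3
    · exact pow_eq_zero_iff (by omega) |>.1 h3
    · exact absurd h3 (mul_ne_zero (pow_ne_zero _ h0) (S.clv_lc φ))
  refine kill_dE φ 1 0 (by decide) ?_ ?_ ?_ hz
  · intro j hj
    rw [Finset.mem_singleton.1 hj]
    exact h4
  · intro j hj
    exact h j fun h5 => hj (Finset.mem_singleton.2 h5)
  · have h1 := hφ _ (S.Fg_pVg g0)
    rw [map_inFactor, ← FP_Pg, FP_ev, h4, zero_mul, add_zero] at h1
    exact h1

/-- the second point is the vertex -/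
lemma clvg_case_B (hφ : ∀ w ∈ (S.pVg g0).I, φ w = 0) (h : ∀ j, j ≠ S.al → xs φ 1 j = 0)
    (h0 : xs φ 1 S.al ≠ 0) {z : Coord ι 2} (hz : z ∈ (S.pE 0).I) : φ z = 0 := by
  have h4 : xs φ 0 S.om = 0 := by
    have h2 := hφ _ (S.hhg_mem g0)
    have e0 : φ (MvPolynomial.X (1, S.s)) = 0 := h S.s S.hals.symm
    have e1 : φ (MvPolynomial.X (1, S.om)) = 0 := h S.om S.halom.symm
    have e2 : xs φ 1 S.om = 0 := e1
    rw [map_add, map_mul, map_mul, map_mul, e0, mul_zero, zero_mul, zero_mul, zero_add,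
      map_sub, map_mul, map_mul, map_pow, map_pow, e1, zero_pow (by omega), zero_mul, zero_sub,
      map_inFactor, Pg_ev, e2, zero_pow (by omega), mul_zero, add_zero, S.clv_P_vertex _ _ h,
      neg_eq_zero] at h2
    rcases mul_eq_zero.1 h2 with h3 | h3
    · exact pow_eq_zero_iff (by omega) |>.1 h3
    · exact absurd h3 (mul_ne_zero (pow_ne_zero _ h0) (S.clv_lc φ))
  refine kill_dE φ 0 1 (by decide) ?_ ?_ ?_ hz
  · intro j hj
    rw [Finset.mem_singleton.1 hj]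
    exact h4
  · intro j hj
    exact h j fun h5 => hj (Finset.mem_singleton.2 h5)
  · have h1 := hφ _ (S.F_pVg g0)
    rw [map_inFactor, F_ev, h4, zero_mul, add_zero] at h1
    exact h1

/-- the two points are proportional outside `al` -/
lemma clvg_case_C (hφ : ∀ w ∈ (S.pVg g0).I, φ w = 0) (i : ι) (hi : i ≠ S.al)
    (hx : xs φ 0 i ≠ 0) (hy : xs φ 1 i ≠ 0) (h4 : xs φ 0 S.om = 0 ∨ xs φ 1 S.om = 0) :
    (∀ z ∈ S.pYD.I, φ z = 0) ∨ ∃ k, ∀ z ∈ (S.pC k).I, φ z = 0 := by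
  have hmn : ∀ j, j ≠ S.al → xs φ 0 i * xs φ 1 j = xs φ 1 i * xs φ 0 j := by
    intro j hj
    have h := hφ _ (S.mn_pVg g0 hi hj)
    rw [map_mn] at h
    exact sub_eq_zero.1 h
  have hiff : ∀ j, j ≠ S.al → (xs φ 0 j = 0 ↔ xs φ 1 j = 0) := by
    intro j hj
    have h := hmn j hj
    constructor
    · intro h0
      rw [h0, mul_zero] at h
      exact (mul_eq_zero.1 h).resolve_left hx
    · intro h0
      rw [h0, mul_zero] at h
      exact (mul_eq_zero.1 h.symm).resolve_left hy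
  have hx4 : xs φ 0 S.om = 0 := h4.elim id (fun h => (hiff S.om S.halom.symm).2 h)
  have hy4 : xs φ 1 S.om = 0 := (hiff S.om S.halom.symm).1 hx4
  have hF0 : eval₂Hom (cs φ) (xs φ 0) S.F = 0 := by
    rw [← map_inFactor]
    exact hφ _ (S.F_pVg g0)
  have hF1 : eval₂Hom (cs φ) (xs φ 1) (S.Fg g0) = 0 := by
    rw [← map_inFactor]
    exact hφ _ (S.Fg_pVg g0)
  by_cases hs : xs φ 0 S.s = 0
  · right
    have hx1 := hs
    have hy1 : xs φ 1 S.s = 0 := (hiff S.s S.hals.symm).1 hx1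
    have hF := hF0
    rw [F_ev, hx4, zero_mul, add_zero, S.f0_ev, hx1, zero_pow (by omega), mul_zero, zero_mul,
      zero_add, zero_add, S.tau_ev, Finset.prod_eq_zero_iff] at hF
    obtain ⟨k, -, hk⟩ := hF
    have hk1 : eval₂Hom (cs φ) (xs φ 0) (S.q k) = 0 :=
      pow_eq_zero_iff (by have := S.ha k; omega) |>.1 hk
    set w : D := xs φ 0 i / xs φ 1 i with hw
    have hw0 : w ≠ 0 := div_ne_zero hx hy
    have hpr : ∀ j, j ≠ S.al → xs φ 0 j = xs φ 1 j * w := by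
      intro j hj
      rw [hw]
      field_simp
      linear_combination -hmn j hj
    refine ⟨k, fun z hz => ?_⟩
    refine kill_dD φ 1 0 (by decide) w (isUnit_iff_ne_zero.2 hw0) ?_ ?_ ?_ hz
    · intro l j hj
      rw [Finset.mem_insert, Finset.mem_singleton] at hj
      rcases hj with rfl | rfl
      · fin_cases l
        · exact hx1
        · exact hy1
      · fin_cases l
        · exact hx4
        · exact hy4
    · have h1 : eval₂Hom (cs φ) (xs φ 0) (S.q k) =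
          eval₂Hom (cs φ) (fun j => w * xs φ 1 j) (S.q k) := by
        refine ev_congr _ _ fun j hj => ?_
        rw [hpr j (S.hqv k j hj).1, mul_comm]
      rw [h1, ev_smul _ _ (S.hqh k)] at hk1
      exact (mul_eq_zero.1 hk1).resolve_left (pow_ne_zero _ hw0)
    · intro j _ hj
      exact hpr j fun h5 => hj (Finset.mem_singleton.2 h5)
  · left
    intro z hz
    have hs' : xs φ 1 S.s ≠ 0 := fun h => hs ((hiff S.s S.hals.symm).2 h)
    refine S.ngd_kill g0 φ hF0 hF1 ?_ (isUnit_iff_ne_zero.2 hs) (isUnit_iff_ne_zero.2 hs') hx4 hz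
    intro j hj
    have h1 := hφ _ (S.mn_pVg g0 hj S.hals.symm)
    rw [map_mn] at h1
    exact sub_eq_zero.1 h1

end field

lemma clvg (Q : Ideal (Coord ι 2)) [Q.IsPrime] (h : (S.pVg g0).I ≤ Q)
    (h0 : ∃ j, (MvPolynomial.X (0, j) : Coord ι 2) ∉ Q)
    (h1 : ∃ j, (MvPolynomial.X (1, j) : Coord ι 2) ∉ Q)
    (h4 : (MvPolynomial.X (0, S.om) : Coord ι 2) ∈ Q ∨
      (MvPolynomial.X (1, S.om) : Coord ι 2) ∈ Q) :
    (S.pE 1).I ≤ Q ∨ (S.pE 0).I ≤ Q ∨ S.pYD.I ≤ Q ∨ ∃ k, (S.pC k).I ≤ Q := by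
  have hφ : ∀ w ∈ (S.pVg g0).I, clvFr Q w = 0 := fun w hw => clvFr_eq_zero.2 (h hw)
  by_cases hA : ∀ j, j ≠ S.al → (MvPolynomial.X (0, j) : Coord ι 2) ∈ Q
  · left
    intro z hz
    rw [← clvFr_eq_zero]
    refine S.clvg_case_A g0 (clvFr Q) hφ (fun j hj => clvFr_eq_zero.2 (hA j hj)) ?_ hz
    intro h2
    have h3 : (MvPolynomial.X (0, S.al) : Coord ι 2) ∈ Q := clvFr_eq_zero.1 h2
    obtain ⟨j, hj⟩ := h0
    by_cases hj0 : j = S.al
    · rw [hj0] at hj
      exact hj h3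
    · exact hj (hA j hj0)
  by_cases hB : ∀ j, j ≠ S.al → (MvPolynomial.X (1, j) : Coord ι 2) ∈ Q
  · right
    left
    intro z hz
    rw [← clvFr_eq_zero]
    refine S.clvg_case_B g0 (clvFr Q) hφ (fun j hj => clvFr_eq_zero.2 (hB j hj)) ?_ hz
    intro h2
    have h3 : (MvPolynomial.X (1, S.al) : Coord ι 2) ∈ Q := clvFr_eq_zero.1 h2
    obtain ⟨j, hj⟩ := h1
    by_cases hj0 : j = S.al
    · rw [hj0] at hj
      exact hj h3
    · exact hj (hB j hj0)
  · right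
    right
    push Not at hA hB
    obtain ⟨i, hi, hx⟩ := hA
    obtain ⟨j, hj, hy⟩ := hB
    have hp : Q.IsPrime := inferInstance
    have hyi : (MvPolynomial.X (1, i) : Coord ι 2) ∉ Q := by
      intro hyi
      have h2 := h (S.mn_pVg g0 hi hj)
      rw [mn] at h2
      have h3 := add_mem h2 (Q.mul_mem_right (MvPolynomial.X (0, j)) hyi)
      rw [sub_add_cancel] at h3
      exact (hp.mem_or_mem h3).elim hx hy
    rcases S.clvg_case_C g0 (clvFr Q) hφ i hi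
      (fun h2 => hx (clvFr_eq_zero.1 h2)) (fun h2 => hyi (clvFr_eq_zero.1 h2))
      (h4.imp clvFr_eq_zero.2 clvFr_eq_zero.2) with h5 | ⟨k, hk⟩
    · exact Or.inl fun z hz => clvFr_eq_zero.1 (h5 z hz)
    · exact Or.inr ⟨k, fun z hz => clvFr_eq_zero.1 (hk z hz)⟩

end AData

end Kp

end Pool.Agent.RCH
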