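import Pool.Agent.RCH.NgC
import Pool.Agent.RCH.NgD
import Pool.Agent.RCH.NgEV
import Pool.Agent.RCH.NgCLV
import Pool.Agent.RCH.NgAsm
import Pool.Agent.RCH.KpAAsm

/-!
# Relation (A) on the product of two hypersurfaces of a pencil
-/

set_option autoImplicit false

open MvPolynomial

namespace Pool.Agent.RCH

namespace Kp

attribute [local instance] Pt.prime

namespace AData

variable {ι : Type} [Fintype ι] [DecidableEq ι] (S : AData ι) (g0 : ℂ) [NeZero g0]

/-- the points of codimension one of the fibre product on `x_om y_om = 0` -/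
lemma cases_Ag (Q : Pt (projSpace ι) 2) (hc : CodimOne (S.pVg g0).I Q.I)
    (h4 : (MvPolynomial.X (0, S.om) : Coord ι 2) ∈ Q.I ∨
      (MvPolynomial.X (1, S.om) : Coord ι 2) ∈ Q.I) :
    Q = fg (S.pE 1) ∨ Q = fg (S.pE 0) ∨ Q = fg S.pYD ∨ ∃ k, Q = fg (S.pC k) := by
  rcases S.clvg g0 Q.I hc.1.le (Q.relevant 0) (Q.relevant 1) h4 with h | h | h | ⟨k, h⟩
  · exact Or.inl (eq_of_codimOne_k _ (A := fg (S.pE 1)) (S.ord_Eg g0).1 hc h)
  · exact Or.inr (Or.inl (eq_of_codimOne_k _ (A := fg (S.pE 0)) (S.ord_Eg' g0).1 hc h))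
  · exact Or.inr (Or.inr (Or.inl (eq_of_codimOne_k _ (A := fg S.pYD) (S.ord_D g0).1 hc h)))
  · exact Or.inr (Or.inr (Or.inr
      ⟨k, eq_of_codimOne_k _ (A := fg (S.pC k)) (S.ord_Cg g0 k).1 hc h⟩))

lemma ord_mul_Ag {Q : Pt (projSpace ι) 2} (hc : CodimOne (S.pVg g0).I Q.I) :
    (ordAt (S.pVg g0).I Q.I (MvPolynomial.X (0, S.om) * MvPolynomial.X (1, S.om))).toNat =
      (ordAt (S.pVg g0).I Q.I (MvPolynomial.X (0, S.om))).toNat +
        (ordAt (S.pVg g0).I Q.I (MvPolynomial.X (1, S.om))).toNat :=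
  toNat_ordAt_mul hc (S.X_pVg g0 0 S.halom.symm) (S.X_pVg g0 1 S.halom.symm)

omit [NeZero g0] in
/-- a coordinate which separates the diagonal of the section from the other points -/
lemma pYD_ne : (∀ i, S.pE i ≠ S.pYD) ∧ ∀ k, S.pC k ≠ S.pYD := by
  constructor
  · intro i h
    rcases (by omega : i = 0 ∨ i = 1) with rfl | rfl
    · have h1 := S.pE_other (i0 := 0) (i1 := 1) (by decide) S.hals.symm
      rw [h] at h1
      exact S.X_pYD_ne 1 S.hsom h1
    · have h1 := S.pE_other (i0 := 1) (i1 := 0) (by decide) S.hals.symm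
      rw [h] at h1
      exact S.X_pYD_ne 0 S.hsom h1
  · intro k h
    have h1 := S.s_pC 0 k
    rw [h] at h1
    exact S.X_pYD_ne 0 S.hsom h1

omit [NeZero g0] in
open Classical in
/-- the sum over the factors of the last part -/
lemma sum_Cg (k : Fin S.T) :
    ∑ i, (S.a i : ℤ) * (if fg (S.pC i) = fg (S.pC k) then 1 else 0) = S.a k := by
  rw [Finset.sum_eq_single k]
  · rw [if_pos rfl, mul_one]
  · intro i _ hi
    rw [if_neg (fun h => hi (S.pC_inj (fg_injective _ h))), mul_zero]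
  · intro h
    exact absurd (Finset.mem_univ k) h

omit [NeZero g0] in
open Classical in
lemma sum_Cg_zero {Q : Pt (projSpace ι) 2} (h : ∀ k, fg (S.pC k) ≠ Q) :
    ∑ i, (S.a i : ℤ) * (if fg (S.pC i) = Q then 1 else 0) = 0 := by
  refine Finset.sum_eq_zero fun k _ => ?_
  rw [if_neg (h k), mul_zero]

open Classical in
/-- relation (A) on the product of the two hypersurfaces -/
theorem relN : RelN S (S.Fg g0) := by
  have hN : (mn S.al S.om : Coord ι 2) ∉ (S.pVg g0).I := S.NN_pVg g0 S.halom.symm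
  have hXX : (MvPolynomial.X (0, S.om) * MvPolynomial.X (1, S.om) : Coord ι 2) ∉
      (S.pVg g0).I := by
    intro h
    rcases Ideal.IsPrime.mem_or_mem (I := (S.pVg g0).I) inferInstance h with h1 | h1
    · exact S.X_pVg g0 0 S.halom.symm h1
    · exact S.X_pVg g0 1 S.halom.symm h1
  refine ratOn_of_isDivisor (P := S.pVg g0) (g := mn S.al S.om)
    (k := MvPolynomial.X (0, S.om) * MvPolynomial.X (1, S.om)) (e := ![1, 1])
    (S.pairIdeal_le_pVg g0) (mn_hom_k S.F S.al S.om) (XX_hom_k S.F S.om S.om) hN hXX ?_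
  intro Q
  have hL : ((S.m + 2) • (Finsupp.single (fg S.pYD) 1 -
      ∑ k, S.a k • Finsupp.single (fg (S.pC k)) 1 - Finsupp.single (fg (S.pE 1)) 1 -
      Finsupp.single (fg (S.pE 0)) 1 : Cycles (projSpace ι) 2)) Q =
      ((S.m + 2 : ℕ) : ℤ) * ((if fg S.pYD = Q then 1 else 0) -
        ∑ k, (S.a k : ℤ) * (if fg (S.pC k) = Q then 1 else 0) -
        (if fg (S.pE 1) = Q then 1 else 0) - (if fg (S.pE 0) = Q then 1 else 0)) := by
    simp only [Finsupp.smul_apply, Finsupp.sub_apply, Finsupp.finsetSum_apply,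
      Finsupp.single_apply, nsmul_eq_mul]
  rw [hL]
  have n1 : ∀ i, fg (S.pE i) ≠ fg S.pYD := fun i h => S.pYD_ne.1 i (fg_injective _ h)
  have n2 : ∀ k, fg (S.pC k) ≠ fg S.pYD := fun k h => S.pYD_ne.2 k (fg_injective _ h)
  have n3 : ∀ i k, fg (S.pE i) ≠ fg (S.pC k) := fun i k h => S.pE_ne.2 i k (fg_injective _ h)
  have n4 : fg (S.pE 0) ≠ fg (S.pE 1) := fun h => S.pE_ne.1 (fg_injective _ h)
  by_cases hc : CodimOne (S.pVg g0).I Q.I
  · rw [if_pos hc, S.ord_mul_Ag g0 hc]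
    by_cases h4 : (MvPolynomial.X (0, S.om) : Coord ι 2) ∈ Q.I ∨
        (MvPolynomial.X (1, S.om) : Coord ι 2) ∈ Q.I
    · rcases S.cases_Ag g0 Q hc h4 with rfl | rfl | rfl | ⟨k, rfl⟩
      · obtain ⟨-, o1, o2, o3⟩ := S.ord_Eg g0
        rw [S.sum_Cg_zero (fun k => (n3 1 k).symm), if_neg (n1 1).symm, if_pos rfl, if_neg n4]
        simp only [fg_I]
        rw [o1, o2, o3]
        simp only [ENat.toNat_natCast]
        push_cast
        ring
      · obtain ⟨-, o1, o2, o3⟩ := S.ord_Eg' g0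
        rw [S.sum_Cg_zero (fun k => (n3 0 k).symm), if_neg (n1 0).symm, if_pos rfl, if_neg n4.symm]
        simp only [fg_I]
        rw [o1, o2, o3]
        simp only [ENat.toNat_natCast]
        push_cast
        ring
      · obtain ⟨-, o1, o2, o3⟩ := S.ord_D g0
        rw [S.sum_Cg_zero n2, if_pos rfl, if_neg (n1 1), if_neg (n1 0)]
        simp only [fg_I]
        rw [o1, o2, o3]
        simp only [ENat.toNat_natCast]
        push_cast
        ring
      · obtain ⟨-, o1, o2, o3⟩ := S.ord_Cg g0 k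
        rw [S.sum_Cg k, if_neg (n2 k).symm, if_neg (n3 1 k), if_neg (n3 0 k)]
        simp only [fg_I]
        rw [o1, o2, o3]
        simp only [ENat.toNat_natCast]
        push_cast
        ring
    · -- away from `x_om y_om = 0`
      push Not at h4
      obtain ⟨h4, h4'⟩ := h4
      have e1 : fg S.pYD ≠ Q := fun h => h4 (h ▸ S.X_pYD 0)
      have e2 : fg (S.pE 1) ≠ Q := fun h => h4 (h ▸ S.X_pE 0 1)
      have e3 : fg (S.pE 0) ≠ Q := fun h => h4 (h ▸ S.X_pE 0 0)
      have e4 : ∀ k, fg (S.pC k) ≠ Q := fun k h => h4 (h ▸ S.X_pC 0 k)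
      rw [if_neg e1, if_neg e2, if_neg e3, S.sum_Cg_zero e4, ordAt_eq_zero h4,
        ordAt_eq_zero h4', ordAt_eq_zero (S.dlg g0 Q.I hc.1.le h4 h4')]
      simp
  · have e1 : fg S.pYD ≠ Q := fun h => hc (h ▸ (S.ord_D g0).1)
    have e2 : fg (S.pE 1) ≠ Q := fun h => hc (h ▸ (S.ord_Eg g0).1)
    have e3 : fg (S.pE 0) ≠ Q := fun h => hc (h ▸ (S.ord_Eg' g0).1)
    have e4 : ∀ k, fg (S.pC k) ≠ Q := fun k h => hc (h ▸ (S.ord_Cg g0 k).1)
    rw [if_neg hc, if_neg e1, if_neg e2, if_neg e3, S.sum_Cg_zero e4]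
    simp

end AData

end Kp

end Pool.Agent.RCH
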