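import Mathlib

/-!
# Polynomials over a discrete valuation ring which are irreducible or have a root, and elements of a
# localisation at a prime element which are integral
-/

set_option autoImplicit false

open Polynomial

namespace Pool.Agent.RCH.Ng

/-- a polynomial over a discrete valuation ring, of degree one modulo the maximal ideal, whose
leading coefficient is a uniformizer, is irreducible or has a root -/
theorem irreducible_or_root {D K : Type} [CommRing D] [IsDomain D] [IsLocalRing D]
    [IsPrincipalIdealRing D] [Field K] [Algebra D K] [IsFractionRing D K] (G : Polynomial D)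
    (n : ℕ) (hdeg : G.natDegree = n) (hn : 2 ≤ n) (h1 : IsUnit (G.coeff 1))
    (hj : ∀ j, 2 ≤ j → G.coeff j ∈ IsLocalRing.maximalIdeal D)
    (htop : G.coeff n ∉ IsLocalRing.maximalIdeal D ^ 2) :
    Irreducible (G.map (algebraMap D K)) ∨ ∃ ρ : D, G.eval ρ = 0 := by
  by_contra hcon
  push Not at hcon
  obtain ⟨hirr, hroot⟩ := hcon
  have hprim : G.IsPrimitive := by
    intro r hr
    exact isUnit_of_dvd_unit ((C_dvd_iff_dvd_coeff r G).1 hr 1) h1
  rw [← hprim.irreducible_iff_irreducible_map_fraction_map] at hirr
  have hG0 : G ≠ 0 := by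
    rintro rfl
    rw [natDegree_zero] at hdeg
    omega
  have hnu : ¬ IsUnit G := by
    intro h
    have := natDegree_eq_zero_of_isUnit h
    omega
  rw [irreducible_iff] at hirr
  push Not at hirr
  obtain ⟨A, B, hAB, hA, hB⟩ := hirr hnu
  -- one of the leading coefficients is a unit
  have key : ∀ A B : Polynomial D, G = A * B → ¬ IsUnit A → ¬ IsUnit B →
      IsUnit A.leadingCoeff → False := by
    intro A B hAB hA hB hl
    have hres := congrArg (Polynomial.map (IsLocalRing.residue D)) hAB
    rw [Polynomial.map_mul] at hres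
    set κ := IsLocalRing.ResidueField D
    have hA0 : A ≠ 0 := left_ne_zero_of_mul (hAB ▸ hG0)
    have hdA : (A.map (IsLocalRing.residue D)).natDegree = A.natDegree := by
      refine natDegree_map_eq_of_isUnit_leadingCoeff _ ?_
      assumption
    have hGr : (G.map (IsLocalRing.residue D)).natDegree = 1 := by
      refine le_antisymm ?_ (le_natDegree_of_ne_zero ?_)
      · rw [natDegree_le_iff_coeff_eq_zero]
        intro j hj'
        rw [coeff_map]
        exact (IsLocalRing.residue_eq_zero_iff _).2 (hj j hj')
      · rw [coeff_map]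
        exact (h1.map _).ne_zero
    have hG1 : G.map (IsLocalRing.residue D) ≠ 0 := by
      intro h
      rw [h, natDegree_zero] at hGr
      exact zero_ne_one hGr
    have hle : A.natDegree ≤ 1 := by
      rw [← hdA, ← hGr]
      exact natDegree_le_of_dvd ⟨_, hres⟩ hG1
    have hA1 : A.natDegree = 1 := by
      rcases Nat.lt_or_ge A.natDegree 1 with h | h
      · exfalso
        apply hA
        have h2 : A = C (A.coeff 0) := eq_C_of_natDegree_eq_zero (by omega)
        rw [h2, isUnit_C]
        rw [leadingCoeff, show A.natDegree = 0 by omega] at hl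
        exact hl
      · omega
    obtain ⟨u, hu⟩ := hl
    rw [leadingCoeff, hA1] at hu
    refine hroot (-(↑u⁻¹ * A.coeff 0)) ?_
    have h2 : A.eval (-(↑u⁻¹ * A.coeff 0)) = 0 := by
      rw [eval_eq_sum_range, hA1, Finset.sum_range_succ, Finset.sum_range_one, pow_zero, pow_one,
        mul_one, ← hu]
      have h3 : (u : D) * (↑u⁻¹ : D) = 1 := Units.mul_inv u
      linear_combination (-(A.coeff 0)) * h3
    rw [hAB, eval_mul, h2, zero_mul]
  have hl : G.coeff n = A.leadingCoeff * B.leadingCoeff := by
    rw [← leadingCoeff_mul, ← hAB, leadingCoeff, hdeg]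
  by_cases hu : IsUnit A.leadingCoeff
  · exact key A B hAB hA hB hu
  · by_cases hv : IsUnit B.leadingCoeff
    · exact key B A (hAB.trans (mul_comm A B)) hB hA hv
    · apply htop
      rw [hl, pow_two]
      exact Ideal.mul_mem_mul ((IsLocalRing.mem_maximalIdeal _).2 hu)
        ((IsLocalRing.mem_maximalIdeal _).2 hv)

/-- two roots of a polynomial over a local domain which is of degree one modulo the maximal ideal are
equal -/
theorem root_unique {D : Type} [CommRing D] [IsDomain D] [IsLocalRing D] (G : Polynomial D)
    (h1 : IsUnit (G.coeff 1)) (hj : ∀ j, 2 ≤ j → G.coeff j ∈ IsLocalRing.maximalIdeal D) {a b : D}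
    (ha : G.eval a = 0) (hb : G.eval b = 0) : a = b := by
  have hd : G.eval a - G.eval b =
      (∑ j ∈ Finset.range (G.natDegree + 1), G.coeff j *
        (∑ i ∈ Finset.range j, a ^ i * b ^ (j - 1 - i))) * (a - b) := by
    rw [eval_eq_sum_range, eval_eq_sum_range, ← Finset.sum_sub_distrib, Finset.sum_mul]
    refine Finset.sum_congr rfl fun j _ => ?_
    rw [mul_assoc, geom_sum₂_mul]
    ring
  rw [ha, hb, sub_zero] at hd
  have hu : IsUnit (∑ j ∈ Finset.range (G.natDegree + 1), G.coeff j *
      (∑ i ∈ Finset.range j, a ^ i * b ^ (j - 1 - i))) := by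
    rw [← IsLocalRing.residue_ne_zero_iff_isUnit, map_sum]
    have h1m : (1 : ℕ) ∈ Finset.range (G.natDegree + 1) := by
      rw [Finset.mem_range]
      have : 1 ≤ G.natDegree := le_natDegree_of_ne_zero h1.ne_zero
      omega
    rw [Finset.sum_eq_single_of_mem 1 h1m]
    · rw [Finset.sum_range_one, pow_zero, one_mul, pow_zero, mul_one,
        IsLocalRing.residue_ne_zero_iff_isUnit]
      exact h1
    · intro j _ hj1
      rcases Nat.lt_or_ge j 1 with h | h
      · rw [show j = 0 by omega, Finset.sum_range_zero, mul_zero, map_zero]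
      · rw [map_mul, (IsLocalRing.residue_eq_zero_iff _).2 (hj j (by omega)), zero_mul]
  have := hu.mul_right_eq_zero.1 hd.symm
  exact sub_eq_zero.1 this

section loc

variable {R D : Type} [CommRing R] [IsDomain R] [CommRing D] [IsDomain D] [Algebra R D] {π : R}
  (hπ : Prime π) [hp : (Ideal.span {π}).IsPrime] [IsLocalization.AtPrime D (Ideal.span {π})]

include hπ

/-- an element of the localisation at a prime element which has a multiple by a power of it in the
ring is in the ring -/
theorem mem_range_of_pow_mul {z : D} {N : ℕ} (h : algebraMap R D (π ^ N) * z ∈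
    (algebraMap R D).range) : z ∈ (algebraMap R D).range := by
  obtain ⟨r, hr⟩ := h
  have hinj : Function.Injective (algebraMap R D) :=
    IsLocalization.injective D (Ideal.span {π}).primeCompl_le_nonZeroDivisors
  obtain ⟨⟨a, s⟩, has⟩ := IsLocalization.surj (Ideal.span {π}).primeCompl z
  simp only at has
  have h1 : π ^ N * a = r * s := by
    apply hinj
    rw [map_mul, map_mul, hr, ← has]
    ring
  have hs : ¬ π ∣ (s : R) := fun hd => s.2 (Ideal.mem_span_singleton.2 hd)
  have h2 : π ^ N ∣ r := hπ.pow_dvd_of_dvd_mul_right N hs ⟨a, h1.symm⟩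
  obtain ⟨r', rfl⟩ := h2
  refine ⟨r', ?_⟩
  have hne : algebraMap R D (π ^ N) ≠ 0 := by
    intro h0
    exact pow_ne_zero N hπ.ne_zero (hinj (by rw [h0, map_zero]))
  exact mul_left_cancel₀ hne (by rw [← hr, map_mul])

/-- an element of the localisation at a prime element which is integral over the ring where this
element is inverted is integral over the ring -/
theorem isIntegral_of_relation [IsNoetherianRing R] {h : D} {q : Polynomial R}
    (hq : aeval h q = 0) {u : R} (hu : IsUnit u) {N : ℕ} (hlead : q.leadingCoeff = u * π ^ N) :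
    IsIntegral R h := by
  set n := q.natDegree with hn
  obtain ⟨⟨a, s⟩, has⟩ := IsLocalization.surj (Ideal.span {π}).primeCompl h
  simp only at has
  have hinj : Function.Injective (algebraMap R D) :=
    IsLocalization.injective D (Ideal.span {π}).primeCompl_le_nonZeroDivisors
  have hs0 : algebraMap R D (s : R) ≠ 0 := by
    intro h0
    have h1 : (s : R) = 0 := hinj (by rw [h0, map_zero])
    exact s.2 (by rw [h1]; exact Ideal.zero_mem _)
  have hmem : ∀ i : ℕ, algebraMap R D (s : R) ^ n * h ^ i ∈ (algebraMap R D).range := by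
    intro i
    induction i using Nat.strong_induction_on with
    | _ i ih =>
      rcases Nat.lt_or_ge i n with hi | hi
      · refine ⟨(s : R) ^ (n - i) * a ^ i, ?_⟩
        rw [map_mul, map_pow, map_pow, ← has, mul_pow]
        have h2 : algebraMap R D (s : R) ^ n = algebraMap R D (s : R) ^ (n - i) *
            algebraMap R D (s : R) ^ i := by
          rw [← pow_add, Nat.sub_add_cancel hi.le]
        rw [h2]
        ring
      · -- use the relation
        have h3 : aeval h q = algebraMap R D (u * π ^ N) * h ^ n +
            ∑ j ∈ Finset.range n, algebraMap R D (q.coeff j) * h ^ j := by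
          rw [aeval_eq_sum_range, Finset.sum_range_succ, ← hn, ← hlead, leadingCoeff, ← hn,
            add_comm, Algebra.smul_def]
          simp only [Algebra.smul_def]
        rw [hq] at h3
        have h4 : algebraMap R D u * (algebraMap R D (π ^ N) *
            (algebraMap R D (s : R) ^ n * h ^ i)) = -∑ j ∈ Finset.range n,
              algebraMap R D (q.coeff j) * (algebraMap R D (s : R) ^ n * h ^ (j + (i - n))) := by
          have h5 : h ^ i = h ^ n * h ^ (i - n) := by rw [← pow_add, Nat.add_sub_cancel' hi]
          have h6 : ∀ j ∈ Finset.range n, algebraMap R D (q.coeff j) *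
              (algebraMap R D (s : R) ^ n * h ^ (j + (i - n))) =
              (algebraMap R D (s : R) ^ n * h ^ (i - n)) *
                (algebraMap R D (q.coeff j) * h ^ j) := by
            intro j _
            rw [pow_add]
            ring
          rw [Finset.sum_congr rfl h6, ← Finset.mul_sum, h5]
          rw [map_mul] at h3
          linear_combination -(algebraMap R D (s : R) ^ n * h ^ (i - n)) * h3
        have h7 : algebraMap R D u * (algebraMap R D (π ^ N) *
            (algebraMap R D (s : R) ^ n * h ^ i)) ∈ (algebraMap R D).range := by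
          rw [h4]
          refine neg_mem (sum_mem fun j hj => ?_)
          rw [Finset.mem_range] at hj
          exact mul_mem ⟨_, rfl⟩ (ih _ (by omega))
        obtain ⟨v, rfl⟩ := hu
        have h8 := mul_mem (⟨(↑v⁻¹ : R), rfl⟩ : algebraMap R D (↑v⁻¹ : R) ∈
          (algebraMap R D).range) h7
        rw [← mul_assoc, ← map_mul, Units.inv_mul, map_one, one_mul] at h8
        exact mem_range_of_pow_mul hπ h8
  -- the module generated by the powers of `h` is finitely generated
  let M : Submodule R D := Submodule.span R (Set.range fun i : ℕ => h ^ i)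
  have hM : ∀ z ∈ M, algebraMap R D (s : R) ^ n * z ∈ LinearMap.range (Algebra.linearMap R D) := by
    intro z hz
    refine Submodule.span_induction ?_ ?_ ?_ ?_ hz
    · rintro _ ⟨i, rfl⟩
      obtain ⟨r, hr⟩ := hmem i
      exact ⟨r, hr⟩
    · rw [mul_zero]
      exact Submodule.zero_mem _
    · intro x y _ _ hx hy
      rw [mul_add]
      exact Submodule.add_mem _ hx hy
    · intro r x _ hx
      rw [mul_smul_comm]
      exact Submodule.smul_mem _ _ hx
  let φ : M →ₗ[R] LinearMap.range (Algebra.linearMap R D) :=
    LinearMap.codRestrict _ ((LinearMap.mulLeft R (algebraMap R D (s : R) ^ n)).comp M.subtype)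
      fun z => hM z z.2
  have hφ : Function.Injective φ := by
    intro x y hxy
    have h1 : algebraMap R D (s : R) ^ n * (x : D) = algebraMap R D (s : R) ^ n * (y : D) :=
      congrArg Subtype.val hxy
    exact Subtype.ext (mul_left_cancel₀ (pow_ne_zero n hs0) h1)
  have hnoe : IsNoetherian R (LinearMap.range (Algebra.linearMap R D)) := inferInstance
  have hnM : IsNoetherian R M := isNoetherian_of_injective φ hφ
  have hfg : M.FG := (Submodule.fg_top M).1 (hnM.noetherian ⊤)
  refine isIntegral_of_smul_mem_submodule M ?_ hfg h ?_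
  · intro h0
    have h1 : (1 : D) ∈ M := Submodule.subset_span ⟨0, pow_zero h⟩
    rw [h0, Submodule.mem_bot] at h1
    exact one_ne_zero h1
  · intro z hz
    refine Submodule.span_induction ?_ ?_ ?_ ?_ hz
    · rintro _ ⟨i, rfl⟩
      exact Submodule.subset_span ⟨i + 1, pow_succ' h i⟩
    · rw [smul_zero]
      exact Submodule.zero_mem _
    · intro x y _ _ hx hy
      rw [smul_add]
      exact Submodule.add_mem _ hx hy
    · intro r x _ hx
      rw [smul_comm]
      exact Submodule.smul_mem _ _ hx

end loc

/-- an element of a proper ideal of a domain over `ℂ` which is algebraic over `ℂ` is zero -/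
theorem eq_zero_of_algebraic {D : Type} [CommRing D] [IsDomain D] [Algebra ℂ D] {I : Ideal D}
    (hI : I ≠ ⊤) {h : D} (hh : h ∈ I) {p : Polynomial ℂ} (hp : p ≠ 0) (h0 : aeval h p = 0) :
    h = 0 := by
  obtain ⟨q, hq, hnd⟩ := exists_eq_pow_rootMultiplicity_mul_and_not_dvd p hp 0
  rw [hq, map_mul, map_pow, map_sub, aeval_X, aeval_C, map_zero, sub_zero] at h0
  rcases mul_eq_zero.1 h0 with h1 | h1
  · exact eq_zero_of_pow_eq_zero h1
  · exfalso
    rw [C_0, sub_zero, X_dvd_iff] at hnd
    apply hI
    have h2 : aeval h q = algebraMap ℂ D (q.coeff 0) + h * aeval h q.divX := by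
      conv_lhs => rw [← divX_mul_X_add q]
      rw [map_add, map_mul, aeval_X, aeval_C]
      ring
    rw [h1] at h2
    have h3 : algebraMap ℂ D (q.coeff 0) ∈ I := by
      have h4 : algebraMap ℂ D (q.coeff 0) = -(h * aeval h q.divX) := by linear_combination -h2
      rw [h4]
      exact neg_mem (Ideal.mul_mem_right _ _ hh)
    exact Ideal.eq_top_of_isUnit_mem _ h3 ((isUnit_iff_ne_zero.2 hnd).map (algebraMap ℂ D))

/-- an integral element which is fixed by a family of homomorphisms, for which the coefficients of an
equation are polynomials in the parameter with constant terms in `ℂ`, is algebraic over `ℂ` -/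
theorem algebraic_of_fixed {R D : Type} [CommRing R] [CommRing D] [IsDomain D] [Algebra ℂ D]
    [Algebra R D] (σ : ℂ → (D →+* D)) {h : D} (hσ : ∀ a : ℂ, a ≠ 0 → σ a h = h)
    (hc : ∀ r : R, ∃ P : Polynomial D, (∃ z : ℂ, P.coeff 0 = algebraMap ℂ D z) ∧
      ∀ a : ℂ, a ≠ 0 → σ a (algebraMap R D r) = P.eval (algebraMap ℂ D a))
    (hint : IsIntegral R h) : ∃ p : Polynomial ℂ, p ≠ 0 ∧ aeval h p = 0 := by
  obtain ⟨q, hq, hq0⟩ := hint
  choose P hP0 hP using hc
  choose z hz using hP0
  set n := q.natDegree with hn
  have e0 : h ^ n + ∑ i ∈ Finset.range n, algebraMap R D (q.coeff i) * h ^ i = 0 := by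
    rw [eval₂_eq_sum_range, Finset.sum_range_succ, ← hn] at hq0
    have h1 : q.coeff n = 1 := hq
    rw [h1, map_one, one_mul, add_comm] at hq0
    exact hq0
  -- the polynomial in the parameter
  let Q : Polynomial D := C (h ^ n) + ∑ i ∈ Finset.range n, P (q.coeff i) * C (h ^ i)
  have hQ : ∀ a : ℂ, a ≠ 0 → Q.eval (algebraMap ℂ D a) = 0 := by
    intro a ha
    have h1 := congrArg (σ a) e0
    rw [map_add, map_sum, map_zero, map_pow, hσ a ha] at h1
    rw [← h1]
    simp only [Q, eval_add, eval_C, eval_finsetSum, eval_mul]
    congr 1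
    refine Finset.sum_congr rfl fun i _ => ?_
    rw [map_mul, map_pow, hσ a ha, hP _ a ha]
  have hQ0 : Q = 0 := by
    refine Polynomial.eq_zero_of_infinite_isRoot Q ?_
    have hinj : Function.Injective (algebraMap ℂ D) := (algebraMap ℂ D).injective
    have h1 : (algebraMap ℂ D '' {a : ℂ | a ≠ 0}).Infinite := by
      refine Set.Infinite.image hinj.injOn ?_
      have h2 : {a : ℂ | a ≠ 0} = ({0} : Set ℂ)ᶜ := rfl
      rw [h2]
      exact (Set.finite_singleton (0 : ℂ)).infinite_compl
    refine h1.mono ?_
    rintro _ ⟨a, ha, rfl⟩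
    exact hQ a ha
  refine ⟨X ^ n + ∑ i ∈ Finset.range n, C (z (q.coeff i)) * X ^ i, ?_, ?_⟩
  · intro h0
    have h1 := congrArg (fun p => p.coeff n) h0
    simp only [coeff_add, coeff_X_pow, if_true, finsetSum_coeff, coeff_C_mul, coeff_zero] at h1
    rw [Finset.sum_eq_zero, add_zero] at h1
    · exact one_ne_zero h1
    · intro i hi
      rw [Finset.mem_range] at hi
      rw [if_neg (by omega), mul_zero]
  · have h1 := congrArg (fun p => p.coeff 0) hQ0
    simp only [Q, coeff_add, coeff_C_zero, finsetSum_coeff, mul_coeff_zero, coeff_zero] at h1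
    rw [map_add, map_pow, aeval_X, map_sum, ← h1]
    congr 1
    refine Finset.sum_congr rfl fun i _ => ?_
    rw [map_mul, map_pow, aeval_X, aeval_C, hz]

end Pool.Agent.RCH.Ng
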