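import Pool.Agent.RCH.NgTr
import Pool.Agent.RCH.KpAsmB

/-!
# Relation (B), on a closed subscheme
-/

set_option autoImplicit false

open MvPolynomial

namespace Pool.Agent.RCH

namespace Kp

attribute [local instance] Pt.prime

namespace BData

variable {ι : Type} [Fintype ι] [DecidableEq ι] (S : BData ι)

open Classical in
/-- relation (B) on a closed subscheme which contains the fibre square -/
theorem ratOn_B {J : Ideal (Coord ι 2)} (hJ : J ≤ S.pU.I) :
    Finsupp.single S.D0 1 + (S.m + 1) • Finsupp.single S.D1 1 -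
    (S.m + 2) • ∑ k, S.a k • Finsupp.single (S.D2 k) 1 -
    (Finsupp.single (S.E0 1) 1 + Finsupp.single (S.E0 0) 1) -
    (S.m + 2) • (Finsupp.single (S.E1 1) 1 + Finsupp.single (S.E1 0) 1 : Cycles (hyp S.F) 2) ∈
      RatOn (hyp S.F) J := by
  have hXX : (MvPolynomial.X (0, S.s) * MvPolynomial.X (1, S.s) : Coord ι 2) ∉ S.pU.I := by
    intro h
    rcases Ideal.IsPrime.mem_or_mem (I := S.pU.I) inferInstance h with h1 | h1
    · exact S.X_pU 0 S.sK h1
    · exact S.X_pU 1 S.sK h1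
  refine ratOn_of_isDivisor (P := S.pU) (g := S.MM)
    (k := MvPolynomial.X (0, S.s) * MvPolynomial.X (1, S.s)) (e := ![1, 1]) hJ
    (mn_hom_k S.F S.be S.s) (XX_hom_k S.F S.s S.s) S.MM_pU hXX ?_
  intro Q
  have hL : (Finsupp.single S.D0 1 + (S.m + 1) • Finsupp.single S.D1 1 -
      (S.m + 2) • ∑ k, S.a k • Finsupp.single (S.D2 k) 1 -
      (Finsupp.single (S.E0 1) 1 + Finsupp.single (S.E0 0) 1) -
      (S.m + 2) • (Finsupp.single (S.E1 1) 1 + Finsupp.single (S.E1 0) 1) :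
        Cycles (hyp S.F) 2) Q =
      (if S.D0 = Q then 1 else 0) + ((S.m + 1 : ℕ) : ℤ) * (if S.D1 = Q then 1 else 0) -
        ((S.m + 2 : ℕ) : ℤ) * ∑ k, (S.a k : ℤ) * (if S.D2 k = Q then 1 else 0) -
        ((if S.E0 1 = Q then 1 else 0) + (if S.E0 0 = Q then 1 else 0)) -
        ((S.m + 2 : ℕ) : ℤ) * ((if S.E1 1 = Q then 1 else 0) +
          (if S.E1 0 = Q then 1 else 0)) := by
    simp only [Finsupp.smul_apply, Finsupp.sub_apply, Finsupp.add_apply, Finsupp.finsetSum_apply,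
      Finsupp.single_apply, nsmul_eq_mul]
  rw [hL]
  by_cases hc : CodimOne S.pU.I Q.I
  · rw [if_pos hc, ord_mul_B S hc]
    by_cases h1 : (MvPolynomial.X (0, S.s) : Coord ι 2) ∈ Q.I ∨
      (MvPolynomial.X (1, S.s) : Coord ι 2) ∈ Q.I
    · rcases S.cases_B Q hc h1 with rfl | rfl | rfl | rfl | rfl | ⟨k, rfl⟩
      · obtain ⟨-, o1, o2, o3⟩ := S.ord_E0'
        rw [o1, o2, ordAt_eq_zero o3, if_neg (S.D0_ne.2.2.1 0), if_neg (S.D1_ne.2.1 0),
          S.sum_D2_zero (fun k => S.D2_ne.2.1 k 0), if_neg S.E_ne.1.symm, if_pos rfl,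
          if_neg (S.E_ne.2.2 0 1).symm, if_neg (S.E_ne.2.2 0 0).symm]
        simp only [ENat.toNat_natCast, ENat.toNat_zero]
        push_cast
        ring
      · obtain ⟨-, o1, o3⟩ := S.ord_E0
        rw [o1, S.ord_E0_MM, ordAt_eq_zero o3, if_neg (S.D0_ne.2.2.1 1), if_neg (S.D1_ne.2.1 1),
          S.sum_D2_zero (fun k => S.D2_ne.2.1 k 1), if_pos rfl, if_neg S.E_ne.1,
          if_neg (S.E_ne.2.2 1 1).symm, if_neg (S.E_ne.2.2 1 0).symm]
        simp only [ENat.toNat_natCast, ENat.toNat_zero]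
        push_cast
        ring
      · obtain ⟨-, o1, o2, o3⟩ := S.ord_E1'
        rw [o1, o2, o3, if_neg (S.D0_ne.2.2.2 0), if_neg (S.D1_ne.2.2 0),
          S.sum_D2_zero (fun k => S.D2_ne.2.2 k 0), if_neg (S.E_ne.2.2 1 0),
          if_neg (S.E_ne.2.2 0 0), if_neg S.E_ne.2.1.symm, if_pos rfl]
        simp only [ENat.toNat_natCast]
        push_cast
        ring
      · obtain ⟨-, o1, o2, o3⟩ := S.ord_E1
        rw [o1, o2, o3, if_neg (S.D0_ne.2.2.2 1), if_neg (S.D1_ne.2.2 1),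
          S.sum_D2_zero (fun k => S.D2_ne.2.2 k 1), if_neg (S.E_ne.2.2 1 1),
          if_neg (S.E_ne.2.2 0 1), if_pos rfl, if_neg S.E_ne.2.1]
        simp only [ENat.toNat_natCast]
        push_cast
        ring
      · obtain ⟨-, o1, o2, o3⟩ := S.ord_D1
        rw [o1, o2, o3, if_neg S.D0_ne.1, if_pos rfl,
          S.sum_D2_zero (fun k => (S.D1_ne.1 k).symm), if_neg (S.D1_ne.2.1 1).symm,
          if_neg (S.D1_ne.2.1 0).symm, if_neg (S.D1_ne.2.2 1).symm, if_neg (S.D1_ne.2.2 0).symm]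
        simp only [ENat.toNat_natCast]
        push_cast
        ring
      · obtain ⟨-, o1, o2, o3⟩ := S.ord_D2 k
        rw [o1, o2, o3, if_neg (S.D0_ne.2.1 k), if_neg (S.D1_ne.1 k), S.sum_D2 k,
          if_neg (S.D2_ne.2.1 k 1).symm, if_neg (S.D2_ne.2.1 k 0).symm,
          if_neg (S.D2_ne.2.2 k 1).symm, if_neg (S.D2_ne.2.2 k 0).symm]
        simp only [ENat.toNat_natCast]
        push_cast
        ring
    · push Not at h1
      obtain ⟨h1, h1'⟩ := h1
      have e1 : S.D1 ≠ Q := by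
        rintro rfl
        exact h1 (mem_of_ordAt S.ord_D1.2.1 (by omega))
      have e2 : ∀ k, S.D2 k ≠ Q := by
        rintro k rfl
        refine h1 (mem_of_ordAt (S.ord_D2 k).2.1 ?_)
        exact mul_ne_zero (by omega) (by have := S.ha k; omega)
      have e3 : S.E0 1 ≠ Q := by
        rintro rfl
        exact h1 (mem_of_ordAt S.ord_E0.2.1 (by omega))
      have e4 : S.E0 0 ≠ Q := by
        rintro rfl
        exact h1' (mem_of_ordAt S.ord_E0'.2.1 (by omega))
      have e5 : S.E1 1 ≠ Q := by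
        rintro rfl
        exact h1 (mem_of_ordAt S.ord_E1.2.1 (by omega))
      have e6 : S.E1 0 ≠ Q := by
        rintro rfl
        exact h1 (mem_of_ordAt S.ord_E1'.2.1 (by omega))
      rw [if_neg e1, S.sum_D2_zero e2, if_neg e3, if_neg e4, if_neg e5, if_neg e6,
        ordAt_eq_zero h1, ordAt_eq_zero h1']
      by_cases hM : S.MM ∈ Q.I
      · have hQ : Q = S.D0 := eq_of_codimOne_k _ S.ord_D0.1 hc (S.clb' Q.I hc.1.le h1 h1' hM)
        subst hQ
        rw [if_pos rfl, S.ord_D0.2.1]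
        simp
      · have hQ : S.D0 ≠ Q := by
          rintro rfl
          exact hM (mem_of_ordAt S.ord_D0.2.1 one_ne_zero)
        rw [if_neg hQ, ordAt_eq_zero hM]
        simp
  · have e0 : S.D0 ≠ Q := fun h => hc (h ▸ S.ord_D0.1)
    have e1 : S.D1 ≠ Q := fun h => hc (h ▸ S.ord_D1.1)
    have e2 : ∀ k, S.D2 k ≠ Q := fun k h => hc (h ▸ (S.ord_D2 k).1)
    have e3 : S.E0 1 ≠ Q := fun h => hc (h ▸ S.ord_E0.1)
    have e4 : S.E0 0 ≠ Q := fun h => hc (h ▸ S.ord_E0'.1)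
    have e5 : S.E1 1 ≠ Q := fun h => hc (h ▸ S.ord_E1.1)
    have e6 : S.E1 0 ≠ Q := fun h => hc (h ▸ S.ord_E1'.1)
    rw [if_neg hc, if_neg e0, if_neg e1, S.sum_D2_zero e2, if_neg e3, if_neg e4, if_neg e5,
      if_neg e6]
    simp

end BData

end Kp

end Pool.Agent.RCH
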