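import Pool.Agent.RCH.KpAC
import Pool.Agent.RCH.NgPts

/-!
# The fibre product of two members of the pencil: the orders at the points `pC k`
-/

set_option autoImplicit false

open MvPolynomial

namespace Pool.Agent.RCH

namespace Kp

attribute [local instance] Pt.prime

namespace AData

variable {ι : Type} [Fintype ι] [DecidableEq ι] (S : AData ι) (g0 : ℂ)

/-! ### The relation for two points on a line through the vertex -/

section values

variable {L : Type} [CommRing L] (c : ℂ →+* L)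

lemma acg_ev (x : ι → L) : eval₂Hom c x (S.Fg g0) =
    eval₂Hom c x S.F + c g0 * x S.om ^ (S.m + 3) := by
  rw [Fg, map_add, map_mul, map_pow, eval₂Hom_X', eval₂Hom_C]

lemma acg_rel_one (x y : ι → L) (u v : L) (h : ∀ j, j ≠ S.al → v * y j = u * x j) :
    u ^ (S.m + 3) * eval₂Hom c x S.F - v ^ (S.m + 3) * eval₂Hom c y (S.Fg g0) =
      (u * x S.al - v * y S.al) * (u * x S.s) ^ (S.m + 2) +
        u * x S.om * (u ^ (S.m + 2) * eval₂Hom c x S.P - v ^ (S.m + 2) * eval₂Hom c y S.P -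
          c g0 * (u * x S.om) ^ (S.m + 2)) := by
  have h1 := S.ac_rel_one c x y u v h
  have h2 : v ^ (S.m + 3) * y S.om ^ (S.m + 3) = (u * x S.om) ^ (S.m + 3) := by
    rw [← mul_pow, h S.om S.halom.symm]
  rw [acg_ev]
  linear_combination h1 - c g0 * h2

end values

lemma acg_homog : (S.Fg g0).IsHomogeneous (S.m + 3) := by
  have h1 : (MvPolynomial.C g0 * MvPolynomial.X S.om ^ (S.m + 3) :
      MvPolynomial ι ℂ).IsHomogeneous (S.m + 3) := by
    have h := (isHomogeneous_C ι g0).mul ((isHomogeneous_X ℂ S.om).pow (S.m + 3))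
    rwa [one_mul, zero_add] at h
  exact S.F_homog.add h1

section main

variable (k : Fin S.T)

/-! ### The two forms -/

/-- the form `y_b ^ n P(x) - x_b ^ n P(y) - g0 (y_b x_om) ^ n` -/
noncomputable def acgR : Coord ι 2 :=
  S.RR (S.b k) - MvPolynomial.C g0 * (MvPolynomial.X (1, S.b k) *
    MvPolynomial.X (0, S.om)) ^ (S.m + 2)

/-- the cofactor of `x_s` -/
noncomputable def acgCo : Coord ι 2 :=
  S.acgR g0 k * S.gX 0 - MvPolynomial.X (0, S.s) ^ (S.m + 1) *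
    (MvPolynomial.X (1, S.b k) ^ (S.m + 1) * mn S.al (S.b k) * inFactor 2 0 S.P)

lemma acgR_notMem : S.acgR g0 k ∉ (S.pC k).I := by
  intro h
  have h1 : MvPolynomial.C g0 * (MvPolynomial.X (1, S.b k) *
      MvPolynomial.X (0, S.om)) ^ (S.m + 2) ∈ (S.pC k).I :=
    Ideal.mul_mem_left _ _ (Ideal.pow_mem_of_mem _ (Ideal.mul_mem_left _ _ (S.ac_om_mem k 0)) _
      (by omega))
  have h2 := add_mem h h1
  rw [acgR, sub_add_cancel] at h2
  exact S.ac_RR_notMem k h2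

lemma acgCo_notMem : S.acgCo g0 k ∉ (S.pC k).I := by
  intro h
  have h1 : MvPolynomial.X (0, S.s) ^ (S.m + 1) *
    (MvPolynomial.X (1, S.b k) ^ (S.m + 1) * mn S.al (S.b k) * inFactor 2 0 S.P) ∈
      (S.pC k).I :=
    Ideal.mul_mem_right _ _ (Ideal.pow_mem_of_mem _ (S.ac_s_mem k 0) _ (by omega))
  have h2 := add_mem h h1
  rw [acgCo, sub_add_cancel] at h2
  exact S.ac_mul k (S.acgR_notMem g0 k) (S.ac_gX_notMem k) h2

lemma acg_map_R {L : Type} [CommRing L] (φ : Coord ι 2 →+* L) :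
    φ (S.acgR g0 k) = xs φ 1 (S.b k) ^ (S.m + 2) * eval₂Hom (cs φ) (xs φ 0) S.P -
      xs φ 0 (S.b k) ^ (S.m + 2) * eval₂Hom (cs φ) (xs φ 1) S.P -
      cs φ g0 * (xs φ 1 (S.b k) * xs φ 0 S.om) ^ (S.m + 2) := by
  rw [acgR, RR, map_sub, map_sub, map_mul, map_mul, map_pow, map_pow, map_inFactor,
    map_inFactor, map_mul, map_pow, map_mul]
  rfl

/-! ### The family -/

/-- the equation of the second variety at the second point -/
lemma acg_inFactor : inFactor 2 1 (S.Fg g0) = inFactor 2 1 S.F +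
    MvPolynomial.C g0 * MvPolynomial.X (1, S.om) ^ (S.m + 3) := by
  rw [Fg, map_add, map_mul, map_pow]
  congr 2
  · exact rename_C _ _
  · rw [inFactor, rename_X]

/-- the family -/
noncomputable def acgfam : S.ACκ k → Coord ι 2
  | none => inFactor 2 0 S.F
  | some none => inFactor 2 1 (S.Fg g0)
  | some (some j) => mn (S.b k) j.1

lemma acg_F_mem : inFactor 2 1 (S.Fg g0) ∈ (S.pC k).I := by
  rw [acg_inFactor]
  exact add_mem (F_mem (S.pC k) 1) (Ideal.mul_mem_left _ _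
    (Ideal.pow_mem_of_mem _ (S.ac_om_mem k 1) _ (by omega)))

lemma acgfam_mem (i : S.ACκ k) : S.acgfam g0 k i ∈ (S.pC k).I := by
  rcases i with _ | _ | j
  · exact F_mem (S.pC k) 0
  · exact S.acg_F_mem g0 k
  · exact S.ac_minor_mem k (S.hb k).1 j.2.1

/-- the elements of the family and the uniformizer generate the ideal locally -/
lemma acgfam_kill {L : Type} [CommRing L] (φ : Coord ι 2 →+* L)
    (h : ∀ i, φ (S.acgfam g0 k i) = 0) (ht : φ (inFactor 2 0 (S.q k)) = 0)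
    (hx : IsUnit (xs φ 0 (S.b k))) (hy : IsUnit (xs φ 1 (S.b k)))
    (hR : IsUnit (φ (S.acgR g0 k))) (hco : IsUnit (φ (S.acgCo g0 k))) {z : Coord ι 2}
    (hz : z ∈ (S.pC k).I) : φ z = 0 := by
  have hF0 : φ (inFactor 2 0 S.F) = 0 := h none
  have hF1 : φ (inFactor 2 1 (S.Fg g0)) = 0 := h (some none)
  have hmn : ∀ j, j ≠ S.al → xs φ 0 (S.b k) * xs φ 1 j = xs φ 1 (S.b k) * xs φ 0 j := by
    intro j hj
    by_cases hjb : j = S.b k
    · subst hjb
      exact mul_comm _ _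
    · have h1 := h (some (some ⟨j, hj, hjb⟩))
      have h2 : φ (mn (S.b k) j) = 0 := h1
      rw [map_mn] at h2
      exact sub_eq_zero.1 h2
  have hmF0 := map_inFactor φ 0 S.F
  have hmF1 := map_inFactor φ 1 (S.Fg g0)
  rw [hF0] at hmF0
  rw [hF1] at hmF1
  have r1 := S.acg_rel_one g0 (cs φ) (xs φ 0) (xs φ 1) (xs φ 1 (S.b k)) (xs φ 0 (S.b k)) hmn
  rw [← hmF0, ← hmF1, mul_zero, mul_zero, sub_zero] at r1
  rw [← S.acg_map_R g0 k φ] at r1
  have hs : xs φ 0 S.s = 0 := by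
    have h1 : φ (S.acgCo g0 k) * xs φ 0 S.s = 0 := by
      have hC : φ (S.acgCo g0 k) = φ (S.acgR g0 k) * φ (S.gX 0) -
          xs φ 0 S.s ^ (S.m + 1) * (xs φ 1 (S.b k) ^ (S.m + 1) *
            (xs φ 0 S.al * xs φ 1 (S.b k) - xs φ 1 S.al * xs φ 0 (S.b k)) *
              φ (inFactor 2 0 S.P)) := by
        rw [acgCo, map_sub, map_mul, map_mul, map_mul, map_mul, map_pow, map_pow, map_mn]
        rfl
      have hE : xs φ 0 S.s * φ (S.gX 0) + xs φ 0 S.om * φ (inFactor 2 0 S.P) = 0 := by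
        have h2 := hF0
        rw [ac_eq_F S k, map_add, map_add, map_mul, map_mul, map_pow, ht,
          zero_pow (by have := S.ha k; omega), zero_mul, add_zero, map_mul] at h2
        exact h2
      have h3 : xs φ 1 (S.b k) * (φ (S.acgCo g0 k) * xs φ 0 S.s) = 0 := by
        rw [hC]
        linear_combination (xs φ 1 (S.b k) * φ (S.acgR g0 k)) * hE +
          φ (inFactor 2 0 S.P) * r1
      exact hy.mul_right_eq_zero.1 h3
    exact hco.mul_right_eq_zero.1 h1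
  have hom : xs φ 0 S.om = 0 := by
    rw [hs, mul_zero, zero_pow (by omega), mul_zero, zero_add] at r1
    exact hy.mul_right_eq_zero.1 (hR.mul_left_eq_zero.1 r1.symm)
  have hs1 : xs φ 1 S.s = 0 := by
    have h1 := hmn S.s S.hals.symm
    rw [hs, mul_zero] at h1
    exact hx.mul_right_eq_zero.1 h1
  have hom1 : xs φ 1 S.om = 0 := by
    have h1 := hmn S.om S.halom.symm
    rw [hom, mul_zero] at h1
    exact hx.mul_right_eq_zero.1 h1
  obtain ⟨y, hy'⟩ := hy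
  have hq : eval₂Hom (cs φ) (xs φ 1) (S.q k) = 0 := by
    have h1 : eval₂Hom (cs φ) (xs φ 0) (S.q k) = 0 := by
      rw [← map_inFactor]
      exact ht
    have h2 : xs φ 0 (S.b k) ^ S.e k * eval₂Hom (cs φ) (xs φ 1) (S.q k) =
        xs φ 1 (S.b k) ^ S.e k * eval₂Hom (cs φ) (xs φ 0) (S.q k) := by
      rw [← ev_smul _ _ (S.hqh k), ← ev_smul _ _ (S.hqh k)]
      exact ev_congr _ _ fun j hj => hmn j (S.hqv k j hj).1
    rw [h1, mul_zero] at h2
    exact (hx.pow _).mul_right_eq_zero.1 h2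
  refine S.ac_kill k φ (xs φ 0 (S.b k) * ↑y⁻¹) (hx.mul (Units.isUnit _)) ?_ ?_ hq ?_ hz
  · intro i
    have hi : i = 0 ∨ i = 1 := by omega
    rcases hi with rfl | rfl
    · exact hs
    · exact hs1
  · intro i
    have hi : i = 0 ∨ i = 1 := by omega
    rcases hi with rfl | rfl
    · exact hom
    · exact hom1
  · intro j hj
    have h1 := hmn j hj
    rw [← hy'] at h1
    have h2 : xs φ 0 j = (↑y⁻¹ * ↑y) * xs φ 0 j := by rw [Units.inv_mul, one_mul]
    rw [h2]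
    linear_combination (-(↑y⁻¹ : L)) * h1

/-! ### The derivatives -/

/-- the derivatives of the two families agree modulo the ideal -/
lemma acg_pderiv (i : S.ACκ k) (v : Fin 2 × ι) :
    pderiv v (S.acgfam g0 k i) - pderiv v (S.acfam k i) ∈ (S.pC k).I := by
  rcases i with _ | _ | j
  · exact (sub_self (pderiv v (inFactor 2 0 S.F))).symm ▸ zero_mem _
  · change pderiv v (inFactor 2 1 (S.Fg g0)) - pderiv v (inFactor 2 1 S.F) ∈ (S.pC k).I
    rw [acg_inFactor, map_add, add_sub_cancel_left]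
    refine pderiv_mem_of_mem_sq ?_ v
    have h : (MvPolynomial.C g0 * MvPolynomial.X (1, S.om) ^ (S.m + 3) : Coord ι 2) =
        (MvPolynomial.C g0 * MvPolynomial.X (1, S.om) ^ (S.m + 1)) *
          MvPolynomial.X (1, S.om) ^ 2 := by ring
    rw [h]
    exact Ideal.mul_mem_left _ _ (Ideal.pow_mem_pow (S.ac_om_mem k 1) 2)
  · exact (sub_self (pderiv v (mn (S.b k) j.1 : Coord ι 2))).symm ▸ zero_mem _

lemma acg_jac (c : S.ACκ k → Coord ι 2) (d : Coord ι 2)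
    (h : ∀ v : Fin 2 × ι, ∑ i, c i * pderiv v (S.acgfam g0 k i) +
      d * pderiv v (inFactor 2 0 (S.q k)) ∈ (S.pC k).I) :
    (∀ i, c i ∈ (S.pC k).I) ∧ d ∈ (S.pC k).I := by
  refine S.ac_jac k c d fun v => ?_
  have h1 : ∑ i, c i * (pderiv v (S.acgfam g0 k i) - pderiv v (S.acfam k i)) ∈ (S.pC k).I :=
    Ideal.sum_mem _ fun i _ => Ideal.mul_mem_left _ _ (S.acg_pderiv g0 k i v)
  have h2 := sub_mem (h v) h1
  have h3 : ∑ i, c i * (pderiv v (S.acgfam g0 k i) - pderiv v (S.acfam k i)) =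
      ∑ i, c i * pderiv v (S.acgfam g0 k i) - ∑ i, c i * pderiv v (S.acfam k i) := by
    rw [← Finset.sum_sub_distrib]
    exact Finset.sum_congr rfl fun i _ => mul_sub _ _ _
  rw [h3] at h2
  convert h2 using 1
  ring

variable [NeZero g0]

/-! ### The inclusion -/

theorem acg_between : ∃ L : Ideal (Coord ι 2), L.IsPrime ∧ (S.pVg g0).I ≤ L ∧ L < (S.pC k).I ∧
    inFactor 2 0 (S.q k) ∉ L := by
  obtain ⟨L, hL, hfam, hLQ, ht⟩ := kj (Q := (S.pC k).I) (S.acgfam g0 k) (inFactor 2 0 (S.q k))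
    (S.acgfam_mem g0 k) (S.ac_q_mem k 0) (by
      intro z hz
      set J := Ideal.span (Set.range (S.acgfam g0 k)) ⊔ Ideal.span {inFactor 2 0 (S.q k)} with hJ
      refine S.acgfam_kill g0 k (toLocMod J (S.pC k).I) ?_ ?_ ?_ ?_ ?_ ?_ hz
      · intro i
        exact toLocMod_eq_zero_of_mem (Ideal.mem_sup_left (Ideal.subset_span ⟨i, rfl⟩))
      · exact toLocMod_eq_zero_of_mem (Ideal.mem_sup_right (Ideal.mem_span_singleton_self _))
      · exact isUnit_toLocMod (S.ac_b_notMem k 0)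
      · exact isUnit_toLocMod (S.ac_b_notMem k 1)
      · exact isUnit_toLocMod (S.acgR_notMem g0 k)
      · exact isUnit_toLocMod (S.acgCo_notMem g0 k)) (S.acg_jac g0 k)
  obtain ⟨K, hK, φ, hφ⟩ := ac_exists_field L
  have nx : xs φ 0 (S.b k) ≠ 0 := fun h => S.ac_b_notMem k 0 (hLQ.le ((hφ _).1 h))
  have ny : xs φ 1 (S.b k) ≠ 0 := fun h => S.ac_b_notMem k 1 (hLQ.le ((hφ _).1 h))
  have hN : φ (mn S.al (S.b k)) ≠ 0 := fun h => S.ac_mn_notMem k (hLQ.le ((hφ _).1 h))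
  rw [map_mn] at hN
  have hmn : ∀ j, j ≠ S.al → xs φ 0 (S.b k) * xs φ 1 j = xs φ 1 (S.b k) * xs φ 0 j := by
    intro j hj
    by_cases hjb : j = S.b k
    · subst hjb
      exact mul_comm _ _
    · have h1 := (hφ _).2 (hfam (some (some ⟨j, hj, hjb⟩)))
      have h2 : φ (mn (S.b k) j) = 0 := h1
      rw [map_mn] at h2
      exact sub_eq_zero.1 h2
  have eF0 : eval₂Hom (cs φ) (xs φ 0) S.F = 0 := by
    rw [← map_inFactor]
    exact (hφ _).2 (hfam none)
  have eF1 : eval₂Hom (cs φ) (xs φ 1) (S.Fg g0) = 0 := by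
    rw [← map_inFactor]
    exact (hφ _).2 (hfam (some none))
  have hom : xs φ 0 S.om ≠ 0 := by
    intro h
    have r1 := S.acg_rel_one g0 (cs φ) (xs φ 0) (xs φ 1) (xs φ 1 (S.b k)) (xs φ 0 (S.b k)) hmn
    rw [eF0, eF1, h, mul_zero, mul_zero, mul_zero, zero_mul, add_zero, sub_zero] at r1
    have hs : xs φ 0 S.s = 0 := by
      have h3 := (mul_eq_zero.1 r1.symm).resolve_left (by
        intro h4
        apply hN
        linear_combination h4)
      exact (mul_eq_zero.1 (pow_eq_zero_iff (by omega) |>.1 h3)).resolve_left ny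
    rw [F_ev, f0_ev, h, hs, zero_pow (by omega), mul_zero, zero_mul, zero_mul, zero_add, add_zero,
      zero_add, tau_ev, Finset.prod_eq_zero_iff] at eF0
    obtain ⟨j, -, hj⟩ := eF0
    have hj' := pow_eq_zero_iff (by have := S.ha j; omega) |>.1 hj
    rw [← map_inFactor] at hj'
    by_cases hjk : j = k
    · subst hjk
      exact ht ((hφ _).1 hj')
    · exact S.ac_q_notMem k hjk 0 (hLQ.le ((hφ _).1 hj'))
  refine ⟨L, hL, ?_, hLQ, ht⟩
  intro z hz
  refine (hφ z).1 ?_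
  set w := xs φ 1 (S.b k) / xs φ 0 (S.b k) with hw
  have hw0 : w ≠ 0 := div_ne_zero ny nx
  have hprop : ∀ j, j ≠ S.al → xs φ 1 j = xs φ 0 j * w := by
    intro j hj
    have h1 := hmn j hj
    rw [hw]
    field_simp
    linear_combination h1
  refine S.kill_Vg g0 φ w hprop (xs φ 1 S.al / w) (div_mul_cancel₀ _ hw0).symm
    (isUnit_iff_ne_zero.2 hom) eF0 ?_ hz
  have h5 : Function.update (xs φ 0) S.al (xs φ 1 S.al / w) = fun j => w⁻¹ * xs φ 1 j := by
    funext j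
    by_cases hj : j = S.al
    · subst hj
      rw [Function.update_self, div_eq_inv_mul]
    · rw [Function.update_of_ne hj, hprop j hj]
      field_simp
  rw [h5, ev_smul _ _ (S.acg_homog g0), eF1, mul_zero]

lemma acg_pVg_le : (S.pVg g0).I ≤ (S.pC k).I := by
  obtain ⟨L, -, h1, h2, -⟩ := S.acg_between g0 k
  exact h1.trans h2.le

/-! ### The orders -/

lemma acg_q_notMem_pVg : inFactor 2 0 (S.q k) ∉ (S.pVg g0).I := by
  intro h
  obtain ⟨L, -, h1, -, h3⟩ := S.acg_between g0 k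
  exact h3 (h1 h)

lemma acg_reg {z : Coord ι 2} (hz : z ∈ (S.pC k).I) :
    ∃ s, s ∉ (S.pC k).I ∧ s * z ∈ (S.pVg g0).I ⊔ Ideal.span {inFactor 2 0 (S.q k)} := by
  set J := (S.pVg g0).I ⊔ Ideal.span {inFactor 2 0 (S.q k)} with hJ
  apply exists_of_toLocMod_eq_zero (J := J)
  refine S.acgfam_kill g0 k (toLocMod J (S.pC k).I) ?_ ?_ ?_ ?_ ?_ ?_ hz
  · rintro (_ | _ | j)
    · exact toLocMod_eq_zero_of_mem (Ideal.mem_sup_left (S.F_pVg g0))
    · exact toLocMod_eq_zero_of_mem (Ideal.mem_sup_left (S.Fg_pVg g0))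
    · exact toLocMod_eq_zero_of_mem (Ideal.mem_sup_left (S.mn_pVg g0 (S.hb k).1 j.2.1))
  · exact toLocMod_eq_zero_of_mem (Ideal.mem_sup_right (Ideal.mem_span_singleton_self _))
  · exact isUnit_toLocMod (S.ac_b_notMem k 0)
  · exact isUnit_toLocMod (S.ac_b_notMem k 1)
  · exact isUnit_toLocMod (S.acgR_notMem g0 k)
  · exact isUnit_toLocMod (S.acgCo_notMem g0 k)

/-- the relation between `x_s`, `x_om` and the minor -/
lemma acg_KK : MvPolynomial.X (0, S.s) ^ (S.m + 2) * MvPolynomial.X (1, S.b k) ^ (S.m + 2) *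
      mn S.al (S.b k) +
    MvPolynomial.X (0, S.om) * MvPolynomial.X (1, S.b k) * S.acgR g0 k ∈ (S.pVg g0).I := by
  set φ : Coord ι 2 →+* (Coord ι 2 ⧸ (S.pVg g0).I) := Ideal.Quotient.mk (S.pVg g0).I with hφ
  have h0 : ∀ z, φ z = 0 ↔ z ∈ (S.pVg g0).I := fun z => Ideal.Quotient.eq_zero_iff_mem
  rw [← h0, map_add, map_mul, map_mul, map_mul, map_mul, map_pow, map_pow, S.acg_map_R g0 k φ,
    map_mn]
  have hmn : ∀ j, j ≠ S.al → xs φ 0 (S.b k) * xs φ 1 j = xs φ 1 (S.b k) * xs φ 0 j := by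
    intro j hj
    have h1 := (h0 _).2 (S.mn_pVg g0 (S.hb k).1 hj)
    rw [map_mn] at h1
    exact sub_eq_zero.1 h1
  have r1 := S.acg_rel_one g0 (cs φ) (xs φ 0) (xs φ 1) (xs φ 1 (S.b k)) (xs φ 0 (S.b k)) hmn
  have e0 : eval₂Hom (cs φ) (xs φ 0) S.F = 0 := by
    rw [← map_inFactor]
    exact (h0 _).2 (S.F_pVg g0)
  have e1 : eval₂Hom (cs φ) (xs φ 1) (S.Fg g0) = 0 := by
    rw [← map_inFactor]
    exact (h0 _).2 (S.Fg_pVg g0)
  rw [e0, e1] at r1
  change xs φ 0 S.s ^ (S.m + 2) * xs φ 1 (S.b k) ^ (S.m + 2) *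
    (xs φ 0 S.al * xs φ 1 (S.b k) - xs φ 1 S.al * xs φ 0 (S.b k)) +
    xs φ 0 S.om * xs φ 1 (S.b k) *
      (xs φ 1 (S.b k) ^ (S.m + 2) * eval₂Hom (cs φ) (xs φ 0) S.P -
        xs φ 0 (S.b k) ^ (S.m + 2) * eval₂Hom (cs φ) (xs φ 1) S.P -
        cs φ g0 * (xs φ 1 (S.b k) * xs φ 0 S.om) ^ (S.m + 2)) = 0
  linear_combination -r1

lemma acg_key : MvPolynomial.X (1, S.b k) * S.acgCo g0 k * MvPolynomial.X (0, S.s) +
    MvPolynomial.X (1, S.b k) * S.acgR g0 k * S.acOth k * inFactor 2 0 (S.q k) ^ S.a k ∈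
      (S.pVg g0).I := by
  have h1 := S.F_pVg g0
  have h2 := S.acg_KK g0 k
  have h := sub_mem ((S.pVg g0).I.mul_mem_left (MvPolynomial.X (1, S.b k) * S.acgR g0 k) h1)
    ((S.pVg g0).I.mul_mem_left (inFactor 2 0 S.P) h2)
  rw [ac_eq_F S k] at h
  convert h using 1
  rw [acgCo]
  ring

lemma acg_rel_pow (n : ℕ) : (MvPolynomial.X (1, S.b k) * S.acgCo g0 k) ^ n *
    MvPolynomial.X (0, S.s) ^ n -
    (-(MvPolynomial.X (1, S.b k) * S.acgR g0 k * S.acOth k)) ^ n *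
      inFactor 2 0 (S.q k) ^ (n * S.a k) ∈ (S.pVg g0).I := by
  have h0 := S.acg_key g0 k
  have h : MvPolynomial.X (1, S.b k) * S.acgCo g0 k * MvPolynomial.X (0, S.s) -
      (-(MvPolynomial.X (1, S.b k) * S.acgR g0 k * S.acOth k)) *
        inFactor 2 0 (S.q k) ^ S.a k ∈ (S.pVg g0).I := by
    convert h0 using 1
    ring
  have e1 : (MvPolynomial.X (1, S.b k) * S.acgCo g0 k * MvPolynomial.X (0, S.s)) ^ n =
      (MvPolynomial.X (1, S.b k) * S.acgCo g0 k) ^ n * MvPolynomial.X (0, S.s) ^ n :=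
    mul_pow _ _ _
  have e2 : (-(MvPolynomial.X (1, S.b k) * S.acgR g0 k * S.acOth k) *
      inFactor 2 0 (S.q k) ^ S.a k) ^ n =
      (-(MvPolynomial.X (1, S.b k) * S.acgR g0 k * S.acOth k)) ^ n *
        inFactor 2 0 (S.q k) ^ (n * S.a k) := by
    rw [mul_pow, ← pow_mul, mul_comm (S.a k) n]
  rw [← e1, ← e2]
  exact (S.pVg g0).I.mem_of_dvd (sub_dvd_pow_sub_pow _ _ n) h

theorem acg_ord_om : ordAt (S.pVg g0).I (S.pC k).I (MvPolynomial.X (0, S.om)) =
    ((S.m + 2) * S.a k : ℕ) := by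
  have hy2 := S.ac_b_notMem k 1
  refine ordAt_eq (t := inFactor 2 0 (S.q k)) (S.acg_pVg_le g0 k) (S.ac_q_mem k 0)
    (S.acg_q_notMem_pVg g0 k) (fun z hz => S.acg_reg g0 k hz)
    (s := (MvPolynomial.X (1, S.b k) * S.acgCo g0 k) ^ (S.m + 2) *
      (MvPolynomial.X (1, S.b k) * S.acgR g0 k))
    (s' := (-(MvPolynomial.X (1, S.b k) * S.acgR g0 k * S.acOth k)) ^ (S.m + 2) *
      (-(MvPolynomial.X (1, S.b k) ^ (S.m + 2) * mn S.al (S.b k))))
    (S.ac_mul k (S.ac_pow k _ (S.ac_mul k hy2 (S.acgCo_notMem g0 k)))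
      (S.ac_mul k hy2 (S.acgR_notMem g0 k)))
    (S.ac_mul k (S.ac_pow k _ (S.ac_neg k (S.ac_mul k (S.ac_mul k hy2 (S.acgR_notMem g0 k))
      (S.acOth_notMem k)))) (S.ac_neg k (S.ac_mul k (S.ac_pow k _ hy2) (S.ac_mn_notMem k)))) ?_
  have h1 := S.acg_KK g0 k
  have h2 := S.acg_rel_pow g0 k (S.m + 2)
  have h := sub_mem ((S.pVg g0).I.mul_mem_left
      ((MvPolynomial.X (1, S.b k) * S.acgCo g0 k) ^ (S.m + 2)) h1)
    ((S.pVg g0).I.mul_mem_left (MvPolynomial.X (1, S.b k) ^ (S.m + 2) * mn S.al (S.b k)) h2)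
  convert h using 1
  ring

end main

/-- Row N-C -/
lemma ord_Cg [NeZero g0] (k : Fin S.T) : CodimOne (S.pVg g0).I (S.pC k).I ∧
    ordAt (S.pVg g0).I (S.pC k).I (mn S.al S.om) = ((S.m + 2) * S.a k : ℕ) ∧
    ordAt (S.pVg g0).I (S.pC k).I (MvPolynomial.X (0, S.om)) = ((S.m + 2) * S.a k : ℕ) ∧
    ordAt (S.pVg g0).I (S.pC k).I (MvPolynomial.X (1, S.om)) = ((S.m + 2) * S.a k : ℕ) := by
  have hmn := S.mn_pVg g0 (S.hb k).1 S.halom.symm
  have hx2 := S.ac_b_notMem k 0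
  have hy2 := S.ac_b_notMem k 1
  refine ⟨codimOne_of (S.acg_pVg_le g0 k) (S.ac_q_mem k 0) (S.acg_q_notMem_pVg g0 k)
    (fun z hz => S.acg_reg g0 k hz), ?_, S.acg_ord_om g0 k, ?_⟩
  · rw [← S.acg_ord_om g0 k, ← ordAt_unit_mul hx2 (mn S.al S.om),
      ← ordAt_unit_mul (S.ac_mn_notMem k) (MvPolynomial.X (0, S.om))]
    apply ordAt_congr
    have h := (S.pVg g0).I.mul_mem_left (MvPolynomial.X (0, S.al)) hmn
    convert h using 1
    rw [mn, mn, mn]
    ring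
  · rw [← S.acg_ord_om g0 k, ← ordAt_unit_mul hx2 (MvPolynomial.X (1, S.om)),
      ← ordAt_unit_mul hy2 (MvPolynomial.X (0, S.om))]
    apply ordAt_congr
    exact hmn

end AData

end Kp

end Pool.Agent.RCH
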