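import Pool.Agent.RCH.Defs

/-!
# Rational equivalence on a closed subscheme of a product of projective spaces

`projSpace ι` is the projective space with coordinates indexed by `ι`. A multihomogeneous ideal `J` of
the ring of the coordinates of `N` points gives a closed subscheme of `(projSpace ι) ^ N`; the cycles on
it are the combinations of the integral subschemes of `(projSpace ι) ^ N` whose ideal contains `J`.
-/

set_option autoImplicit false

open MvPolynomial

namespace Pool.Agent.RCH

variable {ι : Type}

/-- The projective space with coordinates indexed by `ι`. -/
noncomputable def projSpace (ι : Type) : WVar ι where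
  wt := fun _ => 1
  eqs := ⊥

/-- The cycles rationally equivalent to zero on the closed subscheme `Z` of `X ^ N` given by the
ideal `J`: the group generated by the divisors of the rational functions `g / h` on the integral
subschemes of `Z`, with `g` and `h` multihomogeneous of the same multidegree. -/
noncomputable def RatOn (X : WVar ι) {N : ℕ} (J : Ideal (Coord ι N)) : AddSubgroup (Cycles X N) :=
  AddSubgroup.closure {c | ∃ (P : Pt X N) (g h : Coord ι N) (e : Fin N → ℕ), J ≤ P.I ∧
    IsWeightedHomogeneous (X.mdeg N) g e ∧ IsWeightedHomogeneous (X.mdeg N) h e ∧
    g ∉ P.I ∧ h ∉ P.I ∧ IsDivisor X P g h c}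

/-- The ideal of the product of the hypersurfaces `F = 0` and `F' = 0`: it is generated by `F` in the
coordinates of the first point and `F'` in the coordinates of the second. -/
noncomputable def pairIdeal (F F' : MvPolynomial ι ℂ) : Ideal (Coord ι 2) :=
  Ideal.span {inFactor 2 0 F, inFactor 2 1 F'}

end Pool.Agent.RCH
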