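import Pool.Agent.RCH.NgRings

/-!
# The ring of the fibre product is a domain

The equation `G` of the second point over the local ring `D` of the first variety at its hyperplane
section is irreducible over the field of fractions, or has a root `ρ = x_al + x_om h` in `D`. The
element `h` is integral over the ring of the first variety and invariant under the automorphisms
`x ↦ a x`, so that it is algebraic over `ℂ`, and as it vanishes on the hyperplane section it is zero.
-/

set_option autoImplicit false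

open MvPolynomial

namespace Pool.Agent.RCH

namespace Kp

namespace AData

variable {ι : Type} [Fintype ι] [DecidableEq ι] (S : AData ι) (g0 : ℂ)

/-! ### The coefficients of the equation -/

section coeffs

variable {L : Type} [CommRing L] (c : ℂ →+* L) (e : ι → L)

lemma polG_mod (h4 : e S.om = 0) : S.polG g0 c e =
    Polynomial.X * Polynomial.C (e S.s ^ (S.m + 2)) +
      Polynomial.C (e S.s * eval₂Hom c e S.g + eval₂Hom c e S.tau) := by
  rw [polG, polF_F, h4, zero_pow (by omega), mul_zero, Polynomial.C_0, zero_mul, add_zero,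
    add_zero]

lemma coeff_polG_one (h4 : e S.om = 0) : (S.polG g0 c e).coeff 1 = e S.s ^ (S.m + 2) := by
  rw [polG_mod _ _ _ _ h4, Polynomial.coeff_add, Polynomial.coeff_mul_C, Polynomial.coeff_X_one,
    one_mul, Polynomial.coeff_C_of_ne_zero one_ne_zero, add_zero]

lemma coeff_polG_two (h4 : e S.om = 0) {j : ℕ} (hj : 2 ≤ j) : (S.polG g0 c e).coeff j = 0 := by
  rw [polG_mod _ _ _ _ h4, Polynomial.coeff_add, Polynomial.coeff_mul_C,
    Polynomial.coeff_X_of_ne_one (by omega), zero_mul, Polynomial.coeff_C_of_ne_zero (by omega),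
    add_zero]

lemma coeff_polG_top : (S.polG g0 c e).coeff (S.m + 2) = e S.om * c S.lc := by
  rw [polG, Polynomial.coeff_add, coeff_F, Polynomial.coeff_C_of_ne_zero (by omega), add_zero]

lemma natDegree_polG_le : (S.polG g0 c e).natDegree ≤ S.m + 2 := by
  refine Polynomial.natDegree_add_le_of_degree_le (S.natDegree_F_le c e) ?_
  rw [Polynomial.natDegree_C]
  omega

end coeffs

/-! ### The hyperplane section -/

lemma prime_ptX_om : Prime (S.ptX S.om) := by
  obtain ⟨ρ, hρ1, hρ2, hρ3⟩ := S.exists_restr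
  have hdY := S.domRY0
  have hpp : (RingHom.ker ρ).IsPrime := RingHom.ker_isPrime ρ
  have hps : RingHom.ker ρ = Ideal.span {S.ptX S.om} := by
    ext z
    rw [RingHom.mem_ker, hρ3, Ideal.mem_span_singleton]
  rw [← Ideal.span_singleton_prime (S.ptX_ne S.om), ← hps]
  exact hpp

instance instPrimeOm : (Ideal.span {S.ptX S.om}).IsPrime :=
  (Ideal.span_singleton_prime (S.ptX_ne S.om)).2 S.prime_ptX_om

lemma ptX_s_notMem : S.ptX S.s ∉ Ideal.span {S.ptX S.om} := by
  obtain ⟨ρ, hρ1, hρ2, hρ3⟩ := S.exists_restr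
  rw [Ideal.mem_span_singleton, ← hρ3, hρ2]
  exact S.ptY0_s

lemma hom_ext_RX {L : Type} [CommRing L] {f g : S.RX →+* L}
    (h1 : ∀ z, f (algebraMap ℂ S.RX z) = g (algebraMap ℂ S.RX z))
    (h2 : ∀ j, f (S.ptX j) = g (S.ptX j)) : f = g := by
  refine Ideal.Quotient.ringHom_ext (MvPolynomial.ringHom_ext ?_ ?_)
  · intro z
    exact h1 z
  · intro j
    exact h2 j

lemma exists_sigR (a : ℂ) : ∃ σ : S.RX →+* S.RX,
    (∀ z, σ (algebraMap ℂ S.RX z) = algebraMap ℂ S.RX z) ∧
      ∀ j, σ (S.ptX j) = algebraMap ℂ S.RX a * S.ptX j := by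
  obtain ⟨γ, h1, h2⟩ := S.exists_liftX (algebraMap ℂ S.RX)
    (fun j => algebraMap ℂ S.RX a * S.ptX j) (by
      rw [ev_smul _ _ S.F_homog, F_ptX, mul_zero])
  exact ⟨γ, h1, h2⟩

/-! ### The local ring at the hyperplane section -/

section loc

variable (D : Type) [CommRing D] [IsDomain D] [Algebra ℂ D] [Algebra S.RX D]
  [IsScalarTower ℂ S.RX D] [IsLocalization.AtPrime D (Ideal.span {S.ptX S.om})] [IsLocalRing D]

/-- the coordinates in the local ring -/
noncomputable def ptD (D : Type) [CommRing D] [Algebra S.RX D] (j : ι) : D :=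
  algebraMap S.RX D (S.ptX j)

omit [IsDomain D] [Algebra ℂ D] [IsScalarTower ℂ S.RX D] [IsLocalRing D] in
lemma injD : Function.Injective (algebraMap S.RX D) :=
  IsLocalization.injective D (Ideal.span {S.ptX S.om}).primeCompl_le_nonZeroDivisors

omit [IsDomain D] [IsLocalization.AtPrime D (Ideal.span {S.ptX S.om})] [IsLocalRing D] in
lemma compD : (algebraMap S.RX D).comp (algebraMap ℂ S.RX) = algebraMap ℂ D :=
  RingHom.ext fun a => (IsScalarTower.algebraMap_apply ℂ S.RX D a).symm

omit [IsDomain D] [Algebra ℂ D] [IsScalarTower ℂ S.RX D] in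
lemma maxD : IsLocalRing.maximalIdeal D = Ideal.span {S.ptD D S.om} := by
  rw [← IsLocalization.AtPrime.map_eq_maximalIdeal (Ideal.span {S.ptX S.om}) D, Ideal.map_span,
    Set.image_singleton]
  rfl

include S in
omit [Algebra ℂ D] [IsScalarTower ℂ S.RX D] in
lemma pidD : IsPrincipalIdealRing D := by
  have hnoe : IsNoetherianRing D :=
    IsLocalization.isNoetherianRing (Ideal.span {S.ptX S.om}).primeCompl D inferInstance
  have hpi : (IsLocalRing.maximalIdeal D).IsPrincipal := by
    rw [S.maxD D]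
    exact ⟨⟨_, rfl⟩⟩
  have htf : (IsLocalRing.maximalIdeal D).IsPrincipal ↔ IsPrincipalIdealRing D :=
    (tfae_of_isNoetherianRing_of_isLocalRing_of_isDomain D).out 4 0
  exact htf.1 hpi

omit [IsDomain D] [Algebra ℂ D] [IsScalarTower ℂ S.RX D] [IsLocalRing D] in
lemma ptD_ne (j : ι) : S.ptD D j ≠ 0 := fun h =>
  S.ptX_ne j (S.injD D (by rw [map_zero]; exact h))

omit [IsDomain D] [Algebra ℂ D] [IsScalarTower ℂ S.RX D] in
lemma ptD_om_mem : S.ptD D S.om ∈ IsLocalRing.maximalIdeal D := by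
  rw [S.maxD D]
  exact Ideal.mem_span_singleton_self _

omit [IsDomain D] [Algebra ℂ D] [IsScalarTower ℂ S.RX D] [IsLocalRing D] in
lemma isUnit_ptD_s : IsUnit (S.ptD D S.s) :=
  IsLocalization.map_units D
    (⟨S.ptX S.s, S.ptX_s_notMem⟩ : (Ideal.span {S.ptX S.om}).primeCompl)

omit [IsDomain D] [IsLocalization.AtPrime D (Ideal.span {S.ptX S.om})] [IsLocalRing D] in
lemma F_ptD : eval₂Hom (algebraMap ℂ D) (S.ptD D) S.F = 0 := by
  have h := map_ev (algebraMap ℂ S.RX) S.ptX (algebraMap S.RX D) S.F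
  rw [F_ptX, map_zero, S.compD D] at h
  exact h.symm

/-- the equation of the second point over the local ring -/
noncomputable def GD (D : Type) [CommRing D] [Algebra ℂ D] [Algebra S.RX D] : Polynomial D :=
  S.polG g0 (algebraMap ℂ D) (S.ptD D)

omit [IsDomain D] [IsScalarTower ℂ S.RX D]
  [IsLocalization.AtPrime D (Ideal.span {S.ptX S.om})] in
lemma map_GD : (S.GD g0 D).map (IsLocalRing.residue D) =
    S.polG g0 ((IsLocalRing.residue D).comp (algebraMap ℂ D))
      (fun j => IsLocalRing.residue D (S.ptD D j)) := S.map_polG g0 _ _ _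

omit [IsDomain D] [Algebra ℂ D] [IsScalarTower ℂ S.RX D] in
lemma res_om : IsLocalRing.residue D (S.ptD D S.om) = 0 :=
  (IsLocalRing.residue_eq_zero_iff _).2 (S.ptD_om_mem D)

omit [IsDomain D] [IsScalarTower ℂ S.RX D] in
lemma GD_coeff_one : IsUnit ((S.GD g0 D).coeff 1) := by
  rw [← IsLocalRing.residue_ne_zero_iff_isUnit, ← Polynomial.coeff_map, map_GD,
    coeff_polG_one _ _ _ _ (S.res_om D)]
  exact (((S.isUnit_ptD_s D).map _).pow _).ne_zero

omit [IsDomain D] [IsScalarTower ℂ S.RX D] in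
lemma GD_coeff_two {j : ℕ} (hj : 2 ≤ j) :
    (S.GD g0 D).coeff j ∈ IsLocalRing.maximalIdeal D := by
  rw [← IsLocalRing.residue_eq_zero_iff, ← Polynomial.coeff_map, map_GD,
    coeff_polG_two _ _ _ _ (S.res_om D) hj]

omit [IsDomain D] [IsScalarTower ℂ S.RX D]
  [IsLocalization.AtPrime D (Ideal.span {S.ptX S.om})] [IsLocalRing D] in
lemma GD_coeff_top : (S.GD g0 D).coeff (S.m + 2) = S.ptD D S.om * algebraMap ℂ D S.lc :=
  S.coeff_polG_top g0 _ _

omit [IsScalarTower ℂ S.RX D] in
lemma GD_top_notMem :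
    (S.GD g0 D).coeff (S.m + 2) ∉ IsLocalRing.maximalIdeal D ^ 2 := by
  have hlc : IsUnit (algebraMap ℂ D S.lc) :=
    (isUnit_iff_ne_zero.2 S.hPc : IsUnit S.lc).map (algebraMap ℂ D)
  rw [GD_coeff_top, S.maxD D, Ideal.span_singleton_pow, Ideal.mem_span_singleton']
  rintro ⟨r, hr⟩
  have h5 : algebraMap ℂ D S.lc = r * S.ptD D S.om :=
    mul_left_cancel₀ (S.ptD_ne D S.om) (by linear_combination -hr)
  have h6 : algebraMap ℂ D S.lc ∈ IsLocalRing.maximalIdeal D := by
    rw [h5]
    exact Ideal.mul_mem_left _ _ (S.ptD_om_mem D)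
  exact (IsLocalRing.mem_maximalIdeal _).1 h6 hlc

omit [IsScalarTower ℂ S.RX D] in
lemma natDegree_GD : (S.GD g0 D).natDegree = S.m + 2 := by
  refine le_antisymm (S.natDegree_polG_le g0 _ _) (Polynomial.le_natDegree_of_ne_zero fun h => ?_)
  exact S.GD_top_notMem g0 D (by rw [h]; exact Ideal.zero_mem _)

/-! ### The root -/

omit [IsDomain D] [IsScalarTower ℂ S.RX D]
  [IsLocalization.AtPrime D (Ideal.span {S.ptX S.om})] [IsLocalRing D] in
lemma eval_GD (y : D) : (S.GD g0 D).eval y =
    eval₂Hom (algebraMap ℂ D) (Function.update (S.ptD D) S.al y) S.F +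
      algebraMap ℂ D g0 * S.ptD D S.om ^ (S.m + 3) := S.eval_polG g0 _ _ _

variable {D}

omit [IsDomain D] in
/-- a root in the local ring is `x_al + x_om h` for a non-unit `h` -/
lemma exists_h {y : D} (hy : (S.GD g0 D).eval y = 0) :
    ∃ h : D, y = S.ptD D S.al + S.ptD D S.om * h ∧ h ∈ IsLocalRing.maximalIdeal D := by
  have h1 := congrArg (Polynomial.eval y) (mul_quoF (algebraMap ℂ D) (S.ptD D) S.al (S.F_ptD D))
  rw [Polynomial.eval_mul, eval_polF, Polynomial.eval_sub, Polynomial.eval_X,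
    Polynomial.eval_C] at h1
  rw [eval_GD] at hy
  have hu : IsUnit ((quoF (algebraMap ℂ D) (S.ptD D) S.al S.F).eval y) := by
    rw [← IsLocalRing.residue_ne_zero_iff_isUnit]
    have h2 : IsLocalRing.residue D ((quoF (algebraMap ℂ D) (S.ptD D) S.al S.F).eval y) =
        ((quoF (algebraMap ℂ D) (S.ptD D) S.al S.F).map (IsLocalRing.residue D)).eval
          (IsLocalRing.residue D y) := by
      rw [Polynomial.eval_map_apply]
    rw [h2, map_quoF, S.quoF_eq_C _ (fun j => IsLocalRing.residue D (S.ptD D j)) ?_ (S.res_om D),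
      Polynomial.eval_C]
    · exact (((S.isUnit_ptD_s D).map _).pow _).ne_zero
    · rw [← map_ev, F_ptD, map_zero]
  obtain ⟨u, hu⟩ := hu
  refine ⟨-(algebraMap ℂ D g0 * S.ptD D S.om ^ (S.m + 2) * (↑u⁻¹ : D)), ?_, ?_⟩
  · have h3 : (u : D) * (↑u⁻¹ : D) = 1 := Units.mul_inv u
    have h4 : (y - S.ptD D S.al) * u = -(algebraMap ℂ D g0 * S.ptD D S.om ^ (S.m + 3)) := by
      rw [hu]
      linear_combination h1 + hy
    linear_combination (↑u⁻¹ : D) * h4 - (y - S.ptD D S.al) * h3
  · refine neg_mem (Ideal.mul_mem_right _ _ (Ideal.mul_mem_left _ _ ?_))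
    exact Ideal.pow_mem_of_mem _ (S.ptD_om_mem D) _ (by omega)

omit [IsLocalRing D] in
/-- `h` is integral over the ring of the variety -/
lemma isIntegral_h {h : D} (hy : (S.GD g0 D).eval (S.ptD D S.al + S.ptD D S.om * h) = 0) :
    IsIntegral S.RX h := by
  let G : Polynomial S.RX := S.polG g0 (algebraMap ℂ S.RX) S.ptX
  have hG : G.map (algebraMap S.RX D) = S.GD g0 D := by
    rw [GD, ← S.compD D]
    exact S.map_polG g0 _ _ _
  have hGt : G.coeff (S.m + 2) = S.ptX S.om * algebraMap ℂ S.RX S.lc := S.coeff_polG_top g0 _ _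
  have hGt0 : G.coeff (S.m + 2) ≠ 0 := by
    rw [hGt]
    refine mul_ne_zero (S.ptX_ne S.om) ?_
    exact (map_ne_zero_iff _ (algebraMap ℂ S.RX).injective).2 S.hPc
  have hGd : G.natDegree = S.m + 2 :=
    le_antisymm (S.natDegree_polG_le g0 _ _) (Polynomial.le_natDegree_of_ne_zero hGt0)
  let ℓ : Polynomial S.RX := Polynomial.C (S.ptX S.om) * Polynomial.X +
    Polynomial.C (S.ptX S.al)
  have hℓd : ℓ.natDegree = 1 := Polynomial.natDegree_linear (S.ptX_ne S.om)
  have hℓl : ℓ.leadingCoeff = S.ptX S.om := Polynomial.leadingCoeff_linear (S.ptX_ne S.om)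
  refine Ng.isIntegral_of_relation S.prime_ptX_om (q := G.comp ℓ)
    (u := algebraMap ℂ S.RX S.lc) (N := S.m + 3) ?_
    ((isUnit_iff_ne_zero.2 S.hPc : IsUnit S.lc).map (algebraMap ℂ S.RX)) ?_
  · rw [Polynomial.aeval_comp, ← Polynomial.eval_map_algebraMap, hG]
    have h1 : Polynomial.aeval h ℓ = S.ptD D S.al + S.ptD D S.om * h := by
      rw [map_add, map_mul, Polynomial.aeval_C, Polynomial.aeval_C, Polynomial.aeval_X]
      exact add_comm _ _
    rw [h1, hy]
  · rw [Polynomial.leadingCoeff_comp (by rw [hℓd]; exact one_ne_zero), hℓl, hGd,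
      Polynomial.leadingCoeff, hGd, hGt]
    ring

/-! ### The automorphisms -/

omit [IsDomain D] [IsLocalRing D] in
lemma exists_sigD {a : ℂ} (ha : a ≠ 0) : ∃ σ : D →+* D,
    (∀ z, σ (algebraMap ℂ D z) = algebraMap ℂ D z) ∧
      ∀ j, σ (S.ptD D j) = algebraMap ℂ D a * S.ptD D j := by
  obtain ⟨σ, h1, h2⟩ := S.exists_sigR a
  obtain ⟨τ, h3, h4⟩ := S.exists_sigR a⁻¹
  have hτσ : τ.comp σ = RingHom.id _ := by
    refine S.hom_ext_RX ?_ ?_
    · intro z
      rw [RingHom.comp_apply, h1, h3, RingHom.id_apply]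
    · intro j
      rw [RingHom.comp_apply, h2, map_mul, h3, h4, ← mul_assoc, ← map_mul, mul_inv_cancel₀ ha,
        map_one, one_mul, RingHom.id_apply]
  have hunit : ∀ y : (Ideal.span {S.ptX S.om}).primeCompl,
      IsUnit (((algebraMap S.RX D).comp σ) y) := by
    intro y
    refine IsLocalization.map_units D
      (⟨σ y, fun h => y.2 ?_⟩ : (Ideal.span {S.ptX S.om}).primeCompl)
    obtain ⟨w, hw⟩ := Ideal.mem_span_singleton'.1 h
    have h5 := congrArg τ hw
    have h6 : τ (σ (y : S.RX)) = y := congrArg (fun f => f (y : S.RX)) hτσ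
    rw [h6, map_mul, h4] at h5
    rw [← h5]
    exact Ideal.mul_mem_left _ _ (Ideal.mul_mem_left _ _ (Ideal.mem_span_singleton_self _))
  refine ⟨IsLocalization.lift hunit, ?_, ?_⟩
  · intro z
    rw [IsScalarTower.algebraMap_apply ℂ S.RX D, IsLocalization.lift_eq, RingHom.comp_apply, h1]
  · intro j
    rw [ptD, IsLocalization.lift_eq, RingHom.comp_apply, h2, map_mul,
      ← IsScalarTower.algebraMap_apply ℂ S.RX D]

variable (D) in
omit [IsDomain D] [IsLocalization.AtPrime D (Ideal.span {S.ptX S.om})] [IsLocalRing D] in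
/-- the action of an automorphism on an element of the ring of the variety -/
lemma sigD_poly (r : S.RX) : ∃ P : Polynomial D,
    (∃ z : ℂ, P.coeff 0 = algebraMap ℂ D z) ∧
    ∀ (a : ℂ) (σ : D →+* D), (∀ z, σ (algebraMap ℂ D z) = algebraMap ℂ D z) →
      (∀ j, σ (S.ptD D j) = algebraMap ℂ D a * S.ptD D j) →
        σ (algebraMap S.RX D r) = P.eval (algebraMap ℂ D a) := by
  obtain ⟨p, rfl⟩ := Ideal.Quotient.mk_surjective r
  have hev : ∀ p : MvPolynomial ι ℂ, algebraMap S.RX D (Ideal.Quotient.mk _ p) =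
      eval₂Hom (algebraMap ℂ D) (S.ptD D) p := by
    intro p
    rw [← ev_ptX, map_ev, compD]
    rfl
  refine ⟨∑ j ∈ Finset.range (p.totalDegree + 1),
    Polynomial.C (eval₂Hom (algebraMap ℂ D) (S.ptD D) (homogeneousComponent j p)) *
      Polynomial.X ^ j, ⟨coeff 0 p, ?_⟩, ?_⟩
  · rw [Polynomial.finsetSum_coeff, Finset.sum_eq_single 0]
    · rw [pow_zero, mul_one, Polynomial.coeff_C_zero, homogeneousComponent_zero, eval₂Hom_C]
    · intro j _ hj
      rw [Polynomial.coeff_C_mul, Polynomial.coeff_X_pow, if_neg (Ne.symm hj), mul_zero]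
    · intro h
      exact absurd (Finset.mem_range.2 (Nat.succ_pos _)) h
  · intro a σ h1 h2
    rw [hev, map_ev]
    have h3 : σ.comp (algebraMap ℂ D) = algebraMap ℂ D := RingHom.ext h1
    have h4 : (fun j => σ (S.ptD D j)) = fun j => algebraMap ℂ D a * S.ptD D j := funext h2
    rw [h3, h4, Polynomial.eval_finsetSum]
    conv_lhs => rw [← sum_homogeneousComponent p]
    rw [map_sum]
    refine Finset.sum_congr rfl fun j _ => ?_
    rw [ev_smul _ _ (homogeneousComponent_isHomogeneous j p), Polynomial.eval_mul,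
      Polynomial.eval_C, Polynomial.eval_pow, Polynomial.eval_X, mul_comm]

omit [IsScalarTower ℂ S.RX D] in
/-- the automorphisms fix `h` -/
lemma sigD_h {h : D} (hy : (S.GD g0 D).eval (S.ptD D S.al + S.ptD D S.om * h) = 0) {a : ℂ}
    (ha : a ≠ 0) {σ : D →+* D} (h1 : ∀ z, σ (algebraMap ℂ D z) = algebraMap ℂ D z)
    (h2 : ∀ j, σ (S.ptD D j) = algebraMap ℂ D a * S.ptD D j) : σ h = h := by
  set y := S.ptD D S.al + S.ptD D S.om * h with hyd
  have hai : algebraMap ℂ D a * algebraMap ℂ D a⁻¹ = 1 := by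
    rw [← map_mul, mul_inv_cancel₀ ha, map_one]
  have h3 : (S.GD g0 D).eval (algebraMap ℂ D a⁻¹ * σ y) = 0 := by
    have h4 := congrArg σ hy
    rw [eval_GD, map_add, map_mul, map_pow, h1, h2, map_zero, map_ev] at h4
    have h5 : σ.comp (algebraMap ℂ D) = algebraMap ℂ D := RingHom.ext h1
    have h6 : (fun j => σ (Function.update (S.ptD D) S.al y j)) = fun j => algebraMap ℂ D a *
        Function.update (S.ptD D) S.al (algebraMap ℂ D a⁻¹ * σ y) j := by
      funext j
      by_cases hj : j = S.al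
      · subst hj
        rw [Function.update_self, Function.update_self, ← mul_assoc, hai, one_mul]
      · rw [Function.update_of_ne hj, Function.update_of_ne hj, h2]
    rw [h5, h6, ev_smul _ _ S.F_homog, mul_pow] at h4
    rw [eval_GD]
    have h7 : algebraMap ℂ D a ^ (S.m + 3) *
        (eval₂Hom (algebraMap ℂ D) (Function.update (S.ptD D) S.al
          (algebraMap ℂ D a⁻¹ * σ y)) S.F +
            algebraMap ℂ D g0 * S.ptD D S.om ^ (S.m + 3)) = 0 := by
      linear_combination h4
    refine (mul_eq_zero.1 h7).resolve_left (pow_ne_zero _ ?_)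
    exact (map_ne_zero_iff _ (algebraMap ℂ D).injective).2 ha
  have h4 := Ng.root_unique (S.GD g0 D) (S.GD_coeff_one g0 D)
    (fun j hj => S.GD_coeff_two g0 D hj) h3 hy
  have h5 : σ y = algebraMap ℂ D a * y := by
    have h7 : σ y = algebraMap ℂ D a * (algebraMap ℂ D a⁻¹ * σ y) := by
      rw [← mul_assoc, hai, one_mul]
    rw [h7, h4]
  rw [hyd, map_add, map_mul, h2, h2] at h5
  have h6 : algebraMap ℂ D a * S.ptD D S.om * (σ h - h) = 0 := by
    linear_combination h5
  refine sub_eq_zero.1 ((mul_eq_zero.1 h6).resolve_left (mul_ne_zero ?_ (S.ptD_ne D S.om)))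
  exact (map_ne_zero_iff _ (algebraMap ℂ D).injective).2 ha

/-- there is no root in the local ring -/
theorem no_root [NeZero g0] (y : D) : (S.GD g0 D).eval y ≠ 0 := by
  intro hy
  obtain ⟨h, rfl, hm⟩ := S.exists_h g0 hy
  have hint := S.isIntegral_h g0 hy
  have hex : ∀ a : ℂ, ∃ σ : D →+* D, a ≠ 0 →
      (∀ z, σ (algebraMap ℂ D z) = algebraMap ℂ D z) ∧
        ∀ j, σ (S.ptD D j) = algebraMap ℂ D a * S.ptD D j := by
    intro a
    by_cases ha : a = 0
    · exact ⟨RingHom.id _, fun h => absurd ha h⟩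
    · obtain ⟨σ, hσ⟩ := S.exists_sigD (D := D) ha
      exact ⟨σ, fun _ => hσ⟩
  choose σ hσ using hex
  obtain ⟨p, hp, hp0⟩ := Ng.algebraic_of_fixed σ
    (fun a ha => S.sigD_h g0 hy ha (hσ a ha).1 (hσ a ha).2)
    (fun r => by
      obtain ⟨P, hP1, hP2⟩ := S.sigD_poly D r
      exact ⟨P, hP1, fun a ha => hP2 a (σ a) (hσ a ha).1 (hσ a ha).2⟩) hint
  have h0 := Ng.eq_zero_of_algebraic (Ideal.IsPrime.ne_top inferInstance) hm hp hp0
  rw [h0, mul_zero, add_zero, eval_GD, Function.update_eq_self, F_ptD, zero_add] at hy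
  rcases mul_eq_zero.1 hy with h1 | h1
  · exact (map_ne_zero_iff _ (algebraMap ℂ D).injective).2 (NeZero.ne g0) h1
  · exact pow_ne_zero _ (S.ptD_ne D S.om) h1

/-! ### The ring is a domain -/

variable (D) in
lemma irreducible_GD [NeZero g0] {K : Type} [Field K] [Algebra D K] [IsFractionRing D K] :
    Irreducible ((S.GD g0 D).map (algebraMap D K)) := by
  have := S.pidD D
  exact (Ng.irreducible_or_root (K := K) (S.GD g0 D) (S.m + 2) (S.natDegree_GD g0 D)
    (by omega) (S.GD_coeff_one g0 D) (fun _ hj => S.GD_coeff_two g0 D hj)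
    (S.GD_top_notMem g0 D)).resolve_right fun ⟨y, hy⟩ => S.no_root g0 y hy

omit [IsDomain D] [IsLocalRing D] in
lemma isDomain_RVg_of {K : Type} [Field K] [Algebra D K] [IsFractionRing D K]
    (hirr : Irreducible ((S.GD g0 D).map (algebraMap D K))) (hm : (S.Gg g0).Monic) :
    IsDomain (S.RVg g0) := by
  have hinjK : Function.Injective (algebraMap D K) := IsFractionRing.injective D K
  have hu : IsUnit (((algebraMap D K).comp (algebraMap S.RX D)) (S.ptX S.om)) := by
    rw [isUnit_iff_ne_zero, RingHom.comp_apply]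
    intro h
    exact S.ptX_ne S.om (S.injD D (hinjK (by rw [h, map_zero, map_zero])))
  let f : S.AX →+* K := IsLocalization.Away.lift (S.ptX S.om) hu
  have hf : ∀ x, f (algebraMap S.RX S.AX x) = algebraMap D K (algebraMap S.RX D x) :=
    fun x => IsLocalization.Away.lift_eq (S.ptX S.om) hu x
  have hfinj : Function.Injective f := by
    rw [injective_iff_map_eq_zero]
    intro x hx
    obtain ⟨⟨a, s⟩, has⟩ := IsLocalization.surj (Submonoid.powers (S.ptX S.om)) x
    have h2 : f (algebraMap S.RX S.AX a) = 0 := by rw [← has, map_mul, hx, zero_mul]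
    rw [hf] at h2
    have h3 : a = 0 := S.injD D (hinjK (by rw [h2, map_zero, map_zero]))
    simp only at has
    rw [h3, map_zero] at has
    exact ((IsLocalization.map_units S.AX s).mul_left_eq_zero).1 has
  refine isDomain_adjoinRoot_of_map f hfinj (S.Gg g0) hm ?_
  have h6 : f.comp (algebraMap ℂ S.AX) = (algebraMap D K).comp (algebraMap ℂ D) := by
    refine RingHom.ext fun a => ?_
    rw [RingHom.comp_apply, algebraMap_AX, hf, RingHom.comp_apply,
      IsScalarTower.algebraMap_apply ℂ S.RX D]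
  have h7 : (fun j => f (S.ptA j)) = fun j => algebraMap D K (S.ptD D j) := by
    funext j
    exact hf _
  have h5 : (S.Gg g0).map f = Polynomial.C (f S.lcInv) * (S.GD g0 D).map (algebraMap D K) := by
    rw [Gg, Polynomial.map_mul, Polynomial.map_C, map_polG, h6, h7, GD, map_polG]
  rw [h5]
  have h8 : IsUnit (f S.lcInv) := (Units.isUnit (S.isUnit_lc_mul.unit⁻¹)).map f
  exact (irreducible_isUnit_mul (Polynomial.isUnit_C.2 h8)).2 hirr

end loc

lemma isDomain_RVg_of' (D : Type) [CommRing D] [IsDomain D] [Algebra ℂ D] [Algebra S.RX D]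
    [IsScalarTower ℂ S.RX D] [IsLocalization.AtPrime D (Ideal.span {S.ptX S.om})]
    [IsLocalRing D] [NeZero g0] (hm : (S.Gg g0).Monic) : IsDomain (S.RVg g0) :=
  S.isDomain_RVg_of g0 (D := D) (K := FractionRing D) (S.irreducible_GD g0 D) hm

lemma monic_Gg : (S.Gg g0).Monic := by
  refine Polynomial.monic_of_natDegree_le_of_coeff_eq_one (S.m + 2) ?_ ?_
  · exact (Polynomial.natDegree_C_mul_le _ _).trans (S.natDegree_polG_le g0 _ _)
  · rw [Gg, Polynomial.coeff_C_mul, coeff_polG_top, mul_comm (S.ptA S.om), lcInv_mul]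

instance instDomRVg [NeZero g0] : IsDomain (S.RVg g0) := by
  have hdD : IsDomain (Localization.AtPrime (Ideal.span {S.ptX S.om})) :=
    IsLocalization.isDomain_localization
      (Ideal.span {S.ptX S.om}).primeCompl_le_nonZeroDivisors
  exact S.isDomain_RVg_of' g0 (Localization.AtPrime (Ideal.span {S.ptX S.om})) (S.monic_Gg g0)

end AData

end Kp

end Pool.Agent.RCH
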