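import Pool.Agent.RCH.KpAE

/-!
# Two members of a pencil: vertex times hyperplane section; the uniformizer is `X (0, s)`
-/

set_option autoImplicit false

open MvPolynomial

namespace Pool.Agent.RCH

namespace Kp

namespace AData

attribute [local instance] Pt.prime

variable {ι : Type} [Fintype ι] [DecidableEq ι] (S : AData ι)

/-- the equation with `P'` in the place of `P` -/
noncomputable def FP (P' : MvPolynomial ι ℂ) : MvPolynomial ι ℂ :=
  S.f0 + MvPolynomial.X S.om * P'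

/-- the form `y_j ^ n P(x) - x_j ^ n P'(y)` -/
noncomputable def RRP (P' : MvPolynomial ι ℂ) (j : ι) : Coord ι 2 :=
  MvPolynomial.X (1, j) ^ (S.m + 2) * inFactor 2 0 S.P -
    MvPolynomial.X (0, j) ^ (S.m + 2) * inFactor 2 1 P'

/-- `x_s ^ (n - 1) y_s ^ n N_s + y_om R_s` -/
noncomputable def HHP (P' : MvPolynomial ι ℂ) : Coord ι 2 :=
  MvPolynomial.X (0, S.s) ^ (S.m + 1) * MvPolynomial.X (1, S.s) ^ (S.m + 2) * mn S.al S.s +
    MvPolynomial.X (1, S.om) * S.RRP P' S.s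

lemma FP_ev (P' : MvPolynomial ι ℂ) {L : Type} [CommRing L] (c : ℂ →+* L) (x : ι → L) :
    eval₂Hom c x (S.FP P') = eval₂Hom c x S.f0 + x S.om * eval₂Hom c x P' := by
  rw [FP, map_add, map_mul, eval₂Hom_X']

lemma map_HHP (P' : MvPolynomial ι ℂ) {L : Type} [CommRing L] (φ : Coord ι 2 →+* L) :
    φ (S.HHP P') = xs φ 0 S.s ^ (S.m + 1) * xs φ 1 S.s ^ (S.m + 2) *
      (xs φ 0 S.al * xs φ 1 S.s - xs φ 1 S.al * xs φ 0 S.s) +
      xs φ 1 S.om * (xs φ 1 S.s ^ (S.m + 2) * eval₂Hom (cs φ) (xs φ 0) S.P -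
        xs φ 0 S.s ^ (S.m + 2) * eval₂Hom (cs φ) (xs φ 1) P') := by
  rw [HHP, RRP, map_add, map_mul, map_mul, map_mul, map_pow, map_pow, map_mn, map_sub, map_mul,
    map_mul, map_pow, map_pow, map_inFactor, map_inFactor]
  rfl

lemma FP_homog {P' : MvPolynomial ι ℂ} (hP' : P'.IsHomogeneous (S.m + 2)) :
    (S.FP P').IsHomogeneous (S.m + 3) := by
  have h := (isHomogeneous_X ℂ S.om).mul hP'
  rw [show 1 + (S.m + 2) = S.m + 3 from by ring] at h
  exact S.f0_homog.add h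

lemma pderiv_FP (P' : MvPolynomial ι ℂ) : pderiv S.al (S.FP P') =
    MvPolynomial.X S.s ^ (S.m + 2) + MvPolynomial.X S.om * pderiv S.al P' := by
  rw [FP, f0, map_add, map_add, pderiv_eq_zero (p := MvPolynomial.X S.s * S.g + S.tau)
    (fun hj => (S.sg_vars hj).1 rfl), pderiv_mul, pderiv_mul, pderiv_X_self,
    pderiv_X_of_ne S.halom.symm, pderiv_eq_zero (p := MvPolynomial.X S.s ^ (S.m + 2))]
  · ring
  · intro hj
    have h3 := vars_pow _ _ hj
    rw [vars_X, Finset.mem_singleton] at h3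
    exact S.hals h3

lemma ne_RRP (P' : MvPolynomial ι ℂ) : S.RRP P' S.s ∉ (S.pE 1).I := by
  have : IsDomain (Coord ι 2 ⧸ (S.pE 1).I) := Ideal.Quotient.isDomain _
  have e4 : eval₂Hom (cs S.aeq) (xs S.aeq 0) S.P = xs S.aeq 0 S.al ^ (S.m + 2) * cs S.aeq S.lc :=
    S.ae_P_vertex _ _ fun j hj => S.aeq_eq_zero.2 (S.ae_X0 hj)
  rw [← aeq_eq_zero, RRP, map_sub, map_mul, map_mul, map_pow, map_pow, map_inFactor, e4]
  have e0 : S.aeq (MvPolynomial.X (0, S.s)) = 0 := S.aeq_s0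
  have e1 : S.aeq (MvPolynomial.X (1, S.s)) ≠ 0 := S.aeq_s1
  have e2 : xs S.aeq 0 S.al ≠ 0 := fun h => S.ae_al (S.aeq_eq_zero.1 h)
  have e3 : IsUnit (cs S.aeq S.lc) := (IsUnit.mk0 _ S.hPc).map (cs S.aeq)
  rw [e0, zero_pow (by omega), zero_mul, sub_zero]
  exact mul_ne_zero (pow_ne_zero _ e1) (mul_ne_zero (pow_ne_zero _ e2) e3.ne_zero)

lemma ne_HHP (P' : MvPolynomial ι ℂ) : S.HHP P' ∈ (S.pE 1).I := by
  have e0 : S.aeq (MvPolynomial.X (0, S.s)) = 0 := S.aeq_s0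
  have e1 : S.aeq (MvPolynomial.X (1, S.om)) = 0 := S.aeq_om
  rw [← aeq_eq_zero, HHP, map_add, map_mul, map_mul, map_mul, map_pow, e0, e1,
    zero_pow (by omega), zero_mul, zero_mul, zero_mul, add_zero]

lemma ne_FP (P' : MvPolynomial ι ℂ) : inFactor 2 1 (S.FP P') ∈ (S.pE 1).I := by
  have h1 : inFactor 2 1 S.F ∈ (S.pE 1).I := F_mem _ 1
  have h2 : inFactor 2 1 (S.FP P') = inFactor 2 1 S.F +
      MvPolynomial.X (1, S.om) * (inFactor 2 1 P' - inFactor 2 1 S.P) := by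
    have e : ∀ p : MvPolynomial ι ℂ, inFactor 2 1 (MvPolynomial.X S.om * p) =
        MvPolynomial.X (1, S.om) * inFactor 2 1 p := by
      intro p
      rw [map_mul]
      congr 1
      exact rename_X _ _
    rw [FP, F, map_add, map_add, e, e]
    ring
  rw [h2]
  exact add_mem h1 (Ideal.mul_mem_right _ _ S.ae_om)

/-! ### Killing the ideal -/

lemma ne_kill (P' : MvPolynomial ι ℂ) {L : Type} [CommRing L] (φ : Coord ι 2 →+* L)
    (hs : xs φ 0 S.s = 0) (hy : IsUnit (xs φ 1 S.s)) (hR : IsUnit (φ (S.RRP P' S.s)))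
    (hmn : ∀ j, j ≠ S.al → j ≠ S.s → φ (mn S.s j) = 0) (hH : φ (S.HHP P') = 0)
    (hF : φ (inFactor 2 1 (S.FP P')) = 0) {z : Coord ι 2} (hz : z ∈ (S.pE 1).I) : φ z = 0 := by
  have hs' : φ (MvPolynomial.X (0, S.s)) = 0 := hs
  have h4 : xs φ 1 S.om = 0 := by
    rw [HHP, map_add, map_mul, map_mul, map_mul, map_pow, hs', zero_pow (by omega), zero_mul,
      zero_mul, zero_add] at hH
    exact (hR.mul_left_eq_zero).1 hH
  refine kill_dE φ 1 0 (by decide) ?_ ?_ ?_ hz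
  · intro j hj
    rw [Finset.mem_singleton.1 hj]
    exact h4
  · intro j hj
    have hj' : j ≠ S.al := fun h => hj (Finset.mem_singleton.2 h)
    by_cases hjs : j = S.s
    · rw [hjs]
      exact hs
    · have h := hmn j hj' hjs
      rw [map_mn, hs, zero_mul, zero_sub, neg_eq_zero] at h
      exact (hy.mul_right_eq_zero).1 h
  · rw [map_inFactor, S.FP_ev, h4, zero_mul, add_zero] at hF
    exact hF

/-! ### The family and the Jacobian condition -/

/-- the equations -/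
noncomputable def nefam (P' : MvPolynomial ι ℂ) : S.AEκ → Coord ι 2
  | none => inFactor 2 1 (S.FP P')
  | some none => S.HHP P'
  | some (some j) => mn S.s j.1

lemma nefam_mem (P' : MvPolynomial ι ℂ) (i : S.AEκ) : S.nefam P' i ∈ (S.pE 1).I := by
  rcases i with _ | _ | j
  · exact S.ne_FP P'
  · exact S.ne_HHP P'
  · exact S.ae_mn j.2.1

lemma ne_pd_F (P' : MvPolynomial ι ℂ) :
    S.aeq (pderiv (1, S.al) (inFactor 2 1 (S.FP P'))) = xs S.aeq 1 S.s ^ (S.m + 2) := by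
  have hinj : Function.Injective (fun j : ι => ((1, j) : Fin 2 × ι)) :=
    fun a b hab => (Prod.mk.inj hab).2
  have h1 : pderiv (1, S.al) (inFactor 2 1 (S.FP P')) = inFactor 2 1 (pderiv S.al (S.FP P')) :=
    pderiv_rename hinj S.al (S.FP P')
  rw [h1, pderiv_FP, map_inFactor, map_add, map_mul, map_pow, eval₂Hom_X', eval₂Hom_X',
    S.aeq_om, zero_mul, add_zero]

lemma ne_pd_HH (P' : MvPolynomial ι ℂ) {v : Fin 2 × ι} (hv : v ≠ (0, S.s)) :
    S.aeq (pderiv v (S.HHP P')) = if v = (1, S.om) then S.aeq (S.RRP P' S.s) else 0 := by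
  have e1 : pderiv v (MvPolynomial.X (0, S.s) : Coord ι 2) = 0 := pderiv_X_of_ne hv.symm
  have e2 : S.aeq (MvPolynomial.X (1, S.om)) = 0 := S.aeq_om
  have e3 : S.aeq (MvPolynomial.X (0, S.s)) = 0 := S.aeq_s0
  obtain ⟨A, h0⟩ : ∃ A : Coord ι 2, S.HHP P' = MvPolynomial.X (0, S.s) ^ (S.m + 1) * A +
      MvPolynomial.X (1, S.om) * S.RRP P' S.s := by
    refine ⟨MvPolynomial.X (1, S.s) ^ (S.m + 2) * mn S.al S.s, ?_⟩
    rw [HHP]
    ring
  rw [h0, map_add, pderiv_mul, pderiv_mul, pderiv_pow, e1, mul_zero, zero_mul, zero_add,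
    map_add, map_add, map_mul, map_mul, map_mul, map_pow, e2, e3, zero_mul,
    zero_pow (by omega), zero_mul, zero_add, add_zero]
  by_cases h : v = (1, S.om)
  · rw [if_pos h, h, pderiv_X_self, map_one, one_mul]
  · rw [if_neg h, pderiv_X_of_ne (Ne.symm h), map_zero, zero_mul]

lemma ne_jac (P' : MvPolynomial ι ℂ) (c : S.AEκ → Coord ι 2) (d : Coord ι 2)
    (h : ∀ v : Fin 2 × ι, ∑ i, c i * pderiv v (S.nefam P' i) +
      d * pderiv v (MvPolynomial.X (0, S.s)) ∈ (S.pE 1).I) :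
    (∀ i, c i ∈ (S.pE 1).I) ∧ d ∈ (S.pE 1).I := by
  have : IsDomain (Coord ι 2 ⧸ (S.pE 1).I) := Ideal.Quotient.isDomain _
  have key : ∀ v : Fin 2 × ι,
      S.aeq (c none) * S.aeq (pderiv v (inFactor 2 1 (S.FP P'))) +
      (S.aeq (c (some none)) * S.aeq (pderiv v (S.HHP P')) +
        ∑ j : {j : ι // j ≠ S.al ∧ j ≠ S.s}, S.aeq (c (some (some j))) *
            S.aeq (pderiv v (mn S.s j.1))) +
      S.aeq d * S.aeq (pderiv v (MvPolynomial.X (0, S.s))) = 0 := by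
    intro v
    have h1 := S.aeq_eq_zero.2 (h v)
    rw [map_add, map_mul, map_sum, Fintype.sum_option, Fintype.sum_option] at h1
    simp only [map_mul] at h1
    exact h1
  have hf : S.aeq (c none) = 0 := by
    have h1 := key (1, S.al)
    have hne : ((1, S.al) : Fin 2 × ι) ≠ (0, S.s) := by simp
    have hne2 : ((1, S.al) : Fin 2 × ι) ≠ (1, S.om) := by
      intro h2
      exact S.halom (Prod.mk.inj h2).2
    have hs2 : ∑ j : {j : ι // j ≠ S.al ∧ j ≠ S.s}, S.aeq (c (some (some j))) *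
        S.aeq (pderiv (1, S.al) (mn S.s j.1)) = 0 := by
      refine Finset.sum_eq_zero fun j _ => ?_
      rw [ae_pd_mn S _ j.2.1 hne, if_neg (by simp), mul_zero]
    rw [hs2, ne_pd_HH S P' hne, if_neg hne2, ae_pd_X, if_neg hne, ne_pd_F, mul_zero, mul_zero,
      add_zero, add_zero, add_zero] at h1
    exact (mul_eq_zero.1 h1).resolve_right (pow_ne_zero _ S.aeq_s1)
  have hH : S.aeq (c (some none)) = 0 := by
    have h1 := key (1, S.om)
    have hne : ((1, S.om) : Fin 2 × ι) ≠ (0, S.s) := by simp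
    have hs2 : ∑ j : {j : ι // j ≠ S.al ∧ j ≠ S.s}, S.aeq (c (some (some j))) *
        S.aeq (pderiv (1, S.om) (mn S.s j.1)) = 0 := by
      refine Finset.sum_eq_zero fun j _ => ?_
      rw [ae_pd_mn S _ j.2.1 hne, if_neg (by simp), mul_zero]
    rw [hs2, ne_pd_HH S P' hne, if_pos rfl, ae_pd_X, if_neg hne, hf, mul_zero, zero_mul,
      add_zero, add_zero, zero_add] at h1
    exact (mul_eq_zero.1 h1).resolve_right fun h2 => S.ne_RRP P' (S.aeq_eq_zero.1 h2)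
  have hM : ∀ j : {j : ι // j ≠ S.al ∧ j ≠ S.s}, S.aeq (c (some (some j))) = 0 := by
    intro j
    have h1 := key (0, j.1)
    have hne : ((0, j.1) : Fin 2 × ι) ≠ (0, S.s) := by
      intro h2
      exact j.2.2 (Prod.mk.inj h2).2
    have hs2 : ∑ l : {j : ι // j ≠ S.al ∧ j ≠ S.s}, S.aeq (c (some (some l))) *
        S.aeq (pderiv (0, j.1) (mn S.s l.1)) =
          S.aeq (c (some (some j))) * -xs S.aeq 1 S.s := by
      rw [Finset.sum_eq_single j]
      · rw [ae_pd_mn S _ j.2.1 hne, if_pos rfl]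
      · intro l _ hl
        rw [ae_pd_mn S _ l.2.1 hne, if_neg, mul_zero]
        intro h2
        exact hl (Subtype.ext (Prod.mk.inj h2).2.symm)
      · intro h2
        exact absurd (Finset.mem_univ _) h2
    rw [hs2, hf, hH, ae_pd_X, if_neg hne, mul_zero, zero_mul, zero_mul, zero_add,
      zero_add, add_zero] at h1
    exact (mul_eq_zero.1 h1).resolve_right (neg_ne_zero.2 S.aeq_s1)
  have hd : S.aeq d = 0 := by
    have h1 := key (0, S.s)
    have hs2 : ∑ j : {j : ι // j ≠ S.al ∧ j ≠ S.s}, S.aeq (c (some (some j))) *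
        S.aeq (pderiv (0, S.s) (mn S.s j.1)) = 0 :=
      Finset.sum_eq_zero fun j _ => by rw [hM, zero_mul]
    rw [hs2, hf, hH, ae_pd_X, if_pos rfl, mul_one, zero_mul, zero_mul, zero_add,
      zero_add, zero_add] at h1
    exact h1
  refine ⟨fun i => ?_, S.aeq_eq_zero.1 hd⟩
  rw [← aeq_eq_zero]
  rcases i with _ | _ | j
  · exact hf
  · exact hH
  · exact hM j

/-! ### The relation between the two equations -/

lemma ne_rel {P' : MvPolynomial ι ℂ} {L : Type} [CommRing L]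
    (c : ℂ →+* L) (x y : ι → L) (h : ∀ j, j ≠ S.al → x S.s * y j = y S.s * x j) :
    y S.s ^ (S.m + 3) * eval₂Hom c x S.F - x S.s ^ (S.m + 3) * eval₂Hom c y (S.FP P') =
      x S.s * (x S.s ^ (S.m + 1) * y S.s ^ (S.m + 2) * (x S.al * y S.s - y S.al * x S.s) +
        y S.om * (y S.s ^ (S.m + 2) * eval₂Hom c x S.P -
          x S.s ^ (S.m + 2) * eval₂Hom c y P')) := by
  have hg : y S.s ^ (S.m + 2) * eval₂Hom c x S.g = x S.s ^ (S.m + 2) * eval₂Hom c y S.g := by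
    rw [← ev_smul c _ S.hgh, ← ev_smul c _ S.hgh]
    refine ev_congr _ _ fun j hj => ?_
    exact (h j (S.hgv j hj).1).symm
  have ht : y S.s ^ (S.m + 3) * eval₂Hom c x S.tau = x S.s ^ (S.m + 3) * eval₂Hom c y S.tau := by
    rw [← ev_smul c _ S.tau_homog, ← ev_smul c _ S.tau_homog]
    refine ev_congr _ _ fun j hj => ?_
    exact (h j (S.tau_vars hj).1).symm
  have ho := h S.om S.halom.symm
  rw [S.F_ev, S.FP_ev, S.f0_ev, S.f0_ev]
  have e1 : y S.s ^ (S.m + 3) = y S.s ^ (S.m + 2) * y S.s := pow_succ _ _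
  have e2 : x S.s ^ (S.m + 3) = x S.s ^ (S.m + 2) * x S.s := pow_succ _ _
  have e3 : x S.s ^ (S.m + 2) = x S.s ^ (S.m + 1) * x S.s := pow_succ _ _
  linear_combination ht + (x S.s * y S.s) * hg -
    (y S.s ^ (S.m + 2) * eval₂Hom c x S.P) * ho

/-- the form is in each prime ideal with the equations -/
lemma HHP_mem {P' : MvPolynomial ι ℂ} {V : Ideal (Coord ι 2)} [V.IsPrime]
    (hmn : ∀ j, j ≠ S.al → mn S.s j ∈ V) (hF0 : inFactor 2 0 S.F ∈ V)
    (hF : inFactor 2 1 (S.FP P') ∈ V) (htP : (MvPolynomial.X (0, S.s) : Coord ι 2) ∉ V) :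
    S.HHP P' ∈ V := by
  let φ : Coord ι 2 →+* Coord ι 2 ⧸ V := Ideal.Quotient.mk V
  have hφ : ∀ z, φ z = 0 ↔ z ∈ V := fun z => Ideal.Quotient.eq_zero_iff_mem
  have : IsDomain (Coord ι 2 ⧸ V) := Ideal.Quotient.isDomain _
  have hx : xs φ 0 S.s ≠ 0 := fun h => htP ((hφ _).1 h)
  have hpr : ∀ j, j ≠ S.al → xs φ 0 S.s * xs φ 1 j = xs φ 1 S.s * xs φ 0 j := by
    intro j hj
    have h := (hφ _).2 (hmn j hj)
    rw [map_mn] at h
    exact sub_eq_zero.1 h
  have h0 : eval₂Hom (cs φ) (xs φ 0) S.F = 0 := by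
    rw [← map_inFactor]
    exact (hφ _).2 hF0
  have h1 : eval₂Hom (cs φ) (xs φ 1) (S.FP P') = 0 := by
    rw [← map_inFactor]
    exact (hφ _).2 hF
  have h := S.ne_rel (P' := P') (cs φ) (xs φ 0) (xs φ 1) hpr
  rw [h0, h1, mul_zero, mul_zero, sub_zero] at h
  rw [← hφ, S.map_HHP P' φ]
  exact (mul_eq_zero.1 h.symm).resolve_left hx

/-! ### The point is above the fibre square -/

/-- a homomorphism to a field with the properties of the fibre product kills the ideal -/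
def Kills (P' : MvPolynomial ι ℂ) (V : Ideal (Coord ι 2)) : Prop :=
  ∀ (D : Type) [Field D] (φ : Coord ι 2 →+* D), xs φ 0 S.s ≠ 0 → xs φ 1 S.s ≠ 0 →
    xs φ 0 S.om ≠ 0 → (∀ j, j ≠ S.al → xs φ 0 S.s * xs φ 1 j = xs φ 1 S.s * xs φ 0 j) →
    eval₂Hom (cs φ) (xs φ 0) S.F = 0 → eval₂Hom (cs φ) (xs φ 1) (S.FP P') = 0 →
    ∀ z ∈ V, φ z = 0

lemma ne_le {P' : MvPolynomial ι ℂ} {V : Ideal (Coord ι 2)} (hV : S.Kills P' V) :
    V ≤ (S.pE 1).I := by
  obtain ⟨L, hL, hq, hlt, htL⟩ := kj (Q := (S.pE 1).I) (S.nefam P') (MvPolynomial.X (0, S.s))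
    (S.nefam_mem P') (S.ae_X0 S.hals.symm)
    (fun z hz => S.ne_kill P'
      (toLocMod (Ideal.span (Set.range (S.nefam P')) ⊔ Ideal.span {MvPolynomial.X (0, S.s)})
        (S.pE 1).I)
      (toLocMod_eq_zero_of_mem (Ideal.mem_sup_right (Ideal.mem_span_singleton_self _)))
      (isUnit_toLocMod S.ae_s1) (isUnit_toLocMod (S.ne_RRP P'))
      (fun j hj hjs => toLocMod_eq_zero_of_mem (Ideal.mem_sup_left
        (Ideal.subset_span ⟨some (some ⟨j, hj, hjs⟩), rfl⟩)))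
      (toLocMod_eq_zero_of_mem (Ideal.mem_sup_left (Ideal.subset_span ⟨some none, rfl⟩)))
      (toLocMod_eq_zero_of_mem (Ideal.mem_sup_left (Ideal.subset_span ⟨none, rfl⟩))) hz)
    (S.ne_jac P')
  have hmnL : ∀ j, j ≠ S.al → mn S.s j ∈ L := by
    intro j hj
    by_cases hjt : j = S.s
    · subst hjt
      have h0 : mn S.s S.s = (0 : Coord ι 2) := by
        rw [mn]
        ring
      rw [h0]
      exact L.zero_mem
    · exact hq (some (some ⟨j, hj, hjt⟩))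
  have hFL : inFactor 2 1 (S.FP P') ∈ L := hq none
  have hHL : S.HHP P' ∈ L := hq (some none)
  let φ : Coord ι 2 →+* FractionRing (Coord ι 2 ⧸ L) := aeFr L
  have hφ : ∀ z, φ z = 0 ↔ z ∈ L := fun z => aeFr_eq_zero
  have hx : xs φ 0 S.s ≠ 0 := fun h => htL ((hφ _).1 h)
  have hy : xs φ 1 S.s ≠ 0 := fun h => S.ae_s1 (hlt.le ((hφ _).1 h))
  have hN : φ (mn S.al S.s) ≠ 0 := fun h => S.ae_NN (hlt.le ((hφ _).1 h))
  have hmn : ∀ j, j ≠ S.al → φ (mn S.s j) = 0 := fun j hj => (hφ _).2 (hmnL j hj)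
  have hH : φ (S.HHP P') = 0 := (hφ _).2 hHL
  have hF1 : eval₂Hom (cs φ) (xs φ 1) (S.FP P') = 0 := by
    rw [← map_inFactor]
    exact (hφ _).2 hFL
  have hpr : ∀ j, j ≠ S.al → xs φ 0 S.s * xs φ 1 j = xs φ 1 S.s * xs φ 0 j := by
    intro j hj
    have h := hmn j hj
    rw [map_mn] at h
    exact sub_eq_zero.1 h
  have hH' := (S.map_HHP P' φ).symm.trans hH
  have hu : xs φ 0 S.om ≠ 0 := by
    intro h
    have h1 := hpr S.om S.halom.symm
    rw [h, mul_zero] at h1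
    have h2 : xs φ 1 S.om = 0 := (mul_eq_zero.1 h1).resolve_left hx
    rw [h2, zero_mul, add_zero] at hH'
    have h3 := (mul_eq_zero.1 hH').resolve_left (mul_ne_zero (pow_ne_zero _ hx)
      (pow_ne_zero _ hy))
    apply hN
    rw [map_mn]
    exact h3
  have hF0 : eval₂Hom (cs φ) (xs φ 0) S.F = 0 := by
    have h := S.ne_rel (P' := P') (cs φ) (xs φ 0) (xs φ 1) hpr
    rw [hH', hF1, mul_zero, mul_zero, sub_zero] at h
    exact (mul_eq_zero.1 h).resolve_left (pow_ne_zero _ hy)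
  intro z hz
  exact hlt.le ((hφ z).1 (hV _ φ hx hy hu hpr hF0 hF1 z hz))

lemma ne_reg {P' : MvPolynomial ι ℂ} {V : Ideal (Coord ι 2)}
    (hmn : ∀ j, j ≠ S.al → mn S.s j ∈ V) (hH : S.HHP P' ∈ V)
    (hF : inFactor 2 1 (S.FP P') ∈ V) {z : Coord ι 2} (hz : z ∈ (S.pE 1).I) :
    ∃ s, s ∉ (S.pE 1).I ∧ s * z ∈ V ⊔ Ideal.span {(MvPolynomial.X (0, S.s) : Coord ι 2)} := by
  set J := V ⊔ Ideal.span {(MvPolynomial.X (0, S.s) : Coord ι 2)} with hJ
  apply exists_of_toLocMod_eq_zero (J := J)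
  let φ : Coord ι 2 →+* LocMod J (S.pE 1).I := toLocMod J (S.pE 1).I
  have hφ : ∀ w ∈ V, φ w = 0 := fun w hw =>
    toLocMod_eq_zero_of_mem (Ideal.mem_sup_left hw)
  exact S.ne_kill P' φ
    (toLocMod_eq_zero_of_mem (Ideal.mem_sup_right (Ideal.mem_span_singleton_self _)))
    (isUnit_toLocMod S.ae_s1) (isUnit_toLocMod (S.ne_RRP P'))
    (fun j hj _ => hφ _ (hmn j hj)) (hφ _ hH) (hφ _ hF) hz

/-- The orders at vertex times hyperplane section. -/
theorem ne_ord {P' : MvPolynomial ι ℂ} {V : Ideal (Coord ι 2)} [V.IsPrime] (hV : S.Kills P' V)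
    (hmn : ∀ j, j ≠ S.al → mn S.s j ∈ V) (hF0 : inFactor 2 0 S.F ∈ V)
    (hF : inFactor 2 1 (S.FP P') ∈ V) (htP : (MvPolynomial.X (0, S.s) : Coord ι 2) ∉ V) :
    CodimOne V (S.pE 1).I ∧
    ordAt V (S.pE 1).I (mn S.al S.om) = (S.m + 1 : ℕ) ∧
    ordAt V (S.pE 1).I (MvPolynomial.X (0, S.om)) = (S.m + 2 : ℕ) ∧
    ordAt V (S.pE 1).I (MvPolynomial.X (1, S.om)) = (S.m + 1 : ℕ) := by
  have hP := S.ne_le hV
  have hH := S.HHP_mem hmn hF0 hF htP
  have htQ : (MvPolynomial.X (0, S.s) : Coord ι 2) ∈ (S.pE 1).I := S.ae_X0 S.hals.symm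
  have hreg : ∀ z ∈ (S.pE 1).I, ∃ s, s ∉ (S.pE 1).I ∧
      s * z ∈ V ⊔ Ideal.span {(MvPolynomial.X (0, S.s) : Coord ι 2)} :=
    fun z hz => S.ne_reg hmn hH hF hz
  have hp : (S.pE 1).I.IsPrime := (S.pE 1).prime
  have hy1 := S.ae_s1
  have hN := S.ae_NN
  have hR := S.ne_RRP P'
  have hmno : mn S.s S.om ∈ V := hmn S.om S.halom.symm
  have hmul : ∀ a b : Coord ι 2, a ∉ (S.pE 1).I → b ∉ (S.pE 1).I →
      a * b ∉ (S.pE 1).I := fun a b ha hb h => (hp.mem_or_mem h).elim ha hb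
  have hpow : ∀ (a : Coord ι 2) (n : ℕ), a ∉ (S.pE 1).I →
      a ^ n ∉ (S.pE 1).I := fun a n ha h => ha (hp.mem_of_pow_mem n h)
  have hneg : ∀ a : Coord ι 2, a ∉ (S.pE 1).I → -a ∉ (S.pE 1).I :=
    fun a ha h => ha (neg_mem_iff.1 h)
  refine ⟨codimOne_of hP htQ htP hreg, ?_, ?_, ?_⟩
  · refine ordAt_eq (t := MvPolynomial.X (0, S.s)) hP htQ htP hreg
      (s := S.RRP P' S.s * MvPolynomial.X (1, S.s))
      (s' := -(mn S.al S.s ^ 2 * MvPolynomial.X (1, S.s) ^ (S.m + 2))) (hmul _ _ hR hy1)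
      (hneg _ (hmul _ _ (hpow _ _ hN) (hpow _ _ hy1))) ?_
    have h := add_mem (V.mul_mem_left (mn S.al S.s) hH)
      (V.mul_mem_left (S.RRP P' S.s * MvPolynomial.X (1, S.al)) hmno)
    convert h using 1
    rw [HHP, mn, mn, mn]
    ring
  · refine ordAt_eq (t := MvPolynomial.X (0, S.s)) hP htQ htP hreg
      (s := S.RRP P' S.s * MvPolynomial.X (1, S.s))
      (s' := -(mn S.al S.s * MvPolynomial.X (1, S.s) ^ (S.m + 2))) (hmul _ _ hR hy1)
      (hneg _ (hmul _ _ hN (hpow _ _ hy1))) ?_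
    have h := sub_mem (V.mul_mem_left (MvPolynomial.X (0, S.s)) hH)
      (V.mul_mem_left (S.RRP P' S.s) hmno)
    convert h using 1
    rw [HHP, mn, mn]
    ring
  · refine ordAt_eq (t := MvPolynomial.X (0, S.s)) hP htQ htP hreg
      (s := S.RRP P' S.s) (s' := -(mn S.al S.s * MvPolynomial.X (1, S.s) ^ (S.m + 2))) hR
      (hneg _ (hmul _ _ hN (hpow _ _ hy1))) ?_
    convert hH using 1
    rw [HHP]
    ring

end AData

end Kp

end Pool.Agent.RCH
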