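import Pool.Agent.RCH.NgEqDefs
import Pool.Agent.RCH.WtTr

/-!
# Comparison of the two definitions of rational equivalence on a closed subscheme
-/

set_option autoImplicit false

open MvPolynomial

namespace Pool.Agent.RCH.Wt

variable {ι : Type} {X : WVar ι} {N : ℕ}

/-- if at each point a coordinate of weight one does not vanish, the divisors are the same -/
theorem isDivisor_iff_isDiv [Finite ι] (hw : ∀ j, 0 < X.wt j) (h : ∀ (Q : Pt X N) (i : Fin N),
    ∃ j, (MvPolynomial.X (i, j) : Coord ι N) ∉ Q.I ∧ X.wt j = 1) {P : Pt X N} {g k : Coord ι N}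
    {e : Fin N → ℕ} {c : Cycles X N} (hg : IsWeightedHomogeneous (X.mdeg N) g e)
    (hk : IsWeightedHomogeneous (X.mdeg N) k e) (hgP : g ∉ P.I) (hkP : k ∉ P.I) :
    IsDivisor X P g k c ↔ IsDiv X P g k c := by
  have hcard : ∀ P Q : Pt X N, P.I ≤ Q.I → Nat.card (Cls (gr X N) P.I Q.I) = 1 := by
    intro P Q hPQ
    have h1 := idx_mul hPQ
    rwa [idx_eq_one (h P), idx_eq_one (h Q), mul_one] at h1
  constructor
  · intro hdiv Q
    refine ⟨fun hQ => ?_, fun hQ => by rw [hdiv Q, if_neg hQ]⟩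
    obtain ⟨u, v, hu, hv, huv⟩ := exists_uv hw hQ.1.le hg hk hgP hkP
    refine ⟨u, v, hu, hv, huv, ?_⟩
    rw [hdiv Q, if_pos hQ]
    have h1 := ordAt_sub hw hQ hgP hkP u v hu hv huv
    rwa [hcard P Q hQ.1.le, Nat.cast_one, one_mul] at h1
  · intro hdiv Q
    by_cases hQ : CodimOne P.I Q.I
    · obtain ⟨u, v, hu, hv, huv, hc⟩ := (hdiv Q).1 hQ
      rw [if_pos hQ, hc]
      have h1 := ordAt_sub hw hQ hgP hkP u v hu hv huv
      rw [hcard P Q hQ.1.le, Nat.cast_one, one_mul] at h1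
      exact h1.symm
    · rw [if_neg hQ, (hdiv Q).2 hQ]

/-- all weights one: the two relations of rational equivalence on a closed subscheme are the same -/
theorem ratOn_eq_ratEqOn [Finite ι] (hw : ∀ j, X.wt j = 1) (J : Ideal (Coord ι N)) :
    RatOn X J = RatEqOn X J := by
  have hpos : ∀ j, 0 < X.wt j := fun j => by rw [hw j]; exact Nat.one_pos
  have h1 : ∀ (Q : Pt X N) (i : Fin N),
      ∃ j, (MvPolynomial.X (i, j) : Coord ι N) ∉ Q.I ∧ X.wt j = 1 :=
    fun Q i => (Q.relevant i).imp fun j hj => ⟨hj, hw j⟩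
  rw [RatOn, RatEqOn]
  congr 1
  ext c
  constructor
  · rintro ⟨P, g, h, e, hJ, hg, hh, hgP, hhP, hdiv⟩
    exact ⟨P, g, h, e, hJ, hg, hh, hgP, hhP, (isDivisor_iff_isDiv hpos h1 hg hh hgP hhP).1 hdiv⟩
  · rintro ⟨P, g, h, e, hJ, hg, hh, hgP, hhP, hdiv⟩
    exact ⟨P, g, h, e, hJ, hg, hh, hgP, hhP, (isDivisor_iff_isDiv hpos h1 hg hh hgP hhP).2 hdiv⟩

theorem ratOn_projSpace [Finite ι] (J : Ideal (Coord ι N)) :
    RatOn (projSpace ι) J = RatEqOn (projSpace ι) J := ratOn_eq_ratEqOn (fun _ => rfl) J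

end Pool.Agent.RCH.Wt
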