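import Pool.Agent.RCH.NgDefs
import Pool.Agent.RCH.WtDefs

/-!
# Rational equivalence on a closed subscheme of a product, with the orders computed in the local rings
-/

set_option autoImplicit false

open MvPolynomial

namespace Pool.Agent.RCH

variable {ι : Type}

/-- The cycles rationally equivalent to zero on the closed subscheme `Z` of `X ^ N` given by the
ideal `J`: the group generated by the divisors of the rational functions `g / h` on the integral
subschemes of `Z`, with `g` and `h` multihomogeneous of the same multidegree. -/
noncomputable def RatEqOn (X : WVar ι) {N : ℕ} (J : Ideal (Coord ι N)) : AddSubgroup (Cycles X N) :=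
  AddSubgroup.closure {c | ∃ (P : Pt X N) (g h : Coord ι N) (e : Fin N → ℕ), J ≤ P.I ∧
    IsWeightedHomogeneous (X.mdeg N) g e ∧ IsWeightedHomogeneous (X.mdeg N) h e ∧
    g ∉ P.I ∧ h ∉ P.I ∧ IsDiv X P g h c}

end Pool.Agent.RCH
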