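import Pool.Agent.RCH.NgSec
import Pool.Agent.RCH.NgEq
import Pool.Agent.RCH.NgPts

/-!
# Products of cycles on two hypersurfaces of a pencil
-/

set_option autoImplicit false

open MvPolynomial

namespace Pool.Agent.RCH

namespace Ng

open Kp

section defs

variable {ι : Type}

/-- The product `D × D'` of a cycle on the hypersurface `F = 0` and a cycle on the hypersurface
`F' = 0`, a cycle on the square of the projective space supported on the product of the two
hypersurfaces. -/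
noncomputable def cross {F F' : MvPolynomial ι ℂ} (D : Cycles (hyp F) 1)
    (D' : Cycles (hyp F') 1) : Cycles (projSpace ι) 2 :=
  boxC (projSpace ι) ![D.mapDomain fg, D'.mapDomain fg]

/-- The cycles rationally equivalent to zero on the product of the hypersurfaces `F = 0` and
`F' = 0`. -/
noncomputable def crossZero (F F' : MvPolynomial ι ℂ) : AddSubgroup (Cycles (projSpace ι) 2) :=
  RatEqOn (projSpace ι) (pairIdeal F F')

/-- A homomorphism from the cycles on `X` to an abelian group which is zero on the cycles rationally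
equivalent to zero, has the same value on all `l_k`, and whose values on the `B_j` are linearly
independent. -/
structure IsClass (X : WVar ι) {t m : ℕ} (l : Fin t → Pt X 1) (B : Fin m → Pt X 1)
    {A : Type} [AddCommGroup A] (cl : Cycles X 1 →+ A) : Prop where
  rat : ∀ x ∈ RatEq X 1, cl x = 0
  eq : ∀ j k, cl (Finsupp.single (l j) 1) = cl (Finsupp.single (l k) 1)
  indep : LinearIndependent ℤ (fun j => cl (Finsupp.single (B j) 1))

/-- The cycle `D` on `X` is supported on the section `x_v = 0` and its class is zero, for a class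
map of `X`. -/
def ClassZero (X : WVar ι) {t m : ℕ} (v : ι) (l : Fin t → Pt X 1) (B : Fin m → Pt X 1)
    (D : Cycles X 1) : Prop :=
  (∀ Q ∈ D.support, (MvPolynomial.X (0, v) : Coord ι 1) ∈ Q.I) ∧
    ∃ (A : Type) (_ : AddCommGroup A) (cl : Cycles X 1 →+ A), IsClass X l B cl ∧ cl D = 0

end defs

section comparison

variable {ι : Type} [Finite ι]

lemma ratZero_hyp (F : MvPolynomial ι ℂ) (N : ℕ) : RatZero (hyp F) N = RatEq (hyp F) N :=
  Wt.ratZero_eq_ratEq (fun _ => Nat.one_pos) fun Q i => (Q.relevant i).imp fun _ hj => ⟨hj, rfl⟩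

lemma crossZero_eq (F F' : MvPolynomial ι ℂ) :
    crossZero F F' = RatOn (projSpace ι) (pairIdeal F F') := (Wt.ratOn_projSpace _).symm

lemma cross_eq {F F' : MvPolynomial ι ℂ} (D : Cycles (hyp F) 1) (D' : Cycles (hyp F') 1) :
    cross D D' = bx (projSpace ι) (fgC F 1 D) (fgC F' 1 D') := rfl

end comparison

/-- relation (A) on the square of one hypersurface -/
theorem relN_zero {ι : Type} [Fintype ι] [DecidableEq ι] (S : AData ι) : RelN S S.F := by
  have h : RatZero (hyp S.F) 2 ≤ RatOn (hyp S.F) (pairIdeal S.F S.F) := by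
    refine (AddSubgroup.closure_le _).2 ?_
    rintro c ⟨P, g, k, e, hg, hk, hgP, hkP, hc⟩
    exact ratOn_of_isDivisor (pairIdeal_le_iff.2
      ⟨P.onX 0 _ (Ideal.subset_span rfl), P.onX 1 _ (Ideal.subset_span rfl)⟩) hg hk hgP hkP hc
  have h1 := fgC_mem (h S.relA)
  simp only [map_nsmul, map_sub, map_sum, fgC_single] at h1
  exact h1

/-- the statement of relation (A) on the products of two different hypersurfaces -/
def RelAll (ι : Type) [Fintype ι] [DecidableEq ι] : Prop :=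
  ∀ (A : AData ι) (g0 : ℂ) [NeZero g0], RelN A (A.Fg g0)

/-- two subschemes: all products of two combinations of degree zero -/
theorem two_of_squares' {ι : Type} {X : WVar ι} {t : ℕ} (ht : t = 2) {q : Fin t → Pt X 1}
    {a : Fin t → ℕ} (ha : ∀ k, 1 ≤ a k) {c : ℕ} (hc : 1 ≤ c) {G : AddSubgroup (Cycles X 2)}
    (h : c • ∑ j, ∑ k ∈ Finset.univ.filter (fun k => j < k), (a j * a k) •
      extPow X (Finsupp.single (q j) 1 - Finsupp.single (q k) 1) 2 ∈ G) (γ δ : Fin t → ℤ)
    (hγ : ∑ k, γ k = 0) (hδ : ∑ k, δ k = 0) : ∃ M : ℕ, 1 ≤ M ∧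
      M • bx X (∑ k, Finsupp.single (q k) (γ k)) (∑ k, Finsupp.single (q k) (δ k)) ∈ G := by
  subst ht
  exact two_of_squares ha hc h γ δ hγ hδ

/-- a cycle of class zero on the section is a combination of degree zero -/
theorem degreeZero_of_classZero (S : PlData) (k₀ : Fin S.t)
    (B : Fin (2 * S.r + 3) → Pt (hyp S.F) 1) (hB : ∀ j, (B j).I = Kc.stdIdeal S.r S.F (S.b k₀) j)
    {D : Cycles (hyp S.F) 1}
    (hD : ClassZero (hyp S.F) (S.x (2 * S.r + 4)) S.pl B D) : Kc.DegreeZero (hyp S.F) S.pl D := by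
  obtain ⟨hs, A, hA, cl, hcl, h0⟩ := hD
  refine Kc.mod_class S k₀ B hB cl ⟨fun x hx => hcl.rat x ?_, hcl.eq, hcl.indep⟩ D hs h0
  rwa [← ratZero_hyp]

section main

variable {r m t : ℕ} {b : Fin t → ℂ} {a : Fin t → ℕ} (hb : Function.Injective b)
  (ha : ∀ k, 1 ≤ a k) (hsum : ∑ k, a k = m + 3) {g : ℕ → MvPolynomial (Fin (2 * r + 5)) ℂ}
  (hg : ∀ i ≤ r, (g i).IsHomogeneous (m + 2))
  (hgv : ∀ i ≤ r, ∀ j ∈ (g i).vars, 2 * i + 1 ≤ (j : ℕ) ∧ (j : ℕ) ≤ 2 * r + 3)
  (hge : ∀ i < r, eval (Pi.single (cx r (2 * i + 2)) 1) (g i) ≠ 0)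
  (hgb : ∀ k, eval (Pi.single (cx r (2 * r + 2)) 1 + Pi.single (cx r (2 * r + 3)) (b k)) (g r) ≠ 0)

/-- the polynomials of the pencil -/
lemma pencil_sub (P : MvPolynomial (Fin (2 * r + 5)) ℂ) (c c' : ℂ) :
    planesPoly r (m + 2) b a g (P + C c' * X (cx r (2 * r + 4)) ^ (m + 2)) =
      planesPoly r (m + 2) b a g (P + C c * X (cx r (2 * r + 4)) ^ (m + 2)) +
        X (cx r (2 * r + 4)) * (C (c' - c) * X (cx r (2 * r + 4)) ^ (m + 2)) := by
  rw [planesPoly, planesPoly, C_sub]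
  ring

lemma homog_pencil {P : MvPolynomial (Fin (2 * r + 5)) ℂ} (hP : P.IsHomogeneous (m + 2)) (c : ℂ) :
    (P + C c * X (cx r (2 * r + 4)) ^ (m + 2)).IsHomogeneous (m + 2) := by
  have h := ((isHomogeneous_C (Fin (2 * r + 5)) c).mul
    ((isHomogeneous_X ℂ (cx r (2 * r + 4))).pow (m + 2)))
  rw [zero_add, one_mul] at h
  exact hP.add h

lemma apex_pencil {P : MvPolynomial (Fin (2 * r + 5)) ℂ} {n : ℕ} (hn : n ≠ 0)
    (hP : eval (Pi.single (cx r 0) 1) P ≠ 0) (c : ℂ) :
    eval (Pi.single (cx r 0) 1) (P + C c * X (cx r (2 * r + 4)) ^ n) ≠ 0 := by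
  rw [map_add, map_mul, map_pow, eval_X, Pi.single_eq_of_ne
    (cx_ne r (by omega) (by omega) (by omega)), zero_pow hn, mul_zero, add_zero]
  exact hP

include hb ha hsum hg hgv hge hgb in
theorem cross_main (hA : RelAll (Fin (2 * r + 5))) {P : MvPolynomial (Fin (2 * r + 5)) ℂ}
    (hP : P.IsHomogeneous (m + 2)) (hPc : eval (Pi.single (cx r 0) 1) P ≠ 0) (c c' : ℂ)
    {F F' : MvPolynomial (Fin (2 * r + 5)) ℂ}
    (hF : F = planesPoly r (m + 2) b a g (P + C c * X (cx r (2 * r + 4)) ^ (m + 2)))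
    (hF' : F' = planesPoly r (m + 2) b a g (P + C c' * X (cx r (2 * r + 4)) ^ (m + 2)))
    (k₀ : Fin t) :
    ∃ (l : Fin t → Pt (hyp F) 1) (l' : Fin t → Pt (hyp F') 1)
      (B : Fin (2 * r + 3) → Pt (hyp F) 1) (B' : Fin (2 * r + 3) → Pt (hyp F') 1),
      (∀ k, (l k).I = spaceIdeal r (b k) ∧ (l' k).I = spaceIdeal r (b k)) ∧
      (∀ j, (B j).I = Kc.stdIdeal r F (b k₀) j ∧ (B' j).I = Kc.stdIdeal r F' (b k₀) j) ∧
      (m + 2) ^ (r + 1) • ∑ j, ∑ k ∈ Finset.univ.filter (fun k => j < k), (a j * a k) •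
        cross (Finsupp.single (l j) 1 - Finsupp.single (l k) 1)
          (Finsupp.single (l' j) 1 - Finsupp.single (l' k) 1) ∈ crossZero F F' ∧
      (t = 2 → ∀ (D : Cycles (hyp F) 1) (D' : Cycles (hyp F') 1),
        ClassZero (hyp F) (cx r (2 * r + 4)) l B D →
        ClassZero (hyp F') (cx r (2 * r + 4)) l' B' D' →
        ∃ M : ℕ, 1 ≤ M ∧ M • cross D D' ∈ crossZero F F') := by
  subst hF hF'
  let S : PlData := ⟨r, m, t, b, a, hb, ha, hsum, g, hg, hgv, hge, hgb,
    P + C c * X (cx r (2 * r + 4)) ^ (m + 2), homog_pencil hP c, apex_pencil (by omega) hPc c⟩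
  let S' : PlData := ⟨r, m, t, b, a, hb, ha, hsum, g, hg, hgv, hge, hgb,
    P + C c' * X (cx r (2 * r + 4)) ^ (m + 2), homog_pencil hP c', apex_pencil (by omega) hPc c'⟩
  obtain ⟨B, hB⟩ := Kc.exists_std S k₀
  obtain ⟨B', hB'⟩ := Kc.exists_std S' k₀
  have hFF : (S'.F : MvPolynomial (Fin (2 * r + 5)) ℂ) = S.F +
      X (S.x (2 * S.r + 4)) * (C (c' - c) * X (cx r (2 * r + 4)) ^ (m + 2)) :=
    pencil_sub P c c'
  have hN : ∀ A : AData (Fin (2 * r + 5)), A.m = m → A.om = cx r (2 * r + 4) → A.F = S.F →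
      RelN A S'.F := by
    intro A hAm hAo hAF
    have e : (S'.F : MvPolynomial (Fin (2 * r + 5)) ℂ) =
        A.F + C (c' - c) * X A.om ^ (A.m + 3) := by
      rw [hFF, hAF, hAm, hAo]
      show S.F + X (cx r (2 * r + 4)) * _ = _
      ring
    by_cases hc : c' - c = 0
    · rw [e, hc, C_0, zero_mul, add_zero]
      exact relN_zero A
    · have : NeZero (c' - c) := ⟨hc⟩
      rw [e]
      exact hA A (c' - c)
  have hsq := S.relN_squares (F' := S'.F) hFF hN
  have hlq : ∀ k, fg (S'.pl k) = S.ql k := fun k =>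
    Pt.ext' _ ((S'.pl_I_eq k).trans (S.ql_I k).symm)
  refine ⟨S.pl, S'.pl, B, B', fun k => ⟨S.pl_I_eq k, S'.pl_I_eq k⟩, fun j => ⟨hB j, hB' j⟩, ?_, ?_⟩
  · rw [crossZero_eq]
    have e : ∀ j k, cross (Finsupp.single (S.pl j) 1 - Finsupp.single (S.pl k) 1)
        (Finsupp.single (S'.pl j) 1 - Finsupp.single (S'.pl k) 1) =
        extPow (projSpace (Fin (2 * r + 5)))
          (Finsupp.single (S.ql j) 1 - Finsupp.single (S.ql k) 1) 2 := by
      intro j k
      rw [extPow_two, cross_eq, map_sub, map_sub, fgC_single, fgC_single, fgC_single, fgC_single,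
        hlq, hlq]
      rfl
    have e2 : ∑ j, ∑ k ∈ Finset.univ.filter (fun k => j < k), (a j * a k) •
        cross (Finsupp.single (S.pl j) 1 - Finsupp.single (S.pl k) 1)
          (Finsupp.single (S'.pl j) 1 - Finsupp.single (S'.pl k) 1) =
        ∑ j, ∑ k ∈ Finset.univ.filter (fun k => j < k), (a j * a k) •
          extPow (projSpace (Fin (2 * r + 5)))
            (Finsupp.single (S.ql j) 1 - Finsupp.single (S.ql k) 1) 2 :=
      Finset.sum_congr rfl fun j _ => Finset.sum_congr rfl fun k _ =>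
        congrArg (fun z => (a j * a k) • z) (e j k)
    exact (congrArg (fun z => (m + 2) ^ (r + 1) • z) e2).symm ▸ hsq
  · intro ht D D' hD hD'
    rw [crossZero_eq, cross_eq]
    refine degreeZero_mem (l := S.pl) (l' := S'.pl) (q := S.ql) (fun _ => rfl) hlq
      (two_of_squares' ht ha (Nat.one_le_pow _ _ (by omega)) hsq) ?_ ?_
    · exact degreeZero_of_classZero S k₀ B hB hD
    · exact degreeZero_of_classZero S' k₀ B' hB' hD'

end main

end Ng

end Pool.Agent.RCH
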