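import Pool.Agent.RCH.NgTr
import Pool.Agent.RCH.KpLast
import Pool.Agent.RCH.NgB

/-!
# The relation on the last level, on a closed subscheme
-/

set_option autoImplicit false

open MvPolynomial

namespace Pool.Agent.RCH

attribute [local instance] Pt.prime

namespace Kp

section cone

variable {ι ι' : Type} {N : ℕ} {T : WVar ι} {X : WVar ι'} {e : ι → ι'} {K : Set ι'}

/-- The cone over the divisor of a rational function is rationally equivalent to zero on each closed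
subscheme which contains the cone. -/
theorem cone_ratOn [Finite ι'] (he : Function.Injective e) (hK : ∀ j, e j ∉ K)
    (hw : ∀ j, X.wt (e j) = T.wt j) (P : Pt T N) {g h : Coord ι N} (hg : g ∉ P.I) (hh : h ∉ P.I)
    {d : Fin N → ℕ} (hgd : IsWeightedHomogeneous (T.mdeg N) g d)
    (hhd : IsWeightedHomogeneous (T.mdeg N) h d)
    {c : Cycles T N} (hc : IsDivisor T P g h c) (F : Pt T N → Pt X N)
    (hF : ∀ Q : Pt T N, P.I ≤ Q.I → (F Q).I = coneI e K Q.I)
    (hv : ∀ i : Fin N, ∃ L : Ideal (Coord ι N), L.IsPrime ∧ P.I < L ∧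
      ∀ Q : Ideal (Coord ι N), Q.IsPrime → P.I ≤ Q →
        (∀ j : ι, (MvPolynomial.X (i, j) : Coord ι N) ∈ Q) → L < Q)
    {J : Ideal (Coord ι' N)} (hJ : J ≤ (F P).I) :
    Finsupp.mapDomain F c ∈ RatOn X J := by
  refine ratOn_of_isDivisor (P := F P) (g := ren N e g) (k := ren N e h) (e := d) hJ
    (ren_homogeneous he hw hgd) (ren_homogeneous he hw hhd) ?_ ?_
    (isDivisor_cone he hK hw P hg hh hc F hF hv)
  · rw [hF P le_rfl, ren_mem_coneI_iff he hK]
    exact hg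
  · rw [hF P le_rfl, ren_mem_coneI_iff he hK]
    exact hh

end cone

end Kp

namespace LnData

open Kp

variable (S : LnData) {ι' : Type} [Finite ι'] {X : WVar ι'} {e : Fin 5 → ι'} {K : Set ι'}

/-- the cone over the divisor, as a combination of points -/
theorem cone_U_on (he : Function.Injective e) (hK : ∀ j, e j ∉ K) (hw : ∀ j, X.wt (e j) = 1)
    (F : Pt S.V 2 → Pt X 2) (hF : ∀ Q : Pt S.V 2, S.pU.I ≤ Q.I → (F Q).I = coneI e K Q.I)
    {J : Ideal (Coord ι' 2)} (hJ : J ≤ (F S.pU).I) :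
    (Finsupp.single (F S.pYD) 1 -
      ∑ j, ∑ k, (S.a j * S.a k) • Finsupp.single (F (S.pB (S.pl j) (S.pl k))) 1 +
      (S.m + 2) • ∑ k, S.a k • Finsupp.single (F (S.pB (S.pl k) (S.pl k))) 1
      - Finsupp.single (F (S.pB S.pp S.pY)) 1 - Finsupp.single (F (S.pB S.pY S.pp)) 1 :
      Cycles X 2) ∈ RatOn X J := by
  have h := cone_ratOn he hK hw S.pU S.mn31_pU S.XX_pU (S.mn_hom 3 1) (S.XX_hom 1 1) S.isDivisor_U
    F hF S.vertex_U hJ
  have h1 : Finsupp.mapDomain F S.cycU = (Finsupp.mapDomain.addMonoidHom (M := ℤ) F) S.cycU := rfl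
  rw [h1, cycU] at h
  simp only [map_sub, map_add, map_sum, map_nsmul, Finsupp.mapDomain.addMonoidHom_apply,
    Finsupp.mapDomain_single] at h
  exact h

end LnData

namespace Kp

/-- the product of two hypersurfaces with the same section by `x_o = 0` contains the subschemes of the
square of this section -/
lemma pairIdeal_le {ι : Type} {F F' R : MvPolynomial ι ℂ} {o : ι}
    (h : F' = F + MvPolynomial.X o * R) (Q : Pt (hyp F) 2)
    (hQ : (MvPolynomial.X (1, o) : Coord ι 2) ∈ Q.I) : pairIdeal F F' ≤ Q.I := by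
  have hF : ∀ i, inFactor 2 i F ∈ Q.I := fun i => Q.onX i F (Ideal.subset_span rfl)
  refine Ideal.span_le.2 ?_
  rintro z (rfl | hz)
  · exact hF 0
  · rw [Set.mem_singleton_iff.1 hz, h, map_add, map_mul, inFactor, rename_X]
    exact add_mem (hF 1) (Ideal.mul_mem_right _ _ hQ)

namespace PlData

variable (S : PlData)

open Classical in
/-- the relation on the last level on a closed subscheme -/
theorem ratOn_last {R F' : MvPolynomial S.J ℂ}
    (hF' : F' = S.F + MvPolynomial.X (S.x (2 * S.r + 4)) * R) :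
    (Finsupp.single (S.DD (le_refl S.r)) 1 -
      ∑ j, ∑ k, (S.a j * S.a k) • Finsupp.single (S.LL j k) 1 +
      (S.m + 2) • ∑ k, S.a k • Finsupp.single (S.LL k k) 1
      - Finsupp.single (S.EE (le_refl S.r) 1) 1 - Finsupp.single (S.EE (le_refl S.r) 0) 1 :
      Cycles (hyp S.F) 2) ∈ RatOn (hyp S.F) (pairIdeal S.F F') := by
  have hF : ∃ G : Pt S.toLn.V 2 → Pt (hyp S.F) 2, ∀ Q : Pt S.toLn.V 2, S.toLn.pU.I ≤ Q.I →
      (G Q).I = coneI S.e5 S.K5 Q.I := by
    have h : ∀ Q : Pt S.toLn.V 2, ∃ Q' : Pt (hyp S.F) 2, S.toLn.pU.I ≤ Q.I →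
        Q'.I = coneI S.e5 S.K5 Q.I := by
      intro Q
      by_cases hQ : S.toLn.pU.I ≤ Q.I
      · obtain ⟨Q', hQ'⟩ := exists_conePt (X := hyp S.F) S.e5_inj S.e5_K5 (fun _ => rfl) Q
          (S.onX_cone Q (fun i => hQ (S.toLn.X4_mem_pU i)))
        exact ⟨Q', fun _ => hQ'⟩
      · exact ⟨S.DD (le_refl S.r), fun h => absurd h hQ⟩
    choose G hG using h
    exact ⟨G, hG⟩
  obtain ⟨G, hG⟩ := hF
  have hJ : pairIdeal S.F F' ≤ (G S.toLn.pU).I := by
    refine pairIdeal_le hF' _ ?_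
    rw [hG _ le_rfl]
    have h := ren_mem_coneI (e := S.e5) (K := S.K5) (S.toLn.X4_mem_pU 1)
    rw [ren_X] at h
    have e4 : S.e5 4 = S.x (2 * S.r + 4) := by
      rw [S.eq_x (by omega), S.e5_val]
      rfl
    rwa [e4] at h
  have h := S.toLn.cone_U_on S.e5_inj S.e5_K5 (fun _ => rfl) G hG hJ
  have e1 : G S.toLn.pYD = S.DD (le_refl S.r) :=
    Pt.ext' _ ((hG _ S.toLn.pU_le_pYD).trans S.cone_pYD.symm)
  have e2 : ∀ j k, G (S.toLn.pB (S.toLn.pl j) (S.toLn.pl k)) = S.LL j k := fun j k =>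
    Pt.ext' _ ((hG _ (S.toLn.oul j k).1.1.le).trans (S.cone_LL j k).symm)
  have e3 : G (S.toLn.pB S.toLn.pp S.toLn.pY) = S.EE (le_refl S.r) 1 :=
    Pt.ext' _ ((hG _ S.toLn.oup.1.1.le).trans S.cone_pY.symm)
  have e4 : G (S.toLn.pB S.toLn.pY S.toLn.pp) = S.EE (le_refl S.r) 0 :=
    Pt.ext' _ ((hG _ S.toLn.oup'.1.1.le).trans S.cone_Yp.symm)
  simp only [e1, e2, e3, e4] at h
  exact h

end PlData

end Kp

end Pool.Agent.RCH
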