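import Pool.Agent.RCH.NgAsm
import Pool.Agent.RCH.Nil
import Pool.Agent.RCH.KcFin

/-!
# Products of cycles on two different hypersurfaces and rational equivalence
-/

set_option autoImplicit false

open MvPolynomial

namespace Pool.Agent.RCH

variable {ι : Type} [Finite ι] {X : WVar ι}

namespace Kp

/-- the product with an integral subscheme -/
theorem prod_ratOn {N : ℕ} (Z : Pt X 1) {J : Ideal (Coord ι N)} {J' : Ideal (Coord ι (N + 1))}
    (hJ : ∀ P : Pt X N, J ≤ P.I → J' ≤ (prodPt X P Z).I) {c : Cycles X N} (hc : c ∈ RatOn X J) :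
    Finsupp.mapDomain (fun P => prodPt X P Z) c ∈ RatOn X J' := by
  have h : RatOn X J ≤ (RatOn X J').comap
      (Finsupp.mapDomain.addMonoidHom (M := ℤ) (fun P : Pt X N => prodPt X P Z)) := by
    conv_lhs => rw [RatOn]
    rw [AddSubgroup.closure_le]
    rintro d ⟨P, g, h, e, hJP, hge, hhe, hg, hh, hd⟩
    have hZp := Z.prime
    refine ratOn_of_isDivisor (P := prodPt X P Z) (g := inc ι N g) (k := inc ι N h)
      (e := Fin.snoc (α := fun _ => ℕ) e 0) (hJ P hJP) (inc_homogeneous X hge)
      (inc_homogeneous X hhe) ?_ ?_ (isDivisor_prod X P Z hg hh hd)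
    · intro hmem
      apply hg
      rw [← star_comap_inc P.I Z.I]
      exact hmem
    · intro hmem
      apply hh
      rw [← star_comap_inc P.I Z.I]
      exact hmem
  exact h hc

/-- symmetries and rational equivalence on a closed subscheme -/
theorem ratOn_trN {N : ℕ} (τ : Equiv.Perm (Fin N)) (g : Fin N → MSym X) {J J' : Ideal (Coord ι N)}
    (hJ : ∀ P : Pt X N, J ≤ P.I → J' ≤ (trN τ g P).I) {z : Cycles X N} (hz : z ∈ RatOn X J) :
    Finsupp.mapDomain (trN τ g) z ∈ RatOn X J' := by
  have h : RatOn X J ≤ (RatOn X J').comap (Finsupp.mapDomain.addMonoidHom (trN τ g)) := by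
    conv_lhs => rw [RatOn]
    rw [AddSubgroup.closure_le]
    rintro c ⟨P, a, b, e, hJP, ha, hb, haP, hbP, hc⟩
    rw [SetLike.mem_coe, AddSubgroup.mem_comap]
    refine ratOn_of_isDivisor (P := trN τ g P) (g := (actN τ g).symm a) (k := (actN τ g).symm b)
      (e := e ∘ τ) (hJ P hJP) (actHom_homogeneous τ.symm (invFam τ g) ha)
      (actHom_homogeneous τ.symm (invFam τ g) hb) ?_ ?_ (isDivisor_trN τ g hc)
    · rw [mem_trN, AlgEquiv.apply_symm_apply]
      exact haP
    · rw [mem_trN, AlgEquiv.apply_symm_apply]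
      exact hbP
  exact h hz

/-- the ideal of a hypersurface, in the coordinates of one point -/
noncomputable def oneIdeal (F : MvPolynomial ι ℂ) : Ideal (Coord ι 1) :=
  Ideal.span {inFactor 1 0 F}

omit [Finite ι] in
lemma oneIdeal_le {F : MvPolynomial ι ℂ} {I : Ideal (Coord ι 1)} :
    oneIdeal F ≤ I ↔ inFactor 1 0 F ∈ I := by
  rw [oneIdeal, Ideal.span_singleton_le_iff_mem]

omit [Finite ι] in
lemma pairIdeal_le_iff {F F' : MvPolynomial ι ℂ} {I : Ideal (Coord ι 2)} :
    pairIdeal F F' ≤ I ↔ inFactor 2 0 F ∈ I ∧ inFactor 2 1 F' ∈ I := by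
  rw [pairIdeal, Ideal.span_le]
  constructor
  · intro h
    exact ⟨h (Or.inl rfl), h (Or.inr rfl)⟩
  · rintro ⟨h1, h2⟩ z (rfl | hz)
    · exact h1
    · rw [Set.mem_singleton_iff.1 hz]
      exact h2

lemma pair_le_prodPt {F F' : MvPolynomial ι ℂ} {P Z : Pt X 1} (hP : oneIdeal F ≤ P.I)
    (hZ : oneIdeal F' ≤ Z.I) : pairIdeal F F' ≤ (prodPt X P Z).I := by
  rw [oneIdeal_le] at hP hZ
  rw [pairIdeal_le_iff, prodPt_I]
  constructor
  · have h : inc ι 1 (inFactor 1 0 F) ∈ star P.I Z.I := le_star_left P.I Z.I hP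
    rw [inc_inFactor] at h
    exact h
  · have h : lst ι 1 (inFactor 1 0 F') ∈ star P.I Z.I := le_star_right P.I Z.I hZ
    rw [lst_inFactor] at h
    exact h

/-- the support of the cycle is on the hypersurface `F = 0` -/
def OnHyp (X : WVar ι) (F : MvPolynomial ι ℂ) (D : Cycles X 1) : Prop :=
  ∀ Q ∈ D.support, oneIdeal F ≤ Q.I

/-- the product of two cycles -/
noncomputable def bx (X : WVar ι) (D D' : Cycles X 1) : Cycles X 2 := boxC X ![D, D']

omit [Finite ι] in
lemma bx_eq (D D' : Cycles X 1) : bx X D D' = boxM X 2 ![D, D'] := rfl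

omit [Finite ι] in
lemma bx_add_left (D E D' : Cycles X 1) : bx X (D + E) D' = bx X D D' + bx X E D' := by
  have h := (boxM X 2).map_update_add ![0, D'] 0 D E
  have e : ∀ A : Cycles X 1, Function.update ![0, D'] 0 A = ![A, D'] := fun A => by
    funext i
    fin_cases i <;> rfl
  simp only [e] at h
  exact h

omit [Finite ι] in
lemma bx_add_right (D D' E' : Cycles X 1) : bx X D (D' + E') = bx X D D' + bx X D E' := by
  have h := (boxM X 2).map_update_add ![D, 0] 1 D' E'
  have e : ∀ A : Cycles X 1, Function.update ![D, 0] 1 A = ![D, A] := fun A => by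
    funext i
    fin_cases i <;> rfl
  simp only [e] at h
  exact h

omit [Finite ι] in
lemma bx_smul_left (n : ℤ) (D D' : Cycles X 1) : bx X (n • D) D' = n • bx X D D' := by
  have h := (boxM X 2).map_update_smul ![0, D'] 0 n D
  have e : ∀ A : Cycles X 1, Function.update ![0, D'] 0 A = ![A, D'] := fun A => by
    funext i
    fin_cases i <;> rfl
  simp only [e] at h
  exact h

omit [Finite ι] in
lemma bx_smul_right (n : ℤ) (D D' : Cycles X 1) : bx X D (n • D') = n • bx X D D' := by
  have h := (boxM X 2).map_update_smul ![D, 0] 1 n D'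
  have e : ∀ A : Cycles X 1, Function.update ![D, 0] 1 A = ![D, A] := fun A => by
    funext i
    fin_cases i <;> rfl
  simp only [e] at h
  exact h

lemma bx_single (D : Cycles X 1) (Z : Pt X 1) (n : ℤ) :
    bx X D (Finsupp.single Z n) = n • Finsupp.mapDomain (fun P => prodPt X P Z) D := by
  have h := boxC_snoc_single (X := X) (fun _ : Fin 1 => D) Z n
  have e : Fin.snoc (α := fun _ => Cycles X 1) (fun _ : Fin 1 => D) (Finsupp.single Z n) =
      ![D, Finsupp.single Z n] := by
    funext i
    fin_cases i <;> rfl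
  rw [e, ← extPow_eq_boxC, extPow_one] at h
  exact h

/-- the product of a cycle on the first hypersurface, rationally equivalent to zero, and a cycle on the
second -/
theorem bx_mem_left {F F' : MvPolynomial ι ℂ} {D D' : Cycles X 1} (hD : D ∈ RatOn X (oneIdeal F))
    (hD' : OnHyp X F' D') : bx X D D' ∈ RatOn X (pairIdeal F F') := by
  classical
  have h0 : bx X D 0 = 0 := by
    have h := bx_smul_right (0 : ℤ) D (0 : Cycles X 1)
    rwa [smul_zero, zero_smul] at h
  induction D' using Finsupp.induction with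
  | zero =>
    rw [h0]
    exact zero_mem _
  | single_add Z n f hZ hn ih =>
    rw [bx_add_right, bx_single]
    refine add_mem (AddSubgroup.zsmul_mem _ (prod_ratOn Z (fun P hP => pair_le_prodPt hP ?_) hD) n)
      (ih fun Q hQ => hD' Q ?_)
    · refine hD' Z ?_
      rw [Finsupp.mem_support_iff, Finsupp.add_apply, Finsupp.single_eq_same,
        Finsupp.notMem_support_iff.1 hZ, add_zero]
      exact hn
    · rw [Finsupp.support_add_eq (Finset.disjoint_left.2 fun A hA hA' => hZ (by
        rwa [Finset.mem_singleton.1 (Finsupp.support_single_subset hA)] at hA'))]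
      exact Finset.mem_union_right _ hQ

/-- the exchange of the two factors -/
lemma bx_swap (D D' : Cycles X 1) :
    Finsupp.mapDomain (trN (Equiv.swap 0 1) (fun _ => MSym.one X)) (bx X D' D) = bx X D D' := by
  rw [bx, boxC_perm, bx]
  congr 1
  funext i
  fin_cases i <;> rfl

lemma pair_le_swap {F F' : MvPolynomial ι ℂ} {P : Pt X 2} (h : pairIdeal F' F ≤ P.I) :
    pairIdeal F F' ≤ (trN (Equiv.swap 0 1) (fun _ => MSym.one X) P).I := by
  rw [pairIdeal_le_iff] at h ⊢
  have hact : ∀ f : MvPolynomial ι ℂ, (MSym.one X).act f = f := by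
    intro f
    have h1 : (MSym.one X).act = AlgHom.id ℂ (MvPolynomial ι ℂ) := by
      apply MvPolynomial.algHom_ext
      intro j
      rw [MSym.act_X, AlgHom.id_apply]
      show C (1 : ℂ) * _ = _
      rw [C_1, one_mul]
      rfl
    rw [h1, AlgHom.id_apply]
  constructor
  · rw [mem_trN, actN_apply, actHom_inFactor, hact]
    exact h.2
  · rw [mem_trN, actN_apply, actHom_inFactor, hact]
    exact h.1

/-- the product of a cycle on the first hypersurface and a cycle on the second, rationally equivalent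
to zero -/
theorem bx_mem_right {F F' : MvPolynomial ι ℂ} {D D' : Cycles X 1} (hD : OnHyp X F D)
    (hD' : D' ∈ RatOn X (oneIdeal F')) : bx X D D' ∈ RatOn X (pairIdeal F F') := by
  rw [← bx_swap]
  exact ratOn_trN _ _ (fun P hP => pair_le_swap hP) (bx_mem_left hD' hD)

end Kp

end Pool.Agent.RCH
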