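import Pool.Agent.RCH.KpAPts
import Pool.Agent.RCH.NgDefs
import Pool.Agent.RCH.NgAbs

/-!
# The rings for the fibre product of the projections of two members of a pencil

The two equations are `F` and `F' = F + γ x_om ^ (m + 3)`.
-/

set_option autoImplicit false

open MvPolynomial

namespace Pool.Agent.RCH

namespace Kp

namespace AData

variable {ι : Type} [Fintype ι] [DecidableEq ι] (S : AData ι) (g0 : ℂ)

/-- the equation of the second variety -/
noncomputable def Fg : MvPolynomial ι ℂ := S.F + C g0 * MvPolynomial.X S.om ^ (S.m + 3)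

/-- the form `P' = P + γ x_om ^ (m + 2)` -/
noncomputable def Pg : MvPolynomial ι ℂ := S.P + C g0 * MvPolynomial.X S.om ^ (S.m + 2)

lemma Pg_homog : (S.Pg g0).IsHomogeneous (S.m + 2) := by
  have h := ((isHomogeneous_C ι g0).mul ((isHomogeneous_X ℂ S.om).pow (S.m + 2)))
  rw [zero_add, one_mul] at h
  exact S.hP.add h

lemma Pg_eval : eval (Pi.single S.al 1) (S.Pg g0) ≠ 0 := by
  rw [Pg, map_add, map_mul, map_pow, eval_X, Pi.single_eq_of_ne S.halom.symm,
    zero_pow (by omega), mul_zero, add_zero]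
  exact S.hPc

/-- the data of the second variety -/
noncomputable def shift : AData ι :=
  { S with
    P := S.Pg g0
    hP := S.Pg_homog g0
    hPc := S.Pg_eval g0 }

lemma shift_f0 : (S.shift g0).f0 = S.f0 := rfl

lemma shift_F : (S.shift g0).F = S.Fg g0 := by
  show S.f0 + MvPolynomial.X S.om * S.Pg g0 = S.Fg g0
  rw [Pg, Fg, F]
  ring

lemma Fg_homog : (S.Fg g0).IsHomogeneous (S.m + 3) := by
  rw [← shift_F]
  exact (S.shift g0).F_homog

lemma Fg_ev {L : Type} [CommRing L] (c : ℂ →+* L) (x : ι → L) :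
    eval₂Hom c x (S.Fg g0) = eval₂Hom c x S.F + c g0 * x S.om ^ (S.m + 3) := by
  rw [Fg, map_add, map_mul, map_pow, eval₂Hom_X', eval₂Hom_C]

/-- the second equation over the ring of the first variety, as a polynomial in the coordinate
`al` of the second point -/
noncomputable def polG {L : Type} [CommRing L] (c : ℂ →+* L) (e : ι → L) : Polynomial L :=
  polF c e S.al S.F + Polynomial.C (c g0 * e S.om ^ (S.m + 3))

lemma eval_polG {L : Type} [CommRing L] (c : ℂ →+* L) (e : ι → L) (y : L) :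
    (S.polG g0 c e).eval y = eval₂Hom c (Function.update e S.al y) S.F +
      c g0 * e S.om ^ (S.m + 3) := by
  rw [polG, Polynomial.eval_add, eval_polF, Polynomial.eval_C]

lemma eval_polG' {L : Type} [CommRing L] (c : ℂ →+* L) (e : ι → L) (y : L) :
    (S.polG g0 c e).eval y = eval₂Hom c (Function.update e S.al y) (S.Fg g0) := by
  rw [eval_polG, Fg_ev, Function.update_of_ne S.halom.symm]

lemma map_polG {L L' : Type} [CommRing L] [CommRing L'] (c : ℂ →+* L) (e : ι → L) (f : L →+* L') :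
    (S.polG g0 c e).map f = S.polG g0 (f.comp c) (fun j => f (e j)) := by
  rw [polG, Polynomial.map_add, map_polF, Polynomial.map_C, map_mul, map_pow]
  rfl

/-- the equation of the second point over the ring of the first, made monic -/
noncomputable def Gg : Polynomial S.AX :=
  Polynomial.C S.lcInv * S.polG g0 (algebraMap ℂ S.AX) S.ptA

/-- the ring of the fibre product -/
abbrev RVg : Type := AdjoinRoot (S.Gg g0)

/-- the coordinates of the first point -/
noncomputable def ptVg0 (j : ι) : S.RVg g0 := AdjoinRoot.of _ (S.ptA j)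

/-- the coordinates of the second point -/
noncomputable def ptVg1 : ι → S.RVg g0 :=
  Function.update (S.ptVg0 g0) S.al (AdjoinRoot.root _)

lemma ptVg1_al : S.ptVg1 g0 S.al = AdjoinRoot.root _ := Function.update_self _ _ _

lemma ptVg1_of_ne {j : ι} (hj : j ≠ S.al) : S.ptVg1 g0 j = S.ptVg0 g0 j :=
  Function.update_of_ne hj _ _

lemma of_compg : (AdjoinRoot.of (S.Gg g0)).comp (algebraMap ℂ S.AX) =
    algebraMap ℂ (S.RVg g0) := rfl

lemma F_ptVg0 : eval₂Hom (algebraMap ℂ (S.RVg g0)) (S.ptVg0 g0) S.F = 0 := by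
  have h := map_ev (algebraMap ℂ S.AX) S.ptA (AdjoinRoot.of (S.Gg g0)) S.F
  rw [F_ptA, map_zero, of_compg] at h
  exact h.symm

lemma isUnit_ptVg0_om : IsUnit (S.ptVg0 g0 S.om) := S.isUnit_ptA_om.map (AdjoinRoot.of (S.Gg g0))

lemma eval₂_Gg {L : Type} [CommRing L] (f : S.AX →+* L) (y : L) :
    Polynomial.eval₂ f y (S.Gg g0) = f S.lcInv *
      (S.polG g0 (f.comp (algebraMap ℂ S.AX)) (fun j => f (S.ptA j))).eval y := by
  rw [Gg, Polynomial.eval₂_mul, Polynomial.eval₂_C,
    Polynomial.eval₂_eq_eval_map (p := S.polG g0 _ _), map_polG]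

lemma Fg_ptVg1 : eval₂Hom (algebraMap ℂ (S.RVg g0)) (S.ptVg1 g0) (S.Fg g0) = 0 := by
  have h := AdjoinRoot.eval₂_root (S.Gg g0)
  rw [eval₂_Gg] at h
  have h1 : IsUnit (AdjoinRoot.of (S.Gg g0) S.lcInv) :=
    (Units.isUnit (S.isUnit_lc_mul.unit⁻¹)).map (AdjoinRoot.of (S.Gg g0))
  have h2 := (h1.mul_right_eq_zero).1 h
  rw [eval_polG'] at h2
  exact h2

lemma F_ptVg1 : eval₂Hom (algebraMap ℂ (S.RVg g0)) (S.ptVg1 g0) S.F =
    -(algebraMap ℂ (S.RVg g0) g0 * S.ptVg0 g0 S.om ^ (S.m + 3)) := by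
  have h := S.Fg_ptVg1 g0
  rw [Fg_ev, S.ptVg1_of_ne g0 S.halom.symm] at h
  linear_combination h

/-- points of the fibre product with values in a ring -/
lemma exists_liftVg {L : Type} [CommRing L] (c : ℂ →+* L) (e : ι → L) (h4 : IsUnit (e S.om))
    (h : eval₂Hom c e S.F = 0) (y : L)
    (hy : eval₂Hom c (Function.update e S.al y) (S.Fg g0) = 0) :
    ∃ γ : S.RVg g0 →+* L, (∀ a, γ (algebraMap ℂ (S.RVg g0) a) = c a) ∧
      (∀ j, γ (S.ptVg0 g0 j) = e j) ∧ ∀ j, γ (S.ptVg1 g0 j) = Function.update e S.al y j := by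
  obtain ⟨γ0, hγ1, hγ2⟩ := S.exists_liftX c e h
  have hu : IsUnit (γ0 (S.ptX S.om)) := by rw [hγ2]; exact h4
  let γ1 : S.AX →+* L := IsLocalization.Away.lift (S.ptX S.om) hu
  have h1 : ∀ x, γ1 (algebraMap S.RX S.AX x) = γ0 x := fun x =>
    IsLocalization.Away.lift_eq (S.ptX S.om) hu x
  have h2 : γ1.comp (algebraMap ℂ S.AX) = c := by
    refine RingHom.ext fun a => ?_
    rw [RingHom.comp_apply, algebraMap_AX, h1, hγ1]
  have h3 : (fun j => γ1 (S.ptA j)) = e := by
    funext j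
    rw [ptA, h1, hγ2]
  have h5 : Polynomial.eval₂ γ1 y (S.Gg g0) = 0 := by
    rw [eval₂_Gg, h2, h3, eval_polG', hy, mul_zero]
  have h6 : ∀ j, AdjoinRoot.lift γ1 y h5 (S.ptVg0 g0 j) = e j := by
    intro j
    rw [ptVg0, AdjoinRoot.lift_of]
    exact congrFun h3 j
  refine ⟨AdjoinRoot.lift γ1 y h5, ?_, h6, ?_⟩
  · intro a
    rw [← of_compg, RingHom.comp_apply, AdjoinRoot.lift_of]
    exact congrArg (fun ψ => ψ a) h2
  · intro j
    by_cases hj : j = S.al
    · subst hj
      rw [ptVg1_al, Function.update_self]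
      exact AdjoinRoot.lift_root _
    · rw [S.ptVg1_of_ne g0 hj, Function.update_of_ne hj]
      exact h6 j

end AData

end Kp

end Pool.Agent.RCH
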