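import Pool.Agent.RCH.NgProd
import Pool.Agent.RCH.KcAll

/-!
# Products of cycles supported on the hyperplane sections of two hypersurfaces of a pencil
-/

set_option autoImplicit false

open MvPolynomial

namespace Pool.Agent.RCH

namespace Kp

attribute [local instance] Pt.prime

lemma oneIdeal_le_fg {ι : Type} {F : MvPolynomial ι ℂ} (Q : Pt (hyp F) 1) :
    oneIdeal F ≤ (fg Q).I :=
  oneIdeal_le.2 (Q.onX 0 F (Ideal.subset_span rfl))

/-- rational equivalence on the hypersurface -/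
lemma ratZero_le_ratOn {ι : Type} {F : MvPolynomial ι ℂ} {D : Cycles (hyp F) 1}
    (hD : D ∈ RatZero (hyp F) 1) : fgC F 1 D ∈ RatOn (projSpace ι) (oneIdeal F) := by
  refine fgC_mem ?_
  have h : RatZero (hyp F) 1 ≤ RatOn (hyp F) (oneIdeal F) := by
    refine (AddSubgroup.closure_le _).2 ?_
    rintro c ⟨P, g, k, e, hg, hk, hgP, hkP, hc⟩
    exact ratOn_of_isDivisor (oneIdeal_le_fg P) hg hk hgP hkP hc
  exact h hD

/-- the image of a cycle is on the hypersurface -/
lemma onHyp_fgC {ι : Type} {F : MvPolynomial ι ℂ} (D : Cycles (hyp F) 1) :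
    OnHyp (projSpace ι) F (fgC F 1 D) := by
  classical
  intro Q hQ
  have h := Finsupp.mapDomain_support hQ
  rw [Finset.mem_image] at h
  obtain ⟨Q', -, rfl⟩ := h
  exact oneIdeal_le_fg Q'

section

variable {ι : Type} [Finite ι] {F F' : MvPolynomial ι ℂ}

/-- replacing the factors of a product by rationally equivalent ones -/
theorem bx_congr {D E : Cycles (hyp F) 1} {D' E' : Cycles (hyp F') 1}
    (h : D - E ∈ RatZero (hyp F) 1) (h' : D' - E' ∈ RatZero (hyp F') 1) :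
    bx (projSpace ι) (fgC F 1 D) (fgC F' 1 D') - bx (projSpace ι) (fgC F 1 E) (fgC F' 1 E') ∈
      RatOn (projSpace ι) (pairIdeal F F') := by
  have h1 : bx (projSpace ι) (fgC F 1 (D - E)) (fgC F' 1 D') ∈
      RatOn (projSpace ι) (pairIdeal F F') :=
    bx_mem_left (ratZero_le_ratOn h) (onHyp_fgC D')
  have h2 : bx (projSpace ι) (fgC F 1 E) (fgC F' 1 (D' - E')) ∈
      RatOn (projSpace ι) (pairIdeal F F') :=
    bx_mem_right (onHyp_fgC E) (ratZero_le_ratOn h')
  have e : bx (projSpace ι) (fgC F 1 D) (fgC F' 1 D') -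
      bx (projSpace ι) (fgC F 1 E) (fgC F' 1 E') =
      bx (projSpace ι) (fgC F 1 (D - E)) (fgC F' 1 D') +
        bx (projSpace ι) (fgC F 1 E) (fgC F' 1 (D' - E')) := by
    have e1 : fgC F 1 D = fgC F 1 (D - E) + fgC F 1 E := by
      rw [← map_add, sub_add_cancel]
    have e2 : fgC F' 1 D' = fgC F' 1 (D' - E') + fgC F' 1 E' := by
      rw [← map_add, sub_add_cancel]
    have e3 : bx (projSpace ι) (fgC F 1 D) (fgC F' 1 D') =
        bx (projSpace ι) (fgC F 1 (D - E)) (fgC F' 1 D') +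
          bx (projSpace ι) (fgC F 1 E) (fgC F' 1 D') := by
      conv_lhs => rw [e1]
      rw [bx_add_left]
    have e4 : bx (projSpace ι) (fgC F 1 E) (fgC F' 1 D') =
        bx (projSpace ι) (fgC F 1 E) (fgC F' 1 (D' - E')) +
          bx (projSpace ι) (fgC F 1 E) (fgC F' 1 E') := by
      conv_lhs => rw [e2]
      rw [bx_add_right]
    rw [e3, e4]
    abel
  rw [e]
  exact add_mem h1 h2

end

/-- the exterior square as a product -/
lemma extPow_two {ι : Type} {X : WVar ι} (D : Cycles X 1) : extPow X D 2 = bx X D D := by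
  rw [extPow_eq_boxC, bx]
  congr 1
  funext i
  fin_cases i <;> rfl

/-- two subschemes: all products of two combinations of degree zero -/
theorem two_of_squares {ι : Type} {X : WVar ι} {q : Fin 2 → Pt X 1} {a : Fin 2 → ℕ}
    (ha : ∀ k, 1 ≤ a k) {c : ℕ} (hc : 1 ≤ c) {G : AddSubgroup (Cycles X 2)}
    (h : c • ∑ j, ∑ k ∈ Finset.univ.filter (fun k => j < k), (a j * a k) •
      extPow X (Finsupp.single (q j) 1 - Finsupp.single (q k) 1) 2 ∈ G) (γ δ : Fin 2 → ℤ)
    (hγ : ∑ k, γ k = 0) (hδ : ∑ k, δ k = 0) : ∃ M : ℕ, 1 ≤ M ∧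
      M • bx X (∑ k, Finsupp.single (q k) (γ k)) (∑ k, Finsupp.single (q k) (δ k)) ∈ G := by
  have key : ∀ γ : Fin 2 → ℤ, ∑ k, γ k = 0 → ∑ k, Finsupp.single (q k) (γ k) =
      γ 0 • (Finsupp.single (q 0) 1 - Finsupp.single (q 1) 1 : Cycles X 1) := by
    intro γ hγ
    rw [Fin.sum_univ_two] at hγ ⊢
    have h2 : γ 1 = - γ 0 := by linarith
    rw [h2, smul_sub, Finsupp.smul_single, Finsupp.smul_single, smul_eq_mul, mul_one,
      Finsupp.single_neg, sub_eq_add_neg]
  have e1 : Finset.univ.filter (fun k : Fin 2 => 0 < k) = {1} := by decide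
  have e2 : Finset.univ.filter (fun k : Fin 2 => 1 < k) = ∅ := by decide
  rw [Fin.sum_univ_two, e1, e2, Finset.sum_singleton, Finset.sum_empty, add_zero, smul_smul,
    extPow_two] at h
  refine ⟨c * (a 0 * a 1), ?_, ?_⟩
  · have h1 := ha 0
    have h2 := ha 1
    exact Nat.one_le_iff_ne_zero.2 (by positivity)
  · rw [key γ hγ, key δ hδ, bx_smul_left, bx_smul_right, smul_comm (c * (a 0 * a 1)),
      smul_comm (c * (a 0 * a 1))]
    exact AddSubgroup.zsmul_mem _ (AddSubgroup.zsmul_mem _ h _) _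

/-- the products of the cycles which are, modulo rational equivalence, combinations of degree zero -/
theorem degreeZero_mem {ι : Type} [Finite ι] {F F' : MvPolynomial ι ℂ} {t : ℕ}
    {l : Fin t → Pt (hyp F) 1} {l' : Fin t → Pt (hyp F') 1} {q : Fin t → Pt (projSpace ι) 1}
    (hl : ∀ k, fg (l k) = q k) (hl' : ∀ k, fg (l' k) = q k)
    (hq : ∀ γ δ : Fin t → ℤ, ∑ k, γ k = 0 → ∑ k, δ k = 0 → ∃ M : ℕ, 1 ≤ M ∧
      M • bx (projSpace ι) (∑ k, Finsupp.single (q k) (γ k)) (∑ k, Finsupp.single (q k) (δ k)) ∈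
        RatOn (projSpace ι) (pairIdeal F F'))
    {D : Cycles (hyp F) 1} {D' : Cycles (hyp F') 1} (hD : Kc.DegreeZero (hyp F) l D)
    (hD' : Kc.DegreeZero (hyp F') l' D') : ∃ M : ℕ, 1 ≤ M ∧
      M • bx (projSpace ι) (fgC F 1 D) (fgC F' 1 D') ∈ RatOn (projSpace ι) (pairIdeal F F') := by
  obtain ⟨γ, hγ, h1⟩ := hD
  obtain ⟨δ, hδ, h2⟩ := hD'
  obtain ⟨M, hM, h⟩ := hq γ δ hγ hδ
  refine ⟨M, hM, ?_⟩
  have h3 := bx_congr h1 h2
  have e1 : fgC F 1 (∑ k, Finsupp.single (l k) (γ k)) = ∑ k, Finsupp.single (q k) (γ k) := by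
    rw [map_sum]
    exact Finset.sum_congr rfl fun k _ => by rw [fgC_single, hl]
  have e2 : fgC F' 1 (∑ k, Finsupp.single (l' k) (δ k)) = ∑ k, Finsupp.single (q k) (δ k) := by
    rw [map_sum]
    exact Finset.sum_congr rfl fun k _ => by rw [fgC_single, hl']
  rw [e1, e2] at h3
  have h5 := add_mem (AddSubgroup.nsmul_mem _ h3 M) h
  rwa [← smul_add, sub_add_cancel] at h5

end Kp

end Pool.Agent.RCH
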