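import Pool.Agent.RCH.KpSmooth

/-!
# A pencil of smooth members of the family, for every dimension and every degree
-/

set_option autoImplicit false

open MvPolynomial

namespace Pool.Agent.RCH

namespace Kp

/-- the norms of the coordinates increase, but not too fast -/
lemma smooth_norms_c {p : ℕ} (hp : 1 ≤ p) (M : ℕ) (x : ℕ → ℂ) (w κ : ℂ) (hκ1 : 1 / 3 ≤ ‖κ‖)
    (hκ2 : ‖κ‖ ≤ 4 / 3) (hw : x 0 ^ (p + 1) + (p + 2) * κ * w ^ (p + 1) = 0)
    (h0 : x 1 ^ (p + 1) + (p + 1) * w * x 0 ^ p = 0)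
    (hj : ∀ j, j < M → (p + 1) * x j * x (j + 1) ^ p + x (j + 2) ^ (p + 1) = 0)
    (hx : x 0 ≠ 0) (j : ℕ) (hjM : j ≤ M) :
    0 < ‖x j‖ ∧ ‖x j‖ ≤ ‖x (j + 1)‖ ∧
      ‖x (j + 1)‖ ^ (p + 1) ≤ (p + 1) * ‖x j‖ ^ (p + 1) := by
  have hp' : (1 : ℝ) ≤ p := by exact_mod_cast hp
  have hpp : ((p : ℝ) + 1) ≤ (p + 1) ^ (p + 1) := by
    calc ((p : ℝ) + 1) = (p + 1) ^ 1 := (pow_one _).symm
      _ ≤ (p + 1) ^ (p + 1) := pow_le_pow_right₀ (by linarith) (by omega)
  have hpp2 : ((p : ℝ) + 2) * (4 / 3) ≤ (p + 1) ^ (p + 1) := by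
    calc ((p : ℝ) + 2) * (4 / 3) ≤ (p + 1) ^ 2 := by nlinarith
      _ ≤ (p + 1) ^ (p + 1) := pow_le_pow_right₀ (by linarith) (by omega)
  have hcast : ‖(p : ℂ) + 1‖ = (p : ℝ) + 1 := by
    have : ((p : ℂ) + 1) = ((p + 1 : ℕ) : ℂ) := by push_cast; ring
    rw [this, Complex.norm_natCast]
    push_cast
    ring
  have hcast2 : ‖(p : ℂ) + 2‖ = (p : ℝ) + 2 := by
    have : ((p : ℂ) + 2) = ((p + 2 : ℕ) : ℂ) := by push_cast; ring
    rw [this, Complex.norm_natCast]
    push_cast
    ring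
  induction j with
  | zero =>
    have e1 : ‖x 0‖ ^ (p + 1) = (p + 2) * ‖κ‖ * ‖w‖ ^ (p + 1) := by
      have h1 : x 0 ^ (p + 1) = -((p + 2) * κ * w ^ (p + 1)) := eq_neg_of_add_eq_zero_left hw
      rw [← norm_pow, h1, norm_neg, norm_mul, norm_mul, norm_pow, hcast2]
    have e2 : ‖x 1‖ ^ (p + 1) = (p + 1) * ‖w‖ * ‖x 0‖ ^ p := by
      have h1 : x 1 ^ (p + 1) = -((p + 1) * w * x 0 ^ p) := eq_neg_of_add_eq_zero_left h0
      rw [← norm_pow, h1, norm_neg, norm_mul, norm_mul, norm_pow, hcast]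
    have hpos : 0 < ‖x 0‖ := norm_pos_iff.2 hx
    have hwle : ‖w‖ ≤ ‖x 0‖ := by
      refine le_of_pow_le_pow_left₀ (n := p + 1) (by omega) hpos.le ?_
      rw [e1]
      have h1 : (0 : ℝ) ≤ ‖w‖ ^ (p + 1) := by positivity
      have h2 : (1 : ℝ) ≤ (p + 2) * ‖κ‖ := by nlinarith
      nlinarith
    have hwge : ‖x 0‖ ≤ (p + 1) * ‖w‖ := by
      refine le_of_pow_le_pow_left₀ (n := p + 1) (by omega) (by positivity) ?_
      rw [e1, mul_pow]
      refine mul_le_mul_of_nonneg_right (le_trans ?_ hpp2) (by positivity)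
      exact mul_le_mul_of_nonneg_left hκ2 (by positivity)
    refine ⟨hpos, ?_, ?_⟩
    · refine le_of_pow_le_pow_left₀ (n := p + 1) (by omega) (norm_nonneg _) ?_
      rw [zero_add, e2, pow_succ, mul_comm (‖x 0‖ ^ p)]
      exact mul_le_mul_of_nonneg_right hwge (by positivity)
    · rw [zero_add, e2, pow_succ, mul_assoc]
      refine mul_le_mul_of_nonneg_left ?_ (by positivity)
      rw [mul_comm]
      exact mul_le_mul_of_nonneg_left hwle (by positivity)
  | succ j ih =>
    obtain ⟨i1, i2, i3⟩ := ih (by omega)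
    have hpos : 0 < ‖x (j + 1)‖ := lt_of_lt_of_le i1 i2
    have e2 : ‖x (j + 1 + 1)‖ ^ (p + 1) = (p + 1) * ‖x j‖ * ‖x (j + 1)‖ ^ p := by
      have h1 : x (j + 2) ^ (p + 1) = -((p + 1) * x j * x (j + 1) ^ p) :=
        eq_neg_of_add_eq_zero_right (hj j (by omega))
      rw [← norm_pow, h1, norm_neg, norm_mul, norm_mul, norm_pow, hcast]
    have hge : ‖x (j + 1)‖ ≤ (p + 1) * ‖x j‖ := by
      refine le_of_pow_le_pow_left₀ (n := p + 1) (by omega) (by positivity) (i3.trans ?_)
      rw [mul_pow]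
      exact mul_le_mul_of_nonneg_right hpp (by positivity)
    refine ⟨hpos, ?_, ?_⟩
    · refine le_of_pow_le_pow_left₀ (n := p + 1) (by omega) (norm_nonneg _) ?_
      rw [e2, pow_succ, mul_comm (‖x (j + 1)‖ ^ p)]
      exact mul_le_mul_of_nonneg_right hge (by positivity)
    · rw [e2, pow_succ, mul_assoc]
      refine mul_le_mul_of_nonneg_left ?_ (by positivity)
      rw [mul_comm]
      exact mul_le_mul_of_nonneg_left i2 (by positivity)

/-- The partial derivatives of
`∑_{j ≤ M} x_j x_{j+1} ^ n + (x_{M+2} - x_{M+1}) (x_{M+2} + x_{M+1}) ^ n + w (x_0 ^ n + κ w ^ n)`,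
`n = p + 1`, vanish together only at zero. -/
theorem smooth_core_c {p : ℕ} (hp : 1 ≤ p) (M : ℕ) (x : ℕ → ℂ) (w κ : ℂ) (hκ1 : 1 / 3 ≤ ‖κ‖)
    (hκ2 : ‖κ‖ ≤ 4 / 3) (hw : x 0 ^ (p + 1) + (p + 2) * κ * w ^ (p + 1) = 0)
    (h0 : x 1 ^ (p + 1) + (p + 1) * w * x 0 ^ p = 0)
    (hj : ∀ j, j < M → (p + 1) * x j * x (j + 1) ^ p + x (j + 2) ^ (p + 1) = 0)
    (hu : (p + 1) * x M * x (M + 1) ^ p - (x (M + 2) + x (M + 1)) ^ (p + 1) +
      (p + 1) * (x (M + 2) - x (M + 1)) * (x (M + 2) + x (M + 1)) ^ p = 0)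
    (hv : (x (M + 2) + x (M + 1)) ^ (p + 1) +
      (p + 1) * (x (M + 2) - x (M + 1)) * (x (M + 2) + x (M + 1)) ^ p = 0) :
    (∀ j, j ≤ M + 2 → x j = 0) ∧ w = 0 := by
  have hcast : ((p : ℂ) + 2) ≠ 0 := by
    have : ((p : ℂ) + 2) = ((p + 2 : ℕ) : ℂ) := by push_cast; ring
    rw [this]
    exact Nat.cast_ne_zero.2 (by omega)
  have hκ0 : κ ≠ 0 := by
    rintro rfl
    rw [norm_zero] at hκ1
    linarith
  by_cases hx : x 0 = 0
  · have hw0 : w = 0 := by
      rw [hx, zero_pow (by omega), zero_add] at hw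
      exact pow_eq_zero_iff (by omega) |>.1 ((mul_eq_zero.1 hw).resolve_left
        (mul_ne_zero hcast hκ0))
    have h1 : x 1 = 0 := by
      rw [hw0, mul_zero, zero_mul, add_zero] at h0
      exact pow_eq_zero_iff (by omega) |>.1 h0
    have hall : ∀ j, j ≤ M + 1 → x j = 0 := by
      intro j
      induction j using Nat.strong_induction_on with
      | _ j ih =>
        intro hjM
        match j, ih, hjM with
        | 0, _, _ => exact hx
        | 1, _, _ => exact h1
        | j + 2, ih, hjM =>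
          have h2 := hj j (by omega)
          rw [ih j (by omega) (by omega), mul_zero, zero_mul, zero_add] at h2
          exact pow_eq_zero_iff (by omega) |>.1 h2
    refine ⟨fun j hjM => ?_, hw0⟩
    rcases Nat.lt_or_ge j (M + 2) with h | h
    · exact hall j (by omega)
    · have hj2 : j = M + 2 := by omega
      subst hj2
      rw [hall (M + 1) le_rfl, add_zero, sub_zero] at hv
      have h3 : ((p : ℂ) + 2) * x (M + 2) ^ (p + 1) = 0 := by
        rw [← hv]
        ring
      exact pow_eq_zero_iff (by omega) |>.1 ((mul_eq_zero.1 h3).resolve_left hcast)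
  · exfalso
    obtain ⟨i1, i2, -⟩ := smooth_norms_c hp M x w κ hκ1 hκ2 hw h0 hj hx M le_rfl
    set u := x (M + 1) with hu'
    set v := x (M + 2) with hv'
    have hupos : 0 < ‖u‖ := lt_of_lt_of_le i1 i2
    have hu0 : u ≠ 0 := norm_pos_iff.1 hupos
    have hM0 : x M ≠ 0 := norm_pos_iff.1 i1
    have hp1 : ((p : ℂ) + 1) ≠ 0 := by exact_mod_cast Nat.succ_ne_zero p
    have hv2 : (v + u) ^ p * ((v + u) + (p + 1) * (v - u)) = 0 := by
      rw [← hv]
      ring
    rcases mul_eq_zero.1 hv2 with h | h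
    · have h1 : v + u = 0 := pow_eq_zero_iff (by omega) |>.1 h
      rw [h1, zero_pow (by omega), zero_pow (by omega), mul_zero, add_zero, sub_zero] at hu
      exact (mul_ne_zero (mul_ne_zero hp1 hM0) (pow_ne_zero _ hu0)) hu
    · have h1 : (v + u) * (p + 2) = 2 * (p + 1) * u := by linear_combination h
      have h2 : (p + 1) * x M * u ^ p = 2 * (v + u) ^ (p + 1) := by
        have h3 : (p + 1) * (v - u) = -(v + u) := by linear_combination h
        rw [h3] at hu
        linear_combination hu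
      -- norms
      have hcast1 : ‖(p : ℂ) + 1‖ = (p : ℝ) + 1 := by
        have : ((p : ℂ) + 1) = ((p + 1 : ℕ) : ℂ) := by push_cast; ring
        rw [this, Complex.norm_natCast]
        push_cast
        ring
      have hcast2 : ‖(p : ℂ) + 2‖ = (p : ℝ) + 2 := by
        have : ((p : ℂ) + 2) = ((p + 2 : ℕ) : ℂ) := by push_cast; ring
        rw [this, Complex.norm_natCast]
        push_cast
        ring
      have n1 : ‖v + u‖ = 2 * (p + 1) / (p + 2) * ‖u‖ := by
        have h4 := congrArg norm h1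
        rw [norm_mul, norm_mul, norm_mul, hcast1, hcast2, Complex.norm_ofNat] at h4
        have h5 : (0 : ℝ) < p + 2 := by positivity
        field_simp
        linarith
      have n2 : ((p : ℝ) + 1) * ‖x M‖ * ‖u‖ ^ p = 2 * ‖v + u‖ ^ (p + 1) := by
        have h4 := congrArg norm h2
        rw [norm_mul, norm_mul, norm_mul, norm_pow, norm_pow, hcast1, Complex.norm_ofNat] at h4
        exact h4
      rw [n1, mul_pow, pow_succ ‖u‖ p] at n2
      have hup : 0 < ‖u‖ ^ p := by positivity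
      have n3 : ((p : ℝ) + 1) * ‖x M‖ = 2 * (2 * (p + 1) / (p + 2)) ^ (p + 1) * ‖u‖ := by
        apply mul_right_cancel₀ hup.ne'
        linear_combination n2
      have n4 := smooth_num (n := p + 1) (by omega)
      push_cast at n4
      have h5 : ((p : ℝ) + 1 + 1) = p + 2 := by ring
      rw [h5] at n4
      have n5 : ((p : ℝ) + 1) * ‖x M‖ ≤ (p + 1) * ‖u‖ :=
        mul_le_mul_of_nonneg_left i2 (by positivity)
      have n6 : ((p : ℝ) + 1) * ‖u‖ < 2 * (2 * (p + 1) / (p + 2)) ^ (p + 1) * ‖u‖ :=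
        mul_lt_mul_of_pos_right n4 hupos
      linarith

/-- the member, written as a chain -/
lemma smooth_planes_c (r n : ℕ) (κ : ℂ) : planesPoly r n ![1, -1] ![1, n]
      (fun i => MvPolynomial.X (cx r (2 * i + 2)) ^ n)
      (MvPolynomial.X (cx r 0) ^ n + C κ * MvPolynomial.X (cx r (2 * r + 4)) ^ n) =
    ∑ j ∈ Finset.range (2 * (r + 1)),
        MvPolynomial.X (cx r j) * MvPolynomial.X (cx r (j + 1)) ^ n +
      (MvPolynomial.X (cx r (2 * r + 3)) - MvPolynomial.X (cx r (2 * r + 2))) *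
        (MvPolynomial.X (cx r (2 * r + 3)) + MvPolynomial.X (cx r (2 * r + 2))) ^ n +
      MvPolynomial.X (cx r (2 * r + 4)) *
        (MvPolynomial.X (cx r 0) ^ n + C κ * MvPolynomial.X (cx r (2 * r + 4)) ^ n) := by
  rw [planesPoly, ← smooth_sum_pairs, Fin.prod_univ_two]
  simp

/-- the derivative of the member -/
lemma smooth_pd_c (r p : ℕ) (κ : ℂ) (v : Fin (2 * r + 5) → ℂ) (l : Fin (2 * r + 5)) :
    eval v (pderiv l (planesPoly r (p + 1) ![1, -1] ![1, p + 1]
      (fun i => MvPolynomial.X (cx r (2 * i + 2)) ^ (p + 1))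
      (MvPolynomial.X (cx r 0) ^ (p + 1) + C κ * MvPolynomial.X (cx r (2 * r + 4)) ^ (p + 1)))) =
    ∑ j ∈ Finset.range (2 * (r + 1)),
        ((if cx r j = l then v (cx r (j + 1)) ^ (p + 1) else 0) +
          (if cx r (j + 1) = l then (p + 1) * v (cx r j) * v (cx r (j + 1)) ^ p else 0)) +
      ((if cx r (2 * r + 3) = l then (v (cx r (2 * r + 3)) + v (cx r (2 * r + 2))) ^ (p + 1) +
          (p + 1) * (v (cx r (2 * r + 3)) - v (cx r (2 * r + 2))) *
            (v (cx r (2 * r + 3)) + v (cx r (2 * r + 2))) ^ p else 0) +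
        (if cx r (2 * r + 2) = l then -(v (cx r (2 * r + 3)) + v (cx r (2 * r + 2))) ^ (p + 1) +
          (p + 1) * (v (cx r (2 * r + 3)) - v (cx r (2 * r + 2))) *
            (v (cx r (2 * r + 3)) + v (cx r (2 * r + 2))) ^ p else 0)) +
      ((if cx r (2 * r + 4) = l then v (cx r 0) ^ (p + 1) +
          (p + 2) * κ * v (cx r (2 * r + 4)) ^ (p + 1) else 0) +
        (if cx r 0 = l then (p + 1) * v (cx r (2 * r + 4)) * v (cx r 0) ^ p else 0)) := by
  have hd : ∀ j : Fin (2 * r + 5), pderiv l (MvPolynomial.X j : MvPolynomial (Fin (2 * r + 5)) ℂ) =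
      if j = l then 1 else 0 := by
    intro j
    rw [pderiv_X, Pi.single_apply]
  rw [smooth_planes_c]
  simp only [map_add, map_sum, map_sub, Derivation.leibniz, Derivation.leibniz_pow, hd,
    smul_eq_mul, map_mul, eval_X, eval_C, pderiv_C, map_pow, apply_ite (eval v), map_one, map_zero, nsmul_eq_mul,
    map_natCast, Nat.add_sub_cancel]
  congr 1
  · congr 1
    · refine Finset.sum_congr rfl fun j _ => ?_
      split_ifs <;> push_cast <;> ring
    · split_ifs <;> push_cast <;> ring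
  · split_ifs <;> push_cast <;> ring

/-- The member is smooth. -/
theorem planesPoly_smooth_c (r n : ℕ) (hn : 2 ≤ n) (κ : ℂ) (hκ1 : 1 / 3 ≤ ‖κ‖)
    (hκ2 : ‖κ‖ ≤ 4 / 3) (v : Fin (2 * r + 5) → ℂ)
    (h : ∀ j, eval v (pderiv j (planesPoly r n ![1, -1] ![1, n]
      (fun i => MvPolynomial.X (cx r (2 * i + 2)) ^ n)
      (MvPolynomial.X (cx r 0) ^ n + C κ * MvPolynomial.X (cx r (2 * r + 4)) ^ n))) = 0) : v = 0 := by
  obtain ⟨p, rfl⟩ : ∃ p, n = p + 1 := ⟨n - 1, by omega⟩
  have h2 := fun j => (smooth_pd_c r p κ v j).symm.trans (h j)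
  have hne : ∀ {j l : ℕ}, j < 2 * r + 5 → l < 2 * r + 5 → (cx r j = cx r l ↔ j = l) := by
    intro j l hj hl
    rw [eq_cx r hl, cx_val r hj]
  -- the two sums
  have hs1 : ∀ l, l < 2 * r + 5 → ∑ j ∈ Finset.range (2 * (r + 1)),
      (if cx r j = cx r l then v (cx r (j + 1)) ^ (p + 1) else 0) =
      if l < 2 * r + 2 then v (cx r (l + 1)) ^ (p + 1) else 0 := by
    intro l hl
    rw [Finset.sum_congr rfl (g := fun j => if l = j then v (cx r (j + 1)) ^ (p + 1) else 0)
      (fun j hj => by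
        rw [Finset.mem_range] at hj
        exact if_congr ((hne (by omega) hl).trans eq_comm) rfl rfl), Finset.sum_ite_eq]
    exact if_congr (by rw [Finset.mem_range]; omega) rfl rfl
  have hs2 : ∀ l, l < 2 * r + 5 → ∑ j ∈ Finset.range (2 * (r + 1)),
      (if cx r (j + 1) = cx r l then (p + 1) * v (cx r j) * v (cx r (j + 1)) ^ p else 0) =
      if 1 ≤ l ∧ l ≤ 2 * r + 2 then (p + 1) * v (cx r (l - 1)) * v (cx r l) ^ p else 0 := by
    intro l hl
    by_cases h1 : 1 ≤ l
    · obtain ⟨l, rfl⟩ : ∃ k, l = k + 1 := ⟨l - 1, by omega⟩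
      rw [Finset.sum_congr rfl (g := fun j => if l = j then
        (p + 1) * v (cx r j) * v (cx r (j + 1)) ^ p else 0)
        (fun j hj => by
          rw [Finset.mem_range] at hj
          exact if_congr ((hne (by omega) hl).trans (by omega)) rfl rfl), Finset.sum_ite_eq,
        Nat.add_sub_cancel]
      exact if_congr (by rw [Finset.mem_range]; omega) rfl rfl
    · rw [if_neg (by omega)]
      refine Finset.sum_eq_zero fun j hj => ?_
      rw [Finset.mem_range] at hj
      exact if_neg (by rw [hne (by omega) hl]; omega)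
  simp only [Finset.sum_add_distrib] at h2
  have h3 : ∀ l, l < 2 * r + 5 →
      ((if l < 2 * r + 2 then v (cx r (l + 1)) ^ (p + 1) else 0) +
        (if 1 ≤ l ∧ l ≤ 2 * r + 2 then (p + 1) * v (cx r (l - 1)) * v (cx r l) ^ p else 0)) +
      ((if 2 * r + 3 = l then (v (cx r (2 * r + 3)) + v (cx r (2 * r + 2))) ^ (p + 1) +
          (p + 1) * (v (cx r (2 * r + 3)) - v (cx r (2 * r + 2))) *
            (v (cx r (2 * r + 3)) + v (cx r (2 * r + 2))) ^ p else 0) +
        (if 2 * r + 2 = l then -(v (cx r (2 * r + 3)) + v (cx r (2 * r + 2))) ^ (p + 1) +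
          (p + 1) * (v (cx r (2 * r + 3)) - v (cx r (2 * r + 2))) *
            (v (cx r (2 * r + 3)) + v (cx r (2 * r + 2))) ^ p else 0)) +
      ((if 2 * r + 4 = l then v (cx r 0) ^ (p + 1) +
          (p + 2) * κ * v (cx r (2 * r + 4)) ^ (p + 1) else 0) +
        (if 0 = l then (p + 1) * v (cx r (2 * r + 4)) * v (cx r 0) ^ p else 0)) = 0 := by
    intro l hl
    have h4 := h2 (cx r l)
    rw [hs1 l hl, hs2 l hl] at h4
    simp only [hne (show 2 * r + 3 < 2 * r + 5 by omega) hl,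
      hne (show 2 * r + 2 < 2 * r + 5 by omega) hl, hne (show 2 * r + 4 < 2 * r + 5 by omega) hl,
      hne (show 0 < 2 * r + 5 by omega) hl] at h4
    exact h4
  obtain ⟨hx, hw⟩ := smooth_core_c (p := p) (by omega) (2 * r + 1) (fun j => v (cx r j))
    (v (cx r (2 * r + 4))) κ hκ1 hκ2
    (by
      have h4 := h3 (2 * r + 4) (by omega)
      rw [if_neg (by omega), if_neg (by omega), if_neg (by omega), if_neg (by omega), if_pos rfl,
        if_neg (by omega)] at h4
      linear_combination h4)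
    (by
      have h4 := h3 0 (by omega)
      rw [if_pos (by omega), if_neg (by omega), if_neg (by omega), if_neg (by omega),
        if_neg (by omega), if_pos rfl] at h4
      linear_combination h4)
    (fun j hj => by
      have h4 := h3 (j + 1) (by omega)
      rw [if_pos (by omega), if_pos (by omega), if_neg (by omega), if_neg (by omega),
        if_neg (by omega), if_neg (by omega), Nat.add_sub_cancel] at h4
      linear_combination h4)
    (by
      have h4 := h3 (2 * r + 2) (by omega)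
      rw [if_neg (by omega), if_pos (by omega), if_neg (by omega), if_pos rfl,
        if_neg (by omega), if_neg (by omega), show 2 * r + 2 - 1 = 2 * r + 1 from by omega] at h4
      show ((p : ℂ) + 1) * v (cx r (2 * r + 1)) * v (cx r (2 * r + 2)) ^ p -
        (v (cx r (2 * r + 3)) + v (cx r (2 * r + 2))) ^ (p + 1) +
        (p + 1) * (v (cx r (2 * r + 3)) - v (cx r (2 * r + 2))) *
          (v (cx r (2 * r + 3)) + v (cx r (2 * r + 2))) ^ p = 0
      linear_combination h4)
    (by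
      have h4 := h3 (2 * r + 3) (by omega)
      rw [if_neg (by omega), if_neg (by omega), if_pos rfl, if_neg (by omega),
        if_neg (by omega), if_neg (by omega)] at h4
      show (v (cx r (2 * r + 3)) + v (cx r (2 * r + 2))) ^ (p + 1) +
        (p + 1) * (v (cx r (2 * r + 3)) - v (cx r (2 * r + 2))) *
          (v (cx r (2 * r + 3)) + v (cx r (2 * r + 2))) ^ p = 0
      linear_combination h4)
  funext j
  rw [← cx_of r j, Pi.zero_apply]
  have hj := j.2
  by_cases h5 : (j : ℕ) ≤ 2 * r + 3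
  · exact hx j (by omega)
  · rw [show (j : ℕ) = 2 * r + 4 from by omega]
    exact hw

end Kp

end Pool.Agent.RCH
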