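import Pool.Agent.RCH.NgDefs
import Pool.Agent.RCH.KpBase

/-!
# From the powers of a hypersurface to the powers of projective space
-/

set_option autoImplicit false

open MvPolynomial

namespace Pool.Agent.RCH

namespace Kp

variable {ι : Type} {N : ℕ}

lemma RatOn_mono (X : WVar ι) {J J' : Ideal (Coord ι N)} (h : J ≤ J') : RatOn X J' ≤ RatOn X J := by
  refine AddSubgroup.closure_mono ?_
  rintro c ⟨P, g, k, e, hP, h1⟩
  exact ⟨P, g, k, e, h.trans hP, h1⟩

/-- a divisor is rationally equivalent to zero on each closed subscheme which contains the integral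
subscheme on which it is defined -/
lemma ratOn_of_isDivisor {X : WVar ι} {J : Ideal (Coord ι N)} {P : Pt X N} {g k : Coord ι N}
    {e : Fin N → ℕ} {c : Cycles X N} (hJ : J ≤ P.I) (hg : IsWeightedHomogeneous (X.mdeg N) g e)
    (hk : IsWeightedHomogeneous (X.mdeg N) k e) (hgP : g ∉ P.I) (hkP : k ∉ P.I)
    (hc : IsDivisor X P g k c) : c ∈ RatOn X J :=
  AddSubgroup.subset_closure ⟨P, g, k, e, hJ, hg, hk, hgP, hkP, hc⟩

/-- an integral subscheme of a power of a hypersurface as a subscheme of a power of projective space -/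
noncomputable def fg {F : MvPolynomial ι ℂ} (Q : Pt (hyp F) N) : Pt (projSpace ι) N where
  I := Q.I
  prime := Q.prime
  homog := Q.homog
  relevant := Q.relevant
  onX := fun i f hf => by
    have h : f ∈ (⊥ : Ideal (MvPolynomial ι ℂ)) := hf
    rw [Ideal.mem_bot] at h
    rw [h, map_zero]
    exact zero_mem _

@[simp] lemma fg_I {F : MvPolynomial ι ℂ} (Q : Pt (hyp F) N) : (fg Q).I = Q.I := rfl

lemma fg_injective (F : MvPolynomial ι ℂ) :
    Function.Injective (fg : Pt (hyp F) N → Pt (projSpace ι) N) := fun P Q h =>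
  Pt.ext' _ (show (fg P).I = (fg Q).I by rw [h])

lemma exists_fg {F : MvPolynomial ι ℂ} (P : Pt (hyp F) N) (Q : Pt (projSpace ι) N)
    (h : P.I ≤ Q.I) : ∃ Q' : Pt (hyp F) N, fg Q' = Q :=
  ⟨⟨Q.I, Q.prime, Q.homog, Q.relevant, fun i f hf => h (P.onX i f hf)⟩, rfl⟩

/-- the divisors are the same -/
theorem isDivisor_fg {F : MvPolynomial ι ℂ} {P : Pt (hyp F) N} {g k : Coord ι N}
    {c : Cycles (hyp F) N} (hc : IsDivisor (hyp F) P g k c) :
    IsDivisor (projSpace ι) (fg P) g k (Finsupp.mapDomain fg c) := by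
  intro Q
  by_cases hex : ∃ Q' : Pt (hyp F) N, fg Q' = Q
  · obtain ⟨Q', rfl⟩ := hex
    rw [Finsupp.mapDomain_apply (fg_injective F), hc Q']
    rfl
  · rw [Finsupp.mapDomain_of_notMem_range _ _ (fun ⟨Q', h⟩ => hex ⟨Q', h⟩), if_neg]
    exact fun h => hex (exists_fg P Q h.1.le)

/-- rational equivalence on a closed subscheme -/
theorem ratOn_fg {F : MvPolynomial ι ℂ} {J : Ideal (Coord ι N)} {c : Cycles (hyp F) N}
    (hc : c ∈ RatOn (hyp F) J) : Finsupp.mapDomain fg c ∈ RatOn (projSpace ι) J := by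
  have h : RatOn (hyp F) J ≤ (RatOn (projSpace ι) J).comap
      (Finsupp.mapDomain.addMonoidHom (M := ℤ) fg) := by
    refine (AddSubgroup.closure_le _).2 ?_
    rintro c ⟨P, g, k, e, hJ, hg, hk, hgP, hkP, hc⟩
    exact ratOn_of_isDivisor (P := fg P) hJ hg hk hgP hkP (isDivisor_fg hc)
  exact h hc

end Kp

end Pool.Agent.RCH
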