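import Pool.Agent.RCH.NgEqDefs
import Pool.Agent.RCH.MnStmt

/-!
# Products of cycles on two weighted hypersurfaces: the notions used in the statement
-/

set_option autoImplicit false

open MvPolynomial

namespace Pool.Agent.RCH.Mn

open Pool.Agent.RCH.Wdc

/-- The weighted projective space with coordinates of weights `wt`. -/
noncomputable def weightedSpace (wt : Fin 5 → ℕ) : WVar (Fin 5) where
  wt := wt
  eqs := ⊥

/-- An integral subscheme of a power of the hypersurface `F = 0` as an integral subscheme of the same
power of the weighted projective space: the ideal is the same. -/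
noncomputable def toSpace {wt : Fin 5 → ℕ} {F : MvPolynomial (Fin 5) ℂ} {N : ℕ}
    (Q : Pt (weightedHypersurface wt F) N) : Pt (weightedSpace wt) N where
  I := Q.I
  prime := Q.prime
  homog := Q.homog
  relevant := Q.relevant
  onX := fun i f hf => by
    have h : f ∈ (⊥ : Ideal (MvPolynomial (Fin 5) ℂ)) := hf
    rw [Ideal.mem_bot] at h
    rw [h, map_zero]
    exact zero_mem _

/-- The product `D × D'` of a cycle on the hypersurface `F = 0` and a cycle on the hypersurface
`F' = 0`, a cycle on the square of the weighted projective space supported on the product of the two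
hypersurfaces. -/
noncomputable def crossProduct {wt : Fin 5 → ℕ} {F F' : MvPolynomial (Fin 5) ℂ}
    (D : Cycles (weightedHypersurface wt F) 1) (D' : Cycles (weightedHypersurface wt F') 1) :
    Cycles (weightedSpace wt) 2 :=
  productCycle (weightedSpace wt) ![D.mapDomain toSpace, D'.mapDomain toSpace]

/-- The cycles rationally equivalent to zero on the product of the hypersurfaces `F = 0` and
`F' = 0`. -/
noncomputable def crossZero (wt : Fin 5 → ℕ) (F F' : MvPolynomial (Fin 5) ℂ) :
    AddSubgroup (Cycles (weightedSpace wt) 2) :=
  RatEqOn (weightedSpace wt) (pairIdeal F F')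

/-- There are multiples `g(C) C` of the curves `C` in `s` of the same positive degree and integers
`c(C) ≥ 1` such that a nonzero multiple of the sum of the products
`c(C) c(C') (g(C) C - g(C') C') × (g(C) f(C) - g(C') f(C'))` over all pairs `(C, C')` of curves in `s`
is rationally equivalent to zero on the product of the hypersurfaces `F = 0` and `F' = 0`. -/
def CrossRelation (wt : Fin 5 → ℕ) (F F' : MvPolynomial (Fin 5) ℂ)
    (s : Finset (Pt (weightedHypersurface wt F) 1))
    (f : Pt (weightedHypersurface wt F) 1 → Pt (weightedHypersurface wt F') 1) : Prop :=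
  ∃ (g c : Pt (weightedHypersurface wt F) 1 → ℕ) (δ : ℝ), 0 < δ ∧
    (∀ C ∈ s, 1 ≤ c C ∧ (g C : ℝ) * curveDegree (weightedHypersurface wt F) C = δ) ∧
    ∃ M : ℕ, 1 ≤ M ∧ M • ∑ C ∈ s, ∑ C' ∈ s, (c C * c C') •
      crossProduct (g C • Finsupp.single C 1 - g C' • Finsupp.single C' 1)
        (g C • Finsupp.single (f C) 1 - g C' • Finsupp.single (f C') 1) ∈ crossZero wt F F'

/-- For all one-cycles `D` on the hypersurface `F = 0` and `D'` on the hypersurface `F' = 0` of degree
zero and supported on the section `x_3 = 0`, a nonzero multiple of `D × D'` is rationally equivalent to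
zero on the product of the two hypersurfaces. -/
def CrossTorsion (wt : Fin 5 → ℕ) (F F' : MvPolynomial (Fin 5) ℂ) : Prop :=
  ∀ (D : Cycles (weightedHypersurface wt F) 1) (D' : Cycles (weightedHypersurface wt F') 1),
    OnSection wt F D → OnSection wt F' D' → degree (weightedHypersurface wt F) D = 0 →
      degree (weightedHypersurface wt F') D' = 0 →
        ∃ M : ℕ, 1 ≤ M ∧ M • crossProduct D D' ∈ crossZero wt F F'

/-- The one-cycles of degree zero on the section `Y` of the hypersurface `F = 0` by `x_3 = 0` are
multiples of one of them, up to nonzero multiples and rational equivalence on `Y`. -/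
def SectionRankAtMostOne (wt : Fin 5 → ℕ) (F : MvPolynomial (Fin 5) ℂ) : Prop :=
  ∃ δ : Cycles (weightedHypersurface wt F) 1, OnSection wt F δ ∧
    degree (weightedHypersurface wt F) δ = 0 ∧
    ∀ D : Cycles (weightedHypersurface wt F) 1, OnSection wt F D →
      degree (weightedHypersurface wt F) D = 0 →
        ∃ M : ℕ, 1 ≤ M ∧ ∃ n : ℤ,
          M • D - n • δ ∈ RatEqOn (weightedHypersurface wt F) (sectionIdeal F)

/-- The conclusion for the hypersurfaces `X : F = 0` and `X' : F' = 0` with the same section `Y`. Let
`s` be the set of the cones over the common zeros of `A` and `B` on `X`, and for `C ∈ s` let `f(C)` be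
the same curve on `X'`. They satisfy the relation `CrossRelation`. If the one-cycles of degree zero on
`Y` have rank at most one up to rational equivalence on `Y`, then `CrossTorsion` holds, and this is so
if `A` and `B` satisfy the criterion `TwoPoints`. -/
def CrossConclusion (wt : Fin 5 → ℕ) (p q r : ℕ) (A B : MvPolynomial (Fin 3) ℂ)
    (F F' : MvPolynomial (Fin 5) ℂ) : Prop :=
  ∃ (s : Finset (Pt (weightedHypersurface wt F) 1))
    (f : Pt (weightedHypersurface wt F) 1 → Pt (weightedHypersurface wt F') 1),
    AllCones p q r A B s ∧ (∀ C ∈ s, (f C).I = C.I) ∧ CrossRelation wt F F' s f ∧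
    (SectionRankAtMostOne wt F → CrossTorsion wt F F') ∧
    (TwoPoints p q r A B → SectionRankAtMostOne wt F)

/-- The member `F + c x_3 ^ m` of the pencil of hypersurfaces. -/
noncomputable def pencil (F : MvPolynomial (Fin 5) ℂ) (m : ℕ) (c : ℂ) : MvPolynomial (Fin 5) ℂ :=
  F + C c * X 3 ^ m

end Pool.Agent.RCH.Mn
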