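import Pool.Agent.RCH.LatI
import Pool.Agent.RCH.NgTr
import Pool.Agent.RCH.Mn1c
import Pool.Agent.RCH.PnDefs

/-!
# The relation lemma, with the closed subscheme on which the relation holds
-/

set_option autoImplicit false

open MvPolynomial DirectSum

namespace Pool.Agent.RCH.Lat

open Pool.Agent.RCH.Dg

attribute [local instance] Pt.prime

section rel

variable {ι : Type} {X : WVar ι} {N : ℕ} {T : Type} [CommRing T] [Algebra ℂ T]
  [Algebra (Coord ι N) T] [IsScalarTower ℂ (Coord ι N) T] (𝒯 : (Fin N → ℤ) → Submodule ℂ T)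
  [GradedAlgebra 𝒯]

/-- the conclusion of the relation lemma -/
def RelOn (X : WVar ι) (H : Ideal (Coord ι N)) (G : Pt X N → Prop) (J : Ideal T) (b b' : T)
    (e : ℕ) : Prop :=
  ∃ c ∈ RatOn X H, (∀ Q : Pt X N, G Q → td (Coord ι N ⧸ Q.I) = e →
    Fin' Q.I b J ∧ Fin' Q.I b' J ∧ c Q = chi Q.I b J - chi Q.I b' J) ∧
    ∀ Q : Pt X N, c Q ≠ 0 →
      J.comap (algebraMap (Coord ι N) T) ≤ Q.I ∧ td (Coord ι N ⧸ Q.I) = e

omit [Algebra ℂ T] [IsScalarTower ℂ (Coord ι N) T] in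
lemma RelOn.of_top {H : Ideal (Coord ι N)} (G : Pt X N → Prop) (b b' : T) (e : ℕ) :
    RelOn X H G (⊤ : Ideal T) b b' e := by
  refine ⟨0, zero_mem _, fun Q _ _ => ?_, fun Q hQ => absurd rfl hQ⟩
  have h0 : len Q.I (T ⧸ (⊤ : Ideal T)) ≠ ⊤ := by
    rw [len_zero_of_smul Q.I (1 : Coord ι N)
      (fun h => Q.prime.ne_top ((Ideal.eq_top_iff_one _).mpr h)) (fun m => ?_)]
    · exact ENat.zero_ne_top
    · exact Subsingleton.elim _ _
  obtain ⟨h1, h2⟩ := chi_zero_of_ne_top Q.I b ⊤ h0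
  obtain ⟨h3, h4⟩ := chi_zero_of_ne_top Q.I b' ⊤ h0
  exact ⟨h1, h3, by rw [h2, h4, sub_zero]; rfl⟩

omit [Algebra ℂ T] [IsScalarTower ℂ (Coord ι N) T] in
lemma RelOn.add {H : Ideal (Coord ι N)} {G : Pt X N → Prop} {J : Ideal T} {x : T} {b b' : T} {e : ℕ}
    (h1 : RelOn X H G (colX J x) b b' e)
    (h2 : RelOn X H G (J ⊔ Ideal.span {x}) b b' e) : RelOn X H G J b b' e := by
  obtain ⟨c, hc, h1, k1⟩ := h1
  obtain ⟨c', hc', h2, k2⟩ := h2
  refine ⟨c + c', add_mem hc hc', fun Q hG hQ => ?_, fun Q hQ => ?_⟩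
  · obtain ⟨a1, a2, a3⟩ := h1 Q hG hQ
    obtain ⟨b1, b2, b3⟩ := h2 Q hG hQ
    refine ⟨fin_add Q.I a1 b1, fin_add Q.I a2 b2, ?_⟩
    rw [Finsupp.add_apply, a3, b3, chi_add Q.I a1 b1, chi_add Q.I a2 b2]
    ring
  · rw [Finsupp.add_apply] at hQ
    by_cases h0 : c Q = 0
    · rw [h0, zero_add] at hQ
      obtain ⟨h3, h4⟩ := k2 Q hQ
      exact ⟨(Ideal.comap_mono le_sup_left).trans h3, h4⟩
    · obtain ⟨h3, h4⟩ := k1 Q h0
      exact ⟨(Ideal.comap_mono (le_colX J x)).trans h3, h4⟩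

variable [Finite ι]
  (hT : ∀ v, algebraMap (Coord ι N) T (MvPolynomial.X v) ∈ 𝒯 (fun i => (X.mdeg N v i : ℤ)))

include hT

/-- the pieces -/
theorem pieceOn {H : Ideal (Coord ι N)} {q : Ideal T} (hq : q.IsPrime) (hqh : q.IsHomogeneous 𝒯)
    {δ : Fin N → ℤ} {b b' : T} (hb : b ∈ 𝒯 δ) (hb' : b' ∈ 𝒯 δ) {e : ℕ} {G : Pt X N → Prop}
    (h : Rel X 𝒯 G q b b' e) (hH : H ≤ q.comap (algebraMap (Coord ι N) T)) :
    RelOn X H G q b b' e := by
  classical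
  -- the case of a piece which is zero at `Q`
  have hzero : ∀ (Q : Pt X N), ¬ q.comap (algebraMap (Coord ι N) T) ≤ Q.I →
      Fin' Q.I b q ∧ Fin' Q.I b' q ∧ 0 = chi Q.I b q - chi Q.I b' q := by
    intro Q hQ
    obtain ⟨s, hs, hsQ⟩ := SetLike.not_le_iff_exists.mp hQ
    have h0 : len Q.I (T ⧸ q) ≠ ⊤ := by
      rw [len_zero_of_smul Q.I s hsQ (fun m => ?_)]
      · exact ENat.zero_ne_top
      · obtain ⟨m, rfl⟩ := Ideal.Quotient.mk_surjective m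
        rw [Algebra.smul_def]
        have h1 : algebraMap (Coord ι N) (T ⧸ q) s =
            Ideal.Quotient.mk q (algebraMap (Coord ι N) T s) := rfl
        rw [h1, ← map_mul, Ideal.Quotient.eq_zero_iff_mem]
        exact q.mul_mem_right _ hs
    obtain ⟨h1, h2⟩ := chi_zero_of_ne_top Q.I b q h0
    obtain ⟨h3, h4⟩ := chi_zero_of_ne_top Q.I b' q h0
    exact ⟨h1, h3, by rw [h2, h4, sub_zero]⟩
  by_cases hrel : ∀ i : Fin N, ∃ j : ι, (MvPolynomial.X (i, j) : Coord ι N) ∉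
      q.comap (algebraMap (Coord ι N) T)
  swap
  · push Not at hrel
    obtain ⟨i, hi⟩ := hrel
    refine ⟨0, zero_mem _, fun Q _ _ => ?_, fun Q hQ => absurd rfl hQ⟩
    refine hzero Q (fun hle => ?_)
    obtain ⟨j, hj⟩ := Q.relevant i
    exact hj (hle (hi j))
  obtain ⟨hd1, hd2⟩ := h.dim q hq hqh le_rfl hrel
  set P : Pt X N := below 𝒯 hT hq hqh hrel h.eqs with hP
  have hPI : P.I = q.comap (algebraMap (Coord ι N) T) := rfl
  rw [← hPI] at hd1 hd2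
  by_cases hd : td (Coord ι N ⧸ P.I) = e + 1
  · obtain ⟨hbq, hbq'⟩ := hd2 hd
    have := Fintype.ofFinite ι
    obtain ⟨g, g', e', hg, hg', hgP, hgP', hrel1⟩ := rel1_fin X 𝒯 hT q hqh hb hb' hbq hbq' P rfl
    obtain ⟨c, hc⟩ := exists_isDivisor X P hgP hgP'
    refine ⟨c, Kp.ratOn_of_isDivisor (P := P) hH hg hg' hgP hgP' hc,
      fun Q hG hQ => ?_, fun Q hQ => ?_⟩
    · by_cases hPQ : P.I ≤ Q.I
      · have hlt : P.I < Q.I := by
          refine lt_of_le_of_ne hPQ (fun h0 => ?_)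
          rw [h0, hQ] at hd
          omega
        have hco : CodimOne P.I Q.I := by
          refine ⟨hlt, fun L hL hPL hLQ => ?_⟩
          by_contra hne
          have h1 := td_lt_of_lt (lt_of_le_of_ne hPL (Ne.symm hne))
          have h2 := td_lt_of_lt hLQ
          omega
        obtain ⟨k1, k2, k3⟩ := hrel1 Q hco (h.fin Q hG)
        have hl1 : ∀ t, b * t ∈ q → t ∈ q := fun t ht => (hq.mem_or_mem ht).resolve_left hbq
        have hl2 : ∀ t, b' * t ∈ q → t ∈ q := fun t ht => (hq.mem_or_mem ht).resolve_left hbq'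
        refine ⟨⟨?_, ?_⟩, ⟨?_, ?_⟩, ?_⟩
        · rwa [lc_eq]
        · rw [lk_eq_zero _ _ _ hl1]
          exact ENat.zero_ne_top
        · rwa [lc_eq]
        · rw [lk_eq_zero _ _ _ hl2]
          exact ENat.zero_ne_top
        · rw [hc Q, if_pos hco, chi, chi, lk_eq_zero _ _ _ hl1, lk_eq_zero _ _ _ hl2, lc_eq, lc_eq,
            ← k3]
          simp
      · have h1 := hc Q
        rw [if_neg (fun h0 : CodimOne P.I Q.I => hPQ h0.1.le)] at h1
        rw [h1]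
        exact hzero Q hPQ
    · rw [hc Q] at hQ
      have hco : CodimOne P.I Q.I := by
        by_contra h0
        rw [if_neg h0] at hQ
        exact hQ rfl
      have h1 := td_succ hco.1 (fun L hL hPL hLQ => hPL.ne (hco.2 L hL hPL.le hLQ).symm)
      exact ⟨hco.1.le, by omega⟩
  · refine ⟨0, zero_mem _, fun Q hG hQ => ?_, fun Q hQ => absurd rfl hQ⟩
    by_cases hPQ : P.I ≤ Q.I
    · have heq : P.I = Q.I := by
        by_contra hne
        have h1 := td_lt_of_lt (lt_of_le_of_ne hPQ hne)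
        omega
      have h0 : len Q.I (T ⧸ q) ≠ ⊤ := by
        refine len_ne_top_of_smul Q.I (h.fin Q hG) (fun r hr m => ?_)
        obtain ⟨m, rfl⟩ := Ideal.Quotient.mk_surjective m
        rw [Algebra.smul_def]
        have h1 : algebraMap (Coord ι N) (T ⧸ q) r =
            Ideal.Quotient.mk q (algebraMap (Coord ι N) T r) := rfl
        rw [h1, ← map_mul, Ideal.Quotient.eq_zero_iff_mem]
        refine q.mul_mem_right _ ?_
        rw [← heq, hPI] at hr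
        exact hr
      obtain ⟨h1, h2⟩ := chi_zero_of_ne_top Q.I b q h0
      obtain ⟨h3, h4⟩ := chi_zero_of_ne_top Q.I b' q h0
      exact ⟨h1, h3, by rw [h2, h4, sub_zero]; rfl⟩
    · exact hzero Q hPQ

/-- THE RELATION LEMMA -/
theorem rel2On [IsNoetherianRing T] {H : Ideal (Coord ι N)} {J : Ideal T}
    (hJ : J.IsHomogeneous 𝒯) {δ : Fin N → ℤ} {b b' : T} (hb : b ∈ 𝒯 δ) (hb' : b' ∈ 𝒯 δ) {e : ℕ}
    {G : Pt X N → Prop} (h : Rel X 𝒯 G J b b' e)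
    (hH : H ≤ J.comap (algebraMap (Coord ι N) T)) : RelOn X H G J b b' e := by
  induction J using IsNoetherian.induction with
  | hgt J ih =>
    by_cases hne : J = ⊤
    · rw [hne]
      exact RelOn.of_top G b b' e
    obtain ⟨x, hx, hxJ, hp, hph⟩ := exists_prime_colX (exists_order N) 𝒯 hJ hne
    refine RelOn.add (x := x) ?_ ?_
    · exact pieceOn 𝒯 hT hp hph hb hb' (h.mono 𝒯 (le_colX J x))
        (hH.trans (Ideal.comap_mono (le_colX J x)))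
    · refine ih (J ⊔ Ideal.span {x}) ?_ ?_ (h.mono 𝒯 le_sup_left)
        (hH.trans (Ideal.comap_mono le_sup_left))
      · refine lt_of_le_of_ne le_sup_left (fun h0 => hxJ ?_)
        rw [h0]
        exact Ideal.mem_sup_right (Ideal.subset_span rfl)
      · exact hJ.sup (Ideal.homogeneous_span 𝒯 _ (fun y hy => by
          rw [Set.mem_singleton_iff.mp hy]
          exact hx))

/-- THE RELATION LEMMA, for nonzerodivisors modulo `J` -/
theorem rel2On_nzd [IsNoetherianRing T] {J : Ideal T} (hJ : J.IsHomogeneous 𝒯) {δ : Fin N → ℤ}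
    {b b' : T} (hb : b ∈ 𝒯 δ) (hb' : b' ∈ 𝒯 δ) {e : ℕ} {G : Pt X N → Prop}
    (h : Rel X 𝒯 G J b b' e) (hn : ∀ t, b * t ∈ J → t ∈ J) (hn' : ∀ t, b' * t ∈ J → t ∈ J) :
    ∃ c ∈ RatOn X (J.comap (algebraMap (Coord ι N) T)),
      (∀ Q : Pt X N, G Q → td (Coord ι N ⧸ Q.I) = e →
        len Q.I (T ⧸ (J ⊔ Ideal.span {b})) ≠ ⊤ ∧
        len Q.I (T ⧸ (J ⊔ Ideal.span {b'})) ≠ ⊤ ∧
        c Q = ((len Q.I (T ⧸ (J ⊔ Ideal.span {b}))).toNat : ℤ) -
          ((len Q.I (T ⧸ (J ⊔ Ideal.span {b'}))).toNat : ℤ)) ∧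
      ∀ Q : Pt X N, c Q ≠ 0 →
        J.comap (algebraMap (Coord ι N) T) ≤ Q.I ∧ td (Coord ι N ⧸ Q.I) = e := by
  obtain ⟨c, hc, h1, h2⟩ := rel2On 𝒯 hT hJ hb hb' h le_rfl
  refine ⟨c, hc, fun Q hG hQ => ?_, h2⟩
  obtain ⟨h2, h3, h4⟩ := h1 Q hG hQ
  rw [← lc_eq, ← lc_eq]
  refine ⟨h2.1, h3.1, ?_⟩
  rw [h4, chi, chi, lk_eq_zero _ _ _ hn, lk_eq_zero _ _ _ hn']
  simp

/-- THE RELATION LEMMA for nonzerodivisors and a module of bounded dimension -/
theorem rel3On [Algebra.FiniteType ℂ T] {J : Ideal T} (hJ : J.IsHomogeneous 𝒯) {δ : Fin N → ℤ}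
    {b b' : T} (hb : b ∈ 𝒯 δ) (hb' : b' ∈ 𝒯 δ) (hn : ∀ t, b * t ∈ J → t ∈ J)
    (hn' : ∀ t, b' * t ∈ J → t ∈ J) {e : ℕ}
    (hlev : ∀ q : Ideal T, q.IsPrime → J ≤ q → td (T ⧸ q) ≤ e + 1)
    (heqs : ∀ (i : Fin N), ∀ f ∈ X.eqs, algebraMap (Coord ι N) T (inFactor N i f) ∈ J)
    {G : Pt X N → Prop} (hfin : ∀ Q : Pt X N, G Q → Module.Finite (Localization.AtPrime Q.I)
      (LocalizedModule Q.I.primeCompl (T ⧸ J))) :
    ∃ c ∈ RatOn X (J.comap (algebraMap (Coord ι N) T)),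
      (∀ Q : Pt X N, G Q → td (Coord ι N ⧸ Q.I) = e →
        len Q.I (T ⧸ (J ⊔ Ideal.span {b})) ≠ ⊤ ∧
        len Q.I (T ⧸ (J ⊔ Ideal.span {b'})) ≠ ⊤ ∧
        c Q = ((len Q.I (T ⧸ (J ⊔ Ideal.span {b}))).toNat : ℤ) -
          ((len Q.I (T ⧸ (J ⊔ Ideal.span {b'}))).toNat : ℤ)) ∧
      ∀ Q : Pt X N, c Q ≠ 0 →
        J.comap (algebraMap (Coord ι N) T) ≤ Q.I ∧ td (Coord ι N ⧸ Q.I) = e := by
  have : IsNoetherianRing T := Algebra.FiniteType.isNoetherianRing ℂ T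
  have key : ∀ {a : T}, (∀ t, a * t ∈ J → t ∈ J) → ∀ q : Ideal T, q.IsPrime → J ≤ q →
      td (Coord ι N ⧸ q.comap (algebraMap (Coord ι N) T)) = e + 1 → a ∉ q := by
    intro a ha q hq hJq htd haq
    obtain ⟨p, hp, hpq⟩ := Ideal.exists_minimalPrimes_le hJq
    have hpp : p.IsPrime := hp.1.1
    have h1 : a ∉ p := notMem_minimal hp ha
    have h2 : p < q := lt_of_le_of_ne hpq (fun h => h1 (h ▸ haq))
    have h3 := td_lt_of_lt h2
    have h4 := hlev p hpp hp.1.2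
    have h5 := td_comap_le (R := Coord ι N) q
    omega
  refine rel2On_nzd 𝒯 hT hJ hb hb' ⟨fun q hq _ hJq _ => ⟨?_, fun h => ⟨?_, ?_⟩⟩, hfin, heqs⟩ hn hn'
  · exact (td_comap_le (R := Coord ι N) q).trans (hlev q hq hJq)
  · exact key hn q hq hJq h
  · exact key hn' q hq hJq h

end rel

end Pool.Agent.RCH.Lat

namespace Pool.Agent.RCH.Mn

open TT

/-- the ideal of the equations of the two points -/
lemma pair_le_ker {wt : Fin 5 → ℕ} {J : Ideal R7} {F F' : MvPolynomial (Fin 5) ℂ} {d : ℕ}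
    (hF' : IsWeightedHomogeneous wt F' d) (ha : aeval al F ∈ J) (hb : aeval be F' ∈ J) :
    pairIdeal F F' ≤ RingHom.ker (phi wt J) := by
  rw [pairIdeal, Ideal.span_le]
  rintro z (rfl | hz)
  · rw [SetLike.mem_coe, mem_ker_phi, phiL_inFactor0]
    exact LC_mem_LI ha
  · rw [Set.mem_singleton_iff.1 hz, SetLike.mem_coe, mem_ker_phi, phiL_inFactor1 wt hF']
    exact Ideal.mul_mem_right _ _ (LC_mem_LI hb)

/-- **Relations on the square of the weighted projective space.** -/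
theorem relW {wt : Fin 5 → ℕ} (hpos : ∀ j, 0 < wt j) {J : Ideal R7} (hJ : Dg.Hom (w7 wt) J)
    {f : Fin 4 → R7}
    (hf : ∀ j : Fin 7, IsIntegral (Algebra.adjoin ℂ (Set.range fun i => Ideal.Quotient.mk J (f i)))
      (Ideal.Quotient.mk J (MvPolynomial.X j))) {b b' : R7} {m : ℕ}
    (hb0 : IsWeightedHomogeneous (w7 wt) b m) (hb0' : IsWeightedHomogeneous (w7 wt) b' m)
    (hb : Nzd J b) (hb' : Nzd J b') :
    ∃ D ∈ RatOn (weightedSpace wt) (RingHom.ker (phi wt J)),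
      (∀ Q : Pt (weightedSpace wt) 2, D Q ≠ 0 → lev Q = 4 ∧ RingHom.ker (phi wt J) ≤ Q.I) ∧
      ∀ Q : Pt (weightedSpace wt) 2, lev Q = 4 → (∃ j : Fin 5, al j - be j ∈ J ∧
        (MvPolynomial.X (0, j) : Coord (Fin 5) 2) ∉ Q.I ∧
        (MvPolynomial.X (1, j) : Coord (Fin 5) 2) ∉ Q.I) →
        (haveI := Q.prime; cl wt (J ⊔ Ideal.span {b}) Q.I ≠ ⊤) ∧
        (haveI := Q.prime; cl wt (J ⊔ Ideal.span {b'}) Q.I ≠ ⊤) ∧
        D Q = clz (J ⊔ Ideal.span {b}) Q - clz (J ⊔ Ideal.span {b'}) Q := by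
  have heqs : ∀ (i : Fin 2), ∀ f ∈ (weightedSpace wt).eqs,
      algebraMap (Coord (Fin 5) 2) (TT (weightedSpace wt)) (inFactor 2 i f) ∈
        KJ (weightedSpace wt) J := by
    intro i f hf
    have h : f ∈ (⊥ : Ideal (MvPolynomial (Fin 5) ℂ)) := hf
    rw [Ideal.mem_bot] at h
    rw [h, map_zero, map_zero]
    exact zero_mem _
  obtain ⟨c, hc, h1, h2⟩ := Lat.rel3On (X := weightedSpace wt) (gr (weightedSpace wt))
    (str_mem_X (weightedSpace wt)) (J := KJ (weightedSpace wt) J)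
    (KJ_homogeneous hJ) (lift_mem hb0) (lift_mem hb0') (KJ_nzd hb) (KJ_nzd hb') (e := 4)
    (fun q hq hJq => td_KJ f hf hq hJq) heqs
    (G := fun Q => ∃ j : Fin 5, al j - be j ∈ J ∧
      (MvPolynomial.X (0, j) : Coord (Fin 5) 2) ∉ Q.I ∧
      (MvPolynomial.X (1, j) : Coord (Fin 5) 2) ∉ Q.I) (fun Q hQ => by
        obtain ⟨j, hj, h0, h1⟩ := hQ
        have := Q.prime
        exact KJ_fin hj hj (hpos j).ne' (hpos j).ne' Q.I h0 h1)
  rw [comap_KJ] at hc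
  refine ⟨c, hc, fun Q hQ => ?_, fun Q hlev hG => ?_⟩
  · obtain ⟨h3, h4⟩ := h2 Q hQ
    rw [comap_KJ] at h3
    exact ⟨h4, h3⟩
  · have := Q.prime
    obtain ⟨h3, h4, h5⟩ := h1 Q hG hlev
    rw [← KJ_sup, ← cl_eq_TT] at h3 h4
    rw [← KJ_sup, ← KJ_sup, ← cl_eq_TT, ← cl_eq_TT] at h5
    exact ⟨h3, h4, h5⟩

end Pool.Agent.RCH.Mn
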