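import Pool.Agent.RCH.PnDefs

/-!
# The members of the pencil
-/

set_option autoImplicit false

open MvPolynomial

namespace Pool.Agent.RCH.Mn

open Pool.Agent.RCH.Wdc (QuasiSmooth)

lemma coeff_pencil {F : MvPolynomial (Fin 5) ℂ} {m : ℕ} (hm : 1 ≤ m) (c : ℂ) (D : ℕ) :
    coeff (Finsupp.single 4 D) (pencil F m c) = coeff (Finsupp.single 4 D) F := by
  have h1 : (Finsupp.single 3 m : Fin 5 →₀ ℕ) ≠ Finsupp.single 4 D := by
    intro h
    have h2 := DFunLike.congr_fun h 3
    rw [Finsupp.single_eq_same, Finsupp.single_eq_of_ne (by decide)] at h2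
    omega
  rw [pencil, coeff_add, coeff_C_mul, coeff_X_pow, if_neg h1, mul_zero, add_zero]

lemma homog_pencil {wt : Fin 5 → ℕ} {F : MvPolynomial (Fin 5) ℂ} {d : ℕ}
    (hF : IsWeightedHomogeneous wt F d) {m : ℕ} (hmw : m * wt 3 = d) (c : ℂ) :
    IsWeightedHomogeneous wt (pencil F m c) d := by
  rw [pencil]
  refine hF.add ?_
  have h1 := (isWeightedHomogeneous_C wt c).mul ((isWeightedHomogeneous_X ℂ wt (3 : Fin 5)).pow m)
  rwa [smul_eq_mul, hmw, zero_add] at h1

lemma pencil_sub_mem (F : MvPolynomial (Fin 5) ℂ) {m : ℕ} (hm : 1 ≤ m) (c : ℂ) :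
    pencil F m c - F ∈ Ideal.span {(X 3 : MvPolynomial (Fin 5) ℂ)} := by
  rw [pencil, add_sub_cancel_left]
  exact Ideal.mul_mem_left _ _ (Ideal.pow_mem_of_mem _ (Ideal.mem_span_singleton_self _) m hm)

/-- The members of the pencil satisfy the hypotheses of `Member`. -/
theorem Member.pencil {N p q w r e D : ℕ} {A B : MvPolynomial (Fin 3) ℂ}
    {F : MvPolynomial (Fin 5) ℂ} (hF : Member N p q w r e D A B F) {m : ℕ} (hm : 1 ≤ m)
    (hmw : m * w = D * r) (c : ℂ) : Member N p q w r e D A B (pencil F m c) where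
  homog := homog_pencil hF.homog hmw c
  monic := by
    rw [coeff_pencil hm]
    exact hF.monic
  shape := by
    have h1 := add_mem (pencil_sub_mem F hm c) hF.shape
    rwa [show Mn.pencil F m c - F + (F - (X 0 ^ e * rename ![1, 2, 4] A + rename ![1, 2, 4] B)) =
      Mn.pencil F m c - (X 0 ^ e * rename ![1, 2, 4] A + rename ![1, 2, 4] B) by ring] at h1
  ne := hF.ne
  cop := hF.cop
  apex := hF.apex

end Pool.Agent.RCH.Mn
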