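import Pool.Agent.RCH.Pn6
import Pool.Agent.RCH.PnMem

/-!
# The relation (E) on the product of two members of a pencil
-/

set_option autoImplicit false

open MvPolynomial

namespace Pool.Agent.RCH.Mn

open Pool.Agent.RCH.Wdc

section general

lemma pencil_zero' (F : MvPolynomial (Fin 5) ℂ) (m : ℕ) : pencil F m 0 = F := by
  rw [pencil, map_zero, zero_mul, add_zero]

lemma aeval_pencil (a : Fin 5 → R7) (F : MvPolynomial (Fin 5) ℂ) (m : ℕ) (g : ℂ) :
    aeval a (pencil F m g) = aeval a F + C g * a 3 ^ m := by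
  rw [pencil, map_add, map_mul, map_pow, aeval_X, algHom_C]
  rfl

/-- the equations in the kernel of `phi` -/
lemma inFactor0_ker {wt : Fin 5 → ℕ} {J : Ideal R7} {f : MvPolynomial (Fin 5) ℂ}
    (h : aeval al f ∈ J) : inFactor 2 0 f ∈ RingHom.ker (phi wt J) := by
  rw [mem_ker_phi, phiL_inFactor0]
  exact LC_mem_LI h

lemma inFactor1_ker {wt : Fin 5 → ℕ} {J : Ideal R7} {f : MvPolynomial (Fin 5) ℂ} {d : ℕ}
    (hf : IsWeightedHomogeneous wt f d) (h : aeval be f ∈ J) :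
    inFactor 2 1 f ∈ RingHom.ker (phi wt J) := by
  rw [mem_ker_phi, phiL_inFactor1 wt hf]
  exact Ideal.mul_mem_right _ _ (LC_mem_LI h)

/-- at a point where an equation with the monomial `y ^ D` vanishes, one of the coordinates different
from `y` is not zero -/
lemma exists_notMem_of_monic {wt : Fin 5 → ℕ} {F : MvPolynomial (Fin 5) ℂ} {d D : ℕ}
    (hpos : ∀ j, 0 < wt j) (hF : IsWeightedHomogeneous wt F d) (hd : D * wt 4 = d)
    (hmon : coeff (Finsupp.single 4 D) F ≠ 0) {X' : WVar (Fin 5)} (Q : Pt X' 2) (a : Fin 2)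
    (h1 : inFactor 2 a F ∈ Q.I) : ∃ i : Fin 5, i ≠ 4 ∧
      (MvPolynomial.X (a, i) : Coord (Fin 5) 2) ∉ Q.I := by
  have := Q.prime
  by_contra hcon
  push Not at hcon
  obtain ⟨j, hj⟩ := Q.relevant a
  have hj4 : j = 4 := by
    by_contra h
    exact hj (hcon j h)
  subst hj4
  have h2 : Ideal.Quotient.mk Q.I (inFactor 2 a F) =
      (toP (0 : Fin 4 → Coord (Fin 5) 2 ⧸ Q.I) F).eval
        (Ideal.Quotient.mk Q.I (MvPolynomial.X (a, 4))) := by
    rw [eval_toP]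
    have h3 : (Ideal.Quotient.mk Q.I).comp
        ((inFactor 2 a : R5 →ₐ[ℂ] Coord (Fin 5) 2) : R5 →+* Coord (Fin 5) 2) =
        ((aeval ![(0 : Fin 4 → Coord (Fin 5) 2 ⧸ Q.I) 0, (0 : Fin 4 → Coord (Fin 5) 2 ⧸ Q.I) 1,
          (0 : Fin 4 → Coord (Fin 5) 2 ⧸ Q.I) 2, (0 : Fin 4 → Coord (Fin 5) 2 ⧸ Q.I) 3,
          Ideal.Quotient.mk Q.I (MvPolynomial.X (a, 4))] : R5 →ₐ[ℂ] Coord (Fin 5) 2 ⧸ Q.I) :
          R5 →+* Coord (Fin 5) 2 ⧸ Q.I) := by
      refine MvPolynomial.ringHom_ext (fun c => ?_) (fun i => ?_)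
      · simp only [RingHom.coe_comp, Function.comp_apply, RingHom.coe_coe, algHom_C]
        rfl
      · have h4 : ((inFactor 2 a : R5 →ₐ[ℂ] Coord (Fin 5) 2) : R5 →+* Coord (Fin 5) 2)
            (MvPolynomial.X i) = MvPolynomial.X (a, i) := rename_X _ _
        rw [RingHom.comp_apply, h4]
        simp only [RingHom.coe_coe, aeval_X]
        fin_cases i
        · exact Ideal.Quotient.eq_zero_iff_mem.mpr (hcon 0 (by decide))
        · exact Ideal.Quotient.eq_zero_iff_mem.mpr (hcon 1 (by decide))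
        · exact Ideal.Quotient.eq_zero_iff_mem.mpr (hcon 2 (by decide))
        · exact Ideal.Quotient.eq_zero_iff_mem.mpr (hcon 3 (by decide))
        · rfl
    exact RingHom.congr_fun h3 F
  rw [Ideal.Quotient.eq_zero_iff_mem.mpr h1, toP_zero hpos hF hd, Polynomial.eval_mul,
    Polynomial.eval_C, Polynomial.eval_pow, Polynomial.eval_X] at h2
  have h3 : algebraMap ℂ (Coord (Fin 5) 2 ⧸ Q.I) (coeff (Finsupp.single 4 D) F) ≠ 0 :=
    (map_ne_zero_iff _ (algebraMap ℂ (Coord (Fin 5) 2 ⧸ Q.I)).injective).mpr hmon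
  have h4 := (mul_eq_zero.mp h2.symm).resolve_left h3
  have h5 := eq_zero_of_pow_eq_zero h4
  exact hj (Ideal.Quotient.eq_zero_iff_mem.mp h5)

end general

namespace MD

variable (S : MD)

/-- the pairs of points with the same `(v, s, t, ω)`, the first on `F = 0` and the second on
`F + g ω ^ m = 0` -/
noncomputable def JE (m : ℕ) (g : ℂ) : Ideal R7 :=
  Ideal.span {X 0 - X 1} ⊔ Ideal.span {S.Fa} ⊔ Ideal.span {aeval be' (pencil S.F m g)}

variable {S}
variable {m : ℕ} {g : ℂ}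

lemma JE_v : (X 0 - X 1 : R7) ∈ S.JE m g :=
  Submodule.mem_sup_left (Submodule.mem_sup_left (Ideal.subset_span rfl))

lemma JE_Fa : S.Fa ∈ S.JE m g :=
  Submodule.mem_sup_left (Submodule.mem_sup_right (Ideal.subset_span rfl))

lemma JE_Fb' : aeval be' (pencil S.F m g) ∈ S.JE m g :=
  Submodule.mem_sup_right (Ideal.subset_span rfl)

lemma sub_be'_mem {J : Ideal R7} (hv : (X 0 - X 1 : R7) ∈ J) (f : R5) :
    aeval be' f ∈ J ↔ aeval be f ∈ J := by
  have h2 : aeval be' f - aeval be f ∈ J := (Ideal.span_singleton_le_iff_mem J).mpr hv (be'_sub f)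
  constructor
  · intro h
    have h3 := J.sub_mem h h2
    rwa [sub_sub_cancel] at h3
  · intro h
    have h3 := J.add_mem h2 h
    rwa [sub_add_cancel] at h3

lemma JE_Fb : aeval be (pencil S.F m g) ∈ S.JE m g := (sub_be'_mem JE_v _).mp JE_Fb'

lemma JE_hom (hmw : m * S.w = S.d) : Dg.Hom (w7 S.wt) (S.JE m g) :=
  Dg.hom_sup (Dg.hom_sup (hom_span1 S.vv_homog) S.Fa_homog)
    (Wd.aeval_homogeneous S.wt (w7 S.wt) be' S.hbe' (homog_pencil S.hFwt hmw g))

lemma integral_JE (hm : 1 ≤ m) (hmw : m * S.w = S.d) (j : Fin 7) :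
    IsIntegral (Algebra.adjoin ℂ (Set.range fun i : Fin 4 =>
      Ideal.Quotient.mk (S.JE m g) ((![X 0, X 2, X 3, X 4] : Fin 4 → R7) i)))
      (Ideal.Quotient.mk (S.JE m g) (X j)) := by
  set J := S.JE m g with hJ
  set B := Algebra.adjoin ℂ (Set.range fun i : Fin 4 =>
      Ideal.Quotient.mk J ((![X 0, X 2, X 3, X 4] : Fin 4 → R7) i)) with hB
  have hm' : ∀ i : Fin 4, Ideal.Quotient.mk J ((![X 0, X 2, X 3, X 4] : Fin 4 → R7) i) ∈ B :=
    fun i => Algebra.subset_adjoin ⟨i, rfl⟩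
  have hi : ∀ x ∈ B, IsIntegral B x := fun x hx => isIntegral_algebraMap (R := B) (x := ⟨x, hx⟩)
  have h0 : Ideal.Quotient.mk J (X 0) ∈ B := hm' 0
  have h2 : Ideal.Quotient.mk J (X 2) ∈ B := hm' 1
  have h3 : Ideal.Quotient.mk J (X 3) ∈ B := hm' 2
  have h4 : Ideal.Quotient.mk J (X 4) ∈ B := hm' 3
  have h1 : Ideal.Quotient.mk J (X 1) ∈ B := by
    rw [← Ideal.Quotient.eq.mpr (JE_v (S := S) (m := m) (g := g))]
    exact h0
  have key : ∀ (y : R7) (f : R5), IsWeightedHomogeneous S.wt f S.d →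
      coeff (Finsupp.single 4 S.D) f ≠ 0 → aeval ![X 0, X 2, X 3, X 4, y] f ∈ J →
      IsIntegral B (Ideal.Quotient.mk J y) := by
    intro y f hf hmon hy
    refine isIntegral_of_monic (A := R7 ⧸ J) (F := f) S.wtpos hf S.hD hmon (B := B)
      (a := ![Ideal.Quotient.mk J (X 0), Ideal.Quotient.mk J (X 2), Ideal.Quotient.mk J (X 3),
        Ideal.Quotient.mk J (X 4)]) ?_ ?_
    · intro i
      fin_cases i
      · exact h0
      · exact h2
      · exact h3
      · exact h4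
    · rw [← Ideal.Quotient.eq_zero_iff_mem, mk_aeval] at hy
      exact hy
  fin_cases j
  · exact hi _ h0
  · exact hi _ h1
  · exact hi _ h2
  · exact hi _ h3
  · exact hi _ h4
  · exact key _ S.F S.hFwt S.monic JE_Fa
  · exact key _ (pencil S.F m g) (homog_pencil S.hFwt hmw g) (by
      rw [coeff_pencil hm]
      exact S.monic) JE_Fb'

/-- the second equation, as a polynomial in `y₁` -/
noncomputable def P2 (S : MD) (m : ℕ) (g : ℂ) : Polynomial R5 :=
  S.P1 + Polynomial.C (C g * X 3 ^ m)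

lemma sec7_P2 : sec7 (S.P2 m g) = aeval be' (pencil S.F m g) := by
  have h3 : al 3 = (X 4 : R7) := rfl
  have h4 : be' 3 = (X 4 : R7) := rfl
  rw [P2, map_add, sec7_P1, sec7_C, aeval_pencil, map_mul, map_pow, aeval_X, algHom_C, h3, h4]
  rfl

lemma eval_P2 : (S.P2 m g).eval (X 4) = pencil S.F m g := by
  rw [P2, Polynomial.eval_add, eval_P1, Polynomial.eval_C, pencil]

lemma map_JE : (S.JE m g).map (pi7 : R7 →+* Polynomial R5) =
    Ideal.span {Polynomial.C S.F} ⊔ Ideal.span {S.P2 m g} := by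
  have h0 : pi7 (X 0 - X 1) = 0 := by simp [pi7]
  have h1 : pi7 S.Fa = Polynomial.C S.F := pi7_al _
  have h2 : pi7 (aeval be' (pencil S.F m g)) = S.P2 m g := by
    rw [← sec7_P2]
    exact pi7_sec7 _
  rw [JE, Ideal.map_sup, Ideal.map_sup, Ideal.map_span, Ideal.map_span, Ideal.map_span,
    Set.image_singleton, Set.image_singleton, Set.image_singleton, RingHom.coe_coe, h0, h1, h2,
    Ideal.span_singleton_eq_bot.mpr rfl, bot_sup_eq]

lemma P2_natDegree_le : (S.P2 m g).natDegree ≤ S.D := by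
  rw [P2, Polynomial.natDegree_add_C]
  exact S.P1_natDegree_le

lemma P2_coeff : (S.P2 m g).coeff S.D = C (coeff (Finsupp.single 4 S.D) S.F) := by
  have h := S.D_pos'
  rw [P2, Polynomial.coeff_add, P1_coeff, Polynomial.coeff_C, if_neg (by omega), add_zero]

lemma nzd_P2 (I : Ideal R5) : Nzd (I.map (Polynomial.C : R5 →+* Polynomial R5)) (S.P2 m g) := by
  refine nzd_map_C I (n := S.D) P2_natDegree_le ?_
  rw [P2_coeff]
  exact S.isUnit_c

lemma not_dvd_pencil (hg : g ≠ 0) : ¬ S.F ∣ pencil S.F m g := by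
  intro h
  have h1 : S.F ∣ C g * X 3 ^ m := by
    rw [pencil] at h
    exact (dvd_add_right dvd_rfl).mp h
  rcases S.F_prime.dvd_or_dvd h1 with h2 | h2
  · have h3 : IsUnit (C g : R5) := (isUnit_iff_ne_zero.mpr hg).map C
    exact S.F_prime.not_isUnit (isUnit_of_dvd_unit h2 h3)
  · exact S.not_dvd_X3 (S.F_prime.dvd_of_dvd_pow h2)

lemma nzd_JE_yy (hg : g ≠ 0) : Nzd (S.JE m g) (X 5 - X 6 : R7) := by
  refine nzd_pi7 JE_v ?_
  have h2 : pi7 (X 5 - X 6) = Polynomial.C (X 4) - Polynomial.X := by simp [pi7]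
  rw [map_JE, h2]
  refine nzd_swap ?_ ?_
  · rw [span_CF]
    exact nzd_yy _
  · refine S.nzd_diag ?_
    rw [eval_P2]
    exact not_dvd_pencil hg

lemma nzd_JE_o : Nzd (S.JE m g) (X 4 : R7) := by
  refine nzd_pi7 JE_v ?_
  rw [map_JE, al3, pi7_al]
  refine nzd_swap ?_ ?_
  · refine nzd_of_prime_elem S.prime_CF ?_
    intro h
    have h1 := (Polynomial.C_dvd_iff_dvd_coeff _ _).mp h 0
    rw [Polynomial.coeff_C_zero] at h1
    exact S.not_dvd_X3 h1
  · have h1 : (Ideal.span {Polynomial.C S.F} ⊔ Ideal.span {Polynomial.C (X 3)} :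
        Ideal (Polynomial R5)) = (Ideal.span {S.F} ⊔ Ideal.span {(X 3 : R5)}).map
        (Polynomial.C : R5 →+* Polynomial R5) := by
      rw [Ideal.map_sup, Ideal.map_span, Ideal.map_span, Set.image_singleton, Set.image_singleton]
    rw [h1]
    exact nzd_P2 _

lemma JE_o (hm : 1 ≤ m) : S.JE m g ⊔ Ideal.span {(X 4 : R7)} = S.JVw := by
  have hpow : ∀ J : Ideal R7, (X 4 : R7) ∈ J → C g * (X 4 : R7) ^ m ∈ J := fun J h =>
    J.mul_mem_left _ (J.pow_mem_of_mem h m hm)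
  have hbe : aeval be' (pencil S.F m g) = aeval be' S.F + C g * (X 4 : R7) ^ m :=
    aeval_pencil be' S.F m g
  rw [JVw, JU]
  apply le_antisymm
  · have hv : (X 0 - X 1 : R7) ∈ Ideal.span {X 4, S.Fa, S.Fb} ⊔ Ideal.span {(X 0 - X 1 : R7)} :=
      Submodule.mem_sup_right (Ideal.subset_span rfl)
    have h4 : (X 4 : R7) ∈ Ideal.span {X 4, S.Fa, S.Fb} ⊔ Ideal.span {(X 0 - X 1 : R7)} :=
      Submodule.mem_sup_left (Ideal.subset_span (Or.inl rfl))
    refine sup_le (sup_le (sup_le le_sup_right ?_) ?_) ?_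
    · rw [Ideal.span_singleton_le_iff_mem]
      exact Submodule.mem_sup_left (Ideal.subset_span (Or.inr (Or.inl rfl)))
    · rw [Ideal.span_singleton_le_iff_mem, hbe]
      exact Ideal.add_mem _ ((sub_be'_mem hv S.F).mpr
        (Submodule.mem_sup_left (Ideal.subset_span (Or.inr (Or.inr rfl))))) (hpow _ h4)
    · rw [Ideal.span_singleton_le_iff_mem]
      exact h4
  · have h4 : (X 4 : R7) ∈ S.JE m g ⊔ Ideal.span {(X 4 : R7)} :=
      Submodule.mem_sup_right (Ideal.subset_span rfl)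
    refine sup_le ?_ (le_sup_of_le_left (le_sup_of_le_left le_sup_left))
    rw [Ideal.span_le]
    rintro x (rfl | rfl | rfl)
    · exact h4
    · exact Submodule.mem_sup_left JE_Fa
    · have h5 : aeval be' (pencil S.F m g) ∈ S.JE m g ⊔ Ideal.span {(X 4 : R7)} :=
        Submodule.mem_sup_left JE_Fb'
      rw [hbe] at h5
      have h6 := Ideal.sub_mem _ h5 (hpow _ h4)
      rw [add_sub_cancel_right] at h6
      exact (sub_be'_mem (Submodule.mem_sup_left JE_v) S.F).mp h6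

lemma JE_yy (hg : g ≠ 0) : S.JE m g ⊔ Ideal.span {(X 5 - X 6 : R7)} =
    S.Jd ⊔ Ideal.span {(X 4 : R7) ^ m} := by
  have hbe : aeval be' (pencil S.F m g) = aeval be' S.F + C g * (X 4 : R7) ^ m :=
    aeval_pencil be' S.F m g
  apply le_antisymm
  · refine sup_le (sup_le (le_sup_of_le_left le_sup_left) ?_) (le_sup_of_le_left le_sup_right)
    rw [Ideal.span_singleton_le_iff_mem, hbe]
    refine Ideal.add_mem _ ?_ (Ideal.mul_mem_left _ _
      (Submodule.mem_sup_right (Ideal.subset_span rfl)))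
    exact Submodule.mem_sup_left (S.be'_mem_of_yy S.Jd_Fa S.Jd_y)
  · refine sup_le (sup_le (le_sup_of_le_left le_sup_left) le_sup_right) ?_
    rw [Ideal.span_singleton_le_iff_mem]
    have h1 : aeval be' S.F ∈ S.JE m g ⊔ Ideal.span {(X 5 - X 6 : R7)} :=
      S.be'_mem_of_yy (Submodule.mem_sup_left JE_Fa)
        (Submodule.mem_sup_right (Ideal.subset_span rfl))
    have h2 : aeval be' (pencil S.F m g) ∈ S.JE m g ⊔ Ideal.span {(X 5 - X 6 : R7)} :=
      Submodule.mem_sup_left JE_Fb'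
    rw [hbe] at h2
    have h3 := Ideal.sub_mem _ h2 h1
    rw [add_sub_cancel_left] at h3
    have h4 := Ideal.mul_mem_left (S.JE m g ⊔ Ideal.span {(X 5 - X 6 : R7)}) (C g⁻¹ : R7) h3
    rwa [← mul_assoc, ← C_mul, inv_mul_cancel₀ hg, C_1, one_mul] at h4

lemma JE_le_JVw (hm : 1 ≤ m) : S.JE m g ≤ S.JVw := by
  rw [← JE_o (g := g) hm]
  exact le_sup_left

lemma JE_le_JD (hm : 1 ≤ m) (hg : g ≠ 0) : S.JE m g ≤ S.JD := by
  rw [← Jd_o]
  refine le_trans (le_trans le_sup_left (JE_yy hg).le) (sup_le_sup_left ?_ _)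
  rw [Ideal.span_singleton_le_iff_mem]
  exact Ideal.pow_mem_of_mem (Ideal.span {(X 4 : R7)}) (Ideal.subset_span rfl) m hm

lemma good_JE (hm : 1 ≤ m) (hmw : m * S.w = S.d) {X' : WVar (Fin 5)} (Q : Pt X' 2)
    (hQ : RingHom.ker (phi S.wt (S.JE m g)) ≤ Q.I) : ∃ j : Fin 5,
    j ≠ 4 ∧ (MvPolynomial.X (0, j) : Coord (Fin 5) 2) ∉ Q.I ∧
    (MvPolynomial.X (1, j) : Coord (Fin 5) 2) ∉ Q.I := by
  obtain ⟨i, hi, hi0⟩ := exists_notMem_of_monic S.wtpos S.hFwt S.hD S.monic Q 0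
    (hQ (inFactor0_ker JE_Fa))
  obtain ⟨k, hk, hk1⟩ := exists_notMem_of_monic S.wtpos (homog_pencil S.hFwt hmw g) S.hD (by
    rw [coeff_pencil hm]
    exact S.monic) Q 1 (hQ (inFactor1_ker (homog_pencil S.hFwt hmw g) JE_Fb))
  exact ⟨i, hi, hi0, Mn.shared S.wtpos (al_be JE_v hi) (al_be JE_v hk) Q.prime hQ hi0 hk1⟩

/-- **(E)** on the product of two different members of the pencil. -/
theorem E_cross_ne (S : MD) {m : ℕ} (hm : 1 ≤ m) (hmw : m * S.w = S.d) {g : ℂ} (hg : g ≠ 0) :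
    S.RelE (pencil S.F m g) := by
  have ho : IsWeightedHomogeneous (w7 S.wt) (X 4 : R7) S.w := isWeightedHomogeneous_X ℂ _ _
  have hb1 : IsWeightedHomogeneous (w7 S.wt) ((X 5 - X 6 : R7) ^ S.w) (S.w * S.r) := by
    have h := S.yy_homog.pow S.w
    rwa [smul_eq_mul] at h
  have hb1' : IsWeightedHomogeneous (w7 S.wt) ((X 4 : R7) ^ S.r) (S.w * S.r) := by
    have h := ho.pow S.r
    rwa [smul_eq_mul, mul_comm] at h
  obtain ⟨D₁, hD₁, hs₁, hv₁⟩ := relW S.wtpos (JE_hom (g := g) hmw) (integral_JE (g := g) hm hmw)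
    hb1 hb1' (nzd_pow (nzd_JE_yy hg) _) (nzd_pow nzd_JE_o _)
  have hle : pairIdeal S.F (pencil S.F m g) ≤ RingHom.ker (phi S.wt (S.JE m g)) :=
    pair_le_ker (homog_pencil S.hFwt hmw g) JE_Fa JE_Fb
  refine ⟨-D₁, neg_mem (Kp.RatOn_mono _ hle hD₁), fun Q => ⟨?_, ?_⟩⟩
  · intro h4
    have h1 : D₁ Q = 0 := by
      by_contra h
      exact h4 (hs₁ Q h).1
    rw [Finsupp.neg_apply, h1, neg_zero]
  · intro h4
    have hQp := Q.prime
    by_cases hQ : RingHom.ker (phi S.wt (S.JE m g)) ≤ Q.I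
    · obtain ⟨j, hj, hj0, hj1⟩ := good_JE hm hmw Q hQ
      obtain ⟨-, -, e1⟩ := hv₁ Q h4 ⟨j, al_be JE_v hj, hj0, hj1⟩
      rw [clz_pow (nzd_JE_yy hg), clz_pow nzd_JE_o, JE_yy hg, JE_o hm,
        clz_pow S.nzd_Jd_o, Jd_o] at e1
      rw [Finsupp.neg_apply, e1]
      have h6 : (S.d : ℤ) = m * S.w := by
        rw [← hmw]
        push_cast
        ring
      rw [h6]
      ring
    · have h1 : D₁ Q = 0 := by
        by_contra h
        exact hQ (hs₁ Q h).2
      have h2 : clz S.JVw Q = 0 := by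
        have h5 : cl (weightedSpace S.wt).wt S.JVw Q.I = 0 :=
          cl_eq_zero Q.I fun h => hQ ((ker_phi_mono (JE_le_JVw hm)).trans h)
        rw [clz, h5]
        rfl
      have h3 : clz S.JD Q = 0 := by
        have h5 : cl (weightedSpace S.wt).wt S.JD Q.I = 0 :=
          cl_eq_zero Q.I fun h => hQ ((ker_phi_mono (JE_le_JD hm hg)).trans h)
        rw [clz, h5]
        rfl
      rw [Finsupp.neg_apply, h1, h2, h3]
      ring

/-- **(E)** on the square of a member of the pencil. -/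
theorem E_self (S : MD) : S.RelE S.F := by
  obtain ⟨E, hE, h⟩ := S.E_rel
  refine ⟨S.sp 2 E, S.sp_mem (ratZero_le_pair hE), fun Q => ?_⟩
  by_cases hQ : ∃ Q' : Pt S.V 2, S.tp Q' = Q
  · obtain ⟨Q', rfl⟩ := hQ
    rw [sp_tp]
    exact h Q'
  · rw [S.sp_eq_zero _ hQ]
    have hker : ¬ RingHom.ker (phi S.wt S.JU) ≤ Q.I := fun h2 =>
      hQ (S.exists_tp fun i => S.F_mem_of_ker h2 i)
    refine ⟨fun _ => rfl, fun _ => ?_⟩
    rw [S.clzW_zero (J := S.JVw) le_sup_left hker, S.clzW_zero S.JU_le_JD hker]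
    ring

/-- **(E)** on the product of the hypersurface and a member of the pencil. -/
theorem E_cross (S : MD) {m : ℕ} (hm : 1 ≤ m) (hmw : m * S.w = S.d) (g : ℂ) :
    S.RelE (pencil S.F m g) := by
  by_cases hg : g = 0
  · subst hg
    rw [pencil_zero']
    exact S.E_self
  · exact S.E_cross_ne hm hmw hg

end MD

end Pool.Agent.RCH.Mn
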