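import Pool.Agent.RCH.WtTr
import Pool.Agent.RCH.NgEqDefs

/-!
# Comparison of the two relations of rational equivalence on a closed subscheme
-/

set_option autoImplicit false

open MvPolynomial

namespace Pool.Agent.RCH.Wt

attribute [local instance] MvPolynomial.weightedGradedAlgebra

variable {ι : Type} {X : WVar ι} {N : ℕ} [Fintype ι]

/-- The cycle `scale c` of a cycle rationally equivalent to zero on the subscheme. -/
theorem scale_mem_on (hw : ∀ j, 0 < X.wt j) {J : Ideal (Coord ι N)} {c : Cycles X N}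
    (hc : c ∈ RatOn X J) : scale X N c ∈ RatEqOn X J := by
  classical
  have h0 : RatOn X J ≤ (RatEqOn X J).comap (scale X N) := by
    rw [RatOn, AddSubgroup.closure_le]
    rintro c ⟨P, g, h, e, hJP, hg, hh, hgP, hhP, hdiv⟩
    show scale X N c ∈ RatEqOn X J
    let c' : Cycles X N := Finsupp.onFinset c.support
      (fun Q => c Q / (Nat.card (Cls (gr X N) P.I Q.I) : ℤ)) (fun Q hQ => by
        rw [Finsupp.mem_support_iff]
        intro h
        rw [h, Int.zero_ediv] at hQ
        exact hQ rfl)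
    have hc' : ∀ Q, c' Q = c Q / (Nat.card (Cls (gr X N) P.I Q.I) : ℤ) := fun Q => rfl
    have hval : ∀ Q, CodimOne P.I Q.I → ∀ u v : localRing X P Q, u ≠ 0 → v ≠ 0 →
        frac X P g * v = frac X P h * u → c Q = (Nat.card (Cls (gr X N) P.I Q.I) : ℤ) *
          (((ordIn X u).toNat : ℤ) - ((ordIn X v).toNat : ℤ)) := by
      intro Q hQ u v hu hv huv
      rw [hdiv Q, if_pos hQ]
      exact ordAt_sub hw hQ hgP hhP u v hu hv huv
    have hdiv' : IsDiv X P g h c' := by
      intro Q
      refine ⟨fun hQ => ?_, fun hQ => ?_⟩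
      · obtain ⟨u, v, hu, hv, huv⟩ := exists_uv hw hQ.1.le hg hh hgP hhP
        refine ⟨u, v, hu, hv, huv, ?_⟩
        rw [hc', hval Q hQ u v hu hv huv, Int.mul_ediv_cancel_left]
        exact_mod_cast card_ne_zero hw hQ.1.le
      · rw [hc', hdiv Q, if_neg hQ, Int.zero_ediv]
    have hsc : scale X N c = ((∏ j, X.wt j) ^ N / idx P) • c' := by
      ext Q
      rw [scale, mulFun_apply, Finsupp.smul_apply, hc', nsmul_eq_mul]
      by_cases hQ : CodimOne P.I Q.I
      · obtain ⟨u, v, hu, hv, huv⟩ := exists_uv hw hQ.1.le hg hh hgP hhP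
        rw [hval Q hQ u v hu hv huv]
        obtain ⟨r, hr⟩ := idx_dvd' hw Q
        have hr' : (∏ j, X.wt j) ^ N = idx Q * r := hr
        have hne : (Nat.card (Cls (gr X N) P.I Q.I) : ℤ) ≠ 0 := by
          exact_mod_cast card_ne_zero hw hQ.1.le
        rw [Int.mul_ediv_cancel_left _ hne]
        have e1 : (∏ j, X.wt j) ^ N / idx Q = r := by
          rw [hr', Nat.mul_div_cancel_left _ (Nat.pos_of_ne_zero (idx_ne_zero hw Q))]
        have e2 : (∏ j, X.wt j) ^ N / idx P = Nat.card (Cls (gr X N) P.I Q.I) * r := by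
          rw [hr', ← idx_mul hQ.1.le, mul_right_comm, mul_comm (_ * _) (idx P),
            Nat.mul_div_cancel_left _ (Nat.pos_of_ne_zero (idx_ne_zero hw P))]
        rw [e1, e2]
        push_cast
        ring
      · have h1 := hdiv Q
        rw [if_neg hQ] at h1
        rw [h1, zero_mul, Int.zero_ediv, mul_zero]
    rw [hsc]
    refine AddSubgroup.nsmul_mem _ (AddSubgroup.subset_closure ?_) _
    exact ⟨P, g, h, e, hJP, hg, hh, hgP, hhP, hdiv'⟩
  exact h0 hc

/-- The other direction. -/
theorem unscale_mem_on (hw : ∀ j, 0 < X.wt j) {J : Ideal (Coord ι N)} {c : Cycles X N}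
    (hc : c ∈ RatEqOn X J) : unscale X N c ∈ RatOn X J := by
  classical
  have h0 : RatEqOn X J ≤ (RatOn X J).comap (unscale X N) := by
    rw [RatEqOn, AddSubgroup.closure_le]
    rintro c ⟨P, g, h, e, hJP, hg, hh, hgP, hhP, hdiv⟩
    show unscale X N c ∈ RatOn X J
    set c' : Cycles X N := mulFun (fun Q => (Nat.card (Cls (gr X N) P.I Q.I) : ℤ)) c with hc'
    have hdiv' : IsDivisor X P g h c' := by
      intro Q
      rw [hc', mulFun_apply]
      by_cases hQ : CodimOne P.I Q.I
      · rw [if_pos hQ]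
        obtain ⟨u, v, hu, hv, huv, huc⟩ := (hdiv Q).1 hQ
        rw [huc, mul_comm]
        exact (ordAt_sub hw hQ hgP hhP u v hu hv huv).symm
      · rw [if_neg hQ, (hdiv Q).2 hQ, zero_mul]
    have hsc : unscale X N c = idx P • c' := by
      ext Q
      rw [unscale, mulFun_apply, Finsupp.smul_apply, hc', mulFun_apply, nsmul_eq_mul]
      by_cases hQ : CodimOne P.I Q.I
      · rw [← idx_mul hQ.1.le]
        push_cast
        ring
      · rw [(hdiv Q).2 hQ, zero_mul, zero_mul, mul_zero]
    rw [hsc]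
    refine AddSubgroup.nsmul_mem _ (AddSubgroup.subset_closure ?_) _
    exact ⟨P, g, h, e, hJP, hg, hh, hgP, hhP, hdiv'⟩
  exact h0 hc

end Pool.Agent.RCH.Wt
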