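import Pool.Agent.RCH.Pn5
import Pool.Agent.RCH.PnEq
import Pool.Agent.RCH.MnRk
import Pool.Agent.RCH.MnRank

/-!
# The group of one-cycles of degree zero on the section has rank at most one: rational equivalence on
the section
-/

set_option autoImplicit false

open MvPolynomial

namespace Pool.Agent.RCH.Mn

open Pool.Agent.RCH.Wdc

/-- the elements with a nonzero multiple which is a multiple of `δ`, modulo `H` and torsion -/
def lineOn {A : Type} [AddCommGroup A] (H : AddSubgroup A) (δ : A) : AddSubgroup A where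
  carrier := {z | ∃ a : ℤ, a ≠ 0 ∧ ∃ b : ℤ, a • z - b • δ ∈ torCl H}
  zero_mem' := ⟨1, one_ne_zero, 0, by rw [smul_zero, zero_smul, sub_zero]; exact zero_mem _⟩
  add_mem' := by
    rintro z z' ⟨a, ha, b, h⟩ ⟨a', ha', b', h'⟩
    refine ⟨a * a', mul_ne_zero ha ha', a' * b + a * b', ?_⟩
    have h1 : (a * a') • (z + z') - (a' * b + a * b') • δ =
        a' • (a • z - b • δ) + a • (a' • z' - b' • δ) := by module
    rw [h1]
    exact add_mem (AddSubgroup.zsmul_mem _ h _) (AddSubgroup.zsmul_mem _ h' _)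
  neg_mem' := by
    rintro z ⟨a, ha, b, h⟩
    refine ⟨a, ha, -b, ?_⟩
    have h1 : a • (-z) - (-b) • δ = -(a • z - b • δ) := by module
    rw [h1]
    exact neg_mem h

namespace MD

variable (S : MD)

/-- the cycles with a nonzero multiple rationally equivalent to zero on `Y`, the orders of vanishing
being computed in the local rings -/
lemma ratEqOn_of_torCl {z : Cycles S.V 1} (h : Wt.unscale S.V 1 z ∈ torCl S.RY) :
    ∃ M : ℕ, 1 ≤ M ∧ M • z ∈ RatEqOn S.V S.pY.I := by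
  obtain ⟨M, hM, h1⟩ := h
  have h2 := Wt.scale_mem_on S.wt_pos h1
  rw [map_nsmul, Wt.scale_unscale S.wt_pos, smul_smul] at h2
  exact ⟨_, Nat.mul_pos hM (pow_pos (Finset.prod_pos fun j _ => S.wt_pos j) _), h2⟩

lemma torCl_of_ratEqOn {z : Cycles S.V 1} {M : ℕ} (hM : 1 ≤ M)
    (h : M • z ∈ RatEqOn S.V S.pY.I) : Wt.unscale S.V 1 z ∈ torCl S.RY := by
  refine ⟨M, hM, ?_⟩
  have h1 := Wt.unscale_mem_on S.wt_pos h
  rwa [map_nsmul] at h1

/-- a difference of two curves of which all the others are multiples -/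
lemma exists_pairOn (δ : Cycles S.V 1)
    (hδ : ∀ C ∈ S.dA.support, ∀ C' ∈ S.dA.support, ∃ a : ℕ, 1 ≤ a ∧ ∃ b : ℤ,
      a • (S.eC C - S.eC C') - b • δ ∈ torCl S.RY) :
    ∃ C₁ ∈ S.dA.support, ∃ C₂ ∈ S.dA.support, ∀ C ∈ S.dA.support, ∀ C' ∈ S.dA.support,
      S.eC C - S.eC C' ∈ lineOn S.RY (S.eC C₁ - S.eC C₂) := by
  by_cases h : ∃ C₁ ∈ S.dA.support, ∃ C₂ ∈ S.dA.support, ∃ a : ℕ, 1 ≤ a ∧ ∃ b : ℤ, b ≠ 0 ∧
      a • (S.eC C₁ - S.eC C₂) - b • δ ∈ torCl S.RY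
  · obtain ⟨C₁, h₁, C₂, h₂, a, ha, b, hb, h⟩ := h
    refine ⟨C₁, h₁, C₂, h₂, fun C hC C' hC' => ?_⟩
    obtain ⟨a', ha', b', h'⟩ := hδ C hC C' hC'
    refine ⟨a' * b, mul_ne_zero (by exact_mod_cast (show a' ≠ 0 by omega)) hb, b' * a, ?_⟩
    have h3 : ((a' : ℤ) * b) • (S.eC C - S.eC C') - (b' * (a : ℤ)) • (S.eC C₁ - S.eC C₂) =
        b • (a' • (S.eC C - S.eC C') - b' • δ) - b' • (a • (S.eC C₁ - S.eC C₂) - b • δ) := by
      rw [← natCast_zsmul (S.eC C - S.eC C') a', ← natCast_zsmul (S.eC C₁ - S.eC C₂) a]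
      module
    rw [h3]
    exact sub_mem (AddSubgroup.zsmul_mem _ h' _) (AddSubgroup.zsmul_mem _ h _)
  · push Not at h
    obtain ⟨C₀, h₀⟩ := S.exists_mem_dA
    refine ⟨C₀, h₀, C₀, h₀, fun C hC C' hC' => ?_⟩
    obtain ⟨a, ha, b, h1⟩ := hδ C hC C' hC'
    have hb : b = 0 := by
      by_contra hb
      exact h C hC C' hC' a ha b hb h1
    rw [hb, zero_smul, sub_zero] at h1
    refine ⟨a, by exact_mod_cast (show a ≠ 0 by omega), 0, ?_⟩
    rw [zero_smul, sub_zero, natCast_zsmul]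
    exact h1

/-- rank at most one, on the section -/
lemma exists_deltaOn (h : TwoPoints S.p S.q S.r S.A S.B) : ∃ δ : Cycles S.V 1,
    (∀ Q ∈ δ.support, CodimOne S.pY.I Q.I) ∧ degree S.V δ = 0 ∧
    ∀ D : Cycles S.V 1, (∀ Q ∈ D.support, CodimOne S.pY.I Q.I) → degree S.V D = 0 →
      ∃ M : ℕ, 1 ≤ M ∧ ∃ n : ℤ, M • D - n • δ ∈ RatEqOn S.V S.pY.I := by
  classical
  obtain ⟨δ₀, hδ₀⟩ := S.rank_one_critOn h
  obtain ⟨C₁, h₁, C₂, h₂, hC⟩ := S.exists_pairOn δ₀ hδ₀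
  set W : ℕ := ∏ j, S.V.wt j with hWdef
  have hW : 0 < W := Finset.prod_pos fun j _ => S.wt_pos j
  obtain ⟨hon, hdeg⟩ := S.pair_degree h₁ h₂
  set δ : Cycles S.V 1 := (S.mC C₁ : ℤ) • Finsupp.single C₁ 1 - (S.mC C₂ : ℤ) • Finsupp.single C₂ 1
    with hδdef
  have hun : Wt.unscale S.V 1 δ = (W : ℤ) • (S.eC C₁ - S.eC C₂) := by
    rw [hδdef, map_sub, S.unscale_mC, S.unscale_mC, ← smul_sub]
  refine ⟨δ, hon, hdeg, fun D hD h0 => ?_⟩
  have hU := S.deg_unscale_zero hD h0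
  obtain ⟨M, hM, m, hm, h6⟩ := S.exists_combinationOn (Wt.unscale S.V 1 D)
    (fun Q hQ => hD Q (Wt.support_unscale D hQ)) hU
  have h7 : ∑ C ∈ S.dA.support, m C • S.eC C ∈ lineOn S.RY (S.eC C₁ - S.eC C₂) := by
    have h8 : ∑ C ∈ S.dA.support, m C • S.eC C =
        ∑ C ∈ S.dA.support, m C • (S.eC C - S.eC C₁) := by
      simp only [smul_sub, Finset.sum_sub_distrib]
      rw [← Finset.sum_smul, hm, zero_smul, sub_zero]
    rw [h8]
    exact sum_mem fun C hC' => AddSubgroup.zsmul_mem _ (hC C hC' C₁ h₁) _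
  obtain ⟨a, ha, b, h8⟩ := h7
  -- the relation for the cycle `D`
  have h9 : Wt.unscale S.V 1 (((W : ℤ) * a * M) • D - b • δ) ∈ torCl S.RY := by
    rw [map_sub, map_zsmul, map_zsmul, hun]
    have h10 : ((W : ℤ) * a * M) • Wt.unscale S.V 1 D - b • ((W : ℤ) • (S.eC C₁ - S.eC C₂)) =
        ((W : ℤ) * a) • (M • Wt.unscale S.V 1 D - ∑ C ∈ S.dA.support, m C • S.eC C) +
          (W : ℤ) • (a • ∑ C ∈ S.dA.support, m C • S.eC C - b • (S.eC C₁ - S.eC C₂)) := by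
      module
    rw [h10]
    exact add_mem (AddSubgroup.zsmul_mem _ (le_torCl _ h6) _)
      (AddSubgroup.zsmul_mem _ h8 _)
  obtain ⟨M', hM', h10⟩ := S.ratEqOn_of_torCl h9
  have hc : (W : ℤ) * a * M ≠ 0 := mul_ne_zero (mul_ne_zero (by exact_mod_cast hW.ne') ha) hM
  refine ⟨M' * ((W : ℤ) * a * M).natAbs,
    Nat.mul_pos hM' (Int.natAbs_pos.2 hc), ?_⟩
  rcases Int.natAbs_eq ((W : ℤ) * a * M) with h11 | h11
  · refine ⟨M' * b, ?_⟩
    have h12 : (M' * ((W : ℤ) * a * M).natAbs) • D - ((M' : ℤ) * b) • δ =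
        M' • (((W : ℤ) * a * M) • D - b • δ) := by
      conv_rhs => rw [h11]
      rw [← natCast_zsmul, ← natCast_zsmul]
      push_cast
      module
    rw [h12]
    exact h10
  · refine ⟨-(M' * b), ?_⟩
    have h12 : (M' * ((W : ℤ) * a * M).natAbs) • D - (-((M' : ℤ) * b)) • δ =
        -(M' • (((W : ℤ) * a * M) • D - b • δ)) := by
      conv_rhs => rw [h11]
      rw [← natCast_zsmul, ← natCast_zsmul]
      push_cast
      module
    rw [h12]
    exact neg_mem h10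

/-- **Rank at most one on the section.** -/
theorem sectionRank (h : TwoPoints S.p S.q S.r S.A S.B) : SectionRankAtMostOne S.wt S.F :=
  S.exists_deltaOn h

/-- the multiples of `δ` among the differences of the curves, on the section -/
lemma pair_of_rankOn {δ : Cycles S.V 1}
    (hδ : ∀ D : Cycles S.V 1, (∀ Q ∈ D.support, CodimOne S.pY.I Q.I) → degree S.V D = 0 →
      ∃ M : ℕ, 1 ≤ M ∧ ∃ n : ℤ, M • D - n • δ ∈ RatEqOn S.V S.pY.I) {C C' : Pt S.V 1}
    (hC : C ∈ S.dA.support) (hC' : C' ∈ S.dA.support) : ∃ a : ℕ, 1 ≤ a ∧ ∃ b : ℤ,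
      a • (S.eC C - S.eC C') - b • Wt.unscale S.V 1 δ ∈ torCl S.RY := by
  have hW : 0 < ∏ j, S.V.wt j := Finset.prod_pos fun j _ => S.wt_pos j
  obtain ⟨hon, h0⟩ := S.pair_degree hC hC'
  obtain ⟨M, hM, n, hn⟩ := hδ _ hon h0
  have h1 := S.torCl_of_ratEqOn (M := 1) le_rfl (by rw [one_smul]; exact hn)
  rw [map_sub, map_nsmul, map_zsmul, map_sub, S.unscale_mC, S.unscale_mC, ← smul_sub] at h1
  refine ⟨M * ∏ j, S.V.wt j, Nat.mul_pos hM hW, n, ?_⟩
  have h2 : (M * ∏ j, S.V.wt j) • (S.eC C - S.eC C') =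
      M • ((∏ j, S.V.wt j : ℕ) : ℤ) • (S.eC C - S.eC C') := by
    rw [natCast_zsmul, smul_smul]
  rw [h2]
  exact h1

/-- **If the group of the one-cycles of degree zero on the section has rank at most one, then the
differences of the curves are multiples of one cycle.** -/
theorem delta_of_sectionRank (h : SectionRankAtMostOne S.wt S.F) : ∃ δ : Cycles S.V 1,
    ∀ C ∈ S.dA.support, ∀ C' ∈ S.dA.support, ∃ a : ℕ, 1 ≤ a ∧ ∃ b : ℤ,
      a • (S.eC C - S.eC C') - b • δ ∈ torCl S.RY := by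
  obtain ⟨δ, -, -, hδ⟩ := h
  exact ⟨Wt.unscale S.V 1 δ, fun C hC C' hC' => S.pair_of_rankOn hδ hC hC'⟩

end MD

end Pool.Agent.RCH.Mn
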