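import Pool.Agent.RCH.Pn9
import Pool.Agent.RCH.PnRk
import Pool.Agent.RCH.PnE

/-!
# The conclusion for two members of a pencil
-/

set_option autoImplicit false

open MvPolynomial

namespace Pool.Agent.RCH.Mn

lemma pencil_pencil (F : MvPolynomial (Fin 5) ℂ) (m : ℕ) (c c' : ℂ) :
    pencil (pencil F m c) m (c' - c) = pencil F m c' := by
  simp only [pencil, map_sub]
  ring

/-- **The conclusion for two hypersurfaces with the same section.** -/
theorem MD.crossConclusion (S : MD) {F' : MvPolynomial (Fin 5) ℂ}
    (hF' : IsWeightedHomogeneous S.wt F' S.d)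
    (hs : F' - S.F ∈ Ideal.span {(X 3 : MvPolynomial (Fin 5) ℂ)}) (hE : S.RelE F') :
    CrossConclusion S.wt S.p S.q S.r S.A S.B S.F F' :=
  ⟨S.dA.support, S.other hF' hs, S.allCones, fun _ hC => S.other_I hF' hs hC,
    S.crossRelation hF' hs hE, fun h => S.crossTorsion hF' hs hE (S.delta_of_sectionRank h),
    fun h => S.sectionRank h⟩

/-- **The conclusion for two members of a pencil.** -/
theorem crossConclusion {N p q w r e D k m : ℕ} {A B : MvPolynomial (Fin 3) ℂ}
    {F : MvPolynomial (Fin 5) ℂ} (hW : Weights N p q w r e D k)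
    (hF : Member N p q w r e D A B F) (hmw : m * w = D * r) (c c' : ℂ) :
    CrossConclusion ![N, p, q, w, r] p q r A B (pencil F m c) (pencil F m c') := by
  have hm : 1 ≤ m := by
    have h1 := hW.hD2
    have h2 := hW.hr
    have h3 : 1 ≤ D * r := Nat.mul_pos (by omega) h2
    rcases Nat.eq_zero_or_pos m with h | h
    · rw [h, zero_mul] at hmw
      omega
    · exact h
  have h := (toMD hW (hF.pencil hm hmw c)).crossConclusion
    (homog_pencil (hF.pencil hm hmw c).homog hmw (c' - c)) (pencil_sub_mem _ hm (c' - c))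
    (MD.E_cross _ hm hmw (c' - c))
  rw [pencil_pencil] at h
  exact h

end Pool.Agent.RCH.Mn
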