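import Pool.Agent.RCH.Pn1
import Pool.Agent.RCH.NgProd
import Pool.Agent.RCH.MnAlg

/-!
# From the powers of a weighted hypersurface to the powers of the weighted projective space
-/

set_option autoImplicit false

open MvPolynomial

namespace Pool.Agent.RCH.Mn

section torCl

variable {A : Type} [AddCommGroup A]

/-- the elements with a nonzero multiple in a subgroup -/
def torCl (H : AddSubgroup A) : AddSubgroup A where
  carrier := {x | ∃ k : ℕ, 1 ≤ k ∧ k • x ∈ H}
  add_mem' := by
    rintro x y ⟨k, hk, hx⟩ ⟨l, hl, hy⟩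
    refine ⟨k * l, Nat.mul_pos hk hl, ?_⟩
    have h : (k * l) • (x + y) = l • (k • x) + k • (l • y) := by
      rw [smul_add, mul_comm k l, mul_smul, mul_comm l k, mul_smul]
    rw [h]
    exact add_mem (AddSubgroup.nsmul_mem _ hx _) (AddSubgroup.nsmul_mem _ hy _)
  zero_mem' := ⟨1, le_rfl, by rw [smul_zero]; exact zero_mem _⟩
  neg_mem' := by
    rintro x ⟨k, hk, hx⟩
    refine ⟨k, hk, ?_⟩
    rw [smul_neg]
    exact neg_mem hx

variable {H K : AddSubgroup A}

lemma mem_torCl {x : A} : x ∈ torCl H ↔ ∃ k : ℕ, 1 ≤ k ∧ k • x ∈ H := Iff.rfl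

lemma le_torCl (H : AddSubgroup A) : H ≤ torCl H := fun x hx => ⟨1, le_rfl, by rwa [one_smul]⟩

lemma torCl_mono (h : H ≤ K) : torCl H ≤ torCl K := fun _ ⟨k, hk, hx⟩ => ⟨k, hk, h hx⟩

lemma torCl_of_smul {k : ℕ} (hk : 1 ≤ k) {x : A} (h : k • x ∈ torCl H) : x ∈ torCl H := by
  obtain ⟨l, hl, h⟩ := h
  refine ⟨l * k, Nat.mul_pos hl hk, ?_⟩
  rwa [mul_smul]

lemma torCl_of_zsmul {v : ℤ} (hv : v ≠ 0) {x : A} (h : v • x ∈ torCl H) : x ∈ torCl H := by
  have h1 : 1 ≤ v.natAbs := Nat.one_le_iff_ne_zero.2 (Int.natAbs_ne_zero.2 hv)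
  refine torCl_of_smul h1 ?_
  rcases Int.natAbs_eq v with h2 | h2
  · rw [← natCast_zsmul, ← h2]
    exact h
  · rw [h2, neg_smul, natCast_zsmul] at h
    exact neg_mem_iff.1 h

lemma mem_torCl_map {B : Type} [AddCommGroup B] (f : A →+ B) {H : AddSubgroup A}
    {K : AddSubgroup B} (h : ∀ x ∈ H, f x ∈ K) {x : A} (hx : x ∈ torCl H) : f x ∈ torCl K := by
  obtain ⟨k, hk, hx⟩ := hx
  refine ⟨k, hk, ?_⟩
  rw [← map_nsmul]
  exact h _ hx

end torCl

lemma ratOn_le_ratZero {ι : Type} (X : WVar ι) {N : ℕ} (J : Ideal (Coord ι N)) :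
    RatOn X J ≤ RatZero X N := by
  refine AddSubgroup.closure_mono ?_
  rintro c ⟨P, g, k, e, -, h⟩
  exact ⟨P, g, k, e, h⟩

section transport

variable {wt : Fin 5 → ℕ} {F : MvPolynomial (Fin 5) ℂ} {N : ℕ}

@[simp] lemma toSpace_I (Q : Pt (weightedHypersurface wt F) N) : (toSpace Q).I = Q.I := rfl

lemma toSpace_injective (wt : Fin 5 → ℕ) (F : MvPolynomial (Fin 5) ℂ) (N : ℕ) :
    Function.Injective (toSpace : Pt (weightedHypersurface wt F) N → Pt (weightedSpace wt) N) :=
  fun P Q h => Pt.ext' _ (show (toSpace P).I = (toSpace Q).I by rw [h])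

lemma exists_toSpace {Q : Pt (weightedSpace wt) N} (h : ∀ i, inFactor N i F ∈ Q.I) :
    ∃ Q' : Pt (weightedHypersurface wt F) N, toSpace Q' = Q := by
  refine ⟨⟨Q.I, Q.prime, Q.homog, Q.relevant, fun i f hf => ?_⟩, rfl⟩
  obtain ⟨g, rfl⟩ := Ideal.mem_span_singleton.1 (show f ∈ Ideal.span {F} from hf)
  rw [map_mul]
  exact Ideal.mul_mem_right _ _ (h i)

lemma F_mem_pt (Q : Pt (weightedHypersurface wt F) N) (i : Fin N) : inFactor N i F ∈ Q.I :=
  Q.onX i _ (show F ∈ Ideal.span {F} from Ideal.subset_span rfl)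

/-- the divisors are the same -/
theorem isDivisor_toSpace {P : Pt (weightedHypersurface wt F) N} {g k : Coord (Fin 5) N}
    {c : Cycles (weightedHypersurface wt F) N}
    (hc : IsDivisor (weightedHypersurface wt F) P g k c) :
    IsDivisor (weightedSpace wt) (toSpace P) g k (Finsupp.mapDomain toSpace c) := by
  intro Q
  by_cases hex : ∃ Q' : Pt (weightedHypersurface wt F) N, toSpace Q' = Q
  · obtain ⟨Q', rfl⟩ := hex
    rw [Finsupp.mapDomain_apply (toSpace_injective wt F N), hc Q']
    rfl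
  · rw [Finsupp.mapDomain_of_notMem_range _ _ (fun ⟨Q', h⟩ => hex ⟨Q', h⟩), if_neg]
    exact fun h => hex (exists_toSpace fun i => h.1.le (F_mem_pt P i))

/-- the homomorphism from the cycles on the power of a hypersurface to those on the power of the
weighted projective space -/
noncomputable def spC (wt : Fin 5 → ℕ) (F : MvPolynomial (Fin 5) ℂ) (N : ℕ) :
    Cycles (weightedHypersurface wt F) N →+ Cycles (weightedSpace wt) N :=
  Finsupp.mapDomain.addMonoidHom toSpace

lemma spC_apply (c : Cycles (weightedHypersurface wt F) N) :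
    spC wt F N c = Finsupp.mapDomain toSpace c := rfl

@[simp] lemma spC_single (Q : Pt (weightedHypersurface wt F) N) (n : ℤ) :
    spC wt F N (Finsupp.single Q n) = Finsupp.single (toSpace Q) n := Finsupp.mapDomain_single

lemma spC_toSpace (c : Cycles (weightedHypersurface wt F) N)
    (Q : Pt (weightedHypersurface wt F) N) : spC wt F N c (toSpace Q) = c Q :=
  Finsupp.mapDomain_apply (toSpace_injective wt F N) c Q

lemma spC_eq_zero (c : Cycles (weightedHypersurface wt F) N) {Q : Pt (weightedSpace wt) N}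
    (h : ¬ ∃ Q' : Pt (weightedHypersurface wt F) N, toSpace Q' = Q) : spC wt F N c Q = 0 :=
  Finsupp.mapDomain_of_notMem_range _ _ (fun ⟨Q', h'⟩ => h ⟨Q', h'⟩)

/-- rational equivalence on a closed subscheme -/
theorem spC_mem {J : Ideal (Coord (Fin 5) N)} {c : Cycles (weightedHypersurface wt F) N}
    (hc : c ∈ RatOn (weightedHypersurface wt F) J) :
    spC wt F N c ∈ RatOn (weightedSpace wt) J := by
  have h : RatOn (weightedHypersurface wt F) J ≤ (RatOn (weightedSpace wt) J).comap
      (spC wt F N) := by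
    refine (AddSubgroup.closure_le _).2 ?_
    rintro c ⟨P, g, k, e, hJ, hg, hk, hgP, hkP, hc⟩
    exact Kp.ratOn_of_isDivisor (P := toSpace P) hJ hg hk hgP hkP (isDivisor_toSpace hc)
  exact h hc

lemma ratZero_le_one : RatZero (weightedHypersurface wt F) 1 ≤
    RatOn (weightedHypersurface wt F) (Kp.oneIdeal F) := by
  refine (AddSubgroup.closure_le _).2 ?_
  rintro c ⟨P, g, k, e, hg, hk, hgP, hkP, hc⟩
  exact Kp.ratOn_of_isDivisor (Kp.oneIdeal_le.2 (F_mem_pt P 0)) hg hk hgP hkP hc

lemma ratZero_le_pair : RatZero (weightedHypersurface wt F) 2 ≤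
    RatOn (weightedHypersurface wt F) (pairIdeal F F) := by
  refine (AddSubgroup.closure_le _).2 ?_
  rintro c ⟨P, g, k, e, hg, hk, hgP, hkP, hc⟩
  exact Kp.ratOn_of_isDivisor (Kp.pairIdeal_le_iff.2 ⟨F_mem_pt P 0, F_mem_pt P 1⟩) hg hk hgP hkP hc

/-- the product of integral subschemes -/
lemma spC_box (q : Fin 2 → Pt (weightedHypersurface wt F) 1) :
    spC wt F 2 (box _ q) = box (weightedSpace wt) (fun i => toSpace (q i)) := by
  obtain ⟨Q, hQ, h⟩ := box_eq (weightedHypersurface wt F) q
  obtain ⟨Q', hQ', h'⟩ := box_eq (weightedSpace wt) (fun i => toSpace (q i))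
  rw [h, h', spC_single]
  congr 1
  exact Pt.ext' _ (hQ.trans hQ'.symm)

lemma spC_box2 (P Q : Pt (weightedHypersurface wt F) 1) :
    spC wt F 2 (box _ ![P, Q]) = box (weightedSpace wt) ![toSpace P, toSpace Q] := by
  rw [spC_box]
  congr 1
  funext i
  fin_cases i <;> rfl

/-- the product of two cycles -/
lemma spC_bx (x y : Cycles (weightedHypersurface wt F) 1) :
    spC wt F 2 (bx _ x y) = bx (weightedSpace wt) (spC wt F 1 x) (spC wt F 1 y) := by
  induction x using Finsupp.induction_linear with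
  | zero => simp only [map_zero, LinearMap.zero_apply]
  | add x x' hx hx' => simp only [map_add, LinearMap.add_apply, hx, hx']
  | single P m =>
    induction y using Finsupp.induction_linear with
    | zero => simp only [map_zero]
    | add y y' hy hy' => simp only [map_add, hy, hy']
    | single Q n =>
      have e : ∀ (R : Pt (weightedHypersurface wt F) 1) (k : ℤ),
          (Finsupp.single R k : Cycles (weightedHypersurface wt F) 1) =
            k • Finsupp.single R 1 := fun R k => by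
        rw [Finsupp.smul_single, smul_eq_mul, mul_one]
      rw [e P m, e Q n]
      simp only [map_smul, LinearMap.smul_apply, map_zsmul]
      rw [bx_single, spC_box2, spC_single, spC_single, bx_single]

lemma spC_boxC (x y : Cycles (weightedHypersurface wt F) 1) :
    spC wt F 2 (boxC _ ![x, y]) = boxC (weightedSpace wt) ![spC wt F 1 x, spC wt F 1 y] :=
  spC_bx x y

/-- a cycle on a hypersurface is supported on the hypersurface -/
lemma onHyp_spC (D : Cycles (weightedHypersurface wt F) 1) :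
    Kp.OnHyp (weightedSpace wt) F (spC wt F 1 D) := by
  classical
  intro Q hQ
  rw [spC_apply] at hQ
  obtain ⟨Q', -, rfl⟩ := Finset.mem_image.1 (Finsupp.mapDomain_support hQ)
  exact Kp.oneIdeal_le.2 (F_mem_pt Q' 0)

end transport

end Pool.Agent.RCH.Mn
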