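import Pool.Agent.RCH.Pn2
import Pool.Agent.RCH.Mn3

/-!
# The relations (U), on the closed subscheme of the pairs of points of `Y` with the same `(s, t)`
-/

set_option autoImplicit false

open MvPolynomial

namespace Pool.Agent.RCH.Mn

open TT

/-- **Relations**, with the closed subscheme on which they hold. -/
theorem relOn {X : WVar (Fin 5)} (hpos : ∀ j, 0 < X.wt j) {F : MvPolynomial (Fin 5) ℂ}
    (hX : X.eqs = Ideal.span {F}) {J : Ideal R7} (hJ : Dg.Hom (w7 X.wt) J)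
    (hFa : aeval al F ∈ J) (hFb : aeval be F ∈ J) {f : Fin 4 → R7}
    (hf : ∀ j : Fin 7, IsIntegral (Algebra.adjoin ℂ (Set.range fun i => Ideal.Quotient.mk J (f i)))
      (Ideal.Quotient.mk J (MvPolynomial.X j))) {b b' : R7} {m : ℕ}
    (hb0 : IsWeightedHomogeneous (w7 X.wt) b m) (hb0' : IsWeightedHomogeneous (w7 X.wt) b' m)
    (hb : Nzd J b) (hb' : Nzd J b') :
    ∃ D ∈ RatOn X (RingHom.ker (phi X.wt J)),
      (∀ Q : Pt X 2, D Q ≠ 0 → lev Q = 4 ∧ RingHom.ker (phi X.wt J) ≤ Q.I) ∧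
      ∀ Q : Pt X 2, lev Q = 4 → (∃ j : Fin 5, al j - be j ∈ J ∧
        (MvPolynomial.X (0, j) : Coord (Fin 5) 2) ∉ Q.I ∧
        (MvPolynomial.X (1, j) : Coord (Fin 5) 2) ∉ Q.I) →
        (haveI := Q.prime; cl X.wt (J ⊔ Ideal.span {b}) Q.I ≠ ⊤) ∧
        (haveI := Q.prime; cl X.wt (J ⊔ Ideal.span {b'}) Q.I ≠ ⊤) ∧
        D Q = clz (J ⊔ Ideal.span {b}) Q - clz (J ⊔ Ideal.span {b'}) Q := by
  obtain ⟨c, hc, h1, h2⟩ := Lat.rel3On (X := X) (gr X) (str_mem_X X) (J := KJ X J)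
    (KJ_homogeneous hJ) (lift_mem hb0) (lift_mem hb0') (KJ_nzd hb) (KJ_nzd hb') (e := 4)
    (fun q hq hJq => td_KJ f hf hq hJq) (KJ_eqs' hX hJ hFa hFb)
    (G := fun Q => ∃ j : Fin 5, al j - be j ∈ J ∧
      (MvPolynomial.X (0, j) : Coord (Fin 5) 2) ∉ Q.I ∧
      (MvPolynomial.X (1, j) : Coord (Fin 5) 2) ∉ Q.I) (fun Q hQ => by
        obtain ⟨j, hj, h0, h1⟩ := hQ
        have := Q.prime
        exact KJ_fin hj hj (hpos j).ne' (hpos j).ne' Q.I h0 h1)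
  rw [comap_KJ] at hc
  refine ⟨c, hc, fun Q hQ => ?_, fun Q hlev hG => ?_⟩
  · obtain ⟨h3, h4⟩ := h2 Q hQ
    rw [comap_KJ] at h3
    exact ⟨h4, h3⟩
  · have := Q.prime
    obtain ⟨h3, h4, h5⟩ := h1 Q hG hlev
    rw [← KJ_sup, ← cl_eq_TT] at h3 h4
    rw [← KJ_sup, ← KJ_sup, ← cl_eq_TT, ← cl_eq_TT] at h5
    exact ⟨h3, h4, h5⟩

namespace MD

variable (S : MD)

/-- the relation given by two elements which are not zero divisors modulo `JU` -/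
theorem JU_relOn {b b' : R7} {k l m n : ℕ} (hb0 : IsWeightedHomogeneous (w7 S.V.wt) b m)
    (hb0' : IsWeightedHomogeneous (w7 S.V.wt) b' n) (hkl : k * m = l * n) (hk : 1 ≤ k)
    (hl : 1 ≤ l) (hb : Nzd S.JU b) (hb' : Nzd S.JU b') :
    ∃ D ∈ RatOn S.V (RingHom.ker (phi S.wt S.JU)),
      (∀ Q : Pt S.V 2, D Q ≠ 0 → lev Q = 4 ∧ RingHom.ker (phi S.wt S.JU) ≤ Q.I) ∧
      ∀ Q : Pt S.V 2, lev Q = 4 → S.Good Q →
        (haveI := Q.prime; cl S.wt (S.JU ⊔ Ideal.span {b}) Q.I ≠ ⊤) ∧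
        (haveI := Q.prime; cl S.wt (S.JU ⊔ Ideal.span {b'}) Q.I ≠ ⊤) ∧
        D Q = k * clz (S.JU ⊔ Ideal.span {b}) Q - l * clz (S.JU ⊔ Ideal.span {b'}) Q := by
  have hbk : IsWeightedHomogeneous (w7 S.V.wt) (b ^ k) (k * m) := by
    have := hb0.pow k
    rwa [smul_eq_mul] at this
  have hbl : IsWeightedHomogeneous (w7 S.V.wt) (b' ^ l) (k * m) := by
    have := hb0'.pow l
    rwa [smul_eq_mul, ← hkl] at this
  obtain ⟨D, hD, h1, h2⟩ := relOn S.wt_pos S.eqs_eq S.JU_hom S.Fa_mem_JU S.Fb_mem_JU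
    S.integral_JU hbk hbl (nzd_pow hb k) (nzd_pow hb' l)
  refine ⟨D, hD, h1, fun Q hQ hG => ?_⟩
  have hp := Q.prime
  obtain ⟨h3, h4, h5⟩ := h2 Q hQ (S.shared hG)
  have e1 : cl S.wt (S.JU ⊔ Ideal.span {b ^ k}) Q.I =
      k * cl S.wt (S.JU ⊔ Ideal.span {b}) Q.I := cl_pow Q.I hb k
  have e2 : cl S.wt (S.JU ⊔ Ideal.span {b' ^ l}) Q.I =
      l * cl S.wt (S.JU ⊔ Ideal.span {b'}) Q.I := cl_pow Q.I hb' l
  have k0 : (k : ℕ∞) ≠ 0 := by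
    have : k ≠ 0 := by omega
    exact_mod_cast this
  have l0 : (l : ℕ∞) ≠ 0 := by
    have : l ≠ 0 := by omega
    exact_mod_cast this
  have f1 : cl S.wt (S.JU ⊔ Ideal.span {b}) Q.I ≠ ⊤ := by
    intro h
    apply h3
    have : cl S.V.wt (S.JU ⊔ Ideal.span {b ^ k}) Q.I = k * ⊤ := by
      rw [← h]
      exact e1
    rw [this, ENat.mul_top k0]
  have f2 : cl S.wt (S.JU ⊔ Ideal.span {b'}) Q.I ≠ ⊤ := by
    intro h
    apply h4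
    have : cl S.V.wt (S.JU ⊔ Ideal.span {b' ^ l}) Q.I = l * ⊤ := by
      rw [← h]
      exact e2
    rw [this, ENat.mul_top l0]
  refine ⟨f1, f2, ?_⟩
  rw [h5]
  have g1 : clz (S.JU ⊔ Ideal.span {b ^ k}) Q = k * clz (S.JU ⊔ Ideal.span {b}) Q := by
    unfold clz
    have : cl S.V.wt (S.JU ⊔ Ideal.span {b ^ k}) Q.I =
      k * cl S.V.wt (S.JU ⊔ Ideal.span {b}) Q.I := e1
    rw [this, ENat.toNat_mul, ENat.toNat_natCast]
    push_cast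
    rfl
  have g2 : clz (S.JU ⊔ Ideal.span {b' ^ l}) Q = l * clz (S.JU ⊔ Ideal.span {b'}) Q := by
    unfold clz
    have : cl S.V.wt (S.JU ⊔ Ideal.span {b' ^ l}) Q.I =
      l * cl S.V.wt (S.JU ⊔ Ideal.span {b'}) Q.I := e2
    rw [this, ENat.toNat_mul, ENat.toNat_natCast]
    push_cast
    rfl
  rw [g1, g2]

/-- **(U_y)** -/
theorem Uy_relOn : ∃ m : ℕ, 1 ≤ m ∧ ∃ D ∈ RatOn S.V (RingHom.ker (phi S.wt S.JU)),
    (∀ Q : Pt S.V 2, D Q ≠ 0 → lev Q = 4 ∧ RingHom.ker (phi S.wt S.JU) ≤ Q.I) ∧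
    ∀ Q : Pt S.V 2, lev Q = 4 → S.Good Q →
      (haveI := Q.prime; cl S.wt S.JUy Q.I ≠ ⊤) ∧
      D Q = m * (S.p * clz S.JUy Q - S.r * clz S.Js Q) := by
  have hb : IsWeightedHomogeneous (w7 S.V.wt) (X 5 - X 6 : R7) S.r := by
    rw [← mem_weightedHomogeneousSubmodule]
    exact sub_mem (isWeightedHomogeneous_X ℂ (w7 S.V.wt) 5)
      (isWeightedHomogeneous_X ℂ (w7 S.V.wt) 6)
  have hb' : IsWeightedHomogeneous (w7 S.V.wt) (X 2 : R7) S.p :=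
    isWeightedHomogeneous_X ℂ (w7 S.V.wt) 2
  obtain ⟨D, hD, h1, h2⟩ := S.JU_relOn hb hb' (mul_comm S.p S.r) S.hp S.hr S.nzd_JU_y S.nzd_JU_s
  refine ⟨1, le_rfl, D, hD, h1, fun Q hQ hG => ?_⟩
  obtain ⟨h3, -, h5⟩ := h2 Q hQ hG
  refine ⟨h3, ?_⟩
  rw [h5, Nat.cast_one, one_mul]
  rfl

/-- **(U_v)** -/
theorem Uv_relOn : ∃ m : ℕ, 1 ≤ m ∧ ∃ D ∈ RatOn S.V (RingHom.ker (phi S.wt S.JU)),
    (∀ Q : Pt S.V 2, D Q ≠ 0 → lev Q = 4 ∧ RingHom.ker (phi S.wt S.JU) ≤ Q.I) ∧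
    ∀ Q : Pt S.V 2, lev Q = 4 → S.Good Q →
      D Q = m * (S.p * clz S.JVw Q - S.N * clz S.Js Q) := by
  have hb : IsWeightedHomogeneous (w7 S.V.wt) (X 0 - X 1 : R7) S.N := by
    rw [← mem_weightedHomogeneousSubmodule]
    exact sub_mem (isWeightedHomogeneous_X ℂ (w7 S.V.wt) 0)
      (isWeightedHomogeneous_X ℂ (w7 S.V.wt) 1)
  have hb' : IsWeightedHomogeneous (w7 S.V.wt) (X 2 : R7) S.p :=
    isWeightedHomogeneous_X ℂ (w7 S.V.wt) 2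
  obtain ⟨D, hD, h1, h2⟩ := S.JU_relOn hb hb' (mul_comm S.p S.N) S.hp S.hN S.nzd_JU_v S.nzd_JU_s
  refine ⟨1, le_rfl, D, hD, h1, fun Q hQ hG => ?_⟩
  obtain ⟨-, -, h5⟩ := h2 Q hQ hG
  rw [h5, Nat.cast_one, one_mul]
  rfl

end MD

end Pool.Agent.RCH.Mn
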