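import Pool.Agent.RCH.Pn4
import Pool.Agent.RCH.Mn9c

/-!
# Rational equivalence on the section `Y`
-/

set_option autoImplicit false

open MvPolynomial

namespace Pool.Agent.RCH.Mn

section general

variable {ι : Type} {X : WVar ι}

/-- cycles all of whose components are combinations of some curves, up to a multiple -/
lemma exists_supportedOn (H : AddSubgroup (Cycles X 1)) (s : Finset (Pt X 1)) (t : Finset (Pt X 1))
    (h : ∀ Q ∈ t, ∃ m : ℕ, 1 ≤ m ∧ ∃ c : Cycles X 1, c.support ⊆ s ∧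
      m • Finsupp.single Q 1 - c ∈ H) (f : Pt X 1 → ℤ) :
    ∃ m : ℕ, 1 ≤ m ∧ ∃ c : Cycles X 1, c.support ⊆ s ∧
      m • ∑ Q ∈ t, f Q • Finsupp.single Q 1 - c ∈ H := by
  classical
  induction t using Finset.induction_on with
  | empty =>
    refine ⟨1, le_rfl, 0, ?_, ?_⟩
    · rw [Finsupp.support_zero]
      exact Finset.empty_subset _
    · rw [Finset.sum_empty, smul_zero, sub_zero]
      exact zero_mem _
  | insert Q t hQ ih =>
    obtain ⟨m, hm, c, hc, h1⟩ := ih fun R hR => h R (Finset.mem_insert_of_mem hR)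
    obtain ⟨m', hm', c', hc', h2⟩ := h Q (Finset.mem_insert_self _ _)
    refine ⟨m * m', Nat.one_le_iff_ne_zero.2 (by positivity), (m' : ℤ) • c + (m * f Q : ℤ) • c',
      ?_, ?_⟩
    · refine Finsupp.support_add.trans (Finset.union_subset ?_ ?_)
      · exact Finsupp.support_smul.trans hc
      · exact Finsupp.support_smul.trans hc'
    · rw [Finset.sum_insert hQ]
      have h3 : (m * m') • (f Q • (Finsupp.single Q 1 : Cycles X 1) +
          ∑ Q ∈ t, f Q • Finsupp.single Q 1) - ((m' : ℤ) • c + (m * f Q : ℤ) • c') =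
          (m' : ℤ) • (m • ∑ Q ∈ t, f Q • Finsupp.single Q 1 - c) +
            (m * f Q : ℤ) • (m' • Finsupp.single Q 1 - c') := by
        rw [← natCast_zsmul, ← natCast_zsmul, ← natCast_zsmul]
        push_cast
        module
      rw [h3]
      exact add_mem (AddSubgroup.zsmul_mem _ h1 _) (AddSubgroup.zsmul_mem _ h2 _)

end general

namespace MD

variable (S : MD)

/-- the cycles on `X` which are rationally equivalent to zero on `Y` -/
noncomputable def RY : AddSubgroup (Cycles S.V 1) := RatOn S.V S.pY.I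

lemma RY_le : S.RY ≤ RatZero S.V 1 := ratOn_le_ratZero _ _

/-- the divisor of `G ^ n / H ^ m` on the section for homogeneous polynomials in `s, t, y` -/
theorem div_powOn {g h : MvPolynomial (Fin 3) ℂ} {m n : ℕ} (hg : IsWeightedHomogeneous S.w3 g m)
    (hh : IsWeightedHomogeneous S.w3 h n) (hg0 : g ≠ 0) (hh0 : h ≠ 0) {c c' : Cycles S.V 1}
    (hc : IsDivisor S.V S.pY (inc g) 1 c) (hc' : IsDivisor S.V S.pY (inc h) 1 c') :
    (n : ℤ) • c - (m : ℤ) • c' ∈ S.RY := by
  have hYp := S.pY.prime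
  have hgY := S.inc_notMem hg hg0
  have hhY := S.inc_notMem hh hh0
  refine Kp.ratOn_of_isDivisor (P := S.pY) (g := inc g ^ n) (k := inc h ^ m)
    (e := fun _ => n * m) le_rfl ?_ ?_ (fun h => hgY (hYp.mem_of_pow_mem _ h))
    (fun h => hhY (hYp.mem_of_pow_mem _ h)) ?_
  · have h1 := (S.inc_hom hg).pow n
    have h2 : (n • fun _ : Fin 1 => m) = fun _ => n * m := by
      funext i
      simp
    rwa [h2] at h1
  · have h1 := (S.inc_hom hh).pow m
    have h2 : (m • fun _ : Fin 1 => n) = fun _ => n * m := by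
      funext i
      simp [mul_comm]
    rwa [h2] at h1
  · intro Q
    have hQp := Q.prime
    have h1 := hc Q
    have h2 := hc' Q
    rw [Finsupp.sub_apply, Finsupp.smul_apply, Finsupp.smul_apply, h1, h2]
    split_ifs with hQ
    · rw [S.ordAt_one' S.pY Q, S.toNat_ordAt_pow hQ hgY, S.toNat_ordAt_pow hQ hhY]
      simp
    · simp

/-- the divisor of `A ^ p / s ^ k` -/
theorem dA_dsOn : (S.p : ℤ) • S.dA - (S.k : ℤ) • S.ds ∈ S.RY := by
  refine S.div_powOn S.hA (isWeightedHomogeneous_X ℂ S.w3 (0 : Fin 3)) S.hA0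
    (MvPolynomial.X_ne_zero _) S.isDivisor_dA ?_
  rw [inc_X0]
  exact S.isDivisor_ds

/-- **Generation.** -/
theorem genOn {Q : Pt S.V 1} (hQ : CodimOne S.pY.I Q.I) : ∃ m : ℕ, 1 ≤ m ∧
    ∃ c : Cycles S.V 1, c.support ⊆ S.dA.support ∧ m • Finsupp.single Q 1 - c ∈ S.RY := by
  classical
  by_cases h1 : S.A1 ∈ Q.I
  · refine ⟨1, le_rfl, Finsupp.single Q 1, ?_, ?_⟩
    · refine Finsupp.support_single_subset.trans ?_
      rw [Finset.singleton_subset_iff]
      exact S.mem_dA.2 ⟨hQ, h1⟩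
    · rw [one_smul, sub_self]
      exact zero_mem _
  · obtain ⟨g, n, hg, hgn, hgQ⟩ := S.exists_g Q hQ
    obtain ⟨c, hc⟩ := S.exists_div hgn hg.ne_zero
    have hrat := S.div_powOn hgn S.hA hg.ne_zero S.hA0 hc S.isDivisor_dA
    have hgY := S.inc_notMem hgn hg.ne_zero
    have hcQ : 0 < c Q := (S.div_one hgY hc Q).1 ⟨hQ, hgQ⟩
    obtain ⟨m, hm⟩ : ∃ m : ℕ, c Q = m := ⟨(c Q).toNat, by omega⟩
    have hk := S.hk
    have hm1 : 1 ≤ m := by omega
    refine ⟨S.k * m, Nat.mul_pos hk hm1,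
      (n : ℤ) • S.dA - (S.k : ℤ) • (c - Finsupp.single Q (c Q)), ?_, ?_⟩
    · intro P hP
      by_contra hPA
      rw [Finsupp.mem_support_iff] at hP
      apply hP
      rw [Finsupp.notMem_support_iff] at hPA
      have h2 : (c - Finsupp.single Q (c Q)) P = 0 := by
        by_cases hPQ : P = Q
        · rw [hPQ, Finsupp.sub_apply, Finsupp.single_eq_same, sub_self]
        · rw [Finsupp.sub_apply, Finsupp.single_eq_of_ne hPQ, sub_zero]
          refine (S.div_one hgY hc P).2 fun ⟨h3, h4⟩ => ?_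
          have h5 : S.A1 ∉ P.I := by
            intro h5
            have h6 := S.mem_dA.2 ⟨h3, h5⟩
            exact (Finsupp.mem_support_iff.1 h6) hPA
          exact hPQ (S.eq_of_g Q P hQ h3 h1 h5 hg hgn hgQ h4)
      rw [Finsupp.sub_apply, Finsupp.smul_apply, Finsupp.smul_apply, hPA, h2]
      simp
    · have h2 : (S.k * m) • (Finsupp.single Q 1 : Cycles S.V 1) -
          ((n : ℤ) • S.dA - (S.k : ℤ) • (c - Finsupp.single Q (c Q))) =
            (S.k : ℤ) • c - (n : ℤ) • S.dA := by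
        have h3 : (Finsupp.single Q (c Q) : Cycles S.V 1) = (m : ℤ) • Finsupp.single Q 1 := by
          rw [Finsupp.smul_single, smul_eq_mul, mul_one, hm]
        rw [h3]
        module
      rw [h2]
      exact hrat

/-- every cycle supported on the section is a combination of the curves, up to a multiple -/
theorem supportedOn (D : Cycles S.V 1) (hD : ∀ Q ∈ D.support, CodimOne S.pY.I Q.I) :
    ∃ m : ℕ, 1 ≤ m ∧ ∃ c : Cycles S.V 1, c.support ⊆ S.dA.support ∧
      m • D - c ∈ S.RY := by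
  obtain ⟨m, hm, c, hc, h⟩ := exists_supportedOn S.RY S.dA.support D.support
    (fun Q hQ => S.genOn (hD Q hQ)) D
  refine ⟨m, hm, c, hc, ?_⟩
  rwa [← sum_single D] at h

/-- a cycle of degree zero supported on the section is a combination of the cycles `e C` with
coefficients of sum zero, up to a multiple -/
theorem exists_combinationOn (D : Cycles S.V 1) (hD : ∀ Q ∈ D.support, CodimOne S.pY.I Q.I)
    (h0 : Dg.deg S.V 2 D = 0) : ∃ M : ℤ, M ≠ 0 ∧ ∃ m : Pt S.V 1 → ℤ,
      ∑ C ∈ S.dA.support, m C = 0 ∧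
      M • D - ∑ C ∈ S.dA.support, m C • S.eC C ∈ S.RY := by
  obtain ⟨M, hM, c, hc, h⟩ := S.supportedOn D hD
  have hP := S.PG_pos
  refine ⟨(S.PG : ℤ) * M, by positivity, fun C => c C * (S.gC C : ℤ), ?_, ?_⟩
  · have h1 := Dg.deg_ratZero S.wt_pos (r := 2) (by norm_num) (S.RY_le h)
    rw [map_sub, map_nsmul, h0, smul_zero, zero_sub, neg_eq_zero] at h1
    have h2 := S.deg_combination hc
    rw [h1, mul_zero] at h2
    exact_mod_cast h2.symm
  · have h1 : ∑ C ∈ S.dA.support, (c C * (S.gC C : ℤ)) • S.eC C = (S.PG : ℤ) • c := by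
      have h2 : c = ∑ C ∈ S.dA.support, c C • Finsupp.single C 1 := by
        conv_lhs => rw [sum_single c]
        refine Finset.sum_subset hc fun Q _ hQ => ?_
        rw [Finsupp.notMem_support_iff.mp hQ, zero_smul]
      conv_rhs => rw [h2, Finset.smul_sum]
      refine Finset.sum_congr rfl fun C hC => ?_
      rw [eC, smul_smul, smul_smul]
      congr 1
      have h3 : ((S.PG : ℕ) : ℤ) = S.G C * S.gC C := by exact_mod_cast (S.G_mul_gC hC).symm
      rw [h3]
      ring
    rw [h1, mul_smul, ← smul_sub, natCast_zsmul]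
    exact AddSubgroup.zsmul_mem _ h _

/-- a curve with a multiple rationally equivalent to a multiple of the divisor of `A` -/
lemma zC_of_relOn {C : Pt S.V 1} (hC : C ∈ S.dA.support) {a b : ℤ} (ha : a ≠ 0)
    (h : a • S.eC C - b • S.dA ∈ S.RY) : S.zC C ∈ torCl S.RY := by
  have h1 := Dg.deg_ratZero S.wt_pos (r := 2) (by norm_num) (S.RY_le h)
  rw [map_sub, map_zsmul, map_zsmul, zsmul_eq_mul, zsmul_eq_mul] at h1
  have h2 : a * (S.PG : ℤ) = b * S.kap := by
    have h3 := S.deg_dA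
    have h4 := S.deg_eC hC
    have h5 : (a : ℝ) * (S.PG : ℝ) = b * S.kap := by
      push_cast at h3
      linear_combination (S.N * S.PG : ℝ) * h1 - (a * S.PG : ℝ) * h4 + (b : ℝ) * h3
    exact_mod_cast h5
  have hP : (S.PG : ℤ) ≠ 0 := by exact_mod_cast S.PG_pos.ne'
  have hb : b ≠ 0 := by
    rintro rfl
    rw [zero_mul] at h2
    exact mul_ne_zero ha hP h2
  refine torCl_of_zsmul hb (le_torCl _ ?_)
  have h6 : b • S.zC C = (S.PG : ℤ) • (a • S.eC C - b • S.dA) := by
    rw [zC, smul_sub, smul_sub, smul_smul, smul_smul, smul_smul, smul_smul, ← h2]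
    congr 1
    · rw [mul_comm]
    · rw [mul_comm]
  rw [h6]
  exact AddSubgroup.zsmul_mem _ h _

/-- **A criterion for rank one.** -/
theorem rank_one_ofOn (C₁ C₂ : Pt S.V 1)
    (h : ∀ C ∈ S.dA.support, C = C₁ ∨ C = C₂ ∨ S.zC C ∈ torCl S.RY) :
    ∃ δ : Cycles S.V 1, ∀ C ∈ S.dA.support, ∀ C' ∈ S.dA.support, ∃ a : ℕ, 1 ≤ a ∧ ∃ b : ℤ,
      a • (S.eC C - S.eC C') - b • δ ∈ torCl S.RY := by
  classical
  -- every `z C` has a multiple which is a multiple of `δ`
  obtain ⟨δ, hδ⟩ : ∃ δ : Cycles S.V 1, ∀ C ∈ S.dA.support, ∃ a : ℤ, a ≠ 0 ∧ ∃ b : ℤ,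
      a • S.zC C - b • δ ∈ torCl S.RY := by
    by_cases h1 : C₁ ∈ S.dA.support
    · refine ⟨S.zC C₁, fun C hC => ?_⟩
      rcases h C hC with rfl | rfl | h2
      · exact ⟨1, one_ne_zero, 1, by rw [sub_self]; exact zero_mem _⟩
      · by_cases h12 : C = C₁
        · subst h12
          exact ⟨1, one_ne_zero, 1, by rw [sub_self]; exact zero_mem _⟩
        · refine ⟨S.dA C * (S.gC C : ℤ), ?_, -(S.dA C₁ * (S.gC C₁ : ℤ)), ?_⟩
          · have h2 := S.dA_pos hC
            have h3 : (0 : ℤ) < S.gC C := by exact_mod_cast S.gC_pos hC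
            exact (mul_pos h2 h3).ne'
          · have h3 := S.sum_zC
            rw [← Finset.add_sum_erase _ _ hC, ← Finset.add_sum_erase _ _
              (Finset.mem_erase.2 ⟨fun h' => h12 h'.symm, h1⟩)] at h3
            have h4 : (S.dA C * (S.gC C : ℤ)) • S.zC C -
                (-(S.dA C₁ * (S.gC C₁ : ℤ))) • S.zC C₁ =
                -∑ x ∈ (S.dA.support.erase C).erase C₁, (S.dA x * (S.gC x : ℤ)) • S.zC x := by
              rw [neg_smul, sub_neg_eq_add, eq_neg_iff_add_eq_zero, add_assoc]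
              exact h3
            rw [h4]
            refine neg_mem (sum_mem fun x hx => AddSubgroup.zsmul_mem _ ?_ _)
            rw [Finset.mem_erase, Finset.mem_erase] at hx
            rcases h x hx.2.2 with h5 | h5 | h5
            · exact absurd h5 hx.1
            · exact absurd h5 hx.2.1
            · exact h5
      · exact ⟨1, one_ne_zero, 0, by rw [one_smul, zero_smul, sub_zero]; exact h2⟩
    · refine ⟨S.zC C₂, fun C hC => ?_⟩
      rcases h C hC with rfl | rfl | h2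
      · exact absurd hC h1
      · exact ⟨1, one_ne_zero, 1, by rw [sub_self]; exact zero_mem _⟩
      · exact ⟨1, one_ne_zero, 0, by rw [one_smul, zero_smul, sub_zero]; exact h2⟩
  refine ⟨δ, fun C hC C' hC' => ?_⟩
  obtain ⟨a, ha, b, h1⟩ := hδ C hC
  obtain ⟨a', ha', b', h2⟩ := hδ C' hC'
  have hk := S.kap_pos
  -- `a a' κ (e C - e C')`
  have h3 : (a * a' * S.kap) • (S.eC C - S.eC C') - (a' * b - a * b') • δ ∈ torCl S.RY := by
    have h4 : (a * a' * S.kap) • (S.eC C - S.eC C') - (a' * b - a * b') • δ =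
        a' • (a • S.zC C - b • δ) - a • (a' • S.zC C' - b' • δ) := by
      rw [zC, zC]
      module
    rw [h4]
    exact sub_mem (AddSubgroup.zsmul_mem _ h1 _) (AddSubgroup.zsmul_mem _ h2 _)
  have h5 : a * a' * S.kap ≠ 0 := mul_ne_zero (mul_ne_zero ha ha') hk.ne'
  refine ⟨(a * a' * S.kap).natAbs, Nat.one_le_iff_ne_zero.2 (Int.natAbs_ne_zero.2 h5), ?_⟩
  rcases Int.natAbs_eq (a * a' * S.kap) with h6 | h6
  · refine ⟨a' * b - a * b', ?_⟩
    rw [← natCast_zsmul, ← h6]
    exact h3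
  · refine ⟨-(a' * b - a * b'), ?_⟩
    have h7 : (((a * a' * S.kap).natAbs : ℕ) : ℤ) = -(a * a' * S.kap) := by omega
    have h8 : (a * a' * S.kap).natAbs • (S.eC C - S.eC C') - (-(a' * b - a * b')) • δ =
        -((a * a' * S.kap) • (S.eC C - S.eC C') - (a' * b - a * b') • δ) := by
      rw [← natCast_zsmul, h7]
      module
    rw [h8]
    exact neg_mem h3

/-- a curve which is alone on a form `f` -/
lemma zC_of_formOn {C : Pt S.V 1} (hC : C ∈ S.dA.support) {f : MvPolynomial (Fin 3) ℂ} {m : ℕ}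
    (hf : IsWeightedHomogeneous S.w3 f m) (hf0 : f ≠ 0) (hfC : inc f ∈ C.I)
    (h : ∀ Q : Pt S.V 1, CodimOne S.pY.I Q.I → inc f ∈ Q.I → Q = C) :
    S.zC C ∈ torCl S.RY := by
  obtain ⟨c, hc⟩ := S.exists_div hf hf0
  have h1 := S.div_powOn hf S.hA hf0 S.hA0 hc S.isDivisor_dA
  have hY := S.inc_notMem hf hf0
  have h2 : C ∈ c.support := (mem_support_div hY hc).2 ⟨(S.mem_dA.1 hC).1, hfC⟩
  have h3 : c = c C • Finsupp.single C 1 := by
    have h4 : c.support = {C} := by
      ext Q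
      rw [Finset.mem_singleton]
      constructor
      · intro hQ
        have h5 := (mem_support_div hY hc).1 hQ
        exact h Q h5.1 h5.2
      · rintro rfl
        exact h2
    conv_lhs => rw [sum_single c, h4, Finset.sum_singleton]
  have h4 := div_pos hc h2
  have h5 : ((S.k : ℤ) * c C) • S.eC C - ((S.G C : ℤ) * m) • S.dA ∈ S.RY := by
    have h6 : ((S.k : ℤ) * c C) • S.eC C - ((S.G C : ℤ) * m) • S.dA =
        (S.G C : ℤ) • ((S.k : ℤ) • c - (m : ℤ) • S.dA) := by
      rw [eC]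
      conv_rhs => rw [h3]
      module
    rw [h6]
    exact AddSubgroup.zsmul_mem _ h1 _
  have h6 : ((S.k : ℤ) * c C) ≠ 0 := by
    have h7 : (0 : ℤ) < S.k := by exact_mod_cast S.k_pos
    exact (mul_pos h7 h4).ne'
  exact S.zC_of_relOn hC h6 h5

/-- **The criterion for rank one in terms of `A` and `B`.** -/
theorem rank_one_critOn (h : TwoPoints S.p S.q S.r S.A S.B) :
    ∃ δ : Cycles S.V 1, ∀ C ∈ S.dA.support, ∀ C' ∈ S.dA.support, ∃ a : ℕ, 1 ≤ a ∧ ∃ b : ℤ,
      a • (S.eC C - S.eC C') - b • δ ∈ torCl S.RY := by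
  classical
  obtain ⟨a₁, a₂, h⟩ := h
  obtain ⟨C₀, hC₀⟩ := S.exists_mem_dA
  -- a curve with the ideal of `a_i`, if there is one
  have hex : ∀ b : Fin 3 → ℂ, ∃ C' : Pt S.V 1, ∀ C ∈ S.dA.support,
      C.I = RingHom.ker (S.coneHom b) → C = C' := by
    intro b
    by_cases hb : ∃ C' : Pt S.V 1, C'.I = RingHom.ker (S.coneHom b)
    · obtain ⟨C', hC'⟩ := hb
      exact ⟨C', fun C _ hC => Pt.ext' _ (hC.trans hC'.symm)⟩
    · exact ⟨C₀, fun C _ hC => absurd ⟨C, hC⟩ hb⟩
  obtain ⟨C₁, hC₁⟩ := hex a₁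
  obtain ⟨C₂, hC₂⟩ := hex a₂
  refine S.rank_one_ofOn C₁ C₂ fun C hC => ?_
  obtain ⟨a, ha, haA, haB, haC⟩ := S.dA_cone.1 hC
  rcases h a ha haA haB with h1 | h1 | ⟨f, m, ⟨g, hg⟩, -, hf, haf, huniq⟩
  · exact Or.inl (hC₁ C hC (haC.trans (S.ker_eqv h1).symm))
  · exact Or.inr (Or.inl (hC₂ C hC (haC.trans (S.ker_eqv h1).symm)))
  · refine Or.inr (Or.inr ?_)
    have hf0 : f ≠ 0 := by
      rintro rfl
      rw [zero_mul] at hg
      exact S.hA0 hg
    refine S.zC_of_formOn hC hf hf0 ?_ fun Q hQ hfQ => ?_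
    · rw [haC, RingHom.mem_ker, S.coneHom_inc, S.mem_ker_tau a hf]
      exact haf
    · -- the curve `Q` is in the divisor of `A`
      have hQA : Q ∈ S.dA.support := by
        refine S.mem_dA.2 ⟨hQ, ?_⟩
        have h2 : S.A1 = inc f * inc g := by
          rw [← S.inc_A, hg, map_mul]
        rw [h2]
        exact Ideal.mul_mem_right _ _ hfQ
      obtain ⟨a', ha', ha'A, ha'B, haQ⟩ := S.dA_cone.1 hQA
      have h3 : eval a' f = 0 := by
        rw [← S.mem_ker_tau a' hf, ← S.coneHom_inc, ← RingHom.mem_ker, ← haQ]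
        exact hfQ
      apply Pt.ext'
      rw [haQ, haC]
      exact (S.ker_eqv (huniq a' ha' ha'A ha'B h3)).symm

end MD

end Pool.Agent.RCH.Mn
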