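import Pool.Agent.RCH.Pn5

/-!
# The relation between the products of the curves on two hypersurfaces with the same section
-/

set_option autoImplicit false

open MvPolynomial

namespace Pool.Agent.RCH.Mn

/-- products of cycles modulo torsion -/
lemma bxW_left {X : WVar (Fin 5)} {F F' : MvPolynomial (Fin 5) ℂ} {x y : Cycles X 1}
    (hx : x ∈ torCl (RatOn X (Kp.oneIdeal F))) (hy : Kp.OnHyp X F' y) :
    bx X x y ∈ torCl (RatOn X (pairIdeal F F')) := by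
  obtain ⟨k, hk, hx⟩ := hx
  refine ⟨k, hk, ?_⟩
  have h : k • bx X x y = bx X (k • x) y := by
    rw [← natCast_zsmul, ← natCast_zsmul, map_smul, LinearMap.smul_apply]
  rw [h]
  exact Kp.bx_mem_left hx hy

lemma bxW_right {X : WVar (Fin 5)} {F F' : MvPolynomial (Fin 5) ℂ} {x y : Cycles X 1}
    (hx : Kp.OnHyp X F x) (hy : y ∈ torCl (RatOn X (Kp.oneIdeal F'))) :
    bx X x y ∈ torCl (RatOn X (pairIdeal F F')) := by
  obtain ⟨k, hk, hy⟩ := hy
  refine ⟨k, hk, ?_⟩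
  have h : k • bx X x y = bx X x (k • y) := by
    rw [← natCast_zsmul, ← natCast_zsmul, map_smul]
  rw [h]
  exact Kp.bx_mem_right hx hy

namespace MD

variable (S : MD)

/-- the weighted projective space -/
noncomputable abbrev W : WVar (Fin 5) := weightedSpace S.wt

/-- the cycles on the powers of `X` as cycles on the powers of the weighted projective space -/
noncomputable def sp (N : ℕ) : Cycles S.V N →+ Cycles S.W N := spC S.wt S.F N

/-- the integral subschemes of the powers of `X` as subschemes of the powers of the weighted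
projective space -/
noncomputable def tp {N : ℕ} (Q : Pt S.V N) : Pt S.W N := toSpace (wt := S.wt) (F := S.F) Q

@[simp] lemma tp_I {N : ℕ} (Q : Pt S.V N) : (S.tp Q).I = Q.I := rfl

@[simp] lemma sp_single {N : ℕ} (Q : Pt S.V N) (n : ℤ) :
    S.sp N (Finsupp.single Q n) = Finsupp.single (S.tp Q) n := spC_single Q n

lemma sp_tp {N : ℕ} (c : Cycles S.V N) (Q : Pt S.V N) : S.sp N c (S.tp Q) = c Q := spC_toSpace c Q

lemma sp_eq_zero {N : ℕ} (c : Cycles S.V N) {Q : Pt S.W N} (h : ¬ ∃ Q' : Pt S.V N, S.tp Q' = Q) :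
    S.sp N c Q = 0 := spC_eq_zero c h

lemma exists_tp {N : ℕ} {Q : Pt S.W N} (h : ∀ i, inFactor N i S.F ∈ Q.I) :
    ∃ Q' : Pt S.V N, S.tp Q' = Q := exists_toSpace h

lemma sp_bx (x y : Cycles S.V 1) : S.sp 2 (bx S.V x y) = bx S.W (S.sp 1 x) (S.sp 1 y) :=
  spC_bx x y

lemma sp_box (P Q : Pt S.V 1) : S.sp 2 (box S.V ![P, Q]) = box S.W ![S.tp P, S.tp Q] :=
  spC_box2 P Q

lemma sp_mem {N : ℕ} {J : Ideal (Coord (Fin 5) N)} {c : Cycles S.V N} (hc : c ∈ RatOn S.V J) :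
    S.sp N c ∈ RatOn S.W J := spC_mem hc

/-! ### The subgroup -/

section pair

variable (F' : MvPolynomial (Fin 5) ℂ)

/-- the cycles on the square of `X` which are rationally equivalent to zero on `X × X'` -/
noncomputable def HP : AddSubgroup (Cycles S.V 2) :=
  (RatOn S.W (pairIdeal S.F F')).comap (S.sp 2)

variable {F'}

lemma mem_HP {x : Cycles S.V 2} : x ∈ S.HP F' ↔ S.sp 2 x ∈ RatOn S.W (pairIdeal S.F F') := Iff.rfl

lemma HP_le {x : Cycles S.V 2} (hx : x ∈ S.HP F') : S.sp 2 x ∈ RatZero S.W 2 :=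
  ratOn_le_ratZero _ _ hx

/-- the other equation has the same restriction to the section -/
lemma aeval_be_mem (h : F' - S.F ∈ Ideal.span {(X 3 : MvPolynomial (Fin 5) ℂ)}) :
    aeval be F' ∈ S.JU := by
  obtain ⟨G, hG⟩ := Ideal.mem_span_singleton.1 h
  have h1 : aeval be F' = S.Fb + X 4 * aeval be G := by
    have h2 : F' = S.F + X 3 * G := by
      rw [← hG]
      ring
    have h3 : aeval be (X 3 : MvPolynomial (Fin 5) ℂ) = (X 4 : R7) := by
      rw [aeval_X]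
      rfl
    rw [h2, map_add, map_mul, h3]
    rfl
  rw [h1]
  exact add_mem S.Fb_mem_JU (Ideal.mul_mem_right _ _ S.X4_mem_JU)

lemma pair_le_kerJU (hF' : IsWeightedHomogeneous S.wt F' S.d)
    (h : F' - S.F ∈ Ideal.span {(X 3 : MvPolynomial (Fin 5) ℂ)}) :
    pairIdeal S.F F' ≤ RingHom.ker (phi S.wt S.JU) :=
  pair_le_ker hF' S.Fa_mem_JU (S.aeval_be_mem h)

lemma hU_HP (hF' : IsWeightedHomogeneous S.wt F' S.d)
    (h : F' - S.F ∈ Ideal.span {(X 3 : MvPolynomial (Fin 5) ℂ)}) :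
    RatOn S.V (RingHom.ker (phi S.wt S.JU)) ≤ S.HP F' := fun _ hx =>
  Kp.RatOn_mono _ (S.pair_le_kerJU hF' h) (S.sp_mem hx)

/-- the relation (E) -/
def RelE (S : MD) (F' : MvPolynomial (Fin 5) ℂ) : Prop :=
  ∃ E ∈ RatOn S.W (pairIdeal S.F F'), ∀ Q : Pt S.W 2,
    (lev Q ≠ 4 → E Q = 0) ∧ (lev Q = 4 → E Q = S.r * clz S.JVw Q - S.d * clz S.JD Q)

lemma F_mem_of_ker {Q : Pt S.W 2} (h : RingHom.ker (phi S.wt S.JU) ≤ Q.I) (i : Fin 2) :
    inFactor 2 i S.F ∈ Q.I := by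
  have h1 : pairIdeal S.F S.F ≤ Q.I :=
    (pair_le_ker (wt := S.wt) S.hF S.Fa_mem_JU S.Fb_mem_JU).trans h
  rw [Kp.pairIdeal_le_iff] at h1
  fin_cases i
  · exact h1.1
  · exact h1.2

/-- the length at a point of the square of the weighted projective space which is not on `JU` -/
lemma clzW_zero {J : Ideal R7} (hJ : S.JU ≤ J) {Q : Pt S.W 2}
    (h : ¬ RingHom.ker (phi S.wt S.JU) ≤ Q.I) : clz J Q = 0 := by
  have hQ := Q.prime
  have h1 : ¬ RingHom.ker (phi S.wt J) ≤ Q.I := fun h2 => h ((ker_phi_mono hJ).trans h2)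
  have h3 : cl S.wt J Q.I = 0 := cl_eq_zero Q.I h1
  rw [clz]
  change (((cl S.wt J Q.I).toNat : ℕ) : ℤ) = 0
  rw [h3]
  rfl

lemma hE_HP (hE : S.RelE F') : ∃ E ∈ S.HP F', ∀ Q : Pt S.V 2, (lev Q ≠ 4 → E Q = 0) ∧
    (lev Q = 4 → E Q = S.r * clz S.JVw Q - S.d * clz S.JD Q) := by
  obtain ⟨E', hE', h'⟩ := hE
  obtain ⟨E, -, h⟩ := S.E_rel
  refine ⟨E, ?_, h⟩
  rw [mem_HP]
  have h1 : S.sp 2 E = E' := by
    ext Q
    by_cases hQ : ∃ Q' : Pt S.V 2, S.tp Q' = Q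
    · obtain ⟨Q', rfl⟩ := hQ
      rw [sp_tp]
      by_cases h4 : lev Q' = 4
      · rw [(h Q').2 h4, (h' (S.tp Q')).2 h4]
        rfl
      · rw [(h Q').1 h4, (h' (S.tp Q')).1 h4]
    · rw [S.sp_eq_zero _ hQ]
      by_cases h4 : lev Q = 4
      · have hker : ¬ RingHom.ker (phi S.wt S.JU) ≤ Q.I := fun h2 =>
          hQ (S.exists_tp fun i => S.F_mem_of_ker h2 i)
        rw [(h' Q).2 h4, S.clzW_zero (J := S.JVw) le_sup_left hker,
          S.clzW_zero S.JU_le_JD hker]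
        ring
      · rw [(h' Q).1 h4]
  rw [h1]
  exact hE'

end pair

/-! ### The vertex terms -/

/-- **Kill.** -/
theorem killH {H : AddSubgroup (Cycles S.V 2)} (hH : ∀ x ∈ H, S.sp 2 x ∈ RatZero S.W 2)
    (s : Finset (Pt S.V 1)) (hs : ∀ C ∈ s, ∃ e : ℝ, Dg.HasRk (Dg.wt1 S.V) C.I 2 e)
    (c : Pt S.V 1 → Pt S.V 1 → ℤ) (n₁ n₂ : ℤ)
    (h : ∑ C ∈ s, ∑ C' ∈ s, c C C' • box S.V ![C, C'] + n₁ • box S.V ![S.pP, S.pY] +
      n₂ • box S.V ![S.pY, S.pP] ∈ torCl H) : n₁ = 0 ∧ n₂ = 0 := by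
  obtain ⟨M, hM, h⟩ := h
  obtain ⟨e, he⟩ := S.hasRk_of_lev S.lev_pP
  obtain ⟨ε, hε⟩ := S.hasRk_of_lev S.lev_pY
  have hM' : (M : ℤ) ≠ 0 := by exact_mod_cast (by omega : M ≠ 0)
  have hd : ∀ C ∈ s, Dg.HasRk (Dg.wt1 S.V) C.I 2 (Dg.degPt S.V 2 C) := by
    intro C hC
    obtain ⟨e', he'⟩ := hs C hC
    rwa [Dg.degPt_eq he']
  have h1 : ∑ a ∈ s ×ˢ s, ((M : ℤ) * c a.1 a.2) • box S.W ![S.tp a.1, S.tp a.2] +
      ((M : ℤ) * n₁) • box S.W ![S.tp S.pP, S.tp S.pY] +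
      ((M : ℤ) * n₂) • box S.W ![S.tp S.pY, S.tp S.pP] ∈ RatZero S.W 2 := by
    have h2 : ∑ a ∈ s ×ˢ s, ((M : ℤ) * c a.1 a.2) • box S.W ![S.tp a.1, S.tp a.2] +
      ((M : ℤ) * n₁) • box S.W ![S.tp S.pP, S.tp S.pY] +
      ((M : ℤ) * n₂) • box S.W ![S.tp S.pY, S.tp S.pP] =
        S.sp 2 (M • (∑ C ∈ s, ∑ C' ∈ s, c C C' • box S.V ![C, C'] + n₁ • box S.V ![S.pP, S.pY] +
      n₂ • box S.V ![S.pY, S.pP])) := by
      rw [Finset.sum_product, map_nsmul, map_add, map_add, map_sum, map_zsmul, map_zsmul, sp_box,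
        sp_box, smul_add, smul_add, Finset.smul_sum]
      simp only [map_sum, map_zsmul, sp_box, Finset.smul_sum, mul_smul, natCast_zsmul]
    rw [h2]
    exact hH _ h
  have hpos : ∀ j, 0 < S.W.wt j := S.wt_pos
  obtain ⟨h2, h3, -⟩ := Dg2.kill_one (X := S.W) hpos (s ×ˢ s) (fun a => (M : ℤ) * c a.1 a.2)
    ((M : ℤ) * n₁) ((M : ℤ) * n₂) (fun a => S.tp a.1) (fun a => S.tp a.2) (S.tp S.pP) (S.tp S.pY)
    (d := fun a => Dg.degPt S.V 2 a.1) (d' := fun a => Dg.degPt S.V 2 a.2)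
    (fun a ha => hd a.1 (Finset.mem_product.1 ha).1)
    (fun a ha => hd a.2 (Finset.mem_product.1 ha).2) he hε h1
  exact ⟨(mul_eq_zero.1 h2).resolve_left hM', (mul_eq_zero.1 h3).resolve_left hM'⟩

lemma kill_auxH {H : AddSubgroup (Cycles S.V 2)} (hH : ∀ x ∈ H, S.sp 2 x ∈ RatZero S.W 2) {m : ℕ}
    (hm : 1 ≤ m) {a b n₁ n₂ : ℤ}
    (h : (m : ℤ) • (a • S.sqA - b • boxC S.V ![S.ds, S.ds]) +
      n₁ • box S.V ![S.pP, S.pY] + n₂ • box S.V ![S.pY, S.pP] ∈ H) :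
    a • S.sqA - b • boxC S.V ![S.ds, S.ds] ∈ torCl H := by
  classical
  have h1 : (m : ℤ) • (a • S.sqA - b • boxC S.V ![S.ds, S.ds]) =
      ∑ C ∈ S.dA.support ∪ S.ds.support, ∑ C' ∈ S.dA.support ∪ S.ds.support,
        (m * ((if C = C' then a * (S.dA C * S.G C) else 0) - b * (S.ds C * S.ds C')) : ℤ) •
          box S.V ![C, C'] := by
    rw [S.sqA_sum (Finset.subset_union_left (s₂ := S.ds.support)),
      boxC_sum (Finset.subset_union_right (s₁ := S.dA.support))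
        (Finset.subset_union_right (s₁ := S.dA.support)), Finset.smul_sum, Finset.smul_sum,
      ← Finset.sum_sub_distrib, Finset.smul_sum]
    refine Finset.sum_congr rfl fun C hC => ?_
    have h2 : ∀ C' ∈ S.dA.support ∪ S.ds.support,
        (m * ((if C = C' then a * (S.dA C * S.G C) else 0) - b * (S.ds C * S.ds C')) : ℤ) •
          box S.V ![C, C'] = (if C = C' then (m * (a * (S.dA C * S.G C)) : ℤ) •
            box S.V ![C, C'] else 0) - (m : ℤ) • b • (S.ds C * S.ds C') • box S.V ![C, C'] := by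
      intro C' _
      split_ifs
      · module
      · module
    rw [Finset.sum_congr rfl h2, Finset.sum_sub_distrib, Finset.sum_ite_eq, if_pos hC, smul_sub,
      Finset.smul_sum, Finset.smul_sum, smul_smul, smul_smul, mul_assoc]
  have h3 := S.killH hH (S.dA.support ∪ S.ds.support) (by
    intro C hC
    rcases Finset.mem_union.1 hC with hC | hC
    · exact (S.degPt_dA hC).1
    · exact S.hasRk_of_lev (S.lev_ds hC))
    (fun C C' => m * ((if C = C' then a * (S.dA C * S.G C) else 0) - b * (S.ds C * S.ds C')))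
    n₁ n₂ (by
      rw [← h1]
      exact le_torCl _ h)
  rw [h3.1, h3.2, zero_smul, zero_smul, add_zero, add_zero] at h
  refine torCl_of_smul hm (le_torCl _ ?_)
  rwa [natCast_zsmul] at h

/-! ### The relation -/

section relation

variable {F' : MvPolynomial (Fin 5) ℂ} (hF' : IsWeightedHomogeneous S.wt F' S.d)
  (hs : F' - S.F ∈ Ideal.span {(X 3 : MvPolynomial (Fin 5) ℂ)}) (hE : S.RelE F')

include hF' hs hE in
/-- **(★)** -/
theorem starP : ((S.p : ℤ) * S.d) • S.sqA - ((S.r : ℤ) * S.k * S.q) • boxC S.V ![S.ds, S.ds] ∈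
    torCl (S.HP F') := by
  obtain ⟨m, n₁, n₂, hm, h⟩ := S.star_auxH (S.hE_HP hE) (S.hU_HP hF' hs)
  exact S.kill_auxH (fun x hx => S.HP_le hx) hm h

/-- the ideal of the section -/
lemma one_le_pY : Kp.oneIdeal S.F ≤ S.pY.I := by
  rw [Kp.oneIdeal_le]
  exact Ideal.subset_span (Or.inr rfl)

include hs in
lemma one_le_pY' : Kp.oneIdeal F' ≤ S.pY.I := by
  rw [Kp.oneIdeal_le]
  obtain ⟨G, hG⟩ := Ideal.mem_span_singleton.1 hs
  have h2 : F' = S.F + X 3 * G := by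
    rw [← hG]
    ring
  rw [h2, map_add, map_mul]
  exact add_mem (Ideal.subset_span (Or.inr rfl))
    (Ideal.mul_mem_right _ _ (Ideal.subset_span (Or.inl rfl)))

/-- a cycle supported on the section -/
def OnY (D : Cycles S.V 1) : Prop := ∀ Q ∈ D.support, S.pY.I ≤ Q.I

lemma onY_of_codimOne {D : Cycles S.V 1} (h : ∀ Q ∈ D.support, CodimOne S.pY.I Q.I) : S.OnY D :=
  fun Q hQ => (h Q hQ).1.le

lemma OnY.add {D E : Cycles S.V 1} (hD : S.OnY D) (hE : S.OnY E) : S.OnY (D + E) := by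
  classical
  intro Q hQ
  rcases Finset.mem_union.1 (Finsupp.support_add hQ) with h | h
  · exact hD Q h
  · exact hE Q h

lemma OnY.smul {D : Cycles S.V 1} (hD : S.OnY D) (n : ℤ) : S.OnY (n • D) := fun Q hQ =>
  hD Q (Finsupp.support_smul hQ)

lemma OnY.neg {D : Cycles S.V 1} (hD : S.OnY D) : S.OnY (-D) := fun Q hQ =>
  hD Q (by rwa [Finsupp.support_neg] at hQ)

lemma onY_dA : S.OnY S.dA := fun _ hQ => (S.mem_dA.1 hQ).1.1.le

lemma onY_ds : S.OnY S.ds := fun Q hQ => by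
  have h := Finsupp.mem_support_iff.1 hQ
  exact (S.ds_ne_zero h).1.1.le

lemma onHyp_sp (D : Cycles S.V 1) : Kp.OnHyp S.W S.F (S.sp 1 D) := onHyp_spC D

include hs in
lemma onHyp_sp' {D : Cycles S.V 1} (hD : S.OnY D) : Kp.OnHyp S.W F' (S.sp 1 D) := by
  classical
  intro Q hQ
  have hQ' : Q ∈ (Finsupp.mapDomain (toSpace (wt := S.wt) (F := S.F)) D).support := hQ
  obtain ⟨Q', hQ'', rfl⟩ := Finset.mem_image.1 (Finsupp.mapDomain_support hQ')
  exact (S.one_le_pY' hs).trans (hD Q' hQ'')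

/-- relations on `Y` are relations on `X` and on `X'` -/
lemma sp_RY {x : Cycles S.V 1} (hx : x ∈ torCl S.RY) :
    S.sp 1 x ∈ torCl (RatOn S.W (Kp.oneIdeal S.F)) :=
  mem_torCl_map (S.sp 1) (fun _ h => Kp.RatOn_mono _ S.one_le_pY (S.sp_mem h)) hx

include hs in
lemma sp_RY' {x : Cycles S.V 1} (hx : x ∈ torCl S.RY) :
    S.sp 1 x ∈ torCl (RatOn S.W (Kp.oneIdeal F')) :=
  mem_torCl_map (S.sp 1) (fun _ h => Kp.RatOn_mono _ (S.one_le_pY' hs) (S.sp_mem h)) hx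

lemma mem_torCl_HP {x : Cycles S.V 2} (hx : S.sp 2 x ∈ torCl (RatOn S.W (pairIdeal S.F F'))) :
    x ∈ torCl (S.HP F') := by
  obtain ⟨k, hk, hx⟩ := hx
  refine ⟨k, hk, ?_⟩
  rw [mem_HP, map_nsmul]
  exact hx

lemma sp_torCl_HP {x : Cycles S.V 2} (hx : x ∈ torCl (S.HP F')) :
    S.sp 2 x ∈ torCl (RatOn S.W (pairIdeal S.F F')) :=
  mem_torCl_map (S.sp 2) (fun _ h => h) hx

include hs in
lemma bxY_left {x y : Cycles S.V 1} (hx : x ∈ torCl S.RY) (hy : S.OnY y) :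
    bx S.V x y ∈ torCl (S.HP F') := by
  refine S.mem_torCl_HP ?_
  rw [sp_bx]
  exact bxW_left (S.sp_RY hx) (S.onHyp_sp' hs hy)

include hs in
lemma bxY_right {x y : Cycles S.V 1} (hy : y ∈ torCl S.RY) :
    bx S.V x y ∈ torCl (S.HP F') := by
  refine S.mem_torCl_HP ?_
  rw [sp_bx]
  exact bxW_right (S.onHyp_sp x) (S.sp_RY' hs hy)

include hs in
/-- the divisors of `A` and of `s` are proportional -/
lemma ds_dAP : ((S.k : ℤ) * S.k) • boxC S.V ![S.ds, S.ds] -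
    ((S.p : ℤ) * S.p) • boxC S.V ![S.dA, S.dA] ∈ torCl (S.HP F') := by
  have h := le_torCl _ S.dA_dsOn
  have h1 := S.bxY_left hs h (OnY.smul S S.onY_ds (S.k : ℤ))
  have h2 := S.bxY_right hs (x := (S.p : ℤ) • S.dA) h
  have h3 := neg_mem (add_mem h1 h2)
  rw [← bx_apply, ← bx_apply]
  have h4 : ((S.k : ℤ) * S.k) • bx S.V S.ds S.ds - ((S.p : ℤ) * S.p) • bx S.V S.dA S.dA =
      -(bx S.V ((S.p : ℤ) • S.dA - (S.k : ℤ) • S.ds) ((S.k : ℤ) • S.ds) +
        bx S.V ((S.p : ℤ) • S.dA) ((S.p : ℤ) • S.dA - (S.k : ℤ) • S.ds)) := by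
    simp only [map_sub, LinearMap.sub_apply, map_smul, LinearMap.smul_apply, smul_sub, smul_smul]
    rw [mul_comm (S.k : ℤ) (S.p : ℤ)]
    abel
  rw [h4]
  exact h3

include hF' hs hE in
/-- **The quadratic relation.** -/
theorem quadP : ((S.k : ℤ) * S.d) • S.sqA - ((S.p : ℤ) * S.q * S.r) • boxC S.V ![S.dA, S.dA] ∈
    torCl (S.HP F') := by
  refine torCl_of_smul (k := S.p) S.hp ?_
  rw [← natCast_zsmul]
  have h2 : (S.p : ℤ) • (((S.k : ℤ) * S.d) • S.sqA -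
      ((S.p : ℤ) * S.q * S.r) • boxC S.V ![S.dA, S.dA]) =
      (S.k : ℤ) • (((S.p : ℤ) * S.d) • S.sqA -
        ((S.r : ℤ) * S.k * S.q) • boxC S.V ![S.ds, S.ds]) +
      ((S.r : ℤ) * S.q) • (((S.k : ℤ) * S.k) • boxC S.V ![S.ds, S.ds] -
        ((S.p : ℤ) * S.p) • boxC S.V ![S.dA, S.dA]) := by
    module
  rw [h2]
  exact add_mem (AddSubgroup.zsmul_mem _ (S.starP hF' hs hE) _)
    (AddSubgroup.zsmul_mem _ (S.ds_dAP hs) _)

include hF' hs hE in
/-- **The combination of the squares of the differences is torsion on `X × X'`.** -/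
theorem squaresP : ∑ C ∈ S.dA.support, ∑ C' ∈ S.dA.support, S.cC C C' •
    extPow S.V (S.eC C - S.eC C') 2 ∈ torCl (S.HP F') := by
  have h1 := S.quadP hF' hs hE
  have hp := S.hp
  have hq := S.hq
  have hr := S.hr
  have hv : ((S.p : ℤ) * S.q * S.r) ≠ 0 := by positivity
  refine torCl_of_zsmul hv ?_
  have h2 : ∑ C ∈ S.dA.support, ∑ C' ∈ S.dA.support, S.cC C C' •
      extPow S.V (S.eC C - S.eC C') 2 =
      (2 * (S.PG : ℤ)) • (S.kap • S.sqA - (S.PG : ℤ) • boxC S.V ![S.dA, S.dA]) := by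
    have h3 := sum_pairs S.V S.dA.support S.dA (fun C => (S.G C : ℤ)) (fun C => (S.gC C : ℤ))
      S.PG (fun C hC => by exact_mod_cast S.G_mul_gC hC)
    rw [← sum_single S.dA] at h3
    exact h3
  rw [h2]
  have h4 : ((S.p : ℤ) * S.q * S.r) • (2 * (S.PG : ℤ)) • (S.kap • S.sqA -
      (S.PG : ℤ) • boxC S.V ![S.dA, S.dA]) =
      (2 * (S.PG : ℤ) * S.PG) • (((S.k : ℤ) * S.d) • S.sqA -
        ((S.p : ℤ) * S.q * S.r) • boxC S.V ![S.dA, S.dA]) := by
    rw [smul_sub, smul_sub, smul_sub, smul_smul, smul_smul, smul_smul, smul_smul, smul_smul,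
      smul_smul]
    congr 1
    · congr 1
      linear_combination (2 * (S.PG : ℤ)) * S.kap_eq
    · congr 1
      ring
  rw [h4]
  exact AddSubgroup.zsmul_mem _ h1 _

end relation

end MD

end Pool.Agent.RCH.Mn
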