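import Pool.Agent.RCH.Pn6

/-!
# Rank one: the products of the cycles of degree zero, modulo subgroups
-/

set_option autoImplicit false

open MvPolynomial

namespace Pool.Agent.RCH.Mn

section abs

variable {A U : Type} [AddCommGroup A] [AddCommGroup U]

/-- A bilinear map `β` from the cycles to the cycles on a product, the cycles `O`, `O'` on the two
factors, those which are torsion on the two factors (`R`, `R'`), on a common part `Y` (`RY`), and on the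
product (`K`). -/
structure Rk (A U : Type) [AddCommGroup A] [AddCommGroup U] where
  β : A →ₗ[ℤ] A →ₗ[ℤ] U
  O : AddSubgroup A
  O' : AddSubgroup A
  R : AddSubgroup A
  R' : AddSubgroup A
  RY : AddSubgroup A
  K : AddSubgroup U
  left : ∀ x ∈ R, ∀ y ∈ O', β x y ∈ K
  right : ∀ x ∈ O, ∀ y ∈ R', β x y ∈ K
  RY_le : RY ≤ R
  RY_le' : RY ≤ R'
  torR : ∀ (v : ℤ) (x : A), v ≠ 0 → v • x ∈ R → x ∈ R
  torR' : ∀ (v : ℤ) (x : A), v ≠ 0 → v • x ∈ R' → x ∈ R'
  torRY : ∀ (v : ℤ) (x : A), v ≠ 0 → v • x ∈ RY → x ∈ RY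
  torK : ∀ (v : ℤ) (x : U), v ≠ 0 → v • x ∈ K → x ∈ K

namespace Rk

variable (T : Rk A U) {κ : Type}

/-- the square of an element with a multiple equal to a multiple of `δ` modulo `RY` -/
lemma square_sub {x δ : A} (hx : x ∈ T.O') (hδ : δ ∈ T.O) {a b : ℤ}
    (h : a • x - b • δ ∈ T.RY) : (a ^ 2) • T.β x x - (b ^ 2) • T.β δ δ ∈ T.K := by
  have h1 := T.left _ (T.RY_le h) (a • x) (AddSubgroup.zsmul_mem _ hx a)
  have h2 := T.right (b • δ) (AddSubgroup.zsmul_mem _ hδ b) _ (T.RY_le' h)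
  have h3 : (a ^ 2) • T.β x x - (b ^ 2) • T.β δ δ =
      T.β (a • x - b • δ) (a • x) + T.β (b • δ) (a • x - b • δ) := by
    simp only [map_sub, LinearMap.sub_apply, map_smul, LinearMap.smul_apply, smul_sub, smul_smul]
    rw [sq, sq]
    abel
  rw [h3]
  exact add_mem h1 h2

/-- **Rank one.** If the differences are multiples of `δ` and a combination of their squares with
positive coefficients is torsion, then the square of `δ` is torsion, or all the differences are. -/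
theorem rank_one (s : Finset κ) (c : κ → κ → ℤ) (hc : ∀ C ∈ s, ∀ C' ∈ s, 0 < c C C')
    (e : κ → A) (δ : A) (heO : ∀ C ∈ s, e C ∈ T.O') (hδO : δ ∈ T.O)
    {a : ℤ} (ha : a ≠ 0) (b : κ → κ → ℤ)
    (hb : ∀ C ∈ s, ∀ C' ∈ s, a • (e C - e C') - b C C' • δ ∈ T.RY)
    (h : ∑ C ∈ s, ∑ C' ∈ s, c C C' • T.β (e C - e C') (e C - e C') ∈ T.K) :
    T.β δ δ ∈ T.K ∨ ∀ C ∈ s, ∀ C' ∈ s, e C - e C' ∈ T.RY := by
  by_cases h0 : ∀ C ∈ s, ∀ C' ∈ s, b C C' = 0
  · right
    intro C hC C' hC'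
    have h1 := hb C hC C' hC'
    rw [h0 C hC C' hC', zero_smul, sub_zero] at h1
    exact T.torRY _ _ ha h1
  · left
    push Not at h0
    obtain ⟨D, hD, D', hD', hne⟩ := h0
    have h1 : ∑ C ∈ s, ∑ C' ∈ s, c C C' • ((a ^ 2) • T.β (e C - e C') (e C - e C') -
        (b C C' ^ 2) • T.β δ δ) ∈ T.K := by
      refine sum_mem fun C hC => sum_mem fun C' hC' => AddSubgroup.zsmul_mem _ ?_ _
      exact T.square_sub (sub_mem (heO C hC) (heO C' hC')) hδO (hb C hC C' hC')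
    have h2 : ∑ C ∈ s, ∑ C' ∈ s, c C C' • ((a ^ 2) • T.β (e C - e C') (e C - e C') -
        (b C C' ^ 2) • T.β δ δ) =
        (a ^ 2) • ∑ C ∈ s, ∑ C' ∈ s, c C C' • T.β (e C - e C') (e C - e C') -
        (∑ C ∈ s, ∑ C' ∈ s, c C C' * b C C' ^ 2) • T.β δ δ := by
      simp only [smul_sub, Finset.sum_sub_distrib, Finset.smul_sum, Finset.sum_smul, smul_smul]
      congr 1
      refine Finset.sum_congr rfl fun C _ => Finset.sum_congr rfl fun C' _ => ?_
      rw [mul_comm]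
    rw [h2] at h1
    have h3 := sub_mem (AddSubgroup.zsmul_mem _ h (a ^ 2)) h1
    rw [sub_sub_cancel] at h3
    refine T.torK _ _ ?_ h3
    have h4 : 0 < ∑ C ∈ s, ∑ C' ∈ s, c C C' * b C C' ^ 2 := by
      refine Finset.sum_pos' (fun C hC => Finset.sum_nonneg fun C' hC' =>
        mul_nonneg (hc C hC C' hC').le (sq_nonneg _)) ⟨D, hD, ?_⟩
      exact Finset.sum_pos' (fun C' hC' => mul_nonneg (hc D hD C' hC').le (sq_nonneg _))
        ⟨D', hD', mul_pos (hc D hD D' hD') (by positivity)⟩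
    exact h4.ne'

/-- a common multiple for finitely many pairs -/
lemma common (s : Finset κ) (e : κ → A) (δ : A)
    (h : ∀ C ∈ s, ∀ C' ∈ s, ∃ a : ℕ, 1 ≤ a ∧ ∃ b : ℤ, a • (e C - e C') - b • δ ∈ T.RY) :
    ∃ a : ℕ, 1 ≤ a ∧ ∀ C ∈ s, ∀ C' ∈ s, ∃ b : ℤ, a • (e C - e C') - b • δ ∈ T.RY := by
  classical
  choose! a ha b hb using h
  refine ⟨∏ C ∈ s, ∏ C' ∈ s, a C C', ?_, fun C hC C' hC' => ?_⟩
  · exact Nat.one_le_iff_ne_zero.2 (Finset.prod_ne_zero_iff.2 fun C hC =>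
      Finset.prod_ne_zero_iff.2 fun C' hC' => Nat.one_le_iff_ne_zero.1 (ha C hC C' hC'))
  · have h1 : a C C' ∣ ∏ C ∈ s, ∏ C' ∈ s, a C C' :=
      (Finset.dvd_prod_of_mem (fun C' => a C C') hC').trans
        (Finset.dvd_prod_of_mem (fun C => ∏ C' ∈ s, a C C') hC)
    obtain ⟨k, hk⟩ := h1
    refine ⟨k * b C C', ?_⟩
    rw [hk, mul_comm, mul_smul, mul_smul, natCast_zsmul, ← smul_sub]
    exact AddSubgroup.nsmul_mem _ (hb C hC C' hC') k

/-- a combination of degree zero is a multiple of `δ` -/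
lemma mult_of_comb {Q : AddSubgroup A} (hQ : T.RY ≤ Q) (s : Finset κ) (e : κ → A) (δ : A) {a : ℤ}
    (b : κ → κ → ℤ) (hb : ∀ C ∈ s, ∀ C' ∈ s, a • (e C - e C') - b C C' • δ ∈ T.RY)
    {x : A} {M : ℤ} (m : κ → ℤ) (hm : ∑ C ∈ s, m C = 0) (hx : M • x - ∑ C ∈ s, m C • e C ∈ Q) :
    ∃ n : ℤ, (a * M) • x - n • δ ∈ Q := by
  rcases s.eq_empty_or_nonempty with h0 | ⟨C₀, h0⟩
  · subst h0
    rw [Finset.sum_empty, sub_zero] at hx
    refine ⟨0, ?_⟩
    rw [zero_smul, sub_zero, mul_smul]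
    exact AddSubgroup.zsmul_mem _ hx _
  · refine ⟨∑ C ∈ s, m C * b C C₀, ?_⟩
    have h1 : ∑ C ∈ s, m C • e C = ∑ C ∈ s, m C • (e C - e C₀) := by
      simp only [smul_sub, Finset.sum_sub_distrib]
      rw [← Finset.sum_smul, hm, zero_smul, sub_zero]
    have h4 : (a * M) • x - (∑ C ∈ s, m C * b C C₀) • δ =
        a • (M • x - ∑ C ∈ s, m C • e C) +
          ∑ C ∈ s, m C • (a • (e C - e C₀) - b C C₀ • δ) := by
      rw [h1]
      have h5 : ∀ C, m C • (a • (e C - e C₀) - b C C₀ • δ) =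
          a • (m C • (e C - e C₀)) - (m C * b C C₀) • δ := by
        intro C
        rw [smul_sub, smul_smul, smul_smul, smul_smul, mul_comm (m C) a]
      simp only [h5, Finset.sum_sub_distrib]
      rw [← Finset.smul_sum, ← Finset.sum_smul]
      module
    rw [h4]
    exact add_mem (AddSubgroup.zsmul_mem _ hx _) (sum_mem fun C hC =>
      AddSubgroup.zsmul_mem _ (hQ (hb C hC C₀ h0)) _)

/-- **Rank one, the products of the cycles of degree zero.** -/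
theorem product (s : Finset κ) (c : κ → κ → ℤ) (hc : ∀ C ∈ s, ∀ C' ∈ s, 0 < c C C')
    (e : κ → A) (δ : A) (heO : ∀ C ∈ s, e C ∈ T.O') (hδO : δ ∈ T.O)
    (hδ : ∀ C ∈ s, ∀ C' ∈ s, ∃ a : ℕ, 1 ≤ a ∧ ∃ b : ℤ, a • (e C - e C') - b • δ ∈ T.RY)
    (h : ∑ C ∈ s, ∑ C' ∈ s, c C C' • T.β (e C - e C') (e C - e C') ∈ T.K)
    {x y : A} (hyO : y ∈ T.O') {M M' : ℤ} (hM : M ≠ 0) (hM' : M' ≠ 0) (m m' : κ → ℤ)
    (hm : ∑ C ∈ s, m C = 0) (hm' : ∑ C ∈ s, m' C = 0)
    (hx : M • x - ∑ C ∈ s, m C • e C ∈ T.R) (hy : M' • y - ∑ C ∈ s, m' C • e C ∈ T.R') :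
    T.β x y ∈ T.K := by
  obtain ⟨a, ha, hab⟩ := T.common s e δ hδ
  choose! b hb using hab
  have ha0 : (a : ℤ) ≠ 0 := by exact_mod_cast (by omega : a ≠ 0)
  have hb' : ∀ C ∈ s, ∀ C' ∈ s, (a : ℤ) • (e C - e C') - b C C' • δ ∈ T.RY := by
    intro C hC C' hC'
    rw [natCast_zsmul]
    exact hb C hC C' hC'
  rcases T.rank_one s c hc e δ heO hδO ha0 b hb' h with h2 | h2
  · obtain ⟨n, hn⟩ := T.mult_of_comb T.RY_le s e δ b hb' m hm hx
    obtain ⟨n', hn'⟩ := T.mult_of_comb T.RY_le' s e δ b hb' m' hm' hy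
    refine T.torK (((a : ℤ) * M) * ((a : ℤ) * M')) _
      (mul_ne_zero (mul_ne_zero ha0 hM) (mul_ne_zero ha0 hM')) ?_
    have h3 : (((a : ℤ) * M) * ((a : ℤ) * M')) • T.β x y =
        T.β (((a : ℤ) * M) • x - n • δ) (((a : ℤ) * M') • y) +
        (T.β (n • δ) (((a : ℤ) * M') • y - n' • δ) + (n * n') • T.β δ δ) := by
      simp only [map_sub, LinearMap.sub_apply, map_smul, LinearMap.smul_apply, smul_sub, smul_smul]
      module
    rw [h3]
    exact add_mem (T.left _ hn _ (AddSubgroup.zsmul_mem _ hyO _))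
      (add_mem (T.right _ (AddSubgroup.zsmul_mem _ hδO _) _ hn') (AddSubgroup.zsmul_mem _ h2 _))
  · refine T.left x (T.torR M x hM ?_) y hyO
    have h4 : ∑ C ∈ s, m C • e C ∈ T.R := by
      rcases s.eq_empty_or_nonempty with h0 | ⟨C₀, h0⟩
      · subst h0
        rw [Finset.sum_empty]
        exact zero_mem _
      · have h1 : ∑ C ∈ s, m C • e C = ∑ C ∈ s, m C • (e C - e C₀) := by
          simp only [smul_sub, Finset.sum_sub_distrib]
          rw [← Finset.sum_smul, hm, zero_smul, sub_zero]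
        rw [h1]
        exact sum_mem fun C hC => AddSubgroup.zsmul_mem _ (T.RY_le (h2 C hC C₀ h0)) _
    have h5 := add_mem hx h4
    rwa [sub_add_cancel] at h5

end Rk

end abs

end Pool.Agent.RCH.Mn
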