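import Pool.Agent.RCH.Pn7
import Pool.Agent.RCH.MZF

/-!
# The products of the cycles of degree zero on two hypersurfaces with the same section
-/

set_option autoImplicit false

open MvPolynomial

namespace Pool.Agent.RCH.Mn

lemma coeff_four_of_mem {f : MvPolynomial (Fin 5) ℂ}
    (h : f ∈ Ideal.span {(X 3 : MvPolynomial (Fin 5) ℂ)}) (n : ℕ) :
    coeff (Finsupp.single 4 n) f = 0 := by
  classical
  obtain ⟨g, rfl⟩ := Ideal.mem_span_singleton.1 h
  rw [coeff_X_mul', if_neg]
  intro h3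
  rw [Finsupp.mem_support_iff, Finsupp.single_apply, if_neg (by decide)] at h3
  exact h3 rfl

/-- the cycles supported on the hypersurface `F = 0` -/
def onSub (X : WVar (Fin 5)) (F : MvPolynomial (Fin 5) ℂ) : AddSubgroup (Cycles X 1) where
  carrier := {D | Kp.OnHyp X F D}
  add_mem' := by
    classical
    intro D E hD hE Q hQ
    rcases Finset.mem_union.1 (Finsupp.support_add hQ) with h | h
    · exact hD Q h
    · exact hE Q h
  zero_mem' := by
    intro Q hQ
    simp at hQ
  neg_mem' := by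
    intro D hD Q hQ
    exact hD Q (by rwa [Finsupp.support_neg] at hQ)

namespace MD

variable (S : MD)

/-- the gcd of the weights of the coordinates `s, t, y` which are not zero at the point -/
noncomputable def GW (P : Pt S.W 1) : ℕ := by
  classical
  exact (if (X (0, 1) : Coord (Fin 5) 1) ∈ P.I then 0 else S.p).gcd
    ((if (X (0, 2) : Coord (Fin 5) 1) ∈ P.I then 0 else S.q).gcd
      (if (X (0, 4) : Coord (Fin 5) 1) ∈ P.I then 0 else S.r))

lemma GW_tp (C : Pt S.V 1) : S.GW (S.tp C) = S.G C := rfl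

/-- the multiple of the curve, in the weighted projective space -/
noncomputable def eW (P : Pt S.W 1) : Cycles S.W 1 := (S.GW P : ℤ) • Finsupp.single P 1

lemma sp_eC (C : Pt S.V 1) : S.sp 1 (S.eC C) = S.eW (S.tp C) := by
  rw [eC, map_zsmul, sp_single, eW, GW_tp]

/-- the curves, in the weighted projective space -/
noncomputable def TW : Finset (Pt S.W 1) := by
  classical
  exact S.dA.support.image S.tp

lemma tp_injective (N : ℕ) : Function.Injective (S.tp : Pt S.V N → Pt S.W N) :=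
  toSpace_injective S.wt S.F N

lemma mem_TW {P : Pt S.W 1} : P ∈ S.TW ↔ ∃ a : Fin 3 → ℂ, a ≠ 0 ∧ eval a S.A = 0 ∧
    eval a S.B = 0 ∧ P.I = RingHom.ker (S.coneHom a) := by
  classical
  rw [TW, Finset.mem_image]
  constructor
  · rintro ⟨C, hC, rfl⟩
    exact S.dA_cone.1 hC
  · rintro ⟨a, ha, hA, hB, hP⟩
    obtain ⟨C, hC⟩ := MZ.exists_cone S hA hB
    exact ⟨C, S.dA_cone.2 ⟨a, ha, hA, hB, hC⟩, Pt.ext' _ (hC.trans hP.symm)⟩

lemma sum_TW {M : Type} [AddCommMonoid M] (f : Pt S.W 1 → M) :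
    ∑ C ∈ S.dA.support, f (S.tp C) = ∑ P ∈ S.TW, f P := by
  classical
  rw [TW, Finset.sum_image fun P _ Q _ h => S.tp_injective 1 h]

section pair

variable (F' : MvPolynomial (Fin 5) ℂ) (hF' : IsWeightedHomogeneous S.wt F' S.d)
  (hs : F' - S.F ∈ Ideal.span {(X 3 : MvPolynomial (Fin 5) ℂ)})

/-- the same data with another form with the same restriction to the section -/
def withF : MD :=
  { S with
    F := F'
    hF := hF'
    monic := by
      have h := coeff_four_of_mem hs S.D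
      rw [coeff_sub, sub_eq_zero] at h
      rw [h]
      exact S.monic
    shape := by
      have h := add_mem hs S.shape
      rwa [sub_add_sub_cancel] at h }

lemma TW_withF : (S.withF F' hF' hs).TW = S.TW := by
  ext P
  exact ((S.withF F' hF' hs).mem_TW).trans S.mem_TW.symm

/-- the rank-one data of the product -/
noncomputable def rkP : Rk (Cycles S.W 1) (Cycles S.W 2) where
  β := bx S.W
  O := onSub S.W S.F
  O' := onSub S.W F'
  R := torCl (RatOn S.W (Kp.oneIdeal S.F))
  R' := torCl (RatOn S.W (Kp.oneIdeal F'))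
  RY := torCl (RatOn S.W S.pY.I)
  K := torCl (RatOn S.W (pairIdeal S.F F'))
  left := fun _ hx _ hy => bxW_left hx hy
  right := fun _ hx _ hy => bxW_right hx hy
  RY_le := torCl_mono (Kp.RatOn_mono _ S.one_le_pY)
  RY_le' := torCl_mono (Kp.RatOn_mono _ (S.one_le_pY' hs))
  torR := fun _ _ hv h => torCl_of_zsmul hv h
  torR' := fun _ _ hv h => torCl_of_zsmul hv h
  torRY := fun _ _ hv h => torCl_of_zsmul hv h
  torK := fun _ _ hv h => torCl_of_zsmul hv h

variable {F'}

include hF' hs in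
/-- the relation between the squares, in the weighted projective space -/
lemma squaresW (hE : S.RelE F') : ∑ C ∈ S.dA.support, ∑ C' ∈ S.dA.support, S.cC C C' •
    bx S.W (S.eW (S.tp C) - S.eW (S.tp C')) (S.eW (S.tp C) - S.eW (S.tp C')) ∈
      torCl (RatOn S.W (pairIdeal S.F F')) := by
  have h := S.sp_torCl_HP (S.squaresP hF' hs hE)
  have h1 : S.sp 2 (∑ C ∈ S.dA.support, ∑ C' ∈ S.dA.support, S.cC C C' •
      extPow S.V (S.eC C - S.eC C') 2) = ∑ C ∈ S.dA.support, ∑ C' ∈ S.dA.support, S.cC C C' •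
    bx S.W (S.eW (S.tp C) - S.eW (S.tp C')) (S.eW (S.tp C) - S.eW (S.tp C')) := by
    rw [map_sum]
    refine Finset.sum_congr rfl fun C _ => ?_
    rw [map_sum]
    refine Finset.sum_congr rfl fun C' _ => ?_
    rw [map_zsmul, extPow_two, sp_bx, map_sub, sp_eC, sp_eC]
  rw [← h1]
  exact h

/-- sums over the curves on the other hypersurface -/
lemma sum_withF {N : Type} [AddCommMonoid N] (f : Pt S.W 1 → N) :
    ∑ C' ∈ (S.withF F' hF' hs).dA.support, f ((S.withF F' hF' hs).tp C') =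
      ∑ C ∈ S.dA.support, f (S.tp C) :=
  ((S.withF F' hF' hs).sum_TW f).trans (by rw [TW_withF]; exact (S.sum_TW f).symm)

/-- the one-cycles on the other hypersurface, in the weighted projective space -/
noncomputable def spF : Cycles (S.withF F' hF' hs).V 1 →+ Cycles S.W 1 :=
  (S.withF F' hF' hs).sp 1

/-- a cycle of degree zero on the other hypersurface is a combination of the curves -/
lemma comb_withF {D' : Cycles (S.withF F' hF' hs).V 1}
    (hD' : ∀ Q ∈ D'.support, CodimOne (S.withF F' hF' hs).pY.I Q.I)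
    (h0' : Dg.deg (S.withF F' hF' hs).V 2 D' = 0) : ∃ M' : ℤ, M' ≠ 0 ∧ ∃ m : Pt S.W 1 → ℤ,
      ∑ C ∈ S.dA.support, m (S.tp C) = 0 ∧
      M' • S.spF hF' hs D' - ∑ C ∈ S.dA.support, m (S.tp C) • S.eW (S.tp C) ∈
        RatOn S.W (Kp.oneIdeal F') := by
  obtain ⟨M', hM', m', hm', h1'⟩ := (S.withF F' hF' hs).exists_combinationOn D' hD' h0'
  have hm₂ : ∀ C' : Pt (S.withF F' hF' hs).V 1,
      Function.extend (S.withF F' hF' hs).tp m' 0 ((S.withF F' hF' hs).tp C') = m' C' := fun C' =>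
    ((S.withF F' hF' hs).tp_injective 1).extend_apply m' 0 C'
  refine ⟨M', hM', Function.extend (S.withF F' hF' hs).tp m' 0, ?_, ?_⟩
  · rw [← hm', ← S.sum_withF hF' hs (Function.extend (S.withF F' hF' hs).tp m' 0)]
    exact Finset.sum_congr rfl fun C' _ => hm₂ C'
  · have h2 := (S.withF F' hF' hs).sp_mem h1'
    rw [map_sub, map_zsmul, map_sum] at h2
    simp only [map_zsmul, sp_eC] at h2
    have h3 : ∑ C' ∈ (S.withF F' hF' hs).dA.support,
        m' C' • (S.withF F' hF' hs).eW ((S.withF F' hF' hs).tp C') =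
        ∑ C ∈ S.dA.support, Function.extend (S.withF F' hF' hs).tp m' 0 (S.tp C) •
          S.eW (S.tp C) := by
      rw [← S.sum_withF hF' hs fun P => Function.extend (S.withF F' hF' hs).tp m' 0 P • S.eW P]
      refine Finset.sum_congr rfl fun C' _ => ?_
      change _ = Function.extend (S.withF F' hF' hs).tp m' 0 ((S.withF F' hF' hs).tp C') • _
      rw [hm₂]
      rfl
    rw [h3] at h2
    exact Kp.RatOn_mono _ (S.withF F' hF' hs).one_le_pY h2

/-- **The products of the one-cycles of degree zero on the section are torsion on `X × X'`.** -/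
theorem productP (hE : S.RelE F')
    (hδ : ∃ δ : Cycles S.V 1, ∀ C ∈ S.dA.support, ∀ C' ∈ S.dA.support, ∃ a : ℕ, 1 ≤ a ∧ ∃ b : ℤ,
      a • (S.eC C - S.eC C') - b • δ ∈ torCl S.RY)
    {D : Cycles S.V 1} {D' : Cycles (S.withF F' hF' hs).V 1}
    (hD : ∀ Q ∈ D.support, CodimOne S.pY.I Q.I)
    (hD' : ∀ Q ∈ D'.support, CodimOne (S.withF F' hF' hs).pY.I Q.I)
    (h0 : Dg.deg S.V 2 D = 0) (h0' : Dg.deg (S.withF F' hF' hs).V 2 D' = 0) :
    bx S.W (S.sp 1 D) (S.spF hF' hs D') ∈ torCl (RatOn S.W (pairIdeal S.F F')) := by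
  obtain ⟨δ, hδ⟩ := hδ
  obtain ⟨M, hM, m, hm, h1⟩ := S.exists_combinationOn D hD h0
  obtain ⟨M', hM', m', hm', h1'⟩ := S.comb_withF hF' hs hD' h0'
  refine (S.rkP F' hs).product (κ := Pt S.V 1) S.dA.support S.cC
    (fun C hC C' hC' => S.cC_pos hC hC') (fun C => S.eW (S.tp C)) (S.sp 1 δ) ?_ ?_ ?_
    (S.squaresW hF' hs hE) ?_ hM hM' m (fun C => m' (S.tp C)) hm hm' ?_ (le_torCl _ h1')
  · intro C hC
    change Kp.OnHyp S.W F' (S.eW (S.tp C))
    rw [← sp_eC]
    refine S.onHyp_sp' hs (fun Q hQ => ?_)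
    have h2 := Finsupp.support_smul hQ
    rw [Finset.mem_singleton.1 (Finsupp.support_single_subset h2)]
    exact (S.mem_dA.1 hC).1.1.le
  · exact S.onHyp_sp δ
  · intro C hC C' hC'
    obtain ⟨a, ha, b, h⟩ := hδ C hC C' hC'
    refine ⟨a, ha, b, ?_⟩
    have h2 := mem_torCl_map (K := RatOn S.W S.pY.I) (S.sp 1) (fun _ h => S.sp_mem h) h
    rw [map_sub, map_nsmul, map_sub, map_zsmul, sp_eC, sp_eC] at h2
    exact h2
  · exact (S.withF F' hF' hs).onHyp_sp D'
  · have h2 := S.sp_mem h1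
    rw [map_sub, map_zsmul, map_sum] at h2
    simp only [map_zsmul, sp_eC] at h2
    exact le_torCl _ (Kp.RatOn_mono _ S.one_le_pY h2)

end pair

end MD

end Pool.Agent.RCH.Mn
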