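import Pool.Agent.RCH.Pn8
import Pool.Agent.RCH.PnEq
import Pool.Agent.RCH.PnMem
import Pool.Agent.RCH.MnCon

/-!
# The relations on `X × X'`, with the orders of vanishing computed in the local rings
-/

set_option autoImplicit false

open MvPolynomial

namespace Pool.Agent.RCH.Mn

namespace MD

variable (S : MD)

lemma idx_tp {N : ℕ} (Q : Pt S.V N) : Wt.idx (S.tp Q) = Wt.idx Q := rfl

lemma unscale_sp {N : ℕ} (D : Cycles S.V N) :
    Wt.unscale S.W N (S.sp N D) = S.sp N (Wt.unscale S.V N D) := by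
  induction D using Finsupp.induction_linear with
  | zero => simp only [map_zero]
  | add x y hx hy => simp only [map_add, hx, hy]
  | single Q n =>
    rw [sp_single, Wt.unscale, Wt.unscale, Wt.mulFun_single, Wt.mulFun_single, sp_single, idx_tp]

lemma W_wt_pos : ∀ j, 0 < S.W.wt j := S.wt_pos

lemma ratEqW_of_torCl {N : ℕ} {J : Ideal (Coord (Fin 5) N)} {z : Cycles S.W N}
    (h : Wt.unscale S.W N z ∈ torCl (RatOn S.W J)) : ∃ M : ℕ, 1 ≤ M ∧ M • z ∈ RatEqOn S.W J := by
  obtain ⟨M, hM, h1⟩ := h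
  have h2 := Wt.scale_mem_on S.W_wt_pos h1
  rw [map_nsmul, Wt.scale_unscale S.W_wt_pos, smul_smul] at h2
  exact ⟨_, Nat.mul_pos hM (pow_pos (Finset.prod_pos fun j _ => S.W_wt_pos j) _), h2⟩

section pair

variable {F' : MvPolynomial (Fin 5) ℂ} (hF' : IsWeightedHomogeneous S.wt F' S.d)
  (hs : F' - S.F ∈ Ideal.span {(X 3 : MvPolynomial (Fin 5) ℂ)})

lemma crossProduct_eq (D : Cycles S.V 1) (D' : Cycles (S.withF F' hF' hs).V 1) :
    crossProduct (wt := S.wt) (F := S.F) (F' := F') D D' =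
      bx S.W (S.sp 1 D) (S.spF hF' hs D') := by
  rw [crossProduct, productCycle_eq]
  rfl

lemma unscale_bx (x y : Cycles S.W 1) : Wt.unscale S.W 2 (bx S.W x y) =
    bx S.W (Wt.unscale S.W 1 x) (Wt.unscale S.W 1 y) := by
  rw [bx_apply, unscale_boxC, bx_apply]
  congr 1
  funext i
  fin_cases i <;> rfl

include hF' hs in
/-- **The products of the one-cycles of degree zero.** -/
theorem crossTorsion (hE : S.RelE F')
    (hδ : ∃ δ : Cycles S.V 1, ∀ C ∈ S.dA.support, ∀ C' ∈ S.dA.support, ∃ a : ℕ, 1 ≤ a ∧ ∃ b : ℤ,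
      a • (S.eC C - S.eC C') - b • δ ∈ torCl S.RY) : CrossTorsion S.wt S.F F' := by
  intro D D' hD hD' h0 h0'
  change ∃ M : ℕ, 1 ≤ M ∧ M • crossProduct (wt := S.wt) (F := S.F) (F' := F') D D' ∈
    RatEqOn S.W (pairIdeal S.F F')
  rw [S.crossProduct_eq hF' hs D D']
  refine S.ratEqW_of_torCl ?_
  rw [unscale_bx, unscale_sp]
  have e : Wt.unscale S.W 1 (S.spF hF' hs D') =
      S.spF hF' hs (Wt.unscale (S.withF F' hF' hs).V 1 D') := (S.withF F' hF' hs).unscale_sp D'
  rw [e]
  exact S.productP hF' hs hE hδ (fun Q hQ => hD Q (Wt.support_unscale D hQ))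
    (fun Q hQ => hD' Q (Wt.support_unscale D' hQ)) (S.deg_unscale_zero hD h0)
    ((S.withF F' hF' hs).deg_unscale_zero hD' h0')

/-- the same curve on the other hypersurface -/
noncomputable def other (C : Pt S.V 1) : Pt (S.withF F' hF' hs).V 1 := by
  classical
  exact if h : ∃ C' : Pt (S.withF F' hF' hs).V 1, C'.I = C.I then h.choose
    else (S.withF F' hF' hs).pY

lemma other_I {C : Pt S.V 1} (hC : C ∈ S.dA.support) : (S.other hF' hs C).I = C.I := by
  have h : ∃ C' : Pt (S.withF F' hF' hs).V 1, C'.I = C.I := by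
    obtain ⟨a, ha, hA, hB, hI⟩ := S.dA_cone.1 hC
    obtain ⟨C', hC'⟩ := MZ.exists_cone (S.withF F' hF' hs) hA hB
    exact ⟨C', hC'.trans hI.symm⟩
  rw [other, dif_pos h]
  exact h.choose_spec

lemma spF_other {C : Pt S.V 1} (hC : C ∈ S.dA.support) (n : ℤ) :
    S.spF hF' hs (Finsupp.single (S.other hF' hs C) n) = Finsupp.single (S.tp C) n := by
  have h1 : S.spF hF' hs (Finsupp.single (S.other hF' hs C) n) =
      Finsupp.single ((S.withF F' hF' hs).tp (S.other hF' hs C)) n :=
    (S.withF F' hF' hs).sp_single _ n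
  rw [h1]
  congr 1
  exact Pt.ext' _ (S.other_I hF' hs hC)

/-- **The relation between the squares.** -/
theorem crossRelation (hE : S.RelE F') :
    CrossRelation S.wt S.F F' S.dA.support (S.other hF' hs) := by
  have hW : 0 < ∏ j, S.V.wt j := Finset.prod_pos fun j _ => S.wt_pos j
  have hN : (0 : ℝ) < S.N := by exact_mod_cast S.hN
  have hcc : ∀ E ∈ S.dA.support, (((S.dA E * (S.gC E : ℤ)).toNat : ℕ) : ℤ) =
      S.dA E * (S.gC E : ℤ) := by
    intro E hE'
    have h2 := S.dA_pos hE'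
    exact Int.toNat_of_nonneg (by positivity)
  refine ⟨S.mC, fun C => (S.dA C * (S.gC C : ℤ)).toNat,
    ((∏ j, S.V.wt j : ℕ) : ℝ) ^ 2 / S.N, by positivity, fun C hC => ⟨?_, ?_⟩, ?_⟩
  · have h1 := S.dA_pos hC
    have h2 : (0 : ℤ) < S.gC C := by exact_mod_cast S.gC_pos hC
    have h3 := mul_pos h1 h2
    show 1 ≤ (S.dA C * (S.gC C : ℤ)).toNat
    omega
  · rw [eq_div_iff hN.ne']
    exact S.mC_degree hC
  · -- the relation in the weighted projective space
    have h1 : ∑ C ∈ S.dA.support, ∑ C' ∈ S.dA.support,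
        ((S.dA C * (S.gC C : ℤ)).toNat * (S.dA C' * (S.gC C' : ℤ)).toNat) •
        crossProduct (wt := S.wt) (F := S.F) (F' := F')
          (S.mC C • Finsupp.single C 1 - S.mC C' • Finsupp.single C' 1)
          (S.mC C • Finsupp.single (S.other hF' hs C) 1 -
            S.mC C' • Finsupp.single (S.other hF' hs C') 1) =
        ∑ C ∈ S.dA.support, ∑ C' ∈ S.dA.support, S.cC C C' •
          bx S.W (S.sp 1 ((S.mC C : ℤ) • Finsupp.single C 1 - (S.mC C' : ℤ) • Finsupp.single C' 1))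
            (S.sp 1 ((S.mC C : ℤ) • Finsupp.single C 1 -
              (S.mC C' : ℤ) • Finsupp.single C' 1)) := by
      refine Finset.sum_congr rfl fun C hC => Finset.sum_congr rfl fun C' hC' => ?_
      rw [← natCast_zsmul (crossProduct _ _), Nat.cast_mul, hcc C hC, hcc C' hC']
      have e1 : S.dA C * (S.gC C : ℤ) * (S.dA C' * (S.gC C' : ℤ)) = S.cC C C' := by
        rw [cC]
        ring
      rw [e1]
      congr 1
      have e2 := S.crossProduct_eq hF' hs
        (S.mC C • Finsupp.single C 1 - S.mC C' • Finsupp.single C' 1)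
        (S.mC C • Finsupp.single (S.other hF' hs C) 1 -
            S.mC C' • Finsupp.single (S.other hF' hs C') 1)
      have e3 : S.spF hF' hs (S.mC C • Finsupp.single (S.other hF' hs C) 1 -
            S.mC C' • Finsupp.single (S.other hF' hs C') 1) =
          S.sp 1 ((S.mC C : ℤ) • Finsupp.single C 1 - (S.mC C' : ℤ) • Finsupp.single C' 1) := by
        rw [map_sub, map_nsmul, map_nsmul, S.spF_other hF' hs hC, S.spF_other hF' hs hC', map_sub,
          map_zsmul, map_zsmul, sp_single, sp_single, natCast_zsmul, natCast_zsmul]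
      rw [e3] at e2
      rw [natCast_zsmul, natCast_zsmul] at e2 ⊢
      exact e2
    suffices h3 : ∃ M : ℕ, 1 ≤ M ∧ M • (∑ C ∈ S.dA.support, ∑ C' ∈ S.dA.support, S.cC C C' •
          bx S.W (S.sp 1 ((S.mC C : ℤ) • Finsupp.single C 1 - (S.mC C' : ℤ) • Finsupp.single C' 1))
            (S.sp 1 ((S.mC C : ℤ) • Finsupp.single C 1 -
              (S.mC C' : ℤ) • Finsupp.single C' 1))) ∈ RatEqOn S.W (pairIdeal S.F F') by
      obtain ⟨M, hM, h3⟩ := h3
      refine ⟨M, hM, ?_⟩
      rw [← h1] at h3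
      exact h3
    refine S.ratEqW_of_torCl ?_
    have h2 : Wt.unscale S.W 2 (∑ C ∈ S.dA.support, ∑ C' ∈ S.dA.support, S.cC C C' •
          bx S.W (S.sp 1 ((S.mC C : ℤ) • Finsupp.single C 1 - (S.mC C' : ℤ) • Finsupp.single C' 1))
            (S.sp 1 ((S.mC C : ℤ) • Finsupp.single C 1 -
              (S.mC C' : ℤ) • Finsupp.single C' 1))) =
        (((∏ j, S.V.wt j : ℕ) : ℤ) ^ 2) • ∑ C ∈ S.dA.support, ∑ C' ∈ S.dA.support, S.cC C C' •
          bx S.W (S.eW (S.tp C) - S.eW (S.tp C')) (S.eW (S.tp C) - S.eW (S.tp C')) := by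
      rw [map_sum, Finset.smul_sum]
      refine Finset.sum_congr rfl fun C _ => ?_
      rw [map_sum, Finset.smul_sum]
      refine Finset.sum_congr rfl fun C' _ => ?_
      rw [map_zsmul, unscale_bx, unscale_sp, map_sub, S.unscale_mC, S.unscale_mC, ← smul_sub,
        map_zsmul, map_sub, sp_eC, sp_eC]
      simp only [map_smul, LinearMap.smul_apply, smul_smul]
      congr 1
      ring
    rw [h2]
    exact AddSubgroup.zsmul_mem _ (S.squaresW hF' hs hE) _

end pair

end MD

end Pool.Agent.RCH.Mn
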