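import Pool.Agent.RCH.PnDefs

/-!
# Smooth double covers of `ℙ³` in the pencils
-/

set_option autoImplicit false

open MvPolynomial

namespace Pool.Agent.RCH.Mn

open Pool.Agent.RCH.Wdc

/-- the derivatives of the form
`x_4 ^ 2 - (x_0 x_1 ^ k + x_1 ^ n + x_2 ^ n + x_3 (x_0 ^ k + c x_3 ^ k))` have the common zero `0` only -/
lemma double_aux {k : ℕ} (hk : Odd k) {c : ℂ} (hc : c ≠ 0)
    (hc' : c * (k : ℂ) ^ (k * (k - 1)) ≠ -((k + 1 : ℕ) : ℂ) ^ (k * k - 1)) (v : Fin 5 → ℂ)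
    (h0 : v 1 ^ k + v 3 * ((k : ℂ) * v 0 ^ (k - 1)) = 0)
    (h1 : v 0 * ((k : ℂ) * v 1 ^ (k - 1)) + ((k + 1 : ℕ) : ℂ) * v 1 ^ k = 0)
    (h2 : ((k + 1 : ℕ) : ℂ) * v 2 ^ k = 0)
    (h3 : v 0 ^ k + ((k + 1 : ℕ) : ℂ) * c * v 3 ^ k = 0) (h4 : v 4 = 0) : v = 0 := by
  obtain ⟨t, rfl⟩ := hk
  have e1 : 2 * t + 1 - 1 = 2 * t := rfl
  rw [e1] at h0 h1 hc'
  have hK : ((2 * t + 1 + 1 : ℕ) : ℂ) ≠ 0 := by
    rw [Ne, Nat.cast_eq_zero]
    omega
  have hk0 : ((2 * t + 1 : ℕ) : ℂ) ≠ 0 := by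
    rw [Ne, Nat.cast_eq_zero]
    omega
  generalize hKe : ((2 * t + 1 + 1 : ℕ) : ℂ) = K at h1 h2 h3 hc' hK
  generalize hke : ((2 * t + 1 : ℕ) : ℂ) = κ at h0 h1 hc' hk0
  have k2 : v 2 = 0 := eq_zero_of_pow_eq_zero ((mul_eq_zero.mp h2).resolve_left hK)
  have a03 : v 0 = 0 → v 3 = 0 := by
    intro h
    rw [h, zero_pow (by omega), zero_add] at h3
    exact eq_zero_of_pow_eq_zero ((mul_eq_zero.mp h3).resolve_left (mul_ne_zero hK hc))
  have a30 : v 3 = 0 → v 0 = 0 := by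
    intro h
    rw [h, zero_pow (by omega), mul_zero, add_zero] at h3
    exact eq_zero_of_pow_eq_zero h3
  have a01 : v 0 = 0 → v 1 = 0 := by
    intro h
    rw [a03 h, zero_mul, add_zero] at h0
    exact eq_zero_of_pow_eq_zero h0
  have k0 : v 0 = 0 := by
    by_contra hne
    have hne3 : v 3 ≠ 0 := fun h => hne (a30 h)
    have hne1 : v 1 ≠ 0 := by
      intro h
      rw [h, zero_pow (by omega), zero_add] at h0
      exact (mul_ne_zero hne3 (mul_ne_zero hk0 (pow_ne_zero _ hne))) h0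
    have h5 : v 1 ^ (2 * t) * (K * v 1 + κ * v 0) = 0 := by
      linear_combination h1
    have h6 : K * v 1 = -(κ * v 0) := by
      linear_combination (mul_eq_zero.mp h5).resolve_left (pow_ne_zero _ hne1)
    have h7 : K ^ (2 * t + 1) * v 1 ^ (2 * t + 1) = -(κ ^ (2 * t + 1) * v 0 ^ (2 * t + 1)) := by
      rw [← mul_pow, h6, Odd.neg_pow ⟨t, rfl⟩, mul_pow]
    have h8 : κ * v 0 ^ (2 * t) * (K ^ (2 * t + 1) * v 3 - κ ^ (2 * t) * v 0) = 0 := by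
      linear_combination K ^ (2 * t + 1) * h0 - h7
    have h9 : K ^ (2 * t + 1) * v 3 = κ ^ (2 * t) * v 0 := by
      linear_combination (mul_eq_zero.mp h8).resolve_left
        (mul_ne_zero hk0 (pow_ne_zero _ hne))
    have h10 : (K ^ (2 * t + 1)) ^ (2 * t + 1) * v 3 ^ (2 * t + 1) =
        (κ ^ (2 * t)) ^ (2 * t + 1) * v 0 ^ (2 * t + 1) := by
      rw [← mul_pow, h9, mul_pow]
    have h11 : v 0 ^ (2 * t + 1) * ((K ^ (2 * t + 1)) ^ (2 * t + 1) +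
        K * c * (κ ^ (2 * t)) ^ (2 * t + 1)) = 0 := by
      linear_combination (K ^ (2 * t + 1)) ^ (2 * t + 1) * h3 - K * c * h10
    have h12 := (mul_eq_zero.mp h11).resolve_left (pow_ne_zero _ hne)
    apply hc'
    rw [← pow_mul, ← pow_mul] at h12
    have h13 : K ^ ((2 * t + 1) * (2 * t + 1)) = K * K ^ ((2 * t + 1) * (2 * t + 1) - 1) := by
      rw [← pow_succ', Nat.sub_add_cancel (Nat.mul_pos (Nat.succ_pos _) (Nat.succ_pos _))]
    rw [h13, mul_comm (2 * t) (2 * t + 1)] at h12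
    have h14 : K * (K ^ ((2 * t + 1) * (2 * t + 1) - 1) + c * κ ^ ((2 * t + 1) * (2 * t))) = 0 := by
      linear_combination h12
    linear_combination (mul_eq_zero.mp h14).resolve_left hK
  funext l
  fin_cases l
  · exact k0
  · exact a01 k0
  · exact k2
  · exact a03 k0
  · exact h4

/-- the member `γ` of the pencil is
`x_4 ^ 2 - (x_0 x_1 ^ (2 m - 1) + x_1 ^ (2 m) + x_2 ^ (2 m) + x_3 (x_0 ^ (2 m - 1) + c x_3 ^ (2 m - 1)))`
with `c = 1 - γ` -/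
lemma pencil_smoothForm {m : ℕ} (hm : 1 ≤ m) (c : ℂ) :
    pencil (smoothForm m) (2 * m) (1 - c) =
      X 4 ^ 2 - (X 0 * X 1 ^ (2 * m - 1) + X 1 ^ (2 * m) + X 2 ^ (2 * m) +
        X 3 * (X 0 ^ (2 * m - 1) + C c * X 3 ^ (2 * m - 1))) := by
  have h1 : (X 3 : MvPolynomial (Fin 5) ℂ) ^ (2 * m) = X 3 * X 3 ^ (2 * m - 1) := by
    rw [← pow_succ', Nat.sub_add_cancel (by omega)]
  rw [pencil, smoothForm, h1, map_sub, C_1]
  ring

/-- **The double cover of `ℙ³` branched along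
`x_0 x_1 ^ (2 m - 1) + x_1 ^ (2 m) + x_2 ^ (2 m) + x_3 (x_0 ^ (2 m - 1) + c x_3 ^ (2 m - 1)) = 0` is
smooth for all complex numbers `c` except `0` and one more.** -/
theorem double_quasiSmooth {m : ℕ} (hm : 1 ≤ m) {c : ℂ} (hc : c ≠ 0)
    (hc' : c * (2 * m - 1 : ℂ) ^ ((2 * m - 1) * (2 * m - 2)) ≠ -(2 * m : ℂ) ^ (4 * m * (m - 1))) :
    QuasiSmooth (X 4 ^ 2 - (X 0 * X 1 ^ (2 * m - 1) + X 1 ^ (2 * m) + X 2 ^ (2 * m) +
      X 3 * (X 0 ^ (2 * m - 1) + C c * X 3 ^ (2 * m - 1)))) := by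
  intro v hv
  have h0 := hv 0
  have h1 := hv 1
  have h2 := hv 2
  have h3 := hv 3
  have h4 := hv 4
  have k1 : 2 * m - 1 + 1 = 2 * m := by omega
  have hk : ((2 * m - 1 : ℕ) : ℂ) = 2 * m - 1 := by
    rw [Nat.cast_sub (by omega)]
    push_cast
    ring
  have e3 : v 3 * v 3 ^ (2 * m - 1 - 1) = v 3 ^ (2 * m - 1) := by
    rw [← pow_succ', Nat.sub_add_cancel (by omega)]
  simp [pderiv_X] at h0 h1 h2 h3 h4
  refine double_aux (k := 2 * m - 1) ⟨m - 1, by omega⟩ hc ?_ v ?_ ?_ ?_ ?_ ?_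
  · rw [hk, k1, show 2 * m - 1 - 1 = 2 * m - 2 by omega]
    have k2 : (2 * m - 1) * (2 * m - 1) - 1 = 4 * m * (m - 1) := by
      obtain ⟨t, rfl⟩ : ∃ t, m = t + 1 := ⟨m - 1, by omega⟩
      have k3 : 2 * (t + 1) - 1 = 2 * t + 1 := by omega
      rw [k3, Nat.add_sub_cancel, show (2 * t + 1) * (2 * t + 1) = 4 * (t + 1) * t + 1 by ring,
        Nat.add_sub_cancel]
    rw [k2]
    push_cast
    exact hc'
  · linear_combination -h0
  · rw [k1]
    push_cast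
    linear_combination -h1
  · rcases h2 with h2 | h2
    · omega
    · rw [h2.1, zero_pow h2.2, mul_zero]
  · rw [k1]
    push_cast
    rw [hk] at h3
    linear_combination -h3 + (-(c * (2 * (m : ℂ) - 1))) * e3
  · exact h4

/-- the members of the pencil of `smoothForm m` are smooth for all `γ` except `1` and one more -/
theorem pencil_smoothForm_quasiSmooth {m : ℕ} (hm : 1 ≤ m) {γ : ℂ} (h1 : γ ≠ 1)
    (h2 : (1 - γ) * (2 * m - 1 : ℂ) ^ ((2 * m - 1) * (2 * m - 2)) ≠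
      -(2 * m : ℂ) ^ (4 * m * (m - 1))) : QuasiSmooth (pencil (smoothForm m) (2 * m) γ) := by
  have h3 := pencil_smoothForm hm (1 - γ)
  rw [sub_sub_cancel] at h3
  rw [h3]
  exact double_quasiSmooth hm (sub_ne_zero.mpr (Ne.symm h1)) h2

/-- in particular for all real `c > 0` -/
theorem double_quasiSmooth_real {m : ℕ} (hm : 1 ≤ m) {c : ℝ} (hc : 0 < c) :
    QuasiSmooth (X 4 ^ 2 - (X 0 * X 1 ^ (2 * m - 1) + X 1 ^ (2 * m) + X 2 ^ (2 * m) +
      X 3 * (X 0 ^ (2 * m - 1) + C (c : ℂ) * X 3 ^ (2 * m - 1)))) := by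
  refine double_quasiSmooth hm (by exact_mod_cast hc.ne') fun h => ?_
  have h1 : c * (2 * m - 1 : ℝ) ^ ((2 * m - 1) * (2 * m - 2)) = -(2 * m : ℝ) ^ (4 * m * (m - 1)) := by
    exact_mod_cast h
  have hm' : (1 : ℝ) ≤ m := by exact_mod_cast hm
  have h2 : 0 < c * (2 * m - 1 : ℝ) ^ ((2 * m - 1) * (2 * m - 2)) :=
    mul_pos hc (pow_pos (by linarith) _)
  have h3 : 0 < (2 * m : ℝ) ^ (4 * m * (m - 1)) := pow_pos (by linarith) _
  linarith

/-- **All members of the pencil of `smoothForm m` except at most two are smooth.** -/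
theorem double_finite {m : ℕ} (hm : 1 ≤ m) : {γ : ℂ | ¬ QuasiSmooth (pencil (smoothForm m) (2 * m) γ)}
    ⊆ {1, 1 + (2 * m : ℂ) ^ (4 * m * (m - 1)) / (2 * m - 1 : ℂ) ^ ((2 * m - 1) * (2 * m - 2))} := by
  intro γ hγ
  by_contra h1
  rw [Set.mem_insert_iff, Set.mem_singleton_iff, not_or] at h1
  refine hγ (pencil_smoothForm_quasiSmooth hm h1.1 fun h2 => h1.2 ?_)
  have h3 : (2 * m - 1 : ℂ) ≠ 0 := by
    have h4 : ((2 * m - 1 : ℕ) : ℂ) ≠ 0 := by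
      rw [Ne, Nat.cast_eq_zero]
      omega
    rw [Nat.cast_sub (by omega)] at h4
    push_cast at h4
    exact h4
  have h5 : (2 * m - 1 : ℂ) ^ ((2 * m - 1) * (2 * m - 2)) ≠ 0 := pow_ne_zero _ h3
  have h6 : (2 * m : ℂ) ^ (4 * m * (m - 1)) / (2 * m - 1 : ℂ) ^ ((2 * m - 1) * (2 * m - 2)) =
      γ - 1 := by
    rw [div_eq_iff h5]
    linear_combination h2
  rw [h6]
  ring

end Pool.Agent.RCH.Mn
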