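import Pool.Agent.RCH.PnDefs
import Pool.Agent.RCH.MnEx6

/-!
# Quasi-smooth members of the pencils
-/

set_option autoImplicit false

open MvPolynomial

namespace Pool.Agent.RCH.Mn

open Pool.Agent.RCH.Wdc

section mon

variable {e k l j c n D g m : ℕ} (a γ : ℂ) (v : Fin 5 → ℂ)

lemma pencil_d (F : MvPolynomial (Fin 5) ℂ) (i : Fin 5) (hi : i ≠ 3) :
    eval v (pderiv i (pencil F m γ)) = eval v (pderiv i F) := by
  have h1 : pderiv i (X 3 : MvPolynomial (Fin 5) ℂ) = 0 := pderiv_X_of_ne (Ne.symm hi)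
  rw [pencil, map_add, pderiv_C_mul, pderiv_pow, h1, mul_zero, mul_zero, add_zero]

lemma pencil_d3 (F : MvPolynomial (Fin 5) ℂ) :
    eval v (pderiv 3 (pencil F m γ)) = eval v (pderiv 3 F) + γ * ((m : ℂ) * v 3 ^ (m - 1)) := by
  rw [pencil, map_add, pderiv_C_mul, pderiv_pow, pderiv_X_self]
  simp

/-- the point `v` after the change of the coordinates which transforms the member of the pencil into a
monomial form -/
noncomputable def resc (μ ν : ℂ) (v : Fin 5 → ℂ) : Fin 5 → ℂ := ![v 0 / μ, v 1, v 2, ν * v 3, v 4]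

/-- the member `γ ≠ -1` of the pencil of `monForm … a` is the form `monForm … a'` in other
coordinates -/
lemma mon_pencil_zero (he : 1 ≤ e) (hg : 1 ≤ g) (hm : 2 ≤ m) {μ : ℂ} (hμ : μ ≠ 0)
    (hμ' : μ ^ (g * m) = 1 + γ)
    (hv : ∀ i, eval v (pderiv i (pencil (monForm e k l j c n D g m a) m γ)) = 0) (i : Fin 5) :
    eval (resc μ (μ ^ g) v) (pderiv i (monForm e k l j c n D g m (a * μ ^ e))) = 0 := by
  have h0 := hv 0
  have h1 := hv 1
  have h2 := hv 2
  have h3 := hv 3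
  have h4 := hv 4
  rw [pencil_d γ v _ 0 (by decide), mon_d0] at h0
  rw [pencil_d γ v _ 1 (by decide), mon_d1] at h1
  rw [pencil_d γ v _ 2 (by decide), mon_d2] at h2
  rw [pencil_d3, mon_d3] at h3
  rw [pencil_d γ v _ 4 (by decide), mon_d4] at h4
  have r0 : resc μ (μ ^ g) v 0 = v 0 / μ := rfl
  have r1 : resc μ (μ ^ g) v 1 = v 1 := rfl
  have r2 : resc μ (μ ^ g) v 2 = v 2 := rfl
  have r3 : resc μ (μ ^ g) v 3 = μ ^ g * v 3 := rfl
  have r4 : resc μ (μ ^ g) v 4 = v 4 := rfl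
  have s1 : μ ^ e * (v 0 / μ) ^ e = v 0 ^ e := by
    rw [← mul_pow, mul_div_cancel₀ _ hμ]
  have s2 : μ ^ e * (v 0 / μ) ^ (e - 1) = μ * v 0 ^ (e - 1) := by
    obtain ⟨t, rfl⟩ : ∃ t, e = t + 1 := ⟨e - 1, by omega⟩
    rw [Nat.add_sub_cancel, pow_succ', mul_assoc, ← mul_pow, mul_div_cancel₀ _ hμ]
  have s3 : μ ^ g * (v 0 / μ) ^ (g - 1) = μ * v 0 ^ (g - 1) := by
    obtain ⟨t, rfl⟩ : ∃ t, g = t + 1 := ⟨g - 1, by omega⟩
    rw [Nat.add_sub_cancel, pow_succ', mul_assoc, ← mul_pow, mul_div_cancel₀ _ hμ]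
  have s4 : μ ^ g * (v 0 / μ) ^ g = v 0 ^ g := by
    rw [← mul_pow, mul_div_cancel₀ _ hμ]
  have hmg : (μ ^ g) ^ m = 1 + γ := by rw [← pow_mul, hμ']
  fin_cases i
  · show eval _ (pderiv 0 _) = 0
    rw [mon_d0, r0, r1, r2, r3, r4]
    linear_combination μ * h0 + (a * e * v 1 ^ k * v 2 ^ l * v 4 ^ j) * s2 + v 3 * g * s3
  · show eval _ (pderiv 1 _) = 0
    rw [mon_d1, r0, r1, r2, r4]
    linear_combination h1 + (a * k * v 1 ^ (k - 1) * v 2 ^ l * v 4 ^ j) * s1
  · show eval _ (pderiv 2 _) = 0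
    rw [mon_d2, r0, r1, r2, r4]
    linear_combination h2 + (a * v 1 ^ k * l * v 2 ^ (l - 1) * v 4 ^ j) * s1
  · show eval _ (pderiv 3 _) = 0
    rw [mon_d3, r0, r3]
    have hν : μ ^ g ≠ 0 := pow_ne_zero _ hμ
    apply mul_left_cancel₀ hν
    rw [mul_zero]
    have hm1 : ((m - 1 : ℕ) : ℂ) = m - 1 := by
      rw [Nat.cast_sub (by omega), Nat.cast_one]
    have e1 : v 3 * v 3 ^ (m - 1 - 1) = v 3 ^ (m - 1) := by
      rw [← pow_succ', Nat.sub_add_cancel (by omega)]
    have e2 : (μ ^ g * v 3) * (μ ^ g * v 3) ^ (m - 1 - 1) = (μ ^ g * v 3) ^ (m - 1) := by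
      rw [← pow_succ', Nat.sub_add_cancel (by omega)]
    have e3 : μ ^ g * (μ ^ g * v 3) ^ (m - 1) = (1 + γ) * v 3 ^ (m - 1) := by
      rw [mul_pow, ← mul_assoc, ← pow_succ', Nat.sub_add_cancel (by omega), hmg]
    rw [hm1] at h3 ⊢
    linear_combination h3 + s4 + m * e3 + ((m : ℂ) - 1) * μ ^ g * e2 - ((m : ℂ) - 1) * e1
  · show eval _ (pderiv 4 _) = 0
    rw [mon_d4, r0, r1, r2, r4]
    linear_combination h4 + (a * v 1 ^ k * v 2 ^ l * j * v 4 ^ (j - 1)) * s1

/-- **The member `γ` of the pencil is quasi-smooth if `γ` avoids finitely many values.** -/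
lemma mon_pencil_quasiSmooth (he : 1 ≤ e) (hc : 1 ≤ c) (hn : 1 ≤ n) (hD : 1 ≤ D) (hm : 2 ≤ m)
    (hg : 1 ≤ g) (hE : e * (m - 1) * c * n * D + k * g * m * n * D + l * g * m * c * D +
      j * g * m * c * n = g * m * c * n * D) (hγ : 1 + γ ≠ 0)
    (ha : (1 + γ) ^ (e * c * n * D) * (a ^ (g * m * c * n * D) *
      ((-((m : ℂ) * (-((e : ℂ) / g)) ^ (m - 1))) ^ (e * c * n * D) *
      (-((k : ℂ) / c)) ^ (k * g * m * n * D) * (-((l : ℂ) / n)) ^ (l * g * m * c * D) *
        (-((j : ℂ) / D)) ^ (j * g * m * c * n))) ≠ 1) :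
    QuasiSmooth (pencil (monForm e k l j c n D g m a) m γ) := by
  intro v hv
  obtain ⟨μ, hμ'⟩ := IsAlgClosed.exists_pow_nat_eq (1 + γ)
    (show 0 < g * m from Nat.mul_pos hg (by omega))
  have hμ : μ ≠ 0 := by
    rintro rfl
    rw [zero_pow (Nat.mul_pos hg (by omega)).ne'] at hμ'
    exact hγ hμ'.symm
  have h1 := monForm_quasiSmooth_of (a * μ ^ e) (resc μ (μ ^ g) v) he hc hn hD hm hg hE ?_
    (mon_pencil_zero a γ v he hg hm hμ hμ' hv)
  · have r0 : v 0 / μ = 0 := congrFun h1 0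
    have r3 : μ ^ g * v 3 = 0 := congrFun h1 3
    funext i
    fin_cases i
    · exact (div_eq_zero_iff.mp r0).resolve_right hμ
    · exact congrFun h1 1
    · exact congrFun h1 2
    · exact (mul_eq_zero.mp r3).resolve_left (pow_ne_zero _ hμ)
    · exact congrFun h1 4
  · have h2 : (a * μ ^ e) ^ (g * m * c * n * D) =
        (1 + γ) ^ (e * c * n * D) * a ^ (g * m * c * n * D) := by
      rw [mul_pow, ← hμ', ← pow_mul, ← pow_mul, mul_comm]
      congr 2
      ring
    rw [h2, mul_assoc]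
    exact ha

end mon

lemma finite_aux {N : ℕ} (hN : 1 ≤ N) (b : ℂ) : {γ : ℂ | (1 + γ) ^ N * b = 1}.Finite := by
  by_cases hb : b = 0
  · have h1 : {γ : ℂ | (1 + γ) ^ N * b = 1} = ∅ := by
      ext γ
      simp [hb]
    rw [h1]
    exact Set.finite_empty
  · have h2 : {γ : ℂ | (1 + γ) ^ N * b = 1} ⊆
        {γ | ((Polynomial.C b * (1 + Polynomial.X) ^ N - 1 : Polynomial ℂ)).IsRoot γ} := by
      intro γ hγ
      have h3 : (1 + γ) ^ N * b = 1 := hγ
      show Polynomial.eval γ _ = 0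
      simp only [Polynomial.eval_sub, Polynomial.eval_mul, Polynomial.eval_C, Polynomial.eval_pow,
        Polynomial.eval_add, Polynomial.eval_one, Polynomial.eval_X]
      linear_combination h3
    refine (Polynomial.finite_setOfPred_isRoot ?_).subset h2
    intro h4
    have h5 := congrArg (Polynomial.eval (-1)) h4
    simp only [Polynomial.eval_sub, Polynomial.eval_mul, Polynomial.eval_C, Polynomial.eval_pow,
      Polynomial.eval_add, Polynomial.eval_one, Polynomial.eval_X, Polynomial.eval_zero] at h5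
    rw [add_neg_cancel, zero_pow (by omega), mul_zero, zero_sub] at h5
    exact one_ne_zero (neg_eq_zero.mp h5)

/-- **All but finitely many members of the pencil are quasi-smooth.** -/
theorem mon_finite {e k l j c n D g m : ℕ} (he : 1 ≤ e) (hc : 1 ≤ c) (hn : 1 ≤ n) (hD : 1 ≤ D)
    (hm : 2 ≤ m) (hg : 1 ≤ g)
    (hE : e * (m - 1) * c * n * D + k * g * m * n * D + l * g * m * c * D +
      j * g * m * c * n = g * m * c * n * D) (a : ℂ) :
    {γ : ℂ | ¬ QuasiSmooth (pencil (monForm e k l j c n D g m a) m γ)}.Finite := by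
  have h1 : 1 ≤ e * c * n * D := Nat.mul_pos (Nat.mul_pos (Nat.mul_pos he hc) hn) hD
  refine ((Set.finite_singleton (-1 : ℂ)).union (finite_aux h1 (a ^ (g * m * c * n * D) *
      ((-((m : ℂ) * (-((e : ℂ) / g)) ^ (m - 1))) ^ (e * c * n * D) *
      (-((k : ℂ) / c)) ^ (k * g * m * n * D) * (-((l : ℂ) / n)) ^ (l * g * m * c * D) *
        (-((j : ℂ) / D)) ^ (j * g * m * c * n))))).subset ?_
  intro γ hγ
  by_contra h2
  rw [Set.mem_union, not_or, Set.mem_singleton_iff] at h2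
  apply hγ
  refine mon_pencil_quasiSmooth a γ he hc hn hD hm hg hE ?_ h2.2
  intro h3
  exact h2.1 (by linear_combination h3)

/-- **All but finitely many members of the pencils of the symmetric forms are quasi-smooth.** -/
theorem sym_finite {N p q w e D k c g m : ℕ} (hW : Weights N p q w q e D (k * p))
    (hc : c * p = D * q) (hm : m * w = D * q) (hg : g * N + w = D * q) (hm2 : 2 ≤ m) (a : ℂ) :
    {γ : ℂ | ¬ QuasiSmooth (pencil (symForm e k c D g m a) m γ)}.Finite := by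
  have hp := hW.hp
  have hD2 := hW.hD2
  have he : 1 ≤ e := Nat.pos_of_dvd_of_pos hW.hep hp
  have hpos : 0 < D * q := Nat.mul_pos (by omega) hW.hq
  have hc1 : 1 ≤ c := by
    rcases Nat.eq_zero_or_pos c with h | h
    · rw [h, zero_mul] at hc
      omega
    · exact h
  have hg1 : 1 ≤ g := by
    rcases Nat.eq_zero_or_pos g with h | h
    · rw [h, zero_mul, zero_add] at hg
      rw [← hg] at hm
      have h1 : 2 * w ≤ m * w := Nat.mul_le_mul_right _ hm2
      omega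
    · exact h
  rw [symForm_eq]
  exact mon_finite he hc1 (by omega) (by omega) hm2 hg1
    (sym_num hW.hD hc hm hg (by omega) hpos) a

section chain

variable {e c n i m D : ℕ}

/-- **The members `γ ≠ -1` of the pencils of the chain forms are quasi-smooth.** -/
theorem chain_pencil_quasiSmooth (he : 1 ≤ e) (hc : 2 ≤ c) (hm : 2 ≤ m) (hD : 2 ≤ D)
    (hi : (i = 0 ∧ 2 ≤ n) ∨ (i = 1 ∧ 1 ≤ n)) {γ : ℂ} (hγ : γ ≠ -1) :
    QuasiSmooth (pencil (chainForm e c n i m D) m γ) := by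
  intro v hv
  refine chainForm_quasiSmooth he hc hm hD hi v fun u => ?_
  by_cases hu : u = 3
  · subst hu
    have h3 := hv 3
    rw [pencil_d3, chain_d3] at h3
    rw [chain_d3]
    have h4 : (1 + γ) * ((m : ℂ) * v 3 ^ (m - 1)) = 0 := by linear_combination h3
    refine (mul_eq_zero.mp h4).resolve_left fun h5 => hγ ?_
    linear_combination h5
  · rw [← pencil_d (m := m) γ v _ u hu]
    exact hv u

end chain

end Pool.Agent.RCH.Mn
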