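import Pool.Agent.RCH.Pn10
import Pool.Agent.RCH.PnExA
import Pool.Agent.RCH.PnExB
import Pool.Agent.RCH.MnNum
import Pool.Agent.RCH.MnEx4
import Pool.Agent.RCH.MnEx5

/-!
# The numerical case and the examples, for pencils
-/

set_option autoImplicit false

open MvPolynomial

namespace Pool.Agent.RCH.Mn

open Pool.Agent.RCH.Wdc

/-- **The numerical case.** -/
theorem numerical_pencil {N p q w r e D k l m : ℕ} {F : MvPolynomial (Fin 5) ℂ}
    (hW : Weights N p q w r e D (k * p + l * q)) (hk : 1 ≤ k) (hM : Numerical N p q r e D k l)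
    (hF : IsWeightedHomogeneous ![N, p, q, w, r] F (D * r)) (h4 : coeff (Finsupp.single 4 D) F ≠ 0)
    (h0 : coeff (Finsupp.single 0 e + Finsupp.single 1 k + Finsupp.single 2 l) F ≠ 0)
    (hmw : m * w = D * r) (c c' : ℂ) :
    SectionRankAtMostOne ![N, p, q, w, r] (pencil F m c) ∧
      CrossTorsion ![N, p, q, w, r] (pencil F m c) (pencil F m c') := by
  obtain ⟨h1, h2⟩ := numerical hW hk hM hF h4 h0
  obtain ⟨s, f, -, -, -, h3, h5⟩ := crossConclusion hW h1 hmw c c'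
  exact ⟨h5 h2, h3 (h5 h2)⟩

/-- Pencils of quasi-smooth hypersurfaces with two cones which are different. -/
theorem family_pencil {e a b : ℕ} (he : 1 ≤ e) (ha : 1 ≤ a) (hb : 2 ≤ b) (hab : a.Coprime b)
    (hN : ((a + 1) * b - 1).Coprime e) :
    ∃ (B : MvPolynomial (Fin 3) ℂ) (F : MvPolynomial (Fin 5) ℂ),
      (∀ c : ℂ, c ≠ -1 → QuasiSmooth (pencil F ((a + 1) * (e * b)) c)) ∧
      Member ((a + 1) * b - 1) e (e * a) 1 (e * b) e (a + 1) (X 0) B F ∧
      coeff (Finsupp.single 0 e + Finsupp.single 1 1) F ≠ 0 ∧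
      TwoPoints e (e * a) (e * b) (X 0) B ∧ Inequivalent e (e * a) (e * b) (X 0) B := by
  have h4 := two_le_mul ha hb
  have hW := family_weights he ha hb hN
  have hm : 2 ≤ (a + 1) * (e * b) := by
    rw [show (a + 1) * (e * b) = e * ((a + 1) * b) by ring]
    nlinarith
  obtain ⟨z, z', hz, hz', hne, hall⟩ := points_chain (p := e) (c := (a + 1) * b) he ha
    (show 0 < b by omega) (show 0 < (a + 1) * b by omega) hab
  refine ⟨chainB ((a + 1) * b) b 1 (a + 1),
    chainForm e ((a + 1) * b) b 1 ((a + 1) * (e * b)) (a + 1),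
    fun c hc => chain_pencil_quasiSmooth he (by omega) hm (by omega) (Or.inr ⟨rfl, by omega⟩) hc,
    chain_member hW he (by omega) (by omega) (by omega) (by ring) (by ring) (mul_one _), ?_,
    ⟨![0, 1, z], ![0, 1, z'], fun x hx h0 hB => ?_⟩,
    ⟨![0, 1, z], ![0, 1, z'], vec_ne z, vec_ne z', ?_, hz, ?_, hz', hne⟩⟩
  · exact chain_coeff he
  · rw [eval_X] at h0
    rcases hall x hx h0 hB with h | h
    · exact Or.inl h
    · exact Or.inr (Or.inl h)
  · rw [eval_X]; rfl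
  · rw [eval_X]; rfl

/-- The form `x_4 ^ 2 - (x_0 x_1 ^ (2 m - 1) + x_1 ^ (2 m) + x_2 ^ (2 m)
+ x_3 (x_0 ^ (2 m - 1) + c x_3 ^ (2 m - 1)))`. -/
noncomputable def doubleForm (m : ℕ) (c : ℂ) : MvPolynomial (Fin 5) ℂ :=
  X 4 ^ 2 - (X 0 * X 1 ^ (2 * m - 1) + X 1 ^ (2 * m) + X 2 ^ (2 * m) +
    X 3 * (X 0 ^ (2 * m - 1) + C c * X 3 ^ (2 * m - 1)))

lemma pencil_double {m : ℕ} (hm : 1 ≤ m) (c : ℂ) :
    pencil (smoothForm m) (2 * m) (1 - c) = doubleForm m c := pencil_smoothForm hm c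

/-- **The double covers.** -/
theorem double_cross {m : ℕ} (hm : 1 ≤ m) (c c' : ℂ) :
    CrossTorsion ![1, 1, 1, 1, m] (doubleForm m c) (doubleForm m c') := by
  obtain ⟨hW, -, A, B, hF, h2, -⟩ := smooth_member hm
  obtain ⟨s, f, -, -, -, h3, h5⟩ := crossConclusion (m := 2 * m) hW hF (mul_one _) (1 - c) (1 - c')
  rw [pencil_double hm, pencil_double hm] at h3
  rw [pencil_double hm] at h5
  exact h3 (h5 h2)

end Pool.Agent.RCH.Mn
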