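import Pool.Agent.RCH.Ord2
import Pool.Agent.VSN.Trans

/-!
# Orders of vanishing under flat homomorphisms and under surjections
-/

set_option autoImplicit false

namespace Pool.Agent.RCH

open Ideal TensorProduct

section flat

variable {S T : Type} [CommRing S] [CommRing T]

/-- The order of vanishing is unchanged by a flat homomorphism for which the extension of the prime
is prime. -/
theorem ordAt_flat (f : S →+* T) (hf : f.Flat) (P q : Ideal S) [q.IsPrime] (Q : Ideal T)
    [Q.IsPrime] (hQ : Q = q.map f) (hc : q = Q.comap f) (g : S) :
    ordAt (P.map f) Q (f g) = ordAt P q g := by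
  let F := Localization.localRingHom q Q f hc
  have hF : F.Flat := hf.localRingHom Q q hc
  let _ : Algebra (Localization.AtPrime q) (Localization.AtPrime Q) := F.toAlgebra
  have hfl : Module.Flat (Localization.AtPrime q) (Localization.AtPrime Q) := hF
  have hloc : IsLocalHom (algebraMap (Localization.AtPrime q) (Localization.AtPrime Q)) :=
    Localization.isLocalHom_localRingHom q Q f hc
  have hcomp : (algebraMap (Localization.AtPrime q) (Localization.AtPrime Q)).comp
      (algebraMap S (Localization.AtPrime q)) = (algebraMap T (Localization.AtPrime Q)).comp f := by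
    refine RingHom.ext fun x => ?_
    exact Localization.localRingHom_to_map q Q f hc x
  have hmap : ∀ J : Ideal S, (J.map (algebraMap S (Localization.AtPrime q))).map
      (algebraMap (Localization.AtPrime q) (Localization.AtPrime Q)) =
      (J.map f).map (algebraMap T (Localization.AtPrime Q)) := by
    intro J
    rw [Ideal.map_map, Ideal.map_map, hcomp]
  have h1 := IsLocalRing.length_baseChange (Localization.AtPrime q) (Localization.AtPrime Q)
    (Localization.AtPrime q ⧸ (P ⊔ span {g}).map (algebraMap S (Localization.AtPrime q)))
  have hm : (IsLocalRing.maximalIdeal (Localization.AtPrime q)).map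
      (algebraMap (Localization.AtPrime q) (Localization.AtPrime Q)) =
      IsLocalRing.maximalIdeal (Localization.AtPrime Q) := by
    rw [← Localization.AtPrime.map_eq_maximalIdeal, hmap, ← hQ,
      Localization.AtPrime.map_eq_maximalIdeal]
  rw [hm] at h1
  have h2 : Module.length (Localization.AtPrime Q)
      (Localization.AtPrime Q ⧸ IsLocalRing.maximalIdeal (Localization.AtPrime Q)) = 1 := by
    have : IsSimpleModule (Localization.AtPrime Q)
        (Localization.AtPrime Q ⧸ IsLocalRing.maximalIdeal (Localization.AtPrime Q)) :=
      isSimpleModule_iff_quot_maximal.2 ⟨_, inferInstance, ⟨LinearEquiv.refl _ _⟩⟩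
    exact Module.length_eq_one _ _
  rw [h2, mul_one, ← (Algebra.TensorProduct.quotIdealMapEquivTensorQuot
    (Localization.AtPrime Q)
    ((P ⊔ span {g}).map (algebraMap S (Localization.AtPrime q)))).toLinearEquiv.length_eq,
    hmap] at h1
  rw [Ideal.map_sup, Ideal.map_span, Set.image_singleton] at h1
  exact h1

end flat

section surj

variable {S T : Type} [CommRing S] [CommRing T]

/-- The order of vanishing is unchanged by pulling back along a surjection. -/
theorem ordAt_comap (π : S →+* T) (hπ : Function.Surjective π) (P Q : Ideal T) [Q.IsPrime]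
    (g : S) : ordAt (P.comap π) (Q.comap π) g = ordAt P Q (π g) := by
  let F := Localization.localRingHom (Q.comap π) Q π rfl
  have hFs : Function.Surjective F := RingHom.surjective_localRingHom_of_surjective π hπ Q
  have hcomp : F.comp (algebraMap S (Localization.AtPrime (Q.comap π))) =
      (algebraMap T (Localization.AtPrime Q)).comp π := by
    refine RingHom.ext fun x => ?_
    exact Localization.localRingHom_to_map (Q.comap π) Q π rfl x
  set J : Ideal S := P.comap π ⊔ span {g} with hJ
  set J' : Ideal T := P ⊔ span {π g} with hJ'
  have hJJ' : J = J'.comap π := by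
    have h1 : J.map π = J' := by
      rw [hJ, hJ', Ideal.map_sup, Ideal.map_span, Set.image_singleton,
        Ideal.map_comap_of_surjective π hπ]
    rw [← h1, Ideal.comap_map_of_surjective π hπ]
    refine le_antisymm le_sup_left (sup_le le_rfl ?_)
    refine le_trans ?_ le_sup_left
    exact Ideal.comap_mono bot_le
  have hle : J.map (algebraMap S (Localization.AtPrime (Q.comap π))) ≤
      (J'.map (algebraMap T (Localization.AtPrime Q))).comap F := by
    rw [← Ideal.map_le_iff_le_comap, Ideal.map_map, hcomp, ← Ideal.map_map]
    refine Ideal.map_mono ?_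
    rw [Ideal.map_le_iff_le_comap, hJJ']
  have hge : (J'.map (algebraMap T (Localization.AtPrime Q))).comap F ≤
      J.map (algebraMap S (Localization.AtPrime (Q.comap π))) := by
    intro x hx
    obtain ⟨⟨s, u⟩, hsu⟩ := IsLocalization.surj (Q.comap π).primeCompl x
    have hx' : F x ∈ J'.map (algebraMap T (Localization.AtPrime Q)) := hx
    have h1 : algebraMap T (Localization.AtPrime Q) (π s) ∈
        J'.map (algebraMap T (Localization.AtPrime Q)) := by
      have h2 : algebraMap T (Localization.AtPrime Q) (π s) =
          F (algebraMap S (Localization.AtPrime (Q.comap π)) s) := by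
        have := congrArg (fun ψ => ψ s) hcomp
        exact this.symm
      rw [h2, ← hsu, map_mul]
      exact Ideal.mul_mem_right _ _ hx'
    rw [IsLocalization.algebraMap_mem_map_algebraMap_iff Q.primeCompl] at h1
    obtain ⟨w, hw, hwJ⟩ := h1
    obtain ⟨w', rfl⟩ := hπ w
    have h3 : w' * s ∈ J := by
      rw [hJJ', Ideal.mem_comap, map_mul]
      exact hwJ
    have hw' : w' ∈ (Q.comap π).primeCompl := hw
    have h4 : algebraMap S (Localization.AtPrime (Q.comap π)) s ∈
        J.map (algebraMap S (Localization.AtPrime (Q.comap π))) := by
      rw [IsLocalization.algebraMap_mem_map_algebraMap_iff (Q.comap π).primeCompl]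
      exact ⟨w', hw', h3⟩
    have hu := IsLocalization.map_units (Localization.AtPrime (Q.comap π)) u
    rw [← hsu] at h4
    exact (Ideal.mul_unit_mem_iff_mem _ hu).1 h4
  let G : (Localization.AtPrime (Q.comap π) ⧸
      J.map (algebraMap S (Localization.AtPrime (Q.comap π)))) →+*
      (Localization.AtPrime Q ⧸ J'.map (algebraMap T (Localization.AtPrime Q))) :=
    Ideal.quotientMap _ F hle
  have hG : Function.Bijective G := by
    constructor
    · exact Ideal.quotientMap_injective' hge
    · exact Ideal.quotientMap_surjective hFs
  show Module.length _ (_ ⧸ J.map _) = Module.length _ (_ ⧸ J'.map _)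
  rw [VSN.length_quot_self, VSN.length_quot_self]
  exact VSN.length_self_ringEquiv (RingEquiv.ofBijective G hG)

end surj

end Pool.Agent.RCH
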