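import Pool.Agent.RCH.QuadDomain

/-!
# The ring `A[T][Y] / (Y² - (a T + b)(c T + d))`
-/

set_option autoImplicit false

namespace Pool.Agent.RCH

open Polynomial

variable {A : Type} [CommRing A]

/-- the polynomial `Y² - (a T + b)(c T + d)` -/
noncomputable def qpoly (a b c d : A) : A[X][X] :=
  X ^ 2 - C ((C a * X + C b) * (C c * X + C d))

/-- the ring `A[T][Y] / (Y² - (a T + b)(c T + d))` -/
abbrev QD (a b c d : A) : Type := AdjoinRoot (qpoly a b c d)

section

variable (a b c d : A)

/-- constants -/
noncomputable def qC : A →+* QD a b c d := (AdjoinRoot.of _).comp C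

/-- the variable `T` -/
noncomputable def qT : QD a b c d := AdjoinRoot.of _ X

/-- the root `Y` -/
noncomputable def qY : QD a b c d := AdjoinRoot.root _

lemma qY_sq : qY a b c d ^ 2 =
    (qC a b c d a * qT a b c d + qC a b c d b) * (qC a b c d c * qT a b c d + qC a b c d d) := by
  have h := AdjoinRoot.eval₂_root (qpoly a b c d)
  rw [qpoly, eval₂_sub, eval₂_pow, eval₂_X, eval₂_C, sub_eq_zero] at h
  rw [qY]
  refine h.trans ?_
  simp only [map_mul, map_add, qC, qT, RingHom.comp_apply]
  rfl

/-- the homomorphism with given values -/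
noncomputable def qLift {L : Type} [CommRing L] (f : A →+* L) (t y : L)
    (h : y ^ 2 = (f a * t + f b) * (f c * t + f d)) : QD a b c d →+* L :=
  AdjoinRoot.lift (eval₂RingHom f t) y (by
    rw [qpoly, eval₂_sub, eval₂_pow, eval₂_X, eval₂_C, h]
    simp)

variable {a b c d}

@[simp] lemma qLift_C {L : Type} [CommRing L] (f : A →+* L) (t y : L)
    (h : y ^ 2 = (f a * t + f b) * (f c * t + f d)) (x : A) :
    qLift a b c d f t y h (qC a b c d x) = f x := by
  simp [qLift, qC]

@[simp] lemma qLift_T {L : Type} [CommRing L] (f : A →+* L) (t y : L)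
    (h : y ^ 2 = (f a * t + f b) * (f c * t + f d)) :
    qLift a b c d f t y h (qT a b c d) = t := by
  simp [qLift, qT]

@[simp] lemma qLift_Y {L : Type} [CommRing L] (f : A →+* L) (t y : L)
    (h : y ^ 2 = (f a * t + f b) * (f c * t + f d)) :
    qLift a b c d f t y h (qY a b c d) = y := by
  simp [qLift, qY]

lemma qpoly_eq : qpoly a b c d =
    X ^ 2 - C (C (a * c) * X ^ 2 + C (a * d + b * c) * X + C (b * d)) := by
  rw [qpoly]
  congr 2
  simp only [map_mul, map_add]
  ring

lemma isDomain_QD [IsDomain A] (h : a * d - b * c ≠ 0) : IsDomain (QD a b c d) := by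
  have := isDomain_adjoinRoot_sq (a * c) (a * d + b * c) (b * d) (by
    intro h0
    apply h
    have h1 : (a * d - b * c) ^ 2 = 0 := by rw [← h0]; ring
    exact pow_eq_zero_iff (two_ne_zero) |>.mp h1)
  rw [← qpoly_eq] at this
  exact this

lemma qpoly_monic : (qpoly a b c d).Monic := monic_X_pow_sub_C _ (by norm_num)

lemma qpoly_degree [Nontrivial A] : (qpoly a b c d).natDegree = 2 := by
  rw [qpoly]
  exact natDegree_X_pow_sub_C

lemma of_injective [IsDomain A] : Function.Injective (AdjoinRoot.of (qpoly a b c d)) := by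
  apply AdjoinRoot.of.injective_of_degree_ne_zero
  rw [degree_eq_natDegree qpoly_monic.ne_zero, qpoly_degree]
  norm_num

lemma qC_injective [IsDomain A] : Function.Injective (qC a b c d) :=
  of_injective.comp C_injective

lemma qlin_ne_zero [IsDomain A] {e f : A} (h : e ≠ 0 ∨ f ≠ 0) :
    qC a b c d e * qT a b c d + qC a b c d f ≠ 0 := by
  intro h0
  have h1 : AdjoinRoot.of (qpoly a b c d) (C e * X + C f) = 0 := by
    rw [← h0]
    simp [qC, qT]
  rw [← map_zero (AdjoinRoot.of (qpoly a b c d))] at h1
  have h2 := of_injective h1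
  have he : (C e * X + C f : A[X]).coeff 1 = e := by simp
  have hf : (C e * X + C f : A[X]).coeff 0 = f := by simp
  rw [h2] at he hf
  rcases h with h | h
  · exact h (by rw [← he]; simp)
  · exact h (by rw [← hf]; simp)

end

end Pool.Agent.RCH
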