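import Pool.Agent.RCH.Box

/-!
# The ideal of the product with a last factor
-/

set_option autoImplicit false

open MvPolynomial

namespace Pool.Agent.RCH

variable {ι : Type} {N : ℕ}

/-- the coordinates of the first `N` points -/
noncomputable def inc (ι : Type) (N : ℕ) : Coord ι N →ₐ[ℂ] Coord ι (N + 1) :=
  rename (R := ℂ) (fun v : Fin N × ι => (v.1.castSucc, v.2))

/-- the coordinates of the last point -/
noncomputable def lst (ι : Type) (N : ℕ) : Coord ι 1 →ₐ[ℂ] Coord ι (N + 1) :=
  rename (R := ℂ) (fun v : Fin 1 × ι => (Fin.last N, v.2))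

/-- the ideal of the product -/
noncomputable def star (I : Ideal (Coord ι N)) (J : Ideal (Coord ι 1)) : Ideal (Coord ι (N + 1)) :=
  I.map (inc ι N).toRingHom ⊔ J.map (lst ι N).toRingHom

/-- the coordinates of the first points and those of the last point -/
def splitLast (N : ℕ) : (Fin N × ι) ⊕ (Fin 1 × ι) ≃ Fin (N + 1) × ι where
  toFun := Sum.elim (fun v => (v.1.castSucc, v.2)) (fun v => (Fin.last N, v.2))
  invFun v := Fin.lastCases (motive := fun _ => (Fin N × ι) ⊕ (Fin 1 × ι)) (Sum.inr (0, v.2))
    (fun i => Sum.inl (i, v.2)) v.1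
  left_inv := by
    rintro (⟨i, j⟩ | ⟨a, j⟩)
    · simp
    · have : a = 0 := Subsingleton.elim _ _
      subst this
      simp
  right_inv := by
    rintro ⟨i, j⟩
    refine Fin.lastCases ?_ (fun i => ?_) i
    · simp
    · simp

/-- the polynomials in all points as polynomials in the first points with coefficients in the
polynomials in the last point -/
noncomputable def splitE (ι : Type) (N : ℕ) :
    Coord ι (N + 1) ≃ₐ[ℂ] MvPolynomial (Fin N × ι) (Coord ι 1) :=
  (renameEquiv ℂ (splitLast N)).symm.trans (sumAlgEquiv ℂ (Fin N × ι) (Fin 1 × ι))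

lemma splitLast_symm_castSucc (i : Fin N) (j : ι) :
    (splitLast N).symm (i.castSucc, j) = Sum.inl (i, j) := by
  rw [Equiv.symm_apply_eq]
  rfl

lemma splitLast_symm_last (j : ι) :
    (splitLast N).symm (Fin.last N, j) = Sum.inr (0, j) := by
  rw [Equiv.symm_apply_eq]
  rfl

lemma splitE_inc (s : Coord ι N) :
    splitE ι N (inc ι N s) = map (C : ℂ →+* Coord ι 1) s := by
  have h : ((splitE ι N).toRingEquiv.toRingHom.comp (inc ι N).toRingHom) =
      map (C : ℂ →+* Coord ι 1) := by
    apply MvPolynomial.ringHom_ext
    · intro a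
      simp [splitE, inc]
    · rintro ⟨i, j⟩
      simp [splitE, inc, splitLast_symm_castSucc]
  exact congrArg (fun ψ => ψ s) h

lemma splitE_lst (z : Coord ι 1) : splitE ι N (lst ι N z) = C z := by
  have h : ((splitE ι N).toRingEquiv.toRingHom.comp (lst ι N).toRingHom) =
      (C : Coord ι 1 →+* MvPolynomial (Fin N × ι) (Coord ι 1)) := by
    apply MvPolynomial.ringHom_ext
    · intro a
      simp [splitE, lst]
    · rintro ⟨i, j⟩
      have : i = 0 := Subsingleton.elim _ _
      subst this
      simp [splitE, lst, splitLast_symm_last]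
  exact congrArg (fun ψ => ψ z) h

section model

variable {A : Type} [CommRing A] [Algebra ℂ A] (mk : Coord ι 1 →ₐ[ℂ] A)

/-- reduction modulo the equations of the last point -/
noncomputable def proj (N : ℕ) : Coord ι (N + 1) →+* MvPolynomial (Fin N × ι) A :=
  (map mk.toRingHom).comp (splitE ι N).toRingEquiv.toRingHom

/-- constants -/
noncomputable def cst (ι : Type) (N : ℕ) (A : Type) [CommRing A] [Algebra ℂ A] :
    Coord ι N →+* MvPolynomial (Fin N × ι) A :=
  map (algebraMap ℂ A)

lemma proj_surjective (hmk : Function.Surjective mk) : Function.Surjective (proj mk N) :=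
  (map_surjective _ hmk).comp (splitE ι N).surjective

lemma proj_inc (s : Coord ι N) : proj mk N (inc ι N s) = cst ι N A s := by
  show map mk.toRingHom (splitE ι N (inc ι N s)) = _
  rw [splitE_inc, map_map]
  unfold cst
  congr 1
  congr 1
  refine RingHom.ext fun a => ?_
  exact mk.commutes a

lemma proj_comp_inc : (proj mk N).comp (inc ι N).toRingHom = cst ι N A :=
  RingHom.ext fun s => proj_inc mk s

lemma ker_proj : RingHom.ker (proj mk N) = (RingHom.ker mk).map (lst ι N).toRingHom := by
  have h1 : RingHom.ker (map mk.toRingHom :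
      MvPolynomial (Fin N × ι) (Coord ι 1) →+* MvPolynomial (Fin N × ι) A) =
      (RingHom.ker mk).map (C : Coord ι 1 →+* MvPolynomial (Fin N × ι) (Coord ι 1)) :=
    MvPolynomial.ker_map (σ := Fin N × ι) mk.toRingHom
  have h2 : RingHom.ker (proj mk N) =
      (RingHom.ker (map mk.toRingHom :
      MvPolynomial (Fin N × ι) (Coord ι 1) →+* MvPolynomial (Fin N × ι) A)).comap
        (splitE ι N).toRingEquiv.toRingHom := by
    ext z
    rfl
  have h3 : ∀ L : Ideal (MvPolynomial (Fin N × ι) (Coord ι 1)),
      L.comap (splitE ι N).toRingEquiv.toRingHom =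
      L.map (splitE ι N).symm.toRingEquiv.toRingHom := by
    intro L
    exact (Ideal.map_comap_of_equiv (splitE ι N).symm.toRingEquiv).symm
  rw [h2, h1, h3, Ideal.map_map]
  congr 1
  refine RingHom.ext fun z => ?_
  show (splitE ι N).symm (C z) = lst ι N z
  rw [← splitE_lst, AlgEquiv.symm_apply_apply]

/-- the ideal of the product through the reduction -/
lemma star_eq_comap (hmk : Function.Surjective mk) (I : Ideal (Coord ι N)) :
    star I (RingHom.ker mk) = (I.map (cst ι N A)).comap (proj mk N) := by
  have h : I.map (cst ι N A) = (I.map (inc ι N).toRingHom).map (proj mk N) := by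
    rw [Ideal.map_map, proj_comp_inc]
  rw [h, Ideal.comap_map_of_surjective _ (proj_surjective mk hmk)]
  unfold star
  congr 1
  rw [← ker_proj]
  rfl

section flat

attribute [local instance] MvPolynomial.algebraMvPolynomial

/-- polynomials over an algebra are free over polynomials over the base field -/
lemma free_mv (σ : Type) (A : Type) [CommRing A] [Algebra ℂ A] :
    Module.Free (MvPolynomial σ ℂ) (MvPolynomial σ A) := by
  have h : Algebra.IsPushout ℂ (MvPolynomial σ ℂ) A (MvPolynomial σ A) := inferInstance
  exact Module.Free.of_equiv h.out.equiv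

lemma cst_flat (ι : Type) (N : ℕ) (A : Type) [CommRing A] [Algebra ℂ A] :
    RingHom.Flat (R := Coord ι N) (S := MvPolynomial (Fin N × ι) A) (cst ι N A) := by
  have := free_mv (Fin N × ι) A
  exact (inferInstance : Module.Flat (Coord ι N) (MvPolynomial (Fin N × ι) A))

lemma comap_map_cst [Nontrivial A] (I : Ideal (Coord ι N)) :
    (I.map (cst ι N A)).comap (cst ι N A) = I := by
  have := free_mv (Fin N × ι) A
  have : Module.FaithfullyFlat (Coord ι N) (MvPolynomial (Fin N × ι) A) := inferInstance
  exact Ideal.comap_map_eq_self_of_faithfullyFlat (B := MvPolynomial (Fin N × ι) A) I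

end flat

end model

/-- the product with the last factor as the pull-back of a flat base change -/
structure Model (N : ℕ) (J : Ideal (Coord ι 1)) where
  /-- the ring -/
  T : Type
  /-- its ring structure -/
  [ring : CommRing T]
  /-- the flat base change -/
  f : Coord ι N →+* T
  /-- the reduction -/
  pi : Coord ι (N + 1) →+* T
  surj : Function.Surjective pi
  pi_inc : ∀ s, pi (inc ι N s) = f s
  flat : f.Flat
  contr : ∀ I : Ideal (Coord ι N), (I.map f).comap f = I
  star_eq : ∀ I : Ideal (Coord ι N), star I J = (I.map f).comap pi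
  prime : Finite ι → ∀ I : Ideal (Coord ι N), I.IsPrime → (I.map f).IsPrime

attribute [instance] Model.ring

lemma exists_model_aux {A : Type} [CommRing A] [IsDomain A] [Algebra ℂ A] (mk : Coord ι 1 →ₐ[ℂ] A)
    (hmk : Function.Surjective mk) : Nonempty (Model N (RingHom.ker mk)) :=
  ⟨{ T := MvPolynomial (Fin N × ι) A
     f := cst ι N A
     pi := proj mk N
     surj := proj_surjective mk hmk
     pi_inc := proj_inc mk
     flat := cst_flat ι N A
     contr := comap_map_cst
     star_eq := star_eq_comap mk hmk
     prime := fun _ I hI => prime_ext I }⟩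

lemma exists_model (N : ℕ) (J : Ideal (Coord ι 1)) [J.IsPrime] : Nonempty (Model N J) := by
  have h := exists_model_aux (N := N) (Ideal.Quotient.mkₐ ℂ J) Ideal.Quotient.mk_surjective
  have h1 : RingHom.ker (Ideal.Quotient.mkₐ ℂ J) = J := Ideal.Quotient.mkₐ_ker ℂ J
  rwa [h1] at h

/-- the product of primes is prime -/
theorem star_prime [Finite ι] (I : Ideal (Coord ι N)) [hI : I.IsPrime] (J : Ideal (Coord ι 1))
    [J.IsPrime] : (star I J).IsPrime := by
  obtain ⟨M⟩ := exists_model N J
  rw [M.star_eq]
  have := M.prime inferInstance I hI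
  exact Ideal.comap_isPrime _ _

/-- the ideal of the product contracts to the ideal of the first factor -/
theorem star_comap_inc (I : Ideal (Coord ι N)) (J : Ideal (Coord ι 1)) [J.IsPrime] :
    (star I J).comap (inc ι N).toRingHom = I := by
  obtain ⟨M⟩ := exists_model N J
  have h : M.pi.comp (inc ι N).toRingHom = M.f := RingHom.ext fun s => M.pi_inc s
  rw [M.star_eq, Ideal.comap_comap, h, M.contr]

lemma star_le_iff (I : Ideal (Coord ι N)) (J : Ideal (Coord ι 1)) (Q : Ideal (Coord ι (N + 1))) :
    star I J ≤ Q ↔ I ≤ Q.comap (inc ι N).toRingHom ∧ J ≤ Q.comap (lst ι N).toRingHom := by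
  unfold star
  rw [sup_le_iff, Ideal.map_le_iff_le_comap, Ideal.map_le_iff_le_comap]

lemma le_star_left (I : Ideal (Coord ι N)) (J : Ideal (Coord ι 1)) :
    I ≤ (star I J).comap (inc ι N).toRingHom := ((star_le_iff I J _).1 le_rfl).1

lemma le_star_right (I : Ideal (Coord ι N)) (J : Ideal (Coord ι 1)) :
    J ≤ (star I J).comap (lst ι N).toRingHom := ((star_le_iff I J _).1 le_rfl).2

lemma star_mono {I I' : Ideal (Coord ι N)} (h : I ≤ I') (J : Ideal (Coord ι 1)) :
    star I J ≤ star I' J := by
  unfold star
  exact sup_le_sup_right (Ideal.map_mono h) _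

lemma star_injective (J : Ideal (Coord ι 1)) [J.IsPrime] :
    Function.Injective (fun I : Ideal (Coord ι N) => star I J) := by
  intro I I' h
  have h' : star I J = star I' J := h
  rw [← star_comap_inc I J, h', star_comap_inc I' J]

end Pool.Agent.RCH
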