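import Pool.Agent.RCH.Star
import Pool.Agent.RCH.ProdA

/-!
# Orders of vanishing on the product with a last factor
-/

set_option autoImplicit false

open MvPolynomial

namespace Pool.Agent.RCH

lemma ordAt_of_eq {R : Type} [CommRing R] {P P' Q Q' : Ideal R} (hQ : Q.IsPrime)
    (hQ' : Q'.IsPrime) (h : P = P') (h' : Q = Q') (g : R) : ordAt P Q g = ordAt P' Q' g := by
  subst h
  subst h'
  rfl

/-- the order of vanishing through a flat homomorphism and a surjection -/
lemma ordAt_model {S S' T : Type} [CommRing S] [CommRing S'] [CommRing T] (f : S →+* T)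
    (pi : S' →+* T) (hpi : Function.Surjective pi) (hf : f.Flat) (P q : Ideal S) (hq : q.IsPrime)
    (P' q' : Ideal S') (hq' : q'.IsPrime) (hP : P' = (P.map f).comap pi)
    (hQ : q' = (q.map f).comap pi) (hqT : (q.map f).IsPrime) (hc : (q.map f).comap f = q)
    (g : S) (g' : S') (hg : pi g' = f g) : ordAt P' q' g' = ordAt P q g := by
  have hc' : ((q.map f).comap pi).IsPrime := Ideal.comap_isPrime _ _
  rw [ordAt_of_eq hq' hc' hP hQ g', ordAt_comap pi hpi, hg]
  exact ordAt_flat f hf P q (q.map f) rfl hc.symm g

variable {ι : Type} {N : ℕ}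

/-- the order of vanishing of a function of the first factor on the product -/
theorem ordAt_star [Finite ι] (P q : Ideal (Coord ι N)) [hq : q.IsPrime] (J : Ideal (Coord ι 1))
    [hJ : J.IsPrime] [hs : (star q J).IsPrime] (g : Coord ι N) :
    ordAt (star P J) (star q J) (inc ι N g) = ordAt P q g := by
  obtain ⟨M⟩ := exists_model N J
  exact ordAt_model M.f M.pi M.surj M.flat P q hq _ _ hs (M.star_eq P) (M.star_eq q)
    (M.prime inferInstance q hq) (M.contr q) g _ (M.pi_inc g)

end Pool.Agent.RCH
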