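import Pool.Agent.RCH.StarPt
import Pool.Agent.RCH.StarLen
import Pool.Agent.RCH.StarCodim

/-!
# Rational equivalence is compatible with products

The product with a point of `X` maps the cycles on `X^N` rationally equivalent to zero to cycles on
`X^(N+1)` rationally equivalent to zero.
-/

set_option autoImplicit false

open MvPolynomial

namespace Pool.Agent.RCH

variable {ι : Type} [Finite ι] (X : WVar ι) {N : ℕ}

theorem isDivisor_prod (P : Pt X N) (Z : Pt X 1) {g h : Coord ι N} (hg : g ∉ P.I) (hh : h ∉ P.I)
    {c : Cycles X N} (hc : IsDivisor X P g h c) :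
    IsDivisor X (prodPt X P Z) (inc ι N g) (inc ι N h)
      (Finsupp.mapDomain (fun P => prodPt X P Z) c) := by
  classical
  intro Q'
  have hPp := P.prime
  have hZp := Z.prime
  have hQp := Q'.prime
  by_cases hex : ∃ q : Pt X N, prodPt X q Z = Q'
  · obtain ⟨q, rfl⟩ := hex
    rw [Finsupp.mapDomain_apply (prodPt_injective X Z), hc q]
    have hqp := q.prime
    by_cases hcod : CodimOne P.I q.I
    · have hcod' : CodimOne (prodPt X P Z).I (prodPt X q Z).I := codimOne_star P.I q.I Z.I hcod
      rw [if_pos hcod, if_pos hcod']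
      have hs : (star q.I Z.I).IsPrime := star_prime q.I Z.I
      have h1 := ordAt_star P.I q.I Z.I g
      have h2 := ordAt_star P.I q.I Z.I h
      show _ = ((ordAt (star P.I Z.I) (star q.I Z.I) (inc ι N g)).toNat : ℤ) -
        ((ordAt (star P.I Z.I) (star q.I Z.I) (inc ι N h)).toNat : ℤ)
      rw [h1, h2]
    · have hcod' : ¬ CodimOne (prodPt X P Z).I (prodPt X q Z).I := fun h =>
        hcod (codimOne_of_star P.I q.I Z.I h)
      rw [if_neg hcod, if_neg hcod']
  · rw [Finsupp.mapDomain_of_notMem_range]
    · by_cases hcod : CodimOne (prodPt X P Z).I Q'.I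
      · rw [if_pos hcod]
        have key : ∀ s : Coord ι N, s ∉ P.I → inc ι N s ∉ Q'.I := by
          intro s hs hmem
          obtain ⟨-, h2⟩ := codimOne_star_of_mem P.I Z.I Q'.I hcod hmem hs
          exact hex ⟨contrPt X Q', Pt.ext' X h2.symm⟩
        rw [ordAt_eq_zero (key g hg), ordAt_eq_zero (key h hh)]
        simp
      · rw [if_neg hcod]
    · rintro ⟨q, hq⟩
      exact hex ⟨q, hq⟩

/-- The product with a point of `X` preserves rational equivalence to zero. -/
theorem prod_ratZero (Z : Pt X 1) {c : Cycles X N} (hc : c ∈ RatZero X N) :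
    Finsupp.mapDomain (fun P => prodPt X P Z) c ∈ RatZero X (N + 1) := by
  have h : RatZero X N ≤ (RatZero X (N + 1)).comap
      (Finsupp.mapDomain.addMonoidHom (M := ℤ) (fun P : Pt X N => prodPt X P Z)) := by
    unfold RatZero
    rw [AddSubgroup.closure_le]
    rintro d ⟨P, g, h, e, hge, hhe, hg, hh, hd⟩
    have hZp := Z.prime
    refine AddSubgroup.subset_closure ⟨prodPt X P Z, inc ι N g, inc ι N h,
      Fin.snoc (α := fun _ => ℕ) e 0, inc_homogeneous X hge, inc_homogeneous X hhe, ?_, ?_,
      isDivisor_prod X P Z hg hh hd⟩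
    · intro hmem
      apply hg
      rw [← star_comap_inc P.I Z.I]
      exact hmem
    · intro hmem
      apply hh
      rw [← star_comap_inc P.I Z.I]
      exact hmem
  exact h hc

end Pool.Agent.RCH
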