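import Pool.Agent.RCH.Sq

/-!
# Adjoining two square roots
-/

set_option autoImplicit false

open Polynomial

namespace Pool.Agent.RCH

namespace Wd

/-! ### Polynomials with two terms are not squares -/

/-- a polynomial with two terms, one of them constant, is not a square -/
theorem not_isSquare_two_term {A : Type*} [CommRing A] [IsDomain A] [CharZero A] {a b : A}
    (ha : a ≠ 0) (hb : b ≠ 0) {e : ℕ} (he : 1 ≤ e) : ¬ IsSquare (C a * X ^ e + C b : A[X]) := by
  rintro ⟨g, hg⟩
  have he0 : (e : A) ≠ 0 := Nat.cast_ne_zero.2 (by omega)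
  have h1 : X * derivative (C a * X ^ e + C b : A[X]) = C (e : A) * (C a * X ^ e) := by
    obtain ⟨d, rfl⟩ : ∃ d, e = d + 1 := ⟨e - 1, by omega⟩
    rw [derivative_add, derivative_C, add_zero, derivative_C_mul_X_pow, Nat.add_sub_cancel]
    simp only [C_mul, pow_succ]
    ring
  have h2 : C (e : A) * (C a * X ^ e) = C (e : A) * (g * g) - C ((e : A) * b) := by
    rw [← hg, C_mul]
    ring
  have h3 : g ∣ C ((e : A) * b) := by
    refine ⟨C (e : A) * g - 2 * (X * derivative g), ?_⟩
    have h4 : derivative (g * g) = 2 * (g * derivative g) := by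
      rw [derivative_mul]
      ring
    rw [hg, h4, h2] at h1
    linear_combination h1
  have h5 : g.natDegree = 0 := by
    have h6 : (C ((e : A) * b) : A[X]) ≠ 0 := C_ne_zero.2 (mul_ne_zero he0 hb)
    have h7 := natDegree_le_of_dvd h3 h6
    rw [natDegree_C] at h7
    omega
  obtain ⟨u, rfl⟩ : ∃ u, g = C u := ⟨g.coeff 0, eq_C_of_natDegree_eq_zero h5⟩
  have h8 := congrArg (fun q => q.coeff e) hg
  simp only [← C_mul, coeff_add, coeff_C_mul, coeff_X_pow, if_true, mul_one, coeff_C] at h8
  rw [if_neg (by omega), if_neg (by omega), add_zero] at h8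
  exact ha h8

/-- an odd power of the variable is not a square -/
theorem not_isSquare_X_pow {A : Type*} [CommRing A] [IsDomain A] {k : ℕ} (hk : Odd k) :
    ¬ IsSquare (X ^ k : A[X]) := by
  rintro ⟨g, hg⟩
  have hg0 : g ≠ 0 := by
    rintro rfl
    rw [mul_zero] at hg
    exact pow_ne_zero _ X_ne_zero hg
  have h1 := congrArg natDegree hg
  rw [natDegree_X_pow, natDegree_mul hg0 hg0] at h1
  obtain ⟨d, rfl⟩ := hk
  omega

/-! ### Two square roots -/

variable {A : Type} [CommRing A] (f g : A)

/-- the ring with a square root of `f` -/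
abbrev SQ : Type := AdjoinRoot (X ^ 2 - C f : A[X])

/-- the ring with square roots of `f` and `g` -/
abbrev BQ : Type := AdjoinRoot (X ^ 2 - C (AdjoinRoot.of (X ^ 2 - C f : A[X]) g) : (SQ f)[X])

/-- the constants -/
noncomputable def bqC : A →+* BQ f g := (AdjoinRoot.of _).comp (AdjoinRoot.of _)

/-- the first root -/
noncomputable def bqY : BQ f g := AdjoinRoot.of _ (AdjoinRoot.root _)

/-- the second root -/
noncomputable def bqZ : BQ f g := AdjoinRoot.root _

lemma sq_root {A : Type} [CommRing A] (f : A) :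
    AdjoinRoot.root (X ^ 2 - C f : A[X]) ^ 2 = AdjoinRoot.of (X ^ 2 - C f : A[X]) f := by
  have h := AdjoinRoot.eval₂_root (X ^ 2 - C f : A[X])
  rw [eval₂_sub, eval₂_pow, eval₂_X, eval₂_C, sub_eq_zero] at h
  exact h

lemma bqY_sq : bqY f g ^ 2 = bqC f g f := by
  rw [bqY, ← map_pow, sq_root]
  rfl

lemma bqZ_sq : bqZ f g ^ 2 = bqC f g g := sq_root _

variable {f g}

/-- homomorphisms from the ring with one square root -/
noncomputable def sqLift {L : Type} [CommRing L] (φ : A →+* L) (y : L) (hy : y ^ 2 = φ f) :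
    SQ f →+* L :=
  AdjoinRoot.lift φ y (by rw [eval₂_sub, eval₂_pow, eval₂_X, eval₂_C, hy, sub_self])

lemma sqLift_of {L : Type} [CommRing L] (φ : A →+* L) (y : L) (hy : y ^ 2 = φ f) (x : A) :
    sqLift φ y hy (AdjoinRoot.of _ x) = φ x := AdjoinRoot.lift_of _

lemma sqLift_root {L : Type} [CommRing L] (φ : A →+* L) (y : L) (hy : y ^ 2 = φ f) :
    sqLift φ y hy (AdjoinRoot.root _) = y := AdjoinRoot.lift_root _

/-- homomorphisms from the ring with two square roots -/
noncomputable def bqLift {L : Type} [CommRing L] (φ : A →+* L) (y z : L) (hy : y ^ 2 = φ f)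
    (hz : z ^ 2 = φ g) : BQ f g →+* L :=
  sqLift (sqLift φ y hy) z (by rw [sqLift_of, hz])

lemma bqLift_C {L : Type} [CommRing L] (φ : A →+* L) (y z : L) (hy : y ^ 2 = φ f)
    (hz : z ^ 2 = φ g) (x : A) : bqLift φ y z hy hz (bqC f g x) = φ x := by
  rw [bqLift, bqC, RingHom.comp_apply, sqLift_of, sqLift_of]

lemma bqLift_Y {L : Type} [CommRing L] (φ : A →+* L) (y z : L) (hy : y ^ 2 = φ f)
    (hz : z ^ 2 = φ g) : bqLift φ y z hy hz (bqY f g) = y := by
  rw [bqLift, bqY, sqLift_of, sqLift_root]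

lemma bqLift_Z {L : Type} [CommRing L] (φ : A →+* L) (y z : L) (hy : y ^ 2 = φ f)
    (hz : z ^ 2 = φ g) : bqLift φ y z hy hz (bqZ f g) = z := by
  rw [bqLift, bqZ, sqLift_root]

lemma of_injective [IsDomain A] (f : A) :
    Function.Injective (AdjoinRoot.of (X ^ 2 - C f : A[X])) := by
  apply AdjoinRoot.of.injective_of_degree_ne_zero
  rw [degree_eq_natDegree (monic_X_pow_sub_C f (by norm_num)).ne_zero, natDegree_X_pow_sub_C]
  norm_num

/-- in an integrally closed domain, `f` is a square if it is a quotient of squares -/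
lemma isSquare_of_mul_sq {A F : Type} [CommRing A] [IsDomain A] [IsIntegrallyClosed A] [Field F]
    [Algebra A F] [IsFractionRing A F] {f : A} {u v : F} (hv : v ≠ 0)
    (h : u ^ 2 = algebraMap A F f * v ^ 2) : IsSquare f := by
  have h1 : (u / v) ^ 2 = algebraMap A F f := by
    rw [div_pow, h, mul_div_cancel_right₀ _ (pow_ne_zero 2 hv)]
  have hint : IsIntegral A ((u / v) ^ 2) := by
    rw [h1]
    exact isIntegral_algebraMap
  obtain ⟨q, hq⟩ := IsIntegrallyClosed.exists_algebraMap_eq_of_isIntegral_pow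
    (by norm_num : 0 < 2) hint
  refine ⟨q, IsFractionRing.injective A F ?_⟩
  rw [map_mul, hq, ← h1, pow_two]

/-- the elements of a ring with one square root -/
lemma sq_rep {F : Type} [Field F] (f : F) (r : SQ f) :
    ∃ α β : F, r = AdjoinRoot.mk _ (C β * X + C α : F[X]) := by
  obtain ⟨h, rfl⟩ := AdjoinRoot.mk_surjective r
  have hm : (X ^ 2 - C f : F[X]).Monic := monic_X_pow_sub_C f (by norm_num)
  have h1 : (h %ₘ (X ^ 2 - C f)).natDegree ≤ 1 := by
    have h2 := natDegree_modByMonic_lt h hm (by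
      intro h3
      have h4 := congrArg natDegree h3
      rw [natDegree_X_pow_sub_C, natDegree_one] at h4
      omega)
    rw [natDegree_X_pow_sub_C] at h2
    omega
  obtain ⟨u, v, huv⟩ := exists_eq_X_add_C_of_natDegree_le_one h1
  refine ⟨v, u, ?_⟩
  rw [← huv, AdjoinRoot.mk_eq_mk]
  have h3 := modByMonic_add_div h (X ^ 2 - C f)
  exact ⟨h /ₘ (X ^ 2 - C f), by linear_combination -h3⟩

/-- two square roots, independent: a domain -/
theorem isDomain_BQ {A : Type} [CommRing A] [IsDomain A] [IsIntegrallyClosed A] [CharZero A]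
    {f g : A} (hf : ¬ IsSquare f) (hg : ¬ IsSquare g) (hfg : ¬ IsSquare (f * g)) :
    IsDomain (BQ f g) := by
  let F := FractionRing A
  have hAF : Function.Injective (algebraMap A F) := IsFractionRing.injective A F
  set f' : F := algebraMap A F f with hf'
  have hmf : (X ^ 2 - C f : A[X]).Monic := monic_X_pow_sub_C f (by norm_num)
  have hirr : Irreducible (X ^ 2 - C f' : F[X]) := by
    refine X_pow_sub_C_irreducible_of_prime Nat.prime_two fun r hr => hf ?_
    exact isSquare_of_mul_sq (F := F) (u := r) (v := 1) one_ne_zero (by rw [hr, one_pow, mul_one])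
  have hFa : Fact (Irreducible (X ^ 2 - C f' : F[X])) := ⟨hirr⟩
  have hd1 : IsDomain (SQ f) := isDomain_adjoinRoot_of_not_isSquare hf
  let i : SQ f →+* SQ f' := sqLift ((AdjoinRoot.of _).comp (algebraMap A F)) (AdjoinRoot.root _)
    (by rw [sq_root]; rfl)
  have hi_mk : ∀ h : A[X], i (AdjoinRoot.mk _ h) = AdjoinRoot.mk _ (h.map (algebraMap A F)) := by
    intro h
    have h1 : i.comp (AdjoinRoot.mk (X ^ 2 - C f)) =
        (AdjoinRoot.mk (X ^ 2 - C f')).comp (mapRingHom (algebraMap A F)) := by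
      apply Polynomial.ringHom_ext
      · intro a
        rw [RingHom.comp_apply, RingHom.comp_apply, coe_mapRingHom, map_C]
        exact sqLift_of _ _ _ a
      · rw [RingHom.comp_apply, RingHom.comp_apply, coe_mapRingHom, map_X]
        exact sqLift_root _ _ _
    exact congrArg (fun φ => φ h) h1
  have hi : Function.Injective i := by
    rw [injective_iff_map_eq_zero]
    intro r hr
    obtain ⟨h, rfl⟩ := AdjoinRoot.mk_surjective r
    rw [hi_mk, AdjoinRoot.mk_eq_zero] at hr
    rw [AdjoinRoot.mk_eq_zero]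
    have h1 : (X ^ 2 - C f' : F[X]) = (X ^ 2 - C f : A[X]).map (algebraMap A F) := by
      rw [Polynomial.map_sub, Polynomial.map_pow, map_X, map_C]
    rw [h1] at hr
    exact (map_dvd_map _ hAF hmf).1 hr
  refine AdjoinRoot.isDomain_of_prime ?_
  refine prime_of_map_irreducible (K := AdjoinRoot (X ^ 2 - C f' : F[X])) i hi
    (monic_X_pow_sub_C _ (by norm_num)) ?_
  rw [Polynomial.map_sub, Polynomial.map_pow, map_X, map_C]
  have hig : i (AdjoinRoot.of _ g) = AdjoinRoot.mk _ (C (algebraMap A F g)) := sqLift_of _ _ _ g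
  rw [hig]
  refine X_pow_sub_C_irreducible_of_prime Nat.prime_two fun r hr => ?_
  obtain ⟨α, β, rfl⟩ := sq_rep f' r
  rw [← map_pow, ← sub_eq_zero, ← map_sub, AdjoinRoot.mk_eq_zero] at hr
  obtain ⟨q, hq⟩ := hr
  have hexp : (C β * X + C α) ^ 2 - C (algebraMap A F g) - (X ^ 2 - C f') * C (β ^ 2) =
      C (2 * α * β) * X + C (α ^ 2 + β ^ 2 * f' - algebraMap A F g) := by
    simp only [map_mul, map_add, map_sub, map_pow, map_ofNat]
    ring
  have hdvd : (X ^ 2 - C f' : F[X]) ∣
      C (2 * α * β) * X + C (α ^ 2 + β ^ 2 * f' - algebraMap A F g) := by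
    rw [← hexp, hq, ← mul_sub]
    exact dvd_mul_right _ _
  have hzero : (C (2 * α * β) * X + C (α ^ 2 + β ^ 2 * f' - algebraMap A F g) : F[X]) = 0 := by
    by_contra hne
    have h1 := natDegree_le_of_dvd hdvd hne
    rw [natDegree_X_pow_sub_C] at h1
    have h2 := natDegree_linear_le (a := 2 * α * β)
      (b := α ^ 2 + β ^ 2 * f' - algebraMap A F g)
    omega
  have h1 := congrArg (fun q => q.coeff 1) hzero
  have h0 := congrArg (fun q => q.coeff 0) hzero
  simp only [coeff_add, coeff_C_mul, coeff_X_one, coeff_X_zero, coeff_C_zero, coeff_zero,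
    mul_one, mul_zero, zero_add] at h1 h0
  rw [coeff_C, if_neg one_ne_zero, add_zero] at h1
  have h2 : (2 : F) ≠ 0 := by
    have h3 : (2 : F) = algebraMap A F 2 := by rw [map_ofNat]
    rw [h3]
    intro h4
    rw [← map_zero (algebraMap A F)] at h4
    exact two_ne_zero (hAF h4)
  rcases mul_eq_zero.1 h1 with h3 | h3
  · have hα : α = 0 := (mul_eq_zero.1 h3).resolve_left h2
    rw [hα] at h0
    have h4 : β ^ 2 * f' = algebraMap A F g := by linear_combination h0
    have hβ : β ≠ 0 := by
      rintro rfl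
      apply hg
      have h5 : algebraMap A F g = 0 := by rw [← h4]; ring
      rw [← map_zero (algebraMap A F)] at h5
      rw [hAF h5]
      exact ⟨0, by ring⟩
    apply hfg
    refine isSquare_of_mul_sq (F := F) (u := β * f') (v := 1) one_ne_zero ?_
    rw [map_mul, ← h4, ← hf']
    ring
  · rw [h3] at h0
    apply hg
    refine isSquare_of_mul_sq (F := F) (u := α) (v := 1) one_ne_zero ?_
    linear_combination h0

end Wd

end Pool.Agent.RCH
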