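import Pool.Agent.RCH.Defs

/-!
# Double covers of weighted projective spaces
-/

set_option autoImplicit false

namespace Pool.Agent.RCH

open MvPolynomial

/-- The double cover `y² = f(x_0, x_1, x_2, x_3)` of a weighted projective space, in the weighted
projective space with coordinates `x_0, x_1, x_2, x_3, y` of weights `wt`. -/
noncomputable def weightedSolid (wt : Fin 5 → ℕ) (f : MvPolynomial (Fin 4) ℂ) : WVar (Fin 5) where
  wt := wt
  eqs := Ideal.span {MvPolynomial.X 4 ^ 2 - rename Fin.castSucc f}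

/-- The polynomial `x_1 ^ k x_0 ^ e + b(x_1, x_2) + x_3 P`. -/
noncomputable def weightedBranch (k e : ℕ) (b : MvPolynomial (Fin 2) ℂ)
    (P : MvPolynomial (Fin 4) ℂ) : MvPolynomial (Fin 4) ℂ :=
  MvPolynomial.X 1 ^ k * MvPolynomial.X 0 ^ e + rename ![1, 2] b + MvPolynomial.X 3 * P

/-- The ideal, in the ring of the coordinates of one point, of the curve
`x_1 = x_3 = 0`, `y = c x_2 ^ n`. -/
noncomputable def weightedCurve (n : ℕ) (c : ℂ) : Ideal (Coord (Fin 5) 1) :=
  Ideal.span {inFactor 1 0 (MvPolynomial.X 1), inFactor 1 0 (MvPolynomial.X 3),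
    inFactor 1 0 (MvPolynomial.X 4 - C c * MvPolynomial.X 2 ^ n)}

end Pool.Agent.RCH
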