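import Pool.Agent.RCH.DSX
import Pool.Agent.RCH.Homg
import Pool.Agent.RCH.WdDefs
import Pool.Agent.RCH.WdAlg

/-!
# Double covers of weighted projective spaces: the data
-/

set_option autoImplicit false

open MvPolynomial

namespace Pool.Agent.RCH

/-- The data: the weights `N, p, q, w, m` of the coordinates `x_0 = v`, `x_1 = s`, `x_2 = t`,
`x_3 = ω`, `x_4 = y`, and the equation `y² = s ^ k v ^ e + b(s, t) + ω P` of degree `2 m`. -/
structure WD where
  N : ℕ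
  p : ℕ
  q : ℕ
  w : ℕ
  m : ℕ
  e : ℕ
  k : ℕ
  n : ℕ
  j : ℕ
  hN : 1 ≤ N
  hp : 1 ≤ p
  hq : 1 ≤ q
  hw : 1 ≤ w
  hep : e ∣ p
  heq : e ∣ q
  hNe : N.Coprime e
  hk : Odd k
  hdeg : e * N + k * p = 2 * m
  hn : n * q = m
  hj : j + w = 2 * m
  b : MvPolynomial (Fin 2) ℂ
  hb : IsWeightedHomogeneous ![p, q] b (2 * m)
  c : ℂ
  hc : c ≠ 0
  hbc : eval ![0, 1] b = c ^ 2
  P : MvPolynomial (Fin 4) ℂ
  hP : IsWeightedHomogeneous ![N, p, q, w] P j

namespace WD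

open Wd

variable (S : WD)

lemma he : 1 ≤ S.e := Nat.pos_of_dvd_of_pos S.hep S.hp

lemma hm : 1 ≤ S.m := by
  have h1 := S.hdeg
  have h2 := Nat.mul_le_mul S.he S.hN
  omega

lemma hn1 : 1 ≤ S.n := by
  rcases Nat.eq_zero_or_pos S.n with h | h
  · have h1 := S.hn
    have h2 := S.hm
    rw [h, zero_mul] at h1
    omega
  · exact h

/-- the double cover -/
noncomputable def V : WVar (Fin 5) :=
  weightedSolid ![S.N, S.p, S.q, S.w, S.m] (weightedBranch S.k S.e S.b S.P)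

@[simp] lemma wt0 : S.V.wt 0 = S.N := rfl
@[simp] lemma wt1 : S.V.wt 1 = S.p := rfl
@[simp] lemma wt2 : S.V.wt 2 = S.q := rfl
@[simp] lemma wt3 : S.V.wt 3 = S.w := rfl
@[simp] lemma wt4 : S.V.wt 4 = S.m := rfl

/-! ### Values -/

section val

variable {L : Type} [CommRing L] (a : ℂ →+* L)

/-- the value of `b` -/
noncomputable def bb (s t : L) : L := eval₂Hom a ![s, t] S.b

/-- the value of `P` -/
noncomputable def pp (v s t o : L) : L := eval₂Hom a ![v, s, t, o] S.P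

/-- the value of `s ^ k v ^ e + b(s, t)` -/
noncomputable def ff (v s t : L) : L := s ^ S.k * v ^ S.e + S.bb a s t

lemma map_bb {L' : Type} [CommRing L'] (φ : L →+* L') (s t : L) :
    φ (S.bb a s t) = S.bb (φ.comp a) (φ s) (φ t) := by
  have h : φ.comp (eval₂Hom a ![s, t]) = eval₂Hom (φ.comp a) ![φ s, φ t] := by
    apply MvPolynomial.ringHom_ext
    · intro x
      simp
    · intro i
      fin_cases i <;> simp
  exact congrArg (fun ψ => ψ S.b) h

lemma map_pp {L' : Type} [CommRing L'] (φ : L →+* L') (v s t o : L) :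
    φ (S.pp a v s t o) = S.pp (φ.comp a) (φ v) (φ s) (φ t) (φ o) := by
  have h : φ.comp (eval₂Hom a ![v, s, t, o]) = eval₂Hom (φ.comp a) ![φ v, φ s, φ t, φ o] := by
    apply MvPolynomial.ringHom_ext
    · intro x
      simp
    · intro i
      fin_cases i <;> simp
  exact congrArg (fun ψ => ψ S.P) h

lemma map_ff {L' : Type} [CommRing L'] (φ : L →+* L') (v s t : L) :
    φ (S.ff a v s t) = S.ff (φ.comp a) (φ v) (φ s) (φ t) := by
  rw [ff, ff, map_add, map_mul, map_pow, map_pow, map_bb]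

/-- the values of `b` at rescaled points -/
lemma bb_smul (l s t : L) :
    S.bb a (l ^ S.p * s) (l ^ S.q * t) = l ^ (2 * S.m) * S.bb a s t := by
  have h := eval₂Hom_smul_of_isWeightedHomogeneous a ![S.p, S.q] S.hb l ![s, t]
  have h1 : (fun i => l ^ (![S.p, S.q] i) * (![s, t] : Fin 2 → L) i) =
      ![l ^ S.p * s, l ^ S.q * t] := by
    funext i
    fin_cases i <;> rfl
  rw [h1] at h
  exact h

/-- the values of `s ^ k v ^ e + b(s, t)` at rescaled points -/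
lemma ff_smul (l v s t : L) :
    S.ff a (l ^ S.N * v) (l ^ S.p * s) (l ^ S.q * t) = l ^ (2 * S.m) * S.ff a v s t := by
  have h1 : l ^ (2 * S.m) = (l ^ S.p) ^ S.k * (l ^ S.N) ^ S.e := by
    rw [← pow_mul, ← pow_mul, ← pow_add]
    congr 1
    have := S.hdeg
    rw [mul_comm S.p, mul_comm S.N]
    omega
  rw [ff, ff, bb_smul, mul_pow, mul_pow, mul_add]
  rw [h1]
  ring

/-- the value of `b` at `s = 0` -/
lemma bb_zero (t : L) : S.bb a 0 t = a S.c ^ 2 * t ^ (2 * S.n) := by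
  have h1 : S.bb a 0 1 = a S.c ^ 2 := by
    have h2 : a (S.bb (RingHom.id ℂ) 0 1) = S.bb a 0 1 := by
      rw [map_bb, map_zero, map_one, RingHom.comp_id]
    rw [← h2, ← map_pow, ← S.hbc]
    rfl
  have h3 : S.hb = S.hb := rfl
  classical
  have key : ∀ s ∈ S.b.support, s 0 = 0 → s 1 = 2 * S.n := by
    intro s hs h0
    have h4 := S.hb (mem_support_iff.1 hs)
    rw [Finsupp.weight_apply, Finsupp.sum_fintype _ _ (fun _ => by simp), Fin.sum_univ_two, h0]
      at h4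
    simp only [Matrix.cons_val_zero, Matrix.cons_val_one, smul_eq_mul, zero_mul, zero_add] at h4
    have h5 : s 1 * S.q = 2 * S.n * S.q := by
      rw [h4, mul_assoc, S.hn]
    exact Nat.eq_of_mul_eq_mul_right S.hq h5
  have h6 : ∀ x : L, S.bb a 0 x = ∑ s ∈ S.b.support, a (S.b.coeff s) * (0 ^ s 0 * x ^ s 1) := by
    intro x
    have h7 : S.bb a 0 x = eval₂ a ![0, x] S.b := rfl
    rw [h7, eval₂_eq']
    refine Finset.sum_congr rfl fun s _ => ?_
    rw [Fin.prod_univ_two]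
    rfl
  rw [h6 t, ← h1, h6 1, Finset.sum_mul]
  refine Finset.sum_congr rfl fun s hs => ?_
  by_cases h0 : s 0 = 0
  · rw [key s hs h0, one_pow]
    ring
  · rw [zero_pow h0]
    ring

lemma ff_zero (v t : L) : S.ff a v 0 t = a S.c ^ 2 * t ^ (2 * S.n) := by
  have hk : S.k ≠ 0 := by
    obtain ⟨d, hd⟩ := S.hk
    omega
  rw [ff, zero_pow hk, zero_mul, zero_add, bb_zero]

/-- the value of `b` at the origin -/
lemma bb_zero_zero : S.bb a 0 0 = 0 := by
  have := S.hn1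
  rw [bb_zero, zero_pow (by omega), mul_zero]

end val

/-! ### The equation -/

/-- the equation of the double cover -/
noncomputable def eqn : MvPolynomial (Fin 5) ℂ :=
  MvPolynomial.X 4 ^ 2 - rename Fin.castSucc (weightedBranch S.k S.e S.b S.P)

lemma ev_eqn {L : Type} [CommRing L] (a : ℂ →+* L) (x : Fin 5 → L) :
    eval₂Hom a x S.eqn = x 4 ^ 2 -
      (S.ff a (x 0) (x 1) (x 2) + x 3 * S.pp a (x 0) (x 1) (x 2) (x 3)) := by
  have h1 : ∀ f : MvPolynomial (Fin 4) ℂ, eval₂Hom a x (rename Fin.castSucc f) =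
      eval₂Hom a (fun i => x (Fin.castSucc i)) f := by
    intro f
    exact eval₂_rename a _ x f
  have h2 : (fun i : Fin 4 => x (Fin.castSucc i)) = ![x 0, x 1, x 2, x 3] := by
    funext i
    fin_cases i <;> rfl
  have h3 : ∀ f : MvPolynomial (Fin 2) ℂ, eval₂Hom a ![x 0, x 1, x 2, x 3]
      (rename (![1, 2] : Fin 2 → Fin 4) f) = eval₂Hom a ![x 1, x 2] f := by
    intro f
    have h4 : eval₂Hom a ![x 0, x 1, x 2, x 3] (rename (![1, 2] : Fin 2 → Fin 4) f) =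
        eval₂ a ((![x 0, x 1, x 2, x 3] : Fin 4 → L) ∘ (![1, 2] : Fin 2 → Fin 4)) f :=
      eval₂_rename a _ _ f
    rw [h4]
    have h5 : (![x 0, x 1, x 2, x 3] : Fin 4 → L) ∘ (![1, 2] : Fin 2 → Fin 4) = ![x 1, x 2] := by
      funext i
      fin_cases i <;> rfl
    rw [h5]
    rfl
  rw [eqn, map_sub, map_pow, h1, h2, weightedBranch]
  simp only [map_add, map_mul, map_pow, h3]
  simp only [coe_eval₂Hom, eval₂_X]
  rfl

lemma aeval_eqn {D : Type} [CommRing D] [Algebra ℂ D] (x : Fin 5 → D) :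
    aeval x S.eqn = x 4 ^ 2 - (S.ff (algebraMap ℂ D) (x 0) (x 1) (x 2) +
      x 3 * S.pp (algebraMap ℂ D) (x 0) (x 1) (x 2) (x 3)) := S.ev_eqn (algebraMap ℂ D) x

lemma isWeighted_rename {d : ℕ} {f : MvPolynomial (Fin 4) ℂ}
    (hf : IsWeightedHomogeneous ![S.N, S.p, S.q, S.w] f d) :
    IsWeightedHomogeneous S.V.wt (rename Fin.castSucc f) d := by
  classical
  intro s hs
  obtain ⟨u, hu, hs'⟩ := coeff_rename_ne_zero _ _ _ hs
  have h1 := hf hs'
  rw [← hu, Finsupp.weight_apply,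
    Finsupp.sum_mapDomain_index_inj (Fin.castSucc_injective 4)]
  rw [Finsupp.weight_apply] at h1
  rw [← h1]
  refine Finset.sum_congr rfl fun j _ => ?_
  have h2 : S.V.wt (Fin.castSucc j) = (![S.N, S.p, S.q, S.w] : Fin 4 → ℕ) j := by
    fin_cases j <;> rfl
  show u j • S.V.wt (Fin.castSucc j) = u j • _
  rw [h2]

lemma isWeighted_branch :
    IsWeightedHomogeneous ![S.N, S.p, S.q, S.w] (weightedBranch S.k S.e S.b S.P) (2 * S.m) := by
  classical
  rw [weightedBranch]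
  refine IsWeightedHomogeneous.add (IsWeightedHomogeneous.add ?_ ?_) ?_
  · have h1 := ((isWeightedHomogeneous_X ℂ ![S.N, S.p, S.q, S.w] (1 : Fin 4)).pow S.k).mul
      ((isWeightedHomogeneous_X ℂ ![S.N, S.p, S.q, S.w] (0 : Fin 4)).pow S.e)
    have h2 : S.k • (![S.N, S.p, S.q, S.w] : Fin 4 → ℕ) 1 +
        S.e • (![S.N, S.p, S.q, S.w] : Fin 4 → ℕ) 0 = 2 * S.m := by
      have := S.hdeg
      show S.k * S.p + S.e * S.N = 2 * S.m
      omega
    rwa [h2] at h1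
  · intro s hs
    obtain ⟨u, hu, hs'⟩ := coeff_rename_ne_zero _ _ _ hs
    have h1 := S.hb hs'
    rw [← hu, Finsupp.weight_apply, Finsupp.sum_mapDomain_index_inj (by decide)]
    rw [Finsupp.weight_apply] at h1
    rw [← h1]
    refine Finset.sum_congr rfl fun j _ => ?_
    have h2 : (![S.N, S.p, S.q, S.w] : Fin 4 → ℕ) ((![1, 2] : Fin 2 → Fin 4) j) =
        (![S.p, S.q] : Fin 2 → ℕ) j := by
      fin_cases j <;> rfl
    show u j • _ = u j • _
    rw [h2]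
  · have h1 := (isWeightedHomogeneous_X ℂ ![S.N, S.p, S.q, S.w] (3 : Fin 4)).mul S.hP
    have h2 : (![S.N, S.p, S.q, S.w] : Fin 4 → ℕ) 3 + S.j = 2 * S.m := by
      have := S.hj
      show S.w + S.j = 2 * S.m
      omega
    rwa [h2] at h1

lemma isWeighted_eqn : IsWeightedHomogeneous S.V.wt S.eqn (2 * S.m) := by
  rw [eqn]
  refine IsWeightedHomogeneous.sub ?_ (S.isWeighted_rename S.isWeighted_branch)
  have h := (isWeightedHomogeneous_X ℂ S.V.wt (4 : Fin 5)).pow 2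
  have h2 : 2 • S.V.wt 4 = 2 * S.m := by simp
  rwa [h2] at h

/-- a tuple of coordinates in an algebra which satisfies the equation of the double cover -/
lemma onX_genIdeal {M : ℕ} {D : Type} [CommRing D] [Algebra ℂ D] (d : Fin M × Fin 5 → D)
    (i : Fin M) (h : d (i, 4) ^ 2 = S.ff (algebraMap ℂ D) (d (i, 0)) (d (i, 1)) (d (i, 2)) +
      d (i, 3) * S.pp (algebraMap ℂ D) (d (i, 0)) (d (i, 1)) (d (i, 2)) (d (i, 3))) :
    ∀ f ∈ S.V.eqs, inFactor M i f ∈ genIdeal S.V d := by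
  intro f hf
  have hf' : f ∈ Ideal.span {S.eqn} := hf
  obtain ⟨g, rfl⟩ := Ideal.mem_span_singleton'.mp hf'
  rw [map_mul]
  refine Ideal.mul_mem_left _ _ ?_
  rw [mem_genIdeal_of_homogeneous S.V d (inFactor_homogeneous S.V i S.isWeighted_eqn),
    inFactor_aeval, aeval_eqn, h, sub_self]

lemma ev_inFactor {L : Type} [CommRing L] {M : ℕ} (can : Coord (Fin 5) M →+* L) (i : Fin M)
    (f : MvPolynomial (Fin 5) ℂ) : can (inFactor M i f) =
      eval₂Hom (can.comp C) (fun j => can (MvPolynomial.X (i, j))) f := by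
  have h : can.comp (inFactor M i : MvPolynomial (Fin 5) ℂ →ₐ[ℂ] Coord (Fin 5) M).toRingHom =
      eval₂Hom (can.comp C) (fun j => can (MvPolynomial.X (i, j))) := by
    apply MvPolynomial.ringHom_ext
    · intro a
      simp [inFactor]
    · intro j
      simp [inFactor]
  exact congrArg (fun φ => φ f) h

/-- the equation at a homomorphism which kills a point -/
lemma eq_can {L : Type} [CommRing L] {M : ℕ} (can : Coord (Fin 5) M →+* L) (i : Fin M)
    (h : ∀ f ∈ S.V.eqs, can (inFactor M i f) = 0) :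
    can (MvPolynomial.X (i, 4)) ^ 2 = S.ff (can.comp C) (can (MvPolynomial.X (i, 0)))
      (can (MvPolynomial.X (i, 1))) (can (MvPolynomial.X (i, 2))) +
      can (MvPolynomial.X (i, 3)) * S.pp (can.comp C) (can (MvPolynomial.X (i, 0)))
      (can (MvPolynomial.X (i, 1))) (can (MvPolynomial.X (i, 2)))
      (can (MvPolynomial.X (i, 3))) := by
  have h1 : can (inFactor M i S.eqn) = 0 := h _ (Ideal.subset_span rfl)
  rw [ev_inFactor, ev_eqn, sub_eq_zero] at h1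
  exact h1

/-- the equation at a homomorphism which kills a point, on the section `ω = 0` -/
lemma eq_can0 {L : Type} [CommRing L] {M : ℕ} (can : Coord (Fin 5) M →+* L) (i : Fin M)
    (h : ∀ f ∈ S.V.eqs, can (inFactor M i f) = 0) (h3 : can (MvPolynomial.X (i, 3)) = 0) :
    can (MvPolynomial.X (i, 4)) ^ 2 = S.ff (can.comp C) (can (MvPolynomial.X (i, 0)))
      (can (MvPolynomial.X (i, 1))) (can (MvPolynomial.X (i, 2))) := by
  have h1 := S.eq_can can i h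
  rwa [h3, zero_mul, add_zero] at h1

/-! ### The rings -/

/-- the polynomial `s ^ k v ^ e + b(s, t)` in three variables `v, s, t` -/
noncomputable def fY : MvPolynomial (Fin 3) ℂ :=
  S.ff C (MvPolynomial.X 0) (MvPolynomial.X 1) (MvPolynomial.X 2)

/-- the polynomial `s ^ k v ^ e + b(s, t) + ω P` in four variables `v, s, t, ω` -/
noncomputable def fX : MvPolynomial (Fin 4) ℂ :=
  S.ff C (MvPolynomial.X 0) (MvPolynomial.X 1) (MvPolynomial.X 2) + MvPolynomial.X 3 *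
    S.pp C (MvPolynomial.X 0) (MvPolynomial.X 1) (MvPolynomial.X 2) (MvPolynomial.X 3)

/-- the polynomials `s ^ k v ^ e + b(s, t)`, `s ^ k v' ^ e + b(s, t)` in the variables
`v, v', s, t` -/
noncomputable def fV (i : Fin 2) : MvPolynomial (Fin 4) ℂ :=
  S.ff C (MvPolynomial.X (![0, 1] i)) (MvPolynomial.X 2) (MvPolynomial.X 3)

/-- the polynomials `s ^ k v ^ e + b(s, 0)`, `s' ^ k v' ^ e + b(s', 0)` in the variables
`v, v', s, s'` -/
noncomputable def fT (i : Fin 2) : MvPolynomial (Fin 4) ℂ :=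
  S.ff C (MvPolynomial.X (![0, 1] i)) (MvPolynomial.X (![2, 3] i)) 0

/-- the ring of `X` -/
abbrev RX : Type := SQ S.fX

/-- the ring of `Y` -/
abbrev RY : Type := SQ S.fY

/-- the ring of the fibre product -/
abbrev RV : Type := BQ (S.fV 0) (S.fV 1)

/-- the ring of the fibre over `t = 0` -/
abbrev RT : Type := BQ (S.fT 0) (S.fT 1)

/-- the generic point of `X` -/
noncomputable def ptX : Fin 5 → S.RX :=
  ![AdjoinRoot.of _ (MvPolynomial.X 0), AdjoinRoot.of _ (MvPolynomial.X 1),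
    AdjoinRoot.of _ (MvPolynomial.X 2), AdjoinRoot.of _ (MvPolynomial.X 3), AdjoinRoot.root _]

/-- the generic point of `Y` -/
noncomputable def ptY : Fin 5 → S.RY :=
  ![AdjoinRoot.of _ (MvPolynomial.X 0), AdjoinRoot.of _ (MvPolynomial.X 1),
    AdjoinRoot.of _ (MvPolynomial.X 2), 0, AdjoinRoot.root _]

/-- the generic point of the fibre product -/
noncomputable def ptV (u : Fin 2 × Fin 5) : S.RV :=
  (![![bqC _ _ (MvPolynomial.X 0), bqC _ _ (MvPolynomial.X 2), bqC _ _ (MvPolynomial.X 3), 0,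
      bqY _ _],
    ![bqC _ _ (MvPolynomial.X 1), bqC _ _ (MvPolynomial.X 2), bqC _ _ (MvPolynomial.X 3), 0,
      bqZ _ _]] : Fin 2 → Fin 5 → S.RV) u.1 u.2

/-- the generic point of the fibre over `t = 0` -/
noncomputable def ptT (u : Fin 2 × Fin 5) : S.RT :=
  (![![bqC _ _ (MvPolynomial.X 0), bqC _ _ (MvPolynomial.X 2), 0, 0, bqY _ _],
    ![bqC _ _ (MvPolynomial.X 1), bqC _ _ (MvPolynomial.X 3), 0, 0, bqZ _ _]] :
      Fin 2 → Fin 5 → S.RT) u.1 u.2

/-- the generic point of a curve -/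
noncomputable def ptC {D : Type} [CommRing D] [Algebra ℂ D] (ε : ℂ) (v t : D) : Fin 5 → D :=
  ![v, 0, t, 0, algebraMap ℂ D (ε * S.c) * t ^ S.n]

/-- the generic point of the product of two curves -/
noncomputable def ptCC (ε ε' : ℂ) (u : Fin 2 × Fin 5) : MvPolynomial (Fin 4) ℂ :=
  (![S.ptC ε (MvPolynomial.X 0) (MvPolynomial.X 1),
    S.ptC ε' (MvPolynomial.X 2) (MvPolynomial.X 3)] : Fin 2 → Fin 5 → MvPolynomial (Fin 4) ℂ)
      u.1 u.2

lemma eqn_ptC {D : Type} [CommRing D] [Algebra ℂ D] (ε : ℂ) (he : ε ^ 2 = 1) (v t : D) :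
    S.ptC ε v t 4 ^ 2 = S.ff (algebraMap ℂ D) (S.ptC ε v t 0) (S.ptC ε v t 1) (S.ptC ε v t 2) +
      S.ptC ε v t 3 * S.pp (algebraMap ℂ D) (S.ptC ε v t 0) (S.ptC ε v t 1) (S.ptC ε v t 2)
        (S.ptC ε v t 3) := by
  show (algebraMap ℂ D (ε * S.c) * t ^ S.n) ^ 2 = S.ff (algebraMap ℂ D) v 0 t + 0 * _
  rw [ff_zero, zero_mul, add_zero, mul_pow, ← map_pow, mul_pow, he, one_mul, map_pow, ← pow_mul,
    mul_comm S.n 2]

lemma eqn_ptX : S.ptX 4 ^ 2 = S.ff (algebraMap ℂ S.RX) (S.ptX 0) (S.ptX 1) (S.ptX 2) +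
    S.ptX 3 * S.pp (algebraMap ℂ S.RX) (S.ptX 0) (S.ptX 1) (S.ptX 2) (S.ptX 3) := by
  have h : S.ptX 4 ^ 2 = AdjoinRoot.of _ S.fX := sq_root S.fX
  have h1 : S.fX = S.ff C (MvPolynomial.X 0) (MvPolynomial.X 1) (MvPolynomial.X 2) +
    MvPolynomial.X 3 * S.pp C (MvPolynomial.X 0) (MvPolynomial.X 1) (MvPolynomial.X 2)
      (MvPolynomial.X 3) := rfl
  rw [h]
  refine (congrArg (AdjoinRoot.of (Polynomial.X ^ 2 - Polynomial.C S.fX)) h1).trans ?_
  rw [map_add, map_mul, map_ff, map_pp]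
  rfl

lemma eqn_ptY : S.ptY 4 ^ 2 = S.ff (algebraMap ℂ S.RY) (S.ptY 0) (S.ptY 1) (S.ptY 2) +
    S.ptY 3 * S.pp (algebraMap ℂ S.RY) (S.ptY 0) (S.ptY 1) (S.ptY 2) (S.ptY 3) := by
  have h : S.ptY 4 ^ 2 = AdjoinRoot.of _ S.fY := sq_root S.fY
  have h3 : S.ptY 3 = 0 := rfl
  have h1 : S.fY = S.ff C (MvPolynomial.X 0) (MvPolynomial.X 1) (MvPolynomial.X 2) := rfl
  rw [h, h3, zero_mul, add_zero]
  refine (congrArg (AdjoinRoot.of (Polynomial.X ^ 2 - Polynomial.C S.fY)) h1).trans ?_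
  rw [map_ff]
  rfl

lemma eqn_ptV (i : Fin 2) : S.ptV (i, 4) ^ 2 =
    S.ff (algebraMap ℂ S.RV) (S.ptV (i, 0)) (S.ptV (i, 1)) (S.ptV (i, 2)) +
    S.ptV (i, 3) * S.pp (algebraMap ℂ S.RV) (S.ptV (i, 0)) (S.ptV (i, 1)) (S.ptV (i, 2))
      (S.ptV (i, 3)) := by
  fin_cases i
  · have h : S.ptV (0, 4) ^ 2 = bqC _ _ (S.fV 0) := bqY_sq _ _
    have h3 : S.ptV (0, 3) = 0 := rfl
    show S.ptV (0, 4) ^ 2 = S.ff (algebraMap ℂ S.RV) (S.ptV (0, 0)) (S.ptV (0, 1))
      (S.ptV (0, 2)) + S.ptV (0, 3) * _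
    have h1 : S.fV 0 = S.ff C (MvPolynomial.X 0) (MvPolynomial.X 2) (MvPolynomial.X 3) := rfl
    rw [h, h3, zero_mul, add_zero]
    refine (congrArg (bqC (S.fV 0) (S.fV 1)) h1).trans ?_
    rw [map_ff]
    rfl
  · have h : S.ptV (1, 4) ^ 2 = bqC _ _ (S.fV 1) := bqZ_sq _ _
    have h3 : S.ptV (1, 3) = 0 := rfl
    show S.ptV (1, 4) ^ 2 = S.ff (algebraMap ℂ S.RV) (S.ptV (1, 0)) (S.ptV (1, 1))
      (S.ptV (1, 2)) + S.ptV (1, 3) * _
    have h1 : S.fV 1 = S.ff C (MvPolynomial.X 1) (MvPolynomial.X 2) (MvPolynomial.X 3) := rfl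
    rw [h, h3, zero_mul, add_zero]
    refine (congrArg (bqC (S.fV 0) (S.fV 1)) h1).trans ?_
    rw [map_ff]
    rfl

lemma eqn_ptT (i : Fin 2) : S.ptT (i, 4) ^ 2 =
    S.ff (algebraMap ℂ S.RT) (S.ptT (i, 0)) (S.ptT (i, 1)) (S.ptT (i, 2)) +
    S.ptT (i, 3) * S.pp (algebraMap ℂ S.RT) (S.ptT (i, 0)) (S.ptT (i, 1)) (S.ptT (i, 2))
      (S.ptT (i, 3)) := by
  fin_cases i
  · have h : S.ptT (0, 4) ^ 2 = bqC _ _ (S.fT 0) := bqY_sq _ _
    have h3 : S.ptT (0, 3) = 0 := rfl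
    have h2 : S.ptT (0, 2) = 0 := rfl
    show S.ptT (0, 4) ^ 2 = S.ff (algebraMap ℂ S.RT) (S.ptT (0, 0)) (S.ptT (0, 1))
      (S.ptT (0, 2)) + S.ptT (0, 3) * _
    have h1 : S.fT 0 = S.ff C (MvPolynomial.X 0) (MvPolynomial.X 2) 0 := rfl
    rw [h, h3, h2, zero_mul, add_zero]
    refine (congrArg (bqC (S.fT 0) (S.fT 1)) h1).trans ?_
    rw [map_ff, map_zero]
    rfl
  · have h : S.ptT (1, 4) ^ 2 = bqC _ _ (S.fT 1) := bqZ_sq _ _
    have h3 : S.ptT (1, 3) = 0 := rfl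
    have h2 : S.ptT (1, 2) = 0 := rfl
    show S.ptT (1, 4) ^ 2 = S.ff (algebraMap ℂ S.RT) (S.ptT (1, 0)) (S.ptT (1, 1))
      (S.ptT (1, 2)) + S.ptT (1, 3) * _
    have h1 : S.fT 1 = S.ff C (MvPolynomial.X 1) (MvPolynomial.X 3) 0 := rfl
    rw [h, h3, h2, zero_mul, add_zero]
    refine (congrArg (bqC (S.fT 0) (S.fT 1)) h1).trans ?_
    rw [map_ff, map_zero]
    rfl

/-- the equation after a change of sign of a coordinate `y` -/
lemma eqn_negY {D : Type} [CommRing D] [Algebra ℂ D] (d : Fin 2 × Fin 5 → D) (i k : Fin 2)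
    (h : d (i, 4) ^ 2 = S.ff (algebraMap ℂ D) (d (i, 0)) (d (i, 1)) (d (i, 2)) +
      d (i, 3) * S.pp (algebraMap ℂ D) (d (i, 0)) (d (i, 1)) (d (i, 2)) (d (i, 3))) :
    DSData.negY k d (i, 4) ^ 2 = S.ff (algebraMap ℂ D) (DSData.negY k d (i, 0))
      (DSData.negY k d (i, 1)) (DSData.negY k d (i, 2)) +
      DSData.negY k d (i, 3) * S.pp (algebraMap ℂ D) (DSData.negY k d (i, 0))
        (DSData.negY k d (i, 1)) (DSData.negY k d (i, 2)) (DSData.negY k d (i, 3)) := by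
  have h0 : ∀ j : Fin 5, j ≠ 4 → DSData.negY k d (i, j) = d (i, j) := by
    intro j hj
    rw [DSData.negY, if_neg]
    intro h'
    exact hj (Prod.mk.inj h').2
  have h4 : DSData.negY k d (i, 4) ^ 2 = d (i, 4) ^ 2 := by
    rw [DSData.negY]
    split_ifs <;> ring
  rw [h4, h0 0 (by decide), h0 1 (by decide), h0 2 (by decide), h0 3 (by decide)]
  exact h

end WD

end Pool.Agent.RCH
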