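import Pool.Agent.RCH.WdElem

/-!
# The monomials of a general weighted form
-/

set_option autoImplicit false

open MvPolynomial

namespace Pool.Agent.RCH

/-- The weights: `N, p, q, w, m` for the coordinates `x_0, x_1, x_2, x_3, x_4`, with
`e N + k p = 2 m`, `n q = m`, where `k` is odd, `e` divides `p` and `q` and is prime to `N`. -/
structure GW where
  N : ℕ
  p : ℕ
  q : ℕ
  w : ℕ
  m : ℕ
  e : ℕ
  k : ℕ
  n : ℕ
  hN : 1 ≤ N
  hp : 1 ≤ p
  hq : 1 ≤ q
  hw : 1 ≤ w
  hep : e ∣ p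
  heq : e ∣ q
  hNe : N.Coprime e
  hk : Odd k
  hdeg : e * N + k * p = 2 * m
  hn : n * q = m

namespace GW

variable (G : GW)

/-- the weights of the five coordinates -/
def wt5 : Fin 5 → ℕ := ![G.N, G.p, G.q, G.w, G.m]

/-- the weights of the first four coordinates -/
def wt4 : Fin 4 → ℕ := ![G.N, G.p, G.q, G.w]

/-- the weights of `x_1, x_2` -/
def wt2 : Fin 2 → ℕ := ![G.p, G.q]

lemma he : 1 ≤ G.e := Nat.pos_of_dvd_of_pos G.hep G.hp

lemma hm : 1 ≤ G.m := by
  have h1 := G.hdeg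
  have h2 := Nat.mul_le_mul G.he G.hN
  omega

lemma hn1 : 1 ≤ G.n := by
  rcases Nat.eq_zero_or_pos G.n with h | h
  · have h1 := G.hn
    have h2 := G.hm
    rw [h, zero_mul] at h1
    omega
  · exact h

lemma pos5 (j : Fin 5) : 0 < G.wt5 j := by
  have h1 := G.hN
  have h2 := G.hp
  have h3 := G.hq
  have h4 := G.hw
  have h5 := G.hm
  fin_cases j
  · exact h1
  · exact h2
  · exact h3
  · exact h4
  · exact h5

/-- the exponent of `x_0` is divisible by `e` -/
lemma dvd_exp {a b c : ℕ} {d : ℕ} (h : G.N * a + G.p * b + G.q * c = d) (hd : G.e ∣ d) :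
    G.e ∣ a := by
  have h1 : G.e ∣ G.N * a := by
    have h2 : G.e ∣ G.p * b := Dvd.dvd.mul_right G.hep b
    have h3 : G.e ∣ G.q * c := Dvd.dvd.mul_right G.heq c
    have h4 : G.e ∣ G.N * a + (G.p * b + G.q * c) := by
      rw [← add_assoc, h]
      exact hd
    exact (Nat.dvd_add_left (dvd_add h2 h3)).mp h4
  exact Nat.Coprime.dvd_of_dvd_mul_left G.hNe.symm h1

lemma dvd_m : G.e ∣ G.m := by
  rw [← G.hn]
  exact Dvd.dvd.mul_left G.heq G.n

/-- no monomial `x_0 ^ (l e) x_1 ^ i x_2 ^ c` with `l ≥ 2` has degree `2 m` -/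
def NoPow : Prop := ∀ l i c : ℕ, 2 ≤ l → l * (G.e * G.N) + G.p * i + G.q * c ≠ 2 * G.m

/-- the exponents of monomials of degree `2 m` -/
lemma exp_2m (hlt : G.NoPow) {a b c : ℕ} (h : G.N * a + G.p * b + G.q * c = 2 * G.m) :
    a = 0 ∨ a = G.e := by
  obtain ⟨l, hl⟩ := G.dvd_exp h (Dvd.dvd.mul_left G.dvd_m 2)
  rcases Nat.lt_trichotomy l 1 with h0 | h0 | h0
  · left
    have : l = 0 := by omega
    rw [hl, this, mul_zero]
  · right
    rw [hl, h0, mul_one]
  · exfalso
    refine hlt l b c h0 ?_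
    rw [← h, hl]
    ring

/-- the exponents of monomials of degree `m` -/
lemma exp_m (hlt : G.NoPow) {a b c : ℕ} (h : G.N * a + G.p * b + G.q * c = G.m) : a = 0 := by
  obtain ⟨l, hl⟩ := G.dvd_exp h G.dvd_m
  have h1 : G.N * (2 * a) + G.p * (2 * b) + G.q * (2 * c) = 2 * G.m := by
    rw [← h]
    ring
  rcases G.exp_2m hlt h1 with h2 | h2
  · omega
  · exfalso
    have he := G.he
    rw [hl] at h2
    rcases Nat.eq_zero_or_pos l with h0 | h0
    · rw [h0] at h2
      omega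
    · have h3 : G.e * 1 ≤ G.e * l := Nat.mul_le_mul_left _ h0
      omega

/-- the condition on the monomials without `x_3`: they contain `x_0^0` or `x_0^e`, in the second
case without `x_4` -/
def Good (s : Fin 5 →₀ ℕ) : Prop := s 3 = 0 → s 0 = 0 ∨ (s 0 = G.e ∧ s 4 = 0)

/-- the exponent of `y²` -/
noncomputable def expY : Fin 5 →₀ ℕ := Finsupp.single 4 2

/-- the exponent of `x_1^i x_2^c x_0^e` -/
noncomputable def expA (i c : ℕ) : Fin 5 →₀ ℕ :=
  Finsupp.single 0 G.e + Finsupp.single 1 i + Finsupp.single 2 c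

/-- the form with given parts -/
noncomputable def asm (κ : ℂ) (A g0 b0 : MvPolynomial (Fin 2) ℂ)
    (g1 h1 : MvPolynomial (Fin 4) ℂ) : MvPolynomial (Fin 5) ℂ :=
  C κ * X 4 ^ 2 + X 4 * rename Fin.castSucc (rename ![1, 2] g0 + X 3 * g1) +
    rename Fin.castSucc (rename ![1, 2] A * X 0 ^ G.e + rename ![1, 2] b0 + X 3 * h1)

/-- `F` has the shape forced by the weights -/
def Dec (F : MvPolynomial (Fin 5) ℂ) : Prop :=
  ∃ (A g0 b0 : MvPolynomial (Fin 2) ℂ) (g1 h1 : MvPolynomial (Fin 4) ℂ),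
    IsWeightedHomogeneous G.wt2 g0 G.m ∧ IsWeightedHomogeneous G.wt2 b0 (2 * G.m) ∧
      IsWeightedHomogeneous G.wt4 (X 3 * g1) G.m ∧
      IsWeightedHomogeneous G.wt4 (X 3 * h1) (2 * G.m) ∧
      (∀ t : Fin 2 →₀ ℕ, coeff t A = coeff (G.expA (t 0) (t 1)) F) ∧
      F = G.asm (coeff expY F) A g0 b0 g1 h1

lemma asm_add (κ κ' : ℂ) (A A' g0 b0 g0' b0' : MvPolynomial (Fin 2) ℂ)
    (g1 h1 g1' h1' : MvPolynomial (Fin 4) ℂ) :
    G.asm κ A g0 b0 g1 h1 + G.asm κ' A' g0' b0' g1' h1' =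
      G.asm (κ + κ') (A + A') (g0 + g0') (b0 + b0') (g1 + g1') (h1 + h1') := by
  simp only [asm, map_add, map_mul]
  ring

lemma X3_zero (d : ℕ) : IsWeightedHomogeneous G.wt4 (X 3 * 0 : MvPolynomial (Fin 4) ℂ) d := by
  rw [mul_zero]
  exact isWeightedHomogeneous_zero _ _ _

lemma dec_add {F F' : MvPolynomial (Fin 5) ℂ} (h : G.Dec F) (h' : G.Dec F') : G.Dec (F + F') := by
  obtain ⟨A, g0, b0, g1, h1, hg, hb, hg1, hh1, hA, hF⟩ := h
  obtain ⟨A', g0', b0', g1', h1', hg', hb', hg1', hh1', hA', hF'⟩ := h'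
  refine ⟨A + A', g0 + g0', b0 + b0', g1 + g1', h1 + h1', hg.add hg', hb.add hb',
    by rw [mul_add]; exact hg1.add hg1', by rw [mul_add]; exact hh1.add hh1', ?_, ?_⟩
  · intro t
    rw [coeff_add, coeff_add, hA, hA']
  · rw [coeff_add, ← asm_add, ← hF, ← hF']

lemma dec_zero : G.Dec 0 := by
  refine ⟨0, 0, 0, 0, 0, isWeightedHomogeneous_zero _ _ _, isWeightedHomogeneous_zero _ _ _,
    G.X3_zero _, G.X3_zero _, fun t => ?_, ?_⟩
  · rw [coeff_zero, coeff_zero]
  · simp [asm]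

lemma monomial5 (s : Fin 5 →₀ ℕ) (c : ℂ) : (monomial s c : MvPolynomial (Fin 5) ℂ) =
    C c * (X 0 ^ s 0 * X 1 ^ s 1 * X 2 ^ s 2 * X 3 ^ s 3 * X 4 ^ s 4) := by
  rw [monomial_eq, Finsupp.prod_fintype _ _ (fun i => pow_zero _), Fin.prod_univ_five]

lemma monomial2 (s : Fin 2 →₀ ℕ) (c : ℂ) : (monomial s c : MvPolynomial (Fin 2) ℂ) =
    C c * (X 0 ^ s 0 * X 1 ^ s 1) := by
  rw [monomial_eq, Finsupp.prod_fintype _ _ (fun i => pow_zero _), Fin.prod_univ_two]

lemma homog2 {a b d : ℕ} (h : G.p * a + G.q * b = d) (c : ℂ) :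
    IsWeightedHomogeneous G.wt2 (C c * (X 0 ^ a * X 1 ^ b) : MvPolynomial (Fin 2) ℂ) d := by
  have h1 := (isWeightedHomogeneous_C G.wt2 c).mul
    (((isWeightedHomogeneous_X ℂ G.wt2 (0 : Fin 2)).pow a).mul
      ((isWeightedHomogeneous_X ℂ G.wt2 (1 : Fin 2)).pow b))
  have h2 : 0 + (a • G.wt2 0 + b • G.wt2 1) = d := by
    show 0 + (a * G.p + b * G.q) = d
    rw [← h]
    ring
  rwa [h2] at h1

lemma homog4 {a b c r d : ℕ} (h : G.N * a + G.p * b + G.q * c + G.w * (r + 1) = d) (z : ℂ) :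
    IsWeightedHomogeneous G.wt4 (X 3 * (C z * (X 0 ^ a * X 1 ^ b * X 2 ^ c * X 3 ^ r)) :
      MvPolynomial (Fin 4) ℂ) d := by
  have h1 := (isWeightedHomogeneous_X ℂ G.wt4 (3 : Fin 4)).mul
    ((isWeightedHomogeneous_C G.wt4 z).mul
    (((((isWeightedHomogeneous_X ℂ G.wt4 (0 : Fin 4)).pow a).mul
      ((isWeightedHomogeneous_X ℂ G.wt4 (1 : Fin 4)).pow b)).mul
      ((isWeightedHomogeneous_X ℂ G.wt4 (2 : Fin 4)).pow c)).mul
      ((isWeightedHomogeneous_X ℂ G.wt4 (3 : Fin 4)).pow r)))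
  have h2 : G.wt4 3 + (0 + (a • G.wt4 0 + b • G.wt4 1 + c • G.wt4 2 + r • G.wt4 3)) = d := by
    show G.w + (0 + (a * G.N + b * G.p + c * G.q + r * G.w)) = d
    rw [← h]
    ring
  rwa [h2] at h1

lemma weight5 (s : Fin 5 →₀ ℕ) : Finsupp.weight G.wt5 s =
    G.N * s 0 + G.p * s 1 + G.q * s 2 + G.w * s 3 + G.m * s 4 := by
  rw [Finsupp.weight_apply, Finsupp.sum_fintype _ _ (fun _ => by simp), Fin.sum_univ_five]
  show s 0 * G.N + s 1 * G.p + s 2 * G.q + s 3 * G.w + s 4 * G.m = _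
  ring

lemma ne_expY {s : Fin 5 →₀ ℕ} (h : s 4 ≠ 2) : s ≠ expY := by
  rintro rfl
  exact h (by simp [expY])

lemma expA_0 (i c : ℕ) : G.expA i c 0 = G.e := by simp [expA]
lemma expA_1 (i c : ℕ) : G.expA i c 1 = i := by simp [expA]
lemma expA_2 (i c : ℕ) : G.expA i c 2 = c := by simp [expA]
lemma expA_3 (i c : ℕ) : G.expA i c 3 = 0 := by simp [expA]
lemma expA_4 (i c : ℕ) : G.expA i c 4 = 0 := by simp [expA]

lemma ne_expA {s : Fin 5 →₀ ℕ} (h : s 0 ≠ G.e ∨ s 4 ≠ 0 ∨ s 3 ≠ 0) (i c : ℕ) :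
    s ≠ G.expA i c := by
  rintro rfl
  rcases h with h | h | h
  · exact h (G.expA_0 i c)
  · exact h (G.expA_4 i c)
  · exact h (G.expA_3 i c)

lemma coeff_zero_of {s : Fin 5 →₀ ℕ} (h : s 0 ≠ G.e ∨ s 4 ≠ 0 ∨ s 3 ≠ 0) (c : ℂ)
    (t : Fin 2 →₀ ℕ) : coeff t (0 : MvPolynomial (Fin 2) ℂ) =
      coeff (G.expA (t 0) (t 1)) (monomial s c : MvPolynomial (Fin 5) ℂ) := by
  rw [coeff_zero, coeff_monomial, if_neg (G.ne_expA h _ _)]

lemma ext5 {s t : Fin 5 →₀ ℕ} (h0 : s 0 = t 0) (h1 : s 1 = t 1) (h2 : s 2 = t 2)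
    (h3 : s 3 = t 3) (h4 : s 4 = t 4) : s = t := by
  ext i
  fin_cases i
  · exact h0
  · exact h1
  · exact h2
  · exact h3
  · exact h4

lemma dec_monomial (s : Fin 5 →₀ ℕ) (c : ℂ) (hs : Finsupp.weight G.wt5 s = 2 * G.m)
    (hgood : G.Good s) : G.Dec (monomial s c) := by
  rw [weight5] at hs
  have hm := G.hm
  have hN := G.hN
  have hp := G.hp
  have hq := G.hq
  have hw := G.hw
  have he := G.he
  have c4 : Fin.castSucc (0 : Fin 4) = (0 : Fin 5) ∧ Fin.castSucc (1 : Fin 4) = (1 : Fin 5) ∧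
      Fin.castSucc (2 : Fin 4) = (2 : Fin 5) ∧ Fin.castSucc (3 : Fin 4) = (3 : Fin 5) :=
    ⟨rfl, rfl, rfl, rfl⟩
  obtain ⟨c0, c1, c2, c3⟩ := c4
  rcases Nat.lt_trichotomy (s 4) 1 with h4 | h4 | h4
  · have h4' : s 4 = 0 := by omega
    rw [h4', mul_zero, add_zero] at hs
    rcases Nat.eq_zero_or_pos (s 3) with h3 | h3
    · rw [h3, mul_zero, add_zero] at hs
      rcases hgood h3 with h0 | ⟨h0, -⟩
      · -- no `x_0`
        refine ⟨0, 0, C c * (X 0 ^ s 1 * X 1 ^ s 2), 0, 0, isWeightedHomogeneous_zero _ _ _,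
          G.homog2 (by rw [← hs, h0]; ring) c, G.X3_zero _, G.X3_zero _,
          G.coeff_zero_of (by omega) c, ?_⟩
        rw [coeff_monomial, if_neg (ne_expY (by omega)), monomial5, h0, h3, h4']
        simp only [asm, map_add, map_mul, map_pow, rename_C, rename_X, map_zero,
          Matrix.cons_val_zero, Matrix.cons_val_one, c1, c2, c3, c0]
        ring
      · -- `x_0^e`
        refine ⟨C c * (X 0 ^ s 1 * X 1 ^ s 2), 0, 0, 0, 0, isWeightedHomogeneous_zero _ _ _,
          isWeightedHomogeneous_zero _ _ _, G.X3_zero _, G.X3_zero _, fun t => ?_, ?_⟩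
        · have h6 : (C c * (X 0 ^ s 1 * X 1 ^ s 2) : MvPolynomial (Fin 2) ℂ) =
              monomial (Finsupp.single 0 (s 1) + Finsupp.single 1 (s 2)) c := by
            rw [monomial2]
            simp
          rw [h6, coeff_monomial, coeff_monomial]
          by_cases ht : Finsupp.single 0 (s 1) + Finsupp.single 1 (s 2) = t
          · rw [if_pos ht, if_pos]
            have t0 : t 0 = s 1 := by rw [← ht]; simp
            have t1 : t 1 = s 2 := by rw [← ht]; simp
            rw [t0, t1]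
            apply ext5
            · rw [expA_0, h0]
            · rw [expA_1]
            · rw [expA_2]
            · rw [expA_3, h3]
            · rw [expA_4, h4']
          · rw [if_neg ht, if_neg]
            intro h7
            apply ht
            have t1 : s 1 = t 0 := by rw [h7, expA_1]
            have t2 : s 2 = t 1 := by rw [h7, expA_2]
            rw [t1, t2]
            ext i
            fin_cases i <;> simp
        · rw [coeff_monomial, if_neg (ne_expY (by omega)), monomial5, h0, h3, h4']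
          simp only [asm, map_add, map_mul, map_pow, rename_C, rename_X, map_zero,
            Matrix.cons_val_zero, Matrix.cons_val_one, c1, c2, c3, c0]
          ring
    · -- divisible by `x_3`
      obtain ⟨r, hr⟩ : ∃ r, s 3 = r + 1 := ⟨s 3 - 1, by omega⟩
      refine ⟨0, 0, 0, 0, C c * (X 0 ^ s 0 * X 1 ^ s 1 * X 2 ^ s 2 * X 3 ^ r),
        isWeightedHomogeneous_zero _ _ _, isWeightedHomogeneous_zero _ _ _, G.X3_zero _,
        G.homog4 (by rw [← hr, ← hs]) c, G.coeff_zero_of (by omega) c, ?_⟩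
      rw [coeff_monomial, if_neg (ne_expY (by omega)), monomial5, hr, h4']
      simp only [asm, map_add, map_mul, map_pow, rename_C, rename_X, map_zero, c1, c2, c3, c0]
      ring
  · rw [h4, mul_one] at hs
    rcases Nat.eq_zero_or_pos (s 3) with h3 | h3
    · rw [h3, mul_zero, add_zero] at hs
      have hs' : G.N * s 0 + G.p * s 1 + G.q * s 2 = G.m := by omega
      have h0 : s 0 = 0 := by
        rcases hgood h3 with h0 | ⟨-, h0⟩
        · exact h0
        · omega
      refine ⟨0, C c * (X 0 ^ s 1 * X 1 ^ s 2), 0, 0, 0,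
        G.homog2 (by rw [← hs', h0]; ring) c, isWeightedHomogeneous_zero _ _ _,
        G.X3_zero _, G.X3_zero _, G.coeff_zero_of (by omega) c, ?_⟩
      rw [coeff_monomial, if_neg (ne_expY (by omega)), monomial5, h0, h3, h4]
      simp only [asm, map_add, map_mul, map_pow, rename_C, rename_X, map_zero,
        Matrix.cons_val_zero, Matrix.cons_val_one, c1, c2, c3, c0]
      ring
    · obtain ⟨r, hr⟩ : ∃ r, s 3 = r + 1 := ⟨s 3 - 1, by omega⟩
      refine ⟨0, 0, 0, C c * (X 0 ^ s 0 * X 1 ^ s 1 * X 2 ^ s 2 * X 3 ^ r), 0,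
        isWeightedHomogeneous_zero _ _ _, isWeightedHomogeneous_zero _ _ _,
        G.homog4 (by rw [← hr]; omega) c, G.X3_zero _, G.coeff_zero_of (by omega) c, ?_⟩
      rw [coeff_monomial, if_neg (ne_expY (by omega)), monomial5, hr, h4]
      simp only [asm, map_add, map_mul, map_pow, rename_C, rename_X, map_zero, c1, c2, c3, c0]
      ring
  · -- `y²`
    have h5 : G.m * 2 ≤ G.m * s 4 := Nat.mul_le_mul_left _ h4
    have k4 : s 4 = 2 := by
      by_contra hne
      have h6 : G.m * 3 ≤ G.m * s 4 := Nat.mul_le_mul_left _ (by omega)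
      omega
    rw [k4] at hs
    have k0 : s 0 = 0 := by
      have h6 : G.N * s 0 = 0 := by omega
      exact (Nat.mul_eq_zero.mp h6).resolve_left (by omega)
    have k1 : s 1 = 0 := by
      have h6 : G.p * s 1 = 0 := by omega
      exact (Nat.mul_eq_zero.mp h6).resolve_left (by omega)
    have k2 : s 2 = 0 := by
      have h6 : G.q * s 2 = 0 := by omega
      exact (Nat.mul_eq_zero.mp h6).resolve_left (by omega)
    have k3 : s 3 = 0 := by
      have h6 : G.w * s 3 = 0 := by omega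
      exact (Nat.mul_eq_zero.mp h6).resolve_left (by omega)
    refine ⟨0, 0, 0, 0, 0, isWeightedHomogeneous_zero _ _ _, isWeightedHomogeneous_zero _ _ _,
      G.X3_zero _, G.X3_zero _, G.coeff_zero_of (by omega) c, ?_⟩
    have hsY : s = expY := by
      apply ext5 <;> simp [expY, k0, k1, k2, k3, k4]
    rw [coeff_monomial, if_pos hsY, monomial5, k0, k1, k2, k3, k4]
    simp only [asm, map_add, map_mul, map_pow, rename_X, map_zero, c3, c0]
    ring

/-- the shape of a weighted form of degree `2 m` -/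
theorem dec_of (F : MvPolynomial (Fin 5) ℂ) (hF : IsWeightedHomogeneous G.wt5 F (2 * G.m))
    (hgood : ∀ s ∈ F.support, G.Good s) : G.Dec F := by
  have key : ∀ t : Finset (Fin 5 →₀ ℕ), t ⊆ F.support →
      G.Dec (∑ s ∈ t, monomial s (coeff s F)) := by
    classical
    intro t
    induction t using Finset.induction_on with
    | empty =>
      intro _
      rw [Finset.sum_empty]
      exact G.dec_zero
    | insert s t hs ih =>
      intro ht
      have hsF := ht (Finset.mem_insert_self s t)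
      rw [Finset.sum_insert hs]
      refine G.dec_add (G.dec_monomial s _ ?_ (hgood s hsF))
        (ih fun x hx => ht (Finset.mem_insert_of_mem hx))
      exact hF (mem_support_iff.mp hsF)
  have h := key F.support (Finset.Subset.refl _)
  rwa [← MvPolynomial.as_sum F] at h

/-- the condition on the monomials is forced by the weights -/
theorem good_of (hlt : G.NoPow) {F : MvPolynomial (Fin 5) ℂ}
    (hF : IsWeightedHomogeneous G.wt5 F (2 * G.m)) : ∀ s ∈ F.support, G.Good s := by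
  intro s hs h3
  have h1 := hF (mem_support_iff.mp hs)
  rw [weight5, h3, mul_zero, add_zero] at h1
  have hm := G.hm
  rcases Nat.lt_trichotomy (s 4) 1 with h4 | h4 | h4
  · have h4' : s 4 = 0 := by omega
    rw [h4', mul_zero, add_zero] at h1
    rcases G.exp_2m hlt h1 with h0 | h0
    · exact Or.inl h0
    · exact Or.inr ⟨h0, h4'⟩
  · rw [h4, mul_one] at h1
    exact Or.inl (G.exp_m hlt (b := s 1) (c := s 2) (by omega))
  · left
    have h5 : G.m * 2 ≤ G.m * s 4 := Nat.mul_le_mul_left _ h4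
    have h6 : G.N * s 0 = 0 := by omega
    exact (Nat.mul_eq_zero.mp h6).resolve_left (by have := G.hN; omega)

end GW

end Pool.Agent.RCH
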