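import Pool.Agent.RCH.WdDec
import Pool.Agent.RCH.WdData

/-!
# The normal form of a general weighted form
-/

set_option autoImplicit false

open MvPolynomial

namespace Pool.Agent.RCH

open Wd

/-- homogeneity of a factor of a product with a coordinate -/
lemma homogeneous_of_X_mul {σ : Type} (wt : σ → ℕ) (i : σ) {P : MvPolynomial σ ℂ} {d j : ℕ}
    (h : IsWeightedHomogeneous wt (X i * P) d) (hj : j + wt i = d) :
    IsWeightedHomogeneous wt P j := by
  classical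
  intro s hs
  have h1 : coeff (Finsupp.single i 1 + s) (X i * P) ≠ 0 := by
    rw [coeff_X_mul]
    exact hs
  have h2 := h h1
  rw [map_add, Finsupp.weight_single, one_smul] at h2
  omega

/-- the value of a weighted form in two variables at `(b t^j, t)` -/
lemma aeval_two {D : Type} [CommRing D] [Algebra ℂ D] {p q n j : ℕ} (hq : 1 ≤ q)
    {g : MvPolynomial (Fin 2) ℂ} (hg : IsWeightedHomogeneous ![p, q] g (n * q)) (b : ℂ)
    (hb : b = 0 ∨ j * q = p) (t : D) :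
    aeval ![algebraMap ℂ D b * t ^ j, t] g = algebraMap ℂ D (eval ![b, 1] g) * t ^ n := by
  classical
  have h1 : aeval ![algebraMap ℂ D b * t ^ j, t] g =
      ∑ s ∈ g.support, algebraMap ℂ D (coeff s g) *
        ((algebraMap ℂ D b * t ^ j) ^ s 0 * t ^ s 1) := by
    rw [aeval_def, eval₂_eq']
    refine Finset.sum_congr rfl fun s _ => ?_
    rw [Fin.prod_univ_two]
    rfl
  have h2 : eval ![b, 1] g = ∑ s ∈ g.support, coeff s g * (b ^ s 0 * 1 ^ s 1) := by
    rw [eval_eq']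
    refine Finset.sum_congr rfl fun s _ => ?_
    rw [Fin.prod_univ_two]
    rfl
  rw [h1, h2, map_sum, Finset.sum_mul]
  refine Finset.sum_congr rfl fun s hs => ?_
  rw [map_mul, one_pow, mul_one, map_pow, mul_pow, mul_assoc, mul_assoc]
  congr 1
  have hw := hg (mem_support_iff.1 hs)
  rw [Finsupp.weight_apply, Finsupp.sum_fintype _ _ (fun _ => by simp), Fin.sum_univ_two] at hw
  have hw' : s 0 * p + s 1 * q = n * q := hw
  by_cases h0 : s 0 = 0
  · rw [h0, zero_mul, zero_add] at hw'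
    have h3 : s 1 = n := Nat.eq_of_mul_eq_mul_right hq hw'
    rw [h0, h3, pow_zero, pow_zero, one_mul, one_mul]
  · rcases hb with hb | hb
    · rw [hb, map_zero, zero_pow h0, zero_mul, zero_mul]
    · congr 1
      rw [← pow_mul, ← pow_add]
      congr 1
      have h3 : (j * s 0 + s 1) * q = n * q := by
        rw [← hw', ← hb]
        ring
      exact Nat.eq_of_mul_eq_mul_right hq h3

lemma cs_ne4 (a : Fin 4) : Fin.castSucc a ≠ (4 : Fin 5) := (Fin.castSucc_lt_last a).ne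

/-- The data of a general weighted form: its coefficient of `x_0^e` modulo `x_3` is the `k`-th power
of `a x_1 + b x_2^j`. -/
structure GF extends GW where
  F : MvPolynomial (Fin 5) ℂ
  hF : IsWeightedHomogeneous toGW.wt5 F (2 * m)
  hκ : coeff GW.expY F ≠ 0
  al : ℂ
  be : ℂ
  j : ℕ
  hal : al ≠ 0
  hbe : be = 0 ∨ j * q = p
  hgood : ∀ s ∈ F.support, toGW.Good s
  hA : ∀ i c : ℕ, coeff (toGW.expA i c) F = coeff (Finsupp.single 0 i + Finsupp.single 1 c)
    ((C al * X 0 + C be * X 1 ^ j : MvPolynomial (Fin 2) ℂ) ^ k)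
  hw2 : w ≤ 2 * m
  ρ : ℂ
  ρ' : ℂ
  hρ : ρ ≠ ρ'
  h1 : eval ![0, -(be / al), 1, 0, ρ] F = 0
  h2 : eval ![0, -(be / al), 1, 0, ρ'] F = 0

namespace GF

variable (G : GF)

/-- the coefficient of `y²` -/
noncomputable def ka : ℂ := coeff GW.expY G.F

/-- the value of `x_1` at the zero of the linear form with `x_2 = 1` -/
noncomputable def lb : ℂ := -(G.be / G.al)

/-- the linear form -/
noncomputable def sig : MvPolynomial (Fin 5) ℂ := C G.al * X 1 + C G.be * X 2 ^ G.j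

lemma ka_ne : G.ka ≠ 0 := G.hκ
lemma al_ne : G.al ≠ 0 := G.hal

lemma k_ne : G.k ≠ 0 := by
  obtain ⟨d, hd⟩ := G.hk
  omega

lemma lb_or : G.lb = 0 ∨ G.j * G.q = G.p := by
  rcases G.hbe with h | h
  · left
    rw [lb, h, zero_div, neg_zero]
  · exact Or.inr h

lemma exists_parts : ∃ (g0 b0 : MvPolynomial (Fin 2) ℂ) (g1 h1 : MvPolynomial (Fin 4) ℂ),
    IsWeightedHomogeneous G.wt2 g0 G.m ∧ IsWeightedHomogeneous G.wt2 b0 (2 * G.m) ∧
      IsWeightedHomogeneous G.wt4 (X 3 * g1) G.m ∧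
      IsWeightedHomogeneous G.wt4 (X 3 * h1) (2 * G.m) ∧
      G.F = G.asm G.ka ((C G.al * X 0 + C G.be * X 1 ^ G.j) ^ G.k) g0 b0 g1 h1 := by
  obtain ⟨A, g0, b0, g1, h1, hg, hb, hg1, hh1, hA, hF⟩ := G.dec_of G.F G.hF G.hgood
  refine ⟨g0, b0, g1, h1, hg, hb, hg1, hh1, ?_⟩
  have hA' : A = (C G.al * X 0 + C G.be * X 1 ^ G.j) ^ G.k := by
    ext t
    rw [hA, G.hA]
    congr 1
    ext i
    fin_cases i <;> simp
  rw [← hA']
  exact hF

noncomputable def g0 : MvPolynomial (Fin 2) ℂ := G.exists_parts.choose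
noncomputable def b0 : MvPolynomial (Fin 2) ℂ := G.exists_parts.choose_spec.choose
noncomputable def g1 : MvPolynomial (Fin 4) ℂ := G.exists_parts.choose_spec.choose_spec.choose
noncomputable def p1 : MvPolynomial (Fin 4) ℂ :=
  G.exists_parts.choose_spec.choose_spec.choose_spec.choose

lemma spec : IsWeightedHomogeneous G.wt2 G.g0 G.m ∧ IsWeightedHomogeneous G.wt2 G.b0 (2 * G.m) ∧
      IsWeightedHomogeneous G.wt4 (X 3 * G.g1) G.m ∧
      IsWeightedHomogeneous G.wt4 (X 3 * G.p1) (2 * G.m) ∧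
      G.F = G.asm G.ka ((C G.al * X 0 + C G.be * X 1 ^ G.j) ^ G.k) G.g0 G.b0 G.g1 G.p1 :=
  G.exists_parts.choose_spec.choose_spec.choose_spec.choose_spec

lemma hg0 : IsWeightedHomogeneous G.wt2 G.g0 G.m := G.spec.1
lemma hb0 : IsWeightedHomogeneous G.wt2 G.b0 (2 * G.m) := G.spec.2.1
lemma hg1 : IsWeightedHomogeneous G.wt4 (X 3 * G.g1) G.m := G.spec.2.2.1
lemma hp1 : IsWeightedHomogeneous G.wt4 (X 3 * G.p1) (2 * G.m) := G.spec.2.2.2.1

/-- the coefficient of `y` -/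
noncomputable def g4 : MvPolynomial (Fin 4) ℂ := rename ![1, 2] G.g0 + X 3 * G.g1

/-- the part without `y` -/
noncomputable def h4 : MvPolynomial (Fin 4) ℂ :=
  (C G.al * X 1 + C G.be * X 2 ^ G.j) ^ G.k * X 0 ^ G.e + rename ![1, 2] G.b0 + X 3 * G.p1

lemma F_eq' : G.F = C G.ka * X 4 ^ 2 + X 4 * rename Fin.castSucc G.g4 +
    rename Fin.castSucc G.h4 := by
  have h1 : (rename ![1, 2] ((C G.al * X 0 + C G.be * X 1 ^ G.j : MvPolynomial (Fin 2) ℂ) ^ G.k) :
      MvPolynomial (Fin 4) ℂ) = (C G.al * X 1 + C G.be * X 2 ^ G.j) ^ G.k := by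
    simp only [map_add, map_mul, map_pow, rename_C, rename_X, Matrix.cons_val_zero,
      Matrix.cons_val_one]
  have h2 := G.spec.2.2.2.2
  rw [GW.asm, h1] at h2
  exact h2

lemma rename2_hom {f : MvPolynomial (Fin 2) ℂ} {d : ℕ} (hf : IsWeightedHomogeneous G.wt2 f d) :
    IsWeightedHomogeneous G.wt4 (rename ![1, 2] f : MvPolynomial (Fin 4) ℂ) d := by
  refine rename_homogeneous G.wt2 G.wt4 _ (fun i => ?_) hf
  fin_cases i <;> rfl

lemma rename4_hom {f : MvPolynomial (Fin 4) ℂ} {d : ℕ} (hf : IsWeightedHomogeneous G.wt4 f d) :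
    IsWeightedHomogeneous G.wt5 (rename Fin.castSucc f : MvPolynomial (Fin 5) ℂ) d := by
  refine rename_homogeneous G.wt4 G.wt5 _ (fun i => ?_) hf
  fin_cases i <;> rfl

lemma hg4 : IsWeightedHomogeneous G.wt4 G.g4 G.m := (G.rename2_hom G.hg0).add G.hg1

/-! ### The first substitution: the square is completed -/

/-- the constant `(2 κ)⁻¹` -/
noncomputable def kh : ℂ := (2 * G.ka)⁻¹

noncomputable def t1 : MvPolynomial (Fin 5) ℂ := rename Fin.castSucc (C (-G.kh) * G.g4)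

lemma t1_fix (a : ℂ) (u : MvPolynomial (Fin 5) ℂ) : elemHom 4 a u G.t1 = G.t1 :=
  elemHom_rename cs_ne4 a u _

/-- the substitution `y ↦ y - g / (2 κ)` -/
noncomputable def A1 : MvPolynomial (Fin 5) ℂ ≃ₐ[ℂ] MvPolynomial (Fin 5) ℂ :=
  elemEquiv 4 1 one_ne_zero G.t1 G.t1_fix

/-- the branch polynomial after the first substitution -/
noncomputable def f1 : MvPolynomial (Fin 4) ℂ := C (G.kh ^ 2) * G.g4 ^ 2 - C (G.ka⁻¹) * G.h4

lemma A1_F : G.A1 G.F = C G.ka * (X 4 ^ 2 - rename Fin.castSucc G.f1) := by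
  show elemHom 4 1 G.t1 G.F = _
  rw [G.F_eq', map_add, map_add, map_mul, map_mul, map_pow, elemHom_C, elemHom_X_self,
    elemHom_rename cs_ne4, elemHom_rename cs_ne4, t1, f1]
  simp only [map_sub, map_mul, map_pow, rename_C, map_neg, C_1]
  have e1 : (C G.ka * C G.kh * 2 : MvPolynomial (Fin 5) ℂ) = 1 := by
    have h : G.ka * G.kh * 2 = 1 := by
      rw [kh]
      field_simp [G.ka_ne]
    rw [← C_mul, ← map_ofNat (C : ℂ →+* MvPolynomial (Fin 5) ℂ) 2, ← C_mul, h, C_1]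
  have e2 : (C G.ka * C (G.ka⁻¹) : MvPolynomial (Fin 5) ℂ) = 1 := by
    rw [← C_mul, mul_inv_cancel₀ G.ka_ne, C_1]
  linear_combination
    (-(X 4 * rename Fin.castSucc G.g4) + C G.kh * (rename Fin.castSucc G.g4) ^ 2) * e1 -
      rename Fin.castSucc G.h4 * e2

/-! ### The second substitution: the linear form becomes a coordinate -/

lemma exists_z : ∃ z : ℂ, z ^ G.k = -G.ka := IsAlgClosed.exists_pow_nat_eq _ (by
  have := G.k_ne
  omega)

/-- a `k`-th root of `-κ` -/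
noncomputable def z : ℂ := G.exists_z.choose

lemma z_pow : G.z ^ G.k = -G.ka := G.exists_z.choose_spec

lemma z_ne : G.z ≠ 0 := by
  intro h
  have h1 := G.z_pow
  rw [h, zero_pow G.k_ne] at h1
  exact G.ka_ne (neg_eq_zero.mp h1.symm)

/-- the coefficient of `x_1` in the second substitution -/
noncomputable def sa : ℂ := G.z / G.al

lemma sa_ne : G.sa ≠ 0 := div_ne_zero G.z_ne G.al_ne

noncomputable def t2 : MvPolynomial (Fin 2) ℂ := C G.lb * X 1 ^ G.j
noncomputable def t4 : MvPolynomial (Fin 4) ℂ := rename ![1, 2] G.t2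
noncomputable def t5 : MvPolynomial (Fin 5) ℂ := rename Fin.castSucc G.t4

lemma t4_eq : G.t4 = C G.lb * X 2 ^ G.j := by
  simp [t4, t2]

lemma t5_eq : G.t5 = C G.lb * X 2 ^ G.j := by
  rw [t5, t4_eq, map_mul, map_pow, rename_C, rename_X]
  rfl

lemma t5_fix (a : ℂ) (u : MvPolynomial (Fin 5) ℂ) : elemHom 1 a u G.t5 = G.t5 := by
  rw [t5_eq, map_mul, map_pow, elemHom_C, elemHom_X_of_ne (by decide)]

/-- the substitution `x_1 ↦ (z / α) x_1 - (β / α) x_2^j` -/
noncomputable def A2 : MvPolynomial (Fin 5) ℂ ≃ₐ[ℂ] MvPolynomial (Fin 5) ℂ :=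
  elemEquiv 1 G.sa G.sa_ne G.t5 G.t5_fix

noncomputable def b1 : MvPolynomial (Fin 2) ℂ := C (G.kh ^ 2) * G.g0 ^ 2 - C (G.ka⁻¹) * G.b0
noncomputable def P1 : MvPolynomial (Fin 4) ℂ :=
  C (G.kh ^ 2) * (2 * (rename ![1, 2] G.g0 * G.g1) + X 3 * G.g1 ^ 2) - C (G.ka⁻¹) * G.p1
noncomputable def b2 : MvPolynomial (Fin 2) ℂ := elemHom 0 G.sa G.t2 G.b1
noncomputable def P2 : MvPolynomial (Fin 4) ℂ := elemHom 1 G.sa G.t4 G.P1

lemma f1_eq : G.f1 = -C (G.ka⁻¹) * (C G.al * X 1 + C G.be * X 2 ^ G.j) ^ G.k * X 0 ^ G.e +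
    rename ![1, 2] G.b1 + X 3 * G.P1 := by
  rw [f1, g4, h4, b1, P1]
  simp only [map_sub, map_mul, map_pow, rename_C]
  ring

lemma e4_f1 : elemHom 1 G.sa G.t4 G.f1 = weightedBranch G.k G.e G.b2 G.P2 := by
  have h1 : elemHom (1 : Fin 4) G.sa G.t4 (rename ![1, 2] G.b1) = rename ![1, 2] G.b2 :=
    elemHom_rename_inj (f := (![1, 2] : Fin 2 → Fin 4)) (by decide) 0 G.sa G.t2 G.b1
  have h2 : (C G.al * (C G.sa * X 1 + G.t4) + C G.be * X 2 ^ G.j : MvPolynomial (Fin 4) ℂ) =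
      C G.z * X 1 := by
    have e1 : G.al * G.sa = G.z := by
      rw [sa]
      field_simp [G.al_ne]
    have e2 : G.al * G.lb + G.be = 0 := by
      rw [lb]
      field_simp [G.al_ne]
      ring
    have e1' : (C G.al * C G.sa : MvPolynomial (Fin 4) ℂ) = C G.z := by
      rw [← C_mul, e1]
    have e2' : (C G.al * C G.lb + C G.be : MvPolynomial (Fin 4) ℂ) = 0 := by
      rw [← C_mul, ← C_add, e2, C_0]
    rw [t4_eq]
    linear_combination X 1 * e1' + X 2 ^ G.j * e2'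
  have h3 : (C (G.ka⁻¹) * C G.z ^ G.k : MvPolynomial (Fin 4) ℂ) = -1 := by
    rw [← map_pow, z_pow, ← C_mul, mul_neg, inv_mul_cancel₀ G.ka_ne, C_neg, C_1]
  rw [f1_eq, weightedBranch]
  simp only [map_add, map_mul, map_neg, map_pow, elemHom_C]
  rw [h1, elemHom_X_self, elemHom_X_of_ne (by decide), elemHom_X_of_ne (by decide),
    elemHom_X_of_ne (by decide), h2]
  have h4 : elemHom 1 G.sa G.t4 G.P1 = G.P2 := rfl
  rw [h4, mul_pow]
  linear_combination -(X 1 ^ G.k * X 0 ^ G.e) * h3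

/-- the two substitutions -/
noncomputable def ph : MvPolynomial (Fin 5) ℂ ≃ₐ[ℂ] MvPolynomial (Fin 5) ℂ := G.A1.trans G.A2

lemma ph_F : G.ph G.F =
    C G.ka * (X 4 ^ 2 - rename Fin.castSucc (weightedBranch G.k G.e G.b2 G.P2)) := by
  show G.A2 (G.A1 G.F) = _
  rw [A1_F, map_mul, map_sub, map_pow]
  have h1 : G.A2 (C G.ka) = C G.ka := elemHom_C _ _ _ _
  have h2 : G.A2 (X 4) = X 4 := elemHom_X_of_ne (by decide) _ _
  have h3 : G.A2 (rename Fin.castSucc G.f1) = rename Fin.castSucc (elemHom 1 G.sa G.t4 G.f1) :=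
    elemHom_rename_inj (Fin.castSucc_injective 4) 1 G.sa G.t4 G.f1
  rw [h1, h2, h3, e4_f1]

/-! ### Homogeneity -/

lemma t1_hom : IsWeightedHomogeneous G.wt5 G.t1 (G.wt5 4) := by
  have h := (isWeightedHomogeneous_C G.wt4 (-G.kh)).mul G.hg4
  rw [zero_add] at h
  exact G.rename4_hom h

lemma t2_hom : IsWeightedHomogeneous G.wt2 G.t2 (G.wt2 0) := by
  rw [t2]
  rcases G.lb_or with h | h
  · rw [h, C_0, zero_mul]
    exact isWeightedHomogeneous_zero _ _ _
  · have h1 := (isWeightedHomogeneous_C G.wt2 G.lb).mul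
      ((isWeightedHomogeneous_X ℂ G.wt2 (1 : Fin 2)).pow G.j)
    rw [zero_add] at h1
    have h2 : G.j • G.wt2 1 = G.wt2 0 := h
    rwa [h2] at h1

lemma t4_hom : IsWeightedHomogeneous G.wt4 G.t4 (G.wt4 1) := G.rename2_hom G.t2_hom
lemma t5_hom : IsWeightedHomogeneous G.wt5 G.t5 (G.wt5 1) := G.rename4_hom G.t4_hom

lemma neg_smul_hom {σ : Type} {wt : σ → ℕ} {t : MvPolynomial σ ℂ} {n : ℕ}
    (h : IsWeightedHomogeneous wt t n) (c : ℂ) : IsWeightedHomogeneous wt (-(C c * t)) n := by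
  have h1 := (isWeightedHomogeneous_C wt (-c)).mul h
  rw [zero_add, C_neg, neg_mul] at h1
  exact h1

lemma ph_hom (i : Fin 5) : IsWeightedHomogeneous G.wt5 (G.ph (X i)) (G.wt5 i) := by
  show IsWeightedHomogeneous G.wt5 (G.A2 (G.A1 (X i))) (G.wt5 i)
  exact elemHom_homogeneous' G.wt5 1 G.sa G.t5_hom (elemHom_homogeneous G.wt5 4 1 G.t1_hom i)

lemma ph_symm_hom (i : Fin 5) : IsWeightedHomogeneous G.wt5 (G.ph.symm (X i)) (G.wt5 i) := by
  show IsWeightedHomogeneous G.wt5 (G.A1.symm (G.A2.symm (X i))) (G.wt5 i)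
  exact elemHom_homogeneous' G.wt5 4 1⁻¹ (neg_smul_hom G.t1_hom _)
    (elemHom_homogeneous G.wt5 1 G.sa⁻¹ (neg_smul_hom G.t5_hom _) i)

lemma b1_hom : IsWeightedHomogeneous G.wt2 G.b1 (2 * G.m) := by
  have h1 := (isWeightedHomogeneous_C G.wt2 (G.kh ^ 2)).mul (G.hg0.pow 2)
  have h2 := (isWeightedHomogeneous_C G.wt2 (G.ka⁻¹)).mul G.hb0
  rw [zero_add] at h1 h2
  exact IsWeightedHomogeneous.sub h1 h2

lemma b2_hom : IsWeightedHomogeneous G.wt2 G.b2 (2 * G.m) :=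
  elemHom_homogeneous' G.wt2 0 G.sa G.t2_hom G.b1_hom

lemma P1_hom : IsWeightedHomogeneous G.wt4 G.P1 (2 * G.m - G.w) := by
  have hw := G.hw2
  refine homogeneous_of_X_mul G.wt4 3 (d := 2 * G.m) ?_
    (show 2 * G.m - G.w + G.w = 2 * G.m by omega)
  have h1 := (isWeightedHomogeneous_C G.wt4 (G.kh ^ 2 * 2)).mul
    ((G.rename2_hom G.hg0).mul G.hg1)
  have h2 := (isWeightedHomogeneous_C G.wt4 (G.kh ^ 2)).mul (G.hg1.pow 2)
  have h3 := (isWeightedHomogeneous_C G.wt4 (G.ka⁻¹)).mul G.hp1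
  rw [zero_add] at h1 h2 h3
  rw [← two_mul] at h1
  have h4 := (h1.add h2).sub h3
  have h5 : (C (2 : ℂ) : MvPolynomial (Fin 4) ℂ) = 2 := map_ofNat C 2
  have h6 : (X 3 * G.P1 : MvPolynomial (Fin 4) ℂ) =
      C (G.kh ^ 2 * 2) * (rename ![1, 2] G.g0 * (X 3 * G.g1)) +
        C (G.kh ^ 2) * (X 3 * G.g1) ^ 2 - C (G.ka⁻¹) * (X 3 * G.p1) := by
    rw [P1, C_mul, h5]
    ring
  rw [h6]
  exact h4

lemma P2_hom : IsWeightedHomogeneous G.wt4 G.P2 (2 * G.m - G.w) :=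
  elemHom_homogeneous' G.wt4 1 G.sa G.t4_hom G.P1_hom

/-! ### The roots -/

/-- the values of `g` and of the part without `y` at the zero of the linear form -/
noncomputable def ga : ℂ := eval ![G.lb, 1] G.g0
noncomputable def de : ℂ := eval ![G.lb, 1] G.b0

lemma eval_F (r : ℂ) : eval ![0, G.lb, 1, 0, r] G.F = G.ka * r ^ 2 + r * G.ga + G.de := by
  have h1 : (![0, G.lb, 1, 0, r] : Fin 5 → ℂ) ∘ Fin.castSucc = ![0, G.lb, 1, 0] := by
    funext i
    fin_cases i <;> rfl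
  have h2 : (![0, G.lb, 1, 0] : Fin 4 → ℂ) ∘ (![1, 2] : Fin 2 → Fin 4) = ![G.lb, 1] := by
    funext i
    fin_cases i <;> rfl
  have he := G.he
  have h3 : G.e ≠ 0 := by omega
  rw [F_eq', map_add, map_add, map_mul, map_mul, map_pow, eval_rename, eval_rename, h1, g4, h4,
    map_add, eval_rename, h2]
  simp only [map_add, map_mul, map_pow, eval_rename, h2, eval_C, eval_X]
  simp [h3, ga, de]

lemma root1 : G.ka * G.ρ ^ 2 + G.ρ * G.ga + G.de = 0 := by
  rw [← eval_F]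
  exact G.h1

lemma root2 : G.ka * G.ρ' ^ 2 + G.ρ' * G.ga + G.de = 0 := by
  rw [← eval_F]
  exact G.h2

lemma sum_roots : G.ka * (G.ρ + G.ρ') + G.ga = 0 := by
  have h := G.root1
  have h' := G.root2
  have h1 : (G.ρ - G.ρ') * (G.ka * (G.ρ + G.ρ') + G.ga) = 0 := by
    linear_combination h - h'
  exact (mul_eq_zero.mp h1).resolve_left (sub_ne_zero.mpr G.hρ)

/-- the constant of the two curves -/
noncomputable def cc : ℂ := (G.ρ - G.ρ') * 2⁻¹

lemma cc_ne : G.cc ≠ 0 := mul_ne_zero (sub_ne_zero.mpr G.hρ) (by norm_num)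

lemma cc_eq : G.cc = G.ρ + G.ga * G.kh := by
  have h := G.sum_roots
  rw [cc, kh]
  have h1 := G.ka_ne
  field_simp
  linear_combination -h

lemma cc_eq' : -G.cc = G.ρ' + G.ga * G.kh := by
  have h := G.sum_roots
  rw [cc, kh]
  have h1 := G.ka_ne
  field_simp
  linear_combination -h

lemma hbc : eval ![0, 1] G.b2 = G.cc ^ 2 := by
  have h1 : eval ![0, 1] G.b2 = eval ![G.lb, 1] G.b1 := by
    have h2 : (eval ![0, 1] : MvPolynomial (Fin 2) ℂ →+* ℂ).comp
        (elemHom 0 G.sa G.t2 : MvPolynomial (Fin 2) ℂ →ₐ[ℂ] MvPolynomial (Fin 2) ℂ).toRingHom =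
        eval ![G.lb, 1] := by
      apply MvPolynomial.ringHom_ext
      · intro a
        show eval ![0, 1] (elemHom 0 G.sa G.t2 (C a)) = _
        rw [elemHom_C, eval_C, eval_C]
      · intro i
        show eval ![0, 1] (elemHom 0 G.sa G.t2 (X i)) = _
        fin_cases i
        · show eval ![0, 1] (elemHom 0 G.sa G.t2 (X 0)) = eval ![G.lb, 1] (X 0)
          rw [elemHom_X_self, t2]
          simp
        · show eval ![0, 1] (elemHom 0 G.sa G.t2 (X 1)) = eval ![G.lb, 1] (X 1)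
          rw [elemHom_X_of_ne (by decide)]
          simp
    exact congrArg (fun f => f G.b1) h2
  rw [h1, b1]
  simp only [map_sub, map_mul, map_pow, eval_C]
  have h3 : eval ![G.lb, 1] G.g0 = G.ga := rfl
  have h4 : eval ![G.lb, 1] G.b0 = G.de := rfl
  rw [h3, h4, cc_eq, kh]
  have h5 := G.root1
  have h6 := G.ka_ne
  field_simp
  linear_combination -4 * G.ka * h5

end GF

end Pool.Agent.RCH
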