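import Pool.Agent.RCH.WpStmt

/-!
# Quasi-smooth members of the families, second version
-/

set_option autoImplicit false

open MvPolynomial

namespace Pool.Agent.RCH

section

variable {e k l n c d g : ℕ} (a : ℂ) (v : Fin 5 → ℂ)

lemma mul_pow_pred {x : ℂ} {r : ℕ} (hr : 1 ≤ r) : x * x ^ (r - 1) = x ^ r := by
  rw [← pow_succ', Nat.sub_add_cancel hr]

lemma genForm_d0 : eval v (pderiv 0 (genForm e k l n c d g a)) =
    a ^ k * ((e : ℂ) * v 0 ^ (e - 1) * v 1 ^ k * v 2 ^ l) - v 3 * ((g : ℂ) * v 0 ^ (g - 1)) := by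
  rw [genForm]
  simp [pderiv_X]
  left
  ring

lemma genForm_d1 : eval v (pderiv 1 (genForm e k l n c d g a)) =
    a ^ k * (v 0 ^ e * ((k : ℂ) * v 1 ^ (k - 1)) * v 2 ^ l) - (c : ℂ) * v 1 ^ (c - 1) := by
  rw [genForm]
  simp [pderiv_X]
  left
  ring

lemma genForm_d2 : eval v (pderiv 2 (genForm e k l n c d g a)) =
    a ^ k * (v 0 ^ e * v 1 ^ k * ((l : ℂ) * v 2 ^ (l - 1))) -
      ((2 * n : ℕ) : ℂ) * v 2 ^ (2 * n - 1) := by
  rw [genForm]
  simp [pderiv_X]

lemma genForm_d3 : eval v (pderiv 3 (genForm e k l n c d g a)) =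
    -((v 0 ^ g + v 3 ^ (d - 1)) + v 3 * (((d - 1 : ℕ) : ℂ) * v 3 ^ (d - 1 - 1))) := by
  rw [genForm]
  simp [pderiv_X]
  ring

lemma genForm_d4 : eval v (pderiv 4 (genForm e k l n c d g a)) = 2 * v 4 := by
  rw [genForm]
  simp [pderiv_X]

/-- the form has no singular point outside the origin if the coefficient avoids finitely many values -/
lemma genForm_quasiSmooth (he : 1 ≤ e) (hk : 1 ≤ k) (hn : 1 ≤ n) (hc : 1 ≤ c) (hd : 2 ≤ d)
    (hg : 1 ≤ g) (hE : e * (d - 1) * c * (2 * n) + k * g * d * (2 * n) + l * g * d * c =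
      g * d * c * (2 * n))
    (ha : a ^ (k * (g * d * c * (2 * n))) * ((-((d : ℂ) * ((e : ℂ) / g) ^ (d - 1))) ^
      (e * c * (2 * n)) * ((k : ℂ) / c) ^ (k * g * d * (2 * n)) *
        ((l : ℂ) / (2 * n : ℕ)) ^ (l * g * d * c)) ≠ 1)
    (hv : ∀ i, eval v (pderiv i (genForm e k l n c d g a)) = 0) : v = 0 := by
  have h0 := hv 0
  have h1 := hv 1
  have h2 := hv 2
  have h3 := hv 3
  have h4 := hv 4
  rw [genForm_d0] at h0
  rw [genForm_d1] at h1
  rw [genForm_d2] at h2
  rw [genForm_d3] at h3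
  rw [genForm_d4] at h4
  obtain ⟨M, hM⟩ : ∃ M : ℂ, M = a ^ k * (v 0 ^ e * v 1 ^ k * v 2 ^ l) := ⟨_, rfl⟩
  have hgC : (g : ℂ) ≠ 0 := by
    rw [Ne, Nat.cast_eq_zero]
    omega
  have hcC : (c : ℂ) ≠ 0 := by
    rw [Ne, Nat.cast_eq_zero]
    omega
  have hdC : (d : ℂ) ≠ 0 := by
    rw [Ne, Nat.cast_eq_zero]
    omega
  have hnC : ((2 * n : ℕ) : ℂ) ≠ 0 := by
    rw [Ne, Nat.cast_eq_zero]
    omega
  have heC : (e : ℂ) ≠ 0 := by
    rw [Ne, Nat.cast_eq_zero]
    omega
  -- the relations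
  have r0 : (e : ℂ) * M = (g : ℂ) * (v 3 * v 0 ^ g) := by
    have e1 := mul_pow_pred (x := v 0) he
    have e2 := mul_pow_pred (x := v 0) hg
    rw [hM, ← e1, ← e2]
    linear_combination (v 0) * h0
  have r1 : v 1 ^ c = (k : ℂ) / c * M := by
    have e1 := mul_pow_pred (x := v 1) hk
    have e2 := mul_pow_pred (x := v 1) hc
    rw [hM, ← e1, ← e2]
    field_simp
    linear_combination (-(v 1)) * h1
  have r2 : v 2 ^ (2 * n) = (l : ℂ) / (2 * n : ℕ) * M := by
    have e2 := mul_pow_pred (x := v 2) (show 1 ≤ 2 * n by omega)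
    have e3 : ((2 * n : ℕ) : ℂ) * v 2 ^ (2 * n) = (l : ℂ) * M := by
      rcases Nat.eq_zero_or_pos l with hl | hl
      · rw [hl, Nat.cast_zero, zero_mul] at h2 ⊢
        rw [← e2]
        linear_combination (-(v 2)) * h2
      · have e1 := mul_pow_pred (x := v 2) hl
        rw [hM, ← e1, ← e2]
        linear_combination (-(v 2)) * h2
    rw [div_mul_eq_mul_div, eq_div_iff hnC, ← e3]
    ring
  have hd1 : ((d - 1 : ℕ) : ℂ) = d - 1 := by
    rw [Nat.cast_sub (by omega), Nat.cast_one]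
  have r3 : v 0 ^ g = -((d : ℂ) * v 3 ^ (d - 1)) := by
    have e1 := mul_pow_pred (x := v 3) (show 1 ≤ d - 1 by omega)
    rw [hd1] at h3
    linear_combination -h3 - ((d : ℂ) - 1) * e1
  have r3' : v 3 ^ d = -((e : ℂ) / (g * d)) * M := by
    have e1 := mul_pow_pred (x := v 3) (show 1 ≤ d by omega)
    have e2 : (g : ℂ) * (v 3 * -((d : ℂ) * v 3 ^ (d - 1))) = (e : ℂ) * M := by
      rw [← r3]
      exact r0.symm
    rw [← e1]
    field_simp
    linear_combination -e2
  by_cases hM0 : M = 0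
  · have k1 : v 1 = 0 := by
      rw [hM0, mul_zero] at r1
      exact eq_zero_of_pow_eq_zero r1
    have k2 : v 2 = 0 := by
      rw [hM0, mul_zero] at r2
      exact eq_zero_of_pow_eq_zero r2
    have k3 : v 3 = 0 := by
      rw [hM0, mul_zero] at r3'
      exact eq_zero_of_pow_eq_zero r3'
    have k0 : v 0 = 0 := by
      rw [k3, zero_pow (by omega), mul_zero, neg_zero] at r3
      exact eq_zero_of_pow_eq_zero r3
    have k4 : v 4 = 0 := by
      rcases mul_eq_zero.mp h4 with h | h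
      · exact absurd h two_ne_zero
      · exact h
    funext i
    fin_cases i
    · exact k0
    · exact k1
    · exact k2
    · exact k3
    · exact k4
  · exfalso
    have r0' : (v 0 ^ g) ^ d = -((d : ℂ) * ((e : ℂ) / g) ^ (d - 1)) * M ^ (d - 1) := by
      have e1 : v 3 * v 0 ^ g = (e : ℂ) / g * M := by
        field_simp
        linear_combination -r0
      have e2 : (v 3 * v 0 ^ g) ^ (d - 1) * v 0 ^ g =
          -((d : ℂ) * v 3 ^ (d - 1)) * (v 3 * v 0 ^ g) ^ (d - 1) := by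
        rw [mul_comm]
        congr 1
      have k3 : v 3 ≠ 0 := by
        intro h
        rw [h, zero_mul, mul_zero] at r0
        rcases mul_eq_zero.mp r0 with h5 | h5
        · exact heC h5
        · exact hM0 h5
      have e3 : v 3 ^ (d - 1) * (v 0 ^ g) ^ d =
          v 3 ^ (d - 1) * (-((d : ℂ) * ((e : ℂ) / g) ^ (d - 1)) * M ^ (d - 1)) := by
        have e4 : (v 0 ^ g) ^ d = (v 0 ^ g) ^ (d - 1) * v 0 ^ g := by
          rw [← pow_succ, Nat.sub_add_cancel (by omega)]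
        rw [e4, ← mul_assoc, ← mul_pow, e2, e1, mul_pow]
        ring
      exact mul_left_cancel₀ (pow_ne_zero _ k3) e3
    apply ha
    set A0 := -((d : ℂ) * ((e : ℂ) / g) ^ (d - 1)) with hA0
    set A1 := (k : ℂ) / c with hA1
    set A2 := (l : ℂ) / (2 * n : ℕ) with hA2
    have key : M ^ (g * d * c * (2 * n)) = a ^ (k * (g * d * c * (2 * n))) *
        (A0 ^ (e * c * (2 * n)) * A1 ^ (k * g * d * (2 * n)) * A2 ^ (l * g * d * c)) *
          M ^ (g * d * c * (2 * n)) := by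
      have e0 : (v 0 ^ e) ^ (g * d * c * (2 * n)) = (A0 * M ^ (d - 1)) ^ (e * c * (2 * n)) := by
        rw [← r0', ← pow_mul, ← pow_mul, ← pow_mul]
        congr 1
        ring
      have e1 : (v 1 ^ k) ^ (g * d * c * (2 * n)) = (A1 * M) ^ (k * g * d * (2 * n)) := by
        rw [← r1, ← pow_mul, ← pow_mul]
        congr 1
        ring
      have e2 : (v 2 ^ l) ^ (g * d * c * (2 * n)) = (A2 * M) ^ (l * g * d * c) := by
        rw [← r2, ← pow_mul, ← pow_mul]
        congr 1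
        ring
      have e3 : M ^ (g * d * c * (2 * n)) = M ^ ((d - 1) * (e * c * (2 * n))) *
          M ^ (k * g * d * (2 * n)) * M ^ (l * g * d * c) := by
        rw [← pow_add, ← pow_add]
        congr 1
        rw [← hE]
        ring
      conv_lhs => rw [hM]
      rw [mul_pow, mul_pow, mul_pow, e0, e1, e2, e3, mul_pow, mul_pow, mul_pow, ← pow_mul,
        ← pow_mul]
      ring
    have h5 : M ^ (g * d * c * (2 * n)) ≠ 0 := pow_ne_zero _ hM0
    have h6 := key
    nth_rewrite 1 [← one_mul (M ^ (g * d * c * (2 * n)))] at h6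
    exact (mul_right_cancel₀ h5 h6).symm

end

/-- There is a coefficient for which the form has no singular point outside the origin. -/
theorem exists_genForm_quasiSmooth {e k l n c d g : ℕ} (he : 1 ≤ e) (hk : 1 ≤ k) (hn : 1 ≤ n)
    (hc : 1 ≤ c) (hd : 2 ≤ d) (hg : 1 ≤ g)
    (hE : e * (d - 1) * c * (2 * n) + k * g * d * (2 * n) + l * g * d * c =
      g * d * c * (2 * n)) : ∃ a : ℂ, a ≠ 0 ∧ ∀ v : Fin 5 → ℂ,
        (∀ i, eval v (pderiv i (genForm e k l n c d g a)) = 0) → v = 0 := by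
  set K : ℂ := (-((d : ℂ) * ((e : ℂ) / g) ^ (d - 1))) ^ (e * c * (2 * n)) *
    ((k : ℂ) / c) ^ (k * g * d * (2 * n)) * ((l : ℂ) / (2 * n : ℕ)) ^ (l * g * d * c) with hK
  by_cases h1 : K = 1
  · refine ⟨2, two_ne_zero, fun v hv =>
      genForm_quasiSmooth 2 v he hk hn hc hd hg hE ?_ hv⟩
    rw [← hK, h1, mul_one]
    intro h2
    have hpos : 1 ≤ k * (g * d * c * (2 * n)) := by
      apply Nat.mul_pos hk
      apply Nat.mul_pos _ (by omega)
      exact Nat.mul_pos (Nat.mul_pos hg (by omega)) hc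
    have h3 : ((2 ^ (k * (g * d * c * (2 * n))) : ℕ) : ℂ) = ((1 : ℕ) : ℂ) := by
      push_cast
      exact h2
    have h4 := Nat.cast_injective h3
    have h5 := Nat.one_lt_two_pow (n := k * (g * d * c * (2 * n))) (by omega)
    omega
  · refine ⟨1, one_ne_zero, fun v hv =>
      genForm_quasiSmooth 1 v he hk hn hc hd hg hE ?_ hv⟩
    rw [← hK, one_pow, one_mul]
    exact h1

end Pool.Agent.RCH
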