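import Pool.Agent.RCH.WtDefs
import Pool.Agent.RCH.DgDefs
import Pool.Agent.RCH.WdNF2

/-!
# One-cycles on weighted hypersurfaces: the notions used in the statement
-/

set_option autoImplicit false

open MvPolynomial

namespace Pool.Agent.RCH

/-- modulo `x_3` the form `F` is `x_0^e (a x_1 + b x_2^j)^k x_2^l + B(x_1, x_2, x_4)` -/
def HasShapeP (e k l j : ℕ) (a b : ℂ) (F : MvPolynomial (Fin 5) ℂ) : Prop :=
  ∃ B : MvPolynomial (Fin 3) ℂ,
    F - (X 0 ^ e * ((C a * X 1 + C b * X 2 ^ j) ^ k * X 2 ^ l) + rename ![1, 2, 4] B) ∈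
      Ideal.span {(X 3 : MvPolynomial (Fin 5) ℂ)}

/-- The curve `x_2 = x_3 = 0` on the hypersurface `F = 0` is irreducible: the radical of the ideal of
its equations is a prime ideal. -/
def EdgeIrreducible (F : MvPolynomial (Fin 5) ℂ) : Prop :=
  (Ideal.span {(X 2 : MvPolynomial (Fin 5) ℂ), X 3, F}).radical.IsPrime

/-- The form `x_4 ^ 2 + a ^ k x_0 ^ e x_1 ^ k x_2 ^ l - (x_1 ^ c + x_2 ^ (2 n) + x_3 (x_0 ^ g +
x_3 ^ (d - 1)))`. -/
noncomputable def genForm (e k l n c d g : ℕ) (a : ℂ) : MvPolynomial (Fin 5) ℂ :=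
  X 4 ^ 2 + C (a ^ k) * (X 0 ^ e * X 1 ^ k * X 2 ^ l) -
    (X 1 ^ c + X 2 ^ (2 * n) + X 3 * (X 0 ^ g + X 3 ^ (d - 1)))

namespace Wdc

/-- The numerical hypotheses on the weights `N, p, q, w, m` of the coordinates `x_0, …, x_4` and the
exponents `e, k, l, n`. -/
structure Weights (N p q w m e k l n : ℕ) : Prop where
  hN : 1 ≤ N
  hp : 1 ≤ p
  hq : 1 ≤ q
  hw : 1 ≤ w
  hw2 : w ≤ 2 * m
  hep : e ∣ p
  heq : e ∣ q
  hNe : N.Coprime e
  hk : 1 ≤ k
  hdeg : e * N + k * p + l * q = 2 * m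
  hn : n * q = m

/-- No monomial `x_0 ^ (u e) x_1 ^ i x_2 ^ c` with `u ≥ 2` has degree `2 m`. -/
def NoHigherPower (N p q m e : ℕ) : Prop :=
  ∀ u i c : ℕ, 2 ≤ u → u * (e * N) + p * i + q * c ≠ 2 * m

/-- `F` is a weighted form of degree `2 m` in which the coefficient of `x_4 ^ 2` is not zero, the curve
`x_2 = x_3 = 0` on `F = 0` is irreducible, and the quadratic polynomial `F(0, s, 1, 0, y)` has the two
different roots `r, r'`. -/
structure Good (N p q w m : ℕ) (s r r' : ℂ) (F : MvPolynomial (Fin 5) ℂ) : Prop where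
  homog : IsWeightedHomogeneous ![N, p, q, w, m] F (2 * m)
  square : coeff (Finsupp.single 4 2) F ≠ 0
  edge : EdgeIrreducible F
  ne : r ≠ r'
  root : eval ![0, s, 1, 0, r] F = 0
  root' : eval ![0, s, 1, 0, r'] F = 0

/-- The hypotheses of (1): modulo `x_3` the form `F` is
`x_0 ^ e (a x_1 + b x_2 ^ j) ^ k x_2 ^ l + B(x_1, x_2, x_4)` for some `B`, where `a ≠ 0` and `b = 0` or
`j q = p`. -/
structure Member (N p q w m e k l j : ℕ) (a b r r' : ℂ) (F : MvPolynomial (Fin 5) ℂ) : Prop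
    extends Good N p q w m (-(b / a)) r r' F where
  shape : HasShapeP e k l j a b F
  ha : a ≠ 0
  hb : b = 0 ∨ j * q = p

/-- The ideal of the section `x_3 = 0` of the hypersurface `F = 0`. -/
noncomputable def sectionIdeal (F : MvPolynomial (Fin 5) ℂ) : Ideal (Coord (Fin 5) 1) :=
  Ideal.span {inFactor 1 0 (X 3), inFactor 1 0 F}

/-- The one-cycle `D` on the hypersurface `X : F = 0` is supported on the section `x_3 = 0`. -/
def OnSection (wt : Fin 5 → ℕ) (F : MvPolynomial (Fin 5) ℂ)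
    (D : Cycles (weightedHypersurface wt F) 1) : Prop :=
  ∀ Q ∈ D.support, CodimOne (sectionIdeal F) Q.I

/-- A nonzero multiple of the exterior square of `D` is rationally equivalent to zero. -/
def SquareTorsion (X : WVar (Fin 5)) (D : Cycles X 1) : Prop :=
  ∃ M : ℕ, 1 ≤ M ∧ M • extPow X D 2 ∈ RatEq X 2

/-- A nonzero multiple of `D` is rationally equivalent to a combination of `C₁` and `C₁ - C₂`. -/
def InSpan (X : WVar (Fin 5)) (C₁ C₂ : Pt X 1) (D : Cycles X 1) : Prop :=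
  ∃ M : ℕ, 1 ≤ M ∧ ∃ c d : ℤ, M • D - (c • Finsupp.single C₁ 1 +
    d • (Finsupp.single C₁ 1 - Finsupp.single C₂ 1)) ∈ RatEq X 1

/-- The conclusion for the hypersurface `X : F = 0`: the curves `a x_1 + b x_2 ^ j = x_3 = 0`,
`x_4 = r x_2 ^ n` and `a x_1 + b x_2 ^ j = x_3 = 0`, `x_4 = r' x_2 ^ n` are on `X` and different and have
the same positive degree; a nonzero multiple of the exterior square of their difference is rationally
equivalent to zero; every one-cycle `D` on `X` supported on the section `x_3 = 0` is, up to a multiple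
and rational equivalence, a multiple of the first curve plus a multiple of the difference; and if the
degree of `D` is zero, a nonzero multiple of its exterior square is rationally equivalent to zero. -/
def Conclusion (wt : Fin 5 → ℕ) (F : MvPolynomial (Fin 5) ℂ) (a b : ℂ) (j n : ℕ) (r r' : ℂ) :
    Prop :=
  ∃ C₁ C₂ : Pt (weightedHypersurface wt F) 1,
    C₁.I = weightedCurveAt a b j n r ∧ C₂.I = weightedCurveAt a b j n r' ∧ C₁ ≠ C₂ ∧
    curveDegree (weightedHypersurface wt F) C₁ = curveDegree (weightedHypersurface wt F) C₂ ∧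
    0 < curveDegree (weightedHypersurface wt F) C₁ ∧
    SquareTorsion (weightedHypersurface wt F) (Finsupp.single C₁ 1 - Finsupp.single C₂ 1) ∧
    ∀ D : Cycles (weightedHypersurface wt F) 1, OnSection wt F D →
      InSpan (weightedHypersurface wt F) C₁ C₂ D ∧
      (degree (weightedHypersurface wt F) D = 0 → SquareTorsion (weightedHypersurface wt F) D)

/-- The cone over the hypersurface `F = 0` has no singular point outside the origin. -/
def QuasiSmooth (F : MvPolynomial (Fin 5) ℂ) : Prop :=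
  ∀ v : Fin 5 → ℂ, (∀ l, eval v (pderiv l F) = 0) → v = 0

/-- The form `x_4 ^ 2 - (x_0 ^ e x_1 + x_1 ^ c + x_2 ^ (2 n) + x_3 ^ d)`. -/
noncomputable def exForm (e n c d : ℕ) : MvPolynomial (Fin 5) ℂ :=
  X 4 ^ 2 - (X 0 ^ e * X 1 + X 1 ^ c + X 2 ^ (2 * n) + X 3 ^ d)

/-- The form `x_4 ^ 2 - (x_0 x_1 ^ (2 m - 1) + x_1 ^ (2 m) + x_2 ^ (2 m) +
x_3 (x_0 ^ (2 m - 1) + x_3 ^ (2 m - 1)))`, the equation of a double cover of `ℙ³` branched along a
surface of degree `2 m`. -/
noncomputable def smoothForm (m : ℕ) : MvPolynomial (Fin 5) ℂ :=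
  X 4 ^ 2 - (X 0 * X 1 ^ (2 * m - 1) + X 1 ^ (2 * m) + X 2 ^ (2 * m) +
    X 3 * (X 0 ^ (2 * m - 1) + X 3 ^ (2 * m - 1)))

end Wdc

end Pool.Agent.RCH
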