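import Mathlib

/-!
# Lengths of quotients: the algebra for the comparison of the orders of vanishing
-/

set_option autoImplicit false

namespace Pool.Agent.RCH.Wt

open Module Submodule

/-- length of `E / N₁` for nested submodules -/
theorem length_quot_add {L E : Type*} [Ring L] [AddCommGroup E] [Module L E]
    {N₁ N₂ : Submodule L E} (h : N₁ ≤ N₂) :
    length L (E ⧸ N₁) = length L (N₂ ⧸ N₁.comap N₂.subtype) + length L (E ⧸ N₂) := by
  let f : (N₂ ⧸ N₁.comap N₂.subtype) →ₗ[L] (E ⧸ N₁) := Submodule.mapQ _ _ N₂.subtype le_rfl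
  let k : (E ⧸ N₁) →ₗ[L] (E ⧸ N₂) := Submodule.mapQ _ _ LinearMap.id h
  refine Module.length_eq_add_of_exact f k ?_ ?_ ?_
  · rw [← LinearMap.ker_eq_bot, LinearMap.ker_eq_bot']
    intro x hx
    obtain ⟨x, rfl⟩ := Submodule.Quotient.mk_surjective _ x
    simp only [f, Submodule.mapQ_apply] at hx
    rw [Submodule.Quotient.mk_eq_zero] at hx ⊢
    exact hx
  · intro y
    obtain ⟨y, rfl⟩ := Submodule.Quotient.mk_surjective _ y
    exact ⟨Submodule.Quotient.mk y, by simp [k]⟩
  · intro y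
    obtain ⟨y, rfl⟩ := Submodule.Quotient.mk_surjective _ y
    constructor
    · intro hy
      simp only [k, Submodule.mapQ_apply, LinearMap.id_apply] at hy
      rw [Submodule.Quotient.mk_eq_zero] at hy
      exact ⟨Submodule.Quotient.mk ⟨y, hy⟩, by simp [f]⟩
    · rintro ⟨x, hx⟩
      obtain ⟨x, rfl⟩ := Submodule.Quotient.mk_surjective _ x
      rw [← hx]
      simp only [f, k, Submodule.mapQ_apply, LinearMap.id_apply]
      rw [Submodule.Quotient.mk_eq_zero]
      exact x.2

/-- T2 -/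
theorem length_quot_covBy {L E : Type*} [Ring L] [AddCommGroup E] [Module L E]
    {N₁ N₂ : Submodule L E} (h : N₁ ⋖ N₂) :
    Module.length L (E ⧸ N₁) = Module.length L (E ⧸ N₂) + 1 := by
  have hs : IsSimpleModule L (N₂ ⧸ N₁.comap N₂.subtype) :=
    (covBy_iff_quot_is_simple h.le).1 h
  rw [length_quot_add h.le, Module.length_eq_one L _, add_comm]

/-- T3 -/
theorem covBy_sup_span {L E : Type*} [CommRing L] [AddCommGroup E] [Module L E]
    {N : Submodule L E} {m : Set L} (hu : ∀ c, c ∉ m → IsUnit c) {y : E} (hy : y ∉ N)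
    (hm : ∀ c ∈ m, c • y ∈ N) : N ⋖ N ⊔ Submodule.span L {y} := by
  refine ⟨?_, ?_⟩
  · refine lt_of_le_of_ne le_sup_left ?_
    intro hc
    apply hy
    rw [hc]
    exact Submodule.mem_sup_right (Submodule.mem_span_singleton_self y)
  · intro W h1 h2
    obtain ⟨z, hzW, hzN⟩ := SetLike.exists_of_lt h1
    have hz := h2.le hzW
    obtain ⟨a, ha, b, hb, hab⟩ := Submodule.mem_sup.1 hz
    obtain ⟨c, rfl⟩ := Submodule.mem_span_singleton.1 hb
    have hcm : c ∉ m := fun hcm => hzN (by rw [← hab]; exact N.add_mem ha (hm c hcm))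
    obtain ⟨u, rfl⟩ := hu c hcm
    have hyW : y ∈ W := by
      have h3 : (u : L) • y ∈ W := by
        have : (u : L) • y = z - a := by rw [← hab]; abel
        rw [this]
        exact W.sub_mem hzW (h1.le ha)
      have h4 := W.smul_mem ((u⁻¹ : Lˣ) : L) h3
      rwa [smul_smul, Units.inv_mul, one_smul] at h4
    apply h2.not_ge
    exact sup_le h1.le (by rw [Submodule.span_le, Set.singleton_subset_iff]; exact hyW)

/-- the lengths of `M / g M` and of `N / g N` agree, for `N` of finite colength in `M` and `g`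
regular on `M` -/
theorem length_quot_eq_of_colength {A : Type*} [CommRing A] {M : Type*} [AddCommGroup M]
    [Module A M] (N : Submodule A M) (hN : length A (M ⧸ N) ≠ ⊤) (g : A)
    (hg : ∀ x : M, g • x = 0 → x = 0) :
    length A (M ⧸ (LinearMap.range (g • (LinearMap.id : M →ₗ[A] M)))) =
      length A (N ⧸ (LinearMap.range (g • (LinearMap.id : N →ₗ[A] N)))) := by
  set gM := LinearMap.range (g • (LinearMap.id : M →ₗ[A] M)) with hgM
  set gN := N.map (g • (LinearMap.id : M →ₗ[A] M)) with hgN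
  have h1 : gN ≤ N := by
    rintro _ ⟨x, hx, rfl⟩
    exact N.smul_mem g hx
  have h2 : gN ≤ gM := LinearMap.map_le_range
  have e1 := length_quot_add h1
  have e2 := length_quot_add h2
  have hinj : Function.Injective (g • (LinearMap.id : M →ₗ[A] M)) := by
    rw [← LinearMap.ker_eq_bot, LinearMap.ker_eq_bot']
    intro x hx
    exact hg x hx
  have i1 : (N ⧸ gN.comap N.subtype) ≃ₗ[A]
      (N ⧸ (LinearMap.range (g • (LinearMap.id : N →ₗ[A] N)))) := by
    refine Submodule.Quotient.equiv _ _ (LinearEquiv.refl A N) ?_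
    ext x
    simp only [gN, Submodule.mem_map, LinearMap.mem_range, Submodule.mem_comap,
      Submodule.subtype_apply]
    constructor
    · rintro ⟨y, ⟨z, hz, hzy⟩, rfl⟩
      refine ⟨⟨z, hz⟩, ?_⟩
      apply Subtype.ext
      exact hzy
    · rintro ⟨y, rfl⟩
      exact ⟨_, ⟨y.1, y.2, rfl⟩, rfl⟩
  let em : M ≃ₗ[A] gM := LinearEquiv.ofInjective _ hinj
  have i2 : (M ⧸ N) ≃ₗ[A] (gM ⧸ gN.comap gM.subtype) := by
    refine Submodule.Quotient.equiv _ _ em ?_
    ext x
    simp only [gN, Submodule.mem_map, Submodule.mem_comap, Submodule.subtype_apply]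
    constructor
    · rintro ⟨y, hy, rfl⟩
      exact ⟨y, hy, rfl⟩
    · rintro ⟨y, hy, hyx⟩
      refine ⟨y, hy, ?_⟩
      apply Subtype.ext
      exact hyx
  rw [e1, ← i2.length_eq, i1.length_eq, add_comm] at e2
  exact (ENat.add_right_injective_of_ne_top hN e2).symm

/-- T1 -/
theorem length_quot_smul {A : Type*} [CommRing A] [IsDomain A] {V : Type*} [AddCommGroup V]
    [Module A V] (φ : V →ₗ[A] A) (hφ : Function.Injective φ) {u : A} (hu : u ≠ 0)
    (hfin : Module.length A (A ⧸ LinearMap.range φ) ≠ ⊤) :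
    Module.length A (V ⧸ LinearMap.range (u • (LinearMap.id : V →ₗ[A] V))) =
      Module.length A (A ⧸ Ideal.span {u}) := by
  have h1 := length_quot_eq_of_colength (LinearMap.range φ) hfin u (fun x hx => by
    rw [smul_eq_mul] at hx
    exact (mul_eq_zero.1 hx).resolve_left hu)
  let e : V ≃ₗ[A] LinearMap.range φ := LinearEquiv.ofInjective φ hφ
  have i1 : (V ⧸ LinearMap.range (u • (LinearMap.id : V →ₗ[A] V))) ≃ₗ[A]
      (LinearMap.range φ ⧸
        LinearMap.range (u • (LinearMap.id : LinearMap.range φ →ₗ[A] LinearMap.range φ))) := by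
    refine Submodule.Quotient.equiv _ _ e ?_
    ext z
    rw [Submodule.mem_map, LinearMap.mem_range]
    constructor
    · rintro ⟨_, ⟨y, rfl⟩, rfl⟩
      exact ⟨e y, (e.map_smul u y).symm⟩
    · rintro ⟨y, rfl⟩
      refine ⟨u • e.symm y, ⟨e.symm y, rfl⟩, ?_⟩
      show e (u • e.symm y) = u • y
      rw [map_smul, LinearEquiv.apply_symm_apply]
  have h2 : LinearMap.range (u • (LinearMap.id : A →ₗ[A] A)) = (Ideal.span {u} : Ideal A) := by
    ext z
    rw [LinearMap.mem_range, Ideal.mem_span_singleton']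
    constructor
    · rintro ⟨y, rfl⟩
      exact ⟨y, mul_comm _ _⟩
    · rintro ⟨y, rfl⟩
      exact ⟨y, mul_comm _ _⟩
  rw [i1.length_eq, ← h1, h2]

/-- T4 -/
theorem finite_cosets {Γ : Type*} [AddCommGroup Γ] (D E : AddSubgroup Γ) (k : ℕ)
    (hk : 0 < k) (hN : ∃ n, Nonempty (Γ ≃+ (Fin n → ℤ))) (h : ∀ γ : Γ, k • γ ∈ D) :
    Finite (E ⧸ D.addSubgroupOf E) := by
  obtain ⟨n, ⟨f⟩⟩ := hN
  have hfin : Module.Finite ℤ Γ := Module.Finite.equiv f.symm.toIntLinearEquiv
  have hE : Module.Finite ℤ E := Module.Finite.of_injective E.subtype.toIntLinearMap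
    E.subtype_injective
  have hfg : AddGroup.FG (E ⧸ D.addSubgroupOf E) := by
    have : AddGroup.FG E := Module.Finite.iff_addGroup_fg.1 hE
    exact QuotientAddGroup.fg _
  apply AddCommGroup.finite_of_fg_isAddTorsion
  intro x
  obtain ⟨x, rfl⟩ := QuotientAddGroup.mk_surjective x
  rw [isOfFinAddOrder_iff_nsmul_eq_zero]
  refine ⟨k, hk, ?_⟩
  rw [← QuotientAddGroup.mk_nsmul, QuotientAddGroup.eq_zero_iff, AddSubgroup.mem_addSubgroupOf]
  exact h x

/-- T4 -/
theorem card_cosets {Γ : Type*} [AddCommGroup Γ] (D E : AddSubgroup Γ) (k : ℕ)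
    (hk : 0 < k) (hN : ∃ n, Nonempty (Γ ≃+ (Fin n → ℤ))) (h : ∀ γ : Γ, k • γ ∈ D) :
    Finite (E ⧸ D.addSubgroupOf E) ∧ D.relIndex E = Nat.card (E ⧸ D.addSubgroupOf E) :=
  ⟨finite_cosets D E k hk hN h, rfl⟩

end Pool.Agent.RCH.Wt
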