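import Pool.Agent.RCH.WtOrd
import Pool.Agent.RCH.WtMv
import Pool.Agent.RCH.WtDefs

/-!
# Comparison of the two orders of vanishing on a weighted projective variety
-/

set_option autoImplicit false

open MvPolynomial

namespace Pool.Agent.RCH.Wt

attribute [local instance] MvPolynomial.weightedGradedAlgebra

variable {ι : Type} {X : WVar ι} {N : ℕ}

lemma length_subring {K : Type} [CommRing K] {R₁ R₂ : Subring K} (h : R₁ = R₂) (u₁ : R₁) (u₂ : R₂)
    (hu : (u₁ : K) = u₂) : Module.length R₁ (R₁ ⧸ Ideal.span {u₁}) =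
      Module.length R₂ (R₂ ⧸ Ideal.span {u₂}) := by
  subst h
  rw [Subtype.ext hu]

lemma localRing_eq (P Q : Pt X N) : haveI := P.prime; haveI := Q.prime
    localRing X P Q = locRing (gr X N) P.I Q.I := by
  have hP := P.prime
  have hQ := Q.prime
  ext x
  constructor
  · rintro ⟨e, a, s, ha, hs, hsQ, hx⟩
    exact ⟨_, a, s, mem_of_homog ha, mem_of_homog hs, hsQ, hx⟩
  · rintro ⟨γ, a, s, ha, hs, hsQ, hx⟩
    have hs0 : s ≠ 0 := fun h => hsQ (by rw [h]; exact zero_mem _)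
    obtain ⟨e, rfl, hs'⟩ := homog_of_mem hs hs0
    refine ⟨e, a, s, ?_, hs', hsQ, hx⟩
    by_cases ha0 : a = 0
    · rw [ha0]
      exact isWeightedHomogeneous_zero _ _ _
    · obtain ⟨e', he', ha'⟩ := homog_of_mem ha ha0
      have h1 : e = e' := ncast_injective he'
      rw [h1]
      exact ha'

/-- the index of the group of the degrees of `Q` in `ℤ ^ N` -/
noncomputable def idx (Q : Pt X N) : ℕ := (degs (gr X N) Q.I).index

lemma degs_mono {P Q : Pt X N} (h : P.I ≤ Q.I) : degs (gr X N) Q.I ≤ degs (gr X N) P.I := by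
  have hP := P.prime
  rw [degs, AddSubgroup.closure_le]
  rintro γ ⟨a, ha, haQ⟩
  exact mem_degs ha fun h1 => haQ (h h1)

lemma idx_mul {P Q : Pt X N} (h : P.I ≤ Q.I) :
    Nat.card (Cls (gr X N) P.I Q.I) * idx P = idx Q :=
  AddSubgroup.relIndex_mul_index (degs_mono h)

lemma idx_ne_zero (hw : ∀ j, 0 < X.wt j) (Q : Pt X N) : idx Q ≠ 0 := by
  obtain ⟨k, hk, h⟩ := exists_pow_degs hw Q
  have h1 := finite_cosets (degs (gr X N) Q.I) ⊤ k hk ⟨N, ⟨AddEquiv.refl _⟩⟩ fun γ => (h γ).1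
  have h2 : (degs (gr X N) Q.I).relIndex ⊤ ≠ 0 := Nat.card_pos.ne'
  rwa [AddSubgroup.relIndex_top_right] at h2

variable [Finite ι]

lemma ordAt_eq_idx (hw : ∀ j, 0 < X.wt j) {P Q : Pt X N} (hc : CodimOne P.I Q.I)
    {e : Fin N → ℕ} {a s : Coord ι N} (ha : IsWeightedHomogeneous (X.mdeg N) a e)
    (hs : IsWeightedHomogeneous (X.mdeg N) s e) (haP : a ∉ P.I) (hsQ : s ∉ Q.I)
    (u : localRing X P Q) (hu : (u : FracField X P) * frac X P s = frac X P a) :
    haveI := Q.prime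
    ordAt P.I Q.I a = (Nat.card (Cls (gr X N) P.I Q.I) : ℕ∞) * ordIn X u := by
  have hP := P.prime
  have hQ := Q.prime
  have hPQ : P.I ≤ Q.I := hc.1.le
  obtain ⟨k, hk, hdeg⟩ := exists_pow_degs hw Q
  have hfinc : Finite (Cls (gr X N) P.I Q.I) :=
    finite_cosets (degs (gr X N) Q.I) (degs (gr X N) P.I) k hk ⟨N, ⟨AddEquiv.refl _⟩⟩
      fun γ => (hdeg γ).1
  have heq := localRing_eq P Q
  have hu' : (u : FracField X P) ∈ locRing (gr X N) P.I Q.I := by
    rw [← heq]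
    exact u.2
  rw [ordIn, quotLength, length_subring heq u ⟨u, hu'⟩ rfl]
  refine ordAt_eq_mul (pt_isHomogeneous P) (pt_isHomogeneous Q) hPQ ?_ ?_ (mem_of_homog ha) haP
    (mem_of_homog hs) hsQ hu
  · intro γ t ht htP
    have ht0 : t ≠ 0 := fun h => htP (by rw [h]; exact zero_mem _)
    obtain ⟨e, he, -⟩ := homog_of_mem ht ht0
    exact ⟨k, hk, (hdeg γ).2 e he⟩
  · intro γ b _ hb
    exact ordAt_ne_top hc hb

lemma ordIn_ne_top {P Q : Pt X N} (hc : CodimOne P.I Q.I)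
    (u : localRing X P Q) (hu0 : u ≠ 0) : ordIn X u ≠ ⊤ := by
  have hP := P.prime
  have hQ := Q.prime
  have heq := localRing_eq P Q
  have hu' : (u : FracField X P) ∈ locRing (gr X N) P.I Q.I := by
    rw [← heq]
    exact u.2
  rw [ordIn, quotLength, length_subring heq u ⟨u, hu'⟩ rfl]
  refine length_ne_top (pt_isHomogeneous P) (pt_isHomogeneous Q) hc.1.le ?_ ?_
  · intro γ b _ hb
    exact ordAt_ne_top hc hb
  · intro h
    have h1 : (u : FracField X P) = 0 := congrArg Subtype.val h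
    exact hu0 (Subtype.ext h1)

/-- The difference of the orders of vanishing is the index times the difference of the orders of
vanishing in the local ring. -/
theorem ordAt_sub (hw : ∀ j, 0 < X.wt j) {P Q : Pt X N} (hc : CodimOne P.I Q.I)
    {g h : Coord ι N} (hg : g ∉ P.I) (hh : h ∉ P.I) (u v : localRing X P Q) (hu0 : u ≠ 0)
    (hv0 : v ≠ 0) (huv : frac X P g * v = frac X P h * u) :
    haveI := Q.prime
    ((ordAt P.I Q.I g).toNat : ℤ) - ((ordAt P.I Q.I h).toNat : ℤ) =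
      (Nat.card (Cls (gr X N) P.I Q.I) : ℤ) *
        (((ordIn X u).toNat : ℤ) - ((ordIn X v).toNat : ℤ)) := by
  have hP := P.prime
  have hQ := Q.prime
  have hPQ : P.I ≤ Q.I := hc.1.le
  obtain ⟨u, e, a, s, ha, hs, hsQ, hu⟩ := u
  obtain ⟨v, e', b, t, hb, ht, htQ, hv⟩ := v
  have hnot : ∀ (x : FracField X P) (c r : Coord ι N), x ≠ 0 → r ∉ Q.I →
      x * frac X P r = frac X P c → c ∉ P.I := by
    intro x c r hx hr hxr hcP
    have h1 : frac X P c = 0 := (res_eq_zero P.I).2 hcP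
    rw [h1] at hxr
    rcases (mul_eq_zero (M₀ := FractionRing (Coord ι N ⧸ P.I))).1 hxr with h2 | h2
    · exact hx h2
    · exact hr (hPQ ((res_eq_zero P.I).1 h2))
  have haP : a ∉ P.I := hnot u a s (fun h => hu0 (Subtype.ext h)) hsQ hu
  have hbP : b ∉ P.I := hnot v b t (fun h => hv0 (Subtype.ext h)) htQ hv
  have e1 := ordAt_eq_idx hw hc ha hs haP hsQ ⟨u, e, a, s, ha, hs, hsQ, hu⟩ hu
  have e2 := ordAt_eq_idx hw hc hb ht hbP htQ ⟨v, e', b, t, hb, ht, htQ, hv⟩ hv
  have e3 : ordAt P.I Q.I g + ordAt P.I Q.I b = ordAt P.I Q.I h + ordAt P.I Q.I a := by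
    have h1 : g * b * s - h * a * t ∈ P.I := by
      rw [← res_eq_zero P.I]
      show frac X P (g * b * s - h * a * t) = 0
      simp only [map_sub, map_mul]
      rw [← hu, ← hv]
      linear_combination (frac X P s * frac X P t) * huv
    have h2 := ordAt_congr (P := P.I) (Q := Q.I) h1
    rw [mul_comm (g * b) s, mul_comm (h * a) t, ordAt_unit_mul hsQ, ordAt_unit_mul htQ,
      ordAt_mul hPQ g hbP, ordAt_mul hPQ h haP] at h2
    exact h2
  have f1 := ordAt_ne_top hc hg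
  have f2 := ordAt_ne_top hc hh
  have f3 := ordAt_ne_top hc haP
  have f4 := ordAt_ne_top hc hbP
  have e4 := congrArg ENat.toNat e1
  have e5 := congrArg ENat.toNat e2
  have e6 := congrArg ENat.toNat e3
  rw [ENat.toNat_mul, ENat.toNat_natCast] at e4 e5
  rw [ENat.toNat_add f1 f4, ENat.toNat_add f2 f3] at e6
  rw [mul_sub, ← Nat.cast_mul, ← Nat.cast_mul, ← e4, ← e5]
  omega

end Pool.Agent.RCH.Wt
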