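import Pool.Agent.RCH.WtGr
import Pool.Agent.RCH.Ord2

/-!
# The length over the localised graded ring and the length over the local ring of the variety
-/

set_option autoImplicit false

open DirectSum

namespace Pool.Agent.RCH.Wt

section graded

variable {S : Type} [CommRing S] {Γ : Type} [AddCommGroup Γ] [DecidableEq Γ]
  {τ : Type} [SetLike τ S] [AddSubgroupClass τ S] {𝒜 : Γ → τ} [GradedRing 𝒜]
  {P Q : Ideal S} [P.IsPrime] [Q.IsPrime]

omit [P.IsPrime] in
lemma locMem_iff {I : Ideal S} {y : S} : LocMem Q I y ↔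
    algebraMap S (Localization.AtPrime Q) y ∈ I.map (algebraMap S (Localization.AtPrime Q)) := by
  rw [IsLocalization.algebraMap_mem_map_algebraMap_iff Q.primeCompl]
  rfl

omit [P.IsPrime] in
lemma smul_mem_of_max {J : Ideal (Localization.AtPrime Q)} {y : Localization.AtPrime Q}
    (h : ∀ q ∈ Q, algebraMap S (Localization.AtPrime Q) q * y ∈ J)
    {c : Localization.AtPrime Q} (hc : c ∈ IsLocalRing.maximalIdeal (Localization.AtPrime Q)) :
    c * y ∈ J := by
  rw [← Localization.AtPrime.map_eq_maximalIdeal] at hc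
  refine Submodule.span_induction ?_ ?_ ?_ ?_ hc
  · rintro _ ⟨q, hq, rfl⟩
    exact h q hq
  · rw [zero_mul]
    exact zero_mem _
  · intro a b _ _ ha hb
    rw [add_mul]
    exact add_mem ha hb
  · intro a b _ hb
    rw [smul_eq_mul, mul_assoc]
    exact J.mul_mem_left _ hb

omit [P.IsPrime] in
theorem exists_socle (hQ : Q.IsHomogeneous 𝒜) {I : Ideal S}
    (hfin : Module.length (Localization.AtPrime Q)
      (Localization.AtPrime Q ⧸ I.map (algebraMap S (Localization.AtPrime Q))) ≠ ⊤)
    (h1 : ¬ LocMem Q I 1) : ∃ (d : Γ) (x : S), x ∈ 𝒜 d ∧ ¬ LocMem Q I x ∧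
      ∀ q ∈ Q, LocMem Q I (q * x) := by
  classical
  set L := Localization.AtPrime Q
  set IL := I.map (algebraMap S L) with hIL
  rw [Module.length_ne_top_iff, isFiniteLength_iff_isNoetherian_isArtinian] at hfin
  have hart := hfin.2
  obtain ⟨N, ⟨d, x, hx, hxI, rfl⟩, hmin⟩ := IsArtinian.set_has_minimal
    {N : Submodule L (L ⧸ IL) | ∃ (d : Γ) (x : S), x ∈ 𝒜 d ∧ ¬ LocMem Q I x ∧
      N = Submodule.span L {(IL.mkQ (algebraMap S L x) : L ⧸ IL)}}
    ⟨_, 0, 1, SetLike.one_mem_graded _, h1, rfl⟩
  refine ⟨d, x, hx, hxI, ?_⟩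
  -- homogeneous elements of `Q`
  have hhom : ∀ (k : Γ) (q : S), q ∈ 𝒜 k → q ∈ Q → LocMem Q I (q * x) := by
    intro k q hqk hq
    by_contra hc
    have h2 := hmin _ ⟨k + d, q * x, SetLike.mul_mem_graded hqk hx, hc, rfl⟩
    have h3 : Submodule.span L {(IL.mkQ (algebraMap S L (q * x)) : L ⧸ IL)} ≤
        Submodule.span L {(IL.mkQ (algebraMap S L x) : L ⧸ IL)} := by
      rw [Submodule.span_le, Set.singleton_subset_iff, SetLike.mem_coe,
        Submodule.mem_span_singleton]
      exact ⟨algebraMap S L q, by rw [← map_smul, smul_eq_mul, ← map_mul (algebraMap S L)]⟩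
    have h4 : IL.mkQ (algebraMap S L x) ∈
        Submodule.span L {(IL.mkQ (algebraMap S L (q * x)) : L ⧸ IL)} := by
      by_contra h5
      refine h2 (lt_of_le_of_ne h3 fun h6 => h5 ?_)
      rw [h6]
      exact Submodule.mem_span_singleton_self _
    obtain ⟨c, hc⟩ := Submodule.mem_span_singleton.1 h4
    rw [← map_smul, ← sub_eq_zero, ← map_sub, Submodule.mkQ_apply,
      Submodule.Quotient.mk_eq_zero] at hc
    have h7 : (c * algebraMap S L q - 1) * algebraMap S L x ∈ IL := by
      have h8 : (c * algebraMap S L q - 1) * algebraMap S L x =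
          c • algebraMap S L (q * x) - algebraMap S L x := by
        rw [smul_eq_mul, map_mul]
        ring
      rwa [h8]
    have h9 : IsUnit (c * algebraMap S L q - 1) := by
      have h10 : algebraMap S L q ∈ IsLocalRing.maximalIdeal L := by
        rw [← Localization.AtPrime.map_eq_maximalIdeal]
        exact Ideal.mem_map_of_mem _ hq
      have h11 : c * algebraMap S L q ∈ IsLocalRing.maximalIdeal L := Ideal.mul_mem_left _ _ h10
      by_contra h12
      have h13 : c * algebraMap S L q - 1 ∈ IsLocalRing.maximalIdeal L := h12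
      have h14 := sub_mem h11 h13
      rw [sub_sub_cancel] at h14
      exact (Ideal.ne_top_iff_one _).1 (IsLocalRing.maximalIdeal.isMaximal L).ne_top h14
    exact hxI (locMem_iff.2 ((Ideal.unit_mul_mem_iff_mem _ h9).1 h7))
  intro q hq
  rw [← DirectSum.sum_support_decompose 𝒜 q, Finset.sum_mul]
  have hsum : ∀ s : Finset Γ, LocMem Q I (∑ k ∈ s, (decompose 𝒜 q k : S) * x) := by
    intro s
    induction s using Finset.induction_on with
    | empty => rw [Finset.sum_empty]; exact LocMem.of_mem (zero_mem _)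
    | insert a s has ih =>
      rw [Finset.sum_insert has]
      exact (hhom a _ (SetLike.coe_mem _) (hQ a hq)).add ih
  exact hsum _

theorem main_length (hQ : Q.IsHomogeneous 𝒜) (hPQ : P ≤ Q) : ∀ (n : ℕ) (I : Ideal S),
    I.IsHomogeneous 𝒜 → P ≤ I → Module.length (Localization.AtPrime Q)
      (Localization.AtPrime Q ⧸ I.map (algebraMap S (Localization.AtPrime Q))) = n →
    Module.length (locRing 𝒜 P Q)
      ((∀ c : Cls 𝒜 P Q, fr 𝒜 P Q (rep c) ⊤) ⧸ W 𝒜 P Q I) = n := by
  intro n
  induction n with
  | zero =>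
    intro I hI hPI h
    rw [Nat.cast_zero, Module.length_eq_zero_iff, Submodule.Quotient.subsingleton_iff] at h
    have h1 : LocMem Q I 1 := locMem_iff.2 (by rw [h]; exact Submodule.mem_top)
    have h2 : ∀ y, LocMem Q I y := fun y => by
      have := h1.mul_right y
      rwa [one_mul] at this
    rw [Nat.cast_zero, Module.length_eq_zero_iff, Submodule.Quotient.subsingleton_iff,
      Submodule.eq_top_iff']
    intro f
    rw [mem_W]
    intro c
    obtain ⟨γ, a, s, -, ha, hs, hsQ, hfs⟩ := (f c).2
    exact (mem_fr_iff hI hPI ha hs hsQ hfs).2 (h2 a)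
  | succ n ih =>
    intro I hI hPI h
    have h1 : ¬ LocMem Q I 1 := by
      intro h1
      have h2 : I.map (algebraMap S (Localization.AtPrime Q)) = ⊤ := by
        rw [Ideal.eq_top_iff_one, ← map_one (algebraMap S (Localization.AtPrime Q))]
        exact locMem_iff.1 h1
      rw [h2, (Module.length_eq_zero_iff (R := Localization.AtPrime Q)).2
        (Submodule.Quotient.subsingleton_iff.2 rfl)] at h
      exact absurd h.symm (by simp)
    obtain ⟨d, x, hx, hxI, hqx⟩ := exists_socle hQ (by rw [h]; exact ENat.natCast_ne_top _) h1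
    have hJ : (I ⊔ Ideal.span {x}).IsHomogeneous 𝒜 := by
      refine hI.sup (Ideal.homogeneous_span 𝒜 _ ?_)
      rintro y rfl
      exact ⟨d, hx⟩
    have hcov : I.map (algebraMap S (Localization.AtPrime Q)) ⋖
        (I ⊔ Ideal.span {x}).map (algebraMap S (Localization.AtPrime Q)) := by
      rw [map_sup_span]
      refine covBy_sup_span (m := (IsLocalRing.maximalIdeal (Localization.AtPrime Q) : Set _))
        (fun c hc => not_not.1 hc) (fun hc => hxI (locMem_iff.2 hc)) ?_
      intro c hc
      refine smul_mem_of_max (fun q hq => ?_) hc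
      rw [← map_mul]
      exact locMem_iff.1 (hqx q hq)
    have h2 := length_quot_covBy hcov
    rw [h, Nat.cast_add, Nat.cast_one] at h2
    have h3 : Module.length (Localization.AtPrime Q) (Localization.AtPrime Q ⧸
        (I ⊔ Ideal.span {x}).map (algebraMap S (Localization.AtPrime Q))) = n :=
      (ENat.add_left_injective_of_ne_top (by simp) h2).symm
    rw [length_quot_covBy (W_covBy hPQ hI hPI hx hxI hqx), ih _ hJ (hPI.trans le_sup_left) h3,
      Nat.cast_add, Nat.cast_one]

end graded

end Pool.Agent.RCH.Wt
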