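import Pool.Agent.RCH.WtLen

/-!
# The order of vanishing is the index of the degrees times the order on the variety
-/

set_option autoImplicit false

open DirectSum

namespace Pool.Agent.RCH.Wt

theorem length_pi_quot {A : Type*} [CommRing A] {ι : Type*} [Fintype ι] {V : ι → Type*}
    [∀ i, AddCommGroup (V i)] [∀ i, Module A (V i)] (N : ∀ i, Submodule A (V i)) :
    Module.length A ((∀ i, V i) ⧸ Submodule.pi Set.univ N) =
      ∑ i, Module.length A (V i ⧸ N i) := by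
  classical
  rw [(Submodule.quotientPi N).length_eq, Module.length_pi_of_fintype]

section graded

variable {S : Type} [CommRing S] {Γ : Type} [AddCommGroup Γ] [DecidableEq Γ]
  {τ : Type} [SetLike τ S] [AddSubgroupClass τ S] {𝒜 : Γ → τ} [GradedRing 𝒜]
  {P Q : Ideal S} [P.IsPrime] [Q.IsPrime]

/-- the fractions with numerators in `P + (a)` are the multiples of `a / s` -/
lemma fr_sup (hP : P.IsHomogeneous 𝒜) (hPQ : P ≤ Q) {d : Γ} {a s : S} (ha : a ∈ 𝒜 d)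
    (hs : s ∈ 𝒜 d) (hsQ : s ∉ Q) {u : locRing 𝒜 P Q}
    (hu : (u : FractionRing (S ⧸ P)) * res P s = res P a) (δ : Γ)
    (x : fr 𝒜 P Q δ ⊤) : (x : FractionRing (S ⧸ P)) ∈ fr 𝒜 P Q δ (P ⊔ Ideal.span {a}) ↔
      x ∈ LinearMap.range (u • (LinearMap.id : fr 𝒜 P Q δ ⊤ →ₗ[locRing 𝒜 P Q] fr 𝒜 P Q δ ⊤)) := by
  have hmul : ∀ {a b : S}, a ∉ Q → b ∉ Q → a * b ∉ Q := fun ha hb h =>
    (Ideal.IsPrime.mem_or_mem ‹_› h).elim ha hb
  have hres : ∀ {a : S}, a ∉ Q → res P a ≠ 0 := fun ha h => ha (hPQ ((res_eq_zero P).1 h))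
  constructor
  · rintro ⟨γ, j, t, hj, hjg, ht, htQ, hx⟩
    obtain ⟨i, hi, r, hr, -, rfl⟩ := exists_of_sup hP ha hj hjg
    have hrs : r * s ∈ 𝒜 (γ + δ) := by
      have h := SetLike.mul_mem_graded hr hs
      rwa [sub_add_cancel] at h
    refine ⟨⟨res P (r * s) / res P t, γ, r * s, t, Submodule.mem_top, hrs, ht, htQ,
      div_mul_cancel₀ _ (hres htQ)⟩, ?_⟩
    apply Subtype.ext
    show (u : FractionRing (S ⧸ P)) * (res P (r * s) / res P t) = x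
    rw [← mul_div_assoc, div_eq_iff (hres htQ), hx, map_mul, map_add, map_mul, (res_eq_zero P).2 hi,
      ← hu]
    ring
  · rintro ⟨⟨y, γ, b, t, -, hb, ht, htQ, hy⟩, rfl⟩
    refine ⟨d + γ, a * b, s * t, Ideal.mul_mem_right _ _
      (Ideal.mem_sup_right (Ideal.mem_span_singleton_self a)), ?_, SetLike.mul_mem_graded hs ht,
      hmul hsQ htQ, ?_⟩
    · have h := SetLike.mul_mem_graded ha hb
      rwa [← add_assoc] at h
    · show (u : FractionRing (S ⧸ P)) * y * _ = _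
      rw [map_mul, map_mul, ← hu, ← hy]
      ring

/-- multiplication by a fraction of degree `-δ` -/
noncomputable def mulTo {δ : Γ} {z : FractionRing (S ⧸ P)} (hz : z ∈ fr 𝒜 P Q (-δ) ⊤) :
    fr 𝒜 P Q δ ⊤ →ₗ[locRing 𝒜 P Q] locRing 𝒜 P Q where
  toFun x := ⟨z * x, by
    obtain ⟨γ, b, t, -, hb, ht, htQ, hz⟩ := hz
    obtain ⟨x, γ', c, r, -, hc, hr, hrQ, hx⟩ := x
    refine ⟨γ + γ', b * c, t * r, ?_, SetLike.mul_mem_graded ht hr,
      fun h => (Ideal.IsPrime.mem_or_mem ‹_› h).elim htQ hrQ, ?_⟩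
    · have h := SetLike.mul_mem_graded hb hc
      rwa [show γ + -δ + (γ' + δ) = γ + γ' by abel] at h
    · show z * x * _ = _
      rw [map_mul, map_mul, ← hz, ← hx]
      ring⟩
  map_add' x y := by
    apply Subtype.ext
    show z * ((x : FractionRing (S ⧸ P)) + y) = z * x + z * y
    ring
  map_smul' c x := by
    apply Subtype.ext
    show z * ((c : FractionRing (S ⧸ P)) * x) = c * (z * x)
    ring

lemma mulTo_injective {δ : Γ} {z : FractionRing (S ⧸ P)} (hz : z ∈ fr 𝒜 P Q (-δ) ⊤)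
    (hz0 : z ≠ 0) : Function.Injective (mulTo hz) := by
  intro x y h
  apply Subtype.ext
  have h1 : z * (x : FractionRing (S ⧸ P)) = z * y := congrArg Subtype.val h
  exact mul_left_cancel₀ hz0 h1

/-- in a degree of `Q` the fractions are those of degree zero times a unit -/
lemma length_fr_of_degs (hPQ : P ≤ Q) {δ : Γ} (hδ : δ ∈ degs 𝒜 Q) {u : locRing 𝒜 P Q}
    (hu0 : u ≠ 0) :
    Module.length (locRing 𝒜 P Q) (fr 𝒜 P Q δ ⊤ ⧸ LinearMap.range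
      (u • (LinearMap.id : fr 𝒜 P Q δ ⊤ →ₗ[locRing 𝒜 P Q] fr 𝒜 P Q δ ⊤))) =
      Module.length (locRing 𝒜 P Q) (locRing 𝒜 P Q ⧸ Ideal.span {u}) := by
  have hmul : ∀ {a b : S}, a ∉ Q → b ∉ Q → a * b ∉ Q := fun ha hb h =>
    (Ideal.IsPrime.mem_or_mem ‹_› h).elim ha hb
  have hres : ∀ {a : S}, a ∉ Q → res P a ≠ 0 := fun ha h => ha (hPQ ((res_eq_zero P).1 h))
  obtain ⟨γ, t₁, t₂, ht₁, ht₂, ht₁Q, ht₂Q⟩ := exists_of_degs hδ
  have hz : res P t₂ / res P t₁ ∈ fr 𝒜 P Q (-δ) ⊤ :=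
    ⟨γ + δ, t₂, t₁, Submodule.mem_top, by rwa [add_neg_cancel_right], ht₁, ht₁Q,
      div_mul_cancel₀ _ (hres ht₁Q)⟩
  refine length_quot_smul (mulTo hz) (mulTo_injective hz (div_ne_zero (hres ht₂Q) (hres ht₁Q)))
    hu0 ?_
  have hsurj : LinearMap.range (mulTo hz) = ⊤ := by
    rw [LinearMap.range_eq_top]
    rintro ⟨w, γ', a, s, ha, hs, hsQ, hw⟩
    refine ⟨⟨w * (res P t₁ / res P t₂), γ' + γ, a * t₁, s * t₂, Submodule.mem_top, ?_,
      SetLike.mul_mem_graded hs ht₂, hmul hsQ ht₂Q, ?_⟩, ?_⟩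
    · have h := SetLike.mul_mem_graded ha ht₁
      rwa [← add_assoc] at h
    · rw [map_mul, map_mul, ← hw]
      field_simp [hres ht₂Q]
    · apply Subtype.ext
      show res P t₂ / res P t₁ * (w * (res P t₁ / res P t₂)) = w
      field_simp [hres ht₁Q, hres ht₂Q]
  rw [hsurj, Module.length_eq_zero_iff.2 (Submodule.Quotient.subsingleton_iff.2 rfl)]
  exact ENat.zero_ne_top

/-- the quotient by a nonzero element of the local ring has finite length -/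
lemma length_ne_top (hP : P.IsHomogeneous 𝒜) (hQ : Q.IsHomogeneous 𝒜) (hPQ : P ≤ Q)
    (hfin : ∀ (γ : Γ) (b : S), b ∈ 𝒜 γ → b ∉ P → ordAt P Q b ≠ ⊤)
    {u : locRing 𝒜 P Q} (hu0 : u ≠ 0) :
    Module.length (locRing 𝒜 P Q) (locRing 𝒜 P Q ⧸ Ideal.span {u}) ≠ ⊤ := by
  classical
  obtain ⟨u, d, a, s, ha, hs, hsQ, hu⟩ := u
  have haP : a ∉ P := by
    intro h
    rw [(res_eq_zero P).2 h] at hu
    rcases mul_eq_zero.1 hu with h1 | h1
    · exact hu0 (Subtype.ext h1)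
    · exact hsQ (hPQ ((res_eq_zero P).1 h1))
  set v : locRing 𝒜 P Q := ⟨u, d, a, s, ha, hs, hsQ, hu⟩ with hv
  have hJ : (P ⊔ Ideal.span {a}).IsHomogeneous 𝒜 := by
    refine hP.sup (Ideal.homogeneous_span 𝒜 _ ?_)
    rintro y rfl
    exact ⟨d, ha⟩
  obtain ⟨n, hn⟩ := ENat.ne_top_iff_exists.1 (hfin d a ha haP)
  have h1 := main_length hQ hPQ n _ hJ le_sup_left hn.symm
  set c₀ : Cls 𝒜 P Q := QuotientAddGroup.mk ⟨0, zero_mem _⟩
  have h0 : rep c₀ ∈ degs 𝒜 Q := by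
    have := (rep_sub (𝒜 := 𝒜) (P := P) (Q := Q) (zero_mem _) c₀).2 rfl
    rwa [sub_zero] at this
  rw [← length_fr_of_degs hPQ h0 hu0]
  -- the projection
  let pr : ((∀ c : Cls 𝒜 P Q, fr 𝒜 P Q (rep c) ⊤) ⧸ W 𝒜 P Q (P ⊔ Ideal.span {a})) →ₗ[locRing 𝒜 P Q]
      (fr 𝒜 P Q (rep c₀) ⊤ ⧸ LinearMap.range (v • (LinearMap.id :
        fr 𝒜 P Q (rep c₀) ⊤ →ₗ[locRing 𝒜 P Q] fr 𝒜 P Q (rep c₀) ⊤))) :=
    Submodule.mapQ _ _ (LinearMap.proj c₀) (fun f hf => by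
      rw [Submodule.mem_comap]
      exact (fr_sup hP hPQ ha hs hsQ hu _ _).1 (mem_W.1 hf c₀))
  have hpr : Function.Surjective pr := by
    intro y
    obtain ⟨y, rfl⟩ := Submodule.Quotient.mk_surjective _ y
    exact ⟨Submodule.Quotient.mk (Pi.single c₀ y), by simp [pr]⟩
  have h2 := Module.length_le_of_surjective pr hpr
  rw [h1] at h2
  exact ne_top_of_le_ne_top (ENat.natCast_ne_top n) h2

/-- **The order of vanishing**: the length over the localised graded ring is the index of the degrees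
of `Q` in those of `P`, times the length over the local ring of the variety of `P` at `Q`. -/
theorem ordAt_eq_mul [Finite (Cls 𝒜 P Q)] (hP : P.IsHomogeneous 𝒜) (hQ : Q.IsHomogeneous 𝒜)
    (hPQ : P ≤ Q) (hrel : ∀ (γ : Γ) (t : S), t ∈ 𝒜 γ → t ∉ P → ∃ k : ℕ, 0 < k ∧
      ∃ s ∈ 𝒜 (k • γ), s ∉ Q)
    (hfin : ∀ (γ : Γ) (b : S), b ∈ 𝒜 γ → b ∉ P → ordAt P Q b ≠ ⊤)
    {d : Γ} {a s : S} (ha : a ∈ 𝒜 d) (haP : a ∉ P) (hs : s ∈ 𝒜 d) (hsQ : s ∉ Q)
    {u : locRing 𝒜 P Q} (hu : (u : FractionRing (S ⧸ P)) * res P s = res P a) :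
    ordAt P Q a = (Nat.card (Cls 𝒜 P Q) : ℕ∞) *
      Module.length (locRing 𝒜 P Q) (locRing 𝒜 P Q ⧸ Ideal.span {u}) := by
  classical
  have hres : ∀ {a : S}, a ∉ Q → res P a ≠ 0 := fun ha h => ha (hPQ ((res_eq_zero P).1 h))
  have hresP : ∀ {a : S}, a ∉ P → res P a ≠ 0 := fun ha h => ha ((res_eq_zero P).1 h)
  have hu0 : u ≠ 0 := by
    rintro rfl
    rw [ZeroMemClass.coe_zero, zero_mul] at hu
    exact hresP haP hu.symm
  have hJ : (P ⊔ Ideal.span {a}).IsHomogeneous 𝒜 := by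
    refine hP.sup (Ideal.homogeneous_span 𝒜 _ ?_)
    rintro y rfl
    exact ⟨d, ha⟩
  obtain ⟨n, hn⟩ := ENat.ne_top_iff_exists.1 (hfin d a ha haP)
  have h1 := main_length hQ hPQ n _ hJ le_sup_left hn.symm
  have := Fintype.ofFinite (Cls 𝒜 P Q)
  rw [← hn, ← h1, W, length_pi_quot]
  have hc : ∀ c : Cls 𝒜 P Q, Module.length (locRing 𝒜 P Q) (fr 𝒜 P Q (rep c) ⊤ ⧸
      (fr 𝒜 P Q (rep c) (P ⊔ Ideal.span {a})).comap (Submodule.subtype (fr 𝒜 P Q (rep c) ⊤))) =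
      Module.length (locRing 𝒜 P Q) (locRing 𝒜 P Q ⧸ Ideal.span {u}) := by
    intro c
    have h2 : (fr 𝒜 P Q (rep c) (P ⊔ Ideal.span {a})).comap (Submodule.subtype (fr 𝒜 P Q (rep c) ⊤)) =
        LinearMap.range (u • (LinearMap.id :
          fr 𝒜 P Q (rep c) ⊤ →ₗ[locRing 𝒜 P Q] fr 𝒜 P Q (rep c) ⊤)) := by
      ext x
      exact fr_sup hP hPQ ha hs hsQ hu (rep c) x
    rw [h2]
    -- a fraction of the opposite degree
    have hδ : rep c ∈ degs 𝒜 P := (Quotient.out c : degs 𝒜 P).2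
    obtain ⟨γ, t₁, t₂, ht₁, ht₂, ht₁P, ht₂P⟩ := exists_of_degs (neg_mem hδ)
    obtain ⟨k, hk, r, hr, hrQ⟩ := hrel γ t₂ ht₂ ht₂P
    obtain ⟨k, rfl⟩ := Nat.exists_eq_succ_of_ne_zero hk.ne'
    have hz : res P (t₁ * t₂ ^ k) / res P r ∈ fr 𝒜 P Q (-rep c) ⊤ := by
      refine ⟨(k + 1) • γ, t₁ * t₂ ^ k, r, Submodule.mem_top, ?_, hr, hrQ,
        div_mul_cancel₀ _ (hres hrQ)⟩
      have h := SetLike.mul_mem_graded ht₁ (SetLike.pow_mem_graded k ht₂)
      rwa [show γ + -rep c + k • γ = (k + 1) • γ + -rep c by rw [succ_nsmul]; abel] at h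
    have hz0 : res P (t₁ * t₂ ^ k) / res P r ≠ 0 := by
      refine div_ne_zero (hresP fun h => ?_) (hres hrQ)
      rcases Ideal.IsPrime.mem_or_mem ‹P.IsPrime› h with h | h
      · exact ht₁P h
      · exact ht₂P (Ideal.IsPrime.mem_of_pow_mem ‹P.IsPrime› _ h)
    refine length_quot_smul (mulTo hz) (mulTo_injective hz hz0) hu0 ?_
    -- a nonzero element of the image
    obtain ⟨γ', q₁, q₂, hq₁, hq₂, hq₁P, hq₂P⟩ := exists_of_degs hδ
    obtain ⟨k', hk', r', hr', hrQ'⟩ := hrel γ' q₂ hq₂ hq₂P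
    obtain ⟨k', rfl⟩ := Nat.exists_eq_succ_of_ne_zero hk'.ne'
    have hy : res P (q₁ * q₂ ^ k') / res P r' ∈ fr 𝒜 P Q (rep c) ⊤ := by
      refine ⟨(k' + 1) • γ', q₁ * q₂ ^ k', r', Submodule.mem_top, ?_, hr', hrQ',
        div_mul_cancel₀ _ (hres hrQ')⟩
      have h := SetLike.mul_mem_graded hq₁ (SetLike.pow_mem_graded k' hq₂)
      rwa [show γ' + rep c + k' • γ' = (k' + 1) • γ' + rep c by rw [succ_nsmul]; abel] at h
    have hy0 : res P (q₁ * q₂ ^ k') / res P r' ≠ 0 := by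
      refine div_ne_zero (hresP fun h => ?_) (hres hrQ')
      rcases Ideal.IsPrime.mem_or_mem ‹P.IsPrime› h with h | h
      · exact hq₁P h
      · exact hq₂P (Ideal.IsPrime.mem_of_pow_mem ‹P.IsPrime› _ h)
    set w := mulTo hz ⟨_, hy⟩ with hw
    have hw0 : w ≠ 0 := by
      rw [hw, ← map_zero (mulTo hz)]
      exact fun h => hy0 (congrArg Subtype.val (mulTo_injective hz hz0 h))
    have h3 : (Ideal.span {w} : Ideal (locRing 𝒜 P Q)) ≤ LinearMap.range (mulTo hz) := by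
      rw [Ideal.span_le, Set.singleton_subset_iff]
      exact ⟨_, rfl⟩
    have h4 := length_quot_add h3
    have h5 := length_ne_top hP hQ hPQ hfin hw0
    rw [h4] at h5
    exact fun h => h5 (by rw [h, add_top])
  rw [Finset.sum_congr rfl fun c _ => hc c, Finset.sum_const, Finset.card_univ, nsmul_eq_mul,
    Nat.card_eq_fintype_card]

end graded

end Pool.Agent.RCH.Wt
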